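import Mathlib

/-! Parts: RI.Defs, RI.Stmts, RI.Basic, RI.Stmts2, RI.PD, RI.PDGE, RI.HERB -/

namespace Pool.Agent.RI.PD
end Pool.Agent.RI.PD

namespace Pool.Agent.RI.HERB
end Pool.Agent.RI.HERB

section

/-!
# Relative Iwasawa theorem: definitions

Definitions used in the main statement: `classNo`, `IsLayer`, `Nonsplit`, `UnramInf`,
`NonsplitRam`, `PosDensity`.

Auxiliary definitions: `J K` is the group of nonzero fractional ideals of a number field, with the
action of the field automorphisms, `prin x` is the principal fractional ideal of `x`, `ext K L` the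
extension of fractional ideals, `RelTriv F K p` says that the relative class group of `K / F` has
trivial `p`-part, `relU M L` is the group of relative units.
-/

open NumberField
open scoped nonZeroDivisors Pointwise

namespace Pool.Agent.RI

/-! ### Definitions for the main statement -/

/-- The class number of the subfield `E` of `ℂ` (the number of elements of the class group of its
ring of integers). -/
noncomputable def classNo (E : IntermediateField ℚ ℂ) : ℕ := Nat.card (ClassGroup (𝓞 E))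

/-- `B` is the `n`-th layer of the cyclotomic `ℤ_p`-extension of `ℚ`: it has degree `p ^ n` over
`ℚ`, consists of real numbers, and is contained in `ℚ(ζ)` for a root of unity `ζ` of `p`-power
order. -/
def IsLayer (p n : ℕ) (B : IntermediateField ℚ ℂ) : Prop :=
  Module.finrank ℚ B = p ^ n ∧ (∀ z ∈ B, (starRingEnd ℂ) z = z) ∧
    ∃ m : ℕ, B ≤ IntermediateField.adjoin ℚ {z : ℂ | z ^ (p ^ m) = 1}

/-- No prime of `F` above `p` splits in `K`: a prime of `F` containing `p` has at most one prime of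
`K` above it. -/
def Nonsplit (p : ℕ) {F K : IntermediateField ℚ ℂ} (h : F ≤ K) : Prop :=
  ∀ P Q : Ideal (𝓞 K), P.IsPrime → Q.IsPrime → (p : 𝓞 K) ∈ P → (p : 𝓞 K) ∈ Q →
    P.comap (RingOfIntegers.mapRingHom (IntermediateField.inclusion h : F →+* K)) =
      Q.comap (RingOfIntegers.mapRingHom (IntermediateField.inclusion h : F →+* K)) → P = Q

/-- `M / F` is unramified at infinity: an embedding of `M` into `ℂ` that is real on `F` is real. -/
def UnramInf {F M : IntermediateField ℚ ℂ} (_h : F ≤ M) : Prop :=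
  ∀ φ : M →+* ℂ, (∀ x : M, (x : ℂ) ∈ F → (starRingEnd ℂ) (φ x) = φ x) →
    ∀ x : M, (starRingEnd ℂ) (φ x) = φ x

/-- The prime `P` of `F` ramifies in `M`: some prime of `M` above `P` has ramification index
different from `1`. -/
def Ramifies {F M : IntermediateField ℚ ℂ} (h : F ≤ M) (P : Ideal (𝓞 F)) : Prop :=
  letI : Algebra F M := (IntermediateField.inclusion h).toRingHom.toAlgebra
  ∃ R : Ideal (𝓞 M), R.IsPrime ∧ R.under (𝓞 F) = P ∧ R.ramificationIdx (𝓞 F) ≠ 1

/-- No prime of `F` that ramifies in `M` splits in `K`. -/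
def NonsplitRam {F K M : IntermediateField ℚ ℂ} (hK : F ≤ K) (hM : F ≤ M) : Prop :=
  ∀ P Q : Ideal (𝓞 K), P.IsPrime → Q.IsPrime →
    P.comap (RingOfIntegers.mapRingHom (IntermediateField.inclusion hK : F →+* K)) =
      Q.comap (RingOfIntegers.mapRingHom (IntermediateField.inclusion hK : F →+* K)) →
    Ramifies hM
      (P.comap (RingOfIntegers.mapRingHom (IntermediateField.inclusion hK : F →+* K))) → P = Q

/-- The set `S` of natural numbers contains primes with positive lower Dirichlet density. -/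
def PosDensity (S : Set ℕ) : Prop :=
  ∃ δ > 0, ∃ C : ℝ, ∀ s : ℝ, 1 < s → s ≤ 2 →
    δ * Real.log (1 / (s - 1)) - C ≤ ∑' q : {q : ℕ // q.Prime ∧ q ∈ S}, (q : ℝ) ^ (-s)

/-! ### Fractional ideals -/

/-- The group of nonzero fractional ideals of the number field `K`. -/
abbrev J (K : Type) [Field K] : Type := (FractionalIdeal (𝓞 K)⁰ K)ˣ

/-- The principal fractional ideal generated by `x`. -/
noncomputable abbrev prin {K : Type} [Field K] [NumberField K] : Kˣ →* J K :=
  toPrincipalIdeal (𝓞 K) K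

lemma act_aux {K : Type} [Field K] (σ : K ≃+* K) :
    (𝓞 K)⁰ ≤ Submonoid.comap ((RingOfIntegers.mapRingEquiv σ : 𝓞 K ≃+* 𝓞 K) : 𝓞 K →+* 𝓞 K)
      (𝓞 K)⁰ :=
  nonZeroDivisors_le_comap_nonZeroDivisors_of_injective _
      (RingOfIntegers.mapRingEquiv σ).injective

/-- The image of a fractional ideal under a field automorphism. -/
noncomputable def actF {K : Type} [Field K] [NumberField K] (σ : K ≃+* K) :
    FractionalIdeal (𝓞 K)⁰ K →+* FractionalIdeal (𝓞 K)⁰ K :=
  FractionalIdeal.extendedHom' K (act_aux σ)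

lemma map_aux {K : Type} [Field K] [NumberField K] (σ : K ≃+* K) (x : K) :
    IsLocalization.map (S := K) (M := (𝓞 K)⁰) (T := (𝓞 K)⁰) K
      ((RingOfIntegers.mapRingEquiv σ : 𝓞 K ≃+* 𝓞 K) : 𝓞 K →+* 𝓞 K) (act_aux σ) x = σ x := by
  have h : (IsLocalization.map (S := K) (M := (𝓞 K)⁰) (T := (𝓞 K)⁰) K
      ((RingOfIntegers.mapRingEquiv σ : 𝓞 K ≃+* 𝓞 K) : 𝓞 K →+* 𝓞 K) (act_aux σ)) =
      (σ : K →+* K) := by
    apply IsLocalization.ringHom_ext (𝓞 K)⁰
    ext y
    simp only [RingHom.comp_apply, IsLocalization.map_eq, RingHom.coe_coe]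
    rfl
  rw [h]; rfl

/-- `x ∈ σ I ↔ σ⁻¹ x ∈ I`. -/
lemma mem_actF {K : Type} [Field K] [NumberField K] (σ : K ≃+* K)
    (I : FractionalIdeal (𝓞 K)⁰ K) (x : K) : x ∈ actF σ I ↔ σ.symm x ∈ I := by
  unfold actF
  rw [FractionalIdeal.extendedHom'_apply, FractionalIdeal.mem_extended_iff]
  constructor
  · intro h
    refine Submodule.span_induction (p := fun x _ => σ.symm x ∈ I) ?_ ?_ ?_ ?_ h
    · rintro _ ⟨y, hy, rfl⟩
      rw [map_aux, RingEquiv.symm_apply_apply]
      exact hy
    · simp only [map_zero]; exact I.val.zero_mem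
    · intro a b _ _ ha hb
      rw [map_add]
      exact I.val.add_mem ha hb
    · intro a b _ hb
      have : σ.symm (a • b) =
          ((RingOfIntegers.mapRingEquiv σ.symm : 𝓞 K ≃+* 𝓞 K) a) • σ.symm b := by
        rw [Algebra.smul_def, Algebra.smul_def, map_mul]; rfl
      rw [this]
      exact I.val.smul_mem _ hb
  · intro h
    apply Submodule.subset_span
    exact ⟨σ.symm x, h, by rw [map_aux, RingEquiv.apply_symm_apply]⟩

/-- The automorphisms of `K / F` act on the fractional ideals of `K`. -/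
noncomputable instance actJ {K : Type} [Field K] [NumberField K] {F : Type} [Field F]
    [Algebra F K] : MulDistribMulAction (K ≃ₐ[F] K) (J K) where
  smul σ I := Units.map (actF (σ : K ≃+* K)).toMonoidHom I
  one_smul I := by
    apply Units.ext
    apply FractionalIdeal.coeToSubmodule_injective
    ext x
    exact mem_actF (K := K) ((1 : K ≃ₐ[F] K) : K ≃+* K) I x
  mul_smul σ τ I := by
    apply Units.ext
    ext x
    exact (mem_actF ((σ * τ : K ≃ₐ[F] K) : K ≃+* K) I x).trans
      ((mem_actF (σ : K ≃+* K) _ x).trans (mem_actF (τ : K ≃+* K) _ _)).symm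
  smul_mul σ I J := map_mul _ _ _
  smul_one σ := map_one _

/-- `x ∈ σ • I ↔ σ⁻¹ x ∈ I`. -/
lemma mem_smul {K : Type} [Field K] [NumberField K] {F : Type} [Field F]
    [Algebra F K] (σ : K ≃ₐ[F] K) (I : J K) (x : K) :
    x ∈ ((σ • I : J K) : FractionalIdeal (𝓞 K)⁰ K) ↔
      σ.symm x ∈ (I : FractionalIdeal (𝓞 K)⁰ K) :=
  mem_actF (σ : K ≃+* K) I x

/-- `σ (x) = (σ x)`. -/
lemma smul_prin {K : Type} [Field K] [NumberField K] {F : Type} [Field F]
    [Algebra F K] (σ : K ≃ₐ[F] K) (x : Kˣ) : σ • prin x = prin (σ • x) := by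
  apply Units.ext
  ext y
  rw [mem_smul, coe_toPrincipalIdeal, coe_toPrincipalIdeal, FractionalIdeal.mem_spanSingleton,
    FractionalIdeal.mem_spanSingleton]
  constructor
  · rintro ⟨a, ha⟩
    refine ⟨(RingOfIntegers.mapRingEquiv (σ : K ≃+* K) : 𝓞 K ≃+* 𝓞 K) a, ?_⟩
    have := congrArg σ ha
    rw [AlgEquiv.apply_symm_apply, Algebra.smul_def, map_mul] at this
    rw [Algebra.smul_def]
    exact this
  · rintro ⟨a, ha⟩
    refine ⟨(RingOfIntegers.mapRingEquiv (σ.symm : K ≃+* K) : 𝓞 K ≃+* 𝓞 K) a, ?_⟩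
    rw [← ha, Algebra.smul_def, Algebra.smul_def, map_mul]
    congr 1
    exact (σ.symm_apply_apply (x : K)).symm

/-- Extension of fractional ideals from `K` to `L`. -/
noncomputable def ext (K L : Type) [Field K] [NumberField K] [Field L] [NumberField L]
    [Algebra K L] : J K →* J L :=
  Units.map (FractionalIdeal.extendedHom L (𝓞 L) : FractionalIdeal (𝓞 K)⁰ K →+* _).toMonoidHom

lemma ext_prin (K L : Type) [Field K] [NumberField K] [Field L] [NumberField L]
    [Algebra K L] (x : Kˣ) : ext K L (prin x) = prin (Units.map (algebraMap K L) x) := by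
  apply Units.ext
  show FractionalIdeal.extendedHom L (𝓞 L) (prin x : FractionalIdeal (𝓞 K)⁰ K) = _
  rw [coe_toPrincipalIdeal, coe_toPrincipalIdeal, FractionalIdeal.extendedHom_spanSingleton]
  congr 1
  have h : (IsFractionRing.map (A := 𝓞 K) (B := 𝓞 L) (K := K) (L := L)
      (FaithfulSMul.algebraMap_injective (𝓞 K) (𝓞 L))) = algebraMap K L := by
    apply IsLocalization.ringHom_ext (𝓞 K)⁰
    ext y
    simp only [RingHom.comp_apply, IsFractionRing.map, IsLocalization.map_eq]
    rfl
  rw [h]; rfl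

lemma ext_injective (K L : Type) [Field K] [NumberField K] [Field L] [NumberField L]
    [Algebra K L] : Function.Injective (ext K L) := by
  intro a b h
  apply Units.ext
  exact FractionalIdeal.extendedHom_injective (𝓞 K) K L (𝓞 L) (congrArg Units.val h)

/-! ### Relative class groups and relative units -/

/-- The relative class group of `K / F` has trivial `p`-part: every fractional ideal of `K` whose
norm ideal (the product of its conjugates over `F`) is `1` has a power with exponent prime to `p`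
that is principal. -/
def RelTriv (F K : Type) [Field F] [Field K] [NumberField K] [Algebra F K]
    [FiniteDimensional F K] (p : ℕ) : Prop :=
  ∀ c : J K, (∏ σ : K ≃ₐ[F] K, σ • c) = 1 → ∃ m : ℕ, m.Coprime p ∧ ∃ x : Kˣ, c ^ m = prin x

/-- The relative units of `L / M`: units `u` of `L` with `∏ σ u = 1` (as elements of `Lˣ`). -/
noncomputable def relU (M L : Type) [Field M] [Field L] [NumberField L] [Algebra M L]
    [FiniteDimensional M L] : Subgroup Lˣ where
  carrier := {u | prin u = 1 ∧ (∏ σ : L ≃ₐ[M] L, σ • u) = 1}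
  mul_mem' := by
    rintro a b ⟨ha, ha'⟩ ⟨hb, hb'⟩
    refine ⟨by rw [map_mul, ha, hb, one_mul], ?_⟩
    simp only [smul_mul', Finset.prod_mul_distrib, ha', hb', one_mul]
  one_mem' := ⟨map_one _, by simp⟩
  inv_mem' := by
    rintro a ⟨ha, ha'⟩
    refine ⟨by rw [map_inv, ha, inv_one], ?_⟩
    simp only [smul_inv', Finset.prod_inv_distrib, ha', inv_one]

lemma mem_relU {M L : Type} [Field M] [Field L] [NumberField L] [Algebra M L]
    [FiniteDimensional M L] {u : Lˣ} :
    u ∈ relU M L ↔ prin u = 1 ∧ (∏ σ : L ≃ₐ[M] L, σ • u) = 1 := Iff.rfl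

/-- The relative units of `L / M` fixed by `Gal(L / K)`. -/
noncomputable def relUfix (K M L : Type) [Field K] [Field M] [Field L] [NumberField L]
    [Algebra K L] [Algebra M L] [FiniteDimensional M L] : Subgroup Lˣ where
  carrier := {u | u ∈ relU M L ∧ ∀ τ : L ≃ₐ[K] L, τ • u = u}
  mul_mem' := by
    rintro a b ⟨ha, ha'⟩ ⟨hb, hb'⟩
    exact ⟨mul_mem ha hb, fun τ => by rw [smul_mul', ha', hb']⟩
  one_mem' := ⟨one_mem _, fun τ => smul_one _⟩
  inv_mem' := by
    rintro a ⟨ha, ha'⟩
    exact ⟨inv_mem ha, fun τ => by rw [smul_inv', ha']⟩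

lemma mem_relUfix {K M L : Type} [Field K] [Field M] [Field L] [NumberField L]
    [Algebra K L] [Algebra M L] [FiniteDimensional M L] {u : Lˣ} :
    u ∈ relUfix K M L ↔ u ∈ relU M L ∧ ∀ τ : L ≃ₐ[K] L, τ • u = u := Iff.rfl

end Pool.Agent.RI

end

section

/-!
# Relative Iwasawa theorem: statements of the modules

Every `def X : Prop` is the statement of a module; the module proves `theorem X_thm : X`
(possibly from other modules as hypotheses).
-/

open NumberField Finset IsDedekindDomain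
open scoped nonZeroDivisors Pointwise

namespace Pool.Agent.RI

/-! ### Algebra -/

/-- HERB: a finitely generated abelian group `E` with an automorphism of order `p`, trivial `H¹`
and rank `p` times the rank of the invariants: invariants are norms (Herbrand quotient one). -/
def HERB : Prop := ∀ (p : ℕ) [Fact p.Prime] (A G : Type) [CommGroup A] [Group G]
    [MulDistribMulAction G A] (g : G) (E E' : Subgroup A), g ^ p = 1 → E.FG →
    (∀ u ∈ E, g • u ∈ E) → (∀ u, u ∈ E' ↔ u ∈ E ∧ g • u = u) →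
    (∀ u ∈ E, ∏ i ∈ range p, g ^ i • u = 1 → ∃ v ∈ E, u = v / g • v) →
    Module.finrank ℤ (Additive E) = p * Module.finrank ℤ (Additive E') →
    ∀ e ∈ E', ∃ η ∈ E, e = ∏ i ∈ range p, g ^ i • η

/-- ABSH: the relative units have trivial `H¹` at `p`. -/
def ABSH : Prop := ∀ (p : ℕ) [Fact p.Prime] (A I G D : Type) [CommGroup A] [CommGroup I]
    [Group G] [Group D] [Fintype D] [MulDistribMulAction G A] [MulDistribMulAction G I]
    (ρ : D →* G) (g : G) (dv : A →* I), (Fintype.card D).Coprime p → g ^ p = 1 →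
    (∀ δ : D, ρ δ * g = g * ρ δ) → (∀ (σ : G) (x : A), dv (σ • x) = σ • dv x) →
    (∀ x : A, ∏ i ∈ range p, g ^ i • x = 1 → ∃ y : A, x = y / g • y) →
    (∀ b : I, g • b = b → ∏ δ : D, ρ δ • b = 1 →
      ∃ m : ℕ, m.Coprime p ∧ ∃ γ : A, g • γ = γ ∧ b ^ m = dv γ) →
    ∀ u : A, dv u = 1 → ∏ δ : D, ρ δ • u = 1 → ∏ i ∈ range p, g ^ i • u = 1 →
      ∃ m : ℕ, m.Coprime p ∧ ∃ v : A, dv v = 1 ∧ ∏ δ : D, ρ δ • v = 1 ∧ u ^ m = v / g • v

/-- ABS: the step for class groups, in abstract form. -/
def ABS : Prop := ∀ (p : ℕ) [Fact p.Prime] (A I G D : Type) [CommGroup A] [CommGroup I]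
    [Group G] [Group D] [Fintype D] [MulDistribMulAction G A] [MulDistribMulAction G I]
    (ρ : D →* G) (g : G) (dv : A →* I), (Fintype.card D).Coprime p → g ^ p = 1 →
    (∀ δ : D, ρ δ * g = g * ρ δ) → (∀ (σ : G) (x : A), dv (σ • x) = σ • dv x) →
    (∀ x : A, ∏ i ∈ range p, g ^ i • x = 1 → ∃ y : A, x = y / g • y) →
    (∀ b : I, g • b = b → ∏ δ : D, ρ δ • b = 1 →
      ∃ m : ℕ, m.Coprime p ∧ ∃ γ : A, g • γ = γ ∧ b ^ m = dv γ) →
    (∀ e : A, dv e = 1 → g • e = e → ∏ δ : D, ρ δ • e = 1 →
      ∃ m : ℕ, m.Coprime p ∧ ∃ η : A, dv η = 1 ∧ e ^ m = ∏ i ∈ range p, g ^ i • η) →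
    Finite (I ⧸ dv.range) →
    ∀ c : I, ∏ δ : D, ρ δ • c = 1 → ∃ m : ℕ, m.Coprime p ∧ ∃ x : A, c ^ m = dv x

/-! ### Ideals -/

/-- COUNTACT: exponents of the conjugate ideal. -/
def COUNTACT : Prop := ∀ (F K : Type) [Field F] [Field K] [NumberField K] [Algebra F K]
    (σ : K ≃ₐ[F] K) (v w : HeightOneSpectrum (𝓞 K)), w.asIdeal = σ • v.asIdeal → ∀ c : J K,
    FractionalIdeal.count K w ((σ • c : J K) : FractionalIdeal (𝓞 K)⁰ K) =
      FractionalIdeal.count K v (c : FractionalIdeal (𝓞 K)⁰ K)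

/-- COUNTEXT: exponents of the extended ideal. -/
def COUNTEXT : Prop := ∀ (K L : Type) [Field K] [NumberField K] [Field L] [NumberField L]
    [Algebra K L] (v : HeightOneSpectrum (𝓞 K)) (w : HeightOneSpectrum (𝓞 L)),
    w.asIdeal.under (𝓞 K) = v.asIdeal → ∀ c : J K,
    FractionalIdeal.count L w ((ext K L c : J L) : FractionalIdeal (𝓞 L)⁰ L) =
      (w.asIdeal.ramificationIdx (𝓞 K) : ℤ) *
        FractionalIdeal.count K v (c : FractionalIdeal (𝓞 K)⁰ K)

/-- INVI: an ideal of `L` invariant under `Gal(L / K)` without ramified primes comes from `K`. -/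
def INVI : Prop := ∀ (K L : Type) [Field K] [NumberField K] [Field L] [NumberField L]
    [Algebra K L] [IsGalois K L] (b : J L), (∀ τ : L ≃ₐ[K] L, τ • b = b) →
    (∀ w : HeightOneSpectrum (𝓞 L), w.asIdeal.ramificationIdx (𝓞 K) ≠ 1 →
      FractionalIdeal.count L w (b : FractionalIdeal (𝓞 L)⁰ L) = 0) →
    ∃ c : J K, ext K L c = b

/-- EXTACT: extension of ideals commutes with the Galois action. -/
def EXTACT : Prop := ∀ (F K M L : Type) [Field F] [Field K] [NumberField K] [Field M] [Field L]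
    [NumberField L] [Algebra F K] [Algebra K L] [Algebra M L] (σ : L ≃ₐ[M] L) (σ' : K ≃ₐ[F] K),
    (∀ x : K, algebraMap K L (σ' x) = σ (algebraMap K L x)) → ∀ c : J K,
    ext K L (σ' • c) = σ • ext K L c

/-- CL: for `K / F` Galois of degree prime to `p`, the class numbers of `K` and `F` are divisible
by the same power of `p` iff the relative class group has trivial `p`-part. -/
def CL : Prop := ∀ (p : ℕ) [Fact p.Prime] (F K : Type) [Field F] [NumberField F] [Field K]
    [NumberField K] [Algebra F K] [IsGalois F K], (Module.finrank F K).Coprime p →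
    (padicValNat p (NumberField.classNumber K) = padicValNat p (NumberField.classNumber F) ↔
      RelTriv F K p)

/-! ### The square `F ⊆ K, M ⊆ L` -/

/-- `L = K M`, `K / F` Galois of degree prime to `p`, `M / F` Galois of degree `p`. -/
structure Square (p : ℕ) (F K M L : Type) [Field F] [NumberField F] [Field K] [NumberField K]
    [Field M] [NumberField M] [Field L] [NumberField L] [Algebra F K] [Algebra F M] [Algebra F L]
    [Algebra K L] [Algebra M L] [IsScalarTower F K L] [IsScalarTower F M L] : Prop where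
  galK : IsGalois F K
  galM : IsGalois F M
  galL : IsGalois F L
  cop : (Module.finrank F K).Coprime p
  degM : Module.finrank F M = p
  degL : Module.finrank K L = p

/-- SQ: Galois theory of the square. -/
def SQ : Prop := ∀ (p : ℕ) [Fact p.Prime] (F K M L : Type) [Field F] [NumberField F] [Field K]
    [NumberField K] [Field M] [NumberField M] [Field L] [NumberField L] [Algebra F K]
    [Algebra F M] [Algebra F L] [Algebra K L] [Algebra M L] [IsScalarTower F K L]
    [IsScalarTower F M L], Square p F K M L →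
    IsGalois K L ∧ IsGalois M L ∧ Module.finrank M L = Module.finrank F K ∧
    (∀ (σ : L ≃ₐ[M] L) (τ : L ≃ₐ[K] L) (x : L), σ (τ x) = τ (σ x)) ∧
    ∃ ρ : (L ≃ₐ[M] L) ≃* (K ≃ₐ[F] K), ∀ (σ : L ≃ₐ[M] L) (x : K),
      algebraMap K L (ρ σ x) = σ (algebraMap K L x)

/-- INV: the ideal input of the step. -/
def INV : Prop := ∀ (p : ℕ) [Fact p.Prime] (F K M L : Type) [Field F] [NumberField F] [Field K]
    [NumberField K] [Field M] [NumberField M] [Field L] [NumberField L] [Algebra F K]
    [Algebra F M] [Algebra F L] [Algebra K L] [Algebra M L] [IsScalarTower F K L]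
    [IsScalarTower F M L], Square p F K M L → RelTriv F K p →
    (∀ w : HeightOneSpectrum (𝓞 L), w.asIdeal.ramificationIdx (𝓞 K) ≠ 1 →
      ∀ σ : L ≃ₐ[M] L, σ • w.asIdeal = w.asIdeal) →
    ∀ b : J L, (∀ τ : L ≃ₐ[K] L, τ • b = b) → ∏ σ : L ≃ₐ[M] L, σ • b = 1 →
    ∃ m : ℕ, m.Coprime p ∧ ∃ γ : Kˣ, b ^ m = prin (Units.map (algebraMap K L : K →* L) γ)

/-! ### Units -/

/-- H90: Hilbert 90 for an extension of prime degree. -/
def H90 : Prop := ∀ (p : ℕ) [Fact p.Prime] (K L : Type) [Field K] [Field L] [Algebra K L]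
    [FiniteDimensional K L] [IsGalois K L] (g : L ≃ₐ[K] L), Module.finrank K L = p → g ≠ 1 →
    ∀ x : Lˣ, ∏ i ∈ range p, g ^ i • x = 1 → ∃ y : Lˣ, x = y / g • y

/-- RKU: the relative units of `L / M` are finitely generated of rank
`rank E(L) - rank E(M)`. -/
def RKU : Prop := ∀ (M L : Type) [Field M] [NumberField M] [Field L] [NumberField L]
    [Algebra M L] [IsGalois M L], (relU M L).FG ∧
    Module.finrank ℤ (Additive (relU M L)) + NumberField.Units.rank M = NumberField.Units.rank L

/-- RKF: ranks in the square. -/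
def RKF : Prop := ∀ (p : ℕ) [Fact p.Prime] (F K M L : Type) [Field F] [NumberField F] [Field K]
    [NumberField K] [Field M] [NumberField M] [Field L] [NumberField L] [Algebra F K]
    [Algebra F M] [Algebra F L] [Algebra K L] [Algebra M L] [IsScalarTower F K L]
    [IsScalarTower F M L], Square p F K M L →
    Fintype.card (InfinitePlace L) = p * Fintype.card (InfinitePlace K) →
    Fintype.card (InfinitePlace M) = p * Fintype.card (InfinitePlace F) →
    Module.finrank ℤ (Additive (relU M L)) = p * Module.finrank ℤ (Additive (relUfix K M L))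

/-- UNIT: relative units of `L` fixed by `Gal(L / K)` are norms of relative units. -/
def UNIT : Prop := ∀ (p : ℕ) [Fact p.Prime] (F K M L : Type) [Field F] [NumberField F] [Field K]
    [NumberField K] [Field M] [NumberField M] [Field L] [NumberField L] [Algebra F K]
    [Algebra F M] [Algebra F L] [Algebra K L] [Algebra M L] [IsScalarTower F K L]
    [IsScalarTower F M L], Square p F K M L →
    Fintype.card (InfinitePlace L) = p * Fintype.card (InfinitePlace K) →
    Fintype.card (InfinitePlace M) = p * Fintype.card (InfinitePlace F) →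
    (∀ w : HeightOneSpectrum (𝓞 L), w.asIdeal.ramificationIdx (𝓞 K) ≠ 1 →
      ∀ σ : L ≃ₐ[M] L, σ • w.asIdeal = w.asIdeal) →
    RelTriv F K p →
    ∀ e ∈ relUfix K M L, ∃ η ∈ relU M L, e = ∏ τ : L ≃ₐ[K] L, τ • η

/-! ### The step -/

/-- STEP: triviality of the relative `p`-class group goes up. -/
def STEP : Prop := ∀ (p : ℕ) [Fact p.Prime] (F K M L : Type) [Field F] [NumberField F] [Field K]
    [NumberField K] [Field M] [NumberField M] [Field L] [NumberField L] [Algebra F K]
    [Algebra F M] [Algebra F L] [Algebra K L] [Algebra M L] [IsScalarTower F K L]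
    [IsScalarTower F M L], Square p F K M L →
    Fintype.card (InfinitePlace L) = p * Fintype.card (InfinitePlace K) →
    Fintype.card (InfinitePlace M) = p * Fintype.card (InfinitePlace F) →
    (∀ w : HeightOneSpectrum (𝓞 L), w.asIdeal.ramificationIdx (𝓞 K) ≠ 1 →
      ∀ σ : L ≃ₐ[M] L, σ • w.asIdeal = w.asIdeal) →
    RelTriv F K p → RelTriv M L p

/-! ### Ramification -/

/-- RAM: in `K ⊆ L ⊆ K(ζ)`, `ζ` a root of unity of `p`-power order, primes not above `p` are
unramified. -/
def RAM : Prop := ∀ (p m : ℕ) [Fact p.Prime] (K L N : Type) [Field K] [NumberField K]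
    [Field L] [NumberField L] [Field N] [NumberField N] [Algebra K L] [Algebra L N] [Algebra K N]
    [IsScalarTower K L N] (ζ : N), ζ ^ (p ^ m) = 1 → IntermediateField.adjoin K {ζ} = ⊤ →
    ∀ w : HeightOneSpectrum (𝓞 L), (p : 𝓞 L) ∉ w.asIdeal → w.asIdeal.ramificationIdx (𝓞 K) = 1

/-- RAMB: ramification in `L = K M` over `K` comes from ramification in `M` over `F`. -/
def RAMB : Prop := ∀ (F K M L : Type) [Field F] [NumberField F] [Field K]
    [NumberField K] [Field M] [NumberField M] [Field L] [NumberField L] [Algebra F K]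
    [Algebra F M] [Algebra F L] [Algebra K L] [Algebra M L] [IsScalarTower F K L]
    [IsScalarTower F M L] [IsGalois F M] [IsGalois K L],
    IntermediateField.adjoin K (Set.range (algebraMap M L)) = ⊤ →
    ∀ w : HeightOneSpectrum (𝓞 L), w.asIdeal.ramificationIdx (𝓞 K) ≠ 1 →
      (w.asIdeal.under (𝓞 M)).ramificationIdx (𝓞 F) ≠ 1

/-- INF: criterion for `L / K` to be unramified at the infinite places. -/
def INF : Prop := ∀ (K L : Type) [Field K] [NumberField K] [Field L] [NumberField L]
    [Algebra K L] [IsGalois K L] (S : Set L), IntermediateField.adjoin K S = ⊤ →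
    (∀ (φ : L →+* ℂ), (∀ x : K, (starRingEnd ℂ) (φ (algebraMap K L x)) = φ (algebraMap K L x)) →
      ∀ s ∈ S, (starRingEnd ℂ) (φ s) = φ s) →
    Fintype.card (InfinitePlace L) = Module.finrank K L * Fintype.card (InfinitePlace K)

/-- NSN: a prime of `L` whose restriction to `K` is undecomposed over `F` is undecomposed over
`M`, when `[L : K]` is a power of `p` and `[L : M]` is prime to `p`. -/
def NSN : Prop := ∀ (p : ℕ) [Fact p.Prime] (F K M L : Type) [Field F] [NumberField F] [Field K]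
    [NumberField K] [Field M] [NumberField M] [Field L] [NumberField L] [Algebra F K]
    [Algebra F M] [Algebra F L] [Algebra K L] [Algebra M L] [IsScalarTower F K L]
    [IsScalarTower F M L] [IsGalois F K] [IsGalois F M] [IsGalois F L],
    (∃ a : ℕ, Module.finrank K L = p ^ a) → (Module.finrank M L).Coprime p →
    ∀ w : Ideal (𝓞 L), w.IsPrime → (∀ σ : K ≃ₐ[F] K, σ • w.under (𝓞 K) = w.under (𝓞 K)) →
      ∀ σ : L ≃ₐ[M] L, σ • w = w

/-- LAY: the layers are Galois over `ℚ` and totally real. -/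
def LAY : Prop := ∀ (p n : ℕ) [Fact p.Prime] (B : IntermediateField ℚ ℂ), IsLayer p n B →
    FiniteDimensional ℚ B ∧ IsGalois ℚ B ∧
    (∀ φ : B →+* ℂ, ∀ x : B, (starRingEnd ℂ) (φ x) = φ x)

/-! ### Primes with a given decomposition group -/

/-- The number of ideals of norm `n`. -/
noncomputable def idealCount (M : Type) [Field M] [NumberField M] (n : ℕ) : ℕ :=
  Nat.card {I : Ideal (𝓞 M) // Ideal.absNorm I = n}

/-- MULT: the number of ideals of given norm is multiplicative. -/
def MULT : Prop := ∀ (M : Type) [Field M] [NumberField M] (m n : ℕ), m.Coprime n →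
    idealCount M (m * n) = idealCount M m * idealCount M n

/-- BND: the number of ideals of norm `p ^ e`. -/
def BND : Prop := ∀ (M : Type) [Field M] [NumberField M] (p e : ℕ), p.Prime →
    idealCount M (p ^ e) ≤ (e + 1) ^ Module.finrank ℚ M

/-- ZLOG: the sum over the primes of degree one behaves like `log (1 / (s - 1))`. -/
def ZLOG : Prop := ∀ (M : Type) [Field M] [NumberField M], ∃ C : ℝ, ∀ s : ℝ, 1 < s → s ≤ 2 →
    |∑' q : Nat.Primes, (idealCount M q : ℝ) * (q : ℝ) ^ (-s) - Real.log (1 / (s - 1))| ≤ C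

/-- FIXN: degree one primes of a fixed field and the Frobenius. -/
def FIXN : Prop := ∀ (L : Type) [Field L] [NumberField L] [IsGalois ℚ L]
    (H : Subgroup (L ≃ₐ[ℚ] L)) (q : ℕ) (P : Ideal (𝓞 L)) (φ : L ≃ₐ[ℚ] L), q.Prime → P.IsPrime →
    (q : 𝓞 L) ∈ P → P.ramificationIdx ℤ = 1 → IsArithFrobAt ℤ φ P →
    idealCount (IntermediateField.fixedField H) q * Nat.card H =
      Nat.card {x : L ≃ₐ[ℚ] L // x⁻¹ * φ * x ∈ H}

/-- GRP: the group theoretic identity behind the theorem of Frobenius. -/
def GRP : Prop := ∀ (G : Type) [Group G] [Finite G] (σ φ : G),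
    ∑ d ∈ (orderOf σ).divisors, (ArithmeticFunction.moebius d : ℝ) / d *
      ((Nat.card {x : G // x⁻¹ * φ * x ∈ Subgroup.zpowers (σ ^ d)} : ℝ) /
        Nat.card (Subgroup.zpowers (σ ^ d))) =
    (Nat.card {x : G // Subgroup.zpowers (x⁻¹ * φ * x) = Subgroup.zpowers σ} : ℝ) / orderOf σ

/-- FROB: the theorem of Frobenius (lower bound): the primes `q` such that some prime of `L` above
`q` has decomposition group generated by `σ` have positive lower density. -/
def FROB : Prop := ∀ (L : Type) [Field L] [NumberField L] [IsGalois ℚ L] (σ : L ≃ₐ[ℚ] L),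
    PosDensity {q : ℕ | ∃ P : Ideal (𝓞 L), P.IsPrime ∧ (q : 𝓞 L) ∈ P ∧
      MulAction.stabilizer (L ≃ₐ[ℚ] L) P = Subgroup.zpowers σ}

/-- GEN2: simultaneous generators. -/
def GEN2 : Prop := ∀ (N C₁ C₂ : Type) [CommGroup N] [Finite N] [Group C₁] [Group C₂]
    [IsCyclic C₁] [IsCyclic C₂] (f₁ : N →* C₁) (f₂ : N →* C₂), Function.Surjective f₁ →
    Function.Surjective f₂ →
    ∃ x : N, Subgroup.zpowers (f₁ x) = ⊤ ∧ Subgroup.zpowers (f₂ x) = ⊤

/-- NSF: a decomposition group that surjects onto `Gal(K / F)` makes all primes of `F` above `q`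
nonsplit in `K`; fields inside a Galois extension `L / ℚ`. -/
def NSF : Prop := ∀ (L : Type) [Field L] [NumberField L] [IsGalois ℚ L]
    (F K : IntermediateField ℚ L) (σ : L ≃ₐ[ℚ] L) (q : ℕ) (P : Ideal (𝓞 L)), q.Prime →
    P.IsPrime → (q : 𝓞 L) ∈ P → MulAction.stabilizer (L ≃ₐ[ℚ] L) P = Subgroup.zpowers σ →
    (∀ τ ρ : L ≃ₐ[ℚ] L, ρ ∈ F.fixingSubgroup →
      ∃ j : ℤ, ρ * (τ * σ ^ j * τ⁻¹)⁻¹ ∈ K.fixingSubgroup) →
    ∀ Q₁ Q₂ : Ideal (𝓞 L), Q₁.IsPrime → Q₂.IsPrime → (q : 𝓞 L) ∈ Q₁ → (q : 𝓞 L) ∈ Q₂ →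
      (∀ x : 𝓞 L, (x : L) ∈ F → (x ∈ Q₁ ↔ x ∈ Q₂)) →
      ∀ x : 𝓞 L, (x : L) ∈ K → (x ∈ Q₁ ↔ x ∈ Q₂)

/-- SPL: if the decomposition group lies in `Gal(L / F)`, `F / ℚ` Galois, then the residue fields
of `F` at the primes above `q` have `q` elements. -/
def SPL : Prop := ∀ (L : Type) [Field L] [NumberField L] [IsGalois ℚ L]
    (F : IntermediateField ℚ L) [IsGalois ℚ F] (q : ℕ) (P : Ideal (𝓞 L)), q.Prime →
    P.IsPrime → (q : 𝓞 L) ∈ P → MulAction.stabilizer (L ≃ₐ[ℚ] L) P ≤ F.fixingSubgroup →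
    ∀ Q : Ideal (𝓞 F), Q.IsPrime → (q : 𝓞 F) ∈ Q → Nat.card (𝓞 F ⧸ Q) = q

/-- PD: positive density is monotone and insensitive to finitely many primes. -/
def PD : Prop := ∀ (S T : Set ℕ) (A : Finset ℕ), PosDensity S →
    (∀ q ∈ S, q.Prime → q ∉ A → q ∈ T) → PosDensity T

/-! ### Subfields of `ℂ` -/

/-- A subfield of `ℂ` of finite degree over `ℚ` is a number field. -/
instance numC (K : IntermediateField ℚ ℂ) [FiniteDimensional ℚ K] : NumberField K where

/-- The algebra structure of an inclusion of subfields of `ℂ`. -/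
noncomputable abbrev algC {F K : IntermediateField ℚ ℂ} (h : F ≤ K) : Algebra F K :=
  (IntermediateField.inclusion h).toRingHom.toAlgebra

/-- `K / F` is a Galois extension of number fields of degree prime to `p` with trivial relative
`p`-class group. -/
def RelTrivC (p : ℕ) (F K : IntermediateField ℚ ℂ) : Prop :=
  ∃ (h : F ≤ K) (_ : FiniteDimensional ℚ F) (_ : FiniteDimensional ℚ K),
    letI := algC h
    IsGalois F K ∧ (Module.finrank F K).Coprime p ∧ RelTriv F K p

/-- BASE: translation between class numbers and `RelTrivC`. -/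
def BASE : Prop := ∀ (p : ℕ) [Fact p.Prime] (F K : IntermediateField ℚ ℂ)
    [FiniteDimensional ℚ K] (h : F ≤ K), IsGalois F (IntermediateField.extendScalars h) →
    ¬ p ∣ Module.finrank F (IntermediateField.extendScalars h) →
    (padicValNat p (classNo K) = padicValNat p (classNo F) ↔ RelTrivC p F K)

/-- BCH: base change of Galois extensions of subfields of `ℂ`. -/
def BCH : Prop :=
  (∀ (A C E A' C' : IntermediateField ℚ ℂ) [FiniteDimensional ℚ C] [FiniteDimensional ℚ E]
    (h : A ≤ C) (h' : A' ≤ C'), A' = A ⊔ E → C' = C ⊔ E →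
    IsGalois A (IntermediateField.extendScalars h) →
    IsGalois A' (IntermediateField.extendScalars h') ∧
    Module.finrank A' (IntermediateField.extendScalars h') ∣
      Module.finrank A (IntermediateField.extendScalars h)) ∧
  (∀ (A C E : IntermediateField ℚ ℂ) [FiniteDimensional ℚ C] [FiniteDimensional ℚ E]
    (h : A ≤ C) (h' : A ≤ E) (h'' : A ≤ C ⊔ E), IsGalois A (IntermediateField.extendScalars h) →
    IsGalois A (IntermediateField.extendScalars h') →
    IsGalois A (IntermediateField.extendScalars h''))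

/-- CHIEF: a Galois `p`-extension `M / F` of degree `p ^ (a + 1)` has a Galois subextension
`M' / F` of degree `p ^ a`. -/
def CHIEF : Prop := ∀ (p a : ℕ) [Fact p.Prime] (F M : IntermediateField ℚ ℂ)
    [FiniteDimensional ℚ M] (h : F ≤ M), IsGalois F (IntermediateField.extendScalars h) →
    Module.finrank F (IntermediateField.extendScalars h) = p ^ (a + 1) →
    ∃ (M' : IntermediateField ℚ ℂ) (h₁ : F ≤ M') (h₂ : M' ≤ M),
      IsGalois F (IntermediateField.extendScalars h₁) ∧
      Module.finrank F (IntermediateField.extendScalars h₁) = p ^ a ∧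
      Module.finrank M' (IntermediateField.extendScalars h₂) = p

/-- TSTEP: one step of the induction, for subfields of `ℂ`. -/
def TSTEP : Prop := ∀ (p : ℕ) [Fact p.Prime] (F K M' M : IntermediateField ℚ ℂ)
    [FiniteDimensional ℚ K] [FiniteDimensional ℚ M] (hK : F ≤ K) (h₁ : F ≤ M') (h₂ : M' ≤ M),
    IsGalois F (IntermediateField.extendScalars hK) →
    ¬ p ∣ Module.finrank F (IntermediateField.extendScalars hK) →
    IsGalois F (IntermediateField.extendScalars h₁) →
    IsGalois F (IntermediateField.extendScalars (h₁.trans h₂)) →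
    (∃ a : ℕ, Module.finrank F (IntermediateField.extendScalars (h₁.trans h₂)) = p ^ a) →
    Module.finrank M' (IntermediateField.extendScalars h₂) = p →
    UnramInf (h₁.trans h₂) → NonsplitRam hK (h₁.trans h₂) →
    RelTrivC p M' (K ⊔ M') → RelTrivC p M (K ⊔ M)

/-- GALB: for `K / k` abelian, `k` imaginary quadratic, `F / ℚ` abelian, `K / F` cyclic there is
`σ` in the Galois group over `F` of the normal closure that generates `Gal(K' / F)` for all
conjugates `K'` of `K`. -/
def GALB : Prop := ∀ (k F K : IntermediateField ℚ ℂ) [FiniteDimensional ℚ K] (hkF : k ≤ F)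
    (hFK : F ≤ K), Module.finrank ℚ k = 2 → (∃ z ∈ k, (starRingEnd ℂ) z ≠ z) →
    IsGalois k (IntermediateField.extendScalars (hkF.trans hFK)) →
    (∀ a b : (IntermediateField.extendScalars (hkF.trans hFK)) ≃ₐ[k]
      (IntermediateField.extendScalars (hkF.trans hFK)), a * b = b * a) →
    IsGalois ℚ F → (∀ a b : F ≃ₐ[ℚ] F, a * b = b * a) →
    IsCyclic ((IntermediateField.extendScalars hFK) ≃ₐ[F]
      (IntermediateField.extendScalars hFK)) →
    ∃ L : IntermediateField ℚ ℂ, K ≤ L ∧ FiniteDimensional ℚ L ∧ IsGalois ℚ L ∧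
      ∃ σ : L ≃ₐ[ℚ] L, (∀ x : L, (x : ℂ) ∈ F → σ x = x) ∧
        ∀ τ ρ : L ≃ₐ[ℚ] L, (∀ x : L, (x : ℂ) ∈ F → ρ x = x) →
          ∃ j : ℤ, ∀ x : L, (x : ℂ) ∈ K → (ρ * (τ * σ ^ j * τ⁻¹)⁻¹) x = x

/-! ### The results -/

/-- MAINA: the relative Iwasawa theorem. -/
def MAINA : Prop := ∀ (p a : ℕ) [Fact p.Prime] (F K M : IntermediateField ℚ ℂ)
    [FiniteDimensional ℚ K] [FiniteDimensional ℚ M] (hK : F ≤ K) (hM : F ≤ M),
    IsGalois F (IntermediateField.extendScalars hK) →
    ¬ p ∣ Module.finrank F (IntermediateField.extendScalars hK) →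
    IsGalois F (IntermediateField.extendScalars hM) →
    Module.finrank F (IntermediateField.extendScalars hM) = p ^ a →
    UnramInf hM → NonsplitRam hK hM →
    padicValNat p (classNo K) = padicValNat p (classNo F) →
    padicValNat p (classNo (K ⊔ M)) = padicValNat p (classNo M)

/-- MAINC: the layers of the cyclotomic `ℤ_p`-extensions. -/
def MAINC : Prop := ∀ (p : ℕ) [Fact p.Prime] (F K : IntermediateField ℚ ℂ)
    [FiniteDimensional ℚ K] (h : F ≤ K), IsGalois F (IntermediateField.extendScalars h) →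
    ¬ p ∣ Module.finrank F (IntermediateField.extendScalars h) → Nonsplit p h →
    padicValNat p (classNo K) = padicValNat p (classNo F) →
    ∀ (n : ℕ) (B : IntermediateField ℚ ℂ), IsLayer p n B →
      padicValNat p (classNo (K ⊔ B)) = padicValNat p (classNo (F ⊔ B))

/-- MAINB: positive density of primes. -/
def MAINB : Prop := ∀ (k F K : IntermediateField ℚ ℂ) [FiniteDimensional ℚ K] (hkF : k ≤ F)
    (hFK : F ≤ K), Module.finrank ℚ k = 2 → (∃ z ∈ k, (starRingEnd ℂ) z ≠ z) →
    IsGalois k (IntermediateField.extendScalars (hkF.trans hFK)) →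
    (∀ a b : (IntermediateField.extendScalars (hkF.trans hFK)) ≃ₐ[k]
      (IntermediateField.extendScalars (hkF.trans hFK)), a * b = b * a) →
    IsGalois ℚ F → (∀ a b : F ≃ₐ[ℚ] F, a * b = b * a) →
    IsCyclic ((IntermediateField.extendScalars hFK) ≃ₐ[F]
      (IntermediateField.extendScalars hFK)) →
    PosDensity {p : ℕ | (∀ P : Ideal (𝓞 F), P.IsPrime → (p : 𝓞 F) ∈ P → Nat.card (𝓞 F ⧸ P) = p) ∧
      ∀ (n : ℕ) (B : IntermediateField ℚ ℂ), IsLayer p n B →
        padicValNat p (classNo (K ⊔ B)) = padicValNat p (classNo (F ⊔ B))}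

end Pool.Agent.RI

end

section

/-!
# Relative Iwasawa theorem: translation between `extendScalars` and `algC`
-/

open NumberField

namespace Pool.Agent.RI

/-- `extendScalars h` and `K` are the same extension of `F`. -/
noncomputable def extEquiv {F K : IntermediateField ℚ ℂ} (h : F ≤ K) :
    letI := algC h
    (IntermediateField.extendScalars h) ≃ₐ[F] K :=
  letI := algC h
  { toFun := fun x => ⟨x.1, x.2⟩
    invFun := fun x => ⟨x.1, x.2⟩
    left_inv := fun _ => rfl
    right_inv := fun _ => rfl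
    map_mul' := fun _ _ => rfl
    map_add' := fun _ _ => rfl
    commutes' := fun _ => rfl }

@[simp] lemma extEquiv_coe {F K : IntermediateField ℚ ℂ} (h : F ≤ K)
    (x : IntermediateField.extendScalars h) : ((extEquiv h x : K) : ℂ) = (x : ℂ) := rfl

lemma isGalois_algC {F K : IntermediateField ℚ ℂ} (h : F ≤ K) :
    (letI := algC h; IsGalois F K) ↔ IsGalois F (IntermediateField.extendScalars h) := by
  letI := algC h
  constructor
  · intro hg
    exact IsGalois.of_algEquiv (extEquiv h).symm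
  · intro hg
    exact IsGalois.of_algEquiv (extEquiv h)

lemma finrank_algC {F K : IntermediateField ℚ ℂ} (h : F ≤ K) :
    (letI := algC h; Module.finrank F K) =
      Module.finrank F (IntermediateField.extendScalars h) := by
  letI := algC h
  exact (extEquiv h).symm.toLinearEquiv.finrank_eq

/-- Towers of inclusions. -/
lemma towerC {E F K : IntermediateField ℚ ℂ} (h : E ≤ F) (h' : F ≤ K) :
    @IsScalarTower E F K (algC h).toSMul (algC h').toSMul (algC (h.trans h')).toSMul := by
  letI := algC h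
  letI := algC h'
  letI := algC (h.trans h')
  exact IsScalarTower.of_algebraMap_eq (fun _ => rfl)

end Pool.Agent.RI

end

section

/-!
# Relative Iwasawa theorem: statements of the density part (explicit constants)
-/

open NumberField Finset IsDedekindDomain
open scoped nonZeroDivisors Pointwise

namespace Pool.Agent.RI

/-- The set `S` of natural numbers contains primes of lower Dirichlet density at least `δ` (with a
bounded error term). -/
def DensityGE (S : Set ℕ) (δ : ℝ) : Prop :=
  ∃ C : ℝ, ∀ s : ℝ, 1 < s → s ≤ 2 →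
    δ * Real.log (1 / (s - 1)) - C ≤ ∑' q : {q : ℕ // q.Prime ∧ q ∈ S}, (q : ℝ) ^ (-s)

/-- FROBD: the theorem of Frobenius (lower bound) for a set `T` of elements of the Galois group
that is a union of divisions: the primes `q` with a decomposition group generated by an element of
`T` have lower density at least `#T / #G`. -/
def FROBD : Prop := ∀ (L : Type) [Field L] [NumberField L] [IsGalois ℚ L]
    (T : Set (L ≃ₐ[ℚ] L)),
    (∀ g h τ : L ≃ₐ[ℚ] L, g ∈ T → Subgroup.zpowers h = Subgroup.zpowers (τ * g * τ⁻¹) → h ∈ T) →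
    DensityGE {q : ℕ | ∃ g ∈ T, ∃ P : Ideal (𝓞 L), P.IsPrime ∧ (q : 𝓞 L) ∈ P ∧
      MulAction.stabilizer (L ≃ₐ[ℚ] L) P = Subgroup.zpowers g}
      ((Nat.card T : ℝ) / Nat.card (L ≃ₐ[ℚ] L))

/-- PDGE: the density bound is monotone and insensitive to finitely many primes. -/
def PDGE : Prop := ∀ (S T : Set ℕ) (A : Finset ℕ) (δ : ℝ), DensityGE S δ →
    (∀ q ∈ S, q.Prime → q ∉ A → q ∈ T) → DensityGE T δ

/-- COUNTG: number of good elements in a group `G` with an abelian subgroup `N` of index two and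
a subgroup `H` of `N` with `N = H × cHc⁻¹` and `N / H` cyclic of order `m`. -/
def COUNTG : Prop := ∀ (G : Type) [Group G] [Finite G] (N H : Subgroup G) (c : G) (m : ℕ),
    N.index = 2 → c ∉ N → (∀ a ∈ N, ∀ b ∈ N, a * b = b * a) → H ≤ N → H.relIndex N = m →
    (∀ a ∈ H, c * a * c⁻¹ ∈ H → a = 1) →
    (∀ a ∈ N, ∃ x ∈ H, ∃ y ∈ H, a = x * (c * y * c⁻¹)) →
    (∃ x ∈ N, ∀ y ∈ N, ∃ j : ℤ, y * (x ^ j)⁻¹ ∈ H) →
    Nat.card G = 2 * m ^ 2 ∧
    Nat.card {g : G // ∀ τ ρ : G, ρ ∈ N → ∃ j : ℤ, ρ * (τ * g ^ j * τ⁻¹)⁻¹ ∈ H} =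
      m.totient ^ 2 + m * m.totient

/-- `g` is good for `F ⊆ K ⊆ L`: for all conjugates `g'` of `g`, `Gal(L/F) = Gal(L/K) ⟨g'⟩`. -/
def Good (F K L : IntermediateField ℚ ℂ) (g : L ≃ₐ[ℚ] L) : Prop :=
  ∀ τ ρ : L ≃ₐ[ℚ] L, (∀ x : L, (x : ℂ) ∈ F → ρ x = x) →
    ∃ j : ℤ, ∀ x : L, (x : ℂ) ∈ K → (ρ * (τ * g ^ j * τ⁻¹)⁻¹) x = x

/-- GALE: the Galois group of `L = K ⊔ conj K`, `K / k` cyclic of degree `m`, `K ∩ conj K = k`. -/
def GALE : Prop := ∀ (k K : IntermediateField ℚ ℂ) [FiniteDimensional ℚ K] (h : k ≤ K),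
    Module.finrank ℚ k = 2 → (∃ z ∈ k, (starRingEnd ℂ) z ≠ z) →
    IsGalois k (IntermediateField.extendScalars h) →
    IsCyclic ((IntermediateField.extendScalars h) ≃ₐ[k] (IntermediateField.extendScalars h)) →
    (∀ z ∈ K, (starRingEnd ℂ) z ∈ K → z ∈ k) →
    ∃ L : IntermediateField ℚ ℂ, K ≤ L ∧ FiniteDimensional ℚ L ∧ IsGalois ℚ L ∧
      Nat.card (L ≃ₐ[ℚ] L) = 2 * Module.finrank k (IntermediateField.extendScalars h) ^ 2 ∧
      Nat.card {g : L ≃ₐ[ℚ] L // Good k K L g} =
        (Module.finrank k (IntermediateField.extendScalars h)).totient ^ 2 +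
        Module.finrank k (IntermediateField.extendScalars h) *
          (Module.finrank k (IntermediateField.extendScalars h)).totient

/-- MAIND: density of the primes with trivial relative `p`-class groups in the cyclotomic tower,
for `K / F` Galois, in terms of the Galois closure. -/
def MAIND : Prop := ∀ (F K L : IntermediateField ℚ ℂ) [FiniteDimensional ℚ L] (hFK : F ≤ K)
    (_hKL : K ≤ L), IsGalois ℚ L → IsGalois F (IntermediateField.extendScalars hFK) →
    DensityGE {p : ℕ | ∀ (n : ℕ) (B : IntermediateField ℚ ℂ), IsLayer p n B →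
        padicValNat p (classNo (K ⊔ B)) = padicValNat p (classNo (F ⊔ B))}
      ((Nat.card {g : L ≃ₐ[ℚ] L // Good F K L g} : ℝ) / Nat.card (L ≃ₐ[ℚ] L))

/-- MAINE: `K / k` cyclic of degree `m` with `K ∩ conj K = k`. -/
def MAINE : Prop := ∀ (k K : IntermediateField ℚ ℂ) [FiniteDimensional ℚ K] (h : k ≤ K) (m : ℕ),
    Module.finrank ℚ k = 2 → (∃ z ∈ k, (starRingEnd ℂ) z ≠ z) →
    IsGalois k (IntermediateField.extendScalars h) →
    IsCyclic ((IntermediateField.extendScalars h) ≃ₐ[k] (IntermediateField.extendScalars h)) →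
    (∀ z ∈ K, (starRingEnd ℂ) z ∈ K → z ∈ k) →
    Module.finrank k (IntermediateField.extendScalars h) = m →
    DensityGE {p : ℕ | ∀ (n : ℕ) (B : IntermediateField ℚ ℂ), IsLayer p n B →
        padicValNat p (classNo (K ⊔ B)) = padicValNat p (classNo (k ⊔ B))}
      (((m.totient : ℝ) / m) * (1 + (m.totient : ℝ) / m) / 2)

end Pool.Agent.RI

end

section

/-!
# Relative Iwasawa theorem: module PD (positive density is insensitive to finitely many primes)
-/

open Finset

namespace Pool.Agent.RI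

namespace PD

lemma term_nonneg (s : ℝ) (n : ℕ) : 0 ≤ (n : ℝ) ^ (-s) := Real.rpow_nonneg (Nat.cast_nonneg n) _

lemma term_le_one {s : ℝ} (hs : 1 < s) (n : ℕ) : (n : ℝ) ^ (-s) ≤ 1 := by
  rcases Nat.eq_zero_or_pos n with h | h
  · subst h
    rw [Nat.cast_zero, Real.zero_rpow (by linarith)]
    exact zero_le_one
  · exact Real.rpow_le_one_of_one_le_of_nonpos (by exact_mod_cast h) (by linarith)

lemma summ {s : ℝ} (hs : 1 < s) : Summable (fun n : ℕ => (n : ℝ) ^ (-s)) :=
  Real.summable_nat_rpow.mpr (by linarith)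

lemma sub_eq (s : ℝ) (S : Set ℕ) :
    ∑' q : {q : ℕ // q.Prime ∧ q ∈ S}, (q : ℝ) ^ (-s) =
      ∑' n : ℕ, Set.indicator {q : ℕ | q.Prime ∧ q ∈ S} (fun n : ℕ => (n : ℝ) ^ (-s)) n :=
  tsum_subtype {q : ℕ | q.Prime ∧ q ∈ S} (fun n : ℕ => (n : ℝ) ^ (-s))

lemma fin_le {s : ℝ} (hs : 1 < s) (A : Finset ℕ) :
    ∑' n : ℕ, Set.indicator (A : Set ℕ) (fun n : ℕ => (n : ℝ) ^ (-s)) n ≤ A.card := by
  rw [← tsum_subtype (A : Set ℕ) (fun n : ℕ => (n : ℝ) ^ (-s))]
  have h1 : ∑' x : (A : Set ℕ), (((x : ℕ) : ℝ)) ^ (-s) = ∑ x ∈ A, ((x : ℕ) : ℝ) ^ (-s) :=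
    Finset.tsum_subtype A (fun n : ℕ => (n : ℝ) ^ (-s))
  rw [h1]
  calc ∑ x ∈ A, ((x : ℕ) : ℝ) ^ (-s) ≤ ∑ _x ∈ A, (1 : ℝ) :=
        Finset.sum_le_sum (fun x _ => term_le_one hs x)
    _ = A.card := by simp

end PD

open _root_.Pool.Agent.RI.PD in
theorem PD_thm : PD := by
  rintro S T A ⟨δ, hδ, C, h⟩ hST
  refine ⟨δ, hδ, C + A.card, fun s hs hs2 => ?_⟩
  have h1 := h s hs hs2
  rw [sub_eq] at h1 ⊢
  have hsum := summ hs
  have hS := hsum.indicator {q : ℕ | q.Prime ∧ q ∈ S}
  have hT := hsum.indicator {q : ℕ | q.Prime ∧ q ∈ T}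
  have hA := hsum.indicator (A : Set ℕ)
  have h2 : ∑' n : ℕ, Set.indicator {q : ℕ | q.Prime ∧ q ∈ S} (fun n : ℕ => (n : ℝ) ^ (-s)) n ≤
      ∑' n : ℕ, (Set.indicator {q : ℕ | q.Prime ∧ q ∈ T} (fun n : ℕ => (n : ℝ) ^ (-s)) n +
        Set.indicator (A : Set ℕ) (fun n : ℕ => (n : ℝ) ^ (-s)) n) := by
    refine hS.tsum_le_tsum (fun n => ?_) (hT.add hA)
    have hT0 : 0 ≤ Set.indicator {q : ℕ | q.Prime ∧ q ∈ T} (fun n : ℕ => (n : ℝ) ^ (-s)) n :=
      Set.indicator_nonneg (fun x _ => term_nonneg s x) n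
    have hA0 : 0 ≤ Set.indicator (A : Set ℕ) (fun n : ℕ => (n : ℝ) ^ (-s)) n :=
      Set.indicator_nonneg (fun x _ => term_nonneg s x) n
    by_cases hn : n ∈ {q : ℕ | q.Prime ∧ q ∈ S}
    · rw [Set.indicator_of_mem hn]
      by_cases hnA : n ∈ (A : Set ℕ)
      · rw [Set.indicator_of_mem hnA]
        linarith
      · have hnT : n ∈ {q : ℕ | q.Prime ∧ q ∈ T} := ⟨hn.1, hST n hn.2 hn.1 (by simpa using hnA)⟩
        rw [Set.indicator_of_mem hnT]
        linarith
    · rw [Set.indicator_of_notMem hn]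
      linarith
  rw [hT.tsum_add hA] at h2
  have h3 := fin_le hs A
  linarith

end Pool.Agent.RI

end

section

/-!
# Relative Iwasawa theorem: module PDGE (the density bound with its constant is monotone and
insensitive to finitely many primes)
-/

open Finset

namespace Pool.Agent.RI

open PD in
theorem PDGE_thm : PDGE := by
  rintro S T A δ ⟨C, h⟩ hST
  refine ⟨C + A.card, fun s hs hs2 => ?_⟩
  have h1 := h s hs hs2
  rw [sub_eq] at h1 ⊢
  have hsum := summ hs
  have hS := hsum.indicator {q : ℕ | q.Prime ∧ q ∈ S}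
  have hT := hsum.indicator {q : ℕ | q.Prime ∧ q ∈ T}
  have hA := hsum.indicator (A : Set ℕ)
  have h2 : ∑' n : ℕ, Set.indicator {q : ℕ | q.Prime ∧ q ∈ S} (fun n : ℕ => (n : ℝ) ^ (-s)) n ≤
      ∑' n : ℕ, (Set.indicator {q : ℕ | q.Prime ∧ q ∈ T} (fun n : ℕ => (n : ℝ) ^ (-s)) n +
        Set.indicator (A : Set ℕ) (fun n : ℕ => (n : ℝ) ^ (-s)) n) := by
    refine hS.tsum_le_tsum (fun n => ?_) (hT.add hA)
    have hT0 : 0 ≤ Set.indicator {q : ℕ | q.Prime ∧ q ∈ T} (fun n : ℕ => (n : ℝ) ^ (-s)) n :=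
      Set.indicator_nonneg (fun x _ => term_nonneg s x) n
    have hA0 : 0 ≤ Set.indicator (A : Set ℕ) (fun n : ℕ => (n : ℝ) ^ (-s)) n :=
      Set.indicator_nonneg (fun x _ => term_nonneg s x) n
    by_cases hn : n ∈ {q : ℕ | q.Prime ∧ q ∈ S}
    · rw [Set.indicator_of_mem hn]
      by_cases hnA : n ∈ (A : Set ℕ)
      · rw [Set.indicator_of_mem hnA]
        linarith
      · have hnT : n ∈ {q : ℕ | q.Prime ∧ q ∈ T} := ⟨hn.1, hST n hn.2 hn.1 (by simpa using hnA)⟩
        rw [Set.indicator_of_mem hnT]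
        linarith
    · rw [Set.indicator_of_notMem hn]
      linarith
  rw [hT.tsum_add hA] at h2
  have h3 := fin_le hs A
  linarith

end Pool.Agent.RI

end

section

/-!
# Fixed points and norms for an automorphism of prime order
-/

namespace Pool.Agent.RI

namespace HERB

open Finset

/-- `g - 1` for an endomorphism `g` of an abelian group. -/
def dif {M : Type*} [AddCommGroup M] (g : AddMonoid.End M) : M →+ M := (g - 1 : AddMonoid.End M)

theorem exists_poly (p : ℕ) [hp : Fact p.Prime] : ∃ h : Polynomial ℤ,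
    (Polynomial.X - 1) ^ (p - 1) = ∑ i ∈ range p, Polynomial.X ^ i + Polynomial.C (p : ℤ) * h := by
  have h1 : Polynomial.map (Int.castRingHom (ZMod p))
      ((Polynomial.X - 1) ^ (p - 1) - ∑ i ∈ range p, Polynomial.X ^ i : Polynomial ℤ) = 0 := by
    have h2 := Polynomial.cyclotomic_mul_prime_eq_pow_of_not_dvd (ZMod p) (n := 1) (p := p)
      (fun h => hp.out.one_lt.not_ge (Nat.le_of_dvd one_pos h))
    rw [one_mul, Polynomial.cyclotomic_one, Polynomial.cyclotomic_prime] at h2
    rw [Polynomial.map_sub, Polynomial.map_pow, Polynomial.map_sub, Polynomial.map_X,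
      Polynomial.map_one, ← h2, Polynomial.map_sum, sub_eq_zero]
    refine Finset.sum_congr rfl fun i _ => ?_
    rw [Polynomial.map_pow, Polynomial.map_X]
  have h2 : Polynomial.C (p : ℤ) ∣
      ((Polynomial.X - 1) ^ (p - 1) - ∑ i ∈ range p, Polynomial.X ^ i : Polynomial ℤ) := by
    rw [Polynomial.C_dvd_iff_dvd_coeff]
    intro i
    have h3 := congrArg (fun q => Polynomial.coeff q i) h1
    simp only [Polynomial.coeff_map, Polynomial.coeff_zero] at h3
    exact (ZMod.intCast_zmod_eq_zero_iff_dvd _ p).mp (by simpa using h3)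
  obtain ⟨h, hh⟩ := h2
  exact ⟨h, by rw [← hh]; ring⟩

theorem index_pow {M : Type*} [AddCommGroup M] (f : AddMonoid.End M)
    (hf : Function.Injective f) (k : ℕ) :
    (AddMonoidHom.range (f ^ k)).index = (AddMonoidHom.range f).index ^ k := by
  induction k with
  | zero =>
    rw [pow_zero, pow_zero, AddSubgroup.index_eq_one]
    rw [eq_top_iff]
    intro x _
    exact ⟨x, rfl⟩
  | succ k ih =>
    have h1 : AddMonoidHom.range (f ^ (k + 1)) = (AddMonoidHom.range (f ^ k)).map f := by
      ext x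
      constructor
      · rintro ⟨y, rfl⟩
        exact ⟨(f ^ k) y, ⟨y, rfl⟩, by rw [pow_succ']; rfl⟩
      · rintro ⟨_, ⟨y, rfl⟩, rfl⟩
        exact ⟨y, by rw [pow_succ']; rfl⟩
    rw [h1, AddSubgroup.index_map_of_injective _ hf, ih, pow_succ]

theorem finite_torsion (M : Type*) [AddCommGroup M] [Module.Finite ℤ M] :
    Finite (AddCommGroup.torsion M) := by
  have h1 : Module.Finite ℤ (AddSubgroup.toIntSubmodule (AddCommGroup.torsion M)) := inferInstance
  have h2 : Module.IsTorsion ℤ (AddSubgroup.toIntSubmodule (AddCommGroup.torsion M)) := by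
    rintro ⟨x, hx⟩
    obtain ⟨n, hn, hx'⟩ := isOfFinAddOrder_iff_nsmul_eq_zero.mp hx
    refine ⟨⟨(n : ℤ), mem_nonZeroDivisors_of_ne_zero (by exact_mod_cast hn.ne')⟩, ?_⟩
    apply Subtype.ext
    change ((n : ℤ) : ℤ) • x = 0
    rw [natCast_zsmul, hx']
  have h3 : Finite (AddSubgroup.toIntSubmodule (AddCommGroup.torsion M)) :=
    Module.finite_of_fg_torsion _ h2
  exact h3

/-- The index of the image of an endomorphism with finite kernel. -/
theorem index_range_eq {M : Type*} [AddCommGroup M] [Module.Finite ℤ M] (f : M →+ M)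
    (hf : f.ker ≤ AddCommGroup.torsion M) :
    f.range.index = Nat.card f.ker *
      (f.range.map (QuotientAddGroup.mk' (AddCommGroup.torsion M))).index := by
  obtain ⟨T, hT⟩ : ∃ T : AddSubgroup M, T = AddCommGroup.torsion M := ⟨_, rfl⟩
  have hfin : Finite T := by
    rw [hT]
    exact finite_torsion M
  rw [← hT]
  have hfT' : ∀ x ∈ T, f x ∈ T := by
    intro x hx
    rw [hT] at hx ⊢
    exact AddCommGroup.le_comap_torsion f hx
  have hfT : ∀ x : T, (f.comp T.subtype) x ∈ T := fun x => hfT' x x.2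
  have h1 : (f.range.map (QuotientAddGroup.mk' T)).index = (f.range ⊔ T).index := by
    rw [AddSubgroup.index_map, QuotientAddGroup.ker_mk',
      AddMonoidHom.range_eq_top.mpr (QuotientAddGroup.mk'_surjective T), AddSubgroup.index_top,
      mul_one]
  have h2 : f.range.relIndex (f.range ⊔ T) * (f.range ⊔ T).index = f.range.index :=
    AddSubgroup.relIndex_mul_index le_sup_left
  have h3 : f.range.addSubgroupOf T = ((f.comp T.subtype).codRestrict T hfT).range := by
    ext ⟨x, hx⟩
    rw [AddSubgroup.mem_addSubgroupOf]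
    constructor
    · rintro ⟨y, hy⟩
      have hyT : y ∈ T := by
        have hx' := hx
        rw [hT] at hx'
        obtain ⟨n, hn, hnx⟩ := isOfFinAddOrder_iff_nsmul_eq_zero.mp hx'
        have h4 : n • y ∈ AddCommGroup.torsion M := by
          apply hf
          rw [AddMonoidHom.mem_ker, map_nsmul, hy]
          exact hnx
        obtain ⟨m, hm, hmy⟩ := isOfFinAddOrder_iff_nsmul_eq_zero.mp h4
        rw [hT]
        refine isOfFinAddOrder_iff_nsmul_eq_zero.mpr ⟨m * n, Nat.mul_pos hm hn, ?_⟩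
        rw [mul_nsmul']
        exact hmy
      exact ⟨⟨y, hyT⟩, Subtype.ext hy⟩
    · rintro ⟨y, hy⟩
      exact ⟨y, congrArg Subtype.val hy⟩
  have h4 : f.range.relIndex T = Nat.card f.ker := by
    rw [AddSubgroup.relIndex, h3, AddSubgroup.index_range]
    refine Nat.card_congr ⟨fun y => ⟨(y : T), ?_⟩, fun y => ⟨⟨(y : M), ?_⟩, ?_⟩, ?_, ?_⟩
    · have h5 := y.2
      rw [AddMonoidHom.mem_ker] at h5 ⊢
      exact congrArg Subtype.val h5
    · rw [hT]
      exact hf y.2
    · rw [AddMonoidHom.mem_ker]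
      exact Subtype.ext y.2
    · intro y
      rfl
    · intro y
      rfl
  rw [h1, ← h2, AddSubgroup.relIndex_sup_left, h4]

/-- The quotient by the torsion subgroup. -/
abbrev Fq (M : Type*) [AddCommGroup M] : Type _ := M ⧸ AddCommGroup.torsion M

instance finite_Fq (M : Type*) [AddCommGroup M] [Module.Finite ℤ M] : Module.Finite ℤ (Fq M) :=
  Module.Finite.of_surjective (QuotientAddGroup.mk' (AddCommGroup.torsion M)).toIntLinearMap
    (QuotientAddGroup.mk'_surjective _)

instance free_Fq (M : Type*) [AddCommGroup M] [Module.Finite ℤ M] : Module.Free ℤ (Fq M) := by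
  have : IsAddTorsionFree (Fq M) := inferInstance
  exact Module.free_of_finite_type_torsion_free'

theorem rank_nullity {M M' : Type*} [AddCommGroup M] [Module.Finite ℤ M] [AddCommGroup M']
    (f : M →+ M') : Module.finrank ℤ f.range + Module.finrank ℤ f.ker = Module.finrank ℤ M := by
  have h := Submodule.finrank_quotient_add_finrank (LinearMap.ker f.toIntLinearMap)
  rw [← h, (LinearMap.quotKerEquivRange f.toIntLinearMap).finrank_eq]
  rfl

theorem finrank_Fq (M : Type*) [AddCommGroup M] [Module.Finite ℤ M] :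
    Module.finrank ℤ (Fq M) = Module.finrank ℤ M := by
  have h1 : Module.finrank ℤ
      (LinearMap.range (QuotientAddGroup.mk' (AddCommGroup.torsion M)).toIntLinearMap) +
      Module.finrank ℤ
        (LinearMap.ker (QuotientAddGroup.mk' (AddCommGroup.torsion M)).toIntLinearMap) =
      Module.finrank ℤ M := rank_nullity (QuotientAddGroup.mk' (AddCommGroup.torsion M))
  have h2 : LinearMap.range (QuotientAddGroup.mk' (AddCommGroup.torsion M)).toIntLinearMap = ⊤ :=
    LinearMap.range_eq_top.mpr (QuotientAddGroup.mk'_surjective _)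
  have h3 : Module.finrank ℤ
      (LinearMap.ker (QuotientAddGroup.mk' (AddCommGroup.torsion M)).toIntLinearMap) = 0 := by
    rw [Module.finrank_eq_zero_iff_isTorsion]
    rintro ⟨x, hx⟩
    have hx' : x ∈ AddCommGroup.torsion M := by
      rw [← QuotientAddGroup.ker_mk' (AddCommGroup.torsion M)]
      exact hx
    obtain ⟨n, hn, hx''⟩ := isOfFinAddOrder_iff_nsmul_eq_zero.mp hx'
    refine ⟨⟨(n : ℤ), mem_nonZeroDivisors_of_ne_zero (by exact_mod_cast hn.ne')⟩, ?_⟩
    apply Subtype.ext
    change ((n : ℤ) : ℤ) • x = 0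
    rw [natCast_zsmul, hx'']
  rw [h2, h3, add_zero, finrank_top] at h1
  exact h1

theorem index_nsmul (M : Type*) [AddCommGroup M] [Module.Finite ℤ M] (p : ℕ) [hp : NeZero p] :
    (nsmulAddMonoidHom p : M →+ M).range.index =
      Nat.card (nsmulAddMonoidHom p : M →+ M).ker * p ^ Module.finrank ℤ M := by
  rw [index_range_eq]
  · congr 1
    rw [← finrank_Fq M, ← ModN.natCard_eq (Fq M) p, AddSubgroup.index_eq_card]
    have h1 : (nsmulAddMonoidHom p : M →+ M).range.map
        (QuotientAddGroup.mk' (AddCommGroup.torsion M)) =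
        (LinearMap.range (LinearMap.lsmul ℤ (Fq M) (p : ℤ))).toAddSubgroup := by
      ext x
      constructor
      · rintro ⟨_, ⟨y, rfl⟩, rfl⟩
        refine ⟨QuotientAddGroup.mk' (AddCommGroup.torsion M) y, ?_⟩
        rw [LinearMap.lsmul_apply, natCast_zsmul]
        exact (map_nsmul (QuotientAddGroup.mk' (AddCommGroup.torsion M)) p y).symm
      · rintro ⟨y, rfl⟩
        obtain ⟨z, rfl⟩ := QuotientAddGroup.mk'_surjective (AddCommGroup.torsion M) y
        refine ⟨p • z, ⟨z, rfl⟩, ?_⟩
        rw [LinearMap.lsmul_apply, natCast_zsmul]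
        exact map_nsmul (QuotientAddGroup.mk' (AddCommGroup.torsion M)) p z
    rw [h1]
    rfl
  · intro x hx
    exact isOfFinAddOrder_iff_nsmul_eq_zero.mpr ⟨p, Nat.pos_of_ne_zero hp.out, hx⟩

theorem sum_apply {M ι : Type*} [AddCommGroup M] (s : Finset ι) (f : ι → AddMonoid.End M)
    (x : M) : (∑ i ∈ s, f i) x = ∑ i ∈ s, f i x := by
  classical
  induction s using Finset.induction_on with
  | empty => rfl
  | insert a s ha ih =>
    rw [Finset.sum_insert ha, Finset.sum_insert ha, ← ih]
    rfl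

theorem fix_nsmul {M : Type*} [AddCommGroup M] (g : AddMonoid.End M) (p : ℕ) (x : M)
    (h1 : (∑ i ∈ range p, g ^ i) x = 0) (h2 : g x = x) : p • x = 0 := by
  rw [← h1, sum_apply]
  have h3 : ∀ i : ℕ, (g ^ i) x = x := by
    intro i
    induction i with
    | zero => rfl
    | succ i ih =>
      rw [pow_succ]
      change (g ^ i) (g x) = x
      rw [h2, ih]
  rw [Finset.sum_congr rfl fun i _ => h3 i, Finset.sum_const, Finset.card_range]

theorem nsmul_mem_range {B : Type*} [AddCommGroup B] (g : AddMonoid.End B) (p : ℕ)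
    (x : B) (hx : (∑ i ∈ range p, g ^ i) x = 0) : p • x ∈ (dif g).range := by
  have h1 : p • x = -∑ i ∈ range p, (g ^ i - 1) x := by
    have h2 : ∑ i ∈ range p, (g ^ i - 1) x = (∑ i ∈ range p, g ^ i) x - p • x := by
      rw [sum_apply]
      have h3 : ∀ i ∈ range p, (g ^ i - 1) x = (g ^ i) x - x := fun i _ => rfl
      rw [Finset.sum_congr rfl h3, Finset.sum_sub_distrib, Finset.sum_const, Finset.card_range]
    rw [h2, hx]
    simp
  rw [h1]
  refine neg_mem (sum_mem fun i _ => ?_)
  rw [← mul_geom_sum]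
  exact ⟨_, rfl⟩

theorem card_ker_ne_zero {M : Type*} [AddCommGroup M] [Module.Finite ℤ M] (f : M →+ M)
    (hf : f.ker ≤ AddCommGroup.torsion M) : Nat.card f.ker ≠ 0 := by
  have h1 := finite_torsion M
  have h2 : Finite f.ker := Finite.of_injective _ (AddSubgroup.inclusion_injective hf)
  exact Nat.card_pos.ne'

theorem nsmul_ker_le {M : Type*} [AddCommGroup M] (p : ℕ) [hp : NeZero p] :
    (nsmulAddMonoidHom p : M →+ M).ker ≤ AddCommGroup.torsion M := fun _ hx =>
  isOfFinAddOrder_iff_nsmul_eq_zero.mpr ⟨p, Nat.pos_of_ne_zero hp.out, hx⟩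

theorem key {B : Type*} [AddCommGroup B] [Module.Finite ℤ B] (g : AddMonoid.End B) (p r : ℕ)
    [hp : Fact p.Prime] (hN : ∑ i ∈ range p, g ^ i = 0)
    (hr : Module.finrank ℤ B = (p - 1) * r) :
    p ^ r * Nat.card (dif g).ker ≤ (dif g).range.index ∧ (dif g).range.index ≠ 0 := by
  have : NeZero p := ⟨hp.out.ne_zero⟩
  have hkerB : (dif g).ker ≤ AddCommGroup.torsion B := by
    intro x hx
    have h2 : g x = x := by
      rw [AddMonoidHom.mem_ker] at hx
      exact sub_eq_zero.mp hx
    exact isOfFinAddOrder_iff_nsmul_eq_zero.mpr ⟨p, hp.out.pos, fix_nsmul g p x (by rw [hN]; rfl) h2⟩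
  obtain ⟨T, hT⟩ : ∃ T : AddSubgroup B, T = AddCommGroup.torsion B := ⟨_, rfl⟩
  obtain ⟨k, hk⟩ : ∃ k : AddMonoid.End (Fq B), k = QuotientAddGroup.map
      (AddCommGroup.torsion B) (AddCommGroup.torsion B) g (AddCommGroup.le_comap_torsion g) :=
    ⟨_, rfl⟩
  obtain ⟨q, hq⟩ : ∃ q : B →+ Fq B, q = QuotientAddGroup.mk' (AddCommGroup.torsion B) := ⟨_, rfl⟩
  have hqs : Function.Surjective q := by
    rw [hq]
    exact QuotientAddGroup.mk'_surjective _
  have hkq : ∀ x, k (q x) = q (g x) := by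
    intro x
    rw [hk, hq]
    rfl
  have hkqi : ∀ (i : ℕ) x, (k ^ i) (q x) = q ((g ^ i) x) := by
    intro i
    induction i with
    | zero => exact fun x => rfl
    | succ i ih =>
      intro x
      rw [pow_succ, pow_succ]
      change (k ^ i) (k (q x)) = q ((g ^ i) (g x))
      rw [hkq, ih]
  have hNk : ∑ i ∈ range p, k ^ i = 0 := by
    apply AddMonoidHom.ext
    intro y
    obtain ⟨x, rfl⟩ := hqs y
    change (∑ i ∈ range p, k ^ i) (q x) = 0
    rw [sum_apply, Finset.sum_congr rfl fun i _ => hkqi i x, ← map_sum, ← sum_apply, hN]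
    exact map_zero q
  obtain ⟨h, hh⟩ := exists_poly p
  have hpow : (k - 1) ^ (p - 1) = (p : AddMonoid.End (Fq B)) * Polynomial.aeval k h := by
    have h1 := congrArg (Polynomial.aeval k) hh
    simp only [map_pow, map_sub, map_add, map_sum, map_mul, Polynomial.aeval_X, map_one,
      Polynomial.aeval_C] at h1
    rw [h1, hNk, zero_add]
    simp
  have hinj : Function.Injective (dif k) := by
    rw [injective_iff_map_eq_zero]
    intro x hx
    have h1 : k x = x := sub_eq_zero.mp hx
    have h2 := fix_nsmul k p x (by rw [hNk]; rfl) h1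
    exact (nsmul_eq_zero_iff.mp h2).resolve_right hp.out.ne_zero
  have hmap : (dif g).range.map q = (dif k).range := by
    ext y
    constructor
    · rintro ⟨_, ⟨x, rfl⟩, rfl⟩
      refine ⟨q x, ?_⟩
      change k (q x) - q x = q (g x - x)
      rw [hkq, map_sub]
    · rintro ⟨y, rfl⟩
      obtain ⟨x, rfl⟩ := hqs y
      refine ⟨g x - x, ⟨x, rfl⟩, ?_⟩
      change q (g x - x) = k (q x) - q x
      rw [hkq, map_sub]
  have hidx := index_range_eq (dif g) hkerB
  rw [← hq, hmap] at hidx
  have hfin : (dif g).range.index ≠ 0 := by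
    have h1 : (nsmulAddMonoidHom p : B →+ B).range ≤ (dif g).range := by
      rintro _ ⟨x, rfl⟩
      exact nsmul_mem_range g p x (by rw [hN]; rfl)
    have h2 := AddSubgroup.index_dvd_of_le h1
    intro h3
    rw [h3, zero_dvd_iff, index_nsmul] at h2
    rcases mul_eq_zero.mp h2 with h4 | h4
    · exact card_ker_ne_zero _ (nsmul_ker_le p) h4
    · exact pow_ne_zero _ hp.out.ne_zero h4
  have hdvd : p ^ r ∣ (dif k).range.index := by
    have h1 : AddMonoidHom.range (((k - 1 : AddMonoid.End (Fq B)) ^ (p - 1) :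
        AddMonoid.End (Fq B)) : Fq B →+ Fq B) ≤ (nsmulAddMonoidHom p : Fq B →+ Fq B).range := by
      rintro _ ⟨x, rfl⟩
      rw [hpow]
      refine ⟨Polynomial.aeval k h x, ?_⟩
      change p • _ = (p : AddMonoid.End (Fq B)) (Polynomial.aeval k h x)
      rw [AddMonoid.End.natCast_apply]
    have h2 := AddSubgroup.index_dvd_of_le h1
    have h4 := index_pow (k - 1 : AddMonoid.End (Fq B)) hinj (p - 1)
    rw [index_nsmul, h4, finrank_Fq, hr, mul_comm (p - 1) r, pow_mul] at h2
    have h3 := (Dvd.intro_left _ rfl).trans h2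
    exact (Nat.pow_dvd_pow_iff (Nat.sub_ne_zero_of_lt hp.out.one_lt)).mp h3
  refine ⟨?_, hfin⟩
  rw [hidx, mul_comm]
  refine Nat.mul_le_mul_left _ (Nat.le_of_dvd (Nat.pos_of_ne_zero fun h0 => hfin ?_) hdvd)
  rw [hidx, h0, mul_zero]

/-- Let `g` be an automorphism of order `p` of a finitely generated abelian group `E`, whose
rank is `p` times the rank of the group of fixed points. If each element of norm `0` is of the form
`g y - y`, then each fixed element is a norm. -/
theorem main_add (E : Type*) [AddCommGroup E] [Module.Finite ℤ E] (g : AddMonoid.End E) (p : ℕ)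
    [hp : Fact p.Prime] (hg : g ^ p = 1)
    (hrank : Module.finrank ℤ E = p * Module.finrank ℤ (dif g).ker)
    (hH : ∀ x, ∑ i ∈ range p, (g ^ i) x = 0 → ∃ y, g y - y = x) :
    ∀ x, g x = x → ∃ y, ∑ i ∈ range p, (g ^ i) y = x := by
  have : NeZero p := ⟨hp.out.ne_zero⟩
  obtain ⟨N, hN⟩ : ∃ N : E →+ E, N = (∑ i ∈ range p, g ^ i : AddMonoid.End E) := ⟨_, rfl⟩
  have hNapp : ∀ x, N x = ∑ i ∈ range p, (g ^ i) x := by
    intro x
    rw [hN]
    exact sum_apply _ _ _
  obtain ⟨A, hA⟩ : ∃ A : AddSubgroup E, A = (dif g).ker := ⟨_, rfl⟩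
  obtain ⟨B, hB⟩ : ∃ B : AddSubgroup E, B = N.ker := ⟨_, rfl⟩
  have memA : ∀ x, x ∈ A ↔ g x = x := by
    intro x
    rw [hA, AddMonoidHom.mem_ker]
    exact sub_eq_zero
  have memB : ∀ x, x ∈ B ↔ N x = 0 := by
    intro x
    rw [hB, AddMonoidHom.mem_ker]
  have hgN : ∀ x, g (N x) = N x := by
    intro x
    have h1 : (g - 1) * ∑ i ∈ range p, g ^ i = 0 := by
      rw [mul_geom_sum, hg, sub_self]
    have h2 : ((g - 1) * ∑ i ∈ range p, g ^ i : AddMonoid.End E) x = 0 := by
      rw [h1]
      rfl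
    rw [hN]
    exact sub_eq_zero.mp h2
  have hNg : ∀ x, N (g x) = N x := by
    intro x
    have h1 : (∑ i ∈ range p, g ^ i) * (g - 1) = 0 := by
      rw [geom_sum_mul, hg, sub_self]
    have h2 : ((∑ i ∈ range p, g ^ i) * (g - 1) : AddMonoid.End E) x = 0 := by
      rw [h1]
      rfl
    have h3 : N (g x - x) = 0 := by
      rw [hN]
      exact h2
    rw [map_sub] at h3
    exact sub_eq_zero.mp h3
  have hNA : ∀ x ∈ A, N x = p • x := by
    intro x hx
    rw [memA] at hx
    have h3 : ∀ i : ℕ, (g ^ i) x = x := by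
      intro i
      induction i with
      | zero => rfl
      | succ i ih =>
        rw [pow_succ]
        change (g ^ i) (g x) = x
        rw [hx, ih]
    rw [hNapp, Finset.sum_congr rfl fun i _ => h3 i, Finset.sum_const, Finset.card_range]
  -- the restricted norm
  obtain ⟨N', hN'⟩ : ∃ N' : E →+ A, ∀ x, (N' x : E) = N x :=
    ⟨N.codRestrict A fun x => (memA _).mpr (hgN x), fun x => rfl⟩
  obtain ⟨t', ht'⟩ : ∃ t' : E →+ B, ∀ x, (t' x : E) = g x - x :=
    ⟨(dif g).codRestrict B fun x => (memB _).mpr (by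
      change N (g x - x) = 0
      rw [map_sub, hNg, sub_self]), fun x => rfl⟩
  have hgB : ∀ x ∈ B, g x ∈ B := by
    intro x hx
    rw [memB] at hx ⊢
    rw [hNg, hx]
  obtain ⟨gB, hgB'⟩ : ∃ gB : AddMonoid.End B, ∀ x, (gB x : E) = g x :=
    ⟨((g : E →+ E).comp B.subtype).codRestrict B fun x => hgB x x.2, fun x => rfl⟩
  have hgBi : ∀ (i : ℕ) (x : B), ((gB ^ i) x : E) = (g ^ i) x := by
    intro i
    induction i with
    | zero => exact fun x => rfl
    | succ i ih =>
      intro x
      rw [pow_succ, pow_succ]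
      change (((gB ^ i) (gB x) : B) : E) = (g ^ i) (g x)
      rw [ih, hgB']
  have hNB : ∑ i ∈ range p, gB ^ i = 0 := by
    apply AddMonoidHom.ext
    intro x
    apply Subtype.ext
    change (((∑ i ∈ range p, gB ^ i) x : B) : E) = 0
    rw [sum_apply, AddSubgroup.val_finsetSum, Finset.sum_congr rfl fun i _ => hgBi i x,
      ← hNapp]
    exact (memB _).mp x.2
  -- ranks
  have hrB : Module.finrank ℤ B = (p - 1) * Module.finrank ℤ A := by
    have h1 := rank_nullity (dif g)
    have h2 : (dif g).range = B := by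
      ext x
      constructor
      · rintro ⟨y, rfl⟩
        have h2 : (dif g) y = t' y := (ht' y).symm
        rw [h2]
        exact (t' y).2
      · intro hx
        obtain ⟨y, hy⟩ := hH x (by rw [← hNapp]; exact (memB x).mp hx)
        exact ⟨y, hy⟩
    rw [h2, ← hA, hrank, ← hA] at h1
    obtain ⟨q, hq⟩ : ∃ q, p = q + 1 := ⟨p - 1, by have := hp.out.pos; omega⟩
    have h3 : p * Module.finrank ℤ A = (p - 1) * Module.finrank ℤ A + Module.finrank ℤ A := by
      rw [hq]
      simp only [Nat.add_sub_cancel]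
      ring
    omega
  have hfB : Module.Finite ℤ B :=
    (inferInstance : Module.Finite ℤ (AddSubgroup.toIntSubmodule B))
  have hfA : Module.Finite ℤ A :=
    (inferInstance : Module.Finite ℤ (AddSubgroup.toIntSubmodule A))
  have hkey := key gB p (Module.finrank ℤ A) hNB hrB
  have hnA := index_nsmul A p
  have hc : Nat.card (nsmulAddMonoidHom p : A →+ A).ker = Nat.card (dif gB).ker := by
    refine Nat.card_congr ⟨fun x => ⟨⟨((x : A) : E), ?_⟩, ?_⟩, fun x => ⟨⟨((x : B) : E), ?_⟩, ?_⟩,
      ?_, ?_⟩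
    · rw [memB, hNA _ x.1.2]
      exact congrArg Subtype.val x.2
    · rw [AddMonoidHom.mem_ker]
      apply Subtype.ext
      change (gB _ : E) - _ = 0
      rw [hgB', sub_eq_zero]
      exact (memA _).mp x.1.2
    · rw [memA, ← hgB']
      exact congrArg Subtype.val (sub_eq_zero.mp x.2)
    · rw [AddMonoidHom.mem_ker]
      apply Subtype.ext
      have h1 : g ((x : B) : E) = (x : B) := by
        rw [← hgB']
        exact congrArg Subtype.val (sub_eq_zero.mp x.2)
      change p • ((x : B) : E) = 0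
      rw [← hNA _ ((memA _).mpr h1)]
      exact (memB _).mp x.1.2
    · intro x
      rfl
    · intro x
      rfl
  have h1 : (A.map N').index = (A ⊔ B).index * N'.range.index := by
    rw [AddSubgroup.index_map]
    congr 3
    ext x
    rw [AddMonoidHom.mem_ker, memB, ← hN']
    exact ⟨fun h => congrArg Subtype.val h, fun h => Subtype.ext h⟩
  have h2 : (B.map t').index = (B ⊔ A).index := by
    rw [AddSubgroup.index_map]
    have h3 : t'.range = ⊤ := by
      rw [AddMonoidHom.range_eq_top]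
      intro x
      obtain ⟨y, hy⟩ := hH x (by rw [← hNapp]; exact (memB _).mp x.2)
      exact ⟨y, Subtype.ext (by rw [ht', hy])⟩
    rw [h3, AddSubgroup.index_top, mul_one]
    congr 2
    ext x
    rw [AddMonoidHom.mem_ker, memA]
    constructor
    · intro h
      have h4 := congrArg Subtype.val h
      rw [ht'] at h4
      exact sub_eq_zero.mp h4
    · intro h
      apply Subtype.ext
      rw [ht', h, sub_self]
      rfl
  have h3 : A.map N' = (nsmulAddMonoidHom p : A →+ A).range := by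
    ext x
    constructor
    · rintro ⟨y, hy, rfl⟩
      refine ⟨⟨y, hy⟩, Subtype.ext ?_⟩
      rw [hN', hNA y hy]
      rfl
    · rintro ⟨y, rfl⟩
      refine ⟨y, y.2, Subtype.ext ?_⟩
      rw [hN', hNA _ y.2]
      rfl
  have h4 : B.map t' = (dif gB).range := by
    ext x
    constructor
    · rintro ⟨y, hy, rfl⟩
      refine ⟨⟨y, hy⟩, Subtype.ext ?_⟩
      rw [ht']
      change (gB ⟨y, hy⟩ : E) - y = g y - y
      rw [hgB']
    · rintro ⟨y, rfl⟩
      refine ⟨y, y.2, Subtype.ext ?_⟩
      rw [ht']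
      change g y - y = (gB y : E) - y
      rw [hgB']
  rw [h3, hnA, hc] at h1
  rw [h4, sup_comm B A] at h2
  rw [h2] at hkey
  have h5 : N'.range.index = 1 := by
    have h6 : Nat.card (dif gB).ker * p ^ Module.finrank ℤ A ≠ 0 := by
      refine mul_ne_zero ?_ (pow_ne_zero _ hp.out.ne_zero)
      rw [← hc]
      exact card_ker_ne_zero _ (nsmul_ker_le p)
    have h7 : (A ⊔ B).index * N'.range.index ≤ (A ⊔ B).index * 1 := by
      rw [← h1, mul_one, mul_comm]
      exact hkey.1
    have h8 := Nat.le_of_mul_le_mul_left h7 (Nat.pos_of_ne_zero hkey.2)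
    have h9 : N'.range.index ≠ 0 := by
      intro h0
      rw [h0, mul_zero] at h1
      exact h6 h1
    omega
  intro x hx
  have h6 : (⟨x, (memA x).mpr hx⟩ : A) ∈ N'.range := by
    rw [AddSubgroup.index_eq_one.mp h5]
    exact AddSubgroup.mem_top _
  obtain ⟨y, hy⟩ := h6
  refine ⟨y, ?_⟩
  rw [← hNapp, ← hN', hy]

end HERB

open _root_.Pool.Agent.RI.HERB Finset in
theorem HERB_thm : HERB := by
  intro p hp A G _ _ _ g E E' hg hfg hst hE' hH hr
  have : Group.FG E := (Group.fg_iff_subgroup_fg E).mpr hfg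
  have hfin : Module.Finite ℤ (Additive E) := Module.Finite.iff_addGroup_fg.mpr inferInstance
  obtain ⟨k, hk⟩ : ∃ k : AddMonoid.End (Additive E), ∀ x : E,
      ((k (Additive.ofMul x)).toMul : A) = g • (x : A) :=
    ⟨MonoidHom.toAdditive (((MulDistribMulAction.toMonoidHom A g).comp E.subtype).codRestrict E
      fun x => hst x x.2), fun x => rfl⟩
  have hki : ∀ (i : ℕ) (x : E), (((k ^ i) (Additive.ofMul x)).toMul : A) = g ^ i • (x : A) := by
    intro i
    induction i with
    | zero =>
      intro x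
      rw [pow_zero, pow_zero, one_smul]
      rfl
    | succ i ih =>
      intro x
      rw [pow_succ, pow_succ, mul_smul, ← hk x]
      exact ih (k (Additive.ofMul x)).toMul
  have hsum : ∀ x : E, (((∑ i ∈ range p, (k ^ i) (Additive.ofMul x) : Additive E)).toMul : A) =
      ∏ i ∈ range p, g ^ i • (x : A) := by
    intro x
    rw [toMul_sum, Subgroup.val_finsetProd]
    exact Finset.prod_congr rfl fun i _ => hki i x
  have hkp : k ^ p = 1 := by
    apply AddMonoidHom.ext
    intro x
    apply Additive.toMul.injective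
    apply Subtype.ext
    have h1 := hki p x.toMul
    rw [hg, one_smul] at h1
    exact h1
  have hrk : Module.finrank ℤ (dif k).ker = Module.finrank ℤ (Additive E') := by
    have e : (dif k).ker ≃+ Additive E' :=
      { toFun := fun x => Additive.ofMul ⟨((x : Additive E).toMul : A), (hE' _).mpr
          ⟨(x : Additive E).toMul.2, by
            have h1 : k (x : Additive E) = x := sub_eq_zero.mp x.2
            rw [← hk]
            exact congrArg (fun z : Additive E => (z.toMul : A)) h1⟩⟩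
        invFun := fun x => ⟨Additive.ofMul ⟨(x.toMul : A), ((hE' _).mp x.toMul.2).1⟩, by
          rw [AddMonoidHom.mem_ker]
          change k _ - _ = 0
          rw [sub_eq_zero]
          apply Additive.toMul.injective
          apply Subtype.ext
          rw [hk]
          exact ((hE' _).mp x.toMul.2).2⟩
        left_inv := fun x => rfl
        right_inv := fun x => rfl
        map_add' := fun x y => rfl }
    exact e.toIntLinearEquiv.finrank_eq
  have hmain := main_add (Additive E) k p hkp (by rw [hrk]; exact hr) (by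
    intro x hx
    obtain ⟨v, hv, hv'⟩ := hH (x.toMul : A) x.toMul.2 (by
      rw [← hsum]
      exact congrArg (fun z : Additive E => (z.toMul : A)) hx)
    refine ⟨Additive.ofMul (⟨v, hv⟩⁻¹ : E), ?_⟩
    apply Additive.toMul.injective
    apply Subtype.ext
    change ((k (Additive.ofMul (⟨v, hv⟩⁻¹ : E))).toMul : A) / ((⟨v, hv⟩⁻¹ : E) : A) = _
    rw [hk, hv']
    change g • v⁻¹ / v⁻¹ = v / g • v
    rw [smul_inv', div_eq_mul_inv, inv_inv, div_eq_mul_inv, mul_comm])
  intro e he
  obtain ⟨h1, h2⟩ := (hE' e).mp he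
  obtain ⟨y, hy⟩ := hmain (Additive.ofMul ⟨e, h1⟩) (by
    apply Additive.toMul.injective
    apply Subtype.ext
    rw [hk]
    exact h2)
  refine ⟨y.toMul, y.toMul.2, ?_⟩
  have h3 := hsum y.toMul
  rw [← h3]
  exact (congrArg (fun z : Additive E => (z.toMul : A)) hy).symm

end Pool.Agent.RI

end
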