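import Mathlib

/-! Parts: Lib_helper18.Eis -/

section

/-!
# The Eisenstein integers as a concrete Euclidean domain
-/

namespace Pool.Agent.Lib_helper18

/-- Eisenstein integers `re + im * w`, `w^2 = -1 - w`. -/
@[ext] structure Eis where
  re : ℤ
  im : ℤ
deriving DecidableEq

namespace Eis

instance : Zero Eis := ⟨⟨0, 0⟩⟩
instance : One Eis := ⟨⟨1, 0⟩⟩
instance : Add Eis := ⟨fun x y => ⟨x.re + y.re, x.im + y.im⟩⟩
instance : Neg Eis := ⟨fun x => ⟨-x.re, -x.im⟩⟩
instance : Sub Eis := ⟨fun x y => ⟨x.re - y.re, x.im - y.im⟩⟩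
instance : Mul Eis := ⟨fun x y => ⟨x.re * y.re - x.im * y.im,
  x.re * y.im + x.im * y.re - x.im * y.im⟩⟩
instance : NatCast Eis := ⟨fun n => ⟨n, 0⟩⟩
instance : IntCast Eis := ⟨fun n => ⟨n, 0⟩⟩

@[simp] theorem zero_re : (0 : Eis).re = 0 := rfl
@[simp] theorem zero_im : (0 : Eis).im = 0 := rfl
@[simp] theorem one_re : (1 : Eis).re = 1 := rfl
@[simp] theorem one_im : (1 : Eis).im = 0 := rfl
@[simp] theorem add_re (x y : Eis) : (x + y).re = x.re + y.re := rfl
@[simp] theorem add_im (x y : Eis) : (x + y).im = x.im + y.im := rfl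
@[simp] theorem neg_re (x : Eis) : (-x).re = -x.re := rfl
@[simp] theorem neg_im (x : Eis) : (-x).im = -x.im := rfl
@[simp] theorem sub_re (x y : Eis) : (x - y).re = x.re - y.re := rfl
@[simp] theorem sub_im (x y : Eis) : (x - y).im = x.im - y.im := rfl
@[simp] theorem mul_re (x y : Eis) : (x * y).re = x.re * y.re - x.im * y.im := rfl
@[simp] theorem mul_im (x y : Eis) :
    (x * y).im = x.re * y.im + x.im * y.re - x.im * y.im := rfl
@[simp] theorem natCast_re (n : ℕ) : (n : Eis).re = n := rfl
@[simp] theorem natCast_im (n : ℕ) : (n : Eis).im = 0 := rfl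
@[simp] theorem intCast_re (n : ℤ) : (n : Eis).re = n := rfl
@[simp] theorem intCast_im (n : ℤ) : (n : Eis).im = 0 := rfl

instance : CommRing Eis where
  add_assoc x y z := by ext <;> simp [add_assoc]
  zero_add x := by ext <;> simp
  add_zero x := by ext <;> simp
  add_comm x y := by ext <;> simp [add_comm]
  neg_add_cancel x := by ext <;> simp
  sub_eq_add_neg x y := by ext <;> simp [sub_eq_add_neg]
  left_distrib x y z := by ext <;> simp <;> ring
  right_distrib x y z := by ext <;> simp <;> ring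
  zero_mul x := by ext <;> simp
  mul_zero x := by ext <;> simp
  mul_assoc x y z := by ext <;> simp <;> ring
  one_mul x := by ext <;> simp
  mul_one x := by ext <;> simp
  mul_comm x y := by ext <;> simp <;> ring
  nsmul := nsmulRec
  zsmul := zsmulRec
  natCast_zero := by ext <;> simp
  natCast_succ n := by ext <;> simp
  intCast_ofNat n := by ext <;> simp
  intCast_negSucc n := by ext <;> simp [Int.negSucc_eq]

@[simp] theorem ofNat_re (n : ℕ) [n.AtLeastTwo] : (OfNat.ofNat n : Eis).re = OfNat.ofNat n := rfl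
@[simp] theorem ofNat_im (n : ℕ) [n.AtLeastTwo] : (OfNat.ofNat n : Eis).im = 0 := rfl

instance : Nontrivial Eis := ⟨0, 1, fun h => by have := congrArg Eis.re h; simp at this⟩

/-- the primitive cube root of unity -/
def w : Eis := ⟨0, 1⟩

@[simp] theorem w_re : w.re = 0 := rfl
@[simp] theorem w_im : w.im = 1 := rfl

theorem w_sq : w ^ 2 = -1 - w := by ext <;> simp [pow_two]
theorem w_rel : w ^ 2 + w + 1 = 0 := by rw [w_sq]; ring
theorem w_cube : w ^ 3 = 1 := by
  have : w ^ 3 = w ^ 2 * w := by ring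
  rw [this, w_sq]; have := w_sq; linear_combination (-1 : Eis) * this

theorem eq_re_add_im (x : Eis) : x = (x.re : Eis) + (x.im : Eis) * w := by
  ext <;> simp

/-- conjugation -/
def conj : Eis →+* Eis where
  toFun x := ⟨x.re - x.im, -x.im⟩
  map_one' := by ext <;> simp
  map_mul' x y := by ext <;> simp <;> ring
  map_zero' := by ext <;> simp
  map_add' x y := by ext <;> simp <;> ring

@[simp] theorem conj_re (x : Eis) : (conj x).re = x.re - x.im := rfl
@[simp] theorem conj_im (x : Eis) : (conj x).im = -x.im := rfl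
@[simp] theorem conj_conj (x : Eis) : conj (conj x) = x := by ext <;> simp
@[simp] theorem conj_intCast (n : ℤ) : conj (n : Eis) = n := by ext <;> simp
@[simp] theorem conj_natCast (n : ℕ) : conj (n : Eis) = n := by ext <;> simp
theorem conj_w : conj w = w ^ 2 := by rw [w_sq]; ext <;> simp

theorem conj_dvd {x y : Eis} (h : x ∣ y) : conj x ∣ conj y := map_dvd conj h
theorem conj_dvd_iff {x y : Eis} : conj x ∣ conj y ↔ x ∣ y :=
  ⟨fun h => by simpa using conj_dvd h, conj_dvd⟩

/-- conjugation as an equivalence -/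
def conjEquiv : Eis ≃+* Eis :=
  RingEquiv.ofRingHom conj conj (by ext x <;> simp) (by ext x <;> simp)

theorem prime_conj {x : Eis} (h : Prime x) : Prime (conj x) :=
  (MulEquiv.prime_iff conjEquiv (p := x)).mpr h

/-- norm -/
def norm (x : Eis) : ℤ := x.re ^ 2 - x.re * x.im + x.im ^ 2

theorem norm_def (x : Eis) : x.norm = x.re ^ 2 - x.re * x.im + x.im ^ 2 := rfl

@[simp] theorem norm_mul (x y : Eis) : (x * y).norm = x.norm * y.norm := by
  simp only [norm, mul_re, mul_im]; ring

@[simp] theorem norm_one : (1 : Eis).norm = 1 := by simp [norm]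
@[simp] theorem norm_zero : (0 : Eis).norm = 0 := by simp [norm]
@[simp] theorem norm_neg (x : Eis) : (-x).norm = x.norm := by simp [norm]
@[simp] theorem norm_conj (x : Eis) : (conj x).norm = x.norm := by simp [norm]; ring
@[simp] theorem norm_intCast (n : ℤ) : (n : Eis).norm = n ^ 2 := by simp [norm]
@[simp] theorem norm_natCast (n : ℕ) : (n : Eis).norm = n ^ 2 := by simp [norm]
@[simp] theorem norm_w : w.norm = 1 := by simp [norm]

theorem norm_pow (x : Eis) (n : ℕ) : (x ^ n).norm = x.norm ^ n := by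
  induction n with
  | zero => simp
  | succ n ih => rw [pow_succ, norm_mul, ih, pow_succ]

theorem mul_conj (x : Eis) : x * conj x = (x.norm : Eis) := by
  ext
  · simp only [mul_re, conj_re, conj_im, intCast_re, norm_def]; ring
  · simp only [mul_im, conj_re, conj_im, intCast_im]; ring

theorem conj_mul_self (x : Eis) : conj x * x = (x.norm : Eis) := by
  rw [mul_comm, mul_conj]

theorem norm_nonneg (x : Eis) : 0 ≤ x.norm := by
  simp only [norm]; nlinarith [sq_nonneg (2 * x.re - x.im), sq_nonneg x.im]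

theorem norm_eq_zero {x : Eis} : x.norm = 0 ↔ x = 0 := by
  constructor
  · intro h
    simp only [norm] at h
    have h1 : x.im = 0 := by
      by_contra hne
      have : 0 < x.im ^ 2 := by positivity
      nlinarith [sq_nonneg (2 * x.re - x.im)]
    have h2 : x.re = 0 := by
      rw [h1] at h; simpa using h
    ext <;> simp [h1, h2]
  · rintro rfl; simp

theorem norm_pos {x : Eis} (hx : x ≠ 0) : 0 < x.norm :=
  lt_of_le_of_ne (norm_nonneg x) (fun h => hx (norm_eq_zero.mp h.symm))

/-- Euclidean quotient -/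
def quo (x y : Eis) : Eis :=
  ⟨(2 * (x * conj y).re + y.norm) / (2 * y.norm), (2 * (x * conj y).im + y.norm) / (2 * y.norm)⟩

theorem norm_sub_quo_lt (x : Eis) {y : Eis} (hy : y ≠ 0) : (x - y * quo x y).norm < y.norm := by
  have hn := norm_pos hy
  set n := y.norm with hn'
  set c := x * conj y with hc
  set q := quo x y with hq
  have e1 := Int.emod_add_mul_ediv (2 * c.re + n) (2 * n)
  have l1 := Int.emod_nonneg (2 * c.re + n) (b := 2 * n) (by positivity)
  have u1 := Int.emod_lt_of_pos (2 * c.re + n) (b := 2 * n) (by positivity)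
  have e2 := Int.emod_add_mul_ediv (2 * c.im + n) (2 * n)
  have l2 := Int.emod_nonneg (2 * c.im + n) (b := 2 * n) (by positivity)
  have u2 := Int.emod_lt_of_pos (2 * c.im + n) (b := 2 * n) (by positivity)
  have q1 : q.re = (2 * c.re + n) / (2 * n) := rfl
  have q2 : q.im = (2 * c.im + n) / (2 * n) := rfl
  rw [← q1] at e1
  rw [← q2] at e2
  set r1 := (2 * c.re + n) % (2 * n)
  set r2 := (2 * c.im + n) % (2 * n)
  have hkey : (x - y * q) * conj y = c - (n : Eis) * q := by
    rw [sub_mul, ← hc, hn', ← mul_conj]; ring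
  have h3 : ((x - y * q).norm) * n = (c - (n : Eis) * q).norm := by
    rw [← hkey, norm_mul, norm_conj]
  have h4 : 4 * (c - (n : Eis) * q).norm ≤ 3 * n ^ 2 := by
    have a1 : 2 * (c - (n : Eis) * q).re = r1 - n := by simp; linarith
    have a2 : 2 * (c - (n : Eis) * q).im = r2 - n := by simp; linarith
    have b1 : |r1 - n| ≤ n := abs_le.mpr ⟨by linarith, by linarith⟩
    have b2 : |r2 - n| ≤ n := abs_le.mpr ⟨by linarith, by linarith⟩
    have : 4 * (c - (n : Eis) * q).norm =
        (r1 - n) ^ 2 - (r1 - n) * (r2 - n) + (r2 - n) ^ 2 := by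
      rw [norm_def, ← a1, ← a2]; ring
    rw [this]
    have s1 : (r1 - n) ^ 2 ≤ n ^ 2 := sq_le_sq' (by linarith) (by linarith)
    have s2 : (r2 - n) ^ 2 ≤ n ^ 2 := sq_le_sq' (by linarith) (by linarith)
    have s3 : -((r1 - n) * (r2 - n)) ≤ n ^ 2 := by
      have := abs_mul (r1 - n) (r2 - n)
      have h5 : |r1 - n| * |r2 - n| ≤ n * n := mul_le_mul b1 b2 (abs_nonneg _) hn.le
      have h6 := neg_abs_le ((r1 - n) * (r2 - n))
      nlinarith
    linarith
  by_contra hcon
  push Not at hcon
  nlinarith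

instance : EuclideanDomain Eis where
  quotient := quo
  quotient_zero x := by ext <;> simp [quo, norm]
  remainder x y := x - y * quo x y
  quotient_mul_add_remainder_eq x y := by ring
  r := fun x y => x.norm.natAbs < y.norm.natAbs
  r_wellFounded := (measure (fun x : Eis => x.norm.natAbs)).wf
  remainder_lt x y hy := by
    have := norm_sub_quo_lt x hy
    have h1 := norm_nonneg (x - y * quo x y)
    omega
  mul_left_not_lt x y hy := by
    have h1 := norm_pos hy
    have h2 := norm_nonneg x
    rw [norm_mul, not_lt, Int.natAbs_mul]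
    have : 1 ≤ y.norm.natAbs := by omega
    exact Nat.le_mul_of_pos_right _ (by omega)

theorem isUnit_iff_norm {x : Eis} : IsUnit x ↔ x.norm = 1 := by
  constructor
  · intro h
    obtain ⟨y, hy⟩ := h.exists_right_inv
    have := congrArg norm hy
    rw [norm_mul, norm_one] at this
    exact Int.eq_one_or_neg_one_of_mul_eq_one this |>.resolve_right
      (fun h => by have := norm_nonneg x; omega)
  · intro h
    refine IsUnit.of_mul_eq_one (conj x) ?_
    rw [mul_conj, h]; simp

theorem unit_cases {x : Eis} (hx : IsUnit x) :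
    ∃ i : ℕ, i < 3 ∧ (x = w ^ i ∨ x = -w ^ i) := by
  rw [isUnit_iff_norm, norm_def] at hx
  have h1 : x.im ^ 2 ≤ 1 := by nlinarith [sq_nonneg (2 * x.re - x.im)]
  have h2 : x.re ^ 2 ≤ 1 := by nlinarith [sq_nonneg (2 * x.im - x.re)]
  have h3 : -1 ≤ x.im ∧ x.im ≤ 1 := abs_le.mp (by
    have := sq_le_one_iff_abs_le_one x.im |>.mp h1; exact this)
  have h4 : -1 ≤ x.re ∧ x.re ≤ 1 := abs_le.mp (by
    have := sq_le_one_iff_abs_le_one x.re |>.mp h2; exact this)
  obtain ⟨h3a, h3b⟩ := h3
  obtain ⟨h4a, h4b⟩ := h4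
  obtain ⟨a, b⟩ := x
  simp only at *
  interval_cases a <;> interval_cases b <;> simp at hx <;>
    first
    | exact ⟨0, by norm_num, by decide⟩
    | exact ⟨1, by norm_num, by decide⟩
    | exact ⟨2, by norm_num, by decide⟩

end Eis

end Pool.Agent.Lib_helper18

end
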