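import Mathlib

/-! Parts: Lib_helper18.Chars -/

section

/-!
# Multiplicative characters of `ZMod p` lifting power maps, and values of Jacobi sums modulo `p`
-/

namespace Pool.Agent.Lib_helper18

open Finset

variable {p : ℕ} [hp : Fact p.Prime]

/-- A multiplicative character lifting the `m`-th power map through a ring homomorphism. -/
theorem exists_mulChar {R : Type*} [CommRing R] (φ : R →+* ZMod p) (ζ : R) {n m : ℕ}
    (hζ : ζ ^ n = 1) (hprim : IsPrimitiveRoot (φ ζ) n) (hn : p - 1 = n * m) :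
    ∃ χ : MulChar (ZMod p) R, (∀ x : ZMod p, x ≠ 0 → φ (χ x) = x ^ m) ∧
      (∀ x : ZMod p, x ≠ 0 → ∃ i : ℕ, χ x = ζ ^ i) ∧ ∃ x : ZMod p, x ≠ 0 ∧ χ x = ζ := by
  obtain ⟨g, hg⟩ := IsCyclic.exists_generator (α := (ZMod p)ˣ)
  have hn0 : n ≠ 0 := by
    rintro rfl
    have := hp.out.two_le
    omega
  have : NeZero n := ⟨hn0⟩
  have hgn : ((g : ZMod p) ^ m) ^ n = 1 := by
    rw [← pow_mul, mul_comm, ← hn]
    exact ZMod.pow_card_sub_one_eq_one g.ne_zero
  obtain ⟨i, hi, hi2⟩ := hprim.eq_pow_of_pow_eq_one hgn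
  have hu : IsUnit ζ := IsUnit.of_pow_eq_one hζ hn0
  have hmem : (hu.unit ^ i : Rˣ) ∈ rootsOfUnity (Fintype.card (ZMod p)ˣ) R := by
    rw [mem_rootsOfUnity, ZMod.card_units_eq_totient, Nat.totient_prime hp.out, hn]
    ext
    push_cast
    rw [IsUnit.unit_spec, ← pow_mul, mul_comm i, mul_assoc, pow_mul, hζ, one_pow]
  refine ⟨MulChar.ofRootOfUnity hmem hg, ?_, ?_, ?_⟩
  · intro x hx
    have h1 : ∃ k' : ℕ, g ^ k' = Units.mk0 x hx := by
      have := (mem_powers_iff_mem_zpowers (x := g) (y := Units.mk0 x hx)).mpr (hg _)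
      exact this
    obtain ⟨k', hk'⟩ := h1
    have hx' : x = (g : ZMod p) ^ k' := by
      have := congrArg Units.val hk'
      simpa using this.symm
    rw [hx', map_pow, MulChar.ofRootOfUnity_spec, map_pow]
    push_cast
    rw [IsUnit.unit_spec, map_pow, hi2]
    rw [← pow_mul, ← pow_mul, mul_comm]
  · intro x hx
    obtain ⟨k', hk'⟩ : ∃ k' : ℕ, g ^ k' = Units.mk0 x hx :=
      (mem_powers_iff_mem_zpowers (x := g) (y := Units.mk0 x hx)).mpr (hg _)
    have hx' : x = (g : ZMod p) ^ k' := by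
      have := congrArg Units.val hk'
      simpa using this.symm
    refine ⟨i * k', ?_⟩
    rw [hx', map_pow, MulChar.ofRootOfUnity_spec]
    push_cast
    rw [IsUnit.unit_spec, ← pow_mul]
  · have hord : orderOf g = p - 1 := by
      rw [orderOf_eq_card_of_forall_mem_zpowers hg, Nat.card_eq_fintype_card,
        ZMod.card_units_eq_totient, Nat.totient_prime hp.out]
    have hgp : IsPrimitiveRoot g (p - 1) := by rw [← hord]; exact IsPrimitiveRoot.orderOf g
    have hgp' : IsPrimitiveRoot (g : ZMod p) (p - 1) := hgp.map_of_injective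
      (f := Units.coeHom (ZMod p)) Units.val_injective
    have hgm : IsPrimitiveRoot ((g : ZMod p) ^ m) n :=
      hgp'.pow (by have := hp.out.two_le; omega) (by rw [hn, mul_comm])
    obtain ⟨k, hk, hk2⟩ := hgm.eq_pow_of_pow_eq_one hprim.pow_eq_one
    refine ⟨(g : ZMod p) ^ k, pow_ne_zero _ g.ne_zero, ?_⟩
    rw [map_pow, MulChar.ofRootOfUnity_spec]
    push_cast
    rw [IsUnit.unit_spec, ← pow_mul]
    have h1 : (φ ζ) ^ (i * k) = (φ ζ) ^ 1 := by rw [pow_mul, hi2, hk2, pow_one]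
    have hfin : IsOfFinOrder (φ ζ) :=
      isOfFinOrder_iff_pow_eq_one.mpr ⟨n, Nat.pos_of_ne_zero hn0, hprim.pow_eq_one⟩
    rw [hfin.pow_eq_pow_iff_modEq, ← hprim.eq_orderOf] at h1
    have h2 : ζ ^ (i * k) = ζ ^ 1 := by
      have h3 : i * k % n = 1 % n := h1
      rw [← Nat.mod_add_div (i * k) n, pow_add, pow_mul, hζ, one_pow, mul_one, h3]
      conv_rhs => rw [← Nat.mod_add_div 1 n, pow_add, pow_mul, hζ, one_pow, mul_one]
    rw [h2, pow_one]

/-- Power sums over `ZMod p`. -/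
theorem sum_pow (i : ℕ) (hi : 0 < i) :
    ∑ x : ZMod p, x ^ i = if p - 1 ∣ i then -1 else 0 := by
  have h1 := FiniteField.sum_pow_units (K := ZMod p) i
  rw [ZMod.card] at h1
  rw [← h1]
  have : (∑ x : (ZMod p)ˣ, (x ^ i : ZMod p)) = ∑ x ∈ univ \ {(0 : ZMod p)}, x ^ i := by
    let φ : (ZMod p)ˣ ↪ ZMod p := ⟨fun x ↦ x, Units.val_injective⟩
    have hφ : univ.map φ = univ \ {(0 : ZMod p)} := by
      ext x
      simp only [φ, mem_map, mem_univ, Function.Embedding.coeFn_mk, true_and, mem_sdiff,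
        mem_singleton]
      constructor
      · rintro ⟨y, rfl⟩; exact y.ne_zero
      · intro hx; exact ⟨Units.mk0 x hx, rfl⟩
    rw [← hφ, Finset.sum_map]
    rfl
  rw [this, Finset.sum_sdiff_eq_sub (Finset.subset_univ _)]
  simp [hi.ne']

/-- The Jacobi-type power sum. -/
theorem sum_pow_mul_pow (k : ℕ) (hk : 0 < k) (hk2 : k < p - 1) :
    ∑ x : ZMod p, x ^ k * (1 - x) ^ k =
      if p - 1 ≤ 2 * k then -((-1) ^ (p - 1 - k) * (k.choose (p - 1 - k) : ZMod p)) else 0 := by
  have h1 : ∀ x : ZMod p, x ^ k * (1 - x) ^ k =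
      ∑ j ∈ range (k + 1), ((-1) ^ j * (k.choose j : ZMod p)) * x ^ (k + j) := by
    intro x
    have : (1 - x) ^ k = ∑ j ∈ range (k + 1), ((-1) ^ j * (k.choose j : ZMod p)) * x ^ j := by
      have h2 : (1 - x) = (-x) + 1 := by ring
      rw [h2, add_pow]
      refine Finset.sum_congr rfl fun j _ => ?_
      rw [neg_pow]; ring
    rw [this, Finset.mul_sum]
    refine Finset.sum_congr rfl fun j _ => ?_
    rw [pow_add]; ring
  simp_rw [h1]
  rw [Finset.sum_comm]
  have h2 : ∀ j ∈ range (k + 1), ∑ x : ZMod p, ((-1) ^ j * (k.choose j : ZMod p)) * x ^ (k + j) =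
      if j = p - 1 - k then -((-1) ^ j * (k.choose j : ZMod p)) else 0 := by
    intro j hj
    rw [Finset.mem_range] at hj
    rw [← Finset.mul_sum, sum_pow _ (by omega)]
    have : (p - 1 ∣ k + j) ↔ j = p - 1 - k := by
      constructor
      · rintro ⟨c, hc⟩
        have : c = 1 := by
          have h3 : c < 2 := by
            by_contra hcon
            push Not at hcon
            have : (p - 1) * 2 ≤ (p - 1) * c := Nat.mul_le_mul_left _ hcon
            omega
          have h4 : c ≠ 0 := by rintro rfl; omega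
          omega
        subst this
        omega
      · intro h; exact ⟨1, by omega⟩
    by_cases h : j = p - 1 - k
    · rw [if_pos h, if_pos (this.mpr h)]; ring
    · rw [if_neg h, if_neg (mt this.mp h)]; ring
  rw [Finset.sum_congr rfl h2, Finset.sum_ite_eq']
  by_cases h : p - 1 ≤ 2 * k
  · rw [if_pos h, if_pos (by rw [Finset.mem_range]; omega)]
  · rw [if_neg h, if_neg (by rw [Finset.mem_range]; omega)]

/-- Value of a Jacobi sum under a homomorphism to `ZMod p`. -/
theorem map_jacobiSum {R : Type*} [CommRing R] (φ : R →+* ZMod p) (χ : MulChar (ZMod p) R)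
    (k : ℕ) (hk : 0 < k) (h : ∀ x : ZMod p, x ≠ 0 → φ (χ x) = x ^ k) :
    φ (jacobiSum χ χ) = ∑ x : ZMod p, x ^ k * (1 - x) ^ k := by
  rw [jacobiSum, map_sum]
  refine Finset.sum_congr rfl fun x _ => ?_
  rw [map_mul]
  by_cases hx : x = 0
  · subst hx
    rw [χ.map_zero, map_zero, zero_pow hk.ne', zero_mul, zero_mul]
  · by_cases hx1 : 1 - x = 0
    · rw [hx1, χ.map_zero, map_zero, zero_pow hk.ne', mul_zero, mul_zero]
    · rw [h x hx, h _ hx1]

theorem map_jacobiSum_eq_zero {R : Type*} [CommRing R] (φ : R →+* ZMod p)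
    (χ : MulChar (ZMod p) R) (k : ℕ) (hk : 0 < k) (hk2 : 2 * k < p - 1)
    (h : ∀ x : ZMod p, x ≠ 0 → φ (χ x) = x ^ k) :
    φ (jacobiSum χ χ) = 0 := by
  rw [map_jacobiSum φ χ k hk h, sum_pow_mul_pow k hk (by omega), if_neg (by omega)]

theorem map_jacobiSum_eq_choose {R : Type*} [CommRing R] (φ : R →+* ZMod p)
    (χ : MulChar (ZMod p) R) (k : ℕ) (hk : k < p - 1) (hk2 : p - 1 ≤ 2 * k)
    (h : ∀ x : ZMod p, x ≠ 0 → φ (χ x) = x ^ k) :
    φ (jacobiSum χ χ) = -((-1) ^ (p - 1 - k) * (k.choose (p - 1 - k) : ZMod p)) := by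
  have hk0 : 0 < k := by
    have := hp.out.two_le
    omega
  rw [map_jacobiSum φ χ k hk0 h, sum_pow_mul_pow k hk0 hk, if_pos hk2]

/-- `J(χ,χ) J(χ⁻¹,χ⁻¹) = p` in a domain of characteristic zero. -/
theorem jacobiSum_mul_inv {R : Type*} [CommRing R] [IsDomain R] [CharZero R]
    {χ : MulChar (ZMod p) R} (hχ : χ ≠ 1) (hχ2 : χ * χ ≠ 1) :
    jacobiSum χ χ * jacobiSum χ⁻¹ χ⁻¹ = (p : R) := by
  let K := FractionRing R
  have hinj : Function.Injective (algebraMap R K) := IsFractionRing.injective R K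
  have hch : ringChar K ≠ ringChar (ZMod p) := by
    have : CharZero K := charZero_of_injective_algebraMap hinj
    rw [ringChar.eq_zero, ZMod.ringChar_zmod_n]
    exact hp.out.ne_zero.symm
  have h := jacobiSum_mul_jacobiSum_inv (F := ZMod p) (F' := K) hch
    (χ := χ.ringHomComp (algebraMap R K)) (φ := χ.ringHomComp (algebraMap R K))
    ((MulChar.ringHomComp_ne_one_iff hinj).mpr hχ)
    ((MulChar.ringHomComp_ne_one_iff hinj).mpr hχ)
    (by rw [← MulChar.ringHomComp_mul]; exact (MulChar.ringHomComp_ne_one_iff hinj).mpr hχ2)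
  rw [MulChar.ringHomComp_inv, jacobiSum_ringHomComp, jacobiSum_ringHomComp, ← map_mul,
    ZMod.card] at h
  apply hinj
  rw [h, map_natCast]

theorem gaussSum_frob_iter' {R : Type*} [CommRing R] [Fintype R] {R' : Type*} [CommRing R']
    (q : ℕ) [Fact q.Prime] [CharP R' q] (χ : MulChar R R') (ψ : AddChar R R') (n : ℕ) :
    gaussSum χ ψ ^ (q ^ n) = gaussSum (χ ^ (q ^ n)) (ψ ^ (q ^ n)) := by
  induction n with
  | zero => simp
  | succ n ih =>
    rw [pow_succ, pow_mul, ih, gaussSum_frob q, ← pow_mul, ← pow_mul]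

/-- The key identity: for a cubic character with values in a field of characteristic `q ≠ p`
and `N = q^n ≡ 1` modulo 3: `χ(N) * (p * J(χ,χ))^((N-1)/3) = 1`. -/
theorem cubic_gauss {F' : Type*} [Field F'] (q : ℕ) [Fact q.Prime] [CharP F' q]
    (hqp : q ≠ p) (χ : MulChar (ZMod p) F') (hχ : orderOf χ = 3) (n : ℕ)
    (hN : 3 * ((q ^ n - 1) / 3) + 1 = q ^ n) :
    χ ((q ^ n : ℕ) : ZMod p) * ((p : F') * jacobiSum χ χ) ^ ((q ^ n - 1) / 3) = 1 := by
  have hrc : ringChar F' ≠ ringChar (ZMod p) := by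
    rw [ringChar.eq F' q, ZMod.ringChar_zmod_n]
    exact hqp
  let ψ := AddChar.FiniteField.primitiveChar (ZMod p) F' hrc
  let FF := CyclotomicField ψ.n F'
  have hinj : Function.Injective (algebraMap F' FF) := (algebraMap F' FF).injective
  have : CharP FF q := charP_of_injective_algebraMap hinj q
  set χ' := χ.ringHomComp (algebraMap F' FF) with hχ'
  have hχ3 : χ ^ 3 = 1 := by rw [← hχ]; exact pow_orderOf_eq_one χ
  have hord : orderOf χ' = 3 := by
    rw [← hχ]
    exact orderOf_injective (MulChar.ringHomCompHom (algebraMap F' FF))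
      (MulChar.injective_ringHomComp hinj) χ
  have hχ'3 : χ' ^ 3 = 1 := by rw [← hord]; exact pow_orderOf_eq_one χ'
  have hχ'1 : χ' ≠ 1 := by
    intro h
    rw [h, orderOf_one] at hord
    norm_num at hord
  set g := gaussSum χ' ψ.char with hg
  have hneg : χ' (-1) = 1 := by
    have h1 : (-1 : ZMod p) ^ 3 = -1 := by norm_num
    have h2 : χ' ((-1) ^ 3) = (χ' ^ 3) (-1) := by
      rw [map_pow, MulChar.pow_apply' _ (by norm_num)]
    rw [h1, hχ'3] at h2
    rw [h2]
    exact MulChar.one_apply (by simp)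
  have hg3 : g ^ 3 = (p : FF) * jacobiSum χ' χ' := by
    have h := gaussSum_pow_eq_prod_jacobiSum (χ := χ') (ψ := ψ.char) (by rw [hord]; norm_num)
      ψ.prim
    rw [hord, hneg, ZMod.card] at h
    simpa using h
  have hcard : (Fintype.card (ZMod p) : FF) ≠ 0 := by
    rw [ZMod.card]
    intro h
    have := (CharP.cast_eq_zero_iff FF q p).mp h
    rw [Nat.prime_dvd_prime_iff_eq (Fact.out : q.Prime) hp.out] at this
    exact hqp this
  have hg0 : g ≠ 0 := gaussSum_ne_zero_of_nontrivial hcard hχ'1 ψ.prim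
  set m := (q ^ n - 1) / 3 with hm
  have hfrob := gaussSum_frob_iter' q χ' ψ.char n
  have hpow : χ' ^ (q ^ n) = χ' := by
    rw [← hN, pow_succ, pow_mul, hχ'3, one_pow, one_mul]
  have hunit : IsUnit ((q ^ n : ℕ) : ZMod p) := by
    rw [isUnit_iff_ne_zero]
    intro h
    rw [ZMod.natCast_eq_zero_iff] at h
    have := hp.out.dvd_of_dvd_pow h
    rw [Nat.prime_dvd_prime_iff_eq hp.out (Fact.out : q.Prime)] at this
    exact hqp this.symm
  have hshift := gaussSum_mulShift χ' ψ.char hunit.unit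
  rw [hunit.unit_spec] at hshift
  rw [hpow, AddChar.pow_mulShift] at hfrob
  rw [← hfrob, ← hg] at hshift
  have h1 : χ' ((q ^ n : ℕ) : ZMod p) * (g ^ 3) ^ m = 1 := by
    have h2 : g ^ (q ^ n) = (g ^ 3) ^ m * g := by
      conv_lhs => rw [← hN]
      rw [pow_succ, pow_mul]
    rw [h2] at hshift
    apply mul_right_cancel₀ hg0
    rw [one_mul, mul_assoc, hshift]
  rw [hg3] at h1
  apply hinj
  have e1 : algebraMap F' FF (χ ((q ^ n : ℕ) : ZMod p)) = χ' ((q ^ n : ℕ) : ZMod p) := rfl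
  have e2 : algebraMap F' FF (p : F') = (p : FF) := map_natCast _ _
  rw [map_mul, map_pow, map_mul (algebraMap F' FF) (p : F') (jacobiSum χ χ), e1, e2,
    ← jacobiSum_ringHomComp, map_one]
  exact h1

end Pool.Agent.Lib_helper18

end
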