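import Mathlib
import Pool.Agent.PTWX.C02
import Pool.Agent.PTWX.C03

/-! Parts: Lib_helper18.Sym, Lib_helper18.GaussG, Lib_helper18.Recip -/

section

/-!
# Primes of the Eisenstein integers and the cubic residue symbol
-/

namespace Pool.Agent.Lib_helper18

namespace Eis

/-- the prime above 3 -/
def lam : Eis := ⟨1, -1⟩

@[simp] theorem lam_re : lam.re = 1 := rfl
@[simp] theorem lam_im : lam.im = -1 := rfl
theorem lam_eq : lam = 1 - w := by ext <;> simp
@[simp] theorem norm_lam : lam.norm = 3 := by simp [norm]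

theorem intCast_dvd_iff {n : ℤ} {x : Eis} : (n : Eis) ∣ x ↔ n ∣ x.re ∧ n ∣ x.im := by
  constructor
  · rintro ⟨y, rfl⟩
    simp
  · rintro ⟨⟨a, ha⟩, ⟨b, hb⟩⟩
    exact ⟨⟨a, b⟩, by ext <;> simp [ha, hb]⟩

theorem natCast_dvd_iff {n : ℕ} {x : Eis} : (n : Eis) ∣ x ↔ (n : ℤ) ∣ x.re ∧ (n : ℤ) ∣ x.im := by
  have := intCast_dvd_iff (n := (n : ℤ)) (x := x)
  simpa using this

theorem intCast_dvd_intCast {m n : ℤ} : (m : Eis) ∣ (n : Eis) ↔ m ∣ n := by
  rw [intCast_dvd_iff]; simp

theorem three_eq_cast : (3 : Eis) = ((3 : ℤ) : Eis) := by ext <;> simp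

theorem three_dvd_iff {x : Eis} : (3 : Eis) ∣ x ↔ (3 : ℤ) ∣ x.re ∧ (3 : ℤ) ∣ x.im := by
  rw [three_eq_cast, intCast_dvd_iff]

theorem lam_dvd_iff {x : Eis} : lam ∣ x ↔ (3 : ℤ) ∣ x.re + x.im := by
  constructor
  · rintro ⟨y, rfl⟩
    refine ⟨y.im, ?_⟩
    simp; ring
  · rintro ⟨k, hk⟩
    refine ⟨⟨x.re - k, k⟩, ?_⟩
    ext
    · simp
    · simp; linarith

theorem norm_emod_three (x : Eis) : x.norm % 3 = 0 ∨ x.norm % 3 = 1 := by
  have h : x.norm = (x.re + x.im) ^ 2 - 3 * (x.re * x.im) := by rw [norm_def]; ring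
  rw [h]
  generalize x.re + x.im = s
  generalize x.re * x.im = t
  have : s % 3 = 0 ∨ s % 3 = 1 ∨ s % 3 = 2 := by omega
  rcases this with h | h | h <;> simp [pow_two, Int.sub_emod, Int.mul_emod, h]

theorem norm_emod_three_of_not_lam_dvd {x : Eis} (hx : ¬ lam ∣ x) : x.norm % 3 = 1 := by
  rw [lam_dvd_iff] at hx
  have h : x.norm = (x.re + x.im) ^ 2 - 3 * (x.re * x.im) := by rw [norm_def]; ring
  rw [h]
  revert hx
  generalize x.re + x.im = s
  generalize x.re * x.im = t
  intro hx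
  have : s % 3 = 1 ∨ s % 3 = 2 := by omega
  rcases this with h | h <;> simp [pow_two, Int.sub_emod, Int.mul_emod, h]

theorem lam_dvd_iff_norm {x : Eis} : lam ∣ x ↔ (3 : ℤ) ∣ x.norm := by
  constructor
  · rintro ⟨y, rfl⟩
    simp
  · intro h
    by_contra hx
    have := norm_emod_three_of_not_lam_dvd hx
    omega

/-- if the norm is a rational prime then the element is prime -/
theorem prime_of_norm_prime {x : Eis} (h : Prime x.norm) : Prime x := by
  rw [← irreducible_iff_prime]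
  have h1 : Irreducible x.norm := h.irreducible
  have hnu : ∀ y : Eis, IsUnit y ↔ IsUnit y.norm := by
    intro y
    rw [isUnit_iff_norm, Int.isUnit_iff]
    have := norm_nonneg y
    constructor
    · intro h; left; exact h
    · rintro (h | h)
      · exact h
      · omega
  refine ⟨fun hu => h1.not_isUnit ((hnu x).mp hu), ?_⟩
  intro a b hab
  have := h1.isUnit_or_isUnit (a := a.norm) (b := b.norm) (by rw [hab, norm_mul])
  rwa [← hnu, ← hnu] at this

theorem prime_lam : Prime lam := prime_of_norm_prime (by rw [norm_lam]; exact Int.prime_three)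

theorem three_eq : (3 : Eis) = -w ^ 2 * lam ^ 2 := by decide

theorem lam_dvd_three : lam ∣ 3 := ⟨-w ^ 2 * lam, by rw [three_eq]; ring⟩

theorem dvd_three_iff {l : Eis} (hl : Prime l) : l ∣ 3 ↔ Associated l lam := by
  constructor
  · intro h
    rw [three_eq] at h
    have h1 : l ∣ lam ^ 2 := by
      have h2 : l ∣ (-w ^ 2 * lam ^ 2) * (-w) := dvd_mul_of_dvd_left h _
      have h3 : (-w ^ 2 * lam ^ 2) * (-w) = lam ^ 2 := by
        have := w_cube; linear_combination lam ^ 2 * this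
      rwa [h3] at h2
    exact (hl.associated_of_dvd prime_lam (hl.dvd_of_dvd_pow h1))
  · intro h
    exact h.dvd.trans lam_dvd_three

/-- Every prime divides a rational prime. -/
theorem exists_rational_prime {l : Eis} (hl : Prime l) :
    ∃ q : ℕ, q.Prime ∧ l ∣ (q : Eis) ∧ (l.norm = q ∨ l.norm = q ^ 2) := by
  have h0 : l ≠ 0 := hl.ne_zero
  have hn := norm_pos h0
  have hn1 : l.norm ≠ 1 := fun h => hl.not_isUnit (isUnit_iff_norm.mpr h)
  -- l divides its norm
  have h1 : l ∣ ((l.norm.natAbs : ℕ) : Eis) := by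
    have : ((l.norm.natAbs : ℕ) : Eis) = ((l.norm : ℤ) : Eis) := by
      rw [← Int.cast_natCast, Int.natAbs_of_nonneg hn.le]
    rw [this, ← mul_conj]
    exact dvd_mul_right _ _
  -- find a prime factor
  have key : ∀ n : ℕ, n ≠ 0 → l ∣ (n : Eis) → ∃ q : ℕ, q.Prime ∧ l ∣ (q : Eis) := by
    intro n
    induction n using Nat.recOnMul with
    | zero => intro h; exact absurd rfl h
    | one => intro _ h; rw [Nat.cast_one] at h; exact absurd (isUnit_of_dvd_one h) hl.not_isUnit
    | prime p hp => intro _ h; exact ⟨p, hp, h⟩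
    | mul a b iha ihb =>
      intro hab h
      rw [Nat.cast_mul] at h
      rcases hl.dvd_or_dvd h with h | h
      · exact iha (by rintro rfl; simp at hab) h
      · exact ihb (by rintro rfl; simp at hab) h
  obtain ⟨q, hq, hlq⟩ := key l.norm.natAbs (by omega) h1
  refine ⟨q, hq, hlq, ?_⟩
  obtain ⟨m, hm⟩ := hlq
  have h2 : (q : ℤ) ^ 2 = l.norm * m.norm := by rw [← norm_mul, ← hm, norm_natCast]
  have h3 : l.norm.natAbs ∣ q ^ 2 := by
    have : l.norm ∣ (q : ℤ) ^ 2 := ⟨_, h2⟩
    have := Int.natAbs_dvd_natAbs.mpr this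
    simpa [Int.natAbs_pow] using this
  rw [Nat.dvd_prime_pow hq] at h3
  obtain ⟨k, hk, hk2⟩ := h3
  interval_cases k
  · simp at hk2; omega
  · left; simp at hk2; omega
  · right
    have : (l.norm.natAbs : ℤ) = ((q ^ 2 : ℕ) : ℤ) := by exact_mod_cast hk2
    rw [Int.natCast_natAbs, abs_of_pos hn] at this
    rw [this]; push_cast; ring

/-- size of the residue field -/
def N (l : Eis) : ℕ := l.norm.natAbs

theorem N_cast (l : Eis) : (N l : ℤ) = l.norm := by
  rw [N, Int.natCast_natAbs, abs_of_nonneg (norm_nonneg l)]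

theorem N_mul (l m : Eis) : N (l * m) = N l * N m := by
  simp [N, Int.natAbs_mul]

@[simp] theorem N_conj (l : Eis) : N (conj l) = N l := by simp [N]

theorem N_unit {u : Eis} (hu : IsUnit u) : N u = 1 := by
  rw [N, isUnit_iff_norm.mp hu]; rfl

theorem N_mod_three {x : Eis} (hx : ¬ lam ∣ x) : N x % 3 = 1 := by
  have := norm_emod_three_of_not_lam_dvd hx
  have h2 := N_cast x
  omega

/-- Frobenius congruence. -/
theorem frob {q : ℕ} (hq : q.Prime) (x : Eis) :
    (q : Eis) ∣ x ^ q - ((x.re : Eis) + (x.im : Eis) * w ^ q) := by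
  have := Fact.mk hq
  obtain ⟨r, hr⟩ := exists_add_pow_prime_eq hq (x.re : Eis) ((x.im : Eis) * w)
  have h1 : ∀ a : ℤ, ((q : ℤ) : Eis) ∣ (a : Eis) ^ q - a := by
    intro a
    have : (q : ℤ) ∣ a ^ q - a := by
      rw [← ZMod.intCast_zmod_eq_zero_iff_dvd]
      push_cast
      rw [ZMod.pow_card]; ring
    have h2 := intCast_dvd_intCast.mpr this
    push_cast at h2 ⊢
    exact h2
  have h2 := h1 x.re
  have h3 := h1 x.im
  rw [Int.cast_natCast] at h2 h3
  have hx : x ^ q = ((x.re : Eis) + (x.im : Eis) * w) ^ q := by rw [← eq_re_add_im]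
  rw [hx, hr]
  have e : (x.re : Eis) ^ q + ((x.im : Eis) * w) ^ q + q * (x.re : Eis) * ((x.im : Eis) * w) * r -
      ((x.re : Eis) + (x.im : Eis) * w ^ q) =
      ((x.re : Eis) ^ q - x.re) + ((x.im : Eis) ^ q - x.im) * w ^ q +
      q * ((x.re : Eis) * ((x.im : Eis) * w) * r) := by
    rw [mul_pow]; ring
  rw [e]
  exact dvd_add (dvd_add h2 (dvd_mul_of_dvd_left h3 _)) (dvd_mul_right _ _)

theorem w_pow_mod (n : ℕ) : w ^ n = w ^ (n % 3) := by
  conv_lhs => rw [← Nat.mod_add_div n 3]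
  rw [pow_add, pow_mul, w_cube, one_pow, mul_one]

theorem frob_one {q : ℕ} (hq : q.Prime) (h : q % 3 = 1) (x : Eis) :
    (q : Eis) ∣ x ^ q - x := by
  have := frob hq x
  rw [w_pow_mod q, h, pow_one, ← eq_re_add_im] at this
  exact this

theorem frob_two {q : ℕ} (hq : q.Prime) (h : q % 3 = 2) (x : Eis) :
    (q : Eis) ∣ x ^ q - conj x := by
  have := frob hq x
  rw [w_pow_mod q, h] at this
  have e : conj x = (x.re : Eis) + (x.im : Eis) * w ^ 2 := by
    conv_lhs => rw [eq_re_add_im x]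
    rw [map_add, map_mul, conj_w, conj_intCast, conj_intCast]
  rw [e]
  exact this

theorem dvd_pow_sub {l x : Eis} (hl : Prime l) (h3 : ¬ l ∣ 3) : l ∣ x ^ (N l) - x := by
  obtain ⟨q, hq, hlq, hn⟩ := exists_rational_prime hl
  have hq3 : q ≠ 3 := by
    rintro rfl
    exact h3 (by simpa using hlq)
  have hqm : q % 3 = 1 ∨ q % 3 = 2 := by
    have : q % 3 ≠ 0 := by
      intro h
      have : 3 ∣ q := Nat.dvd_of_mod_eq_zero h
      rw [Nat.prime_dvd_prime_iff_eq Nat.prime_three hq] at this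
      omega
    omega
  have hNN := N_cast l
  rcases hqm with hm | hm
  · have h1 := hlq.trans (frob_one hq hm x)
    rcases hn with hn | hn
    · have : N l = q := by
        have : (N l : ℤ) = q := by rw [hNN, hn]
        exact_mod_cast this
      rw [this]; exact h1
    · have : N l = q * q := by
        have : (N l : ℤ) = q * q := by rw [hNN, hn]; ring
        exact_mod_cast this
      rw [this, pow_mul]
      have h2 : l ∣ (x ^ q) ^ q - x ^ q := hlq.trans (frob_one hq hm (x ^ q))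
      have := dvd_add h2 h1
      simpa using this
  · -- q = 2 mod 3 : then norm is q^2
    have hn' : l.norm = q ^ 2 := by
      rcases hn with hn | hn
      · exfalso
        have := norm_emod_three l
        rw [hn] at this
        omega
      · exact hn
    have : N l = q * q := by
      have : (N l : ℤ) = q * q := by rw [hNN, hn']; ring
      exact_mod_cast this
    rw [this, pow_mul]
    have h1 : l ∣ x ^ q - conj x := hlq.trans (frob_two hq hm x)
    have h2 : l ∣ (conj x) ^ q - x := by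
      have := hlq.trans (frob_two hq hm (conj x))
      rwa [conj_conj] at this
    have h4 : l ∣ (x ^ q) ^ q - (conj x) ^ q := h1.trans (sub_dvd_pow_sub_pow _ _ _)
    have := dvd_add h4 h2
    simpa using this

theorem not_lam_dvd_of_prime {l : Eis} (hl : Prime l) (h3 : ¬ l ∣ 3) : ¬ lam ∣ l := by
  intro h
  exact h3 ((prime_lam.associated_of_dvd hl h).symm.dvd.trans lam_dvd_three)

theorem three_mul_div {l : Eis} (hl : Prime l) (h3 : ¬ l ∣ 3) : 3 * ((N l - 1) / 3) + 1 = N l := by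
  have := N_mod_three (not_lam_dvd_of_prime hl h3)
  omega

theorem dvd_pow_sub_one {l x : Eis} (hl : Prime l) (h3 : ¬ l ∣ 3) (hx : ¬ l ∣ x) :
    l ∣ (x ^ ((N l - 1) / 3)) ^ 3 - 1 := by
  have h := dvd_pow_sub (x := x) hl h3
  have e : x ^ (N l) - x = x * ((x ^ ((N l - 1) / 3)) ^ 3 - 1) := by
    conv_lhs => rw [← three_mul_div hl h3]
    rw [pow_add, mul_comm 3, pow_mul]; ring
  rw [e] at h
  exact (hl.dvd_or_dvd h).resolve_left hx

/-- the cubic residue symbol, as an exponent of `w` -/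
noncomputable def sym (l x : Eis) : ZMod 3 :=
  open Classical in
  if l ∣ x ^ ((N l - 1) / 3) - 1 then 0 else if l ∣ x ^ ((N l - 1) / 3) - w then 1 else 2

theorem w_pow_sub_dvd {l : Eis} (h3 : ¬ l ∣ 3) {m n : ℕ} (h : l ∣ w ^ m - w ^ n) :
    (m : ZMod 3) = n := by
  rw [w_pow_mod m, w_pow_mod n] at h
  rw [ZMod.natCast_eq_natCast_iff']
  have hm : m % 3 < 3 := Nat.mod_lt _ (by norm_num)
  have hn : n % 3 < 3 := Nat.mod_lt _ (by norm_num)
  generalize m % 3 = a at *
  generalize n % 3 = b at *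
  by_contra hab
  apply h3
  refine h.trans ?_
  interval_cases a <;> interval_cases b <;> simp at hab
  · exact ⟨1 - w ^ 2, by decide⟩
  · exact ⟨1 - w, by decide⟩
  · exact ⟨w ^ 2 - 1, by decide⟩
  · exact ⟨w ^ 2 * (1 - w ^ 2), by decide⟩
  · exact ⟨w - 1, by decide⟩
  · exact ⟨w ^ 2 * (w ^ 2 - 1), by decide⟩

theorem sym_spec {l x : Eis} (hl : Prime l) (h3 : ¬ l ∣ 3) (hx : ¬ l ∣ x) :
    l ∣ x ^ ((N l - 1) / 3) - w ^ (sym l x).val := by
  have h := dvd_pow_sub_one hl h3 hx
  rw [sym]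
  split_ifs with h1 h2
  · simpa using h1
  · have : (1 : ZMod 3).val = 1 := rfl
    rw [this, pow_one]; exact h2
  · have e : (x ^ ((N l - 1) / 3)) ^ 3 - 1 =
      (x ^ ((N l - 1) / 3) - 1) * ((x ^ ((N l - 1) / 3) - w) * (x ^ ((N l - 1) / 3) - w ^ 2)) := by
      generalize x ^ ((N l - 1) / 3) = y
      have := w_rel
      have h3 := w_cube
      linear_combination (-y + y ^ 2) * this + (1 - y) * h3
    rw [e] at h
    have := ((hl.dvd_or_dvd h).resolve_left h1)
    have := (hl.dvd_or_dvd this).resolve_left h2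
    have hv : (2 : ZMod 3).val = 2 := rfl
    rw [hv]; exact this

theorem sym_eq_of_dvd {l x : Eis} (hl : Prime l) (h3 : ¬ l ∣ 3) (hx : ¬ l ∣ x) {n : ℕ}
    (h : l ∣ x ^ ((N l - 1) / 3) - w ^ n) : sym l x = n := by
  have h1 := sym_spec hl h3 hx
  have h2 : l ∣ w ^ (sym l x).val - w ^ n := by
    have := dvd_sub h h1
    have e : x ^ ((N l - 1) / 3) - w ^ n - (x ^ ((N l - 1) / 3) - w ^ (sym l x).val) =
      w ^ (sym l x).val - w ^ n := by ring
    rwa [e] at this
  have := w_pow_sub_dvd h3 h2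
  rwa [ZMod.natCast_val, ZMod.cast_id', id] at this

theorem sym_mul {l x y : Eis} (hl : Prime l) (h3 : ¬ l ∣ 3) (hx : ¬ l ∣ x) (hy : ¬ l ∣ y) :
    sym l (x * y) = sym l x + sym l y := by
  have h1 := sym_spec hl h3 hx
  have h2 := sym_spec hl h3 hy
  have hxy : ¬ l ∣ x * y := fun h => (hl.dvd_or_dvd h).elim hx hy
  have h4 : l ∣ (x * y) ^ ((N l - 1) / 3) - w ^ ((sym l x).val + (sym l y).val) := by
    rw [mul_pow, pow_add]
    generalize x ^ ((N l - 1) / 3) = X at *
    generalize y ^ ((N l - 1) / 3) = Y at *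
    have e : X * Y - w ^ (sym l x).val * w ^ (sym l y).val =
      (X - w ^ (sym l x).val) * Y + w ^ (sym l x).val * (Y - w ^ (sym l y).val) := by ring
    rw [e]
    exact dvd_add (dvd_mul_of_dvd_left h1 _) (dvd_mul_of_dvd_right h2 _)
  rw [sym_eq_of_dvd hl h3 hxy h4]
  push_cast
  simp [ZMod.natCast_val]

theorem sym_one {l : Eis} (hl : Prime l) (h3 : ¬ l ∣ 3) : sym l 1 = 0 := by
  have : ¬ l ∣ 1 := fun h => hl.not_isUnit (isUnit_of_dvd_one h)
  simpa using sym_eq_of_dvd (n := 0) hl h3 this (by simp)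

theorem sym_pow {l x : Eis} (hl : Prime l) (h3 : ¬ l ∣ 3) (hx : ¬ l ∣ x) (n : ℕ) :
    sym l (x ^ n) = n * sym l x := by
  induction n with
  | zero => simp [sym_one hl h3]
  | succ n ih =>
    have : ¬ l ∣ x ^ n := fun h => hx (hl.dvd_of_dvd_pow h)
    rw [pow_succ, sym_mul hl h3 this hx, ih]; push_cast; ring

theorem sym_cube {l x : Eis} (hl : Prime l) (h3 : ¬ l ∣ 3) (hx : ¬ l ∣ x) :
    sym l (x ^ 3) = 0 := by
  rw [sym_pow hl h3 hx]
  have : ((3 : ℕ) : ZMod 3) = 0 := by decide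
  rw [this, zero_mul]

theorem sym_congr {l x y : Eis} (h : l ∣ x - y) : sym l x = sym l y := by
  have key : ∀ z : Eis, l ∣ x ^ ((N l - 1) / 3) - z ↔ l ∣ y ^ ((N l - 1) / 3) - z := by
    intro z
    have h1 : l ∣ x ^ ((N l - 1) / 3) - y ^ ((N l - 1) / 3) := h.trans (sub_dvd_pow_sub_pow _ _ _)
    constructor
    · intro h2
      have := dvd_sub h2 h1
      simpa using this
    · intro h2
      have := dvd_add h2 h1
      simpa using this
  by_cases h1 : l ∣ x ^ ((N l - 1) / 3) - 1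
  · simp [sym, h1, (key 1).mp h1]
  · by_cases h2 : l ∣ x ^ ((N l - 1) / 3) - w
    · simp [sym, h1, mt (key 1).mpr h1, h2, (key w).mp h2]
    · simp [sym, h1, mt (key 1).mpr h1, h2, mt (key w).mpr h2]

theorem not_dvd_of_isUnit {l u : Eis} (hl : Prime l) (hu : IsUnit u) : ¬ l ∣ u :=
  fun h => hl.not_isUnit (isUnit_of_dvd_unit h hu)

theorem isUnit_w : IsUnit w := isUnit_iff_norm.mpr norm_w

theorem sym_neg_one {l : Eis} (hl : Prime l) (h3 : ¬ l ∣ 3) : sym l (-1) = 0 := by
  have h1 : ¬ l ∣ (-1 : Eis) := not_dvd_of_isUnit hl (by simp)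
  have := sym_cube hl h3 h1
  have e : (-1 : Eis) ^ 3 = -1 := by norm_num
  rwa [e] at this

theorem sym_neg {l x : Eis} (hl : Prime l) (h3 : ¬ l ∣ 3) (hx : ¬ l ∣ x) :
    sym l (-x) = sym l x := by
  have h1 : ¬ l ∣ (-1 : Eis) := not_dvd_of_isUnit hl (by simp)
  have e : -x = (-1) * x := by ring
  rw [e, sym_mul hl h3 h1 hx, sym_neg_one hl h3, zero_add]

theorem sym_w {l : Eis} (hl : Prime l) (h3 : ¬ l ∣ 3) : sym l w = ((N l - 1) / 3 : ℕ) :=
  sym_eq_of_dvd hl h3 (not_dvd_of_isUnit hl isUnit_w) (by simp)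

theorem sym_conj {l x : Eis} (hl : Prime l) (h3 : ¬ l ∣ 3) (hx : ¬ l ∣ x) :
    sym (conj l) (conj x) = - sym l x := by
  have h1 := sym_spec hl h3 hx
  have h2 := conj_dvd h1
  have hl' := prime_conj hl
  have h3' : ¬ conj l ∣ 3 := fun h => h3 (by
    have := conj_dvd h
    rw [conj_conj] at this
    have e : conj 3 = 3 := conj_natCast 3
    rwa [e] at this)
  have hx' : ¬ conj l ∣ conj x := fun h => hx (conj_dvd_iff.mp h)
  rw [map_sub, map_pow, map_pow, conj_w, ← pow_mul, ← N_conj l] at h2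
  rw [sym_eq_of_dvd hl' h3' hx' h2]
  push_cast
  rw [ZMod.natCast_val, ZMod.cast_id', id]
  have : (2 : ZMod 3) = -1 := by decide
  rw [this]; ring

theorem sym_associated {l m x : Eis} (h : Associated l m) : sym l x = sym m x := by
  have h1 : N l = N m := by
    obtain ⟨u, rfl⟩ := h
    rw [N_mul, N_unit u.isUnit, mul_one]
  have key : ∀ z : Eis, l ∣ z ↔ m ∣ z := fun z => h.dvd_iff_dvd_left
  by_cases h2 : m ∣ x ^ ((N m - 1) / 3) - 1
  · simp [sym, h1, key, h2]
  · by_cases h3 : m ∣ x ^ ((N m - 1) / 3) - w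
    · simp [sym, h1, key, h2, h3]
    · simp [sym, h1, key, h2, h3]

/-- compatibility with a ring homomorphism to a field with kernel generated by `l` -/
theorem map_pow_eq {F : Type*} [Field F] {l x : Eis} (hl : Prime l) (h3 : ¬ l ∣ 3)
    (hx : ¬ l ∣ x) (φ : Eis →+* F) (hφ : φ l = 0) :
    (φ x) ^ ((N l - 1) / 3) = (φ w) ^ (sym l x).val := by
  obtain ⟨c, hc⟩ := sym_spec hl h3 hx
  have := congrArg φ hc
  rw [map_mul, hφ, zero_mul, map_sub, map_pow, map_pow, sub_eq_zero] at this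
  exact this

end Eis

end Pool.Agent.Lib_helper18

end

section

/-!
# The basic relation between cubic residue symbols coming from Gauss sums
-/

namespace Pool.Agent.Lib_helper18

namespace Eis

/-- ring homomorphism out of the Eisenstein integers -/
def lift {R : Type*} [CommRing R] (t : R) (ht : t ^ 2 + t + 1 = 0) : Eis →+* R where
  toFun x := (x.re : R) + (x.im : R) * t
  map_one' := by simp
  map_mul' x y := by
    simp only [mul_re, mul_im]; push_cast
    linear_combination (-(x.im : R) * y.im) * ht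
  map_zero' := by simp
  map_add' x y := by simp only [add_re, add_im]; push_cast; ring

theorem lift_apply {R : Type*} [CommRing R] (t : R) (ht : t ^ 2 + t + 1 = 0) (x : Eis) :
    lift t ht x = (x.re : R) + (x.im : R) * t := rfl

theorem hom_apply {R : Type*} [CommRing R] (φ : Eis →+* R) (x : Eis) :
    φ x = (x.re : R) + (x.im : R) * φ w := by
  conv_lhs => rw [eq_re_add_im x]
  rw [map_add, map_mul, map_intCast, map_intCast]

theorem hom_w {R : Type*} [CommRing R] (φ : Eis →+* R) : (φ w) ^ 2 + φ w + 1 = 0 := by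
  rw [← map_pow, ← map_add, ← map_one φ, ← map_add, w_rel, map_zero]

theorem hom_three {R : Type*} [CommRing R] (φ : Eis →+* R) : φ 3 = 3 := by
  rw [three_eq_cast, map_intCast]; norm_num

theorem dvd_norm_self (x : Eis) : x ∣ (x.norm : Eis) := ⟨conj x, (mul_conj x).symm⟩

section split

variable {p : ℕ} [hp : Fact p.Prime] {π : Eis}

theorem prime_of_norm_eq (hπ : π.norm = p) : Prime π :=
  prime_of_norm_prime (by rw [hπ]; exact Nat.prime_iff_prime_int.mp hp.out)

omit hp in
theorem dvd_p (hπ : π.norm = p) : π ∣ (p : Eis) := by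
  have := dvd_norm_self π
  rw [hπ] at this
  exact_mod_cast this

omit hp in
theorem mul_conj_p (hπ : π.norm = p) : π * conj π = (p : Eis) := by
  rw [mul_conj, hπ]; simp

/-- the residue map at a split prime -/
theorem exists_hom (hπ : π.norm = p) : ∃ φ : Eis →+* ZMod p, ∀ x, φ x = 0 ↔ π ∣ x := by
  have hpr := prime_of_norm_eq hπ
  -- p does not divide im
  have hb : (π.im : ZMod p) ≠ 0 := by
    intro h
    rw [ZMod.intCast_zmod_eq_zero_iff_dvd] at h
    obtain ⟨c, hc⟩ := h
    have h1 : (p : ℤ) ∣ π.re ^ 2 := by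
      have : π.re ^ 2 = p - p * (p * c ^ 2) + π.re * (p * c) := by
        have := hπ
        rw [norm_def, hc] at this
        linear_combination this
      rw [this]
      exact dvd_add (dvd_sub dvd_rfl (dvd_mul_right _ _)) (Dvd.intro (π.re * c) (by ring))
    have h2 := (Nat.prime_iff_prime_int.mp hp.out).dvd_of_dvd_pow h1
    obtain ⟨d, hd⟩ := h2
    have h3 : (p : ℤ) * p ∣ p := by
      refine ⟨d ^ 2 - d * c + c ^ 2, ?_⟩
      have := hπ
      rw [norm_def, hc, hd] at this
      linear_combination -this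
    have h4 : (p : ℤ) ∣ 1 := by
      rcases h3 with ⟨e, he⟩
      refine ⟨e, ?_⟩
      have hp0 : (p : ℤ) ≠ 0 := by exact_mod_cast hp.out.ne_zero
      apply mul_left_cancel₀ hp0
      linear_combination he
    exact (Nat.prime_iff_prime_int.mp hp.out).not_dvd_one h4
  set t : ZMod p := -(π.re : ZMod p) * (π.im : ZMod p)⁻¹ with ht
  have hrel : (π.re : ZMod p) + (π.im : ZMod p) * t = 0 := by
    rw [ht]; field_simp; ring
  have hn : (π.re : ZMod p) ^ 2 - π.re * π.im + (π.im : ZMod p) ^ 2 = 0 := by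
    have := congrArg (Int.cast : ℤ → ZMod p) hπ
    rw [norm_def] at this
    push_cast at this
    rw [this]; simp
  have ht2 : t ^ 2 + t + 1 = 0 := by
    have h1 : (π.im : ZMod p) ^ 2 * (t ^ 2 + t + 1) = 0 := by
      have : (π.im : ZMod p) * t = -π.re := by linear_combination hrel
      linear_combination hn + (π.im * t - π.re + π.im) * hrel
    exact (mul_eq_zero.mp h1).resolve_left (pow_ne_zero _ hb)
  refine ⟨lift t ht2, fun x => ?_⟩
  constructor
  · intro hx
    by_contra hd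
    have hcop : IsCoprime π x := (hpr.irreducible.coprime_iff_not_dvd).mpr hd
    obtain ⟨u, v, huv⟩ := hcop
    have := congrArg (lift t ht2) huv
    rw [map_add, map_mul, map_mul, hx, map_one, mul_zero, add_zero] at this
    have h0 : lift t ht2 π = 0 := hrel
    rw [h0, mul_zero] at this
    exact zero_ne_one this
  · rintro ⟨y, rfl⟩
    have h0 : lift t ht2 π = 0 := hrel
    rw [map_mul, h0, zero_mul]

theorem not_dvd_three (hπ : π.norm = p) (hp3 : p % 3 = 1) : ¬ π ∣ 3 := by
  intro h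
  have h1 := (dvd_three_iff (prime_of_norm_eq hπ)).mp h
  have h2 : (3 : ℤ) ∣ π.norm := lam_dvd_iff_norm.mp h1.symm.dvd
  rw [hπ] at h2
  have : 3 ∣ p := by exact_mod_cast h2
  omega

theorem hom_w_primitive (hp3 : p % 3 = 1) (φ : Eis →+* ZMod p) :
    IsPrimitiveRoot (φ w) 3 := by
  have h1 : (φ w) ^ 3 = 1 := by rw [← map_pow, w_cube, map_one]
  have h2 : φ w ≠ 1 := by
    intro h
    have := hom_w φ
    rw [h] at this
    have h3 : ((3 : ℕ) : ZMod p) = 0 := by push_cast; linear_combination this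
    rw [ZMod.natCast_eq_zero_iff] at h3
    have h4 := (Nat.prime_dvd_prime_iff_eq hp.out Nat.prime_three).mp h3
    omega
  have := orderOf_eq_prime h1 h2
  rw [← this]
  exact IsPrimitiveRoot.orderOf _

theorem w_primitive : IsPrimitiveRoot w 3 := by
  have := orderOf_eq_prime w_cube (by decide)
  rw [← this]
  exact IsPrimitiveRoot.orderOf _

/-- the Eisenstein-integer valued cubic character at `π`, with its Jacobi sum -/
theorem exists_cubic_char (hp3 : p % 3 = 1) (φ : Eis →+* ZMod p) :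
    ∃ χ : MulChar (ZMod p) Eis, (∀ x : ZMod p, x ≠ 0 → φ (χ x) = x ^ ((p - 1) / 3)) ∧
      (∀ x : ZMod p, x ≠ 0 → ∃ i : ℕ, χ x = w ^ i) ∧ (∃ x : ZMod p, x ≠ 0 ∧ χ x = w) :=
  exists_mulChar φ w w_cube (hom_w_primitive hp3 φ) (by omega)

theorem char_cube {χ : MulChar (ZMod p) Eis}
    (h : ∀ x : ZMod p, x ≠ 0 → ∃ i : ℕ, χ x = w ^ i) : χ ^ 3 = 1 := by
  refine MulChar.ext fun x => ?_
  rw [MulChar.pow_apply_coe]
  obtain ⟨i, hi⟩ := h x x.ne_zero
  rw [hi, ← pow_mul, mul_comm, pow_mul, w_cube, one_pow, MulChar.one_apply_coe]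

theorem char_conj {χ : MulChar (ZMod p) Eis}
    (h : ∀ x : ZMod p, x ≠ 0 → ∃ i : ℕ, χ x = w ^ i) : χ.ringHomComp conj = χ⁻¹ := by
  have h3 : χ⁻¹ = χ ^ 2 := by
    rw [inv_eq_iff_mul_eq_one, ← pow_succ', char_cube h]
  rw [h3]
  refine MulChar.ext fun x => ?_
  rw [MulChar.ringHomComp_apply, MulChar.pow_apply_coe]
  obtain ⟨i, hi⟩ := h x x.ne_zero
  rw [hi, map_pow, conj_w, ← pow_mul, ← pow_mul, mul_comm]

theorem char_ne_one {χ : MulChar (ZMod p) Eis}
    (h : ∃ x : ZMod p, x ≠ 0 ∧ χ x = w) : χ ≠ 1 := by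
  rintro rfl
  obtain ⟨x, hx, hx2⟩ := h
  rw [MulChar.one_apply (isUnit_iff_ne_zero.mpr hx)] at hx2
  exact absurd hx2 (by decide)

theorem jacobi_mul_conj {χ : MulChar (ZMod p) Eis}
    (h : ∀ x : ZMod p, x ≠ 0 → ∃ i : ℕ, χ x = w ^ i) (h' : ∃ x : ZMod p, x ≠ 0 ∧ χ x = w) :
    jacobiSum χ χ * conj (jacobiSum χ χ) = (p : Eis) := by
  have : CharZero Eis := ⟨fun a b hab => by
    have := congrArg Eis.re hab
    simpa using this⟩
  rw [← jacobiSum_ringHomComp, char_conj h]
  apply jacobiSum_mul_inv (char_ne_one h')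
  intro h2
  have h3 := char_cube h
  have h4 : χ = 1 := by
    have : χ ^ 3 = χ * χ * χ := by rw [pow_succ, pow_two]
    rw [this, h2, one_mul] at h3
    exact h3
  exact char_ne_one h' h4

theorem jacobi_mod_three (hp3 : p % 3 = 1) {χ : MulChar (ZMod p) Eis}
    (h : ∀ x : ZMod p, x ≠ 0 → ∃ i : ℕ, χ x = w ^ i) :
    (3 : Eis) ∣ jacobiSum χ χ + 1 := by
  have h3 := char_cube h
  have hdvd : 3 ∣ Fintype.card (ZMod p) - 1 := by rw [ZMod.card]; omega
  obtain ⟨z, -, hz⟩ := exists_jacobiSum_eq_neg_one_add (n := 3) (by norm_num : 2 < 3) (χ := χ)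
    (ψ := χ) (μ := w) h3 h3 hdvd w_primitive
  refine ⟨z * (-w), ?_⟩
  rw [hz]
  have : (w - 1) ^ 2 = 3 * (-w) := by decide
  rw [this]; ring

theorem primary_unique {π u : Eis} (hu : IsUnit u) (h1 : (3 : ℤ) ∣ π.im) (h2 : ¬ (3 : ℤ) ∣ π.re)
    (h : (3 : Eis) ∣ π * u + 1 ∨ (3 : Eis) ∣ π * u - 1) : u = 1 ∨ u = -1 := by
  have hd : (3 : ℤ) ∣ (π * u).im := by
    rw [three_dvd_iff, three_dvd_iff] at h
    rcases h with h | h
    · have := h.2
      rw [add_im, one_im, add_zero] at this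
      exact this
    · have := h.2
      rw [sub_im, one_im, sub_zero] at this
      exact this
  clear h
  obtain ⟨i, hi, hu | hu⟩ := unit_cases hu
  · interval_cases i
    · left; rw [hu, pow_zero]
    · exfalso; rw [hu, pow_one, mul_im, w_re, w_im] at hd
      apply h2; omega
    · exfalso; rw [hu, w_sq, mul_im] at hd
      simp only [sub_re, sub_im, neg_re, neg_im, one_re, one_im, w_re, w_im] at hd
      apply h2; omega
  · interval_cases i
    · right; rw [hu, pow_zero]
    · exfalso; rw [hu, pow_one, mul_im, neg_re, neg_im, w_re, w_im] at hd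
      apply h2; omega
    · exfalso; rw [hu, w_sq, mul_im] at hd
      simp only [sub_re, sub_im, neg_re, neg_im, one_re, one_im, w_re, w_im] at hd
      apply h2; omega

omit hp in
theorem re_not_dvd (hp3 : p % 3 = 1) (hπ : π.norm = p) (h1 : (3 : ℤ) ∣ π.im) :
    ¬ (3 : ℤ) ∣ π.re := by
  rintro ⟨c, hc⟩
  obtain ⟨d, hd⟩ := h1
  rw [norm_def, hc, hd] at hπ
  have : (3 : ℤ) ∣ p := ⟨3 * c ^ 2 - 3 * c * d + 3 * d ^ 2, by rw [← hπ]; ring⟩
  omega

/-- The Jacobi sum of the cubic character at `π` is `π` up to sign. -/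
theorem jacobi_eq (hp3 : p % 3 = 1) (hπ : π.norm = p) (hprim : (3 : ℤ) ∣ π.im)
    (φ : Eis →+* ZMod p) (hφ : ∀ x, φ x = 0 ↔ π ∣ x) {χ : MulChar (ZMod p) Eis}
    (h1 : ∀ x : ZMod p, x ≠ 0 → φ (χ x) = x ^ ((p - 1) / 3))
    (h : ∀ x : ZMod p, x ≠ 0 → ∃ i : ℕ, χ x = w ^ i) (h' : ∃ x : ZMod p, x ≠ 0 ∧ χ x = w) :
    jacobiSum χ χ = π ∨ jacobiSum χ χ = -π := by
  have hp2 := hp.out.two_le
  have hz : φ (jacobiSum χ χ) = 0 :=
    map_jacobiSum_eq_zero φ χ ((p - 1) / 3) (by omega) (by omega) h1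
  rw [hφ] at hz
  obtain ⟨u, hu⟩ := hz
  have hJ := jacobi_mul_conj h h'
  have hpi := mul_conj_p hπ
  have hu1 : IsUnit u := by
    rw [isUnit_iff_norm]
    have := congrArg norm hJ
    rw [hu, norm_mul, norm_mul, norm_conj, norm_mul, hπ, norm_natCast] at this
    have hp0 : (p : ℤ) ≠ 0 := by exact_mod_cast hp.out.ne_zero
    have h2 : u.norm ^ 2 = 1 := by
      apply mul_left_cancel₀ (pow_ne_zero 2 hp0)
      linear_combination this
    have := norm_nonneg u
    nlinarith
  have h3 := jacobi_mod_three hp3 h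
  rw [hu] at h3
  rcases primary_unique hu1 hprim (re_not_dvd hp3 hπ hprim) (Or.inl h3) with h4 | h4
  · left; rw [hu, h4, mul_one]
  · right; rw [hu, h4]; ring

/-- **Lemma G**: the basic relation coming from Gauss sums. -/
theorem lemmaG (hp3 : p % 3 = 1) (hπ : π.norm = p) (hprim : (3 : ℤ) ∣ π.im) {l : Eis}
    (hl : Prime l) (hl3 : ¬ l ∣ 3) (hlp : ¬ l ∣ (p : Eis)) :
    sym l π - sym l (conj π) = sym π ((N l : ℕ) : Eis) := by
  obtain ⟨φ, hφ⟩ := exists_hom hπ
  obtain ⟨χ, hχ1, hχ2, hχ3⟩ := exists_cubic_char hp3 φ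
  have hJ := jacobi_eq hp3 hπ hprim φ hφ hχ1 hχ2 hχ3
  have hπ3 := not_dvd_three hπ hp3
  have hπpr := prime_of_norm_eq hπ
  have hpc := mul_conj_p hπ
  obtain ⟨q, hq, hlq, hn⟩ := exists_rational_prime hl
  have hqp : q ≠ p := by rintro rfl; exact hlp hlq
  have : Fact q.Prime := ⟨hq⟩
  obtain ⟨n, hnN⟩ : ∃ n : ℕ, q ^ n = N l := by
    have := N_cast l
    rcases hn with hn | hn
    · refine ⟨1, ?_⟩
      rw [hn] at this
      rw [pow_one]; exact_mod_cast this.symm
    · refine ⟨2, ?_⟩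
      rw [hn] at this
      exact_mod_cast this.symm
  -- the residue field
  let I : Ideal Eis := Ideal.span {l}
  have hI : I.IsPrime := (Ideal.span_singleton_prime hl.ne_zero).mpr hl
  have hI0 : I ≠ ⊥ := by
    intro h
    exact hl.ne_zero (Ideal.span_singleton_eq_bot.mp h)
  have hImax : I.IsMaximal := IsPrime.to_maximal_ideal hI0
  let _ : Field (Eis ⧸ I) := Ideal.Quotient.field I
  let θ : Eis →+* Eis ⧸ I := Ideal.Quotient.mk I
  have hθ : ∀ x, θ x = 0 ↔ l ∣ x := fun x => by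
    rw [Ideal.Quotient.eq_zero_iff_mem, Ideal.mem_span_singleton]
  have hchar : CharP (Eis ⧸ I) q := by
    have h0 : ((q : ℕ) : Eis ⧸ I) = 0 := by
      have := (hθ (q : Eis)).mpr hlq
      rwa [map_natCast] at this
    have := CharP.ringChar_of_prime_eq_zero hq h0
    rw [← this]
    exact ringChar.charP _
  set χ' := χ.ringHomComp θ with hχ'
  have hord : orderOf χ' = 3 := by
    apply orderOf_eq_prime
    · rw [hχ', MulChar.ringHomComp_pow, char_cube hχ2, MulChar.ringHomComp_one]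
    · intro h1
      obtain ⟨x, hx, hx2⟩ := hχ3
      have h2 : χ' x = 1 := by rw [h1]; exact MulChar.one_apply (isUnit_iff_ne_zero.mpr hx)
      rw [hχ', MulChar.ringHomComp_apply, hx2] at h2
      have h3 : θ (w - 1) = 0 := by rw [map_sub, h2, map_one, sub_self]
      rw [hθ] at h3
      apply hl3
      refine h3.trans ⟨w ^ 2 - 1, by decide⟩
  have hkey := cubic_gauss (p := p) q hqp χ' hord n (by rw [hnN]; exact three_mul_div hl hl3)
  rw [hnN, hχ', jacobiSum_ringHomComp, MulChar.ringHomComp_apply] at hkey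
  have hkey2 : θ (χ ((N l : ℕ) : ZMod p) * ((p : Eis) * jacobiSum χ χ) ^ ((N l - 1) / 3) - 1) = 0
      := by
    have e2 : θ (p : Eis) = ((p : ℕ) : Eis ⧸ I) := map_natCast _ _
    rw [map_sub, map_mul, map_pow, map_mul θ (p : Eis) (jacobiSum χ χ), e2, map_one, hkey,
      sub_self]
  rw [hθ] at hkey2
  -- the value of χ at N l
  have hNp : ¬ π ∣ ((N l : ℕ) : Eis) := by
    intro h
    rw [← hφ, map_natCast, ZMod.natCast_eq_zero_iff, ← hnN] at h
    have := hp.out.dvd_of_dvd_pow h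
    rw [Nat.prime_dvd_prime_iff_eq hp.out hq] at this
    exact hqp this.symm
  have hN0 : ((N l : ℕ) : ZMod p) ≠ 0 := by
    intro h
    apply hNp
    rw [← hφ, map_natCast, h]
  obtain ⟨i, hi⟩ := hχ2 _ hN0
  have hNpi : N π = p := by
    have := N_cast π
    rw [hπ] at this
    exact_mod_cast this
  have hsym1 : (i : ZMod 3) = sym π ((N l : ℕ) : Eis) := by
    have h1 := hχ1 _ hN0
    have h2 := map_pow_eq hπpr hπ3 hNp φ ((hφ π).mpr dvd_rfl)
    rw [map_natCast, hNpi] at h2
    rw [h2, hi, ← map_pow, ← sub_eq_zero, ← map_sub, hφ] at h1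
    have := w_pow_sub_dvd hπ3 h1
    rwa [ZMod.natCast_val, ZMod.cast_id', id] at this
  -- not divisible
  have hlπ : ¬ l ∣ π := fun h => hlp (h.trans (dvd_p hπ))
  have hlπ' : ¬ l ∣ conj π := fun h => hlp (h.trans (by rw [← hpc]; exact dvd_mul_left _ _))
  have hlJ : sym l ((p : Eis) * jacobiSum χ χ) = 2 * sym l π + sym l (conj π) := by
    have e1 : sym l (jacobiSum χ χ) = sym l π := by
      rcases hJ with h | h
      · rw [h]
      · rw [h, sym_neg hl hl3 hlπ]
    have e2 : ¬ l ∣ jacobiSum χ χ := by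
      rcases hJ with h | h
      · rw [h]; exact hlπ
      · rw [h]; rwa [dvd_neg]
    rw [sym_mul hl hl3 hlp e2, e1, ← hpc, sym_mul hl hl3 hlπ hlπ']
    ring
  have hlpJ : ¬ l ∣ (p : Eis) * jacobiSum χ χ := by
    intro h
    rcases hl.dvd_or_dvd h with h | h
    · exact hlp h
    · rcases hJ with h2 | h2
      · rw [h2] at h; exact hlπ h
      · rw [h2, dvd_neg] at h; exact hlπ h
  have hs := sym_spec hl hl3 hlpJ
  rw [hi] at hkey2
  have h5 : l ∣ w ^ (i + (sym l ((p : Eis) * jacobiSum χ χ)).val) - w ^ 0 := by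
    have e : w ^ (i + (sym l ((p : Eis) * jacobiSum χ χ)).val) - w ^ 0 =
      (w ^ i * ((p : Eis) * jacobiSum χ χ) ^ ((N l - 1) / 3) - 1) -
        w ^ i * (((p : Eis) * jacobiSum χ χ) ^ ((N l - 1) / 3) -
          w ^ (sym l ((p : Eis) * jacobiSum χ χ)).val) := by
      rw [pow_add]; ring
    rw [e]
    exact dvd_sub hkey2 (dvd_mul_of_dvd_right hs _)
  have h6 := w_pow_sub_dvd hl3 h5
  push_cast at h6
  rw [ZMod.natCast_val, ZMod.cast_id', id, hlJ, hsym1] at h6
  have h3 : (3 : ZMod 3) = 0 := by decide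
  linear_combination (-1 : ZMod 3) * h6 + sym l π * h3

end split

end Eis

end Pool.Agent.Lib_helper18

end

section

/-!
# Cubic reciprocity and the supplementary law
-/

namespace Pool.Agent.Lib_helper18

namespace Eis

/-- `wt n = (n - 1) / 3` modulo 3 -/
def wt (n : ℤ) : ZMod 3 := (((n - 1) / 3 : ℤ) : ZMod 3)

theorem wt_eq {n k : ℤ} (h : n = 1 + 3 * k) : wt n = (k : ZMod 3) := by
  rw [wt, h]
  congr 1
  omega

theorem wt_mul {m n : ℤ} (hm : m % 3 = 1) (hn : n % 3 = 1) : wt (m * n) = wt m + wt n := by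
  obtain ⟨a, ha⟩ : ∃ a, m = 1 + 3 * a := ⟨m / 3, by omega⟩
  obtain ⟨b, hb⟩ : ∃ b, n = 1 + 3 * b := ⟨n / 3, by omega⟩
  have h : m * n = 1 + 3 * (a + b + 3 * a * b) := by rw [ha, hb]; ring
  rw [wt_eq ha, wt_eq hb, wt_eq h]
  push_cast
  have h3 : (3 : ZMod 3) = 0 := by decide
  rw [h3]; ring

theorem wt_one : wt 1 = 0 := by rw [wt]; norm_num

theorem sq_mod_three {n : ℤ} (h : ¬ (3 : ℤ) ∣ n) : n ^ 2 % 3 = 1 := by
  have : n % 3 = 1 ∨ n % 3 = 2 := by omega
  rcases this with h | h <;> simp [pow_two, Int.mul_emod, h]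

theorem sym_w' {l : Eis} (hl : Prime l) (h3 : ¬ l ∣ 3) : sym l w = wt l.norm := by
  rw [sym_w hl h3, wt]
  have h1 := N_cast l
  have h2 := N_mod_three (not_lam_dvd_of_prime hl h3)
  have : ((((N l - 1) / 3 : ℕ) : ℤ)) = (l.norm - 1) / 3 := by rw [← h1]; omega
  rw [← this]; push_cast; rfl

theorem not_dvd_conj_three {l : Eis} (h3 : ¬ l ∣ 3) : ¬ conj l ∣ 3 := fun h => h3 (by
  have := conj_dvd h
  rw [conj_conj] at this
  have e : conj 3 = 3 := conj_natCast 3
  rwa [e] at this)

/-- A prime of norm `q^2` above `q` is associated to `q`. -/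
theorem associated_of_norm_sq {l : Eis} {q : ℕ} (hq : q.Prime) (h : l ∣ (q : Eis))
    (hn : l.norm = q ^ 2) : Associated l (q : Eis) := by
  obtain ⟨u, hu⟩ := h
  have h1 := congrArg norm hu
  rw [norm_mul, norm_natCast, hn] at h1
  have hq0 : ((q : ℤ) ^ 2) ≠ 0 := by
    have := hq.ne_zero
    positivity
  have h2 : u.norm = 1 := by
    apply mul_left_cancel₀ hq0
    rw [← h1, mul_one]
  obtain ⟨v, rfl⟩ := isUnit_iff_norm.mpr h2
  exact ⟨v, hu.symm⟩

section split

variable {p : ℕ} [hp : Fact p.Prime] {π : Eis}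

theorem dvd_intCast_iff (hπ : π.norm = p) {s : ℤ} : π ∣ (s : Eis) ↔ (p : ℤ) ∣ s := by
  obtain ⟨φ, hφ⟩ := exists_hom hπ
  rw [← hφ, map_intCast, ZMod.intCast_zmod_eq_zero_iff_dvd]

theorem dvd_natCast_iff (hπ : π.norm = p) {s : ℕ} : π ∣ (s : Eis) ↔ p ∣ s := by
  obtain ⟨φ, hφ⟩ := exists_hom hπ
  rw [← hφ, map_natCast, ZMod.natCast_eq_zero_iff]

/-- A prime dividing `p` has norm `p`. -/
theorem norm_of_dvd_p (hπ : π.norm = p) {l : Eis} (hl : Prime l) (h : l ∣ (p : Eis)) :
    l.norm = p ∧ (Associated l π ∨ Associated l (conj π)) := by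
  rw [← mul_conj_p hπ] at h
  rcases hl.dvd_or_dvd h with h | h
  · have := hl.associated_of_dvd (prime_of_norm_eq hπ) h
    refine ⟨?_, Or.inl this⟩
    obtain ⟨u, hu⟩ := this
    rw [← hπ, ← hu, norm_mul, isUnit_iff_norm.mp u.isUnit, mul_one]
  · have := hl.associated_of_dvd (prime_conj (prime_of_norm_eq hπ)) h
    refine ⟨?_, Or.inr this⟩
    obtain ⟨u, hu⟩ := this
    have h5 : l.norm = (conj π).norm := by
      rw [← hu, norm_mul, isUnit_iff_norm.mp u.isUnit, mul_one]
    rw [h5, norm_conj, hπ]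

/-- **Lemma S** on natural numbers. -/
theorem lemmaS_nat (hp3 : p % 3 = 1) (hπ : π.norm = p) (hprim : (3 : ℤ) ∣ π.im) (c : ZMod 3)
    (s : ℕ) (hs0 : s ≠ 0) (hs3 : ¬ 3 ∣ s) (hsp : ¬ p ∣ s)
    (H : ∀ l : Eis, Prime l → l ∣ (s : Eis) → sym l π - sym l (conj π) = c * wt l.norm) :
    2 * sym π (s : Eis) = c * wt ((s : ℤ) ^ 2) := by
  have hπpr := prime_of_norm_eq hπ
  have hπ3 := not_dvd_three hπ hp3
  induction s using Nat.recOnMul with
  | zero => exact absurd rfl hs0
  | one =>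
    rw [Nat.cast_one, Nat.cast_one, one_pow, wt_one, sym_one hπpr hπ3]; ring
  | prime q hq =>
    have hq3 : ¬ (3 : ℤ) ∣ q := by exact_mod_cast hs3
    have hnu : ¬ IsUnit (q : Eis) := by
      rw [isUnit_iff_norm, norm_natCast]
      intro h
      have := hq.two_le
      have h2 : (2 : ℤ) ≤ q := by exact_mod_cast this
      nlinarith
    obtain ⟨l, hl, hlq⟩ := WfDvdMonoid.exists_irreducible_factor hnu (by
      intro h
      have := congrArg Eis.re h
      simp at this
      exact hq.ne_zero this)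
    have hlp := hl.prime
    have hl3 : ¬ l ∣ 3 := by
      intro h
      have h1 := (dvd_three_iff hlp).mp h
      have h2 : lam ∣ (q : Eis) := h1.symm.dvd.trans hlq
      rw [lam_dvd_iff] at h2
      simp at h2
      exact hq3 h2
    have hlpp : ¬ l ∣ (p : Eis) := by
      intro h
      obtain ⟨h1, -⟩ := norm_of_dvd_p hπ hlp h
      have h2 : (p : ℤ) ∣ ((q : Eis)).norm := by
        obtain ⟨m, hm⟩ := hlq
        rw [hm, norm_mul, h1]; exact dvd_mul_right _ _
      rw [norm_natCast] at h2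
      have h3 := (Nat.prime_iff_prime_int.mp hp.out).dvd_of_dvd_pow h2
      exact hsp (by exact_mod_cast h3)
    have hG := lemmaG hp3 hπ hprim hlp hl3 hlpp
    rw [H l hlp hlq] at hG
    have hπq : ¬ π ∣ (q : Eis) := by rwa [dvd_natCast_iff hπ]
    -- norm of l
    obtain ⟨m, hm⟩ := hlq
    have hnorm : l.norm = q ∨ l.norm = q ^ 2 := by
      obtain ⟨q', hq', hlq', hn'⟩ := exists_rational_prime hlp
      have : q' = q := by
        by_contra hne
        have hco : IsCoprime ((q' : ℕ) : ℤ) (q : ℤ) :=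
          Nat.Coprime.isCoprime ((Nat.coprime_primes hq' hq).mpr hne)
        obtain ⟨u, v, huv⟩ := hco
        have h1 : ((u : Eis)) * (q' : Eis) + (v : Eis) * (q : Eis) = 1 := by
          have := congrArg (Int.cast : ℤ → Eis) huv
          push_cast at this; exact this
        have h2 : l ∣ 1 := by
          rw [← h1]
          exact dvd_add (dvd_mul_of_dvd_right hlq' _) (dvd_mul_of_dvd_right ⟨m, hm⟩ _)
        exact hlp.not_isUnit (isUnit_of_dvd_one h2)
      rw [this] at hn'; exact hn'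
    have hNl := N_cast l
    rcases hnorm with hn | hn
    · have hNq : N l = q := by
        have : (N l : ℤ) = q := by rw [hNl, hn]
        exact_mod_cast this
      have hq1 : (q : ℤ) % 3 = 1 := by
        have := norm_emod_three_of_not_lam_dvd (not_lam_dvd_of_prime hlp hl3)
        rwa [hn] at this
      rw [hNq, hn] at hG
      rw [← hG, pow_two, wt_mul hq1 hq1]; ring
    · have hNq : N l = q ^ 2 := by
        have : (N l : ℤ) = q ^ 2 := by rw [hNl, hn]
        exact_mod_cast this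
      rw [hNq, hn] at hG
      push_cast at hG
      rw [sym_pow hπpr hπ3 hπq] at hG
      rw [hG]; push_cast; rfl
  | mul a b iha ihb =>
    have ha0 : a ≠ 0 := by rintro rfl; simp at hs0
    have hb0 : b ≠ 0 := by rintro rfl; simp at hs0
    have ha3 : ¬ 3 ∣ a := fun h => hs3 (Dvd.dvd.mul_right h b)
    have hb3 : ¬ 3 ∣ b := fun h => hs3 (Dvd.dvd.mul_left h a)
    have hap : ¬ p ∣ a := fun h => hsp (Dvd.dvd.mul_right h b)
    have hbp : ¬ p ∣ b := fun h => hsp (Dvd.dvd.mul_left h a)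
    have h1 := iha ha0 ha3 hap (fun l hl hla => H l hl (by
      rw [Nat.cast_mul]; exact Dvd.dvd.mul_right hla _))
    have h2 := ihb hb0 hb3 hbp (fun l hl hla => H l hl (by
      rw [Nat.cast_mul]; exact Dvd.dvd.mul_left hla _))
    have ha3' : ¬ (3 : ℤ) ∣ a := by exact_mod_cast ha3
    have hb3' : ¬ (3 : ℤ) ∣ b := by exact_mod_cast hb3
    rw [Nat.cast_mul, sym_mul hπpr hπ3 (by rwa [dvd_natCast_iff hπ])
      (by rwa [dvd_natCast_iff hπ]), mul_add, h1, h2, Nat.cast_mul, mul_pow,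
      wt_mul (sq_mod_three ha3') (sq_mod_three hb3')]
    ring

/-- **Lemma S**. -/
theorem lemmaS (hp3 : p % 3 = 1) (hπ : π.norm = p) (hprim : (3 : ℤ) ∣ π.im) (c : ZMod 3)
    (s : ℤ) (hs3 : ¬ (3 : ℤ) ∣ s) (hsp : ¬ (p : ℤ) ∣ s)
    (H : ∀ l : Eis, Prime l → l ∣ (s : Eis) → sym l π - sym l (conj π) = c * wt l.norm) :
    2 * sym π (s : Eis) = c * wt (s ^ 2) := by
  have hπpr := prime_of_norm_eq hπ
  have hπ3 := not_dvd_three hπ hp3
  have hs0 : s ≠ 0 := by rintro rfl; simp at hs3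
  have key : ∀ n : ℕ, (s = n ∨ s = -n) → 2 * sym π (s : Eis) = c * wt (s ^ 2) := by
    intro n hn
    have hn0 : n ≠ 0 := by rintro rfl; simp at hn; exact hs0 hn
    have hn3 : ¬ 3 ∣ n := by
      intro h
      have : (3 : ℤ) ∣ n := by exact_mod_cast h
      rcases hn with hn | hn
      · rw [hn] at hs3; exact hs3 this
      · rw [hn, dvd_neg] at hs3; exact hs3 this
    have hnp : ¬ p ∣ n := by
      intro h
      have : (p : ℤ) ∣ n := by exact_mod_cast h
      rcases hn with hn | hn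
      · rw [hn] at hsp; exact hsp this
      · rw [hn, dvd_neg] at hsp; exact hsp this
    have h1 := lemmaS_nat hp3 hπ hprim c n hn0 hn3 hnp (fun l hl hln => H l hl (by
      rcases hn with hn | hn <;> rw [hn] <;> push_cast
      · exact hln
      · rwa [dvd_neg]))
    rcases hn with hn | hn
    · rw [hn]; push_cast; exact h1
    · rw [hn]; push_cast
      rw [sym_neg hπpr hπ3 (by rwa [dvd_natCast_iff hπ]), neg_pow]
      simpa using h1
  exact key s.natAbs (Int.natAbs_eq s)

theorem trace_not_dvd (hp3 : p % 3 = 1) (hπ : π.norm = p) :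
    ¬ (p : ℤ) ∣ 2 * π.re - π.im := by
  rintro ⟨k, hk⟩
  have hp2 := hp.out.two_le
  have h1 : (2 * π.re - π.im) ^ 2 = 4 * p - 3 * π.im ^ 2 := by
    rw [← hπ, norm_def]; ring
  have hp7 : (4 : ℤ) < p := by
    have : 4 < p := by
      by_contra h
      push Not at h
      have : p = 4 := by omega
      exact absurd hp.out (by rw [this]; norm_num)
    exact_mod_cast this
  rw [hk] at h1
  have hk0 : k = 0 := by
    by_contra hne
    have : 1 ≤ k ^ 2 := by
      have : 0 < k ^ 2 := by positivity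
      omega
    nlinarith [sq_nonneg π.im, mul_pos (by linarith : (0 : ℤ) < p) (by linarith : (0 : ℤ) < p)]
  rw [hk0] at h1
  have : (3 : ℤ) ∣ 4 * p := ⟨π.im ^ 2, by linarith⟩
  omega

theorem not_dvd_conj (hp3 : p % 3 = 1) (hπ : π.norm = p) : ¬ π ∣ conj π := by
  intro h
  have h1 : π ∣ ((2 * π.re - π.im : ℤ) : Eis) := by
    have e : ((2 * π.re - π.im : ℤ) : Eis) = π + conj π := by
      ext
      · simp only [intCast_re, add_re, conj_re]; ring
      · simp only [intCast_im, add_im, conj_im]; ring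
    rw [e]
    exact dvd_add dvd_rfl h
  rw [dvd_intCast_iff hπ] at h1
  exact trace_not_dvd hp3 hπ h1

/-- `π̄` is a cube modulo `π`. -/
theorem sym_conj_self (hp3 : p % 3 = 1) (hπ : π.norm = p) (hprim : (3 : ℤ) ∣ π.im) :
    sym π (conj π) = 0 := by
  have hπpr := prime_of_norm_eq hπ
  have hπ3 := not_dvd_three hπ hp3
  have hre := re_not_dvd hp3 hπ hprim
  have e : ((2 * π.re - π.im : ℤ) : Eis) = π + conj π := by
    ext
    · simp only [intCast_re, add_re, conj_re]; ring
    · simp only [intCast_im, add_im, conj_im]; ring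
  have h1 := lemmaS hp3 hπ hprim 0 (2 * π.re - π.im) (by omega) (trace_not_dvd hp3 hπ) (by
    intro l hl hls
    rw [e] at hls
    rw [zero_mul, sub_eq_zero]
    have hlc : ¬ l ∣ conj π := by
      intro h
      have h2 : l ∣ π := by
        have := dvd_sub hls h
        simpa using this
      have h3 := hl.associated_of_dvd hπpr h2
      exact not_dvd_conj hp3 hπ (h3.symm.dvd.trans h)
    have hl3 : ¬ l ∣ 3 := by
      intro h
      have h1 := (dvd_three_iff hl).mp h
      have h2 : lam ∣ ((2 * π.re - π.im : ℤ) : Eis) := by rw [e]; exact h1.symm.dvd.trans hls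
      rw [lam_dvd_iff] at h2
      simp only [intCast_re, intCast_im] at h2
      omega
    rw [← sym_neg hl hl3 hlc]
    apply sym_congr
    rw [sub_neg_eq_add]; exact hls)
  rw [zero_mul] at h1
  have h2 : sym π ((2 * π.re - π.im : ℤ) : Eis) = 0 := by
    generalize sym π ((2 * π.re - π.im : ℤ) : Eis) = x at h1
    revert x; decide
  rw [← h2]
  apply sym_congr
  rw [e]; simp

end split

/-- a primary prime -/
def Prim (x : Eis) : Prop := (3 : ℤ) ∣ x.im ∧ ¬ (3 : ℤ) ∣ x.re

theorem Prim.unit {x u : Eis} (hx : Prim x) (hu : IsUnit u) (h : Prim (x * u)) :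
    u = 1 ∨ u = -1 := by
  obtain ⟨h1, h2⟩ := hx
  obtain ⟨h3, h4⟩ := h
  obtain ⟨i, hi, hu | hu⟩ := unit_cases hu
  · interval_cases i
    · left; rw [hu, pow_zero]
    · exfalso; rw [hu, pow_one, mul_im, w_re, w_im] at h3
      apply h2; omega
    · exfalso; rw [hu, w_sq, mul_im] at h3
      simp only [sub_re, sub_im, neg_re, neg_im, one_re, one_im, w_re, w_im] at h3
      apply h2; omega
  · interval_cases i
    · right; rw [hu, pow_zero]
    · exfalso; rw [hu, pow_one, mul_im, neg_re, neg_im, w_re, w_im] at h3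
      apply h2; omega
    · exfalso; rw [hu, w_sq, mul_im] at h3
      simp only [sub_re, sub_im, neg_re, neg_im, one_re, one_im, w_re, w_im] at h3
      apply h2; omega

theorem Prim.conj {x : Eis} (hx : Prim x) : Prim (conj x) := by
  obtain ⟨h1, h2⟩ := hx
  refine ⟨?_, ?_⟩
  · simpa using h1
  · simp only [conj_re]; omega

theorem prim_natCast {n : ℕ} (h : ¬ 3 ∣ n) : Prim (n : Eis) := by
  refine ⟨by simp, ?_⟩
  simp only [natCast_re]; exact_mod_cast h

theorem exists_prim {x : Eis} (hx : ¬ lam ∣ x) : ∃ i : ℕ, Prim (x * w ^ i) := by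
  rw [lam_dvd_iff] at hx
  have h1 : x.re % 3 = 0 ∨ x.re % 3 = 1 ∨ x.re % 3 = 2 := by omega
  have h2 : x.im % 3 = 0 ∨ x.im % 3 = 1 ∨ x.im % 3 = 2 := by omega
  rcases h2 with h2 | h2 | h2
  · refine ⟨0, ?_, ?_⟩ <;> simp only [pow_zero, mul_one] <;> omega
  all_goals
    rcases h1 with h1 | h1 | h1
    · refine ⟨2, ?_, ?_⟩ <;> rw [w_sq] <;>
        simp only [mul_im, mul_re, sub_re, sub_im, neg_re, neg_im, one_re, one_im, w_re, w_im] <;>
        omega
    · first
      | (exfalso; apply hx; omega)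
      | (refine ⟨1, ?_, ?_⟩ <;> rw [pow_one] <;>
        simp only [mul_im, mul_re, w_re, w_im] <;> omega)
    · first
      | (exfalso; apply hx; omega)
      | (refine ⟨1, ?_, ?_⟩ <;> rw [pow_one] <;>
        simp only [mul_im, mul_re, w_re, w_im] <;> omega)

section split

variable {p : ℕ} [hp : Fact p.Prime] {π : Eis}

/-- **Cubic reciprocity** with one of the primes split. -/
theorem recip (hp3 : p % 3 = 1) (hπ : π.norm = p) (hprim : (3 : ℤ) ∣ π.im) {l : Eis}
    (hl : Prime l) (hl3 : ¬ l ∣ 3) (hlprim : Prim l) (hne : ¬ Associated l π) :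
    sym π l = sym l π := by
  have hπpr := prime_of_norm_eq hπ
  have hπ3 := not_dvd_three hπ hp3
  have hre := re_not_dvd hp3 hπ hprim
  have hπprim : Prim π := ⟨hprim, hre⟩
  by_cases hlp : l ∣ (p : Eis)
  · obtain ⟨h1, h2⟩ := norm_of_dvd_p hπ hl hlp
    have h3 := h2.resolve_left hne
    obtain ⟨u, hu⟩ := h3
    have h4 : Prim (l * u) := by rw [hu]; exact hπprim.conj
    have h5 := hlprim.unit u.isUnit h4
    have h6 : sym π l = 0 := by
      have hs := sym_conj_self hp3 hπ hprim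
      rcases h5 with h5 | h5
      · rw [h5, mul_one] at hu; rw [hu]; exact hs
      · rw [h5] at hu
        have : l = - conj π := by rw [← hu]; ring
        rw [this, sym_neg hπpr hπ3 (not_dvd_conj hp3 hπ)]; exact hs
    have h7 : sym l π = 0 := by
      have h8 : Associated l (conj π) := ⟨u, hu⟩
      rw [sym_associated h8]
      have h9 := sym_conj hπpr hπ3 (not_dvd_conj hp3 hπ)
      rw [conj_conj, sym_conj_self hp3 hπ hprim, neg_zero] at h9
      exact h9
    rw [h6, h7]
  · have hG := lemmaG hp3 hπ hprim hl hl3 hlp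
    obtain ⟨q, hq, hlq, hn⟩ := exists_rational_prime hl
    have hNl := N_cast l
    have hq3 : ¬ 3 ∣ q := by
      intro h
      have := (Nat.prime_dvd_prime_iff_eq Nat.prime_three hq).mp h
      rw [← this] at hlq
      exact hl3 (by exact_mod_cast hlq)
    have hπq : ¬ π ∣ (q : Eis) := by
      rw [dvd_natCast_iff hπ]
      intro h
      have := (Nat.prime_dvd_prime_iff_eq hp.out hq).mp h
      rw [this] at hlp
      exact hlp hlq
    rcases hn with hn | hn
    · -- split
      have hNq : N l = q := by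
        have : (N l : ℤ) = q := by rw [hNl, hn]
        exact_mod_cast this
      have hq1 : q % 3 = 1 := by
        have := norm_emod_three_of_not_lam_dvd (not_lam_dvd_of_prime hl hl3)
        rw [hn] at this
        omega
      have : Fact q.Prime := ⟨hq⟩
      have hG2 := lemmaG hq1 hn hlprim.1 hπpr hπ3 hπq
      have hNπ : N π = p := by
        have := N_cast π
        rw [hπ] at this
        exact_mod_cast this
      rw [hNq] at hG
      rw [hNπ] at hG2
      have hlc := mul_conj_p hn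
      have hπc := mul_conj_p hπ
      have n1 : ¬ π ∣ l := fun h => hπq (h.trans hlq)
      have n2 : ¬ π ∣ conj l := fun h => hπq (h.trans (by rw [← hlc]; exact dvd_mul_left _ _))
      have n3 : ¬ l ∣ π := fun h => hlp (h.trans (dvd_p hπ))
      have n4 : ¬ l ∣ conj π := fun h => hlp (h.trans (by rw [← hπc]; exact dvd_mul_left _ _))
      rw [← hlc, sym_mul hπpr hπ3 n1 n2] at hG
      rw [← hπc, sym_mul hl hl3 n3 n4] at hG2
      have h3 : (3 : ZMod 3) = 0 := by decide
      linear_combination hG - hG2 + (sym π l - sym l π) * h3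
    · -- inert
      have hNq : N l = q ^ 2 := by
        have : (N l : ℤ) = q ^ 2 := by rw [hNl, hn]
        exact_mod_cast this
      have has := associated_of_norm_sq hq hlq hn
      obtain ⟨u, hu⟩ := has
      have hqprim : Prim (l * u) := by rw [hu]; exact prim_natCast hq3
      have hu1 := hlprim.unit u.isUnit hqprim
      rw [hNq] at hG
      push_cast at hG
      rw [sym_pow hπpr hπ3 hπq] at hG
      have n3 : ¬ l ∣ π := fun h => hlp (h.trans (dvd_p hπ))
      have has' : Associated (Eis.conj l) l := by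
        have h1 : Associated l (q : Eis) := ⟨u, hu⟩
        have h2 : Associated (Eis.conj l) (q : Eis) := by
          refine ⟨Units.map Eis.conj.toMonoidHom u, ?_⟩
          have := congrArg Eis.conj hu
          rw [map_mul, conj_natCast] at this
          exact this
        exact h2.trans h1.symm
      have hsc := sym_conj hl hl3 n3
      rw [sym_associated has'] at hsc
      have hlq' : sym π l = sym π (q : Eis) := by
        rcases hu1 with h | h
        · rw [h, mul_one] at hu; rw [hu]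
        · rw [h] at hu
          have : l = -(q : Eis) := by rw [← hu]; ring
          rw [this, sym_neg hπpr hπ3 hπq]
      rw [hlq']
      rw [hsc] at hG
      push_cast at hG
      have h3 : (3 : ZMod 3) = 0 := by decide
      linear_combination (1 : ZMod 3) * hG + sym π (q : Eis) * h3 - sym l π * h3

theorem sym_unit (hp9 : p % 9 = 1) (hπ : π.norm = p) {u : Eis} (hu : IsUnit u) :
    sym π u = 0 := by
  have hp3 : p % 3 = 1 := by omega
  have hπpr := prime_of_norm_eq hπ
  have hπ3 := not_dvd_three hπ hp3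
  have hw : sym π w = 0 := by
    rw [sym_w' hπpr hπ3, hπ]
    have : (p : ℤ) = 1 + 3 * (3 * (p / 9 : ℤ)) := by omega
    rw [wt_eq this]
    push_cast
    have h3 : (3 : ZMod 3) = 0 := by decide
    rw [h3]; ring
  have hwi : ∀ i : ℕ, sym π (w ^ i) = 0 := fun i => by
    rw [sym_pow hπpr hπ3 (not_dvd_of_isUnit hπpr isUnit_w), hw, mul_zero]
  obtain ⟨i, hi, hu | hu⟩ := unit_cases hu
  · rw [hu]; exact hwi i
  · rw [hu, sym_neg hπpr hπ3 (not_dvd_of_isUnit hπpr (isUnit_w.pow i))]; exact hwi i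

/-- **Lemma R**. -/
theorem lemmaR (hp9 : p % 9 = 1) (hπ : π.norm = p) (hprim : (3 : ℤ) ∣ π.im) (c : ZMod 3)
    (x : Eis) (hx0 : x ≠ 0) (hx3 : ¬ lam ∣ x) (hxπ : ¬ π ∣ x)
    (H : ∀ l : Eis, Prime l → l ∣ x → sym l π = c * wt l.norm) :
    sym π x = c * wt x.norm := by
  have hp3 : p % 3 = 1 := by omega
  have hπpr := prime_of_norm_eq hπ
  have hπ3 := not_dvd_three hπ hp3
  induction x using UniqueFactorizationMonoid.induction_on_prime with
  | h₁ => exact absurd rfl hx0
  | h₂ u hu => rw [sym_unit hp9 hπ hu, isUnit_iff_norm.mp hu, wt_one, mul_zero]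
  | h₃ a l ha0 hl ih =>
    have hla : ¬ lam ∣ a := fun h => hx3 (Dvd.dvd.mul_left h l)
    have hll : ¬ lam ∣ l := fun h => hx3 (Dvd.dvd.mul_right h a)
    have hπa : ¬ π ∣ a := fun h => hxπ (Dvd.dvd.mul_left h l)
    have hπl : ¬ π ∣ l := fun h => hxπ (Dvd.dvd.mul_right h a)
    have h1 := ih ha0 hla hπa (fun m hm hma => H m hm (Dvd.dvd.mul_left hma l))
    have hl3 : ¬ l ∣ 3 := fun h => hll ((dvd_three_iff hl).mp h).symm.dvd
    obtain ⟨i, hi⟩ := exists_prim hll
    have hass : Associated (l * w ^ i) l := ⟨(isUnit_w.pow i).unit⁻¹, by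
      rw [mul_assoc]; simp⟩
    have hl' : Prime (l * w ^ i) := (hass.symm.prime hl)
    have hl3' : ¬ (l * w ^ i) ∣ 3 := fun h => hl3 (hass.symm.dvd.trans h)
    have hne : ¬ Associated (l * w ^ i) π := fun h => hπl (h.symm.dvd.trans hass.dvd)
    have h2 := recip hp3 hπ hprim hl' hl3' hi hne
    rw [sym_associated hass, sym_mul hπpr hπ3 hπl (not_dvd_of_isUnit hπpr (isUnit_w.pow i)),
      sym_unit hp9 hπ (isUnit_w.pow i), add_zero, H l hl (dvd_mul_right _ _)] at h2
    rw [sym_mul hπpr hπ3 hπl hπa, h1, h2, norm_mul,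
      wt_mul (norm_emod_three_of_not_lam_dvd hll) (norm_emod_three_of_not_lam_dvd hla)]
    ring

end split

end Eis

end Pool.Agent.Lib_helper18

end
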