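import Mathlib
import Pool.Agent.PTWX.C01
import Pool.Agent.PTWX.C04

/-! Parts: Lib_helper28.FROB.Local, Lib_helper28.FROB.Count, Lib_helper28.FROB.Euler, Lib_helper28.FROB.Log, Lib_helper28.FROB.Zeta, Lib_helper28.FROB.Fiber, Lib_helper28.FROB.Sum, Lib_helper28.FROB.Induct, Lib_helper28.FROB.Count2, RI.FROBD, Lib_helper18.FD7, CubeRank.ADefs, CubeRank.AClique, CubeRank.AWarn -/

namespace Pool.Agent.Lib_helper28.FROB
end Pool.Agent.Lib_helper28.FROB

namespace Pool.Agent.CubeRank.AClique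
end Pool.Agent.CubeRank.AClique

section

/-!
# Frobenius: decomposition groups and primes of degree one of fixed fields

`M` is a finite Galois extension of the rational numbers with group `G`, and `H` is a subgroup of
`G` with fixed field `F`.  For a prime `w` of `M`, unramified over the rational numbers, the prime
of `F` below `w` has degree one iff the decomposition group of `w` is contained in `H`.
-/

open NumberField IsDedekindDomain Ideal MulAction
open scoped Pointwise

namespace Pool.Agent.Lib_helper28.FROB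

variable {M : Type*} [Field M] [NumberField M] [IsGalois ℚ M]

/-- The fixed field of a subgroup. -/
abbrev Fix (H : Subgroup Gal(M/ℚ)) : IntermediateField ℚ M := FixedPoints.intermediateField H

instance galH (H : Subgroup Gal(M/ℚ)) : IsGaloisGroup H (Fix H) M :=
  IsGaloisGroup.subgroup Gal(M/ℚ) ℚ M H

instance galHO (H : Subgroup Gal(M/ℚ)) : IsGaloisGroup H (𝓞 (Fix H)) (𝓞 M) :=
  IsGaloisGroup.of_isFractionRing H _ _ (Fix H) M

/-- The stabilizer of a prime in the subgroup `H` and in `G`. -/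
theorem card_stab_sub (H : Subgroup Gal(M/ℚ)) (P : Ideal (𝓞 M)) :
    Nat.card (stabilizer H P) = Nat.card ((stabilizer Gal(M/ℚ) P ⊓ H : Subgroup Gal(M/ℚ))) := by
  have h : stabilizer H P = (stabilizer Gal(M/ℚ) P).subgroupOf H := by
    ext g
    simp only [mem_stabilizer_iff, Subgroup.mem_subgroupOf]
    rfl
  rw [h, ← Subgroup.inf_subgroupOf_right]
  exact Nat.card_congr (Subgroup.subgroupOfEquivOfLe inf_le_right).toEquiv


theorem perfect_under {R : Type*} [CommRing R] [IsDomain R] [Ring.HasFiniteQuotients R]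
    (p : Ideal R) [p.IsMaximal] (hp : p ≠ ⊥) : PerfectField p.ResidueField := by
  have : Finite (R ⧸ p) := Ring.HasFiniteQuotients.finiteQuotient hp
  infer_instance

theorem card_stab (G : Type*) [Group G] [Finite G] (R S : Type*) [CommRing R] [CommRing S]
    [Algebra R S] [MulSemiringAction G S] [IsGaloisGroup G R S] [IsDomain R] [IsDomain S]
    [Module.Finite R S] [Module.Flat R S] [Ring.HasFiniteQuotients R] (P : Ideal S)
    [P.IsPrime] (p : Ideal R) [p.IsMaximal] [P.LiesOver p] (hp : p ≠ ⊥)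
    (h : P.ramificationIdx R = 1) :
    Nat.card (stabilizer G P) = P.inertiaDeg R := by
  have := perfect_under p hp
  rw [Ideal.card_stabilizer_eq p P, ramificationIdxIn_eq_ramificationIdx p P G, h, one_mul,
    inertiaDegIn_eq_inertiaDeg p P G]

end Pool.Agent.Lib_helper28.FROB

end

section

/-!
# Prime ideals of a number field and the rational primes below them
-/

open NumberField IsDedekindDomain Ideal
open scoped ENNReal

namespace Pool.Agent.Lib_helper28.FROB

section

variable {K : Type*} [Field K]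

/-- the rational prime below -/
noncomputable def pr (v : HeightOneSpectrum (𝓞 K)) : ℕ := absNorm (v.asIdeal.under ℤ)

/-- the residue degree over the rational prime below -/
noncomputable def dg (v : HeightOneSpectrum (𝓞 K)) : ℕ := v.asIdeal.inertiaDeg ℤ

theorem pr_prime (v : HeightOneSpectrum (𝓞 K)) : (pr v).Prime := by
  have : NeZero v.asIdeal := ⟨v.ne_bot⟩
  exact Nat.absNorm_under_prime v.asIdeal

theorem under_eq (v : HeightOneSpectrum (𝓞 K)) : v.asIdeal.under ℤ = span {(pr v : ℤ)} :=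
  (Int.ideal_span_absNorm_eq_self _).symm

/-- primes above `p` -/
noncomputable def toOver (p : ℕ) (v : {v : HeightOneSpectrum (𝓞 K) // pr v = p}) :
    (span {(p : ℤ)}).primesOver (𝓞 K) :=
  ⟨v.1.asIdeal, v.1.isPrime, ⟨by rw [under_eq, v.2]⟩⟩

theorem toOver_inj (p : ℕ) : Function.Injective (toOver (K := K) p) := by
  intro v w h
  apply Subtype.ext
  apply HeightOneSpectrum.ext
  exact congrArg Subtype.val h

end

variable {K : Type*} [Field K] [NumberField K]

theorem norm_eq (v : HeightOneSpectrum (𝓞 K)) : absNorm v.asIdeal = pr v ^ dg v := by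
  have : v.asIdeal.LiesOver (span {(pr v : ℤ)}) := Int.liesOver_span_absNorm _
  have h := Ideal.natAbs_pow_inertiaDeg (pr v : ℤ) v.asIdeal
  rw [← h, Int.natAbs_natCast]
  rfl

theorem dg_pos (v : HeightOneSpectrum (𝓞 K)) : 0 < dg v := Ideal.inertiaDeg_pos _ _

theorem finite_over (p : ℕ) [Fact p.Prime] : Finite ((span {(p : ℤ)}).primesOver (𝓞 K)) :=
  (Algebra.QuasiFinite.finite_primesOver (span {(p : ℤ)})).to_subtype

theorem fiber_finite (p : ℕ) : Finite {v : HeightOneSpectrum (𝓞 K) // pr v = p} := by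
  by_cases hp : p.Prime
  · have := Fact.mk hp
    have := finite_over (K := K) p
    exact Finite.of_injective _ (toOver_inj p)
  · have : IsEmpty {v : HeightOneSpectrum (𝓞 K) // pr v = p} := ⟨fun v => hp (v.2 ▸ pr_prime v.1)⟩
    infer_instance

theorem card_fiber_le (p : ℕ) :
    Nat.card {v : HeightOneSpectrum (𝓞 K) // pr v = p} ≤ Module.finrank ℚ K := by
  by_cases hp : p.Prime
  · have := Fact.mk hp
    have := finite_over (K := K) p
    refine (Nat.card_le_card_of_injective _ (toOver_inj p)).trans ?_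
    have := Fintype.ofFinite ((span {(p : ℤ)}).primesOver (𝓞 K))
    rw [← RingOfIntegers.rank K, ← Ideal.sum_ramification_inertia_eq_finrank
      (span {(p : ℤ)}) (𝓞 K), Nat.card_eq_fintype_card, ← Finset.card_univ,
      Finset.card_eq_sum_ones]
    refine Finset.sum_le_sum fun q _ => ?_
    exact Nat.one_le_iff_ne_zero.mpr (Nat.mul_ne_zero (Ideal.ramificationIdx_pos _ _).ne'
      (Ideal.inertiaDeg_pos _ _).ne')
  · have : IsEmpty {v : HeightOneSpectrum (𝓞 K) // pr v = p} := ⟨fun v => hp (v.2 ▸ pr_prime v.1)⟩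
    simp

/-- Sums over the prime ideals of functions of the rational prime below. -/
theorem tsum_pr_le (f : ℕ → ℝ≥0∞) :
    ∑' v : HeightOneSpectrum (𝓞 K), f (pr v) ≤ Module.finrank ℚ K * ∑' p : Nat.Primes, f p := by
  let g : HeightOneSpectrum (𝓞 K) → Nat.Primes := fun v => ⟨pr v, pr_prime v⟩
  rw [← ENNReal.tsum_fiberwise (fun v : HeightOneSpectrum (𝓞 K) => f (pr v)) g,
    ← ENNReal.tsum_mul_left]
  refine ENNReal.tsum_le_tsum fun p => ?_
  have h1 : ∀ v : ↑(g ⁻¹' {p}), f (pr v.1) = f p := by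
    intro v
    have : g v.1 = p := v.2
    exact congrArg (fun q : Nat.Primes => f (q : ℕ)) this
  have hfin := fiber_finite (K := K) p
  let e : ↑(g ⁻¹' {p}) ≃ {v : HeightOneSpectrum (𝓞 K) // pr v = (p : ℕ)} :=
    Equiv.subtypeEquivRight fun v => Subtype.ext_iff
  have : Finite ↑(g ⁻¹' {p}) := Finite.of_equiv _ e.symm
  have := Fintype.ofFinite ↑(g ⁻¹' {p})
  rw [tsum_congr h1, tsum_fintype, Finset.sum_const, Finset.card_univ, nsmul_eq_mul,
    ← Nat.card_eq_fintype_card, Nat.card_congr e]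
  gcongr
  exact card_fiber_le _

end Pool.Agent.Lib_helper28.FROB

end

section

/-!
# The two inequalities of the Euler product of the Dedekind zeta function
-/

open NumberField IsDedekindDomain Ideal
open scoped ENNReal

namespace Pool.Agent.Lib_helper28.FROB

variable {K : Type*} [Field K] [NumberField K]

/-- `N(I)^(-s)` -/
noncomputable def F (s : ℝ) (I : Ideal (𝓞 K)) : ℝ≥0∞ := ENNReal.ofReal ((absNorm I : ℝ) ^ (-s))

/-- the sum over all nonzero ideals -/
noncomputable def Z (K : Type*) [Field K] [NumberField K] (s : ℝ) : ℝ≥0∞ :=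
  ∑' I : {I : Ideal (𝓞 K) // I ≠ ⊥}, F s I.1

/-- `N(v)^(-s)` -/
noncomputable def x (s : ℝ) (v : HeightOneSpectrum (𝓞 K)) : ℝ := (absNorm v.asIdeal : ℝ) ^ (-s)

theorem F_one (s : ℝ) : F s (1 : Ideal (𝓞 K)) = 1 := by
  simp [F]

theorem F_mul (s : ℝ) (I J : Ideal (𝓞 K)) : F s (I * J) = F s I * F s J := by
  unfold F
  rw [map_mul, Nat.cast_mul, Real.mul_rpow (Nat.cast_nonneg _) (Nat.cast_nonneg _),
    ENNReal.ofReal_mul (Real.rpow_nonneg (Nat.cast_nonneg _) _)]

theorem F_pow (s : ℝ) (I : Ideal (𝓞 K)) (k : ℕ) : F s (I ^ k) = F s I ^ k := by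
  induction k with
  | zero => rw [pow_zero, pow_zero, F_one]
  | succ k ih => rw [pow_succ, pow_succ, F_mul, ih]

theorem F_prod (s : ℝ) (t : Finset (HeightOneSpectrum (𝓞 K))) :
    F s (∏ v ∈ t, v.asIdeal) = ∏ v ∈ t, F s v.asIdeal := by
  classical
  induction t using Finset.induction_on with
  | empty => rw [Finset.prod_empty, Finset.prod_empty, F_one]
  | insert v t hv ih => rw [Finset.prod_insert hv, Finset.prod_insert hv, F_mul, ih]

theorem dvd_asIdeal {v w : HeightOneSpectrum (𝓞 K)} (h : v.asIdeal ∣ w.asIdeal) : v = w := by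
  apply HeightOneSpectrum.ext
  have h1 : w.asIdeal ≤ v.asIdeal := Ideal.dvd_iff_le.mp h
  exact (w.isMaximal.eq_of_le v.isPrime.ne_top h1).symm

theorem dvd_prod {v : HeightOneSpectrum (𝓞 K)} {t : Finset (HeightOneSpectrum (𝓞 K))} :
    v.asIdeal ∣ ∏ w ∈ t, w.asIdeal ↔ v ∈ t := by
  constructor
  · intro h
    obtain ⟨w, hw, h'⟩ := (Prime.dvd_finsetProd_iff v.prime _).mp h
    rwa [dvd_asIdeal h']
  · intro h
    exact Finset.dvd_prod_of_mem _ h

omit [NumberField K] in
theorem prod_ne_bot (t : Finset (HeightOneSpectrum (𝓞 K))) : ∏ w ∈ t, w.asIdeal ≠ ⊥ := by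
  rw [← Ideal.zero_eq_bot, Finset.prod_ne_zero_iff]
  intro w _
  exact w.ne_bot

theorem euler_lower (s : ℝ) (t : Finset (HeightOneSpectrum (𝓞 K))) :
    ∏ v ∈ t, (1 + F s v.asIdeal) ≤ Z K s := by
  classical
  rw [Finset.prod_one_add]
  let φ : Finset (HeightOneSpectrum (𝓞 K)) → {I : Ideal (𝓞 K) // I ≠ ⊥} :=
    fun u => ⟨∏ v ∈ u, v.asIdeal, prod_ne_bot u⟩
  have hφ : Function.Injective φ := by
    intro u u' h
    have h' : ∏ v ∈ u, v.asIdeal = ∏ v ∈ u', v.asIdeal := congrArg Subtype.val h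
    ext v
    rw [← dvd_prod, h', dvd_prod]
  have h1 : ∀ u ∈ t.powerset, ∏ v ∈ u, F s v.asIdeal = F s (φ u).1 := fun u _ => (F_prod s u).symm
  rw [Finset.sum_congr rfl h1, ← Finset.sum_image (f := fun I : {I : Ideal (𝓞 K) // I ≠ ⊥} =>
    F s I.1) (s := t.powerset) (g := φ) (fun a _ b _ h => hφ h)]
  exact ENNReal.sum_le_tsum _

/-- the nonzero ideals all of whose prime divisors are in `t` -/
abbrev AS (t : Finset (HeightOneSpectrum (𝓞 K))) : Type _ :=
  {I : Ideal (𝓞 K) // I ≠ ⊥ ∧ ∀ v : HeightOneSpectrum (𝓞 K), v.asIdeal ∣ I → v ∈ t}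

theorem AS_insert {t : Finset (HeightOneSpectrum (𝓞 K))} {v : HeightOneSpectrum (𝓞 K)}
    [DecidableEq (HeightOneSpectrum (𝓞 K))] (I : AS (insert v t)) :
    ∃ (J : AS t) (k : ℕ), I.1 = J.1 * v.asIdeal ^ k := by
  have hfin : FiniteMultiplicity v.asIdeal I.1 :=
    FiniteMultiplicity.of_not_isUnit v.prime.not_isUnit I.2.1
  obtain ⟨c, hc, hnd⟩ := hfin.exists_eq_pow_mul_and_not_dvd
  refine ⟨⟨c, ?_, ?_⟩, multiplicity v.asIdeal I.1, ?_⟩
  · rintro rfl
    rw [Ideal.mul_bot] at hc
    exact I.2.1 hc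
  · intro w hw
    have h1 : w.asIdeal ∣ I.1 := hc ▸ hw.mul_left _
    rcases Finset.mem_insert.mp (I.2.2 w h1) with h2 | h2
    · subst h2
      exact absurd hw hnd
    · exact h2
  · rw [mul_comm]
    exact hc

theorem euler_upper_aux (s : ℝ) (t : Finset (HeightOneSpectrum (𝓞 K))) :
    ∑' I : AS t, F s I.1 ≤ ∏ v ∈ t, (1 - F s v.asIdeal)⁻¹ := by
  classical
  induction t using Finset.induction_on with
  | empty =>
    have h1 : ∀ I : AS (∅ : Finset (HeightOneSpectrum (𝓞 K))), I.1 = 1 := by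
      intro I
      by_contra h
      obtain ⟨P, hP, hle⟩ := Ideal.exists_le_maximal I.1 (by rwa [← Ideal.one_eq_top])
      have hPb : P ≠ ⊥ := by
        rintro rfl
        exact I.2.1 (le_bot_iff.mp hle)
      exact absurd (I.2.2 ⟨P, hP.isPrime, hPb⟩ (Ideal.dvd_iff_le.mpr hle)) (Finset.notMem_empty _)
    have : Subsingleton (AS (∅ : Finset (HeightOneSpectrum (𝓞 K)))) :=
      ⟨fun a b => Subtype.ext ((h1 a).trans (h1 b).symm)⟩
    let e : AS (∅ : Finset (HeightOneSpectrum (𝓞 K))) :=
      ⟨1, one_ne_zero, fun v hv => absurd (isUnit_of_dvd_one hv) v.prime.not_isUnit⟩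
    rw [tsum_eq_single e (fun b hb => absurd (Subsingleton.elim b e) hb), Finset.prod_empty]
    exact (F_one s).le
  | insert v t hv ih =>
    rw [Finset.prod_insert hv]
    let φ : AS t × ℕ → AS (insert v t) := fun p => ⟨p.1.1 * v.asIdeal ^ p.2, by
      refine ⟨?_, ?_⟩
      · exact mul_ne_zero (M₀ := Ideal (𝓞 K)) p.1.2.1 (pow_ne_zero _ v.ne_bot)
      · intro w hw
        rcases w.prime.dvd_or_dvd hw with h | h
        · exact Finset.mem_insert_of_mem (p.1.2.2 w h)
        · rw [dvd_asIdeal (w.prime.dvd_of_dvd_pow h)]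
          exact Finset.mem_insert_self _ _⟩
    have hφ : Function.Surjective φ := by
      intro I
      obtain ⟨J, k, h⟩ := AS_insert I
      exact ⟨(J, k), Subtype.ext h.symm⟩
    refine (ENNReal.tsum_le_tsum_comp_of_surjective hφ _).trans ?_
    have h2 : ∀ p : AS t × ℕ, F s (φ p).1 = F s p.1.1 * F s v.asIdeal ^ p.2 := by
      intro p
      show F s (p.1.1 * v.asIdeal ^ p.2) = _
      rw [F_mul, F_pow]
    rw [tsum_congr h2, ENNReal.tsum_prod']
    simp_rw [ENNReal.tsum_mul_left, ENNReal.tsum_mul_right, ENNReal.tsum_geometric]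
    rw [mul_comm]
    gcongr

theorem euler_upper (s : ℝ) (B : ℝ≥0∞)
    (hB : ∀ t : Finset (HeightOneSpectrum (𝓞 K)), ∏ v ∈ t, (1 - F s v.asIdeal)⁻¹ ≤ B) :
    Z K s ≤ B := by
  classical
  unfold Z
  rw [ENNReal.tsum_eq_iSup_sum]
  refine iSup_le fun T => ?_
  let t : Finset (HeightOneSpectrum (𝓞 K)) :=
    T.biUnion fun I => (Ideal.finite_factors I.2).toFinset
  let ψ : {I // I ∈ T} → AS t := fun I => ⟨I.1.1, I.1.2, fun v hv =>
    Finset.mem_biUnion.mpr ⟨I.1, I.2, (Set.Finite.mem_toFinset _).mpr hv⟩⟩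
  have hψ : Function.Injective ψ := by
    intro a b h
    have h' : (ψ a).1 = (ψ b).1 := congrArg Subtype.val h
    exact Subtype.ext (Subtype.ext h')
  have h1 : ∑ I ∈ T, F s I.1 = ∑ I ∈ T.attach, F s (ψ I).1 :=
    (Finset.sum_attach T fun I => F s I.1).symm
  rw [h1, ← Finset.sum_image (f := fun I : AS t => F s I.1) (s := T.attach) (g := ψ)
    (fun a _ b _ h => hψ h)]
  exact ((ENNReal.sum_le_tsum _).trans (euler_upper_aux s t)).trans (hB t)

end Pool.Agent.Lib_helper28.FROB

end

section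

/-!
# The logarithm of the Dedekind zeta function and the sum over the prime ideals
-/

open NumberField IsDedekindDomain Ideal Filter Topology
open scoped ENNReal

namespace Pool.Agent.Lib_helper28.FROB

theorem inv_one_sub_le {x : ℝ} (h0 : 0 ≤ x) (h1 : x ≤ 1 / 2) :
    (1 - x)⁻¹ ≤ Real.exp (x + x ^ 2) := by
  have hpos : 0 < 1 - x := by linarith
  rw [inv_le_iff_one_le_mul₀ hpos]
  have h2 := Real.quadratic_le_exp_of_nonneg (x := x + x ^ 2) (by positivity)
  have h3 : 1 ≤ (1 + (x + x ^ 2) + (x + x ^ 2) ^ 2 / 2) * (1 - x) := by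
    have h4 : (1 + (x + x ^ 2) + (x + x ^ 2) ^ 2 / 2) * (1 - x) =
        1 + x ^ 2 / 2 * (1 - x - x ^ 2 - x ^ 3) := by ring
    rw [h4]
    have h5 : x ^ 2 ≤ 1 / 4 := by nlinarith
    have h6 : x ^ 3 ≤ 1 / 8 := by nlinarith
    nlinarith [sq_nonneg x]
  calc (1 : ℝ) ≤ (1 + (x + x ^ 2) + (x + x ^ 2) ^ 2 / 2) * (1 - x) := h3
    _ ≤ Real.exp (x + x ^ 2) * (1 - x) := by gcongr

theorem exp_sub_le {x : ℝ} (h0 : 0 ≤ x) (h1 : x ≤ 1) : Real.exp (x - x ^ 2) ≤ 1 + x := by
  have h2 : 0 < 1 - (x - x ^ 2) := by nlinarith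
  have h3 : 1 - (x - x ^ 2) ≤ Real.exp (-(x - x ^ 2)) := Real.one_sub_le_exp_neg _
  have h4 : Real.exp (x - x ^ 2) * Real.exp (-(x - x ^ 2)) = 1 := by
    rw [← Real.exp_add]; simp
  have h5 : 1 ≤ (1 + x) * (1 - (x - x ^ 2)) := by
    have : (1 + x) * (1 - (x - x ^ 2)) = 1 + x ^ 3 := by ring
    rw [this]
    have : 0 ≤ x ^ 3 := by positivity
    linarith
  have h6 : Real.exp (x - x ^ 2) * (1 - (x - x ^ 2)) ≤ (1 + x) * (1 - (x - x ^ 2)) := by
    refine le_trans ?_ h5
    exact (mul_le_mul_of_nonneg_left h3 (Real.exp_pos _).le).trans h4.le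
  exact le_of_mul_le_mul_right h6 h2

variable {K : Type*} [Field K] [NumberField K]

theorem norm_ge (v : HeightOneSpectrum (𝓞 K)) : 2 ≤ absNorm v.asIdeal := by
  rw [norm_eq]
  exact (pr_prime v).two_le.trans (Nat.le_self_pow (dg_pos v).ne' _)

theorem norm_ge' (v : HeightOneSpectrum (𝓞 K)) : (2 : ℝ) ≤ absNorm v.asIdeal := by
  exact_mod_cast norm_ge v

theorem x_pos (s : ℝ) (v : HeightOneSpectrum (𝓞 K)) : 0 < x s v :=
  Real.rpow_pos_of_pos (by linarith [norm_ge' v]) _

theorem x_anti {s t : ℝ} (h : s ≤ t) (v : HeightOneSpectrum (𝓞 K)) : x t v ≤ x s v :=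
  Real.rpow_le_rpow_of_exponent_le (by linarith [norm_ge' v]) (by linarith)

theorem x_le {s : ℝ} (h : 1 ≤ s) (v : HeightOneSpectrum (𝓞 K)) : x s v ≤ 1 / 2 := by
  refine (x_anti h v).trans ?_
  unfold x
  rw [Real.rpow_neg_one, one_div]
  exact inv_anti₀ (by norm_num) (norm_ge' v)

theorem F_eq (s : ℝ) (v : HeightOneSpectrum (𝓞 K)) : F s v.asIdeal = ENNReal.ofReal (x s v) := rfl

/-- `p ^ (-s)` for the rational prime below -/
theorem x_le_pr {s : ℝ} (h : 0 ≤ s) (v : HeightOneSpectrum (𝓞 K)) :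
    x s v ≤ ((pr v : ℝ)) ^ (-s) := by
  unfold x
  rw [norm_eq]
  have h1 : (1 : ℝ) ≤ pr v := by exact_mod_cast (pr_prime v).one_le
  refine Real.rpow_le_rpow_of_nonpos (by linarith) ?_ (by linarith)
  exact_mod_cast Nat.le_self_pow (dg_pos v).ne' _

theorem summable_pr {s : ℝ} (h : 1 < s) :
    Summable fun v : HeightOneSpectrum (𝓞 K) => ((pr v : ℝ)) ^ (-s) := by
  have h1 : Summable fun p : Nat.Primes => ((p : ℝ)) ^ (-s) :=
    Nat.Primes.summable_rpow.mpr (by linarith)
  have h2 : ∑' v : HeightOneSpectrum (𝓞 K), ENNReal.ofReal (((pr v : ℝ)) ^ (-s)) ≠ ∞ := by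
    refine ne_top_of_le_ne_top ?_ (tsum_pr_le fun n => ENNReal.ofReal ((n : ℝ) ^ (-s)))
    refine ENNReal.mul_ne_top (ENNReal.natCast_ne_top _) ?_
    exact h1.tsum_ofReal_ne_top
  refine (ENNReal.summable_toReal h2).congr fun v => ?_
  rw [ENNReal.toReal_ofReal (by positivity)]

theorem summable_x {s : ℝ} (h : 1 < s) : Summable (x (K := K) s) :=
  Summable.of_nonneg_of_le (fun v => (x_pos s v).le) (x_le_pr (by linarith)) (summable_pr h)

theorem x_sq (s : ℝ) (v : HeightOneSpectrum (𝓞 K)) : x s v ^ 2 = x (2 * s) v := by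
  unfold x
  rw [← Real.rpow_natCast, ← Real.rpow_mul (Nat.cast_nonneg _)]
  congr 1
  push_cast
  ring

theorem x_sq_le {s : ℝ} (h : 1 ≤ s) (v : HeightOneSpectrum (𝓞 K)) : x s v ^ 2 ≤ x 2 v := by
  rw [x_sq]
  exact x_anti (by linarith) v

theorem sum_sq_le {s : ℝ} (h : 1 ≤ s) (t : Finset (HeightOneSpectrum (𝓞 K))) :
    ∑ v ∈ t, x s v ^ 2 ≤ ∑' v : HeightOneSpectrum (𝓞 K), x 2 v :=
  (Finset.sum_le_sum fun v _ => x_sq_le h v).trans
    ((summable_x (by norm_num)).sum_le_tsum _ fun v _ => (x_pos 2 v).le)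

theorem Z_le {s : ℝ} (h : 1 < s) : Z K s ≤ ENNReal.ofReal (Real.exp
    (∑' v : HeightOneSpectrum (𝓞 K), x s v + ∑' v : HeightOneSpectrum (𝓞 K), x 2 v)) := by
  refine euler_upper s _ fun t => ?_
  have h1 : ∀ v ∈ t, (1 - F s v.asIdeal)⁻¹ ≤ ENNReal.ofReal (Real.exp (x s v + x s v ^ 2)) := by
    intro v _
    have h2 := x_le h.le v
    have h3 := x_pos s v
    rw [F_eq, ← ENNReal.ofReal_one, ← ENNReal.ofReal_sub _ h3.le,
      ← ENNReal.ofReal_inv_of_pos (by linarith)]
    exact ENNReal.ofReal_le_ofReal (inv_one_sub_le h3.le h2)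
  refine (Finset.prod_le_prod' h1).trans ?_
  rw [← ENNReal.ofReal_prod_of_nonneg (fun v _ => (Real.exp_pos _).le), ← Real.exp_sum]
  refine ENNReal.ofReal_le_ofReal (Real.exp_le_exp.mpr ?_)
  rw [Finset.sum_add_distrib]
  exact add_le_add ((summable_x h).sum_le_tsum _ fun v _ => (x_pos s v).le) (sum_sq_le h.le t)

theorem le_Z {s : ℝ} (h : 1 < s) : ENNReal.ofReal (Real.exp
    (∑' v : HeightOneSpectrum (𝓞 K), x s v - ∑' v : HeightOneSpectrum (𝓞 K), x 2 v)) ≤ Z K s := by
  have hc : Tendsto (fun t : Finset (HeightOneSpectrum (𝓞 K)) => ENNReal.ofReal (Real.exp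
      (∑ v ∈ t, x s v - ∑' v : HeightOneSpectrum (𝓞 K), x 2 v))) atTop (𝓝 (ENNReal.ofReal (Real.exp
      (∑' v : HeightOneSpectrum (𝓞 K), x s v - ∑' v : HeightOneSpectrum (𝓞 K), x 2 v)))) := by
    refine ENNReal.tendsto_ofReal ?_
    exact (Real.continuous_exp.tendsto _).comp ((summable_x h).hasSum.sub_const _)
  refine le_of_tendsto' hc fun t => ?_
  refine le_trans ?_ (euler_lower s t)
  have h1 : ∀ v ∈ t, ENNReal.ofReal (Real.exp (x s v - x s v ^ 2)) ≤ 1 + F s v.asIdeal := by
    intro v _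
    have h2 := x_le h.le v
    have h3 := x_pos s v
    rw [F_eq, ← ENNReal.ofReal_one, ← ENNReal.ofReal_add (by norm_num) h3.le]
    exact ENNReal.ofReal_le_ofReal (exp_sub_le h3.le (by linarith))
  refine le_trans ?_ (Finset.prod_le_prod' h1)
  rw [← ENNReal.ofReal_prod_of_nonneg (fun v _ => (Real.exp_pos _).le), ← Real.exp_sum]
  refine ENNReal.ofReal_le_ofReal (Real.exp_le_exp.mpr ?_)
  rw [Finset.sum_sub_distrib]
  exact sub_le_sub_left (sum_sq_le h.le t) _

end Pool.Agent.Lib_helper28.FROB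

end

section

/-!
# The sum over the prime ideals near `s = 1`
-/

open NumberField IsDedekindDomain Ideal Filter Topology Asymptotics
open scoped ENNReal

namespace Pool.Agent.Lib_helper28.FROB

variable (K : Type*) [Field K] [NumberField K]

/-- The terms of the Dedekind zeta function. -/
noncomputable def cf (s : ℝ) (n : ℕ) : ℝ :=
  if n = 0 then 0 else (Nat.card {I : Ideal (𝓞 K) // absNorm I = n} : ℝ) * (n : ℝ) ^ (-s)

theorem cf_nonneg (s : ℝ) (n : ℕ) : 0 ≤ cf K s n := by
  unfold cf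
  split_ifs
  · exact le_rfl
  · positivity

theorem Z_eq (s : ℝ) : Z K s = ∑' n : ℕ, ENNReal.ofReal (cf K s n) := by
  let g : {I : Ideal (𝓞 K) // I ≠ ⊥} → ℕ := fun I => absNorm I.1
  unfold Z
  rw [← ENNReal.tsum_fiberwise (fun I : {I : Ideal (𝓞 K) // I ≠ ⊥} => F s I.1) g]
  refine tsum_congr fun n => ?_
  have h1 : ∀ I : ↑(g ⁻¹' {n}), F s I.1.1 = ENNReal.ofReal ((n : ℝ) ^ (-s)) := by
    intro I
    have : absNorm I.1.1 = n := I.2
    unfold F
    rw [this]
  rw [tsum_congr h1]
  unfold cf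
  by_cases hn : n = 0
  · subst hn
    have : IsEmpty ↑(g ⁻¹' {0}) := ⟨fun I => I.1.2 (absNorm_eq_zero_iff.mp I.2)⟩
    simp
  · let e : ↑(g ⁻¹' {n}) ≃ {I : Ideal (𝓞 K) // absNorm I = n} :=
      { toFun := fun I => ⟨I.1.1, I.2⟩
        invFun := fun I => ⟨⟨I.1, by
          rintro h
          apply hn
          rw [← I.2, h, absNorm_bot]⟩, I.2⟩
        left_inv := fun I => rfl
        right_inv := fun I => rfl }
    have hfin : Finite {I : Ideal (𝓞 K) // absNorm I = n} :=
      (finite_setOfPred_absNorm_eq (S := 𝓞 K) n).to_subtype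
    have : Finite ↑(g ⁻¹' {n}) := Finite.of_equiv _ e.symm
    have := Fintype.ofFinite ↑(g ⁻¹' {n})
    rw [if_neg hn, tsum_fintype, Finset.sum_const, Finset.card_univ, nsmul_eq_mul,
      ← Nat.card_eq_fintype_card, Nat.card_congr e, ENNReal.ofReal_mul (Nat.cast_nonneg _),
      ENNReal.ofReal_natCast]

theorem zeta_eq (s : ℝ) : dedekindZeta K (s : ℂ) = (((Z K s).toReal : ℝ) : ℂ) := by
  rw [Z_eq, ENNReal.tsum_toReal_eq (fun n => ENNReal.ofReal_ne_top), Complex.ofReal_tsum]
  unfold dedekindZeta LSeries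
  refine tsum_congr fun n => ?_
  rw [ENNReal.toReal_ofReal (cf_nonneg K s n)]
  unfold LSeries.term cf
  split_ifs with hn
  · simp
  · rw [Complex.ofReal_mul, Complex.ofReal_natCast, div_eq_mul_inv, ← Complex.cpow_neg,
      Complex.ofReal_cpow (Nat.cast_nonneg _)]
    simp

theorem tendsto_Z : Tendsto (fun s : ℝ => (s - 1) * (Z K s).toReal) (𝓝[>] 1)
    (𝓝 (dedekindZeta_residue K)) := by
  have h := tendsto_sub_one_mul_dedekindZeta_nhdsGT K
  have h2 := (Complex.continuous_re.tendsto _).comp h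
  refine (h2.congr fun s => ?_)
  simp only [Function.comp_apply]
  rw [zeta_eq, ← Complex.ofReal_one, ← Complex.ofReal_sub, ← Complex.ofReal_mul,
    Complex.ofReal_re]

/-- the sum over the prime ideals -/
theorem isBigO_sum : (fun s : ℝ => ∑' v : HeightOneSpectrum (𝓞 K), x s v - Real.log (1 / (s - 1)))
    =O[𝓝[>] 1] (fun _ => (1 : ℝ)) := by
  have hρ := dedekindZeta_residue_pos K
  set ρ := dedekindZeta_residue K
  have h1 : ∀ᶠ s : ℝ in 𝓝[>] 1, ρ / 2 < (s - 1) * (Z K s).toReal :=
    (tendsto_Z K).eventually (lt_mem_nhds (by linarith))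
  have h2 : ∀ᶠ s : ℝ in 𝓝[>] 1, (s - 1) * (Z K s).toReal < 2 * ρ :=
    (tendsto_Z K).eventually (gt_mem_nhds (by linarith))
  set c := ∑' v : HeightOneSpectrum (𝓞 K), x 2 v
  refine IsBigO.of_bound (c + |Real.log (ρ / 2)| + |Real.log (2 * ρ)|) ?_
  filter_upwards [h1, h2, self_mem_nhdsWithin] with s hs1 hs2 hs
  have hs0 : 0 < s - 1 := sub_pos.mpr hs
  have hc : 0 ≤ c := tsum_nonneg fun v => (x_pos 2 v).le
  have hZtop : Z K s ≠ ∞ := ne_top_of_le_ne_top ENNReal.ofReal_ne_top (Z_le hs)
  have hZpos : 0 < (Z K s).toReal := by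
    by_contra hneg
    have : (s - 1) * (Z K s).toReal ≤ 0 := mul_nonpos_of_nonneg_of_nonpos hs0.le (not_lt.mp hneg)
    linarith
  set X := ∑' v : HeightOneSpectrum (𝓞 K), x s v
  have hup : (Z K s).toReal ≤ Real.exp (X + c) := by
    have := ENNReal.toReal_mono ENNReal.ofReal_ne_top (Z_le (K := K) hs)
    rwa [ENNReal.toReal_ofReal (Real.exp_pos _).le] at this
  have hlo : Real.exp (X - c) ≤ (Z K s).toReal := by
    have := ENNReal.toReal_mono hZtop (le_Z (K := K) hs)
    rwa [ENNReal.toReal_ofReal (Real.exp_pos _).le] at this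
  have hup' : Real.log (Z K s).toReal ≤ X + c := by
    rw [← Real.log_exp (X + c)]
    exact Real.log_le_log hZpos hup
  have hlo' : X - c ≤ Real.log (Z K s).toReal := by
    rw [← Real.log_exp (X - c)]
    exact Real.log_le_log (Real.exp_pos _) hlo
  have hlog : Real.log ((s - 1) * (Z K s).toReal) =
      Real.log (Z K s).toReal - Real.log (1 / (s - 1)) := by
    rw [Real.log_mul hs0.ne' hZpos.ne', one_div, Real.log_inv]
    ring
  have ha : Real.log (ρ / 2) ≤ Real.log ((s - 1) * (Z K s).toReal) :=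
    Real.log_le_log (by linarith) hs1.le
  have hb : Real.log ((s - 1) * (Z K s).toReal) ≤ Real.log (2 * ρ) :=
    Real.log_le_log (by linarith) hs2.le
  rw [norm_one, mul_one, Real.norm_eq_abs, abs_le]
  have ha' := neg_abs_le (Real.log (ρ / 2))
  have hb' := le_abs_self (Real.log (2 * ρ))
  have ha'' := abs_nonneg (Real.log (ρ / 2))
  have hb'' := abs_nonneg (Real.log (2 * ρ))
  constructor <;> linarith

end Pool.Agent.Lib_helper28.FROB

end

section

/-!
# Frobenius: the primes above a prime of degree one of a fixed field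
-/

open NumberField IsDedekindDomain Ideal MulAction
open scoped Pointwise

namespace Pool.Agent.Lib_helper28.FROB

variable {M : Type*} [Field M] [NumberField M] [IsGalois ℚ M]

/-- the decomposition group -/
abbrev Dec (w : HeightOneSpectrum (𝓞 M)) : Subgroup Gal(M/ℚ) := stabilizer Gal(M/ℚ) w.asIdeal

/-- The prime of the fixed field of `H` below `w`. -/
noncomputable abbrev dn (H : Subgroup Gal(M/ℚ)) (w : HeightOneSpectrum (𝓞 M)) :
    HeightOneSpectrum (𝓞 (Fix H)) :=
  w.under (𝓞 (Fix H))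

set_option linter.unusedSectionVars false

instance liesOver_dn (H : Subgroup Gal(M/ℚ)) (w : HeightOneSpectrum (𝓞 M)) :
    w.asIdeal.LiesOver (dn H w).asIdeal := ⟨rfl⟩

theorem pr_dn (H : Subgroup Gal(M/ℚ)) (w : HeightOneSpectrum (𝓞 M)) : pr (dn H w) = pr w := by
  unfold pr
  rw [HeightOneSpectrum.under_asIdeal, Ideal.under_under]

theorem under_ne_bot (w : HeightOneSpectrum (𝓞 M)) : w.asIdeal.under ℤ ≠ ⊥ := by
  rw [under_eq]
  intro h
  rw [Ideal.span_singleton_eq_bot] at h
  exact (pr_prime w).ne_zero (by exact_mod_cast h)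

theorem card_dec (w : HeightOneSpectrum (𝓞 M)) (h : w.asIdeal.ramificationIdx ℤ = 1) :
    Nat.card (Dec w) = w.asIdeal.inertiaDeg ℤ := by
  have : w.asIdeal.IsMaximal := w.isMaximal
  have : (w.asIdeal.under ℤ).IsMaximal := Ideal.IsMaximal.under ℤ w.asIdeal
  exact card_stab Gal(M/ℚ) ℤ (𝓞 M) w.asIdeal (w.asIdeal.under ℤ) (under_ne_bot w) h

theorem ram_dn (H : Subgroup Gal(M/ℚ)) (w : HeightOneSpectrum (𝓞 M))
    (h : w.asIdeal.ramificationIdx ℤ = 1) : w.asIdeal.ramificationIdx (𝓞 (Fix H)) = 1 := by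
  rw [Ideal.ramificationIdx_tower (R := ℤ) (dn H w).asIdeal w.asIdeal] at h
  exact Nat.eq_one_of_mul_eq_one_left h

theorem card_dec_inf (H : Subgroup Gal(M/ℚ)) (w : HeightOneSpectrum (𝓞 M))
    (h : w.asIdeal.ramificationIdx ℤ = 1) :
    Nat.card ((Dec w ⊓ H : Subgroup Gal(M/ℚ))) = w.asIdeal.inertiaDeg (𝓞 (Fix H)) := by
  rw [← card_stab_sub]
  have : (dn H w).asIdeal.IsMaximal := (dn H w).isMaximal
  exact card_stab H (𝓞 (Fix H)) (𝓞 M) w.asIdeal (dn H w).asIdeal (dn H w).ne_bot (ram_dn H w h)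

theorem dg_dn (H : Subgroup Gal(M/ℚ)) (w : HeightOneSpectrum (𝓞 M)) :
    w.asIdeal.inertiaDeg ℤ = dg (dn H w) * w.asIdeal.inertiaDeg (𝓞 (Fix H)) :=
  Ideal.inertiaDeg_tower (R := ℤ) (dn H w).asIdeal w.asIdeal

/-- The prime of the fixed field of `H` below `w` has degree one iff the decomposition group of `w`
is contained in `H`. -/
theorem deg_one_iff (H : Subgroup Gal(M/ℚ)) (w : HeightOneSpectrum (𝓞 M))
    (h : w.asIdeal.ramificationIdx ℤ = 1) : dg (dn H w) = 1 ↔ Dec w ≤ H := by
  have h1 := card_dec w h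
  have h2 := card_dec_inf H w h
  have h3 := dg_dn H w
  constructor
  · intro hd
    rw [hd, one_mul] at h3
    have h4 : Dec w ⊓ H = Dec w := by
      refine Subgroup.eq_of_le_of_card_ge inf_le_left ?_
      rw [h1, h2, h3]
    exact inf_eq_left.mp h4
  · intro hle
    rw [inf_eq_left.mpr hle, h1, h3] at h2
    have h5 : 0 < w.asIdeal.inertiaDeg (𝓞 (Fix H)) := Ideal.inertiaDeg_pos _ _
    exact Nat.eq_of_mul_eq_mul_right h5 (by rw [h2, one_mul])

/-- the primes above `v` -/
noncomputable def fiberEquiv (H : Subgroup Gal(M/ℚ)) (v : HeightOneSpectrum (𝓞 (Fix H))) :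
    {w : HeightOneSpectrum (𝓞 M) // dn H w = v} ≃ v.asIdeal.primesOver (𝓞 M) where
  toFun w := ⟨w.1.asIdeal, w.1.isPrime, ⟨(congrArg HeightOneSpectrum.asIdeal w.2).symm⟩⟩
  invFun P := ⟨⟨P.1, P.2.1, by
    intro h0
    have := P.2.2.over
    rw [h0, Ideal.under_bot] at this
    exact v.ne_bot this⟩, by
      apply HeightOneSpectrum.ext
      exact P.2.2.over.symm⟩
  left_inv w := rfl
  right_inv P := rfl

theorem fiber_sum (H : Subgroup Gal(M/ℚ)) (v : HeightOneSpectrum (𝓞 (Fix H))) (hv : dg v = 1)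
    (hu : ∀ w : HeightOneSpectrum (𝓞 M), dn H w = v → w.asIdeal.ramificationIdx ℤ = 1) :
    ∑' w : {w : HeightOneSpectrum (𝓞 M) // dn H w = v}, (Nat.card (Dec w.1) : ℝ) =
      Nat.card H := by
  have hm : v.asIdeal.IsMaximal := v.isMaximal
  have hperf := perfect_under v.asIdeal v.ne_bot
  have h1 : ∀ w : {w : HeightOneSpectrum (𝓞 M) // dn H w = v}, (Nat.card (Dec w.1) : ℝ) =
      ((v.asIdeal.ramificationIdxIn (𝓞 M) * v.asIdeal.inertiaDegIn (𝓞 M) : ℕ) : ℝ) := by
    rintro ⟨w, rfl⟩
    have hle := (deg_one_iff H w (hu w rfl)).mp hv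
    have h2 : Nat.card (Dec w) = Nat.card (stabilizer H w.asIdeal) := by
      rw [card_stab_sub, inf_eq_left.mpr hle]
    rw [h2]
    exact congrArg Nat.cast (Ideal.card_stabilizer_eq (G := H) (dn H w).asIdeal w.asIdeal)
  rw [tsum_congr h1, tsum_const, nsmul_eq_mul, Nat.card_congr (fiberEquiv H v),
    Nat.card_coe_set_eq, ← Nat.cast_mul,
    ncard_primesOver_mul_ramificationIdxIn_mul_inertiaDegIn v.asIdeal (𝓞 M) H]

end Pool.Agent.Lib_helper28.FROB

end

section

/-!
# Frobenius: sums over the primes with decomposition group in a given subgroup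
-/

open NumberField IsDedekindDomain Ideal MulAction Filter Topology Asymptotics
open scoped Pointwise

namespace Pool.Agent.Lib_helper28.FROB

variable {M : Type*} [Field M] [NumberField M] [IsGalois ℚ M]

set_option linter.unusedSectionVars false

/-- `p` is unramified in `M` -/
def U (M : Type*) [Field M] [NumberField M] (p : ℕ) : Prop :=
  ∀ w : HeightOneSpectrum (𝓞 M), pr w = p → w.asIdeal.ramificationIdx ℤ = 1

theorem bad_finite : {p : ℕ | ¬ U M p}.Finite := by
  have hd : NumberField.discr M ≠ 0 := NumberField.discr_ne_zero M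
  refine (Nat.divisors (NumberField.discr M).natAbs).finite_toSet.subset ?_
  intro p hp
  simp only [Set.mem_ofPred_eq, U, not_forall] at hp
  obtain ⟨w, hw, hr⟩ := hp
  rw [Finset.mem_coe, Nat.mem_divisors]
  refine ⟨?_, by simpa using hd⟩
  by_contra hnd
  have hpp : p.Prime := hw ▸ pr_prime w
  have hnd' : ¬ (p : ℤ) ∣ NumberField.discr M := by
    rwa [Int.natCast_dvd]
  have h := (NumberField.not_dvd_discr_iff_forall_mem M (𝓞 M) (Nat.prime_iff_prime_int.mp hpp)).mp
    hnd' w.asIdeal w.isPrime ?_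
  · exact hr Ideal.ramificationIdx_eq_one_of_isUnramifiedAt
  · have h1 : (p : ℤ) ∈ w.asIdeal.under ℤ := by
      rw [under_eq, hw]
      exact Ideal.mem_span_singleton_self _
    rw [Ideal.mem_comap] at h1
    simpa using h1

open Classical in
/-- the term of `w` for the primes with decomposition group contained in `H` -/
noncomputable def ta (H : Subgroup Gal(M/ℚ)) (s : ℝ) (w : HeightOneSpectrum (𝓞 M)) : ℝ :=
  if U M (pr w) ∧ Dec w ≤ H then (Nat.card (Dec w) : ℝ) * (pr w : ℝ) ^ (-s) else 0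

open Classical in
/-- the term of `v` for the primes of degree one -/
noncomputable def tb (H : Subgroup Gal(M/ℚ)) (s : ℝ) (v : HeightOneSpectrum (𝓞 (Fix H))) : ℝ :=
  if U M (pr v) ∧ dg v = 1 then (pr v : ℝ) ^ (-s) else 0

open Classical in
/-- the term of `w` for the primes with decomposition group `H` -/
noncomputable def tt (H : Subgroup Gal(M/ℚ)) (s : ℝ) (w : HeightOneSpectrum (𝓞 M)) : ℝ :=
  if U M (pr w) ∧ Dec w = H then (Nat.card H : ℝ) * (pr w : ℝ) ^ (-s) else 0

theorem ta_nonneg (H : Subgroup Gal(M/ℚ)) (s : ℝ) (w : HeightOneSpectrum (𝓞 M)) :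
    0 ≤ ta H s w := by
  unfold ta; split_ifs <;> positivity

theorem tt_nonneg (H : Subgroup Gal(M/ℚ)) (s : ℝ) (w : HeightOneSpectrum (𝓞 M)) :
    0 ≤ tt H s w := by
  unfold tt; split_ifs <;> positivity

theorem tb_nonneg (H : Subgroup Gal(M/ℚ)) (s : ℝ) (v : HeightOneSpectrum (𝓞 (Fix H))) :
    0 ≤ tb H s v := by
  unfold tb; split_ifs <;> positivity

theorem summable_ta (H : Subgroup Gal(M/ℚ)) {s : ℝ} (hs : 1 < s) : Summable (ta H s) := by
  refine Summable.of_nonneg_of_le (ta_nonneg H s) (fun w => ?_)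
    ((summable_pr hs).mul_left (Nat.card Gal(M/ℚ) : ℝ))
  unfold ta
  split_ifs
  · gcongr
    exact Subgroup.card_le_card_group _
  · positivity

theorem summable_tt (H : Subgroup Gal(M/ℚ)) {s : ℝ} (hs : 1 < s) : Summable (tt H s) := by
  refine Summable.of_nonneg_of_le (tt_nonneg H s) (fun w => ?_)
    ((summable_pr hs).mul_left (Nat.card Gal(M/ℚ) : ℝ))
  unfold tt
  split_ifs
  · gcongr
    exact Subgroup.card_le_card_group _
  · positivity

theorem summable_tb (H : Subgroup Gal(M/ℚ)) {s : ℝ} (hs : 1 < s) : Summable (tb H s) := by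
  refine Summable.of_nonneg_of_le (tb_nonneg H s) (fun w => ?_) (summable_pr hs)
  unfold tb
  split_ifs
  · exact le_rfl
  · positivity

theorem sum_ta (H : Subgroup Gal(M/ℚ)) {s : ℝ} (hs : 1 < s) :
    ∑' w, ta H s w = Nat.card H * ∑' v, tb H s v := by
  rw [← (HasSum.tsum_fiberwise (summable_ta H hs).hasSum (dn H)).tsum_eq, ← tsum_mul_left]
  refine tsum_congr fun v => ?_
  by_cases hv : U M (pr v) ∧ dg v = 1
  · have h1 : ∀ w : (dn H ⁻¹' {v} : Set (HeightOneSpectrum (𝓞 M))),
        ta H s w.1 = (Nat.card (Dec w.1) : ℝ) * (pr v : ℝ) ^ (-s) := by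
      rintro ⟨w, hw⟩
      have hw' : dn H w = v := hw
      subst hw'
      rw [pr_dn] at hv
      have hr := hv.1 w rfl
      unfold ta
      rw [if_pos ⟨hv.1, (deg_one_iff H w hr).mp hv.2⟩, pr_dn]
    rw [tsum_congr h1, tsum_mul_right]
    have h2 := fiber_sum H v hv.2 (fun w hw => hv.1 w (by rw [← hw, pr_dn]))
    have h3 : ∑' w : (dn H ⁻¹' {v} : Set (HeightOneSpectrum (𝓞 M))), (Nat.card (Dec w.1) : ℝ) =
        Nat.card H := h2
    rw [h3, tb, if_pos hv]
  · have h1 : ∀ w : (dn H ⁻¹' {v} : Set (HeightOneSpectrum (𝓞 M))), ta H s w.1 = 0 := by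
      rintro ⟨w, hw⟩
      have hw' : dn H w = v := hw
      subst hw'
      unfold ta
      rw [if_neg]
      rintro ⟨h2, h3⟩
      exact hv ⟨by rw [pr_dn]; exact h2, (deg_one_iff H w (h2 w rfl)).mpr h3⟩
    rw [tsum_congr h1, tsum_zero, tb, if_neg hv, mul_zero]

theorem badv_finite (H : Subgroup Gal(M/ℚ)) :
    {v : HeightOneSpectrum (𝓞 (Fix H)) | ¬ U M (pr v)}.Finite := by
  have h1 : ∀ p : ℕ, {v : HeightOneSpectrum (𝓞 (Fix H)) | pr v = p}.Finite := fun p =>
    Set.finite_coe_iff.mp (fiber_finite p)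
  refine ((bad_finite (M := M)).biUnion fun p _ => h1 p).subset ?_
  intro v hv
  simp only [Set.mem_iUnion]
  exact ⟨pr v, hv, rfl⟩

theorem sum_tb (H : Subgroup Gal(M/ℚ)) : ∃ C : ℝ, ∀ s : ℝ, 1 < s →
    |∑' v : HeightOneSpectrum (𝓞 (Fix H)), x s v - ∑' v, tb H s v| ≤ C := by
  classical
  have hfin := badv_finite H
  let ind : HeightOneSpectrum (𝓞 (Fix H)) → ℝ := fun v => if ¬ U M (pr v) then 1 else 0
  have hind : Summable ind := by
    refine summable_of_hasFiniteSupport (hfin.subset ?_)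
    intro v hv
    by_contra h
    exact hv (if_neg h)
  have h2 : Summable fun v : HeightOneSpectrum (𝓞 (Fix H)) => ((pr v : ℝ)) ^ (-2 : ℝ) :=
    summable_pr (by norm_num)
  refine ⟨∑' v : HeightOneSpectrum (𝓞 (Fix H)), (((pr v : ℝ)) ^ (-2 : ℝ) + ind v), ?_⟩
  intro s hs
  have hx := summable_x (K := Fix H) hs
  have hb := summable_tb H hs
  rw [← hx.tsum_sub hb]
  have key : ∀ v : HeightOneSpectrum (𝓞 (Fix H)), 0 ≤ x s v - tb H s v ∧
      x s v - tb H s v ≤ ((pr v : ℝ)) ^ (-2 : ℝ) + ind v := by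
    intro v
    have hp1 : (1 : ℝ) ≤ pr v := by exact_mod_cast (pr_prime v).one_le
    have hnn : 0 ≤ ((pr v : ℝ)) ^ (-2 : ℝ) := by positivity
    have hxp := x_pos s v
    have hi : 0 ≤ ind v := by
      show 0 ≤ (if ¬ U M (pr v) then (1 : ℝ) else 0)
      split_ifs <;> norm_num
    by_cases hv : U M (pr v) ∧ dg v = 1
    · have : x s v = tb H s v := by
        rw [tb, if_pos hv]
        unfold x
        rw [norm_eq, hv.2, pow_one]
      rw [this, sub_self]
      exact ⟨le_rfl, by positivity⟩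
    · have htb : tb H s v = 0 := by rw [tb, if_neg hv]
      rw [htb, sub_zero]
      refine ⟨hxp.le, ?_⟩
      by_cases hu : U M (pr v)
      · have hd : dg v ≠ 1 := fun h => hv ⟨hu, h⟩
        have hd2 : 2 ≤ dg v := by have := dg_pos v; omega
        have : x s v ≤ ((pr v : ℝ)) ^ (-2 : ℝ) := by
          unfold x
          rw [norm_eq, Nat.cast_pow, ← Real.rpow_natCast, ← Real.rpow_mul (by positivity)]
          refine Real.rpow_le_rpow_of_exponent_le hp1 ?_
          have : (2 : ℝ) ≤ dg v := by exact_mod_cast hd2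
          nlinarith
        linarith
      · have : ind v = 1 := if_pos hu
        rw [this]
        have := x_le hs.le v
        linarith
  have hsum : Summable fun v => x s v - tb H s v := hx.sub hb
  rw [abs_of_nonneg (tsum_nonneg fun v => (key v).1)]
  exact hsum.tsum_le_tsum (fun v => (key v).2) (h2.add hind)

end Pool.Agent.Lib_helper28.FROB

end

section

/-!
# Frobenius: induction over the subgroups
-/

open NumberField IsDedekindDomain Ideal MulAction Filter Topology Asymptotics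
open scoped Pointwise

namespace Pool.Agent.Lib_helper28.FROB

variable {M : Type*} [Field M] [NumberField M] [IsGalois ℚ M]

set_option linter.unusedSectionVars false

theorem isBigO_tb (H : Subgroup Gal(M/ℚ)) :
    (fun s : ℝ => ∑' v, tb H s v - Real.log (1 / (s - 1))) =O[𝓝[>] 1] (fun _ => (1 : ℝ)) := by
  obtain ⟨C, hC⟩ := sum_tb H
  have h1 : (fun s : ℝ => ∑' v : HeightOneSpectrum (𝓞 (Fix H)), x s v - ∑' v, tb H s v)
      =O[𝓝[>] 1] (fun _ => (1 : ℝ)) := by
    refine IsBigO.of_bound C ?_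
    filter_upwards [self_mem_nhdsWithin] with s hs
    rw [norm_one, mul_one, Real.norm_eq_abs]
    exact hC s hs
  refine ((isBigO_sum (K := Fix H)).sub h1).congr_left fun s => ?_
  ring

theorem isBigO_ta (H : Subgroup Gal(M/ℚ)) :
    (fun s : ℝ => ∑' w, ta H s w - Nat.card H * Real.log (1 / (s - 1)))
      =O[𝓝[>] 1] (fun _ => (1 : ℝ)) := by
  refine ((isBigO_tb H).const_mul_left (Nat.card H : ℝ)).congr' ?_ EventuallyEq.rfl
  filter_upwards [self_mem_nhdsWithin] with s hs
  rw [sum_ta H hs, mul_sub]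

/-- the number of generators of `H` -/
noncomputable def gen {G : Type*} [Group G] (H : Subgroup G) : ℕ :=
  Nat.card {h : G // Subgroup.zpowers h = H}

open Classical in
theorem sum_gen {G : Type*} [Group G] [Fintype (Subgroup G)] [Finite G] (H : Subgroup G) :
    ∑ H' : Subgroup G with H' ≤ H, gen H' = Nat.card H := by
  have := Fintype.ofFinite G
  have h1 : Nat.card H = (Finset.univ.filter fun h : G => h ∈ H).card := by
    rw [← Fintype.card_subtype, Nat.card_eq_fintype_card]
  rw [h1, Finset.card_eq_sum_card_fiberwise (f := fun h : G => Subgroup.zpowers h)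
    (t := Finset.univ.filter fun H' : Subgroup G => H' ≤ H)]
  · refine Finset.sum_congr rfl fun H' hH' => ?_
    have hle : H' ≤ H := (Finset.mem_filter.mp hH').2
    unfold gen
    rw [Nat.card_eq_fintype_card, Fintype.card_subtype]
    congr 1
    ext h
    simp only [Finset.mem_filter, Finset.mem_univ, true_and]
    constructor
    · intro e
      exact ⟨hle (e ▸ Subgroup.mem_zpowers h), e⟩
    · exact fun e => e.2
  · intro h hh
    simp only [Finset.coe_filter, Finset.mem_univ, true_and, Set.mem_ofPred_eq] at hh ⊢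
    exact Subgroup.zpowers_le.mpr hh

open Classical in
theorem sum_tt [Fintype (Subgroup Gal(M/ℚ))] (H : Subgroup Gal(M/ℚ)) (s : ℝ)
    (w : HeightOneSpectrum (𝓞 M)) :
    ∑ H' : Subgroup Gal(M/ℚ) with H' ≤ H, tt H' s w = ta H s w := by
  by_cases h : U M (pr w) ∧ Dec w ≤ H
  · rw [Finset.sum_eq_single (Dec w)]
    · rw [tt, if_pos ⟨h.1, rfl⟩, ta, if_pos h]
    · intro H' _ hne
      rw [tt, if_neg]
      exact fun h' => hne h'.2.symm
    · intro hn
      refine absurd ?_ hn
      rw [Finset.mem_filter]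
      exact ⟨Finset.mem_univ _, h.2⟩
  · rw [ta, if_neg h]
    refine Finset.sum_eq_zero fun H' hH' => ?_
    rw [tt, if_neg]
    rintro ⟨h1, h2⟩
    exact h ⟨h1, h2 ▸ (Finset.mem_filter.mp hH').2⟩

open Classical in
theorem sum_sum_tt [Fintype (Subgroup Gal(M/ℚ))] (H : Subgroup Gal(M/ℚ)) {s : ℝ} (hs : 1 < s) :
    ∑ H' : Subgroup Gal(M/ℚ) with H' ≤ H, ∑' w, tt H' s w = ∑' w, ta H s w := by
  rw [← Summable.tsum_finsetSum fun H' _ => summable_tt H' hs]
  exact tsum_congr fun w => sum_tt H s w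

theorem isBigO_tt (H : Subgroup Gal(M/ℚ)) :
    (fun s : ℝ => ∑' w, tt H s w - gen H * Real.log (1 / (s - 1)))
      =O[𝓝[>] 1] (fun _ => (1 : ℝ)) := by
  classical
  have := Fintype.ofFinite (Subgroup Gal(M/ℚ))
  induction H using WellFoundedLT.induction with
  | ind H ih =>
  have hsplit : (Finset.univ.filter fun H' : Subgroup Gal(M/ℚ) => H' ≤ H) =
      insert H (Finset.univ.filter fun H' : Subgroup Gal(M/ℚ) => H' < H) := by
    ext H'
    simp only [Finset.mem_filter, Finset.mem_univ, true_and, Finset.mem_insert]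
    exact le_iff_eq_or_lt
  have hnot : H ∉ (Finset.univ.filter fun H' : Subgroup Gal(M/ℚ) => H' < H) := by simp
  have h1 : (fun s : ℝ => ∑ H' : Subgroup Gal(M/ℚ) with H' < H,
      (∑' w, tt H' s w - gen H' * Real.log (1 / (s - 1)))) =O[𝓝[>] 1] (fun _ => (1 : ℝ)) := by
    refine IsBigO.fun_sum fun H' hH' => ih H' (Finset.mem_filter.mp hH').2
  refine ((isBigO_ta H).sub h1).congr' ?_ EventuallyEq.rfl
  filter_upwards [self_mem_nhdsWithin] with s hs
  have h2 := sum_sum_tt H hs
  have h3 := sum_gen H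
  rw [hsplit, Finset.sum_insert hnot] at h2 h3
  have h4 : (Nat.card H : ℝ) = gen H +
      ∑ H' : Subgroup Gal(M/ℚ) with H' < H, (gen H' : ℝ) := by
    rw [← h3]; push_cast; rfl
  rw [← h2, h4, Finset.sum_sub_distrib, ← Finset.sum_mul]
  ring

end Pool.Agent.Lib_helper28.FROB

end

section

/-!
# Frobenius: the sum of the orders of the decomposition groups above a rational prime
-/

open NumberField IsDedekindDomain Ideal MulAction
open scoped Pointwise ENNReal

namespace Pool.Agent.Lib_helper28.FROB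

variable {M : Type*} [Field M] [NumberField M] [IsGalois ℚ M]

/-- the primes above `p` -/
noncomputable def overEquiv (p : ℕ) :
    {w : HeightOneSpectrum (𝓞 M) // pr w = p} ≃
      {P : (span {(p : ℤ)}).primesOver (𝓞 M) // p.Prime} where
  toFun w := ⟨toOver p w, w.2 ▸ pr_prime w.1⟩
  invFun P := ⟨⟨P.1.1, P.1.2.1, by
    intro h0
    have h1 := P.1.2.2.over
    rw [h0, Ideal.under_bot, Ideal.span_singleton_eq_bot] at h1
    exact P.2.ne_zero (by exact_mod_cast h1)⟩, by
      have h1 := P.1.2.2.over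
      show absNorm (P.1.1.under ℤ) = p
      rw [← h1]
      simp⟩
  left_inv w := rfl
  right_inv P := rfl

theorem sum_dec (p : ℕ) (hp : p.Prime) :
    ∑' w : {w : HeightOneSpectrum (𝓞 M) // pr w = p}, (Nat.card (Dec w.1) : ℝ≥0∞) =
      Nat.card Gal(M/ℚ) := by
  have hF := Fact.mk hp
  have hpi : Prime (p : ℤ) := Nat.prime_iff_prime_int.mp hp
  have hbot : (span {(p : ℤ)} : Ideal ℤ) ≠ ⊥ := by
    rw [Ne, Ideal.span_singleton_eq_bot]
    exact_mod_cast hp.ne_zero
  have hprime : (span {(p : ℤ)} : Ideal ℤ).IsPrime := (Ideal.span_singleton_prime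
    (by exact_mod_cast hp.ne_zero)).mpr hpi
  have hmax : (span {(p : ℤ)} : Ideal ℤ).IsMaximal :=
    Ring.DimensionLEOne.maximalOfPrime hbot hprime
  have hperf := perfect_under (span {(p : ℤ)} : Ideal ℤ) hbot
  have h1 : ∀ w : {w : HeightOneSpectrum (𝓞 M) // pr w = p}, (Nat.card (Dec w.1) : ℝ≥0∞) =
      (((span {(p : ℤ)} : Ideal ℤ).ramificationIdxIn (𝓞 M) *
        (span {(p : ℤ)} : Ideal ℤ).inertiaDegIn (𝓞 M) : ℕ) : ℝ≥0∞) := by
    intro w
    have : w.1.asIdeal.LiesOver (span {(p : ℤ)}) := (toOver p w).2.2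
    exact congrArg Nat.cast
      (Ideal.card_stabilizer_eq (G := Gal(M/ℚ)) (span {(p : ℤ)}) w.1.asIdeal)
  have hfin := fiber_finite (K := M) p
  have := Fintype.ofFinite {w : HeightOneSpectrum (𝓞 M) // pr w = p}
  have e : Nat.card {w : HeightOneSpectrum (𝓞 M) // pr w = p} =
      ((span {(p : ℤ)}).primesOver (𝓞 M)).ncard := by
    rw [Nat.card_congr (overEquiv p), ← Nat.card_coe_set_eq]
    exact Nat.card_congr ⟨fun P => P.1, fun P => ⟨P, hp⟩, fun P => rfl, fun P => rfl⟩
  rw [tsum_congr h1, tsum_fintype, Finset.sum_const, Finset.card_univ, nsmul_eq_mul,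
    ← Nat.card_eq_fintype_card, e, ← Nat.cast_mul,
    ncard_primesOver_mul_ramificationIdxIn_mul_inertiaDegIn (span {(p : ℤ)}) (𝓞 M) Gal(M/ℚ)]

/-- Sums over the prime ideals of functions of the rational prime below, weighted by the order of
the decomposition group. -/
theorem tsum_dec (f : ℕ → ℝ≥0∞) :
    ∑' w : HeightOneSpectrum (𝓞 M), (Nat.card (Dec w) : ℝ≥0∞) * f (pr w) =
      Nat.card Gal(M/ℚ) * ∑' p : Nat.Primes, f p := by
  let g : HeightOneSpectrum (𝓞 M) → Nat.Primes := fun v => ⟨pr v, pr_prime v⟩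
  rw [← ENNReal.tsum_fiberwise
    (fun w : HeightOneSpectrum (𝓞 M) => (Nat.card (Dec w) : ℝ≥0∞) * f (pr w)) g,
    ← ENNReal.tsum_mul_left]
  refine tsum_congr fun p => ?_
  have h1 : ∀ v : ↑(g ⁻¹' {p}), (Nat.card (Dec v.1) : ℝ≥0∞) * f (pr v.1) =
      (Nat.card (Dec v.1) : ℝ≥0∞) * f p := by
    intro v
    have : g v.1 = p := v.2
    exact congrArg (fun q : Nat.Primes => (Nat.card (Dec v.1) : ℝ≥0∞) * f (q : ℕ)) this
  let e : ↑(g ⁻¹' {p}) ≃ {v : HeightOneSpectrum (𝓞 M) // pr v = (p : ℕ)} :=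
    Equiv.subtypeEquivRight fun v => Subtype.ext_iff
  rw [tsum_congr h1, ENNReal.tsum_mul_right]
  congr 1
  rw [← sum_dec (p : ℕ) p.2]
  exact e.tsum_eq (fun w : {v : HeightOneSpectrum (𝓞 M) // pr v = (p : ℕ)} =>
    (Nat.card (Dec w.1) : ℝ≥0∞))

end Pool.Agent.Lib_helper28.FROB

end

section

/-!
# Relative Iwasawa theorem, module FROBD

The theorem of Frobenius (1896), lower bound with the exact constant: the primes `q` such that some
prime of `L` above `q` has decomposition group generated by an element of `T` have lower Dirichlet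
density at least `#T / #G`.
-/

open NumberField IsDedekindDomain Ideal MulAction Filter Topology Asymptotics
open scoped Pointwise ENNReal

namespace Pool.Agent.RI

namespace FROBD

open Pool.Agent.Lib_helper28.FROB

open Classical in
/-- The sum over the primes with decomposition group in a set of subgroups is bounded by the sum
over the rational primes below. -/
theorem sum_tt_le (L : Type) [Field L] [NumberField L] [IsGalois ℚ L]
    (I : Finset (Subgroup (L ≃ₐ[ℚ] L)))
    (S : Set ℕ) (hS : ∀ w : HeightOneSpectrum (𝓞 L), Dec w ∈ I → pr w ∈ S) {s : ℝ} (hs : 1 < s) :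
    ∑ H ∈ I, ∑' w, tt H s w ≤ (Nat.card (L ≃ₐ[ℚ] L) : ℝ) *
      ∑' q : {q : ℕ // q.Prime ∧ q ∈ S}, (q : ℝ) ^ (-s) := by
  let g : ℕ → ℝ≥0∞ := fun n => ENNReal.ofReal ((n : ℝ) ^ (-s))
  let f : ℕ → ℝ≥0∞ := fun n => if n ∈ S then g n else 0
  have hsum : Summable fun q : {q : ℕ // q.Prime ∧ q ∈ S} => (q : ℝ) ^ (-s) :=
    (Real.summable_nat_rpow.mpr (by linarith : -s < -1)).subtype _
  rw [← Summable.tsum_finsetSum fun H _ => summable_tt H hs]
  have hterm : ∀ w : HeightOneSpectrum (𝓞 L),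
      ENNReal.ofReal (∑ H ∈ I, tt H s w) ≤ (Nat.card (Dec w) : ℝ≥0∞) * f (pr w) := by
    intro w
    by_cases hw : Dec w ∈ I
    · have h1 : ∑ H ∈ I, tt H s w = tt (Dec w) s w := by
        refine Finset.sum_eq_single (Dec w) ?_ (fun h => absurd hw h)
        intro H' _ hne
        rw [tt, if_neg]
        exact fun h' => hne h'.2.symm
      have h2 : f (pr w) = g (pr w) := if_pos (hS w hw)
      rw [h1, h2]
      have h3 : (Nat.card (Dec w) : ℝ≥0∞) * g (pr w) =
          ENNReal.ofReal ((Nat.card (Dec w) : ℝ) * (pr w : ℝ) ^ (-s)) := by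
        rw [ENNReal.ofReal_mul (by positivity), ENNReal.ofReal_natCast]
      rw [h3]
      refine ENNReal.ofReal_le_ofReal ?_
      unfold tt
      split_ifs
      · exact le_rfl
      · positivity
    · have h1 : ∑ H ∈ I, tt H s w = 0 := by
        refine Finset.sum_eq_zero fun H' hH' => ?_
        rw [tt, if_neg]
        exact fun h' => hw (h'.2 ▸ hH')
      rw [h1, ENNReal.ofReal_zero]
      exact bot_le
  have hsm : Summable fun w : HeightOneSpectrum (𝓞 L) => ∑ H ∈ I, tt H s w :=
    summable_sum fun H _ => summable_tt H hs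
  have hnn : ∀ w : HeightOneSpectrum (𝓞 L), 0 ≤ ∑ H ∈ I, tt H s w :=
    fun w => Finset.sum_nonneg fun H _ => tt_nonneg H s w
  have h1 : ENNReal.ofReal (∑' w, ∑ H ∈ I, tt H s w) ≤
      ∑' w : HeightOneSpectrum (𝓞 L), (Nat.card (Dec w) : ℝ≥0∞) * f (pr w) :=
    (ENNReal.ofReal_tsum_of_nonneg hnn hsm).le.trans (ENNReal.tsum_le_tsum hterm)
  have h2 : ∑' p : Nat.Primes, f p = ∑' q : {q : ℕ // q.Prime ∧ q ∈ S}, g q := by
    have e1 : ∑' p : Nat.Primes, f p = ∑' n : ℕ, Set.indicator {n | n.Prime} f n :=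
      tsum_subtype {n : ℕ | n.Prime} f
    have e2 : ∑' q : {q : ℕ // q.Prime ∧ q ∈ S}, g q =
        ∑' n : ℕ, Set.indicator {n | n.Prime ∧ n ∈ S} g n :=
      tsum_subtype {n : ℕ | n.Prime ∧ n ∈ S} g
    rw [e1, e2]
    refine tsum_congr fun n => ?_
    simp only [Set.indicator, Set.mem_ofPred_eq]
    by_cases h1 : n.Prime <;> by_cases h2 : n ∈ S <;> simp [h1, h2, f]
  have h3 : ENNReal.ofReal (∑' w, ∑ H ∈ I, tt H s w) ≤
      ENNReal.ofReal ((Nat.card (L ≃ₐ[ℚ] L) : ℝ) *
        ∑' q : {q : ℕ // q.Prime ∧ q ∈ S}, (q : ℝ) ^ (-s)) := by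
    refine h1.trans ?_
    rw [tsum_dec, h2, ENNReal.ofReal_mul (by positivity), ENNReal.ofReal_natCast,
      ENNReal.ofReal_tsum_of_nonneg (fun q => by positivity) hsum]
  exact (ENNReal.ofReal_le_ofReal_iff (mul_nonneg (by positivity)
    (tsum_nonneg fun q => by positivity))).mp h3

open Classical in
/-- The number of elements of `T` is at most the number of generators of the cyclic groups
generated by the elements of `T`. -/
theorem card_le_gen {G : Type} [Group G] [Finite G] (T : Set G) (t : Finset (Subgroup G))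
    (ht : ∀ g ∈ T, Subgroup.zpowers g ∈ t) : Nat.card T ≤ ∑ H ∈ t, gen H := by
  have := Fintype.ofFinite G
  have h1 : Nat.card T = (Finset.univ.filter fun h : G => h ∈ T).card := by
    rw [← Fintype.card_subtype, Nat.card_eq_fintype_card]
  rw [h1, Finset.card_eq_sum_card_fiberwise (f := fun h : G => Subgroup.zpowers h) (t := t)]
  · refine Finset.sum_le_sum fun H' _ => ?_
    unfold gen
    rw [Nat.card_eq_fintype_card, Fintype.card_subtype]
    refine Finset.card_le_card fun h hh => ?_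
    simp only [Finset.mem_filter, Finset.mem_univ, true_and] at hh ⊢
    exact hh.2
  · intro h hh
    simp only [Finset.coe_filter, Finset.mem_univ, true_and, Set.mem_ofPred_eq] at hh ⊢
    exact ht h hh

/-- The lower bound for an arbitrary set `T`. -/
theorem main (L : Type) [Field L] [NumberField L] [IsGalois ℚ L] (T : Set (L ≃ₐ[ℚ] L)) :
    DensityGE {q : ℕ | ∃ g ∈ T, ∃ P : Ideal (𝓞 L), P.IsPrime ∧ (q : 𝓞 L) ∈ P ∧
      MulAction.stabilizer (L ≃ₐ[ℚ] L) P = Subgroup.zpowers g}
      ((Nat.card T : ℝ) / Nat.card (L ≃ₐ[ℚ] L)) := by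
  classical
  have := Fintype.ofFinite (Subgroup (L ≃ₐ[ℚ] L))
  set I : Finset (Subgroup (L ≃ₐ[ℚ] L)) :=
    Finset.univ.filter fun H => ∃ g ∈ T, Subgroup.zpowers g = H with hI
  set S := {q : ℕ | ∃ g ∈ T, ∃ P : Ideal (𝓞 L), P.IsPrime ∧ (q : 𝓞 L) ∈ P ∧
      MulAction.stabilizer (L ≃ₐ[ℚ] L) P = Subgroup.zpowers g} with hSdef
  have hS : ∀ w : HeightOneSpectrum (𝓞 L), Dec w ∈ I → pr w ∈ S := by
    intro w hw
    obtain ⟨g, hg, hgw⟩ := (Finset.mem_filter.mp hw).2
    refine ⟨g, hg, w.asIdeal, w.isPrime, ?_, hgw.symm⟩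
    have h1 : (pr w : ℤ) ∈ w.asIdeal.under ℤ := by
      rw [under_eq]
      exact Ideal.mem_span_singleton_self _
    rw [Ideal.mem_comap] at h1
    simpa using h1
  have hT : (Nat.card T : ℝ) ≤ ∑ H ∈ I, (gen H : ℝ) := by
    have h := card_le_gen T I fun g hg => Finset.mem_filter.mpr ⟨Finset.mem_univ _, g, hg, rfl⟩
    exact_mod_cast h
  have hO : (fun s : ℝ => ∑ H ∈ I, (∑' w, tt H s w - gen H * Real.log (1 / (s - 1))))
      =O[𝓝[>] 1] (fun _ => (1 : ℝ)) :=
    IsBigO.fun_sum fun H _ => isBigO_tt H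
  obtain ⟨c, hc⟩ := hO.bound
  have hlt : ∀ᶠ s : ℝ in 𝓝[>] 1, s < 2 := by
    have : Set.Ioo (1 : ℝ) 2 ∈ 𝓝[>] (1 : ℝ) := Ioo_mem_nhdsGT (by norm_num)
    filter_upwards [this] with s hs
    exact hs.2
  have hev : ∀ᶠ s : ℝ in 𝓝[>] 1, (Nat.card T : ℝ) * Real.log (1 / (s - 1)) - |c| ≤
      ∑ H ∈ I, ∑' w, tt H s w := by
    filter_upwards [hc, hlt, self_mem_nhdsWithin] with s hs hs2 hs1
    rw [norm_one, mul_one, Real.norm_eq_abs, Finset.sum_sub_distrib, ← Finset.sum_mul] at hs
    have h1 := (abs_le.mp hs).1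
    have h2 := le_abs_self c
    have hs1' : (1 : ℝ) < s := hs1
    have hlog : 0 ≤ Real.log (1 / (s - 1)) := by
      apply Real.log_nonneg
      rw [le_div_iff₀ (by linarith)]
      linarith
    have h3 := mul_le_mul_of_nonneg_right hT hlog
    linarith
  obtain ⟨b, hb1, hb⟩ := mem_nhdsGT_iff_exists_Ioo_subset.mp hev
  have hb1' : (1 : ℝ) < b := hb1
  set A : ℝ := ((Nat.card (L ≃ₐ[ℚ] L) : ℕ) : ℝ) with hA
  have hApos : 0 < A := by
    rw [hA]
    exact_mod_cast Nat.card_pos
  have hδ : 0 ≤ (Nat.card T : ℝ) / A := by positivity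
  refine ⟨|c| / A + Nat.card T / A * |Real.log (1 / (b - 1))|, fun s hs1 hs2 => ?_⟩
  have hnn : 0 ≤ ∑' q : {q : ℕ // q.Prime ∧ q ∈ S}, (q : ℝ) ^ (-s) :=
    tsum_nonneg fun q => by positivity
  have hcA : 0 ≤ |c| / A := by positivity
  have habs : 0 ≤ Nat.card T / A * |Real.log (1 / (b - 1))| := by positivity
  rcases lt_or_ge s b with hsb | hsb
  · have h1 : (Nat.card T : ℝ) * Real.log (1 / (s - 1)) - |c| ≤ ∑ H ∈ I, ∑' w, tt H s w :=
      hb ⟨hs1, hsb⟩
    have h2 := sum_tt_le L I S hS hs1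
    have h3 : ((Nat.card T : ℝ) * Real.log (1 / (s - 1)) - |c|) / A ≤
        ∑' q : {q : ℕ // q.Prime ∧ q ∈ S}, (q : ℝ) ^ (-s) := by
      rw [div_le_iff₀' hApos]
      exact h1.trans h2
    rw [sub_div, mul_div_right_comm] at h3
    linarith
  · have h1 : Real.log (1 / (s - 1)) ≤ Real.log (1 / (b - 1)) := by
      refine Real.log_le_log (by have := sub_pos.mpr hs1; positivity) ?_
      exact one_div_le_one_div_of_le (by linarith) (by linarith)
    have h2 := le_abs_self (Real.log (1 / (b - 1)))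
    have h3 : (Nat.card T : ℝ) / A * Real.log (1 / (s - 1)) ≤
        Nat.card T / A * |Real.log (1 / (b - 1))| :=
      mul_le_mul_of_nonneg_left (h1.trans h2) hδ
    linarith

end FROBD

/-- Module FROBD. -/
theorem FROBD_thm : FROBD := fun L _ _ _ T _ => FROBD.main L T

end Pool.Agent.RI

end

section

set_option linter.unusedSectionVars false

/-!
# Existence statements: choice of the diagonal, splitting primes, prescribed symbols
-/

namespace Pool.Agent.Lib_helper18

open Finset Eis Matrix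

/-- choosing the diagonal -/
theorem exists_diag_fin : ∀ (n : ℕ) (M1 M2 : Matrix (Fin n) (Fin n) (ZMod 3)),
    ∃ x : Fin n → ZMod 3, (M1 + diagonal x).det ≠ 0 ∧ (M2 - diagonal x).det ≠ 0 := by
  intro n
  induction n with
  | zero =>
    intro M1 M2
    exact ⟨0, by rw [det_isEmpty]; decide, by rw [det_isEmpty]; decide⟩
  | succ n ih =>
    intro M1 M2
    obtain ⟨x', h1, h2⟩ := ih (M1.submatrix Fin.succ Fin.succ) (M2.submatrix Fin.succ Fin.succ)
    -- det is affine in the first diagonal entry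
    have key : ∀ (M : Matrix (Fin (n + 1)) (Fin (n + 1)) (ZMod 3)) (x : Fin n → ZMod 3) (a : ZMod 3),
        (M + diagonal (Fin.cons a x)).det =
          (M + diagonal (Fin.cons 0 x)).det + a * (M.submatrix Fin.succ Fin.succ + diagonal x).det := by
      intro M x a
      have hu : M + diagonal (Fin.cons a x : Fin (n + 1) → ZMod 3) =
          updateRow (M + diagonal (Fin.cons 0 x : Fin (n + 1) → ZMod 3)) 0
            ((M + diagonal (Fin.cons 0 x : Fin (n + 1) → ZMod 3)) 0 + a • Pi.single 0 1) := by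
        ext i j
        refine Fin.cases ?_ (fun i => ?_) i
        · refine Fin.cases ?_ (fun j => ?_) j
          · simp
          · simp [Matrix.diagonal_apply_ne _ (Fin.succ_ne_zero j).symm]
        · rw [updateRow_ne (Fin.succ_ne_zero i)]
          refine Fin.cases ?_ (fun j => ?_) j
          · simp
          · by_cases hij : i = j
            · subst hij; simp
            · have : i.succ ≠ j.succ := fun h => hij (Fin.succ_injective _ h)
              simp [Matrix.diagonal_apply_ne _ this]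
      rw [hu, det_updateRow_add, updateRow_eq_self, det_updateRow_smul]
      congr 1
      congr 1
      rw [det_succ_row_zero, Finset.sum_eq_single 0]
      · simp only [Fin.val_zero, pow_zero, one_mul, updateRow_self, Pi.single_eq_same]
        congr 1
        ext i j
        simp only [submatrix_apply, Matrix.add_apply, Fin.succAbove_zero]
        rw [updateRow_ne (Fin.succ_ne_zero i)]
        by_cases hij : i = j
        · subst hij; simp
        · have : i.succ ≠ j.succ := fun h => hij (Fin.succ_injective _ h)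
          simp [Matrix.diagonal_apply_ne _ this, Matrix.diagonal_apply_ne _ hij]
      · intro j _ hj
        simp [Pi.single_eq_of_ne hj]
      · intro h; exact absurd (Finset.mem_univ _) h
    have hneg : ∀ (M : Matrix (Fin (n + 1)) (Fin (n + 1)) (ZMod 3)) (x : Fin n → ZMod 3) (a : ZMod 3),
        M - diagonal (Fin.cons a x : Fin (n + 1) → ZMod 3) =
          M + diagonal (Fin.cons (-a) (-x) : Fin (n + 1) → ZMod 3) := by
      intro M x a
      rw [sub_eq_add_neg, diagonal_neg]
      congr 2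
      ext i
      refine Fin.cases ?_ (fun i => ?_) i <;> simp
    have hx' : M2.submatrix Fin.succ Fin.succ + diagonal (-x') =
        M2.submatrix Fin.succ Fin.succ - diagonal x' := by
      rw [sub_eq_add_neg, diagonal_neg]; rfl
    have hex : ∀ c1 d1 c2 d2 : ZMod 3, d1 ≠ 0 → d2 ≠ 0 →
        ∃ a : ZMod 3, c1 + a * d1 ≠ 0 ∧ c2 + -a * d2 ≠ 0 := by decide
    obtain ⟨a, ha1, ha2⟩ := hex (M1 + diagonal (Fin.cons 0 x' : Fin (n + 1) → ZMod 3)).det
      (M1.submatrix Fin.succ Fin.succ + diagonal x').det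
      (M2 + diagonal (Fin.cons 0 (-x') : Fin (n + 1) → ZMod 3)).det
      (M2.submatrix Fin.succ Fin.succ + diagonal (-x')).det h1 (by rw [hx']; exact h2)
    refine ⟨Fin.cons a x', by rw [key]; exact ha1, by rw [hneg, key]; exact ha2⟩

theorem exists_diag {ι : Type*} [Fintype ι] [DecidableEq ι] (M1 M2 : Matrix ι ι (ZMod 3)) :
    ∃ x : ι → ZMod 3, (M1 + diagonal x).det ≠ 0 ∧ (M2 - diagonal x).det ≠ 0 := by
  let e := Fintype.equivFin ι
  obtain ⟨x, h1, h2⟩ := exists_diag_fin (Fintype.card ι) (M1.submatrix e.symm e.symm)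
    (M2.submatrix e.symm e.symm)
  have hd : diagonal x = (diagonal (x ∘ e)).submatrix e.symm e.symm := by
    ext i j
    simp only [submatrix_apply, diagonal_apply, Function.comp_apply, Equiv.apply_symm_apply,
      EmbeddingLike.apply_eq_iff_eq]
  refine ⟨x ∘ e, ?_, ?_⟩
  · rw [hd] at h1
    rw [← det_submatrix_equiv_self e.symm]
    exact h1
  · rw [hd] at h2
    rw [← det_submatrix_equiv_self e.symm]
    exact h2

/-- every prime `p = 1 mod 3` is the norm of an element `a + 3 b ω` -/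
theorem exists_pi {p : ℕ} (hp : p.Prime) (h3 : p % 3 = 1) :
    ∃ π : Eis, π.norm = p ∧ (3 : ℤ) ∣ π.im := by
  have : Fact p.Prime := ⟨hp⟩
  -- a primitive cube root of unity modulo p
  obtain ⟨t, ht⟩ : ∃ t : ZMod p, t ^ 2 + t + 1 = 0 := by
    obtain ⟨g, hg⟩ := IsCyclic.exists_generator (α := (ZMod p)ˣ)
    have hord : orderOf g = p - 1 := by
      rw [orderOf_eq_card_of_forall_mem_zpowers hg, Nat.card_eq_fintype_card,
        ZMod.card_units_eq_totient, Nat.totient_prime hp]
    have hp2 := hp.two_le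
    obtain ⟨k, hk⟩ : ∃ k, p - 1 = 3 * k := ⟨(p - 1) / 3, by omega⟩
    have hk0 : 0 < k := by omega
    refine ⟨((g ^ k : (ZMod p)ˣ) : ZMod p), ?_⟩
    have h1 : (g ^ k) ^ 3 = 1 := by
      rw [← pow_mul, mul_comm, ← hk, ← hord]; exact pow_orderOf_eq_one g
    have h2 : g ^ k ≠ 1 := by
      intro h
      have := orderOf_dvd_of_pow_eq_one h
      rw [hord, hk] at this
      have := Nat.le_of_dvd hk0 this
      omega
    have h3' : (((g ^ k : (ZMod p)ˣ) : ZMod p)) ^ 3 = 1 := by
      have := congrArg Units.val h1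
      simpa using this
    have h4 : (((g ^ k : (ZMod p)ˣ) : ZMod p)) - 1 ≠ 0 := by
      rw [sub_ne_zero]
      intro h
      exact h2 (Units.ext (by simpa using h))
    apply mul_left_cancel₀ h4
    linear_combination h3'
  obtain ⟨a, ha⟩ := ZMod.intCast_surjective t
  have hpa : (p : ℤ) ∣ a ^ 2 + a + 1 := by
    rw [← ZMod.intCast_zmod_eq_zero_iff_dvd]
    push_cast
    rw [ha]; exact ht
  have hq0 : (p : Eis) ≠ 0 := by
    intro h
    have := congrArg Eis.re h
    simp at this
    exact hp.ne_zero this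
  have hnu : ¬ IsUnit (p : Eis) := by
    rw [isUnit_iff_norm, norm_natCast]
    intro h
    have := hp.two_le
    have h2 : (2 : ℤ) ≤ p := by exact_mod_cast this
    nlinarith
  have hnp : ¬ Prime (p : Eis) := by
    intro hP
    have h1 : (p : Eis) ∣ (⟨a, -1⟩ : Eis) * conj ⟨a, -1⟩ := by
      rw [mul_conj]
      have := intCast_dvd_intCast.mpr hpa
      rw [Int.cast_natCast] at this
      have e : (⟨a, -1⟩ : Eis).norm = a ^ 2 + a + 1 := by rw [norm_def]; simp only; ring
      rw [e]; exact this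
    have h2 : ¬ (p : Eis) ∣ (⟨a, -1⟩ : Eis) := by
      rw [natCast_dvd_iff]
      rintro ⟨-, h⟩
      simp only [dvd_neg] at h
      have := Int.le_of_dvd one_pos h
      have := hp.two_le
      omega
    rcases hP.dvd_or_dvd h1 with h | h
    · exact h2 h
    · have := conj_dvd h
      rw [conj_natCast, conj_conj] at this
      exact h2 this
  obtain ⟨l, hl, hlq⟩ := WfDvdMonoid.exists_irreducible_factor hnu hq0
  have hlp := hl.prime
  have hlq' := hlq
  obtain ⟨m, hm⟩ := hlq
  have h1 : (p : ℤ) ^ 2 = l.norm * m.norm := by rw [← norm_mul, ← hm, norm_natCast]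
  have h2 : l.norm.natAbs ∣ p ^ 2 := by
    have : l.norm ∣ (p : ℤ) ^ 2 := ⟨_, h1⟩
    have := Int.natAbs_dvd_natAbs.mpr this
    simpa [Int.natAbs_pow] using this
  have hn := norm_pos hlp.ne_zero
  have hn1 : l.norm ≠ 1 := fun h => hlp.not_isUnit (isUnit_iff_norm.mpr h)
  rw [Nat.dvd_prime_pow hp] at h2
  obtain ⟨k, hk, hk2⟩ := h2
  interval_cases k
  · simp at hk2; omega
  · have hln : l.norm = p := by rw [pow_one] at hk2; omega
    have hl3 : ¬ l ∣ 3 := not_dvd_three hln h3
    obtain ⟨i, hi⟩ := exists_prim (not_lam_dvd_of_prime hlp hl3)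
    refine ⟨l * w ^ i, ?_, hi.1⟩
    rw [norm_mul, norm_pow, norm_w, one_pow, mul_one, hln]
  · exfalso
    have h5 : l.norm = (p : ℤ) ^ 2 := by
      have : (l.norm.natAbs : ℤ) = ((p ^ 2 : ℕ) : ℤ) := by exact_mod_cast hk2
      rw [Int.natCast_natAbs, abs_of_pos hn] at this
      rw [this]; push_cast; ring
    exact hnp ((associated_of_norm_sq hp hlq' h5).prime hlp)

/-- prescribed cubic residue symbol -/
theorem exists_sym {p : ℕ} [hp : Fact p.Prime] {π : Eis} (h3 : p % 3 = 1) (hπ : π.norm = p)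
    (x : ZMod 3) : ∃ c : ℕ, ¬ p ∣ c ∧ sym π (c : Eis) = x := by
  have hπpr := prime_of_norm_eq hπ
  have hπ3 := not_dvd_three hπ h3
  obtain ⟨φ, hφ⟩ := exists_hom hπ
  obtain ⟨χ, hχ1, hχ2, ⟨g, hg0, hg⟩⟩ := exists_cubic_char h3 φ
  have hNpi : N π = p := by
    have := N_cast π
    rw [hπ] at this
    exact_mod_cast this
  have hg' : ¬ π ∣ ((g.val : ℕ) : Eis) := by
    rw [← hφ, map_natCast, ZMod.natCast_val, ZMod.cast_id', id]
    exact hg0
  have h1 : sym π ((g.val : ℕ) : Eis) = 1 := by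
    have h1 := hχ1 _ hg0
    have h2 := map_pow_eq hπpr hπ3 hg' φ ((hφ π).mpr dvd_rfl)
    rw [map_natCast, hNpi, ZMod.natCast_val, ZMod.cast_id', id] at h2
    rw [h2, hg, ← map_pow, ← sub_eq_zero, ← map_sub, hφ] at h1
    have h5 : π ∣ w ^ 1 - w ^ (sym π ((g.val : ℕ) : Eis)).val := by rw [pow_one]; exact h1
    have h4 := w_pow_sub_dvd hπ3 h5
    rw [ZMod.natCast_val, ZMod.cast_id', id] at h4
    rw [← h4]; rfl
  refine ⟨g.val ^ x.val, ?_, ?_⟩
  · intro h
    have h4 := hp.out.dvd_of_dvd_pow h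
    rw [← ZMod.natCast_eq_zero_iff, ZMod.natCast_val, ZMod.cast_id', id] at h4
    exact hg0 h4
  · rw [Nat.cast_pow, sym_pow hπpr hπ3 hg', h1, mul_one, ZMod.natCast_val, ZMod.cast_id', id]

/-- splitting off the largest cube -/
theorem exists_cubefree (n : ℕ) (hn : n ≠ 0) :
    ∃ n' m : ℕ, n = n' * m ^ 3 ∧ m ≠ 0 ∧ n' ≠ 0 ∧ ∀ r : ℕ, r.Prime → ¬ r ^ 3 ∣ n' := by
  induction n using Nat.strong_induction_on with
  | _ n ih =>
  by_cases h : ∃ r : ℕ, r.Prime ∧ r ^ 3 ∣ n
  · obtain ⟨r, hr, k, hk⟩ := h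
    have hr0 := hr.two_le
    have hk0 : k ≠ 0 := by rintro rfl; simp at hk; exact hn hk
    have hlt : k < n := by
      rw [hk]
      have h1 : 2 ^ 3 ≤ r ^ 3 := Nat.pow_le_pow_left hr0 3
      have h2 : 0 < k := Nat.pos_of_ne_zero hk0
      nlinarith
    obtain ⟨n', m, h1, h2, h3, h4⟩ := ih k hlt hk0
    exact ⟨n', r * m, by rw [hk, h1]; ring, mul_ne_zero hr.ne_zero h2, h3, h4⟩
  · push Not at h
    exact ⟨n, 1, by ring, one_ne_zero, hn, h⟩

end Pool.Agent.Lib_helper18

end

section

/-!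
# Average of `4 ^ r(A)`: the two combinatorial statements
-/

set_option autoImplicit false

namespace Pool.Agent.CubeRank

/-- (A1) a subspace of `F_3^m` of dimension `d` which contains a nowhere zero vector contains at
least `4^d / 2^m` nowhere zero vectors (Warning's second theorem for `{1,-1}^m`) -/
def WarnStmt : Prop := ∀ (m : ℕ) (W : Submodule (ZMod 3) (Fin m → ZMod 3)) (a : Fin m → ZMod 3),
  a ∈ W → (∀ i, a i ≠ 0) →
    4 ^ Module.finrank (ZMod 3) W ≤
      2 ^ m * Nat.card {v : Fin m → ZMod 3 // v ∈ W ∧ ∀ i, v i ≠ 0}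

/-- (A2) nowhere zero vectors with pairwise isotropic differences: `u` is the diagonal form on the
coordinates in `T`, the coordinates in `R` are free, the other ones are fixed -/
def CliqueStmt : Prop := ∀ (m : ℕ) (T R : Finset (Fin m)) (u : Fin m → ZMod 3)
  (E : Finset (Fin m → ZMod 3)),
  (∀ i ∈ T, u i ≠ 0) → (∀ x ∈ E, ∀ i, x i ≠ 0) →
  (∀ x ∈ E, ∀ y ∈ E, ∀ i, i ∉ T → i ∉ R → x i = y i) →
  (∀ x ∈ E, ∀ y ∈ E, ∑ i ∈ T, u i * (x i - y i) ^ 2 = 0) →
    E.card ≤ 2 ^ (T.card / 2 + R.card)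

end Pool.Agent.CubeRank

end

section

/-!
# Nowhere zero vectors with pairwise isotropic differences
-/

set_option autoImplicit false

namespace Pool.Agent.CubeRank

namespace AClique

open Finset

/-- counting: an affine space of dimension at most `D` over `F_3` contains at most `2 ^ D` nowhere
zero vectors -/
theorem count (m : ℕ) (D : ℕ) : ∀ (V : Submodule (ZMod 3) (Fin m → ZMod 3)) (z : Fin m → ZMod 3)
    (E : Finset (Fin m → ZMod 3)), Module.finrank (ZMod 3) V ≤ D → (∀ x ∈ E, x - z ∈ V) →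
    (∀ x ∈ E, ∀ i, x i ≠ 0) → E.card ≤ 2 ^ D := by
  induction D with
  | zero =>
    intro V z E hV hz _
    have hV0 : V = ⊥ := by
      rw [← Submodule.finrank_eq_zero (R := ZMod 3)]
      omega
    rw [pow_zero, Finset.card_le_one]
    intro a ha b hb
    have h1 := hz a ha
    have h2 := hz b hb
    rw [hV0, Submodule.mem_bot, sub_eq_zero] at h1 h2
    rw [h1, h2]
  | succ D ih =>
    intro V z E hV hz hE
    by_cases hV0 : V = ⊥
    · have : E.card ≤ 1 := by
        rw [Finset.card_le_one]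
        intro a ha b hb
        have h1 := hz a ha
        have h2 := hz b hb
        rw [hV0, Submodule.mem_bot, sub_eq_zero] at h1 h2
        rw [h1, h2]
      exact this.trans Nat.one_le_two_pow
    · obtain ⟨v, hv, hv0⟩ := Submodule.exists_mem_ne_zero_of_ne_bot hV0
      obtain ⟨i, hi⟩ := Function.ne_iff.1 hv0
      set V' : Submodule (ZMod 3) (Fin m → ZMod 3) :=
        V ⊓ LinearMap.ker (LinearMap.proj (R := ZMod 3) (φ := fun _ : Fin m => ZMod 3) i) with hV'
      have hlt : V' < V := by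
        refine lt_of_le_of_ne inf_le_left ?_
        intro h
        have h1 : v ∈ V' := by rw [h]; exact hv
        have h2 := (Submodule.mem_inf.1 h1).2
        rw [LinearMap.mem_ker] at h2
        exact hi h2
      have hfin : Module.finrank (ZMod 3) V' ≤ D := by
        have := Submodule.finrank_lt_finrank_of_lt hlt
        omega
      have key : ∀ c : ZMod 3, (E.filter (fun x => x i = c)).card ≤ 2 ^ D := by
        intro c
        rcases (E.filter (fun x => x i = c)).eq_empty_or_nonempty with h | ⟨z', hz'⟩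
        · rw [h, Finset.card_empty]
          exact Nat.zero_le _
        · have hz1 := (Finset.mem_filter.1 hz').1
          have hz2 := (Finset.mem_filter.1 hz').2
          refine ih V' z' _ hfin ?_ ?_
          · intro x hx
            have hx1 := (Finset.mem_filter.1 hx).1
            have hx2 := (Finset.mem_filter.1 hx).2
            refine Submodule.mem_inf.2 ⟨?_, ?_⟩
            · have h1 := V.sub_mem (hz x hx1) (hz z' hz1)
              rw [sub_sub_sub_cancel_right] at h1
              exact h1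
            · rw [LinearMap.mem_ker]
              change x i - z' i = 0
              rw [hx2, hz2, sub_self]
          · intro x hx
            exact hE x (Finset.mem_filter.1 hx).1
      have hcov : E ⊆ E.filter (fun x => x i = 1) ∪ E.filter (fun x => x i = 2) := by
        intro x hx
        have h1 := hE x hx i
        have h2 : ∀ c : ZMod 3, c ≠ 0 → c = 1 ∨ c = 2 := by decide
        rcases h2 _ h1 with h | h
        · exact Finset.mem_union_left _ (Finset.mem_filter.2 ⟨hx, h⟩)
        · exact Finset.mem_union_right _ (Finset.mem_filter.2 ⟨hx, h⟩)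
      calc E.card ≤ (E.filter (fun x => x i = 1) ∪ E.filter (fun x => x i = 2)).card :=
            Finset.card_le_card hcov
        _ ≤ (E.filter (fun x => x i = 1)).card + (E.filter (fun x => x i = 2)).card :=
            Finset.card_union_le _ _
        _ ≤ 2 ^ D + 2 ^ D := Nat.add_le_add (key 1) (key 2)
        _ = 2 ^ (D + 1) := by ring

/-- the bilinear form -/
noncomputable def bil {ι : Type*} (S : Finset ι) (u : ι → ZMod 3) :
    (ι → ZMod 3) →ₗ[ZMod 3] (ι → ZMod 3) →ₗ[ZMod 3] ZMod 3 :=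
  LinearMap.mk₂ (ZMod 3) (fun a b => ∑ i ∈ S, u i * a i * b i)
    (by
      intro a a' b
      rw [← Finset.sum_add_distrib]
      apply Finset.sum_congr rfl
      intro i _
      rw [Pi.add_apply]
      ring)
    (by
      intro c a b
      rw [smul_eq_mul, Finset.mul_sum]
      apply Finset.sum_congr rfl
      intro i _
      rw [Pi.smul_apply, smul_eq_mul]
      ring)
    (by
      intro a b b'
      rw [← Finset.sum_add_distrib]
      apply Finset.sum_congr rfl
      intro i _
      rw [Pi.add_apply]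
      ring)
    (by
      intro c a b
      rw [smul_eq_mul, Finset.mul_sum]
      apply Finset.sum_congr rfl
      intro i _
      rw [Pi.smul_apply, smul_eq_mul]
      ring)

theorem bil_apply {ι : Type*} (S : Finset ι) (u : ι → ZMod 3) (a b : ι → ZMod 3) :
    bil S u a b = ∑ i ∈ S, u i * a i * b i := rfl

/-- an isotropic subspace for a nondegenerate diagonal form has dimension at most half -/
theorem isotropic {ι : Type*} [Fintype ι] (u : ι → ZMod 3) (hu : ∀ i, u i ≠ 0)
    (W : Submodule (ZMod 3) (ι → ZMod 3)) (hW : ∀ a ∈ W, ∀ b ∈ W, bil univ u a b = 0) :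
    2 * Module.finrank (ZMod 3) W ≤ Fintype.card ι := by
  classical
  have hinj : Function.Injective (bil univ u) := by
    rw [← LinearMap.ker_eq_bot, LinearMap.ker_eq_bot']
    intro a ha
    funext i
    have h1 := congrArg (fun f => f (Pi.single i 1)) ha
    simp only [bil_apply, LinearMap.zero_apply] at h1
    rw [Finset.sum_eq_single i] at h1
    · rw [Pi.single_eq_same, mul_one] at h1
      rcases mul_eq_zero.1 h1 with h | h
      · exact absurd h (hu i)
      · exact h
    · intro j _ hj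
      rw [Pi.single_eq_of_ne hj, mul_zero]
    · intro h
      exact absurd (Finset.mem_univ _) h
  have h1 : Module.finrank (ZMod 3) W = Module.finrank (ZMod 3) (W.map (bil univ u)) :=
    (Submodule.equivMapOfInjective (bil univ u) hinj W).finrank_eq
  have h2 : W.map (bil univ u) ≤ W.dualAnnihilator := by
    rintro _ ⟨a, ha, rfl⟩
    rw [Submodule.mem_dualAnnihilator]
    intro b hb
    exact hW a ha b hb
  have h3 := Submodule.finrank_mono h2
  have h4 : Module.finrank (ZMod 3) W + Module.finrank (ZMod 3) W.dualAnnihilator =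
      Fintype.card ι := by
    rw [← Module.finrank_fintype_fun_eq_card (ZMod 3) (η := ι)]
    exact Subspace.finrank_add_finrank_dualAnnihilator_eq W
  have h5 : Module.finrank (ZMod 3) W ≤ Module.finrank (ZMod 3) W.dualAnnihilator :=
    h1.le.trans h3
  have h6 : Module.finrank (ZMod 3) W + Module.finrank (ZMod 3) W ≤ Fintype.card ι :=
    (Nat.add_le_add_left h5 _).trans h4.le
  omega

end AClique

open _root_.Pool.Agent.CubeRank.AClique in
/-- (A2) -/
theorem clique : CliqueStmt := by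
  classical
  intro m T R u E hu hE hfix hiso
  rcases E.eq_empty_or_nonempty with h | ⟨z, hz⟩
  · rw [h, Finset.card_empty]
    exact Nat.zero_le _
  set V : Submodule (ZMod 3) (Fin m → ZMod 3) :=
    Submodule.span (ZMod 3) ((fun x => x - z) '' (E : Set (Fin m → ZMod 3))) with hV
  -- the form vanishes on `V`
  have hgen : ∀ x ∈ E, ∀ y ∈ E, bil T u (x - z) (y - z) = 0 := by
    intro x hx y hy
    have h1 := hiso x hx z hz
    have h2 := hiso y hy z hz
    have h3 := hiso x hx y hy
    have h4 : 2 * bil T u (x - z) (y - z) = ∑ i ∈ T, u i * (x i - z i) ^ 2 +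
        ∑ i ∈ T, u i * (y i - z i) ^ 2 - ∑ i ∈ T, u i * (x i - y i) ^ 2 := by
      rw [bil_apply, Finset.mul_sum, ← Finset.sum_add_distrib, ← Finset.sum_sub_distrib]
      apply Finset.sum_congr rfl
      intro i _
      rw [Pi.sub_apply, Pi.sub_apply]
      ring
    rw [h1, h2, h3, add_zero, sub_zero] at h4
    rcases mul_eq_zero.1 h4 with h | h
    · exact absurd h (by decide)
    · exact h
  have hV0 : ∀ a ∈ V, ∀ b ∈ V, bil T u a b = 0 := by
    have s1 : ∀ x ∈ E, V ≤ LinearMap.ker (bil T u (x - z)) := by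
      intro x hx
      rw [hV, Submodule.span_le]
      rintro _ ⟨y, hy, rfl⟩
      exact hgen x hx y hy
    intro a ha b hb
    have s2 : V ≤ LinearMap.ker ((bil T u).flip b) := by
      rw [hV, Submodule.span_le]
      rintro _ ⟨x, hx, rfl⟩
      have := s1 x hx hb
      rw [LinearMap.mem_ker] at this
      change (bil T u).flip b (x - z) = 0
      rw [LinearMap.flip_apply]
      exact this
    have := s2 ha
    rw [LinearMap.mem_ker, LinearMap.flip_apply] at this
    exact this
  have hVfix : ∀ a ∈ V, ∀ i, i ∉ T → i ∉ R → a i = 0 := by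
    intro a ha i hiT hiR
    have s : V ≤ LinearMap.ker (LinearMap.proj (R := ZMod 3) (φ := fun _ : Fin m => ZMod 3) i) := by
      rw [hV, Submodule.span_le]
      rintro _ ⟨x, hx, rfl⟩
      change x i - z i = 0
      rw [hfix x hx z hz i hiT hiR, sub_self]
    exact s ha
  -- dimension
  let πT : (Fin m → ZMod 3) →ₗ[ZMod 3] (T → ZMod 3) :=
    LinearMap.funLeft (ZMod 3) (ZMod 3) (Subtype.val : T → Fin m)
  let πR : (Fin m → ZMod 3) →ₗ[ZMod 3] (R → ZMod 3) :=
    LinearMap.funLeft (ZMod 3) (ZMod 3) (Subtype.val : R → Fin m)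
  have hrange : 2 * Module.finrank (ZMod 3) (LinearMap.range (πT.domRestrict V)) ≤ T.card := by
    have h1 := isotropic (fun i : T => u i) (fun i => hu i i.2)
      (LinearMap.range (πT.domRestrict V)) (by
        rintro _ ⟨a, rfl⟩ _ ⟨b, rfl⟩
        have h2 := hV0 a.1 a.2 b.1 b.2
        rw [bil_apply] at h2 ⊢
        rw [← Finset.sum_coe_sort] at h2
        exact h2)
    rw [Fintype.card_coe] at h1
    exact h1
  have hker : Module.finrank (ZMod 3) (LinearMap.ker (πT.domRestrict V)) ≤ R.card := by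
    have hinj : Function.Injective ((πR.domRestrict V).domRestrict
        (LinearMap.ker (πT.domRestrict V))) := by
      rw [injective_iff_map_eq_zero]
      intro a ha
      apply Subtype.ext
      apply Subtype.ext
      funext i
      have h1 : a.1.1 ∈ V := a.1.2
      have h2 : ∀ i : T, a.1.1 i = 0 := by
        intro i
        have := a.2
        rw [LinearMap.mem_ker] at this
        exact congrFun this i
      have h3 : ∀ i : R, a.1.1 i = 0 := fun i => congrFun ha i
      by_cases hiT : i ∈ T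
      · exact h2 ⟨i, hiT⟩
      · by_cases hiR : i ∈ R
        · exact h3 ⟨i, hiR⟩
        · exact hVfix _ h1 i hiT hiR
    have h1 := LinearMap.finrank_le_finrank_of_injective hinj
    rw [Module.finrank_fintype_fun_eq_card, Fintype.card_coe] at h1
    exact h1
  have hdim : Module.finrank (ZMod 3) V ≤ T.card / 2 + R.card := by
    have h1 := LinearMap.finrank_range_add_finrank_ker (πT.domRestrict V)
    omega
  exact count m _ V z E hdim (fun x hx => Submodule.subset_span ⟨x, hx, rfl⟩) hE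

end Pool.Agent.CubeRank

end

section

/-!
# Warning's second theorem for `{1,-1}^m` (module A_WARN, by helper85)
-/

set_option autoImplicit false

open Finset MvPolynomial

namespace Pool.Agent.CubeRank

lemma zmod3_sq : ∀ c : ZMod 3, c ≠ 0 → c ^ 2 = 1 := by decide

lemma zmod3_add_self : ∀ c : ZMod 3, c ≠ 0 → c + c ≠ 0 := by decide

/-- any `2 r + 1` vectors of `F_3^r` have a nonempty subfamily with sum zero -/
lemma exists_zero_sum_fin {ι : Type*} [DecidableEq ι] (r : ℕ) (s : Finset ι)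
    (g : ι → Fin r → ZMod 3) (hs : 2 * r + 1 ≤ s.card) :
    ∃ J ⊆ s, J.Nonempty ∧ ∑ i ∈ J, g i = 0 := by
  classical
  have : Fact (Nat.Prime 3) := ⟨Nat.prime_three⟩
  let f : Fin r → MvPolynomial s (ZMod 3) := fun j => ∑ i : s, C (g i j) * X i ^ 2
  have hdeg : (∑ j, (f j).totalDegree) < Fintype.card s := by
    have h1 : ∀ j, (f j).totalDegree ≤ 2 := by
      intro j
      refine (totalDegree_finsetSum _ _).trans (Finset.sup_le fun i _ => ?_)
      refine (totalDegree_mul _ _).trans ?_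
      rw [totalDegree_C, zero_add, totalDegree_X_pow]
    calc (∑ j, (f j).totalDegree) ≤ ∑ j : Fin r, 2 := Finset.sum_le_sum fun j _ => h1 j
      _ = 2 * r := by simp [mul_comm]
      _ < Fintype.card s := by rw [Fintype.card_coe]; omega
  have hdvd := char_dvd_card_solutions_of_fintype_sum_lt (p := 3) hdeg
  have h0 : ∀ j, eval (0 : s → ZMod 3) (f j) = 0 := by
    intro j
    simp [f]
  have hne : 1 < Fintype.card { x : s → ZMod 3 // ∀ i, eval x (f i) = 0 } := by
    have : Nonempty { x : s → ZMod 3 // ∀ i, eval x (f i) = 0 } := ⟨⟨0, h0⟩⟩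
    have h3 : 3 ≤ Fintype.card { x : s → ZMod 3 // ∀ i, eval x (f i) = 0 } := by
      refine Nat.le_of_dvd Fintype.card_pos ?_
      convert hdvd
    omega
  obtain ⟨⟨x, hx⟩, hx0⟩ := Fintype.exists_ne_of_one_lt_card hne ⟨0, h0⟩
  have hxne : x ≠ 0 := fun h => hx0 (Subtype.ext h)
  refine ⟨(univ.filter (fun i : s => x i ≠ 0)).map (Function.Embedding.subtype _), ?_, ?_, ?_⟩
  · intro i hi
    simp only [Finset.mem_map, Finset.mem_filter, Finset.mem_univ, true_and] at hi
    obtain ⟨j, -, rfl⟩ := hi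
    exact j.2
  · rw [Finset.map_nonempty]
    obtain ⟨i, hi⟩ := Function.ne_iff.mp hxne
    exact ⟨i, by simpa using hi⟩
  · rw [Finset.sum_map]
    funext j
    rw [Finset.sum_apply]
    have h1 := hx j
    simp only [f, map_sum, map_mul, eval_C, map_pow, eval_X] at h1
    rw [Finset.sum_filter]
    simp only [Function.Embedding.subtype_apply]
    rw [Pi.zero_apply]
    refine Eq.trans (Finset.sum_congr rfl fun i _ => ?_) h1
    by_cases hi : x i = 0
    · rw [if_neg (not_not.mpr hi), hi]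
      simp
    · rw [if_pos hi, zmod3_sq _ hi, mul_one]

/-- the same for a vector space of dimension `r` -/
lemma exists_zero_sum {ι G : Type*} [DecidableEq ι] [AddCommGroup G] [Module (ZMod 3) G]
    [Module.Finite (ZMod 3) G] (s : Finset ι) (g : ι → G)
    (hs : 2 * Module.finrank (ZMod 3) G + 1 ≤ s.card) :
    ∃ J ⊆ s, J.Nonempty ∧ ∑ i ∈ J, g i = 0 := by
  have : Fact (Nat.Prime 3) := ⟨Nat.prime_three⟩
  let b := Module.finBasis (ZMod 3) G
  obtain ⟨J, hJ, hJn, hJ0⟩ := exists_zero_sum_fin (Module.finrank (ZMod 3) G) s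
    (fun i => b.equivFun (g i)) hs
  refine ⟨J, hJ, hJn, ?_⟩
  apply b.equivFun.injective
  rw [map_sum, map_zero]
  exact hJ0

/-- the number of zero-sum subfamilies -/
lemma count_zero_sum {ι G : Type*} [DecidableEq ι] [AddCommGroup G] [DecidableEq G]
    [Module (ZMod 3) G] [Module.Finite (ZMod 3) G] (n : ℕ) :
    ∀ (s : Finset ι) (g : ι → G), s.card = n →
      2 ^ n ≤ 4 ^ Module.finrank (ZMod 3) G *
        (s.powerset.filter (fun I => ∑ i ∈ I, g i = 0)).card := by
  induction n with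
  | zero =>
    intro s g hs
    have h1 : 1 ≤ (s.powerset.filter (fun I => ∑ i ∈ I, g i = 0)).card := by
      refine Finset.card_pos.mpr ⟨∅, ?_⟩
      simp
    calc 2 ^ 0 = 1 * 1 := by norm_num
      _ ≤ _ := Nat.mul_le_mul (Nat.one_le_pow _ _ (by norm_num)) h1
  | succ n ih =>
    intro s g hs
    by_cases hr : n + 1 ≤ 2 * Module.finrank (ZMod 3) G
    · have h1 : 1 ≤ (s.powerset.filter (fun I => ∑ i ∈ I, g i = 0)).card := by
        refine Finset.card_pos.mpr ⟨∅, ?_⟩
        simp
      have h2 : 2 ^ (n + 1) ≤ 4 ^ Module.finrank (ZMod 3) G := by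
        have : (4 : ℕ) = 2 ^ 2 := by norm_num
        rw [this, ← pow_mul]
        exact Nat.pow_le_pow_right (by norm_num) hr
      calc 2 ^ (n + 1) = 2 ^ (n + 1) * 1 := (mul_one _).symm
        _ ≤ _ := Nat.mul_le_mul h2 h1
    · obtain ⟨J, hJs, ⟨j, hj⟩, hJ0⟩ := exists_zero_sum s g (by omega)
      have hjs : j ∈ s := hJs hj
      have hcard : (s.erase j).card = n := by rw [Finset.card_erase_of_mem hjs, hs]; rfl
      set g' : ι → G := fun i => if i ∈ J then - g i else g i with hg'
      have ih1 := ih (s.erase j) g hcard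
      have ih2 := ih (s.erase j) g' hcard
      set A := (s.erase j).powerset.filter (fun I => ∑ i ∈ I, g i = 0) with hA
      set B := (s.erase j).powerset.filter (fun I => ∑ i ∈ I, g' i = 0) with hB
      have key : ∀ I : Finset ι, ∑ i ∈ symmDiff I J, g i = ∑ i ∈ I, g' i := by
        intro I
        have h1 : ∑ i ∈ symmDiff I J, g i = ∑ i ∈ I \ J, g i + ∑ i ∈ J \ I, g i := by
          rw [symmDiff_def, Finset.sup_eq_union, Finset.sum_union]
          exact disjoint_sdiff_sdiff
        have h2 : ∑ i ∈ J \ I, g i = - ∑ i ∈ I ∩ J, g i := by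
          have h3 : ∑ i ∈ J \ I, g i + ∑ i ∈ J ∩ I, g i = ∑ i ∈ J, g i := by
            rw [add_comm]
            exact Finset.sum_inter_add_sum_sdiff J I g
          rw [hJ0, Finset.inter_comm] at h3
          exact eq_neg_of_add_eq_zero_left h3
        have h4 : ∑ i ∈ I, g' i = ∑ i ∈ I \ J, g i + - ∑ i ∈ I ∩ J, g i := by
          rw [← Finset.sum_inter_add_sum_sdiff I J g', add_comm]
          congr 1
          · refine Finset.sum_congr rfl fun i hi => ?_
            simp [hg', (Finset.mem_sdiff.mp hi).2]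
          · rw [← Finset.sum_neg_distrib]
            refine Finset.sum_congr rfl fun i hi => ?_
            simp [hg', (Finset.mem_inter.mp hi).2]
        rw [h1, h2, h4]
      -- the sets of B, transported by the symmetric difference with J
      set B' := B.image (fun I => symmDiff I J) with hB'
      have hBcard : B'.card = B.card := by
        rw [hB']
        refine Finset.card_image_of_injective _ ?_
        intro I I' h
        exact symmDiff_left_injective J h
      have hdisj : Disjoint A B' := by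
        rw [Finset.disjoint_left]
        intro I hI hI'
        rw [hB', Finset.mem_image] at hI'
        obtain ⟨K, hK, rfl⟩ := hI'
        rw [hB, Finset.mem_filter, Finset.mem_powerset] at hK
        rw [hA, Finset.mem_filter, Finset.mem_powerset] at hI
        have hjK : j ∉ K := fun h => Finset.notMem_erase j s (hK.1 h)
        have hjI : j ∈ symmDiff K J := by
          rw [Finset.mem_symmDiff]
          exact Or.inr ⟨hj, hjK⟩
        exact Finset.notMem_erase j s (hI.1 hjI)
      have hsub : A ∪ B' ⊆ s.powerset.filter (fun I => ∑ i ∈ I, g i = 0) := by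
        intro I hI
        rw [Finset.mem_union] at hI
        rw [Finset.mem_filter, Finset.mem_powerset]
        rcases hI with hI | hI
        · rw [hA, Finset.mem_filter, Finset.mem_powerset] at hI
          exact ⟨hI.1.trans (Finset.erase_subset _ _), hI.2⟩
        · rw [hB', Finset.mem_image] at hI
          obtain ⟨K, hK, rfl⟩ := hI
          rw [hB, Finset.mem_filter, Finset.mem_powerset] at hK
          refine ⟨?_, ?_⟩
          · intro i hi
            rw [Finset.mem_symmDiff] at hi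
            rcases hi with hi | hi
            · exact Finset.erase_subset _ _ (hK.1 hi.1)
            · exact hJs hi.1
          · rw [key]
            exact hK.2
      have hle := Finset.card_le_card hsub
      rw [Finset.card_union_of_disjoint hdisj, hBcard] at hle
      calc 2 ^ (n + 1) = 2 ^ n + 2 ^ n := by ring
        _ ≤ 4 ^ Module.finrank (ZMod 3) G * A.card + 4 ^ Module.finrank (ZMod 3) G * B.card :=
          add_le_add ih1 ih2
        _ = 4 ^ Module.finrank (ZMod 3) G * (A.card + B.card) := by ring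
        _ ≤ _ := Nat.mul_le_mul_left _ hle

/-- **Warning's second theorem for `{1,-1}^m`** -/
theorem warn : WarnStmt := by
  classical
  intro m W a haW ha
  have : Fact (Nat.Prime 3) := ⟨Nat.prime_three⟩
  set G := (Fin m → ZMod 3) ⧸ W
  set g : Fin m → G := fun i => W.mkQ (Pi.single i (a i)) with hg
  have h1 := count_zero_sum (G := G) m (Finset.univ : Finset (Fin m)) g (by simp)
  have hfin : Module.finrank (ZMod 3) G + Module.finrank (ZMod 3) W = m := by
    have := Submodule.finrank_quotient_add_finrank W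
    simpa using this
  -- zero sum sets give nowhere zero vectors
  set N := ((Finset.univ : Finset (Fin m)).powerset.filter (fun I => ∑ i ∈ I, g i = 0)) with hN
  have hcount : N.card ≤ Nat.card {v : Fin m → ZMod 3 // v ∈ W ∧ ∀ i, v i ≠ 0} := by
    rw [Nat.card_eq_fintype_card]
    have hdef : ∀ I ∈ N, (a + ∑ i ∈ I, Pi.single i (a i)) ∈ W ∧
        ∀ i, (a + ∑ i ∈ I, Pi.single i (a i) : Fin m → ZMod 3) i ≠ 0 := by
      intro I hI
      rw [hN, Finset.mem_filter] at hI
      refine ⟨?_, ?_⟩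
      · refine W.add_mem haW ?_
        have h2 : W.mkQ (∑ i ∈ I, Pi.single i (a i)) = 0 := by
          rw [map_sum]
          exact hI.2
        rwa [Submodule.mkQ_apply, Submodule.Quotient.mk_eq_zero] at h2
      · intro i
        rw [Pi.add_apply, Finset.sum_apply]
        have h3 : ∑ c ∈ I, (Pi.single c (a c) : Fin m → ZMod 3) i = if i ∈ I then a i else 0 := by
          simp [Pi.single_apply, Finset.sum_ite_eq]
        rw [h3]
        split_ifs
        · exact zmod3_add_self _ (ha i)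
        · simpa using ha i
    have hval : ∀ (I : Finset (Fin m)) (i : Fin m),
        (a + ∑ i ∈ I, Pi.single i (a i) : Fin m → ZMod 3) i = a i + if i ∈ I then a i else 0 := by
      intro I i
      rw [Pi.add_apply, Finset.sum_apply]
      congr 1
      simp [Pi.single_apply, Finset.sum_ite_eq]
    have hinj : Function.Injective
        (fun I : N => (⟨a + ∑ i ∈ (I : Finset (Fin m)), Pi.single i (a i), hdef I I.2⟩ :
          {v : Fin m → ZMod 3 // v ∈ W ∧ ∀ i, v i ≠ 0})) := by
      intro I I' h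
      have h5 : (a + ∑ i ∈ (I : Finset (Fin m)), Pi.single i (a i) : Fin m → ZMod 3) =
          a + ∑ i ∈ (I' : Finset (Fin m)), Pi.single i (a i) := congrArg Subtype.val h
      apply Subtype.ext
      ext i
      have h6 := congrFun h5 i
      rw [hval, hval] at h6
      have h7 := ha i
      by_cases h8 : i ∈ (I : Finset (Fin m)) <;> by_cases h9 : i ∈ (I' : Finset (Fin m))
      · simp [h8, h9]
      · simp only [h8, h9, if_true, if_false] at h6
        exact absurd (add_left_cancel h6) h7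
      · simp only [h8, h9, if_true, if_false] at h6
        exact absurd (add_left_cancel h6).symm h7
      · simp [h8, h9]
    have := Fintype.card_le_of_injective _ hinj
    rwa [Fintype.card_coe] at this
  have h2 : 4 ^ m = 2 ^ m * 2 ^ m := by
    rw [← mul_pow]
    norm_num
  have h3 : 2 ^ m * 4 ^ Module.finrank (ZMod 3) W ≤
      2 ^ m * (2 ^ m * Nat.card {v : Fin m → ZMod 3 // v ∈ W ∧ ∀ i, v i ≠ 0}) := by
    calc 2 ^ m * 4 ^ Module.finrank (ZMod 3) W
        ≤ (4 ^ Module.finrank (ZMod 3) G * N.card) * 4 ^ Module.finrank (ZMod 3) W :=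
          Nat.mul_le_mul_right _ h1
      _ = 4 ^ (Module.finrank (ZMod 3) G + Module.finrank (ZMod 3) W) * N.card := by
          rw [pow_add]; ring
      _ = 2 ^ m * (2 ^ m * N.card) := by rw [hfin, h2]; ring
      _ ≤ _ := Nat.mul_le_mul_left _ (Nat.mul_le_mul_left _ hcount)
  exact Nat.le_of_mul_le_mul_left h3 (by positivity)

end Pool.Agent.CubeRank

end
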