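import Mathlib
import Pool.Agent.PTWX.C04

/-! Parts: Lib_helper18.Suppl, Lib_helper18.CaseI, Lib_helper18.CaseIb, Lib_helper18.Descent, Lib_helper18.FD4 -/

section

/-!
# The supplementary law for the prime above 3
-/

namespace Pool.Agent.Lib_helper18

namespace Eis

section split

variable {p : ℕ} [hp : Fact p.Prime] {π : Eis}

theorem four_lt (hp3 : p % 3 = 1) : (4 : ℤ) < p := by
  have hp2 := hp.out.two_le
  have : 4 < p := by
    by_contra h
    push Not at h
    have : p = 4 := by omega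
    exact absurd hp.out (by rw [this]; norm_num)
  exact_mod_cast this

theorem not_dvd_of_sq_le (hp3 : p % 3 = 1) {s : ℤ} (hs : s ^ 2 ≤ 4 * p) (hs0 : s ≠ 0) :
    ¬ (p : ℤ) ∣ s := by
  rintro ⟨k, hk⟩
  have h4 := four_lt hp3
  have hk0 : k ≠ 0 := by rintro rfl; simp at hk; exact hs0 hk
  have : 1 ≤ k ^ 2 := by
    have : 0 < k ^ 2 := by positivity
    omega
  rw [hk] at hs
  nlinarith [mul_pos (by linarith : (0 : ℤ) < p) (by linarith : (0 : ℤ) < p)]

/-- the supplementary law -/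
theorem sym_lam (hp3 : p % 3 = 1) (hπ : π.norm = p) {M : ℤ} (hM : π.im = 3 * M) :
    sym π lam = 2 * wt (π.re ^ 2) := by
  have hπpr := prime_of_norm_eq hπ
  have hπ3 := not_dvd_three hπ hp3
  have hprim : (3 : ℤ) ∣ π.im := ⟨M, hM⟩
  have hre := re_not_dvd hp3 hπ hprim
  obtain ⟨a, b⟩ := π
  simp only at hM hre hprim
  subst hM
  set π : Eis := ⟨a, 3 * M⟩ with hπdef
  show sym π lam = 2 * wt (a ^ 2)
  have hn : a ^ 2 - 3 * a * M + 9 * M ^ 2 = p := by
    have := hπ
    rw [norm_def] at this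
    simp only [hπdef] at this
    linear_combination this
  have hpos : (0 : ℤ) < p := by have := four_lt (hp := hp) hp3; linarith
  have ha0 : a ≠ 0 := by rintro rfl; simp at hre
  have hs3 : ¬ (3 : ℤ) ∣ a + 3 * M := by omega
  have hs0 : a + 3 * M ≠ 0 := by intro h; rw [h] at hs3; simp at hs3
  have hpa : ¬ (p : ℤ) ∣ a := not_dvd_of_sq_le hp3 (by
    nlinarith [sq_nonneg (a - 6 * M), sq_nonneg a]) ha0
  have hps : ¬ (p : ℤ) ∣ a + 3 * M := not_dvd_of_sq_le hp3 (by
    nlinarith [sq_nonneg (a - 3 * M), sq_nonneg a]) hs0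
  -- coprimality facts
  have hnoM : ∀ l : Eis, Prime l → ¬ (l ∣ π ∧ l ∣ conj π) := by
    rintro l hl ⟨h1, h2⟩
    have := hl.associated_of_dvd hπpr h1
    exact not_dvd_conj hp3 hπ (this.symm.dvd.trans h2)
  have eπ : π = (a : Eis) + ((3 * M : ℤ) : Eis) * w := by
    ext <;> simp only [hπdef, add_re, add_im, mul_re, mul_im, intCast_re, intCast_im, w_re, w_im]
      <;> ring
  have eπ' : conj π = (a : Eis) + ((3 * M : ℤ) : Eis) * w ^ 2 := by
    rw [eπ, map_add, map_mul, conj_intCast, conj_intCast, conj_w]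
  -- primes dividing a
  have hSa := lemmaS hp3 hπ hprim (-1) a hre hpa (by
    intro l hl hla
    have hl3 : ¬ l ∣ 3 := by
      intro h
      have h1 := (dvd_three_iff hl).mp h
      have h2 : lam ∣ (a : Eis) := h1.symm.dvd.trans hla
      rw [lam_dvd_iff] at h2
      simp only [intCast_re, intCast_im] at h2
      omega
    have hlM : ¬ l ∣ ((3 * M : ℤ) : Eis) := by
      intro h
      apply hnoM l hl
      rw [eπ', eπ]
      exact ⟨dvd_add hla (dvd_mul_of_dvd_left h _), dvd_add hla (dvd_mul_of_dvd_left h _)⟩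
    have e1 : sym l π = sym l (((3 * M : ℤ) : Eis) * w) := sym_congr (by rw [eπ]; simpa using hla)
    have e2 : sym l (conj π) = sym l (((3 * M : ℤ) : Eis) * w ^ 2) :=
      sym_congr (by rw [eπ']; simpa using hla)
    have hlw := not_dvd_of_isUnit hl isUnit_w
    have hlw2 := not_dvd_of_isUnit hl (isUnit_w.pow 2)
    rw [e1, e2, sym_mul hl hl3 hlM hlw, sym_mul hl hl3 hlM hlw2, sym_pow hl hl3 hlw,
      sym_w' hl hl3]
    push_cast; ring)
  have hSs := lemmaS hp3 hπ hprim 1 (a + 3 * M) hs3 hps (by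
    intro l hl hla
    have hl3 : ¬ l ∣ 3 := by
      intro h
      have h1 := (dvd_three_iff hl).mp h
      have h2 : lam ∣ ((a + 3 * M : ℤ) : Eis) := h1.symm.dvd.trans hla
      rw [lam_dvd_iff] at h2
      simp only [intCast_re, intCast_im] at h2
      omega
    have hla' : l ∣ (a : Eis) + ((3 * M : ℤ) : Eis) := by
      have e : ((a + 3 * M : ℤ) : Eis) = (a : Eis) + ((3 * M : ℤ) : Eis) := by push_cast; ring
      rwa [e] at hla
    have hlM : ¬ l ∣ ((3 * M : ℤ) : Eis) := by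
      intro h
      apply hnoM l hl
      have hla2 : l ∣ (a : Eis) := by
        have := dvd_sub hla' h
        simpa using this
      rw [eπ', eπ]
      exact ⟨dvd_add hla2 (dvd_mul_of_dvd_left h _), dvd_add hla2 (dvd_mul_of_dvd_left h _)⟩
    have hllam : ¬ l ∣ lam := fun h => hl3 (h.trans lam_dvd_three)
    have hlw := not_dvd_of_isUnit hl isUnit_w
    have hlw2 := not_dvd_of_isUnit hl (isUnit_w.pow 2)
    have e1 : sym l π = sym l (-(((3 * M : ℤ) : Eis) * lam)) := sym_congr (by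
      have e : π - -(((3 * M : ℤ) : Eis) * lam) = (a : Eis) + ((3 * M : ℤ) : Eis) := by
        rw [eπ, lam_eq]; ring
      rw [e]; exact hla')
    have e2 : sym l (conj π) = sym l (((3 * M : ℤ) : Eis) * lam * w ^ 2) := sym_congr (by
      have e : conj π - ((3 * M : ℤ) : Eis) * lam * w ^ 2 = (a : Eis) + ((3 * M : ℤ) : Eis) := by
        rw [eπ', lam_eq]
        have := w_cube
        linear_combination ((3 * M : ℤ) : Eis) * this
      rw [e]; exact hla')
    have hlMl : ¬ l ∣ ((3 * M : ℤ) : Eis) * lam := fun h => (hl.dvd_or_dvd h).elim hlM hllam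
    rw [e1, e2, sym_neg hl hl3 hlMl, sym_mul hl hl3 hlMl hlw2, sym_pow hl hl3 hlw,
      sym_w' hl hl3]
    push_cast
    have h3 : (3 : ZMod 3) = 0 := by decide
    linear_combination (-wt l.norm) * h3)
  -- relations at π
  have hπM : ¬ π ∣ ((3 * M : ℤ) : Eis) := by
    intro h
    have h1 : π ∣ (a : Eis) := by
      have : π ∣ π - ((3 * M : ℤ) : Eis) * w := dvd_sub dvd_rfl (dvd_mul_of_dvd_left h _)
      have e : π - ((3 * M : ℤ) : Eis) * w = (a : Eis) := by
        conv_lhs => rw [eπ]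
        ring
      rwa [e] at this
    rw [dvd_intCast_iff hπ] at h1
    exact hpa h1
  have hπw := not_dvd_of_isUnit hπpr isUnit_w
  have hπlam : ¬ π ∣ lam := fun h => hπ3 (h.trans lam_dvd_three)
  have r1 : sym π (a : Eis) = sym π ((3 * M : ℤ) : Eis) + sym π w := by
    rw [← sym_mul hπpr hπ3 hπM hπw, ← sym_neg hπpr hπ3 (x := ((3 * M : ℤ) : Eis) * w)
      (fun h => (hπpr.dvd_or_dvd h).elim hπM hπw)]
    apply sym_congr
    have e : (a : Eis) - -(((3 * M : ℤ) : Eis) * w) = π := by rw [eπ]; ring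
    rw [e]
  have r2 : sym π ((a + 3 * M : ℤ) : Eis) = sym π ((3 * M : ℤ) : Eis) + sym π lam := by
    rw [← sym_mul hπpr hπ3 hπM hπlam]
    apply sym_congr
    have e : ((a + 3 * M : ℤ) : Eis) - ((3 * M : ℤ) : Eis) * lam = π := by
      rw [eπ, lam_eq]; push_cast; ring
    rw [e]
  have r3 : sym π w = wt p := by rw [sym_w' hπpr hπ3, hπ]
  -- weights
  obtain ⟨α, hα⟩ : ∃ α, a ^ 2 = 1 + 3 * α := ⟨a ^ 2 / 3, by
    have := sq_mod_three hre; omega⟩
  have w1 : wt (a ^ 2) = (α : ZMod 3) := wt_eq hα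
  have w2 : wt ((a + 3 * M) ^ 2) = ((α + 2 * a * M + 3 * M ^ 2 : ℤ) : ZMod 3) :=
    wt_eq (by linear_combination hα)
  have w3 : wt p = ((α - a * M + 3 * M ^ 2 : ℤ) : ZMod 3) :=
    wt_eq (by rw [← hn]; linear_combination hα)
  rw [w1]
  rw [w1] at hSa
  rw [w2] at hSs
  rw [w3] at r3
  push_cast at hSa hSs r3
  have h3 : (3 : ZMod 3) = 0 := by decide
  have h2 : 2 * sym π lam = (α : ZMod 3) := by
    push_cast at r1 r2
    linear_combination hSs - hSa - 2 * r2 + 2 * r1 + 2 * r3 + (α + 3 * M ^ 2) * h3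
  linear_combination 2 * h2 - sym π lam * h3

/-- the supplementary law for `p ≡ 1` modulo 9 -/
theorem sym_lam' (hp9 : p % 9 = 1) (hπ : π.norm = p) {M : ℤ} (hM : π.im = 3 * M) :
    sym π lam = 2 * ((π.re * M : ℤ) : ZMod 3) := by
  have hp3 : p % 3 = 1 := by omega
  rw [sym_lam hp3 hπ hM]
  congr 1
  obtain ⟨k, hk⟩ : ∃ k : ℤ, (p : ℤ) = 1 + 9 * k := ⟨p / 9, by omega⟩
  have hn : π.re ^ 2 - 3 * π.re * M + 9 * M ^ 2 = p := by
    rw [← hπ, norm_def, hM]; ring
  have h1 : π.re ^ 2 = 1 + 3 * (π.re * M + 3 * k - 3 * M ^ 2) := by linear_combination hn + hk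
  rw [wt_eq h1]
  push_cast
  have h3 : (3 : ZMod 3) = 0 := by decide
  linear_combination (k - M ^ 2 : ZMod 3) * h3

end split

end Eis

end Pool.Agent.Lib_helper18

end

section

/-!
# The two cases in which `p` divides the norm factor
-/

namespace Pool.Agent.Lib_helper18

/-- roots of order dividing `p - 1` -/
theorem exists_root {p : ℕ} [hp : Fact p.Prime] {n k : ℕ} (hn : p - 1 = n * k) {x : ZMod p}
    (hx : x ≠ 0) (h : x ^ k = 1) : ∃ y : ZMod p, y ^ n = x := by
  obtain ⟨g, hg⟩ := IsCyclic.exists_generator (α := (ZMod p)ˣ)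
  have hord : orderOf g = p - 1 := by
    rw [orderOf_eq_card_of_forall_mem_zpowers hg, Nat.card_eq_fintype_card,
      ZMod.card_units_eq_totient, Nat.totient_prime hp.out]
  have hp2 := hp.out.two_le
  obtain ⟨j, hj⟩ : ∃ j : ℕ, g ^ j = Units.mk0 x hx :=
    (mem_powers_iff_mem_zpowers (x := g) (y := Units.mk0 x hx)).mpr (hg _)
  have hx' : x = (g : ZMod p) ^ j := by
    have := congrArg Units.val hj
    simpa using this.symm
  have h1 : g ^ (j * k) = 1 := by
    ext
    push_cast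
    rw [pow_mul, ← hx', h]
  rw [← orderOf_dvd_iff_pow_eq_one, hord, hn] at h1
  have hk : 0 < k := by
    rcases Nat.eq_zero_or_pos k with h | h
    · rw [h] at hn; omega
    · exact h
  have h2 : n ∣ j := Nat.dvd_of_mul_dvd_mul_right hk h1
  obtain ⟨i, rfl⟩ := h2
  exact ⟨(g : ZMod p) ^ i, by rw [hx', ← pow_mul, mul_comm]⟩

namespace Eis

/-- square root of `-3` -/
def r3 : Eis := w * lam

theorem r3_sq : r3 ^ 2 = -3 := by decide
theorem r3_eq : r3 = w - w ^ 2 := by decide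
theorem conj_r3 : conj r3 = -r3 := by decide

theorem Prim.mul {x y : Eis} (hx : Prim x) (hy : Prim y) : Prim (x * y) := by
  obtain ⟨⟨a, ha⟩, h2⟩ := hx
  obtain ⟨⟨b, hb⟩, h4⟩ := hy
  refine ⟨?_, ?_⟩
  · rw [mul_im, ha, hb]
    exact ⟨x.re * b + a * y.re - 3 * a * b, by ring⟩
  · rw [mul_re, ha, hb]
    intro h
    have h5 : (3 : ℤ) ∣ x.re * y.re := by
      have : x.re * y.re = (x.re * y.re - 3 * a * (3 * b)) + 3 * (3 * a * b) := by ring
      rw [this]
      exact dvd_add h (dvd_mul_right _ _)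
    rcases Int.prime_three.dvd_or_dvd h5 with h | h
    · exact h2 h
    · exact h4 h

theorem prim_one : Prim 1 := ⟨by simp, by simp⟩

theorem Prim.pow {x : Eis} (hx : Prim x) (n : ℕ) : Prim (x ^ n) := by
  induction n with
  | zero => rw [pow_zero]; exact prim_one
  | succ n ih => rw [pow_succ]; exact ih.mul hx

theorem Prim.not_lam_dvd {x : Eis} (hx : Prim x) : ¬ lam ∣ x := by
  rw [lam_dvd_iff]
  have h1 := hx.1
  have h2 := hx.2
  omega

theorem Prim.neg {x : Eis} (hx : Prim x) : Prim (-x) := by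
  refine ⟨?_, ?_⟩
  · simpa using hx.1
  · simpa using hx.2

/-- cubes of elements prime to 3 are `±1` modulo 9 -/
theorem cube_mod_nine {x : Eis} (hx : ¬ lam ∣ x) :
    ∃ C : ℤ, (C = 1 ∨ C = -1) ∧ ∃ y : Eis, x ^ 3 = (C : Eis) + 9 * y := by
  obtain ⟨i, hi⟩ := exists_prim hx
  have h1 : x ^ 3 = (x * w ^ i) ^ 3 := by
    rw [mul_pow, ← pow_mul, mul_comm i, pow_mul, w_cube, one_pow, mul_one]
  obtain ⟨⟨d, hd⟩, hc⟩ := hi
  set δ := x * w ^ i with hδ
  have h2 : δ = (δ.re : Eis) + 3 * ((d : Eis) * w) := by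
    conv_lhs => rw [eq_re_add_im δ, hd]
    push_cast; ring
  have h3 : ∃ C : ℤ, (C = 1 ∨ C = -1) ∧ ∃ b : ℤ, δ.re ^ 3 = C + 9 * b := by
    generalize δ.re = c at hc
    have : c % 3 = 1 ∨ c % 3 = 2 := by omega
    rcases this with h | h
    · obtain ⟨u, hu⟩ : ∃ u, c = 1 + 3 * u := ⟨c / 3, by omega⟩
      exact ⟨1, Or.inl rfl, u + 3 * u ^ 2 + 3 * u ^ 3, by rw [hu]; ring⟩
    · obtain ⟨u, hu⟩ : ∃ u, c = -1 + 3 * u := ⟨(c + 1) / 3, by omega⟩
      exact ⟨-1, Or.inr rfl, u - 3 * u ^ 2 + 3 * u ^ 3, by rw [hu]; ring⟩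
  obtain ⟨C, hC, b, hb⟩ := h3
  refine ⟨C, hC, (b : Eis) + ((δ.re : Eis) ^ 2 * ((d : Eis) * w) +
    3 * (δ.re : Eis) * ((d : Eis) * w) ^ 2 + 3 * ((d : Eis) * w) ^ 3), ?_⟩
  have hb' : (δ.re : Eis) ^ 3 = (C : Eis) + 9 * (b : Eis) := by
    have := congrArg (Int.cast : ℤ → Eis) hb
    push_cast at this; exact this
  rw [h1]
  conv_lhs => rw [h2]
  linear_combination hb'

section split

variable {p : ℕ} [hp : Fact p.Prime] {π : Eis}

/-- The value of `π` modulo its conjugate. -/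
theorem hom_pi (φ : Eis →+* ZMod p) (hφ : ∀ x, φ x = 0 ↔ conj π ∣ x) {M : ℤ}
    (hM : π.im = 3 * M) : φ π = -((φ r3) ^ 3 * (M : ZMod p)) := by
  have h1 : φ (conj π) = 0 := (hφ _).mpr dvd_rfl
  have h2 : π - conj π = 3 * (M : Eis) * r3 := by
    rw [r3_eq]
    have h3 : π = (π.re : Eis) + 3 * (M : Eis) * w := by
      conv_lhs => rw [eq_re_add_im π, hM]
      push_cast; ring
    have h4 : conj π = (π.re : Eis) + 3 * (M : Eis) * w ^ 2 := by
      conv_lhs => rw [h3]
      rw [map_add, map_mul, map_mul, conj_w, conj_intCast, conj_intCast]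
      have : conj 3 = 3 := conj_natCast 3
      rw [this]
    linear_combination h3 - h4
  have h5 := congrArg φ h2
  rw [map_sub, h1, sub_zero, map_mul, map_mul, map_intCast] at h5
  have h6 : (φ r3) ^ 2 = -3 := by rw [← map_pow, r3_sq, map_neg, hom_three]
  rw [h5, hom_three]
  linear_combination ((M : ZMod p) * φ r3) * h6

omit hp in
theorem conj_norm (hπ : π.norm = p) : (conj π).norm = p := by rw [norm_conj, hπ]

theorem sym_rat_conj (hp3 : p % 3 = 1) (hπ : π.norm = p) {s : ℤ} (hs : ¬ (p : ℤ) ∣ s) :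
    sym (conj π) (s : Eis) = - sym π (s : Eis) := by
  have h1 : ¬ π ∣ (s : Eis) := by rwa [dvd_intCast_iff hπ]
  have := sym_conj (prime_of_norm_eq hπ) (not_dvd_three hπ hp3) h1
  rwa [conj_intCast] at this

theorem conj_im_dvd (hprim : (3 : ℤ) ∣ π.im) : (3 : ℤ) ∣ (conj π).im := by
  rw [conj_im, dvd_neg]; exact hprim

/-- Case I-a. -/
theorem caseIa (hp9 : p % 9 = 1) (hπ : π.norm = p) {M : ℤ} (hM : π.im = 3 * M)
    (φ : Eis →+* ZMod p) (hφ : ∀ x, φ x = 0 ↔ conj π ∣ x)
    {e : ℕ} (he : e = 1 ∨ e = 2) {γ η : Eis} (hη : η = π ^ e * γ ^ 3) (hγ3 : ¬ lam ∣ γ)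
    (hcop : IsCoprime η (conj η)) {s : ℤ} (hs : η - conj η = 3 * r3 * (s : Eis) ^ 3) :
    ∃ τ : ZMod p, τ ^ 9 = (M : ZMod p) ^ e * (φ r3) ^ (3 * (e - 1)) := by
  have hp3 : p % 3 = 1 := by omega
  have hprim : (3 : ℤ) ∣ π.im := ⟨M, hM⟩
  have hπpr := prime_of_norm_eq hπ
  have hπ3 := not_dvd_three hπ hp3
  have hπc := conj_norm hπ
  have hπcpr := prime_of_norm_eq hπc
  have hπc3 := not_dvd_three hπc hp3
  have hcprim := conj_im_dvd hprim
  have hnc := not_dvd_conj hp3 hπ
  have hnc' : ¬ conj π ∣ π := by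
    have := not_dvd_conj hp3 hπc
    rwa [conj_conj] at this
  have hcopp : ∀ l : Eis, Prime l → ¬ (l ∣ η ∧ l ∣ conj η) := by
    rintro l hl ⟨h1, h2⟩
    exact hl.not_isUnit (hcop.isUnit_of_dvd' h1 h2)
  have hce : conj η = conj π ^ e * conj γ ^ 3 := by rw [hη, map_mul, map_pow, map_pow]
  have he0 : e ≠ 0 := by omega
  have hγ0 : γ ≠ 0 := by
    rintro rfl
    exact hγ3 (dvd_zero _)
  -- conj π does not divide γ and s
  have hcπη : conj π ∣ conj η := by
    rw [hce]; exact Dvd.dvd.mul_right (dvd_pow_self _ he0) _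
  have hcγ : ¬ conj π ∣ γ := by
    intro h
    refine hcopp _ hπcpr ⟨?_, hcπη⟩
    rw [hη]
    exact Dvd.dvd.mul_left (Dvd.dvd.pow h (by norm_num)) _
  have hps : ¬ (p : ℤ) ∣ s := by
    intro h
    have h1 : conj π ∣ (s : Eis) := by rwa [dvd_intCast_iff hπc]
    have h2 : conj π ∣ η := by
      have : η = conj η + 3 * r3 * (s : Eis) ^ 3 := by rw [← hs]; ring
      rw [this]
      exact dvd_add hcπη (Dvd.dvd.mul_left (Dvd.dvd.pow h1 (by norm_num)) _)
    exact hcopp _ hπcpr ⟨h2, hcπη⟩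
  -- symbols of s
  have hsymη : ∀ l : Eis, Prime l → ¬ l ∣ 3 → ¬ l ∣ η → sym l η = e * sym l π := by
    intro l hl hl3 hlη
    have h1 : ¬ l ∣ π := fun h => hlη (by
      rw [hη]; exact Dvd.dvd.mul_right (Dvd.dvd.pow h he0) _)
    have h2 : ¬ l ∣ γ := fun h => hlη (by
      rw [hη]; exact Dvd.dvd.mul_left (Dvd.dvd.pow h (by norm_num)) _)
    rw [hη, sym_mul hl hl3 (fun h => h1 (hl.dvd_of_dvd_pow h))
      (fun h => h2 (hl.dvd_of_dvd_pow h)), sym_cube hl hl3 h2, sym_pow hl hl3 h1, add_zero]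
  have hsymη' : ∀ l : Eis, Prime l → ¬ l ∣ 3 → ¬ l ∣ conj η →
      sym l (conj η) = e * sym l (conj π) := by
    intro l hl hl3 hlη
    have h1 : ¬ l ∣ conj π := fun h => hlη (by
      rw [hce]; exact Dvd.dvd.mul_right (Dvd.dvd.pow h he0) _)
    have h2 : ¬ l ∣ conj γ := fun h => hlη (by
      rw [hce]; exact Dvd.dvd.mul_left (Dvd.dvd.pow h (by norm_num)) _)
    rw [hce, sym_mul hl hl3 (fun h => h1 (hl.dvd_of_dvd_pow h))
      (fun h => h2 (hl.dvd_of_dvd_pow h)), sym_cube hl hl3 h2, sym_pow hl hl3 h1, add_zero]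
  have hee : ∀ x : ZMod 3, (e : ZMod 3) * x = 0 → x = 0 := by
    rcases he with rfl | rfl
    · intro x; simp
    · intro x; push_cast; revert x; decide
  have hSprime : ∀ l : Eis, Prime l → ¬ l ∣ 3 → l ∣ (s : Eis) →
      sym l π - sym l (conj π) = 0 := by
    intro l hl hl3 hls
    have h1 : l ∣ η - conj η := by
      rw [hs]; exact Dvd.dvd.mul_left (Dvd.dvd.pow hls (by norm_num)) _
    have h2 : ¬ l ∣ η := by
      intro h
      refine hcopp l hl ⟨h, ?_⟩
      have := dvd_sub h h1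
      simpa using this
    have h3 : ¬ l ∣ conj η := by
      intro h
      refine h2 ?_
      have := dvd_add h1 h
      simpa using this
    have h4 := sym_congr h1
    rw [hsymη l hl hl3 h2, hsymη' l hl hl3 h3] at h4
    apply hee
    rw [mul_sub, h4, sub_self]
  have hs0 : s ≠ 0 := by rintro rfl; simp at hps
  have hsS : sym π (s : Eis) = 0 := by
    obtain ⟨k, s', hs'3, hss⟩ : ∃ k : ℕ, ∃ s' : ℤ, ¬ (3 : ℤ) ∣ s' ∧ s = 3 ^ k * s' := by
      obtain ⟨k, s', h1, h2⟩ := WfDvdMonoid.max_power_factor hs0 Int.prime_three.irreducible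
      exact ⟨k, s', h1, h2⟩
    have hps' : ¬ (p : ℤ) ∣ s' := fun h => hps (by rw [hss]; exact Dvd.dvd.mul_left h _)
    have hπs' : ¬ π ∣ (s' : Eis) := by rwa [dvd_intCast_iff hπ]
    have h1 := lemmaS hp3 hπ hprim 0 s' hs'3 hps' (by
      intro l hl hls
      rw [zero_mul]
      have hl3 : ¬ l ∣ 3 := by
        intro h
        have h1 := (dvd_three_iff hl).mp h
        have h2 : lam ∣ (s' : Eis) := h1.symm.dvd.trans hls
        rw [lam_dvd_iff] at h2
        simp only [intCast_re, intCast_im, add_zero] at h2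
        exact hs'3 h2
      apply hSprime l hl hl3
      rw [hss]; push_cast
      exact Dvd.dvd.mul_left hls _)
    rw [zero_mul] at h1
    have h2 : sym π (s' : Eis) = 0 := by
      generalize sym π (s' : Eis) = x at h1
      revert x; decide
    rcases Nat.eq_zero_or_pos k with hk | hk
    · rw [hss, hk, pow_zero, one_mul]; exact h2
    · -- 3 divides s, hence M
      have h3s : (3 : ℤ) ∣ s := by
        rw [hss]; exact Dvd.dvd.mul_right (dvd_pow_self _ (by omega)) _
      have h3M : (3 : ℤ) ∣ M := by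
        obtain ⟨C, hC, y, hy⟩ := cube_mod_nine hγ3
        obtain ⟨c, hc⟩ := h3s
        have hre := re_not_dvd hp3 hπ hprim
        -- η - conj η is divisible by 81
        have h4 : η.im = 3 * (s ^ 3) := by
          have h5 := congrArg Eis.im hs
          have h6 : (3 * r3 * (s : Eis) ^ 3).im = 6 * s ^ 3 := by
            have : (3 * r3 * (s : Eis) ^ 3) = ((s ^ 3 : ℤ) : Eis) * ⟨3, 6⟩ := by
              have : (3 * r3 : Eis) = ⟨3, 6⟩ := by decide
              rw [this]; push_cast; ring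
            rw [this, mul_im, intCast_re, intCast_im]; ring
          rw [h6] at h5
          simp only [sub_im, conj_im] at h5
          linarith
        rw [hc] at h4
        have h7 : (9 : ℤ) ∣ η.im := ⟨9 * c ^ 3, by rw [h4]; ring⟩
        -- η = C π^e mod 9
        have h8 : η = (C : Eis) * π ^ e + 9 * (π ^ e * y) := by
          rw [hη, hy]; ring
        have h9 : (9 * (π ^ e * y) : Eis).im = 9 * (π ^ e * y).im := by
          have : (9 : Eis) = ((9 : ℤ) : Eis) := by ext <;> simp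
          rw [this, mul_im, intCast_re, intCast_im]; ring
        have h10 : (9 : ℤ) ∣ C * (π ^ e).im := by
          have := congrArg Eis.im h8
          rw [add_im, h9, mul_im, intCast_re, intCast_im] at this
          have h11 : C * (π ^ e).im = η.im - 9 * (π ^ e * y).im := by rw [this]; ring
          rw [h11]
          exact dvd_sub h7 (dvd_mul_right _ _)
        have h11 : (9 : ℤ) ∣ (π ^ e).im := by
          rcases hC with h | h <;> rw [h] at h10
          · simpa using h10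
          · simpa using h10
        rcases he with h | h
        · rw [h, pow_one, hM] at h11
          omega
        · rw [h, pow_two, mul_im, hM] at h11
          have : (9 : ℤ) ∣ 6 * (π.re * M) := by
            have h12 : 6 * (π.re * M) = (π.re * (3 * M) + 3 * M * π.re - 3 * M * (3 * M))
              + 9 * M ^ 2 := by ring
            rw [h12]
            exact dvd_add h11 (dvd_mul_right _ _)
          have h13 : (3 : ℤ) ∣ π.re * M := by omega
          exact (Int.prime_three.dvd_or_dvd h13).resolve_left hre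
      have hlam : sym π lam = 0 := by
        rw [sym_lam' hp9 hπ hM]
        obtain ⟨c, hc⟩ := h3M
        rw [hc]
        push_cast
        have h3 : (3 : ZMod 3) = 0 := by decide
        rw [h3]; ring
      have hπlam : ¬ π ∣ lam := fun h => hπ3 (h.trans lam_dvd_three)
      have h3' : sym π 3 = 0 := by
        rw [three_eq, sym_mul hπpr hπ3 (not_dvd_of_isUnit hπpr (isUnit_w.pow 2).neg)
          (fun h => hπlam (hπpr.dvd_of_dvd_pow h)), sym_unit hp9 hπ (isUnit_w.pow 2).neg,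
          sym_pow hπpr hπ3 hπlam, hlam]
        ring
      rw [hss]; push_cast
      rw [sym_mul hπpr hπ3 (fun h => hπ3 (hπpr.dvd_of_dvd_pow h)) hπs',
        sym_pow hπpr hπ3 hπ3, h3', h2]
      ring
  have hsS' : sym (conj π) (s : Eis) = 0 := by rw [sym_rat_conj hp3 hπ hps, hsS, neg_zero]
  -- symbol of γ
  have hγS : sym (conj π) γ = 0 := by
    have := lemmaR hp9 hπc hcprim 0 γ hγ0 hγ3 hcγ (by
      intro l hl hlγ
      rw [zero_mul]
      have hl3 : ¬ l ∣ 3 := fun h => hγ3 (((dvd_three_iff hl).mp h).symm.dvd.trans hlγ)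
      have hlη : l ∣ η := by
        rw [hη]; exact Dvd.dvd.mul_left (Dvd.dvd.pow hlγ (by norm_num)) _
      have hlη' : ¬ l ∣ conj η := fun h => hcopp l hl ⟨hlη, h⟩
      have e1 : 3 * r3 * (s : Eis) ^ 3 = -(r3 * (s : Eis)) ^ 3 := by
        linear_combination (r3 * (s : Eis) ^ 3) * r3_sq
      have h1 : l ∣ conj η - (r3 * (s : Eis)) ^ 3 := by
        have e2 : conj η - (r3 * (s : Eis)) ^ 3 = η := by
          rw [e1] at hs
          linear_combination (-1 : Eis) * hs
        rw [e2]; exact hlη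
      have h2 := sym_congr h1
      have h3 : ¬ l ∣ r3 * (s : Eis) := by
        intro h
        apply hlη'
        have h4 : l ∣ (r3 * (s : Eis)) ^ 3 := Dvd.dvd.pow h (by norm_num)
        have := dvd_add h1 h4
        simpa using this
      rw [sym_cube hl hl3 h3, hsymη' l hl hl3 hlη'] at h2
      exact hee _ h2)
    rw [zero_mul] at this; exact this
  -- conclusion
  obtain ⟨k, hk⟩ : ∃ k, p - 1 = 9 * k := ⟨(p - 1) / 9, by omega⟩
  have hNc : (N (conj π) - 1) / 3 = 3 * k := by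
    have : N (conj π) = p := by
      have := N_cast (conj π)
      rw [hπc] at this
      exact_mod_cast this
    rw [this]; omega
  have hφc : φ (conj π) = 0 := (hφ _).mpr dvd_rfl
  have hcs : ¬ conj π ∣ (s : Eis) := by rwa [dvd_intCast_iff hπc]
  have m1 := map_pow_eq hπcpr hπc3 hcs φ hφc
  have m2 := map_pow_eq hπcpr hπc3 hcγ φ hφc
  rw [hNc, hsS', ZMod.val_zero, pow_zero] at m1
  rw [hNc, hγS, ZMod.val_zero, pow_zero] at m2
  have hφs : φ (s : Eis) ≠ 0 := fun h => hcs ((hφ _).mp h)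
  have hφγ : φ γ ≠ 0 := fun h => hcγ ((hφ _).mp h)
  have hr2 : (φ r3) ^ 2 = -3 := by rw [← map_pow, r3_sq, map_neg, hom_three]
  have h3ne : (3 : ZMod p) ≠ 0 := by
    intro h
    have : ((3 : ℕ) : ZMod p) = 0 := by exact_mod_cast h
    rw [ZMod.natCast_eq_zero_iff] at this
    have := (Nat.prime_dvd_prime_iff_eq hp.out Nat.prime_three).mp this
    omega
  have hr0 : φ r3 ≠ 0 := by
    intro h
    rw [h] at hr2
    apply h3ne
    linear_combination hr2
  have hφη : φ (conj η) = 0 := (hφ _).mpr hcπη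
  have hrel : (φ π) ^ e * (φ γ) ^ 3 = -((φ r3) ^ 3 * (φ (s : Eis)) ^ 3) := by
    have h1 := congrArg φ hs
    rw [map_sub, hφη, sub_zero, hη, map_mul, map_mul, map_mul, map_pow, map_pow, map_pow] at h1
    rw [h1, hom_three]
    linear_combination ((φ r3) * φ (s : Eis) ^ 3) * hr2
  rw [hom_pi φ hφ hM] at hrel
  -- the element is ± a cube of (s/γ)
  have hX : ∃ ε : ZMod p, (ε = 1 ∨ ε = -1) ∧
      (M : ZMod p) ^ e * (φ r3) ^ (3 * (e - 1)) = ε * (φ (s : Eis) / φ γ) ^ 3 := by
    rcases he with rfl | rfl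
    · refine ⟨1, Or.inl rfl, ?_⟩
      simp only [pow_one] at hrel ⊢
      field_simp
      apply mul_left_cancel₀ (pow_ne_zero 3 hr0)
      simp only [Nat.sub_self, mul_zero, pow_zero, mul_one]
      linear_combination -hrel
    · refine ⟨-1, Or.inr rfl, ?_⟩
      have e1 : 3 * (2 - 1) = 3 := rfl
      rw [e1]
      field_simp
      apply mul_left_cancel₀ (pow_ne_zero 3 hr0)
      linear_combination hrel
  obtain ⟨ε, hε, hX⟩ := hX
  rw [hX]
  apply exists_root (k := k) hk
  · apply mul_ne_zero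
    · rcases hε with h | h <;> rw [h] <;> simp
    · exact pow_ne_zero _ (div_ne_zero hφs hφγ)
  · have hεk : ε ^ k = 1 := by
      rcases hε with h | h
      · rw [h, one_pow]
      · rw [h]
        apply Even.neg_one_pow
        have hodd : p % 2 = 1 := by
          rcases hp.out.eq_two_or_odd with h2 | h2
          · omega
          · exact h2
        rw [Nat.even_iff]; omega
    rw [mul_pow, hεk, one_mul, ← pow_mul, div_pow, m1, m2, div_one]

end split

end Eis

end Pool.Agent.Lib_helper18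

end

section

/-!
# The second case in which `p` divides the norm factor
-/

namespace Pool.Agent.Lib_helper18

namespace Eis

theorem sum_eq (x : Eis) : ((x.re + x.im : ℤ) : Eis) = -(w * x + w ^ 2 * conj x) := by
  rw [w_sq]
  ext
  · simp only [intCast_re, neg_re, add_re, mul_re, w_re, w_im, conj_re, conj_im, sub_re, sub_im,
      neg_im, one_re, one_im]
    ring
  · simp only [intCast_im, neg_im, add_im, mul_im, w_re, w_im, conj_re, conj_im, sub_re, sub_im,
      neg_re, one_re, one_im]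
    ring

theorem hom_w_pow {R : Type*} [CommRing R] (φ : Eis →+* R) {i j : ℕ}
    (h : (i : ZMod 3) = (j : ZMod 3)) : (φ w) ^ i = (φ w) ^ j := by
  rw [ZMod.natCast_eq_natCast_iff'] at h
  rw [← map_pow, ← map_pow, w_pow_mod i, w_pow_mod j, h]

section split

variable {p : ℕ} [hp : Fact p.Prime] {π : Eis}

/-- Case I-b. -/
theorem caseIb (hp9 : p % 9 = 1) (hπ : π.norm = p) {M : ℤ} (hM : π.im = 3 * M)
    (φ : Eis →+* ZMod p) (hφ : ∀ x, φ x = 0 ↔ conj π ∣ x)
    {e : ℕ} (he : e = 1 ∨ e = 2) {γ ξ : Eis} (hξ : ξ = π ^ e * γ ^ 3) (hγ3 : ¬ lam ∣ γ)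
    (hcop : IsCoprime ξ (conj ξ)) {s : ℤ} (hs : ξ.re + ξ.im = s ^ 3) :
    ∃ τ : ZMod p, τ ^ 9 = (M : ZMod p) ^ e * (φ r3) ^ (3 * (e - 1)) := by
  have hp3 : p % 3 = 1 := by omega
  have hprim : (3 : ℤ) ∣ π.im := ⟨M, hM⟩
  have hπpr := prime_of_norm_eq hπ
  have hπ3 := not_dvd_three hπ hp3
  have hre := re_not_dvd hp3 hπ hprim
  have hπc := conj_norm hπ
  have hπcpr := prime_of_norm_eq hπc
  have hπc3 := not_dvd_three hπc hp3
  have hcprim := conj_im_dvd hprim
  have hcopp : ∀ l : Eis, Prime l → ¬ (l ∣ ξ ∧ l ∣ conj ξ) := by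
    rintro l hl ⟨h1, h2⟩
    exact hl.not_isUnit (hcop.isUnit_of_dvd' h1 h2)
  have hce : conj ξ = conj π ^ e * conj γ ^ 3 := by rw [hξ, map_mul, map_pow, map_pow]
  have he0 : e ≠ 0 := by omega
  have hγ0 : γ ≠ 0 := by
    rintro rfl
    exact hγ3 (dvd_zero _)
  have hsE : (s : Eis) ^ 3 = -(w * ξ + w ^ 2 * conj ξ) := by
    rw [← sum_eq, hs]; push_cast; ring
  have hcπη : conj π ∣ conj ξ := by
    rw [hce]; exact Dvd.dvd.mul_right (dvd_pow_self _ he0) _
  have hcγ : ¬ conj π ∣ γ := by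
    intro h
    refine hcopp _ hπcpr ⟨?_, hcπη⟩
    rw [hξ]
    exact Dvd.dvd.mul_left (Dvd.dvd.pow h (by norm_num)) _
  have hps : ¬ (p : ℤ) ∣ s := by
    intro h
    have h1 : conj π ∣ (s : Eis) := by rwa [dvd_intCast_iff hπc]
    have h2 : conj π ∣ ξ := by
      have : ξ = -w ^ 2 * ((s : Eis) ^ 3 + w ^ 2 * conj ξ) := by
        rw [hsE]
        linear_combination (-ξ) * w_cube
      rw [this]
      exact Dvd.dvd.mul_left (dvd_add (Dvd.dvd.pow h1 (by norm_num)) (Dvd.dvd.mul_left hcπη _)) _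
    exact hcopp _ hπcpr ⟨h2, hcπη⟩
  have hsymη : ∀ l : Eis, Prime l → ¬ l ∣ 3 → ¬ l ∣ ξ → sym l ξ = e * sym l π := by
    intro l hl hl3 hlη
    have h1 : ¬ l ∣ π := fun h => hlη (by
      rw [hξ]; exact Dvd.dvd.mul_right (Dvd.dvd.pow h he0) _)
    have h2 : ¬ l ∣ γ := fun h => hlη (by
      rw [hξ]; exact Dvd.dvd.mul_left (Dvd.dvd.pow h (by norm_num)) _)
    rw [hξ, sym_mul hl hl3 (fun h => h1 (hl.dvd_of_dvd_pow h))
      (fun h => h2 (hl.dvd_of_dvd_pow h)), sym_cube hl hl3 h2, sym_pow hl hl3 h1, add_zero]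
  have hsymη' : ∀ l : Eis, Prime l → ¬ l ∣ 3 → ¬ l ∣ conj ξ →
      sym l (conj ξ) = e * sym l (conj π) := by
    intro l hl hl3 hlη
    have h1 : ¬ l ∣ conj π := fun h => hlη (by
      rw [hce]; exact Dvd.dvd.mul_right (Dvd.dvd.pow h he0) _)
    have h2 : ¬ l ∣ conj γ := fun h => hlη (by
      rw [hce]; exact Dvd.dvd.mul_left (Dvd.dvd.pow h (by norm_num)) _)
    rw [hce, sym_mul hl hl3 (fun h => h1 (hl.dvd_of_dvd_pow h))
      (fun h => h2 (hl.dvd_of_dvd_pow h)), sym_cube hl hl3 h2, sym_pow hl hl3 h1, add_zero]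
  have hee : ∀ x y : ZMod 3, (e : ZMod 3) * x = y → x = (e : ZMod 3) * y := by
    rcases he with rfl | rfl
    · intro x y; simp
    · intro x y; push_cast; revert x y; decide
  have h3 : (3 : ZMod 3) = 0 := by decide
  -- primality to 3
  have hξprim : Prim (ξ * 1) := by
    obtain ⟨i, hi⟩ := exists_prim hγ3
    have h1 : ξ * 1 = π ^ e * (γ * w ^ i) ^ 3 := by
      rw [hξ, mul_pow, ← pow_mul, mul_comm i, pow_mul, w_cube, one_pow]; ring
    rw [h1]
    exact (Prim.pow ⟨hprim, hre⟩ e).mul (hi.pow 3)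
  rw [mul_one] at hξprim
  have hs3 : ¬ (3 : ℤ) ∣ s := by
    intro h
    have h1 : (3 : ℤ) ∣ s ^ 3 := Dvd.dvd.pow h (by norm_num)
    rw [← hs] at h1
    have h2 := hξprim.1
    have h4 := hξprim.2
    omega
  -- symbol of s
  have hsS : 2 * sym π (s : Eis) = e * wt (s ^ 2) := by
    apply lemmaS hp3 hπ hprim e s hs3 hps
    intro l hl hls
    have hl3 : ¬ l ∣ 3 := by
      intro h
      have h1 := (dvd_three_iff hl).mp h
      have h2 : lam ∣ (s : Eis) := h1.symm.dvd.trans hls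
      rw [lam_dvd_iff] at h2
      simp only [intCast_re, intCast_im, add_zero] at h2
      exact hs3 h2
    have h1 : l ∣ ξ - -(w * conj ξ) := by
      have : ξ - -(w * conj ξ) = -w ^ 2 * (s : Eis) ^ 3 := by
        rw [hsE]
        linear_combination (-ξ - w * conj ξ) * w_cube
      rw [this]
      exact Dvd.dvd.mul_left (Dvd.dvd.pow hls (by norm_num)) _
    have h2 : ¬ l ∣ ξ := by
      intro h
      refine hcopp l hl ⟨h, ?_⟩
      have h4 := dvd_sub h h1
      have h5 : ξ - (ξ - -(w * conj ξ)) = -(w * conj ξ) := by ring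
      rw [h5, dvd_neg] at h4
      exact (hl.dvd_or_dvd h4).resolve_left (not_dvd_of_isUnit hl isUnit_w)
    have h3 : ¬ l ∣ conj ξ := by
      intro h
      refine h2 ?_
      have h4 := dvd_sub h1 (Dvd.dvd.mul_left h w)
      have h5 : ξ - -(w * conj ξ) - w * conj ξ = ξ := by ring
      rwa [h5] at h4
    have h4 := sym_congr h1
    have hlw := not_dvd_of_isUnit hl isUnit_w
    rw [sym_neg hl hl3 (fun h => (hl.dvd_or_dvd h).elim hlw h3), sym_mul hl hl3 hlw h3,
      hsymη l hl hl3 h2, hsymη' l hl hl3 h3, sym_w' hl hl3] at h4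
    apply hee
    linear_combination h4
  -- symbol of γ
  have hγS : sym (conj π) γ = e * wt γ.norm := by
    apply lemmaR hp9 hπc hcprim e γ hγ0 hγ3 hcγ
    intro l hl hlγ
    have hl3 : ¬ l ∣ 3 := fun h => hγ3 (((dvd_three_iff hl).mp h).symm.dvd.trans hlγ)
    have hlη : l ∣ ξ := by
      rw [hξ]; exact Dvd.dvd.mul_left (Dvd.dvd.pow hlγ (by norm_num)) _
    have hlη' : ¬ l ∣ conj ξ := fun h => hcopp l hl ⟨hlη, h⟩
    have h1 : l ∣ (s : Eis) ^ 3 - -(w ^ 2 * conj ξ) := by
      have e2 : (s : Eis) ^ 3 - -(w ^ 2 * conj ξ) = -(w * ξ) := by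
        rw [hsE]; ring
      rw [e2, dvd_neg]; exact Dvd.dvd.mul_left hlη _
    have h2 := sym_congr h1
    have hlw := not_dvd_of_isUnit hl isUnit_w
    have hlw2 := not_dvd_of_isUnit hl (isUnit_w.pow 2)
    have h3' : ¬ l ∣ (s : Eis) := by
      intro h
      have h4 : l ∣ (s : Eis) ^ 3 := Dvd.dvd.pow h (by norm_num)
      have h5 := dvd_sub h4 h1
      have h6 : (s : Eis) ^ 3 - ((s : Eis) ^ 3 - -(w ^ 2 * conj ξ)) = -(w ^ 2 * conj ξ) := by ring
      rw [h6, dvd_neg] at h5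
      exact (hl.dvd_or_dvd h5).elim hlw2 hlη'
    rw [sym_cube hl hl3 h3', sym_neg hl hl3 (fun h => (hl.dvd_or_dvd h).elim hlw2 hlη'),
      sym_mul hl hl3 hlw2 hlη', sym_pow hl hl3 hlw, sym_w' hl hl3, hsymη' l hl hl3 hlη'] at h2
    apply hee
    push_cast at h2
    linear_combination -h2 - wt l.norm * h3
  -- conversion
  have hsS' : sym (conj π) (s : Eis) = e * wt (s ^ 2) := by
    rw [sym_rat_conj hp3 hπ hps]
    linear_combination hsS - sym π (s : Eis) * h3
  have hrS : sym (conj π) r3 = ((π.re * M : ℤ) : ZMod 3) := by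
    have hlw := not_dvd_of_isUnit hπcpr isUnit_w
    have hlam : ¬ conj π ∣ lam := fun h => hπc3 (h.trans lam_dvd_three)
    have h4 : (conj π).im = 3 * (-M) := by rw [conj_im, hM]; ring
    rw [r3, sym_mul hπcpr hπc3 hlw hlam, sym_unit hp9 hπc isUnit_w, sym_lam' hp9 hπc h4,
      conj_re, hM]
    push_cast
    linear_combination (-π.re * M + 2 * M ^ 2 : ZMod 3) * h3
  -- integers
  obtain ⟨k, hk⟩ : ∃ k, p - 1 = 9 * k := ⟨(p - 1) / 9, by omega⟩
  have hp1 : (p : ℤ) = 1 + 9 * k := by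
    have := hp.out.two_le
    omega
  obtain ⟨m, hm⟩ : ∃ m, s ^ 2 = 1 + 3 * m := ⟨s ^ 2 / 3, by
    have := sq_mod_three hs3; omega⟩
  obtain ⟨n, hn⟩ : ∃ n, γ.norm = 1 + 3 * n := ⟨γ.norm / 3, by
    have := norm_emod_three_of_not_lam_dvd hγ3; omega⟩
  obtain ⟨y', hy'⟩ := hξprim.1
  obtain ⟨u, hu⟩ : ∃ u, s ^ 3 = s + 3 * u := by
    have : s % 3 = 1 ∨ s % 3 = 2 := by omega
    refine ⟨(s ^ 3 - s) / 3, ?_⟩
    have h3' : (3 : ℤ) ∣ s ^ 3 - s := by
      rcases this with h | h
      · obtain ⟨v, hv⟩ : ∃ v, s = 1 + 3 * v := ⟨s / 3, by omega⟩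
        exact ⟨2 * v + 9 * v ^ 2 + 9 * v ^ 3, by rw [hv]; ring⟩
      · obtain ⟨v, hv⟩ : ∃ v, s = -1 + 3 * v := ⟨(s + 1) / 3, by omega⟩
        exact ⟨2 * v - 9 * v ^ 2 + 9 * v ^ 3, by rw [hv]; ring⟩
    omega
  -- the congruence for s * y'
  have hsy : ((s * y' : ℤ) : ZMod 3) = ((e * π.re * M : ℤ) : ZMod 3) := by
    obtain ⟨C, hC, y, hy⟩ := cube_mod_nine hγ3
    have h8 : ξ = (C : Eis) * π ^ e + 9 * (π ^ e * y) := by
      rw [hξ, hy]; ring
    have h9 : ∀ z : Eis, (9 * z : Eis).im = 9 * z.im ∧ (9 * z : Eis).re = 9 * z.re := by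
      intro z
      have : (9 : Eis) = ((9 : ℤ) : Eis) := by ext <;> simp
      constructor
      · rw [this, mul_im, intCast_re, intCast_im]; ring
      · rw [this, mul_re, intCast_re, intCast_im]; ring
    have him := congrArg Eis.im h8
    have hrr := congrArg Eis.re h8
    rw [add_im, (h9 _).1, mul_im, intCast_re, intCast_im] at him
    rw [add_re, (h9 _).2, mul_re, intCast_re, intCast_im] at hrr
    generalize (π ^ e * y).im = z1 at him
    generalize (π ^ e * y).re = z2 at hrr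
    have hC2 : C ^ 2 = 1 := by rcases hC with h | h <;> rw [h] <;> norm_num
    have hC2' : (C : ZMod 3) ^ 2 = 1 := by exact_mod_cast congrArg (Int.cast : ℤ → ZMod 3) hC2
    rcases he with h | h
    · subst h
      rw [pow_one, hM] at him
      rw [pow_one] at hrr
      have h10 : y' = C * M + 3 * z1 := by
        rw [hy'] at him; linarith
      have h11 : s = C * π.re + 3 * (3 * z2 + y' - u) := by
        have : s ^ 3 = ξ.re + 3 * y' := by rw [← hs, hy']
        rw [hu, hrr] at this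
        linarith
      have h12 := congrArg (Int.cast : ℤ → ZMod 3) h10
      have h13 := congrArg (Int.cast : ℤ → ZMod 3) h11
      push_cast at h12 h13 ⊢
      rw [h12, h13, h3]
      linear_combination ((π.re : ZMod 3) * M) * hC2'
    · subst h
      rw [pow_two, mul_im, hM] at him
      rw [pow_two, mul_re, hM] at hrr
      have h10 : y' = C * (2 * π.re * M - 3 * M ^ 2) + 3 * z1 := by
        rw [hy'] at him; linarith
      have h11 : s = C * π.re ^ 2 + 3 * (3 * z2 + y' - u - 3 * C * M ^ 2) := by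
        have : s ^ 3 = ξ.re + 3 * y' := by rw [← hs, hy']
        rw [hu, hrr] at this
        linarith
      have h12 := congrArg (Int.cast : ℤ → ZMod 3) h10
      have h13 := congrArg (Int.cast : ℤ → ZMod 3) h11
      have h14 : (π.re : ZMod 3) ^ 3 = π.re := by
        generalize (π.re : ZMod 3) = x; revert x; decide
      push_cast at h12 h13 ⊢
      rw [h12, h13, h3]
      linear_combination (2 * (π.re : ZMod 3) ^ 3 * M) * hC2' + 2 * (M : ZMod 3) * h14
  -- the relation modulo 27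
  have h27 : ∃ W : ℤ, m - s * y' - e * k - n = 3 * W := by
    have hnorm : ξ.norm = (p : ℤ) ^ e * γ.norm ^ 3 := by
      rw [hξ, norm_mul, norm_pow, norm_pow, hπ]
    have hnx : ξ.norm = (s ^ 2) ^ 3 - 3 * ((s ^ 3 - 3 * y') * (3 * y')) := by
      have h1 : ξ.re = s ^ 3 - 3 * y' := by rw [← hs, hy']; ring
      rw [norm_def, hy', h1]; ring
    rw [hnorm, hn, hm, hu, hp1] at hnx
    rcases he with h | h
    · subst h
      refine ⟨-m ^ 2 - m ^ 3 + u * y' - y' ^ 2 + n ^ 2 + n ^ 3 + 3 * k * n + 9 * k * n ^ 2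
        + 9 * k * n ^ 3, ?_⟩
      push_cast
      linarith
    · subst h
      refine ⟨-m ^ 2 - m ^ 3 + u * y' - y' ^ 2 + n ^ 2 + n ^ 3 + 6 * k * n + 18 * k * n ^ 2
        + 18 * k * n ^ 3 + 3 * k ^ 2 * (1 + 9 * n + 27 * n ^ 2 + 27 * n ^ 3), ?_⟩
      push_cast
      linarith
  obtain ⟨W, hW⟩ := h27
  have hexp : ((2 * k + (sym (conj π) (s : Eis)).val : ℕ) : ZMod 3) =
      (((sym (conj π) γ).val + (sym (conj π) r3).val : ℕ) : ZMod 3) := by
    have hv : ∀ x : ZMod 3, ((x.val : ℕ) : ZMod 3) = x := fun x => by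
      rw [ZMod.natCast_val, ZMod.cast_id', id]
    push_cast
    rw [hv, hv, hv, hsS', hγS, hrS, wt_eq hm, wt_eq hn]
    have hW' := congrArg (Int.cast : ℤ → ZMod 3) hW
    push_cast at hW' hsy ⊢
    have he2 : (e : ZMod 3) ^ 2 = 1 := by
      rcases he with h | h <;> rw [h] <;> decide
    rw [hsy] at hW'
    linear_combination (e : ZMod 3) * hW' + ((k : ZMod 3) + π.re * M) * he2 +
      ((k : ZMod 3) + e * W) * h3
  -- conclusion
  have hNc : (N (conj π) - 1) / 3 = 3 * k := by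
    have : N (conj π) = p := by
      have := N_cast (conj π)
      rw [hπc] at this
      exact_mod_cast this
    rw [this]; omega
  have hφc : φ (conj π) = 0 := (hφ _).mpr dvd_rfl
  have hcs : ¬ conj π ∣ (s : Eis) := by rwa [dvd_intCast_iff hπc]
  have hcr : ¬ conj π ∣ r3 := by
    intro h
    rcases hπcpr.dvd_or_dvd h with h | h
    · exact not_dvd_of_isUnit hπcpr isUnit_w h
    · exact hπc3 (h.trans lam_dvd_three)
  have m1 := map_pow_eq hπcpr hπc3 hcs φ hφc
  have m2 := map_pow_eq hπcpr hπc3 hcγ φ hφc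
  have m3 := map_pow_eq hπcpr hπc3 hcr φ hφc
  rw [hNc] at m1 m2 m3
  have hφs : φ (s : Eis) ≠ 0 := fun h => hcs ((hφ _).mp h)
  have hφγ : φ γ ≠ 0 := fun h => hcγ ((hφ _).mp h)
  have hr0 : φ r3 ≠ 0 := fun h => hcr ((hφ _).mp h)
  have hr2 : (φ r3) ^ 2 = -3 := by rw [← map_pow, r3_sq, map_neg, hom_three]
  have hφη : φ (conj ξ) = 0 := (hφ _).mpr hcπη
  have hw3 : (φ w) ^ 3 = 1 := by rw [← map_pow, w_cube, map_one]
  have hw0 : φ w ≠ 0 := by
    intro h; rw [h] at hw3; norm_num at hw3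
  have hrel : (φ π) ^ e * (φ γ) ^ 3 = -((φ w) ^ 2 * (φ (s : Eis)) ^ 3) := by
    have h1 := congrArg φ hsE
    rw [map_pow, map_neg, map_add, map_mul, map_mul, hφη, mul_zero, add_zero, hξ, map_mul,
      map_pow, map_pow] at h1
    linear_combination ((φ w) ^ 2) * h1 - (φ π ^ e * φ γ ^ 3) * hw3
  rw [hom_pi φ hφ hM] at hrel
  have hX : ∃ ε : ZMod p, (ε = 1 ∨ ε = -1) ∧
      (M : ZMod p) ^ e * (φ r3) ^ (3 * (e - 1)) =
        ε * ((φ w) ^ 2 * (φ (s : Eis) / (φ γ * φ r3)) ^ 3) := by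
    rcases he with rfl | rfl
    · refine ⟨1, Or.inl rfl, ?_⟩
      simp only [pow_one] at hrel ⊢
      field_simp
      simp only [Nat.sub_self, mul_zero, pow_zero, mul_one]
      linear_combination -hrel
    · refine ⟨-1, Or.inr rfl, ?_⟩
      have e1 : 3 * (2 - 1) = 3 := rfl
      rw [e1]
      field_simp
      linear_combination hrel
  obtain ⟨ε, hε, hX⟩ := hX
  rw [hX]
  apply exists_root (k := k) hk
  · apply mul_ne_zero
    · rcases hε with h | h <;> rw [h] <;> simp
    · exact mul_ne_zero (pow_ne_zero _ hw0)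
        (pow_ne_zero _ (div_ne_zero hφs (mul_ne_zero hφγ hr0)))
  · have hεk : ε ^ k = 1 := by
      rcases hε with h | h
      · rw [h, one_pow]
      · rw [h]
        apply Even.neg_one_pow
        have hodd : p % 2 = 1 := by
          rcases hp.out.eq_two_or_odd with h2 | h2
          · omega
          · exact h2
        rw [Nat.even_iff]; omega
    have h5 := hom_w_pow φ hexp
    rw [pow_add, pow_add, ← m1, ← m2, ← m3] at h5
    rw [mul_pow, hεk, one_mul, mul_pow, ← pow_mul, ← pow_mul, div_pow, mul_pow]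
    rw [← mul_div_assoc, h5, div_self]
    exact mul_ne_zero (pow_ne_zero _ hφγ) (pow_ne_zero _ hr0)

end split

end Eis

end Pool.Agent.Lib_helper18

end

section

/-!
# The first descent on `x^3 + y^3 = p^e z^3`
-/

namespace Pool.Agent.Lib_helper18

/-- The conclusion of the second descent: `M^e` is `27^(e-1)` times a ninth power. -/
def Concl (p e : ℕ) (M : ℤ) : Prop := ∃ τ : ZMod p, (M : ZMod p) ^ e = 27 ^ (e - 1) * τ ^ 9

theorem Concl.neg {p e : ℕ} (he : e = 1 ∨ e = 2) {M : ℤ} (h : Concl p e (-M)) :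
    Concl p e M := by
  obtain ⟨τ, hτ⟩ := h
  rcases he with rfl | rfl
  · refine ⟨-τ, ?_⟩
    push_cast at hτ
    linear_combination -hτ
  · refine ⟨τ, ?_⟩
    push_cast at hτ
    linear_combination hτ

namespace Eis

theorem coprime_xi {x y : ℤ} (h : IsCoprime x y) {l : Eis} (hl : Prime l)
    (h1 : l ∣ (⟨x, y⟩ : Eis)) (h2 : l ∣ conj ⟨x, y⟩) : Associated l lam := by
  obtain ⟨u, v, huv⟩ := h
  have e1 : r3 * (y : Eis) = (⟨x, y⟩ : Eis) - conj ⟨x, y⟩ := by
    rw [r3_eq, w_sq]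
    ext
    · simp only [mul_re, sub_re, conj_re, sub_im, neg_re, neg_im, one_re, one_im, w_re, w_im,
        intCast_re, intCast_im]; ring
    · simp only [mul_im, sub_re, conj_im, sub_im, neg_re, neg_im, one_re, one_im, w_re, w_im,
        intCast_re, intCast_im]; ring
  have e2 : r3 * (x : Eis) = w * conj ⟨x, y⟩ - w ^ 2 * (⟨x, y⟩ : Eis) := by
    rw [r3_eq, w_sq]
    ext
    · simp only [mul_re, sub_re, conj_re, conj_im, sub_im, neg_re, neg_im, one_re, one_im, w_re,
        w_im, intCast_re, intCast_im]; ring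
    · simp only [mul_im, sub_re, conj_re, conj_im, sub_im, neg_re, neg_im, one_re, one_im, w_re,
        w_im, intCast_re, intCast_im]; ring
  have h3 : l ∣ r3 * (y : Eis) := by rw [e1]; exact dvd_sub h1 h2
  have h4 : l ∣ r3 * (x : Eis) := by
    rw [e2]; exact dvd_sub (Dvd.dvd.mul_left h2 _) (Dvd.dvd.mul_left h1 _)
  have h5 : l ∣ r3 := by
    have : r3 = (u : Eis) * (r3 * (x : Eis)) + (v : Eis) * (r3 * (y : Eis)) := by
      have h6 := congrArg (Int.cast : ℤ → Eis) huv
      push_cast at h6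
      linear_combination (-r3) * h6
    rw [this]
    exact dvd_add (Dvd.dvd.mul_left h4 _) (Dvd.dvd.mul_left h3 _)
  have h6 : l ∣ lam := (hl.dvd_or_dvd h5).resolve_left (not_dvd_of_isUnit hl isUnit_w)
  exact hl.associated_of_dvd prime_lam h6

theorem extract {ρ η : Eis} (hρ : Prim ρ) (hρη : ρ ∣ η) (hη : Prim η)
    (hcop : IsCoprime η (conj η)) {t : ℤ} (h : η.norm = ρ.norm * t ^ 3) :
    ∃ γ, η = ρ * γ ^ 3 ∧ ¬ lam ∣ γ := by
  obtain ⟨η', hη'⟩ := hρη
  have hρ0 : ρ.norm ≠ 0 := by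
    intro h0
    rw [norm_eq_zero] at h0
    exact hρ.not_lam_dvd (by rw [h0]; exact dvd_zero _)
  have hn : η'.norm = t ^ 3 := by
    rw [hη', norm_mul] at h
    exact mul_left_cancel₀ hρ0 h
  have h1 : η' * conj η' = (t : Eis) ^ 3 := by
    rw [mul_conj, hn]; push_cast; rfl
  have hcop' : IsCoprime η' (conj η') := by
    have h2 : η' ∣ η := ⟨ρ, by rw [hη']; ring⟩
    exact (hcop.of_isCoprime_of_dvd_left h2).of_isCoprime_of_dvd_right (conj_dvd h2)
  obtain ⟨d, u, hu⟩ := exists_associated_pow_of_mul_eq_pow' hcop' h1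
  have hld : ¬ lam ∣ d := by
    intro h2
    apply hη.not_lam_dvd
    rw [hη', ← hu]
    exact Dvd.dvd.mul_left (Dvd.dvd.mul_right (Dvd.dvd.pow h2 (by norm_num)) _) _
  obtain ⟨i, hi⟩ := exists_prim hld
  have h3 : ρ * d ^ 3 = ρ * (d * w ^ i) ^ 3 := by
    rw [mul_pow, ← pow_mul, mul_comm i, pow_mul, w_cube, one_pow]; ring
  have h4 : Prim (ρ * d ^ 3) := by rw [h3]; exact hρ.mul (hi.pow 3)
  have h5 : Prim (ρ * d ^ 3 * u) := by rw [mul_assoc, hu, ← hη']; exact hη
  rcases h4.unit u.isUnit h5 with h6 | h6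
  · exact ⟨d, by rw [hη', ← hu, h6, mul_one], hld⟩
  · exact ⟨-d, by rw [hη', ← hu, h6]; ring, by rwa [dvd_neg]⟩

section split

variable {p : ℕ} [hp : Fact p.Prime] {π : Eis}

/-- conclusion of Cases I-a and I-b in the uniform form -/
theorem concl_of_root (hp3 : p % 3 = 1) {e : ℕ} (he : e = 1 ∨ e = 2) {M : ℤ} {r : ZMod p}
    (hr : r ^ 2 = -3) (h : ∃ τ : ZMod p, τ ^ 9 = (M : ZMod p) ^ e * r ^ (3 * (e - 1))) :
    Concl p e M := by
  obtain ⟨τ, hτ⟩ := h
  rcases he with rfl | rfl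
  · refine ⟨τ, ?_⟩
    simp only [Nat.sub_self, mul_zero, pow_zero, mul_one] at hτ
    rw [hτ]; simp
  · have h3ne : (3 : ZMod p) ≠ 0 := by
      intro h
      have : ((3 : ℕ) : ZMod p) = 0 := by exact_mod_cast h
      rw [ZMod.natCast_eq_zero_iff] at this
      have := (Nat.prime_dvd_prime_iff_eq hp.out Nat.prime_three).mp this
      omega
    have hr0 : r ≠ 0 := by
      rintro rfl
      apply h3ne
      linear_combination hr
    have e1 : 3 * (2 - 1) = 3 := rfl
    rw [e1] at hτ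
    refine ⟨-(τ / r), ?_⟩
    have h4 : (27 : ZMod p) * (-(τ / r)) ^ 9 = 27 * (-(τ ^ 9 / r ^ 9)) := by
      rw [Odd.neg_pow (by decide), div_pow]
    rw [show 27 ^ (2 - 1) = (27 : ZMod p) by norm_num, h4, hτ]
    have hr6 : r ^ 6 = -27 := by
      have : r ^ 6 = (r ^ 2) ^ 3 := by ring
      rw [this, hr]; norm_num
    have h27 : (27 : ZMod p) = - r ^ 6 := by rw [hr6]; ring
    rw [h27]
    field_simp

/-- splitting off the power of `p` -/
theorem exists_rho (hπ : π.norm = p) (e : ℕ) (he : 0 < e) {η : Eis}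
    (hcop : IsCoprime η (conj η)) (h : ((p : ℤ) ^ e) ∣ η.norm) :
    π ^ e ∣ η ∨ conj π ^ e ∣ η := by
  have hπpr := prime_of_norm_eq hπ
  have hπcpr := prime_of_norm_eq (conj_norm hπ)
  have h1 : (p : Eis) ^ e ∣ η * conj η := by
    rw [mul_conj]
    have := (intCast_dvd_intCast (m := (p : ℤ) ^ e) (n := η.norm)).mpr h
    push_cast at this
    exact this
  have hcopp : ∀ l : Eis, Prime l → ¬ (l ∣ η ∧ l ∣ conj η) := by
    rintro l hl ⟨h1, h2⟩
    exact hl.not_isUnit (hcop.isUnit_of_dvd' h1 h2)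
  have h2 : π ^ e ∣ η * conj η := (pow_dvd_pow_of_dvd (dvd_p hπ) e).trans h1
  have h3 : conj π ^ e ∣ η * conj η := (pow_dvd_pow_of_dvd (dvd_p (conj_norm hπ)) e).trans h1
  rcases hπpr.dvd_or_dvd ((dvd_pow_self π he.ne').trans h2) with h4 | h4
  · left
    have h5 : ¬ π ∣ conj η := fun h => hcopp π hπpr ⟨h4, h⟩
    exact hπpr.pow_dvd_of_dvd_mul_right e h5 h2
  · right
    have h6 : conj π ∣ η := by have := conj_dvd h4; rwa [conj_conj] at this
    have h5 : ¬ conj π ∣ conj η := fun h => hcopp _ hπcpr ⟨h6, h⟩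
    exact hπcpr.pow_dvd_of_dvd_mul_right e h5 h3

end split

end Eis

theorem sq_eq_one_iff_of_side {a : ℤ} (h : a ^ 2 = 1) : a = 1 ∨ a = -1 :=
  sq_eq_one_iff.mp h

/-- three pairwise coprime integers with product `p^e s^3` -/
theorem three_factors {p : ℕ} [hp : Fact p.Prime] {e : ℕ} {u v t s : ℤ} (huv : IsCoprime u v)
    (hut : IsCoprime u t) (hvt : IsCoprime v t) (h : u * v * t = (p : ℤ) ^ e * s ^ 3)
    (hs : s ≠ 0) (hpu : (p : ℤ) ∣ u) :
    ∃ a b c : ℤ, u = (p : ℤ) ^ e * a ^ 3 ∧ v = b ^ 3 ∧ t = c ^ 3 ∧ a ≠ 0 ∧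
      a.natAbs ≤ s.natAbs := by
  have hpp : Prime (p : ℤ) := Nat.prime_iff_prime_int.mp hp.out
  have hpvt : ¬ (p : ℤ) ∣ v * t := by
    intro h1
    rcases hpp.dvd_or_dvd h1 with h2 | h2
    · exact hpp.not_isUnit (huv.isUnit_of_dvd' hpu h2)
    · exact hpp.not_isUnit (hut.isUnit_of_dvd' hpu h2)
  have h1 : (p : ℤ) ^ e ∣ u := by
    apply hpp.pow_dvd_of_dvd_mul_right e hpvt
    rw [← mul_assoc, h]
    exact dvd_mul_right _ _
  obtain ⟨u', hu'⟩ := h1
  have hp0 : (p : ℤ) ^ e ≠ 0 := pow_ne_zero _ hpp.ne_zero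
  have h2 : u' * (v * t) = s ^ 3 := by
    apply mul_left_cancel₀ hp0
    rw [← h, hu']; ring
  have hu'd : u' ∣ u := ⟨(p : ℤ) ^ e, by rw [hu']; ring⟩
  have hco : IsCoprime u' (v * t) :=
    ((huv.of_isCoprime_of_dvd_left hu'd).mul_right (hut.of_isCoprime_of_dvd_left hu'd))
  obtain ⟨a, ha⟩ := Int.eq_pow_of_mul_eq_pow_odd_left hco (by decide : Odd 3) h2
  obtain ⟨d, hd⟩ := Int.eq_pow_of_mul_eq_pow_odd_right hco (by decide : Odd 3) h2
  obtain ⟨b, hb⟩ := Int.eq_pow_of_mul_eq_pow_odd_left hvt (by decide : Odd 3) hd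
  obtain ⟨c, hc⟩ := Int.eq_pow_of_mul_eq_pow_odd_right hvt (by decide : Odd 3) hd
  have ha0 : a ≠ 0 := by
    rintro rfl
    rw [ha] at h2
    have : s ^ 3 = 0 := by rw [← h2]; ring
    exact hs (pow_eq_zero_iff (by norm_num) |>.mp this)
  refine ⟨a, b, c, by rw [hu', ha], hb, hc, ha0, ?_⟩
  have h3 : a ^ 3 ∣ s ^ 3 := ⟨v * t, by rw [← h2, ha]⟩
  have h4 : a ∣ s := (Int.pow_dvd_pow_iff (by norm_num)).mp h3
  exact Nat.le_of_dvd (Int.natAbs_pos.mpr hs) (Int.natAbs_dvd_natAbs.mpr h4)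

open _root_.Pool.Agent.Lib_helper18.Eis in
/-- The first descent. -/
theorem first_descent {p : ℕ} [hp : Fact p.Prime] (hp9 : p % 9 = 1) {π : Eis}
    (hπ : π.norm = p) {M : ℤ} (hM : π.im = 3 * M) {e : ℕ} (he : e = 1 ∨ e = 2)
    (hIIb : ∀ (ξ γ : Eis) (s : ℤ), ξ = γ ^ 3 → ¬ lam ∣ γ → IsCoprime ξ (conj ξ) →
      (3 : ℤ) ∣ ξ.im → ξ.re + ξ.im = (p : ℤ) ^ e * s ^ 3 → Concl p e M) :
    ∀ (n : ℕ) (x y z : ℤ), z.natAbs = n → z ≠ 0 → x ^ 3 + y ^ 3 = (p : ℤ) ^ e * z ^ 3 →
      Concl p e M := by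
  have hp3 : p % 3 = 1 := by omega
  have hprim : (3 : ℤ) ∣ π.im := ⟨M, hM⟩
  have hπpr := prime_of_norm_eq hπ
  have hre := re_not_dvd hp3 hπ hprim
  have hπprim : Prim π := ⟨hprim, hre⟩
  have hπc := conj_norm hπ
  have hMc : (conj π).im = 3 * (-M) := by rw [conj_im, hM]; ring
  have hpp : Prime (p : ℤ) := Nat.prime_iff_prime_int.mp hp.out
  have hp0 : (p : ℤ) ^ e ≠ 0 := pow_ne_zero _ hpp.ne_zero
  have he0 : 0 < e := by omega
  obtain ⟨φ, hφ⟩ := exists_hom hπ
  obtain ⟨φ', hφ'⟩ := exists_hom hπc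
  have hr2 : ∀ ψ : Eis →+* ZMod p, (ψ r3) ^ 2 = -3 := fun ψ => by
    rw [← map_pow, r3_sq, map_neg, hom_three]
  have hnormpow : (π ^ e).norm = (p : ℤ) ^ e := by rw [norm_pow, hπ]
  have hnormpowc : (conj π ^ e).norm = (p : ℤ) ^ e := by rw [norm_pow, norm_conj, hπ]
  intro n
  induction n using Nat.strong_induction_on with
  | _ n ih =>
  intro x y z hzn hz0 hxyz
  by_cases hco : IsCoprime x y
  swap
  · -- common factor
    have hx0y0 : ¬ (x = 0 ∧ y = 0) := by
      rintro ⟨rfl, rfl⟩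
      have : (p : ℤ) ^ e * z ^ 3 = 0 := by rw [← hxyz]; ring
      rcases mul_eq_zero.mp this with h | h
      · exact hp0 h
      · exact hz0 (pow_eq_zero_iff (by norm_num) |>.mp h)
    have : ∃ q : ℤ, Prime q ∧ q ∣ x ∧ q ∣ y := by
      by_contra hcon
      push Not at hcon
      exact hco (isCoprime_of_prime_dvd hx0y0 (fun q hq hqx => hcon q hq hqx))
    obtain ⟨q, hq, ⟨x', hx'⟩, ⟨y', hy'⟩⟩ := this
    have hq3 : q ^ 3 ∣ (p : ℤ) ^ e * z ^ 3 := ⟨x' ^ 3 + y' ^ 3, by rw [← hxyz, hx', hy']; ring⟩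
    have hqz : q ∣ z := by
      by_cases hqp : q ∣ (p : ℤ)
      · -- q associated to p
        have hass := hq.associated_of_dvd hpp hqp
        have h1 : (p : ℤ) ^ 3 ∣ (p : ℤ) ^ e * z ^ 3 :=
          (pow_dvd_pow_of_dvd hass.symm.dvd 3).trans hq3
        have h2 : (p : ℤ) ^ 3 = (p : ℤ) ^ e * (p : ℤ) ^ (3 - e) := by
          rw [← pow_add]; congr 1; omega
        rw [h2] at h1
        have h3 := (mul_dvd_mul_iff_left hp0).mp h1
        have h4 : (p : ℤ) ∣ z ^ 3 := (dvd_pow_self _ (by omega)).trans h3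
        exact hqp.trans (hpp.dvd_of_dvd_pow h4)
      · have h1 : q ∣ (p : ℤ) ^ e * z ^ 3 := (dvd_pow_self q (by norm_num)).trans hq3
        rcases hq.dvd_or_dvd h1 with h2 | h2
        · exact absurd (hq.dvd_of_dvd_pow h2) hqp
        · exact hq.dvd_of_dvd_pow h2
    obtain ⟨z', hz'⟩ := hqz
    have hz'0 : z' ≠ 0 := by rintro rfl; simp at hz'; exact hz0 hz'
    have hlt : z'.natAbs < n := by
      rw [← hzn, hz', Int.natAbs_mul]
      have h1 : 1 < q.natAbs := by
        have := hq.not_isUnit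
        rw [Int.isUnit_iff_natAbs_eq] at this
        have h2 : q.natAbs ≠ 0 := Int.natAbs_ne_zero.mpr hq.ne_zero
        omega
      have h2 : 0 < z'.natAbs := Int.natAbs_pos.mpr hz'0
      nlinarith
    refine ih _ hlt x' y' z' rfl hz'0 ?_
    have hq30 : q ^ 3 ≠ 0 := pow_ne_zero _ hq.ne_zero
    apply mul_left_cancel₀ hq30
    rw [hx', hy', hz'] at hxyz
    linear_combination hxyz
  · have hco1 : IsCoprime (x + y) x := by
      obtain ⟨u, v, huv⟩ := hco
      exact ⟨v, u - v, by linear_combination huv⟩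
    have hco2 : IsCoprime (x + y) y := by
      obtain ⟨u, v, huv⟩ := hco
      exact ⟨u, v - u, by linear_combination huv⟩
    have hcoxy : IsCoprime (x + y) (x * y) := hco1.mul_right hco2
    have hST : (x + y) * (⟨x, y⟩ : Eis).norm = (p : ℤ) ^ e * z ^ 3 := by
      rw [← hxyz, norm_def]; ring
    have hno3 : ¬ ((3 : ℤ) ∣ x ∧ (3 : ℤ) ∣ y) := by
      rintro ⟨h1, h2⟩
      exact Int.prime_three.not_isUnit (hco.isUnit_of_dvd' h1 h2)
    by_cases h3z : (3 : ℤ) ∣ z
    · -- Case A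
      obtain ⟨z1, hz1⟩ := h3z
      have h3S : (3 : ℤ) ∣ x + y := by
        have h1 : (3 : ℤ) ∣ x ^ 3 + y ^ 3 := by
          rw [hxyz, hz1]; exact ⟨(p : ℤ) ^ e * (9 * z1 ^ 3), by ring⟩
        have h2 : (3 : ℤ) ∣ (x ^ 3 + y ^ 3) - (x + y) := by
          have h4 : ∀ a : ℤ, (3 : ℤ) ∣ a ^ 3 - a := by
            intro a
            have : a % 3 = 0 ∨ a % 3 = 1 ∨ a % 3 = 2 := by omega
            apply Int.dvd_of_emod_eq_zero
            rcases this with h | h | h <;>
              simp [pow_succ, Int.sub_emod, Int.mul_emod, h]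
          have := dvd_add (h4 x) (h4 y)
          have e5 : x ^ 3 - x + (y ^ 3 - y) = (x ^ 3 + y ^ 3) - (x + y) := by ring
          rwa [e5] at this
        have := dvd_sub h1 h2
        simpa using this
      have h3y : ¬ (3 : ℤ) ∣ y := by
        intro h; exact hno3 ⟨by omega, h⟩
      have h3x : ¬ (3 : ℤ) ∣ x := by
        intro h; exact hno3 ⟨h, by omega⟩
      obtain ⟨S0, hS0⟩ := h3S
      have hT : (⟨x, y⟩ : Eis).norm = 3 * (3 * S0 ^ 2 - x * y) := by
        rw [norm_def]; simp only; linear_combination (x + y + 3 * S0) * hS0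
      have h3T' : ¬ (3 : ℤ) ∣ 3 * S0 ^ 2 - x * y := by
        intro h
        have : (3 : ℤ) ∣ x * y := by
          have h4 := dvd_sub (dvd_mul_right (3 : ℤ) (S0 ^ 2)) h
          have e5 : 3 * S0 ^ 2 - (3 * S0 ^ 2 - x * y) = x * y := by ring
          rwa [e5] at h4
        rcases Int.prime_three.dvd_or_dvd this with h | h
        · exact h3x h
        · exact h3y h
      have hST' : S0 * (3 * S0 ^ 2 - x * y) = 3 * ((p : ℤ) ^ e * z1 ^ 3) := by
        rw [hT, hS0, hz1] at hST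
        have h9 : (9 : ℤ) ≠ 0 := by norm_num
        apply mul_left_cancel₀ h9
        linear_combination hST
      have h3S0 : (3 : ℤ) ∣ S0 := by
        have h4 : (3 : ℤ) ∣ S0 * (3 * S0 ^ 2 - x * y) := ⟨_, hST'⟩
        exact (Int.prime_three.dvd_or_dvd h4).resolve_right h3T'
      obtain ⟨S', hS'⟩ := h3S0
      have hS9 : x + y = 9 * S' := by rw [hS0, hS']; ring
      set η : Eis := ⟨-y + 6 * S', 3 * S'⟩ with hη
      have hηlam : (⟨x, y⟩ : Eis) = lam * η := by
        ext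
        · simp only [hη, mul_re, lam_re, lam_im]; linarith
        · simp only [hη, mul_im, lam_re, lam_im]; ring
      have hηnorm : η.norm = 3 * S0 ^ 2 - x * y := by
        have h4 := congrArg Eis.norm hηlam
        rw [norm_mul, norm_lam, hT] at h4
        linarith
      have hηS : S' * η.norm = (p : ℤ) ^ e * z1 ^ 3 := by
        rw [hηnorm]
        have h9 : (3 : ℤ) ≠ 0 := by norm_num
        apply mul_left_cancel₀ h9
        rw [← hST', hS']; ring
      have hηprim : Prim η := by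
        refine ⟨⟨S', rfl⟩, ?_⟩
        simp only [hη]; omega
      have hηcop : IsCoprime η (conj η) := by
        apply isCoprime_of_prime_dvd
        · rintro ⟨h, -⟩
          exact hηprim.not_lam_dvd (by rw [h]; exact dvd_zero _)
        · intro l hl h1 h2
          have h4 : l ∣ (⟨x, y⟩ : Eis) := by rw [hηlam]; exact Dvd.dvd.mul_left h1 _
          have h5 : l ∣ conj (⟨x, y⟩ : Eis) := by
            rw [hηlam, map_mul]; exact Dvd.dvd.mul_left h2 _
          have h6 := coprime_xi hco hl h4 h5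
          exact hηprim.not_lam_dvd (h6.symm.dvd.trans h1)
      have hηdiff : η - conj η = 3 * r3 * (S' : Eis) := by
        rw [r3_eq, w_sq, three_eq_cast]
        ext
        · simp only [hη, mul_re, mul_im, sub_re, conj_re, conj_im, sub_im, neg_re, neg_im, one_re,
            one_im, w_re, w_im, intCast_re, intCast_im]; ring
        · simp only [hη, mul_re, mul_im, sub_re, conj_re, conj_im, sub_im, neg_re, neg_im, one_re,
            one_im, w_re, w_im, intCast_re, intCast_im]; ring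
      have hcoS : IsCoprime S' η.norm := by
        have h4 : IsCoprime S' (x * y) := hcoxy.of_isCoprime_of_dvd_left ⟨9, by rw [hS9]; ring⟩
        have h5 : η.norm = S' * (27 * S') + -(x * y) := by rw [hηnorm, hS']; ring
        rw [h5]
        exact (IsCoprime.mul_add_left_right h4.neg_right (27 * S'))
      by_cases hpS : (p : ℤ) ∣ S'
      · -- Case II-a
        have hpT : ¬ (p : ℤ) ∣ η.norm := fun h =>
          hpp.not_isUnit (hcoS.isUnit_of_dvd' hpS h)
        have h4 : (p : ℤ) ^ e ∣ S' :=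
          hpp.pow_dvd_of_dvd_mul_right e hpT (by rw [hηS]; exact dvd_mul_right _ _)
        obtain ⟨S'', hS''⟩ := h4
        have h5 : S'' * η.norm = z1 ^ 3 := by
          apply mul_left_cancel₀ hp0
          rw [← hηS, hS'']; ring
        have hcoS'' : IsCoprime S'' η.norm := hcoS.of_isCoprime_of_dvd_left
          ⟨(p : ℤ) ^ e, by rw [hS'']; ring⟩
        obtain ⟨s, hs⟩ := Int.eq_pow_of_mul_eq_pow_odd_left hcoS'' (by decide : Odd 3) h5
        obtain ⟨t, ht⟩ := Int.eq_pow_of_mul_eq_pow_odd_right hcoS'' (by decide : Odd 3) h5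
        obtain ⟨γ, hγ, hγ3⟩ := extract (ρ := 1) prim_one (one_dvd _) hηprim hηcop (t := t)
          (by rw [norm_one, one_mul, ht])
        rw [one_mul] at hγ
        have hs0 : s ≠ 0 := by
          rintro rfl
          rw [hs] at h5
          have : z1 ^ 3 = 0 := by rw [← h5]; ring
          have h6 := pow_eq_zero_iff (by norm_num) |>.mp this
          rw [hz1, h6] at hz0; simp at hz0
        obtain ⟨α, δ⟩ := γ
        have hprod : α * δ * (α - δ) = (p : ℤ) ^ e * s ^ 3 := by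
          have h6 := congrArg Eis.im hγ
          simp only [hη, pow_succ, pow_zero, one_mul, mul_im, mul_re] at h6
          rw [← hs, ← hS'']
          linarith
        have hcoad : IsCoprime α δ := by
          apply isCoprime_of_prime_dvd
          · rintro ⟨rfl, rfl⟩
            exact hγ3 (by rw [show (⟨0, 0⟩ : Eis) = 0 from rfl]; exact dvd_zero _)
          · intro q hq h6 h7
            have h8 : (q : Eis) ∣ (⟨α, δ⟩ : Eis) := intCast_dvd_iff.mpr ⟨h6, h7⟩
            have h9 : (q : Eis) ∣ η := by rw [hγ]; exact Dvd.dvd.pow h8 (by norm_num)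
            have h10 : (q : Eis) ∣ conj η := by
              have := conj_dvd h9
              rwa [conj_intCast] at this
            have h11 := hηcop.isUnit_of_dvd' h9 h10
            rw [isUnit_iff_norm, norm_intCast] at h11
            apply hq.not_isUnit
            rw [Int.isUnit_iff]
            exact sq_eq_one_iff_of_side h11
        have hc1 : IsCoprime α (α - δ) := by
          obtain ⟨u, v, huv⟩ := hcoad
          exact ⟨u + v, -v, by linear_combination huv⟩
        have hc2 : IsCoprime δ (α - δ) := by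
          obtain ⟨u, v, huv⟩ := hcoad
          exact ⟨u + v, u, by linear_combination huv⟩
        have hz10 : z1 ≠ 0 := by rintro rfl; simp at hz1; exact hz0 hz1
        have hsz : s ∣ z1 := by
          have : s ^ 3 ∣ z1 ^ 3 := ⟨η.norm, by rw [← h5, hs]⟩
          exact (Int.pow_dvd_pow_iff (by norm_num)).mp this
        have hle : s.natAbs ≤ z1.natAbs :=
          Nat.le_of_dvd (Int.natAbs_pos.mpr hz10) (Int.natAbs_dvd_natAbs.mpr hsz)
        have hn3 : n = 3 * z1.natAbs := by rw [← hzn, hz1, Int.natAbs_mul]; rfl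
        have hz1pos : 0 < z1.natAbs := Int.natAbs_pos.mpr hz10
        have hpprod : (p : ℤ) ∣ α * δ * (α - δ) := by
          rw [hprod]; exact Dvd.dvd.mul_right (dvd_pow_self _ he0.ne') _
        rcases hpp.dvd_or_dvd hpprod with h6 | h6
        · rcases hpp.dvd_or_dvd h6 with h7 | h7
          · obtain ⟨a, b, c, ha, hb, hc, ha0, hle2⟩ :=
              three_factors hcoad hc1 hc2 hprod hs0 h7
            refine ih a.natAbs (by omega) b c a rfl ha0 ?_
            rw [← ha, ← hb, ← hc]; ring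
          · obtain ⟨a, b, c, ha, hb, hc, ha0, hle2⟩ :=
              three_factors (e := e) hcoad.symm hc2 hc1 (by rw [← hprod]; ring) hs0 h7
            refine ih a.natAbs (by omega) b (-c) a rfl ha0 ?_
            rw [← ha]
            linear_combination hc - hb
        · obtain ⟨a, b, c, ha, hb, hc, ha0, hle2⟩ :=
            three_factors (e := e) hc1.symm hc2.symm hcoad (by rw [← hprod]; ring) hs0 h6
          refine ih a.natAbs (by omega) b (-c) a rfl ha0 ?_
          rw [← ha]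
          linear_combination hc - hb
      · -- Case I-a
        have h4 : (p : ℤ) ^ e ∣ η.norm :=
          hpp.pow_dvd_of_dvd_mul_left e hpS (by rw [hηS]; exact dvd_mul_right _ _)
        obtain ⟨T'', hT''⟩ := h4
        have h5 : S' * T'' = z1 ^ 3 := by
          apply mul_left_cancel₀ hp0
          rw [← hηS, hT'']; ring
        have hcoS'' : IsCoprime S' T'' := hcoS.of_isCoprime_of_dvd_right
          ⟨(p : ℤ) ^ e, by rw [hT'']; ring⟩
        obtain ⟨s, hs⟩ := Int.eq_pow_of_mul_eq_pow_odd_left hcoS'' (by decide : Odd 3) h5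
        obtain ⟨t, ht⟩ := Int.eq_pow_of_mul_eq_pow_odd_right hcoS'' (by decide : Odd 3) h5
        have hdiff : η - conj η = 3 * r3 * (s : Eis) ^ 3 := by
          rw [hηdiff, hs]; push_cast; rfl
        rcases exists_rho hπ e he0 hηcop ⟨T'', hT''⟩ with h6 | h6
        · obtain ⟨γ, hγ, hγ3⟩ := extract (hπprim.pow e) h6 hηprim hηcop (t := t)
            (by rw [hnormpow, hT'', ht])
          exact concl_of_root hp3 he (hr2 φ')
            (caseIa hp9 hπ hM φ' hφ' he hγ hγ3 hηcop hdiff)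
        · obtain ⟨γ, hγ, hγ3⟩ := extract (hπprim.conj.pow e) h6 hηprim hηcop (t := t)
            (by rw [hnormpowc, hT'', ht])
          apply Concl.neg he
          refine concl_of_root hp3 he (hr2 φ)
            (caseIa hp9 hπc hMc φ (by rw [conj_conj]; exact hφ) he hγ hγ3 hηcop hdiff)
    · -- Case B
      have key : ∀ x y : ℤ, IsCoprime x y → (3 : ℤ) ∣ y → ¬ (3 : ℤ) ∣ x →
          IsCoprime (x + y) (x * y) → (x + y) * (⟨x, y⟩ : Eis).norm = (p : ℤ) ^ e * z ^ 3 →
          Concl p e M := by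
        clear hco hco1 hco2 hcoxy hST hno3 hxyz
        intro x y hco h3y h3x hcoxy hST
        set ξ : Eis := ⟨x, y⟩ with hξ
        have hξprim : Prim ξ := ⟨h3y, h3x⟩
        have hξcop : IsCoprime ξ (conj ξ) := by
          apply isCoprime_of_prime_dvd
          · rintro ⟨h, -⟩
            exact hξprim.not_lam_dvd (by rw [h]; exact dvd_zero _)
          · intro l hl h1 h2
            have h6 := coprime_xi hco hl h1 h2
            exact hξprim.not_lam_dvd (h6.symm.dvd.trans h1)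
        have hS3 : IsCoprime (x + y) 3 := by
          rw [isCoprime_comm, Int.prime_three.irreducible.coprime_iff_not_dvd]
          omega
        have hcoS : IsCoprime (x + y) ξ.norm := by
          have h4 : IsCoprime (x + y) (3 * (x * y)) := hS3.mul_right hcoxy
          have h5 : ξ.norm = (x + y) * (x + y) + -(3 * (x * y)) := by
            rw [norm_def]; simp only [hξ]; ring
          rw [h5]
          exact (IsCoprime.mul_add_left_right h4.neg_right (x + y))
        by_cases hpS : (p : ℤ) ∣ x + y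
        · -- Case II-b
          have hpT : ¬ (p : ℤ) ∣ ξ.norm := fun h =>
            hpp.not_isUnit (hcoS.isUnit_of_dvd' hpS h)
          have h4 : (p : ℤ) ^ e ∣ x + y :=
            hpp.pow_dvd_of_dvd_mul_right e hpT (by rw [hST]; exact dvd_mul_right _ _)
          obtain ⟨S'', hS''⟩ := h4
          have h5 : S'' * ξ.norm = z ^ 3 := by
            apply mul_left_cancel₀ hp0
            rw [← hST, hS'']; ring
          have hcoS'' : IsCoprime S'' ξ.norm := hcoS.of_isCoprime_of_dvd_left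
            ⟨(p : ℤ) ^ e, by rw [hS'']; ring⟩
          obtain ⟨s, hs⟩ := Int.eq_pow_of_mul_eq_pow_odd_left hcoS'' (by decide : Odd 3) h5
          obtain ⟨t, ht⟩ := Int.eq_pow_of_mul_eq_pow_odd_right hcoS'' (by decide : Odd 3) h5
          obtain ⟨γ, hγ, hγ3⟩ := extract (ρ := 1) prim_one (one_dvd _) hξprim hξcop (t := t)
            (by rw [norm_one, one_mul, ht])
          rw [one_mul] at hγ
          exact hIIb ξ γ s hγ hγ3 hξcop h3y (by rw [← hs, ← hS''])
        · -- Case I-b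
          have h4 : (p : ℤ) ^ e ∣ ξ.norm :=
            hpp.pow_dvd_of_dvd_mul_left e hpS (by rw [hST]; exact dvd_mul_right _ _)
          obtain ⟨T'', hT''⟩ := h4
          have h5 : (x + y) * T'' = z ^ 3 := by
            apply mul_left_cancel₀ hp0
            rw [← hST, hT'']; ring
          have hcoS'' : IsCoprime (x + y) T'' := hcoS.of_isCoprime_of_dvd_right
            ⟨(p : ℤ) ^ e, by rw [hT'']; ring⟩
          obtain ⟨s, hs⟩ := Int.eq_pow_of_mul_eq_pow_odd_left hcoS'' (by decide : Odd 3) h5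
          obtain ⟨t, ht⟩ := Int.eq_pow_of_mul_eq_pow_odd_right hcoS'' (by decide : Odd 3) h5
          rcases exists_rho hπ e he0 hξcop ⟨T'', hT''⟩ with h6 | h6
          · obtain ⟨γ, hγ, hγ3⟩ := extract (hπprim.pow e) h6 hξprim hξcop (t := t)
              (by rw [hnormpow, hT'', ht])
            exact concl_of_root hp3 he (hr2 φ')
              (caseIb hp9 hπ hM φ' hφ' he hγ hγ3 hξcop hs)
          · obtain ⟨γ, hγ, hγ3⟩ := extract (hπprim.conj.pow e) h6 hξprim hξcop (t := t)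
              (by rw [hnormpowc, hT'', ht])
            apply Concl.neg he
            refine concl_of_root hp3 he (hr2 φ)
              (caseIb hp9 hπc hMc φ (by rw [conj_conj]; exact hφ) he hγ hγ3 hξcop hs)
      -- one of x, y is divisible by 3
      have h3xy : (3 : ℤ) ∣ x ∨ (3 : ℤ) ∣ y := by
        by_contra hcon
        push Not at hcon
        obtain ⟨h3x, h3y⟩ := hcon
        have hcube : ∀ a : ℤ, ¬ (3 : ℤ) ∣ a → ∃ b, a ^ 3 = 1 + 9 * b ∨ a ^ 3 = -1 + 9 * b := by
          intro a ha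
          have : a % 3 = 1 ∨ a % 3 = 2 := by omega
          rcases this with h | h
          · obtain ⟨u, hu⟩ : ∃ u, a = 1 + 3 * u := ⟨a / 3, by omega⟩
            exact ⟨u + 3 * u ^ 2 + 3 * u ^ 3, Or.inl (by rw [hu]; ring)⟩
          · obtain ⟨u, hu⟩ : ∃ u, a = -1 + 3 * u := ⟨(a + 1) / 3, by omega⟩
            exact ⟨u - 3 * u ^ 2 + 3 * u ^ 3, Or.inr (by rw [hu]; ring)⟩
        obtain ⟨a1, h1⟩ := hcube x h3x
        obtain ⟨a2, h2⟩ := hcube y h3y
        obtain ⟨a3, h3⟩ := hcube z h3z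
        obtain ⟨k, hk⟩ : ∃ k : ℤ, (p : ℤ) ^ e = 1 + 9 * k := by
          obtain ⟨k0, hk0⟩ : ∃ k : ℤ, (p : ℤ) = 1 + 9 * k := ⟨p / 9, by omega⟩
          rcases he with h | h
          · exact ⟨k0, by rw [h, pow_one, hk0]⟩
          · exact ⟨2 * k0 + 9 * k0 ^ 2, by rw [h, hk0]; ring⟩
        rw [hk] at hxyz
        have h5 : x ^ 3 + y ^ 3 = z ^ 3 + 9 * (k * z ^ 3) := by rw [hxyz]; ring
        generalize x ^ 3 = X at *
        generalize y ^ 3 = Y at *
        generalize k * z ^ 3 = KZ at *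
        generalize z ^ 3 = Z at *
        omega
      rcases h3xy with h | h
      · exact key y x hco.symm h (fun h' => hno3 ⟨h, h'⟩) (by
          rw [add_comm y x, mul_comm y x]; exact hcoxy) (by
          rw [← hST, norm_def, norm_def]; simp only; ring)
      · exact key x y hco h (fun h' => hno3 ⟨h', h⟩) hcoxy hST

end Pool.Agent.Lib_helper18

end

section

set_option linter.unusedSectionVars false

/-!
# First descent for composite `A`: preparations for the descent
-/

namespace Pool.Agent.Lib_helper18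

open Finset Eis

theorem cube_not_dvd_prod {κ : Type*} [DecidableEq κ] (p e : κ → ℕ) (hp : ∀ i, (p i).Prime)
    (hinj : Function.Injective p) (he : ∀ i, e i ≤ 2) (S : Finset κ) (r : ℤ) (hr : Prime r) :
    ¬ r ^ 3 ∣ ∏ j ∈ S, (p j : ℤ) ^ e j := by
  induction S using Finset.induction_on with
  | empty =>
    rw [prod_empty]
    intro h
    exact hr.not_isUnit (isUnit_of_dvd_one ((dvd_pow_self r (by norm_num)).trans h))
  | insert j S hj ih =>
    rw [prod_insert hj]
    intro h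
    have hpj : Prime (p j : ℤ) := Nat.prime_iff_prime_int.mp (hp j)
    by_cases hrj : r ∣ (p j : ℤ)
    · have hass := hr.associated_of_dvd hpj hrj
      have h1 : ¬ r ∣ ∏ k ∈ S, (p k : ℤ) ^ e k := by
        intro h1
        rw [hr.dvd_finsetProd_iff] at h1
        obtain ⟨k, hk, h2⟩ := h1
        have h3 := hass.symm.dvd.trans (hr.dvd_of_dvd_pow h2)
        rw [Int.natCast_dvd_natCast, Nat.prime_dvd_prime_iff_eq (hp j) (hp k)] at h3
        exact hj (by rw [hinj h3]; exact hk)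
      have h2 : r ^ 3 ∣ (p j : ℤ) ^ e j := hr.pow_dvd_of_dvd_mul_right 3 h1 h
      have h3 : (p j : ℤ) ^ 3 ∣ (p j : ℤ) ^ e j := (pow_dvd_pow_of_dvd hass.symm.dvd 3).trans h2
      rw [pow_dvd_pow_iff hpj.ne_zero hpj.not_isUnit] at h3
      have := he j
      omega
    · have h1 : ¬ r ∣ (p j : ℤ) ^ e j := fun h2 => hrj (hr.dvd_of_dvd_pow h2)
      exact ih (hr.pow_dvd_of_dvd_mul_left 3 h1 h)

theorem prime_inert {q : ℕ} (hq : q.Prime) (h : q % 3 = 2) : Prime (q : Eis) := by
  have hq0 : (q : Eis) ≠ 0 := by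
    intro h
    have := congrArg Eis.re h
    simp at this
    exact hq.ne_zero this
  have hnu : ¬ IsUnit (q : Eis) := by
    rw [isUnit_iff_norm, norm_natCast]
    intro h
    have := hq.two_le
    have h2 : (2 : ℤ) ≤ q := by exact_mod_cast this
    nlinarith
  obtain ⟨l, hl, hlq⟩ := WfDvdMonoid.exists_irreducible_factor hnu hq0
  have hlp := hl.prime
  have hlq' := hlq
  obtain ⟨m, hm⟩ := hlq
  have h1 : (q : ℤ) ^ 2 = l.norm * m.norm := by rw [← norm_mul, ← hm, norm_natCast]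
  have h2 : l.norm.natAbs ∣ q ^ 2 := by
    have : l.norm ∣ (q : ℤ) ^ 2 := ⟨_, h1⟩
    have := Int.natAbs_dvd_natAbs.mpr this
    simpa [Int.natAbs_pow] using this
  have hn := norm_pos hlp.ne_zero
  have hn1 : l.norm ≠ 1 := fun h => hlp.not_isUnit (isUnit_iff_norm.mpr h)
  rw [Nat.dvd_prime_pow hq] at h2
  obtain ⟨k, hk, hk2⟩ := h2
  have h4 := norm_emod_three l
  interval_cases k
  · simp at hk2; omega
  · rw [pow_one] at hk2; omega
  · have h5 : l.norm = (q : ℤ) ^ 2 := by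
      have : (l.norm.natAbs : ℤ) = ((q ^ 2 : ℕ) : ℤ) := by exact_mod_cast hk2
      rw [Int.natCast_natAbs, abs_of_pos hn] at this
      rw [this]; push_cast; ring
    exact (associated_of_norm_sq hq hlq' h5).prime hlp

theorem inert_not_dvd_norm {q : ℕ} (hq : q.Prime) (h : q % 3 = 2) {η : Eis}
    (hcop : IsCoprime η (conj η)) : ¬ (q : ℤ) ∣ η.norm := by
  intro h1
  have hP := prime_inert hq h
  have h2 : (q : Eis) ∣ η * conj η := by
    rw [mul_conj]
    have := intCast_dvd_intCast.mpr h1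
    rwa [Int.cast_natCast] at this
  rcases hP.dvd_or_dvd h2 with h3 | h3
  · have h4 := conj_dvd h3
    rw [conj_natCast] at h4
    exact hP.not_isUnit (hcop.isUnit_of_dvd' h3 h4)
  · have h4 := conj_dvd h3
    rw [conj_natCast, conj_conj] at h4
    exact hP.not_isUnit (hcop.isUnit_of_dvd' h4 h3)

section cases

variable {A x y z : ℤ}

theorem coprime_sum (hco : IsCoprime x y) : IsCoprime (x + y) (x * y) := by
  have hco1 : IsCoprime (x + y) x := by
    obtain ⟨u, v, huv⟩ := hco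
    exact ⟨v, u - v, by linear_combination huv⟩
  have hco2 : IsCoprime (x + y) y := by
    obtain ⟨u, v, huv⟩ := hco
    exact ⟨u, v - u, by linear_combination huv⟩
  exact hco1.mul_right hco2

theorem caseA_data (hco : IsCoprime x y) (h3z : (3 : ℤ) ∣ z) (hxyz : x ^ 3 + y ^ 3 = A * z ^ 3) :
    ∃ (z1 S' : ℤ) (η : Eis), z = 3 * z1 ∧ Prim η ∧ IsCoprime η (conj η) ∧ η.im = 3 * S' ∧
      η - conj η = 3 * r3 * (S' : Eis) ∧ IsCoprime S' η.norm ∧ S' * η.norm = A * z1 ^ 3 := by
  have hcoxy := coprime_sum hco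
  have hST : (x + y) * (⟨x, y⟩ : Eis).norm = A * z ^ 3 := by
    rw [← hxyz, norm_def]; ring
  have hno3 : ¬ ((3 : ℤ) ∣ x ∧ (3 : ℤ) ∣ y) := by
    rintro ⟨h1, h2⟩
    exact Int.prime_three.not_isUnit (hco.isUnit_of_dvd' h1 h2)
  obtain ⟨z1, hz1⟩ := h3z
  have h3S : (3 : ℤ) ∣ x + y := by
    have h1 : (3 : ℤ) ∣ x ^ 3 + y ^ 3 := by
      rw [hxyz, hz1]; exact ⟨A * (9 * z1 ^ 3), by ring⟩
    have h2 : (3 : ℤ) ∣ (x ^ 3 + y ^ 3) - (x + y) := by
      have h4 : ∀ a : ℤ, (3 : ℤ) ∣ a ^ 3 - a := by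
        intro a
        have : a % 3 = 0 ∨ a % 3 = 1 ∨ a % 3 = 2 := by omega
        apply Int.dvd_of_emod_eq_zero
        rcases this with h | h | h <;>
          simp [pow_succ, Int.sub_emod, Int.mul_emod, h]
      have := dvd_add (h4 x) (h4 y)
      have e5 : x ^ 3 - x + (y ^ 3 - y) = (x ^ 3 + y ^ 3) - (x + y) := by ring
      rwa [e5] at this
    have := dvd_sub h1 h2
    simpa using this
  have h3y : ¬ (3 : ℤ) ∣ y := by
    intro h; exact hno3 ⟨by omega, h⟩
  have h3x : ¬ (3 : ℤ) ∣ x := by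
    intro h; exact hno3 ⟨h, by omega⟩
  obtain ⟨S0, hS0⟩ := h3S
  have hT : (⟨x, y⟩ : Eis).norm = 3 * (3 * S0 ^ 2 - x * y) := by
    rw [norm_def]; simp only; linear_combination (x + y + 3 * S0) * hS0
  have h3T' : ¬ (3 : ℤ) ∣ 3 * S0 ^ 2 - x * y := by
    intro h
    have : (3 : ℤ) ∣ x * y := by
      have h4 := dvd_sub (dvd_mul_right (3 : ℤ) (S0 ^ 2)) h
      have e5 : 3 * S0 ^ 2 - (3 * S0 ^ 2 - x * y) = x * y := by ring
      rwa [e5] at h4
    rcases Int.prime_three.dvd_or_dvd this with h | h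
    · exact h3x h
    · exact h3y h
  have hST' : S0 * (3 * S0 ^ 2 - x * y) = 3 * (A * z1 ^ 3) := by
    rw [hT, hS0, hz1] at hST
    have h9 : (9 : ℤ) ≠ 0 := by norm_num
    apply mul_left_cancel₀ h9
    linear_combination hST
  have h3S0 : (3 : ℤ) ∣ S0 := by
    have h4 : (3 : ℤ) ∣ S0 * (3 * S0 ^ 2 - x * y) := ⟨_, hST'⟩
    exact (Int.prime_three.dvd_or_dvd h4).resolve_right h3T'
  obtain ⟨S', hS'⟩ := h3S0
  have hS9 : x + y = 9 * S' := by rw [hS0, hS']; ring
  set η : Eis := ⟨-y + 6 * S', 3 * S'⟩ with hη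
  have hηlam : (⟨x, y⟩ : Eis) = lam * η := by
    ext
    · simp only [hη, mul_re, lam_re, lam_im]; linarith
    · simp only [hη, mul_im, lam_re, lam_im]; ring
  have hηnorm : η.norm = 3 * S0 ^ 2 - x * y := by
    have h4 := congrArg Eis.norm hηlam
    rw [norm_mul, norm_lam, hT] at h4
    linarith
  have hηS : S' * η.norm = A * z1 ^ 3 := by
    rw [hηnorm]
    have h9 : (3 : ℤ) ≠ 0 := by norm_num
    apply mul_left_cancel₀ h9
    rw [← hST', hS']; ring
  have hηprim : Prim η := by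
    refine ⟨⟨S', rfl⟩, ?_⟩
    simp only [hη]; omega
  have hηcop : IsCoprime η (conj η) := by
    apply isCoprime_of_prime_dvd
    · rintro ⟨h, -⟩
      exact hηprim.not_lam_dvd (by rw [h]; exact dvd_zero _)
    · intro l hl h1 h2
      have h4 : l ∣ (⟨x, y⟩ : Eis) := by rw [hηlam]; exact Dvd.dvd.mul_left h1 _
      have h5 : l ∣ conj (⟨x, y⟩ : Eis) := by
        rw [hηlam, map_mul]; exact Dvd.dvd.mul_left h2 _
      have h6 := coprime_xi hco hl h4 h5
      exact hηprim.not_lam_dvd (h6.symm.dvd.trans h1)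
  have hηdiff : η - conj η = 3 * r3 * (S' : Eis) := by
    rw [r3_eq, w_sq, three_eq_cast]
    ext
    · simp only [hη, mul_re, mul_im, sub_re, conj_re, sub_im, neg_re, neg_im, one_re,
        one_im, w_re, w_im, intCast_re, intCast_im]; ring
    · simp only [hη, mul_re, mul_im, sub_re, conj_im, sub_im, neg_re, neg_im, one_re,
        one_im, w_re, w_im, intCast_re, intCast_im]; ring
  have hcoS : IsCoprime S' η.norm := by
    have h4 : IsCoprime S' (x * y) := hcoxy.of_isCoprime_of_dvd_left ⟨9, by rw [hS9]; ring⟩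
    have h5 : η.norm = S' * (27 * S') + -(x * y) := by rw [hηnorm, hS']; ring
    rw [h5]
    exact (IsCoprime.mul_add_left_right h4.neg_right (27 * S'))
  exact ⟨z1, S', η, hz1, hηprim, hηcop, rfl, hηdiff, hcoS, hηS⟩

theorem cube_mod_nine_int {a : ℤ} (ha : ¬ (3 : ℤ) ∣ a) : a ^ 3 % 9 = 1 ∨ a ^ 3 % 9 = 8 := by
  have : a % 9 = 1 ∨ a % 9 = 2 ∨ a % 9 = 4 ∨ a % 9 = 5 ∨ a % 9 = 7 ∨ a % 9 = 8 := by omega
  rcases this with h | h | h | h | h | h <;> simp [pow_succ, Int.mul_emod, h]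

theorem cube_mod_nine_int' {a : ℤ} (ha : (3 : ℤ) ∣ a) : a ^ 3 % 9 = 0 := by
  obtain ⟨b, rfl⟩ := ha
  have : (3 * b) ^ 3 = 9 * (3 * b ^ 3) := by ring
  omega

theorem caseB_data (hco : IsCoprime x y) (h3z : ¬ (3 : ℤ) ∣ z) (hA3 : ¬ (3 : ℤ) ∣ A)
    (hA1 : A % 9 ≠ 1) (hA8 : A % 9 ≠ 8) (hxyz : x ^ 3 + y ^ 3 = A * z ^ 3) :
    ∃ η : Eis, Prim η ∧ IsCoprime η (conj η) ∧ η + conj η = -((x + y : ℤ) : Eis) ∧
      IsCoprime (x + y) η.norm ∧ (x + y) * η.norm = A * z ^ 3 := by
  have hcoxy := coprime_sum hco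
  have hno3 : ¬ ((3 : ℤ) ∣ x ∧ (3 : ℤ) ∣ y) := by
    rintro ⟨h1, h2⟩
    exact Int.prime_three.not_isUnit (hco.isUnit_of_dvd' h1 h2)
  have h9 : (x ^ 3 % 9 + y ^ 3 % 9) % 9 = (A % 9) * (z ^ 3 % 9) % 9 := by
    rw [← Int.add_emod, ← Int.mul_emod, hxyz]
  have hz := cube_mod_nine_int h3z
  have hA : A % 9 = 2 ∨ A % 9 = 4 ∨ A % 9 = 5 ∨ A % 9 = 7 := by omega
  have h3x : ¬ (3 : ℤ) ∣ x := by
    intro h
    have h1 := cube_mod_nine_int' h
    have h2 := cube_mod_nine_int (a := y) (fun h' => hno3 ⟨h, h'⟩)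
    rw [h1] at h9
    rcases h2 with h2 | h2 <;> rcases hz with hz | hz <;> rcases hA with hA | hA | hA | hA <;>
      rw [h2, hz, hA] at h9 <;> norm_num at h9
  have h3y : ¬ (3 : ℤ) ∣ y := by
    intro h
    have h1 := cube_mod_nine_int' h
    have h2 := cube_mod_nine_int (a := x) (fun h' => hno3 ⟨h', h⟩)
    rw [h1] at h9
    rcases h2 with h2 | h2 <;> rcases hz with hz | hz <;> rcases hA with hA | hA | hA | hA <;>
      rw [h2, hz, hA] at h9 <;> norm_num at h9
  have h3xy : (3 : ℤ) ∣ x - y := by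
    by_contra hne
    have hx' : x % 3 = 1 ∨ x % 3 = 2 := by omega
    have hy' : y % 3 = 1 ∨ y % 3 = 2 := by omega
    have h4 : (3 : ℤ) ∣ x + y := by omega
    obtain ⟨k, hk⟩ := h4
    have h5 : x ^ 3 + y ^ 3 = 9 * (k * (3 * k ^ 2 - x * y)) := by
      have : x = 3 * k - y := by linarith
      rw [this]; ring
    have h6 : (x ^ 3 + y ^ 3) % 9 = 0 := by rw [h5]; omega
    rw [hxyz, Int.mul_emod] at h6
    rcases hz with hz | hz <;> rcases hA with hA | hA | hA | hA <;>
      rw [hz, hA] at h6 <;> norm_num at h6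
  set η : Eis := ⟨-y, x - y⟩ with hη
  have hηw : η = w * (⟨x, y⟩ : Eis) := by
    ext
    · simp only [hη, mul_re, w_re, w_im]; ring
    · simp only [hη, mul_im, w_re, w_im]; ring
  have hnorm : η.norm = (x + y) * (x + y) + -(3 * (x * y)) := by
    rw [norm_def]; simp only [hη]; ring
  have hprim : Prim η := by
    refine ⟨h3xy, ?_⟩
    simp only [hη]; omega
  refine ⟨η, hprim, ?_, ?_, ?_, ?_⟩
  · apply isCoprime_of_prime_dvd
    · rintro ⟨h, -⟩
      exact hprim.not_lam_dvd (by rw [h]; exact dvd_zero _)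
    · intro l hl h1 h2
      have hlw : ¬ l ∣ w := not_dvd_of_isUnit hl isUnit_w
      have h4 : l ∣ (⟨x, y⟩ : Eis) := by
        rw [hηw] at h1
        exact (hl.dvd_or_dvd h1).resolve_left hlw
      have h5 : l ∣ conj (⟨x, y⟩ : Eis) := by
        rw [hηw, map_mul, conj_w] at h2
        exact (hl.dvd_or_dvd h2).resolve_left (fun h => hlw (hl.dvd_of_dvd_pow h))
      have h6 := coprime_xi hco hl h4 h5
      exact hprim.not_lam_dvd (h6.symm.dvd.trans h1)
  · ext
    · simp only [hη, add_re, conj_re, neg_re, intCast_re]; ring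
    · simp only [hη, add_im, conj_im, neg_im, intCast_im]; ring
  · have hS3 : IsCoprime (x + y) 3 := by
      rw [isCoprime_comm, Int.prime_three.irreducible.coprime_iff_not_dvd]
      omega
    have h4 : IsCoprime (x + y) (3 * (x * y)) := hS3.mul_right hcoxy
    rw [hnorm]
    exact (IsCoprime.mul_add_left_right h4.neg_right (x + y))
  · rw [← hxyz, hnorm]; ring

end cases


end Pool.Agent.Lib_helper18

end
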