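import Mathlib
import Pool.Agent.PTWX.C04

/-! Parts: Lib_helper18.Z9, Lib_helper18.Z9Jac, Lib_helper18.IIb1 -/

namespace Pool.Agent.Lib_helper18.Z9
end Pool.Agent.Lib_helper18.Z9

section

/-!
# The ring of integers of the ninth cyclotomic field, as a cubic extension of the Eisenstein
integers
-/

namespace Pool.Agent.Lib_helper18

open Eis

/-- `a + b z + c z^2` with `z^3 = w` -/
@[ext] structure Z9 where
  a : Eis
  b : Eis
  c : Eis

namespace Z9

instance : Zero Z9 := ⟨⟨0, 0, 0⟩⟩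
instance : One Z9 := ⟨⟨1, 0, 0⟩⟩
instance : Add Z9 := ⟨fun x y => ⟨x.a + y.a, x.b + y.b, x.c + y.c⟩⟩
instance : Neg Z9 := ⟨fun x => ⟨-x.a, -x.b, -x.c⟩⟩
instance : Sub Z9 := ⟨fun x y => ⟨x.a - y.a, x.b - y.b, x.c - y.c⟩⟩
instance : Mul Z9 := ⟨fun x y => ⟨x.a * y.a + w * (x.b * y.c + x.c * y.b),
  x.a * y.b + x.b * y.a + w * (x.c * y.c), x.a * y.c + x.b * y.b + x.c * y.a⟩⟩
instance : NatCast Z9 := ⟨fun n => ⟨n, 0, 0⟩⟩
instance : IntCast Z9 := ⟨fun n => ⟨n, 0, 0⟩⟩

@[simp] theorem zero_a : (0 : Z9).a = 0 := rfl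
@[simp] theorem zero_b : (0 : Z9).b = 0 := rfl
@[simp] theorem zero_c : (0 : Z9).c = 0 := rfl
@[simp] theorem one_a : (1 : Z9).a = 1 := rfl
@[simp] theorem one_b : (1 : Z9).b = 0 := rfl
@[simp] theorem one_c : (1 : Z9).c = 0 := rfl
@[simp] theorem add_a (x y : Z9) : (x + y).a = x.a + y.a := rfl
@[simp] theorem add_b (x y : Z9) : (x + y).b = x.b + y.b := rfl
@[simp] theorem add_c (x y : Z9) : (x + y).c = x.c + y.c := rfl
@[simp] theorem neg_a (x : Z9) : (-x).a = -x.a := rfl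
@[simp] theorem neg_b (x : Z9) : (-x).b = -x.b := rfl
@[simp] theorem neg_c (x : Z9) : (-x).c = -x.c := rfl
@[simp] theorem sub_a (x y : Z9) : (x - y).a = x.a - y.a := rfl
@[simp] theorem sub_b (x y : Z9) : (x - y).b = x.b - y.b := rfl
@[simp] theorem sub_c (x y : Z9) : (x - y).c = x.c - y.c := rfl
@[simp] theorem mul_a (x y : Z9) :
    (x * y).a = x.a * y.a + w * (x.b * y.c + x.c * y.b) := rfl
@[simp] theorem mul_b (x y : Z9) :
    (x * y).b = x.a * y.b + x.b * y.a + w * (x.c * y.c) := rfl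
@[simp] theorem mul_c (x y : Z9) :
    (x * y).c = x.a * y.c + x.b * y.b + x.c * y.a := rfl
@[simp] theorem natCast_a (n : ℕ) : (n : Z9).a = n := rfl
@[simp] theorem natCast_b (n : ℕ) : (n : Z9).b = 0 := rfl
@[simp] theorem natCast_c (n : ℕ) : (n : Z9).c = 0 := rfl
@[simp] theorem intCast_a (n : ℤ) : (n : Z9).a = n := rfl
@[simp] theorem intCast_b (n : ℤ) : (n : Z9).b = 0 := rfl
@[simp] theorem intCast_c (n : ℤ) : (n : Z9).c = 0 := rfl

instance : CommRing Z9 where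
  add_assoc x y z := by apply Z9.ext <;> simp [add_assoc]
  zero_add x := by apply Z9.ext <;> simp
  add_zero x := by apply Z9.ext <;> simp
  add_comm x y := by apply Z9.ext <;> simp [add_comm]
  neg_add_cancel x := by apply Z9.ext <;> simp
  sub_eq_add_neg x y := by apply Z9.ext <;> simp [sub_eq_add_neg]
  left_distrib x y z := by apply Z9.ext <;> simp only [mul_a, mul_b, mul_c, add_a, add_b, add_c]
    <;> ring
  right_distrib x y z := by apply Z9.ext <;> simp only [mul_a, mul_b, mul_c, add_a, add_b, add_c]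
    <;> ring
  zero_mul x := by apply Z9.ext <;> simp
  mul_zero x := by apply Z9.ext <;> simp
  mul_assoc x y z := by apply Z9.ext <;> simp only [mul_a, mul_b, mul_c] <;> ring
  one_mul x := by apply Z9.ext <;> simp
  mul_one x := by apply Z9.ext <;> simp
  mul_comm x y := by apply Z9.ext <;> simp only [mul_a, mul_b, mul_c] <;> ring
  nsmul := nsmulRec
  zsmul := zsmulRec
  natCast_zero := by apply Z9.ext <;> simp
  natCast_succ n := by apply Z9.ext <;> simp
  intCast_ofNat n := by apply Z9.ext <;> simp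
  intCast_negSucc n := by apply Z9.ext <;> simp [Int.negSucc_eq]

/-- the ninth root of unity -/
def z : Z9 := ⟨0, 1, 0⟩

/-- the embedding of the Eisenstein integers -/
def ι : Eis →+* Z9 where
  toFun x := ⟨x, 0, 0⟩
  map_one' := rfl
  map_mul' x y := by apply Z9.ext <;> simp
  map_zero' := rfl
  map_add' x y := by apply Z9.ext <;> simp

@[simp] theorem ι_a (x : Eis) : (ι x).a = x := rfl
@[simp] theorem ι_b (x : Eis) : (ι x).b = 0 := rfl
@[simp] theorem ι_c (x : Eis) : (ι x).c = 0 := rfl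
@[simp] theorem z_a : z.a = 0 := rfl
@[simp] theorem z_b : z.b = 1 := rfl
@[simp] theorem z_c : z.c = 0 := rfl

theorem z_cube : z ^ 3 = ι w := by
  have : z ^ 3 = z * z * z := by ring
  rw [this]
  apply Z9.ext <;> simp

theorem z_nine : z ^ 9 = 1 := by
  have : z ^ 9 = (z ^ 3) ^ 3 := by ring
  rw [this, z_cube, ← map_pow, w_cube, map_one]

/-- evaluation at a root of `X^3 = w` -/
def ev {R : Type*} [CommRing R] (φ : Eis →+* R) (t : R) (ht : t ^ 3 = φ w) : Z9 →+* R where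
  toFun x := φ x.a + φ x.b * t + φ x.c * t ^ 2
  map_one' := by simp
  map_mul' x y := by
    simp only [mul_a, mul_b, mul_c, map_add, map_mul]
    linear_combination (-(φ x.b * φ y.c + φ x.c * φ y.b) - φ x.c * φ y.c * t) * ht
  map_zero' := by simp
  map_add' x y := by simp only [add_a, add_b, add_c, map_add]; ring

theorem ev_apply {R : Type*} [CommRing R] (φ : Eis →+* R) (t : R) (ht : t ^ 3 = φ w) (x : Z9) :
    ev φ t ht x = φ x.a + φ x.b * t + φ x.c * t ^ 2 := rfl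

theorem ev_ι {R : Type*} [CommRing R] (φ : Eis →+* R) (t : R) (ht : t ^ 3 = φ w) (x : Eis) :
    ev φ t ht (ι x) = φ x := by
  rw [ev_apply]; simp

theorem ev_z {R : Type*} [CommRing R] (φ : Eis →+* R) (t : R) (ht : t ^ 3 = φ w) :
    ev φ t ht z = t := by
  rw [ev_apply]; simp

/-- the automorphism `z ↦ w z` -/
def σ : Z9 →+* Z9 := ev ι (ι w * z) (by
  rw [mul_pow, z_cube, ← map_pow, w_cube, map_one, one_mul])

theorem σ_apply (x : Z9) : σ x = ι x.a + ι x.b * (ι w * z) + ι x.c * (ι w * z) ^ 2 := rfl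
theorem σ_a (x : Z9) : (σ x).a = x.a := by
  rw [σ_apply]; simp [pow_two]
theorem σ_b (x : Z9) : (σ x).b = w * x.b := by
  rw [σ_apply]; simp [pow_two, mul_comm]
theorem σ_c (x : Z9) : (σ x).c = w ^ 2 * x.c := by
  rw [σ_apply]; simp [pow_two, mul_comm]

/-- complex conjugation -/
def bar : Z9 →+* Z9 := ev (ι.comp Eis.conj) (ι (w ^ 2) * z ^ 2) (by
  have : (ι (w ^ 2) * z ^ 2) ^ 3 = ι (w ^ 6) * (z ^ 3) ^ 2 := by
    rw [mul_pow, ← map_pow]; ring_nf
  rw [this, z_cube, ← map_pow, ← map_mul, RingHom.comp_apply, conj_w]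
  have e : w ^ 6 * w ^ 2 = w ^ 2 := by
    have := w_cube
    linear_combination (w ^ 5 + w ^ 2) * this
  rw [e])

theorem bar_apply (x : Z9) : bar x = ι (Eis.conj x.a) + ι (Eis.conj x.b) * (ι (w ^ 2) * z ^ 2) +
    ι (Eis.conj x.c) * (ι (w ^ 2) * z ^ 2) ^ 2 := rfl

theorem bar_a (x : Z9) : (bar x).a = Eis.conj x.a := by
  rw [bar_apply]; simp [pow_two]
theorem bar_b (x : Z9) : (bar x).b = w ^ 2 * Eis.conj x.c := by
  rw [bar_apply]; simp [pow_two]
  have := w_cube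
  linear_combination (w ^ 2 * Eis.conj x.c) * this
theorem bar_c (x : Z9) : (bar x).c = w ^ 2 * Eis.conj x.b := by
  rw [bar_apply]; simp [pow_two]; ring

theorem bar_z : bar z = z ^ 8 := by
  have : z ^ 8 = (z ^ 3) ^ 2 * z ^ 2 := by ring
  rw [this, z_cube, ← map_pow]
  apply Z9.ext
  · rw [bar_a]; simp [pow_two]
  · rw [bar_b]; simp [pow_two]
  · rw [bar_c]; simp [pow_two]

theorem σ_z : σ z = z ^ 4 := by
  have : z ^ 4 = z ^ 3 * z := by ring
  rw [this, z_cube]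
  apply Z9.ext
  · rw [σ_a]; simp
  · rw [σ_b]; simp
  · rw [σ_c]; simp

/-- relative norm -/
def N (x : Z9) : Eis := x.a ^ 3 + w * x.b ^ 3 + w ^ 2 * x.c ^ 3 - 3 * w * (x.a * x.b * x.c)

theorem N_def (x : Z9) :
    N x = x.a ^ 3 + w * x.b ^ 3 + w ^ 2 * x.c ^ 3 - 3 * w * (x.a * x.b * x.c) := rfl

theorem hom_N {R : Type*} [CommRing R] (φ : Eis →+* R) (t : R) (ht : t ^ 3 = φ w) (x : Z9) :
    φ (N x) = (φ x.a + φ x.b * t + φ x.c * t ^ 2) *
      (φ x.a + φ x.b * (φ w * t) + φ x.c * (φ w * t) ^ 2) *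
      (φ x.a + φ x.b * (φ w ^ 2 * t) + φ x.c * (φ w ^ 2 * t) ^ 2) := by
  have h3 : φ 3 = 3 := hom_three φ
  have hw := hom_w φ
  rw [N_def, map_sub, map_add, map_add, map_mul, map_mul, map_mul, map_mul, map_mul, map_mul, h3]
  simp only [map_pow]
  generalize φ x.a = a
  generalize φ x.b = b
  generalize φ x.c = c
  generalize φ w = W at *
  linear_combination (-(b ^ 3 + c ^ 3 * (t ^ 3 + W) - 3 * a * b * c)) * ht
    - (a ^ 2 * b * t + a ^ 2 * c * t ^ 2 * W ^ 2 - a ^ 2 * c * t ^ 2 * W + a ^ 2 * c * t ^ 2 + a * b ^ 2 * t ^ 2 * W + a * b * c * t ^ 3 * W ^ 3 + a * b * c * t ^ 3 * W ^ 2 - 2 * a * b * c * t ^ 3 * W + 3 * a * b * c * t ^ 3 + a * c ^ 2 * t ^ 4 * W ^ 4 - a * c ^ 2 * t ^ 4 * W ^ 3 + a * c ^ 2 * t ^ 4 * W ^ 2 + b ^ 3 * t ^ 3 * W - b ^ 3 * t ^ 3 + b ^ 2 * c * t ^ 4 * W ^ 3 + b * c ^ 2 * t ^ 5 * W ^ 4 + c ^ 3 * t ^ 6 * W ^ 4 - c ^ 3 * t ^ 6 * W ^ 3 + c ^ 3 * t ^ 6 * W - c ^ 3 * t ^ 6) * hw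

theorem eq_sum (x : Z9) : x = ι x.a + ι x.b * z + ι x.c * z ^ 2 := by
  apply Z9.ext <;> simp [pow_two]

theorem ι_injective : Function.Injective ι := fun _ _ h => congrArg Z9.a h

theorem ι_N (x : Z9) : ι (N x) = x * σ x * σ (σ x) := by
  have h := hom_N ι z z_cube x
  have e1 : ι x.a + ι x.b * z + ι x.c * z ^ 2 = x := (eq_sum x).symm
  have e2 : ι x.a + ι x.b * (ι w * z) + ι x.c * (ι w * z) ^ 2 = σ x := rfl
  have e3 : ι x.a + ι x.b * (ι w ^ 2 * z) + ι x.c * (ι w ^ 2 * z) ^ 2 = σ (σ x) := by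
    rw [σ_apply (σ x), σ_a, σ_b, σ_c]
    simp only [map_mul, map_pow]
    ring
  exact h.trans (congrArg₂ (· * ·) (congrArg₂ (· * ·) e1 e2) e3)

theorem N_mul (x y : Z9) : N (x * y) = N x * N y := by
  apply ι_injective
  rw [ι_N (x * y), map_mul ι (N x) (N y), ι_N x, ι_N y, map_mul σ x y, map_mul σ (σ x) (σ y)]
  ring

theorem N_ι (x : Eis) : N (ι x) = x ^ 3 := by
  rw [N_def]; simp

theorem N_natCast (n : ℕ) : N (n : Z9) = (n : Eis) ^ 3 := by
  rw [N_def]; simp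

theorem N_bar (x : Z9) : N (bar x) = Eis.conj (N x) := by
  rw [N_def, N_def, bar_a, bar_b, bar_c]
  have h3 : Eis.conj 3 = 3 := conj_natCast 3
  simp only [map_sub, map_add, map_mul, map_pow, conj_w, h3]
  have := w_cube
  linear_combination (w ^ 4 * Eis.conj x.c ^ 3 + w ^ 5 * Eis.conj x.b ^ 3
    + w ^ 2 * Eis.conj x.b ^ 3 - 3 * w ^ 2 * Eis.conj x.a * Eis.conj x.b * Eis.conj x.c) * this

theorem N_σ (x : Z9) : N (σ x) = N x := by
  rw [N_def, N_def, σ_a, σ_b, σ_c]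
  have := w_cube
  linear_combination (w * x.b ^ 3 + (w ^ 5 + w ^ 2) * x.c ^ 3
    - 3 * w * x.a * x.b * x.c) * this

/-- an embedding into the complex numbers -/
theorem exists_embedding : ∃ f : Z9 →+* ℂ, Function.Injective f := by
  have hz := Complex.isPrimitiveRoot_exp 9 (by norm_num)
  set ζ : ℂ := Complex.exp (2 * Real.pi * Complex.I / (9 : ℕ)) with hζ
  clear_value ζ
  have h9 := hz.pow_eq_one
  have h3 : ζ ^ 3 ≠ 1 := fun h => by
    have := hz.dvd_of_pow_eq_one 3 h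
    norm_num at this
  have ht : (ζ ^ 3) ^ 2 + ζ ^ 3 + 1 = 0 := by
    have h1 : (ζ ^ 3 - 1) * ((ζ ^ 3) ^ 2 + ζ ^ 3 + 1) = 0 := by linear_combination h9
    rcases mul_eq_zero.mp h1 with h | h
    · exact absurd (sub_eq_zero.mp h) h3
    · exact h
  let φ : Eis →+* ℂ := Eis.lift (ζ ^ 3) ht
  have hφw : ζ ^ 3 = φ w := by
    show ζ ^ 3 = ((0 : ℤ) : ℂ) + ((1 : ℤ) : ℂ) * ζ ^ 3
    push_cast; ring
  refine ⟨ev φ ζ hφw, ?_⟩
  rw [injective_iff_map_eq_zero]
  intro x hx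
  rw [ev_apply] at hx
  open Polynomial in
  let P : ℤ[X] := C x.a.re + C x.b.re * X + C x.c.re * X ^ 2 + C x.a.im * X ^ 3 +
    C x.b.im * X ^ 4 + C x.c.im * X ^ 5
  have hP : Polynomial.aeval ζ P = 0 := by
    rw [← hx]
    simp only [P, map_add, map_mul, map_pow, Polynomial.aeval_C, Polynomial.aeval_X,
      algebraMap_int_eq, Int.coe_castRingHom]
    show _ = ((x.a.re : ℂ) + (x.a.im : ℂ) * ζ ^ 3) + ((x.b.re : ℂ) + (x.b.im : ℂ) * ζ ^ 3) * ζ +
      ((x.c.re : ℂ) + (x.c.im : ℂ) * ζ ^ 3) * ζ ^ 2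
    ring
  have hint : IsIntegral ℤ ζ := hz.isIntegral (by norm_num)
  have hdvd := minpoly.isIntegrallyClosed_dvd hint hP
  rw [← Polynomial.cyclotomic_eq_minpoly hz (by norm_num)] at hdvd
  have hP0 : P = 0 := by
    by_contra hne
    have h1 := Polynomial.natDegree_le_of_dvd hdvd hne
    rw [Polynomial.natDegree_cyclotomic] at h1
    have h2 : P.natDegree ≤ 5 := by
      simp only [P]
      compute_degree
    have h4 : Nat.totient 9 = 6 := by decide
    omega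
  have hc : ∀ i, P.coeff i = 0 := fun i => by rw [hP0]; simp
  have c0 := hc 0
  have c1 := hc 1
  have c2 := hc 2
  have c3 := hc 3
  have c4 := hc 4
  have c5 := hc 5
  simp only [P, Polynomial.coeff_add, Polynomial.coeff_C_mul, Polynomial.coeff_X_pow,
    Polynomial.coeff_X, Polynomial.coeff_C] at c0 c1 c2 c3 c4 c5
  norm_num at c0 c1 c2 c3 c4 c5
  apply Z9.ext <;> apply Eis.ext <;> simp only [zero_a, zero_b, zero_c, zero_re, zero_im] <;>
    assumption

instance : IsDomain Z9 := by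
  obtain ⟨f, hf⟩ := exists_embedding
  exact hf.isDomain f

instance : CharZero Z9 := ⟨fun a b hab => by
  have h1 := congrArg Z9.a hab
  have h2 := congrArg Eis.re h1
  simpa using h2⟩

theorem z_primitive : IsPrimitiveRoot z 9 := by
  have h3 : ¬ z ^ 3 ^ 1 = 1 := by
    rw [pow_one, z_cube]
    intro h
    have h1 := congrArg Z9.a h
    have h2 := congrArg Eis.re h1
    simp at h2
  have := orderOf_eq_prime_pow (p := 3) (n := 1) h3 (by
    have : 3 ^ (1 + 1) = 9 := by norm_num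
    rw [this, z_nine])
  have h9 : orderOf z = 9 := by rw [this]; norm_num
  rw [← h9]
  exact IsPrimitiveRoot.orderOf z

end Z9

end Pool.Agent.Lib_helper18

end

section

/-!
# Jacobi sums of order nine
-/

namespace Pool.Agent.Lib_helper18

open Eis Z9

section fact

variable {p : ℕ} [hp : Fact p.Prime]

theorem fact_mul_fact (k : ℕ) (hk : k ≤ p - 1) :
    ((k.factorial : ℕ) : ZMod p) * (((p - 1 - k).factorial : ℕ) : ZMod p) = (-1) ^ (k + 1) := by
  have hp2 := hp.out.two_le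
  induction k with
  | zero =>
    have := ZMod.wilsons_lemma p
    simp only [Nat.factorial_zero, Nat.cast_one, one_mul, Nat.sub_zero, zero_add, pow_one]
    exact this
  | succ k ih =>
    have ih' := ih (by omega)
    have h1 : p - 1 - k = (p - 1 - (k + 1)) + 1 := by omega
    rw [h1, Nat.factorial_succ, ← h1] at ih'
    rw [Nat.factorial_succ]
    push_cast at ih' ⊢
    have h2 : ((p - 1 - k : ℕ) : ZMod p) = -((k : ZMod p) + 1) := by
      have h3 : ((p - 1 - k : ℕ) : ZMod p) + ((k : ZMod p) + 1) = 0 := by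
        have : (p - 1 - k) + (k + 1) = p := by omega
        have := congrArg (Nat.cast : ℕ → ZMod p) this
        push_cast at this
        rw [this]; simp
      linear_combination h3
    rw [h2] at ih'
    rw [pow_succ, ← ih']
    ring

theorem fact_ne_zero (k : ℕ) (hk : k < p) : ((k.factorial : ℕ) : ZMod p) ≠ 0 := by
  rw [Ne, ZMod.natCast_eq_zero_iff, hp.out.dvd_factorial]
  omega

theorem fact_mult {m : ℕ} (hm : ((9 * m + 1 : ℕ) : ZMod p) = 0) (j : ℕ) :
    (((3 * j).factorial : ℕ) : ZMod p) * (((3 * m).factorial : ℕ) : ZMod p) *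
      (((6 * m).factorial : ℕ) : ZMod p) = 27 ^ j * ((j.factorial : ℕ) : ZMod p) *
      (((3 * m + j).factorial : ℕ) : ZMod p) * (((6 * m + j).factorial : ℕ) : ZMod p) := by
  induction j with
  | zero => simp
  | succ j ih =>
    have e1 : (3 * (j + 1)).factorial =
        (3 * j + 3) * ((3 * j + 2) * ((3 * j + 1) * (3 * j).factorial)) := by
      have : 3 * (j + 1) = 3 * j + 3 := by ring
      rw [this, Nat.factorial_succ, Nat.factorial_succ, Nat.factorial_succ]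
    have e2 : (3 * m + (j + 1)).factorial = (3 * m + j + 1) * (3 * m + j).factorial := by
      rw [← add_assoc, Nat.factorial_succ]
    have e3 : (6 * m + (j + 1)).factorial = (6 * m + j + 1) * (6 * m + j).factorial := by
      rw [← add_assoc, Nat.factorial_succ]
    rw [e1, e2, e3, Nat.factorial_succ]
    push_cast at hm ih ⊢
    have h1 : 3 * (3 * (m : ZMod p) + j + 1) = 3 * j + 2 := by linear_combination hm
    have h2 : 3 * (6 * (m : ZMod p) + j + 1) = 3 * j + 1 := by linear_combination 2 * hm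
    have h3 : (27 : ZMod p) ^ (j + 1) * (((j : ZMod p) + 1) * (j.factorial : ZMod p)) *
        ((3 * m + j + 1) * ((3 * m + j).factorial : ZMod p)) *
        ((6 * m + j + 1) * ((6 * m + j).factorial : ZMod p)) =
        (3 * (3 * (m : ZMod p) + j + 1)) * (3 * (6 * (m : ZMod p) + j + 1)) * (3 * (j + 1)) *
        (27 ^ j * (j.factorial : ZMod p) * ((3 * m + j).factorial : ZMod p) *
          ((6 * m + j).factorial : ZMod p)) := by
      rw [pow_succ]; ring
    rw [h3, h1, h2, ← ih]; ring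

/-- values of Jacobi sums modulo p -/
noncomputable def jv (p m r : ℕ) [Fact p.Prime] : ZMod p :=
  ∑ x : ZMod p, x ^ (m * r) * (1 - x) ^ (m * r)

theorem jv_zero {m r : ℕ} (hm : p - 1 = 9 * m) (hr : 0 < r) (hr2 : r ≤ 4) : jv p m r = 0 := by
  have hp2 := hp.out.two_le
  have hm0 : 0 < m := by omega
  have h1 : m * r ≤ m * 4 := Nat.mul_le_mul_left _ hr2
  have h2 : 0 < m * r := Nat.mul_pos hm0 hr
  rw [jv, sum_pow_mul_pow _ h2 (by omega), if_neg (by omega)]

theorem m_even {m : ℕ} (hm : p - 1 = 9 * m) : Even m := by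
  have hp2 := hp.out.two_le
  rcases hp.out.eq_two_or_odd with h2 | h2
  · omega
  · rw [Nat.even_iff]; omega

theorem jv_eq {m r : ℕ} (hm : p - 1 = 9 * m) (hr : 5 ≤ r) (hr2 : r ≤ 8) :
    jv p m r = -(((r * m).choose ((9 - r) * m) : ℕ) : ZMod p) := by
  have hp2 := hp.out.two_le
  have hm0 : 0 < m := by omega
  have h1 : m * r ≤ m * 8 := Nat.mul_le_mul_left _ hr2
  have h2 : m * 5 ≤ m * r := Nat.mul_le_mul_left _ hr
  have h3 : p - 1 - m * r = (9 - r) * m := by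
    rw [hm, Nat.sub_mul, mul_comm m r]
  rw [jv, sum_pow_mul_pow _ (by omega) (by omega), if_pos (by omega), h3,
    ((m_even hm).mul_left _).neg_one_pow, one_mul, mul_comm m r]

theorem choose_eq {n k : ℕ} (hk : k ≤ n) :
    ((n.choose k : ℕ) : ZMod p) * ((k.factorial : ℕ) : ZMod p) *
      (((n - k).factorial : ℕ) : ZMod p) = ((n.factorial : ℕ) : ZMod p) := by
  have := Nat.choose_mul_factorial_mul_factorial hk
  rw [← this]; push_cast; ring

theorem jv_ne_zero {m r : ℕ} (hm : p - 1 = 9 * m) (hr : 5 ≤ r) (hr2 : r ≤ 8) :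
    jv p m r ≠ 0 := by
  have hp2 := hp.out.two_le
  have hm0 : 0 < m := by omega
  have h1 : m * r ≤ m * 8 := Nat.mul_le_mul_left _ hr2
  rw [jv_eq hm hr hr2, neg_ne_zero]
  intro h
  have h4 : (9 - r) * m ≤ r * m := Nat.mul_le_mul_right _ (by omega)
  have h3 := choose_eq (p := p) h4
  rw [h, zero_mul, zero_mul] at h3
  exact fact_ne_zero (p := p) (r * m) (by rw [mul_comm]; omega) h3.symm

/-- The ratio of two Jacobi sums modulo `p` in terms of `(3m)!`. -/
theorem jv_ratio {m : ℕ} (hm : p - 1 = 9 * m) :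
    jv p m 8 * (((3 * m).factorial : ℕ) : ZMod p) =
      -(((((4 * m).factorial : ℕ) : ZMod p) * 3 ^ m) ^ 3 * jv p m 5) := by
  have hp2 := hp.out.two_le
  have hm0 : 0 < m := by omega
  have hev := m_even hm
  have hp9 : ((9 * m + 1 : ℕ) : ZMod p) = 0 := by
    have : 9 * m + 1 = p := by omega
    rw [this]; simp
  have w1 := fact_mul_fact (p := p) m (by omega)
  have w3 := fact_mul_fact (p := p) (3 * m) (by omega)
  have w4 := fact_mul_fact (p := p) (4 * m) (by omega)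
  have o1 : p - 1 - m = 8 * m := by omega
  have o3 : p - 1 - 3 * m = 6 * m := by omega
  have o4 : p - 1 - 4 * m = 5 * m := by omega
  rw [o1, pow_succ, hev.neg_one_pow, one_mul] at w1
  rw [o3, pow_succ, (hev.mul_left 3).neg_one_pow, one_mul] at w3
  rw [o4, pow_succ, (hev.mul_left 4).neg_one_pow, one_mul] at w4
  have hmult := fact_mult hp9 m
  have o5 : 3 * m + m = 4 * m := by ring
  have o6 : 6 * m + m = 7 * m := by ring
  rw [o5, o6] at hmult
  have c8 := choose_eq (p := p) (n := 8 * m) (k := m) (by omega)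
  have c5 := choose_eq (p := p) (n := 5 * m) (k := 4 * m) (by omega)
  have o7 : 8 * m - m = 7 * m := by omega
  have o8 : 5 * m - 4 * m = m := by omega
  rw [o7] at c8
  rw [o8] at c5
  rw [jv_eq hm (by norm_num) (by norm_num), jv_eq hm (by norm_num) (by norm_num)]
  have o9 : (9 - 8) * m = m := by omega
  have o10 : (9 - 5) * m = 4 * m := by omega
  rw [o9, o10]
  have n1 := fact_ne_zero (p := p) m (by omega)
  have n4 := fact_ne_zero (p := p) (4 * m) (by omega)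
  have n7 := fact_ne_zero (p := p) (7 * m) (by omega)
  generalize (((m).factorial : ℕ) : ZMod p) = f1 at *
  generalize (((3 * m).factorial : ℕ) : ZMod p) = f3 at *
  generalize (((4 * m).factorial : ℕ) : ZMod p) = f4 at *
  generalize (((5 * m).factorial : ℕ) : ZMod p) = f5 at *
  generalize (((6 * m).factorial : ℕ) : ZMod p) = f6 at *
  generalize (((7 * m).factorial : ℕ) : ZMod p) = f7 at *
  generalize (((8 * m).factorial : ℕ) : ZMod p) = f8 at *
  generalize (((8 * m).choose m : ℕ) : ZMod p) = C8 at *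
  generalize (((5 * m).choose (4 * m) : ℕ) : ZMod p) = C5 at *
  have h27 : (27 : ZMod p) ^ m = (3 ^ m) ^ 3 := by
    rw [← pow_mul, mul_comm m 3, pow_mul]; norm_num
  rw [h27] at hmult
  generalize (3 : ZMod p) ^ m = T at *
  -- goal : -C8 * f3 = -((f4 * T)^3 * -C5)
  have hf3 : -f3 = T ^ 3 * f1 * f4 * f7 := by linear_combination hmult - f3 * w3
  apply mul_left_cancel₀ (mul_ne_zero (mul_ne_zero n1 n1) n7)
  -- f1^2 f7 C8 f3 = f1 f8 f3 = - f3
  have g1 : f1 * f1 * f7 * (-C8 * f3) = f3 := by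
    linear_combination (-f1 * f3) * c8 - f3 * w1
  have g2 : f1 * f1 * f7 * (-((f4 * T) ^ 3 * -C5)) = f3 := by
    linear_combination (f1 * f7 * f4 ^ 2 * T ^ 3) * c5 + (f1 * f7 * f4 * T ^ 3) * w4 + hf3
  rw [g1, g2]

/-- The middle Jacobi sum modulo `p`. -/
theorem jv_six {m : ℕ} (hm : p - 1 = 9 * m) :
    jv p m 6 * (((3 * m).factorial : ℕ) : ZMod p) ^ 3 = 1 := by
  have hp2 := hp.out.two_le
  have hm0 : 0 < m := by omega
  have hev := m_even hm
  have w3 := fact_mul_fact (p := p) (3 * m) (by omega)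
  have o3 : p - 1 - 3 * m = 6 * m := by omega
  rw [o3, pow_succ, (hev.mul_left 3).neg_one_pow, one_mul] at w3
  have c6 := choose_eq (p := p) (n := 6 * m) (k := 3 * m) (by omega)
  have o7 : 6 * m - 3 * m = 3 * m := by omega
  rw [o7] at c6
  rw [jv_eq hm (by norm_num) (by norm_num)]
  have o9 : (9 - 6) * m = 3 * m := by omega
  rw [o9]
  linear_combination (-(((3 * m).factorial : ℕ) : ZMod p)) * c6 - w3

end fact

section char

variable {p : ℕ} [hp : Fact p.Prime]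

theorem root_primitive (hp9 : p % 9 = 1) (φ : Eis →+* ZMod p) {t : ZMod p}
    (ht : t ^ 3 = φ w) : IsPrimitiveRoot t 9 := by
  have hw := hom_w_primitive (p := p) (by omega) φ
  have h3 : ¬ t ^ 3 ^ 1 = 1 := by
    rw [pow_one, ht]
    exact hw.ne_one (by norm_num)
  have := orderOf_eq_prime_pow (p := 3) (n := 1) h3 (by
    have : 3 ^ (1 + 1) = 3 * 3 := by norm_num
    rw [this, pow_mul, ht, hw.pow_eq_one])
  have h9 : orderOf t = 9 := by rw [this]; norm_num
  rw [← h9]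
  exact IsPrimitiveRoot.orderOf t

/-- a character of order nine -/
def IsPsi (ψ : MulChar (ZMod p) Z9) (t : ZMod p) (m : ℕ) : Prop :=
  (∀ x : ZMod p, x ≠ 0 → ∃ i : ℕ, ψ x = z ^ i ∧ t ^ i = x ^ m) ∧ ∃ x : ZMod p, x ≠ 0 ∧ ψ x = z

theorem exists_psi (hp9 : p % 9 = 1) {m : ℕ} (hm : p - 1 = 9 * m) (φ : Eis →+* ZMod p)
    {t : ZMod p} (ht : t ^ 3 = φ w) : ∃ ψ : MulChar (ZMod p) Z9, IsPsi ψ t m := by
  obtain ⟨ψ, h1, h2, h3⟩ := exists_mulChar (ev φ t ht) z z_nine
    (by rw [ev_z]; exact root_primitive hp9 φ ht) hm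
  refine ⟨ψ, ?_, h3⟩
  intro x hx
  obtain ⟨i, hi⟩ := h2 x hx
  refine ⟨i, hi, ?_⟩
  rw [← h1 x hx, hi, map_pow, ev_z]

variable {ψ : MulChar (ZMod p) Z9} {t : ZMod p} {m : ℕ}

theorem IsPsi.pow_nine (h : IsPsi ψ t m) : ψ ^ 9 = 1 := by
  refine MulChar.ext fun x => ?_
  rw [MulChar.pow_apply_coe]
  obtain ⟨i, hi, -⟩ := h.1 x x.ne_zero
  rw [hi, ← pow_mul, mul_comm, pow_mul, z_nine, one_pow, MulChar.one_apply_coe]

theorem IsPsi.orderOf (h : IsPsi ψ t m) : orderOf ψ = 9 := by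
  have h3 : ¬ ψ ^ 3 ^ 1 = 1 := by
    rw [pow_one]
    intro h3
    obtain ⟨x, hx, hx2⟩ := h.2
    have h4 : (ψ ^ 3) x = 1 := by rw [h3]; exact MulChar.one_apply (isUnit_iff_ne_zero.mpr hx)
    rw [MulChar.pow_apply' _ (by norm_num), hx2, z_cube] at h4
    have h1 := congrArg Z9.a h4
    have h2 := congrArg Eis.re h1
    simp at h2
  have := orderOf_eq_prime_pow (p := 3) (n := 1) h3 (by
    have : 3 ^ (1 + 1) = 9 := by norm_num
    rw [this, h.pow_nine])
  rw [this]; norm_num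

/-- Jacobi sums of powers of `ψ` -/
noncomputable def JJ (ψ : MulChar (ZMod p) Z9) (a : ℕ) : Z9 := jacobiSum (ψ ^ a) (ψ ^ a)

theorem IsPsi.JJ_add_nine (h : IsPsi ψ t m) (a : ℕ) : JJ ψ (a + 9) = JJ ψ a := by
  rw [JJ, JJ, pow_add, h.pow_nine, mul_one]

theorem IsPsi.ringHomComp (h : IsPsi ψ t m) (τ : Z9 →+* Z9) (j : ℕ) (hτ : τ z = z ^ j) :
    ψ.ringHomComp τ = ψ ^ j := by
  refine MulChar.ext fun x => ?_
  rw [MulChar.ringHomComp_apply, MulChar.pow_apply_coe]
  obtain ⟨i, hi, -⟩ := h.1 x x.ne_zero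
  rw [hi, map_pow, hτ, ← pow_mul, ← pow_mul, mul_comm]

theorem IsPsi.map_JJ (h : IsPsi ψ t m) (τ : Z9 →+* Z9) (j : ℕ) (hτ : τ z = z ^ j) (a : ℕ) :
    τ (JJ ψ a) = JJ ψ (j * a) := by
  rw [JJ, JJ, ← jacobiSum_ringHomComp, ← MulChar.ringHomComp_pow, h.ringHomComp τ j hτ, ← pow_mul]

theorem IsPsi.JJ_mul (h : IsPsi ψ t m) {a : ℕ} (ha : ¬ 3 ∣ a) :
    JJ ψ a * JJ ψ (8 * a) = (p : Z9) := by
  have hinv : (ψ ^ a)⁻¹ = ψ ^ (8 * a) := by
    rw [inv_eq_iff_mul_eq_one, ← pow_add]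
    have : a + 8 * a = 9 * a := by ring
    rw [this, pow_mul, h.pow_nine, one_pow]
  rw [JJ, JJ, ← hinv]
  have hord := h.orderOf
  have hno : ∀ k, ¬ 9 ∣ k → ψ ^ k ≠ 1 := by
    intro k hk h1
    rw [← orderOf_dvd_iff_pow_eq_one, hord] at h1
    exact hk h1
  apply jacobiSum_mul_inv
  · apply hno; omega
  · rw [← pow_add]; apply hno; omega

theorem IsPsi.JJ_mod (h : IsPsi ψ t m) (hm : p - 1 = 9 * m) (a : ℕ) :
    ∃ y : Z9, JJ ψ a = -1 + y * (z - 1) ^ 2 := by
  have h9 : (ψ ^ a) ^ 9 = 1 := by rw [← pow_mul, mul_comm, pow_mul, h.pow_nine, one_pow]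
  have hdvd : 9 ∣ Fintype.card (ZMod p) - 1 := by rw [ZMod.card, hm]; exact dvd_mul_right _ _
  obtain ⟨y, -, hy⟩ := exists_jacobiSum_eq_neg_one_add (n := 9) (by norm_num : 2 < 9)
    (χ := ψ ^ a) (ψ := ψ ^ a) (μ := z) h9 h9 hdvd z_primitive
  exact ⟨y, hy⟩

/-- evaluation of Jacobi sums modulo `p` -/
theorem IsPsi.ev_JJ (h : IsPsi ψ t m) (hm : p - 1 = 9 * m) (E : Z9 →+* ZMod p) {j : ℕ}
    (hE : E z = t ^ j) {a r : ℕ} (hr : (a * j) % 9 = r) (hr0 : 0 < r) :
    E (JJ ψ a) = jv p m r := by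
  have hp2 := hp.out.two_le
  have hm0 : 0 < m := by omega
  have h1 : ∀ x : ZMod p, x ≠ 0 → E ((ψ ^ a) x) = x ^ (m * r) := by
    intro x hx
    obtain ⟨i, hi, hi2⟩ := h.1 x hx
    have ha0 : a ≠ 0 := by rintro rfl; simp at hr; omega
    rw [MulChar.pow_apply' _ ha0, hi, map_pow, map_pow, hE]
    have e1 : (((t ^ j) ^ i) ^ a) = (t ^ i) ^ (a * j) := by
      rw [← pow_mul, ← pow_mul, ← pow_mul]; congr 1; ring
    rw [e1, hi2, ← pow_mul]
    conv_lhs => rw [← Nat.mod_add_div (a * j) 9, hr]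
    rw [mul_add, pow_add, ← mul_assoc, mul_comm m 9, ← hm, pow_mul x (p - 1),
      ZMod.pow_card_sub_one_eq_one hx, one_pow, mul_one]
  rw [JJ, map_jacobiSum E (ψ ^ a) (m * r) (Nat.mul_pos hm0 hr0) h1]
  rfl

end char

end Pool.Agent.Lib_helper18

end

section

/-!
# Preparations for Case II-b
-/

namespace Pool.Agent.Lib_helper18

open Eis Z9

/-- the real element attached to `γ` -/
def kap (γ : Eis) : Z9 := ⟨0, γ, w ^ 2 * conj γ⟩

/-- a unit -/
def th : Z9 := ⟨-1, w ^ 2, 1⟩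

/-- minus its inverse -/
def th1 : Z9 := ⟨0, 1, w ^ 2⟩

theorem th_mul : th * th1 = -1 := by
  apply Z9.ext <;> simp only [th, th1, mul_a, mul_b, mul_c, neg_a, neg_b, neg_c, one_a, one_b,
    one_c] <;> decide

theorem bar_th : bar th = th := by
  apply Z9.ext
  · rw [bar_a]; decide
  · rw [bar_b]; decide
  · rw [bar_c]; decide

theorem bar_kap (γ : Eis) : bar (kap γ) = kap γ := by
  have hw := w_cube
  apply Z9.ext
  · rw [bar_a]; simp [kap]
  · rw [bar_b]; simp only [kap, map_mul, map_pow, conj_w, conj_conj]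
    linear_combination (w ^ 3 * γ + γ) * hw
  · rw [bar_c]; simp [kap]

theorem N_th : N th = 1 := by rw [N_def]; decide

theorem N_kap (γ : Eis) : N (kap γ) = w * γ ^ 3 + w ^ 2 * (conj γ) ^ 3 := by
  rw [N_def]
  simp only [kap]
  have hw := w_cube
  linear_combination ((w ^ 5 + w ^ 2) * (conj γ) ^ 3) * hw

theorem three_vanish {F : Type*} [Field F] {α β χ s W : F} (h3 : (3 : F) ≠ 0) (hs : s ≠ 0)
    (hW : W ^ 2 + W + 1 = 0) (h0 : α + β * s + χ * s ^ 2 = 0)
    (h1 : α + β * (W * s) + χ * (W * s) ^ 2 = 0)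
    (h2 : α + β * (W ^ 2 * s) + χ * (W ^ 2 * s) ^ 2 = 0) : α = 0 ∧ β = 0 ∧ χ = 0 := by
  have hW3 : W ^ 3 = 1 := by linear_combination (W - 1) * hW
  have e1 : 3 * α = 0 := by
    linear_combination h0 + h1 + h2 - β * s * hW - χ * s ^ 2 * hW - χ * s ^ 2 * W * hW3
  have e2 : 3 * (β * s) = 0 := by
    linear_combination h0 + W ^ 2 * h1 + W * h2 - α * hW - 2 * β * s * hW3
      - χ * s ^ 2 * hW - (χ * s ^ 2 * (W + W ^ 2)) * hW3
  have e3 : 3 * (χ * s ^ 2) = 0 := by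
    linear_combination h0 + W * h1 + W ^ 2 * h2 - α * hW - β * s * hW - β * s * W * hW3
      - (χ * s ^ 2 * (W ^ 3 + 2)) * hW3
  refine ⟨?_, ?_, ?_⟩
  · exact (mul_eq_zero.mp e1).resolve_left h3
  · have := (mul_eq_zero.mp e2).resolve_left h3
    exact (mul_eq_zero.mp this).resolve_right hs
  · have := (mul_eq_zero.mp e3).resolve_left h3
    exact (mul_eq_zero.mp this).resolve_right (pow_ne_zero 2 hs)

end Pool.Agent.Lib_helper18

end
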