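import Mathlib
import Pool.Agent.PTWX.C06

/-! Parts: Lib_helper18.FD1, Lib_helper18.FD2, Lib_helper18.FD3, Lib_helper18.FD5, Lib_helper18.FD9, Lib_helper84.Cub.Defs -/

section

/-!
# First descent for composite `A`: splitting lemmas
-/

namespace Pool.Agent.Lib_helper18

open Finset

/-- splitting a product of two coprime integers -/
theorem split_two {ι : Type*} [DecidableEq ι] (p e : ι → ℕ) (hp : ∀ i, (p i).Prime)
    (he : ∀ i, e i ≠ 0) (S : Finset ι) :
    ∀ (u v s : ℤ), IsCoprime u v → u * v = (∏ j ∈ S, (p j : ℤ) ^ e j) * s ^ 3 →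
    ∃ J ⊆ S, ∃ a b : ℤ, u = (∏ j ∈ J, (p j : ℤ) ^ e j) * a ^ 3 ∧
      v = (∏ j ∈ S \ J, (p j : ℤ) ^ e j) * b ^ 3 ∧ s = a * b := by
  induction S using Finset.induction_on with
  | empty =>
    intro u v s huv h
    rw [prod_empty, one_mul] at h
    obtain ⟨a, ha⟩ := Int.eq_pow_of_mul_eq_pow_odd_left huv (by decide : Odd 3) h
    obtain ⟨b, hb⟩ := Int.eq_pow_of_mul_eq_pow_odd_right huv (by decide : Odd 3) h
    refine ⟨∅, Finset.Subset.refl _, a, b, by simpa using ha, by simpa using hb, ?_⟩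
    have h1 : (a * b) ^ 3 = s ^ 3 := by rw [mul_pow, ← ha, ← hb, h]
    exact ((by decide : Odd 3).pow_injective h1).symm
  | insert j S hj ih =>
    intro u v s huv h
    have hpj : Prime (p j : ℤ) := Nat.prime_iff_prime_int.mp (hp j)
    have hpj0 : (p j : ℤ) ^ e j ≠ 0 := pow_ne_zero _ hpj.ne_zero
    rw [prod_insert hj] at h
    have h1 : (p j : ℤ) ∣ u * v := by
      rw [h]
      exact Dvd.dvd.mul_right (Dvd.dvd.mul_right (dvd_pow_self _ (he j)) _) _
    rcases hpj.dvd_or_dvd h1 with h2 | h2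
    · have h3 : ¬ (p j : ℤ) ∣ v := fun h3 => hpj.not_isUnit (huv.isUnit_of_dvd' h2 h3)
      have h4 : (p j : ℤ) ^ e j ∣ u := by
        apply hpj.pow_dvd_of_dvd_mul_right (e j) h3
        rw [h, mul_assoc]; exact dvd_mul_right _ _
      obtain ⟨u', hu'⟩ := h4
      have h5 : u' * v = (∏ j ∈ S, (p j : ℤ) ^ e j) * s ^ 3 := by
        apply mul_left_cancel₀ hpj0
        rw [← mul_assoc, ← mul_assoc, ← hu', h]
      obtain ⟨J, hJ, a, b, ha, hb, hs⟩ := ih u' v s
        (huv.of_isCoprime_of_dvd_left ⟨(p j : ℤ) ^ e j, by rw [hu']; ring⟩) h5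
      have hjJ : j ∉ J := fun h => hj (hJ h)
      refine ⟨insert j J, insert_subset_insert j hJ, a, b, ?_, ?_, hs⟩
      · rw [prod_insert hjJ, hu', ha]; ring
      · rw [insert_sdiff_insert, sdiff_insert_of_notMem hj]; exact hb
    · have h3 : ¬ (p j : ℤ) ∣ u := fun h3 => hpj.not_isUnit (huv.isUnit_of_dvd' h3 h2)
      have h4 : (p j : ℤ) ^ e j ∣ v := by
        apply hpj.pow_dvd_of_dvd_mul_left (e j) h3
        rw [h, mul_assoc]; exact dvd_mul_right _ _
      obtain ⟨v', hv'⟩ := h4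
      have h5 : u * v' = (∏ j ∈ S, (p j : ℤ) ^ e j) * s ^ 3 := by
        apply mul_left_cancel₀ hpj0
        rw [hv'] at h
        linear_combination h
      obtain ⟨J, hJ, a, b, ha, hb, hs⟩ := ih u v' s
        (huv.of_isCoprime_of_dvd_right ⟨(p j : ℤ) ^ e j, by rw [hv']; ring⟩) h5
      have hjJ : j ∉ J := fun h => hj (hJ h)
      refine ⟨J, hJ.trans (subset_insert _ _), a, b, ha, ?_, hs⟩
      rw [insert_sdiff_of_notMem _ hjJ, prod_insert (by simp [hj]), hv', hb]; ring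

namespace Eis

theorem Prim.of_mul {x y : Eis} (hx : Prim x) (hxy : Prim (x * y)) : Prim y := by
  have h1 : ¬ lam ∣ y := fun h => hxy.not_lam_dvd (Dvd.dvd.mul_left h _)
  obtain ⟨i, hi⟩ := exists_prim h1
  have h2 : Prim (x * y * w ^ i) := by rw [mul_assoc]; exact hx.mul hi
  rcases hxy.unit (isUnit_w.pow i) h2 with h3 | h3
  · rwa [h3, mul_one] at hi
  · rw [h3, mul_neg, mul_one] at hi
    simpa using hi.neg

theorem sym_prod_pow {ι : Type*} [DecidableEq ι] {l : Eis} (hl : Prime l) (h3 : ¬ l ∣ 3)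
    (x : ι → Eis) (e : ι → ℕ) (S : Finset ι) (hx : ∀ j ∈ S, ¬ l ∣ x j) :
    ¬ l ∣ ∏ j ∈ S, x j ^ e j ∧
      sym l (∏ j ∈ S, x j ^ e j) = ∑ j ∈ S, (e j : ZMod 3) * sym l (x j) := by
  induction S using Finset.induction_on with
  | empty => exact ⟨by simpa using fun h => hl.not_isUnit (isUnit_of_dvd_one h),
      by simpa using sym_one hl h3⟩
  | insert j S hj ih =>
    obtain ⟨h1, h2⟩ := ih (fun k hk => hx k (mem_insert_of_mem hk))
    have h4 : ¬ l ∣ x j ^ e j := fun h => hx j (mem_insert_self _ _) (hl.dvd_of_dvd_pow h)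
    rw [prod_insert hj, sum_insert hj]
    refine ⟨fun h => (hl.dvd_or_dvd h).elim h4 h1, ?_⟩
    rw [sym_mul hl h3 h4 h1, h2, sym_pow hl h3 (hx j (mem_insert_self _ _))]

/-- factorisation of an element coprime to its conjugate, up to cubes -/
theorem split_eis {ι : Type*} [DecidableEq ι] (p e : ι → ℕ) (π : ι → Eis)
    (hp : ∀ i, (p i).Prime) (hπ : ∀ i, (π i).norm = p i) (hprim : ∀ i, Prim (π i))
    (he : ∀ i, e i ≠ 0) (J : Finset ι) :
    ∀ (η : Eis) (t : ℤ), Prim η → IsCoprime η (conj η) →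
    η.norm = (∏ j ∈ J, (p j : ℤ) ^ e j) * t ^ 3 →
    ∃ (ρ : ι → Eis) (γ : Eis), (∀ j, ρ j = π j ∨ ρ j = conj (π j)) ∧
      η = (∏ j ∈ J, ρ j ^ e j) * γ ^ 3 ∧ ¬ lam ∣ γ := by
  induction J using Finset.induction_on with
  | empty =>
    intro η t hη hcop h
    rw [prod_empty, one_mul] at h
    obtain ⟨γ, hγ, hγ3⟩ := extract (ρ := 1) prim_one (one_dvd _) hη hcop (t := t)
      (by rw [norm_one, one_mul, h])
    exact ⟨π, γ, fun j => Or.inl rfl, by rw [prod_empty]; exact hγ, hγ3⟩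
  | insert j J hj ih =>
    intro η t hη hcop h
    have : Fact (p j).Prime := ⟨hp j⟩
    rw [prod_insert hj, mul_assoc] at h
    have hpj : Prime (p j : ℤ) := Nat.prime_iff_prime_int.mp (hp j)
    have hpj0 : (p j : ℤ) ^ e j ≠ 0 := pow_ne_zero _ hpj.ne_zero
    have key : ∀ ρ0 : Eis, Prim ρ0 → ρ0.norm = p j → (ρ0 = π j ∨ ρ0 = conj (π j)) →
        ρ0 ^ e j ∣ η → ∃ (ρ : ι → Eis) (γ : Eis), (∀ j, ρ j = π j ∨ ρ j = conj (π j)) ∧
        η = (∏ j ∈ insert j J, ρ j ^ e j) * γ ^ 3 ∧ ¬ lam ∣ γ := by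
      intro ρ0 hρ0 hρn hρ hd
      obtain ⟨η', hη'⟩ := hd
      have hP : Prim η' := (hρ0.pow (e j)).of_mul (by rw [← hη']; exact hη)
      have hc : IsCoprime η' (conj η') := by
        have h2 : η' ∣ η := ⟨ρ0 ^ e j, by rw [hη']; ring⟩
        exact (hcop.of_isCoprime_of_dvd_left h2).of_isCoprime_of_dvd_right (conj_dvd h2)
      have hn : η'.norm = (∏ j ∈ J, (p j : ℤ) ^ e j) * t ^ 3 := by
        apply mul_left_cancel₀ hpj0
        rw [← h, hη', norm_mul, norm_pow, hρn]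
      obtain ⟨ρ, γ, h1, h2, h3⟩ := ih η' t hP hc hn
      refine ⟨Function.update ρ j ρ0, γ, ?_, ?_, h3⟩
      · intro k
        by_cases hk : k = j
        · subst hk; simpa using hρ
        · rw [Function.update_of_ne hk]; exact h1 k
      · rw [prod_insert hj, Function.update_self, hη', h2]
        have : ∏ k ∈ J, Function.update ρ j ρ0 k ^ e k = ∏ k ∈ J, ρ k ^ e k := by
          apply prod_congr rfl
          intro k hk
          rw [Function.update_of_ne (by rintro rfl; exact hj hk)]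
        rw [this]; ring
    rcases exists_rho (hπ j) (e j) (Nat.pos_of_ne_zero (he j)) hcop
      (by rw [h]; exact dvd_mul_right _ _) with h1 | h1
    · exact key (π j) (hprim j) (hπ j) (Or.inl rfl) h1
    · exact key (conj (π j)) (hprim j).conj (by rw [norm_conj]; exact hπ j) (Or.inr rfl) h1

end Eis

end Pool.Agent.Lib_helper18

end

section

/-!
# First descent for composite `A`: the matrix
-/

set_option linter.unusedSectionVars false

namespace Pool.Agent.Lib_helper18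

open Finset Eis

/-- primes `p i = 1 mod 3` with exponents `e i` and a primary prime above each of them -/
structure FData (ι : Type*) where
  p : ι → ℕ
  e : ι → ℕ
  π : ι → Eis
  hp : ∀ i, (p i).Prime
  h3 : ∀ i, p i % 3 = 1
  inj : Function.Injective p
  hπ : ∀ i, (π i).norm = p i
  hprim : ∀ i, (3 : ℤ) ∣ (π i).im
  he : ∀ i, e i = 1 ∨ e i = 2

namespace FData

variable {ι : Type*} [Fintype ι] [DecidableEq ι] (D : FData ι)

theorem pr (i : ι) : Prime (D.π i) :=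
  have : Fact (D.p i).Prime := ⟨D.hp i⟩
  prime_of_norm_eq (D.hπ i)

theorem n3 (i : ι) : ¬ D.π i ∣ 3 :=
  have : Fact (D.p i).Prime := ⟨D.hp i⟩
  not_dvd_three (D.hπ i) (D.h3 i)

theorem prim (i : ι) : Prim (D.π i) :=
  have : Fact (D.p i).Prime := ⟨D.hp i⟩
  ⟨D.hprim i, re_not_dvd (D.h3 i) (D.hπ i) (D.hprim i)⟩

theorem he0 (i : ι) : D.e i ≠ 0 := by rcases D.he i with h | h <;> rw [h] <;> norm_num

theorem e_sq (i : ι) : (D.e i : ZMod 3) * (D.e i : ZMod 3) = 1 := by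
  rcases D.he i with h | h <;> rw [h] <;> decide

theorem dvd_int (i : ι) {s : ℤ} : D.π i ∣ (s : Eis) ↔ (D.p i : ℤ) ∣ s :=
  have : Fact (D.p i).Prime := ⟨D.hp i⟩
  dvd_intCast_iff (D.hπ i)

theorem not_dvd_p {i j : ι} (h : j ≠ i) : ¬ D.π i ∣ (D.p j : Eis) := by
  have h1 := D.dvd_int i (s := D.p j)
  rw [Int.cast_natCast] at h1
  rw [h1, Int.natCast_dvd_natCast, Nat.prime_dvd_prime_iff_eq (D.hp i) (D.hp j)]
  intro h2
  exact h (D.inj h2).symm

theorem mul_conj_eq (j : ι) : D.π j * conj (D.π j) = (D.p j : Eis) :=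
  have : Fact (D.p j).Prime := ⟨D.hp j⟩
  mul_conj_p (D.hπ j)

theorem not_dvd_pi {i j : ι} (h : j ≠ i) : ¬ D.π i ∣ D.π j := fun h1 =>
  D.not_dvd_p h (by rw [← D.mul_conj_eq]; exact Dvd.dvd.mul_right h1 _)

theorem not_dvd_pi' (i j : ι) : ¬ D.π i ∣ conj (D.π j) := by
  by_cases h : j = i
  · subst h
    have : Fact (D.p j).Prime := ⟨D.hp j⟩
    exact not_dvd_conj (D.h3 j) (D.hπ j)
  · exact fun h1 => D.not_dvd_p h (by rw [← D.mul_conj_eq]; exact Dvd.dvd.mul_left h1 _)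

/-- weighted residue symbols off the diagonal -/
noncomputable def G (i j : ι) : ZMod 3 :=
  if j = i then 0 else (D.e j : ZMod 3) * sym (D.π i) (D.p j : Eis)

/-- the matrix of the first descent; `y i` is the symbol of the remaining factor of `A` -/
noncomputable def R (y : ι → ZMod 3) (i j : ι) : ZMod 3 :=
  if j = i then -((D.e i : ZMod 3) * (y i + ∑ k, D.G i k)) else sym (D.π i) (D.p j : Eis)

/-- the vector attached to a pair of disjoint sets -/
def vec (J1 J2 : Finset ι) (j : ι) : ZMod 3 :=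
  if j ∈ J1 then (D.e j : ZMod 3) else if j ∈ J2 then -(D.e j : ZMod 3) else 0

/-- sign attached to a pair of disjoint sets -/
def sg (J1 J2 : Finset ι) (j : ι) : ZMod 3 := if j ∈ J1 then 1 else if j ∈ J2 then -1 else 0

theorem row_sum (y : ι → ZMod 3) (F : ι → ι → ZMod 3) (g : ι → ι → ZMod 3)
    (hF : ∀ i j, F i j = if j = i then -((D.e i : ZMod 3) * (y i + ∑ k, D.G i k)) else g i j)
    {J1 J2 : Finset ι} (h12 : Disjoint J1 J2) (i : ι) :
    ∑ j, F i j * D.vec J1 J2 j = -(sg J1 J2 i * (y i + ∑ k, D.G i k)) +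
      (∑ j ∈ J1, if j = i then 0 else (D.e j : ZMod 3) * g i j) -
      ∑ j ∈ J2, if j = i then 0 else (D.e j : ZMod 3) * g i j := by
  have h1 : ∀ j, F i j * D.vec J1 J2 j =
      (if j = i then -(sg J1 J2 i * (y i + ∑ k, D.G i k)) else 0) +
      (if j ∈ J1 then (if j = i then 0 else (D.e j : ZMod 3) * g i j) else 0) -
      (if j ∈ J2 then (if j = i then 0 else (D.e j : ZMod 3) * g i j) else 0) := by
    intro j
    have he := D.e_sq j
    have hd : j ∈ J1 → j ∉ J2 := fun h => Finset.disjoint_left.mp h12 h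
    rw [hF, vec, sg]
    by_cases hji : j = i
    · subst hji
      by_cases hj1 : j ∈ J1
      · simp only [hj1, if_true, hd hj1, if_false]
        linear_combination (-(y j + ∑ k, D.G j k)) * he
      · by_cases hj2 : j ∈ J2
        · simp only [hj1, hj2, if_true, if_false]
          linear_combination (y j + ∑ k, D.G j k) * he
        · simp [hj1, hj2]
    · by_cases hj1 : j ∈ J1
      · simp only [hj1, if_true, hd hj1, if_false, hji]; ring
      · by_cases hj2 : j ∈ J2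
        · simp only [hj1, hj2, if_true, if_false, hji]; ring
        · simp [hj1, hj2, hji]
  rw [sum_congr rfl (fun j _ => h1 j), sum_sub_distrib, sum_add_distrib]
  simp

theorem sum_univ_split {J1 J2 J3 : Finset ι} (h12 : Disjoint J1 J2) (h13 : Disjoint J1 J3)
    (h23 : Disjoint J2 J3) (hU : J1 ∪ J2 ∪ J3 = univ) (f : ι → ZMod 3) :
    ∑ j, f j = ∑ j ∈ J1, f j + ∑ j ∈ J2, f j + ∑ j ∈ J3, f j := by
  rw [← hU, sum_union (disjoint_union_left.mpr ⟨h13, h23⟩), sum_union h12]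

/-- symbol of a product of prime powers times a further integer -/
theorem sym_intprod (i : ι) {J : Finset ι} (hi : i ∉ J) {u0 : ℤ} (hu0 : ¬ (D.p i : ℤ) ∣ u0) :
    ¬ D.π i ∣ (((∏ j ∈ J, (D.p j : ℤ) ^ D.e j) * u0 : ℤ) : Eis) ∧
    sym (D.π i) (((∏ j ∈ J, (D.p j : ℤ) ^ D.e j) * u0 : ℤ) : Eis) =
      (∑ j ∈ J, D.G i j) + sym (D.π i) (u0 : Eis) := by
  have h0 : ∀ j ∈ J, j ≠ i := fun j hj => by rintro rfl; exact hi hj
  obtain ⟨h1, h2⟩ := sym_prod_pow (D.pr i) (D.n3 i) (fun j => (D.p j : Eis)) D.e J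
    (fun j hj => D.not_dvd_p (h0 j hj))
  have h3 : ¬ D.π i ∣ (u0 : Eis) := by rwa [D.dvd_int]
  push_cast
  refine ⟨fun h => ((D.pr i).dvd_or_dvd h).elim h1 h3, ?_⟩
  rw [sym_mul (D.pr i) (D.n3 i) h1 h3, h2]
  congr 1
  apply sum_congr rfl
  intro j hj
  rw [G, if_neg (h0 j hj)]

/-- the rational side -/
theorem qside {J1 J2 J3 : Finset ι} (h12 : Disjoint J1 J2) (h13 : Disjoint J1 J3)
    (h23 : Disjoint J2 J3) (hU : J1 ∪ J2 ∪ J3 = univ) {u0 v0 t0 : ℤ} (y β1 β2 : ι → ZMod 3)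
    (hu0 : ∀ i, i ∉ J1 → ¬ (D.p i : ℤ) ∣ u0) (hv0 : ∀ i, i ∉ J2 → ¬ (D.p i : ℤ) ∣ v0)
    (ht0 : ∀ i, i ∉ J3 → ¬ (D.p i : ℤ) ∣ t0)
    (hy : ∀ i, i ∉ J3 → y i = β1 i + β2 i + sym (D.π i) (t0 : Eis))
    (h1 : ∀ i, i ∉ J1 → sym (D.π i) (u0 : Eis) = β1 i)
    (h2 : ∀ i, i ∉ J2 → sym (D.π i) (v0 : Eis) = β2 i)
    (h : (∏ j ∈ J1, (D.p j : ℤ) ^ D.e j) * u0 + (∏ j ∈ J2, (D.p j : ℤ) ^ D.e j) * v0 +
      (∏ j ∈ J3, (D.p j : ℤ) ^ D.e j) * t0 = 0) (i : ι) :
    ∑ j, D.R y i j * D.vec J1 J2 j = β2 i - β1 i := by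
  have hrow := D.row_sum y (D.R y) (fun i j => sym (D.π i) (D.p j : Eis)) (fun i j => rfl) h12 i
  have hGG : ∀ J : Finset ι, (∑ j ∈ J, if j = i then 0 else (D.e j : ZMod 3) *
      sym (D.π i) (D.p j : Eis)) = ∑ j ∈ J, D.G i j := fun J => rfl
  rw [hGG, hGG] at hrow
  rw [hrow, sum_univ_split h12 h13 h23 hU (D.G i)]
  have hdvd : ∀ (J : Finset ι) (x0 : ℤ), i ∈ J →
      D.π i ∣ (((∏ j ∈ J, (D.p j : ℤ) ^ D.e j) * x0 : ℤ) : Eis) := by
    intro J x0 hi
    rw [D.dvd_int]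
    apply Dvd.dvd.mul_right
    exact (dvd_pow_self _ (D.he0 i)).trans (dvd_prod_of_mem _ hi)
  set u : ℤ := (∏ j ∈ J1, (D.p j : ℤ) ^ D.e j) * u0 with hu
  set v : ℤ := (∏ j ∈ J2, (D.p j : ℤ) ^ D.e j) * v0 with hv
  set t : ℤ := (∏ j ∈ J3, (D.p j : ℤ) ^ D.e j) * t0 with ht
  have hsum : (u : Eis) + (v : Eis) + (t : Eis) = 0 := by
    have := congrArg (Int.cast : ℤ → Eis) h
    push_cast at this
    exact this
  have h3 : (3 : ZMod 3) = 0 := by decide
  have hiU : i ∈ J1 ∪ J2 ∪ J3 := by rw [hU]; exact mem_univ i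
  rw [mem_union, mem_union] at hiU
  rcases hiU with (hi | hi) | hi
  · -- i in J1
    have n2 : i ∉ J2 := Finset.disjoint_left.mp h12 hi
    have n3 : i ∉ J3 := Finset.disjoint_left.mp h13 hi
    obtain ⟨a1, a2⟩ := D.sym_intprod i n2 (hv0 i n2)
    obtain ⟨b1, b2⟩ := D.sym_intprod i n3 (ht0 i n3)
    rw [← hv] at a1 a2
    rw [← ht] at b1 b2
    have c : sym (D.π i) (v : Eis) = sym (D.π i) (t : Eis) := by
      rw [← sym_neg (D.pr i) (D.n3 i) b1]
      apply sym_congr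
      have : (v : Eis) - -(t : Eis) = -(u : Eis) := by linear_combination hsum
      rw [this, dvd_neg]
      exact hdvd J1 u0 hi
    rw [a2, b2, h2 i n2] at c
    rw [sg, if_pos hi, hy i n3]
    linear_combination c - (∑ j ∈ J2, D.G i j + β2 i) * h3
  · have n1 : i ∉ J1 := Finset.disjoint_right.mp h12 hi
    have n3 : i ∉ J3 := Finset.disjoint_left.mp h23 hi
    obtain ⟨a1, a2⟩ := D.sym_intprod i n1 (hu0 i n1)
    obtain ⟨b1, b2⟩ := D.sym_intprod i n3 (ht0 i n3)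
    rw [← hu] at a1 a2
    rw [← ht] at b1 b2
    have c : sym (D.π i) (u : Eis) = sym (D.π i) (t : Eis) := by
      rw [← sym_neg (D.pr i) (D.n3 i) b1]
      apply sym_congr
      have : (u : Eis) - -(t : Eis) = -(v : Eis) := by linear_combination hsum
      rw [this, dvd_neg]
      exact hdvd J2 v0 hi
    rw [a2, b2, h1 i n1] at c
    rw [sg, if_neg n1, if_pos hi, hy i n3]
    linear_combination -c + (∑ j ∈ J1, D.G i j + β1 i) * h3
  · have n1 : i ∉ J1 := Finset.disjoint_right.mp h13 hi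
    have n2 : i ∉ J2 := Finset.disjoint_right.mp h23 hi
    obtain ⟨a1, a2⟩ := D.sym_intprod i n1 (hu0 i n1)
    obtain ⟨b1, b2⟩ := D.sym_intprod i n2 (hv0 i n2)
    rw [← hu] at a1 a2
    rw [← hv] at b1 b2
    have c : sym (D.π i) (u : Eis) = sym (D.π i) (v : Eis) := by
      rw [← sym_neg (D.pr i) (D.n3 i) b1]
      apply sym_congr
      have : (u : Eis) - -(v : Eis) = -(t : Eis) := by linear_combination hsum
      rw [this, dvd_neg]
      exact hdvd J3 t0 hi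
    rw [a2, b2, h1 i n1, h2 i n2] at c
    rw [sg, if_neg n1, if_neg n2]
    linear_combination c

end FData

end Pool.Agent.Lib_helper18

end

section

set_option linter.unusedSectionVars false

/-!
# First descent for composite `A`: the side of `Z[ω]`
-/

namespace Pool.Agent.Lib_helper18

open Finset Eis

namespace FData

variable {ι : Type*} [Fintype ι] [DecidableEq ι] (D : FData ι)

/-- the transpose of `R` in terms of the primes of `Z[ω]` -/
theorem R_transpose (y : ι → ZMod 3) (i j : ι) : D.R y j i =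
    if j = i then -((D.e i : ZMod 3) * (y i + ∑ k, D.G i k)) else
      sym (D.π i) (D.π j) - sym (D.π i) (conj (D.π j)) := by
  rw [R]
  by_cases h : i = j
  · subst h; simp
  · have h' : j ≠ i := fun h2 => h h2.symm
    rw [if_neg h, if_neg h']
    have : Fact (D.p j).Prime := ⟨D.hp j⟩
    have hG := lemmaG (D.h3 j) (D.hπ j) (D.hprim j) (D.pr i) (D.n3 i) (D.not_dvd_p h')
    rw [hG]
    have hN : N (D.π i) = D.p i := by
      have := N_cast (D.π i)
      rw [D.hπ i] at this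
      exact_mod_cast this
    rw [hN]

theorem sym_self_conj (i : ι) : sym (D.π i) (conj (D.π i)) = 0 := by
  have : Fact (D.p i).Prime := ⟨D.hp i⟩
  exact sym_conj_self (D.h3 i) (D.hπ i) (D.hprim i)

/-- The equations on the side of `Z[ω]`. -/
theorem kside {J : Finset ι} {ρ : ι → Eis} (hρ : ∀ j, ρ j = D.π j ∨ ρ j = conj (D.π j))
    {η γ : Eis} (hη : η = (∏ j ∈ J, ρ j ^ D.e j) * γ ^ 3) (hcop : IsCoprime η (conj η))
    {S0 : ℤ} (hS0 : ∀ i ∈ J, ¬ (D.p i : ℤ) ∣ S0) (y θ : ι → ZMod 3)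
    (hy : ∀ i ∈ J, sym (D.π i) (S0 : Eis) = y i)
    {α β κ : Eis} (hα : ∀ i, ¬ D.π i ∣ α) (hβ : ∀ i, ¬ D.π i ∣ β) (hκ : ∀ i, ¬ D.π i ∣ κ)
    (hα' : ∀ i, sym (D.π i) α = θ i) (hβ' : ∀ i, sym (D.π i) β = -θ i)
    (hκ' : ∀ i, sym (D.π i) κ = 0)
    (hrel : α * η + β * conj η = κ * (((∏ j ∈ univ \ J, (D.p j : ℤ) ^ D.e j) * S0 : ℤ) : Eis))
    (i : ι) :
    ∑ j, D.R y j i * D.vec (J.filter (fun j => ρ j = D.π j))
      (J.filter (fun j => ρ j ≠ D.π j)) j = θ i := by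
  set J1 := J.filter (fun j => ρ j = D.π j) with hJ1
  set J2 := J.filter (fun j => ρ j ≠ D.π j) with hJ2
  have h12 : Disjoint J1 J2 := disjoint_filter_filter_not _ _ _
  have hJ : J1 ∪ J2 = J := filter_union_filter_not_eq _ _
  have h13 : Disjoint J1 (univ \ J) := by
    rw [Finset.disjoint_left]; intro k hk; simp [(mem_filter.mp hk).1]
  have h23 : Disjoint J2 (univ \ J) := by
    rw [Finset.disjoint_left]; intro k hk; simp [(mem_filter.mp hk).1]
  have hU : J1 ∪ J2 ∪ (univ \ J) = univ := by rw [hJ]; simp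
  have hrow := D.row_sum y (fun i j => D.R y j i)
    (fun i j => sym (D.π i) (D.π j) - sym (D.π i) (conj (D.π j)))
    (fun i j => D.R_transpose y i j) h12 i
  -- the symbols
  set X : ι → ZMod 3 := fun j => if j = i then 0 else (D.e j : ZMod 3) * sym (D.π i) (D.π j)
    with hX
  set X' : ι → ZMod 3 := fun j => if j = i then 0 else
    (D.e j : ZMod 3) * sym (D.π i) (conj (D.π j)) with hX'
  have hdiff : ∀ K : Finset ι, (∑ j ∈ K, if j = i then 0 else (D.e j : ZMod 3) *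
      (sym (D.π i) (D.π j) - sym (D.π i) (conj (D.π j)))) = ∑ j ∈ K, X j - ∑ j ∈ K, X' j := by
    intro K
    rw [← sum_sub_distrib]
    apply sum_congr rfl
    intro j _
    simp only [hX, hX']
    split_ifs <;> ring
  have hG : ∀ j, D.G i j = X j + X' j := by
    intro j
    simp only [G, hX, hX']
    by_cases hji : j = i
    · simp [hji]
    · simp only [hji, if_false]
      rw [← D.mul_conj_eq j, sym_mul (D.pr i) (D.n3 i) (D.not_dvd_pi hji) (D.not_dvd_pi' i j)]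
      ring
  have hGs : ∀ K : Finset ι, ∑ j ∈ K, D.G i j = ∑ j ∈ K, X j + ∑ j ∈ K, X' j := by
    intro K
    rw [← sum_add_distrib]
    exact sum_congr rfl (fun j _ => hG j)
  rw [hdiff, hdiff] at hrow
  have hGU := sum_univ_split h12 h13 h23 hU (D.G i)
  rw [hGs J1, hGs J2, hGs (univ \ J)] at hGU
  rw [hGU] at hrow
  -- factorisations
  have hηP : η = (∏ j ∈ J1, D.π j ^ D.e j) * (∏ j ∈ J2, conj (D.π j) ^ D.e j) * γ ^ 3 := by
    rw [hη, ← hJ, prod_union h12]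
    congr 2
    · apply prod_congr rfl
      intro j hj
      rw [(mem_filter.mp hj).2]
    · apply prod_congr rfl
      intro j hj
      rw [(hρ j).resolve_left (mem_filter.mp hj).2]
  have hηP' : conj η = (∏ j ∈ J1, conj (D.π j) ^ D.e j) * (∏ j ∈ J2, D.π j ^ D.e j) *
      (conj γ) ^ 3 := by
    rw [hηP]
    simp only [map_mul, map_prod, map_pow, conj_conj]
  -- general computation of the symbol of an element of this shape
  have hshape : ∀ (K1 K2 : Finset ι) (ξ g : Eis), i ∉ K1 → ¬ D.π i ∣ g →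
      ξ = (∏ j ∈ K1, D.π j ^ D.e j) * (∏ j ∈ K2, conj (D.π j) ^ D.e j) * g ^ 3 →
      ¬ D.π i ∣ ξ ∧ sym (D.π i) ξ = ∑ j ∈ K1, X j + ∑ j ∈ K2, X' j := by
    intro K1 K2 ξ g hi hg hξ
    have h0 : ∀ j ∈ K1, j ≠ i := fun j hj => by rintro rfl; exact hi hj
    obtain ⟨a1, a2⟩ := sym_prod_pow (D.pr i) (D.n3 i) D.π D.e K1
      (fun j hj => D.not_dvd_pi (h0 j hj))
    obtain ⟨b1, b2⟩ := sym_prod_pow (D.pr i) (D.n3 i) (fun j => conj (D.π j)) D.e K2
      (fun j _ => D.not_dvd_pi' i j)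
    have c1 : ¬ D.π i ∣ g ^ 3 := fun h => hg ((D.pr i).dvd_of_dvd_pow h)
    have d1 : ¬ D.π i ∣ (∏ j ∈ K1, D.π j ^ D.e j) * (∏ j ∈ K2, conj (D.π j) ^ D.e j) :=
      fun h => ((D.pr i).dvd_or_dvd h).elim a1 b1
    refine ⟨by rw [hξ]; exact fun h => ((D.pr i).dvd_or_dvd h).elim d1 c1, ?_⟩
    rw [hξ, sym_mul (D.pr i) (D.n3 i) d1 c1, sym_cube (D.pr i) (D.n3 i) hg,
      sym_mul (D.pr i) (D.n3 i) a1 b1, a2, b2, add_zero]
    congr 1
    · apply sum_congr rfl
      intro j hj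
      simp only [hX, if_neg (h0 j hj)]
    · apply sum_congr rfl
      intro j _
      simp only [hX']
      by_cases hji : j = i
      · subst hji; rw [if_pos rfl, D.sym_self_conj, mul_zero]
      · rw [if_neg hji]
  have hcopp : ¬ (D.π i ∣ η ∧ D.π i ∣ conj η) := by
    rintro ⟨h1, h2⟩
    exact (D.pr i).not_isUnit (hcop.isUnit_of_dvd' h1 h2)
  set S : Eis := (((∏ j ∈ univ \ J, (D.p j : ℤ) ^ D.e j) * S0 : ℤ) : Eis) with hS
  have h3 : (3 : ZMod 3) = 0 := by decide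
  have hiU : i ∈ J1 ∪ J2 ∪ (univ \ J) := by rw [hU]; exact mem_univ i
  rw [mem_union, mem_union] at hiU
  rcases hiU with (hi | hi) | hi
  · -- `π i` divides `η`
    have n2 : i ∉ J2 := Finset.disjoint_left.mp h12 hi
    have n3 : i ∉ univ \ J := Finset.disjoint_left.mp h13 hi
    have hd : D.π i ∣ η := by
      rw [hηP]
      apply Dvd.dvd.mul_right
      apply Dvd.dvd.mul_right
      exact (dvd_pow_self _ (D.he0 i)).trans (dvd_prod_of_mem _ hi)
    have hnd : ¬ D.π i ∣ conj η := fun h => hcopp ⟨hd, h⟩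
    have hg : ¬ D.π i ∣ conj γ := by
      intro h
      apply hnd
      rw [hηP']
      exact Dvd.dvd.mul_left (Dvd.dvd.pow h (by norm_num)) _
    obtain ⟨a1, a2⟩ := hshape J2 J1 (conj η) (conj γ) n2 hg (by rw [hηP']; ring)
    have hiJ : i ∈ J := (mem_filter.mp hi).1
    obtain ⟨b1, b2⟩ := D.sym_intprod i n3 (hS0 i hiJ)
    rw [← hS] at b1 b2
    rw [hy i hiJ, hGs] at b2
    have c : sym (D.π i) (β * conj η) = sym (D.π i) (κ * S) := by
      apply sym_congr
      have : β * conj η - κ * S = -(α * η) := by linear_combination hrel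
      rw [this, dvd_neg]
      exact Dvd.dvd.mul_left hd _
    rw [sym_mul (D.pr i) (D.n3 i) (hβ i) a1, sym_mul (D.pr i) (D.n3 i) (hκ i) b1, hβ' i,
      hκ' i, a2, b2] at c
    rw [hrow, sg, if_pos hi]
    linear_combination c - (∑ j ∈ J1, X' j + ∑ j ∈ J2, X j) * h3
  · have n1 : i ∉ J1 := Finset.disjoint_right.mp h12 hi
    have n3 : i ∉ univ \ J := Finset.disjoint_left.mp h23 hi
    have hd : D.π i ∣ conj η := by
      rw [hηP']
      apply Dvd.dvd.mul_right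
      apply Dvd.dvd.mul_left
      exact (dvd_pow_self _ (D.he0 i)).trans (dvd_prod_of_mem _ hi)
    have hnd : ¬ D.π i ∣ η := fun h => hcopp ⟨h, hd⟩
    have hg : ¬ D.π i ∣ γ := by
      intro h
      apply hnd
      rw [hηP]
      exact Dvd.dvd.mul_left (Dvd.dvd.pow h (by norm_num)) _
    obtain ⟨a1, a2⟩ := hshape J1 J2 η γ n1 hg hηP
    have hiJ : i ∈ J := (mem_filter.mp hi).1
    obtain ⟨b1, b2⟩ := D.sym_intprod i n3 (hS0 i hiJ)
    rw [← hS] at b1 b2
    rw [hy i hiJ, hGs] at b2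
    have c : sym (D.π i) (α * η) = sym (D.π i) (κ * S) := by
      apply sym_congr
      have : α * η - κ * S = -(β * conj η) := by linear_combination hrel
      rw [this, dvd_neg]
      exact Dvd.dvd.mul_left hd _
    rw [sym_mul (D.pr i) (D.n3 i) (hα i) a1, sym_mul (D.pr i) (D.n3 i) (hκ i) b1, hα' i,
      hκ' i, a2, b2] at c
    rw [hrow, sg, if_neg n1, if_pos hi]
    linear_combination -c + (∑ j ∈ J1, X j + ∑ j ∈ J2, X' j) * h3
  · have n1 : i ∉ J1 := Finset.disjoint_right.mp h13 hi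
    have n2 : i ∉ J2 := Finset.disjoint_right.mp h23 hi
    have hdS : D.π i ∣ S := by
      rw [hS, D.dvd_int]
      apply Dvd.dvd.mul_right
      exact (dvd_pow_self _ (D.he0 i)).trans (dvd_prod_of_mem _ hi)
    have hdr : D.π i ∣ α * η + β * conj η := by rw [hrel]; exact Dvd.dvd.mul_left hdS _
    have hnd : ¬ D.π i ∣ η := by
      intro h
      apply hcopp
      refine ⟨h, ?_⟩
      have h1 : D.π i ∣ β * conj η := by
        have := dvd_sub hdr (Dvd.dvd.mul_left h α)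
        simpa using this
      exact ((D.pr i).dvd_or_dvd h1).resolve_left (hβ i)
    have hnd' : ¬ D.π i ∣ conj η := by
      intro h
      apply hcopp
      refine ⟨?_, h⟩
      have h1 : D.π i ∣ α * η := by
        have := dvd_sub hdr (Dvd.dvd.mul_left h β)
        simpa using this
      exact ((D.pr i).dvd_or_dvd h1).resolve_left (hα i)
    have hg : ¬ D.π i ∣ γ := by
      intro h
      apply hnd
      rw [hηP]
      exact Dvd.dvd.mul_left (Dvd.dvd.pow h (by norm_num)) _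
    have hg' : ¬ D.π i ∣ conj γ := by
      intro h
      apply hnd'
      rw [hηP']
      exact Dvd.dvd.mul_left (Dvd.dvd.pow h (by norm_num)) _
    obtain ⟨a1, a2⟩ := hshape J1 J2 η γ n1 hg hηP
    obtain ⟨b1, b2⟩ := hshape J2 J1 (conj η) (conj γ) n2 hg' (by rw [hηP']; ring)
    have hne : ¬ D.π i ∣ β * conj η := fun h => ((D.pr i).dvd_or_dvd h).elim (hβ i) b1
    have c : sym (D.π i) (α * η) = sym (D.π i) (β * conj η) := by
      rw [← sym_neg (D.pr i) (D.n3 i) hne]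
      apply sym_congr
      rw [sub_neg_eq_add]; exact hdr
    rw [sym_mul (D.pr i) (D.n3 i) (hα i) a1, sym_mul (D.pr i) (D.n3 i) (hβ i) b1, hα' i,
      hβ' i, a2, b2] at c
    rw [hrow, sg, if_neg n1, if_neg n2]
    linear_combination c - θ i * h3

end FData

end Pool.Agent.Lib_helper18

end

section

set_option linter.unusedSectionVars false

/-!
# First descent for `A = B * ∏ p_i ^ e_i`, `B` a power of a prime `q = 2 mod 3`
-/

namespace Pool.Agent.Lib_helper18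

open Finset Eis

namespace FData

variable {ι : Type*} [Fintype ι] [DecidableEq ι] (D : FData ι)

/-- the product of the prime powers over a set of indices -/
def P (S : Finset ι) : ℤ := ∏ j ∈ S, (D.p j : ℤ) ^ D.e j

theorem dvd_P {i : ι} {S : Finset ι} (hi : i ∈ S) : (D.p i : ℤ) ∣ D.P S :=
  (dvd_pow_self _ (D.he0 i)).trans (dvd_prod_of_mem _ hi)

theorem prime_int (i : ι) : Prime (D.p i : ℤ) := Nat.prime_iff_prime_int.mp (D.hp i)

theorem vec_eq_zero {J1 J2 : Finset ι} (h12 : Disjoint J1 J2)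
    (h : ∀ j, D.vec J1 J2 j = 0) : J1 = ∅ ∧ J2 = ∅ := by
  have he : ∀ j, (D.e j : ZMod 3) ≠ 0 := by
    intro j h0
    have := D.e_sq j
    rw [h0, mul_zero] at this
    exact absurd this (by decide)
  constructor
  · rw [eq_empty_iff_forall_notMem]
    intro j hj
    have := h j
    rw [vec, if_pos hj] at this
    exact he j this
  · rw [eq_empty_iff_forall_notMem]
    intro j hj
    have := h j
    rw [vec, if_neg (Finset.disjoint_right.mp h12 hj), if_pos hj, neg_eq_zero] at this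
    exact he j this

theorem three_split {u v t s : ℤ} (huv : IsCoprime u v) (hut : IsCoprime u t)
    (hvt : IsCoprime v t) (h : u * v * t = D.P univ * s ^ 3) :
    ∃ J1 J2 J3 : Finset ι, Disjoint J1 J2 ∧ Disjoint J1 J3 ∧ Disjoint J2 J3 ∧
      J1 ∪ J2 ∪ J3 = univ ∧ ∃ a b c : ℤ, u = D.P J1 * a ^ 3 ∧ v = D.P J2 * b ^ 3 ∧
      t = D.P J3 * c ^ 3 ∧ s = a * b * c := by
  obtain ⟨J1, -, a, b', h1, h2, h3⟩ := split_two D.p D.e D.hp D.he0 univ u (v * t) s
    (huv.mul_right hut) (by rw [← mul_assoc]; exact h)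
  obtain ⟨J2, hJ2, b, c, h4, h5, h6⟩ := split_two D.p D.e D.hp D.he0 (univ \ J1) v t b' hvt h2
  refine ⟨J1, J2, (univ \ J1) \ J2, ?_, ?_, ?_, ?_, a, b, c, h1, h4, h5, ?_⟩
  · rw [Finset.disjoint_left]
    intro i hi hi2
    have := hJ2 hi2
    simp [hi] at this
  · rw [Finset.disjoint_left]
    intro i hi hi2
    simp [hi] at hi2
  · exact disjoint_sdiff
  · ext i
    simp only [mem_union, mem_sdiff, mem_univ, true_and, iff_true]
    tauto
  · rw [h3, h6]; ring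

theorem mulVec_zero {M : Matrix ι ι (ZMod 3)} (hM : M.det ≠ 0) {v : ι → ZMod 3}
    (h : ∀ i, ∑ j, M i j * v j = 0) : ∀ j, v j = 0 := by
  have h1 : M.mulVec v = 0 := by
    ext i
    simp only [Matrix.mulVec, dotProduct, Pi.zero_apply]
    exact h i
  have := Matrix.eq_zero_of_mulVec_eq_zero hM h1
  intro j
  rw [this]; rfl

section one

variable {q f : ℕ} (y : ι → ZMod 3)

/-- the rational side, `q` dividing the third term -/
theorem qstep (hq : q.Prime) (hqp : ∀ i, D.p i ≠ q)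
    (hy : ∀ i, sym (D.π i) (((q : ℤ) ^ f : ℤ) : Eis) = y i)
    (hR : (Matrix.of (D.R y)).det ≠ 0) {u v t s : ℤ} (huv : IsCoprime u v)
    (hut : IsCoprime u t) (hvt : IsCoprime v t) (hsum : u + v + t = 0)
    (hprod : u * v * t = ((q : ℤ) ^ f * D.P univ) * s ^ 3) (hqt : (q : ℤ) ∣ t) :
    ∃ a b c : ℤ, a ^ 3 + b ^ 3 = ((q : ℤ) ^ f * D.P univ) * c ^ 3 ∧
      s.natAbs = a.natAbs * b.natAbs * c.natAbs := by
  have hqi : Prime (q : ℤ) := Nat.prime_iff_prime_int.mp hq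
  have hq0 : (q : ℤ) ^ f ≠ 0 := pow_ne_zero _ hqi.ne_zero
  have h1 : ¬ (q : ℤ) ∣ u * v := by
    intro h
    rcases hqi.dvd_or_dvd h with h | h
    · exact hqi.not_isUnit (hut.isUnit_of_dvd' h hqt)
    · exact hqi.not_isUnit (hvt.isUnit_of_dvd' h hqt)
  have h2 : (q : ℤ) ^ f ∣ t := by
    apply hqi.pow_dvd_of_dvd_mul_left f h1
    rw [hprod, mul_assoc]; exact dvd_mul_right _ _
  obtain ⟨t1, ht1⟩ := h2
  have ht1d : t1 ∣ t := ⟨(q : ℤ) ^ f, by rw [ht1]; ring⟩
  obtain ⟨J1, J2, J3, h12, h13, h23, hU, a, b, c, ha, hb, hc, hs⟩ := D.three_split huv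
    (hut.of_isCoprime_of_dvd_right ht1d) (hvt.of_isCoprime_of_dvd_right ht1d) (s := s) (by
      apply mul_left_cancel₀ hq0
      rw [ht1] at hprod
      linear_combination hprod)
  have hpq : ∀ i, ¬ (D.p i : ℤ) ∣ (q : ℤ) ^ f := by
    intro i h
    have := (D.prime_int i).dvd_of_dvd_pow h
    rw [Int.natCast_dvd_natCast, Nat.prime_dvd_prime_iff_eq (D.hp i) hq] at this
    exact hqp i this
  have hmem : ∀ i, i ∈ J1 ∨ i ∈ J2 ∨ i ∈ J3 := by
    intro i
    have : i ∈ J1 ∪ J2 ∪ J3 := by rw [hU]; exact mem_univ i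
    simp only [mem_union] at this
    tauto
  have hdu : ∀ i ∈ J1, (D.p i : ℤ) ∣ u := fun i hi => by
    rw [ha]; exact Dvd.dvd.mul_right (D.dvd_P hi) _
  have hdv : ∀ i ∈ J2, (D.p i : ℤ) ∣ v := fun i hi => by
    rw [hb]; exact Dvd.dvd.mul_right (D.dvd_P hi) _
  have hdt : ∀ i ∈ J3, (D.p i : ℤ) ∣ t := fun i hi => by
    rw [ht1, hc]; exact Dvd.dvd.mul_left (Dvd.dvd.mul_right (D.dvd_P hi) _) _
  have hna : ∀ i, i ∉ J1 → ¬ (D.p i : ℤ) ∣ a := by
    intro i hi h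
    have h5 : (D.p i : ℤ) ∣ u := by rw [ha]; exact Dvd.dvd.mul_left (Dvd.dvd.pow h (by norm_num)) _
    rcases hmem i with h6 | h6 | h6
    · exact hi h6
    · exact (D.prime_int i).not_isUnit (huv.isUnit_of_dvd' h5 (hdv i h6))
    · exact (D.prime_int i).not_isUnit (hut.isUnit_of_dvd' h5 (hdt i h6))
  have hnb : ∀ i, i ∉ J2 → ¬ (D.p i : ℤ) ∣ b := by
    intro i hi h
    have h5 : (D.p i : ℤ) ∣ v := by rw [hb]; exact Dvd.dvd.mul_left (Dvd.dvd.pow h (by norm_num)) _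
    rcases hmem i with h6 | h6 | h6
    · exact (D.prime_int i).not_isUnit (huv.isUnit_of_dvd' (hdu i h6) h5)
    · exact hi h6
    · exact (D.prime_int i).not_isUnit (hvt.isUnit_of_dvd' h5 (hdt i h6))
  have hnc : ∀ i, i ∉ J3 → ¬ (D.p i : ℤ) ∣ c := by
    intro i hi h
    have h5 : (D.p i : ℤ) ∣ t := by
      rw [ht1, hc]; exact Dvd.dvd.mul_left (Dvd.dvd.mul_left (Dvd.dvd.pow h (by norm_num)) _) _
    rcases hmem i with h6 | h6 | h6
    · exact (D.prime_int i).not_isUnit (hut.isUnit_of_dvd' (hdu i h6) h5)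
    · exact (D.prime_int i).not_isUnit (hvt.isUnit_of_dvd' (hdv i h6) h5)
    · exact hi h6
  have hn3 : ∀ i (x : ℤ), ¬ (D.p i : ℤ) ∣ x → ¬ (D.p i : ℤ) ∣ x ^ 3 :=
    fun i x h h' => h ((D.prime_int i).dvd_of_dvd_pow h')
  have hs3 : ∀ i (x : ℤ), ¬ (D.p i : ℤ) ∣ x → sym (D.π i) ((x ^ 3 : ℤ) : Eis) = 0 := by
    intro i x hx
    rw [Int.cast_pow]
    exact sym_cube (D.pr i) (D.n3 i) (by rwa [D.dvd_int])
  have hres := D.qside h12 h13 h23 hU (u0 := a ^ 3) (v0 := b ^ 3) (t0 := (q : ℤ) ^ f * c ^ 3)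
    y (fun _ => 0) (fun _ => 0) (fun i hi => hn3 i a (hna i hi))
    (fun i hi => hn3 i b (hnb i hi))
    (fun i hi h => ((D.prime_int i).dvd_or_dvd h).elim (hpq i) (hn3 i c (hnc i hi)))
    (fun i hi => by
      rw [zero_add, zero_add, Int.cast_mul, sym_mul (D.pr i) (D.n3 i)
        (by rw [D.dvd_int]; exact hpq i) (by rw [D.dvd_int]; exact hn3 i c (hnc i hi)),
        hs3 i c (hnc i hi), add_zero, hy i])
    (fun i hi => hs3 i a (hna i hi)) (fun i hi => hs3 i b (hnb i hi)) (by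
      rw [ha, hb, ht1, hc] at hsum
      rw [P, P, P] at hsum
      linear_combination hsum)
  have hv0 := mulVec_zero hR (v := D.vec J1 J2) (fun i => by
    have := hres i
    rw [sub_zero] at this
    exact this)
  obtain ⟨e1, e2⟩ := D.vec_eq_zero h12 hv0
  subst e1 e2
  have e3 : J3 = univ := by simpa using hU
  subst e3
  have e0 : D.P ∅ = 1 := by rw [P, prod_empty]
  rw [e0, one_mul] at ha hb
  refine ⟨a, b, -c, ?_, ?_⟩
  · rw [ha, hb, ht1, hc] at hsum
    linear_combination hsum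
  · rw [hs, Int.natAbs_mul, Int.natAbs_mul, Int.natAbs_neg]

/-- the rational side -/
theorem qstep' (hq : q.Prime) (hqp : ∀ i, D.p i ≠ q) (hf : f ≠ 0)
    (hy : ∀ i, sym (D.π i) (((q : ℤ) ^ f : ℤ) : Eis) = y i)
    (hR : (Matrix.of (D.R y)).det ≠ 0) {u v t s : ℤ} (huv : IsCoprime u v)
    (hut : IsCoprime u t) (hvt : IsCoprime v t) (hsum : u + v + t = 0)
    (hprod : u * v * t = ((q : ℤ) ^ f * D.P univ) * s ^ 3) :
    ∃ a b c : ℤ, a ^ 3 + b ^ 3 = ((q : ℤ) ^ f * D.P univ) * c ^ 3 ∧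
      s.natAbs = a.natAbs * b.natAbs * c.natAbs := by
  have hqi : Prime (q : ℤ) := Nat.prime_iff_prime_int.mp hq
  have h1 : (q : ℤ) ∣ u * v * t := by
    rw [hprod, mul_assoc]
    exact Dvd.dvd.mul_right (dvd_pow_self _ hf) _
  rcases hqi.dvd_or_dvd h1 with h2 | h2
  · rcases hqi.dvd_or_dvd h2 with h3 | h3
    · exact D.qstep y hq hqp hy hR hvt huv.symm hut.symm (by linarith)
        (by rw [← hprod]; ring) h3
    · exact D.qstep y hq hqp hy hR hut huv hvt.symm (by linarith)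
        (by rw [← hprod]; ring) h3
  · exact D.qstep y hq hqp hy hR huv hut hvt hsum hprod h2

end one

end FData

end Pool.Agent.Lib_helper18

end

section

set_option linter.unusedSectionVars false

/-!
# First descent with an inert prime in the matrix and a condition at `3`
-/

namespace Pool.Agent.Lib_helper18

open Finset Eis Matrix

/-- the class modulo 9, up to sign -/
def wq (n : ℤ) : ZMod 3 :=
  if n % 9 = 1 ∨ n % 9 = 8 then 0 else if n % 9 = 4 ∨ n % 9 = 5 then 1 else 2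

theorem wq_mul {m n : ℤ} (hm : ¬ (3 : ℤ) ∣ m) (hn : ¬ (3 : ℤ) ∣ n) :
    wq (m * n) = wq m + wq n := by
  have h1 : m % 9 = 1 ∨ m % 9 = 2 ∨ m % 9 = 4 ∨ m % 9 = 5 ∨ m % 9 = 7 ∨ m % 9 = 8 := by omega
  have h2 : n % 9 = 1 ∨ n % 9 = 2 ∨ n % 9 = 4 ∨ n % 9 = 5 ∨ n % 9 = 7 ∨ n % 9 = 8 := by omega
  unfold wq
  rw [Int.mul_emod]
  rcases h1 with h | h | h | h | h | h <;> rcases h2 with h' | h' | h' | h' | h' | h' <;>
    rw [h, h'] <;> decide

theorem wq_one : wq 1 = 0 := by decide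

theorem wq_pow {m : ℤ} (hm : ¬ (3 : ℤ) ∣ m) (k : ℕ) : wq (m ^ k) = (k : ZMod 3) * wq m := by
  induction k with
  | zero => simp [wq_one]
  | succ k ih =>
    rw [pow_succ, wq_mul (fun h => hm (Int.prime_three.dvd_of_dvd_pow h)) hm, ih]
    push_cast; ring

theorem wq_cube {m : ℤ} (hm : ¬ (3 : ℤ) ∣ m) : wq (m ^ 3) = 0 := by
  rw [wq_pow hm]
  have : ((3 : ℕ) : ZMod 3) = 0 := by decide
  rw [this, zero_mul]

theorem wq_of_add {u v : ℤ} (h : (9 : ℤ) ∣ u + v) : wq u = wq v := by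
  unfold wq
  have h1 : u % 9 = 0 ∧ v % 9 = 0 ∨ u % 9 + v % 9 = 9 := by omega
  rcases h1 with ⟨h1, h2⟩ | h1
  · rw [h1, h2]
  · have h2 : v % 9 = 9 - u % 9 := by omega
    rw [h2]
    have h3 : 0 ≤ u % 9 := by omega
    have h4 : u % 9 < 9 := by omega
    generalize u % 9 = a at *
    interval_cases a <;> simp

theorem wq_eq_wt {n : ℤ} (h : n % 3 = 1) : wq n = wt n := by
  have h1 : n % 9 = 1 ∨ n % 9 = 4 ∨ n % 9 = 7 := by omega
  rcases h1 with h1 | h1 | h1
  · obtain ⟨k, hk⟩ : ∃ k, n = 1 + 3 * (3 * k) := ⟨n / 9, by omega⟩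
    rw [wt_eq hk, wq, h1]
    push_cast
    have h3 : (3 : ZMod 3) = 0 := by decide
    rw [h3]; simp
  · obtain ⟨k, hk⟩ : ∃ k, n = 1 + 3 * (1 + 3 * k) := ⟨n / 9, by omega⟩
    rw [wt_eq hk, wq, h1]
    push_cast
    have h3 : (3 : ZMod 3) = 0 := by decide
    rw [h3]; simp
  · obtain ⟨k, hk⟩ : ∃ k, n = 1 + 3 * (2 + 3 * k) := ⟨n / 9, by omega⟩
    rw [wt_eq hk, wq, h1]
    push_cast
    have h3 : (3 : ZMod 3) = 0 := by decide
    rw [h3]; simp

/-- the weight of the norm of an inert prime -/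
theorem wt_sq {r : ℤ} (h : r % 3 = 2) : wt (r ^ 2) = -wq r := by
  have h1 : r ^ 2 % 3 = 1 := sq_mod_three (by omega)
  rw [← wq_eq_wt h1, wq_pow (by omega)]
  have : ((2 : ℕ) : ZMod 3) = -1 := by decide
  rw [this]; ring

namespace FData

variable {ι : Type*} [Fintype ι] [DecidableEq ι] (D : FData ι)

/-- the bordered matrix -/
noncomputable def NN (y L : ι → ZMod 3) (w0 : ZMod 3) : Matrix (Option ι) (Option ι) (ZMod 3) :=
  fun a b => match a, b with
  | some i, some j => D.R y i j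
  | some i, none => L i
  | none, some j => wt (D.p j)
  | none, none => w0

theorem NN_q {y L : ι → ZMod 3} {w0 : ZMod 3} (hN : (D.NN y L w0).det ≠ 0) {v : ι → ZMod 3}
    {m : ZMod 3} (h1 : ∀ i, ∑ j, D.R y i j * v j + L i * m = 0)
    (h2 : ∑ j, wt (D.p j) * v j + w0 * m = 0) : (∀ j, v j = 0) ∧ m = 0 := by
  have h := mulVec_zero hN (v := fun a => a.elim m v) (fun a => by
    cases a with
    | none =>
      rw [Fintype.sum_option]
      show w0 * m + ∑ j, wt (D.p j) * v j = 0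
      rw [add_comm]; exact h2
    | some i =>
      rw [Fintype.sum_option]
      show L i * m + ∑ j, D.R y i j * v j = 0
      rw [add_comm]; exact h1 i)
  exact ⟨fun j => h (some j), h none⟩

theorem NN_k {y L : ι → ZMod 3} {w0 : ZMod 3} (hN : (D.NN y L w0).det ≠ 0) {v : ι → ZMod 3}
    {c : ZMod 3} (h1 : ∀ i, ∑ j, D.R y j i * v j = c * wt (D.p i))
    (h2 : ∑ j, L j * v j = c * w0) : (∀ j, v j = 0) ∧ c = 0 := by
  have hT : (D.NN y L w0).transpose.det ≠ 0 := by rwa [Matrix.det_transpose]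
  have h := mulVec_zero hT (v := fun a => a.elim (-c) v) (fun a => by
    cases a with
    | none =>
      rw [Fintype.sum_option]
      show w0 * (-c) + ∑ j, L j * v j = 0
      rw [h2]; ring
    | some i =>
      rw [Fintype.sum_option]
      show wt (D.p i) * (-c) + ∑ j, D.R y j i * v j = 0
      rw [h1 i]; ring)
  exact ⟨fun j => h (some j), neg_eq_zero.mp (h none)⟩

theorem three_not_dvd_p (i : ι) : ¬ (3 : ℤ) ∣ (D.p i : ℤ) := by
  have := D.h3 i
  omega

theorem wq_p (i : ι) : wq (D.p i : ℤ) = wt (D.p i) := wq_eq_wt (by have := D.h3 i; omega)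

theorem three_not_dvd_P (S : Finset ι) : ¬ (3 : ℤ) ∣ D.P S := by
  rw [P, Int.prime_three.dvd_finsetProd_iff]
  rintro ⟨j, -, h⟩
  exact D.three_not_dvd_p j (Int.prime_three.dvd_of_dvd_pow h)

theorem wq_P (S : Finset ι) : wq (D.P S) = ∑ j ∈ S, (D.e j : ZMod 3) * wt (D.p j) := by
  induction S using Finset.induction_on with
  | empty => rw [P, prod_empty, sum_empty, wq_one]
  | insert j S hj ih =>
    have h1 : D.P (insert j S) = (D.p j : ℤ) ^ D.e j * D.P S := by rw [P, prod_insert hj, P]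
    rw [h1, sum_insert hj, wq_mul (fun h => D.three_not_dvd_p j (Int.prime_three.dvd_of_dvd_pow h))
      (D.three_not_dvd_P S), wq_pow (D.three_not_dvd_p j), ih, D.wq_p]

theorem sum_vec {J1 J2 : Finset ι} (h12 : Disjoint J1 J2) (F : ι → ZMod 3) :
    ∑ j, F j * D.vec J1 J2 j =
      ∑ j ∈ J1, (D.e j : ZMod 3) * F j - ∑ j ∈ J2, (D.e j : ZMod 3) * F j := by
  have h1 : ∀ j, F j * D.vec J1 J2 j = (if j ∈ J1 then (D.e j : ZMod 3) * F j else 0) -
      (if j ∈ J2 then (D.e j : ZMod 3) * F j else 0) := by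
    intro j
    have hd : j ∈ J1 → j ∉ J2 := fun h => Finset.disjoint_left.mp h12 h
    rw [vec]
    by_cases hj1 : j ∈ J1
    · simp only [hj1, if_true, hd hj1, if_false]; ring
    · by_cases hj2 : j ∈ J2
      · simp only [hj1, hj2, if_true, if_false]; ring
      · simp [hj1, hj2]
  rw [sum_congr rfl (fun j _ => h1 j), sum_sub_distrib]
  simp

section inert

variable {r f : ℕ} {C0 : ℤ} (y L : ι → ZMod 3)

theorem inert_prime (hr : r.Prime) (hr3 : r % 3 = 2) : Prime (r : Eis) := prime_inert hr hr3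

theorem inert_n3 (hr : r.Prime) (hr3 : r % 3 = 2) : ¬ (r : Eis) ∣ 3 := by
  intro h
  have h1 : ((r : ℤ) : Eis) ∣ ((3 : ℤ) : Eis) := by
    rw [← three_eq_cast, Int.cast_natCast]; exact h
  rw [intCast_dvd_intCast] at h1
  have h2 : r ∣ 3 := by exact_mod_cast h1
  have h4 := (Nat.prime_dvd_prime_iff_eq hr Nat.prime_three).mp h2
  omega

/-- the symbol of `η` at an inert prime -/
theorem inert_sym (hr : r.Prime) (hr3 : r % 3 = 2) (hrp : ∀ i, D.p i ≠ r) {J : Finset ι}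
    {ρ : ι → Eis} (hρ : ∀ j, ρ j = D.π j ∨ ρ j = conj (D.π j)) {η γ : Eis}
    (hη : η = (∏ j ∈ J, ρ j ^ D.e j) * γ ^ 3) (hrη : ¬ (r : Eis) ∣ η)
    (hL : ∀ i, sym (D.π i) (r : Eis) = L i) :
    sym (r : Eis) η = ∑ j, L j * D.vec (J.filter (fun j => ρ j = D.π j))
      (J.filter (fun j => ρ j ≠ D.π j)) j := by
  have hP := prime_inert hr hr3
  have hn3 := inert_n3 hr hr3
  have hnp : ∀ j, ¬ (r : Eis) ∣ D.π j := by
    intro j h
    have : Fact (D.p j).Prime := ⟨D.hp j⟩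
    have h1 := h.trans (dvd_p (D.hπ j))
    have h2 : ((r : ℤ) : Eis) ∣ ((D.p j : ℤ) : Eis) := by
      rw [Int.cast_natCast, Int.cast_natCast]; exact h1
    rw [intCast_dvd_intCast] at h2
    have h3 : r ∣ D.p j := by exact_mod_cast h2
    exact hrp j ((Nat.prime_dvd_prime_iff_eq hr (D.hp j)).mp h3).symm
  have hnp' : ∀ j, ¬ (r : Eis) ∣ conj (D.π j) := by
    intro j h
    apply hnp j
    have := conj_dvd h
    rwa [conj_natCast, conj_conj] at this
  have hsym : ∀ j, sym (r : Eis) (D.π j) = L j := by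
    intro j
    have : Fact (D.p j).Prime := ⟨D.hp j⟩
    rw [← hL j]
    have h3r : ¬ 3 ∣ r := by omega
    refine (recip (D.h3 j) (D.hπ j) (D.hprim j) hP hn3 (prim_natCast h3r) ?_).symm
    intro h
    exact hnp j h.dvd
  have hsym' : ∀ j, sym (r : Eis) (conj (D.π j)) = -L j := by
    intro j
    rw [← hsym j, ← sym_conj hP hn3 (hnp j), conj_natCast]
  have hρn : ∀ j, ¬ (r : Eis) ∣ ρ j := by
    intro j
    rcases hρ j with h | h <;> rw [h]
    · exact hnp j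
    · exact hnp' j
  have hγ : ¬ (r : Eis) ∣ γ := by
    intro h
    apply hrη
    rw [hη]
    exact Dvd.dvd.mul_left (Dvd.dvd.pow h (by norm_num)) _
  obtain ⟨h1, h2⟩ := sym_prod_pow hP hn3 ρ D.e J (fun j _ => hρn j)
  have h3 : ¬ (r : Eis) ∣ γ ^ 3 := fun h => hγ (hP.dvd_of_dvd_pow h)
  rw [hη, sym_mul hP hn3 h1 h3, sym_cube hP hn3 hγ, add_zero, h2,
    D.sum_vec (disjoint_filter_filter_not _ _ _), sum_filter, sum_filter, ← sum_sub_distrib]
  apply sum_congr rfl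
  intro j _
  by_cases h : ρ j = D.π j
  · rw [if_pos h, if_neg (not_not.mpr h), h, hsym j]; ring
  · rw [if_neg h, if_pos h, (hρ j).resolve_left h, hsym' j]; ring

/-- the side of `Z[ω]` -/
theorem kstep2 (hr : r.Prime) (hr3 : r % 3 = 2) (hrp : ∀ i, D.p i ≠ r) (hC0 : C0 ≠ 0)
    (hf : f ≠ 0) (hCp : ∀ i, ¬ (D.p i : ℤ) ∣ C0)
    (hy : ∀ i, sym (D.π i) ((C0 * (r : ℤ) ^ f : ℤ) : Eis) = y i)
    (hL : ∀ i, sym (D.π i) (r : Eis) = L i)
    (hR : (D.NN y L (wq r)).det ≠ 0) {η : Eis} {S z : ℤ} (hηprim : Prim η)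
    (hηcop : IsCoprime η (conj η)) (hcoS : IsCoprime S η.norm)
    (hηS : S * η.norm = (C0 * (r : ℤ) ^ f * D.P univ) * z ^ 3) (hCS : C0 ∣ S)
    {α β κ : Eis} {c : ZMod 3}
    (hα : ∀ i, ¬ D.π i ∣ α)
    (hβ : ∀ i, ¬ D.π i ∣ β) (hκ : ∀ i, ¬ D.π i ∣ κ)
    (hα' : ∀ i, sym (D.π i) α = c * wt (D.p i))
    (hβ' : ∀ i, sym (D.π i) β = -(c * wt (D.p i))) (hκ' : ∀ i, sym (D.π i) κ = 0)
    (hαr : ¬ (r : Eis) ∣ α) (hβr : ¬ (r : Eis) ∣ β) (hαr' : sym (r : Eis) α = -(c * wq r))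
    (hβr' : sym (r : Eis) β = c * wq r)
    (hrel : α * η + β * conj η = κ * (S : Eis)) :
    c = 0 ∧ ∃ (γ : Eis) (s t : ℤ), η = γ ^ 3 ∧ ¬ lam ∣ γ ∧
      S = (C0 * (r : ℤ) ^ f * D.P univ) * s ^ 3 ∧ z = t * s := by
  have hri : Prime (r : ℤ) := Nat.prime_iff_prime_int.mp hr
  have hr0 : (r : ℤ) ^ f ≠ 0 := pow_ne_zero _ hri.ne_zero
  have hrη := inert_not_dvd_norm hr hr3 hηcop
  obtain ⟨S2, hS2⟩ := hCS
  have h2 : (r : ℤ) ^ f ∣ S2 := by
    have h3 : S2 * η.norm = ((r : ℤ) ^ f * D.P univ) * z ^ 3 := by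
      apply mul_left_cancel₀ hC0
      rw [hS2] at hηS
      linear_combination hηS
    apply hri.pow_dvd_of_dvd_mul_right f hrη
    rw [h3, mul_assoc]; exact dvd_mul_right _ _
  obtain ⟨S1, hS1⟩ := h2
  have hS1' : S = C0 * (r : ℤ) ^ f * S1 := by rw [hS2, hS1]; ring
  have hS1d : S1 ∣ S := ⟨C0 * (r : ℤ) ^ f, by rw [hS1']; ring⟩
  obtain ⟨J, -, t, s, ht, hs, hz⟩ := split_two D.p D.e D.hp D.he0 univ η.norm S1 z
    (hcoS.of_isCoprime_of_dvd_left hS1d).symm (by
      apply mul_left_cancel₀ (mul_ne_zero hC0 hr0)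
      rw [hS1'] at hηS
      rw [P] at hηS
      linear_combination hηS)
  obtain ⟨ρ, γ, hρ, hγ, hγ3⟩ := split_eis D.p D.e D.π D.hp D.hπ D.prim D.he0 J η t hηprim hηcop ht
  have hpq : ∀ i, ¬ (D.p i : ℤ) ∣ C0 * (r : ℤ) ^ f := by
    intro i h
    rcases (D.prime_int i).dvd_or_dvd h with h | h
    · exact hCp i h
    · have := (D.prime_int i).dvd_of_dvd_pow h
      rw [Int.natCast_dvd_natCast, Nat.prime_dvd_prime_iff_eq (D.hp i) hr] at this
      exact hrp i this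
  have hns : ∀ i ∈ J, ¬ (D.p i : ℤ) ∣ s := by
    intro i hi h
    have h5 : (D.p i : ℤ) ∣ S := by
      rw [hS1', hs]; exact Dvd.dvd.mul_left (Dvd.dvd.mul_left (Dvd.dvd.pow h (by norm_num)) _) _
    have h6 : (D.p i : ℤ) ∣ η.norm := by
      rw [ht]; exact Dvd.dvd.mul_right (D.dvd_P hi) _
    exact (D.prime_int i).not_isUnit (hcoS.isUnit_of_dvd' h5 h6)
  have hn3 : ∀ i (x : ℤ), ¬ (D.p i : ℤ) ∣ x → ¬ (D.p i : ℤ) ∣ x ^ 3 :=
    fun i x h h' => h ((D.prime_int i).dvd_of_dvd_pow h')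
  have hres := D.kside (J := J) hρ hγ hηcop (S0 := C0 * (r : ℤ) ^ f * s ^ 3)
    (fun i hi h => ((D.prime_int i).dvd_or_dvd h).elim (hpq i) (hn3 i s (hns i hi)))
    y (fun i => c * wt (D.p i)) (fun i hi => by
      rw [Int.cast_mul, sym_mul (D.pr i) (D.n3 i)
        (by rw [D.dvd_int]; exact hpq i) (by rw [D.dvd_int]; exact hn3 i s (hns i hi)),
        Int.cast_pow s, sym_cube (D.pr i) (D.n3 i) (by rw [D.dvd_int]; exact hns i hi),
        add_zero, hy i])
    (α := α) (β := β) (κ := κ) hα hβ hκ hα' hβ' hκ' (by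
      rw [hrel, hS1', hs]
      congr 2; ring)
  -- the equation at `r`
  have hP := prime_inert hr hr3
  have hr3' := inert_n3 hr hr3
  have hrη' : ¬ (r : Eis) ∣ η := by
    intro h
    apply hrη
    have h1 : ((r : ℤ) : Eis) ∣ (η.norm : Eis) := by
      rw [← mul_conj, Int.cast_natCast]; exact Dvd.dvd.mul_right h _
    exact intCast_dvd_intCast.mp h1
  have hrη'' : ¬ (r : Eis) ∣ conj η := by
    intro h
    apply hrη'
    have := conj_dvd h
    rwa [conj_natCast, conj_conj] at this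
  have hsη := D.inert_sym L hr hr3 hrp hρ hγ hrη' hL
  have hrS : (r : Eis) ∣ α * η + β * conj η := by
    rw [hrel]
    apply Dvd.dvd.mul_left
    have : ((r : ℤ) : Eis) ∣ (S : Eis) := by
      rw [intCast_dvd_intCast, hS1']
      exact Dvd.dvd.mul_right (Dvd.dvd.mul_left (dvd_pow_self _ hf) _) _
    rwa [Int.cast_natCast] at this
  have hnb : ¬ (r : Eis) ∣ β * conj η := fun h => (hP.dvd_or_dvd h).elim hβr hrη''
  have hc : sym (r : Eis) (α * η) = sym (r : Eis) (β * conj η) := by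
    rw [← sym_neg hP hr3' hnb]
    apply sym_congr
    rw [sub_neg_eq_add]; exact hrS
  have hconj : sym (r : Eis) (conj η) = -sym (r : Eis) η := by
    have := sym_conj hP hr3' hrη'
    rwa [conj_natCast] at this
  rw [sym_mul hP hr3' hαr hrη', sym_mul hP hr3' hβr hrη'', hαr', hβr', hconj, hsη] at hc
  have h3 : (3 : ZMod 3) = 0 := by decide
  have heq : ∑ j, L j * D.vec (J.filter (fun j => ρ j = D.π j))
      (J.filter (fun j => ρ j ≠ D.π j)) j = c * wq r := by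
    linear_combination (-1 : ZMod 3) * hc + (∑ j, L j * D.vec (J.filter (fun j => ρ j = D.π j))
      (J.filter (fun j => ρ j ≠ D.π j)) j - c * wq r) * h3
  obtain ⟨hv0, hc0⟩ := D.NN_k hR hres heq
  refine ⟨hc0, ?_⟩
  obtain ⟨e1, e2⟩ := D.vec_eq_zero (disjoint_filter_filter_not _ _ _) hv0
  have e3 : J = ∅ := by
    rw [← filter_union_filter_not_eq (fun j => ρ j = D.π j) J, e1, e2]; rfl
  subst e3
  rw [prod_empty, one_mul] at hγ
  refine ⟨γ, s, t, hγ, hγ3, ?_, hz⟩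
  rw [hS1', hs, sdiff_empty, P]; ring

end inert

end FData

end Pool.Agent.Lib_helper18

end

section

/-!
# Data attached to a point
-/

namespace Pool.Agent.Lib_helper84.Cub

open Pool.Agent.Lib_helper18 Pool.Agent.Lib_helper18.Eis

/-- the product of the prime powers in cell `k` -/
def cell {m : ℕ} (p e : Fin m → ℕ) (pos : Fin m → Fin 3) (k : Fin 3) : ℤ :=
  ∏ j, if pos j = k then (p j : ℤ) ^ e j else 1

/-- a solution of `a_0 x_0^3 + a_1 x_1^3 + a_2 x_2^3 = 0` with pairwise coprime terms -/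
structure IsPt {m : ℕ} (p e : Fin m → ℕ) (pos : Fin m → Fin 3) (x : Fin 3 → ℤ) : Prop where
  ne : ∀ k, x k ≠ 0
  sum : ∑ k, cell p e pos k * x k ^ 3 = 0
  cop : ∀ i j, i ≠ j → IsCoprime (cell p e pos i * x i) (cell p e pos j * x j)

/-- the statement of the first descent (Step 0) -/
def Step0Stmt : Prop := ∀ {m : ℕ} {p e : Fin m → ℕ}, 2 ≤ m → (∀ i, (p i).Prime) →
  (∀ i, p i % 9 = 2 ∨ p i % 9 = 5) → Function.Injective p → (∀ i, e i = 1 ∨ e i = 2) →
  (∃ X Y : ℚ, X ^ 3 + Y ^ 3 = ∏ i, (p i : ℚ) ^ e i) →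
  ∃ (pos : Fin m → Fin 3) (x : Fin 3 → ℤ), (∀ k, ∃ j, pos j ≠ k) ∧ IsPt p e pos x ∧
    ((∏ i, (p i : ℤ) ^ e i) % 9 = 1 ∨ (∏ i, (p i : ℤ) ^ e i) % 9 = 8 →
      ∀ k k', wq (cell p e pos k) = wq (cell p e pos k'))

end Pool.Agent.Lib_helper84.Cub

end
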