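import Mathlib
import Pool.Agent.PTWX.C08

/-! Parts: Lib_helper18.FD6, Lib_helper18.FD10, Lib_helper18.FD11, Lib_helper18.FD12 -/

section

set_option linter.unusedSectionVars false

/-!
# The descent for `A = q^f * ∏ p_i ^ e_i`, `q = 2 mod 3`, `A ≠ ±1 mod 9`
-/

namespace Pool.Agent.Lib_helper18

open Finset Eis

theorem r3_dvd {l : Eis} (_hl : Prime l) (h : l ∣ r3) : l ∣ 3 := by
  have h1 : l ∣ r3 ^ 2 := Dvd.dvd.pow h (by norm_num)
  rw [r3_sq, dvd_neg] at h1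
  exact h1

/-- the cube identity on the symmetric side -/
theorem trace_identity (α δ : ℤ) :
    ((⟨α, δ⟩ : Eis) ^ 3 + conj (⟨α, δ⟩ : Eis) ^ 3) =
      (((2 * α - δ) * (-α - δ) * (2 * δ - α) : ℤ) : Eis) := by
  ext
  · simp only [pow_succ, pow_zero, one_mul, add_re, mul_re, mul_im, conj_re, conj_im, intCast_re]
    ring
  · simp only [pow_succ, pow_zero, one_mul, add_im, mul_re, mul_im, conj_re, conj_im, intCast_im]
    ring

theorem coprime_coords {γ : Eis} {α δ : ℤ} (hγ : γ = ⟨α, δ⟩) (hl : ¬ lam ∣ γ)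
    (hcop : IsCoprime (γ ^ 3) (conj (γ ^ 3))) : IsCoprime α δ := by
  apply isCoprime_of_prime_dvd
  · rintro ⟨rfl, rfl⟩
    exact hl (by rw [hγ, show (⟨0, 0⟩ : Eis) = 0 from rfl]; exact dvd_zero _)
  · intro q hq h6 h7
    have h8 : (q : Eis) ∣ γ := by rw [hγ]; exact intCast_dvd_iff.mpr ⟨h6, h7⟩
    have h9 : (q : Eis) ∣ γ ^ 3 := Dvd.dvd.pow h8 (by norm_num)
    have h10 : (q : Eis) ∣ conj (γ ^ 3) := by
      have := conj_dvd h9
      rwa [conj_intCast] at this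
    have h11 := hcop.isUnit_of_dvd' h9 h10
    rw [isUnit_iff_norm, norm_intCast] at h11
    apply hq.not_isUnit
    rw [Int.isUnit_iff]
    exact sq_eq_one_iff_of_side h11

namespace FData

variable {ι : Type*} [Fintype ι] [DecidableEq ι] (D : FData ι)

section one

variable {q f : ℕ} (y : ι → ZMod 3)

/-- the side of `Z[ω]`: the class is trivial -/
theorem kstep (hq : q.Prime) (hq3 : q % 3 = 2) (hqp : ∀ i, D.p i ≠ q)
    (hy : ∀ i, sym (D.π i) (((q : ℤ) ^ f : ℤ) : Eis) = y i)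
    (hR : (Matrix.of (D.R y)).det ≠ 0) {η : Eis} {S z : ℤ} (hηprim : Prim η)
    (hηcop : IsCoprime η (conj η)) (hcoS : IsCoprime S η.norm)
    (hηS : S * η.norm = ((q : ℤ) ^ f * D.P univ) * z ^ 3) {β κ : Eis}
    (hβ : ∀ i, ¬ D.π i ∣ β) (hκ : ∀ i, ¬ D.π i ∣ κ)
    (hβ' : ∀ i, sym (D.π i) β = 0) (hκ' : ∀ i, sym (D.π i) κ = 0)
    (hrel : η + β * conj η = κ * (S : Eis)) :
    ∃ (γ : Eis) (s t : ℤ), η = γ ^ 3 ∧ ¬ lam ∣ γ ∧ S = ((q : ℤ) ^ f * D.P univ) * s ^ 3 ∧
      z = t * s := by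
  have hqi : Prime (q : ℤ) := Nat.prime_iff_prime_int.mp hq
  have hq0 : (q : ℤ) ^ f ≠ 0 := pow_ne_zero _ hqi.ne_zero
  have hqη := inert_not_dvd_norm hq hq3 hηcop
  have h2 : (q : ℤ) ^ f ∣ S := by
    apply hqi.pow_dvd_of_dvd_mul_right f hqη
    rw [hηS, mul_assoc]; exact dvd_mul_right _ _
  obtain ⟨S1, hS1⟩ := h2
  have hS1d : S1 ∣ S := ⟨(q : ℤ) ^ f, by rw [hS1]; ring⟩
  obtain ⟨J, -, t, s, ht, hs, hz⟩ := split_two D.p D.e D.hp D.he0 univ η.norm S1 z
    (hcoS.of_isCoprime_of_dvd_left hS1d).symm (by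
      apply mul_left_cancel₀ hq0
      rw [hS1] at hηS
      rw [P] at hηS
      linear_combination hηS)
  obtain ⟨ρ, γ, hρ, hγ, hγ3⟩ := split_eis D.p D.e D.π D.hp D.hπ D.prim D.he0 J η t hηprim hηcop ht
  have hpq : ∀ i, ¬ (D.p i : ℤ) ∣ (q : ℤ) ^ f := by
    intro i h
    have := (D.prime_int i).dvd_of_dvd_pow h
    rw [Int.natCast_dvd_natCast, Nat.prime_dvd_prime_iff_eq (D.hp i) hq] at this
    exact hqp i this
  have hns : ∀ i ∈ J, ¬ (D.p i : ℤ) ∣ s := by
    intro i hi h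
    have h5 : (D.p i : ℤ) ∣ S := by
      rw [hS1, hs]; exact Dvd.dvd.mul_left (Dvd.dvd.mul_left (Dvd.dvd.pow h (by norm_num)) _) _
    have h6 : (D.p i : ℤ) ∣ η.norm := by
      rw [ht]; exact Dvd.dvd.mul_right (D.dvd_P hi) _
    exact (D.prime_int i).not_isUnit (hcoS.isUnit_of_dvd' h5 h6)
  have hn3 : ∀ i (x : ℤ), ¬ (D.p i : ℤ) ∣ x → ¬ (D.p i : ℤ) ∣ x ^ 3 :=
    fun i x h h' => h ((D.prime_int i).dvd_of_dvd_pow h')
  have hres := D.kside (J := J) hρ hγ hηcop (S0 := (q : ℤ) ^ f * s ^ 3)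
    (fun i hi h => ((D.prime_int i).dvd_or_dvd h).elim (hpq i) (hn3 i s (hns i hi)))
    y (fun _ => 0) (fun i hi => by
      rw [Int.cast_mul, sym_mul (D.pr i) (D.n3 i)
        (by rw [D.dvd_int]; exact hpq i) (by rw [D.dvd_int]; exact hn3 i s (hns i hi)),
        Int.cast_pow s, sym_cube (D.pr i) (D.n3 i) (by rw [D.dvd_int]; exact hns i hi),
        add_zero, hy i])
    (α := 1) (β := β) (κ := κ) (fun i => not_dvd_of_isUnit (D.pr i) isUnit_one) hβ hκ
    (fun i => sym_one (D.pr i) (D.n3 i)) (fun i => by rw [hβ' i, neg_zero]) hκ' (by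
      rw [one_mul, hrel, hS1, hs]
      congr 2; ring)
  have hT : (Matrix.of (D.R y)).transpose.det ≠ 0 := by rwa [Matrix.det_transpose]
  have hv0 := mulVec_zero hT (v := D.vec _ _) (fun i => hres i)
  obtain ⟨e1, e2⟩ := D.vec_eq_zero (disjoint_filter_filter_not _ _ _) hv0
  have e3 : J = ∅ := by
    rw [← filter_union_filter_not_eq (fun j => ρ j = D.π j) J, e1, e2]; rfl
  subst e3
  rw [prod_empty, one_mul] at hγ
  refine ⟨γ, s, t, hγ, hγ3, ?_, hz⟩
  rw [hS1, hs, sdiff_empty, P]; ring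

theorem dvd_A_cube (hq : q.Prime) (hqp : ∀ i, D.p i ≠ q) (hf : f ≤ 2) (r : ℤ) (hr : Prime r) :
    ¬ r ^ 3 ∣ (q : ℤ) ^ f * D.P univ := by
  have h := cube_not_dvd_prod (κ := Option ι) (fun k => k.elim q D.p) (fun k => k.elim f D.e)
    (fun k => by cases k with
      | none => exact hq
      | some i => exact D.hp i)
    (fun k l hkl => by
      cases k with
      | none =>
        cases l with
        | none => rfl
        | some j => exact absurd hkl.symm (hqp j)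
      | some i =>
        cases l with
        | none => exact absurd hkl (hqp i)
        | some j => exact congrArg some (D.inj hkl))
    (fun k => by cases k with
      | none => exact hf
      | some i => rcases D.he i with h | h <;> simp [h])
    univ r hr
  rw [Fintype.prod_option] at h
  exact h

theorem descent_one (hq : q.Prime) (hq3 : q % 3 = 2) (hf : f = 1 ∨ f = 2)
    (hy : ∀ i, sym (D.π i) (((q : ℤ) ^ f : ℤ) : Eis) = y i)
    (hR : (Matrix.of (D.R y)).det ≠ 0)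
    (hA1 : ((q : ℤ) ^ f * D.P univ) % 9 ≠ 1) (hA8 : ((q : ℤ) ^ f * D.P univ) % 9 ≠ 8)
    (hA2 : ((q : ℤ) ^ f * D.P univ) ≠ 2) :
    ∀ (n : ℕ) (x y z : ℤ), z.natAbs = n → z ≠ 0 →
      x ^ 3 + y ^ 3 = ((q : ℤ) ^ f * D.P univ) * z ^ 3 → False := by
  have hqp : ∀ i, D.p i ≠ q := fun i h => by
    have := D.h3 i
    rw [h] at this
    omega
  have hf0 : f ≠ 0 := by omega
  have hqi : Prime (q : ℤ) := Nat.prime_iff_prime_int.mp hq
  have hcf := D.dvd_A_cube (f := f) hq hqp (by omega)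
  have hq' := fun {u v t s : ℤ} => D.qstep' y hq hqp hf0 hy hR (u := u) (v := v) (t := t) (s := s)
  have hk' := fun {η : Eis} {S z : ℤ} => D.kstep y hq hq3 hqp hy hR (η := η) (S := S) (z := z)
  set A : ℤ := (q : ℤ) ^ f * D.P univ with hA
  have hA0 : A ≠ 0 := by
    apply mul_ne_zero (pow_ne_zero _ hqi.ne_zero)
    exact prod_ne_zero_iff.mpr (fun j _ => pow_ne_zero _ (D.prime_int j).ne_zero)
  have hA3 : ¬ (3 : ℤ) ∣ A := by
    intro h
    rcases Int.prime_three.dvd_or_dvd h with h | h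
    · have h1 := Int.prime_three.dvd_of_dvd_pow h
      omega
    · rw [P, Int.prime_three.dvd_finsetProd_iff] at h
      obtain ⟨j, -, h⟩ := h
      have h1 := Int.prime_three.dvd_of_dvd_pow h
      have := D.h3 j
      omega
  intro n
  induction n using Nat.strong_induction_on with
  | _ n ih =>
  intro x y z hzn hz0 hxyz
  by_cases hco : IsCoprime x y
  swap
  · -- common factor
    have hx0y0 : ¬ (x = 0 ∧ y = 0) := by
      rintro ⟨rfl, rfl⟩
      have : A * z ^ 3 = 0 := by rw [← hxyz]; ring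
      rcases mul_eq_zero.mp this with h | h
      · exact hA0 h
      · exact hz0 (pow_eq_zero_iff (by norm_num) |>.mp h)
    have : ∃ r : ℤ, Prime r ∧ r ∣ x ∧ r ∣ y := by
      by_contra hcon
      push Not at hcon
      exact hco (isCoprime_of_prime_dvd hx0y0 (fun q hq hqx => hcon q hq hqx))
    obtain ⟨r, hr, ⟨x', hx'⟩, ⟨y', hy'⟩⟩ := this
    have hr3 : r ^ 3 ∣ A * z ^ 3 := ⟨x' ^ 3 + y' ^ 3, by rw [← hxyz, hx', hy']; ring⟩
    have hrz : r ∣ z := by
      by_contra hrz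
      exact hcf r hr (hr.pow_dvd_of_dvd_mul_right 3 (fun h => hrz (hr.dvd_of_dvd_pow h)) hr3)
    obtain ⟨z', hz'⟩ := hrz
    have hz'0 : z' ≠ 0 := by rintro rfl; simp at hz'; exact hz0 hz'
    have hlt : z'.natAbs < n := by
      rw [← hzn, hz', Int.natAbs_mul]
      have h1 : 1 < r.natAbs := by
        have := hr.not_isUnit
        rw [Int.isUnit_iff_natAbs_eq] at this
        have h2 : r.natAbs ≠ 0 := Int.natAbs_ne_zero.mpr hr.ne_zero
        omega
      have h2 : 0 < z'.natAbs := Int.natAbs_pos.mpr hz'0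
      nlinarith
    refine ih _ hlt x' y' z' rfl hz'0 ?_
    have hr30 : r ^ 3 ≠ 0 := pow_ne_zero _ hr.ne_zero
    apply mul_left_cancel₀ hr30
    rw [hx', hy', hz'] at hxyz
    linear_combination hxyz
  · by_cases h3z : (3 : ℤ) ∣ z
    · -- Case A
      obtain ⟨z1, S, η, hz1, hηprim, hηcop, hηim, hηdiff, hcoS, hηS⟩ := caseA_data hco h3z hxyz
      obtain ⟨γ, s, t, hγ, hγ3, hS, hzt⟩ := hk' hηprim hηcop hcoS hηS (β := -1) (κ := 3 * r3)
        (fun i => by
          rw [dvd_neg]; exact not_dvd_of_isUnit (D.pr i) isUnit_one)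
        (fun i h => ((D.pr i).dvd_or_dvd h).elim (D.n3 i) (fun h => D.n3 i (r3_dvd (D.pr i) h)))
        (fun i => sym_neg_one (D.pr i) (D.n3 i))
        (fun i => by
          have e : 3 * r3 = (-r3) ^ 3 := by decide
          rw [e]
          exact sym_cube (D.pr i) (D.n3 i)
            (by rw [dvd_neg]; exact fun h => D.n3 i (r3_dvd (D.pr i) h)))
        (by rw [← hηdiff]; ring)
      have hz10 : z1 ≠ 0 := by rintro rfl; simp at hz1; exact hz0 hz1
      have hs0 : s ≠ 0 := by rintro rfl; simp at hzt; exact hz10 hzt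
      obtain ⟨α, δ⟩ := γ
      have hcoad : IsCoprime α δ := coprime_coords rfl hγ3 (by rw [← hγ]; exact hηcop)
      have hprod : α * δ * (α - δ) = A * s ^ 3 := by
        have h6 := congrArg Eis.im hγ
        simp only [pow_succ, pow_zero, one_mul, mul_im, mul_re] at h6
        rw [hηim] at h6
        rw [← hS]
        linarith
      have hc1 : IsCoprime α (δ - α) := by
        obtain ⟨u, v, huv⟩ := hcoad
        exact ⟨u + v, v, by linear_combination huv⟩
      have hc2 : IsCoprime (-δ) (δ - α) := by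
        obtain ⟨u, v, huv⟩ := hcoad
        exact ⟨-(u + v), -u, by linear_combination huv⟩
      obtain ⟨a, b, c, habc, hsabc⟩ := hq' hcoad.neg_right hc1 hc2 (by ring)
        (by rw [← hprod]; ring)
      have hc0 : c ≠ 0 := by
        rintro rfl
        simp at hsabc
        exact hs0 hsabc
      have ha0 : a ≠ 0 := by rintro rfl; simp at hsabc; exact hs0 hsabc
      have hb0 : b ≠ 0 := by rintro rfl; simp at hsabc; exact hs0 hsabc
      have ht0 : t ≠ 0 := by rintro rfl; simp at hzt; exact hz10 hzt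
      refine ih c.natAbs ?_ a b c rfl hc0 habc
      have h1 : z.natAbs = 3 * (t.natAbs * s.natAbs) := by
        rw [hz1, Int.natAbs_mul, hzt, Int.natAbs_mul]; rfl
      have ha1 : 1 ≤ a.natAbs := Int.natAbs_pos.mpr ha0
      have hb1 : 1 ≤ b.natAbs := Int.natAbs_pos.mpr hb0
      have hc1 : 1 ≤ c.natAbs := Int.natAbs_pos.mpr hc0
      have ht1 : 1 ≤ t.natAbs := Int.natAbs_pos.mpr ht0
      have h2 : c.natAbs ≤ s.natAbs := by
        rw [hsabc]
        calc c.natAbs = 1 * 1 * c.natAbs := by ring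
          _ ≤ a.natAbs * b.natAbs * c.natAbs := by gcongr
      have h3 : s.natAbs ≤ t.natAbs * s.natAbs := by
        calc s.natAbs = 1 * s.natAbs := by ring
          _ ≤ t.natAbs * s.natAbs := by gcongr
      omega
    · -- Case B
      obtain ⟨η, hηprim, hηcop, hηsum, hcoS, hηS⟩ := caseB_data hco h3z hA3 hA1 hA8 hxyz
      obtain ⟨γ, s, t, hγ, hγ3, hS, hzt⟩ := hk' hηprim hηcop hcoS hηS (β := 1) (κ := -1)
        (fun i => not_dvd_of_isUnit (D.pr i) isUnit_one)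
        (fun i => by
          rw [dvd_neg]; exact not_dvd_of_isUnit (D.pr i) isUnit_one)
        (fun i => sym_one (D.pr i) (D.n3 i))
        (fun i => sym_neg_one (D.pr i) (D.n3 i))
        (by rw [one_mul, hηsum]; ring)
      have hs0 : s ≠ 0 := by rintro rfl; simp at hzt; exact hz0 hzt
      have ht0 : t ≠ 0 := by rintro rfl; simp at hzt; exact hz0 hzt
      obtain ⟨α, δ⟩ := γ
      have hcoad : IsCoprime α δ := coprime_coords rfl hγ3 (by rw [← hγ]; exact hηcop)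
      have hl : ¬ (3 : ℤ) ∣ α + δ := by rw [lam_dvd_iff] at hγ3; exact hγ3
      have hprod : (2 * α - δ) * (-α - δ) * (2 * δ - α) = A * (-s) ^ 3 := by
        have h6 := trace_identity α δ
        rw [← map_pow, ← hγ, hηsum, hS] at h6
        have h7 := congrArg Eis.re h6
        simp only [neg_re, intCast_re] at h7
        rw [← h7]; ring
      have h3n : ∀ n : ℤ, ¬ (3 : ℤ) ∣ n → IsCoprime n 3 := by
        intro n hn
        rw [isCoprime_comm, Int.prime_three.irreducible.coprime_iff_not_dvd]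
        exact hn
      have key : ∀ u v : ℤ, (∃ a b c d : ℤ, a * u + b * v = 3 * α ∧ c * u + d * v = 3 * δ) →
          ¬ (3 : ℤ) ∣ u → IsCoprime u v := by
        rintro u v ⟨a, b, c, d, h1, h2⟩ hu
        obtain ⟨m, n, hmn⟩ := hcoad
        have h4 : IsCoprime u (3 : ℤ) := h3n u hu
        have h5 : ∃ g h : ℤ, g * u + h * v = 3 :=
          ⟨m * a + n * c, m * b + n * d, by linear_combination m * h1 + n * h2 + 3 * hmn⟩
        obtain ⟨g, h, hgh⟩ := h5
        obtain ⟨k, l, hkl⟩ := h4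
        exact ⟨k + l * g, l * h, by linear_combination hkl + l * hgh⟩
      have c1 : IsCoprime (2 * α - δ) (-α - δ) :=
        key _ _ ⟨1, -1, -1, -2, by ring, by ring⟩ (by omega)
      have c2 : IsCoprime (2 * α - δ) (2 * δ - α) :=
        key _ _ ⟨2, 1, 1, 2, by ring, by ring⟩ (by omega)
      have c3 : IsCoprime (-α - δ) (2 * δ - α) :=
        key _ _ ⟨-2, -1, -1, 1, by ring, by ring⟩ (by omega)
      obtain ⟨a, b, c, habc, hsabc⟩ := hq' c1 c2 c3 (by ring) hprod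
      rw [Int.natAbs_neg] at hsabc
      have hc0 : c ≠ 0 := by
        rintro rfl
        simp at hsabc
        exact hs0 hsabc
      have ha0 : a ≠ 0 := by rintro rfl; simp at hsabc; exact hs0 hsabc
      have hb0 : b ≠ 0 := by rintro rfl; simp at hsabc; exact hs0 hsabc
      refine ih c.natAbs ?_ a b c rfl hc0 habc
      have h1 : z.natAbs = t.natAbs * s.natAbs := by rw [hzt, Int.natAbs_mul]
      have ha1 : 1 ≤ a.natAbs := Int.natAbs_pos.mpr ha0
      have hb1 : 1 ≤ b.natAbs := Int.natAbs_pos.mpr hb0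
      have hc1 : 1 ≤ c.natAbs := Int.natAbs_pos.mpr hc0
      have ht1 : 1 ≤ t.natAbs := Int.natAbs_pos.mpr ht0
      have h3 : s.natAbs ≤ t.natAbs * s.natAbs := by
        calc s.natAbs = 1 * s.natAbs := by ring
          _ ≤ t.natAbs * s.natAbs := by gcongr
      by_contra hcon
      have h4 : s.natAbs ≤ c.natAbs := by omega
      -- then |a| = |b| = 1
      have h5 : a.natAbs * b.natAbs = 1 := by
        rw [hsabc] at h4
        by_contra hne
        have h6 : 2 ≤ a.natAbs * b.natAbs := by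
          have : 1 ≤ a.natAbs * b.natAbs := Nat.mul_pos ha1 hb1
          omega
        nlinarith
      have ha2 : a.natAbs = 1 := Nat.eq_one_of_mul_eq_one_right h5
      have hb2 : b.natAbs = 1 := Nat.eq_one_of_mul_eq_one_left h5
      have hcase : A * c ^ 3 = 2 ∨ A * c ^ 3 = -2 := by
        have hAc : A * c ^ 3 ≠ 0 := mul_ne_zero hA0 (pow_ne_zero _ hc0)
        rcases Int.natAbs_eq a with h | h <;> rcases Int.natAbs_eq b with h' | h' <;>
          rw [ha2] at h <;> rw [hb2] at h' <;> rw [h, h'] at habc <;> norm_num at habc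
        · left; exact habc.symm
        · exact absurd habc (by tauto)
        · exact absurd habc (by tauto)
        · right; exact habc.symm
      have hApos : 0 < A := by
        rw [hA]
        apply mul_pos (pow_pos (by exact_mod_cast hq.pos) _)
        exact prod_pos (fun j _ => pow_pos (by exact_mod_cast (D.hp j).pos) _)
      have hAd : A ∣ 2 := by
        rcases hcase with h | h
        · exact ⟨_, h.symm⟩
        · exact ⟨-c ^ 3, by linarith⟩
      have hA2' := Int.le_of_dvd (by norm_num) hAd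
      have : A = 1 := by omega
      rw [this] at hA1
      exact hA1 (by norm_num)

end one

end FData

end Pool.Agent.Lib_helper18

end

section

set_option linter.unusedSectionVars false

/-!
# The rational side with an inert prime in the matrix and a condition at `3`
-/

namespace Pool.Agent.Lib_helper18

open Finset Eis Matrix

theorem inert_split {r : ℤ} (hr : Prime r) {f : ℕ} (hf : f ≠ 0) {u v t X : ℤ}
    (huv : IsCoprime u v) (hut : IsCoprime u t) (hvt : IsCoprime v t)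
    (h : u * v * t = r ^ f * X) :
    ∃ (f1 f2 f3 : ℕ) (u' v' t' : ℤ), ((f1 = f ∧ f2 = 0 ∧ f3 = 0) ∨ (f1 = 0 ∧ f2 = f ∧ f3 = 0) ∨
      (f1 = 0 ∧ f2 = 0 ∧ f3 = f)) ∧ u = r ^ f1 * u' ∧ v = r ^ f2 * v' ∧ t = r ^ f3 * t' ∧
      u' * v' * t' = X := by
  have hr0 : r ^ f ≠ 0 := pow_ne_zero _ hr.ne_zero
  have h1 : r ∣ u * v * t := by rw [h]; exact Dvd.dvd.mul_right (dvd_pow_self _ hf) _
  have key : ∀ a b : ℤ, IsCoprime a b → r ∣ a → ¬ r ∣ b :=
    fun a b hab ha hb => hr.not_isUnit (hab.isUnit_of_dvd' ha hb)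
  rcases hr.dvd_or_dvd h1 with h2 | h2
  · rcases hr.dvd_or_dvd h2 with h3 | h3
    · have h4 : ¬ r ∣ v * t := fun h5 => (hr.dvd_or_dvd h5).elim (key _ _ huv h3) (key _ _ hut h3)
      have h5 : r ^ f ∣ u := by
        apply hr.pow_dvd_of_dvd_mul_right f h4
        rw [← mul_assoc, h]; exact dvd_mul_right _ _
      obtain ⟨u', hu'⟩ := h5
      refine ⟨f, 0, 0, u', v, t, Or.inl ⟨rfl, rfl, rfl⟩, hu', by ring, by ring, ?_⟩
      apply mul_left_cancel₀ hr0
      rw [← h, hu']; ring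
    · have h4 : ¬ r ∣ u * t :=
        fun h5 => (hr.dvd_or_dvd h5).elim (key _ _ huv.symm h3) (key _ _ hvt h3)
      have h5 : r ^ f ∣ v := by
        apply hr.pow_dvd_of_dvd_mul_right f h4
        rw [show v * (u * t) = u * v * t by ring, h]; exact dvd_mul_right _ _
      obtain ⟨v', hv'⟩ := h5
      refine ⟨0, f, 0, u, v', t, Or.inr (Or.inl ⟨rfl, rfl, rfl⟩), by ring, hv', by ring, ?_⟩
      apply mul_left_cancel₀ hr0
      rw [← h, hv']; ring
  · have h4 : ¬ r ∣ u * v :=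
      fun h5 => (hr.dvd_or_dvd h5).elim (key _ _ hut.symm h2) (key _ _ hvt.symm h2)
    have h5 : r ^ f ∣ t := by
      apply hr.pow_dvd_of_dvd_mul_right f h4
      rw [show t * (u * v) = u * v * t by ring, h]; exact dvd_mul_right _ _
    obtain ⟨t', ht'⟩ := h5
    refine ⟨0, 0, f, u, v, t', Or.inr (Or.inr ⟨rfl, rfl, rfl⟩), by ring, by ring, ht', ?_⟩
    apply mul_left_cancel₀ hr0
    rw [← h, ht']; ring

namespace FData

variable {ι : Type*} [Fintype ι] [DecidableEq ι] (D : FData ι)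

variable {r f : ℕ} {C0 : ℤ} (y L : ι → ZMod 3)

theorem qstep2 (hr : r.Prime) (hr3 : r % 3 = 2) (hrp : ∀ i, D.p i ≠ r) (hC0 : C0 ≠ 0)
    (hf : f = 1 ∨ f = 2) (hCp : ∀ i, ¬ (D.p i : ℤ) ∣ C0)
    (hy : ∀ i, sym (D.π i) ((C0 * (r : ℤ) ^ f : ℤ) : Eis) = y i)
    (hL : ∀ i, sym (D.π i) (r : Eis) = L i)
    (hR : (D.NN y L (wq r)).det ≠ 0) {u v t s : ℤ} (huv : IsCoprime u v)
    (hut : IsCoprime u t) (hvt : IsCoprime v t) (hsum : u + v + t = 0)
    (hprod : u * v * t = (C0 * (r : ℤ) ^ f * D.P univ) * s ^ 3) (hCt : C0 ∣ t)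
    (h3 : ∀ d1 d2 d3 a b c : ℤ, ¬ (3 : ℤ) ∣ d1 → ¬ (3 : ℤ) ∣ d2 → u = d1 * a ^ 3 →
      v = d2 * b ^ 3 → t = C0 * d3 * c ^ 3 → d1 * d2 * d3 = (r : ℤ) ^ f * D.P univ →
      wq d1 = wq d2) :
    ∃ a b c : ℤ, a ^ 3 + b ^ 3 = (C0 * (r : ℤ) ^ f * D.P univ) * c ^ 3 ∧
      s.natAbs = a.natAbs * b.natAbs * c.natAbs := by
  have hri : Prime (r : ℤ) := Nat.prime_iff_prime_int.mp hr
  have hf0 : f ≠ 0 := by omega
  have h3r : ¬ (3 : ℤ) ∣ (r : ℤ) := by omega
  obtain ⟨t0, ht0⟩ := hCt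
  have ht0d : t0 ∣ t := ⟨C0, by rw [ht0]; ring⟩
  obtain ⟨f1, f2, f3, u', v', t', hff, hu', hv', ht', hX⟩ := inert_split hri hf0 huv
    (hut.of_isCoprime_of_dvd_right ht0d) (hvt.of_isCoprime_of_dvd_right ht0d)
    (X := D.P univ * s ^ 3) (by
      apply mul_left_cancel₀ hC0
      rw [ht0] at hprod
      linear_combination hprod)
  have hu'd : u' ∣ u := ⟨(r : ℤ) ^ f1, by rw [hu']; ring⟩
  have hv'd : v' ∣ v := ⟨(r : ℤ) ^ f2, by rw [hv']; ring⟩
  have ht'd0 : t' ∣ t0 := ⟨(r : ℤ) ^ f3, by rw [ht']; ring⟩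
  have ht'd : t' ∣ t := ht'd0.trans ht0d
  obtain ⟨J1, J2, J3, h12, h13, h23, hU, a, b, c, ha, hb, hc, hs⟩ := D.three_split
    ((huv.of_isCoprime_of_dvd_left hu'd).of_isCoprime_of_dvd_right hv'd)
    ((hut.of_isCoprime_of_dvd_left hu'd).of_isCoprime_of_dvd_right ht'd)
    ((hvt.of_isCoprime_of_dvd_left hv'd).of_isCoprime_of_dvd_right ht'd) hX
  have hpr : ∀ i (k : ℕ), ¬ (D.p i : ℤ) ∣ (r : ℤ) ^ k := by
    intro i k h
    have := (D.prime_int i).dvd_of_dvd_pow h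
    rw [Int.natCast_dvd_natCast, Nat.prime_dvd_prime_iff_eq (D.hp i) hr] at this
    exact hrp i this
  have hmem : ∀ i, i ∈ J1 ∨ i ∈ J2 ∨ i ∈ J3 := by
    intro i
    have : i ∈ J1 ∪ J2 ∪ J3 := by rw [hU]; exact mem_univ i
    simp only [mem_union] at this
    tauto
  have hdu : ∀ i ∈ J1, (D.p i : ℤ) ∣ u := fun i hi => by
    rw [hu', ha]; exact Dvd.dvd.mul_left (Dvd.dvd.mul_right (D.dvd_P hi) _) _
  have hdv : ∀ i ∈ J2, (D.p i : ℤ) ∣ v := fun i hi => by
    rw [hv', hb]; exact Dvd.dvd.mul_left (Dvd.dvd.mul_right (D.dvd_P hi) _) _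
  have hdt : ∀ i ∈ J3, (D.p i : ℤ) ∣ t := fun i hi => by
    rw [ht0, ht', hc]
    exact Dvd.dvd.mul_left (Dvd.dvd.mul_left (Dvd.dvd.mul_right (D.dvd_P hi) _) _) _
  have hna : ∀ i, i ∉ J1 → ¬ (D.p i : ℤ) ∣ a := by
    intro i hi h
    have h5 : (D.p i : ℤ) ∣ u := by
      rw [hu', ha]; exact Dvd.dvd.mul_left (Dvd.dvd.mul_left (Dvd.dvd.pow h (by norm_num)) _) _
    rcases hmem i with h6 | h6 | h6
    · exact hi h6
    · exact (D.prime_int i).not_isUnit (huv.isUnit_of_dvd' h5 (hdv i h6))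
    · exact (D.prime_int i).not_isUnit (hut.isUnit_of_dvd' h5 (hdt i h6))
  have hnb : ∀ i, i ∉ J2 → ¬ (D.p i : ℤ) ∣ b := by
    intro i hi h
    have h5 : (D.p i : ℤ) ∣ v := by
      rw [hv', hb]; exact Dvd.dvd.mul_left (Dvd.dvd.mul_left (Dvd.dvd.pow h (by norm_num)) _) _
    rcases hmem i with h6 | h6 | h6
    · exact (D.prime_int i).not_isUnit (huv.isUnit_of_dvd' (hdu i h6) h5)
    · exact hi h6
    · exact (D.prime_int i).not_isUnit (hvt.isUnit_of_dvd' h5 (hdt i h6))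
  have hnc : ∀ i, i ∉ J3 → ¬ (D.p i : ℤ) ∣ c := by
    intro i hi h
    have h5 : (D.p i : ℤ) ∣ t := by
      rw [ht0, ht', hc]
      exact Dvd.dvd.mul_left (Dvd.dvd.mul_left (Dvd.dvd.mul_left
        (Dvd.dvd.pow h (by norm_num)) _) _) _
    rcases hmem i with h6 | h6 | h6
    · exact (D.prime_int i).not_isUnit (hut.isUnit_of_dvd' (hdu i h6) h5)
    · exact (D.prime_int i).not_isUnit (hvt.isUnit_of_dvd' (hdv i h6) h5)
    · exact hi h6
  have hn3 : ∀ i (x : ℤ), ¬ (D.p i : ℤ) ∣ x → ¬ (D.p i : ℤ) ∣ x ^ 3 :=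
    fun i x h h' => h ((D.prime_int i).dvd_of_dvd_pow h')
  have hs3 : ∀ i (x : ℤ), ¬ (D.p i : ℤ) ∣ x → sym (D.π i) ((x ^ 3 : ℤ) : Eis) = 0 := by
    intro i x hx
    rw [Int.cast_pow]
    exact sym_cube (D.pr i) (D.n3 i) (by rwa [D.dvd_int])
  have hrn : ∀ i, ¬ D.π i ∣ (r : Eis) := by
    intro i h
    have h1 := D.dvd_int i (s := (r : ℤ))
    rw [Int.cast_natCast] at h1
    rw [h1] at h
    exact hpr i 1 (by rwa [pow_one])
  have hsr : ∀ i (k : ℕ) (x : ℤ), ¬ (D.p i : ℤ) ∣ x →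
      sym (D.π i) (((r : ℤ) ^ k * x ^ 3 : ℤ) : Eis) = (k : ZMod 3) * L i := by
    intro i k x hx
    rw [Int.cast_mul, sym_mul (D.pr i) (D.n3 i) (by rw [D.dvd_int]; exact hpr i k)
      (by rw [D.dvd_int]; exact hn3 i x hx), hs3 i x hx, add_zero, Int.cast_pow,
      Int.cast_natCast, sym_pow (D.pr i) (D.n3 i) (hrn i), hL i]
  have hfsum : (f1 : ZMod 3) + f2 + f3 = f := by
    rcases hff with ⟨h1, h2, h3⟩ | ⟨h1, h2, h3⟩ | ⟨h1, h2, h3⟩ <;> rw [h1, h2, h3] <;> simp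
  have hres := D.qside h12 h13 h23 hU (u0 := (r : ℤ) ^ f1 * a ^ 3) (v0 := (r : ℤ) ^ f2 * b ^ 3)
    (t0 := C0 * ((r : ℤ) ^ f3 * c ^ 3))
    y (fun i => (f1 : ZMod 3) * L i) (fun i => (f2 : ZMod 3) * L i)
    (fun i hi h => ((D.prime_int i).dvd_or_dvd h).elim (hpr i f1) (hn3 i a (hna i hi)))
    (fun i hi h => ((D.prime_int i).dvd_or_dvd h).elim (hpr i f2) (hn3 i b (hnb i hi)))
    (fun i hi h => ((D.prime_int i).dvd_or_dvd h).elim (hCp i)
      (fun h => ((D.prime_int i).dvd_or_dvd h).elim (hpr i f3) (hn3 i c (hnc i hi))))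
    (fun i hi => by
      have e1 : ¬ D.π i ∣ (((r : ℤ) ^ f3 * c ^ 3 : ℤ) : Eis) := by
        rw [D.dvd_int]
        exact fun h => ((D.prime_int i).dvd_or_dvd h).elim (hpr i f3) (hn3 i c (hnc i hi))
      have e2 : ¬ D.π i ∣ (((r : ℤ) ^ f : ℤ) : Eis) := by rw [D.dvd_int]; exact hpr i f
      have e3 : ¬ D.π i ∣ (C0 : Eis) := by rw [D.dvd_int]; exact hCp i
      have h4 := hy i
      rw [Int.cast_mul, sym_mul (D.pr i) (D.n3 i) e3 e2, Int.cast_pow, Int.cast_natCast,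
        sym_pow (D.pr i) (D.n3 i) (hrn i), hL i] at h4
      rw [Int.cast_mul, sym_mul (D.pr i) (D.n3 i) e3 e1, hsr i f3 c (hnc i hi), ← h4, ← hfsum]
      ring)
    (fun i hi => hsr i f1 a (hna i hi)) (fun i hi => hsr i f2 b (hnb i hi)) (by
      rw [hu', hv', ht0, ht', ha, hb, hc] at hsum
      rw [P, P, P] at hsum
      linear_combination hsum)
  have hrow3 := h3 ((r : ℤ) ^ f1 * D.P J1) ((r : ℤ) ^ f2 * D.P J2) ((r : ℤ) ^ f3 * D.P J3) a b c
    (fun h => (Int.prime_three.dvd_or_dvd h).elim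
      (fun h => h3r (Int.prime_three.dvd_of_dvd_pow h)) (D.three_not_dvd_P J1))
    (fun h => (Int.prime_three.dvd_or_dvd h).elim
      (fun h => h3r (Int.prime_three.dvd_of_dvd_pow h)) (D.three_not_dvd_P J2))
    (by rw [hu', ha]; ring) (by rw [hv', hb]; ring) (by rw [ht0, ht', hc]; ring) (by
      have e1 : D.P J1 * D.P J2 * D.P J3 = D.P univ := by
        rw [← hU, P, P, P, P, prod_union (disjoint_union_left.mpr ⟨h13, h23⟩), prod_union h12]
      have e2 : (r : ℤ) ^ f1 * (r : ℤ) ^ f2 * (r : ℤ) ^ f3 = (r : ℤ) ^ f := by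
        rw [← pow_add, ← pow_add]
        congr 1
        omega
      rw [← e1, ← e2]; ring)
  have hrk : ∀ k : ℕ, ¬ (3 : ℤ) ∣ (r : ℤ) ^ k := fun k h => h3r (Int.prime_three.dvd_of_dvd_pow h)
  rw [wq_mul (hrk f1) (D.three_not_dvd_P J1), wq_mul (hrk f2) (D.three_not_dvd_P J2),
    wq_pow h3r, wq_pow h3r, D.wq_P, D.wq_P] at hrow3
  obtain ⟨hv0, hm0⟩ := D.NN_q hR (v := D.vec J1 J2) (m := (f1 : ZMod 3) - f2) (fun i => by
    rw [hres i]; ring) (by
    rw [D.sum_vec h12]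
    linear_combination hrow3)
  obtain ⟨e1, e2⟩ := D.vec_eq_zero h12 hv0
  subst e1 e2
  have e3 : J3 = univ := by simpa using hU
  subst e3
  have e0 : D.P ∅ = 1 := by rw [P, prod_empty]
  have hff3 : f1 = 0 ∧ f2 = 0 ∧ f3 = f := by
    rcases hff with ⟨h1, h2, h3⟩ | ⟨h1, h2, h3⟩ | ⟨h1, h2, h3⟩
    · rw [h1, h2] at hm0
      rcases hf with h | h <;> rw [h] at hm0 <;> exact absurd hm0 (by decide)
    · rw [h1, h2] at hm0
      rcases hf with h | h <;> rw [h] at hm0 <;> exact absurd hm0 (by decide)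
    · exact ⟨h1, h2, h3⟩
  obtain ⟨g1, g2, g3⟩ := hff3
  rw [e0, one_mul] at ha hb
  rw [g1, pow_zero, one_mul] at hu'
  rw [g2, pow_zero, one_mul] at hv'
  rw [g3] at ht'
  refine ⟨a, b, -c, ?_, ?_⟩
  · rw [hu', hv', ha, hb, ht0, ht', hc] at hsum
    linear_combination hsum
  · rw [hs, Int.natAbs_mul, Int.natAbs_mul, Int.natAbs_neg]

end FData

end Pool.Agent.Lib_helper18

end

section

set_option linter.unusedSectionVars false

/-!
# The descents for two inert primes, and for `9` times one inert prime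
-/

namespace Pool.Agent.Lib_helper18

open Finset Eis Matrix

/-- infinite descent -/
theorem no_solution {A : ℤ} (hA0 : A ≠ 0) (hcf : ∀ r : ℤ, Prime r → ¬ r ^ 3 ∣ A)
    (hstep : ∀ x y z : ℤ, z ≠ 0 → IsCoprime x y → x ^ 3 + y ^ 3 = A * z ^ 3 →
      ∃ a b c : ℤ, c ≠ 0 ∧ a ^ 3 + b ^ 3 = A * c ^ 3 ∧ c.natAbs < z.natAbs) :
    ∀ (n : ℕ) (x y z : ℤ), z.natAbs = n → z ≠ 0 → x ^ 3 + y ^ 3 = A * z ^ 3 → False := by
  intro n
  induction n using Nat.strong_induction_on with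
  | _ n ih =>
  intro x y z hzn hz0 hxyz
  by_cases hco : IsCoprime x y
  swap
  · have hx0y0 : ¬ (x = 0 ∧ y = 0) := by
      rintro ⟨rfl, rfl⟩
      have : A * z ^ 3 = 0 := by rw [← hxyz]; ring
      rcases mul_eq_zero.mp this with h | h
      · exact hA0 h
      · exact hz0 (pow_eq_zero_iff (by norm_num) |>.mp h)
    have : ∃ r : ℤ, Prime r ∧ r ∣ x ∧ r ∣ y := by
      by_contra hcon
      push Not at hcon
      exact hco (isCoprime_of_prime_dvd hx0y0 (fun q hq hqx => hcon q hq hqx))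
    obtain ⟨r, hr, ⟨x', hx'⟩, ⟨y', hy'⟩⟩ := this
    have hr3 : r ^ 3 ∣ A * z ^ 3 := ⟨x' ^ 3 + y' ^ 3, by rw [← hxyz, hx', hy']; ring⟩
    have hrz : r ∣ z := by
      by_contra hrz
      exact hcf r hr (hr.pow_dvd_of_dvd_mul_right 3 (fun h => hrz (hr.dvd_of_dvd_pow h)) hr3)
    obtain ⟨z', hz'⟩ := hrz
    have hz'0 : z' ≠ 0 := by rintro rfl; simp at hz'; exact hz0 hz'
    have hlt : z'.natAbs < n := by
      rw [← hzn, hz', Int.natAbs_mul]
      have h1 : 1 < r.natAbs := by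
        have := hr.not_isUnit
        rw [Int.isUnit_iff_natAbs_eq] at this
        have h2 : r.natAbs ≠ 0 := Int.natAbs_ne_zero.mpr hr.ne_zero
        omega
      have h2 : 0 < z'.natAbs := Int.natAbs_pos.mpr hz'0
      nlinarith
    refine ih _ hlt x' y' z' rfl hz'0 ?_
    have hr30 : r ^ 3 ≠ 0 := pow_ne_zero _ hr.ne_zero
    apply mul_left_cancel₀ hr30
    rw [hx', hy', hz'] at hxyz
    linear_combination hxyz
  · obtain ⟨a, b, c, hc0, habc, hlt⟩ := hstep x y z hz0 hco hxyz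
    exact ih _ (by rw [← hzn]; exact hlt) a b c rfl hc0 habc

theorem natAbs_lt_of {a b c s t z : ℤ} (hz : z = 3 * (t * s)) (hs : s.natAbs = a.natAbs * b.natAbs * c.natAbs)
    (hz0 : z ≠ 0) : c ≠ 0 ∧ c.natAbs < z.natAbs := by
  have hs0 : s ≠ 0 := by rintro rfl; simp at hz; exact hz0 hz
  have ht0 : t ≠ 0 := by rintro rfl; simp at hz; exact hz0 hz
  have hc0 : c ≠ 0 := by rintro rfl; simp at hs; exact hs0 hs
  have ha0 : a ≠ 0 := by rintro rfl; simp at hs; exact hs0 hs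
  have hb0 : b ≠ 0 := by rintro rfl; simp at hs; exact hs0 hs
  refine ⟨hc0, ?_⟩
  have h1 : z.natAbs = 3 * (t.natAbs * s.natAbs) := by
    rw [hz, Int.natAbs_mul, Int.natAbs_mul]; rfl
  have ha1 : 1 ≤ a.natAbs := Int.natAbs_pos.mpr ha0
  have hb1 : 1 ≤ b.natAbs := Int.natAbs_pos.mpr hb0
  have hc1 : 1 ≤ c.natAbs := Int.natAbs_pos.mpr hc0
  have ht1 : 1 ≤ t.natAbs := Int.natAbs_pos.mpr ht0
  have h2 : c.natAbs ≤ s.natAbs := by
    rw [hs]
    calc c.natAbs = 1 * 1 * c.natAbs := by ring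
      _ ≤ a.natAbs * b.natAbs * c.natAbs := by gcongr
  have h3 : s.natAbs ≤ t.natAbs * s.natAbs := by
    calc s.natAbs = 1 * s.natAbs := by ring
      _ ≤ t.natAbs * s.natAbs := by gcongr
  omega

/-- the weights of the three terms agree when `A = ±1 mod 9` -/
theorem row3_one {A u v t s : ℤ} (hA : A % 9 = 1 ∨ A % 9 = 8) (huv : IsCoprime u v)
    (hut : IsCoprime u t) (hvt : IsCoprime v t) (hsum : u + v + t = 0)
    (hprod : u * v * t = A * s ^ 3) {d1 d2 d3 a b c : ℤ} (h1 : ¬ (3 : ℤ) ∣ d1)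
    (h2 : ¬ (3 : ℤ) ∣ d2) (hu : u = d1 * a ^ 3) (hv : v = d2 * b ^ 3) (ht : t = d3 * c ^ 3)
    (hd : d1 * d2 * d3 = A) : wq d1 = wq d2 := by
  have h3A : ¬ (3 : ℤ) ∣ A := by omega
  have h3d : ¬ (3 : ℤ) ∣ d3 := fun h => h3A (by rw [← hd]; exact Dvd.dvd.mul_left h _)
  have hwA : wq d1 + wq d2 + wq d3 = 0 := by
    have h12 : ¬ (3 : ℤ) ∣ d1 * d2 := fun h => (Int.prime_three.dvd_or_dvd h).elim h1 h2
    rw [← wq_mul h1 h2, ← wq_mul h12 h3d, hd, wq, if_pos hA]
  have h3s : (3 : ℤ) ∣ s := by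
    by_contra h3s
    have hs9 := cube_mod_nine_int h3s
    have h9 : (u * v * t) % 9 = 1 ∨ (u * v * t) % 9 = 8 := by
      rw [hprod, Int.mul_emod]
      rcases hA with h | h <;> rcases hs9 with h' | h' <;> rw [h, h'] <;> norm_num
    have ht' : t = -u - v := by linarith
    have key : ∀ a b : ZMod 9, a * b * (-a - b) ≠ 1 ∧ a * b * (-a - b) ≠ 8 := by decide
    have hk := key u v
    rcases h9 with h | h
    · apply hk.1
      have h5 : ((u * v * t : ℤ) : ZMod 9) = ((1 : ℤ) : ZMod 9) := by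
        rw [ZMod.intCast_eq_intCast_iff']; exact h
      rw [ht'] at h5
      push_cast at h5
      exact h5
    · apply hk.2
      have h5 : ((u * v * t : ℤ) : ZMod 9) = ((8 : ℤ) : ZMod 9) := by
        rw [ZMod.intCast_eq_intCast_iff']; exact h
      rw [ht'] at h5
      push_cast at h5
      exact h5
  have h27 : (3 : ℤ) ^ 3 ∣ u * v * t := by
    rw [hprod]
    exact Dvd.dvd.mul_left (pow_dvd_pow_of_dvd h3s 3) _
  have h3 : (3 : ℤ) ∣ u * v * t := (dvd_pow_self _ (by norm_num)).trans h27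
  have key : ∀ a b : ℤ, IsCoprime a b → (3 : ℤ) ∣ a → ¬ (3 : ℤ) ∣ b :=
    fun a b hab ha hb => Int.prime_three.not_isUnit (hab.isUnit_of_dvd' ha hb)
  have h9of : ∀ a : ℤ, (3 : ℤ) ^ 3 ∣ a → (9 : ℤ) ∣ a := by
    intro a h
    norm_num at h
    omega
  have hcube : ∀ d x : ℤ, ¬ (3 : ℤ) ∣ d → ¬ (3 : ℤ) ∣ d * x ^ 3 → wq (d * x ^ 3) = wq d := by
    intro d x hd hdx
    have hx : ¬ (3 : ℤ) ∣ x := fun h => hdx (Dvd.dvd.mul_left (Dvd.dvd.pow h (by norm_num)) _)
    have hx3 : ¬ (3 : ℤ) ∣ x ^ 3 := fun h => hx (Int.prime_three.dvd_of_dvd_pow h)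
    rw [wq_mul hd hx3, wq_cube hx, add_zero]
  have h30 : (3 : ZMod 3) = 0 := by decide
  rcases Int.prime_three.dvd_or_dvd h3 with h | h
  · rcases Int.prime_three.dvd_or_dvd h with h | h
    · have n1 := key _ _ huv h
      have n2 := key _ _ hut h
      have h5 : (9 : ℤ) ∣ u := h9of _ (Int.prime_three.pow_dvd_of_dvd_mul_right 3
        (fun h => (Int.prime_three.dvd_or_dvd h).elim n1 n2) (by rw [← mul_assoc]; exact h27))
      have h6 : wq v = wq t := wq_of_add (by omega)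
      rw [hv, ht] at h6
      rw [hcube _ _ h2 (by rw [← hv]; exact n1), hcube _ _ h3d (by rw [← ht]; exact n2)] at h6
      linear_combination hwA + h6 - wq d2 * h30
    · have n1 := key _ _ huv.symm h
      have n2 := key _ _ hvt h
      have h5 : (9 : ℤ) ∣ v := h9of _ (Int.prime_three.pow_dvd_of_dvd_mul_right 3
        (a := v) (b := u * t)
        (fun h => (Int.prime_three.dvd_or_dvd h).elim n1 n2)
        (by rw [show v * (u * t) = u * v * t by ring]; exact h27))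
      have h6 : wq u = wq t := wq_of_add (by omega)
      rw [hu, ht] at h6
      rw [hcube _ _ h1 (by rw [← hu]; exact n1), hcube _ _ h3d (by rw [← ht]; exact n2)] at h6
      linear_combination -hwA - h6 + wq d1 * h30
  · have n1 := key _ _ hut.symm h
    have n2 := key _ _ hvt.symm h
    have h5 : (9 : ℤ) ∣ t := h9of _ (Int.prime_three.pow_dvd_of_dvd_mul_right 3
        (a := t) (b := u * v)
        (fun h => (Int.prime_three.dvd_or_dvd h).elim n1 n2)
        (by rw [show t * (u * v) = u * v * t by ring]; exact h27))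
    have h6 : wq u = wq v := wq_of_add (by omega)
    rw [hu, hv] at h6
    rw [hcube _ _ h1 (by rw [← hu]; exact n1), hcube _ _ h2 (by rw [← hv]; exact n2)] at h6
    exact h6

/-- data when `3` does not divide `z` and `A = ±1 mod 9` -/
theorem caseB1_data {A x y z : ℤ} (hco : IsCoprime x y) (h3z : ¬ (3 : ℤ) ∣ z)
    (hA : A % 9 = 1 ∨ A % 9 = 8) (hxyz : x ^ 3 + y ^ 3 = A * z ^ 3) :
    ∃ η : Eis, Prim η ∧ IsCoprime η (conj η) ∧
      w * η + w ^ 2 * conj η = -((x + y : ℤ) : Eis) ∧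
      IsCoprime (x + y) η.norm ∧ (x + y) * η.norm = A * z ^ 3 := by
  -- one of `x`, `y` is divisible by `3`
  have hno3 : ¬ ((3 : ℤ) ∣ x ∧ (3 : ℤ) ∣ y) := by
    rintro ⟨h1, h2⟩
    exact Int.prime_three.not_isUnit (hco.isUnit_of_dvd' h1 h2)
  have main : ∀ x y : ℤ, IsCoprime x y → x ^ 3 + y ^ 3 = A * z ^ 3 → (3 : ℤ) ∣ y →
      ¬ (3 : ℤ) ∣ x → ∃ η : Eis, Prim η ∧ IsCoprime η (conj η) ∧
      w * η + w ^ 2 * conj η = -((x + y : ℤ) : Eis) ∧
      IsCoprime (x + y) η.norm ∧ (x + y) * η.norm = A * z ^ 3 := by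
    intro x y hco hxyz h3y h3x
    have hprim : Prim (⟨x, y⟩ : Eis) := ⟨h3y, h3x⟩
    refine ⟨⟨x, y⟩, hprim, ?_, ?_, ?_, ?_⟩
    · apply isCoprime_of_prime_dvd
      · rintro ⟨h, -⟩
        exact hprim.not_lam_dvd (by rw [h]; exact dvd_zero _)
      · intro l hl h1 h2
        have h6 := coprime_xi hco hl h1 h2
        exact hprim.not_lam_dvd (h6.symm.dvd.trans h1)
    · ext
      · simp only [w_sq, add_re, mul_re, mul_im, sub_re, sub_im, neg_re, neg_im, one_re, one_im,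
          w_re, w_im, conj_re, conj_im, intCast_re]; ring
      · simp only [w_sq, add_im, mul_re, mul_im, sub_re, sub_im, neg_re, neg_im, one_re, one_im,
          w_re, w_im, conj_re, conj_im, intCast_im]; ring
    · have hS3 : IsCoprime (x + y) 3 := by
        rw [isCoprime_comm, Int.prime_three.irreducible.coprime_iff_not_dvd]
        omega
      have h4 : IsCoprime (x + y) (3 * (x * y)) := hS3.mul_right (coprime_sum hco)
      have hnorm : (⟨x, y⟩ : Eis).norm = (x + y) * (x + y) + -(3 * (x * y)) := by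
        rw [norm_def]; ring
      rw [hnorm]
      exact (IsCoprime.mul_add_left_right h4.neg_right (x + y))
    · rw [← hxyz, norm_def]; ring
  have h9 : (x ^ 3 % 9 + y ^ 3 % 9) % 9 = (A % 9) * (z ^ 3 % 9) % 9 := by
    rw [← Int.add_emod, ← Int.mul_emod, hxyz]
  have hz := cube_mod_nine_int h3z
  by_cases h3y : (3 : ℤ) ∣ y
  · exact main x y hco hxyz h3y (fun h => hno3 ⟨h, h3y⟩)
  · by_cases h3x : (3 : ℤ) ∣ x
    · obtain ⟨η, h1, h2, h4, h5, h6⟩ := main y x hco.symm (by rw [add_comm]; exact hxyz) h3x h3y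
      exact ⟨η, h1, h2, by rw [add_comm x y]; exact h4, by rw [add_comm x y]; exact h5,
        by rw [add_comm x y]; exact h6⟩
    · exfalso
      have h1 := cube_mod_nine_int h3x
      have h2 := cube_mod_nine_int h3y
      rcases h1 with h1 | h1 <;> rcases h2 with h2 | h2 <;> rcases hz with hz | hz <;>
        rcases hA with hA | hA <;> rw [h1, h2, hz, hA] at h9 <;> norm_num at h9

/-- data for `A = 9 B` -/
theorem caseC_data {B x y z : ℤ} (hco : IsCoprime x y) (hxyz : x ^ 3 + y ^ 3 = 9 * B * z ^ 3) :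
    ∃ (S0 : ℤ) (η : Eis), ¬ lam ∣ η ∧ IsCoprime η (conj η) ∧ η.im = S0 ∧
      η - conj η = r3 * (S0 : Eis) ∧ IsCoprime (9 * S0) η.norm ∧ S0 * η.norm = B * z ^ 3 := by
  have hcoxy := coprime_sum hco
  have hST : (x + y) * (⟨x, y⟩ : Eis).norm = 9 * B * z ^ 3 := by
    rw [← hxyz, norm_def]; ring
  have hno3 : ¬ ((3 : ℤ) ∣ x ∧ (3 : ℤ) ∣ y) := by
    rintro ⟨h1, h2⟩
    exact Int.prime_three.not_isUnit (hco.isUnit_of_dvd' h1 h2)
  have h3S : (3 : ℤ) ∣ x + y := by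
    have h1 : (3 : ℤ) ∣ x ^ 3 + y ^ 3 := by
      rw [hxyz]; exact ⟨3 * B * z ^ 3, by ring⟩
    have h2 : (3 : ℤ) ∣ (x ^ 3 + y ^ 3) - (x + y) := by
      have h4 : ∀ a : ℤ, (3 : ℤ) ∣ a ^ 3 - a := by
        intro a
        have : a % 3 = 0 ∨ a % 3 = 1 ∨ a % 3 = 2 := by omega
        apply Int.dvd_of_emod_eq_zero
        rcases this with h | h | h <;>
          simp [pow_succ, Int.sub_emod, Int.mul_emod, h]
      have := dvd_add (h4 x) (h4 y)
      have e5 : x ^ 3 - x + (y ^ 3 - y) = (x ^ 3 + y ^ 3) - (x + y) := by ring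
      rwa [e5] at this
    have := dvd_sub h1 h2
    simpa using this
  have h3y : ¬ (3 : ℤ) ∣ y := by
    intro h; exact hno3 ⟨by omega, h⟩
  have h3x : ¬ (3 : ℤ) ∣ x := by
    intro h; exact hno3 ⟨h, by omega⟩
  obtain ⟨S0, hS0⟩ := h3S
  have hT : (⟨x, y⟩ : Eis).norm = 3 * (3 * S0 ^ 2 - x * y) := by
    rw [norm_def]; simp only; linear_combination (x + y + 3 * S0) * hS0
  have h3T' : ¬ (3 : ℤ) ∣ 3 * S0 ^ 2 - x * y := by
    intro h
    have : (3 : ℤ) ∣ x * y := by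
      have h4 := dvd_sub (dvd_mul_right (3 : ℤ) (S0 ^ 2)) h
      have e5 : 3 * S0 ^ 2 - (3 * S0 ^ 2 - x * y) = x * y := by ring
      rwa [e5] at h4
    rcases Int.prime_three.dvd_or_dvd this with h | h
    · exact h3x h
    · exact h3y h
  have hST' : S0 * (3 * S0 ^ 2 - x * y) = B * z ^ 3 := by
    rw [hT, hS0] at hST
    have h9 : (9 : ℤ) ≠ 0 := by norm_num
    apply mul_left_cancel₀ h9
    linear_combination hST
  set η : Eis := ⟨-y + 2 * S0, S0⟩ with hη
  have hηlam : (⟨x, y⟩ : Eis) = lam * η := by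
    ext
    · simp only [hη, mul_re, lam_re, lam_im]; linarith
    · simp only [hη, mul_im, lam_re, lam_im]; ring
  have hηnorm : η.norm = 3 * S0 ^ 2 - x * y := by
    have h4 := congrArg Eis.norm hηlam
    rw [norm_mul, norm_lam, hT] at h4
    linarith
  have hnl : ¬ lam ∣ η := by
    rw [lam_dvd_iff_norm, hηnorm]; exact h3T'
  refine ⟨S0, η, hnl, ?_, rfl, ?_, ?_, by rw [hηnorm]; exact hST'⟩
  · apply isCoprime_of_prime_dvd
    · rintro ⟨h, -⟩
      exact hnl (by rw [h]; exact dvd_zero _)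
    · intro l hl h1 h2
      have h4 : l ∣ (⟨x, y⟩ : Eis) := by rw [hηlam]; exact Dvd.dvd.mul_left h1 _
      have h5 : l ∣ conj (⟨x, y⟩ : Eis) := by
        rw [hηlam, map_mul]; exact Dvd.dvd.mul_left h2 _
      have h6 := coprime_xi hco hl h4 h5
      exact hnl (h6.symm.dvd.trans h1)
  · rw [r3_eq, w_sq]
    ext
    · simp only [hη, mul_re, mul_im, sub_re, conj_re, sub_im, neg_re, neg_im, one_re,
        one_im, w_re, w_im, intCast_re, intCast_im]; ring
    · simp only [hη, mul_re, mul_im, sub_re, conj_im, sub_im, neg_re, neg_im, one_re,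
        one_im, w_re, w_im, intCast_re, intCast_im]; ring
  · have h4 : IsCoprime S0 (x * y) := hcoxy.of_isCoprime_of_dvd_left ⟨3, by rw [hS0]; ring⟩
    have h5 : η.norm = S0 * (3 * S0) + -(x * y) := by rw [hηnorm]; ring
    have h6 : IsCoprime S0 η.norm := by
      rw [h5]
      exact (IsCoprime.mul_add_left_right h4.neg_right (3 * S0))
    have h7 : IsCoprime (3 : ℤ) η.norm := by
      rw [Int.prime_three.irreducible.coprime_iff_not_dvd, hηnorm]
      exact h3T'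
    have h9 : (9 : ℤ) = 3 * 3 := by norm_num
    rw [h9]
    exact (h7.mul_left h7).mul_left h6

end Pool.Agent.Lib_helper18

end

section

set_option linter.unusedSectionVars false

/-!
# The two descents
-/

namespace Pool.Agent.Lib_helper18

open Finset Eis Matrix

namespace FData

variable {ι : Type*} [Fintype ι] [DecidableEq ι] (D : FData ι)

/-- cube-freeness -/
theorem dvd_A_cube2 {r0 r1 e0 e1 : ℕ} (h0 : r0.Prime) (h1 : r1.Prime) (h01 : r0 ≠ r1)
    (hp0 : ∀ i, D.p i ≠ r0) (hp1 : ∀ i, D.p i ≠ r1) (he0 : e0 ≤ 2) (he1 : e1 ≤ 2) (r : ℤ)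
    (hr : Prime r) : ¬ r ^ 3 ∣ (r0 : ℤ) ^ e0 * (r1 : ℤ) ^ e1 * D.P univ := by
  have h := cube_not_dvd_prod (κ := Option (Option ι))
    (fun k => k.elim r0 (fun k => k.elim r1 D.p)) (fun k => k.elim e0 (fun k => k.elim e1 D.e))
    (fun k => by
      rcases k with _ | _ | i
      · exact h0
      · exact h1
      · exact D.hp i)
    (fun k l hkl => by
      rcases k with _ | _ | i <;> rcases l with _ | _ | j
      · rfl
      · exact absurd hkl h01
      · exact absurd hkl.symm (hp0 j)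
      · exact absurd hkl.symm h01
      · rfl
      · exact absurd hkl.symm (hp1 j)
      · exact absurd hkl (hp0 i)
      · exact absurd hkl (hp1 i)
      · have := D.inj hkl
        rw [this])
    (fun k => by
      rcases k with _ | _ | i
      · exact he0
      · exact he1
      · rcases D.he i with h | h <;> simp [h])
    univ r hr
  rw [Fintype.prod_option, Fintype.prod_option, ← mul_assoc] at h
  exact h

theorem P_ne_zero (S : Finset ι) : D.P S ≠ 0 :=
  prod_ne_zero_iff.mpr (fun j _ => pow_ne_zero _ (D.prime_int j).ne_zero)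

theorem ne_of_mod {q : ℕ} (hq3 : q % 3 = 2) (i : ι) : D.p i ≠ q := fun h => by
  have := D.h3 i
  rw [h] at this
  omega

theorem not_dvd_pow_nat {q : ℕ} (hq : q.Prime) (hqp : ∀ i, D.p i ≠ q) (i : ι) (k : ℕ) :
    ¬ (D.p i : ℤ) ∣ (q : ℤ) ^ k := by
  intro h
  have := (D.prime_int i).dvd_of_dvd_pow h
  rw [Int.natCast_dvd_natCast, Nat.prime_dvd_prime_iff_eq (D.hp i) hq] at this
  exact hqp i this

theorem sym_w_i (i : ι) : sym (D.π i) w = wt (D.p i) := by
  rw [sym_w' (D.pr i) (D.n3 i), D.hπ i]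

theorem sym_w_r {r : ℕ} (hr : r.Prime) (hr3 : r % 3 = 2) : sym (r : Eis) w = -wq r := by
  rw [sym_w' (prime_inert hr hr3) (inert_n3 hr hr3), norm_natCast, wt_sq (by omega)]

theorem sym_w_pow {l : Eis} (hl : Prime l) (h3 : ¬ l ∣ 3) (k : ℕ) :
    sym l (w ^ k) = (k : ZMod 3) * sym l w :=
  sym_pow hl h3 (not_dvd_of_isUnit hl isUnit_w) k

/-- two inert primes, `A = ±1 mod 9` -/
theorem descent_two {q g r f : ℕ} (y L : ι → ZMod 3) (hq : q.Prime) (hq3 : q % 3 = 2)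
    (hg : g = 1 ∨ g = 2) (hr : r.Prime) (hr3 : r % 3 = 2) (hf : f = 1 ∨ f = 2) (hqr : q ≠ r)
    (hy : ∀ i, sym (D.π i) (((q : ℤ) ^ g * (r : ℤ) ^ f : ℤ) : Eis) = y i)
    (hL : ∀ i, sym (D.π i) (r : Eis) = L i) (hR : (D.NN y L (wq r)).det ≠ 0)
    (hA9 : ((q : ℤ) ^ g * (r : ℤ) ^ f * D.P univ) % 9 = 1 ∨
      ((q : ℤ) ^ g * (r : ℤ) ^ f * D.P univ) % 9 = 8) (x y' z : ℤ) (hz : z ≠ 0)
    (hxyz : x ^ 3 + y' ^ 3 = ((q : ℤ) ^ g * (r : ℤ) ^ f * D.P univ) * z ^ 3) : False := by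
  have hqp := D.ne_of_mod hq3
  have hrp := D.ne_of_mod hr3
  have hqi : Prime (q : ℤ) := Nat.prime_iff_prime_int.mp hq
  have hri : Prime (r : ℤ) := Nat.prime_iff_prime_int.mp hr
  have hC0 : (q : ℤ) ^ g ≠ 0 := pow_ne_zero _ hqi.ne_zero
  have hr0 : (r : ℤ) ^ f ≠ 0 := pow_ne_zero _ hri.ne_zero
  have hf0 : f ≠ 0 := by omega
  have hg0 : g ≠ 0 := by omega
  have hCp := D.not_dvd_pow_nat hq hqp (k := g)
  set A : ℤ := (q : ℤ) ^ g * (r : ℤ) ^ f * D.P univ with hA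
  have hA0 : A ≠ 0 := mul_ne_zero (mul_ne_zero hC0 hr0) (D.P_ne_zero _)
  have hqA : (q : ℤ) ∣ A := by
    rw [hA, mul_assoc]; exact Dvd.dvd.mul_right (dvd_pow_self _ hg0) _
  -- the rational side
  have hQ0 : ∀ {u v t s : ℤ}, IsCoprime u v → IsCoprime u t → IsCoprime v t → u + v + t = 0 →
      u * v * t = A * s ^ 3 → (q : ℤ) ∣ t → ∃ a b c : ℤ, a ^ 3 + b ^ 3 = A * c ^ 3 ∧
      s.natAbs = a.natAbs * b.natAbs * c.natAbs := by
    intro u v t s huv hut hvt hsum hprod hqt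
    have h1 : ¬ (q : ℤ) ∣ u * v := by
      intro h
      rcases hqi.dvd_or_dvd h with h | h
      · exact hqi.not_isUnit (hut.isUnit_of_dvd' h hqt)
      · exact hqi.not_isUnit (hvt.isUnit_of_dvd' h hqt)
    have h2 : (q : ℤ) ^ g ∣ t := by
      apply hqi.pow_dvd_of_dvd_mul_left g h1
      rw [hprod, hA, mul_assoc, mul_assoc]; exact dvd_mul_right _ _
    refine D.qstep2 y L hr hr3 hrp hC0 hf hCp hy hL hR huv hut hvt hsum hprod h2 ?_
    intro d1 d2 d3 a b c n1 n2 hu hv ht hd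
    exact row3_one hA9 huv hut hvt hsum hprod n1 n2 hu hv ht (by
      rw [hA, mul_assoc ((q : ℤ) ^ g), ← hd]; ring)
  have hQ : ∀ {u v t s : ℤ}, IsCoprime u v → IsCoprime u t → IsCoprime v t → u + v + t = 0 →
      u * v * t = A * s ^ 3 → ∃ a b c : ℤ, a ^ 3 + b ^ 3 = A * c ^ 3 ∧
      s.natAbs = a.natAbs * b.natAbs * c.natAbs := by
    intro u v t s huv hut hvt hsum hprod
    have h1 : (q : ℤ) ∣ u * v * t := by rw [hprod]; exact Dvd.dvd.mul_right hqA _
    rcases hqi.dvd_or_dvd h1 with h2 | h2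
    · rcases hqi.dvd_or_dvd h2 with h3 | h3
      · exact hQ0 hvt huv.symm hut.symm (by linarith) (by rw [← hprod]; ring) h3
      · exact hQ0 hut huv hvt.symm (by linarith) (by rw [← hprod]; ring) h3
    · exact hQ0 huv hut hvt hsum hprod h2
  refine no_solution hA0 (D.dvd_A_cube2 hq hr hqr hqp hrp (by omega) (by omega)) ?_ z.natAbs
    x y' z rfl hz hxyz
  intro x y' z hz hco hxyz
  have hP := prime_inert hr hr3
  have hrn3 := inert_n3 hr hr3
  have hcopS : ∀ {η : Eis} {S z : ℤ}, IsCoprime η (conj η) → S * η.norm = A * z ^ 3 →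
      (q : ℤ) ^ g ∣ S := by
    intro η S z hcop h
    apply hqi.pow_dvd_of_dvd_mul_right g (inert_not_dvd_norm hq hq3 hcop)
    rw [h, hA, mul_assoc, mul_assoc]; exact dvd_mul_right _ _
  by_cases h3z : (3 : ℤ) ∣ z
  · obtain ⟨z1, S, η, hz1, hηprim, hηcop, hηim, hηdiff, hcoS, hηS⟩ := caseA_data hco h3z hxyz
    obtain ⟨-, γ, s, t, hγ, hγ3, hS, hzt⟩ := D.kstep2 y L hr hr3 hrp hC0 hf0 hCp hy hL hR
      hηprim hηcop hcoS hηS (hcopS hηcop hηS) (α := 1) (β := -1) (κ := 3 * r3) (c := 0)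
      (fun i => not_dvd_of_isUnit (D.pr i) isUnit_one)
      (fun i => by
        rw [dvd_neg]; exact not_dvd_of_isUnit (D.pr i) isUnit_one)
      (fun i h => ((D.pr i).dvd_or_dvd h).elim (D.n3 i) (fun h => D.n3 i (r3_dvd (D.pr i) h)))
      (fun i => by rw [sym_one (D.pr i) (D.n3 i), zero_mul])
      (fun i => by rw [sym_neg_one (D.pr i) (D.n3 i), zero_mul, neg_zero])
      (fun i => by
        have e : 3 * r3 = (-r3) ^ 3 := by decide
        rw [e]
        exact sym_cube (D.pr i) (D.n3 i)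
          (by rw [dvd_neg]; exact fun h => D.n3 i (r3_dvd (D.pr i) h)))
      (not_dvd_of_isUnit hP isUnit_one)
      (by rw [dvd_neg]; exact not_dvd_of_isUnit hP isUnit_one)
      (by rw [sym_one hP hrn3, zero_mul, neg_zero])
      (by rw [sym_neg_one hP hrn3, zero_mul])
      (by rw [← hηdiff]; ring)
    obtain ⟨α, δ⟩ := γ
    have hcoad : IsCoprime α δ := coprime_coords rfl hγ3 (by rw [← hγ]; exact hηcop)
    have hprod : α * δ * (α - δ) = A * s ^ 3 := by
      have h6 := congrArg Eis.im hγ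
      simp only [pow_succ, pow_zero, one_mul, mul_im, mul_re] at h6
      rw [hηim] at h6
      rw [hA, ← hS]
      linarith
    have hc1 : IsCoprime α (δ - α) := by
      obtain ⟨u, v, huv⟩ := hcoad
      exact ⟨u + v, v, by linear_combination huv⟩
    have hc2 : IsCoprime (-δ) (δ - α) := by
      obtain ⟨u, v, huv⟩ := hcoad
      exact ⟨-(u + v), -u, by linear_combination huv⟩
    obtain ⟨a, b, c, habc, hsabc⟩ := hQ hcoad.neg_right hc1 hc2 (by ring)
      (by rw [← hprod]; ring)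
    obtain ⟨h1, h2⟩ := natAbs_lt_of (z := z) (s := s) (t := t) (by rw [hz1, hzt]) hsabc hz
    exact ⟨a, b, c, h1, habc, h2⟩
  · exfalso
    obtain ⟨η, hηprim, hηcop, hηrel, hcoS, hηS⟩ := caseB1_data hco h3z hA9 hxyz
    have h3 : (3 : ZMod 3) = 0 := by decide
    obtain ⟨hc, -⟩ := D.kstep2 y L hr hr3 hrp hC0 hf0 hCp hy hL hR
      hηprim hηcop hcoS hηS (hcopS hηcop hηS) (α := w) (β := w ^ 2) (κ := -1) (c := 1)
      (fun i => not_dvd_of_isUnit (D.pr i) isUnit_w)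
      (fun i => not_dvd_of_isUnit (D.pr i) (isUnit_w.pow 2))
      (fun i => by
        rw [dvd_neg]; exact not_dvd_of_isUnit (D.pr i) isUnit_one)
      (fun i => by rw [D.sym_w_i, one_mul])
      (fun i => by
        rw [sym_w_pow (D.pr i) (D.n3 i), D.sym_w_i]
        push_cast
        linear_combination (wt (D.p i)) * h3)
      (fun i => sym_neg_one (D.pr i) (D.n3 i))
      (not_dvd_of_isUnit hP isUnit_w)
      (not_dvd_of_isUnit hP (isUnit_w.pow 2))
      (by rw [sym_w_r hr hr3, one_mul])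
      (by
        rw [sym_w_pow hP hrn3, sym_w_r hr hr3]
        push_cast
        linear_combination (-(wq r)) * h3)
      (by rw [hηrel]; ring)
    exact absurd hc (by decide)

/-- `9` times one inert prime -/
theorem descent_nine {r f : ℕ} (y L : ι → ZMod 3) (hr : r.Prime) (hr3 : r % 3 = 2)
    (hf : f = 1 ∨ f = 2)
    (hy : ∀ i, sym (D.π i) (((9 : ℤ) * (r : ℤ) ^ f : ℤ) : Eis) = y i)
    (hL : ∀ i, sym (D.π i) (r : Eis) = L i) (hR : (D.NN y L (wq r)).det ≠ 0)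
    (x y' z : ℤ) (hz : z ≠ 0)
    (hxyz : x ^ 3 + y' ^ 3 = ((9 : ℤ) * (r : ℤ) ^ f * D.P univ) * z ^ 3) : False := by
  have hrp := D.ne_of_mod hr3
  have hri : Prime (r : ℤ) := Nat.prime_iff_prime_int.mp hr
  have hr0 : (r : ℤ) ^ f ≠ 0 := pow_ne_zero _ hri.ne_zero
  have hC0 : (9 : ℤ) ≠ 0 := by norm_num
  have hf0 : f ≠ 0 := by omega
  have h3p : ∀ i, D.p i ≠ 3 := fun i h => by
    have := D.h3 i
    rw [h] at this
    omega
  have hCp : ∀ i, ¬ (D.p i : ℤ) ∣ 9 := by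
    intro i h
    have h1 : (D.p i : ℤ) ∣ (3 : ℤ) ^ 2 := by norm_num; exact h
    have h2 := (D.prime_int i).dvd_of_dvd_pow h1
    have h3 : D.p i ∣ 3 := by exact_mod_cast h2
    exact h3p i ((Nat.prime_dvd_prime_iff_eq (D.hp i) Nat.prime_three).mp h3)
  have h3r : ¬ (3 : ℤ) ∣ (r : ℤ) ^ f := by
    intro h
    have := Int.prime_three.dvd_of_dvd_pow h
    omega
  set A : ℤ := (9 : ℤ) * (r : ℤ) ^ f * D.P univ with hA
  set B : ℤ := (r : ℤ) ^ f * D.P univ with hB
  have hAB : A = 9 * B := by rw [hA, hB]; ring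
  have h3B : ¬ (3 : ℤ) ∣ B := fun h =>
    (Int.prime_three.dvd_or_dvd h).elim h3r (D.three_not_dvd_P univ)
  have hA0 : A ≠ 0 := mul_ne_zero (mul_ne_zero hC0 hr0) (D.P_ne_zero _)
  have key3 : ∀ a b : ℤ, IsCoprime a b → (3 : ℤ) ∣ a → ¬ (3 : ℤ) ∣ b :=
    fun a b hab ha hb => Int.prime_three.not_isUnit (hab.isUnit_of_dvd' ha hb)
  have hQ0 : ∀ {u v t s : ℤ}, IsCoprime u v → IsCoprime u t → IsCoprime v t → u + v + t = 0 →
      u * v * t = A * s ^ 3 → (3 : ℤ) ∣ t → ∃ a b c : ℤ, a ^ 3 + b ^ 3 = A * c ^ 3 ∧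
      s.natAbs = a.natAbs * b.natAbs * c.natAbs := by
    intro u v t s huv hut hvt hsum hprod h3t
    have n1 := key3 _ _ hut.symm h3t
    have n2 := key3 _ _ hvt.symm h3t
    have h2 : (9 : ℤ) ∣ t := by
      have h9 : (9 : ℤ) = 3 ^ 2 := by norm_num
      rw [h9]
      apply Int.prime_three.pow_dvd_of_dvd_mul_left 2
        (fun h => (Int.prime_three.dvd_or_dvd h).elim n1 n2)
      rw [hprod, hA, ← h9, mul_assoc, mul_assoc]; exact dvd_mul_right _ _
    refine D.qstep2 y L hr hr3 hrp hC0 hf hCp hy hL hR huv hut hvt hsum hprod h2 ?_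
    intro d1 d2 d3 a b c m1 m2 hu hv ht hd
    have hcube : ∀ d x : ℤ, ¬ (3 : ℤ) ∣ d → ¬ (3 : ℤ) ∣ d * x ^ 3 → wq (d * x ^ 3) = wq d := by
      intro d x hd hdx
      have hx : ¬ (3 : ℤ) ∣ x := fun h => hdx (Dvd.dvd.mul_left (Dvd.dvd.pow h (by norm_num)) _)
      have hx3 : ¬ (3 : ℤ) ∣ x ^ 3 := fun h => hx (Int.prime_three.dvd_of_dvd_pow h)
      rw [wq_mul hd hx3, wq_cube hx, add_zero]
    have h6 : wq u = wq v := wq_of_add (by omega)
    rw [hu, hv] at h6
    rwa [hcube _ _ m1 (by rw [← hu]; exact n1), hcube _ _ m2 (by rw [← hv]; exact n2)] at h6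
  have hQ : ∀ {u v t s : ℤ}, IsCoprime u v → IsCoprime u t → IsCoprime v t → u + v + t = 0 →
      u * v * t = A * s ^ 3 → ∃ a b c : ℤ, a ^ 3 + b ^ 3 = A * c ^ 3 ∧
      s.natAbs = a.natAbs * b.natAbs * c.natAbs := by
    intro u v t s huv hut hvt hsum hprod
    have h1 : (3 : ℤ) ∣ u * v * t := by
      rw [hprod, hAB]; exact ⟨3 * B * s ^ 3, by ring⟩
    rcases Int.prime_three.dvd_or_dvd h1 with h2 | h2
    · rcases Int.prime_three.dvd_or_dvd h2 with h3 | h3
      · exact hQ0 hvt huv.symm hut.symm (by linarith) (by rw [← hprod]; ring) h3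
      · exact hQ0 hut huv hvt.symm (by linarith) (by rw [← hprod]; ring) h3
    · exact hQ0 huv hut hvt hsum hprod h2
  have hcf : ∀ x : ℤ, Prime x → ¬ x ^ 3 ∣ A := by
    have h := D.dvd_A_cube2 (r0 := 3) (r1 := r) (e0 := 2) (e1 := f) Nat.prime_three hr
      (by omega) h3p hrp (by norm_num) (by omega)
    intro x hx
    have := h x hx
    have e : ((3 : ℕ) : ℤ) ^ 2 = 9 := by norm_num
    rwa [e] at this
  refine no_solution hA0 hcf ?_ z.natAbs x y' z rfl hz hxyz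
  intro x y' z hz hco hxyz
  have hP := prime_inert hr hr3
  have hrn3 := inert_n3 hr hr3
  rw [hAB] at hxyz
  obtain ⟨S0, η0, hnl, hηcop0, him0, hdiff0, hcoS0, hηS0⟩ := caseC_data hco hxyz
  obtain ⟨i, hi⟩ := exists_prim hnl
  -- `η0 = η * w ^ (2 i)`
  set η : Eis := η0 * w ^ i with hη
  have hw3 : (w ^ i) * (w ^ (2 * i)) = 1 := by
    rw [← pow_add, show i + 2 * i = 3 * i by ring, pow_mul, w_cube, one_pow]
  have hη0 : η0 = w ^ (2 * i) * η := by
    rw [hη]; linear_combination (-η0) * hw3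
  have hη0c : conj η0 = w ^ i * conj η := by
    have h1 : conj η = conj η0 * w ^ (2 * i) := by
      rw [hη, map_mul, map_pow, conj_w, ← pow_mul]
    rw [h1]; linear_combination (-(conj η0)) * hw3
  have hηnorm : η.norm = η0.norm := by rw [hη, norm_mul, norm_pow, norm_w, one_pow, mul_one]
  have hηcop : IsCoprime η (conj η) := by
    have h1 : conj η = conj η0 * w ^ (2 * i) := by
      rw [hη, map_mul, map_pow, conj_w, ← pow_mul]
    rw [h1, hη]
    have h2 : IsCoprime (η0 * w ^ i) (conj η0) :=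
      (isCoprime_mul_unit_right_left (isUnit_w.pow i) _ _).mpr hηcop0
    exact (isCoprime_mul_unit_right_right (isUnit_w.pow (2 * i)) _ _).mpr h2
  have hw27 : ∀ {l : Eis}, Prime l → ¬ l ∣ 3 → ∀ k : ℕ,
      ¬ l ∣ 3 ^ 3 * w ^ k ∧ sym l (3 ^ 3 * w ^ k) = (k : ZMod 3) * sym l w := by
    intro l hl hl3 k
    have n1 : ¬ l ∣ (3 : Eis) ^ 3 := fun h => hl3 (hl.dvd_of_dvd_pow h)
    have n2 : ¬ l ∣ w ^ k := not_dvd_of_isUnit hl (isUnit_w.pow k)
    refine ⟨fun h => (hl.dvd_or_dvd h).elim n1 n2, ?_⟩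
    rw [sym_mul hl hl3 n1 n2, sym_cube hl hl3 hl3, zero_add, sym_w_pow hl hl3]
  have h3 : (3 : ZMod 3) = 0 := by decide
  obtain ⟨hc, γ, s, t, hγ, hγ3, hS, hzt⟩ := D.kstep2 y L hr hr3 hrp hC0 hf0 hCp hy hL hR
    (η := η) (S := 9 * S0) (z := z) hi hηcop (by rw [hηnorm]; exact hcoS0)
    (by rw [hηnorm]; show 9 * S0 * η0.norm = A * z ^ 3; rw [hAB]; linear_combination 9 * hηS0)
    (dvd_mul_right _ _)
    (α := 3 ^ 3 * w ^ (2 * i)) (β := -(3 ^ 3 * w ^ i)) (κ := 3 * r3)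
    (c := ((2 * i : ℕ) : ZMod 3))
    (fun j => (hw27 (D.pr j) (D.n3 j) _).1)
    (fun j => by rw [dvd_neg]; exact (hw27 (D.pr j) (D.n3 j) _).1)
    (fun i h => ((D.pr i).dvd_or_dvd h).elim (D.n3 i) (fun h => D.n3 i (r3_dvd (D.pr i) h)))
    (fun j => by rw [(hw27 (D.pr j) (D.n3 j) _).2, D.sym_w_i])
    (fun j => by
      rw [sym_neg (D.pr j) (D.n3 j) (hw27 (D.pr j) (D.n3 j) _).1, (hw27 (D.pr j) (D.n3 j) _).2,
        D.sym_w_i]
      push_cast
      linear_combination (i * wt (D.p j)) * h3)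
    (fun i => by
      have e : 3 * r3 = (-r3) ^ 3 := by decide
      rw [e]
      exact sym_cube (D.pr i) (D.n3 i)
        (by rw [dvd_neg]; exact fun h => D.n3 i (r3_dvd (D.pr i) h)))
    (hw27 hP hrn3 _).1
    (by rw [dvd_neg]; exact (hw27 hP hrn3 _).1)
    (by rw [(hw27 hP hrn3 _).2, sym_w_r hr hr3]; ring)
    (by
      rw [sym_neg hP hrn3 (hw27 hP hrn3 _).1, (hw27 hP hrn3 _).2, sym_w_r hr hr3]
      push_cast
      linear_combination (-(i * wq r)) * h3)
    (by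
      have h1 : 3 ^ 3 * w ^ (2 * i) * η + -(3 ^ 3 * w ^ i) * conj η =
          3 ^ 3 * (η0 - conj η0) := by
        linear_combination (-(3 ^ 3 : Eis)) * hη0 + 3 ^ 3 * hη0c
      rw [h1, hdiff0]
      push_cast
      ring)
  -- now `w ^ i = 1`
  have hi3 : 3 ∣ i := by
    rw [ZMod.natCast_eq_zero_iff] at hc
    omega
  have hwi : w ^ i = 1 := by
    obtain ⟨k, hk⟩ := hi3
    rw [hk, pow_mul, w_cube, one_pow]
  have hηη : η = η0 := by rw [hη, hwi, mul_one]
  have him : η.im = S0 := by rw [hηη]; exact him0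
  have h3S0 : (3 : ℤ) ∣ S0 := by rw [← him]; exact hi.1
  have hS' : S0 = B * s ^ 3 := by
    have h9 : (9 : ℤ) ≠ 0 := by norm_num
    apply mul_left_cancel₀ h9
    rw [hS, hB]; ring
  have h3s : (3 : ℤ) ∣ s := by
    rw [hS'] at h3S0
    exact Int.prime_three.dvd_of_dvd_pow ((Int.prime_three.dvd_or_dvd h3S0).resolve_left h3B)
  obtain ⟨s', hs'⟩ := h3s
  obtain ⟨α, δ⟩ := γ
  have hcoad : IsCoprime α δ := coprime_coords rfl hγ3 (by rw [← hγ]; exact hηcop)
  have hprod : α * δ * (α - δ) = A * s' ^ 3 := by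
    have h6 := congrArg Eis.im hγ
    simp only [pow_succ, pow_zero, one_mul, mul_im, mul_re] at h6
    rw [him, hS', hs'] at h6
    rw [hAB]
    have h3' : (3 : ℤ) ≠ 0 := by norm_num
    apply mul_left_cancel₀ h3'
    linear_combination -h6
  have hc1 : IsCoprime α (δ - α) := by
    obtain ⟨u, v, huv⟩ := hcoad
    exact ⟨u + v, v, by linear_combination huv⟩
  have hc2 : IsCoprime (-δ) (δ - α) := by
    obtain ⟨u, v, huv⟩ := hcoad
    exact ⟨-(u + v), -u, by linear_combination huv⟩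
  obtain ⟨a, b, c, habc, hsabc⟩ := hQ hcoad.neg_right hc1 hc2 (by ring)
    (by rw [← hprod]; ring)
  obtain ⟨h1, h2⟩ := natAbs_lt_of (z := z) (s := s') (t := t) (by rw [hzt, hs']; ring) hsabc hz
  exact ⟨a, b, c, h1, habc, h2⟩

end FData

end Pool.Agent.Lib_helper18

end
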