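import Mathlib
import Pool.Agent.PTWX.C06
import Pool.Agent.PTWX.C07

/-! Parts: Lib_helper18.ULemma, Lib_helper18.NJ, Lib_helper18.IIb2, Lib_helper18.IIb3, Lib_helper18.IIb4, Lib_helper18.IIb5, Lib_helper18.Main -/

section

/-!
# The auxiliary element `U`
-/

namespace Pool.Agent.Lib_helper18

open Eis Z9

/-- the element `U` -/
def UU (G : Z9) : Eis := G.b ^ 3 - G.c ^ 3 + (w ^ 2 - 1) * (G.a * G.b * G.c)

/-- the element `D` -/
def DD (G : Z9) : Eis := G.b ^ 2 - G.a * G.c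

/-- the element `V` -/
def VV (G : Z9) : Eis := G.b ^ 3 - w ^ 2 * G.c ^ 3 + (w - 1) * (G.a * G.b * G.c)

theorem UV_identity (G : Z9) : G.c ^ 3 * N G + DD G ^ 3 = UU G * VV G := by
  simp only [N_def, DD, UU, VV]
  have h := w_rel
  linear_combination (-G.a ^ 2 * G.b ^ 2 * G.c ^ 2 * w + 2 * G.a ^ 2 * G.b ^ 2 * G.c ^ 2
    - G.a * G.b ^ 4 * G.c + G.a * G.b * G.c ^ 4 * w ^ 2 - G.a * G.b * G.c ^ 4 * w
    - G.a * G.b * G.c ^ 4 + G.b ^ 3 * G.c ^ 3) * h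

/-- relations at a root -/
theorem root_relations {R : Type*} [CommRing R] {a b c t W : R} (h0 : a + b * t + c * t ^ 2 = 0)
    (hW : t ^ 3 = W) (hrel : W ^ 2 + W + 1 = 0) :
    a + b * (W * t) + c * (W * t) ^ 2 = (W - 1) * t * (b - W ^ 2 * (c * t)) ∧
    a + b * (W ^ 2 * t) + c * (W ^ 2 * t) ^ 2 = -(W ^ 2 * (W - 1) * t * (b - W * (c * t))) ∧
    b ^ 2 - a * c = (b - W * (c * t)) * (b - W ^ 2 * (c * t)) ∧
    b ^ 3 - c ^ 3 + (W ^ 2 - 1) * (a * b * c) =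
      (b - W * (c * t)) * (b - W ^ 2 * (c * t)) * (b - W ^ 2 * (c * t)) := by
  have ha : a = -(b * t) - c * t ^ 2 := by linear_combination h0
  subst ha
  subst hW
  have hφ : t ^ 6 + t ^ 3 + 1 = 0 := by linear_combination hrel
  refine ⟨?_, ?_, ?_, ?_⟩
  · linear_combination (c * t ^ 5 - c * t ^ 2) * hφ
  · linear_combination (b * t ^ 4 - b * t + c * t ^ 5 - c * t ^ 2) * hφ
  · linear_combination (b * c * t - c ^ 2 * t ^ 5 + c ^ 2 * t ^ 2) * hφ
  · linear_combination (c ^ 3 * t ^ 3 - c ^ 3) * hφ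
      + (b * c * t - c ^ 2 * t ^ 5 + c ^ 2 * t ^ 2) * (b - (t ^ 3) ^ 2 * (c * t)) * hφ

variable {p : ℕ} [hp : Fact p.Prime] {π : Eis}

/-- The symbol of `U` at `conj π` is trivial. -/
theorem sym_UU (hp9 : p % 9 = 1) (hπ : π.norm = p) {M : ℤ} (hM : π.im = 3 * M)
    {G : Z9} {f : ℕ} (hf : f = 1 ∨ f = 2) {S : Eis} (H1 : N G = conj π ^ f * S ^ 3)
    (H2a : ¬ lam ∣ G.a) {b' c' : Eis} (H2b : G.b = lam * b') (H2c : G.c = lam * c')
    (H2 : lam ∣ b' - c')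
    (H3 : ∀ l : Eis, Prime l → ¬ l ∣ 3 → ¬ Associated l (conj π) →
      ¬ (l ∣ G.a ∧ l ∣ G.b ∧ l ∣ G.c))
    (H4 : ∀ l : Eis, Prime l → ¬ l ∣ 3 → ¬ Associated l (conj π) → l ∣ S → ¬ l ∣ G.c →
      l ∣ DD G → l ∣ w ^ 2 * G.b ^ 3 - G.c ^ 3 → False)
    (H5 : lam ∣ b' → sym (conj π) lam = 0) (H6 : ¬ conj π ∣ UU G) :
    sym (conj π) (UU G) = 0 := by
  have hp3 : p % 3 = 1 := by omega
  have hprim : (3 : ℤ) ∣ π.im := ⟨M, hM⟩
  have hπc := conj_norm hπ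
  have hπcpr := prime_of_norm_eq hπc
  have hπc3 := not_dvd_three hπc hp3
  have hcprim := conj_im_dvd hprim
  have hlam : ¬ conj π ∣ lam := fun h => hπc3 (h.trans lam_dvd_three)
  have hff : ∀ x : ZMod 3, (f : ZMod 3) * x = 0 → x = 0 := by
    rcases hf with rfl | rfl
    · intro x; simp
    · intro x; push_cast; revert x; decide
  -- primes dividing U
  have hUprime : ∀ l : Eis, Prime l → ¬ l ∣ 3 → l ∣ UU G → sym l (conj π) = 0 := by
    intro l hl hl3 hlU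
    have hlne : ¬ Associated l (conj π) := fun h => H6 (h.symm.dvd.trans hlU)
    have hlc : ¬ l ∣ conj π := fun h => hlne (hl.associated_of_dvd hπcpr h)
    -- reduce to the norm
    have hred : ¬ l ∣ N G → sym l (N G) = 0 → sym l (conj π) = 0 := by
      intro h1 h2
      have hlS : ¬ l ∣ S := fun h => h1 (by
        rw [H1]; exact Dvd.dvd.mul_left (Dvd.dvd.pow h (by norm_num)) _)
      rw [H1, sym_mul hl hl3 (fun h => hlc (hl.dvd_of_dvd_pow h))
        (fun h => hlS (hl.dvd_of_dvd_pow h)), sym_cube hl hl3 hlS, sym_pow hl hl3 hlc,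
        add_zero] at h2
      exact hff _ h2
    by_cases hlG : l ∣ G.c
    · have hlb : l ∣ G.b := by
        have h1 : G.b ^ 3 = UU G + G.c * (G.c ^ 2 - (w ^ 2 - 1) * (G.a * G.b)) := by
          simp only [UU]; ring
        have h2 : l ∣ G.b ^ 3 := by
          rw [h1]; exact dvd_add hlU (Dvd.dvd.mul_right hlG _)
        exact hl.dvd_of_dvd_pow h2
      have hla : ¬ l ∣ G.a := fun h => H3 l hl hl3 hlne ⟨h, hlb, hlG⟩
      have h1 : l ∣ N G - G.a ^ 3 := by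
        have : N G - G.a ^ 3 = G.b * (w * G.b ^ 2 - 3 * w * (G.a * G.c)) +
            G.c * (w ^ 2 * G.c ^ 2) := by
          rw [N_def]; ring
        rw [this]
        exact dvd_add (Dvd.dvd.mul_right hlb _) (Dvd.dvd.mul_right hlG _)
      apply hred
      · intro h
        have := dvd_sub h h1
        have e : N G - (N G - G.a ^ 3) = G.a ^ 3 := by ring
        rw [e] at this
        exact hla (hl.dvd_of_dvd_pow this)
      · rw [sym_congr h1, sym_cube hl hl3 hla]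
    · by_cases hlN : l ∣ N G
      · exfalso
        have hlS : l ∣ S := by
          rw [H1] at hlN
          rcases hl.dvd_or_dvd hlN with h | h
          · exact absurd (hl.dvd_of_dvd_pow h) hlc
          · exact hl.dvd_of_dvd_pow h
        have h1 : l ∣ DD G ^ 3 := by
          have h2 : DD G ^ 3 = UU G * VV G - G.c ^ 3 * N G := by
            rw [← UV_identity]; ring
          rw [h2]
          exact dvd_sub (Dvd.dvd.mul_right hlU _) (Dvd.dvd.mul_left hlN _)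
        have hD := hl.dvd_of_dvd_pow h1
        apply H4 l hl hl3 hlne hlS hlG hD
        have h3 : w ^ 2 * G.b ^ 3 - G.c ^ 3 = UU G + (w ^ 2 - 1) * G.b * DD G := by
          simp only [UU, DD]; ring
        rw [h3]
        exact dvd_add hlU (Dvd.dvd.mul_left hD _)
      · apply hred hlN
        have h1 : l ∣ G.c ^ 3 * N G - -(DD G ^ 3) := by
          rw [sub_neg_eq_add, UV_identity]
          exact Dvd.dvd.mul_right hlU _
        have hlc3 : ¬ l ∣ G.c ^ 3 := fun h => hlG (hl.dvd_of_dvd_pow h)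
        have hlD : ¬ l ∣ DD G := by
          intro h
          have h2 : l ∣ -(DD G ^ 3) := by
            rw [dvd_neg]; exact Dvd.dvd.pow h (by norm_num)
          have h3 := dvd_add h1 h2
          have e : G.c ^ 3 * N G - -(DD G ^ 3) + -(DD G ^ 3) = G.c ^ 3 * N G := by ring
          rw [e] at h3
          exact (hl.dvd_or_dvd h3).elim hlc3 hlN
        have h2 := sym_congr h1
        rw [sym_mul hl hl3 hlc3 hlN, sym_cube hl hl3 hlG, zero_add,
          sym_neg hl hl3 (fun h => hlD (hl.dvd_of_dvd_pow h)), sym_cube hl hl3 hlD] at h2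
        exact h2
  -- the 3-part
  have hU3 : UU G = lam ^ 3 * (b' ^ 3 - c' ^ 3 + w ^ 2 * (G.a * b' * c')) := by
    simp only [UU, H2b, H2c]
    have e : w ^ 2 - 1 = w ^ 2 * lam := by
      rw [lam_eq]; have := w_cube; linear_combination (1 : Eis) * this
    rw [e]; ring
  have hU0 : UU G ≠ 0 := by
    intro h; apply H6; rw [h]; exact dvd_zero _
  have hfact : ∃ v : ℕ, ∃ U' : Eis, UU G = lam ^ v * U' ∧ ¬ lam ∣ U' ∧
      (v : ZMod 3) * sym (conj π) lam = 0 := by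
    by_cases hb : lam ∣ b'
    · obtain ⟨v, U', h1, h2⟩ := WfDvdMonoid.max_power_factor hU0 prime_lam.irreducible
      exact ⟨v, U', h2, h1, by rw [H5 hb, mul_zero]⟩
    · refine ⟨3, _, hU3, ?_, ?_⟩
      · intro h
        have h1 : lam ∣ b' ^ 3 - c' ^ 3 := H2.trans (sub_dvd_pow_sub_pow _ _ _)
        have h2 := dvd_sub h h1
        have e : b' ^ 3 - c' ^ 3 + w ^ 2 * (G.a * b' * c') - (b' ^ 3 - c' ^ 3) =
          w ^ 2 * (G.a * b' * c') := by ring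
        rw [e] at h2
        have hcc : ¬ lam ∣ c' := fun h' => hb (by
          have := dvd_add H2 h'
          simpa using this)
        rcases prime_lam.dvd_or_dvd h2 with h3 | h3
        · exact not_dvd_of_isUnit prime_lam (isUnit_w.pow 2) h3
        · rcases prime_lam.dvd_or_dvd h3 with h4 | h4
          · rcases prime_lam.dvd_or_dvd h4 with h5 | h5
            · exact H2a h5
            · exact hb h5
          · exact hcc h4
      · have : ((3 : ℕ) : ZMod 3) = 0 := by decide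
        rw [this, zero_mul]
  obtain ⟨v, U', hU', hlU', hv⟩ := hfact
  have hU'0 : U' ≠ 0 := by rintro rfl; exact hlU' (dvd_zero _)
  have hcU' : ¬ conj π ∣ U' := fun h => H6 (by rw [hU']; exact Dvd.dvd.mul_left h _)
  have h1 := lemmaR hp9 hπc hcprim 0 U' hU'0 hlU' hcU' (by
    intro l hl hlU
    rw [zero_mul]
    have hl3 : ¬ l ∣ 3 := fun h => hlU' (((dvd_three_iff hl).mp h).symm.dvd.trans hlU)
    exact hUprime l hl hl3 (by rw [hU']; exact Dvd.dvd.mul_left hlU _))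
  rw [hU', sym_mul hπcpr hπc3 (fun h => hlam (hπcpr.dvd_of_dvd_pow h)) hcU',
    sym_pow hπcpr hπc3 hlam, h1, hv, zero_mul, add_zero]

end Pool.Agent.Lib_helper18

end

section

/-!
# The relative norm of the Jacobi sums of order nine
-/

namespace Pool.Agent.Lib_helper18

open Eis Z9

theorem T2_coords (y : Z9) : (y * (z - 1) ^ 2).a = y.a + w * y.b - 2 * w * y.c ∧
    (y * (z - 1) ^ 2).b = -2 * y.a + y.b + w * y.c ∧
    (y * (z - 1) ^ 2).c = y.a - 2 * y.b + y.c := by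
  have e : (z - 1) ^ 2 = (⟨1, -2, 1⟩ : Z9) := by
    rw [pow_two]
    apply Z9.ext
    · simp
    · simp; ring
    · simp
  rw [e]
  refine ⟨?_, ?_, ?_⟩
  · simp only [mul_a]; ring
  · simp only [mul_b]; ring
  · simp only [mul_c]; ring

theorem N_mod_three' {x y : Z9} (h : x = -1 + y * (z - 1) ^ 2) : (3 : Eis) ∣ N x + 1 := by
  obtain ⟨h1, h2, h3⟩ := T2_coords y
  have ha : x.a = -1 + y.a + w * y.b - 2 * w * y.c := by
    rw [h, add_a, h1, neg_a, one_a]; ring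
  have hb : x.b = -2 * y.a + y.b + w * y.c := by
    rw [h, add_b, h2, neg_b, one_b]; ring
  have hc : x.c = y.a - 2 * y.b + y.c := by
    rw [h, add_c, h3, neg_c, one_c]; ring
  rw [N_def, ha, hb, hc]
  generalize y.a = x, y.b = y, y.c = v
  have hw := w_rel
  refine ⟨-x ^ 3 * w - 2 * x ^ 2 * w - x ^ 2 - 3 * x * y * v * w - 3 * x * y * v + 3 * x * y * w
    + x * v * w - x * v + x + y ^ 3 * w + y ^ 3 - y ^ 2 * w + y ^ 2 - y * v * w - 2 * y * v + y * w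
    - v ^ 3 + 3 * v ^ 2 * w + 3 * v ^ 2 - 2 * v * w, ?_⟩
  linear_combination (x ^ 3 - 3 * x * y * v * w + 9 * x * y * v + 3 * x * v + y ^ 3 * w
    - 3 * y ^ 3 - 3 * y ^ 2 + 6 * y * v + v ^ 3 * w ^ 2 - 3 * v ^ 3 * w + 3 * v ^ 3
    - 9 * v ^ 2) * hw

theorem prim_of_three_dvd {x : Eis} (h : (3 : Eis) ∣ x + 1) : Prim x := by
  rw [three_dvd_iff] at h
  obtain ⟨h1, h2⟩ := h
  rw [add_re, one_re] at h1
  rw [add_im, one_im, add_zero] at h2
  exact ⟨h2, by omega⟩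

variable {p : ℕ} [hp : Fact p.Prime] {π : Eis}

theorem IsPsi.JJ_mod_nine {ψ : MulChar (ZMod p) Z9} {t : ZMod p} {m : ℕ} (h : IsPsi ψ t m)
    (a : ℕ) : JJ ψ a = JJ ψ (a % 9) := by
  have : ψ ^ a = ψ ^ (a % 9) := by
    conv_lhs => rw [← Nat.mod_add_div a 9]
    rw [pow_add, pow_mul, h.pow_nine, one_pow, mul_one]
  rw [JJ, JJ, this]

/-- the conjugate residue map composed with evaluation -/
theorem comp_conj_w (φ : Eis →+* ZMod p) : (φ.comp Eis.conj) w = (φ w) ^ 2 := by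
  rw [RingHom.comp_apply, conj_w, map_pow]

theorem t_pow_nine {φ : Eis →+* ZMod p} {t : ZMod p} (ht : t ^ 3 = φ w) : t ^ 9 = 1 := by
  have : t ^ 9 = (t ^ 3) ^ 3 := by ring
  rw [this, ht, ← map_pow, w_cube, map_one]

/-- relative norm of `J_1` -/
theorem norm_J (hp9 : p % 9 = 1) (hπ : π.norm = p) (hprim : (3 : ℤ) ∣ π.im)
    {φ : Eis →+* ZMod p} (hφ : ∀ x, φ x = 0 ↔ conj π ∣ x) {t : ZMod p} (ht : t ^ 3 = φ w)
    {m : ℕ} (hm : p - 1 = 9 * m) {ψ : MulChar (ZMod p) Z9} (hψ : IsPsi ψ t m) :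
    ∃ u : Eis, (u = 1 ∨ u = -1) ∧ N (JJ ψ 1) = u * (π * conj π ^ 2) := by
  have hp3 : p % 3 = 1 := by omega
  have hπpr := prime_of_norm_eq hπ
  have hπ3 := not_dvd_three hπ hp3
  have hre := re_not_dvd hp3 hπ hprim
  have hπc := conj_norm hπ
  have hπcpr := prime_of_norm_eq hπc
  have hpc := mul_conj_p hπ
  have ht9 := t_pow_nine ht
  have hnc := not_dvd_conj hp3 hπ
  have hnc' : ¬ conj π ∣ π := by
    have := not_dvd_conj hp3 hπc
    rwa [conj_conj] at this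
  set n1 := N (JJ ψ 1) with hn1
  -- n1 * conj n1 = p^3
  have hnn : n1 * conj n1 = (p : Eis) ^ 3 := by
    have h1 := hψ.JJ_mul (a := 1) (by norm_num)
    have h2 : JJ ψ (8 * 1) = bar (JJ ψ 1) := (hψ.map_JJ bar 8 bar_z 1).symm
    rw [h2] at h1
    have h3 := congrArg Z9.N h1
    rw [Z9.N_mul, N_bar, Z9.N_natCast] at h3
    exact h3
  -- conj π divides n1
  have hd1 : conj π ∣ n1 := by
    rw [← hφ, hn1, hom_N φ t ht]
    have : φ (JJ ψ 1).a + φ (JJ ψ 1).b * t + φ (JJ ψ 1).c * t ^ 2 = ev φ t ht (JJ ψ 1) := rfl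
    rw [this, hψ.ev_JJ hm (ev φ t ht) (j := 1) (by rw [ev_z, pow_one]) (r := 1) (by norm_num)
      (by norm_num), jv_zero hm (by norm_num) (by norm_num)]
    ring
  -- π divides n1
  have ht2 : (t ^ 2) ^ 3 = (φ.comp Eis.conj) w := by
    rw [comp_conj_w, ← ht]; ring
  have ht8 : (t ^ 8) ^ 3 = (φ.comp Eis.conj) w := by
    rw [comp_conj_w, ← ht]
    have : (t ^ 8) ^ 3 = (t ^ 9) ^ 2 * (t ^ 3) ^ 2 := by ring
    rw [this, ht9]; ring
  have hφ' : ∀ x, (φ.comp Eis.conj) x = 0 ↔ π ∣ x := by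
    intro x
    rw [RingHom.comp_apply, hφ, conj_dvd_iff]
  have hd2 : π ∣ n1 := by
    rw [← hφ', hn1, hom_N (φ.comp Eis.conj) (t ^ 2) ht2]
    have : (φ.comp Eis.conj) (JJ ψ 1).a + (φ.comp Eis.conj) (JJ ψ 1).b * (t ^ 2) +
      (φ.comp Eis.conj) (JJ ψ 1).c * (t ^ 2) ^ 2 = ev (φ.comp Eis.conj) (t ^ 2) ht2 (JJ ψ 1) := rfl
    rw [this, hψ.ev_JJ hm (ev _ _ ht2) (j := 2) (by rw [ev_z]) (r := 2) (by norm_num)
      (by norm_num), jv_zero hm (by norm_num) (by norm_num)]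
    ring
  -- π² does not divide n1
  have hd3 : ¬ π ^ 2 ∣ n1 := by
    rintro ⟨n', hn'⟩
    have hJ4 : σ (JJ ψ 1) = JJ ψ 4 := hψ.map_JJ σ 4 σ_z 1
    have hJ7 : σ (JJ ψ 4) = JJ ψ 16 := hψ.map_JJ σ 4 σ_z 4
    have h1 := ι_N (JJ ψ 1)
    rw [hJ4, hJ7, ← hn1, hn'] at h1
    have h2 := hψ.JJ_mul (a := 16) (by norm_num)
    have h3 : ι (conj π) * (JJ ψ 1 * JJ ψ 4) = ι π * (ι n' * JJ ψ (8 * 16)) := by
      have hι0 : ι π ≠ 0 := by
        intro h
        have := ι_injective (h.trans (map_zero ι).symm)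
        exact hπpr.ne_zero this
      apply mul_left_cancel₀ hι0
      have h4 : (p : Z9) = ι π * ι (conj π) := by
        rw [← map_mul, hpc, map_natCast]
      rw [map_mul, map_pow] at h1
      calc ι π * (ι (conj π) * (JJ ψ 1 * JJ ψ 4)) = JJ ψ 1 * JJ ψ 4 * (p : Z9) := by
            rw [h4]; ring
        _ = JJ ψ 1 * JJ ψ 4 * (JJ ψ 16 * JJ ψ (8 * 16)) := by rw [h2]
        _ = (JJ ψ 1 * JJ ψ 4 * JJ ψ 16) * JJ ψ (8 * 16) := by ring
        _ = ι π * (ι π * (ι n' * JJ ψ (8 * 16))) := by rw [← h1]; ring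
    have h5 := congrArg (ev (φ.comp Eis.conj) (t ^ 8) ht8) h3
    rw [map_mul, map_mul, map_mul, ev_ι, ev_ι, (hφ' π).mpr dvd_rfl, zero_mul,
      hψ.ev_JJ hm (ev _ _ ht8) (j := 8) (by rw [ev_z]) (a := 1) (r := 8) (by norm_num)
      (by norm_num),
      hψ.ev_JJ hm (ev _ _ ht8) (j := 8) (by rw [ev_z]) (a := 4) (r := 5) (by norm_num)
      (by norm_num)] at h5
    rcases mul_eq_zero.mp h5 with h6 | h6
    · rw [hφ'] at h6; exact hnc h6
    · rcases mul_eq_zero.mp h6 with h7 | h7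
      · exact jv_ne_zero hm (by norm_num) (by norm_num) h7
      · exact jv_ne_zero hm (by norm_num) (by norm_num) h7
  -- factorisation
  obtain ⟨n2, hn2⟩ := hd1
  have hd4 : π ∣ n2 := by
    rw [hn2] at hd2
    exact (hπpr.dvd_or_dvd hd2).resolve_left hnc
  obtain ⟨n3, hn3⟩ := hd4
  have hn3norm : n3.norm = p := by
    have h1 := congrArg Eis.norm hnn
    rw [Eis.norm_mul, norm_conj, Eis.norm_pow, Eis.norm_natCast, hn2, hn3, Eis.norm_mul,
      Eis.norm_mul, norm_conj, hπ] at h1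
    have hp0 : (p : ℤ) ≠ 0 := by exact_mod_cast hp.out.ne_zero
    have h2 : n3.norm ^ 2 = (p : ℤ) ^ 2 := by
      apply mul_left_cancel₀ (pow_ne_zero 4 hp0)
      linear_combination h1
    have h3 := norm_nonneg n3
    have h4 : (0 : ℤ) ≤ p := by positivity
    nlinarith [sq_nonneg (n3.norm - p)]
  have hn3pr := prime_of_norm_eq hn3norm
  have hn3p := dvd_p hn3norm
  have hass := (norm_of_dvd_p hπ hn3pr hn3p).2
  have hass2 : Associated (conj π) n3 := by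
    rcases hass with h | h
    · exfalso
      apply hd3
      rw [hn2, hn3, pow_two]
      exact Dvd.dvd.mul_left (mul_dvd_mul_left π h.symm.dvd) _
    · exact h.symm
  obtain ⟨u, hu⟩ := hass2
  have h3dvd : (3 : Eis) ∣ n1 + 1 := by
    obtain ⟨y, hy⟩ := hψ.JJ_mod hm 1
    exact N_mod_three' hy
  have hπprim : Prim π := ⟨hprim, hre⟩
  have hn1e : n1 = (π * conj π ^ 2) * u := by rw [hn2, hn3, ← hu]; ring
  have hprim2 : Prim ((π * conj π ^ 2) * u) := by rw [← hn1e]; exact prim_of_three_dvd h3dvd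
  have hu1 := (hπprim.mul (hπprim.conj.pow 2)).unit u.isUnit hprim2
  exact ⟨u, hu1, by rw [hn1e]; ring⟩

end Pool.Agent.Lib_helper18

end

section

/-!
# The set-up of Case II-b
-/

namespace Pool.Agent.Lib_helper18

open Eis Z9

/-- The data of Case II-b. -/
structure Ctx (p : ℕ) [Fact p.Prime] where
  π : Eis
  M : ℤ
  φ : Eis →+* ZMod p
  t : ZMod p
  m : ℕ
  ψ : MulChar (ZMod p) Z9
  γ : Eis
  s : ℤ
  e : ℕ
  hp9 : p % 9 = 1
  hπ : π.norm = p
  hM : π.im = 3 * M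
  hφ : ∀ x, φ x = 0 ↔ conj π ∣ x
  ht : t ^ 3 = φ w
  hm : p - 1 = 9 * m
  hψ : IsPsi ψ t m
  he : e = 1 ∨ e = 2
  hγ : Prim γ
  hcop : IsCoprime γ (conj γ)
  hs3 : ¬ (3 : ℤ) ∣ s
  hs : w * γ ^ 3 + w ^ 2 * (conj γ) ^ 3 = -((p : Eis) ^ e * (s : Eis) ^ 3)
  hkt : φ γ + φ (w ^ 2 * conj γ) * t = 0

namespace Ctx

variable {p : ℕ} [hp : Fact p.Prime] (X : Ctx p)

/-- image of the cube root of unity -/
def W : ZMod p := X.φ w

/-- the residue map at `π` -/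
def φ' : Eis →+* ZMod p := X.φ.comp Eis.conj

include X in
theorem hp3 : p % 3 = 1 := by have := X.hp9; omega

theorem φ'_zero (x : Eis) : X.φ' x = 0 ↔ X.π ∣ x := by
  rw [φ', RingHom.comp_apply, X.hφ, conj_dvd_iff]

theorem φ'_w : X.φ' w = X.W ^ 2 := comp_conj_w X.φ

theorem W_rel : X.W ^ 2 + X.W + 1 = 0 := hom_w X.φ

theorem W3 : X.W ^ 3 = 1 := by linear_combination (X.W - 1) * X.W_rel

theorem tW : X.t ^ 3 = X.W := X.ht

theorem t9 : X.t ^ 9 = 1 := t_pow_nine X.ht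

theorem t_ne : X.t ≠ 0 := by
  intro h
  have := X.t9
  rw [h] at this
  norm_num at this

theorem W_ne : X.W ≠ 0 := by
  rw [← X.tW]; exact pow_ne_zero _ X.t_ne

include X in
theorem three_ne : (3 : ZMod p) ≠ 0 := by
  intro h
  have h1 : ((3 : ℕ) : ZMod p) = 0 := by exact_mod_cast h
  rw [ZMod.natCast_eq_zero_iff] at h1
  have := (Nat.prime_dvd_prime_iff_eq hp.out Nat.prime_three).mp h1
  have := X.hp3
  omega

theorem W_ne_one : X.W - 1 ≠ 0 := by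
  intro h
  have h1 : X.W = 1 := by linear_combination h
  have h2 := X.W_rel
  rw [h1] at h2
  apply X.three_ne
  linear_combination h2

theorem W2_ne_one : X.W ^ 2 - 1 ≠ 0 := by
  intro h
  have h1 : (X.W ^ 2 - 1) * X.W = -(X.W - 1) := by linear_combination X.W3
  rw [h, zero_mul] at h1
  apply X.W_ne_one
  linear_combination h1

/-- the six evaluation maps -/
def E1 : Z9 →+* ZMod p := ev X.φ X.t X.ht
def E4 : Z9 →+* ZMod p := ev X.φ (X.t ^ 4) (by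
  have := X.t9; rw [← X.ht]
  linear_combination (X.t ^ 3) * this)
def E7 : Z9 →+* ZMod p := ev X.φ (X.t ^ 7) (by
  have := X.t9; rw [← X.ht]
  linear_combination (X.t ^ 12 + X.t ^ 3) * this)
def E2 : Z9 →+* ZMod p := ev X.φ' (X.t ^ 2) (by
  rw [X.φ'_w, ← X.tW]; ring)
def E5 : Z9 →+* ZMod p := ev X.φ' (X.t ^ 5) (by
  have := X.t9; rw [X.φ'_w, ← X.tW]
  linear_combination (X.t ^ 6) * this)
def E8 : Z9 →+* ZMod p := ev X.φ' (X.t ^ 8) (by
  have := X.t9; rw [X.φ'_w, ← X.tW]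
  linear_combination (X.t ^ 15 + X.t ^ 6) * this)

theorem E1_apply (x : Z9) : X.E1 x = X.φ x.a + X.φ x.b * X.t + X.φ x.c * X.t ^ 2 := rfl
theorem E4_apply (x : Z9) :
    X.E4 x = X.φ x.a + X.φ x.b * X.t ^ 4 + X.φ x.c * (X.t ^ 4) ^ 2 := rfl
theorem E7_apply (x : Z9) :
    X.E7 x = X.φ x.a + X.φ x.b * X.t ^ 7 + X.φ x.c * (X.t ^ 7) ^ 2 := rfl
theorem E2_apply (x : Z9) :
    X.E2 x = X.φ' x.a + X.φ' x.b * X.t ^ 2 + X.φ' x.c * (X.t ^ 2) ^ 2 := rfl
theorem E5_apply (x : Z9) :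
    X.E5 x = X.φ' x.a + X.φ' x.b * X.t ^ 5 + X.φ' x.c * (X.t ^ 5) ^ 2 := rfl
theorem E8_apply (x : Z9) :
    X.E8 x = X.φ' x.a + X.φ' x.b * X.t ^ 8 + X.φ' x.c * (X.t ^ 8) ^ 2 := rfl

theorem E1_z : X.E1 z = X.t ^ 1 := by rw [pow_one]; exact ev_z _ _ _
theorem E4_z : X.E4 z = X.t ^ 4 := ev_z _ _ _
theorem E7_z : X.E7 z = X.t ^ 7 := ev_z _ _ _
theorem E2_z : X.E2 z = X.t ^ 2 := ev_z _ _ _
theorem E5_z : X.E5 z = X.t ^ 5 := ev_z _ _ _
theorem E8_z : X.E8 z = X.t ^ 8 := ev_z _ _ _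

theorem hcopp (l : Eis) (hl : Prime l) : ¬ (l ∣ X.γ ∧ l ∣ conj X.γ) := by
  rintro ⟨h1, h2⟩
  exact hl.not_isUnit (X.hcop.isUnit_of_dvd' h1 h2)

theorem hπc : (conj X.π).norm = p := conj_norm X.hπ
theorem hπcpr : Prime (conj X.π) := prime_of_norm_eq X.hπc
theorem hπpr : Prime X.π := prime_of_norm_eq X.hπ

/-- the key nonvanishing -/
def H : ZMod p := X.φ (w ^ 2 * conj X.γ)

theorem g_eq : X.φ X.γ = -(X.H * X.t) := by
  have := X.hkt
  rw [H]; linear_combination this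

theorem H_ne : X.H ≠ 0 := by
  intro h
  have h1 := X.g_eq
  rw [h, zero_mul, neg_zero] at h1
  rw [H, map_mul] at h
  have h2 : X.φ (w ^ 2) ≠ 0 := by
    rw [map_pow]; exact pow_ne_zero _ X.W_ne
  have h3 := (mul_eq_zero.mp h).resolve_left h2
  rw [X.hφ] at h1 h3
  exact X.hcopp _ X.hπcpr ⟨h1, h3⟩

theorem φ'_γ : X.φ' X.γ = X.W * X.H := by
  rw [φ', RingHom.comp_apply, H, map_mul, map_pow]
  have := X.W3
  rw [W] at *
  linear_combination (-X.φ (conj X.γ)) * this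

theorem φ'_γ' : X.φ' (w ^ 2 * conj X.γ) = -(X.W * X.H * X.t) := by
  rw [φ', RingHom.comp_apply, map_mul, map_pow, conj_conj, conj_w, ← pow_mul, map_mul, map_pow,
    X.g_eq]
  have := X.W3
  rw [W] at *
  linear_combination (-X.H * X.t * X.φ w) * this

theorem E1_kap : X.E1 (kap X.γ) = 0 := by
  rw [E1_apply]; simp only [kap, map_zero]
  have h : X.φ (w ^ 2 * conj X.γ) = X.H := rfl
  rw [h, X.g_eq]; ring

theorem E4_kap : X.E4 (kap X.γ) = X.H * X.t ^ 5 * (X.W - 1) := by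
  rw [E4_apply]; simp only [kap, map_zero]
  have h : X.φ (w ^ 2 * conj X.γ) = X.H := rfl
  rw [h, X.g_eq, ← X.tW]; ring

theorem E7_kap : X.E7 (kap X.γ) = X.H * X.t ^ 8 * (X.W ^ 2 - 1) := by
  rw [E7_apply]; simp only [kap, map_zero]
  have h : X.φ (w ^ 2 * conj X.γ) = X.H := rfl
  rw [h, X.g_eq, ← X.tW]; ring

theorem E2_kap : X.E2 (kap X.γ) = -(X.W * X.H * X.t ^ 2 * (X.W - 1)) := by
  rw [E2_apply]; simp only [kap, map_zero]
  rw [X.φ'_γ, X.φ'_γ', ← X.tW]; ring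

theorem E5_kap : X.E5 (kap X.γ) = -(X.W * X.H * X.t ^ 5 * (X.W ^ 2 - 1)) := by
  rw [E5_apply]; simp only [kap, map_zero]
  rw [X.φ'_γ, X.φ'_γ', ← X.tW]; ring

theorem E8_kap : X.E8 (kap X.γ) = 0 := by
  rw [E8_apply]; simp only [kap, map_zero]
  rw [X.φ'_γ, X.φ'_γ']
  have := X.t9
  linear_combination (-X.W * X.H * X.t ^ 8) * this

/-- the normalised real element -/
def kp : Z9 := kap X.γ * th

theorem hom_th_ne {F : Type*} [Field F] (E : Z9 →+* F) : E th ≠ 0 := by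
  intro h
  have h1 := congrArg E th_mul
  rw [map_mul, h, zero_mul, map_neg, map_one] at h1
  have : (1 : F) = 0 := by linear_combination h1
  exact one_ne_zero this

theorem E1_kp : X.E1 X.kp = 0 := by rw [kp, map_mul, E1_kap, zero_mul]
theorem E8_kp : X.E8 X.kp = 0 := by rw [kp, map_mul, E8_kap, zero_mul]
theorem E4_kp_ne : X.E4 X.kp ≠ 0 := by
  rw [kp, map_mul, E4_kap]
  exact mul_ne_zero (mul_ne_zero (mul_ne_zero X.H_ne (pow_ne_zero _ X.t_ne)) X.W_ne_one)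
    (hom_th_ne _)
theorem E7_kp_ne : X.E7 X.kp ≠ 0 := by
  rw [kp, map_mul, E7_kap]
  exact mul_ne_zero (mul_ne_zero (mul_ne_zero X.H_ne (pow_ne_zero _ X.t_ne)) X.W2_ne_one)
    (hom_th_ne _)
theorem E2_kp_ne : X.E2 X.kp ≠ 0 := by
  rw [kp, map_mul, E2_kap]
  exact mul_ne_zero (neg_ne_zero.mpr (mul_ne_zero (mul_ne_zero (mul_ne_zero X.W_ne X.H_ne)
    (pow_ne_zero _ X.t_ne)) X.W_ne_one)) (hom_th_ne _)
theorem E5_kp_ne : X.E5 X.kp ≠ 0 := by
  rw [kp, map_mul, E5_kap]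
  exact mul_ne_zero (neg_ne_zero.mpr (mul_ne_zero (mul_ne_zero (mul_ne_zero X.W_ne X.H_ne)
    (pow_ne_zero _ X.t_ne)) X.W2_ne_one)) (hom_th_ne _)

theorem bar_kp : bar X.kp = X.kp := by rw [kp, map_mul, bar_kap, bar_th]

theorem N_kp : N X.kp = -((p : Eis) ^ X.e * (X.s : Eis) ^ 3) := by
  rw [kp, Z9.N_mul, N_th, N_kap, X.hs, mul_one]

/-- An element vanishing at all six places above `p` is divisible by `p`. -/
theorem exists_div {x : Z9} (h1 : X.E1 x = 0) (h4 : X.E4 x = 0) (h7 : X.E7 x = 0)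
    (h2 : X.E2 x = 0) (h5 : X.E5 x = 0) (h8 : X.E8 x = 0) : ∃ G : Z9, (p : Z9) * G = x := by
  have e4 : X.t ^ 4 = X.W * X.t := by rw [← X.tW]; ring
  have e7 : X.t ^ 7 = X.W ^ 2 * X.t := by rw [← X.tW]; ring
  rw [E1_apply] at h1
  rw [E4_apply, e4] at h4
  rw [E7_apply, e7] at h7
  obtain ⟨a1, b1, c1⟩ := three_vanish X.three_ne X.t_ne X.W_rel h1 h4 h7
  have e2 : X.t ^ 2 = X.t ^ 2 := rfl
  have e5 : X.t ^ 5 = X.W * X.t ^ 2 := by rw [← X.tW]; ring
  have e8 : X.t ^ 8 = X.W ^ 2 * X.t ^ 2 := by rw [← X.tW]; ring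
  rw [E2_apply] at h2
  rw [E5_apply, e5] at h5
  rw [E8_apply, e8] at h8
  obtain ⟨a2, b2, c2⟩ := three_vanish X.three_ne (pow_ne_zero 2 X.t_ne) X.W_rel h2 h5 h8
  have key : ∀ y : Eis, X.φ y = 0 → X.φ' y = 0 → ∃ y', y = (p : Eis) * y' := by
    intro y hy1 hy2
    rw [X.hφ] at hy1
    rw [X.φ'_zero] at hy2
    obtain ⟨y1, hy1⟩ := hy1
    rw [hy1] at hy2
    have h := (X.hπpr.dvd_or_dvd hy2).resolve_left (not_dvd_conj X.hp3 X.hπ)
    obtain ⟨y2, hy2⟩ := h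
    refine ⟨y2, ?_⟩
    rw [hy1, hy2, ← mul_conj_p X.hπ]; ring
  obtain ⟨a', ha⟩ := key _ a1 a2
  obtain ⟨b', hb⟩ := key _ b1 b2
  obtain ⟨c', hc⟩ := key _ c1 c2
  refine ⟨⟨a', b', c'⟩, ?_⟩
  apply Z9.ext
  · simp only [mul_a, natCast_a, natCast_b, natCast_c]; rw [ha]; ring
  · simp only [mul_b, natCast_a, natCast_b, natCast_c]; rw [hb]; ring
  · simp only [mul_c, natCast_a, natCast_b, natCast_c]; rw [hc]; ring

end Ctx

end Pool.Agent.Lib_helper18

end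

section

/-!
# The core of Case II-b
-/

namespace Pool.Agent.Lib_helper18

open Eis Z9

theorem three_coords (x : Z9) : ((3 : Z9) * x).a = 3 * x.a ∧ ((3 : Z9) * x).b = 3 * x.b ∧
    ((3 : Z9) * x).c = 3 * x.c := by
  have e : (3 : Z9) = ((3 : ℕ) : Z9) := by norm_num
  have e' : ((3 : ℕ) : Eis) = 3 := by norm_num
  rw [e]
  refine ⟨?_, ?_, ?_⟩
  · rw [mul_a, natCast_a, natCast_b, natCast_c, e']; ring
  · rw [mul_b, natCast_a, natCast_b, natCast_c, e']; ring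
  · rw [mul_c, natCast_a, natCast_b, natCast_c, e']; ring

theorem int_coords (n : ℤ) (x : Z9) : ((n : Z9) * x).a = n * x.a ∧ ((n : Z9) * x).b = n * x.b ∧
    ((n : Z9) * x).c = n * x.c := by
  refine ⟨?_, ?_, ?_⟩
  · rw [mul_a, intCast_a, intCast_b, intCast_c]; ring
  · rw [mul_b, intCast_a, intCast_b, intCast_c]; ring
  · rw [mul_c, intCast_a, intCast_b, intCast_c]; ring

theorem kap_eq {γ γ1 : Eis} {ε : ℤ} (h : γ = (ε : Eis) + 3 * γ1) :
    kap γ = (ε : Z9) * th1 + 3 * kap γ1 := by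
  obtain ⟨a1, b1, c1⟩ := three_coords (kap γ1)
  obtain ⟨a2, b2, c2⟩ := int_coords ε th1
  have h3 : conj (3 : Eis) = 3 := conj_natCast 3
  apply Z9.ext
  · rw [add_a, a1, a2]; simp [kap, th1]
  · rw [add_b, b1, b2]; simp only [kap, th1]; rw [h]; ring
  · rw [add_c, c1, c2]; simp only [kap, th1]; rw [h, map_add, map_mul, conj_intCast, h3]; ring

theorem three_T : (3 : Z9) = (-ι (w ^ 2) * (z ^ 2 + z + 1) ^ 2) * (z - 1) ^ 2 := by
  have h1 : (z ^ 2 + z + 1) ^ 2 * (z - 1) ^ 2 = (ι w - 1) ^ 2 := by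
    rw [← z_cube]; ring
  have h2 : (-ι (w ^ 2)) * (ι w - 1) ^ 2 = 3 := by
    have h3 : -(w ^ 2) * (w - 1) ^ 2 = 3 := by decide
    have := congrArg ι h3
    rw [map_mul, map_neg, map_pow ι (w - 1) 2, map_sub, map_one] at this
    rw [this]
    have e : (3 : Eis) = ((3 : ℕ) : Eis) := by norm_num
    rw [e, map_natCast]; norm_num
  calc (3 : Z9) = (-ι (w ^ 2)) * (ι w - 1) ^ 2 := h2.symm
    _ = (-ι (w ^ 2)) * ((z ^ 2 + z + 1) ^ 2 * (z - 1) ^ 2) := by rw [h1]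
    _ = _ := by ring

theorem lam_dvd_sub_conj (x : Eis) : lam ∣ x - conj x := by
  rw [lam_dvd_iff]
  simp only [sub_re, sub_im, conj_re, conj_im]
  exact ⟨x.im, by ring⟩

theorem conj_lam_eq : conj lam = -w ^ 2 * lam := by decide

theorem norm_cast_zmod (x : Eis) : (x.norm : ZMod 3) = ((x.re + x.im : ℤ) : ZMod 3) ^ 2 := by
  have h : x.norm = (x.re + x.im) ^ 2 - 3 * (x.re * x.im) := by rw [norm_def]; ring
  rw [h]
  push_cast
  have h3 : (3 : ZMod 3) = 0 := by decide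
  rw [h3]; ring

theorem lam_dvd_zmod {x : Eis} : lam ∣ x ↔ ((x.re + x.im : ℤ) : ZMod 3) = 0 := by
  rw [lam_dvd_iff, ZMod.intCast_zmod_eq_zero_iff_dvd]; norm_num

namespace Ctx

variable {p : ℕ} [hp : Fact p.Prime] (X : Ctx p)

theorem exists_kp : ∃ ε : ℤ, (ε = 1 ∨ ε = -1) ∧ ∃ k : Z9, X.kp = -(ε : Z9) + 3 * k := by
  obtain ⟨⟨d, hd⟩, h2⟩ := X.hγ
  obtain ⟨ε, hε, c, hc⟩ : ∃ ε : ℤ, (ε = 1 ∨ ε = -1) ∧ ∃ c, X.γ.re = ε + 3 * c := by
    have : X.γ.re % 3 = 1 ∨ X.γ.re % 3 = 2 := by omega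
    rcases this with h | h
    · exact ⟨1, Or.inl rfl, X.γ.re / 3, by omega⟩
    · exact ⟨-1, Or.inr rfl, (X.γ.re + 1) / 3, by omega⟩
  have h : X.γ = (ε : Eis) + 3 * ⟨c, d⟩ := by
    rw [three_eq_cast]
    ext
    · simp only [add_re, mul_re, intCast_re, intCast_im]; rw [hc]; ring
    · simp only [add_im, mul_im, intCast_re, intCast_im]; rw [hd]; ring
  refine ⟨ε, hε, kap ⟨c, d⟩ * th, ?_⟩
  rw [kp, kap_eq h]
  have := th_mul
  linear_combination (ε : Z9) * this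

/-- `G` modulo `(z-1)^2`. -/
theorem G_mod {A B : ℕ} {G : Z9} (R1 : G * JJ X.ψ (8 * A) = X.kp * JJ X.ψ B)
    {ε : ℤ} {k : Z9} (hk : X.kp = -(ε : Z9) + 3 * k) :
    ∃ Y : Z9, G = -(ε : Z9) + Y * (z - 1) ^ 2 := by
  obtain ⟨y1, h1⟩ := X.hψ.JJ_mod X.hm (8 * A)
  obtain ⟨y2, h2⟩ := X.hψ.JJ_mod X.hm B
  rw [h1, h2, hk] at R1
  refine ⟨G * y1 + (-ι (w ^ 2) * (z ^ 2 + z + 1) ^ 2) * k + (ε : Z9) * y2 - 3 * k * y2, ?_⟩
  have h3 := three_T
  linear_combination -R1 + k * h3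

theorem G_bar {A B : ℕ} (hA : ¬ 3 ∣ A) (hB : ¬ 3 ∣ B) {G : Z9}
    (R1 : G * JJ X.ψ (8 * A) = X.kp * JJ X.ψ B) : G * bar G = X.kp ^ 2 := by
  have h1 := congrArg bar R1
  rw [map_mul, map_mul, X.bar_kp, X.hψ.map_JJ bar 8 bar_z, X.hψ.map_JJ bar 8 bar_z,
    X.hψ.JJ_mod_nine (8 * (8 * A))] at h1
  have h2 : 8 * (8 * A) % 9 = A % 9 := by omega
  rw [h2, ← X.hψ.JJ_mod_nine] at h1
  have h3 := X.hψ.JJ_mul hA
  have h4 := X.hψ.JJ_mul hB
  have hp0 : (p : Z9) ≠ 0 := by exact_mod_cast hp.out.ne_zero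
  apply mul_right_cancel₀ hp0
  calc G * bar G * (p : Z9) = (G * JJ X.ψ (8 * A)) * (bar G * JJ X.ψ A) := by rw [← h3]; ring
    _ = (X.kp * JJ X.ψ B) * (X.kp * JJ X.ψ (8 * B)) := by rw [R1, h1]
    _ = X.kp ^ 2 * (JJ X.ψ B * JJ X.ψ (8 * B)) := by ring
    _ = X.kp ^ 2 * (p : Z9) := by rw [h4]

/-- The 3-adic shape of `G`. -/
theorem G_shape {A B : ℕ} (hA : ¬ 3 ∣ A) (hB : ¬ 3 ∣ B) {G : Z9}
    (R1 : G * JJ X.ψ (8 * A) = X.kp * JJ X.ψ B) :
    ¬ lam ∣ G.a ∧ ∃ b' c' : Eis, G.b = lam * b' ∧ G.c = lam * c' ∧ lam ∣ b' - c' := by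
  obtain ⟨ε, hε, k, hk⟩ := X.exists_kp
  obtain ⟨Y, hY⟩ := X.G_mod R1 hk
  have hbar := X.G_bar hA hB R1
  obtain ⟨ya, yb, yc⟩ := T2_coords Y
  have hGa : G.a = -(ε : Eis) + (Y.a + w * Y.b - 2 * w * Y.c) := by
    rw [hY, add_a, ya, neg_a, intCast_a]
  have hGb : G.b = -2 * Y.a + Y.b + w * Y.c := by
    rw [hY, add_b, yb, neg_b, intCast_b]; ring
  have hGc : G.c = Y.a - 2 * Y.b + Y.c := by
    rw [hY, add_c, yc, neg_c, intCast_c]; ring
  have h3l := three_eq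
  have hle := lam_eq
  have d1 : lam ∣ G.b - G.c := by
    refine ⟨w ^ 2 * lam * Y.a - w ^ 2 * lam * Y.b - Y.c, ?_⟩
    rw [hGb, hGc]
    linear_combination (-Y.a + Y.b) * h3l + Y.c * hle
  have d2 : lam ∣ G.a + (ε : Eis) - G.b := by
    refine ⟨-w ^ 2 * lam * Y.a - Y.b + w ^ 3 * lam * Y.c, ?_⟩
    rw [hGa, hGb]
    linear_combination (Y.a - w * Y.c) * h3l + Y.b * hle
  -- the norm condition
  have hεε : (ε : Z9) ^ 2 = 1 := by
    rcases hε with h | h <;> rw [h] <;> norm_num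
  have hsq : G * bar G = 1 + 3 * (-2 * (ε : Z9) * k + 3 * k ^ 2) := by
    rw [hbar, hk]; linear_combination hεε
  set X0 := -2 * (ε : Z9) * k + 3 * k ^ 2 with hX0
  obtain ⟨xa, xb, xc⟩ := three_coords X0
  have hw := w_cube
  have ca := congrArg Z9.a hsq
  rw [mul_a, bar_a, bar_b, bar_c, add_a, one_a, xa] at ca
  have cb := congrArg Z9.b hsq
  rw [mul_b, bar_a, bar_b, bar_c, add_b, one_b, xb] at cb
  have na : ((G.a.norm + G.b.norm + G.c.norm - 1 : ℤ) : Eis) = 3 * X0.a := by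
    push_cast
    rw [← mul_conj, ← mul_conj, ← mul_conj]
    linear_combination ca - (G.b * conj G.b + G.c * conj G.c) * hw
  have na2 : lam ∣ ((G.a.norm + G.b.norm + G.c.norm - 1 : ℤ) : Eis) := by
    rw [na]; exact Dvd.dvd.mul_right lam_dvd_three _
  rw [lam_dvd_zmod] at d1 d2 na2
  simp only [intCast_re, intCast_im, add_zero, sub_re, sub_im, add_re, add_im] at d1 d2 na2
  push_cast at d1 d2 na2
  rw [norm_cast_zmod, norm_cast_zmod, norm_cast_zmod] at na2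
  push_cast at na2
  have hε3 : (ε : ZMod 3) = 1 ∨ (ε : ZMod 3) = -1 := by
    rcases hε with h | h <;> rw [h]
    · left; norm_num
    · right; norm_num
  have hsolve : ∀ a b c E : ZMod 3, (E = 1 ∨ E = -1) → b - c = 0 → a + E - b = 0 →
      a ^ 2 + b ^ 2 + c ^ 2 - 1 = 0 → a ≠ 0 ∧ b = 0 ∧ c = 0 := by decide
  have hfin := hsolve ((G.a.re : ZMod 3) + G.a.im) ((G.b.re : ZMod 3) + G.b.im)
    ((G.c.re : ZMod 3) + G.c.im) (ε : ZMod 3) hε3 (by linear_combination d1)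
    (by linear_combination d2) (by linear_combination na2)
  obtain ⟨f1, f2, f3⟩ := hfin
  have g1 : ¬ lam ∣ G.a := by
    rw [lam_dvd_zmod]; push_cast; exact f1
  have g2 : lam ∣ G.b := by
    rw [lam_dvd_zmod]; push_cast; exact f2
  have g3 : lam ∣ G.c := by
    rw [lam_dvd_zmod]; push_cast; exact f3
  obtain ⟨b', hb'⟩ := g2
  obtain ⟨c', hc'⟩ := g3
  refine ⟨g1, b', c', hb', hc', ?_⟩
  have hlam0 : lam ≠ 0 := prime_lam.ne_zero
  have hcb : b' * conj G.a - w ^ 4 * (G.a * conj c') =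
      lam * (w ^ 5 * (c' * conj b') - w ^ 2 * X0.b) := by
    apply mul_left_cancel₀ hlam0
    rw [hb', hc', map_mul, map_mul, conj_lam_eq] at cb
    linear_combination cb + X0.b * h3l
  have hkey : lam ∣ G.a * (b' - c') := by
    have e : G.a * (b' - c') = (b' * conj G.a - w ^ 4 * (G.a * conj c')) +
        b' * (G.a - conj G.a) - G.a * (c' - conj c') + lam * (-(G.a * conj c')) := by
      rw [hle]
      linear_combination (w * (G.a * conj c')) * hw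
    rw [e, hcb]
    exact dvd_add (dvd_sub (dvd_add (dvd_mul_right _ _)
      (Dvd.dvd.mul_left (lam_dvd_sub_conj _) _)) (Dvd.dvd.mul_left (lam_dvd_sub_conj _) _))
      (dvd_mul_right _ _)
  exact (prime_lam.dvd_or_dvd hkey).resolve_left g1

/-- Killing the Jacobi sums. -/
theorem R4 {A B : ℕ} (hB : ¬ 3 ∣ B) {G : Z9} (R1 : G * JJ X.ψ (8 * A) = X.kp * JJ X.ψ B) :
    G * (JJ X.ψ (8 * A) * JJ X.ψ (8 * B) * th1) = -(kap X.γ * (p : Z9)) := by
  have h4 := X.hψ.JJ_mul hB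
  calc G * (JJ X.ψ (8 * A) * JJ X.ψ (8 * B) * th1) =
      (G * JJ X.ψ (8 * A)) * JJ X.ψ (8 * B) * th1 := by ring
    _ = X.kp * (JJ X.ψ B * JJ X.ψ (8 * B)) * th1 := by rw [R1]; ring
    _ = kap X.γ * (th * th1) * (p : Z9) := by rw [h4, kp]; ring
    _ = _ := by rw [th_mul]; ring

/-- H3 -/
theorem G_prim {A B : ℕ} (hB : ¬ 3 ∣ B) {G : Z9}
    (R1 : G * JJ X.ψ (8 * A) = X.kp * JJ X.ψ B) (n2 : X.E2 G ≠ 0) (l : Eis) (hl : Prime l)
    (hlne : ¬ Associated l (conj X.π)) : ¬ (l ∣ G.a ∧ l ∣ G.b ∧ l ∣ G.c) := by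
  rintro ⟨ha, hb, hc⟩
  by_cases hlp : l ∣ (p : Eis)
  · have h1 := (norm_of_dvd_p X.hπ hl hlp).2.resolve_right hlne
    apply n2
    rw [E2_apply, (X.φ'_zero _).mpr (h1.symm.dvd.trans ha),
      (X.φ'_zero _).mpr (h1.symm.dvd.trans hb), (X.φ'_zero _).mpr (h1.symm.dvd.trans hc)]
    ring
  · obtain ⟨Y, hR⟩ : ∃ Y : Z9, G * Y = -(kap X.γ * (p : Z9)) := ⟨_, X.R4 hB R1⟩
    have cb := congrArg Z9.b hR
    have cc := congrArg Z9.c hR
    rw [mul_b, neg_b, mul_b, natCast_a, natCast_b, natCast_c] at cb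
    rw [mul_c, neg_c, mul_c, natCast_a, natCast_b, natCast_c] at cc
    simp only [kap, mul_zero, zero_mul, zero_add, add_zero] at cb cc
    have d1 : l ∣ X.γ * (p : Eis) := by
      rw [← dvd_neg, ← cb]
      exact dvd_add (dvd_add (Dvd.dvd.mul_right ha _) (Dvd.dvd.mul_right hb _))
        (Dvd.dvd.mul_left (Dvd.dvd.mul_right hc _) _)
    have d2 : l ∣ w ^ 2 * conj X.γ * (p : Eis) := by
      rw [← dvd_neg, ← cc]
      exact dvd_add (dvd_add (Dvd.dvd.mul_right ha _) (Dvd.dvd.mul_right hb _))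
        (Dvd.dvd.mul_right hc _)
    have e1 := (hl.dvd_or_dvd d1).resolve_right hlp
    have e2 := (hl.dvd_or_dvd ((hl.dvd_or_dvd d2).resolve_right hlp)).resolve_left
      (not_dvd_of_isUnit hl (isUnit_w.pow 2))
    exact X.hcopp l hl ⟨e1, e2⟩

/-- H4 -/
theorem G_cop {A B : ℕ} (hB : ¬ 3 ∣ B) {G : Z9}
    (R1 : G * JJ X.ψ (8 * A) = X.kp * JJ X.ψ B) (n2 : X.E2 G ≠ 0) (n5 : X.E5 G ≠ 0)
    (l : Eis) (hl : Prime l) (hl3 : ¬ l ∣ 3) (hlne : ¬ Associated l (conj X.π))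
    (hlc : ¬ l ∣ G.c) (hD : l ∣ DD G) (hbc : l ∣ w ^ 2 * G.b ^ 3 - G.c ^ 3) : False := by
  -- general facts over a field
  have key : ∀ (K : Type) [Field K] (θ : Eis →+* K), (∀ x, θ x = 0 ↔ l ∣ x) →
      ∃ τ : K, τ ≠ 0 ∧ τ ^ 3 = θ w ∧
        θ G.a + θ G.b * (θ w * τ) + θ G.c * (θ w * τ) ^ 2 = 0 ∧
        θ G.a + θ G.b * (θ w ^ 2 * τ) + θ G.c * (θ w ^ 2 * τ) ^ 2 = 0 := by
    intro K _ θ hθ
    have hc0 : θ G.c ≠ 0 := fun h => hlc ((hθ _).mp h)
    have hD' : θ G.b ^ 2 - θ G.a * θ G.c = 0 := by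
      have := (hθ _).mpr hD
      simpa only [DD, map_sub, map_mul, map_pow] using this
    have hbc' : θ w ^ 2 * θ G.b ^ 3 - θ G.c ^ 3 = 0 := by
      have := (hθ _).mpr hbc
      simpa only [map_sub, map_mul, map_pow] using this
    have hw := hom_w θ
    have hw3 : θ w ^ 3 = 1 := by rw [← map_pow, w_cube, map_one]
    have hb0 : θ G.b ≠ 0 := by
      intro h
      rw [h] at hbc'
      apply hc0
      have : θ G.c ^ 3 = 0 := by linear_combination -hbc'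
      exact pow_eq_zero_iff (by norm_num) |>.mp this
    have ha : θ G.a = θ G.b ^ 2 / θ G.c := by
      rw [eq_div_iff hc0]; linear_combination -hD'
    refine ⟨θ G.b / θ G.c, div_ne_zero hb0 hc0, ?_, ?_, ?_⟩
    · rw [div_pow, div_eq_iff (pow_ne_zero 3 hc0)]
      linear_combination (θ w) * hbc' - (θ G.b ^ 3) * hw3
    · rw [ha]; field_simp
      linear_combination (θ G.b ^ 2) * hw
    · rw [ha]; field_simp
      linear_combination (θ G.b ^ 2) * (hw + (θ w) * hw3)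
  by_cases hlp : l ∣ (p : Eis)
  · have h1 := (norm_of_dvd_p X.hπ hl hlp).2.resolve_right hlne
    obtain ⟨τ, hτ0, hτ3, f1, f2⟩ := key (ZMod p) X.φ' (fun x => by
      rw [X.φ'_zero]; exact h1.symm.dvd_iff_dvd_left)
    rw [X.φ'_w] at hτ3 f1 f2
    have hW3 := X.W3
    have ht2 : (X.t ^ 2) ^ 3 = X.W ^ 2 := by rw [← X.tW]; ring
    have e5 : X.t ^ 5 = X.W * X.t ^ 2 := by rw [← X.tW]; ring
    have hfac : (τ - X.t ^ 2) * ((τ - X.W * X.t ^ 2) * (τ - X.W ^ 2 * X.t ^ 2)) = 0 := by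
      have hWr := X.W_rel
      linear_combination hτ3 - ht2 + (τ * X.t ^ 4 * X.W - τ ^ 2 * X.t ^ 2) * hWr
        - (X.t ^ 6) * hW3
    have n2' := n2
    have n5' := n5
    rw [E2_apply] at n2'
    rw [E5_apply, e5] at n5'
    rcases mul_eq_zero.mp hfac with h | h
    · -- τ = t^2 : W^4 τ = W t^2 = t^5
      have hτ : τ = X.t ^ 2 := sub_eq_zero.mp h
      apply n5'
      rw [hτ] at f2
      have e : (X.W ^ 2) ^ 2 * X.t ^ 2 = X.W * X.t ^ 2 := by
        linear_combination (X.W * X.t ^ 2) * hW3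
      rw [e] at f2
      exact f2
    · rcases mul_eq_zero.mp h with h | h
      · -- τ = W t^2 : W^2 τ = t^2
        have hτ : τ = X.W * X.t ^ 2 := sub_eq_zero.mp h
        apply n2'
        rw [hτ] at f1
        have e : X.W ^ 2 * (X.W * X.t ^ 2) = X.t ^ 2 := by
          linear_combination (X.t ^ 2) * hW3
        rw [e] at f1
        exact f1
      · -- τ = W^2 t^2 : W^2 τ = W t^2
        have hτ : τ = X.W ^ 2 * X.t ^ 2 := sub_eq_zero.mp h
        apply n5'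
        rw [hτ] at f1
        have e : X.W ^ 2 * (X.W ^ 2 * X.t ^ 2) = X.W * X.t ^ 2 := by
          linear_combination (X.W * X.t ^ 2) * hW3
        rw [e] at f1
        exact f1
  · -- l does not divide p
    let I : Ideal Eis := Ideal.span {l}
    have hI : I.IsPrime := (Ideal.span_singleton_prime hl.ne_zero).mpr hl
    have hI0 : I ≠ ⊥ := by
      intro h
      exact hl.ne_zero (Ideal.span_singleton_eq_bot.mp h)
    have hImax : I.IsMaximal := IsPrime.to_maximal_ideal hI0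
    let _ : Field (Eis ⧸ I) := Ideal.Quotient.field I
    let θ : Eis →+* Eis ⧸ I := Ideal.Quotient.mk I
    have hθ : ∀ x, θ x = 0 ↔ l ∣ x := fun x => by
      rw [Ideal.Quotient.eq_zero_iff_mem, Ideal.mem_span_singleton]
    obtain ⟨τ, hτ0, hτ3, f1, f2⟩ := key (Eis ⧸ I) θ hθ
    have hw := hom_w θ
    have hw3 : θ w ^ 3 = 1 := by rw [← map_pow, w_cube, map_one]
    have hw0 : θ w ≠ 0 := fun h => not_dvd_of_isUnit hl isUnit_w ((hθ _).mp h)
    have t1 : (θ w * τ) ^ 3 = θ w := by rw [mul_pow, hw3, hτ3, one_mul]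
    have t2 : (θ w ^ 2 * τ) ^ 3 = θ w := by
      rw [mul_pow, hτ3]; linear_combination (θ w) * (θ w ^ 3 + 1) * hw3
    have hp0 : θ (p : Eis) ≠ 0 := fun h => hlp ((hθ _).mp h)
    have hR := X.R4 hB R1
    have g : ∀ (τ' : Eis ⧸ I) (ht' : τ' ^ 3 = θ w), τ' ≠ 0 →
        θ G.a + θ G.b * τ' + θ G.c * τ' ^ 2 = 0 →
        θ X.γ + θ (w ^ 2 * conj X.γ) * τ' = 0 := by
      intro τ' ht' hτ'0 hG
      have h1 := congrArg (ev θ τ' ht') hR
      have h2 : ev θ τ' ht' G = 0 := hG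
      have h3 : ev θ τ' ht' (p : Z9) = θ (p : Eis) := by rw [map_natCast, map_natCast]
      rw [map_mul, h2, zero_mul, map_neg, map_mul, h3] at h1
      have h4 : ev θ τ' ht' (kap X.γ) = 0 := by
        rcases mul_eq_zero.mp (neg_eq_zero.mp h1.symm) with h | h
        · exact h
        · exact absurd h hp0
      rw [ev_apply] at h4
      simp only [kap, map_zero] at h4
      apply mul_left_cancel₀ hτ'0
      linear_combination h4
    have g1 := g _ t1 (mul_ne_zero hw0 hτ0) f1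
    have g2 := g _ t2 (mul_ne_zero (pow_ne_zero 2 hw0) hτ0) f2
    have hw1 : θ w - 1 ≠ 0 := by
      intro h
      have : θ (w - 1) = 0 := by rw [map_sub, map_one]; exact h
      rw [hθ] at this
      apply hl3
      exact this.trans ⟨w ^ 2 - 1, by decide⟩
    have g3 : θ (w ^ 2 * conj X.γ) = 0 := by
      have h1 : θ (w ^ 2 * conj X.γ) * (θ w * τ * (θ w - 1)) = 0 := by
        linear_combination g2 - g1
      exact (mul_eq_zero.mp h1).resolve_right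
        (mul_ne_zero (mul_ne_zero hw0 hτ0) hw1)
    have g4 : θ X.γ = 0 := by rw [g3, zero_mul, add_zero] at g1; exact g1
    rw [hθ] at g3 g4
    have g5 := (hl.dvd_or_dvd g3).resolve_left (not_dvd_of_isUnit hl (isUnit_w.pow 2))
    exact X.hcopp l hl ⟨g4, g5⟩

end Ctx

end Pool.Agent.Lib_helper18

end

section

/-!
# Conclusion of Case II-b
-/

namespace Pool.Agent.Lib_helper18

open Eis Z9

namespace Ctx

variable {p : ℕ} [hp : Fact p.Prime] (X : Ctx p)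

/-- cubic residue character as a power -/
def P (y : ZMod p) : ZMod p := y ^ (3 * X.m)

theorem P_mul (x y : ZMod p) : X.P (x * y) = X.P x * X.P y := mul_pow _ _ _

theorem P_pow (x : ZMod p) (n : ℕ) : X.P (x ^ n) = X.P x ^ n := by
  rw [P, P, ← pow_mul, ← pow_mul, mul_comm]

theorem P_cube {x : ZMod p} (hx : x ≠ 0) : X.P x ^ 3 = 1 := by
  rw [P, ← pow_mul]
  have : 3 * X.m * 3 = p - 1 := by rw [X.hm]; ring
  rw [this]
  exact ZMod.pow_card_sub_one_eq_one hx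

theorem P_neg_one : X.P (-1) = 1 := by
  rw [P]; exact ((m_even X.hm).mul_left 3).neg_one_pow

theorem P_W : X.P X.W = 1 := by
  rw [P, pow_mul, X.W3, one_pow]

theorem P_ne {x : ZMod p} (hx : x ≠ 0) : X.P x ≠ 0 := pow_ne_zero _ hx

theorem P_neg (x : ZMod p) : X.P (-x) = X.P x := by
  have : -x = (-1) * x := by ring
  rw [this, P_mul, P_neg_one, one_mul]

theorem core {A B : ℕ} (hA : ¬ 3 ∣ A) (hB : ¬ 3 ∣ B) {G : Z9}
    (R1 : G * JJ X.ψ (8 * A) = X.kp * JJ X.ψ B) {f : ℕ} (hf : f = 1 ∨ f = 2) {S : Eis}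
    (hS : ¬ lam ∣ S) (H1 : Z9.N G = conj X.π ^ f * S ^ 3)
    (n2 : X.E2 G ≠ 0) (n4 : X.E4 G ≠ 0) (n5 : X.E5 G ≠ 0) (n7 : X.E7 G ≠ 0) :
    X.P (X.E4 G) = X.P (X.E7 G) := by
  have e4 : X.t ^ 4 = X.W * X.t := by rw [← X.tW]; ring
  have e7 : X.t ^ 7 = X.W ^ 2 * X.t := by rw [← X.tW]; ring
  have hprod : X.φ (Z9.N G) = X.E1 G * X.E4 G * X.E7 G := by
    rw [hom_N X.φ X.t X.ht, E1_apply, E4_apply, E7_apply, e4, e7]; rfl
  have hφc : X.φ (conj X.π) = 0 := (X.hφ _).mpr dvd_rfl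
  have n1 : X.E1 G = 0 := by
    have hf0 : f ≠ 0 := by omega
    rw [H1, map_mul, map_pow, hφc, zero_pow hf0, zero_mul] at hprod
    rcases mul_eq_zero.mp hprod.symm with h | h
    · exact (mul_eq_zero.mp h).resolve_right n4
    · exact absurd h n7
  rw [E1_apply] at n1
  obtain ⟨r1, r2, r3, r4⟩ := root_relations n1 X.tW X.W_rel
  set Δ1 := X.φ G.b - X.W * (X.φ G.c * X.t) with hΔ1
  set Δ2 := X.φ G.b - X.W ^ 2 * (X.φ G.c * X.t) with hΔ2
  have f4 : X.E4 G = (X.W - 1) * X.t * Δ2 := by rw [E4_apply, e4]; exact r1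
  have f7 : X.E7 G = -(X.W ^ 2 * (X.W - 1) * X.t * Δ1) := by rw [E7_apply, e7]; exact r2
  have hU : X.φ (UU G) = Δ1 * Δ2 * Δ2 := by
    rw [← r4]
    simp only [UU, map_add, map_sub, map_mul, map_pow, map_one]
    rfl
  have hΔ2ne : Δ2 ≠ 0 := by
    intro h; apply n4; rw [f4, h, mul_zero]
  have hΔ1ne : Δ1 ≠ 0 := by
    intro h; apply n7; rw [f7, h]; ring
  have H6 : ¬ conj X.π ∣ UU G := by
    rw [← X.hφ, hU]
    exact mul_ne_zero (mul_ne_zero hΔ1ne hΔ2ne) hΔ2ne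
  obtain ⟨H2a, b', c', H2b, H2c, H2⟩ := X.G_shape hA hB R1
  have hM2 : (conj X.π).im = 3 * (-X.M) := by rw [conj_im, X.hM]; ring
  have hre := re_not_dvd X.hp3 X.hπ ⟨X.M, X.hM⟩
  -- H5
  have H5 : lam ∣ b' → sym (conj X.π) lam = 0 := by
    intro hb
    have hc : lam ∣ c' := by
      have := dvd_sub hb H2
      simpa using this
    obtain ⟨b2, hb2⟩ := hb
    obtain ⟨c2, hc2⟩ := hc
    obtain ⟨C, hC, y, hy⟩ := cube_mod_nine H2a
    obtain ⟨C1, hC1, y1, hy1⟩ := cube_mod_nine hS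
    have hw := w_cube
    have h9 : (9 : Eis) = w * lam ^ 4 := by decide
    have h3l := three_eq
    have hN : conj X.π ^ f * (C1 : Eis) = (C : Eis) + 9 * (y + w ^ 2 * lam ^ 2 *
        (w * b2 ^ 3 + w ^ 2 * c2 ^ 3) - 3 * w ^ 3 * (G.a * b2 * c2) - conj X.π ^ f * y1) := by
      have h1 := H1
      rw [N_def, H2b, H2c, hb2, hc2, hy1, hy] at h1
      linear_combination -h1 + (w ^ 2 * lam ^ 2 * (w * b2 ^ 3 + w ^ 2 * c2 ^ 3)
        - 3 * w ^ 3 * (G.a * b2 * c2)) * (-h9) + (-(lam ^ 6 * (w * b2 ^ 3 + w ^ 2 * c2 ^ 3))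
        + 3 * w * lam ^ 4 * (G.a * b2 * c2)) * hw
    have h9im : ∀ z : Eis, (9 * z : Eis).im = 9 * z.im := by
      intro z
      have : (9 : Eis) = ((9 : ℤ) : Eis) := by ext <;> simp
      rw [this, mul_im, intCast_re, intCast_im]; ring
    have him := congrArg Eis.im hN
    rw [add_im, h9im, intCast_im, zero_add, mul_im, intCast_re, intCast_im, mul_zero, zero_add,
      mul_zero, sub_zero] at him
    have h10 : (9 : ℤ) ∣ (conj X.π ^ f).im := by
      have h11 : (9 : ℤ) ∣ (conj X.π ^ f).im * C1 := ⟨_, him⟩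
      rcases hC1 with h | h <;> rw [h] at h11
      · simpa using h11
      · simpa using h11
    have h3M : (3 : ℤ) ∣ X.M := by
      rcases hf with h | h
      · rw [h, pow_one, hM2] at h10
        omega
      · rw [h, pow_two, mul_im, hM2, conj_re, X.hM] at h10
        have h12 : (9 : ℤ) ∣ 6 * (X.π.re * X.M) := by
          have h13 : 6 * (X.π.re * X.M) = -((X.π.re - 3 * X.M) * (3 * -X.M) +
            3 * -X.M * (X.π.re - 3 * X.M) - 3 * -X.M * (3 * -X.M)) + 9 * X.M ^ 2 := by ring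
          rw [h13]
          exact dvd_add (by rw [dvd_neg]; exact h10) (dvd_mul_right _ _)
        have h13 : (3 : ℤ) ∣ X.π.re * X.M := by omega
        exact (Int.prime_three.dvd_or_dvd h13).resolve_left hre
    rw [sym_lam' X.hp9 X.hπc hM2]
    obtain ⟨c, hc⟩ := h3M
    rw [hc]
    push_cast
    have h3 : (3 : ZMod 3) = 0 := by decide
    rw [h3]; ring
  have hsym := sym_UU X.hp9 X.hπ X.hM hf H1 H2a H2b H2c H2
    (fun l hl _ hlne => X.G_prim hB R1 n2 l hl hlne)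
    (fun l hl hl3 hlne _ hlc hD hbc => X.G_cop hB R1 n2 n5 l hl hl3 hlne hlc hD hbc) H5 H6
  have hNc : (Eis.N (conj X.π) - 1) / 3 = 3 * X.m := by
    have : Eis.N (conj X.π) = p := by
      have := N_cast (conj X.π)
      rw [X.hπc] at this
      exact_mod_cast this
    have h2 := X.hm
    rw [this]; omega
  have hPU := map_pow_eq X.hπcpr (not_dvd_three X.hπc X.hp3) H6 X.φ hφc
  rw [hNc, hsym, ZMod.val_zero, pow_zero, hU] at hPU
  have hPU' : X.P Δ1 * X.P Δ2 * X.P Δ2 = 1 := by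
    rw [← P_mul, ← P_mul]; exact hPU
  have hP3 := X.P_cube hΔ2ne
  have hPeq : X.P Δ1 = X.P Δ2 := by
    linear_combination (-X.P Δ1) * hP3 + X.P Δ2 * hPU'
  rw [f4, f7, P_neg, P_mul, P_mul, P_mul, P_mul, P_mul, P_pow, P_W, hPeq]
  ring

end Ctx

end Pool.Agent.Lib_helper18

end

section

/-!
# Case II-b
-/

namespace Pool.Agent.Lib_helper18

open Eis Z9

namespace Ctx

variable {p : ℕ} [hp : Fact p.Prime] (X : Ctx p)

theorem one_sub_W_ne : 1 - X.W ≠ 0 := by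
  intro h
  apply X.W_ne_one
  linear_combination -h

theorem one_sub_t_ne : 1 - X.t ≠ 0 := by
  intro h
  have h1 : X.t = 1 := by linear_combination -h
  have h2 := X.tW
  rw [h1] at h2
  apply X.W_ne_one
  linear_combination -h2

theorem P_kp : X.P (X.E4 X.kp) * X.P (1 - X.W) = X.P (X.E7 X.kp) := by
  have hWr := X.W_rel
  have htW := X.tW
  have hrel : X.t ^ 6 + X.t ^ 3 + 1 = 0 := by
    rw [← htW] at hWr; linear_combination hWr
  have e4 : X.E4 th = -1 + X.t + X.W ^ 2 * X.t ^ 2 := by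
    rw [E4_apply]; simp only [th, map_neg, map_one, map_pow]
    have h : X.φ w = X.W := rfl
    rw [h, ← htW]
    have h9 := X.t9
    linear_combination (X.t) * h9
  have e7 : X.E7 th = -1 + X.W * X.t + X.W * X.t ^ 2 := by
    rw [E7_apply]; simp only [th, map_neg, map_one, map_pow]
    have h : X.φ w = X.W := rfl
    rw [h, ← htW]
    have h9 := X.t9
    linear_combination (X.t ^ 4 + X.t ^ 5) * h9
  have hid : X.E4 th * (1 - X.W) = (1 - X.t) ^ 3 * X.E7 th := by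
    rw [e4, e7, ← htW]
    linear_combination (-X.t ^ 5 + 3 * X.t ^ 2 - 2 * X.t) * hrel
  have hk : X.E4 (kap X.γ) = -X.E7 (kap X.γ) := by
    rw [E4_kap, E7_kap, ← htW]
    linear_combination (X.H * X.t ^ 5 * (X.t ^ 3 - 1)) * hrel
  rw [kp, map_mul, map_mul, hk]
  calc X.P (-X.E7 (kap X.γ) * X.E4 th) * X.P (1 - X.W)
      = X.P (X.E7 (kap X.γ)) * X.P (X.E4 th * (1 - X.W)) := by
        rw [P_mul, P_mul, P_neg]; ring
    _ = X.P (X.E7 (kap X.γ)) * (X.P (1 - X.t) ^ 3 * X.P (X.E7 th)) := by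
        rw [hid, P_mul, P_pow]
    _ = X.P (X.E7 (kap X.γ) * X.E7 th) := by
        rw [X.P_cube X.one_sub_t_ne, P_mul]; ring

/-- `(3m)!` modulo `p` -/
def f3 : ZMod p := (((3 * X.m).factorial : ℕ) : ZMod p)

theorem m_pos : 0 < X.m := by
  have h1 := X.hm
  have h2 := hp.out.two_le
  omega

theorem f3_ne : X.f3 ≠ 0 := fact_ne_zero _ (by
  have h1 := X.hm
  have h2 := X.m_pos
  omega)

theorem j_ne {r : ℕ} (hr : 5 ≤ r) (hr2 : r ≤ 8) : jv p X.m r ≠ 0 := jv_ne_zero X.hm hr hr2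

theorem P_ratio : X.P (jv p X.m 8) * X.P X.f3 = X.P (jv p X.m 5) := by
  have h := congrArg X.P (jv_ratio X.hm)
  have h4 : (((4 * X.m).factorial : ℕ) : ZMod p) ≠ 0 := fact_ne_zero _ (by
    have h1 := X.hm
    have h2 := X.m_pos
    omega)
  rw [P_mul, P_neg, P_mul, P_pow, X.P_cube (mul_ne_zero h4 (pow_ne_zero _ X.three_ne)),
    one_mul] at h
  exact h

/-- norms of the Jacobi sums -/
theorem norms : ∃ u : Eis, (u = 1 ∨ u = -1) ∧
    Z9.N (JJ X.ψ 1) = u * (X.π * conj X.π ^ 2) ∧ Z9.N (JJ X.ψ 4) = u * (X.π * conj X.π ^ 2) ∧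
    Z9.N (JJ X.ψ 8) = u * (conj X.π * X.π ^ 2) ∧ Z9.N (JJ X.ψ 5) = u * (conj X.π * X.π ^ 2) := by
  obtain ⟨u, hu, h1⟩ := norm_J X.hp9 X.hπ ⟨X.M, X.hM⟩ X.hφ X.ht X.hm X.hψ
  have h4 : Z9.N (JJ X.ψ 4) = u * (X.π * conj X.π ^ 2) := by
    have := X.hψ.map_JJ σ 4 σ_z 1
    rw [← h1, ← N_σ (JJ X.ψ 1), this]
  have hcu : conj u = u := by
    rcases hu with h | h <;> rw [h]
    · exact map_one _
    · rw [map_neg, map_one]
  have h8 : Z9.N (JJ X.ψ 8) = u * (conj X.π * X.π ^ 2) := by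
    have := X.hψ.map_JJ bar 8 bar_z 1
    have e : JJ X.ψ 8 = bar (JJ X.ψ 1) := this.symm
    rw [e, N_bar, h1, map_mul, map_mul, map_pow, conj_conj, hcu]
  have h5 : Z9.N (JJ X.ψ 5) = u * (conj X.π * X.π ^ 2) := by
    have := X.hψ.map_JJ bar 8 bar_z 4
    rw [X.hψ.JJ_mod_nine (8 * 4)] at this
    have e : JJ X.ψ 5 = bar (JJ X.ψ 4) := this.symm
    rw [e, N_bar, h4, map_mul, map_mul, map_pow, conj_conj, hcu]
  exact ⟨u, hu, h1, h4, h8, h5⟩

theorem lam_s : ¬ lam ∣ (X.s : Eis) := by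
  rw [lam_dvd_iff]
  simp only [intCast_re, intCast_im, add_zero]
  exact X.hs3

theorem pc_eq : (p : Eis) = X.π * conj X.π := (mul_conj_p X.hπ).symm

theorem u_ne {u : Eis} (hu : u = 1 ∨ u = -1) : u ≠ 0 := by
  rcases hu with h | h <;> rw [h]
  · exact one_ne_zero
  · exact neg_ne_zero.mpr one_ne_zero

theorem rel_of_G {A B : ℕ} (hA : ¬ 3 ∣ A) (hB : ¬ 3 ∣ B) {G : Z9}
    (hG : (p : Z9) * G = X.kp * JJ X.ψ A * JJ X.ψ B) :
    G * JJ X.ψ (8 * A) = X.kp * JJ X.ψ B ∧ G * JJ X.ψ (8 * B) = X.kp * JJ X.ψ A := by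
  have h1 := X.hψ.JJ_mul hA
  have h2 := X.hψ.JJ_mul hB
  have hp0 : (p : Z9) ≠ 0 := by exact_mod_cast hp.out.ne_zero
  constructor
  · apply mul_left_cancel₀ hp0
    linear_combination (JJ X.ψ (8 * A)) * hG + (X.kp * JJ X.ψ B) * h1
  · apply mul_left_cancel₀ hp0
    linear_combination (JJ X.ψ (8 * B)) * hG + (X.kp * JJ X.ψ A) * h2

/-- the outcome for `e = 1` -/
theorem out_one (he : X.e = 1) : X.P (1 - X.W) * X.P X.f3 = 1 := by
  have hm := X.hm
  -- values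
  have v1 : X.E1 X.kp = 0 := X.E1_kp
  obtain ⟨G, hG⟩ := X.exists_div (x := X.kp * JJ X.ψ 1 * JJ X.ψ 4)
    (by rw [map_mul, map_mul, v1]; ring)
    (by rw [map_mul, map_mul, X.hψ.ev_JJ hm X.E4 X.E4_z (a := 1) (r := 4) (by norm_num)
          (by norm_num), jv_zero hm (by norm_num) (by norm_num)]; ring)
    (by rw [map_mul, map_mul, X.hψ.ev_JJ hm X.E7 X.E7_z (a := 4) (r := 1) (by norm_num)
          (by norm_num), jv_zero hm (by norm_num) (by norm_num)]; ring)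
    (by rw [map_mul, map_mul, X.hψ.ev_JJ hm X.E2 X.E2_z (a := 1) (r := 2) (by norm_num)
          (by norm_num), jv_zero hm (by norm_num) (by norm_num)]; ring)
    (by rw [map_mul, map_mul, X.hψ.ev_JJ hm X.E5 X.E5_z (a := 4) (r := 2) (by norm_num)
          (by norm_num), jv_zero hm (by norm_num) (by norm_num)]; ring)
    (by rw [map_mul, map_mul, X.E8_kp]; ring)
  obtain ⟨R1, R2⟩ := X.rel_of_G (by norm_num) (by norm_num) hG
  obtain ⟨u, hu, u1, u4, u8, u5⟩ := X.norms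
  -- norm of G
  have hNG : Z9.N G = conj X.π ^ 2 * (-(X.s : Eis)) ^ 3 := by
    have h := congrArg Z9.N R1
    rw [Z9.N_mul, Z9.N_mul, X.N_kp, u4, he, pow_one] at h
    rw [show 8 * 1 = 8 from rfl, u8, X.pc_eq] at h
    have hne : u * (conj X.π * X.π ^ 2) ≠ 0 :=
      mul_ne_zero (u_ne hu) (mul_ne_zero X.hπcpr.ne_zero (pow_ne_zero 2 X.hπpr.ne_zero))
    apply mul_right_cancel₀ hne
    linear_combination h
  -- evaluations
  have a2 := congrArg X.E2 R1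
  rw [map_mul, map_mul, X.hψ.ev_JJ hm X.E2 X.E2_z (a := 4) (r := 8) (by norm_num)
    (by norm_num)] at a2
  have n2 : X.E2 G ≠ 0 := by
    intro h; rw [h, zero_mul] at a2
    exact mul_ne_zero X.E2_kp_ne (X.j_ne (by norm_num) (by norm_num)) a2.symm
  have a5 := congrArg X.E5 R2
  rw [map_mul, map_mul, X.hψ.ev_JJ hm X.E5 X.E5_z (a := 1) (r := 5) (by norm_num)
    (by norm_num)] at a5
  have n5 : X.E5 G ≠ 0 := by
    intro h; rw [h, zero_mul] at a5
    exact mul_ne_zero X.E5_kp_ne (X.j_ne (by norm_num) (by norm_num)) a5.symm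
  have a4 := congrArg X.E4 R1
  rw [map_mul, map_mul, X.hψ.ev_JJ hm X.E4 X.E4_z (a := 4) (r := 7) (by norm_num)
    (by norm_num), X.hψ.ev_JJ hm X.E4 X.E4_z (a := 8 * 1) (r := 5) (by norm_num)
    (by norm_num)] at a4
  have n4 : X.E4 G ≠ 0 := by
    intro h; rw [h, zero_mul] at a4
    exact mul_ne_zero X.E4_kp_ne (X.j_ne (by norm_num) (by norm_num)) a4.symm
  have a7 := congrArg X.E7 R2
  rw [map_mul, map_mul, X.hψ.ev_JJ hm X.E7 X.E7_z (a := 1) (r := 7) (by norm_num)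
    (by norm_num), X.hψ.ev_JJ hm X.E7 X.E7_z (a := 8 * 4) (r := 8) (by norm_num)
    (by norm_num)] at a7
  have n7 : X.E7 G ≠ 0 := by
    intro h; rw [h, zero_mul] at a7
    exact mul_ne_zero X.E7_kp_ne (X.j_ne (by norm_num) (by norm_num)) a7.symm
  have hcore := X.core (by norm_num) (by norm_num) R1 (Or.inr rfl)
    (by rw [dvd_neg]; exact X.lam_s) hNG n2 n4 n5 n7
  have b4 := congrArg X.P a4
  have b7 := congrArg X.P a7
  rw [P_mul, P_mul] at b4 b7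
  have hkp := X.P_kp
  have hr := X.P_ratio
  have ne7 := X.P_ne (X.j_ne (r := 7) (by norm_num) (by norm_num))
  have ne8 := X.P_ne (X.j_ne (r := 8) (by norm_num) (by norm_num))
  have neG := X.P_ne n4
  rw [← hcore, ← hkp] at b7
  -- g P5 = a P7 ; g P8 = a c P7 ; P8 F = P5
  apply mul_left_cancel₀ (mul_ne_zero neG ne8)
  linear_combination X.P (1 - X.W) * X.P (X.E4 G) * hr + X.P (1 - X.W) * b4 - b7

/-- the outcome for `e = 2` -/
theorem out_two (he : X.e = 2) : X.P (1 - X.W) = X.P X.f3 := by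
  have hm := X.hm
  have v1 : X.E1 X.kp = 0 := X.E1_kp
  obtain ⟨G, hG⟩ := X.exists_div (x := X.kp * JJ X.ψ 8 * JJ X.ψ 5)
    (by rw [map_mul, map_mul, v1]; ring)
    (by rw [map_mul, map_mul, X.hψ.ev_JJ hm X.E4 X.E4_z (a := 5) (r := 2) (by norm_num)
          (by norm_num), jv_zero hm (by norm_num) (by norm_num)]; ring)
    (by rw [map_mul, map_mul, X.hψ.ev_JJ hm X.E7 X.E7_z (a := 8) (r := 2) (by norm_num)
          (by norm_num), jv_zero hm (by norm_num) (by norm_num)]; ring)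
    (by rw [map_mul, map_mul, X.hψ.ev_JJ hm X.E2 X.E2_z (a := 5) (r := 1) (by norm_num)
          (by norm_num), jv_zero hm (by norm_num) (by norm_num)]; ring)
    (by rw [map_mul, map_mul, X.hψ.ev_JJ hm X.E5 X.E5_z (a := 8) (r := 4) (by norm_num)
          (by norm_num), jv_zero hm (by norm_num) (by norm_num)]; ring)
    (by rw [map_mul, map_mul, X.E8_kp]; ring)
  obtain ⟨R1, R2⟩ := X.rel_of_G (by norm_num) (by norm_num) hG
  obtain ⟨u, hu, u1, u4, u8, u5⟩ := X.norms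
  have hNG : Z9.N G = conj X.π ^ 1 * (-(X.π * (X.s : Eis))) ^ 3 := by
    have h := congrArg Z9.N R1
    rw [Z9.N_mul, Z9.N_mul, X.N_kp, u5, he] at h
    rw [X.hψ.JJ_mod_nine (8 * 8), show 8 * 8 % 9 = 1 from rfl, u1, X.pc_eq] at h
    have hne : u * (X.π * conj X.π ^ 2) ≠ 0 :=
      mul_ne_zero (u_ne hu) (mul_ne_zero X.hπpr.ne_zero (pow_ne_zero 2 X.hπcpr.ne_zero))
    apply mul_right_cancel₀ hne
    linear_combination h
  have a2 := congrArg X.E2 R2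
  rw [map_mul, map_mul, X.hψ.ev_JJ hm X.E2 X.E2_z (a := 8) (r := 7) (by norm_num)
    (by norm_num)] at a2
  have n2 : X.E2 G ≠ 0 := by
    intro h; rw [h, zero_mul] at a2
    exact mul_ne_zero X.E2_kp_ne (X.j_ne (by norm_num) (by norm_num)) a2.symm
  have a5 := congrArg X.E5 R1
  rw [map_mul, map_mul, X.hψ.ev_JJ hm X.E5 X.E5_z (a := 5) (r := 7) (by norm_num)
    (by norm_num)] at a5
  have n5 : X.E5 G ≠ 0 := by
    intro h; rw [h, zero_mul] at a5
    exact mul_ne_zero X.E5_kp_ne (X.j_ne (by norm_num) (by norm_num)) a5.symm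
  have a4 := congrArg X.E4 R2
  rw [map_mul, map_mul, X.hψ.ev_JJ hm X.E4 X.E4_z (a := 8) (r := 5) (by norm_num)
    (by norm_num), X.hψ.ev_JJ hm X.E4 X.E4_z (a := 8 * 5) (r := 7) (by norm_num)
    (by norm_num)] at a4
  have n4 : X.E4 G ≠ 0 := by
    intro h; rw [h, zero_mul] at a4
    exact mul_ne_zero X.E4_kp_ne (X.j_ne (by norm_num) (by norm_num)) a4.symm
  have a7 := congrArg X.E7 R1
  rw [map_mul, map_mul, X.hψ.ev_JJ hm X.E7 X.E7_z (a := 5) (r := 8) (by norm_num)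
    (by norm_num), X.hψ.ev_JJ hm X.E7 X.E7_z (a := 8 * 8) (r := 7) (by norm_num)
    (by norm_num)] at a7
  have n7 : X.E7 G ≠ 0 := by
    intro h; rw [h, zero_mul] at a7
    exact mul_ne_zero X.E7_kp_ne (X.j_ne (by norm_num) (by norm_num)) a7.symm
  have hlamS : ¬ lam ∣ -(X.π * (X.s : Eis)) := by
    rw [dvd_neg]
    intro h
    rcases prime_lam.dvd_or_dvd h with h | h
    · exact (Prim.not_lam_dvd ⟨⟨X.M, X.hM⟩, re_not_dvd X.hp3 X.hπ ⟨X.M, X.hM⟩⟩) h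
    · exact X.lam_s h
  have hcore := X.core (by norm_num) (by norm_num) R1 (Or.inl rfl) hlamS hNG n2 n4 n5 n7
  have b4 := congrArg X.P a4
  have b7 := congrArg X.P a7
  rw [P_mul, P_mul] at b4 b7
  have hkp := X.P_kp
  have hr := X.P_ratio
  have ne8 := X.P_ne (X.j_ne (r := 8) (by norm_num) (by norm_num))
  have nek := X.P_ne X.E4_kp_ne
  rw [← hcore, ← hkp] at b7
  apply mul_left_cancel₀ (mul_ne_zero nek ne8)
  linear_combination b4 - b7 - X.P (X.E4 X.kp) * hr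

/-- the value of `π` -/
theorem pi_value : ∃ δ : ZMod p, (δ = 1 ∨ δ = -1) ∧
    ((X.φ r3) ^ 3 * (X.M : ZMod p)) * X.f3 ^ 3 = δ := by
  have hp3 := X.hp3
  have hm := X.hm
  obtain ⟨χ, h1, h2, h3⟩ := exists_cubic_char hp3 X.φ
  have hJ := jacobi_eq hp3 X.hπc (conj_im_dvd ⟨X.M, X.hM⟩) X.φ X.hφ h1 h2 h3
  have hcomp := char_conj h2
  have hJc : conj (jacobiSum χ χ) = jacobiSum χ⁻¹ χ⁻¹ := by
    rw [← jacobiSum_ringHomComp, hcomp]
  have hinv : χ⁻¹ = χ ^ 2 := by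
    rw [inv_eq_iff_mul_eq_one, ← pow_succ', char_cube h2]
  have hval : X.φ (conj (jacobiSum χ χ)) = jv p X.m 6 := by
    rw [hJc, hinv]
    have hk : ∀ x : ZMod p, x ≠ 0 → X.φ ((χ ^ 2) x) = x ^ (X.m * 6) := by
      intro x hx
      rw [MulChar.pow_apply' _ (by norm_num), map_pow, h1 x hx, ← pow_mul]
      congr 1; omega
    rw [map_jacobiSum X.φ (χ ^ 2) (X.m * 6) (Nat.mul_pos X.m_pos (by norm_num)) hk]
    rfl
  have hsix := jv_six hm
  have hpi := hom_pi X.φ X.hφ X.hM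
  rcases hJ with h | h
  · rw [h, conj_conj] at hval
    refine ⟨-1, Or.inr rfl, ?_⟩
    rw [hval] at hpi
    rw [f3]
    linear_combination ((((3 * X.m).factorial : ℕ) : ZMod p) ^ 3) * hpi - hsix
  · rw [h, map_neg, conj_conj, map_neg] at hval
    refine ⟨1, Or.inl rfl, ?_⟩
    rw [f3]
    linear_combination ((((3 * X.m).factorial : ℕ) : ZMod p) ^ 3) * hpi
      + (((3 * X.m).factorial : ℕ) : ZMod p) ^ 3 * hval + hsix

theorem conclusion : Concl p X.e X.M := by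
  obtain ⟨δ, hδ, hM⟩ := X.pi_value
  have hr3 : X.φ r3 = X.W * (1 - X.W) := by
    rw [r3, lam_eq, map_mul, map_sub, map_one]; rfl
  have hr2 : (X.φ r3) ^ 2 = -3 := by rw [← map_pow, r3_sq, map_neg, hom_three]
  have hPr : X.P (X.φ r3) = X.P (1 - X.W) := by rw [hr3, P_mul, P_W, one_mul]
  have hr0 : X.φ r3 ≠ 0 := by rw [hr3]; exact mul_ne_zero X.W_ne X.one_sub_W_ne
  have hf0 := X.f3_ne
  have hδm : δ ^ X.m = 1 := by
    rcases hδ with h | h
    · rw [h, one_pow]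
    · rw [h]; exact (m_even X.hm).neg_one_pow
  have hδ0 : δ ≠ 0 := by
    rcases hδ with h | h <;> rw [h] <;> simp
  have hM0 : (X.M : ZMod p) ≠ 0 := by
    intro h; rw [h] at hM; apply hδ0; rw [← hM]; ring
  have hMm : (X.M : ZMod p) ^ X.m * (X.P (1 - X.W) * X.P X.f3) = 1 := by
    have h1 : (((X.φ r3) ^ 3 * (X.M : ZMod p)) * X.f3 ^ 3) ^ X.m = δ ^ X.m := by rw [hM]
    rw [hδm, mul_pow, mul_pow, ← pow_mul, ← pow_mul] at h1
    rw [← hPr, P, P]
    linear_combination h1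
  rcases X.he with he | he
  · have hout := X.out_one he
    rw [hout, mul_one] at hMm
    obtain ⟨τ, hτ⟩ := exists_root X.hm hM0 hMm
    refine ⟨τ, ?_⟩
    rw [he, hτ]; norm_num
  · have hout := X.out_two he
    have h27 : (27 : ZMod p) ≠ 0 := by
      have : (27 : ZMod p) = 3 ^ 3 := by norm_num
      rw [this]; exact pow_ne_zero _ X.three_ne
    have h27m : (27 : ZMod p) ^ X.m = X.P (1 - X.W) ^ 2 := by
      have h1 : (27 : ZMod p) = -((X.φ r3) ^ 3) ^ 2 := by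
        have : ((X.φ r3) ^ 3) ^ 2 = ((X.φ r3) ^ 2) ^ 3 := by ring
        rw [this, hr2]; norm_num
      rw [h1, neg_pow, (m_even X.hm).neg_one_pow, one_mul, ← pow_mul, ← pow_mul, ← hPr, P,
        ← pow_mul]
      congr 1; ring
    have hx0 : (X.M : ZMod p) ^ 2 / 27 ≠ 0 := div_ne_zero (pow_ne_zero 2 hM0) h27
    have hc3 := X.P_cube X.one_sub_W_ne
    have hc0 := X.P_ne X.one_sub_W_ne
    rw [← hout] at hMm
    have hxm : ((X.M : ZMod p) ^ 2 / 27) ^ X.m = 1 := by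
      rw [div_pow, h27m, div_eq_one_iff_eq (pow_ne_zero 2 hc0), ← pow_mul, mul_comm 2, pow_mul]
      -- M^m c^2 = 1 so M^m = c
      have h1 : (X.M : ZMod p) ^ X.m = X.P (1 - X.W) := by
        linear_combination (X.P (1 - X.W)) * hMm - (X.M : ZMod p) ^ X.m * hc3
      rw [h1]
    obtain ⟨τ, hτ⟩ := exists_root X.hm hx0 hxm
    refine ⟨τ, ?_⟩
    rw [he, hτ]
    have : (27 : ZMod p) ^ (2 - 1) = 27 := by norm_num
    rw [this]; field_simp

end Ctx

/-- **Case II-b**. -/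
theorem caseIIb {p : ℕ} [hp : Fact p.Prime] (hp9 : p % 9 = 1) {π : Eis} (hπ : π.norm = p)
    {M : ℤ} (hM : π.im = 3 * M) {e : ℕ} (he : e = 1 ∨ e = 2) (ξ γ : Eis) (s : ℤ)
    (hξ : ξ = γ ^ 3) (hγ3 : ¬ lam ∣ γ) (hcop : IsCoprime ξ (conj ξ))
    (hs : ξ.re + ξ.im = (p : ℤ) ^ e * s ^ 3) : Concl p e M := by
  have hp3 : p % 3 = 1 := by omega
  obtain ⟨m, hm⟩ : ∃ m, p - 1 = 9 * m := ⟨(p - 1) / 9, by
    have := hp.out.two_le
    omega⟩
  obtain ⟨i, hi⟩ := exists_prim hγ3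
  set γ' := γ * w ^ i with hγ'
  have hξ' : ξ = γ' ^ 3 := by
    rw [hξ, hγ', mul_pow, ← pow_mul, mul_comm i, pow_mul, w_cube, one_pow, mul_one]
  have hcop' : IsCoprime γ' (conj γ') := by
    have h1 : γ' ∣ ξ := by rw [hξ']; exact dvd_pow_self _ (by norm_num)
    exact (hcop.of_isCoprime_of_dvd_left h1).of_isCoprime_of_dvd_right (conj_dvd h1)
  have hξprim : Prim ξ := by rw [hξ']; exact hi.pow 3
  have hs3 : ¬ (3 : ℤ) ∣ s := by
    intro h
    have h1 : (3 : ℤ) ∣ ξ.re + ξ.im := by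
      rw [hs]; exact Dvd.dvd.mul_left (Dvd.dvd.pow h (by norm_num)) _
    have h2 := hξprim.1
    have h4 := hξprim.2
    omega
  have hsE : w * γ' ^ 3 + w ^ 2 * (conj γ') ^ 3 = -((p : Eis) ^ e * (s : Eis) ^ 3) := by
    have h1 := sum_eq ξ
    rw [hs, hξ', map_pow] at h1
    push_cast at h1
    linear_combination h1
  obtain ⟨φ, hφ⟩ := exists_hom (conj_norm hπ)
  have hw3 : (φ w) ^ 3 = 1 := by rw [← map_pow, w_cube, map_one]
  have hw0 : φ w ≠ 0 := by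
    intro h; rw [h] at hw3; norm_num at hw3
  have hp0 : φ (p : Eis) = 0 := by rw [map_natCast]; simp
  obtain ⟨t0, ht0⟩ := exists_root (p := p) (n := 3) (k := 3 * m) (by omega) hw0
    (by rw [pow_mul, hw3, one_pow])
  have ht00 : t0 ≠ 0 := by
    rintro rfl
    apply hw0; rw [← ht0]; norm_num
  have hprod := hom_N φ t0 ht0 (kap γ')
  have he0 : e ≠ 0 := by omega
  rw [N_kap, hsE, map_neg, map_mul, map_pow, hp0, zero_pow he0, zero_mul, neg_zero] at hprod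
  have hfac : ∀ s' : ZMod p, φ (kap γ').a + φ (kap γ').b * s' + φ (kap γ').c * s' ^ 2 =
      s' * (φ γ' + φ (w ^ 2 * conj γ') * s') := by
    intro s'
    simp only [kap, map_zero]; ring
  rw [hfac, hfac, hfac] at hprod
  obtain ⟨t, ht, ht1⟩ : ∃ t : ZMod p, t ^ 3 = φ w ∧ φ γ' + φ (w ^ 2 * conj γ') * t = 0 := by
    rcases mul_eq_zero.mp hprod.symm with h | h
    · rcases mul_eq_zero.mp h with h | h
      · exact ⟨t0, ht0, (mul_eq_zero.mp h).resolve_left ht00⟩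
      · refine ⟨φ w * t0, ?_, (mul_eq_zero.mp h).resolve_left (mul_ne_zero hw0 ht00)⟩
        rw [mul_pow, hw3, ht0, one_mul]
    · refine ⟨φ w ^ 2 * t0, ?_, (mul_eq_zero.mp h).resolve_left
        (mul_ne_zero (pow_ne_zero 2 hw0) ht00)⟩
      rw [mul_pow, ht0]
      linear_combination (φ w) * (φ w ^ 3 + 1) * hw3
  obtain ⟨ψ, hψ⟩ := exists_psi hp9 hm φ ht
  exact Ctx.conclusion (p := p) ⟨π, M, φ, t, m, ψ, γ', s, e, hp9, hπ, hM, hφ, ht, hm, hψ, he, hi,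
    hcop', hs3, hsE, ht1⟩

end Pool.Agent.Lib_helper18

end

section

/-!
# Rational points on `X^3 + Y^3 = p^e`
-/

namespace Pool.Agent.Lib_helper18

open Eis

/-- from rational to integral solutions -/
theorem integral_solution {A : ℤ} {X Y : ℚ} (h : X ^ 3 + Y ^ 3 = (A : ℚ)) :
    ∃ x y z : ℤ, z ≠ 0 ∧ x ^ 3 + y ^ 3 = A * z ^ 3 := by
  refine ⟨X.num * Y.den, Y.num * X.den, X.den * Y.den, ?_, ?_⟩
  · have h1 := X.den_ne_zero
    have h2 := Y.den_ne_zero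
    exact mul_ne_zero (by exact_mod_cast h1) (by exact_mod_cast h2)
  · have h1 : (X.den : ℚ) ≠ 0 := by exact_mod_cast X.den_ne_zero
    have h2 : (Y.den : ℚ) ≠ 0 := by exact_mod_cast Y.den_ne_zero
    have hX : X = X.num / X.den := (Rat.num_div_den X).symm
    have hY : Y = Y.num / Y.den := (Rat.num_div_den Y).symm
    have h3 : ((X.num : ℚ) / X.den) ^ 3 + ((Y.num : ℚ) / Y.den) ^ 3 = A := by
      rw [← hX, ← hY]; exact h
    have h4 : ((X.num : ℚ) * Y.den) ^ 3 + ((Y.num : ℚ) * X.den) ^ 3 =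
        A * ((X.den : ℚ) * Y.den) ^ 3 := by
      rw [← h3]; field_simp
    exact_mod_cast h4

/-- The ninth power criterion, for `A = p` and `A = p^2`. -/
theorem main (p : ℕ) (hp : p.Prime) (h9 : p % 9 = 1) (L M : ℤ)
    (hLM : 4 * (p : ℤ) = L ^ 2 + 27 * M ^ 2) {e : ℕ} (he : e = 1 ∨ e = 2) {X Y : ℚ}
    (h : X ^ 3 + Y ^ 3 = (p : ℚ) ^ e) : Concl p e M := by
  have : Fact p.Prime := ⟨hp⟩
  have hpar : ∃ a : ℤ, L = 2 * a - 3 * M := by
    have h1 : (L ^ 2 + 27 * M ^ 2) % 2 = 0 := by rw [← hLM]; omega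
    have h2 : L % 2 = 0 ∨ L % 2 = 1 := by omega
    have h3 : M % 2 = 0 ∨ M % 2 = 1 := by omega
    refine ⟨(L + 3 * M) / 2, ?_⟩
    rcases h2 with h2 | h2 <;> rcases h3 with h3 | h3
    · omega
    · exfalso
      simp [pow_two, Int.add_emod, Int.mul_emod, h2, h3] at h1
    · exfalso
      simp [pow_two, Int.add_emod, Int.mul_emod, h2, h3] at h1
    · omega
  obtain ⟨a, ha⟩ := hpar
  have hπ : (⟨a, 3 * M⟩ : Eis).norm = p := by
    rw [norm_def]
    simp only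
    rw [ha] at hLM
    have h4 : (4 : ℤ) ≠ 0 := by norm_num
    apply mul_left_cancel₀ h4
    linear_combination -hLM
  have hA : X ^ 3 + Y ^ 3 = (((p : ℤ) ^ e : ℤ) : ℚ) := by rw [h]; push_cast; rfl
  obtain ⟨x, y, z, hz, hxyz⟩ := integral_solution hA
  exact first_descent h9 hπ rfl he
    (fun ξ γ s h1 h2 h3 _ h5 => caseIIb h9 hπ rfl he ξ γ s h1 h2 h3 h5)
    z.natAbs x y z rfl hz hxyz

end Pool.Agent.Lib_helper18

end
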