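import Mathlib
import Pool.Agent.PTWX.C12

/-! Parts: Lib_helper84.Cub.CaseOne, Lib_helper84.Cub.CaseTwo -/

section

/-!
# Case I
-/

namespace Pool.Agent.Lib_helper84.Cub

open Pool.Agent.Lib_helper18 Pool.Agent.Lib_helper18.Eis

theorem cast_dvd_cast {q : ℕ} {n : ℤ} : (q : Eis) ∣ (n : Eis) ↔ (q : ℤ) ∣ n := by
  have := intCast_dvd_intCast (m := (q : ℤ)) (n := n)
  rwa [Int.cast_natCast] at this

theorem not_dvd_of_coprime {q : ℕ} (hq : q.Prime) {x y : ℤ} (h : IsCoprime x y)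
    (hx : (q : ℤ) ∣ x) : ¬ (q : ℤ) ∣ y := by
  intro hy
  exact (Nat.prime_iff_prime_int.mp hq).not_isUnit (h.isUnit_of_dvd' hx hy)

theorem not_dvd_of_coprime' {l : Eis} (hl : Prime l) {x y : ℤ} (h : IsCoprime x y)
    (hx : l ∣ (x : Eis)) : ¬ l ∣ (y : Eis) := by
  intro hy
  have h2 : IsCoprime (x : Eis) (y : Eis) := by
    obtain ⟨a, b, hab⟩ := h
    refine ⟨a, b, ?_⟩
    have := congrArg (fun n : ℤ => (n : Eis)) hab
    push_cast at this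
    exact this
  exact hl.not_isUnit (h2.isUnit_of_dvd' hx hy)

/-- the resolvent -/
def res (X0 X1 X2 : ℤ) : Eis := (X0 : Eis) + w * X1 + w ^ 2 * X2

theorem conj_res (X0 X1 X2 : ℤ) : conj (res X0 X1 X2) = (X0 : Eis) + w ^ 2 * X1 + w * X2 := by
  rw [res, map_add, map_add, map_mul, map_mul, map_pow, conj_w, conj_intCast, conj_intCast,
    conj_intCast]
  have : (w ^ 2) ^ 2 = w := by decide
  rw [this]

theorem sym_res {q : ℕ} (hq : q.Prime) (hq3 : q % 3 = 2) {X0 X1 X2 : ℤ} (hsum : X0 + X1 + X2 = 0)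
    (h01 : IsCoprime X0 X1) (h02 : IsCoprime X0 X2) {c : ZMod 3}
    (hc : (q : ℤ) ∣ X0 ∧ c = 0 ∨ (q : ℤ) ∣ X1 ∧ c = 1 ∨ (q : ℤ) ∣ X2 ∧ c = 2) :
    ¬ (q : Eis) ∣ res X0 X1 X2 ∧ sym (q : Eis) (res X0 X1 X2) = c * sym (q : Eis) w := by
  have hP := prime_inert hq hq3
  have h3 := n3 hq hq3
  have hw := not_dvd_w hP
  have hl := not_dvd_lam h3
  have hsl := sym_inert_lam hq hq3
  have hcast : ((X0 : Eis) + X1 + X2) = 0 := by exact_mod_cast congrArg (fun n : ℤ => (n : Eis)) hsum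
  have key : ∀ (Y : ℤ) (u : Eis), ¬ (q : ℤ) ∣ Y → ¬ (q : Eis) ∣ u →
      (q : Eis) ∣ res X0 X1 X2 - Y * u →
      ¬ (q : Eis) ∣ res X0 X1 X2 ∧ sym (q : Eis) (res X0 X1 X2) = sym (q : Eis) u := by
    intro Y u hY hu h
    have hY' : ¬ (q : Eis) ∣ (Y : Eis) := fun h' => hY (cast_dvd_cast.mp h')
    constructor
    · intro h'
      have h4 := dvd_sub h' h
      have e4 : res X0 X1 X2 - (res X0 X1 X2 - Y * u) = Y * u := by ring
      rw [e4] at h4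
      exact (hP.dvd_or_dvd h4).elim hY' hu
    · rw [sym_congr h, sym_mul hP h3 hY' hu, sym_int hq hq3 hY, zero_add]
  rcases hc with ⟨h, rfl⟩ | ⟨h, rfl⟩ | ⟨h, rfl⟩
  · have hu : ¬ (q : Eis) ∣ w * lam := fun h' => (hP.dvd_or_dvd h').elim hw hl
    obtain ⟨k1, k2⟩ := key X1 (w * lam) (not_dvd_of_coprime hq h01 h) hu (by
      have e : res X0 X1 X2 - X1 * (w * lam) = (X0 : Eis) * (1 - w ^ 2) := by
        rw [res, lam_eq]
        linear_combination w ^ 2 * hcast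
      rw [e]
      exact Dvd.dvd.mul_right (cast_dvd_cast.mpr h) _)
    refine ⟨k1, ?_⟩
    rw [k2, sym_mul hP h3 hw hl, hsl]; ring
  · have hw2 : ¬ (q : Eis) ∣ w ^ 2 := fun h => hw (hP.dvd_of_dvd_pow h)
    have hw2' : ¬ (q : Eis) ∣ -w ^ 2 := by rwa [dvd_neg]
    have hu : ¬ (q : Eis) ∣ -w ^ 2 * lam := fun h' => (hP.dvd_or_dvd h').elim hw2' hl
    obtain ⟨k1, k2⟩ := key X0 (-w ^ 2 * lam) (not_dvd_of_coprime hq h01.symm h) hu (by
      have e : res X0 X1 X2 - X0 * (-w ^ 2 * lam) = (X1 : Eis) * (w - w ^ 2) := by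
        rw [res, lam_eq]
        have h4 := w_cube
        linear_combination w ^ 2 * hcast - (X0 : Eis) * h4
      rw [e]
      exact Dvd.dvd.mul_right (cast_dvd_cast.mpr h) _)
    refine ⟨k1, ?_⟩
    rw [k2, sym_mul hP h3 hw2' hl, sym_neg hP h3 hw2, sym_pow hP h3 hw, hsl]
    push_cast; ring
  · obtain ⟨k1, k2⟩ := key X0 lam (not_dvd_of_coprime hq h02.symm h) hl (by
      have e : res X0 X1 X2 - X0 * lam = (X2 : Eis) * (w ^ 2 - w) := by
        rw [res, lam_eq]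
        linear_combination w * hcast
      rw [e]
      exact Dvd.dvd.mul_right (cast_dvd_cast.mpr h) _)
    refine ⟨k1, ?_⟩
    rw [k2, hsl]
    linear_combination -(sym (q : Eis) w) * three_zmod

/-- for a bad prime `l`, `B` is a noncube modulo `l` -/
theorem bad_B {q r a b : ℕ} {l : Eis} (hl : Prime l) (hl3 : ¬ l ∣ 3) (hlq : ¬ l ∣ (q : Eis))
    (hlr : ¬ l ∣ (r : Eis))
    (hbad : ¬ ((a : ZMod 3) * sym l (q : Eis) + (b : ZMod 3) * sym l (r : Eis) = 0)) :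
    ∀ u v : Eis, l ∣ u ^ 3 + ((q : Eis) ^ a * (r : Eis) ^ b) * v ^ 3 → l ∣ u ∧ l ∣ v := by
  intro u v h
  have hqa : ¬ l ∣ (q : Eis) ^ a := fun h' => hlq (hl.dvd_of_dvd_pow h')
  have hrb : ¬ l ∣ (r : Eis) ^ b := fun h' => hlr (hl.dvd_of_dvd_pow h')
  have hB : ¬ l ∣ (q : Eis) ^ a * (r : Eis) ^ b := fun h' => (hl.dvd_or_dvd h').elim hqa hrb
  by_cases hv : l ∣ v
  · have h1 : l ∣ ((q : Eis) ^ a * (r : Eis) ^ b) * v ^ 3 :=
      Dvd.dvd.mul_left (Dvd.dvd.pow hv (by norm_num)) _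
    exact ⟨hl.dvd_of_dvd_pow ((dvd_add_left h1).mp h), hv⟩
  · exfalso
    apply hbad
    have hv3 : ¬ l ∣ v ^ 3 := fun h' => hv (hl.dvd_of_dvd_pow h')
    have hBv : ¬ l ∣ ((q : Eis) ^ a * (r : Eis) ^ b) * v ^ 3 := fun h' =>
      (hl.dvd_or_dvd h').elim hB hv3
    have hu : ¬ l ∣ u := by
      intro h'
      have h1 : l ∣ u ^ 3 := Dvd.dvd.pow h' (by norm_num)
      exact hBv ((dvd_add_right h1).mp h)
    have h5 : l ∣ ((q : Eis) ^ a * (r : Eis) ^ b) * v ^ 3 - (-u) ^ 3 := by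
      have e : ((q : Eis) ^ a * (r : Eis) ^ b) * v ^ 3 - (-u) ^ 3 =
        u ^ 3 + ((q : Eis) ^ a * (r : Eis) ^ b) * v ^ 3 := by ring
      rw [e]; exact h
    have h6 := sym_congr h5
    have hu' : ¬ l ∣ -u := by rwa [dvd_neg]
    rw [sym_cube hl hl3 hu', sym_mul hl hl3 hB hv3, sym_cube hl hl3 hv, sym_mul hl hl3 hqa hrb,
      sym_pow hl hl3 hlq, sym_pow hl hl3 hlr, add_zero] at h6
    exact h6

/-- **Case I** -/
theorem caseI {q r a b : ℕ} (hq : q.Prime) (hq3 : q % 3 = 2) (hr : r.Prime) (hr3 : r % 3 = 2)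
    (hab : (a : ZMod 3) * sym (q : Eis) w + (b : ZMod 3) * sym (r : Eis) w = 0)
    {B B' C : ℤ} (hB : B = (q : ℤ) ^ a * (r : ℤ) ^ b) (hBB : B * B' = (q * r : ℤ) ^ 3)
    (hqB' : (q : ℤ) ∣ B') (hrB' : (r : ℤ) ∣ B')
    {X0 X1 X2 w0 : ℤ} (hsum : X0 + X1 + X2 = 0) (hprod : X0 * X1 * X2 = B * C * w0 ^ 3)
    (h01 : IsCoprime X0 X1) (h02 : IsCoprime X0 X2)
    {x y z : ℤ} (hP : x ^ 3 + C * y ^ 3 + B' * z ^ 3 = 0)
    (cxy : IsCoprime x (C * y)) (cxz : IsCoprime x (B' * z)) (cyz : IsCoprime (C * y) (B' * z))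
    {cq cr : ZMod 3}
    (hcq : (q : ℤ) ∣ X0 ∧ cq = 0 ∨ (q : ℤ) ∣ X1 ∧ cq = 1 ∨ (q : ℤ) ∣ X2 ∧ cq = 2)
    (hcr : (r : ℤ) ∣ X0 ∧ cr = 0 ∨ (r : ℤ) ∣ X1 ∧ cr = 1 ∨ (r : ℤ) ∣ X2 ∧ cr = 2) :
    (a : ZMod 3) * (cq * sym (q : Eis) w) + (b : ZMod 3) * (cr * sym (r : Eis) w) = 0 := by
  have hQ := prime_inert hq hq3
  have hR := prime_inert hr hr3
  have hQ3 := n3 hq hq3
  have hR3 := n3 hr hr3
  obtain ⟨hqs, hsq⟩ := sym_res hq hq3 hsum h01 h02 hcq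
  obtain ⟨hrs, hsr⟩ := sym_res hr hr3 hsum h01 h02 hcr
  set s := res X0 X1 X2 with hs
  have hqy : ¬ (q : ℤ) ∣ y := fun h => not_dvd_of_coprime hq cyz (Dvd.dvd.mul_left h _)
    (Dvd.dvd.mul_right hqB' _)
  have hry : ¬ (r : ℤ) ∣ y := fun h => not_dvd_of_coprime hr cyz (Dvd.dvd.mul_left h _)
    (Dvd.dvd.mul_right hrB' _)
  have hqy' : ¬ (q : Eis) ∣ (y : Eis) := fun h' => hqy (cast_dvd_cast.mp h')
  have hry' : ¬ (r : Eis) ∣ (y : Eis) := fun h' => hry (cast_dvd_cast.mp h')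
  set T : Eis := 3 * (w0 : Eis) * ((q : Eis) * (r : Eis) * (z : Eis)) with hT
  have hqT : (q : Eis) ∣ T := ⟨3 * w0 * (r * z), by rw [hT]; ring⟩
  have hrT : (r : Eis) ∣ T := ⟨3 * w0 * (q * z), by rw [hT]; ring⟩
  have tq : ¬ (q : Eis) ∣ T + s * y := by
    intro h
    have := (dvd_add_right hqT).mp h
    exact (hQ.dvd_or_dvd this).elim hqs hqy'
  have tr : ¬ (r : Eis) ∣ T + s * y := by
    intro h
    have := (dvd_add_right hrT).mp h
    exact (hR.dvd_or_dvd this).elim hrs hry'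
  have hcq' : sym (q : Eis) (T + s * y) = cq * sym (q : Eis) w := by
    have h1 : (q : Eis) ∣ (T + s * y) - s * y := by rw [add_sub_cancel_right]; exact hqT
    rw [sym_congr h1, sym_mul hQ hQ3 hqs hqy', hsq, sym_int hq hq3 hqy, add_zero]
  have hcr' : sym (r : Eis) (T + s * y) = cr * sym (r : Eis) w := by
    have h1 : (r : Eis) ∣ (T + s * y) - s * y := by rw [add_sub_cancel_right]; exact hrT
    rw [sym_congr h1, sym_mul hR hR3 hrs hry', hsr, sym_int hr hr3 hry, add_zero]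
  have ht0 : T + s * y ≠ 0 := by
    intro h; rw [h] at tq; exact tq (dvd_zero _)
  rw [← hcq', ← hcr']
  refine lemmaB hq hq3 hr hr3 _ _ hab _ _ rfl ht0 tq tr ?_
  intro l hl hl3 hlt
  by_cases hgood : (a : ZMod 3) * sym l (q : Eis) + (b : ZMod 3) * sym l (r : Eis) = 0
  · exact Or.inl hgood
  right
  have hlq : ¬ l ∣ (q : Eis) := fun h => tq ((hl.associated_of_dvd hQ h).symm.dvd.trans hlt)
  have hlr : ¬ l ∣ (r : Eis) := fun h => tr ((hl.associated_of_dvd hR h).symm.dvd.trans hlt)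
  have hbad := bad_B hl hl3 hlq hlr hgood
  have hBc : (B : Eis) = (q : Eis) ^ a * (r : Eis) ^ b := by rw [hB]; push_cast; rfl
  rw [← hBc] at hbad
  -- identities
  have hsumE : (X0 : Eis) + X1 + X2 = 0 := by exact_mod_cast congrArg (fun n : ℤ => (n : Eis)) hsum
  have hprodE : (X0 : Eis) * X1 * X2 = B * C * w0 ^ 3 := by
    exact_mod_cast congrArg (fun n : ℤ => (n : Eis)) hprod
  have hBBE : (B : Eis) * B' = (q * r) ^ 3 := by
    exact_mod_cast congrArg (fun n : ℤ => (n : Eis)) hBB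
  have hPE : (x : Eis) ^ 3 + C * y ^ 3 + B' * z ^ 3 = 0 := by
    exact_mod_cast congrArg (fun n : ℤ => (n : Eis)) hP
  have hss : s ^ 3 + (conj s) ^ 3 = B * C * (3 * w0) ^ 3 := by
    have hX2 : (X2 : Eis) = -X0 - X1 := by linear_combination hsumE
    have h4 := w_rel
    have h5 : s ^ 3 + (conj s) ^ 3 = 27 * (X0 * X1 * X2) := by
      rw [hs, conj_res, res, hX2]
      have h6 : w ^ 2 = -1 - w := w_sq
      ring_nf
      have h7 : w ^ 3 = 1 := w_cube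
      have h8 : w ^ 4 = w := by decide
      have h9 : w ^ 5 = w ^ 2 := by decide
      have h10 : w ^ 6 = 1 := by decide
      rw [h7, h8, h9, h10, h6]
      ring
    rw [h5, hprodE]; ring
  have hid : T ^ 3 + (s * y) ^ 3 = -((conj s * y) ^ 3 + B * (3 * w0 * x) ^ 3) := by
    rw [hT]
    linear_combination (y : Eis) ^ 3 * hss - 27 * (w0 : Eis) ^ 3 * z ^ 3 * hBBE +
      27 * (w0 : Eis) ^ 3 * B * hPE
  have hxne : x ≠ 0 ∨ y ≠ 0 := by
    right; rintro rfl; exact hqy (dvd_zero _)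
  have hy0 : y ≠ 0 := by rintro rfl; exact hqy (dvd_zero _)
  have hs0 : conj s ≠ 0 := by
    intro h
    have : s = 0 := by
      have := congrArg conj h
      rwa [conj_conj, map_zero] at this
    rw [this] at hqs
    exact hqs (dvd_zero _)
  have hy0' : (y : Eis) ≠ 0 := by
    intro h
    rw [h] at hqy'
    exact hqy' (dvd_zero _)
  obtain ⟨n0, n1⟩ := three_dvd_V hl hbad _ (conj s * y) (3 * w0 * x) rfl (fun h =>
    (mul_ne_zero hs0 hy0') h.1)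
  refine three_dvd_V_add hl hl3 ?_ ?_ ?_
  · -- not both divisible
    rintro ⟨hlT, hlsy⟩
    have hbadP : l ∣ (B : Eis) * (x : Eis) ^ 3 + (q * r * z) ^ 3 → l ∣ (q : Eis) * r * z ∧ l ∣ (x : Eis) := by
      intro h
      apply hbad
      rwa [add_comm]
    by_cases hly : l ∣ (y : Eis)
    · -- then x³ ≡ - B' z³
      have h1 : l ∣ (B : Eis) * (x : Eis) ^ 3 + (q * r * z) ^ 3 := by
        have e : (B : Eis) * (x : Eis) ^ 3 + (q * r * z) ^ 3 = y * (-(B * C * y ^ 2)) := by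
          linear_combination (B : Eis) * hPE - (z : Eis) ^ 3 * hBBE
        rw [e]; exact Dvd.dvd.mul_right hly _
      obtain ⟨-, h2⟩ := hbadP h1
      refine not_dvd_of_coprime' hl cxy h2 ?_
      push_cast
      exact Dvd.dvd.mul_left hly _
    · have hls : l ∣ s := (hl.dvd_or_dvd hlsy).resolve_right hly
      have hlw : ¬ l ∣ (w0 : Eis) := by
        intro hlw
        have h1 : l ∣ (conj s) ^ 3 := by
          have e : (conj s) ^ 3 = w0 * (27 * B * C * w0 ^ 2) - s * s ^ 2 := by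
            linear_combination hss
          rw [e]
          exact dvd_sub (Dvd.dvd.mul_right hlw _) (Dvd.dvd.mul_right hls _)
        have h2 : l ∣ conj s := hl.dvd_of_dvd_pow h1
        have h3 : l ∣ 3 * (X0 : Eis) := by
          have e : 3 * (X0 : Eis) = s + conj s := by
            rw [hs, conj_res, res]
            have h4 := w_rel
            linear_combination hsumE - ((X1 : Eis) + X2) * h4
          rw [e]; exact dvd_add hls h2
        have h5 : l ∣ 3 * (X1 : Eis) := by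
          have e : 3 * (X1 : Eis) = w ^ 2 * s + w * conj s := by
            rw [hs, conj_res, res]
            have h4 := w_rel
            have h6 := w_cube
            have h7 : w ^ 4 = w := by decide
            linear_combination hsumE - 2 * (X1 : Eis) * h6 - (X0 + X2) * h4 - (X2 : Eis) * h7
          rw [e]; exact dvd_add (Dvd.dvd.mul_left hls _) (Dvd.dvd.mul_left h2 _)
        exact not_dvd_of_coprime' hl h01 ((hl.dvd_or_dvd h3).resolve_left hl3)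
          ((hl.dvd_or_dvd h5).resolve_left hl3)
      have hlz : l ∣ (z : Eis) := by
        rw [hT] at hlT
        rcases hl.dvd_or_dvd hlT with h | h
        · exact absurd ((hl.dvd_or_dvd h).resolve_left hl3) hlw
        · rcases hl.dvd_or_dvd h with h | h
          · exact absurd h (fun h => (hl.dvd_or_dvd h).elim hlq hlr)
          · exact h
      -- B C (3w0)³ ≡ s̄³, x³ ≡ -C y³
      have h1 : l ∣ (conj s * y) ^ 3 + (B : Eis) * (3 * w0 * x) ^ 3 := by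
        have e : (conj s * y) ^ 3 + (B : Eis) * (3 * w0 * x) ^ 3 =
            z * (-(27 * w0 ^ 3 * B * B' * z ^ 2)) + s * (-(s ^ 2 * y ^ 3)) := by
          linear_combination (y : Eis) ^ 3 * hss + 27 * (w0 : Eis) ^ 3 * B * hPE
        rw [e]
        exact dvd_add (Dvd.dvd.mul_right hlz _) (Dvd.dvd.mul_right hls _)
      obtain ⟨-, h2⟩ := hbad _ _ h1
      have h3 : l ∣ (x : Eis) := by
        rcases hl.dvd_or_dvd h2 with h | h
        · exact absurd ((hl.dvd_or_dvd h).resolve_left hl3) hlw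
        · exact h
      refine not_dvd_of_coprime' hl cxz h3 ?_
      push_cast
      exact Dvd.dvd.mul_left hlz _
  · rw [hid]; exact neg_ne_zero.mpr n0
  · rw [hid, V_neg]; exact n1

end Pool.Agent.Lib_helper84.Cub

end

section

/-!
# Case II
-/

namespace Pool.Agent.Lib_helper84.Cub

open Pool.Agent.Lib_helper18 Pool.Agent.Lib_helper18.Eis

/-- cubing is injective modulo an inert prime -/
theorem cube_inj {q : ℕ} (hq : q.Prime) (hq3 : q % 3 = 2) {u v : ℤ}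
    (h : (q : ℤ) ∣ u ^ 3 - v ^ 3) : (q : ℤ) ∣ u - v := by
  have hP := prime_inert hq hq3
  have h1 : (q : Eis) ∣ ((u : Eis) - v) * (((u : Eis) - w * v) * ((u : Eis) - w ^ 2 * v)) := by
    have e : ((u : Eis) - v) * (((u : Eis) - w * v) * ((u : Eis) - w ^ 2 * v)) =
        ((u ^ 3 - v ^ 3 : ℤ) : Eis) := by
      push_cast
      have h1 := w_rel
      have h2 := w_cube
      linear_combination ((u : Eis) - v) * u * v * (-1) * h1 + ((u : Eis) - v) * v ^ 2 * h2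
    rw [e]; exact cast_dvd_cast.mpr h
  rcases hP.dvd_or_dvd h1 with h2 | h2
  · have : (q : Eis) ∣ ((u - v : ℤ) : Eis) := by push_cast; exact h2
    exact cast_dvd_cast.mp this
  · rcases hP.dvd_or_dvd h2 with h3 | h3
    · rw [natCast_dvd_iff] at h3
      obtain ⟨h4, h5⟩ := h3
      simp at h4 h5
      exact dvd_sub h4 h5
    · rw [natCast_dvd_iff, w_sq] at h3
      obtain ⟨h4, h5⟩ := h3
      simp at h4 h5
      have h6 : (q : ℤ) ∣ u := by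
        have := dvd_sub h4 h5
        have e : u - -v - v = u := by ring
        first
        | rwa [e] at this
        | (have h7 := (dvd_add_left h5).mp h4; exact h7)
      exact dvd_sub h6 h5

theorem cast_eq {m n : ℤ} (h : m = n) : (m : Eis) = n := by rw [h]

/-- the contribution of one prime in case II -/
theorem caseII_one {q : ℕ} (hq : q.Prime) (hq3 : q % 3 = 2)
    {a0 a1 a2 a0' a1' a2' x0 x1 x2 y0 y1 y2 rd rn : ℤ}
    (hx : a0 * x0 ^ 3 + a1 * x1 ^ 3 + a2 * x2 ^ 3 = 0)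
    (cx01 : IsCoprime (a0 * x0) (a1 * x1))
    (cx12 : IsCoprime (a1 * x1) (a2 * x2))
    (hy : a0' * y0 ^ 3 + a1' * y1 ^ 3 + a2' * y2 ^ 3 = 0)
    (cy01 : IsCoprime (a0' * y0) (a1' * y1)) (cy02 : IsCoprime (a0' * y0) (a2' * y2))
    (h1 : a0 * a1' * rd ^ 3 = a0' * a1 * rn ^ 3) {f : ZMod 3}
    (hf : (q : ℤ) ∣ a2 ∧ (q : ℤ) ∣ a2' ∧ ¬ (q : ℤ) ∣ rd ∧ f = 2 ∨
      (q : ℤ) ∣ a0 ∧ (q : ℤ) ∣ a1' ∧ (q : ℤ) ∣ rn ∧ ¬ (q : ℤ) ∣ rd ∧ f = 1 ∨
      (q : ℤ) ∣ a1 ∧ (q : ℤ) ∣ a0' ∧ (q : ℤ) ∣ rd ∧ ¬ (q : ℤ) ∣ rn ∧ f = 0) :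
    ¬ (q : Eis) ∣ w * rd * x1 * y0 + (-(rn * x0 * y1) : ℤ) ∧
      sym (q : Eis) (w * rd * x1 * y0 + (-(rn * x0 * y1) : ℤ)) = f * sym (q : Eis) w := by
  have hP := prime_inert hq hq3
  have hZ := Nat.prime_iff_prime_int.mp hq
  have h3 := n3 hq hq3
  have hw := not_dvd_w hP
  have hl := not_dvd_lam h3
  have key : ∀ (Y : ℤ) (u : Eis), ¬ (q : ℤ) ∣ Y → ¬ (q : Eis) ∣ u →
      (q : Eis) ∣ (w * rd * x1 * y0 + (-(rn * x0 * y1) : ℤ)) - Y * u →
      ¬ (q : Eis) ∣ w * rd * x1 * y0 + (-(rn * x0 * y1) : ℤ) ∧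
      sym (q : Eis) (w * rd * x1 * y0 + (-(rn * x0 * y1) : ℤ)) = sym (q : Eis) u := by
    intro Y u hY hu h
    have hY' : ¬ (q : Eis) ∣ (Y : Eis) := fun h' => hY (cast_dvd_cast.mp h')
    constructor
    · intro h'
      have h4 := dvd_sub h' h
      rw [sub_sub_cancel] at h4
      exact (hP.dvd_or_dvd h4).elim hY' hu
    · rw [sym_congr h, sym_mul hP h3 hY' hu, sym_int hq hq3 hY, zero_add]
  have nd : ∀ {s t u v : ℤ}, IsCoprime (s * t) (u * v) → (q : ℤ) ∣ s → ¬ (q : ℤ) ∣ v :=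
    fun h hs hv => not_dvd_of_coprime hq h (Dvd.dvd.mul_right hs _) (Dvd.dvd.mul_left hv _)
  have nd2 : ∀ {s t u v : ℤ}, IsCoprime (s * t) (u * v) → (q : ℤ) ∣ s → ¬ (q : ℤ) ∣ u :=
    fun h hs hv => not_dvd_of_coprime hq h (Dvd.dvd.mul_right hs _) (Dvd.dvd.mul_right hv _)
  rcases hf with ⟨g1, g2, g3, rfl⟩ | ⟨g1, g2, g3, g4, rfl⟩ | ⟨g1, g2, g3, g4, rfl⟩
  · -- position 2
    have n0 : ¬ (q : ℤ) ∣ y0 := nd cy02.symm g2
    have n1 : ¬ (q : ℤ) ∣ x1 := nd cx12.symm g1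
    have m0 : ¬ (q : ℤ) ∣ a0' := nd2 cy02.symm g2
    have m1 : ¬ (q : ℤ) ∣ a1 := nd2 cx12.symm g1
    have e1 : (q : ℤ) ∣ a0' * a1 * ((rn * x0 * y1) ^ 3 - (rd * x1 * y0) ^ 3) := by
      have e : a0' * a1 * ((rn * x0 * y1) ^ 3 - (rd * x1 * y0) ^ 3) =
        a2 * (-(rd ^ 3 * a1' * x2 ^ 3 * y1 ^ 3)) + a2' * (rd ^ 3 * a1 * x1 ^ 3 * y2 ^ 3) := by
        linear_combination (-(x0 * y1) ^ 3) * h1 + rd ^ 3 * a1' * y1 ^ 3 * hx -
          rd ^ 3 * a1 * x1 ^ 3 * hy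
      rw [e]
      exact dvd_add (Dvd.dvd.mul_right g1 _) (Dvd.dvd.mul_right g2 _)
    have e2 : (q : ℤ) ∣ rn * x0 * y1 - rd * x1 * y0 := by
      apply cube_inj hq hq3
      rcases hZ.dvd_or_dvd e1 with h | h
      · exact absurd h (fun h => (hZ.dvd_or_dvd h).elim m0 m1)
      · exact h
    have hu : ¬ (q : Eis) ∣ -lam := by rwa [dvd_neg]
    have hY : ¬ (q : ℤ) ∣ rd * x1 * y0 := fun h =>
      (hZ.dvd_or_dvd h).elim (fun h => (hZ.dvd_or_dvd h).elim g3 n1) n0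
    obtain ⟨k1, k2⟩ := key (rd * x1 * y0) (-lam) hY hu (by
      have e : (w * rd * x1 * y0 + (-(rn * x0 * y1) : ℤ)) - ((rd * x1 * y0 : ℤ) : Eis) * (-lam) =
        ((-(rn * x0 * y1 - rd * x1 * y0) : ℤ) : Eis) := by
        rw [lam_eq]; push_cast; ring
      rw [e]
      exact cast_dvd_cast.mpr ((dvd_neg).mpr e2))
    refine ⟨k1, ?_⟩
    rw [k2, sym_neg hP h3 hl, sym_inert_lam hq hq3]
    linear_combination -(sym (q : Eis) w) * three_zmod
  · have n0 : ¬ (q : ℤ) ∣ y0 := nd cy01.symm g2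
    have n1 : ¬ (q : ℤ) ∣ x1 := nd cx01 g1
    have hY : ¬ (q : ℤ) ∣ rd * x1 * y0 := fun h =>
      (hZ.dvd_or_dvd h).elim (fun h => (hZ.dvd_or_dvd h).elim g4 n1) n0
    obtain ⟨k1, k2⟩ := key (rd * x1 * y0) w hY hw (by
      have e : (w * rd * x1 * y0 + (-(rn * x0 * y1) : ℤ)) - ((rd * x1 * y0 : ℤ) : Eis) * w =
        ((rn * (-(x0 * y1)) : ℤ) : Eis) := by
        push_cast; ring
      rw [e]
      exact cast_dvd_cast.mpr (Dvd.dvd.mul_right g3 _))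
    refine ⟨k1, ?_⟩
    rw [k2]; ring
  · have n0 : ¬ (q : ℤ) ∣ y1 := nd cy01 g2
    have n1 : ¬ (q : ℤ) ∣ x0 := nd cx01.symm g1
    have hY : ¬ (q : ℤ) ∣ -(rn * x0 * y1) := by
      rw [dvd_neg]
      exact fun h => (hZ.dvd_or_dvd h).elim (fun h => (hZ.dvd_or_dvd h).elim g4 n1) n0
    have hu : ¬ (q : Eis) ∣ 1 := not_dvd_of_isUnit hP isUnit_one
    obtain ⟨k1, k2⟩ := key (-(rn * x0 * y1)) 1 hY hu (by
      rw [mul_one, add_sub_cancel_right]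
      have : (q : Eis) ∣ (rd : Eis) := cast_dvd_cast.mpr g3
      exact Dvd.dvd.mul_right (Dvd.dvd.mul_right (Dvd.dvd.mul_left this _) _) _)
    refine ⟨k1, ?_⟩
    rw [k2, sym_one hP h3]; ring

/-- **Case II** -/
theorem caseII {q r a b : ℕ} (hq : q.Prime) (hq3 : q % 3 = 2) (hr : r.Prime) (hr3 : r % 3 = 2)
    (hab : (a : ZMod 3) * sym (q : Eis) w + (b : ZMod 3) * sym (r : Eis) w = 0)
    {a0 a1 a2 a0' a1' a2' x0 x1 x2 y0 y1 y2 rd rn B k m : ℤ}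
    (hB : B = (q : ℤ) ^ a * (r : ℤ) ^ b)
    (hx : a0 * x0 ^ 3 + a1 * x1 ^ 3 + a2 * x2 ^ 3 = 0)
    (cx01 : IsCoprime (a0 * x0) (a1 * x1))
    (cx12 : IsCoprime (a1 * x1) (a2 * x2))
    (hy : a0' * y0 ^ 3 + a1' * y1 ^ 3 + a2' * y2 ^ 3 = 0)
    (cy01 : IsCoprime (a0' * y0) (a1' * y1)) (cy02 : IsCoprime (a0' * y0) (a2' * y2))
    (cy12 : IsCoprime (a1' * y1) (a2' * y2))
    (h1 : a0 * a1' * rd ^ 3 = a0' * a1 * rn ^ 3)
    (h2 : a0 * a2' * k ^ 3 = a0' * a2 * B) (h3 : a1 * a2' * m ^ 3 = a1' * a2 * B)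
    (hunit : ∀ l : Eis, Prime l → ¬ l ∣ 3 → ¬ l ∣ (q : Eis) → ¬ l ∣ (r : Eis) →
      ¬ ((a : ZMod 3) * sym l (q : Eis) + (b : ZMod 3) * sym l (r : Eis) = 0) →
      ¬ l ∣ ((a0' * a1' * a1 * a2 * rd * rn * k * m : ℤ) : Eis))
    {f g : ZMod 3}
    (hf : (q : ℤ) ∣ a2 ∧ (q : ℤ) ∣ a2' ∧ ¬ (q : ℤ) ∣ rd ∧ f = 2 ∨
      (q : ℤ) ∣ a0 ∧ (q : ℤ) ∣ a1' ∧ (q : ℤ) ∣ rn ∧ ¬ (q : ℤ) ∣ rd ∧ f = 1 ∨
      (q : ℤ) ∣ a1 ∧ (q : ℤ) ∣ a0' ∧ (q : ℤ) ∣ rd ∧ ¬ (q : ℤ) ∣ rn ∧ f = 0)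
    (hg : (r : ℤ) ∣ a2 ∧ (r : ℤ) ∣ a2' ∧ ¬ (r : ℤ) ∣ rd ∧ g = 2 ∨
      (r : ℤ) ∣ a0 ∧ (r : ℤ) ∣ a1' ∧ (r : ℤ) ∣ rn ∧ ¬ (r : ℤ) ∣ rd ∧ g = 1 ∨
      (r : ℤ) ∣ a1 ∧ (r : ℤ) ∣ a0' ∧ (r : ℤ) ∣ rd ∧ ¬ (r : ℤ) ∣ rn ∧ g = 0)
    (hne : x0 ≠ 0 ∧ y2 ≠ 0) :
    (a : ZMod 3) * (f * sym (q : Eis) w) + (b : ZMod 3) * (g * sym (r : Eis) w) = 0 := by
  have hQ := prime_inert hq hq3
  have hR := prime_inert hr hr3
  obtain ⟨tq, sq⟩ := caseII_one hq hq3 hx cx01 cx12 hy cy01 cy02 h1 hf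
  obtain ⟨tr, sr⟩ := caseII_one hr hr3 hx cx01 cx12 hy cy01 cy02 h1 hg
  have ht0 : w * rd * x1 * y0 + (-(rn * x0 * y1) : ℤ) ≠ 0 := by
    intro h; rw [h] at tq; exact tq (dvd_zero _)
  rw [← sq, ← sr]
  refine lemmaB hq hq3 hr hr3 _ _ hab _ _ rfl ht0 tq tr ?_
  intro l hl hl3 hlt
  by_cases hgood : (a : ZMod 3) * sym l (q : Eis) + (b : ZMod 3) * sym l (r : Eis) = 0
  · exact Or.inl hgood
  right
  have hlq : ¬ l ∣ (q : Eis) := fun h => tq ((hl.associated_of_dvd hQ h).symm.dvd.trans hlt)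
  have hlr : ¬ l ∣ (r : Eis) := fun h => tr ((hl.associated_of_dvd hR h).symm.dvd.trans hlt)
  have hbad := bad_B hl hl3 hlq hlr hgood
  have hBc : (B : Eis) = (q : Eis) ^ a * (r : Eis) ^ b := by rw [hB]; push_cast; rfl
  rw [← hBc] at hbad
  have hun := hunit l hl hl3 hlq hlr hgood
  push_cast at hun
  have u0' : ¬ l ∣ (a0' : Eis) := fun h => hun
    (by repeat' first | exact h | apply Dvd.dvd.mul_right)
  have u1' : ¬ l ∣ (a1' : Eis) := fun h => hun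
    (by
      iterate 6 apply Dvd.dvd.mul_right
      exact Dvd.dvd.mul_left h _)
  have u1 : ¬ l ∣ (a1 : Eis) := fun h => hun
    (by
      iterate 5 apply Dvd.dvd.mul_right
      exact Dvd.dvd.mul_left h _)
  have u2 : ¬ l ∣ (a2 : Eis) := fun h => hun
    (by
      iterate 4 apply Dvd.dvd.mul_right
      exact Dvd.dvd.mul_left h _)
  have urd : ¬ l ∣ (rd : Eis) := fun h => hun
    (by
      iterate 3 apply Dvd.dvd.mul_right
      exact Dvd.dvd.mul_left h _)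
  have urn : ¬ l ∣ (rn : Eis) := fun h => hun
    (by
      iterate 2 apply Dvd.dvd.mul_right
      exact Dvd.dvd.mul_left h _)
  have uk : ¬ l ∣ (k : Eis) := fun h => hun
    (by
      iterate 1 apply Dvd.dvd.mul_right
      exact Dvd.dvd.mul_left h _)
  have um : ¬ l ∣ (m : Eis) := fun h => hun (Dvd.dvd.mul_left h _)
  -- casts
  have hxE := cast_eq hx
  have hyE := cast_eq hy
  have h1E := cast_eq h1
  have h2E := cast_eq h2
  have h3E := cast_eq h3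
  push_cast at hxE hyE h1E h2E h3E
  have ha0E : (a0' : Eis) ≠ 0 := by rintro h; rw [h] at u0'; exact u0' (dvd_zero _)
  have hcast0 : ∀ {n : ℤ}, n ≠ 0 → (n : Eis) ≠ 0 := by
    intro n hn h
    have := congrArg Eis.re h
    simp at this
    exact hn this
  have hkne : (k : Eis) ≠ 0 := by rintro h; rw [h] at uk; exact uk (dvd_zero _)
  -- the main identity
  have hmain : (a1 : Eis) * k ^ 3 * ((w * rd * x1 * y0) ^ 3 + ((-(rn * x0 * y1) : ℤ) : Eis) ^ 3) =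
      rd ^ 3 * a2 * ((-(k * x2 * y0)) ^ 3 + B * (x0 * y2) ^ 3) := by
    apply mul_left_cancel₀ ha0E
    push_cast
    have hw3 := w_cube
    linear_combination (a0' : Eis) * a1 * k ^ 3 * (rd * x1 * y0) ^ 3 * hw3 +
      (k : Eis) ^ 3 * (x0 * y1) ^ 3 * h1E + (rd : Eis) ^ 3 * (x0 * y2) ^ 3 * h2E +
      (k : Eis) ^ 3 * rd ^ 3 * a0' * y0 ^ 3 * hxE - (k : Eis) ^ 3 * rd ^ 3 * a0 * x0 ^ 3 * hyE
  obtain ⟨n0, n1⟩ := three_dvd_V hl hbad _ (-(k * x2 * y0)) (x0 * y2) rfl (fun h =>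
    (mul_ne_zero (hcast0 hne.1) (hcast0 hne.2)) h.2)
  have hc1 : ¬ l ∣ (a1 : Eis) * k ^ 3 := fun h =>
    (hl.dvd_or_dvd h).elim u1 (fun h => uk (hl.dvd_of_dvd_pow h))
  have hc2 : ¬ l ∣ (rd : Eis) ^ 3 * a2 := fun h =>
    (hl.dvd_or_dvd h).elim (fun h => urd (hl.dvd_of_dvd_pow h)) u2
  have hDne : (w * rd * x1 * y0) ^ 3 + ((-(rn * x0 * y1) : ℤ) : Eis) ^ 3 ≠ 0 := by
    intro h
    rw [h, mul_zero] at hmain
    refine mul_ne_zero ?_ n0 hmain.symm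
    rintro h; rw [h] at hc2; exact hc2 (dvd_zero _)
  refine three_dvd_V_add hl hl3 ?_ hDne ?_
  · rintro ⟨g1, g2⟩
    have g1' : l ∣ (x1 : Eis) ∨ l ∣ (y0 : Eis) := by
      rcases hl.dvd_or_dvd g1 with h | h
      · rcases hl.dvd_or_dvd h with h | h
        · exact absurd h (fun h => (hl.dvd_or_dvd h).elim (not_dvd_w hl) urd)
        · exact Or.inl h
      · exact Or.inr h
    have g2' : l ∣ (x0 : Eis) ∨ l ∣ (y1 : Eis) := by
      push_cast at g2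
      rw [dvd_neg] at g2
      rcases hl.dvd_or_dvd g2 with h | h
      · rcases hl.dvd_or_dvd h with h | h
        · exact absurd h urn
        · exact Or.inl h
      · exact Or.inr h
    have ndc : ∀ {s t u v : ℤ}, IsCoprime (s * t) (u * v) → l ∣ (t : Eis) → ¬ l ∣ (v : Eis) := by
      intro s t u v h ht hv
      refine not_dvd_of_coprime' hl h ?_ ?_
      · push_cast; exact Dvd.dvd.mul_left ht _
      · push_cast; exact Dvd.dvd.mul_left hv _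
    rcases g1' with g1 | g1 <;> rcases g2' with g2 | g2
    · exact ndc cx01 g2 g1
    · -- x1, y1
      have e1 : l ∣ (a0' : Eis) * a2 * ((-(k * x2 * y0)) ^ 3 + B * (x0 * y2) ^ 3) := by
        have e : (a0' : Eis) * a2 * ((-(k * x2 * y0)) ^ 3 + B * (x0 * y2) ^ 3) =
          x1 * (a0' * a1 * k ^ 3 * x1 ^ 2 * y0 ^ 3) +
          y1 * (-(a0 * a1' * k ^ 3 * x0 ^ 3 * y1 ^ 2)) := by
          linear_combination (-((x0 * y2 : Eis)) ^ 3) * h2E - (k : Eis) ^ 3 * a0' * y0 ^ 3 * hxE +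
            (k : Eis) ^ 3 * a0 * x0 ^ 3 * hyE
        rw [e]
        exact dvd_add (Dvd.dvd.mul_right g1 _) (Dvd.dvd.mul_right g2 _)
      have e2 := (hl.dvd_or_dvd e1).resolve_left (fun h => (hl.dvd_or_dvd h).elim u0' u2)
      rcases hl.dvd_or_dvd (hbad _ _ e2).2 with h | h
      · exact ndc cx01 h g1
      · exact ndc cy12 g2 h
    · -- y0, x0
      have e1 : l ∣ (a1' : Eis) * a2 * ((-(m * x2 * y1)) ^ 3 + B * (x1 * y2) ^ 3) := by
        have e : (a1' : Eis) * a2 * ((-(m * x2 * y1)) ^ 3 + B * (x1 * y2) ^ 3) =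
          x0 * (a1' * a0 * m ^ 3 * x0 ^ 2 * y1 ^ 3) +
          y0 * (-(a1 * a0' * m ^ 3 * x1 ^ 3 * y0 ^ 2)) := by
          linear_combination (-((x1 * y2 : Eis)) ^ 3) * h3E - (m : Eis) ^ 3 * a1' * y1 ^ 3 * hxE +
            (m : Eis) ^ 3 * a1 * x1 ^ 3 * hyE
        rw [e]
        exact dvd_add (Dvd.dvd.mul_right g2 _) (Dvd.dvd.mul_right g1 _)
      have e2 := (hl.dvd_or_dvd e1).resolve_left (fun h => (hl.dvd_or_dvd h).elim u1' u2)
      rcases hl.dvd_or_dvd (hbad _ _ e2).2 with h | h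
      · exact ndc cx01 g2 h
      · exact ndc cy02 g1 h
    · exact ndc cy01 g1 g2
  · have hV := congrArg (V l) hmain
    rw [V_mul_not_dvd hl hc1 hDne, V_mul_not_dvd hl hc2 n0] at hV
    rw [hV]; exact n1

end Pool.Agent.Lib_helper84.Cub

end
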