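import Mathlib
import Pool.Agent.PTWX.C08
import Pool.Agent.PTWX.C13

/-! Parts: Lib_helper84.Cub.LemC, Lib_helper84.Cub.CaseOneB, CubeRank.LawA -/

section

/-!
# The product formula for one inert prime, with the term at the prime above 3
-/

namespace Pool.Agent.Lib_helper84.Cub

open Pool.Agent.Lib_helper18 Pool.Agent.Lib_helper18.Eis

theorem Prim.ndvd3 {t l : Eis} (hl : Prime l) (ht : Prim t) (hlt : l ∣ t) : ¬ l ∣ 3 := by
  intro h
  exact ht.not_lam_dvd (((dvd_three_iff hl).mp h).symm.dvd.trans hlt)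

/-- the product formula for a primary element -/
theorem lemmaB1_prim {q : ℕ} (hq : q.Prime) (hq3 : q % 3 = 2) :
    ∀ (n : ℕ) (t : Eis), N t = n → Prim t → ¬ (q : Eis) ∣ t →
    (∀ l : Eis, Prime l → ¬ l ∣ 3 → l ∣ t → sym l (q : Eis) = 0 ∨ 3 ∣ V l t) →
    sym (q : Eis) t = 0 := by
  have hQ := prime_inert hq hq3
  have hQ3 := n3 hq hq3
  intro n
  induction n using Nat.strong_induction_on with
  | _ n ih =>
    intro t hn hprim hqt H
    have ht : t ≠ 0 := by rintro rfl; exact hqt (dvd_zero _)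
    by_cases hu : IsUnit t
    · have h1 := Prim.unit prim_one hu (by rwa [one_mul])
      rcases h1 with rfl | rfl
      · exact sym_one hQ hQ3
      · have h2 : ¬ (q : Eis) ∣ 1 := not_dvd_of_isUnit hQ isUnit_one
        rw [sym_neg hQ hQ3 h2, sym_one hQ hQ3]
    · obtain ⟨l, hlirr, hlt⟩ := WfDvdMonoid.exists_irreducible_factor hu ht
      have hl : Prime l := hlirr.prime
      have hl3 : ¬ l ∣ 3 := Prim.ndvd3 hl hprim hlt
      rcases H l hl hl3 hlt with hgood | hval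
      · -- a good prime; make it primary
        obtain ⟨i, hi⟩ := exists_prim (not_lam_dvd_of_prime hl hl3)
        have hass : Associated (l * w ^ i) l := ⟨(isUnit_w.pow i).unit⁻¹, by
          rw [mul_assoc]; simp⟩
        have hl' : Prime (l * w ^ i) := (hass.symm.prime hl)
        have hl3' : ¬ (l * w ^ i) ∣ 3 := fun h => hl3 (hass.symm.dvd.trans h)
        obtain ⟨t', ht'e⟩ : l * w ^ i ∣ t := hass.dvd.trans hlt
        have ht'p : Prim t' := hi.of_mul (by rw [← ht'e]; exact hprim)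
        have ht' : t' ≠ 0 := by
          rintro rfl
          rw [mul_zero] at ht'e
          exact ht ht'e
        have hqt' : ¬ (q : Eis) ∣ t' := fun h => hqt (by rw [ht'e]; exact Dvd.dvd.mul_left h _)
        have hql' : ¬ (q : Eis) ∣ l * w ^ i := fun h => hqt (by
          rw [ht'e]; exact Dvd.dvd.mul_right h _)
        have hlt' : N t' < n := by
          rw [← hn, ht'e, N_mul]
          have h1 := N_prime hl'
          have h2 := N_pos ht'
          nlinarith
        have h1 := ih _ hlt' t' rfl ht'p hqt' (by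
          intro m hm hm3 hmt
          by_cases hass' : Associated m (l * w ^ i)
          · left
            rw [sym_associated (hass'.trans hass)]; exact hgood
          · rcases H m hm hm3 (by rw [ht'e]; exact Dvd.dvd.mul_left hmt _) with h | h
            · exact Or.inl h
            · right
              have hml : ¬ m ∣ l * w ^ i := fun h' => hass' (hm.associated_of_dvd hl' h')
              rwa [ht'e, V_mul_not_dvd hm hml ht'] at h)
        have r1 := recip_inert hq hq3 hl' hl3' hi hql'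
        rw [ht'e, sym_mul hQ hQ3 hql' hqt', h1, add_zero, r1, sym_associated hass, hgood]
      · -- valuation divisible by 3
        obtain ⟨i, hi⟩ := exists_prim (not_lam_dvd_of_prime hl hl3)
        have hass : Associated (l * w ^ i) l := ⟨(isUnit_w.pow i).unit⁻¹, by
          rw [mul_assoc]; simp⟩
        have hl' : Prime (l * w ^ i) := (hass.symm.prime hl)
        have hVe : V (l * w ^ i) t = V l t := multiplicity_eq_of_associated_left hass.symm
        obtain ⟨c, hc, hlc⟩ := V_split hl' ht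
        obtain ⟨k, hk⟩ := hval
        have hk0 : k ≠ 0 := by
          rintro rfl
          exact V_eq_zero_iff.mp (by rw [hk]) hlt
        rw [hVe, hk] at hc
        have hc0 : c ≠ 0 := by rintro rfl; exact hlc (dvd_zero _)
        have hcp : Prim c := (hi.pow (3 * k)).of_mul (by rw [← hc]; exact hprim)
        have hpk : (l * w ^ i) ^ (3 * k) ≠ 0 := pow_ne_zero _ hl'.ne_zero
        have hlk : l * w ^ i ∣ (l * w ^ i) ^ (3 * k) := dvd_pow_self _ (by omega)
        have hqc : ¬ (q : Eis) ∣ c := fun h => hqt (by rw [hc]; exact Dvd.dvd.mul_left h _)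
        have hqk : ¬ (q : Eis) ∣ (l * w ^ i) ^ (3 * k) := fun h => hqt (by
          rw [hc]; exact Dvd.dvd.mul_right h _)
        have hql : ¬ (q : Eis) ∣ l * w ^ i := fun h => hqk (h.trans hlk)
        have hlt' : N c < n := by
          rw [← hn, hc, N_mul]
          have h1 : 1 < N ((l * w ^ i) ^ (3 * k)) := by
            have : N ((l * w ^ i) ^ (3 * k)) = (N (l * w ^ i)) ^ (3 * k) := by
              have h5 : ((N ((l * w ^ i) ^ (3 * k)) : ℕ) : ℤ) = ((N (l * w ^ i)) ^ (3 * k) : ℕ) := by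
                rw [N_cast, Eis.norm_pow]; push_cast; rw [N_cast]
              exact_mod_cast h5
            rw [this]
            exact Nat.one_lt_pow (by omega) (N_prime hl')
          have h2 := N_pos hc0
          nlinarith
        have h1 := ih _ hlt' c rfl hcp hqc (by
          intro m hm hm3 hmt
          have hml : ¬ m ∣ (l * w ^ i) ^ (3 * k) := by
            intro h'
            have h6 := hm.dvd_of_dvd_pow h'
            have := hm.associated_of_dvd hl' h6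
            exact hlc (this.symm.dvd.trans hmt)
          rcases H m hm hm3 (by rw [hc]; exact Dvd.dvd.mul_left hmt _) with h | h
          · exact Or.inl h
          · right
            rwa [hc, V_mul_not_dvd hm hml hc0] at h)
        rw [hc, sym_mul hQ hQ3 hqk hqc, sym_pow hQ hQ3 hql, h1]
        push_cast
        linear_combination ((k : ZMod 3) * sym (q : Eis) (l * w ^ i)) * three_zmod

/-- the class of `t` at the prime above 3: `t = lam^j s` with `s w^k` primary gives `-(j+k)` -/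
def Cls (t : Eis) (c : ZMod 3) : Prop :=
  ∃ (j k : ℕ) (s : Eis), t = lam ^ j * s ∧ Prim (s * w ^ k) ∧ c = -((j : ZMod 3) + k)

/-- **the product formula for one inert prime** -/
theorem lemmaB1 {q : ℕ} (hq : q.Prime) (hq3 : q % 3 = 2) {t : Eis} {c : ZMod 3}
    (hqt : ¬ (q : Eis) ∣ t) (hc : Cls t c)
    (H : ∀ l : Eis, Prime l → ¬ l ∣ 3 → l ∣ t → sym l (q : Eis) = 0 ∨ 3 ∣ V l t) :
    sym (q : Eis) t = c * sym (q : Eis) w := by
  have hQ := prime_inert hq hq3
  have hQ3 := n3 hq hq3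
  obtain ⟨j, k, s, rfl, hp, rfl⟩ := hc
  have hw := not_dvd_w hQ
  have hl := not_dvd_lam hQ3
  have hlj : ¬ (q : Eis) ∣ lam ^ j := fun h => hl (hQ.dvd_of_dvd_pow h)
  have hwk : ¬ (q : Eis) ∣ w ^ k := fun h => hw (hQ.dvd_of_dvd_pow h)
  have hqs : ¬ (q : Eis) ∣ s := fun h => hqt (Dvd.dvd.mul_left h _)
  have hs0 : s ≠ 0 := by rintro rfl; exact hqs (dvd_zero _)
  have h1 := lemmaB1_prim hq hq3 _ (s * w ^ k) rfl hp
    (fun h => (hQ.dvd_or_dvd h).elim hqs hwk) (by
      intro l hl hl3 hlt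
      have hls : l ∣ s := (hl.dvd_or_dvd hlt).resolve_right (fun h =>
        not_dvd_w hl (hl.dvd_of_dvd_pow h))
      rcases H l hl hl3 (Dvd.dvd.mul_left hls _) with h | h
      · exact Or.inl h
      · right
        have e1 : ¬ l ∣ lam ^ j := fun h => not_dvd_lam hl3 (hl.dvd_of_dvd_pow h)
        have e2 : ¬ l ∣ w ^ k := fun h => not_dvd_w hl (hl.dvd_of_dvd_pow h)
        rw [V_mul_not_dvd hl e1 hs0] at h
        rwa [mul_comm, V_mul_not_dvd hl e2 hs0])
  rw [sym_mul hQ hQ3 hqs hwk, sym_pow hQ hQ3 hw] at h1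
  rw [sym_mul hQ hQ3 hlj hqs, sym_pow hQ hQ3 hl, sym_inert_lam hq hq3]
  linear_combination h1

end Pool.Agent.Lib_helper84.Cub

end

section

/-!
# Cases I and II, general forms
-/

namespace Pool.Agent.Lib_helper84.Cub

open Pool.Agent.Lib_helper18 Pool.Agent.Lib_helper18.Eis

/-- `B` is a noncube modulo `l` -/
def NonCube (l : Eis) (B : ℤ) : Prop := ∀ u v : Eis, l ∣ u ^ 3 + (B : Eis) * v ^ 3 → l ∣ u ∧ l ∣ v

theorem nonCube_pow {q a : ℕ} {l : Eis} (hl : Prime l) (hl3 : ¬ l ∣ 3) (hlq : ¬ l ∣ (q : Eis))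
    (ha : (a : ZMod 3) ≠ 0) (hs : sym l (q : Eis) ≠ 0) : NonCube l ((q : ℤ) ^ a) := by
  have h1 : ¬ l ∣ ((1 : ℕ) : Eis) := by
    rw [Nat.cast_one]; exact not_dvd_of_isUnit hl isUnit_one
  have := bad_B (r := 1) (b := 0) (a := a) hl hl3 hlq h1 (by
    push_cast
    rw [zero_mul, add_zero]
    exact mul_ne_zero ha hs)
  intro u v h
  apply this
  push_cast at h ⊢
  rwa [pow_zero, mul_one]

/-- the main element of case I -/
def tOne (Q X0 X1 X2 w0 y z : ℤ) : Eis := ((3 * w0 * (Q * z) : ℤ) : Eis) + res X0 X1 X2 * y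

/-- case I at a prime `q` -/
theorem caseI_at {q : ℕ} (hq : q.Prime) (hq3 : q % 3 = 2)
    {B' C Q X0 X1 X2 w0 y z : ℤ} (hqQ : (q : ℤ) ∣ Q) (hqB' : (q : ℤ) ∣ B')
    (hsum : X0 + X1 + X2 = 0) (h01 : IsCoprime X0 X1) (h02 : IsCoprime X0 X2)
    (cyz : IsCoprime (C * y) (B' * z)) {cq : ZMod 3}
    (hcq : (q : ℤ) ∣ X0 ∧ cq = 0 ∨ (q : ℤ) ∣ X1 ∧ cq = 1 ∨ (q : ℤ) ∣ X2 ∧ cq = 2) :
    ¬ (q : Eis) ∣ tOne Q X0 X1 X2 w0 y z ∧
      sym (q : Eis) (tOne Q X0 X1 X2 w0 y z) = cq * sym (q : Eis) w ∧ y ≠ 0 ∧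
        res X0 X1 X2 ≠ 0 := by
  have hP := prime_inert hq hq3
  have hP3 := n3 hq hq3
  obtain ⟨hqs, hsq⟩ := sym_res hq hq3 hsum h01 h02 hcq
  have hqy : ¬ (q : ℤ) ∣ y := fun h => not_dvd_of_coprime hq cyz (Dvd.dvd.mul_left h _)
    (Dvd.dvd.mul_right hqB' _)
  have hqy' : ¬ (q : Eis) ∣ (y : Eis) := fun h' => hqy (cast_dvd_cast.mp h')
  have hqT : (q : Eis) ∣ ((3 * w0 * (Q * z) : ℤ) : Eis) :=
    cast_dvd_cast.mpr (Dvd.dvd.mul_left (Dvd.dvd.mul_right hqQ _) _)
  refine ⟨?_, ?_, ?_, ?_⟩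
  · intro h
    have := (dvd_add_right hqT).mp h
    exact (hP.dvd_or_dvd this).elim hqs hqy'
  · have h1 : (q : Eis) ∣ tOne Q X0 X1 X2 w0 y z - res X0 X1 X2 * y := by
      rw [tOne, add_sub_cancel_right]; exact hqT
    rw [sym_congr h1, sym_mul hP hP3 hqs hqy', hsq, sym_int hq hq3 hqy, add_zero]
  · rintro rfl; exact hqy (dvd_zero _)
  · intro h; rw [h] at hqs; exact hqs (dvd_zero _)

/-- case I away from `3 Q` -/
theorem caseI_loc {B B' C Q X0 X1 X2 w0 x y z : ℤ} {l : Eis} (hl : Prime l) (hl3 : ¬ l ∣ 3)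
    (hlQ : ¬ l ∣ (Q : Eis)) (hbad : NonCube l B) (hBB : B * B' = Q ^ 3)
    (hsum : X0 + X1 + X2 = 0) (hprod : X0 * X1 * X2 = B * C * w0 ^ 3)
    (h01 : IsCoprime X0 X1)
    (hP : x ^ 3 + C * y ^ 3 + B' * z ^ 3 = 0)
    (cxy : IsCoprime x (C * y)) (cxz : IsCoprime x (B' * z))
    (hy0 : y ≠ 0) (hs0 : res X0 X1 X2 ≠ 0) :
    3 ∣ V l (tOne Q X0 X1 X2 w0 y z) := by
  set s := res X0 X1 X2 with hs
  set T : Eis := ((3 * w0 * (Q * z) : ℤ) : Eis) with hT
  have hT' : T = 3 * (w0 : Eis) * ((Q : Eis) * (z : Eis)) := by rw [hT]; push_cast; ring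
  have hy0' : (y : Eis) ≠ 0 := by
    intro h
    have := congrArg Eis.re h
    simp at this
    exact hy0 this
  -- identities
  have hsumE : (X0 : Eis) + X1 + X2 = 0 := by exact_mod_cast congrArg (fun n : ℤ => (n : Eis)) hsum
  have hprodE : (X0 : Eis) * X1 * X2 = B * C * w0 ^ 3 := by
    exact_mod_cast congrArg (fun n : ℤ => (n : Eis)) hprod
  have hBBE : (B : Eis) * B' = Q ^ 3 := by
    exact_mod_cast congrArg (fun n : ℤ => (n : Eis)) hBB
  have hPE : (x : Eis) ^ 3 + C * y ^ 3 + B' * z ^ 3 = 0 := by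
    exact_mod_cast congrArg (fun n : ℤ => (n : Eis)) hP
  have hss : s ^ 3 + (conj s) ^ 3 = B * C * (3 * w0) ^ 3 := by
    have hX2 : (X2 : Eis) = -X0 - X1 := by linear_combination hsumE
    have h4 := w_rel
    have h5 : s ^ 3 + (conj s) ^ 3 = 27 * (X0 * X1 * X2) := by
      rw [hs, conj_res, res, hX2]
      have h6 : w ^ 2 = -1 - w := w_sq
      ring_nf
      have h7 : w ^ 3 = 1 := w_cube
      have h8 : w ^ 4 = w := by decide
      have h9 : w ^ 5 = w ^ 2 := by decide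
      have h10 : w ^ 6 = 1 := by decide
      rw [h7, h8, h9, h10, h6]
      ring
    rw [h5, hprodE]; ring
  have hid : T ^ 3 + (s * y) ^ 3 = -((conj s * y) ^ 3 + B * (3 * w0 * x) ^ 3) := by
    rw [hT']
    linear_combination (y : Eis) ^ 3 * hss - 27 * (w0 : Eis) ^ 3 * z ^ 3 * hBBE +
      27 * (w0 : Eis) ^ 3 * B * hPE
  have hs0' : conj s ≠ 0 := by
    intro h
    apply hs0
    have := congrArg conj h
    rwa [conj_conj, map_zero] at this
  obtain ⟨n0, n1⟩ := three_dvd_V hl hbad _ (conj s * y) (3 * w0 * x) rfl (fun h =>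
    (mul_ne_zero hs0' hy0') h.1)
  change 3 ∣ V l (T + s * y)
  refine three_dvd_V_add hl hl3 ?_ ?_ ?_
  · -- not both divisible
    rintro ⟨hlT, hlsy⟩
    by_cases hly : l ∣ (y : Eis)
    · have h1 : l ∣ (B : Eis) * (x : Eis) ^ 3 + (Q * z) ^ 3 := by
        have e : (B : Eis) * (x : Eis) ^ 3 + (Q * z) ^ 3 = y * (-(B * C * y ^ 2)) := by
          linear_combination (B : Eis) * hPE - (z : Eis) ^ 3 * hBBE
        rw [e]; exact Dvd.dvd.mul_right hly _
      obtain ⟨-, h2⟩ := hbad _ _ (by rwa [add_comm] at h1)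
      refine not_dvd_of_coprime' hl cxy h2 ?_
      push_cast
      exact Dvd.dvd.mul_left hly _
    · have hls : l ∣ s := (hl.dvd_or_dvd hlsy).resolve_right hly
      have hlw : ¬ l ∣ (w0 : Eis) := by
        intro hlw
        have h1 : l ∣ (conj s) ^ 3 := by
          have e : (conj s) ^ 3 = w0 * (27 * B * C * w0 ^ 2) - s * s ^ 2 := by
            linear_combination hss
          rw [e]
          exact dvd_sub (Dvd.dvd.mul_right hlw _) (Dvd.dvd.mul_right hls _)
        have h2 : l ∣ conj s := hl.dvd_of_dvd_pow h1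
        have h3 : l ∣ 3 * (X0 : Eis) := by
          have e : 3 * (X0 : Eis) = s + conj s := by
            rw [hs, conj_res, res]
            have h4 := w_rel
            linear_combination hsumE - ((X1 : Eis) + X2) * h4
          rw [e]; exact dvd_add hls h2
        have h5 : l ∣ 3 * (X1 : Eis) := by
          have e : 3 * (X1 : Eis) = w ^ 2 * s + w * conj s := by
            rw [hs, conj_res, res]
            have h4 := w_rel
            have h6 := w_cube
            have h7 : w ^ 4 = w := by decide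
            linear_combination hsumE - 2 * (X1 : Eis) * h6 - (X0 + X2) * h4 - (X2 : Eis) * h7
          rw [e]; exact dvd_add (Dvd.dvd.mul_left hls _) (Dvd.dvd.mul_left h2 _)
        exact not_dvd_of_coprime' hl h01 ((hl.dvd_or_dvd h3).resolve_left hl3)
          ((hl.dvd_or_dvd h5).resolve_left hl3)
      have hlz : l ∣ (z : Eis) := by
        rw [hT'] at hlT
        rcases hl.dvd_or_dvd hlT with h | h
        · exact absurd ((hl.dvd_or_dvd h).resolve_left hl3) hlw
        · exact (hl.dvd_or_dvd h).resolve_left hlQ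
      have h1 : l ∣ (conj s * y) ^ 3 + (B : Eis) * (3 * w0 * x) ^ 3 := by
        have e : (conj s * y) ^ 3 + (B : Eis) * (3 * w0 * x) ^ 3 =
            z * (-(27 * w0 ^ 3 * B * B' * z ^ 2)) + s * (-(s ^ 2 * y ^ 3)) := by
          linear_combination (y : Eis) ^ 3 * hss + 27 * (w0 : Eis) ^ 3 * B * hPE
        rw [e]
        exact dvd_add (Dvd.dvd.mul_right hlz _) (Dvd.dvd.mul_right hls _)
      obtain ⟨-, h2⟩ := hbad _ _ h1
      have h3 : l ∣ (x : Eis) := by
        rcases hl.dvd_or_dvd h2 with h | h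
        · exact absurd ((hl.dvd_or_dvd h).resolve_left hl3) hlw
        · exact h
      refine not_dvd_of_coprime' hl cxz h3 ?_
      push_cast
      exact Dvd.dvd.mul_left hlz _
  · rw [hid]; exact neg_ne_zero.mpr n0
  · rw [hid, V_neg]; exact n1

/-- **Case I**, one exchanged prime -/
theorem caseI_single {q a : ℕ} (hq : q.Prime) (hq3 : q % 3 = 2) (ha : (a : ZMod 3) ≠ 0)
    (hwq : sym (q : Eis) w ≠ 0)
    {B B' C : ℤ} (hB : B = (q : ℤ) ^ a) (hBB : B * B' = (q : ℤ) ^ 3) (hqB' : (q : ℤ) ∣ B')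
    {X0 X1 X2 w0 x y z : ℤ} (hsum : X0 + X1 + X2 = 0) (hprod : X0 * X1 * X2 = B * C * w0 ^ 3)
    (h01 : IsCoprime X0 X1) (h02 : IsCoprime X0 X2)
    (hP : x ^ 3 + C * y ^ 3 + B' * z ^ 3 = 0)
    (cxy : IsCoprime x (C * y)) (cxz : IsCoprime x (B' * z)) (cyz : IsCoprime (C * y) (B' * z))
    {cq c : ZMod 3}
    (hcq : (q : ℤ) ∣ X0 ∧ cq = 0 ∨ (q : ℤ) ∣ X1 ∧ cq = 1 ∨ (q : ℤ) ∣ X2 ∧ cq = 2)
    (hc : Cls (tOne q X0 X1 X2 w0 y z) c) : cq = c := by
  have hQ := prime_inert hq hq3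
  obtain ⟨tq, sq, hy0, hs0⟩ := caseI_at (w0 := w0) hq hq3 dvd_rfl hqB' hsum h01 h02 cyz hcq
  have h1 := lemmaB1 hq hq3 tq hc (by
    intro l hl hl3 hlt
    by_cases hgood : sym l (q : Eis) = 0
    · exact Or.inl hgood
    right
    have hlq : ¬ l ∣ (q : Eis) := fun h => tq ((hl.associated_of_dvd hQ h).symm.dvd.trans hlt)
    refine caseI_loc hl hl3 ?_ ?_ hBB hsum hprod h01 hP cxy cxz hy0 hs0
    · rw [Int.cast_natCast]; exact hlq
    · rw [hB]; exact nonCube_pow hl hl3 hlq ha hgood)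
  rw [sq] at h1
  exact mul_right_cancel₀ hwq h1

/-- the main element of case II -/
def tTwo (rd rn x0 x1 y0 y1 : ℤ) : Eis := w * rd * x1 * y0 + (-(rn * x0 * y1) : ℤ)

/-- case II away from `3 Q` -/
theorem caseII_loc {l : Eis} (hl : Prime l) (hl3 : ¬ l ∣ 3)
    {a0 a1 a2 a0' a1' a2' x0 x1 x2 y0 y1 y2 rd rn B k m : ℤ} (hbad : NonCube l B)
    (hx : a0 * x0 ^ 3 + a1 * x1 ^ 3 + a2 * x2 ^ 3 = 0)
    (cx01 : IsCoprime (a0 * x0) (a1 * x1))
    (hy : a0' * y0 ^ 3 + a1' * y1 ^ 3 + a2' * y2 ^ 3 = 0)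
    (cy01 : IsCoprime (a0' * y0) (a1' * y1)) (cy02 : IsCoprime (a0' * y0) (a2' * y2))
    (cy12 : IsCoprime (a1' * y1) (a2' * y2))
    (h1 : a0 * a1' * rd ^ 3 = a0' * a1 * rn ^ 3)
    (h2 : a0 * a2' * k ^ 3 = a0' * a2 * B) (h3 : a1 * a2' * m ^ 3 = a1' * a2 * B)
    (hun : ¬ l ∣ ((a0' * a1' * a1 * a2 * rd * rn * k * m : ℤ) : Eis))
    (hne : x0 ≠ 0 ∧ y2 ≠ 0) :
    3 ∣ V l (tTwo rd rn x0 x1 y0 y1) := by
  push_cast at hun
  have u0' : ¬ l ∣ (a0' : Eis) := fun h => hun
    (by repeat' first | exact h | apply Dvd.dvd.mul_right)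
  have u1' : ¬ l ∣ (a1' : Eis) := fun h => hun
    (by
      iterate 6 apply Dvd.dvd.mul_right
      exact Dvd.dvd.mul_left h _)
  have u1 : ¬ l ∣ (a1 : Eis) := fun h => hun
    (by
      iterate 5 apply Dvd.dvd.mul_right
      exact Dvd.dvd.mul_left h _)
  have u2 : ¬ l ∣ (a2 : Eis) := fun h => hun
    (by
      iterate 4 apply Dvd.dvd.mul_right
      exact Dvd.dvd.mul_left h _)
  have urd : ¬ l ∣ (rd : Eis) := fun h => hun
    (by
      iterate 3 apply Dvd.dvd.mul_right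
      exact Dvd.dvd.mul_left h _)
  have urn : ¬ l ∣ (rn : Eis) := fun h => hun
    (by
      iterate 2 apply Dvd.dvd.mul_right
      exact Dvd.dvd.mul_left h _)
  have uk : ¬ l ∣ (k : Eis) := fun h => hun
    (by
      iterate 1 apply Dvd.dvd.mul_right
      exact Dvd.dvd.mul_left h _)
  have um : ¬ l ∣ (m : Eis) := fun h => hun (Dvd.dvd.mul_left h _)
  -- casts
  have hxE := cast_eq hx
  have hyE := cast_eq hy
  have h1E := cast_eq h1
  have h2E := cast_eq h2
  have h3E := cast_eq h3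
  push_cast at hxE hyE h1E h2E h3E
  have ha0E : (a0' : Eis) ≠ 0 := by rintro h; rw [h] at u0'; exact u0' (dvd_zero _)
  have hcast0 : ∀ {n : ℤ}, n ≠ 0 → (n : Eis) ≠ 0 := by
    intro n hn h
    have := congrArg Eis.re h
    simp at this
    exact hn this
  -- the main identity
  have hmain : (a1 : Eis) * k ^ 3 * ((w * rd * x1 * y0) ^ 3 + ((-(rn * x0 * y1) : ℤ) : Eis) ^ 3) =
      rd ^ 3 * a2 * ((-(k * x2 * y0)) ^ 3 + B * (x0 * y2) ^ 3) := by
    apply mul_left_cancel₀ ha0E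
    push_cast
    have hw3 := w_cube
    linear_combination (a0' : Eis) * a1 * k ^ 3 * (rd * x1 * y0) ^ 3 * hw3 +
      (k : Eis) ^ 3 * (x0 * y1) ^ 3 * h1E + (rd : Eis) ^ 3 * (x0 * y2) ^ 3 * h2E +
      (k : Eis) ^ 3 * rd ^ 3 * a0' * y0 ^ 3 * hxE - (k : Eis) ^ 3 * rd ^ 3 * a0 * x0 ^ 3 * hyE
  obtain ⟨n0, n1⟩ := three_dvd_V hl hbad _ (-(k * x2 * y0)) (x0 * y2) rfl (fun h =>
    (mul_ne_zero (hcast0 hne.1) (hcast0 hne.2)) h.2)
  have hc1 : ¬ l ∣ (a1 : Eis) * k ^ 3 := fun h =>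
    (hl.dvd_or_dvd h).elim u1 (fun h => uk (hl.dvd_of_dvd_pow h))
  have hc2 : ¬ l ∣ (rd : Eis) ^ 3 * a2 := fun h =>
    (hl.dvd_or_dvd h).elim (fun h => urd (hl.dvd_of_dvd_pow h)) u2
  have hDne : (w * rd * x1 * y0) ^ 3 + ((-(rn * x0 * y1) : ℤ) : Eis) ^ 3 ≠ 0 := by
    intro h
    rw [h, mul_zero] at hmain
    refine mul_ne_zero ?_ n0 hmain.symm
    rintro h; rw [h] at hc2; exact hc2 (dvd_zero _)
  unfold tTwo
  refine three_dvd_V_add hl hl3 ?_ hDne ?_
  · rintro ⟨g1, g2⟩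
    have g1' : l ∣ (x1 : Eis) ∨ l ∣ (y0 : Eis) := by
      rcases hl.dvd_or_dvd g1 with h | h
      · rcases hl.dvd_or_dvd h with h | h
        · exact absurd h (fun h => (hl.dvd_or_dvd h).elim (not_dvd_w hl) urd)
        · exact Or.inl h
      · exact Or.inr h
    have g2' : l ∣ (x0 : Eis) ∨ l ∣ (y1 : Eis) := by
      push_cast at g2
      rw [dvd_neg] at g2
      rcases hl.dvd_or_dvd g2 with h | h
      · rcases hl.dvd_or_dvd h with h | h
        · exact absurd h urn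
        · exact Or.inl h
      · exact Or.inr h
    have ndc : ∀ {s t u v : ℤ}, IsCoprime (s * t) (u * v) → l ∣ (t : Eis) → ¬ l ∣ (v : Eis) := by
      intro s t u v h ht hv
      refine not_dvd_of_coprime' hl h ?_ ?_
      · push_cast; exact Dvd.dvd.mul_left ht _
      · push_cast; exact Dvd.dvd.mul_left hv _
    rcases g1' with g1 | g1 <;> rcases g2' with g2 | g2
    · exact ndc cx01 g2 g1
    · -- x1, y1
      have e1 : l ∣ (a0' : Eis) * a2 * ((-(k * x2 * y0)) ^ 3 + B * (x0 * y2) ^ 3) := by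
        have e : (a0' : Eis) * a2 * ((-(k * x2 * y0)) ^ 3 + B * (x0 * y2) ^ 3) =
          x1 * (a0' * a1 * k ^ 3 * x1 ^ 2 * y0 ^ 3) +
          y1 * (-(a0 * a1' * k ^ 3 * x0 ^ 3 * y1 ^ 2)) := by
          linear_combination (-((x0 * y2 : Eis)) ^ 3) * h2E - (k : Eis) ^ 3 * a0' * y0 ^ 3 * hxE +
            (k : Eis) ^ 3 * a0 * x0 ^ 3 * hyE
        rw [e]
        exact dvd_add (Dvd.dvd.mul_right g1 _) (Dvd.dvd.mul_right g2 _)
      have e2 := (hl.dvd_or_dvd e1).resolve_left (fun h => (hl.dvd_or_dvd h).elim u0' u2)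
      rcases hl.dvd_or_dvd (hbad _ _ e2).2 with h | h
      · exact ndc cx01 h g1
      · exact ndc cy12 g2 h
    · -- y0, x0
      have e1 : l ∣ (a1' : Eis) * a2 * ((-(m * x2 * y1)) ^ 3 + B * (x1 * y2) ^ 3) := by
        have e : (a1' : Eis) * a2 * ((-(m * x2 * y1)) ^ 3 + B * (x1 * y2) ^ 3) =
          x0 * (a1' * a0 * m ^ 3 * x0 ^ 2 * y1 ^ 3) +
          y0 * (-(a1 * a0' * m ^ 3 * x1 ^ 3 * y0 ^ 2)) := by
          linear_combination (-((x1 * y2 : Eis)) ^ 3) * h3E - (m : Eis) ^ 3 * a1' * y1 ^ 3 * hxE +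
            (m : Eis) ^ 3 * a1 * x1 ^ 3 * hyE
        rw [e]
        exact dvd_add (Dvd.dvd.mul_right g2 _) (Dvd.dvd.mul_right g1 _)
      have e2 := (hl.dvd_or_dvd e1).resolve_left (fun h => (hl.dvd_or_dvd h).elim u1' u2)
      rcases hl.dvd_or_dvd (hbad _ _ e2).2 with h | h
      · exact ndc cx01 g2 h
      · exact ndc cy02 g1 h
    · exact ndc cy01 g1 g2
  · have hV := congrArg (V l) hmain
    rw [V_mul_not_dvd hl hc1 hDne, V_mul_not_dvd hl hc2 n0] at hV
    rw [hV]; exact n1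

/-- **Case II**, one exchanged prime -/
theorem caseII_single {q a : ℕ} (hq : q.Prime) (hq3 : q % 3 = 2) (ha : (a : ZMod 3) ≠ 0)
    (hwq : sym (q : Eis) w ≠ 0)
    {a0 a1 a2 a0' a1' a2' x0 x1 x2 y0 y1 y2 rd rn B k m : ℤ}
    (hB : B = (q : ℤ) ^ a)
    (hx : a0 * x0 ^ 3 + a1 * x1 ^ 3 + a2 * x2 ^ 3 = 0)
    (cx01 : IsCoprime (a0 * x0) (a1 * x1))
    (cx12 : IsCoprime (a1 * x1) (a2 * x2))
    (hy : a0' * y0 ^ 3 + a1' * y1 ^ 3 + a2' * y2 ^ 3 = 0)
    (cy01 : IsCoprime (a0' * y0) (a1' * y1)) (cy02 : IsCoprime (a0' * y0) (a2' * y2))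
    (cy12 : IsCoprime (a1' * y1) (a2' * y2))
    (h1 : a0 * a1' * rd ^ 3 = a0' * a1 * rn ^ 3)
    (h2 : a0 * a2' * k ^ 3 = a0' * a2 * B) (h3 : a1 * a2' * m ^ 3 = a1' * a2 * B)
    (hunit : ∀ l : Eis, Prime l → ¬ l ∣ 3 → ¬ l ∣ (q : Eis) → sym l (q : Eis) ≠ 0 →
      ¬ l ∣ ((a0' * a1' * a1 * a2 * rd * rn * k * m : ℤ) : Eis))
    {f c : ZMod 3}
    (hf : (q : ℤ) ∣ a2 ∧ (q : ℤ) ∣ a2' ∧ ¬ (q : ℤ) ∣ rd ∧ f = 2 ∨
      (q : ℤ) ∣ a0 ∧ (q : ℤ) ∣ a1' ∧ (q : ℤ) ∣ rn ∧ ¬ (q : ℤ) ∣ rd ∧ f = 1 ∨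
      (q : ℤ) ∣ a1 ∧ (q : ℤ) ∣ a0' ∧ (q : ℤ) ∣ rd ∧ ¬ (q : ℤ) ∣ rn ∧ f = 0)
    (hc : Cls (tTwo rd rn x0 x1 y0 y1) c)
    (hne : x0 ≠ 0 ∧ y2 ≠ 0) : f = c := by
  have hQ := prime_inert hq hq3
  obtain ⟨tq, sq⟩ := caseII_one hq hq3 hx cx01 cx12 hy cy01 cy02 h1 hf
  have h1 := lemmaB1 (t := tTwo rd rn x0 x1 y0 y1) hq hq3 tq hc (by
    intro l hl hl3 hlt
    by_cases hgood : sym l (q : Eis) = 0
    · exact Or.inl hgood
    right
    have hlq : ¬ l ∣ (q : Eis) := fun h => tq ((hl.associated_of_dvd hQ h).symm.dvd.trans hlt)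
    refine caseII_loc hl hl3 ?_ hx cx01 hy cy01 cy02 cy12 h1 h2 h3
      (hunit l hl hl3 hlq hgood) hne
    rw [hB]; exact nonCube_pow hl hl3 hlq ha hgood)
  have h2 : f * sym (q : Eis) w = c * sym (q : Eis) w := by rw [← h1]; exact sq.symm
  exact mul_right_cancel₀ hwq h2

end Pool.Agent.Lib_helper84.Cub

end

section

/-!
# The product formula for several inert primes, with the term at the prime above 3
-/

set_option autoImplicit false

namespace Pool.Agent.CubeRank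

open Pool.Agent.Lib_helper18 Pool.Agent.Lib_helper18.Eis Pool.Agent.Lib_helper84.Cub

variable {m : ℕ}

/-- the product formula for a primary element -/
theorem lemmaS_prim {q : Fin m → ℕ} (hq : ∀ i, (q i).Prime) (hq3 : ∀ i, q i % 3 = 2)
    (S : Finset (Fin m)) (a : Fin m → ZMod 3) :
    ∀ (n : ℕ) (t : Eis), N t = n → t ≠ 0 → Prim t → (∀ i ∈ S, ¬ (q i : Eis) ∣ t) →
    (∀ l : Eis, Prime l → ¬ l ∣ 3 → l ∣ t →
      ∑ i ∈ S, a i * sym l (q i : Eis) = 0 ∨ 3 ∣ V l t) →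
    ∑ i ∈ S, a i * sym (q i : Eis) t = 0 := by
  have hQ := fun i => prime_inert (hq i) (hq3 i)
  have hQ3 := fun i => n3 (hq i) (hq3 i)
  intro n
  induction n using Nat.strong_induction_on with
  | _ n ih =>
    intro t hn ht hprim hqt H
    by_cases hu : IsUnit t
    · have h1 := Prim.unit prim_one hu (by rwa [one_mul])
      refine Finset.sum_eq_zero (fun i _ => ?_)
      rcases h1 with rfl | rfl
      · rw [sym_one (hQ i) (hQ3 i), mul_zero]
      · have h2 : ¬ (q i : Eis) ∣ 1 := not_dvd_of_isUnit (hQ i) isUnit_one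
        rw [sym_neg (hQ i) (hQ3 i) h2, sym_one (hQ i) (hQ3 i), mul_zero]
    · obtain ⟨l, hlirr, hlt⟩ := WfDvdMonoid.exists_irreducible_factor hu ht
      have hl : Prime l := hlirr.prime
      have hl3 : ¬ l ∣ 3 := Prim.ndvd3 hl hprim hlt
      obtain ⟨j, hi⟩ := exists_prim (not_lam_dvd_of_prime hl hl3)
      have hass : Associated (l * w ^ j) l := ⟨(isUnit_w.pow j).unit⁻¹, by
        rw [mul_assoc]; simp⟩
      have hl' : Prime (l * w ^ j) := (hass.symm.prime hl)
      rcases H l hl hl3 hlt with hgood | hval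
      · -- a good prime; make it primary
        have hl3' : ¬ (l * w ^ j) ∣ 3 := fun h => hl3 (hass.symm.dvd.trans h)
        obtain ⟨t', ht'e⟩ : l * w ^ j ∣ t := hass.dvd.trans hlt
        have ht'p : Prim t' := hi.of_mul (by rw [← ht'e]; exact hprim)
        have ht' : t' ≠ 0 := by
          rintro rfl
          rw [mul_zero] at ht'e
          exact ht ht'e
        have hqt' : ∀ i ∈ S, ¬ (q i : Eis) ∣ t' := fun i hiS h => hqt i hiS (by
          rw [ht'e]; exact Dvd.dvd.mul_left h _)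
        have hql' : ∀ i ∈ S, ¬ (q i : Eis) ∣ l * w ^ j := fun i hiS h => hqt i hiS (by
          rw [ht'e]; exact Dvd.dvd.mul_right h _)
        have hlt' : N t' < n := by
          rw [← hn, ht'e, N_mul]
          have h1 := N_prime hl'
          have h2 := N_pos ht'
          nlinarith
        have h1 := ih _ hlt' t' rfl ht' ht'p hqt' (by
          intro m hm hm3 hmt
          by_cases hass' : Associated m (l * w ^ j)
          · left
            rw [← hgood]
            exact Finset.sum_congr rfl (fun i _ => by rw [sym_associated (hass'.trans hass)])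
          · rcases H m hm hm3 (by rw [ht'e]; exact Dvd.dvd.mul_left hmt _) with h | h
            · exact Or.inl h
            · right
              have hml : ¬ m ∣ l * w ^ j := fun h' => hass' (hm.associated_of_dvd hl' h')
              rwa [ht'e, V_mul_not_dvd hm hml ht'] at h)
        have h2 : ∀ i ∈ S, a i * sym (q i : Eis) t =
            a i * sym l (q i : Eis) + a i * sym (q i : Eis) t' := by
          intro i hiS
          have r1 := recip_inert (hq i) (hq3 i) hl' hl3' hi (hql' i hiS)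
          rw [ht'e, sym_mul (hQ i) (hQ3 i) (hql' i hiS) (hqt' i hiS), r1, sym_associated hass]
          ring
        rw [Finset.sum_congr rfl h2, Finset.sum_add_distrib, h1, hgood, add_zero]
      · -- valuation divisible by 3
        have hVe : V (l * w ^ j) t = V l t := multiplicity_eq_of_associated_left hass.symm
        obtain ⟨c, hc, hlc⟩ := V_split hl' ht
        obtain ⟨k, hk⟩ := hval
        have hk0 : k ≠ 0 := by
          rintro rfl
          exact V_eq_zero_iff.mp (by rw [hk]) hlt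
        rw [hVe, hk] at hc
        have hc0 : c ≠ 0 := by rintro rfl; exact hlc (dvd_zero _)
        have hcp : Prim c := (hi.pow (3 * k)).of_mul (by rw [← hc]; exact hprim)
        have hlk : l * w ^ j ∣ (l * w ^ j) ^ (3 * k) := dvd_pow_self _ (by omega)
        have hqc : ∀ i ∈ S, ¬ (q i : Eis) ∣ c := fun i hiS h => hqt i hiS (by
          rw [hc]; exact Dvd.dvd.mul_left h _)
        have hqk : ∀ i ∈ S, ¬ (q i : Eis) ∣ (l * w ^ j) ^ (3 * k) := fun i hiS h => hqt i hiS (by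
          rw [hc]; exact Dvd.dvd.mul_right h _)
        have hql : ∀ i ∈ S, ¬ (q i : Eis) ∣ l * w ^ j := fun i hiS h => hqk i hiS (h.trans hlk)
        have hlt' : N c < n := by
          rw [← hn, hc, N_mul]
          have h1 : 1 < N ((l * w ^ j) ^ (3 * k)) := by
            have : N ((l * w ^ j) ^ (3 * k)) = (N (l * w ^ j)) ^ (3 * k) := by
              have h5 : ((N ((l * w ^ j) ^ (3 * k)) : ℕ) : ℤ) = ((N (l * w ^ j)) ^ (3 * k) : ℕ) := by
                rw [N_cast, Eis.norm_pow]; push_cast; rw [N_cast]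
              exact_mod_cast h5
            rw [this]
            exact Nat.one_lt_pow (by omega) (N_prime hl')
          have h2 := N_pos hc0
          nlinarith
        have h1 := ih _ hlt' c rfl hc0 hcp hqc (by
          intro m hm hm3 hmt
          have hml : ¬ m ∣ (l * w ^ j) ^ (3 * k) := by
            intro h'
            have h6 := hm.dvd_of_dvd_pow h'
            have := hm.associated_of_dvd hl' h6
            exact hlc (this.symm.dvd.trans hmt)
          rcases H m hm hm3 (by rw [hc]; exact Dvd.dvd.mul_left hmt _) with h | h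
          · exact Or.inl h
          · right
            rwa [hc, V_mul_not_dvd hm hml hc0] at h)
        rw [← h1]
        refine Finset.sum_congr rfl (fun i hiS => ?_)
        rw [hc, sym_mul (hQ i) (hQ3 i) (hqk i hiS) (hqc i hiS),
          sym_pow (hQ i) (hQ3 i) (hql i hiS)]
        push_cast
        linear_combination (a i * (k : ZMod 3) * sym (q i : Eis) (l * w ^ j)) * three_zmod

/-- **the product formula for several inert primes** -/
theorem lemmaS {q : Fin m → ℕ} (hq : ∀ i, (q i).Prime) (hq3 : ∀ i, q i % 3 = 2)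
    (S : Finset (Fin m)) (a : Fin m → ZMod 3) {t : Eis} {c : ZMod 3} (ht : t ≠ 0)
    (hqt : ∀ i ∈ S, ¬ (q i : Eis) ∣ t) (hc : Cls t c)
    (H : ∀ l : Eis, Prime l → ¬ l ∣ 3 → l ∣ t →
      ∑ i ∈ S, a i * sym l (q i : Eis) = 0 ∨ 3 ∣ V l t) :
    ∑ i ∈ S, a i * sym (q i : Eis) t = c * ∑ i ∈ S, a i * sym (q i : Eis) w := by
  have hQ := fun i => prime_inert (hq i) (hq3 i)
  have hQ3 := fun i => n3 (hq i) (hq3 i)
  obtain ⟨j, k, s, rfl, hp, rfl⟩ := hc
  have hw := fun i => not_dvd_w (hQ i)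
  have hl := fun i => not_dvd_lam (hQ3 i)
  have hlj : ∀ i, ¬ (q i : Eis) ∣ lam ^ j := fun i h => hl i ((hQ i).dvd_of_dvd_pow h)
  have hwk : ∀ i, ¬ (q i : Eis) ∣ w ^ k := fun i h => hw i ((hQ i).dvd_of_dvd_pow h)
  have hqs : ∀ i ∈ S, ¬ (q i : Eis) ∣ s := fun i hi h => hqt i hi (Dvd.dvd.mul_left h _)
  have hs0 : s ≠ 0 := by rintro rfl; exact ht (by rw [mul_zero])
  have hwk0 : w ^ k ≠ 0 := pow_ne_zero _ (by decide)
  have h1 := lemmaS_prim hq hq3 S a _ (s * w ^ k) rfl (mul_ne_zero hs0 hwk0) hp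
    (fun i hi h => ((hQ i).dvd_or_dvd h).elim (hqs i hi) (hwk i)) (by
      intro l hl hl3 hlt
      have hls : l ∣ s := (hl.dvd_or_dvd hlt).resolve_right (fun h =>
        not_dvd_w hl (hl.dvd_of_dvd_pow h))
      rcases H l hl hl3 (Dvd.dvd.mul_left hls _) with h | h
      · exact Or.inl h
      · right
        have e1 : ¬ l ∣ lam ^ j := fun h => not_dvd_lam hl3 (hl.dvd_of_dvd_pow h)
        have e2 : ¬ l ∣ w ^ k := fun h => not_dvd_w hl (hl.dvd_of_dvd_pow h)
        rw [V_mul_not_dvd hl e1 hs0] at h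
        rwa [mul_comm, V_mul_not_dvd hl e2 hs0])
  rw [Finset.mul_sum]
  rw [← add_zero (∑ i ∈ S, -((j : ZMod 3) + k) * (a i * sym (q i : Eis) w)), ← h1,
    ← Finset.sum_add_distrib]
  refine Finset.sum_congr rfl (fun i hi => ?_)
  rw [sym_mul (hQ i) (hQ3 i) (hqs i hi) (hwk i), sym_pow (hQ i) (hQ3 i) (hw i),
    sym_mul (hQ i) (hQ3 i) (hlj i) (hqs i hi), sym_pow (hQ i) (hQ3 i) (hl i),
    sym_inert_lam (hq i) (hq3 i)]
  ring

/-- the symbol of a product -/
theorem sym_prod {l : Eis} (hl : Prime l) (hl3 : ¬ l ∣ 3) {p : Fin m → ℕ} (e : Fin m → ℕ)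
    (S : Finset (Fin m)) (hno : ∀ j, ¬ l ∣ (p j : Eis)) :
    ¬ l ∣ ∏ j ∈ S, (p j : Eis) ^ e j ∧
      sym l (∏ j ∈ S, (p j : Eis) ^ e j) = ∑ j ∈ S, (e j : ZMod 3) * sym l (p j : Eis) := by
  classical
  induction S using Finset.induction_on with
  | empty =>
    simp only [Finset.prod_empty, Finset.sum_empty]
    exact ⟨not_dvd_of_isUnit hl isUnit_one, sym_one hl hl3⟩
  | insert i S hi ih =>
    rw [Finset.prod_insert hi, Finset.sum_insert hi]
    have h1 : ¬ l ∣ (p i : Eis) ^ e i := fun h => hno i (hl.dvd_of_dvd_pow h)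
    refine ⟨fun h => (hl.dvd_or_dvd h).elim h1 ih.1, ?_⟩
    rw [sym_mul hl hl3 h1 ih.1, ih.2, sym_pow hl hl3 (hno i)]

/-- noncubes -/
theorem nonCube_of_sym {l : Eis} (hl : Prime l) (hl3 : ¬ l ∣ 3) {B : ℤ} (hB : ¬ l ∣ (B : Eis))
    (hs : sym l (B : Eis) ≠ 0) : NonCube l B := by
  intro u v h
  by_cases hv : l ∣ v
  · have h1 : l ∣ (B : Eis) * v ^ 3 := Dvd.dvd.mul_left (Dvd.dvd.pow hv (by norm_num)) _
    exact ⟨hl.dvd_of_dvd_pow ((dvd_add_left h1).mp h), hv⟩
  · exfalso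
    apply hs
    have hv3 : ¬ l ∣ v ^ 3 := fun h' => hv (hl.dvd_of_dvd_pow h')
    have hBv : ¬ l ∣ (B : Eis) * v ^ 3 := fun h' => (hl.dvd_or_dvd h').elim hB hv3
    have hu : ¬ l ∣ u := by
      intro h'
      have h1 : l ∣ u ^ 3 := Dvd.dvd.pow h' (by norm_num)
      exact hBv ((dvd_add_right h1).mp h)
    have h5 : l ∣ (B : Eis) * v ^ 3 - (-u) ^ 3 := by
      have e : (B : Eis) * v ^ 3 - (-u) ^ 3 = u ^ 3 + (B : Eis) * v ^ 3 := by ring
      rw [e]; exact h
    have h6 := sym_congr h5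
    have hu' : ¬ l ∣ -u := by rwa [dvd_neg]
    rw [sym_cube hl hl3 hu', sym_mul hl hl3 hB hv3, sym_cube hl hl3 hv, add_zero] at h6
    exact h6

end Pool.Agent.CubeRank

end
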