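import Mathlib
import Pool.Agent.PTWX.C05
import Pool.Agent.PTWX.C12

/-! Parts: PT.Defs, PT.Stmts1, PT.Stmts2, PT.Stmts3, PT.EDET, PT.EMAT, PT.HN, PT.NFLD, PT.TEND, PT.F2B, PT.HERBQ, PT.SPP, PT.ROOT, PT.AVV, PT.IF4B -/

namespace Pool.Agent.PT.EMAT
end Pool.Agent.PT.EMAT

namespace Pool.Agent.PT.NFLD
end Pool.Agent.PT.NFLD

namespace Pool.Agent.PT.TEND
end Pool.Agent.PT.TEND

namespace Pool.Agent.PT.HERBQ
end Pool.Agent.PT.HERBQ

namespace Pool.Agent.PT.ROOT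
end Pool.Agent.PT.ROOT

namespace Pool.Agent.PT.IF4B
end Pool.Agent.PT.IF4B

section

/-!
# Prime twists of rank zero: definitions

`Eis` is the ring `Z[w]` (library of helper18), `sym l x : ZMod 3` the cubic residue symbol,
`V l x` the multiplicity of `l` in `x`.
-/

namespace Pool.Agent.PT

open Pool.Agent.Lib_helper18 Pool.Agent.Lib_helper18.Eis Pool.Agent.Lib_helper84.Cub

/-- The primes of `Z[w]` not above `3`, one from each class of associates: primary and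
`= 2 (mod 3)`. -/
def PP : Type := {π : Eis // Prime π ∧ π.re % 3 = 2 ∧ (3 : ℤ) ∣ π.im}

/-- the unit part of `a` at `π` -/
noncomputable def up (π a : Eis) : Eis := a / π ^ V π a

/-- the cubic residue symbol of the unit part of `a` at `π` -/
noncomputable def ch (π a : Eis) : ZMod 3 := sym π (up π a)

/-- the tame symbol at `π` with values in `ZMod 3` -/
noncomputable def tm (π a b : Eis) : ZMod 3 := (V π b : ZMod 3) * ch π a - (V π a : ZMod 3) * ch π b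

/-- the symbol at the prime `lam` above `3`, defined by the product formula -/
noncomputable def sl (a b : Eis) : ZMod 3 := -∑ᶠ π : PP, tm π.1 a b

/-- the places: `none` is the prime above `3` -/
abbrev Pl : Type := Option PP

/-- the symbol at a place -/
noncomputable def sy : Pl → Eis → Eis → ZMod 3
  | none => sl
  | some π => tm π.1

/-- the uniformizer of a place -/
def uni : Pl → Eis
  | none => lam
  | some π => π.1

/-- A cubic symbol on `Z[w]` that is continuous for the `π`-adic topology, with exponent `e`. -/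
structure LSym (π : Eis) (s : Eis → Eis → ZMod 3) (e : ℕ) : Prop where
  prime : Prime π
  pos : 1 ≤ e
  mul : ∀ a b c : Eis, a ≠ 0 → b ≠ 0 → c ≠ 0 → s (a * b) c = s a c + s b c
  skew : ∀ a b : Eis, a ≠ 0 → b ≠ 0 → s b a = - s a b
  stein : ∀ a b c : Eis, a ≠ 0 → b ≠ 0 → c ≠ 0 → a + b + c = 0 → s a b + s b c + s c a = 0
  cont : ∀ a a' b : Eis, a ≠ 0 → b ≠ 0 → π ^ (V π a + e) ∣ a' - a → s a' b = s a b

/-- the linear form `p + q w^i r` -/
def Lf (p q : ℤ) (i : ℕ) (r : ℤ) : Eis := (p : Eis) + (q : Eis) * w ^ i * (r : Eis)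

/-- the symbol of `B` with `α = [(p + q w^2 r)(p' + q' w r)] / [(p + q w r)(p' + q' w^2 r)]` -/
def AS (s : Eis → Eis → ZMod 3) (B : Eis) (p q p' q' r : ℤ) : ZMod 3 :=
  s B (Lf p q 2 r) + s B (Lf p' q' 1 r) - s B (Lf p q 1 r) - s B (Lf p' q' 2 r)

/-- `G_i = q p' - w^i p q'` -/
def Gf (p q p' q' : ℤ) (i : ℕ) : Eis := (q : Eis) * p' - w ^ i * p * q'

/-- `D_i = X u + w^i v Y` -/
def Df (X Y u v : ℤ) (i : ℕ) : Eis := (X : Eis) * u + w ^ i * v * Y

/-- The local term of the point `(X, Y)`: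
`(D_1/D_2, N'/n_0) - (D'_1/D'_2, N''/n_0)`, where `D_i = X p' + w^i p Y`, `D'_i = X q' + w^i q Y`,
`N' = p^3 - x p'^3`, `N'' = x q'^3 - q^3`, `n_0 = X^3 + x Y^3`. -/
def SV (s : Eis → Eis → ZMod 3) (x p q p' q' X Y : ℤ) : ZMod 3 :=
  (s (Df X Y p' p 1) ((p ^ 3 - x * p' ^ 3 : ℤ) : Eis) -
    s (Df X Y p' p 2) ((p ^ 3 - x * p' ^ 3 : ℤ) : Eis) -
    s (Df X Y p' p 1) ((X ^ 3 + x * Y ^ 3 : ℤ) : Eis) +
    s (Df X Y p' p 2) ((X ^ 3 + x * Y ^ 3 : ℤ) : Eis)) -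
  (s (Df X Y q' q 1) ((x * q' ^ 3 - q ^ 3 : ℤ) : Eis) -
    s (Df X Y q' q 2) ((x * q' ^ 3 - q ^ 3 : ℤ) : Eis) -
    s (Df X Y q' q 1) ((X ^ 3 + x * Y ^ 3 : ℤ) : Eis) +
    s (Df X Y q' q 2) ((X ^ 3 + x * Y ^ 3 : ℤ) : Eis))

/-- The sum of the local terms `U_v = (B, G_1/G_2) + (w, B x b)`. -/
def UV (s : Eis → Eis → ZMod 3) (B b x p q p' q' : ℤ) : ZMod 3 :=
  s (B : Eis) (Gf p q p' q' 1) - s (B : Eis) (Gf p q p' q' 2) + s w ((B * x * b : ℤ) : Eis)

/-- `b` is a cube in the completion at `π` (through rational integers) -/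
def LC (π : Eis) (b : ℤ) : Prop := ∀ N : ℕ, ∃ r : ℤ, π ^ N ∣ (r : Eis) ^ 3 - (b : Eis)

open Classical in
/-- the value of `AS` at all good approximations of a cube root of `b` -/
noncomputable def AV (v : Pl) (B b p q p' q' : ℤ) : ZMod 3 :=
  if h : ∃ c : ZMod 3, ∃ N0 : ℕ, ∀ r : ℤ, uni v ^ N0 ∣ (r : Eis) ^ 3 - (b : Eis) →
      AS (sy v) (B : Eis) p q p' q' r = c then h.choose else 0

open Classical in
/-- The local term `T_v` of the pair `(b, η)`, `η = (p + q T)/(p' + q' T)` of norm `x` from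
`Q(b^(1/3))`. -/
noncomputable def TT (v : Pl) (B b x p q p' q' : ℤ) : ZMod 3 :=
  if LC (uni v) b then AV v B b p q p' q' + sy v w (x : Eis)
  else match v with
    | none => 0
    | some π => if 3 ∣ V π.1 (b : Eis) + V π.1 (B : Eis) ∧ ¬ 3 ∣ V π.1 (b : Eis)
        then - tm π.1 w (x : Eis) else 0

/-- The pairing `O_B(b, η)`. -/
noncomputable def OO (B b x p q p' q' : ℤ) : ZMod 3 := ∑ᶠ v : Pl, TT v B b x p q p' q'

/-- being a cube modulo `9` (prime to `3`) -/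
def C9 (m : ℤ) : Prop := m % 9 = 1 ∨ m % 9 = 8

/-- `η = (p + q T)/(p' + q' T)` has norm `x` from `Q(b^(1/3))`. -/
structure SolW (b x p q p' q' : ℤ) : Prop where
  eq : p ^ 3 + b * q ^ 3 = x * (p' ^ 3 + b * q' ^ 3)
  n1 : p ^ 3 + b * q ^ 3 ≠ 0

/-- `SolW` with a further nondegeneracy condition (automatic when `x` is not a cube). -/
structure Sol (b x p q p' q' : ℤ) : Prop extends SolW b x p q p' q' where
  n2 : p ^ 3 - x * p' ^ 3 ≠ 0

/-- `b` is an admissible class for the curve `X^3 + Y^3 = B`. -/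
structure Adm (B b : ℤ) : Prop where
  ne : b ≠ 0
  three : ¬ (3 : ℤ) ∣ b
  sym : ∀ π : PP, tm π.1 (b : Eis) (B : Eis) = 0
  unr : ∀ π : PP, ¬ π.1 ∣ (B : Eis) → ¬ π.1 ∣ (b : Eis)
  nine : C9 B → C9 b

/-- conditions on `B`: nonzero, prime to `3`, cube-free -/
structure BOk (B : ℤ) : Prop where
  ne : B ≠ 0
  three : ¬ (3 : ℤ) ∣ B
  cf : ∀ π : PP, V π.1 (B : Eis) ≤ 2

/-- `HypM B`: the part of the Selmer group on which complex conjugation acts by `-1` is trivial. -/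
def HypM (B : ℤ) : Prop := ∀ z t : Eis, z ≠ 0 → z * conj z = t ^ 3 →
  (∀ π : PP, tm π.1 z (B : Eis) = 0) → (∀ π : PP, ¬ π.1 ∣ (B : Eis) → 3 ∣ V π.1 z) →
  ∃ γ : Eis, z = γ ^ 3

/-- `(X, Y)` is a point of class `x` on the curve `X^3 + Y^3 = B`. -/
structure Pt (B x X Y : ℤ) : Prop where
  hX : X ≠ 0
  hY : Y ≠ 0
  eq : ∃ c : ℤ, c ≠ 0 ∧ x * (X ^ 3 + x * Y ^ 3) = B * c ^ 3

end Pool.Agent.PT

end

section

/-!
# Prime twists of rank zero: statements, part 1 (symbols, identities, local and global theorem)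
-/

namespace Pool.Agent.PT

open Pool.Agent.Lib_helper18 Pool.Agent.Lib_helper18.Eis Pool.Agent.Lib_helper84.Cub

/-! ### Symbols -/

/-- STM: the tame symbols. -/
def STM : Prop := ∀ π : Eis, Prime π → ¬ π ∣ 3 → LSym π (tm π) 1

/-- SPP: the set `PP`. -/
def SPP : Prop :=
  (∀ l : Eis, Prime l → ¬ l ∣ 3 → ∃ π : PP, Associated l π.1) ∧
  (∀ π π' : PP, Associated π.1 π'.1 → π = π') ∧
  (∀ a : Eis, a ≠ 0 → {π : PP | π.1 ∣ a}.Finite) ∧
  (∀ π : PP, ¬ π.1 ∣ 3 ∧ ∃ π' : PP, π'.1 = conj π.1) ∧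
  (∀ q : ℕ, q.Prime → q % 3 = 2 → ∃ π : PP, π.1 = (q : Eis)) ∧
  (∀ π : PP, ∃ p : ℕ, p.Prime ∧ ((p % 3 = 2 ∧ π.1 = (p : Eis)) ∨
    (p % 3 = 1 ∧ π.1.norm = p ∧ (p : Eis) = π.1 * conj π.1 ∧ ¬ Associated π.1 (conj π.1))))

/-- SSL: the symbol `sl` and the product formula. -/
def SSL : Prop :=
  (∀ a b c : Eis, a ≠ 0 → b ≠ 0 → c ≠ 0 → sl (a * b) c = sl a c + sl b c) ∧
  (∀ a b : Eis, a ≠ 0 → b ≠ 0 → sl b a = - sl a b) ∧
  (∀ a b c : Eis, a ≠ 0 → b ≠ 0 → c ≠ 0 → a + b + c = 0 → sl a b + sl b c + sl c a = 0) ∧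
  (∀ a b : Eis, a ≠ 0 → b ≠ 0 → (Function.support fun v : Pl => sy v a b).Finite ∧
    ∑ᶠ v : Pl, sy v a b = 0)

/-- SREC: cubic reciprocity for primary elements and the supplementary laws. -/
def SREC : Prop :=
  (∀ c d : Eis, Prim c → Prim d → sl c d = 0) ∧
  (∀ c : Eis, Prim c → sl c w = wt c.norm) ∧
  (∀ c : Eis, Prim c → sl c lam = 2 * wt (c.re ^ 2)) ∧
  sl w lam = 0

/-- SLC: `sl` is a symbol at `lam` with exponent `4`. -/
def SLC : Prop := LSym lam sl 4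

/-- SCJ: complex conjugation. -/
def SCJ : Prop :=
  (∀ π a b : Eis, Prime π → ¬ π ∣ 3 → a ≠ 0 → b ≠ 0 →
    tm (conj π) (conj a) (conj b) = - tm π a b) ∧
  (∀ a b : Eis, a ≠ 0 → b ≠ 0 → sl (conj a) (conj b) = - sl a b) ∧
  (∀ m n : ℤ, m ≠ 0 → n ≠ 0 → sl m n = 0) ∧
  (∀ q : ℕ, q.Prime → q % 3 = 2 → ∀ m n : ℤ, m ≠ 0 → n ≠ 0 → tm (q : Eis) m n = 0)

/-- LCI: rational local cubes. -/
def LCI : Prop :=
  (∀ (π : PP) (b : ℤ), b ≠ 0 → (LC π.1 b ↔ 3 ∣ V π.1 (b : Eis) ∧ ch π.1 (b : Eis) = 0)) ∧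
  (∀ b : ℤ, ¬ (3 : ℤ) ∣ b → (LC lam b ↔ C9 b)) ∧
  (∀ (π : Eis) (s : Eis → Eis → ZMod 3) (e : ℕ) (b : ℤ) (a : Eis), LSym π s e → LC π b →
    b ≠ 0 → a ≠ 0 → s (b : Eis) a = 0)

/-! ### Identities -/

/-- STAR: the identity of symbols of linear forms `F_i = X + w^i ξ Y`, `G_i = u + w^i ξ v`,
`D_i = X v - w^i u Y`. -/
def STAR : Prop := ∀ (π : Eis) (s : Eis → Eis → ZMod 3) (e : ℕ), LSym π s e →
  ∀ (X Y u v ξ : Eis) (F G D : ℕ → Eis), (∀ i, F i = X + w ^ i * ξ * Y) →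
    (∀ i, G i = u + w ^ i * ξ * v) → (∀ i, D i = X * v - w ^ i * u * Y) → ξ ≠ 0 →
    (∀ i, F i ≠ 0) →
    s (F 1) (F 0 * F 1 * F 2) - s (F 2) (F 0 * F 1 * F 2) = s w (F 0 * F 1 * F 2) ∧
    ((∀ i, G i ≠ 0) → D 1 ≠ 0 → D 2 ≠ 0 →
      s (D 1) (G 0 * G 1 * G 2) - s (D 2) (G 0 * G 1 * G 2) -
        s (D 1) (F 0 * F 1 * F 2) + s (D 2) (F 0 * F 1 * F 2) =
      s w (F 0 * F 1 * F 2) + s (F 0 * F 1 * F 2) (G 2) - s (F 0 * F 1 * F 2) (G 1) +
        s (F 1) (G 0 * G 1 * G 2) - s (F 2) (G 0 * G 1 * G 2))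

/-- IF1: `α_b α_x = w⁻¹ k_0` modulo cubes. -/
def IF1 : Prop := ∀ (π : Eis) (s : Eis → Eis → ZMod 3) (e : ℕ), LSym π s e →
  ∀ b x p q p' q' : ℤ, b ≠ 0 → x ≠ 0 → Sol b x p q p' q' →
  ∃ N0 : ℕ, ∀ r ξ : ℤ, π ^ N0 ∣ (r : Eis) ^ 3 - (b : Eis) → π ^ N0 ∣ (ξ : Eis) ^ 3 - (x : Eis) →
    ∀ B : Eis, B ≠ 0 → AS s B p q p' q' r + AS s B p (-p') (-q) q' ξ =
      s B (Gf p q p' q' 1) - s B (Gf p q p' q' 2) + s w B

/-- IF2: `(x, α_b) = (x, k_0) + (w, x)`. -/
def IF2 : Prop := ∀ (π : Eis) (s : Eis → Eis → ZMod 3) (e : ℕ), LSym π s e →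
  ∀ b x p q p' q' : ℤ, b ≠ 0 → x ≠ 0 → Sol b x p q p' q' →
  ∃ N0 : ℕ, ∀ r : ℤ, π ^ N0 ∣ (r : Eis) ^ 3 - (b : Eis) →
    AS s (x : Eis) p q p' q' r =
      s (x : Eis) (Gf p q p' q' 1) - s (x : Eis) (Gf p q p' q' 2) + s w (x : Eis)

/-- IF4: the local term of a point when `x` is a local cube. -/
def IF4 : Prop := ∀ (π : Eis) (s : Eis → Eis → ZMod 3) (e : ℕ), LSym π s e →
  ∀ b x p q p' q' X Y : ℤ, b ≠ 0 → x ≠ 0 → Sol b x p q p' q' → X ≠ 0 → Y ≠ 0 →
    X ^ 3 + x * Y ^ 3 ≠ 0 →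
  ∃ N0 : ℕ, ∀ ξ : ℤ, π ^ N0 ∣ (ξ : Eis) ^ 3 - (x : Eis) →
    SV s x p q p' q' X Y =
      AS s ((X ^ 3 + x * Y ^ 3 : ℤ) : Eis) p (-p') (-q) q' ξ +
        s (Lf X Y 1 ξ) (b : Eis) - s (Lf X Y 2 ξ) (b : Eis)

/-- IF4B: `(F_1/F_2, n_0) = (w, n_0)`. -/
def IF4B : Prop := ∀ (π : Eis) (s : Eis → Eis → ZMod 3) (e : ℕ), LSym π s e →
  ∀ x X Y : ℤ, x ≠ 0 → X ≠ 0 → Y ≠ 0 → X ^ 3 + x * Y ^ 3 ≠ 0 →
  ∃ N0 : ℕ, ∀ ξ : ℤ, π ^ N0 ∣ (ξ : Eis) ^ 3 - (x : Eis) →
    s (Lf X Y 1 ξ) ((X ^ 3 + x * Y ^ 3 : ℤ) : Eis) - s (Lf X Y 2 ξ) ((X ^ 3 + x * Y ^ 3 : ℤ) : Eis) =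
      s w ((X ^ 3 + x * Y ^ 3 : ℤ) : Eis)

/-- ROOT: independence of the cube root. -/
def ROOT : Prop := ∀ (π : Eis) (s : Eis → Eis → ZMod 3) (e : ℕ), LSym π s e →
  ∀ (b x p q p' q' : ℤ) (B : Eis), b ≠ 0 → x ≠ 0 → SolW b x p q p' q' → B ≠ 0 →
    s B (x : Eis) = 0 →
  ∃ N0 : ℕ, ∀ r r' : ℤ, π ^ N0 ∣ (r : Eis) ^ 3 - (b : Eis) → π ^ N0 ∣ (r' : Eis) ^ 3 - (b : Eis) →
    AS s B p q p' q' r = AS s B p q p' q' r'

/-! ### Local evaluation -/

/-- F2B: (B, α_b) = (B, k_0) + (w, B) when `b` is a local cube and `x` is not. -/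
def F2B : Prop := ∀ (v : Pl) (B b x p q p' q' : ℤ), BOk B → Adm B b → Adm B x →
  Sol b x p q p' q' → LC (uni v) b → ¬ LC (uni v) x →
  ∃ N0 : ℕ, ∀ r : ℤ, uni v ^ N0 ∣ (r : Eis) ^ 3 - (b : Eis) →
    AS (sy v) (B : Eis) p q p' q' r =
      sy v (B : Eis) (Gf p q p' q' 1) - sy v (B : Eis) (Gf p q p' q' 2) + sy v w (B : Eis)

/-- F6R: the local term of a point at a tame place where `x` has valuation prime to `3`. -/
def F6R : Prop := ∀ (π : PP) (b x p q p' q' X Y : ℤ), b ≠ 0 → x ≠ 0 → Sol b x p q p' q' →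
  X ≠ 0 → Y ≠ 0 → ¬ 3 ∣ V π.1 (x : Eis) →
    (3 ∣ V π.1 ((X ^ 3 + x * Y ^ 3 : ℤ) : Eis) → SV (tm π.1) x p q p' q' X Y = 0) ∧
    (¬ 3 ∣ V π.1 ((X ^ 3 + x * Y ^ 3 : ℤ) : Eis) →
      SV (tm π.1) x p q p' q' X Y = - tm π.1 w (b : Eis))

/-- F7U: the local term of a point at a tame place where `x` has valuation divisible by `3` and is
not a cube. -/
def F7U : Prop := ∀ (π : PP) (b x p q p' q' X Y : ℤ), b ≠ 0 → x ≠ 0 → Sol b x p q p' q' →
  X ≠ 0 → Y ≠ 0 → 3 ∣ V π.1 (x : Eis) → ch π.1 (x : Eis) ≠ 0 → SV (tm π.1) x p q p' q' X Y = 0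

/-- SLE: the symbol at `lam` of `g + h w` and a rational integer. -/
def SLE : Prop := ∀ (g h N : ℤ) (v : ℕ), ¬ (3 : ℤ) ∣ N →
  (¬ (3 : ℤ) ∣ g → (3 : ℤ) ∣ h →
    sl ((g : Eis) + h * w) ((3 ^ v * N : ℤ) : Eis) = v * ((g * (h / 3) : ℤ) : ZMod 3)) ∧
  ((3 : ℤ) ∣ g → ¬ (3 : ℤ) ∣ h →
    sl ((g : Eis) + h * w) ((3 ^ v * N : ℤ) : Eis) =
      - wt (N ^ 2) - v * ((h * (g / 3) : ℤ) : ZMod 3)) ∧
  (¬ (3 : ℤ) ∣ h → (3 : ℤ) ∣ g - h →
    sl ((g : Eis) + h * w) ((3 ^ v * N : ℤ) : Eis) =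
      wt (N ^ 2) - v * ((h * ((g - h) / 3) : ℤ) : ZMod 3))

/-- F5L: the local term of a point at `lam` when `b` is a cube and `x` is not. -/
def F5L : Prop := ∀ B b x p q p' q' X Y : ℤ, BOk B → Adm B b → Adm B x → Sol b x p q p' q' →
  Pt B x X Y → C9 b → ¬ C9 x → SV sl x p q p' q' X Y = 0

/-- F3R: the case of two noncubes at a place dividing `B`. -/
def F3R : Prop := ∀ (π : PP) (B b x p q p' q' : ℤ), BOk B → Adm B b → Adm B x →
  Sol b x p q p' q' → π.1 ∣ (B : Eis) → ¬ 3 ∣ V π.1 (b : Eis) → ¬ 3 ∣ V π.1 (x : Eis) →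
    UV (tm π.1) B b x p q p' q' =
      (if 3 ∣ V π.1 (b : Eis) + V π.1 (B : Eis) then - tm π.1 w (x : Eis) else 0) +
      (if 3 ∣ V π.1 (x : Eis) + V π.1 (B : Eis) then - tm π.1 w (b : Eis) else 0)

/-- F3U: the case of two noncubes at a place not dividing `B`. -/
def F3U : Prop := ∀ (π : PP) (B b x p q p' q' : ℤ), BOk B → Adm B b → Adm B x →
  Sol b x p q p' q' → ¬ π.1 ∣ (B : Eis) → ch π.1 (b : Eis) ≠ 0 → ch π.1 (x : Eis) ≠ 0 →
    UV (tm π.1) B b x p q p' q' = 0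

/-- AVV: the value `AV` is attained at all good approximations of the cube root, and is
characterised by this. -/
def AVV : Prop := ∀ (v : Pl) (B b x p q p' q' : ℤ), B ≠ 0 → b ≠ 0 → x ≠ 0 →
  SolW b x p q p' q' → sy v (B : Eis) (x : Eis) = 0 → LC (uni v) b →
  (∃ N0 : ℕ, ∀ r : ℤ, uni v ^ N0 ∣ (r : Eis) ^ 3 - (b : Eis) →
    AS (sy v) (B : Eis) p q p' q' r = AV v B b p q p' q') ∧
  (∀ (c : ZMod 3) (N0 : ℕ), (∀ r : ℤ, uni v ^ N0 ∣ (r : Eis) ^ 3 - (b : Eis) →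
    AS (sy v) (B : Eis) p q p' q' r = c) → AV v B b p q p' q' = c)

/-- LEV: the local evaluation. -/
def LEV : Prop := ∀ (v : Pl) (B b x p q p' q' X Y : ℤ), BOk B → Adm B b → Adm B x →
  Sol b x p q p' q' → Pt B x X Y → (C9 b ∨ C9 x) →
    TT v B b x p q p' q' = UV (sy v) B b x p q p' q' - SV (sy v) x p q p' q' X Y

/-- LAM: the local form of the antisymmetry. -/
def LAM : Prop := ∀ (v : Pl) (B b x p q p' q' : ℤ), BOk B → Adm B b → Adm B x →
  Sol b x p q p' q' → (C9 b ∨ C9 x) →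
    TT v B b x p q p' q' + TT v B x b p (-p') (-q) q' = UV (sy v) B b x p q p' q'

/-! ### Global theorems -/

/-- LFIN: finiteness of the supports. -/
def LFIN : Prop :=
  (∀ B b x p q p' q' : ℤ, BOk B → Adm B b → Adm B x → SolW b x p q p' q' →
    (Function.support fun v : Pl => TT v B b x p q p' q').Finite) ∧
  (∀ B b x p q p' q' : ℤ, B ≠ 0 → b ≠ 0 → x ≠ 0 → Sol b x p q p' q' →
    (Function.support fun v : Pl => UV (sy v) B b x p q p' q').Finite ∧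
    ∑ᶠ v : Pl, UV (sy v) B b x p q p' q' = 0) ∧
  (∀ b x p q p' q' X Y : ℤ, b ≠ 0 → x ≠ 0 → Sol b x p q p' q' → X ≠ 0 → Y ≠ 0 →
    X ^ 3 + x * Y ^ 3 ≠ 0 →
    (Function.support fun v : Pl => SV (sy v) x p q p' q' X Y).Finite ∧
    ∑ᶠ v : Pl, SV (sy v) x p q p' q' X Y = 0)

/-- TC: the pairing vanishes on the class of a point. -/
def TC : Prop := ∀ B b x p q p' q' X Y : ℤ, BOk B → Adm B b → Adm B x →
  Sol b x p q p' q' → Pt B x X Y → (C9 b ∨ C9 x) → OO B b x p q p' q' = 0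

/-- TA: antisymmetry. -/
def TA : Prop := ∀ B b x p q p' q' : ℤ, BOk B → Adm B b → Adm B x →
  Sol b x p q p' q' → (C9 b ∨ C9 x) → OO B b x p q p' q' + OO B x b p (-p') (-q) q' = 0

/-- TADD: additivity in the second variable. -/
def TADD : Prop := ∀ b x₁ x₂ p₁ q₁ p₁' q₁' p₂ q₂ p₂' q₂' : ℤ, (¬ ∃ c : ℤ, c ^ 3 = b) →
  b ≠ 0 → x₁ ≠ 0 → x₂ ≠ 0 → SolW b x₁ p₁ q₁ p₁' q₁' → SolW b x₂ p₂ q₂ p₂' q₂' →
  ∃ p q p' q' : ℤ, SolW b (x₁ * x₂) p q p' q' ∧ ∀ B : ℤ, BOk B → Adm B b → Adm B x₁ →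
    Adm B x₂ → OO B b (x₁ * x₂) p q p' q' = OO B b x₁ p₁ q₁ p₁' q₁' + OO B b x₂ p₂ q₂ p₂' q₂'

/-- TTH: `O_B(b, b^(1/3)) = 0`. -/
def TTH : Prop := ∀ B b : ℤ, BOk B → Adm B b → C9 b → OO B b b 0 1 1 0 = 0

/-- A system of classes `b_i` with solutions of the norm equations. -/
structure Sys {s : ℕ} (b : Fin s → ℤ) (p q p' q' : Fin s → Fin s → ℤ) : Prop where
  ind : ∀ c : Fin s → ℕ, (∃ i, ¬ 3 ∣ c i) → ¬ ∃ t : ℤ, t ^ 3 = ∏ i, b i ^ c i
  c9 : ∀ i j, i ≠ j → C9 (b i) ∨ C9 (b j)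
  sol : ∀ j i, j ≠ i → Sol (b j) (b i) (p j i) (q j i) (p' j i) (q' j i)
  sw : ∀ j i, j ≠ i → p i j = p j i ∧ q i j = - p' j i ∧ p' i j = - q j i ∧ q' i j = q' j i

open Classical in
/-- the matrix of the pairing -/
noncomputable def Mat {s : ℕ} (b : Fin s → ℤ) (p q p' q' : Fin s → Fin s → ℤ) (B : ℤ) :
    Matrix (Fin s) (Fin s) (ZMod 3) := fun j i =>
  if j = i then 0 else OO B (b j) (b i) (p j i) (q j i) (p' j i) (q' j i)

/-- TEND: the matrix is alternating and the class of a point is in its kernel. -/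
def TEND : Prop := ∀ (s : ℕ) (b : Fin s → ℤ) (p q p' q' : Fin s → Fin s → ℤ) (B : ℤ),
  Sys b p q p' q' → BOk B → (∀ i, Adm B (b i)) →
  (∀ i j, Mat b p q p' q' B i j = - Mat b p q p' q' B j i) ∧
  ∀ (c : Fin s → ℕ) (X Y : ℤ), (∃ i, ¬ 3 ∣ c i) → Pt B (∏ i, b i ^ c i) X Y →
    ∀ j, ∑ i, Mat b p q p' q' B j i * (c i : ZMod 3) = 0

end Pool.Agent.PT

end

section

/-!
# Prime twists of rank zero: statements, part 2 (first descent, choice of the class)
-/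

namespace Pool.Agent.PT

open Pool.Agent.Lib_helper18 Pool.Agent.Lib_helper18.Eis Pool.Agent.Lib_helper84.Cub

/-! ### First descent -/

/-- The data of the first descent: `a_0 x_0^3 + a_1 x_1^3 + a_2 x_2^3 = 0`, `a_0 a_1 a_2 = B`. -/
structure Cell (B : ℤ) (a x : Fin 3 → ℤ) : Prop where
  ne : ∀ k, x k ≠ 0
  sum : ∑ k, a k * x k ^ 3 = 0
  prod : ∏ k, a k = B
  cop : ∀ i j, i ≠ j → IsCoprime (a i) (a j)
  two : ∀ k, ∃ j, j ≠ k ∧ ¬ IsUnit (a j)
  nine : C9 B → ∀ k k', wt (a k ^ 2) = wt (a k' ^ 2)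

/-- FDK: a primitive solution of `x^3 + y^3 = B z^3`: `x + w y = c w^2 δ^3`. -/
def FDK : Prop := ∀ B x y z : ℤ, BOk B → HypM B → IsCoprime x y → z ≠ 0 →
  x ^ 3 + y ^ 3 = B * z ^ 3 →
  ∃ (δ : Eis) (c d : ℤ), c ≠ 0 ∧ d ≠ 0 ∧ (∀ m : ℤ, (m : Eis) ∣ δ → IsUnit m) ∧
    (d : Eis) * ((x : Eis) + w * y) = c * w ^ 2 * δ ^ 3

/-- FDA: three pairwise coprime integers `A_0 + A_1 + A_2 = 0` with product `B m^3`, and
`|z| = |m| N(δ)`, where `N(δ) > 1` unless `B = 2` or `B = -2`. -/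
def FDA : Prop := ∀ (B x y z c d : ℤ) (δ : Eis), BOk B → 3 ≤ |B| → IsCoprime x y → z ≠ 0 →
  x ^ 3 + y ^ 3 = B * z ^ 3 → c ≠ 0 → d ≠ 0 → (∀ m : ℤ, (m : Eis) ∣ δ → IsUnit m) →
  (d : Eis) * ((x : Eis) + w * y) = c * w ^ 2 * δ ^ 3 →
  ∃ (A : Fin 3 → ℤ) (m : ℤ), (∀ k, A k ≠ 0) ∧ A 0 + A 1 + A 2 = 0 ∧
    A 0 * A 1 * A 2 = B * m ^ 3 ∧ (∀ i j, i ≠ j → IsCoprime (A i) (A j)) ∧ |m| < |z|

/-- FDC: splitting into cells. -/
def FDC : Prop := ∀ (B m : ℤ) (A : Fin 3 → ℤ), BOk B → (∀ k, A k ≠ 0) → A 0 + A 1 + A 2 = 0 →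
  A 0 * A 1 * A 2 = B * m ^ 3 → (∀ i j, i ≠ j → IsCoprime (A i) (A j)) →
  ∃ a x : Fin 3 → ℤ, (∀ k, A k = a k * x k ^ 3) ∧ ∏ k, a k = B ∧
    (∀ i j, i ≠ j → IsCoprime (a i) (a j)) ∧ (∀ i j, i ≠ j → IsCoprime (x i) (x j)) ∧
    (C9 B → ∀ k k', wt (a k ^ 2) = wt (a k' ^ 2))

/-- FD1: the first descent. -/
def FD1 : Prop := ∀ B : ℤ, BOk B → 3 ≤ |B| → HypM B →
  (∃ X Y : ℚ, X ^ 3 + Y ^ 3 = (B : ℚ)) → ∃ a x : Fin 3 → ℤ, Cell B a x

/-- FD2: the class of a point; the prime `q` can be put into the last cell. -/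
def FD2 : Prop := ∀ (n q : ℕ) (a x : Fin 3 → ℤ), q.Prime → q % 3 = 2 → ¬ q ∣ n → 0 < n →
  BOk ((n : ℤ) * q) → Cell ((n : ℤ) * q) a x →
  ∃ z X Y : ℤ, Pt ((n : ℤ) * q) z X Y ∧ Adm ((n : ℤ) * q) z ∧
    (∀ l : ℕ, l.Prime → (l : ℤ) ∣ z → l ∣ n) ∧ ¬ ∃ t : ℤ, t ^ 3 = z

/-! ### Choice of the class -/

/-- Normal form of a cube-free number prime to `3`. -/
structure NF (n : ℕ) {m k : ℕ} (π : Fin m → PP) (p e : Fin m → ℕ) (r f : Fin k → ℕ) : Prop where
  pp : ∀ i, (p i).Prime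
  p1 : ∀ i, p i % 3 = 1
  pπ : ∀ i, (p i : Eis) = (π i).1 * conj (π i).1
  pe : ∀ i, e i = 1 ∨ e i = 2
  pinj : Function.Injective p
  rp : ∀ j, (r j).Prime
  r2 : ∀ j, r j % 3 = 2
  rf : ∀ j, f j = 1 ∨ f j = 2
  rinj : Function.Injective r
  eq : n = (∏ i, p i ^ e i) * ∏ j, r j ^ f j

/-- ENF: existence of the normal form; invariance under cubes. -/
def ENF : Prop := ∀ N : ℕ, 0 < N → ¬ 3 ∣ N → ∃ (n t : ℕ) (π : Fin (Nat.card {p : ℕ //
    p.Prime ∧ p % 3 = 1 ∧ ¬ 3 ∣ N.factorization p}) → PP)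
    (p e : Fin (Nat.card {p : ℕ // p.Prime ∧ p % 3 = 1 ∧ ¬ 3 ∣ N.factorization p}) → ℕ)
    (r f : Fin (Nat.card {p : ℕ // p.Prime ∧ p % 3 = 2 ∧ ¬ 3 ∣ N.factorization p}) → ℕ),
    0 < n ∧ 0 < t ∧ N = n * t ^ 3 ∧ NF n π p e r f ∧
    ∀ l : ℕ, l.Prime → ¬ 3 ∣ N.factorization l → l % 3 = 2 → ∃ j, r j = l

/-- EDET: the diagonal can be chosen such that two matrices become invertible. -/
def EDET : Prop := ∀ (m : ℕ) (A A' : Matrix (Fin (m + 1)) (Fin (m + 1)) (ZMod 3)),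
  A 0 0 ≠ 0 → A' 0 0 ≠ 0 → ∃ d : Fin m → ZMod 3,
    (A - Matrix.diagonal (Fin.cons 0 d : Fin (m + 1) → ZMod 3)).det ≠ 0 ∧
    (A' - Matrix.diagonal (Fin.cons 0 d : Fin (m + 1) → ZMod 3)).det ≠ 0

/-- The matrix of the conditions on the classes with `conj z = z⁻¹`. The first row and column
belong to the unit `w`; `j0` is the index of the inert prime used. -/
noncomputable def Mm (n : ℕ) {m k : ℕ} (π : Fin m → PP) (e : Fin m → ℕ) (r : Fin k → ℕ)
    (j0 : Option (Fin k)) (c : Fin m → ZMod 3) : Matrix (Fin (m + 1)) (Fin (m + 1)) (ZMod 3) :=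
  fun a b => Fin.cases
    (motive := fun _ => ZMod 3)
    (match j0 with
      | none => if b = 0 then 1 else 0
      | some j => Fin.cases (motive := fun _ => ZMod 3) (sym (r j : Eis) w)
          (fun i' => sym (r j : Eis) (π i').1 - sym (r j : Eis) (conj (π i').1)) b)
    (fun i => Fin.cases (motive := fun _ => ZMod 3) ((e i : ZMod 3) * sym (π i).1 w)
      (fun i' => if i' = i then
          - (e i : ZMod 3) * sym (π i).1 (conj (π i).1) - ch (π i).1 (n : Eis) - c i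
        else (e i : ZMod 3) * (sym (π i).1 (π i').1 - sym (π i).1 (conj (π i').1))) b) a

/-- The matrix of the conditions on the rational classes. The first column belongs to the inert
prime `r j0`, the first row to the condition modulo `9`. -/
noncomputable def Mp (n : ℕ) {m k : ℕ} (π : Fin m → PP) (p e : Fin m → ℕ) (r : Fin k → ℕ)
    (j0 : Option (Fin k)) (c : Fin m → ZMod 3) : Matrix (Fin (m + 1)) (Fin (m + 1)) (ZMod 3) :=
  fun a b => Fin.cases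
    (motive := fun _ => ZMod 3)
    (match j0 with
      | none => if b = 0 then 1 else 0
      | some j => Fin.cases (motive := fun _ => ZMod 3) (wt ((r j : ℤ) ^ 2))
          (fun i' => wt ((p i' : ℤ) ^ 2)) b)
    (fun i => Fin.cases (motive := fun _ => ZMod 3)
      (match j0 with
        | none => 0
        | some j => (e i : ZMod 3) * sym (π i).1 (r j : Eis))
      (fun i' => if i' = i then
          (e i : ZMod 3) * sym (π i).1 (conj (π i).1) - ch (π i).1 (n : Eis) - c i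
        else (e i : ZMod 3) * sym (π i).1 (p i' : Eis)) b) a

/-- EMAT: the class can be chosen such that both matrices are invertible. -/
def EMAT : Prop := ∀ (n m k : ℕ) (π : Fin m → PP) (p e : Fin m → ℕ) (r f : Fin k → ℕ)
  (j0 : Option (Fin k)), NF n π p e r f → (∀ j, j0 = some j → wt ((r j : ℤ) ^ 2) ≠ 0) →
  ∃ c : Fin m → ZMod 3, (Mm n π e r j0 c).det ≠ 0 ∧ (Mp n π p e r j0 c).det ≠ 0

/-- `q` is in the class `(w0, c)`. -/
def InCl {m : ℕ} (π : Fin m → PP) (w0 : ZMod 3) (c : Fin m → ZMod 3) (q : ℕ) : Prop :=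
  q % 3 = 2 ∧ wt ((q : ℤ) ^ 2) = w0 ∧ ∀ i, sym (π i).1 (q : Eis) = c i

/-- The rational classes that are admissible for `n q`, `q` in the class `(w0, c)`. -/
structure AdmC (n : ℕ) {m : ℕ} (π : Fin m → PP) (w0 : ZMod 3) (c : Fin m → ZMod 3) (x : ℤ) :
    Prop where
  ne : x ≠ 0
  three : ¬ (3 : ℤ) ∣ x
  supp : ∀ l : ℕ, l.Prime → (l : ℤ) ∣ x → l ∣ n
  sym : ∀ i, (V (π i).1 (n : Eis) : ZMod 3) * ch (π i).1 (x : Eis) -
    (V (π i).1 (x : Eis) : ZMod 3) * (ch (π i).1 (n : Eis) + c i) = 0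
  nine : wt ((n : ℤ) ^ 2) + w0 = 0 → C9 x

/-- EADM: `AdmC` and `Adm`. -/
def EADM : Prop := ∀ (n m k : ℕ) (π : Fin m → PP) (p e : Fin m → ℕ) (r f : Fin k → ℕ)
  (w0 : ZMod 3) (c : Fin m → ZMod 3) (q : ℕ), NF n π p e r f → q.Prime → InCl π w0 c q →
  ¬ q ∣ n → BOk ((n : ℤ) * q) ∧ ∀ x : ℤ, (∀ l : ℕ, l.Prime → (l : ℤ) ∣ x → l ∣ n) →
    (AdmC n π w0 c x ↔ Adm ((n : ℤ) * q) x)

/-- EHYP: the minus part of the Selmer group is trivial for `q` in the class. -/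
def EHYP : Prop := ∀ (n m k : ℕ) (π : Fin m → PP) (p e : Fin m → ℕ) (r f : Fin k → ℕ)
  (w0 : ZMod 3) (c : Fin m → ZMod 3) (j0 : Option (Fin k)) (q : ℕ), NF n π p e r f → q.Prime →
  InCl π w0 c q → ¬ q ∣ n → (j0 = none → wt ((n : ℤ) ^ 2) + w0 ≠ 0) →
  (Mm n π e r j0 c).det ≠ 0 → HypM ((n : ℤ) * q)

/-- EVEC: the admissible classes in terms of exponent vectors. -/
def EVEC : Prop := ∀ (n m k : ℕ) (π : Fin m → PP) (p e : Fin m → ℕ) (r f : Fin k → ℕ)
  (w0 : ZMod 3) (c : Fin m → ZMod 3), NF n π p e r f →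
  (∀ x : ℤ, x ≠ 0 → ¬ (3 : ℤ) ∣ x → (∀ l : ℕ, l.Prime → (l : ℤ) ∣ x → l ∣ n) →
    (AdmC n π w0 c x ↔
      (∀ i, (e i : ZMod 3) * (∑ i', (padicValInt (p i') x : ZMod 3) *
          (if i' = i then sym (π i).1 (conj (π i).1) else sym (π i).1 (p i' : Eis))) +
        (e i : ZMod 3) * (∑ j, (padicValInt (r j) x : ZMod 3) * sym (π i).1 (r j : Eis)) -
        (padicValInt (p i) x : ZMod 3) * (ch (π i).1 (n : Eis) + c i) = 0) ∧
      (wt ((n : ℤ) ^ 2) + w0 = 0 → (∑ i, (padicValInt (p i) x : ZMod 3) * wt ((p i : ℤ) ^ 2)) +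
        ∑ j, (padicValInt (r j) x : ZMod 3) * wt ((r j : ℤ) ^ 2) = 0)) ∧
    (C9 x ↔ (∑ i, (padicValInt (p i) x : ZMod 3) * wt ((p i : ℤ) ^ 2)) +
        ∑ j, (padicValInt (r j) x : ZMod 3) * wt ((r j : ℤ) ^ 2) = 0)) ∧
  ∀ x x' : ℤ, x ≠ 0 → x' ≠ 0 → (∀ l : ℕ, l.Prime → (l : ℤ) ∣ x → l ∣ n) →
    (∀ l : ℕ, l.Prime → (l : ℤ) ∣ x' → l ∣ n) →
    ((∃ u v : ℤ, u ≠ 0 ∧ v ≠ 0 ∧ x * u ^ 3 = x' * v ^ 3) ↔
      (∀ i, (padicValInt (p i) x : ZMod 3) = padicValInt (p i) x') ∧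
      ∀ j, (padicValInt (r j) x : ZMod 3) = padicValInt (r j) x')

/-- EBAS: basis of the admissible classes. -/
def EBAS : Prop := ∀ (n m k : ℕ) (π : Fin m → PP) (p e : Fin m → ℕ) (r f : Fin k → ℕ)
  (w0 : ZMod 3) (c : Fin m → ZMod 3) (j0 : Option (Fin k)), NF n π p e r f →
  ((j0 = none ∧ Even k ∧ wt ((n : ℤ) ^ 2) + w0 ≠ 0) ∨
    (j0 ≠ none ∧ Odd k ∧ wt ((n : ℤ) ^ 2) + w0 = 0)) →
  (∀ j, j0 = some j → wt ((r j : ℤ) ^ 2) ≠ 0) →
  (Mp n π p e r j0 c).det ≠ 0 →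
  ∃ (s : ℕ) (b : Fin s → ℤ), Even s ∧ (∀ i, AdmC n π w0 c (b i)) ∧
    (∀ i (π : PP), V π.1 (b i : Eis) ≤ 2) ∧
    (∀ g : Fin s → ℕ, (∃ i, ¬ 3 ∣ g i) → ¬ ∃ t : ℤ, t ^ 3 = ∏ i, b i ^ g i) ∧
    (∀ i j, i ≠ j → C9 (b i) ∨ C9 (b j)) ∧
    (∀ x : ℤ, AdmC n π w0 c x → ∃ (g : Fin s → ℕ) (u v : ℤ), u ≠ 0 ∧ v ≠ 0 ∧
      x * u ^ 3 = (∏ i, b i ^ g i) * v ^ 3)

/-- HN: Hasse norm theorem for pure cubic fields, rational version. -/
def HN : Prop := ∀ x y : ℤ, x ≠ 0 → ¬ (3 : ℤ) ∣ x → (¬ ∃ c : ℤ, c ^ 3 = x) →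
  (∀ π : PP, V π.1 (x : Eis) ≤ 2) → y ≠ 0 → ¬ (3 : ℤ) ∣ y →
  (∀ π : PP, tm π.1 (x : Eis) (y : Eis) = 0) →
  ∃ p q p' q' : ℤ, SolW x y p q p' q'

/-- ESYS: from a basis to a system with solutions. -/
def ESYS : Prop := ∀ (n m k : ℕ) (π : Fin m → PP) (p e : Fin m → ℕ) (r f : Fin k → ℕ)
  (w0 : ZMod 3) (c : Fin m → ZMod 3) (s : ℕ) (b : Fin s → ℤ), NF n π p e r f →
  (∀ i, AdmC n π w0 c (b i)) → (∀ i (π : PP), V π.1 (b i : Eis) ≤ 2) →
  (∀ g : Fin s → ℕ, (∃ i, ¬ 3 ∣ g i) → ¬ ∃ t : ℤ, t ^ 3 = ∏ i, b i ^ g i) →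
  (∀ i j, i ≠ j → C9 (b i) ∨ C9 (b j)) →
  ∃ P Q P' Q' : Fin s → Fin s → ℤ, Sys b P Q P' Q'

/-- ECL: for every admissible `n` there are a class and a system such that for all primes `q` of
the class a rational point on `X^3 + Y^3 = n q` gives a nontrivial kernel of the matrix. -/
def ECL : Prop := ∀ (n m k : ℕ) (π : Fin m → PP) (p e : Fin m → ℕ) (r f : Fin k → ℕ),
  NF n π p e r f → (Even k ∨ ∃ j, r j % 9 = 2 ∨ r j % 9 = 5) →
  ∃ (w0 : ZMod 3) (c : Fin m → ZMod 3) (s : ℕ) (b : Fin s → ℤ) (P Q P' Q' : Fin s → Fin s → ℤ),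
    Even s ∧ (∀ i, AdmC n π w0 c (b i)) ∧ Sys b P Q P' Q' ∧
    ∀ q : ℕ, q.Prime → InCl π w0 c q → ¬ q ∣ n → 3 < q →
      (∀ i, Adm ((n : ℤ) * q) (b i)) ∧ BOk ((n : ℤ) * q) ∧
      ((∃ X Y : ℚ, X ^ 3 + Y ^ 3 = (n : ℚ) * q) → (Mat b P Q P' Q' ((n : ℤ) * q)).det = 0)

end Pool.Agent.PT

end

section

/-!
# Prime twists of rank zero: statements, part 3 (the Hasse norm theorem for pure cubic fields)
-/

open NumberField IsDedekindDomain Finset
open scoped nonZeroDivisors Pointwise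

namespace Pool.Agent.PT

open Pool.Agent.Lib_helper18 Pool.Agent.Lib_helper18.Eis Pool.Agent.Lib_helper84.Cub

/-! ### Abstract statements -/

/-- HERBQ: Herbrand quotient argument with a subgroup of invariants detected by symbols. -/
def HERBQ : Prop := ∀ (p : ℕ) [Fact p.Prime] (A G : Type) [CommGroup A] [Group G]
    [MulDistribMulAction G A] (g : G) (E E' : Subgroup A) (κ : Type) (ψ : A → κ → ZMod p)
    (e : ℕ) (d : Fin e → A), g ^ p = 1 → E.FG →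
    (∀ u ∈ E, g • u ∈ E) → (∀ u, u ∈ E' ↔ u ∈ E ∧ g • u = u) →
    (∀ u ∈ E, ∏ i ∈ range p, g ^ i • u = 1 → ∃ v ∈ E, u = v / g • v) →
    (∀ u ∈ E', ∀ v ∈ E', ψ (u * v) = ψ u + ψ v) →
    (∀ u ∈ E, ψ (∏ i ∈ range p, g ^ i • u) = 0) →
    (∀ i, d i ∈ E') →
    (∀ n : Fin e → ℤ, ∏ i, d i ^ n i = 1 → n = 0) →
    (∀ n : Fin e → ZMod p, ∑ i, n i • ψ (d i) = 0 → n = 0) →
    Module.finrank ℤ (Additive E) + p * e = p * Module.finrank ℤ (Additive E') + e →
    ∀ y ∈ E', ψ y = 0 → ∃ η ∈ E, y = ∏ i ∈ range p, g ^ i • η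

/-- SUN: the theorem on `S`-units. -/
def SUN : Prop := ∀ (L : Type) [Field L] [NumberField L]
    (A : Finset (HeightOneSpectrum (𝓞 L))),
    ((A : Set (HeightOneSpectrum (𝓞 L))).unit L).FG ∧
    Module.finrank ℤ (Additive ((A : Set (HeightOneSpectrum (𝓞 L))).unit L)) =
      NumberField.Units.rank L + A.card

/-- KUM: Kummer theory. -/
def KUM : Prop := ∀ (F L : Type) [Field F] [Field L] [CharZero F] [Algebra F L]
    [FiniteDimensional F L] [IsGalois F L] (ω : F) (κ : Type) [Fintype κ] (a : κ → F)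
    (A : κ → L), ω ^ 2 + ω + 1 = 0 → (∀ i, a i ≠ 0) → (∀ i, A i ^ 3 = algebraMap F L (a i)) →
    (∀ n : κ → ℕ, (∃ b : F, ∏ i, a i ^ n i = b ^ 3) → ∀ i, 3 ∣ n i) →
    ∀ v : κ → ZMod 3, ∃ g : L ≃ₐ[F] L, ∀ i, g (A i) = algebraMap F L ω ^ (v i).val * A i

/-! ### The field `Q(w, x^(1/3))` -/

/-- The data of the field `L = Q(w, x^(1/3))`. -/
structure CubF (x : ℤ) (L : Type) [Field L] [NumberField L] (ι : Eis →+* L) (θ : L)
    (σ c : L ≃ₐ[ℚ] L) : Prop where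
  inj : Function.Injective ι
  cube : θ ^ 3 = (x : L)
  sθ : σ θ = ι w * θ
  sι : ∀ a : Eis, σ (ι a) = ι a
  cθ : c θ = θ
  cι : ∀ a : Eis, c (ι a) = ι (conj a)
  rep : ∀ z : L, ∃ (m : ℤ) (a b d : Eis), m ≠ 0 ∧ (m : L) * z = ι a + ι b * θ + ι d * θ ^ 2
  lin : ∀ a b d : Eis, ι a + ι b * θ + ι d * θ ^ 2 = 0 → a = 0 ∧ b = 0 ∧ d = 0

/-- NFLD: existence of the field. -/
def NFLD : Prop := ∀ x : ℤ, x ≠ 0 → (¬ ∃ c : ℤ, c ^ 3 = x) →
  ∃ (L : Type) (_ : Field L) (_ : NumberField L) (ι : Eis →+* L) (θ : L) (σ c : L ≃ₐ[ℚ] L),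
    CubF x L ι θ σ c

/-- NRK: the unit rank. -/
def NRK : Prop := ∀ (x : ℤ) (L : Type) [Field L] [NumberField L] (ι : Eis →+* L) (θ : L)
  (σ c : L ≃ₐ[ℚ] L), CubF x L ι θ σ c → NumberField.Units.rank L = 2

/-- NHN: Hilbert 90. -/
def NHN : Prop := ∀ (x : ℤ) (L : Type) [Field L] [NumberField L] (ι : Eis →+* L) (θ : L)
  (σ c : L ≃ₐ[ℚ] L), x ≠ 0 → CubF x L ι θ σ c →
  (∀ z : L, σ (σ (σ z)) = z) ∧
  (∀ z : L, σ z = z → ∃ a b : Eis, b ≠ 0 ∧ z * ι b = ι a) ∧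
  ∀ u : Lˣ, ∏ i ∈ range 3, σ ^ i • u = 1 → ∃ v : Lˣ, u = v / σ • v

/-- The primes of `L` above the place `v`. -/
def Abv {L : Type} [Field L] [NumberField L] (ι : Eis →+* L) (v : Pl) :
    Set (HeightOneSpectrum (𝓞 L)) := {P | P.valuation L (ι (uni v)) < 1}

/-- The `S`-units of `L`. -/
noncomputable def SU {L : Type} [Field L] [NumberField L] (ι : Eis →+* L) (S : Finset Pl) : Subgroup Lˣ :=
  (⋃ v ∈ S, Abv ι v).unit L

/-- The `S`-units of `L` fixed by `σ`. -/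
noncomputable def SF {L : Type} [Field L] [NumberField L] (ι : Eis →+* L) (σ : L ≃ₐ[ℚ] L) (S : Finset Pl) :
    Subgroup Lˣ where
  carrier := {u | u ∈ SU ι S ∧ σ • u = u}
  one_mem' := ⟨one_mem _, smul_one _⟩
  mul_mem' := fun {a b} ha hb => ⟨mul_mem ha.1 hb.1, by rw [smul_mul', ha.2, hb.2]⟩
  inv_mem' := fun {a} ha => ⟨inv_mem ha.1, by rw [smul_inv', ha.2]⟩

/-- NTR: the primes of `L` above the primes of `Z[w]`. -/
def NTR : Prop := ∀ (x : ℤ) (L : Type) [Field L] [NumberField L] (ι : Eis →+* L) (θ : L)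
  (σ c : L ≃ₐ[ℚ] L), x ≠ 0 → ¬ (3 : ℤ) ∣ x → CubF x L ι θ σ c →
  (∀ (P : HeightOneSpectrum (𝓞 L)) (a : Eis), P.valuation L (ι a) ≤ 1) ∧
  (∀ P : HeightOneSpectrum (𝓞 L), ∃ v : Pl, P ∈ Abv ι v ∧
    ∀ a : Eis, P.valuation L (ι a) < 1 → uni v ∣ a) ∧
  (∀ P : HeightOneSpectrum (𝓞 L), ∃ P' : HeightOneSpectrum (𝓞 L),
    ∀ z : L, P'.valuation L (σ z) = P.valuation L z) ∧
  (∀ v : Pl, (Abv ι v).Finite ∧ (Abv ι v).Nonempty) ∧
  (∀ (v : Pl) (P P' : HeightOneSpectrum (𝓞 L)), P ∈ Abv ι v → P' ∈ Abv ι v →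
    ∃ i : ℕ, ∀ z : L, P'.valuation L ((σ ^ i) z) = P.valuation L z) ∧
  (∀ (π : PP) (P : HeightOneSpectrum (𝓞 L)), ¬ π.1 ∣ (x : Eis) → P ∈ Abv ι (some π) →
    P.valuation L (ι π.1) = WithZero.exp (-1 : ℤ))

open Classical in
/-- NCNT: the number of primes above a place. -/
def NCNT : Prop := ∀ (x : ℤ) (L : Type) [Field L] [NumberField L] (ι : Eis →+* L) (θ : L)
  (σ c : L ≃ₐ[ℚ] L), x ≠ 0 → ¬ (3 : ℤ) ∣ x → (∀ π : PP, V π.1 (x : Eis) ≤ 2) →
  CubF x L ι θ σ c → ∀ v : Pl, Nat.card (Abv ι v) = if LC (uni v) x then 3 else 1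

/-- NFIX: the fixed `S`-units. -/
def NFIX : Prop := ∀ (x : ℤ) (L : Type) [Field L] [NumberField L] (ι : Eis →+* L) (θ : L)
  (σ c : L ≃ₐ[ℚ] L), x ≠ 0 → ¬ (3 : ℤ) ∣ x → CubF x L ι θ σ c → ∀ S : Finset Pl,
  (∀ (u : Lˣ) (a : Eis), (u : L) = ι a → (∀ v : Pl, uni v ∣ a → v ∈ S) → u ∈ SF ι σ S) ∧
  (∀ u ∈ SF ι σ S, ∃ a b : Eis, a ≠ 0 ∧ b ≠ 0 ∧ (u : L) * ι b = ι a) ∧
  Module.finrank ℤ (Additive (SF ι σ S)) = S.card

/-- NHO: the first cohomology of the `S`-units. -/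
def NHO : Prop := ∀ (x : ℤ) (L : Type) [Field L] [NumberField L] (ι : Eis →+* L) (θ : L)
  (σ c : L ≃ₐ[ℚ] L), x ≠ 0 → ¬ (3 : ℤ) ∣ x → CubF x L ι θ σ c → ∀ S : Finset Pl,
  none ∈ S → (∀ π : PP, π.1 ∣ (x : Eis) → some π ∈ S) →
  (∀ u ∈ SU ι S, σ • u ∈ SU ι S) ∧
  ∀ u ∈ SU ι S, ∏ i ∈ range 3, σ ^ i • u = 1 → ∃ v ∈ SU ι S, u = v / σ • v

/-- NNS: norms have trivial symbols with `x`. -/
def NNS : Prop := ∀ (x : ℤ) (L : Type) [Field L] [NumberField L] (ι : Eis →+* L) (θ : L)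
  (σ c : L ≃ₐ[ℚ] L), x ≠ 0 → CubF x L ι θ σ c →
  ∀ (π : Eis) (s : Eis → Eis → ZMod 3) (e : ℕ), LSym π s e →
  ∀ (z : L) (a b : Eis), z ≠ 0 → a ≠ 0 → b ≠ 0 → z * σ z * σ (σ z) * ι b = ι a →
    s a (x : Eis) = s b (x : Eis)

/-! ### Auxiliary primes -/

/-- NAUX: primes with prescribed cubic residue symbols up to a common factor. -/
def NAUX : Prop := ∀ (t : ℕ) (π : Fin t → PP) (r : Fin t → ZMod 3) (A : Finset PP),
  Function.Injective π → ∃ ρ : PP, ρ ∉ A ∧ ∃ ε : ZMod 3, ε ≠ 0 ∧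
    ∀ i, sym ρ.1 (π i).1 = ε * r i

open Classical in
/-- NGEN: a set of places and sufficiently many units with independent symbols. -/
def NGEN : Prop := ∀ (x : ℤ) (S₀ : Finset Pl), x ≠ 0 → ¬ (3 : ℤ) ∣ x →
  (∀ π : PP, V π.1 (x : Eis) ≤ 2) → (¬ ∃ c : ℤ, c ^ 3 = x) → none ∈ S₀ →
  (∀ π : PP, π.1 ∣ (x : Eis) → some π ∈ S₀) →
  (∀ π : PP, some π ∈ S₀ → ¬ LC π.1 x → π.1 ∣ (x : Eis)) →
  ∃ (S : Finset Pl) (e : ℕ) (d : Fin e → Eis), S₀ ⊆ S ∧ (∀ v ∈ S, v ∉ S₀ → LC (uni v) x) ∧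
    (S.filter fun v => ¬ LC (uni v) x).card = e + 1 ∧
    (∀ i, d i ≠ 0) ∧ (∀ i (v : Pl), uni v ∣ d i → v ∈ S) ∧
    (∀ n m : Fin e → ℕ, ∏ i, d i ^ n i = ∏ i, d i ^ m i → n = m) ∧
    (∀ n : Fin e → ZMod 3, (∀ v : Pl, ∑ i, n i * sy v (d i) (x : Eis) = 0) → n = 0)

/-! ### The theorem -/

/-- NMAIN: the norm theorem for `L / Q(w)`. -/
def NMAIN : Prop := ∀ (x : ℤ) (L : Type) [Field L] [NumberField L] (ι : Eis →+* L) (θ : L)
  (σ c : L ≃ₐ[ℚ] L), x ≠ 0 → ¬ (3 : ℤ) ∣ x → (∀ π : PP, V π.1 (x : Eis) ≤ 2) →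
  (¬ ∃ c : ℤ, c ^ 3 = x) → CubF x L ι θ σ c →
  ∀ y : ℤ, y ≠ 0 → ¬ (3 : ℤ) ∣ y → (∀ π : PP, tm π.1 (x : Eis) (y : Eis) = 0) →
    (∀ π : PP, π.1 ∣ (y : Eis) → ¬ LC π.1 x → π.1 ∣ (x : Eis)) →
    ∃ z : L, z ≠ 0 ∧ z * σ z * σ (σ z) = (y : L)

/-- NDESC: descent to the real cubic field. -/
def NDESC : Prop := ∀ (x : ℤ) (L : Type) [Field L] [NumberField L] (ι : Eis →+* L) (θ : L)
  (σ c : L ≃ₐ[ℚ] L), x ≠ 0 → CubF x L ι θ σ c → ∀ (y : ℤ) (z : L), y ≠ 0 → z ≠ 0 →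
    z * σ z * σ (σ z) = (y : L) → ∃ p q p' q' : ℤ, SolW x y p q p' q'

end Pool.Agent.PT

end

section

/-!
# Prime twists of rank zero: EDET, the choice of a diagonal
-/

namespace Pool.Agent.PT

open Pool.Agent.Lib_helper18 Pool.Agent.Lib_helper18.Eis Pool.Agent.Lib_helper84.Cub

namespace EDET

theorem choice : ∀ b D b' D' : ZMod 3, D ≠ 0 → D' ≠ 0 →
    ∃ t : ZMod 3, b - t * D ≠ 0 ∧ b' - t * D' ≠ 0 := by
  decide

/-- The determinant is affine in the last diagonal entry. -/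
theorem det_last {n : ℕ} (A : Matrix (Fin (n + 2)) (Fin (n + 2)) (ZMod 3))
    (d : Fin (n + 1) → ZMod 3) (t : ZMod 3) :
    (A - Matrix.diagonal (Fin.snoc d t : Fin (n + 2) → ZMod 3)).det =
      (A - Matrix.diagonal (Fin.snoc d 0 : Fin (n + 2) → ZMod 3)).det -
        t * (A.submatrix Fin.castSucc Fin.castSucc - Matrix.diagonal d).det := by
  set B : Matrix (Fin (n + 2)) (Fin (n + 2)) (ZMod 3) :=
    A - Matrix.diagonal (Fin.snoc d 0 : Fin (n + 2) → ZMod 3) with hB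
  have h1 : A - Matrix.diagonal (Fin.snoc d t : Fin (n + 2) → ZMod 3) =
      Matrix.updateRow B (Fin.last (n + 1))
        (B (Fin.last (n + 1)) + (-t) • (Pi.single (Fin.last (n + 1)) (1 : ZMod 3))) := by
    ext i j
    by_cases hi : i = Fin.last (n + 1)
    · subst hi
      rw [Matrix.updateRow_self, Pi.add_apply, Pi.smul_apply, hB, Matrix.sub_apply,
        Matrix.sub_apply]
      by_cases hj : Fin.last (n + 1) = j
      · subst hj
        rw [Matrix.diagonal_apply_eq, Matrix.diagonal_apply_eq, Fin.snoc_last, Fin.snoc_last,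
          Pi.single_eq_same, smul_eq_mul]
        ring
      · rw [Matrix.diagonal_apply_ne _ hj, Matrix.diagonal_apply_ne _ hj,
          Pi.single_eq_of_ne (Ne.symm hj), smul_zero, add_zero]
    · rw [Matrix.updateRow_ne hi, hB, Matrix.sub_apply, Matrix.sub_apply]
      by_cases hj : i = j
      · subst hj
        obtain ⟨i', rfl⟩ : ∃ i' : Fin (n + 1), i = i'.castSucc := by
          exact ⟨i.castPred hi, (Fin.castSucc_castPred i hi).symm⟩
        rw [Matrix.diagonal_apply_eq, Matrix.diagonal_apply_eq, Fin.snoc_castSucc,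
          Fin.snoc_castSucc]
      · rw [Matrix.diagonal_apply_ne _ hj, Matrix.diagonal_apply_ne _ hj]
  have h2 : (Matrix.updateRow B (Fin.last (n + 1))
      (Pi.single (Fin.last (n + 1)) (1 : ZMod 3))).det =
      (A.submatrix Fin.castSucc Fin.castSucc - Matrix.diagonal d).det := by
    rw [← Matrix.adjugate_apply, Matrix.adjugate_fin_succ_eq_det_submatrix]
    have h3 : (-1 : ZMod 3) ^ (((Fin.last (n + 1) : Fin (n + 2)) : ℕ) +
        ((Fin.last (n + 1) : Fin (n + 2)) : ℕ)) = 1 := by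
      rw [← two_mul, pow_mul]
      norm_num
    rw [h3, one_mul, Fin.succAbove_last]
    congr 1
    ext i j
    rw [Matrix.submatrix_apply, hB, Matrix.sub_apply, Matrix.sub_apply, Matrix.submatrix_apply]
    congr 1
    by_cases hij : i = j
    · subst hij
      rw [Matrix.diagonal_apply_eq, Matrix.diagonal_apply_eq, Fin.snoc_castSucc]
    · rw [Matrix.diagonal_apply_ne _ hij, Matrix.diagonal_apply_ne _ (by
        intro h
        exact hij (Fin.castSucc_injective _ h))]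
  rw [h1, Matrix.det_updateRow_add, Matrix.det_updateRow_smul, h2, Matrix.updateRow_eq_self]
  ring

theorem cons_snoc {n : ℕ} (d : Fin n → ZMod 3) (t : ZMod 3) :
    (Fin.cons 0 (Fin.snoc d t : Fin (n + 1) → ZMod 3) : Fin (n + 2) → ZMod 3) =
      Fin.snoc (Fin.cons 0 d : Fin (n + 1) → ZMod 3) t :=
  Fin.cons_snoc_eq_snoc_cons 0 d t

end EDET

theorem EDET_thm : EDET := by
  intro m
  induction m with
  | zero =>
    intro A A' hA hA'
    refine ⟨fun i => 0, ?_, ?_⟩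
    · rw [Matrix.det_fin_one, Matrix.sub_apply, Matrix.diagonal_apply_eq, Fin.cons_zero, sub_zero]
      exact hA
    · rw [Matrix.det_fin_one, Matrix.sub_apply, Matrix.diagonal_apply_eq, Fin.cons_zero, sub_zero]
      exact hA'
  | succ m ih =>
    intro A A' hA hA'
    obtain ⟨d, hd, hd'⟩ := ih (A.submatrix Fin.castSucc Fin.castSucc)
      (A'.submatrix Fin.castSucc Fin.castSucc) hA hA'
    obtain ⟨t, ht, ht'⟩ := EDET.choice
      (A - Matrix.diagonal (Fin.snoc (Fin.cons 0 d : Fin (m + 1) → ZMod 3) 0 :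
        Fin (m + 2) → ZMod 3)).det _
      (A' - Matrix.diagonal (Fin.snoc (Fin.cons 0 d : Fin (m + 1) → ZMod 3) 0 :
        Fin (m + 2) → ZMod 3)).det _ hd hd'
    refine ⟨Fin.snoc d t, ?_, ?_⟩
    · rw [EDET.cons_snoc, EDET.det_last]
      exact ht
    · rw [EDET.cons_snoc, EDET.det_last]
      exact ht'

end Pool.Agent.PT

end

section

/-!
# EMAT: the class can be chosen such that both matrices are invertible
-/

namespace Pool.Agent.PT

open Pool.Agent.Lib_helper18 Pool.Agent.Lib_helper18.Eis Pool.Agent.Lib_helper84.Cub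

namespace EMAT

theorem Mm_eq (n : ℕ) {m k : ℕ} (π : Fin m → PP) (e : Fin m → ℕ) (r : Fin k → ℕ)
    (j0 : Option (Fin k)) (c : Fin m → ZMod 3) :
    Mm n π e r j0 c = Mm n π e r j0 0 -
      Matrix.diagonal (Fin.cons 0 c : Fin (m + 1) → ZMod 3) := by
  ext a b
  rw [Matrix.sub_apply]
  refine Fin.cases ?_ (fun i => ?_) a
  · have h : (Matrix.diagonal (Fin.cons 0 c : Fin (m + 1) → ZMod 3)) 0 b = 0 := by
      by_cases hb : (0 : Fin (m + 1)) = b
      · rw [← hb, Matrix.diagonal_apply_eq, Fin.cons_zero]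
      · rw [Matrix.diagonal_apply_ne _ hb]
    rw [h, sub_zero]
    rfl
  · refine Fin.cases ?_ (fun i' => ?_) b
    · rw [Matrix.diagonal_apply_ne _ (Fin.succ_ne_zero i), sub_zero]
      rfl
    · by_cases h : i' = i
      · subst h
        rw [Matrix.diagonal_apply_eq, Fin.cons_succ]
        simp [Mm]
      · have h' : i.succ ≠ i'.succ := fun h1 => h (Fin.succ_injective _ h1).symm
        rw [Matrix.diagonal_apply_ne _ h', sub_zero]
        simp [Mm, h]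

theorem Mp_eq (n : ℕ) {m k : ℕ} (π : Fin m → PP) (p e : Fin m → ℕ) (r : Fin k → ℕ)
    (j0 : Option (Fin k)) (c : Fin m → ZMod 3) :
    Mp n π p e r j0 c = Mp n π p e r j0 0 -
      Matrix.diagonal (Fin.cons 0 c : Fin (m + 1) → ZMod 3) := by
  ext a b
  rw [Matrix.sub_apply]
  refine Fin.cases ?_ (fun i => ?_) a
  · have h : (Matrix.diagonal (Fin.cons 0 c : Fin (m + 1) → ZMod 3)) 0 b = 0 := by
      by_cases hb : (0 : Fin (m + 1)) = b
      · rw [← hb, Matrix.diagonal_apply_eq, Fin.cons_zero]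
      · rw [Matrix.diagonal_apply_ne _ hb]
    rw [h, sub_zero]
    rfl
  · refine Fin.cases ?_ (fun i' => ?_) b
    · rw [Matrix.diagonal_apply_ne _ (Fin.succ_ne_zero i), sub_zero]
      rfl
    · by_cases h : i' = i
      · subst h
        rw [Matrix.diagonal_apply_eq, Fin.cons_succ]
        simp [Mp]
      · have h' : i.succ ≠ i'.succ := fun h1 => h (Fin.succ_injective _ h1).symm
        rw [Matrix.diagonal_apply_ne _ h', sub_zero]
        simp [Mp, h]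

end EMAT

open _root_.Pool.Agent.PT.EMAT in
theorem EMAT_thm (hEDET : EDET) : EMAT := by
  intro n m k π p e r f j0 hNF hj
  have h0 : Mm n π e r j0 0 0 0 ≠ 0 ∧ Mp n π p e r j0 0 0 0 ≠ 0 := by
    cases j0 with
    | none => exact ⟨one_ne_zero, one_ne_zero⟩
    | some j =>
      have h1 : Mm n π e r (some j) 0 0 0 = sym (r j : Eis) w := rfl
      have h2 : Mp n π p e r (some j) 0 0 0 = wt ((r j : ℤ) ^ 2) := rfl
      rw [h1, h2]
      refine ⟨?_, hj j rfl⟩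
      rw [sym_w' (prime_inert (hNF.rp j) (hNF.r2 j)) (n3 (hNF.rp j) (hNF.r2 j)), norm_natCast]
      exact hj j rfl
  obtain ⟨d, h1, h2⟩ := hEDET m _ _ h0.1 h0.2
  refine ⟨d, ?_, ?_⟩
  · rw [Mm_eq]
    exact h1
  · rw [Mp_eq]
    exact h2

end Pool.Agent.PT

end

section

/-!
# HN: the Hasse norm theorem for pure cubic fields, rational version
-/

namespace Pool.Agent.PT

open Pool.Agent.Lib_helper18 Pool.Agent.Lib_helper18.Eis Pool.Agent.Lib_helper84.Cub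

namespace HN

theorem cast_ne {a : ℤ} (ha : a ≠ 0) : (a : Eis) ≠ 0 := by
  intro h
  have h1 := congrArg Eis.re h
  rw [intCast_re, zero_re] at h1
  exact ha h1

/-- If `π` lies over `p` and divides the rational integer `a` then `p` divides `a`. -/
theorem dvd_int {π : PP} {p : ℕ} (hp : p.Prime)
    (h : (p % 3 = 2 ∧ π.1 = (p : Eis)) ∨
      (p % 3 = 1 ∧ π.1.norm = p ∧ (p : Eis) = π.1 * conj π.1 ∧ ¬ Associated π.1 (conj π.1)))
    {a : ℤ} (ha : π.1 ∣ (a : Eis)) : (p : ℤ) ∣ a := by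
  have hpz : Prime (p : ℤ) := Nat.prime_iff_prime_int.1 hp
  have h1 : (p : ℤ) ∣ π.1.norm := by
    rcases h with ⟨_, h⟩ | ⟨_, h, _⟩
    · rw [h, norm_natCast, sq]
      exact dvd_mul_right _ _
    · rw [h]
  obtain ⟨c, hc⟩ := ha
  have h2 : π.1.norm ∣ a ^ 2 := by
    rw [← norm_intCast, hc, norm_mul]
    exact dvd_mul_right _ _
  exact hpz.dvd_of_dvd_pow (h1.trans h2)

theorem dvd_nat {π : PP} {p : ℕ}
    (h : (p % 3 = 2 ∧ π.1 = (p : Eis)) ∨
      (p % 3 = 1 ∧ π.1.norm = p ∧ (p : Eis) = π.1 * conj π.1 ∧ ¬ Associated π.1 (conj π.1))) :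
    π.1 ∣ (p : Eis) := by
  rcases h with ⟨_, h⟩ | ⟨_, _, h, _⟩
  · rw [h]
  · rw [h]
    exact dvd_mul_right _ _

/-- The multiplicity of `π` in `p ^ k t`. -/
theorem V_eq {π : PP} {p : ℕ} (hp : p.Prime)
    (h : (p % 3 = 2 ∧ π.1 = (p : Eis)) ∨
      (p % 3 = 1 ∧ π.1.norm = p ∧ (p : Eis) = π.1 * conj π.1 ∧ ¬ Associated π.1 (conj π.1)))
    (k : ℕ) {t : ℤ} (ht : ¬ (p : ℤ) ∣ t) : V π.1 (((p : ℤ) ^ k * t : ℤ) : Eis) = k := by
  have h1 : ¬ π.1 ∣ (t : Eis) := fun h2 => ht (dvd_int hp h h2)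
  have hc : (((p : ℤ) ^ k * t : ℤ) : Eis) = (p : Eis) ^ k * (t : Eis) := by
    push_cast
    rfl
  rw [hc]
  have h' := h
  rcases h' with ⟨_, h2⟩ | ⟨_, _, h2, h3⟩
  · rw [← h2]
    exact V_pow_mul π.2.1 k h1
  · rw [h2, mul_pow, mul_assoc]
    refine V_pow_mul π.2.1 k fun h4 => ?_
    rcases π.2.1.dvd_or_dvd h4 with h5 | h5
    · have h6 := π.2.1.dvd_of_dvd_pow h5
      exact h3 (π.2.1.associated_of_dvd (prime_conj π.2.1) h6)
    · exact h1 h5

/-- Splitting off the cube of the part of `y` prime to `x` with all exponents divisible by `3`. -/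
theorem split (x y : ℤ) (hy : y ≠ 0) : ∃ (y1 : ℤ) (m : ℕ), m ≠ 0 ∧ y1 ≠ 0 ∧ y = y1 * (m : ℤ) ^ 3 ∧
    ∀ p : ℕ, p.Prime → (p : ℤ) ∣ y1 → ¬ (p : ℤ) ∣ x →
      ∃ (k : ℕ) (t : ℤ), ¬ 3 ∣ k ∧ ¬ (p : ℤ) ∣ t ∧ y1 = (p : ℤ) ^ k * t := by
  classical
  set N := y.natAbs with hN
  have hN0 : N ≠ 0 := Int.natAbs_ne_zero.2 hy
  set Q : ℕ → Prop := fun l => (l : ℤ) ∣ x ∨ ¬ 3 ∣ N.factorization l with hQ
  set a : ℕ := ∏ l ∈ N.primeFactors.filter Q, l ^ N.factorization l with ha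
  set m : ℕ := ∏ l ∈ N.primeFactors.filter (fun l => ¬ Q l), l ^ (N.factorization l / 3) with hm
  have hprod : N = a * m ^ 3 := by
    have h1 : N = ∏ l ∈ N.primeFactors, l ^ N.factorization l := by
      conv_lhs => rw [← Nat.prod_factorization_pow_eq_self hN0]
      rfl
    have h2 : m ^ 3 = ∏ l ∈ N.primeFactors.filter (fun l => ¬ Q l), l ^ N.factorization l := by
      rw [hm, ← Finset.prod_pow]
      refine Finset.prod_congr rfl fun l hl => ?_
      have h3 := (Finset.mem_filter.1 hl).2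
      simp only [hQ, not_or, not_not] at h3
      rw [← pow_mul, Nat.div_mul_cancel h3.2]
    rw [h2, ha, Finset.prod_filter_mul_prod_filter_not]
    exact h1
  have hm0 : m ≠ 0 := by
    intro h
    rw [h] at hprod
    exact hN0 (by rw [hprod]; ring)
  have ha0 : a ≠ 0 := by
    intro h
    rw [h] at hprod
    exact hN0 (by rw [hprod]; ring)
  have hs : y.sign ≠ 0 := by rwa [ne_eq, Int.sign_eq_zero_iff_zero]
  refine ⟨y.sign * a, m, hm0, mul_ne_zero hs (by exact_mod_cast ha0), ?_, ?_⟩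
  · have h1 : y = y.sign * (N : ℤ) := by rw [hN, Int.natCast_natAbs, Int.sign_mul_abs]
    conv_lhs => rw [h1, hprod]
    push_cast
    ring
  · intro p hp hpy hpx
    have hpz : Prime (p : ℤ) := Nat.prime_iff_prime_int.1 hp
    have hns : ¬ (p : ℤ) ∣ y.sign := by
      intro h
      have h1 : y.sign = 1 ∨ y.sign = -1 := by
        rcases lt_or_gt_of_ne hy with h2 | h2
        · right
          exact Int.sign_eq_neg_one_of_neg h2
        · left
          exact Int.sign_eq_one_of_pos h2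
      rcases h1 with h1 | h1 <;> rw [h1] at h
      · exact hpz.not_dvd_one h
      · exact hpz.not_dvd_one ((dvd_neg).1 h)
    have hpa : p ∣ a := by
      rcases hpz.dvd_or_dvd hpy with h | h
      · exact absurd h hns
      · exact_mod_cast h
    have hmem : p ∈ N.primeFactors.filter Q := by
      rw [ha] at hpa
      obtain ⟨l, hl, hpl⟩ := (Prime.dvd_finset_prod_iff hp.prime _).1 hpa
      have hl' := Nat.prime_of_mem_primeFactors (Finset.mem_filter.1 hl).1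
      have h1 := hp.dvd_of_dvd_pow hpl
      rw [(Nat.prime_dvd_prime_iff_eq hp hl').1 h1]
      exact hl
    obtain ⟨hpN, hpQ⟩ := Finset.mem_filter.1 hmem
    have hk : ¬ 3 ∣ N.factorization p := hpQ.resolve_left hpx
    refine ⟨N.factorization p,
      y.sign * ((∏ l ∈ (N.primeFactors.filter Q).erase p, l ^ N.factorization l : ℕ) : ℤ),
      hk, ?_, ?_⟩
    · intro h
      rcases hpz.dvd_or_dvd h with h | h
      · exact hns h
      · have h1 : p ∣ ∏ l ∈ (N.primeFactors.filter Q).erase p, l ^ N.factorization l := by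
          exact_mod_cast h
        obtain ⟨l, hl, hpl⟩ := (Prime.dvd_finset_prod_iff hp.prime _).1 h1
        obtain ⟨hne, hl2⟩ := Finset.mem_erase.1 hl
        have hl' := Nat.prime_of_mem_primeFactors (Finset.mem_filter.1 hl2).1
        have h1 := hp.dvd_of_dvd_pow hpl
        exact hne ((Nat.prime_dvd_prime_iff_eq hp hl').1 h1).symm
    · have h1 : a = p ^ N.factorization p *
          ∏ l ∈ (N.primeFactors.filter Q).erase p, l ^ N.factorization l := by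
        rw [ha]
        exact (Finset.mul_prod_erase _ _ hmem).symm
      rw [h1]
      push_cast
      ring

end HN

theorem HN_thm (hNFLD : NFLD) (hNMAIN : NMAIN) (hNDESC : NDESC) (hSTM : STM) (hSPP : SPP)
    (hLCI : LCI) : HN := by
  intro x y hx h3x hcube hV hy h3y htm
  obtain ⟨-, -, -, hSPP4, -, hSPP6⟩ := hSPP
  obtain ⟨y1, m, hm, hy1, hyy, hprop⟩ := HN.split x y hy
  obtain ⟨L, iF, iN, ι, θ, σ, c, hC⟩ := hNFLD x hx hcube
  have hxE : (x : Eis) ≠ 0 := HN.cast_ne hx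
  have hyE : (y : Eis) ≠ 0 := HN.cast_ne hy
  have hy1E : (y1 : Eis) ≠ 0 := HN.cast_ne hy1
  have hmE : ((m : ℤ) : Eis) ≠ 0 := HN.cast_ne (by exact_mod_cast hm)
  have h3y1 : ¬ (3 : ℤ) ∣ y1 := fun h => h3y (by rw [hyy]; exact h.mul_right _)
  have htm1 : ∀ π : PP, tm π.1 (x : Eis) (y1 : Eis) = 0 := by
    intro π
    have hS := hSTM π.1 π.2.1 (hSPP4 π).1
    have h1 := htm π
    have h2 : (y : Eis) = (y1 : Eis) * ((m : ℤ) : Eis) * ((m : ℤ) : Eis) * ((m : ℤ) : Eis) := by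
      rw [hyy]
      push_cast
      ring
    have h3 : tm π.1 (y : Eis) (x : Eis) = tm π.1 (y1 : Eis) (x : Eis) +
        3 * tm π.1 ((m : ℤ) : Eis) (x : Eis) := by
      rw [h2, hS.mul _ _ _ (mul_ne_zero (mul_ne_zero hy1E hmE) hmE) hmE hxE,
        hS.mul _ _ _ (mul_ne_zero hy1E hmE) hmE hxE, hS.mul _ _ _ hy1E hmE hxE]
      ring
    have h4 : (3 : ZMod 3) = 0 := rfl
    rw [h4, zero_mul, add_zero, hS.skew _ _ hxE hyE, h1, hS.skew _ _ hxE hy1E] at h3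
    rw [neg_zero] at h3
    exact neg_eq_zero.1 h3.symm
  have hLC : ∀ π : PP, π.1 ∣ (y1 : Eis) → ¬ LC π.1 x → π.1 ∣ (x : Eis) := by
    intro π hπ hnot
    by_contra hπx
    obtain ⟨p, hp, hcl⟩ := hSPP6 π
    have h1 := HN.dvd_int hp hcl hπ
    have h2 : ¬ (p : ℤ) ∣ x := by
      intro h
      obtain ⟨d, hd⟩ := h
      apply hπx
      rw [hd, Int.cast_mul, Int.cast_natCast]
      exact (HN.dvd_nat hcl).mul_right _
    obtain ⟨k, t, hk, ht, hyt⟩ := hprop p hp h1 h2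
    have h3 : V π.1 (y1 : Eis) = k := by
      rw [hyt]
      exact HN.V_eq hp hcl k ht
    have h4 : V π.1 (x : Eis) = 0 := V_eq_zero hπx
    have h5 := htm1 π
    rw [tm, h3, h4, Nat.cast_zero, zero_mul, sub_zero] at h5
    have h6 : (k : ZMod 3) ≠ 0 := by
      rw [ne_eq, ZMod.natCast_eq_zero_iff]
      exact hk
    have h7 : ch π.1 (x : Eis) = 0 := by
      have : Fact (Nat.Prime 3) := ⟨Nat.prime_three⟩
      exact (mul_eq_zero.1 h5).resolve_left h6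
    exact hnot ((hLCI.1 π x hx).2 ⟨by rw [h4]; exact dvd_zero _, h7⟩)
  obtain ⟨z, hz, hzN⟩ := hNMAIN x L ι θ σ c hx h3x hV hcube hC y1 hy1 h3y1 htm1 hLC
  obtain ⟨p, q, p', q', hsol⟩ := hNDESC x L ι θ σ c hx hC y1 z hy1 hz hzN
  have hmz : (m : ℤ) ≠ 0 := by exact_mod_cast hm
  refine ⟨m * p, m * q, p', q', ⟨?_, ?_⟩⟩
  · have h1 := hsol.eq
    rw [hyy]
    linear_combination (m : ℤ) ^ 3 * h1
  · have h1 := hsol.n1
    have h2 : ((m : ℤ) * p) ^ 3 + x * ((m : ℤ) * q) ^ 3 = (m : ℤ) ^ 3 * (p ^ 3 + x * q ^ 3) := by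
      ring
    rw [h2]
    exact mul_ne_zero (pow_ne_zero 3 hmz) h1

end Pool.Agent.PT

end

section

/-!
# NFLD: existence of the field `Q(w, x^(1/3))`
-/

open Polynomial

namespace Pool.Agent.PT

open Pool.Agent.Lib_helper18 Pool.Agent.Lib_helper18.Eis Pool.Agent.Lib_helper84.Cub

namespace NFLD

/-- the field `Q(w)` -/
abbrev F : Type := FractionRing Eis

theorem w_ne_one : (w : Eis) ≠ 1 := fun h => by
  have := congrArg Eis.im h
  simp at this

theorem no_root {x : ℤ} (hx : ¬ ∃ c : ℤ, c ^ 3 = x) (b : F) : b ^ 3 ≠ (x : F) := by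
  intro hb
  obtain ⟨⟨u, v⟩, huv⟩ := IsLocalization.surj (nonZeroDivisors Eis) b
  have hv : (v : Eis) ≠ 0 := nonZeroDivisors.coe_ne_zero v
  simp only at huv
  have h1 : u ^ 3 = (x : Eis) * (v : Eis) ^ 3 := by
    apply IsFractionRing.injective Eis F
    rw [map_pow, map_mul, map_pow, ← huv, mul_pow, hb, map_intCast]
  have h2 : u.norm ^ 3 = x ^ 2 * (v : Eis).norm ^ 3 := by
    have := congrArg Eis.norm h1
    rwa [Eis.norm_pow, norm_mul, norm_intCast, Eis.norm_pow] at this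
  by_cases hu : u = 0
  · apply hx
    refine ⟨0, ?_⟩
    rw [hu] at h1
    have h3 : (x : Eis) * (v : Eis) ^ 3 = 0 := by rw [← h1]; simp
    rcases mul_eq_zero.mp h3 with h | h
    · have := congrArg Eis.re h
      simp at this
      rw [this]; simp
    · exact absurd (pow_eq_zero_iff (by norm_num) |>.mp h) hv
  have hu' : u.norm ≠ 0 := fun h => hu (norm_eq_zero.mp h)
  have h3 : (x * (v : Eis).norm) ^ 3 = x * u.norm ^ 3 := by rw [h2]; ring
  have h4 : u.norm ^ 3 ∣ (x * (v : Eis).norm) ^ 3 := ⟨x, by rw [h3]; ring⟩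
  obtain ⟨c, hc⟩ := (Int.pow_dvd_pow_iff (by norm_num)).mp h4
  apply hx
  refine ⟨c, ?_⟩
  have h5 : u.norm ^ 3 * c ^ 3 = u.norm ^ 3 * x := by
    rw [← mul_pow, ← hc, h3]; ring
  exact mul_left_cancel₀ (pow_ne_zero 3 hu') h5

/-- From ring endomorphisms to the final statement. -/
theorem build (x : ℤ) (L : Type) [Field L] [CharZero L] (ι : Eis →+* L) (θ : L)
    (σ0 c0 : L →+* L) (inj : Function.Injective ι) (cube : θ ^ 3 = (x : L))
    (sθ : σ0 θ = ι w * θ) (sι : ∀ a : Eis, σ0 (ι a) = ι a) (cθ : c0 θ = θ)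
    (cι : ∀ a : Eis, c0 (ι a) = ι (conj a))
    (rep : ∀ z : L, ∃ (m : ℤ) (a b d : Eis), m ≠ 0 ∧ (m : L) * z = ι a + ι b * θ + ι d * θ ^ 2)
    (lin : ∀ a b d : Eis, ι a + ι b * θ + ι d * θ ^ 2 = 0 → a = 0 ∧ b = 0 ∧ d = 0) :
    ∃ (L : Type) (_ : Field L) (_ : NumberField L) (ι : Eis →+* L) (θ : L) (σ c : L ≃ₐ[ℚ] L),
      CubF x L ι θ σ c := by
  classical
  have hfin : FiniteDimensional ℚ L := by
    refine Module.finite_def.mpr ⟨(Finset.range 2 ×ˢ Finset.range 3).image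
      (fun ij : ℕ × ℕ => ι w ^ ij.1 * θ ^ ij.2), ?_⟩
    rw [eq_top_iff]
    rintro z -
    obtain ⟨m, a, b, d, hm, h⟩ := rep z
    have hmL : (m : L) ≠ 0 := Int.cast_ne_zero.mpr hm
    have hs : ∀ i < 2, ∀ j < 3, ι w ^ i * θ ^ j ∈ Submodule.span ℚ
        (((Finset.range 2 ×ˢ Finset.range 3).image
          (fun ij : ℕ × ℕ => ι w ^ ij.1 * θ ^ ij.2) : Finset L) : Set L) := by
      intro i hi j hj
      apply Submodule.subset_span
      rw [Finset.mem_coe, Finset.mem_image]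
      exact ⟨(i, j), by simp [hi, hj], rfl⟩
    have he : ∀ a : Eis, ι a = (a.re : L) + (a.im : L) * ι w := by
      intro a
      conv_lhs => rw [eq_re_add_im a]
      simp
    have hz : z = ((a.re : ℚ) / m) • (ι w ^ 0 * θ ^ 0) + ((a.im : ℚ) / m) • (ι w ^ 1 * θ ^ 0) +
        ((b.re : ℚ) / m) • (ι w ^ 0 * θ ^ 1) + ((b.im : ℚ) / m) • (ι w ^ 1 * θ ^ 1) +
        ((d.re : ℚ) / m) • (ι w ^ 0 * θ ^ 2) + ((d.im : ℚ) / m) • (ι w ^ 1 * θ ^ 2) := by
      apply mul_left_cancel₀ hmL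
      rw [h, he a, he b, he d]
      simp only [Rat.smul_def]
      push_cast
      field_simp
      ring
    rw [hz]
    refine Submodule.add_mem _ (Submodule.add_mem _ (Submodule.add_mem _ (Submodule.add_mem _
      (Submodule.add_mem _ ?_ ?_) ?_) ?_) ?_) ?_ <;>
    exact Submodule.smul_mem _ _ (hs _ (by norm_num) _ (by norm_num))
  have hNF : NumberField L := { to_charZero := inferInstance, to_finiteDimensional := hfin }
  have key : ∀ g : L →+* L, ∃ g' : L ≃ₐ[ℚ] L, ∀ z, g' z = g z := by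
    intro g
    have hb : Function.Bijective g.toRatAlgHom :=
      Algebra.IsAlgebraic.algHom_bijective _
    exact ⟨AlgEquiv.ofBijective g.toRatAlgHom hb, fun z => rfl⟩
  obtain ⟨σ, hσ⟩ := key σ0
  obtain ⟨c, hc⟩ := key c0
  exact ⟨L, inferInstance, hNF, ι, θ, σ, c, inj, cube, by rw [hσ, sθ], fun a => by rw [hσ, sι],
    by rw [hc, cθ], fun a => by rw [hc, cι], rep, lin⟩

end NFLD

open _root_.Pool.Agent.PT.NFLD in
theorem NFLD_thm : NFLD := by
  intro x hx0 hx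
  let f : F[X] := X ^ 3 - C (x : F)
  have hf : Irreducible f :=
    X_pow_sub_C_irreducible_of_prime Nat.prime_three (fun b => no_root hx b)
  have : Fact (Irreducible f) := ⟨hf⟩
  have hdeg : f.natDegree = 3 := natDegree_X_pow_sub_C
  have hmonic : f.Monic := monic_X_pow_sub_C _ (by norm_num)
  let L := AdjoinRoot f
  let θ : L := AdjoinRoot.root f
  let ι : Eis →+* L := (AdjoinRoot.of f).comp (algebraMap Eis F)
  have hinj : Function.Injective ι :=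
    (AdjoinRoot.of f).injective.comp (IsFractionRing.injective Eis F)
  have hchar : CharZero Eis := ⟨fun a b h => by
    have := congrArg Eis.re h
    simpa using this⟩
  have hcL : CharZero L := charZero_of_injective_ringHom hinj
  have hcube : θ ^ 3 = (x : L) := by
    have h := AdjoinRoot.eval₂_root f
    simp only [f, eval₂_sub, eval₂_pow, eval₂_X, eval₂_C] at h
    have h1 := sub_eq_zero.mp h
    rw [h1]
    simp
  -- lin
  have hlin : ∀ a b d : Eis, ι a + ι b * θ + ι d * θ ^ 2 = 0 → a = 0 ∧ b = 0 ∧ d = 0 := by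
    intro a b d h
    let g : F[X] := C (algebraMap Eis F a) + C (algebraMap Eis F b) * X +
      C (algebraMap Eis F d) * X ^ 2
    have hg : AdjoinRoot.mk f g = 0 := by
      simp only [g, map_add, map_mul, map_pow, AdjoinRoot.mk_C, AdjoinRoot.mk_X]
      exact h
    rw [AdjoinRoot.mk_eq_zero] at hg
    have hg0 : g = 0 := by
      by_contra hne
      have h1 := natDegree_le_of_dvd hg hne
      have h2 : g.natDegree ≤ 2 := by
        simp only [g]
        compute_degree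
      omega
    have c0 := congrArg (fun q => coeff q 0) hg0
    have c1 := congrArg (fun q => coeff q 1) hg0
    have c2 := congrArg (fun q => coeff q 2) hg0
    simp [g, coeff_X, coeff_C] at c0 c1 c2
    exact ⟨c0, c1, c2⟩
  -- rep
  have hF : ∀ z : F, ∃ (m : ℤ) (a : Eis), m ≠ 0 ∧ (m : F) * z = algebraMap Eis F a := by
    intro z
    obtain ⟨⟨u, v⟩, huv⟩ := IsLocalization.surj (nonZeroDivisors Eis) z
    have hv : (v : Eis) ≠ 0 := nonZeroDivisors.coe_ne_zero v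
    simp only at huv
    refine ⟨(v : Eis).norm, u * conj v, fun h => hv (norm_eq_zero.mp h), ?_⟩
    have h1 : (((v : Eis).norm : ℤ) : F) = algebraMap Eis F ((v : Eis) * conj v) := by
      rw [mul_conj]; simp
    rw [h1, map_mul, map_mul, ← huv]
    ring
  have hrep : ∀ z : L, ∃ (m : ℤ) (a b d : Eis), m ≠ 0 ∧
      (m : L) * z = ι a + ι b * θ + ι d * θ ^ 2 := by
    intro z
    obtain ⟨g0, rfl⟩ := AdjoinRoot.mk_surjective z
    obtain ⟨g, hgd, hgz⟩ : ∃ g : F[X], g.natDegree < 3 ∧ AdjoinRoot.mk f g0 = AdjoinRoot.mk f g := by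
      refine ⟨g0 %ₘ f, ?_, ?_⟩
      · have := natDegree_modByMonic_lt g0 hmonic (fun h => by
          rw [h] at hdeg; simp at hdeg)
        rwa [hdeg] at this
      · rw [AdjoinRoot.mk_eq_mk]
        exact ⟨g0 /ₘ f, by
          have := modByMonic_add_div g0 f
          linear_combination (-1 : F[X]) * this⟩
    obtain ⟨m0, a, hm0, ha⟩ := hF (g.coeff 0)
    obtain ⟨m1, b, hm1, hb⟩ := hF (g.coeff 1)
    obtain ⟨m2, d, hm2, hd⟩ := hF (g.coeff 2)
    refine ⟨m0 * m1 * m2, ((m1 * m2 : ℤ) : Eis) * a, ((m0 * m2 : ℤ) : Eis) * b, ((m0 * m1 : ℤ) : Eis) * d,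
      by simp [hm0, hm1, hm2], ?_⟩
    have hg3 : g = C (g.coeff 0) + C (g.coeff 1) * X + C (g.coeff 2) * X ^ 2 := by
      conv_lhs => rw [g.as_sum_range' 3 hgd]
      simp [Finset.sum_range_succ, ← C_mul_X_pow_eq_monomial]
    have e : AdjoinRoot.mk f g0 = AdjoinRoot.of f (g.coeff 0) + AdjoinRoot.of f (g.coeff 1) * θ +
        AdjoinRoot.of f (g.coeff 2) * θ ^ 2 := by
      rw [hgz]
      conv_lhs => rw [hg3]
      simp only [map_add, map_mul, map_pow, AdjoinRoot.mk_C, AdjoinRoot.mk_X]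
      rfl
    have ha' : (m0 : L) * AdjoinRoot.of f (g.coeff 0) = ι a := by
      have := congrArg (AdjoinRoot.of f) ha
      rw [map_mul, map_intCast] at this
      exact this
    have hb' : (m1 : L) * AdjoinRoot.of f (g.coeff 1) = ι b := by
      have := congrArg (AdjoinRoot.of f) hb
      rw [map_mul, map_intCast] at this
      exact this
    have hd' : (m2 : L) * AdjoinRoot.of f (g.coeff 2) = ι d := by
      have := congrArg (AdjoinRoot.of f) hd
      rw [map_mul, map_intCast] at this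
      exact this
    rw [e, map_mul, map_mul, map_mul, ← ha', ← hb', ← hd']
    have hm : ((m0 * m1 * m2 : ℤ) : L) = (m0 : L) * m1 * m2 := by
      rw [Int.cast_mul, Int.cast_mul]
    have hi : ∀ k l : ℤ, ι ((k * l : ℤ) : Eis) = (k : L) * l := fun k l => by
      rw [map_intCast, Int.cast_mul]
    rw [hm, hi, hi, hi]
    ring
  have hw3 : ι w ^ 3 = 1 := by rw [← map_pow, w_cube, map_one]
  -- sigma
  let σ0 : L →+* L := AdjoinRoot.lift (AdjoinRoot.of f) (ι w * θ) (by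
    simp only [f, eval₂_sub, eval₂_pow, eval₂_X, eval₂_C]
    rw [mul_pow, hw3, hcube]
    simp)
  let cF : F →+* F := IsLocalization.map F conj (M := nonZeroDivisors Eis)
    (T := nonZeroDivisors Eis) (by
      intro y hy
      rw [Submonoid.mem_comap, mem_nonZeroDivisors_iff_ne_zero]
      intro h
      have h1 := congrArg conj h
      rw [conj_conj, map_zero] at h1
      exact nonZeroDivisors.ne_zero hy h1)
  have hcF : ∀ a : Eis, cF (algebraMap Eis F a) = algebraMap Eis F (conj a) := fun a =>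
    IsLocalization.map_eq _ a
  let c0 : L →+* L := AdjoinRoot.lift ((AdjoinRoot.of f).comp cF) θ (by
    simp only [f, eval₂_sub, eval₂_pow, eval₂_X, eval₂_C]
    rw [hcube]
    simp)
  refine build x L ι θ σ0 c0 hinj hcube (AdjoinRoot.lift_root _) (fun a => AdjoinRoot.lift_of _)
    (AdjoinRoot.lift_root _) (fun a => ?_) hrep hlin
  show c0 (AdjoinRoot.of f (algebraMap Eis F a)) = AdjoinRoot.of f (algebraMap Eis F (conj a))
  rw [← hcF]
  exact AdjoinRoot.lift_of _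

end Pool.Agent.PT

end

section

/-!
# The matrix of the pairing is alternating and the class of a point is in its kernel
-/

set_option autoImplicit false

open NumberField IsDedekindDomain Finset
open scoped nonZeroDivisors Pointwise

namespace Pool.Agent.PT

open Pool.Agent.Lib_helper18 Pool.Agent.Lib_helper18.Eis Pool.Agent.Lib_helper84.Cub

namespace TEND

theorem cast_ne {n : ℤ} (h : n ≠ 0) : (n : Eis) ≠ 0 := by
  intro h0
  apply h
  have := congrArg Eis.re h0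
  simpa using this

theorem three_zero : (3 : ZMod 3) = 0 := rfl

theorem c9_mul {m n : ℤ} (hm : C9 m) (hn : C9 n) : C9 (m * n) := by
  unfold C9 at *
  rcases hm with h | h <;> rcases hn with h' | h' <;> simp [Int.mul_emod, h, h']

theorem c9_one : C9 1 := by
  unfold C9
  decide

theorem c9_pow {m : ℤ} (hm : C9 m) (n : ℕ) : C9 (m ^ n) := by
  induction n with
  | zero => simpa using c9_one
  | succ n ih =>
    rw [pow_succ]
    exact c9_mul ih hm

theorem c9_cube {m : ℤ} (hm : ¬ (3 : ℤ) ∣ m) : C9 (m ^ 3) := by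
  unfold C9
  have h : m % 9 = 0 ∨ m % 9 = 1 ∨ m % 9 = 2 ∨ m % 9 = 3 ∨ m % 9 = 4 ∨ m % 9 = 5 ∨ m % 9 = 6 ∨
      m % 9 = 7 ∨ m % 9 = 8 := by omega
  have h3 : m ^ 3 % 9 = ((m % 9) * (m % 9) % 9 * (m % 9)) % 9 := by
    rw [pow_succ, pow_two]
    simp [Int.mul_emod]
  rcases h with h | h | h | h | h | h | h | h | h
  · exact absurd (by omega) hm
  · rw [h3, h]
    decide
  · rw [h3, h]
    decide
  · exact absurd (by omega) hm
  · rw [h3, h]
    decide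
  · rw [h3, h]
    decide
  · exact absurd (by omega) hm
  · rw [h3, h]
    decide
  · rw [h3, h]
    decide

theorem three_pow {m : ℤ} (hm : ¬ (3 : ℤ) ∣ m) (n : ℕ) : ¬ (3 : ℤ) ∣ m ^ n := fun h =>
  hm (Int.prime_three.dvd_of_dvd_pow h)

/-- all symbols are local symbols -/
theorem lsym (hSTM : STM) (hSPP : SPP) (hSLC : SLC) (v : Pl) : ∃ e, LSym (uni v) (sy v) e := by
  cases v with
  | none => exact ⟨4, hSLC⟩
  | some π => exact ⟨1, hSTM π.1 π.2.1 (hSPP.2.2.2.1 π).1⟩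

section
variable {π : Eis} {s : Eis → Eis → ZMod 3} {e : ℕ}

theorem s_mul_right (h : LSym π s e) {a b c : Eis} (ha : a ≠ 0) (hb : b ≠ 0) (hc : c ≠ 0) :
    s c (a * b) = s c a + s c b := by
  rw [h.skew (a * b) c (mul_ne_zero ha hb) hc, h.mul a b c ha hb hc, h.skew a c ha hc,
    h.skew b c hb hc]
  ring

theorem s_cube_right (h : LSym π s e) {a c : Eis} (ha : a ≠ 0) (hc : c ≠ 0) : s c (a ^ 3) = 0 := by
  have h1 : a ^ 3 = a * a * a := by ring
  rw [h1, s_mul_right h (mul_ne_zero ha ha) ha hc, s_mul_right h ha ha hc]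
  have h2 : s c a + s c a + s c a = 3 * s c a := by ring
  rw [h2, three_zero, zero_mul]

end

theorem w_ne : w ≠ 0 := by
  intro h
  have := congrArg Eis.im h
  revert this
  decide

/-! ### Admissible classes -/

theorem adm_mul (hSTM : STM) (hSPP : SPP) {B x y : ℤ} (hB : BOk B) (hx : Adm B x)
    (hy : Adm B y) : Adm B (x * y) where
  ne := mul_ne_zero hx.ne hy.ne
  three := fun h => (Int.prime_three.dvd_or_dvd h).elim hx.three hy.three
  sym := fun π => by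
    have hs := hSTM π.1 π.2.1 (hSPP.2.2.2.1 π).1
    push_cast
    rw [hs.mul _ _ _ (cast_ne hx.ne) (cast_ne hy.ne) (cast_ne hB.ne), hx.sym π, hy.sym π, add_zero]
  unr := fun π h1 h2 => by
    push_cast at h2
    rcases π.2.1.dvd_or_dvd h2 with h | h
    · exact hx.unr π h1 h
    · exact hy.unr π h1 h
  nine := fun h => c9_mul (hx.nine h) (hy.nine h)

theorem adm_one (hSTM : STM) (hSPP : SPP) {B : ℤ} (hB : BOk B) : Adm B 1 where
  ne := one_ne_zero
  three := by decide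
  sym := fun π => by
    have hs := hSTM π.1 π.2.1 (hSPP.2.2.2.1 π).1
    have h1 : (1 : Eis) ≠ 0 := one_ne_zero
    have h := hs.mul 1 1 _ h1 h1 (cast_ne hB.ne)
    rw [one_mul] at h
    push_cast
    have h2 : tm π.1 1 (B : Eis) + 0 = tm π.1 1 (B : Eis) + tm π.1 1 (B : Eis) := by
      rw [add_zero]
      exact h
    exact (add_left_cancel h2).symm
  unr := fun π _ h2 => by
    push_cast at h2
    exact π.2.1.not_unit (isUnit_of_dvd_one h2)
  nine := fun _ => c9_one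

theorem adm_pow (hSTM : STM) (hSPP : SPP) {B x : ℤ} (hB : BOk B) (hx : Adm B x) (n : ℕ) :
    Adm B (x ^ n) := by
  induction n with
  | zero =>
    rw [pow_zero]
    exact adm_one hSTM hSPP hB
  | succ n ih =>
    rw [pow_succ]
    exact adm_mul hSTM hSPP hB ih hx

theorem adm_prod (hSTM : STM) (hSPP : SPP) {B : ℤ} (hB : BOk B) {s : ℕ} {b : Fin s → ℤ}
    (hb : ∀ i, Adm B (b i)) (c : Fin s → ℕ) (t : Finset (Fin s)) :
    Adm B (∏ i ∈ t, b i ^ c i) := by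
  classical
  induction t using Finset.induction_on with
  | empty =>
    rw [Finset.prod_empty]
    exact adm_one hSTM hSPP hB
  | insert i t hi ih =>
    rw [Finset.prod_insert hi]
    exact adm_mul hSTM hSPP hB (adm_pow hSTM hSPP hB (hb i) _) ih

/-! ### The trivial solutions -/

theorem AV_const {v : Pl} {B b p q p' q' : ℤ} (hLC : LC (uni v) b) {c : ZMod 3}
    (h : ∀ r : ℤ, AS (sy v) (B : Eis) p q p' q' r = c) : AV v B b p q p' q' = c := by
  have h1 : ∃ c : ZMod 3, ∃ N0 : ℕ, ∀ r : ℤ, uni v ^ N0 ∣ (r : Eis) ^ 3 - (b : Eis) →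
      AS (sy v) (B : Eis) p q p' q' r = c := ⟨c, 0, fun r _ => h r⟩
  unfold AV
  rw [dif_pos h1]
  obtain ⟨N0, hN⟩ := h1.choose_spec
  obtain ⟨r, hr⟩ := hLC N0
  rw [← hN r hr]
  exact h r

theorem AS_zero {s : Eis → Eis → ZMod 3} (B : Eis) (u r : ℤ) : AS s B u 0 1 0 r = 0 := by
  unfold AS Lf
  simp

theorem OO_cube (hSTM : STM) (hSPP : SPP) (hSLC : SLC) (B b u : ℤ) (hu : u ≠ 0) :
    OO B b (u ^ 3) u 0 1 0 = 0 := by
  unfold OO
  apply finsum_eq_zero_of_forall_eq_zero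
  intro v
  have hs : sy v w ((u ^ 3 : ℤ) : Eis) = 0 := by
    obtain ⟨e, he⟩ := lsym hSTM hSPP hSLC v
    push_cast
    exact s_cube_right he (cast_ne hu) w_ne
  unfold TT
  split_ifs with h1
  · rw [AV_const h1 (fun r => AS_zero _ u r), hs, add_zero]
  · cases v with
    | none => rfl
    | some π =>
      simp only
      split_ifs
      · have : tm π.1 w ((u ^ 3 : ℤ) : Eis) = 0 := hs
        rw [this, neg_zero]
      · rfl

theorem solW_cube (b u : ℤ) (hu : u ≠ 0) : SolW b (u ^ 3) u 0 1 0 where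
  eq := by ring
  n1 := by
    have := pow_ne_zero 3 hu
    simpa using this

theorem solW_self (b : ℤ) (hb : b ≠ 0) : SolW b b 0 1 1 0 where
  eq := by ring
  n1 := by simpa using hb

/-- powers -/
theorem POW (hTADD : TADD) (hSTM : STM) (hSPP : SPP) (hSLC : SLC) {B b x p q p' q' : ℤ}
    (hB : BOk B) (hb : Adm B b) (hx : Adm B x) (hc : ¬ ∃ c : ℤ, c ^ 3 = b)
    (hS : SolW b x p q p' q') (n : ℕ) :
    ∃ P Q P' Q' : ℤ, SolW b (x ^ n) P Q P' Q' ∧
      OO B b (x ^ n) P Q P' Q' = n * OO B b x p q p' q' := by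
  induction n with
  | zero =>
    refine ⟨1, 0, 1, 0, ?_, ?_⟩
    · have := solW_cube b 1 one_ne_zero
      simpa using this
    · have := OO_cube hSTM hSPP hSLC B b 1 one_ne_zero
      simpa using this
  | succ n ih =>
    obtain ⟨P, Q, P', Q', h1, h2⟩ := ih
    obtain ⟨P₁, Q₁, P₁', Q₁', h3, h4⟩ := hTADD b (x ^ n) x P Q P' Q' p q p' q' hc hb.ne
      (pow_ne_zero n hx.ne) hx.ne h1 hS
    refine ⟨P₁, Q₁, P₁', Q₁', ?_, ?_⟩
    · rw [pow_succ]
      exact h3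
    · rw [pow_succ, h4 B hB hb (adm_pow hSTM hSPP hB hx n) hx, h2]
      push_cast
      ring

/-- an integer that is the cube of a rational number is a cube -/
theorem rcube {x m n : ℤ} (hn : n ≠ 0) (h : m ^ 3 = x * n ^ 3) : ∃ t : ℤ, t ^ 3 = x := by
  have h1 : n ^ 3 ∣ m ^ 3 := ⟨x, by rw [h]; ring⟩
  obtain ⟨t, rfl⟩ := (Int.pow_dvd_pow_iff (by norm_num)).1 h1
  refine ⟨t, ?_⟩
  have h2 : n ^ 3 * t ^ 3 = n ^ 3 * x := by
    rw [← mul_pow, h]
    ring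
  exact mul_left_cancel₀ (pow_ne_zero 3 hn) h2

theorem sol_of {b x p q p' q' : ℤ} (hb : b ≠ 0) (hx : x ≠ 0) (hc : ¬ ∃ c : ℤ, c ^ 3 = x)
    (h : SolW b x p q p' q') : Sol b x p q p' q' := by
  refine { toSolW := h, n2 := fun h2 => ?_ }
  by_cases hp : p' = 0
  · subst hp
    have hp0 : p = 0 := by
      have : p ^ 3 = 0 := by linarith
      exact pow_eq_zero_iff (by norm_num) |>.1 this
    subst hp0
    have h3 := h.eq
    have h4 := h.n1
    have h5 : b * q ^ 3 = b * (x * q' ^ 3) := by linarith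
    have h6 : q ^ 3 = x * q' ^ 3 := mul_left_cancel₀ hb h5
    by_cases hq : q' = 0
    · subst hq
      apply h4
      have : q ^ 3 = 0 := by rw [h6]; ring
      rw [this]
      ring
    · exact hc (rcube hq h6)
  · exact hc (rcube (m := p) hp (by linarith))

end TEND

open _root_.Pool.Agent.PT.TEND in
/-- the matrix is alternating and the class of a point is in its kernel -/
theorem TEND_thm (hTC : TC) (hTA : TA) (hTADD : TADD) (hTTH : TTH) (hSTM : STM) (hSPP : SPP)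
    (hSSL : SSL) (hSLC : SLC) (hLCI : LCI) (hAVV : AVV) (hLFIN : LFIN) : TEND := by
  classical
  intro s b p q p' q' B hSys hB hAdm
  have hanti : ∀ i j, Mat b p q p' q' B i j = - Mat b p q p' q' B j i := by
    intro i j
    by_cases hij : i = j
    · subst hij
      simp [Mat]
    · have hji : j ≠ i := fun h => hij h.symm
      obtain ⟨h1, h2, h3, h4⟩ := hSys.sw j i hji
      have h5 := hTA B (b j) (b i) (p j i) (q j i) (p' j i) (q' j i) hB (hAdm j) (hAdm i)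
        (hSys.sol j i hji) (hSys.c9 j i hji)
      unfold Mat
      rw [if_neg hij, if_neg hji, h1, h2, h3, h4]
      exact eq_neg_of_add_eq_zero_right h5
  refine ⟨hanti, fun c X Y hc hPt => ?_⟩
  have hAx : Adm B (∏ i, b i ^ c i) := adm_prod hSTM hSPP hB hAdm c Finset.univ
  have hxc : ¬ ∃ t : ℤ, t ^ 3 = ∏ i, b i ^ c i := hSys.ind c hc
  have hbc : ∀ j, ¬ ∃ t : ℤ, t ^ 3 = b j := by
    intro j
    have h1 := hSys.ind (fun i => if i = j then 1 else 0) ⟨j, by simp⟩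
    have h2 : ∏ i, b i ^ (if i = j then 1 else 0) = b j := by
      rw [Finset.prod_eq_single j]
      · simp
      · intro i _ hij
        simp [hij]
      · intro h
        exact absurd (Finset.mem_univ _) h
    rw [h2] at h1
    exact h1
  -- the class of the point is a norm, with the expected value of the pairing
  have key : ∀ j, (C9 (b j) ∨ 3 ∣ c j) → ∀ t : Finset (Fin s), ∃ P Q P' Q' : ℤ,
      SolW (b j) (∏ i ∈ t, b i ^ c i) P Q P' Q' ∧
      OO B (b j) (∏ i ∈ t, b i ^ c i) P Q P' Q' =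
        ∑ i ∈ t, Mat b p q p' q' B j i * (c i : ZMod 3) := by
    intro j hj t
    -- one factor
    have one : ∀ i, ∃ P Q P' Q' : ℤ, SolW (b j) (b i ^ c i) P Q P' Q' ∧
        OO B (b j) (b i ^ c i) P Q P' Q' = Mat b p q p' q' B j i * (c i : ZMod 3) := by
      intro i
      by_cases hij : i = j
      · subst hij
        have hM : Mat b p q p' q' B i i = 0 := by simp [Mat]
        rw [hM, zero_mul]
        rcases hj with hj | ⟨k, hk⟩
        · obtain ⟨P, Q, P', Q', h1, h2⟩ := POW hTADD hSTM hSPP hSLC hB (hAdm i) (hAdm i) (hbc i)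
            (solW_self (b i) (hAdm i).ne) (c i)
          refine ⟨P, Q, P', Q', h1, ?_⟩
          rw [h2, hTTH B (b i) hB (hAdm i) hj, mul_zero]
        · have h1 : b i ^ c i = (b i ^ k) ^ 3 := by
            rw [hk, ← pow_mul, mul_comm]
          rw [h1]
          exact ⟨b i ^ k, 0, 1, 0, solW_cube _ _ (pow_ne_zero _ (hAdm i).ne),
            OO_cube hSTM hSPP hSLC _ _ _ (pow_ne_zero _ (hAdm i).ne)⟩
      · have hji : j ≠ i := fun h => hij h.symm
        obtain ⟨P, Q, P', Q', h1, h2⟩ := POW hTADD hSTM hSPP hSLC hB (hAdm j) (hAdm i) (hbc j)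
          (hSys.sol j i hji).toSolW (c i)
        refine ⟨P, Q, P', Q', h1, ?_⟩
        rw [h2]
        unfold Mat
        rw [if_neg hji, mul_comm]
    induction t using Finset.induction_on with
    | empty =>
      refine ⟨1, 0, 1, 0, ?_, ?_⟩
      · have := solW_cube (b j) 1 one_ne_zero
        simpa using this
      · have := OO_cube hSTM hSPP hSLC B (b j) 1 one_ne_zero
        simpa using this
    | insert i t hi ih =>
      obtain ⟨P, Q, P', Q', h1, h2⟩ := ih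
      obtain ⟨P₁, Q₁, P₁', Q₁', h3, h4⟩ := one i
      obtain ⟨P₂, Q₂, P₂', Q₂', h5, h6⟩ := hTADD (b j) (b i ^ c i) (∏ i ∈ t, b i ^ c i)
        P₁ Q₁ P₁' Q₁' P Q P' Q' (hbc j) (hAdm j).ne (pow_ne_zero _ (hAdm i).ne)
        (adm_prod hSTM hSPP hB hAdm c t).ne h3 h1
      rw [Finset.prod_insert hi, Finset.sum_insert hi]
      refine ⟨P₂, Q₂, P₂', Q₂', h5, ?_⟩
      rw [h6 B hB (hAdm j) (adm_pow hSTM hSPP hB (hAdm i) _) (adm_prod hSTM hSPP hB hAdm c t),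
        h2, h4]
  -- rows to which `TC` applies
  have good : ∀ j, (C9 (b j) ∨ 3 ∣ c j) → (C9 (b j) ∨ C9 (∏ i, b i ^ c i)) →
      ∑ i, Mat b p q p' q' B j i * (c i : ZMod 3) = 0 := by
    intro j h1 h2
    obtain ⟨P, Q, P', Q', h3, h4⟩ := key j h1 Finset.univ
    rw [← h4]
    exact hTC B (b j) _ P Q P' Q' X Y hB (hAdm j) hAx (sol_of (hAdm j).ne hAx.ne hxc h3) hPt h2
  intro j
  by_cases hj : C9 (b j)
  · exact good j (Or.inl hj) (Or.inl hj)
  have hoth : ∀ i, i ≠ j → C9 (b i) := fun i hi => (hSys.c9 i j hi).resolve_right hj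
  by_cases hcj : 3 ∣ c j
  · refine good j (Or.inr hcj) (Or.inr ?_)
    have : ∀ t : Finset (Fin s), C9 (∏ i ∈ t, b i ^ c i) := by
      intro t
      induction t using Finset.induction_on with
      | empty => simpa using c9_one
      | insert i t hi ih =>
        rw [Finset.prod_insert hi]
        refine c9_mul ?_ ih
        by_cases hij : i = j
        · subst hij
          obtain ⟨k, hk⟩ := hcj
          rw [hk, mul_comm 3 k, pow_mul]
          exact c9_cube (three_pow (hAdm i).three k)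
        · exact c9_pow (hoth i hij) _
    exact this Finset.univ
  · have hrow : ∀ i, i ≠ j → ∑ k, Mat b p q p' q' B i k * (c k : ZMod 3) = 0 := fun i hi =>
      good i (Or.inl (hoth i hi)) (Or.inl (hoth i hi))
    set M := Mat b p q p' q' B with hM
    have h1 : ∑ i, (c i : ZMod 3) * ∑ k, M i k * (c k : ZMod 3) =
        (c j : ZMod 3) * ∑ k, M j k * (c k : ZMod 3) := by
      rw [Finset.sum_eq_single j]
      · intro i _ hi
        rw [hrow i hi, mul_zero]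
      · intro h
        exact absurd (Finset.mem_univ _) h
    have h2 : ∑ i, (c i : ZMod 3) * ∑ k, M i k * (c k : ZMod 3) =
        - ∑ i, (c i : ZMod 3) * ∑ k, M i k * (c k : ZMod 3) := by
      conv_lhs =>
        simp only [Finset.mul_sum]
        rw [Finset.sum_comm]
      rw [← Finset.sum_neg_distrib]
      apply Finset.sum_congr rfl
      intro i _
      rw [Finset.mul_sum, ← Finset.sum_neg_distrib]
      apply Finset.sum_congr rfl
      intro k _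
      rw [hanti k i]
      ring
    have h3 : ∑ i, (c i : ZMod 3) * ∑ k, M i k * (c k : ZMod 3) = 0 := by
      generalize ∑ i, (c i : ZMod 3) * ∑ k, M i k * (c k : ZMod 3) = z at h2
      revert h2
      revert z
      decide
    rw [h1] at h3
    rcases mul_eq_zero.1 h3 with h | h
    · exact absurd ((ZMod.natCast_eq_zero_iff _ _).1 h) hcj
    · exact h

end Pool.Agent.PT

end

section

/-!
# F2B
-/

namespace Pool.Agent.PT.F2B

open Pool.Agent.Lib_helper18 Pool.Agent.Lib_helper18.Eis Pool.Agent.Lib_helper84.Cub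

theorem two_eq (a : ZMod 3) (h : a + a = a) : a = 0 := by
  revert a
  decide

theorem neg_zero' (a : ZMod 3) (h : a + a = 0) : a = 0 := by
  revert a
  decide

theorem prop_zmod : ∀ vb cb vx cx : ZMod 3, vb * cx - vx * cb = 0 → ¬ (vx = 0 ∧ cx = 0) →
    ∃ j : ZMod 3, vb = j * vx ∧ cb = j * cx := by decide

theorem s_one {π : Eis} {s : Eis → Eis → ZMod 3} {e : ℕ} (h : LSym π s e) {c : Eis}
    (hc : c ≠ 0) : s 1 c = 0 := by
  have h1 := h.mul 1 1 c one_ne_zero one_ne_zero hc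
  rw [mul_one] at h1
  exact two_eq _ h1.symm

theorem s_neg {π : Eis} {s : Eis → Eis → ZMod 3} {e : ℕ} (h : LSym π s e) {a c : Eis}
    (ha : a ≠ 0) (hc : c ≠ 0) : s (-a) c = s a c := by
  have h0 : (-1 : Eis) ≠ 0 := neg_ne_zero.2 one_ne_zero
  have h1 := h.mul (-1) (-1) c h0 h0 hc
  rw [neg_mul_neg, mul_one, s_one h hc] at h1
  have h2 := neg_zero' _ h1.symm
  have h3 := h.mul (-1) a c h0 ha hc
  rw [neg_one_mul, h2, zero_add] at h3
  exact h3

/-- the value of `AS` is multiplied by `j` -/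
theorem AS_smul {s : Eis → Eis → ZMod 3} {B x : Eis} {j : ZMod 3} {p q p' q' r : ℤ}
    (h : ∀ y : Eis, y ≠ 0 → s B y = j * s x y) (h1 : Lf p q 1 r ≠ 0) (h2 : Lf p q 2 r ≠ 0)
    (h3 : Lf p' q' 1 r ≠ 0) (h4 : Lf p' q' 2 r ≠ 0) :
    AS s B p q p' q' r = j * AS s x p q p' q' r := by
  unfold AS
  rw [h _ h1, h _ h2, h _ h3, h _ h4]
  ring

theorem Gf_ne {b x p q p' q' : ℤ} (h : Sol b x p q p' q') :
    Gf p q p' q' 1 ≠ 0 ∧ Gf p q p' q' 2 ≠ 0 := by
  have key : ¬ (q * p' = 0 ∧ p * q' = 0) := by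
    rintro ⟨h1, h2⟩
    apply h.n2
    have h3 := h.n1
    have h4 := h.eq
    have h5 : p' ^ 3 + b * q' ^ 3 ≠ 0 := by
      intro h0
      rw [h0, mul_zero] at h4
      exact h3 h4
    rcases mul_eq_zero.1 h1 with h6 | h6
    · rcases mul_eq_zero.1 h2 with h7 | h7
      · exact absurd (by rw [h6, h7]; ring) h3
      · rw [h6, h7] at h4
        linarith
    · rcases mul_eq_zero.1 h2 with h7 | h7
      · rw [h6, h7]
        ring
      · exact absurd (by rw [h6, h7]; ring) h5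
  constructor
  · intro h0
    apply key
    have hre := congrArg Eis.re h0
    have him := congrArg Eis.im h0
    simp only [Gf, pow_one, sub_re, sub_im, mul_re, mul_im, intCast_re, intCast_im, w_re, w_im,
      zero_re, zero_im] at hre him
    constructor <;> linarith
  · intro h0
    apply key
    have hre := congrArg Eis.re h0
    have him := congrArg Eis.im h0
    simp only [Gf, pow_two, sub_re, sub_im, mul_re, mul_im, intCast_re, intCast_im, w_re, w_im,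
      zero_re, zero_im] at hre him
    constructor <;> linarith

theorem Lf_ne {p q r b : ℤ} (hb : ¬ (3 : ℤ) ∣ b) (h : p ^ 3 + b * q ^ 3 ≠ 0)
    (hr : lam ∣ (r : Eis) ^ 3 - (b : Eis)) : Lf p q 1 r ≠ 0 ∧ Lf p q 2 r ≠ 0 := by
  have key : ¬ (p = 0 ∧ q * r = 0) := by
    rintro ⟨h1, h2⟩
    rcases mul_eq_zero.1 h2 with h3 | h3
    · exact h (by rw [h1, h3]; ring)
    · rw [h3] at hr
      have h4 : lam ∣ (b : Eis) := by
        have h5 : (b : Eis) = -(((0 : ℤ) : Eis) ^ 3 - (b : Eis)) := by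
          ext <;> simp [pow_succ]
        rw [h5]
        exact hr.neg_right
      rw [lam_dvd_iff] at h4
      simp only [intCast_re, intCast_im, add_zero] at h4
      exact hb h4
  constructor
  · intro h0
    apply key
    have hre := congrArg Eis.re h0
    have him := congrArg Eis.im h0
    simp only [Lf, pow_one, add_re, add_im, mul_re, mul_im, intCast_re, intCast_im, w_re, w_im,
      zero_re, zero_im] at hre him
    constructor <;> linarith
  · intro h0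
    apply key
    have hre := congrArg Eis.re h0
    have him := congrArg Eis.im h0
    simp only [Lf, pow_two, add_re, add_im, mul_re, mul_im, intCast_re, intCast_im, w_re, w_im,
      zero_re, zero_im] at hre him
    constructor <;> linarith

/-- units modulo `9` -/
theorem units_nine {B x : ℤ} (hB : ¬ (3 : ℤ) ∣ B) (hx : ¬ (3 : ℤ) ∣ x) (h9 : ¬ C9 x) :
    ∃ (ε : ℤ) (j : ℕ), (ε = 1 ∨ ε = -1) ∧ (9 : ℤ) ∣ B - ε * x ^ j := by
  have hx' : x % 9 = 2 ∨ x % 9 = 4 ∨ x % 9 = 5 ∨ x % 9 = 7 := by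
    unfold C9 at h9
    omega
  have hB' : B % 9 = 1 ∨ B % 9 = 2 ∨ B % 9 = 4 ∨ B % 9 = 5 ∨ B % 9 = 7 ∨ B % 9 = 8 := by omega
  have hsq : x * x % 9 = (x % 9) * (x % 9) % 9 := Int.mul_emod x x 9
  have h0 : x ^ 0 = 1 := pow_zero x
  have h1 : x ^ 1 = x := pow_one x
  have h2 : x ^ 2 = x * x := pow_two x
  rcases hx' with hx' | hx' | hx' | hx' <;> rw [hx'] at hsq <;>
    rcases hB' with hB' | hB' | hB' | hB' | hB' | hB' <;>
    first
      | exact ⟨1, 0, Or.inl rfl, by rw [h0]; omega⟩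
      | exact ⟨-1, 0, Or.inr rfl, by rw [h0]; omega⟩
      | exact ⟨1, 1, Or.inl rfl, by rw [h1]; omega⟩
      | exact ⟨-1, 1, Or.inr rfl, by rw [h1]; omega⟩
      | exact ⟨1, 2, Or.inl rfl, by rw [h2]; omega⟩
      | exact ⟨-1, 2, Or.inr rfl, by rw [h2]; omega⟩

theorem s_pow {π : Eis} {s : Eis → Eis → ZMod 3} {e : ℕ} (h : LSym π s e) {a c : Eis}
    (ha : a ≠ 0) (hc : c ≠ 0) (j : ℕ) : s (a ^ j) c = (j : ZMod 3) * s a c := by
  induction j with
  | zero => rw [pow_zero, s_one h hc, Nat.cast_zero, zero_mul]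
  | succ j ih =>
    rw [pow_succ, h.mul _ _ _ (pow_ne_zero j ha) ha hc, ih]
    push_cast
    ring

/-- the functional of `B` is a multiple of the one of `x` at `lam` -/
theorem sl_smul (hSLC : SLC) {B x : ℤ} (hB : ¬ (3 : ℤ) ∣ B) (hx : ¬ (3 : ℤ) ∣ x) (h9 : ¬ C9 x) :
    ∃ j : ZMod 3, ∀ y : Eis, y ≠ 0 → sl (B : Eis) y = j * sl (x : Eis) y := by
  obtain ⟨ε, j, hε, h⟩ := units_nine hB hx h9
  have hx0 : (x : Eis) ≠ 0 := by
    intro h0
    have h1 := congrArg Eis.re h0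
    simp only [intCast_re, zero_re] at h1
    exact hx (by rw [h1]; exact dvd_zero 3)
  have hε0 : (ε : Eis) ≠ 0 := by
    intro h0
    have h1 := congrArg Eis.re h0
    simp only [intCast_re, zero_re] at h1
    omega
  have hlx : ¬ lam ∣ (x : Eis) := by
    rw [lam_dvd_iff]
    simp only [intCast_re, intCast_im, add_zero]
    exact hx
  have hlε : ¬ lam ∣ (ε : Eis) := by
    rw [lam_dvd_iff]
    simp only [intCast_re, intCast_im, add_zero]
    omega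
  refine ⟨(j : ZMod 3), fun y hy => ?_⟩
  have h1 : ¬ lam ∣ (ε : Eis) * (x : Eis) ^ j := by
    intro h2
    rcases prime_lam.dvd_or_dvd h2 with h3 | h3
    · exact hlε h3
    · exact hlx (prime_lam.dvd_of_dvd_pow h3)
  have h2 : lam ^ (V lam ((ε : Eis) * (x : Eis) ^ j) + 4) ∣ (B : Eis) - (ε : Eis) * (x : Eis) ^ j := by
    rw [V_eq_zero h1, zero_add]
    obtain ⟨k, hk⟩ := h
    have h3 : (B : Eis) - (ε : Eis) * (x : Eis) ^ j = ((9 * k : ℤ) : Eis) := by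
      rw [← hk]
      push_cast
      ring
    rw [h3]
    refine ⟨w * (k : Eis), ?_⟩
    have h4 : lam ^ 4 * w = ((9 : ℤ) : Eis) := by
      have h5 : lam ^ 4 * w = lam * lam * lam * lam * w := by ring
      rw [h5]
      rfl
    rw [← mul_assoc, h4, Int.cast_mul]
  rw [hSLC.cont _ _ y (mul_ne_zero hε0 (pow_ne_zero j hx0)) hy h2,
    hSLC.mul _ _ y hε0 (pow_ne_zero j hx0) hy, s_pow hSLC hx0 hy]
  have h3 : sl (ε : Eis) y = 0 := by
    rcases hε with rfl | rfl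
    · rw [Int.cast_one]
      exact s_one hSLC hy
    · rw [Int.cast_neg, Int.cast_one, s_neg hSLC one_ne_zero hy]
      exact s_one hSLC hy
  rw [h3, zero_add]

/-- the functional of `B` is a multiple of the one of `x` at a tame place -/
theorem tm_smul {π : Eis} {B x : Eis} (h : tm π x B = 0)
    (hx : ¬ (3 ∣ V π x ∧ ch π x = 0)) :
    ∃ j : ZMod 3, (∀ y : Eis, tm π B y = j * tm π x y) ∧ ∀ y : Eis, tm π y B = j * tm π y x := by
  have h1 : ¬ ((V π x : ZMod 3) = 0 ∧ ch π x = 0) := by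
    rintro ⟨h2, h3⟩
    exact hx ⟨(ZMod.natCast_eq_zero_iff _ _).1 h2, h3⟩
  obtain ⟨j, hj1, hj2⟩ := prop_zmod (V π B : ZMod 3) (ch π B) (V π x : ZMod 3) (ch π x) h h1
  refine ⟨j, fun y => ?_, fun y => ?_⟩
  · unfold tm
    rw [hj1, hj2]
    ring
  · unfold tm
    rw [hj1, hj2]
    ring

end Pool.Agent.PT.F2B

namespace Pool.Agent.PT

open Pool.Agent.Lib_helper18 Pool.Agent.Lib_helper18.Eis Pool.Agent.Lib_helper84.Cub

theorem F2B_thm (hSTM : STM) (hSPP : SPP) (hSLC : SLC) (hLCI : LCI) (hSCJ : SCJ) (hSREC : SREC)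
    (hSSL : SSL) (hIF2 : IF2) : F2B := by
  intro v B b x p q p' q' hB hb hx hsol hLb hLx
  rcases v with _ | π
  · have h9 : ¬ C9 x := fun h => hLx ((hLCI.2.1 x hx.three).2 h)
    obtain ⟨j, hj⟩ := F2B.sl_smul hSLC hB.three hx.three h9
    obtain ⟨N0, hN0⟩ := hIF2 lam sl 4 hSLC b x p q p' q' hb.ne hx.ne hsol
    refine ⟨N0 + 1, fun r hr => ?_⟩
    have hr1 : lam ^ N0 ∣ (r : Eis) ^ 3 - (b : Eis) := (pow_dvd_pow lam (Nat.le_succ N0)).trans hr
    have hr2 : lam ∣ (r : Eis) ^ 3 - (b : Eis) := (dvd_pow_self lam (Nat.succ_ne_zero N0)).trans hr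
    have hn : p' ^ 3 + b * q' ^ 3 ≠ 0 := by
      intro h0
      have h1 := hsol.eq
      rw [h0, mul_zero] at h1
      exact hsol.n1 h1
    obtain ⟨h1, h2⟩ := F2B.Lf_ne hb.three hsol.n1 hr2
    obtain ⟨h3, h4⟩ := F2B.Lf_ne hb.three hn hr2
    obtain ⟨h5, h6⟩ := F2B.Gf_ne hsol
    have hw : (w : Eis) ≠ 0 := by
      intro h0
      have h7 := congrArg Eis.im h0
      simp at h7
    have hB0 : (B : Eis) ≠ 0 := by
      intro h0
      have h7 := congrArg Eis.re h0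
      simp only [intCast_re, zero_re] at h7
      exact hB.ne h7
    have hx0 : (x : Eis) ≠ 0 := by
      intro h0
      have h7 := congrArg Eis.re h0
      simp only [intCast_re, zero_re] at h7
      exact hx.ne h7
    show AS sl (B : Eis) p q p' q' r =
      sl (B : Eis) (Gf p q p' q' 1) - sl (B : Eis) (Gf p q p' q' 2) + sl w (B : Eis)
    rw [F2B.AS_smul hj h1 h2 h3 h4, hN0 r hr1, hj _ h5, hj _ h6, hSLC.skew _ _ hB0 hw, hj _ hw,
      hSLC.skew _ _ hx0 hw]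
    ring
  · have hLSym : LSym π.1 (tm π.1) 1 := hSTM π.1 π.2.1 (hSPP.2.2.2.1 π).1
    have h1 : ¬ (3 ∣ V π.1 (x : Eis) ∧ ch π.1 (x : Eis) = 0) :=
      fun h => hLx ((hLCI.1 π x hx.ne).2 h)
    obtain ⟨j, hj, hj'⟩ := F2B.tm_smul (hx.sym π) h1
    obtain ⟨N0, hN0⟩ := hIF2 π.1 (tm π.1) 1 hLSym b x p q p' q' hb.ne hx.ne hsol
    refine ⟨N0, fun r hr => ?_⟩
    have h2 := hN0 r hr
    show AS (tm π.1) (B : Eis) p q p' q' r =
      tm π.1 (B : Eis) (Gf p q p' q' 1) - tm π.1 (B : Eis) (Gf p q p' q' 2) + tm π.1 w (B : Eis)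
    have h3 : AS (tm π.1) (B : Eis) p q p' q' r = j * AS (tm π.1) (x : Eis) p q p' q' r := by
      unfold AS
      rw [hj, hj, hj, hj]
      ring
    rw [h3, h2, hj, hj, hj']
    ring

end Pool.Agent.PT

end

section

/-!
# Module HERBQ: the Herbrand quotient argument relative to a free subgroup of invariants
-/

namespace Pool.Agent.PT

open Finset

namespace HERBQ

section group

variable {A G : Type} [CommGroup A] [Group G] [MulDistribMulAction G A]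

/-- the subgroup generated by the `d i` -/
def Dg {e : ℕ} (d : Fin e → A) : Subgroup A where
  carrier := {x | ∃ n : Fin e → ℤ, x = ∏ i, d i ^ n i}
  one_mem' := ⟨0, by simp⟩
  mul_mem' := by
    rintro _ _ ⟨n, rfl⟩ ⟨m, rfl⟩
    exact ⟨n + m, by simp [zpow_add, Finset.prod_mul_distrib]⟩
  inv_mem' := by
    rintro _ ⟨n, rfl⟩
    exact ⟨-n, by simp⟩

/-- the norm -/
def Nm (g : G) (p : ℕ) : A →* A where
  toFun x := ∏ i ∈ range p, g ^ i • x
  map_one' := by simp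
  map_mul' x y := by simp [smul_mul', Finset.prod_mul_distrib]

theorem Nm_apply (g : G) (p : ℕ) (x : A) : Nm g p x = ∏ i ∈ range p, g ^ i • x := rfl

theorem pow_smul_fixed {g : G} {x : A} (h : g • x = x) (i : ℕ) : g ^ i • x = x := by
  induction i with
  | zero => simp
  | succ i ih => rw [pow_succ, mul_smul, h, ih]

theorem Nm_fixed {g : G} {x : A} (p : ℕ) (h : g • x = x) : Nm g p x = x ^ p := by
  rw [Nm_apply, Finset.prod_congr rfl (fun i _ => pow_smul_fixed h i)]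
  simp

theorem smul_Nm (g : G) (p : ℕ) (x : A) : g • Nm g p x = Nm g p (g • x) := by
  rw [Nm_apply, Nm_apply, Finset.smul_prod']
  refine Finset.prod_congr rfl fun i _ => ?_
  rw [← mul_smul, ← mul_smul, ← pow_succ, ← pow_succ']

theorem Nm_smul {g : G} {p : ℕ} (hg : g ^ p = 1) (x : A) : Nm g p (g • x) = Nm g p x := by
  have h1 := Finset.prod_range_succ (fun i => g ^ i • x) p
  have h2 := Finset.prod_range_succ' (fun i => g ^ i • x) p
  rw [h1, hg, pow_zero, one_smul] at h2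
  have h3 := mul_right_cancel h2
  rw [Nm_apply, Nm_apply, h3]
  refine Finset.prod_congr rfl fun i _ => ?_
  rw [← mul_smul, ← pow_succ]

theorem pow_smul_mem {g : G} {E : Subgroup A} (hE : ∀ u ∈ E, g • u ∈ E) {x : A} (hx : x ∈ E)
    (i : ℕ) : g ^ i • x ∈ E := by
  induction i with
  | zero => simpa using hx
  | succ i ih => rw [pow_succ', mul_smul]; exact hE _ ih

theorem Nm_mem {g : G} {E : Subgroup A} (hE : ∀ u ∈ E, g • u ∈ E) {x : A} (hx : x ∈ E)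
    (p : ℕ) : Nm g p x ∈ E := by
  rw [Nm_apply]
  exact Subgroup.prod_mem _ fun i _ => pow_smul_mem hE hx i

theorem Dg_fixed {g : G} {e : ℕ} {d : Fin e → A} (hd : ∀ i, g • d i = d i) {x : A}
    (hx : x ∈ Dg d) : g • x = x := by
  obtain ⟨n, rfl⟩ := hx
  rw [Finset.smul_prod']
  refine Finset.prod_congr rfl fun i _ => ?_
  rw [smul_zpow', hd i]

theorem Dg_torsion {e : ℕ} {d : Fin e → A}
    (hi : ∀ n : Fin e → ℤ, ∏ i, d i ^ n i = 1 → n = 0) {x : A} (hx : x ∈ Dg d) {p : ℕ}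
    (hp : p ≠ 0) (h : x ^ p = 1) : x = 1 := by
  obtain ⟨n, rfl⟩ := hx
  have h1 : ∏ i, d i ^ ((p : ℤ) * n i) = 1 := by
    rw [← h, ← Finset.prod_pow]
    refine Finset.prod_congr rfl fun i _ => ?_
    rw [mul_comm, zpow_mul, zpow_natCast]
  have h2 := hi _ h1
  refine Finset.prod_eq_one fun i _ => ?_
  have h3 := congrFun h2 i
  simp only [Pi.zero_apply, mul_eq_zero, Nat.cast_eq_zero, hp, false_or] at h3
  rw [h3, zpow_zero]

/-- ranks -/
theorem rank_eq {e : ℕ} {d : Fin e → A}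
    (hi : ∀ n : Fin e → ℤ, ∏ i, d i ^ n i = 1 → n = 0) {E : Subgroup A}
    (hfin : Module.Finite ℤ (Additive E)) (hd : ∀ i, d i ∈ E) :
    Module.finrank ℤ (Additive E) =
      Module.finrank ℤ (Additive (E.map (QuotientGroup.mk' (Dg d)))) + e := by
  let f : Additive E →ₗ[ℤ] Additive (E.map (QuotientGroup.mk' (Dg d))) :=
    (MonoidHom.toAdditive ((QuotientGroup.mk' (Dg d)).subgroupMap E)).toIntLinearMap
  have hf : Function.Surjective f := by
    intro y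
    obtain ⟨x, hx⟩ := (QuotientGroup.mk' (Dg d)).subgroupMap_surjective E (Additive.toMul y)
    exact ⟨Additive.ofMul x, hx⟩
  let φ : (Fin e → ℤ) →ₗ[ℤ] Additive E :=
    Fintype.linearCombination ℤ (fun i => Additive.ofMul (⟨d i, hd i⟩ : E))
  have hφ : ∀ n : Fin e → ℤ, ((Additive.toMul (φ n) : E) : A) = ∏ i, d i ^ n i := by
    intro n
    simp only [φ, Fintype.linearCombination_apply, toMul_sum, toMul_zsmul, toMul_ofMul]
    rw [Subgroup.val_finsetProd]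
    simp
  have hinj : Function.Injective φ := by
    rw [injective_iff_map_eq_zero]
    intro n hn
    apply hi
    rw [← hφ n, hn]
    rfl
  have hker : LinearMap.ker f = LinearMap.range φ := by
    ext x
    rw [LinearMap.mem_ker, LinearMap.mem_range]
    have h1 : f x = 0 ↔ ((Additive.toMul x : E) : A) ∈ Dg d := by
      rw [← QuotientGroup.eq_one_iff]
      constructor
      · intro h
        have := congrArg (fun z => ((Additive.toMul z : E.map (QuotientGroup.mk' (Dg d))) : A ⧸ Dg d)) h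
        exact this
      · intro h
        apply Additive.toMul.injective
        exact Subtype.ext h
    rw [h1]
    constructor
    · rintro ⟨n, hn⟩
      refine ⟨n, ?_⟩
      apply Additive.toMul.injective
      apply Subtype.ext
      rw [hφ, hn]
    · rintro ⟨n, rfl⟩
      exact ⟨n, hφ n⟩
  have h1 := Submodule.finrank_quotient_add_finrank (LinearMap.ker f)
  rw [(LinearMap.quotKerEquivOfSurjective f hf).finrank_eq, hker,
    LinearMap.finrank_range_of_inj hinj, Module.finrank_fin_fun] at h1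
  exact h1.symm

/-- the values of `ψ` on the subgroup generated by the `d i` -/
theorem psi_prod {κ : Type} {p : ℕ} {ψ : A → κ → ZMod p} {E' : Subgroup A}
    (hψ : ∀ u ∈ E', ∀ v ∈ E', ψ (u * v) = ψ u + ψ v) {e : ℕ} {d : Fin e → A}
    (hd : ∀ i, d i ∈ E') (n : Fin e → ℤ) :
    ψ (∏ i, d i ^ n i) = ∑ i, (n i : ZMod p) • ψ (d i) := by
  let Ψ : E' →* Multiplicative (κ → ZMod p) :=
    MonoidHom.mk' (fun u => Multiplicative.ofAdd (ψ (u : A))) (fun u v => by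
      rw [← ofAdd_add, ← hψ u u.2 v v.2]
      rfl)
  have h1 : Ψ (∏ i, (⟨d i, hd i⟩ : E') ^ n i) = ∏ i, Ψ ⟨d i, hd i⟩ ^ n i := by
    rw [map_prod]
    exact Finset.prod_congr rfl fun i _ => map_zpow Ψ _ _
  have h2 : ((∏ i, (⟨d i, hd i⟩ : E') ^ n i : E') : A) = ∏ i, d i ^ n i := by
    rw [Subgroup.val_finsetProd]
    rfl
  have h3 : ψ (∏ i, d i ^ n i) = Multiplicative.toAdd (Ψ (∏ i, (⟨d i, hd i⟩ : E') ^ n i)) := by
    rw [← h2]
    rfl
  rw [h3, h1, toAdd_prod]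
  refine Finset.sum_congr rfl fun i _ => ?_
  rw [toAdd_zpow]
  funext k
  simp [Ψ]

/-- elements with trivial symbols are norms -/
theorem exists_norm {κ : Type} {p : ℕ} [NeZero p] {ψ : A → κ → ZMod p} {E' : Subgroup A}
    (hψ : ∀ u ∈ E', ∀ v ∈ E', ψ (u * v) = ψ u + ψ v) {e : ℕ} {d : Fin e → A}
    (hd : ∀ i, d i ∈ E') {g : G} (hdg : ∀ i, g • d i = d i)
    (hind : ∀ n : Fin e → ZMod p, ∑ i, n i • ψ (d i) = 0 → n = 0) {x : A} (hx : x ∈ Dg d)
    (h0 : ψ x = 0) : ∃ x' ∈ Dg d, x = Nm g p x' := by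
  obtain ⟨n, rfl⟩ := hx
  rw [psi_prod hψ hd] at h0
  have h1 := hind _ h0
  have h2 : ∀ i, ∃ m : ℤ, n i = p * m := by
    intro i
    exact (ZMod.intCast_zmod_eq_zero_iff_dvd _ p).1 (congrFun h1 i)
  choose m hm using h2
  refine ⟨∏ i, d i ^ m i, ⟨m, rfl⟩, ?_⟩
  rw [Nm_fixed p (Dg_fixed hdg ⟨m, rfl⟩), ← Finset.prod_pow]
  refine Finset.prod_congr rfl fun i _ => ?_
  rw [hm i, mul_comm, zpow_mul, zpow_natCast]

end group

end HERBQ

open _root_.Pool.Agent.PT.HERBQ in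
theorem HERBQ_thm : HERBQ := by
  intro p hp A G _ _ _ g E E' κ ψ e d hgp hfg hE hE' hH1 hψ hψN hd hi hindep hrk y hy hψy
  have hpp : p.Prime := hp.out
  have : NeZero p := ⟨hpp.ne_zero⟩
  have hdE : ∀ i, d i ∈ E := fun i => ((hE' _).1 (hd i)).1
  have hdg : ∀ i, g • d i = d i := fun i => ((hE' _).1 (hd i)).2
  have hDE : Dg d ≤ E := by
    rintro _ ⟨n, rfl⟩
    exact Subgroup.prod_mem _ fun i _ => Subgroup.zpow_mem _ (hdE i) _
  have hDE' : Dg d ≤ E' := by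
    rintro _ ⟨n, rfl⟩
    exact Subgroup.prod_mem _ fun i _ => Subgroup.zpow_mem _ (hd i) _
  have hτ : (Dg d).map (MulDistribMulAction.toMulEquiv A g).toMonoidHom = Dg d := by
    ext x
    constructor
    · rintro ⟨z, hz, rfl⟩
      change g • z ∈ Dg d
      rw [Dg_fixed hdg hz]
      exact hz
    · intro hx
      exact ⟨x, hx, Dg_fixed hdg hx⟩
  obtain ⟨g', hg'⟩ : ∃ g' : MulAut (A ⧸ Dg d),
      ∀ x : A, g' • (x : A ⧸ Dg d) = ((g • x : A) : A ⧸ Dg d) :=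
    ⟨QuotientGroup.congr (Dg d) (Dg d) (MulDistribMulAction.toMulEquiv A g) hτ, fun x => rfl⟩
  have hgi : ∀ (i : ℕ) (x : A), g' ^ i • (x : A ⧸ Dg d) = ((g ^ i • x : A) : A ⧸ Dg d) := by
    intro i
    induction i with
    | zero => intro x; simp
    | succ i ih => intro x; rw [pow_succ, mul_smul, hg', ih, pow_succ, mul_smul]
  have hN : ∀ x : A, ∏ i ∈ range p, g' ^ i • (x : A ⧸ Dg d) = ((Nm g p x : A) : A ⧸ Dg d) := by
    intro x
    rw [Nm_apply, Finset.prod_congr rfl (fun i _ => hgi i x)]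
    exact (map_prod (QuotientGroup.mk' (Dg d)) (fun i => g ^ i • x) (range p)).symm
  have hNE : ∀ x ∈ E, Nm g p x ∈ E' := by
    intro x hx
    rw [hE', smul_Nm, Nm_smul hgp]
    exact ⟨Nm_mem hE hx p, rfl⟩
  have hfgE : Group.FG E := (Group.fg_iff_subgroup_fg E).2 hfg
  have hfinE : Module.Finite ℤ (Additive E) := Module.Finite.iff_addGroup_fg.mpr inferInstance
  have hfgm : (E.map (QuotientGroup.mk' (Dg d))).FG := by
    rw [← Group.fg_iff_subgroup_fg]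
    exact Group.fg_of_surjective ((QuotientGroup.mk' (Dg d)).subgroupMap_surjective E)
  have key := RI.HERB_thm p (A ⧸ Dg d) (MulAut (A ⧸ Dg d)) g' (E.map (QuotientGroup.mk' (Dg d)))
    (E'.map (QuotientGroup.mk' (Dg d))) ?_ hfgm ?_ ?_ ?_ ?_ (y : A ⧸ Dg d) ⟨y, hy, rfl⟩
  · obtain ⟨_, ⟨η, hη, rfl⟩, h1⟩ := key
    rw [QuotientGroup.mk'_apply, hN η, QuotientGroup.eq] at h1
    have h2 : (Nm g p η)⁻¹ * y ∈ Dg d := by
      have := inv_mem h1
      rwa [mul_inv_rev, inv_inv] at this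
    have h3 : y = Nm g p η * ((Nm g p η)⁻¹ * y) := by rw [mul_inv_cancel_left]
    have h4 := hψ _ (hNE η hη) _ (hDE' h2)
    rw [← h3, hψy, Nm_apply g p η, hψN η hη, zero_add] at h4
    obtain ⟨z, hz, h5⟩ := exists_norm hψ hd hdg hindep h2 h4.symm
    refine ⟨η * z, mul_mem hη (hDE hz), ?_⟩
    rw [← Nm_apply g p, map_mul, ← h5]
    exact h3
  · refine MulEquiv.ext fun x => ?_
    induction x using QuotientGroup.induction_on with
    | H x =>
      have h1 := hgi p x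
      rw [hgp, one_smul] at h1
      exact h1
  · rintro _ ⟨u, hu, rfl⟩
    exact ⟨g • u, hE u hu, (hg' u).symm⟩
  · intro u
    constructor
    · rintro ⟨u, hu, rfl⟩
      have h1 := (hE' u).1 hu
      refine ⟨⟨u, h1.1, rfl⟩, ?_⟩
      rw [QuotientGroup.mk'_apply, hg', h1.2]
    · rintro ⟨⟨u, hu, rfl⟩, h1⟩
      rw [QuotientGroup.mk'_apply, hg', QuotientGroup.eq] at h1
      have h2 : Nm g p ((g • u)⁻¹ * u) = 1 := by
        rw [map_mul, map_inv, Nm_smul hgp, inv_mul_cancel]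
      rw [Nm_fixed p (Dg_fixed hdg h1)] at h2
      have h3 := Dg_torsion hi h1 hpp.ne_zero h2
      exact ⟨u, (hE' u).2 ⟨hu, inv_mul_eq_one.1 h3⟩, rfl⟩
  · rintro _ ⟨u, hu, rfl⟩ h1
    rw [QuotientGroup.mk'_apply, hN u] at h1
    have h2 : Nm g p u ∈ Dg d := (QuotientGroup.eq_one_iff _).1 h1
    obtain ⟨z, hz, h3⟩ := exists_norm hψ hd hdg hindep h2 (hψN u hu)
    have h4 : Nm g p (u / z) = 1 := by rw [map_div, h3, div_self']
    obtain ⟨v, hv, h5⟩ := hH1 (u / z) (div_mem hu (hDE hz)) h4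
    refine ⟨v, ⟨v, hv, rfl⟩, ?_⟩
    have h6 : ((u : A) : A ⧸ Dg d) = ((u / z : A) : A ⧸ Dg d) := by
      rw [QuotientGroup.eq, mul_div_assoc', inv_mul_cancel, one_div]
      exact inv_mem hz
    rw [QuotientGroup.mk'_apply, h6, h5, hg']
    rfl
  · have hfinE' : Module.Finite ℤ (Additive E') := by
      have hE'E : E' ≤ E := fun x hx => ((hE' x).1 hx).1
      exact Module.Finite.of_injective
        (MonoidHom.toAdditive (Subgroup.inclusion hE'E)).toIntLinearMap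
        (Subgroup.inclusion_injective hE'E)
    have h1 := rank_eq hi hfinE hdE
    have h2 := rank_eq hi hfinE' hd
    rw [h1, h2] at hrk
    have h3 : Module.finrank ℤ (Additive (E.map (QuotientGroup.mk' (Dg d)))) + (e + p * e) =
        p * Module.finrank ℤ (Additive (E'.map (QuotientGroup.mk' (Dg d)))) + (e + p * e) := by
      linarith
    exact Nat.add_right_cancel h3

end Pool.Agent.PT

end

section

/-!
# SPP: the set `PP`
-/

namespace Pool.Agent.PT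

open Pool.Agent.Lib_helper18 Pool.Agent.Lib_helper18.Eis Pool.Agent.Lib_helper84.Cub

namespace SPP

theorem prim (π : PP) : Prim π.1 := by
  obtain ⟨_, h1, h2⟩ := π.2
  exact ⟨h2, by omega⟩

theorem exists_assoc {l : Eis} (hl : Prime l) (h3 : ¬ l ∣ 3) : ∃ π : PP, Associated l π.1 := by
  obtain ⟨i, hi⟩ := exists_prim (not_lam_dvd_of_prime hl h3)
  obtain ⟨h1, h2⟩ := hi
  have hu : IsUnit (w ^ i) := (IsUnit.of_mul_eq_one (w ^ 2) (by rw [← pow_succ', w_cube])).pow i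
  obtain ⟨u, hu⟩ := hu
  have ha : Associated l (l * w ^ i) := ⟨u, by rw [hu]⟩
  have h4 : (l * w ^ i).re % 3 = 1 ∨ (l * w ^ i).re % 3 = 2 := by omega
  rcases h4 with h4 | h4
  · have h5 : Associated l (-(l * w ^ i)) := ha.neg_right
    refine ⟨⟨-(l * w ^ i), h5.prime hl, ?_, ?_⟩, h5⟩
    · rw [neg_re]
      omega
    · rw [neg_im]
      exact (dvd_neg).2 h1
  · exact ⟨⟨l * w ^ i, ha.prime hl, h4, h1⟩, ha⟩

theorem unique (π π' : PP) (h : Associated π.1 π'.1) : π = π' := by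
  obtain ⟨u, hu⟩ := h
  have h1 := (prim π).unit u.isUnit (by rw [hu]; exact prim π')
  rcases h1 with h1 | h1
  · apply Subtype.ext
    rw [← hu, h1, mul_one]
  · exfalso
    rw [h1] at hu
    have h2 := congrArg Eis.re hu
    have h3 := π.2.2.1
    have h4 := π'.2.2.1
    rw [mul_neg, mul_one, neg_re] at h2
    omega

theorem finite_norm (M : ℤ) : {x : Eis | x.norm ≤ M}.Finite := by
  have h1 : Set.InjOn (fun x : Eis => (x.re, x.im)) {x : Eis | x.norm ≤ M} := by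
    intro x _ y _ h
    have h2 := Prod.ext_iff.1 h
    exact Eis.ext h2.1 h2.2
  refine Set.Finite.of_finite_image ?_ h1
  refine Set.Finite.subset ((Set.finite_Icc (-(2 * M)) (2 * M)).prod
    (Set.finite_Icc (-(2 * M)) (2 * M))) ?_
  rintro _ ⟨x, hx, rfl⟩
  have hx' : x.re ^ 2 - x.re * x.im + x.im ^ 2 ≤ M := hx
  have h2 : x.im ^ 2 ≤ 2 * M := by nlinarith [sq_nonneg (2 * x.re - x.im), sq_nonneg x.im]
  have h3 : x.re ^ 2 ≤ 2 * M := by nlinarith [sq_nonneg (2 * x.im - x.re), sq_nonneg x.re]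
  have key : ∀ t : ℤ, t ^ 2 ≤ 2 * M → -(2 * M) ≤ t ∧ t ≤ 2 * M := by
    intro t ht
    have h4 : |t| ≤ t ^ 2 := by
      rw [← sq_abs]
      rcases (abs_nonneg t).eq_or_lt with h | h
      · rw [← h]
        norm_num
      · nlinarith
    have h5 := abs_le.1 (h4.trans ht)
    exact h5
  exact ⟨⟨(key _ h3).1, (key _ h3).2⟩, ⟨(key _ h2).1, (key _ h2).2⟩⟩

theorem finite_dvd {a : Eis} (ha : a ≠ 0) : {π : PP | π.1 ∣ a}.Finite := by
  refine Set.Finite.of_finite_image (f := fun π : PP => π.1) ?_ Subtype.val_injective.injOn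
  refine (finite_norm a.norm).subset ?_
  rintro _ ⟨π, hπ, rfl⟩
  obtain ⟨b, hb⟩ := hπ
  have h1 : a.norm = π.1.norm * b.norm := by rw [hb, norm_mul]
  have h2 := norm_pos ha
  have h3 := norm_nonneg π.1
  have h4 := norm_nonneg b
  show π.1.norm ≤ a.norm
  have h5 : 0 < b.norm := by
    rcases h4.eq_or_lt with h | h
    · rw [← h, mul_zero] at h1
      omega
    · exact h
  nlinarith

theorem not_three (π : PP) : ¬ π.1 ∣ 3 := by
  intro h
  have h1 := (dvd_three_iff π.2.1).1 h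
  have h2 := lam_dvd_iff.1 h1.symm.dvd
  have h3 := π.2.2.1
  have h4 := π.2.2.2
  omega

theorem conj_mem (π : PP) : ∃ π' : PP, π'.1 = conj π.1 := by
  have h3 := π.2.2.1
  have h4 := π.2.2.2
  refine ⟨⟨conj π.1, prime_conj π.2.1, ?_, ?_⟩, rfl⟩
  · rw [conj_re]
    omega
  · rw [conj_im]
    exact (dvd_neg).2 h4

theorem inert_mem {q : ℕ} (hq : q.Prime) (h : q % 3 = 2) : ∃ π : PP, π.1 = (q : Eis) := by
  refine ⟨⟨(q : Eis), prime_inert hq h, ?_, ?_⟩, rfl⟩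
  · rw [natCast_re]
    omega
  · rw [natCast_im]
    exact dvd_zero _

theorem classify (π : PP) : ∃ p : ℕ, p.Prime ∧ ((p % 3 = 2 ∧ π.1 = (p : Eis)) ∨
    (p % 3 = 1 ∧ π.1.norm = p ∧ (p : Eis) = π.1 * conj π.1 ∧ ¬ Associated π.1 (conj π.1))) := by
  obtain ⟨q, hq, hlq, _⟩ := exists_rational_prime π.2.1
  refine ⟨q, hq, ?_⟩
  have h0 : q % 3 ≠ 0 := by
    intro h
    have h1 : 3 ∣ q := Nat.dvd_of_mod_eq_zero h
    have h2 : 3 = q := (Nat.prime_dvd_prime_iff_eq Nat.prime_three hq).1 h1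
    apply not_three π
    rw [← h2] at hlq
    exact hlq
  have h1 : q % 3 = 1 ∨ q % 3 = 2 := by omega
  rcases h1 with h1 | h1
  · right
    have : Fact q.Prime := ⟨hq⟩
    obtain ⟨π0, hπ0, _⟩ := exists_pi hq h1
    have h2 := (norm_of_dvd_p hπ0 π.2.1 hlq).1
    exact ⟨h1, h2, (mul_conj_p h2).symm, fun h => not_dvd_conj h1 h2 h.dvd⟩
  · left
    refine ⟨h1, ?_⟩
    obtain ⟨π', hπ'⟩ := inert_mem hq h1
    have h2 : Associated π.1 π'.1 := by
      rw [hπ']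
      exact π.2.1.associated_of_dvd (prime_inert hq h1) hlq
    rw [unique π π' h2, hπ']

end SPP

theorem SPP_thm : SPP :=
  ⟨fun _ hl h3 => SPP.exists_assoc hl h3, SPP.unique, fun _ ha => SPP.finite_dvd ha,
    fun π => ⟨SPP.not_three π, SPP.conj_mem π⟩, fun _ hq h => SPP.inert_mem hq h, SPP.classify⟩

end Pool.Agent.PT

end

section

/-!
# ROOT: independence of the cube root
-/

namespace Pool.Agent.PT

open Pool.Agent.Lib_helper18 Pool.Agent.Lib_helper18.Eis Pool.Agent.Lib_helper84.Cub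

namespace ROOT

theorem pow_dvd_iff {π a : Eis} (hπ : Prime π) (ha : a ≠ 0) (k : ℕ) : π ^ k ∣ a ↔ k ≤ V π a :=
  (fin hπ ha).pow_dvd_iff_le_multiplicity

theorem pig {π a b c : Eis} (hπ : Prime π) {M : ℕ} (h : π ^ (3 * M) ∣ a * b * c) :
    π ^ M ∣ a ∨ π ^ M ∣ b ∨ π ^ M ∣ c := by
  by_cases ha : a = 0
  · exact Or.inl (ha ▸ dvd_zero _)
  by_cases hb : b = 0
  · exact Or.inr (Or.inl (hb ▸ dvd_zero _))
  by_cases hc : c = 0
  · exact Or.inr (Or.inr (hc ▸ dvd_zero _))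
  rw [pow_dvd_iff hπ (mul_ne_zero (mul_ne_zero ha hb) hc), V_mul hπ (mul_ne_zero ha hb) hc,
    V_mul hπ ha hb] at h
  rw [pow_dvd_iff hπ ha, pow_dvd_iff hπ hb, pow_dvd_iff hπ hc]
  omega

theorem close {π P Q : Eis} (hπ : Prime π) {N : ℕ} (h : π ^ N ∣ P - Q) (hQ : Q ≠ 0)
    (hN : V π Q < N) : P ≠ 0 ∧ V π P ≤ V π Q := by
  have h1 : ¬ π ^ N ∣ P := by
    intro h2
    have h3 : π ^ N ∣ Q := by
      have h4 := dvd_sub h2 h
      rwa [sub_sub_cancel] at h4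
    rw [pow_dvd_iff hπ hQ] at h3
    omega
  have hP : P ≠ 0 := by
    rintro rfl
    exact h1 (dvd_zero _)
  refine ⟨hP, ?_⟩
  rw [pow_dvd_iff hπ hP, not_le] at h1
  rw [← pow_dvd_iff hπ hQ]
  have h2 : π ^ V π P ∣ P := (pow_dvd_iff hπ hP _).mpr le_rfl
  have h3 : π ^ V π P ∣ P - Q := (pow_dvd_pow π h1.le).trans h
  have h4 := dvd_sub h2 h3
  rwa [sub_sub_cancel] at h4

theorem prod_eq (p q r : ℤ) :
    Lf p q 0 r * Lf p q 1 r * Lf p q 2 r = ((p ^ 3 + q ^ 3 * r ^ 3 : ℤ) : Eis) := by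
  unfold Lf
  push_cast
  have h1 := w_rel
  have h2 := w_cube
  linear_combination ((p : Eis) ^ 2 * q * r + (p : Eis) * q ^ 2 * r ^ 2 * w) * h1 +
    (((q : Eis) * r) ^ 3) * h2

theorem Lf_add_three (p q r : ℤ) (j : ℕ) : Lf p q (j + 3) r = Lf p q j r := by
  unfold Lf
  rw [pow_add, w_cube, mul_one]

theorem prod_sub {π : Eis} {b r : ℤ} {N : ℕ} (h : π ^ N ∣ (r : Eis) ^ 3 - (b : Eis)) (p q : ℤ) :
    π ^ N ∣ Lf p q 0 r * Lf p q 1 r * Lf p q 2 r - ((p ^ 3 + b * q ^ 3 : ℤ) : Eis) := by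
  rw [prod_eq]
  have e : ((p ^ 3 + q ^ 3 * r ^ 3 : ℤ) : Eis) - ((p ^ 3 + b * q ^ 3 : ℤ) : Eis) =
      ((r : Eis) ^ 3 - (b : Eis)) * (q : Eis) ^ 3 := by
    push_cast
    ring
  rw [e]
  exact Dvd.dvd.mul_right h _

theorem lin {π : Eis} (hπ : Prime π) {b r : ℤ} {N : ℕ} (h : π ^ N ∣ (r : Eis) ^ 3 - (b : Eis))
    (p q : ℤ) (h0 : ((p ^ 3 + b * q ^ 3 : ℤ) : Eis) ≠ 0)
    (hN : V π ((p ^ 3 + b * q ^ 3 : ℤ) : Eis) < N) :
    ∀ j < 3, Lf p q j r ≠ 0 ∧ V π (Lf p q j r) ≤ V π ((p ^ 3 + b * q ^ 3 : ℤ) : Eis) := by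
  obtain ⟨h1, h2⟩ := close hπ (prod_sub h p q) h0 hN
  have h3 := mul_ne_zero_iff.mp h1
  have h4 := mul_ne_zero_iff.mp h3.1
  rw [V_mul hπ h3.1 h3.2, V_mul hπ h4.1 h4.2] at h2
  intro j hj
  interval_cases j
  · exact ⟨h4.1, by omega⟩
  · exact ⟨h4.2, by omega⟩
  · exact ⟨h3.2, by omega⟩

section

variable {π : Eis} {s : Eis → Eis → ZMod 3} {e : ℕ}

theorem cont' (hs : LSym π s e) {a a' B : Eis} (hB : B ≠ 0) (ha : a ≠ 0) (ha' : a' ≠ 0)
    (h : π ^ (V π a + e) ∣ a' - a) : s B a' = s B a := by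
  rw [hs.skew a' B ha' hB, hs.skew a B ha hB, hs.cont a a' B ha hB h]

theorem mul' (hs : LSym π s e) {a c B : Eis} (hB : B ≠ 0) (ha : a ≠ 0) (hc : c ≠ 0) :
    s B (a * c) = s B a + s B c := by
  rw [hs.skew (a * c) B (mul_ne_zero ha hc) hB, hs.skew a B ha hB, hs.skew c B hc hB,
    hs.mul a c B ha hc hB]
  ring

theorem sum_eq (hs : LSym π s e) {B : Eis} (hB : B ≠ 0) {b r : ℤ} {N : ℕ}
    (h : π ^ N ∣ (r : Eis) ^ 3 - (b : Eis)) (p q : ℤ) (h0 : ((p ^ 3 + b * q ^ 3 : ℤ) : Eis) ≠ 0)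
    (hN : V π ((p ^ 3 + b * q ^ 3 : ℤ) : Eis) + e < N) :
    s B (Lf p q 0 r) + s B (Lf p q 1 r) + s B (Lf p q 2 r) =
      s B ((p ^ 3 + b * q ^ 3 : ℤ) : Eis) := by
  have h1 := lin hs.prime h p q h0 (by omega)
  have n0 := (h1 0 (by norm_num)).1
  have n1 := (h1 1 (by norm_num)).1
  have n2 := (h1 2 (by norm_num)).1
  rw [← mul' hs hB n0 n1, ← mul' hs hB (mul_ne_zero n0 n1) n2]
  exact cont' hs hB h0 (mul_ne_zero (mul_ne_zero n0 n1) n2)
    ((pow_dvd_pow π hN.le).trans (prod_sub h p q))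

theorem shift (hs : LSym π s e) {B : Eis} (hB : B ≠ 0) {r r' : ℤ} {M : ℕ} {i j k : ℕ}
    (h : π ^ M ∣ (r' : Eis) - w ^ i * (r : Eis)) (p q : ℤ) (hk : Lf p q (j + i) r = Lf p q k r)
    (hne : Lf p q k r ≠ 0) (hne' : Lf p q j r' ≠ 0) (hM : V π (Lf p q k r) + e ≤ M) :
    s B (Lf p q j r') = s B (Lf p q k r) := by
  refine cont' hs hB hne hne' ((pow_dvd_pow π hM).trans ?_)
  rw [← hk]
  have e1 : Lf p q j r' - Lf p q (j + i) r = ((r' : Eis) - w ^ i * (r : Eis)) * (q * w ^ j) := by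
    unfold Lf
    rw [pow_add]
    ring
  rw [e1]
  exact Dvd.dvd.mul_right h _

end

end ROOT

open _root_.Pool.Agent.PT.ROOT in
theorem ROOT_thm : ROOT := by
  intro π s e hs b x p q p' q' B hb hx hW hB hBx
  have n1Z : p ^ 3 + b * q ^ 3 ≠ 0 := hW.n1
  have n2Z : p' ^ 3 + b * q' ^ 3 ≠ 0 := by
    intro h
    apply n1Z
    rw [hW.eq, h, mul_zero]
  have cast_ne : ∀ z : ℤ, z ≠ 0 → (z : Eis) ≠ 0 := fun z hz h => hz (by simpa using congrArg Eis.re h)
  have n1 := cast_ne _ n1Z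
  have n2 := cast_ne _ n2Z
  set v1 := V π ((p ^ 3 + b * q ^ 3 : ℤ) : Eis) with hv1
  set v2 := V π ((p' ^ 3 + b * q' ^ 3 : ℤ) : Eis) with hv2
  set M := v1 + v2 + e + 1 with hM
  refine ⟨3 * M, fun r r' hr hr' => ?_⟩
  have L := lin hs.prime hr p q n1 (by omega)
  have L' := lin hs.prime hr p' q' n2 (by omega)
  have K := lin hs.prime hr' p q n1 (by omega)
  have K' := lin hs.prime hr' p' q' n2 (by omega)
  have hS := sum_eq hs hB hr p q n1 (by omega)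
  have hS' := sum_eq hs hB hr p' q' n2 (by omega)
  have hprod : s B ((p ^ 3 + b * q ^ 3 : ℤ) : Eis) = s B ((p' ^ 3 + b * q' ^ 3 : ℤ) : Eis) := by
    have h1 : ((p ^ 3 + b * q ^ 3 : ℤ) : Eis) = (x : Eis) * ((p' ^ 3 + b * q' ^ 3 : ℤ) : Eis) := by
      rw [hW.eq]
      push_cast
      ring
    rw [h1, mul' hs hB (cast_ne x hx) n2, hBx, zero_add]
  rw [hprod, ← hS'] at hS
  have h3 : (3 : ZMod 3) = 0 := by decide
  have hdiv : π ^ (3 * M) ∣ ((r' : Eis) - w ^ 0 * r) * ((r' : Eis) - w ^ 1 * r) *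
      ((r' : Eis) - w ^ 2 * r) := by
    have e1 : ((r' : Eis) - w ^ 0 * r) * ((r' : Eis) - w ^ 1 * r) * ((r' : Eis) - w ^ 2 * r) =
        ((r' : Eis) ^ 3 - b) - ((r : Eis) ^ 3 - b) := by
      have h1 := w_rel
      have h2 := w_cube
      linear_combination (-(r' : Eis) ^ 2 * r + (r' : Eis) * r ^ 2 * w) * h1 -
        ((r : Eis) ^ 3) * h2
    rw [e1]
    exact dvd_sub hr' hr
  have b0 := (L 0 (by norm_num)).2
  have b1 := (L 1 (by norm_num)).2
  have b2 := (L 2 (by norm_num)).2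
  have c0 := (L' 0 (by norm_num)).2
  have c1 := (L' 1 (by norm_num)).2
  have c2 := (L' 2 (by norm_num)).2
  rcases pig hs.prime hdiv with h | h | h
  · have e1 := shift hs hB h p q (j := 2) (k := 2) rfl (L 2 (by norm_num)).1
      (K 2 (by norm_num)).1 (by omega)
    have e2 := shift hs hB h p' q' (j := 1) (k := 1) rfl (L' 1 (by norm_num)).1
      (K' 1 (by norm_num)).1 (by omega)
    have e3 := shift hs hB h p q (j := 1) (k := 1) rfl (L 1 (by norm_num)).1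
      (K 1 (by norm_num)).1 (by omega)
    have e4 := shift hs hB h p' q' (j := 2) (k := 2) rfl (L' 2 (by norm_num)).1
      (K' 2 (by norm_num)).1 (by omega)
    unfold AS
    rw [e1, e2, e3, e4]
  · have e1 := shift hs hB h p q (j := 2) (k := 0) (Lf_add_three p q r 0)
      (L 0 (by norm_num)).1 (K 2 (by norm_num)).1 (by omega)
    have e2 := shift hs hB h p' q' (j := 1) (k := 2) rfl (L' 2 (by norm_num)).1
      (K' 1 (by norm_num)).1 (by omega)
    have e3 := shift hs hB h p q (j := 1) (k := 2) rfl (L 2 (by norm_num)).1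
      (K 1 (by norm_num)).1 (by omega)
    have e4 := shift hs hB h p' q' (j := 2) (k := 0) (Lf_add_three p' q' r 0)
      (L' 0 (by norm_num)).1 (K' 2 (by norm_num)).1 (by omega)
    unfold AS
    rw [e1, e2, e3, e4]
    linear_combination (-1 : ZMod 3) * hS + (s B (Lf p q 2 r) - s B (Lf p' q' 2 r)) * h3
  · have e1 := shift hs hB h p q (j := 2) (k := 1) (Lf_add_three p q r 1)
      (L 1 (by norm_num)).1 (K 2 (by norm_num)).1 (by omega)
    have e2 := shift hs hB h p' q' (j := 1) (k := 0) (Lf_add_three p' q' r 0)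
      (L' 0 (by norm_num)).1 (K' 1 (by norm_num)).1 (by omega)
    have e3 := shift hs hB h p q (j := 1) (k := 0) (Lf_add_three p q r 0)
      (L 0 (by norm_num)).1 (K 1 (by norm_num)).1 (by omega)
    have e4 := shift hs hB h p' q' (j := 2) (k := 1) (Lf_add_three p' q' r 1)
      (L' 1 (by norm_num)).1 (K' 2 (by norm_num)).1 (by omega)
    unfold AS
    rw [e1, e2, e3, e4]
    linear_combination hS + (s B (Lf p' q' 1 r) - s B (Lf p q 1 r)) * h3

end Pool.Agent.PT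

end

section

/-!
# Prime twists of rank zero: the value `AV`
-/

namespace Pool.Agent.PT

open Pool.Agent.Lib_helper18 Pool.Agent.Lib_helper18.Eis Pool.Agent.Lib_helper84.Cub

namespace AVV

theorem cast_ne {n : ℤ} (h : n ≠ 0) : (n : Eis) ≠ 0 := by
  intro h0
  apply h
  have h1 := congrArg Eis.re h0
  simpa using h1

/-- the symbol at a place is a symbol at its uniformizer -/
theorem lsym (hSTM : STM) (hSPP : SPP) (hSLC : SLC) (v : Pl) : ∃ e, LSym (uni v) (sy v) e := by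
  cases v with
  | none => exact ⟨4, hSLC⟩
  | some π => exact ⟨1, hSTM π.1 π.2.1 (hSPP.2.2.2.1 π).1⟩

end AVV

theorem AVV_thm (hSTM : STM) (hSPP : SPP) (hSLC : SLC) (hROOT : ROOT) : AVV := by
  intro v B b x p q p' q' hB hb hx hsol hs hlc
  obtain ⟨e, he⟩ := AVV.lsym hSTM hSPP hSLC v
  obtain ⟨N0, hN0⟩ := hROOT (uni v) (sy v) e he b x p q p' q' (B : Eis) hb hx hsol
    (AVV.cast_ne hB) hs
  obtain ⟨r0, hr0⟩ := hlc N0
  have h : ∃ c : ZMod 3, ∃ N0 : ℕ, ∀ r : ℤ, uni v ^ N0 ∣ (r : Eis) ^ 3 - (b : Eis) →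
      AS (sy v) (B : Eis) p q p' q' r = c :=
    ⟨AS (sy v) (B : Eis) p q p' q' r0, N0, fun r hr => hN0 r r0 hr hr0⟩
  have hav : AV v B b p q p' q' = h.choose := by
    unfold AV
    rw [dif_pos h]
  have h1 : ∃ N0 : ℕ, ∀ r : ℤ, uni v ^ N0 ∣ (r : Eis) ^ 3 - (b : Eis) →
      AS (sy v) (B : Eis) p q p' q' r = AV v B b p q p' q' := by
    rw [hav]
    exact h.choose_spec
  refine ⟨h1, fun c N hN => ?_⟩
  obtain ⟨M, hM⟩ := h1
  obtain ⟨r, hr⟩ := hlc (max M N)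
  rw [← hM r ((pow_dvd_pow _ (le_max_left M N)).trans hr),
    hN r ((pow_dvd_pow _ (le_max_right M N)).trans hr)]

end Pool.Agent.PT

end

section

/-!
# The symbol of `F_1 / F_2` and `n_0`
-/

namespace Pool.Agent.PT

open Pool.Agent.Lib_helper18 Pool.Agent.Lib_helper18.Eis Pool.Agent.Lib_helper84.Cub

namespace IF4B

theorem not_dvd {π a : Eis} (hπ : Prime π) (ha : a ≠ 0) {N : ℕ} (hN : V π a < N) :
    ¬ π ^ N ∣ a := by
  intro h
  have h1 := (fin hπ ha).le_multiplicity_of_pow_dvd h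
  exact absurd h1 (by
    change ¬ N ≤ V π a
    omega)

theorem w_pow (i : ℕ) : w ^ i = w ^ (i % 3) := by
  conv_lhs => rw [← Nat.div_add_mod i 3, pow_add, pow_mul, w_cube, one_pow, one_mul]

theorem prod_eq (X ξ Y : Eis) : (X + w ^ 0 * ξ * Y) * (X + w ^ 1 * ξ * Y) * (X + w ^ 2 * ξ * Y) =
    X ^ 3 + ξ ^ 3 * Y ^ 3 := by
  have h1 := w_rel
  have h2 := w_cube
  linear_combination (X ^ 2 * ξ * Y + X * ξ ^ 2 * Y ^ 2) * h1 +
    (X * ξ ^ 2 * Y ^ 2 + ξ ^ 3 * Y ^ 3) * h2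

end IF4B

open _root_.Pool.Agent.PT.IF4B

theorem IF4B_thm (hSTAR : STAR) : IF4B := by
  intro π s e hs x X Y hx _ _ hn
  have hn' : ((X ^ 3 + x * Y ^ 3 : ℤ) : Eis) ≠ 0 := by
    intro h
    have h1 := congrArg Eis.re h
    rw [intCast_re] at h1
    exact hn h1
  have hx' : (x : Eis) ≠ 0 := by
    intro h
    have h1 := congrArg Eis.re h
    rw [intCast_re] at h1
    exact hx h1
  have hw : w ≠ 0 := by
    intro h
    have h1 := congrArg Eis.im h
    simp at h1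
  set n0 : Eis := ((X ^ 3 + x * Y ^ 3 : ℤ) : Eis) with hn0
  refine ⟨V π n0 + V π (x : Eis) + e + 1, fun ξ hξ => ?_⟩
  have hξ0 : (ξ : Eis) ≠ 0 := by
    intro h
    rw [h] at hξ
    refine not_dvd hs.prime hx' (N := V π n0 + V π (x : Eis) + e + 1) (by omega) ?_
    have h1 : (0 : Eis) ^ 3 - (x : Eis) = -(x : Eis) := by ring
    rw [h1, dvd_neg] at hξ
    exact hξ
  have hprod := prod_eq (X : Eis) (ξ : Eis) (Y : Eis)
  have hdvd : π ^ (V π n0 + V π (x : Eis) + e + 1) ∣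
      (X : Eis) ^ 3 + (ξ : Eis) ^ 3 * (Y : Eis) ^ 3 - n0 := by
    have h1 : (X : Eis) ^ 3 + (ξ : Eis) ^ 3 * (Y : Eis) ^ 3 - n0 =
        ((ξ : Eis) ^ 3 - (x : Eis)) * (Y : Eis) ^ 3 := by
      rw [hn0]
      push_cast
      ring
    rw [h1]
    exact Dvd.dvd.mul_right hξ _
  have hne : (X : Eis) ^ 3 + (ξ : Eis) ^ 3 * (Y : Eis) ^ 3 ≠ 0 := by
    intro h
    rw [h, zero_sub, dvd_neg] at hdvd
    exact not_dvd hs.prime hn' (by omega) hdvd
  set F : ℕ → Eis := fun i => (X : Eis) + w ^ i * (ξ : Eis) * (Y : Eis) with hF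
  have hF3 : F 0 * F 1 * F 2 = (X : Eis) ^ 3 + (ξ : Eis) ^ 3 * (Y : Eis) ^ 3 := hprod
  have hF0 : F 0 ≠ 0 := by
    intro h
    rw [h, zero_mul, zero_mul] at hF3
    exact hne hF3.symm
  have hF1 : F 1 ≠ 0 := by
    intro h
    rw [h, mul_zero, zero_mul] at hF3
    exact hne hF3.symm
  have hF2 : F 2 ≠ 0 := by
    intro h
    rw [h, mul_zero] at hF3
    exact hne hF3.symm
  have hFi : ∀ i, F i ≠ 0 := by
    intro i
    have h1 : F i = F (i % 3) := by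
      simp only [hF]
      rw [w_pow i]
    rw [h1]
    have h2 : i % 3 < 3 := Nat.mod_lt _ (by norm_num)
    interval_cases i % 3
    · exact hF0
    · exact hF1
    · exact hF2
  have h1 := (hSTAR π s e hs (X : Eis) (Y : Eis) 0 0 (ξ : Eis) F (fun _ => 0) (fun _ => 0)
    (fun _ => rfl) (fun i => by simp) (fun i => by simp) hξ0 hFi).1
  have hcont : ∀ b : Eis, b ≠ 0 → s b (F 0 * F 1 * F 2) = s b n0 := by
    intro b hb
    rw [hs.skew _ b (hF3 ▸ hne) hb, hs.skew n0 b hn' hb, hF3]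
    congr 1
    refine hs.cont n0 _ b hn' hb ((pow_dvd_pow π ?_).trans hdvd)
    omega
  rw [hcont _ hF1, hcont _ hF2, hcont _ hw] at h1
  have h2 : ∀ i, Lf X Y i ξ = F i := by
    intro i
    simp only [Lf, hF]
    ring
  rw [h2, h2]
  exact h1

end Pool.Agent.PT

end
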