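import Mathlib
import Pool.Agent.PTWX.C15

/-! Parts: PT.Stmts4, PT.TTH, PTE.Stmts, PT3.Stmts, PT3.TPT, PT.FINA, PTE.DSUM, PT.EADM, PT.MAINT, PTE.CLSCS, PTE.SPLT, PT.GALD, PT.SING, PT.SREC, PTE.EADMS, PT.SCJ, PT.SSL, PT3.TTHT, PT3.EDC, PTE.GKUM, PT3.LPT -/

namespace Pool.Agent.PTE
end Pool.Agent.PTE

namespace Pool.Agent.PTE.DSUM
end Pool.Agent.PTE.DSUM

namespace Pool.Agent.PT.EADM
end Pool.Agent.PT.EADM

namespace Pool.Agent.PTE.CLSCS
end Pool.Agent.PTE.CLSCS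

namespace Pool.Agent.PT.GALD
end Pool.Agent.PT.GALD

namespace Pool.Agent.PT.SREC
end Pool.Agent.PT.SREC

namespace Pool.Agent.PT.SCJ
end Pool.Agent.PT.SCJ

namespace Pool.Agent.PT.SSL
end Pool.Agent.PT.SSL

namespace Pool.Agent.PT.TTH
end Pool.Agent.PT.TTH

namespace Pool.Agent.PT3.LPT
end Pool.Agent.PT3.LPT

section

/-!
# Prime twists of rank zero: statements, part 4 (the governing field, densities, final assembly)
-/

open NumberField IsDedekindDomain Finset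
open scoped nonZeroDivisors Pointwise

namespace Pool.Agent.PT

open Pool.Agent.Lib_helper18 Pool.Agent.Lib_helper18.Eis Pool.Agent.Lib_helper84.Cub

/-! ### Dependence of the pairing on the prime -/

/-- The cubic residue symbol modulo the prime `Q` of
`[(p + q w^2 r)(p' + q' w r)] / [(p + q w r)(p' + q' w^2 r)]`. -/
noncomputable def TAUV (Q : ℕ) (p q p' q' r : ℤ) : ZMod 3 :=
  sym (Q : Eis) (Lf p q 2 r) + sym (Q : Eis) (Lf p' q' 1 r) -
    sym (Q : Eis) (Lf p q 1 r) - sym (Q : Eis) (Lf p' q' 2 r)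

/-- DCONST: the pairing `O_{nQ}(b, η)` as a function of the prime `Q`. -/
def DCONST : Prop := ∀ (n : ℕ) (b x p q p' q' : ℤ), 0 < n → ¬ 3 ∣ n → Sol b x p q p' q' →
  b ≠ 0 → x ≠ 0 → ∃ f₀ : ℕ, 0 < f₀ ∧ ∀ f : ℕ, 0 < f → f₀ ∣ f →
  ∃ (C : ZMod 3) (Φ : (ZMod f)ˣ →* Multiplicative (ZMod 3)) (N₀ : ℕ),
    ∀ (Q : ℕ) (hQ : Q.Coprime f), Q.Prime → N₀ < Q → Q % 3 = 2 →
      BOk ((n : ℤ) * Q) → Adm ((n : ℤ) * Q) b → Adm ((n : ℤ) * Q) x →
      ∀ r : ℤ, (Q : ℤ) ∣ r ^ 3 - b → OO ((n : ℤ) * Q) b x p q p' q' =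
        C + (Φ (ZMod.unitOfCoprime Q hQ)).toAdd - TAUV Q p q p' q' r

/-! ### The governing field -/

/-- `a` is `2` modulo `3`. -/
def M2 {f : ℕ} (a : (ZMod f)ˣ) : Prop := (a : ZMod f).val % 3 = 2

/-- the numerator of `α` -/
def aN {L : Type} [Field L] (ω : L) (p q p' q' : ℤ) (ρ : L) : L :=
  (p + q * ω ^ 2 * ρ) * (p' + q' * ω * ρ)

/-- the denominator of `α` -/
def aD {L : Type} [Field L] (ω : L) (p q p' q' : ℤ) (ρ : L) : L :=
  (p + q * ω * ρ) * (p' + q' * ω ^ 2 * ρ)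

/-- The governing field. -/
structure GovF {s : ℕ} (b : Fin s → ℤ) (p q p' q' : Fin s → Fin s → ℤ) (f : ℕ)
    (L : Type) [Field L] [NumberField L] (ζ ω : L) : Prop where
  gal : IsGalois ℚ L
  prim : IsPrimitiveRoot ζ f
  nine : 9 ∣ f
  hω : ω = ζ ^ (f / 3)
  rel : ω ^ 2 + ω + 1 = 0
  root : ∀ j, ∃ θ : L, θ ^ 3 = (b j : L)
  A : ∀ j i, j ≠ i → ∀ ρ : L, ρ ^ 3 = (b j : L) → ∃ A : L,
    A ^ 3 * aD ω (p j i) (q j i) (p' j i) (q' j i) ρ = aN ω (p j i) (q j i) (p' j i) (q' j i) ρ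
  D : ∀ j i, j ≠ i → ∀ ρ : L, ρ ^ 3 = (b j : L) →
    aD ω (p j i) (q j i) (p' j i) (q' j i) ρ ≠ 0 ∧ aN ω (p j i) (q j i) (p' j i) (q' j i) ρ ≠ 0

/-- GZERO: existence of the governing field. -/
def GZERO : Prop := ∀ (s : ℕ) (b : Fin s → ℤ) (p q p' q' : Fin s → Fin s → ℤ) (f : ℕ),
  Sys b p q p' q' → 0 < f → 9 ∣ f →
  ∃ (L : Type) (_ : Field L) (_ : NumberField L) (ζ ω : L), GovF b p q p' q' f L ζ ω

/-- GCHI: the cyclotomic character. -/
def GCHI : Prop := ∀ (L : Type) [Field L] [NumberField L] [IsGalois ℚ L] (f : ℕ) (ζ : L),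
  0 < f → IsPrimitiveRoot ζ f → ∃ χ : (L ≃ₐ[ℚ] L) →* (ZMod f)ˣ, Function.Surjective χ ∧
    (∀ g : L ≃ₐ[ℚ] L, g ζ = ζ ^ ((χ g : ZMod f)).val) ∧
    (∀ (Q : ℕ) (hQ : Q.Coprime f), Q.Prime → ∀ (P : Ideal (𝓞 L)) (φ : L ≃ₐ[ℚ] L), P.IsPrime →
      (Q : 𝓞 L) ∈ P → IsArithFrobAt ℤ φ P → χ φ = ZMod.unitOfCoprime Q hQ)

/-- GKI: an integer that is a cube in a cyclotomic field is a cube. -/
def GKI : Prop := ∀ (L : Type) [Field L] [NumberField L] (f : ℕ) (ζ β : L) (d : ℤ),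
  0 < f → ζ ^ f = 1 → β ∈ IntermediateField.adjoin ℚ {ζ} → β ^ 3 = (d : L) →
  ∃ t : ℤ, t ^ 3 = d

/-- The relation between `g` and `t = t_{ji}(g)`: `g A * A = ω^t` for all `A` with
`A^3 = α_{ji}(ρ)`, `ρ^3 = b_j`, `g ρ = ρ`. -/
def IsT {s : ℕ} (b : Fin s → ℤ) (p q p' q' : Fin s → Fin s → ℤ) {L : Type} [Field L]
    [NumberField L] (ω : L) (g : L ≃ₐ[ℚ] L) (j i : Fin s) (t : ZMod 3) : Prop :=
  ∀ ρ A : L, ρ ^ 3 = (b j : L) → g ρ = ρ →
    A ^ 3 * aD ω (p j i) (q j i) (p' j i) (q' j i) ρ = aN ω (p j i) (q j i) (p' j i) (q' j i) ρ →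
    g A * A = ω ^ t.val

/-- GT: existence, uniqueness and properties of `t`. -/
def GT : Prop := ∀ (s : ℕ) (b : Fin s → ℤ) (p q p' q' : Fin s → Fin s → ℤ) (f : ℕ)
  (L : Type) [Field L] [NumberField L] (ζ ω : L), Sys b p q p' q' → GovF b p q p' q' f L ζ ω →
  ∀ j i, j ≠ i →
  (∀ g : L ≃ₐ[ℚ] L, g ω = ω ^ 2 → ∃! t : ZMod 3, IsT b p q p' q' ω g j i t) ∧
  (∀ (g τ : L ≃ₐ[ℚ] L) (t : ZMod 3), g ω = ω ^ 2 → IsT b p q p' q' ω g j i t →
    IsT b p q p' q' ω (τ * g * τ⁻¹) j i t) ∧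
  (∀ (g : L ≃ₐ[ℚ] L) (t : ZMod 3) (k : ℕ), g ω = ω ^ 2 → Odd k → IsT b p q p' q' ω g j i t →
    IsT b p q p' q' ω (g ^ k) j i (k * t))

/-- GC: the commutators. -/
def GC : Prop := ∀ (s : ℕ) (b : Fin s → ℤ) (p q p' q' : Fin s → Fin s → ℤ) (f : ℕ)
  (L : Type) [Field L] [NumberField L] (ζ ω : L), Sys b p q p' q' → GovF b p q p' q' f L ζ ω →
  ∀ v : Fin s → Fin s → ZMod 3, ∃ z : L ≃ₐ[ℚ] L, z ζ = ζ ∧
    (∀ (j : Fin s) (ρ : L), ρ ^ 3 = (b j : L) → z ρ = ρ) ∧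
    ∀ j i, j < i → ∀ ρ A : L, ρ ^ 3 = (b j : L) →
      A ^ 3 * aD ω (p j i) (q j i) (p' j i) (q' j i) ρ =
        aN ω (p j i) (q j i) (p' j i) (q' j i) ρ →
      z A = ω ^ (v j i).val * A

/-- GFR: Frobenius elements and `t`. -/
def GFR : Prop := ∀ (s : ℕ) (b : Fin s → ℤ) (p q p' q' : Fin s → Fin s → ℤ) (f : ℕ)
  (L : Type) [Field L] [NumberField L] (ζ ω : L), Sys b p q p' q' → GovF b p q p' q' f L ζ ω →
  ∃ N₀ : ℕ, ∀ Q : ℕ, Q.Prime → N₀ < Q → ∀ (P : Ideal (𝓞 L)), P.IsPrime → (Q : 𝓞 L) ∈ P →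
    (∀ g : L ≃ₐ[ℚ] L, MulAction.stabilizer (L ≃ₐ[ℚ] L) P = Subgroup.zpowers g →
      ∃ k : ℕ, k.Coprime (orderOf g) ∧ IsArithFrobAt ℤ (g ^ k) P) ∧
    ∀ φ : L ≃ₐ[ℚ] L, IsArithFrobAt ℤ φ P → Q % 3 = 2 → φ ω = ω ^ 2 ∧
      ∀ j i, j ≠ i → ∀ (r : ℤ) (t : ZMod 3), (Q : ℤ) ∣ r ^ 3 - b j →
        IsT b p q p' q' ω φ j i t → t = TAUV Q (p j i) (q j i) (p' j i) (q' j i) r

/-- GALD: summary of the governing field. -/
def GALD : Prop := ∀ (s : ℕ) (b : Fin s → ℤ) (p q p' q' : Fin s → Fin s → ℤ) (f : ℕ),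
  Sys b p q p' q' → 0 < f → 9 ∣ f →
  ∃ (L : Type) (_ : Field L) (_ : NumberField L) (_ : IsGalois ℚ L)
    (χ : (L ≃ₐ[ℚ] L) →* (ZMod f)ˣ) (t : (L ≃ₐ[ℚ] L) → Fin s → Fin s → ZMod 3) (N₀ : ℕ),
    Function.Surjective χ ∧
    (∀ g τ : L ≃ₐ[ℚ] L, M2 (χ g) → ∀ j i, j ≠ i → t (τ * g * τ⁻¹) j i = t g j i) ∧
    (∀ (g : L ≃ₐ[ℚ] L) (k : ℕ), M2 (χ g) → Odd k → ∀ j i, j ≠ i → t (g ^ k) j i = k * t g j i) ∧
    (∀ (a : (ZMod f)ˣ) (v v' : Fin s → Fin s → ZMod 3), M2 a →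
      Nat.card {g : L ≃ₐ[ℚ] L // χ g = a ∧ ∀ j i, j < i → t g j i = v j i} =
        Nat.card {g : L ≃ₐ[ℚ] L // χ g = a ∧ ∀ j i, j < i → t g j i = v' j i}) ∧
    ∀ (Q : ℕ) (hQ : Q.Coprime f), Q.Prime → N₀ < Q → ∀ (P : Ideal (𝓞 L)) (g : L ≃ₐ[ℚ] L),
      P.IsPrime → (Q : 𝓞 L) ∈ P →
      MulAction.stabilizer (L ≃ₐ[ℚ] L) P = Subgroup.zpowers g →
      ∃ k : ℕ, k.Coprime (orderOf g) ∧ χ (g ^ k) = ZMod.unitOfCoprime Q hQ ∧
        (Q % 3 = 2 → ∀ j i, j ≠ i → ∀ r : ℤ, (Q : ℤ) ∣ r ^ 3 - b j →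
          t (g ^ k) j i = TAUV Q (p j i) (q j i) (p' j i) (q' j i) r)

/-! ### Counting and densities -/

/-- The alternating matrix with given entries above the diagonal. -/
def alt {s : ℕ} (v : Fin s → Fin s → ZMod 3) : Matrix (Fin s) (Fin s) (ZMod 3) := fun j i =>
  if j < i then v j i else if i < j then - v i j else 0

/-- SING: at most `3/8` of the alternating matrices of even size over `F_3` are singular. -/
def SING : Prop := ∀ s : ℕ, Even s →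
  8 * Nat.card {v : Fin s → Fin s → ZMod 3 // (alt v).det = 0} ≤
    3 * Nat.card (Fin s → Fin s → ZMod 3)

/-- DCNT: elements with singular matrix in a class of the Galois group. -/
def DCNT : Prop := ∀ (s f : ℕ) (G : Type) [Group G] [Finite G] (χ : G →* (ZMod f)ˣ)
  (t : G → Fin s → Fin s → ZMod 3), Even s → 0 < f → Function.Surjective χ →
  (∀ (a : (ZMod f)ˣ) (v v' : Fin s → Fin s → ZMod 3), M2 a →
    Nat.card {g : G // χ g = a ∧ ∀ j i, j < i → t g j i = v j i} =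
      Nat.card {g : G // χ g = a ∧ ∀ j i, j < i → t g j i = v' j i}) →
  ∀ (a : (ZMod f)ˣ) (C : Fin s → Fin s → ZMod 3), M2 a →
    8 * Nat.card {g : G // χ g = a ∧ (alt (C - t g)).det = 0} ≤
      3 * Nat.card {g : G // χ g = a} ∧
    8 * Nat.card {g : G // χ g = a ∧ (alt (C + t g)).det = 0} ≤
      3 * Nat.card {g : G // χ g = a} ∧
    Nat.card {g : G // χ g = a} * f.totient = Nat.card G

/-- DIR: upper bound for the number of primes in an arithmetic progression. -/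
def DIR : Prop := ∀ (f : ℕ) (a : (ZMod f)ˣ), 0 < f → ∃ C : ℝ, ∀ s : ℝ, 1 < s → s ≤ 2 →
  ∑' q : {q : ℕ // q.Prime ∧ (q : ZMod f) = a}, (q : ℝ) ^ (-s) ≤
    (1 / (f.totient : ℝ)) * Real.log (1 / (s - 1)) + C

/-- CLSC: the classes modulo `f` and their number. -/
def CLSC : Prop := ∀ (m : ℕ) (π : Fin m → PP) (p : Fin m → ℕ), (∀ i, (p i).Prime) →
  (∀ i, p i % 3 = 1) → (∀ i, (p i : Eis) = (π i).1 * conj (π i).1) → Function.Injective p →
  ∀ f : ℕ, 0 < f → 9 ∣ f → (∀ i, p i ∣ f) →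
  ∃ κ : (ZMod f)ˣ →* Multiplicative (Fin (m + 1) → ZMod 3),
    (∀ (Q : ℕ) (hQ : Q.Coprime f), (κ (ZMod.unitOfCoprime Q hQ)).toAdd =
      Fin.cons (wt ((Q : ℤ) ^ 2)) (fun i => sym (π i).1 (Q : Eis))) ∧
    ∀ c : Fin (m + 1) → ZMod 3,
      Nat.card {a : (ZMod f)ˣ // M2 a ∧ (κ a).toAdd = c} * (2 * 3 ^ (m + 1)) = f.totient

/-- DENS: the density of the primes with nonsingular matrix. -/
def DENS : Prop := ∀ (s : ℕ) (b : Fin s → ℤ) (p q p' q' : Fin s → Fin s → ℤ) (f m : ℕ)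
  (κ : (ZMod f)ˣ →* Multiplicative (Fin (m + 1) → ZMod 3)) (c : Fin (m + 1) → ZMod 3)
  (C : Fin s → Fin s → ZMod 3) (Φ : (ZMod f)ˣ →* Multiplicative (Fin s → Fin s → ZMod 3)),
  Sys b p q p' q' → Even s → 0 < f → 9 ∣ f →
  (∀ c : Fin (m + 1) → ZMod 3,
    Nat.card {a : (ZMod f)ˣ // M2 a ∧ (κ a).toAdd = c} * (2 * 3 ^ (m + 1)) = f.totient) →
  RI.DensityGE {Q : ℕ | ∃ hQ : Q.Coprime f, Q % 3 = 2 ∧
    (κ (ZMod.unitOfCoprime Q hQ)).toAdd = c ∧
    ∀ τ : Fin s → Fin s → ZMod 3,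
      (∀ j i, j ≠ i → ∀ r : ℤ, (Q : ℤ) ∣ r ^ 3 - b j →
        τ j i = TAUV Q (p j i) (q j i) (p' j i) (q' j i) r) →
      (alt (C + (Φ (ZMod.unitOfCoprime Q hQ)).toAdd - τ)).det ≠ 0}
    (1 / (24 * 3 ^ m))

/-- FINA: the theorem for numbers in normal form. -/
def FINA : Prop := ∀ (n m k : ℕ) (π : Fin m → PP) (p e : Fin m → ℕ) (r f : Fin k → ℕ),
  NF n π p e r f → (Even k ∨ ∃ j, r j % 9 = 2 ∨ r j % 9 = 5) →
  RI.DensityGE {q : ℕ | ¬ ∃ X Y : ℚ, X ^ 3 + Y ^ 3 = (n : ℚ) * q} (1 / (24 * 3 ^ m))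

/-- MAINT: the theorem. -/
def MAINT : Prop := ∀ n : ℕ, 0 < n → ¬ 3 ∣ n →
  (Even (Nat.card {p : ℕ // p.Prime ∧ p % 3 = 2 ∧ ¬ 3 ∣ n.factorization p}) ∨
    ∃ p : ℕ, p.Prime ∧ (p % 9 = 2 ∨ p % 9 = 5) ∧ ¬ 3 ∣ n.factorization p) →
  ∃ C : ℝ, ∀ s : ℝ, 1 < s → s ≤ 2 →
    1 / (24 * 3 ^ Nat.card {p : ℕ // p.Prime ∧ p % 3 = 1 ∧ ¬ 3 ∣ n.factorization p}) *
      Real.log (1 / (s - 1)) - C ≤
    ∑' q : {q : ℕ // q.Prime ∧ ¬ ∃ X Y : ℚ, X ^ 3 + Y ^ 3 = (n : ℚ) * q}, (q : ℝ) ^ (-s)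

end Pool.Agent.PT

end

section

/-!
# TTH: `O_B(b, b^(1/3)) = 0`
-/

namespace Pool.Agent.PT

open Pool.Agent.Lib_helper18 Pool.Agent.Lib_helper18.Eis Pool.Agent.Lib_helper84.Cub

namespace TTH

theorem cast_ne {n : ℤ} (hn : n ≠ 0) : (n : Eis) ≠ 0 := by
  intro h
  have h1 := congrArg Eis.re h
  rw [intCast_re] at h1
  exact hn h1

theorem w_ne : (w : Eis) ≠ 0 := by
  intro h
  have h1 := w_cube
  rw [h] at h1
  revert h1
  decide

theorem LSym.one_right {π : Eis} {s : Eis → Eis → ZMod 3} {e : ℕ} (hs : LSym π s e) {a : Eis}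
    (ha : a ≠ 0) : s a 1 = 0 := by
  have h1 := hs.mul 1 1 a one_ne_zero one_ne_zero ha
  have h2 := hs.skew 1 a one_ne_zero ha
  rw [one_mul] at h1
  have h3 : s 1 a = 0 := by linear_combination -h1
  rw [h2, h3, neg_zero]

theorem LSym.mul_right {π : Eis} {s : Eis → Eis → ZMod 3} {e : ℕ} (hs : LSym π s e) {a b c : Eis}
    (ha : a ≠ 0) (hb : b ≠ 0) (hc : c ≠ 0) : s a (b * c) = s a b + s a c := by
  have h1 := hs.mul b c a hb hc ha
  have h2 := hs.skew (b * c) a (mul_ne_zero hb hc) ha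
  have h3 := hs.skew b a hb ha
  have h4 := hs.skew c a hc ha
  rw [h2, h1, h3, h4]
  ring

theorem AS_val {π : Eis} {s : Eis → Eis → ZMod 3} {e : ℕ} (hs : LSym π s e) {B : Eis}
    (hB : B ≠ 0) {r : ℤ} (hr : (r : Eis) ≠ 0) : AS s B 0 1 1 0 r = - s w B := by
  have e1 : Lf 0 1 2 r = w * (w * (r : Eis)) := by
    unfold Lf
    push_cast
    ring
  have e2 : Lf 1 0 1 r = 1 := by
    unfold Lf
    push_cast
    ring
  have e3 : Lf 0 1 1 r = w * (r : Eis) := by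
    unfold Lf
    push_cast
    ring
  have e4 : Lf 1 0 2 r = 1 := by
    unfold Lf
    push_cast
    ring
  unfold AS
  rw [e1, e2, e3, e4, LSym.mul_right hs hB w_ne (mul_ne_zero w_ne hr), hs.skew w B w_ne hB]
  ring

theorem key3 : ∀ a b c : ZMod 3, (a + b = 0 → -(a * c) = a * c - b * c) := by decide

theorem key3' : ∀ a b c : ZMod 3, (a ≠ 0 → b ≠ 0 → a + b ≠ 0 → 0 = a * c - b * c) := by decide

theorem cast3 (n : ℕ) : (n : ZMod 3) = 0 ↔ 3 ∣ n := ZMod.natCast_eq_zero_iff n 3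

theorem local_eq (hSTM : STM) (hSPP : SPP) (hSLC : SLC) (hLCI : LCI) (hAVV : AVV) {B b : ℤ}
    (hB : BOk B) (hb : Adm B b) (h9 : C9 b) (v : Pl) :
    TT v B b b 0 1 1 0 = sy v w (b : Eis) - sy v w (B : Eis) := by
  have hB0 : (B : Eis) ≠ 0 := cast_ne hB.ne
  have hb0 : (b : Eis) ≠ 0 := cast_ne hb.ne
  have hsym : ∃ e, LSym (uni v) (sy v) e := by
    cases v with
    | none => exact ⟨4, hSLC⟩
    | some π => exact ⟨1, hSTM π.1 π.2.1 (hSPP.2.2.2.1 π).1⟩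
  obtain ⟨e, hs⟩ := hsym
  by_cases hLC : LC (uni v) b
  · have hBb : sy v (B : Eis) (b : Eis) = 0 := by
      rw [hs.skew _ _ hb0 hB0]
      cases v with
      | none =>
        change - sl (b : Eis) (B : Eis) = 0
        unfold sl
        have h0 : (fun π : PP => tm π.1 (b : Eis) (B : Eis)) = fun _ => 0 := by
          funext π
          exact hb.sym π
        rw [h0, finsum_zero, neg_zero, neg_zero]
      | some π =>
        change - tm π.1 (b : Eis) (B : Eis) = 0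
        rw [hb.sym π, neg_zero]
    have hSol : SolW b b 0 1 1 0 := ⟨by ring, by simpa using hb.ne⟩
    have hAV := (hAVV v B b b 0 1 1 0 hB.ne hb.ne hb.ne hSol hBb hLC).2 (- sy v w (B : Eis))
      (V (uni v) (b : Eis) + 1) (by
        intro r hr
        refine AS_val hs hB0 ?_
        intro hr0
        rw [hr0, zero_pow three_ne_zero, zero_sub, dvd_neg] at hr
        exact (fin hs.prime hb0).not_pow_dvd_of_multiplicity_lt (Nat.lt_succ_self _) hr)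
    have hwb : sy v w (b : Eis) = 0 := by
      have h1 := hLCI.2.2 (uni v) (sy v) e b w hs hLC hb.ne w_ne
      rw [hs.skew _ _ hb0 w_ne, h1, neg_zero]
    unfold TT
    rw [if_pos hLC, hAV, hwb]
    ring
  · cases v with
    | none => exact absurd ((hLCI.2.1 b hb.three).mpr h9) hLC
    | some π =>
      have hVw : V π.1 w = 0 := by
        rw [V_eq_zero_iff]
        intro h
        have h1 : π.1 ∣ w ^ 3 := dvd_pow h three_ne_zero
        rw [w_cube] at h1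
        exact π.2.1.not_isUnit (isUnit_of_dvd_one h1)
      have ht : ∀ x : Eis, tm π.1 w x = (V π.1 x : ZMod 3) * ch π.1 w := by
        intro x
        unfold tm
        rw [hVw]
        push_cast
        ring
      unfold TT
      rw [if_neg hLC]
      change (if 3 ∣ V π.1 (b : Eis) + V π.1 (B : Eis) ∧ ¬ 3 ∣ V π.1 (b : Eis)
        then - tm π.1 w (b : Eis) else 0) = tm π.1 w (b : Eis) - tm π.1 w (B : Eis)
      rw [ht, ht]
      by_cases hd : π.1 ∣ (B : Eis)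
      · have hV1 : V π.1 (B : Eis) ≠ 0 := by
          intro h
          exact (V_eq_zero_iff.mp h) hd
        have hV2 := hB.cf π
        have hVB : ¬ 3 ∣ V π.1 (B : Eis) := by omega
        have hVb : ¬ 3 ∣ V π.1 (b : Eis) := by
          intro h3
          apply hLC
          refine (hLCI.1 π b hb.ne).mpr ⟨h3, ?_⟩
          have h4 := hb.sym π
          unfold tm at h4
          rw [(cast3 _).mpr h3, zero_mul, sub_zero] at h4
          rcases mul_eq_zero.mp h4 with h5 | h5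
          · exact absurd ((cast3 _).mp h5) hVB
          · exact h5
        by_cases h6 : 3 ∣ V π.1 (b : Eis) + V π.1 (B : Eis)
        · rw [if_pos ⟨h6, hVb⟩]
          refine key3 _ _ _ ?_
          rw [← Nat.cast_add]
          exact (cast3 _).mpr h6
        · rw [if_neg (fun h => h6 h.1)]
          refine key3' _ _ _ ?_ ?_ ?_
          · exact fun h => hVb ((cast3 _).mp h)
          · exact fun h => hVB ((cast3 _).mp h)
          · rw [← Nat.cast_add]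
            exact fun h => h6 ((cast3 _).mp h)
      · have h1 : V π.1 (B : Eis) = 0 := V_eq_zero hd
        have h2 : V π.1 (b : Eis) = 0 := V_eq_zero (hb.unr π hd)
        rw [h1, h2, if_neg (fun h => h.2 (dvd_zero _))]
        push_cast
        ring

end TTH

/-- TTH. -/
theorem TTH_thm (hSTM : STM) (hSPP : SPP) (hSSL : SSL) (hSLC : SLC) (hSCJ : SCJ) (hLCI : LCI)
    (hAVV : AVV) (hLFIN : LFIN) : TTH := by
  intro B b hB hb h9
  have hB0 : (B : Eis) ≠ 0 := TTH.cast_ne hB.ne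
  have hb0 : (b : Eis) ≠ 0 := TTH.cast_ne hb.ne
  unfold OO
  have h1 : (fun v : Pl => TT v B b b 0 1 1 0) =
      fun v => sy v w (b : Eis) - sy v w (B : Eis) := by
    funext v
    exact TTH.local_eq hSTM hSPP hSLC hLCI hAVV hB hb h9 v
  rw [h1, finsum_sub_distrib (hSSL.2.2.2 w b TTH.w_ne hb0).1 (hSSL.2.2.2 w B TTH.w_ne hB0).1,
    (hSSL.2.2.2 w b TTH.w_ne hb0).2, (hSSL.2.2.2 w B TTH.w_ne hB0).2, sub_zero]

end Pool.Agent.PT

end

section

/-!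
# Prime twists of rank zero, every `n` prime to `3`: statements

Twists by primes `q = 1 (mod 3)`, `q = ρ conj ρ`, used when the number `k` of primes `= 2 (mod 3)`
dividing `n` is odd.
-/

open NumberField IsDedekindDomain Finset
open scoped nonZeroDivisors Pointwise

namespace Pool.Agent.PTE

open Pool.Agent.Lib_helper18 Pool.Agent.Lib_helper18.Eis Pool.Agent.Lib_helper84.Cub
open Pool.Agent.PT

/-! ### Arithmetic of `q = ρ conj ρ` -/

/-- SPLT: the primes `q = 1 (mod 3)`. -/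
def SPLT : Prop :=
  (∀ q : ℕ, q.Prime → q % 3 = 1 → ∃ ρ : PP, (q : Eis) = ρ.1 * conj ρ.1) ∧
  ∀ (q : ℕ) (ρ : PP), q.Prime → q % 3 = 1 → (q : Eis) = ρ.1 * conj ρ.1 →
    ¬ Associated ρ.1 (conj ρ.1) ∧ (∃ ρ' : PP, ρ'.1 = conj ρ.1) ∧
    (∀ σ : PP, σ.1 ∣ (q : Eis) → σ.1 = ρ.1 ∨ σ.1 = conj ρ.1) ∧
    (∀ x : ℤ, ρ.1 ∣ (x : Eis) ↔ (q : ℤ) ∣ x) ∧
    (∀ a : Eis, ¬ ρ.1 ∣ a → sym (conj ρ.1) (conj a) = - sym ρ.1 a) ∧
    (∀ x : ℤ, ¬ (q : ℤ) ∣ x → sym ρ.1 (x : Eis) = 0 → ∃ r : ℤ, (q : ℤ) ∣ r ^ 3 - x)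

/-- `q = 1 (mod 3)` is in the class `(w0, c)`. -/
def InClS {m : ℕ} (π : Fin m → PP) (w0 : ZMod 3) (c : Fin m → ZMod 3) (q : ℕ) : Prop :=
  q % 3 = 1 ∧ wt ((q : ℤ) ^ 2) = w0 ∧ ∀ i, sym (π i).1 (q : Eis) = c i

/-- HYPS: the minus part of the Selmer group of `n q` is trivial. -/
def HYPS : Prop := ∀ (n m k : ℕ) (π : Fin m → PP) (p e : Fin m → ℕ) (r f : Fin k → ℕ)
  (w0 : ZMod 3) (c : Fin m → ZMod 3) (q : ℕ) (ρ : PP) (y : ℤ), NF n π p e r f → q.Prime →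
  InClS π w0 c q → ¬ q ∣ n → (q : Eis) = ρ.1 * conj ρ.1 → wt ((n : ℤ) ^ 2) + w0 ≠ 0 →
  (Mp n π p e r none c).det ≠ 0 → AdmC n π w0 c y → sym ρ.1 (y : Eis) ≠ 0 →
  HypM ((n : ℤ) * q)

/-- EADMS: `AdmC` and `Adm`. -/
def EADMS : Prop := ∀ (n m k : ℕ) (π : Fin m → PP) (p e : Fin m → ℕ) (r f : Fin k → ℕ)
  (w0 : ZMod 3) (c : Fin m → ZMod 3) (q : ℕ) (ρ : PP), NF n π p e r f → q.Prime →
  InClS π w0 c q → ¬ q ∣ n → (q : Eis) = ρ.1 * conj ρ.1 →
  BOk ((n : ℤ) * q) ∧ ∀ x : ℤ, (∀ l : ℕ, l.Prime → (l : ℤ) ∣ x → l ∣ n) →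
    ((AdmC n π w0 c x ∧ sym ρ.1 (x : Eis) = 0) ↔ Adm ((n : ℤ) * q) x)

/-- FD2S: the class of a point; the prime `q` can be put into the last cell. -/
def FD2S : Prop := ∀ (n q : ℕ) (a x : Fin 3 → ℤ), q.Prime → q % 3 = 1 → ¬ q ∣ n → 0 < n →
  BOk ((n : ℤ) * q) → Cell ((n : ℤ) * q) a x →
  ∃ z X Y : ℤ, Pt ((n : ℤ) * q) z X Y ∧ Adm ((n : ℤ) * q) z ∧
    (∀ l : ℕ, l.Prime → (l : ℤ) ∣ z → l ∣ n) ∧ ¬ ∃ t : ℤ, t ^ 3 = z

/-! ### Hyperplanes -/

/-- EHPL: bases of the admissible classes adapted to a hyperplane. -/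
def EHPL : Prop := ∀ (n m k : ℕ) (π : Fin m → PP) (p e : Fin m → ℕ) (r f : Fin k → ℕ)
  (w0 : ZMod 3) (c : Fin m → ZMod 3), NF n π p e r f → 0 < k →
  wt ((n : ℤ) ^ 2) + w0 ≠ 0 → (Mp n π p e r none c).det ≠ 0 →
  ∃ v : Fin k → ℤ, (∀ i, AdmC n π w0 c (v i)) ∧
    ∀ δ : Fin k → ZMod 3, δ ≠ 0 → ∃ (s : ℕ) (b : Fin (s + 1) → ℤ), s + 1 = k ∧
      (∀ i, AdmC n π w0 c (b i)) ∧ (∀ i (π : PP), V π.1 (b i : Eis) ≤ 2) ∧
      (∀ g : Fin (s + 1) → ℕ, (∃ i, ¬ 3 ∣ g i) → ¬ ∃ t : ℤ, t ^ 3 = ∏ i, b i ^ g i) ∧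
      (∀ i j, i ≠ j → C9 (b i) ∨ C9 (b j)) ∧
      ∀ ρ : PP, ¬ ρ.1 ∣ (n : Eis) → (∀ i : Fin s, sym ρ.1 (b i.castSucc : Eis) = 0) →
        sym ρ.1 (b (Fin.last s) : Eis) ≠ 0 →
        (∃ ε : ZMod 3, ε ≠ 0 ∧ ∀ i, sym ρ.1 (v i : Eis) = ε * δ i) ∧
        ∀ x : ℤ, AdmC n π w0 c x → sym ρ.1 (x : Eis) = 0 → ∃ (g : Fin s → ℕ) (u t : ℤ),
          u ≠ 0 ∧ t ≠ 0 ∧ x * u ^ 3 = (∏ i, b i.castSucc ^ g i) * t ^ 3

/-- A system of classes, without the condition modulo `9`. -/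
structure SysG {s : ℕ} (b : Fin s → ℤ) (p q p' q' : Fin s → Fin s → ℤ) : Prop where
  ind : ∀ c : Fin s → ℕ, (∃ i, ¬ 3 ∣ c i) → ¬ ∃ t : ℤ, t ^ 3 = ∏ i, b i ^ c i
  sol : ∀ j i, j ≠ i → Sol (b j) (b i) (p j i) (q j i) (p' j i) (q' j i)

/-- the restriction of a matrix to the first `s` indices -/
def rs {s : ℕ} (P : Fin (s + 1) → Fin (s + 1) → ℤ) : Fin s → Fin s → ℤ :=
  fun j i => P j.castSucc i.castSucc

/-- the restriction of a vector to the first `s` indices -/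
def rv {s : ℕ} (b : Fin (s + 1) → ℤ) : Fin s → ℤ := fun j => b j.castSucc

/-- ECLS: the class and the systems. -/
def ECLS : Prop := ∀ (n m k : ℕ) (π : Fin m → PP) (p e : Fin m → ℕ) (r f : Fin k → ℕ),
  NF n π p e r f → Odd k →
  ∃ (w0 : ZMod 3) (c : Fin m → ZMod 3) (v : Fin k → ℤ), w0 ≠ 0 ∧
    (∀ i, v i ≠ 0 ∧ ∀ l : ℕ, l.Prime → (l : ℤ) ∣ v i → l ∣ n) ∧
    ∀ δ : Fin k → ZMod 3, δ ≠ 0 → ∃ (s : ℕ) (b : Fin (s + 1) → ℤ)
      (P Q P' Q' : Fin (s + 1) → Fin (s + 1) → ℤ), s + 1 = k ∧ SysG b P Q P' Q' ∧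
      (∀ i, b i ≠ 0) ∧
      (∀ ρ : PP, ¬ ρ.1 ∣ (n : Eis) → (∀ i : Fin s, sym ρ.1 (b i.castSucc : Eis) = 0) →
        sym ρ.1 (b (Fin.last s) : Eis) ≠ 0 →
        ∃ ε : ZMod 3, ε ≠ 0 ∧ ∀ i, sym ρ.1 (v i : Eis) = ε * δ i) ∧
      ∀ (q : ℕ) (ρ : PP), q.Prime → InClS π w0 c q → ¬ q ∣ n → 3 < q →
        (q : Eis) = ρ.1 * conj ρ.1 → (∀ i : Fin s, sym ρ.1 (b i.castSucc : Eis) = 0) →
        sym ρ.1 (b (Fin.last s) : Eis) ≠ 0 →
        BOk ((n : ℤ) * q) ∧ (∀ i : Fin s, Adm ((n : ℤ) * q) (b i.castSucc)) ∧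
        (∀ i j, Mat (rv b) (rs P) (rs Q) (rs P') (rs Q') ((n : ℤ) * q) i j =
          - Mat (rv b) (rs P) (rs Q) (rs P') (rs Q') ((n : ℤ) * q) j i) ∧
        ((∃ X Y : ℚ, X ^ 3 + Y ^ 3 = (n : ℚ) * q) →
          (Mat (rv b) (rs P) (rs Q) (rs P') (rs Q') ((n : ℤ) * q)).det = 0)

/-! ### Dependence of the pairing on the prime -/

/-- The cubic residue symbol modulo `ρ` of
`[(p + q w^2 r)(p' + q' w r)] / [(p + q w r)(p' + q' w^2 r)]`. -/
noncomputable def TAUVS (ρ : Eis) (p q p' q' r : ℤ) : ZMod 3 :=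
  sym ρ (Lf p q 2 r) + sym ρ (Lf p' q' 1 r) - sym ρ (Lf p q 1 r) - sym ρ (Lf p' q' 2 r)

/-- DCONSTS: the pairing `O_{nQ}(b, η)` as a function of the prime `Q = 1 (mod 3)`. -/
def DCONSTS : Prop := ∀ (n : ℕ) (b x p q p' q' : ℤ), 0 < n → ¬ 3 ∣ n → Sol b x p q p' q' →
  b ≠ 0 → x ≠ 0 → ∃ f₀ : ℕ, 0 < f₀ ∧ ∀ f : ℕ, 0 < f → f₀ ∣ f →
  ∃ (C : ZMod 3) (Φ : (ZMod f)ˣ →* Multiplicative (ZMod 3)) (N₀ : ℕ),
    ∀ (Q : ℕ) (hQ : Q.Coprime f) (ρ : PP), Q.Prime → N₀ < Q → Q % 3 = 1 →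
      (Q : Eis) = ρ.1 * conj ρ.1 →
      BOk ((n : ℤ) * Q) → Adm ((n : ℤ) * Q) b → Adm ((n : ℤ) * Q) x →
      ∀ r : ℤ, (Q : ℤ) ∣ r ^ 3 - b → OO ((n : ℤ) * Q) b x p q p' q' =
        C + (Φ (ZMod.unitOfCoprime Q hQ)).toAdd + TAUVS ρ.1 p q p' q' r

/-! ### The governing field -/

/-- `a` is `1` modulo `3`. -/
def M1 {f : ℕ} (a : (ZMod f)ˣ) : Prop := (a : ZMod f).val % 3 = 1

/-- GZEROG: existence of the governing field. -/
def GZEROG : Prop := ∀ (s : ℕ) (b : Fin s → ℤ) (p q p' q' : Fin s → Fin s → ℤ) (f : ℕ),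
  SysG b p q p' q' → 0 < f → 9 ∣ f →
  ∃ (L : Type) (_ : Field L) (_ : NumberField L) (ζ ω : L), GovF b p q p' q' f L ζ ω

/-- GCG: the commutators. -/
def GCG : Prop := ∀ (s : ℕ) (b : Fin s → ℤ) (p q p' q' : Fin s → Fin s → ℤ) (f : ℕ)
  (L : Type) [Field L] [NumberField L] (ζ ω : L), SysG b p q p' q' →
  GovF b p q p' q' f L ζ ω →
  ∀ v : Fin s → Fin s → ZMod 3, ∃ z : L ≃ₐ[ℚ] L, z ζ = ζ ∧
    (∀ (j : Fin s) (ρ : L), ρ ^ 3 = (b j : L) → z ρ = ρ) ∧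
    ∀ j i, j < i → ∀ ρ A : L, ρ ^ 3 = (b j : L) →
      A ^ 3 * aD ω (p j i) (q j i) (p' j i) (q' j i) ρ =
        aN ω (p j i) (q j i) (p' j i) (q' j i) ρ →
      z A = ω ^ (v j i).val * A

/-- GKUM: Kummer theory for the cube roots of the `b_j`. -/
def GKUM : Prop := ∀ (s : ℕ) (b : Fin s → ℤ) (p q p' q' : Fin s → Fin s → ℤ) (f : ℕ)
  (L : Type) [Field L] [NumberField L] (ζ ω : L), SysG b p q p' q' →
  GovF b p q p' q' f L ζ ω →
  ∀ v : Fin s → ZMod 3, ∃ z : L ≃ₐ[ℚ] L, z ζ = ζ ∧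
    ∀ (j : Fin s) (ρ : L), ρ ^ 3 = (b j : L) → z ρ = ω ^ (v j).val * ρ

/-- `g` fixes the cube roots of the first `s` numbers and moves those of the last one. -/
def Fx {s : ℕ} (b : Fin (s + 1) → ℤ) {L : Type} [Field L] [NumberField L] (g : L ≃ₐ[ℚ] L) :
    Prop :=
  (∀ (j : Fin s) (ρ : L), ρ ^ 3 = (b j.castSucc : L) → g ρ = ρ) ∧
  ∀ ρ : L, ρ ^ 3 = (b (Fin.last s) : L) → g ρ ≠ ρ

/-- The relation between `g` and `t = t_{ji}(g)`: `g A = ω^t A` for all `A` with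
`A^3 = α_{ji}(ρ)`, `ρ^3 = b_j`. -/
def IsTS {s : ℕ} (b : Fin s → ℤ) (p q p' q' : Fin s → Fin s → ℤ) {L : Type} [Field L]
    [NumberField L] (ω : L) (g : L ≃ₐ[ℚ] L) (j i : Fin s) (t : ZMod 3) : Prop :=
  ∀ ρ A : L, ρ ^ 3 = (b j : L) →
    A ^ 3 * aD ω (p j i) (q j i) (p' j i) (q' j i) ρ = aN ω (p j i) (q j i) (p' j i) (q' j i) ρ →
    g A = ω ^ t.val * A

/-- GTS: existence, uniqueness and properties of `t`. -/
def GTS : Prop := ∀ (s : ℕ) (b : Fin (s + 1) → ℤ) (p q p' q' : Fin (s + 1) → Fin (s + 1) → ℤ)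
  (f : ℕ) (L : Type) [Field L] [NumberField L] (ζ ω : L), SysG b p q p' q' →
  GovF b p q p' q' f L ζ ω →
  (∀ g : L ≃ₐ[ℚ] L, g ω = ω → Fx b g →
    3 ∣ orderOf g ∧ (∀ τ : L ≃ₐ[ℚ] L, (τ * g * τ⁻¹) ω = ω ∧ Fx b (τ * g * τ⁻¹)) ∧
    ∀ k : ℕ, (g ^ k) ω = ω ∧ (¬ 3 ∣ k → Fx b (g ^ k))) ∧
  ∀ j i : Fin s, j ≠ i →
  (∀ g : L ≃ₐ[ℚ] L, g ω = ω → Fx b g →
    ∃! t : ZMod 3, IsTS b p q p' q' ω g j.castSucc i.castSucc t) ∧
  (∀ (g τ : L ≃ₐ[ℚ] L) (t : ZMod 3), g ω = ω → Fx b g →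
    IsTS b p q p' q' ω g j.castSucc i.castSucc t →
    IsTS b p q p' q' ω (τ * g * τ⁻¹) j.castSucc i.castSucc t) ∧
  (∀ (g : L ≃ₐ[ℚ] L) (t : ZMod 3) (k : ℕ), g ω = ω →
    IsTS b p q p' q' ω g j.castSucc i.castSucc t →
    IsTS b p q p' q' ω (g ^ k) j.castSucc i.castSucc (k * t))

/-- GFRS: Frobenius elements and `t`. -/
def GFRS : Prop := ∀ (s : ℕ) (b : Fin (s + 1) → ℤ)
  (p q p' q' : Fin (s + 1) → Fin (s + 1) → ℤ) (f : ℕ)
  (L : Type) [Field L] [NumberField L] (ζ ω : L), SysG b p q p' q' →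
  GovF b p q p' q' f L ζ ω →
  ∃ N₀ : ℕ, ∀ Q : ℕ, Q.Prime → N₀ < Q → Q % 3 = 1 → ∀ (P : Ideal (𝓞 L)), P.IsPrime →
    (Q : 𝓞 L) ∈ P → ∀ φ : L ≃ₐ[ℚ] L, IsArithFrobAt ℤ φ P → Fx b φ →
    ∃ ρ : PP, (Q : Eis) = ρ.1 * conj ρ.1 ∧
      (∀ j : Fin s, sym ρ.1 (b j.castSucc : Eis) = 0) ∧ sym ρ.1 (b (Fin.last s) : Eis) ≠ 0 ∧
      ∀ j i : Fin s, j ≠ i → ∀ (r : ℤ) (t : ZMod 3), (Q : ℤ) ∣ r ^ 3 - b j.castSucc →
        IsTS b p q p' q' ω φ j.castSucc i.castSucc t →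
        t = TAUVS ρ.1 (rs p j i) (rs q j i) (rs p' j i) (rs q' j i) r

/-- GALDS: summary of the governing field. -/
def GALDS : Prop := ∀ (s : ℕ) (b : Fin (s + 1) → ℤ)
  (p q p' q' : Fin (s + 1) → Fin (s + 1) → ℤ) (f : ℕ), SysG b p q p' q' → 0 < f → 9 ∣ f →
  ∃ (L : Type) (_ : Field L) (_ : NumberField L) (_ : IsGalois ℚ L)
    (χ : (L ≃ₐ[ℚ] L) →* (ZMod f)ˣ) (F : (L ≃ₐ[ℚ] L) → Prop)
    (t : (L ≃ₐ[ℚ] L) → Fin s → Fin s → ZMod 3) (N₀ : ℕ),
    Function.Surjective χ ∧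
    (∀ g τ : L ≃ₐ[ℚ] L, M1 (χ g) → F g →
      F (τ * g * τ⁻¹) ∧ ∀ j i, j ≠ i → t (τ * g * τ⁻¹) j i = t g j i) ∧
    (∀ (g : L ≃ₐ[ℚ] L) (k : ℕ), M1 (χ g) → F g → ¬ 3 ∣ k →
      F (g ^ k) ∧ ∀ j i, j ≠ i → t (g ^ k) j i = k * t g j i) ∧
    (∀ (a : (ZMod f)ˣ) (v v' : Fin s → Fin s → ZMod 3), M1 a →
      Nat.card {g : L ≃ₐ[ℚ] L // χ g = a ∧ F g ∧ ∀ j i, j < i → t g j i = v j i} =
        Nat.card {g : L ≃ₐ[ℚ] L // χ g = a ∧ F g ∧ ∀ j i, j < i → t g j i = v' j i}) ∧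
    (∀ a : (ZMod f)ˣ, M1 a → 3 ^ (s + 1) * Nat.card {g : L ≃ₐ[ℚ] L // χ g = a ∧ F g} =
      2 * Nat.card {g : L ≃ₐ[ℚ] L // χ g = a}) ∧
    ∀ (Q : ℕ) (hQ : Q.Coprime f), Q.Prime → N₀ < Q →
      ∀ (P : Ideal (𝓞 L)) (g : L ≃ₐ[ℚ] L), P.IsPrime → (Q : 𝓞 L) ∈ P →
      MulAction.stabilizer (L ≃ₐ[ℚ] L) P = Subgroup.zpowers g → M1 (χ g) → F g →
      Q % 3 = 1 ∧ ∃ k : ℕ, k.Coprime (orderOf g) ∧ ¬ 3 ∣ k ∧
        χ (g ^ k) = ZMod.unitOfCoprime Q hQ ∧ ∃ ρ : PP, (Q : Eis) = ρ.1 * conj ρ.1 ∧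
          (∀ j : Fin s, sym ρ.1 (b j.castSucc : Eis) = 0) ∧
          sym ρ.1 (b (Fin.last s) : Eis) ≠ 0 ∧
          ∀ j i : Fin s, j ≠ i → ∀ r : ℤ, (Q : ℤ) ∣ r ^ 3 - b j.castSucc →
            t (g ^ k) j i = TAUVS ρ.1 (rs p j i) (rs q j i) (rs p' j i) (rs q' j i) r

/-! ### Counting and densities -/

/-- a lower bound for the proportion of the nonsingular alternating matrices of size `s` -/
noncomputable def rh (s : ℕ) : ℝ := if s = 0 then 1 else 5 / 8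

/-- DCNTS: elements with nonsingular matrix in a class of the Galois group. -/
def DCNTS : Prop := ∀ (s f : ℕ) (G : Type) [Group G] [Finite G] (χ : G →* (ZMod f)ˣ)
  (F : G → Prop) (t : G → Fin s → Fin s → ZMod 3), Even s → 0 < f → Function.Surjective χ →
  (∀ (a : (ZMod f)ˣ) (v v' : Fin s → Fin s → ZMod 3), M1 a →
    Nat.card {g : G // χ g = a ∧ F g ∧ ∀ j i, j < i → t g j i = v j i} =
      Nat.card {g : G // χ g = a ∧ F g ∧ ∀ j i, j < i → t g j i = v' j i}) →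
  (∀ a : (ZMod f)ˣ, M1 a → 3 ^ (s + 1) * Nat.card {g : G // χ g = a ∧ F g} =
    2 * Nat.card {g : G // χ g = a}) →
  ∀ (a : (ZMod f)ˣ) (C : Fin s → Fin s → ZMod 3), M1 a →
    rh s * (2 / 3 ^ (s + 1)) * ((Nat.card G : ℝ) / f.totient) ≤
      (Nat.card {g : G // χ g = a ∧ F g ∧ (alt (C + t g)).det ≠ 0} : ℝ) ∧
    rh s * (2 / 3 ^ (s + 1)) * ((Nat.card G : ℝ) / f.totient) ≤
      (Nat.card {g : G // χ g = a ∧ F g ∧ (alt (C - t g)).det ≠ 0} : ℝ)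

/-- CLSCS: the number of classes modulo `f`. -/
def CLSCS : Prop := ∀ (f m : ℕ) (κ : (ZMod f)ˣ →* Multiplicative (Fin (m + 1) → ZMod 3)),
  0 < f → 9 ∣ f →
  (∀ c : Fin (m + 1) → ZMod 3,
    Nat.card {a : (ZMod f)ˣ // M2 a ∧ (κ a).toAdd = c} * (2 * 3 ^ (m + 1)) = f.totient) →
  ∀ c : Fin (m + 1) → ZMod 3,
    Nat.card {a : (ZMod f)ˣ // M1 a ∧ (κ a).toAdd = c} * (2 * 3 ^ (m + 1)) = f.totient

/-- The prime `Q` has the class `c`, the first `s` numbers are cubes modulo `Q` and the last one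
is not. -/
def ClQ {s f m : ℕ} (b : Fin (s + 1) → ℤ)
    (κ : (ZMod f)ˣ →* Multiplicative (Fin (m + 1) → ZMod 3)) (c : Fin (m + 1) → ZMod 3) (Q : ℕ)
    (hQ : Q.Coprime f) (ρ : PP) : Prop :=
  Q % 3 = 1 ∧ (κ (ZMod.unitOfCoprime Q hQ)).toAdd = c ∧ (Q : Eis) = ρ.1 * conj ρ.1 ∧
    (∀ j : Fin s, sym ρ.1 (b j.castSucc : Eis) = 0) ∧ sym ρ.1 (b (Fin.last s) : Eis) ≠ 0

/-- The primes of the class `c` with nonsingular matrix. -/
def SSS {s f m : ℕ} (b : Fin (s + 1) → ℤ) (p q p' q' : Fin (s + 1) → Fin (s + 1) → ℤ)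
    (κ : (ZMod f)ˣ →* Multiplicative (Fin (m + 1) → ZMod 3)) (c : Fin (m + 1) → ZMod 3)
    (C : Fin s → Fin s → ZMod 3) (Φ : (ZMod f)ˣ →* Multiplicative (Fin s → Fin s → ZMod 3)) :
    Set ℕ :=
  {Q : ℕ | ∃ (hQ : Q.Coprime f) (ρ : PP), ClQ b κ c Q hQ ρ ∧
    ∀ τ : Fin s → Fin s → ZMod 3,
      (∀ j i, j ≠ i → ∀ r : ℤ, (Q : ℤ) ∣ r ^ 3 - b j.castSucc →
        τ j i = TAUVS ρ.1 (rs p j i) (rs q j i) (rs p' j i) (rs q' j i) r) →
      (alt (C + (Φ (ZMod.unitOfCoprime Q hQ)).toAdd + τ)).det ≠ 0}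

/-- DENSS: the density of the primes with nonsingular matrix, for one hyperplane. -/
def DENSS : Prop := ∀ (s : ℕ) (b : Fin (s + 1) → ℤ)
  (p q p' q' : Fin (s + 1) → Fin (s + 1) → ℤ) (f m : ℕ)
  (κ : (ZMod f)ˣ →* Multiplicative (Fin (m + 1) → ZMod 3)) (c : Fin (m + 1) → ZMod 3)
  (C : Fin s → Fin s → ZMod 3) (Φ : (ZMod f)ˣ →* Multiplicative (Fin s → Fin s → ZMod 3)),
  SysG b p q p' q' → Even s → 0 < f → 9 ∣ f → c ≠ 0 →
  (∀ c : Fin (m + 1) → ZMod 3,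
    Nat.card {a : (ZMod f)ˣ // M1 a ∧ (κ a).toAdd = c} * (2 * 3 ^ (m + 1)) = f.totient) →
  RI.DensityGE (SSS b p q p' q' κ c C Φ ∪
    {Q : ℕ | ∃ (hQ : Q.Coprime f) (ρ : PP), ClQ b κ (-c) Q hQ ρ})
    (2 * rh s / 3 ^ (s + m + 2))

/-- DIRS: upper bound for the number of primes in a class. -/
def DIRS : Prop := ∀ (m : ℕ) (π : Fin m → PP) (p : Fin m → ℕ), (∀ i, (p i).Prime) →
  (∀ i, p i % 3 = 1) → (∀ i, (p i : Eis) = (π i).1 * conj (π i).1) → Function.Injective p →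
  ∀ (w0 : ZMod 3) (c : Fin m → ZMod 3), ∃ K : ℝ, ∀ s : ℝ, 1 < s → s ≤ 2 →
    ∑' q : {q : ℕ // q.Prime ∧ q ∈ {q : ℕ | InClS π w0 c q}}, (q : ℝ) ^ (-s) ≤
      1 / (2 * 3 ^ (m + 1)) * Real.log (1 / (s - 1)) + K

/-- DSUM: sum of densities. -/
def DSUM : Prop := ∀ (ι : Type) [Fintype ι] (S S' : ι → Set ℕ) (T R : Set ℕ) (d u : ℝ) (N : ℕ),
  (∀ i, RI.DensityGE (S i ∪ S' i) d) →
  (∃ K : ℝ, ∀ s : ℝ, 1 < s → s ≤ 2 →
    ∑' q : {q : ℕ // q.Prime ∧ q ∈ R}, (q : ℝ) ^ (-s) ≤ u * Real.log (1 / (s - 1)) + K) →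
  (∀ i q, q.Prime → N < q → q ∈ S' i → q ∈ R) →
  (∀ i q, q.Prime → N < q → q ∈ S i → q ∈ T) →
  (∀ q : ℕ, q.Prime → N < q → ∃ i₁ i₂, ∀ i, q ∈ S i ∨ q ∈ S' i → i = i₁ ∨ i = i₂) →
  RI.DensityGE T ((Fintype.card ι * d - 2 * u) / 2)

/-- FINAS: the theorem for numbers in normal form, `k` odd. -/
def FINAS : Prop := ∀ (n m k : ℕ) (π : Fin m → PP) (p e : Fin m → ℕ) (r f : Fin k → ℕ),
  NF n π p e r f → Odd k →
  RI.DensityGE {q : ℕ | ¬ ∃ X Y : ℚ, X ^ 3 + Y ^ 3 = (n : ℚ) * q} (1 / (30 * 3 ^ m))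

/-- MAINS: the theorem for all `n` prime to `3`. -/
def MAINS : Prop := ∀ n : ℕ, 0 < n → ¬ 3 ∣ n →
  ∃ C : ℝ, ∀ s : ℝ, 1 < s → s ≤ 2 →
    1 / (30 * 3 ^ Nat.card {p : ℕ // p.Prime ∧ p % 3 = 1 ∧ ¬ 3 ∣ n.factorization p}) *
      Real.log (1 / (s - 1)) - C ≤
    ∑' q : {q : ℕ // q.Prime ∧ ¬ ∃ X Y : ℚ, X ^ 3 + Y ^ 3 = (n : ℚ) * q}, (q : ℝ) ^ (-s)

end Pool.Agent.PTE

end

section

/-!
# Prime twists of rank zero, `n` divisible by `3`: statements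

`B = 3^h n q^E`, `h = 1, 2`, `E = 1, 2`, `n` prime to `3` and cube-free.
-/

open NumberField IsDedekindDomain Finset
open scoped nonZeroDivisors Pointwise

namespace Pool.Agent.PT3

open Pool.Agent.Lib_helper18 Pool.Agent.Lib_helper18.Eis Pool.Agent.Lib_helper84.Cub
open Pool.Agent.PT Pool.Agent.PTE

/-! ### The completion at `3` -/

/-- the exponent of `3` -/
noncomputable def lv (b : ℤ) : ZMod 3 := (padicValInt 3 b : ZMod 3)

/-- the class modulo `9` of the part prime to `3` -/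
noncomputable def lw (b : ℤ) : ZMod 3 := wt ((b / 3 ^ padicValInt 3 b) ^ 2)

/-- LCL: local cubes at `lam` and symbols of rational numbers. -/
def LCL : Prop :=
  (∀ b : ℤ, b ≠ 0 → (LC lam b ↔ lv b = 0 ∧ lw b = 0)) ∧
  (∀ a b : ℤ, a ≠ 0 → b ≠ 0 → lv (a * b) = lv a + lv b ∧ lw (a * b) = lw a + lw b) ∧
  (lv 3 = 1 ∧ lw 3 = 0) ∧
  (∀ b : ℤ, ¬ (3 : ℤ) ∣ b → lv b = 0 ∧ lw b = wt (b ^ 2)) ∧
  (∀ b : ℤ, b ≠ 0 → sl w (b : Eis) = - lw b) ∧
  (∀ (a b : ℤ) (c : Eis), a ≠ 0 → b ≠ 0 → c ≠ 0 → lv a = lv b → lw a = lw b →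
    sl c (a : Eis) = sl c (b : Eis)) ∧
  (∀ a b : ℤ, a ≠ 0 → b ≠ 0 → lv a = lv b → lw a = lw b → LC lam (a * b ^ 2))

/-! ### Conditions on `B` and on the classes -/

/-- conditions on `B`: nonzero and cube-free outside `3` -/
structure BG (B : ℤ) : Prop where
  ne : B ≠ 0
  cf : ∀ π : PP, V π.1 (B : Eis) ≤ 2

/-- conditions on `B`: divisible by `3`, cube-free -/
structure BT (B : ℤ) : Prop extends BG B where
  t1 : (3 : ℤ) ∣ B
  t2 : ¬ (27 : ℤ) ∣ B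

/-- the conditions on the class `b` outside `3` -/
structure AG (B b : ℤ) : Prop where
  ne : b ≠ 0
  sym : ∀ π : PP, tm π.1 (b : Eis) (B : Eis) = 0
  unr : ∀ π : PP, ¬ π.1 ∣ (B : Eis) → ¬ π.1 ∣ (b : Eis)

/-- `b` is an admissible class for the curve `X^3 + Y^3 = B`, `3 ∣ B`. -/
structure AdT (B b : ℤ) : Prop extends AG B b where
  wild : lv B = 2 → lw b + lv b * lw B = 0

/-- a local point of class `x` at `lam` -/
structure PtL (B x X Y : ℤ) : Prop where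
  hX : X ≠ 0
  hY : Y ≠ 0
  n0 : X ^ 3 + x * Y ^ 3 ≠ 0
  cl : lv (x * (X ^ 3 + x * Y ^ 3)) = lv B ∧ lw (x * (X ^ 3 + x * Y ^ 3)) = lw B

/-- `HypM`, with the local condition at `lam` when `9` does not divide `B` -/
def HypT (B : ℤ) : Prop := ∀ z t : Eis, z ≠ 0 → z * conj z = t ^ 3 →
  (∀ π : PP, tm π.1 z (B : Eis) = 0) → (∀ π : PP, ¬ π.1 ∣ (B : Eis) → 3 ∣ V π.1 z) →
  (¬ (9 : ℤ) ∣ B → sl z 3 = 0 ∧ sl z 4 = 0) →
  ∃ γ : Eis, z = γ ^ 3

/-! ### The local evaluation outside `3` -/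

/-- F2BG -/
def F2BG : Prop := ∀ (π : PP) (B b x p q p' q' : ℤ), BG B → AG B b → AG B x →
  Sol b x p q p' q' → LC π.1 b → ¬ LC π.1 x →
  ∃ N0 : ℕ, ∀ r : ℤ, π.1 ^ N0 ∣ (r : Eis) ^ 3 - (b : Eis) →
    AS (tm π.1) (B : Eis) p q p' q' r =
      tm π.1 (B : Eis) (Gf p q p' q' 1) - tm π.1 (B : Eis) (Gf p q p' q' 2) +
        tm π.1 w (B : Eis)

/-- F3RG -/
def F3RG : Prop := ∀ (π : PP) (B b x p q p' q' : ℤ), BG B → AG B b → AG B x →
  Sol b x p q p' q' → π.1 ∣ (B : Eis) → ¬ 3 ∣ V π.1 (b : Eis) → ¬ 3 ∣ V π.1 (x : Eis) →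
    UV (tm π.1) B b x p q p' q' =
      (if 3 ∣ V π.1 (b : Eis) + V π.1 (B : Eis) then - tm π.1 w (x : Eis) else 0) +
      (if 3 ∣ V π.1 (x : Eis) + V π.1 (B : Eis) then - tm π.1 w (b : Eis) else 0)

/-- F3UG -/
def F3UG : Prop := ∀ (π : PP) (B b x p q p' q' : ℤ), BG B → AG B b → AG B x →
  Sol b x p q p' q' → ¬ π.1 ∣ (B : Eis) → ch π.1 (b : Eis) ≠ 0 → ch π.1 (x : Eis) ≠ 0 →
    UV (tm π.1) B b x p q p' q' = 0

/-- TAMG: the tame places, two noncubes or one noncube. -/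
def TAMG : Prop := F2BG ∧ F3RG ∧ F3UG

/-- LEVG: the local evaluation at the tame places. -/
def LEVG : Prop := ∀ (π : PP) (B b x p q p' q' X Y : ℤ), BG B → AG B b → AG B x →
  Sol b x p q p' q' → Pt B x X Y →
    TT (some π) B b x p q p' q' = UV (tm π.1) B b x p q p' q' - SV (tm π.1) x p q p' q' X Y

/-- LAMG: the local form of the antisymmetry at the tame places. -/
def LAMG : Prop := ∀ (π : PP) (B b x p q p' q' : ℤ), BG B → AG B b → AG B x →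
  Sol b x p q p' q' →
    TT (some π) B b x p q p' q' + TT (some π) B x b p (-p') (-q) q' = UV (tm π.1) B b x p q p' q'

/-- LFIG: finiteness of the supports. -/
def LFIG : Prop := ∀ B b x p q p' q' : ℤ, BG B → AG B b → AG B x → SolW b x p q p' q' →
    (Function.support fun v : Pl => TT v B b x p q p' q').Finite

/-! ### The local evaluation at `lam` -/

/-- IIAG: the local term of a point when `b` is the cube of an integer. -/
def IIAG : Prop := ∀ r x p q p' q' X Y : ℤ, r ≠ 0 → x ≠ 0 → Sol (r ^ 3) x p q p' q' →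
  X ≠ 0 → Y ≠ 0 → X ^ 3 + x * Y ^ 3 ≠ 0 →
  SV sl x p q p' q' X Y =
    sl ((X ^ 3 + x * Y ^ 3 : ℤ) : Eis) (Gf p q p' q' 1) -
      sl ((X ^ 3 + x * Y ^ 3 : ℤ) : Eis) (Gf p q p' q' 2) +
      sl w ((X ^ 3 + x * Y ^ 3 : ℤ) : Eis) -
      AS sl ((X ^ 3 + x * Y ^ 3 : ℤ) : Eis) p q p' q' r

/-- IIA: the local term of a point at `lam` when `b` is a local cube. -/
def IIA : Prop := ∀ b x p q p' q' X Y : ℤ, b ≠ 0 → x ≠ 0 → LC lam b → Sol b x p q p' q' →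
  X ≠ 0 → Y ≠ 0 → X ^ 3 + x * Y ^ 3 ≠ 0 →
  ∃ N0 : ℕ, ∀ r : ℤ, lam ^ N0 ∣ (r : Eis) ^ 3 - (b : Eis) →
  SV sl x p q p' q' X Y =
    sl ((X ^ 3 + x * Y ^ 3 : ℤ) : Eis) (Gf p q p' q' 1) -
      sl ((X ^ 3 + x * Y ^ 3 : ℤ) : Eis) (Gf p q p' q' 2) +
      sl w ((X ^ 3 + x * Y ^ 3 : ℤ) : Eis) -
      AS sl ((X ^ 3 + x * Y ^ 3 : ℤ) : Eis) p q p' q' r

/-- LL1: the linear forms of a point when `x` is a local cube. -/
def LL1 : Prop := ∀ x X Y b : ℤ, x ≠ 0 → b ≠ 0 → X ≠ 0 → Y ≠ 0 → X ^ 3 + x * Y ^ 3 ≠ 0 →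
  lv (X ^ 3 + x * Y ^ 3) = 1 →
  ∃ N0 : ℕ, ∀ ξ : ℤ, lam ^ N0 ∣ (ξ : Eis) ^ 3 - (x : Eis) →
    sl (Lf X Y 1 ξ) (b : Eis) - sl (Lf X Y 2 ξ) (b : Eis) = sl w (b : Eis)

/-- LB: the local form of the antisymmetry at `lam` when `b` is a local cube and `x` is a local
cube or in the class of `B`. -/
def LB : Prop :=
  (∀ B b x p q p' q' : ℤ, B ≠ 0 → b ≠ 0 → x ≠ 0 → Sol b x p q p' q' → LC lam b → LC lam x →
    TT none B b x p q p' q' + TT none B x b p (-p') (-q) q' = UV sl B b x p q p' q') ∧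
  (∀ B b x p q p' q' : ℤ, B ≠ 0 → b ≠ 0 → x ≠ 0 → Sol b x p q p' q' → LC lam b →
    lv x = lv B → lw x = lw B → TT none B b x p q p' q' = UV sl B b x p q p' q')

/-- LVA: the local evaluation at `lam` when `b` is a local cube. -/
def LVA : Prop := ∀ B b x p q p' q' X Y : ℤ, B ≠ 0 → b ≠ 0 → x ≠ 0 → Sol b x p q p' q' →
  LC lam b → PtL B x X Y →
    TT none B b x p q p' q' = UV sl B b x p q p' q' - SV sl x p q p' q' X Y

/-- LVB: the case where `x` is a local cube and `b` is in the class of `B`. -/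
def LVB : Prop := ∀ B b x p q p' q' X Y : ℤ, B ≠ 0 → b ≠ 0 → x ≠ 0 → Sol b x p q p' q' →
  LC lam x → lv b = lv B → lw b = lw B → PtL B x X Y →
    SV sl x p q p' q' X Y = UV sl B b x p q p' q'

/-- LVC: the case where `x` is a local cube and `v(B) = 1`. -/
def LVC : Prop := ∀ B b x p q p' q' X Y X' Y' : ℤ, B ≠ 0 → b ≠ 0 → x ≠ 0 → Sol b x p q p' q' →
  lv B = 1 → LC lam x → PtL B x X Y → PtL B b X' Y' →
    SV sl b p (-p') (-q) q' X' Y' = UV sl B b x p q p' q' - SV sl x p q p' q' X Y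

/-- LN1: the numerical form of LE1. -/
def LN1 : Prop := ∀ b p q p' q' X Y F H M : ℤ, (3 : ℤ) ∣ b → ¬ (9 : ℤ) ∣ b →
  ¬ ((3 : ℤ) ∣ p ∧ (3 : ℤ) ∣ q) → ¬ ((3 : ℤ) ∣ p' ∧ (3 : ℤ) ∣ q') → ¬ ((3 : ℤ) ∣ X ∧ (3 : ℤ) ∣ Y) →
  X ≠ 0 → Y ≠ 0 →
  F = p ^ 3 + b * q ^ 3 → H = p' ^ 3 + b * q' ^ 3 → M = H * X ^ 3 + F * Y ^ 3 →
  F ≠ 0 → H ≠ 0 → M ≠ 0 → p ^ 3 * q' ^ 3 - q ^ 3 * p' ^ 3 ≠ 0 →
  lv F + lv H + lv M = 1 → lw F + lw H + lw M = lw b → ¬ (lv F = lv H ∧ lw F = lw H) →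
  sl ((X * q' : ℤ) + (q * Y : ℤ) * w)
      ((b * (p ^ 3 * q' ^ 3 - q ^ 3 * p' ^ 3) * F * H * b : ℤ) : Eis) -
    sl ((X * p' : ℤ) + (p * Y : ℤ) * w)
      ((b * (p ^ 3 * q' ^ 3 - q ^ 3 * p' ^ 3) * F * H * b ^ 2 : ℤ) : Eis) =
  sl ((q * p' : ℤ) - (p * q' : ℤ) * w) (b : Eis) + lw b - lw F + lw H

/-- LE1: the case where `b` is in the class of `B`, `v(B) = 1`, and `x` is not a local cube. -/
def LE1 : Prop := ∀ B b x p q p' q' X Y : ℤ, B ≠ 0 → b ≠ 0 → x ≠ 0 → Sol b x p q p' q' →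
  lv B = 1 → lv b = lv B → lw b = lw B → ¬ LC lam x → PtL B x X Y →
    SV sl x p q p' q' X Y = UV sl B b x p q p' q'

/-- LE3: the local term of a point in the class of `B`, `v(B) = 1`. -/
def LE3 : Prop := ∀ B b x p q p' q' X Y : ℤ, B ≠ 0 → b ≠ 0 → x ≠ 0 → Sol b x p q p' q' →
  lv B = 1 → lv x = lv B → lw x = lw B → PtL B x X Y → SV sl x p q p' q' X Y = 0

/-- LPT: existence of local points. -/
def LPT : Prop := ∀ (b : ℤ) (β : ZMod 3), b ≠ 0 → ¬ (lv b = 0 ∧ lw b = 0) →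
  ∃ X Y : ℤ, X ≠ 0 ∧ Y ≠ 0 ∧ X ^ 3 + b * Y ^ 3 ≠ 0 ∧
    lv (b * (X ^ 3 + b * Y ^ 3)) = 1 ∧ lw (b * (X ^ 3 + b * Y ^ 3)) = β

/-! ### The pairing -/

open Classical in
/-- The pairing `O_B(b, η)` with the local term of the local point `(X, Y)` of class `b`. -/
noncomputable def OT (B b X Y x p q p' q' : ℤ) : ZMod 3 :=
  OO B b x p q p' q' + if LC lam b then 0 else SV sl b p (-p') (-q) q' X Y

/-- `(p + qT)/(p' + q'T)` is the product of two elements, `T^3 = b` -/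
structure PRel (b p₁ q₁ p₁' q₁' p₂ q₂ p₂' q₂' p q p' q' : ℤ) : Prop where
  e0 : p₁ * p₂ * p' + b * (q₁ * q₂ * q') = p₁' * p₂' * p + b * (q₁' * q₂' * q)
  e1 : (p₁ * q₂ + q₁ * p₂) * p' + p₁ * p₂ * q' = (p₁' * q₂' + q₁' * p₂') * p + p₁' * p₂' * q
  e2 : q₁ * q₂ * p' + (p₁ * q₂ + q₁ * p₂) * q' = q₁' * q₂' * p + (p₁' * q₂' + q₁' * p₂') * q

/-- SVAD: additivity of the local term at `lam`. -/
def SVAD : Prop := ∀ b x₁ x₂ p₁ q₁ p₁' q₁' p₂ q₂ p₂' q₂' p q p' q' X Y : ℤ, b ≠ 0 → x₁ ≠ 0 →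
  x₂ ≠ 0 → Sol b x₁ p₁ q₁ p₁' q₁' → Sol b x₂ p₂ q₂ p₂' q₂' → Sol b (x₁ * x₂) p q p' q' →
  PRel b p₁ q₁ p₁' q₁' p₂ q₂ p₂' q₂' p q p' q' → X ≠ 0 → Y ≠ 0 → X ^ 3 + b * Y ^ 3 ≠ 0 →
  SV sl b p (-p') (-q) q' X Y =
    SV sl b p₁ (-p₁') (-q₁) q₁' X Y + SV sl b p₂ (-p₂') (-q₂) q₂' X Y

/-- TADT: additivity of the pairing. -/
def TADT : Prop :=
  (∀ b x₁ x₂ p₁ q₁ p₁' q₁' p₂ q₂ p₂' q₂' : ℤ, (¬ ∃ c : ℤ, c ^ 3 = b) →
    (¬ ∃ c : ℤ, c ^ 3 = x₁ * x₂) → b ≠ 0 → x₁ ≠ 0 → x₂ ≠ 0 →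
    Sol b x₁ p₁ q₁ p₁' q₁' → Sol b x₂ p₂ q₂ p₂' q₂' →
    ∃ p q p' q' : ℤ, Sol b (x₁ * x₂) p q p' q' ∧ ∀ B X Y : ℤ, BG B → AG B b → AG B x₁ →
      AG B x₂ → (LC lam b ∨ (X = 1 ∧ Y = 0) ∨ (X ≠ 0 ∧ Y ≠ 0 ∧ X ^ 3 + b * Y ^ 3 ≠ 0)) →
      OT B b X Y (x₁ * x₂) p q p' q' =
        OT B b X Y x₁ p₁ q₁ p₁' q₁' + OT B b X Y x₂ p₂ q₂ p₂' q₂') ∧
  (∀ b x p q p' q' u : ℤ, b ≠ 0 → x ≠ 0 → u ≠ 0 → Sol b x p q p' q' →
    Sol b (u ^ 3 * x) (u * p) (u * q) p' q' ∧ ∀ B X Y : ℤ, BG B → AG B b → AG B x → AG B u →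
      (LC lam b ∨ (X = 1 ∧ Y = 0) ∨ (X ≠ 0 ∧ Y ≠ 0 ∧ X ^ 3 + b * Y ^ 3 ≠ 0)) →
      OT B b X Y (u ^ 3 * x) (u * p) (u * q) p' q' = OT B b X Y x p q p' q')

/-- TTHT: `O_B(b, b^(1/3)) = 0`. -/
def TTHT : Prop := ∀ B b : ℤ, BG B → AG B b → (LC lam b ∨ (lv b = lv B ∧ lw b = lw B)) →
  OO B b b 0 1 1 0 = 0

/-- TPT: the pairing vanishes on the class of a point. -/
def TPT : Prop := ∀ B b x p q p' q' X Y X₀ Y₀ : ℤ, BG B → AG B b → AG B x →
  Sol b x p q p' q' → Pt B x X₀ Y₀ →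
  (LC lam b ∨
    (lv b = lv B ∧ lw b = lw B ∧ X = 1 ∧ Y = 0 ∧ (LC lam x ∨ lv B = 1)) ∨
    (lv B = 1 ∧ ¬ LC lam b ∧ PtL B b X Y ∧ (LC lam x ∨ (lv x = lv B ∧ lw x = lw B)))) →
  OT B b X Y x p q p' q' = 0

/-- TALT: antisymmetry. -/
def TALT : Prop := ∀ B b x p q p' q' X Y X' Y' : ℤ, BG B → AG B b → AG B x →
  Sol b x p q p' q' →
  ((LC lam b ∧ (LC lam x ∨ (lv x = lv B ∧ lw x = lw B ∧ X' = 1 ∧ Y' = 0) ∨ PtL B x X' Y')) ∨
    (lv B = 1 ∧ lv b = lv B ∧ lw b = lw B ∧ X = 1 ∧ Y = 0 ∧ ¬ LC lam x ∧ PtL B x X' Y')) →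
  OT B b X Y x p q p' q' + OT B x X' Y' b p (-p') (-q) q' = 0

/-- The types of the classes at `lam`: `0` local cubes, `1` the class of `B`, `2` another class;
at most one class of type `1` and at most one of type `2`. -/
structure LamS {s : ℕ} (B : ℤ) (τ : Fin s → Fin 3) (b X Y : Fin s → ℤ) : Prop where
  t0 : ∀ i, τ i = 0 → LC lam (b i)
  t1 : ∀ i, τ i = 1 → ¬ LC lam (b i) ∧ lv (b i) = lv B ∧ lw (b i) = lw B ∧ X i = 1 ∧ Y i = 0
  t2 : ∀ i, τ i = 2 → ¬ LC lam (b i) ∧ lv B = 1 ∧ PtL B (b i) (X i) (Y i)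
  inj : ∀ i j, τ i = τ j → τ i ≠ 0 → i = j

/-- the skew form of a system -/
def SwS {s : ℕ} (p q p' q' : Fin s → Fin s → ℤ) : Prop :=
  ∀ j i, j ≠ i → p i j = p j i ∧ q i j = - p' j i ∧ p' i j = - q j i ∧ q' i j = q' j i

open Classical in
/-- the matrix of the pairing -/
noncomputable def MaT {s : ℕ} (b X Y : Fin s → ℤ) (p q p' q' : Fin s → Fin s → ℤ) (B : ℤ) :
    Matrix (Fin s) (Fin s) (ZMod 3) := fun j i =>
  if j = i then 0 else OT B (b j) (X j) (Y j) (b i) (p j i) (q j i) (p' j i) (q' j i)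

/-- TENT: the matrix is alternating and the class of a point is in its kernel. -/
def TENT : Prop := ∀ (s : ℕ) (τ : Fin s → Fin 3) (b X Y : Fin s → ℤ)
  (p q p' q' : Fin s → Fin s → ℤ) (B : ℤ),
  SysG b p q p' q' → SwS p q p' q' → BG B → (∀ i, AG B (b i)) → LamS B τ b X Y →
  (∀ i, b i ≠ 0) →
  (∀ i j, MaT b X Y p q p' q' B i j = - MaT b X Y p q p' q' B j i) ∧
  ∀ (c : Fin s → ℕ) (X₀ Y₀ : ℤ), (∃ i, ¬ 3 ∣ c i) → Pt B (∏ i, b i ^ c i) X₀ Y₀ →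
    ∀ j, ∑ i, MaT b X Y p q p' q' B j i * (c i : ZMod 3) = 0

/-! ### First descent -/

/-- FDKT -/
def FDKT : Prop := ∀ B x y z : ℤ, BT B → HypT B → IsCoprime x y → z ≠ 0 →
  x ^ 3 + y ^ 3 = B * z ^ 3 →
  ∃ (δ : Eis) (c d : ℤ), c ≠ 0 ∧ d ≠ 0 ∧ (∀ m : ℤ, (m : Eis) ∣ δ → IsUnit m) ∧
    (d : Eis) * ((x : Eis) + w * y) = c * w ^ 2 * δ ^ 3

/-- FDAT -/
def FDAT : Prop := ∀ (B x y z c d : ℤ) (δ : Eis), BT B → 3 ≤ |B| → IsCoprime x y → z ≠ 0 →
  x ^ 3 + y ^ 3 = B * z ^ 3 → c ≠ 0 → d ≠ 0 → (∀ m : ℤ, (m : Eis) ∣ δ → IsUnit m) →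
  (d : Eis) * ((x : Eis) + w * y) = c * w ^ 2 * δ ^ 3 →
  ∃ (A : Fin 3 → ℤ) (m : ℤ), (∀ k, A k ≠ 0) ∧ A 0 + A 1 + A 2 = 0 ∧
    A 0 * A 1 * A 2 = B * m ^ 3 ∧ (∀ i j, i ≠ j → IsCoprime (A i) (A j)) ∧ |m| < |z|

/-- FDCT -/
def FDCT : Prop := ∀ (B m : ℤ) (A : Fin 3 → ℤ), BT B → (∀ k, A k ≠ 0) → A 0 + A 1 + A 2 = 0 →
  A 0 * A 1 * A 2 = B * m ^ 3 → (∀ i j, i ≠ j → IsCoprime (A i) (A j)) →
  ∃ a x : Fin 3 → ℤ, (∀ k, A k = a k * x k ^ 3) ∧ ∏ k, a k = B ∧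
    (∀ i j, i ≠ j → IsCoprime (a i) (a j)) ∧ (∀ i j, i ≠ j → IsCoprime (x i) (x j))

/-- FD1T: the first descent. -/
def FD1T : Prop := ∀ B : ℤ, BT B → HypT B →
  (∃ X Y : ℚ, X ^ 3 + Y ^ 3 = (B : ℚ)) → ∃ a x : Fin 3 → ℤ, Cell B a x

/-- the number `3^h n q^E` -/
def BB (h n E q : ℕ) : ℤ := (3 : ℤ) ^ h * n * (q : ℤ) ^ E

/-- FD2T: the class of a point; the prime `q` can be put into the last cell. -/
def FD2T : Prop := ∀ (h n E q : ℕ) (a x : Fin 3 → ℤ), (h = 1 ∨ h = 2) → (E = 1 ∨ E = 2) →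
  q.Prime → q ≠ 3 → ¬ q ∣ n → 0 < n → BT (BB h n E q) → Cell (BB h n E q) a x →
  ∃ z X Y : ℤ, Pt (BB h n E q) z X Y ∧ AdT (BB h n E q) z ∧
    (∀ l : ℕ, l.Prime → (l : ℤ) ∣ z → l ∣ 3 * n) ∧ ¬ ∃ t : ℤ, t ^ 3 = z

/-! ### The norm theorem -/

/-- NMAT: the norm theorem for `L / Q(w)`, `y` arbitrary. -/
def NMAT : Prop := ∀ (x : ℤ) (L : Type) [Field L] [NumberField L] (ι : Eis →+* L) (θ : L)
  (σ c : L ≃ₐ[ℚ] L), x ≠ 0 → ¬ (3 : ℤ) ∣ x → (∀ π : PP, V π.1 (x : Eis) ≤ 2) →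
  (¬ ∃ c : ℤ, c ^ 3 = x) → CubF x L ι θ σ c →
  ∀ y : ℤ, y ≠ 0 → (∀ π : PP, tm π.1 (x : Eis) (y : Eis) = 0) →
    (∀ π : PP, π.1 ∣ (y : Eis) → ¬ LC π.1 x → π.1 ∣ (x : Eis)) →
    ∃ z : L, z ≠ 0 ∧ z * σ z * σ (σ z) = (y : L)

/-- HNT: Hasse norm theorem for pure cubic fields, `y` arbitrary. -/
def HNT : Prop := ∀ x y : ℤ, x ≠ 0 → ¬ (3 : ℤ) ∣ x → (¬ ∃ c : ℤ, c ^ 3 = x) →
  (∀ π : PP, V π.1 (x : Eis) ≤ 2) → y ≠ 0 →
  (∀ π : PP, tm π.1 (x : Eis) (y : Eis) = 0) →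
  ∃ p q p' q' : ℤ, SolW x y p q p' q'

/-! ### Choice of the class -/

/-- `q^E` is in the class `(w0, c)`. -/
def InCT {m : ℕ} (E : ℕ) (π : Fin m → PP) (w0 : ZMod 3) (c : Fin m → ZMod 3) (q : ℕ) : Prop :=
  wt (((q : ℤ) ^ E) ^ 2) = w0 ∧ ∀ i, (E : ZMod 3) * sym (π i).1 (q : Eis) = c i

/-- The matrix of the conditions; the first column belongs to the prime `3`, the first row to the
condition at `lam` (`h = 2`). -/
noncomputable def Mt (h n : ℕ) {m : ℕ} (π : Fin m → PP) (p e : Fin m → ℕ) (w0 : ZMod 3)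
    (c : Fin m → ZMod 3) : Matrix (Fin (m + 1)) (Fin (m + 1)) (ZMod 3) :=
  fun a b => Fin.cases
    (motive := fun _ => ZMod 3)
    (Fin.cases (motive := fun _ => ZMod 3) (if h = 2 then wt ((n : ℤ) ^ 2) + w0 else 1)
      (fun i' => if h = 2 then wt ((p i' : ℤ) ^ 2) else 0) b)
    (fun i => Fin.cases (motive := fun _ => ZMod 3)
      ((e i : ZMod 3) * sym (π i).1 3)
      (fun i' => if i' = i then
          (e i : ZMod 3) * sym (π i).1 (conj (π i).1) -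
            ch (π i).1 ((3 ^ h * n : ℕ) : Eis) - c i
        else (e i : ZMod 3) * sym (π i).1 (p i' : Eis)) b) a

/-- EDC: the number of the diagonals such that the matrix becomes invertible. -/
def EDC : Prop := ∀ (m : ℕ) (A : Matrix (Fin (m + 1)) (Fin (m + 1)) (ZMod 3)), A 0 0 ≠ 0 →
  2 ^ m ≤ Nat.card {d : Fin m → ZMod 3 //
    (A - Matrix.diagonal (Fin.cons 0 d : Fin (m + 1) → ZMod 3)).det ≠ 0}

/-- EMAX: the number of the classes. -/
def EMAX : Prop := ∀ (h n m : ℕ) (π : Fin m → PP) (p e : Fin m → ℕ) (w0 : ZMod 3),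
  (h = 2 → wt ((n : ℤ) ^ 2) + w0 ≠ 0) →
  2 ^ m ≤ Nat.card {c : Fin m → ZMod 3 // (Mt h n π p e w0 c).det ≠ 0}

/-- The rational classes that are admissible for `3^h n q^E`, `q^E` in the class `(w0, c)`. -/
structure AdC (h n : ℕ) {m : ℕ} (π : Fin m → PP) (w0 : ZMod 3) (c : Fin m → ZMod 3) (x : ℤ) :
    Prop where
  ne : x ≠ 0
  supp : ∀ l : ℕ, l.Prime → (l : ℤ) ∣ x → l ∣ 3 * n
  sym : ∀ i, (V (π i).1 (n : Eis) : ZMod 3) * ch (π i).1 (x : Eis) -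
    (V (π i).1 (x : Eis) : ZMod 3) * (ch (π i).1 ((3 ^ h * n : ℕ) : Eis) + c i) = 0
  wild : h = 2 → lw x + lv x * (wt ((n : ℤ) ^ 2) + w0) = 0

/-- `B` has the type `(h, w)` at `3` -/
def TyB (h n : ℕ) (w0 : ZMod 3) (B : ℤ) : Prop :=
  B ≠ 0 ∧ lv B = (h : ZMod 3) ∧ lw B = wt ((n : ℤ) ^ 2) + w0

/-- EADT: `AdC` and `AdT`, `q = 2 (mod 3)`. -/
def EADT : Prop := ∀ (h n m k : ℕ) (π : Fin m → PP) (p e : Fin m → ℕ) (r f : Fin k → ℕ)
  (w0 : ZMod 3) (c : Fin m → ZMod 3) (E q : ℕ), NF n π p e r f → (h = 1 ∨ h = 2) →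
  (E = 1 ∨ E = 2) → q.Prime → q % 3 = 2 → InCT E π w0 c q → ¬ q ∣ n →
  BT (BB h n E q) ∧ TyB h n w0 (BB h n E q) ∧
    ∀ x : ℤ, (∀ l : ℕ, l.Prime → (l : ℤ) ∣ x → l ∣ 3 * n) →
      (AdC h n π w0 c x ↔ AdT (BB h n E q) x)

/-- EADU: `AdC` and `AdT`, `q = 1 (mod 3)`. -/
def EADU : Prop := ∀ (h n m k : ℕ) (π : Fin m → PP) (p e : Fin m → ℕ) (r f : Fin k → ℕ)
  (w0 : ZMod 3) (c : Fin m → ZMod 3) (E q : ℕ) (ρ : PP), NF n π p e r f → (h = 1 ∨ h = 2) →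
  (E = 1 ∨ E = 2) → q.Prime → q % 3 = 1 → InCT E π w0 c q → ¬ q ∣ n →
  (q : Eis) = ρ.1 * conj ρ.1 →
  BT (BB h n E q) ∧ TyB h n w0 (BB h n E q) ∧
    ∀ x : ℤ, (∀ l : ℕ, l.Prime → (l : ℤ) ∣ x → l ∣ 3 * n) →
      ((AdC h n π w0 c x ∧ sym ρ.1 (x : Eis) = 0) ↔ AdT (BB h n E q) x)

/-- HYPT: the minus part of the Selmer group is trivial, `q = 2 (mod 3)`. -/
def HYPT : Prop := ∀ (h n m k : ℕ) (π : Fin m → PP) (p e : Fin m → ℕ) (r f : Fin k → ℕ)
  (w0 : ZMod 3) (c : Fin m → ZMod 3) (E q : ℕ), NF n π p e r f → (h = 1 ∨ h = 2) →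
  (E = 1 ∨ E = 2) → q.Prime → q % 3 = 2 → InCT E π w0 c q → ¬ q ∣ n →
  (Mt h n π p e w0 c).det ≠ 0 → HypT (BB h n E q)

/-- HYPU: the minus part of the Selmer group is trivial, `q = 1 (mod 3)`. -/
def HYPU : Prop := ∀ (h n m k : ℕ) (π : Fin m → PP) (p e : Fin m → ℕ) (r f : Fin k → ℕ)
  (w0 : ZMod 3) (c : Fin m → ZMod 3) (E q : ℕ) (ρ : PP) (y : ℤ), NF n π p e r f →
  (h = 1 ∨ h = 2) → (E = 1 ∨ E = 2) → q.Prime → q % 3 = 1 → InCT E π w0 c q → ¬ q ∣ n →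
  (q : Eis) = ρ.1 * conj ρ.1 → (Mt h n π p e w0 c).det ≠ 0 → AdC h n π w0 c y →
  sym ρ.1 (y : Eis) ≠ 0 → HypT (BB h n E q)

/-- EVET: the admissible classes in terms of exponent vectors. -/
def EVET : Prop := ∀ (h n m k : ℕ) (π : Fin m → PP) (p e : Fin m → ℕ) (r f : Fin k → ℕ)
  (w0 : ZMod 3) (c : Fin m → ZMod 3), NF n π p e r f →
  (∀ x : ℤ, x ≠ 0 → (∀ l : ℕ, l.Prime → (l : ℤ) ∣ x → l ∣ 3 * n) →
    (AdC h n π w0 c x ↔
      (∀ i, (e i : ZMod 3) * (lv x * sym (π i).1 3) +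
        (e i : ZMod 3) * (∑ i', (padicValInt (p i') x : ZMod 3) *
          (if i' = i then sym (π i).1 (conj (π i).1) else sym (π i).1 (p i' : Eis))) +
        (e i : ZMod 3) * (∑ j, (padicValInt (r j) x : ZMod 3) * sym (π i).1 (r j : Eis)) -
        (padicValInt (p i) x : ZMod 3) * (ch (π i).1 ((3 ^ h * n : ℕ) : Eis) + c i) = 0) ∧
      (h = 2 → (∑ i, (padicValInt (p i) x : ZMod 3) * wt ((p i : ℤ) ^ 2)) +
        (∑ j, (padicValInt (r j) x : ZMod 3) * wt ((r j : ℤ) ^ 2)) +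
        lv x * (wt ((n : ℤ) ^ 2) + w0) = 0)) ∧
    lw x = (∑ i, (padicValInt (p i) x : ZMod 3) * wt ((p i : ℤ) ^ 2)) +
        ∑ j, (padicValInt (r j) x : ZMod 3) * wt ((r j : ℤ) ^ 2)) ∧
  ∀ x x' : ℤ, x ≠ 0 → x' ≠ 0 → (∀ l : ℕ, l.Prime → (l : ℤ) ∣ x → l ∣ 3 * n) →
    (∀ l : ℕ, l.Prime → (l : ℤ) ∣ x' → l ∣ 3 * n) →
    ((∃ u v : ℤ, u ≠ 0 ∧ v ≠ 0 ∧ x * u ^ 3 = x' * v ^ 3) ↔
      lv x = lv x' ∧ (∀ i, (padicValInt (p i) x : ZMod 3) = padicValInt (p i) x') ∧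
      ∀ j, (padicValInt (r j) x : ZMod 3) = padicValInt (r j) x')

/-- EBAT: basis of the admissible classes. -/
def EBAT : Prop := ∀ (h n m k : ℕ) (π : Fin m → PP) (p e : Fin m → ℕ) (r f : Fin k → ℕ)
  (w0 : ZMod 3) (c : Fin m → ZMod 3), NF n π p e r f → (h = 1 ∨ h = 2) →
  (Mt h n π p e w0 c).det ≠ 0 →
  ∃ (s : ℕ) (τ : Fin s → Fin 3) (b X Y : Fin s → ℤ), s + h = k + 2 ∧
    (∀ i, AdC h n π w0 c (b i)) ∧ (∀ i (π : PP), V π.1 (b i : Eis) ≤ 2) ∧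
    (∀ g : Fin s → ℕ, (∃ i, ¬ 3 ∣ g i) → ¬ ∃ t : ℤ, t ^ 3 = ∏ i, b i ^ g i) ∧
    (∀ i j, i ≠ j → ¬ (3 : ℤ) ∣ b i ∨ ¬ (3 : ℤ) ∣ b j) ∧
    (∀ B : ℤ, TyB h n w0 B → LamS B τ b X Y) ∧
    (∀ x : ℤ, AdC h n π w0 c x → ∃ (g : Fin s → ℕ) (u v : ℤ), u ≠ 0 ∧ v ≠ 0 ∧
      x * u ^ 3 = (∏ i, b i ^ g i) * v ^ 3)

/-- EHPT: bases adapted to a hyperplane. -/
def EHPT : Prop := ∀ (h n m k : ℕ) (π : Fin m → PP) (p e : Fin m → ℕ) (r f : Fin k → ℕ)
  (w0 : ZMod 3) (c : Fin m → ZMod 3), NF n π p e r f → (h = 1 ∨ h = 2) →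
  (Mt h n π p e w0 c).det ≠ 0 →
  ∃ (d : ℕ) (v : Fin d → ℤ), d + h = k + 2 ∧ (∀ i, AdC h n π w0 c (v i)) ∧
    ∀ δ : Fin d → ZMod 3, δ ≠ 0 → ∃ (s : ℕ) (τ : Fin s → Fin 3) (b : Fin (s + 1) → ℤ)
      (X Y : Fin s → ℤ), s + 1 = d ∧
      (∀ i, AdC h n π w0 c (b i)) ∧ (∀ i (π : PP), V π.1 (b i : Eis) ≤ 2) ∧
      (∀ g : Fin (s + 1) → ℕ, (∃ i, ¬ 3 ∣ g i) → ¬ ∃ t : ℤ, t ^ 3 = ∏ i, b i ^ g i) ∧
      (∀ i j, i ≠ j → ¬ (3 : ℤ) ∣ b i ∨ ¬ (3 : ℤ) ∣ b j) ∧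
      (∀ B : ℤ, TyB h n w0 B → LamS B τ (rv b) X Y) ∧
      ∀ ρ : PP, ¬ ρ.1 ∣ (n : Eis) → (∀ i : Fin s, sym ρ.1 (b i.castSucc : Eis) = 0) →
        sym ρ.1 (b (Fin.last s) : Eis) ≠ 0 →
        (∃ ε : ZMod 3, ε ≠ 0 ∧ ∀ i, sym ρ.1 (v i : Eis) = ε * δ i) ∧
        ∀ x : ℤ, AdC h n π w0 c x → sym ρ.1 (x : Eis) = 0 → ∃ (g : Fin s → ℕ) (u t : ℤ),
          u ≠ 0 ∧ t ≠ 0 ∧ x * u ^ 3 = (∏ i, b i.castSucc ^ g i) * t ^ 3

/-- ESYT: from a basis to a system with solutions. -/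
def ESYT : Prop := ∀ (h n m k : ℕ) (π : Fin m → PP) (p e : Fin m → ℕ) (r f : Fin k → ℕ)
  (w0 : ZMod 3) (c : Fin m → ZMod 3) (s : ℕ) (b : Fin s → ℤ), NF n π p e r f →
  (∀ i, AdC h n π w0 c (b i)) → (∀ i (π : PP), V π.1 (b i : Eis) ≤ 2) →
  (∀ g : Fin s → ℕ, (∃ i, ¬ 3 ∣ g i) → ¬ ∃ t : ℤ, t ^ 3 = ∏ i, b i ^ g i) →
  (∀ i j, i ≠ j → ¬ (3 : ℤ) ∣ b i ∨ ¬ (3 : ℤ) ∣ b j) →
  ∃ P Q P' Q' : Fin s → Fin s → ℤ, SysG b P Q P' Q' ∧ SwS P Q P' Q'

/-- ECLT: the system for a class, `q = 2 (mod 3)`. -/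
def ECLT : Prop := ∀ (h n m k : ℕ) (π : Fin m → PP) (p e : Fin m → ℕ) (r f : Fin k → ℕ)
  (w0 : ZMod 3) (c : Fin m → ZMod 3),
  NF n π p e r f → (h = 1 ∨ h = 2) → Even (h + k) → (Mt h n π p e w0 c).det ≠ 0 →
  ∃ (s : ℕ) (b X Y : Fin s → ℤ) (P Q P' Q' : Fin s → Fin s → ℤ), Even s ∧ SysG b P Q P' Q' ∧
    (∀ i, b i ≠ 0) ∧
    ∀ E q : ℕ, (E = 1 ∨ E = 2) → q.Prime → q % 3 = 2 → InCT E π w0 c q → ¬ q ∣ n →
      BT (BB h n E q) ∧ (∀ i, AdT (BB h n E q) (b i)) ∧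
      (∀ i j, MaT b X Y P Q P' Q' (BB h n E q) i j = - MaT b X Y P Q P' Q' (BB h n E q) j i) ∧
      ((∃ X Y : ℚ, X ^ 3 + Y ^ 3 = (BB h n E q : ℚ)) →
        (MaT b X Y P Q P' Q' (BB h n E q)).det = 0)

/-- ECLU: the systems for a class, `q = 1 (mod 3)`. -/
def ECLU : Prop := ∀ (h n m k : ℕ) (π : Fin m → PP) (p e : Fin m → ℕ) (r f : Fin k → ℕ)
  (w0 : ZMod 3) (c : Fin m → ZMod 3),
  NF n π p e r f → (h = 1 ∨ h = 2) → Odd (h + k) → (Mt h n π p e w0 c).det ≠ 0 →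
  ∃ (d : ℕ) (v : Fin d → ℤ), Odd d ∧
    (∀ i, v i ≠ 0 ∧ ∀ l : ℕ, l.Prime → (l : ℤ) ∣ v i → l ∣ 3 * n) ∧
    ∀ δ : Fin d → ZMod 3, δ ≠ 0 → ∃ (s : ℕ) (b : Fin (s + 1) → ℤ) (X Y : Fin s → ℤ)
      (P Q P' Q' : Fin (s + 1) → Fin (s + 1) → ℤ), s + 1 = d ∧ SysG b P Q P' Q' ∧
      (∀ i, b i ≠ 0) ∧
      (∀ ρ : PP, ¬ ρ.1 ∣ (n : Eis) → (∀ i : Fin s, sym ρ.1 (b i.castSucc : Eis) = 0) →
        sym ρ.1 (b (Fin.last s) : Eis) ≠ 0 →
        ∃ ε : ZMod 3, ε ≠ 0 ∧ ∀ i, sym ρ.1 (v i : Eis) = ε * δ i) ∧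
      ∀ (E q : ℕ) (ρ : PP), (E = 1 ∨ E = 2) → q.Prime → q % 3 = 1 → InCT E π w0 c q →
        ¬ q ∣ n → (q : Eis) = ρ.1 * conj ρ.1 →
        (∀ i : Fin s, sym ρ.1 (b i.castSucc : Eis) = 0) →
        sym ρ.1 (b (Fin.last s) : Eis) ≠ 0 →
        BT (BB h n E q) ∧ (∀ i : Fin s, AdT (BB h n E q) (b i.castSucc)) ∧
        (∀ i j, MaT (rv b) X Y (rs P) (rs Q) (rs P') (rs Q') (BB h n E q) i j =
          - MaT (rv b) X Y (rs P) (rs Q) (rs P') (rs Q') (BB h n E q) j i) ∧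
        ((∃ X Y : ℚ, X ^ 3 + Y ^ 3 = (BB h n E q : ℚ)) →
          (MaT (rv b) X Y (rs P) (rs Q) (rs P') (rs Q') (BB h n E q)).det = 0)

/-! ### Dependence of the pairing on the prime -/

/-- DCOT: the pairing `O_{NQ^E}(b, η)` as a function of the prime `Q = 2 (mod 3)` and of `E`. -/
def DCOT : Prop := ∀ (N : ℕ) (b X Y x p q p' q' : ℤ), 0 < N → Sol b x p q p' q' → b ≠ 0 →
  x ≠ 0 → ∃ f₀ : ℕ, 0 < f₀ ∧ ∀ f : ℕ, 0 < f → f₀ ∣ f →
  ∃ (C : ZMod 3) (Φ : (ZMod f)ˣ →* Multiplicative (ZMod 3)),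
    ∀ (E Q : ℕ) (hQ : Q.Coprime f), Q.Prime → Q % 3 = 2 → AG ((N : ℤ) * (Q : ℤ) ^ E) x →
      ∀ r : ℤ, (Q : ℤ) ∣ r ^ 3 - b → OT ((N : ℤ) * (Q : ℤ) ^ E) b X Y x p q p' q' =
        C + E * ((Φ (ZMod.unitOfCoprime Q hQ)).toAdd - TAUV Q p q p' q' r)

/-- DCOU: the pairing `O_{NQ^E}(b, η)` as a function of the prime `Q = 1 (mod 3)` and of `E`. -/
def DCOU : Prop := ∀ (N : ℕ) (b X Y x p q p' q' : ℤ), 0 < N → Sol b x p q p' q' → b ≠ 0 →
  x ≠ 0 → ∃ f₀ : ℕ, 0 < f₀ ∧ ∀ f : ℕ, 0 < f → f₀ ∣ f →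
  ∃ (C : ZMod 3) (Φ : (ZMod f)ˣ →* Multiplicative (ZMod 3)) (N₀ : ℕ),
    ∀ (E Q : ℕ) (hQ : Q.Coprime f) (ρ : PP), (E = 1 ∨ E = 2) → Q.Prime → N₀ < Q → Q % 3 = 1 →
      (Q : Eis) = ρ.1 * conj ρ.1 → AG ((N : ℤ) * (Q : ℤ) ^ E) b → AG ((N : ℤ) * (Q : ℤ) ^ E) x →
      ∀ r : ℤ, (Q : ℤ) ∣ r ^ 3 - b → OT ((N : ℤ) * (Q : ℤ) ^ E) b X Y x p q p' q' =
        C + E * ((Φ (ZMod.unitOfCoprime Q hQ)).toAdd + TAUVS ρ.1 p q p' q' r)

/-! ### The governing field for `Q = 2 (mod 3)` -/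

/-- GTG -/
def GTG : Prop := ∀ (s : ℕ) (b : Fin s → ℤ) (p q p' q' : Fin s → Fin s → ℤ) (f : ℕ)
  (L : Type) [Field L] [NumberField L] (ζ ω : L), SysG b p q p' q' →
  GovF b p q p' q' f L ζ ω →
  ∀ j i, j ≠ i →
  (∀ g : L ≃ₐ[ℚ] L, g ω = ω ^ 2 → ∃! t : ZMod 3, IsT b p q p' q' ω g j i t) ∧
  (∀ (g τ : L ≃ₐ[ℚ] L) (t : ZMod 3), g ω = ω ^ 2 → IsT b p q p' q' ω g j i t →
    IsT b p q p' q' ω (τ * g * τ⁻¹) j i t) ∧
  (∀ (g : L ≃ₐ[ℚ] L) (t : ZMod 3) (k : ℕ), g ω = ω ^ 2 → Odd k → IsT b p q p' q' ω g j i t →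
    IsT b p q p' q' ω (g ^ k) j i (k * t))

/-- GFRG -/
def GFRG : Prop := ∀ (s : ℕ) (b : Fin s → ℤ) (p q p' q' : Fin s → Fin s → ℤ) (f : ℕ)
  (L : Type) [Field L] [NumberField L] (ζ ω : L), SysG b p q p' q' →
  GovF b p q p' q' f L ζ ω →
  ∃ N₀ : ℕ, ∀ Q : ℕ, Q.Prime → N₀ < Q → ∀ (P : Ideal (𝓞 L)), P.IsPrime → (Q : 𝓞 L) ∈ P →
    (∀ g : L ≃ₐ[ℚ] L, MulAction.stabilizer (L ≃ₐ[ℚ] L) P = Subgroup.zpowers g →
      ∃ k : ℕ, k.Coprime (orderOf g) ∧ IsArithFrobAt ℤ (g ^ k) P) ∧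
    ∀ φ : L ≃ₐ[ℚ] L, IsArithFrobAt ℤ φ P → Q % 3 = 2 → φ ω = ω ^ 2 ∧
      ∀ j i, j ≠ i → ∀ (r : ℤ) (t : ZMod 3), (Q : ℤ) ∣ r ^ 3 - b j →
        IsT b p q p' q' ω φ j i t → t = TAUV Q (p j i) (q j i) (p' j i) (q' j i) r

/-- GALG: summary of the governing field. -/
def GALG : Prop := ∀ (s : ℕ) (b : Fin s → ℤ) (p q p' q' : Fin s → Fin s → ℤ) (f : ℕ),
  SysG b p q p' q' → 0 < f → 9 ∣ f →
  ∃ (L : Type) (_ : Field L) (_ : NumberField L) (_ : IsGalois ℚ L)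
    (χ : (L ≃ₐ[ℚ] L) →* (ZMod f)ˣ) (t : (L ≃ₐ[ℚ] L) → Fin s → Fin s → ZMod 3) (N₀ : ℕ),
    Function.Surjective χ ∧
    (∀ g τ : L ≃ₐ[ℚ] L, M2 (χ g) → ∀ j i, j ≠ i → t (τ * g * τ⁻¹) j i = t g j i) ∧
    (∀ (g : L ≃ₐ[ℚ] L) (k : ℕ), M2 (χ g) → Odd k → ∀ j i, j ≠ i → t (g ^ k) j i = k * t g j i) ∧
    (∀ (a : (ZMod f)ˣ) (v v' : Fin s → Fin s → ZMod 3), M2 a →
      Nat.card {g : L ≃ₐ[ℚ] L // χ g = a ∧ ∀ j i, j < i → t g j i = v j i} =
        Nat.card {g : L ≃ₐ[ℚ] L // χ g = a ∧ ∀ j i, j < i → t g j i = v' j i}) ∧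
    ∀ (Q : ℕ) (hQ : Q.Coprime f), Q.Prime → N₀ < Q → ∀ (P : Ideal (𝓞 L)) (g : L ≃ₐ[ℚ] L),
      P.IsPrime → (Q : 𝓞 L) ∈ P →
      MulAction.stabilizer (L ≃ₐ[ℚ] L) P = Subgroup.zpowers g →
      ∃ k : ℕ, k.Coprime (orderOf g) ∧ χ (g ^ k) = ZMod.unitOfCoprime Q hQ ∧
        (Q % 3 = 2 → ∀ j i, j ≠ i → ∀ r : ℤ, (Q : ℤ) ∣ r ^ 3 - b j →
          t (g ^ k) j i = TAUV Q (p j i) (q j i) (p' j i) (q' j i) r)

/-- DENG: the density of the primes with nonsingular matrix. -/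
def DENG : Prop := ∀ (s : ℕ) (b : Fin s → ℤ) (p q p' q' : Fin s → Fin s → ℤ) (f m : ℕ)
  (κ : (ZMod f)ˣ →* Multiplicative (Fin (m + 1) → ZMod 3)) (c : Fin (m + 1) → ZMod 3)
  (C : Fin s → Fin s → ZMod 3) (Φ : (ZMod f)ˣ →* Multiplicative (Fin s → Fin s → ZMod 3)),
  SysG b p q p' q' → Even s → 0 < f → 9 ∣ f →
  (∀ c : Fin (m + 1) → ZMod 3,
    Nat.card {a : (ZMod f)ˣ // M2 a ∧ (κ a).toAdd = c} * (2 * 3 ^ (m + 1)) = f.totient) →
  RI.DensityGE {Q : ℕ | ∃ hQ : Q.Coprime f, Q % 3 = 2 ∧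
    (κ (ZMod.unitOfCoprime Q hQ)).toAdd = c ∧
    ∀ τ : Fin s → Fin s → ZMod 3,
      (∀ j i, j ≠ i → ∀ r : ℤ, (Q : ℤ) ∣ r ^ 3 - b j →
        τ j i = TAUV Q (p j i) (q j i) (p' j i) (q' j i) r) →
      (alt (C + (Φ (ZMod.unitOfCoprime Q hQ)).toAdd - τ)).det ≠ 0}
    (1 / (24 * 3 ^ m))

/-! ### `n` prime to `3`, all classes -/

/-- HYP0: the minus part of the Selmer group of `n q` is trivial, `q = 2 (mod 3)`. -/
def HYP0 : Prop := ∀ (n m k : ℕ) (π : Fin m → PP) (p e : Fin m → ℕ) (r f : Fin k → ℕ)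
  (w0 : ZMod 3) (c : Fin m → ZMod 3) (q : ℕ), NF n π p e r f → q.Prime →
  InCl π w0 c q → ¬ q ∣ n → wt ((n : ℤ) ^ 2) + w0 ≠ 0 → (Mp n π p e r none c).det ≠ 0 →
  HypM ((n : ℤ) * q)

/-- EMA0: the number of the classes. -/
def EMA0 : Prop := ∀ (n m k : ℕ) (π : Fin m → PP) (p e : Fin m → ℕ) (r : Fin k → ℕ),
  2 ^ m ≤ Nat.card {c : Fin m → ZMod 3 // (Mp n π p e r none c).det ≠ 0}

/-- ECL0: the system for a class, `k` even. -/
def ECL0 : Prop := ∀ (n m k : ℕ) (π : Fin m → PP) (p e : Fin m → ℕ) (r f : Fin k → ℕ)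
  (w0 : ZMod 3) (c : Fin m → ZMod 3),
  NF n π p e r f → Even k → wt ((n : ℤ) ^ 2) + w0 ≠ 0 → (Mp n π p e r none c).det ≠ 0 →
  ∃ (s : ℕ) (b : Fin s → ℤ) (P Q P' Q' : Fin s → Fin s → ℤ),
    Even s ∧ (∀ i, AdmC n π w0 c (b i)) ∧ Sys b P Q P' Q' ∧
    ∀ q : ℕ, q.Prime → InCl π w0 c q → ¬ q ∣ n → 3 < q →
      (∀ i, Adm ((n : ℤ) * q) (b i)) ∧ BOk ((n : ℤ) * q) ∧
      ((∃ X Y : ℚ, X ^ 3 + Y ^ 3 = (n : ℚ) * q) → (Mat b P Q P' Q' ((n : ℤ) * q)).det = 0)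

/-- ECS0: the systems for a class, `k` odd. -/
def ECS0 : Prop := ∀ (n m k : ℕ) (π : Fin m → PP) (p e : Fin m → ℕ) (r f : Fin k → ℕ)
  (w0 : ZMod 3) (c : Fin m → ZMod 3),
  NF n π p e r f → Odd k → wt ((n : ℤ) ^ 2) + w0 ≠ 0 → (Mp n π p e r none c).det ≠ 0 →
  ∃ v : Fin k → ℤ,
    (∀ i, v i ≠ 0 ∧ ∀ l : ℕ, l.Prime → (l : ℤ) ∣ v i → l ∣ n) ∧
    ∀ δ : Fin k → ZMod 3, δ ≠ 0 → ∃ (s : ℕ) (b : Fin (s + 1) → ℤ)
      (P Q P' Q' : Fin (s + 1) → Fin (s + 1) → ℤ), s + 1 = k ∧ SysG b P Q P' Q' ∧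
      (∀ i, b i ≠ 0) ∧
      (∀ ρ : PP, ¬ ρ.1 ∣ (n : Eis) → (∀ i : Fin s, sym ρ.1 (b i.castSucc : Eis) = 0) →
        sym ρ.1 (b (Fin.last s) : Eis) ≠ 0 →
        ∃ ε : ZMod 3, ε ≠ 0 ∧ ∀ i, sym ρ.1 (v i : Eis) = ε * δ i) ∧
      ∀ (q : ℕ) (ρ : PP), q.Prime → InClS π w0 c q → ¬ q ∣ n → 3 < q →
        (q : Eis) = ρ.1 * conj ρ.1 → (∀ i : Fin s, sym ρ.1 (b i.castSucc : Eis) = 0) →
        sym ρ.1 (b (Fin.last s) : Eis) ≠ 0 →
        BOk ((n : ℤ) * q) ∧ (∀ i : Fin s, Adm ((n : ℤ) * q) (b i.castSucc)) ∧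
        (∀ i j, Mat (rv b) (rs P) (rs Q) (rs P') (rs Q') ((n : ℤ) * q) i j =
          - Mat (rv b) (rs P) (rs Q) (rs P') (rs Q') ((n : ℤ) * q) j i) ∧
        ((∃ X Y : ℚ, X ^ 3 + Y ^ 3 = (n : ℚ) * q) →
          (Mat (rv b) (rs P) (rs Q) (rs P') (rs Q') ((n : ℤ) * q)).det = 0)

/-! ### The theorems -/

/-- FCL0: one class, `3` does not divide `n`, `k` even. -/
def FCL0 : Prop := ∀ (n m k : ℕ) (π : Fin m → PP) (p e : Fin m → ℕ) (r f : Fin k → ℕ)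
  (w0 : ZMod 3) (c : Fin m → ZMod 3),
  NF n π p e r f → Even k → wt ((n : ℤ) ^ 2) + w0 ≠ 0 → (Mp n π p e r none c).det ≠ 0 →
  RI.DensityGE {q : ℕ | InCl π w0 c q ∧ ¬ ∃ X Y : ℚ, X ^ 3 + Y ^ 3 = (n : ℚ) * q}
    (1 / (24 * 3 ^ m))

/-- FCS0: one class, `3` does not divide `n`, `k` odd. -/
def FCS0 : Prop := ∀ (n m k : ℕ) (π : Fin m → PP) (p e : Fin m → ℕ) (r f : Fin k → ℕ)
  (w0 : ZMod 3) (c : Fin m → ZMod 3),
  NF n π p e r f → Odd k → (w0 ≠ 0 ∨ c ≠ 0) → wt ((n : ℤ) ^ 2) + w0 ≠ 0 →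
  (Mp n π p e r none c).det ≠ 0 →
  RI.DensityGE {q : ℕ | InClS π w0 c q ∧ ¬ ∃ X Y : ℚ, X ^ 3 + Y ^ 3 = (n : ℚ) * q}
    (1 / (30 * 3 ^ m))

/-- FCLT: one class, `3^h n`, `h + k` even. -/
def FCLT : Prop := ∀ (h n m k : ℕ) (π : Fin m → PP) (p e : Fin m → ℕ) (r f : Fin k → ℕ)
  (w0 : ZMod 3) (c : Fin m → ZMod 3),
  NF n π p e r f → (h = 1 ∨ h = 2) → Even (h + k) → (Mt h n π p e w0 c).det ≠ 0 →
  RI.DensityGE {q : ℕ | InCl π w0 c q ∧
    ¬ ∃ X Y : ℚ, X ^ 3 + Y ^ 3 = ((3 ^ h * n : ℕ) : ℚ) * q} (1 / (24 * 3 ^ m))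

/-- FCLU: one class, `3^h n`, `h + k` odd. -/
def FCLU : Prop := ∀ (h n m k : ℕ) (π : Fin m → PP) (p e : Fin m → ℕ) (r f : Fin k → ℕ)
  (w0 : ZMod 3) (c : Fin m → ZMod 3),
  NF n π p e r f → (h = 1 ∨ h = 2) → Odd (h + k) → (w0 ≠ 0 ∨ c ≠ 0) →
  (Mt h n π p e w0 c).det ≠ 0 →
  RI.DensityGE {q : ℕ | InClS π w0 c q ∧
    ¬ ∃ X Y : ℚ, X ^ 3 + Y ^ 3 = ((3 ^ h * n : ℕ) : ℚ) * q} (1 / (30 * 3 ^ m))

/-- DADD: sum of the densities of disjoint sets. -/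
def DADD : Prop := ∀ (ι : Type) [Fintype ι] (S : ι → Set ℕ) (T : Set ℕ) (d : ℝ), 0 ≤ d →
  (∀ i, RI.DensityGE (S i) d) → (∀ i, S i ⊆ T) → (∀ i j, i ≠ j → Disjoint (S i) (S j)) →
  ∀ N : ℕ, N ≤ Fintype.card ι → RI.DensityGE T (N * d)

/-- FIN0: `n` prime to `3`. -/
def FIN0 : Prop := ∀ (n m k : ℕ) (π : Fin m → PP) (p e : Fin m → ℕ) (r f : Fin k → ℕ),
  NF n π p e r f →
  (Even k → RI.DensityGE {q : ℕ | ¬ ∃ X Y : ℚ, X ^ 3 + Y ^ 3 = (n : ℚ) * q}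
    (2 ^ m / (12 * 3 ^ m))) ∧
  RI.DensityGE {q : ℕ | ¬ ∃ X Y : ℚ, X ^ 3 + Y ^ 3 = (n : ℚ) * q} (2 ^ m / (30 * 3 ^ m))

/-- FIN3: `3^h n`. -/
def FIN3 : Prop := ∀ (h n m k : ℕ) (π : Fin m → PP) (p e : Fin m → ℕ) (r f : Fin k → ℕ),
  NF n π p e r f → (h = 1 ∨ h = 2) →
  (Even (h + k) →
    RI.DensityGE {q : ℕ | ¬ ∃ X Y : ℚ, X ^ 3 + Y ^ 3 = ((3 ^ h * n : ℕ) : ℚ) * q}
      (2 ^ m / (12 * 3 ^ m))) ∧
  RI.DensityGE {q : ℕ | ¬ ∃ X Y : ℚ, X ^ 3 + Y ^ 3 = ((3 ^ h * n : ℕ) : ℚ) * q}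
    (2 ^ m / (30 * 3 ^ m))

/-- MAIN3: the theorem for all `n`. -/
def MAIN3 : Prop := ∀ n : ℕ, 0 < n →
  (∃ C : ℝ, ∀ s : ℝ, 1 < s → s ≤ 2 →
    (2 / 3) ^ Nat.card {p : ℕ // p.Prime ∧ p % 3 = 1 ∧ ¬ 3 ∣ n.factorization p} / 30 *
      Real.log (1 / (s - 1)) - C ≤
    ∑' q : {q : ℕ // q.Prime ∧ ¬ ∃ X Y : ℚ, X ^ 3 + Y ^ 3 = (n : ℚ) * q}, (q : ℝ) ^ (-s)) ∧
  (Even (n.factorization 3 % 3 +
      Nat.card {p : ℕ // p.Prime ∧ p % 3 = 2 ∧ ¬ 3 ∣ n.factorization p}) →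
    ∃ C : ℝ, ∀ s : ℝ, 1 < s → s ≤ 2 →
    (2 / 3) ^ Nat.card {p : ℕ // p.Prime ∧ p % 3 = 1 ∧ ¬ 3 ∣ n.factorization p} / 12 *
      Real.log (1 / (s - 1)) - C ≤
    ∑' q : {q : ℕ // q.Prime ∧ ¬ ∃ X Y : ℚ, X ^ 3 + Y ^ 3 = (n : ℚ) * q}, (q : ℝ) ^ (-s))

end Pool.Agent.PT3

end

section

/-!
# TPT: the pairing vanishes on the class of a point
-/

namespace Pool.Agent.PT3

open Pool.Agent.Lib_helper18 Pool.Agent.Lib_helper18.Eis Pool.Agent.Lib_helper84.Cub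
open Pool.Agent.PT Pool.Agent.PTE

namespace TPT

theorem sol_swap {b x p q p' q' : ℤ} (h : Sol b x p q p' q') : Sol x b p (-p') (-q) q' where
  eq := by linear_combination h.eq
  n1 := by
    intro h0
    apply h.n2
    linear_combination h0
  n2 := by
    intro h0
    apply h.n1
    linear_combination h0

theorem Gf_swap (p q p' q' : ℤ) (i : ℕ) : Gf p (-p') (-q) q' i = Gf p q p' q' i := by
  unfold Gf
  push_cast
  ring

theorem UV_swap {s : Eis → Eis → ZMod 3} (B b x p q p' q' : ℤ) :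
    UV s B x b p (-p') (-q) q' = UV s B b x p q p' q' := by
  unfold UV
  rw [Gf_swap, Gf_swap]
  have : B * b * x = B * x * b := by ring
  rw [this]

theorem Df_one (u v : ℤ) (i : ℕ) : Df 1 0 u v i = u := by
  unfold Df
  push_cast
  ring

/-- the local term at the point at infinity -/
theorem SV_one (s : Eis → Eis → ZMod 3) (x p q p' q' : ℤ) : SV s x p q p' q' 1 0 = 0 := by
  unfold SV
  simp only [Df_one]
  ring

theorem n0_ne {B x X Y : ℤ} (hB : B ≠ 0) (h : Pt B x X Y) : X ^ 3 + x * Y ^ 3 ≠ 0 := by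
  obtain ⟨-, -, c, hc, e⟩ := h
  intro h0
  rw [h0, mul_zero] at e
  exact mul_ne_zero hB (pow_ne_zero 3 hc) e.symm

theorem three_mul (a : ZMod 3) : a + (a + a) = 0 := by
  revert a
  decide

theorem ptL (hLCL : LCL) {B x X Y : ℤ} (hB : B ≠ 0) (h : Pt B x X Y) : PtL B x X Y := by
  have hn := n0_ne hB h
  obtain ⟨hX, hY, c, hc, e⟩ := h
  refine ⟨hX, hY, hn, ?_⟩
  have h2 := hLCL.2.1
  have e1 := h2 c (c * c) hc (mul_ne_zero hc hc)
  have e2 := h2 c c hc hc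
  have e3 := h2 B (c * (c * c)) hB (mul_ne_zero hc (mul_ne_zero hc hc))
  have e4 : B * c ^ 3 = B * (c * (c * c)) := by ring
  rw [e, e4, e3.1, e3.2, e1.1, e1.2, e2.1, e2.2, three_mul, three_mul]
  exact ⟨add_zero _, add_zero _⟩

/-- the local identity at `lam` -/
theorem lam_case (hLVA : LVA) (hLVB : LVB) (hLVC : LVC) (hLE1 : LE1) (hLE3 : LE3)
    {B b x p q p' q' X Y X₀ Y₀ : ℤ} (hB : B ≠ 0) (hb : b ≠ 0) (hx : x ≠ 0)
    (hS : Sol b x p q p' q') (hP : PtL B x X₀ Y₀)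
    (h : LC lam b ∨
      (lv b = lv B ∧ lw b = lw B ∧ X = 1 ∧ Y = 0 ∧ (LC lam x ∨ lv B = 1)) ∨
      (lv B = 1 ∧ ¬ LC lam b ∧ PtL B b X Y ∧ (LC lam x ∨ (lv x = lv B ∧ lw x = lw B)))) :
    TT none B b x p q p' q' =
      UV (sy none) B b x p q p' q' - SV (sy none) x p q p' q' X₀ Y₀ -
        OT B b X Y x p q p' q' + OO B b x p q p' q' := by
  have e0 : sy none = sl := rfl
  rw [e0]
  unfold OT
  by_cases hc : LC lam b
  · rw [if_pos hc, hLVA B b x p q p' q' X₀ Y₀ hB hb hx hS hc hP]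
    ring
  · rw [if_neg hc]
    have hT : TT none B b x p q p' q' = 0 := by
      unfold TT
      rw [if_neg]
      exact hc
    rw [hT]
    rcases h with h | ⟨h1, h2, rfl, rfl, h5⟩ | ⟨h1, -, h3, h4⟩
    · exact absurd h hc
    · rw [SV_one]
      have key : SV sl x p q p' q' X₀ Y₀ = UV sl B b x p q p' q' := by
        by_cases hcx : LC lam x
        · exact hLVB B b x p q p' q' X₀ Y₀ hB hb hx hS hcx h1 h2 hP
        · exact hLE1 B b x p q p' q' X₀ Y₀ hB hb hx hS (h5.resolve_left hcx) h1 h2 hcx hP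
      rw [key]
      ring
    · by_cases hcx : LC lam x
      · rw [hLVC B b x p q p' q' X₀ Y₀ X Y hB hb hx hS h1 hcx hP h3]
        ring
      · obtain ⟨h5, h6⟩ := h4.resolve_left hcx
        rw [hLE3 B b x p q p' q' X₀ Y₀ hB hb hx hS h1 h5 h6 hP,
          hLE1 B x b p (-p') (-q) q' X Y hB hx hb (sol_swap hS) h1 h5 h6 hc h3, UV_swap]
        ring

end TPT

theorem TPT_thm (hSTM : STM) (hSPP : SPP) (hSSL : SSL) (hSLC : SLC) (hSCJ : SCJ) (hLCI : LCI)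
    (hAVV : AVV) (hLFIG : LFIG) (hLFIN : LFIN) (hLEVG : LEVG) (hLVA : LVA) (hLVB : LVB)
    (hLVC : LVC) (hLE1 : LE1) (hLE3 : LE3) (hLCL : LCL) : TPT := by
  intro B b x p q p' q' X Y X₀ Y₀ hB hb hx hS hP h
  have hn := TPT.n0_ne hB.ne hP
  have hPL := TPT.ptL hLCL hB.ne hP
  have hlam := TPT.lam_case hLVA hLVB hLVC hLE1 hLE3 hB.ne hb.ne hx.ne hS hPL h
  obtain ⟨f1, e1⟩ := hLFIN.2.1 B b x p q p' q' hB.ne hb.ne hx.ne hS
  obtain ⟨f2, e2⟩ := hLFIN.2.2 b x p q p' q' X₀ Y₀ hb.ne hx.ne hS hP.hX hP.hY hn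
  have f3 := hLFIG B b x p q p' q' hB hb hx hS.toSolW
  have e3 : ∑ᶠ v : Pl, (UV (sy v) B b x p q p' q' - SV (sy v) x p q p' q' X₀ Y₀) = 0 := by
    rw [finsum_sub_distrib f1 f2, e1, e2, sub_zero]
  set E : ZMod 3 := OT B b X Y x p q p' q' - OO B b x p q p' q' with hE
  have f4 : (Function.support fun v : Pl => if v = none then E else 0).Finite := by
    refine Set.Finite.subset (Set.finite_singleton (none : Pl)) ?_
    intro v hv
    by_contra hne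
    exact hv (if_neg hne)
  have e4 : ∑ᶠ v : Pl, (if v = none then E else 0) = E := by
    rw [finsum_eq_single _ (none : Pl) (fun v hv => if_neg hv), if_pos rfl]
  have e5 : ∀ v : Pl, TT v B b x p q p' q' + (if v = none then E else 0) =
      UV (sy v) B b x p q p' q' - SV (sy v) x p q p' q' X₀ Y₀ := by
    intro v
    cases v with
    | none =>
      rw [if_pos rfl, hlam, hE]
      ring
    | some π =>
      rw [if_neg (by simp), add_zero]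
      exact hLEVG π B b x p q p' q' X₀ Y₀ hB hb hx hS hP
  rw [← finsum_congr e5, finsum_add_distrib f3 f4, e4, hE] at e3
  have e6 : ∑ᶠ v : Pl, TT v B b x p q p' q' = OO B b x p q p' q' := rfl
  rw [e6] at e3
  rw [← e3]
  ring

end Pool.Agent.PT3

end

section

/-!
# Prime twists of rank zero: the theorem for numbers in normal form
-/

set_option autoImplicit false

open NumberField IsDedekindDomain Finset
open scoped nonZeroDivisors Pointwise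

namespace Pool.Agent.PT

open Pool.Agent.Lib_helper18 Pool.Agent.Lib_helper18.Eis Pool.Agent.Lib_helper84.Cub

namespace FINA

theorem pos_of_nf {n m k : ℕ} {π : Fin m → PP} {p e : Fin m → ℕ} {r f : Fin k → ℕ}
    (h : NF n π p e r f) : 0 < n := by
  rw [h.eq]
  exact Nat.mul_pos (Finset.prod_pos fun i _ => pow_pos (h.pp i).pos _)
    (Finset.prod_pos fun j _ => pow_pos (h.rp j).pos _)

theorem three_of_nf {n m k : ℕ} {π : Fin m → PP} {p e : Fin m → ℕ} {r f : Fin k → ℕ}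
    (h : NF n π p e r f) : ¬ 3 ∣ n := by
  rw [h.eq]
  intro h0
  rcases (Nat.prime_three.dvd_mul).1 h0 with h1 | h1
  · obtain ⟨i, _, hi⟩ := (Nat.prime_three.prime.dvd_finsetProd_iff _).1 h1
    have h2 := Nat.prime_three.dvd_of_dvd_pow hi
    have h3 := h.p1 i
    omega
  · obtain ⟨i, _, hi⟩ := (Nat.prime_three.prime.dvd_finsetProd_iff _).1 h1
    have h2 := Nat.prime_three.dvd_of_dvd_pow hi
    have h3 := h.r2 i
    omega

/-- The homomorphism with given components. -/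
def assemble {s F : ℕ} (Φ : Fin s → Fin s → ((ZMod F)ˣ →* Multiplicative (ZMod 3))) :
    (ZMod F)ˣ →* Multiplicative (Fin s → Fin s → ZMod 3) where
  toFun := fun a => Multiplicative.ofAdd fun j i => (Φ j i a).toAdd
  map_one' := by
    apply Multiplicative.toAdd.injective
    funext j i
    simp
  map_mul' := fun a a' => by
    apply Multiplicative.toAdd.injective
    funext j i
    simp

theorem assemble_apply {s F : ℕ} (Φ : Fin s → Fin s → ((ZMod F)ˣ →* Multiplicative (ZMod 3)))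
    (a : (ZMod F)ˣ) (j i : Fin s) : (assemble Φ a).toAdd j i = (Φ j i a).toAdd := rfl

end FINA

/-- The theorem for numbers in normal form. -/
theorem FINA_thm (hSPP : SPP) (hECL : ECL) (hDCONST : DCONST) (hCLSC : CLSC) (hDENS : DENS)
    (hTEND : TEND) : FINA := by
  intro n m k π p e r f hNF hk
  obtain ⟨w0, c, s, b, P, Q, P', Q', hs, hadm, hsys, hq⟩ := hECL n m k π p e r f hNF hk
  have hn : 0 < n := FINA.pos_of_nf hNF
  have h3 : ¬ 3 ∣ n := FINA.three_of_nf hNF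
  have hD : ∀ j i : Fin s, ∃ f₀ : ℕ, 0 < f₀ ∧ ∀ F : ℕ, 0 < F → f₀ ∣ F →
      ∃ (C : ZMod 3) (Φ : (ZMod F)ˣ →* Multiplicative (ZMod 3)) (N₀ : ℕ), j ≠ i →
        ∀ (q : ℕ) (hQ : q.Coprime F), q.Prime → N₀ < q → q % 3 = 2 → BOk ((n : ℤ) * q) →
          Adm ((n : ℤ) * q) (b j) → Adm ((n : ℤ) * q) (b i) → ∀ t : ℤ, (q : ℤ) ∣ t ^ 3 - b j →
          OO ((n : ℤ) * q) (b j) (b i) (P j i) (Q j i) (P' j i) (Q' j i) =
            C + (Φ (ZMod.unitOfCoprime q hQ)).toAdd -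
              TAUV q (P j i) (Q j i) (P' j i) (Q' j i) t := by
    intro j i
    by_cases hji : j = i
    · exact ⟨1, one_pos, fun F _ _ => ⟨0, 1, 0, fun h => absurd hji h⟩⟩
    · obtain ⟨f₀, hf₀, h⟩ := hDCONST n (b j) (b i) (P j i) (Q j i) (P' j i) (Q' j i) hn h3
        (hsys.sol j i hji) (hadm j).ne (hadm i).ne
      refine ⟨f₀, hf₀, fun F hF hd => ?_⟩
      obtain ⟨C, Φ, N₀, h'⟩ := h F hF hd
      exact ⟨C, Φ, N₀, fun _ => h'⟩
  choose f₀ hf₀ hD1 using hD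
  obtain ⟨F, hF, h9, hpF, hfF⟩ : ∃ F : ℕ, 0 < F ∧ 9 ∣ F ∧ (∀ i, p i ∣ F) ∧ ∀ j i, f₀ j i ∣ F := by
    refine ⟨9 * (∏ i, p i) * ∏ j, ∏ i, f₀ j i, ?_, ?_, ?_, ?_⟩
    · have h1 : 0 < ∏ i, p i := Finset.prod_pos fun i _ => (hNF.pp i).pos
      have h2 : 0 < ∏ j, ∏ i, f₀ j i :=
        Finset.prod_pos fun j _ => Finset.prod_pos fun i _ => hf₀ j i
      positivity
    · exact Dvd.dvd.mul_right (Dvd.intro _ rfl) _
    · intro i
      exact Dvd.dvd.mul_right (Dvd.dvd.mul_left (Finset.dvd_prod_of_mem p (mem_univ i)) _) _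
    · intro j i
      exact Dvd.dvd.mul_left ((Finset.dvd_prod_of_mem (fun i => f₀ j i) (mem_univ i)).trans
        (Finset.dvd_prod_of_mem (fun j => ∏ i, f₀ j i) (mem_univ j))) _
  choose C Φ N₀ hD2 using fun j i => hD1 j i F hF (hfF j i)
  obtain ⟨κ, hκ, hcount⟩ := hCLSC m π p hNF.pp hNF.p1 hNF.pπ hNF.pinj F hF h9 hpF
  have hdens := hDENS s b P Q P' Q' F m κ (Fin.cons w0 c) C (FINA.assemble Φ) hsys hs hF h9 hcount
  refine RI.PDGE_thm _ _ (Finset.range (n + 3 + ∑ j, ∑ i, N₀ j i + 1)) _ hdens ?_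
  rintro q ⟨hQ, hq3, hκq, hdet⟩ hqp hqA hXY
  rw [Finset.mem_range, not_lt] at hqA
  have hN : ∀ j i, N₀ j i ≤ ∑ j, ∑ i, N₀ j i := by
    intro j i
    exact (Finset.single_le_sum (f := fun i => N₀ j i) (fun i _ => Nat.zero_le _)
      (mem_univ i)).trans (Finset.single_le_sum (f := fun j => ∑ i, N₀ j i)
        (fun j _ => Nat.zero_le _) (mem_univ j))
  rw [hκ q hQ] at hκq
  have hcl : InCl π w0 c q := by
    refine ⟨hq3, ?_, fun i => ?_⟩
    · have := congrFun hκq 0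
      simpa using this
    · have := congrFun hκq i.succ
      simpa using this
  have hqn : ¬ q ∣ n := fun h => by
    have := Nat.le_of_dvd hn h
    omega
  obtain ⟨hA, hB, hM⟩ := hq q hqp hcl hqn (by omega)
  have hM0 := hM hXY
  have hskew := (hTEND s b P Q P' Q' ((n : ℤ) * q) hsys hB hA).1
  let τ : Fin s → Fin s → ZMod 3 := fun j i =>
    C j i + (Φ j i (ZMod.unitOfCoprime q hQ)).toAdd -
      OO ((n : ℤ) * q) (b j) (b i) (P j i) (Q j i) (P' j i) (Q' j i)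
  apply hdet τ
  · intro j i hji t ht
    have h1 := hD2 j i hji q hQ hqp (by have := hN j i; omega) hq3 hB (hA j) (hA i) t ht
    simp only [τ]
    rw [h1]
    ring
  · rw [← hM0]
    congr 1
    ext j i
    have hv : ∀ j i, (C + (FINA.assemble Φ (ZMod.unitOfCoprime q hQ)).toAdd - τ) j i =
        OO ((n : ℤ) * q) (b j) (b i) (P j i) (Q j i) (P' j i) (Q' j i) := by
      intro j i
      simp only [Pi.sub_apply, Pi.add_apply, τ, FINA.assemble_apply]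
      ring
    unfold alt
    rw [hv, hv]
    by_cases h1 : j < i
    · rw [if_pos h1]
      unfold Mat
      rw [if_neg h1.ne]
    · rw [if_neg h1]
      by_cases h2 : i < j
      · rw [if_pos h2, hskew j i]
        unfold Mat
        rw [if_neg h2.ne]
      · rw [if_neg h2]
        have h3 : j = i := le_antisymm (not_lt.1 h2) (not_lt.1 h1)
        unfold Mat
        rw [if_pos h3]

end Pool.Agent.PT

end

section

/-!
# Prime twists of rank zero: module DSUM (sum of densities)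
-/

open Finset

namespace Pool.Agent.PTE

namespace DSUM

open RI.PD in
/-- the pointwise inequality -/
lemma point {ι : Type} [Fintype ι] (S S' : ι → Set ℕ) (T R : Set ℕ) (N : ℕ)
    (h3 : ∀ i q, q.Prime → N < q → q ∈ S' i → q ∈ R)
    (h4 : ∀ i q, q.Prime → N < q → q ∈ S i → q ∈ T)
    (h5 : ∀ q : ℕ, q.Prime → N < q → ∃ i₁ i₂, ∀ i, q ∈ S i ∨ q ∈ S' i → i = i₁ ∨ i = i₂)
    (s : ℝ) (n : ℕ) :
    ∑ i : ι, Set.indicator {q : ℕ | q.Prime ∧ q ∈ S i ∪ S' i} (fun n : ℕ => (n : ℝ) ^ (-s)) n ≤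
      2 * Set.indicator {q : ℕ | q.Prime ∧ q ∈ T} (fun n : ℕ => (n : ℝ) ^ (-s)) n +
      2 * Set.indicator {q : ℕ | q.Prime ∧ q ∈ R} (fun n : ℕ => (n : ℝ) ^ (-s)) n +
      Fintype.card ι * Set.indicator ((Finset.range (N + 1) : Finset ℕ) : Set ℕ)
        (fun n : ℕ => (n : ℝ) ^ (-s)) n := by
  classical
  have hg := term_nonneg s n
  have hT0 : 0 ≤ Set.indicator {q : ℕ | q.Prime ∧ q ∈ T} (fun n : ℕ => (n : ℝ) ^ (-s)) n :=
    Set.indicator_nonneg (fun x _ => term_nonneg s x) n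
  have hR0 : 0 ≤ Set.indicator {q : ℕ | q.Prime ∧ q ∈ R} (fun n : ℕ => (n : ℝ) ^ (-s)) n :=
    Set.indicator_nonneg (fun x _ => term_nonneg s x) n
  have hN0 : 0 ≤ (Fintype.card ι : ℝ) * Set.indicator ((Finset.range (N + 1) : Finset ℕ) : Set ℕ)
      (fun n : ℕ => (n : ℝ) ^ (-s)) n :=
    mul_nonneg (Nat.cast_nonneg _) (Set.indicator_nonneg (fun x _ => term_nonneg s x) n)
  by_cases hp : n.Prime
  swap
  · have h0 : ∑ i : ι, Set.indicator {q : ℕ | q.Prime ∧ q ∈ S i ∪ S' i}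
        (fun n : ℕ => (n : ℝ) ^ (-s)) n = 0 := by
      refine Finset.sum_eq_zero fun i _ => ?_
      rw [Set.indicator_of_notMem]
      rintro ⟨h, _⟩
      exact hp h
    rw [h0]
    linarith
  by_cases hN : n ≤ N
  · have h1 : ∑ i : ι, Set.indicator {q : ℕ | q.Prime ∧ q ∈ S i ∪ S' i}
        (fun n : ℕ => (n : ℝ) ^ (-s)) n ≤ ∑ _i : ι, (n : ℝ) ^ (-s) := by
      refine Finset.sum_le_sum fun i _ => ?_
      exact Set.indicator_le_self' (fun x _ => term_nonneg s x) n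
    rw [Finset.sum_const, nsmul_eq_mul, Finset.card_univ] at h1
    have h2 : n ∈ ((Finset.range (N + 1) : Finset ℕ) : Set ℕ) := by
      simp only [Finset.coe_range, Set.mem_Iio]
      omega
    rw [Set.indicator_of_mem h2]
    linarith
  · have hN' : N < n := not_le.1 hN
    obtain ⟨i₁, i₂, hi⟩ := h5 n hp hN'
    by_cases hex : ∃ i, n ∈ S i ∪ S' i
    · -- the indicator of `T` or `R` is positive
      have h1 : ∑ i : ι, Set.indicator {q : ℕ | q.Prime ∧ q ∈ S i ∪ S' i}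
          (fun n : ℕ => (n : ℝ) ^ (-s)) n ≤ 2 * (n : ℝ) ^ (-s) := by
        have h2 : ∑ i : ι, Set.indicator {q : ℕ | q.Prime ∧ q ∈ S i ∪ S' i}
            (fun n : ℕ => (n : ℝ) ^ (-s)) n =
            ∑ i ∈ ({i₁, i₂} : Finset ι), Set.indicator {q : ℕ | q.Prime ∧ q ∈ S i ∪ S' i}
            (fun n : ℕ => (n : ℝ) ^ (-s)) n := by
          symm
          refine Finset.sum_subset (Finset.subset_univ _) fun i _ hi' => ?_
          rw [Set.indicator_of_notMem]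
          rintro ⟨_, h⟩
          rcases hi i h with h | h
          · exact hi' (by rw [h]; exact Finset.mem_insert_self _ _)
          · exact hi' (by rw [h]; exact Finset.mem_insert_of_mem (Finset.mem_singleton_self _))
        rw [h2]
        have h6 : ∑ i ∈ ({i₁, i₂} : Finset ι), Set.indicator {q : ℕ | q.Prime ∧ q ∈ S i ∪ S' i}
            (fun n : ℕ => (n : ℝ) ^ (-s)) n ≤ ∑ _i ∈ ({i₁, i₂} : Finset ι), (n : ℝ) ^ (-s) :=
          Finset.sum_le_sum fun i _ => Set.indicator_le_self' (fun x _ => term_nonneg s x) n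
        rw [Finset.sum_const, nsmul_eq_mul] at h6
        have h7 : (({i₁, i₂} : Finset ι).card : ℝ) ≤ 2 := by
          exact_mod_cast Finset.card_le_two
        have h8 := mul_le_mul_of_nonneg_right h7 hg
        linarith
      obtain ⟨i, hi'⟩ := hex
      rcases hi' with h | h
      · have h2 : n ∈ {q : ℕ | q.Prime ∧ q ∈ T} := ⟨hp, h4 i n hp hN' h⟩
        rw [Set.indicator_of_mem h2]
        linarith
      · have h2 : n ∈ {q : ℕ | q.Prime ∧ q ∈ R} := ⟨hp, h3 i n hp hN' h⟩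
        rw [Set.indicator_of_mem h2]
        linarith
    · have h0 : ∑ i : ι, Set.indicator {q : ℕ | q.Prime ∧ q ∈ S i ∪ S' i}
          (fun n : ℕ => (n : ℝ) ^ (-s)) n = 0 := by
        refine Finset.sum_eq_zero fun i _ => ?_
        rw [Set.indicator_of_notMem]
        rintro ⟨_, h⟩
        exact hex ⟨i, h⟩
      rw [h0]
      linarith

end DSUM

open _root_.Pool.Agent.PTE.DSUM RI.PD in
theorem DSUM_thm : DSUM := by
  classical
  intro ι _ S S' T R d u N h1 h2 h3 h4 h5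
  obtain ⟨K, hK⟩ := h2
  choose C hC using h1
  refine ⟨(∑ i, C i + 2 * K + Fintype.card ι * ((Finset.range (N + 1)).card : ℝ)) / 2,
    fun s hs hs2 => ?_⟩
  have hKs := hK s hs hs2
  rw [sub_eq] at hKs ⊢
  have hsum := summ hs
  have hSi : ∀ i ∈ (Finset.univ : Finset ι), Summable (Set.indicator
      {q : ℕ | q.Prime ∧ q ∈ S i ∪ S' i} (fun n : ℕ => (n : ℝ) ^ (-s))) :=
    fun i _ => hsum.indicator _
  have hT := (hsum.indicator {q : ℕ | q.Prime ∧ q ∈ T}).mul_left 2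
  have hR := (hsum.indicator {q : ℕ | q.Prime ∧ q ∈ R}).mul_left 2
  have hA := (hsum.indicator ((Finset.range (N + 1) : Finset ℕ) : Set ℕ)).mul_left
    (Fintype.card ι : ℝ)
  have h6 := (summable_sum hSi).tsum_le_tsum
    (fun n => by
      have := point S S' T R N h3 h4 h5 s n
      simpa using this) ((hT.add hR).add hA)
  rw [Summable.tsum_finsetSum hSi, (hT.add hR).tsum_add hA, hT.tsum_add hR, tsum_mul_left,
    tsum_mul_left, tsum_mul_left] at h6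
  have h7 : ∑ i : ι, (d * Real.log (1 / (s - 1)) - C i) ≤ ∑ i : ι, ∑' n : ℕ,
      Set.indicator {q : ℕ | q.Prime ∧ q ∈ S i ∪ S' i} (fun n : ℕ => (n : ℝ) ^ (-s)) n := by
    refine Finset.sum_le_sum fun i _ => ?_
    have h8 := hC i s hs hs2
    rwa [sub_eq] at h8
  rw [Finset.sum_sub_distrib, Finset.sum_const, nsmul_eq_mul, Finset.card_univ] at h7
  have h9 := fin_le hs (Finset.range (N + 1))
  have h10 := mul_le_mul_of_nonneg_left h9 (Nat.cast_nonneg (α := ℝ) (Fintype.card ι))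
  have h11 : (Fintype.card ι * d - 2 * u) / 2 * Real.log (1 / (s - 1)) =
      (Fintype.card ι * (d * Real.log (1 / (s - 1))) - 2 * (u * Real.log (1 / (s - 1)))) / 2 := by
    ring
  rw [h11]
  linarith

end Pool.Agent.PTE

end

section

/-!
# EADM: `AdmC` and `Adm`
-/

set_option autoImplicit false

namespace Pool.Agent.PT

open Pool.Agent.Lib_helper18 Pool.Agent.Lib_helper18.Eis Pool.Agent.Lib_helper84.Cub

namespace EADM

theorem up_eq {π a c : Eis} {k : ℕ} (hπ : Prime π) (hc : ¬ π ∣ c) (ha : a = π ^ k * c) :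
    V π a = k ∧ up π a = c := by
  have h1 : V π a = k := by rw [ha]; exact V_pow_mul hπ k hc
  refine ⟨h1, ?_⟩
  unfold up
  rw [h1, ha]
  exact mul_div_cancel_left₀ c (pow_ne_zero _ hπ.ne_zero)

theorem up_spec {π a : Eis} (hπ : Prime π) (ha : a ≠ 0) :
    a = π ^ V π a * up π a ∧ ¬ π ∣ up π a := by
  obtain ⟨c, hc, hd⟩ := V_split hπ ha
  have h1 := (up_eq hπ hd hc).2
  rw [h1]
  exact ⟨hc, hd⟩

theorem ch_mul {π a b : Eis} (hπ : Prime π) (h3 : ¬ π ∣ 3) (ha : a ≠ 0) (hb : b ≠ 0) :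
    ch π (a * b) = ch π a + ch π b := by
  obtain ⟨h1, h2⟩ := up_spec hπ ha
  obtain ⟨h3', h4⟩ := up_spec hπ hb
  have h5 : a * b = π ^ (V π a + V π b) * (up π a * up π b) := by
    conv_lhs => rw [h1, h3']
    ring
  have h6 : ¬ π ∣ up π a * up π b := fun h => (hπ.dvd_or_dvd h).elim h2 h4
  have h7 := (up_eq hπ h6 h5).2
  unfold ch
  rw [h7, sym_mul hπ h3 h2 h4]

theorem ch_unit {π a : Eis} (hπ : Prime π) (h : ¬ π ∣ a) : ch π a = sym π a := by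
  have h1 := (up_eq (k := 0) hπ h (by simp : a = π ^ 0 * a)).2
  unfold ch
  rw [h1]

/-- the rational prime below a prime of `Z[w]` -/
structure Below (π : PP) (p : ℕ) : Prop where
  pr : p.Prime
  h : (p % 3 = 2 ∧ π.1 = (p : Eis)) ∨
    (p % 3 = 1 ∧ π.1.norm = p ∧ (p : Eis) = π.1 * conj π.1 ∧ ¬ Associated π.1 (conj π.1))

theorem Below.dvd_int {π : PP} {p : ℕ} (h : Below π p) (m : ℤ) :
    π.1 ∣ (m : Eis) ↔ (p : ℤ) ∣ m := by
  have := Fact.mk h.pr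
  rcases h.h with ⟨_, h2⟩ | ⟨_, h2, _, _⟩
  · rw [h2]
    have := intCast_dvd_intCast (m := (p : ℤ)) (n := m)
    rwa [Int.cast_natCast] at this
  · exact dvd_intCast_iff h2

theorem Below.dvd_nat {π : PP} {p : ℕ} (h : Below π p) (m : ℕ) :
    π.1 ∣ (m : Eis) ↔ p ∣ m := by
  have h1 := h.dvd_int (m : ℤ)
  rw [Int.cast_natCast] at h1
  rw [h1]
  exact Int.natCast_dvd_natCast

theorem Below.V_self {π : PP} {p : ℕ} (h : Below π p) : V π.1 (p : Eis) = 1 := by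
  rcases h.h with ⟨_, h2⟩ | ⟨_, _, h3, h4⟩
  · rw [← h2]
    exact Lib_helper84.Cub.V_self
  · rw [h3]
    have h5 : ¬ π.1 ∣ conj π.1 := fun h6 =>
      h4 (π.2.1.associated_of_dvd (prime_conj π.2.1) h6)
    have h6 : π.1 * conj π.1 = π.1 ^ 1 * conj π.1 := by rw [pow_one]
    rw [h6]
    exact V_pow_mul π.2.1 1 h5

theorem natCast_ne {m : ℕ} (hm : m ≠ 0) : (m : Eis) ≠ 0 := by
  intro h
  have := congrArg Eis.re h
  simp only [natCast_re, zero_re] at this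
  exact hm (by exact_mod_cast this)

theorem intCast_ne {m : ℤ} (hm : m ≠ 0) : (m : Eis) ≠ 0 := by
  intro h
  have := congrArg Eis.re h
  simp only [intCast_re, zero_re] at this
  exact hm this

theorem Below.V_nat {π : PP} {p : ℕ} (h : Below π p) {m : ℕ} (hm : m ≠ 0) :
    V π.1 (m : Eis) = m.factorization p := by
  obtain ⟨v, m', hm', rfl⟩ := Nat.exists_eq_pow_mul_and_not_dvd hm p h.pr.ne_one
  have hm0 : m' ≠ 0 := by rintro rfl; exact hm' (dvd_zero _)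
  have h1 : ((p ^ v * m' : ℕ) : Eis) = (p : Eis) ^ v * (m' : Eis) := by push_cast; ring
  have hp0 : (p : Eis) ≠ 0 := natCast_ne h.pr.ne_zero
  rw [h1, V_mul π.2.1 (pow_ne_zero _ hp0) (natCast_ne hm0), V_pow π.2.1 hp0, h.V_self,
    V_eq_zero (fun h2 => hm' ((h.dvd_nat m').1 h2)), Nat.factorization_mul
      (pow_ne_zero _ h.pr.ne_zero) hm0, Finsupp.add_apply, h.pr.factorization_pow,
    Finsupp.single_eq_same, Nat.factorization_eq_zero_of_not_dvd hm']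
  ring

theorem C9_iff {m : ℤ} (hm : ¬ (3 : ℤ) ∣ m) : C9 m ↔ wt (m ^ 2) = 0 := by
  have h1 : ∃ k r : ℤ, m = 9 * k + r ∧ (r = 1 ∨ r = 2 ∨ r = 4 ∨ r = 5 ∨ r = 7 ∨ r = 8) :=
    ⟨m / 9, m % 9, by omega, by omega⟩
  obtain ⟨k, r, rfl, hr⟩ := h1
  have h2 : ∀ s t : ℤ, r ^ 2 = 1 + 3 * (3 * s + t) →
      wt ((9 * k + r) ^ 2) = (t : ZMod 3) := by
    intro s t h
    have h3 : (9 * k + r) ^ 2 = 1 + 3 * (3 * (9 * k ^ 2 + 2 * k * r + s) + t) := by
      linear_combination h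
    rw [wt_eq h3]
    push_cast
    have h4 : (3 : ZMod 3) = 0 := by decide
    rw [h4]
    ring
  unfold C9
  rcases hr with rfl | rfl | rfl | rfl | rfl | rfl
  · rw [h2 0 0 (by norm_num)]
    constructor
    · intro _; decide
    · intro _; left; omega
  · rw [h2 0 1 (by norm_num)]
    constructor
    · rintro (h | h) <;> omega
    · intro h; exact absurd h (by decide)
  · rw [h2 1 2 (by norm_num)]
    constructor
    · rintro (h | h) <;> omega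
    · intro h; exact absurd h (by decide)
  · rw [h2 2 2 (by norm_num)]
    constructor
    · rintro (h | h) <;> omega
    · intro h; exact absurd h (by decide)
  · rw [h2 5 1 (by norm_num)]
    constructor
    · rintro (h | h) <;> omega
    · intro h; exact absurd h (by decide)
  · rw [h2 7 0 (by norm_num)]
    constructor
    · intro _; decide
    · intro _; right; omega

section NFs

variable {n m k : ℕ} {π : Fin m → PP} {p e : Fin m → ℕ} {r f : Fin k → ℕ}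

theorem n_ne (hN : NF n π p e r f) : n ≠ 0 := by
  rw [hN.eq]
  exact mul_ne_zero (Finset.prod_ne_zero_iff.2 fun i _ => pow_ne_zero _ (hN.pp i).ne_zero)
    (Finset.prod_ne_zero_iff.2 fun j _ => pow_ne_zero _ (hN.rp j).ne_zero)

theorem prime_dvd (hN : NF n π p e r f) {l : ℕ} (hl : l.Prime) (h : l ∣ n) :
    (∃ i, l = p i) ∨ ∃ j, l = r j := by
  rw [hN.eq] at h
  rcases hl.dvd_mul.1 h with h | h
  · obtain ⟨i, _, hi⟩ := (Prime.dvd_finsetProd_iff hl.prime _).1 h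
    exact Or.inl ⟨i, (Nat.prime_dvd_prime_iff_eq hl (hN.pp i)).1 (hl.dvd_of_dvd_pow hi)⟩
  · obtain ⟨j, _, hj⟩ := (Prime.dvd_finsetProd_iff hl.prime _).1 h
    exact Or.inr ⟨j, (Nat.prime_dvd_prime_iff_eq hl (hN.rp j)).1 (hl.dvd_of_dvd_pow hj)⟩

theorem three_not (hN : NF n π p e r f) : ¬ 3 ∣ n := by
  intro h
  rcases prime_dvd hN Nat.prime_three h with ⟨i, hi⟩ | ⟨j, hj⟩
  · have := hN.p1 i
    omega
  · have := hN.r2 j
    omega

/-- the exponents of `n` are at most `2` -/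
theorem fac_le (hN : NF n π p e r f) (l : ℕ) : n.factorization l ≤ 2 := by
  classical
  have h1 : n.factorization l = (∑ i, if p i = l then e i else 0) +
      ∑ j, if r j = l then f j else 0 := by
    have ha : (∏ i, p i ^ e i) ≠ 0 :=
      Finset.prod_ne_zero_iff.2 fun i _ => pow_ne_zero _ (hN.pp i).ne_zero
    have hb : (∏ j, r j ^ f j) ≠ 0 :=
      Finset.prod_ne_zero_iff.2 fun j _ => pow_ne_zero _ (hN.rp j).ne_zero
    rw [hN.eq, Nat.factorization_mul ha hb, Finsupp.add_apply,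
      Nat.factorization_prod fun i _ => pow_ne_zero _ (hN.pp i).ne_zero,
      Nat.factorization_prod fun j _ => pow_ne_zero _ (hN.rp j).ne_zero,
      Finsupp.finsetSum_apply, Finsupp.finsetSum_apply]
    congr 1
    · refine Finset.sum_congr rfl fun i _ => ?_
      rw [(hN.pp i).factorization_pow, Finsupp.single_apply]
    · refine Finset.sum_congr rfl fun j _ => ?_
      rw [(hN.rp j).factorization_pow, Finsupp.single_apply]
  rw [h1]
  by_cases hp : ∃ i, p i = l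
  · obtain ⟨i, rfl⟩ := hp
    rw [Finset.sum_eq_single i (fun i' _ hi' => if_neg fun h => hi' (hN.pinj h))
      (fun h => absurd (Finset.mem_univ i) h), if_pos rfl,
      Finset.sum_eq_zero fun j _ => if_neg fun h => by
        have h2 := hN.p1 i
        have h3 := hN.r2 j
        rw [h] at h3
        omega]
    have := hN.pe i
    omega
  · have h2 : (∑ i, if p i = l then e i else 0) = 0 :=
      Finset.sum_eq_zero fun i _ => if_neg fun h => hp ⟨i, h⟩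
    rw [h2, zero_add]
    by_cases hr : ∃ j, r j = l
    · obtain ⟨j, rfl⟩ := hr
      rw [Finset.sum_eq_single j (fun j' _ hj' => if_neg fun h => hj' (hN.rinj h))
        (fun h => absurd (Finset.mem_univ j) h), if_pos rfl]
      have := hN.rf j
      omega
    · rw [Finset.sum_eq_zero fun j _ => if_neg fun h => hr ⟨j, h⟩]
      omega

end NFs

end EADM

open _root_.Pool.Agent.PT.EADM in
/-- EADM: `AdmC` and `Adm`. -/
theorem EADM_thm (hSTM : STM) (hSPP : SPP) (hSCJ : SCJ) : EADM := by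
  intro n m k π p e r f w0 c q hN hq hcl hqn
  obtain ⟨_, hSPP2, _, hSPP4, _, hSPP6⟩ := hSPP
  obtain ⟨hSCJ1, _, _, hSCJ4⟩ := hSCJ
  obtain ⟨hq3, hqw, hqc⟩ := hcl
  have hn0 : n ≠ 0 := n_ne hN
  have hn3 : ¬ 3 ∣ n := three_not hN
  have hbelow : ∀ π : PP, ∃ l, Below π l := by
    intro π
    obtain ⟨l, hl, h⟩ := hSPP6 π
    exact ⟨l, hl, h⟩
  have hcast : (((n : ℤ) * (q : ℤ) : ℤ) : Eis) = ((n * q : ℕ) : Eis) := by push_cast; ring
  have hnq0 : n * q ≠ 0 := mul_ne_zero hn0 hq.ne_zero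
  have hB0 : (n : ℤ) * (q : ℤ) ≠ 0 := by exact_mod_cast hnq0
  have hB3 : ¬ (3 : ℤ) ∣ (n : ℤ) * (q : ℤ) := by
    intro h
    have h1 : 3 ∣ n * q := by exact_mod_cast h
    rcases Nat.prime_three.dvd_mul.1 h1 with h2 | h2
    · exact hn3 h2
    · have := (Nat.prime_dvd_prime_iff_eq Nat.prime_three hq).1 h2
      omega
  refine ⟨⟨hB0, hB3, ?_⟩, ?_⟩
  · intro ϖ
    obtain ⟨l, hl⟩ := hbelow ϖ
    rw [hcast, hl.V_nat hnq0, Nat.factorization_mul hn0 hq.ne_zero, Finsupp.add_apply]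
    have h1 := fac_le hN l
    by_cases hlq : l = q
    · have h2 : n.factorization l = 0 := by
        rw [hlq]
        exact Nat.factorization_eq_zero_of_not_dvd hqn
      have h3 : q.factorization l = 1 := by
        rw [hlq]
        exact hq.factorization_self
      omega
    · have h3 : q.factorization l = 0 := by
        apply Nat.factorization_eq_zero_of_not_dvd
        intro h
        exact hlq ((Nat.prime_dvd_prime_iff_eq hl.pr hq).1 h)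
      omega
  · intro x hsupp
    -- the conditions at the `π i`
    have key : x ≠ 0 → ∀ i, (V (π i).1 (n : Eis) : ZMod 3) * ch (π i).1 (x : Eis) -
        (V (π i).1 (x : Eis) : ZMod 3) * (ch (π i).1 (n : Eis) + c i) =
        tm (π i).1 (x : Eis) (((n : ℤ) * (q : ℤ) : ℤ) : Eis) := by
      intro hx i
      obtain ⟨l, hl⟩ := hbelow (π i)
      have hpi : (p i : Eis) = (π i).1 * conj (π i).1 := hN.pπ i
      have hlp : l = p i := by
        have h1 : (π i).1 ∣ (p i : Eis) := by rw [hpi]; exact dvd_mul_right _ _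
        exact (Nat.prime_dvd_prime_iff_eq hl.pr (hN.pp i)).1 ((hl.dvd_nat _).1 h1)
      have hq' : ¬ (π i).1 ∣ (q : Eis) := by
        intro h
        have h1 := (Nat.prime_dvd_prime_iff_eq hl.pr hq).1 ((hl.dvd_nat _).1 h)
        have h2 := hN.p1 i
        rw [← hlp, h1] at h2
        omega
      have h3 : ¬ (π i).1 ∣ 3 := (hSPP4 (π i)).1
      have e1 : (((n : ℤ) * (q : ℤ) : ℤ) : Eis) = (n : Eis) * (q : Eis) := by push_cast; ring
      rw [e1]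
      unfold tm
      rw [V_mul (π i).2.1 (natCast_ne hn0) (natCast_ne hq.ne_zero), V_eq_zero hq', add_zero,
        ch_mul (π i).2.1 h3 (natCast_ne hn0) (natCast_ne hq.ne_zero), ch_unit (π i).2.1 hq',
        hqc i]
    have hnine : ¬ (3 : ℤ) ∣ (n : ℤ) := by
      intro h
      exact hn3 (by exact_mod_cast h)
    have hqq : ¬ (3 : ℤ) ∣ (q : ℤ) := by
      intro h
      have : 3 ∣ q := by exact_mod_cast h
      omega
    have hC : C9 ((n : ℤ) * (q : ℤ)) ↔ wt ((n : ℤ) ^ 2) + w0 = 0 := by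
      rw [C9_iff hB3, mul_pow, wt_mul (sq_mod_three hnine) (sq_mod_three hqq), hqw]
    constructor
    · rintro ⟨hx, h3, _, hsym, h9⟩
      refine ⟨hx, h3, ?_, ?_, fun h => h9 (hC.1 h)⟩
      · intro ϖ
        obtain ⟨l, hl⟩ := hbelow ϖ
        rcases hl.h with ⟨hl3, hl2⟩ | ⟨hl3, hl2, hl4, hl5⟩
        · rw [hl2]
          exact hSCJ4 l hl.pr hl3 x _ hx hB0
        · by_cases hln : l ∣ n
          · rcases prime_dvd hN hl.pr hln with ⟨i, hi⟩ | ⟨j, hj⟩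
            · have h4 : ϖ.1 ∣ (π i).1 * conj (π i).1 := by
                rw [← hN.pπ i, ← hi, hl4]
                exact dvd_mul_right _ _
              rcases ϖ.2.1.dvd_or_dvd h4 with h5 | h5
              · have h6 : ϖ = π i :=
                  hSPP2 _ _ (ϖ.2.1.associated_of_dvd (π i).2.1 h5)
                rw [h6, ← key hx i]
                exact hsym i
              · obtain ⟨ϖ', hϖ'⟩ := (hSPP4 (π i)).2
                have h6 : ϖ = ϖ' := by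
                  apply hSPP2
                  rw [hϖ']
                  exact ϖ.2.1.associated_of_dvd (prime_conj (π i).2.1) h5
                rw [h6, hϖ']
                have h7 := hSCJ1 (π i).1 (x : Eis) (((n : ℤ) * (q : ℤ) : ℤ) : Eis) (π i).2.1
                  (hSPP4 (π i)).1 (intCast_ne hx) (intCast_ne hB0)
                rw [map_intCast, map_intCast] at h7
                rw [h7, ← key hx i, hsym i, neg_zero]
            · have := hN.r2 j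
              rw [← hj] at this
              omega
          · have h4 : ¬ ϖ.1 ∣ (x : Eis) := by
              intro h
              exact hln (hsupp l hl.pr ((hl.dvd_int x).1 h))
            have h5 : ¬ ϖ.1 ∣ (((n : ℤ) * (q : ℤ) : ℤ) : Eis) := by
              rw [hcast, hl.dvd_nat]
              intro h
              rcases hl.pr.dvd_mul.1 h with h6 | h6
              · exact hln h6
              · have := (Nat.prime_dvd_prime_iff_eq hl.pr hq).1 h6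
                omega
            unfold tm
            rw [V_eq_zero h4, V_eq_zero h5]
            simp
      · intro ϖ hϖ h
        obtain ⟨l, hl⟩ := hbelow ϖ
        apply hϖ
        rw [hcast, hl.dvd_nat]
        exact (hsupp l hl.pr ((hl.dvd_int x).1 h)).mul_right q
    · rintro ⟨hx, h3, hsym, _, h9⟩
      refine ⟨hx, h3, hsupp, fun i => ?_, fun h => h9 (hC.2 h)⟩
      rw [key hx i]
      exact hsym (π i)

end Pool.Agent.PT

end

section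

/-!
# PT, module MAINT
-/

set_option autoImplicit false

namespace Pool.Agent.PT

open Pool.Agent.Lib_helper18 Pool.Agent.Lib_helper18.Eis Pool.Agent.Lib_helper84.Cub

namespace MAINT

/-- multiplying by the cube of a nonzero integer does not change being a sum of two cubes -/
theorem sum_cubes_iff {n t : ℕ} (ht : 0 < t) (q : ℕ) :
    (∃ X Y : ℚ, X ^ 3 + Y ^ 3 = (n : ℚ) * q) ↔
      ∃ X Y : ℚ, X ^ 3 + Y ^ 3 = ((n * t ^ 3 : ℕ) : ℚ) * q := by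
  have ht' : (t : ℚ) ≠ 0 := by exact_mod_cast ht.ne'
  constructor
  · rintro ⟨X, Y, h⟩
    refine ⟨X * t, Y * t, ?_⟩
    push_cast
    linear_combination (t : ℚ) ^ 3 * h
  · rintro ⟨X, Y, h⟩
    refine ⟨X / t, Y / t, ?_⟩
    push_cast at h
    field_simp
    linear_combination h

end MAINT

/-- The theorem: from the normal form to all `n`. -/
theorem MAINT_thm (hENF : ENF) (hFINA : FINA) : MAINT := by
  intro N hN h3 hyp
  obtain ⟨n, t, π, p, e, r, f, hn, ht, hNn, hNF, hl⟩ := hENF N hN h3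
  have hyp' : Even (Nat.card {p : ℕ // p.Prime ∧ p % 3 = 2 ∧ ¬ 3 ∣ N.factorization p}) ∨
      ∃ j, r j % 9 = 2 ∨ r j % 9 = 5 := by
    rcases hyp with h | ⟨l, hlp, hl9, hl3⟩
    · exact Or.inl h
    · obtain ⟨j, hj⟩ := hl l hlp hl3 (by omega)
      exact Or.inr ⟨j, by rw [hj]; exact hl9⟩
  obtain ⟨C, hC⟩ := hFINA n _ _ π p e r f hNF hyp'
  refine ⟨C, fun s hs1 hs2 => ?_⟩
  have hset : {q : ℕ | ¬ ∃ X Y : ℚ, X ^ 3 + Y ^ 3 = (n : ℚ) * q} =
      {q : ℕ | ¬ ∃ X Y : ℚ, X ^ 3 + Y ^ 3 = (N : ℚ) * q} := by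
    ext q
    simp only [Set.mem_setOf_eq]
    rw [hNn, MAINT.sum_cubes_iff ht q]
  have := hC s hs1 hs2
  rw [hset] at this
  exact this

end Pool.Agent.PT

end

section

/-!
# The number of classes modulo `f`
-/

namespace Pool.Agent.PTE

open Pool.Agent.PT

namespace CLSCS

lemma kappa_neg_one {f m : ℕ} (κ : (ZMod f)ˣ →* Multiplicative (Fin (m + 1) → ZMod 3)) :
    (κ (-1)).toAdd = 0 := by
  have h1 : κ (-1) * κ (-1) = 1 := by
    rw [← map_mul]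
    simp
  have h2 : (κ (-1)).toAdd + (κ (-1)).toAdd = 0 := by
    have := congrArg Multiplicative.toAdd h1
    simpa using this
  funext i
  have h3 := congrFun h2 i
  simp only [Pi.add_apply, Pi.zero_apply] at h3 ⊢
  generalize (κ (-1)).toAdd i = x at h3
  revert x
  decide

lemma kappa_neg {f m : ℕ} (κ : (ZMod f)ˣ →* Multiplicative (Fin (m + 1) → ZMod 3))
    (a : (ZMod f)ˣ) : (κ (-a)).toAdd = (κ a).toAdd := by
  have h : -a = -1 * a := by simp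
  rw [h, map_mul, toAdd_mul, kappa_neg_one, zero_add]

lemma val_neg {f : ℕ} (hf : 0 < f) (h3 : 3 ∣ f) (a : (ZMod f)ˣ) (i j : ℕ) (hi : i < 3) (hj : j < 3)
    (hij : i + j = 3) (h : (a : ZMod f).val % 3 = i) : ((-a : (ZMod f)ˣ) : ZMod f).val % 3 = j := by
  have : NeZero f := ⟨hf.ne'⟩
  have h0 : (a : ZMod f) ≠ 0 := by
    intro h0
    rw [h0, ZMod.val_zero] at h
    omega
  rw [Units.val_neg, ZMod.neg_val, if_neg h0]
  have hlt := ZMod.val_lt (a : ZMod f)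
  obtain ⟨k, rfl⟩ := h3
  omega

end CLSCS

open _root_.Pool.Agent.PTE.CLSCS in
/-- CLSCS. -/
theorem CLSCS_thm : CLSCS := by
  intro f m κ hf h9 H c
  have h3 : 3 ∣ f := (by norm_num : 3 ∣ 9).trans h9
  rw [← H c]
  congr 1
  refine Nat.card_congr
    { toFun := fun a => ⟨-a.1, ?_, ?_⟩
      invFun := fun a => ⟨-a.1, ?_, ?_⟩
      left_inv := fun a => by simp
      right_inv := fun a => by simp }
  · exact val_neg hf h3 a.1 1 2 (by norm_num) (by norm_num) rfl a.2.1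
  · rw [kappa_neg]; exact a.2.2
  · exact val_neg hf h3 a.1 2 1 (by norm_num) (by norm_num) rfl a.2.1
  · rw [kappa_neg]; exact a.2.2

end Pool.Agent.PTE

end

section

/-!
# SPLT: the primes `q = 1 (mod 3)`
-/

namespace Pool.Agent.PTE

open Pool.Agent.Lib_helper18 Pool.Agent.Lib_helper18.Eis Pool.Agent.Lib_helper84.Cub
open Pool.Agent.PT

namespace SPLT

/-- A rational integer `x` with `x ^ ((q - 1) / 3) = 1` modulo `q` is a cube modulo `q`. -/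
theorem exists_cube {q : ℕ} (hq : q.Prime) (h3 : q % 3 = 1) (u : (ZMod q)ˣ)
    (hu : u ^ ((q - 1) / 3) = 1) : ∃ v : (ZMod q)ˣ, v ^ 3 = u := by
  have : Fact q.Prime := ⟨hq⟩
  obtain ⟨g, hg⟩ := IsCyclic.exists_generator (α := (ZMod q)ˣ)
  have hord : orderOf g = q - 1 := by
    rw [orderOf_eq_card_of_forall_mem_zpowers hg, Nat.card_eq_fintype_card,
      ZMod.card_units_eq_totient, Nat.totient_prime hq]
  obtain ⟨j, hj⟩ := Subgroup.mem_zpowers_iff.1 (hg u)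
  have hq2 := hq.two_le
  obtain ⟨k, hk⟩ : ∃ k, q - 1 = 3 * k := ⟨(q - 1) / 3, by omega⟩
  have hk0 : 0 < k := by omega
  have hk' : (q - 1) / 3 = k := by omega
  rw [hk', ← hj, ← zpow_natCast, ← zpow_mul, ← orderOf_dvd_iff_zpow_eq_one, hord, hk] at hu
  push_cast at hu
  have h4 : (3 : ℤ) ∣ j := Int.dvd_of_mul_dvd_mul_right (by omega) hu
  obtain ⟨i, rfl⟩ := h4
  refine ⟨g ^ i, ?_⟩
  rw [← hj, ← zpow_natCast, ← zpow_mul, mul_comm i]
  rfl

theorem norm_eq {q : ℕ} {ρ : Eis} (h : (q : Eis) = ρ * conj ρ) : ρ.norm = q := by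
  rw [mul_conj] at h
  have h1 := congrArg Eis.re h
  rw [natCast_re, intCast_re] at h1
  exact h1.symm

end SPLT

set_option linter.unusedVariables false in
theorem SPLT_thm (hSTM : STM) (hSPP : SPP) (hSCJ : SCJ) : SPLT := by
  refine ⟨fun q hq h3 => ?_, fun q ρ hq h3 hρ => ?_⟩
  · have : Fact q.Prime := ⟨hq⟩
    obtain ⟨π0, hπ0, _⟩ := exists_pi hq h3
    have hp := prime_of_norm_eq hπ0
    obtain ⟨ρ, hρ⟩ := hSPP.1 π0 hp (not_dvd_three hπ0 h3)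
    obtain ⟨u, hu⟩ := hρ
    have h1 : ρ.1.norm = q := by
      rw [← hu, norm_mul, isUnit_iff_norm.mp u.isUnit, mul_one, hπ0]
    exact ⟨ρ, (mul_conj_p h1).symm⟩
  · have : Fact q.Prime := ⟨hq⟩
    have hn := SPLT.norm_eq hρ
    have hp := ρ.2.1
    have h3' := not_dvd_three hn h3
    obtain ⟨ρ', hρ'⟩ := (hSPP.2.2.2.1 ρ).2
    refine ⟨fun h => not_dvd_conj h3 hn h.dvd, ⟨ρ', hρ'⟩, ?_, ?_, ?_, ?_⟩
    · intro σ hσ
      rcases (norm_of_dvd_p hn σ.2.1 hσ).2 with h | h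
      · exact Or.inl (congrArg Subtype.val (hSPP.2.1 σ ρ h))
      · right
        rw [← hρ'] at h ⊢
        exact congrArg Subtype.val (hSPP.2.1 σ ρ' h)
    · intro x
      exact dvd_intCast_iff hn
    · intro a ha
      exact sym_conj hp h3' ha
    · intro x hx hs
      have hx' : ¬ ρ.1 ∣ (x : Eis) := by rwa [dvd_intCast_iff hn]
      have h4 := sym_spec hp h3' hx'
      have hN : N ρ.1 = q := by
        have h5 := N_cast ρ.1
        rw [hn] at h5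
        exact_mod_cast h5
      rw [hs, hN] at h4
      have h5 : (x : Eis) ^ ((q - 1) / 3) - w ^ (0 : ZMod 3).val =
          ((x ^ ((q - 1) / 3) - 1 : ℤ) : Eis) := by
        push_cast
        rfl
      rw [h5, dvd_intCast_iff hn, ← ZMod.intCast_zmod_eq_zero_iff_dvd] at h4
      have hx0 : (x : ZMod q) ≠ 0 := by
        intro h
        exact hx ((ZMod.intCast_zmod_eq_zero_iff_dvd _ _).1 h)
      obtain ⟨v, hv⟩ := SPLT.exists_cube hq h3 (Units.mk0 (x : ZMod q) hx0) (by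
        apply Units.ext
        push_cast at h4
        rw [Units.val_pow_eq_pow_val, Units.val_mk0, Units.val_one]
        exact sub_eq_zero.1 h4)
      obtain ⟨r, hr⟩ := ZMod.intCast_surjective (v : ZMod q)
      refine ⟨r, ?_⟩
      rw [← ZMod.intCast_zmod_eq_zero_iff_dvd]
      push_cast
      have h6 := congrArg Units.val hv
      rw [Units.val_pow_eq_pow_val, Units.val_mk0] at h6
      rw [hr, h6, sub_self]

end Pool.Agent.PTE

end

section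

/-!
# Prime twists of rank zero: summary of the governing field
-/

open NumberField IsDedekindDomain Finset
open scoped nonZeroDivisors Pointwise

namespace Pool.Agent.PT.GALD

lemma om_cube {L : Type} [Field L] {ω : L} (h : ω ^ 2 + ω + 1 = 0) : ω ^ 3 = 1 := by
  have : ω ^ 3 - 1 = (ω - 1) * (ω ^ 2 + ω + 1) := by ring
  rw [h, mul_zero] at this
  exact sub_eq_zero.mp this

lemma om_mod {L : Type} [Field L] {ω : L} (h : ω ^ 3 = 1) (n : ℕ) : ω ^ n = ω ^ (n % 3) := by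
  conv_lhs => rw [← Nat.div_add_mod n 3]
  rw [pow_add, pow_mul, h, one_pow, one_mul]

lemma om_congr {L : Type} [Field L] {ω : L} (h : ω ^ 3 = 1) {m n : ℕ} (e : m % 3 = n % 3) :
    ω ^ m = ω ^ n := by
  rw [om_mod h m, om_mod h n, e]

lemma pow_om {L : Type} [Field L] [NumberField L] {ω : L} (h : ω ^ 3 = 1) (g : L ≃ₐ[ℚ] L)
    (hg : g ω = ω ^ 2) (k : ℕ) : (g ^ k) ω = ω ^ (2 ^ k) := by
  induction k with
  | zero => simp
  | succ k ih =>
    rw [pow_succ, AlgEquiv.mul_apply, hg, map_pow, ih, ← pow_mul]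
    congr 1

lemma two_pow_odd {k : ℕ} (hk : Odd k) : 2 ^ k % 3 = 2 := by
  obtain ⟨l, rfl⟩ := hk
  rw [pow_succ, pow_mul, Nat.mul_mod, Nat.pow_mod]
  norm_num

end Pool.Agent.PT.GALD

namespace Pool.Agent.PT

open Pool.Agent.PT.GALD

theorem GALD_thm (hGZERO : GZERO) (hGCHI : GCHI) (hGT : GT) (hGC : GC) (hGFR : GFR) : GALD := by
  classical
  intro s b p q p' q' f hSys hf h9
  obtain ⟨L, hF, hN, ζ, ω, hG⟩ := hGZERO s b p q p' q' f hSys hf h9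
  haveI := hG.gal
  obtain ⟨χ, hχs, hχζ, hχF⟩ := hGCHI L f ζ hf hG.prim
  obtain ⟨N₀, hFr⟩ := hGFR s b p q p' q' f L ζ ω hSys hG
  have hω3 : ω ^ 3 = 1 := om_cube hG.rel
  have hf1 : 1 < f := by
    obtain ⟨c, hc⟩ := h9
    omega
  have hT := hGT s b p q p' q' f L ζ ω hSys hG
  -- action on ω
  have hM : ∀ g : L ≃ₐ[ℚ] L, M2 (χ g) → g ω = ω ^ 2 := by
    intro g hg
    rw [hG.hω, map_pow, hχζ g, ← pow_mul, mul_comm, pow_mul, ← hG.hω]
    apply om_congr hω3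
    unfold M2 at hg
    omega
  let t : (L ≃ₐ[ℚ] L) → Fin s → Fin s → ZMod 3 := fun g j i =>
    if h : j ≠ i ∧ g ω = ω ^ 2 then ((hT j i h.1).1 g h.2).choose else 0
  have ht : ∀ (g : L ≃ₐ[ℚ] L) (j i : Fin s), j ≠ i → g ω = ω ^ 2 →
      IsT b p q p' q' ω g j i (t g j i) := by
    intro g j i hji hg
    have h : j ≠ i ∧ g ω = ω ^ 2 := ⟨hji, hg⟩
    have e : t g j i = ((hT j i h.1).1 g h.2).choose := dif_pos h
    rw [e]
    exact ((hT j i h.1).1 g h.2).choose_spec.1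
  have htu : ∀ (g : L ≃ₐ[ℚ] L) (j i : Fin s) (c : ZMod 3), j ≠ i → g ω = ω ^ 2 →
      IsT b p q p' q' ω g j i c → t g j i = c := by
    intro g j i c hji hg hc
    exact ((hT j i hji).1 g hg).unique (ht g j i hji hg) hc
  refine ⟨L, hF, hN, hG.gal, χ, t, N₀, hχs, ?_, ?_, ?_, ?_⟩
  · intro g τ hg j i hji
    have h1 : χ (τ * g * τ⁻¹) = χ g := by
      rw [map_mul, map_mul, map_inv, mul_comm (χ τ), mul_inv_cancel_right]
    apply htu _ _ _ _ hji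
    · apply hM
      rw [h1]
      exact hg
    · exact (hT j i hji).2.1 g τ _ (hM g hg) (ht g j i hji (hM g hg))
  · intro g k hg hk j i hji
    apply htu _ _ _ _ hji
    · rw [pow_om hω3 g (hM g hg) k]
      apply om_congr hω3
      rw [two_pow_odd hk]
    · exact (hT j i hji).2.2 g _ k (hM g hg) hk (ht g j i hji (hM g hg))
  · intro a v v' ha
    obtain ⟨z, hzζ, hzρ, hzA⟩ := hGC s b p q p' q' f L ζ ω hSys hG (fun j i => v j i - v' j i)
    have hzω : z ω = ω := by rw [hG.hω, map_pow, hzζ]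
    have hχz : χ z = 1 := by
      have h1 := hχζ z
      rw [hzζ] at h1
      haveI : NeZero f := ⟨hf.ne'⟩
      have h2 : ((χ z : ZMod f)).val = 1 := by
        apply hG.prim.pow_inj (ZMod.val_lt _) hf1
        rw [← h1, pow_one]
      apply Units.ext
      have h3 := ZMod.natCast_zmod_val (χ z : ZMod f)
      rw [h2] at h3
      rw [← h3]
      simp
    have key : ∀ g : L ≃ₐ[ℚ] L, g ω = ω ^ 2 → ∀ j i, j < i →
        t (g * z) j i = t g j i - (v j i - v' j i) := by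
      intro g hg j i hji
      have hgz : (g * z) ω = ω ^ 2 := by rw [AlgEquiv.mul_apply, hzω, hg]
      apply htu _ _ _ _ hji.ne hgz
      intro ρ A hρ hgρ hA
      rw [AlgEquiv.mul_apply, hzρ j ρ hρ] at hgρ
      have h1 := ht g j i hji.ne hg ρ A hρ hgρ hA
      rw [AlgEquiv.mul_apply, hzA j i hji ρ A hρ hA, map_mul, map_pow, hg, mul_assoc, h1,
        ← pow_mul, ← pow_add]
      apply om_congr hω3
      have : ((2 * (v j i - v' j i).val + (t g j i).val : ℕ) : ZMod 3) =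
          (((t g j i - (v j i - v' j i)).val : ℕ) : ZMod 3) := by
        push_cast
        rw [ZMod.natCast_zmod_val, ZMod.natCast_zmod_val, ZMod.natCast_zmod_val]
        have h3 : (3 : ZMod 3) = 0 := by decide
        linear_combination (v j i - v' j i) * h3
      exact (ZMod.natCast_eq_natCast_iff' _ _ 3).mp this
    apply Nat.card_congr
    refine Equiv.subtypeEquiv (Equiv.mulRight z) ?_
    intro g
    have hχ : χ (g * z) = χ g := by rw [map_mul, hχz, mul_one]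
    show (χ g = a ∧ ∀ j i, j < i → t g j i = v j i) ↔
      (χ (g * z) = a ∧ ∀ j i, j < i → t (g * z) j i = v' j i)
    rw [hχ]
    constructor
    · rintro ⟨h1, h2⟩
      refine ⟨h1, fun j i hji => ?_⟩
      rw [key g (hM g (by rw [h1]; exact ha)) j i hji, h2 j i hji]
      ring
    · rintro ⟨h1, h2⟩
      refine ⟨h1, fun j i hji => ?_⟩
      have h3 := h2 j i hji
      rw [key g (hM g (by rw [h1]; exact ha)) j i hji] at h3
      linear_combination h3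
  · intro Q hQ hQp hN₀ P g hP hQP hst
    haveI := hP
    obtain ⟨h1, h2⟩ := hFr Q hQp hN₀ P hP hQP
    obtain ⟨k, hk, hfr⟩ := h1 g hst
    refine ⟨k, hk, hχF Q hQ hQp P (g ^ k) hP hQP hfr, ?_⟩
    intro hQ3 j i hji r hr
    obtain ⟨h3, h4⟩ := h2 (g ^ k) hfr hQ3
    exact h4 j i hji r _ hr (ht (g ^ k) j i hji h3)

end Pool.Agent.PT

end

section

/-!
# SING: at most `3/8` of the alternating matrices of even size over `F_3` are singular
-/

namespace Pool.Agent.PT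

open Pool.Agent.Lib_helper18 Pool.Agent.Lib_helper18.Eis Pool.Agent.Lib_helper84.Cub

namespace SING

variable {s : ℕ}

instance : Fact (Nat.Prime 3) := ⟨Nat.prime_three⟩

theorem alt_apply (v : Fin s → Fin s → ZMod 3) (j i : Fin s) :
    alt v j i = if j < i then v j i else if i < j then - v i j else 0 := rfl

theorem alt_transpose (v : Fin s → Fin s → ZMod 3) : (alt v).transpose = - alt v := by
  ext j i
  rw [Matrix.transpose_apply, Matrix.neg_apply, alt_apply, alt_apply]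
  rcases lt_trichotomy i j with h | h | h
  · simp [h, not_lt_of_gt h]
  · simp [h]
  · simp [h, not_lt_of_gt h]

theorem alt_add (v v' : Fin s → Fin s → ZMod 3) : alt (v + v') = alt v + alt v' := by
  ext j i
  rw [Matrix.add_apply, alt_apply, alt_apply, alt_apply]
  split_ifs <;> simp [add_comm]

/-- an alternating matrix with given image of `x` -/
def sec (x' y : Fin s → ZMod 3) : Fin s → Fin s → ZMod 3 := fun j i => y j * x' i - x' j * y i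

theorem alt_sec (x' y : Fin s → ZMod 3) (j i : Fin s) :
    alt (sec x' y) j i = y j * x' i - x' j * y i := by
  rw [alt_apply]
  unfold sec
  rcases lt_trichotomy i j with h | h | h
  · simp [h, not_lt_of_gt h]; ring
  · simp [h]; ring
  · simp [h]

theorem sec_mulVec (x x' y : Fin s → ZMod 3) (h1 : ∑ i, x' i * x i = 1) (h2 : ∑ i, y i * x i = 0) :
    (alt (sec x' y)).mulVec x = y := by
  ext j
  rw [Matrix.mulVec, dotProduct]
  calc ∑ i, alt (sec x' y) j i * x i = ∑ i, (y j * (x' i * x i) - x' j * (y i * x i)) := by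
        refine Finset.sum_congr rfl fun i _ => ?_
        rw [alt_sec]; ring
    _ = y j := by
        rw [Finset.sum_sub_distrib, ← Finset.mul_sum, ← Finset.mul_sum, h1, h2]; ring

theorem card_ker (x : Fin s → ZMod 3) (hx : x ≠ 0) :
    3 ^ s * Fintype.card {v : Fin s → Fin s → ZMod 3 // (alt v).mulVec x = 0} ≤
      3 * Fintype.card (Fin s → Fin s → ZMod 3) := by
  obtain ⟨k, hk⟩ := Function.ne_iff.1 hx
  simp only [Pi.zero_apply, ne_eq] at hk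
  set x' : Fin s → ZMod 3 := Pi.single k (x k)⁻¹ with hx'
  have h1 : ∑ i, x' i * x i = 1 := by
    rw [Finset.sum_eq_single k]
    · rw [hx', Pi.single_eq_same, inv_mul_cancel₀ hk]
    · intro b _ hb
      rw [hx', Pi.single_eq_of_ne hb, zero_mul]
    · simp
  -- projection
  let pr : (Fin s → ZMod 3) → (Fin s → ZMod 3) := fun z => z - (∑ i, z i * x i) • x'
  have hpr : ∀ z, ∑ i, pr z i * x i = 0 := by
    intro z
    have : ∑ i, pr z i * x i = ∑ i, z i * x i - (∑ i, z i * x i) * ∑ i, x' i * x i := by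
      rw [Finset.mul_sum, ← Finset.sum_sub_distrib]
      refine Finset.sum_congr rfl fun i _ => ?_
      simp only [pr, Pi.sub_apply, Pi.smul_apply, smul_eq_mul]
      ring
    rw [this, h1, mul_one, sub_self]
  have hc : Fintype.card ((Fin s → ZMod 3) × {v : Fin s → Fin s → ZMod 3 // (alt v).mulVec x = 0}) ≤
      Fintype.card (ZMod 3 × (Fin s → Fin s → ZMod 3)) := by
    refine Fintype.card_le_of_injective
      (fun a => (∑ i, a.1 i * x i, a.2.1 + sec x' (pr a.1))) ?_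
    rintro ⟨z, v, hv⟩ ⟨z', v', hv'⟩ h
    simp only [Prod.mk.injEq] at h
    obtain ⟨ha, hb⟩ := h
    have hp : pr z = pr z' := by
      have := congrArg (fun u => (alt u).mulVec x) hb
      simp only [alt_add, Matrix.add_mulVec, hv, hv', zero_add] at this
      rwa [sec_mulVec x x' _ h1 (hpr z), sec_mulVec x x' _ h1 (hpr z')] at this
    have hz : z = z' := by
      have h3 : z = pr z + (∑ i, z i * x i) • x' := by simp [pr]
      rw [h3, hp, ha]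
      simp [pr]
    subst hz
    simp only [Prod.mk.injEq, Subtype.mk.injEq, true_and]
    exact add_right_cancel hb
  rw [Fintype.card_prod, Fintype.card_prod] at hc
  simpa [ZMod.card] using hc

theorem odd_det {n : ℕ} (hn : Odd n) (A : Matrix (Fin n) (Fin n) (ZMod 3)) (h : A.transpose = - A) :
    A.det = 0 := by
  have h1 : A.det = - A.det := by
    conv_lhs => rw [← Matrix.det_transpose, h, Matrix.det_neg]
    simp [hn.neg_one_pow]
  revert h1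
  generalize A.det = d
  revert d
  decide

theorem two_ker (hs : Even s) (v : Fin s → Fin s → ZMod 3) (hv : (alt v).det = 0) :
    ∃ x u : Fin s → ZMod 3, ∃ k : Fin s, (alt v).mulVec x = 0 ∧ (alt v).mulVec u = 0 ∧ x k ≠ 0 ∧
      u k = 0 ∧ u ≠ 0 := by
  obtain ⟨x, hx0, hx⟩ := Matrix.exists_mulVec_eq_zero_iff.2 hv
  obtain ⟨k, hk⟩ := Function.ne_iff.1 hx0
  simp only [Pi.zero_apply, ne_eq] at hk
  obtain ⟨n, rfl⟩ : ∃ n, s = n + 1 := ⟨s - 1, by have := k.2; omega⟩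
  have hn : Odd n := by
    rcases Nat.even_or_odd n with h | h
    · exfalso
      rw [Nat.even_add_one] at hs
      exact hs h
    · exact h
  let A' : Matrix (Fin n) (Fin n) (ZMod 3) := (alt v).submatrix k.succAbove k.succAbove
  have hA' : A'.det = 0 := by
    refine odd_det hn A' ?_
    show ((alt v).submatrix _ _).transpose = _
    rw [Matrix.transpose_submatrix, alt_transpose]
    rfl
  obtain ⟨u', hu0, hu'⟩ := Matrix.exists_mulVec_eq_zero_iff.2 hA'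
  let u : Fin (n + 1) → ZMod 3 := k.insertNth 0 u'
  have huk : u k = 0 := Fin.insertNth_apply_same ..
  have hus : ∀ i, u (k.succAbove i) = u' i := fun i => Fin.insertNth_apply_succAbove ..
  have hne : u ≠ 0 := by
    intro h
    apply hu0
    ext i
    rw [← hus i, h]; rfl
  have hrow : ∀ i, (alt v).mulVec u (k.succAbove i) = 0 := by
    intro i
    have := congrFun hu' i
    rw [Matrix.mulVec, dotProduct] at this ⊢
    rw [Fin.sum_univ_succAbove _ k, huk, mul_zero, zero_add]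
    simpa [A', hus] using this
  have hkk : (alt v).mulVec u k = 0 := by
    have h1 : dotProduct x ((alt v).mulVec u) = 0 := by
      rw [Matrix.dotProduct_mulVec, ← Matrix.mulVec_transpose, alt_transpose, Matrix.neg_mulVec, hx]
      simp
    rw [dotProduct, Fin.sum_univ_succAbove _ k] at h1
    simp only [hrow, mul_zero, Finset.sum_const_zero, add_zero] at h1
    exact (mul_eq_zero.1 h1).resolve_left hk
  refine ⟨x, u, k, hx, ?_, hk, huk, hne⟩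
  ext i
  rcases Fin.eq_self_or_eq_succAbove k i with h | ⟨j, h⟩
  · rw [h]; exact hkk
  · rw [h]; exact hrow j

theorem eight_le (hs : Even s) (v : Fin s → Fin s → ZMod 3) (hv : (alt v).det = 0) :
    9 ≤ Fintype.card {x : Fin s → ZMod 3 // (alt v).mulVec x = 0} := by
  obtain ⟨x, u, k, hx, hu, hk, huk, hne⟩ := two_ker hs v hv
  obtain ⟨l, hl⟩ := Function.ne_iff.1 hne
  simp only [Pi.zero_apply, ne_eq] at hl
  have := Fintype.card_le_of_injective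
    (fun a : ZMod 3 × ZMod 3 => (⟨a.1 • x + a.2 • u, by
      rw [Matrix.mulVec_add, Matrix.mulVec_smul, Matrix.mulVec_smul, hx, hu]; simp⟩ :
        {x : Fin s → ZMod 3 // (alt v).mulVec x = 0})) (by
      rintro ⟨a, b⟩ ⟨a', b'⟩ h
      simp only [Subtype.mk.injEq] at h
      have h1 := congrFun h k
      simp only [Pi.add_apply, Pi.smul_apply, smul_eq_mul, huk, mul_zero, add_zero] at h1
      have h2 := mul_right_cancel₀ hk h1
      subst h2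
      have h3 := congrFun h l
      simp only [Pi.add_apply, Pi.smul_apply, smul_eq_mul] at h3
      have h4 := mul_right_cancel₀ hl (add_left_cancel h3)
      subst h4
      rfl)
  simpa [Fintype.card_prod, ZMod.card] using this

end SING

theorem SING_thm : SING := by
  classical
  intro s hs
  rw [Nat.card_eq_fintype_card, Nat.card_eq_fintype_card]
  set N := Fintype.card (Fin s → Fin s → ZMod 3) with hN
  -- double counting
  have key := Finset.sum_card_bipartiteAbove_eq_sum_card_bipartiteBelow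
    (s := (Finset.univ : Finset (Fin s → Fin s → ZMod 3)))
    (t := (Finset.univ.erase 0 : Finset (Fin s → ZMod 3)))
    (fun v x => (alt v).mulVec x = 0)
  have h1 : 8 * Fintype.card {v : Fin s → Fin s → ZMod 3 // (alt v).det = 0} ≤
      ∑ v : Fin s → Fin s → ZMod 3, ((Finset.univ.erase 0 : Finset (Fin s → ZMod 3)).bipartiteAbove
        (fun v x => (alt v).mulVec x = 0) v).card := by
    rw [Fintype.card_subtype, mul_comm, ← smul_eq_mul, ← Finset.sum_const]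
    refine le_trans (Finset.sum_le_sum fun v hv => ?_)
      (Finset.sum_le_sum_of_subset (Finset.filter_subset (fun v => (alt v).det = 0) _))
    have hv' := (Finset.mem_filter.1 hv).2
    have h9 := SING.eight_le hs v hv'
    rw [Fintype.card_subtype] at h9
    have : (Finset.univ.erase 0 : Finset (Fin s → ZMod 3)).bipartiteAbove
        (fun v x => (alt v).mulVec x = 0) v =
        (Finset.univ.filter fun x : Fin s → ZMod 3 => (alt v).mulVec x = 0).erase 0 := by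
      ext x
      simp [Finset.bipartiteAbove, and_comm]
    rw [this, Finset.card_erase_of_mem (by simp)]
    omega
  have h2 : ∑ x ∈ (Finset.univ.erase 0 : Finset (Fin s → ZMod 3)),
      3 ^ s * ((Finset.univ : Finset (Fin s → Fin s → ZMod 3)).bipartiteBelow
        (fun v x => (alt v).mulVec x = 0) x).card ≤
      ∑ x ∈ (Finset.univ.erase 0 : Finset (Fin s → ZMod 3)), 3 * N := by
    refine Finset.sum_le_sum fun x hx => ?_
    have := SING.card_ker x (Finset.ne_of_mem_erase hx)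
    rw [Fintype.card_subtype] at this
    exact this
  rw [← Finset.mul_sum, ← key, Finset.sum_const, smul_eq_mul] at h2
  have h3 : (Finset.univ.erase 0 : Finset (Fin s → ZMod 3)).card ≤ 3 ^ s := by
    refine le_trans (Finset.card_le_univ _) ?_
    simp [ZMod.card]
  have h4 := le_trans (Nat.mul_le_mul_left (3 ^ s) h1) (le_trans h2 (Nat.mul_le_mul_right _ h3))
  exact Nat.le_of_mul_le_mul_left h4 (by positivity)

end Pool.Agent.PT

end

section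

/-!
# SREC: cubic reciprocity for primary elements and the supplementary laws
-/

namespace Pool.Agent.PT

open Pool.Agent.Lib_helper18 Pool.Agent.Lib_helper18.Eis Pool.Agent.Lib_helper84.Cub

namespace SREC

theorem two_mul_eq_zero {x : ZMod 3} (h : 2 * x = 0) : x = 0 := by
  have h4 : ∀ x : ZMod 3, 2 * x = 0 → x = 0 := by decide
  exact h4 _ h

/-! ### induction over primary elements -/

theorem not_lam_dvd {c : Eis} (hc : Prim c) : ¬ lam ∣ c := by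
  rw [lam_dvd_iff]
  obtain ⟨h1, h2⟩ := hc
  omega

theorem prim_ne_zero {c : Eis} (hc : Prim c) : c ≠ 0 := by
  rintro rfl
  exact not_lam_dvd hc (dvd_zero _)

theorem prim_one : Prim 1 := ⟨by simp, by simp⟩

theorem pp_prim (π : PP) : Prim π.1 := ⟨π.2.2.2, by have := π.2.2.1; omega⟩

theorem prim_mul {c d : Eis} (hc : Prim c) (hd : Prim d) : Prim (c * d) := by
  obtain ⟨⟨a, ha⟩, h2⟩ := hc
  obtain ⟨⟨b, hb⟩, h4⟩ := hd
  refine ⟨?_, ?_⟩
  · rw [mul_im, ha, hb]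
    exact ⟨c.re * b + a * d.re - 3 * a * b, by ring⟩
  · rw [mul_re, ha, hb]
    intro h
    have h5 : (3 : ℤ) ∣ c.re * d.re := by
      have h6 : c.re * d.re = (c.re * d.re - 3 * a * (3 * b)) + 3 * (3 * a * b) := by ring
      rw [h6]
      exact dvd_add h ⟨_, rfl⟩
    rcases Int.prime_three.dvd_or_dvd h5 with h7 | h7
    · exact h2 h7
    · exact h4 h7

theorem prim_of_mul {c d : Eis} (hc : Prim c) (h : Prim (c * d)) : Prim d := by
  obtain ⟨⟨a, ha⟩, h2⟩ := hc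
  obtain ⟨h3, h4⟩ := h
  rw [mul_im, ha] at h3
  rw [mul_re, ha] at h4
  have h5 : (3 : ℤ) ∣ c.re * d.im := by
    obtain ⟨k, hk⟩ := h3
    exact ⟨k - a * d.re + a * d.im, by linear_combination hk⟩
  have h6 : (3 : ℤ) ∣ d.im := (Int.prime_three.dvd_or_dvd h5).resolve_left h2
  refine ⟨h6, fun h7 => h4 ?_⟩
  exact dvd_sub (h7.mul_left _) (h6.mul_left _)

theorem prim_ind (hSPP : SPP) {P : Eis → Prop} (h1 : P 1) (h2 : P (-1))
    (h3 : ∀ (π : PP) (c : Eis), Prim c → P c → P (π.1 * c)) :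
    ∀ c : Eis, Prim c → P c := by
  have key : ∀ (n : ℕ) (c : Eis), N c = n → Prim c → P c := by
    intro n
    induction n using Nat.strong_induction_on with
    | _ n ih =>
      intro c hn hc
      by_cases hu : IsUnit c
      · rcases prim_one.unit hu (by rw [one_mul]; exact hc) with h | h
        · rw [h]; exact h1
        · rw [h]; exact h2
      · obtain ⟨l, hlirr, hlc⟩ := WfDvdMonoid.exists_irreducible_factor hu (prim_ne_zero hc)
        have hl : Prime l := hlirr.prime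
        have hl3 : ¬ l ∣ 3 := by
          intro h
          exact not_lam_dvd hc (((dvd_three_iff hl).mp h).symm.dvd.trans hlc)
        obtain ⟨π, hπ⟩ := hSPP.1 l hl hl3
        obtain ⟨c', rfl⟩ := hπ.symm.dvd.trans hlc
        have hc' : Prim c' := prim_of_mul (pp_prim π) hc
        refine h3 π c' hc' (ih (N c') ?_ c' rfl hc')
        rw [← hn, N_mul]
        have h4 := N_prime π.2.1
        have h5 := N_pos (prim_ne_zero hc')
        nlinarith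
  exact fun c hc => key _ c rfl hc

/-! ### formal properties of `sl` -/

theorem sl_one (hSSL : SSL) {c : Eis} (hc : c ≠ 0) : sl 1 c = 0 := by
  have h := hSSL.1 1 1 c one_ne_zero one_ne_zero hc
  rw [mul_one] at h
  linear_combination (-1 : ZMod 3) * h

theorem sl_neg_one (hSSL : SSL) {c : Eis} (hc : c ≠ 0) : sl (-1) c = 0 := by
  have h := hSSL.1 (-1) (-1) c (neg_ne_zero.mpr one_ne_zero) (neg_ne_zero.mpr one_ne_zero) hc
  rw [neg_mul_neg, mul_one, sl_one hSSL hc] at h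
  apply two_mul_eq_zero
  linear_combination (-1 : ZMod 3) * h

theorem sl_mul_right (hSSL : SSL) {a b c : Eis} (ha : a ≠ 0) (hb : b ≠ 0) (hc : c ≠ 0) :
    sl c (a * b) = sl c a + sl c b := by
  have h1 := hSSL.2.1 (a * b) c (mul_ne_zero ha hb) hc
  have h2 := hSSL.2.1 a c ha hc
  have h3 := hSSL.2.1 b c hb hc
  have h4 := hSSL.1 a b c ha hb hc
  rw [h1, h2, h3, h4]
  ring

/-! ### the symbols at `PP` -/

theorem ch_eq {π a : Eis} (h : ¬ π ∣ a) : ch π a = sym π a := by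
  unfold ch up
  rw [V_eq_zero h, pow_zero, EuclideanDomain.div_one]

theorem pp_not_dvd (hSPP : SPP) {π π' : PP} (h : π ≠ π') : ¬ π.1 ∣ π'.1 := fun h' =>
  h (hSPP.2.1 π π' (π.2.1.associated_of_dvd π'.2.1 h'))

theorem tm_zero {π a b : Eis} (ha : ¬ π ∣ a) (hb : ¬ π ∣ b) : tm π a b = 0 := by
  unfold tm
  rw [V_eq_zero ha, V_eq_zero hb]
  simp

theorem tm_left {π b : Eis} (hb : ¬ π ∣ b) : tm π π b = - sym π b := by
  unfold tm
  rw [V_eq_zero hb, V_self, ch_eq hb]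
  simp

theorem tm_right {π a : Eis} (ha : ¬ π ∣ a) : tm π a π = sym π a := by
  unfold tm
  rw [V_eq_zero ha, V_self, ch_eq ha]
  simp

/-- the symbol of an element of `PP` and an element prime to all primes -/
theorem sl_pp (hSPP : SPP) (π : PP) {b : Eis} (hb : ∀ v : PP, ¬ v.1 ∣ b) :
    sl π.1 b = sym π.1 b := by
  unfold sl
  rw [finsum_eq_single _ π]
  · rw [tm_left (hb π), neg_neg]
  · intro v hv
    exact tm_zero (pp_not_dvd hSPP hv) (hb v)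

theorem recip_pp (hSPP : SPP) {π π' : PP} (h : π ≠ π') : sym π.1 π'.1 = sym π'.1 π.1 := by
  obtain ⟨p, hp, h1 | h1⟩ := hSPP.2.2.2.2.2 π
  · have h2 := recip_inert hp h1.1 π'.2.1 (hSPP.2.2.2.1 π').1 (pp_prim π')
      (by rw [← h1.2]; exact pp_not_dvd hSPP h)
    rw [← h1.2] at h2
    exact h2
  · have : Fact p.Prime := ⟨hp⟩
    exact recip h1.1 h1.2.1 π.2.2.2 π'.2.1 (hSPP.2.2.2.1 π').1 (pp_prim π')
      (fun h' => h (hSPP.2.1 π' π h').symm)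

theorem sl_pp_pp (hSPP : SPP) (hSSL : SSL) (π π' : PP) : sl π.1 π'.1 = 0 := by
  classical
  by_cases h : π = π'
  · subst h
    have h1 := hSSL.2.1 π.1 π.1 π.2.1.ne_zero π.2.1.ne_zero
    apply two_mul_eq_zero
    linear_combination h1
  · unfold sl
    rw [finsum_eq_sum_of_support_subset (s := {π, π'})]
    · rw [Finset.sum_pair h, tm_left (pp_not_dvd hSPP h), tm_right (pp_not_dvd hSPP (Ne.symm h)),
        recip_pp hSPP h]
      ring
    · intro v hv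
      by_contra hcon
      rw [Finset.coe_insert, Finset.coe_singleton, Set.mem_insert_iff, Set.mem_singleton_iff] at hcon
      push Not at hcon
      exact hv (tm_zero (pp_not_dvd hSPP hcon.1) (pp_not_dvd hSPP hcon.2))

theorem sl_pp_prim (hSPP : SPP) (hSSL : SSL) (π : PP) : ∀ d : Eis, Prim d → sl π.1 d = 0 := by
  have h0 := π.2.1.ne_zero
  refine prim_ind hSPP ?_ ?_ ?_
  · rw [hSSL.2.1 1 π.1 one_ne_zero h0, sl_one hSSL h0, neg_zero]
  · rw [hSSL.2.1 (-1) π.1 (neg_ne_zero.mpr one_ne_zero) h0, sl_neg_one hSSL h0, neg_zero]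
  · intro π' d hd ih
    rw [sl_mul_right hSSL π'.2.1.ne_zero (prim_ne_zero hd) h0, sl_pp_pp hSPP hSSL, ih, add_zero]

theorem wt_congr {m n : ℤ} (h : (9 : ℤ) ∣ m - n) : wt m = wt n := by
  obtain ⟨k, hk⟩ := h
  unfold wt
  have h1 : (m - 1) / 3 = (n - 1) / 3 + 3 * k := by omega
  rw [h1]
  push_cast
  linear_combination (k : ZMod 3) * three_zmod

theorem pp_norm (π : PP) : π.1.norm % 3 = 1 :=
  norm_emod_three_of_not_lam_dvd (not_lam_dvd (pp_prim π))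

theorem sym_lam_pp (hSPP : SPP) (π : PP) : sym π.1 lam = 2 * wt (π.1.re ^ 2) := by
  obtain ⟨p, hp, h1 | h1⟩ := hSPP.2.2.2.2.2 π
  · have h2 := sym_inert_lam hp h1.1
    have h3 := sym_w' π.2.1 (hSPP.2.2.2.1 π).1
    rw [← h1.2] at h2
    rw [h2, h3]
    have h4 : π.1.norm = π.1.re ^ 2 := by
      rw [h1.2, norm_def]
      simp
    rw [h4]
    linear_combination (-wt (π.1.re ^ 2)) * three_zmod
  · have : Fact p.Prime := ⟨hp⟩
    obtain ⟨M, hM⟩ := π.2.2.2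
    exact sym_lam h1.1 h1.2.1 hM

end SREC

open _root_.Pool.Agent.PT.SREC in
theorem SREC_thm (hSTM : STM) (hSPP : SPP) (hSSL : SSL) : SREC := by
  have hw : ∀ v : PP, ¬ v.1 ∣ w := fun v => not_dvd_w v.2.1
  have hlam : ∀ v : PP, ¬ v.1 ∣ lam := fun v => not_dvd_lam (hSPP.2.2.2.1 v).1
  have hw0 : w ≠ 0 := isUnit_w.ne_zero
  have hlam0 : lam ≠ 0 := prime_lam.ne_zero
  refine ⟨?_, ?_, ?_, ?_⟩
  · intro c d hc hd
    revert c
    have hd0 := prim_ne_zero hd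
    refine prim_ind hSPP (sl_one hSSL hd0) (sl_neg_one hSSL hd0) ?_
    intro π c hc ih
    rw [hSSL.1 π.1 c d π.2.1.ne_zero (prim_ne_zero hc) hd0, sl_pp_prim hSPP hSSL π d hd, ih,
      add_zero]
  · refine prim_ind hSPP ?_ ?_ ?_
    · rw [sl_one hSSL hw0, norm_one, wt_one]
    · rw [sl_neg_one hSSL hw0]
      have : (-1 : Eis).norm = 1 := by decide
      rw [this, wt_one]
    · intro π c hc ih
      rw [hSSL.1 π.1 c w π.2.1.ne_zero (prim_ne_zero hc) hw0, sl_pp hSPP π hw, ih,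
        sym_w' π.2.1 (hSPP.2.2.2.1 π).1, norm_mul,
        wt_mul (pp_norm π) (norm_emod_three_of_not_lam_dvd (not_lam_dvd hc))]
  · refine prim_ind hSPP ?_ ?_ ?_
    · rw [sl_one hSSL hlam0, one_re, one_pow, wt_one, mul_zero]
    · rw [sl_neg_one hSSL hlam0]
      have : (-1 : Eis).re ^ 2 = 1 := by decide
      rw [this, wt_one, mul_zero]
    · intro π c hc ih
      rw [hSSL.1 π.1 c lam π.2.1.ne_zero (prim_ne_zero hc) hlam0, sl_pp hSPP π hlam, ih,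
        sym_lam_pp hSPP π]
      have h1 : (π.1.re ^ 2) % 3 = 1 := sq_mod_three (pp_prim π).2
      have h2 : (c.re ^ 2) % 3 = 1 := sq_mod_three hc.2
      have h3 : wt ((π.1 * c).re ^ 2) = wt (π.1.re ^ 2 * c.re ^ 2) := by
        apply wt_congr
        obtain ⟨a, ha⟩ := (pp_prim π).1
        obtain ⟨b, hb⟩ := hc.1
        rw [mul_re, ha, hb]
        exact ⟨-2 * a * b * (π.1.re * c.re) + 9 * a ^ 2 * b ^ 2, by ring⟩
      rw [h3, wt_mul h1 h2]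
      ring
  · unfold sl
    rw [finsum_eq_zero_of_forall_eq_zero fun v => tm_zero (hw v) (hlam v), neg_zero]

end Pool.Agent.PT

end

section

/-!
# EADMS: `AdmC` and `Adm` for the primes `q = 1 (mod 3)`

Follows `Pool/Agent/PT/EADM.lean`.
-/

set_option autoImplicit false

namespace Pool.Agent.PTE

open Pool.Agent.Lib_helper18 Pool.Agent.Lib_helper18.Eis Pool.Agent.Lib_helper84.Cub
open Pool.Agent.PT

open Pool.Agent.PT.EADM in
/-- EADMS: `AdmC` and `Adm`. -/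
theorem EADMS_thm (hSTM : STM) (hSPP : SPP) (hSCJ : SCJ) (hSPLT : SPLT) : EADMS := by
  have _ := hSTM
  intro n m k π p e r f w0 c q ρ hN hq hcl hqn hqρ
  obtain ⟨_, hSPP2, _, hSPP4, _, hSPP6⟩ := hSPP
  obtain ⟨hSCJ1, _, _, hSCJ4⟩ := hSCJ
  obtain ⟨hq3, hqw, hqc⟩ := hcl
  obtain ⟨-, hsplit⟩ := hSPLT
  obtain ⟨-, -, hS3, hS4, -, -⟩ := hsplit q ρ hq hq3 hqρ
  have hn0 : n ≠ 0 := n_ne hN
  have hn3 : ¬ 3 ∣ n := three_not hN
  have hbelow : ∀ π : PP, ∃ l, Below π l := by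
    intro π
    obtain ⟨l, hl, h⟩ := hSPP6 π
    exact ⟨l, hl, h⟩
  have hcast : (((n : ℤ) * (q : ℤ) : ℤ) : Eis) = ((n * q : ℕ) : Eis) := by push_cast; ring
  have hnq0 : n * q ≠ 0 := mul_ne_zero hn0 hq.ne_zero
  have hB0 : (n : ℤ) * (q : ℤ) ≠ 0 := by exact_mod_cast hnq0
  have hB3 : ¬ (3 : ℤ) ∣ (n : ℤ) * (q : ℤ) := by
    intro h
    have h1 : 3 ∣ n * q := by exact_mod_cast h
    rcases Nat.prime_three.dvd_mul.1 h1 with h2 | h2
    · exact hn3 h2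
    · have := (Nat.prime_dvd_prime_iff_eq Nat.prime_three hq).1 h2
      omega
  refine ⟨⟨hB0, hB3, ?_⟩, ?_⟩
  · intro ϖ
    obtain ⟨l, hl⟩ := hbelow ϖ
    rw [hcast, hl.V_nat hnq0, Nat.factorization_mul hn0 hq.ne_zero, Finsupp.add_apply]
    have h1 := fac_le hN l
    by_cases hlq : l = q
    · have h2 : n.factorization l = 0 := by
        rw [hlq]
        exact Nat.factorization_eq_zero_of_not_dvd hqn
      have h3 : q.factorization l = 1 := by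
        rw [hlq]
        exact hq.factorization_self
      omega
    · have h3 : q.factorization l = 0 := by
        apply Nat.factorization_eq_zero_of_not_dvd
        intro h
        exact hlq ((Nat.prime_dvd_prime_iff_eq hl.pr hq).1 h)
      omega
  · intro x hsupp
    have hρ3 : ¬ ρ.1 ∣ 3 := (hSPP4 ρ).1
    -- `ρ` does not divide `x`
    have hρx : ¬ ρ.1 ∣ (x : Eis) := fun h => hqn (hsupp q hq ((hS4 x).1 h))
    have hρn : ¬ ρ.1 ∣ (n : Eis) := by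
      intro h
      have h1 := (hS4 (n : ℤ)).1 (by rwa [Int.cast_natCast])
      exact hqn (by exact_mod_cast h1)
    -- the symbol at `ρ`
    have hVq : V ρ.1 (q : Eis) = 1 := by
      obtain ⟨l, hl⟩ := hbelow ρ
      have h1 : ρ.1 ∣ (q : Eis) := by rw [hqρ]; exact dvd_mul_right _ _
      have h2 : l = q := (Nat.prime_dvd_prime_iff_eq hl.pr hq).1 ((hl.dvd_nat _).1 h1)
      rw [← h2]
      exact hl.V_self
    have hVB : V ρ.1 (((n : ℤ) * (q : ℤ) : ℤ) : Eis) = 1 := by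
      have e1 : (((n : ℤ) * (q : ℤ) : ℤ) : Eis) = (n : Eis) * (q : Eis) := by push_cast; ring
      rw [e1, V_mul ρ.2.1 (natCast_ne hn0) (natCast_ne hq.ne_zero), V_eq_zero hρn, hVq, zero_add]
    have hrho : tm ρ.1 (x : Eis) (((n : ℤ) * (q : ℤ) : ℤ) : Eis) = sym ρ.1 (x : Eis) := by
      unfold tm
      rw [hVB, V_eq_zero hρx, ch_unit ρ.2.1 hρx]
      simp
    -- the conditions at the `π i`
    have key : x ≠ 0 → ∀ i, (V (π i).1 (n : Eis) : ZMod 3) * ch (π i).1 (x : Eis) -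
        (V (π i).1 (x : Eis) : ZMod 3) * (ch (π i).1 (n : Eis) + c i) =
        tm (π i).1 (x : Eis) (((n : ℤ) * (q : ℤ) : ℤ) : Eis) := by
      intro hx i
      obtain ⟨l, hl⟩ := hbelow (π i)
      have hpi : (p i : Eis) = (π i).1 * conj (π i).1 := hN.pπ i
      have hlp : l = p i := by
        have h1 : (π i).1 ∣ (p i : Eis) := by rw [hpi]; exact dvd_mul_right _ _
        exact (Nat.prime_dvd_prime_iff_eq hl.pr (hN.pp i)).1 ((hl.dvd_nat _).1 h1)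
      have hq' : ¬ (π i).1 ∣ (q : Eis) := by
        intro h
        have h1 := (Nat.prime_dvd_prime_iff_eq hl.pr hq).1 ((hl.dvd_nat _).1 h)
        apply hqn
        rw [← h1, hlp, hN.eq]
        have he : e i ≠ 0 := by
          have := hN.pe i
          omega
        exact Dvd.dvd.mul_right ((dvd_pow_self _ he).trans
          (Finset.dvd_prod_of_mem (fun i => p i ^ e i) (Finset.mem_univ i))) _
      have h3 : ¬ (π i).1 ∣ 3 := (hSPP4 (π i)).1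
      have e1 : (((n : ℤ) * (q : ℤ) : ℤ) : Eis) = (n : Eis) * (q : Eis) := by push_cast; ring
      rw [e1]
      unfold tm
      rw [V_mul (π i).2.1 (natCast_ne hn0) (natCast_ne hq.ne_zero), V_eq_zero hq', add_zero,
        ch_mul (π i).2.1 h3 (natCast_ne hn0) (natCast_ne hq.ne_zero), ch_unit (π i).2.1 hq',
        hqc i]
    have hnine : ¬ (3 : ℤ) ∣ (n : ℤ) := by
      intro h
      exact hn3 (by exact_mod_cast h)
    have hqq : ¬ (3 : ℤ) ∣ (q : ℤ) := by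
      intro h
      have : 3 ∣ q := by exact_mod_cast h
      omega
    have hC : C9 ((n : ℤ) * (q : ℤ)) ↔ wt ((n : ℤ) ^ 2) + w0 = 0 := by
      rw [C9_iff hB3, mul_pow, wt_mul (sq_mod_three hnine) (sq_mod_three hqq), hqw]
    constructor
    · rintro ⟨⟨hx, h3, _, hsym, h9⟩, hxρ⟩
      refine ⟨hx, h3, ?_, ?_, fun h => h9 (hC.1 h)⟩
      · intro ϖ
        obtain ⟨l, hl⟩ := hbelow ϖ
        rcases hl.h with ⟨hl3, hl2⟩ | ⟨hl3, hl2, hl4, hl5⟩
        · rw [hl2]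
          exact hSCJ4 l hl.pr hl3 x _ hx hB0
        · by_cases hln : l ∣ n
          · rcases prime_dvd hN hl.pr hln with ⟨i, hi⟩ | ⟨j, hj⟩
            · have h4 : ϖ.1 ∣ (π i).1 * conj (π i).1 := by
                rw [← hN.pπ i, ← hi, hl4]
                exact dvd_mul_right _ _
              rcases ϖ.2.1.dvd_or_dvd h4 with h5 | h5
              · have h6 : ϖ = π i :=
                  hSPP2 _ _ (ϖ.2.1.associated_of_dvd (π i).2.1 h5)
                rw [h6, ← key hx i]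
                exact hsym i
              · obtain ⟨ϖ', hϖ'⟩ := (hSPP4 (π i)).2
                have h6 : ϖ = ϖ' := by
                  apply hSPP2
                  rw [hϖ']
                  exact ϖ.2.1.associated_of_dvd (prime_conj (π i).2.1) h5
                rw [h6, hϖ']
                have h7 := hSCJ1 (π i).1 (x : Eis) (((n : ℤ) * (q : ℤ) : ℤ) : Eis) (π i).2.1
                  (hSPP4 (π i)).1 (intCast_ne hx) (intCast_ne hB0)
                rw [map_intCast, map_intCast] at h7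
                rw [h7, ← key hx i, hsym i, neg_zero]
            · have := hN.r2 j
              rw [← hj] at this
              omega
          · by_cases hlq : l = q
            · -- the primes above `q`
              have h4 : ϖ.1 ∣ (q : Eis) := by
                rw [← hlq, hl4]
                exact dvd_mul_right _ _
              rcases hS3 ϖ h4 with h5 | h5
              · rw [h5, hrho, hxρ]
              · rw [h5]
                have h7 := hSCJ1 ρ.1 (x : Eis) (((n : ℤ) * (q : ℤ) : ℤ) : Eis) ρ.2.1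
                  hρ3 (intCast_ne hx) (intCast_ne hB0)
                rw [map_intCast, map_intCast] at h7
                rw [h7, hrho, hxρ, neg_zero]
            · have h4 : ¬ ϖ.1 ∣ (x : Eis) := by
                intro h
                exact hln (hsupp l hl.pr ((hl.dvd_int x).1 h))
              have h5 : ¬ ϖ.1 ∣ (((n : ℤ) * (q : ℤ) : ℤ) : Eis) := by
                rw [hcast, hl.dvd_nat]
                intro h
                rcases hl.pr.dvd_mul.1 h with h6 | h6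
                · exact hln h6
                · exact hlq ((Nat.prime_dvd_prime_iff_eq hl.pr hq).1 h6)
              unfold tm
              rw [V_eq_zero h4, V_eq_zero h5]
              simp
      · intro ϖ hϖ h
        obtain ⟨l, hl⟩ := hbelow ϖ
        apply hϖ
        rw [hcast, hl.dvd_nat]
        exact (hsupp l hl.pr ((hl.dvd_int x).1 h)).mul_right q
    · rintro ⟨hx, h3, hsym, _, h9⟩
      refine ⟨⟨hx, h3, hsupp, fun i => ?_, fun h => h9 (hC.2 h)⟩, ?_⟩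
      · rw [key hx i]
        exact hsym (π i)
      · rw [← hrho]
        exact hsym ρ

end Pool.Agent.PTE

end

section

/-!
# SCJ: complex conjugation
-/

namespace Pool.Agent.PT

open Pool.Agent.Lib_helper18 Pool.Agent.Lib_helper18.Eis Pool.Agent.Lib_helper84.Cub

namespace SCJ

/-- the unit part -/
theorem up_eq {π a c : Eis} {n : ℕ} (hπ : Prime π) (ha : a = π ^ n * c) (hc : ¬ π ∣ c) :
    V π a = n ∧ up π a = c := by
  have h1 : V π a = n := by rw [ha]; exact V_pow_mul hπ n hc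
  refine ⟨h1, ?_⟩
  unfold up
  rw [h1, ha]
  exact mul_div_cancel_left₀ c (pow_ne_zero n hπ.ne_zero)

theorem conj_ne_zero {a : Eis} (ha : a ≠ 0) : conj a ≠ 0 := by
  intro h
  apply ha
  rw [← conj_conj a, h, map_zero]

theorem V_ch_conj {π a : Eis} (hπ : Prime π) (h3 : ¬ π ∣ 3) (ha : a ≠ 0) :
    V (conj π) (conj a) = V π a ∧ ch (conj π) (conj a) = - ch π a := by
  obtain ⟨c, hc, hpc⟩ := V_split hπ ha
  have h1 : conj a = conj π ^ (V π a) * conj c := by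
    conv_lhs => rw [hc]
    rw [map_mul, map_pow]
  have hpc' : ¬ conj π ∣ conj c := fun h => hpc (conj_dvd_iff.mp h)
  obtain ⟨e1, e2⟩ := up_eq (prime_conj hπ) h1 hpc'
  obtain ⟨-, e3⟩ := up_eq hπ hc hpc
  refine ⟨e1, ?_⟩
  unfold ch
  rw [e2, e3]
  exact sym_conj hπ h3 hpc

theorem tm_conj {π a b : Eis} (hπ : Prime π) (h3 : ¬ π ∣ 3) (ha : a ≠ 0) (hb : b ≠ 0) :
    tm (conj π) (conj a) (conj b) = - tm π a b := by
  unfold tm
  rw [(V_ch_conj hπ h3 ha).1, (V_ch_conj hπ h3 ha).2, (V_ch_conj hπ h3 hb).1,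
    (V_ch_conj hπ h3 hb).2]
  ring

theorem intCast_ne {m : ℤ} (hm : m ≠ 0) : (m : Eis) ≠ 0 := by
  intro h
  apply hm
  have := congrArg Eis.re h
  simpa using this

theorem eq_zero_of_neg {x : ZMod 3} (h : x = - x) : x = 0 := by
  revert h
  revert x
  decide

end SCJ

open _root_.Pool.Agent.PT.SCJ in
set_option linter.unusedVariables false in
theorem SCJ_thm (hSTM : STM) (hSPP : SPP) (hSSL : SSL) : SCJ := by
  have h2 : ∀ a b : Eis, a ≠ 0 → b ≠ 0 → sl (conj a) (conj b) = - sl a b := by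
    intro a b ha hb
    choose h3 hc using hSPP.2.2.2.1
    choose σ hσ using hc
    have hinv : Function.Involutive σ := fun π => Subtype.ext (by
      rw [hσ, hσ, conj_conj])
    have e1 : ∑ᶠ π : PP, tm π.1 (conj a) (conj b) = ∑ᶠ π : PP, tm (σ π).1 (conj a) (conj b) :=
      (finsum_comp_equiv (hinv.toPerm σ) (f := fun π : PP => tm π.1 (conj a) (conj b))).symm
    have e2 : ∑ᶠ π : PP, tm (σ π).1 (conj a) (conj b) = ∑ᶠ π : PP, - tm π.1 a b := by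
      refine finsum_congr fun π => ?_
      rw [hσ]
      exact tm_conj π.2.1 (h3 π) ha hb
    unfold sl
    rw [e1, e2, finsum_neg_distrib]
  refine ⟨fun π a b hπ h3 ha hb => tm_conj hπ h3 ha hb, h2, ?_, ?_⟩
  · intro m n hm hn
    have h := h2 m n (intCast_ne hm) (intCast_ne hn)
    rw [conj_intCast, conj_intCast] at h
    exact eq_zero_of_neg h
  · intro q hq hq3 m n hm hn
    have h := tm_conj (prime_inert hq hq3) (n3 hq hq3) (intCast_ne hm) (intCast_ne hn)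
    rw [conj_intCast, conj_intCast, conj_natCast] at h
    exact eq_zero_of_neg h

end Pool.Agent.PT

end

section

/-!
# Module SSL: the symbol `sl` and the product formula
-/

namespace Pool.Agent.PT

open Pool.Agent.Lib_helper18 Pool.Agent.Lib_helper18.Eis Pool.Agent.Lib_helper84.Cub

namespace SSL

/-- the tame symbol of `a, b` vanishes at the primes dividing neither -/
theorem supp_sub (a b : Eis) :
    (Function.support fun π : PP => tm π.1 a b) ⊆ {π : PP | π.1 ∣ a} ∪ {π : PP | π.1 ∣ b} := by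
  intro π hπ
  by_contra hcon
  simp only [Set.mem_union, Set.mem_setOf_eq, not_or] at hcon
  apply hπ
  show tm π.1 a b = 0
  unfold tm
  rw [V_eq_zero hcon.1, V_eq_zero hcon.2]
  simp

theorem supp_fin (h : SPP) {a b : Eis} (ha : a ≠ 0) (hb : b ≠ 0) :
    (Function.support fun π : PP => tm π.1 a b).Finite :=
  ((h.2.2.1 a ha).union (h.2.2.1 b hb)).subset (supp_sub a b)

end SSL

open _root_.Pool.Agent.PT.SSL in
theorem SSL_thm (hSTM : STM) (hSPP : SPP) : SSL := by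
  have hL : ∀ π : PP, LSym π.1 (tm π.1) 1 := fun π => hSTM π.1 π.2.1 (hSPP.2.2.2.1 π).1
  refine ⟨?_, ?_, ?_, ?_⟩
  · intro a b c ha hb hc
    have h1 : (fun π : PP => tm π.1 (a * b) c) = fun π : PP => tm π.1 a c + tm π.1 b c := by
      funext π
      exact (hL π).mul a b c ha hb hc
    unfold sl
    rw [h1, finsum_add_distrib (supp_fin hSPP ha hc) (supp_fin hSPP hb hc), neg_add]
  · intro a b ha hb
    have h1 : (fun π : PP => tm π.1 b a) = fun π : PP => - tm π.1 a b := by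
      funext π
      exact (hL π).skew a b ha hb
    unfold sl
    rw [h1, finsum_neg_distrib]
  · intro a b c ha hb hc habc
    have h1 : (fun π : PP => tm π.1 c a) = fun π : PP => -(tm π.1 a b + tm π.1 b c) := by
      funext π
      have := (hL π).stein a b c ha hb hc habc
      linear_combination this
    unfold sl
    rw [h1, finsum_neg_distrib,
      finsum_add_distrib (supp_fin hSPP ha hb) (supp_fin hSPP hb hc)]
    ring
  · intro a b ha hb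
    have hf := supp_fin hSPP ha hb
    refine ⟨?_, ?_⟩
    · refine ((hf.image some).union (Set.finite_singleton none)).subset ?_
      intro v hv
      rcases v with _ | π
      · right
        rfl
      · left
        exact ⟨π, hv, rfl⟩
    · rw [finsum_option (f := fun v : Pl => sy v a b) hf]
      show sl a b + ∑ᶠ π : PP, tm π.1 a b = 0
      unfold sl
      rw [neg_add_cancel]

end Pool.Agent.PT

end

section

/-!
# TTHT: `O_B(b, b^(1/3)) = 0`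
-/

namespace Pool.Agent.PT3

open Pool.Agent.Lib_helper18 Pool.Agent.Lib_helper18.Eis Pool.Agent.Lib_helper84.Cub
open Pool.Agent.PT Pool.Agent.PTE

namespace TTHT

open Pool.Agent.PT.TTH

theorem local_eq (hSTM : STM) (hSPP : SPP) (hSLC : SLC) (hLCI : LCI) (hAVV : AVV)
    (hLCL : LCL) {B b : ℤ} (hB : BG B) (hb : AG B b)
    (h9 : LC lam b ∨ (lv b = lv B ∧ lw b = lw B)) (v : Pl) :
    TT v B b b 0 1 1 0 = sy v w (b : Eis) - sy v w (B : Eis) := by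
  have hB0 : (B : Eis) ≠ 0 := cast_ne hB.ne
  have hb0 : (b : Eis) ≠ 0 := cast_ne hb.ne
  have hsym : ∃ e, LSym (uni v) (sy v) e := by
    cases v with
    | none => exact ⟨4, hSLC⟩
    | some π => exact ⟨1, hSTM π.1 π.2.1 (hSPP.2.2.2.1 π).1⟩
  obtain ⟨e, hs⟩ := hsym
  by_cases hLC : LC (uni v) b
  · have hBb : sy v (B : Eis) (b : Eis) = 0 := by
      rw [hs.skew _ _ hb0 hB0]
      cases v with
      | none =>
        change - sl (b : Eis) (B : Eis) = 0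
        unfold sl
        have h0 : (fun π : PP => tm π.1 (b : Eis) (B : Eis)) = fun _ => 0 := by
          funext π
          exact hb.sym π
        rw [h0, finsum_zero, neg_zero, neg_zero]
      | some π =>
        change - tm π.1 (b : Eis) (B : Eis) = 0
        rw [hb.sym π, neg_zero]
    have hSol : SolW b b 0 1 1 0 := ⟨by ring, by simpa using hb.ne⟩
    have hAV := (hAVV v B b b 0 1 1 0 hB.ne hb.ne hb.ne hSol hBb hLC).2 (- sy v w (B : Eis))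
      (V (uni v) (b : Eis) + 1) (by
        intro r hr
        refine AS_val hs hB0 ?_
        intro hr0
        rw [hr0, zero_pow three_ne_zero, zero_sub, dvd_neg] at hr
        exact (fin hs.prime hb0).not_pow_dvd_of_multiplicity_lt (Nat.lt_succ_self _) hr)
    have hwb : sy v w (b : Eis) = 0 := by
      have h1 := hLCI.2.2 (uni v) (sy v) e b w hs hLC hb.ne w_ne
      rw [hs.skew _ _ hb0 w_ne, h1, neg_zero]
    unfold TT
    rw [if_pos hLC, hAV, hwb]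
    ring
  · cases v with
    | none =>
      have h2 := h9.resolve_left hLC
      unfold TT
      rw [if_neg hLC]
      change (0 : ZMod 3) = sl w (b : Eis) - sl w (B : Eis)
      rw [hLCL.2.2.2.2.1 b hb.ne, hLCL.2.2.2.2.1 B hB.ne, h2.2, sub_self]
    | some π =>
      have hVw : V π.1 w = 0 := by
        rw [V_eq_zero_iff]
        intro h
        have h1 : π.1 ∣ w ^ 3 := dvd_pow h three_ne_zero
        rw [w_cube] at h1
        exact π.2.1.not_isUnit (isUnit_of_dvd_one h1)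
      have ht : ∀ x : Eis, tm π.1 w x = (V π.1 x : ZMod 3) * ch π.1 w := by
        intro x
        unfold tm
        rw [hVw]
        push_cast
        ring
      unfold TT
      rw [if_neg hLC]
      change (if 3 ∣ V π.1 (b : Eis) + V π.1 (B : Eis) ∧ ¬ 3 ∣ V π.1 (b : Eis)
        then - tm π.1 w (b : Eis) else 0) = tm π.1 w (b : Eis) - tm π.1 w (B : Eis)
      rw [ht, ht]
      by_cases hd : π.1 ∣ (B : Eis)
      · have hV1 : V π.1 (B : Eis) ≠ 0 := by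
          intro h
          exact (V_eq_zero_iff.mp h) hd
        have hV2 := hB.cf π
        have hVB : ¬ 3 ∣ V π.1 (B : Eis) := by omega
        have hVb : ¬ 3 ∣ V π.1 (b : Eis) := by
          intro h3
          apply hLC
          refine (hLCI.1 π b hb.ne).mpr ⟨h3, ?_⟩
          have h4 := hb.sym π
          unfold tm at h4
          rw [(cast3 _).mpr h3, zero_mul, sub_zero] at h4
          rcases mul_eq_zero.mp h4 with h5 | h5
          · exact absurd ((cast3 _).mp h5) hVB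
          · exact h5
        by_cases h6 : 3 ∣ V π.1 (b : Eis) + V π.1 (B : Eis)
        · rw [if_pos ⟨h6, hVb⟩]
          refine key3 _ _ _ ?_
          rw [← Nat.cast_add]
          exact (cast3 _).mpr h6
        · rw [if_neg (fun h => h6 h.1)]
          refine key3' _ _ _ ?_ ?_ ?_
          · exact fun h => hVb ((cast3 _).mp h)
          · exact fun h => hVB ((cast3 _).mp h)
          · rw [← Nat.cast_add]
            exact fun h => h6 ((cast3 _).mp h)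
      · have h1 : V π.1 (B : Eis) = 0 := V_eq_zero hd
        have h2 : V π.1 (b : Eis) = 0 := V_eq_zero (hb.unr π hd)
        rw [h1, h2, if_neg (fun h => h.2 (dvd_zero _))]
        push_cast
        ring

end TTHT

/-- TTHT. -/
theorem TTHT_thm (hSTM : STM) (hSPP : SPP) (hSSL : SSL) (hSLC : SLC) (_hSCJ : SCJ) (hLCI : LCI)
    (hAVV : AVV) (_hLFIG : LFIG) (hLCL : LCL) : TTHT := by
  intro B b hB hb h9
  have hB0 : (B : Eis) ≠ 0 := TTH.cast_ne hB.ne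
  have hb0 : (b : Eis) ≠ 0 := TTH.cast_ne hb.ne
  unfold OO
  have h1 : (fun v : Pl => TT v B b b 0 1 1 0) =
      fun v => sy v w (b : Eis) - sy v w (B : Eis) := by
    funext v
    exact TTHT.local_eq hSTM hSPP hSLC hLCI hAVV hLCL hB hb h9 v
  rw [h1, finsum_sub_distrib (hSSL.2.2.2 w b TTH.w_ne hb0).1 (hSSL.2.2.2 w B TTH.w_ne hB0).1,
    (hSSL.2.2.2 w b TTH.w_ne hb0).2, (hSSL.2.2.2 w B TTH.w_ne hB0).2, sub_zero]

end Pool.Agent.PT3

end

section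

/-!
# Prime twists of rank zero, `n` divisible by `3`: the number of the diagonals (module EDC)
-/

namespace Pool.Agent.PT3

open Pool.Agent.Lib_helper18 Pool.Agent.Lib_helper18.Eis Pool.Agent.Lib_helper84.Cub
open Pool.Agent.PT Pool.Agent.PTE

namespace EDC

theorem ne_of : ∀ a b u : ZMod 3, b ≠ 0 → u ≠ 0 → a - (a * b + u) * b ≠ 0 := by
  decide

theorem card_two : Nat.card {u : ZMod 3 // u ≠ 0} = 2 := by
  rw [Nat.card_eq_fintype_card]
  decide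

/-- The determinant of the upper left block. -/
noncomputable def D1 {m : ℕ} (A : Matrix (Fin (m + 2)) (Fin (m + 2)) (ZMod 3))
    (d : Fin m → ZMod 3) : ZMod 3 :=
  (A.submatrix Fin.castSucc Fin.castSucc -
    Matrix.diagonal (Fin.cons 0 d : Fin (m + 1) → ZMod 3)).det

/-- The determinant for the last entry `0`. -/
noncomputable def D0 {m : ℕ} (A : Matrix (Fin (m + 2)) (Fin (m + 2)) (ZMod 3))
    (d : Fin m → ZMod 3) : ZMod 3 :=
  (A - Matrix.diagonal (Fin.snoc (Fin.cons 0 d : Fin (m + 1) → ZMod 3) 0 :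
    Fin (m + 2) → ZMod 3)).det

theorem det_eq {m : ℕ} (A : Matrix (Fin (m + 2)) (Fin (m + 2)) (ZMod 3))
    (d : Fin m → ZMod 3) (t : ZMod 3) :
    (A - Matrix.diagonal (Fin.cons 0 (Fin.snoc d t : Fin (m + 1) → ZMod 3) :
      Fin (m + 2) → ZMod 3)).det = D0 A d - t * D1 A d := by
  rw [EDET.cons_snoc, EDET.det_last]
  rfl

end EDC

/-- EDC: the number of the diagonals such that the matrix becomes invertible. -/
theorem EDC_thm : EDC := by
  intro m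
  induction m with
  | zero =>
    intro A hA
    have hne : Nonempty {d : Fin 0 → ZMod 3 //
        (A - Matrix.diagonal (Fin.cons 0 d : Fin (0 + 1) → ZMod 3)).det ≠ 0} := by
      refine ⟨⟨fun _ => 0, ?_⟩⟩
      rw [Matrix.det_fin_one, Matrix.sub_apply, Matrix.diagonal_apply_eq, Fin.cons_zero, sub_zero]
      exact hA
    rw [pow_zero]
    exact Nat.card_pos
  | succ m ih =>
    intro A hA
    have h1 := ih (A.submatrix Fin.castSucc Fin.castSucc) hA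
    have hD : ∀ d : Fin m → ZMod 3, (A.submatrix Fin.castSucc Fin.castSucc -
        Matrix.diagonal (Fin.cons 0 d : Fin (m + 1) → ZMod 3)).det = EDC.D1 A d := fun _ => rfl
    let f : {d : Fin m → ZMod 3 // (A.submatrix Fin.castSucc Fin.castSucc -
        Matrix.diagonal (Fin.cons 0 d : Fin (m + 1) → ZMod 3)).det ≠ 0} ×
        {u : ZMod 3 // u ≠ 0} → {d : Fin (m + 1) → ZMod 3 //
        (A - Matrix.diagonal (Fin.cons 0 d : Fin (m + 1 + 1) → ZMod 3)).det ≠ 0} := fun x =>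
      ⟨Fin.snoc x.1.1 (EDC.D0 A x.1.1 * EDC.D1 A x.1.1 + x.2.1), by
        rw [EDC.det_eq]
        exact EDC.ne_of _ _ _ x.1.2 x.2.2⟩
    have hf : Function.Injective f := by
      rintro ⟨⟨d, hd⟩, ⟨u, hu⟩⟩ ⟨⟨d', hd'⟩, ⟨u', hu'⟩⟩ hx
      have h2 : (Fin.snoc d (EDC.D0 A d * EDC.D1 A d + u) : Fin (m + 1) → ZMod 3) =
          Fin.snoc d' (EDC.D0 A d' * EDC.D1 A d' + u') := congrArg Subtype.val hx
      have h3 : d = d' := by
        have := congrArg Fin.init h2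
        rwa [Fin.init_snoc, Fin.init_snoc] at this
      subst h3
      have h4 := congrFun h2 (Fin.last m)
      rw [Fin.snoc_last, Fin.snoc_last] at h4
      have h5 : u = u' := add_left_cancel h4
      subst h5
      rfl
    have h6 := Nat.card_le_card_of_injective f hf
    rw [Nat.card_prod, EDC.card_two] at h6
    rw [pow_succ]
    omega

end Pool.Agent.PT3

end

section

/-!
# Kummer theory for the cube roots of the `b_j` in the governing field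
-/

open NumberField IsDedekindDomain Finset
open scoped nonZeroDivisors Pointwise

namespace Pool.Agent.PTE

open Pool.Agent.Lib_helper18 Pool.Agent.Lib_helper18.Eis Pool.Agent.Lib_helper84.Cub
open Pool.Agent.PT

namespace GKUM

theorem cube_eq {L : Type} [Field L] {ω : L} (h : ω ^ 2 + ω + 1 = 0) {x y : L}
    (hxy : x ^ 3 = y ^ 3) : ∃ k : ℕ, x = ω ^ k * y := by
  have h1 : (x - y) * ((x - ω * y) * (x - ω ^ 2 * y)) = 0 := by
    linear_combination hxy + (-x ^ 2 * y + ω * x * y ^ 2 - (ω - 1) * y ^ 3) * h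
  rcases mul_eq_zero.1 h1 with h2 | h2
  · exact ⟨0, by rw [pow_zero, one_mul]; exact sub_eq_zero.1 h2⟩
  · rcases mul_eq_zero.1 h2 with h3 | h3
    · exact ⟨1, by rw [pow_one]; exact sub_eq_zero.1 h3⟩
    · exact ⟨2, sub_eq_zero.1 h3⟩

end GKUM

theorem GKUM_thm (hKUM : KUM) (hGKI : GKI) : GKUM := by
  intro s b p q p' q' f L _ _ ζ ω hS hG v
  have hω := hG.rel
  haveI := hG.gal
  have hf : 0 < f := by
    rcases Nat.eq_zero_or_pos f with h | h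
    · exfalso
      have h1 := hG.hω
      rw [h, Nat.zero_div, pow_zero] at h1
      rw [h1] at hω
      norm_num at hω
    · exact h
  have hζf : ζ ^ f = 1 := hG.prim.pow_eq_one
  have hζ : ∀ z : L ≃ₐ[ℚ] L, z ζ = ζ → z ω = ω := by
    intro z hz
    rw [hG.hω, map_pow, hz]
  have hb : ∀ i, b i ≠ 0 := by
    intro i hi
    refine hS.ind (fun l => if l = i then 1 else 0) ⟨i, by simp⟩ ⟨0, ?_⟩
    symm
    rw [zero_pow (by norm_num)]
    exact Finset.prod_eq_zero (Finset.mem_univ i) (by simp [hi])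
  choose θ hθ using hG.root
  let F := IntermediateField.adjoin ℚ {ζ}
  have hζF : ζ ∈ F := IntermediateField.mem_adjoin_simple_self ℚ ζ
  let ζF : F := ⟨ζ, hζF⟩
  obtain ⟨g, hg⟩ := hKUM F L (ζF ^ (f / 3)) (Fin s) (fun i => ((b i : ℤ) : F)) θ
    (by
      apply Subtype.ext
      push_cast
      rw [← hG.hω]
      exact hω)
    (fun i => by exact_mod_cast hb i)
    (fun i => by rw [hθ i, map_intCast])
    (by
      rintro n ⟨β, hβ⟩
      by_contra hcon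
      push Not at hcon
      have h1 : ((β : L)) ^ 3 = ((∏ i, b i ^ n i : ℤ) : L) := by
        have h2 := congrArg (algebraMap F L) hβ
        rw [map_pow, map_prod] at h2
        push_cast
        rw [show ((β : L)) ^ 3 = (algebraMap F L β) ^ 3 from rfl, ← h2]
        refine Finset.prod_congr rfl (fun i _ => ?_)
        rw [map_pow, map_intCast]
      obtain ⟨t, ht⟩ := hGKI L f ζ (β : L) (∏ i, b i ^ n i) hf hζf β.2 h1
      exact hS.ind n hcon ⟨t, ht⟩)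
    v
  have hgζ : (g.restrictScalars ℚ) ζ = ζ := g.commutes ζF
  have hgθ : ∀ l, (g.restrictScalars ℚ) (θ l) = ω ^ (v l).val * θ l := by
    intro l
    have h3 := hg l
    rw [AlgEquiv.restrictScalars_apply, h3, map_pow]
    rw [show algebraMap F L ζF = ζ from rfl, ← hG.hω]
  refine ⟨g.restrictScalars ℚ, hgζ, fun j ρ hρ => ?_⟩
  obtain ⟨k, hk⟩ := GKUM.cube_eq hω (show ρ ^ 3 = θ j ^ 3 by rw [hρ, hθ j])
  rw [hk, map_mul, map_pow, hζ _ hgζ, hgθ]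
  ring

end Pool.Agent.PTE

end

section

/-!
# Module LPT: existence of local points
-/

set_option autoImplicit false

open NumberField IsDedekindDomain Finset
open scoped nonZeroDivisors Pointwise

namespace Pool.Agent.PT3

open Pool.Agent.Lib_helper18 Pool.Agent.Lib_helper18.Eis Pool.Agent.Lib_helper84.Cub
open Pool.Agent.PT Pool.Agent.PTE

namespace LPT

lemma wt_eq (m k : ℤ) (h : m = 1 + 3 * k) : wt m = (k : ZMod 3) := by
  unfold wt
  have h1 : (m - 1) / 3 = k := by omega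
  rw [h1]

lemma sq_form (x : ℤ) (hx : ¬ (3 : ℤ) ∣ x) : ∃ k : ℤ, x ^ 2 = 1 + 3 * k := by
  have h1 : x % 3 = 1 ∨ x % 3 = 2 := by omega
  have h2 := Int.emod_add_mul_ediv x 3
  rcases h1 with h1 | h1
  · refine ⟨3 * (x / 3) ^ 2 + 2 * (x / 3), ?_⟩
    rw [h1] at h2
    generalize x / 3 = a at h2 ⊢
    rw [← h2]
    ring
  · refine ⟨3 * (x / 3) ^ 2 + 4 * (x / 3) + 1, ?_⟩
    rw [h1] at h2
    generalize x / 3 = a at h2 ⊢
    rw [← h2]
    ring

lemma wt_sq_add (x t : ℤ) (hx : ¬ (3 : ℤ) ∣ x) :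
    wt ((x + 3 * t) ^ 2) = wt (x ^ 2) + 2 * (x : ZMod 3) * (t : ZMod 3) := by
  obtain ⟨k, hk⟩ := sq_form x hx
  rw [wt_eq _ _ hk, wt_eq ((x + 3 * t) ^ 2) (k + 2 * x * t + 3 * t ^ 2) (by linear_combination hk)]
  push_cast
  have h3 : (3 : ZMod 3) = 0 := by decide
  rw [h3]
  ring

lemma exists_rep (γ : ZMod 3) : ∃ Y : ℤ, Y ≠ 0 ∧ (Y : ZMod 3) = γ := by
  have h : ∀ γ : ZMod 3, γ = 0 ∨ γ = 1 ∨ γ = -1 := by decide
  rcases h γ with rfl | rfl | rfl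
  · exact ⟨3, by norm_num, by decide⟩
  · exact ⟨1, by norm_num, by simp⟩
  · exact ⟨-1, by norm_num, by simp⟩

lemma cast_ne (x : ℤ) (hx : ¬ (3 : ℤ) ∣ x) : (x : ZMod 3) ≠ 0 := by
  intro h
  exact hx ((ZMod.intCast_zmod_eq_zero_iff_dvd x 3).mp h)

lemma cube_eq (x : ZMod 3) : x ^ 3 = x := by
  revert x
  decide

/-- solution of a linear equation by a nonzero integer -/
lemma exists_sol (u γ : ZMod 3) (hu : u ≠ 0) : ∃ Y : ℤ, Y ≠ 0 ∧ u * (Y : ZMod 3) = γ := by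
  have h : ∀ u : ZMod 3, u ≠ 0 → u * u = 1 := by decide
  obtain ⟨Y, h1, h2⟩ := exists_rep (u * γ)
  exact ⟨Y, h1, by rw [h2, ← mul_assoc, h u hu, one_mul]⟩

lemma two_mul_ne (u : ZMod 3) (hu : u ≠ 0) : 2 * u ≠ 0 := by
  revert u
  decide

/-- the decomposition of a nonzero integer -/
lemma decomp (b : ℤ) (hb : b ≠ 0) : ∃ (j i : ℕ) (b' : ℤ), i < 3 ∧ ¬ (3 : ℤ) ∣ b' ∧
    b = (3 ^ j) ^ 3 * (3 ^ i * b') := by
  obtain ⟨n, b', h1, h2⟩ := (Int.finiteMultiplicity_iff.mpr ⟨by decide, hb⟩ :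
    FiniteMultiplicity (3 : ℤ) b).exists_eq_pow_mul_and_not_dvd |>.elim fun c hc =>
      (⟨_, c, hc.1, hc.2⟩ : ∃ (n : ℕ) (c : ℤ), b = 3 ^ n * c ∧ ¬ (3 : ℤ) ∣ c)
  refine ⟨n / 3, n % 3, b', Nat.mod_lt _ (by norm_num), h2, ?_⟩
  rw [h1, ← mul_assoc, ← pow_mul, ← pow_add]
  congr 2
  omega

section

variable (hLCL : LCL)

include hLCL

lemma lv_mul {a b : ℤ} (ha : a ≠ 0) (hb : b ≠ 0) : lv (a * b) = lv a + lv b :=
  (hLCL.2.1 a b ha hb).1

lemma lw_mul {a b : ℤ} (ha : a ≠ 0) (hb : b ≠ 0) : lw (a * b) = lw a + lw b :=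
  (hLCL.2.1 a b ha hb).2

lemma lv_cube {c a : ℤ} (hc : c ≠ 0) (ha : a ≠ 0) : lv (c ^ 3 * a) = lv a := by
  have h : ∀ x y : ZMod 3, x + (x + x) + y = y := by decide
  rw [lv_mul hLCL (pow_ne_zero 3 hc) ha, pow_succ', pow_two, lv_mul hLCL hc (mul_ne_zero hc hc),
    lv_mul hLCL hc hc, h]

lemma lw_cube {c a : ℤ} (hc : c ≠ 0) (ha : a ≠ 0) : lw (c ^ 3 * a) = lw a := by
  have h : ∀ x y : ZMod 3, x + (x + x) + y = y := by decide
  rw [lw_mul hLCL (pow_ne_zero 3 hc) ha, pow_succ', pow_two, lw_mul hLCL hc (mul_ne_zero hc hc),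
    lw_mul hLCL hc hc, h]

lemma lv_unit {a : ℤ} (ha : ¬ (3 : ℤ) ∣ a) : lv a = 0 := (hLCL.2.2.2.1 a ha).1

lemma lw_unit {a : ℤ} (ha : ¬ (3 : ℤ) ∣ a) : lw a = wt (a ^ 2) := (hLCL.2.2.2.1 a ha).2

lemma lv_three {a : ℤ} (ha : a ≠ 0) : lv (3 * a) = 1 + lv a := by
  rw [lv_mul hLCL (by norm_num) ha, hLCL.2.2.1.1]

lemma lw_three {a : ℤ} (ha : a ≠ 0) : lw (3 * a) = lw a := by
  rw [lw_mul hLCL (by norm_num) ha, hLCL.2.2.1.2, zero_add]

end

lemma ne_of_not_dvd {a : ℤ} (ha : ¬ (3 : ℤ) ∣ a) : a ≠ 0 := by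
  rintro rfl
  exact ha (dvd_zero _)

end LPT

open _root_.Pool.Agent.PT3.LPT in
theorem LPT_thm (hLCL : LCL) : LPT := by
  intro b β hb hne
  -- reduction to the class of the second factor
  suffices h : ∃ X Y : ℤ, X ≠ 0 ∧ Y ≠ 0 ∧ X ^ 3 + b * Y ^ 3 ≠ 0 ∧
      lv (X ^ 3 + b * Y ^ 3) = 1 - lv b ∧ lw (X ^ 3 + b * Y ^ 3) = β - lw b by
    obtain ⟨X, Y, hX, hY, h0, h1, h2⟩ := h
    refine ⟨X, Y, hX, hY, h0, ?_, ?_⟩
    · rw [lv_mul hLCL hb h0, h1]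
      ring
    · rw [lw_mul hLCL hb h0, h2]
      ring
  obtain ⟨j, i, b', hi, hb', rfl⟩ := decomp b hb
  have h3j : (3 : ℤ) ^ j ≠ 0 := pow_ne_zero _ (by norm_num)
  have hb'0 := ne_of_not_dvd hb'
  have hi' : (3 : ℤ) ^ i * b' ≠ 0 := mul_ne_zero (pow_ne_zero _ (by norm_num)) hb'0
  rw [lv_cube hLCL h3j hi'] at hne ⊢
  rw [lw_cube hLCL h3j hi'] at hne ⊢
  have hu := cast_ne b' hb'
  interval_cases i
  · -- the exponent is divisible by three
    rw [pow_zero, one_mul] at hne ⊢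
    rw [lv_unit hLCL hb', lw_unit hLCL hb'] at hne
    rw [lv_unit hLCL hb', lw_unit hLCL hb', sub_zero]
    obtain ⟨k, hk⟩ := sq_form b' hb'
    rw [wt_eq _ _ hk] at hne ⊢
    have hk3 : (k : ZMod 3) ≠ 0 := fun h => hne ⟨rfl, h⟩
    have hkd : ¬ (3 : ℤ) ∣ k := fun h => hk3 ((ZMod.intCast_zmod_eq_zero_iff_dvd k 3).mpr h)
    have hm0 : ¬ (3 : ℤ) ∣ -(b' * k) := by
      rw [dvd_neg]
      intro h
      rcases (Int.prime_three.dvd_mul).mp h with h | h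
      · exact hb' h
      · exact hkd h
    obtain ⟨t, -, ht⟩ := exists_sol (2 * ((-(b' * k) : ℤ) : ZMod 3)) (β - k - wt ((-(b' * k)) ^ 2))
      (two_mul_ne _ (cast_ne _ hm0))
    have hX' : ¬ (3 : ℤ) ∣ (-b' + 3 * t) := by omega
    set s : ℤ := b' ^ 2 * t - 3 * b' * t ^ 2 + 3 * t ^ 3 with hs
    have hn : (3 ^ j * (-b' + 3 * t)) ^ 3 + (3 ^ j) ^ 3 * b' * 1 ^ 3 =
        (3 ^ j) ^ 3 * (3 * (-(b' * k) + 3 * s)) := by
      rw [hs]
      linear_combination (-(3 : ℤ) ^ (3 * j) * b') * hk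
    have hm : ¬ (3 : ℤ) ∣ (-(b' * k) + 3 * s) := by
      intro h
      exact hm0 (by
        have := Int.dvd_sub h (Dvd.intro s rfl : (3 : ℤ) ∣ 3 * s)
        rwa [add_sub_cancel_right] at this)
    have hm1 := ne_of_not_dvd hm
    have hm3 : (3 : ℤ) * (-(b' * k) + 3 * s) ≠ 0 := mul_ne_zero (by norm_num) hm1
    refine ⟨3 ^ j * (-b' + 3 * t), 1, mul_ne_zero h3j (ne_of_not_dvd hX'), one_ne_zero, ?_, ?_, ?_⟩
    · rw [hn]
      exact mul_ne_zero (pow_ne_zero 3 h3j) hm3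
    · rw [hn, lv_cube hLCL h3j hm3, lv_three hLCL hm1, lv_unit hLCL hm, add_zero]
    · rw [hn, lw_cube hLCL h3j hm3, lw_three hLCL hm1, lw_unit hLCL hm, wt_sq_add _ _ hm0]
      have hst : (s : ZMod 3) = t := by
        have h3 : (3 : ZMod 3) = 0 := by decide
        have hb2 : ((b' : ZMod 3)) ^ 2 = 1 := by
          have h := congrArg (Int.cast : ℤ → ZMod 3) hk
          push_cast at h
          rw [h, h3]
          ring
        rw [hs]
        push_cast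
        rw [hb2, h3]
        ring
      rw [hst, ht]
      ring
  · -- the exponent is one modulo three
    rw [pow_one, lv_three hLCL hb'0, lv_unit hLCL hb', add_zero, sub_self]
    obtain ⟨Y, hY, hY'⟩ := exists_sol (2 * (b' : ZMod 3)) (β - lw (3 * b')) (two_mul_ne _ hu)
    have hn : (3 ^ j) ^ 3 + (3 ^ j) ^ 3 * (3 * b') * Y ^ 3 =
        (3 ^ j) ^ 3 * (1 + 3 * (b' * Y ^ 3)) := by ring
    have hm : ¬ (3 : ℤ) ∣ 1 + 3 * (b' * Y ^ 3) := by omega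
    have hm1 := ne_of_not_dvd hm
    refine ⟨3 ^ j, Y, h3j, hY, ?_, ?_, ?_⟩
    · rw [hn]
      exact mul_ne_zero (pow_ne_zero 3 h3j) hm1
    · rw [hn, lv_cube hLCL h3j hm1, lv_unit hLCL hm]
    · rw [hn, lw_cube hLCL h3j hm1, lw_unit hLCL hm, wt_sq_add 1 _ (by norm_num)]
      have h1 : wt (1 ^ 2) = 0 := by
        rw [wt_eq (1 ^ 2) 0 (by norm_num)]
        simp
      rw [h1, ← hY']
      push_cast
      rw [cube_eq]
      ring
  · -- the exponent is two modulo three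
    have e9 : (3 : ℤ) ^ 2 * b' = 3 * (3 * b') := by ring
    have h3b : (3 : ℤ) * b' ≠ 0 := mul_ne_zero (by norm_num) hb'0
    rw [e9, lv_three hLCL h3b, lv_three hLCL hb'0, lv_unit hLCL hb', lw_three hLCL h3b,
      lw_three hLCL hb'0, lw_unit hLCL hb']
    obtain ⟨X, hX, hX'⟩ := exists_sol (2 * (b' : ZMod 3)) (β - wt (b' ^ 2) - wt (b' ^ 2))
      (two_mul_ne _ hu)
    have hn : (3 ^ j * (3 * X)) ^ 3 + (3 ^ j) ^ 3 * (3 * (3 * b')) * 1 ^ 3 =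
        (3 ^ j) ^ 3 * (3 * (3 * (b' + 3 * X ^ 3))) := by ring
    have hm : ¬ (3 : ℤ) ∣ b' + 3 * X ^ 3 := by omega
    have hm1 := ne_of_not_dvd hm
    have hm3 : (3 : ℤ) * (b' + 3 * X ^ 3) ≠ 0 := mul_ne_zero (by norm_num) hm1
    have hm9 : (3 : ℤ) * (3 * (b' + 3 * X ^ 3)) ≠ 0 := mul_ne_zero (by norm_num) hm3
    refine ⟨3 ^ j * (3 * X), 1, mul_ne_zero h3j (mul_ne_zero (by norm_num) hX), one_ne_zero,
      ?_, ?_, ?_⟩
    · rw [hn]
      exact mul_ne_zero (pow_ne_zero 3 h3j) hm9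
    · rw [hn, lv_cube hLCL h3j hm9, lv_three hLCL hm3, lv_three hLCL hm1, lv_unit hLCL hm]
      decide
    · rw [hn, lw_cube hLCL h3j hm9, lw_three hLCL hm3, lw_three hLCL hm1, lw_unit hLCL hm,
        wt_sq_add _ _ hb']
      push_cast
      rw [cube_eq, hX']
      ring

end Pool.Agent.PT3

end
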