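import Mathlib
import Pool.Agent.PTWX.C16

/-! Parts: PT.GC, PT.GFR, PTE.GCG, PT3.GFRG, PT3.FCLT, PT.IF1 -/

namespace Pool.Agent.PT.GFR
end Pool.Agent.PT.GFR

namespace Pool.Agent.PT.IF1
end Pool.Agent.PT.IF1

section

/-!
# Prime twists of rank zero: the commutators in the governing field
-/

open NumberField IsDedekindDomain Finset
open scoped nonZeroDivisors Pointwise

namespace Pool.Agent.PT

open Pool.Agent.Lib_helper18 Pool.Agent.Lib_helper18.Eis Pool.Agent.Lib_helper84.Cub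

namespace GC

section alg

variable {L : Type} [Field L]

theorem cube_eq {ω : L} (h : ω ^ 2 + ω + 1 = 0) {x y : L} (hxy : x ^ 3 = y ^ 3) :
    ∃ k : ℕ, x = ω ^ k * y := by
  have h1 : (x - y) * ((x - ω * y) * (x - ω ^ 2 * y)) = 0 := by
    linear_combination hxy + (-x ^ 2 * y + ω * x * y ^ 2 - (ω - 1) * y ^ 3) * h
  rcases mul_eq_zero.1 h1 with h2 | h2
  · exact ⟨0, by rw [pow_zero, one_mul]; exact sub_eq_zero.1 h2⟩
  · rcases mul_eq_zero.1 h2 with h3 | h3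
    · exact ⟨1, by rw [pow_one]; exact sub_eq_zero.1 h3⟩
    · exact ⟨2, sub_eq_zero.1 h3⟩

theorem om3 {ω : L} (h : ω ^ 2 + ω + 1 = 0) : ω ^ 3 = 1 := by
  linear_combination (ω - 1) * h

theorem om0 {ω : L} (h : ω ^ 2 + ω + 1 = 0) : ω ≠ 0 := by
  rintro rfl
  norm_num at h

/-- the norm form -/
theorem nrm {ω ρ : L} (h : ω ^ 2 + ω + 1 = 0) {b p q : ℤ} (hρ : ρ ^ 3 = (b : L)) :
    ((p : L) + q * ρ) * ((p + q * ω * ρ) * (p + q * ω ^ 2 * ρ)) = ((p ^ 3 + b * q ^ 3 : ℤ) : L) := by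
  push_cast
  rw [← hρ]
  linear_combination ((p : L) ^ 2 * q * ρ + p * q ^ 2 * ρ ^ 2 * ω + q ^ 3 * ρ ^ 3 * (ω - 1)) * h

end alg

section aut

variable {L : Type} [Field L] [NumberField L]

theorem ne3 {ω ρ : L} (h : ω ^ 2 + ω + 1 = 0) {b p q : ℤ} (hρ : ρ ^ 3 = (b : L))
    (hn : p ^ 3 + b * q ^ 3 ≠ 0) :
    ((p : L) + q * ρ) ≠ 0 ∧ ((p : L) + q * ω * ρ) ≠ 0 ∧ ((p : L) + q * ω ^ 2 * ρ) ≠ 0 := by
  have h1 : ((p : L) + q * ρ) * ((p + q * ω * ρ) * (p + q * ω ^ 2 * ρ)) ≠ 0 := by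
    rw [nrm h hρ]
    exact_mod_cast hn
  exact ⟨left_ne_zero_of_mul h1, left_ne_zero_of_mul (right_ne_zero_of_mul h1),
    right_ne_zero_of_mul (right_ne_zero_of_mul h1)⟩

theorem n1' {b x p q p' q' : ℤ} (hs : SolW b x p q p' q') : p' ^ 3 + b * q' ^ 3 ≠ 0 := by
  intro h
  have := hs.eq
  rw [h, mul_zero] at this
  exact hs.n1 this

/-- an automorphism fixing `ω` and `ρ` acts by a root of unity on `A` -/
theorem fixA {ω ρ A : L} {p q p' q' b x : ℤ} (h : L ≃ₐ[ℚ] L)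
    (hω : ω ^ 2 + ω + 1 = 0) (hρ : ρ ^ 3 = (b : L)) (hs : SolW b x p q p' q')
    (hhω : h ω = ω) (hhρ : h ρ = ρ)
    (hA : A ^ 3 * aD ω p q p' q' ρ = aN ω p q p' q' ρ) : ∃ e : ℕ, h A = ω ^ e * A := by
  have hD : aD ω p q p' q' ρ ≠ 0 := by
    unfold aD
    exact mul_ne_zero (ne3 hω hρ hs.n1).2.1 (ne3 hω hρ (n1' hs)).2.2
  have h1 : h (aD ω p q p' q' ρ) = aD ω p q p' q' ρ := by
    unfold aD
    simp [hhω, hhρ]
  have h2 : h (aN ω p q p' q' ρ) = aN ω p q p' q' ρ := by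
    unfold aN
    simp [hhω, hhρ]
  have h3 := congrArg h hA
  rw [map_mul, map_pow, h1, h2, ← hA] at h3
  exact cube_eq hω (mul_right_cancel₀ hD h3)

/-- an automorphism fixing `ω` and mapping `ρ` to `ωρ` -/
theorem movA {ω ρ t A : L} {p q p' q' b x : ℤ} (g : L ≃ₐ[ℚ] L)
    (hω : ω ^ 2 + ω + 1 = 0) (hρ : ρ ^ 3 = (b : L)) (ht : t ^ 3 = (x : L))
    (hs : SolW b x p q p' q') (hgω : g ω = ω) (hgρ : g ρ = ω * ρ)
    (hA : A ^ 3 * aD ω p q p' q' ρ = aN ω p q p' q' ρ) :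
    ∃ e : ℕ, g A * (p + q * ω ^ 2 * ρ) = ω ^ e * (A * t * (p' + q' * ω ^ 2 * ρ)) := by
  have h3 := congrArg g hA
  have hN := nrm hω hρ (p := p) (q := q)
  have hN' := nrm hω hρ (p := p') (q := q')
  have hnz := mul_ne_zero (ne3 hω hρ (n1' hs)).1 (ne3 hω hρ hs.n1).2.1
  unfold aD aN at h3 hA
  simp only [map_mul, map_pow, map_add, map_intCast, hgω, hgρ] at h3
  have hc := om3 hω
  have h4 : g A ^ 3 * ((p + q * ω ^ 2 * ρ) * (p' + q' * ρ)) =
      (p + q * ρ) * (p' + q' * ω ^ 2 * ρ) := by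
    have e1 : (p : L) + q * ω * (ω * ρ) = p + q * ω ^ 2 * ρ := by ring
    have e2 : (p' : L) + q' * ω ^ 2 * (ω * ρ) = p' + q' * ρ := by
      linear_combination ((q' : L) * ρ) * hc
    have e3 : (p : L) + q * ω ^ 2 * (ω * ρ) = p + q * ρ := by
      linear_combination ((q : L) * ρ) * hc
    have e4 : (p' : L) + q' * ω * (ω * ρ) = p' + q' * ω ^ 2 * ρ := by ring
    rw [e1, e2, e3, e4] at h3
    exact h3
  have heq : ((p ^ 3 + b * q ^ 3 : ℤ) : L) = (x : L) * ((p' ^ 3 + b * q' ^ 3 : ℤ) : L) := by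
    rw [hs.eq]
    push_cast
    ring
  rw [← hN, ← hN'] at heq
  apply cube_eq hω
  apply mul_right_cancel₀ hnz
  rw [mul_pow, mul_pow, mul_pow, ht]
  calc g A ^ 3 * ((p : L) + q * ω ^ 2 * ρ) ^ 3 * ((p' + q' * ρ) * (p + q * ω * ρ))
      = (g A ^ 3 * ((p + q * ω ^ 2 * ρ) * (p' + q' * ρ))) *
          ((p + q * ω ^ 2 * ρ) ^ 2 * (p + q * ω * ρ)) := by ring
    _ = ((p : L) + q * ρ) * ((p + q * ω * ρ) * (p + q * ω ^ 2 * ρ)) *
          ((p' + q' * ω ^ 2 * ρ) * (p + q * ω ^ 2 * ρ)) := by rw [h4]; ring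
    _ = (A ^ 3 * ((p + q * ω * ρ) * (p' + q' * ω ^ 2 * ρ))) *
          (x * ((p' + q' * ω ^ 2 * ρ) ^ 2 * (p' + q' * ρ))) := by rw [heq, hA]; ring
    _ = A ^ 3 * (x : L) * ((p' : L) + q' * ω ^ 2 * ρ) ^ 3 * ((p' + q' * ρ) * (p + q * ω * ρ)) := by
        ring

theorem mv {ω ρ t A : L} {p q p' q' b x : ℤ} (g h : L ≃ₐ[ℚ] L) (c : ℕ)
    (hω : ω ^ 2 + ω + 1 = 0) (hρ : ρ ^ 3 = (b : L)) (ht : t ^ 3 = (x : L))
    (hs : SolW b x p q p' q') (hgω : g ω = ω) (hhω : h ω = ω) (hgρ : g ρ = ω * ρ)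
    (hhρ : h ρ = ρ) (hht : h t = ω ^ c * t)
    (hA : A ^ 3 * aD ω p q p' q' ρ = aN ω p q p' q' ρ) : h (g A) = ω ^ c * g (h A) := by
  obtain ⟨e, he⟩ := movA g hω hρ ht hs hgω hgρ hA
  obtain ⟨e', he'⟩ := fixA h hω hρ hs hhω hhρ hA
  have hnz := (ne3 hω hρ hs.n1).2.2
  apply mul_right_cancel₀ hnz
  have h1 := congrArg h he
  simp only [map_mul, map_pow, map_add, map_intCast, hhω, hhρ, hht, he'] at h1
  rw [h1, he']
  simp only [map_mul, map_pow, hgω]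
  linear_combination (- ω ^ c * ω ^ e') * he

theorem fx {ω ρ A : L} {p q p' q' b x : ℤ} (g h : L ≃ₐ[ℚ] L)
    (hω : ω ^ 2 + ω + 1 = 0) (hρ : ρ ^ 3 = (b : L))
    (hs : SolW b x p q p' q') (hgω : g ω = ω) (hhω : h ω = ω) (hgρ : g ρ = ρ)
    (hhρ : h ρ = ρ)
    (hA : A ^ 3 * aD ω p q p' q' ρ = aN ω p q p' q' ρ) : h (g A) = g (h A) := by
  obtain ⟨e, he⟩ := fixA g hω hρ hs hgω hgρ hA
  obtain ⟨e', he'⟩ := fixA h hω hρ hs hhω hhρ hA
  rw [he, he']
  simp only [map_mul, map_pow, hgω, hhω, he, he']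
  ring

end aut

/-- the relation between the automorphism and the vector -/
def R {s : ℕ} (b : Fin s → ℤ) (p q p' q' : Fin s → Fin s → ℤ) {L : Type} [Field L]
    [NumberField L] (ζ ω : L) (v : Fin s → Fin s → ZMod 3) (z : L ≃ₐ[ℚ] L) : Prop :=
  z ζ = ζ ∧
    (∀ (j : Fin s) (ρ : L), ρ ^ 3 = (b j : L) → z ρ = ρ) ∧
    ∀ j i, j < i → ∀ ρ A : L, ρ ^ 3 = (b j : L) →
      A ^ 3 * aD ω (p j i) (q j i) (p' j i) (q' j i) ρ =
        aN ω (p j i) (q j i) (p' j i) (q' j i) ρ →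
      z A = ω ^ (v j i).val * A

section rel

variable {s : ℕ} {b : Fin s → ℤ} {p q p' q' : Fin s → Fin s → ℤ} {L : Type} [Field L]
    [NumberField L] {ζ ω : L}

theorem pow_val_add {ω : L} (h : ω ^ 3 = 1) (a c : ZMod 3) :
    ω ^ (a + c).val = ω ^ a.val * ω ^ c.val := by
  rw [← pow_add, ZMod.val_add, ← pow_eq_pow_mod _ h]

theorem R_zero {v : Fin s → Fin s → ZMod 3} (hv : ∀ j i, j < i → v j i = 0) :
    R b p q p' q' ζ ω v (1 : L ≃ₐ[ℚ] L) := by
  refine ⟨rfl, fun _ _ _ => rfl, fun j i hji ρ A _ _ => ?_⟩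
  rw [hv j i hji, ZMod.val_zero, pow_zero, one_mul]
  rfl

theorem R_add (hω : ω ^ 2 + ω + 1 = 0) (hζ : ∀ z : L ≃ₐ[ℚ] L, z ζ = ζ → z ω = ω)
    {v v' : Fin s → Fin s → ZMod 3} {z z' : L ≃ₐ[ℚ] L}
    (h : R b p q p' q' ζ ω v z) (h' : R b p q p' q' ζ ω v' z') :
    R b p q p' q' ζ ω (v + v') (z * z') := by
  refine ⟨?_, fun j ρ hρ => ?_, fun j i hji ρ A hρ hA => ?_⟩
  · rw [AlgEquiv.mul_apply, h'.1, h.1]
  · rw [AlgEquiv.mul_apply, h'.2.1 j ρ hρ, h.2.1 j ρ hρ]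
  · rw [AlgEquiv.mul_apply, h'.2.2 j i hji ρ A hρ hA, map_mul, map_pow, hζ z h.1,
      h.2.2 j i hji ρ A hρ hA, Pi.add_apply, Pi.add_apply, pow_val_add (om3 hω)]
    ring

/-- the existence for elementary vectors gives the existence for all vectors -/
theorem all (hω : ω ^ 2 + ω + 1 = 0) (hζ : ∀ z : L ≃ₐ[ℚ] L, z ζ = ζ → z ω = ω)
    (hel : ∀ j₀ i₀ : Fin s, j₀ < i₀ → ∃ z : L ≃ₐ[ℚ] L,
      R b p q p' q' ζ ω (fun j i => if (j, i) = (j₀, i₀) then 1 else 0) z)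
    (v : Fin s → Fin s → ZMod 3) : ∃ z : L ≃ₐ[ℚ] L, R b p q p' q' ζ ω v z := by
  let S : AddSubmonoid (Fin s → Fin s → ZMod 3) :=
    { carrier := {v | ∃ z : L ≃ₐ[ℚ] L, R b p q p' q' ζ ω v z}
      zero_mem' := ⟨1, R_zero (fun _ _ _ => rfl)⟩
      add_mem' := by
        rintro v v' ⟨z, hz⟩ ⟨z', hz'⟩
        exact ⟨z * z', R_add hω hζ hz hz'⟩ }
  have h1 : ∀ x : Fin s × Fin s,
      (fun j i => if (j, i) = x then v x.1 x.2 else 0 : Fin s → Fin s → ZMod 3) ∈ S := by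
    rintro ⟨j₀, i₀⟩
    by_cases hji : j₀ < i₀
    · have h2 : (fun j i => if (j, i) = (j₀, i₀) then v j₀ i₀ else 0 : Fin s → Fin s → ZMod 3) =
          (v j₀ i₀).val • (fun j i => if (j, i) = (j₀, i₀) then 1 else 0 :
            Fin s → Fin s → ZMod 3) := by
        funext j i
        rw [Pi.smul_apply, Pi.smul_apply]
        split_ifs with h
        · rw [nsmul_one, ZMod.natCast_val, ZMod.cast_id', id]
        · rw [smul_zero]
      change (fun j i => if (j, i) = (j₀, i₀) then v j₀ i₀ else 0 : Fin s → Fin s → ZMod 3) ∈ S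
      rw [h2]
      exact S.nsmul_mem (hel j₀ i₀ hji) _
    · refine ⟨1, R_zero (fun j i hji' => ?_)⟩
      rw [if_neg]
      intro h
      rw [Prod.mk.injEq] at h
      rw [h.1, h.2] at hji'
      exact hji hji'
  have h3 : v = ∑ x : Fin s × Fin s,
      (fun j i => if (j, i) = x then v x.1 x.2 else 0 : Fin s → Fin s → ZMod 3) := by
    funext j i
    rw [Finset.sum_apply, Finset.sum_apply, Finset.sum_ite_eq, if_pos (Finset.mem_univ _)]
  have h4 : v ∈ S := by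
    rw [h3]
    exact S.sum_mem (fun x _ => h1 x)
  exact h4

/-- from `h g A = ω^c g h A` to the commutator -/
theorem comm_apply (g h : L ≃ₐ[ℚ] L) (c : ℕ) (hgω : g ω = ω) (hhω : h ω = ω) (A : L)
    (hA : h (g A) = ω ^ c * g (h A)) : ((g * h)⁻¹ * (h * g)) A = ω ^ c * A := by
  rw [AlgEquiv.mul_apply, AlgEquiv.mul_apply, hA]
  have h1 : ω ^ c * g (h A) = (g * h) (ω ^ c * A) := by
    rw [AlgEquiv.mul_apply, map_mul, map_mul, map_pow, map_pow, hhω, hgω]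
  rw [h1, ← AlgEquiv.mul_apply, inv_mul_cancel]
  rfl

end rel

end GC

theorem GC_thm (hKUM : KUM) (hGKI : GKI) : GC := by
  intro s b p q p' q' f L _ _ ζ ω hS hG
  have hω := hG.rel
  haveI := hG.gal
  have hf : 0 < f := by
    rcases Nat.eq_zero_or_pos f with h | h
    · exfalso
      have h1 := hG.hω
      rw [h, Nat.zero_div, pow_zero] at h1
      rw [h1] at hω
      norm_num at hω
    · exact h
  have hζf : ζ ^ f = 1 := hG.prim.pow_eq_one
  have hζ : ∀ z : L ≃ₐ[ℚ] L, z ζ = ζ → z ω = ω := by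
    intro z hz
    rw [hG.hω, map_pow, hz]
  have hb : ∀ i, b i ≠ 0 := by
    intro i hi
    refine hS.ind (fun l => if l = i then 1 else 0) ⟨i, by simp⟩ ⟨0, ?_⟩
    symm
    rw [zero_pow (by norm_num)]
    exact Finset.prod_eq_zero (Finset.mem_univ i) (by simp [hi])
  choose θ hθ using hG.root
  -- Kummer theory
  have hgi : ∀ v : Fin s → ZMod 3, ∃ g : L ≃ₐ[ℚ] L, g ζ = ζ ∧
      ∀ l, g (θ l) = ω ^ (v l).val * θ l := by
    intro v
    let F := IntermediateField.adjoin ℚ {ζ}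
    have hζF : ζ ∈ F := IntermediateField.mem_adjoin_simple_self ℚ ζ
    let ζF : F := ⟨ζ, hζF⟩
    obtain ⟨g, hg⟩ := hKUM F L (ζF ^ (f / 3)) (Fin s) (fun i => ((b i : ℤ) : F)) θ
      (by
        apply Subtype.ext
        push_cast
        rw [← hG.hω]
        exact hω)
      (fun i => by exact_mod_cast hb i)
      (fun i => by rw [hθ i, map_intCast])
      (by
        rintro n ⟨β, hβ⟩
        by_contra hcon
        push Not at hcon
        have h1 : ((β : L)) ^ 3 = ((∏ i, b i ^ n i : ℤ) : L) := by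
          have h2 := congrArg (algebraMap F L) hβ
          rw [map_pow, map_prod] at h2
          push_cast
          rw [show ((β : L)) ^ 3 = (algebraMap F L β) ^ 3 from rfl, ← h2]
          refine Finset.prod_congr rfl (fun i _ => ?_)
          rw [map_pow, map_intCast]
        obtain ⟨t, ht⟩ := hGKI L f ζ (β : L) (∏ i, b i ^ n i) hf hζf β.2 h1
        exact hS.ind n hcon ⟨t, ht⟩)
      v
    refine ⟨g.restrictScalars ℚ, ?_, fun l => ?_⟩
    · exact g.commutes ζF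
    · have h3 := hg l
      rw [AlgEquiv.restrictScalars_apply, h3, map_pow]
      rw [show algebraMap F L ζF = ζ from rfl, ← hG.hω]
  have hg1 : ∀ i, ∃ g : L ≃ₐ[ℚ] L, g ζ = ζ ∧ g (θ i) = ω * θ i ∧ ∀ l, l ≠ i → g (θ l) = θ l := by
    intro i
    obtain ⟨g, hg, hg'⟩ := hgi (fun l => if l = i then 1 else 0)
    refine ⟨g, hg, ?_, fun l hl => ?_⟩
    · rw [hg' i, if_pos rfl]
      rw [show (1 : ZMod 3).val = 1 from rfl, pow_one]
    · rw [hg' l, if_neg hl, ZMod.val_zero, pow_zero, one_mul]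
  choose g hgζ hgθ hgθ' using hg1
  have hgω : ∀ i, g i ω = ω := fun i => hζ _ (hgζ i)
  have hroot : ∀ (j : Fin s) (ρ : L), ρ ^ 3 = (b j : L) → ∃ k : ℕ, ρ = ω ^ k * θ j := by
    intro j ρ hρ
    exact GC.cube_eq hω (by rw [hρ, hθ j])
  have hgρ : ∀ (j : Fin s) (ρ : L), ρ ^ 3 = (b j : L) → g j ρ = ω * ρ := by
    intro j ρ hρ
    obtain ⟨k, hk⟩ := hroot j ρ hρ
    rw [hk, map_mul, map_pow, hgω, hgθ]
    ring
  have hgρ' : ∀ (i j : Fin s) (ρ : L), ρ ^ 3 = (b j : L) → j ≠ i → g i ρ = ρ := by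
    intro i j ρ hρ hji
    obtain ⟨k, hk⟩ := hroot j ρ hρ
    rw [hk, map_mul, map_pow, hgω, hgθ' i j hji]
  apply GC.all hω hζ
  intro j i hji
  refine ⟨(g j * g i)⁻¹ * (g i * g j), ?_, fun l ρ hρ => ?_, fun l k hlk ρ A hρ hA => ?_⟩
  · have h1 : g i (g j ζ) = ω ^ 0 * g j (g i ζ) := by
      rw [hgζ j, hgζ i, hgζ j, pow_zero, one_mul]
    rw [GC.comm_apply (g j) (g i) 0 (hgω j) (hgω i) ζ h1, pow_zero, one_mul]
  · have h1 : g i (g j ρ) = ω ^ 0 * g j (g i ρ) := by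
      rw [pow_zero, one_mul]
      by_cases h2 : l = i
      · subst h2
        rw [hgρ l ρ hρ, hgρ' j l ρ hρ (ne_of_gt hji), hgρ l ρ hρ, map_mul, hgω j,
          hgρ' j l ρ hρ (ne_of_gt hji)]
      · by_cases h3 : l = j
        · subst h3
          rw [hgρ l ρ hρ, hgρ' i l ρ hρ h2, hgρ l ρ hρ, map_mul, hgω i, hgρ' i l ρ hρ h2]
        · rw [hgρ' i l ρ hρ h2, hgρ' j l ρ hρ h3, hgρ' i l ρ hρ h2]
    rw [GC.comm_apply (g j) (g i) 0 (hgω j) (hgω i) ρ h1, pow_zero, one_mul]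
  · have hsol := (hS.sol l k hlk.ne).toSolW
    by_cases h2 : (l, k) = (j, i)
    · rw [Prod.mk.injEq] at h2
      obtain ⟨rfl, rfl⟩ := h2
      simp only [if_true]
      have h1 : g k (g l A) = ω ^ 1 * g l (g k A) :=
        GC.mv (g l) (g k) 1 hω hρ (hθ k) hsol (hgω l) (hgω k) (hgρ l ρ hρ)
          (hgρ' k l ρ hρ hlk.ne) (by rw [pow_one]; exact hgθ k) hA
      exact GC.comm_apply (g l) (g k) 1 (hgω l) (hgω k) A h1
    · simp only [if_neg h2]
      have h1 : g i (g j A) = ω ^ 0 * g j (g i A) := by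
        by_cases h3 : l = j
        · subst h3
          have h4 : k ≠ i := fun h => h2 (by rw [h])
          exact GC.mv (g l) (g i) 0 hω hρ (hθ k) hsol (hgω l) (hgω i) (hgρ l ρ hρ)
            (hgρ' i l ρ hρ hji.ne) (by rw [pow_zero, one_mul]; exact hgθ' i k h4) hA
        · by_cases h4 : l = i
          · subst h4
            have h5 : k ≠ j := (hji.trans hlk).ne'
            have h6 := GC.mv (g l) (g j) 0 hω hρ (hθ k) hsol (hgω l) (hgω j) (hgρ l ρ hρ)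
              (hgρ' j l ρ hρ hji.ne') (by rw [pow_zero, one_mul]; exact hgθ' j k h5) hA
            rw [pow_zero, one_mul] at h6 ⊢
            exact h6.symm
          · rw [pow_zero, one_mul]
            exact GC.fx (g j) (g i) hω hρ hsol (hgω j) (hgω i) (hgρ' j l ρ hρ h3)
              (hgρ' i l ρ hρ h4) hA
      have h5 := GC.comm_apply (g j) (g i) 0 (hgω j) (hgω i) A h1
      rw [ZMod.val_zero]
      exact h5

end Pool.Agent.PT

end

section

/-!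
# Frobenius elements and the classes `t`
-/

open NumberField IsDedekindDomain Finset
open scoped nonZeroDivisors Pointwise

namespace Pool.Agent.PT

open Pool.Agent.Lib_helper18 Pool.Agent.Lib_helper18.Eis Pool.Agent.Lib_helper84.Cub

namespace GFR

/-- If the decomposition group is cyclic, every Frobenius coset contains a generator. -/
theorem exists_frob_gen {R S G : Type*} [CommRing R] [CommRing S] [Algebra R S] [Group G]
    [Finite G] [MulSemiringAction G S] [SMulCommClass G R S] [Algebra.IsInvariant R S G]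
    (P : Ideal S) [P.IsPrime] [Finite (S ⧸ P)] (g : G)
    (hg : MulAction.stabilizer G P = Subgroup.zpowers g) :
    ∃ k : ℕ, k.Coprime (orderOf g) ∧ IsArithFrobAt R (g ^ k) P := by
  classical
  have hint := Algebra.IsInvariant.isIntegral R S G
  have hmax : P.IsMaximal := Ideal.Quotient.maximal_of_isField _ (Finite.isField_of_domain (S ⧸ P))
  have hpmax : (P.under R).IsMaximal := inferInstance
  let _ : Field (S ⧸ P) := Ideal.Quotient.field P
  let _ : Field (R ⧸ P.under R) := Ideal.Quotient.field (P.under R)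
  have hfin : Finite (R ⧸ P.under R) := .of_injective _ Ideal.algebraMap_quotient_injective
  cases nonempty_fintype (R ⧸ P.under R)
  let F : (S ⧸ P) ≃ₐ[R ⧸ P.under R] (S ⧸ P) :=
    FiniteField.frobeniusAlgEquivOfAlgebraic (R ⧸ P.under R) (S ⧸ P)
  let h := Ideal.Quotient.stabilizerHom P (P.under R) G
  let g' : MulAction.stabilizer G P := ⟨g, hg ▸ Subgroup.mem_zpowers g⟩
  have hgen : ∀ y : MulAction.stabilizer G P, ∃ i : ℕ, g' ^ i = y := by
    intro y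
    have h1 : (y : G) ∈ Subgroup.zpowers g := hg ▸ y.2
    obtain ⟨i, hi⟩ := mem_powers_iff_mem_zpowers.2 h1
    exact ⟨i, Subtype.ext hi⟩
  obtain ⟨y, hy⟩ := Ideal.Quotient.stabilizerHom_surjective G (P.under R) P F
  obtain ⟨j, rfl⟩ := hgen y
  obtain ⟨⟨i, hi⟩, hF⟩ :=
    (FiniteField.bijective_frobeniusAlgEquivOfAlgebraic_pow (R ⧸ P.under R) (S ⧸ P)).2 (h g')
  have hF' : F ^ i = h g' := hF
  have hy' : h g' ^ j = F := by
    rw [← map_pow]
    exact hy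
  have h1 : h g' ^ (j * i) = h g' ^ 1 := by
    rw [pow_mul, hy', hF', pow_one]
  rw [pow_eq_pow_iff_modEq] at h1
  -- the order of the image of `g`
  have hpos : 0 < orderOf g := orderOf_pos g
  have hdvd : orderOf (h g') ∣ orderOf g := by
    have h2 : orderOf g = orderOf g' := (Subgroup.orderOf_coe g').symm ▸ rfl
    rw [h2]
    exact orderOf_map_dvd h g'
  have hcop : j.Coprime (orderOf (h g')) := by
    have h2 : (j * i).Coprime (orderOf (h g')) := by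
      rw [Nat.Coprime, h1.gcd_eq]
      exact Nat.gcd_one_left _
    exact Nat.Coprime.coprime_mul_right h2
  have hne : NeZero (orderOf g) := ⟨hpos.ne'⟩
  have hne' : NeZero (orderOf (h g')) := ⟨(Nat.pos_of_dvd_of_pos hdvd hpos).ne'⟩
  obtain ⟨v, hv⟩ := ZMod.unitsMap_surjective hdvd (ZMod.unitOfCoprime j hcop)
  refine ⟨(v : ZMod (orderOf g)).val, ZMod.val_coe_unit_coprime v, ?_⟩
  have h3 : (v : ZMod (orderOf g)).val ≡ j [MOD orderOf (h g')] := by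
    rw [← ZMod.natCast_eq_natCast_iff]
    have h4 := congrArg (Units.val) hv
    rw [ZMod.unitsMap_val, ZMod.coe_unitOfCoprime] at h4
    rw [← h4, ZMod.natCast_val]
  have h5 : h (g' ^ (v : ZMod (orderOf g)).val) = F := by
    rw [map_pow, ← hy', pow_eq_pow_iff_modEq]
    exact h3
  intro x
  rw [← Ideal.Quotient.eq]
  have h6 := DFunLike.congr_fun h5 (Ideal.Quotient.mk P x)
  have h7 : F (Ideal.Quotient.mk P x) = Ideal.Quotient.mk P x ^ Fintype.card (R ⧸ P.under R) := rfl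
  rw [h7, ← map_pow, ← Nat.card_eq_fintype_card] at h6
  exact h6

/-- The homomorphism from the Eisenstein integers which maps `w` to `z`. -/
def lift {S : Type*} [CommRing S] (z : S) (hz : z ^ 2 + z + 1 = 0) : Eis →+* S where
  toFun x := (x.re : S) + (x.im : S) * z
  map_one' := by simp
  map_mul' x y := by
    simp only [mul_re, mul_im]
    push_cast
    linear_combination (-(x.im : S) * (y.im : S)) * hz
  map_zero' := by simp
  map_add' x y := by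
    simp only [add_re, add_im]
    push_cast
    ring

theorem lift_w {S : Type*} [CommRing S] (z : S) (hz : z ^ 2 + z + 1 = 0) : lift z hz w = z := by
  change ((w.re : ℤ) : S) + ((w.im : ℤ) : S) * z = z
  simp

theorem lift_int {S : Type*} [CommRing S] (z : S) (hz : z ^ 2 + z + 1 = 0) (n : ℤ) :
    lift z hz (n : Eis) = n := map_intCast _ n

theorem lf_prod (p q r : ℤ) : Lf p q 0 r * Lf p q 1 r * Lf p q 2 r =
    ((p ^ 3 + q ^ 3 * r ^ 3 : ℤ) : Eis) := by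
  have h1 := w_rel
  have h2 := w_cube
  simp only [Lf]
  push_cast
  linear_combination ((p : Eis) ^ 2 * q * r + (p : Eis) * q ^ 2 * r ^ 2) * h1 +
    ((p : Eis) * q ^ 2 * r ^ 2 + (q : Eis) ^ 3 * r ^ 3) * h2

/-- the linear forms are prime to `Q` -/
theorem lf_not_dvd {Q : ℕ} {b p q r : ℤ} (hb : ¬ (Q : ℤ) ∣ p ^ 3 + b * q ^ 3)
    (hr : (Q : ℤ) ∣ r ^ 3 - b) : ¬ (Q : Eis) ∣ Lf p q 1 r ∧ ¬ (Q : Eis) ∣ Lf p q 2 r := by
  have key : ¬ (Q : Eis) ∣ Lf p q 0 r * Lf p q 1 r * Lf p q 2 r := by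
    rw [lf_prod]
    intro h
    have h1 : ((Q : ℤ) : Eis) ∣ ((p ^ 3 + q ^ 3 * r ^ 3 : ℤ) : Eis) := by
      rw [Int.cast_natCast]
      exact h
    rw [intCast_dvd_intCast] at h1
    refine hb ?_
    have h2 : p ^ 3 + b * q ^ 3 = p ^ 3 + q ^ 3 * r ^ 3 - (r ^ 3 - b) * q ^ 3 := by ring
    rw [h2]
    exact dvd_sub h1 (Dvd.dvd.mul_right hr _)
  exact ⟨fun h => key (Dvd.dvd.mul_right (Dvd.dvd.mul_left h _) _), fun h => key (Dvd.dvd.mul_left h _)⟩

section Local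

variable {L : Type} [Field L] [NumberField L] {Q : ℕ} (hQ : Q.Prime) {P : Ideal (𝓞 L)}
  (hP : P.IsPrime) (hQP : (Q : 𝓞 L) ∈ P)

include hQ hP hQP

omit [NumberField L] in
theorem under_eq : P.under ℤ = Ideal.span {(Q : ℤ)} := by
  symm
  have hmax : (Ideal.span {(Q : ℤ)}).IsMaximal :=
    PrincipalIdealRing.isMaximal_of_irreducible ((Nat.prime_iff_prime_int.mp hQ).irreducible)
  apply hmax.eq_of_le
  · exact (Ideal.IsPrime.under ℤ P).ne_top
  · rw [Ideal.span_singleton_le_iff_mem]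
    change algebraMap ℤ (𝓞 L) (Q : ℤ) ∈ P
    simpa using hQP

omit [NumberField L] in
theorem card_under : Nat.card (ℤ ⧸ P.under ℤ) = Q := by
  rw [under_eq hQ hP hQP, Nat.card_congr (Int.quotientSpanNatEquivZMod Q).toEquiv, Nat.card_zmod]

omit [NumberField L] in
theorem int_mem (n : ℤ) : (n : 𝓞 L) ∈ P ↔ (Q : ℤ) ∣ n := by
  have h1 := under_eq hQ hP hQP
  have h2 : (n : 𝓞 L) ∈ P ↔ n ∈ P.under ℤ := by
    change _ ↔ algebraMap ℤ (𝓞 L) n ∈ P
    simp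
  rw [h2, h1, Ideal.mem_span_singleton]

omit [NumberField L] in
theorem int_mk (n : ℤ) : ((n : ℤ) : 𝓞 L ⧸ P) = 0 ↔ (Q : ℤ) ∣ n := by
  rw [← int_mem hQ hP hQP, ← Ideal.Quotient.eq_zero_iff_mem, map_intCast]

theorem frob_mk {φ : L ≃ₐ[ℚ] L} (hφ : IsArithFrobAt ℤ φ P) (x : 𝓞 L) :
    Ideal.Quotient.mk P (φ • x) = Ideal.Quotient.mk P x ^ Q := by
  rw [← map_pow, Ideal.Quotient.eq]
  have h1 := hφ x
  rw [card_under hQ hP hQP] at h1
  exact h1

theorem quo_finite : Finite (𝓞 L ⧸ P) := by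
  refine Ideal.finiteQuotientOfFreeOfNeBot P ?_
  rintro rfl
  rw [Ideal.mem_bot] at hQP
  exact hQ.ne_zero (by exact_mod_cast hQP)

end Local

theorem isIntegral_root {L : Type} [Field L] {ρ : L} {b : ℤ} (h : ρ ^ 3 = (b : L)) :
    IsIntegral ℤ ρ := by
  refine IsIntegral.of_pow (n := 3) (by norm_num) ?_
  rw [h]
  exact isIntegral_algebraMap (R := ℤ) (A := L) (x := b)

theorem omega_cube {S : Type*} [CommRing S] {ω : S} (h : ω ^ 2 + ω + 1 = 0) : ω ^ 3 = 1 := by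
  linear_combination (ω - 1) * h

theorem isIntegral_omega {L : Type} [Field L] {ω : L} (h : ω ^ 2 + ω + 1 = 0) :
    IsIntegral ℤ ω := by
  refine IsIntegral.of_pow (n := 3) (by norm_num) ?_
  rw [omega_cube h]
  exact isIntegral_one

theorem pow_mod3 {S : Type*} [CommRing S] {y : S} (h : y ^ 3 = 1) (k : ℕ) : y ^ k = y ^ (k % 3) :=
  pow_eq_pow_mod k h

/-- The value at `ω` of the Frobenius element. -/
theorem frob_omega {L : Type} [Field L] [NumberField L] {Q : ℕ} (hQ : Q.Prime)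
    {P : Ideal (𝓞 L)} (hP : P.IsPrime) (hQP : (Q : 𝓞 L) ∈ P) (hQ3 : Q % 3 = 2)
    {φ : L ≃ₐ[ℚ] L} (hφ : IsArithFrobAt ℤ φ P) {ω : L} (hω : ω ^ 2 + ω + 1 = 0) :
    φ ω = ω ^ 2 := by
  let z : 𝓞 L := ⟨ω, isIntegral_omega hω⟩
  have hz : z ^ 3 = 1 := by
    apply RingOfIntegers.coe_injective
    change ω ^ 3 = 1
    exact omega_cube hω
  have h3 : ((3 : ℕ) : 𝓞 L) ∉ P := by
    have h4 := int_mem hQ hP hQP 3
    intro h5
    have h6 : ((3 : ℤ) : 𝓞 L) ∈ P := by simpa using h5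
    rw [h4] at h6
    have h7 : Q ∣ 3 := by exact_mod_cast h6
    have h8 := (Nat.prime_dvd_prime_iff_eq hQ Nat.prime_three).1 h7
    omega
  have h1 := hφ.apply_of_pow_eq_one hz h3
  rw [card_under hQ hP hQP, pow_mod3 hz Q, hQ3] at h1
  have h2 := congrArg (fun x : 𝓞 L => (x : L)) h1
  exact h2

theorem core {L : Type} [Field L] [NumberField L] {Q : ℕ} (hQ : Q.Prime)
    {P : Ideal (𝓞 L)} (hP : P.IsPrime) (hQP : (Q : 𝓞 L) ∈ P) (hQ3 : Q % 3 = 2)
    {φ : L ≃ₐ[ℚ] L} (hφ : IsArithFrobAt ℤ φ P) {ω : L} (hω : ω ^ 2 + ω + 1 = 0)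
    {b p q p' q' r : ℤ} (hb : ¬ (Q : ℤ) ∣ b) (h1 : ¬ (Q : ℤ) ∣ p ^ 3 + b * q ^ 3)
    (h2 : ¬ (Q : ℤ) ∣ p' ^ 3 + b * q' ^ 3) (hr : (Q : ℤ) ∣ r ^ 3 - b) {ρ A : L}
    (hρ : ρ ^ 3 = (b : L)) (hφρ : φ ρ = ρ) (hA : A ^ 3 * aD ω p q p' q' ρ = aN ω p q p' q' ρ)
    {t : ZMod 3} (ht : φ A * A = ω ^ t.val) : t = TAUV Q p q p' q' r := by
  have hfin := quo_finite hQ hP hQP
  have hmax : P.IsMaximal :=
    Ideal.Quotient.maximal_of_isField _ (Finite.isField_of_domain (𝓞 L ⧸ P))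
  let _ : Field (𝓞 L ⧸ P) := Ideal.Quotient.field P
  have hφω := frob_omega hQ hP hQP hQ3 hφ hω
  have hω3 := omega_cube hω
  have hω0 : ω ≠ 0 := by
    rintro rfl
    norm_num at hω3
  -- the elements of the ring of integers
  let ωB : 𝓞 L := ⟨ω, isIntegral_omega hω⟩
  let ρB : 𝓞 L := ⟨ρ, isIntegral_root hρ⟩
  let dD : 𝓞 L := (p + q * ωB * ρB) * (p' + q' * ωB ^ 2 * ρB)
  let dN : 𝓞 L := (p + q * ωB ^ 2 * ρB) * (p' + q' * ωB * ρB)
  have hdD : algebraMap (𝓞 L) L dD = aD ω p q p' q' ρ := by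
    simp only [dD, aD, map_mul, map_add, map_pow, map_intCast]
    rfl
  have hdN : algebraMap (𝓞 L) L dN = aN ω p q p' q' ρ := by
    simp only [dN, aN, map_mul, map_add, map_pow, map_intCast]
    rfl
  have hA' : (A * aD ω p q p' q' ρ) ^ 3 = algebraMap (𝓞 L) L (dN * dD ^ 2) := by
    rw [map_mul, map_pow, hdD, hdN, ← hA]
    ring
  have hAint : IsIntegral ℤ (A * aD ω p q p' q' ρ) := by
    refine IsIntegral.of_pow (n := 3) (by norm_num) ?_
    rw [hA']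
    exact RingOfIntegers.isIntegral_coe _
  let AB : 𝓞 L := ⟨A * aD ω p q p' q' ρ, hAint⟩
  have hAB : AB ^ 3 = dN * dD ^ 2 := by
    apply RingOfIntegers.coe_injective
    rw [← hA']
    rfl
  -- the action of the square of the Frobenius
  have hφD : φ (aD ω p q p' q' ρ) = aN ω p q p' q' ρ := by
    simp only [aD, aN, map_mul, map_add, map_pow, map_intCast, hφω, hφρ]
    have h3 : (ω ^ 2) ^ 2 = ω := by linear_combination ω * hω3
    rw [h3]
  have hφN : φ (aN ω p q p' q' ρ) = aD ω p q p' q' ρ := by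
    simp only [aD, aN, map_mul, map_add, map_pow, map_intCast, hφω, hφρ]
    have h3 : (ω ^ 2) ^ 2 = ω := by linear_combination ω * hω3
    rw [h3]
  have hφφA : φ (φ A) = ω ^ t.val * A := by
    have h3 : φ (φ A) * φ A = (ω ^ 2) ^ t.val := by
      rw [← map_mul, ht, map_pow, hφω]
    have h4 : φ (φ A) * ω ^ t.val = (ω ^ 2) ^ t.val * A := by
      rw [← h3, ← ht]
      ring
    have h5 : (ω ^ 2) ^ t.val = ω ^ t.val * ω ^ t.val := by
      rw [← pow_mul, ← pow_add]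
      congr 1
      ring
    rw [h5] at h4
    refine mul_right_cancel₀ (pow_ne_zero t.val hω0) ?_
    rw [h4]
    ring
  have hφφ : φ • (φ • AB) = ωB ^ t.val * AB := by
    apply RingOfIntegers.coe_injective
    change φ (φ (A * aD ω p q p' q' ρ)) = ω ^ t.val * (A * aD ω p q p' q' ρ)
    rw [map_mul, map_mul, hφD, hφN, hφφA]
    ring
  -- reduction modulo `P`
  set z : 𝓞 L ⧸ P := Ideal.Quotient.mk P ωB with hz
  have hzrel : z ^ 2 + z + 1 = 0 := by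
    have h3 : ωB ^ 2 + ωB + 1 = 0 := by
      apply RingOfIntegers.coe_injective
      change ω ^ 2 + ω + 1 = 0
      exact hω
    rw [hz, ← map_pow, ← map_add, ← map_one (Ideal.Quotient.mk P), ← map_add, h3, map_zero]
  have hz3 := omega_cube hzrel
  have h3Q : ¬ (Q : ℤ) ∣ 3 := by
    intro h3
    have h4 : Q ∣ 3 := by exact_mod_cast h3
    have h5 := (Nat.prime_dvd_prime_iff_eq hQ Nat.prime_three).1 h4
    omega
  have hz1 : z ≠ 1 := by
    intro h3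
    rw [h3] at hzrel
    refine h3Q ((int_mk hQ hP hQP 3).1 ?_)
    push_cast
    linear_combination hzrel
  have hrQ : ((r : ℤ) : 𝓞 L ⧸ P) ≠ 0 := by
    rw [Ne, int_mk hQ hP hQP]
    intro h3
    refine hb ?_
    have h4 : b = r * r ^ 2 - (r ^ 3 - b) := by ring
    rw [h4]
    exact dvd_sub (Dvd.dvd.mul_right h3 _) hr
  have hrρ : Ideal.Quotient.mk P ρB = ((r : ℤ) : 𝓞 L ⧸ P) := by
    set c := Ideal.Quotient.mk P ρB with hc
    have hc3 : c ^ 3 = ((r : ℤ) : 𝓞 L ⧸ P) ^ 3 := by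
      have h3 : ρB ^ 3 = ((b : ℤ) : 𝓞 L) := by
        apply RingOfIntegers.coe_injective
        rw [map_intCast]
        exact hρ
      have h4 := (int_mk hQ hP hQP (r ^ 3 - b)).2 hr
      push_cast at h4
      rw [hc, ← map_pow, h3, map_intCast]
      linear_combination -h4
    have hcQ : c ^ Q = c := by
      rw [hc, ← frob_mk hQ hP hQP hφ]
      congr 1
      apply RingOfIntegers.coe_injective
      exact hφρ
    have hsQ : ((r : ℤ) : 𝓞 L ⧸ P) ^ Q = ((r : ℤ) : 𝓞 L ⧸ P) := by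
      have h3 : (Q : ℤ) ∣ r ^ Q - r := by
        have := Fact.mk hQ
        rw [← ZMod.intCast_zmod_eq_zero_iff_dvd]
        push_cast
        rw [ZMod.pow_card, sub_self]
      have h4 := (int_mk hQ hP hQP _).2 h3
      push_cast at h4
      exact sub_eq_zero.1 h4
    have hy3 : (c / ((r : ℤ) : 𝓞 L ⧸ P)) ^ 3 = 1 := by
      rw [div_pow, hc3, div_self (pow_ne_zero _ hrQ)]
    have hyQ : (c / ((r : ℤ) : 𝓞 L ⧸ P)) ^ Q = c / ((r : ℤ) : 𝓞 L ⧸ P) := by
      rw [div_pow, hcQ, hsQ]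
    rw [pow_mod3 hy3 Q, hQ3] at hyQ
    have hy0 : c / ((r : ℤ) : 𝓞 L ⧸ P) ≠ 0 := by
      intro h3
      rw [h3] at hy3
      norm_num at hy3
    have hy1 : c / ((r : ℤ) : 𝓞 L ⧸ P) = 1 := by
      refine mul_left_cancel₀ hy0 ?_
      rw [mul_one, ← pow_two]
      exact hyQ
    exact (div_eq_one_iff_eq hrQ).1 hy1
  -- the residue symbol
  have hq := prime_inert hQ hQ3
  have hq3 := n3 hQ hQ3
  obtain ⟨e1, e2⟩ := lf_not_dvd h1 hr
  obtain ⟨e1', e2'⟩ := lf_not_dvd h2 hr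
  let ψ : Eis →+* 𝓞 L ⧸ P := lift z hzrel
  have hψQ : ψ (Q : Eis) = 0 := by
    rw [map_natCast, ← map_natCast (Ideal.Quotient.mk P)]
    exact Ideal.Quotient.eq_zero_iff_mem.2 hQP
  have hψw : ψ w = z := lift_w z hzrel
  have hψi : ∀ n : ℤ, ψ (n : Eis) = n := lift_int z hzrel
  have hψL : ∀ (p q : ℤ) (i : ℕ), ψ (Lf p q i r) = p + q * z ^ i * r := by
    intro p q i
    simp only [Lf, map_add, map_mul, map_pow, hψi, hψw]
  set E : Eis := Lf p q 2 r * Lf p' q' 1 r * (Lf p q 1 r * Lf p' q' 2 r) ^ 2 with hE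
  have hEd : ¬ (Q : Eis) ∣ E := by
    intro h3
    rcases hq.dvd_or_dvd h3 with h4 | h4
    · rcases hq.dvd_or_dvd h4 with h5 | h5
      · exact e2 h5
      · exact e1' h5
    · rcases hq.dvd_or_dvd (hq.dvd_of_dvd_pow h4) with h5 | h5
      · exact e1 h5
      · exact e2' h5
  have hmkA : Ideal.Quotient.mk P AB ^ 3 = ψ E := by
    rw [← map_pow, hAB, hE]
    simp only [dD, dN, map_mul, map_add, map_pow, map_intCast, hrρ, ← hz, pow_one, hψL]
  have hsym := map_pow_eq hq hq3 hEd ψ hψQ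
  rw [← hmkA, hψw] at hsym
  set a := Ideal.Quotient.mk P AB with ha
  have hN : N (Q : Eis) = Q * Q := by
    have h3 := N_cast (Q : Eis)
    rw [Eis.norm_natCast] at h3
    have h4 : ((N (Q : Eis) : ℕ) : ℤ) = ((Q * Q : ℕ) : ℤ) := by
      rw [h3]
      push_cast
      ring
    exact_mod_cast h4
  have hM : 3 * ((N (Q : Eis) - 1) / 3) + 1 = Q * Q := by
    rw [three_mul_div hq hq3, hN]
  have ha0 : a ≠ 0 := by
    intro h3
    rw [h3] at hmkA
    rw [h3] at hsym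
    have h5 : 0 < (N (Q : Eis) - 1) / 3 := by
      have h6 := hQ.two_le
      by_contra h7
      have h8 : (N (Q : Eis) - 1) / 3 = 0 := by omega
      rw [h8] at hM
      nlinarith
    have h6 : z ≠ 0 := by
      intro h7
      rw [h7] at hz3
      norm_num at hz3
    rw [zero_pow (by norm_num), zero_pow h5.ne'] at hsym
    exact pow_ne_zero _ h6 hsym.symm
  have hfinal : z ^ t.val = z ^ (sym (Q : Eis) E).val := by
    have h3 := congrArg (Ideal.Quotient.mk P) hφφ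
    rw [frob_mk hQ hP hQP hφ, frob_mk hQ hP hQP hφ, map_mul, map_pow, ← hz, ← ha, ← pow_mul,
      ← hM, pow_succ, pow_mul, hsym] at h3
    exact (mul_right_cancel₀ ha0 h3).symm
  have horder : orderOf z = 3 := by
    have := Fact.mk Nat.prime_three
    exact orderOf_eq_prime hz3 hz1
  have ht' : t = sym (Q : Eis) E := by
    have h3 := IsPrimitiveRoot.orderOf z
    rw [horder] at h3
    exact ZMod.val_injective 3 (h3.pow_inj (ZMod.val_lt t) (ZMod.val_lt _) hfinal)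
  rw [ht', hE]
  have g1 : ¬ (Q : Eis) ∣ Lf p q 2 r * Lf p' q' 1 r := fun h3 =>
    (hq.dvd_or_dvd h3).elim e2 e1'
  have g2 : ¬ (Q : Eis) ∣ Lf p q 1 r * Lf p' q' 2 r := fun h3 =>
    (hq.dvd_or_dvd h3).elim e1 e2'
  have g3 : ¬ (Q : Eis) ∣ (Lf p q 1 r * Lf p' q' 2 r) ^ 2 := fun h3 => g2 (hq.dvd_of_dvd_pow h3)
  rw [sym_mul hq hq3 g1 g3, sym_mul hq hq3 e2 e1', sym_pow hq hq3 g2, sym_mul hq hq3 e1 e2']
  unfold TAUV
  have h2z : ((2 : ℕ) : ZMod 3) = -1 := by decide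
  rw [h2z]
  ring

/-- a fixed cube root -/
theorem exists_fixed {L : Type} [Field L] [NumberField L] {φ : L ≃ₐ[ℚ] L} {ω θ : L} {b : ℤ}
    (hω : ω ^ 2 + ω + 1 = 0) (hφω : φ ω = ω ^ 2) (hθ : θ ^ 3 = (b : L)) :
    ∃ ρ : L, ρ ^ 3 = (b : L) ∧ φ ρ = ρ := by
  have hω3 := omega_cube hω
  have h1 : (φ θ) ^ 3 = θ ^ 3 := by
    rw [← map_pow, hθ, map_intCast]
  have h2 : (φ θ - θ) * ((φ θ - ω * θ) * (φ θ - ω ^ 2 * θ)) = 0 := by
    linear_combination h1 + (-(φ θ) ^ 2 * θ + φ θ * θ ^ 2) * hω + (φ θ * θ ^ 2 - θ ^ 3) * hω3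
  rcases mul_eq_zero.1 h2 with h3 | h3
  · exact ⟨θ, hθ, sub_eq_zero.1 h3⟩
  rcases mul_eq_zero.1 h3 with h4 | h4
  · refine ⟨ω ^ 2 * θ, ?_, ?_⟩
    · rw [mul_pow, ← pow_mul, mul_comm 2 3, pow_mul, hω3, one_pow, one_mul, hθ]
    · rw [map_mul, map_pow, hφω, sub_eq_zero.1 h4]
      linear_combination ω ^ 2 * θ * hω3
  · refine ⟨ω * θ, ?_, ?_⟩
    · rw [mul_pow, hω3, one_mul, hθ]
    · rw [map_mul, hφω, sub_eq_zero.1 h4]
      linear_combination ω * θ * hω3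

theorem not_dvd_of_lt {Q : ℕ} {n : ℤ} (hn : n ≠ 0) (h : n.natAbs < Q) : ¬ (Q : ℤ) ∣ n := by
  intro h1
  have h2 := Int.natAbs_dvd_natAbs.2 h1
  rw [Int.natAbs_natCast] at h2
  exact absurd (Nat.le_of_dvd (Int.natAbs_pos.2 hn) h2) (by omega)

end GFR

open _root_.Pool.Agent.PT.GFR

theorem GFR_thm : GFR := by
  classical
  intro s b p q p' q' f L _ _ ζ ω hS hG
  have hgal := hG.gal
  let B : Fin s → Fin s → ℕ := fun j i => (b j).natAbs + (p j i ^ 3 + b j * q j i ^ 3).natAbs +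
    (p' j i ^ 3 + b j * q' j i ^ 3).natAbs
  refine ⟨∑ j, ∑ i, B j i, fun Q hQ hQN P hP hQP => ⟨fun g hg => ?_, fun φ hφ hQ3 => ?_⟩⟩
  · have hfin := quo_finite hQ hP hQP
    exact exists_frob_gen (R := ℤ) P g hg
  · have hφω := frob_omega hQ hP hQP hQ3 hφ hG.rel
    refine ⟨hφω, fun j i hji r t hr ht => ?_⟩
    have hB : B j i < Q := by
      refine lt_of_le_of_lt ?_ hQN
      have h1 : B j i ≤ ∑ i, B j i :=
        Finset.single_le_sum (f := fun i => B j i) (fun _ _ => Nat.zero_le _) (Finset.mem_univ i)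
      refine h1.trans ?_
      exact Finset.single_le_sum (f := fun j => ∑ i, B j i) (fun _ _ => Nat.zero_le _)
        (Finset.mem_univ j)
    have hsol := hS.sol j i hji
    have hbj : b j ≠ 0 := by
      intro h0
      refine hS.ind (Pi.single j 1) ⟨j, by simp⟩ ⟨0, ?_⟩
      have h1 : ∏ i, b i ^ (Pi.single j 1 : Fin s → ℕ) i = 0 := by
        refine Finset.prod_eq_zero (Finset.mem_univ j) ?_
        rw [Pi.single_eq_same, pow_one, h0]
      rw [h1]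
      norm_num
    have h2 : p' j i ^ 3 + b j * q' j i ^ 3 ≠ 0 := by
      intro h0
      refine hsol.n1 ?_
      rw [hsol.eq, h0, mul_zero]
    simp only [B] at hB
    obtain ⟨θ, hθ⟩ := hG.root j
    obtain ⟨ρ, hρ, hφρ⟩ := exists_fixed hG.rel hφω hθ
    obtain ⟨A, hA⟩ := hG.A j i hji ρ hρ
    exact core hQ hP hQP hQ3 hφ hG.rel (not_dvd_of_lt hbj (by omega))
      (not_dvd_of_lt hsol.n1 (by omega)) (not_dvd_of_lt h2 (by omega)) hr hρ hφρ hA
      (ht ρ A hρ hφρ hA)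

end Pool.Agent.PT

end

section

/-!
# Prime twists of rank zero: the commutators in the governing field, without the condition modulo 9
-/

open NumberField IsDedekindDomain Finset
open scoped nonZeroDivisors Pointwise

namespace Pool.Agent.PTE

open Pool.Agent.Lib_helper18 Pool.Agent.Lib_helper18.Eis Pool.Agent.Lib_helper84.Cub
open Pool.Agent.PT

theorem GCG_thm (hKUM : KUM) (hGKI : GKI) : GCG := by
  intro s b p q p' q' f L _ _ ζ ω hS hG
  have hω := hG.rel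
  have := hG.gal
  have hf : 0 < f := by
    rcases Nat.eq_zero_or_pos f with h | h
    · exfalso
      have h1 := hG.hω
      rw [h, Nat.zero_div, pow_zero] at h1
      rw [h1] at hω
      norm_num at hω
    · exact h
  have hζf : ζ ^ f = 1 := hG.prim.pow_eq_one
  have hζ : ∀ z : L ≃ₐ[ℚ] L, z ζ = ζ → z ω = ω := by
    intro z hz
    rw [hG.hω, map_pow, hz]
  have hb : ∀ i, b i ≠ 0 := by
    intro i hi
    refine hS.ind (fun l => if l = i then 1 else 0) ⟨i, by simp⟩ ⟨0, ?_⟩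
    symm
    rw [zero_pow (by norm_num)]
    exact Finset.prod_eq_zero (Finset.mem_univ i) (by simp [hi])
  choose θ hθ using hG.root
  -- Kummer theory
  have hgi : ∀ v : Fin s → ZMod 3, ∃ g : L ≃ₐ[ℚ] L, g ζ = ζ ∧
      ∀ l, g (θ l) = ω ^ (v l).val * θ l := by
    intro v
    let F := IntermediateField.adjoin ℚ {ζ}
    have hζF : ζ ∈ F := IntermediateField.mem_adjoin_simple_self ℚ ζ
    let ζF : F := ⟨ζ, hζF⟩
    obtain ⟨g, hg⟩ := hKUM F L (ζF ^ (f / 3)) (Fin s) (fun i => ((b i : ℤ) : F)) θ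
      (by
        apply Subtype.ext
        push_cast
        rw [← hG.hω]
        exact hω)
      (fun i => by exact_mod_cast hb i)
      (fun i => by rw [hθ i, map_intCast])
      (by
        rintro n ⟨β, hβ⟩
        by_contra hcon
        push Not at hcon
        have h1 : ((β : L)) ^ 3 = ((∏ i, b i ^ n i : ℤ) : L) := by
          have h2 := congrArg (algebraMap F L) hβ
          rw [map_pow, map_prod] at h2
          push_cast
          rw [show ((β : L)) ^ 3 = (algebraMap F L β) ^ 3 from rfl, ← h2]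
          refine Finset.prod_congr rfl (fun i _ => ?_)
          rw [map_pow, map_intCast]
        obtain ⟨t, ht⟩ := hGKI L f ζ (β : L) (∏ i, b i ^ n i) hf hζf β.2 h1
        exact hS.ind n hcon ⟨t, ht⟩)
      v
    refine ⟨g.restrictScalars ℚ, ?_, fun l => ?_⟩
    · exact g.commutes ζF
    · have h3 := hg l
      rw [AlgEquiv.restrictScalars_apply, h3, map_pow]
      rw [show algebraMap F L ζF = ζ from rfl, ← hG.hω]
  have hg1 : ∀ i, ∃ g : L ≃ₐ[ℚ] L, g ζ = ζ ∧ g (θ i) = ω * θ i ∧ ∀ l, l ≠ i → g (θ l) = θ l := by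
    intro i
    obtain ⟨g, hg, hg'⟩ := hgi (fun l => if l = i then 1 else 0)
    refine ⟨g, hg, ?_, fun l hl => ?_⟩
    · rw [hg' i, if_pos rfl]
      rw [show (1 : ZMod 3).val = 1 from rfl, pow_one]
    · rw [hg' l, if_neg hl, ZMod.val_zero, pow_zero, one_mul]
  choose g hgζ hgθ hgθ' using hg1
  have hgω : ∀ i, g i ω = ω := fun i => hζ _ (hgζ i)
  have hroot : ∀ (j : Fin s) (ρ : L), ρ ^ 3 = (b j : L) → ∃ k : ℕ, ρ = ω ^ k * θ j := by
    intro j ρ hρ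
    exact GC.cube_eq hω (by rw [hρ, hθ j])
  have hgρ : ∀ (j : Fin s) (ρ : L), ρ ^ 3 = (b j : L) → g j ρ = ω * ρ := by
    intro j ρ hρ
    obtain ⟨k, hk⟩ := hroot j ρ hρ
    rw [hk, map_mul, map_pow, hgω, hgθ]
    ring
  have hgρ' : ∀ (i j : Fin s) (ρ : L), ρ ^ 3 = (b j : L) → j ≠ i → g i ρ = ρ := by
    intro i j ρ hρ hji
    obtain ⟨k, hk⟩ := hroot j ρ hρ
    rw [hk, map_mul, map_pow, hgω, hgθ' i j hji]
  apply GC.all hω hζ
  intro j i hji
  refine ⟨(g j * g i)⁻¹ * (g i * g j), ?_, fun l ρ hρ => ?_, fun l k hlk ρ A hρ hA => ?_⟩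
  · have h1 : g i (g j ζ) = ω ^ 0 * g j (g i ζ) := by
      rw [hgζ j, hgζ i, hgζ j, pow_zero, one_mul]
    rw [GC.comm_apply (g j) (g i) 0 (hgω j) (hgω i) ζ h1, pow_zero, one_mul]
  · have h1 : g i (g j ρ) = ω ^ 0 * g j (g i ρ) := by
      rw [pow_zero, one_mul]
      by_cases h2 : l = i
      · subst h2
        rw [hgρ l ρ hρ, hgρ' j l ρ hρ (ne_of_gt hji), hgρ l ρ hρ, map_mul, hgω j,
          hgρ' j l ρ hρ (ne_of_gt hji)]
      · by_cases h3 : l = j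
        · subst h3
          rw [hgρ l ρ hρ, hgρ' i l ρ hρ h2, hgρ l ρ hρ, map_mul, hgω i, hgρ' i l ρ hρ h2]
        · rw [hgρ' i l ρ hρ h2, hgρ' j l ρ hρ h3, hgρ' i l ρ hρ h2]
    rw [GC.comm_apply (g j) (g i) 0 (hgω j) (hgω i) ρ h1, pow_zero, one_mul]
  · have hsol := (hS.sol l k hlk.ne).toSolW
    by_cases h2 : (l, k) = (j, i)
    · rw [Prod.mk.injEq] at h2
      obtain ⟨rfl, rfl⟩ := h2
      simp only [if_true]
      have h1 : g k (g l A) = ω ^ 1 * g l (g k A) :=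
        GC.mv (g l) (g k) 1 hω hρ (hθ k) hsol (hgω l) (hgω k) (hgρ l ρ hρ)
          (hgρ' k l ρ hρ hlk.ne) (by rw [pow_one]; exact hgθ k) hA
      exact GC.comm_apply (g l) (g k) 1 (hgω l) (hgω k) A h1
    · simp only [if_neg h2]
      have h1 : g i (g j A) = ω ^ 0 * g j (g i A) := by
        by_cases h3 : l = j
        · subst h3
          have h4 : k ≠ i := fun h => h2 (by rw [h])
          exact GC.mv (g l) (g i) 0 hω hρ (hθ k) hsol (hgω l) (hgω i) (hgρ l ρ hρ)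
            (hgρ' i l ρ hρ hji.ne) (by rw [pow_zero, one_mul]; exact hgθ' i k h4) hA
        · by_cases h4 : l = i
          · subst h4
            have h5 : k ≠ j := (hji.trans hlk).ne'
            have h6 := GC.mv (g l) (g j) 0 hω hρ (hθ k) hsol (hgω l) (hgω j) (hgρ l ρ hρ)
              (hgρ' j l ρ hρ hji.ne') (by rw [pow_zero, one_mul]; exact hgθ' j k h5) hA
            rw [pow_zero, one_mul] at h6 ⊢
            exact h6.symm
          · rw [pow_zero, one_mul]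
            exact GC.fx (g j) (g i) hω hρ hsol (hgω j) (hgω i) (hgρ' j l ρ hρ h3)
              (hgρ' i l ρ hρ h4) hA
      have h5 := GC.comm_apply (g j) (g i) 0 (hgω j) (hgω i) A h1
      rw [ZMod.val_zero]
      exact h5

end Pool.Agent.PTE

end

section

/-!
# Module GFRG: Frobenius elements and the classes `t`
-/

set_option autoImplicit false

open NumberField IsDedekindDomain Finset
open scoped nonZeroDivisors Pointwise

namespace Pool.Agent.PT3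

open Pool.Agent.Lib_helper18 Pool.Agent.Lib_helper18.Eis Pool.Agent.Lib_helper84.Cub
open Pool.Agent.PT Pool.Agent.PTE

open Pool.Agent.PT.GFR in
theorem GFRG_thm : GFRG := by
  classical
  intro s b p q p' q' f L _ _ ζ ω hS hG
  have hgal := hG.gal
  let B : Fin s → Fin s → ℕ := fun j i => (b j).natAbs + (p j i ^ 3 + b j * q j i ^ 3).natAbs +
    (p' j i ^ 3 + b j * q' j i ^ 3).natAbs
  refine ⟨∑ j, ∑ i, B j i, fun Q hQ hQN P hP hQP => ⟨fun g hg => ?_, fun φ hφ hQ3 => ?_⟩⟩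
  · have hfin := quo_finite hQ hP hQP
    exact exists_frob_gen (R := ℤ) P g hg
  · have hφω := frob_omega hQ hP hQP hQ3 hφ hG.rel
    refine ⟨hφω, fun j i hji r t hr ht => ?_⟩
    have hB : B j i < Q := by
      refine lt_of_le_of_lt ?_ hQN
      have h1 : B j i ≤ ∑ i, B j i :=
        Finset.single_le_sum (f := fun i => B j i) (fun _ _ => Nat.zero_le _) (Finset.mem_univ i)
      refine h1.trans ?_
      exact Finset.single_le_sum (f := fun j => ∑ i, B j i) (fun _ _ => Nat.zero_le _)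
        (Finset.mem_univ j)
    have hsol := hS.sol j i hji
    have hbj : b j ≠ 0 := by
      intro h0
      refine hS.ind (Pi.single j 1) ⟨j, by simp⟩ ⟨0, ?_⟩
      have h1 : ∏ i, b i ^ (Pi.single j 1 : Fin s → ℕ) i = 0 := by
        refine Finset.prod_eq_zero (Finset.mem_univ j) ?_
        rw [Pi.single_eq_same, pow_one, h0]
      rw [h1]
      norm_num
    have h2 : p' j i ^ 3 + b j * q' j i ^ 3 ≠ 0 := by
      intro h0
      refine hsol.n1 ?_
      rw [hsol.eq, h0, mul_zero]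
    simp only [B] at hB
    obtain ⟨θ, hθ⟩ := hG.root j
    obtain ⟨ρ, hρ, hφρ⟩ := exists_fixed hG.rel hφω hθ
    obtain ⟨A, hA⟩ := hG.A j i hji ρ hρ
    exact core hQ hP hQP hQ3 hφ hG.rel (not_dvd_of_lt hbj (by omega))
      (not_dvd_of_lt hsol.n1 (by omega)) (not_dvd_of_lt h2 (by omega)) hr hρ hφρ hA
      (ht ρ A hρ hφρ hA)

end Pool.Agent.PT3

end

section

/-!
# Prime twists of rank zero, `n` divisible by `3`: module FCLT
-/

set_option autoImplicit false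

open NumberField IsDedekindDomain Finset
open scoped nonZeroDivisors Pointwise

namespace Pool.Agent.PT3

open Pool.Agent.Lib_helper18 Pool.Agent.Lib_helper18.Eis Pool.Agent.Lib_helper84.Cub
open Pool.Agent.PT Pool.Agent.PTE

/-- FCLT: one class, `3^h n`, `h + k` even. -/
theorem FCLT_thm (hSPP : SPP) (hECLT : ECLT) (hDCOT : DCOT) (hCLSC : CLSC) (hDENG : DENG) :
    FCLT := by
  intro h n m k π p e r f w0 c hNF hh hk hMt
  obtain ⟨s, b, X, Y, P, Q, P', Q', hs, hsys, hb0, hq⟩ :=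
    hECLT h n m k π p e r f w0 c hNF hh hk hMt
  have hn : 0 < n := PT.FINA.pos_of_nf hNF
  have hN0 : 0 < 3 ^ h * n := Nat.mul_pos (pow_pos (by norm_num) _) hn
  have hBB : ∀ q : ℕ, BB h n 1 q = ((3 ^ h * n : ℕ) : ℤ) * (q : ℤ) ^ 1 := by
    intro q
    unfold BB
    push_cast
    ring
  have hD : ∀ j i : Fin s, ∃ f₀ : ℕ, 0 < f₀ ∧ ∀ F : ℕ, 0 < F → f₀ ∣ F →
      ∃ (C : ZMod 3) (Φ : (ZMod F)ˣ →* Multiplicative (ZMod 3)), j ≠ i →
        ∀ (q : ℕ) (hQ : q.Coprime F), q.Prime → q % 3 = 2 →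
          AG (BB h n 1 q) (b i) → ∀ t : ℤ, (q : ℤ) ∣ t ^ 3 - b j →
          OT (BB h n 1 q) (b j) (X j) (Y j) (b i) (P j i) (Q j i) (P' j i) (Q' j i) =
            C + (Φ (ZMod.unitOfCoprime q hQ)).toAdd -
              TAUV q (P j i) (Q j i) (P' j i) (Q' j i) t := by
    intro j i
    by_cases hji : j = i
    · exact ⟨1, one_pos, fun F _ _ => ⟨0, 1, fun h => absurd hji h⟩⟩
    · obtain ⟨f₀, hf₀, h'⟩ := hDCOT (3 ^ h * n) (b j) (X j) (Y j) (b i) (P j i) (Q j i) (P' j i)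
        (Q' j i) hN0 (hsys.sol j i hji) (hb0 j) (hb0 i)
      refine ⟨f₀, hf₀, fun F hF hd => ?_⟩
      obtain ⟨C, Φ, h''⟩ := h' F hF hd
      refine ⟨C, Φ, fun _ q hQ hqp hq3 hAG t ht => ?_⟩
      rw [hBB q] at hAG ⊢
      have h1 := h'' 1 q hQ hqp hq3 hAG t ht
      rw [h1]
      push_cast
      ring
  choose f₀ hf₀ hD1 using hD
  obtain ⟨F, hF, h9, hpF, hfF⟩ : ∃ F : ℕ, 0 < F ∧ 9 ∣ F ∧ (∀ i, p i ∣ F) ∧ ∀ j i, f₀ j i ∣ F := by
    refine ⟨9 * (∏ i, p i) * ∏ j, ∏ i, f₀ j i, ?_, ?_, ?_, ?_⟩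
    · have h1 : 0 < ∏ i, p i := Finset.prod_pos fun i _ => (hNF.pp i).pos
      have h2 : 0 < ∏ j, ∏ i, f₀ j i :=
        Finset.prod_pos fun j _ => Finset.prod_pos fun i _ => hf₀ j i
      positivity
    · exact Dvd.dvd.mul_right (Dvd.intro _ rfl) _
    · intro i
      exact Dvd.dvd.mul_right (Dvd.dvd.mul_left (Finset.dvd_prod_of_mem p (mem_univ i)) _) _
    · intro j i
      exact Dvd.dvd.mul_left ((Finset.dvd_prod_of_mem (fun i => f₀ j i) (mem_univ i)).trans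
        (Finset.dvd_prod_of_mem (fun j => ∏ i, f₀ j i) (mem_univ j))) _
  choose C Φ hD2 using fun j i => hD1 j i F hF (hfF j i)
  obtain ⟨κ, hκ, hcount⟩ := hCLSC m π p hNF.pp hNF.p1 hNF.pπ hNF.pinj F hF h9 hpF
  have hdens := hDENG s b P Q P' Q' F m κ (Fin.cons w0 c) C (PT.FINA.assemble Φ) hsys hs hF h9
    hcount
  refine RI.PDGE_thm _ _ (Finset.range (n + 4)) _ hdens ?_
  rintro q ⟨hQ, hq3, hκq, hdet⟩ hqp hqA
  rw [Finset.mem_range, not_lt] at hqA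
  rw [hκ q hQ] at hκq
  have hcl : InCl π w0 c q := by
    refine ⟨hq3, ?_, fun i => ?_⟩
    · have := congrFun hκq 0
      simpa using this
    · have := congrFun hκq i.succ
      simpa using this
  have hct : InCT 1 π w0 c q := by
    refine ⟨?_, fun i => ?_⟩
    · rw [pow_one]
      exact hcl.2.1
    · rw [Nat.cast_one, one_mul]
      exact hcl.2.2 i
  have hqn : ¬ q ∣ n := fun h => by
    have := Nat.le_of_dvd hn h
    omega
  refine ⟨hcl, fun hXY => ?_⟩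
  obtain ⟨hB, hA, hskew, hM⟩ := hq 1 q (Or.inl rfl) hqp hq3 hct hqn
  have hM0 := hM (by
    obtain ⟨x, y, hxy⟩ := hXY
    refine ⟨x, y, ?_⟩
    rw [hxy, hBB q]
    push_cast
    ring)
  let τ : Fin s → Fin s → ZMod 3 := fun j i =>
    C j i + (Φ j i (ZMod.unitOfCoprime q hQ)).toAdd -
      OT (BB h n 1 q) (b j) (X j) (Y j) (b i) (P j i) (Q j i) (P' j i) (Q' j i)
  apply hdet τ
  · intro j i hji t ht
    have h1 := hD2 j i hji q hQ hqp hq3 (hA i).toAG t ht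
    simp only [τ]
    rw [h1]
    ring
  · rw [← hM0]
    congr 1
    ext j i
    have hv : ∀ j i, (C + (PT.FINA.assemble Φ (ZMod.unitOfCoprime q hQ)).toAdd - τ) j i =
        OT (BB h n 1 q) (b j) (X j) (Y j) (b i) (P j i) (Q j i) (P' j i) (Q' j i) := by
      intro j i
      simp only [Pi.sub_apply, Pi.add_apply, τ, PT.FINA.assemble_apply]
      ring
    unfold alt
    rw [hv, hv]
    by_cases h1 : j < i
    · rw [if_pos h1]
      unfold MaT
      rw [if_neg h1.ne]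
    · rw [if_neg h1]
      by_cases h2 : i < j
      · rw [if_pos h2, hskew j i]
        unfold MaT
        rw [if_neg h2.ne]
      · rw [if_neg h2]
        have h3 : j = i := le_antisymm (not_lt.1 h2) (not_lt.1 h1)
        unfold MaT
        rw [if_pos h3]

end Pool.Agent.PT3

end

section

/-!
# IF1: the identity of the two norm residue symbols
-/

namespace Pool.Agent.PT

open Pool.Agent.Lib_helper18 Pool.Agent.Lib_helper18.Eis Pool.Agent.Lib_helper84.Cub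

namespace IF1

/-! ### The polynomial identity -/

section Poly

variable {R : Type*} [CommRing R]

theorem pair_mul {t : R} (ht : t ^ 2 + t + 1 = 0) (u v u' v' : R) :
    (u + t * v) * (u' + t * v') = (u * u' - v * v') + t * (u * v' + v * u' - v * v') := by
  linear_combination (v * v') * ht

/-- the cofactor -/
def RR (a b c d : R) : R :=
  a^3*b*c*d - a^3*b*d^2 - a^3*c*d^2 + a^2*b^2*c^2 - 3*a^2*b^2*c*d + a^2*b^2*d^2 - 3*a^2*b*c^2*d
    + 4*a^2*b*c*d^2 - a^2*b*d^3 + a^2*c^2*d^2 - a^2*c*d^3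
    - a*b^3*c^2 + a*b^3*c*d - a*b^2*c^3 + 4*a*b^2*c^2*d - 3*a*b^2*c*d^2 + a*b*c^3*d
    - 3*a*b*c^2*d^2 + a*b*c*d^3 - b^3*c^2*d - b^2*c^3*d + b^2*c^2*d^2

/-- the second coordinate of the product of the first four factors -/
def W1 (a b c d : R) : R :=
  (a*c - b*c + b*d) * (a*d - b*c) + (a*d - b*c) * (a*b - b*c + c*d) - (a*d - b*c) * (a*d - b*c)

/-- the first coordinate of the product of the first four factors -/
def U1 (a b c d : R) : R :=
  (a*c - b*c + b*d) * (a*b - b*c + c*d) - (a*d - b*c) * (a*d - b*c)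

def U2 (a b c d : R) : R := U1 a b c d * (b*c + a*d) - W1 a b c d * (a*d)

def W2 (a b c d : R) : R :=
  U1 a b c d * (a*d) + W1 a b c d * (b*c + a*d) - W1 a b c d * (a*d)

def U3 (a b c d : R) : R := (a+d)^3 + (b+c)^3 - 3*(a+d)*(b+c)^2

def W3 (a b c d : R) : R := 3*(a+d)^2*(b+c) - 3*(a+d)*(b+c)^2

def W4 (a b c d : R) : R :=
  U2 a b c d * W3 a b c d + W2 a b c d * U3 a b c d - W2 a b c d * W3 a b c d

theorem first (a b c d : R) : U2 a b c d * U3 a b c d - W2 a b c d * W3 a b c d =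
    (a^3 + b^3 + c^3 + d^3) * RR a b c d := by
  unfold U2 W2 U3 W3 U1 W1 RR
  ring

theorem prod_eq {t : R} (ht : t ^ 2 + t + 1 = 0) (a b c d : R) :
    (a + t^2*b) * (c + t*d) * ((a + t^2*c) * (b + t*d)) * (b*c - t^2*(a*d)) *
      (a + t*b + t*c + d)^3 = (a^3 + b^3 + c^3 + d^3) * RR a b c d + t * W4 a b c d := by
  have h1 : (a + t^2*b) * (c + t*d) = (a*c - b*c + b*d) + t * (a*d - b*c) := by
    linear_combination (b*c + b*d*(t - 1)) * ht
  have h2 : (a + t^2*c) * (b + t*d) = (a*b - b*c + c*d) + t * (a*d - b*c) := by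
    linear_combination (b*c + c*d*(t - 1)) * ht
  have h3 : b*c - t^2*(a*d) = (b*c + a*d) + t * (a*d) := by
    linear_combination (-(a*d)) * ht
  have h4 : (a + t*b + t*c + d)^3 = U3 a b c d + t * W3 a b c d := by
    unfold U3 W3
    linear_combination (3*(a+d)*(b+c)^2 + (b+c)^3*(t - 1)) * ht
  rw [h1, h2, h3, h4, pair_mul ht]
  have h5 : (a*c - b*c + b*d) * (a*b - b*c + c*d) - (a*d - b*c) * (a*d - b*c) = U1 a b c d := rfl
  have h6 : (a*c - b*c + b*d) * (a*d - b*c) + (a*d - b*c) * (a*b - b*c + c*d) -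
      (a*d - b*c) * (a*d - b*c) = W1 a b c d := rfl
  rw [h5, h6, pair_mul ht]
  have h7 : U1 a b c d * (b*c + a*d) - W1 a b c d * (a*d) = U2 a b c d := rfl
  have h8 : U1 a b c d * (a*d) + W1 a b c d * (b*c + a*d) - W1 a b c d * (a*d) = W2 a b c d := rfl
  rw [h7, h8, pair_mul ht, first]
  rfl

/-- The key identity. -/
theorem key {t : R} (ht : t ^ 2 + t + 1 = 0) (a b c d : R) :
    a^3 + b^3 + c^3 + d^3 ∣
      (t^2 * ((a + t*b) * (c + t^2*d) * ((a + t*c) * (b + t^2*d)) * (b*c - t*(a*d)) *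
        (a + t^2*b + t^2*c + d)^3)) -
      (a + t^2*b) * (c + t*d) * ((a + t^2*c) * (b + t*d)) * (b*c - t^2*(a*d)) *
        (a + t*b + t*c + d)^3 := by
  have h3 : t^3 = 1 := by linear_combination (t - 1) * ht
  have ht' : (t^2)^2 + t^2 + 1 = 0 := by linear_combination (t^2 - t + 1) * ht
  have e1 : (t^2)^2 = t := by linear_combination t * h3
  have h1 := prod_eq ht a b c d
  have h2 := prod_eq ht' a b c d
  rw [e1] at h2
  rw [h1, h2]
  refine ⟨(t^2 - 1) * RR a b c d, ?_⟩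
  linear_combination (t * W4 a b c d) * h3

/-- The identity of the degenerate case. -/
theorem degen {t : R} (h3 : t ^ 3 = 1) (a b c d : R) :
    3 * (b + c) * (b*c - t*(a*d)) = (a + t*b + t*c + d) *
      ((a + t*b + t*c + d)^2 - 3*(a + t*b + t*c + d)*t*(b+c) + 3*t^2*(b+c)^2 - 3*(a*d)) -
      (a^3 + b^3 + c^3 + d^3) := by
  linear_combination (-(b + c)^3) * h3

end Poly

/-! ### Valuations -/

section Val

variable {π : Eis}

theorem le_V {x : Eis} {n : ℕ} (hπ : Prime π) (hx : x ≠ 0) (h : π ^ n ∣ x) : n ≤ V π x :=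
  (fin hπ hx).le_multiplicity_of_pow_dvd h

theorem dvd_V {x : Eis} {n : ℕ} (h : n ≤ V π x) : π ^ n ∣ x :=
  (pow_dvd_pow π h).trans (pow_multiplicity_dvd π x)

/-- Divisors of elements close to `c`. -/
theorem V_le {c c' z : Eis} {N : ℕ} (hπ : Prime π) (hc : c ≠ 0) (hN : V π c < N)
    (h : π ^ N ∣ c' - c) (hz : z ∣ c') : z ≠ 0 ∧ V π z ≤ V π c := by
  have hc' : c' ≠ 0 := by
    rintro rfl
    rw [zero_sub, dvd_neg] at h
    have := le_V hπ hc h
    omega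
  have h1 : V π c' ≤ V π c := by
    by_contra hcon
    have h2 : π ^ (V π c + 1) ∣ c' := dvd_V (by omega)
    have h3 : π ^ (V π c + 1) ∣ c' - c := (pow_dvd_pow π (by omega)).trans h
    have h4 : π ^ (V π c + 1) ∣ c := by
      have := dvd_sub h2 h3
      rwa [sub_sub_cancel] at this
    have := le_V hπ hc h4
    omega
  obtain ⟨y, rfl⟩ := hz
  have hz0 : z ≠ 0 := left_ne_zero_of_mul hc'
  have hy0 : y ≠ 0 := right_ne_zero_of_mul hc'
  refine ⟨hz0, ?_⟩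
  rw [V_mul hπ hz0 hy0] at h1
  omega

theorem dvd_cancel {c n : Eis} {M K : ℕ} (hπ : Prime π) (hc : c ≠ 0) (hK : V π c ≤ K)
    (h : π ^ M ∣ c * n) : π ^ (M - K) ∣ n := by
  by_cases hn : n = 0
  · rw [hn]
    exact dvd_zero _
  · apply dvd_V
    have h1 := le_V hπ (mul_ne_zero hc hn) h
    rw [V_mul hπ hc hn] at h1
    omega

end Val

/-! ### Symbols -/

section Sym

variable {π : Eis} {s : Eis → Eis → ZMod 3} {e : ℕ}

theorem two_mul_eq_zero {a : ZMod 3} (h : a + a = 0) : a = 0 := by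
  revert h
  revert a
  decide

theorem three_mul_eq (a : ZMod 3) : a + a + a = 0 := by
  revert a
  decide

theorem s_one (hs : LSym π s e) {B : Eis} (hB : B ≠ 0) : s 1 B = 0 := by
  have h := hs.mul 1 1 B one_ne_zero one_ne_zero hB
  rw [mul_one] at h
  have h1 : s 1 B + s 1 B - s 1 B = s 1 B - s 1 B := by rw [← h]
  rwa [add_sub_cancel_right, sub_self] at h1

theorem s_neg (hs : LSym π s e) {B y : Eis} (hB : B ≠ 0) (hy : y ≠ 0) : s (-y) B = s y B := by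
  have hn : (-1 : Eis) ≠ 0 := neg_ne_zero.mpr one_ne_zero
  have h := hs.mul (-1) (-1) B hn hn hB
  rw [neg_one_mul, neg_neg, s_one hs hB] at h
  have h1 := two_mul_eq_zero h.symm
  have h2 := hs.mul (-1) y B hn hy hB
  rw [neg_one_mul, h1, zero_add] at h2
  exact h2

theorem s_cube (hs : LSym π s e) {B y : Eis} (hB : B ≠ 0) (hy : y ≠ 0) : s (y ^ 3) B = 0 := by
  have e1 : y ^ 3 = y * y * y := by ring
  rw [e1, hs.mul _ _ _ (mul_ne_zero hy hy) hy hB, hs.mul _ _ _ hy hy hB]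
  exact three_mul_eq _

theorem w_ne : (w : Eis) ≠ 0 := by
  intro h
  have := congrArg Eis.im h
  simp at this

end Sym

/-! ### The core -/

theorem cast_ne {n : ℤ} (h : n ≠ 0) : (n : Eis) ≠ 0 := by
  intro h1
  apply h
  have := congrArg Eis.re h1
  simpa using this

theorem dvd_sub3 {t A C : Eis} (ht : t ^ 3 = 1) : A - t * C ∣ A ^ 3 - C ^ 3 :=
  ⟨A ^ 2 + t * A * C + t ^ 2 * C ^ 2, by linear_combination (C ^ 3) * ht⟩

theorem dvd_add3 {t A C : Eis} (ht : t ^ 3 = 1) : A + t * C ∣ A ^ 3 + C ^ 3 :=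
  ⟨A ^ 2 - t * A * C + t ^ 2 * C ^ 2, by linear_combination (-C ^ 3) * ht⟩

theorem w2_cube : (w ^ 2 : Eis) ^ 3 = 1 := by
  have h := w_cube
  linear_combination (w ^ 3 + 1) * h

/-- The numbers attached to a solution. -/
theorem consts {b x p q p' q' : ℤ} (hb : b ≠ 0) (hS : Sol b x p q p' q') :
    p' ^ 3 + b * q' ^ 3 ≠ 0 ∧ x * q' ^ 3 - q ^ 3 ≠ 0 ∧ Gf p q p' q' 1 ≠ 0 ∧
      Gf p q p' q' 2 ≠ 0 := by
  have h1 : p' ^ 3 + b * q' ^ 3 ≠ 0 := by
    intro h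
    apply hS.n1
    rw [hS.eq, h, mul_zero]
  have h2 : x * q' ^ 3 - q ^ 3 ≠ 0 := by
    intro h
    apply hS.n2
    have h3 := hS.eq
    linear_combination h3 + b * h
  have h3 : (((p' ^ 3 + b * q' ^ 3) * (x * q' ^ 3 - q ^ 3) : ℤ) : Eis) ≠ 0 :=
    cast_ne (mul_ne_zero h1 h2)
  have h4 : (((p' ^ 3 + b * q' ^ 3) * (x * q' ^ 3 - q ^ 3) : ℤ) : Eis) =
      -(((q : Eis) * p' - w * (p * q')) * ((q : Eis) * p' - w ^ 2 * (p * q')) *
        ((q : Eis) * p' - p * q')) := by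
    have h5 : ((p' ^ 3 + b * q' ^ 3) * (x * q' ^ 3 - q ^ 3) : ℤ) =
        (p * q') ^ 3 - (q * p') ^ 3 := by
      have h6 := hS.eq
      linear_combination (-q' ^ 3) * h6
    rw [h5]
    push_cast
    have h7 := w_rel
    linear_combination (-((q : Eis) * p') ^ 2 * (p * q') + w * ((q : Eis) * p') * (p * q') ^ 2 -
      (w - 1) * ((p : Eis) * q') ^ 3) * h7
  rw [h4] at h3
  have h5 := neg_ne_zero.mp h3
  have h6 := left_ne_zero_of_mul h5
  refine ⟨h1, h2, ?_, ?_⟩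
  · have h7 : Gf p q p' q' 1 = (q : Eis) * p' - w * (p * q') := by
      unfold Gf
      ring
    rw [h7]
    exact left_ne_zero_of_mul h6
  · have h7 : Gf p q p' q' 2 = (q : Eis) * p' - w ^ 2 * (p * q') := by
      unfold Gf
      ring
    rw [h7]
    exact right_ne_zero_of_mul h6

/-- The linear forms do not vanish, and their valuations are bounded. -/
theorem forms {π : Eis} (hπ : Prime π) {b x p q p' q' : ℤ} (hb : b ≠ 0)
    (hS : Sol b x p q p' q') {N : ℕ}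
    (hN1 : V π ((p ^ 3 + b * q ^ 3 : ℤ) : Eis) < N)
    (hN2 : V π ((p' ^ 3 + b * q' ^ 3 : ℤ) : Eis) < N)
    (hN3 : V π ((p ^ 3 - x * p' ^ 3 : ℤ) : Eis) < N)
    (hN4 : V π ((q ^ 3 - x * q' ^ 3 : ℤ) : Eis) < N) {r z : Eis}
    (hr : π ^ N ∣ r ^ 3 - (b : Eis)) (hz : π ^ N ∣ z ^ 3 - (x : Eis)) {t : Eis}
    (ht : t ^ 3 = 1) :
    ((p + t * r * q ≠ 0 ∧ V π (p + t * r * q) ≤ V π ((p ^ 3 + b * q ^ 3 : ℤ) : Eis)) ∧
    (p' + t * r * q' ≠ 0 ∧ V π (p' + t * r * q') ≤ V π ((p' ^ 3 + b * q' ^ 3 : ℤ) : Eis))) ∧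
    ((p - t * z * p' ≠ 0 ∧ V π (p - t * z * p') ≤ V π ((p ^ 3 - x * p' ^ 3 : ℤ) : Eis)) ∧
    (q - t * z * q' ≠ 0 ∧ V π (q - t * z * q') ≤ V π ((q ^ 3 - x * q' ^ 3 : ℤ) : Eis))) := by
  obtain ⟨c1, c2, -, -⟩ := consts hb hS
  have c3 : q ^ 3 - x * q' ^ 3 ≠ 0 := by
    intro h
    apply c2
    linear_combination -h
  have e1 : ∀ u v : ℤ, (u : Eis) + t * r * v = u + t * (r * v) := fun u v => by ring
  have e2 : ∀ u v : ℤ, (u : Eis) - t * z * v = u - t * (z * v) := fun u v => by ring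
  refine ⟨⟨?_, ?_⟩, ?_, ?_⟩
  · rw [e1]
    refine V_le (c' := (p : Eis) ^ 3 + (r * q) ^ 3) hπ (cast_ne hS.n1) hN1 ?_ (dvd_add3 ht)
    have e3 : (p : Eis) ^ 3 + (r * q) ^ 3 - ((p ^ 3 + b * q ^ 3 : ℤ) : Eis) =
        (r ^ 3 - b) * q ^ 3 := by
      push_cast
      ring
    rw [e3]
    exact Dvd.dvd.mul_right hr _
  · rw [e1]
    refine V_le (c' := (p' : Eis) ^ 3 + (r * q') ^ 3) hπ (cast_ne c1) hN2 ?_ (dvd_add3 ht)
    have e3 : (p' : Eis) ^ 3 + (r * q') ^ 3 - ((p' ^ 3 + b * q' ^ 3 : ℤ) : Eis) =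
        (r ^ 3 - b) * q' ^ 3 := by
      push_cast
      ring
    rw [e3]
    exact Dvd.dvd.mul_right hr _
  · rw [e2]
    refine V_le (c' := (p : Eis) ^ 3 - (z * p') ^ 3) hπ (cast_ne hS.n2) hN3 ?_ (dvd_sub3 ht)
    have e3 : (p : Eis) ^ 3 - (z * p') ^ 3 - ((p ^ 3 - x * p' ^ 3 : ℤ) : Eis) =
        (z ^ 3 - x) * (-p' ^ 3) := by
      push_cast
      ring
    rw [e3]
    exact Dvd.dvd.mul_right hz _
  · rw [e2]
    refine V_le (c' := (q : Eis) ^ 3 - (z * q') ^ 3) hπ (cast_ne c3) hN4 ?_ (dvd_sub3 ht)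
    have e3 : (q : Eis) ^ 3 - (z * q') ^ 3 - ((q ^ 3 - x * q' ^ 3 : ℤ) : Eis) =
        (z ^ 3 - x) * (-q' ^ 3) := by
      push_cast
      ring
    rw [e3]
    exact Dvd.dvd.mul_right hz _

theorem sum_dvd {π : Eis} {b x p q p' q' : ℤ} (hS : Sol b x p q p' q') {N : ℕ} {r z : Eis}
    (hr : π ^ N ∣ r ^ 3 - (b : Eis)) (hz : π ^ N ∣ z ^ 3 - (x : Eis)) :
    π ^ N ∣ (p : Eis) ^ 3 + (-(z * p')) ^ 3 + (r * q) ^ 3 + (-(z * (r * q'))) ^ 3 := by
  obtain ⟨u, hu⟩ := hr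
  obtain ⟨v, hv⟩ := hz
  have h1 : (p : Eis) ^ 3 + b * q ^ 3 = x * (p' ^ 3 + b * q' ^ 3) := by
    have := congrArg (fun k : ℤ => (k : Eis)) hS.eq
    push_cast at this
    exact this
  refine ⟨u * (q ^ 3 - z ^ 3 * q' ^ 3) - v * (p' ^ 3 + b * q' ^ 3), ?_⟩
  linear_combination ((q : Eis) ^ 3 - z ^ 3 * q' ^ 3) * hu -
    ((p' : Eis) ^ 3 + b * q' ^ 3) * hv + h1

/-- The identity for one cube root `z` of `x`, in the nondegenerate case. -/
theorem core {π : Eis} {s : Eis → Eis → ZMod 3} {e : ℕ} (hs : LSym π s e)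
    (b x p q p' q' : ℤ) (hb : b ≠ 0) (hx : x ≠ 0) (hS : Sol b x p q p' q') :
    ∃ K : ℕ, ∀ (M N : ℕ), K + 3 * M ≤ N → ∀ r z : Eis, π ^ N ∣ r ^ 3 - (b : Eis) →
      π ^ N ∣ z ^ 3 - (x : Eis) →
      ¬ π ^ M ∣ (p + w * (-(z * p')) + w * (r * q) + -(z * (r * q'))) → ∀ B : Eis, B ≠ 0 →
      s (p - w ^ 2 * z * p') B + s (q - w * z * q') B + s (p + w ^ 2 * r * q) B +
        s (p' + w * r * q') B + s (Gf p q p' q' 2) B =
      s (w ^ 2) B + s (p - w * z * p') B + s (q - w ^ 2 * z * q') B + s (p + w * r * q) B +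
        s (p' + w ^ 2 * r * q') B + s (Gf p q p' q' 1) B := by
  have hπ := hs.prime
  have he := hs.pos
  obtain ⟨c1, c2, cG1, cG2⟩ := consts hb hS
  refine ⟨2 * V π (b : Eis) + 2 * V π (x : Eis) + V π ((p ^ 3 + b * q ^ 3 : ℤ) : Eis) +
    V π ((p' ^ 3 + b * q' ^ 3 : ℤ) : Eis) + V π ((p ^ 3 - x * p' ^ 3 : ℤ) : Eis) +
    V π ((q ^ 3 - x * q' ^ 3 : ℤ) : Eis) + V π (Gf p q p' q' 2) + e + 1, ?_⟩
  intro M N hN r z hr hz hE B hB
  obtain ⟨⟨-, vQ1⟩, -, vH1⟩ := forms hπ hb hS (by omega) (by omega) (by omega) (by omega) hr hz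
    w_cube
  obtain ⟨⟨vP2, -⟩, vF2, -⟩ := forms hπ hb hS (by omega) (by omega) (by omega) (by omega) hr hz
    w2_cube
  have vr : r ≠ 0 ∧ V π r ≤ V π (b : Eis) := V_le (c' := r ^ 3) hπ (cast_ne hb)
    (by omega : V π (b : Eis) < N) hr (dvd_pow_self r three_ne_zero)
  have vz : z ≠ 0 ∧ V π z ≤ V π (x : Eis) := V_le (c' := z ^ 3) hπ (cast_ne hx)
    (by omega : V π (x : Eis) < N) hz (dvd_pow_self z three_ne_zero)
  obtain ⟨E1, hE1⟩ : ∃ E1 : Eis, E1 = p + w * (-(z * p')) + w * (r * q) + -(z * (r * q')) :=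
    ⟨_, rfl⟩
  obtain ⟨E2, hE2⟩ : ∃ E2 : Eis,
      E2 = p + w ^ 2 * (-(z * p')) + w ^ 2 * (r * q) + -(z * (r * q')) := ⟨_, rfl⟩
  rw [← hE1] at hE
  have hE0 : E1 ≠ 0 := by
    rintro h
    rw [h] at hE
    exact hE (dvd_zero _)
  have hEV : V π E1 < M := by
    by_contra hcon
    exact hE (dvd_V (not_lt.mp hcon))
  have hkey := (sum_dvd hS hr hz).trans
    (key w_rel (p : Eis) (-(z * p')) (r * q) (-(z * (r * q'))))
  rw [← hE1, ← hE2] at hkey
  obtain ⟨F2, hF2⟩ : ∃ F2 : Eis, F2 = p - w ^ 2 * z * p' := ⟨_, rfl⟩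
  obtain ⟨H1, hH1⟩ : ∃ H1 : Eis, H1 = q - w * z * q' := ⟨_, rfl⟩
  obtain ⟨P2, hP2⟩ : ∃ P2 : Eis, P2 = p + w ^ 2 * r * q := ⟨_, rfl⟩
  obtain ⟨Q1, hQ1⟩ : ∃ Q1 : Eis, Q1 = p' + w * r * q' := ⟨_, rfl⟩
  obtain ⟨F1, hF1⟩ : ∃ F1 : Eis, F1 = p - w * z * p' := ⟨_, rfl⟩
  obtain ⟨H2, hH2⟩ : ∃ H2 : Eis, H2 = q - w ^ 2 * z * q' := ⟨_, rfl⟩
  obtain ⟨P1, hP1⟩ : ∃ P1 : Eis, P1 = p + w * r * q := ⟨_, rfl⟩
  obtain ⟨Q2, hQ2⟩ : ∃ Q2 : Eis, Q2 = p' + w ^ 2 * r * q' := ⟨_, rfl⟩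
  obtain ⟨G1, hG1⟩ : ∃ G1 : Eis, G1 = Gf p q p' q' 1 := ⟨_, rfl⟩
  obtain ⟨G2, hG2⟩ : ∃ G2 : Eis, G2 = Gf p q p' q' 2 := ⟨_, rfl⟩
  have eL : ((p : Eis) + w ^ 2 * (-(z * p'))) * (r * q + w * (-(z * (r * q')))) *
      (((p : Eis) + w ^ 2 * (r * q)) * (-(z * p') + w * (-(z * (r * q'))))) *
      (-(z * p') * (r * q) - w ^ 2 * ((p : Eis) * (-(z * (r * q'))))) * E1 ^ 3 =
      F2 * (r * H1) * (P2 * (-(z * Q1))) * (-(z * (r * G2))) * E1 ^ 3 := by
    rw [hF2, hH1, hP2, hQ1, hG2]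
    unfold Gf
    ring
  have eR : w ^ 2 * (((p : Eis) + w * (-(z * p'))) * (r * q + w ^ 2 * (-(z * (r * q')))) *
      (((p : Eis) + w * (r * q)) * (-(z * p') + w ^ 2 * (-(z * (r * q'))))) *
      (-(z * p') * (r * q) - w * ((p : Eis) * (-(z * (r * q'))))) * E2 ^ 3) =
      w ^ 2 * (F1 * (r * H2) * (P1 * (-(z * Q2))) * (-(z * (r * G1))) * E2 ^ 3) := by
    rw [hF1, hH2, hP1, hQ2, hG1]
    unfold Gf
    ring
  rw [eL, eR] at hkey
  rw [← hF2, ← hH1, ← hP2, ← hQ1, ← hF1, ← hH2, ← hP1, ← hQ2, ← hG1, ← hG2]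
  rw [← hF2] at vF2
  rw [← hH1] at vH1
  rw [← hP2] at vP2
  rw [← hQ1] at vQ1
  rw [← hG2] at hN cG2
  obtain ⟨hr0, hrV⟩ := vr
  obtain ⟨hz0, hzV⟩ := vz
  obtain ⟨hF0, hFV⟩ := vF2
  obtain ⟨hH0, hHV⟩ := vH1
  obtain ⟨hP0, hPV⟩ := vP2
  obtain ⟨hQ0, hQV⟩ := vQ1
  have n1 := mul_ne_zero hr0 hH0
  have n2 := mul_ne_zero hF0 n1
  have n3 := mul_ne_zero hz0 hQ0
  have n3' := neg_ne_zero.mpr n3
  have n4 := mul_ne_zero hP0 n3'
  have n5 := mul_ne_zero n2 n4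
  have n6 := mul_ne_zero hr0 cG2
  have n7 := mul_ne_zero hz0 n6
  have n7' := neg_ne_zero.mpr n7
  have n8 := mul_ne_zero n5 n7'
  have n9 := pow_ne_zero 3 hE0
  have n10 := mul_ne_zero n8 n9
  obtain ⟨L, hL⟩ : ∃ L : Eis, L = F2 * (r * H1) * (P2 * (-(z * Q1))) * (-(z * (r * G2))) *
      E1 ^ 3 := ⟨_, rfl⟩
  have hLV : V π L + e ≤ N := by
    rw [hL, V_mul hπ n8 n9, V_mul hπ n5 n7', V_mul hπ n2 n4, V_mul hπ hF0 n1, V_mul hπ hr0 hH0,
      V_mul hπ hP0 n3', V_neg, V_mul hπ hz0 hQ0, V_neg, V_mul hπ hz0 n6, V_mul hπ hr0 cG2,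
      V_pow hπ hE0]
    omega
  rw [← hL] at hkey n10
  obtain ⟨R, hR⟩ : ∃ R : Eis, R = w ^ 2 * (F1 * (r * H2) * (P1 * (-(z * Q2))) *
      (-(z * (r * G1))) * E2 ^ 3) := ⟨_, rfl⟩
  rw [← hR] at hkey
  have hd : π ^ (V π L + e) ∣ R - L := (pow_dvd_pow π hLV).trans hkey
  have hR0 : R ≠ 0 := (V_le hπ n10 (by omega) hd (dvd_refl R)).1
  have hcont := hs.cont L R B n10 hB hd
  rw [hR] at hR0
  have m1 := right_ne_zero_of_mul hR0
  have m0 := left_ne_zero_of_mul hR0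
  have m2 := right_ne_zero_of_mul m1
  have m3 := left_ne_zero_of_mul m1
  have m4 := right_ne_zero_of_mul m3
  have m5 := left_ne_zero_of_mul m3
  have m6 := right_ne_zero_of_mul m5
  have m7 := left_ne_zero_of_mul m5
  have m8 := right_ne_zero_of_mul m7
  have m9 := left_ne_zero_of_mul m7
  have m10 := right_ne_zero_of_mul m8
  have m11 := left_ne_zero_of_mul m6
  have m12 := right_ne_zero_of_mul m6
  have m13 := neg_ne_zero.mp m12
  have m14 := right_ne_zero_of_mul m13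
  have m15 := neg_ne_zero.mp m4
  have m16 := right_ne_zero_of_mul m15
  have m17 := right_ne_zero_of_mul m16
  have hE20 : E2 ≠ 0 := by
    intro h
    rw [h] at m2
    exact m2 (zero_pow three_ne_zero)
  have hsL : s L B = s F2 B + (s r B + s H1 B) + (s P2 B + (s z B + s Q1 B)) +
      (s z B + (s r B + s G2 B)) := by
    rw [hL, hs.mul _ _ _ n8 n9 hB, hs.mul _ _ _ n5 n7' hB, hs.mul _ _ _ n2 n4 hB,
      hs.mul _ _ _ hF0 n1 hB, hs.mul _ _ _ hr0 hH0 hB, hs.mul _ _ _ hP0 n3' hB,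
      s_neg hs hB n3, hs.mul _ _ _ hz0 hQ0 hB, s_neg hs hB n7, hs.mul _ _ _ hz0 n6 hB,
      hs.mul _ _ _ hr0 cG2 hB, s_cube hs hB hE0, add_zero]
  have hsR : s R B = s (w ^ 2) B + (s F1 B + (s r B + s H2 B) + (s P1 B + (s z B + s Q2 B)) +
      (s z B + (s r B + s G1 B))) := by
    rw [hR, hs.mul _ _ _ m0 m1 hB, hs.mul _ _ _ m3 m2 hB, hs.mul _ _ _ m5 m4 hB,
      hs.mul _ _ _ m7 m6 hB, hs.mul _ _ _ m9 m8 hB, hs.mul _ _ _ hr0 m10 hB,
      hs.mul _ _ _ m11 m12 hB, s_neg hs hB m13, hs.mul _ _ _ hz0 m14 hB, s_neg hs hB m15,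
      hs.mul _ _ _ hz0 m16 hB, hs.mul _ _ _ hr0 m17 hB, s_cube hs hB hE20, add_zero]
  rw [hsL, hsR] at hcont
  linear_combination -hcont

theorem w_sub_ne : (w - 1 : Eis) ≠ 0 := by
  intro h
  have := congrArg Eis.im h
  simp at this

/-- Both roots `z`, `w z` cannot be degenerate. -/
theorem not_both {π : Eis} (hπ : Prime π)
    (b x p q p' q' : ℤ) (hb : b ≠ 0) (hx : x ≠ 0) (hS : Sol b x p q p' q') :
    ∃ M0 : ℕ, ∀ N : ℕ, M0 ≤ N → ∀ r z : Eis, π ^ N ∣ r ^ 3 - (b : Eis) →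
      π ^ N ∣ z ^ 3 - (x : Eis) →
      π ^ M0 ∣ (p + w * (-(z * p')) + w * (r * q) + -(z * (r * q'))) →
      π ^ M0 ∣ (p + w * (-((w * z) * p')) + w * (r * q) + -((w * z) * (r * q'))) → False := by
  obtain ⟨c1, c2, cG1, cG2⟩ := consts hb hS
  have h30 : (3 : Eis) ≠ 0 := by
    have h := cast_ne (n := 3) (by norm_num)
    rwa [Int.cast_ofNat] at h
  refine ⟨(V π (3 : Eis) + V π (x : Eis) + V π (b : Eis) + V π (Gf p q p' q' 1)) +
    (V π (w - 1 : Eis) + V π (x : Eis) + V π (b : Eis) + V π (p' : Eis) + V π (q' : Eis) + 1),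
    ?_⟩
  intro N hN r z hr hz h1 h2
  obtain ⟨hr0, hrV⟩ : r ≠ 0 ∧ V π r ≤ V π (b : Eis) := V_le (c' := r ^ 3) hπ (cast_ne hb)
    (by omega : V π (b : Eis) < N) hr (dvd_pow_self r three_ne_zero)
  obtain ⟨hz0, hzV⟩ : z ≠ 0 ∧ V π z ≤ V π (x : Eis) := V_le (c' := z ^ 3) hπ (cast_ne hx)
    (by omega : V π (x : Eis) < N) hz (dvd_pow_self z three_ne_zero)
  have hw0 : (w : Eis) ≠ 0 := w_ne
  have hVw : V π (w : Eis) = 0 := by
    apply V_eq_zero
    intro h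
    have h3 : π ∣ 1 := by
      rw [← w_cube]
      exact h.trans (dvd_pow_self w three_ne_zero)
    exact hπ.not_isUnit (isUnit_of_dvd_one h3)
  have hwz : π ^ N ∣ (w * z) ^ 3 - (x : Eis) := by
    have e1 : (w * z) ^ 3 = z ^ 3 := by
      rw [mul_pow, w_cube, one_mul]
    rw [e1]
    exact hz
  -- one degenerate root
  have key1 : ∀ y : Eis, y ≠ 0 → V π y ≤ V π (x : Eis) → π ^ N ∣ y ^ 3 - (x : Eis) →
      ∀ M : ℕ, M ≤ N → π ^ M ∣ (p + w * (-(y * p')) + w * (r * q) + -(y * (r * q'))) →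
      π ^ (M - (V π (3 : Eis) + V π (x : Eis) + V π (b : Eis) + V π (Gf p q p' q' 1))) ∣
        (-(y * p') + r * q) ∧
      π ^ (M - (V π (3 : Eis) + V π (x : Eis) + V π (b : Eis) + V π (Gf p q p' q' 1))) ∣
        ((p : Eis) - y * (r * q')) := by
    intro y hy hyV hyx M hM hE
    have e1 := degen w_cube (p : Eis) (-(y * p')) (r * q) (-(y * (r * q')))
    have e2 : π ^ M ∣ 3 * (-(y * p') + r * q) *
        (-(y * p') * (r * q) - w * ((p : Eis) * (-(y * (r * q'))))) := by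
      rw [e1]
      exact dvd_sub (Dvd.dvd.mul_right hE _) ((pow_dvd_pow π hM).trans (sum_dvd hS hr hyx))
    have e3 : 3 * (-(y * p') + r * q) *
        (-(y * p') * (r * q) - w * ((p : Eis) * (-(y * (r * q'))))) =
        (-(3 * (y * (r * Gf p q p' q' 1)))) * (-(y * p') + r * q) := by
      unfold Gf
      ring
    rw [e3] at e2
    have f1 := mul_ne_zero hr0 cG1
    have f2 := mul_ne_zero hy f1
    have f3 := mul_ne_zero h30 f2
    have e4 := dvd_cancel hπ (neg_ne_zero.mpr f3) (K := V π (3 : Eis) + V π (x : Eis) +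
      V π (b : Eis) + V π (Gf p q p' q' 1)) (by
        rw [V_neg, V_mul hπ h30 f2, V_mul hπ hy f1, V_mul hπ hr0 cG1]
        omega) e2
    refine ⟨e4, ?_⟩
    have e5 : (p : Eis) - y * (r * q') =
        (p + w * (-(y * p')) + w * (r * q) + -(y * (r * q'))) -
          w * (-(y * p') + r * q) := by ring
    rw [e5]
    exact dvd_sub ((pow_dvd_pow π (by omega)).trans hE) (Dvd.dvd.mul_left e4 _)
  obtain ⟨a1, a2⟩ := key1 z hz0 hzV hz _ hN h1
  obtain ⟨a3, a4⟩ := key1 (w * z) (mul_ne_zero hw0 hz0)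
    (by rw [V_mul hπ hw0 hz0, hVw, zero_add]; exact hzV) hwz _ hN h2
  rw [Nat.add_sub_cancel_left] at a1 a2 a3 a4
  have b1 : π ^ (V π (w - 1 : Eis) + V π (x : Eis) + V π (b : Eis) + V π (p' : Eis) +
      V π (q' : Eis) + 1) ∣ (w - 1) * (z * p') := by
    have := dvd_sub a1 a3
    have e1 : -(z * (p' : Eis)) + r * q - (-(w * z * p') + r * q) = (w - 1) * (z * p') := by ring
    rwa [e1] at this
  have b2 : π ^ (V π (w - 1 : Eis) + V π (x : Eis) + V π (b : Eis) + V π (p' : Eis) +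
      V π (q' : Eis) + 1) ∣ (w - 1) * (z * (r * q')) := by
    have := dvd_sub a2 a4
    have e1 : (p : Eis) - z * (r * q') - (p - w * z * (r * q')) = (w - 1) * (z * (r * q')) := by
      ring
    rwa [e1] at this
  by_cases hp : p' = 0
  · have hq : q' ≠ 0 := by
      rintro rfl
      apply c1
      rw [hp]
      ring
    have hqE := cast_ne hq
    have f1 := mul_ne_zero hr0 hqE
    have f2 := mul_ne_zero hz0 f1
    have h3 := le_V hπ (mul_ne_zero w_sub_ne f2) b2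
    rw [V_mul hπ w_sub_ne f2, V_mul hπ hz0 f1, V_mul hπ hr0 hqE] at h3
    omega
  · have hpE := cast_ne hp
    have f2 := mul_ne_zero hz0 hpE
    have h3 := le_V hπ (mul_ne_zero w_sub_ne f2) b1
    rw [V_mul hπ w_sub_ne f2, V_mul hπ hz0 hpE] at h3
    omega

end IF1

open _root_.Pool.Agent.PT.IF1 in
/-- IF1: `α_b α_x = w⁻¹ k_0` modulo cubes. -/
theorem IF1_thm : IF1 := by
  intro π s e hs b x p q p' q' hb hx hS
  have hπ := hs.prime
  have he := hs.pos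
  obtain ⟨c1, c2, cG1, cG2⟩ := consts hb hS
  obtain ⟨K, hK⟩ := core hs b x p q p' q' hb hx hS
  obtain ⟨M0, hM0⟩ := not_both hπ b x p q p' q' hb hx hS
  refine ⟨K + 3 * M0 + M0 + V π (b : Eis) + V π ((p ^ 3 + b * q ^ 3 : ℤ) : Eis) +
    V π ((p' ^ 3 + b * q' ^ 3 : ℤ) : Eis) + V π ((p ^ 3 - x * p' ^ 3 : ℤ) : Eis) +
    V π ((q ^ 3 - x * q' ^ 3 : ℤ) : Eis) + e + 1, ?_⟩
  intro r ξ hr hξ B hB
  obtain ⟨N, hN⟩ : ∃ N : ℕ, N = K + 3 * M0 + M0 + V π (b : Eis) +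
    V π ((p ^ 3 + b * q ^ 3 : ℤ) : Eis) +
    V π ((p' ^ 3 + b * q' ^ 3 : ℤ) : Eis) + V π ((p ^ 3 - x * p' ^ 3 : ℤ) : Eis) +
    V π ((q ^ 3 - x * q' ^ 3 : ℤ) : Eis) + e + 1 := ⟨_, rfl⟩
  rw [← hN] at hr hξ
  have hw1 := w_cube
  have forms1 := fun (t : Eis) (ht : t ^ 3 = 1) => forms hπ hb hS (N := N) (by omega) (by omega)
    (by omega) (by omega) hr hξ ht
  obtain ⟨⟨⟨nP0, -⟩, nQ0, -⟩, ⟨nF0, -⟩, nH0, -⟩ := forms1 1 (one_pow 3)
  obtain ⟨⟨⟨nP1, -⟩, nQ1, -⟩, ⟨nF1, -⟩, nH1, -⟩ := forms1 w w_cube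
  obtain ⟨⟨⟨nP2, -⟩, nQ2, -⟩, ⟨nF2, -⟩, nH2, -⟩ := forms1 (w ^ 2) w2_cube
  -- the main equation
  have hmain : s (p - w ^ 2 * ξ * p') B + s (q - w * ξ * q') B + s (p + w ^ 2 * r * q) B +
        s (p' + w * r * q') B + s (Gf p q p' q' 2) B =
      s (w ^ 2) B + s (p - w * ξ * p') B + s (q - w ^ 2 * ξ * q') B + s (p + w * r * q) B +
        s (p' + w ^ 2 * r * q') B + s (Gf p q p' q' 1) B := by
    by_cases h1 : π ^ M0 ∣ ((p : Eis) + w * (-((ξ : Eis) * p')) + w * ((r : Eis) * q) +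
        -((ξ : Eis) * (r * q')))
    swap
    · exact hK M0 N (by omega) r ξ hr hξ h1 B hB
    by_cases h2 : π ^ M0 ∣ ((p : Eis) + w * (-((w * (ξ : Eis)) * p')) + w * ((r : Eis) * q) +
        -((w * (ξ : Eis)) * (r * q')))
    · exact absurd (hM0 N (by omega) r ξ hr hξ h1 h2) id
    have hwz : π ^ N ∣ (w * (ξ : Eis)) ^ 3 - (x : Eis) := by
      have e1 : (w * (ξ : Eis)) ^ 3 = (ξ : Eis) ^ 3 := by
        rw [mul_pow, w_cube, one_mul]
      rw [e1]
      exact hξ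
    have h3 := hK M0 N (by omega) r (w * ξ) hr hwz h2 B hB
    have e1 : (p : Eis) - w ^ 2 * (w * ξ) * p' = p - 1 * ξ * p' := by
      linear_combination (-(ξ : Eis) * p') * hw1
    have e2 : (q : Eis) - w * (w * ξ) * q' = q - w ^ 2 * ξ * q' := by ring
    have e3 : (p : Eis) - w * (w * ξ) * p' = p - w ^ 2 * ξ * p' := by ring
    have e4 : (q : Eis) - w ^ 2 * (w * ξ) * q' = q - 1 * ξ * q' := by
      linear_combination (-(ξ : Eis) * q') * hw1
    rw [e1, e2, e3, e4] at h3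
    -- the sums
    have hrel := w_rel
    have g1 : s (p - 1 * ξ * p') B + s (p - w * ξ * p') B + s (p - w ^ 2 * ξ * p') B =
        s ((p ^ 3 - x * p' ^ 3 : ℤ) : Eis) B := by
      rw [← hs.mul _ _ _ nF0 nF1 hB, ← hs.mul _ _ _ (mul_ne_zero nF0 nF1) nF2 hB]
      apply hs.cont _ _ _ (cast_ne hS.n2) hB
      have e5 : ((p : Eis) - 1 * ξ * p') * (p - w * ξ * p') * (p - w ^ 2 * ξ * p') -
          ((p ^ 3 - x * p' ^ 3 : ℤ) : Eis) = ((ξ : Eis) ^ 3 - x) * (-p' ^ 3) := by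
        push_cast
        linear_combination (-(p : Eis) ^ 2 * (ξ * p') + w * p * (ξ * p') ^ 2 -
          (w - 1) * ((ξ : Eis) * p') ^ 3) * hrel
      rw [e5]
      exact Dvd.dvd.mul_right ((pow_dvd_pow π (by omega)).trans hξ) _
    have c3 : q ^ 3 - x * q' ^ 3 ≠ 0 := by
      intro h
      apply c2
      linear_combination -h
    have g2 : s (q - 1 * ξ * q') B + s (q - w * ξ * q') B + s (q - w ^ 2 * ξ * q') B =
        s ((q ^ 3 - x * q' ^ 3 : ℤ) : Eis) B := by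
      rw [← hs.mul _ _ _ nH0 nH1 hB, ← hs.mul _ _ _ (mul_ne_zero nH0 nH1) nH2 hB]
      apply hs.cont _ _ _ (cast_ne c3) hB
      have e5 : ((q : Eis) - 1 * ξ * q') * (q - w * ξ * q') * (q - w ^ 2 * ξ * q') -
          ((q ^ 3 - x * q' ^ 3 : ℤ) : Eis) = ((ξ : Eis) ^ 3 - x) * (-q' ^ 3) := by
        push_cast
        linear_combination (-(q : Eis) ^ 2 * (ξ * q') + w * q * (ξ * q') ^ 2 -
          (w - 1) * ((ξ : Eis) * q') ^ 3) * hrel
      rw [e5]
      exact Dvd.dvd.mul_right ((pow_dvd_pow π (by omega)).trans hξ) _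
    have g3 : s ((p ^ 3 - x * p' ^ 3 : ℤ) : Eis) B = s ((q ^ 3 - x * q' ^ 3 : ℤ) : Eis) B := by
      have e5 : ((p ^ 3 - x * p' ^ 3 : ℤ) : Eis) = -((b : Eis) *
          ((q ^ 3 - x * q' ^ 3 : ℤ) : Eis)) := by
        have e6 : (p ^ 3 - x * p' ^ 3 : ℤ) = -(b * (q ^ 3 - x * q' ^ 3)) := by
          have h6 := hS.eq
          linear_combination h6
        rw [e6]
        push_cast
        ring
      have hbE := cast_ne hb
      have hcE := cast_ne c3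
      rw [e5, s_neg hs hB (mul_ne_zero hbE hcE), hs.mul _ _ _ hbE hcE hB]
      have e7 : s (b : Eis) B = 0 := by
        have hr0 : (r : Eis) ≠ 0 := (V_le (c' := (r : Eis) ^ 3) hπ hbE
          (by omega : V π (b : Eis) < N) hr (dvd_pow_self (r : Eis) three_ne_zero)).1
        rw [← hs.cont (b : Eis) ((r : Eis) ^ 3) B hbE hB ((pow_dvd_pow π (by omega)).trans hr),
          s_cube hs hB hr0]
      rw [e7, zero_add]
    have t1 := three_mul_eq (s ((p : Eis) - w ^ 2 * ξ * p') B)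
    have t2 := three_mul_eq (s ((q : Eis) - w ^ 2 * ξ * q') B)
    linear_combination h3 + t1 - t2 - g1 + g2 - g3
  -- conclusion
  have f1 : Lf p q 2 r = p + w ^ 2 * r * q := by
    unfold Lf
    ring
  have f2 : Lf p' q' 1 r = p' + w * r * q' := by
    unfold Lf
    ring
  have f3 : Lf p q 1 r = p + w * r * q := by
    unfold Lf
    ring
  have f4 : Lf p' q' 2 r = p' + w ^ 2 * r * q' := by
    unfold Lf
    ring
  have f5 : Lf p (-p') 2 ξ = p - w ^ 2 * ξ * p' := by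
    unfold Lf
    push_cast
    ring
  have f6 : Lf (-q) q' 1 ξ = -(q - w * ξ * q') := by
    unfold Lf
    push_cast
    ring
  have f7 : Lf p (-p') 1 ξ = p - w * ξ * p' := by
    unfold Lf
    push_cast
    ring
  have f8 : Lf (-q) q' 2 ξ = -(q - w ^ 2 * ξ * q') := by
    unfold Lf
    push_cast
    ring
  unfold AS
  rw [f1, f2, f3, f4, f5, f6, f7, f8, hs.skew _ _ nP2 hB, hs.skew _ _ nQ1 hB,
    hs.skew _ _ nP1 hB, hs.skew _ _ nQ2 hB, hs.skew _ _ nF2 hB,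
    hs.skew _ _ (neg_ne_zero.mpr nH1) hB, hs.skew _ _ nF1 hB,
    hs.skew _ _ (neg_ne_zero.mpr nH2) hB, s_neg hs hB nH1, s_neg hs hB nH2,
    hs.skew _ _ cG1 hB, hs.skew _ _ cG2 hB]
  have hw2 : s (w ^ 2) B = s w B + s w B := by
    rw [pow_two, hs.mul _ _ _ w_ne w_ne hB]
  rw [hw2] at hmain
  have t3 := three_mul_eq (s w B)
  linear_combination -hmain - t3

end Pool.Agent.PT

end
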