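import Mathlib
import Pool.Agent.PTWX.C09
import Pool.Agent.PTWX.C10
import Pool.Agent.PTWX.C15
import Pool.Agent.PTWX.C18
import Pool.Agent.PTWX.C19

/-! Parts: PT.NDESC, PT.ENF, Lib_helper18.CubStep0, CubeRank.Lift, Lib_helper84.Cub.StepThree, CubeRank.GLift, CubeRank.KapRep, CubeRank.GKapRep -/

namespace Pool.Agent.PT.ENF
end Pool.Agent.PT.ENF

namespace Pool.Agent.Lib_helper18.CubStep0
end Pool.Agent.Lib_helper18.CubStep0

namespace Pool.Agent.CubeRank.KapRepAux
end Pool.Agent.CubeRank.KapRepAux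

namespace Pool.Agent.CubeRank.GKapRepAux
end Pool.Agent.CubeRank.GKapRepAux

section

/-!
# NDESC: descent to the real cubic field
-/

set_option linter.unusedSectionVars false

open NumberField IsDedekindDomain Finset
open scoped nonZeroDivisors Pointwise

namespace Pool.Agent.PT.NDESC

open Pool.Agent.Lib_helper18 Pool.Agent.Lib_helper18.Eis Pool.Agent.Lib_helper84.Cub

variable {x : ℤ} {L : Type} [Field L] [NumberField L] {ι : Eis →+* L} {θ : L}
  {σ c : L ≃ₐ[ℚ] L}

theorem ww (ι : Eis →+* L) : ι w * ι w * ι w = 1 := by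
  have h : w * w * w = 1 := by
    have h1 := w_cube
    rw [← h1]
    ring
  rw [← map_mul, ← map_mul, h, map_one]

theorem wrel (ι : Eis →+* L) : ι w * ι w + ι w + 1 = 0 := by
  have h := congrArg ι w_rel
  rw [map_add, map_add, map_pow, map_one, map_zero, pow_two] at h
  exact h

theorem cw (h : CubF x L ι θ σ c) : c (ι w) = ι w * ι w := by
  rw [h.cι, conj_w, pow_two, map_mul]

theorem cc (h : CubF x L ι θ σ c) (z : L) : c (c z) = z := by
  obtain ⟨m, a, b, d, hm, e⟩ := h.rep z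
  have hm0 : (m : L) ≠ 0 := by exact_mod_cast hm
  have h1 : c (c ((m : L) * z)) = (m : L) * z := by
    rw [e]
    simp only [map_add, map_mul, map_pow, h.cι, h.cθ, conj_conj]
  rw [map_mul, map_mul, map_intCast, map_intCast] at h1
  exact mul_left_cancel₀ hm0 h1

theorem sc (h : CubF x L ι θ σ c) (z : L) : σ (c z) = c (σ (σ z)) := by
  obtain ⟨m, a, b, d, hm, e⟩ := h.rep z
  have hm0 : (m : L) ≠ 0 := by exact_mod_cast hm
  have h1 : σ (c ((m : L) * z)) = c (σ (σ ((m : L) * z))) := by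
    rw [e]
    simp only [map_add, map_mul, map_pow, h.cι, h.cθ, h.sι, h.sθ, conj_w]
    have h2 := ww ι
    have h3 : ι w ^ 2 * (ι w ^ 2 * θ) = ι w * θ := by
      linear_combination (ι w * θ) * h2
    rw [h3]
  simp only [map_mul, map_intCast] at h1
  exact mul_left_cancel₀ hm0 h1

theorem sss (h : CubF x L ι θ σ c) (z : L) : σ (σ (σ z)) = z := by
  obtain ⟨m, a, b, d, hm, e⟩ := h.rep z
  have hm0 : (m : L) ≠ 0 := by exact_mod_cast hm
  have h1 : σ (σ (σ ((m : L) * z))) = (m : L) * z := by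
    rw [e]
    simp only [map_add, map_mul, map_pow, h.sι, h.sθ]
    have h2 := ww ι
    have h3 : ι w * (ι w * (ι w * θ)) = θ := by
      linear_combination θ * h2
    rw [h3]
  simp only [map_mul, map_intCast] at h1
  exact mul_left_cancel₀ hm0 h1

theorem real_of_conj {a : Eis} (h : conj a = a) : a = ((a.re : ℤ) : Eis) := by
  have h1 := congrArg Eis.im h
  rw [conj_im] at h1
  ext
  · rw [intCast_re]
  · rw [intCast_im]
    omega

theorem ι_int (ι : Eis →+* L) (n : ℤ) : ι (n : Eis) = (n : L) := map_intCast ι n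

/-- the norm of `γ + δ θ` -/
theorem norm_lin (h : CubF x L ι θ σ c) (γ δ : ℤ) :
    ((γ : L) + δ * θ) * σ ((γ : L) + δ * θ) * σ (σ ((γ : L) + δ * θ)) =
      ((γ ^ 3 + x * δ ^ 3 : ℤ) : L) := by
  simp only [map_add, map_mul, map_intCast, h.sθ, h.sι]
  have h1 := ww ι
  have h2 := wrel ι
  have h3 := h.cube
  push_cast
  rw [← h3]
  linear_combination ((γ : L) ^ 2 * δ * θ + γ * δ ^ 2 * θ ^ 2 * ι w) * h2 +
    (δ : L) ^ 3 * θ ^ 3 * h1

end Pool.Agent.PT.NDESC

namespace Pool.Agent.PT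

open Pool.Agent.Lib_helper18 Pool.Agent.Lib_helper18.Eis Pool.Agent.Lib_helper84.Cub

theorem NDESC_thm : NDESC := by
  intro x L _ _ ι θ σ c _ h y z hy hz hN
  have hy0 : (y : L) ≠ 0 := by exact_mod_cast hy
  -- the element fixed by `c`
  obtain ⟨u, hu⟩ : ∃ u : L, u = z * c z := ⟨_, rfl⟩
  have hcu : c u = u := by
    rw [hu, map_mul, NDESC.cc h, mul_comm]
  have hNu : u * σ u * σ (σ u) = (y : L) ^ 2 := by
    have h1 : c (z * σ z * σ (σ z)) = (y : L) := by
      rw [hN, map_intCast]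
    rw [map_mul, map_mul] at h1
    have h2 : σ (σ (c z)) = c (σ z) := by
      rw [NDESC.sc h z, NDESC.sc h (σ (σ z)), NDESC.sss h]
    rw [hu, map_mul, map_mul, h2, NDESC.sc h z, pow_two]
    calc z * c z * (σ z * c (σ (σ z))) * (σ (σ z) * c (σ z))
        = (z * σ z * σ (σ z)) * (c z * c (σ z) * c (σ (σ z))) := by ring
      _ = (y : L) * y := by rw [hN, h1]
  -- its coordinates
  obtain ⟨m, a, b, d, hm, e⟩ := h.rep u
  have hm0 : (m : L) ≠ 0 := by exact_mod_cast hm
  have h1 : ι (conj a - a) + ι (conj b - b) * θ + ι (conj d - d) * θ ^ 2 = 0 := by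
    have h2 : c ((m : L) * u) = (m : L) * u := by
      rw [map_mul, map_intCast, hcu]
    rw [e] at h2
    simp only [map_add, map_mul, map_pow, h.cι, h.cθ] at h2
    simp only [map_sub]
    linear_combination h2
  obtain ⟨ha, hb, hd⟩ := h.lin _ _ _ h1
  have ha' := NDESC.real_of_conj (sub_eq_zero.1 ha)
  have hb' := NDESC.real_of_conj (sub_eq_zero.1 hb)
  have hd' := NDESC.real_of_conj (sub_eq_zero.1 hd)
  obtain ⟨a0, ha0⟩ : ∃ n : ℤ, a = (n : Eis) := ⟨_, ha'⟩
  obtain ⟨b0, hb0⟩ : ∃ n : ℤ, b = (n : Eis) := ⟨_, hb'⟩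
  obtain ⟨d0, hd0⟩ : ∃ n : ℤ, d = (n : Eis) := ⟨_, hd'⟩
  rw [ha0, hb0, hd0, NDESC.ι_int, NDESC.ι_int, NDESC.ι_int] at e
  -- killing the coefficient of `θ ^ 2`
  obtain ⟨γ, δ, hγδ, h2⟩ : ∃ γ δ : ℤ, ¬ (γ = 0 ∧ δ = 0) ∧ b0 * δ + d0 * γ = 0 := by
    by_cases h3 : b0 = 0 ∧ d0 = 0
    · refine ⟨1, 0, by simp, ?_⟩
      rw [h3.1, h3.2]
      ring
    · refine ⟨b0, -d0, ?_, by ring⟩
      rintro ⟨h4, h5⟩
      exact h3 ⟨h4, by omega⟩
  have h3 : ((m : L) * u) * ((γ : L) + δ * θ) =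
      ((a0 * γ + d0 * δ * x : ℤ) : L) + ((a0 * δ + b0 * γ : ℤ) : L) * θ := by
    rw [e]
    have h4 : (b0 : L) * δ + d0 * γ = 0 := by exact_mod_cast congrArg (Int.cast (R := L)) h2
    have h5 := h.cube
    push_cast
    linear_combination θ ^ 2 * h4 + (d0 : L) * δ * h5
  have h4 : (m : L) ^ 3 * (y : L) ^ 2 * ((γ ^ 3 + x * δ ^ 3 : ℤ) : L) =
      (((a0 * γ + d0 * δ * x) ^ 3 + x * (a0 * δ + b0 * γ) ^ 3 : ℤ) : L) := by
    rw [← NDESC.norm_lin h, ← NDESC.norm_lin h, ← h3]
    simp only [map_mul, map_intCast]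
    linear_combination (-(m : L) ^ 3 * (((γ : L) + δ * θ) * σ ((γ : L) + δ * θ) *
      σ (σ ((γ : L) + δ * θ)))) * hNu
  have h5 : γ ^ 3 + x * δ ^ 3 ≠ 0 := by
    intro h0
    have h6 := NDESC.norm_lin h γ δ
    rw [h0, Int.cast_zero] at h6
    have h7 : (γ : L) + δ * θ = 0 := by
      rcases mul_eq_zero.1 h6 with h8 | h8
      · rcases mul_eq_zero.1 h8 with h9 | h9
        · exact h9
        · exact (map_eq_zero σ).1 h9
      · exact (map_eq_zero σ).1 ((map_eq_zero σ).1 h8)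
    have h8 := h.lin (γ : Eis) (δ : Eis) 0 (by
      rw [NDESC.ι_int, NDESC.ι_int, map_zero, zero_mul, add_zero]
      exact h7)
    refine hγδ ⟨?_, ?_⟩
    · have h9 := congrArg Eis.re h8.1
      rwa [intCast_re, zero_re] at h9
    · have h9 := congrArg Eis.re h8.2.1
      rwa [intCast_re, zero_re] at h9
  have h6 : m ^ 3 * y ^ 2 * (γ ^ 3 + x * δ ^ 3) =
      (a0 * γ + d0 * δ * x) ^ 3 + x * (a0 * δ + b0 * γ) ^ 3 := by
    exact_mod_cast h4
  refine ⟨y * m * γ, y * m * δ, a0 * γ + d0 * δ * x, a0 * δ + b0 * γ, ?_, ?_⟩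
  · rw [← h6]
    ring
  · have h7 : (y * m * γ) ^ 3 + x * (y * m * δ) ^ 3 = y ^ 3 * m ^ 3 * (γ ^ 3 + x * δ ^ 3) := by
      ring
    rw [h7]
    exact mul_ne_zero (mul_ne_zero (pow_ne_zero 3 hy) (pow_ne_zero 3 hm)) h5

end Pool.Agent.PT

end

section

/-!
# ENF: existence of the normal form
-/

namespace Pool.Agent.PT

open Pool.Agent.Lib_helper18 Pool.Agent.Lib_helper18.Eis Pool.Agent.Lib_helper84.Cub

namespace ENF

/-- A prime of `Z[w]` above a split prime. -/
theorem exists_pi (hSPP : SPP) {p : ℕ} (hp : p.Prime) (h1 : p % 3 = 1) :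
    ∃ π : PP, (p : Eis) = π.1 * conj π.1 := by
  obtain ⟨S1, -, -, -, -, S6⟩ := hSPP
  have hp0 : (p : Eis) ≠ 0 := by
    intro h
    have := congrArg Eis.re h
    rw [natCast_re, zero_re] at this
    exact hp.ne_zero (by exact_mod_cast this)
  have hpu : ¬ IsUnit (p : Eis) := by
    rw [isUnit_iff_norm, norm_natCast]
    have h2 : (2 : ℤ) ≤ p := by exact_mod_cast hp.two_le
    nlinarith
  obtain ⟨l, hl, hlp⟩ := WfDvdMonoid.exists_irreducible_factor hpu hp0
  have hl' : Prime l := hl.prime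
  have h3 : ¬ l ∣ 3 := by
    intro h3
    have hcop : IsCoprime (p : ℤ) 3 := by
      rw [Int.isCoprime_iff_gcd_eq_one]
      have h4 : Nat.Coprime p 3 := by
        rw [Nat.Prime.coprime_iff_not_dvd hp]
        intro h5
        have := (Nat.prime_dvd_prime_iff_eq hp Nat.prime_three).1 h5
        subst this
        omega
      exact_mod_cast h4
    obtain ⟨a, b, hab⟩ := hcop
    apply hl'.not_unit
    rw [isUnit_iff_dvd_one]
    have h6 : (1 : Eis) = (a : Eis) * (p : Eis) + (b : Eis) * 3 := by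
      have h7 : ((a * p + b * 3 : ℤ) : Eis) = ((1 : ℤ) : Eis) := by rw [hab]
      push_cast at h7
      exact h7.symm
    rw [h6]
    exact dvd_add (hlp.mul_left _) (h3.mul_left _)
  obtain ⟨π, hπ⟩ := S1 l hl' h3
  have hπp : π.1 ∣ (p : Eis) := hπ.dvd_iff_dvd_left.1 hlp
  obtain ⟨q, hq, h | h⟩ := S6 π
  · exfalso
    rw [h.2] at hπp
    obtain ⟨c, hc⟩ := hπp
    have h4 := congrArg Eis.norm hc
    rw [norm_natCast, norm_mul, norm_natCast] at h4
    have h5 : q ∣ p ^ 2 := by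
      have h6 : (q : ℤ) ∣ (p : ℤ) ^ 2 := by
        rw [h4]
        exact (dvd_pow_self _ two_ne_zero).mul_right _
      exact_mod_cast h6
    have h7 := (Nat.prime_dvd_prime_iff_eq hq hp).1 (hq.dvd_of_dvd_pow h5)
    omega
  · have h4 : q = p := by
      obtain ⟨c, hc⟩ := hπp
      have h4 := congrArg Eis.norm hc
      rw [norm_natCast, norm_mul, h.2.1] at h4
      have h5 : q ∣ p ^ 2 := by
        have h6 : (q : ℤ) ∣ (p : ℤ) ^ 2 := by
          rw [h4]
          exact dvd_mul_right _ _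
        exact_mod_cast h6
      exact (Nat.prime_dvd_prime_iff_eq hq hp).1 (hq.dvd_of_dvd_pow h5)
    refine ⟨π, ?_⟩
    rw [← h4]
    exact h.2.2.1

theorem mem_pf {N l : ℕ} (hl : l.Prime) (h : ¬ 3 ∣ N.factorization l) : l ∈ N.primeFactors := by
  rw [← Nat.support_factorization, Finsupp.mem_support_iff]
  intro h0
  rw [h0] at h
  exact h (dvd_zero 3)

theorem fin_set (N a : ℕ) :
    Finite {p : ℕ // p.Prime ∧ p % 3 = a ∧ ¬ 3 ∣ N.factorization p} := by
  apply Set.Finite.to_subtype (s := {p : ℕ | p.Prime ∧ p % 3 = a ∧ ¬ 3 ∣ N.factorization p})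
  exact (N.primeFactors.finite_toSet).subset fun p hp => mem_pf hp.1 hp.2.2

theorem prod_fin (N a : ℕ) (g : ℕ → ℕ)
    (e : {p : ℕ // p.Prime ∧ p % 3 = a ∧ ¬ 3 ∣ N.factorization p} ≃
      Fin (Nat.card {p : ℕ // p.Prime ∧ p % 3 = a ∧ ¬ 3 ∣ N.factorization p})) :
    ∏ i, g (e.symm i).1 =
      ∏ l ∈ N.primeFactors, if l % 3 = a ∧ ¬ 3 ∣ N.factorization l then g l else 1 := by
  classical
  have := fin_set N a
  let _ : Fintype {p : ℕ // p.Prime ∧ p % 3 = a ∧ ¬ 3 ∣ N.factorization p} := Fintype.ofFinite _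
  rw [e.symm.prod_comp (fun s => g s.1), ← Finset.prod_filter,
    Finset.prod_subtype (N.primeFactors.filter fun l => l % 3 = a ∧ ¬ 3 ∣ N.factorization l)
      (p := fun p => p.Prime ∧ p % 3 = a ∧ ¬ 3 ∣ N.factorization p)]
  intro l
  rw [Finset.mem_filter]
  constructor
  · intro h
    exact ⟨Nat.prime_of_mem_primeFactors h.1, h.2⟩
  · intro h
    exact ⟨mem_pf h.1 h.2.2, h.2⟩

end ENF

open _root_.Pool.Agent.PT.ENF

/-- ENF. -/
theorem ENF_thm (hSPP : SPP) : ENF := by
  classical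
  intro N hN h3
  have f1 := fin_set N 1
  have f2 := fin_set N 2
  obtain ⟨e1⟩ : Nonempty ({p : ℕ // p.Prime ∧ p % 3 = 1 ∧ ¬ 3 ∣ N.factorization p} ≃
      Fin (Nat.card {p : ℕ // p.Prime ∧ p % 3 = 1 ∧ ¬ 3 ∣ N.factorization p})) :=
    ⟨Finite.equivFin _⟩
  obtain ⟨e2⟩ : Nonempty ({p : ℕ // p.Prime ∧ p % 3 = 2 ∧ ¬ 3 ∣ N.factorization p} ≃
      Fin (Nat.card {p : ℕ // p.Prime ∧ p % 3 = 2 ∧ ¬ 3 ∣ N.factorization p})) :=
    ⟨Finite.equivFin _⟩
  choose π hπ using fun i => exists_pi hSPP (e1.symm i).2.1 (e1.symm i).2.2.1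
  have hmod : ∀ l, ¬ 3 ∣ N.factorization l →
      N.factorization l % 3 = 1 ∨ N.factorization l % 3 = 2 := by
    intro l hl
    omega
  refine ⟨∏ l ∈ N.primeFactors, l ^ (N.factorization l % 3),
    ∏ l ∈ N.primeFactors, l ^ (N.factorization l / 3), π, fun i => (e1.symm i).1,
    fun i => N.factorization (e1.symm i).1 % 3, fun j => (e2.symm j).1,
    fun j => N.factorization (e2.symm j).1 % 3, ?_, ?_, ?_, ?_, ?_⟩
  · exact Finset.prod_pos fun l hl => pow_pos (Nat.prime_of_mem_primeFactors hl).pos _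
  · exact Finset.prod_pos fun l hl => pow_pos (Nat.prime_of_mem_primeFactors hl).pos _
  · rw [← Finset.prod_pow, ← Finset.prod_mul_distrib]
    conv_lhs => rw [← Nat.prod_factorization_pow_eq_self hN.ne']
    rw [Nat.prod_factorization_eq_prod_primeFactors]
    refine Finset.prod_congr rfl fun l _ => ?_
    rw [← pow_mul, ← pow_add]
    congr 1
    omega
  · refine ⟨fun i => (e1.symm i).2.1, fun i => (e1.symm i).2.2.1, hπ,
      fun i => hmod _ (e1.symm i).2.2.2, ?_, fun j => (e2.symm j).2.1,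
      fun j => (e2.symm j).2.2.1, fun j => hmod _ (e2.symm j).2.2.2, ?_, ?_⟩
    · intro i i' h
      exact e1.symm.injective (Subtype.ext h)
    · intro i i' h
      exact e2.symm.injective (Subtype.ext h)
    · rw [prod_fin N 1 (fun l => l ^ (N.factorization l % 3)) e1,
        prod_fin N 2 (fun l => l ^ (N.factorization l % 3)) e2, ← Finset.prod_mul_distrib]
      refine Finset.prod_congr rfl fun l hl => ?_
      have hlp := Nat.prime_of_mem_primeFactors hl
      have hl3 : l % 3 ≠ 0 := by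
        intro h0
        have h4 := (Nat.prime_dvd_prime_iff_eq Nat.prime_three hlp).1 (Nat.dvd_of_mod_eq_zero h0)
        apply h3
        rw [h4]
        exact Nat.dvd_of_mem_primeFactors hl
      by_cases hv : 3 ∣ N.factorization l
      · rw [if_neg (fun h => h.2 hv), if_neg (fun h => h.2 hv), Nat.mod_eq_zero_of_dvd hv]
        simp
      · by_cases h1 : l % 3 = 1
        · rw [if_pos ⟨h1, hv⟩, if_neg (fun h => by omega), mul_one]
        · have h2 : l % 3 = 2 := by omega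
          rw [if_neg (fun h => h1 h.1), if_pos ⟨h2, hv⟩, one_mul]
  · intro l hl hv h2
    exact ⟨e2 ⟨l, hl, h2, hv⟩, congrArg Subtype.val (e2.symm_apply_apply ⟨l, hl, h2, hv⟩)⟩

end Pool.Agent.PT

end

section

/-!
# The first descent for products of primes `= 2, 5 mod 9`
-/

set_option linter.unusedSectionVars false

namespace Pool.Agent.Lib_helper18.CubStep0

open Finset Pool.Agent.Lib_helper18 Pool.Agent.Lib_helper18.Eis Pool.Agent.Lib_helper84.Cub

variable {m : ℕ} (p e : Fin m → ℕ)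

/-- product of the prime powers with index in `S` -/
def PP (S : Finset (Fin m)) : ℤ := ∏ j ∈ S, (p j : ℤ) ^ e j

/-- position function of two disjoint sets -/
def posOf (J J' : Finset (Fin m)) (j : Fin m) : Fin 3 :=
  if j ∈ J then 0 else if j ∈ J' then 1 else 2

theorem cell_eq (pos : Fin m → Fin 3) (k : Fin 3) :
    cell p e pos k = PP p e (univ.filter (fun j => pos j = k)) := by
  unfold cell PP
  rw [prod_filter]

theorem filter_pos_zero (J J' : Finset (Fin m)) :
    univ.filter (fun j => posOf J J' j = 0) = J := by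
  ext j
  rw [mem_filter]
  simp only [mem_univ, true_and]
  unfold posOf
  split_ifs with h1 h2 <;> simp [h1]

theorem filter_pos_one {J J' : Finset (Fin m)} (h : J' ⊆ univ \ J) :
    univ.filter (fun j => posOf J J' j = 1) = J' := by
  ext j
  rw [mem_filter]
  simp only [mem_univ, true_and]
  unfold posOf
  by_cases h1 : j ∈ J
  · have h2 : j ∉ J' := fun h3 => (mem_sdiff.mp (h h3)).2 h1
    simp [h1, h2]
  · by_cases h2 : j ∈ J'
    · simp [h1, h2]
    · simp [h1, h2]

theorem filter_pos_two (J J' : Finset (Fin m)) :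
    univ.filter (fun j => posOf J J' j = 2) = (univ \ J) \ J' := by
  ext j
  rw [mem_filter]
  simp only [mem_univ, true_and, mem_sdiff]
  unfold posOf
  by_cases h1 : j ∈ J
  · simp [h1]
  · by_cases h2 : j ∈ J'
    · simp [h1, h2]
    · simp [h1, h2]

/-- the conclusion of Step 0 -/
def Concl0 : Prop :=
  ∃ (pos : Fin m → Fin 3) (x : Fin 3 → ℤ), (∀ k, ∃ j, pos j ≠ k) ∧ IsPt p e pos x ∧
    ((∏ i, (p i : ℤ) ^ e i) % 9 = 1 ∨ (∏ i, (p i : ℤ) ^ e i) % 9 = 8 →
      ∀ k k', wq (cell p e pos k) = wq (cell p e pos k'))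

variable {p e}

theorem three_not_dvd_PP (hp : ∀ i, p i % 9 = 2 ∨ p i % 9 = 5) (S : Finset (Fin m)) :
    ¬ (3 : ℤ) ∣ PP p e S := by
  intro h
  rw [PP, Int.prime_three.dvd_finsetProd_iff] at h
  obtain ⟨j, -, h⟩ := h
  have h1 := Int.prime_three.dvd_of_dvd_pow h
  have := hp j
  omega

/-- three coprime integers with sum `0` and product `A s^3` give the conclusion or a smaller
solution. -/
theorem three_split (hp : ∀ i, (p i).Prime) (hp9 : ∀ i, p i % 9 = 2 ∨ p i % 9 = 5)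
    (he : ∀ i, e i = 1 ∨ e i = 2) (hnot : ¬ Concl0 p e) {u v t s : ℤ} (hs0 : s ≠ 0)
    (huv : IsCoprime u v) (hut : IsCoprime u t) (hvt : IsCoprime v t) (hsum : u + v + t = 0)
    (hprod : u * v * t = PP p e univ * s ^ 3) :
    ∃ a b c : ℤ, a ^ 3 + b ^ 3 = PP p e univ * c ^ 3 ∧
      s.natAbs = a.natAbs * b.natAbs * c.natAbs := by
  have he0 : ∀ i, e i ≠ 0 := fun i => by have := he i; omega
  obtain ⟨J, -, a, w, hu, hw, hs1⟩ := split_two p e hp he0 univ u (v * t) s (huv.mul_right hut)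
    (by rw [← mul_assoc]; exact hprod)
  obtain ⟨J', hJ', b, c, hv, ht, hs2⟩ := split_two p e hp he0 (univ \ J) v t w hvt hw
  change u = PP p e J * a ^ 3 at hu
  change v = PP p e J' * b ^ 3 at hv
  change t = PP p e ((univ \ J) \ J') * c ^ 3 at ht
  have hs : s = a * b * c := by rw [hs1, hs2]; ring
  have ha0 : a ≠ 0 := by rintro rfl; apply hs0; rw [hs]; ring
  have hb0 : b ≠ 0 := by rintro rfl; apply hs0; rw [hs]; ring
  have hc0 : c ≠ 0 := by rintro rfl; apply hs0; rw [hs]; ring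
  have hPd : PP p e J * PP p e J' * PP p e ((univ \ J) \ J') = PP p e univ := by
    rw [mul_assoc]
    unfold PP
    rw [mul_comm (∏ j ∈ J', _), prod_sdiff hJ', mul_comm, prod_sdiff (subset_univ J)]
  have hn3 := three_not_dvd_PP (e := e) hp9
  by_cases hcon : ∀ k, ∃ j, posOf J J' j ≠ k
  · exfalso
    apply hnot
    have c0 : cell p e (posOf J J') 0 = PP p e J := by rw [cell_eq, filter_pos_zero]
    have c1 : cell p e (posOf J J') 1 = PP p e J' := by rw [cell_eq, filter_pos_one hJ']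
    have c2 : cell p e (posOf J J') 2 = PP p e ((univ \ J) \ J') := by
      rw [cell_eq, filter_pos_two]
    refine ⟨posOf J J', ![a, b, c], hcon, ⟨?_, ?_, ?_⟩, ?_⟩
    · intro k
      fin_cases k
      · exact ha0
      · exact hb0
      · exact hc0
    · rw [Fin.sum_univ_three, c0, c1, c2]
      show PP p e J * a ^ 3 + PP p e J' * b ^ 3 + PP p e ((univ \ J) \ J') * c ^ 3 = 0
      rw [← hu, ← hv, ← ht]; exact hsum
    · have d0 : cell p e (posOf J J') 0 * a ∣ u := ⟨a ^ 2, by rw [c0, hu]; ring⟩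
      have d1 : cell p e (posOf J J') 1 * b ∣ v := ⟨b ^ 2, by rw [c1, hv]; ring⟩
      have d2 : cell p e (posOf J J') 2 * c ∣ t := ⟨c ^ 2, by rw [c2, ht]; ring⟩
      have h01 := huv.of_isCoprime_of_dvd_left d0 |>.of_isCoprime_of_dvd_right d1
      have h02 := hut.of_isCoprime_of_dvd_left d0 |>.of_isCoprime_of_dvd_right d2
      have h12 := hvt.of_isCoprime_of_dvd_left d1 |>.of_isCoprime_of_dvd_right d2
      intro i j hij
      fin_cases i <;> fin_cases j
      · exact absurd rfl hij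
      · exact h01
      · exact h02
      · exact h01.symm
      · exact absurd rfl hij
      · exact h12
      · exact h02.symm
      · exact h12.symm
      · exact absurd rfl hij
    · intro hA
      have hA' : PP p e univ % 9 = 1 ∨ PP p e univ % 9 = 8 := hA
      have e1 : wq (PP p e J) = wq (PP p e J') :=
        row3_one hA' huv hut hvt hsum hprod (hn3 _) (hn3 _) hu hv ht hPd
      have e2 : wq (PP p e J) = wq (PP p e ((univ \ J) \ J')) :=
        row3_one hA' hut huv hvt.symm (by linarith) (by rw [← hprod]; ring) (hn3 _) (hn3 _)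
          hu ht hv (by rw [← hPd]; ring)
      have key : ∀ k, wq (cell p e (posOf J J') k) = wq (PP p e J) := by
        intro k
        fin_cases k
        · exact congrArg wq c0
        · exact (congrArg wq c1).trans e1.symm
        · exact (congrArg wq c2).trans e2.symm
      intro k k'
      rw [key, key]
  · push Not at hcon
    obtain ⟨k, hk⟩ := hcon
    have hone : PP p e ∅ = 1 := prod_empty
    fin_cases k
    · have hJ : J = univ := by
        ext j
        have := hk j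
        simp only [posOf] at this
        simp only [mem_univ, iff_true]
        by_contra hj
        rw [if_neg hj] at this
        split_ifs at this <;> exact absurd this (by decide)
      have hJ2 : J' = ∅ := by
        apply Finset.subset_empty.mp
        rw [hJ, Finset.sdiff_self] at hJ'
        exact hJ'
      rw [hJ] at hu ht
      rw [hJ2, hone, one_mul] at hv
      rw [hJ2, Finset.sdiff_self, empty_sdiff, hone, one_mul] at ht
      refine ⟨b, c, -a, ?_, ?_⟩
      · rw [← hv, ← ht]; linear_combination hsum - hu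
      · rw [Int.natAbs_neg, hs, Int.natAbs_mul, Int.natAbs_mul]; ring
    · have hJ : J = ∅ := by
        ext j
        have := hk j
        simp only [posOf] at this
        simp only [notMem_empty, iff_false]
        intro hj
        rw [if_pos hj] at this
        exact absurd this (by decide)
      have hJ2 : J' = univ := by
        ext j
        have := hk j
        simp only [posOf] at this
        simp only [mem_univ, iff_true]
        by_contra hj
        rw [if_neg (by rw [hJ]; exact notMem_empty j), if_neg hj] at this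
        exact absurd this (by decide)
      rw [hJ, hone, one_mul] at hu
      rw [hJ2] at hv
      rw [hJ2, hJ, sdiff_empty, Finset.sdiff_self, hone, one_mul] at ht
      refine ⟨a, c, -b, ?_, ?_⟩
      · rw [← hu, ← ht]; linear_combination hsum - hv
      · rw [Int.natAbs_neg, hs, Int.natAbs_mul, Int.natAbs_mul]; ring
    · have hJ : J = ∅ := by
        ext j
        have := hk j
        simp only [posOf] at this
        simp only [notMem_empty, iff_false]
        intro hj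
        rw [if_pos hj] at this
        exact absurd this (by decide)
      have hJ2 : J' = ∅ := by
        ext j
        have := hk j
        simp only [posOf] at this
        simp only [notMem_empty, iff_false]
        intro hj
        rw [if_neg (by rw [hJ]; exact notMem_empty j), if_pos hj] at this
        exact absurd this (by decide)
      rw [hJ, hone, one_mul] at hu
      rw [hJ2, hone, one_mul] at hv
      rw [hJ2, hJ, sdiff_empty, sdiff_empty] at ht
      refine ⟨a, b, -c, ?_, ?_⟩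
      · rw [← hu, ← hv]; linear_combination hsum - ht
      · rw [Int.natAbs_neg, hs, Int.natAbs_mul, Int.natAbs_mul]

/-- all the primes divide the rational side -/
theorem side (hp : ∀ i, (p i).Prime) (hp9 : ∀ i, p i % 9 = 2 ∨ p i % 9 = 5)
    (he : ∀ i, e i = 1 ∨ e i = 2) {η : Eis} {S z : ℤ} (hηprim : Prim η)
    (hηcop : IsCoprime η (conj η)) (hcoS : IsCoprime S η.norm)
    (hηS : S * η.norm = PP p e univ * z ^ 3) :
    ∃ (γ : Eis) (s t : ℤ), η = γ ^ 3 ∧ ¬ lam ∣ γ ∧ S = PP p e univ * s ^ 3 ∧ z = t * s := by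
  have he0 : ∀ i, e i ≠ 0 := fun i => by have := he i; omega
  obtain ⟨J, -, t, s, ht, hs, hz⟩ := split_two p e hp he0 univ η.norm S z hcoS.symm
    (by rw [mul_comm]; exact hηS)
  have hJ : J = ∅ := by
    ext j
    simp only [notMem_empty, iff_false]
    intro hj
    apply inert_not_dvd_norm (hp j) (by have := hp9 j; omega) hηcop
    rw [ht]
    apply Dvd.dvd.mul_right
    exact (dvd_pow_self _ (he0 j)).trans (dvd_prod_of_mem _ hj)
  subst hJ
  rw [prod_empty, one_mul] at ht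
  obtain ⟨γ, hγ, hγ3⟩ := extract (ρ := 1) prim_one (one_dvd _) hηprim hηcop (t := t)
    (by rw [norm_one, one_mul, ht])
  rw [one_mul] at hγ
  refine ⟨γ, s, t, hγ, hγ3, ?_, hz⟩
  rw [hs, sdiff_empty]; rfl

theorem coord_coprime {α δ : ℤ} (hcoad : IsCoprime α δ) (hl : ¬ (3 : ℤ) ∣ α + δ) :
    IsCoprime (2 * α - δ) (-α - δ) ∧ IsCoprime (2 * α - δ) (2 * δ - α) ∧
      IsCoprime (-α - δ) (2 * δ - α) := by
  have h3n : ∀ n : ℤ, ¬ (3 : ℤ) ∣ n → IsCoprime n 3 := by
    intro n hn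
    rw [isCoprime_comm, Int.prime_three.irreducible.coprime_iff_not_dvd]
    exact hn
  have key : ∀ u v : ℤ, (∃ a b c d : ℤ, a * u + b * v = 3 * α ∧ c * u + d * v = 3 * δ) →
      ¬ (3 : ℤ) ∣ u → IsCoprime u v := by
    rintro u v ⟨a, b, c, d, h1, h2⟩ hu
    obtain ⟨m, n, hmn⟩ := hcoad
    have h4 : IsCoprime u (3 : ℤ) := h3n u hu
    have h5 : ∃ g h : ℤ, g * u + h * v = 3 :=
      ⟨m * a + n * c, m * b + n * d, by linear_combination m * h1 + n * h2 + 3 * hmn⟩
    obtain ⟨g, h, hgh⟩ := h5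
    obtain ⟨k, l, hkl⟩ := h4
    exact ⟨k + l * g, l * h, by linear_combination hkl + l * hgh⟩
  exact ⟨key _ _ ⟨1, -1, -1, -2, by ring, by ring⟩ (by omega),
    key _ _ ⟨2, 1, 1, 2, by ring, by ring⟩ (by omega),
    key _ _ ⟨-2, -1, -1, 1, by ring, by ring⟩ (by omega)⟩

theorem PP_big (hm : 2 ≤ m) (hp : ∀ i, (p i).Prime) (hinj : Function.Injective p)
    (he : ∀ i, e i = 1 ∨ e i = 2) : ¬ PP p e univ ∣ 2 := by
  intro h
  have hpos : ∀ j, (2 : ℤ) ≤ (p j : ℤ) ^ e j := by
    intro j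
    have h2 : (2 : ℤ) ≤ p j := by exact_mod_cast (hp j).two_le
    rcases he j with h | h <;> rw [h]
    · linarith
    · nlinarith
  have h0 : (0 : Fin m → ℕ) = 0 := rfl
  let i0 : Fin m := ⟨0, by omega⟩
  let i1 : Fin m := ⟨1, by omega⟩
  have h01 : i0 ≠ i1 := by
    intro h
    have := congrArg Fin.val h
    simp [i0, i1] at this
  have hd : PP p e {i0, i1} ∣ PP p e univ := prod_dvd_prod_of_subset _ _ _ (subset_univ _)
  have h4 : PP p e {i0, i1} = (p i0 : ℤ) ^ e i0 * (p i1 : ℤ) ^ e i1 := by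
    unfold PP
    rw [prod_pair h01]
  have h5 := Int.le_of_dvd (by norm_num) (hd.trans h)
  rw [h4] at h5
  have := hpos i0
  have := hpos i1
  nlinarith

theorem step0 : Step0Stmt := by
  intro m p e hm hp hp9 hinj he hXY
  by_contra hnot
  change ¬ Concl0 p e at hnot
  obtain ⟨X, Y, hXY⟩ := hXY
  have hAcast : X ^ 3 + Y ^ 3 = ((PP p e univ : ℤ) : ℚ) := by
    rw [hXY]; unfold PP; push_cast; rfl
  obtain ⟨x, y, z, hz, hxyz⟩ := integral_solution hAcast
  have hn3 := three_not_dvd_PP (e := e) hp9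
  have hprime : ∀ i, Prime (p i : ℤ) := fun i => Nat.prime_iff_prime_int.mp (hp i)
  have hA0 : PP p e univ ≠ 0 :=
    prod_ne_zero_iff.mpr (fun j _ => pow_ne_zero _ (hprime j).ne_zero)
  have hcf := cube_not_dvd_prod p e hp hinj (fun i => by have := he i; omega) univ
  have hApos : 0 < PP p e univ :=
    prod_pos (fun j _ => pow_pos (by exact_mod_cast (hp j).pos) _)
  refine no_solution hA0 hcf ?_ z.natAbs x y z rfl hz hxyz
  clear hxyz hz x y z hAcast hXY X Y
  intro x y z hz hco hxyz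
  by_cases h3z : (3 : ℤ) ∣ z
  · obtain ⟨z1, S, η, hz1, hηprim, hηcop, hηim, hηdiff, hcoS, hηS⟩ := caseA_data hco h3z hxyz
    obtain ⟨γ, s, t, hγ, hγ3, hS, hzt⟩ := side hp hp9 he hηprim hηcop hcoS hηS
    obtain ⟨α, δ⟩ := γ
    have hcoad : IsCoprime α δ := coprime_coords rfl hγ3 (by rw [← hγ]; exact hηcop)
    have hprod : α * δ * (α - δ) = PP p e univ * s ^ 3 := by
      have h6 := congrArg Eis.im hγ
      simp only [pow_succ, pow_zero, one_mul, mul_im, mul_re] at h6
      rw [hηim] at h6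
      rw [← hS]
      linarith
    have hc1 : IsCoprime α (δ - α) := by
      obtain ⟨u, v, huv⟩ := hcoad
      exact ⟨u + v, v, by linear_combination huv⟩
    have hc2 : IsCoprime (-δ) (δ - α) := by
      obtain ⟨u, v, huv⟩ := hcoad
      exact ⟨-(u + v), -u, by linear_combination huv⟩
    have hs0 : s ≠ 0 := by
      rintro rfl
      apply hz
      rw [hz1, hzt]; ring
    obtain ⟨a, b, c, habc, hsabc⟩ := three_split hp hp9 he hnot hs0 hcoad.neg_right hc1 hc2
      (by ring) (by rw [← hprod]; ring)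
    obtain ⟨h1, h2⟩ := natAbs_lt_of (z := z) (s := s) (t := t) (by rw [hz1, hzt]) hsabc hz
    exact ⟨a, b, c, h1, habc, h2⟩
  · by_cases hA9 : PP p e univ % 9 = 1 ∨ PP p e univ % 9 = 8
    · exfalso
      obtain ⟨η, hηprim, hηcop, hηrel, hcoS, hηS⟩ := caseB1_data hco h3z hA9 hxyz
      obtain ⟨γ, s, t, hγ, hγ3, hS, hzt⟩ := side hp hp9 he hηprim hηcop hcoS hηS
      let i0 : Fin m := ⟨0, by omega⟩
      have hr := hp i0
      have hr3 : p i0 % 3 = 2 := by have := hp9 i0; omega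
      have hP := prime_inert hr hr3
      have hrn3 := FData.inert_n3 hr hr3
      have hdvd : (p i0 : Eis) ∣ w * η + w ^ 2 * conj η := by
        rw [hηrel, dvd_neg]
        have h1 : (p i0 : ℤ) ∣ x + y := by
          rw [hS]
          apply Dvd.dvd.mul_right
          have he0 : e i0 ≠ 0 := by have := he i0; omega
          exact (dvd_pow_self _ he0).trans (dvd_prod_of_mem _ (mem_univ i0))
        have h2 := intCast_dvd_intCast.mpr h1
        rwa [Int.cast_natCast] at h2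
      have hnη : ¬ (p i0 : Eis) ∣ η ∧ ¬ (p i0 : Eis) ∣ conj η := by
        have h0 := inert_not_dvd_norm hr hr3 hηcop
        have h1 : ∀ ξ : Eis, ξ.norm = η.norm → ¬ (p i0 : Eis) ∣ ξ := by
          intro ξ hξ hd
          apply h0
          obtain ⟨c, hc⟩ := hd
          rw [← hξ, hc, norm_mul, norm_natCast]
          exact ⟨p i0 * c.norm, by ring⟩
        exact ⟨h1 _ rfl, h1 _ (norm_conj η)⟩
      have hw1 : ¬ (p i0 : Eis) ∣ w := not_dvd_of_isUnit hP isUnit_w
      have hw2 : ¬ (p i0 : Eis) ∣ w ^ 2 := not_dvd_of_isUnit hP (isUnit_w.pow 2)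
      have hγd : ¬ (p i0 : Eis) ∣ γ := fun h => hnη.1 (by
        rw [hγ]; exact Dvd.dvd.pow h (by norm_num))
      have hγd' : ¬ (p i0 : Eis) ∣ conj γ := fun h => hnη.2 (by
        rw [hγ, map_pow]; exact Dvd.dvd.pow h (by norm_num))
      have hm2 : ¬ (p i0 : Eis) ∣ w ^ 2 * conj η := fun h =>
        (hP.dvd_or_dvd h).elim hw2 hnη.2
      have hc : sym (p i0 : Eis) (w * η) = sym (p i0 : Eis) (w ^ 2 * conj η) := by
        rw [← sym_neg hP hrn3 hm2]
        apply sym_congr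
        rw [sub_neg_eq_add]; exact hdvd
      rw [sym_mul hP hrn3 hw1 hnη.1, sym_mul hP hrn3 hw2 hnη.2, hγ, sym_cube hP hrn3 hγd,
        map_pow, sym_cube hP hrn3 hγd', FData.sym_w_pow hP hrn3, FData.sym_w_r hr hr3] at hc
      have hwq : wq (p i0) = 0 := by
        have h3 : (3 : ZMod 3) = 0 := by decide
        push_cast at hc
        linear_combination hc
      have h9 := hp9 i0
      have h9' : (p i0 : ℤ) % 9 = 2 ∨ (p i0 : ℤ) % 9 = 5 := by omega
      unfold wq at hwq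
      rcases h9' with h | h <;> rw [h] at hwq <;> exact absurd hwq (by decide)
    · have hA1 : PP p e univ % 9 ≠ 1 := fun h => hA9 (Or.inl h)
      have hA8 : PP p e univ % 9 ≠ 8 := fun h => hA9 (Or.inr h)
      obtain ⟨η, hηprim, hηcop, hηsum, hcoS, hηS⟩ := caseB_data hco h3z (hn3 _) hA1 hA8 hxyz
      obtain ⟨γ, s, t, hγ, hγ3, hS, hzt⟩ := side hp hp9 he hηprim hηcop hcoS hηS
      have hs0 : s ≠ 0 := by rintro rfl; simp at hzt; exact hz hzt
      have ht0 : t ≠ 0 := by rintro rfl; simp at hzt; exact hz hzt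
      obtain ⟨α, δ⟩ := γ
      have hcoad : IsCoprime α δ := coprime_coords rfl hγ3 (by rw [← hγ]; exact hηcop)
      have hl : ¬ (3 : ℤ) ∣ α + δ := by rw [lam_dvd_iff] at hγ3; exact hγ3
      have hprod : (2 * α - δ) * (-α - δ) * (2 * δ - α) = PP p e univ * (-s) ^ 3 := by
        have h6 := trace_identity α δ
        rw [← map_pow, ← hγ, hηsum, hS] at h6
        have h7 := congrArg Eis.re h6
        simp only [neg_re, intCast_re] at h7
        rw [← h7]; ring
      obtain ⟨c1, c2, c3⟩ := coord_coprime hcoad hl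
      obtain ⟨a, b, c, habc, hsabc⟩ := three_split hp hp9 he hnot (neg_ne_zero.mpr hs0) c1 c2 c3
        (by ring) hprod
      rw [Int.natAbs_neg] at hsabc
      have hc0 : c ≠ 0 := by
        rintro rfl
        simp at hsabc
        exact hs0 hsabc
      have ha0 : a ≠ 0 := by rintro rfl; simp at hsabc; exact hs0 hsabc
      have hb0 : b ≠ 0 := by rintro rfl; simp at hsabc; exact hs0 hsabc
      refine ⟨a, b, c, hc0, habc, ?_⟩
      have h1 : z.natAbs = t.natAbs * s.natAbs := by rw [hzt, Int.natAbs_mul]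
      have ha1 : 1 ≤ a.natAbs := Int.natAbs_pos.mpr ha0
      have hb1 : 1 ≤ b.natAbs := Int.natAbs_pos.mpr hb0
      have hc1 : 1 ≤ c.natAbs := Int.natAbs_pos.mpr hc0
      have ht1 : 1 ≤ t.natAbs := Int.natAbs_pos.mpr ht0
      have h3 : s.natAbs ≤ t.natAbs * s.natAbs := by
        calc s.natAbs = 1 * s.natAbs := by ring
          _ ≤ t.natAbs * s.natAbs := by gcongr
      by_contra hcon
      have h4 : s.natAbs ≤ c.natAbs := by omega
      -- then |a| = |b| = 1
      have h5 : a.natAbs * b.natAbs = 1 := by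
        rw [hsabc] at h4
        by_contra hne
        have h6 : 2 ≤ a.natAbs * b.natAbs := by
          have : 1 ≤ a.natAbs * b.natAbs := Nat.mul_pos ha1 hb1
          omega
        nlinarith
      have ha2 : a.natAbs = 1 := Nat.eq_one_of_mul_eq_one_right h5
      have hb2 : b.natAbs = 1 := Nat.eq_one_of_mul_eq_one_left h5
      have hcase : PP p e univ * c ^ 3 = 2 ∨ PP p e univ * c ^ 3 = -2 := by
        have hAc : PP p e univ * c ^ 3 ≠ 0 := mul_ne_zero hA0 (pow_ne_zero _ hc0)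
        rcases Int.natAbs_eq a with h | h <;> rcases Int.natAbs_eq b with h' | h' <;>
          rw [ha2] at h <;> rw [hb2] at h' <;> rw [h, h'] at habc <;> norm_num at habc
        · left; exact habc.symm
        · exact absurd habc (by tauto)
        · exact absurd habc (by tauto)
        · right; exact habc.symm
      have hAd : PP p e univ ∣ 2 := by
        rcases hcase with h | h
        · exact ⟨_, h.symm⟩
        · exact ⟨-c ^ 3, by linarith⟩
      exact PP_big hm hp hinj he hAd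

end Pool.Agent.Lib_helper18.CubStep0

end

section

/-!
# (M4) every rational point of `X³ + Y³ = A` comes from the 3-isogenous curve
(MP_8e0b0b_nt; mathematics: helper84; cf. `Lib_helper18/CubStep0.lean`, `FD4.lean`)
-/

set_option autoImplicit false
set_option linter.unusedSectionVars false

namespace Pool.Agent.CubeRank

open Finset Pool.Agent.Lib_helper18 Pool.Agent.Lib_helper18.Eis Pool.Agent.Lib_helper84.Cub
  Pool.Agent.Lib_helper18.CubStep0

section cases

variable {A x y z : ℤ}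

/-- `caseA_data` with the additional information `x + w y = λ η` -/
theorem lift_caseA (hco : IsCoprime x y) (h3z : (3 : ℤ) ∣ z) (hxyz : x ^ 3 + y ^ 3 = A * z ^ 3) :
    ∃ (z1 S' : ℤ) (η : Eis), z = 3 * z1 ∧ Prim η ∧ IsCoprime η (conj η) ∧ η.im = 3 * S' ∧
      (⟨x, y⟩ : Eis) = lam * η ∧ IsCoprime S' η.norm ∧ S' * η.norm = A * z1 ^ 3 := by
  have hcoxy := coprime_sum hco
  have hST : (x + y) * (⟨x, y⟩ : Eis).norm = A * z ^ 3 := by
    rw [← hxyz, norm_def]; ring
  have hno3 : ¬ ((3 : ℤ) ∣ x ∧ (3 : ℤ) ∣ y) := by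
    rintro ⟨h1, h2⟩
    exact Int.prime_three.not_isUnit (hco.isUnit_of_dvd' h1 h2)
  obtain ⟨z1, hz1⟩ := h3z
  have h3S : (3 : ℤ) ∣ x + y := by
    have h1 : (3 : ℤ) ∣ x ^ 3 + y ^ 3 := by
      rw [hxyz, hz1]; exact ⟨A * (9 * z1 ^ 3), by ring⟩
    have h2 : (3 : ℤ) ∣ (x ^ 3 + y ^ 3) - (x + y) := by
      have h4 : ∀ a : ℤ, (3 : ℤ) ∣ a ^ 3 - a := by
        intro a
        have : a % 3 = 0 ∨ a % 3 = 1 ∨ a % 3 = 2 := by omega
        apply Int.dvd_of_emod_eq_zero
        rcases this with h | h | h <;>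
          simp [pow_succ, Int.sub_emod, Int.mul_emod, h]
      have := dvd_add (h4 x) (h4 y)
      have e5 : x ^ 3 - x + (y ^ 3 - y) = (x ^ 3 + y ^ 3) - (x + y) := by ring
      rwa [e5] at this
    have := dvd_sub h1 h2
    simpa using this
  have h3y : ¬ (3 : ℤ) ∣ y := by
    intro h; exact hno3 ⟨by omega, h⟩
  have h3x : ¬ (3 : ℤ) ∣ x := by
    intro h; exact hno3 ⟨h, by omega⟩
  obtain ⟨S0, hS0⟩ := h3S
  have hT : (⟨x, y⟩ : Eis).norm = 3 * (3 * S0 ^ 2 - x * y) := by
    rw [norm_def]; simp only; linear_combination (x + y + 3 * S0) * hS0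
  have h3T' : ¬ (3 : ℤ) ∣ 3 * S0 ^ 2 - x * y := by
    intro h
    have : (3 : ℤ) ∣ x * y := by
      have h4 := dvd_sub (dvd_mul_right (3 : ℤ) (S0 ^ 2)) h
      have e5 : 3 * S0 ^ 2 - (3 * S0 ^ 2 - x * y) = x * y := by ring
      rwa [e5] at h4
    rcases Int.prime_three.dvd_or_dvd this with h | h
    · exact h3x h
    · exact h3y h
  have hST' : S0 * (3 * S0 ^ 2 - x * y) = 3 * (A * z1 ^ 3) := by
    rw [hT, hS0, hz1] at hST
    have h9 : (9 : ℤ) ≠ 0 := by norm_num
    apply mul_left_cancel₀ h9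
    linear_combination hST
  have h3S0 : (3 : ℤ) ∣ S0 := by
    have h4 : (3 : ℤ) ∣ S0 * (3 * S0 ^ 2 - x * y) := ⟨_, hST'⟩
    exact (Int.prime_three.dvd_or_dvd h4).resolve_right h3T'
  obtain ⟨S', hS'⟩ := h3S0
  have hS9 : x + y = 9 * S' := by rw [hS0, hS']; ring
  set η : Eis := ⟨-y + 6 * S', 3 * S'⟩ with hη
  have hηlam : (⟨x, y⟩ : Eis) = lam * η := by
    ext
    · simp only [hη, mul_re, lam_re, lam_im]; linarith
    · simp only [hη, mul_im, lam_re, lam_im]; ring
  have hηnorm : η.norm = 3 * S0 ^ 2 - x * y := by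
    have h4 := congrArg Eis.norm hηlam
    rw [norm_mul, norm_lam, hT] at h4
    linarith
  have hηS : S' * η.norm = A * z1 ^ 3 := by
    rw [hηnorm]
    have h9 : (3 : ℤ) ≠ 0 := by norm_num
    apply mul_left_cancel₀ h9
    rw [← hST', hS']; ring
  have hηprim : Prim η := by
    refine ⟨⟨S', rfl⟩, ?_⟩
    simp only [hη]; omega
  have hηcop : IsCoprime η (conj η) := by
    apply isCoprime_of_prime_dvd
    · rintro ⟨h, -⟩
      exact hηprim.not_lam_dvd (by rw [h]; exact dvd_zero _)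
    · intro l hl h1 h2
      have h4 : l ∣ (⟨x, y⟩ : Eis) := by rw [hηlam]; exact Dvd.dvd.mul_left h1 _
      have h5 : l ∣ conj (⟨x, y⟩ : Eis) := by
        rw [hηlam, map_mul]; exact Dvd.dvd.mul_left h2 _
      have h6 := coprime_xi hco hl h4 h5
      exact hηprim.not_lam_dvd (h6.symm.dvd.trans h1)
  have hcoS : IsCoprime S' η.norm := by
    have h4 : IsCoprime S' (x * y) := hcoxy.of_isCoprime_of_dvd_left ⟨9, by rw [hS9]; ring⟩
    have h5 : η.norm = S' * (27 * S') + -(x * y) := by rw [hηnorm, hS']; ring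
    rw [h5]
    exact (IsCoprime.mul_add_left_right h4.neg_right (27 * S'))
  exact ⟨z1, S', η, hz1, hηprim, hηcop, rfl, hηlam, hcoS, hηS⟩

/-- `caseB_data` with the additional information `η = w (x + w y)` -/
theorem lift_caseB (hco : IsCoprime x y) (h3z : ¬ (3 : ℤ) ∣ z) (hA3 : ¬ (3 : ℤ) ∣ A)
    (hA1 : A % 9 ≠ 1) (hA8 : A % 9 ≠ 8) (hxyz : x ^ 3 + y ^ 3 = A * z ^ 3) :
    ∃ η : Eis, Prim η ∧ IsCoprime η (conj η) ∧ η + conj η = -((x + y : ℤ) : Eis) ∧
      η = w * (⟨x, y⟩ : Eis) ∧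
      IsCoprime (x + y) η.norm ∧ (x + y) * η.norm = A * z ^ 3 := by
  have hcoxy := coprime_sum hco
  have hno3 : ¬ ((3 : ℤ) ∣ x ∧ (3 : ℤ) ∣ y) := by
    rintro ⟨h1, h2⟩
    exact Int.prime_three.not_isUnit (hco.isUnit_of_dvd' h1 h2)
  have h9 : (x ^ 3 % 9 + y ^ 3 % 9) % 9 = (A % 9) * (z ^ 3 % 9) % 9 := by
    rw [← Int.add_emod, ← Int.mul_emod, hxyz]
  have hz := cube_mod_nine_int h3z
  have hA : A % 9 = 2 ∨ A % 9 = 4 ∨ A % 9 = 5 ∨ A % 9 = 7 := by omega
  have h3x : ¬ (3 : ℤ) ∣ x := by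
    intro h
    have h1 := cube_mod_nine_int' h
    have h2 := cube_mod_nine_int (a := y) (fun h' => hno3 ⟨h, h'⟩)
    rw [h1] at h9
    rcases h2 with h2 | h2 <;> rcases hz with hz | hz <;> rcases hA with hA | hA | hA | hA <;>
      rw [h2, hz, hA] at h9 <;> norm_num at h9
  have h3y : ¬ (3 : ℤ) ∣ y := by
    intro h
    have h1 := cube_mod_nine_int' h
    have h2 := cube_mod_nine_int (a := x) (fun h' => hno3 ⟨h', h⟩)
    rw [h1] at h9
    rcases h2 with h2 | h2 <;> rcases hz with hz | hz <;> rcases hA with hA | hA | hA | hA <;>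
      rw [h2, hz, hA] at h9 <;> norm_num at h9
  have h3xy : (3 : ℤ) ∣ x - y := by
    by_contra hne
    have hx' : x % 3 = 1 ∨ x % 3 = 2 := by omega
    have hy' : y % 3 = 1 ∨ y % 3 = 2 := by omega
    have h4 : (3 : ℤ) ∣ x + y := by omega
    obtain ⟨k, hk⟩ := h4
    have h5 : x ^ 3 + y ^ 3 = 9 * (k * (3 * k ^ 2 - x * y)) := by
      have : x = 3 * k - y := by linarith
      rw [this]; ring
    have h6 : (x ^ 3 + y ^ 3) % 9 = 0 := by rw [h5]; omega
    rw [hxyz, Int.mul_emod] at h6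
    rcases hz with hz | hz <;> rcases hA with hA | hA | hA | hA <;>
      rw [hz, hA] at h6 <;> norm_num at h6
  set η : Eis := ⟨-y, x - y⟩ with hη
  have hηw : η = w * (⟨x, y⟩ : Eis) := by
    ext
    · simp only [hη, mul_re, w_re, w_im]; ring
    · simp only [hη, mul_im, w_re, w_im]; ring
  have hnorm : η.norm = (x + y) * (x + y) + -(3 * (x * y)) := by
    rw [norm_def]; simp only [hη]; ring
  have hprim : Prim η := by
    refine ⟨h3xy, ?_⟩
    simp only [hη]; omega
  refine ⟨η, hprim, ?_, ?_, hηw, ?_, ?_⟩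
  · apply isCoprime_of_prime_dvd
    · rintro ⟨h, -⟩
      exact hprim.not_lam_dvd (by rw [h]; exact dvd_zero _)
    · intro l hl h1 h2
      have hlw : ¬ l ∣ w := not_dvd_of_isUnit hl isUnit_w
      have h4 : l ∣ (⟨x, y⟩ : Eis) := by
        rw [hηw] at h1
        exact (hl.dvd_or_dvd h1).resolve_left hlw
      have h5 : l ∣ conj (⟨x, y⟩ : Eis) := by
        rw [hηw, map_mul, conj_w] at h2
        exact (hl.dvd_or_dvd h2).resolve_left (fun h => hlw (hl.dvd_of_dvd_pow h))
      have h6 := coprime_xi hco hl h4 h5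
      exact hprim.not_lam_dvd (h6.symm.dvd.trans h1)
  · ext
    · simp only [hη, add_re, conj_re, neg_re, intCast_re]; ring
    · simp only [hη, add_im, conj_im, neg_im, intCast_im]; ring
  · have hS3 : IsCoprime (x + y) 3 := by
      rw [isCoprime_comm, Int.prime_three.irreducible.coprime_iff_not_dvd]
      omega
    have h4 : IsCoprime (x + y) (3 * (x * y)) := hS3.mul_right hcoxy
    rw [hnorm]
    exact (IsCoprime.mul_add_left_right h4.neg_right (x + y))
  · rw [← hxyz, hnorm]; ring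

end cases

/-- the case `3 ∤ z`, `A = ±1 mod 9` is impossible -/
theorem lift_caseB1 {m : ℕ} {p e : Fin m → ℕ} (hm : 1 ≤ m) (hp : ∀ i, (p i).Prime)
    (hp9 : ∀ i, p i % 9 = 2 ∨ p i % 9 = 5) (he : ∀ i, e i = 1 ∨ e i = 2) {x y z : ℤ}
    (hco : IsCoprime x y) (h3z : ¬ (3 : ℤ) ∣ z)
    (hA9 : PP p e univ % 9 = 1 ∨ PP p e univ % 9 = 8)
    (hxyz : x ^ 3 + y ^ 3 = PP p e univ * z ^ 3) : False := by
  obtain ⟨η, hηprim, hηcop, hηrel, hcoS, hηS⟩ := caseB1_data hco h3z hA9 hxyz
  obtain ⟨γ, s, t, hγ, hγ3, hS, hzt⟩ := side hp hp9 he hηprim hηcop hcoS hηS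
  let i0 : Fin m := ⟨0, by omega⟩
  have hr := hp i0
  have hr3 : p i0 % 3 = 2 := by have := hp9 i0; omega
  have hP := prime_inert hr hr3
  have hrn3 := FData.inert_n3 hr hr3
  have hdvd : (p i0 : Eis) ∣ w * η + w ^ 2 * conj η := by
    rw [hηrel, dvd_neg]
    have h1 : (p i0 : ℤ) ∣ x + y := by
      rw [hS]
      apply Dvd.dvd.mul_right
      have he0 : e i0 ≠ 0 := by have := he i0; omega
      exact (dvd_pow_self _ he0).trans (dvd_prod_of_mem _ (mem_univ i0))
    have h2 := intCast_dvd_intCast.mpr h1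
    rwa [Int.cast_natCast] at h2
  have hnη : ¬ (p i0 : Eis) ∣ η ∧ ¬ (p i0 : Eis) ∣ conj η := by
    have h0 := inert_not_dvd_norm hr hr3 hηcop
    have h1 : ∀ ξ : Eis, ξ.norm = η.norm → ¬ (p i0 : Eis) ∣ ξ := by
      intro ξ hξ hd
      apply h0
      obtain ⟨c, hc⟩ := hd
      rw [← hξ, hc, norm_mul, norm_natCast]
      exact ⟨p i0 * c.norm, by ring⟩
    exact ⟨h1 _ rfl, h1 _ (norm_conj η)⟩
  have hw1 : ¬ (p i0 : Eis) ∣ w := not_dvd_of_isUnit hP isUnit_w
  have hw2 : ¬ (p i0 : Eis) ∣ w ^ 2 := not_dvd_of_isUnit hP (isUnit_w.pow 2)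
  have hγd : ¬ (p i0 : Eis) ∣ γ := fun h => hnη.1 (by
    rw [hγ]; exact Dvd.dvd.pow h (by norm_num))
  have hγd' : ¬ (p i0 : Eis) ∣ conj γ := fun h => hnη.2 (by
    rw [hγ, map_pow]; exact Dvd.dvd.pow h (by norm_num))
  have hm2 : ¬ (p i0 : Eis) ∣ w ^ 2 * conj η := fun h =>
    (hP.dvd_or_dvd h).elim hw2 hnη.2
  have hc : sym (p i0 : Eis) (w * η) = sym (p i0 : Eis) (w ^ 2 * conj η) := by
    rw [← sym_neg hP hrn3 hm2]
    apply sym_congr
    rw [sub_neg_eq_add]; exact hdvd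
  rw [sym_mul hP hrn3 hw1 hnη.1, sym_mul hP hrn3 hw2 hnη.2, hγ, sym_cube hP hrn3 hγd,
    map_pow, sym_cube hP hrn3 hγd', FData.sym_w_pow hP hrn3, FData.sym_w_r hr hr3] at hc
  have hwq : wq (p i0) = 0 := by
    have h3 : (3 : ZMod 3) = 0 := by decide
    push_cast at hc
    linear_combination hc
  have h9 := hp9 i0
  have h9' : (p i0 : ℤ) % 9 = 2 ∨ (p i0 : ℤ) % 9 = 5 := by omega
  unfold wq at hwq
  rcases h9' with h | h <;> rw [h] at hwq <;> exact absurd hwq (by decide)

/-- **(M4)** -/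
theorem lift : LiftStmt := by
  intro m p e hm hyp x y z hz hco hxyz
  have hp := hyp.hp
  have hp9 := hyp.h9
  have he := hyp.he
  have hAA : AA p e = PP p e univ := rfl
  rw [hAA] at hxyz ⊢
  have hn3 := three_not_dvd_PP (e := e) hp9
  have hxy : ((x : Eis) + w * y) = (⟨x, y⟩ : Eis) := by
    ext
    · simp
    · simp
  rw [hxy]
  by_cases h3z : (3 : ℤ) ∣ z
  · obtain ⟨z1, S, η, hz1, hηprim, hηcop, hηim, hηlam, hcoS, hηS⟩ := lift_caseA hco h3z hxyz
    obtain ⟨γ, s, t, hγ, hγ3, hS, hzt⟩ := side hp hp9 he hηprim hηcop hcoS hηS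
    obtain ⟨α, δ⟩ := γ
    have hcoad : IsCoprime α δ := coprime_coords rfl hγ3 (by rw [← hγ]; exact hηcop)
    have hprod : α * δ * (α - δ) = PP p e univ * s ^ 3 := by
      have h6 := congrArg Eis.im hγ
      simp only [pow_succ, pow_zero, one_mul, mul_im, mul_re] at h6
      rw [hηim] at h6
      rw [← hS]
      linarith
    have hs0 : s ≠ 0 := by
      rintro rfl
      apply hz
      rw [hz1, hzt]; ring
    refine ⟨α, δ, s, 1, 1, hcoad, hs0, one_ne_zero, one_ne_zero, hprod, ?_⟩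
    have hαδ : ((α : Eis) + δ * w) = (⟨α, δ⟩ : Eis) := (eq_re_add_im ⟨α, δ⟩).symm
    rw [hαδ, hηlam, hγ]
  · by_cases hA9 : PP p e univ % 9 = 1 ∨ PP p e univ % 9 = 8
    · exact absurd hxyz (fun h => lift_caseB1 hm hp hp9 he hco h3z hA9 h)
    · have hA1 : PP p e univ % 9 ≠ 1 := fun h => hA9 (Or.inl h)
      have hA8 : PP p e univ % 9 ≠ 8 := fun h => hA9 (Or.inr h)
      obtain ⟨η, hηprim, hηcop, hηsum, hηw, hcoS, hηS⟩ :=
        lift_caseB hco h3z (hn3 _) hA1 hA8 hxyz
      obtain ⟨γ, s, t, hγ, hγ3, hS, hzt⟩ := side hp hp9 he hηprim hηcop hcoS hηS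
      have hs0 : s ≠ 0 := by rintro rfl; simp at hzt; exact hz hzt
      obtain ⟨α, δ⟩ := γ
      have hcoad : IsCoprime α δ := coprime_coords rfl hγ3 (by rw [← hγ]; exact hηcop)
      have hl : ¬ (3 : ℤ) ∣ α + δ := by rw [lam_dvd_iff] at hγ3; exact hγ3
      have hprod : (2 * α - δ) * (-α - δ) * (2 * δ - α) = PP p e univ * (-s) ^ 3 := by
        have h6 := trace_identity α δ
        rw [← map_pow, ← hγ, hηsum, hS] at h6
        have h7 := congrArg Eis.re h6
        simp only [neg_re, intCast_re] at h7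
        rw [← h7]; ring
      obtain ⟨c1, -, -⟩ := coord_coprime hcoad hl
      refine ⟨2 * α - δ, α + δ, -s, -9, 1, ?_, neg_ne_zero.mpr hs0, by norm_num, one_ne_zero,
        ?_, ?_⟩
      · have := c1.neg_right
        rwa [show -(-α - δ) = α + δ by ring] at this
      · rw [← hprod]; ring
      · have e1 : (((2 * α - δ : ℤ) : Eis) + ((α + δ : ℤ) : Eis) * w) =
            (⟨α, δ⟩ : Eis) * (1 - w ^ 2) := by
          rw [w_sq]
          ext
          · simp only [add_re, mul_re, sub_re, neg_re, intCast_re, intCast_im, one_re, w_re, w_im,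
              sub_im, neg_im, one_im]; ring
          · simp only [add_im, mul_im, sub_re, neg_re, intCast_re, intCast_im, one_re, w_re, w_im,
              sub_im, neg_im, one_im]; ring
        have e2 : (lam : Eis) * (1 - w ^ 2) ^ 3 * w = -9 := by
          decide
        have e3 : lam * ((⟨α, δ⟩ : Eis) * (1 - w ^ 2)) ^ 3 =
            lam * (1 - w ^ 2) ^ 3 * (⟨α, δ⟩ : Eis) ^ 3 := by ring
        rw [e1, e3, ← hγ, hηw]
        push_cast
        linear_combination (-(⟨x, y⟩ : Eis)) * e2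

end Pool.Agent.CubeRank

end

section

/-!
# The first descent when 3 divides `A`
-/

set_option linter.unusedSectionVars false

namespace Pool.Agent.Lib_helper84.Cub

open Finset Pool.Agent.Lib_helper18 Pool.Agent.Lib_helper18.Eis Pool.Agent.Lib_helper18.CubStep0

variable {m : ℕ} {p e : Fin m → ℕ}

/-- the conclusion of Step 0 -/
def Concl3 (p e : Fin m → ℕ) : Prop :=
  ∃ (pos : Fin m → Fin 3) (x : Fin 3 → ℤ), (∀ k, ∃ j, pos j ≠ k) ∧ IsPt p e pos x


theorem ndvd9' {q : ℕ} (hq : q.Prime) (hq3 : q % 3 = 2) : ¬ (q : ℤ) ∣ 9 := by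
  intro h9
  have hqZ := Nat.prime_iff_prime_int.mp hq
  have h9' : (q : ℤ) ∣ 3 ^ 2 := by norm_num; exact h9
  have h3' := hqZ.dvd_of_dvd_pow h9'
  have h3n : q ∣ 3 := by exact_mod_cast h3'
  have := (Nat.prime_dvd_prime_iff_eq hq Nat.prime_three).mp h3n
  omega

theorem wq_ne' {q : ℕ} (h9 : q % 9 = 2 ∨ q % 9 = 5) : wq (q : ℤ) ≠ 0 := by
  unfold wq
  have : (q : ℤ) % 9 = 2 ∨ (q : ℤ) % 9 = 5 := by omega
  rcases this with h | h <;> rw [h] <;> decide

/-- three coprime integers with sum `0` and product `A s^3` give the conclusion or a smaller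
solution. -/
theorem three_split' (hp : ∀ i, (p i).Prime)
    (he : ∀ i, e i = 1 ∨ e i = 2) (hnot : ¬ Concl3 p e) {u v t s : ℤ} (hs0 : s ≠ 0)
    (huv : IsCoprime u v) (hut : IsCoprime u t) (hvt : IsCoprime v t) (hsum : u + v + t = 0)
    (hprod : u * v * t = PP p e univ * s ^ 3) :
    ∃ a b c : ℤ, a ^ 3 + b ^ 3 = PP p e univ * c ^ 3 ∧
      s.natAbs = a.natAbs * b.natAbs * c.natAbs := by
  have he0 : ∀ i, e i ≠ 0 := fun i => by have := he i; omega
  obtain ⟨J, -, a, w, hu, hw, hs1⟩ := split_two p e hp he0 univ u (v * t) s (huv.mul_right hut)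
    (by rw [← mul_assoc]; exact hprod)
  obtain ⟨J', hJ', b, c, hv, ht, hs2⟩ := split_two p e hp he0 (univ \ J) v t w hvt hw
  change u = PP p e J * a ^ 3 at hu
  change v = PP p e J' * b ^ 3 at hv
  change t = PP p e ((univ \ J) \ J') * c ^ 3 at ht
  have hs : s = a * b * c := by rw [hs1, hs2]; ring
  have ha0 : a ≠ 0 := by rintro rfl; apply hs0; rw [hs]; ring
  have hb0 : b ≠ 0 := by rintro rfl; apply hs0; rw [hs]; ring
  have hc0 : c ≠ 0 := by rintro rfl; apply hs0; rw [hs]; ring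
  have hPd : PP p e J * PP p e J' * PP p e ((univ \ J) \ J') = PP p e univ := by
    rw [mul_assoc]
    unfold PP
    rw [mul_comm (∏ j ∈ J', _), prod_sdiff hJ', mul_comm, prod_sdiff (subset_univ J)]
  by_cases hcon : ∀ k, ∃ j, posOf J J' j ≠ k
  · exfalso
    apply hnot
    have c0 : cell p e (posOf J J') 0 = PP p e J := by rw [cell_eq, filter_pos_zero]
    have c1 : cell p e (posOf J J') 1 = PP p e J' := by rw [cell_eq, filter_pos_one hJ']
    have c2 : cell p e (posOf J J') 2 = PP p e ((univ \ J) \ J') := by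
      rw [cell_eq, filter_pos_two]
    refine ⟨posOf J J', ![a, b, c], hcon, ?_, ?_, ?_⟩
    · intro k
      fin_cases k
      · exact ha0
      · exact hb0
      · exact hc0
    · rw [Fin.sum_univ_three, c0, c1, c2]
      show PP p e J * a ^ 3 + PP p e J' * b ^ 3 + PP p e ((univ \ J) \ J') * c ^ 3 = 0
      rw [← hu, ← hv, ← ht]; exact hsum
    · have d0 : cell p e (posOf J J') 0 * a ∣ u := ⟨a ^ 2, by rw [c0, hu]; ring⟩
      have d1 : cell p e (posOf J J') 1 * b ∣ v := ⟨b ^ 2, by rw [c1, hv]; ring⟩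
      have d2 : cell p e (posOf J J') 2 * c ∣ t := ⟨c ^ 2, by rw [c2, ht]; ring⟩
      have h01 := huv.of_isCoprime_of_dvd_left d0 |>.of_isCoprime_of_dvd_right d1
      have h02 := hut.of_isCoprime_of_dvd_left d0 |>.of_isCoprime_of_dvd_right d2
      have h12 := hvt.of_isCoprime_of_dvd_left d1 |>.of_isCoprime_of_dvd_right d2
      intro i j hij
      fin_cases i <;> fin_cases j
      · exact absurd rfl hij
      · exact h01
      · exact h02
      · exact h01.symm
      · exact absurd rfl hij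
      · exact h12
      · exact h02.symm
      · exact h12.symm
      · exact absurd rfl hij
  · push Not at hcon
    obtain ⟨k, hk⟩ := hcon
    have hone : PP p e ∅ = 1 := prod_empty
    fin_cases k
    · have hJ : J = univ := by
        ext j
        have := hk j
        simp only [posOf] at this
        simp only [mem_univ, iff_true]
        by_contra hj
        rw [if_neg hj] at this
        split_ifs at this <;> exact absurd this (by decide)
      have hJ2 : J' = ∅ := by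
        apply Finset.subset_empty.mp
        rw [hJ, Finset.sdiff_self] at hJ'
        exact hJ'
      rw [hJ] at hu ht
      rw [hJ2, hone, one_mul] at hv
      rw [hJ2, Finset.sdiff_self, empty_sdiff, hone, one_mul] at ht
      refine ⟨b, c, -a, ?_, ?_⟩
      · rw [← hv, ← ht]; linear_combination hsum - hu
      · rw [Int.natAbs_neg, hs, Int.natAbs_mul, Int.natAbs_mul]; ring
    · have hJ : J = ∅ := by
        ext j
        have := hk j
        simp only [posOf] at this
        simp only [notMem_empty, iff_false]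
        intro hj
        rw [if_pos hj] at this
        exact absurd this (by decide)
      have hJ2 : J' = univ := by
        ext j
        have := hk j
        simp only [posOf] at this
        simp only [mem_univ, iff_true]
        by_contra hj
        rw [if_neg (by rw [hJ]; exact notMem_empty j), if_neg hj] at this
        exact absurd this (by decide)
      rw [hJ, hone, one_mul] at hu
      rw [hJ2] at hv
      rw [hJ2, hJ, sdiff_empty, Finset.sdiff_self, hone, one_mul] at ht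
      refine ⟨a, c, -b, ?_, ?_⟩
      · rw [← hu, ← ht]; linear_combination hsum - hv
      · rw [Int.natAbs_neg, hs, Int.natAbs_mul, Int.natAbs_mul]; ring
    · have hJ : J = ∅ := by
        ext j
        have := hk j
        simp only [posOf] at this
        simp only [notMem_empty, iff_false]
        intro hj
        rw [if_pos hj] at this
        exact absurd this (by decide)
      have hJ2 : J' = ∅ := by
        ext j
        have := hk j
        simp only [posOf] at this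
        simp only [notMem_empty, iff_false]
        intro hj
        rw [if_neg (by rw [hJ]; exact notMem_empty j), if_pos hj] at this
        exact absurd this (by decide)
      rw [hJ, hone, one_mul] at hu
      rw [hJ2, hone, one_mul] at hv
      rw [hJ2, hJ, sdiff_empty, sdiff_empty] at ht
      refine ⟨a, b, -c, ?_, ?_⟩
      · rw [← hu, ← hv]; linear_combination hsum - ht
      · rw [Int.natAbs_neg, hs, Int.natAbs_mul, Int.natAbs_mul]


/-- all the primes divide the rational side -/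
theorem side3 (hp : ∀ i, (p i).Prime) (hp9 : ∀ i, p i % 3 = 2 ∨ p i = 3)
    (he : ∀ i, e i = 1 ∨ e i = 2) {η : Eis} {S z : ℤ} (hηprim : Prim η)
    (hηcop : IsCoprime η (conj η)) (hcoS : IsCoprime S η.norm)
    (hηS : S * η.norm = PP p e univ * z ^ 3) :
    ∃ (γ : Eis) (s t : ℤ), η = γ ^ 3 ∧ ¬ lam ∣ γ ∧ S = PP p e univ * s ^ 3 ∧ z = t * s := by
  have he0 : ∀ i, e i ≠ 0 := fun i => by have := he i; omega
  obtain ⟨J, -, t, s, ht, hs, hz⟩ := split_two p e hp he0 univ η.norm S z hcoS.symm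
    (by rw [mul_comm]; exact hηS)
  have hJ : J = ∅ := by
    ext j
    simp only [notMem_empty, iff_false]
    intro hj
    have hd : (p j : ℤ) ∣ η.norm := by
      rw [ht]
      apply Dvd.dvd.mul_right
      exact (dvd_pow_self _ (he0 j)).trans (dvd_prod_of_mem _ hj)
    rcases hp9 j with h | h
    · exact inert_not_dvd_norm (hp j) h hηcop hd
    · rw [h] at hd
      exact hηprim.not_lam_dvd (lam_dvd_iff_norm.mpr (by exact_mod_cast hd))
  subst hJ
  rw [prod_empty, one_mul] at ht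
  obtain ⟨γ, hγ, hγ3⟩ := extract (ρ := 1) prim_one (one_dvd _) hηprim hηcop (t := t)
    (by rw [norm_one, one_mul, ht])
  rw [one_mul] at hγ
  refine ⟨γ, s, t, hγ, hγ3, ?_, hz⟩
  rw [hs, sdiff_empty]; rfl

/-- **Step 0** when 3 divides `A` -/
theorem step0_three (hm : 2 ≤ m) (hp : ∀ i, (p i).Prime)
    (hp9 : ∀ i, p i % 9 = 2 ∨ p i % 9 = 5 ∨ p i = 3) {i3 : Fin m} (hi3 : p i3 = 3)
    (hinj : Function.Injective p) (he : ∀ i, e i = 1 ∨ e i = 2)
    (hXY : ∃ X Y : ℚ, X ^ 3 + Y ^ 3 = ∏ i, (p i : ℚ) ^ e i) : Concl3 p e := by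
  by_contra hnot
  obtain ⟨X, Y, hXY⟩ := hXY
  have hAcast : X ^ 3 + Y ^ 3 = ((PP p e univ : ℤ) : ℚ) := by
    rw [hXY]; unfold PP; push_cast; rfl
  obtain ⟨x, y, z, hz, hxyz⟩ := integral_solution hAcast
  have hprime : ∀ i, Prime (p i : ℤ) := fun i => Nat.prime_iff_prime_int.mp (hp i)
  have hA0 : PP p e univ ≠ 0 :=
    prod_ne_zero_iff.mpr (fun j _ => pow_ne_zero _ (hprime j).ne_zero)
  have hcf := cube_not_dvd_prod p e hp hinj (fun i => by have := he i; omega) univ
  have hp3 : ∀ i, p i % 3 = 2 ∨ p i = 3 := fun i => by have := hp9 i; omega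
  refine no_solution hA0 hcf ?_ z.natAbs x y z rfl hz hxyz
  clear hxyz hz x y z hAcast hXY X Y
  intro x y z hz hco hxyz
  -- the case where 3 divides z
  have main : (3 : ℤ) ∣ z → ∃ x' y' z' : ℤ, z' ≠ 0 ∧ x' ^ 3 + y' ^ 3 = PP p e univ * z' ^ 3 ∧
      z'.natAbs < z.natAbs := by
    intro h3z
    obtain ⟨z1, S, η, hz1, hηprim, hηcop, hηim, hηdiff, hcoS, hηS⟩ := caseA_data hco h3z hxyz
    obtain ⟨γ, s, t, hγ, hγ3, hS, hzt⟩ := side3 hp hp3 he hηprim hηcop hcoS hηS
    obtain ⟨α, δ⟩ := γ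
    have hcoad : IsCoprime α δ := coprime_coords rfl hγ3 (by rw [← hγ]; exact hηcop)
    have hprod : α * δ * (α - δ) = PP p e univ * s ^ 3 := by
      have h6 := congrArg Eis.im hγ
      simp only [pow_succ, pow_zero, one_mul, mul_im, mul_re] at h6
      rw [hηim] at h6
      rw [← hS]
      linarith
    have hc1 : IsCoprime α (δ - α) := by
      obtain ⟨u, v, huv⟩ := hcoad
      exact ⟨u + v, v, by linear_combination huv⟩
    have hc2 : IsCoprime (-δ) (δ - α) := by
      obtain ⟨u, v, huv⟩ := hcoad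
      exact ⟨-(u + v), -u, by linear_combination huv⟩
    have hs0 : s ≠ 0 := by
      rintro rfl
      apply hz
      rw [hz1, hzt]; ring
    obtain ⟨a, b, c, habc, hsabc⟩ := three_split' hp he hnot hs0 hcoad.neg_right hc1 hc2
      (by ring) (by rw [← hprod]; ring)
    obtain ⟨h1, h2⟩ := natAbs_lt_of (z := z) (s := s) (t := t) (by rw [hz1, hzt]) hsabc hz
    exact ⟨a, b, c, h1, habc, h2⟩
  by_cases h3z : (3 : ℤ) ∣ z
  · exact main h3z
  · exfalso
    have h3A : (3 : ℤ) ∣ PP p e univ := by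
      have he0 : e i3 ≠ 0 := by have := he i3; omega
      have h1 : (p i3 : ℤ) ∣ PP p e univ :=
        (dvd_pow_self _ he0).trans (dvd_prod_of_mem (fun j => (p j : ℤ) ^ e j) (mem_univ i3))
      rw [hi3] at h1
      exact_mod_cast h1
    have hno3 : ¬ ((3 : ℤ) ∣ x ∧ (3 : ℤ) ∣ y) := by
      rintro ⟨h1, h2⟩
      exact Int.prime_three.not_isUnit (hco.isUnit_of_dvd' h1 h2)
    -- 9 divides A
    have h9 : (9 : ℤ) ∣ PP p e univ := by
      have h3s : (3 : ℤ) ∣ x ^ 3 + y ^ 3 := by rw [hxyz]; exact Dvd.dvd.mul_right h3A _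
      have h3xy : (3 : ℤ) ∣ x + y := by
        have e1 : x ^ 3 + y ^ 3 = (x + y) ^ 3 - 3 * (x * y * (x + y)) := by ring
        rw [e1] at h3s
        have h4 := dvd_add h3s (dvd_mul_right (3 : ℤ) (x * y * (x + y)))
        rw [sub_add_cancel] at h4
        exact Int.prime_three.dvd_of_dvd_pow h4
      obtain ⟨k, hk⟩ := h3xy
      have h9s : (9 : ℤ) ∣ PP p e univ * z ^ 3 := by
        rw [← hxyz]
        exact ⟨k * (3 * k ^ 2 - x * y), by
          have : x = 3 * k - y := by linarith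
          rw [this]; ring⟩
      have h5 : (3 : ℤ) ^ 2 ∣ PP p e univ * z ^ 3 := by norm_num; exact h9s
      have h6 := Int.prime_three.pow_dvd_of_dvd_mul_right 2
        (fun h => h3z (Int.prime_three.dvd_of_dvd_pow h)) h5
      norm_num at h6
      exact h6
    obtain ⟨B, hB⟩ := h9
    have h3B : ¬ (3 : ℤ) ∣ B := by
      rintro ⟨B', hB'⟩
      apply hcf 3 Int.prime_three
      refine ⟨B', ?_⟩
      change PP p e univ = _
      rw [hB, hB']; ring
    obtain ⟨S0, η, hnl, hηcop, hηim, hηdiff, hcoS, hηS⟩ := caseC_data hco (B := B)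
      (by rw [← hB]; exact hxyz)
    have hS3 : ¬ (3 : ℤ) ∣ S0 := by
      intro h
      have h1 : (3 : ℤ) ∣ B * z ^ 3 := by rw [← hηS]; exact Dvd.dvd.mul_right h _
      rcases Int.prime_three.dvd_or_dvd h1 with h | h
      · exact h3B h
      · exact h3z (Int.prime_three.dvd_of_dvd_pow h)
    -- an inert prime
    obtain ⟨i0, hi0⟩ : ∃ i0 : Fin m, p i0 ≠ 3 := by
      by_contra hcon
      push Not at hcon
      have h01 : (⟨0, by omega⟩ : Fin m) = ⟨1, by omega⟩ := by
        apply hinj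
        rw [hcon, hcon]
      simp at h01
    have hr := hp i0
    have hr9 : p i0 % 9 = 2 ∨ p i0 % 9 = 5 := by have := hp9 i0; omega
    have hr3 : p i0 % 3 = 2 := by omega
    have hP := prime_inert hr hr3
    have hrn3 := FData.inert_n3 hr hr3
    have he0 : e i0 ≠ 0 := by have := he i0; omega
    obtain ⟨i, hi⟩ := exists_prim hnl
    -- all primes divide `S0`
    have hηη : IsCoprime (η * w ^ i) (conj (η * w ^ i)) := by
      have hu1 : IsUnit (w ^ i) := isUnit_w.pow i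
      have hu2 : IsUnit (conj (w ^ i)) := by
        rw [map_pow, conj_w]; exact (isUnit_w.pow 2).pow i
      rw [map_mul]
      rw [isCoprime_mul_unit_right_left hu1, isCoprime_mul_unit_right_right hu2]
      exact hηcop
    have hnorm : (η * w ^ i).norm = η.norm := by
      rw [norm_mul, Eis.norm_pow]
      have : w.norm = 1 := by decide
      rw [this, one_pow, mul_one]
    have hcoS' : IsCoprime (9 * S0) (η * w ^ i).norm := by rw [hnorm]; exact hcoS
    obtain ⟨γ, s, t, hγ, hγ3, hS, -⟩ := side3 hp hp3 he hi hηη hcoS' (z := z) (by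
      rw [hnorm, hB]; linear_combination 9 * hηS)
    have hdS : (p i0 : ℤ) ∣ S0 := by
      have h1 : (p i0 : ℤ) ∣ 9 * S0 := by
        rw [hS]
        apply Dvd.dvd.mul_right
        exact (dvd_pow_self _ he0).trans (dvd_prod_of_mem (fun j => (p j : ℤ) ^ e j) (mem_univ i0))
      exact ((hprime i0).dvd_or_dvd h1).resolve_left (ndvd9' hr hr3)
    have hdvd : (p i0 : Eis) ∣ η - conj η := by
      rw [hηdiff]
      apply Dvd.dvd.mul_left
      have h2 := intCast_dvd_intCast.mpr hdS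
      rwa [Int.cast_natCast] at h2
    have hnη : ∀ ξ : Eis, ξ.norm = η.norm → ¬ (p i0 : Eis) ∣ ξ := by
      have h0 := inert_not_dvd_norm hr hr3 hηcop
      intro ξ hξ hd
      apply h0
      obtain ⟨c, hc⟩ := hd
      rw [← hξ, hc, Eis.norm_mul, norm_natCast]
      exact ⟨p i0 * c.norm, by ring⟩
    have n1 := hnη η rfl
    have n2 := hnη (conj η) (norm_conj η)
    have hwi : ¬ (p i0 : Eis) ∣ w ^ i := fun h => not_dvd_w hP (hP.dvd_of_dvd_pow h)
    have hγd : ¬ (p i0 : Eis) ∣ γ := fun h => by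
      have h1 : (p i0 : Eis) ∣ η * w ^ i := by rw [hγ]; exact Dvd.dvd.pow h (by norm_num)
      exact (hP.dvd_or_dvd h1).elim n1 hwi
    have hs1 : sym (p i0 : Eis) η + (i : ZMod 3) * sym (p i0 : Eis) w = 0 := by
      have h1 : sym (p i0 : Eis) (η * w ^ i) = 0 := by rw [hγ]; exact sym_cube hP hrn3 hγd
      rwa [sym_mul hP hrn3 n1 hwi, FData.sym_w_pow hP hrn3] at h1
    have hs2 := sym_congr hdvd
    have hs3 := sym_conj hP hrn3 n1
    rw [conj_natCast] at hs3
    have hwne : sym (p i0 : Eis) w ≠ 0 := by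
      rw [FData.sym_w_r hr hr3]
      exact neg_ne_zero.mpr (wq_ne' hr9)
    have hi3 : (i : ZMod 3) = 0 := by
      have key : ∀ a b c d : ZMod 3, a + d * b = 0 → a = c → c = -a → b ≠ 0 → d = 0 := by decide
      exact key _ _ _ _ hs1 hs2 hs3 hwne
    have hi3' : 3 ∣ i := (ZMod.natCast_eq_zero_iff i 3).mp hi3
    obtain ⟨k, rfl⟩ := hi3'
    rw [pow_mul, w_cube, one_pow, mul_one] at hi
    exact hS3 (by rw [← hηim]; exact hi.1)

end Pool.Agent.Lib_helper84.Cub

end

section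

/-!
# (G4) every rational point of `X³ + Y³ = A` comes from the 3-isogenous curve, general version:
the prime factors of `A` are 3 or congruent to 2 modulo 3
(MP_8e0b0b_nt; mathematics: helper84; cf. `CubeRank/Lift.lean`, `Lib_helper84/Cub/StepThree.lean`)
-/

set_option autoImplicit false
set_option linter.unusedSectionVars false

namespace Pool.Agent.CubeRank

open Finset Pool.Agent.Lib_helper18 Pool.Agent.Lib_helper18.Eis Pool.Agent.Lib_helper84.Cub
  Pool.Agent.Lib_helper18.CubStep0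

section gcases

variable {m : ℕ} {p e : Fin m → ℕ} {x y z : ℤ}

/-- a prime congruent to 2 or 5 modulo 9 does not divide the norm -/
theorem not_dvd_of_norm {η : Eis} (hηcop : IsCoprime η (conj η)) {q : ℕ} (hr : q.Prime)
    (hr3 : q % 3 = 2) : ∀ ξ : Eis, ξ.norm = η.norm → ¬ (q : Eis) ∣ ξ := by
  have h0 := inert_not_dvd_norm hr hr3 hηcop
  intro ξ hξ hd
  apply h0
  obtain ⟨c, hc⟩ := hd
  rw [← hξ, hc, norm_mul, norm_natCast]
  exact ⟨q * c.norm, by ring⟩

/-- the case `3 ∤ z`, `A = ±1 mod 9` is impossible -/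
theorem glift_caseB1 (hp : ∀ i, (p i).Prime) (h3 : ∀ i, p i % 3 = 2 ∨ p i = 3)
    (he : ∀ i, e i = 1 ∨ e i = 2) {i0 : Fin m} (h9 : p i0 % 9 = 2 ∨ p i0 % 9 = 5)
    (hco : IsCoprime x y) (h3z : ¬ (3 : ℤ) ∣ z)
    (hA9 : PP p e univ % 9 = 1 ∨ PP p e univ % 9 = 8)
    (hxyz : x ^ 3 + y ^ 3 = PP p e univ * z ^ 3) : False := by
  obtain ⟨η, hηprim, hηcop, hηrel, hcoS, hηS⟩ := caseB1_data hco h3z hA9 hxyz
  obtain ⟨γ, s, t, hγ, hγ3, hS, hzt⟩ := side3 hp h3 he hηprim hηcop hcoS hηS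
  have hr := hp i0
  have hr3 : p i0 % 3 = 2 := by omega
  have hP := prime_inert hr hr3
  have hrn3 := FData.inert_n3 hr hr3
  have hdvd : (p i0 : Eis) ∣ w * η + w ^ 2 * conj η := by
    rw [hηrel, dvd_neg]
    have h1 : (p i0 : ℤ) ∣ x + y := by
      rw [hS]
      apply Dvd.dvd.mul_right
      have he0 : e i0 ≠ 0 := by have := he i0; omega
      exact (dvd_pow_self _ he0).trans (dvd_prod_of_mem (fun j => (p j : ℤ) ^ e j) (mem_univ i0))
    have h2 := intCast_dvd_intCast.mpr h1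
    rwa [Int.cast_natCast] at h2
  have hn := not_dvd_of_norm hηcop hr hr3
  have n1 : ¬ (p i0 : Eis) ∣ η := hn _ rfl
  have n2 : ¬ (p i0 : Eis) ∣ conj η := hn _ (norm_conj η)
  have hw1 : ¬ (p i0 : Eis) ∣ w := not_dvd_of_isUnit hP isUnit_w
  have hw2 : ¬ (p i0 : Eis) ∣ w ^ 2 := not_dvd_of_isUnit hP (isUnit_w.pow 2)
  have hγd : ¬ (p i0 : Eis) ∣ γ := fun h => n1 (by
    rw [hγ]; exact Dvd.dvd.pow h (by norm_num))
  have hγd' : ¬ (p i0 : Eis) ∣ conj γ := fun h => n2 (by
    rw [hγ, map_pow]; exact Dvd.dvd.pow h (by norm_num))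
  have hm2 : ¬ (p i0 : Eis) ∣ w ^ 2 * conj η := fun h => (hP.dvd_or_dvd h).elim hw2 n2
  have hc : sym (p i0 : Eis) (w * η) = sym (p i0 : Eis) (w ^ 2 * conj η) := by
    rw [← sym_neg hP hrn3 hm2]
    apply sym_congr
    rw [sub_neg_eq_add]; exact hdvd
  rw [sym_mul hP hrn3 hw1 n1, sym_mul hP hrn3 hw2 n2, hγ, sym_cube hP hrn3 hγd,
    map_pow, sym_cube hP hrn3 hγd', FData.sym_w_pow hP hrn3, FData.sym_w_r hr hr3] at hc
  have hwq : wq (p i0) = 0 := by
    have h3 : (3 : ZMod 3) = 0 := by decide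
    push_cast at hc
    linear_combination hc
  exact wq_ne' h9 hwq

/-- the case `3 ∤ z`, `3 ∣ A` is impossible -/
theorem glift_caseC (hp : ∀ i, (p i).Prime) (h3 : ∀ i, p i % 3 = 2 ∨ p i = 3)
    (hinj : Function.Injective p)
    (he : ∀ i, e i = 1 ∨ e i = 2) {i0 : Fin m} (h9 : p i0 % 9 = 2 ∨ p i0 % 9 = 5)
    (hco : IsCoprime x y) (h3z : ¬ (3 : ℤ) ∣ z) (h3A : (3 : ℤ) ∣ PP p e univ)
    (hxyz : x ^ 3 + y ^ 3 = PP p e univ * z ^ 3) : False := by
  have hprime : ∀ i, Prime (p i : ℤ) := fun i => Nat.prime_iff_prime_int.mp (hp i)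
  have hcf := cube_not_dvd_prod p e hp hinj (fun i => by have := he i; omega) univ
  -- 9 divides A
  have h9A : (9 : ℤ) ∣ PP p e univ := by
    have h3s : (3 : ℤ) ∣ x ^ 3 + y ^ 3 := by rw [hxyz]; exact Dvd.dvd.mul_right h3A _
    have h3xy : (3 : ℤ) ∣ x + y := by
      have e1 : x ^ 3 + y ^ 3 = (x + y) ^ 3 - 3 * (x * y * (x + y)) := by ring
      rw [e1] at h3s
      have h4 := dvd_add h3s (dvd_mul_right (3 : ℤ) (x * y * (x + y)))
      rw [sub_add_cancel] at h4
      exact Int.prime_three.dvd_of_dvd_pow h4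
    obtain ⟨k, hk⟩ := h3xy
    have h9s : (9 : ℤ) ∣ PP p e univ * z ^ 3 := by
      rw [← hxyz]
      exact ⟨k * (3 * k ^ 2 - x * y), by
        have : x = 3 * k - y := by linarith
        rw [this]; ring⟩
    have h5 : (3 : ℤ) ^ 2 ∣ PP p e univ * z ^ 3 := by norm_num; exact h9s
    have h6 := Int.prime_three.pow_dvd_of_dvd_mul_right 2
      (fun h => h3z (Int.prime_three.dvd_of_dvd_pow h)) h5
    norm_num at h6
    exact h6
  obtain ⟨B, hB⟩ := h9A
  have h3B : ¬ (3 : ℤ) ∣ B := by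
    rintro ⟨B', hB'⟩
    apply hcf 3 Int.prime_three
    refine ⟨B', ?_⟩
    change PP p e univ = _
    rw [hB, hB']; ring
  obtain ⟨S0, η, hnl, hηcop, hηim, hηdiff, hcoS, hηS⟩ := caseC_data hco (B := B)
    (by rw [← hB]; exact hxyz)
  have hS3 : ¬ (3 : ℤ) ∣ S0 := by
    intro h
    have h1 : (3 : ℤ) ∣ B * z ^ 3 := by rw [← hηS]; exact Dvd.dvd.mul_right h _
    rcases Int.prime_three.dvd_or_dvd h1 with h | h
    · exact h3B h
    · exact h3z (Int.prime_three.dvd_of_dvd_pow h)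
  have hr := hp i0
  have hr3 : p i0 % 3 = 2 := by omega
  have hP := prime_inert hr hr3
  have hrn3 := FData.inert_n3 hr hr3
  have he0 : e i0 ≠ 0 := by have := he i0; omega
  obtain ⟨i, hi⟩ := exists_prim hnl
  -- all primes divide `S0`
  have hηη : IsCoprime (η * w ^ i) (conj (η * w ^ i)) := by
    have hu1 : IsUnit (w ^ i) := isUnit_w.pow i
    have hu2 : IsUnit (conj (w ^ i)) := by
      rw [map_pow, conj_w]; exact (isUnit_w.pow 2).pow i
    rw [map_mul]
    rw [isCoprime_mul_unit_right_left hu1, isCoprime_mul_unit_right_right hu2]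
    exact hηcop
  have hnorm : (η * w ^ i).norm = η.norm := by
    rw [norm_mul, Eis.norm_pow]
    have : w.norm = 1 := by decide
    rw [this, one_pow, mul_one]
  have hcoS' : IsCoprime (9 * S0) (η * w ^ i).norm := by rw [hnorm]; exact hcoS
  obtain ⟨γ, s, t, hγ, hγ3, hS, -⟩ := side3 hp h3 he hi hηη hcoS' (z := z) (by
    rw [hnorm, hB]; linear_combination 9 * hηS)
  have hdS : (p i0 : ℤ) ∣ S0 := by
    have h1 : (p i0 : ℤ) ∣ 9 * S0 := by
      rw [hS]
      apply Dvd.dvd.mul_right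
      exact (dvd_pow_self _ he0).trans (dvd_prod_of_mem (fun j => (p j : ℤ) ^ e j) (mem_univ i0))
    exact ((hprime i0).dvd_or_dvd h1).resolve_left (ndvd9' hr hr3)
  have hdvd : (p i0 : Eis) ∣ η - conj η := by
    rw [hηdiff]
    apply Dvd.dvd.mul_left
    have h2 := intCast_dvd_intCast.mpr hdS
    rwa [Int.cast_natCast] at h2
  have hnη := not_dvd_of_norm hηcop hr hr3
  have n1 := hnη η rfl
  have n2 := hnη (conj η) (norm_conj η)
  have hwi : ¬ (p i0 : Eis) ∣ w ^ i := fun h => not_dvd_w hP (hP.dvd_of_dvd_pow h)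
  have hγd : ¬ (p i0 : Eis) ∣ γ := fun h => by
    have h1 : (p i0 : Eis) ∣ η * w ^ i := by rw [hγ]; exact Dvd.dvd.pow h (by norm_num)
    exact (hP.dvd_or_dvd h1).elim n1 hwi
  have hs1 : sym (p i0 : Eis) η + (i : ZMod 3) * sym (p i0 : Eis) w = 0 := by
    have h1 : sym (p i0 : Eis) (η * w ^ i) = 0 := by rw [hγ]; exact sym_cube hP hrn3 hγd
    rwa [sym_mul hP hrn3 n1 hwi, FData.sym_w_pow hP hrn3] at h1
  have hs2 := sym_congr hdvd
  have hs3 := sym_conj hP hrn3 n1
  rw [conj_natCast] at hs3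
  have hwne : sym (p i0 : Eis) w ≠ 0 := by
    rw [FData.sym_w_r hr hr3]
    exact neg_ne_zero.mpr (wq_ne' h9)
  have hi3 : (i : ZMod 3) = 0 := by
    have key : ∀ a b c d : ZMod 3, a + d * b = 0 → a = c → c = -a → b ≠ 0 → d = 0 := by decide
    exact key _ _ _ _ hs1 hs2 hs3 hwne
  have hi3' : 3 ∣ i := (ZMod.natCast_eq_zero_iff i 3).mp hi3
  obtain ⟨k, rfl⟩ := hi3'
  rw [pow_mul, w_cube, one_pow, mul_one] at hi
  exact hS3 (by rw [← hηim]; exact hi.1)

end gcases

/-- **(G4)** -/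
theorem liftG : LiftStmtG := by
  intro m p e hyp x y z hz hco hxyz
  have hp := hyp.hp
  have h3 := hyp.h3
  have he := hyp.he
  obtain ⟨i0, h9⟩ := hyp.ex
  have hAA : AA p e = PP p e univ := rfl
  rw [hAA] at hxyz ⊢
  have hxy : ((x : Eis) + w * y) = (⟨x, y⟩ : Eis) := by
    ext
    · simp
    · simp
  rw [hxy]
  by_cases h3z : (3 : ℤ) ∣ z
  · obtain ⟨z1, S, η, hz1, hηprim, hηcop, hηim, hηlam, hcoS, hηS⟩ := lift_caseA hco h3z hxyz
    obtain ⟨γ, s, t, hγ, hγ3, hS, hzt⟩ := side3 hp h3 he hηprim hηcop hcoS hηS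
    obtain ⟨α, δ⟩ := γ
    have hcoad : IsCoprime α δ := coprime_coords rfl hγ3 (by rw [← hγ]; exact hηcop)
    have hprod : α * δ * (α - δ) = PP p e univ * s ^ 3 := by
      have h6 := congrArg Eis.im hγ
      simp only [pow_succ, pow_zero, one_mul, mul_im, mul_re] at h6
      rw [hηim] at h6
      rw [← hS]
      linarith
    have hs0 : s ≠ 0 := by
      rintro rfl
      apply hz
      rw [hz1, hzt]; ring
    refine ⟨α, δ, s, 1, 1, hcoad, hs0, one_ne_zero, one_ne_zero, hprod, ?_⟩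
    have hαδ : ((α : Eis) + δ * w) = (⟨α, δ⟩ : Eis) := (eq_re_add_im ⟨α, δ⟩).symm
    rw [hαδ, hηlam, hγ]
  · by_cases h3A : (3 : ℤ) ∣ PP p e univ
    · exact absurd hxyz (fun h => glift_caseC hp h3 hyp.inj he h9 hco h3z h3A h)
    by_cases hA9 : PP p e univ % 9 = 1 ∨ PP p e univ % 9 = 8
    · exact absurd hxyz (fun h => glift_caseB1 hp h3 he h9 hco h3z hA9 h)
    · have hA1 : PP p e univ % 9 ≠ 1 := fun h => hA9 (Or.inl h)
      have hA8 : PP p e univ % 9 ≠ 8 := fun h => hA9 (Or.inr h)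
      obtain ⟨η, hηprim, hηcop, hηsum, hηw, hcoS, hηS⟩ :=
        lift_caseB hco h3z h3A hA1 hA8 hxyz
      obtain ⟨γ, s, t, hγ, hγ3, hS, hzt⟩ := side3 hp h3 he hηprim hηcop hcoS hηS
      have hs0 : s ≠ 0 := by rintro rfl; simp at hzt; exact hz hzt
      obtain ⟨α, δ⟩ := γ
      have hcoad : IsCoprime α δ := coprime_coords rfl hγ3 (by rw [← hγ]; exact hηcop)
      have hl : ¬ (3 : ℤ) ∣ α + δ := by rw [lam_dvd_iff] at hγ3; exact hγ3
      have hprod : (2 * α - δ) * (-α - δ) * (2 * δ - α) = PP p e univ * (-s) ^ 3 := by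
        have h6 := trace_identity α δ
        rw [← map_pow, ← hγ, hηsum, hS] at h6
        have h7 := congrArg Eis.re h6
        simp only [neg_re, intCast_re] at h7
        rw [← h7]; ring
      obtain ⟨c1, -, -⟩ := coord_coprime hcoad hl
      refine ⟨2 * α - δ, α + δ, -s, -9, 1, ?_, neg_ne_zero.mpr hs0, by norm_num, one_ne_zero,
        ?_, ?_⟩
      · have := c1.neg_right
        rwa [show -(-α - δ) = α + δ by ring] at this
      · rw [← hprod]; ring
      · have e1 : (((2 * α - δ : ℤ) : Eis) + ((α + δ : ℤ) : Eis) * w) =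
            (⟨α, δ⟩ : Eis) * (1 - w ^ 2) := by
          rw [w_sq]
          ext
          · simp only [add_re, mul_re, sub_re, neg_re, intCast_re, intCast_im, one_re, w_re, w_im,
              sub_im, neg_im, one_im]; ring
          · simp only [add_im, mul_im, sub_re, neg_re, intCast_re, intCast_im, one_re, w_re, w_im,
              sub_im, neg_im, one_im]; ring
        have e2 : (lam : Eis) * (1 - w ^ 2) ^ 3 * w = -9 := by
          decide
        have e3 : lam * ((⟨α, δ⟩ : Eis) * (1 - w ^ 2)) ^ 3 =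
            lam * (1 - w ^ 2) ^ 3 * (⟨α, δ⟩ : Eis) ^ 3 := by ring
        rw [e1, e3, ← hγ, hηw]
        push_cast
        linear_combination (-(⟨x, y⟩ : Eis)) * e2

end Pool.Agent.CubeRank

end

section

/-!
# CubeRank M5c: points of class zero are multiples of 3, other classes are represented
(MP_8e0b0b_nt; helper55)
-/

set_option autoImplicit false

namespace Pool.Agent.CubeRank

open Finset Pool.Agent.Lib_helper18 Pool.Agent.Lib_helper18.Eis Pool.Agent.Lib_helper84.Cub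
  Pool.Agent.Lib_helper18.CubStep0

namespace KapRepAux

/-! ## Cubes whose ratio is rational -/

lemma cube_rat {γ γ' : Eis} {M N : ℤ} (hM : M ≠ 0) (h : (M : Eis) * γ ^ 3 = N * γ' ^ 3) :
    ∃ (n : ℤ) (j : ℕ), (γ'.norm : Eis) * γ = n * w ^ j * γ' := by
  have h1 : (M : Eis) * (γ * conj γ') ^ 3 = ((N * γ'.norm ^ 3 : ℤ) : Eis) := by
    rw [mul_pow, ← mul_assoc, h, mul_assoc, ← mul_pow, mul_conj]
    push_cast
    ring
  obtain ⟨r, i, hz⟩ : ∃ r i : ℤ, γ * conj γ' = ⟨r, i⟩ := ⟨_, _, rfl⟩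
  have h2 : r * i * (r - i) = 0 := by
    rw [hz] at h1
    have h3 := congrArg Eis.im h1
    simp only [pow_succ, pow_zero, one_mul, mul_im, mul_re, intCast_im, intCast_re] at h3
    have h4 : M * (3 * (r * i * (r - i))) = 0 := by linear_combination h3
    have h5 := (mul_eq_zero.mp h4).resolve_left hM
    exact (mul_eq_zero.mp h5).resolve_left (by norm_num)
  have key : ∀ (n : ℤ) (j : ℕ), γ * conj γ' = (n : Eis) * w ^ j →
      (γ'.norm : Eis) * γ = n * w ^ j * γ' := by
    intro n j hn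
    rw [← hn, ← mul_conj]
    ring
  rcases mul_eq_zero.mp h2 with h3 | h3
  · rcases mul_eq_zero.mp h3 with h4 | h4
    · refine ⟨i, 1, key _ _ ?_⟩
      rw [hz, h4]
      ext <;> simp
    · refine ⟨r, 0, key _ _ ?_⟩
      rw [hz, h4]
      ext <;> simp
  · refine ⟨-r, 2, key _ _ ?_⟩
    have h4 : i = r := by linarith
    rw [hz, h4, w_sq]
    ext <;> simp

lemma sym_of_eq {q : ℕ} (hq : q.Prime) (h3 : q % 3 = 2) {γ γ' : Eis} {n : ℤ} {j : ℕ}
    (hγ : ¬ (q : Eis) ∣ γ) (hγ' : ¬ (q : Eis) ∣ γ')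
    (h : (γ'.norm : Eis) * γ = n * w ^ j * γ') :
    sym (q : Eis) γ = (j : ZMod 3) * sym (q : Eis) w + sym (q : Eis) γ' := by
  have hP := prime_inert hq h3
  have hn3 := n3 hq h3
  have hcq : ¬ (q : Eis) ∣ conj γ' := by
    intro hd
    apply hγ'
    have := conj_dvd hd
    rwa [conj_conj, conj_natCast] at this
  have hN : ¬ (q : Eis) ∣ (γ'.norm : Eis) := by
    rw [← mul_conj]
    exact fun hd => (hP.dvd_or_dvd hd).elim hγ' hcq
  have hN' : ¬ (q : ℤ) ∣ γ'.norm := by
    intro hd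
    apply hN
    have := intCast_dvd_intCast.mpr hd
    rwa [Int.cast_natCast] at this
  have hn : ¬ (q : Eis) ∣ (n : Eis) := by
    intro hd
    have h4 : (q : Eis) ∣ (γ'.norm : Eis) * γ := by
      rw [h, mul_assoc]
      exact Dvd.dvd.mul_right hd _
    exact (hP.dvd_or_dvd h4).elim hN hγ
  have hn' : ¬ (q : ℤ) ∣ n := by
    intro hd
    apply hn
    have := intCast_dvd_intCast.mpr hd
    rwa [Int.cast_natCast] at this
  have hw : ¬ (q : Eis) ∣ w ^ j := fun hd => not_dvd_w hP (hP.dvd_of_dvd_pow hd)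
  have hnw : ¬ (q : Eis) ∣ (n : Eis) * w ^ j := fun hd => (hP.dvd_or_dvd hd).elim hn hw
  have h5 := congrArg (sym (q : Eis)) h
  rw [sym_mul hP hn3 hN hγ, sym_mul hP hn3 hnw hγ', sym_mul hP hn3 hn hw, sym_int hq h3 hN',
    sym_int hq h3 hn', sym_pow hP hn3 (not_dvd_w hP), zero_add, zero_add] at h5
  exact h5

lemma sym_w_ne {q : ℕ} (hq : q.Prime) (h9 : q % 9 = 2 ∨ q % 9 = 5) :
    sym (q : Eis) w ≠ 0 := by
  rw [FData.sym_w_r hq (by omega)]
  apply neg_ne_zero.mpr
  unfold wq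
  have : (q : ℤ) % 9 = 2 ∨ (q : ℤ) % 9 = 5 := by omega
  rcases this with h | h <;> rw [h] <;> decide

/-- the symbol of `α + δ ω` -/
lemma sym_pos {q : ℕ} (hq : q.Prime) (h3 : q % 3 = 2) {α δ : ℤ} (hco : IsCoprime α δ) :
    ((q : ℤ) ∣ α → sym (q : Eis) ((α : Eis) + δ * w) = 1 * sym (q : Eis) w) ∧
    ((q : ℤ) ∣ -δ → sym (q : Eis) ((α : Eis) + δ * w) = 0 * sym (q : Eis) w) ∧
    ((q : ℤ) ∣ δ - α → sym (q : Eis) ((α : Eis) + δ * w) = 2 * sym (q : Eis) w) := by
  have hP := prime_inert hq h3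
  have hn3 := n3 hq h3
  have hqZ := Nat.prime_iff_prime_int.mp hq
  have hno : ¬ ((q : ℤ) ∣ α ∧ (q : ℤ) ∣ δ) := fun h =>
    hqZ.not_isUnit (hco.isUnit_of_dvd' h.1 h.2)
  have cast : ∀ n : ℤ, ¬ (q : ℤ) ∣ n → ¬ (q : Eis) ∣ (n : Eis) := by
    intro n hn hd
    apply hn
    have h : ((q : ℤ) : Eis) ∣ (n : Eis) := by rwa [Int.cast_natCast]
    exact intCast_dvd_intCast.mp h
  have cast' : ∀ n : ℤ, (q : ℤ) ∣ n → (q : Eis) ∣ (n : Eis) := by
    intro n hd
    have := intCast_dvd_intCast.mpr hd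
    rwa [Int.cast_natCast] at this
  refine ⟨?_, ?_, ?_⟩
  · intro h
    have hδ : ¬ (q : ℤ) ∣ δ := fun h' => hno ⟨h, h'⟩
    have h1 : sym (q : Eis) ((α : Eis) + δ * w) = sym (q : Eis) ((δ : Eis) * w) := by
      apply sym_congr
      rw [add_sub_cancel_right]
      exact cast' _ h
    rw [h1, sym_mul hP hn3 (cast _ hδ) (not_dvd_w hP), sym_int hq h3 hδ]
    ring
  · intro h
    have hδ : (q : ℤ) ∣ δ := (dvd_neg).mp h
    have hα : ¬ (q : ℤ) ∣ α := fun h' => hno ⟨h', hδ⟩
    have h1 : sym (q : Eis) ((α : Eis) + δ * w) = sym (q : Eis) (α : Eis) := by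
      apply sym_congr
      rw [add_sub_cancel_left]
      exact Dvd.dvd.mul_right (cast' _ hδ) _
    rw [h1, sym_int hq h3 hα]
    ring
  · intro h
    have hα : ¬ (q : ℤ) ∣ α := by
      intro h'
      exact hno ⟨h', by simpa using dvd_add h h'⟩
    have h1 : sym (q : Eis) ((α : Eis) + δ * w) = sym (q : Eis) (((-α : ℤ) : Eis) * w ^ 2) := by
      apply sym_congr
      have e : (α : Eis) + δ * w - ((-α : ℤ) : Eis) * w ^ 2 = ((δ - α : ℤ) : Eis) * w := by
        rw [w_sq]
        push_cast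
        ring
      rw [e]
      exact Dvd.dvd.mul_right (cast' _ h) _
    have hα' : ¬ (q : ℤ) ∣ -α := fun h' => hα ((dvd_neg).mp h')
    have hw2 : ¬ (q : Eis) ∣ w ^ 2 := fun hd => not_dvd_w hP (hP.dvd_of_dvd_pow hd)
    rw [h1, sym_mul hP hn3 (cast _ hα') hw2, sym_int hq h3 hα',
      sym_pow hP hn3 (not_dvd_w hP)]
    push_cast
    ring

/-! ## Splitting -/

lemma split3 {m : ℕ} {p e : Fin m → ℕ} (hp : ∀ i, (p i).Prime) (he0 : ∀ i, e i ≠ 0)
    {u v t s : ℤ} (huv : IsCoprime u v) (hut : IsCoprime u t) (hvt : IsCoprime v t)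
    (hprod : u * v * t = AA p e * s ^ 3) :
    ∃ (pos : Fin m → Fin 3) (x : Fin 3 → ℤ), u = cell p e pos 0 * x 0 ^ 3 ∧
      v = cell p e pos 1 * x 1 ^ 3 ∧ t = cell p e pos 2 * x 2 ^ 3 ∧ s = x 0 * x 1 * x 2 := by
  obtain ⟨J, -, a, w, hu, hw, hs1⟩ := split_two p e hp he0 univ u (v * t) s (huv.mul_right hut)
    (by rw [← mul_assoc]; exact hprod)
  obtain ⟨J', hJ', b, c, hv, ht, hs2⟩ := split_two p e hp he0 (univ \ J) v t w hvt hw
  change u = PP p e J * a ^ 3 at hu
  change v = PP p e J' * b ^ 3 at hv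
  change t = PP p e ((univ \ J) \ J') * c ^ 3 at ht
  have c0 : cell p e (posOf J J') 0 = PP p e J := by rw [cell_eq, filter_pos_zero]
  have c1 : cell p e (posOf J J') 1 = PP p e J' := by rw [cell_eq, filter_pos_one hJ']
  have c2 : cell p e (posOf J J') 2 = PP p e ((univ \ J) \ J') := by
    rw [cell_eq, filter_pos_two]
  refine ⟨posOf J J', ![a, b, c], ?_, ?_, ?_, ?_⟩
  · rw [c0]; exact hu
  · rw [c1]; exact hv
  · rw [c2]; exact ht
  · rw [hs1, hs2, ← mul_assoc]; rfl

lemma dvd_cell {m : ℕ} (p e : Fin m → ℕ) (he0 : ∀ i, e i ≠ 0) (pos : Fin m → Fin 3)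
    (i : Fin m) (k : Fin 3) (h : pos i = k) : (p i : ℤ) ∣ cell p e pos k := by
  unfold cell
  refine Dvd.dvd.trans ?_ (dvd_prod_of_mem _ (mem_univ i))
  rw [if_pos h]
  exact dvd_pow_self _ (he0 i)

lemma cell_all {m : ℕ} (p e : Fin m → ℕ) (pos : Fin m → Fin 3) (k : Fin 3)
    (h : ∀ i, pos i = k) : cell p e pos k = AA p e ∧ ∀ k', k' ≠ k → cell p e pos k' = 1 := by
  constructor
  · unfold cell AA
    exact prod_congr rfl fun i _ => if_pos (h i)
  · intro k' hk
    unfold cell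
    refine prod_eq_one fun i _ => if_neg ?_
    rw [h i]
    exact hk.symm

lemma isPt_of {m : ℕ} {p e : Fin m → ℕ} {pos : Fin m → Fin 3} {x : Fin 3 → ℤ} {u v t s : ℤ}
    (hu : u = cell p e pos 0 * x 0 ^ 3) (hv : v = cell p e pos 1 * x 1 ^ 3)
    (ht : t = cell p e pos 2 * x 2 ^ 3) (hs : s = x 0 * x 1 * x 2) (hs0 : s ≠ 0)
    (huv : IsCoprime u v) (hut : IsCoprime u t) (hvt : IsCoprime v t) (hsum : u + v + t = 0) :
    IsPt p e pos x := by
  refine ⟨?_, ?_, ?_⟩
  · intro k hk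
    apply hs0
    rw [hs]
    fin_cases k
    · have h : x 0 = 0 := hk
      rw [h]; ring
    · have h : x 1 = 0 := hk
      rw [h]; ring
    · have h : x 2 = 0 := hk
      rw [h]; ring
  · rw [Fin.sum_univ_three, ← hu, ← hv, ← ht]; exact hsum
  · have d0 : cell p e pos 0 * x 0 ∣ u := ⟨x 0 ^ 2, by rw [hu]; ring⟩
    have d1 : cell p e pos 1 * x 1 ∣ v := ⟨x 1 ^ 2, by rw [hv]; ring⟩
    have d2 : cell p e pos 2 * x 2 ∣ t := ⟨x 2 ^ 2, by rw [ht]; ring⟩
    have h01 := huv.of_isCoprime_of_dvd_left d0 |>.of_isCoprime_of_dvd_right d1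
    have h02 := hut.of_isCoprime_of_dvd_left d0 |>.of_isCoprime_of_dvd_right d2
    have h12 := hvt.of_isCoprime_of_dvd_left d1 |>.of_isCoprime_of_dvd_right d2
    intro i j hij
    fin_cases i <;> fin_cases j
    · exact absurd rfl hij
    · exact h01
    · exact h02
    · exact h01.symm
    · exact absurd rfl hij
    · exact h12
    · exact h02.symm
    · exact h12.symm
    · exact absurd rfl hij

/-! ## Multiples of 3 -/

lemma core (h1 : BasicsStmt) (h3 : TripleStmt) (A : ℤ) (hA : A ≠ 0)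
    (hnc : ¬ ∃ n : ℤ, n ^ 3 = A) (P : GA A) (a b c : ℤ) (hP : Crd A P a b c)
    (t1 t2 α δ x y z : ℤ) (ht1 : t1 ≠ 0) (ht2 : t2 ≠ 0)
    (hg : (t1 : Eis) * ((a : Eis) + w * b) = t2 * (lam * ((α : Eis) + δ * w) ^ 3))
    (hz : z ≠ 0) (hxy : IsCoprime x y) (hxyz : x ^ 3 + y ^ 3 = A * z ^ 3)
    (e1 : α ^ 3 + 3 * α ^ 2 * δ - 6 * α * δ ^ 2 + δ ^ 3 = -TX x y)
    (e2 : -α ^ 3 + 6 * α ^ 2 * δ - 3 * α * δ ^ 2 - δ ^ 3 = -TY x y) : P ∈ threeMul A := by
  obtain ⟨Q, hQ⟩ := (h1 A hA).2.1 x y z hz hxy hxyz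
  obtain ⟨X, Y, h, h3Q, hX, hY⟩ := h3 A hA hnc Q x y z hQ
  obtain ⟨hc, -, habc, x', y', h', hP', hx', hy'⟩ := hP
  have ha : t1 * a = -t2 * TX x y := by
    have h5 := congrArg Eis.re hg
    simp only [pow_succ, pow_zero, one_mul, mul_im, mul_re, add_re, add_im, intCast_im,
      intCast_re, w_re, w_im, lam_re, lam_im] at h5
    linear_combination h5 + t2 * e1
  have hb : t1 * b = -t2 * TY x y := by
    have h5 := congrArg Eis.im hg
    simp only [pow_succ, pow_zero, one_mul, mul_im, mul_re, add_re, add_im, intCast_im,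
      intCast_re, w_re, w_im, lam_re, lam_im] at h5
    linear_combination h5 + t2 * e2
  have hab : a + b ≠ 0 := by
    intro h0
    have h5 : A * c ^ 3 = 0 := by
      rw [← habc]
      have : b = -a := by linarith
      rw [this]; ring
    rcases mul_eq_zero.mp h5 with h6 | h6
    · exact hA h6
    · exact hc (pow_eq_zero_iff (by norm_num) |>.mp h6)
  have hT : TX x y + TY x y ≠ 0 := by
    intro h0
    apply hab
    have h5 : t1 * (a + b) = 0 := by linear_combination ha + hb - t2 * h0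
    exact (mul_eq_zero.mp h5).resolve_left ht1
  have hTT : TX x y ^ 3 + TY x y ^ 3 = A * TZ x y z ^ 3 := by
    unfold TX TY TZ
    linear_combination 27 * x ^ 3 * y ^ 3 * (x ^ 6 + x ^ 3 * y ^ 3 + y ^ 6) ^ 3 * hxyz
  have hcc : t1 * c = -t2 * TZ x y z := by
    have h5 : A * (t1 * c) ^ 3 = A * (-t2 * TZ x y z) ^ 3 := by
      have h6 : (t1 * a) ^ 3 + (t1 * b) ^ 3 = A * (t1 * c) ^ 3 := by
        linear_combination t1 ^ 3 * habc
      rw [ha, hb] at h6
      linear_combination (-t2 ^ 3) * hTT - h6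
    have h7 := mul_left_cancel₀ hA h5
    exact (Odd.strictMono_pow (by decide : Odd 3)).injective h7
  have haQ : (t1 : ℚ) * a = -t2 * (TX x y : ℤ) := by exact_mod_cast ha
  have hbQ : (t1 : ℚ) * b = -t2 * (TY x y : ℤ) := by exact_mod_cast hb
  have hcQ : (t1 : ℚ) * c = -t2 * (TZ x y z : ℤ) := by exact_mod_cast hcc
  have ht2Q : (t2 : ℚ) ≠ 0 := by exact_mod_cast ht2
  have hTQ : ((TX x y : ℤ) : ℚ) + (TY x y : ℤ) ≠ 0 := by exact_mod_cast hT
  have ex : x' = X := by
    have h5 : (t2 : ℚ) * (((TX x y : ℤ) : ℚ) + (TY x y : ℤ)) * (x' - X) = 0 := by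
      linear_combination (-t1 : ℚ) * hx' - t2 * hX + x' * haQ + x' * hbQ - 12 * A * hcQ
    have h6 := (mul_eq_zero.mp h5).resolve_left (mul_ne_zero ht2Q hTQ)
    linarith
  have ey : y' = Y := by
    have h5 : (t2 : ℚ) * (((TX x y : ℤ) : ℚ) + (TY x y : ℤ)) * (y' - Y) = 0 := by
      linear_combination (-t1 : ℚ) * hy' - t2 * hY + y' * haQ + y' * hbQ -
        36 * A * haQ + 36 * A * hbQ
    have h6 := (mul_eq_zero.mp h5).resolve_left (mul_ne_zero ht2Q hTQ)
    linarith
  subst ex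
  subst ey
  refine ⟨Q, ?_⟩
  show (3 : ℕ) • Q = P
  rw [h3Q, hP']

/-! ## Permutations -/

/-- the value attached to a cell -/
def fv (c : ZMod 3) (k : Fin 3) : ZMod 3 := c + (1 - (k.val : ZMod 3))

lemma fv_inj : ∀ c : ZMod 3, ∀ k k' : Fin 3, fv c k = fv c k' → k = k' := by decide

lemma zf_fv_inj : ∀ c : ZMod 3, ∀ k k' : Fin 3, zf (fv c k) = zf (fv c k') → k = k' := by decide

end KapRepAux

open _root_.Pool.Agent.CubeRank.KapRepAux in
/-- module `CR_KAPREP` -/
theorem kapRep (h1 : BasicsStmt) (h2 : LiftStmt) (h3 : TripleStmt) : KapRepStmt := by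
  intro m p e hm hH P v hK
  rcases hK with ⟨hP0, c, hc⟩ | ⟨a, b, c, γ, t1, t2, hCrd, ht1, ht2, hg, hsym⟩
  · refine ⟨fun _ => ?_, fun hn => absurd ⟨c, hc⟩ hn⟩
    rw [hP0]
    exact (threeMul (AA p e)).zero_mem
  have he0 : ∀ i, e i ≠ 0 := fun i => by have := hH.he i; omega
  have hp3 : ∀ i, p i % 3 = 2 := fun i => by have := hH.h9 i; omega
  obtain ⟨hc0, hab, habc, -⟩ := id hCrd
  obtain ⟨α, δ, s, r1, r2, hco, hs0, hr1, hr2, hprod, hg'⟩ := h2 m p e hm hH a b c hc0 hab habc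
  -- comparison of the two lifts
  have hcmp : ((r1 * t2 : ℤ) : Eis) * γ ^ 3 = ((t1 * r2 : ℤ) : Eis) * ((α : Eis) + δ * w) ^ 3 := by
    have h5 : lam * (((r1 * t2 : ℤ) : Eis) * γ ^ 3) =
        lam * (((t1 * r2 : ℤ) : Eis) * ((α : Eis) + δ * w) ^ 3) := by
      push_cast
      linear_combination (t1 : Eis) * hg' - (r1 : Eis) * hg
    exact mul_left_cancel₀ prime_lam.ne_zero h5
  obtain ⟨n, j, hnj⟩ := cube_rat (mul_ne_zero hr1 ht2) hcmp
  -- splitting
  have huv : IsCoprime α (-δ) := hco.neg_right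
  have hut : IsCoprime α (δ - α) := by
    obtain ⟨u, v, huv⟩ := hco
    exact ⟨u + v, v, by linear_combination huv⟩
  have hvt : IsCoprime (-δ) (δ - α) := by
    obtain ⟨u, v, huv⟩ := hco
    exact ⟨-(u + v), -u, by linear_combination huv⟩
  obtain ⟨pos, x, hu, hv, ht, hs⟩ := split3 hH.hp he0 huv hut hvt
    (s := s) (by rw [← hprod]; ring)
  have hpt : IsPt p e pos x := isPt_of hu hv ht hs hs0 huv hut hvt (by ring)
  have hval : ∀ i, v i = fv (j : ZMod 3) (pos i) := by
    intro i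
    obtain ⟨hγd, hγs⟩ := hsym i
    have hqZ := Nat.prime_iff_prime_int.mp (hH.hp i)
    have hγ' : ¬ (p i : Eis) ∣ ((α : Eis) + δ * w) := by
      intro hd
      rw [natCast_dvd_iff] at hd
      simp only [add_re, add_im, mul_re, mul_im, intCast_re, intCast_im, w_re, w_im] at hd
      exact hqZ.not_isUnit (hco.isUnit_of_dvd' (by simpa using hd.1) (by simpa using hd.2))
    have h5 := sym_of_eq (hH.hp i) (hp3 i) hγd hγ' hnj
    obtain ⟨s0, s1, s2⟩ := sym_pos (hH.hp i) (hp3 i) hco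
    have h6 : sym (p i : Eis) ((α : Eis) + δ * w) =
        (1 - ((pos i).val : ZMod 3)) * sym (p i : Eis) w := by
      have hk : pos i = 0 ∨ pos i = 1 ∨ pos i = 2 := by
        generalize pos i = k
        fin_cases k <;> simp
      rcases hk with hk | hk | hk
      · rw [s0 (by rw [hu]; exact Dvd.dvd.mul_right (dvd_cell p e he0 pos i 0 hk) _), hk]
        simp
      · rw [s1 (by rw [hv]; exact Dvd.dvd.mul_right (dvd_cell p e he0 pos i 1 hk) _), hk]
        simp
      · rw [s2 (by rw [ht]; exact Dvd.dvd.mul_right (dvd_cell p e he0 pos i 2 hk) _), hk]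
        have : (1 - (((2 : Fin 3).val : ℕ) : ZMod 3)) = 2 := by decide
        rw [this]
    have h7 : (v i - fv (j : ZMod 3) (pos i)) * sym (p i : Eis) w = 0 := by
      unfold fv
      linear_combination h5 + h6 - hγs
    have h8 := (mul_eq_zero.mp h7).resolve_right (sym_w_ne (hH.hp i) (hH.h9 i))
    exact sub_eq_zero.mp h8
  refine ⟨?_, ?_⟩
  · rintro ⟨c', hc'⟩
    -- constant class
    have hprime : ∀ i, Prime (p i : ℤ) := fun i => Nat.prime_iff_prime_int.mp (hH.hp i)
    have hA0 : AA p e ≠ 0 :=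
      prod_ne_zero_iff.mpr (fun j _ => pow_ne_zero _ (hprime j).ne_zero)
    have hcf := cube_not_dvd_prod p e hH.hp hH.inj (fun i => by have := hH.he i; omega) univ
    have hnc : ¬ ∃ n : ℤ, n ^ 3 = AA p e := by
      rintro ⟨n, hn⟩
      let i0 : Fin m := ⟨0, by omega⟩
      have hd : (p i0 : ℤ) ∣ AA p e := by
        unfold AA
        exact (dvd_pow_self _ (he0 i0)).trans (dvd_prod_of_mem _ (mem_univ i0))
      rw [← hn] at hd
      have hd2 := (hprime i0).dvd_of_dvd_pow hd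
      have hd3 : (p i0 : ℤ) ^ 3 ∣ AA p e := by
        rw [← hn]
        exact pow_dvd_pow_of_dvd hd2 3
      exact hcf _ (hprime i0) hd3
    have hpos : ∀ i, pos i = pos ⟨0, by omega⟩ := by
      intro i
      apply fv_inj (j : ZMod 3)
      rw [← hval, ← hval, hc', hc']
    generalize hk0 : pos ⟨0, by omega⟩ = k0 at hpos
    obtain ⟨hcA, hc1⟩ := cell_all p e pos k0 hpos
    have hx := hpt.ne
    have hk : k0 = 0 ∨ k0 = 1 ∨ k0 = 2 := by
      clear hk0 hpos hcA hc1
      fin_cases k0 <;> simp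
    have hab' : ∀ y z : ℤ, IsCoprime (y ^ 3) (z ^ 3) → IsCoprime y z := fun y z h =>
      (IsCoprime.pow_iff (by norm_num) (by norm_num)).mp h
    rcases hk with hk | hk | hk
    · subst hk
      rw [hcA] at hu
      rw [hc1 1 (by decide), one_mul] at hv
      rw [hc1 2 (by decide), one_mul] at ht
      have hδ : δ = -x 1 ^ 3 := by linarith
      have hα : α = -x 1 ^ 3 - x 2 ^ 3 := by linarith
      refine core h1 h3 (AA p e) hA0 hnc P a b c hCrd r1 r2 α δ (x 2) (x 1) (-x 0) hr1 hr2 hg'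
        (neg_ne_zero.mpr (hx 0)) (hab' _ _ (by rw [← hv, ← ht]; exact hvt.symm)) ?_ ?_ ?_
      · linear_combination hα - hu
      · rw [hα, hδ]; unfold TX; ring
      · rw [hα, hδ]; unfold TY; ring
    · subst hk
      rw [hcA] at hv
      rw [hc1 0 (by decide), one_mul] at hu
      rw [hc1 2 (by decide), one_mul] at ht
      have hδ : δ = x 0 ^ 3 + x 2 ^ 3 := by linarith
      refine core h1 h3 (AA p e) hA0 hnc P a b c hCrd r1 r2 α δ (x 0) (x 2) (-x 1) hr1 hr2 hg'
        (neg_ne_zero.mpr (hx 1)) (hab' _ _ (by rw [← hu, ← ht]; exact hut)) ?_ ?_ ?_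
      · linear_combination -hv - hδ
      · rw [hu, hδ]; unfold TX; ring
      · rw [hu, hδ]; unfold TY; ring
    · subst hk
      rw [hcA] at ht
      rw [hc1 0 (by decide), one_mul] at hu
      rw [hc1 1 (by decide), one_mul] at hv
      have hδ : δ = -x 1 ^ 3 := by linarith
      refine core h1 h3 (AA p e) hA0 hnc P a b c hCrd r1 r2 α δ (x 1) (x 0) (-x 2) hr1 hr2 hg'
        (neg_ne_zero.mpr (hx 2)) (hab' _ _ (by rw [← hu, ← hv]; exact huv.symm)) ?_ ?_ ?_
      · linear_combination hδ - ht - hu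
      · rw [hu, hδ]; unfold TX; ring
      · rw [hu, hδ]; unfold TY; ring
  · intro _
    -- representation
    have hinj : Function.Injective (fun k : Fin 3 => zf (fv (j : ZMod 3) k)) := by
      intro k k' hkk
      exact zf_fv_inj _ _ _ hkk
    let σ : Equiv.Perm (Fin 3) := Equiv.ofBijective _ (Finite.injective_iff_bijective.mp hinj)
    have h5 := hpt.perm σ
    refine ⟨x ∘ σ.symm, ?_⟩
    have h6 : (fun i => zf (v i)) = σ ∘ pos := by
      funext i
      rw [hval i]
      rfl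
    rw [h6]
    exact h5

end Pool.Agent.CubeRank

end

section

/-!
# CubeRank G5c: points of class zero are multiples of 3, other classes are represented,
general version (MP_8e0b0b_nt; helper7, after helper55)
-/

set_option autoImplicit false

namespace Pool.Agent.CubeRank

open Finset Pool.Agent.Lib_helper18 Pool.Agent.Lib_helper18.Eis Pool.Agent.Lib_helper84.Cub
  Pool.Agent.Lib_helper18.CubStep0

namespace GKapRepAux

open KapRepAux

lemma w_cube : (w : Eis) ^ 3 = 1 := by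
  have h : (w : Eis) ^ 3 = w ^ 2 * w := by ring
  rw [h, w_sq]
  ext <;> simp

lemma w_pow_mod (u : ℕ) : (w : Eis) ^ u = w ^ (u % 3) := by
  conv_lhs => rw [← Nat.div_add_mod u 3]
  rw [pow_add, pow_mul, w_cube, one_pow, one_mul]

lemma cong_unique {q : ℕ} {M N : ℤ} {u v : ℕ} (hM : ¬ (q : ℤ) ∣ M)
    (h : (q : Eis) ∣ (M : Eis) * w ^ u - (N : Eis) * w ^ v) : (u : ZMod 3) = (v : ZMod 3) := by
  rw [w_pow_mod u, w_pow_mod v, natCast_dvd_iff] at h
  have hu : u % 3 < 3 := Nat.mod_lt _ (by norm_num)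
  have hv : v % 3 < 3 := Nat.mod_lt _ (by norm_num)
  rw [ZMod.natCast_eq_natCast_iff, Nat.ModEq]
  by_contra hne
  apply hM
  obtain ⟨hr, hi⟩ := h
  generalize u % 3 = a at *
  generalize v % 3 = b at *
  have e2 : (w : Eis) ^ 2 = ⟨-1, -1⟩ := by
    rw [w_sq]
    ext <;> simp
  interval_cases a <;> interval_cases b <;>
    simp only [pow_zero, pow_one, e2, mul_one, sub_re, sub_im, mul_re, mul_im, intCast_re,
      intCast_im, w_re, w_im, mul_zero, sub_zero, zero_sub, add_zero, zero_add,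
      mul_neg, neg_zero, sub_neg_eq_add, not_true_eq_false] at hr hi hne
  · exact hr
  · have := dvd_sub hr hi
    ring_nf at this
    exact this
  · exact hi
  · have := dvd_sub hi hr
    ring_nf at this
    exact this
  · have := (dvd_neg).mpr hi
    ring_nf at this
    exact this
  · have := (dvd_neg).mpr hr
    ring_nf at this
    exact this

/-- congruence of the norm -/
lemma norm_not_dvd {q : ℕ} (hq : q.Prime) {γ' : Eis} {n : ℤ} {k : ℕ} (hn : ¬ (q : ℤ) ∣ n)
    (h : (q : Eis) ∣ γ' - n * w ^ k) : ¬ (q : ℤ) ∣ γ'.norm := by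
  intro hd
  have hqZ := Nat.prime_iff_prime_int.mp hq
  apply hn
  have h1 : (q : Eis) ∣ ((γ'.norm : ℤ) : Eis) := by
    have := intCast_dvd_intCast.mpr hd
    rwa [Int.cast_natCast] at this
  have h2 : (q : Eis) ∣ conj (γ' - n * w ^ k) := by
    have := conj_dvd h
    rwa [conj_natCast] at this
  have h3 : ((n ^ 2 : ℤ) : Eis) = (n * w ^ k : Eis) * conj ((n : Eis) * w ^ k) := by
    rw [mul_conj, norm_mul, norm_pow, norm_w, one_pow, mul_one, norm_intCast]
  have h4 : ((n ^ 2 : ℤ) : Eis) = ((γ'.norm : ℤ) : Eis) - γ' * conj (γ' - n * w ^ k) -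
      (γ' - n * w ^ k) * conj ((n : Eis) * w ^ k) := by
    rw [h3, ← mul_conj, map_sub]
    ring
  have h5 : (q : Eis) ∣ ((n ^ 2 : ℤ) : Eis) := by
    rw [h4]
    exact dvd_sub (dvd_sub h1 (Dvd.dvd.mul_left h2 _)) (Dvd.dvd.mul_right h _)
  have h6 : ((q : ℤ) : Eis) ∣ ((n ^ 2 : ℤ) : Eis) := by rwa [Int.cast_natCast]
  exact hqZ.dvd_of_dvd_pow (intCast_dvd_intCast.mp h6)

/-- the class of `α + δ ω` -/
lemma pos_cong {q : ℕ} (hq : q.Prime) {α δ : ℤ} (hco : IsCoprime α δ) :
    ((q : ℤ) ∣ α → ∃ n : ℤ, ¬ (q : ℤ) ∣ n ∧ (q : Eis) ∣ ((α : Eis) + δ * w) - n * w ^ 1) ∧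
    ((q : ℤ) ∣ -δ → ∃ n : ℤ, ¬ (q : ℤ) ∣ n ∧ (q : Eis) ∣ ((α : Eis) + δ * w) - n * w ^ 0) ∧
    ((q : ℤ) ∣ δ - α → ∃ n : ℤ, ¬ (q : ℤ) ∣ n ∧
      (q : Eis) ∣ ((α : Eis) + δ * w) - n * w ^ 2) := by
  have hqZ := Nat.prime_iff_prime_int.mp hq
  have hno : ¬ ((q : ℤ) ∣ α ∧ (q : ℤ) ∣ δ) := fun h =>
    hqZ.not_isUnit (hco.isUnit_of_dvd' h.1 h.2)
  have cast' : ∀ n : ℤ, (q : ℤ) ∣ n → (q : Eis) ∣ (n : Eis) := by
    intro n hd
    have := intCast_dvd_intCast.mpr hd
    rwa [Int.cast_natCast] at this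
  refine ⟨?_, ?_, ?_⟩
  · intro h
    refine ⟨δ, fun h' => hno ⟨h, h'⟩, ?_⟩
    rw [pow_one, add_sub_cancel_right]
    exact cast' _ h
  · intro h
    have hδ : (q : ℤ) ∣ δ := (dvd_neg).mp h
    refine ⟨α, fun h' => hno ⟨h', hδ⟩, ?_⟩
    rw [pow_zero, mul_one, add_sub_cancel_left]
    exact Dvd.dvd.mul_right (cast' _ hδ) _
  · intro h
    have hα : ¬ (q : ℤ) ∣ α := by
      intro h'
      exact hno ⟨h', by simpa using dvd_add h h'⟩
    refine ⟨-α, fun h' => hα ((dvd_neg).mp h'), ?_⟩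
    have e : (α : Eis) + δ * w - ((-α : ℤ) : Eis) * w ^ 2 = ((δ - α : ℤ) : Eis) * w := by
      rw [w_sq]
      push_cast
      ring
    rw [e]
    exact Dvd.dvd.mul_right (cast' _ h) _

/-- comparison of the classes -/
lemma class_eq {q : ℕ} (hq : q.Prime) {γ γ' : Eis} {n n1 n2 : ℤ} {j k u : ℕ}
    (h : (γ'.norm : Eis) * γ = n * w ^ j * γ') (hn1 : ¬ (q : ℤ) ∣ n1)
    (h1 : (q : Eis) ∣ γ - n1 * w ^ u) (hn2 : ¬ (q : ℤ) ∣ n2)
    (h2 : (q : Eis) ∣ γ' - n2 * w ^ k) : (u : ZMod 3) = (j : ZMod 3) + (k : ZMod 3) := by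
  have hqZ := Nat.prime_iff_prime_int.mp hq
  have hN := norm_not_dvd hq hn2 h2
  have h3 : ¬ (q : ℤ) ∣ γ'.norm * n1 := fun hd => (hqZ.dvd_or_dvd hd).elim hN hn1
  have h4 : (q : Eis) ∣ ((γ'.norm * n1 : ℤ) : Eis) * w ^ u -
      ((n * n2 : ℤ) : Eis) * w ^ (j + k) := by
    have e : ((γ'.norm * n1 : ℤ) : Eis) * w ^ u - ((n * n2 : ℤ) : Eis) * w ^ (j + k) =
        (n * w ^ j) * (γ' - n2 * w ^ k) - (γ'.norm : Eis) * (γ - n1 * w ^ u) := by
      push_cast
      rw [pow_add]
      linear_combination h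
    rw [e]
    exact dvd_sub (Dvd.dvd.mul_left h2 _) (Dvd.dvd.mul_left h1 _)
  have h5 := cong_unique h3 h4
  rw [h5]
  push_cast
  ring

end GKapRepAux

open KapRepAux _root_.Pool.Agent.CubeRank.GKapRepAux in
/-- module `G_KAPREP` -/
theorem kapRepG (h1 : BasicsStmt) (h2 : LiftStmtG) (h3 : TripleStmt) : KapRepStmtG := by
  intro m p e hH P v hK
  rcases hK with ⟨hP0, c, hc⟩ | ⟨a, b, c, γ, t1, t2, hCrd, ht1, ht2, hg, hcl⟩
  · refine ⟨fun _ => ?_, fun hn => absurd ⟨c, hc⟩ hn⟩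
    rw [hP0]
    exact (threeMul (AA p e)).zero_mem
  have he0 : ∀ i, e i ≠ 0 := fun i => by have := hH.he i; omega
  obtain ⟨i0, -⟩ := hH.ex
  obtain ⟨hc0, hab, habc, -⟩ := id hCrd
  obtain ⟨α, δ, s, r1, r2, hco, hs0, hr1, hr2, hprod, hg'⟩ := h2 m p e hH a b c hc0 hab habc
  -- comparison of the two lifts
  have hcmp : ((r1 * t2 : ℤ) : Eis) * γ ^ 3 = ((t1 * r2 : ℤ) : Eis) * ((α : Eis) + δ * w) ^ 3 := by
    have h5 : lam * (((r1 * t2 : ℤ) : Eis) * γ ^ 3) =
        lam * (((t1 * r2 : ℤ) : Eis) * ((α : Eis) + δ * w) ^ 3) := by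
      push_cast
      linear_combination (t1 : Eis) * hg' - (r1 : Eis) * hg
    exact mul_left_cancel₀ prime_lam.ne_zero h5
  obtain ⟨n, j, hnj⟩ := cube_rat (mul_ne_zero hr1 ht2) hcmp
  -- splitting
  have huv : IsCoprime α (-δ) := hco.neg_right
  have hut : IsCoprime α (δ - α) := by
    obtain ⟨u, v, huv⟩ := hco
    exact ⟨u + v, v, by linear_combination huv⟩
  have hvt : IsCoprime (-δ) (δ - α) := by
    obtain ⟨u, v, huv⟩ := hco
    exact ⟨-(u + v), -u, by linear_combination huv⟩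
  obtain ⟨pos, x, hu, hv, ht, hs⟩ := split3 hH.hp he0 huv hut hvt
    (s := s) (by rw [← hprod]; ring)
  have hpt : IsPt p e pos x := isPt_of hu hv ht hs hs0 huv hut hvt (by ring)
  have hval : ∀ i, v i = fv (j : ZMod 3) (pos i) := by
    intro i
    obtain ⟨n1, hn1, hγ⟩ := hcl i
    obtain ⟨s0, s1, s2⟩ := pos_cong (hH.hp i) hco
    have hk : pos i = 0 ∨ pos i = 1 ∨ pos i = 2 := by
      generalize pos i = k
      fin_cases k <;> simp
    have hvv : (((v i).val : ℕ) : ZMod 3) = v i := ZMod.natCast_zmod_val _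
    unfold fv
    rcases hk with hk | hk | hk
    · obtain ⟨n2, hn2, hγ'⟩ := s0 (by
        rw [hu]; exact Dvd.dvd.mul_right (dvd_cell p e he0 pos i 0 hk) _)
      have h5 := class_eq (hH.hp i) hnj hn1 hγ hn2 hγ'
      rw [hvv] at h5
      rw [hk, h5]
      simp
    · obtain ⟨n2, hn2, hγ'⟩ := s1 (by
        rw [hv]; exact Dvd.dvd.mul_right (dvd_cell p e he0 pos i 1 hk) _)
      have h5 := class_eq (hH.hp i) hnj hn1 hγ hn2 hγ'
      rw [hvv] at h5
      rw [hk, h5]
      simp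
    · obtain ⟨n2, hn2, hγ'⟩ := s2 (by
        rw [ht]; exact Dvd.dvd.mul_right (dvd_cell p e he0 pos i 2 hk) _)
      have h5 := class_eq (hH.hp i) hnj hn1 hγ hn2 hγ'
      rw [hvv] at h5
      rw [hk, h5]
      have : (1 - (((2 : Fin 3).val : ℕ) : ZMod 3)) = ((2 : ℕ) : ZMod 3) := by decide
      rw [this]
  refine ⟨?_, ?_⟩
  · rintro ⟨c', hc'⟩
    -- constant class
    have hprime : ∀ i, Prime (p i : ℤ) := fun i => Nat.prime_iff_prime_int.mp (hH.hp i)
    have hA0 : AA p e ≠ 0 :=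
      prod_ne_zero_iff.mpr (fun j _ => pow_ne_zero _ (hprime j).ne_zero)
    have hcf := cube_not_dvd_prod p e hH.hp hH.inj (fun i => by have := hH.he i; omega) univ
    have hnc : ¬ ∃ n : ℤ, n ^ 3 = AA p e := by
      rintro ⟨n, hn⟩
      have hd : (p i0 : ℤ) ∣ AA p e := by
        unfold AA
        exact (dvd_pow_self _ (he0 i0)).trans (dvd_prod_of_mem _ (mem_univ i0))
      rw [← hn] at hd
      have hd2 := (hprime i0).dvd_of_dvd_pow hd
      have hd3 : (p i0 : ℤ) ^ 3 ∣ AA p e := by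
        rw [← hn]
        exact pow_dvd_pow_of_dvd hd2 3
      exact hcf _ (hprime i0) hd3
    have hpos : ∀ i, pos i = pos i0 := by
      intro i
      apply fv_inj (j : ZMod 3)
      rw [← hval, ← hval, hc', hc']
    generalize hk0 : pos i0 = k0 at hpos
    obtain ⟨hcA, hc1⟩ := cell_all p e pos k0 hpos
    have hx := hpt.ne
    have hk : k0 = 0 ∨ k0 = 1 ∨ k0 = 2 := by
      clear hk0 hpos hcA hc1
      fin_cases k0 <;> simp
    have hab' : ∀ y z : ℤ, IsCoprime (y ^ 3) (z ^ 3) → IsCoprime y z := fun y z h =>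
      (IsCoprime.pow_iff (by norm_num) (by norm_num)).mp h
    rcases hk with hk | hk | hk
    · subst hk
      rw [hcA] at hu
      rw [hc1 1 (by decide), one_mul] at hv
      rw [hc1 2 (by decide), one_mul] at ht
      have hδ : δ = -x 1 ^ 3 := by linarith
      have hα : α = -x 1 ^ 3 - x 2 ^ 3 := by linarith
      refine core h1 h3 (AA p e) hA0 hnc P a b c hCrd r1 r2 α δ (x 2) (x 1) (-x 0) hr1 hr2 hg'
        (neg_ne_zero.mpr (hx 0)) (hab' _ _ (by rw [← hv, ← ht]; exact hvt.symm)) ?_ ?_ ?_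
      · linear_combination hα - hu
      · rw [hα, hδ]; unfold TX; ring
      · rw [hα, hδ]; unfold TY; ring
    · subst hk
      rw [hcA] at hv
      rw [hc1 0 (by decide), one_mul] at hu
      rw [hc1 2 (by decide), one_mul] at ht
      have hδ : δ = x 0 ^ 3 + x 2 ^ 3 := by linarith
      refine core h1 h3 (AA p e) hA0 hnc P a b c hCrd r1 r2 α δ (x 0) (x 2) (-x 1) hr1 hr2 hg'
        (neg_ne_zero.mpr (hx 1)) (hab' _ _ (by rw [← hu, ← ht]; exact hut)) ?_ ?_ ?_
      · linear_combination -hv - hδ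
      · rw [hu, hδ]; unfold TX; ring
      · rw [hu, hδ]; unfold TY; ring
    · subst hk
      rw [hcA] at ht
      rw [hc1 0 (by decide), one_mul] at hu
      rw [hc1 1 (by decide), one_mul] at hv
      have hδ : δ = -x 1 ^ 3 := by linarith
      refine core h1 h3 (AA p e) hA0 hnc P a b c hCrd r1 r2 α δ (x 1) (x 0) (-x 2) hr1 hr2 hg'
        (neg_ne_zero.mpr (hx 2)) (hab' _ _ (by rw [← hu, ← hv]; exact huv.symm)) ?_ ?_ ?_
      · linear_combination hδ - ht - hu
      · rw [hu, hδ]; unfold TX; ring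
      · rw [hu, hδ]; unfold TY; ring
  · intro _
    -- representation
    have hinj : Function.Injective (fun k : Fin 3 => zf (fv (j : ZMod 3) k)) := by
      intro k k' hkk
      exact zf_fv_inj _ _ _ hkk
    let σ : Equiv.Perm (Fin 3) := Equiv.ofBijective _ (Finite.injective_iff_bijective.mp hinj)
    have h5 := hpt.perm σ
    refine ⟨x ∘ σ.symm, ?_⟩
    have h6 : (fun i => zf (v i)) = σ ∘ pos := by
      funext i
      rw [hval i]
      rfl
    rw [h6]
    exact h5

end Pool.Agent.CubeRank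

end
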