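import Mathlib
import Pool.Agent.PTWX.C13
import Pool.Agent.PTWX.C21

/-! Parts: Lib_helper84.Cub.CaseThree -/

section

/-!
# Case III
-/

namespace Pool.Agent.Lib_helper84.Cub

open Pool.Agent.Lib_helper18 Pool.Agent.Lib_helper18.Eis

theorem cast_ne {n : ℤ} (hn : n ≠ 0) : (n : Eis) ≠ 0 := by
  intro h
  have := congrArg Eis.re h
  simp at this
  exact hn this

theorem prime_ndvd {q s : ℕ} (hq : q.Prime) (hs : s.Prime) (h : q ≠ s) : ¬ q ∣ s :=
  fun h' => h ((Nat.prime_dvd_prime_iff_eq hq hs).mp h')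

/-- **Case III** -/
theorem caseIII {q r p : ℕ} (hq : q.Prime) (hq3 : q % 3 = 2) (hr : r.Prime) (hr3 : r % 3 = 2)
    (hp : p.Prime) (hp3 : p % 3 = 2)
    {B B' C : ℤ} (hBB : B * B' = ((q : ℤ) * r) ^ 3) (hqB : (q : ℤ) ∣ B) (hqB' : (q : ℤ) ∣ B')
    (hpC : (p : ℤ) ∣ C)
    (hC : ∀ l : Eis, Prime l → l ∣ (C : Eis) → ∃ s : ℕ, s.Prime ∧ s % 3 = 2 ∧ Associated l (s : Eis))
    {x y z x' y' z' : ℤ} (h : x ^ 3 + C * y ^ 3 + B * z ^ 3 = 0)
    (h' : x' ^ 3 + C * y' ^ 3 + B' * z' ^ 3 = 0)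
    (cxy : IsCoprime x (C * y)) (cyz : IsCoprime (C * y) (B * z))
    (cxy' : IsCoprime x' (C * y'))
    (cyz' : IsCoprime (C * y') (B' * z'))
    (hz : z ≠ 0) (hz' : z' ≠ 0)
    (hwq : sym (q : Eis) w ≠ 0) (hwp : sym (p : Eis) w ≠ 0) : False := by
  have hQ := prime_inert hq hq3
  have hR := prime_inert hr hr3
  have hP := prime_inert hp hp3
  have hQ3 := n3 hq hq3
  have hR3 := n3 hr hr3
  have hP3 := n3 hp hp3
  have hqZ := Nat.prime_iff_prime_int.mp hq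
  have hpZ := Nat.prime_iff_prime_int.mp hp
  have hE := cast_eq h
  have hE' := cast_eq h'
  have hBBE := cast_eq hBB
  push_cast at hE hE' hBBE
  set Ξ := Xi (C : Eis) ((q * r : Eis) * z * z') (x * x') (x * y' + x' * y) (y * y') with hΞ
  -- modulo q
  have qC : ¬ (q : ℤ) ∣ C := not_dvd_of_coprime hq
    (IsCoprime.of_mul_left_left cyz).symm (Dvd.dvd.mul_right hqB _)
  have qy : ¬ (q : ℤ) ∣ y := not_dvd_of_coprime hq
    (IsCoprime.of_mul_left_right cyz).symm (Dvd.dvd.mul_right hqB _)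
  have qy' : ¬ (q : ℤ) ∣ y' := not_dvd_of_coprime hq
    (IsCoprime.of_mul_left_right cyz').symm (Dvd.dvd.mul_right hqB' _)
  have q1 : (q : ℤ) ∣ x ^ 3 + C * y ^ 3 := by
    have e : x ^ 3 + C * y ^ 3 = B * (-z ^ 3) := by linear_combination h
    rw [e]; exact Dvd.dvd.mul_right hqB _
  have q2 : (q : ℤ) ∣ x' ^ 3 + C * y' ^ 3 := by
    have e : x' ^ 3 + C * y' ^ 3 = B' * (-z' ^ 3) := by linear_combination h'
    rw [e]; exact Dvd.dvd.mul_right hqB' _
  have q3 : (q : ℤ) ∣ x * y' - x' * y := by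
    apply cube_inj hq hq3
    have e : (x * y') ^ 3 - (x' * y) ^ 3 = (x ^ 3 + C * y ^ 3) * y' ^ 3 -
      (x' ^ 3 + C * y' ^ 3) * y ^ 3 := by ring
    rw [e]; exact dvd_sub (Dvd.dvd.mul_right q1 _) (Dvd.dvd.mul_right q2 _)
  have q9 : ¬ (q : ℤ) ∣ -9 * C ^ 2 * (y * y') ^ 3 := by
    intro hd
    rcases hqZ.dvd_or_dvd hd with hd | hd
    · rcases hqZ.dvd_or_dvd hd with hd | hd
      · have h9 : (q : ℤ) ∣ 9 := by
          rw [neg_eq_neg_one_mul] at hd
          have := (dvd_neg (a := (q : ℤ)) (b := 9)).mp (by simpa using hd)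
          exact this
        have h9' : (q : ℤ) ∣ 3 ^ 2 := by norm_num; exact h9
        have h3' := hqZ.dvd_of_dvd_pow h9'
        have h3n : q ∣ 3 := by exact_mod_cast h3'
        have := (Nat.prime_dvd_prime_iff_eq hq Nat.prime_three).mp h3n
        omega
      · exact qC (hqZ.dvd_of_dvd_pow hd)
    · rcases hqZ.dvd_or_dvd (hqZ.dvd_of_dvd_pow hd) with hd | hd
      · exact qy hd
      · exact qy' hd
  have q1E := cast_dvd_cast.mpr q1
  have q2E := cast_dvd_cast.mpr q2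
  have q3E := cast_dvd_cast.mpr q3
  push_cast at q1E q2E q3E
  have hw2 : ¬ (q : Eis) ∣ w ^ 2 := fun h => not_dvd_w hQ (hQ.dvd_of_dvd_pow h)
  have q9E : ¬ (q : Eis) ∣ ((-9 * C ^ 2 * (y * y') ^ 3 : ℤ) : Eis) := fun h => q9 (cast_dvd_cast.mp h)
  have qΞ : (q : Eis) ∣ Ξ - ((-9 * C ^ 2 * (y * y') ^ 3 : ℤ) : Eis) * w ^ 2 := by
    have e : Ξ - ((-9 * C ^ 2 * (y * y') ^ 3 : ℤ) : Eis) * w ^ 2 =
        (q : Eis) * (r * z * z' * (3 * (x * x') ^ 2 + 3 * (x * x') * (q * r * z * z') +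
          2 * (q * r * z * z') ^ 2 - 3 * C * (x * y' + x' * y) * (y * y'))) +
        ((x : Eis) ^ 3 + C * y ^ 3) * (x' ^ 3 + 8 * w ^ 2 * C * y' ^ 3) -
        ((x' : Eis) ^ 3 + C * y' ^ 3) * (C * y ^ 3) +
        ((x : Eis) * y' - x' * y) * (-(w ^ 2 * C * ((x * y' + x' * y) ^ 2 +
          (x * y' + x' * y) * (2 * x * y') + (2 * x * y') ^ 2))) := by
      have h4 := w_rel
      rw [hΞ, Xi]
      push_cast
      linear_combination ((C : Eis) ^ 2 * (y * y') ^ 3) * h4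
    rw [e]
    exact dvd_add (dvd_sub (dvd_add (dvd_mul_right _ _) (Dvd.dvd.mul_right q1E _))
      (Dvd.dvd.mul_right q2E _)) (Dvd.dvd.mul_right q3E _)
  have qnd : ¬ (q : Eis) ∣ Ξ := by
    intro hd
    have := dvd_sub hd qΞ
    rw [sub_sub_cancel] at this
    exact (hQ.dvd_or_dvd this).elim q9E hw2
  have symq : sym (q : Eis) Ξ = 2 * sym (q : Eis) w := by
    rw [sym_congr qΞ, sym_mul hQ hQ3 q9E hw2, sym_int hq hq3 q9, sym_pow hQ hQ3 (not_dvd_w hQ)]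
    push_cast; ring
  -- modulo p
  have px : ¬ (p : ℤ) ∣ x := not_dvd_of_coprime hp cxy.symm (Dvd.dvd.mul_right hpC _)
  have px' : ¬ (p : ℤ) ∣ x' := not_dvd_of_coprime hp cxy'.symm (Dvd.dvd.mul_right hpC _)
  have p1 : (p : ℤ) ∣ x * x' - q * r * z * z' := by
    apply cube_inj hp hp3
    have e : (x * x') ^ 3 - (q * r * z * z') ^ 3 = C * (-(y ^ 3 * x' ^ 3) + B * z ^ 3 * y' ^ 3) := by
      linear_combination x' ^ 3 * h - B * z ^ 3 * h' + (z * z') ^ 3 * hBB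
    rw [e]; exact Dvd.dvd.mul_right hpC _
  have p9 : ¬ (p : ℤ) ∣ 9 * (x * x') ^ 3 := by
    intro hd
    rcases hpZ.dvd_or_dvd hd with hd | hd
    · have h9' : (p : ℤ) ∣ 3 ^ 2 := by norm_num; exact hd
      have h3' := hpZ.dvd_of_dvd_pow h9'
      have h3n : p ∣ 3 := by exact_mod_cast h3'
      have := (Nat.prime_dvd_prime_iff_eq hp Nat.prime_three).mp h3n
      omega
    · rcases hpZ.dvd_or_dvd (hpZ.dvd_of_dvd_pow hd) with hd | hd
      · exact px hd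
      · exact px' hd
  have p1E := cast_dvd_cast.mpr p1
  have pCE := cast_dvd_cast.mpr hpC
  push_cast at p1E
  have p9E : ¬ (p : Eis) ∣ ((9 * (x * x') ^ 3 : ℤ) : Eis) := fun h => p9 (cast_dvd_cast.mp h)
  have pΞ : (p : Eis) ∣ Ξ - ((9 * (x * x') ^ 3 : ℤ) : Eis) := by
    have e : Ξ - ((9 * (x * x') ^ 3 : ℤ) : Eis) =
        ((x : Eis) * x' - q * r * z * z') * (-((q * r * z * z' + x * x') ^ 2 +
          (q * r * z * z' + x * x') * (2 * x * x') + (2 * x * x') ^ 2 +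
          (q * r * z * z') ^ 2 + (q * r * z * z') * (x * x') + (x * x') ^ 2)) +
        (C : Eis) * (w ^ 2 * (x * y' + x' * y) ^ 3 + w * C * (y * y') ^ 3 -
          3 * (x * y' + x' * y) * (y * y') * (q * r * z * z')) := by
      rw [hΞ, Xi]
      push_cast
      ring
    rw [e]
    exact dvd_add (Dvd.dvd.mul_right p1E _) (Dvd.dvd.mul_right pCE _)
  have pnd : ¬ (p : Eis) ∣ Ξ := by
    intro hd
    have := dvd_sub hd pΞ
    rw [sub_sub_cancel] at this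
    exact p9E this
  have symp : sym (p : Eis) Ξ = 0 := by
    rw [sym_congr pΞ, sym_int hp hp3 p9]
  -- exponents
  obtain ⟨b, hb⟩ : ∃ b : ZMod 3, 1 * sym (q : Eis) w + b * sym (p : Eis) w = 0 := by
    have key : ∀ u v : ZMod 3, v ≠ 0 → ∃ b : ZMod 3, 1 * u + b * v = 0 := by decide
    exact key _ _ hwp
  have hΞ0 : Ξ ≠ 0 := by
    intro h0; rw [h0] at qnd; exact qnd (dvd_zero _)
  have hfin := lemmaB hq hq3 hp hp3 1 b hb _ Ξ rfl hΞ0 qnd pnd (by
    intro l hl hl3 hlΞ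
    have hlq : ¬ l ∣ (q : Eis) := fun h => qnd ((hl.associated_of_dvd hQ h).symm.dvd.trans hlΞ)
    have hlp : ¬ l ∣ (p : Eis) := fun h => pnd ((hl.associated_of_dvd hP h).symm.dvd.trans hlΞ)
    have inert_good : ∀ s : ℕ, s.Prime → s % 3 = 2 → Associated l (s : Eis) →
        1 * sym l (q : Eis) + b * sym l (p : Eis) = 0 := by
      intro s hs hs3 hass
      have h1 : ¬ s ∣ q := by
        intro hd
        exact hlq (hass.dvd.trans (Nat.cast_dvd_cast hd))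
      have h2 : ¬ s ∣ p := by
        intro hd
        exact hlp (hass.dvd.trans (Nat.cast_dvd_cast hd))
      rw [sym_associated hass, sym_associated hass, sym_nat hs hs3 h1, sym_nat hs hs3 h2]
      ring
    by_cases hlC : l ∣ (C : Eis)
    · obtain ⟨s, hs, hs3, hass⟩ := hC l hl hlC
      exact Or.inl (inert_good s hs hs3 hass)
    by_cases hlr : l ∣ (r : Eis)
    · exact Or.inl (inert_good r hr hr3 (hl.associated_of_dvd hR hlr))
    right
    have hlqr : ¬ l ∣ (q : Eis) * r := fun h => (hl.dvd_or_dvd h).elim hlq hlr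
    have hlBB : ¬ l ∣ (B : Eis) * B' := by
      rw [hBBE]; exact fun h => hlqr (hl.dvd_of_dvd_pow h)
    have ndc : ∀ {s t : ℤ}, IsCoprime s (C * t) → ¬ (l ∣ (s : Eis) ∧ l ∣ (t : Eis)) := by
      intro s t hc ⟨h1, h2⟩
      refine not_dvd_of_coprime' hl hc h1 ?_
      push_cast; exact Dvd.dvd.mul_left h2 _
    exact caseIII_local hl hl3 hlC hE hE' hBBE (fun h => hlBB (Dvd.dvd.mul_right h _))
      (fun h => hlBB (Dvd.dvd.mul_left h _)) (ndc cxy) (ndc cxy') (cast_ne hz) (cast_ne hz')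
      hlqr hΞ0)
  rw [symq, symp] at hfin
  have key : ∀ u b : ZMod 3, 1 * (2 * u) + b * 0 = 0 → u = 0 := by decide
  exact hwq (key _ _ hfin)

end Pool.Agent.Lib_helper84.Cub

end
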