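import Mathlib
import Pool.Agent.PTWX.C09
import Pool.Agent.PTWX.C14
import Pool.Agent.PTWX.C19

/-! Parts: Lib_helper84.Cub.Final, CubeRank.GLawA -/

section

/-!
# The theorems on pairs of cubic twists
-/

namespace Pool.Agent.Lib_helper84.Cub

open Pool.Agent.Lib_helper18 Pool.Agent.Lib_helper18.Eis

/-- being a sum of two rational cubes -/
def IsSum (n : ℚ) : Prop := ∃ X Y : ℚ, X ^ 3 + Y ^ 3 = n

variable {m : ℕ} {p e e' : Fin m → ℕ}

theorem wq_prod (s : Finset (Fin m)) (f : Fin m → ℤ) (hf : ∀ j, ¬ (3 : ℤ) ∣ f j) :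
    wq (∏ j ∈ s, f j) = ∑ j ∈ s, wq (f j) := by
  classical
  induction s using Finset.induction_on with
  | empty => simp [wq_one]
  | insert a s ha ih =>
    rw [Finset.prod_insert ha, Finset.sum_insert ha, ← ih]
    refine wq_mul (hf a) ?_
    intro h
    rw [Prime.dvd_finsetProd_iff Int.prime_three] at h
    obtain ⟨j, -, hj⟩ := h
    exact hf j hj

theorem not_three_dvd {q : ℕ} (h9 : q % 9 = 2 ∨ q % 9 = 5) : ¬ (3 : ℤ) ∣ (q : ℤ) := by
  omega

theorem wq_cell (h9 : ∀ i, p i % 9 = 2 ∨ p i % 9 = 5) (pos : Fin m → Fin 3) (k : Fin 3) :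
    wq (cell p e pos k) = ∑ j, if pos j = k then (e j : ZMod 3) * wq (p j : ℤ) else 0 := by
  have h3 : ∀ j, ¬ (3 : ℤ) ∣ (p j : ℤ) ^ e j := fun j h =>
    not_three_dvd (h9 j) (Int.prime_three.dvd_of_dvd_pow h)
  rw [cell, wq_prod]
  · refine Finset.sum_congr rfl (fun j _ => ?_)
    split_ifs
    · rw [wq_pow (not_three_dvd (h9 j))]
    · exact wq_one
  · intro j
    split_ifs
    · exact h3 j
    · norm_num

theorem wq_all (h9 : ∀ i, p i % 9 = 2 ∨ p i % 9 = 5) :
    wq (∏ j, (p j : ℤ) ^ e j) = ∑ j, (e j : ZMod 3) * wq (p j : ℤ) := by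
  have h3 : ∀ j, ¬ (3 : ℤ) ∣ (p j : ℤ) ^ e j := fun j h =>
    not_three_dvd (h9 j) (Int.prime_three.dvd_of_dvd_pow h)
  rw [wq_prod _ _ h3]
  exact Finset.sum_congr rfl (fun j _ => wq_pow (not_three_dvd (h9 j)) _)

theorem wq_ne {q : ℕ} (h9 : q % 9 = 2 ∨ q % 9 = 5) : wq (q : ℤ) ≠ 0 := by
  unfold wq
  have : (q : ℤ) % 9 = 2 ∨ (q : ℤ) % 9 = 5 := by omega
  rcases this with h | h <;> rw [h] <;> decide

theorem wq_zero_iff {n : ℤ} (h3 : ¬ (3 : ℤ) ∣ n) : wq n = 0 ↔ n % 9 = 1 ∨ n % 9 = 8 := by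
  unfold wq
  have : n % 9 = 1 ∨ n % 9 = 2 ∨ n % 9 = 4 ∨ n % 9 = 5 ∨ n % 9 = 7 ∨ n % 9 = 8 := by omega
  rcases this with h | h | h | h | h | h <;> rw [h] <;> decide

theorem wq_eq_iff {n k : ℤ} (hn : ¬ (3 : ℤ) ∣ n) (hk : ¬ (3 : ℤ) ∣ k) :
    wq n = wq k ↔ n % 9 = k % 9 ∨ (n + k) % 9 = 0 := by
  have e1 : (n + k) % 9 = (n % 9 + k % 9) % 9 := by omega
  rw [e1]
  unfold wq
  have h1 : n % 9 = 1 ∨ n % 9 = 2 ∨ n % 9 = 4 ∨ n % 9 = 5 ∨ n % 9 = 7 ∨ n % 9 = 8 := by omega
  have h2 : k % 9 = 1 ∨ k % 9 = 2 ∨ k % 9 = 4 ∨ k % 9 = 5 ∨ k % 9 = 7 ∨ k % 9 = 8 := by omega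
  rcases h1 with h | h | h | h | h | h <;> rcases h2 with h' | h' | h' | h' | h' | h' <;>
    rw [h, h'] <;> decide

theorem mk_base (hp : ∀ i, (p i).Prime) (h9 : ∀ i, p i % 9 = 2 ∨ p i % 9 = 5)
    (hinj : Function.Injective p) (he : ∀ i, e i = 1 ∨ e i = 2) (he' : ∀ i, e' i = 1 ∨ e' i = 2)
    {i0 i1 : Fin m} (h01 : i0 ≠ i1)
    (hab : (e i0 : ZMod 3) * wq (p i0 : ℤ) + (e i1 : ZMod 3) * wq (p i1 : ℤ) = 0)
    (rel : Rel i0 i1 e e') : Base p e e' i0 i1 where
  hp := hp
  h3 := fun i => by have := h9 i; omega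
  inj := hinj
  he := he
  he' := he'
  h01 := h01
  hw := fun i => by
    rw [FData.sym_w_r (hp i) (by have := h9 i; omega)]
    exact neg_ne_zero.mpr (wq_ne (h9 i))
  hab := by
    rw [FData.sym_w_r (hp i0) (by have := h9 i0; omega),
      FData.sym_w_r (hp i1) (by have := h9 i1; omega)]
    linear_combination (-1 : ZMod 3) * hab
  rel := rel

end Pool.Agent.Lib_helper84.Cub

end

section

/-!
# The product formula for several inert primes, with the term at the prime above 3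
-/

set_option autoImplicit false

namespace Pool.Agent.CubeRank

open Pool.Agent.Lib_helper18 Pool.Agent.Lib_helper18.Eis Pool.Agent.Lib_helper84.Cub

variable {m : ℕ}

/-- the product formula for a primary element -/
theorem lemmaS_primG {q : Fin m → ℕ} (S : Finset (Fin m)) (hq : ∀ i ∈ S, (q i).Prime)
    (hq3 : ∀ i ∈ S, q i % 3 = 2) (a : Fin m → ZMod 3) :
    ∀ (n : ℕ) (t : Eis), N t = n → t ≠ 0 → Prim t → (∀ i ∈ S, ¬ (q i : Eis) ∣ t) →
    (∀ l : Eis, Prime l → ¬ l ∣ 3 → l ∣ t →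
      ∑ i ∈ S, a i * sym l (q i : Eis) = 0 ∨ 3 ∣ V l t) →
    ∑ i ∈ S, a i * sym (q i : Eis) t = 0 := by
  have hQ := fun i hi => prime_inert (hq i hi) (hq3 i hi)
  have hQ3 := fun i hi => n3 (hq i hi) (hq3 i hi)
  intro n
  induction n using Nat.strong_induction_on with
  | _ n ih =>
    intro t hn ht hprim hqt H
    by_cases hu : IsUnit t
    · have h1 := Prim.unit prim_one hu (by rwa [one_mul])
      refine Finset.sum_eq_zero (fun i hiS => ?_)
      rcases h1 with rfl | rfl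
      · rw [sym_one (hQ i hiS) (hQ3 i hiS), mul_zero]
      · have h2 : ¬ (q i : Eis) ∣ 1 := not_dvd_of_isUnit (hQ i hiS) isUnit_one
        rw [sym_neg (hQ i hiS) (hQ3 i hiS) h2, sym_one (hQ i hiS) (hQ3 i hiS), mul_zero]
    · obtain ⟨l, hlirr, hlt⟩ := WfDvdMonoid.exists_irreducible_factor hu ht
      have hl : Prime l := hlirr.prime
      have hl3 : ¬ l ∣ 3 := Prim.ndvd3 hl hprim hlt
      obtain ⟨j, hi⟩ := exists_prim (not_lam_dvd_of_prime hl hl3)
      have hass : Associated (l * w ^ j) l := ⟨(isUnit_w.pow j).unit⁻¹, by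
        rw [mul_assoc]; simp⟩
      have hl' : Prime (l * w ^ j) := (hass.symm.prime hl)
      rcases H l hl hl3 hlt with hgood | hval
      · -- a good prime; make it primary
        have hl3' : ¬ (l * w ^ j) ∣ 3 := fun h => hl3 (hass.symm.dvd.trans h)
        obtain ⟨t', ht'e⟩ : l * w ^ j ∣ t := hass.dvd.trans hlt
        have ht'p : Prim t' := hi.of_mul (by rw [← ht'e]; exact hprim)
        have ht' : t' ≠ 0 := by
          rintro rfl
          rw [mul_zero] at ht'e
          exact ht ht'e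
        have hqt' : ∀ i ∈ S, ¬ (q i : Eis) ∣ t' := fun i hiS h => hqt i hiS (by
          rw [ht'e]; exact Dvd.dvd.mul_left h _)
        have hql' : ∀ i ∈ S, ¬ (q i : Eis) ∣ l * w ^ j := fun i hiS h => hqt i hiS (by
          rw [ht'e]; exact Dvd.dvd.mul_right h _)
        have hlt' : N t' < n := by
          rw [← hn, ht'e, N_mul]
          have h1 := N_prime hl'
          have h2 := N_pos ht'
          nlinarith
        have h1 := ih _ hlt' t' rfl ht' ht'p hqt' (by
          intro m hm hm3 hmt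
          by_cases hass' : Associated m (l * w ^ j)
          · left
            rw [← hgood]
            exact Finset.sum_congr rfl (fun i _ => by rw [sym_associated (hass'.trans hass)])
          · rcases H m hm hm3 (by rw [ht'e]; exact Dvd.dvd.mul_left hmt _) with h | h
            · exact Or.inl h
            · right
              have hml : ¬ m ∣ l * w ^ j := fun h' => hass' (hm.associated_of_dvd hl' h')
              rwa [ht'e, V_mul_not_dvd hm hml ht'] at h)
        have h2 : ∀ i ∈ S, a i * sym (q i : Eis) t =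
            a i * sym l (q i : Eis) + a i * sym (q i : Eis) t' := by
          intro i hiS
          have r1 := recip_inert (hq i hiS) (hq3 i hiS) hl' hl3' hi (hql' i hiS)
          rw [ht'e, sym_mul (hQ i hiS) (hQ3 i hiS) (hql' i hiS) (hqt' i hiS), r1, sym_associated hass]
          ring
        rw [Finset.sum_congr rfl h2, Finset.sum_add_distrib, h1, hgood, add_zero]
      · -- valuation divisible by 3
        have hVe : V (l * w ^ j) t = V l t := multiplicity_eq_of_associated_left hass.symm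
        obtain ⟨c, hc, hlc⟩ := V_split hl' ht
        obtain ⟨k, hk⟩ := hval
        have hk0 : k ≠ 0 := by
          rintro rfl
          exact V_eq_zero_iff.mp (by rw [hk]) hlt
        rw [hVe, hk] at hc
        have hc0 : c ≠ 0 := by rintro rfl; exact hlc (dvd_zero _)
        have hcp : Prim c := (hi.pow (3 * k)).of_mul (by rw [← hc]; exact hprim)
        have hlk : l * w ^ j ∣ (l * w ^ j) ^ (3 * k) := dvd_pow_self _ (by omega)
        have hqc : ∀ i ∈ S, ¬ (q i : Eis) ∣ c := fun i hiS h => hqt i hiS (by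
          rw [hc]; exact Dvd.dvd.mul_left h _)
        have hqk : ∀ i ∈ S, ¬ (q i : Eis) ∣ (l * w ^ j) ^ (3 * k) := fun i hiS h => hqt i hiS (by
          rw [hc]; exact Dvd.dvd.mul_right h _)
        have hql : ∀ i ∈ S, ¬ (q i : Eis) ∣ l * w ^ j := fun i hiS h => hqk i hiS (h.trans hlk)
        have hlt' : N c < n := by
          rw [← hn, hc, N_mul]
          have h1 : 1 < N ((l * w ^ j) ^ (3 * k)) := by
            have : N ((l * w ^ j) ^ (3 * k)) = (N (l * w ^ j)) ^ (3 * k) := by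
              have h5 : ((N ((l * w ^ j) ^ (3 * k)) : ℕ) : ℤ) = ((N (l * w ^ j)) ^ (3 * k) : ℕ) := by
                rw [N_cast, Eis.norm_pow]; push_cast; rw [N_cast]
              exact_mod_cast h5
            rw [this]
            exact Nat.one_lt_pow (by omega) (N_prime hl')
          have h2 := N_pos hc0
          nlinarith
        have h1 := ih _ hlt' c rfl hc0 hcp hqc (by
          intro m hm hm3 hmt
          have hml : ¬ m ∣ (l * w ^ j) ^ (3 * k) := by
            intro h'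
            have h6 := hm.dvd_of_dvd_pow h'
            have := hm.associated_of_dvd hl' h6
            exact hlc (this.symm.dvd.trans hmt)
          rcases H m hm hm3 (by rw [hc]; exact Dvd.dvd.mul_left hmt _) with h | h
          · exact Or.inl h
          · right
            rwa [hc, V_mul_not_dvd hm hml hc0] at h)
        rw [← h1]
        refine Finset.sum_congr rfl (fun i hiS => ?_)
        rw [hc, sym_mul (hQ i hiS) (hQ3 i hiS) (hqk i hiS) (hqc i hiS),
          sym_pow (hQ i hiS) (hQ3 i hiS) (hql i hiS)]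
        push_cast
        linear_combination (a i * (k : ZMod 3) * sym (q i : Eis) (l * w ^ j)) * three_zmod

/-- **the product formula for several inert primes** -/
theorem lemmaSG {q : Fin m → ℕ} (S : Finset (Fin m)) (hq : ∀ i ∈ S, (q i).Prime)
    (hq3 : ∀ i ∈ S, q i % 3 = 2) (a : Fin m → ZMod 3) {t : Eis} {c : ZMod 3} (ht : t ≠ 0)
    (hqt : ∀ i ∈ S, ¬ (q i : Eis) ∣ t) (hc : Cls t c)
    (H : ∀ l : Eis, Prime l → ¬ l ∣ 3 → l ∣ t →
      ∑ i ∈ S, a i * sym l (q i : Eis) = 0 ∨ 3 ∣ V l t) :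
    ∑ i ∈ S, a i * sym (q i : Eis) t = c * ∑ i ∈ S, a i * sym (q i : Eis) w := by
  have hQ := fun i hi => prime_inert (hq i hi) (hq3 i hi)
  have hQ3 := fun i hi => n3 (hq i hi) (hq3 i hi)
  obtain ⟨j, k, s, rfl, hp, rfl⟩ := hc
  have hw := fun i hi => not_dvd_w (hQ i hi)
  have hl := fun i hi => not_dvd_lam (hQ3 i hi)
  have hlj : ∀ i ∈ S, ¬ (q i : Eis) ∣ lam ^ j := fun i hi h =>
    hl i hi ((hQ i hi).dvd_of_dvd_pow h)
  have hwk : ∀ i ∈ S, ¬ (q i : Eis) ∣ w ^ k := fun i hi h => hw i hi ((hQ i hi).dvd_of_dvd_pow h)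
  have hqs : ∀ i ∈ S, ¬ (q i : Eis) ∣ s := fun i hi h => hqt i hi (Dvd.dvd.mul_left h _)
  have hs0 : s ≠ 0 := by rintro rfl; exact ht (by rw [mul_zero])
  have hwk0 : w ^ k ≠ 0 := pow_ne_zero _ (by decide)
  have h1 := lemmaS_primG S hq hq3 a _ (s * w ^ k) rfl (mul_ne_zero hs0 hwk0) hp
    (fun i hi h => ((hQ i hi).dvd_or_dvd h).elim (hqs i hi) (hwk i hi)) (by
      intro l hl hl3 hlt
      have hls : l ∣ s := (hl.dvd_or_dvd hlt).resolve_right (fun h =>
        not_dvd_w hl (hl.dvd_of_dvd_pow h))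
      rcases H l hl hl3 (Dvd.dvd.mul_left hls _) with h | h
      · exact Or.inl h
      · right
        have e1 : ¬ l ∣ lam ^ j := fun h => not_dvd_lam hl3 (hl.dvd_of_dvd_pow h)
        have e2 : ¬ l ∣ w ^ k := fun h => not_dvd_w hl (hl.dvd_of_dvd_pow h)
        rw [V_mul_not_dvd hl e1 hs0] at h
        rwa [mul_comm, V_mul_not_dvd hl e2 hs0])
  rw [Finset.mul_sum]
  rw [← add_zero (∑ i ∈ S, -((j : ZMod 3) + k) * (a i * sym (q i : Eis) w)), ← h1,
    ← Finset.sum_add_distrib]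
  refine Finset.sum_congr rfl (fun i hi => ?_)
  rw [sym_mul (hQ i hi) (hQ3 i hi) (hqs i hi) (hwk i hi), sym_pow (hQ i hi) (hQ3 i hi) (hw i hi),
    sym_mul (hQ i hi) (hQ3 i hi) (hlj i hi) (hqs i hi), sym_pow (hQ i hi) (hQ3 i hi) (hl i hi),
    sym_inert_lam (hq i hi) (hq3 i hi)]
  ring

end Pool.Agent.CubeRank

end
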