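import Mathlib
import Pool.Agent.PTWX.C18

/-! Parts: CubeRank.Coll, CubeRank.KapAdd, CubeRank.GKapAdd, CubeRank.Chord -/

namespace Pool.Agent.CubeRank.Collx
end Pool.Agent.CubeRank.Collx

namespace Pool.Agent.CubeRank.KapAddAux
end Pool.Agent.CubeRank.KapAddAux

namespace Pool.Agent.CubeRank.GKapAdd
end Pool.Agent.CubeRank.GKapAdd

section

/-!
# Module CR_COLL (MP_8e0b0b_nt): three collinear points (M2)
-/

set_option autoImplicit false

namespace Pool.Agent.CubeRank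

open Pool.Agent.Lib_helper18 Pool.Agent.Lib_helper18.Eis Pool.Agent.Lib_helper84.Cub
open WeierstrassCurve.Affine

namespace Collx

lemma eq_EA {A : ℤ} {x y : ℚ} (h : (EA A).toAffine.Equation x y) :
    y ^ 2 = x ^ 3 - 432 * (A : ℚ) ^ 2 := by
  rw [equation_iff] at h
  simp only [EA] at h
  linear_combination h

/-- the line through three points of sum zero -/
lemma line_of_sum {A : ℤ} {x1 y1 x2 y2 x3 y3 : ℚ} {h1 : (EA A).toAffine.Nonsingular x1 y1}
    {h2 : (EA A).toAffine.Nonsingular x2 y2} {h3 : (EA A).toAffine.Nonsingular x3 y3}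
    (h : (Point.some x1 y1 h1 + Point.some x2 y2 h2 + Point.some x3 y3 h3 : GA A) = 0) :
    ∃ ℓ μ : ℚ, y1 = ℓ * x1 + μ ∧ y2 = ℓ * x2 + μ ∧ y3 = ℓ * x3 + μ ∧ x1 + x2 + x3 = ℓ ^ 2 ∧
      x1 * x2 + x1 * x3 + x2 * x3 = -2 * ℓ * μ ∧ x1 * x2 * x3 = μ ^ 2 + 432 * (A : ℚ) ^ 2 := by
  by_cases hxy : x1 = x2 ∧ y1 = (EA A).toAffine.negY x2 y2
  · rw [Point.add_of_Y_eq hxy.1 hxy.2, zero_add] at h
    exact absurd h (Point.some_ne_zero _)
  have hR : (Point.some x3 y3 h3 : GA A) = -(Point.some x1 y1 h1 + Point.some x2 y2 h2) := by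
    rw [eq_neg_iff_add_eq_zero, add_comm]
    exact h
  rw [Point.add_some hxy, Point.neg_some, Point.some.injEq] at hR
  obtain ⟨hx3, hy3⟩ := hR
  have hp := addPolynomial_slope h1.1 h2.1 hxy
  set ℓ := (EA A).toAffine.slope x1 x2 y1 y2 with hℓ
  rw [addPolynomial_eq, neg_inj, Cubic.prod_X_sub_C_eq, Cubic.toPoly_injective] at hp
  rw [← hx3] at hp
  simp only [Cubic.mk.injEq] at hp
  obtain ⟨-, hb, hc, hd⟩ := hp
  have hx3' : x3 = ℓ ^ 2 - x1 - x2 := by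
    rw [hx3, addX]
    simp only [EA]
    ring
  have hy3' : y3 = ℓ * (x3 - x1) + y1 := by
    rw [hy3, addY, negY_negY, negAddY, ← hx3]
  simp only [EA] at hb hc hd
  refine ⟨ℓ, y1 - ℓ * x1, by ring, ?_, ?_, ?_, ?_, ?_⟩
  · by_cases hx : x1 = x2
    · have hy : y1 ≠ (EA A).toAffine.negY x2 y2 := fun h => hxy ⟨hx, h⟩
      have := Y_eq_of_Y_ne h1.1 h2.1 hx hy
      rw [← this, ← hx]
      ring
    · rw [hℓ, slope_of_X_ne hx]
      have : x1 - x2 ≠ 0 := sub_ne_zero.2 hx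
      field_simp
      ring
  · rw [hy3']
    ring
  · rw [hx3']
    ring
  · linear_combination (-1 : ℚ) * hc
  · linear_combination hd

/-- primitive integral multiples -/
lemma primitive {r1 r2 r3 : ℚ} (h : r1 ≠ 0 ∨ r2 ≠ 0) : ∃ (t : ℚ) (l m n : ℤ), t ≠ 0 ∧
    (l : ℚ) = t * r1 ∧ (m : ℚ) = t * r2 ∧ (n : ℚ) = t * r3 ∧
    ∃ u v s : ℤ, u * l + v * m + s * n = 1 := by
  -- common denominator
  set D : ℤ := r1.den * r2.den * r3.den with hD
  have hD0 : (D : ℚ) ≠ 0 := by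
    rw [hD]
    push_cast
    have e1 : (r1.den : ℚ) ≠ 0 := by exact_mod_cast r1.den_ne_zero
    have e2 : (r2.den : ℚ) ≠ 0 := by exact_mod_cast r2.den_ne_zero
    have e3 : (r3.den : ℚ) ≠ 0 := by exact_mod_cast r3.den_ne_zero
    positivity
  set L : ℤ := r1.num * (r2.den * r3.den) with hL
  set M : ℤ := r2.num * (r1.den * r3.den) with hM
  set N : ℤ := r3.num * (r1.den * r2.den) with hN
  have n1 : (r1.num : ℚ) = r1 * r1.den := (Rat.mul_den_eq_num r1).symm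
  have n2 : (r2.num : ℚ) = r2 * r2.den := (Rat.mul_den_eq_num r2).symm
  have n3 : (r3.num : ℚ) = r3 * r3.den := (Rat.mul_den_eq_num r3).symm
  have eL : (L : ℚ) = D * r1 := by rw [hL, hD]; push_cast; rw [n1]; ring
  have eM : (M : ℚ) = D * r2 := by rw [hM, hD]; push_cast; rw [n2]; ring
  have eN : (N : ℚ) = D * r3 := by rw [hN, hD]; push_cast; rw [n3]; ring
  have hLM : L ≠ 0 ∨ M ≠ 0 := by
    rcases h with h | h
    · left
      intro h0
      rw [h0, Int.cast_zero] at eL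
      exact mul_ne_zero hD0 h eL.symm
    · right
      intro h0
      rw [h0, Int.cast_zero] at eM
      exact mul_ne_zero hD0 h eM.symm
  set g1 : ℤ := (Int.gcd L M : ℤ) with hg1
  set g : ℤ := (Int.gcd g1 N : ℤ) with hg
  have d1 : g ∣ g1 := Int.gcd_dvd_left _ _
  have d2 : g ∣ N := Int.gcd_dvd_right _ _
  have d3 : g1 ∣ L := Int.gcd_dvd_left _ _
  have d4 : g1 ∣ M := Int.gcd_dvd_right _ _
  have b1 : g1 = L * Int.gcdA L M + M * Int.gcdB L M := Int.gcd_eq_gcd_ab L M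
  have b2 : g = g1 * Int.gcdA g1 N + N * Int.gcdB g1 N := Int.gcd_eq_gcd_ab g1 N
  have hg0 : g ≠ 0 := by
    intro h0
    rw [h0, zero_dvd_iff] at d1
    rw [d1, zero_dvd_iff] at d3 d4
    rcases hLM with h | h
    · exact h d3
    · exact h d4
  have hg0' : (g : ℚ) ≠ 0 := by exact_mod_cast hg0
  obtain ⟨l, hl⟩ := d1.trans d3
  obtain ⟨m, hm⟩ := d1.trans d4
  obtain ⟨n, hn⟩ := d2
  refine ⟨D / g, l, m, n, div_ne_zero hD0 hg0', ?_, ?_, ?_, Int.gcdA g1 N * Int.gcdA L M,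
    Int.gcdA g1 N * Int.gcdB L M, Int.gcdB g1 N, ?_⟩
  · rw [div_mul_eq_mul_div, eq_div_iff hg0', ← eL, hl]; push_cast; ring
  · rw [div_mul_eq_mul_div, eq_div_iff hg0', ← eM, hm]; push_cast; ring
  · rw [div_mul_eq_mul_div, eq_div_iff hg0', ← eN, hn]; push_cast; ring
  · apply mul_left_cancel₀ hg0
    rw [mul_one]
    calc g * (Int.gcdA g1 N * Int.gcdA L M * l + Int.gcdA g1 N * Int.gcdB L M * m +
          Int.gcdB g1 N * n)
        = (g * l * Int.gcdA L M + g * m * Int.gcdB L M) * Int.gcdA g1 N +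
          g * n * Int.gcdB g1 N := by ring
      _ = g := by rw [← hl, ← hm, ← hn, ← b1, ← b2]

/-- a complex cube root of unity -/
noncomputable def om : ℂ := ⟨-1 / 2, √3 / 2⟩

lemma om_rel : om ^ 2 + om + 1 = 0 := by
  have h3 : √3 * √3 = 3 := Real.mul_self_sqrt (by norm_num)
  apply Complex.ext
  · simp only [om, pow_two, Complex.add_re, Complex.mul_re, Complex.one_re, Complex.zero_re]
    linear_combination (-1 / 4 : ℝ) * h3
  · simp only [om, pow_two, Complex.add_im, Complex.mul_im, Complex.one_im, Complex.zero_im]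
    ring

/-- the embedding of the Eisenstein integers into `ℂ` -/
noncomputable def emb (z : Eis) : ℂ := (z.re : ℂ) + (z.im : ℂ) * om

lemma emb_add (x y : Eis) : emb (x + y) = emb x + emb y := by
  simp only [emb, add_re, add_im]
  push_cast
  ring

lemma emb_sub (x y : Eis) : emb (x - y) = emb x - emb y := by
  simp only [emb, sub_re, sub_im]
  push_cast
  ring

lemma emb_mul (x y : Eis) : emb (x * y) = emb x * emb y := by
  simp only [emb, mul_re, mul_im]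
  push_cast
  linear_combination -((x.im : ℂ) * y.im) * om_rel

lemma emb_int (n : ℤ) : emb (n : Eis) = n := by
  simp [emb]

lemma emb_w : emb w = om := by
  simp [emb]

lemma emb_pow3 (x : Eis) : emb (x ^ 3) = emb x ^ 3 := by
  rw [pow_succ, pow_two, emb_mul, emb_mul]
  ring

lemma emb_inj {x y : Eis} (h : emb x = emb y) : x = y := by
  have h3 : √3 ≠ 0 := by positivity
  have hi := congrArg Complex.im h
  have hr := congrArg Complex.re h
  simp only [emb, om, Complex.add_im, Complex.mul_im, Complex.intCast_im, Complex.intCast_re,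
    Complex.add_re, Complex.mul_re] at hi hr
  have e1 : ((x.im : ℝ) - y.im) * (√3 / 2) = 0 := by linarith
  have e2 : (x.im : ℝ) = y.im := by
    rcases mul_eq_zero.1 e1 with h | h
    · linarith
    · exact absurd h (by positivity)
  have e3 : (x.re : ℝ) = y.re := by
    rw [e2] at hr
    linarith
  ext
  · exact_mod_cast e3
  · exact_mod_cast e2

end Collx

open _root_.Pool.Agent.CubeRank.Collx in
theorem coll : CollStmt := by
  intro A hA _ P Q R a1 b1 c1 a2 b2 c2 a3 b3 c3 hsum hP hQ hR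
  obtain ⟨hc1, -, he1, x1, y1, n1, rfl, hx1, hy1⟩ := hP
  obtain ⟨hc2, -, he2, x2, y2, n2, rfl, hx2, hy2⟩ := hQ
  obtain ⟨hc3, -, he3, x3, y3, n3, rfl, hx3, hy3⟩ := hR
  obtain ⟨ℓ, μ, l1, l2, l3, s1, s2, s3⟩ := line_of_sum hsum
  have hAq : (A : ℚ) ≠ 0 := by exact_mod_cast hA
  have hne : 36 * (A : ℚ) - μ ≠ 0 ∨ -(36 * (A : ℚ) + μ) ≠ 0 := by
    by_contra hcon
    push Not at hcon
    apply hAq
    linarith [hcon.1, hcon.2]
  obtain ⟨t, l, m, n, ht, hl, hm, hn, hprim⟩ := primitive (r3 := -12 * A * ℓ) hne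
  have line : ∀ (a b c : ℤ) (x y : ℚ), x * (a + b) = 12 * A * c → y * (a + b) = 36 * A * (a - b) →
      y = ℓ * x + μ → l * a + m * b + n * c = 0 := by
    intro a b c x y h1 h2 h3
    have : ((l * a + m * b + n * c : ℤ) : ℚ) = 0 := by
      push_cast
      rw [hl, hm, hn]
      linear_combination t * (-1 : ℚ) * h2 + t * ℓ * h1 + t * ((a : ℚ) + b) * h3
    exact_mod_cast this
  refine ⟨l, m, n, hprim, line _ _ _ _ _ hx1 hy1 l1, line _ _ _ _ _ hx2 hy2 l2,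
    line _ _ _ _ _ hx3 hy3 l3, ?_⟩
  -- the symmetric functions of the `y`
  have Y1 : y1 + y2 + y3 = 3 * μ + ℓ ^ 3 := by
    rw [l1, l2, l3]; linear_combination ℓ * s1
  have Y2 : y1 * y2 + y1 * y3 + y2 * y3 = 3 * μ ^ 2 := by
    rw [l1, l2, l3]; linear_combination ℓ ^ 2 * s2 + 2 * ℓ * μ * s1
  have Y3 : y1 * y2 * y3 = μ ^ 3 + 432 * (A : ℚ) ^ 2 * ℓ ^ 3 := by
    rw [l1, l2, l3]; linear_combination ℓ ^ 3 * s3 + ℓ ^ 2 * μ * s2 + ℓ * μ ^ 2 * s1
  -- the coordinates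
  have ca : ∀ (a b : ℤ) (y : ℚ), y * (a + b) = 36 * A * (a - b) →
      72 * (A : ℚ) * a = (a + b) * (36 * A + y) ∧ 72 * (A : ℚ) * b = (a + b) * (36 * A - y) := by
    intro a b y h
    constructor
    · linear_combination (-1 : ℚ) * h
    · linear_combination h
  obtain ⟨ea1, eb1⟩ := ca a1 b1 y1 hy1
  obtain ⟨ea2, eb2⟩ := ca a2 b2 y2 hy2
  obtain ⟨ea3, eb3⟩ := ca a3 b3 y3 hy3
  apply emb_inj
  simp only [emb_mul, emb_add, emb_sub, emb_pow3, emb_int, emb_w]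
  have h72 : (72 * (A : ℂ)) ^ 3 ≠ 0 := by
    have : (A : ℂ) ≠ 0 := by exact_mod_cast hA
    exact pow_ne_zero 3 (mul_ne_zero (by norm_num) this)
  apply mul_left_cancel₀ h72
  -- casts to `ℂ`
  have Ea1 : 72 * (A : ℂ) * a1 = (a1 + b1) * (36 * A + y1) := by exact_mod_cast congrArg (fun q : ℚ => (q : ℂ)) ea1
  have Ea2 : 72 * (A : ℂ) * a2 = (a2 + b2) * (36 * A + y2) := by exact_mod_cast congrArg (fun q : ℚ => (q : ℂ)) ea2
  have Ea3 : 72 * (A : ℂ) * a3 = (a3 + b3) * (36 * A + y3) := by exact_mod_cast congrArg (fun q : ℚ => (q : ℂ)) ea3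
  have Eb1 : 72 * (A : ℂ) * b1 = (a1 + b1) * (36 * A - y1) := by exact_mod_cast congrArg (fun q : ℚ => (q : ℂ)) eb1
  have Eb2 : 72 * (A : ℂ) * b2 = (a2 + b2) * (36 * A - y2) := by exact_mod_cast congrArg (fun q : ℚ => (q : ℂ)) eb2
  have Eb3 : 72 * (A : ℂ) * b3 = (a3 + b3) * (36 * A - y3) := by exact_mod_cast congrArg (fun q : ℚ => (q : ℂ)) eb3
  have Z1 : (y1 : ℂ) + y2 + y3 = 3 * μ + ℓ ^ 3 := by exact_mod_cast congrArg (fun q : ℚ => (q : ℂ)) Y1
  have Z2 : (y1 : ℂ) * y2 + y1 * y3 + y2 * y3 = 3 * μ ^ 2 := by exact_mod_cast congrArg (fun q : ℚ => (q : ℂ)) Y2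
  have Z3 : (y1 : ℂ) * y2 * y3 = μ ^ 3 + 432 * (A : ℂ) ^ 2 * ℓ ^ 3 := by exact_mod_cast congrArg (fun q : ℚ => (q : ℂ)) Y3
  have Hl : (l : ℂ) = t * (36 * A - μ) := by exact_mod_cast congrArg (fun q : ℚ => (q : ℂ)) hl
  have Hm : (m : ℂ) = t * (-(36 * A + μ)) := by exact_mod_cast congrArg (fun q : ℚ => (q : ℂ)) hm
  have Hn : (n : ℂ) = t * (-12 * A * ℓ) := by exact_mod_cast congrArg (fun q : ℚ => (q : ℂ)) hn
  set s : ℂ := ((a1 : ℂ) + b1) * (a2 + b2) * (a3 + b3) with hs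
  have hω := om_rel
  have pa : (72 * (A : ℂ)) ^ 3 * (a1 * a2 * a3) =
      s * ((36 * A + μ) ^ 3 + 1728 * (A : ℂ) ^ 2 * ℓ ^ 3) := by
    calc (72 * (A : ℂ)) ^ 3 * (a1 * a2 * a3)
        = (72 * (A : ℂ) * a1) * (72 * (A : ℂ) * a2) * (72 * (A : ℂ) * a3) := by ring
      _ = s * ((36 * A + y1) * (36 * A + y2) * (36 * A + y3)) := by
          rw [Ea1, Ea2, Ea3, hs]; ring
      _ = _ := by
          congr 1
          linear_combination (36 * (A : ℂ)) ^ 2 * Z1 + 36 * (A : ℂ) * Z2 + Z3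
  have pw : (72 * (A : ℂ)) ^ 3 * ((a1 + om * b1) * (a2 + om * b2) * (a3 + om * b3)) =
      s * ((1 - om) * μ + 36 * A * (1 + om)) ^ 3 := by
    calc (72 * (A : ℂ)) ^ 3 * ((a1 + om * b1) * (a2 + om * b2) * (a3 + om * b3))
        = (72 * (A : ℂ) * a1 + om * (72 * (A : ℂ) * b1)) *
          (72 * (A : ℂ) * a2 + om * (72 * (A : ℂ) * b2)) *
          (72 * (A : ℂ) * a3 + om * (72 * (A : ℂ) * b3)) := by ring
      _ = s * ((36 * A * (1 + om) + (1 - om) * y1) * (36 * A * (1 + om) + (1 - om) * y2) *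
          (36 * A * (1 + om) + (1 - om) * y3)) := by
          rw [Ea1, Ea2, Ea3, Eb1, Eb2, Eb3, hs]; ring
      _ = _ := by
          congr 1
          linear_combination (36 * (A : ℂ) * (1 + om)) ^ 2 * (1 - om) * Z1 +
            36 * (A : ℂ) * (1 + om) * (1 - om) ^ 2 * Z2 + (1 - om) ^ 3 * Z3 +
            ℓ ^ 3 * (1 - om) * 1728 * (A : ℂ) ^ 2 * hω
  have hnm : ((n ^ 3 + A * m ^ 3 : ℤ) : ℂ) =
      -(A : ℂ) * t ^ 3 * ((36 * A + μ) ^ 3 + 1728 * (A : ℂ) ^ 2 * ℓ ^ 3) := by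
    push_cast
    rw [Hn, Hm]
    ring
  have hml : (m : ℂ) - om * l = -t * ((1 - om) * μ + 36 * A * (1 + om)) := by
    rw [Hm, Hl]
    ring
  have hprod : (((a1 * a2 * a3 : ℤ)) : ℂ) = a1 * a2 * a3 := by push_cast; ring
  rw [hnm, hml, hprod]
  linear_combination (-(A : ℂ) * t ^ 3 * ((36 * A + μ) ^ 3 + 1728 * (A : ℂ) ^ 2 * ℓ ^ 3)) * pw +
    (A : ℂ) * t ^ 3 * ((1 - om) * μ + 36 * A * (1 + om)) ^ 3 * pa

end Pool.Agent.CubeRank

end

section

/-!
# The class of a point is additive (M5b)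
-/

set_option autoImplicit false

namespace Pool.Agent.CubeRank

open Pool.Agent.Lib_helper18 Pool.Agent.Lib_helper18.Eis Pool.Agent.Lib_helper84.Cub

namespace KapAddAux

/-- an element with rational cube is a rational multiple of a power of `w` -/
theorem ratio {X Y : Eis} {n n' : ℤ} (hn : n ≠ 0) (h : X ^ 3 * n = Y ^ 3 * n') :
    ∃ (k : ℕ) (M : ℤ), X * conj Y = M * w ^ k := by
  obtain ⟨Z, hZ⟩ : ∃ Z, Z = X * conj Y := ⟨_, rfl⟩
  have h1 : Z ^ 3 * (n : Eis) = ((Y.norm ^ 3 * n' : ℤ) : Eis) := by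
    have e := mul_conj Y
    push_cast
    rw [hZ, ← e]
    linear_combination (conj Y) ^ 3 * h
  have h2 := congrArg Eis.im h1
  obtain ⟨a, b⟩ := Z
  have h3 : 3 * (a * b * (a - b)) * n = 0 := by
    have e : ((⟨a, b⟩ : Eis) ^ 3 * (n : Eis)).im = 3 * (a * b * (a - b)) * n := by
      simp only [pow_succ, pow_zero, one_mul, mul_im, mul_re, intCast_re, intCast_im]
      ring
    rw [← e, h2]
    exact intCast_im _
  have h4 : a * b * (a - b) = 0 := by
    rcases mul_eq_zero.mp h3 with h | h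
    · rcases mul_eq_zero.mp h with h | h
      · norm_num at h
      · exact h
    · exact absurd h hn
  rw [← hZ]
  rcases mul_eq_zero.mp h4 with h | h
  · rcases mul_eq_zero.mp h with h | h
    · refine ⟨1, b, ?_⟩
      subst h
      ext <;> simp
    · refine ⟨0, a, ?_⟩
      subst h
      ext <;> simp
  · refine ⟨2, -a, ?_⟩
    have hb : b = a := by linarith
    subst hb
    rw [w_sq]
    ext <;> simp

section

variable {q : ℕ} (hq : q.Prime) (h3 : q % 3 = 2)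
include hq h3

omit hq h3 in
theorem cast_dvd {n : ℤ} : (q : Eis) ∣ (n : Eis) ↔ (q : ℤ) ∣ n := by
  rw [natCast_dvd_iff]; simp

theorem sym_conj' {Y : Eis} (hY : ¬ (q : Eis) ∣ Y) :
    ¬ (q : Eis) ∣ conj Y ∧ sym (q : Eis) (conj Y) = - sym (q : Eis) Y := by
  have hP := prime_inert hq h3
  have hn3 := n3 hq h3
  constructor
  · intro h
    have := conj_dvd h
    rw [conj_natCast, conj_conj] at this
    exact hY this
  · have := sym_conj hP hn3 hY
    rwa [conj_natCast] at this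

theorem sym_wpow (k : ℕ) : ¬ (q : Eis) ∣ w ^ k ∧ sym (q : Eis) (w ^ k) = k * sym (q : Eis) w := by
  have hP := prime_inert hq h3
  have hn3 := n3 hq h3
  exact ⟨fun h => not_dvd_w hP (hP.dvd_of_dvd_pow h), sym_pow hP hn3 (not_dvd_w hP) k⟩

theorem sym_ratio {X Y : Eis} {k : ℕ} {M : ℤ} (hX : ¬ (q : Eis) ∣ X) (hY : ¬ (q : Eis) ∣ Y)
    (h : X * conj Y = M * w ^ k) :
    sym (q : Eis) X - sym (q : Eis) Y = k * sym (q : Eis) w := by
  have hP := prime_inert hq h3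
  have hn3 := n3 hq h3
  obtain ⟨c1, c2⟩ := sym_conj' hq h3 hY
  obtain ⟨w1, w2⟩ := sym_wpow hq h3 k
  have hM : ¬ (q : ℤ) ∣ M := by
    intro hM
    have h1 : (q : Eis) ∣ X * conj Y := by
      rw [h]
      exact Dvd.dvd.mul_right (cast_dvd.2 hM) _
    exact (hP.dvd_or_dvd h1).elim hX c1
  have hM' : ¬ (q : Eis) ∣ (M : Eis) := fun h => hM (cast_dvd.1 h)
  have h1 := congrArg (sym (q : Eis)) h
  rw [sym_mul hP hn3 hX c1, sym_mul hP hn3 hM' w1, sym_int hq h3 hM, c2, w2] at h1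
  linear_combination h1

theorem sym_w_ne (h9 : q % 9 = 2 ∨ q % 9 = 5) : sym (q : Eis) w ≠ 0 := by
  have hP := prime_inert hq h3
  have hn3 := n3 hq h3
  rw [sym_w hP hn3]
  have hN : N (q : Eis) = q * q := by
    rw [N, norm_natCast, Int.natAbs_pow, Int.natAbs_natCast, pow_two]
  rw [hN]
  intro h
  rw [ZMod.natCast_eq_zero_iff] at h
  have h1 : (q * q) % 9 = 4 ∨ (q * q) % 9 = 7 := by
    rcases h9 with h9 | h9
    · left; rw [Nat.mul_mod, h9]
    · right; rw [Nat.mul_mod, h9]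
  omega

/-- cubing is injective modulo an inert prime -/
theorem cube_inj' {u v : ℤ} (h : (q : ℤ) ∣ u ^ 3 + v ^ 3) (hv : ¬ (q : ℤ) ∣ v) :
    (q : ℤ) ∣ u + v := by
  have hP := prime_inert hq h3
  have h1 : (q : Eis) ∣ ((u : Eis) + v) * (((u : Eis) + w * v) * ((u : Eis) + w ^ 2 * v)) := by
    have e : ((u : Eis) + v) * (((u : Eis) + w * v) * ((u : Eis) + w ^ 2 * v)) =
        ((u ^ 3 + v ^ 3 : ℤ) : Eis) := by
      push_cast
      have h1 := w_rel
      have h2 := w_cube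
      linear_combination ((u : Eis) + v) * u * v * h1 + ((u : Eis) + v) * v ^ 2 * h2
    rw [e]; exact cast_dvd.2 h
  rcases hP.dvd_or_dvd h1 with h2 | h2
  · have : (q : Eis) ∣ ((u + v : ℤ) : Eis) := by push_cast; exact h2
    exact cast_dvd.1 this
  · exfalso
    rcases hP.dvd_or_dvd h2 with h3 | h3
    · rw [natCast_dvd_iff] at h3
      obtain ⟨h4, h5⟩ := h3
      simp at h4 h5
      exact hv h5
    · rw [natCast_dvd_iff, w_sq] at h3
      obtain ⟨h4, h5⟩ := h3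
      simp at h4 h5
      exact hv h5

end

section

variable {m : ℕ} {p e : Fin m → ℕ} (H : Hyp p e)
include H

theorem p3 (i : Fin m) : p i % 3 = 2 := by
  rcases H.h9 i with h | h <;> omega

theorem AA_ne : AA p e ≠ 0 := by
  unfold AA
  refine Finset.prod_ne_zero_iff.2 fun i _ => pow_ne_zero _ ?_
  exact_mod_cast (H.hp i).ne_zero

theorem dvd_AA (i : Fin m) : (p i : ℤ) ∣ AA p e := by
  unfold AA
  refine (dvd_pow_self (p i : ℤ) ?_).trans (Finset.dvd_prod_of_mem _ (Finset.mem_univ i))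
  rcases H.he i with h | h <;> omega

theorem cube_ndvd (i : Fin m) : ¬ (p i : ℤ) ^ 3 ∣ AA p e := by
  intro h
  unfold AA at h
  rw [← Finset.mul_prod_erase Finset.univ _ (Finset.mem_univ i)] at h
  have hZ := Nat.prime_iff_prime_int.mp (H.hp i)
  have h0 : (p i : ℤ) ^ e i ≠ 0 := pow_ne_zero _ hZ.ne_zero
  have h1 : (p i : ℤ) ^ (e i + 1) ∣ (p i : ℤ) ^ 3 := pow_dvd_pow _ (by
    rcases H.he i with h | h <;> omega)
  have h2 := h1.trans h
  rw [pow_succ] at h2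
  have h4 := (mul_dvd_mul_iff_left h0).1 h2
  obtain ⟨j, hj, h5⟩ := (Prime.dvd_finsetProd_iff hZ _).1 h4
  have h6 := hZ.dvd_of_dvd_pow h5
  have h7 : p i ∣ p j := by exact_mod_cast h6
  have h8 := (Nat.prime_dvd_prime_iff_eq (H.hp i) (H.hp j)).1 h7
  exact (Finset.ne_of_mem_erase hj) (H.inj h8).symm

theorem not_cube (hm : 1 ≤ m) : ¬ ∃ n : ℤ, n ^ 3 = AA p e := by
  rintro ⟨n, hn⟩
  have hZ := Nat.prime_iff_prime_int.mp (H.hp ⟨0, hm⟩)
  have h1 : (p ⟨0, hm⟩ : ℤ) ∣ n ^ 3 := by rw [hn]; exact dvd_AA H _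
  have h2 := hZ.dvd_of_dvd_pow h1
  exact cube_ndvd H ⟨0, hm⟩ (by rw [← hn]; exact pow_dvd_pow_of_dvd h2 3)

/-- adding a constant to the class -/
theorem kap_shift {P : GA (AA p e)} {v : Fin m → ZMod 3} (h : Kap p e P v) (c : ZMod 3) :
    Kap p e P (fun i => v i + c) := by
  rcases h with ⟨h0, d, hd⟩ | ⟨a, b, z, γ, t1, t2, hC, ht1, ht2, he, hs⟩
  · exact Or.inl ⟨h0, d + c, fun i => by simp only [hd]⟩
  · refine Or.inr ⟨a, b, z, w ^ c.val * γ, t1, t2, hC, ht1, ht2, ?_, fun i => ?_⟩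
    · rw [he, mul_pow, ← pow_mul, mul_comm c.val, pow_mul, w_cube, one_pow, one_mul]
    · obtain ⟨h1, h2⟩ := hs i
      obtain ⟨w1, w2⟩ := sym_wpow (H.hp i) (p3 H i) c.val
      have hP := prime_inert (H.hp i) (p3 H i)
      have hn3 := n3 (H.hp i) (p3 H i)
      refine ⟨fun h => (hP.dvd_or_dvd h).elim w1 h1, ?_⟩
      rw [sym_mul hP hn3 w1 h1, h2, w2, ZMod.natCast_val, ZMod.cast_id', id]
      ring

/-- the class of the negative -/
theorem kap_neg (h1 : BasicsStmt) {P : GA (AA p e)} {v : Fin m → ZMod 3} (h : Kap p e P v) :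
    Kap p e (-P) (fun i => - v i) := by
  rcases h with ⟨h0, d, hd⟩ | ⟨a, b, z, γ, t1, t2, hC, ht1, ht2, he, hs⟩
  · exact Or.inl ⟨by rw [h0, neg_zero], -d, fun i => by simp only [hd]⟩
  · refine Or.inr ⟨b, a, z, conj γ, t1, -t2, ((h1 _ (AA_ne H)).2.2.2.2 P a b z hC).1, ht1,
      neg_ne_zero.2 ht2, ?_, fun i => ?_⟩
    · have e1 := congrArg conj he
      simp only [map_mul, map_add, map_pow, conj_intCast, conj_w, lam_eq, map_sub, map_one] at e1
      have hc := w_cube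
      have hr := w_rel
      rw [lam_eq]
      push_cast
      linear_combination w * e1 + (-(t1 : Eis) * b - t2 * conj γ ^ 3) * hc +
        (0 : Eis) * hr
    · obtain ⟨h1, h2⟩ := hs i
      obtain ⟨c1, c2⟩ := sym_conj' (H.hp i) (p3 H i) h1
      exact ⟨c1, by rw [c2, h2]; ring⟩

omit H in
theorem crd_ne {A : ℤ} {P : GA A} {a b c : ℤ} (h : Crd A P a b c) : P ≠ 0 := by
  obtain ⟨_, _, _, x, y, h, rfl, _⟩ := h
  exact WeierstrassCurve.Affine.Point.some_ne_zero h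

/-- the class of a point is unique up to constants -/
theorem kap_unique (h1 : BasicsStmt) {P : GA (AA p e)} {v v' : Fin m → ZMod 3}
    (h : Kap p e P v) (h' : Kap p e P v') : ∃ c, ∀ i, v i = v' i + c := by
  rcases h with ⟨h0, d, hd⟩ | ⟨a, b, z, γ, t1, t2, hC, ht1, ht2, he, hs⟩
  · rcases h' with ⟨h0', d', hd'⟩ | ⟨a', b', z', γ', t1', t2', hC', _⟩
    · exact ⟨d - d', fun i => by rw [hd, hd']; ring⟩
    · exact absurd h0 (crd_ne hC')
  · rcases h' with ⟨h0', d', hd'⟩ | ⟨a', b', z', γ', t1', t2', hC', ht1', ht2', he', hs'⟩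
    · exact absurd h0' (crd_ne hC)
    · have hcong : ∃ (k : ℕ) (M : ℤ), γ * conj γ' = M * w ^ k := by
        have hl := prime_lam.ne_zero
        rcases (h1 _ (AA_ne H)).2.2.2.1 P a b z a' b' z' hC hC' with ⟨ea, eb, _⟩ | ⟨ea, eb, _⟩
        · refine ratio (n := t2 * t1') (n' := t2' * t1) (mul_ne_zero ht2 ht1') ?_
          refine mul_left_cancel₀ hl ?_
          rw [ea, eb] at he'
          push_cast
          linear_combination (-(t1' : Eis)) * he + (t1 : Eis) * he'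
        · refine ratio (n := -(t2 * t1')) (n' := t2' * t1) (neg_ne_zero.2
            (mul_ne_zero ht2 ht1')) ?_
          refine mul_left_cancel₀ hl ?_
          rw [ea, eb] at he'
          push_cast at he' ⊢
          linear_combination (t1' : Eis) * he + (t1 : Eis) * he'
      obtain ⟨k, M, hk⟩ := hcong
      refine ⟨k, fun i => ?_⟩
      have e1 := sym_ratio (H.hp i) (p3 H i) (hs i).1 (hs' i).1 hk
      rw [(hs i).2, (hs' i).2] at e1
      refine mul_right_cancel₀ (sym_w_ne (H.hp i) (p3 H i) (H.h9 i)) ?_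
      linear_combination e1

/-- the coordinates of a point are prime to the primes `p i` -/
theorem crd_q (i : Fin m) {P : GA (AA p e)} {a b c : ℤ} (h : Crd (AA p e) P a b c) :
    ¬ (p i : ℤ) ∣ a ∧ ¬ (p i : ℤ) ∣ b ∧ (p i : ℤ) ∣ a + b ∧ ¬ (p i : Eis) ∣ (a : Eis) + w * b := by
  obtain ⟨_, hc, he, _⟩ := h
  have hZ := Nat.prime_iff_prime_int.mp (H.hp i)
  have h1 : (p i : ℤ) ∣ a ^ 3 + b ^ 3 := by
    rw [he]
    exact Dvd.dvd.mul_right (dvd_AA H i) _
  have hb : ¬ (p i : ℤ) ∣ b := by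
    intro hb
    have h2 : (p i : ℤ) ∣ a ^ 3 := (dvd_add_left (hb.trans (dvd_pow_self b (by norm_num)))).1 h1
    exact hZ.not_isUnit (hc.isUnit_of_dvd' (hZ.dvd_of_dvd_pow h2) hb)
  have ha : ¬ (p i : ℤ) ∣ a := by
    intro ha
    have h2 : (p i : ℤ) ∣ b ^ 3 := (dvd_add_right (ha.trans (dvd_pow_self a (by norm_num)))).1 h1
    exact hb (hZ.dvd_of_dvd_pow h2)
  refine ⟨ha, hb, cube_inj' (H.hp i) (p3 H i) h1 hb, ?_⟩
  intro h
  rw [natCast_dvd_iff] at h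
  obtain ⟨h4, h5⟩ := h
  simp at h4 h5
  exact ha h4

/-- the case that one of three points with sum zero is zero -/
theorem kap_sum_zero (h1 : BasicsStmt) {P Q R : GA (AA p e)} {v v' v'' : Fin m → ZMod 3}
    (h : Kap p e P v) (h' : Kap p e Q v') (h'' : Kap p e R v'') (h0 : P + Q + R = 0)
    (hP : P = 0) : ∃ c, ∀ i, v i + v' i + v'' i = c := by
  obtain ⟨d, hd⟩ : ∃ d, ∀ i, v i = d := by
    rcases h with ⟨_, d, hd⟩ | ⟨a, b, z, γ, t1, t2, hC, _⟩
    · exact ⟨d, hd⟩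
    · exact absurd hP (crd_ne hC)
  have hQ : Q = -R := by
    rw [hP, zero_add] at h0
    exact eq_neg_of_add_eq_zero_left h0
  obtain ⟨c, hc⟩ := kap_unique H h1 h' (hQ ▸ kap_neg H h1 h'')
  exact ⟨d + c, fun i => by rw [hd, hc]; ring⟩

/-- three points with sum zero -/
theorem kap_sum (h1 : BasicsStmt) (h2 : CollStmt) (hm : 1 ≤ m) {P Q R : GA (AA p e)}
    {v v' v'' : Fin m → ZMod 3}
    (h : Kap p e P v) (h' : Kap p e Q v') (h'' : Kap p e R v'') (h0 : P + Q + R = 0) :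
    ∃ c, ∀ i, v i + v' i + v'' i = c := by
  by_cases hP : P = 0
  · exact kap_sum_zero H h1 h h' h'' h0 hP
  by_cases hQ : Q = 0
  · obtain ⟨c, hc⟩ := kap_sum_zero H h1 h' h h'' (by rw [← h0]; abel) hQ
    exact ⟨c, fun i => by rw [← hc i]; ring⟩
  by_cases hR : R = 0
  · obtain ⟨c, hc⟩ := kap_sum_zero H h1 h'' h h' (by rw [← h0]; abel) hR
    exact ⟨c, fun i => by rw [← hc i]; ring⟩
  obtain ⟨a1, b1, c1, γ1, t1, s1, hC1, ht1, hs1, he1, hq1⟩ := h.resolve_left fun h => hP h.1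
  obtain ⟨a2, b2, c2, γ2, t2, s2, hC2, ht2, hs2, he2, hq2⟩ := h'.resolve_left fun h => hQ h.1
  obtain ⟨a3, b3, c3, γ3, t3, s3, hC3, ht3, hs3, he3, hq3⟩ := h''.resolve_left fun h => hR h.1
  obtain ⟨l, mm, n, ⟨u, z, t, hpr⟩, hl1, _, _, hcoll⟩ := h2 (AA p e) (AA_ne H) (not_cube H hm)
    P Q R a1 b1 c1 a2 b2 c2 a3 b3 c3 h0 hC1 hC2 hC3
  -- the linear form at a prime
  have hY : ∀ i, ¬ (p i : Eis) ∣ (mm : Eis) - w * l ∧
      sym (p i : Eis) ((mm : Eis) - w * l) = sym (p i : Eis) lam := by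
    intro i
    have hZ := Nat.prime_iff_prime_int.mp (H.hp i)
    have hE := prime_inert (H.hp i) (p3 H i)
    have hn3 := n3 (H.hp i) (p3 H i)
    obtain ⟨x1, x2, x3, x4⟩ := crd_q H i hC1
    have y4 := (crd_q H i hC2).2.2.2
    have z4 := (crd_q H i hC3).2.2.2
    have k1 : (p i : Eis) ∣ ((n ^ 3 + AA p e * mm ^ 3 : ℤ) : Eis) *
        (((a1 : Eis) + w * b1) * ((a2 : Eis) + w * b2) * ((a3 : Eis) + w * b3)) := by
      rw [hcoll]
      exact Dvd.dvd.mul_right (Dvd.dvd.mul_right (cast_dvd.2 (dvd_AA H i)) _) _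
    have k2 : (p i : Eis) ∣ ((n ^ 3 + AA p e * mm ^ 3 : ℤ) : Eis) := by
      rcases hE.dvd_or_dvd k1 with k | k
      · exact k
      · exfalso
        rcases hE.dvd_or_dvd k with k | k
        · rcases hE.dvd_or_dvd k with k | k
          · exact x4 k
          · exact y4 k
        · exact z4 k
    have k3 : (p i : ℤ) ∣ n := by
      have k4 := cast_dvd.1 k2
      have k5 : (p i : ℤ) ∣ n ^ 3 := (dvd_add_left (Dvd.dvd.mul_right (dvd_AA H i) _)).1 k4
      exact hZ.dvd_of_dvd_pow k5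
    have k4 : (p i : ℤ) ∣ mm - l := by
      have k5 : (p i : ℤ) ∣ (mm - l) * a1 := by
        have e : (mm - l) * a1 = mm * (a1 + b1) + n * c1 := by linear_combination -hl1
        rw [e]
        exact dvd_add (Dvd.dvd.mul_left x3 _) (Dvd.dvd.mul_right k3 _)
      exact (hZ.dvd_or_dvd k5).resolve_right x1
    have k5 : ¬ (p i : ℤ) ∣ l := by
      intro hl
      have hmm : (p i : ℤ) ∣ mm := by
        have := dvd_add k4 hl
        rwa [sub_add_cancel] at this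
      apply hZ.not_dvd_one
      rw [← hpr]
      exact dvd_add (dvd_add (Dvd.dvd.mul_left hl _) (Dvd.dvd.mul_left hmm _))
        (Dvd.dvd.mul_left k3 _)
    have k6 : (p i : Eis) ∣ ((mm : Eis) - w * l) - (l : Eis) * lam := by
      have e : ((mm : Eis) - w * l) - (l : Eis) * lam = ((mm - l : ℤ) : Eis) := by
        rw [lam_eq]
        push_cast
        ring
      rw [e]
      exact cast_dvd.2 k4
    have k7 : ¬ (p i : Eis) ∣ (l : Eis) := fun h => k5 (cast_dvd.1 h)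
    have k8 := not_dvd_lam hn3
    refine ⟨fun hd => ?_, ?_⟩
    · have := dvd_sub hd k6
      rw [sub_sub_cancel] at this
      exact (hE.dvd_or_dvd this).elim k7 k8
    · rw [sym_congr k6, sym_mul hE hn3 k7 k8, sym_int (H.hp i) (p3 H i) k5, zero_add]
  have hX : ∀ i, ¬ (p i : Eis) ∣ lam * (γ1 * γ2 * γ3) ∧ sym (p i : Eis) (lam * (γ1 * γ2 * γ3)) =
      sym (p i : Eis) lam + (v i + v' i + v'' i) * sym (p i : Eis) w := by
    intro i
    have hE := prime_inert (H.hp i) (p3 H i)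
    have hn3 := n3 (H.hp i) (p3 H i)
    have n12 : ¬ (p i : Eis) ∣ γ1 * γ2 := fun h => (hE.dvd_or_dvd h).elim (hq1 i).1 (hq2 i).1
    have n123 : ¬ (p i : Eis) ∣ γ1 * γ2 * γ3 := fun h => (hE.dvd_or_dvd h).elim n12 (hq3 i).1
    refine ⟨fun h => (hE.dvd_or_dvd h).elim (not_dvd_lam hn3) n123, ?_⟩
    rw [sym_mul hE hn3 (not_dvd_lam hn3) n123, sym_mul hE hn3 n12 (hq3 i).1,
      sym_mul hE hn3 (hq1 i).1 (hq2 i).1, (hq1 i).2, (hq2 i).2, (hq3 i).2]
    ring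
  have hD : n ^ 3 + AA p e * mm ^ 3 ≠ 0 := by
    intro hD
    rw [hD, Int.cast_zero, zero_mul] at hcoll
    have i : Fin m := ⟨0, hm⟩
    have hE := prime_inert (H.hp i) (p3 H i)
    have a0 : ∀ {a : ℤ}, ¬ (p i : ℤ) ∣ a → a ≠ 0 := fun h h0 => h (h0 ▸ dvd_zero _)
    have hA : ((AA p e : ℤ) : Eis) ≠ 0 := by
      intro h
      have := congrArg Eis.re h
      simp at this
      exact AA_ne H this
    have hYn : (mm : Eis) - w * l ≠ 0 := fun h => (hY i).1 (h ▸ dvd_zero _)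
    have haa : ((a1 * a2 * a3 : ℤ) : Eis) ≠ 0 := by
      intro h
      have h4 := congrArg Eis.re h
      rw [intCast_re] at h4
      exact mul_ne_zero (mul_ne_zero (a0 (crd_q H i hC1).1) (a0 (crd_q H i hC2).1))
        (a0 (crd_q H i hC3).1) h4
    exact mul_ne_zero (mul_ne_zero hA (pow_ne_zero 3 hYn)) haa hcoll.symm
  obtain ⟨k, M, hk⟩ := ratio (X := lam * (γ1 * γ2 * γ3)) (Y := (mm : Eis) - w * l)
    (n := (n ^ 3 + AA p e * mm ^ 3) * (s1 * s2 * s3)) (n' := AA p e * (t1 * t2 * t3) *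
      (a1 * a2 * a3)) (mul_ne_zero hD (mul_ne_zero (mul_ne_zero hs1 hs2) hs3)) (by
    have e1 : (lam * (γ1 * γ2 * γ3)) ^ 3 * (((n ^ 3 + AA p e * mm ^ 3) * (s1 * s2 * s3) : ℤ) : Eis)
        = ((n ^ 3 + AA p e * mm ^ 3 : ℤ) : Eis) * ((s1 * (lam * γ1 ^ 3)) *
          (s2 * (lam * γ2 ^ 3)) * (s3 * (lam * γ3 ^ 3))) := by
      push_cast
      ring
    rw [e1, ← he1, ← he2, ← he3]
    push_cast at hcoll ⊢
    linear_combination (t1 * t2 * t3 : Eis) * hcoll)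
  refine ⟨k, fun i => ?_⟩
  have e1 := sym_ratio (H.hp i) (p3 H i) (hX i).1 (hY i).1 hk
  rw [(hX i).2, (hY i).2] at e1
  refine mul_right_cancel₀ (sym_w_ne (H.hp i) (p3 H i) (H.h9 i)) ?_
  linear_combination e1

end

end KapAddAux

open _root_.Pool.Agent.CubeRank.KapAddAux in
/-- (M5b) the class is additive -/
theorem kapAdd (h1 : BasicsStmt) (h2 : CollStmt) (h3 : KapExStmt) : KapAddStmt := by
  intro m p e hm H P Q v v' hv hv'
  obtain ⟨v'', hv''⟩ := h3 m p e hm H (-(P + Q))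
  obtain ⟨c, hc⟩ := kap_sum H h1 h2 hm hv hv' hv'' (by abel)
  have h4 := kap_neg H h1 hv''
  rw [neg_neg] at h4
  have h5 := kap_shift H h4 c
  have e1 : (fun i => - v'' i + c) = v + v' := by
    funext i
    rw [Pi.add_apply, ← hc i]
    ring
  rwa [e1] at h5

end Pool.Agent.CubeRank

end

section

/-!
# The class of a point is additive, general version (G5b)
-/

set_option autoImplicit false

namespace Pool.Agent.CubeRank

open Pool.Agent.Lib_helper18 Pool.Agent.Lib_helper18.Eis Pool.Agent.Lib_helper84.Cub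

namespace GKapAdd

open KapAddAux

/-! ### powers of `w` indexed by `ZMod 3` -/

/-- `w ^ v` -/
def W (v : ZMod 3) : Eis := w ^ v.val

theorem W_zero : W 0 = 1 := by simp [W]

theorem W_cube (v : ZMod 3) : W v ^ 3 = 1 := by
  rw [W, ← pow_mul, mul_comm, pow_mul, w_cube, one_pow]

theorem wpow_eq (k : ℕ) : w ^ k = W (k : ZMod 3) := by
  rw [W, ZMod.val_natCast]
  conv_lhs => rw [← Nat.div_add_mod k 3, pow_add, pow_mul, w_cube, one_pow, one_mul]

theorem W_add (u v : ZMod 3) : W (u + v) = W u * W v := by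
  have h : W u * W v = w ^ (u.val + v.val) := by rw [W, W, pow_add]
  rw [h, wpow_eq]
  congr 1

theorem W_neg (v : ZMod 3) : W (-v) = conj (W v) := by
  have h1 : conj (W v) = w ^ (2 * v.val) := by
    rw [W, map_pow, conj_w, ← pow_mul]
  rw [h1, wpow_eq]
  congr 1
  push_cast
  rw [ZMod.natCast_val, ZMod.cast_id']
  have : (3 : ZMod 3) = 0 := rfl
  simp only [id]
  linear_combination (-v) * this

theorem W_mul_neg (v : ZMod 3) : W v * W (-v) = 1 := by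
  rw [← W_add, add_neg_cancel, W_zero]

/-- uniqueness of the exponent -/
theorem uniq {q : ℕ} {M N : ℤ} {u v : ZMod 3} (hN : ¬ (q : ℤ) ∣ N)
    (h : (q : Eis) ∣ M * W u - N * W v) : u = v := by
  have h1 : (q : Eis) ∣ M - N * W (v - u) := by
    have h2 := Dvd.dvd.mul_right h (W (-u))
    have e : (M * W u - N * W v) * W (-u) = (M : Eis) - N * W (v - u) := by
      rw [sub_eq_add_neg v u, W_add]
      linear_combination (M : Eis) * W_mul_neg u
    rwa [e] at h2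
  rw [natCast_dvd_iff] at h1
  obtain ⟨_, h3⟩ := h1
  have hd : v - u = 0 ∨ v - u = 1 ∨ v - u = 2 := by
    generalize v - u = d
    revert d
    decide
  rcases hd with hd | hd | hd
  · exact (sub_eq_zero.1 hd).symm
  · exfalso
    rw [hd] at h3
    have e : W 1 = w := by rw [W]; exact pow_one w
    rw [e] at h3
    simp at h3
    exact hN h3
  · exfalso
    rw [hd] at h3
    have e : W 2 = w ^ 2 := rfl
    rw [e, w_sq] at h3
    simp at h3
    exact hN h3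

/-- `γ` is an integer prime to `q` times `w ^ v`, modulo `q` -/
def Cl (q : ℕ) (γ : Eis) (v : ZMod 3) : Prop :=
  ∃ n : ℤ, ¬ (q : ℤ) ∣ n ∧ (q : Eis) ∣ γ - n * W v

theorem Cl.mul {q : ℕ} (hq : q.Prime) {γ γ' : Eis} {v v' : ZMod 3} (h : Cl q γ v)
    (h' : Cl q γ' v') : Cl q (γ * γ') (v + v') := by
  obtain ⟨n, hn, hd⟩ := h
  obtain ⟨n', hn', hd'⟩ := h'
  have hZ := Nat.prime_iff_prime_int.mp hq
  refine ⟨n * n', fun hh => (hZ.dvd_or_dvd hh).elim hn hn', ?_⟩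
  have e : γ * γ' - ((n * n' : ℤ) : Eis) * W (v + v') =
      (γ - n * W v) * γ' + (n * W v) * (γ' - n' * W v') := by
    rw [W_add]
    push_cast
    ring
  rw [e]
  exact dvd_add (Dvd.dvd.mul_right hd _) (Dvd.dvd.mul_left hd' _)

theorem Cl.conj {q : ℕ} {γ : Eis} {v : ZMod 3} (h : Cl q γ v) : Cl q (conj γ) (-v) := by
  obtain ⟨n, hn, hd⟩ := h
  refine ⟨n, hn, ?_⟩
  have := conj_dvd hd
  rw [conj_natCast, map_sub, map_mul, conj_intCast] at this
  rw [W_neg]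
  exact this

theorem Cl.W {q : ℕ} (hq : q.Prime) (v : ZMod 3) : Cl q (W v) v := by
  refine ⟨1, fun h => hq.one_lt.ne' ?_, ?_⟩
  · have := Int.natAbs_dvd_natAbs.2 h
    simpa using this
  · simp

/-- two elements with the same cube up to rational factors -/
theorem Cl.ratio {q : ℕ} (hq : q.Prime) {X Y : Eis} {u v : ZMod 3} {k : ℕ} {M : ℤ}
    (hX : Cl q X u) (hY : Cl q Y v) (h : X * Eis.conj Y = M * w ^ k) : u - v = k := by
  obtain ⟨n, hn, hd⟩ := hX.mul hq hY.conj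
  rw [h, wpow_eq, ← sub_eq_add_neg] at hd
  exact (uniq hn hd).symm

section

variable {m : ℕ} {p e : Fin m → ℕ} (H : HypG p e)
include H

theorem AA_ne : AA p e ≠ 0 := by
  unfold AA
  refine Finset.prod_ne_zero_iff.2 fun i _ => pow_ne_zero _ ?_
  exact_mod_cast (H.hp i).ne_zero

theorem dvd_AA (i : Fin m) : (p i : ℤ) ∣ AA p e := by
  unfold AA
  refine (dvd_pow_self (p i : ℤ) ?_).trans (Finset.dvd_prod_of_mem _ (Finset.mem_univ i))
  rcases H.he i with h | h <;> omega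

theorem cube_ndvd (i : Fin m) : ¬ (p i : ℤ) ^ 3 ∣ AA p e := by
  intro h
  unfold AA at h
  rw [← Finset.mul_prod_erase Finset.univ _ (Finset.mem_univ i)] at h
  have hZ := Nat.prime_iff_prime_int.mp (H.hp i)
  have h0 : (p i : ℤ) ^ e i ≠ 0 := pow_ne_zero _ hZ.ne_zero
  have h1 : (p i : ℤ) ^ (e i + 1) ∣ (p i : ℤ) ^ 3 := pow_dvd_pow _ (by
    rcases H.he i with h | h <;> omega)
  have h2 := h1.trans h
  rw [pow_succ] at h2
  have h4 := (mul_dvd_mul_iff_left h0).1 h2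
  obtain ⟨j, hj, h5⟩ := (Prime.dvd_finsetProd_iff hZ _).1 h4
  have h6 := hZ.dvd_of_dvd_pow h5
  have h7 : p i ∣ p j := by exact_mod_cast h6
  have h8 := (Nat.prime_dvd_prime_iff_eq (H.hp i) (H.hp j)).1 h7
  exact (Finset.ne_of_mem_erase hj) (H.inj h8).symm

theorem not_cube : ¬ ∃ n : ℤ, n ^ 3 = AA p e := by
  rintro ⟨n, hn⟩
  obtain ⟨i, _⟩ := H.ex
  have hZ := Nat.prime_iff_prime_int.mp (H.hp i)
  have h1 : (p i : ℤ) ∣ n ^ 3 := by rw [hn]; exact dvd_AA H _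
  have h2 := hZ.dvd_of_dvd_pow h1
  exact cube_ndvd H i (by rw [← hn]; exact pow_dvd_pow_of_dvd h2 3)

omit H in
theorem kapG_iff {P : GA (AA p e)} {v : Fin m → ZMod 3} : KapG p e P v ↔
    ((P = 0 ∧ ∃ c, ∀ i, v i = c) ∨
    ∃ (a b c : ℤ) (γ : Eis) (t1 t2 : ℤ), Crd (AA p e) P a b c ∧ t1 ≠ 0 ∧ t2 ≠ 0 ∧
      (t1 : Eis) * ((a : Eis) + w * b) = t2 * (lam * γ ^ 3) ∧ ∀ i, Cl (p i) γ (v i)) := Iff.rfl

/-- adding a constant to the class -/
theorem kap_shift {P : GA (AA p e)} {v : Fin m → ZMod 3} (h : KapG p e P v) (c : ZMod 3) :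
    KapG p e P (fun i => v i + c) := by
  rw [kapG_iff] at h ⊢
  rcases h with ⟨h0, d, hd⟩ | ⟨a, b, z, γ, t1, t2, hC, ht1, ht2, he, hs⟩
  · exact Or.inl ⟨h0, d + c, fun i => by simp only [hd]⟩
  · refine Or.inr ⟨a, b, z, γ * W c, t1, t2, hC, ht1, ht2, ?_, fun i => ?_⟩
    · rw [he, mul_pow, W_cube, mul_one]
    · exact (hs i).mul (H.hp i) (Cl.W (H.hp i) c)

/-- the class of the negative -/
theorem kap_neg (h1 : BasicsStmt) {P : GA (AA p e)} {v : Fin m → ZMod 3} (h : KapG p e P v) :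
    KapG p e (-P) (fun i => - v i) := by
  rw [kapG_iff] at h ⊢
  rcases h with ⟨h0, d, hd⟩ | ⟨a, b, z, γ, t1, t2, hC, ht1, ht2, he, hs⟩
  · exact Or.inl ⟨by rw [h0, neg_zero], -d, fun i => by simp only [hd]⟩
  · refine Or.inr ⟨b, a, z, conj γ, t1, -t2, ((h1 _ (AA_ne H)).2.2.2.2 P a b z hC).1, ht1,
      neg_ne_zero.2 ht2, ?_, fun i => (hs i).conj⟩
    have e1 := congrArg conj he
    simp only [map_mul, map_add, map_pow, conj_intCast, conj_w, lam_eq, map_sub, map_one] at e1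
    have hc := w_cube
    have hr := w_rel
    rw [lam_eq]
    push_cast
    linear_combination w * e1 + (-(t1 : Eis) * b - t2 * conj γ ^ 3) * hc +
      (0 : Eis) * hr

/-- the class of a point is unique up to constants -/
theorem kap_unique (h1 : BasicsStmt) {P : GA (AA p e)} {v v' : Fin m → ZMod 3}
    (h : KapG p e P v) (h' : KapG p e P v') : ∃ c, ∀ i, v i = v' i + c := by
  rw [kapG_iff] at h h'
  rcases h with ⟨h0, d, hd⟩ | ⟨a, b, z, γ, t1, t2, hC, ht1, ht2, he, hs⟩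
  · rcases h' with ⟨h0', d', hd'⟩ | ⟨a', b', z', γ', t1', t2', hC', _⟩
    · exact ⟨d - d', fun i => by rw [hd, hd']; ring⟩
    · exact absurd h0 (crd_ne hC')
  · rcases h' with ⟨h0', d', hd'⟩ | ⟨a', b', z', γ', t1', t2', hC', ht1', ht2', he', hs'⟩
    · exact absurd h0' (crd_ne hC)
    · have hcong : ∃ (k : ℕ) (M : ℤ), γ * conj γ' = M * w ^ k := by
        have hl := prime_lam.ne_zero
        rcases (h1 _ (AA_ne H)).2.2.2.1 P a b z a' b' z' hC hC' with ⟨ea, eb, _⟩ | ⟨ea, eb, _⟩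
        · refine ratio (n := t2 * t1') (n' := t2' * t1) (mul_ne_zero ht2 ht1') ?_
          refine mul_left_cancel₀ hl ?_
          rw [ea, eb] at he'
          push_cast
          linear_combination (-(t1' : Eis)) * he + (t1 : Eis) * he'
        · refine ratio (n := -(t2 * t1')) (n' := t2' * t1) (neg_ne_zero.2
            (mul_ne_zero ht2 ht1')) ?_
          refine mul_left_cancel₀ hl ?_
          rw [ea, eb] at he'
          push_cast at he' ⊢
          linear_combination (t1' : Eis) * he + (t1 : Eis) * he'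
      obtain ⟨k, M, hk⟩ := hcong
      refine ⟨k, fun i => ?_⟩
      have e1 := Cl.ratio (H.hp i) (hs i) (hs' i) hk
      linear_combination e1

/-- the coordinates of a point at an inert prime -/
theorem crd_q (i : Fin m) (h3 : p i % 3 = 2) {P : GA (AA p e)} {a b c : ℤ}
    (h : Crd (AA p e) P a b c) :
    ¬ (p i : ℤ) ∣ a ∧ ¬ (p i : ℤ) ∣ b ∧ (p i : ℤ) ∣ a + b ∧ ¬ (p i : Eis) ∣ (a : Eis) + w * b := by
  obtain ⟨_, hc, he, _⟩ := h
  have hZ := Nat.prime_iff_prime_int.mp (H.hp i)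
  have h1 : (p i : ℤ) ∣ a ^ 3 + b ^ 3 := by
    rw [he]
    exact Dvd.dvd.mul_right (dvd_AA H i) _
  have hb : ¬ (p i : ℤ) ∣ b := by
    intro hb
    have h2 : (p i : ℤ) ∣ a ^ 3 := (dvd_add_left (hb.trans (dvd_pow_self b (by norm_num)))).1 h1
    exact hZ.not_isUnit (hc.isUnit_of_dvd' (hZ.dvd_of_dvd_pow h2) hb)
  have ha : ¬ (p i : ℤ) ∣ a := by
    intro ha
    have h2 : (p i : ℤ) ∣ b ^ 3 := (dvd_add_right (ha.trans (dvd_pow_self a (by norm_num)))).1 h1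
    exact hb (hZ.dvd_of_dvd_pow h2)
  refine ⟨ha, hb, cube_inj' (H.hp i) h3 h1 hb, ?_⟩
  intro h
  rw [natCast_dvd_iff] at h
  obtain ⟨h4, h5⟩ := h
  simp at h4 h5
  exact ha h4

/-- the case that one of three points with sum zero is zero -/
theorem kap_sum_zero (h1 : BasicsStmt) {P Q R : GA (AA p e)} {v v' v'' : Fin m → ZMod 3}
    (h : KapG p e P v) (h' : KapG p e Q v') (h'' : KapG p e R v'') (h0 : P + Q + R = 0)
    (hP : P = 0) : ∃ c, ∀ i, v i + v' i + v'' i = c := by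
  obtain ⟨d, hd⟩ : ∃ d, ∀ i, v i = d := by
    rcases h with ⟨_, d, hd⟩ | ⟨a, b, z, γ, t1, t2, hC, _⟩
    · exact ⟨d, hd⟩
    · exact absurd hP (crd_ne hC)
  have hQ : Q = -R := by
    rw [hP, zero_add] at h0
    exact eq_neg_of_add_eq_zero_left h0
  obtain ⟨c, hc⟩ := kap_unique H h1 h' (hQ ▸ kap_neg H h1 h'')
  exact ⟨d + c, fun i => by rw [hd, hc]; ring⟩

end

/-! ### the prime 3 -/

theorem three_dvd_cube_sub (a : ℤ) : (3 : ℤ) ∣ a ^ 3 - a := by
  have h : a % 3 = 0 ∨ a % 3 = 1 ∨ a % 3 = 2 := by omega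
  rcases h with h | h | h
  · obtain ⟨k, hk⟩ : ∃ k, a = 3 * k := ⟨a / 3, by omega⟩
    exact ⟨9 * k ^ 3 - k, by rw [hk]; ring⟩
  · obtain ⟨k, hk⟩ : ∃ k, a = 3 * k + 1 := ⟨a / 3, by omega⟩
    exact ⟨9 * k ^ 3 + 9 * k ^ 2 + 2 * k, by rw [hk]; ring⟩
  · obtain ⟨k, hk⟩ : ∃ k, a = 3 * k + 2 := ⟨a / 3, by omega⟩
    exact ⟨9 * k ^ 3 + 18 * k ^ 2 + 11 * k + 2, by rw [hk]; ring⟩

theorem prime3 : Prime (3 : ℤ) := Nat.prime_iff_prime_int.mp Nat.prime_three

/-- coordinates of a point with a class at 3 -/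
theorem crd_three {A : ℤ} (h3 : (3 : ℤ) ∣ A) (h27 : ¬ (3 : ℤ) ^ 3 ∣ A) {P : GA A} {a b c : ℤ}
    (h : Crd A P a b c) {γ : Eis} {t1 t2 : ℤ} (ht1 : t1 ≠ 0) (ht2 : t2 ≠ 0)
    (he : (t1 : Eis) * ((a : Eis) + w * b) = t2 * (lam * γ ^ 3)) {v : ZMod 3} (hv : Cl 3 γ v) :
    ¬ (3 : ℤ) ∣ a ∧ ¬ (3 : ℤ) ∣ b ∧ (3 : ℤ) ∣ c ∧
      ∃ s : ℤ, a + b = 27 * s ∧ (a : Eis) + w * b = lam * (-b + 9 * s * (2 + w)) := by
  obtain ⟨_, hco, heq, _⟩ := h
  have h1 : (3 : ℤ) ∣ a + b := by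
    have h2 : (3 : ℤ) ∣ a ^ 3 + b ^ 3 := by rw [heq]; exact Dvd.dvd.mul_right h3 _
    have h4 := dvd_sub h2 (dvd_add (three_dvd_cube_sub a) (three_dvd_cube_sub b))
    have e : a ^ 3 + b ^ 3 - (a ^ 3 - a + (b ^ 3 - b)) = a + b := by ring
    rwa [e] at h4
  have ha : ¬ (3 : ℤ) ∣ a := by
    intro ha
    have hb : (3 : ℤ) ∣ b := (dvd_add_right ha).1 h1
    exact prime3.not_isUnit (hco.isUnit_of_dvd' ha hb)
  have hb : ¬ (3 : ℤ) ∣ b := by
    intro hb
    have ha' : (3 : ℤ) ∣ a := (dvd_add_left hb).1 h1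
    exact ha ha'
  obtain ⟨s, hs⟩ := h1
  have hfac : (a : Eis) + w * b = lam * ((2 * s - b : ℤ) + s * w) := by
    have e : a = 3 * s - b := by linarith
    rw [e, lam_eq]
    push_cast
    have hr := w_rel
    linear_combination (s : Eis) * hr
  obtain ⟨n, hn, β, hβ⟩ := hv
  have hγ : γ = n * W v + 3 * β := by
    have : ((3 : ℕ) : Eis) = 3 := by norm_num
    rw [this] at hβ
    linear_combination hβ
  obtain ⟨β', hβ'⟩ : ∃ β' : Eis, γ ^ 3 = (n : Eis) ^ 3 + 9 * β' := by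
    refine ⟨(n : Eis) ^ 2 * W v ^ 2 * β + 3 * n * W v * β ^ 2 + 3 * β ^ 3, ?_⟩
    rw [hγ]
    linear_combination (n : Eis) ^ 3 * W_cube v
  have hE : (t1 : Eis) * (((2 * s - b : ℤ) : Eis) + (s : Eis) * w) =
      (t2 : Eis) * (((n ^ 3 : ℤ) : Eis) + ((9 : ℤ) : Eis) * β') := by
    refine mul_left_cancel₀ prime_lam.ne_zero ?_
    rw [hfac, hβ'] at he
    push_cast at he ⊢
    linear_combination he
  have hre := congrArg Eis.re hE
  have him := congrArg Eis.im hE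
  simp only [mul_re, mul_im, add_re, add_im, intCast_re, intCast_im, w_re, w_im] at hre him
  -- 9 ∣ s
  have hkey : (n ^ 3 + 9 * β'.re) * s = 9 * β'.im * (2 * s - b) := by
    refine mul_left_cancel₀ (mul_ne_zero ht1 ht2) ?_
    linear_combination (-(t1 * s)) * hre + (t1 * (2 * s - b)) * him
  have hcop : IsCoprime (9 : ℤ) (n ^ 3) := by
    have h5 : IsCoprime (3 : ℤ) n := (prime3.coprime_iff_not_dvd).2 (by exact_mod_cast hn)
    have h6 : IsCoprime ((3 : ℤ) ^ 2) (n ^ 3) := h5.pow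
    have e : (3 : ℤ) ^ 2 = 9 := by norm_num
    rwa [e] at h6
  have h9 : (9 : ℤ) ∣ s := by
    have h7 : (9 : ℤ) ∣ n ^ 3 * s := ⟨β'.im * (2 * s - b) - β'.re * s, by linear_combination hkey⟩
    exact hcop.dvd_of_dvd_mul_left h7
  obtain ⟨s', hs'⟩ := h9
  refine ⟨ha, hb, ?_, s', by rw [hs, hs']; ring, ?_⟩
  · by_contra hc
    apply h27
    have h8 : (3 : ℤ) ^ 3 ∣ A * c ^ 3 := by
      rw [← heq]
      refine ⟨s' * (a ^ 2 - a * b + b ^ 2), ?_⟩
      have e : a ^ 3 + b ^ 3 = (a + b) * (a ^ 2 - a * b + b ^ 2) := by ring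
      rw [e, hs, hs']; ring
    have h9 : IsCoprime (3 : ℤ) c := (prime3.coprime_iff_not_dvd).2 hc
    have h10 : IsCoprime ((3 : ℤ) ^ 3) (c ^ 3) := h9.pow
    exact h10.dvd_of_dvd_mul_right h8
  · rw [hfac, hs']
    push_cast
    ring

section

variable {m : ℕ} {p e : Fin m → ℕ} (H : HypG p e)
include H

/-- three points with sum zero -/
theorem kap_sum (h1 : BasicsStmt) (h2 : CollStmt) {P Q R : GA (AA p e)}
    {v v' v'' : Fin m → ZMod 3}
    (h : KapG p e P v) (h' : KapG p e Q v') (h'' : KapG p e R v'') (h0 : P + Q + R = 0) :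
    ∃ c, ∀ i, v i + v' i + v'' i = c := by
  by_cases hP : P = 0
  · exact kap_sum_zero H h1 h h' h'' h0 hP
  by_cases hQ : Q = 0
  · obtain ⟨c, hc⟩ := kap_sum_zero H h1 h' h h'' (by rw [← h0]; abel) hQ
    exact ⟨c, fun i => by rw [← hc i]; ring⟩
  by_cases hR : R = 0
  · obtain ⟨c, hc⟩ := kap_sum_zero H h1 h'' h h' (by rw [← h0]; abel) hR
    exact ⟨c, fun i => by rw [← hc i]; ring⟩
  rw [kapG_iff] at h h' h''
  obtain ⟨a1, b1, c1, γ1, t1, s1, hC1, ht1, hs1, he1, hq1⟩ := h.resolve_left fun h => hP h.1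
  obtain ⟨a2, b2, c2, γ2, t2, s2, hC2, ht2, hs2, he2, hq2⟩ := h'.resolve_left fun h => hQ h.1
  obtain ⟨a3, b3, c3, γ3, t3, s3, hC3, ht3, hs3, he3, hq3⟩ := h''.resolve_left fun h => hR h.1
  obtain ⟨l, mm, n, ⟨u, z, t, hpr⟩, hl1, _, _, hcoll⟩ := h2 (AA p e) (AA_ne H) (not_cube H)
    P Q R a1 b1 c1 a2 b2 c2 a3 b3 c3 h0 hC1 hC2 hC3
  -- the linear form at an inert prime
  have hY : ∀ i, p i % 3 = 2 → ¬ (p i : ℤ) ∣ l ∧ (p i : ℤ) ∣ mm - l := by
    intro i hi3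
    have hZ := Nat.prime_iff_prime_int.mp (H.hp i)
    have hE := prime_inert (H.hp i) hi3
    obtain ⟨x1, x2, x3, x4⟩ := crd_q H i hi3 hC1
    have y4 := (crd_q H i hi3 hC2).2.2.2
    have z4 := (crd_q H i hi3 hC3).2.2.2
    have k1 : (p i : Eis) ∣ ((n ^ 3 + AA p e * mm ^ 3 : ℤ) : Eis) *
        (((a1 : Eis) + w * b1) * ((a2 : Eis) + w * b2) * ((a3 : Eis) + w * b3)) := by
      rw [hcoll]
      exact Dvd.dvd.mul_right (Dvd.dvd.mul_right (cast_dvd.2 (dvd_AA H i)) _) _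
    have k2 : (p i : Eis) ∣ ((n ^ 3 + AA p e * mm ^ 3 : ℤ) : Eis) := by
      rcases hE.dvd_or_dvd k1 with k | k
      · exact k
      · exfalso
        rcases hE.dvd_or_dvd k with k | k
        · rcases hE.dvd_or_dvd k with k | k
          · exact x4 k
          · exact y4 k
        · exact z4 k
    have k3 : (p i : ℤ) ∣ n := by
      have k4 := cast_dvd.1 k2
      have k5 : (p i : ℤ) ∣ n ^ 3 := (dvd_add_left (Dvd.dvd.mul_right (dvd_AA H i) _)).1 k4
      exact hZ.dvd_of_dvd_pow k5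
    have k4 : (p i : ℤ) ∣ mm - l := by
      have k5 : (p i : ℤ) ∣ (mm - l) * a1 := by
        have e : (mm - l) * a1 = mm * (a1 + b1) + n * c1 := by linear_combination -hl1
        rw [e]
        exact dvd_add (Dvd.dvd.mul_left x3 _) (Dvd.dvd.mul_right k3 _)
      exact (hZ.dvd_or_dvd k5).resolve_right x1
    refine ⟨?_, k4⟩
    intro hl
    have hmm : (p i : ℤ) ∣ mm := by
      have := dvd_add k4 hl
      rwa [sub_add_cancel] at this
    apply hZ.not_dvd_one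
    rw [← hpr]
    exact dvd_add (dvd_add (Dvd.dvd.mul_left hl _) (Dvd.dvd.mul_left hmm _))
      (Dvd.dvd.mul_left k3 _)
  have hlc : lam * conj lam = 3 := by
    rw [lam_eq, map_sub, map_one, conj_w]
    have hr := w_rel
    have hc := w_cube
    linear_combination hc - hr
  have hD : n ^ 3 + AA p e * mm ^ 3 ≠ 0 := by
    intro hD
    rw [hD, Int.cast_zero, zero_mul] at hcoll
    obtain ⟨i, hi⟩ := H.ex
    have hi3 : p i % 3 = 2 := by rcases hi with h | h <;> omega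
    have a0 : ∀ {a : ℤ}, ¬ (p i : ℤ) ∣ a → a ≠ 0 := fun h h0 => h (h0 ▸ dvd_zero _)
    have hA : ((AA p e : ℤ) : Eis) ≠ 0 := by
      intro h
      have := congrArg Eis.re h
      simp at this
      exact AA_ne H this
    have hYn : (mm : Eis) - w * l ≠ 0 := by
      intro h
      have h4 := congrArg Eis.im h
      simp at h4
      exact a0 (hY i hi3).1 h4
    have haa : ((a1 * a2 * a3 : ℤ) : Eis) ≠ 0 := by
      intro h
      have h4 := congrArg Eis.re h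
      rw [intCast_re] at h4
      exact mul_ne_zero (mul_ne_zero (a0 (crd_q H i hi3 hC1).1) (a0 (crd_q H i hi3 hC2).1))
        (a0 (crd_q H i hi3 hC3).1) h4
    exact mul_ne_zero (mul_ne_zero hA (pow_ne_zero 3 hYn)) haa hcoll.symm
  obtain ⟨k, M, hk⟩ := ratio (X := lam * (γ1 * γ2 * γ3)) (Y := (mm : Eis) - w * l)
    (n := (n ^ 3 + AA p e * mm ^ 3) * (s1 * s2 * s3)) (n' := AA p e * (t1 * t2 * t3) *
      (a1 * a2 * a3)) (mul_ne_zero hD (mul_ne_zero (mul_ne_zero hs1 hs2) hs3)) (by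
    have e1 : (lam * (γ1 * γ2 * γ3)) ^ 3 * (((n ^ 3 + AA p e * mm ^ 3) * (s1 * s2 * s3) : ℤ) : Eis)
        = ((n ^ 3 + AA p e * mm ^ 3 : ℤ) : Eis) * ((s1 * (lam * γ1 ^ 3)) *
          (s2 * (lam * γ2 ^ 3)) * (s3 * (lam * γ3 ^ 3))) := by
      push_cast
      ring
    rw [e1, ← he1, ← he2, ← he3]
    push_cast at hcoll ⊢
    linear_combination (t1 * t2 * t3 : Eis) * hcoll)
  rw [wpow_eq] at hk
  refine ⟨k, fun i => ?_⟩
  obtain ⟨N, hN, hd⟩ := ((hq1 i).mul (H.hp i) (hq2 i)).mul (H.hp i) (hq3 i)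
  rcases H.h3 i with h3 | h3
  · -- inert primes
    obtain ⟨k5, k4⟩ := hY i h3
    have hZ := Nat.prime_iff_prime_int.mp (H.hp i)
    refine (uniq (q := p i) (M := M) (N := 3 * l * N) (u := k) ?_ ?_).symm
    · intro hh
      rcases hZ.dvd_or_dvd hh with hh | hh
      · rcases hZ.dvd_or_dvd hh with hh | hh
        · have h5 : p i ∣ 3 := by exact_mod_cast hh
          have h6 := (Nat.prime_dvd_prime_iff_eq (H.hp i) Nat.prime_three).1 h5
          omega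
        · exact k5 hh
      · exact hN hh
    · have e : (M : Eis) * W k - ((3 * l * N : ℤ) : Eis) * W (v i + v' i + v'' i) =
          lam * conj ((mm : Eis) - w * l) * (γ1 * γ2 * γ3 - N * W (v i + v' i + v'' i)) +
          ((mm - l : ℤ) : Eis) * (lam * (N * W (v i + v' i + v'' i))) := by
        rw [← hk, map_sub, map_mul, conj_w, conj_intCast, conj_intCast, lam_eq]
        push_cast
        have hr := w_rel
        have hc := w_cube
        linear_combination (l * N * W (v i + v' i + v'' i) : Eis) * (hc - hr)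
      rw [e]
      exact dvd_add (Dvd.dvd.mul_left hd _) (Dvd.dvd.mul_right (cast_dvd.2 k4) _)
  · -- the prime 3
    have h3A : (3 : ℤ) ∣ AA p e := by
      have := dvd_AA H i
      rw [h3] at this
      exact_mod_cast this
    have h27 : ¬ (3 : ℤ) ^ 3 ∣ AA p e := by
      have := cube_ndvd H i
      rw [h3] at this
      exact_mod_cast this
    have q1 := hq1 i
    have q2 := hq2 i
    have q3 := hq3 i
    rw [h3] at q1 q2 q3 hd hN
    obtain ⟨_, y1, z1, r1, f1, g1⟩ := crd_three h3A h27 hC1 ht1 hs1 he1 q1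
    obtain ⟨_, y2, z2, r2, f2, g2⟩ := crd_three h3A h27 hC2 ht2 hs2 he2 q2
    obtain ⟨_, y3, z3, r3, f3, g3⟩ := crd_three h3A h27 hC3 ht3 hs3 he3 q3
    have hN' : ¬ (3 : ℤ) ∣ N := by exact_mod_cast hN
    have hd' : (3 : Eis) ∣ γ1 * γ2 * γ3 - N * W (v i + v' i + v'' i) := by
      have e3 : ((3 : ℕ) : Eis) = 3 := by norm_num
      rwa [e3] at hd
    obtain ⟨c1', hc1'⟩ := z1
    have hbb : (mm - l) * b1 = -27 * l * r1 - n * c1 := by
      linear_combination hl1 - l * f1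
    obtain ⟨g, hg⟩ : (3 : ℤ) ∣ mm - l := by
      have h4 : (3 : ℤ) ∣ (mm - l) * b1 := ⟨-9 * l * r1 - n * c1', by rw [hbb, hc1']; ring⟩
      exact (prime3.dvd_or_dvd h4).resolve_right y1
    have hgE : (mm : Eis) - l = 3 * g := by
      have := congrArg (Int.cast : ℤ → Eis) hg
      push_cast at this
      exact this
    have eY : (mm : Eis) - w * l = lam * (l + g * conj lam) := by
      have : lam * ((l : Eis) + g * conj lam) = lam * l + g * (lam * conj lam) := by ring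
      rw [this, hlc, lam_eq]
      linear_combination hgE
    obtain ⟨A', hA'⟩ := h3A
    have hAE : ((AA p e : ℤ) : Eis) = 3 * A' := by rw [hA']; push_cast; ring
    have hc2 : ((n ^ 3 + AA p e * mm ^ 3 : ℤ) : Eis) * ((-b1 + 9 * r1 * (2 + w)) *
        (-b2 + 9 * r2 * (2 + w)) * (-b3 + 9 * r3 * (2 + w))) =
        (AA p e : Eis) * (l + g * conj lam) ^ 3 * ((a1 * a2 * a3 : ℤ) : Eis) := by
      refine mul_left_cancel₀ (pow_ne_zero 3 prime_lam.ne_zero) ?_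
      rw [g1, g2, g3, eY] at hcoll
      linear_combination hcoll
    have hn3 : (3 : ℤ) ∣ n := by
      have h4 : ((3 : ℕ) : Eis) ∣ (((n ^ 3 + AA p e * mm ^ 3) * (b1 * b2 * b3) : ℤ) : Eis) := by
        refine ⟨-((A' : Eis) * (l + g * conj lam) ^ 3 * ((a1 * a2 * a3 : ℤ) : Eis)) +
          3 * ((n ^ 3 + AA p e * mm ^ 3 : ℤ) : Eis) *
          ((r1 * (2 + w)) * (b2 * b3) + (r2 * (2 + w)) * (b1 * b3) + (r3 * (2 + w)) * (b1 * b2) -
            9 * ((r1 * (2 + w)) * (r2 * (2 + w)) * b3 + (r1 * (2 + w)) * (r3 * (2 + w)) * b2 +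
              (r2 * (2 + w)) * (r3 * (2 + w)) * b1) +
            81 * ((r1 * (2 + w)) * (r2 * (2 + w)) * (r3 * (2 + w)))), ?_⟩
        have e3 : ((3 : ℕ) : Eis) = 3 := by norm_num
        rw [e3, Int.cast_mul (n ^ 3 + AA p e * mm ^ 3)]
        generalize ((n ^ 3 + AA p e * mm ^ 3 : ℤ) : Eis) = D at hc2 ⊢
        rw [hAE] at hc2
        push_cast at hc2 ⊢
        linear_combination (-1 : Eis) * hc2
      have h5 : (3 : ℤ) ∣ (n ^ 3 + AA p e * mm ^ 3) * (b1 * b2 * b3) := by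
        have := cast_dvd.1 h4
        exact_mod_cast this
      have h6 : (3 : ℤ) ∣ n ^ 3 + AA p e * mm ^ 3 := by
        rcases prime3.dvd_or_dvd h5 with h6 | h6
        · exact h6
        · exfalso
          rcases prime3.dvd_or_dvd h6 with h6 | h6
          · rcases prime3.dvd_or_dvd h6 with h6 | h6
            · exact y1 h6
            · exact y2 h6
          · exact y3 h6
      have h7 : (3 : ℤ) ∣ n ^ 3 :=
        (dvd_add_left (Dvd.dvd.mul_right (⟨A', hA'⟩ : (3 : ℤ) ∣ AA p e) _)).1 h6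
      exact prime3.dvd_of_dvd_pow h7
    obtain ⟨n', hn'⟩ := hn3
    have hg3 : (3 : ℤ) ∣ g := by
      have h4 : (3 : ℤ) ∣ g * b1 := by
        refine ⟨-3 * l * r1 - n' * c1', ?_⟩
        have h5 : (3 : ℤ) * (g * b1) = 3 * (3 * (-3 * l * r1 - n' * c1')) := by
          rw [hg, hc1', hn'] at hbb
          linear_combination hbb
        exact mul_left_cancel₀ (by norm_num) h5
      exact (prime3.dvd_or_dvd h4).resolve_right y1
    have hl3 : ¬ (3 : ℤ) ∣ l := by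
      intro hl
      have hmm : (3 : ℤ) ∣ mm := by
        have := dvd_add (⟨g, hg⟩ : (3 : ℤ) ∣ mm - l) hl
        rwa [sub_add_cancel] at this
      apply prime3.not_dvd_one
      rw [← hpr]
      exact dvd_add (dvd_add (Dvd.dvd.mul_left hl _) (Dvd.dvd.mul_left hmm _))
        (Dvd.dvd.mul_left ⟨n', hn'⟩ _)
    -- the product
    have hk2 : (3 : Eis) * ((γ1 * γ2 * γ3) * (l + g * lam)) = M * W k := by
      rw [← hk, eY, map_mul, map_add, map_mul, conj_conj, conj_intCast, conj_intCast, ← hlc]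
      ring
    obtain ⟨M', hM'⟩ : (3 : ℤ) ∣ M := by
      have h4 : ((3 : ℕ) : Eis) ∣ (M : Eis) := by
        refine ⟨(γ1 * γ2 * γ3) * (l + g * lam) * W (-(k : ZMod 3)), ?_⟩
        have e3 : ((3 : ℕ) : Eis) = 3 := by norm_num
        rw [e3]
        linear_combination (-W (-(k : ZMod 3))) * hk2 - (M : Eis) * W_mul_neg (k : ZMod 3)
      have := cast_dvd.1 h4
      exact_mod_cast this
    have h3ne : (3 : Eis) ≠ 0 := by
      intro h
      have := congrArg Eis.re h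
      rw [← hlc] at h
      exact mul_ne_zero prime_lam.ne_zero (fun h5 => prime_lam.ne_zero (by
        have := congrArg conj h5
        rwa [conj_conj, map_zero] at this)) h
    have hk3 : (γ1 * γ2 * γ3) * (l + g * lam) = M' * W k := by
      refine mul_left_cancel₀ h3ne ?_
      rw [hk2, hM']
      push_cast
      ring
    refine (uniq (q := 3) (M := M') (N := N * l) (u := k) ?_ ?_).symm
    · intro hh
      have hh' : (3 : ℤ) ∣ N * l := by exact_mod_cast hh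
      exact (prime3.dvd_or_dvd hh').elim hN' hl3
    · obtain ⟨g', hg'⟩ := hg3
      obtain ⟨δ, hδ⟩ := hd'
      refine ⟨δ * l + γ1 * γ2 * γ3 * g' * lam, ?_⟩
      have e3 : ((3 : ℕ) : Eis) = 3 := by norm_num
      have hgE' : (g : Eis) = 3 * g' := by rw [hg']; push_cast; ring
      rw [e3, ← hk3, hgE']
      push_cast
      linear_combination (l : Eis) * hδ

end

end GKapAdd

open _root_.Pool.Agent.CubeRank.GKapAdd in
/-- (G5b) the class is additive -/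
theorem kapAddG (h1 : BasicsStmt) (h2 : CollStmt) (h3 : KapExStmtG) : KapAddStmtG := by
  intro m p e H P Q v v' hv hv'
  obtain ⟨v'', hv''⟩ := h3 m p e H (-(P + Q))
  obtain ⟨c, hc⟩ := kap_sum H h1 h2 hv hv' hv'' (by abel)
  have h4 := kap_neg H h1 hv''
  rw [neg_neg] at h4
  have h5 := kap_shift H h4 c
  have e1 : (fun i => - v'' i + c) = v + v' := by
    funext i
    rw [Pi.add_apply, ← hc i]
    ring
  rwa [e1] at h5

end Pool.Agent.CubeRank

end

section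

/-!
# The third point on a chord (module CR_CHORD of MP_8e0b0b_nt)
-/

set_option autoImplicit false

namespace Pool.Agent.CubeRank

open WeierstrassCurve WeierstrassCurve.Affine

/-- the rational algebra behind the chord formula -/
theorem chord_alg (α e1 e2 e3 x1 y1 x2 y2 x3 y3 a1 b1 c1 a2 b2 c2 a3 b3 c3 : ℚ)
    (hα : α ≠ 0) (h3 : e3 ≠ 0)
    (hx : x1 - x2 ≠ 0)
    (E1 : y1 ^ 2 = x1 ^ 3 - 432 * α ^ 2) (E2 : y2 ^ 2 = x2 ^ 3 - 432 * α ^ 2)
    (hx3 : (x1 - x2) ^ 2 * x3 = (y1 - y2) ^ 2 - (x1 + x2) * (x1 - x2) ^ 2)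
    (hy3 : (x1 - x2) * y3 = (y1 - y2) * (x3 - x1) + (x1 - x2) * y1)
    (ha1 : a1 = e1 * (36 * α + y1) / (72 * α)) (hb1 : b1 = e1 * (36 * α - y1) / (72 * α))
    (hc1 : c1 = e1 * x1 / (12 * α))
    (ha2 : a2 = e2 * (36 * α + y2) / (72 * α)) (hb2 : b2 = e2 * (36 * α - y2) / (72 * α))
    (hc2 : c2 = e2 * x2 / (12 * α))
    (ha3 : a3 = e3 * (36 * α + y3) / (72 * α)) (hb3 : b3 = e3 * (36 * α - y3) / (72 * α))
    (hc3 : c3 = e3 * x3 / (12 * α)) :
    (e1 ^ 2 * e2 ^ 2 * (x2 - x1) ^ 3 / (5184 * α ^ 2 * e3)) * a3 =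
        (a1 * a2 ^ 2 + b1 * b2 ^ 2 - α * c1 * c2 ^ 2) * a1 -
        (a1 ^ 2 * a2 + b1 ^ 2 * b2 - α * c1 ^ 2 * c2) * a2 ∧
    (e1 ^ 2 * e2 ^ 2 * (x2 - x1) ^ 3 / (5184 * α ^ 2 * e3)) * b3 =
        (a1 * a2 ^ 2 + b1 * b2 ^ 2 - α * c1 * c2 ^ 2) * b1 -
        (a1 ^ 2 * a2 + b1 ^ 2 * b2 - α * c1 ^ 2 * c2) * b2 ∧
    (e1 ^ 2 * e2 ^ 2 * (x2 - x1) ^ 3 / (5184 * α ^ 2 * e3)) * c3 =
        (a1 * a2 ^ 2 + b1 * b2 ^ 2 - α * c1 * c2 ^ 2) * c1 -
        (a1 ^ 2 * a2 + b1 ^ 2 * b2 - α * c1 ^ 2 * c2) * c2 := by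
  obtain ⟨N12, hN12⟩ : ∃ N, N = x1 ^ 3 - 3 * x1 ^ 2 * x2 + 2 * y1 * y2 + 864 * α ^ 2 := ⟨_, rfl⟩
  obtain ⟨N21, hN21⟩ : ∃ N, N = x2 ^ 3 - 3 * x2 ^ 2 * x1 + 2 * y1 * y2 + 864 * α ^ 2 := ⟨_, rfl⟩
  have hD : N21 - N12 = (x2 - x1) ^ 3 := by rw [hN12, hN21]; ring
  have hX : N21 * x1 - N12 * x2 = (x2 - x1) ^ 3 * x3 := by
    rw [hN12, hN21]
    linear_combination (x1 - x2) * hx3 + (x1 - x2) * E1 + (x1 - x2) * E2
  have hY : N21 * y1 - N12 * y2 = (x2 - x1) ^ 3 * y3 := by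
    apply mul_left_cancel₀ hx
    linear_combination (y1 - y2) * hX - (x2 - x1) ^ 3 * hy3 +
      ((x1 - x2) * y2 - x2 * (y1 - y2)) * hD
  have hL12 : a1 ^ 2 * a2 + b1 ^ 2 * b2 - α * c1 ^ 2 * c2 = e1 ^ 2 * e2 * N12 / (5184 * α ^ 2) := by
    rw [ha1, hb1, hc1, ha2, hb2, hc2, hN12]
    field_simp
    linear_combination (e1 ^ 2 * e2 * α * 644972544) * E1
  have hL21 : a1 * a2 ^ 2 + b1 * b2 ^ 2 - α * c1 * c2 ^ 2 = e1 * e2 ^ 2 * N21 / (5184 * α ^ 2) := by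
    rw [ha1, hb1, hc1, ha2, hb2, hc2, hN21]
    field_simp
    linear_combination (e1 * e2 ^ 2 * α * 644972544) * E2
  rw [hL12, hL21]
  refine ⟨?_, ?_, ?_⟩
  · rw [ha1, ha2, ha3]
    field_simp
    linear_combination (e1 ^ 2 * e2 ^ 2) * ((-36 * α) * hD - hY)
  · rw [hb1, hb2, hb3]
    field_simp
    linear_combination (e1 ^ 2 * e2 ^ 2) * ((-36 * α) * hD + hY)
  · rw [hc1, hc2, hc3]
    field_simp
    linear_combination (e1 ^ 2 * e2 ^ 2) * (- hX)

theorem chord : ChordStmt := by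
  intro A hA _ P Q R a1 b1 c1 a2 b2 c2 a3 b3 c3 hsum hPQ hP hQ hR
  obtain ⟨hc1, hco1, hF1, x1, y1, n1, hP', hx1, hy1⟩ := hP
  obtain ⟨hc2, hco2, hF2, x2, y2, n2, hQ', hx2, hy2⟩ := hQ
  obtain ⟨hc3, hco3, hF3, x3, y3, n3, hR', hx3, hy3⟩ := hR
  have hα : (A : ℚ) ≠ 0 := by exact_mod_cast hA
  have hne : ∀ a b c : ℤ, c ≠ 0 → a ^ 3 + b ^ 3 = A * c ^ 3 → ((a : ℚ) + b) ≠ 0 := by
    intro a b c hc hF h
    have h1 : a + b = 0 := by exact_mod_cast h
    have h2 : A * c ^ 3 = 0 := by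
      rw [← hF]
      linear_combination (a ^ 2 - a * b + b ^ 2) * h1
    rcases mul_eq_zero.mp h2 with h3 | h3
    · exact hA h3
    · exact hc (pow_eq_zero_iff (by norm_num) |>.mp h3)
  have e1 := hne a1 b1 c1 hc1 hF1
  have e2 := hne a2 b2 c2 hc2 hF2
  have e3 := hne a3 b3 c3 hc3 hF3
  have hxne : x1 ≠ x2 := by
    intro h
    have h1 := (Affine.Point.X_eq_iff (h₁ := n1) (h₂ := n2)).mp h
    rw [← hP', ← hQ'] at h1
    rcases h1 with h1 | h1
    · exact hPQ h1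
    · rw [h1, neg_add_cancel, zero_add] at hsum
      rw [hsum] at hR'
      exact Affine.Point.some_ne_zero n3 hR'.symm
  have hadd := Affine.Point.add_of_X_ne' (h₁ := n1) (h₂ := n2) hxne
  rw [← hP', ← hQ'] at hadd
  have hR2 : R = -(P + Q) := by
    rw [eq_neg_iff_add_eq_zero, add_comm]
    exact hsum
  rw [hadd, neg_neg, hR'] at hR2
  have hinj := Affine.Point.some.inj hR2
  have hE1 := (Affine.equation_iff _ _).mp n1.1
  have hE2 := (Affine.equation_iff _ _).mp n2.1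
  simp only [EA, zero_mul, add_zero] at hE1 hE2
  obtain ⟨hX3, hY3⟩ := hinj
  have hd : x1 - x2 ≠ 0 := sub_ne_zero.mpr hxne
  rw [Affine.slope_of_X_ne hxne] at hX3 hY3
  simp only [Affine.addX, Affine.negAddY, EA, zero_mul, add_zero, sub_zero] at hX3 hY3
  have k3 : (x1 - x2) ^ 2 * x3 = (y1 - y2) ^ 2 - (x1 + x2) * (x1 - x2) ^ 2 := by
    rw [hX3]
    field_simp
    ring
  have k4 : (x1 - x2) * y3 = (y1 - y2) * (x3 - x1) + (x1 - x2) * y1 := by
    rw [hY3, hX3]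
    field_simp
  have key := chord_alg A (a1 + b1) (a2 + b2) (a3 + b3) x1 y1 x2 y2 x3 y3 a1 b1 c1 a2 b2 c2
    a3 b3 c3 hα e3 hd (by linarith) (by linarith) k3 k4
    (by field_simp; linarith) (by field_simp; linarith) (by field_simp; linarith)
    (by field_simp; linarith) (by field_simp; linarith) (by field_simp; linarith)
    (by field_simp; linarith) (by field_simp; linarith) (by field_simp; linarith)
  obtain ⟨ka, kb, kc⟩ := key
  set ρ : ℚ := ((a1 : ℚ) + b1) ^ 2 * ((a2 : ℚ) + b2) ^ 2 * (x2 - x1) ^ 3 /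
    (5184 * (A : ℚ) ^ 2 * ((a3 : ℚ) + b3)) with hρ
  have hρ0 : ρ ≠ 0 := by
    have : x2 - x1 ≠ 0 := sub_ne_zero.mpr (Ne.symm hxne)
    rw [hρ]
    positivity
  obtain ⟨u, v, huv⟩ := hco3
  have huv' : (u : ℚ) * a3 + v * b3 = 1 := by exact_mod_cast huv
  refine ⟨u * ((a1 * a2 ^ 2 + b1 * b2 ^ 2 - A * c1 * c2 ^ 2) * a1 -
        (a1 ^ 2 * a2 + b1 ^ 2 * b2 - A * c1 ^ 2 * c2) * a2) +
      v * ((a1 * a2 ^ 2 + b1 * b2 ^ 2 - A * c1 * c2 ^ 2) * b1 -
        (a1 ^ 2 * a2 + b1 ^ 2 * b2 - A * c1 ^ 2 * c2) * b2), ?_, ?_, ?_, ?_⟩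
  all_goals
    have hg : (u : ℚ) * (((a1 : ℚ) * a2 ^ 2 + b1 * b2 ^ 2 - A * c1 * c2 ^ 2) * a1 -
        (a1 ^ 2 * a2 + b1 ^ 2 * b2 - A * c1 ^ 2 * c2) * a2) +
      v * ((a1 * a2 ^ 2 + b1 * b2 ^ 2 - A * c1 * c2 ^ 2) * b1 -
        (a1 ^ 2 * a2 + b1 ^ 2 * b2 - A * c1 ^ 2 * c2) * b2) = ρ := by
      rw [← ka, ← kb]
      linear_combination ρ * huv'
  · intro h
    apply hρ0
    rw [← hg]
    exact_mod_cast h
  · have : ((u : ℚ) * (((a1 : ℚ) * a2 ^ 2 + b1 * b2 ^ 2 - A * c1 * c2 ^ 2) * a1 -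
        (a1 ^ 2 * a2 + b1 ^ 2 * b2 - A * c1 ^ 2 * c2) * a2) +
      v * ((a1 * a2 ^ 2 + b1 * b2 ^ 2 - A * c1 * c2 ^ 2) * b1 -
        (a1 ^ 2 * a2 + b1 ^ 2 * b2 - A * c1 ^ 2 * c2) * b2)) * a3 =
        ((a1 : ℚ) * a2 ^ 2 + b1 * b2 ^ 2 - A * c1 * c2 ^ 2) * a1 -
        (a1 ^ 2 * a2 + b1 ^ 2 * b2 - A * c1 ^ 2 * c2) * a2 := by
      rw [hg, ka]
    exact_mod_cast this
  · have : ((u : ℚ) * (((a1 : ℚ) * a2 ^ 2 + b1 * b2 ^ 2 - A * c1 * c2 ^ 2) * a1 -
        (a1 ^ 2 * a2 + b1 ^ 2 * b2 - A * c1 ^ 2 * c2) * a2) +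
      v * ((a1 * a2 ^ 2 + b1 * b2 ^ 2 - A * c1 * c2 ^ 2) * b1 -
        (a1 ^ 2 * a2 + b1 ^ 2 * b2 - A * c1 ^ 2 * c2) * b2)) * b3 =
        ((a1 : ℚ) * a2 ^ 2 + b1 * b2 ^ 2 - A * c1 * c2 ^ 2) * b1 -
        (a1 ^ 2 * a2 + b1 ^ 2 * b2 - A * c1 ^ 2 * c2) * b2 := by
      rw [hg, kb]
    exact_mod_cast this
  · have : ((u : ℚ) * (((a1 : ℚ) * a2 ^ 2 + b1 * b2 ^ 2 - A * c1 * c2 ^ 2) * a1 -
        (a1 ^ 2 * a2 + b1 ^ 2 * b2 - A * c1 ^ 2 * c2) * a2) +
      v * ((a1 * a2 ^ 2 + b1 * b2 ^ 2 - A * c1 * c2 ^ 2) * b1 -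
        (a1 ^ 2 * a2 + b1 ^ 2 * b2 - A * c1 ^ 2 * c2) * b2)) * c3 =
        ((a1 : ℚ) * a2 ^ 2 + b1 * b2 ^ 2 - A * c1 * c2 ^ 2) * c1 -
        (a1 ^ 2 * a2 + b1 ^ 2 * b2 - A * c1 ^ 2 * c2) * c2 := by
      rw [hg, kc]
    exact_mod_cast this

end Pool.Agent.CubeRank

end
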