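import Mathlib
import Pool.Agent.PTWX.C18
import Pool.Agent.PTWX.C23
import Pool.Agent.PTWX.C24
import Pool.Agent.PTWX.C26

/-! Parts: Lib_helper84.Cub.Info, CubeRank.LawC, CubeRank.GLawB, CubeRank.GLawC, CubeRank.GLawD, CubeRank.GLawE, CubeRank.Law -/

section

/-!
# 3-adic information on points, `A` prime to 3
-/

namespace Pool.Agent.Lib_helper84.Cub

open Pool.Agent.Lib_helper18 Pool.Agent.Lib_helper18.Eis

theorem wq_mul_cube {a x : ℤ} (ha : ¬ (3 : ℤ) ∣ a) (hx : ¬ (3 : ℤ) ∣ x) :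
    wq (a * x ^ 3) = wq a := by
  have hx3 : ¬ (3 : ℤ) ∣ x ^ 3 := fun h => hx (Int.prime_three.dvd_of_dvd_pow h)
  rw [wq_mul ha hx3, wq_cube hx, add_zero]

/-- three units with sum zero modulo 9 -/
theorem units9 {X0 X1 X2 : ℤ} (h0 : ¬ (3 : ℤ) ∣ X0) (h1 : ¬ (3 : ℤ) ∣ X1) (h2 : ¬ (3 : ℤ) ∣ X2)
    (hs : X0 + X1 + X2 = 0) : ((9 : ℤ) ∣ X1 - X2 ∨ (9 : ℤ) ∣ X0 - X2 ∨ (9 : ℤ) ∣ X0 - X1) ∧
      wq X0 + wq X1 + wq X2 = 2 := by
  have h0' : X0 % 9 = 1 ∨ X0 % 9 = 2 ∨ X0 % 9 = 4 ∨ X0 % 9 = 5 ∨ X0 % 9 = 7 ∨ X0 % 9 = 8 := by omega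
  have h1' : X1 % 9 = 1 ∨ X1 % 9 = 2 ∨ X1 % 9 = 4 ∨ X1 % 9 = 5 ∨ X1 % 9 = 7 ∨ X1 % 9 = 8 := by omega
  have e2 : X2 % 9 = (-(X0 % 9) - (X1 % 9)) % 9 := by omega
  constructor
  · rcases h0' with h | h | h | h | h | h <;> rcases h1' with h' | h' | h' | h' | h' | h' <;>
      first
      | (exfalso; omega)
      | (left; omega)
      | (right; left; omega)
      | (right; right; omega)
  unfold wq
  rcases h0' with h | h | h | h | h | h <;> rcases h1' with h' | h' | h' | h' | h' | h' <;>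
    first
    | (exfalso; omega)
    | (rw [e2, h, h']; decide)

theorem dvd_add_of {X Y : ℤ} (hX : ¬ (3 : ℤ) ∣ X) (hY : ¬ (3 : ℤ) ∣ Y) (h : ¬ (3 : ℤ) ∣ X - Y) :
    (3 : ℤ) ∣ X + Y := by
  have h1 : X % 3 = 1 ∨ X % 3 = 2 := by omega
  have h2 : Y % 3 = 1 ∨ Y % 3 = 2 := by omega
  rcases h1 with h1 | h1 <;> rcases h2 with h2 | h2 <;> omega

theorem wq_congr {u v : ℤ} (h : (9 : ℤ) ∣ u - v) : wq u = wq v := by
  have : wq u = wq (-v) := by
    unfold wq
    have h1 : u % 9 = v % 9 := by omega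
    have h2 : (-v) % 9 = (9 - v % 9) % 9 := by omega
    rw [h1, h2]
    have h3 : 0 ≤ v % 9 := by omega
    have h4 : v % 9 < 9 := by omega
    generalize v % 9 = a at *
    interval_cases a <;> simp
  rw [this]
  exact wq_of_add (by simp)

/-- equality outside `o` -/
def OO (f : Fin 3 → ZMod 3) (o : Fin 3) : Prop := ∀ i j, i ≠ o → j ≠ o → f i = f j

instance (f : Fin 3 → ZMod 3) (o : Fin 3) : Decidable (OO f o) := by
  unfold OO; infer_instance

variable {m : ℕ} {p e e' : Fin m → ℕ} {pos pos' : Fin m → Fin 3} {x y : Fin 3 → ℤ} {i0 i1 : Fin m}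

/-- 3-adic information on a point -/
structure PInfo (p e : Fin m → ℕ) (pos : Fin m → Fin 3) (x : Fin 3 → ℤ) (o : Fin 3) : Prop where
  out : OO (fun k => wq (cell p e pos k)) o
  unit : ∀ k, k ≠ o → ¬ (3 : ℤ) ∣ x k
  alt : (3 : ℤ) ∣ x o ∨ (¬ (3 : ℤ) ∣ x o ∧ ∀ i j, i ≠ o → j ≠ o →
    (9 : ℤ) ∣ term p e pos x i - term p e pos x j)
  div : wq (∏ j, (p j : ℤ) ^ e j) = 1 → (3 : ℤ) ∣ x o

theorem OO_iff (f : Fin 3 → ZMod 3) : (OO f 0 ↔ f 1 = f 2) ∧ (OO f 1 ↔ f 0 = f 2) ∧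
    (OO f 2 ↔ f 0 = f 1) := by
  have key : ∀ a b c : ZMod 3, (OO ![a, b, c] 0 ↔ b = c) ∧ (OO ![a, b, c] 1 ↔ a = c) ∧
    (OO ![a, b, c] 2 ↔ a = b) := by decide
  have e : f = ![f 0, f 1, f 2] := by
    ext k; fin_cases k <;> rfl
  have := key (f 0) (f 1) (f 2)
  rw [← e] at this
  exact this

theorem forall3 {P : Fin 3 → Prop} (h0 : P 0) (h1 : P 1) (h2 : P 2) : ∀ k, P k := by
  intro k; fin_cases k
  · exact h0
  · exact h1
  · exact h2

theorem pt_info (h3 : ∀ k, ¬ (3 : ℤ) ∣ cell p e pos k)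
    (hP : IsPt p e pos x) : ∃ o, PInfo p e pos x o := by
  have hprod := cell_prod p e pos
  have hsum := sum3 hP.sum
  have c01 := hP.cop 0 1 (by decide)
  have c02 := hP.cop 0 2 (by decide)
  have c12 := hP.cop 1 2 (by decide)
  have hwA : wq (∏ j, (p j : ℤ) ^ e j) =
      wq (cell p e pos 0) + wq (cell p e pos 1) + wq (cell p e pos 2) := by
    rw [← hprod, wq_mul (ndvd_mul (h3 0) (h3 1)) (h3 2), wq_mul (h3 0) (h3 1)]
  have nd : ∀ {a b c d : ℤ}, IsCoprime (a * b) (c * d) → (3 : ℤ) ∣ b → ¬ (3 : ℤ) ∣ d := by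
    intro a b c d h hb hd
    exact Int.prime_three.not_isUnit (h.isUnit_of_dvd' (Dvd.dvd.mul_left hb _)
      (Dvd.dvd.mul_left hd _))
  have d27 : ∀ k, (3 : ℤ) ∣ x k → (9 : ℤ) ∣ term p e pos x k := by
    rintro k ⟨u, hu⟩
    refine ⟨cell p e pos k * (3 * u ^ 3), ?_⟩
    unfold term
    rw [hu]; ring
  have hsum' : term p e pos x 0 + term p e pos x 1 + term p e pos x 2 = 0 := hsum
  have ht : ∀ k, ¬ (3 : ℤ) ∣ x k → wq (term p e pos x k) = wq (cell p e pos k) :=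
    fun k hk => wq_mul_cube (h3 k) hk
  obtain ⟨O0, O1, O2⟩ := OO_iff (fun k => wq (cell p e pos k))
  by_cases d0 : (3 : ℤ) ∣ x 0
  · have n1 := nd c01 d0
    have n2 := nd c02 d0
    refine ⟨0, O0.mpr ?_, ?_, Or.inl d0, fun _ => d0⟩
    · have h9 := d27 0 d0
      rw [← ht 1 n1, ← ht 2 n2]
      exact wq_of_add (by omega)
    · exact forall3 (fun h => absurd rfl h) (fun _ => n1) (fun _ => n2)
  by_cases d1 : (3 : ℤ) ∣ x 1
  · have n0 := nd c01.symm d1
    have n2 := nd c12 d1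
    refine ⟨1, O1.mpr ?_, ?_, Or.inl d1, fun _ => d1⟩
    · have h9 := d27 1 d1
      rw [← ht 0 n0, ← ht 2 n2]
      exact wq_of_add (by omega)
    · exact forall3 (fun _ => n0) (fun h => absurd rfl h) (fun _ => n2)
  by_cases d2 : (3 : ℤ) ∣ x 2
  · have n0 := nd c02.symm d2
    have n1 := nd c12.symm d2
    refine ⟨2, O2.mpr ?_, ?_, Or.inl d2, fun _ => d2⟩
    · have h9 := d27 2 d2
      rw [← ht 0 n0, ← ht 1 n1]
      exact wq_of_add (by omega)
    · exact forall3 (fun _ => n0) (fun _ => n1) (fun h => absurd rfl h)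
  have hall : ∀ k, ¬ (3 : ℤ) ∣ x k := forall3 d0 d1 d2
  have hX : ∀ k, ¬ (3 : ℤ) ∣ term p e pos x k := fun k =>
    ndvd_mul (h3 k) (fun h => hall k (Int.prime_three.dvd_of_dvd_pow h))
  obtain ⟨h9, hw⟩ := units9 (hX 0) (hX 1) (hX 2) hsum'
  rw [ht 0 d0, ht 1 d1, ht 2 d2, ← hwA] at hw
  have hne : wq (∏ j, (p j : ℤ) ^ e j) ≠ 1 := by rw [hw]; decide
  rcases h9 with h9 | h9 | h9
  · refine ⟨0, O0.mpr ?_, fun k _ => hall k, Or.inr ⟨d0, ?_⟩, fun h => absurd h hne⟩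
    · rw [← ht 1 d1, ← ht 2 d2]; exact wq_congr h9
    · refine forall3 (fun j h => absurd rfl h) (fun j _ => ?_) (fun j _ => ?_) <;>
        revert j <;> refine forall3 (fun h => absurd rfl h) (fun _ => ?_) (fun _ => ?_)
      · simp
      · exact h9
      · rw [← dvd_neg, neg_sub]; exact h9
      · simp
  · refine ⟨1, O1.mpr ?_, fun k _ => hall k, Or.inr ⟨d1, ?_⟩, fun h => absurd h hne⟩
    · rw [← ht 0 d0, ← ht 2 d2]; exact wq_congr h9
    · refine forall3 (fun j _ => ?_) (fun j h => absurd rfl h) (fun j _ => ?_) <;>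
        revert j <;> refine forall3 (fun _ => ?_) (fun h => absurd rfl h) (fun _ => ?_)
      · simp
      · exact h9
      · rw [← dvd_neg, neg_sub]; exact h9
      · simp
  · refine ⟨2, O2.mpr ?_, fun k _ => hall k, Or.inr ⟨d2, ?_⟩, fun h => absurd h hne⟩
    · rw [← ht 0 d0, ← ht 1 d1]; exact wq_congr h9
    · refine forall3 (fun j _ => ?_) (fun j _ => ?_) (fun j h => absurd rfl h) <;>
        revert j <;> refine forall3 (fun _ => ?_) (fun _ => ?_) (fun h => absurd rfl h)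
      · simp
      · exact h9
      · rw [← dvd_neg, neg_sub]; exact h9
      · simp

/-- the class of the main element of case I -/
theorem cls_tI (h3 : ∀ k, ¬ (3 : ℤ) ∣ cell p e pos k) (hP : IsPt p e pos x) {o : Fin 3}
    (hI : PInfo p e pos x o) (hT : (3 : ℤ) ∣ x 0 * x 1 * x 2 ∨ (3 : ℤ) ∣ y 2)
    (hy : ¬ (3 : ℤ) ∣ y 1) : Cls (tI p e i0 i1 pos x y) ((o : ℕ) : ZMod 3) := by
  have hsum : term p e pos x 0 + term p e pos x 1 + term p e pos x 2 = 0 := sum3 hP.sum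
  have h9T : (9 : ℤ) ∣ 3 * (x 0 * x 1 * x 2) * (qS p i0 i1 * y 2) := by
    rcases hT with ⟨u, hu⟩ | ⟨u, hu⟩
    · rw [hu]; exact ⟨u * (qS p i0 i1 * y 2), by ring⟩
    · rw [hu]; exact ⟨x 0 * x 1 * x 2 * (qS p i0 i1 * u), by ring⟩
  have d9 : ∀ k, (3 : ℤ) ∣ x k → (9 : ℤ) ∣ term p e pos x k := by
    rintro k ⟨u, hu⟩
    refine ⟨cell p e pos k * (3 * u ^ 3), ?_⟩
    unfold term
    rw [hu]; ring
  have hX : ∀ k, ¬ (3 : ℤ) ∣ x k → ¬ (3 : ℤ) ∣ term p e pos x k := fun k hk =>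
    ndvd_mul (h3 k) (fun h => hk (Int.prime_three.dvd_of_dvd_pow h))
  have hu := hI.unit
  have ho : o = 0 ∨ o = 1 ∨ o = 2 := by clear * -; revert o; decide
  unfold tI tOne
  rcases hI.alt with h | ⟨-, h⟩
  · apply clsOne_div h9T hy hsum
    rcases ho with rfl | rfl | rfl
    · exact Or.inl ⟨d9 0 h, hX 1 (hu 1 (by decide)), by decide⟩
    · exact Or.inr (Or.inl ⟨d9 1 h, hX 0 (hu 0 (by decide)), by decide⟩)
    · exact Or.inr (Or.inr ⟨d9 2 h, hX 0 (hu 0 (by decide)), by decide⟩)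
  · apply clsOne_non h9T hy hsum
    rcases ho with rfl | rfl | rfl
    · exact Or.inl ⟨h 1 2 (by decide) (by decide), hX 1 (hu 1 (by decide)), by decide⟩
    · exact Or.inr (Or.inl ⟨h 0 2 (by decide) (by decide), hX 0 (hu 0 (by decide)), by decide⟩)
    · exact Or.inr (Or.inr ⟨h 0 1 (by decide) (by decide), hX 0 (hu 0 (by decide)), by decide⟩)

theorem BaseG.rd3 (b : BaseG p e e' i0 i1) (k : Fin 3) : ¬ (3 : ℤ) ∣ rdP p i0 i1 pos k := by
  unfold rdP
  intro h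
  rw [Prime.dvd_finsetProd_iff Int.prime_three] at h
  obtain ⟨j, -, hj⟩ := h
  split_ifs at hj with hc
  · have h1 := b.sp3 hc.1
    rw [pow_one] at hj
    omega
  · omega

theorem cube_congr {X Y : ℤ} (hX : ¬ (3 : ℤ) ∣ X) (h : (27 : ℤ) ∣ X ^ 3 - Y ^ 3) :
    (9 : ℤ) ∣ X - Y := by
  have h3 : (3 : ℤ) ∣ X - Y := by
    have h1 : (3 : ℤ) ∣ X ^ 3 - Y ^ 3 := (by norm_num : (3 : ℤ) ∣ 27).trans h
    have h2 : (3 : ℤ) ∣ (X - Y) ^ 3 := by
      have e : (X - Y) ^ 3 = X ^ 3 - Y ^ 3 + 3 * (X * Y * (Y - X)) := by ring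
      rw [e]; exact dvd_add h1 (dvd_mul_right _ _)
    exact Int.prime_three.dvd_of_dvd_pow h2
  obtain ⟨k, hk⟩ := h3
  obtain ⟨c, hc⟩ := h
  have hY : Y = X - 3 * k := by linarith
  have h9 : (3 : ℤ) ∣ k * X ^ 2 := by
    refine ⟨c + k ^ 2 * X - k ^ 3, ?_⟩
    rw [hY] at hc
    have : (9 : ℤ) * (k * X ^ 2) = 9 * (3 * (c + k ^ 2 * X - k ^ 3)) := by linarith
    linarith
  have hk3 : (3 : ℤ) ∣ k := (Int.prime_three.dvd_or_dvd h9).resolve_right
    (fun h => hX (Int.prime_three.dvd_of_dvd_pow h))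
  obtain ⟨u, hu⟩ := hk3
  exact ⟨u, by rw [hk, hu]; ring⟩

theorem tII_eq (p : Fin m → ℕ) (i0 i1 : Fin m) (pos : Fin m → Fin 3) (x y : Fin 3 → ℤ) :
    tII p i0 i1 pos x y = w * ((rdP p i0 i1 pos 1 * x 1 * y 0 : ℤ) : Eis) +
      (-(rdP p i0 i1 pos 0 * x 0 * y 1) : ℤ) := tTwo_eq _ _ _ _ _ _

theorem cls_tII_zero (b : BaseG p e e' i0 i1) (h : (3 : ℤ) ∣ x 1 ∨ (3 : ℤ) ∣ y 0)
    (h0 : ¬ (3 : ℤ) ∣ x 0) (h1 : ¬ (3 : ℤ) ∣ y 1) : Cls (tII p i0 i1 pos x y) 0 := by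
  rw [tII_eq]
  refine clsTwo_zero ?_ (ndvd_mul (ndvd_mul (b.rd3 0) h0) h1)
  rcases h with h | h
  · exact Dvd.dvd.mul_right (Dvd.dvd.mul_left h _) _
  · exact Dvd.dvd.mul_left h _

theorem cls_tII_one (b : BaseG p e e' i0 i1) (h : (3 : ℤ) ∣ x 0 ∨ (3 : ℤ) ∣ y 1)
    (h0 : ¬ (3 : ℤ) ∣ x 1) (h1 : ¬ (3 : ℤ) ∣ y 0) : Cls (tII p i0 i1 pos x y) 1 := by
  rw [tII_eq]
  refine clsTwo_one ?_ (ndvd_mul (ndvd_mul (b.rd3 1) h0) h1)
  rcases h with h | h
  · exact Dvd.dvd.mul_right (Dvd.dvd.mul_left h _) _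
  · exact Dvd.dvd.mul_left h _

theorem cls_tII_two (b : BaseG p e e' i0 i1) (hpos : Exch i0 i1 pos pos')
    (hP : IsPt p e pos x) (hP' : IsPt p e' pos' y)
    (n0 : ¬ (3 : ℤ) ∣ cell p e' pos' 0) (n1 : ¬ (3 : ℤ) ∣ cell p e pos 1)
    (n2 : ¬ (3 : ℤ) ∣ cell p e pos 2)
    (hx0 : ¬ (3 : ℤ) ∣ x 0) (hx1 : ¬ (3 : ℤ) ∣ x 1) (hy0 : ¬ (3 : ℤ) ∣ y 0)
    (hy1 : ¬ (3 : ℤ) ∣ y 1) (hy2 : (3 : ℤ) ∣ y 2) : Cls (tII p i0 i1 pos x y) 2 := by
  have hx := sum3 hP.sum
  have hy := sum3 hP'.sum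
  have h1 := exch_h1 b hpos
  set X := rdP p i0 i1 pos 1 * x 1 * y 0 with hX
  set Y := rdP p i0 i1 pos 0 * x 0 * y 1 with hY
  have hXn : ¬ (3 : ℤ) ∣ X := ndvd_mul (ndvd_mul (b.rd3 1) hx1) hy0
  have hYn : ¬ (3 : ℤ) ∣ Y := ndvd_mul (ndvd_mul (b.rd3 0) hx0) hy1
  have hid : cell p e' pos' 0 * cell p e pos 1 * (X ^ 3 - Y ^ 3) =
      rdP p i0 i1 pos 1 ^ 3 * (cell p e pos 0 * cell p e' pos' 2 * (x 0 * y 2) ^ 3 -
        cell p e' pos' 0 * cell p e pos 2 * (x 2 * y 0) ^ 3) := by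
    rw [hX, hY]
    linear_combination (x 0 * y 1) ^ 3 * h1 +
      rdP p i0 i1 pos 1 ^ 3 * cell p e' pos' 0 * y 0 ^ 3 * hx -
      rdP p i0 i1 pos 1 ^ 3 * cell p e pos 0 * x 0 ^ 3 * hy
  obtain ⟨u, hu⟩ := hy2
  rw [tII_eq]
  by_cases hx2 : (3 : ℤ) ∣ x 2
  · refine clsTwo_two' hXn ?_
    apply cube_congr hXn
    obtain ⟨v, hv⟩ := hx2
    have h27 : (3 : ℤ) ^ 3 ∣ (cell p e' pos' 0 * cell p e pos 1) * (X ^ 3 - Y ^ 3) := by
      rw [hid, hu, hv]
      exact ⟨rdP p i0 i1 pos 1 ^ 3 * (cell p e pos 0 * cell p e' pos' 2 * (x 0 * u) ^ 3 -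
        cell p e' pos' 0 * cell p e pos 2 * (v * y 0) ^ 3), by ring⟩
    have := Int.prime_three.pow_dvd_of_dvd_mul_left 3 (ndvd_mul n0 n1) h27
    norm_num at this
    exact this
  · refine clsTwo_two hXn ?_
    have hne : ¬ (3 : ℤ) ∣ X - Y := by
      intro h
      have h4 : (3 : ℤ) ∣ cell p e' pos' 0 * cell p e pos 1 * (X ^ 3 - Y ^ 3) := by
        apply Dvd.dvd.mul_left
        exact h.trans (sub_dvd_pow_sub_pow X Y 3)
      rw [hid] at h4
      rcases Int.prime_three.dvd_or_dvd h4 with h5 | h5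
      · exact b.rd3 1 (Int.prime_three.dvd_of_dvd_pow h5)
      · have h6 : (3 : ℤ) ∣ cell p e pos 0 * cell p e' pos' 2 * (x 0 * y 2) ^ 3 := by
          rw [hu]; exact ⟨cell p e pos 0 * cell p e' pos' 2 * (x 0 * u) ^ 3 * 9, by ring⟩
        have h7 := dvd_sub h6 h5
        rw [sub_sub_cancel] at h7
        exact ndvd_mul (ndvd_mul n0 n2) (fun h => ndvd_mul hx2 hy0
          (Int.prime_three.dvd_of_dvd_pow h)) h7
    exact dvd_add_of hXn hYn hne

end Pool.Agent.Lib_helper84.Cub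

end

section

/-!
# Classes at the prime above 3, a set `S` of exchanged primes
-/

set_option autoImplicit false

namespace Pool.Agent.CubeRank

open Pool.Agent.Lib_helper18 Pool.Agent.Lib_helper18.Eis Pool.Agent.Lib_helper84.Cub

variable {m : ℕ} {p e e' : Fin m → ℕ} {pos pos' : Fin m → Fin 3} {x y : Fin 3 → ℤ}
  {S : Finset (Fin m)}

/-- the class of the main element of case I -/
theorem cls_tIS (h3 : ∀ k, ¬ (3 : ℤ) ∣ cell p e pos k) (hP : IsPt p e pos x) {o : Fin 3}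
    (hI : PInfo p e pos x o) (hT : (3 : ℤ) ∣ x 0 * x 1 * x 2 ∨ (3 : ℤ) ∣ y 2)
    (hy : ¬ (3 : ℤ) ∣ y 1) : Cls (tI p e S pos x y) ((o : ℕ) : ZMod 3) := by
  have hsum : term p e pos x 0 + term p e pos x 1 + term p e pos x 2 = 0 := sum3 hP.sum
  have h9T : (9 : ℤ) ∣ 3 * (x 0 * x 1 * x 2) * (qS p S * y 2) := by
    rcases hT with ⟨u, hu⟩ | ⟨u, hu⟩
    · rw [hu]; exact ⟨u * (qS p S * y 2), by ring⟩
    · rw [hu]; exact ⟨x 0 * x 1 * x 2 * (qS p S * u), by ring⟩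
  have d9 : ∀ k, (3 : ℤ) ∣ x k → (9 : ℤ) ∣ term p e pos x k := by
    rintro k ⟨u, hu⟩
    refine ⟨cell p e pos k * (3 * u ^ 3), ?_⟩
    unfold term
    rw [hu]; ring
  have hX : ∀ k, ¬ (3 : ℤ) ∣ x k → ¬ (3 : ℤ) ∣ term p e pos x k := fun k hk =>
    ndvd_mul (h3 k) (fun h => hk (Int.prime_three.dvd_of_dvd_pow h))
  have hu := hI.unit
  have ho : o = 0 ∨ o = 1 ∨ o = 2 := by clear * -; revert o; decide
  unfold tI tOne
  rcases hI.alt with h | ⟨-, h⟩
  · apply clsOne_div h9T hy hsum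
    rcases ho with rfl | rfl | rfl
    · exact Or.inl ⟨d9 0 h, hX 1 (hu 1 (by decide)), by decide⟩
    · exact Or.inr (Or.inl ⟨d9 1 h, hX 0 (hu 0 (by decide)), by decide⟩)
    · exact Or.inr (Or.inr ⟨d9 2 h, hX 0 (hu 0 (by decide)), by decide⟩)
  · apply clsOne_non h9T hy hsum
    rcases ho with rfl | rfl | rfl
    · exact Or.inl ⟨h 1 2 (by decide) (by decide), hX 1 (hu 1 (by decide)), by decide⟩
    · exact Or.inr (Or.inl ⟨h 0 2 (by decide) (by decide), hX 0 (hu 0 (by decide)), by decide⟩)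
    · exact Or.inr (Or.inr ⟨h 0 1 (by decide) (by decide), hX 0 (hu 0 (by decide)), by decide⟩)

theorem BaseS.rd3 (b : BaseS p e e' S) (pos : Fin m → Fin 3) (k : Fin 3) :
    ¬ (3 : ℤ) ∣ rdP p S pos k := by
  unfold rdP
  intro h
  rw [Prime.dvd_finsetProd_iff Int.prime_three] at h
  obtain ⟨j, -, hj⟩ := h
  split_ifs at hj with hc
  · have h1 := b.h3 j
    rw [pow_one] at hj
    omega
  · omega

theorem tII_eqS (p : Fin m → ℕ) (S : Finset (Fin m)) (pos : Fin m → Fin 3) (x y : Fin 3 → ℤ) :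
    tII p S pos x y = w * ((rdP p S pos 1 * x 1 * y 0 : ℤ) : Eis) +
      (-(rdP p S pos 0 * x 0 * y 1) : ℤ) := tTwo_eq _ _ _ _ _ _

theorem cls_tII_zeroS (b : BaseS p e e' S) (h : (3 : ℤ) ∣ x 1 ∨ (3 : ℤ) ∣ y 0)
    (h0 : ¬ (3 : ℤ) ∣ x 0) (h1 : ¬ (3 : ℤ) ∣ y 1) : Cls (tII p S pos x y) 0 := by
  rw [tII_eqS]
  refine clsTwo_zero ?_ (ndvd_mul (ndvd_mul (b.rd3 pos 0) h0) h1)
  rcases h with h | h
  · exact Dvd.dvd.mul_right (Dvd.dvd.mul_left h _) _
  · exact Dvd.dvd.mul_left h _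

theorem cls_tII_oneS (b : BaseS p e e' S) (h : (3 : ℤ) ∣ x 0 ∨ (3 : ℤ) ∣ y 1)
    (h0 : ¬ (3 : ℤ) ∣ x 1) (h1 : ¬ (3 : ℤ) ∣ y 0) : Cls (tII p S pos x y) 1 := by
  rw [tII_eqS]
  refine clsTwo_one ?_ (ndvd_mul (ndvd_mul (b.rd3 pos 1) h0) h1)
  rcases h with h | h
  · exact Dvd.dvd.mul_right (Dvd.dvd.mul_left h _) _
  · exact Dvd.dvd.mul_left h _

theorem cls_tII_twoS (b : BaseS p e e' S) (hpos : Exch S pos pos')
    (hP : IsPt p e pos x) (hP' : IsPt p e' pos' y)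
    (h3 : ∀ k, ¬ (3 : ℤ) ∣ cell p e pos k) (h3' : ∀ k, ¬ (3 : ℤ) ∣ cell p e' pos' k)
    (hx0 : ¬ (3 : ℤ) ∣ x 0) (hx1 : ¬ (3 : ℤ) ∣ x 1) (hy0 : ¬ (3 : ℤ) ∣ y 0)
    (hy1 : ¬ (3 : ℤ) ∣ y 1) (hxy : (3 : ℤ) ∣ x 2 ∨ (3 : ℤ) ∣ y 2) :
    Cls (tII p S pos x y) 2 := by
  have hx := sum3 hP.sum
  have hy := sum3 hP'.sum
  have h1 := exch_h1 b hpos
  set X := rdP p S pos 1 * x 1 * y 0 with hX
  set Y := rdP p S pos 0 * x 0 * y 1 with hY
  have hXn : ¬ (3 : ℤ) ∣ X := ndvd_mul (ndvd_mul (b.rd3 pos 1) hx1) hy0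
  have hYn : ¬ (3 : ℤ) ∣ Y := ndvd_mul (ndvd_mul (b.rd3 pos 0) hx0) hy1
  have hid : cell p e' pos' 0 * cell p e pos 1 * (X ^ 3 - Y ^ 3) =
      rdP p S pos 1 ^ 3 * (cell p e pos 0 * cell p e' pos' 2 * (x 0 * y 2) ^ 3 -
        cell p e' pos' 0 * cell p e pos 2 * (x 2 * y 0) ^ 3) := by
    rw [hX, hY]
    linear_combination (x 0 * y 1) ^ 3 * h1 +
      rdP p S pos 1 ^ 3 * cell p e' pos' 0 * y 0 ^ 3 * hx -
      rdP p S pos 1 ^ 3 * cell p e pos 0 * x 0 ^ 3 * hy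
  have c3 : ∀ {z : ℤ}, ¬ (3 : ℤ) ∣ z → ¬ (3 : ℤ) ∣ z ^ 3 := fun hz h =>
    hz (Int.prime_three.dvd_of_dvd_pow h)
  -- if `X = Y` modulo 3 then both parts are divisible by 3
  have key : (3 : ℤ) ∣ X - Y → (3 : ℤ) ∣ x 2 ∧ (3 : ℤ) ∣ y 2 := by
    intro h
    have h4 : (3 : ℤ) ∣ cell p e' pos' 0 * cell p e pos 1 * (X ^ 3 - Y ^ 3) := by
      apply Dvd.dvd.mul_left
      exact h.trans (sub_dvd_pow_sub_pow X Y 3)
    rw [hid] at h4
    have h5 := (Int.prime_three.dvd_or_dvd h4).resolve_left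
      (fun h => b.rd3 pos 1 (Int.prime_three.dvd_of_dvd_pow h))
    rcases hxy with hd | hd
    · refine ⟨hd, ?_⟩
      by_contra hy2
      have h6 : (3 : ℤ) ∣ cell p e' pos' 0 * cell p e pos 2 * (x 2 * y 0) ^ 3 :=
        Dvd.dvd.mul_left (Dvd.dvd.pow (Dvd.dvd.mul_right hd _) (by norm_num)) _
      have h7 := dvd_add h5 h6
      rw [sub_add_cancel] at h7
      exact ndvd_mul (ndvd_mul (h3 0) (h3' 2)) (c3 (ndvd_mul hx0 hy2)) h7
    · refine ⟨?_, hd⟩
      by_contra hx2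
      have h6 : (3 : ℤ) ∣ cell p e pos 0 * cell p e' pos' 2 * (x 0 * y 2) ^ 3 :=
        Dvd.dvd.mul_left (Dvd.dvd.pow (Dvd.dvd.mul_left hd _) (by norm_num)) _
      have h7 := dvd_sub h6 h5
      rw [sub_sub_cancel] at h7
      exact ndvd_mul (ndvd_mul (h3' 0) (h3 2)) (c3 (ndvd_mul hx2 hy0)) h7
  rw [tII_eqS]
  by_cases hXY : (3 : ℤ) ∣ X - Y
  · obtain ⟨⟨v, hv⟩, ⟨u, hu⟩⟩ := key hXY
    refine clsTwo_two' hXn ?_
    apply cube_congr hXn
    have h27 : (3 : ℤ) ^ 3 ∣ (cell p e' pos' 0 * cell p e pos 1) * (X ^ 3 - Y ^ 3) := by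
      rw [hid, hu, hv]
      exact ⟨rdP p S pos 1 ^ 3 * (cell p e pos 0 * cell p e' pos' 2 * (x 0 * u) ^ 3 -
        cell p e' pos' 0 * cell p e pos 2 * (v * y 0) ^ 3), by ring⟩
    have := Int.prime_three.pow_dvd_of_dvd_mul_left 3 (ndvd_mul (h3' 0) (h3 1)) h27
    norm_num at this
    exact this
  · exact clsTwo_two hXn (dvd_add_of hXn hYn hXY)

/-! ### weights -/

theorem exc_aux : ∀ a b c : ZMod 3, ∀ o : Fin 3, OO ![a, b, c] o →
    b + 2 * c = ((o : ℕ) : ZMod 3) * (a + b + c) := by decide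

theorem sum_cells (f : Fin m → ZMod 3) (pos : Fin m → Fin 3) :
    ∑ i, f i * ((pos i : ℕ) : ZMod 3) =
      (∑ i, if pos i = 1 then f i else 0) + 2 * ∑ i, if pos i = 2 then f i else 0 := by
  rw [Finset.mul_sum, ← Finset.sum_add_distrib]
  refine Finset.sum_congr rfl (fun i _ => ?_)
  have h3 : pos i = 0 ∨ pos i = 1 ∨ pos i = 2 := by
    generalize pos i = k; revert k; decide
  rcases h3 with h | h | h <;> simp [h]
  ring

theorem sum_cells' (f : Fin m → ZMod 3) (pos : Fin m → Fin 3) :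
    ∑ i, f i = (∑ i, if pos i = 0 then f i else 0) + (∑ i, if pos i = 1 then f i else 0) +
      ∑ i, if pos i = 2 then f i else 0 := by
  rw [← Finset.sum_add_distrib, ← Finset.sum_add_distrib]
  refine Finset.sum_congr rfl (fun i _ => ?_)
  have h3 : pos i = 0 ∨ pos i = 1 ∨ pos i = 2 := by
    generalize pos i = k; revert k; decide
  rcases h3 with h | h | h <;> simp [h]

/-- the exceptional cell is given by a linear form -/
theorem exc_eq (h9 : ∀ i, p i % 9 = 2 ∨ p i % 9 = 5) {o : Fin 3}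
    (h : OO (fun k => wq (cell p e pos k)) o) :
    ∑ i, sw p e i * ((pos i : ℕ) : ZMod 3) = ((o : ℕ) : ZMod 3) * tw p e := by
  have e1 : (fun k => wq (cell p e pos k)) =
      ![∑ i, (if pos i = 0 then sw p e i else 0), ∑ i, (if pos i = 1 then sw p e i else 0),
        ∑ i, (if pos i = 2 then sw p e i else 0)] := by
    ext k
    fin_cases k <;> exact wq_cell h9 pos _
  rw [e1] at h
  rw [sum_cells, tw, sum_cells' (sw p e) pos]
  exact exc_aux _ _ _ _ h

theorem cell_three' (h9 : ∀ i, p i % 9 = 2 ∨ p i % 9 = 5) (pos : Fin m → Fin 3) (k : Fin 3) :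
    ¬ (3 : ℤ) ∣ cell p e pos k := by
  intro h
  rw [cell, Prime.dvd_finsetProd_iff Int.prime_three] at h
  obtain ⟨j, -, hj⟩ := h
  split_ifs at hj
  · exact not_three_dvd (h9 j) (Int.prime_three.dvd_of_dvd_pow hj)
  · omega

/-- 3-adic information in terms of the total weight -/
theorem info (h9 : ∀ i, p i % 9 = 2 ∨ p i % 9 = 5) (hP : IsPt p e pos x) :
    ∃ o, PInfo p e pos x o ∧
      ∑ i, sw p e i * ((pos i : ℕ) : ZMod 3) = ((o : ℕ) : ZMod 3) * tw p e ∧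
      (tw p e = 1 → (3 : ℤ) ∣ x o) := by
  obtain ⟨o, ho⟩ := pt_info (cell_three' h9 pos) hP
  refine ⟨o, ho, exc_eq h9 ho.out, fun h => ho.div ?_⟩
  rw [wq_all h9]; exact h

end Pool.Agent.CubeRank

end

section

/-!
# The three cases in terms of cells, a set `S` of exchanged primes
-/

set_option autoImplicit false

namespace Pool.Agent.CubeRank

open Pool.Agent.Lib_helper18 Pool.Agent.Lib_helper18.Eis Pool.Agent.Lib_helper84.Cub

variable {m : ℕ} {p e e' : Fin m → ℕ} {pos pos' : Fin m → Fin 3} {x y : Fin 3 → ℤ}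
  {S : Finset (Fin m)}

/-- data used in all cases -/
structure BaseT (p e e' : Fin m → ℕ) (S : Finset (Fin m)) : Prop where
  hp : ∀ i, (p i).Prime
  h3 : ∀ i, p i % 3 = 2 ∨ p i = 3
  inj : Function.Injective p
  he : ∀ i, e i = 1 ∨ e i = 2
  he' : ∀ i, e' i = 1 ∨ e' i = 2
  nS : ∀ i ∈ S, p i ≠ 3
  rel : ∀ j, if j ∈ S then e j + e' j = 3 else e j = e' j

theorem BaseT.sp3 (b : BaseT p e e' S) {i : Fin m} (hi : i ∈ S) : p i % 3 = 2 :=
  (b.h3 i).resolve_right (b.nS i hi)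

theorem BaseT.bb (b : BaseT p e e' S) : bS p e S * bS p e' S = qS p S ^ 3 := by
  unfold bS qS
  rw [← Finset.prod_mul_distrib, ← Finset.prod_pow]
  refine Finset.prod_congr rfl (fun j _ => ?_)
  have hr := b.rel j
  split_ifs at hr ⊢ with hS
  · rw [← pow_add, hr]; ring
  · ring

/-- nonresidues -/
theorem BaseT.nonCube (_b : BaseT p e e' S) {l : Eis} (hl : Prime l) (hl3 : ¬ l ∣ 3)
    (hno : ∀ j, ¬ l ∣ (p j : Eis))
    (h : ∑ i ∈ S, (e i : ZMod 3) * sym l (p i : Eis) ≠ 0) : NonCube l (bS p e S) := by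
  have e1 : ((bS p e S : ℤ) : Eis) = ∏ j ∈ S, (p j : Eis) ^ e j := by
    unfold bS
    push_cast
    rw [← Finset.prod_filter]
    simp
  obtain ⟨h1, h2⟩ := sym_prod hl hl3 e S hno
  apply nonCube_of_sym hl hl3
  · rw [e1]; exact h1
  · rw [e1, h2]; exact h

/-- primes dividing some `p j` are harmless -/
theorem BaseT.good (b : BaseT p e e' S) {l : Eis} (hl : Prime l) (hl3 : ¬ l ∣ 3)
    {j : Fin m} (hj : l ∣ (p j : Eis)) {i : Fin m} (hi : ¬ l ∣ (p i : Eis)) :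
    sym l (p i : Eis) = 0 := by
  rcases b.h3 j with h | h
  · have hass := hl.associated_of_dvd (prime_inert (b.hp j) h) hj
    have h1 : ¬ p j ∣ p i := fun h => hi (hass.dvd.trans (Nat.cast_dvd_cast h))
    rw [sym_associated hass, sym_nat (b.hp j) h h1]
  · rw [h] at hj
    exact absurd (by exact_mod_cast hj) hl3

/-- the product formula for the exchanged primes -/
theorem BaseT.sum_of (b : BaseT p e e' S) {t : Eis} {f : Fin m → ZMod 3} {c : ZMod 3}
    (ht : t ≠ 0)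
    (h0 : ∀ i ∈ S, ¬ (p i : Eis) ∣ t ∧ sym (p i : Eis) t = f i * sym (p i : Eis) w)
    (hc : Cls t c)
    (hloc : ∀ l : Eis, Prime l → ¬ l ∣ 3 → (∀ j, ¬ l ∣ (p j : Eis)) → NonCube l (bS p e S) →
      3 ∣ V l t) :
    ∑ i ∈ S, (e i : ZMod 3) * (f i * sym (p i : Eis) w) =
      c * ∑ i ∈ S, (e i : ZMod 3) * sym (p i : Eis) w := by
  have h1 := lemmaSG S (fun i _ => b.hp i) (fun i hi => b.sp3 hi) (fun i => (e i : ZMod 3)) ht
    (fun i hi => (h0 i hi).1) hc (by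
    intro l hl hl3 hlt
    have hlq : ∀ i ∈ S, ¬ l ∣ (p i : Eis) := fun i hi h => (h0 i hi).1
      ((hl.associated_of_dvd (prime_inert (b.hp i) (b.sp3 hi)) h).symm.dvd.trans hlt)
    by_cases hno : ∃ j, l ∣ (p j : Eis)
    · left
      obtain ⟨j, hj⟩ := hno
      refine Finset.sum_eq_zero (fun i hi => ?_)
      rw [b.good hl hl3 hj (hlq i hi), mul_zero]
    push Not at hno
    by_cases hgood : ∑ i ∈ S, (e i : ZMod 3) * sym l (p i : Eis) = 0
    · exact Or.inl hgood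
    · exact Or.inr (hloc l hl hl3 hno (b.nonCube hl hl3 hno hgood)))
  rw [← h1]
  exact Finset.sum_congr rfl (fun i hi => by rw [(h0 i hi).2])

/-! ### case II -/

theorem exch_h1G (b : BaseT p e e' S) (hpos : Exch S pos pos') :
    cell p e pos 0 * cell p e' pos' 1 * rdP p S pos 1 ^ 3 =
      cell p e' pos' 0 * cell p e pos 1 * rdP p S pos 0 ^ 3 := by
  unfold rdP
  simp only [cell, ← Finset.prod_mul_distrib, ← Finset.prod_pow]
  refine Finset.prod_congr rfl (fun j _ => ?_)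
  have hj := hpos j
  have hr := b.rel j
  have hej := b.he j
  have h3 : pos j = 0 ∨ pos j = 1 ∨ pos j = 2 := by
    generalize pos j = k; revert k; decide
  split_ifs at hj hr with hS
  · have hee : (e j = 1 ∧ e' j = 2) ∨ (e j = 2 ∧ e' j = 1) := by omega
    rcases h3 with h3 | h3 | h3 <;> rcases hee with ⟨he, h9⟩ | ⟨he, h9⟩ <;> rw [h3] at hj <;>
      simp [hj, h3, hS, he, h9, tau] <;> ring
  · rcases h3 with h3 | h3 | h3 <;> rw [h3] at hj <;> simp [hj, h3, hS, hr]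

theorem tII_atG (b : BaseT p e e' S) (hP : IsPt p e pos x) (hP' : IsPt p e' pos' y)
    (hpos : Exch S pos pos') {i : Fin m} (hi : i ∈ S) :
    ¬ (p i : Eis) ∣ tII p S pos x y ∧
      sym (p i : Eis) (tII p S pos x y) = fpos (pos i) * sym (p i : Eis) w := by
  have he0 : e i ≠ 0 := by have := b.he i; omega
  have he0' : e' i ≠ 0 := by have := b.he' i; omega
  have hp' := hpos i
  rw [if_pos hi] at hp'
  have hx := sum3 hP.sum
  have hy := sum3 hP'.sum
  have key : ((p i : ℤ) ∣ cell p e pos 2 ∧ (p i : ℤ) ∣ cell p e' pos' 2 ∧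
        ¬ (p i : ℤ) ∣ rdP p S pos 1 ∧ fpos (pos i) = 2 ∨
      (p i : ℤ) ∣ cell p e pos 0 ∧ (p i : ℤ) ∣ cell p e' pos' 1 ∧
        (p i : ℤ) ∣ rdP p S pos 0 ∧ ¬ (p i : ℤ) ∣ rdP p S pos 1 ∧ fpos (pos i) = 1 ∨
      (p i : ℤ) ∣ cell p e pos 1 ∧ (p i : ℤ) ∣ cell p e' pos' 0 ∧
        (p i : ℤ) ∣ rdP p S pos 1 ∧ ¬ (p i : ℤ) ∣ rdP p S pos 0 ∧
        fpos (pos i) = 0) := by
    have h3 : pos i = 0 ∨ pos i = 1 ∨ pos i = 2 := by
      generalize pos i = k; revert k; decide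
    rcases h3 with h3 | h3 | h3
    · right; left
      rw [h3] at hp' ⊢
      exact ⟨dvd_prod_if (fun j => pos j = 0) h3 he0,
        dvd_prod_if (fun j => pos' j = 1) hp' he0',
        dvd_prod_if (fun j => j ∈ S ∧ pos j = 0) ⟨hi, h3⟩ one_ne_zero,
        not_dvd_prod_if b.hp b.inj (fun j => j ∈ S ∧ pos j = 1)
          (fun h => by have := h.2; rw [h3] at this; exact absurd this (by decide)), rfl⟩
    · right; right
      rw [h3] at hp' ⊢
      exact ⟨dvd_prod_if (fun j => pos j = 1) h3 he0,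
        dvd_prod_if (fun j => pos' j = 0) hp' he0',
        dvd_prod_if (fun j => j ∈ S ∧ pos j = 1) ⟨hi, h3⟩ one_ne_zero,
        not_dvd_prod_if b.hp b.inj (fun j => j ∈ S ∧ pos j = 0)
          (fun h => by have := h.2; rw [h3] at this; exact absurd this (by decide)), rfl⟩
    · left
      rw [h3] at hp' ⊢
      exact ⟨dvd_prod_if (fun j => pos j = 2) h3 he0,
        dvd_prod_if (fun j => pos' j = 2) hp' he0',
        not_dvd_prod_if b.hp b.inj (fun j => j ∈ S ∧ pos j = 1)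
          (fun h => by have := h.2; rw [h3] at this; exact absurd this (by decide)), rfl⟩
  exact caseII_one (b.hp i) (b.sp3 hi) hx (hP.cop 0 1 (by decide)) (hP.cop 1 2 (by decide)) hy
    (hP'.cop 0 1 (by decide)) (hP'.cop 0 2 (by decide)) (exch_h1G b hpos) key

theorem tII_locG (b : BaseT p e e' S) (hP : IsPt p e pos x) (hP' : IsPt p e' pos' y)
    (hpos : Exch S pos pos') {l : Eis} (hl : Prime l) (hl3 : ¬ l ∣ 3)
    (hno : ∀ j, ¬ l ∣ (p j : Eis)) (hbad : NonCube l (bS p e S)) :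
    3 ∣ V l (tII p S pos x y) := by
  have hx := sum3 hP.sum
  have hy := sum3 hP'.sum
  refine caseII_loc hl hl3
    (k := ∏ j, if j ∈ S ∧ (pos j = 1 ∨ pos j = 2 ∧ e j = 2) then (p j : ℤ) ^ 1 else 1)
    (m := ∏ j, if j ∈ S ∧ (pos j = 0 ∨ pos j = 2 ∧ e j = 2) then (p j : ℤ) ^ 1 else 1)
    hbad hx (hP.cop 0 1 (by decide)) hy (hP'.cop 0 1 (by decide))
    (hP'.cop 0 2 (by decide)) (hP'.cop 1 2 (by decide)) (exch_h1G b hpos) ?_ ?_ ?_
    ⟨hP.ne 0, hP'.ne 2⟩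
  · -- h2
    unfold bS
    simp only [cell, ← Finset.prod_mul_distrib, ← Finset.prod_pow]
    refine Finset.prod_congr rfl (fun j _ => ?_)
    have hj := hpos j
    have hr := b.rel j
    have hej := b.he j
    have h3 : pos j = 0 ∨ pos j = 1 ∨ pos j = 2 := by
      generalize pos j = k; revert k; decide
    split_ifs at hj hr with hS
    · have hee : (e j = 1 ∧ e' j = 2) ∨ (e j = 2 ∧ e' j = 1) := by omega
      rcases h3 with h3 | h3 | h3 <;> rcases hee with ⟨he, h9⟩ | ⟨he, h9⟩ <;> rw [h3] at hj <;>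
        simp [hj, h3, hS, he, h9, tau] <;> ring
    · rcases h3 with h3 | h3 | h3 <;> rw [h3] at hj <;> simp [hj, h3, hS, hr]
  · -- h3
    unfold bS
    simp only [cell, ← Finset.prod_mul_distrib, ← Finset.prod_pow]
    refine Finset.prod_congr rfl (fun j _ => ?_)
    have hj := hpos j
    have hr := b.rel j
    have hej := b.he j
    have h3 : pos j = 0 ∨ pos j = 1 ∨ pos j = 2 := by
      generalize pos j = k; revert k; decide
    split_ifs at hj hr with hS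
    · have hee : (e j = 1 ∧ e' j = 2) ∨ (e j = 2 ∧ e' j = 1) := by omega
      rcases h3 with h3 | h3 | h3 <;> rcases hee with ⟨he, h9⟩ | ⟨he, h9⟩ <;> rw [h3] at hj <;>
        simp [hj, h3, hS, he, h9, tau] <;> ring
    · rcases h3 with h3 | h3 | h3 <;> rw [h3] at hj <;> simp [hj, h3, hS, hr]
  · -- units
    intro hdvd
    have hS : SPr p (cell p e' pos' 0 * cell p e' pos' 1 * cell p e pos 1 * cell p e pos 2 *
      rdP p S pos 1 * rdP p S pos 0 *
      (∏ j, if j ∈ S ∧ (pos j = 1 ∨ pos j = 2 ∧ e j = 2) then (p j : ℤ) ^ 1 else 1) *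
      (∏ j, if j ∈ S ∧ (pos j = 0 ∨ pos j = 2 ∧ e j = 2) then (p j : ℤ) ^ 1 else 1)) := by
      refine SPr.mul (SPr.mul (SPr.mul (SPr.mul (SPr.mul (SPr.mul (SPr.mul ?_ ?_) ?_) ?_)
        ?_) ?_) ?_) ?_
      · exact SPr.prod p (fun j => pos' j = 0) e'
      · exact SPr.prod p (fun j => pos' j = 1) e'
      · exact SPr.prod p (fun j => pos j = 1) e
      · exact SPr.prod p (fun j => pos j = 2) e
      · exact SPr.prod p (fun j => j ∈ S ∧ pos j = 1) (fun _ => 1)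
      · exact SPr.prod p (fun j => j ∈ S ∧ pos j = 0) (fun _ => 1)
      · exact SPr.prod p (fun j => j ∈ S ∧ (pos j = 1 ∨ pos j = 2 ∧ e j = 2)) (fun _ => 1)
      · exact SPr.prod p (fun j => j ∈ S ∧ (pos j = 0 ∨ pos j = 2 ∧ e j = 2)) (fun _ => 1)
    obtain ⟨j, hj⟩ := hS l hl hdvd
    exact hno j hj

/-- case II -/
theorem caseII_G (b : BaseT p e e' S) (hS : S.Nonempty)
    (hP : IsPt p e pos x) (hP' : IsPt p e' pos' y) (hpos : Exch S pos pos') :
    tII p S pos x y ≠ 0 ∧ ∀ c : ZMod 3, Cls (tII p S pos x y) c →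
      ∑ i ∈ S, (e i : ZMod 3) * (fpos (pos i) * sym (p i : Eis) w) =
        c * ∑ i ∈ S, (e i : ZMod 3) * sym (p i : Eis) w := by
  have ht : tII p S pos x y ≠ 0 := by
    obtain ⟨i, hi⟩ := hS
    intro h
    have := (tII_atG b hP hP' hpos hi).1
    rw [h] at this
    exact this (dvd_zero _)
  refine ⟨ht, fun c hc => ?_⟩
  exact b.sum_of (f := fun i => fpos (pos i)) ht (fun i hi => tII_atG b hP hP' hpos hi) hc
    (fun _ hl hl3 hno hbad => tII_locG b hP hP' hpos hl hl3 hno hbad)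

/-! ### case I -/

theorem cellS1_eqG (b : BaseT p e e' S) : cell p e (stdS S) 1 = cell p e' (stdS S) 1 := by
  rw [cellS1, cellS1]
  refine Finset.prod_congr rfl (fun j _ => ?_)
  have := b.rel j
  by_cases hS : j ∈ S
  · rw [if_neg (not_not.mpr hS), if_neg (not_not.mpr hS)]
  · rw [if_neg hS] at this
    rw [this]

theorem tI_atG (b : BaseT p e e' S) (hP : IsPt p e pos x) (hP' : IsPt p e' (stdS S) y)
    {i : Fin m} (hi : i ∈ S) :
    (¬ (p i : Eis) ∣ tI p e S pos x y ∧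
      sym (p i : Eis) (tI p e S pos x y) = ((pos i : ℕ) : ZMod 3) * sym (p i : Eis) w) ∧
      y 1 ≠ 0 ∧ res (term p e pos x 0) (term p e pos x 1) (term p e pos x 2) ≠ 0 := by
  have he : e i ≠ 0 := by have := b.he i; omega
  have he' : e' i ≠ 0 := by have := b.he' i; omega
  have hx := sum3 hP.sum
  have h12 := hP'.cop 1 2 (by decide)
  rw [cellS2] at h12
  obtain ⟨h1, h2, h3, h4⟩ := caseI_at (w0 := x 0 * x 1 * x 2) (b.hp i) (b.sp3 hi)
    (Q := qS p S) (B' := bS p e' S)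
    (dvd_prod_if (fun j => j ∈ S) hi one_ne_zero)
    (dvd_prod_if (fun j => j ∈ S) hi he')
    (X0 := term p e pos x 0) (X1 := term p e pos x 1) (X2 := term p e pos x 2) hx
    (coprime_cube (hP.cop 0 1 (by decide)))
    (coprime_cube (hP.cop 0 2 (by decide))) h12
    (cast_pos (pos i) (fun k => (p i : ℤ) ∣ term p e pos x k)
      (Dvd.dvd.mul_right (dvd_prod_if (fun j => pos j = pos i) rfl he) _))
  exact ⟨⟨h1, h2⟩, h3, h4⟩

theorem tI_locG (b : BaseT p e e' S) (hS : S.Nonempty) (hP : IsPt p e pos x)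
    (hP' : IsPt p e' (stdS S) y)
    {l : Eis} (hl : Prime l) (hl3 : ¬ l ∣ 3)
    (hno : ∀ j, ¬ l ∣ (p j : Eis)) (hbad : NonCube l (bS p e S)) :
    3 ∣ V l (tI p e S pos x y) := by
  have hx := sum3 hP.sum
  have hy := sum3 hP'.sum
  have hprod := cell_prod p e pos
  have hprod' := cell_prod p e (stdS S)
  rw [cellS0, cellS2, one_mul] at hprod'
  have c0 := cellS0 p e' S
  have c1 := cellS1_eqG b
  obtain ⟨i0, hi0⟩ := hS
  obtain ⟨-, hy0, hs0⟩ := tI_atG b hP hP' hi0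
  have k01 := hP'.cop 0 1 (by decide)
  have k02 := hP'.cop 0 2 (by decide)
  rw [c0, one_mul] at k01
  rw [c0, one_mul, cellS2] at k02
  rw [c0, cellS2] at hy
  refine caseI_loc (B := bS p e S) (B' := bS p e' S) (C := cell p e' (stdS S) 1)
    (x := y 0) hl hl3 ?_ hbad b.bb hx ?_ (coprime_cube (hP.cop 0 1 (by decide))) ?_ k01 k02 hy0 hs0
  · intro h
    obtain ⟨j, hj⟩ := SPr.prod p (fun j => j ∈ S) (fun _ => 1) l hl h
    exact hno j hj
  · rw [← c1]
    have e1 : term p e pos x 0 * term p e pos x 1 * term p e pos x 2 =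
      (cell p e pos 0 * cell p e pos 1 * cell p e pos 2) * (x 0 * x 1 * x 2) ^ 3 := by
      unfold term; ring
    rw [e1, hprod, ← hprod']; ring
  · linear_combination hy

/-- case I -/
theorem caseI_G (b : BaseT p e e' S) (hS : S.Nonempty)
    (hP : IsPt p e pos x) (hP' : IsPt p e' (stdS S) y) :
    tI p e S pos x y ≠ 0 ∧ ∀ c : ZMod 3, Cls (tI p e S pos x y) c →
      ∑ i ∈ S, (e i : ZMod 3) * (((pos i : ℕ) : ZMod 3) * sym (p i : Eis) w) =
        c * ∑ i ∈ S, (e i : ZMod 3) * sym (p i : Eis) w := by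
  have ht : tI p e S pos x y ≠ 0 := by
    obtain ⟨i, hi⟩ := hS
    intro h
    have := (tI_atG b hP hP' hi).1.1
    rw [h] at this
    exact this (dvd_zero _)
  refine ⟨ht, fun c hc => ?_⟩
  exact b.sum_of (f := fun i => ((pos i : ℕ) : ZMod 3)) ht (fun i hi => (tI_atG b hP hP' hi).1) hc
    (fun _ hl hl3 hno hbad => tI_locG b hS hP hP' hl hl3 hno hbad)

/-! ### case III -/

theorem inertD_prodG (b : BaseT p e e' S) (c : Fin m → Prop) [DecidablePred c]
    (n : Fin m → ℕ) : InertD (∏ j, if c j then (p j : ℤ) ^ n j else 1) := by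
  intro l hl hl3 h
  obtain ⟨j, hj⟩ := SPr.prod p c n l hl h
  rcases b.h3 j with h | h
  · exact ⟨p j, b.hp j, h, hl.associated_of_dvd (prime_inert (b.hp j) h) hj⟩
  · rw [h] at hj
    exact absurd (by exact_mod_cast hj) hl3

theorem caseIII_G (b : BaseT p e e' S) {i0 i2 : Fin m} (hi0 : i0 ∈ S) (hi2 : i2 ∉ S)
    (h2 : p i2 % 3 = 2) (hw0 : sym (p i0 : Eis) w ≠ 0) (hw2 : sym (p i2 : Eis) w ≠ 0)
    (hP : IsPt p e (stdS S) x) (hP' : IsPt p e' (stdS S) y) : False := by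
  have hx := sum3 hP.sum
  have hy := sum3 hP'.sum
  have he0 : e i0 ≠ 0 := by have := b.he i0; omega
  have he0' : e' i0 ≠ 0 := by have := b.he' i0; omega
  have he2 : e i2 ≠ 0 := by have := b.he i2; omega
  have c0 := cellS0 p e S
  have c0' := cellS0 p e' S
  have c1 := cellS1_eqG b
  have k01 := hP.cop 0 1 (by decide)
  have k12 := hP.cop 1 2 (by decide)
  have k01' := hP'.cop 0 1 (by decide)
  have k12' := hP'.cop 1 2 (by decide)
  rw [c0, cellS2] at hx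
  rw [c0', cellS2, ← c1] at hy
  rw [c0, one_mul] at k01
  rw [cellS2] at k12
  rw [c0', one_mul, ← c1] at k01'
  rw [cellS2, ← c1] at k12'
  refine caseIII_gen' (b.hp i0) (b.sp3 hi0) (b.hp i2) h2
    (B := bS p e S) (B' := bS p e' S)
    (C := cell p e (stdS S) 1) (Q := qS p S)
    b.bb (dvd_prod_if (fun j => j ∈ S) hi0 one_ne_zero)
    (dvd_prod_if (fun j => j ∈ S) hi0 he0)
    (dvd_prod_if (fun j => j ∈ S) hi0 he0') ?_ ?_ ?_
    (x := x 0) (y := x 1) (z := x 2) (x' := y 0) (y' := y 1) (z' := y 2)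
    (by linear_combination hx) (by linear_combination hy) k01 k12 k01' k12' (hP.ne 2) (hP'.ne 2)
    hw0 hw2
  · rw [cellS1]
    exact dvd_prod_if (fun j => ¬ j ∈ S) hi2 he2
  · rw [cellS1]
    exact inertD_prodG b (fun j => ¬ j ∈ S) e
  · exact inertD_prodG b (fun j => j ∈ S) (fun _ => 1)

end Pool.Agent.CubeRank

end

section

/-!
# Weights; classes at the prime above 3 when 3 divides `A` once
-/

set_option autoImplicit false

namespace Pool.Agent.CubeRank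

open Pool.Agent.Lib_helper18 Pool.Agent.Lib_helper18.Eis Pool.Agent.Lib_helper84.Cub

variable {m : ℕ} {p e e' : Fin m → ℕ} {pos pos' : Fin m → Fin 3} {x y : Fin 3 → ℤ}
  {S : Finset (Fin m)}

/-! ### weights -/

/-- signed weights; the prime 3 has weight 0 -/
def sg {m : ℕ} (p e : Fin m → ℕ) (i : Fin m) : ZMod 3 :=
  if p i = 3 then 0 else (e i : ZMod 3) * wq (p i : ℤ)

/-- the weight of a cell -/
def cwt {m : ℕ} (p e : Fin m → ℕ) (pos : Fin m → Fin 3) (k : Fin 3) : ZMod 3 :=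
  ∑ j, if pos j = k then sg p e j else 0

/-- the part of a cell prime to 3 -/
def dcl {m : ℕ} (p e : Fin m → ℕ) (pos : Fin m → Fin 3) (k : Fin 3) : ℤ :=
  ∏ j, if pos j = k ∧ p j ≠ 3 then (p j : ℤ) ^ e j else 1

theorem ndvd_of_mod {q : ℕ} (h : q % 3 = 2) : ¬ (3 : ℤ) ∣ (q : ℤ) := by omega

theorem ndvd_pw {a : ℤ} (h : ¬ (3 : ℤ) ∣ a) (n : ℕ) : ¬ (3 : ℤ) ∣ a ^ n :=
  fun h' => h (Int.prime_three.dvd_of_dvd_pow h')

theorem prod_ndvd (h3 : ∀ i, p i % 3 = 2 ∨ p i = 3) (c : Fin m → Prop) [DecidablePred c]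
    (hc : ∀ i, c i → p i ≠ 3) (n : Fin m → ℕ) :
    ¬ (3 : ℤ) ∣ ∏ j, if c j then (p j : ℤ) ^ n j else 1 := by
  intro h
  rw [Prime.dvd_finsetProd_iff Int.prime_three] at h
  obtain ⟨j, -, hj⟩ := h
  split_ifs at hj with hcj
  · exact ndvd_pw (ndvd_of_mod ((h3 j).resolve_right (hc j hcj))) _ hj
  · omega

theorem wq_prod_if (h3 : ∀ i, p i % 3 = 2 ∨ p i = 3) (c : Fin m → Prop) [DecidablePred c]
    (hc : ∀ i, c i → p i ≠ 3) (n : Fin m → ℕ) :
    wq (∏ j, if c j then (p j : ℤ) ^ n j else 1) = ∑ j, if c j then sg p n j else 0 := by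
  rw [wq_prod]
  · refine Finset.sum_congr rfl (fun j _ => ?_)
    split_ifs with hcj
    · rw [wq_pow (ndvd_of_mod ((h3 j).resolve_right (hc j hcj))), sg, if_neg (hc j hcj)]
    · exact wq_one
  · intro j
    split_ifs with hcj
    · exact ndvd_pw (ndvd_of_mod ((h3 j).resolve_right (hc j hcj))) _
    · norm_num

theorem dcl_ndvd (h3 : ∀ i, p i % 3 = 2 ∨ p i = 3) (pos : Fin m → Fin 3) (k : Fin 3) :
    ¬ (3 : ℤ) ∣ dcl p e pos k :=
  prod_ndvd h3 (fun j => pos j = k ∧ p j ≠ 3) (fun _ h => h.2) e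

theorem wq_dcl (h3 : ∀ i, p i % 3 = 2 ∨ p i = 3) (pos : Fin m → Fin 3) (k : Fin 3) :
    wq (dcl p e pos k) = cwt p e pos k := by
  unfold dcl cwt
  rw [wq_prod_if h3 (fun j => pos j = k ∧ p j ≠ 3) (fun _ h => h.2) e]
  refine Finset.sum_congr rfl (fun j _ => ?_)
  by_cases h : pos j = k
  · by_cases h' : p j = 3
    · simp [h, h', sg]
    · simp [h, h']
  · simp [h]

/-- the linear form of the cell weights -/
theorem eps_eq (f : Fin m → ZMod 3) (pos : Fin m → Fin 3) (c : Fin 3) :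
    ∑ j, f j * (((pos j : ℕ) : ZMod 3) - ((c : ℕ) : ZMod 3)) =
      (∑ j, if pos j = c + 1 then f j else 0) - ∑ j, if pos j = c + 2 then f j else 0 := by
  rw [← Finset.sum_sub_distrib]
  refine Finset.sum_congr rfl (fun j _ => ?_)
  have key : ∀ (z : ZMod 3) (a c : Fin 3), z * (((a : ℕ) : ZMod 3) - ((c : ℕ) : ZMod 3)) =
      (if a = c + 1 then z else 0) - (if a = c + 2 then z else 0) := by decide
  exact key _ _ _

/-- the data for a prime 3 dividing `A` exactly once -/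
structure Th (p e : Fin m → ℕ) (i3 : Fin m) : Prop where
  h3 : ∀ i, p i % 3 = 2 ∨ p i = 3
  inj : Function.Injective p
  p3 : p i3 = 3
  e3 : e i3 = 1

/-- the reduced terms -/
def ntg (p e : Fin m → ℕ) (pos : Fin m → Fin 3) (x : Fin 3 → ℤ) (k : Fin 3) : ℤ :=
  dcl p e pos k * x k ^ 3

theorem three_sumZ' {i j k : Fin 3} (h01 : i ≠ j) (h02 : i ≠ k) (h12 : j ≠ k) (f : Fin 3 → ℤ) :
    ∑ j, f j = f i + f j + f k := by
  rw [Fin.sum_univ_three]
  have key : ∀ i j k : Fin 3, i ≠ j → i ≠ k → j ≠ k → (i = 0 ∧ j = 1 ∧ k = 2) ∨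
    (i = 0 ∧ j = 2 ∧ k = 1) ∨ (i = 1 ∧ j = 0 ∧ k = 2) ∨ (i = 1 ∧ j = 2 ∧ k = 0) ∨
    (i = 2 ∧ j = 0 ∧ k = 1) ∨ (i = 2 ∧ j = 1 ∧ k = 0) := by decide
  rcases key i j k h01 h02 h12 with ⟨rfl, rfl, rfl⟩ | ⟨rfl, rfl, rfl⟩ | ⟨rfl, rfl, rfl⟩ |
    ⟨rfl, rfl, rfl⟩ | ⟨rfl, rfl, rfl⟩ | ⟨rfl, rfl, rfl⟩ <;> ring

namespace Th

variable {i3 : Fin m} (t : Th p e i3)

include t

theorem ne3 {j : Fin m} (h : j ≠ i3) : p j ≠ 3 := fun h' => h (t.inj (h'.trans t.p3.symm))

theorem sg3 : sg p e i3 = 0 := by unfold sg; rw [if_pos t.p3]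

theorem cell_eq (k : Fin 3) : cell p e pos k = dcl p e pos k * (if pos i3 = k then 3 else 1) := by
  unfold cell dcl
  have h1 : (if pos i3 = k then (3 : ℤ) else 1) = ∏ j, if j = i3 then
      (if pos i3 = k then (3 : ℤ) else 1) else 1 := by
    rw [Finset.prod_ite_eq' Finset.univ i3, if_pos (Finset.mem_univ _)]
  rw [h1, ← Finset.prod_mul_distrib]
  refine Finset.prod_congr rfl (fun j _ => ?_)
  by_cases hj : j = i3
  · subst hj
    rw [if_pos (rfl : j = j), t.p3, t.e3]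
    by_cases hk : pos j = k
    · simp [hk]
    · simp [hk]
  · rw [if_neg hj, mul_one]
    by_cases hk : pos j = k
    · rw [if_pos hk, if_pos ⟨hk, t.ne3 hj⟩]
    · rw [if_neg hk, if_neg (fun h => hk h.1)]

theorem term_eq (k : Fin 3) : term p e pos x k =
    (if pos i3 = k then 3 else 1) * ntg p e pos x k := by
  unfold term ntg
  rw [t.cell_eq]; ring

theorem unit (hP : IsPt p e pos x) {k : Fin 3} (hk : k ≠ pos i3) : ¬ (3 : ℤ) ∣ x k := by
  intro h
  have h1 := hP.cop k (pos i3) hk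
  refine Int.prime_three.not_isUnit (h1.isUnit_of_dvd' (Dvd.dvd.mul_left h _)
    (Dvd.dvd.mul_right ?_ _))
  rw [t.cell_eq, if_pos rfl]
  exact dvd_mul_left _ _

theorem nt_ndvd (hP : IsPt p e pos x) {k : Fin 3} (hk : k ≠ pos i3) :
    ¬ (3 : ℤ) ∣ ntg p e pos x k :=
  ndvd_mul (dcl_ndvd t.h3 pos k) (ndvd_pw (t.unit hP hk) 3)

theorem wq_nt (hP : IsPt p e pos x) {k : Fin 3} (hk : k ≠ pos i3) :
    wq (ntg p e pos x k) = cwt p e pos k := by
  unfold ntg
  rw [wq_mul_cube (dcl_ndvd t.h3 pos k) (t.unit hP hk), wq_dcl t.h3]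

theorem nt_sum (hP : IsPt p e pos x) {i j : Fin 3} (hi : i ≠ pos i3) (hj : j ≠ pos i3)
    (hij : i ≠ j) : ntg p e pos x i + ntg p e pos x j + 3 * ntg p e pos x (pos i3) = 0 := by
  have h := hP.sum
  rw [three_sumZ' hij hi hj] at h
  have h1 := t.term_eq (pos := pos) (x := x) i
  have h2 := t.term_eq (pos := pos) (x := x) j
  have h3 := t.term_eq (pos := pos) (x := x) (pos i3)
  rw [if_neg (Ne.symm hi)] at h1
  rw [if_neg (Ne.symm hj)] at h2
  rw [if_pos rfl] at h3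
  unfold term at h1 h2 h3
  linear_combination h - h1 - h2 - h3

theorem nt_mod (hP : IsPt p e pos x) {i j : Fin 3} (hi : i ≠ pos i3) (hj : j ≠ pos i3)
    (hij : i ≠ j) : (ntg p e pos x (pos i3) : ZMod 3) = (ntg p e pos x i : ZMod 3) *
      (cwt p e pos j - cwt p e pos i) := by
  rw [← t.wq_nt hP hi, ← t.wq_nt hP hj]
  exact wq_diff (t.nt_ndvd hP hi) (t.nt_ndvd hP hj) (t.nt_sum hP hi hj hij)

theorem nt_dvd {k : Fin 3} (h : (3 : ℤ) ∣ ntg p e pos x k) : (3 : ℤ) ∣ x k :=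
  Int.prime_three.dvd_of_dvd_pow ((Int.prime_three.dvd_or_dvd h).resolve_left
    (dcl_ndvd t.h3 pos k))

theorem dvd_iff (hP : IsPt p e pos x) {i j : Fin 3} (hi : i ≠ pos i3) (hj : j ≠ pos i3)
    (hij : i ≠ j) : (3 : ℤ) ∣ x (pos i3) ↔ cwt p e pos i = cwt p e pos j := by
  have h := t.nt_mod hP hi hj hij
  have hn := z3_ne.mpr (t.nt_ndvd hP hi)
  constructor
  · intro hd
    have h1 : (3 : ℤ) ∣ ntg p e pos x (pos i3) :=
      Dvd.dvd.mul_left (Dvd.dvd.pow hd (by norm_num)) _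
    rw [← z3_eq, h] at h1
    have := (mul_eq_zero.mp h1).resolve_left hn
    exact (sub_eq_zero.mp this).symm
  · intro he
    apply t.nt_dvd
    rw [← z3_eq, h, he, sub_self, mul_zero]

end Th

theorem ntg9 {k : Fin 3} (h : (3 : ℤ) ∣ x k) : (9 : ℤ) ∣ ntg p e pos x k := by
  obtain ⟨v, hv⟩ := h
  unfold ntg
  rw [hv]
  exact ⟨dcl p e pos k * (3 * v ^ 3), by ring⟩

/-! ### weights after the exchange -/

/-- the relation between the weights -/
structure Wt (p e e' : Fin m → ℕ) (S : Finset (Fin m)) : Prop where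
  ins : ∀ i ∈ S, sg p e' i = - sg p e i
  out : ∀ i ∉ S, sg p e' i = sg p e i

theorem BaseT.wt (b : BaseT p e e' S) : Wt p e e' S where
  ins := fun i hi => by
    have h := b.rel i
    rw [if_pos hi] at h
    have := congrArg (fun n : ℕ => (n : ZMod 3)) h
    push_cast at this
    unfold sg
    rw [if_neg (b.nS i hi), if_neg (b.nS i hi)]
    linear_combination wq (p i : ℤ) * this + wq (p i : ℤ) * three_zmod
  out := fun i hi => by
    have h := b.rel i
    rw [if_neg hi] at h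
    unfold sg
    rw [h]

/-- sums over the exchanged positions, checked term by term -/
theorem Wt.sum_eq (W : Wt p e e' S) (hpos : Exch S pos pos') (f f' g : Fin 3 → ZMod 3)
    (hin : ∀ a : Fin 3, - f' (tau a) - f a = g 0) (hout : ∀ a : Fin 3, f' a = f a) :
    ∑ j, sg p e' j * f' (pos' j) = ∑ j, sg p e j * f (pos j) + g 0 * ∑ j ∈ S, sg p e j := by
  classical
  have h1 : ∑ j ∈ S, sg p e j = ∑ j, if j ∈ S then sg p e j else 0 := by
    rw [Finset.sum_ite_mem, Finset.univ_inter]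
  rw [h1, Finset.mul_sum, ← Finset.sum_add_distrib]
  refine Finset.sum_congr rfl (fun j _ => ?_)
  have h := hpos j
  by_cases hj : j ∈ S
  · rw [if_pos hj] at h ⊢
    rw [h, W.ins j hj, ← hin (pos j)]; ring
  · rw [if_neg hj] at h ⊢
    rw [h, W.out j hj, hout]; ring

theorem cwt_as (p e : Fin m → ℕ) (pos : Fin m → Fin 3) (k : Fin 3) :
    cwt p e pos k = ∑ j, sg p e j * (if pos j = k then 1 else 0) := by
  unfold cwt
  exact Finset.sum_congr rfl (fun j _ => by split_ifs <;> ring)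

theorem cwt_sub (p e : Fin m → ℕ) (pos : Fin m → Fin 3) (k l : Fin 3) :
    cwt p e pos k - cwt p e pos l =
      ∑ j, sg p e j * ((if pos j = k then 1 else 0) - (if pos j = l then 1 else 0)) := by
  rw [cwt_as, cwt_as, ← Finset.sum_sub_distrib]
  exact Finset.sum_congr rfl (fun j _ => by ring)

theorem Wt.c0 (W : Wt p e e' S) (hpos : Exch S pos pos') :
    cwt p e' pos' 1 - cwt p e' pos' 2 =
      cwt p e pos 1 - cwt p e pos 2 - ∑ j ∈ S, sg p e j := by
  rw [cwt_sub, cwt_sub, W.sum_eq hpos (fun a => (if a = 1 then 1 else 0) - (if a = 2 then 1 else 0))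
    (fun a => (if a = 1 then 1 else 0) - (if a = 2 then 1 else 0)) (fun _ => -1) (by decide)
    (by decide)]
  ring

theorem Wt.c1 (W : Wt p e e' S) (hpos : Exch S pos pos') :
    cwt p e' pos' 2 - cwt p e' pos' 0 =
      cwt p e pos 2 - cwt p e pos 0 + ∑ j ∈ S, sg p e j := by
  rw [cwt_sub, cwt_sub, W.sum_eq hpos (fun a => (if a = 2 then 1 else 0) - (if a = 0 then 1 else 0))
    (fun a => (if a = 2 then 1 else 0) - (if a = 0 then 1 else 0)) (fun _ => 1) (by decide)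
    (by decide)]
  ring

theorem Wt.c2 (W : Wt p e e' S) (hpos : Exch S pos pos') :
    cwt p e' pos' 0 - cwt p e' pos' 1 = cwt p e pos 0 - cwt p e pos 1 := by
  rw [cwt_sub, cwt_sub, W.sum_eq hpos (fun a => (if a = 0 then 1 else 0) - (if a = 1 then 1 else 0))
    (fun a => (if a = 0 then 1 else 0) - (if a = 1 then 1 else 0)) (fun _ => 0) (by decide)
    (by decide)]
  ring

theorem Wt.c3 (W : Wt p e e' S) (hpos : Exch S pos pos') :
    cwt p e pos 2 - cwt p e' pos' 2 + cwt p e' pos' 0 - cwt p e pos 0 =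
      - ∑ j ∈ S, sg p e j := by
  have h1 : cwt p e' pos' 0 - cwt p e' pos' 2 =
      ∑ j, sg p e j * ((if pos j = 0 then 1 else 0) - (if pos j = 2 then 1 else 0)) +
        (-1) * ∑ j ∈ S, sg p e j := by
    rw [cwt_sub]
    exact W.sum_eq hpos (fun a => (if a = 0 then 1 else 0) - (if a = 2 then 1 else 0))
      (fun a => (if a = 0 then 1 else 0) - (if a = 2 then 1 else 0)) (fun _ => -1) (by decide)
      (by decide)
  have h2 := cwt_sub p e pos 0 2
  linear_combination h1 - h2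

end Pool.Agent.CubeRank

end

section

/-!
# The classes of the main elements when 3 divides `A` once
-/

set_option autoImplicit false

namespace Pool.Agent.CubeRank

open Pool.Agent.Lib_helper18 Pool.Agent.Lib_helper18.Eis Pool.Agent.Lib_helper84.Cub

variable {m : ℕ} {p e e' : Fin m → ℕ} {pos pos' : Fin m → Fin 3} {x y : Fin 3 → ℤ}
  {S : Finset (Fin m)}

theorem BaseT.rd3 (b : BaseT p e e' S) (pos : Fin m → Fin 3) (k : Fin 3) :
    ¬ (3 : ℤ) ∣ rdP p S pos k := by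
  unfold rdP
  intro h
  rw [Prime.dvd_finsetProd_iff Int.prime_three] at h
  obtain ⟨j, -, hj⟩ := h
  split_ifs at hj with hc
  · have h1 := b.sp3 hc.1
    rw [pow_one] at hj
    omega
  · omega

theorem exch_i3 (hpos : Exch S pos pos') {i3 : Fin m} (hi : i3 ∉ S) : pos' i3 = pos i3 := by
  have h := hpos i3
  rwa [if_neg hi] at h

/-- the relation between the reduced terms -/
theorem relg (b : BaseT p e e' S) {i3 : Fin m} (t : Th p e i3) (t' : Th p e' i3) (hi : i3 ∉ S)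
    (hpos : Exch S pos pos') :
    (rdP p S pos 1 * x 1 * y 0) ^ 3 * (ntg p e pos x 0 * ntg p e' pos' y 1) =
      (rdP p S pos 0 * x 0 * y 1) ^ 3 * (ntg p e pos x 1 * ntg p e' pos' y 0) := by
  have h2 := exch_i3 hpos hi
  have h := exch_h1G b hpos
  rw [t.cell_eq, t.cell_eq, t'.cell_eq, t'.cell_eq, h2] at h
  set a0 : ℤ := if pos i3 = 0 then 3 else 1 with ha0
  set a1 : ℤ := if pos i3 = 1 then 3 else 1 with ha1
  have n0 : a0 ≠ 0 := by rw [ha0]; split_ifs <;> norm_num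
  have n1 : a1 ≠ 0 := by rw [ha1]; split_ifs <;> norm_num
  apply mul_left_cancel₀ (mul_ne_zero n0 n1)
  unfold ntg
  linear_combination (x 0 * x 1 * y 0 * y 1) ^ 3 * h

theorem z3_three : ∀ d s : ZMod 3, s ≠ 0 → d ≠ 0 → d - s ≠ 0 → d - s = -d ∧ -(d * s) = 1 := by
  decide

theorem z3_three' : ∀ d s : ZMod 3, s ≠ 0 → d ≠ 0 → d + s ≠ 0 → d + s = -d ∧ d * s = 1 := by
  decide

theorem z3_sq1 : ∀ s : ZMod 3, s ≠ 0 → s * s = 1 := by decide

/-- the class of the main element of case II -/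
theorem cls_tIIg (b : BaseT p e e' S) {i3 : Fin m} (t : Th p e i3) (t' : Th p e' i3)
    (hi : i3 ∉ S) {s : ZMod 3} (hs : ∑ j ∈ S, sg p e j = s) (hs0 : s ≠ 0)
    (hpos : Exch S pos pos') (hP : IsPt p e pos x) (hP' : IsPt p e' pos' y) :
    Cls (tII p S pos x y) (1 - ((pos i3 : ℕ) : ZMod 3) -
      (cwt p e pos (pos i3 + 1) - cwt p e pos (pos i3 + 2)) * s) := by
  have g2 := exch_i3 hpos hi
  have rel := relg (x := x) (y := y) b t t' hi hpos
  have W := b.wt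
  rw [tII_eqS]
  have hc : pos i3 = 0 ∨ pos i3 = 1 ∨ pos i3 = 2 := by
    generalize pos i3 = k; revert k; decide
  rcases hc with hc | hc | hc
  · -- 3 in the first cell
    rw [hc] at g2
    have u1 := t.unit hP (k := 1) (by rw [hc]; decide)
    have u1' := t'.unit hP' (k := 1) (by rw [g2]; decide)
    have d := t.dvd_iff hP (i := 1) (j := 2) (by rw [hc]; decide) (by rw [hc]; decide) (by decide)
    have d' := t'.dvd_iff hP' (i := 1) (j := 2) (by rw [g2]; decide) (by rw [g2]; decide)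
      (by decide)
    have hw := W.c0 hpos
    rw [hs] at hw
    rw [hc] at d ⊢
    rw [g2] at d'
    have e1 : (0 : Fin 3) + 1 = 1 := by decide
    have e2 : (0 : Fin 3) + 2 = 2 := by decide
    have e3 : (((0 : Fin 3) : ℕ) : ZMod 3) = 0 := by decide
    rw [e1, e2, e3]
    by_cases h1 : cwt p e pos 1 = cwt p e pos 2
    · -- 3 | x 0
      have d1 := d.mpr h1
      have d2 : ¬ (3 : ℤ) ∣ y 0 := fun h => by
        have h4 := d'.mp h
        apply hs0
        linear_combination hw - h4 + h1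
      have := clsTwo_one (Dvd.dvd.mul_right (Dvd.dvd.mul_left d1 (rdP p S pos 0)) (y 1))
        (ndvd_mul (ndvd_mul (b.rd3 pos 1) u1) d2)
      rw [h1]
      simpa using this
    by_cases h2 : cwt p e' pos' 1 = cwt p e' pos' 2
    · have d2 := d'.mpr h2
      have d1 : ¬ (3 : ℤ) ∣ x 0 := fun h => h1 (d.mp h)
      have := clsTwo_zero (Dvd.dvd.mul_left d2 (rdP p S pos 1 * x 1))
        (ndvd_mul (ndvd_mul (b.rd3 pos 0) d1) u1')
      have e4 : cwt p e pos 1 - cwt p e pos 2 = s := by linear_combination h2 - hw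
      rw [e4, z3_sq1 s hs0]
      simpa using this
    · have d1 : ¬ (3 : ℤ) ∣ x 0 := fun h => h1 (d.mp h)
      have d2 : ¬ (3 : ℤ) ∣ y 0 := fun h => h2 (d'.mp h)
      have hsum := t.nt_sum hP (i := 1) (j := 2) (by rw [hc]; decide) (by rw [hc]; decide)
        (by decide)
      have hsum' := t'.nt_sum hP' (i := 1) (j := 2) (by rw [g2]; decide) (by rw [g2]; decide)
        (by decide)
      rw [hc] at hsum
      rw [g2] at hsum'
      have w1 := t.wq_nt hP (k := 1) (by rw [hc]; decide)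
      have w2 := t.wq_nt hP (k := 2) (by rw [hc]; decide)
      have w1' := t'.wq_nt hP' (k := 1) (by rw [g2]; decide)
      have w2' := t'.wq_nt hP' (k := 2) (by rw [g2]; decide)
      obtain ⟨k1, k2⟩ := z3_three (cwt p e pos 1 - cwt p e pos 2) s hs0 (sub_ne_zero.mpr h1)
        (by rw [← hw]; exact sub_ne_zero.mpr h2)
      have := clsII_0 (t.nt_ndvd hP (by rw [hc]; decide))
        (t.nt_ndvd hP (k := 2) (by rw [hc]; decide))
        (t'.nt_ndvd hP' (by rw [g2]; decide)) (t'.nt_ndvd hP' (k := 2) (by rw [g2]; decide))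
        (by linear_combination hsum) (by linear_combination hsum') rel
        (ndvd_mul (ndvd_mul (b.rd3 pos 1) u1) d2)
        (by rw [w1, w2]; exact sub_ne_zero.mpr h1)
        (by rw [w1, w2, w1', w2', hw, k1])
      have e4 : (1 : ZMod 3) - 0 - (cwt p e pos 1 - cwt p e pos 2) * s = 2 := by
        linear_combination k2
      rw [e4]; exact this
  · -- 3 in the middle cell
    rw [hc] at g2
    have u0 := t.unit hP (k := 0) (by rw [hc]; decide)
    have u0' := t'.unit hP' (k := 0) (by rw [g2]; decide)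
    have d := t.dvd_iff hP (i := 0) (j := 2) (by rw [hc]; decide) (by rw [hc]; decide) (by decide)
    have d' := t'.dvd_iff hP' (i := 0) (j := 2) (by rw [g2]; decide) (by rw [g2]; decide)
      (by decide)
    have hw := W.c1 hpos
    rw [hs] at hw
    rw [hc] at d ⊢
    rw [g2] at d'
    have e1 : (1 : Fin 3) + 1 = 2 := by decide
    have e2 : (1 : Fin 3) + 2 = 0 := by decide
    have e3 : (((1 : Fin 3) : ℕ) : ZMod 3) = 1 := by decide
    rw [e1, e2, e3]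
    by_cases h1 : cwt p e pos 0 = cwt p e pos 2
    · -- 3 | x 1
      have d1 := d.mpr h1
      have d2 : ¬ (3 : ℤ) ∣ y 1 := fun h => by
        have h4 := d'.mp h
        apply hs0
        linear_combination -hw - h4 + h1
      have := clsTwo_zero (Dvd.dvd.mul_right (Dvd.dvd.mul_left d1 (rdP p S pos 1)) (y 0))
        (ndvd_mul (ndvd_mul (b.rd3 pos 0) u0) d2)
      rw [h1]
      simpa using this
    by_cases h2 : cwt p e' pos' 0 = cwt p e' pos' 2
    · have d2 := d'.mpr h2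
      have d1 : ¬ (3 : ℤ) ∣ x 1 := fun h => h1 (d.mp h)
      have := clsTwo_one (Dvd.dvd.mul_left d2 (rdP p S pos 0 * x 0))
        (ndvd_mul (ndvd_mul (b.rd3 pos 1) d1) u0')
      have e4 : cwt p e pos 2 - cwt p e pos 0 = -s := by linear_combination -hw - h2
      have e5 : (1 : ZMod 3) - 1 - (cwt p e pos 2 - cwt p e pos 0) * s = 1 := by
        rw [e4]; linear_combination z3_sq1 s hs0
      rw [e5]; exact this
    · have d1 : ¬ (3 : ℤ) ∣ x 1 := fun h => h1 (d.mp h)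
      have d2 : ¬ (3 : ℤ) ∣ y 1 := fun h => h2 (d'.mp h)
      have hsum := t.nt_sum hP (i := 0) (j := 2) (by rw [hc]; decide) (by rw [hc]; decide)
        (by decide)
      have hsum' := t'.nt_sum hP' (i := 0) (j := 2) (by rw [g2]; decide) (by rw [g2]; decide)
        (by decide)
      rw [hc] at hsum
      rw [g2] at hsum'
      have w1 := t.wq_nt hP (k := 0) (by rw [hc]; decide)
      have w2 := t.wq_nt hP (k := 2) (by rw [hc]; decide)
      have w1' := t'.wq_nt hP' (k := 0) (by rw [g2]; decide)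
      have w2' := t'.wq_nt hP' (k := 2) (by rw [g2]; decide)
      obtain ⟨k1, k2⟩ := z3_three' (cwt p e pos 2 - cwt p e pos 0) s hs0
        (sub_ne_zero.mpr (Ne.symm h1)) (by rw [← hw]; exact sub_ne_zero.mpr (Ne.symm h2))
      have := clsII_1 (t.nt_ndvd hP (by rw [hc]; decide))
        (t.nt_ndvd hP (k := 2) (by rw [hc]; decide))
        (t'.nt_ndvd hP' (by rw [g2]; decide)) (t'.nt_ndvd hP' (k := 2) (by rw [g2]; decide))
        (by linear_combination hsum) (by linear_combination hsum') rel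
        (ndvd_mul (ndvd_mul (b.rd3 pos 1) d1) u0')
        (by rw [w1, w2]; exact sub_ne_zero.mpr h1)
        (by rw [w1, w2, w1', w2']; linear_combination -hw - k1)
      have e4 : (1 : ZMod 3) - 1 - (cwt p e pos 2 - cwt p e pos 0) * s = 2 := by
        linear_combination -k2 - three_zmod
      rw [e4]; exact this
  · -- 3 in the last cell
    rw [hc] at g2
    have u0' := t'.unit hP' (k := 0) (by rw [g2]; decide)
    have u1 := t.unit hP (k := 1) (by rw [hc]; decide)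
    have hsum := t.nt_sum hP (i := 0) (j := 1) (by rw [hc]; decide) (by rw [hc]; decide)
      (by decide)
    have hsum' := t'.nt_sum hP' (i := 0) (j := 1) (by rw [g2]; decide) (by rw [g2]; decide)
      (by decide)
    rw [hc] at hsum
    rw [g2] at hsum'
    have w0 := t.wq_nt hP (k := 0) (by rw [hc]; decide)
    have w1 := t.wq_nt hP (k := 1) (by rw [hc]; decide)
    have w0' := t'.wq_nt hP' (k := 0) (by rw [g2]; decide)
    have w1' := t'.wq_nt hP' (k := 1) (by rw [g2]; decide)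
    have d := t.dvd_iff hP (i := 0) (j := 1) (by rw [hc]; decide) (by rw [hc]; decide) (by decide)
    have d' := t'.dvd_iff hP' (i := 0) (j := 1) (by rw [g2]; decide) (by rw [g2]; decide)
      (by decide)
    have hw2 := W.c2 hpos
    have hw3 := W.c3 hpos
    rw [hs] at hw3
    rw [hc] at d ⊢
    rw [g2] at d'
    have e1 : (2 : Fin 3) + 1 = 0 := by decide
    have e2 : (2 : Fin 3) + 2 = 1 := by decide
    have e3 : (((2 : Fin 3) : ℕ) : ZMod 3) = 2 := by decide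
    rw [e1, e2, e3]
    obtain ⟨v, hv⟩ := ZMod.intCast_surjective (n := 3) ((cwt p e pos 0 - cwt p e pos 1) * s)
    have hcls := clsII_2 (t.nt_ndvd hP (k := 0) (by rw [hc]; decide))
      (t.nt_ndvd hP (k := 1) (by rw [hc]; decide)) (t'.nt_ndvd hP' (k := 0) (by rw [g2]; decide))
      (t'.nt_ndvd hP' (k := 1) (by rw [g2]; decide))
      (ndvd_mul (ndvd_mul (b.rd3 pos 1) u1) u0')
      (fun h => ntg9 (t.nt_dvd (k := 2) h)) (fun h => ntg9 (t'.nt_dvd (k := 2) h)) hsum hsum'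
      (by rw [w0, w1, w0', w1']; exact hw2.symm) rel (s := v) (by
        rw [w0, w1, w0', hv]
        by_cases h : cwt p e pos 0 = cwt p e pos 1
        · rw [h, sub_self, neg_zero, zero_mul, zero_mul]
        · have h' : cwt p e' pos' 0 ≠ cwt p e' pos' 1 := by
            intro h'
            rw [h', sub_self] at hw2
            exact h (sub_eq_zero.mp hw2.symm)
          have n2 : ¬ (3 : ℤ) ∣ x 2 := fun h3 => h (d.mp h3)
          have n2' : ¬ (3 : ℤ) ∣ y 2 := fun h3 => h' (d'.mp h3)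
          have w2 : wq (ntg p e pos x 2) = cwt p e pos 2 := by
            unfold ntg
            rw [wq_mul_cube (dcl_ndvd t.h3 pos 2) n2, wq_dcl t.h3]
          have w2' : wq (ntg p e' pos' y 2) = cwt p e' pos' 2 := by
            unfold ntg
            rw [wq_mul_cube (dcl_ndvd t'.h3 pos' 2) n2', wq_dcl t'.h3]
          rw [w2, w2', hw3]; ring)
    have e : -1 - (v : ZMod 3) = 1 - 2 - (cwt p e pos 0 - cwt p e pos 1) * s := by
      rw [hv]; ring
    rw [e] at hcls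
    exact hcls

/-! ### case I -/

theorem key_w0' : ∀ X d Q R w0 : ZMod 3, X ≠ 0 → Q ≠ 0 → R ≠ 0 →
    X * (-d) * X * (-X) = Q * R * w0 → w0 = Q * R * X * d := by decide

theorem caseI_keyg {X X' D w0 Q Q' R y0 y1 y2 d s qb : ZMod 3} (hX : X ≠ 0) (hs : s ≠ 0)
    (hQ : Q ≠ 0) (hR : R ≠ 0) (h1 : R * y1 = -s * y0) (h2 : y0 + Q' * y2 = 0)
    (hQQ : Q * Q' = qb) (h4 : D = X * (-d)) (h5 : X + X' = 0) (h3 : D * X * X' = Q * R * w0) :
    w0 * (qb * y2) = (d * s) * (X * y1) := by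
  have hQ2 := z3_sq1 Q hQ
  have hR2 := z3_sq1 R hR
  have hs2 := z3_sq1 s hs
  have e1 : Q' = qb * Q := by linear_combination Q * hQQ - Q' * hQ2
  have e2 : y0 = -(qb * Q * y2) := by linear_combination h2 - y2 * e1
  have e3 : y1 = R * s * (qb * Q * y2) := by
    linear_combination R * h1 - y1 * hR2 - R * s * e2
  have e5 : X' = -X := by linear_combination h5
  rw [h4, e5] at h3
  have e4 := key_w0' X d Q R w0 hX hQ hR h3
  rw [e3, e4]
  linear_combination (-(X * d * R * Q * qb * y2)) * hs2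

theorem dcl_prod (p e : Fin m → ℕ) (pos : Fin m → Fin 3) :
    dcl p e pos 0 * dcl p e pos 1 * dcl p e pos 2 =
      ∏ j, if p j ≠ 3 then (p j : ℤ) ^ e j else 1 := by
  simp only [dcl, ← Finset.prod_mul_distrib]
  refine Finset.prod_congr rfl (fun j _ => ?_)
  have h3 : pos j = 0 ∨ pos j = 1 ∨ pos j = 2 := by
    generalize pos j = k; revert k; decide
  rcases h3 with h3 | h3 | h3 <;> by_cases h : p j = 3 <;> simp [h3, h]

theorem dcl_std0 (p e : Fin m → ℕ) (S : Finset (Fin m)) : dcl p e (stdS S) 0 = 1 := by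
  unfold dcl stdS
  refine Finset.prod_eq_one (fun j _ => ?_)
  rw [if_neg]
  rintro ⟨h, -⟩
  split_ifs at h <;> exact absurd h (by decide)

theorem dcl_std2 (b : BaseT p e e' S) (n : Fin m → ℕ) : dcl p n (stdS S) 2 = bS p n S := by
  unfold dcl stdS bS
  refine Finset.prod_congr rfl (fun j _ => ?_)
  by_cases h : j ∈ S
  · rw [if_pos ⟨by rw [if_pos h], b.nS j h⟩, if_pos h]
  · rw [if_neg, if_neg h]
    rintro ⟨h', -⟩
    rw [if_neg h] at h'
    exact absurd h' (by decide)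

theorem dcl_std1_eq (b : BaseT p e e' S) : dcl p e' (stdS S) 1 = dcl p e (stdS S) 1 := by
  unfold dcl stdS
  refine Finset.prod_congr rfl (fun j _ => ?_)
  have := b.rel j
  by_cases h : j ∈ S
  · rw [if_neg, if_neg]
    · rintro ⟨h', -⟩; rw [if_pos h] at h'; exact absurd h' (by decide)
    · rintro ⟨h', -⟩; rw [if_pos h] at h'; exact absurd h' (by decide)
  · rw [if_neg h] at this
    rw [this]

theorem cwt_std0 (p e : Fin m → ℕ) (S : Finset (Fin m)) : cwt p e (stdS S) 0 = 0 := by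
  unfold cwt stdS
  refine Finset.sum_eq_zero (fun j _ => ?_)
  rw [if_neg]
  split_ifs <;> decide

theorem cwt_std2 (p e : Fin m → ℕ) (S : Finset (Fin m)) :
    cwt p e (stdS S) 2 = ∑ j ∈ S, sg p e j := by
  classical
  have h1 : ∑ j ∈ S, sg p e j = ∑ j, if j ∈ S then sg p e j else 0 := by
    rw [Finset.sum_ite_mem, Finset.univ_inter]
  rw [h1]
  unfold cwt stdS
  refine Finset.sum_congr rfl (fun j _ => ?_)
  by_cases h : j ∈ S
  · rw [if_pos h, if_pos rfl, if_pos h]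
  · rw [if_neg h, if_neg (by decide), if_neg h]

theorem std_i3 {i3 : Fin m} (hi : i3 ∉ S) : stdS S i3 = 1 := by
  unfold stdS; rw [if_neg hi]

theorem sum_sg' (b : BaseT p e e' S) : ∑ j ∈ S, sg p e' j = - ∑ j ∈ S, sg p e j := by
  rw [← Finset.sum_neg_distrib]
  exact Finset.sum_congr rfl (fun j hj => b.wt.ins j hj)

theorem three_prodZ' {i j k : Fin 3} (h01 : i ≠ j) (h02 : i ≠ k) (h12 : j ≠ k) (f : Fin 3 → ℤ) :
    ∏ j, f j = f i * f j * f k := by
  rw [Fin.prod_univ_three]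
  have key : ∀ i j k : Fin 3, i ≠ j → i ≠ k → j ≠ k → (i = 0 ∧ j = 1 ∧ k = 2) ∨
    (i = 0 ∧ j = 2 ∧ k = 1) ∨ (i = 1 ∧ j = 0 ∧ k = 2) ∨ (i = 1 ∧ j = 2 ∧ k = 0) ∨
    (i = 2 ∧ j = 0 ∧ k = 1) ∨ (i = 2 ∧ j = 1 ∧ k = 0) := by decide
  rcases key i j k h01 h02 h12 with ⟨rfl, rfl, rfl⟩ | ⟨rfl, rfl, rfl⟩ | ⟨rfl, rfl, rfl⟩ |
    ⟨rfl, rfl, rfl⟩ | ⟨rfl, rfl, rfl⟩ | ⟨rfl, rfl, rfl⟩ <;> ring

/-- the arithmetic of case I -/
theorem caseI_modg (b : BaseT p e e' S) {i3 : Fin m} (t : Th p e i3) (t' : Th p e' i3)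
    (hi3 : i3 ∉ S) {s : ZMod 3} (hs : ∑ j ∈ S, sg p e j = s) (hs0 : s ≠ 0)
    (hP : IsPt p e pos x) (hP' : IsPt p e' (stdS S) y) {i j : Fin 3} (hi : i ≠ pos i3)
    (hj : j ≠ pos i3) (hij : i ≠ j) :
    ((x 0 * x 1 * x 2 * (qS p S * y 2) : ℤ) : ZMod 3) =
      ((cwt p e pos i - cwt p e pos j) * s) *
        ((ntg p e pos x i * y 1 : ℤ) : ZMod 3) := by
  have st := std_i3 hi3
  have hsum' := t'.nt_sum hP' (i := 0) (j := 2) (by rw [st]; decide) (by rw [st]; decide)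
    (by decide)
  have hmod' := t'.nt_mod hP' (i := 0) (j := 2) (by rw [st]; decide) (by rw [st]; decide)
    (by decide)
  rw [st, cwt_std0, cwt_std2, sum_sg' b, hs] at hmod'
  rw [st] at hsum'
  have m0 : ntg p e' (stdS S) y 0 = y 0 ^ 3 := by unfold ntg; rw [dcl_std0]; ring
  have m1 : ntg p e' (stdS S) y 1 = dcl p e (stdS S) 1 * y 1 ^ 3 := by
    unfold ntg; rw [dcl_std1_eq b]
  have m2 : ntg p e' (stdS S) y 2 = bS p e' S * y 2 ^ 3 := by unfold ntg; rw [dcl_std2 b]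
  rw [m0, m1] at hmod'
  rw [m0, m1, m2] at hsum'
  have hsumZ := congrArg (fun n : ℤ => (n : ZMod 3)) hsum'
  push_cast at hsumZ hmod'
  simp only [z3_cube, three_zmod, zero_mul, add_zero] at hsumZ hmod'
  -- the point `P`
  have hsum := t.nt_sum hP hi hj hij
  have hmod := t.nt_mod hP hi hj hij
  have hsZ := congrArg (fun n : ℤ => (n : ZMod 3)) hsum
  push_cast at hsZ
  rw [three_zmod, zero_mul, add_zero] at hsZ
  have hprodd : ∏ k, ntg p e pos x k = ntg p e pos x (pos i3) * ntg p e pos x i *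
      ntg p e pos x j := by
    exact three_prodZ' (Ne.symm hi) (Ne.symm hj) hij _
  have hBC : bS p e S * dcl p e (stdS S) 1 = dcl p e pos 0 * dcl p e pos 1 * dcl p e pos 2 := by
    rw [dcl_prod, ← dcl_prod p e (stdS S), dcl_std0, dcl_std2 b]; ring
  have hprod : ntg p e pos x (pos i3) * ntg p e pos x i * ntg p e pos x j =
      bS p e S * dcl p e (stdS S) 1 * (x 0 * x 1 * x 2) ^ 3 := by
    rw [← hprodd, Fin.prod_univ_three, hBC]
    unfold ntg
    ring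
  have hpZ := congrArg (fun n : ℤ => (n : ZMod 3)) hprod
  push_cast at hpZ
  simp only [z3_cube] at hpZ
  have hq : (qS p S : ZMod 3) ^ 3 = (bS p e S : ZMod 3) * (bS p e' S : ZMod 3) := by
    have := congrArg (fun n : ℤ => (n : ZMod 3)) b.bb
    push_cast at this
    exact this.symm
  rw [z3_cube] at hq
  have hB3 : ∀ n : Fin m → ℕ, ¬ (3 : ℤ) ∣ bS p n S := fun n =>
    prod_ndvd t.h3 (fun j => j ∈ S) (fun j hj => b.nS j hj) n
  push_cast
  refine caseI_keyg (X := (ntg p e pos x i : ZMod 3)) (X' := (ntg p e pos x j : ZMod 3))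
    (D := (ntg p e pos x (pos i3) : ZMod 3)) (Q := (bS p e S : ZMod 3))
    (Q' := (bS p e' S : ZMod 3))
    (R := (dcl p e (stdS S) 1 : ZMod 3)) (y0 := (y 0 : ZMod 3))
    (z3_ne.mpr (t.nt_ndvd hP hi)) hs0 (z3_ne.mpr (hB3 e))
    (z3_ne.mpr (dcl_ndvd t.h3 _ _))
    ?_ ?_ hq.symm ?_ hsZ ?_
  · linear_combination hmod'
  · linear_combination hsumZ
  · rw [hmod]; ring
  · linear_combination hpZ

/-- the class in case I -/
theorem cls_tIg (b : BaseT p e e' S) {i3 : Fin m} (t : Th p e i3) (t' : Th p e' i3)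
    (hi3 : i3 ∉ S) {s : ZMod 3} (hs : ∑ j ∈ S, sg p e j = s) (hs0 : s ≠ 0)
    (hP : IsPt p e pos x) (hP' : IsPt p e' (stdS S) y) :
    Cls (tI p e S pos x y) (((pos i3 : ℕ) : ZMod 3) +
      (cwt p e pos (pos i3 + 1) - cwt p e pos (pos i3 + 2)) * s) := by
  have st := std_i3 hi3
  have hy : ¬ (3 : ℤ) ∣ y 1 := by
    have h := t'.dvd_iff hP' (i := 0) (j := 2) (by rw [st]; decide) (by rw [st]; decide)
      (by decide)
    rw [st, cwt_std0, cwt_std2, sum_sg' b, hs] at h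
    intro h3
    have h4 := h.mp h3
    exact hs0 (by linear_combination h4)
  have hsum : term p e pos x 0 + term p e pos x 1 + term p e pos x 2 = 0 := sum3 hP.sum
  have e3 : ∀ z : ℤ, ((3 * (x 0 * x 1 * x 2) * z : ℤ) : Eis) =
      ((3 * (x 0 * x 1 * x 2 * z) : ℤ) : Eis) := by intro z; push_cast; ring
  have hc : pos i3 = 0 ∨ pos i3 = 1 ∨ pos i3 = 2 := by
    generalize pos i3 = k; revert k; decide
  unfold tI tOne
  rw [e3]
  rcases hc with hc | hc | hc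
  · have hm := caseI_modg b t t' hi3 hs hs0 hP hP' (i := 1) (j := 2) (by rw [hc]; decide)
      (by rw [hc]; decide) (by decide)
    have t0 := t.term_eq (pos := pos) (x := x) 0
    have t1 := t.term_eq (pos := pos) (x := x) 1
    rw [if_pos hc] at t0
    rw [if_neg (by rw [hc]; decide), one_mul] at t1
    rw [← t1] at hm
    have h := clsI_0 t0 (by rw [t1]; exact t.nt_ndvd hP (by rw [hc]; decide)) hy hsum hm
    rw [hc]
    exact h
  · have hm := caseI_modg b t t' hi3 hs hs0 hP hP' (i := 2) (j := 0) (by rw [hc]; decide)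
      (by rw [hc]; decide) (by decide)
    have t0 := t.term_eq (pos := pos) (x := x) 1
    have t1 := t.term_eq (pos := pos) (x := x) 2
    rw [if_pos hc] at t0
    rw [if_neg (by rw [hc]; decide), one_mul] at t1
    rw [← t1] at hm
    have h := clsI_1 t0 (by rw [t1]; exact t.nt_ndvd hP (by rw [hc]; decide)) hy hsum hm
    rw [hc]
    have e : ((((1 : Fin 3) : ℕ)) : ZMod 3) = 1 := by decide
    rw [e]
    exact h
  · have hm := caseI_modg b t t' hi3 hs hs0 hP hP' (i := 0) (j := 1) (by rw [hc]; decide)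
      (by rw [hc]; decide) (by decide)
    have t0 := t.term_eq (pos := pos) (x := x) 2
    have t1 := t.term_eq (pos := pos) (x := x) 0
    rw [if_pos hc] at t0
    rw [if_neg (by rw [hc]; decide), one_mul] at t1
    rw [← t1] at hm
    have h := clsI_2 t0 (by rw [t1]; exact t.nt_ndvd hP (by rw [hc]; decide)) hy hsum hm
    rw [hc]
    have e : ((((2 : Fin 3) : ℕ)) : ZMod 3) = 2 := by decide
    rw [e]
    exact h

/-! ### case III -/

theorem y_divg {B C1 x y z : ℤ} (hx : ¬ (3 : ℤ) ∣ x) (hB : ¬ (3 : ℤ) ∣ B) (hz : ¬ (3 : ℤ) ∣ z)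
    (hC : ¬ (3 : ℤ) ∣ C1) (hw : wq B = 0) (h : x ^ 3 + 3 * C1 * y ^ 3 + B * z ^ 3 = 0) :
    (3 : ℤ) ∣ y := by
  have h1 := wq_diff (U := x ^ 3) (V := B * z ^ 3) (D := C1 * y ^ 3) (ndvd_pw hx 3)
    (ndvd_mul hB (ndvd_pw hz 3)) (by linarith)
  rw [wq_mul_cube hB hz, wq_cube hx, hw, sub_zero, mul_zero, z3_eq] at h1
  exact Int.prime_three.dvd_of_dvd_pow ((Int.prime_three.dvd_or_dvd h1).resolve_left hC)

theorem cube_congr81' {X Y : ℤ} (hX : ¬ (3 : ℤ) ∣ X) (h : (81 : ℤ) ∣ X ^ 3 - Y ^ 3) :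
    (27 : ℤ) ∣ X - Y := by
  obtain ⟨k, hk⟩ := cube_congr hX ((by norm_num : (27 : ℤ) ∣ 81).trans h)
  obtain ⟨c, hc⟩ := h
  have hY : Y = X - 9 * k := by linarith
  have h9 : (3 : ℤ) ∣ k * X ^ 2 := by
    refine ⟨c + 3 * k ^ 2 * X - 9 * k ^ 3, ?_⟩
    rw [hY] at hc
    have : (27 : ℤ) * (k * X ^ 2) = 27 * (3 * (c + 3 * k ^ 2 * X - 9 * k ^ 3)) := by linarith
    linarith
  have hk3 : (3 : ℤ) ∣ k := (Int.prime_three.dvd_or_dvd h9).resolve_right
    (fun h => hX (Int.prime_three.dvd_of_dvd_pow h))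
  obtain ⟨u, hu⟩ := hk3
  exact ⟨u, by rw [hk, hu]; ring⟩

/-- the class of the main element of case III when 3 divides `C` and `y`, `y'` -/
theorem cls_Xig {B B' C1 Q x y z x' y' z' : ℤ} (hBB : B * B' = Q ^ 3)
    (h : x ^ 3 + 3 * C1 * y ^ 3 + B * z ^ 3 = 0) (h' : x' ^ 3 + 3 * C1 * y' ^ 3 + B' * z' ^ 3 = 0)
    (hx : ¬ (3 : ℤ) ∣ x) (hx' : ¬ (3 : ℤ) ∣ x') (hy : (3 : ℤ) ∣ y) (hy' : (3 : ℤ) ∣ y') :
    Cls (XiZ (3 * C1) Q x y z x' y' z') 0 := by
  obtain ⟨v, rfl⟩ := hy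
  obtain ⟨v', rfl⟩ := hy'
  have h81 : (81 : ℤ) ∣ (x * x') ^ 3 - (Q * z * z') ^ 3 := by
    refine ⟨C1 * (-(v ^ 3 * x' ^ 3) + B * z ^ 3 * v' ^ 3), ?_⟩
    linear_combination x' ^ 3 * h - B * z ^ 3 * h' + (z * z') ^ 3 * hBB
  obtain ⟨k, hk⟩ := cube_congr81' (ndvd_mul hx hx') h81
  have hn : (Q : Eis) * z * z' = x * x' - 27 * k := by
    have e : Q * z * z' = x * x' - 27 * k := by linarith
    exact_mod_cast congrArg (fun n : ℤ => (n : Eis)) e
  have h9 : (9 : Eis) = lam ^ 4 * w := by decide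
  have := cls_mk (t := XiZ (3 * C1) Q x (3 * v) z x' (3 * v') z') (n := (x * x') ^ 3)
    (r := 3 * (-(5 * (x * x') ^ 2 * k) + 81 * (x * x') * k ^ 2 - 486 * k ^ 3 +
      w ^ 2 * C1 * (x * v' + x' * v) ^ 3 + w * 81 * C1 ^ 2 * (v * v') ^ 3 -
        3 * C1 * (x * v' + x' * v) * (v * v') * (x * x' - 27 * k))) 4 1
    (by
      rw [XiZ, Xi, hn, pow_one, ← mul_assoc (lam ^ 4) w, ← h9]
      push_cast
      ring) (ndvd_pw (ndvd_mul hx hx') 3)
  have e : ((1 : ℕ) : ZMod 3) - ((4 : ℕ) : ZMod 3) = 0 := by decide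
  rwa [e] at this

/-- **Case III**, 3 divides `C` once and `wq B = 0` -/
theorem caseIII_C3g {q : ℕ} (hq : q.Prime) (hq3 : q % 3 = 2)
    {B B' C1 Q x y z x' y' z' : ℤ} (hBB : B * B' = Q ^ 3)
    (hqQ : (q : ℤ) ∣ Q) (hqB : (q : ℤ) ∣ B) (hqB' : (q : ℤ) ∣ B') (hCi : InertD (3 * C1))
    (hQi : InertD Q) (hC1 : ¬ (3 : ℤ) ∣ C1)
    (h : x ^ 3 + 3 * C1 * y ^ 3 + B * z ^ 3 = 0)
    (h' : x' ^ 3 + 3 * C1 * y' ^ 3 + B' * z' ^ 3 = 0)
    (cxy : IsCoprime x (3 * C1 * y)) (cyz : IsCoprime (3 * C1 * y) (B * z))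
    (cxy' : IsCoprime x' (3 * C1 * y')) (cyz' : IsCoprime (3 * C1 * y') (B' * z'))
    (hz : z ≠ 0) (hz' : z' ≠ 0) (hwB : wq B = 0) (hwB' : wq B' = 0)
    (hwq : sym (q : Eis) w ≠ 0) : False := by
  have hQ := prime_inert hq hq3
  obtain ⟨qnd, symq⟩ := caseIII_q hq hq3 hqQ hqB hqB' h h' cyz cyz'
  have hΞ0 : XiZ (3 * C1) Q x y z x' y' z' ≠ 0 := by
    intro h0; rw [h0] at qnd; exact qnd (dvd_zero _)
  have nd : ∀ {a c : ℤ}, IsCoprime a (3 * C1 * c) → ¬ (3 : ℤ) ∣ a := by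
    intro a c hc ha
    exact Int.prime_three.not_isUnit (hc.isUnit_of_dvd' ha
      (Dvd.dvd.mul_right (dvd_mul_right _ _) _))
  have hBz := nd cyz.symm
  have hBz' := nd cyz'.symm
  have hB : ¬ (3 : ℤ) ∣ B := fun h => hBz (Dvd.dvd.mul_right h _)
  have hB' : ¬ (3 : ℤ) ∣ B' := fun h => hBz' (Dvd.dvd.mul_right h _)
  have hz3 : ¬ (3 : ℤ) ∣ z := fun h => hBz (Dvd.dvd.mul_left h _)
  have hz3' : ¬ (3 : ℤ) ∣ z' := fun h => hBz' (Dvd.dvd.mul_left h _)
  have h1 := lemmaB1 hq hq3 qnd (cls_Xig hBB h h' (nd cxy) (nd cxy')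
    (y_divg (nd cxy) hB hz3 hC1 hwB h) (y_divg (nd cxy') hB' hz3' hC1 hwB' h'))
    (fun l hl hl3 hlΞ =>
    caseIII_loc hq hq3 hBB hCi hQi h h' cxy cxy' hz hz' hΞ0 hl hl3
      (fun h => qnd ((hl.associated_of_dvd hQ h).symm.dvd.trans hlΞ)))
  rw [symq] at h1
  have key : ∀ u : ZMod 3, 2 * u = 0 * u → u ≠ 0 → False := by decide
  exact key _ h1 hwq

theorem wq_bSg (b : BaseT p e e' S) (n : Fin m → ℕ) : wq (bS p n S) = ∑ j ∈ S, sg p n j := by
  classical
  have h1 : ∑ j ∈ S, sg p n j = ∑ j, if j ∈ S then sg p n j else 0 := by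
    rw [Finset.sum_ite_mem, Finset.univ_inter]
  rw [h1]
  exact wq_prod_if b.h3 (fun j => j ∈ S) (fun j hj => b.nS j hj) n

/-- case III when 3 divides `A` once and the exchanged weights sum to zero -/
theorem caseIII_Th (b : BaseT p e e' S) {i3 : Fin m} (t : Th p e i3)
    (hi3 : i3 ∉ S) (hs : ∑ j ∈ S, sg p e j = 0) {i0 : Fin m} (hi0 : i0 ∈ S)
    (hw0 : sym (p i0 : Eis) w ≠ 0)
    (hP : IsPt p e (stdS S) x) (hP' : IsPt p e' (stdS S) y) : False := by
  have hx := sum3 hP.sum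
  have hy := sum3 hP'.sum
  have he0 : e i0 ≠ 0 := by have := b.he i0; omega
  have he0' : e' i0 ≠ 0 := by have := b.he' i0; omega
  have c0 := cellS0 p e S
  have c0' := cellS0 p e' S
  have c1 : cell p e (stdS S) 1 = 3 * dcl p e (stdS S) 1 := by
    rw [t.cell_eq, if_pos (std_i3 hi3)]; ring
  have c1' : cell p e' (stdS S) 1 = 3 * dcl p e (stdS S) 1 := by
    rw [← cellS1_eqG b, c1]
  have k01 := hP.cop 0 1 (by decide)
  have k12 := hP.cop 1 2 (by decide)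
  have k01' := hP'.cop 0 1 (by decide)
  have k12' := hP'.cop 1 2 (by decide)
  rw [c0, c1, cellS2] at hx
  rw [c0', c1', cellS2] at hy
  rw [c0, c1, one_mul] at k01
  rw [c1, cellS2] at k12
  rw [c0', c1', one_mul] at k01'
  rw [c1', cellS2] at k12'
  refine caseIII_C3g (b.hp i0) (b.sp3 hi0) b.bb
    (dvd_prod_if (fun j => j ∈ S) hi0 one_ne_zero)
    (dvd_prod_if (fun j => j ∈ S) hi0 he0)
    (dvd_prod_if (fun j => j ∈ S) hi0 he0') ?_
    (inertD_prodG b (fun j => j ∈ S) (fun _ => 1)) (dcl_ndvd t.h3 _ _)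
    (by linear_combination hx) (by linear_combination hy) k01 k12 k01' k12' (hP.ne 2)
    (hP'.ne 2) (by rw [wq_bSg b]; exact hs) (by rw [wq_bSg b, sum_sg' b, hs, neg_zero])
    hw0
  rw [← c1, cellS1]
  exact inertD_prodG b (fun j => ¬ j ∈ S) e

end Pool.Agent.CubeRank

end

section

/-!
# Classes when 3 does not divide `A`; 3-adic information in all cases
-/

set_option autoImplicit false

namespace Pool.Agent.CubeRank

open Pool.Agent.Lib_helper18 Pool.Agent.Lib_helper18.Eis Pool.Agent.Lib_helper84.Cub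

variable {m : ℕ} {p e e' : Fin m → ℕ} {pos pos' : Fin m → Fin 3} {x y : Fin 3 → ℤ}
  {S : Finset (Fin m)}

theorem cls_tII_zeroG (b : BaseT p e e' S) (h : (3 : ℤ) ∣ x 1 ∨ (3 : ℤ) ∣ y 0)
    (h0 : ¬ (3 : ℤ) ∣ x 0) (h1 : ¬ (3 : ℤ) ∣ y 1) : Cls (tII p S pos x y) 0 := by
  rw [tII_eqS]
  refine clsTwo_zero ?_ (ndvd_mul (ndvd_mul (b.rd3 pos 0) h0) h1)
  rcases h with h | h
  · exact Dvd.dvd.mul_right (Dvd.dvd.mul_left h _) _
  · exact Dvd.dvd.mul_left h _

theorem cls_tII_oneG (b : BaseT p e e' S) (h : (3 : ℤ) ∣ x 0 ∨ (3 : ℤ) ∣ y 1)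
    (h0 : ¬ (3 : ℤ) ∣ x 1) (h1 : ¬ (3 : ℤ) ∣ y 0) : Cls (tII p S pos x y) 1 := by
  rw [tII_eqS]
  refine clsTwo_one ?_ (ndvd_mul (ndvd_mul (b.rd3 pos 1) h0) h1)
  rcases h with h | h
  · exact Dvd.dvd.mul_right (Dvd.dvd.mul_left h _) _
  · exact Dvd.dvd.mul_left h _

theorem cls_tII_twoG (b : BaseT p e e' S) (hpos : Exch S pos pos')
    (hP : IsPt p e pos x) (hP' : IsPt p e' pos' y)
    (h3 : ∀ k, ¬ (3 : ℤ) ∣ cell p e pos k) (h3' : ∀ k, ¬ (3 : ℤ) ∣ cell p e' pos' k)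
    (hx0 : ¬ (3 : ℤ) ∣ x 0) (hx1 : ¬ (3 : ℤ) ∣ x 1) (hy0 : ¬ (3 : ℤ) ∣ y 0)
    (hy1 : ¬ (3 : ℤ) ∣ y 1) (hxy : (3 : ℤ) ∣ x 2 ∨ (3 : ℤ) ∣ y 2) :
    Cls (tII p S pos x y) 2 := by
  have hx := sum3 hP.sum
  have hy := sum3 hP'.sum
  have h1 := exch_h1G b hpos
  set X := rdP p S pos 1 * x 1 * y 0 with hX
  set Y := rdP p S pos 0 * x 0 * y 1 with hY
  have hXn : ¬ (3 : ℤ) ∣ X := ndvd_mul (ndvd_mul (b.rd3 pos 1) hx1) hy0
  have hYn : ¬ (3 : ℤ) ∣ Y := ndvd_mul (ndvd_mul (b.rd3 pos 0) hx0) hy1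
  have hid : cell p e' pos' 0 * cell p e pos 1 * (X ^ 3 - Y ^ 3) =
      rdP p S pos 1 ^ 3 * (cell p e pos 0 * cell p e' pos' 2 * (x 0 * y 2) ^ 3 -
        cell p e' pos' 0 * cell p e pos 2 * (x 2 * y 0) ^ 3) := by
    rw [hX, hY]
    linear_combination (x 0 * y 1) ^ 3 * h1 +
      rdP p S pos 1 ^ 3 * cell p e' pos' 0 * y 0 ^ 3 * hx -
      rdP p S pos 1 ^ 3 * cell p e pos 0 * x 0 ^ 3 * hy
  have c3 : ∀ {z : ℤ}, ¬ (3 : ℤ) ∣ z → ¬ (3 : ℤ) ∣ z ^ 3 := fun hz h =>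
    hz (Int.prime_three.dvd_of_dvd_pow h)
  have key : (3 : ℤ) ∣ X - Y → (3 : ℤ) ∣ x 2 ∧ (3 : ℤ) ∣ y 2 := by
    intro h
    have h4 : (3 : ℤ) ∣ cell p e' pos' 0 * cell p e pos 1 * (X ^ 3 - Y ^ 3) := by
      apply Dvd.dvd.mul_left
      exact h.trans (sub_dvd_pow_sub_pow X Y 3)
    rw [hid] at h4
    have h5 := (Int.prime_three.dvd_or_dvd h4).resolve_left
      (fun h => b.rd3 pos 1 (Int.prime_three.dvd_of_dvd_pow h))
    rcases hxy with hd | hd
    · refine ⟨hd, ?_⟩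
      by_contra hy2
      have h6 : (3 : ℤ) ∣ cell p e' pos' 0 * cell p e pos 2 * (x 2 * y 0) ^ 3 :=
        Dvd.dvd.mul_left (Dvd.dvd.pow (Dvd.dvd.mul_right hd _) (by norm_num)) _
      have h7 := dvd_add h5 h6
      rw [sub_add_cancel] at h7
      exact ndvd_mul (ndvd_mul (h3 0) (h3' 2)) (c3 (ndvd_mul hx0 hy2)) h7
    · refine ⟨?_, hd⟩
      by_contra hx2
      have h6 : (3 : ℤ) ∣ cell p e pos 0 * cell p e' pos' 2 * (x 0 * y 2) ^ 3 :=
        Dvd.dvd.mul_left (Dvd.dvd.pow (Dvd.dvd.mul_left hd _) (by norm_num)) _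
      have h7 := dvd_sub h6 h5
      rw [sub_sub_cancel] at h7
      exact ndvd_mul (ndvd_mul (h3' 0) (h3 2)) (c3 (ndvd_mul hx2 hy0)) h7
  rw [tII_eqS]
  by_cases hXY : (3 : ℤ) ∣ X - Y
  · obtain ⟨⟨v, hv⟩, ⟨u, hu⟩⟩ := key hXY
    refine clsTwo_two' hXn ?_
    apply cube_congr hXn
    have h27 : (3 : ℤ) ^ 3 ∣ (cell p e' pos' 0 * cell p e pos 1) * (X ^ 3 - Y ^ 3) := by
      rw [hid, hu, hv]
      exact ⟨rdP p S pos 1 ^ 3 * (cell p e pos 0 * cell p e' pos' 2 * (x 0 * u) ^ 3 -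
        cell p e' pos' 0 * cell p e pos 2 * (v * y 0) ^ 3), by ring⟩
    have := Int.prime_three.pow_dvd_of_dvd_mul_left 3 (ndvd_mul (h3' 0) (h3 1)) h27
    norm_num at this
    exact this
  · exact clsTwo_two hXn (dvd_add_of hXn hYn hXY)

/-! ### 3-adic information when 3 does not divide `A` -/

theorem cell_dcl (hno : ∀ i, p i ≠ 3) (pos : Fin m → Fin 3) (k : Fin 3) :
    cell p e pos k = dcl p e pos k := by
  unfold cell dcl
  exact Finset.prod_congr rfl (fun j _ => by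
    by_cases h : pos j = k
    · rw [if_pos h, if_pos ⟨h, hno j⟩]
    · rw [if_neg h, if_neg (fun h' => h h'.1)])

/-- total weight -/
def tg {m : ℕ} (p e : Fin m → ℕ) : ZMod 3 := ∑ i, sg p e i

theorem infoG (h3 : ∀ i, p i % 3 = 2 ∨ p i = 3) (hno : ∀ i, p i ≠ 3) (hP : IsPt p e pos x) :
    ∃ o, PInfo p e pos x o ∧
      ∑ i, sg p e i * ((pos i : ℕ) : ZMod 3) = ((o : ℕ) : ZMod 3) * tg p e ∧
      (tg p e = 1 → (3 : ℤ) ∣ x o) := by
  have hc : ∀ k, ¬ (3 : ℤ) ∣ cell p e pos k := fun k => by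
    rw [cell_dcl hno]; exact dcl_ndvd h3 pos k
  obtain ⟨o, ho⟩ := pt_info hc hP
  refine ⟨o, ho, ?_, fun h => ho.div ?_⟩
  · have h := ho.out
    have e1 : (fun k => wq (cell p e pos k)) =
        ![∑ i, (if pos i = 0 then sg p e i else 0), ∑ i, (if pos i = 1 then sg p e i else 0),
          ∑ i, (if pos i = 2 then sg p e i else 0)] := by
      ext k
      rw [cell_dcl hno, wq_dcl h3]
      fin_cases k <;> rfl
    rw [e1] at h
    rw [sum_cells, tg, sum_cells' (sg p e) pos]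
    exact exc_aux _ _ _ _ h
  · have e1 : (∏ j, (p j : ℤ) ^ e j) = ∏ j, if p j ≠ 3 then (p j : ℤ) ^ e j else 1 :=
      Finset.prod_congr rfl (fun j _ => by rw [if_pos (hno j)])
    rw [e1, wq_prod_if h3 (fun j => p j ≠ 3) (fun _ h => h) e, ← h, tg]
    exact Finset.sum_congr rfl (fun j _ => by rw [if_pos (hno j)])

/-! ### 9 divides `A` -/

theorem eps_nine (h3 : ∀ i, p i % 3 = 2 ∨ p i = 3) (hinj : Function.Injective p) {i3 : Fin m}
    (hp3 : p i3 = 3) (he3 : e i3 = 2) (hP : IsPt p e pos x) {i j : Fin 3} (hi : i ≠ pos i3)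
    (hj : j ≠ pos i3) (hij : i ≠ j) : cwt p e pos i = cwt p e pos j := by
  have hne3 : ∀ {j : Fin m}, j ≠ i3 → p j ≠ 3 := fun h h' => h (hinj (h'.trans hp3.symm))
  have hcell : ∀ k, cell p e pos k = dcl p e pos k * (if pos i3 = k then 9 else 1) := by
    intro k
    unfold cell dcl
    have h1 : (if pos i3 = k then (9 : ℤ) else 1) = ∏ j, if j = i3 then
        (if pos i3 = k then (9 : ℤ) else 1) else 1 := by
      rw [Finset.prod_ite_eq' Finset.univ i3, if_pos (Finset.mem_univ _)]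
    rw [h1, ← Finset.prod_mul_distrib]
    refine Finset.prod_congr rfl (fun j _ => ?_)
    by_cases hj : j = i3
    · subst hj
      rw [if_pos (rfl : j = j), hp3, he3]
      by_cases hk : pos j = k
      · simp [hk]
      · simp [hk]
    · rw [if_neg hj, mul_one]
      by_cases hk : pos j = k
      · rw [if_pos hk, if_pos ⟨hk, hne3 hj⟩]
      · rw [if_neg hk, if_neg (fun h => hk h.1)]
  have hunit : ∀ {k : Fin 3}, k ≠ pos i3 → ¬ (3 : ℤ) ∣ x k := by
    intro k hk h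
    have h1 := hP.cop k (pos i3) hk
    refine Int.prime_three.not_isUnit (h1.isUnit_of_dvd' (Dvd.dvd.mul_left h _)
      (Dvd.dvd.mul_right ?_ _))
    rw [hcell, if_pos rfl]
    exact Dvd.dvd.mul_left (by norm_num) _
  have h := hP.sum
  rw [three_sumZ' hij hi hj] at h
  rw [hcell i, hcell j, hcell (pos i3), if_pos rfl, if_neg (Ne.symm hi), if_neg (Ne.symm hj)] at h
  have h9 : (9 : ℤ) ∣ dcl p e pos i * x i ^ 3 + dcl p e pos j * x j ^ 3 :=
    ⟨-(dcl p e pos (pos i3) * x (pos i3) ^ 3), by linear_combination h⟩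
  have h4 := wq_of_add h9
  rwa [wq_mul_cube (dcl_ndvd h3 pos i) (hunit hi), wq_mul_cube (dcl_ndvd h3 pos j) (hunit hj),
    wq_dcl h3, wq_dcl h3] at h4

end Pool.Agent.CubeRank

end

section

/-!
# The reciprocity law (M7)
-/

set_option autoImplicit false

namespace Pool.Agent.CubeRank

open Pool.Agent.Lib_helper18 Pool.Agent.Lib_helper18.Eis Pool.Agent.Lib_helper84.Cub

variable {m : ℕ} {p e e' : Fin m → ℕ} {S : Finset (Fin m)}

theorem zf_cast : ∀ z : ZMod 3, ((zf z : ℕ) : ZMod 3) = z := by decide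

theorem zf_tau : ∀ z : ZMod 3, zf (1 - z) = tau (zf z) := by decide

theorem zf_fpos : ∀ z : ZMod 3, fpos (zf z) = 1 - z := by decide

/-- cyclic shifts of the cells -/
def shp (a : ZMod 3) : Equiv.Perm (Fin 3) := Equiv.addRight (zf a)

theorem shp_zf : ∀ a z : ZMod 3, shp a (zf z) = zf (z + a) := by decide

/-- change of sign on the cells -/
def ngp : Equiv.Perm (Fin 3) := Equiv.neg (Fin 3)

theorem ngp_zf : ∀ z : ZMod 3, ngp (zf z) = zf (-z) := by decide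

theorem rep_shift {v : Fin m → ZMod 3} (h : Rep p e v) (a : ZMod 3) :
    Rep p e (fun i => v i + a) := by
  obtain ⟨x, hx⟩ := h
  have h1 := hx.perm (shp a)
  have h2 : (shp a) ∘ (fun i => zf (v i)) = fun i => zf (v i + a) := by
    funext i; exact shp_zf a (v i)
  rw [h2] at h1
  exact ⟨_, h1⟩

theorem rep_neg {v : Fin m → ZMod 3} (h : Rep p e v) : Rep p e (fun i => - v i) := by
  obtain ⟨x, hx⟩ := h
  have h1 := hx.perm ngp
  have h2 : ngp ∘ (fun i => zf (v i)) = fun i => zf (-v i) := by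
    funext i; exact ngp_zf (v i)
  rw [h2] at h1
  exact ⟨_, h1⟩

theorem rep_std (h : Rep p e (ind S)) : ∃ y, IsPt p e (stdS S) y := by
  obtain ⟨x, hx⟩ := rep_shift h 1
  have h2 : (fun i => zf (ind S i + 1)) = stdS S := by
    funext i
    unfold ind stdS
    split_ifs <;> decide
  rw [h2] at hx
  exact ⟨x, hx⟩

theorem base_of (h : Hyp p e) (h' : Hyp p e') (hS : ∀ i, i ∈ S ↔ e i ≠ e' i) :
    BaseS p e e' S where
  hp := h.hp
  h3 := fun i => by have := h.h9 i; omega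
  inj := h.inj
  he := h.he
  he' := h'.he
  hw := fun i => by
    rw [FData.sym_w_r (h.hp i) (by have := h.h9 i; omega)]
    exact neg_ne_zero.mpr (wq_ne (h.h9 i))
  rel := fun j => by
    have h1 := h.he j
    have h2 := h'.he j
    have h3 := hS j
    split_ifs with h4
    · have := h3.mp h4; omega
    · by_contra h5
      exact h4 (h3.mpr h5)

/-- the weights of `e'` -/
theorem sw_in (b : BaseS p e e' S) {i : Fin m} (hi : i ∈ S) : sw p e' i = - sw p e i := by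
  have h := b.rel i
  rw [if_pos hi] at h
  have := congrArg (fun n : ℕ => (n : ZMod 3)) h
  push_cast at this
  unfold sw
  linear_combination wq (p i : ℤ) * this + wq (p i : ℤ) * three_zmod

theorem sw_out (b : BaseS p e e' S) {i : Fin m} (hi : i ∉ S) : sw p e' i = sw p e i := by
  have h := b.rel i
  rw [if_neg hi] at h
  unfold sw
  rw [h]

theorem sum_split (f : Fin m → ZMod 3) (S : Finset (Fin m)) :
    ∑ i, f i = ∑ i ∈ S, f i + ∑ i ∈ Sᶜ, f i := (Finset.sum_add_sum_compl S f).symm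

/-- the total weight of `e'` -/
theorem tw_eq (b : BaseS p e e' S) : tw p e' = tw p e + ∑ i ∈ S, sw p e i := by
  unfold tw
  rw [sum_split _ S, sum_split (sw p e) S]
  have h1 : ∑ i ∈ S, sw p e' i = - ∑ i ∈ S, sw p e i := by
    rw [← Finset.sum_neg_distrib]
    exact Finset.sum_congr rfl (fun i hi => sw_in b hi)
  have h2 : ∑ i ∈ Sᶜ, sw p e' i = ∑ i ∈ Sᶜ, sw p e i :=
    Finset.sum_congr rfl (fun i hi => sw_out b (Finset.mem_compl.mp hi))
  rw [h1, h2]
  linear_combination (-(∑ i ∈ S, sw p e i)) * three_zmod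

/-- the product formula with the weights -/
theorem formula (h : Hyp p e) {f : Fin m → ZMod 3} {c : ZMod 3}
    (h1 : ∑ i ∈ S, (e i : ZMod 3) * (f i * sym (p i : Eis) w) =
      c * ∑ i ∈ S, (e i : ZMod 3) * sym (p i : Eis) w) :
    ∑ i ∈ S, sw p e i * f i = c * ∑ i ∈ S, sw p e i := by
  have hw : ∀ i, sym (p i : Eis) w = - wq (p i : ℤ) := fun i =>
    FData.sym_w_r (h.hp i) (by have := h.h9 i; omega)
  have e1 : ∑ i ∈ S, (e i : ZMod 3) * (f i * sym (p i : Eis) w) = - ∑ i ∈ S, sw p e i * f i := by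
    rw [← Finset.sum_neg_distrib]
    refine Finset.sum_congr rfl (fun i _ => ?_)
    rw [hw, sw]; ring
  have e2 : ∑ i ∈ S, (e i : ZMod 3) * sym (p i : Eis) w = - ∑ i ∈ S, sw p e i := by
    rw [← Finset.sum_neg_distrib]
    refine Finset.sum_congr rfl (fun i _ => ?_)
    rw [hw, sw]; ring
  rw [e1, e2] at h1
  linear_combination -h1

theorem z3_facts : ∀ W s : ZMod 3, W ≠ 0 → W + s ≠ 0 → s ≠ 0 → s = W ∧ (W = 1 ∨ W + s = 1) ∧
    W * W = 1 := by decide

/-- the linear form when the exchanged weights sum to zero -/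
theorem Lam_zero {v : Fin m → ZMod 3} (hs : ∑ i ∈ S, sw p e i = 0) :
    Lam p e S v = ∑ i ∈ S, sw p e i * v i := by
  unfold Lam; rw [hs]; ring

theorem fin_of_mul {o : Fin 3} {W : ZMod 3} {k : Fin 3} (hW : W ≠ 0)
    (h : ((o : ℕ) : ZMod 3) * W = ((k : ℕ) : ZMod 3) * W) : o = k := by
  have h1 := mul_right_cancel₀ hW h
  revert h1; clear * -; revert o k; decide

/-- case I -/
theorem law_I (h : Hyp p e) (h' : Hyp p e') (hS : ∀ i, i ∈ S ↔ e i ≠ e' i) (hne : S.Nonempty)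
    (htw : (tw p e ≠ 0 ∧ tw p e' ≠ 0) ∨ (tw p e = 0 ∧ tw p e' = 0))
    (hr : Rep p e' (ind S)) {v : Fin m → ZMod 3} (hv : Rep p e v) : Lam p e S v = 0 := by
  have b := base_of h h' hS
  obtain ⟨y, hy⟩ := rep_std hr
  obtain ⟨x, hx⟩ := hv
  obtain ⟨ht, hf⟩ := caseI_S b hne hx hy
  have htw' := tw_eq b
  have hform : ∀ c, Cls (tI p e S (fun i => zf (v i)) x y) c →
      ∑ i ∈ S, sw p e i * v i = c * ∑ i ∈ S, sw p e i := by
    intro c hc
    have := formula h (hf c hc)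
    simpa only [zf_cast] using this
  by_cases hs : ∑ i ∈ S, sw p e i = 0
  · obtain ⟨c, hc⟩ := exists_cls ht
    rw [Lam_zero hs, hform c hc, hs, mul_zero]
  · have hW : tw p e ≠ 0 ∧ tw p e' ≠ 0 := by
      rcases htw with h1 | ⟨h1, h2⟩
      · exact h1
      · exfalso; rw [h1, h2, zero_add] at htw'; exact hs htw'.symm
    obtain ⟨f1, f2, f3⟩ := z3_facts _ _ hW.1 (htw' ▸ hW.2) hs
    rw [← htw'] at f2
    obtain ⟨o, hI, ho, hd⟩ := info h.h9 hx
    obtain ⟨o', hI', ho', hd'⟩ := info h'.h9 hy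
    have ho2 : o' = 2 := by
      apply fin_of_mul hW.2
      rw [← ho', sum_split _ S]
      have e1 : ∑ i ∈ S, sw p e' i * ((stdS S i : ℕ) : ZMod 3) = -2 * ∑ i ∈ S, sw p e i := by
        rw [Finset.mul_sum]
        refine Finset.sum_congr rfl (fun i hi => ?_)
        rw [sw_in b hi, stdS, if_pos hi]
        have : (((2 : Fin 3) : ℕ) : ZMod 3) = 2 := by decide
        rw [this]; ring
      have e2 : ∑ i ∈ Sᶜ, sw p e' i * ((stdS S i : ℕ) : ZMod 3) = ∑ i ∈ Sᶜ, sw p e i := by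
        refine Finset.sum_congr rfl (fun i hi => ?_)
        rw [sw_out b (Finset.mem_compl.mp hi), stdS, if_neg (Finset.mem_compl.mp hi)]
        have : (((1 : Fin 3) : ℕ) : ZMod 3) = 1 := by decide
        rw [this]; ring
      have e3 : ∑ i ∈ Sᶜ, sw p e i = tw p e - ∑ i ∈ S, sw p e i := by
        unfold tw; rw [sum_split (sw p e) S]; ring
      rw [e1, e2, e3, htw', f1]
      have : (((2 : Fin 3) : ℕ) : ZMod 3) = 2 := by decide
      rw [this]
      linear_combination (-2 * tw p e) * three_zmod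
    subst ho2
    have hy1 : ¬ (3 : ℤ) ∣ y 1 := hI'.unit 1 (by decide)
    have hT : (3 : ℤ) ∣ x 0 * x 1 * x 2 ∨ (3 : ℤ) ∣ y 2 := by
      rcases f2 with f2 | f2
      · left
        have := hd f2
        have h3 : o = 0 ∨ o = 1 ∨ o = 2 := by clear * -; revert o; decide
        rcases h3 with rfl | rfl | rfl
        · exact Dvd.dvd.mul_right (Dvd.dvd.mul_right this _) _
        · exact Dvd.dvd.mul_right (Dvd.dvd.mul_left this _) _
        · exact Dvd.dvd.mul_left this _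
      · exact Or.inr (hd' f2)
    have hc := hform _ (cls_tIS (cell_three' h.h9 _) hx hI hT hy1)
    simp only [zf_cast] at ho
    unfold Lam
    rw [hc, ho, f1]
    linear_combination (-(((o : ℕ) : ZMod 3) * tw p e)) * f3

/-- case II, normalised -/
theorem law_II (h : Hyp p e) (h' : Hyp p e') (hS : ∀ i, i ∈ S ↔ e i ≠ e' i) (hne : S.Nonempty)
    (htw : (tw p e ≠ 0 ∧ tw p e' ≠ 0) ∨ (tw p e = 0 ∧ tw p e' = 0))
    {v v' : Fin m → ZMod 3} (hv : Rep p e v) (hv' : Rep p e' v')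
    (hvv : ∀ i, v' i = if i ∈ S then 1 - v i else v i) : Lam p e S v = 0 := by
  have b := base_of h h' hS
  obtain ⟨x, hx⟩ := hv
  obtain ⟨y, hy⟩ := hv'
  have hpos : Exch S (fun i => zf (v i)) (fun i => zf (v' i)) := by
    intro i
    have := hvv i
    split_ifs at this ⊢ with hi
    · simp only [this]; exact zf_tau _
    · simp only [this]
  obtain ⟨ht, hf⟩ := caseII_S b hne hx hy hpos
  have htw' := tw_eq b
  have hform : ∀ c, Cls (tII p S (fun i => zf (v i)) x y) c →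
      ∑ i ∈ S, sw p e i * v i = (1 - c) * ∑ i ∈ S, sw p e i := by
    intro c hc
    have := formula h (hf c hc)
    simp only [zf_fpos, mul_sub, mul_one, Finset.sum_sub_distrib] at this
    linear_combination -this
  by_cases hs : ∑ i ∈ S, sw p e i = 0
  · obtain ⟨c, hc⟩ := exists_cls ht
    rw [Lam_zero hs, hform c hc, hs, mul_zero]
  · have hW : tw p e ≠ 0 ∧ tw p e' ≠ 0 := by
      rcases htw with h1 | ⟨h1, h2⟩
      · exact h1
      · exfalso; rw [h1, h2, zero_add] at htw'; exact hs htw'.symm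
    obtain ⟨f1, f2, f3⟩ := z3_facts _ _ hW.1 (htw' ▸ hW.2) hs
    rw [← htw'] at f2
    obtain ⟨o, hI, ho, hd⟩ := info h.h9 hx
    obtain ⟨o', hI', ho', hd'⟩ := info h'.h9 hy
    simp only [zf_cast] at ho ho'
    -- o' = 1 - o
    have hoo : ((o' : ℕ) : ZMod 3) = 1 - ((o : ℕ) : ZMod 3) := by
      apply mul_right_cancel₀ hW.2
      rw [← ho', sum_split _ S]
      have e1 : ∑ i ∈ S, sw p e' i * v' i =
          ∑ i ∈ S, sw p e i * v i - ∑ i ∈ S, sw p e i := by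
        rw [← Finset.sum_sub_distrib]
        refine Finset.sum_congr rfl (fun i hi => ?_)
        rw [sw_in b hi, hvv i, if_pos hi]; ring
      have e2 : ∑ i ∈ Sᶜ, sw p e' i * v' i = ∑ i ∈ Sᶜ, sw p e i * v i := by
        refine Finset.sum_congr rfl (fun i hi => ?_)
        rw [sw_out b (Finset.mem_compl.mp hi), hvv i, if_neg (Finset.mem_compl.mp hi)]
      rw [e1, e2, htw', f1]
      rw [sum_split _ S] at ho
      linear_combination ho + (((o : ℕ) : ZMod 3) * tw p e - tw p e) * three_zmod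
    have hcase : (o = 0 ∧ o' = 1) ∨ (o = 1 ∧ o' = 0) ∨ (o = 2 ∧ o' = 2) := by
      revert hoo; clear * -; revert o o'; decide
    have u1 := hI.unit
    have u2 := hI'.unit
    have hcls : Cls (tII p S (fun i => zf (v i)) x y) (1 - ((o : ℕ) : ZMod 3)) := by
      rcases hcase with ⟨rfl, rfl⟩ | ⟨rfl, rfl⟩ | ⟨rfl, rfl⟩
      · have : (1 : ZMod 3) - (((0 : Fin 3) : ℕ) : ZMod 3) = 1 := by decide
        rw [this]
        exact cls_tII_oneS b (f2.imp hd hd') (u1 1 (by decide)) (u2 0 (by decide))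
      · have : (1 : ZMod 3) - (((1 : Fin 3) : ℕ) : ZMod 3) = 0 := by decide
        rw [this]
        exact cls_tII_zeroS b (f2.imp hd hd') (u1 0 (by decide)) (u2 1 (by decide))
      · have : (1 : ZMod 3) - (((2 : Fin 3) : ℕ) : ZMod 3) = 2 := by decide
        rw [this]
        exact cls_tII_twoS b hpos hx hy (cell_three' h.h9 _) (cell_three' h'.h9 _)
          (u1 0 (by decide)) (u1 1 (by decide)) (u2 0 (by decide)) (u2 1 (by decide))
          (f2.imp hd hd')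
    have hc := hform _ hcls
    unfold Lam
    rw [hc, ho, f1]
    linear_combination (-(((o : ℕ) : ZMod 3) * tw p e)) * f3

/-- the linear form does not see constants -/
theorem Lam_shift (h : Hyp p e) (h' : Hyp p e') (hS : ∀ i, i ∈ S ↔ e i ≠ e' i)
    (htw : (tw p e ≠ 0 ∧ tw p e' ≠ 0) ∨ (tw p e = 0 ∧ tw p e' = 0)) (v : Fin m → ZMod 3)
    (a : ZMod 3) : Lam p e S (fun i => v i + a) = Lam p e S v := by
  have b := base_of h h' hS
  have htw' := tw_eq b
  unfold Lam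
  have e1 : ∑ i ∈ S, sw p e i * (v i + a) = ∑ i ∈ S, sw p e i * v i + a * ∑ i ∈ S, sw p e i := by
    rw [Finset.mul_sum, ← Finset.sum_add_distrib]
    exact Finset.sum_congr rfl (fun i _ => by ring)
  have e2 : ∑ i, sw p e i * (v i + a) = ∑ i, sw p e i * v i + a * tw p e := by
    rw [tw, Finset.mul_sum, ← Finset.sum_add_distrib]
    exact Finset.sum_congr rfl (fun i _ => by ring)
  rw [e1, e2]
  rcases htw with ⟨h1, h2⟩ | ⟨h1, h2⟩
  · have h3 : tw p e * tw p e = 1 := by revert h1; generalize tw p e = W; revert W; decide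
    linear_combination (-(a * ∑ i ∈ S, sw p e i)) * h3
  · rw [h1, h2, zero_add] at htw'
    rw [← htw']; ring

/-- **the reciprocity law** -/
theorem law : LawStmt := by
  intro m p e e' S h h' hS hne huniv htw
  have b := base_of h h' hS
  refine ⟨?_, ?_, ?_⟩
  · rintro ⟨h1, h2⟩
    obtain ⟨x, hx⟩ := rep_std h1
    obtain ⟨y, hy⟩ := rep_std h2
    obtain ⟨i0, hi0⟩ := hne
    obtain ⟨i2, hi2⟩ : ∃ i, i ∉ S := by
      by_contra hcon
      push Not at hcon
      exact huniv (Finset.eq_univ_iff_forall.mpr hcon)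
    exact caseIII_S b hi0 hi2 hx hy
  · intro hr v hv
    exact law_I h h' hS hne htw hr hv
  · intro v v' c d hv hv' hvv
    have k1 := rep_shift hv (2 * (1 - c + d))
    have k2 := rep_shift hv' (2 * (1 - c + d) - d)
    have k3 := law_II h h' hS hne htw k1 k2 (by
      intro i
      simp only [hvv i]
      split_ifs
      · linear_combination (1 - c + d) * three_zmod
      · ring)
    rwa [Lam_shift h h' hS htw] at k3

end Pool.Agent.CubeRank

end
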