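import Mathlib
import Pool.Agent.PTWX.C16
import Pool.Agent.PTWX.C20
import Pool.Agent.PTWX.C25
import Pool.Agent.PTWX.C27

/-! Parts: CubeRank.GLaw, CubeRank.Main, CubeRank.GMain, CubeRank.GFinal, CubeRank.Avg, CubeRank.AvgFinal, PT.Stmts5 -/

section

/-!
# The reciprocity law, general version
-/

set_option autoImplicit false

namespace Pool.Agent.CubeRank

open Pool.Agent.Lib_helper18 Pool.Agent.Lib_helper18.Eis Pool.Agent.Lib_helper84.Cub

variable {m : ℕ} {p e e' : Fin m → ℕ} {S : Finset (Fin m)}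

/-- the value at the prime 3 (0 if there is none) -/
def bas {m : ℕ} (p : Fin m → ℕ) (v : Fin m → ZMod 3) : ZMod 3 := ∑ i, if p i = 3 then v i else 0

open Classical in
/-- the linear form of the law -/
noncomputable def LamG {m : ℕ} (p e : Fin m → ℕ) (S : Finset (Fin m)) (v : Fin m → ZMod 3) :
    ZMod 3 :=
  if ∑ i ∈ S, sg p e i = 0 then ∑ i ∈ S, sg p e i * v i
  else ∑ i ∈ Sᶜ, sg p e i * (v i - bas p v)

theorem bas_of {i3 : Fin m} (hinj : Function.Injective p) (h3 : p i3 = 3) (v : Fin m → ZMod 3) :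
    bas p v = v i3 := by
  unfold bas
  rw [Finset.sum_eq_single i3]
  · rw [if_pos h3]
  · intro j _ hj
    rw [if_neg]
    intro h
    exact hj (hinj (h.trans h3.symm))
  · intro h; exact absurd (Finset.mem_univ _) h

theorem bas_no (h3 : ∀ i, p i ≠ 3) (v : Fin m → ZMod 3) : bas p v = 0 := by
  unfold bas
  exact Finset.sum_eq_zero (fun i _ => if_neg (h3 i))

/-- the standing hypotheses on the pair -/
structure PairG {m : ℕ} (p e e' : Fin m → ℕ) (S : Finset (Fin m)) : Prop where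
  h : HypG p e
  h' : HypG p e'
  hS : ∀ i, i ∈ S ↔ e i ≠ e' i
  nS : ∀ i ∈ S, p i ≠ 3
  inT : ∃ i ∈ S, sg p e i ≠ 0
  typ : ((∀ i, p i ≠ 3) ∧ ((tg p e ≠ 0 ∧ tg p e' ≠ 0) ∨ (tg p e = 0 ∧ tg p e' = 0))) ∨
    (∃ i3, p i3 = 3 ∧ e i3 = 1) ∨ ((∃ i3, p i3 = 3) ∧ ∑ i ∈ S, sg p e i = 0)
  outT : (∃ i, i ∉ S ∧ sg p e i ≠ 0) ∨
    ((∃ i3, p i3 = 3 ∧ e i3 = 1) ∧ ∑ i ∈ S, sg p e i = 0)

namespace PairG

variable (b : PairG p e e' S)

include b

theorem base : BaseT p e e' S where
  hp := b.h.hp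
  h3 := b.h.h3
  inj := b.h.inj
  he := b.h.he
  he' := b.h'.he
  nS := b.nS
  rel := fun j => by
    have h1 := b.h.he j
    have h2 := b.h'.he j
    have h3 := b.hS j
    split_ifs with h4
    · have := h3.mp h4; omega
    · by_contra h5
      exact h4 (h3.mpr h5)

theorem e_out {i : Fin m} (hi : i ∉ S) : e' i = e i := by
  by_contra h
  exact hi ((b.hS i).mpr (Ne.symm h))

theorem i3_out {i3 : Fin m} (h3 : p i3 = 3) : i3 ∉ S := fun h => b.nS i3 h h3

theorem sumS : ∑ j ∈ S, sg p e' j = - ∑ j ∈ S, sg p e j := sum_sg' b.base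

theorem ne : S.Nonempty := by
  obtain ⟨i, hi, -⟩ := b.inT
  exact ⟨i, hi⟩

/-- the symmetric pair -/
theorem symm : PairG p e' e S where
  h := b.h'
  h' := b.h
  hS := fun i => by rw [b.hS i]; exact ne_comm
  nS := b.nS
  inT := by
    obtain ⟨i, hi, h⟩ := b.inT
    exact ⟨i, hi, by rw [b.base.wt.ins i hi]; exact neg_ne_zero.mpr h⟩
  typ := by
    rcases b.typ with ⟨h1, h2⟩ | ⟨i3, h3, h4⟩ | ⟨h1, h2⟩
    · exact Or.inl ⟨h1, h2.imp And.symm And.symm⟩
    · exact Or.inr (Or.inl ⟨i3, h3, by rw [b.e_out (b.i3_out h3)]; exact h4⟩)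
    · exact Or.inr (Or.inr ⟨h1, by rw [b.sumS, h2, neg_zero]⟩)
  outT := by
    rcases b.outT with ⟨i, hi, h⟩ | ⟨⟨i3, h3, h4⟩, h2⟩
    · exact Or.inl ⟨i, hi, by rw [b.base.wt.out i hi]; exact h⟩
    · exact Or.inr ⟨⟨i3, h3, by rw [b.e_out (b.i3_out h3)]; exact h4⟩, by
        rw [b.sumS, h2, neg_zero]⟩

/-- total weights -/
theorem tg_eq : tg p e' = tg p e + ∑ i ∈ S, sg p e i := by
  unfold tg
  rw [sum_split _ S, sum_split (sg p e) S, b.sumS]
  have h2 : ∑ i ∈ Sᶜ, sg p e' i = ∑ i ∈ Sᶜ, sg p e i :=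
    Finset.sum_congr rfl (fun i hi => b.base.wt.out i (Finset.mem_compl.mp hi))
  rw [h2]
  linear_combination (-(∑ i ∈ S, sg p e i)) * three_zmod

/-- without the prime 3, nonzero exchanged weight -/
theorem noThree (hno : ∀ i, p i ≠ 3) (hs : ∑ i ∈ S, sg p e i ≠ 0) :
    tg p e ≠ 0 ∧ tg p e' ≠ 0 ∧ ∑ i ∈ S, sg p e i = tg p e ∧ (tg p e = 1 ∨ tg p e' = 1) ∧
      tg p e * tg p e = 1 := by
  have hW : tg p e ≠ 0 ∧ tg p e' ≠ 0 := by
    rcases b.typ with ⟨-, h2⟩ | ⟨i3, h3, -⟩ | ⟨⟨i3, h3⟩, -⟩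
    · rcases h2 with h2 | ⟨h1, h2⟩
      · exact h2
      · exfalso
        have := b.tg_eq
        rw [h1, h2, zero_add] at this
        exact hs this.symm
    · exact absurd h3 (hno i3)
    · exact absurd h3 (hno i3)
  obtain ⟨f1, f2, f3⟩ := z3_facts _ _ hW.1 (by rw [← b.tg_eq]; exact hW.2) hs
  rw [← b.tg_eq] at f2
  exact ⟨hW.1, hW.2, f1, f2, f3⟩

/-- with the prime 3 and nonzero exchanged weight, 3 divides `A` once -/
theorem three {i3 : Fin m} (h3 : p i3 = 3) (hs : ∑ i ∈ S, sg p e i ≠ 0) :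
    Th p e i3 ∧ Th p e' i3 := by
  have he3 : e i3 = 1 := by
    rcases b.typ with ⟨h1, -⟩ | ⟨i, h4, h5⟩ | ⟨-, h2⟩
    · exact absurd h3 (h1 i3)
    · have : i = i3 := b.h.inj (h4.trans h3.symm)
      rw [← this]; exact h5
    · exact absurd h2 hs
  exact ⟨⟨b.h.h3, b.h.inj, h3, he3⟩, ⟨b.h.h3, b.h.inj, h3, by
    rw [b.e_out (b.i3_out h3)]; exact he3⟩⟩

/-- the product formula with the weights -/
theorem formula {f : Fin m → ZMod 3} {c : ZMod 3}
    (h1 : ∑ i ∈ S, (e i : ZMod 3) * (f i * sym (p i : Eis) w) =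
      c * ∑ i ∈ S, (e i : ZMod 3) * sym (p i : Eis) w) :
    ∑ i ∈ S, sg p e i * f i = c * ∑ i ∈ S, sg p e i := by
  have hw : ∀ i ∈ S, (e i : ZMod 3) * sym (p i : Eis) w = - sg p e i := fun i hi => by
    rw [FData.sym_w_r (b.h.hp i) (b.base.sp3 hi), sg, if_neg (b.nS i hi)]; ring
  have e1 : ∑ i ∈ S, (e i : ZMod 3) * (f i * sym (p i : Eis) w) = - ∑ i ∈ S, sg p e i * f i := by
    rw [← Finset.sum_neg_distrib]
    refine Finset.sum_congr rfl (fun i hi => ?_)
    linear_combination f i * hw i hi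
  have e2 : ∑ i ∈ S, (e i : ZMod 3) * sym (p i : Eis) w = - ∑ i ∈ S, sg p e i := by
    rw [← Finset.sum_neg_distrib]
    exact Finset.sum_congr rfl hw
  rw [e1, e2] at h1
  linear_combination -h1

/-- nonzero weight gives a nontrivial symbol -/
theorem sym_ne {i : Fin m} (h : sg p e i ≠ 0) : p i % 3 = 2 ∧ sym (p i : Eis) w ≠ 0 := by
  have h3 : p i ≠ 3 := by
    intro h3
    apply h
    unfold sg; rw [if_pos h3]
  have h2 := (b.h.h3 i).resolve_right h3
  refine ⟨h2, ?_⟩
  rw [FData.sym_w_r (b.h.hp i) h2]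
  apply neg_ne_zero.mpr
  intro h4
  apply h
  unfold sg; rw [if_neg h3, h4, mul_zero]

/-- (1) -/
theorem law_one : ¬ (Rep p e (ind S) ∧ Rep p e' (ind S)) := by
  rintro ⟨h1, h2⟩
  obtain ⟨x, hx⟩ := rep_std h1
  obtain ⟨y, hy⟩ := rep_std h2
  obtain ⟨i0, hi0, hw0⟩ := b.inT
  obtain ⟨-, k0⟩ := b.sym_ne hw0
  rcases b.outT with ⟨i2, hi2, hw2⟩ | ⟨⟨i3, h3, h4⟩, hs⟩
  · obtain ⟨k1, k2⟩ := b.sym_ne hw2
    exact caseIII_G b.base hi0 hi2 k1 k0 k2 hx hy
  · exact caseIII_Th b.base ⟨b.h.h3, b.h.inj, h3, h4⟩ (b.i3_out h3) hs hi0 k0 hx hy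

/-- the final step: from the relation on `S` to the relation outside `S` -/
theorem to_compl {v : Fin m → ZMod 3} {c : ZMod 3}
    (h1 : ∑ i ∈ S, sg p e i * v i = c * ∑ i ∈ S, sg p e i)
    (h2 : c * ∑ i ∈ S, sg p e i = bas p v * ∑ i ∈ S, sg p e i +
      ∑ i, sg p e i * (v i - bas p v)) :
    ∑ i ∈ Sᶜ, sg p e i * (v i - bas p v) = 0 := by
  rw [sum_split (fun i => sg p e i * (v i - bas p v)) S] at h2
  have h3 : ∑ i ∈ S, sg p e i * (v i - bas p v) =
      ∑ i ∈ S, sg p e i * v i - bas p v * ∑ i ∈ S, sg p e i := by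
    rw [Finset.mul_sum, ← Finset.sum_sub_distrib]
    exact Finset.sum_congr rfl (fun i _ => by ring)
  rw [h3, h1] at h2
  linear_combination -h2

theorem law_two (hr : Rep p e' (ind S)) {v : Fin m → ZMod 3} (hv : Rep p e v) :
    LamG p e S v = 0 := by
  classical
  obtain ⟨y, hy⟩ := rep_std hr
  obtain ⟨x, hx⟩ := hv
  obtain ⟨ht, hf⟩ := caseI_G b.base b.ne hx hy
  have hform : ∀ c, Cls (tI p e S (fun i => zf (v i)) x y) c →
      ∑ i ∈ S, sg p e i * v i = c * ∑ i ∈ S, sg p e i := by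
    intro c hc
    have := b.formula (hf c hc)
    simpa only [zf_cast] using this
  unfold LamG
  by_cases hs : ∑ i ∈ S, sg p e i = 0
  · rw [if_pos hs]
    obtain ⟨c, hc⟩ := exists_cls ht
    rw [hform c hc, hs, mul_zero]
  rw [if_neg hs]
  by_cases h3 : ∃ i3, p i3 = 3
  · -- 3 divides `A` once
    obtain ⟨i3, h3⟩ := h3
    obtain ⟨t, t'⟩ := b.three h3 hs
    have hc := hform _ (cls_tIg b.base t t' (b.i3_out h3) rfl hs hx hy)
    refine b.to_compl hc ?_
    rw [bas_of b.h.inj h3]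
    have h5 := eps_eq (sg p e) (fun i => zf (v i)) (zf (v i3))
    simp only [zf_cast] at h5 ⊢
    rw [h5]
    have h6 := z3_sq1 _ hs
    unfold cwt
    linear_combination ((∑ j, if zf (v j) = zf (v i3) + 1 then sg p e j else 0) -
      ∑ j, if zf (v j) = zf (v i3) + 2 then sg p e j else 0) * h6
  · -- 3 does not divide `A`
    push Not at h3
    obtain ⟨hW, hW', f1, f2, f3⟩ := b.noThree h3 hs
    obtain ⟨o, hI, ho, hd⟩ := infoG b.h.h3 h3 hx
    obtain ⟨o', hI', ho', hd'⟩ := infoG b.h.h3 h3 hy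
    have htw' := b.tg_eq
    have hc3 : ∀ (n : Fin m → ℕ) (pos : Fin m → Fin 3) k, ¬ (3 : ℤ) ∣ cell p n pos k :=
      fun n pos k => by rw [cell_dcl h3]; exact dcl_ndvd b.h.h3 pos k
    have ho2 : o' = 2 := by
      apply fin_of_mul hW'
      rw [← ho', sum_split _ S]
      have e1 : ∑ i ∈ S, sg p e' i * ((stdS S i : ℕ) : ZMod 3) = -2 * ∑ i ∈ S, sg p e i := by
        rw [Finset.mul_sum]
        refine Finset.sum_congr rfl (fun i hi => ?_)
        rw [b.base.wt.ins i hi, stdS, if_pos hi]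
        have : (((2 : Fin 3) : ℕ) : ZMod 3) = 2 := by decide
        rw [this]; ring
      have e2 : ∑ i ∈ Sᶜ, sg p e' i * ((stdS S i : ℕ) : ZMod 3) = ∑ i ∈ Sᶜ, sg p e i := by
        refine Finset.sum_congr rfl (fun i hi => ?_)
        rw [b.base.wt.out i (Finset.mem_compl.mp hi), stdS, if_neg (Finset.mem_compl.mp hi)]
        have : (((1 : Fin 3) : ℕ) : ZMod 3) = 1 := by decide
        rw [this]; ring
      have e3 : ∑ i ∈ Sᶜ, sg p e i = tg p e - ∑ i ∈ S, sg p e i := by
        unfold tg; rw [sum_split (sg p e) S]; ring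
      rw [e1, e2, e3, htw', f1]
      have : (((2 : Fin 3) : ℕ) : ZMod 3) = 2 := by decide
      rw [this]
      linear_combination (-2 * tg p e) * three_zmod
    subst ho2
    have hy1 : ¬ (3 : ℤ) ∣ y 1 := hI'.unit 1 (by decide)
    have hT : (3 : ℤ) ∣ x 0 * x 1 * x 2 ∨ (3 : ℤ) ∣ y 2 := by
      rcases f2 with f2 | f2
      · left
        have := hd f2
        have h3 : o = 0 ∨ o = 1 ∨ o = 2 := by clear * -; revert o; decide
        rcases h3 with rfl | rfl | rfl
        · exact Dvd.dvd.mul_right (Dvd.dvd.mul_right this _) _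
        · exact Dvd.dvd.mul_right (Dvd.dvd.mul_left this _) _
        · exact Dvd.dvd.mul_left this _
      · exact Or.inr (hd' f2)
    have hc := hform _ (cls_tIS (hc3 _ _) hx hI hT hy1)
    simp only [zf_cast] at ho
    refine b.to_compl hc ?_
    rw [bas_no h3]
    simp only [sub_zero, zero_mul, zero_add]
    rw [ho, f1]

theorem law_three {v v' : Fin m → ZMod 3} (hv : Rep p e v) (hv' : Rep p e' v')
    (hvv : ∀ i, v' i = if i ∈ S then 1 - v i else v i) : LamG p e S v = 0 := by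
  classical
  obtain ⟨x, hx⟩ := hv
  obtain ⟨y, hy⟩ := hv'
  have hpos : Exch S (fun i => zf (v i)) (fun i => zf (v' i)) := by
    intro i
    have := hvv i
    split_ifs at this ⊢ with hi
    · simp only [this]; exact zf_tau _
    · simp only [this]
  obtain ⟨ht, hf⟩ := caseII_G b.base b.ne hx hy hpos
  have hform : ∀ c, Cls (tII p S (fun i => zf (v i)) x y) c →
      ∑ i ∈ S, sg p e i * v i = (1 - c) * ∑ i ∈ S, sg p e i := by
    intro c hc
    have := b.formula (hf c hc)
    simp only [zf_fpos, mul_sub, mul_one, Finset.sum_sub_distrib] at this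
    linear_combination -this
  unfold LamG
  by_cases hs : ∑ i ∈ S, sg p e i = 0
  · rw [if_pos hs]
    obtain ⟨c, hc⟩ := exists_cls ht
    rw [hform c hc, hs, mul_zero]
  rw [if_neg hs]
  by_cases h3 : ∃ i3, p i3 = 3
  · -- 3 divides `A` once
    obtain ⟨i3, h3⟩ := h3
    obtain ⟨t, t'⟩ := b.three h3 hs
    have hc := hform _ (cls_tIIg b.base t t' (b.i3_out h3) rfl hs hpos hx hy)
    refine b.to_compl hc ?_
    rw [bas_of b.h.inj h3]
    have h5 := eps_eq (sg p e) (fun i => zf (v i)) (zf (v i3))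
    simp only [zf_cast] at h5 ⊢
    rw [h5]
    have h6 := z3_sq1 _ hs
    unfold cwt
    linear_combination ((∑ j, if zf (v j) = zf (v i3) + 1 then sg p e j else 0) -
      ∑ j, if zf (v j) = zf (v i3) + 2 then sg p e j else 0) * h6
  · -- 3 does not divide `A`
    push Not at h3
    obtain ⟨hW, hW', f1, f2, f3⟩ := b.noThree h3 hs
    obtain ⟨o, hI, ho, hd⟩ := infoG b.h.h3 h3 hx
    obtain ⟨o', hI', ho', hd'⟩ := infoG b.h.h3 h3 hy
    have htw' := b.tg_eq
    simp only [zf_cast] at ho ho'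
    have hc3 : ∀ (n : Fin m → ℕ) (pos : Fin m → Fin 3) k, ¬ (3 : ℤ) ∣ cell p n pos k :=
      fun n pos k => by rw [cell_dcl h3]; exact dcl_ndvd b.h.h3 pos k
    have hoo : ((o' : ℕ) : ZMod 3) = 1 - ((o : ℕ) : ZMod 3) := by
      apply mul_right_cancel₀ hW'
      rw [← ho', sum_split _ S]
      have e1 : ∑ i ∈ S, sg p e' i * v' i =
          ∑ i ∈ S, sg p e i * v i - ∑ i ∈ S, sg p e i := by
        rw [← Finset.sum_sub_distrib]
        refine Finset.sum_congr rfl (fun i hi => ?_)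
        rw [b.base.wt.ins i hi, hvv i, if_pos hi]; ring
      have e2 : ∑ i ∈ Sᶜ, sg p e' i * v' i = ∑ i ∈ Sᶜ, sg p e i * v i := by
        refine Finset.sum_congr rfl (fun i hi => ?_)
        rw [b.base.wt.out i (Finset.mem_compl.mp hi), hvv i, if_neg (Finset.mem_compl.mp hi)]
      rw [e1, e2, htw', f1]
      rw [sum_split _ S] at ho
      linear_combination ho + (((o : ℕ) : ZMod 3) * tg p e - tg p e) * three_zmod
    have hcase : (o = 0 ∧ o' = 1) ∨ (o = 1 ∧ o' = 0) ∨ (o = 2 ∧ o' = 2) := by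
      revert hoo; clear * -; revert o o'; decide
    have u1 := hI.unit
    have u2 := hI'.unit
    have hcls : Cls (tII p S (fun i => zf (v i)) x y) (1 - ((o : ℕ) : ZMod 3)) := by
      rcases hcase with ⟨rfl, rfl⟩ | ⟨rfl, rfl⟩ | ⟨rfl, rfl⟩
      · have : (1 : ZMod 3) - (((0 : Fin 3) : ℕ) : ZMod 3) = 1 := by decide
        rw [this]
        exact cls_tII_oneG b.base (f2.imp hd hd') (u1 1 (by decide)) (u2 0 (by decide))
      · have : (1 : ZMod 3) - (((1 : Fin 3) : ℕ) : ZMod 3) = 0 := by decide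
        rw [this]
        exact cls_tII_zeroG b.base (f2.imp hd hd') (u1 0 (by decide)) (u2 1 (by decide))
      · have : (1 : ZMod 3) - (((2 : Fin 3) : ℕ) : ZMod 3) = 2 := by decide
        rw [this]
        exact cls_tII_twoG b.base hpos hx hy (hc3 _ _) (hc3 _ _)
          (u1 0 (by decide)) (u1 1 (by decide)) (u2 0 (by decide)) (u2 1 (by decide))
          (f2.imp hd hd')
    have hc := hform _ hcls
    refine b.to_compl hc ?_
    rw [bas_no h3]
    simp only [sub_zero, zero_mul, zero_add]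
    rw [ho, f1]; ring

/-! ### the linear form -/

theorem bas_add (v v' : Fin m → ZMod 3) (c : ZMod 3) :
    bas p (fun i => v i + c * v' i) = bas p v + c * bas p v' := by
  unfold bas
  rw [Finset.mul_sum, ← Finset.sum_add_distrib]
  exact Finset.sum_congr rfl (fun i _ => by split_ifs <;> ring)

theorem Lam_add (v v' : Fin m → ZMod 3) (c : ZMod 3) :
    LamG p e S (fun i => v i + c * v' i) = LamG p e S v + c * LamG p e S v' := by
  classical
  unfold LamG
  rw [b.bas_add]
  by_cases hs : ∑ i ∈ S, sg p e i = 0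
  · rw [if_pos hs, if_pos hs, if_pos hs, Finset.mul_sum, ← Finset.sum_add_distrib]
    exact Finset.sum_congr rfl (fun i _ => by ring)
  · rw [if_neg hs, if_neg hs, if_neg hs, Finset.mul_sum, ← Finset.sum_add_distrib]
    exact Finset.sum_congr rfl (fun i _ => by ring)

theorem Lam_const {v : Fin m → ZMod 3} (hv : ∃ c, ∀ i, v i = c) : LamG p e S v = 0 := by
  classical
  obtain ⟨c, hc⟩ := hv
  unfold LamG
  by_cases hs : ∑ i ∈ S, sg p e i = 0
  · rw [if_pos hs]
    have : ∑ i ∈ S, sg p e i * v i = c * ∑ i ∈ S, sg p e i := by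
      rw [Finset.mul_sum]
      exact Finset.sum_congr rfl (fun i _ => by rw [hc i]; ring)
    rw [this, hs, mul_zero]
  · rw [if_neg hs]
    by_cases h3 : ∃ i3, p i3 = 3
    · obtain ⟨i3, h3⟩ := h3
      rw [bas_of b.h.inj h3]
      exact Finset.sum_eq_zero (fun i _ => by rw [hc i, hc i3]; ring)
    · push Not at h3
      obtain ⟨hW, hW', f1, f2, f3⟩ := b.noThree h3 hs
      rw [bas_no h3]
      have e3 : ∑ i ∈ Sᶜ, sg p e i = 0 := by
        have := sum_split (sg p e) S
        rw [f1] at this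
        unfold tg at this
        linear_combination -this
      have : ∑ i ∈ Sᶜ, sg p e i * (v i - 0) = c * ∑ i ∈ Sᶜ, sg p e i := by
        rw [Finset.mul_sum]
        exact Finset.sum_congr rfl (fun i _ => by rw [hc i]; ring)
      rw [this, e3, mul_zero]

theorem bas_ind : bas p (ind S) = 0 := by
  unfold bas ind
  refine Finset.sum_eq_zero (fun i _ => ?_)
  by_cases h : p i = 3
  · rw [if_pos h, if_neg (b.i3_out h)]
  · rw [if_neg h]

theorem Lam_ind : LamG p e S (ind S) = 0 := by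
  classical
  unfold LamG
  rw [b.bas_ind]
  by_cases hs : ∑ i ∈ S, sg p e i = 0
  · rw [if_pos hs]
    rw [← hs]
    refine Finset.sum_congr rfl (fun i hi => ?_)
    unfold ind; rw [if_pos hi, mul_one]
  · rw [if_neg hs]
    refine Finset.sum_eq_zero (fun i hi => ?_)
    unfold ind; rw [if_neg (Finset.mem_compl.mp hi)]; ring

/-- (3), general form -/
theorem law_three' {v v' : Fin m → ZMod 3} {c d : ZMod 3} (hv : Rep p e v) (hv' : Rep p e' v')
    (hvv : ∀ i, v' i = if i ∈ S then c - v i else v i + d) : LamG p e S v = 0 := by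
  have k1 := rep_shift hv (2 * (1 - c + d))
  have k2 := rep_shift hv' (2 * (1 - c + d) - d)
  have k3 := b.law_three k1 k2 (by
    intro i
    simp only [hvv i]
    split_ifs
    · linear_combination (1 - c + d) * three_zmod
    · ring)
  have k4 := b.Lam_add v (fun _ => 2 * (1 - c + d)) 1
  rw [b.Lam_const ⟨_, fun _ => rfl⟩, mul_zero, add_zero] at k4
  rw [← k4]
  simpa only [one_mul] using k3

end PairG

end Pool.Agent.CubeRank

end

section

/-!
# The bound for the number of generators (M8)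
-/

set_option autoImplicit false

namespace Pool.Agent.CubeRank

open Pool.Agent.Lib_helper18 Pool.Agent.Lib_helper18.Eis Pool.Agent.Lib_helper84.Cub

variable {m : ℕ} {p e e' : Fin m → ℕ} {S : Finset (Fin m)}

theorem kapEx' : KapExStmt := kapEx basics lift

theorem kapAdd' : KapAddStmt := kapAdd basics coll kapEx'

theorem kapRep' : KapRepStmt := kapRep basics lift triple

theorem gen' : GenStmt := gen basics chord triple (growth triple)

/-- the classes of the points -/
def UU {m : ℕ} (p e : Fin m → ℕ) (v : Fin m → ZMod 3) : Prop := ∃ P : GA (AA p e), Kap p e P v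

theorem U_const (p e : Fin m → ℕ) (c : ZMod 3) : UU p e (fun _ => c) :=
  ⟨0, Or.inl ⟨rfl, c, fun _ => rfl⟩⟩

theorem U_add (hm : 1 ≤ m) (h : Hyp p e) {v v' : Fin m → ZMod 3} (hv : UU p e v)
    (hv' : UU p e v') : UU p e (v + v') := by
  obtain ⟨P, hP⟩ := hv
  obtain ⟨Q, hQ⟩ := hv'
  exact ⟨P + Q, kapAdd' m p e hm h P Q v v' hP hQ⟩

theorem U_smul (hm : 1 ≤ m) (h : Hyp p e) {v : Fin m → ZMod 3} (hv : UU p e v) (c : ZMod 3) :
    UU p e (fun i => c * v i) := by
  have h3 : c = 0 ∨ c = 1 ∨ c = 2 := by revert c; decide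
  rcases h3 with rfl | rfl | rfl
  · have := U_const p e 0
    simpa using this
  · simpa using hv
  · have := U_add hm h hv hv
    have e1 : v + v = fun i => 2 * v i := by funext i; simp only [Pi.add_apply]; ring
    rwa [e1] at this

theorem kap_zero {v : Fin m → ZMod 3} (h : Kap p e 0 v) : ∃ c, ∀ i, v i = c := by
  rcases h with ⟨-, h⟩ | ⟨a, b, c, γ, t1, t2, hC, -⟩
  · exact h
  · obtain ⟨-, -, -, x, y, hn, h0, -⟩ := hC
    exact absurd h0 (by simp)

theorem kap_diff (hm : 1 ≤ m) (h : Hyp p e) {P Q : GA (AA p e)} {v v' : Fin m → ZMod 3}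
    (hP : Kap p e P v) (hQ : Kap p e Q v') (hc : ∃ c, ∀ i, v i = v' i + c) :
    P - Q ∈ threeMul (AA p e) := by
  obtain ⟨v'', h''⟩ := kapEx' m p e hm h (-Q)
  have h1 := kapAdd' m p e hm h Q (-Q) v' v'' hQ h''
  rw [add_neg_cancel] at h1
  obtain ⟨d, hd⟩ := kap_zero h1
  obtain ⟨c, hc⟩ := hc
  have h2 := kapAdd' m p e hm h P (-Q) v v'' hP h''
  have h3 := (kapRep' m p e hm h _ _ h2).1 ⟨c + d, fun i => by
    have := hd i
    simp only [Pi.add_apply] at this ⊢
    rw [hc i]; linear_combination this⟩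
  rwa [sub_eq_add_neg]

theorem AA_big (hm : 3 ≤ m) (h : Hyp p e) : 3 ≤ (AA p e).natAbs := by
  have h1 : (8 : ℤ) ≤ AA p e := by
    have h2 : ∀ i, (2 : ℤ) ≤ (p i : ℤ) ^ e i := by
      intro i
      have h3 : (2 : ℤ) ≤ p i := by exact_mod_cast (h.hp i).two_le
      have h4 := h.he i
      rcases h4 with h4 | h4 <;> rw [h4] <;> nlinarith
    have h5 : (∏ _i : Fin m, (2 : ℤ)) ≤ ∏ i, (p i : ℤ) ^ e i :=
      Finset.prod_le_prod (fun _ _ => by norm_num) (fun i _ => h2 i)
    rw [Finset.prod_const, Finset.card_univ, Fintype.card_fin] at h5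
    calc (8 : ℤ) = 2 ^ 3 := by norm_num
      _ ≤ 2 ^ m := pow_le_pow_right₀ (by norm_num) hm
      _ ≤ _ := h5
  omega

/-- few classes give few generators -/
theorem gen_of_card (hm : 3 ≤ m) (h : Hyp p e) (d : ℕ)
    (hc : Nat.card {v // UU p e v} ≤ 3 ^ (d + 1)) : GenBy (AA p e) d := by
  classical
  have hm1 : 1 ≤ m := by omega
  have i0 : Fin m := ⟨0, by omega⟩
  choose vv hvv using kapEx' m p e hm1 h
  set T := threeMul (AA p e) with hT
  let F : (GA (AA p e) ⧸ T) × ZMod 3 → {v // UU p e v} := fun x =>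
    ⟨vv (Quotient.out x.1) + fun _ => x.2, U_add hm1 h ⟨_, hvv _⟩ (U_const p e x.2)⟩
  have hF : Function.Injective F := by
    rintro ⟨g, c⟩ ⟨g', c'⟩ hgg
    have h1 : ∀ i, vv (Quotient.out g) i + c = vv (Quotient.out g') i + c' := by
      intro i
      exact congrFun (congrArg Subtype.val hgg) i
    have h2 := kap_diff hm1 h (hvv (Quotient.out g)) (hvv (Quotient.out g'))
      ⟨c' - c, fun i => by linear_combination h1 i⟩
    have h3 : g = g' := by
      have e1 : (QuotientAddGroup.mk (Quotient.out g') : GA (AA p e) ⧸ T) =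
          QuotientAddGroup.mk (Quotient.out g) := by
        rw [QuotientAddGroup.eq]
        rw [neg_add_eq_sub]
        exact h2
      have e2 : (QuotientAddGroup.mk (Quotient.out g) : GA (AA p e) ⧸ T) = g := Quotient.out_eq g
      have e3 : (QuotientAddGroup.mk (Quotient.out g') : GA (AA p e) ⧸ T) = g' := Quotient.out_eq g'
      rw [← e2, ← e3, e1]
    subst h3
    have h4 := h1 i0
    exact Prod.ext rfl (add_left_cancel h4)
  have hfin : Finite ((GA (AA p e) ⧸ T) × ZMod 3) := Finite.of_injective F hF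
  have hfinq : Finite (GA (AA p e) ⧸ T) :=
    Finite.of_injective (fun g => ((g, 0) : (GA (AA p e) ⧸ T) × ZMod 3))
      (fun a b hab => congrArg Prod.fst hab)
  have hcard := Nat.card_le_card_of_injective F hF
  rw [Nat.card_prod, Nat.card_zmod] at hcard
  have hidx : T.index ≤ 3 ^ d := by
    have : T.index * 3 ≤ 3 ^ d * 3 := by
      rw [← pow_succ]
      exact hcard.trans hc
    exact Nat.le_of_mul_le_mul_right this (by norm_num)
  have hfi : T.FiniteIndex := AddSubgroup.finiteIndex_of_finite_quotient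
  exact gen' (AA p e) (cubeFree_AA h) (AA_big hm h) d hfi hidx

/-! ### linear algebra -/

/-- the space of possible classes -/
def EE {m : ℕ} (p e : Fin m → ℕ) (v : Fin m → ZMod 3) : Prop :=
  tw p e = 0 → ∑ i, sw p e i * v i = 0

theorem U_rep (hm : 1 ≤ m) (h : Hyp p e) {v : Fin m → ZMod 3} (hv : UU p e v)
    (hc : ¬ ∃ c, ∀ i, v i = c) : Rep p e v := by
  obtain ⟨P, hP⟩ := hv
  exact (kapRep' m p e hm h P v hP).2 hc

theorem U_sub_E (hm : 1 ≤ m) (h : Hyp p e) {v : Fin m → ZMod 3} (hv : UU p e v) : EE p e v := by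
  intro hW
  by_cases hc : ∃ c, ∀ i, v i = c
  · obtain ⟨c, hc⟩ := hc
    have : ∑ i, sw p e i * v i = c * tw p e := by
      rw [tw, Finset.mul_sum]
      exact Finset.sum_congr rfl (fun i _ => by rw [hc i]; ring)
    rw [this, hW, mul_zero]
  · obtain ⟨x, hx⟩ := U_rep hm h hv hc
    obtain ⟨o, -, ho, -⟩ := info h.h9 hx
    simp only [zf_cast] at ho
    rw [ho, hW, mul_zero]

theorem sw_ne (h : Hyp p e) (i : Fin m) : sw p e i ≠ 0 :=
  mul_ne_zero (zmod_ne (h.he i)) (wq_ne (h.h9 i))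

/-- many classes: every element is a class up to a multiple of `D` -/
theorem exists_class (hm : 1 ≤ m) (h : Hyp p e) {D : Fin m → ZMod 3} (hDE : EE p e D)
    (hD : ¬ UU p e D) (hcard : Nat.card {v // EE p e v} < 9 * Nat.card {v // UU p e v})
    {v : Fin m → ZMod 3} (hv : EE p e v) : ∃ c : ZMod 3, UU p e (fun i => v i + c * D i) := by
  classical
  by_contra hcon
  push Not at hcon
  let F : {v // UU p e v} × ZMod 3 × ZMod 3 → {v // EE p e v} := fun x =>
    ⟨fun i => x.1.1 i + x.2.1 * v i + x.2.2 * D i, fun hW => by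
      have e1 : ∑ i, sw p e i * (x.1.1 i + x.2.1 * v i + x.2.2 * D i) =
          ∑ i, sw p e i * x.1.1 i + x.2.1 * ∑ i, sw p e i * v i +
            x.2.2 * ∑ i, sw p e i * D i := by
        rw [Finset.mul_sum, Finset.mul_sum, ← Finset.sum_add_distrib, ← Finset.sum_add_distrib]
        exact Finset.sum_congr rfl (fun i _ => by ring)
      rw [e1, U_sub_E hm h x.1.2 hW, hv hW, hDE hW]
      ring⟩
  have hF : Function.Injective F := by
    rintro ⟨⟨u, hu⟩, a, b⟩ ⟨⟨u', hu'⟩, a', b'⟩ hh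
    have h1 : ∀ i, u i + a * v i + b * D i = u' i + a' * v i + b' * D i := by
      intro i
      exact congrFun (congrArg Subtype.val hh) i
    have hdiff : UU p e (fun i => u' i + 2 * u i) := by
      have := U_add hm h hu' (U_smul hm h hu 2)
      exact this
    have hinv : ∀ z : ZMod 3, z ≠ 0 → z * z = 1 := by decide
    have ha : a = a' := by
      by_contra hne
      have hz : a - a' ≠ 0 := sub_ne_zero.mpr hne
      have h5 := U_smul hm h hdiff (a - a')
      apply hcon ((a - a') * (b - b'))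
      have e2 : (fun i => (a - a') * (u' i + 2 * u i)) =
          fun i => v i + (a - a') * (b - b') * D i := by
        funext i
        have h6 := hinv _ hz
        linear_combination (-(a - a')) * h1 i + (v i) * h6 +
          ((a - a') * u i) * three_zmod
      rwa [e2] at h5
    subst ha
    have hb : b = b' := by
      by_contra hne
      have hz : b - b' ≠ 0 := sub_ne_zero.mpr hne
      have h5 := U_smul hm h hdiff (b - b')
      apply hD
      have e2 : (fun i => (b - b') * (u' i + 2 * u i)) = D := by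
        funext i
        have h6 := hinv _ hz
        linear_combination (-(b - b')) * h1 i + (D i) * h6 +
          ((b - b') * u i) * three_zmod
      rwa [e2] at h5
    subst hb
    have hu : u = u' := by
      funext i
      linear_combination h1 i
    subst hu
    rfl
  have := Nat.card_le_card_of_injective F hF
  rw [Nat.card_prod, Nat.card_prod, Nat.card_zmod] at this
  omega

theorem card_all (m : ℕ) : Nat.card (Fin m → ZMod 3) = 3 ^ m := by
  rw [Nat.card_fun, Nat.card_zmod, Nat.card_eq_fintype_card, Fintype.card_fin]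

theorem card_E (p e : Fin m → ℕ) : Nat.card {v // EE p e v} ≤ 3 ^ m := by
  rw [← card_all m]
  exact Nat.card_le_card_of_injective (fun v : {v // EE p e v} => v.1) Subtype.val_injective

theorem card_E_zero (hm : 1 ≤ m) (h : Hyp p e) (hW : tw p e = 0) :
    3 * Nat.card {v // EE p e v} ≤ 3 ^ m := by
  classical
  have i0 : Fin m := ⟨0, by omega⟩
  let F : ZMod 3 × {v // EE p e v} → (Fin m → ZMod 3) := fun x i =>
    x.2.1 i + if i = i0 then x.1 * sw p e i0 else 0
  have hF : Function.Injective F := by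
    rintro ⟨a, ⟨u, hu⟩⟩ ⟨a', ⟨u', hu'⟩⟩ hh
    have h1 : ∀ i, u i + (if i = i0 then a * sw p e i0 else 0) =
        u' i + (if i = i0 then a' * sw p e i0 else 0) := fun i => congrFun hh i
    have key : ∀ (a : ZMod 3) (u : Fin m → ZMod 3), EE p e u →
        ∑ i, sw p e i * (u i + (if i = i0 then a * sw p e i0 else 0)) = a := by
      intro a u hu
      have e1 : ∀ i, sw p e i * (u i + (if i = i0 then a * sw p e i0 else 0)) =
          sw p e i * u i + if i = i0 then a * (sw p e i0 * sw p e i0) else 0 := by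
        intro i
        split_ifs with hi
        · subst hi; ring
        · ring
      have hinv : ∀ z : ZMod 3, z ≠ 0 → z * z = 1 := by decide
      rw [Finset.sum_congr rfl (fun i _ => e1 i), Finset.sum_add_distrib, hu hW, zero_add,
        Finset.sum_ite_eq' Finset.univ i0, if_pos (Finset.mem_univ _), hinv _ (sw_ne h i0),
        mul_one]
    have ha : a = a' := by
      rw [← key a u hu, ← key a' u' hu']
      exact Finset.sum_congr rfl (fun i _ => by rw [h1 i])
    subst ha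
    have : u = u' := by
      funext i
      exact add_right_cancel (h1 i)
    subst this
    rfl
  have := Nat.card_le_card_of_injective F hF
  rwa [Nat.card_prod, Nat.card_zmod, card_all] at this

/-! ### the contradiction -/

theorem Lam_add (v v' : Fin m → ZMod 3) (c : ZMod 3) :
    Lam p e S (fun i => v i + c * v' i) = Lam p e S v + c * Lam p e S v' := by
  unfold Lam
  have e1 : ∀ T : Finset (Fin m), ∑ i ∈ T, sw p e i * (v i + c * v' i) =
      ∑ i ∈ T, sw p e i * v i + c * ∑ i ∈ T, sw p e i * v' i := by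
    intro T
    rw [Finset.mul_sum, ← Finset.sum_add_distrib]
    exact Finset.sum_congr rfl (fun i _ => by ring)
  rw [e1, e1]; ring

/-- the standing hypotheses on the pair -/
structure Pair {m : ℕ} (p e e' : Fin m → ℕ) (S : Finset (Fin m)) : Prop where
  h : Hyp p e
  h' : Hyp p e'
  hS : ∀ i, i ∈ S ↔ e i ≠ e' i
  ne : S.Nonempty
  nu : S ≠ Finset.univ
  tww : (tw p e ≠ 0 ∧ tw p e' ≠ 0) ∨ (tw p e = 0 ∧ tw p e' = 0)

theorem Pair.symm (b : Pair p e e' S) : Pair p e' e S where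
  h := b.h'
  h' := b.h
  hS := fun i => by rw [b.hS i]; exact ne_comm
  ne := b.ne
  nu := b.nu
  tww := b.tww.imp And.symm And.symm

theorem Pair.base (b : Pair p e e' S) : BaseS p e e' S := base_of b.h b.h' b.hS

theorem sum_ind (f : Fin m → ZMod 3) (T : Finset (Fin m)) :
    ∑ i ∈ T, f i * ind S i = ∑ i ∈ T ∩ S, f i := by
  classical
  unfold ind
  simp only [mul_ite, mul_one, mul_zero]
  rw [← Finset.sum_filter, Finset.filter_mem_eq_inter]

theorem Pair.EE_ind (b : Pair p e e' S) : EE p e (ind S) := by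
  intro hW
  rw [sum_ind, Finset.univ_inter]
  have := tw_eq b.base
  rcases b.tww with ⟨h1, -⟩ | ⟨-, h2⟩
  · exact absurd hW h1
  · rw [h2, hW, zero_add] at this; exact this.symm

theorem Pair.Lam_ind (b : Pair p e e' S) : Lam p e S (ind S) = 0 := by
  unfold Lam
  rw [sum_ind, sum_ind, Finset.inter_self, Finset.univ_inter]
  have h3 := tw_eq b.base
  rcases b.tww with ⟨h1, h2⟩ | ⟨h1, h2⟩
  · by_cases hs : ∑ i ∈ S, sw p e i = 0
    · rw [hs]; ring
    · obtain ⟨f1, -, f3⟩ := z3_facts _ _ h1 (h3 ▸ h2) hs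
      rw [f1]; linear_combination (-(tw p e)) * f3
  · rw [h1, h2, zero_add] at h3
    rw [← h3]; ring

theorem Pair.Lam_const (b : Pair p e e' S) {v : Fin m → ZMod 3} (hv : ∃ c, ∀ i, v i = c) :
    Lam p e S v = 0 := by
  obtain ⟨c, hc⟩ := hv
  have h1 := Lam_shift b.h b.h' b.hS b.tww (fun _ => 0) c
  have e1 : v = fun _ => (0 : ZMod 3) + c := by funext i; rw [hc i, zero_add]
  rw [e1, h1]
  unfold Lam
  simp

/-- the indicator is not constant -/
theorem Pair.ind_nc (b : Pair p e e' S) : ¬ ∃ c, ∀ i, ind S i = c := by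
  rintro ⟨c, hc⟩
  obtain ⟨i0, hi0⟩ := b.ne
  obtain ⟨i2, hi2⟩ : ∃ i, i ∉ S := by
    by_contra hcon
    push Not at hcon
    exact b.nu (Finset.eq_univ_iff_forall.mpr hcon)
  have h1 := hc i0
  have h2 := hc i2
  unfold ind at h1 h2
  rw [if_pos hi0] at h1
  rw [if_neg hi2] at h2
  rw [← h2] at h1
  exact absurd h1 (by decide)


theorem Pair.one (b : Pair p e e' S) (hm : 1 ≤ m) (h1 : UU p e (ind S)) (h2 : UU p e' (ind S)) :
    False :=
  (law m p e e' S b.h b.h' b.hS b.ne b.nu b.tww).1 ⟨U_rep hm b.h h1 b.ind_nc, U_rep hm b.h' h2 b.ind_nc⟩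

theorem Pair.two (b : Pair p e e' S) (hm : 1 ≤ m) (h2 : UU p e' (ind S)) {v : Fin m → ZMod 3}
    (hv : UU p e v) : Lam p e S v = 0 := by
  by_cases hc : ∃ c, ∀ i, v i = c
  · exact b.Lam_const hc
  · exact (law m p e e' S b.h b.h' b.hS b.ne b.nu b.tww).2.1 (U_rep hm b.h' h2 b.ind_nc) v (U_rep hm b.h hv hc)

theorem Pair.three (b : Pair p e e' S) (hm : 1 ≤ m) {v v' : Fin m → ZMod 3} {c d : ZMod 3}
    (hv : UU p e v) (hv' : UU p e' v') (hvv : ∀ i, v' i = if i ∈ S then c - v i else v i + d) :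
    Lam p e S v = 0 := by
  by_cases hc : ∃ c, ∀ i, v i = c
  · exact b.Lam_const hc
  · by_cases hc' : ∃ c, ∀ i, v' i = c
    · obtain ⟨f, hf⟩ := hc'
      -- v = const + multiple of the indicator
      have e1 : v = fun i => (f - d) + (c - f - (f - d)) * ind S i := by
        funext i
        have h1 := hvv i
        rw [hf i] at h1
        unfold ind
        split_ifs at h1 ⊢
        · linear_combination h1
        · linear_combination -h1
      rw [e1, Lam_add, b.Lam_const ⟨f - d, fun _ => rfl⟩, b.Lam_ind]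
      ring
    · exact (law m p e e' S b.h b.h' b.hS b.ne b.nu b.tww).2.2 v v' c d (U_rep hm b.h hv hc) (U_rep hm b.h' hv' hc') hvv

/-- `Lam` is nonzero on the space of possible classes -/
theorem Pair.nonzero (b : Pair p e e' S) : ∃ v, EE p e v ∧ Lam p e S v ≠ 0 := by
  classical
  obtain ⟨i0, hi0⟩ := b.ne
  obtain ⟨i2, hi2⟩ : ∃ i, i ∉ S := by
    by_contra hcon
    push Not at hcon
    exact b.nu (Finset.eq_univ_iff_forall.mpr hcon)
  have hinv : ∀ z : ZMod 3, z ≠ 0 → z * z = 1 := by decide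
  have h02 : i0 ≠ i2 := fun h => hi2 (h ▸ hi0)
  let v : Fin m → ZMod 3 := fun i =>
    if i = i0 then sw p e i0 else if i = i2 then - sw p e i2 else 0
  have key : ∀ T : Finset (Fin m), ∑ i ∈ T, sw p e i * v i =
      (if i0 ∈ T then 1 else 0) - (if i2 ∈ T then 1 else 0) := by
    intro T
    have e1 : ∀ i, sw p e i * v i = (if i = i0 then 1 else 0) - (if i = i2 then 1 else 0) := by
      intro i
      simp only [v]
      by_cases h1 : i = i0
      · subst h1
        rw [if_pos rfl, if_pos rfl, if_neg h02, hinv _ (sw_ne b.h _)]; ring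
      · rw [if_neg h1, if_neg h1]
        by_cases h2 : i = i2
        · subst h2
          rw [if_pos rfl, if_pos rfl]
          linear_combination -(hinv _ (sw_ne b.h i))
        · rw [if_neg h2, if_neg h2]; ring
    rw [Finset.sum_congr rfl (fun i _ => e1 i), Finset.sum_sub_distrib, Finset.sum_ite_eq',
      Finset.sum_ite_eq']
  refine ⟨v, fun _ => ?_, ?_⟩
  · rw [key]; simp
  · unfold Lam
    rw [key, key, if_pos hi0, if_neg hi2]
    simp

/-- **both groups cannot be large** -/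
theorem Pair.main (b : Pair p e e' S) (hm : 1 ≤ m)
    (h1 : Nat.card {v // EE p e v} < 9 * Nat.card {v // UU p e v})
    (h2 : Nat.card {v // EE p e' v} < 9 * Nat.card {v // UU p e' v}) : False := by
  -- it suffices that `Lam` vanishes on the classes of `e` and `D` is not one of them
  have fin : ∀ {e e' : Fin m → ℕ}, Pair p e e' S →
      Nat.card {v // EE p e v} < 9 * Nat.card {v // UU p e v} →
      ¬ UU p e (ind S) → (∀ v, UU p e v → Lam p e S v = 0) → False := by
    intro e e' b h1 hD hL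
    obtain ⟨v, hv, hne⟩ := b.nonzero
    obtain ⟨c, hc⟩ := exists_class hm b.h b.EE_ind hD h1 hv
    have h3 := hL _ hc
    rw [Lam_add, b.Lam_ind, mul_zero, add_zero] at h3
    exact hne h3
  by_cases hD' : UU p e' (ind S)
  · exact fin b h1 (fun hD => b.one hm hD hD') (fun v hv => b.two hm hD' hv)
  by_cases hD : UU p e (ind S)
  · exact fin b.symm h2 hD' (fun v hv => b.symm.two hm hD hv)
  refine fin b h1 hD (fun v hv => ?_)
  -- the reflected vector
  have hE : EE p e' (fun i => if i ∈ S then - v i else v i) := by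
    intro hW'
    have hW : tw p e = 0 := by
      rcases b.tww with ⟨-, h⟩ | ⟨h, -⟩
      · exact absurd hW' h
      · exact h
    have h3 := U_sub_E hm b.h hv hW
    rw [← h3]
    refine Finset.sum_congr rfl (fun i _ => ?_)
    beta_reduce
    split_ifs with hi
    · rw [sw_in b.base hi]; ring
    · rw [sw_out b.base hi]
  obtain ⟨c, hc⟩ := exists_class hm b.h' b.symm.EE_ind hD' h2 hE
  refine b.three hm (c := c) (d := 0) hv hc (fun i => ?_)
  unfold ind
  by_cases hi : i ∈ S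
  · rw [if_pos hi, if_pos hi, if_pos hi]; ring
  · rw [if_neg hi, if_neg hi, if_neg hi]; ring

/-- **the main theorem** -/
theorem main : MainStmt := by
  intro m p e e' hm h h' hne heq
  classical
  have hm1 : 1 ≤ m := by omega
  let S : Finset (Fin m) := Finset.univ.filter (fun i => e i ≠ e' i)
  have hS : ∀ i, i ∈ S ↔ e i ≠ e' i := fun i => by simp [S]
  have hSne : S.Nonempty := by
    obtain ⟨i, hi⟩ := Function.ne_iff.mp hne
    exact ⟨i, (hS i).mpr hi⟩
  have hSnu : S ≠ Finset.univ := by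
    obtain ⟨i, hi⟩ := heq
    intro h
    have := Finset.mem_univ i
    rw [← h] at this
    exact (hS i).mp this hi
  constructor
  · intro hW hW'
    have b : Pair p e e' S := ⟨h, h', hS, hSne, hSnu, Or.inl ⟨hW, hW'⟩⟩
    by_contra hcon
    push Not at hcon
    obtain ⟨c1, c2⟩ := hcon
    have hpow : 3 ^ m = 9 * 3 ^ (m - 3 + 1) := by
      obtain ⟨k, rfl⟩ := Nat.exists_eq_add_of_le hm
      have : 3 + k - 3 + 1 = k + 1 := by omega
      rw [this]; ring
    have g : ∀ {e : Fin m → ℕ}, Hyp p e → ¬ GenBy (AA p e) (m - 3) →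
        Nat.card {v // EE p e v} < 9 * Nat.card {v // UU p e v} := by
      intro e h hc
      have h1 : ¬ Nat.card {v // UU p e v} ≤ 3 ^ (m - 3 + 1) := fun h1 =>
        hc (gen_of_card hm h _ h1)
      have h2 := card_E p e
      rw [hpow] at h2
      omega
    exact b.main hm1 (g h c1) (g h' c2)
  · intro hW hW'
    have b : Pair p e e' S := ⟨h, h', hS, hSne, hSnu, Or.inr ⟨hW, hW'⟩⟩
    by_contra hcon
    push Not at hcon
    obtain ⟨c1, c2⟩ := hcon
    have hpow : 3 ^ m ≤ 27 * 3 ^ (m - 4 + 1) := by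
      have h1 : m ≤ 3 + (m - 4 + 1) := by omega
      calc 3 ^ m ≤ 3 ^ (3 + (m - 4 + 1)) := Nat.pow_le_pow_right (by norm_num) h1
        _ = 27 * 3 ^ (m - 4 + 1) := by rw [pow_add]; norm_num
    have g : ∀ {e : Fin m → ℕ}, Hyp p e → tw p e = 0 → ¬ GenBy (AA p e) (m - 4) →
        Nat.card {v // EE p e v} < 9 * Nat.card {v // UU p e v} := by
      intro e h hW hc
      have h1 : ¬ Nat.card {v // UU p e v} ≤ 3 ^ (m - 4 + 1) := fun h1 =>
        hc (gen_of_card hm h _ h1)
      have h2 := card_E_zero hm1 h hW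
      omega
    exact b.main hm1 (g h hW c1) (g h' hW' c2)

end Pool.Agent.CubeRank

end

section

/-!
# The bound for the number of generators, general version
-/

set_option autoImplicit false

namespace Pool.Agent.CubeRank

open Pool.Agent.Lib_helper18 Pool.Agent.Lib_helper18.Eis Pool.Agent.Lib_helper84.Cub

variable {m : ℕ} {p e e' : Fin m → ℕ} {S : Finset (Fin m)}

theorem kapExG' : KapExStmtG := kapExG basics liftG

theorem kapAddG' : KapAddStmtG := kapAddG basics coll kapExG'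

theorem kapRepG' : KapRepStmtG := kapRepG basics liftG triple

/-- the classes of the points -/
def UG {m : ℕ} (p e : Fin m → ℕ) (v : Fin m → ZMod 3) : Prop := ∃ P : GA (AA p e), KapG p e P v

theorem UG_const (p e : Fin m → ℕ) (c : ZMod 3) : UG p e (fun _ => c) :=
  ⟨0, Or.inl ⟨rfl, c, fun _ => rfl⟩⟩

theorem UG_add (h : HypG p e) {v v' : Fin m → ZMod 3} (hv : UG p e v)
    (hv' : UG p e v') : UG p e (v + v') := by
  obtain ⟨P, hP⟩ := hv
  obtain ⟨Q, hQ⟩ := hv'
  exact ⟨P + Q, kapAddG' m p e h P Q v v' hP hQ⟩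

theorem UG_smul (h : HypG p e) {v : Fin m → ZMod 3} (hv : UG p e v) (c : ZMod 3) :
    UG p e (fun i => c * v i) := by
  have h3 : c = 0 ∨ c = 1 ∨ c = 2 := by revert c; decide
  rcases h3 with rfl | rfl | rfl
  · have := UG_const p e 0
    simpa using this
  · simpa using hv
  · have := UG_add h hv hv
    have e1 : v + v = fun i => 2 * v i := by funext i; simp only [Pi.add_apply]; ring
    rwa [e1] at this

theorem kapG_zero {v : Fin m → ZMod 3} (h : KapG p e 0 v) : ∃ c, ∀ i, v i = c := by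
  rcases h with ⟨-, h⟩ | ⟨a, b, c, γ, t1, t2, hC, -⟩
  · exact h
  · obtain ⟨-, -, -, x, y, hn, h0, -⟩ := hC
    exact absurd h0 (by simp)

theorem kapG_diff (h : HypG p e) {P Q : GA (AA p e)} {v v' : Fin m → ZMod 3}
    (hP : KapG p e P v) (hQ : KapG p e Q v') (hc : ∃ c, ∀ i, v i = v' i + c) :
    P - Q ∈ threeMul (AA p e) := by
  obtain ⟨v'', h''⟩ := kapExG' m p e h (-Q)
  have h1 := kapAddG' m p e h Q (-Q) v' v'' hQ h''
  rw [add_neg_cancel] at h1
  obtain ⟨d, hd⟩ := kapG_zero h1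
  obtain ⟨c, hc⟩ := hc
  have h2 := kapAddG' m p e h P (-Q) v v'' hP h''
  have h3 := (kapRepG' m p e h _ _ h2).1 ⟨c + d, fun i => by
    have := hd i
    simp only [Pi.add_apply] at this ⊢
    rw [hc i]; linear_combination this⟩
  rwa [sub_eq_add_neg]

theorem AA_bigG (hm : 2 ≤ m) (h : HypG p e) : 3 ≤ (AA p e).natAbs := by
  have h1 : (4 : ℤ) ≤ AA p e := by
    have h2 : ∀ i, (2 : ℤ) ≤ (p i : ℤ) ^ e i := by
      intro i
      have h3 : (2 : ℤ) ≤ p i := by exact_mod_cast (h.hp i).two_le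
      have h4 := h.he i
      rcases h4 with h4 | h4 <;> rw [h4] <;> nlinarith
    have h5 : (∏ _i : Fin m, (2 : ℤ)) ≤ ∏ i, (p i : ℤ) ^ e i :=
      Finset.prod_le_prod (fun _ _ => by norm_num) (fun i _ => h2 i)
    rw [Finset.prod_const, Finset.card_univ, Fintype.card_fin] at h5
    calc (4 : ℤ) = 2 ^ 2 := by norm_num
      _ ≤ 2 ^ m := pow_le_pow_right₀ (by norm_num) hm
      _ ≤ _ := h5
  omega

/-- few classes give few generators -/
theorem gen_of_cardG (hm : 2 ≤ m) (h : HypG p e) (d : ℕ)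
    (hc : Nat.card {v // UG p e v} ≤ 3 ^ (d + 1)) : GenBy (AA p e) d := by
  classical
  have i0 : Fin m := ⟨0, by omega⟩
  choose vv hvv using kapExG' m p e h
  set T := threeMul (AA p e) with hT
  let F : (GA (AA p e) ⧸ T) × ZMod 3 → {v // UG p e v} := fun x =>
    ⟨vv (Quotient.out x.1) + fun _ => x.2, UG_add h ⟨_, hvv _⟩ (UG_const p e x.2)⟩
  have hF : Function.Injective F := by
    rintro ⟨g, c⟩ ⟨g', c'⟩ hgg
    have h1 : ∀ i, vv (Quotient.out g) i + c = vv (Quotient.out g') i + c' := by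
      intro i
      exact congrFun (congrArg Subtype.val hgg) i
    have h2 := kapG_diff h (hvv (Quotient.out g)) (hvv (Quotient.out g'))
      ⟨c' - c, fun i => by linear_combination h1 i⟩
    have h3 : g = g' := by
      have e1 : (QuotientAddGroup.mk (Quotient.out g') : GA (AA p e) ⧸ T) =
          QuotientAddGroup.mk (Quotient.out g) := by
        rw [QuotientAddGroup.eq]
        rw [neg_add_eq_sub]
        exact h2
      have e2 : (QuotientAddGroup.mk (Quotient.out g) : GA (AA p e) ⧸ T) = g := Quotient.out_eq g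
      have e3 : (QuotientAddGroup.mk (Quotient.out g') : GA (AA p e) ⧸ T) = g' := Quotient.out_eq g'
      rw [← e2, ← e3, e1]
    subst h3
    have h4 := h1 i0
    exact Prod.ext rfl (add_left_cancel h4)
  have hfin : Finite ((GA (AA p e) ⧸ T) × ZMod 3) := Finite.of_injective F hF
  have hfinq : Finite (GA (AA p e) ⧸ T) :=
    Finite.of_injective (fun g => ((g, 0) : (GA (AA p e) ⧸ T) × ZMod 3))
      (fun a b hab => congrArg Prod.fst hab)
  have hcard := Nat.card_le_card_of_injective F hF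
  rw [Nat.card_prod, Nat.card_zmod] at hcard
  have hidx : T.index ≤ 3 ^ d := by
    have : T.index * 3 ≤ 3 ^ d * 3 := by
      rw [← pow_succ]
      exact hcard.trans hc
    exact Nat.le_of_mul_le_mul_right this (by norm_num)
  have hfi : T.FiniteIndex := AddSubgroup.finiteIndex_of_finite_quotient
  exact gen' (AA p e) (cubeFree_AAG h) (AA_bigG hm h) d hfi hidx

/-! ### linear algebra -/

/-- the condition at 3 is not empty -/
def CondG {m : ℕ} (p e : Fin m → ℕ) : Prop :=
  ((∀ i, p i ≠ 3) ∧ tg p e = 0) ∨ ∃ i, p i = 3 ∧ e i = 2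

/-- the linear form of the condition at 3 -/
def psi {m : ℕ} (p e : Fin m → ℕ) (v : Fin m → ZMod 3) : ZMod 3 :=
  ∑ i, sg p e i * (v i - bas p v)

/-- the space of possible classes -/
def EEG {m : ℕ} (p e : Fin m → ℕ) (v : Fin m → ZMod 3) : Prop := CondG p e → psi p e v = 0

theorem bas_add' (p : Fin m → ℕ) (v v' : Fin m → ZMod 3) (c : ZMod 3) :
    bas p (fun i => v i + c * v' i) = bas p v + c * bas p v' := by
  unfold bas
  rw [Finset.mul_sum, ← Finset.sum_add_distrib]
  exact Finset.sum_congr rfl (fun i _ => by split_ifs <;> ring)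

theorem psi_add (p e : Fin m → ℕ) (v v' : Fin m → ZMod 3) (c : ZMod 3) :
    psi p e (fun i => v i + c * v' i) = psi p e v + c * psi p e v' := by
  unfold psi
  rw [bas_add', Finset.mul_sum, ← Finset.sum_add_distrib]
  exact Finset.sum_congr rfl (fun i _ => by ring)

theorem UG_rep (h : HypG p e) {v : Fin m → ZMod 3} (hv : UG p e v)
    (hc : ¬ ∃ c, ∀ i, v i = c) : Rep p e v := by
  obtain ⟨P, hP⟩ := hv
  exact (kapRepG' m p e h P v hP).2 hc

theorem UG_sub_E (h : HypG p e) {v : Fin m → ZMod 3} (hv : UG p e v) : EEG p e v := by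
  intro hW
  by_cases hc : ∃ c, ∀ i, v i = c
  · obtain ⟨c, hc⟩ := hc
    unfold psi
    rcases hW with ⟨h3, hW⟩ | ⟨i3, h3, -⟩
    · rw [bas_no h3]
      have : ∑ i, sg p e i * (v i - 0) = c * tg p e := by
        rw [tg, Finset.mul_sum]
        exact Finset.sum_congr rfl (fun i _ => by rw [hc i]; ring)
      rw [this, hW, mul_zero]
    · rw [bas_of h.inj h3]
      exact Finset.sum_eq_zero (fun i _ => by rw [hc i, hc i3]; ring)
  · obtain ⟨x, hx⟩ := UG_rep h hv hc
    unfold psi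
    rcases hW with ⟨h3, hW⟩ | ⟨i3, h3, he3⟩
    · obtain ⟨o, -, ho, -⟩ := infoG h.h3 h3 hx
      simp only [zf_cast] at ho
      rw [bas_no h3]
      simp only [sub_zero]
      rw [ho, hW, mul_zero]
    · rw [bas_of h.inj h3]
      have h5 := eps_eq (sg p e) (fun i => zf (v i)) (zf (v i3))
      simp only [zf_cast] at h5
      rw [h5]
      have key : ∀ z : Fin 3, z + 1 ≠ z ∧ z + 2 ≠ z ∧ z + 1 ≠ z + 2 := by decide
      obtain ⟨k1, k2, k3⟩ := key (zf (v i3))
      have := eps_nine h.h3 h.inj h3 he3 hx k1 k2 k3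
      unfold cwt at this
      rw [this, sub_self]

/-- many classes: every element is a class up to a multiple of `D` -/
theorem exists_classG (h : HypG p e) {D : Fin m → ZMod 3} (hDE : EEG p e D)
    (hD : ¬ UG p e D) (hcard : Nat.card {v // EEG p e v} < 9 * Nat.card {v // UG p e v})
    {v : Fin m → ZMod 3} (hv : EEG p e v) : ∃ c : ZMod 3, UG p e (fun i => v i + c * D i) := by
  classical
  by_contra hcon
  push Not at hcon
  let F : {v // UG p e v} × ZMod 3 × ZMod 3 → {v // EEG p e v} := fun x =>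
    ⟨fun i => (x.1.1 i + x.2.1 * v i) + x.2.2 * D i, fun hW => by
      rw [psi_add, psi_add, UG_sub_E h x.1.2 hW, hv hW, hDE hW]
      ring⟩
  have hF : Function.Injective F := by
    rintro ⟨⟨u, hu⟩, a, b⟩ ⟨⟨u', hu'⟩, a', b'⟩ hh
    have h1 : ∀ i, u i + a * v i + b * D i = u' i + a' * v i + b' * D i := by
      intro i
      exact congrFun (congrArg Subtype.val hh) i
    have hdiff : UG p e (fun i => u' i + 2 * u i) := by
      have := UG_add h hu' (UG_smul h hu 2)
      exact this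
    have hinv : ∀ z : ZMod 3, z ≠ 0 → z * z = 1 := by decide
    have ha : a = a' := by
      by_contra hne
      have hz : a - a' ≠ 0 := sub_ne_zero.mpr hne
      have h5 := UG_smul h hdiff (a - a')
      apply hcon ((a - a') * (b - b'))
      have e2 : (fun i => (a - a') * (u' i + 2 * u i)) =
          fun i => v i + (a - a') * (b - b') * D i := by
        funext i
        have h6 := hinv _ hz
        linear_combination (-(a - a')) * h1 i + (v i) * h6 +
          ((a - a') * u i) * three_zmod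
      rwa [e2] at h5
    subst ha
    have hb : b = b' := by
      by_contra hne
      have hz : b - b' ≠ 0 := sub_ne_zero.mpr hne
      have h5 := UG_smul h hdiff (b - b')
      apply hD
      have e2 : (fun i => (b - b') * (u' i + 2 * u i)) = D := by
        funext i
        have h6 := hinv _ hz
        linear_combination (-(b - b')) * h1 i + (D i) * h6 +
          ((b - b') * u i) * three_zmod
      rwa [e2] at h5
    subst hb
    have hu : u = u' := by
      funext i
      linear_combination h1 i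
    subst hu
    rfl
  have := Nat.card_le_card_of_injective F hF
  rw [Nat.card_prod, Nat.card_prod, Nat.card_zmod] at this
  omega

theorem card_EG (p e : Fin m → ℕ) : Nat.card {v // EEG p e v} ≤ 3 ^ m := by
  rw [← card_all m]
  exact Nat.card_le_card_of_injective (fun v : {v // EEG p e v} => v.1) Subtype.val_injective

theorem ex_sg (h : HypG p e) : ∃ i, p i ≠ 3 ∧ sg p e i ≠ 0 := by
  obtain ⟨i, hi⟩ := h.ex
  have h3 : p i ≠ 3 := by omega
  refine ⟨i, h3, ?_⟩
  unfold sg
  rw [if_neg h3]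
  exact mul_ne_zero (zmod_ne (h.he i)) (wq_ne hi)

theorem card_EG_zero (h : HypG p e) (hW : CondG p e) :
    3 * Nat.card {v // EEG p e v} ≤ 3 ^ m := by
  classical
  obtain ⟨i0, hi3, hi0⟩ := ex_sg h
  let D : Fin m → ZMod 3 := fun i => if i = i0 then sg p e i0 else 0
  have hD : psi p e D = 1 := by
    unfold psi
    have hb : bas p D = 0 := by
      unfold bas
      refine Finset.sum_eq_zero (fun i _ => ?_)
      split_ifs with h3
      · simp only [D]
        rw [if_neg]
        rintro rfl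
        exact hi3 h3
      · rfl
    rw [hb]
    have e1 : ∀ i, sg p e i * (D i - 0) = if i = i0 then sg p e i0 * sg p e i0 else 0 := by
      intro i
      simp only [D]
      split_ifs with hi
      · subst hi; ring
      · ring
    rw [Finset.sum_congr rfl (fun i _ => e1 i), Finset.sum_ite_eq' Finset.univ i0,
      if_pos (Finset.mem_univ _)]
    exact z3_sq1 _ hi0
  let F : ZMod 3 × {v // EEG p e v} → (Fin m → ZMod 3) := fun x i => x.2.1 i + x.1 * D i
  have hF : Function.Injective F := by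
    rintro ⟨a, ⟨u, hu⟩⟩ ⟨a', ⟨u', hu'⟩⟩ hh
    have h1 : (fun i => u i + a * D i) = fun i => u' i + a' * D i := hh
    have ha : a = a' := by
      have h2 := congrArg (psi p e) h1
      rw [psi_add, psi_add, hu hW, hu' hW, hD] at h2
      linear_combination h2
    subst ha
    have : u = u' := by
      funext i
      exact add_right_cancel (congrFun h1 i)
    subst this
    rfl
  have := Nat.card_le_card_of_injective F hF
  rwa [Nat.card_prod, Nat.card_zmod, card_all] at this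

/-! ### the contradiction -/

namespace PairG

variable (b : PairG p e e' S)

include b

theorem EE_ind : EEG p e (ind S) := by
  intro hW
  have hs : ∑ i ∈ S, sg p e i = 0 := by
    rcases hW with ⟨h3, hW⟩ | ⟨i3, h3, he3⟩
    · by_contra hs
      exact (b.noThree h3 hs).1 hW
    · by_contra hs
      have := (b.three h3 hs).1.e3
      omega
  unfold psi
  rw [b.bas_ind]
  simp only [sub_zero]
  rw [sum_ind, Finset.univ_inter]
  exact hs

theorem ind_nc : ¬ ∃ c, ∀ i, ind S i = c := by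
  rintro ⟨c, hc⟩
  obtain ⟨i0, hi0, -⟩ := b.inT
  obtain ⟨i2, hi2⟩ : ∃ i, i ∉ S := by
    rcases b.outT with ⟨i, hi, -⟩ | ⟨⟨i3, h3, -⟩, -⟩
    · exact ⟨i, hi⟩
    · exact ⟨i3, b.i3_out h3⟩
  have h1 := hc i0
  have h2 := hc i2
  unfold ind at h1 h2
  rw [if_pos hi0] at h1
  rw [if_neg hi2] at h2
  rw [← h2] at h1
  exact absurd h1 (by decide)

theorem one (h1 : UG p e (ind S)) (h2 : UG p e' (ind S)) : False :=
  b.law_one ⟨UG_rep b.h h1 b.ind_nc, UG_rep b.h' h2 b.ind_nc⟩

theorem two (h2 : UG p e' (ind S)) {v : Fin m → ZMod 3} (hv : UG p e v) : LamG p e S v = 0 := by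
  by_cases hc : ∃ c, ∀ i, v i = c
  · exact b.Lam_const hc
  · exact b.law_two (UG_rep b.h' h2 b.ind_nc) (UG_rep b.h hv hc)

theorem thr {v v' : Fin m → ZMod 3} {c d : ZMod 3}
    (hv : UG p e v) (hv' : UG p e' v') (hvv : ∀ i, v' i = if i ∈ S then c - v i else v i + d) :
    LamG p e S v = 0 := by
  by_cases hc : ∃ c, ∀ i, v i = c
  · exact b.Lam_const hc
  · by_cases hc' : ∃ c, ∀ i, v' i = c
    · obtain ⟨f, hf⟩ := hc'
      have e1 : v = fun i => (f - d) + (c - f - (f - d)) * ind S i := by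
        funext i
        have h1 := hvv i
        rw [hf i] at h1
        unfold ind
        split_ifs at h1 ⊢
        · linear_combination h1
        · linear_combination -h1
      rw [e1, b.Lam_add, b.Lam_const ⟨f - d, fun _ => rfl⟩, b.Lam_ind]
      ring
    · exact b.law_three' (UG_rep b.h hv hc) (UG_rep b.h' hv' hc') hvv

/-- `LamG` is nonzero on the space of possible classes -/
theorem nonzero : ∃ v, EEG p e v ∧ LamG p e S v ≠ 0 := by
  classical
  obtain ⟨i0, hi0, hw0⟩ := b.inT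
  have h30 : p i0 ≠ 3 := b.nS i0 hi0
  by_cases hex : ∃ i, i ∉ S ∧ sg p e i ≠ 0
  · obtain ⟨i2, hi2, hw2⟩ := hex
    have h32 : p i2 ≠ 3 := by
      intro h3
      apply hw2
      unfold sg; rw [if_pos h3]
    have h02 : i0 ≠ i2 := fun h => hi2 (h ▸ hi0)
    let v : Fin m → ZMod 3 := fun i =>
      if i = i0 then sg p e i0 else if i = i2 then - sg p e i2 else 0
    have hb : bas p v = 0 := by
      unfold bas
      refine Finset.sum_eq_zero (fun i _ => ?_)
      split_ifs with h3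
      · simp only [v]
        rw [if_neg, if_neg]
        · rintro rfl; exact h32 h3
        · rintro rfl; exact h30 h3
      · rfl
    have key : ∀ T : Finset (Fin m), ∑ i ∈ T, sg p e i * v i =
        (if i0 ∈ T then 1 else 0) - (if i2 ∈ T then 1 else 0) := by
      intro T
      have e1 : ∀ i, sg p e i * v i = (if i = i0 then 1 else 0) - (if i = i2 then 1 else 0) := by
        intro i
        simp only [v]
        by_cases h1 : i = i0
        · subst h1
          rw [if_pos rfl, if_pos rfl, if_neg h02, z3_sq1 _ hw0]; ring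
        · rw [if_neg h1, if_neg h1]
          by_cases h2 : i = i2
          · subst h2
            rw [if_pos rfl, if_pos rfl]
            linear_combination -(z3_sq1 _ hw2)
          · rw [if_neg h2, if_neg h2]; ring
      rw [Finset.sum_congr rfl (fun i _ => e1 i), Finset.sum_sub_distrib, Finset.sum_ite_eq',
        Finset.sum_ite_eq']
    refine ⟨v, fun _ => ?_, ?_⟩
    · unfold psi
      rw [hb]
      simp only [sub_zero]
      rw [key]; simp
    · unfold LamG
      rw [hb]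
      simp only [sub_zero]
      by_cases hs : ∑ i ∈ S, sg p e i = 0
      · rw [if_pos hs, key, if_pos hi0, if_neg hi2]; decide
      · rw [if_neg hs, key, if_neg (by simpa using hi0), if_pos (by simpa using hi2)]; decide
  · obtain ⟨⟨i3, h3, he3⟩, hs⟩ := b.outT.resolve_left hex
    let v : Fin m → ZMod 3 := fun i => if i = i0 then sg p e i0 else 0
    refine ⟨v, fun hW => ?_, ?_⟩
    · exfalso
      rcases hW with ⟨h4, -⟩ | ⟨i, h4, h5⟩
      · exact h4 i3 h3
      · have : i = i3 := b.h.inj (h4.trans h3.symm)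
        rw [this] at h5; omega
    · unfold LamG
      rw [if_pos hs]
      have e1 : ∀ i, sg p e i * v i = if i = i0 then 1 else 0 := by
        intro i
        simp only [v]
        by_cases h1 : i = i0
        · subst h1
          rw [if_pos rfl, if_pos rfl, z3_sq1 _ hw0]
        · rw [if_neg h1, if_neg h1, mul_zero]
      rw [Finset.sum_congr rfl (fun i _ => e1 i), Finset.sum_ite_eq', if_pos hi0]
      decide

/-- **both groups cannot be large** -/
theorem contra
    (h1 : Nat.card {v // EEG p e v} < 9 * Nat.card {v // UG p e v})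
    (h2 : Nat.card {v // EEG p e' v} < 9 * Nat.card {v // UG p e' v}) : False := by
  have fin : ∀ {e e' : Fin m → ℕ}, PairG p e e' S →
      Nat.card {v // EEG p e v} < 9 * Nat.card {v // UG p e v} →
      ¬ UG p e (ind S) → (∀ v, UG p e v → LamG p e S v = 0) → False := by
    intro e e' b h1 hD hL
    obtain ⟨v, hv, hne⟩ := b.nonzero
    obtain ⟨c, hc⟩ := exists_classG b.h b.EE_ind hD h1 hv
    have h3 := hL _ hc
    rw [b.Lam_add, b.Lam_ind, mul_zero, add_zero] at h3
    exact hne h3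
  by_cases hD' : UG p e' (ind S)
  · exact fin b h1 (fun hD => b.one hD hD') (fun v hv => b.two hD' hv)
  by_cases hD : UG p e (ind S)
  · exact fin b.symm h2 hD' (fun v hv => b.symm.two hD hv)
  refine fin b h1 hD (fun v hv => ?_)
  -- the reflected vector
  have hE : EEG p e' (fun i => if i ∈ S then - v i else v i) := by
    intro hW'
    have hbas : bas p (fun i => if i ∈ S then - v i else v i) = bas p v := by
      unfold bas
      refine Finset.sum_congr rfl (fun i _ => ?_)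
      by_cases h3 : p i = 3
      · rw [if_pos h3, if_pos h3]
        show (if i ∈ S then - v i else v i) = v i
        rw [if_neg (b.i3_out h3)]
      · rw [if_neg h3, if_neg h3]
    have hs' : ∑ i ∈ S, sg p e i = 0 := by
      by_contra hs
      rcases hW' with ⟨h3, hW⟩ | ⟨i3, h3, he3⟩
      · exact (b.noThree h3 hs).2.1 hW
      · have := (b.three h3 hs).2.e3
        omega
    have hW : CondG p e := by
      rcases hW' with ⟨h3, hW⟩ | ⟨i3, h3, he3⟩
      · left
        refine ⟨h3, ?_⟩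
        have := b.tg_eq
        rw [hW, hs', add_zero] at this
        exact this.symm
      · right
        exact ⟨i3, h3, by rw [← b.e_out (b.i3_out h3)]; exact he3⟩
    have h3 := UG_sub_E b.h hv hW
    unfold psi at h3 ⊢
    rw [hbas]
    have e1 : ∑ i, sg p e' i * ((if i ∈ S then - v i else v i) - bas p v) =
        ∑ i, sg p e i * (v i - bas p v) + 2 * bas p v * ∑ i ∈ S, sg p e i := by
      have h4 : ∑ i ∈ S, sg p e i = ∑ i, if i ∈ S then sg p e i else 0 := by
        rw [Finset.sum_ite_mem, Finset.univ_inter]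
      rw [h4, Finset.mul_sum, ← Finset.sum_add_distrib]
      refine Finset.sum_congr rfl (fun i _ => ?_)
      by_cases hi : i ∈ S
      · rw [if_pos hi, if_pos hi, b.base.wt.ins i hi]; ring
      · rw [if_neg hi, if_neg hi, b.base.wt.out i hi]; ring
    rw [e1, h3, hs']; ring
  obtain ⟨c, hc⟩ := exists_classG b.h' b.symm.EE_ind hD' h2 hE
  refine b.thr (c := c) (d := 0) hv hc (fun i => ?_)
  unfold ind
  by_cases hi : i ∈ S
  · rw [if_pos hi, if_pos hi, if_pos hi]; ring
  · rw [if_neg hi, if_neg hi, if_neg hi]; ring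

/-- the bound, no condition at 3 -/
theorem bound (hm : 2 ≤ m) {d : ℕ} (hd : m ≤ d + 3) : GenBy (AA p e) d ∨ GenBy (AA p e') d := by
  by_contra hcon
  push Not at hcon
  obtain ⟨c1, c2⟩ := hcon
  have hpow : 3 ^ m ≤ 9 * 3 ^ (d + 1) := by
    calc 3 ^ m ≤ 3 ^ (d + 3) := Nat.pow_le_pow_right (by norm_num) hd
      _ = 9 * 3 ^ (d + 1) := by ring
  have g : ∀ {e : Fin m → ℕ}, HypG p e → ¬ GenBy (AA p e) d →
      Nat.card {v // EEG p e v} < 9 * Nat.card {v // UG p e v} := by
    intro e h hc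
    have h1 : ¬ Nat.card {v // UG p e v} ≤ 3 ^ (d + 1) := fun h1 =>
      hc (gen_of_cardG hm h _ h1)
    have h2 := card_EG p e
    omega
  exact b.contra (g b.h c1) (g b.h' c2)

/-- the bound with a condition at 3 -/
theorem bound' (hm : 2 ≤ m) {d : ℕ} (hd : m ≤ d + 4) (hW : CondG p e) (hW' : CondG p e') :
    GenBy (AA p e) d ∨ GenBy (AA p e') d := by
  by_contra hcon
  push Not at hcon
  obtain ⟨c1, c2⟩ := hcon
  have hpow : 3 ^ m ≤ 27 * 3 ^ (d + 1) := by
    calc 3 ^ m ≤ 3 ^ (d + 4) := Nat.pow_le_pow_right (by norm_num) hd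
      _ = 27 * 3 ^ (d + 1) := by ring
  have g : ∀ {e : Fin m → ℕ}, HypG p e → CondG p e → ¬ GenBy (AA p e) d →
      Nat.card {v // EEG p e v} < 9 * Nat.card {v // UG p e v} := by
    intro e h hW hc
    have h1 : ¬ Nat.card {v // UG p e v} ≤ 3 ^ (d + 1) := fun h1 =>
      hc (gen_of_cardG hm h _ h1)
    have h2 := card_EG_zero h hW
    omega
  exact b.contra (g b.h hW c1) (g b.h' hW' c2)

end PairG

end Pool.Agent.CubeRank

end

section

/-!
# The theorems on ranks, general version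
-/

set_option autoImplicit false

namespace Pool.Agent.CubeRank

open Pool.Agent.Lib_helper18 Pool.Agent.Lib_helper18.Eis Pool.Agent.Lib_helper84.Cub

variable {m : ℕ} {p e e' : Fin m → ℕ} {S : Finset (Fin m)}

/-- the set of exchanged primes -/
def dS {m : ℕ} (e e' : Fin m → ℕ) : Finset (Fin m) := Finset.univ.filter (fun i => e i ≠ e' i)

theorem mem_dS {i : Fin m} : i ∈ dS e e' ↔ e i ≠ e' i := by simp [dS]

theorem base_ofG (h : HypG p e) (h' : HypG p e') (h3 : ∀ i, p i = 3 → e i = e' i) :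
    BaseT p e e' (dS e e') where
  hp := h.hp
  h3 := h.h3
  inj := h.inj
  he := h.he
  he' := h'.he
  nS := fun i hi h3i => (mem_dS.mp hi) (h3 i h3i)
  rel := fun j => by
    have h1 := h.he j
    have h2 := h'.he j
    split_ifs with h4
    · have := mem_dS.mp h4; omega
    · by_contra h5
      exact h4 (mem_dS.mpr h5)

/-- total weights -/
theorem BaseT.tg_eq (b : BaseT p e e' S) : tg p e' = tg p e + ∑ i ∈ S, sg p e i := by
  unfold tg
  rw [sum_split _ S, sum_split (sg p e) S, sum_sg' b]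
  have h2 : ∑ i ∈ Sᶜ, sg p e' i = ∑ i ∈ Sᶜ, sg p e i :=
    Finset.sum_congr rfl (fun i hi => b.wt.out i (Finset.mem_compl.mp hi))
  rw [h2]
  linear_combination (-(∑ i ∈ S, sg p e i)) * three_zmod

/-- **the law for two curves in the same class** -/
theorem law_class (h : HypG p e) (h' : HypG p e') (h3 : ∀ i, p i = 3 → e i = e' i)
    (htg : tg p e = tg p e') {v v' : Fin m → ZMod 3} (hv : UG p e v) (hv' : UG p e' v')
    (hvv : ∀ i, v' i = if e i = e' i then v i else - v i) :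
    ∑ i ∈ dS e e', sg p e i * v i = 0 := by
  classical
  have bb := base_ofG h h' h3
  have hs : ∑ i ∈ dS e e', sg p e i = 0 := by
    have := bb.tg_eq
    rw [← htg] at this
    linear_combination -this
  by_cases hin : ∃ i ∈ dS e e', sg p e i ≠ 0
  swap
  · push Not at hin
    exact Finset.sum_eq_zero (fun i hi => by rw [hin i hi, zero_mul])
  by_cases hout : (∃ i, i ∉ dS e e' ∧ sg p e i ≠ 0) ∨ (∃ i3, p i3 = 3 ∧ e i3 = 1)
  · have b : PairG p e e' (dS e e') :=
      { h := h, h' := h', hS := fun i => mem_dS, nS := bb.nS, inT := hin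
        typ := by
          by_cases h4 : ∀ i, p i ≠ 3
          · left
            refine ⟨h4, ?_⟩
            by_cases h5 : tg p e = 0
            · exact Or.inr ⟨h5, by rw [← htg]; exact h5⟩
            · exact Or.inl ⟨h5, by rw [← htg]; exact h5⟩
          · push Not at h4
            exact Or.inr (Or.inr ⟨h4, hs⟩)
        outT := by
          rcases hout with h4 | h4
          · exact Or.inl h4
          · exact Or.inr ⟨h4, hs⟩ }
    have h6 := b.thr (c := 0) (d := 0) hv hv' (fun i => by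
      rw [hvv i]
      by_cases hi : e i = e' i
      · rw [if_pos hi, if_neg (fun h => (mem_dS.mp h) hi), add_zero]
      · rw [if_neg hi, if_pos (mem_dS.mpr hi), zero_sub])
    unfold LamG at h6
    rwa [if_pos hs] at h6
  · push Not at hout
    obtain ⟨ho1, ho2⟩ := hout
    have ht0 : tg p e = 0 := by
      unfold tg
      rw [sum_split _ (dS e e'), hs, zero_add]
      exact Finset.sum_eq_zero (fun i hi => ho1 i (Finset.mem_compl.mp hi))
    have hC : CondG p e := by
      by_cases h4 : ∀ i, p i ≠ 3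
      · exact Or.inl ⟨h4, ht0⟩
      · push Not at h4
        obtain ⟨i3, hi3⟩ := h4
        exact Or.inr ⟨i3, hi3, (h.he i3).resolve_left (ho2 i3 hi3)⟩
    have h5 := UG_sub_E h hv hC
    unfold psi at h5
    have e1 : ∑ i, sg p e i * (v i - bas p v) = ∑ i, sg p e i * v i - tg p e * bas p v := by
      unfold tg
      rw [Finset.sum_mul, ← Finset.sum_sub_distrib]
      exact Finset.sum_congr rfl (fun i _ => by ring)
    rw [e1, ht0, zero_mul, sub_zero, sum_split _ (dS e e')] at h5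
    have h6 : ∑ i ∈ (dS e e')ᶜ, sg p e i * v i = 0 :=
      Finset.sum_eq_zero (fun i hi => by rw [ho1 i (Finset.mem_compl.mp hi), zero_mul])
    rwa [h6, add_zero] at h5

/-! ### weights and residues modulo 9 -/

theorem three_ndvd {q : ℕ} (h3 : q % 3 = 2) : ¬ (3 : ℤ) ∣ (q : ℤ) := by omega

theorem three_ndvd_prod {k : ℕ} {q f : Fin k → ℕ} (h3 : ∀ i, q i % 3 = 2) :
    ¬ (3 : ℤ) ∣ ∏ i, (q i : ℤ) ^ f i := by
  intro h
  rw [Prime.dvd_finsetProd_iff Int.prime_three] at h
  obtain ⟨j, -, hj⟩ := h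
  exact three_ndvd (h3 j) (Int.prime_three.dvd_of_dvd_pow hj)

theorem tg_eq_wq {k : ℕ} {q f : Fin k → ℕ} (h3 : ∀ i, q i % 3 = 2) :
    tg q f = wq (∏ i, (q i : ℤ) ^ f i) := by
  have h3' : ∀ j, ¬ (3 : ℤ) ∣ (q j : ℤ) ^ f j := fun j h =>
    three_ndvd (h3 j) (Int.prime_three.dvd_of_dvd_pow h)
  rw [wq_prod _ _ h3']
  unfold tg sg
  refine Finset.sum_congr rfl (fun i _ => ?_)
  rw [if_neg (by have := h3 i; omega), wq_pow (three_ndvd (h3 i))]

theorem sg_ne {p f : Fin m → ℕ} (hf : ∀ i, f i = 1 ∨ f i = 2) {i : Fin m} (h3 : p i % 3 = 2)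
    (h8 : p i % 9 ≠ 8) : sg p f i ≠ 0 := by
  unfold sg
  rw [if_neg (by omega)]
  have h1 : wq (p i : ℤ) ≠ 0 := wq_ne (by omega)
  rcases hf i with h | h <;> rw [h]
  · rw [Nat.cast_one, one_mul]; exact h1
  · revert h1
    generalize wq (p i : ℤ) = x
    revert x
    decide

theorem sg_eight {p f : Fin m → ℕ} {i : Fin m} (h8 : p i % 9 = 8) : sg p f i = 0 := by
  unfold sg
  rw [if_neg (by omega), (wq_zero_iff (by omega)).mpr (by omega), mul_zero]

theorem tg_cons {k : ℕ} {q f : Fin k → ℕ} (j : ℕ) :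
    tg (Fin.cons 3 q : Fin (k + 1) → ℕ) (Fin.cons j f : Fin (k + 1) → ℕ) = tg q f := by
  unfold tg
  rw [Fin.sum_univ_succ]
  unfold sg
  simp

theorem AA_cons {k : ℕ} {q f : Fin k → ℕ} (j : ℕ) :
    AA (Fin.cons 3 q : Fin (k + 1) → ℕ) (Fin.cons j f : Fin (k + 1) → ℕ) =
      3 ^ j * ∏ i, (q i : ℤ) ^ f i := by
  unfold AA
  rw [Fin.prod_univ_succ]
  simp

/-! ### hypotheses -/

theorem hypG_of {k : ℕ} {q f : Fin k → ℕ} (hq : ∀ i, (q i).Prime) (h3 : ∀ i, q i % 3 = 2)
    (hinj : Function.Injective q) (hf : ∀ i, f i = 1 ∨ f i = 2) (hex : ∃ i, q i % 9 ≠ 8) :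
    HypG q f where
  hp := hq
  h3 := fun i => Or.inl (h3 i)
  inj := hinj
  he := hf
  ex := by
    obtain ⟨i, hi⟩ := hex
    exact ⟨i, by have := h3 i; omega⟩

theorem hypG_cons {k : ℕ} {q f : Fin k → ℕ} (hq : ∀ i, (q i).Prime) (h3 : ∀ i, q i % 3 = 2)
    (hinj : Function.Injective q) (hf : ∀ i, f i = 1 ∨ f i = 2) (hex : ∃ i, q i % 9 ≠ 8)
    {j : ℕ} (hj : j = 1 ∨ j = 2) :
    HypG (Fin.cons 3 q : Fin (k + 1) → ℕ) (Fin.cons j f : Fin (k + 1) → ℕ) where
  hp := fun i => by
    refine Fin.cases ?_ (fun i => ?_) i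
    · simpa using Nat.prime_three
    · simpa using hq i
  h3 := fun i => by
    refine Fin.cases ?_ (fun i => ?_) i
    · right; simp
    · left; simpa using h3 i
  inj := by
    rw [Fin.cons_injective_iff]
    refine ⟨?_, hinj⟩
    rintro ⟨i, hi⟩
    have := h3 i
    omega
  he := fun i => by
    refine Fin.cases ?_ (fun i => ?_) i
    · simpa using hj
    · simpa using hf i
  ex := by
    obtain ⟨i, hi⟩ := hex
    exact ⟨i.succ, by have := h3 i; simp; omega⟩

/-! ### the theorem -/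

theorem all_but {k : ℕ} {Good Cls : (Fin k → ℕ) → Prop}
    {X : (Fin k → ℕ) → (Fin k → ℕ) → Prop}
    (h : ∀ e e' : Fin k → ℕ, (∀ i, e i = 1 ∨ e i = 2) → (∀ i, e' i = 1 ∨ e' i = 2) →
      Cls e → Cls e' → X e e' → Good e ∨ Good e') :
    ∃ e₀ : Fin k → ℕ, ∀ e : Fin k → ℕ, (∀ i, e i = 1 ∨ e i = 2) → Cls e → X e e₀ → Good e := by
  by_cases hall : ∀ e : Fin k → ℕ, (∀ i, e i = 1 ∨ e i = 2) → Cls e → Good e
  · exact ⟨fun _ => 0, fun e he hc _ => hall e he hc⟩
  · push Not at hall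
    obtain ⟨e₀, he₀, hc₀, hg₀⟩ := hall
    exact ⟨e₀, fun e he hc hx => (h e e₀ he he₀ hc hc₀ hx).resolve_right hg₀⟩

/-- two vectors of exponents are neither equal nor complementary on the primes `≡ 2, 5 (mod 9)` -/
def ApartG {k : ℕ} (q e e' : Fin k → ℕ) : Prop :=
  (∃ i, q i % 9 ≠ 8 ∧ e i ≠ e' i) ∧ (∃ i, q i % 9 ≠ 8 ∧ e i + e' i ≠ 3)

section

variable {k : ℕ} {q : Fin k → ℕ} (hq : ∀ i, (q i).Prime) (h3 : ∀ i, q i % 3 = 2)
  (hinj : Function.Injective q)

include hq h3 hinj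

/-- 3 does not divide `A`: the pair -/
theorem pair_no {e e' : Fin k → ℕ} (he : ∀ i, e i = 1 ∨ e i = 2) (he' : ∀ i, e' i = 1 ∨ e' i = 2)
    (hx : ApartG q e e')
    (hcl : (tg q e ≠ 0 ∧ tg q e' ≠ 0) ∨ (tg q e = 0 ∧ tg q e' = 0)) :
    PairG q e e' (dS e e') := by
  obtain ⟨⟨i1, hi1, hn1⟩, ⟨i2, hi2, hn2⟩⟩ := hx
  have h : HypG q e := hypG_of hq h3 hinj he ⟨i1, hi1⟩
  have h' : HypG q e' := hypG_of hq h3 hinj he' ⟨i1, hi1⟩
  have n3 : ∀ i, q i ≠ 3 := fun i => by have := h3 i; omega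
  exact
    { h := h, h' := h', hS := fun i => mem_dS, nS := fun i _ => n3 i
      inT := ⟨i1, mem_dS.mpr hn1, sg_ne he (h3 i1) hi1⟩
      typ := Or.inl ⟨n3, hcl⟩
      outT := Or.inl ⟨i2, fun hh => by
        have := mem_dS.mp hh
        have h1 := he i2
        have h2 := he' i2
        omega, sg_ne he (h3 i2) hi2⟩ }

theorem rank_no (hk : 3 ≤ k) :
    (∃ e₀ : Fin k → ℕ, ∀ e : Fin k → ℕ, (∀ i, e i = 1 ∨ e i = 2) →
      ¬ ((∏ i, (q i : ℤ) ^ e i) % 9 = 1 ∨ (∏ i, (q i : ℤ) ^ e i) % 9 = 8) →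
      ApartG q e e₀ → GenBy (∏ i, (q i : ℤ) ^ e i) (k - 3)) := by
  refine all_but (fun e e' he he' hc hc' hx => ?_)
  have b := pair_no hq h3 hinj he he' hx (Or.inl ⟨?_, ?_⟩)
  · exact b.bound (by omega) (by omega)
  · rw [tg_eq_wq h3]; exact fun h => hc ((wq_zero_iff (three_ndvd_prod h3)).mp h)
  · rw [tg_eq_wq h3]; exact fun h => hc' ((wq_zero_iff (three_ndvd_prod h3)).mp h)

theorem rank_one (hk : 4 ≤ k) :
    (∃ e₀ : Fin k → ℕ, ∀ e : Fin k → ℕ, (∀ i, e i = 1 ∨ e i = 2) →
      ((∏ i, (q i : ℤ) ^ e i) % 9 = 1 ∨ (∏ i, (q i : ℤ) ^ e i) % 9 = 8) →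
      ApartG q e e₀ → GenBy (∏ i, (q i : ℤ) ^ e i) (k - 4)) := by
  refine all_but (fun e e' he he' hc hc' hx => ?_)
  have n3 : ∀ i, q i ≠ 3 := fun i => by have := h3 i; omega
  have t1 : tg q e = 0 := by
    rw [tg_eq_wq h3]; exact (wq_zero_iff (three_ndvd_prod h3)).mpr hc
  have t2 : tg q e' = 0 := by
    rw [tg_eq_wq h3]; exact (wq_zero_iff (three_ndvd_prod h3)).mpr hc'
  have b := pair_no hq h3 hinj he he' hx (Or.inr ⟨t1, t2⟩)
  exact b.bound' (by omega) (by omega) (Or.inl ⟨n3, t1⟩) (Or.inl ⟨n3, t2⟩)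

/-- 3 divides `A`: the pair -/
theorem pair_cons {e e' : Fin k → ℕ} (he : ∀ i, e i = 1 ∨ e i = 2)
    (he' : ∀ i, e' i = 1 ∨ e' i = 2) {j : ℕ} (hj : j = 1 ∨ j = 2)
    (hin : ∃ i, q i % 9 ≠ 8 ∧ e i ≠ e' i)
    (hcl : j = 1 ∨ tg q e = tg q e')
    (hout : (∃ i, q i % 9 ≠ 8 ∧ e i + e' i ≠ 3) ∨ (j = 1 ∧ tg q e = 0)) :
    PairG (Fin.cons 3 q : Fin (k + 1) → ℕ) (Fin.cons j e) (Fin.cons j e')
      (dS (Fin.cons j e) (Fin.cons j e')) := by
  classical
  obtain ⟨i1, hi1, hn1⟩ := hin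
  have h := hypG_cons hq h3 hinj he ⟨i1, hi1⟩ hj
  have h' := hypG_cons hq h3 hinj he' ⟨i1, hi1⟩ hj
  have hn3 : ∀ i : Fin k, (Fin.cons 3 q : Fin (k + 1) → ℕ) i.succ ≠ 3 := fun i => by
    have := h3 i
    simp
    omega
  have h3e : ∀ i : Fin (k + 1), (Fin.cons 3 q : Fin (k + 1) → ℕ) i = 3 →
      (Fin.cons j e : Fin (k + 1) → ℕ) i = (Fin.cons j e' : Fin (k + 1) → ℕ) i := by
    intro i
    refine Fin.cases ?_ (fun i => ?_) i
    · intro _; simp
    · intro h; exact absurd h (hn3 i)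
  have bb := base_ofG h h' h3e
  have htg := bb.tg_eq
  rw [tg_cons, tg_cons] at htg
  have hsg : ∀ i : Fin k, q i % 9 ≠ 8 →
      sg (Fin.cons 3 q : Fin (k + 1) → ℕ) (Fin.cons j e) i.succ ≠ 0 := fun i hi =>
    sg_ne h.he (by simpa using h3 i) (by simpa using hi)
  refine
    { h := h, h' := h', hS := fun i => mem_dS, nS := bb.nS
      inT := ⟨i1.succ, mem_dS.mpr (by simpa using hn1), hsg i1 hi1⟩
      typ := ?_, outT := ?_ }
  · rcases hcl with hcl | hcl
    · exact Or.inr (Or.inl ⟨0, by simp, by simpa using hcl⟩)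
    · refine Or.inr (Or.inr ⟨⟨0, by simp⟩, ?_⟩)
      rw [hcl] at htg
      linear_combination -htg
  · by_cases hh : ∃ i, q i % 9 ≠ 8 ∧ e i + e' i ≠ 3
    · obtain ⟨i2, hi2, hn2⟩ := hh
      refine Or.inl ⟨i2.succ, fun hh => ?_, hsg i2 hi2⟩
      have h4 := mem_dS.mp hh
      have h1 := he i2
      have h2 := he' i2
      simp only [Fin.cons_succ] at h4
      omega
    · obtain ⟨hj1, ht0⟩ := hout.resolve_left hh
      refine Or.inr ⟨⟨0, by simp, by simpa using hj1⟩, ?_⟩
      -- the exchanged weight is the total weight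
      push Not at hh
      have h5 := tg_cons (q := q) (f := e) j
      rw [ht0] at h5
      unfold tg at h5
      rw [sum_split _ (dS (Fin.cons j e : Fin (k + 1) → ℕ) (Fin.cons j e'))] at h5
      have h6 : ∑ i ∈ (dS (Fin.cons j e : Fin (k + 1) → ℕ) (Fin.cons j e'))ᶜ,
          sg (Fin.cons 3 q : Fin (k + 1) → ℕ) (Fin.cons j e) i = 0 := by
        refine Finset.sum_eq_zero (fun i hi => ?_)
        have hi' := Finset.mem_compl.mp hi
        revert hi'
        refine Fin.cases ?_ (fun i => ?_) i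
        · intro _
          unfold sg
          simp
        · intro hi'
          have h7 : e i = e' i := by
            by_contra h8
            exact hi' (mem_dS.mpr (by simpa using h8))
          have h8 : q i % 9 = 8 := by
            by_contra h9
            have h10 := hh i h9
            have h11 := he i
            omega
          exact sg_eight (by simpa using h8)
      rwa [h6, add_zero] at h5

theorem rank_three (hk : 2 ≤ k) :
    (∃ e₀ : Fin k → ℕ, ∀ e : Fin k → ℕ, (∀ i, e i = 1 ∨ e i = 2) → True →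
      ((∃ i, q i % 9 ≠ 8 ∧ e i ≠ e₀ i) ∧ ((∃ i, q i % 9 ≠ 8 ∧ e i + e₀ i ≠ 3) ∨
        (∏ i, (q i : ℤ) ^ e i) % 9 = 1 ∨ (∏ i, (q i : ℤ) ^ e i) % 9 = 8)) →
      GenBy (3 * ∏ i, (q i : ℤ) ^ e i) (k - 2)) := by
  refine all_but (fun e e' he he' _ _ hx => ?_)
  have b := pair_cons hq h3 hinj he he' (Or.inl rfl) hx.1 (Or.inl rfl)
    (hx.2.imp_right (fun h => ⟨rfl, by
      rw [tg_eq_wq h3]; exact (wq_zero_iff (three_ndvd_prod h3)).mpr h⟩))
  have h1 := b.bound (d := k - 2) (by omega) (by omega)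
  rwa [AA_cons, AA_cons, pow_one] at h1

theorem rank_nine (hk : 3 ≤ k) (c : ℤ) :
    (∃ e₀ : Fin k → ℕ, ∀ e : Fin k → ℕ, (∀ i, e i = 1 ∨ e i = 2) →
      (9 ∣ (∏ i, (q i : ℤ) ^ e i) - c ∨ 9 ∣ (∏ i, (q i : ℤ) ^ e i) + c) →
      ApartG q e e₀ → GenBy (9 * ∏ i, (q i : ℤ) ^ e i) (k - 3)) := by
  refine all_but (fun e e' he he' hc hc' hx => ?_)
  have htg : tg q e = tg q e' := by
    rw [tg_eq_wq h3, tg_eq_wq h3, wq_eq_iff (three_ndvd_prod h3) (three_ndvd_prod h3)]
    omega
  have b := pair_cons hq h3 hinj he he' (j := 2) (Or.inr rfl) hx.1 (Or.inr htg) (Or.inl hx.2)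
  have h1 := b.bound' (d := k - 3) (by omega) (by omega) (Or.inr ⟨0, by simp, by simp⟩)
    (Or.inr ⟨0, by simp, by simp⟩)
  rw [AA_cons, AA_cons] at h1
  norm_num at h1
  exact h1

end

end Pool.Agent.CubeRank

end

section

/-!
# The average of `4 ^ r(A)`
-/

set_option autoImplicit false

namespace Pool.Agent.CubeRank

open Pool.Agent.Lib_helper18 Pool.Agent.Lib_helper18.Eis Pool.Agent.Lib_helper84.Cub

variable {m : ℕ} {p e e' : Fin m → ℕ}

/-- the group of classes of the curve with exponents `e`, normalised by the exponents -/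
def WW {m : ℕ} (p e : Fin m → ℕ) : Submodule (ZMod 3) (Fin m → ZMod 3) :=
  Submodule.span (ZMod 3) {v | UG p e (fun i => (e i : ZMod 3) * v i)}

theorem mem_WW (h : HypG p e) {v : Fin m → ZMod 3} :
    v ∈ WW p e ↔ UG p e (fun i => (e i : ZMod 3) * v i) := by
  refine ⟨fun hv => ?_, fun hv => Submodule.subset_span hv⟩
  unfold WW at hv
  induction hv using Submodule.span_induction with
  | mem x hx => exact hx
  | zero =>
    have := UG_const p e 0
    convert this using 2
    simp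
  | add x y _ _ hx hy =>
    have := UG_add h hx hy
    convert this using 1
    funext i
    simp only [Pi.add_apply]
    ring
  | smul a x _ hx =>
    have := UG_smul h hx a
    convert this using 1
    funext i
    simp only [Pi.smul_apply, smul_eq_mul]
    ring

theorem sq_one {f : Fin m → ℕ} (hf : ∀ i, f i = 1 ∨ f i = 2) (i : Fin m) :
    (f i : ZMod 3) * (f i : ZMod 3) = 1 := by
  rcases hf i with h | h <;> rw [h] <;> decide

theorem cast_ne {f : Fin m → ℕ} (hf : ∀ i, f i = 1 ∨ f i = 2) (i : Fin m) :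
    (f i : ZMod 3) ≠ 0 := by
  rcases hf i with h | h <;> rw [h] <;> decide

/-- the exponent vector itself lies in `WW` -/
theorem self_mem (h : HypG p e) : (fun i => (e i : ZMod 3)) ∈ WW p e := by
  rw [mem_WW h]
  have := UG_const p e 1
  convert this using 2
  exact sq_one h.he _

theorem card_WW (h : HypG p e) :
    Nat.card {v // UG p e v} = 3 ^ Module.finrank (ZMod 3) (WW p e) := by
  have h1 : Nat.card (WW p e) = 3 ^ Module.finrank (ZMod 3) (WW p e) := by
    rw [Module.natCard_eq_pow_finrank (K := ZMod 3)]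
    simp
  rw [← h1]
  refine Nat.card_congr ?_
  exact
    { toFun := fun v => ⟨fun i => (e i : ZMod 3) * v.1 i, by
        rw [mem_WW h]
        have := v.2
        convert this using 1
        funext i
        rw [← mul_assoc, sq_one h.he, one_mul]⟩
      invFun := fun v => ⟨fun i => (e i : ZMod 3) * v.1 i, (mem_WW h).mp v.2⟩
      left_inv := fun v => by
        ext i
        simp only
        rw [← mul_assoc, sq_one h.he, one_mul]
      right_inv := fun v => by
        ext i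
        simp only
        rw [← mul_assoc, sq_one h.he, one_mul] }

theorem finrank_pos (hm : 1 ≤ m) (h : HypG p e) : 1 ≤ Module.finrank (ZMod 3) (WW p e) := by
  rw [Nat.one_le_iff_ne_zero]
  intro h0
  rw [Submodule.finrank_eq_zero] at h0
  have h1 := self_mem h
  rw [h0, Submodule.mem_bot] at h1
  exact cast_ne h.he ⟨0, hm⟩ (congrFun h1 ⟨0, hm⟩)

/-- the bound for the rank -/
noncomputable def rk {m : ℕ} (p e : Fin m → ℕ) : ℕ := Module.finrank (ZMod 3) (WW p e) - 1

theorem gen_rk (hm : 2 ≤ m) (h : HypG p e) : GenBy (AA p e) (rk p e) := by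
  refine gen_of_cardG hm h _ ?_
  rw [card_WW h, rk, Nat.sub_add_cancel (finrank_pos (by omega) h)]

/-- the law in terms of `WW` -/
theorem law_WW (h : HypG p e) (h' : HypG p e') (h3 : ∀ i, p i = 3 → e i = e' i)
    (htg : tg p e = tg p e') {v : Fin m → ZMod 3} (hv : v ∈ WW p e) (hv' : v ∈ WW p e') :
    ∑ i, (if p i = 3 then 0 else wq (p i : ℤ)) * v i *
      ((e i : ZMod 3) - (e' i : ZMod 3)) ^ 2 = 0 := by
  rw [mem_WW h] at hv
  rw [mem_WW h'] at hv'
  have h1 := law_class h h' h3 htg hv hv' (fun i => by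
    have h2 := h.he i
    have h4 := h'.he i
    split_ifs with h5
    · rw [h5]
    · have h6 : e' i + e i = 3 := by omega
      have h7 : (e' i : ZMod 3) + (e i : ZMod 3) = 3 := by exact_mod_cast congrArg Nat.cast h6
      linear_combination (v i) * h7 + (v i) * three_zmod)
  refine Eq.trans ?_ h1
  rw [dS, Finset.sum_filter]
  refine Finset.sum_congr rfl (fun i _ => ?_)
  have h2 := h.he i
  have h4 := h'.he i
  split_ifs with h5 h6 h6
  · rw [sg, if_pos h5]; ring
  · rw [not_not.mp h6]; ring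
  · rw [sg, if_neg h5]
    have h7 : ((e i : ZMod 3) - (e' i : ZMod 3)) ^ 2 = (e i : ZMod 3) * (e i : ZMod 3) := by
      rcases h2 with h2 | h2 <;> rcases h4 with h4 | h4
      · exact absurd (h2.trans h4.symm) h6
      · rw [h2, h4]; decide
      · rw [h2, h4]; decide
      · exact absurd (h2.trans h4.symm) h6
    rw [h7]; ring
  · rw [not_not.mp h6]; ring

/-- the exponent vectors -/
def Ex (m : ℕ) : Finset (Fin m → ℕ) := Fintype.piFinset (fun _ => {1, 2})

theorem mem_Ex {f : Fin m → ℕ} : f ∈ Ex m ↔ ∀ i, f i = 1 ∨ f i = 2 := by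
  unfold Ex
  simp [Fintype.mem_piFinset]

/-- nowhere zero vectors -/
def Nz (m : ℕ) : Finset (Fin m → ZMod 3) := Fintype.piFinset (fun _ => {1, 2})

theorem z3_ne (x : ZMod 3) : x ≠ 0 ↔ x = 1 ∨ x = 2 := by revert x; decide

theorem mem_Nz {v : Fin m → ZMod 3} : v ∈ Nz m ↔ ∀ i, v i ≠ 0 := by
  unfold Nz
  simp [Fintype.mem_piFinset, z3_ne]

theorem card_Nz (m : ℕ) : (Nz m).card = 2 ^ m := by
  unfold Nz
  rw [Fintype.card_piFinset]
  have : ({1, 2} : Finset (ZMod 3)).card = 2 := by decide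
  simp [this]

/-- the primes `≡ 2, 5 (mod 9)` -/
def TT {m : ℕ} (p : Fin m → ℕ) : Finset (Fin m) :=
  Finset.univ.filter (fun i => p i ≠ 3 ∧ p i % 9 ≠ 8)

/-- the primes `≡ 8 (mod 9)` -/
def RR {m : ℕ} (p : Fin m → ℕ) : Finset (Fin m) :=
  Finset.univ.filter (fun i => p i ≠ 3 ∧ p i % 9 = 8)

open Classical in
/-- the sum over one class -/
theorem sum_class (hw : WarnStmt) (p : Fin m → ℕ) (hp3 : ∀ i, p i % 3 = 2 ∨ p i = 3)
    (F : Finset (Fin m → ℕ))
    (hF : ∀ e ∈ F, HypG p e)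
    (hF' : ∀ e ∈ F, ∀ e' ∈ F, (∀ i, p i = 3 → e i = e' i) ∧ tg p e = tg p e') :
    ∑ e ∈ F, 4 ^ Module.finrank (ZMod 3) (WW p e) ≤
      2 ^ m * (2 ^ m * 2 ^ ((TT p).card / 2 + (RR p).card)) := by
  have h1 : ∀ e ∈ F, 4 ^ Module.finrank (ZMod 3) (WW p e) ≤
      2 ^ m * ((Nz m).filter (fun v => v ∈ WW p e)).card := by
    intro e he
    have h := hF e he
    refine (hw m (WW p e) _ (self_mem h) (cast_ne h.he)).trans ?_
    refine Nat.mul_le_mul_left _ (le_of_eq ?_)
    rw [Nat.card_eq_fintype_card, Fintype.card_subtype]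
    congr 1
    ext v
    simp only [Finset.mem_filter, Finset.mem_univ, true_and, mem_Nz]
    tauto
  refine (Finset.sum_le_sum h1).trans ?_
  rw [← Finset.mul_sum]
  refine Nat.mul_le_mul_left _ ?_
  -- double counting
  have h2 : ∑ e ∈ F, ((Nz m).filter (fun v => v ∈ WW p e)).card =
      ∑ v ∈ Nz m, (F.filter (fun e => v ∈ WW p e)).card := by
    simp only [Finset.card_filter]
    exact Finset.sum_comm
  rw [h2, ← card_Nz m]
  refine (Finset.sum_le_card_nsmul _ _ (2 ^ ((TT p).card / 2 + (RR p).card)) (fun v hv => ?_)).trans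
    (le_of_eq (smul_eq_mul _ _))
  rw [mem_Nz] at hv
  -- the clique
  have h3 : (F.filter (fun e => v ∈ WW p e)).card =
      ((F.filter (fun e => v ∈ WW p e)).image (fun e => fun i => (e i : ZMod 3))).card := by
    refine (Finset.card_image_of_injOn ?_).symm
    intro f hf g hg hfg
    have h4 := (hF f (Finset.mem_filter.mp hf).1).he
    have h5 := (hF g (Finset.mem_filter.mp hg).1).he
    funext i
    have h6 := congrFun hfg i
    simp only at h6
    rcases h4 i with h7 | h7 <;> rcases h5 i with h8 | h8 <;> rw [h7, h8] at h6 ⊢ <;>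
      exact absurd h6 (by decide)
  rw [h3]
  refine clique m (TT p) (RR p)
    (fun i => (if p i = 3 then 0 else wq (p i : ℤ)) * v i) _ ?_ ?_ ?_ ?_
  · intro i hi
    have h4 := (Finset.mem_filter.mp hi).2
    show (if p i = 3 then 0 else wq (p i : ℤ)) * v i ≠ 0
    rw [if_neg h4.1]
    have h5 := (hp3 i).resolve_right h4.1
    exact mul_ne_zero (wq_ne (by omega)) (hv i)
  · intro x hx i
    obtain ⟨f, hf, rfl⟩ := Finset.mem_image.mp hx
    exact cast_ne (hF f (Finset.mem_filter.mp hf).1).he i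
  · intro x hx y hy i hi hi'
    obtain ⟨f, hf, rfl⟩ := Finset.mem_image.mp hx
    obtain ⟨g, hg, rfl⟩ := Finset.mem_image.mp hy
    have h3i : p i = 3 := by
      by_contra h4
      by_cases h5 : p i % 9 = 8
      · exact hi' (Finset.mem_filter.mpr ⟨Finset.mem_univ _, h4, h5⟩)
      · exact hi (Finset.mem_filter.mpr ⟨Finset.mem_univ _, h4, h5⟩)
    have h6 := (hF' f (Finset.mem_filter.mp hf).1 g (Finset.mem_filter.mp hg).1).1 i h3i
    simp only
    rw [h6]
  · intro x hx y hy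
    obtain ⟨f, hf, rfl⟩ := Finset.mem_image.mp hx
    obtain ⟨g, hg, rfl⟩ := Finset.mem_image.mp hy
    have hf' := Finset.mem_filter.mp hf
    have hg' := Finset.mem_filter.mp hg
    have h6 := hF' f hf'.1 g hg'.1
    have h7 := law_WW (hF f hf'.1) (hF g hg'.1) h6.1 h6.2 hf'.2 hg'.2
    refine Eq.trans ?_ h7
    refine Finset.sum_subset (Finset.subset_univ _) (fun i _ hi => ?_)
    have h8 : (if p i = 3 then 0 else wq (p i : ℤ)) = 0 := by
      split_ifs with h9
      · rfl
      · have h10 : p i % 9 = 8 := by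
          by_contra h11
          exact hi (Finset.mem_filter.mpr ⟨Finset.mem_univ _, h9, h11⟩)
        exact (wq_zero_iff (by omega)).mpr (by omega)
    simp only
    rw [h8, zero_mul, zero_mul]

end Pool.Agent.CubeRank

end

section

/-!
# The average of `4 ^ r(A)`, all classes together
-/

set_option autoImplicit false

namespace Pool.Agent.CubeRank

open Pool.Agent.Lib_helper18 Pool.Agent.Lib_helper18.Eis Pool.Agent.Lib_helper84.Cub

/-- the number of primes `≢ 8 (mod 9)` -/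
def nT {k : ℕ} (q : Fin k → ℕ) : ℕ := (Finset.univ.filter (fun i => q i % 9 ≠ 8)).card

/-- sum over the exponent vectors, cut into the three classes -/
theorem sum_three {k : ℕ} (q : Fin k → ℕ) (f : (Fin k → ℕ) → ℕ) (B : ℕ)
    (h : ∀ c : ZMod 3, ∑ e ∈ (Ex k).filter (fun e => tg q e = c), f e ≤ B) :
    ∑ e ∈ Ex k, f e ≤ 3 * B := by
  rw [← Finset.sum_fiberwise_of_maps_to (t := Finset.univ) (g := fun e => tg q e)
    (fun _ _ => Finset.mem_univ _)]
  refine (Finset.sum_le_sum (fun c _ => h c)).trans (le_of_eq ?_)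
  rw [Finset.sum_const, smul_eq_mul]
  rfl

section

variable {k : ℕ} {q : Fin k → ℕ} (hq : ∀ i, (q i).Prime) (h3 : ∀ i, q i % 3 = 2)
  (hinj : Function.Injective q) (hex : ∃ i, q i % 9 ≠ 8)

include h3 in
theorem TT_no : (TT q).card = nT q := by
  unfold TT nT
  congr 1
  ext i
  simp only [Finset.mem_filter, Finset.mem_univ, true_and]
  have := h3 i
  omega

include h3 in
theorem RR_no : (RR q).card = k - nT q := by
  have h1 : RR q = Finset.univ \ (Finset.univ.filter (fun i => q i % 9 ≠ 8)) := by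
    unfold RR
    ext i
    simp only [Finset.mem_filter, Finset.mem_univ, true_and, Finset.mem_sdiff, not_not]
    have := h3 i
    omega
  rw [h1, Finset.card_sdiff_of_subset (Finset.subset_univ _), Finset.card_univ, Fintype.card_fin]
  rfl

theorem nT_le : nT q ≤ k := by
  unfold nT
  refine (Finset.card_le_univ _).trans ?_
  rw [Fintype.card_fin]

theorem TT_cons : (TT (Fin.cons 3 q : Fin (k + 1) → ℕ)).card = (TT q).card := by
  unfold TT
  rw [← Finset.card_map (Fin.succEmb k)]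
  congr 1
  ext i
  simp only [Finset.mem_filter, Finset.mem_univ, true_and, Finset.mem_map, Fin.coe_succEmb]
  refine Fin.cases ?_ (fun i => ?_) i
  · simp
  · simp

theorem RR_cons : (RR (Fin.cons 3 q : Fin (k + 1) → ℕ)).card = (RR q).card := by
  unfold RR
  rw [← Finset.card_map (Fin.succEmb k)]
  congr 1
  ext i
  simp only [Finset.mem_filter, Finset.mem_univ, true_and, Finset.mem_map, Fin.coe_succEmb]
  refine Fin.cases ?_ (fun i => ?_) i
  · simp
  · simp

include hq h3 hinj hex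

/-- 3 does not divide `A` -/
theorem avg_no (hk : 2 ≤ k) :
    2 ^ ((nT q + 1) / 2) * ∑ e ∈ Ex k, 4 ^ (rk q e + 1) ≤ 3 * 8 ^ k := by
  classical
  have h1 : ∑ e ∈ Ex k, 4 ^ (rk q e + 1) ≤ 3 * (2 ^ k * (2 ^ k * 2 ^ (nT q / 2 + (k - nT q)))) := by
    refine sum_three q _ _ (fun c => ?_)
    rw [← RR_no h3, ← TT_no h3]
    refine le_trans (le_of_eq ?_) (sum_class warn q (fun i => Or.inl (h3 i))
      ((Ex k).filter (fun e => tg q e = c)) (fun e he => ?_) (fun e he e' he' => ⟨fun i hi => ?_, ?_⟩))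
    · refine Finset.sum_congr rfl (fun e he => ?_)
      have he' := mem_Ex.mp (Finset.mem_filter.mp he).1
      rw [rk, Nat.sub_add_cancel (finrank_pos (by omega) (hypG_of hq h3 hinj he' hex))]
    · exact hypG_of hq h3 hinj (mem_Ex.mp (Finset.mem_filter.mp he).1) hex
    · have := h3 i; omega
    · rw [(Finset.mem_filter.mp he).2, (Finset.mem_filter.mp he').2]
  refine (Nat.mul_le_mul_left _ h1).trans (le_of_eq ?_)
  have h2 := nT_le (q := q)
  have e1 : (8 : ℕ) ^ k = 2 ^ (k + k + k) := by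
    rw [show (8 : ℕ) = 2 ^ 3 by norm_num, ← pow_mul]
    congr 1
    omega
  have e2 : k + k + k = (nT q + 1) / 2 + (k + (k + (nT q / 2 + (k - nT q)))) := by omega
  rw [e1, e2, pow_add 2 ((nT q + 1) / 2), pow_add 2 k (k + _), pow_add 2 k (nT q / 2 + _)]
  ring

/-- 3 divides `A` -/
theorem avg_cons (hk : 1 ≤ k) {j : ℕ} (hj : j = 1 ∨ j = 2) :
    2 ^ ((nT q + 1) / 2) * ∑ e ∈ Ex k, 4 ^ rk (Fin.cons 3 q : Fin (k + 1) → ℕ) (Fin.cons j e) ≤
      3 * 8 ^ k := by
  classical
  have h1 : ∑ e ∈ Ex k, 4 ^ (rk (Fin.cons 3 q : Fin (k + 1) → ℕ) (Fin.cons j e) + 1) ≤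
      3 * (2 ^ (k + 1) * (2 ^ (k + 1) * 2 ^ (nT q / 2 + (k - nT q)))) := by
    refine sum_three q _ _ (fun c => ?_)
    rw [← RR_no h3, ← TT_no h3, ← TT_cons (q := q), ← RR_cons (q := q)]
    have hcinj : Function.Injective
        (fun e : Fin k → ℕ => (Fin.cons j e : Fin (k + 1) → ℕ)) :=
      Fin.cons_right_injective (α := fun _ : Fin (k + 1) => ℕ) j
    refine le_trans (le_of_eq ?_) (sum_class warn (Fin.cons 3 q : Fin (k + 1) → ℕ) (fun i => ?_)
      (((Ex k).filter (fun e => tg q e = c)).image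
        (fun e : Fin k → ℕ => (Fin.cons j e : Fin (k + 1) → ℕ)))
      (fun e he => ?_) (fun e he e' he' => ⟨fun i hi => ?_, ?_⟩))
    · rw [Finset.sum_image (fun _ _ _ _ h => hcinj h)]
      refine Finset.sum_congr rfl (fun e he => ?_)
      have he' := mem_Ex.mp (Finset.mem_filter.mp he).1
      rw [rk, Nat.sub_add_cancel (finrank_pos (by omega) (hypG_cons hq h3 hinj he' hex hj))]
    · refine Fin.cases ?_ (fun i => ?_) i
      · right; simp
      · left; simpa using h3 i
    · obtain ⟨f, hf, rfl⟩ := Finset.mem_image.mp he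
      exact hypG_cons hq h3 hinj (mem_Ex.mp (Finset.mem_filter.mp hf).1) hex hj
    · obtain ⟨f, hf, rfl⟩ := Finset.mem_image.mp he
      obtain ⟨g, hg, rfl⟩ := Finset.mem_image.mp he'
      revert hi
      refine Fin.cases ?_ (fun i => ?_) i
      · intro _; simp
      · intro hi
        have := h3 i
        simp at hi
        omega
    · obtain ⟨f, hf, rfl⟩ := Finset.mem_image.mp he
      obtain ⟨g, hg, rfl⟩ := Finset.mem_image.mp he'
      rw [tg_cons, tg_cons, (Finset.mem_filter.mp hf).2, (Finset.mem_filter.mp hg).2]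
  have h2 := nT_le (q := q)
  have e1 : (8 : ℕ) ^ k = 2 ^ (k + k + k) := by
    rw [show (8 : ℕ) = 2 ^ 3 by norm_num, ← pow_mul]
    congr 1
    omega
  have e2 : k + k + k = (nT q + 1) / 2 + (k + (k + (nT q / 2 + (k - nT q)))) := by omega
  have h4 : 4 * (2 ^ ((nT q + 1) / 2) *
      ∑ e ∈ Ex k, 4 ^ rk (Fin.cons 3 q : Fin (k + 1) → ℕ) (Fin.cons j e)) ≤ 4 * (3 * 8 ^ k) := by
    calc _ = 2 ^ ((nT q + 1) / 2) *
        ∑ e ∈ Ex k, 4 ^ (rk (Fin.cons 3 q : Fin (k + 1) → ℕ) (Fin.cons j e) + 1) := by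
          rw [mul_left_comm, Finset.mul_sum]
          congr 1
          exact Finset.sum_congr rfl (fun e _ => by rw [pow_succ]; ring)
      _ ≤ _ := Nat.mul_le_mul_left _ h1
      _ = _ := by
          rw [e1, e2, pow_add 2 ((nT q + 1) / 2), pow_add 2 k (k + _), pow_add 2 k (nT q / 2 + _),
            pow_succ 2 k]
          ring
  exact Nat.le_of_mul_le_mul_left h4 (by norm_num)

end

/-! ### the least number of generators -/

/-- the least number of generators -/
noncomputable def rr (A : ℤ) : ℕ := sInf {n : ℕ | GenBy A n}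

theorem rr_le {A : ℤ} {n : ℕ} (h : GenBy A n) : rr A ≤ n := Nat.sInf_le h

theorem gen_rr {A : ℤ} {n : ℕ} (h : GenBy A n) : GenBy A (rr A) :=
  Nat.sInf_mem (s := {n : ℕ | GenBy A n}) ⟨n, h⟩

section

variable {k : ℕ} {q : Fin k → ℕ} (hq : ∀ i, (q i).Prime) (h3 : ∀ i, q i % 3 = 2)
  (hinj : Function.Injective q) (hex : ∃ i, q i % 9 ≠ 8)

include hq h3 hinj hex

theorem gen_no (hk : 2 ≤ k) {e : Fin k → ℕ} (he : ∀ i, e i = 1 ∨ e i = 2) :
    GenBy (∏ i, (q i : ℤ) ^ e i) (rk q e) := gen_rk hk (hypG_of hq h3 hinj he hex)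

theorem gen_cons (hk : 1 ≤ k) {j : ℕ} (hj : j = 1 ∨ j = 2) {e : Fin k → ℕ}
    (he : ∀ i, e i = 1 ∨ e i = 2) :
    GenBy (3 ^ j * ∏ i, (q i : ℤ) ^ e i)
      (rk (Fin.cons 3 q : Fin (k + 1) → ℕ) (Fin.cons j e)) := by
  rw [← AA_cons]
  exact gen_rk (by omega) (hypG_cons hq h3 hinj he hex hj)

/-- **the average of `4 ^ r(A)`** -/
theorem average (hk : 2 ≤ k) :
    (∀ e : Fin k → ℕ, (∀ i, e i = 1 ∨ e i = 2) →
      GenBy (∏ i, (q i : ℤ) ^ e i) (rr (∏ i, (q i : ℤ) ^ e i)) ∧
      GenBy (3 * ∏ i, (q i : ℤ) ^ e i) (rr (3 * ∏ i, (q i : ℤ) ^ e i)) ∧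
      GenBy (9 * ∏ i, (q i : ℤ) ^ e i) (rr (9 * ∏ i, (q i : ℤ) ^ e i))) ∧
    2 ^ ((nT q + 1) / 2) * ∑ e ∈ Ex k, 4 ^ (rr (∏ i, (q i : ℤ) ^ e i) + 1) ≤ 3 * 8 ^ k ∧
    2 ^ ((nT q + 1) / 2) * ∑ e ∈ Ex k, 4 ^ rr (3 * ∏ i, (q i : ℤ) ^ e i) ≤ 3 * 8 ^ k ∧
    2 ^ ((nT q + 1) / 2) * ∑ e ∈ Ex k, 4 ^ rr (9 * ∏ i, (q i : ℤ) ^ e i) ≤ 3 * 8 ^ k := by
  have g0 := fun {e : Fin k → ℕ} (he : ∀ i, e i = 1 ∨ e i = 2) => gen_no hq h3 hinj hex hk he
  have g1 := fun {e : Fin k → ℕ} (he : ∀ i, e i = 1 ∨ e i = 2) =>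
    gen_cons hq h3 hinj hex (by omega) (Or.inl rfl) he
  have g2 := fun {e : Fin k → ℕ} (he : ∀ i, e i = 1 ∨ e i = 2) =>
    gen_cons hq h3 hinj hex (by omega) (Or.inr rfl) he
  norm_num at g1 g2
  refine ⟨fun e he => ⟨gen_rr (g0 he), gen_rr (g1 he), gen_rr (g2 he)⟩, ?_, ?_, ?_⟩
  · refine le_trans (Nat.mul_le_mul_left _ (Finset.sum_le_sum (fun e he => ?_)))
      (avg_no hq h3 hinj hex hk)
    exact Nat.pow_le_pow_right (by norm_num) (Nat.succ_le_succ (rr_le (g0 (mem_Ex.mp he))))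
  · refine le_trans (Nat.mul_le_mul_left _ (Finset.sum_le_sum (fun e he => ?_)))
      (avg_cons hq h3 hinj hex (by omega) (Or.inl rfl))
    exact Nat.pow_le_pow_right (by norm_num) (rr_le (g1 (mem_Ex.mp he)))
  · refine le_trans (Nat.mul_le_mul_left _ (Finset.sum_le_sum (fun e he => ?_)))
      (avg_cons hq h3 hinj hex (by omega) (Or.inr rfl))
    exact Nat.pow_le_pow_right (by norm_num) (rr_le (g2 (mem_Ex.mp he)))

end

end Pool.Agent.CubeRank

end

section

/-!
# Prime twists: statements, part 5 (theorem B: the distribution of the rank over prime twists)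
-/

open NumberField IsDedekindDomain Finset
open scoped nonZeroDivisors Pointwise

namespace Pool.Agent.PT

open Pool.Agent.Lib_helper18 Pool.Agent.Lib_helper18.Eis Pool.Agent.Lib_helper84.Cub

/-- FDX: the class of a point given by a cell decomposition, explicitly. -/
def FDX : Prop := ∀ (B : ℤ) (a x : Fin 3 → ℤ), BOk B → (∀ k, x k ≠ 0) →
  ∑ k, a k * x k ^ 3 = 0 → ∏ k, a k = B →
  (∀ i j, i ≠ j → IsCoprime (a i * x i) (a j * x j)) →
  Pt B (a 0 ^ 2 * a 1) (a 0 * x 0) (x 1) ∧ Adm B (a 0 ^ 2 * a 1)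

/-- BSYS: systems for products of primes `= 2 (mod 3)`, all classes of `q` modulo `9`. -/
def BSYS : Prop := ∀ (n k : ℕ) (π : Fin 0 → PP) (p e : Fin 0 → ℕ) (r f : Fin k → ℕ)
  (w0 : ZMod 3) (c : Fin 0 → ZMod 3), NF n π p e r f →
  ∃ (s : ℕ) (b : Fin s → ℤ) (P Q P' Q' : Fin s → Fin s → ℤ),
    (∀ i, AdmC n π w0 c (b i)) ∧ Sys b P Q P' Q' ∧
    (∀ x : ℤ, AdmC n π w0 c x → ∃ (g : Fin s → ℕ) (u v : ℤ), u ≠ 0 ∧ v ≠ 0 ∧
      x * u ^ 3 = (∏ i, b i ^ g i) * v ^ 3)

/-- BKER: the rank is bounded by the dimension of the kernel of the matrix. -/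
def BKER : Prop := ∀ (n k : ℕ) (π : Fin 0 → PP) (p e : Fin 0 → ℕ) (r f : Fin k → ℕ)
  (w0 : ZMod 3) (c : Fin 0 → ZMod 3) (s : ℕ) (b : Fin s → ℤ) (P Q P' Q' : Fin s → Fin s → ℤ)
  (q : ℕ), NF n π p e r f → 1 ≤ k → (∀ i, AdmC n π w0 c (b i)) → Sys b P Q P' Q' →
  (∀ x : ℤ, AdmC n π w0 c x → ∃ (g : Fin s → ℕ) (u v : ℤ), u ≠ 0 ∧ v ≠ 0 ∧
      x * u ^ 3 = (∏ i, b i ^ g i) * v ^ 3) →
  q.Prime → q % 3 = 2 → wt ((q : ℤ) ^ 2) = w0 → ¬ q ∣ n →
  ((∃ j, r j % 9 ≠ 8) ∨ q % 9 ≠ 8) →
  CubeRank.GenBy ((n : ℤ) * q) (s - (Mat b P Q P' Q' ((n : ℤ) * q)).rank)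

/-- ALTK: the number of alternating matrices with large kernel. -/
def ALTK : Prop := ∀ s t : ℕ,
  3 ^ (t * (t - 1) / 2) * Nat.card {v : Fin s → Fin s → ZMod 3 // t ≤ s - (alt v).rank} ≤
    2 * Nat.card (Fin s → Fin s → ZMod 3)

/-- EQD: equidistribution of the matrices in a class of the Galois group. -/
def EQD : Prop := ∀ (s f : ℕ) (G : Type) [Group G] [Finite G] (χ : G →* (ZMod f)ˣ)
  (t : G → Fin s → Fin s → ZMod 3), 0 < f →
  (∀ (a : (ZMod f)ˣ) (v v' : Fin s → Fin s → ZMod 3), M2 a →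
    Nat.card {g : G // χ g = a ∧ ∀ j i, j < i → t g j i = v j i} =
      Nat.card {g : G // χ g = a ∧ ∀ j i, j < i → t g j i = v' j i}) →
  ∀ (a : (ZMod f)ˣ) (C : Fin s → Fin s → ZMod 3) (S : Set (Matrix (Fin s) (Fin s) (ZMod 3))),
    M2 a →
    Nat.card {g : G // χ g = a ∧ alt (C - t g) ∈ S} * Nat.card (Fin s → Fin s → ZMod 3) =
      Nat.card {v : Fin s → Fin s → ZMod 3 // alt v ∈ S} * Nat.card {g : G // χ g = a} ∧
    Nat.card {g : G // χ g = a ∧ alt (C + t g) ∈ S} * Nat.card (Fin s → Fin s → ZMod 3) =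
      Nat.card {v : Fin s → Fin s → ZMod 3 // alt v ∈ S} * Nat.card {g : G // χ g = a}

/-- BDENS: upper bound for the density of the primes with large kernel. -/
def BDENS : Prop := ∀ (s : ℕ) (b : Fin s → ℤ) (p q p' q' : Fin s → Fin s → ℤ) (f m t : ℕ)
  (κ : (ZMod f)ˣ →* Multiplicative (Fin (m + 1) → ZMod 3)) (c : Fin (m + 1) → ZMod 3)
  (C : Fin s → Fin s → ZMod 3) (Φ : (ZMod f)ˣ →* Multiplicative (Fin s → Fin s → ZMod 3)),
  Sys b p q p' q' → 0 < f → 9 ∣ f →
  (∀ c : Fin (m + 1) → ZMod 3,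
    Nat.card {a : (ZMod f)ˣ // M2 a ∧ (κ a).toAdd = c} * (2 * 3 ^ (m + 1)) = f.totient) →
  ∃ K : ℝ, ∀ σ : ℝ, 1 < σ → σ ≤ 2 →
    ∑' Q : {Q : ℕ // Q.Prime ∧ ∃ hQ : Q.Coprime f, Q % 3 = 2 ∧
      (κ (ZMod.unitOfCoprime Q hQ)).toAdd = c ∧
      ∀ τ : Fin s → Fin s → ZMod 3,
        (∀ j i, j ≠ i → ∀ r : ℤ, (Q : ℤ) ∣ r ^ 3 - b j →
          τ j i = TAUV Q (p j i) (q j i) (p' j i) (q' j i) r) →
        t ≤ s - (alt (C + (Φ (ZMod.unitOfCoprime Q hQ)).toAdd - τ)).rank}, (Q : ℝ) ^ (-σ) ≤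
      2 / 3 ^ (t * (t - 1) / 2) / 3 ^ (m + 1) * Real.log (1 / (σ - 1)) + K

/-- BFIN: the distribution of the rank over prime twists. -/
def BFIN : Prop := ∀ (k : ℕ) (r f : Fin k → ℕ), 1 ≤ k → (∀ i, (r i).Prime) →
  (∀ i, r i % 3 = 2) → Function.Injective r → (∀ i, f i = 1 ∨ f i = 2) → ∀ t : ℕ,
  ∃ K : ℝ, ∀ σ : ℝ, 1 < σ → σ ≤ 2 →
    ∑' q : {q : ℕ // q.Prime ∧ q % 3 = 2 ∧ (q % 9 ≠ 8 ∨ ∃ i, r i % 9 ≠ 8) ∧
      t ≤ CubeRank.rr ((∏ i, (r i : ℤ) ^ f i) * q)}, (q : ℝ) ^ (-σ) ≤
    2 / 3 ^ (t * (t - 1) / 2) * Real.log (1 / (σ - 1)) + K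

end Pool.Agent.PT

end
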