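import Mathlib
import Pool.Agent.PTWX.C28

/-! Parts: PT.SLC, PTN.StG, PTN.KID, PTN.KEX, PTN.KAD, PTN.KPL, PTN.KEQ -/

namespace Pool.Agent.PTN.KID
end Pool.Agent.PTN.KID

namespace Pool.Agent.PTN.KEX
end Pool.Agent.PTN.KEX

namespace Pool.Agent.PTN.KAD
end Pool.Agent.PTN.KAD

section

/-!
# Module SLC: the symbol at the prime above `3` is continuous
-/

namespace Pool.Agent.PT

open Pool.Agent.Lib_helper18 Pool.Agent.Lib_helper18.Eis Pool.Agent.Lib_helper84.Cub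

namespace SLC

theorem three_z : (3 : ZMod 3) = 0 := by decide

theorem prim_ne_zero {c : Eis} (hc : Prim c) : c ≠ 0 := by
  rintro rfl
  exact hc.2 (by simp)

theorem w_ne_zero : w ≠ 0 := isUnit_w.ne_zero

theorem wt_congr {m n k : ℤ} (h : m = n + 9 * k) : wt m = wt n := by
  have h1 : (m - 1) / 3 = (n - 1) / 3 + 3 * k := by omega
  rw [wt, wt, h1]
  push_cast
  rw [three_z]
  ring

/-- additivity in the second variable -/
theorem mul_right (hSSL : SSL) {a b c : Eis} (ha : a ≠ 0) (hb : b ≠ 0) (hc : c ≠ 0) :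
    sl c (a * b) = sl c a + sl c b := by
  have h1 := hSSL.1 a b c ha hb hc
  have h2 := hSSL.2.1 (a * b) c (mul_ne_zero ha hb) hc
  have h3 := hSSL.2.1 a c ha hc
  have h4 := hSSL.2.1 b c hb hc
  rw [h2, h3, h4, h1]
  ring

theorem one_left (hSSL : SSL) {c : Eis} (hc : c ≠ 0) : sl 1 c = 0 := by
  have h1 := hSSL.1 1 1 c one_ne_zero one_ne_zero hc
  rw [one_mul] at h1
  linear_combination -h1

theorem pow_left (hSSL : SSL) {a c : Eis} (ha : a ≠ 0) (hc : c ≠ 0) (n : ℕ) :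
    sl (a ^ n) c = n * sl a c := by
  induction n with
  | zero => rw [pow_zero, one_left hSSL hc]; simp
  | succ n ih =>
    rw [pow_succ, hSSL.1 _ _ _ (pow_ne_zero _ ha) ha hc, ih]
    push_cast
    ring

theorem pow_right (hSSL : SSL) {a c : Eis} (ha : a ≠ 0) (hc : c ≠ 0) (n : ℕ) :
    sl c (a ^ n) = n * sl c a := by
  have h2 := hSSL.2.1 (a ^ n) c (pow_ne_zero _ ha) hc
  have h3 := hSSL.2.1 a c ha hc
  rw [h2, h3, pow_left hSSL ha hc]
  ring

theorem lam_four : lam ^ 4 = 9 * w ^ 2 := by decide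

theorem nine_re : (9 : Eis).re = 9 := by decide

theorem nine_im : (9 : Eis).im = 0 := by decide

/-- the value on a primary element -/
theorem prim_left (hSSL : SSL) (hSREC : SREC) {b d : Eis} {j l : ℕ} (hb : b ≠ 0) (hd : Prim d)
    (e : b * w ^ l = lam ^ j * d) {c : Eis} (hc : Prim c) :
    sl c b = j * (2 * wt (c.re ^ 2)) - l * wt c.norm := by
  have hc0 := prim_ne_zero hc
  have hd0 := prim_ne_zero hd
  have hl0 : lam ≠ 0 := prime_lam.ne_zero
  have h1 := mul_right hSSL hb (pow_ne_zero l w_ne_zero) hc0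
  have h2 := mul_right hSSL (pow_ne_zero j hl0) hd0 hc0
  rw [e, h2, pow_right hSSL hl0 hc0, pow_right hSSL w_ne_zero hc0, hSREC.1 c d hc hd,
    hSREC.2.1 c hc, hSREC.2.2.1 c hc] at h1
  linear_combination -h1

/-- the value depends only on the residue modulo `9` -/
theorem prim_congr (hSSL : SSL) (hSREC : SREC) {b c c' t : Eis} (hb : b ≠ 0) (hc : Prim c)
    (e : c' = c + 9 * t) : Prim c' ∧ sl c' b = sl c b := by
  have hre : c'.re = c.re + 9 * t.re := by rw [e, add_re, mul_re, nine_re, nine_im]; ring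
  have him : c'.im = c.im + 9 * t.im := by rw [e, add_im, mul_im, nine_re, nine_im]; ring
  have hc' : Prim c' := by
    refine ⟨?_, ?_⟩
    · have := hc.1
      omega
    · have := hc.2
      omega
  refine ⟨hc', ?_⟩
  obtain ⟨b1, hb1, hlb⟩ := V_split prime_lam hb
  obtain ⟨l, hl⟩ := exists_prim hlb
  have e1 : b * w ^ l = lam ^ (V lam b) * (b1 * w ^ l) := by
    rw [← mul_assoc, ← hb1]
  have h1 : wt (c'.re ^ 2) = wt (c.re ^ 2) :=
    wt_congr (k := 2 * c.re * t.re + 9 * t.re ^ 2) (by rw [hre]; ring)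
  have h2 : wt c'.norm = wt c.norm :=
    wt_congr (k := (2 * c.re * t.re + 9 * t.re ^ 2) - (c.re * t.im + t.re * c.im + 9 * t.re * t.im)
      + (2 * c.im * t.im + 9 * t.im ^ 2)) (by rw [norm_def, norm_def, hre, him]; ring)
  rw [prim_left hSSL hSREC hb hl e1 hc', prim_left hSSL hSREC hb hl e1 hc, h1, h2]

theorem cont (hSSL : SSL) (hSREC : SREC) (a a' b : Eis) (ha : a ≠ 0) (hb : b ≠ 0)
    (h : lam ^ (V lam a + 4) ∣ a' - a) : sl a' b = sl a b := by
  obtain ⟨a1, ha1, hla⟩ := V_split prime_lam ha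
  obtain ⟨t, ht⟩ := h
  obtain ⟨i, hi⟩ := exists_prim hla
  have hl0 : lam ≠ 0 := prime_lam.ne_zero
  generalize V lam a = k at ha1 ht
  have e1 : a' = lam ^ k * (a1 + lam ^ 4 * t) := by
    have : a' = a + lam ^ (k + 4) * t := by rw [← ht]; ring
    rw [this, ha1, pow_add]
    ring
  have e2 : (a1 + lam ^ 4 * t) * w ^ i = a1 * w ^ i + 9 * (w ^ 2 * t * w ^ i) := by
    rw [lam_four]; ring
  obtain ⟨hp', hs⟩ := prim_congr hSSL hSREC hb hi e2
  have ha0' : a' ≠ 0 := by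
    rintro rfl
    rcases mul_eq_zero.1 e1.symm with h0 | h0
    · exact pow_ne_zero _ hl0 h0
    · rw [h0, zero_mul] at hp'
      exact prim_ne_zero hp' rfl
  have h1 := hSSL.1 a (w ^ i) b ha (pow_ne_zero _ w_ne_zero) hb
  have h2 := hSSL.1 (lam ^ k) (a1 * w ^ i) b (pow_ne_zero _ hl0) (prim_ne_zero hi) hb
  have h3 := hSSL.1 a' (w ^ i) b ha0' (pow_ne_zero _ w_ne_zero) hb
  have h4 := hSSL.1 (lam ^ k) ((a1 + lam ^ 4 * t) * w ^ i) b (pow_ne_zero _ hl0)
    (prim_ne_zero hp') hb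
  rw [← mul_assoc, ← ha1] at h2
  rw [← mul_assoc, ← e1] at h4
  linear_combination h4 - h3 - h2 + h1 + hs

end SLC

theorem SLC_thm (hSSL : SSL) (hSREC : SREC) : SLC where
  prime := prime_lam
  pos := by norm_num
  mul := hSSL.1
  skew := hSSL.2.1
  stein := hSSL.2.2.1
  cont := SLC.cont hSSL hSREC

end Pool.Agent.PT

end

section

/-!
# The law of the ranks of prime twists for every `n`: the group of `K`-points, `K = Q(w)`

`H = E_A(K)`, `E_A : y² = x³ - 432 A²`, `s = 12 A (w - w²)`, `s² = -432 A²`, `T = (0, s)`.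
`om (x, y) = (w x, y)`, `θ = om - om²` (so `θ² = -3`), `cc` is complex conjugation.
`kap (x, y) = y - s` modulo cubes is a homomorphism with kernel `θ H`.

The group `GA A` of rational points and the coordinates `Crd A P a b c` are those of
`Pool/Agent/CubeRank/Defs.lean`; `CubeRank.basics : BasicsStmt`, `CubeRank.coll`, `CubeRank.gen' :
GenStmt` are proved. `CubeRank/Coll.lean: line_of_sum` treats three collinear points over `ℚ`.
-/

set_option autoImplicit false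

namespace Pool.Agent.PTN

open Pool.Agent.Lib_helper18 Pool.Agent.Lib_helper18.Eis Pool.Agent.Lib_helper84.Cub
open Pool.Agent.PT WeierstrassCurve.Affine

/-! ### The field `K = Q(w)` -/

/-- The data of the field `K = Q(w)`: `ι` is the embedding of `Z[w]` and `c` the complex
conjugation. -/
structure KF (K : Type) [Field K] [CharZero K] (ι : Eis →+* K) (c : K →ₐ[ℚ] K) : Prop where
  inj : Function.Injective ι
  conj : ∀ e : Eis, c (ι e) = ι (conj e)
  frac : ∀ z : K, ∃ (e : Eis) (d : ℤ), d ≠ 0 ∧ z * d = ι e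

/-- PTN_KEX: existence of the field `K`.
Proof. `K = FractionRing Eis` (`Eis` is an integral domain of characteristic `0`; instance
`CharZero (FractionRing Eis)` by injectivity of `algebraMap`), `ι = algebraMap`, `c` the ring
homomorphism induced by `conj` (`IsFractionRing.lift` or `IsFractionRing.ringEquivOfRingEquiv`; a ring
homomorphism between fields of characteristic `0` is a `ℚ`-algebra homomorphism,
`RingHom.toRatAlgHom`), `frac`: an element is `ι a / ι b`, `b ≠ 0`, and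
`ι a / ι b * (b * conj b) = ι (a * conj b)` with `b * conj b = (norm b : ℤ) ≠ 0` (`mul_conj`). -/
def Stmt_KEX : Prop := ∃ (K : Type) (_ : Field K) (_ : CharZero K) (_ : DecidableEq K) (ι : Eis →+* K)
  (c : K →ₐ[ℚ] K), KF K ι c

/-- The group of `K`-points of `y² = x³ - 432 A²`. -/
abbrev HH (A : ℤ) (K : Type) [Field K] [CharZero K] : Type :=
  (WeierstrassCurve.Affine.baseChange (CubeRank.EA A).toAffine K).Point

/-- the square root `12 A (w - w²)` of `-432 A²` -/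
def sD {K : Type} [Field K] (ι : Eis →+* K) (A : ℤ) : K := 12 * A * (ι w - ι w ^ 2)

/-- PTN_KEQ: the points.
Proof. The base change has `a₆ = algebraMap ℚ K (-432 A²) = -432 A²` and the other coefficients `0`
(`WeierstrassCurve.map`, `simp`); `nonsingular_iff`, `equation_iff`: the equation is
`y² = x³ - 432 A²`; nonsingular: `x ≠ 0 ∨ y ≠ 0`, more precisely `3 x² ≠ 0 ∨ 2 y ≠ 0`, and `x = y = 0`
would give `432 A² = 0`. Second part: `(ι w - ι w²)² = -3` (`w² + w + 1 = 0`, lemma `w_rel`) and it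
is not `0`. Third: `c (ι w) = ι (conj w) = ι w²`. -/
def Stmt_KEQ : Prop := ∀ (K : Type) [Field K] [CharZero K] [DecidableEq K] (ι : Eis →+* K) (c : K →ₐ[ℚ] K) (A : ℤ),
  KF K ι c → A ≠ 0 →
  (∀ x y : K, (WeierstrassCurve.Affine.baseChange (CubeRank.EA A).toAffine K).Nonsingular x y ↔
    y ^ 2 = x ^ 3 - 432 * (A : K) ^ 2) ∧
  sD ι A ^ 2 = -432 * (A : K) ^ 2 ∧ sD ι A ≠ 0 ∧ c (sD ι A) = - sD ι A ∧
  (ι w) ^ 2 + ι w + 1 = 0 ∧ ι w ≠ 1

/-- PTN_KEMB: the rational points.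
Proof. Complex conjugation is `WeierstrassCurve.Affine.Point.map c` (Mathlib) and the embedding is
the map of `GA A` with `P = (x, y) ↦ ((x : K), (y : K))`; to get it as a homomorphism use
`Point.map (Algebra.ofId ℚ K)` and the identification of `GA A` with the points over `ℚ` of the base
change to `ℚ` (the same curve: `WeierstrassCurve.map_id`), or prove additivity directly from the
addition formulas as in the proof of `Point.map`. `cc Q = Q` means that `x` and `y` are fixed by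
`c`; `x d = ι e`, `c x = x` gives `conj e = e`, so `e` is a rational integer (`conj e = e` implies
`e.im = 0`) and `x = e / d` is rational. -/
def Stmt_KEMB : Prop := ∀ (K : Type) [Field K] [CharZero K] [DecidableEq K] (ι : Eis →+* K) (c : K →ₐ[ℚ] K) (A : ℤ),
  KF K ι c → A ≠ 0 →
  ∃ (cc : HH A K →+ HH A K) (j : CubeRank.GA A →+ HH A K),
    (∀ x y h, ∃ h', cc (.some x y h) = .some (c x) (c y) h') ∧
    (∀ x y h, ∃ h', j (.some x y h) = .some (x : K) (y : K) h') ∧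
    Function.Injective j ∧ (∀ Q, cc (cc Q) = Q) ∧ ∀ Q, cc Q = Q ↔ ∃ P, j P = Q

/-- PTN_KOM: multiplication by `w`.
Proof. `om 0 = 0`, `om (x, y) = (w x, y)` (`w³ = 1`, `KEQ`). Additive: if `x₁ = x₂` and
`y₁ = -y₂` both sides are `0`; otherwise the slope of the images is `w²` times the slope `ℓ` (in both
cases of `WeierstrassCurve.Affine.slope`: `(y₁ - y₂) / (x₁ - x₂)`, and `3 x² / (2 y)` for a tangent),
so `addX = ℓ² - x₁ - x₂` becomes `w⁴ ℓ² - w x₁ - w x₂ = w addX` and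
`negAddY = ℓ (addX - x₁) + y₁` is unchanged. See the proof of `Point.map` in Mathlib
(`add_of_Y_eq`, `add_some`). Sum: `Q + om Q = - om (om Q)` for `Q = (x, y)`: for `x ≠ 0` the two points
have different first coordinates, the slope is `0`, `addX = - x - w x = w² x`, `negAddY = y`; for
`x = 0` (then `y ≠ 0`) `om Q = Q` and the tangent has slope `0`, so `Q + Q = (0, -y) = -Q`. Last part:
both sides are `(c w · c x, c y)`, `c w = w²`. -/
def Stmt_KOM : Prop := ∀ (K : Type) [Field K] [CharZero K] [DecidableEq K] (ι : Eis →+* K) (c : K →ₐ[ℚ] K) (A : ℤ),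
  KF K ι c → A ≠ 0 →
  ∃ om : HH A K →+ HH A K, (∀ x y h, ∃ h', om (.some x y h) = .some (ι w * x) y h') ∧
    (∀ Q, Q + om Q + om (om Q) = 0) ∧
    ∀ cc : HH A K →+ HH A K, (∀ x y h, ∃ h', cc (.some x y h) = .some (c x) (c y) h') →
      ∀ Q, cc (om Q) = om (om (cc Q))

open Classical in
/-- the Kummer map -/
noncomputable def kap {A : ℤ} {K : Type} [Field K] [CharZero K] (ι : Eis →+* K) : HH A K → K
  | .zero => 1
  | .some _ y _ => if y = sD ι A then (y + sD ι A) ^ 2 else y - sD ι A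

/-- PTN_KAD: the Kummer map is a homomorphism modulo cubes.
Proof. Write `s = sD ι A`. (0) `kap Q ≠ 0` (`y = s` gives `2 s ≠ 0`). (1) `kap (-Q) kap Q` is a cube:
`-Q = (x, -y)`; if `y ≠ ± s` it is `(y - s)(-y - s) = -(y² - s²) = (-x)³`; if `y = s` it is
`(2 s)² (-2 s) = (-2 s)³`, the same for `y = -s`. (2) If `P₁ + P₂ + P₃ = 0` with three affine points
then `kap P₁ kap P₂ kap P₃` is a cube: by `line_of_sum` (CubeRank/Coll.lean, same proof over `K`)
`y_k = ℓ x_k + μ`, `x₁ + x₂ + x₃ = ℓ²`, `e₂ = -2 ℓ μ`, `x₁ x₂ x₃ = μ² - s²`. Then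
`∏ (y_k - s) = ℓ³ e₃ + ℓ² e₂ (μ - s) + ℓ e₁ (μ - s)² + (μ - s)³ = (μ - s)³`. If no `y_k = s` this is
the claim. If `y₁ = s` then `x₁ = 0` (`x₁³ = y₁² - s² = 0`), `μ = s`, `x₂ x₃ = -2 ℓ s`. If
`x₂ ≠ 0 ≠ x₃` then `y₂ - s = ℓ x₂`, `y₃ - s = ℓ x₃`; both are nonzero because `y₂ = s` would imply
`x₂ = 0`, and `kap P₂ kap P₃ = ℓ² x₂ x₃ = -2 s ℓ³`, `kap P₁ = (2 s)²`, product
`(-2 s ℓ)³`. If `x₂ = 0` then `ℓ = 0` (`x₂ x₃ = -2 ℓ s`), `x₃ = ℓ² = 0` and all three points are `(0, s)`: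
product `(4 s²)³`. (3) General `P, Q`: if `P = 0` or `Q = 0` take `g = 1`; if `P + Q = 0` use (1);
otherwise use (2) for `P, Q, -(P + Q)` and (1) for `P + Q`. -/
def Stmt_KAD : Prop := ∀ (K : Type) [Field K] [CharZero K] [DecidableEq K] (ι : Eis →+* K) (c : K →ₐ[ℚ] K) (A : ℤ),
  KF K ι c → A ≠ 0 → (∀ Q : HH A K, kap ι Q ≠ 0) ∧
  ∀ P Q : HH A K, ∃ g : K, g ≠ 0 ∧ kap ι (P + Q) = kap ι P * kap ι Q * g ^ 3

/-- PTN_KKE: the kernel of the Kummer map.
Proof. `Q = 0`: `R = 0`. `Q = (x, y)`. If `y = s`: `4 s² = g³`; `4 s² = -1728 A² = (-12)³ A²`, so `A²`,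
hence `A = (A²)² / A³`, is a cube in `K`. If `y = -s`: `-2 s = g³`,
`-2 s = -24 A (w - w²)` and `(w - w²)³ = -3 (w - w²)`, so `-2 s = 8 A (w - w²)³` and `A` is a cube in
`K`. A rational integer that is a cube `z³` in `K` is a cube: `z d = ι e`, `e³ = A d³` in `Eis`;
taking norms `N(e)³ = (A d³)²`, so `A²` is a cube of a rational number, hence `A` is; a rational
number whose cube is an integer is an integer. Contradiction with the hypothesis. So
`y ≠ ± s`, `x ≠ 0`, `y - s = g³`, put `h = x / g`: `h³ = y + s`, `g h = x`, `h³ - g³ = 2 s`, `h ≠ g`.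
Put `X = -2 s / (h - g)`, `Y = ε (w - w²) s (h + g) / (h - g)` with a sign `ε = ± 1`. Then
`Y² = X³ - 432 A² = X³ + s²` (use `s = (h³ - g³) / 2`, `field_simp; ring` and `(w - w²)² = -3`) and
`om R - om (om R) = Q` for `R = (X, Y)` and the right sign: the points `om R = (w X, Y)` and
`-(om (om R)) = (w² X, -Y)` have different first coordinates, slope
`m = (Y + Y) / (w X - w² X)`, `addX = m² - w X - w² X = m² + X = h g = x`, and
`negAddY = m (x - w X) + Y`, the second coordinate of the sum is its negative, `= ± y` according to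
the sign `ε`. (`Point.add_some`, `slope_of_X_ne`.) -/
def Stmt_KKE : Prop := ∀ (K : Type) [Field K] [CharZero K] [DecidableEq K] (ι : Eis →+* K) (c : K →ₐ[ℚ] K) (A : ℤ),
  KF K ι c → A ≠ 0 → (¬ ∃ n : ℤ, n ^ 3 = A) → ∀ om : HH A K →+ HH A K,
  (∀ x y h, ∃ h', om (.some x y h) = .some (ι w * x) y h') → (∀ Q, Q + om Q + om (om Q) = 0) →
  ∀ Q : HH A K, (∃ g : K, kap ι Q = g ^ 3) → ∃ R, Q = om R - om (om R)

/-- PTN_KIX: the index of `3 G` (pure group theory).
Proof. Put `θ R = om R - om (om R)`. (a) `om³ = 1` (apply `1 + om + om² = 0` to `om Q` and subtract),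
`θ (θ R) = om² R - 2 R + om R·... = -3 R`: `θ θ = om² - 2 om³ + om⁴ = om² + om - 2 = -3`.
(b) `cc (θ R) = om² (cc R) - om (cc R) = - θ (cc R)` (`cc om² = om cc` follows from `cc om = om² cc`).
(c) `3 T = 0` (`T + T + T = 0`). (d) If `cc (θ R) = - θ R` there is `R'` in the range of `j` with
`θ R' = θ R`: `θ (cc R - R) = 0`, so `cc R = R + i T`; `R' = R - i T`: `cc R' = R + i T + i T`
`= R' + 3 i T = R'`, and `θ R' = θ R` as `θ T = 0`. (e) If `cc (θ R) = θ R` then `cc R = -R`: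
`θ (cc R + R) = 0`, `cc R = -R + i T`, apply `cc`: `R = -cc R - i T = R - 2 i T`, so `2 i T = 0`,
`i T = 0`. (f) Choose for every value `α` of `Ψ₁` a `P_α ∈ G` with `Ψ₁ P_α = α`, and for every value
`β` of `Ψ₂` on `{Q | cc Q = -Q}` such a `Q_β`; `cc (θ Q_β) = θ Q_β`, so `θ Q_β = j (S_β)`. For `P ∈ G`,
`α = Ψ₁ P`: `j (P - P_α) ∈ N`, `= θ Q`, and it is fixed by `cc`, so `cc Q = -Q` by (e). With
`β = Ψ₂ Q`: `Q - Q_β - i T ∈ N`, `= θ R`, `cc (θ R) = - θ R`, so by (d) we may take `R = j U`. Then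
`j (P - P_α) = θ Q = θ Q_β + θ θ (j U) = j (S_β - 3 U)`. So every `P` is congruent modulo `3 G` to one
of the at most `|W₁| |W₂|` elements `P_α + S_β`: the map `W₁ × W₂ → G ⧸ 3 G` is surjective. -/
def Stmt_KIX : Prop := ∀ (G H : Type) [AddCommGroup G] [AddCommGroup H] (j : G →+ H)
  (om cc : H →+ H) (T : H) (N : AddSubgroup H) (W₁ W₂ : Type) [Finite W₁] [Finite W₂]
  (Ψ₁ : G → W₁) (Ψ₂ : H → W₂),
  Function.Injective j → (∀ Q, Q + om Q + om (om Q) = 0) →
  (∀ Q, cc (om Q) = om (om (cc Q))) → (∀ Q, cc (cc Q) = Q) → (∀ Q, cc Q = Q ↔ ∃ P, j P = Q) →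
  om T = T → cc T = -T → (∀ R, om R = om (om R) → ∃ i : ℕ, R = i • T) →
  (∀ Q ∈ N, ∃ R, Q = om R - om (om R)) →
  (∀ P P', Ψ₁ P = Ψ₁ P' → j (P - P') ∈ N) →
  (∀ Q Q', cc Q = -Q → cc Q' = -Q' → Ψ₂ Q = Ψ₂ Q' → ∃ i : ℕ, Q - Q' - i • T ∈ N) →
  ((nsmulAddMonoidHom (α := G) 3).range).FiniteIndex ∧
    ((nsmulAddMonoidHom (α := G) 3).range).index ≤ Nat.card W₁ * Nat.card W₂

/-- PTN_KMI: the class of a rational point.
Proof. `x = 12 A c / (a + b)`, `y = 36 A (a - b) / (a + b)` (`a + b ≠ 0`: `a³ + b³ = A c³ ≠ 0`),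
`y ≠ s` since `y` is rational, `s ≠ 0` and `c(s) = -s`. With `δ = w - w²`, `δ² = -3`:
`y - s = (12 A / (a + b)) (3 (a - b) - δ (a + b)) = (12 A / (a + b)) (-δ) ((a + b) + δ (a - b))` and
`(a + b) + δ (a - b) = -2 w² (a + w² b)` (check: `1 + δ = -2 w²`, `1 - δ = -2 w = -2 w² w²`).
So `y - s = 24 A δ w² (a + w² b) / (a + b)`; `24 δ = (-2 δ)³` as `δ³ = -3 δ`; and
`A = (a + b)(a + w b)(a + w² b) / c³`. -/
def Stmt_KMI : Prop := ∀ (K : Type) [Field K] [CharZero K] [DecidableEq K] (ι : Eis →+* K) (c : K →ₐ[ℚ] K) (A : ℤ),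
  KF K ι c → A ≠ 0 → ∀ j : CubeRank.GA A →+ HH A K,
  (∀ x y h, ∃ h', j (.some x y h) = .some (x : K) (y : K) h') →
  ∀ (P : CubeRank.GA A) (a b z : ℤ), CubeRank.Crd A P a b z →
    ∃ g : K, g ≠ 0 ∧
      kap ι (j P) = ι (w ^ 2 * (((a : Eis) + w * b) * ((a : Eis) + w ^ 2 * b) ^ 2)) * g ^ 3

/-- PTN_KPL: the class of a point with `cc Q = -Q`.
Proof. `Q = 0`: first case, `i = 0`, `g = 1`. `Q = (x, y)`, `c x = x`, `c y = -y`: `x` is rational
(see `KEMB`), `y = δ η` with `η` rational, `δ = w - w²` (`c (y / δ) = y / δ`). `x = 0`: `y = ± s`,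
`kap Q = 4 s² = (-12)³ A²`, resp. `kap Q = -2 s = (2 δ)³ A`: first case with `i = 2` or `1`.
`x ≠ 0`: `-3 η² = x³ - 432 A²`. With `u = 12 A - η`, `v = 12 A + η`: `x³ = 3 u v`,
`u + v - 24 A = 0`, `u v (-24 A) = A (-2 x)³`, and `kap Q = y - s = δ (η - 12 A) = -δ u`. Multiply
`(u, v, -24 A)` by a common denominator and divide by the greatest common divisor: integers
`(a₀, a₁, a₂) = t (u, v, -24 A)`, `t` rational, without a common prime divisor, `a₀ + a₁ + a₂ = 0`, so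
pairwise coprime, `a₀ a₁ a₂ = A m³` with `m = -2 x t` rational, and `m` is an integer because `A` is
cube-free (`A m³` is an integer: if a prime `l` divides the denominator of `m` then `l³ ∣ A`). Class:
`-δ u` is `u / 3` up to the cube `δ³ = -3 δ`; `v = x³ / (3 u)`, so
`a₀² a₁ = t³ u² v = t³ u x³ / 3`, which is `u / 3` times a cube. -/
def Stmt_KPL : Prop := ∀ (K : Type) [Field K] [CharZero K] [DecidableEq K] (ι : Eis →+* K) (c : K →ₐ[ℚ] K) (A : ℤ),
  KF K ι c → A ≠ 0 → CubeRank.CubeFree A → ∀ cc : HH A K →+ HH A K,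
  (∀ x y h, ∃ h', cc (.some x y h) = .some (c x) (c y) h') → ∀ Q : HH A K, cc Q = -Q →
    (∃ (i : ℕ) (g : K), g ≠ 0 ∧ kap ι Q = (A : K) ^ i * g ^ 3) ∨
    ∃ (a : Fin 3 → ℤ) (m : ℤ) (g : K), (∀ k, a k ≠ 0) ∧ a 0 + a 1 + a 2 = 0 ∧
      a 0 * a 1 * a 2 = A * m ^ 3 ∧ (∀ i j, i ≠ j → IsCoprime (a i) (a j)) ∧ g ≠ 0 ∧
      kap ι Q = ((a 0 ^ 2 * a 1 : ℤ) : K) * g ^ 3

/-! ### The result -/

/-- the classes of the rational points in the minus part -/
def S1 (A : ℤ) (ζ : Eis) : Prop := ζ = 1 ∨ ∃ x y z : ℤ, IsCoprime x y ∧ z ≠ 0 ∧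
  x ^ 3 + y ^ 3 = A * z ^ 3 ∧ ζ = w ^ 2 * (((x : Eis) + w * y) * ((x : Eis) + w ^ 2 * y) ^ 2)

/-- the classes of the points of the isogenous curve in the plus part -/
def S2 (A : ℤ) (z : ℤ) : Prop := z = 1 ∨ ∃ (a : Fin 3 → ℤ) (m : ℤ), (∀ k, a k ≠ 0) ∧
  a 0 + a 1 + a 2 = 0 ∧ a 0 * a 1 * a 2 = A * m ^ 3 ∧ (∀ i j, i ≠ j → IsCoprime (a i) (a j)) ∧
  z = a 0 ^ 2 * a 1

/-- PTN_KID: the bound for the index of the subgroup of the multiples of `3` by the two descents.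
Proof. Uses `KEX`, `KEQ`, `KEMB`, `KOM`, `KAD`, `KKE`, `KIX`, `KMI`, `KPL` and `CubeRank.basics`
(existence of `Crd` for `P ≠ 0`). `N = {Q | kap Q is a cube}` is a subgroup by `KAD` (for `-Q`: use `KAD` for
`Q` and `-Q`; `kap 0 = 1`). `T = (0, s)`, `om T = T`, `cc T = (0, -s) = -T`; `om R = om (om R)`:
`R = 0` or `w x = w² x`, so `x = 0`, `y = ± s`: `R = T` or `R = -T = 2 T`. For `P ∈ GA A` choose `ζ_P`:
`1` if `P = 0`, otherwise from coordinates; `kap (j P) = ι ζ_P g³`, `S1 A ζ_P`. `Ψ₁' P = Ψ₁ ζ_P`: if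
`Ψ₁' P = Ψ₁' P'` then `ζ_P g³ = ζ_P' g'³`, so `kap (j P) / kap (j P')` and hence
`kap (j (P - P'))` is a cube. For `Q` with `cc Q = -Q` choose `z_Q` with `S2 A z_Q` and
`kap Q = z_Q A^i g³` by `KPL` (in the first case `z_Q = 1`); `Ψ₂' Q = Ψ₂ z_Q` (arbitrary for other
`Q`); if they agree then `kap (Q - Q') = A^k g³` for some `k : ℕ` (use `A^(-1) = A² / A³`), and
`kap T = 4 s² = (-12)³ A²`, so `kap (Q - Q' - i • T)` is a cube for a suitable `i`.
`threeMul A` is by definition the range in `KIX`. -/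
def Stmt_KID : Prop := ∀ A : ℤ, A ≠ 0 → CubeRank.CubeFree A → (¬ ∃ n : ℤ, n ^ 3 = A) →
  ∀ (W₁ W₂ : Type) [Finite W₁] [Finite W₂] (Ψ₁ : Eis → W₁) (Ψ₂ : ℤ → W₂),
  (∀ ζ ζ', S1 A ζ → S1 A ζ' → Ψ₁ ζ = Ψ₁ ζ' →
    ∃ g g' : Eis, g ≠ 0 ∧ g' ≠ 0 ∧ ζ * g ^ 3 = ζ' * g' ^ 3) →
  (∀ z z', S2 A z → S2 A z' → Ψ₂ z = Ψ₂ z' →
    ∃ (u v : ℤ) (j : ℕ), u ≠ 0 ∧ v ≠ 0 ∧ z * u ^ 3 = z' * A ^ j * v ^ 3) →
  (CubeRank.threeMul A).FiniteIndex ∧
    (CubeRank.threeMul A).index ≤ Nat.card W₁ * Nat.card W₂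

end Pool.Agent.PTN

end

section

/-!
# The two descents bound the index of the multiples of 3
-/

set_option autoImplicit false

namespace Pool.Agent.PTN.KID

open Pool.Agent.Lib_helper18 Pool.Agent.Lib_helper18.Eis Pool.Agent.Lib_helper84.Cub
open Pool.Agent.PT WeierstrassCurve.Affine

variable {K : Type} [Field K] [CharZero K] [DecidableEq K] {ι : Eis →+* K} {A : ℤ}

omit [DecidableEq K] in
theorem kap_zero : kap ι (0 : HH A K) = 1 := rfl

/-- the class of a difference -/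
theorem kap_sub (h0 : ∀ Q : HH A K, kap ι Q ≠ 0)
    (hadd : ∀ P Q : HH A K, ∃ g : K, g ≠ 0 ∧ kap ι (P + Q) = kap ι P * kap ι Q * g ^ 3)
    (P Q : HH A K) : ∃ g : K, g ≠ 0 ∧ kap ι (P - Q) = kap ι P / kap ι Q * g ^ 3 := by
  obtain ⟨g, hg, h⟩ := hadd (P - Q) Q
  rw [sub_add_cancel] at h
  refine ⟨g⁻¹, inv_ne_zero hg, ?_⟩
  have h1 := h0 Q
  rw [h]
  field_simp

/-- the subgroup of the points whose class is a cube -/
noncomputable def cubes (hadd : ∀ P Q : HH A K, ∃ g : K, g ≠ 0 ∧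
      kap ι (P + Q) = kap ι P * kap ι Q * g ^ 3)
    (h0 : ∀ Q : HH A K, kap ι Q ≠ 0) : AddSubgroup (HH A K) where
  carrier := {Q | ∃ g : K, kap ι Q = g ^ 3}
  zero_mem' := ⟨1, by rw [kap_zero]; ring⟩
  add_mem' := by
    rintro P Q ⟨a, ha⟩ ⟨b, hb⟩
    obtain ⟨g, -, hg⟩ := hadd P Q
    exact ⟨a * b * g, by rw [hg, ha, hb]; ring⟩
  neg_mem' := by
    rintro Q ⟨a, ha⟩
    obtain ⟨g, -, hg⟩ := kap_sub h0 hadd 0 Q
    rw [zero_sub, kap_zero, ha] at hg
    exact ⟨a⁻¹ * g, by rw [hg, mul_pow, inv_pow, one_div]⟩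

theorem mem_cubes {hadd : ∀ P Q : HH A K, ∃ g : K, g ≠ 0 ∧
      kap ι (P + Q) = kap ι P * kap ι Q * g ^ 3}
    {h0 : ∀ Q : HH A K, kap ι Q ≠ 0} {Q : HH A K} :
    Q ∈ cubes hadd h0 ↔ ∃ g : K, kap ι Q = g ^ 3 := Iff.rfl

end Pool.Agent.PTN.KID

namespace Pool.Agent.PTN

open Pool.Agent.Lib_helper18 Pool.Agent.Lib_helper18.Eis Pool.Agent.Lib_helper84.Cub
open Pool.Agent.PT WeierstrassCurve.Affine
open Pool.Agent.PTN.KID

theorem KID_thm (h0 : Stmt_KEX) (h1 : Stmt_KEQ) (h2 : Stmt_KEMB) (h3 : Stmt_KOM) (h4 : Stmt_KAD)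
    (h5 : Stmt_KKE) (h6 : Stmt_KIX) (h7 : Stmt_KMI) (h8 : Stmt_KPL) : Stmt_KID := by
  classical
  intro A hA hcf hnc W₁ W₂ _ _ Ψ₁ Ψ₂ hΨ₁ hΨ₂
  obtain ⟨K, fK, cK, dK, ι, c, hK⟩ := h0
  obtain ⟨hns, hs2, hs0, hcs, hw, hw1⟩ := h1 K ι c A hK hA
  obtain ⟨cc, j, hcc, hj, hjinj, hcc2, hccj⟩ := h2 K ι c A hK hA
  obtain ⟨om, hom, hom3, homcc⟩ := h3 K ι c A hK hA
  obtain ⟨hk0, hadd⟩ := h4 K ι c A hK hA
  have hker := h5 K ι c A hK hA hnc om hom hom3
  have hAK : (A : K) ≠ 0 := by exact_mod_cast hA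
  -- the point T
  have hT : (WeierstrassCurve.Affine.baseChange (CubeRank.EA A).toAffine K).Nonsingular 0
      (sD ι A) := by
    rw [hns, hs2]; ring
  obtain ⟨T, hTdef⟩ : ∃ T : HH A K, T = .some 0 (sD ι A) hT := ⟨_, rfl⟩
  have homT : om T = T := by
    obtain ⟨h', e⟩ := hom 0 (sD ι A) hT
    rw [hTdef, e]
    simp
  have hccT : cc T = -T := by
    obtain ⟨h', e⟩ := hcc 0 (sD ι A) hT
    rw [hTdef, e, WeierstrassCurve.Affine.Point.neg_some]
    simp only [map_zero, WeierstrassCurve.Affine.Point.some.injEq, true_and]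
    rw [hcs, WeierstrassCurve.Affine.negY]
    simp [WeierstrassCurve.Affine.baseChange, CubeRank.EA]
  have h3T : T + T + T = 0 := by
    have := hom3 T
    rwa [homT, homT] at this
  have hfix : ∀ R, om R = om (om R) → ∃ i : ℕ, R = i • T := by
    intro R hR
    match R, hR with
    | .zero, _ => exact ⟨0, by rw [zero_smul]; rfl⟩
    | .some x y h, hR =>
      obtain ⟨h', e⟩ := hom x y h
      obtain ⟨h'', e'⟩ := hom (ι w * x) y h'
      rw [e, e'] at hR
      rw [WeierstrassCurve.Affine.Point.some.injEq] at hR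
      have hx : x = 0 := by
        have h5 := hR.1
        have h6 : (ι w - ι w ^ 2) * x = 0 := by linear_combination h5
        rcases mul_eq_zero.1 h6 with h7 | h7
        · exfalso
          have h8 : ι w * (1 - ι w) = 0 := by linear_combination h7
          rcases mul_eq_zero.1 h8 with h9 | h9
          · rw [h9] at hw; simp at hw
          · exact hw1 (sub_eq_zero.1 h9).symm
        · exact h7
      subst hx
      have hy := (hns 0 y).1 h
      have hy2 : (y - sD ι A) * (y + sD ι A) = 0 := by linear_combination hy - hs2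
      rcases mul_eq_zero.1 hy2 with h7 | h7
      · refine ⟨1, ?_⟩
        rw [one_smul, hTdef, WeierstrassCurve.Affine.Point.some.injEq]
        exact ⟨rfl, sub_eq_zero.1 h7⟩
      · refine ⟨2, ?_⟩
        have h8 : (2 : ℕ) • T = -T := by
          rw [two_smul]
          exact eq_neg_of_add_eq_zero_left h3T
        rw [h8, ← hccT, hTdef]
        obtain ⟨h', e⟩ := hcc 0 (sD ι A) hT
        rw [e, WeierstrassCurve.Affine.Point.some.injEq, map_zero, hcs]
        exact ⟨rfl, by linear_combination h7⟩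
  -- the classes of the rational points
  have hζ : ∀ P : CubeRank.GA A, ∃ ζ : Eis, S1 A ζ ∧ ∃ g : K, g ≠ 0 ∧
      kap ι (j P) = ι ζ * g ^ 3 := by
    intro P
    by_cases hP : P = 0
    · refine ⟨1, Or.inl rfl, 1, one_ne_zero, ?_⟩
      rw [hP, map_zero, kap_zero, map_one]; ring
    · obtain ⟨a, b, z, hC⟩ := (CubeRank.basics A hA).1 hcf P hP
      obtain ⟨g, hg, e⟩ := h7 K ι c A hK hA j hj P a b z hC
      exact ⟨_, Or.inr ⟨a, b, z, hC.2.1, hC.1, hC.2.2.1, rfl⟩, g, hg, e⟩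
  choose ζ hζS gζ hgζ hζe using hζ
  -- the classes of the points of the plus part
  have hz : ∀ Q : HH A K, ∃ z : ℤ, cc Q = -Q → S2 A z ∧ ∃ (i : ℕ) (g : K), g ≠ 0 ∧
      kap ι Q = (z : K) * (A : K) ^ i * g ^ 3 := by
    intro Q
    by_cases hQ : cc Q = -Q
    · rcases h8 K ι c A hK hA hcf cc hcc Q hQ with ⟨i, g, hg, e⟩ | ⟨a, m, g, ha0, hs, hp, hco, hg, e⟩
      · exact ⟨1, fun _ => ⟨Or.inl rfl, i, g, hg, by rw [e]; push_cast; ring⟩⟩
      · exact ⟨a 0 ^ 2 * a 1, fun _ => ⟨Or.inr ⟨a, m, ha0, hs, hp, hco, rfl⟩, 0, g, hg,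
          by rw [e]; ring⟩⟩
    · exact ⟨1, fun h => absurd h hQ⟩
  choose z hzS using hz
  -- multiples of T
  have hkT : kap ι T = (A : K) ^ 2 * (-12) ^ 3 := by
    have e : kap ι T = (sD ι A + sD ι A) ^ 2 := by
      rw [hTdef]
      simp only [kap, if_true]
    rw [e]
    linear_combination 4 * hs2
  have hnT : ∀ n : ℕ, ∃ g : K, g ≠ 0 ∧ kap ι (n • T) = (A : K) ^ (2 * n) * g ^ 3 := by
    intro n
    induction n with
    | zero => exact ⟨1, one_ne_zero, by rw [zero_smul, kap_zero]; ring⟩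
    | succ n ih =>
      obtain ⟨g, hg, e⟩ := ih
      obtain ⟨g', hg', e'⟩ := hadd (n • T) T
      refine ⟨g * (-12) * g', mul_ne_zero (mul_ne_zero hg (by norm_num)) hg', ?_⟩
      rw [succ_nsmul, e', e, hkT]
      ring
  refine h6 (CubeRank.GA A) (HH A K) j om cc T (cubes hadd hk0) W₁ W₂ (fun P => Ψ₁ (ζ P))
    (fun Q => Ψ₂ (z Q)) hjinj hom3 (homcc cc hcc) hcc2 hccj homT hccT hfix ?_ ?_ ?_
  · intro Q hQ
    exact hker Q (mem_cubes.1 hQ)
  · intro P P' hPP
    rw [mem_cubes, map_sub]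
    obtain ⟨g, g', hg, hg', e⟩ := hΨ₁ _ _ (hζS P) (hζS P') hPP
    obtain ⟨k, -, ek⟩ := kap_sub hk0 hadd (j P) (j P')
    have hk1 := hk0 (j P')
    have e1 := hζe P
    have e2 := hζe P'
    have hz' : ι (ζ P') ≠ 0 := by
      intro h
      rw [e2, h, zero_mul] at hk1
      exact hk1 rfl
    have hgK : ι g ≠ 0 := by
      intro h
      exact hg (hK.inj (by rw [h, map_zero]))
    have e3 : ι (ζ P) * ι g ^ 3 = ι (ζ P') * ι g' ^ 3 := by
      have := congrArg ι e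
      simpa using this
    have hg1 := hgζ P'
    refine ⟨ι g' * gζ P * k / (ι g * gζ P'), ?_⟩
    rw [ek, e1, e2]
    field_simp
    linear_combination (gζ P) ^ 3 * k ^ 3 * e3
  · intro Q Q' hQ hQ' hQQ
    obtain ⟨hS, i, g, hg, e⟩ := hzS Q hQ
    obtain ⟨hS', i', g', hg', e'⟩ := hzS Q' hQ'
    obtain ⟨u, v, l, hu, hv, euv⟩ := hΨ₂ _ _ hS hS' hQQ
    obtain ⟨n, hn⟩ : ∃ n, n = 2 * (l + i + 2 * i') := ⟨_, rfl⟩
    refine ⟨n, ?_⟩
    rw [mem_cubes]
    obtain ⟨k, -, ek⟩ := kap_sub hk0 hadd (Q - Q') (n • T)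
    obtain ⟨k', -, ek'⟩ := kap_sub hk0 hadd Q Q'
    obtain ⟨t, ht, et⟩ := hnT n
    have hk1 := hk0 Q'
    have hz' : (z Q' : K) ≠ 0 := by
      intro h
      rw [e', h, zero_mul, zero_mul] at hk1
      exact hk1 rfl
    have huK : (u : K) ≠ 0 := by exact_mod_cast hu
    have euvK : (z Q : K) * (u : K) ^ 3 = (z Q' : K) * (A : K) ^ l * (v : K) ^ 3 := by
      exact_mod_cast euv
    refine ⟨(v : K) * g * k' * k / ((u : K) * g' * t * (A : K) ^ (l + i + 3 * i')), ?_⟩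
    rw [ek, ek', e, e', et, hn]
    have hpow : (A : K) ^ (2 * (2 * (l + i + 2 * i'))) * (A : K) ^ i' =
        (A : K) ^ l * (A : K) ^ i * ((A : K) ^ (l + i + 3 * i')) ^ 3 := by
      rw [← pow_mul, ← pow_add, ← pow_add, ← pow_add]
      congr 1
      ring
    have hA1 : (A : K) ^ i' ≠ 0 := pow_ne_zero _ hAK
    have hA2 : (A : K) ^ (2 * (2 * (l + i + 2 * i'))) ≠ 0 := pow_ne_zero _ hAK
    have hA3 : (A : K) ^ (l + i + 3 * i') ≠ 0 := pow_ne_zero _ hAK
    obtain ⟨X, hX⟩ : ∃ X, X = (A : K) ^ (2 * (2 * (l + i + 2 * i'))) := ⟨_, rfl⟩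
    obtain ⟨Y, hY⟩ : ∃ Y, Y = (A : K) ^ i' := ⟨_, rfl⟩
    obtain ⟨Z, hZ⟩ : ∃ Z, Z = (A : K) ^ (l + i + 3 * i') := ⟨_, rfl⟩
    obtain ⟨U, hU⟩ : ∃ U, U = (A : K) ^ l := ⟨_, rfl⟩
    obtain ⟨V, hV⟩ : ∃ V, V = (A : K) ^ i := ⟨_, rfl⟩
    rw [← hX, ← hY, ← hU, ← hV, ← hZ] at hpow
    rw [← hU] at euvK
    rw [← hX, ← hY, ← hV, ← hZ]
    rw [← hY] at hA1
    rw [← hX] at hA2
    rw [← hZ] at hA3
    have hzQ : (z Q : K) = (z Q' : K) * U * (v : K) ^ 3 / (u : K) ^ 3 := by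
      rw [eq_div_iff (pow_ne_zero _ huK)]
      exact euvK
    have hXe : X = U * V * Z ^ 3 / Y := by
      rw [eq_div_iff hA1]
      exact hpow
    have hUV : U * V ≠ 0 := by
      rw [hU, hV]
      exact mul_ne_zero (pow_ne_zero _ hAK) (pow_ne_zero _ hAK)
    have hU0 : U ≠ 0 := left_ne_zero_of_mul hUV
    have hV0 : V ≠ 0 := right_ne_zero_of_mul hUV
    rw [hzQ, hXe]
    field_simp

end Pool.Agent.PTN

end

section

/-!
# KEX: existence of the field `K = Q(w)`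
-/

set_option autoImplicit false

namespace Pool.Agent.PTN

open Pool.Agent.Lib_helper18 Pool.Agent.Lib_helper18.Eis Pool.Agent.Lib_helper84.Cub
open Pool.Agent.PT WeierstrassCurve.Affine

namespace KEX

theorem alg_inj : Function.Injective (algebraMap Eis (FractionRing Eis)) :=
  IsFractionRing.injective Eis (FractionRing Eis)

theorem charZero : CharZero (FractionRing Eis) := by
  refine ⟨fun m n h => ?_⟩
  have h1 : algebraMap Eis (FractionRing Eis) (m : Eis) =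
      algebraMap Eis (FractionRing Eis) (n : Eis) := by
    rw [map_natCast, map_natCast]
    exact h
  have h2 := congrArg Eis.re (alg_inj h1)
  rw [natCast_re, natCast_re] at h2
  exact_mod_cast h2

theorem conj_inj : Function.Injective
    ((algebraMap Eis (FractionRing Eis)).comp Eis.conj) := by
  intro a b h
  have h1 : Eis.conj a = Eis.conj b := alg_inj h
  rw [← conj_conj a, ← conj_conj b, h1]

end KEX

open _root_.Pool.Agent.PTN.KEX in
theorem KEX_thm : Stmt_KEX := by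
  classical
  refine ⟨FractionRing Eis, inferInstance, charZero, inferInstance,
    algebraMap Eis (FractionRing Eis), ?_⟩
  have hc := charZero
  refine ⟨(IsFractionRing.lift conj_inj : FractionRing Eis →+* FractionRing Eis).toRatAlgHom,
    alg_inj, ?_, ?_⟩
  · intro e
    exact IsFractionRing.lift_algebraMap conj_inj e
  · intro z
    obtain ⟨a, b, hb, rfl⟩ := IsFractionRing.div_surjective (A := Eis) z
    have hb0 : b ≠ 0 := nonZeroDivisors.ne_zero hb
    have hbi : algebraMap Eis (FractionRing Eis) b ≠ 0 := fun h =>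
      hb0 (alg_inj (h.trans (map_zero _).symm))
    refine ⟨a * Eis.conj b, b.norm, (norm_pos hb0).ne', ?_⟩
    have h1 : ((b.norm : ℤ) : FractionRing Eis) =
        algebraMap Eis (FractionRing Eis) b * algebraMap Eis (FractionRing Eis) (Eis.conj b) := by
      rw [← map_mul, mul_conj, map_intCast]
    rw [h1, map_mul]
    field_simp

end Pool.Agent.PTN

end

section

/-!
# PTN_KAD: the Kummer map is a homomorphism modulo cubes
-/

set_option autoImplicit false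

namespace Pool.Agent.PTN

open Pool.Agent.Lib_helper18 Pool.Agent.Lib_helper18.Eis Pool.Agent.Lib_helper84.Cub
open Pool.Agent.PT WeierstrassCurve.Affine

namespace KAD

/-- the line through three points of sum zero -/
lemma line_of_sum {K : Type} [Field K] [DecidableEq K] {W : WeierstrassCurve.Affine K} {d : K}
    (a1 : W.a₁ = 0) (a2 : W.a₂ = 0) (a3 : W.a₃ = 0) (a4 : W.a₄ = 0) (a6 : W.a₆ = d)
    {x1 y1 x2 y2 x3 y3 : K} {h1 : W.Nonsingular x1 y1}
    {h2 : W.Nonsingular x2 y2} {h3 : W.Nonsingular x3 y3}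
    (h : (Point.some x1 y1 h1 + Point.some x2 y2 h2 + Point.some x3 y3 h3 : W.Point) = 0) :
    ∃ ℓ μ : K, y1 = ℓ * x1 + μ ∧ y2 = ℓ * x2 + μ ∧ y3 = ℓ * x3 + μ ∧ x1 + x2 + x3 = ℓ ^ 2 ∧
      x1 * x2 + x1 * x3 + x2 * x3 = -2 * ℓ * μ ∧ x1 * x2 * x3 = μ ^ 2 - d := by
  by_cases hxy : x1 = x2 ∧ y1 = W.negY x2 y2
  · rw [Point.add_of_Y_eq hxy.1 hxy.2, zero_add] at h
    exact absurd h (Point.some_ne_zero _)
  have hR : (Point.some x3 y3 h3 : W.Point) = -(Point.some x1 y1 h1 + Point.some x2 y2 h2) := by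
    rw [eq_neg_iff_add_eq_zero, add_comm]
    exact h
  rw [Point.add_some hxy, Point.neg_some, Point.some.injEq] at hR
  obtain ⟨hx3, hy3⟩ := hR
  have hp := addPolynomial_slope h1.1 h2.1 hxy
  set ℓ := W.slope x1 x2 y1 y2 with hℓ
  rw [addPolynomial_eq, neg_inj, Cubic.prod_X_sub_C_eq, Cubic.toPoly_injective] at hp
  rw [← hx3] at hp
  simp only [Cubic.mk.injEq] at hp
  obtain ⟨-, hb, hc, hd⟩ := hp
  have hx3' : x3 = ℓ ^ 2 - x1 - x2 := by
    rw [hx3, addX, a1, a2]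
    ring
  have hy3' : y3 = ℓ * (x3 - x1) + y1 := by
    rw [hy3, addY, negY_negY, negAddY, ← hx3]
  rw [a1, a3, a4] at hc
  rw [a3, a6] at hd
  refine ⟨ℓ, y1 - ℓ * x1, by ring, ?_, ?_, ?_, ?_, ?_⟩
  · by_cases hx : x1 = x2
    · have hy : y1 ≠ W.negY x2 y2 := fun h => hxy ⟨hx, h⟩
      have := Y_eq_of_Y_ne h1.1 h2.1 hx hy
      rw [← this, ← hx]
      ring
    · rw [hℓ, slope_of_X_ne hx]
      have : x1 - x2 ≠ 0 := sub_ne_zero.2 hx
      field_simp
      ring
  · rw [hy3']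
    ring
  · rw [hx3']
    ring
  · linear_combination (-1 : K) * hc
  · linear_combination hd

variable {K : Type} [Field K] [CharZero K]

/-- the value of the Kummer map -/
def kv [DecidableEq K] (s y : K) : K := if y = s then (y + s) ^ 2 else y - s

variable [DecidableEq K]

lemma kv_pos (s : K) : kv s s = (2 * s) ^ 2 := by
  unfold kv
  rw [if_pos rfl]
  ring

lemma kv_neg {s y : K} (h : y ≠ s) : kv s y = y - s := if_neg h

lemma kv_ne {s : K} (hs : s ≠ 0) (y : K) : kv s y ≠ 0 := by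
  by_cases h : y = s
  · rw [h, kv_pos]
    exact pow_ne_zero _ (mul_ne_zero two_ne_zero hs)
  · rw [kv_neg h]
    exact sub_ne_zero.2 h

lemma kv_cube_neg {s x y : K} (hs : s ≠ 0) (h : y ^ 2 = x ^ 3 + s ^ 2) :
    ∃ g : K, g ≠ 0 ∧ kv s (-y) * kv s y = g ^ 3 := by
  have key : ∃ g : K, kv s (-y) * kv s y = g ^ 3 := by
    by_cases h1 : y = s
    · have h2 : -s ≠ s := by
        intro h3
        have h4 : 2 * s = 0 := by linear_combination -h3
        rcases mul_eq_zero.1 h4 with h5 | h5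
        · exact two_ne_zero h5
        · exact hs h5
      rw [h1, kv_pos, kv_neg h2]
      exact ⟨-2 * s, by ring⟩
    · by_cases h2 : -y = s
      · rw [h2, kv_pos, kv_neg h1]
        exact ⟨-2 * s, by rw [← h2]; ring⟩
      · rw [kv_neg h1, kv_neg h2]
        exact ⟨-x, by linear_combination -h⟩
  obtain ⟨g, hg⟩ := key
  refine ⟨g, ?_, hg⟩
  rintro rfl
  have h3 := mul_ne_zero (kv_ne hs (-y)) (kv_ne hs y)
  rw [hg] at h3
  simp at h3

lemma kv_line {s ℓ μ x1 x2 x3 y1 y2 y3 : K} (hs : s ≠ 0) (e1 : y1 ^ 2 = x1 ^ 3 + s ^ 2)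
    (e2 : y2 ^ 2 = x2 ^ 3 + s ^ 2) (e3 : y3 ^ 2 = x3 ^ 3 + s ^ 2)
    (l1 : y1 = ℓ * x1 + μ) (l2 : y2 = ℓ * x2 + μ) (l3 : y3 = ℓ * x3 + μ)
    (s1 : x1 + x2 + x3 = ℓ ^ 2) (s2 : x1 * x2 + x1 * x3 + x2 * x3 = -2 * ℓ * μ)
    (s3 : x1 * x2 * x3 = μ ^ 2 - s ^ 2) (h1 : y1 = s) :
    ∃ g : K, kv s y1 * kv s y2 * kv s y3 = g ^ 3 := by
  have hx : ∀ {x y : K}, y ^ 2 = x ^ 3 + s ^ 2 → y = s → x = 0 := by
    intro x y h h'
    rw [h'] at h
    have h2 : x ^ 3 = 0 := by linear_combination -h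
    exact pow_eq_zero_iff (three_ne_zero) |>.1 h2
  have x10 : x1 = 0 := hx e1 h1
  have hμ : μ = s := by rw [← h1, l1, x10]; ring
  have h23 : x2 * x3 = -2 * ℓ * s := by
    rw [← hμ, ← s2, x10]
    ring
  by_cases h2 : x2 = 0
  · have hl : ℓ = 0 := by
      rw [h2, zero_mul] at h23
      have h4 : ℓ * s = 0 := by
        have h5 : (2 : K) * (ℓ * s) = 0 := by linear_combination h23
        exact (mul_eq_zero.1 h5).resolve_left two_ne_zero
      exact (mul_eq_zero.1 h4).resolve_right hs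
    have y2s : y2 = s := by rw [l2, h2, hl, hμ]; ring
    have y3s : y3 = s := by rw [l3, hl, hμ]; ring
    rw [h1, y2s, y3s, kv_pos]
    exact ⟨(2 * s) ^ 2, by ring⟩
  · by_cases h3 : x3 = 0
    · have hl : ℓ = 0 := by
        rw [h3, mul_zero] at h23
        have h4 : ℓ * s = 0 := by
          have h5 : (2 : K) * (ℓ * s) = 0 := by linear_combination h23
          exact (mul_eq_zero.1 h5).resolve_left two_ne_zero
        exact (mul_eq_zero.1 h4).resolve_right hs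
      have y2s : y2 = s := by rw [l2, hl, hμ]; ring
      exact absurd (hx e2 y2s) h2
    · have y2s : y2 ≠ s := fun h => h2 (hx e2 h)
      have y3s : y3 ≠ s := fun h => h3 (hx e3 h)
      rw [h1, kv_pos, kv_neg y2s, kv_neg y3s]
      refine ⟨-2 * s * ℓ, ?_⟩
      rw [l2, l3, hμ]
      linear_combination (2 * s) ^ 2 * ℓ ^ 2 * h23

lemma kv_sum {s ℓ μ x1 x2 x3 y1 y2 y3 : K} (hs : s ≠ 0) (e1 : y1 ^ 2 = x1 ^ 3 + s ^ 2)
    (e2 : y2 ^ 2 = x2 ^ 3 + s ^ 2) (e3 : y3 ^ 2 = x3 ^ 3 + s ^ 2)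
    (l1 : y1 = ℓ * x1 + μ) (l2 : y2 = ℓ * x2 + μ) (l3 : y3 = ℓ * x3 + μ)
    (s1 : x1 + x2 + x3 = ℓ ^ 2) (s2 : x1 * x2 + x1 * x3 + x2 * x3 = -2 * ℓ * μ)
    (s3 : x1 * x2 * x3 = μ ^ 2 - s ^ 2) :
    ∃ g : K, g ≠ 0 ∧ kv s y1 * kv s y2 * kv s y3 = g ^ 3 := by
  have key : ∃ g : K, kv s y1 * kv s y2 * kv s y3 = g ^ 3 := by
    by_cases h1 : y1 = s
    · exact kv_line hs e1 e2 e3 l1 l2 l3 s1 s2 s3 h1
    · by_cases h2 : y2 = s
      · obtain ⟨g, hg⟩ := kv_line hs e2 e1 e3 l2 l1 l3 (by rw [← s1]; ring)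
          (by rw [← s2]; ring) (by rw [← s3]; ring) h2
        exact ⟨g, by rw [← hg]; ring⟩
      · by_cases h3 : y3 = s
        · obtain ⟨g, hg⟩ := kv_line hs e3 e2 e1 l3 l2 l1 (by rw [← s1]; ring)
            (by rw [← s2]; ring) (by rw [← s3]; ring) h3
          exact ⟨g, by rw [← hg]; ring⟩
        · rw [kv_neg h1, kv_neg h2, kv_neg h3]
          refine ⟨μ - s, ?_⟩
          rw [l1, l2, l3]
          linear_combination ℓ ^ 3 * s3 + ℓ ^ 2 * (μ - s) * s2 + ℓ * (μ - s) ^ 2 * s1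
  obtain ⟨g, hg⟩ := key
  refine ⟨g, ?_, hg⟩
  rintro rfl
  have h3 := mul_ne_zero (mul_ne_zero (kv_ne hs y1) (kv_ne hs y2)) (kv_ne hs y3)
  rw [hg] at h3
  simp at h3

end KAD

open _root_.Pool.Agent.PTN.KAD in
theorem KAD_thm (h0 : Stmt_KEQ) : Stmt_KAD := by
  intro K _ _ _ ι c A hK hA
  obtain ⟨hns, hs2, hs, -, -, -⟩ := h0 K ι c A hK hA
  set s := sD ι A with hsd
  set W := WeierstrassCurve.Affine.baseChange (CubeRank.EA A).toAffine K with hW
  have a1 : W.a₁ = 0 := by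
    change algebraMap ℚ K (CubeRank.EA A).a₁ = 0
    simp [CubeRank.EA]
  have a2 : W.a₂ = 0 := by
    change algebraMap ℚ K (CubeRank.EA A).a₂ = 0
    simp [CubeRank.EA]
  have a3 : W.a₃ = 0 := by
    change algebraMap ℚ K (CubeRank.EA A).a₃ = 0
    simp [CubeRank.EA]
  have a4 : W.a₄ = 0 := by
    change algebraMap ℚ K (CubeRank.EA A).a₄ = 0
    simp [CubeRank.EA]
  have a6 : W.a₆ = s ^ 2 := by
    rw [hs2]
    change algebraMap ℚ K (CubeRank.EA A).a₆ = _
    simp [CubeRank.EA]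
  have heq : ∀ {x y : K}, W.Nonsingular x y → y ^ 2 = x ^ 3 + s ^ 2 := by
    intro x y h
    rw [(hns x y).1 h, hs2]
    ring
  have hkz : kap ι (0 : HH A K) = 1 := rfl
  have hks : ∀ (x y : K) (h : W.Nonsingular x y), kap ι (Point.some x y h : HH A K) = kv s y := by
    intro x y h
    by_cases hy : y = s
    · have e1 : kap ι (Point.some x y h : HH A K) = (y + s) ^ 2 := if_pos hy
      have e2 : kv s y = (y + s) ^ 2 := if_pos hy
      rw [e1, e2]
    · have e1 : kap ι (Point.some x y h : HH A K) = y - s := if_neg hy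
      have e2 : kv s y = y - s := if_neg hy
      rw [e1, e2]
  have hne : ∀ Q : HH A K, kap ι Q ≠ 0 := by
    intro Q
    rcases Q with _ | ⟨x, y, h⟩
    · change (1 : K) ≠ 0
      exact one_ne_zero
    · rw [hks]
      exact kv_ne hs y
  have hneg : ∀ Q : HH A K, ∃ g : K, g ≠ 0 ∧ kap ι (-Q) * kap ι Q = g ^ 3 := by
    intro Q
    rcases Q with _ | ⟨x, y, h⟩
    · refine ⟨1, one_ne_zero, ?_⟩
      change (1 : K) * 1 = 1 ^ 3
      ring
    · have hy : W.negY x y = -y := by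
        rw [negY, a1, a3]
        ring
      rw [Point.neg_some, hks, hks, hy]
      exact kv_cube_neg hs (heq h)
  have hsum : ∀ P Q R : HH A K, P ≠ 0 → Q ≠ 0 → R ≠ 0 → P + Q + R = 0 →
      ∃ g : K, g ≠ 0 ∧ kap ι P * kap ι Q * kap ι R = g ^ 3 := by
    intro P Q R hP hQ hR h
    rcases P with _ | ⟨x1, y1, h1⟩
    · exact absurd rfl hP
    rcases Q with _ | ⟨x2, y2, h2⟩
    · exact absurd rfl hQ
    rcases R with _ | ⟨x3, y3, h3⟩
    · exact absurd rfl hR
    obtain ⟨ℓ, μ, l1, l2, l3, s1, s2, s3⟩ := line_of_sum a1 a2 a3 a4 a6 h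
    rw [hks, hks, hks]
    exact kv_sum hs (heq h1) (heq h2) (heq h3) l1 l2 l3 s1 s2 s3
  refine ⟨hne, fun P Q => ?_⟩
  by_cases hP : P = 0
  · refine ⟨1, one_ne_zero, ?_⟩
    rw [hP, zero_add, hkz]
    ring
  by_cases hQ : Q = 0
  · refine ⟨1, one_ne_zero, ?_⟩
    rw [hQ, add_zero, hkz]
    ring
  by_cases hPQ : P + Q = 0
  · obtain ⟨b, hb, hb'⟩ := hneg P
    have hQP : Q = -P := (neg_eq_of_add_eq_zero_right hPQ).symm
    refine ⟨b⁻¹, inv_ne_zero hb, ?_⟩
    rw [hPQ, hkz, hQP, mul_comm (kap ι P), hb', inv_pow, mul_inv_cancel₀ (pow_ne_zero _ hb)]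
  obtain ⟨a, ha, ha'⟩ := hsum P Q (-(P + Q)) hP hQ (neg_ne_zero.2 hPQ) (add_neg_cancel _)
  obtain ⟨b, hb, hb'⟩ := hneg (P + Q)
  refine ⟨b / a, div_ne_zero hb ha, ?_⟩
  have h1 := hne (-(P + Q))
  apply mul_left_cancel₀ h1
  rw [hb', div_pow]
  have h2 : kap ι (-(P + Q)) * (kap ι P * kap ι Q * (b ^ 3 / a ^ 3)) =
      (kap ι P * kap ι Q * kap ι (-(P + Q))) * (b ^ 3 / a ^ 3) := by ring
  rw [h2, ha', mul_div_cancel₀]
  exact pow_ne_zero _ ha

end Pool.Agent.PTN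

end

section

/-!
# PTN_KPL: the class of a point with `cc Q = -Q` (statement of helper3)
-/

set_option autoImplicit false

namespace Pool.Agent.PTN.KPL

open Pool.Agent.Lib_helper18 Pool.Agent.Lib_helper18.Eis Pool.Agent.Lib_helper84.Cub
open Pool.Agent.PT WeierstrassCurve.Affine

/-- a rational number `m` with `A m³` an integer is an integer if `A` is cube-free -/
theorem int_of_cube {A N : ℤ} (hf : CubeRank.CubeFree A) {m : ℚ} (h : (A : ℚ) * m ^ 3 = N) :
    ∃ n : ℤ, m = n := by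
  have hden : ((m.den : ℤ) : ℚ) ≠ 0 := by
    have := m.den_ne_zero
    exact_mod_cast this
  have hm : m * ((m.den : ℤ) : ℚ) = (m.num : ℚ) := by
    have := Rat.mul_den_eq_num m
    exact_mod_cast this
  have h1 : A * m.num ^ 3 = N * (m.den : ℤ) ^ 3 := by
    have h2 : (A : ℚ) * (m.num : ℚ) ^ 3 = N * ((m.den : ℤ) : ℚ) ^ 3 := by
      rw [← hm, ← h]; ring
    exact_mod_cast h2
  have hcop : IsCoprime ((m.den : ℤ) ^ 3) (m.num ^ 3) := by
    have := m.reduced
    have h3 : IsCoprime m.num (m.den : ℤ) := by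
      rw [Int.isCoprime_iff_gcd_eq_one, Int.gcd_eq_natAbs, Int.natAbs_natCast]
      exact this
    exact (h3.symm).pow
  have hdvd : (m.den : ℤ) ^ 3 ∣ A := by
    exact hcop.dvd_of_dvd_mul_right ⟨N, by rw [h1]; ring⟩
  by_cases h1' : m.den = 1
  · exact ⟨m.num, by rw [← hm, h1']; simp⟩
  · exfalso
    obtain ⟨q, hq, hqd⟩ := Nat.exists_prime_and_dvd h1'
    refine hf (q : ℤ) (Nat.prime_iff_prime_int.mp hq) ?_
    refine (pow_dvd_pow_of_dvd ?_ 3).trans hdvd
    exact_mod_cast hqd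

/-- the primitive triple -/
theorem triple {A : ℤ} (hA : A ≠ 0) (hf : CubeRank.CubeFree A) {u v x : ℚ} (hx : x ≠ 0)
    (h3 : x ^ 3 = 3 * u * v) (hs : u + v = 24 * A) :
    ∃ (a : Fin 3 → ℤ) (m : ℤ) (t : ℚ), t ≠ 0 ∧ (a 0 : ℚ) = t * u ∧ (a 1 : ℚ) = t * v ∧
      (∀ k, a k ≠ 0) ∧ a 0 + a 1 + a 2 = 0 ∧ a 0 * a 1 * a 2 = A * m ^ 3 ∧
      (∀ i j, i ≠ j → IsCoprime (a i) (a j)) := by
  have hu : u ≠ 0 := by
    rintro rfl
    apply hx
    have : x ^ 3 = 0 := by rw [h3]; ring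
    exact pow_eq_zero_iff (three_ne_zero) |>.mp this
  have hv : v ≠ 0 := by
    rintro rfl
    apply hx
    have : x ^ 3 = 0 := by rw [h3]; ring
    exact pow_eq_zero_iff (three_ne_zero) |>.mp this
  have hud : ((u.den : ℤ) : ℚ) ≠ 0 := by
    have := u.den_ne_zero
    exact_mod_cast this
  have hvd : ((v.den : ℤ) : ℚ) ≠ 0 := by
    have := v.den_ne_zero
    exact_mod_cast this
  have hum : u * ((u.den : ℤ) : ℚ) = (u.num : ℚ) := by
    have := Rat.mul_den_eq_num u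
    exact_mod_cast this
  have hvm : v * ((v.den : ℤ) : ℚ) = (v.num : ℚ) := by
    have := Rat.mul_den_eq_num v
    exact_mod_cast this
  set d : ℤ := (u.den : ℤ) * (v.den : ℤ) with hd
  set U : ℤ := u.num * (v.den : ℤ) with hU
  set V : ℤ := v.num * (u.den : ℤ) with hV
  have hd0 : (d : ℚ) ≠ 0 := by
    rw [hd]; push_cast; exact mul_ne_zero (by exact_mod_cast hud) (by exact_mod_cast hvd)
  have hUq : (U : ℚ) = d * u := by
    rw [hU, hd]; push_cast; rw [← hum]; push_cast; ring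
  have hVq : (V : ℚ) = d * v := by
    rw [hV, hd]; push_cast; rw [← hvm]; push_cast; ring
  have hU0 : U ≠ 0 := by
    intro h
    rw [h] at hUq
    exact (mul_ne_zero hd0 hu) (by rw [← hUq]; simp)
  have hV0 : V ≠ 0 := by
    intro h
    rw [h] at hVq
    exact (mul_ne_zero hd0 hv) (by rw [← hVq]; simp)
  obtain ⟨a0, a1, hcop, e0, e1⟩ : ∃ a0 a1 : ℤ, IsCoprime a0 a1 ∧ U = a0 * (Int.gcd U V : ℤ) ∧
      V = a1 * (Int.gcd U V : ℤ) := by
    have hg : 0 < Int.gcd U V := Int.gcd_pos_of_ne_zero_left _ hU0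
    obtain ⟨a0, h0⟩ := Int.gcd_dvd_left U V
    obtain ⟨a1, h1⟩ := Int.gcd_dvd_right U V
    refine ⟨a0, a1, ?_, by rw [mul_comm]; exact h0, by rw [mul_comm]; exact h1⟩
    have h2 : U / (Int.gcd U V : ℤ) = a0 := by
      apply Int.ediv_eq_of_eq_mul_right (by exact_mod_cast hg.ne') h0
    have h3 : V / (Int.gcd U V : ℤ) = a1 := by
      apply Int.ediv_eq_of_eq_mul_right (by exact_mod_cast hg.ne') h1
    have h4 := Int.gcd_ediv_gcd_ediv_gcd hg
    rw [h2, h3] at h4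
    exact Int.isCoprime_iff_gcd_eq_one.mpr h4
  set g : ℤ := (Int.gcd U V : ℤ) with hgdef
  have hg0 : (g : ℚ) ≠ 0 := by
    have : g ≠ 0 := by
      intro h
      rw [h, mul_zero] at e0
      exact hU0 e0
    exact_mod_cast this
  have ha0 : a0 ≠ 0 := by
    rintro rfl
    rw [zero_mul] at e0
    exact hU0 e0
  have ha1 : a1 ≠ 0 := by
    rintro rfl
    rw [zero_mul] at e1
    exact hV0 e1
  set t : ℚ := (d : ℚ) / g with ht
  have ht0 : t ≠ 0 := div_ne_zero hd0 hg0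
  have q0 : (a0 : ℚ) = t * u := by
    rw [ht, div_mul_eq_mul_div, eq_div_iff hg0, ← hUq, e0]; push_cast; ring
  have q1 : (a1 : ℚ) = t * v := by
    rw [ht, div_mul_eq_mul_div, eq_div_iff hg0, ← hVq, e1]; push_cast; ring
  have q2 : (a0 : ℚ) + a1 = 24 * A * t := by
    rw [q0, q1, ← mul_add, hs]; ring
  have hprod : (A : ℚ) * (-2 * x * t) ^ 3 = ((a0 * a1 * (-a0 - a1) : ℤ) : ℚ) := by
    push_cast
    have : (-(a0 : ℚ) - a1) = -(24 * A * t) := by rw [← q2]; ring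
    rw [this, q0, q1]
    linear_combination (-8 * (A : ℚ) * t ^ 3) * h3
  obtain ⟨m, hm⟩ := int_of_cube hf hprod
  rw [hm] at hprod
  obtain ⟨p, q, hpq⟩ := hcop
  have c01 : IsCoprime a0 a1 := ⟨p, q, hpq⟩
  have c02 : IsCoprime a0 (-a0 - a1) := ⟨p - q, -q, by linear_combination hpq⟩
  have c12 : IsCoprime a1 (-a0 - a1) := ⟨q - p, -p, by linear_combination hpq⟩
  have ha2 : -a0 - a1 ≠ 0 := by
    intro h
    have h' : (a0 : ℚ) + a1 = 0 := by
      have : a0 + a1 = 0 := by linear_combination -h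
      exact_mod_cast this
    rw [q2] at h'
    have hAq : (A : ℚ) ≠ 0 := by exact_mod_cast hA
    exact (mul_ne_zero (mul_ne_zero (by norm_num) hAq) ht0) h'
  refine ⟨![a0, a1, -a0 - a1], m, t, ht0, q0, q1, ?_, ?_, ?_, ?_⟩
  · intro k
    fin_cases k
    · exact ha0
    · exact ha1
    · exact ha2
  · simp
  · have : (a0 * a1 * (-a0 - a1) : ℤ) = A * m ^ 3 := by
      have := hprod.symm
      exact_mod_cast this
    simpa using this
  · intro i j hij
    fin_cases i <;> fin_cases j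
    · exact absurd rfl hij
    · exact c01
    · exact c02
    · exact c01.symm
    · exact absurd rfl hij
    · exact c12
    · exact c02.symm
    · exact c12.symm
    · exact absurd rfl hij

/-- an element fixed by the conjugation is rational -/
theorem rational_of_fixed {K : Type} [Field K] [CharZero K] {ι : Eis →+* K} {c : K →ₐ[ℚ] K}
    (hK : KF K ι c) {z : K} (hz : c z = z) : ∃ q : ℚ, z = (q : K) := by
  obtain ⟨e, d, hd, he⟩ := hK.frac z
  have hd' : (d : K) ≠ 0 := Int.cast_ne_zero.mpr hd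
  have h1 : ι (conj e) = ι e := by
    rw [← hK.conj e, ← he, map_mul, hz, map_intCast]
  have h2 : conj e = e := hK.inj h1
  have h3 : e.im = 0 := by
    have := congrArg Eis.im h2
    rw [conj_im] at this
    omega
  have h4 : e = (e.re : Eis) := by
    ext
    · simp
    · simp [h3]
  refine ⟨(e.re : ℚ) / (d : ℚ), ?_⟩
  rw [h4, map_intCast] at he
  push_cast
  rw [eq_div_iff hd', he]

theorem negY_eq (K : Type) [Field K] [CharZero K] (A : ℤ) (x y : K) :
    (WeierstrassCurve.Affine.baseChange (CubeRank.EA A).toAffine K).negY x y = -y := by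
  have h1 : (WeierstrassCurve.Affine.baseChange (CubeRank.EA A).toAffine K).a₁ = 0 :=
    map_zero (algebraMap ℚ K)
  have h3 : (WeierstrassCurve.Affine.baseChange (CubeRank.EA A).toAffine K).a₃ = 0 :=
    map_zero (algebraMap ℚ K)
  rw [WeierstrassCurve.Affine.negY, h1, h3]
  ring

theorem _root_.Pool.Agent.PTN.KPL_thm (h0 : Stmt_KEQ) : Stmt_KPL := by
  intro K _ _ _ ι c A hK hA hf cc hcc Q hQ
  obtain ⟨hns, hs2, hs0, hcs, hw, hw1⟩ := h0 K ι c A hK hA
  have hAK : (A : K) ≠ 0 := by exact_mod_cast hA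
  rcases Q with _ | ⟨x, y, h⟩
  · left
    exact ⟨0, 1, one_ne_zero, by simp [kap]⟩
  obtain ⟨h', e⟩ := hcc x y h
  rw [e, WeierstrassCurve.Affine.Point.neg_some] at hQ
  simp only [Point.some.injEq, negY_eq] at hQ
  obtain ⟨hx, hy⟩ := hQ
  have heq : y ^ 2 = x ^ 3 - 432 * (A : K) ^ 2 := (hns x y).mp h
  set δ : K := ι w - ι w ^ 2 with hδ
  have hsD : sD ι A = 12 * A * δ := rfl
  have hδ2 : δ ^ 2 = -3 := by
    rw [hδ]
    linear_combination (ι w ^ 2 - 3 * ι w + 3) * hw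
  have hδ0 : δ ≠ 0 := by
    intro h1
    rw [h1] at hδ2
    norm_num at hδ2
  have hcδ : c δ = -δ := by
    rw [hsD, map_mul, map_mul, map_intCast] at hcs
    have h12 : c 12 = 12 := by
      have := map_ofNat c 12
      exact this
    rw [h12] at hcs
    have : (12 * (A : K)) * c δ = (12 * (A : K)) * (-δ) := by rw [hcs]; ring
    exact mul_left_cancel₀ (mul_ne_zero (by norm_num) hAK) this
  obtain ⟨q, hq⟩ := rational_of_fixed hK hx
  obtain ⟨η, hη⟩ := rational_of_fixed (z := y / δ) hK (by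
    rw [map_div₀, hcδ, hy, neg_div_neg_eq])
  have hyη : y = δ * η := by
    rw [← hη]; field_simp
  by_cases hx0 : x = 0
  · left
    have hys : (y - sD ι A) * (y + sD ι A) = 0 := by
      rw [hx0] at heq
      linear_combination heq - hs2
    rcases mul_eq_zero.mp hys with h1 | h1
    · refine ⟨2, -12, by norm_num, ?_⟩
      have hy1 : y = sD ι A := sub_eq_zero.mp h1
      have : kap ι (Point.some x y h) = (y + sD ι A) ^ 2 := by
        simp only [kap]; rw [if_pos hy1]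
      rw [this, hy1]
      linear_combination 4 * hs2
    · refine ⟨1, 2 * δ, mul_ne_zero two_ne_zero hδ0, ?_⟩
      have hy1 : y = - sD ι A := eq_neg_of_add_eq_zero_left h1
      have hne : y ≠ sD ι A := by
        intro h2
        rw [hy1] at h2
        have : 2 * sD ι A = 0 := by linear_combination -h2
        rcases mul_eq_zero.mp this with h3 | h3
        · norm_num at h3
        · exact hs0 h3
      have : kap ι (Point.some x y h) = y - sD ι A := by
        simp only [kap]; rw [if_neg hne]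
      rw [this, hy1, hsD]
      linear_combination (-8 * (A : K) * δ) * hδ2
  · right
    have hne : y ≠ sD ι A := by
      intro h2
      apply hx0
      have : x ^ 3 = 0 := by
        rw [h2] at heq
        linear_combination hs2 - heq
      exact pow_eq_zero_iff (three_ne_zero) |>.mp this
    have hkap : kap ι (Point.some x y h) = y - sD ι A := by
      simp only [kap]; rw [if_neg hne]
    have hq0 : q ≠ 0 := by
      rintro rfl
      exact hx0 (by rw [hq]; simp)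
    have hcub : q ^ 3 = 3 * (12 * (A : ℚ) - η) * (12 * A + η) := by
      have h1 : (q : K) ^ 3 = 3 * (12 * (A : K) - η) * (12 * A + η) := by
        rw [hq, hyη] at heq
        linear_combination (-(heq) + (η : K) ^ 2 * hδ2)
      exact_mod_cast h1
    obtain ⟨a, m, t, ht0, q0, q1, hne0, hsum, hprod, hcop⟩ :=
      triple hA hf hq0 hcub (by ring : (12 * (A : ℚ) - η) + (12 * A + η) = 24 * A)
    have htK : (t : K) ≠ 0 := by exact_mod_cast ht0
    refine ⟨a, m, δ / (t * x), hne0, hsum, hprod, hcop,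
      div_ne_zero hδ0 (mul_ne_zero htK hx0), ?_⟩
    have k0 : ((a 0 : ℤ) : K) = t * (12 * A - η) := by
      have := congrArg (fun z : ℚ => (z : K)) q0
      push_cast at this
      exact this
    have k1 : ((a 1 : ℤ) : K) = t * (12 * A + η) := by
      have := congrArg (fun z : ℚ => (z : K)) q1
      push_cast at this
      exact this
    have hcubK : x ^ 3 = 3 * (12 * (A : K) - η) * (12 * A + η) := by
      rw [hq]
      exact_mod_cast hcub
    have hd3 : δ ^ 3 = -3 * δ := by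
      linear_combination δ * hδ2
    have hg3 : (δ / ((t : K) * x)) ^ 3 =
        -3 * δ / ((t : K) ^ 3 * (3 * (12 * (A : K) - η) * (12 * A + η))) := by
      rw [div_pow, mul_pow, hd3, hcubK]
    rw [hkap, hsD, hyη, hg3]
    push_cast
    rw [k0, k1]
    have hx3 : (3 * (12 * (A : K) - η) * (12 * A + η)) ≠ 0 := by
      rw [← hcubK]; exact pow_ne_zero _ hx0
    have hA1 : (12 * (A : K) - η) ≠ 0 := fun h1 => hx3 (by rw [h1]; ring)
    have hA2 : (12 * (A : K) + η) ≠ 0 := fun h1 => hx3 (by rw [h1]; ring)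
    field_simp
    ring

end Pool.Agent.PTN.KPL

end

section

/-!
# PTN_KEQ: the points of `y² = x³ - 432 A²` over `K = Q(w)`
-/

set_option autoImplicit false

namespace Pool.Agent.PTN

open Pool.Agent.Lib_helper18 Pool.Agent.Lib_helper18.Eis Pool.Agent.Lib_helper84.Cub
open Pool.Agent.PT WeierstrassCurve.Affine

namespace KEQ

/-- the base changed curve -/
abbrev WK (K : Type) [Field K] [CharZero K] (A : ℤ) : WeierstrassCurve.Affine K :=
  WeierstrassCurve.Affine.baseChange (CubeRank.EA A).toAffine K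

theorem wk_a1 (K : Type) [Field K] [CharZero K] (A : ℤ) : (WK K A).a₁ = 0 :=
  map_zero (algebraMap ℚ K)

theorem wk_a2 (K : Type) [Field K] [CharZero K] (A : ℤ) : (WK K A).a₂ = 0 :=
  map_zero (algebraMap ℚ K)

theorem wk_a3 (K : Type) [Field K] [CharZero K] (A : ℤ) : (WK K A).a₃ = 0 :=
  map_zero (algebraMap ℚ K)

theorem wk_a4 (K : Type) [Field K] [CharZero K] (A : ℤ) : (WK K A).a₄ = 0 :=
  map_zero (algebraMap ℚ K)

theorem wk_a6 (K : Type) [Field K] [CharZero K] (A : ℤ) : (WK K A).a₆ = -432 * (A : K) ^ 2 := by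
  have h : (WK K A).a₆ = algebraMap ℚ K (-432 * (A : ℚ) ^ 2) := rfl
  rw [h]
  simp

theorem ns_iff (K : Type) [Field K] [CharZero K] (A : ℤ) (hA : A ≠ 0) (x y : K) :
    (WeierstrassCurve.Affine.baseChange (CubeRank.EA A).toAffine K).Nonsingular x y ↔
      y ^ 2 = x ^ 3 - 432 * (A : K) ^ 2 := by
  have hAK : (A : K) ≠ 0 := by exact_mod_cast hA
  change (WK K A).Nonsingular x y ↔ y ^ 2 = x ^ 3 - 432 * (A : K) ^ 2
  have h1 : (WK K A).Equation x y ↔ y ^ 2 = x ^ 3 - 432 * (A : K) ^ 2 := by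
    rw [WeierstrassCurve.Affine.equation_iff, wk_a1, wk_a2, wk_a3, wk_a4, wk_a6]
    constructor
    · intro h; linear_combination h
    · intro h; linear_combination h
  rw [WeierstrassCurve.Affine.nonsingular_iff, h1, wk_a1, wk_a2, wk_a3, wk_a4]
  constructor
  · exact fun h => h.1
  · intro h
    refine ⟨h, ?_⟩
    by_contra hcon
    push Not at hcon
    obtain ⟨e1, e2⟩ := hcon
    have hx : x = 0 := by
      have : 3 * x ^ 2 = 0 := by linear_combination -e1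
      rcases mul_eq_zero.mp this with h3 | h3
      · norm_num at h3
      · exact pow_eq_zero_iff (two_ne_zero) |>.mp h3
    have hy : y = 0 := by
      have : 2 * y = 0 := by linear_combination e2
      rcases mul_eq_zero.mp this with h3 | h3
      · norm_num at h3
      · exact h3
    rw [hx, hy] at h
    have : 432 * (A : K) ^ 2 = 0 := by linear_combination h
    rcases mul_eq_zero.mp this with h3 | h3
    · norm_num at h3
    · exact hAK (pow_eq_zero_iff (two_ne_zero) |>.mp h3)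

end KEQ

theorem KEQ_thm : Stmt_KEQ := by
  intro K _ _ _ ι c A hK hA
  have hAK : (A : K) ≠ 0 := by exact_mod_cast hA
  have hrel : (ι w) ^ 2 + ι w + 1 = 0 := by
    have := congrArg ι w_rel
    simpa using this
  have hne : ι w ≠ 1 := by
    intro h
    rw [h] at hrel
    norm_num at hrel
  have hd : (ι w - ι w ^ 2) ^ 2 = -3 := by
    linear_combination (ι w ^ 2 - 3 * ι w + 3) * hrel
  have hd0 : ι w - ι w ^ 2 ≠ 0 := by
    intro h
    rw [h] at hd
    norm_num at hd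
  have hcw : c (ι w) = ι w ^ 2 := by
    rw [hK.conj, conj_w, map_pow]
  have hcube : ι w ^ 3 = 1 := by
    linear_combination (ι w - 1) * hrel
  refine ⟨fun x y => KEQ.ns_iff K A hA x y, ?_, ?_, ?_, hrel, hne⟩
  · unfold sD
    rw [mul_pow, hd]; ring
  · unfold sD
    refine mul_ne_zero (mul_ne_zero (by norm_num) hAK) hd0
  · unfold sD
    rw [map_mul, map_mul, map_sub, map_pow, hcw, map_intCast, map_ofNat]
    linear_combination (-12 * (A : K) * ι w) * hcube

end Pool.Agent.PTN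

end
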