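import Mathlib
import Pool.Agent.PTWX.C28

/-! Parts: PTE.ECLS, PT3.ECS0, PTN.StA, PTN.NADU -/

namespace Pool.Agent.PTE.ECLS
end Pool.Agent.PTE.ECLS

namespace Pool.Agent.PTN.NADU
end Pool.Agent.PTN.NADU

section

/-!
# Prime twists of rank zero, twists by primes `1` modulo `3`: the class and the systems
-/

set_option autoImplicit false

namespace Pool.Agent.PTE

open Pool.Agent.Lib_helper18 Pool.Agent.Lib_helper18.Eis Pool.Agent.Lib_helper84.Cub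
open Pool.Agent.PT

namespace ECLS

/-- a rational cube that is an integer is a cube -/
lemma cube_of {z u t : ℤ} (hu : u ≠ 0) (h : z * u ^ 3 = t ^ 3) : ∃ m : ℤ, m ^ 3 = z := by
  have h1 : u ^ 3 ∣ t ^ 3 := ⟨z, by rw [← h]; ring⟩
  have h2 : u ∣ t := (Int.pow_dvd_pow_iff (by norm_num)).1 h1
  obtain ⟨m, hm⟩ := h2
  refine ⟨m, ?_⟩
  have h3 : z * u ^ 3 = m ^ 3 * u ^ 3 := by rw [h, hm]; ring
  exact (mul_right_cancel₀ (pow_ne_zero 3 hu) h3).symm

/-- the choice of `w0` -/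
lemma exists_w0 (x : ZMod 3) : ∃ w0 : ZMod 3, w0 ≠ 0 ∧ x + w0 ≠ 0 := by
  revert x
  decide

/-- the restriction of a system to the first indices -/
lemma sys_restr {s : ℕ} {b : Fin (s + 1) → ℤ} {P Q P' Q' : Fin (s + 1) → Fin (s + 1) → ℤ}
    (h : Sys b P Q P' Q') : Sys (rv b) (rs P) (rs Q) (rs P') (rs Q') where
  ind := by
    rintro c ⟨i, hi⟩ ⟨t, ht⟩
    refine h.ind (Fin.snoc (α := fun _ => ℕ) c 0) ⟨i.castSucc, ?_⟩ ⟨t, ?_⟩
    · rw [Fin.snoc_castSucc]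
      exact hi
    · rw [ht, Fin.prod_univ_castSucc, Fin.snoc_last, pow_zero, mul_one]
      refine Finset.prod_congr rfl fun j _ => ?_
      rw [Fin.snoc_castSucc]
      rfl
  c9 i j hij := h.c9 i.castSucc j.castSucc fun h1 => hij (Fin.castSucc_injective _ h1)
  sol j i hji := h.sol j.castSucc i.castSucc fun h1 => hji (Fin.castSucc_injective _ h1)
  sw j i hji := h.sw j.castSucc i.castSucc fun h1 => hji (Fin.castSucc_injective _ h1)

/-- the class of a point gives a kernel vector -/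
lemma det_zero (hTEND : TEND) {s : ℕ} {b : Fin s → ℤ} {P Q P' Q' : Fin s → Fin s → ℤ} {B : ℤ}
    (hSys : Sys b P Q P' Q') (hB : BOk B) (hA : ∀ i, Adm B (b i)) {z X1 Y1 : ℤ}
    (hPt : Pt B z X1 Y1) (hcube : ¬ ∃ t : ℤ, t ^ 3 = z) {g : Fin s → ℕ} {u v : ℤ} (hu : u ≠ 0)
    (hv : v ≠ 0) (hg : z * u ^ 3 = (∏ i, b i ^ g i) * v ^ 3) : (Mat b P Q P' Q' B).det = 0 := by
  obtain ⟨W, hW⟩ : ∃ W : ℤ, W = ∏ i, b i ^ g i := ⟨_, rfl⟩
  rw [← hW] at hg
  have hex : ∃ i, ¬ 3 ∣ g i := by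
    by_contra hcon
    push Not at hcon
    choose g' hg' using hcon
    apply hcube
    have h1 : z * u ^ 3 = ((∏ i, b i ^ g' i) * v) ^ 3 := by
      rw [hg, hW, mul_pow, ← Finset.prod_pow]
      congr 1
      refine Finset.prod_congr rfl fun i _ => ?_
      rw [← pow_mul, hg' i, mul_comm]
    exact cube_of hu h1
  have hPt' : Pt B (∏ i, b i ^ g i) (u * v * X1) (v ^ 2 * Y1) := by
    refine ⟨mul_ne_zero (mul_ne_zero hu hv) hPt.hX, mul_ne_zero (pow_ne_zero 2 hv) hPt.hY, ?_⟩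
    obtain ⟨c0, hc0, h1⟩ := hPt.eq
    refine ⟨c0 * u ^ 2, mul_ne_zero hc0 (pow_ne_zero 2 hu), ?_⟩
    rw [← hW]
    have e1 : W * ((u * v * X1) ^ 3 + W * (v ^ 2 * Y1) ^ 3) =
        (W * v ^ 3) * (u ^ 3 * X1 ^ 3 + (W * v ^ 3) * Y1 ^ 3) := by ring
    rw [e1, ← hg]
    have e2 : z * u ^ 3 * (u ^ 3 * X1 ^ 3 + z * u ^ 3 * Y1 ^ 3) =
        u ^ 6 * (z * (X1 ^ 3 + z * Y1 ^ 3)) := by ring
    rw [e2, h1]
    ring
  have hker := (hTEND s b P Q P' Q' B hSys hB hA).2 g _ _ hex hPt'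
  rw [← Matrix.exists_mulVec_eq_zero_iff]
  refine ⟨fun i => (g i : ZMod 3), ?_, ?_⟩
  · intro h1
    obtain ⟨i, hi⟩ := hex
    apply hi
    have h2 := congrFun h1 i
    exact (ZMod.natCast_eq_zero_iff (g i) 3).1 h2
  · ext j
    exact hker j

end ECLS

open _root_.Pool.Agent.PTE.ECLS in
/-- ECLS: the class and the systems. -/
theorem ECLS_thm (hEMAT : EMAT) (hEHPL : EHPL) (hESYS : ESYS) (hEADMS : EADMS) (hHYPS : HYPS)
    (hFD1 : FD1) (hFD2S : FD2S) (hTEND : TEND) (hSPLT : SPLT) : ECLS := by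
  intro n m k π p e r f hNF hk
  obtain ⟨w0, hw0, hwt⟩ := exists_w0 (wt ((n : ℤ) ^ 2))
  obtain ⟨c, _, hdet⟩ := hEMAT n m k π p e r f none hNF (fun j hj => by cases hj)
  obtain ⟨v, hv, hδ⟩ := hEHPL n m k π p e r f w0 c hNF hk.pos hwt hdet
  refine ⟨w0, c, v, hw0, fun i => ⟨(hv i).ne, (hv i).supp⟩, ?_⟩
  intro δ hδ0
  obtain ⟨s, b, hs, hAdm, hV, hind, hc9, hρ⟩ := hδ δ hδ0
  obtain ⟨P, Q, P', Q', hSys⟩ := hESYS n m k π p e r f w0 c (s + 1) b hNF hAdm hV hind hc9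
  refine ⟨s, b, P, Q, P', Q', hs, ⟨hSys.ind, hSys.sol⟩, fun i => (hAdm i).ne, ?_, ?_⟩
  · intro ρ h1 h2 h3
    exact (hρ ρ h1 h2 h3).1
  intro q ρ hq hIn hqn hq3 hqρ h0 h1
  obtain ⟨hB, hE⟩ := hEADMS n m k π p e r f w0 c q ρ hNF hq hIn hqn hqρ
  have hA : ∀ i : Fin s, Adm ((n : ℤ) * q) (b i.castSucc) := fun i =>
    (hE _ (hAdm i.castSucc).supp).1 ⟨hAdm i.castSucc, h0 i⟩
  have hR := sys_restr hSys
  refine ⟨hB, hA, (hTEND s (rv b) _ _ _ _ _ hR hB hA).1, ?_⟩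
  rintro ⟨X, Y, hXY⟩
  have hn0 : 0 < n := by
    rcases Nat.eq_zero_or_pos n with h | h
    · exact absurd (by rw [h]; exact dvd_zero q) hqn
    · exact h
  have h3 : 3 ≤ |(n : ℤ) * q| := by
    have h1 : (3 : ℤ) ≤ (n : ℤ) * q := by
      have h2 : 3 ≤ n * q := by nlinarith
      exact_mod_cast h2
    exact h1.trans (le_abs_self _)
  have hH : HypM ((n : ℤ) * q) := hHYPS n m k π p e r f w0 c q ρ (b (Fin.last s)) hNF hq hIn hqn
    hqρ hwt hdet (hAdm _) h1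
  obtain ⟨a, x, hC⟩ := hFD1 ((n : ℤ) * q) hB h3 hH ⟨X, Y, by rw [hXY]; push_cast; ring⟩
  obtain ⟨z, X1, Y1, hPt, hAz, hsupp, hcube⟩ := hFD2S n q a x hq hIn.1 hqn hn0 hB hC
  obtain ⟨hz1, hz2⟩ := (hE z hsupp).2 hAz
  have hρn : ¬ ρ.1 ∣ (n : Eis) := by
    intro h2
    have h4 := (hSPLT.2 q ρ hq hIn.1 hqρ).2.2.2.1 (n : ℤ)
    rw [Int.cast_natCast] at h4
    exact hqn (Int.natCast_dvd_natCast.1 (h4.1 h2))
  obtain ⟨g, u, t, hu, ht, hg⟩ := (hρ ρ hρn h0 h1).2 z hz1 hz2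
  exact det_zero hTEND hR hB hA hPt hcube hu ht hg

end Pool.Agent.PTE

end

section

/-!
# Prime twists of rank zero: the systems for a given class, `k` odd (module ECS0)
-/

set_option autoImplicit false

namespace Pool.Agent.PT3

open Pool.Agent.Lib_helper18 Pool.Agent.Lib_helper18.Eis Pool.Agent.Lib_helper84.Cub
open Pool.Agent.PT Pool.Agent.PTE
open Pool.Agent.PTE.ECLS

/-- ECS0: the systems for a class, `k` odd. -/
theorem ECS0_thm (hEHPL : EHPL) (hESYS : ESYS) (hEADMS : EADMS) (hHYPS : HYPS)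
    (hFD1 : FD1) (hFD2S : FD2S) (hTEND : TEND) (hSPLT : SPLT) : ECS0 := by
  intro n m k π p e r f w0 c hNF hk hwt hdet
  obtain ⟨v, hv, hδ⟩ := hEHPL n m k π p e r f w0 c hNF hk.pos hwt hdet
  refine ⟨v, fun i => ⟨(hv i).ne, (hv i).supp⟩, ?_⟩
  intro δ hδ0
  obtain ⟨s, b, hs, hAdm, hV, hind, hc9, hρ⟩ := hδ δ hδ0
  obtain ⟨P, Q, P', Q', hSys⟩ := hESYS n m k π p e r f w0 c (s + 1) b hNF hAdm hV hind hc9
  refine ⟨s, b, P, Q, P', Q', hs, ⟨hSys.ind, hSys.sol⟩, fun i => (hAdm i).ne, ?_, ?_⟩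
  · intro ρ h1 h2 h3
    exact (hρ ρ h1 h2 h3).1
  intro q ρ hq hIn hqn hq3 hqρ h0 h1
  obtain ⟨hB, hE⟩ := hEADMS n m k π p e r f w0 c q ρ hNF hq hIn hqn hqρ
  have hA : ∀ i : Fin s, Adm ((n : ℤ) * q) (b i.castSucc) := fun i =>
    (hE _ (hAdm i.castSucc).supp).1 ⟨hAdm i.castSucc, h0 i⟩
  have hR := sys_restr hSys
  refine ⟨hB, hA, (hTEND s (rv b) _ _ _ _ _ hR hB hA).1, ?_⟩
  rintro ⟨X, Y, hXY⟩
  have hn0 : 0 < n := by
    rcases Nat.eq_zero_or_pos n with h | h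
    · exact absurd (by rw [h]; exact dvd_zero q) hqn
    · exact h
  have h3 : 3 ≤ |(n : ℤ) * q| := by
    have h1 : (3 : ℤ) ≤ (n : ℤ) * q := by
      have h2 : 3 ≤ n * q := by nlinarith
      exact_mod_cast h2
    exact h1.trans (le_abs_self _)
  have hH : HypM ((n : ℤ) * q) := hHYPS n m k π p e r f w0 c q ρ (b (Fin.last s)) hNF hq hIn hqn
    hqρ hwt hdet (hAdm _) h1
  obtain ⟨a, x, hC⟩ := hFD1 ((n : ℤ) * q) hB h3 hH ⟨X, Y, by rw [hXY]; push_cast; ring⟩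
  obtain ⟨z, X1, Y1, hPt, hAz, hsupp, hcube⟩ := hFD2S n q a x hq hIn.1 hqn hn0 hB hC
  obtain ⟨hz1, hz2⟩ := (hE z hsupp).2 hAz
  have hρn : ¬ ρ.1 ∣ (n : Eis) := by
    intro h2
    have h4 := (hSPLT.2 q ρ hq hIn.1 hqρ).2.2.2.1 (n : ℤ)
    rw [Int.cast_natCast] at h4
    exact hqn (Int.natCast_dvd_natCast.1 (h4.1 h2))
  obtain ⟨g, u, t, hu, ht, hg⟩ := (hρ ρ hρn h0 h1).2 z hz1 hz2
  exact det_zero hTEND hR hB hA hPt hcube hu ht hg

end Pool.Agent.PT3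

end

section

/-!
# The law of the ranks of prime twists for every `n`: the class spaces and the first descent

`B = BB h n E q = 3^h n q^E`, `h = 0, 1, 2`, `n` in normal form `NF n π p e r f` (prime to `3`,
cube-free, `p i = π i conj (π i)` the primes `1 (mod 3)`, `r j` the primes `2 (mod 3)`), `q` a prime
prime to `3 n`, `q^E` in the class `(w0, c)`: `InCT E π w0 c q`.

Everything in `Pool/Agent/PT`, `Pool/Agent/PTE`, `Pool/Agent/PT3` is proved and may be imported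
(see `PT/Final.lean`, `PTE/Final.lean`, `PT3/Final.lean` for the discharged statements; a module
may have such statements as hypotheses, for example `(hSPP : SPP)`).

Numbering of the unknowns (`Col m k = Fin (m + 1) ⊕ Fin k`): `inl 0` is the prime `3`,
`inl i.succ` the prime `p i`, `inr j` the prime `r j`. Numbering of the conditions: `0` is the
condition at `3`, `i.succ` the condition at `π i`.
-/

set_option autoImplicit false

open NumberField IsDedekindDomain Finset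
open scoped nonZeroDivisors Pointwise

namespace Pool.Agent.PTN

open Pool.Agent.Lib_helper18 Pool.Agent.Lib_helper18.Eis Pool.Agent.Lib_helper84.Cub
open Pool.Agent.PT Pool.Agent.PTE Pool.Agent.PT3

/-! ### The matrix of the conditions -/

/-- the primes `3`, `p i`, `r j` -/
abbrev Col (m k : ℕ) : Type := Fin (m + 1) ⊕ Fin k

/-- the prime of a column -/
def prm {m k : ℕ} (p : Fin m → ℕ) (r : Fin k → ℕ) : Col m k → ℕ
  | .inl a => Fin.cases (motive := fun _ => ℕ) 3 (fun i => p i) a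
  | .inr j => r j

/-- The matrix of all conditions. -/
noncomputable def Nm (h n : ℕ) {m k : ℕ} (π : Fin m → PP) (p e : Fin m → ℕ) (r : Fin k → ℕ)
    (w0 : ZMod 3) (c : Fin m → ZMod 3) : Matrix (Fin (m + 1)) (Col m k) (ZMod 3) :=
  fun a b => match b with
  | .inl b => Fin.cases
      (motive := fun _ => ZMod 3)
      (Fin.cases (motive := fun _ => ZMod 3) (wt ((n : ℤ) ^ 2) + w0)
        (fun i' => wt ((p i' : ℤ) ^ 2)) b)
      (fun i => Fin.cases (motive := fun _ => ZMod 3)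
        ((e i : ZMod 3) * sym (π i).1 3)
        (fun i' => if i' = i then
            (e i : ZMod 3) * sym (π i).1 (conj (π i).1) -
              ch (π i).1 ((3 ^ h * n : ℕ) : Eis) - c i
          else (e i : ZMod 3) * sym (π i).1 (p i' : Eis)) b) a
  | .inr j => Fin.cases
      (motive := fun _ => ZMod 3) (wt ((r j : ℤ) ^ 2))
      (fun i => (e i : ZMod 3) * sym (π i).1 (r j : Eis)) a

/-- the condition at `3` is active -/
def actR (h n : ℕ) (w0 : ZMod 3) : Prop := h = 2 ∨ (h = 0 ∧ wt ((n : ℤ) ^ 2) + w0 = 0)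

/-- The space of the exponent vectors of the admissible rational classes. -/
def US (h n : ℕ) {m k : ℕ} (π : Fin m → PP) (p e : Fin m → ℕ) (r : Fin k → ℕ)
    (w0 : ZMod 3) (c : Fin m → ZMod 3) : Submodule (ZMod 3) (Col m k → ZMod 3) where
  carrier := {u | (∀ i : Fin m, ((Nm h n π p e r w0 c).mulVec u) i.succ = 0) ∧
    (actR h n w0 → ((Nm h n π p e r w0 c).mulVec u) 0 = 0) ∧ (h = 0 → u (Sum.inl 0) = 0)}
  add_mem' := by
    rintro u v ⟨h1, h2, h3⟩ ⟨g1, g2, g3⟩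
    refine ⟨fun i => ?_, fun ha => ?_, fun h0 => ?_⟩
    · rw [Matrix.mulVec_add, Pi.add_apply, h1 i, g1 i, add_zero]
    · rw [Matrix.mulVec_add, Pi.add_apply, h2 ha, g2 ha, add_zero]
    · rw [Pi.add_apply, h3 h0, g3 h0, add_zero]
  zero_mem' := by
    refine ⟨fun i => ?_, fun ha => ?_, fun h0 => rfl⟩
    · rw [Matrix.mulVec_zero, Pi.zero_apply]
    · rw [Matrix.mulVec_zero, Pi.zero_apply]
  smul_mem' := by
    rintro t u ⟨h1, h2, h3⟩
    refine ⟨fun i => ?_, fun ha => ?_, fun h0 => ?_⟩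
    · rw [Matrix.mulVec_smul, Pi.smul_apply, h1 i, smul_zero]
    · rw [Matrix.mulVec_smul, Pi.smul_apply, h2 ha, smul_zero]
    · rw [Pi.smul_apply, h3 h0, smul_zero]

/-- The space that bounds the minus part of the Selmer group. -/
def VS (h n : ℕ) {m k : ℕ} (π : Fin m → PP) (p e : Fin m → ℕ) (r : Fin k → ℕ)
    (w0 : ZMod 3) (c : Fin m → ZMod 3) : Submodule (ZMod 3) (Fin (m + 1) → ZMod 3) where
  carrier := {y | (¬ actR h n w0 → y 0 = 0) ∧ ∀ b : Col m k, (h = 0 → b ≠ Sum.inl 0) →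
    Matrix.vecMul y (Nm h n π p e r w0 c) b = 0}
  add_mem' := by
    rintro u v ⟨h1, h2⟩ ⟨g1, g2⟩
    refine ⟨fun ha => ?_, fun b hb => ?_⟩
    · rw [Pi.add_apply, h1 ha, g1 ha, add_zero]
    · rw [Matrix.add_vecMul, Pi.add_apply, h2 b hb, g2 b hb, add_zero]
  zero_mem' := by
    refine ⟨fun ha => rfl, fun b hb => ?_⟩
    rw [Matrix.zero_vecMul, Pi.zero_apply]
  smul_mem' := by
    rintro t u ⟨h1, h2⟩
    refine ⟨fun ha => ?_, fun b hb => ?_⟩
    · rw [Pi.smul_apply, h1 ha, smul_zero]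
    · rw [Matrix.smul_vecMul, Pi.smul_apply, h2 b hb, smul_zero]

/-- the dimension `s` -/
noncomputable def sN (h n : ℕ) {m k : ℕ} (π : Fin m → PP) (p e : Fin m → ℕ) (r : Fin k → ℕ)
    (w0 : ZMod 3) (c : Fin m → ZMod 3) : ℕ := Module.finrank (ZMod 3) (US h n π p e r w0 c)

/-- the dimension `v` -/
noncomputable def vN (h n : ℕ) {m k : ℕ} (π : Fin m → PP) (p e : Fin m → ℕ) (r : Fin k → ℕ)
    (w0 : ZMod 3) (c : Fin m → ZMod 3) : ℕ := Module.finrank (ZMod 3) (VS h n π p e r w0 c)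

open Classical in
/-- PTN_NDIM: the relation between the dimensions.
Proof. Let `R = {a : Fin (m + 1) // a ≠ 0 ∨ actR}` (active rows, `m + [actR]` of them) and
`C = {b : Col m k // h ≠ 0 ∨ b ≠ inl 0}` (active columns, `m + k + [h ≠ 0]`), `A` the submatrix of
`Nm`. `US` is isomorphic to the kernel of `A` (an element of `US` vanishes outside `C`), `VS` to the
kernel of the transpose (an element of `VS` vanishes outside `R`). `rank A = rank Aᵀ`
(`Matrix.rank_transpose`), `rank + finrank ker = ` number of columns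
(`LinearMap.finrank_range_add_finrank_ker`): `sN + rank = #C`, `vN + rank = #R`. -/
def Stmt_NDIM : Prop := ∀ (h n m k : ℕ) (π : Fin m → PP) (p e : Fin m → ℕ) (r : Fin k → ℕ)
  (w0 : ZMod 3) (c : Fin m → ZMod 3),
  sN h n π p e r w0 c + (if actR h n w0 then 1 else 0) =
    vN h n π p e r w0 c + k + (if h = 0 then 0 else 1)

/-- PTN_NSUM: the average of `3 ^ v` over the classes.
Proof. `3 ^ vN = Nat.card (VS ..)` (`Module.natCard_eq_pow_finrank`), so the sum is the number of the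
triples `(w0, c, y)` with `y ∈ VS (w0, c)`. Fix `y` and put `S = {i | y i.succ ≠ 0}`. For `i ∈ S` the
condition of the column `inl i.succ` is `const + y i.succ (const - c i) = 0`, where the constants do
not depend on `c` (they may depend on `w0`? no: the column `inl i.succ` contains `w0` nowhere); so it
determines `c i`. Hence for every `w0` at most `3 ^ (m - #S)` of the `c` occur, in other words
`c` is determined by its restriction to the complement of `S`. If `y 0 ≠ 0`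
then `actR` holds, and `w0` is determined: for `h = 2` by the condition of the column `inl 0`,
`y 0 (wt (n²) + w0) + const = 0`, for `h = 0` by `wt (n²) + w0 = 0` (for other `h` there is no such
`y`). Number of triples: `y 0 = 0`: `∑_S 2^#S · 3 · 3^(m - #S) = 3 · 5^m`; `y 0 ≠ 0`:
`2 · ∑_S 2^#S 3^(m - #S) = 2 · 5^m`. (`∑_{y : Fin m → ZMod 3} ∏ i (if y i = 0 then 3 else 1) =
∏ i (3 + 1 + 1)`, `Finset.prod_univ_sum` or `Fintype.piFinset`; a clean way: bound the number of the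
`(c, y')`, `y' : Fin m → ZMod 3`, by `5^m` with the injection into
`Fin m → {pairs (c i, y' i) with y' i ≠ 0 → c i = F(y) i}` … or: for fixed `(w0, y)` the number of
`c` is at most `∏ i (if y i.succ = 0 then 3 else 1)`, then sum over `y`.) -/
def Stmt_NSUM : Prop := ∀ (h n m k : ℕ) (π : Fin m → PP) (p e : Fin m → ℕ) (r f : Fin k → ℕ),
  NF n π p e r f →
  ∑ x : ZMod 3 × (Fin m → ZMod 3), 3 ^ vN h n π p e r x.1 x.2 ≤ 5 ^ (m + 1)

/-- PTN_NZER: the number of the classes with `v = 0`.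
Proof. `Mt h n π p e w0 c` (PT3/Stmts.lean) is invertible for at least `2^m` of the `c` if
(`h = 2 → wt (n²) + w0 ≠ 0`) (`EMAX`, proved). If it is invertible and (`h = 0 → wt (n²) + w0 ≠ 0`)
then `VS = ⊥`: for `h = 2` the columns `inl` of `Nm` are `Mt`, so `y ∈ VS` gives
`vecMul y Mt = 0`. For `h = 1` (and every `h ≠ 0, 2`): `y 0 = 0`, and the rows `i.succ` of `Mt` are those of `Nm`
restricted to the columns `inl`; row `0` of `Mt` is `(1, 0, …, 0)`; so `vecMul y Mt = 0`. For `h = 0`: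
`actR` is false, `y 0 = 0`; the columns `inl i.succ` give `vecMul y Mt = 0` except in column `0`, and
`y' = (-t, y 1, …)`, `t = ∑ y i.succ e i sym (π i) 3`, satisfies `vecMul y' Mt = 0` (row `0` of `Mt` is
`(1, 0, …, 0)`), so `y' = 0`, `y = 0`. There are at least two values of `w0` with
`wt (n²) + w0 ≠ 0`. -/
def Stmt_NZER : Prop := ∀ (h n m k : ℕ) (π : Fin m → PP) (p e : Fin m → ℕ) (r f : Fin k → ℕ),
  NF n π p e r f →
  2 ^ (m + 1) ≤ Nat.card {x : ZMod 3 × (Fin m → ZMod 3) // vN h n π p e r x.1 x.2 = 0 ∧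
    ¬ (h = 0 ∧ wt ((n : ℤ) ^ 2) + x.1 = 0)}

/-! ### The classes -/

/-- The rational classes that are admissible for `3^h n q^E`, `q^E` in the class `(w0, c)`. -/
def AdN (h n : ℕ) {m : ℕ} (π : Fin m → PP) (w0 : ZMod 3) (c : Fin m → ZMod 3) (x : ℤ) : Prop :=
  AdC h n π w0 c x ∧ (h = 0 → lv x = 0 ∧ (wt ((n : ℤ) ^ 2) + w0 = 0 → lw x = 0))

/-- the exponent vector -/
noncomputable def exv {m k : ℕ} (p : Fin m → ℕ) (r : Fin k → ℕ) (x : ℤ) : Col m k → ZMod 3 :=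
  fun b => (padicValInt (prm p r b) x : ZMod 3)

/-- PTN_NVEC: the admissible classes in terms of exponent vectors.
Proof. First part: `EVET` (PT3, proved; it holds for every `h`): the conditions of `EVET` are
`mulVec (exv x) = 0` in the rows `i.succ` and, for `h = 2`, in row `0`; `lv x = exv x (inl 0)`; for
`h = 0` and `lv x = 0`, `lw x` is row `0` of `mulVec` (formula for `lw x` in `EVET`). Second part: the
last part of `EVET`. Third part: `x = 3^(u (inl 0)).val ∏ p i ^ … ∏ r j ^ …`, the exponents are at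
most `2`; `V σ x ≤ 2` for every `σ : PP` (as `V_n`, see `PTE/EHPL.lean`, `PT3/EBAT.lean`,
`PT/BSYS.lean: R_V`: `σ` lies above exactly one prime, which is unramified). -/
def Stmt_NVEC : Prop := ∀ (h n m k : ℕ) (π : Fin m → PP) (p e : Fin m → ℕ) (r f : Fin k → ℕ)
  (w0 : ZMod 3) (c : Fin m → ZMod 3), NF n π p e r f → h ≤ 2 →
  (∀ x : ℤ, x ≠ 0 → (∀ l : ℕ, l.Prime → (l : ℤ) ∣ x → l ∣ 3 * n) →
    (AdN h n π w0 c x ↔ exv p r x ∈ US h n π p e r w0 c)) ∧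
  (∀ x x' : ℤ, x ≠ 0 → x' ≠ 0 → (∀ l : ℕ, l.Prime → (l : ℤ) ∣ x → l ∣ 3 * n) →
    (∀ l : ℕ, l.Prime → (l : ℤ) ∣ x' → l ∣ 3 * n) →
    ((∃ u v : ℤ, u ≠ 0 ∧ v ≠ 0 ∧ x * u ^ 3 = x' * v ^ 3) ↔ exv p r x = exv p r x')) ∧
  ∀ u : Col m k → ZMod 3, ∃ x : ℤ, x ≠ 0 ∧ (∀ l : ℕ, l.Prime → (l : ℤ) ∣ x → l ∣ 3 * n) ∧
    exv p r x = u ∧ (∀ σ : PP, V σ.1 (x : Eis) ≤ 2) ∧ (u (Sum.inl 0) = 0 → ¬ (3 : ℤ) ∣ x)

/-- PTN_NBAS: basis of the admissible classes with local points.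
Proof. As `EBAT` (PT3/EBAT.lean, read it; the invertibility of `Mt` was used only for the dimension).
`Λ = (lv, lw) : US → F_3²` is linear (`lv x = u (inl 0)`, `lw x` the formula in `EVET`).
`β = (h, wt (n²) + w0)`. For `h = 2` the image of `Λ` is contained in the line of `β ≠ 0` (`wild`), for
`h = 0` and `wt (n²) + w0 ≠ 0` in the line of `β = (0, wt (n²) + w0)`, for `h = 0` and
`wt (n²) + w0 = 0` it is `0`. Basis of `US`: first a basis of `ker Λ` (type `0`); then, if the image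
is the line of `β ≠ 0`, one vector `u` with `Λ u = β` (type `1`, `(X, Y) = (1, 0)`); if it is another
line (only for `h = 1`) one vector (type `2`, `(X, Y)` from `LPT` for `b` and `lw B = wt (n²) + w0`); if
it is the plane (only for `h = 1`) two vectors with `Λ = β` (type `1`) and `Λ = (0, 1)` (type `2`,
`LPT`). `b` from the third part of `NVEC`. At most one of the `b_i` is divisible by `3`: all others have
`lv = 0`. Independence and span: second part of `NVEC` (`exv` of a product is the sum). -/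
def Stmt_NBAS : Prop := ∀ (h n m k : ℕ) (π : Fin m → PP) (p e : Fin m → ℕ) (r f : Fin k → ℕ)
  (w0 : ZMod 3) (c : Fin m → ZMod 3), NF n π p e r f → h ≤ 2 →
  ∃ (s : ℕ) (τ : Fin s → Fin 3) (b X Y : Fin s → ℤ), s = sN h n π p e r w0 c ∧
    (∀ i, AdN h n π w0 c (b i)) ∧ (∀ i (π : PP), V π.1 (b i : Eis) ≤ 2) ∧
    (∀ g : Fin s → ℕ, (∃ i, ¬ 3 ∣ g i) → ¬ ∃ t : ℤ, t ^ 3 = ∏ i, b i ^ g i) ∧
    (∀ i j, i ≠ j → ¬ (3 : ℤ) ∣ b i ∨ ¬ (3 : ℤ) ∣ b j) ∧
    (∀ B : ℤ, TyB h n w0 B → LamS B τ b X Y) ∧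
    (∀ x : ℤ, AdN h n π w0 c x → ∃ (g : Fin s → ℕ) (u v : ℤ), u ≠ 0 ∧ v ≠ 0 ∧
      x * u ^ 3 = (∏ i, b i ^ g i) * v ^ 3)

/-- PTN_NHPT: bases adapted to a hyperplane.
Proof. As `EHPT` (PT3/EHPT.lean) and `EHPL` (PTE/EHPL.lean). `v` is any basis of `US` (for example
that of `NBAS`). For `δ ≠ 0` the hyperplane `H = {∑ g_i v_i : ∑ g_i δ_i = 0}` of `US`; basis of `H` as in
`NBAS` (applied to the subspace `H` in place of `US`; the proof works for every subspace of `US`; state it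
as a lemma), and a vector `y0 ∈ US` outside `H`, changed by a multiple of the element of `H`
with `lv ≠ 0` (if there is one) so that `lv y0 = 0`. For `ρ` not dividing `n` the map
`x ↦ sym ρ x` on the numbers supported on `3 n` is additive, and `0` on cubes, so it is a linear
form on `US` (by exponent vectors). It vanishes on `H` and not on `y0` iff it is `ε δ` with `ε ≠ 0` in
the coordinates of the basis `v`. -/
def Stmt_NHPT : Prop := ∀ (h n m k : ℕ) (π : Fin m → PP) (p e : Fin m → ℕ) (r f : Fin k → ℕ)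
  (w0 : ZMod 3) (c : Fin m → ZMod 3), NF n π p e r f → h ≤ 2 →
  ∃ (d : ℕ) (v : Fin d → ℤ), d = sN h n π p e r w0 c ∧ (∀ i, AdN h n π w0 c (v i)) ∧
    (∀ x : ℤ, AdN h n π w0 c x → ∃ (g : Fin d → ℕ) (u t : ℤ), u ≠ 0 ∧ t ≠ 0 ∧
      x * u ^ 3 = (∏ i, v i ^ g i) * t ^ 3) ∧
    ∀ δ : Fin d → ZMod 3, δ ≠ 0 → ∃ (s : ℕ) (τ : Fin s → Fin 3) (b : Fin (s + 1) → ℤ)
      (X Y : Fin s → ℤ), s + 1 = d ∧
      (∀ i, AdN h n π w0 c (b i)) ∧ (∀ i (π : PP), V π.1 (b i : Eis) ≤ 2) ∧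
      (∀ g : Fin (s + 1) → ℕ, (∃ i, ¬ 3 ∣ g i) → ¬ ∃ t : ℤ, t ^ 3 = ∏ i, b i ^ g i) ∧
      (∀ i j, i ≠ j → ¬ (3 : ℤ) ∣ b i ∨ ¬ (3 : ℤ) ∣ b j) ∧
      (∀ B : ℤ, TyB h n w0 B → LamS B τ (rv b) X Y) ∧
      ∀ ρ : PP, ¬ ρ.1 ∣ (n : Eis) →
        (((∀ i : Fin s, sym ρ.1 (b i.castSucc : Eis) = 0) ∧
          sym ρ.1 (b (Fin.last s) : Eis) ≠ 0) ↔
          ∃ ε : ZMod 3, ε ≠ 0 ∧ ∀ i, sym ρ.1 (v i : Eis) = ε * δ i) ∧
        ((∀ i : Fin s, sym ρ.1 (b i.castSucc : Eis) = 0) →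
          sym ρ.1 (b (Fin.last s) : Eis) ≠ 0 →
          ∀ x : ℤ, AdN h n π w0 c x → sym ρ.1 (x : Eis) = 0 → ∃ (g : Fin s → ℕ) (u t : ℤ),
            u ≠ 0 ∧ t ≠ 0 ∧ x * u ^ 3 = (∏ i, b i.castSucc ^ g i) * t ^ 3)

/-! ### Local conditions for `B` -/

/-- the local condition on the class `x` at `lam` -/
def Loc (B x : ℤ) : Prop :=
  (lv B = 2 → lw x + lv x * lw B = 0) ∧ (lv B = 0 → lv x = 0 ∧ (lw B = 0 → lw x = 0))

/-- PTN_NADT: `AdN` and the local conditions, `q = 2 (mod 3)`.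
Proof. As `EADT` (PT3/EADT.lean) for `h = 1, 2` and `PTL/EA.lean` (`EAE_thm`, `m = 0`), `PT/EADM.lean` for
`h = 0`. `V σ B = V σ n + E V σ q`; `q` is inert and does not divide `n`; `BG` and `AG` concern only the
primes `σ ∈ PP`, i.e. outside `3`. `lv B = h`, `lw B = wt (n²) + w0` (`PT3/HYPT.lean: lvw`, valid for
every `h`), so `lv B = 2 ↔ h = 2`, `lv B = 0 ↔ h = 0`. -/
def Stmt_NADT : Prop := ∀ (h n m k : ℕ) (π : Fin m → PP) (p e : Fin m → ℕ) (r f : Fin k → ℕ)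
  (w0 : ZMod 3) (c : Fin m → ZMod 3) (E q : ℕ), NF n π p e r f → h ≤ 2 →
  (E = 1 ∨ E = 2) → q.Prime → q % 3 = 2 → InCT E π w0 c q → ¬ q ∣ n →
  BG (BB h n E q) ∧ TyB h n w0 (BB h n E q) ∧
    ∀ x : ℤ, (∀ l : ℕ, l.Prime → (l : ℤ) ∣ x → l ∣ 3 * n) →
      (AdN h n π w0 c x ↔ AG (BB h n E q) x ∧ Loc (BB h n E q) x)

/-- PTN_NADU: `AdN` and the local conditions, `q = 1 (mod 3)`.
Proof. As `EADU` (PT3/EADU.lean) and `EADMS` (PTE/EADMS.lean). -/
def Stmt_NADU : Prop := ∀ (h n m k : ℕ) (π : Fin m → PP) (p e : Fin m → ℕ) (r f : Fin k → ℕ)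
  (w0 : ZMod 3) (c : Fin m → ZMod 3) (E q : ℕ) (ρ : PP), NF n π p e r f → h ≤ 2 →
  (E = 1 ∨ E = 2) → q.Prime → q % 3 = 1 → InCT E π w0 c q → ¬ q ∣ n →
  (q : Eis) = ρ.1 * conj ρ.1 →
  BG (BB h n E q) ∧ TyB h n w0 (BB h n E q) ∧
    ∀ x : ℤ, (∀ l : ℕ, l.Prime → (l : ℤ) ∣ x → l ∣ 3 * n) →
      ((AdN h n π w0 c x ∧ sym ρ.1 (x : Eis) = 0) ↔ AG (BB h n E q) x ∧ Loc (BB h n E q) x)

/-! ### The minus part -/

/-- The minus part of the Selmer group. -/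
structure SelM (B : ℤ) (z : Eis) : Prop where
  ne : z ≠ 0
  nrm : ∃ t : Eis, z * conj z = t ^ 3
  sym : ∀ π : PP, tm π.1 z (B : Eis) = 0
  unr : ∀ π : PP, ¬ π.1 ∣ (B : Eis) → 3 ∣ V π.1 z
  lam : lv B = 1 → sl z 3 = 0 ∧ sl z 4 = 0

/-- PTN_NKIN: the classes of the rational points are in the minus part.
Proof. This is the first half of the proofs of `FDK_thm` (PT/FDK.lean) and `FDKT_thm`
(PT3/FDKT.lean), before the hypothesis `HypM` / `HypT` is used; they use only that `B ≠ 0` and that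
`x, y` are coprime. `lam`: `lv B = 1` and `27 ∤ B` mean `3 ∣ B`, `9 ∤ B`: `FDKT.dvd27`,
`FDKT.wild`. -/
def Stmt_NKIN : Prop := ∀ B x y z : ℤ, B ≠ 0 → ¬ (27 : ℤ) ∣ B → IsCoprime x y → z ≠ 0 →
  x ^ 3 + y ^ 3 = B * z ^ 3 →
  SelM B (w ^ 2 * (((x : Eis) + w * y) * ((x : Eis) + w ^ 2 * y) ^ 2))

/-- PTN_NPSI: the minus part, `q = 2 (mod 3)`.
Proof. As `HYPT_thm` (PT3/HYPT.lean, read it: `dat`, `prodf`, `sl_int`, `lvw`, `decomp` hold for every `h`).
`W = VS h n π p e r w0 c`, `Nat.card W = 3 ^ vN`. For `z` with `SelM B z` put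
`Y z = Fin.cons (- sl z 4) (fun i => e i * V (π i) z)`; it is in `VS`: (a) `¬ actR → sl z 4 = 0`: for
`h = 1` by `lam` (`lv B = 1`), for `h = 0` by `sl z B = 0` (sum of the `tm π z B`), `lv B = 0`,
`lw B = wt (n²) + w0 ≠ 0` and `sl z B = lv B * sl z 3 - lw B * sl z 4` (`sl_int`). (b) The columns:
`prodf` for `x = 3` (`h ≠ 0`), `x = p i'`, `x = r j` with `sl z x = lv x * sl z 3 - lw x * sl z 4`: for
`h = 1` both `sl z 3 = sl z 4 = 0`; for `h = 2`: `sl z B = 0` gives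
`sl z x = - sl z 4 (lw x + lv x lw B)` (as in `HYPT_thm`); for `h = 0` only `x` prime to `3` occur,
`lv x = 0`. `tm (π i) x B = V(B) ch x - V(x) ch B` is the entry of `Nm` (as in `HYPT_thm`; for `x = r j`:
`V (π i) (r j) = 0`). Outside of `SelM` put `Y z = 0`. Injective: if `Y z = Y z'` let
`z'' = z z'^2`; `SelM B z''` (multiplicativity), `Y z'' = 3 Y z = 0`; by `decomp` `z'' = ± w^a γ³` (all
`V (π i) z''` are divisible by `3`; see `HYPT_thm`), `-1 = (-1)³`, and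
`0 = sl z'' 4 = a sl w 4 = - a lw 4 = a`, so `z''` is a cube `γ³` and `z * z'^3 = z' * γ^3`
(`z * z'^2 = γ^3`, multiply with `z'`). -/
def Stmt_NPSI : Prop := ∀ (h n m k : ℕ) (π : Fin m → PP) (p e : Fin m → ℕ) (r f : Fin k → ℕ)
  (w0 : ZMod 3) (c : Fin m → ZMod 3) (E q : ℕ), NF n π p e r f → h ≤ 2 →
  (E = 1 ∨ E = 2) → q.Prime → q % 3 = 2 → InCT E π w0 c q → ¬ q ∣ n →
  ∃ (W : Type) (_ : Finite W) (Y : Eis → W), Nat.card W ≤ 3 ^ vN h n π p e r w0 c ∧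
    ∀ z z' : Eis, SelM (BB h n E q) z → SelM (BB h n E q) z' → Y z = Y z' →
      ∃ g g' : Eis, g ≠ 0 ∧ g' ≠ 0 ∧ z * g ^ 3 = z' * g' ^ 3

open Classical in
/-- PTN_NPSU: the minus part, `q = 1 (mod 3)`.
Proof. As `NPSI` with the additional split prime `ρ` (see `HYPU_thm`, PT3/HYPU.lean, and
`HYPS_thm`, PTE/HYPS.lean): `Y z = (y, t)` with `y` as in `NPSI` and `t = V ρ z`; the additional
term of the product formula at `ρ`, `conj ρ` for `x` prime to `q` is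
`E V(ρ, z) tm ρ x B = E² V(ρ, z) sym ρ x = t sym ρ x`. So `(y, t)` is in
`W' = {(y, t) | (¬ actR → y 0 = 0) ∧ ∀ b active, vecMul y Nm b + t * sym ρ (prm p r b) = 0}`. The
subgroup `t = 0` is `VS`, so `Nat.card W' ≤ 3 * 3 ^ vN`. If some admissible `x` has
`sym ρ x ≠ 0` then `t = 0` on `W'`: multiply the equations with the exponents `exv x b` (`∈ US`, `NVEC`) and
sum over `b` (for `h = 0` the column `inl 0` has exponent `0`): `y · (Nm.mulVec (exv x)) = 0` (rows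
`i.succ`; row `0` if `actR`, otherwise `y 0 = 0`) and `∑ exv x b * sym ρ (prm b) = sym ρ x`. Injective as
in `NPSI` (`decomp` for the extended normal form `HYPU.ext`; `3 ∣ V ρ z`, `3 ∣ V (π i) z`). -/
def Stmt_NPSU : Prop := ∀ (h n m k : ℕ) (π : Fin m → PP) (p e : Fin m → ℕ) (r f : Fin k → ℕ)
  (w0 : ZMod 3) (c : Fin m → ZMod 3) (E q : ℕ) (ρ : PP), NF n π p e r f → h ≤ 2 →
  (E = 1 ∨ E = 2) → q.Prime → q % 3 = 1 → InCT E π w0 c q → ¬ q ∣ n →
  (q : Eis) = ρ.1 * conj ρ.1 →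
  ∃ (W : Type) (_ : Finite W) (Y : Eis → W), Nat.card W ≤ 3 ^ (vN h n π p e r w0 c +
      if ∃ x : ℤ, AdN h n π w0 c x ∧ sym ρ.1 (x : Eis) ≠ 0 then 0 else 1) ∧
    ∀ z z' : Eis, SelM (BB h n E q) z → SelM (BB h n E q) z' → Y z = Y z' →
      ∃ g g' : Eis, g ≠ 0 ∧ g' ≠ 0 ∧ z * g ^ 3 = z' * g' ^ 3

/-! ### The plus part -/

/-- PTN_NPLU: the class of a point of the isogenous curve.
Proof. See `PT/FDC.lean`, `PT/FDX.lean` (for `3 ∤ B`), `PT3/FDCT.lean`, `PT3/FD2T.lean`,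
`PTE/FD2S.lean`. Splitting into cells (`FDC` for `h = 0`, `FDCT` for `h = 1, 2`; `27 ∤ B`):
`A k = a k * x k ^ 3`, `∏ a k = B`, the `a k` pairwise coprime, the `x k` pairwise coprime; for
`h = 0` and `C9 B`: the `wt (a k ^ 2)` are equal. One may assume that the `a k * x k` are pairwise
coprime since the `A k` are. `q ∣ B` divides exactly one `a k`. Replacing
`(A 0, A 1, A 2)` by a cyclic permutation changes `A 0 ^ 2 * A 1` by a power of `B` up to cubes: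
`A 0 ^ 2 A 1 · (A 0 A 1 A 2)^2 = A 1 ^ 2 A 2 · (A 0 ^ 4 A 1 A 2)`… in detail
`A 1 ^ 2 * A 2 = A 0 ^ 2 * A 1 * (A 0 * A 1 * A 2) * (1 / A 0) ^ 3`, and
`A 2 ^ 2 * A 0 = A 0 ^ 2 * A 1 * (A 0 * A 1 * A 2) ^ 2 * (1 / (A 0 * A 1)) ^ 3`, and
`A 0 * A 1 * A 2 = B m^3`. So one may assume `q ∣ a 2`. Then
`z = a 0 ^ 2 * a 1`, `(X, Y) = (a 0 * x 0, x 1)`: `z (X³ + z Y³) = a 0 ^ 4 a 1 (a 0 x 0³ + a 1 x 1³)·…
= - a 0 ^ 4 a 1 a 2 x 2 ^ 3 = B (-(a 0) x 2)^3`; `A 0 ^ 2 * A 1 = z * (x 0 ^ 2 * x 1)^3`. `AG B z`: as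
in `FDX`/`FD2T`/`FD2S` (at a prime `σ ∣ B` of one of the cells `B`, `z`
and the relation `A 0 + A 1 + A 2 = 0` modulo `σ` make `tm σ z B = 0`). `Loc B z`: `h = 2` as in
`FD2T` (clause `wild`), `h = 0`: `z` is prime to `3`, and if `lw B = 0`, that is `C9 B`, then
`lw z = 2 wt (a 0 ^ 2) + wt (a 1 ^ 2) = 0`. Support: `z ∣ B²` and `q ∤ z`. `h = 1`: nothing. -/
def Stmt_NPLU : Prop := ∀ (h n m k : ℕ) (π : Fin m → PP) (p e : Fin m → ℕ) (r f : Fin k → ℕ)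
  (E q : ℕ) (A : Fin 3 → ℤ) (m' : ℤ), NF n π p e r f → h ≤ 2 →
  (E = 1 ∨ E = 2) → q.Prime → q ≠ 3 → ¬ q ∣ n → (∀ k, A k ≠ 0) → A 0 + A 1 + A 2 = 0 →
  A 0 * A 1 * A 2 = BB h n E q * m' ^ 3 → (∀ i j, i ≠ j → IsCoprime (A i) (A j)) →
  ∃ (z X Y u v : ℤ) (j : ℕ), u ≠ 0 ∧ v ≠ 0 ∧
    z * u ^ 3 = A 0 ^ 2 * A 1 * BB h n E q ^ j * v ^ 3 ∧ Pt (BB h n E q) z X Y ∧
    AG (BB h n E q) z ∧ Loc (BB h n E q) z ∧ ∀ l : ℕ, l.Prime → (l : ℤ) ∣ z → l ∣ 3 * n

/-! ### The bounds for the rank -/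

/-- PTN_NBKN: the bound for the rank, `q = 2 (mod 3)`.
Proof. `B = BB h n E q`: nonzero, cube-free (`CubeRank.CubeFree`: for the prime `3` because `h ≤ 2` and
`3 ∤ n q`; otherwise `n` is cube-free by `NF`, `q ∤ n`), not a cube (`q` has exponent `E = 1, 2`),
`|B| ≥ q > 3`. `KID` with `W₁` from `NPSI` (`NKIN`: `S1 B ζ` implies `SelM B ζ`; for `ζ = 1` clear) and
`W₂ = ker M`, `M = MaT b X Y P Q P' Q' B`, `Nat.card = 3 ^ (s - rank M)`
(`Module.natCard_eq_pow_finrank`, as at the end of `BKE_thm` in PTL/BK.lean). `Ψ₂`: for `z` with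
`S2 B z` choose by `NPLU` a `z'` (`z' = 1` for `z = 1`); `z'` is admissible (`NADT`), so
`z' u³ = (∏ b i ^ g i) v³`; if some `g i` is not divisible by `3` then `Pt B (∏ b i ^ g i) ..` (transport of
`Pt` by cubes as in PTL/BK.lean) and `TENT` gives `M g = 0`; otherwise `g = 0` in `ZMod 3`.
`Ψ₂ z = (g i : ZMod 3)_i ∈ ker M`. If `Ψ₂ z₁ = Ψ₂ z₂` then the two products `∏ b i ^ g i` differ by a cube
(PTL/BK.lean: `prod_cube`), so `z₁` and `z₂` differ by a cube times a power of `B`. Finally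
`CubeRank.gen'` (`GenStmt`) with `d = vN + (s - rank M)`. -/
def Stmt_NBKN : Prop := ∀ (h n m k : ℕ) (π : Fin m → PP) (p e : Fin m → ℕ) (r f : Fin k → ℕ)
  (w0 : ZMod 3) (c : Fin m → ZMod 3) (s : ℕ) (τ : Fin s → Fin 3) (b X Y : Fin s → ℤ)
  (P Q P' Q' : Fin s → Fin s → ℤ) (E q : ℕ), NF n π p e r f → h ≤ 2 →
  (∀ i, AdN h n π w0 c (b i)) → SysG b P Q P' Q' → SwS P Q P' Q' →
  (∀ B : ℤ, TyB h n w0 B → LamS B τ b X Y) →
  (∀ x : ℤ, AdN h n π w0 c x → ∃ (g : Fin s → ℕ) (u v : ℤ), u ≠ 0 ∧ v ≠ 0 ∧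
    x * u ^ 3 = (∏ i, b i ^ g i) * v ^ 3) →
  (E = 1 ∨ E = 2) → q.Prime → 3 < q → q % 3 = 2 → InCT E π w0 c q → ¬ q ∣ n →
  CubeRank.GenBy (BB h n E q)
    (vN h n π p e r w0 c + (s - (MaT b X Y P Q P' Q' (BB h n E q)).rank))

/-- PTN_NBKU: the bound for the rank, `q = 1 (mod 3)`, generic case.
Proof. As `NBKN` with `NPSU` (`b (Fin.last s)` is admissible with `sym ρ ≠ 0`, so
`Nat.card W ≤ 3 ^ vN`), `NADU`, and the system of the first `s` classes (`rv b`, `rs P`, …, which is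
again a `SysG` and `SwS`; see `ECLS`, `PT3/ECLU.lean`). -/
def Stmt_NBKU : Prop := ∀ (h n m k : ℕ) (π : Fin m → PP) (p e : Fin m → ℕ) (r f : Fin k → ℕ)
  (w0 : ZMod 3) (c : Fin m → ZMod 3) (s : ℕ) (τ : Fin s → Fin 3) (b : Fin (s + 1) → ℤ)
  (X Y : Fin s → ℤ) (P Q P' Q' : Fin (s + 1) → Fin (s + 1) → ℤ) (E q : ℕ) (ρ : PP),
  NF n π p e r f → h ≤ 2 →
  (∀ i, AdN h n π w0 c (b i)) → SysG b P Q P' Q' → SwS P Q P' Q' →
  (∀ B : ℤ, TyB h n w0 B → LamS B τ (rv b) X Y) →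
  (∀ x : ℤ, AdN h n π w0 c x → sym ρ.1 (x : Eis) = 0 → ∃ (g : Fin s → ℕ) (u t : ℤ),
    u ≠ 0 ∧ t ≠ 0 ∧ x * u ^ 3 = (∏ i, b i.castSucc ^ g i) * t ^ 3) →
  (E = 1 ∨ E = 2) → q.Prime → 3 < q → q % 3 = 1 → InCT E π w0 c q → ¬ q ∣ n →
  (q : Eis) = ρ.1 * conj ρ.1 → (∀ i : Fin s, sym ρ.1 (b i.castSucc : Eis) = 0) →
  sym ρ.1 (b (Fin.last s) : Eis) ≠ 0 →
  CubeRank.GenBy (BB h n E q) (vN h n π p e r w0 c +
    (s - (MaT (rv b) X Y (rs P) (rs Q) (rs P') (rs Q') (BB h n E q)).rank))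

/-- PTN_NBK0: the bound of the first descent, `q = 1 (mod 3)`.
Proof. `KID` with `W₁` from `NPSU` (`≤ 3 ^ (vN + 1)`) and `W₂ = US`, `Ψ₂ z = exv z'` for the `z'` of
`NPLU` (`NADU`, `NVEC`); no matrix. -/
def Stmt_NBK0 : Prop := ∀ (h n m k : ℕ) (π : Fin m → PP) (p e : Fin m → ℕ) (r f : Fin k → ℕ)
  (w0 : ZMod 3) (c : Fin m → ZMod 3) (E q : ℕ), NF n π p e r f → h ≤ 2 →
  (E = 1 ∨ E = 2) → q.Prime → 3 < q → q % 3 = 1 → InCT E π w0 c q → ¬ q ∣ n →
  CubeRank.GenBy (BB h n E q) (vN h n π p e r w0 c + 1 + sN h n π p e r w0 c)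

end Pool.Agent.PTN

end

section

/-!
# NADU: `AdN` and the local conditions for the primes `q = 1 (mod 3)`

Follows `Pool/Agent/PT3/EADU.lean`.
-/

set_option autoImplicit false

namespace Pool.Agent.PTN

open Pool.Agent.Lib_helper18 Pool.Agent.Lib_helper18.Eis Pool.Agent.Lib_helper84.Cub
open Pool.Agent.PT Pool.Agent.PTE Pool.Agent.PT3

namespace NADU

open Pool.Agent.PT.EADM

theorem ch_pow' {π a : Eis} (hπ : Prime π) (h3 : ¬ π ∣ 3) (ha : a ≠ 0) (E : ℕ) :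
    ch π (a ^ E) = (E : ZMod 3) * ch π a := by
  induction E with
  | zero =>
    have h1 : ch π (1 * 1 : Eis) = ch π 1 + ch π 1 := ch_mul hπ h3 one_ne_zero one_ne_zero
    rw [one_mul] at h1
    have h2 : ch π (1 : Eis) = 0 := by
      have h4 := sub_eq_zero.2 h1
      linear_combination - h4
    rw [pow_zero, h2, Nat.cast_zero, zero_mul]
  | succ k ih =>
    rw [pow_succ, ch_mul hπ h3 (pow_ne_zero _ ha) ha, ih]
    push_cast
    ring

theorem below_ne {π : PP} {l : ℕ} (h : Below π l) : l ≠ 3 := by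
  rcases h.h with ⟨h1, _⟩ | ⟨h1, _⟩ <;> omega

/-- the type of `B` at `3` -/
theorem type (hLCL : LCL) {h n E q : ℕ} {w0 : ZMod 3} (hh : h ≤ 2)
    (hn0 : n ≠ 0) (hn3 : ¬ 3 ∣ n) (hq0 : q ≠ 0) (hq3 : ¬ 3 ∣ q)
    (hw : wt (((q : ℤ) ^ E) ^ 2) = w0) : TyB h n w0 (BB h n E q) := by
  obtain ⟨-, hL2, ⟨hL3, hL4⟩, hL5, -⟩ := hLCL
  have hn : (n : ℤ) ≠ 0 := by exact_mod_cast hn0
  have hq : (q : ℤ) ≠ 0 := by exact_mod_cast hq0
  have hqE : (q : ℤ) ^ E ≠ 0 := pow_ne_zero _ hq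
  have h3n : ¬ (3 : ℤ) ∣ (n : ℤ) := fun h => hn3 (by exact_mod_cast h)
  have h3q : ¬ (3 : ℤ) ∣ (q : ℤ) ^ E := by
    intro h
    have h1 : (3 : ℤ) ∣ (q : ℤ) := Int.prime_three.dvd_of_dvd_pow h
    exact hq3 (by exact_mod_cast h1)
  have h3h : (3 : ℤ) ^ h ≠ 0 := pow_ne_zero _ (by norm_num)
  have hp : lv ((3 : ℤ) ^ h) = (h : ZMod 3) ∧ lw ((3 : ℤ) ^ h) = 0 := by
    interval_cases h
    · have h1 := hL2 1 1 (by norm_num) (by norm_num)
      rw [mul_one] at h1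
      have h2 : lv 1 = 0 := by
        have h3 := h1.1
        linear_combination - h3
      have h4 : lw 1 = 0 := by
        have h3 := h1.2
        linear_combination - h3
      rw [pow_zero, h2, h4]
      exact ⟨by norm_num, rfl⟩
    · rw [pow_one]
      exact ⟨by rw [hL3]; norm_num, hL4⟩
    · have h1 := hL2 3 3 (by norm_num) (by norm_num)
      have h2 : (3 : ℤ) ^ 2 = 3 * 3 := by norm_num
      rw [h2, h1.1, h1.2, hL3, hL4]
      constructor
      · decide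
      · ring
  have hB : BB h n E q ≠ 0 := mul_ne_zero (mul_ne_zero h3h hn) hqE
  obtain ⟨h1, h2⟩ := hL2 ((3 : ℤ) ^ h * n) ((q : ℤ) ^ E) (mul_ne_zero h3h hn) hqE
  obtain ⟨h3, h4⟩ := hL2 ((3 : ℤ) ^ h) n h3h hn
  obtain ⟨h5, h6⟩ := hL5 n h3n
  obtain ⟨h7, h8⟩ := hL5 _ h3q
  refine ⟨hB, ?_, ?_⟩
  · unfold BB
    rw [h1, h3, hp.1, h5, h7]
    ring
  · unfold BB
    rw [h2, h4, hp.2, h6, h8, hw]
    ring

/-- the conditions on `B` -/
theorem bt {h n m k : ℕ} {π : Fin m → PP} {p e : Fin m → ℕ} {r f : Fin k → ℕ} {E q : ℕ}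
    (hN : NF n π p e r f) (hh : h ≤ 2) (hE : E = 1 ∨ E = 2) (hq : q.Prime)
    (hq3 : ¬ 3 ∣ q) (hqn : ¬ q ∣ n) (hbelow : ∀ π : PP, ∃ l, Below π l) :
    BG (BB h n E q) := by
  have _ := hh
  have hn0 : n ≠ 0 := n_ne hN
  have hn3 : ¬ 3 ∣ n := three_not hN
  have _ := hn3
  have _ := hq3
  have e0 : BB h n E q = ((3 ^ h * (n * q ^ E) : ℕ) : ℤ) := by
    unfold BB
    push_cast
    ring
  have hne : 3 ^ h * (n * q ^ E) ≠ 0 :=
    mul_ne_zero (pow_ne_zero _ (by norm_num)) (mul_ne_zero hn0 (pow_ne_zero _ hq.ne_zero))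
  refine ⟨?_, ?_⟩
  · rw [e0]
    exact_mod_cast hne
  · intro ϖ
    obtain ⟨l, hl⟩ := hbelow ϖ
    have hl3 := below_ne hl
    rw [e0, Int.cast_natCast, hl.V_nat hne,
      Nat.factorization_mul (pow_ne_zero _ (by norm_num))
        (mul_ne_zero hn0 (pow_ne_zero _ hq.ne_zero)), Finsupp.add_apply,
      Nat.factorization_mul hn0 (pow_ne_zero _ hq.ne_zero), Finsupp.add_apply]
    have h1 := fac_le hN l
    have h0 : (3 ^ h).factorization l = 0 := by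
      apply Nat.factorization_eq_zero_of_not_dvd
      intro h2
      exact hl3 ((Nat.prime_dvd_prime_iff_eq hl.pr Nat.prime_three).1 (hl.pr.dvd_of_dvd_pow h2))
    by_cases hlq : l = q
    · have h2 : n.factorization l = 0 := by
        rw [hlq]
        exact Nat.factorization_eq_zero_of_not_dvd hqn
      have h3 : (q ^ E).factorization l = E := by
        rw [hlq, hq.factorization_pow, Finsupp.single_eq_same]
      omega
    · have h3 : (q ^ E).factorization l = 0 := by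
        apply Nat.factorization_eq_zero_of_not_dvd
        intro h2
        exact hlq ((Nat.prime_dvd_prime_iff_eq hl.pr hq).1 (hl.pr.dvd_of_dvd_pow h2))
      omega

end NADU

open Pool.Agent.PT.EADM _root_.Pool.Agent.PTN.NADU in
/-- PTN_NADU: `AdN` and the local conditions, `q = 1 (mod 3)`. -/
theorem NADU_thm (hSTM : STM) (hSPP : SPP) (hSCJ : SCJ) (hSPLT : SPLT) (hLCL : LCL) :
    Stmt_NADU := by
  have _ := hSTM
  intro h n m k π p e r f w0 c E q ρ hN hh hE hq hq3 hcl hqn hqρ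
  obtain ⟨_, hSPP2, _, hSPP4, _, hSPP6⟩ := hSPP
  obtain ⟨hSCJ1, _, _, hSCJ4⟩ := hSCJ
  obtain ⟨hqw, hqc⟩ := hcl
  obtain ⟨-, hsplit⟩ := hSPLT
  obtain ⟨-, -, hS3, hS4, -, -⟩ := hsplit q ρ hq hq3 hqρ
  have hn0 : n ≠ 0 := n_ne hN
  have hn3 : ¬ 3 ∣ n := three_not hN
  have hbelow : ∀ π : PP, ∃ l, Below π l := by
    intro π
    obtain ⟨l, hl, h⟩ := hSPP6 π
    exact ⟨l, hl, h⟩
  have h3q : ¬ 3 ∣ q := by omega
  have hbt := bt hN hh hE hq h3q hqn hbelow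
  have hty := NADU.type hLCL hh hn0 hn3 hq.ne_zero h3q hqw
  refine ⟨hbt, hty, ?_⟩
  have hB0 : BB h n E q ≠ 0 := hbt.ne
  intro x hsupp
  have hρ3 : ¬ ρ.1 ∣ 3 := (hSPP4 ρ).1
  have h3ne : ((3 ^ h * n : ℕ) : Eis) ≠ 0 := natCast_ne
    (mul_ne_zero (pow_ne_zero _ (by norm_num)) hn0)
  have hq0 : (q : Eis) ≠ 0 := natCast_ne hq.ne_zero
  have e1 : ((BB h n E q : ℤ) : Eis) = ((3 ^ h * n : ℕ) : Eis) * (q : Eis) ^ E := by
    unfold BB
    push_cast
    ring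
  -- divisors of `3 n`
  have hsupp' : ∀ l : ℕ, l.Prime → l ≠ 3 → (l : ℤ) ∣ x → l ∣ n := by
    intro l hl hl3 hlx
    rcases hl.dvd_mul.1 (hsupp l hl hlx) with h1 | h1
    · exact absurd ((Nat.prime_dvd_prime_iff_eq hl Nat.prime_three).1 h1) hl3
    · exact h1
  have hq3' : q ≠ 3 := by omega
  -- `ρ` does not divide `x`
  have hρx : ¬ ρ.1 ∣ (x : Eis) := fun h => hqn (hsupp' q hq hq3' ((hS4 x).1 h))
  have hρn : ¬ ρ.1 ∣ ((3 ^ h * n : ℕ) : Eis) := by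
    intro h1
    have h2 := (hS4 ((3 ^ h * n : ℕ) : ℤ)).1 (by rwa [Int.cast_natCast])
    have h3 : q ∣ 3 ^ h * n := by exact_mod_cast h2
    rcases hq.dvd_mul.1 h3 with h4 | h4
    · exact hq3' ((Nat.prime_dvd_prime_iff_eq hq Nat.prime_three).1 (hq.dvd_of_dvd_pow h4))
    · exact hqn h4
  -- the symbol at `ρ`
  have hVq : V ρ.1 (q : Eis) = 1 := by
    obtain ⟨l, hl⟩ := hbelow ρ
    have h1 : ρ.1 ∣ (q : Eis) := by rw [hqρ]; exact dvd_mul_right _ _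
    have h2 : l = q := (Nat.prime_dvd_prime_iff_eq hl.pr hq).1 ((hl.dvd_nat _).1 h1)
    rw [← h2]
    exact hl.V_self
  have hVB : V ρ.1 ((BB h n E q : ℤ) : Eis) = E := by
    rw [e1, V_mul ρ.2.1 h3ne (pow_ne_zero _ hq0), V_eq_zero hρn, V_pow ρ.2.1 hq0, hVq,
      zero_add, mul_one]
  have hrho : tm ρ.1 (x : Eis) ((BB h n E q : ℤ) : Eis) = (E : ZMod 3) * sym ρ.1 (x : Eis) := by
    unfold tm
    rw [hVB, V_eq_zero hρx, ch_unit ρ.2.1 hρx]
    simp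
  have hE0 : (E : ZMod 3) ≠ 0 := by
    rcases hE with rfl | rfl <;> decide
  -- the conditions at the `π i`
  have key : x ≠ 0 → ∀ i, (V (π i).1 (n : Eis) : ZMod 3) * ch (π i).1 (x : Eis) -
      (V (π i).1 (x : Eis) : ZMod 3) * (ch (π i).1 ((3 ^ h * n : ℕ) : Eis) + c i) =
      tm (π i).1 (x : Eis) ((BB h n E q : ℤ) : Eis) := by
    intro hx i
    obtain ⟨l, hl⟩ := hbelow (π i)
    have hpi : (p i : Eis) = (π i).1 * conj (π i).1 := hN.pπ i
    have hlp : l = p i := by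
      have h1 : (π i).1 ∣ (p i : Eis) := by rw [hpi]; exact dvd_mul_right _ _
      exact (Nat.prime_dvd_prime_iff_eq hl.pr (hN.pp i)).1 ((hl.dvd_nat _).1 h1)
    have hq' : ¬ (π i).1 ∣ (q : Eis) := by
      intro h
      have h1 := (Nat.prime_dvd_prime_iff_eq hl.pr hq).1 ((hl.dvd_nat _).1 h)
      apply hqn
      rw [← h1, hlp, hN.eq]
      have he : e i ≠ 0 := by
        have := hN.pe i
        omega
      exact Dvd.dvd.mul_right ((dvd_pow_self _ he).trans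
        (Finset.dvd_prod_of_mem (fun i => p i ^ e i) (Finset.mem_univ i))) _
    have h3 : ¬ (π i).1 ∣ 3 := (hSPP4 (π i)).1
    have h3' : ¬ (π i).1 ∣ ((3 ^ h : ℕ) : Eis) := by
      intro h4
      apply h3
      have h5 := (hl.dvd_nat _).1 h4
      have h6 := (hl.dvd_nat 3).2 (hl.pr.dvd_of_dvd_pow h5)
      exact_mod_cast h6
    have h30 : ((3 ^ h : ℕ) : Eis) ≠ 0 := natCast_ne (pow_ne_zero _ (by norm_num))
    have hV : V (π i).1 ((3 ^ h * n : ℕ) : Eis) = V (π i).1 (n : Eis) := by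
      rw [Nat.cast_mul, V_mul (π i).2.1 h30 (natCast_ne hn0), V_eq_zero h3', zero_add]
    rw [e1]
    unfold tm
    rw [V_mul (π i).2.1 h3ne (pow_ne_zero _ hq0), V_pow (π i).2.1 hq0, V_eq_zero hq', mul_zero,
      add_zero, hV, ch_mul (π i).2.1 h3 h3ne (pow_ne_zero _ hq0), ch_pow' (π i).2.1 h3 hq0 E,
      ch_unit (π i).2.1 hq', hqc i]
  have hwild : h = 2 ↔ lv (BB h n E q) = 2 := by
    rw [hty.2.1]
    clear * - hh
    interval_cases h <;> decide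
  have hzero : h = 0 ↔ lv (BB h n E q) = 0 := by
    rw [hty.2.1]
    clear * - hh
    interval_cases h <;> decide
  constructor
  · rintro ⟨⟨⟨hx, _, hsym, h9⟩, h0⟩, hxρ⟩
    refine ⟨⟨hx, ?_, ?_⟩, fun h1 => ?_, fun h1 => ?_⟩
    · intro ϖ
      obtain ⟨l, hl⟩ := hbelow ϖ
      rcases hl.h with ⟨hl3, hl2⟩ | ⟨hl3, hl2, hl4, hl5⟩
      · rw [hl2]
        exact hSCJ4 l hl.pr hl3 x _ hx hB0
      · by_cases hln : l ∣ n
        · rcases prime_dvd hN hl.pr hln with ⟨i, hi⟩ | ⟨j, hj⟩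
          · have h4 : ϖ.1 ∣ (π i).1 * conj (π i).1 := by
              rw [← hN.pπ i, ← hi, hl4]
              exact dvd_mul_right _ _
            rcases ϖ.2.1.dvd_or_dvd h4 with h5 | h5
            · have h6 : ϖ = π i :=
                hSPP2 _ _ (ϖ.2.1.associated_of_dvd (π i).2.1 h5)
              rw [h6, ← key hx i]
              exact hsym i
            · obtain ⟨ϖ', hϖ'⟩ := (hSPP4 (π i)).2
              have h6 : ϖ = ϖ' := by
                apply hSPP2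
                rw [hϖ']
                exact ϖ.2.1.associated_of_dvd (prime_conj (π i).2.1) h5
              rw [h6, hϖ']
              have h7 := hSCJ1 (π i).1 (x : Eis) ((BB h n E q : ℤ) : Eis) (π i).2.1
                (hSPP4 (π i)).1 (intCast_ne hx) (intCast_ne hB0)
              rw [map_intCast, map_intCast] at h7
              rw [h7, ← key hx i, hsym i, neg_zero]
          · have := hN.r2 j
            rw [← hj] at this
            omega
        · by_cases hlq : l = q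
          · -- the primes above `q`
            have h4 : ϖ.1 ∣ (q : Eis) := by
              rw [← hlq, hl4]
              exact dvd_mul_right _ _
            rcases hS3 ϖ h4 with h5 | h5
            · rw [h5, hrho, hxρ, mul_zero]
            · rw [h5]
              have h7 := hSCJ1 ρ.1 (x : Eis) ((BB h n E q : ℤ) : Eis) ρ.2.1
                hρ3 (intCast_ne hx) (intCast_ne hB0)
              rw [map_intCast, map_intCast] at h7
              rw [h7, hrho, hxρ, mul_zero, neg_zero]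
          · have h4 : ¬ ϖ.1 ∣ (x : Eis) := by
              intro h
              exact hln (hsupp' l hl.pr (below_ne hl) ((hl.dvd_int x).1 h))
            have h5 : ¬ ϖ.1 ∣ ((BB h n E q : ℤ) : Eis) := by
              rw [e1]
              intro h6
              rcases ϖ.2.1.dvd_or_dvd h6 with h7 | h7
              · rcases hl.pr.dvd_mul.1 ((hl.dvd_nat _).1 h7) with h8 | h8
                · exact below_ne hl ((Nat.prime_dvd_prime_iff_eq hl.pr Nat.prime_three).1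
                    (hl.pr.dvd_of_dvd_pow h8))
                · exact hln h8
              · exact hlq ((Nat.prime_dvd_prime_iff_eq hl.pr hq).1
                  ((hl.dvd_nat _).1 (ϖ.2.1.dvd_of_dvd_pow h7)))
            unfold tm
            rw [V_eq_zero h4, V_eq_zero h5]
            simp
    · intro ϖ hϖ h1
      obtain ⟨l, hl⟩ := hbelow ϖ
      apply hϖ
      rw [e1]
      apply Dvd.dvd.mul_right
      rw [hl.dvd_nat]
      exact (hsupp' l hl.pr (below_ne hl) ((hl.dvd_int x).1 h1)).mul_left _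
    · have h2 := h9 (hwild.2 h1)
      rw [hty.2.2]
      exact h2
    · have h2 := h0 (hzero.2 h1)
      rw [hty.2.2]
      exact h2
  · rintro ⟨⟨hx, hsym, _⟩, h9, h0⟩
    refine ⟨⟨⟨hx, hsupp, fun i => ?_, fun h1 => ?_⟩, fun h1 => ?_⟩, ?_⟩
    · rw [key hx i]
      exact hsym (π i)
    · have h2 := h9 (hwild.1 h1)
      rw [hty.2.2] at h2
      exact h2
    · have h2 := h0 (hzero.1 h1)
      rw [hty.2.2] at h2
      exact h2
    · have h1 := hsym ρ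
      rw [hrho] at h1
      exact (mul_eq_zero.1 h1).resolve_left hE0

end Pool.Agent.PTN

end
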