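import Mathlib
import Pool.Agent.PTWX.C31

/-! Parts: PTN.StD -/

section

/-!
# The law of the ranks of prime twists for every `n`: densities

`BDENS.sm S σ` is the sum of `q ^ (-σ)` over the primes `q` of the set `S` (PT/BDENS.lean, with many
lemmas on sums over sets of primes). `PTL.NK`, `PTL.SP`, `PTL.SM` are defined in PTL/BD.lean.
Everything in `PT`, `PTE`, `PT3`, `PTL` is proved and may be imported or taken as a hypothesis.
-/

set_option autoImplicit false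

open NumberField IsDedekindDomain Finset
open scoped nonZeroDivisors Pointwise

namespace Pool.Agent.PTN

open Pool.Agent.Lib_helper18 Pool.Agent.Lib_helper18.Eis Pool.Agent.Lib_helper84.Cub
open Pool.Agent.PT Pool.Agent.PTE Pool.Agent.PT3 Pool.Agent.PTL

/-! ### Primes `Q = 2 (mod 3)` -/

/-- PTN_BDG: the exact bound for the density, both exponents together, `Q = 2 (mod 3)`.
Proof. As `BDE_thm` in PTL/BD.lean, with `SysG` and `GALG` (PT3) in place of `Sys` and `GALD`: the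
lemmas `BD.dens`, `BD.card_X`, … of PTL/BD.lean do not use `Sys` and can be cited. -/
def Stmt_BDG : Prop := ∀ (s : ℕ) (b : Fin s → ℤ) (p q p' q' : Fin s → Fin s → ℤ) (f m t : ℕ)
  (κ : (ZMod f)ˣ →* Multiplicative (Fin (m + 1) → ZMod 3)) (c : Fin (m + 1) → ZMod 3)
  (C : Fin s → Fin s → ZMod 3) (Φ : (ZMod f)ˣ →* Multiplicative (Fin s → Fin s → ZMod 3)),
  SysG b p q p' q' → 0 < f → 9 ∣ f →
  (∀ c : Fin (m + 1) → ZMod 3,
    Nat.card {a : (ZMod f)ˣ // M2 a ∧ (κ a).toAdd = c} * (2 * 3 ^ (m + 1)) = f.totient) →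
  ∃ K : ℝ, ∀ σ : ℝ, 1 < σ → σ ≤ 2 →
    BDENS.sm (SP b p q p' q' t κ c C Φ) σ + BDENS.sm (SM b p q p' q' t κ c C Φ) σ ≤
      (NK s t : ℝ) / Nat.card (Fin s → Fin s → ZMod 3) / 3 ^ (m + 1) *
        Real.log (1 / (σ - 1)) + K

/-! ### Primes `Q = 1 (mod 3)`: Frobenius elements -/

/-- PTN_GFRU: Frobenius elements and the pattern, with converse, for both prime factors `ρ`.
Proof. As `GFRS_thm` (PTE/GFRS.lean). `GFRS.exists_dat` gives one prime factor `ρ₀` of `Q`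
compatible with `P`. For `ρ₀` the implication from left to right and the statement on `t` are in
`GFRS_thm`. Converse for `ρ₀`: `Dat.fr_root`: `mk (φ • θ) = z ^ (sym ρ₀ b) * mk θ` for `θ ^ 3 = b`; if
`sym ρ₀ b = 0` then `φ • θ = ω ^ k θ` (same cube) gives `z ^ k = 1`, `3 ∣ k`, `φ • θ = θ`; if `φ • θ = θ`
then `sym ρ₀ b = 0` (`Dat.sym_zero`). Every other `ρ` is `ρ₀` or `conj ρ₀` (`SPLT`: `ρ ∣ Q`), and
`sym (conj ρ₀) x = - sym ρ₀ x` for integers `x` prime to `Q`, `TAUVS (conj ρ₀) = TAUVS ρ₀`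
(`SPLT`: `sym (conj ρ) (conj a) = - sym ρ a`, `conj (Lf p q 1 r) = Lf p q 2 r`, and the linear forms are
prime to `ρ₀`: `GFRS.lf_not_dvd`; `n1` of `Sol`). -/
def Stmt_GFRU : Prop := ∀ (s : ℕ) (b : Fin (s + 1) → ℤ)
  (p q p' q' : Fin (s + 1) → Fin (s + 1) → ℤ) (f : ℕ)
  (L : Type) [Field L] [NumberField L] (ζ ω : L), SysG b p q p' q' →
  GovF b p q p' q' f L ζ ω →
  ∃ N₀ : ℕ, ∀ Q : ℕ, Q.Prime → N₀ < Q → Q % 3 = 1 → ∀ (P : Ideal (𝓞 L)), P.IsPrime →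
    (Q : 𝓞 L) ∈ P → ∀ φ : L ≃ₐ[ℚ] L, IsArithFrobAt ℤ φ P → ∀ ρ : PP,
    (Q : Eis) = ρ.1 * conj ρ.1 →
    (Fx b φ ↔ (∀ j : Fin s, sym ρ.1 (b j.castSucc : Eis) = 0) ∧
      sym ρ.1 (b (Fin.last s) : Eis) ≠ 0) ∧
    (Fx b φ → ∀ j i : Fin s, j ≠ i → ∀ (r : ℤ) (t : ZMod 3), (Q : ℤ) ∣ r ^ 3 - b j.castSucc →
      IsTS b p q p' q' ω φ j.castSucc i.castSucc t →
      t = TAUVS ρ.1 (rs p j i) (rs q j i) (rs p' j i) (rs q' j i) r)

/-- PTN_GALDU: summary of the governing field.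
Proof. As `GALDS_thm` (PTE/GALDS.lean) with `GFRU` in place of `GFRS`; only the last clause changes:
`k` is chosen such that `g ^ k` is a Frobenius element of `P` (see `GALDS_thm` or
`PT/GALD.lean`), `χ (g ^ k) = Q` by `GCHI`, and for `Q % 3 = 1` the statement is `GFRU` for
`φ = g ^ k` (`t` is characterised by `IsTS` on the elements with `g ω = ω`, `Fx b g`; `M1 (χ g)` gives
`g ω = ω`). -/
def Stmt_GALDU : Prop := ∀ (s : ℕ) (b : Fin (s + 1) → ℤ)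
  (p q p' q' : Fin (s + 1) → Fin (s + 1) → ℤ) (f : ℕ), SysG b p q p' q' → 0 < f → 9 ∣ f →
  ∃ (L : Type) (_ : Field L) (_ : NumberField L) (_ : IsGalois ℚ L)
    (χ : (L ≃ₐ[ℚ] L) →* (ZMod f)ˣ) (F : (L ≃ₐ[ℚ] L) → Prop)
    (t : (L ≃ₐ[ℚ] L) → Fin s → Fin s → ZMod 3) (N₀ : ℕ),
    Function.Surjective χ ∧
    (∀ g τ : L ≃ₐ[ℚ] L, M1 (χ g) → F g →
      F (τ * g * τ⁻¹) ∧ ∀ j i, j ≠ i → t (τ * g * τ⁻¹) j i = t g j i) ∧
    (∀ (g : L ≃ₐ[ℚ] L) (k : ℕ), M1 (χ g) → F g → ¬ 3 ∣ k →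
      F (g ^ k) ∧ ∀ j i, j ≠ i → t (g ^ k) j i = k * t g j i) ∧
    (∀ (a : (ZMod f)ˣ) (v v' : Fin s → Fin s → ZMod 3), M1 a →
      Nat.card {g : L ≃ₐ[ℚ] L // χ g = a ∧ F g ∧ ∀ j i, j < i → t g j i = v j i} =
        Nat.card {g : L ≃ₐ[ℚ] L // χ g = a ∧ F g ∧ ∀ j i, j < i → t g j i = v' j i}) ∧
    (∀ a : (ZMod f)ˣ, M1 a → 3 ^ (s + 1) * Nat.card {g : L ≃ₐ[ℚ] L // χ g = a ∧ F g} =
      2 * Nat.card {g : L ≃ₐ[ℚ] L // χ g = a}) ∧
    ∀ (Q : ℕ) (hQ : Q.Coprime f), Q.Prime → N₀ < Q →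
      ∀ (P : Ideal (𝓞 L)) (g : L ≃ₐ[ℚ] L), P.IsPrime → (Q : 𝓞 L) ∈ P →
      MulAction.stabilizer (L ≃ₐ[ℚ] L) P = Subgroup.zpowers g →
      ∃ k : ℕ, k.Coprime (orderOf g) ∧ χ (g ^ k) = ZMod.unitOfCoprime Q hQ ∧
        (Q % 3 = 1 → ∀ ρ : PP, (Q : Eis) = ρ.1 * conj ρ.1 →
          (F (g ^ k) ↔ (∀ j : Fin s, sym ρ.1 (b j.castSucc : Eis) = 0) ∧
            sym ρ.1 (b (Fin.last s) : Eis) ≠ 0) ∧
          (F (g ^ k) → ∀ j i : Fin s, j ≠ i → ∀ r : ℤ, (Q : ℤ) ∣ r ^ 3 - b j.castSucc →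
            t (g ^ k) j i = TAUVS ρ.1 (rs p j i) (rs q j i) (rs p' j i) (rs q' j i) r))

/-! ### Primes `Q = 1 (mod 3)`: counting and densities -/

/-- PTN_EQX: equidistribution.
Proof. As `EQD_thm` (PT; the proof does not use the group). `alt v` depends only on the
`v j i` with `j < i`. Each fibre of `x ↦ (t x j i)_{j < i}` has the same number of elements; sum over
the classes `C ± t x`. -/
def Stmt_EQX : Prop := ∀ (s : ℕ) (X : Type) [Finite X] (t : X → Fin s → Fin s → ZMod 3),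
  (∀ v v' : Fin s → Fin s → ZMod 3,
    Nat.card {x : X // ∀ j i, j < i → t x j i = v j i} =
      Nat.card {x : X // ∀ j i, j < i → t x j i = v' j i}) →
  ∀ (C : Fin s → Fin s → ZMod 3) (S : Set (Matrix (Fin s) (Fin s) (ZMod 3))),
    Nat.card {x : X // alt (C + t x) ∈ S} * Nat.card (Fin s → Fin s → ZMod 3) =
      Nat.card {v : Fin s → Fin s → ZMod 3 // alt v ∈ S} * Nat.card X ∧
    Nat.card {x : X // alt (C - t x) ∈ S} * Nat.card (Fin s → Fin s → ZMod 3) =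
      Nat.card {v : Fin s → Fin s → ZMod 3 // alt v ∈ S} * Nat.card X

/-- the primes of the class `c` with the pattern and large kernel, for the exponent `1` -/
def SPU {s f m : ℕ} (b : Fin (s + 1) → ℤ) (p q p' q' : Fin (s + 1) → Fin (s + 1) → ℤ) (t : ℕ)
    (κ : (ZMod f)ˣ →* Multiplicative (Fin (m + 1) → ZMod 3)) (c : Fin (m + 1) → ZMod 3)
    (C : Fin s → Fin s → ZMod 3) (Φ : (ZMod f)ˣ →* Multiplicative (Fin s → Fin s → ZMod 3)) :
    Set ℕ :=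
  {Q : ℕ | ∃ (hQ : Q.Coprime f) (ρ : PP), ClQ b κ c Q hQ ρ ∧
    ∀ τ : Fin s → Fin s → ZMod 3,
      (∀ j i, j ≠ i → ∀ r : ℤ, (Q : ℤ) ∣ r ^ 3 - b j.castSucc →
        τ j i = TAUVS ρ.1 (rs p j i) (rs q j i) (rs p' j i) (rs q' j i) r) →
      t ≤ s - (alt (C + (Φ (ZMod.unitOfCoprime Q hQ)).toAdd + τ)).rank}

/-- the primes of the class `-c` with the pattern and large kernel, for the exponent `2` -/
def SMU {s f m : ℕ} (b : Fin (s + 1) → ℤ) (p q p' q' : Fin (s + 1) → Fin (s + 1) → ℤ) (t : ℕ)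
    (κ : (ZMod f)ˣ →* Multiplicative (Fin (m + 1) → ZMod 3)) (c : Fin (m + 1) → ZMod 3)
    (C : Fin s → Fin s → ZMod 3) (Φ : (ZMod f)ˣ →* Multiplicative (Fin s → Fin s → ZMod 3)) :
    Set ℕ :=
  {Q : ℕ | ∃ (hQ : Q.Coprime f) (ρ : PP), ClQ b κ (-c) Q hQ ρ ∧
    ∀ τ : Fin s → Fin s → ZMod 3,
      (∀ j i, j ≠ i → ∀ r : ℤ, (Q : ℤ) ∣ r ^ 3 - b j.castSucc →
        τ j i = TAUVS ρ.1 (rs p j i) (rs q j i) (rs p' j i) (rs q' j i) r) →
      t ≤ s - (alt (C - (Φ (ZMod.unitOfCoprime Q hQ)).toAdd - τ)).rank}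

/-- PTN_BDU: the exact bound for the density, both exponents together, `Q = 1 (mod 3)`.
Proof. As `BDE_thm` in PTL/BD.lean (read it first), with `GALDU`, `M1` in place of `M2`. Put
`InU g : M1 (χ g) ∧ ((κ (χ g)).toAdd = c ∨ (κ (χ g)).toAdd = -c)`,
`XP g : M1 (χ g) ∧ (κ (χ g)).toAdd = c ∧ F g ∧ t ≤ s - rank (alt (C + (Φ (χ g)).toAdd + t g))`,
`XM g : M1 (χ g) ∧ (κ (χ g)).toAdd = -c ∧ F g ∧ t ≤ s - rank (alt (C - (Φ (χ g)).toAdd - t g))`.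
(1) If `h = g' ^ k` with `¬ 3 ∣ k` and `g' = τ g τ⁻¹` then `InU` is preserved, and `XP`, `XM` are
preserved for `k = 1 (mod 3)` and exchanged for `k = 2 (mod 3)` (clauses 2, 3 of `GALDU`; `F h → F g'`
because `g'` is a power of `h` with exponent prime to `3`). Two generators of a finite cyclic group
are powers of each other with an exponent prime to `3` (add the order if necessary, see
`BDENS.exists_pow`). So `XP ∨ XM` and `XP ∧ XM` are stable under `zpowers h = zpowers (τ g τ⁻¹)`, and so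
are `InU ∧ ¬ (XP ∨ XM)`, `InU ∧ ¬ (XP ∧ XM)`. (2) Counting with `EQX` (`X = {g // χ g = a ∧ F g}`), clause 5 of
`GALDU` and the number of the `a`: `3 ^ (s + 1) * Nat.card (Fin s → Fin s → ZMod 3) * #XP * (2 * 3 ^ (m + 1)) =
2 * NK s t * #G`, the same for `XM`. (3) As `BD.dens`: for a stable `B` (`XP ∨ XM`, `XP ∧ XM`) and a set `S`
of primes `= 1 (mod 3)` of the classes `± c` such that the Frobenius element `g ^ k` of every large `n ∈ S`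
satisfies `B`: `sm S ≤ (#B / #G) log + K` (`RI.FROBD_thm` for the complement `InU ∧ ¬ B`, `DIR` for the
residue classes, `BD.card_T`-like counting). For `S = SPU ∪ SMU`, `SPU ∩ SMU`: if `n ∈ SPU`, with `ρ`,
then the pattern for `ρ` gives `F (g ^ k)` and `t (g ^ k)` is the `TAUVS` for `ρ`; take
`τ = t (g ^ k)`. (4) `BD.sm_union_inter`, `BD.card_incl`. -/
def Stmt_BDU : Prop := ∀ (s : ℕ) (b : Fin (s + 1) → ℤ)
  (p q p' q' : Fin (s + 1) → Fin (s + 1) → ℤ) (f m t : ℕ)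
  (κ : (ZMod f)ˣ →* Multiplicative (Fin (m + 1) → ZMod 3)) (c : Fin (m + 1) → ZMod 3)
  (C : Fin s → Fin s → ZMod 3) (Φ : (ZMod f)ˣ →* Multiplicative (Fin s → Fin s → ZMod 3)),
  SysG b p q p' q' → 0 < f → 9 ∣ f →
  (∀ c : Fin (m + 1) → ZMod 3,
    Nat.card {a : (ZMod f)ˣ // M1 a ∧ (κ a).toAdd = c} * (2 * 3 ^ (m + 1)) = f.totient) →
  ∃ K : ℝ, ∀ σ : ℝ, 1 < σ → σ ≤ 2 →
    BDENS.sm (SPU b p q p' q' t κ c C Φ) σ + BDENS.sm (SMU b p q p' q' t κ c C Φ) σ ≤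
      2 / 3 ^ (s + 1) * ((NK s t : ℝ) / Nat.card (Fin s → Fin s → ZMod 3)) / 3 ^ (m + 1) *
        Real.log (1 / (σ - 1)) + K

/-- PTN_BDL: the lower bound for the number of the primes with a given pattern.
Proof. Notation as in `BDU` with `t = 0` (the last condition is empty): `XP ∨ XM`, `XP ∧ XM` are
stable; `RI.FROBD_thm` for these two sets gives lower bounds for the sums over the primes `Q` with a
prime `P` above `Q` whose stabilizer is generated by an element of the set. For such a `Q` (large),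
`g ^ k` (last clause of `GALDU`; `zpowers (g ^ k) = zpowers g`) is in the set too; so
`Q % 3 = 1`, the class of `Q` is `± c`, `F (g ^ k)` holds, so the pattern holds for a `ρ` (exists by
`SPLT`): `Q ∈ SPU 0 ∪ SMU 0`, resp. `Q ∈ SPU 0 ∩ SMU 0` (up to finitely many `Q`). Sum:
`BD.sm_union_inter`, `BD.card_incl`, `3 ^ (s + 1) * #XP * (2 * 3 ^ (m + 1)) = 2 * #G` (clause 5), same for
`XM`. -/
def Stmt_BDL : Prop := ∀ (s : ℕ) (b : Fin (s + 1) → ℤ)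
  (p q p' q' : Fin (s + 1) → Fin (s + 1) → ℤ) (f m : ℕ)
  (κ : (ZMod f)ˣ →* Multiplicative (Fin (m + 1) → ZMod 3)) (c : Fin (m + 1) → ZMod 3),
  SysG b p q p' q' → 0 < f → 9 ∣ f →
  (∀ c : Fin (m + 1) → ZMod 3,
    Nat.card {a : (ZMod f)ˣ // M1 a ∧ (κ a).toAdd = c} * (2 * 3 ^ (m + 1)) = f.totient) →
  ∃ K : ℝ, ∀ σ : ℝ, 1 < σ → σ ≤ 2 →
    2 / 3 ^ (s + 1) / 3 ^ (m + 1) * Real.log (1 / (σ - 1)) - K ≤
      BDENS.sm {Q : ℕ | ∃ (hQ : Q.Coprime f) (ρ : PP), ClQ b κ c Q hQ ρ} σ +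
      BDENS.sm {Q : ℕ | ∃ (hQ : Q.Coprime f) (ρ : PP), ClQ b κ (-c) Q hQ ρ} σ

/-- PTN_CLT: the number of the primes `= a (mod 3)` in a class, both exponents together.
Proof. Let `f = 9 ∏ p i`, `κ` from `CLSC`. For `q` prime to `f`, `q % 3 = a`, `InCT E π w0 c q` means
`κ q = (w0, c)` for `E = 1` and `κ q = (-w0, -c)` for `E = 2` (`wt (q ^ 4) = 2 wt (q ^ 2)`,
`CL.wt_sq2`-like, for `q` prime to `3`; `2 x = y ↔ x = -y` in `ZMod 3`). By `CLSC` (`a = 2`) and `CLSCS`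
(`a = 1`) the number of the units of `ZMod f` with `M2`, resp. `M1`, and given `κ` is `φ(f) / (2 · 3^(m+1))`.
Upper bound: `DIR` for every such unit (`BDENS.sm_cover`). Lower bound:
for every unit `u` modulo `f` the primes `= u (mod f)` have `sm ≥ (1 / φ(f)) log - K`: all primes
(`PTL/DL.lean: total`) minus the other units, as `DL.cls_lower` (there `f = 9`). -/
def Stmt_CLT : Prop := ∀ (m : ℕ) (π : Fin m → PP) (p : Fin m → ℕ), (∀ i, (p i).Prime) →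
  (∀ i, p i % 3 = 1) → (∀ i, (p i : Eis) = (π i).1 * conj (π i).1) → Function.Injective p →
  ∀ (w0 : ZMod 3) (c : Fin m → ZMod 3) (a : ℕ), (a = 1 ∨ a = 2) →
  ∃ K : ℝ, ∀ σ : ℝ, 1 < σ → σ ≤ 2 →
    1 / 3 ^ (m + 1) * Real.log (1 / (σ - 1)) - K ≤
      BDENS.sm {q : ℕ | q % 3 = a ∧ InCT 1 π w0 c q} σ +
      BDENS.sm {q : ℕ | q % 3 = a ∧ InCT 2 π w0 c q} σ ∧
    BDENS.sm {q : ℕ | q % 3 = a ∧ InCT 1 π w0 c q} σ +
      BDENS.sm {q : ℕ | q % 3 = a ∧ InCT 2 π w0 c q} σ ≤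
      1 / 3 ^ (m + 1) * Real.log (1 / (σ - 1)) + K

/-- PTN_SMT: sets of primes covered twice.
Proof. `BDENS.sm_eq`, `BDENS.ind_summable`: compare the series term by term; the terms with
`n ≤ M` contribute at most a constant (`ind ≤ 1`). (1): for a prime `n > M` in `S`,
`2 ind S ≤ ∑ i ind (T i)` (two different indices contribute `ind S`). (2): for a prime `n > M` at most two indices
`i` contribute, and if one contributes then `n ∈ S`. (3): for `n > M` in `S`, `ind S ≤ ind T₁ + ind T₂`. -/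
def Stmt_SMT : Prop := ∀ (ι : Type) [Fintype ι] (S T₁ T₂ : Set ℕ) (T : ι → Set ℕ) (M : ℕ),
  ((∀ n, n.Prime → M < n → n ∈ S → ∃ i j, i ≠ j ∧ n ∈ T i ∧ n ∈ T j) →
    ∃ K : ℝ, ∀ σ : ℝ, 1 < σ → σ ≤ 2 → 2 * BDENS.sm S σ ≤ ∑ i, BDENS.sm (T i) σ + K) ∧
  ((∀ n, n.Prime → M < n → ∀ i, n ∈ T i → n ∈ S) →
    (∀ n, n.Prime → M < n → ∃ i₁ i₂, ∀ i, n ∈ T i → i = i₁ ∨ i = i₂) →
    ∃ K : ℝ, ∀ σ : ℝ, 1 < σ → σ ≤ 2 → ∑ i, BDENS.sm (T i) σ ≤ 2 * BDENS.sm S σ + K) ∧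
  ((∀ n, n.Prime → M < n → n ∈ S → n ∈ T₁ ∨ n ∈ T₂) →
    ∃ K : ℝ, ∀ σ : ℝ, 1 < σ → σ ≤ 2 →
      BDENS.sm S σ ≤ BDENS.sm T₁ σ + BDENS.sm T₂ σ + K)

end Pool.Agent.PTN

end
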