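import Mathlib
import Pool.Agent.PTWX.C28

/-! Parts: PT.BSYS, PTL.BS, PT.FDX -/

namespace Pool.Agent.PT.BSYS
end Pool.Agent.PT.BSYS

namespace Pool.Agent.PT.FDX
end Pool.Agent.PT.FDX

section

/-!
# Prime twists: systems for products of primes `= 2 (mod 3)`
-/

set_option autoImplicit false

namespace Pool.Agent.PT

open Pool.Agent.Lib_helper18 Pool.Agent.Lib_helper18.Eis Pool.Agent.Lib_helper84.Cub

namespace BSYS

/-- A basis of `W` with at most one vector outside the kernel of `lam`. -/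
theorem basis_exists {k : ℕ} (W : Submodule (ZMod 3) (Fin k → ZMod 3))
    (φ : (Fin k → ZMod 3) →ₗ[ZMod 3] ZMod 3) :
    ∃ (s : ℕ) (v : Fin s → Fin k → ZMod 3), (∀ i, v i ∈ W) ∧
      (∀ g : Fin s → ZMod 3, ∑ i, g i • v i = 0 → g = 0) ∧
      (∀ x ∈ W, ∃ g : Fin s → ZMod 3, x = ∑ i, g i • v i) ∧
      ∀ i j, i ≠ j → φ (v i) = 0 ∨ φ (v j) = 0 := by
  have gen : ∀ (s : ℕ) (B : Module.Basis (Fin s) (ZMod 3) W),
      (∀ i j, i ≠ j → φ (B i) = 0 ∨ φ (B j) = 0) →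
      ∃ (s : ℕ) (v : Fin s → Fin k → ZMod 3), (∀ i, v i ∈ W) ∧
      (∀ g : Fin s → ZMod 3, ∑ i, g i • v i = 0 → g = 0) ∧
      (∀ x ∈ W, ∃ g : Fin s → ZMod 3, x = ∑ i, g i • v i) ∧
      ∀ i j, i ≠ j → φ (v i) = 0 ∨ φ (v j) = 0 := by
    intro s B hB
    refine ⟨s, fun i => B i, fun i => (B i).2, ?_, ?_, hB⟩
    · intro g hg
      have h1 : ∑ i, g i • B i = 0 := by
        apply Subtype.ext
        rw [Submodule.coe_sum]
        simpa using hg
      funext i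
      exact Fintype.linearIndependent_iff.mp B.linearIndependent g h1 i
    · intro x hx
      refine ⟨fun i => B.repr ⟨x, hx⟩ i, ?_⟩
      have h1 := congrArg (Subtype.val : W → Fin k → ZMod 3) (B.sum_repr ⟨x, hx⟩)
      rw [Submodule.coe_sum] at h1
      simpa using h1.symm
  let N : Submodule (ZMod 3) (Fin k → ZMod 3) := W ⊓ LinearMap.ker φ
  let b := Module.finBasis (ZMod 3) N
  have hb : ∀ i, φ (b i) = 0 := fun i => LinearMap.mem_ker.mp (b i).2.2
  by_cases h : ∃ y ∈ W, φ y ≠ 0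
  · obtain ⟨y, hy, hyφ⟩ := h
    have hNW : N ≤ W := inf_le_left
    have hli : ∀ (c : ZMod 3), ∀ x ∈ N, c • y + x = 0 → c = 0 := by
      intro c x hx h1
      have h2 := congrArg φ h1
      rw [map_add, map_smul, map_zero, LinearMap.mem_ker.mp hx.2, add_zero, smul_eq_mul] at h2
      exact (mul_eq_zero.mp h2).resolve_right hyφ
    have hsp : ∀ z ∈ W, ∃ c : ZMod 3, z + c • y ∈ N := by
      intro z hz
      refine ⟨-(φ z / φ y), Submodule.mem_inf.mpr ⟨W.add_mem hz (W.smul_mem _ hy), ?_⟩⟩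
      rw [LinearMap.mem_ker, map_add, map_smul, smul_eq_mul, neg_mul, div_mul_cancel₀ _ hyφ,
        add_neg_cancel]
    refine gen _ (Module.Basis.mkFinConsOfLE y hy b hNW hli hsp) ?_
    intro i j hij
    rw [Module.Basis.coe_mkFinConsOfLE]
    rcases Fin.eq_zero_or_eq_succ i with rfl | ⟨i', rfl⟩
    · rcases Fin.eq_zero_or_eq_succ j with rfl | ⟨j', rfl⟩
      · exact absurd rfl hij
      · right
        rw [Fin.cons_succ]
        exact hb j'
    · left
      rw [Fin.cons_succ]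
      exact hb i'
  · push Not at h
    have hWN : W = N := le_antisymm (fun x hx => ⟨hx, LinearMap.mem_ker.mpr (h x hx)⟩) inf_le_left
    refine gen _ (b.map (LinearEquiv.ofEq N W hWN.symm)) ?_
    intro i j _
    left
    exact hb i

section

variable {k : ℕ} {r : Fin k → ℕ}

/-- The product of the powers of the `r j`. -/
def R (r : Fin k → ℕ) (A : Fin k → ℕ) : ℕ := ∏ j, r j ^ A j

theorem R_ne (hr : ∀ j, (r j).Prime) (A : Fin k → ℕ) : R r A ≠ 0 :=
  Finset.prod_ne_zero_iff.mpr fun j _ => pow_ne_zero _ (hr j).ne_zero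

theorem R_supp (hr : ∀ j, (r j).Prime) {A : Fin k → ℕ} {l : ℕ} (hl : l.Prime)
    (h : l ∣ R r A) : ∃ j, l = r j := by
  obtain ⟨j, -, hj⟩ := (Prime.dvd_finsetProd_iff hl.prime _).mp h
  exact ⟨j, (Nat.prime_dvd_prime_iff_eq hl (hr j)).mp (hl.dvd_of_dvd_pow hj)⟩

theorem R_val (hr : ∀ j, (r j).Prime) (hinj : Function.Injective r) (A : Fin k → ℕ) (j : Fin k) :
    padicValInt (r j) (R r A : ℤ) = A j := by
  classical
  have hf : Fact (r j).Prime := ⟨hr j⟩
  rw [padicValInt.of_nat, R, ← Finset.mul_prod_erase _ _ (Finset.mem_univ j), padicValNat.mul,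
    padicValNat.prime_pow, padicValNat.eq_zero_of_not_dvd, add_zero]
  · intro h
    obtain ⟨j', hj', h1⟩ := (Prime.dvd_finsetProd_iff (hr j).prime _).mp h
    have h2 := (Nat.prime_dvd_prime_iff_eq (hr j) (hr j')).mp ((hr j).dvd_of_dvd_pow h1)
    exact (Finset.mem_erase.mp hj').1 (hinj h2).symm
  · exact pow_ne_zero _ (hr j).ne_zero
  · exact Finset.prod_ne_zero_iff.mpr fun j' _ => pow_ne_zero _ (hr j').ne_zero

theorem V_prod {l : Eis} (hl : Prime l) {ι : Type} (s : Finset ι) (f : ι → Eis)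
    (hf : ∀ i, f i ≠ 0) : V l (∏ i ∈ s, f i) = ∑ i ∈ s, V l (f i) := by
  classical
  induction s using Finset.induction_on with
  | empty =>
    rw [Finset.prod_empty, Finset.sum_empty]
    exact V_eq_zero fun h => hl.not_isUnit (isUnit_of_dvd_one h)
  | insert a s ha ih =>
    rw [Finset.prod_insert ha, Finset.sum_insert ha, V_mul hl (hf a)
      (Finset.prod_ne_zero_iff.mpr fun i _ => hf i), ih]

theorem nat_ne {n : ℕ} (h : n ≠ 0) : (n : Eis) ≠ 0 := by
  intro h'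
  have := congrArg Eis.re h'
  simp at this
  exact h this

/-- The valuations of the products are bounded. -/
theorem R_V (hSPP : SPP) (hr : ∀ j, (r j).Prime) (hr2 : ∀ j, r j % 3 = 2)
    (hinj : Function.Injective r) {A : Fin k → ℕ} (hA : ∀ j, A j ≤ 2) (π : PP) :
    V π.1 ((R r A : ℤ) : Eis) ≤ 2 := by
  classical
  have hπ : Prime π.1 := π.2.1
  have hd : ∀ j, π.1 ∣ (r j : Eis) → π.1 = (r j : Eis) := by
    intro j h
    obtain ⟨π', hπ'⟩ := hSPP.2.2.2.2.1 (r j) (hr j) (hr2 j)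
    rw [← hπ'] at h ⊢
    rw [hSPP.2.1 π π' (hπ.associated_of_dvd π'.2.1 h)]
  have h1 : ((R r A : ℤ) : Eis) = ∏ j, (r j : Eis) ^ A j := by
    rw [R]
    push_cast
    rfl
  have h2 : ∀ j, (r j : Eis) ≠ 0 := fun j => nat_ne (hr j).ne_zero
  rw [h1, V_prod hπ _ _ fun j => pow_ne_zero _ (h2 j)]
  by_cases h : ∃ j, π.1 = (r j : Eis)
  · obtain ⟨j, hj⟩ := h
    rw [Finset.sum_eq_single j]
    · rw [V_pow hπ (h2 j), ← hj, V_self, mul_one]
      exact hA j
    · intro j' _ hne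
      apply V_eq_zero
      intro h3
      have h4 := hd j' (hπ.dvd_of_dvd_pow h3)
      rw [hj] at h4
      have h5 := congrArg Eis.re h4
      simp at h5
      exact hne (hinj h5).symm
    · intro h3
      exact absurd (Finset.mem_univ _) h3
  · rw [Finset.sum_eq_zero]
    · norm_num
    · intro j _
      apply V_eq_zero
      intro h3
      exact h ⟨j, hd j (hπ.dvd_of_dvd_pow h3)⟩

end

end BSYS

open _root_.Pool.Agent.PT.BSYS in
theorem BSYS_thm (hEVEC : EVEC) (hESYS : ESYS) (hSPP : SPP) : BSYS := by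
  classical
  intro n k π p e r f w0 c hNF
  obtain ⟨hE1, hE2⟩ := hEVEC n 0 k π p e r f w0 c hNF
  have hr := hNF.rp
  have hinj := hNF.rinj
  have hn : n = ∏ j, r j ^ f j := by
    rw [hNF.eq, Finset.univ_eq_empty (α := Fin 0), Finset.prod_empty, one_mul]
  have hrn : ∀ j, r j ∣ n := by
    intro j
    rw [hn]
    refine (dvd_pow_self (r j) ?_).trans (Finset.dvd_prod_of_mem _ (Finset.mem_univ j))
    rcases hNF.rf j with h | h <;> omega
  -- the functional
  let φ : (Fin k → ZMod 3) →ₗ[ZMod 3] ZMod 3 :=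
    ∑ j, wt ((r j : ℤ) ^ 2) • LinearMap.proj j
  have hφ : ∀ z, φ z = ∑ j, z j * wt ((r j : ℤ) ^ 2) := by
    intro z
    change (∑ j, wt ((r j : ℤ) ^ 2) • LinearMap.proj j : (Fin k → ZMod 3) →ₗ[ZMod 3] ZMod 3) z = _
    rw [LinearMap.sum_apply]
    refine Finset.sum_congr rfl fun j _ => ?_
    rw [LinearMap.smul_apply, LinearMap.proj_apply, smul_eq_mul, mul_comm]
  let W : Submodule (ZMod 3) (Fin k → ZMod 3) :=
    if wt ((n : ℤ) ^ 2) + w0 = 0 then LinearMap.ker φ else ⊤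
  have hW : ∀ z, z ∈ W ↔ (wt ((n : ℤ) ^ 2) + w0 = 0 → φ z = 0) := by
    intro z
    change z ∈ (if wt ((n : ℤ) ^ 2) + w0 = 0 then LinearMap.ker φ else ⊤) ↔ _
    split_ifs with h
    · rw [LinearMap.mem_ker]
      exact ⟨fun h1 _ => h1, fun h1 => h1 h⟩
    · exact ⟨fun _ h1 => absurd h1 h, fun _ => Submodule.mem_top⟩
  obtain ⟨s, v, hv1, hv2, hv3, hv4⟩ := basis_exists W φ
  -- elementary facts on the products
  have hR0 : ∀ A, (R r A : ℤ) ≠ 0 := fun A => by exact_mod_cast R_ne hr A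
  have hRs : ∀ A, ∀ l : ℕ, l.Prime → (l : ℤ) ∣ (R r A : ℤ) → l ∣ n := by
    intro A l hl h
    obtain ⟨j, rfl⟩ := R_supp hr hl (Int.natCast_dvd_natCast.mp h)
    exact hrn j
  have hR3 : ∀ A, ¬ (3 : ℤ) ∣ (R r A : ℤ) := by
    intro A h
    have h1 : ((3 : ℕ) : ℤ) ∣ (R r A : ℤ) := by exact_mod_cast h
    obtain ⟨j, hj⟩ := R_supp hr Nat.prime_three (Int.natCast_dvd_natCast.mp h1)
    have h2 := hNF.r2 j
    omega
  have hRv : ∀ A j, (padicValInt (r j) (R r A : ℤ) : ZMod 3) = A j := fun A j => by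
    rw [R_val hr hinj]
  have hRφ : ∀ A : Fin k → ℕ, (∑ i : Fin 0, (padicValInt (p i) (R r A : ℤ) : ZMod 3) *
      wt ((p i : ℤ) ^ 2)) + ∑ j, (padicValInt (r j) (R r A : ℤ) : ZMod 3) *
      wt ((r j : ℤ) ^ 2) = φ fun j => (A j : ZMod 3) := by
    intro A
    rw [Finset.univ_eq_empty (α := Fin 0), Finset.sum_empty, zero_add, hφ]
    exact Finset.sum_congr rfl fun j _ => by rw [hRv]
  have hRC : ∀ A : Fin k → ℕ, AdmC n π w0 c (R r A : ℤ) ↔ (fun j => (A j : ZMod 3)) ∈ W := by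
    intro A
    rw [(hE1 _ (hR0 A) (hR3 A) (hRs A)).1, hRφ, hW]
    exact ⟨fun h => h.2, fun h => ⟨fun i => i.elim0, h⟩⟩
  have hR9 : ∀ A : Fin k → ℕ, C9 (R r A : ℤ) ↔ φ (fun j => (A j : ZMod 3)) = 0 := by
    intro A
    rw [(hE1 _ (hR0 A) (hR3 A) (hRs A)).2, hRφ]
  -- the basis
  let a : Fin s → Fin k → ℕ := fun i j => (v i j).val
  have ha : ∀ i, (fun j => (a i j : ZMod 3)) = v i := by
    intro i
    funext j
    exact ZMod.natCast_zmod_val (v i j)
  let b : Fin s → ℤ := fun i => (R r (a i) : ℤ)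
  have hprod : ∀ g : Fin s → ℕ, ∏ i, b i ^ g i = (R r (fun j => ∑ i, g i * a i j) : ℤ) := by
    intro g
    change ∏ i, ((R r (a i) : ℕ) : ℤ) ^ g i = _
    unfold R
    push_cast
    simp only [← Finset.prod_pow]
    rw [Finset.prod_comm]
    refine Finset.prod_congr rfl fun j _ => ?_
    rw [← Finset.prod_pow_eq_pow_sum]
    refine Finset.prod_congr rfl fun i _ => ?_
    rw [← pow_mul, mul_comm]
  have hAdm : ∀ i, AdmC n π w0 c (b i) := by
    intro i
    rw [hRC, ha]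
    exact hv1 i
  have hind : ∀ g : Fin s → ℕ, (∃ i, ¬ 3 ∣ g i) → ¬ ∃ t : ℤ, t ^ 3 = ∏ i, b i ^ g i := by
    rintro g ⟨i, hi⟩ ⟨t, ht⟩
    rw [hprod] at ht
    have ht0 : t ≠ 0 := by
      rintro rfl
      exact hR0 _ (by rw [← ht]; norm_num)
    have h1 := (hE2 (R r fun j => ∑ i, g i * a i j) 1 (hR0 _) one_ne_zero (hRs _) (by
      intro l hl h
      exact absurd (Int.natCast_dvd_natCast.mp (by exact_mod_cast h) : l ∣ 1)
        hl.not_dvd_one)).mp ⟨1, t, one_ne_zero, ht0, by rw [← ht]; ring⟩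
    have h2 : (fun i => (g i : ZMod 3)) = 0 := by
      apply hv2
      funext j
      have h3 := h1.2 j
      rw [hRv, padicValInt.one] at h3
      push_cast at h3
      rw [Finset.sum_apply, Pi.zero_apply, ← h3]
      refine Finset.sum_congr rfl fun i _ => ?_
      rw [Pi.smul_apply, smul_eq_mul, ← congrFun (ha i) j]
    have h3 := congrFun h2 i
    exact hi ((ZMod.natCast_eq_zero_iff (g i) 3).mp h3)
  have h9 : ∀ i j, i ≠ j → C9 (b i) ∨ C9 (b j) := by
    intro i j hij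
    rw [hR9, hR9, ha, ha]
    exact hv4 i j hij
  have hV : ∀ i (π : PP), V π.1 (b i : Eis) ≤ 2 := by
    intro i π
    refine R_V hSPP hr hNF.r2 hinj (fun j => ?_) π
    have := ZMod.val_lt (v i j)
    change (v i j).val ≤ 2
    omega
  obtain ⟨P, Q, P', Q', hSys⟩ := hESYS n 0 k π p e r f w0 c s b hNF hAdm hV hind h9
  refine ⟨s, b, P, Q, P', Q', hAdm, hSys, ?_⟩
  intro x hx
  have h1 := (hE1 x hx.ne hx.three hx.supp).1.mp hx
  have h2 : (fun j => (padicValInt (r j) x : ZMod 3)) ∈ W := by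
    rw [hW, hφ]
    intro h
    have h3 := h1.2 h
    rwa [Finset.univ_eq_empty (α := Fin 0), Finset.sum_empty, zero_add] at h3
  obtain ⟨g, hg⟩ := hv3 _ h2
  obtain ⟨u, w, hu, hw, huw⟩ := (hE2 x (R r fun j => ∑ i, (g i).val * a i j) hx.ne (hR0 _)
    hx.supp (hRs _)).mpr ⟨fun i => i.elim0, fun j => by
      rw [hRv]
      have h3 := congrFun hg j
      change (padicValInt (r j) x : ZMod 3) = _ at h3
      rw [h3, Finset.sum_apply]
      push_cast
      refine Finset.sum_congr rfl fun i _ => ?_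
      rw [Pi.smul_apply, smul_eq_mul, ← congrFun (ha i) j, ZMod.natCast_zmod_val (g i)]⟩
  refine ⟨fun i => (g i).val, u, w, hu, hw, ?_⟩
  rw [hprod]
  exact huw

end Pool.Agent.PT

end

section

/-!
# Prime power twists: systems for products of primes `= 2 (mod 3)`, with their size
-/

set_option autoImplicit false

namespace Pool.Agent.PTL

open Pool.Agent.PT Pool.Agent.Lib_helper18 Pool.Agent.Lib_helper18.Eis Pool.Agent.Lib_helper84.Cub

open Classical in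
/-- BSE: systems for products of primes `= 2 (mod 3)`, all classes modulo `9`. -/
def BSE : Prop := ∀ (n k : ℕ) (π : Fin 0 → PP) (p e : Fin 0 → ℕ) (r f : Fin k → ℕ)
  (w0 : ZMod 3) (c : Fin 0 → ZMod 3), NF n π p e r f →
  ∃ (s : ℕ) (b : Fin s → ℤ) (P Q P' Q' : Fin s → Fin s → ℤ),
    (s = if wt ((n : ℤ) ^ 2) + w0 = 0 ∧ ∃ j, wt ((r j : ℤ) ^ 2) ≠ 0 then k - 1 else k) ∧
    (∀ i, AdmC n π w0 c (b i)) ∧ Sys b P Q P' Q' ∧
    (∀ x : ℤ, AdmC n π w0 c x → ∃ (g : Fin s → ℕ) (u v : ℤ), u ≠ 0 ∧ v ≠ 0 ∧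
      x * u ^ 3 = (∏ i, b i ^ g i) * v ^ 3)

namespace BS

instance : Fact (Nat.Prime 3) := ⟨Nat.prime_three⟩

theorem size {k s : ℕ} (W : Submodule (ZMod 3) (Fin k → ZMod 3)) (v : Fin s → Fin k → ZMod 3)
    (h1 : ∀ i, v i ∈ W) (h2 : ∀ g : Fin s → ZMod 3, ∑ i, g i • v i = 0 → g = 0)
    (h3 : ∀ x ∈ W, ∃ g : Fin s → ZMod 3, x = ∑ i, g i • v i) :
    s = Module.finrank (ZMod 3) W := by
  have hli : LinearIndependent (ZMod 3) v := by
    rw [Fintype.linearIndependent_iff]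
    intro g hg i
    rw [h2 g hg]
    rfl
  have hspan : Submodule.span (ZMod 3) (Set.range v) = W := by
    apply le_antisymm
    · rw [Submodule.span_le]
      rintro _ ⟨i, rfl⟩
      exact h1 i
    · intro x hx
      obtain ⟨g, rfl⟩ := h3 x hx
      exact Submodule.sum_mem _ fun i _ => Submodule.smul_mem _ _
        (Submodule.subset_span ⟨i, rfl⟩)
  have h4 := finrank_span_eq_card hli
  rw [hspan, Fintype.card_fin] at h4
  exact h4.symm

theorem fin_ker {k : ℕ} (φ : (Fin k → ZMod 3) →ₗ[ZMod 3] ZMod 3) (h : φ ≠ 0) :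
    Module.finrank (ZMod 3) (LinearMap.ker φ) = k - 1 := by
  have h1 := LinearMap.finrank_range_add_finrank_ker φ
  rw [LinearMap.range_eq_top.2 (LinearMap.surjective h), finrank_top,
    Module.finrank_self, Module.finrank_fintype_fun_eq_card, Fintype.card_fin] at h1
  omega

end BS

open BSYS in
/-- BSE -/
theorem BSE_thm (hEVEC : EVEC) (hESYS : ESYS) (hSPP : SPP) : BSE := by
  classical
  intro n k π p e r f w0 c hNF
  obtain ⟨hE1, hE2⟩ := hEVEC n 0 k π p e r f w0 c hNF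
  have hr := hNF.rp
  have hinj := hNF.rinj
  have hn : n = ∏ j, r j ^ f j := by
    rw [hNF.eq, Finset.univ_eq_empty (α := Fin 0), Finset.prod_empty, one_mul]
  have hrn : ∀ j, r j ∣ n := by
    intro j
    rw [hn]
    refine (dvd_pow_self (r j) ?_).trans (Finset.dvd_prod_of_mem _ (Finset.mem_univ j))
    rcases hNF.rf j with h | h <;> omega
  -- the functional
  let φ : (Fin k → ZMod 3) →ₗ[ZMod 3] ZMod 3 :=
    ∑ j, wt ((r j : ℤ) ^ 2) • LinearMap.proj j
  have hφ : ∀ z, φ z = ∑ j, z j * wt ((r j : ℤ) ^ 2) := by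
    intro z
    change (∑ j, wt ((r j : ℤ) ^ 2) • LinearMap.proj j : (Fin k → ZMod 3) →ₗ[ZMod 3] ZMod 3) z = _
    rw [LinearMap.sum_apply]
    refine Finset.sum_congr rfl fun j _ => ?_
    rw [LinearMap.smul_apply, LinearMap.proj_apply, smul_eq_mul, mul_comm]
  let W : Submodule (ZMod 3) (Fin k → ZMod 3) :=
    if wt ((n : ℤ) ^ 2) + w0 = 0 then LinearMap.ker φ else ⊤
  have hW : ∀ z, z ∈ W ↔ (wt ((n : ℤ) ^ 2) + w0 = 0 → φ z = 0) := by
    intro z
    change z ∈ (if wt ((n : ℤ) ^ 2) + w0 = 0 then LinearMap.ker φ else ⊤) ↔ _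
    split_ifs with h
    · rw [LinearMap.mem_ker]
      exact ⟨fun h1 _ => h1, fun h1 => h1 h⟩
    · exact ⟨fun _ h1 => absurd h1 h, fun _ => Submodule.mem_top⟩
  obtain ⟨s, v, hv1, hv2, hv3, hv4⟩ := basis_exists W φ
  have hsz := BS.size W v hv1 hv2 hv3
  have hφ0 : φ ≠ 0 ↔ ∃ j, wt ((r j : ℤ) ^ 2) ≠ 0 := by
    constructor
    · intro h
      by_contra h1
      push Not at h1
      apply h
      refine LinearMap.ext fun z => ?_
      rw [hφ, LinearMap.zero_apply]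
      exact Finset.sum_eq_zero fun j _ => by rw [h1 j, mul_zero]
    · rintro ⟨j, hj⟩ h
      apply hj
      have h1 := congrArg (fun ψ : (Fin k → ZMod 3) →ₗ[ZMod 3] ZMod 3 => ψ (Pi.single j 1)) h
      simp only [LinearMap.zero_apply] at h1
      rw [hφ, Finset.sum_eq_single j (fun i _ hij => by rw [Pi.single_eq_of_ne hij, zero_mul])
        (fun h => absurd (Finset.mem_univ j) h), Pi.single_eq_same, one_mul] at h1
      exact h1
  have hsz' : s = if wt ((n : ℤ) ^ 2) + w0 = 0 ∧ ∃ j, wt ((r j : ℤ) ^ 2) ≠ 0 then k - 1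
      else k := by
    rw [hsz]
    change Module.finrank (ZMod 3) (if wt ((n : ℤ) ^ 2) + w0 = 0 then LinearMap.ker φ else ⊤ :
      Submodule (ZMod 3) (Fin k → ZMod 3)) = _
    by_cases ha : wt ((n : ℤ) ^ 2) + w0 = 0
    · rw [if_pos ha]
      by_cases hb : ∃ j, wt ((r j : ℤ) ^ 2) ≠ 0
      · rw [if_pos ⟨ha, hb⟩]
        exact BS.fin_ker φ (hφ0.2 hb)
      · rw [if_neg fun h => hb h.2]
        have h0 : φ = 0 := by
          by_contra h
          exact hb (hφ0.1 h)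
        rw [h0, LinearMap.ker_zero, finrank_top, Module.finrank_fintype_fun_eq_card,
          Fintype.card_fin]
    · rw [if_neg ha, if_neg fun h => ha h.1, finrank_top, Module.finrank_fintype_fun_eq_card,
        Fintype.card_fin]
  -- elementary facts on the products
  have hR0 : ∀ A, (R r A : ℤ) ≠ 0 := fun A => by exact_mod_cast R_ne hr A
  have hRs : ∀ A, ∀ l : ℕ, l.Prime → (l : ℤ) ∣ (R r A : ℤ) → l ∣ n := by
    intro A l hl h
    obtain ⟨j, rfl⟩ := R_supp hr hl (Int.natCast_dvd_natCast.mp h)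
    exact hrn j
  have hR3 : ∀ A, ¬ (3 : ℤ) ∣ (R r A : ℤ) := by
    intro A h
    have h1 : ((3 : ℕ) : ℤ) ∣ (R r A : ℤ) := by exact_mod_cast h
    obtain ⟨j, hj⟩ := R_supp hr Nat.prime_three (Int.natCast_dvd_natCast.mp h1)
    have h2 := hNF.r2 j
    omega
  have hRv : ∀ A j, (padicValInt (r j) (R r A : ℤ) : ZMod 3) = A j := fun A j => by
    rw [R_val hr hinj]
  have hRφ : ∀ A : Fin k → ℕ, (∑ i : Fin 0, (padicValInt (p i) (R r A : ℤ) : ZMod 3) *
      wt ((p i : ℤ) ^ 2)) + ∑ j, (padicValInt (r j) (R r A : ℤ) : ZMod 3) *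
      wt ((r j : ℤ) ^ 2) = φ fun j => (A j : ZMod 3) := by
    intro A
    rw [Finset.univ_eq_empty (α := Fin 0), Finset.sum_empty, zero_add, hφ]
    exact Finset.sum_congr rfl fun j _ => by rw [hRv]
  have hRC : ∀ A : Fin k → ℕ, AdmC n π w0 c (R r A : ℤ) ↔ (fun j => (A j : ZMod 3)) ∈ W := by
    intro A
    rw [(hE1 _ (hR0 A) (hR3 A) (hRs A)).1, hRφ, hW]
    exact ⟨fun h => h.2, fun h => ⟨fun i => i.elim0, h⟩⟩
  have hR9 : ∀ A : Fin k → ℕ, C9 (R r A : ℤ) ↔ φ (fun j => (A j : ZMod 3)) = 0 := by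
    intro A
    rw [(hE1 _ (hR0 A) (hR3 A) (hRs A)).2, hRφ]
  -- the basis
  let a : Fin s → Fin k → ℕ := fun i j => (v i j).val
  have ha : ∀ i, (fun j => (a i j : ZMod 3)) = v i := by
    intro i
    funext j
    exact ZMod.natCast_zmod_val (v i j)
  let b : Fin s → ℤ := fun i => (R r (a i) : ℤ)
  have hprod : ∀ g : Fin s → ℕ, ∏ i, b i ^ g i = (R r (fun j => ∑ i, g i * a i j) : ℤ) := by
    intro g
    change ∏ i, ((R r (a i) : ℕ) : ℤ) ^ g i = _
    unfold R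
    push_cast
    simp only [← Finset.prod_pow]
    rw [Finset.prod_comm]
    refine Finset.prod_congr rfl fun j _ => ?_
    rw [← Finset.prod_pow_eq_pow_sum]
    refine Finset.prod_congr rfl fun i _ => ?_
    rw [← pow_mul, mul_comm]
  have hAdm : ∀ i, AdmC n π w0 c (b i) := by
    intro i
    rw [hRC, ha]
    exact hv1 i
  have hind : ∀ g : Fin s → ℕ, (∃ i, ¬ 3 ∣ g i) → ¬ ∃ t : ℤ, t ^ 3 = ∏ i, b i ^ g i := by
    rintro g ⟨i, hi⟩ ⟨t, ht⟩
    rw [hprod] at ht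
    have ht0 : t ≠ 0 := by
      rintro rfl
      exact hR0 _ (by rw [← ht]; norm_num)
    have h1 := (hE2 (R r fun j => ∑ i, g i * a i j) 1 (hR0 _) one_ne_zero (hRs _) (by
      intro l hl h
      exact absurd (Int.natCast_dvd_natCast.mp (by exact_mod_cast h) : l ∣ 1)
        hl.not_dvd_one)).mp ⟨1, t, one_ne_zero, ht0, by rw [← ht]; ring⟩
    have h2 : (fun i => (g i : ZMod 3)) = 0 := by
      apply hv2
      funext j
      have h3 := h1.2 j
      rw [hRv, padicValInt.one] at h3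
      push_cast at h3
      rw [Finset.sum_apply, Pi.zero_apply, ← h3]
      refine Finset.sum_congr rfl fun i _ => ?_
      rw [Pi.smul_apply, smul_eq_mul, ← congrFun (ha i) j]
    have h3 := congrFun h2 i
    exact hi ((ZMod.natCast_eq_zero_iff (g i) 3).mp h3)
  have h9 : ∀ i j, i ≠ j → C9 (b i) ∨ C9 (b j) := by
    intro i j hij
    rw [hR9, hR9, ha, ha]
    exact hv4 i j hij
  have hV : ∀ i (π : PP), V π.1 (b i : Eis) ≤ 2 := by
    intro i π
    refine R_V hSPP hr hNF.r2 hinj (fun j => ?_) π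
    have := ZMod.val_lt (v i j)
    change (v i j).val ≤ 2
    omega
  obtain ⟨P, Q, P', Q', hSys⟩ := hESYS n 0 k π p e r f w0 c s b hNF hAdm hV hind h9
  refine ⟨s, b, P, Q, P', Q', hsz', hAdm, hSys, ?_⟩
  intro x hx
  have h1 := (hE1 x hx.ne hx.three hx.supp).1.mp hx
  have h2 : (fun j => (padicValInt (r j) x : ZMod 3)) ∈ W := by
    rw [hW, hφ]
    intro h
    have h3 := h1.2 h
    rwa [Finset.univ_eq_empty (α := Fin 0), Finset.sum_empty, zero_add] at h3
  obtain ⟨g, hg⟩ := hv3 _ h2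
  obtain ⟨u, w, hu, hw, huw⟩ := (hE2 x (R r fun j => ∑ i, (g i).val * a i j) hx.ne (hR0 _)
    hx.supp (hRs _)).mpr ⟨fun i => i.elim0, fun j => by
      rw [hRv]
      have h3 := congrFun hg j
      change (padicValInt (r j) x : ZMod 3) = _ at h3
      rw [h3, Finset.sum_apply]
      push_cast
      refine Finset.sum_congr rfl fun i _ => ?_
      rw [Pi.smul_apply, smul_eq_mul, ← congrFun (ha i) j, ZMod.natCast_zmod_val (g i)]⟩
  refine ⟨fun i => (g i).val, u, w, hu, hw, ?_⟩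
  rw [hprod]
  exact huw

end Pool.Agent.PTL

end

section

/-!
# FDX: the class of a point given by a cell decomposition
-/

namespace Pool.Agent.PT

open Pool.Agent.Lib_helper18 Pool.Agent.Lib_helper18.Eis Pool.Agent.Lib_helper84.Cub

namespace FDX

theorem castne {n : ℤ} (h : n ≠ 0) : (n : Eis) ≠ 0 := by
  intro h1
  apply h
  have := congrArg Eis.re h1
  simpa using this

theorem C9_iff (m : ℤ) : C9 m ↔ (m : ZMod 9) = 1 ∨ (m : ZMod 9) = -1 := by
  have h1 : (m : ZMod 9) = 1 ↔ ((9 : ℕ) : ℤ) ∣ 1 - m := by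
    rw [← ZMod.intCast_eq_intCast_iff_dvd_sub]
    simp
  have h2 : (m : ZMod 9) = -1 ↔ ((9 : ℕ) : ℤ) ∣ -1 - m := by
    rw [← ZMod.intCast_eq_intCast_iff_dvd_sub]
    simp
  rw [h1, h2, C9]
  omega

theorem cube9 : ∀ y : ZMod 9, y ^ 3 = 0 ∨ y ^ 3 = 1 ∨ y ^ 3 = -1 := by decide

theorem three_dvd {x : ℤ} (h : (x : ZMod 9) ^ 3 = 0) : (3 : ℤ) ∣ x := by
  have h1 : ((x ^ 3 : ℤ) : ZMod 9) = 0 := by
    push_cast
    exact h
  rw [ZMod.intCast_zmod_eq_zero_iff_dvd] at h1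
  have h2 : (3 : ℤ) ∣ x ^ 3 := (Dvd.intro 3 (by norm_num)).trans h1
  exact Int.prime_three.dvd_of_dvd_pow h2

theorem L0 : ∀ a b c : ZMod 9, a + b + c = 0 → ¬ (a * b * c = 1 ∨ a * b * c = -1) := by
  intro a b c h
  have hc : c = -a - b := by linear_combination h
  subst hc
  clear h
  revert a b
  decide

theorem L1 : ∀ a b c : ZMod 9, b + c = 0 → (a * b * c = 1 ∨ a * b * c = -1) →
    (a ^ 2 * b = 1 ∨ a ^ 2 * b = -1) := by
  intro a b c h
  have hc : c = -b := by linear_combination h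
  subst hc
  clear h
  revert a b
  decide

theorem L2 : ∀ a b c : ZMod 9, a + c = 0 → (a * b * c = 1 ∨ a * b * c = -1) →
    (a ^ 2 * b = 1 ∨ a ^ 2 * b = -1) := by
  intro a b c h
  have hc : c = -a := by linear_combination h
  subst hc
  clear h
  revert a b
  decide

theorem L3 : ∀ a b c : ZMod 9, a + b = 0 → (a * b * c = 1 ∨ a * b * c = -1) →
    (a ^ 2 * b = 1 ∨ a ^ 2 * b = -1) := by
  intro a b c h
  have hc : b = -a := by linear_combination h
  subst hc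
  clear h
  revert a c
  decide

theorem pm_iff {u v : ZMod 9} (h : u = v ∨ u = -v) : (u = 1 ∨ u = -1) ↔ (v = 1 ∨ v = -1) := by
  rcases h with rfl | rfl
  · rfl
  · revert v
    decide

/-- the computation modulo `9` -/
theorem mod9 (a b c y1 y2 y3 : ZMod 9) (hs : a * y1 ^ 3 + b * y2 ^ 3 + c * y3 ^ 3 = 0)
    (hp : a * b * c = 1 ∨ a * b * c = -1) (h12 : ¬ (y1 ^ 3 = 0 ∧ y2 ^ 3 = 0))
    (h13 : ¬ (y1 ^ 3 = 0 ∧ y3 ^ 3 = 0)) (h23 : ¬ (y2 ^ 3 = 0 ∧ y3 ^ 3 = 0)) :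
    a ^ 2 * b = 1 ∨ a ^ 2 * b = -1 := by
  have key : ∀ e1 e2 e3 : ZMod 9, (e1 = 1 ∨ e1 = -1) → (e2 = 1 ∨ e2 = -1) →
      (e3 = 1 ∨ e3 = -1) → (((a * e1) * (b * e2) * (c * e3) = 1 ∨
        (a * e1) * (b * e2) * (c * e3) = -1)) ∧
      (((a * e1) ^ 2 * (b * e2) = 1 ∨ (a * e1) ^ 2 * (b * e2) = -1) →
        (a ^ 2 * b = 1 ∨ a ^ 2 * b = -1)) := by
    intro e1 e2 e3 h1 h2 h3
    constructor
    · refine (pm_iff ?_).2 hp
      rcases h1 with rfl | rfl <;> rcases h2 with rfl | rfl <;> rcases h3 with rfl | rfl <;>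
        ring_nf <;> simp
    · refine (pm_iff ?_).1
      rcases h1 with rfl | rfl <;> rcases h2 with rfl | rfl <;>
        ring_nf <;> simp
  rcases cube9 y1 with h1 | h1
  · rcases cube9 y2 with h2 | h2
    · exact absurd ⟨h1, h2⟩ h12
    · rcases cube9 y3 with h3 | h3
      · exact absurd ⟨h1, h3⟩ h13
      · obtain ⟨k1, k2⟩ := key 1 (y2 ^ 3) (y3 ^ 3) (Or.inl rfl) h2 h3
        apply k2
        exact L1 _ _ _ (by linear_combination hs - a * h1) k1
  · rcases cube9 y2 with h2 | h2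
    · rcases cube9 y3 with h3 | h3
      · exact absurd ⟨h2, h3⟩ h23
      · obtain ⟨k1, k2⟩ := key (y1 ^ 3) 1 (y3 ^ 3) h1 (Or.inl rfl) h3
        apply k2
        exact L2 _ _ _ (by linear_combination hs - b * h2) k1
    · rcases cube9 y3 with h3 | h3
      · obtain ⟨k1, k2⟩ := key (y1 ^ 3) (y2 ^ 3) 1 h1 h2 (Or.inl rfl)
        apply k2
        exact L3 _ _ _ (by linear_combination hs - c * h3) k1
      · obtain ⟨k1, k2⟩ := key (y1 ^ 3) (y2 ^ 3) (y3 ^ 3) h1 h2 h3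
        exact absurd k1 (L0 _ _ _ hs)

variable {π : Eis} {s : Eis → Eis → ZMod 3} {e : ℕ}

theorem s_one (h : LSym π s e) {c : Eis} (hc : c ≠ 0) : s 1 c = 0 := by
  have := h.mul 1 1 c one_ne_zero one_ne_zero hc
  rw [mul_one] at this
  simpa using this

theorem s_neg (h : LSym π s e) {a c : Eis} (ha : a ≠ 0) (hc : c ≠ 0) : s (-a) c = s a c := by
  have hm : (-1 : Eis) ≠ 0 := neg_ne_zero.2 one_ne_zero
  have h1 := h.mul (-1) (-1) c hm hm hc
  rw [neg_mul_neg, one_mul, s_one h hc] at h1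
  have h2 : s (-1) c = 0 := by
    generalize s (-1) c = z at h1
    revert z
    decide
  have h3 := h.mul (-1) a c hm ha hc
  rwa [neg_one_mul, h2, zero_add] at h3

theorem s_neg' (h : LSym π s e) {a c : Eis} (ha : a ≠ 0) (hc : c ≠ 0) : s a (-c) = s a c := by
  rw [h.skew (-c) a (neg_ne_zero.2 hc) ha, s_neg h hc ha, ← h.skew c a hc ha]

theorem mul_right (h : LSym π s e) {a b c : Eis} (ha : a ≠ 0) (hb : b ≠ 0) (hc : c ≠ 0) :
    s a (b * c) = s a b + s a c := by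
  rw [h.skew (b * c) a (mul_ne_zero hb hc) ha, h.mul b c a hb hc ha, h.skew b a hb ha,
    h.skew c a hc ha]
  ring

theorem s_cube (h : LSym π s e) {a c : Eis} (ha : a ≠ 0) (hc : c ≠ 0) : s (a ^ 3) c = 0 := by
  have h1 : a ^ 3 = a * (a * a) := by ring
  rw [h1, h.mul a (a * a) c ha (mul_ne_zero ha ha) hc, h.mul a a c ha ha hc]
  generalize s a c = z
  revert z
  decide

theorem s_cube' (h : LSym π s e) {a c : Eis} (ha : a ≠ 0) (hc : c ≠ 0) : s c (a ^ 3) = 0 := by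
  rw [h.skew (a ^ 3) c (pow_ne_zero _ ha) hc, s_cube h ha hc, neg_zero]

theorem s_self (h : LSym π s e) {a : Eis} (ha : a ≠ 0) : s a a = 0 := by
  have h1 := h.skew a a ha ha
  generalize s a a = z at h1
  revert z
  decide

end FDX

open _root_.Pool.Agent.PT.FDX in
theorem FDX_thm (hSTM : STM) (hSPP : SPP) : FDX := by
  intro B a x hB hx hsum hprod hcop
  rw [Fin.sum_univ_three] at hsum
  rw [Fin.prod_univ_three] at hprod
  have hB0 := hB.ne
  have ha0 : a 0 ≠ 0 := by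
    intro h
    rw [h, zero_mul, zero_mul] at hprod
    exact hB0 hprod.symm
  have ha1 : a 1 ≠ 0 := by
    intro h
    rw [h, mul_zero, zero_mul] at hprod
    exact hB0 hprod.symm
  have ha2 : a 2 ≠ 0 := by
    intro h
    rw [h, mul_zero] at hprod
    exact hB0 hprod.symm
  have heq : a 0 ^ 2 * a 1 * ((a 0 * x 0) ^ 3 + a 0 ^ 2 * a 1 * (x 1) ^ 3)
      = B * (- a 0 * x 2) ^ 3 := by
    rw [← hprod]
    linear_combination (a 0 ^ 4 * a 1) * hsum
  have hc0 : - a 0 * x 2 ≠ 0 := mul_ne_zero (neg_ne_zero.2 ha0) (hx 2)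
  have hz0 : a 0 ^ 2 * a 1 ≠ 0 := mul_ne_zero (pow_ne_zero _ ha0) ha1
  have hX0 : a 0 * x 0 ≠ 0 := mul_ne_zero ha0 (hx 0)
  have hn0 : (a 0 * x 0) ^ 3 + a 0 ^ 2 * a 1 * (x 1) ^ 3 ≠ 0 := by
    intro h
    rw [h, mul_zero] at heq
    exact (mul_ne_zero hB0 (pow_ne_zero _ hc0)) heq.symm
  refine ⟨⟨hX0, hx 1, _, hc0, heq⟩, ⟨hz0, ?_, ?_, ?_, ?_⟩⟩
  · intro h3
    apply hB.three
    rw [← hprod]
    rcases Int.prime_three.dvd_or_dvd h3 with h | h
    · exact ((Int.prime_three.dvd_of_dvd_pow h).mul_right _).mul_right _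
    · exact (h.mul_left _).mul_right _
  · intro ρ
    have hs : LSym ρ.1 (tm ρ.1) 1 := hSTM ρ.1 ρ.2.1 (hSPP.2.2.2.1 ρ).1
    set z : Eis := ((a 0 ^ 2 * a 1 : ℤ) : Eis) with hz
    set n0 : Eis := (((a 0 * x 0) ^ 3 + a 0 ^ 2 * a 1 * (x 1) ^ 3 : ℤ) : Eis) with hn
    have z0 : z ≠ 0 := castne hz0
    have n00 : n0 ≠ 0 := castne hn0
    have cX : ((a 0 * x 0 : ℤ) : Eis) ≠ 0 := castne hX0
    have cY : ((x 1 : ℤ) : Eis) ≠ 0 := castne (hx 1)
    have cC : ((- a 0 * x 2 : ℤ) : Eis) ≠ 0 := castne hc0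
    have cB : (B : Eis) ≠ 0 := castne hB0
    have e1 : ((a 0 * x 0 : ℤ) : Eis) ^ 3 + z * (x 1 : Eis) ^ 3 + (-n0) = 0 := by
      rw [hz, hn]
      push_cast
      ring
    have h1 := hs.stein _ _ _ (pow_ne_zero 3 cX) (mul_ne_zero z0 (pow_ne_zero 3 cY))
      (neg_ne_zero.2 n00) e1
    rw [s_cube hs cX (mul_ne_zero z0 (pow_ne_zero 3 cY)), s_neg' hs
      (mul_ne_zero z0 (pow_ne_zero 3 cY)) n00, hs.mul _ _ _ z0 (pow_ne_zero 3 cY) n00,
      s_cube hs cY n00, s_cube' hs cX (neg_ne_zero.2 n00)] at h1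
    have e2 : z * n0 = (B : Eis) * ((- a 0 * x 2 : ℤ) : Eis) ^ 3 := by
      rw [hz, hn, ← Int.cast_mul, heq]
      push_cast
      ring
    have h2 : tm ρ.1 z (z * n0) = tm ρ.1 z ((B : Eis) * ((- a 0 * x 2 : ℤ) : Eis) ^ 3) := by
      rw [e2]
    rw [mul_right hs z0 z0 n00, s_self hs z0, mul_right hs z0 cB (pow_ne_zero 3 cC),
      s_cube' hs cC z0] at h2
    linear_combination h1 - h2
  · intro ρ hρ hd
    apply hρ
    rw [← hprod]
    push_cast at hd ⊢
    rcases ρ.2.1.dvd_or_dvd hd with h | h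
    · exact ((ρ.2.1.dvd_of_dvd_pow h).mul_right _).mul_right _
    · exact (h.mul_left _).mul_right _
  · intro h9
    have hnd : ∀ i j : Fin 3, i ≠ j → ¬ ((x i : ZMod 9) ^ 3 = 0 ∧ (x j : ZMod 9) ^ 3 = 0) := by
      rintro i j hij ⟨h1, h2⟩
      have h3 := (three_dvd h1).mul_left (a i)
      have h4 := (three_dvd h2).mul_left (a j)
      have h5 := (hcop i j hij).isUnit_of_dvd' h3 h4
      exact Int.prime_three.not_isUnit h5
    rw [C9_iff] at h9 ⊢
    rw [← hprod] at h9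
    push_cast at h9 ⊢
    refine mod9 (a 0) (a 1) (a 2) (x 0) (x 1) (x 2) ?_ h9 (hnd 0 1 (by decide))
      (hnd 0 2 (by decide)) (hnd 1 2 (by decide))
    have := congrArg (Int.cast : ℤ → ZMod 9) hsum
    push_cast at this
    exact this

end Pool.Agent.PT

end
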