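import Mathlib
import Pool.Agent.PTWX.C17
import Pool.Agent.PTWX.C29
import Pool.Agent.PTWX.C32
import Pool.Agent.PTWX.C33
import Pool.Agent.PTWX.C34

/-! Parts: PT.CLSC, PTE.GFRS, PTN.SMT, PTN.TRU, PTN.KOM, PTN.KKE, PTN.GFRU, PTN.CAB -/

namespace Pool.Agent.PT.CLSC
end Pool.Agent.PT.CLSC

namespace Pool.Agent.PTN.TRU
end Pool.Agent.PTN.TRU

namespace Pool.Agent.PTN.CAB
end Pool.Agent.PTN.CAB

section

/-!
# PT: CLSC, the classes modulo `f` and their number
-/

namespace Pool.Agent.PT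

open Pool.Agent.Lib_helper18 Pool.Agent.Lib_helper18.Eis Pool.Agent.Lib_helper84.Cub

namespace CLSC

theorem fib_card {G H : Type*} [Group G] [Group H] [Finite G] (φ : G →* H)
    (hφ : Function.Surjective φ) (y : H) :
    Nat.card {a : G // φ a = y} * Nat.card H = Nat.card G := by
  have h1 : Nat.card {a : G // φ a = y} = Nat.card φ.ker :=
    Nat.card_congr (MonoidHom.fiberEquivKerOfSurjective hφ y)
  rw [h1]
  have h2 := Subgroup.card_mul_index φ.ker
  rw [Subgroup.index_ker, MonoidHom.range_eq_top.2 hφ] at h2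
  simpa using h2

theorem wt_congr {m n : ℤ} (h : (9 : ℤ) ∣ m - n) : wt m = wt n := by
  obtain ⟨k, hk⟩ := h
  unfold wt
  have h1 : (m - 1) / 3 = (n - 1) / 3 + 3 * k := by omega
  rw [h1]
  push_cast
  have h3 : (3 : ZMod 3) = 0 := by decide
  rw [h3]; ring

/-- the value of `κ` at an integer -/
noncomputable def kv {m : ℕ} (π : Fin m → PP) (n : ℕ) : Fin (m + 1) → ZMod 3 :=
  Fin.cons (wt ((n : ℤ) ^ 2)) (fun i => sym (π i).1 (n : Eis))

theorem kv_congr {m : ℕ} (π : Fin m → PP) (p : Fin m → ℕ)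
    (hπ : ∀ i, (p i : Eis) = (π i).1 * conj (π i).1) {a b : ℕ} (h9 : (9 : ℤ) ∣ (a : ℤ) - b)
    (hp : ∀ i, (p i : ℤ) ∣ (a : ℤ) - b) : kv π a = kv π b := by
  unfold kv
  have h1 : wt ((a : ℤ) ^ 2) = wt ((b : ℤ) ^ 2) := by
    apply wt_congr
    have e : (a : ℤ) ^ 2 - (b : ℤ) ^ 2 = ((a : ℤ) - b) * (a + b) := by ring
    rw [e]
    exact Dvd.dvd.mul_right h9 _
  have h2 : (fun i => sym (π i).1 (a : Eis)) = fun i => sym (π i).1 (b : Eis) := by
    funext i
    apply sym_congr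
    obtain ⟨k, hk⟩ := hp i
    have e : (a : Eis) - (b : Eis) = (p i : Eis) * (k : Eis) := by
      have : (((a : ℤ) - b : ℤ) : Eis) = (((p i : ℤ) * k : ℤ) : Eis) := by rw [hk]
      push_cast at this
      exact this
    rw [e, hπ i]
    exact ⟨conj (π i).1 * k, by ring⟩
  rw [h1, h2]

theorem norm_of (π : Eis) (p : ℕ) (h : (p : Eis) = π * conj π) : π.norm = p := by
  rw [mul_conj] at h
  have h1 := congrArg Eis.re h
  simpa using h1.symm

theorem kv_mul (hSPP : SPP) {m : ℕ} (π : Fin m → PP) (p : Fin m → ℕ) (hp : ∀ i, (p i).Prime)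
    (hπ : ∀ i, (p i : Eis) = (π i).1 * conj (π i).1) {a b : ℕ} (ha9 : ¬ 3 ∣ a) (hb9 : ¬ 3 ∣ b)
    (ha : ∀ i, ¬ p i ∣ a) (hb : ∀ i, ¬ p i ∣ b) : kv π (a * b) = kv π a + kv π b := by
  funext j
  refine Fin.cases ?_ (fun i => ?_) j
  · show wt (((a * b : ℕ) : ℤ) ^ 2) = wt ((a : ℤ) ^ 2) + wt ((b : ℤ) ^ 2)
    rw [← wt_mul (sq_mod_three (by exact_mod_cast ha9)) (sq_mod_three (by exact_mod_cast hb9))]
    congr 1
    push_cast
    ring
  · show sym (π i).1 ((a * b : ℕ) : Eis) = sym (π i).1 (a : Eis) + sym (π i).1 (b : Eis)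
    have : Fact (p i).Prime := ⟨hp i⟩
    have hn := norm_of _ _ (hπ i)
    rw [Nat.cast_mul]
    refine sym_mul (π i).2.1 (hSPP.2.2.2.1 (π i)).1 ?_ ?_
    · rw [dvd_natCast_iff hn]
      exact ha i
    · rw [dvd_natCast_iff hn]
      exact hb i

/-- the cubic character modulo `p` is surjective -/
theorem sym_surj {π : Eis} (hπ : Prime π) (h3 : ¬ π ∣ 3) {p : ℕ} (hp : p.Prime)
    (hn : π.norm = p) (hp3 : p % 3 = 1) (t : ZMod 3) : ∃ n : ℕ, ¬ p ∣ n ∧ sym π (n : Eis) = t := by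
  have : Fact p.Prime := ⟨hp⟩
  obtain ⟨g, hg⟩ := IsCyclic.exists_generator (α := (ZMod p)ˣ)
  have hord : orderOf g = p - 1 := by
    rw [orderOf_eq_card_of_forall_mem_zpowers hg, Nat.card_eq_fintype_card,
      ZMod.card_units_eq_totient, Nat.totient_prime hp]
  set k := (g : ZMod p).val with hk
  have hkg : ((k : ℕ) : ZMod p) = (g : ZMod p) := ZMod.natCast_zmod_val _
  have hpk : ¬ p ∣ k := by
    rw [← ZMod.natCast_eq_zero_iff, hkg]
    exact g.ne_zero
  have hπk : ¬ π ∣ (k : Eis) := by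
    rw [dvd_natCast_iff hn]
    exact hpk
  have hN : N π = p := by
    have := N_cast π
    rw [hn] at this
    exact_mod_cast this
  have hs : sym π (k : Eis) ≠ 0 := by
    intro h0
    have h1 := sym_spec hπ h3 hπk
    rw [h0, hN] at h1
    have e : (k : Eis) ^ ((p - 1) / 3) - w ^ (0 : ZMod 3).val =
        (((k : ℤ) ^ ((p - 1) / 3) - 1 : ℤ) : Eis) := by
      have : (0 : ZMod 3).val = 0 := rfl
      rw [this]
      push_cast
      ring
    rw [e, dvd_intCast_iff hn] at h1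
    have h2 : ((k : ZMod p)) ^ ((p - 1) / 3) = 1 := by
      have h3' := (ZMod.intCast_zmod_eq_zero_iff_dvd _ p).2 h1
      push_cast at h3'
      rwa [sub_eq_zero] at h3'
    rw [hkg] at h2
    have h4 : g ^ ((p - 1) / 3) = 1 := by
      ext
      push_cast
      exact h2
    have h5 := orderOf_dvd_of_pow_eq_one h4
    rw [hord] at h5
    have h6 : 0 < (p - 1) / 3 := by
      have := hp.two_le
      omega
    have h7 := Nat.le_of_dvd h6 h5
    omega
  have hex : ∃ j : ℕ, (j : ZMod 3) * sym π (k : Eis) = t := by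
    generalize sym π (k : Eis) = s at hs
    revert s t
    intro t s hs
    refine ⟨(t * s).val, ?_⟩
    rw [ZMod.natCast_zmod_val]
    revert s t
    decide
  obtain ⟨j, hj⟩ := hex
  refine ⟨k ^ j, ?_, ?_⟩
  · intro h
    exact hpk (hp.dvd_of_dvd_pow h)
  · rw [Nat.cast_pow, sym_pow hπ h3 hπk, hj]

theorem nine_surj (e : (ZMod 3)ˣ) (t : ZMod 3) :
    ∃ n : ℕ, ¬ 3 ∣ n ∧ ((n : ℕ) : ZMod 3) = e ∧ wt ((n : ℤ) ^ 2) = t := by
  have key : ∀ (e : (ZMod 3)ˣ) (t : ZMod 3), ∃ n ∈ Finset.range 9, ¬ 3 ∣ n ∧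
      ((n : ℕ) : ZMod 3) = e ∧ wt ((n : ℤ) ^ 2) = t := by
    unfold wt
    decide
  obtain ⟨n, -, h⟩ := key e t
  exact ⟨n, h⟩

end CLSC

open _root_.Pool.Agent.PT.CLSC in
theorem CLSC_thm (hSPP : SPP) : CLSC := by
  intro m π p hp hp3 hpπ hinj f hf h9 hpf
  have : NeZero f := ⟨hf.ne'⟩
  have h3f : 3 ∣ f := (by norm_num : 3 ∣ 9).trans h9
  -- elements coprime to `f`
  have hco3 : ∀ Q : ℕ, Q.Coprime f → ¬ 3 ∣ Q := by
    intro Q hQ h
    have := Nat.Coprime.eq_one_of_dvd (hQ.coprime_dvd_left h) h3f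
    omega
  have hcop : ∀ Q : ℕ, Q.Coprime f → ∀ i, ¬ p i ∣ Q := by
    intro Q hQ i h
    exact (hp i).one_lt.ne' (Nat.Coprime.eq_one_of_dvd (hQ.coprime_dvd_left h) (hpf i))
  have hcongr : ∀ a b : ℕ, (f : ℤ) ∣ (a : ℤ) - b → kv π a = kv π b := by
    intro a b h
    refine kv_congr π p hpπ ((Int.natCast_dvd_natCast.2 h9).trans h) fun i => ?_
    exact (Int.natCast_dvd_natCast.2 (hpf i)).trans h
  have hval : ∀ a : (ZMod f)ˣ, (a : ZMod f).val.Coprime f := fun a => ZMod.val_coe_unit_coprime a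
  let κ : (ZMod f)ˣ →* Multiplicative (Fin (m + 1) → ZMod 3) :=
    MonoidHom.mk' (fun a => Multiplicative.ofAdd (kv π (a : ZMod f).val)) (by
      intro a b
      rw [← ofAdd_add]
      congr 1
      rw [← kv_mul hSPP π p hp hpπ (hco3 _ (hval a)) (hco3 _ (hval b)) (hcop _ (hval a))
        (hcop _ (hval b))]
      apply hcongr
      rw [← ZMod.intCast_eq_intCast_iff_dvd_sub]
      push_cast
      simp)
  have hκ : ∀ a : (ZMod f)ˣ, (κ a).toAdd = kv π (a : ZMod f).val := fun a => rfl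
  have hκQ : ∀ (u : (ZMod f)ˣ) (n : ℕ), (9 : ℤ) ∣ ((u : ZMod f).val : ℤ) - n →
      (∀ i, (p i : ℤ) ∣ ((u : ZMod f).val : ℤ) - n) → (κ u).toAdd = kv π n := by
    intro u n h1 h2
    rw [hκ]
    exact kv_congr π p hpπ h1 h2
  refine ⟨κ, ?_, ?_⟩
  · intro Q hQ
    rw [hκ]
    show kv π _ = kv π Q
    apply hcongr
    rw [← ZMod.intCast_eq_intCast_iff_dvd_sub]
    push_cast
    simp [ZMod.coe_unitOfCoprime]
  · intro c
    let Ψ : (ZMod f)ˣ →* (ZMod 3)ˣ × Multiplicative (Fin (m + 1) → ZMod 3) :=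
      (ZMod.unitsMap h3f).prod κ
    have hΨ : Function.Surjective Ψ := by
      rintro ⟨e, d⟩
      obtain ⟨n0, hn0, hn1, hn2⟩ := nine_surj e (d.toAdd 0)
      have hloc : ∀ i : Fin m, ∃ n : ℕ, ¬ p i ∣ n ∧ sym (π i).1 (n : Eis) = d.toAdd i.succ :=
        fun i => sym_surj (π i).2.1 (hSPP.2.2.2.1 (π i)).1 (hp i) (norm_of _ _ (hpπ i)) (hp3 i) _
      choose n hn3 hn4 using hloc
      -- Chinese remainder theorem
      let s : Fin (m + 1) → ℕ := Fin.cons 9 p
      let a : Fin (m + 1) → ℕ := Fin.cons n0 n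
      have hs0 : ∀ i ∈ (Finset.univ : Finset (Fin (m + 1))), s i ≠ 0 := by
        intro i _
        refine Fin.cases ?_ (fun i => ?_) i
        · show (9 : ℕ) ≠ 0
          norm_num
        · exact (hp i).ne_zero
      have h9p : ∀ i, Nat.Coprime 9 (p i) := by
        intro i
        have h1 : Nat.Coprime 3 (p i) := by
          rw [Nat.coprime_primes Nat.prime_three (hp i)]
          intro h
          have := hp3 i
          omega
        exact Nat.Coprime.pow_left 2 h1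
      have hpw : ((Finset.univ : Finset (Fin (m + 1))) : Set (Fin (m + 1))).Pairwise
          (Function.onFun Nat.Coprime s) := by
        intro i _ j _ hij
        revert hij
        refine Fin.cases ?_ (fun i => ?_) i
        · refine Fin.cases ?_ (fun j => ?_) j
          · intro h; exact absurd rfl h
          · intro _; exact h9p j
        · refine Fin.cases ?_ (fun j => ?_) j
          · intro _; exact (h9p i).symm
          · intro h
            have hij : i ≠ j := fun h' => h (by rw [h'])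
            show Nat.Coprime (p i) (p j)
            rw [Nat.coprime_primes (hp i) (hp j)]
            exact fun h' => hij (hinj h')
      obtain ⟨k, hk⟩ := Nat.chineseRemainderOfFinset a s Finset.univ hs0 hpw
      have hk9 : k ≡ n0 [MOD 9] := hk 0 (Finset.mem_univ _)
      have hkp : ∀ i : Fin m, k ≡ n i [MOD p i] := fun i => hk i.succ (Finset.mem_univ _)
      -- the modulus `g = 9 ∏ p i`
      let g : ℕ := 9 * ∏ i, p i
      have hg9 : 9 ∣ g := ⟨_, rfl⟩
      have hgp : ∀ i, p i ∣ g := fun i =>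
        (Finset.dvd_prod_of_mem p (Finset.mem_univ i)).trans ⟨9, by ring⟩
      have hgf : g ∣ f := by
        have h1 : (∏ i, p i) ∣ f := by
          refine Finset.prod_dvd_of_isRelPrime ?_ (fun i _ => hpf i)
          intro i _ j _ hij
          show IsRelPrime (p i) (p j)
          rw [← Nat.coprime_iff_isRelPrime, Nat.coprime_primes (hp i) (hp j)]
          exact fun h' => hij (hinj h')
        refine Nat.Coprime.mul_dvd_of_dvd_of_dvd ?_ h9 h1
        exact Nat.Coprime.prod_right fun i _ => h9p i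
      have hkg : k.Coprime g := by
        refine Nat.Coprime.mul_right ?_ (Nat.Coprime.prod_right fun i _ => ?_)
        · have h1 : Nat.Coprime k 3 := by
            rw [Nat.coprime_comm, Nat.Prime.coprime_iff_not_dvd Nat.prime_three]
            intro h
            apply hn0
            have h2 : k ≡ n0 [MOD 3] := hk9.of_dvd (by norm_num)
            exact (h2.dvd_iff (dvd_refl 3)).1 h
          exact Nat.Coprime.pow_right 2 h1
        · rw [Nat.coprime_comm, Nat.Prime.coprime_iff_not_dvd (hp i)]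
          intro h
          exact hn3 i (((hkp i).dvd_iff (dvd_refl _)).1 h)
      obtain ⟨u, hu⟩ := ZMod.unitsMap_surjective hgf (ZMod.unitOfCoprime k hkg)
      have hug : (g : ℤ) ∣ ((u : ZMod f).val : ℤ) - k := by
        have h1 : ((u : ZMod f).val : ZMod g) = (k : ZMod g) := by
          have h2 := congrArg (fun v : (ZMod g)ˣ => (v : ZMod g)) hu
          simp only [ZMod.unitsMap_def, Units.coe_map, MonoidHom.coe_coe, ZMod.castHom_apply,
            ZMod.coe_unitOfCoprime] at h2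
          rw [← h2, ZMod.natCast_val]
        have h3 : (((u : ZMod f).val : ℤ) : ZMod g) = ((k : ℤ) : ZMod g) := by
          push_cast
          exact h1
        exact (ZMod.intCast_eq_intCast_iff_dvd_sub _ _ _).1 h3.symm
      refine ⟨u, ?_⟩
      have hk9' : (9 : ℤ) ∣ (k : ℤ) - n0 := by
        have := (Nat.modEq_iff_dvd.1 hk9.symm)
        exact_mod_cast this
      have hkp' : ∀ i, (p i : ℤ) ∣ (k : ℤ) - n i := fun i => Nat.modEq_iff_dvd.1 (hkp i).symm
      have hu9 : (9 : ℤ) ∣ ((u : ZMod f).val : ℤ) - k :=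
        (by exact_mod_cast hg9 : (9 : ℤ) ∣ (g : ℤ)).trans hug
      have hup : ∀ i, (p i : ℤ) ∣ ((u : ZMod f).val : ℤ) - k := fun i =>
        (Int.natCast_dvd_natCast.2 (hgp i)).trans hug
      apply Prod.ext
      · show ZMod.unitsMap h3f u = e
        ext
        simp only [ZMod.unitsMap_def, Units.coe_map, MonoidHom.coe_coe, ZMod.castHom_apply]
        rw [← ZMod.natCast_val, ← hn1]
        have h1 : (3 : ℤ) ∣ ((u : ZMod f).val : ℤ) - n0 := by omega
        have h2 := (ZMod.intCast_eq_intCast_iff_dvd_sub (n0 : ℤ) ((u : ZMod f).val : ℤ) 3).2 h1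
        push_cast at h2
        exact h2.symm
      · show κ u = d
        apply Multiplicative.toAdd.injective
        rw [hκQ u k hu9 hup]
        funext j
        refine Fin.cases ?_ (fun i => ?_) j
        · show wt ((k : ℤ) ^ 2) = d.toAdd 0
          rw [← hn2]
          apply wt_congr
          have e : (k : ℤ) ^ 2 - (n0 : ℤ) ^ 2 = ((k : ℤ) - n0) * (k + n0) := by ring
          rw [e]
          exact Dvd.dvd.mul_right hk9' _
        · show sym (π i).1 (k : Eis) = d.toAdd i.succ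
          rw [← hn4 i]
          apply sym_congr
          obtain ⟨l, hl⟩ := hkp' i
          have e : (k : Eis) - (n i : Eis) = (p i : Eis) * (l : Eis) := by
            have : (((k : ℤ) - n i : ℤ) : Eis) = (((p i : ℤ) * l : ℤ) : Eis) := by rw [hl]
            push_cast at this
            exact this
          rw [e, hpπ i]
          exact ⟨conj (π i).1 * l, by ring⟩
    have hcard := fib_card Ψ hΨ (-1, Multiplicative.ofAdd c)
    have hM2 : ∀ u : (ZMod f)ˣ, M2 u ↔ ZMod.unitsMap h3f u = -1 := by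
      intro u
      unfold M2
      have h1 : ((ZMod.unitsMap h3f u : (ZMod 3)ˣ) : ZMod 3) = (((u : ZMod f).val : ℕ) : ZMod 3) := by
        simp only [ZMod.unitsMap_def, Units.coe_map, MonoidHom.coe_coe, ZMod.castHom_apply]
        rw [ZMod.natCast_val]
      have h2 : ZMod.unitsMap h3f u = -1 ↔ (((u : ZMod f).val : ℕ) : ZMod 3) = ((2 : ℕ) : ZMod 3) := by
        rw [← h1]
        constructor
        · intro h
          rw [h]
          decide
        · intro h
          ext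
          rw [h]
          decide
      rw [h2, ZMod.natCast_eq_natCast_iff']
    have hfib : Nat.card {a : (ZMod f)ˣ // M2 a ∧ (κ a).toAdd = c} =
        Nat.card {a : (ZMod f)ˣ // Ψ a = (-1, Multiplicative.ofAdd c)} := by
      apply Nat.card_congr
      refine Equiv.subtypeEquivRight fun a => ?_
      rw [hM2 a]
      constructor
      · rintro ⟨h1, h2⟩
        exact Prod.ext h1 (Multiplicative.toAdd.injective h2)
      · intro h
        exact ⟨congrArg Prod.fst h, congrArg Multiplicative.toAdd (congrArg Prod.snd h)⟩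
    rw [hfib]
    have hH : Nat.card ((ZMod 3)ˣ × Multiplicative (Fin (m + 1) → ZMod 3)) = 2 * 3 ^ (m + 1) := by
      rw [Nat.card_prod]
      congr 1
      · rw [Nat.card_eq_fintype_card, ZMod.card_units_eq_totient]
        decide
      · rw [Nat.card_eq_fintype_card, Fintype.card_multiplicative]
        simp
    rw [← hH, hcard, Nat.card_eq_fintype_card, ZMod.card_units_eq_totient]

end Pool.Agent.PT

end

section

/-!
# Frobenius elements and the classes `t` for the primes `= 1 (mod 3)`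
-/

open NumberField IsDedekindDomain Finset
open scoped nonZeroDivisors Pointwise

namespace Pool.Agent.PTE

open Pool.Agent.Lib_helper18 Pool.Agent.Lib_helper18.Eis Pool.Agent.Lib_helper84.Cub
open Pool.Agent.PT

namespace GFRS

open Pool.Agent.PT.GFR (lf_prod int_mk int_mem card_under frob_mk quo_finite
  isIntegral_root omega_cube isIntegral_omega pow_mod3 not_dvd_of_lt)

/-- The value at `ω` of the Frobenius element. -/
theorem frob_omega {L : Type} [Field L] [NumberField L] {Q : ℕ} (hQ : Q.Prime)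
    {P : Ideal (𝓞 L)} (hP : P.IsPrime) (hQP : (Q : 𝓞 L) ∈ P) (hQ3 : Q % 3 = 1)
    {φ : L ≃ₐ[ℚ] L} (hφ : IsArithFrobAt ℤ φ P) {ω : L} (hω : ω ^ 2 + ω + 1 = 0) :
    φ ω = ω := by
  let z : 𝓞 L := ⟨ω, isIntegral_omega hω⟩
  have hz : z ^ 3 = 1 := by
    apply RingOfIntegers.coe_injective
    change ω ^ 3 = 1
    exact omega_cube hω
  have h3 : ((3 : ℕ) : 𝓞 L) ∉ P := by
    have h4 := int_mem hQ hP hQP 3
    intro h5
    have h6 : ((3 : ℤ) : 𝓞 L) ∈ P := by simpa using h5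
    rw [h4] at h6
    have h7 : Q ∣ 3 := by exact_mod_cast h6
    have h8 := (Nat.prime_dvd_prime_iff_eq hQ Nat.prime_three).1 h7
    omega
  have h1 := hφ.apply_of_pow_eq_one hz h3
  rw [card_under hQ hP hQP, pow_mod3 hz Q, hQ3, pow_one] at h1
  exact congrArg (fun x : 𝓞 L => (x : L)) h1

/-- the linear forms are prime to `ρ` -/
theorem lf_not_dvd {Q : ℕ} {ρ : Eis} (hρ : ∀ x : ℤ, ρ ∣ (x : Eis) ↔ (Q : ℤ) ∣ x) {b p q r : ℤ}
    (hb : ¬ (Q : ℤ) ∣ p ^ 3 + b * q ^ 3)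
    (hr : (Q : ℤ) ∣ r ^ 3 - b) : ¬ ρ ∣ Lf p q 1 r ∧ ¬ ρ ∣ Lf p q 2 r := by
  have key : ¬ ρ ∣ Lf p q 0 r * Lf p q 1 r * Lf p q 2 r := by
    rw [lf_prod, hρ]
    intro h1
    refine hb ?_
    have h2 : p ^ 3 + b * q ^ 3 = p ^ 3 + q ^ 3 * r ^ 3 - (r ^ 3 - b) * q ^ 3 := by ring
    rw [h2]
    exact dvd_sub h1 (Dvd.dvd.mul_right hr _)
  exact ⟨fun h => key (Dvd.dvd.mul_right (Dvd.dvd.mul_left h _) _),
    fun h => key (Dvd.dvd.mul_left h _)⟩

/-- elements with the same cube -/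
theorem cases_root {R : Type*} [CommRing R] [IsDomain R] {z x y : R} (hz : z ^ 2 + z + 1 = 0)
    (h : x ^ 3 = y ^ 3) : ∃ k : ℕ, x = z ^ k * y := by
  have hz3 := omega_cube hz
  have h2 : (x - y) * ((x - z * y) * (x - z ^ 2 * y)) = 0 := by
    linear_combination h + (-x ^ 2 * y + x * y ^ 2) * hz + (x * y ^ 2 - y ^ 3) * hz3
  rcases mul_eq_zero.1 h2 with h3 | h3
  · exact ⟨0, by rw [pow_zero, one_mul]; exact sub_eq_zero.1 h3⟩
  rcases mul_eq_zero.1 h3 with h4 | h4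
  · exact ⟨1, by rw [pow_one]; exact sub_eq_zero.1 h4⟩
  · exact ⟨2, sub_eq_zero.1 h4⟩

/-- The data at the prime `P`; `F` is the residue field. -/
structure Dat {L : Type} [Field L] [NumberField L] {F : Type} [Field F] (Q : ℕ)
    (φ : L ≃ₐ[ℚ] L) (ω : 𝓞 L) (ρ : Eis) (mk : 𝓞 L →+* F) (z : F) (ψ : Eis →+* F) : Prop where
  hQ : Q.Prime
  rel : z ^ 2 + z + 1 = 0
  ne1 : z ≠ 1
  ωz : mk ω = z
  ψw : ψ w = z
  ψρ : ψ ρ = 0
  i0 : ∀ n : ℤ, ((n : ℤ) : F) = 0 ↔ (Q : ℤ) ∣ n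
  fr : ∀ x : 𝓞 L, mk (φ • x) = mk x ^ Q
  fω : φ (ω : L) = ω
  rω : ω ^ 2 + ω + 1 = 0
  hq : Prime ρ
  h3 : ¬ ρ ∣ 3
  hN : N ρ = Q
  hd : ∀ x : ℤ, ρ ∣ (x : Eis) ↔ (Q : ℤ) ∣ x

namespace Dat

variable {L : Type} [Field L] [NumberField L] {F : Type} [Field F] {Q : ℕ}
  {φ : L ≃ₐ[ℚ] L} {ω : 𝓞 L} {ρ : Eis} {mk : 𝓞 L →+* F} {z : F} {ψ : Eis →+* F}

theorem z3 (D : Dat Q φ ω ρ mk z ψ) : z ^ 3 = 1 := omega_cube D.rel

theorem z0 (D : Dat Q φ ω ρ mk z ψ) : z ≠ 0 := by
  intro h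
  have := D.z3
  rw [h] at this
  norm_num at this

theorem order (D : Dat Q φ ω ρ mk z ψ) : orderOf z = 3 := by
  have := Fact.mk Nat.prime_three
  exact orderOf_eq_prime D.z3 D.ne1

theorem pow_inj (D : Dat Q φ ω ρ mk z ψ) {s t : ZMod 3} (h : z ^ s.val = z ^ t.val) : s = t := by
  have h3 := IsPrimitiveRoot.orderOf z
  rw [D.order] at h3
  exact ZMod.val_injective 3 (h3.pow_inj (ZMod.val_lt s) (ZMod.val_lt t) h)

theorem three_mul (D : Dat Q φ ω ρ mk z ψ) : 3 * ((N ρ - 1) / 3) + 1 = Q := by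
  rw [three_mul_div D.hq D.h3, D.hN]

/-- the Frobenius power of an element whose cube comes from the Eisenstein integers -/
theorem pow_Q (D : Dat Q φ ω ρ mk z ψ) {x : F} {e : Eis} (he : ¬ ρ ∣ e) (hx : x ^ 3 = ψ e) :
    x ^ Q = z ^ (sym ρ e).val * x := by
  have h1 := map_pow_eq D.hq D.h3 he ψ D.ψρ
  rw [← hx, D.ψw, ← pow_mul] at h1
  conv_lhs => rw [← D.three_mul, pow_succ, h1]

theorem cube (_ : Dat Q φ ω ρ mk z ψ) {b : ℤ} {θ : 𝓞 L} (hθ : θ ^ 3 = (b : 𝓞 L)) :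
    mk θ ^ 3 = (b : F) := by
  rw [← map_pow, hθ, map_intCast]

theorem ne0 (D : Dat Q φ ω ρ mk z ψ) {b : ℤ} {θ : 𝓞 L} (hθ : θ ^ 3 = (b : 𝓞 L))
    (hb : ¬ (Q : ℤ) ∣ b) : mk θ ≠ 0 := by
  intro h
  have h1 := D.cube hθ
  rw [h, zero_pow (by norm_num)] at h1
  exact hb ((D.i0 b).1 h1.symm)

theorem fr_root (D : Dat Q φ ω ρ mk z ψ) {b : ℤ} {θ : 𝓞 L} (hθ : θ ^ 3 = (b : 𝓞 L))
    (hb : ¬ (Q : ℤ) ∣ b) : mk (φ • θ) = z ^ (sym ρ (b : Eis)).val * mk θ := by
  rw [D.fr]
  refine D.pow_Q (fun h => hb ((D.hd b).1 h)) ?_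
  rw [D.cube hθ, map_intCast]

/-- a fixed cube root -/
theorem sym_zero (D : Dat Q φ ω ρ mk z ψ) {b : ℤ} {θ : 𝓞 L} (hθ : θ ^ 3 = (b : 𝓞 L))
    (hb : ¬ (Q : ℤ) ∣ b) (h : φ • θ = θ) : sym ρ (b : Eis) = 0 := by
  have h1 := D.fr_root hθ hb
  rw [h] at h1
  refine D.pow_inj ?_
  have h3 : z ^ (sym ρ (b : Eis)).val * mk θ = 1 * mk θ := by rw [one_mul, ← h1]
  rw [mul_right_cancel₀ (D.ne0 hθ hb) h3, ZMod.val_zero, pow_zero]

/-- a cube root which is not fixed -/
theorem sym_ne (D : Dat Q φ ω ρ mk z ψ) {b : ℤ} {θ : 𝓞 L} (hθ : θ ^ 3 = (b : 𝓞 L))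
    (hb : ¬ (Q : ℤ) ∣ b) (h : φ • θ ≠ θ) : sym ρ (b : Eis) ≠ 0 := by
  intro h0
  have h1 : (φ • θ) ^ 3 = θ ^ 3 := by
    rw [← smul_pow', hθ]
    have h7 : ((b : 𝓞 L) : L) = (b : L) := map_intCast (algebraMap (𝓞 L) L) b
    apply RingOfIntegers.coe_injective
    refine (congrArg φ h7).trans ?_
    rw [map_intCast]
    exact h7.symm
  obtain ⟨k, hk⟩ := cases_root D.rω h1
  have h3 := D.fr_root hθ hb
  rw [hk, map_mul, map_pow, D.ωz, h0, ZMod.val_zero, pow_zero] at h3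
  have h5 : z ^ k = 1 := mul_right_cancel₀ (D.ne0 hθ hb) h3
  have h6 : 3 ∣ k := D.order ▸ orderOf_dvd_of_pow_eq_one h5
  obtain ⟨l, rfl⟩ := h6
  refine h ?_
  rw [hk, pow_mul, omega_cube D.rω, one_pow, one_mul]

/-- a cube root with the residue `r` -/
theorem exists_root (D : Dat Q φ ω ρ mk z ψ) {b r : ℤ} (hr : (Q : ℤ) ∣ r ^ 3 - b)
    {θ : 𝓞 L} (hθ : θ ^ 3 = (b : 𝓞 L)) :
    ∃ θ' : 𝓞 L, θ' ^ 3 = (b : 𝓞 L) ∧ mk θ' = (r : F) := by
  have h4 := (D.i0 (r ^ 3 - b)).2 hr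
  push_cast at h4
  obtain ⟨k, hk⟩ := cases_root (x := (r : F)) (y := mk θ) D.rel
    (by rw [D.cube hθ]; exact sub_eq_zero.1 h4)
  refine ⟨ω ^ k * θ, ?_, ?_⟩
  · rw [mul_pow, ← pow_mul, mul_comm k 3, pow_mul, omega_cube D.rω, one_pow, one_mul, hθ]
  · rw [map_mul, map_pow, D.ωz, hk]

theorem core (D : Dat Q φ ω ρ mk z ψ) {b p q p' q' r : ℤ}
    (h1 : ¬ (Q : ℤ) ∣ p ^ 3 + b * q ^ 3) (h2 : ¬ (Q : ℤ) ∣ p' ^ 3 + b * q' ^ 3)
    (hr : (Q : ℤ) ∣ r ^ 3 - b) {θ : 𝓞 L} {A : L} (hrθ : mk θ = (r : F))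
    (hφθ : φ (θ : L) = θ)
    (hA : A ^ 3 * aD (ω : L) p q p' q' θ = aN (ω : L) p q p' q' θ)
    {t : ZMod 3} (ht : φ A = (ω : L) ^ t.val * A) : t = TAUVS ρ p q p' q' r := by
  -- the elements of the ring of integers
  let dD : 𝓞 L := (p + q * ω * θ) * (p' + q' * ω ^ 2 * θ)
  let dN : 𝓞 L := (p + q * ω ^ 2 * θ) * (p' + q' * ω * θ)
  have hdD : algebraMap (𝓞 L) L dD = aD (ω : L) p q p' q' θ := by
    simp only [dD, aD, map_mul, map_add, map_pow, map_intCast]
  have hdN : algebraMap (𝓞 L) L dN = aN (ω : L) p q p' q' θ := by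
    simp only [dN, aN, map_mul, map_add, map_pow, map_intCast]
  have hA' : (A * aD (ω : L) p q p' q' θ) ^ 3 = algebraMap (𝓞 L) L (dN * dD ^ 2) := by
    rw [map_mul, map_pow, hdD, hdN, ← hA]
    ring
  have hAint : IsIntegral ℤ (A * aD (ω : L) p q p' q' θ) := by
    refine IsIntegral.of_pow (n := 3) (by norm_num) ?_
    rw [hA']
    exact RingOfIntegers.isIntegral_coe _
  obtain ⟨AB, hABv⟩ : ∃ AB : 𝓞 L, (AB : L) = A * aD (ω : L) p q p' q' θ := ⟨⟨_, hAint⟩, rfl⟩
  have hAB : AB ^ 3 = dN * dD ^ 2 := by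
    apply RingOfIntegers.coe_injective
    rw [← hA', ← hABv, map_pow]
  have hφD : φ (aD (ω : L) p q p' q' θ) = aD (ω : L) p q p' q' θ := by
    simp only [aD, map_mul, map_add, map_pow, map_intCast, D.fω, hφθ]
  have hφA : φ • AB = ω ^ t.val * AB := by
    apply RingOfIntegers.coe_injective
    rw [map_mul, map_pow]
    have h7 : algebraMap (𝓞 L) L (φ • AB) = φ (AB : L) := rfl
    have h8 : algebraMap (𝓞 L) L AB = A * aD (ω : L) p q p' q' θ := hABv
    rw [h7, hABv, h8, map_mul, hφD, ht]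
    ring
  obtain ⟨e1, e2⟩ := lf_not_dvd D.hd h1 hr
  obtain ⟨e1', e2'⟩ := lf_not_dvd D.hd h2 hr
  have hψL : ∀ (p q : ℤ) (i : ℕ), ψ (Lf p q i r) = p + q * z ^ i * r := by
    intro p q i
    simp only [Lf, map_add, map_mul, map_pow, map_intCast, D.ψw]
  set E : Eis := Lf p q 2 r * Lf p' q' 1 r * (Lf p q 1 r * Lf p' q' 2 r) ^ 2 with hE
  have hq := D.hq
  have hEd : ¬ ρ ∣ E := by
    intro h3
    rcases hq.dvd_or_dvd h3 with h4 | h4
    · rcases hq.dvd_or_dvd h4 with h5 | h5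
      · exact e2 h5
      · exact e1' h5
    · rcases hq.dvd_or_dvd (hq.dvd_of_dvd_pow h4) with h5 | h5
      · exact e1 h5
      · exact e2' h5
  have hmkA : mk AB ^ 3 = ψ E := by
    rw [← map_pow, hAB, hE]
    simp only [dD, dN, map_mul, map_add, map_pow, map_intCast, hrθ, D.ωz, pow_one, hψL]
  have ha0 : mk AB ≠ 0 := by
    intro h3
    rw [h3, zero_pow (by norm_num)] at hmkA
    have h4 := map_pow_eq hq D.h3 hEd ψ D.ψρ
    rw [← hmkA, D.ψw] at h4
    have h5 := D.three_mul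
    have h6 := D.hQ.two_le
    rw [zero_pow (by omega)] at h4
    exact pow_ne_zero _ D.z0 h4.symm
  have hfinal : z ^ t.val = z ^ (sym ρ E).val := by
    have h3 := congrArg mk hφA
    rw [D.fr, D.pow_Q hEd hmkA, map_mul, map_pow, D.ωz] at h3
    exact (mul_right_cancel₀ ha0 h3).symm
  have ht' : t = sym ρ E := D.pow_inj hfinal
  rw [ht', hE]
  have g1 : ¬ ρ ∣ Lf p q 2 r * Lf p' q' 1 r := fun h3 => (hq.dvd_or_dvd h3).elim e2 e1'
  have g2 : ¬ ρ ∣ Lf p q 1 r * Lf p' q' 2 r := fun h3 => (hq.dvd_or_dvd h3).elim e1 e2'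
  have g3 : ¬ ρ ∣ (Lf p q 1 r * Lf p' q' 2 r) ^ 2 := fun h3 => g2 (hq.dvd_of_dvd_pow h3)
  rw [sym_mul hq D.h3 g1 g3, sym_mul hq D.h3 e2 e1', sym_pow hq D.h3 g2, sym_mul hq D.h3 e1 e2']
  unfold TAUVS
  have h2z : ((2 : ℕ) : ZMod 3) = -1 := by decide
  rw [h2z]
  ring

end Dat

/-- the integral element -/
theorem exists_int {L : Type} [Field L] [NumberField L] {θ : L} {b : ℤ} (h : θ ^ 3 = (b : L)) :
    ∃ θ' : 𝓞 L, (θ' : L) = θ ∧ θ' ^ 3 = (b : 𝓞 L) := by
  refine ⟨⟨θ, isIntegral_root h⟩, rfl, ?_⟩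
  apply RingOfIntegers.coe_injective
  rw [map_intCast]
  exact h

/-- existence of the data -/
theorem exists_dat (hSPLT : SPLT) (hSPP : SPP) {L : Type} [Field L] [NumberField L] {Q : ℕ}
    (hQ : Q.Prime) {P : Ideal (𝓞 L)} (hP : P.IsPrime) (hQP : (Q : 𝓞 L) ∈ P) (hQ3 : Q % 3 = 1)
    {φ : L ≃ₐ[ℚ] L} (hφ : IsArithFrobAt ℤ φ P) {ω : L} (hω : ω ^ 2 + ω + 1 = 0) :
    ∃ (ωB : 𝓞 L) (ρ : PP) (F : Type) (_ : Field F) (mk : 𝓞 L →+* F) (z : F) (ψ : Eis →+* F),
      (ωB : L) = ω ∧ (Q : Eis) = ρ.1 * conj ρ.1 ∧ Dat Q φ ωB ρ.1 mk z ψ := by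
  have hfin := quo_finite hQ hP hQP
  have hmax : P.IsMaximal :=
    Ideal.Quotient.maximal_of_isField _ (Finite.isField_of_domain (𝓞 L ⧸ P))
  let _ : Field (𝓞 L ⧸ P) := Ideal.Quotient.field P
  let ωB : 𝓞 L := ⟨ω, isIntegral_omega hω⟩
  have h3 : ωB ^ 2 + ωB + 1 = 0 := by
    apply RingOfIntegers.coe_injective
    change ω ^ 2 + ω + 1 = 0
    exact hω
  set z : 𝓞 L ⧸ P := Ideal.Quotient.mk P ωB with hz
  have hzrel : z ^ 2 + z + 1 = 0 := by
    rw [hz, ← map_pow, ← map_add, ← map_one (Ideal.Quotient.mk P), ← map_add, h3, map_zero]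
  have h3Q : ¬ (Q : ℤ) ∣ 3 := by
    intro h3
    have h4 : Q ∣ 3 := by exact_mod_cast h3
    have h5 := (Nat.prime_dvd_prime_iff_eq hQ Nat.prime_three).1 h4
    omega
  have hz1 : z ≠ 1 := by
    intro h3
    rw [h3] at hzrel
    refine h3Q ((int_mk hQ hP hQP 3).1 ?_)
    push_cast
    linear_combination hzrel
  let ψ : Eis →+* 𝓞 L ⧸ P := Pool.Agent.PT.GFR.lift z hzrel
  have hψQ : ψ (Q : Eis) = 0 := by
    rw [map_natCast, ← map_natCast (Ideal.Quotient.mk P)]
    exact Ideal.Quotient.eq_zero_iff_mem.2 hQP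
  have hψw : ψ w = z := Pool.Agent.PT.GFR.lift_w z hzrel
  obtain ⟨ρ, hρQ, hψρ⟩ : ∃ ρ : PP, (Q : Eis) = ρ.1 * conj ρ.1 ∧ ψ ρ.1 = 0 := by
    obtain ⟨ρ₀, h0⟩ := hSPLT.1 Q hQ hQ3
    have h1 : ψ ρ₀.1 * ψ (conj ρ₀.1) = 0 := by rw [← map_mul, ← h0, hψQ]
    rcases mul_eq_zero.1 h1 with h2 | h2
    · exact ⟨ρ₀, h0, h2⟩
    · obtain ⟨ρ', h3⟩ := (hSPP.2.2.2.1 ρ₀).2
      refine ⟨ρ', ?_, ?_⟩
      · rw [h3, conj_conj, mul_comm]
        exact h0
      · rw [h3]
        exact h2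
  have hN : N ρ.1 = Q := by
    have h1 := mul_conj ρ.1
    rw [← hρQ] at h1
    have h2 : ((Q : ℤ) : Eis) = ((ρ.1.norm : ℤ) : Eis) := by
      rw [Int.cast_natCast]
      exact h1
    have h3 : (Q : ℤ) = ρ.1.norm := by
      have h4 := congrArg Eis.re h2
      simpa using h4
    have h4 := N_cast ρ.1
    rw [← h3] at h4
    exact_mod_cast h4
  exact ⟨ωB, ρ, 𝓞 L ⧸ P, inferInstance, Ideal.Quotient.mk P, z, ψ, rfl, hρQ,
    { hQ := hQ
      rel := hzrel
      ne1 := hz1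
      ωz := rfl
      ψw := hψw
      ψρ := hψρ
      i0 := fun n => int_mk hQ hP hQP n
      fr := fun x => frob_mk hQ hP hQP hφ x
      fω := frob_omega hQ hP hQP hQ3 hφ hω
      rω := h3
      hq := ρ.2.1
      h3 := (hSPP.2.2.2.1 ρ).1
      hN := hN
      hd := (hSPLT.2 Q ρ hQ hQ3 hρQ).2.2.2.1 }⟩

theorem ne_zero {s : ℕ} {b : Fin s → ℤ} {p q p' q' : Fin s → Fin s → ℤ}
    (hS : SysG b p q p' q') (j : Fin s) : b j ≠ 0 := by
  classical
  intro h0
  refine hS.ind (Pi.single j 1) ⟨j, by simp⟩ ⟨0, ?_⟩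
  have h1 : ∏ i, b i ^ (Pi.single j 1 : Fin s → ℕ) i = 0 := by
    refine Finset.prod_eq_zero (Finset.mem_univ j) ?_
    rw [Pi.single_eq_same, pow_one, h0]
  rw [h1]
  norm_num

end GFRS

theorem GFRS_thm (hSPLT : SPLT) (hSPP : SPP) : GFRS := by
  classical
  intro s b p q p' q' f L _ _ ζ ω hS hG
  let B : Fin (s + 1) → Fin (s + 1) → ℕ := fun j i => (b j).natAbs +
    (p j i ^ 3 + b j * q j i ^ 3).natAbs + (p' j i ^ 3 + b j * q' j i ^ 3).natAbs
  refine ⟨∑ j, ∑ i, B j i, fun Q hQ hQN hQ3 P hP hQP φ hφ hF => ?_⟩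
  have hB : ∀ j i, B j i < Q := by
    intro j i
    refine lt_of_le_of_lt ?_ hQN
    have h1 : B j i ≤ ∑ i, B j i :=
      Finset.single_le_sum (f := fun i => B j i) (fun _ _ => Nat.zero_le _) (Finset.mem_univ i)
    refine h1.trans ?_
    exact Finset.single_le_sum (f := fun j => ∑ i, B j i) (fun _ _ => Nat.zero_le _)
      (Finset.mem_univ j)
  have hb : ∀ j, ¬ (Q : ℤ) ∣ b j := fun j =>
    GFR.not_dvd_of_lt (GFRS.ne_zero hS j) (by have := hB j j; simp only [B] at this; omega)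
  obtain ⟨ωB, ρ, F, _, mk, z, ψ, rfl, hρ, D⟩ := GFRS.exists_dat hSPLT hSPP hQ hP hQP hQ3 hφ hG.rel
  refine ⟨ρ, hρ, fun j => ?_, ?_, fun j i hji r t hr ht => ?_⟩
  · obtain ⟨θ, hθ⟩ := hG.root j.castSucc
    obtain ⟨θB, rfl, hθB⟩ := GFRS.exists_int hθ
    exact D.sym_zero hθB (hb _) (RingOfIntegers.coe_injective (hF.1 j _ hθ))
  · obtain ⟨θ, hθ⟩ := hG.root (Fin.last s)
    obtain ⟨θB, rfl, hθB⟩ := GFRS.exists_int hθ
    exact D.sym_ne hθB (hb _) fun h => hF.2 _ hθ (congrArg (fun x : 𝓞 L => (x : L)) h)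
  · have hji' : j.castSucc ≠ i.castSucc := fun h => hji (Fin.castSucc_injective _ h)
    have hsol := hS.sol j.castSucc i.castSucc hji'
    have h2 : p' j.castSucc i.castSucc ^ 3 + b j.castSucc * q' j.castSucc i.castSucc ^ 3 ≠ 0 := by
      intro h0
      refine hsol.n1 ?_
      rw [hsol.eq, h0, mul_zero]
    have hBji := hB j.castSucc i.castSucc
    simp only [B] at hBji
    obtain ⟨θ₀, hθ₀⟩ := hG.root j.castSucc
    obtain ⟨θ₁, rfl, hθ₁⟩ := GFRS.exists_int hθ₀
    obtain ⟨θ, hθ, hrθ⟩ := D.exists_root hr hθ₁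
    have hθL : (θ : L) ^ 3 = (b j.castSucc : L) := by
      rw [← map_pow, hθ, map_intCast]
    obtain ⟨A, hA⟩ := hG.A j.castSucc i.castSucc hji' θ hθL
    exact D.core (GFR.not_dvd_of_lt hsol.n1 (by omega)) (GFR.not_dvd_of_lt h2 (by omega))
      hr hrθ (hF.1 j θ hθL) hA (ht θ A hθL hA)

end Pool.Agent.PTE

end

section

/-!
# PTN_SMT: sets of primes covered twice
-/

open NumberField IsDedekindDomain Finset
open scoped nonZeroDivisors Pointwise

namespace Pool.Agent.PTN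

namespace SMT

open Pool.Agent.PT Pool.Agent.PT.BDENS

/-- the constant from the terms up to `M` -/
noncomputable def cst (M : ℕ) (c : ℝ) (n : ℕ) : ℝ := if n ∈ Finset.range (M + 1) then c else 0

theorem cst_summable (M : ℕ) (c : ℝ) : Summable (cst M c) :=
  summable_of_ne_finset_zero (s := Finset.range (M + 1)) fun _ hn => if_neg hn

theorem cst_tsum (M : ℕ) (c : ℝ) : ∑' n, cst M c n = (M + 1 : ℕ) * c := by
  have h : ∑' n, cst M c n = ∑ n ∈ Finset.range (M + 1), cst M c n :=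
    tsum_eq_sum (s := Finset.range (M + 1)) fun _ hn => if_neg hn
  have h2 : ∀ n ∈ Finset.range (M + 1), cst M c n = c := fun _ hn => if_pos hn
  rw [h, Finset.sum_congr rfl h2, Finset.sum_const, Finset.card_range, nsmul_eq_mul]

/-- comparison of finite sums of the series term by term -/
theorem compare (M : ℕ) (c : ℝ) (f g : ℕ → ℝ) (hf : Summable f) (hg : Summable g)
    (h : ∀ n, f n ≤ g n + cst M c n) : ∑' n, f n ≤ ∑' n, g n + (M + 1 : ℕ) * c := by
  rw [← cst_tsum M c, ← hg.tsum_add (cst_summable M c)]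
  exact hf.tsum_le_tsum h (hg.add (cst_summable M c))

theorem ind_not_prime {S : Set ℕ} {σ : ℝ} {n : ℕ} (h : ¬ n.Prime) : ind S σ n = 0 :=
  ind_not fun h' => h h'.1

theorem ind_le {S : Set ℕ} {σ : ℝ} {n : ℕ} (h : n.Prime) : ind S σ n ≤ (n : ℝ) ^ (-σ) := by
  by_cases hS : n ∈ S
  · rw [ind_mem h hS]
  · rw [ind_not fun h' => hS h'.2]
    exact Real.rpow_nonneg (Nat.cast_nonneg n) _

end SMT

open Pool.Agent.PT in
theorem SMT_thm : Stmt_SMT := by
  classical
  intro ι _ S T₁ T₂ T M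
  refine ⟨fun H => ?_, fun H1 H2 => ?_, fun H => ?_⟩
  · refine ⟨(M + 1 : ℕ) * 2, fun σ hσ _ => ?_⟩
    rw [BDENS.sm_eq, ← tsum_mul_left]
    simp only [BDENS.sm_eq]
    rw [← Summable.tsum_finsetSum fun i _ => BDENS.ind_summable _ hσ]
    refine SMT.compare M 2 _ _ ((BDENS.ind_summable S hσ).mul_left 2)
      (summable_sum fun i _ => BDENS.ind_summable _ hσ) fun n => ?_
    have h0 : 0 ≤ ∑ i, BDENS.ind (T i) σ n := Finset.sum_nonneg fun i _ => BDENS.ind_nonneg _ _ _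
    by_cases hM : n ∈ Finset.range (M + 1)
    · have h1 := BDENS.ind_le_one (S := S) hσ n
      rw [SMT.cst, if_pos hM]
      linarith
    · rw [SMT.cst, if_neg hM, add_zero]
      by_cases hn : n.Prime ∧ n ∈ S
      · have hM' : M < n := by
          rw [Finset.mem_range] at hM
          omega
        obtain ⟨i, j, hij, hi, hj⟩ := H n hn.1 hM' hn.2
        rw [BDENS.ind_mem hn.1 hn.2]
        have h2 : ∑ k ∈ ({i, j} : Finset ι), BDENS.ind (T k) σ n ≤ ∑ k, BDENS.ind (T k) σ n :=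
          Finset.sum_le_sum_of_subset_of_nonneg (Finset.subset_univ _)
            fun k _ _ => BDENS.ind_nonneg _ _ _
        rw [Finset.sum_pair hij, BDENS.ind_mem hn.1 hi, BDENS.ind_mem hn.1 hj] at h2
        linarith
      · rw [BDENS.ind_not hn, mul_zero]
        exact h0
  · refine ⟨(M + 1 : ℕ) * Fintype.card ι, fun σ hσ _ => ?_⟩
    rw [BDENS.sm_eq S, ← tsum_mul_left]
    simp only [BDENS.sm_eq]
    rw [← Summable.tsum_finsetSum fun i _ => BDENS.ind_summable _ hσ]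
    refine SMT.compare M _ _ _ (summable_sum fun i _ => BDENS.ind_summable _ hσ)
      ((BDENS.ind_summable S hσ).mul_left 2) fun n => ?_
    have h0 : 0 ≤ BDENS.ind S σ n := BDENS.ind_nonneg _ _ _
    by_cases hM : n ∈ Finset.range (M + 1)
    · have h1 : ∑ i, BDENS.ind (T i) σ n ≤ ∑ _i : ι, (1 : ℝ) :=
        Finset.sum_le_sum fun i _ => BDENS.ind_le_one hσ n
      rw [Finset.sum_const, Finset.card_univ, nsmul_eq_mul, mul_one] at h1
      rw [SMT.cst, if_pos hM]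
      linarith
    · rw [SMT.cst, if_neg hM, add_zero]
      by_cases hn : n.Prime
      · have hM' : M < n := by
          rw [Finset.mem_range] at hM
          omega
        by_cases hex : ∃ i, n ∈ T i
        · obtain ⟨i, hi⟩ := hex
          have hS : n ∈ S := H1 n hn hM' i hi
          obtain ⟨i₁, i₂, h12⟩ := H2 n hn hM'
          have h3 : ∑ k, BDENS.ind (T k) σ n = ∑ k ∈ ({i₁, i₂} : Finset ι), BDENS.ind (T k) σ n := by
            symm
            refine Finset.sum_subset (Finset.subset_univ _) fun k _ hk => ?_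
            refine BDENS.ind_not fun h' => hk ?_
            rw [Finset.mem_insert, Finset.mem_singleton]
            exact h12 k h'.2
          rw [h3, BDENS.ind_mem hn hS]
          calc ∑ k ∈ ({i₁, i₂} : Finset ι), BDENS.ind (T k) σ n
              ≤ ∑ _k ∈ ({i₁, i₂} : Finset ι), (n : ℝ) ^ (-σ) :=
                Finset.sum_le_sum fun k _ => SMT.ind_le hn
            _ = (({i₁, i₂} : Finset ι).card : ℝ) * (n : ℝ) ^ (-σ) := by
                rw [Finset.sum_const, nsmul_eq_mul]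
            _ ≤ 2 * (n : ℝ) ^ (-σ) := by
                refine mul_le_mul_of_nonneg_right ?_ (Real.rpow_nonneg (Nat.cast_nonneg n) _)
                exact_mod_cast Finset.card_le_two
        · have h4 : ∑ k, BDENS.ind (T k) σ n = 0 :=
            Finset.sum_eq_zero fun k _ => BDENS.ind_not fun h' => hex ⟨k, h'.2⟩
          rw [h4]
          linarith
      · have h4 : ∑ k, BDENS.ind (T k) σ n = 0 :=
          Finset.sum_eq_zero fun k _ => BDENS.ind_not fun h' => hn h'.1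
        rw [h4]
        linarith
  · refine ⟨(M + 1 : ℕ) * 1, fun σ hσ _ => ?_⟩
    rw [BDENS.sm_eq, BDENS.sm_eq, BDENS.sm_eq,
      ← (BDENS.ind_summable T₁ hσ).tsum_add (BDENS.ind_summable T₂ hσ)]
    refine SMT.compare M 1 _ _ (BDENS.ind_summable S hσ)
      ((BDENS.ind_summable T₁ hσ).add (BDENS.ind_summable T₂ hσ)) fun n => ?_
    have h1 := BDENS.ind_nonneg T₁ σ n
    have h2 := BDENS.ind_nonneg T₂ σ n
    by_cases hM : n ∈ Finset.range (M + 1)
    · have h3 := BDENS.ind_le_one (S := S) hσ n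
      rw [SMT.cst, if_pos hM]
      linarith
    · rw [SMT.cst, if_neg hM, add_zero]
      by_cases hn : n.Prime ∧ n ∈ S
      · have hM' : M < n := by
          rw [Finset.mem_range] at hM
          omega
        rw [BDENS.ind_mem hn.1 hn.2]
        rcases H n hn.1 hM' hn.2 with h | h
        · rw [BDENS.ind_mem hn.1 h]
          linarith
        · rw [BDENS.ind_mem hn.1 h]
          linarith
      · rw [BDENS.ind_not hn]
        linarith

end Pool.Agent.PTN

end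

section

/-!
# TRU: the units modulo `9 N` and the classes
-/

set_option autoImplicit false

open NumberField IsDedekindDomain Finset
open scoped nonZeroDivisors Pointwise

namespace Pool.Agent.PTN

open Pool.Agent.Lib_helper18 Pool.Agent.Lib_helper18.Eis Pool.Agent.Lib_helper84.Cub
open Pool.Agent.PT Pool.Agent.PTE Pool.Agent.PT3 Pool.Agent.PTL

namespace TRU

theorem f_pos {n m k : ℕ} {π : Fin m → PP} {p e : Fin m → ℕ} {r f : Fin k → ℕ}
    (hNF : NF n π p e r f) : 0 < n := by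
  rw [hNF.eq]
  exact Nat.mul_pos (Finset.prod_pos fun i _ => pow_pos (hNF.pp i).pos _)
    (Finset.prod_pos fun j _ => pow_pos (hNF.rp j).pos _)

/-- the class of a unit is the value of `κ` -/
theorem kl_iff {f m : ℕ} [NeZero f] (π : Fin m → PP)
    (κ : (ZMod f)ˣ →* Multiplicative (Fin (m + 1) → ZMod 3))
    (hκ : ∀ (Q : ℕ) (hQ : Q.Coprime f), (κ (ZMod.unitOfCoprime Q hQ)).toAdd =
      Fin.cons (wt ((Q : ℤ) ^ 2)) (fun i => sym (π i).1 (Q : Eis)))
    (u : (ZMod f)ˣ) (w0 : ZMod 3) (c : Fin m → ZMod 3) :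
    Kl π w0 c (((u : ZMod f).val : ℕ) : ℤ) ↔
      (κ u).toAdd = (Fin.cons w0 c : Fin (m + 1) → ZMod 3) := by
  have hu : ZMod.unitOfCoprime (u : ZMod f).val (ZMod.val_coe_unit_coprime u) = u := by
    ext
    rw [ZMod.coe_unitOfCoprime, ZMod.natCast_zmod_val]
  have h1 := hκ (u : ZMod f).val (ZMod.val_coe_unit_coprime u)
  rw [hu] at h1
  rw [h1]
  unfold Kl
  constructor
  · rintro ⟨a, b⟩
    rw [← a]
    congr 1
    funext i
    rw [← b i]
    push_cast
    rfl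
  · intro H
    have h2 := congrFun H 0
    rw [Fin.cons_zero, Fin.cons_zero] at h2
    refine ⟨h2, fun i => ?_⟩
    have h3 := congrFun H i.succ
    rw [Fin.cons_succ, Fin.cons_succ] at h3
    rw [← h3]
    push_cast
    rfl

/-- every unit is `1` or `2` modulo `3` -/
theorem val_mod {f : ℕ} [NeZero f] (h3 : 3 ∣ f) (u : (ZMod f)ˣ) :
    (u : ZMod f).val % 3 = 1 ∨ (u : ZMod f).val % 3 = 2 := by
  have h1 := ZMod.val_coe_unit_coprime u
  have h2 : ¬ 3 ∣ (u : ZMod f).val := by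
    intro h
    have := Nat.Coprime.eq_one_of_dvd (h1.coprime_dvd_left h) h3
    omega
  omega

theorem card_split {f : ℕ} [NeZero f] (h3 : 3 ∣ f) (P : (ZMod f)ˣ → Prop) :
    Nat.card {a : (ZMod f)ˣ // P a} =
      Nat.card {a : (ZMod f)ˣ // M2 a ∧ P a} + Nat.card {a : (ZMod f)ˣ // M1 a ∧ P a} := by
  classical
  rw [Nat.card_eq_fintype_card, Nat.card_eq_fintype_card, Nat.card_eq_fintype_card,
    Fintype.card_subtype, Fintype.card_subtype, Fintype.card_subtype, ← Finset.card_union_of_disjoint]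
  · congr 1
    ext a
    simp only [Finset.mem_filter, Finset.mem_univ, true_and, Finset.mem_union]
    constructor
    · intro h
      rcases val_mod h3 a with h' | h'
      · exact Or.inr ⟨h', h⟩
      · exact Or.inl ⟨h', h⟩
    · rintro (h | h)
      · exact h.2
      · exact h.2
  · rw [Finset.disjoint_left]
    intro a ha hb
    simp only [Finset.mem_filter, Finset.mem_univ, true_and] at ha hb
    have h1 : (a : ZMod f).val % 3 = 2 := ha.1
    have h2 : (a : ZMod f).val % 3 = 1 := hb.1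
    omega

end TRU

open _root_.Pool.Agent.PTN.TRU in
theorem TRU_thm (hCLSC : CLSC) (hCLSCS : CLSCS) (hSPP : SPP) : Stmt_TRU := by
  intro h n m k π p e r f hNF
  have hn : 0 < n := f_pos hNF
  have hF0 : 0 < 9 * (3 ^ h * n) := by positivity
  have : NeZero (9 * (3 ^ h * n)) := ⟨hF0.ne'⟩
  have h9 : 9 ∣ 9 * (3 ^ h * n) := ⟨_, rfl⟩
  have h3 : 3 ∣ 9 * (3 ^ h * n) := (by norm_num : 3 ∣ 9).trans h9
  have hpn : ∀ i, p i ∣ n := by
    intro i
    rw [hNF.eq]
    refine Dvd.dvd.mul_right ?_ _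
    refine (dvd_pow_self _ ?_).trans (Finset.dvd_prod_of_mem _ (Finset.mem_univ i))
    rcases hNF.pe i with hh | hh <;> omega
  have hpf : ∀ i, p i ∣ 9 * (3 ^ h * n) := fun i =>
    ((hpn i).mul_left _).mul_left _
  constructor
  · intro w0 c
    obtain ⟨κ, hκ, hc2⟩ := hCLSC m π p hNF.pp hNF.p1 hNF.pπ hNF.pinj _ hF0 h9 hpf
    have hc1 := hCLSCS _ m κ hF0 h9 hc2
    have e1 : Nat.card {u : (ZMod (9 * (3 ^ h * n)))ˣ //
        Kl π w0 c (((u : ZMod (9 * (3 ^ h * n))).val : ℕ) : ℤ)} =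
        Nat.card {u : (ZMod (9 * (3 ^ h * n)))ˣ //
          (κ u).toAdd = (Fin.cons w0 c : Fin (m + 1) → ZMod 3)} :=
      Nat.card_congr (Equiv.subtypeEquivRight fun u => kl_iff π κ hκ u w0 c)
    rw [e1, card_split h3]
    have a1 := hc1 (Fin.cons w0 c)
    have a2 := hc2 (Fin.cons w0 c)
    set A := Nat.card {a : (ZMod (9 * (3 ^ h * n)))ˣ //
      M1 a ∧ (κ a).toAdd = (Fin.cons w0 c : Fin (m + 1) → ZMod 3)}
    set B := Nat.card {a : (ZMod (9 * (3 ^ h * n)))ˣ //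
      M2 a ∧ (κ a).toAdd = (Fin.cons w0 c : Fin (m + 1) → ZMod 3)}
    have : (B + A) * 3 ^ (m + 1) * 2 = (9 * (3 ^ h * n)).totient * 2 := by
      calc (B + A) * 3 ^ (m + 1) * 2 = B * (2 * 3 ^ (m + 1)) + A * (2 * 3 ^ (m + 1)) := by ring
        _ = _ := by rw [a1, a2]; ring
    omega
  · intro u w0 c y x hu hy hd
    set U : ℤ := (((u : ZMod (9 * (3 ^ h * n))).val : ℕ) : ℤ) with hU
    have hUc : IsCoprime U ((9 * (3 ^ h * n) : ℕ) : ℤ) :=
      Nat.isCoprime_iff_coprime.2 (ZMod.val_coe_unit_coprime u)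
    -- `U x ^ 3` is prime to `9 N`
    have hUx : IsCoprime (U * x ^ 3) ((9 * (3 ^ h * n) : ℕ) : ℤ) := by
      obtain ⟨t, ht⟩ := hd
      have : U * x ^ 3 = y + ((9 * (3 ^ h * n) : ℕ) : ℤ) * (-t) := by linarith
      rw [this]
      exact (IsCoprime.add_mul_left_left_iff).2 hy
    have hxc : IsCoprime x ((9 * (3 ^ h * n) : ℕ) : ℤ) := by
      have := IsCoprime.of_mul_left_right hUx
      exact (IsCoprime.pow_left_iff (by norm_num)).1 this
    have h9d : (9 : ℤ) ∣ ((9 * (3 ^ h * n) : ℕ) : ℤ) := by exact_mod_cast h9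
    have h3d : (3 : ℤ) ∣ ((9 * (3 ^ h * n) : ℕ) : ℤ) := by exact_mod_cast h3
    have n3 : ∀ z : ℤ, IsCoprime z ((9 * (3 ^ h * n) : ℕ) : ℤ) → ¬ (3 : ℤ) ∣ z := by
      intro z hz h3z
      have := (IsCoprime.of_isCoprime_of_dvd_left hz h3z).isUnit_of_dvd' (dvd_refl _) h3d
      exact absurd this (by decide)
    have np : ∀ (i : Fin m) (z : ℤ), IsCoprime z ((9 * (3 ^ h * n) : ℕ) : ℤ) →
        ¬ (p i : ℤ) ∣ z := by
      intro i z hz hpz
      have h1 : (p i : ℤ) ∣ ((9 * (3 ^ h * n) : ℕ) : ℤ) := by exact_mod_cast hpf i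
      have := (IsCoprime.of_isCoprime_of_dvd_left hz hpz).isUnit_of_dvd' (dvd_refl _) h1
      exact (Nat.prime_iff_prime_int.1 (hNF.pp i)).not_isUnit this
    obtain ⟨hw, hs⟩ := hu
    constructor
    · rw [← hw]
      have e1 : wt (y ^ 2) = wt ((U * x ^ 3) ^ 2) := by
        apply CLSC.wt_congr
        have : y ^ 2 - (U * x ^ 3) ^ 2 = (y - U * x ^ 3) * (y + U * x ^ 3) := by ring
        rw [this]
        exact Dvd.dvd.mul_right (h9d.trans hd) _
      have e2 : (U * x ^ 3) ^ 2 = U ^ 2 * (x ^ 2 * (x ^ 2 * x ^ 2)) := by ring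
      have hx2 := sq_mod_three (n3 x hxc)
      have hU2 := sq_mod_three (n3 U hUc)
      have m1 : ∀ a b : ℤ, a % 3 = 1 → b % 3 = 1 → (a * b) % 3 = 1 := by
        intro a b ha hb
        rw [Int.mul_emod, ha, hb]
        rfl
      rw [e1, e2, wt_mul hU2 (m1 _ _ hx2 (m1 _ _ hx2 hx2)), wt_mul hx2 (m1 _ _ hx2 hx2),
        wt_mul hx2 hx2]
      generalize wt (U ^ 2) = a
      generalize wt (x ^ 2) = b
      revert a b
      decide
    · intro i
      rw [← hs i]
      have : Fact (p i).Prime := ⟨hNF.pp i⟩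
      have hnm := CLSC.norm_of _ _ (hNF.pπ i)
      have hπ3 := (hSPP.2.2.2.1 (π i)).1
      have hU' : ¬ (π i).1 ∣ (U : Eis) := by
        rw [dvd_intCast_iff hnm]
        exact np i U hUc
      have hx' : ¬ (π i).1 ∣ (x : Eis) := by
        rw [dvd_intCast_iff hnm]
        exact np i x hxc
      have e1 : sym (π i).1 (y : Eis) = sym (π i).1 ((U : Eis) * (x : Eis) ^ 3) := by
        apply sym_congr
        have h1 : (p i : ℤ) ∣ y - U * x ^ 3 := by
          have h2 : (p i : ℤ) ∣ ((9 * (3 ^ h * n) : ℕ) : ℤ) := by exact_mod_cast hpf i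
          exact h2.trans hd
        obtain ⟨t, ht⟩ := h1
        have e : (y : Eis) - (U : Eis) * (x : Eis) ^ 3 = (p i : Eis) * (t : Eis) := by
          have : ((y - U * x ^ 3 : ℤ) : Eis) = (((p i : ℤ) * t : ℤ) : Eis) := by rw [ht]
          push_cast at this
          exact this
        rw [e, hNF.pπ i]
        exact ⟨conj (π i).1 * t, by ring⟩
      have hx3 : ¬ (π i).1 ∣ (x : Eis) ^ 3 := fun hh => hx' ((π i).2.1.dvd_of_dvd_pow hh)
      rw [e1, sym_mul (π i).2.1 hπ3 hU' hx3, sym_pow (π i).2.1 hπ3 hx']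
      generalize sym (π i).1 (U : Eis) = a
      generalize sym (π i).1 (x : Eis) = b
      revert a b
      decide

end Pool.Agent.PTN

end

section

/-!
# Module PTN_KOM: multiplication by `w`
-/

set_option autoImplicit false

namespace Pool.Agent.PTN

open Pool.Agent.Lib_helper18 Pool.Agent.Lib_helper18.Eis Pool.Agent.Lib_helper84.Cub
open Pool.Agent.PT WeierstrassCurve.Affine

namespace KOM

/-- The data of a curve `y² = x³ + B` with a cube root of unity. -/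
structure Dt {K : Type} [Field K] (W : WeierstrassCurve.Affine K) (z B : K) : Prop where
  a1 : W.a₁ = 0
  a2 : W.a₂ = 0
  a3 : W.a₃ = 0
  a4 : W.a₄ = 0
  B0 : B ≠ 0
  two : (2 : K) ≠ 0
  ns : ∀ x y : K, W.Nonsingular x y ↔ y ^ 2 = x ^ 3 + B
  rel : z ^ 2 + z + 1 = 0
  ne1 : z ≠ 1

variable {K : Type} [Field K] [DecidableEq K] {W : WeierstrassCurve.Affine K} {z B : K}

theorem Dt.cube (h : Dt W z B) : z ^ 3 = 1 := by
  have := h.rel
  linear_combination (z - 1) * this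

theorem Dt.ns' (h : Dt W z B) {x y : K} (hxy : W.Nonsingular x y) : W.Nonsingular (z * x) y := by
  rw [h.ns] at hxy ⊢
  rw [hxy, mul_pow, h.cube, one_mul]

/-- multiplication by the root of unity on the points -/
def omf (h : Dt W z B) : W.Point → W.Point
  | .zero => .zero
  | .some x y hxy => .some (z * x) y (h.ns' hxy)

theorem some_congr {x x' y y' : K} (hx : x = x') (hy : y = y') (h : W.Nonsingular x y)
    (h' : W.Nonsingular x' y') : Point.some x y h = Point.some x' y' h' := by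
  subst hx hy
  rfl

theorem Dt.negY (h : Dt W z B) (x y : K) : W.negY x y = -y := by
  unfold WeierstrassCurve.Affine.negY
  rw [h.a1, h.a3]; ring

theorem Dt.addX (h : Dt W z B) (x y l : K) : W.addX x y l = l ^ 2 - x - y := by
  unfold WeierstrassCurve.Affine.addX
  rw [h.a1, h.a2]; ring

theorem Dt.addY (h : Dt W z B) (x y u l : K) : W.addY x y u l =
    -(l * (l ^ 2 - x - y - x) + u) := by
  unfold WeierstrassCurve.Affine.addY WeierstrassCurve.Affine.negAddY
  rw [h.negY, h.addX]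

theorem Dt.slope_same (h : Dt W z B) (x y y' : K) (hy : y ≠ -y') :
    W.slope x x y y' = 3 * x ^ 2 / (2 * y) := by
  unfold WeierstrassCurve.Affine.slope
  rw [if_pos rfl, h.negY, if_neg hy, h.a1, h.a2, h.a4, h.negY]
  congr 1 <;> ring

theorem Dt.slope_ne (x x' y y' : K) (hx : x ≠ x') : W.slope x x' y y' = (y - y') / (x - x') := by
  unfold WeierstrassCurve.Affine.slope
  rw [if_neg hx]

theorem Dt.z0 (h : Dt W z B) : z ≠ 0 := by
  intro h0
  have := h.cube
  rw [h0] at this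
  norm_num at this

theorem Dt.slope (h : Dt W z B) (x x' y y' : K) (hxy : ¬ (x = x' ∧ y = W.negY x' y')) :
    W.slope (z * x) (z * x') y y' = z ^ 2 * W.slope x x' y y' := by
  by_cases hx : x = x'
  · subst hx
    have hy : y ≠ -y' := fun hh => hxy ⟨rfl, by rw [h.negY]; exact hh⟩
    rw [h.slope_same _ _ _ hy, h.slope_same _ _ _ hy]
    ring
  · have hx' : z * x ≠ z * x' := fun hh => hx (mul_left_cancel₀ h.z0 hh)
    rw [Dt.slope_ne _ _ _ _ hx, Dt.slope_ne _ _ _ _ hx']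
    have h1 : x - x' ≠ 0 := sub_ne_zero.2 hx
    have h2 : z * x - z * x' ≠ 0 := sub_ne_zero.2 hx'
    rw [mul_div_assoc', div_eq_div_iff h2 h1]
    linear_combination (-(y - y') * (x - x')) * h.cube

/-- multiplication by the root of unity as a homomorphism -/
def om (h : Dt W z B) : W.Point →+ W.Point where
  toFun := omf h
  map_zero' := rfl
  map_add' := by
    rintro (_ | ⟨x₁, y₁, h₁⟩) (_ | ⟨x₂, y₂, h₂⟩)
    any_goals rfl
    by_cases hxy : x₁ = x₂ ∧ y₁ = W.negY x₂ y₂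
    · rw [Point.add_of_Y_eq hxy.1 hxy.2]
      show (0 : W.Point) = Point.some _ _ (h.ns' h₁) + Point.some _ _ (h.ns' h₂)
      rw [Point.add_of_Y_eq (by rw [hxy.1]) (by rw [hxy.2, h.negY, h.negY])]
    · rw [Point.add_some hxy]
      show Point.some _ _ _ = Point.some _ _ (h.ns' h₁) + Point.some _ _ (h.ns' h₂)
      have hxy' : ¬ (z * x₁ = z * x₂ ∧ y₁ = W.negY (z * x₂) y₂) := by
        rintro ⟨e1, e2⟩
        exact hxy ⟨mul_left_cancel₀ h.z0 e1, by rw [h.negY] at e2 ⊢; exact e2⟩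
      rw [Point.add_some hxy']
      apply some_congr
      · rw [h.addX, h.addX, h.slope _ _ _ _ hxy]
        linear_combination (-(z * W.slope x₁ x₂ y₁ y₂ ^ 2)) * h.cube
      · rw [h.addY, h.addY, h.slope _ _ _ _ hxy]
        have h3 := h.cube
        have h6 : z ^ 6 = 1 := by
          calc z ^ 6 = (z ^ 3) ^ 2 := by ring
            _ = 1 := by rw [h3]; ring
        linear_combination (W.slope x₁ x₂ y₁ y₂ ^ 3) * h6 -
          (W.slope x₁ x₂ y₁ y₂ * (2 * x₁ + x₂)) * h3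

theorem om_some (h : Dt W z B) (x y : K) (hxy : W.Nonsingular x y) :
    om h (.some x y hxy) = .some (z * x) y (h.ns' hxy) := rfl

theorem om_sum (h : Dt W z B) (Q : W.Point) : Q + om h Q + om h (om h Q) = 0 := by
  rcases Q with _ | ⟨x, y, hxy⟩
  · rfl
  · rw [om_some, om_some]
    have h0 := (h.ns x y).1 hxy
    have hx0 : x = z * x → x = 0 := by
      intro e
      have h1 : x * (1 - z) = 0 := by linear_combination e
      rcases mul_eq_zero.1 h1 with h2 | h2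
      · exact h2
      · exact absurd (sub_eq_zero.1 h2).symm h.ne1
    have hne : ¬ (x = z * x ∧ y = W.negY (z * x) y) := by
      rintro ⟨e1, e2⟩
      have e3 := hx0 e1
      rw [h.negY] at e2
      have e4 : (2 : K) * y = 0 := by linear_combination e2
      have e5 : y = 0 := (mul_eq_zero.1 e4).resolve_left h.two
      rw [e3, e5] at h0
      apply h.B0
      linear_combination -h0
    rw [Point.add_some hne]
    have hs : W.slope x (z * x) y y = 0 := by
      by_cases hx : x = z * x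
      · have e3 := hx0 hx
        have hy : y ≠ -y := by
          intro e
          exact hne ⟨hx, by rw [h.negY]; exact e⟩
        rw [e3, mul_zero, h.slope_same _ _ _ hy]
        simp
      · rw [Dt.slope_ne _ _ _ _ hx]
        simp
    apply Point.add_of_Y_eq
    · rw [h.addX, hs]
      linear_combination (-x) * h.rel
    · rw [h.addY, hs, h.negY]
      ring

end KOM

theorem KOM_thm (h0 : Stmt_KEQ) : Stmt_KOM := by
  intro K _ _ _ ι c A hKF hA
  obtain ⟨hns, -, -, -, hrel, hne⟩ := h0 K ι c A hKF hA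
  have hB : (-432 * (A : K) ^ 2) ≠ 0 := by
    have : (A : K) ≠ 0 := by exact_mod_cast hA
    have h4 : (432 : K) ≠ 0 := by norm_num
    simp [this]
  have D : KOM.Dt (WeierstrassCurve.Affine.baseChange (CubeRank.EA A).toAffine K) (ι w)
      (-432 * (A : K) ^ 2) := by
    refine ⟨?_, ?_, ?_, ?_, hB, two_ne_zero, ?_, hrel, hne⟩
    · show algebraMap ℚ K 0 = 0
      exact map_zero _
    · show algebraMap ℚ K 0 = 0
      exact map_zero _
    · show algebraMap ℚ K 0 = 0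
      exact map_zero _
    · show algebraMap ℚ K 0 = 0
      exact map_zero _
    · intro x y
      rw [hns x y]
      constructor
      · intro h; rw [h]; ring
      · intro h; rw [h]; ring
  have hc : c (ι w) = (ι w) ^ 2 := by
    rw [hKF.conj, conj_w, map_pow]
  refine ⟨KOM.om D, fun x y h => ⟨D.ns' h, rfl⟩, KOM.om_sum D, ?_⟩
  intro cc hcc Q
  rcases Q with _ | ⟨x, y, hxy⟩
  · show cc (KOM.om D 0) = KOM.om D (KOM.om D (cc 0))
    rw [map_zero, map_zero, map_zero, map_zero]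
  · rw [KOM.om_some]
    obtain ⟨h1, e1⟩ := hcc _ _ (D.ns' hxy)
    obtain ⟨h2, e2⟩ := hcc _ _ hxy
    rw [e1, e2, KOM.om_some, KOM.om_some]
    apply KOM.some_congr
    · rw [map_mul, hc]; ring
    · rfl

end Pool.Agent.PTN

end

section

/-!
# Module PTN_KKE: the kernel of the Kummer map
-/

set_option autoImplicit false

namespace Pool.Agent.PTN

open Pool.Agent.Lib_helper18 Pool.Agent.Lib_helper18.Eis Pool.Agent.Lib_helper84.Cub
open Pool.Agent.PT WeierstrassCurve.Affine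

namespace KKE

/-- a rational integer whose cube root is in `K` is a cube -/
theorem int_cube {K : Type} [Field K] [CharZero K] {ι : Eis →+* K} {c : K →ₐ[ℚ] K}
    (hK : KF K ι c) {A : ℤ} (hA : A ≠ 0) {z : K} (hz : z ^ 3 = (A : K)) :
    ∃ n : ℤ, n ^ 3 = A := by
  obtain ⟨e, d, hd, he⟩ := hK.frac z
  have h1 : ι (e ^ 3) = ι ((A * d ^ 3 : ℤ) : Eis) := by
    rw [map_pow, ← he, map_intCast]
    push_cast
    rw [← hz]
    ring
  have h2 : e ^ 3 = ((A * d ^ 3 : ℤ) : Eis) := hK.inj h1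
  have h3 : norm e ^ 3 = (A * d ^ 3) ^ 2 := by
    have h4 := congrArg norm h2
    have h5 : norm (e ^ 3) = norm e ^ 3 := by
      rw [pow_succ, pow_succ, pow_one, norm_mul, norm_mul]
      ring
    rw [h5, norm_intCast] at h4
    exact h4
  have hB : A * d ^ 3 ≠ 0 := mul_ne_zero hA (pow_ne_zero _ hd)
  generalize hBdef : A * d ^ 3 = B at *
  have h6 : norm e ^ 3 ∣ B ^ 3 := ⟨B, by rw [h3]; ring⟩
  have h7 : norm e ∣ B := (Int.pow_dvd_pow_iff (by norm_num)).1 h6
  obtain ⟨m, hm⟩ := h7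
  have h8 : B = m ^ 3 := by
    have h9 : B ^ 2 * B = B ^ 2 * m ^ 3 := by
      rw [← h3]
      have : B ^ 2 * B = B ^ 3 := by ring
      rw [h3, this]
      conv_lhs => rw [hm]
      rw [← h3]
      ring
    exact mul_left_cancel₀ (pow_ne_zero 2 hB) h9
  have h10 : d ^ 3 ∣ m ^ 3 := ⟨A, by rw [← h8, ← hBdef]; ring⟩
  have h11 : d ∣ m := (Int.pow_dvd_pow_iff (by norm_num)).1 h10
  obtain ⟨n, hn⟩ := h11
  refine ⟨n, ?_⟩
  have h12 : d ^ 3 * n ^ 3 = d ^ 3 * A := by
    have : A * d ^ 3 = (d * n) ^ 3 := by rw [hBdef, h8, hn]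
    linear_combination -this
  exact mul_left_cancel₀ (pow_ne_zero 3 hd) h12

/-- the point of the isogeny -/
theorem theta {K : Type} [Field K] [DecidableEq K] {W : WeierstrassCurve.Affine K} {z s : K}
    (D : KOM.Dt W z (s ^ 2)) (g h x y : K) (hx : x = g * h) (h1 : h ^ 3 = y + s)
    (h2 : g ^ 3 = y - s) (hxy : W.Nonsingular x y) :
    ∃ (X Y : K) (H0 : W.Nonsingular X Y) (H1 : W.Nonsingular (z * X) Y)
      (H2 : W.Nonsingular (z * (z * X)) Y),
      (Point.some x y hxy : W.Point) = Point.some (z * X) Y H1 - Point.some (z * (z * X)) Y H2 := by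
  have two := D.two
  have hz := D.rel
  have hs : s ≠ 0 := by
    intro h0
    exact D.B0 (by rw [h0]; ring)
  have h3 : (h ^ 2 + h * g + g ^ 2) * (h - g) = 2 * s := by
    linear_combination h1 - h2
  have hq : h ^ 2 + h * g + g ^ 2 ≠ 0 := by
    intro h0
    rw [h0, zero_mul] at h3
    exact mul_ne_zero two hs h3.symm
  set q := h ^ 2 + h * g + g ^ 2 with hqd
  have hne : ¬ (z * -q = z * (z * -q)) := by
    intro h0
    have h4 : (z * -q) * (1 - z) = 0 := by linear_combination h0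
    rcases mul_eq_zero.1 h4 with h5 | h5
    · rcases mul_eq_zero.1 h5 with h6 | h6
      · exact D.z0 h6
      · exact hq (neg_eq_zero.1 h6)
    · exact D.ne1 (sub_eq_zero.1 h5).symm
  have H0 : W.Nonsingular (-q) (-(z - z ^ 2) * q * (h + g) / 2) := by
    rw [D.ns]
    have hs' : s = q * (h - g) / 2 := by
      rw [eq_div_iff two]; linear_combination -h3
    have hd : (z - z ^ 2) ^ 2 = -3 := by
      linear_combination (z ^ 2 - 3 * z + 3) * hz
    have e1 : (-(z - z ^ 2) * q * (h + g) / 2) ^ 2 = (z - z ^ 2) ^ 2 * (q * (h + g) / 2) ^ 2 := by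
      ring
    rw [e1, hd, hs', hqd]
    field_simp
    ring
  refine ⟨-q, -(z - z ^ 2) * q * (h + g) / 2, H0, D.ns' H0, D.ns' (D.ns' H0), ?_⟩
  set Y := -(z - z ^ 2) * q * (h + g) / 2 with hY
  have hY2 : 2 * Y = -(z - z ^ 2) * q * (h + g) := by
    rw [hY]; field_simp
  rw [sub_eq_add_neg, Point.neg_some]
  have hne' : ¬ (z * -q = z * (z * -q) ∧ Y = W.negY (z * (z * -q)) (W.negY (z * (z * -q)) Y)) :=
    fun h0 => hne h0.1
  rw [Point.add_some hne']
  have hsl : W.slope (z * -q) (z * (z * -q)) Y (W.negY (z * (z * -q)) Y) = h + g := by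
    rw [KOM.Dt.slope_ne _ _ _ _ hne, D.negY, div_eq_iff (sub_ne_zero.2 hne)]
    linear_combination hY2
  apply KOM.some_congr
  · rw [D.addX, hsl, hx, hqd]
    linear_combination (-(h ^ 2 + h * g + g ^ 2)) * hz
  · rw [D.addY, hsl]
    apply mul_left_cancel₀ two
    have h5 : 2 * y = h ^ 3 + g ^ 3 := by linear_combination -h1 - h2
    have h6 : q = h ^ 2 + h * g + g ^ 2 := hqd
    linear_combination h5 + hY2 + 3 * (h + g) * q * hz - 3 * (h + g) * h6

end KKE

theorem KKE_thm (h0 : Stmt_KEQ) : Stmt_KKE := by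
  intro K _ _ _ ι c A hK hA hcube om hom _ Q hQ
  obtain ⟨hns, hs2, hs, -, hrel, hne⟩ := h0 K ι c A hK hA
  have hAK : (A : K) ≠ 0 := by exact_mod_cast hA
  obtain ⟨g, hg⟩ := hQ
  rcases Q with _ | ⟨x, y, hxy⟩
  · refine ⟨0, ?_⟩
    rw [map_zero, map_zero, sub_zero]
    rfl
  have hB : sD ι A ^ 2 ≠ 0 := pow_ne_zero 2 hs
  have D : KOM.Dt (WeierstrassCurve.Affine.baseChange (CubeRank.EA A).toAffine K) (ι w)
      (sD ι A ^ 2) := by
    refine ⟨?_, ?_, ?_, ?_, hB, two_ne_zero, ?_, hrel, hne⟩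
    · show algebraMap ℚ K 0 = 0
      exact map_zero _
    · show algebraMap ℚ K 0 = 0
      exact map_zero _
    · show algebraMap ℚ K 0 = 0
      exact map_zero _
    · show algebraMap ℚ K 0 = 0
      exact map_zero _
    · intro x y
      rw [hns x y, hs2]
      constructor
      · intro h; rw [h]; ring
      · intro h; rw [h]; ring
  have hE : y ^ 2 = x ^ 3 + sD ι A ^ 2 := (D.ns x y).1 hxy
  have hd2 : (ι w - ι w ^ 2) ^ 2 = -3 := by
    linear_combination (ι w ^ 2 - 3 * ι w + 3) * hrel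
  have hd0 : ι w - ι w ^ 2 ≠ 0 := by
    intro h
    rw [h] at hd2
    norm_num at hd2
  by_cases hy : y = sD ι A
  · exfalso
    apply hcube
    have e1 : kap ι (Point.some x y hxy : HH A K) = (y + sD ι A) ^ 2 := if_pos hy
    have e2 : g ^ 3 = -1728 * (A : K) ^ 2 := by
      rw [← hg, e1, hy]
      linear_combination 4 * hs2
    apply KKE.int_cube hK hA (z := (g / 12) ^ 2 / A)
    have e3 : ((g / 12) ^ 2 / (A : K)) ^ 3 = (g ^ 3) ^ 2 / (12 ^ 6 * (A : K) ^ 3) := by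
      field_simp
    rw [e3, e2]
    field_simp
    norm_num
  by_cases hy' : y = -sD ι A
  · exfalso
    apply hcube
    have e1 : kap ι (Point.some x y hxy : HH A K) = y - sD ι A := if_neg hy
    have e2 : g ^ 3 = -24 * (A : K) * (ι w - ι w ^ 2) := by
      rw [← hg, e1, hy', sD]
      ring
    apply KKE.int_cube hK hA (z := g / (2 * (ι w - ι w ^ 2)))
    rw [div_pow, e2, div_eq_iff (pow_ne_zero 3 (mul_ne_zero two_ne_zero hd0))]
    linear_combination (-8 * (A : K) * (ι w - ι w ^ 2)) * hd2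
  have e1 : kap ι (Point.some x y hxy : HH A K) = y - sD ι A := if_neg hy
  have e2 : g ^ 3 = y - sD ι A := by rw [← hg, e1]
  have hg0 : g ≠ 0 := by
    intro h
    rw [h] at e2
    apply hy
    linear_combination -e2
  have e3 : (x / g) ^ 3 = y + sD ι A := by
    rw [div_pow, div_eq_iff (pow_ne_zero 3 hg0), e2]
    linear_combination -hE
  have e4 : x = g * (x / g) := by field_simp
  obtain ⟨X, Y, H0, H1, H2, he⟩ := KKE.theta D g (x / g) x y e4 e3 e2 hxy
  refine ⟨Point.some X Y H0, ?_⟩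
  obtain ⟨H1', k1⟩ := hom X Y H0
  obtain ⟨H2', k2⟩ := hom _ _ H1'
  rw [k1, k2]
  exact he

end Pool.Agent.PTN

end

section

/-!
# Frobenius elements and the pattern, for both prime factors
-/

open NumberField IsDedekindDomain Finset
open scoped nonZeroDivisors Pointwise

namespace Pool.Agent.PTN

open Pool.Agent.Lib_helper18 Pool.Agent.Lib_helper18.Eis Pool.Agent.Lib_helper84.Cub
open Pool.Agent.PT Pool.Agent.PTE Pool.Agent.PT3 Pool.Agent.PTL

namespace GFRU

theorem conj_lf1 (p q r : ℤ) : conj (Lf p q 1 r) = Lf p q 2 r := by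
  simp only [Lf, map_add, map_mul, conj_intCast, pow_one, conj_w]

theorem conj_lf2 (p q r : ℤ) : conj (Lf p q 2 r) = Lf p q 1 r := by
  rw [← conj_lf1, conj_conj]

/-- complex conjugation and the symbols of rational integers and of the linear forms -/
structure CJ (ρ : Eis) (Q : ℕ) : Prop where
  hd : ∀ x : ℤ, ρ ∣ (x : Eis) ↔ (Q : ℤ) ∣ x
  cj : ∀ a : Eis, ¬ ρ ∣ a → sym (conj ρ) (conj a) = - sym ρ a

theorem CJ.int {ρ : Eis} {Q : ℕ} (h : CJ ρ Q) {x : ℤ} (hx : ¬ (Q : ℤ) ∣ x) :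
    sym (conj ρ) (x : Eis) = - sym ρ (x : Eis) := by
  have h1 := h.cj (x : Eis) (fun h2 => hx ((h.hd x).1 h2))
  rwa [conj_intCast] at h1

theorem CJ.tauvs {ρ : Eis} {Q : ℕ} (h : CJ ρ Q) {b p q p' q' r : ℤ}
    (h1 : ¬ (Q : ℤ) ∣ p ^ 3 + b * q ^ 3) (h2 : ¬ (Q : ℤ) ∣ p' ^ 3 + b * q' ^ 3)
    (hr : (Q : ℤ) ∣ r ^ 3 - b) : TAUVS (conj ρ) p q p' q' r = TAUVS ρ p q p' q' r := by
  obtain ⟨e1, e2⟩ := PTE.GFRS.lf_not_dvd h.hd h1 hr
  obtain ⟨e1', e2'⟩ := PTE.GFRS.lf_not_dvd h.hd h2 hr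
  have a1 := h.cj _ e1
  have a2 := h.cj _ e2
  have a1' := h.cj _ e1'
  have a2' := h.cj _ e2'
  rw [conj_lf1] at a1 a1'
  rw [conj_lf2] at a2 a2'
  unfold TAUVS
  rw [a1, a2, a1', a2']
  ring

end GFRU

theorem GFRU_thm (hSPLT : SPLT) (hSPP : SPP) : Stmt_GFRU := by
  classical
  intro s b p q p' q' f L _ _ ζ ω hS hG
  let B : Fin (s + 1) → Fin (s + 1) → ℕ := fun j i => (b j).natAbs +
    (p j i ^ 3 + b j * q j i ^ 3).natAbs + (p' j i ^ 3 + b j * q' j i ^ 3).natAbs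
  refine ⟨∑ j, ∑ i, B j i, fun Q hQ hQN hQ3 P hP hQP φ hφ ρ hρQ => ?_⟩
  have hB : ∀ j i, B j i < Q := by
    intro j i
    refine lt_of_le_of_lt ?_ hQN
    have h1 : B j i ≤ ∑ i, B j i :=
      Finset.single_le_sum (f := fun i => B j i) (fun _ _ => Nat.zero_le _) (Finset.mem_univ i)
    refine h1.trans ?_
    exact Finset.single_le_sum (f := fun j => ∑ i, B j i) (fun _ _ => Nat.zero_le _)
      (Finset.mem_univ j)
  have hb : ∀ j, ¬ (Q : ℤ) ∣ b j := fun j =>
    GFR.not_dvd_of_lt (PTE.GFRS.ne_zero hS j)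
      (by have := hB j j; simp only [B] at this; omega)
  have hd1 : ∀ j i : Fin s, j ≠ i →
      ¬ (Q : ℤ) ∣ rs p j i ^ 3 + b j.castSucc * rs q j i ^ 3 ∧
      ¬ (Q : ℤ) ∣ rs p' j i ^ 3 + b j.castSucc * rs q' j i ^ 3 := by
    intro j i hji
    have hji' : j.castSucc ≠ i.castSucc := fun h => hji (Fin.castSucc_injective _ h)
    have hsol := hS.sol j.castSucc i.castSucc hji'
    have h2 : p' j.castSucc i.castSucc ^ 3 + b j.castSucc * q' j.castSucc i.castSucc ^ 3 ≠ 0 := by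
      intro h0
      refine hsol.n1 ?_
      rw [hsol.eq, h0, mul_zero]
    have hBji := hB j.castSucc i.castSucc
    simp only [B] at hBji
    have e1 := GFR.not_dvd_of_lt (Q := Q) hsol.n1 (by omega)
    have e2 := GFR.not_dvd_of_lt (Q := Q) h2 (by omega)
    exact ⟨e1, e2⟩
  obtain ⟨ωB, ρ₀, F, _, mk, z, ψ, rfl, hρ₀, D⟩ :=
    PTE.GFRS.exists_dat hSPLT hSPP hQ hP hQP hQ3 hφ hG.rel
  -- the statement for the prime factor compatible with `P`
  have key1 : Fx b φ ↔ (∀ j : Fin s, sym ρ₀.1 (b j.castSucc : Eis) = 0) ∧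
      sym ρ₀.1 (b (Fin.last s) : Eis) ≠ 0 := by
    constructor
    · intro hF
      refine ⟨fun j => ?_, ?_⟩
      · obtain ⟨θ, hθ⟩ := hG.root j.castSucc
        obtain ⟨θB, rfl, hθB⟩ := PTE.GFRS.exists_int hθ
        exact D.sym_zero hθB (hb _) (RingOfIntegers.coe_injective (hF.1 j _ hθ))
      · obtain ⟨θ, hθ⟩ := hG.root (Fin.last s)
        obtain ⟨θB, rfl, hθB⟩ := PTE.GFRS.exists_int hθ
        exact D.sym_ne hθB (hb _) fun h => hF.2 _ hθ (congrArg (fun x : 𝓞 L => (x : L)) h)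
    · rintro ⟨h1, h2⟩
      refine ⟨fun j θ hθ => ?_, fun θ hθ h => ?_⟩
      · obtain ⟨θB, rfl, hθB⟩ := PTE.GFRS.exists_int hθ
        by_contra h3
        exact D.sym_ne hθB (hb _)
          (fun h => h3 (congrArg (fun x : 𝓞 L => (x : L)) h)) (h1 j)
      · obtain ⟨θB, rfl, hθB⟩ := PTE.GFRS.exists_int hθ
        exact h2 (D.sym_zero hθB (hb _) (RingOfIntegers.coe_injective h))
  have key2 : Fx b φ → ∀ j i : Fin s, j ≠ i → ∀ (r : ℤ) (t : ZMod 3),
      (Q : ℤ) ∣ r ^ 3 - b j.castSucc →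
      IsTS b p q p' q' (ωB : L) φ j.castSucc i.castSucc t →
      t = TAUVS ρ₀.1 (rs p j i) (rs q j i) (rs p' j i) (rs q' j i) r := by
    intro hF j i hji r t hr ht
    have hji' : j.castSucc ≠ i.castSucc := fun h => hji (Fin.castSucc_injective _ h)
    obtain ⟨e1, e2⟩ := hd1 j i hji
    obtain ⟨θ₀, hθ₀⟩ := hG.root j.castSucc
    obtain ⟨θ₁, rfl, hθ₁⟩ := PTE.GFRS.exists_int hθ₀
    obtain ⟨θ, hθ, hrθ⟩ := D.exists_root hr hθ₁
    have hθL : (θ : L) ^ 3 = (b j.castSucc : L) := by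
      rw [← map_pow, hθ, map_intCast]
    obtain ⟨A, hA⟩ := hG.A j.castSucc i.castSucc hji' θ hθL
    exact D.core e1 e2 hr hrθ (hF.1 j θ hθL) hA (ht θ A hθL hA)
  -- the other prime factor
  obtain ⟨-, -, h3, h4, h5, -⟩ := hSPLT.2 Q ρ₀ hQ hQ3 hρ₀
  have hC : GFRU.CJ ρ₀.1 Q := ⟨h4, h5⟩
  rcases h3 ρ ⟨conj ρ.1, hρQ⟩ with h6 | h6
  · rw [h6]
    exact ⟨key1, key2⟩
  · rw [h6]
    refine ⟨?_, fun hF j i hji r t hr ht => ?_⟩
    · rw [key1]
      refine and_congr (forall_congr' fun j => ?_) ?_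
      · rw [hC.int (hb _), neg_eq_zero]
      · rw [hC.int (hb _), ne_eq, ne_eq, neg_eq_zero]
    · rw [hC.tauvs (hd1 j i hji).1 (hd1 j i hji).2 hr]
      exact key2 hF j i hji r t hr ht

end Pool.Agent.PTN

end

section

/-!
# CAB: averages in a class
-/

set_option autoImplicit false

open NumberField IsDedekindDomain Finset
open scoped nonZeroDivisors Pointwise

namespace Pool.Agent.PTN

open Pool.Agent.Lib_helper18 Pool.Agent.Lib_helper18.Eis Pool.Agent.Lib_helper84.Cub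
open Pool.Agent.PT Pool.Agent.PTE Pool.Agent.PT3 Pool.Agent.PTL

namespace CAB

theorem F_nonneg {F : ℕ → ℝ} (hF : Monotone F) (h0 : 0 ≤ F 0) (n : ℕ) : 0 ≤ F n :=
  h0.trans (hF (Nat.zero_le n))

/-- the two descriptions of the class -/
theorem kl_iff (hSPP : SPP) {n m k : ℕ} {π : Fin m → PP} {p e : Fin m → ℕ} {r f : Fin k → ℕ}
    (hN : NF n π p e r f) (w0 : ZMod 3) (c : Fin m → ZMod 3) {q : ℕ} (hq : q.Prime)
    (hqp : ∀ i, q ≠ p i) (E : ℕ) : Kl π w0 c ((q : ℤ) ^ E) ↔ InCT E π w0 c q := by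
  unfold Kl InCT
  refine and_congr_right fun _ => forall_congr' fun i => ?_
  have : Fact (p i).Prime := ⟨hN.pp i⟩
  have hn := CLSC.norm_of _ _ (hN.pπ i)
  have hd : ¬ (π i).1 ∣ (q : Eis) := by
    rw [dvd_natCast_iff hn]
    intro h
    exact hqp i ((Nat.prime_dvd_prime_iff_eq (hN.pp i) hq).1 h).symm
  have h1 := Eis.sym_pow (π i).2.1 (hSPP.2.2.2.1 (π i)).1 hd E
  push_cast
  rw [h1]

open Classical in
/-- from the class in the sense of `InCT` to the class in the sense of `Kl` -/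
theorem above_of (hSPP : SPP) {h n m k : ℕ} {π : Fin m → PP} {p e : Fin m → ℕ} {r f : Fin k → ℕ}
    (hN : NF n π p e r f) (w0 : ZMod 3) (c : Fin m → ZMod 3) (a : ℕ) {F : ℕ → ℝ}
    (hF : Monotone F) (h0 : 0 ≤ F 0) {x : ℝ} (S : ℕ → Set ℕ)
    (hS : ∀ E q, q ∈ S E ↔ q % 3 = a ∧ InCT E π w0 c q)
    (H : ∃ K : ℝ, ∀ σ : ℝ, 1 < σ → σ ≤ 2 → ∀ T : Finset ℕ,
      ∑ E ∈ ({1, 2} : Finset ℕ), ∑ q ∈ T,
        (if q.Prime ∧ q ∈ S E then
          F (CubeRank.rr (BB h n E q)) * (q : ℝ) ^ (-σ) else 0) ≤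
        x * Real.log (1 / (σ - 1)) + K) :
    AboveA ((3 ^ h * n : ℕ) : ℤ) a (Kl π w0 c) (fun A => F (CubeRank.rr A)) x := by
  obtain ⟨K, hK⟩ := H
  refine ⟨K + ∑ E ∈ ({1, 2} : Finset ℕ), ∑ q ∈ univ.image p,
    F (CubeRank.rr (BB h n E q)), fun σ h1 h2 T => ?_⟩
  have e1 := hK σ h1 h2 T
  have e2 : SumA ((3 ^ h * n : ℕ) : ℤ) a (Kl π w0 c) (fun A => F (CubeRank.rr A)) σ T ≤
      ∑ E ∈ ({1, 2} : Finset ℕ), ∑ q ∈ T,
        (if q.Prime ∧ q ∈ S E then
          F (CubeRank.rr (BB h n E q)) * (q : ℝ) ^ (-σ) else 0) +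
      ∑ E ∈ ({1, 2} : Finset ℕ), ∑ q ∈ univ.image p, F (CubeRank.rr (BB h n E q)) := by
    unfold SumA
    rw [← Finset.sum_add_distrib]
    refine Finset.sum_le_sum fun E _ => ?_
    have hFn := F_nonneg hF h0
    have hB : ∀ q : ℕ, ((3 ^ h * n : ℕ) : ℤ) * (q : ℤ) ^ E = BB h n E q := by
      intro q
      unfold BB
      push_cast
      ring
    have e3 : ∑ q ∈ T, (if q ∈ univ.image p then F (CubeRank.rr (BB h n E q)) else 0) ≤
        ∑ q ∈ univ.image p, F (CubeRank.rr (BB h n E q)) := by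
      rw [← Finset.sum_filter]
      refine Finset.sum_le_sum_of_subset_of_nonneg ?_ fun q _ _ => hFn _
      intro q hq
      exact (Finset.mem_filter.1 hq).2
    refine le_trans ?_ (add_le_add_right e3 _)
    rw [← Finset.sum_add_distrib]
    refine Finset.sum_le_sum fun q _ => ?_
    have hpos : 0 ≤ F (CubeRank.rr (BB h n E q)) * (q : ℝ) ^ (-σ) :=
      mul_nonneg (hFn _) (Real.rpow_nonneg (Nat.cast_nonneg q) _)
    rw [hB]
    by_cases hqp : q ∈ univ.image p
    · rw [if_pos hqp]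
      have hle : (if q.Prime ∧ q % 3 = a ∧ Kl π w0 c ((q : ℤ) ^ E) then
          F (CubeRank.rr (BB h n E q)) * (q : ℝ) ^ (-σ) else 0) ≤
          F (CubeRank.rr (BB h n E q)) := by
        split_ifs with hc
        · refine mul_le_of_le_one_right (hFn _) ?_
          exact Real.rpow_le_one_of_one_le_of_nonpos (by exact_mod_cast hc.1.one_lt.le)
            (by linarith)
        · exact hFn _
      have hge : 0 ≤ (if q.Prime ∧ q ∈ S E then
          F (CubeRank.rr (BB h n E q)) * (q : ℝ) ^ (-σ) else 0) := by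
        split_ifs
        · exact hpos
        · exact le_refl 0
      linarith
    · rw [if_neg hqp, add_zero]
      by_cases hq : q.Prime
      · have hqi : ∀ i, q ≠ p i := fun i hi => hqp (Finset.mem_image.2 ⟨i, mem_univ _, hi.symm⟩)
        have hiff := kl_iff hSPP hN w0 c hq hqi E
        refine le_of_eq ?_
        refine if_congr ?_ rfl rfl
        rw [hS, hiff]
      · rw [if_neg fun hc => hq hc.1, if_neg fun hc => hq hc.1]
  linarith

end CAB

open _root_.Pool.Agent.PTN.CAB in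
theorem CAB_thm (hSPP : SPP) (hCLN : Stmt_CLN) (hCLU : Stmt_CLU) (hDOMG : Stmt_DOMG)
    (hLAW : Stmt_LAW) : Stmt_CAB := by
  classical
  intro h n m k π p e r f w0 c hN hh F hF h0
  obtain ⟨hL1, hL2, -⟩ := hLAW
  obtain ⟨⟨M, hM⟩, hT⟩ := hCLN h n m k π p e r f w0 c hN hh
  obtain ⟨⟨M', hM'⟩, hT'⟩ := hCLU h n m k π p e r f w0 c hN hh
  set s := sN h n π p e r w0 c with hs
  set v := vN h n π p e r w0 c with hv
  constructor
  · refine above_of hSPP hN w0 c 2 hF h0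
      (fun E => {q : ℕ | q % 3 = 2 ∧ InCT E π w0 c q}) (fun E q => Iff.rfl) ?_
    obtain ⟨K, hK⟩ := hDOMG (fun E => {q : ℕ | q % 3 = 2 ∧ InCT E π w0 c q})
      (fun E q => CubeRank.rr (BB h n E q)) (fun t => LI s (t - v) / 3 ^ (m + 1)) M (v + s) F
      (fun E q hE hq hMq hqS => CubeRank.rr_le (hM E q hE hq hMq hqS.1 hqS.2))
      (fun t => by
        obtain ⟨K, hK⟩ := hT t
        refine ⟨K, fun σ h1 h2 => ?_⟩
        have e1 := hK σ h1 h2
        have e2 : ∀ E : ℕ, {q : ℕ | q ∈ {q : ℕ | q % 3 = 2 ∧ InCT E π w0 c q} ∧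
            t ≤ CubeRank.rr (BB h n E q)} = WR h n π w0 c 2 E t := by
          intro E
          ext q
          exact and_assoc
        rw [e2, e2]
        exact e1) hF h0
    refine ⟨K, fun σ h1 h2 T => (hK σ h1 h2 T).trans_eq ?_⟩
    rw [← hL1 s v F, add_div, Finset.sum_div]
    simp only [mul_div_assoc]
  · refine above_of hSPP hN w0 c 1 hF h0
      (fun E => {q : ℕ | q % 3 = 1 ∧ InCT E π w0 c q}) (fun E q => Iff.rfl) ?_
    obtain ⟨K, hK⟩ := hDOMG (fun E => {q : ℕ | q % 3 = 1 ∧ InCT E π w0 c q})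
      (fun E q => CubeRank.rr (BB h n E q)) (fun t => LS s v t / 3 ^ (m + 1)) M' (v + s + 1) F
      (fun E q hE hq hMq hqS =>
        (CubeRank.rr_le (hM' E q hE hq hMq hqS.1 hqS.2)).trans (by omega))
      (fun t => by
        obtain ⟨K, hK⟩ := hT' t
        refine ⟨K, fun σ h1 h2 => ?_⟩
        have e1 := hK σ h1 h2
        have e2 : ∀ E : ℕ, {q : ℕ | q ∈ {q : ℕ | q % 3 = 1 ∧ InCT E π w0 c q} ∧
            t ≤ CubeRank.rr (BB h n E q)} = WR h n π w0 c 1 E t := by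
          intro E
          ext q
          exact and_assoc
        rw [e2, e2]
        exact e1) hF h0
    refine ⟨K, fun σ h1 h2 T => (hK σ h1 h2 T).trans_eq ?_⟩
    rw [← hL2 s v F, add_div, Finset.sum_div]
    simp only [mul_div_assoc]

end Pool.Agent.PTN

end
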