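import Mathlib
import Pool.Agent.PTWX.C16

/-! Parts: PT.DCONST, PTE.DCONSTS, PTL.DC, PT3.DCOU, PT3.LL1, PT.F3R, PT3.EADU, PT.FD2, PTE.FD2S, PT.NHO, PT3.DCOT -/

namespace Pool.Agent.PT.DCONST
end Pool.Agent.PT.DCONST

namespace Pool.Agent.PTE.DCONSTS
end Pool.Agent.PTE.DCONSTS

namespace Pool.Agent.PT3.LL1
end Pool.Agent.PT3.LL1

namespace Pool.Agent.PT.F3R
end Pool.Agent.PT.F3R

namespace Pool.Agent.PT3.EADU
end Pool.Agent.PT3.EADU

namespace Pool.Agent.PT.FD2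
end Pool.Agent.PT.FD2

namespace Pool.Agent.PT.NHO
end Pool.Agent.PT.NHO

section

/-!
# Prime twists of rank zero: the pairing as a function of the prime
-/

set_option autoImplicit false

namespace Pool.Agent.PT

open Pool.Agent.Lib_helper18 Pool.Agent.Lib_helper18.Eis Pool.Agent.Lib_helper84.Cub

namespace DCONST

lemma cast_ne {n : ℤ} (h : n ≠ 0) : ((n : ℤ) : Eis) ≠ 0 := by
  intro h1
  apply h
  have h2 := congrArg Eis.re h1
  simpa using h2

lemma Lf_mul (p q r : ℤ) (i : ℕ) :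
    Lf p q i r * ((p : Eis) ^ 2 - p * (q * w ^ i * r) + (q * w ^ i * r) ^ 2) =
      (p : Eis) ^ 3 + (q : Eis) ^ 3 * (r : Eis) ^ 3 := by
  have h2 : (w ^ i) ^ 3 = 1 := by rw [← pow_mul, mul_comm, pow_mul, w_cube, one_pow]
  unfold Lf
  linear_combination ((q : Eis) ^ 3 * (r : Eis) ^ 3) * h2

/-- The linear forms at good approximations have bounded valuation. -/
lemma Lf_ndvd {u : Eis} {b p q r : ℤ} (hr : u ∣ (r : Eis) ^ 3 - (b : Eis))
    (h : ¬ u ∣ ((p ^ 3 + b * q ^ 3 : ℤ) : Eis)) (i : ℕ) : ¬ u ∣ Lf p q i r := by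
  intro hd
  apply h
  have h1 : ((p ^ 3 + b * q ^ 3 : ℤ) : Eis) =
      Lf p q i r * ((p : Eis) ^ 2 - p * (q * w ^ i * r) + (q * w ^ i * r) ^ 2) -
        (q : Eis) ^ 3 * ((r : Eis) ^ 3 - (b : Eis)) := by
    rw [Lf_mul]
    push_cast
    ring
  rw [h1]
  exact dvd_sub (dvd_mul_of_dvd_left hd _) (dvd_mul_of_dvd_right hr _)

lemma ndvd_pow {u a : Eis} (hu : Prime u) (ha : a ≠ 0) {K : ℕ} (h : V u a ≤ K) :
    ¬ u ^ (K + 1) ∣ a :=
  (fin hu ha).multiplicity_lt_iff_not_dvd.1 (Nat.lt_succ_of_le h)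

lemma ne_of_ndvd {u a : Eis} (h : ¬ u ∣ a) : a ≠ 0 := by
  rintro rfl
  exact h (dvd_zero _)

lemma V_le_of_ndvd {u a : Eis} (hu : Prime u) {K : ℕ} (h : ¬ u ^ (K + 1) ∣ a) : V u a ≤ K :=
  Nat.le_of_lt_succ ((fin hu (ne_of_ndvd h)).multiplicity_lt_iff_not_dvd.2 h)

/-- a symbol does not see small changes of its second argument -/
lemma LSym.cont' {u : Eis} {s : Eis → Eis → ZMod 3} {e : ℕ} (h : LSym u s e) {B a a' : Eis}
    (hB : B ≠ 0) (ha : a ≠ 0) (ha' : a' ≠ 0) (hd : u ^ (V u a + e) ∣ a' - a) :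
    s B a' = s B a := by
  rw [h.skew a' B ha' hB, h.skew a B ha hB, h.cont a a' B ha hB hd]

lemma Lf_cont {u : Eis} {s : Eis → Eis → ZMod 3} {e : ℕ} (h : LSym u s e) {b p q r r' : ℤ}
    {K : ℕ} (hn : ¬ u ^ (K + 1) ∣ ((p ^ 3 + b * q ^ 3 : ℤ) : Eis))
    (hr : u ^ (K + 1) ∣ (r : Eis) ^ 3 - (b : Eis)) (hr' : u ^ (K + 1) ∣ (r' : Eis) ^ 3 - (b : Eis))
    (hrr : u ^ (K + e) ∣ (r' : Eis) - r) {B : Eis} (hB : B ≠ 0) (i : ℕ) :
    s B (Lf p q i r') = s B (Lf p q i r) := by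
  have h1 := Lf_ndvd hr hn i
  have h2 := Lf_ndvd hr' hn i
  refine LSym.cont' h hB (ne_of_ndvd h1) (ne_of_ndvd h2) ?_
  have h3 : Lf p q i r' - Lf p q i r = (q * w ^ i) * ((r' : Eis) - r) := by
    unfold Lf
    ring
  rw [h3]
  refine dvd_mul_of_dvd_right ((pow_dvd_pow u ?_).trans hrr) _
  have := V_le_of_ndvd h.prime h1
  omega

/-- a fixed good approximation of a cube root -/
lemma exists_root {u : Eis} {s : Eis → Eis → ZMod 3} {e : ℕ} (h : LSym u s e)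
    {b p q p' q' : ℤ} (hn : p ^ 3 + b * q ^ 3 ≠ 0) (hn' : p' ^ 3 + b * q' ^ 3 ≠ 0)
    (hLC : LC u b) : ∃ r : ℤ, (∀ i, Lf p q i r ≠ 0) ∧ (∀ i, Lf p' q' i r ≠ 0) ∧
      ∀ (B : Eis) (c : ZMod 3) (N0 : ℕ), B ≠ 0 → (∀ r : ℤ, u ^ N0 ∣ (r : Eis) ^ 3 - (b : Eis) →
        AS s B p q p' q' r = c) → AS s B p q p' q' r = c := by
  have hu := h.prime
  set K := V u ((p ^ 3 + b * q ^ 3 : ℤ) : Eis) + V u ((p' ^ 3 + b * q' ^ 3 : ℤ) : Eis) with hK
  have k1 : ¬ u ^ (K + 1) ∣ ((p ^ 3 + b * q ^ 3 : ℤ) : Eis) :=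
    ndvd_pow hu (cast_ne hn) (Nat.le_add_right _ _)
  have k2 : ¬ u ^ (K + 1) ∣ ((p' ^ 3 + b * q' ^ 3 : ℤ) : Eis) :=
    ndvd_pow hu (cast_ne hn') (Nat.le_add_left _ _)
  choose ρ hρ using hLC
  have hNu : 1 < N u := N_prime hu
  set m := (N u) ^ (K + e) with hm
  have hm0 : m ≠ 0 := pow_ne_zero _ (by omega)
  have : NeZero m := ⟨hm0⟩
  have hum : u ^ (K + e) ∣ ((m : ℤ) : Eis) := by
    have h1 : u ∣ ((N u : ℤ) : Eis) := by
      rw [N_cast, ← mul_conj]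
      exact Dvd.intro _ rfl
    have h2 := pow_dvd_pow_of_dvd h1 (K + e)
    rw [hm]
    push_cast
    push_cast at h2
    exact h2
  obtain ⟨y, hy⟩ := Finite.exists_infinite_fiber (fun N : ℕ => ((ρ N : ℤ) : ZMod m))
  have hinf : ((fun N : ℕ => ((ρ N : ℤ) : ZMod m)) ⁻¹' {y}).Infinite := Set.infinite_coe_iff.1 hy
  obtain ⟨N1, hN1, hN1'⟩ := hinf.exists_gt K
  have lev : ∀ N, K < N → u ^ (K + 1) ∣ ((ρ N : ℤ) : Eis) ^ 3 - (b : Eis) :=
    fun N hN => (pow_dvd_pow u hN).trans (hρ N)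
  refine ⟨ρ N1, fun i => ne_of_ndvd (Lf_ndvd (lev N1 hN1') k1 i),
    fun i => ne_of_ndvd (Lf_ndvd (lev N1 hN1') k2 i), ?_⟩
  intro B c N0 hB hc
  obtain ⟨N2, hN2, hN2'⟩ := hinf.exists_gt (max K N0)
  have h2 := hc (ρ N2) ((pow_dvd_pow u ((le_max_right K N0).trans hN2'.le)).trans (hρ N2))
  have hrr : u ^ (K + e) ∣ ((ρ N1 : ℤ) : Eis) - ((ρ N2 : ℤ) : Eis) := by
    have h3 : ((ρ N2 : ℤ) : ZMod m) = ((ρ N1 : ℤ) : ZMod m) := by
      rw [Set.mem_preimage, Set.mem_singleton_iff] at hN1 hN2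
      rw [hN1, hN2]
    have h4 : (m : ℤ) ∣ ρ N1 - ρ N2 := (ZMod.intCast_eq_intCast_iff_dvd_sub _ _ _).1 h3
    have h5 : ((m : ℤ) : Eis) ∣ ((ρ N1 - ρ N2 : ℤ) : Eis) := intCast_dvd_intCast.2 h4
    rw [Int.cast_sub] at h5
    exact hum.trans h5
  have l2 := lev N2 ((le_max_left K N0).trans_lt hN2')
  have l1 := lev N1 hN1'
  rw [← h2]
  unfold AS
  rw [Lf_cont h k1 l2 l1 hrr hB 2, Lf_cont h k2 l2 l1 hrr hB 1, Lf_cont h k1 l2 l1 hrr hB 1,
    Lf_cont h k2 l2 l1 hrr hB 2]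

/-- a homomorphism from a periodic multiplicative function -/
lemma exists_hom {f : ℕ} (hf : 1 < f) (ψ : ℤ → ZMod 3)
    (hmul : ∀ a b : ℤ, IsCoprime a (f : ℤ) → IsCoprime b (f : ℤ) → ψ (a * b) = ψ a + ψ b)
    (hper : ∀ a b : ℤ, IsCoprime a (f : ℤ) → IsCoprime b (f : ℤ) → (f : ℤ) ∣ b - a → ψ b = ψ a) :
    ∃ Φ : (ZMod f)ˣ →* Multiplicative (ZMod 3), ∀ (Q : ℕ) (hQ : Q.Coprime f),
      (Φ (ZMod.unitOfCoprime Q hQ)).toAdd = ψ Q := by
  have : NeZero f := ⟨by omega⟩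
  have hcop : ∀ u : (ZMod f)ˣ, IsCoprime (((u : ZMod f).val : ℕ) : ℤ) (f : ℤ) := fun u =>
    Nat.isCoprime_iff_coprime.2 (ZMod.val_coe_unit_coprime u)
  have h1 : ψ 1 = 0 := by
    have h2 := hmul 1 1 isCoprime_one_left isCoprime_one_left
    rw [mul_one] at h2
    exact left_eq_add.1 h2
  refine ⟨⟨⟨fun u => Multiplicative.ofAdd (ψ (((u : ZMod f).val : ℕ) : ℤ)), ?_⟩, ?_⟩, ?_⟩
  · rw [← ofAdd_zero]
    congr 1
    rw [Units.val_one, ← h1]
    have : Fact (1 < f) := ⟨hf⟩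
    rw [ZMod.val_one]
    rfl
  · intro u v
    show Multiplicative.ofAdd (ψ ((((u * v : (ZMod f)ˣ) : ZMod f).val : ℕ) : ℤ)) =
      Multiplicative.ofAdd (ψ (((u : ZMod f).val : ℕ) : ℤ)) *
        Multiplicative.ofAdd (ψ (((v : ZMod f).val : ℕ) : ℤ))
    rw [← ofAdd_add, ← hmul _ _ (hcop u) (hcop v)]
    congr 1
    refine hper _ _ ((hcop u).mul_left (hcop v)) (hcop (u * v)) ?_
    rw [← ZMod.intCast_eq_intCast_iff_dvd_sub]
    push_cast
    rw [ZMod.natCast_zmod_val, ZMod.natCast_zmod_val, ZMod.natCast_zmod_val]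
  · intro Q hQ
    show ψ ((((ZMod.unitOfCoprime Q hQ : (ZMod f)ˣ) : ZMod f).val : ℕ) : ℤ) = ψ Q
    refine hper _ _ (Nat.isCoprime_iff_coprime.2 hQ) (hcop _) ?_
    rw [← ZMod.intCast_eq_intCast_iff_dvd_sub]
    push_cast
    rw [ZMod.natCast_zmod_val, ZMod.coe_unitOfCoprime]

lemma AS_mul {u : Eis} {s : Eis → Eis → ZMod 3} {e : ℕ} (h : LSym u s e) {p q p' q' r : ℤ}
    (hr : ∀ i, Lf p q i r ≠ 0) (hr' : ∀ i, Lf p' q' i r ≠ 0) {A B : Eis} (hA : A ≠ 0)
    (hB : B ≠ 0) : AS s (A * B) p q p' q' r = AS s A p q p' q' r + AS s B p q p' q' r := by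
  unfold AS
  rw [h.mul A B _ hA hB (hr 2), h.mul A B _ hA hB (hr' 1), h.mul A B _ hA hB (hr 1),
    h.mul A B _ hA hB (hr' 2)]
  ring

/-- places where `b` is a cube -/
lemma place_LC {u : Eis} {s : Eis → Eis → ZMod 3} {e : ℕ} (h : LSym u s e)
    {b p q p' q' n : ℤ} (hn0 : n ≠ 0) (hn : p ^ 3 + b * q ^ 3 ≠ 0)
    (hn' : p' ^ 3 + b * q' ^ 3 ≠ 0) (hLC : LC u b) {f : ℕ} (hf : 1 < f)
    (huf : u ^ e ∣ ((f : ℤ) : Eis)) :
    ∃ (C : ZMod 3) (Φ : (ZMod f)ˣ →* Multiplicative (ZMod 3)),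
      ∀ (Q : ℕ) (hQ : Q.Coprime f) (c : ZMod 3) (N0 : ℕ),
      (∀ r : ℤ, u ^ N0 ∣ (r : Eis) ^ 3 - (b : Eis) →
        AS s ((n * Q : ℤ) : Eis) p q p' q' r = c) →
      c = C + (Φ (ZMod.unitOfCoprime Q hQ)).toAdd := by
  obtain ⟨r, hr, hr', H⟩ := exists_root h hn hn' hLC
  have hne : ∀ a : ℤ, IsCoprime a (f : ℤ) → (a : Eis) ≠ 0 := by
    intro a ha
    apply cast_ne
    rintro rfl
    have h1 := isCoprime_zero_left.1 ha
    have h2 := Int.isUnit_iff.1 h1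
    omega
  have huf1 : u ∣ ((f : ℤ) : Eis) := by
    have h1 : u ^ 1 ∣ u ^ e := pow_dvd_pow u h.pos
    rw [pow_one] at h1
    exact h1.trans huf
  have hV : ∀ a : ℤ, IsCoprime a (f : ℤ) → V u (a : Eis) = 0 := by
    intro a ha
    apply V_eq_zero
    intro hd
    obtain ⟨x, y, hxy⟩ := ha
    apply h.prime.not_isUnit
    apply isUnit_of_dvd_one
    have h1 : (1 : Eis) = (x : Eis) * (a : Eis) + (y : Eis) * ((f : ℤ) : Eis) := by
      have h2 := congrArg (fun t : ℤ => (t : Eis)) hxy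
      simp only [Int.cast_add, Int.cast_mul, Int.cast_one] at h2
      exact h2.symm
    rw [h1]
    exact dvd_add (dvd_mul_of_dvd_right hd _) (dvd_mul_of_dvd_right huf1 _)
  obtain ⟨Φ, hΦ⟩ := exists_hom hf (fun a => AS s (a : Eis) p q p' q' r) (by
    intro a c ha hc
    show AS s ((a * c : ℤ) : Eis) p q p' q' r = _
    rw [Int.cast_mul]
    exact AS_mul h hr hr' (hne a ha) (hne c hc)) (by
    intro a c ha hc hd
    have h1 : u ^ (V u (a : Eis) + e) ∣ (c : Eis) - (a : Eis) := by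
      rw [hV a ha, zero_add, ← Int.cast_sub]
      exact huf.trans (intCast_dvd_intCast.2 hd)
    show AS s (c : Eis) p q p' q' r = AS s (a : Eis) p q p' q' r
    unfold AS
    rw [h.cont _ _ _ (hne a ha) (hr 2) h1, h.cont _ _ _ (hne a ha) (hr' 1) h1,
      h.cont _ _ _ (hne a ha) (hr 1) h1, h.cont _ _ _ (hne a ha) (hr' 2) h1])
  refine ⟨AS s (n : Eis) p q p' q' r, Φ, ?_⟩
  intro Q hQ c N0 hc
  have hQ0 : ((Q : ℤ) : Eis) ≠ 0 := hne Q (Nat.isCoprime_iff_coprime.2 hQ)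
  have hB : ((n * Q : ℤ) : Eis) = (n : Eis) * ((Q : ℤ) : Eis) := Int.cast_mul _ _
  rw [hΦ, ← H ((n * Q : ℤ) : Eis) c N0 (by rw [hB]; exact mul_ne_zero (cast_ne hn0) hQ0) hc, hB,
    AS_mul h hr hr' (cast_ne hn0) hQ0]

lemma tm_zero {π a b : Eis} (ha : ¬ π ∣ a) (hb : ¬ π ∣ b) : tm π a b = 0 := by
  unfold tm
  rw [V_eq_zero ha, V_eq_zero hb]
  simp

/-- the symbol at an inert prime dividing the first argument once -/
lemma tm_inert {Q : Eis} {n : ℤ} (hQ : Prime Q) (hn : ¬ Q ∣ (n : Eis)) {L : Eis}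
    (hL : ¬ Q ∣ L) : tm Q ((n : Eis) * Q) L = - sym Q L := by
  have h1 : V Q ((n : Eis) * Q) = 1 := by
    rw [V_mul_not_dvd hQ hn hQ.ne_zero, V_self]
  have h2 : up Q L = L := by
    unfold up
    rw [V_eq_zero hL, pow_zero, EuclideanDomain.div_one]
  unfold tm
  rw [V_eq_zero hL, h1]
  unfold ch
  rw [h2]
  simp

/-- cube roots modulo a prime `= 2 (mod 3)` are unique -/
lemma root_unique {Q : ℕ} (hQ : Q.Prime) (hQ3 : Q % 3 = 2) {r r' : ℤ}
    (h : (Q : ℤ) ∣ r ^ 3 - r' ^ 3) : (Q : ℤ) ∣ r - r' := by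
  have : Fact Q.Prime := ⟨hQ⟩
  have h1 : (r : ZMod Q) ^ 3 = (r' : ZMod Q) ^ 3 := by
    have h2 := (ZMod.intCast_zmod_eq_zero_iff_dvd _ Q).2 h
    push_cast at h2
    exact sub_eq_zero.1 h2
  have h3 : ∀ a : ZMod Q, a ≠ 0 → a = (a ^ 3) ^ ((2 * Q - 1) / 3) := by
    intro a ha
    have h4 : 3 * ((2 * Q - 1) / 3) = (Q - 1) + (Q - 1) + 1 := by
      have := hQ.two_le
      omega
    rw [← pow_mul, h4, pow_add, pow_add, ZMod.pow_card_sub_one_eq_one ha]
    ring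
  have h5 : (r : ZMod Q) = (r' : ZMod Q) := by
    by_cases hr : (r : ZMod Q) = 0
    · rw [hr, zero_pow (by norm_num)] at h1
      rw [hr]
      exact (pow_eq_zero_iff (by norm_num)).1 h1.symm |>.symm
    · have hr' : (r' : ZMod Q) ≠ 0 := by
        intro h0
        rw [h0, zero_pow (by norm_num)] at h1
        exact hr ((pow_eq_zero_iff (by norm_num)).1 h1)
      rw [h3 _ hr, h3 _ hr', h1]
  rw [← ZMod.intCast_zmod_eq_zero_iff_dvd]
  push_cast
  rw [h5, sub_self]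

lemma sy_zero (hSTM : STM) (hSPP : SPP) {B x : ℤ} (hB : B ≠ 0) (hx : Adm B x) (v : Pl) :
    sy v (B : Eis) (x : Eis) = 0 := by
  have h1 : ∀ π : PP, tm π.1 (B : Eis) (x : Eis) = 0 := by
    intro π
    have h1 := (hSTM π.1 π.2.1 (hSPP.2.2.2.1 π).1).skew (x : Eis) (B : Eis)
      (cast_ne hx.ne) (cast_ne hB)
    rw [h1, hx.sym π, neg_zero]
  rcases v with _ | π
  · show sl (B : Eis) (x : Eis) = 0
    unfold sl
    rw [finsum_eq_zero_of_forall_eq_zero h1, neg_zero]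
  · exact h1 π

lemma TT_LC {v : Pl} {B b x p q p' q' : ℤ} (h : LC (uni v) b) : TT v B b x p q p' q' =
    AV v B b p q p' q' + sy v w (x : Eis) := by
  unfold TT
  rw [if_pos h]

lemma TT_some {π : PP} {B b x p q p' q' : ℤ} (h : ¬ LC π.1 b) :
    TT (some π) B b x p q p' q' =
      if 3 ∣ V π.1 (b : Eis) + V π.1 (B : Eis) ∧ ¬ 3 ∣ V π.1 (b : Eis)
        then - tm π.1 w (x : Eis) else 0 := by
  have h' : ¬ LC (uni (some π)) b := h
  unfold TT
  rw [if_neg h']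

end DCONST

open _root_.Pool.Agent.PT.DCONST in
/-- DCONST: the pairing `O_{nQ}(b, η)` as a function of the prime `Q`. -/
theorem DCONST_thm (hSTM : STM) (hSPP : SPP) (_hSSL : SSL) (hSLC : SLC) (_hSCJ : SCJ)
    (hLCI : LCI) (hAVV : AVV) (_hLFIN : LFIN) : DCONST := by
  intro n b x p q p' q' hn0 _hn3 hs hb hx
  have hn1 := hs.n1
  have hn2 : p' ^ 3 + b * q' ^ 3 ≠ 0 := by
    intro h
    apply hs.n1
    rw [hs.eq, h, mul_zero]
  have hnz : (n : ℤ) ≠ 0 := by omega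
  obtain ⟨M, hMdef⟩ : ∃ M : ℤ, M = (n : ℤ) * b * x * (p ^ 3 + b * q ^ 3) *
    (p' ^ 3 + b * q' ^ 3) := ⟨_, rfl⟩
  have hM : M ≠ 0 := by
    rw [hMdef]
    exact mul_ne_zero (mul_ne_zero (mul_ne_zero (mul_ne_zero hnz hb) hx) hn1) hn2
  have dn : (n : ℤ) ∣ M := ⟨b * x * (p ^ 3 + b * q ^ 3) * (p' ^ 3 + b * q' ^ 3), by
    rw [hMdef]; ring⟩
  have db : b ∣ M := ⟨(n : ℤ) * x * (p ^ 3 + b * q ^ 3) * (p' ^ 3 + b * q' ^ 3), by
    rw [hMdef]; ring⟩
  have dx : x ∣ M := ⟨(n : ℤ) * b * (p ^ 3 + b * q ^ 3) * (p' ^ 3 + b * q' ^ 3), by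
    rw [hMdef]; ring⟩
  have d1 : p ^ 3 + b * q ^ 3 ∣ M := ⟨(n : ℤ) * b * x * (p' ^ 3 + b * q' ^ 3), by
    rw [hMdef]; ring⟩
  have d2 : p' ^ 3 + b * q' ^ 3 ∣ M := ⟨(n : ℤ) * b * x * (p ^ 3 + b * q ^ 3), by
    rw [hMdef]; ring⟩
  have hfin := hSPP.2.2.1 (M : Eis) (cast_ne hM)
  have hMa : 0 < M.natAbs := Int.natAbs_pos.2 hM
  refine ⟨9 * M.natAbs, by omega, ?_⟩
  intro f hf0 hf
  have h9 : 9 ∣ f := (Dvd.intro _ rfl).trans hf
  have hf1 : 1 < f := by
    have := Nat.le_of_dvd hf0 h9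
    omega
  have hMf : M ∣ (f : ℤ) := by
    have h1 : M.natAbs ∣ f := (Dvd.intro_left 9 rfl).trans hf
    exact Int.natAbs_dvd.1 (Int.natCast_dvd_natCast.2 h1)
  have hlamf : lam ^ 4 ∣ ((f : ℤ) : Eis) := by
    have h1 : ((9 : ℤ) : Eis) ∣ ((f : ℤ) : Eis) :=
      intCast_dvd_intCast.2 (by exact_mod_cast h9)
    refine Dvd.dvd.trans ⟨w ^ 4, ?_⟩ h1
    have h2 : ((9 : ℤ) : Eis) = (3 : Eis) ^ 2 := by norm_num
    rw [h2, three_eq]
    ring
  have hQM : ∀ Q : ℕ, Q.Prime → Q.Coprime f → ¬ (Q : ℤ) ∣ M := by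
    intro Q hQ hQf h
    have h1 : (Q : ℤ) ∣ (f : ℤ) := h.trans hMf
    have h2 : Q ∣ f := Int.natCast_dvd_natCast.1 h1
    have h3 := Nat.Coprime.eq_one_of_dvd hQf h2
    exact hQ.one_lt.ne' h3
  have hBne : ∀ Q : ℕ, Q.Prime → (n : ℤ) * Q ≠ 0 := fun Q hQ =>
    mul_ne_zero hnz (by exact_mod_cast hQ.ne_zero)
  -- the place above `3`
  obtain ⟨c₀, Φ₀, H₀⟩ : ∃ (c : ZMod 3) (Φ : (ZMod f)ˣ →* Multiplicative (ZMod 3)),
      ∀ (Q : ℕ) (hQ : Q.Coprime f), Q.Prime → Adm ((n : ℤ) * Q) x →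
        TT none ((n : ℤ) * Q) b x p q p' q' =
          c + (Φ (ZMod.unitOfCoprime Q hQ)).toAdd := by
    by_cases hLC : LC (uni none) b
    · obtain ⟨C, Φ, H⟩ := place_LC (n := (n : ℤ)) hSLC hnz hn1 hn2 hLC hf1 hlamf
      refine ⟨C + sl w (x : Eis), Φ, ?_⟩
      intro Q hQ hQp hax
      rw [TT_LC hLC]
      obtain ⟨N0, hN0⟩ := (hAVV none ((n : ℤ) * Q) b x p q p' q' (hBne Q hQp) hb hx hs.toSolW
        (sy_zero hSTM hSPP (hBne Q hQp) hax none) hLC).1
      rw [H Q hQ _ N0 hN0]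
      show _ + sl w (x : Eis) = _
      ring
    · refine ⟨0, 1, ?_⟩
      intro Q hQ hQp hax
      unfold TT
      rw [if_neg hLC]
      rfl
  -- the places dividing `M`
  have hpl : ∀ π : PP, ∃ (c : ZMod 3) (Φ : (ZMod f)ˣ →* Multiplicative (ZMod 3)),
      π.1 ∣ (M : Eis) → ∀ (Q : ℕ) (hQ : Q.Coprime f), Q.Prime → Adm ((n : ℤ) * Q) x →
        TT (some π) ((n : ℤ) * Q) b x p q p' q' =
          c + (Φ (ZMod.unitOfCoprime Q hQ)).toAdd := by
    intro π
    by_cases hπM : π.1 ∣ (M : Eis)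
    · have hπf : π.1 ∣ ((f : ℤ) : Eis) := hπM.trans (intCast_dvd_intCast.2 hMf)
      by_cases hLC : LC (uni (some π)) b
      · obtain ⟨C, Φ, H⟩ := place_LC (n := (n : ℤ)) (hSTM π.1 π.2.1 (hSPP.2.2.2.1 π).1) hnz hn1
          hn2 hLC hf1 (by rw [pow_one]; exact hπf)
        refine ⟨C + tm π.1 w (x : Eis), Φ, ?_⟩
        intro _ Q hQ hQp hax
        rw [TT_LC hLC]
        obtain ⟨N0, hN0⟩ := (hAVV (some π) ((n : ℤ) * Q) b x p q p' q' (hBne Q hQp) hb hx
          hs.toSolW (sy_zero hSTM hSPP (hBne Q hQp) hax (some π)) hLC).1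
        rw [H Q hQ _ N0 hN0]
        show _ + tm π.1 w (x : Eis) = _
        ring
      · refine ⟨if 3 ∣ V π.1 (b : Eis) + V π.1 ((n : ℤ) : Eis) ∧ ¬ 3 ∣ V π.1 (b : Eis)
          then - tm π.1 w (x : Eis) else 0, 1, ?_⟩
        intro _ Q hQ hQp hax
        rw [TT_some hLC]
        have hVQ : V π.1 ((Q : ℤ) : Eis) = 0 := by
          apply V_eq_zero
          intro hd
          obtain ⟨y, z, hyz⟩ := Nat.isCoprime_iff_coprime.2 hQ
          apply π.2.1.not_isUnit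
          apply isUnit_of_dvd_one
          have h1 : (1 : Eis) = (y : Eis) * ((Q : ℤ) : Eis) + (z : Eis) * ((f : ℤ) : Eis) := by
            have h2 := congrArg (fun t : ℤ => (t : Eis)) hyz
            simp only [Int.cast_add, Int.cast_mul, Int.cast_one] at h2
            exact h2.symm
          rw [h1]
          exact dvd_add (dvd_mul_of_dvd_right hd _) (dvd_mul_of_dvd_right hπf _)
        have hV : V π.1 (((n : ℤ) * Q : ℤ) : Eis) = V π.1 ((n : ℤ) : Eis) := by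
          rw [Int.cast_mul, V_mul π.2.1 (cast_ne hnz) (cast_ne (by exact_mod_cast hQp.ne_zero)),
            hVQ, add_zero]
        rw [hV]
        simp
    · exact ⟨0, 1, fun h => absurd h hπM⟩
  choose c Φ H using hpl
  refine ⟨c₀ + ∑ π ∈ hfin.toFinset, c π, Φ₀ * ∏ π ∈ hfin.toFinset, Φ π, 0, ?_⟩
  intro Q hQ hQp _ hQ3 hBk hab hax r hr
  obtain ⟨πQ, hπQ⟩ := hSPP.2.2.2.2.1 Q hQp hQ3
  have hQc : ((Q : ℤ) : Eis) = (Q : Eis) := Int.cast_natCast Q
  have hπQ' : πQ.1 = ((Q : ℤ) : Eis) := by rw [hπQ, hQc]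
  have hQnd : ∀ m : ℤ, m ∣ M → ¬ πQ.1 ∣ (m : Eis) := by
    intro m hm h
    rw [hπQ'] at h
    exact hQM Q hQp hQ ((intCast_dvd_intCast.1 h).trans hm)
  have hQw : ¬ πQ.1 ∣ w := not_dvd_w πQ.2.1
  have hBcast : (((n : ℤ) * Q : ℤ) : Eis) = ((n : ℤ) : Eis) * πQ.1 := by
    rw [Int.cast_mul, hπQ']
  -- the place `Q`
  have hTQ : TT (some πQ) ((n : ℤ) * Q) b x p q p' q' = - TAUV Q p q p' q' r := by
    have hLC : LC (uni (some πQ)) b := by
      refine (hLCI.1 πQ b hb).2 ⟨?_, ?_⟩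
      · rw [V_eq_zero (hQnd b db)]
        exact dvd_zero 3
      · unfold ch up
        rw [V_eq_zero (hQnd b db), pow_zero, EuclideanDomain.div_one, hπQ]
        refine sym_int hQp hQ3 ?_
        intro h
        exact hQM Q hQp hQ (h.trans db)
    rw [TT_LC hLC]
    have hw : sy (some πQ) w (x : Eis) = 0 := tm_zero hQw (hQnd x dx)
    rw [hw, add_zero]
    refine (hAVV (some πQ) ((n : ℤ) * Q) b x p q p' q' (hBne Q hQp) hb hx
      hs.toSolW (sy_zero hSTM hSPP (hBne Q hQp) hax (some πQ)) hLC).2 _ 1 ?_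
    intro r' hr'
    have hr1 : πQ.1 ∣ (r' : Eis) ^ 3 - (b : Eis) := by
      have h1 : πQ.1 ^ 1 ∣ (r' : Eis) ^ 3 - (b : Eis) := hr'
      rwa [pow_one] at h1
    have hrr : (Q : ℤ) ∣ r' - r := by
      apply root_unique hQp hQ3
      have h1 : (Q : ℤ) ∣ r' ^ 3 - b := by
        rw [hπQ'] at hr1
        apply intCast_dvd_intCast.1
        push_cast
        push_cast at hr1
        exact hr1
      have h2 : r' ^ 3 - r ^ 3 = (r' ^ 3 - b) - (r ^ 3 - b) := by ring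
      rw [h2]
      exact dvd_sub h1 hr
    have hrr' : πQ.1 ∣ (r' : Eis) - (r : Eis) := by
      rw [hπQ', ← Int.cast_sub]
      exact intCast_dvd_intCast.2 hrr
    have hsym : ∀ (g h : ℤ) (i : ℕ), sym (Q : Eis) (Lf g h i r') = sym (Q : Eis) (Lf g h i r) := by
      intro g h i
      apply sym_congr
      rw [← hπQ]
      have h1 : Lf g h i r' - Lf g h i r = (h * w ^ i) * ((r' : Eis) - r) := by
        unfold Lf
        ring
      rw [h1]
      exact dvd_mul_of_dvd_right hrr' _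
    have k1 := Lf_ndvd (p := p) (q := q) hr1 (hQnd _ d1)
    have k2 := Lf_ndvd (p := p') (q := q') hr1 (hQnd _ d2)
    show tm πQ.1 (((n : ℤ) * Q : ℤ) : Eis) (Lf p q 2 r') +
      tm πQ.1 (((n : ℤ) * Q : ℤ) : Eis) (Lf p' q' 1 r') -
      tm πQ.1 (((n : ℤ) * Q : ℤ) : Eis) (Lf p q 1 r') -
      tm πQ.1 (((n : ℤ) * Q : ℤ) : Eis) (Lf p' q' 2 r') = - TAUV Q p q p' q' r
    rw [hBcast, tm_inert πQ.2.1 (hQnd _ dn) (k1 2), tm_inert πQ.2.1 (hQnd _ dn) (k2 1),
      tm_inert πQ.2.1 (hQnd _ dn) (k1 1), tm_inert πQ.2.1 (hQnd _ dn) (k2 2), hπQ, hsym, hsym,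
      hsym, hsym]
    unfold TAUV
    ring
  -- the sum
  have hQS : πQ ∉ hfin.toFinset := by
    rw [Set.Finite.mem_toFinset]
    exact hQnd M dvd_rfl
  classical
  have hsupp : (Function.support fun v : Pl => TT v ((n : ℤ) * Q) b x p q p' q') ⊆
      ((insert none (insert (some πQ) (hfin.toFinset.image some)) : Finset Pl) : Set Pl) := by
    intro v hv
    by_contra hnv
    apply hv
    rcases v with _ | π
    · exact absurd (Finset.mem_coe.2 (Finset.mem_insert_self _ _)) hnv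
    · have hnM : ¬ π.1 ∣ (M : Eis) := by
        intro h
        apply hnv
        rw [Finset.mem_coe]
        refine Finset.mem_insert_of_mem (Finset.mem_insert_of_mem (Finset.mem_image_of_mem _ ?_))
        rw [Set.Finite.mem_toFinset]
        exact h
      have hπne : π ≠ πQ := by
        rintro rfl
        apply hnv
        rw [Finset.mem_coe]
        exact Finset.mem_insert_of_mem (Finset.mem_insert_self _ _)
      have hd : ∀ m : ℤ, m ∣ M → ¬ π.1 ∣ (m : Eis) := fun m hm h =>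
        hnM (h.trans (intCast_dvd_intCast.2 hm))
      have hπQnd : ¬ π.1 ∣ πQ.1 := by
        intro h
        exact hπne (hSPP.2.1 π πQ (π.2.1.associated_of_dvd πQ.2.1 h))
      have hnB : ¬ π.1 ∣ (((n : ℤ) * Q : ℤ) : Eis) := by
        rw [hBcast]
        intro h
        rcases π.2.1.dvd_or_dvd h with h1 | h1
        · exact hd _ dn h1
        · exact hπQnd h1
      have hnw : ¬ π.1 ∣ w := not_dvd_w π.2.1
      show TT (some π) ((n : ℤ) * Q) b x p q p' q' = 0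
      by_cases hLC : LC (uni (some π)) b
      · rw [TT_LC hLC]
        have hw : sy (some π) w (x : Eis) = 0 := tm_zero hnw (hd x dx)
        obtain ⟨N0, hN0⟩ := (hAVV (some π) ((n : ℤ) * Q) b x p q p' q' (hBne Q hQp) hb hx
          hs.toSolW (sy_zero hSTM hSPP (hBne Q hQp) hax (some π)) hLC).1
        obtain ⟨r₁, hr₁⟩ := hLC (max N0 1)
        have hr0 : uni (some π) ^ N0 ∣ (r₁ : Eis) ^ 3 - (b : Eis) :=
          (pow_dvd_pow _ (le_max_left _ _)).trans hr₁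
        have hr1 : π.1 ∣ (r₁ : Eis) ^ 3 - (b : Eis) := by
          have h1 : π.1 ^ 1 ∣ (r₁ : Eis) ^ 3 - (b : Eis) :=
            (pow_dvd_pow π.1 (le_max_right N0 1)).trans hr₁
          rwa [pow_one] at h1
        have k1 := Lf_ndvd (p := p) (q := q) hr1 (hd _ d1)
        have k2 := Lf_ndvd (p := p') (q := q') hr1 (hd _ d2)
        rw [hw, ← hN0 r₁ hr0]
        show tm π.1 (((n : ℤ) * Q : ℤ) : Eis) (Lf p q 2 r₁) +
          tm π.1 (((n : ℤ) * Q : ℤ) : Eis) (Lf p' q' 1 r₁) -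
          tm π.1 (((n : ℤ) * Q : ℤ) : Eis) (Lf p q 1 r₁) -
          tm π.1 (((n : ℤ) * Q : ℤ) : Eis) (Lf p' q' 2 r₁) + 0 = 0
        rw [tm_zero hnB (k1 2), tm_zero hnB (k2 1), tm_zero hnB (k1 1), tm_zero hnB (k2 2)]
        simp
      · rw [TT_some hLC, if_neg]
        rintro ⟨-, h1⟩
        apply h1
        rw [V_eq_zero (hd b db)]
        exact dvd_zero 3
  have hn_notin : (none : Pl) ∉ insert (some πQ) (hfin.toFinset.image some) := by
    simp
  have hQ_notin : (some πQ : Pl) ∉ hfin.toFinset.image some := by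
    intro h
    obtain ⟨y, hy, hy'⟩ := Finset.mem_image.1 h
    rw [Option.some.injEq] at hy'
    rw [hy'] at hy
    exact hQS hy
  have hsum : ∑ π ∈ hfin.toFinset, TT (some π) ((n : ℤ) * Q) b x p q p' q' =
      ∑ π ∈ hfin.toFinset, (c π + (Φ π (ZMod.unitOfCoprime Q hQ)).toAdd) := by
    refine Finset.sum_congr rfl ?_
    intro π hπ
    rw [Set.Finite.mem_toFinset] at hπ
    exact H π hπ Q hQ hQp hax
  unfold OO
  rw [finsum_eq_sum_of_support_subset _ hsupp, Finset.sum_insert hn_notin,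
    Finset.sum_insert hQ_notin, Finset.sum_image (fun _ _ _ _ h => Option.some_injective _ h),
    hsum, hTQ, H₀ Q hQ hQp hax, Finset.sum_add_distrib, MonoidHom.mul_apply,
    MonoidHom.finsetProd_apply, toAdd_mul, toAdd_prod]
  ring

end Pool.Agent.PT

end

section

/-!
# Prime twists of rank zero: the pairing as a function of the prime `Q = 1 (mod 3)`
-/

set_option autoImplicit false

namespace Pool.Agent.PTE

open Pool.Agent.Lib_helper18 Pool.Agent.Lib_helper18.Eis Pool.Agent.Lib_helper84.Cub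
open Pool.Agent.PT

namespace DCONSTS

/-- Cube roots modulo `Q` are lifted. -/
lemma lift_root {Q : ℕ} (hQ : Q.Prime) {r b : ℤ} (h3 : ¬ (Q : ℤ) ∣ 3) (hr : ¬ (Q : ℤ) ∣ r)
    (h : (Q : ℤ) ∣ r ^ 3 - b) (N : ℕ) :
    ∃ r₁ : ℤ, (Q : ℤ) ^ (N + 1) ∣ r₁ ^ 3 - b ∧ (Q : ℤ) ∣ r₁ - r := by
  have hp : Prime (Q : ℤ) := Nat.prime_iff_prime_int.1 hQ
  induction N with
  | zero => exact ⟨r, by rwa [zero_add, pow_one], by rw [sub_self]; exact dvd_zero _⟩
  | succ N ih =>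
    obtain ⟨r₁, ⟨c, hc⟩, h2⟩ := ih
    have hr1 : ¬ (Q : ℤ) ∣ r₁ := by
      intro h4
      apply hr
      have := dvd_sub h4 h2
      rwa [sub_sub_cancel] at this
    have hcop : IsCoprime (3 * r₁ ^ 2) (Q : ℤ) := by
      rw [isCoprime_comm]
      refine (hp.coprime_iff_not_dvd).2 fun h4 => ?_
      rcases hp.dvd_or_dvd h4 with h5 | h5
      · exact h3 h5
      · exact hr1 (hp.dvd_of_dvd_pow h5)
    obtain ⟨x, y, hxy⟩ := hcop
    refine ⟨r₁ + (Q : ℤ) ^ (N + 1) * (-c * x), ?_, ?_⟩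
    · refine ⟨c * y + (Q : ℤ) ^ N * (3 * r₁ * (-c * x) ^ 2 + (Q : ℤ) ^ (N + 1) * (-c * x) ^ 3), ?_⟩
      have e : (r₁ + (Q : ℤ) ^ (N + 1) * (-c * x)) ^ 3 - b = (r₁ ^ 3 - b) +
          (Q : ℤ) ^ (N + 1) * (-c * (x * (3 * r₁ ^ 2))) + (Q : ℤ) ^ (N + 1) *
          ((Q : ℤ) ^ (N + 1) * (3 * r₁ * (-c * x) ^ 2 + (Q : ℤ) ^ (N + 1) * (-c * x) ^ 3)) := by
        ring
      have e2 : x * (3 * r₁ ^ 2) = 1 - y * Q := by linarith
      rw [e, hc, e2]
      ring
    · have : r₁ + (Q : ℤ) ^ (N + 1) * (-c * x) - r = (r₁ - r) +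
          (Q : ℤ) * ((Q : ℤ) ^ N * (-c * x)) := by ring
      rw [this]
      exact dvd_add h2 (Dvd.intro _ rfl)

/-- the symbol at a prime dividing the first argument once -/
lemma tm_one {ρ B L : Eis} (hB : V ρ B = 1) (hL : ¬ ρ ∣ L) : tm ρ B L = - sym ρ L := by
  have h2 : up ρ L = L := by
    unfold up
    rw [V_eq_zero hL, pow_zero, EuclideanDomain.div_one]
  unfold tm
  rw [V_eq_zero hL, hB]
  unfold ch
  rw [h2]
  simp

lemma conj_Lf (p q r : ℤ) : conj (Lf p q 1 r) = Lf p q 2 r ∧ conj (Lf p q 2 r) = Lf p q 1 r := by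
  have h4 : (w ^ 2) ^ 2 = w := by
    rw [← pow_mul, show 2 * 2 = 3 + 1 from rfl, pow_succ, w_cube, one_mul]
  constructor
  · unfold Lf
    rw [map_add, map_mul, map_mul, map_pow, conj_w, conj_intCast, conj_intCast, conj_intCast,
      pow_one]
  · unfold Lf
    rw [map_add, map_mul, map_mul, map_pow, conj_w, conj_intCast, conj_intCast, conj_intCast,
      pow_one, h4]

end DCONSTS

open DCONST _root_.Pool.Agent.PTE.DCONSTS in
/-- DCONSTS: the pairing `O_{nQ}(b, η)` as a function of the prime `Q = 1 (mod 3)`. -/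
theorem DCONSTS_thm (hSTM : STM) (hSPP : SPP) (_hSSL : SSL) (hSLC : SLC) (_hSCJ : SCJ)
    (hLCI : LCI) (hAVV : AVV) (_hLFIN : LFIN) (hSPLT : SPLT) : DCONSTS := by
  intro n b x p q p' q' hn0 _hn3 hs hb hx
  have hn1 := hs.n1
  have hn2 : p' ^ 3 + b * q' ^ 3 ≠ 0 := by
    intro h
    apply hs.n1
    rw [hs.eq, h, mul_zero]
  have hnz : (n : ℤ) ≠ 0 := by omega
  obtain ⟨M, hMdef⟩ : ∃ M : ℤ, M = (n : ℤ) * b * x * (p ^ 3 + b * q ^ 3) *
    (p' ^ 3 + b * q' ^ 3) := ⟨_, rfl⟩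
  have hM : M ≠ 0 := by
    rw [hMdef]
    exact mul_ne_zero (mul_ne_zero (mul_ne_zero (mul_ne_zero hnz hb) hx) hn1) hn2
  have dn : (n : ℤ) ∣ M := ⟨b * x * (p ^ 3 + b * q ^ 3) * (p' ^ 3 + b * q' ^ 3), by
    rw [hMdef]; ring⟩
  have db : b ∣ M := ⟨(n : ℤ) * x * (p ^ 3 + b * q ^ 3) * (p' ^ 3 + b * q' ^ 3), by
    rw [hMdef]; ring⟩
  have dx : x ∣ M := ⟨(n : ℤ) * b * (p ^ 3 + b * q ^ 3) * (p' ^ 3 + b * q' ^ 3), by
    rw [hMdef]; ring⟩
  have d1 : p ^ 3 + b * q ^ 3 ∣ M := ⟨(n : ℤ) * b * x * (p' ^ 3 + b * q' ^ 3), by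
    rw [hMdef]; ring⟩
  have d2 : p' ^ 3 + b * q' ^ 3 ∣ M := ⟨(n : ℤ) * b * x * (p ^ 3 + b * q ^ 3), by
    rw [hMdef]; ring⟩
  have hfin := hSPP.2.2.1 (M : Eis) (cast_ne hM)
  have hMa : 0 < M.natAbs := Int.natAbs_pos.2 hM
  refine ⟨9 * M.natAbs, by omega, ?_⟩
  intro f hf0 hf
  have h9 : 9 ∣ f := (Dvd.intro _ rfl).trans hf
  have hf1 : 1 < f := by
    have := Nat.le_of_dvd hf0 h9
    omega
  have hMf : M ∣ (f : ℤ) := by
    have h1 : M.natAbs ∣ f := (Dvd.intro_left 9 rfl).trans hf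
    exact Int.natAbs_dvd.1 (Int.natCast_dvd_natCast.2 h1)
  have hlamf : lam ^ 4 ∣ ((f : ℤ) : Eis) := by
    have h1 : ((9 : ℤ) : Eis) ∣ ((f : ℤ) : Eis) :=
      intCast_dvd_intCast.2 (by exact_mod_cast h9)
    refine Dvd.dvd.trans ⟨w ^ 4, ?_⟩ h1
    have h2 : ((9 : ℤ) : Eis) = (3 : Eis) ^ 2 := by norm_num
    rw [h2, three_eq]
    ring
  have hQM : ∀ Q : ℕ, Q.Prime → Q.Coprime f → ¬ (Q : ℤ) ∣ M := by
    intro Q hQ hQf h
    have h1 : (Q : ℤ) ∣ (f : ℤ) := h.trans hMf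
    have h2 : Q ∣ f := Int.natCast_dvd_natCast.1 h1
    have h3 := Nat.Coprime.eq_one_of_dvd hQf h2
    exact hQ.one_lt.ne' h3
  have hBne : ∀ Q : ℕ, Q.Prime → (n : ℤ) * Q ≠ 0 := fun Q hQ =>
    mul_ne_zero hnz (by exact_mod_cast hQ.ne_zero)
  -- the place above `3`
  obtain ⟨c₀, Φ₀, H₀⟩ : ∃ (c : ZMod 3) (Φ : (ZMod f)ˣ →* Multiplicative (ZMod 3)),
      ∀ (Q : ℕ) (hQ : Q.Coprime f), Q.Prime → Adm ((n : ℤ) * Q) x →
        TT none ((n : ℤ) * Q) b x p q p' q' =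
          c + (Φ (ZMod.unitOfCoprime Q hQ)).toAdd := by
    by_cases hLC : LC (uni none) b
    · obtain ⟨C, Φ, H⟩ := place_LC (n := (n : ℤ)) hSLC hnz hn1 hn2 hLC hf1 hlamf
      refine ⟨C + sl w (x : Eis), Φ, ?_⟩
      intro Q hQ hQp hax
      rw [TT_LC hLC]
      obtain ⟨N0, hN0⟩ := (hAVV none ((n : ℤ) * Q) b x p q p' q' (hBne Q hQp) hb hx hs.toSolW
        (sy_zero hSTM hSPP (hBne Q hQp) hax none) hLC).1
      rw [H Q hQ _ N0 hN0]
      show _ + sl w (x : Eis) = _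
      ring
    · refine ⟨0, 1, ?_⟩
      intro Q hQ hQp hax
      unfold TT
      rw [if_neg hLC]
      rfl
  -- the places dividing `M`
  have hpl : ∀ π : PP, ∃ (c : ZMod 3) (Φ : (ZMod f)ˣ →* Multiplicative (ZMod 3)),
      π.1 ∣ (M : Eis) → ∀ (Q : ℕ) (hQ : Q.Coprime f), Q.Prime → Adm ((n : ℤ) * Q) x →
        TT (some π) ((n : ℤ) * Q) b x p q p' q' =
          c + (Φ (ZMod.unitOfCoprime Q hQ)).toAdd := by
    intro π
    by_cases hπM : π.1 ∣ (M : Eis)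
    · have hπf : π.1 ∣ ((f : ℤ) : Eis) := hπM.trans (intCast_dvd_intCast.2 hMf)
      by_cases hLC : LC (uni (some π)) b
      · obtain ⟨C, Φ, H⟩ := place_LC (n := (n : ℤ)) (hSTM π.1 π.2.1 (hSPP.2.2.2.1 π).1) hnz hn1
          hn2 hLC hf1 (by rw [pow_one]; exact hπf)
        refine ⟨C + tm π.1 w (x : Eis), Φ, ?_⟩
        intro _ Q hQ hQp hax
        rw [TT_LC hLC]
        obtain ⟨N0, hN0⟩ := (hAVV (some π) ((n : ℤ) * Q) b x p q p' q' (hBne Q hQp) hb hx
          hs.toSolW (sy_zero hSTM hSPP (hBne Q hQp) hax (some π)) hLC).1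
        rw [H Q hQ _ N0 hN0]
        show _ + tm π.1 w (x : Eis) = _
        ring
      · refine ⟨if 3 ∣ V π.1 (b : Eis) + V π.1 ((n : ℤ) : Eis) ∧ ¬ 3 ∣ V π.1 (b : Eis)
          then - tm π.1 w (x : Eis) else 0, 1, ?_⟩
        intro _ Q hQ hQp hax
        rw [TT_some hLC]
        have hVQ : V π.1 ((Q : ℤ) : Eis) = 0 := by
          apply V_eq_zero
          intro hd
          obtain ⟨y, z, hyz⟩ := Nat.isCoprime_iff_coprime.2 hQ
          apply π.2.1.not_isUnit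
          apply isUnit_of_dvd_one
          have h1 : (1 : Eis) = (y : Eis) * ((Q : ℤ) : Eis) + (z : Eis) * ((f : ℤ) : Eis) := by
            have h2 := congrArg (fun t : ℤ => (t : Eis)) hyz
            simp only [Int.cast_add, Int.cast_mul, Int.cast_one] at h2
            exact h2.symm
          rw [h1]
          exact dvd_add (dvd_mul_of_dvd_right hd _) (dvd_mul_of_dvd_right hπf _)
        have hV : V π.1 (((n : ℤ) * Q : ℤ) : Eis) = V π.1 ((n : ℤ) : Eis) := by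
          rw [Int.cast_mul, V_mul π.2.1 (cast_ne hnz) (cast_ne (by exact_mod_cast hQp.ne_zero)),
            hVQ, add_zero]
        rw [hV]
        simp
    · exact ⟨0, 1, fun h => absurd h hπM⟩
  choose c Φ H using hpl
  refine ⟨c₀ + ∑ π ∈ hfin.toFinset, c π, Φ₀ * ∏ π ∈ hfin.toFinset, Φ π, 0, ?_⟩
  intro Q hQ ρ hQp _ hQ3 hρ hBk hab hax r hr
  obtain ⟨hna, ⟨ρ', hρ'⟩, hdv, hint, hcj, -⟩ := hSPLT.2 Q ρ hQp hQ3 hρ
  have hQc : ((Q : ℤ) : Eis) = (Q : Eis) := Int.cast_natCast Q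
  have hQ0 : (Q : Eis) ≠ 0 := by
    rw [← hQc]
    exact cast_ne (by exact_mod_cast hQp.ne_zero)
  have hρ2 : (Q : Eis) = ρ'.1 * conj ρ'.1 := by
    rw [hρ', conj_conj, mul_comm]
    exact hρ
  have hcjr : conj ρ'.1 = ρ.1 := by rw [hρ', conj_conj]
  have hBcast : (((n : ℤ) * Q : ℤ) : Eis) = ((n : ℤ) : Eis) * (Q : Eis) := by
    rw [Int.cast_mul, hQc]
  have hQM' := hQM Q hQp hQ
  have hp : Prime (Q : ℤ) := Nat.prime_iff_prime_int.1 hQp
  have hrQ : ¬ (Q : ℤ) ∣ r := by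
    intro h
    apply hQM'
    refine Dvd.dvd.trans ?_ db
    have h1 := dvd_sub (dvd_pow h (three_ne_zero)) hr
    rwa [sub_sub_cancel] at h1
  have h3Q : ¬ (Q : ℤ) ∣ 3 := by
    intro h
    have h1 : Q ∣ 3 := by exact_mod_cast h
    have h2 := (Nat.prime_dvd_prime_iff_eq hQp Nat.prime_three).1 h1
    omega
  -- the value at a place above `Q`
  have key : ∀ σ : PP, (Q : Eis) = σ.1 * conj σ.1 → ¬ Associated σ.1 (conj σ.1) →
      (∀ x : ℤ, σ.1 ∣ (x : Eis) ↔ (Q : ℤ) ∣ x) →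
      TT (some σ) ((n : ℤ) * Q) b x p q p' q' = - TAUVS σ.1 p q p' q' r := by
    intro σ hσ hσa hσi
    have hnd : ∀ m : ℤ, m ∣ M → ¬ σ.1 ∣ (m : Eis) := by
      intro m hm h
      exact hQM' (((hσi m).1 h).trans hm)
    have hσw : ¬ σ.1 ∣ w := not_dvd_w σ.2.1
    have hσc : ¬ σ.1 ∣ conj σ.1 := by
      intro h
      apply hσa
      exact σ.2.1.associated_of_dvd (by
        have h1 := (hSPP.2.2.2.1 σ).2
        obtain ⟨τ, hτ⟩ := h1
        rw [← hτ]
        exact τ.2.1) h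
    have hc0 : conj σ.1 ≠ 0 := by
      intro h
      apply hQ0
      rw [hσ, h, mul_zero]
    have hVQ : V σ.1 (Q : Eis) = 1 := by
      rw [hσ, V_mul σ.2.1 σ.2.1.ne_zero hc0, V_self, V_eq_zero hσc]
    have hVB : V σ.1 (((n : ℤ) * Q : ℤ) : Eis) = 1 := by
      rw [hBcast, V_mul_not_dvd σ.2.1 (hnd _ dn) hQ0, hVQ]
    have hLC : LC (uni (some σ)) b := by
      refine (hLCI.1 σ b hb).2 ⟨?_, ?_⟩
      · rw [V_eq_zero (hnd b db)]
        exact dvd_zero 3
      · have h1 := hab.sym σ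
        unfold tm at h1
        rw [hVB, V_eq_zero (hnd b db)] at h1
        simpa using h1
    rw [TT_LC hLC]
    have hw : sy (some σ) w (x : Eis) = 0 := tm_zero hσw (hnd x dx)
    rw [hw, add_zero]
    obtain ⟨N0, hN0⟩ := (hAVV (some σ) ((n : ℤ) * Q) b x p q p' q' (hBne Q hQp) hb hx
      hs.toSolW (sy_zero hSTM hSPP (hBne Q hQp) hax (some σ)) hLC).1
    obtain ⟨r₁, hr₁, hrr⟩ := lift_root hQp h3Q hrQ hr N0
    have hσQ : σ.1 ∣ (Q : Eis) := by
      rw [hσ]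
      exact Dvd.intro _ rfl
    have hr0 : σ.1 ^ (N0 + 1) ∣ (r₁ : Eis) ^ 3 - (b : Eis) := by
      have h1 : (Q : Eis) ^ (N0 + 1) ∣ (r₁ : Eis) ^ 3 - (b : Eis) := by
        have h2 := intCast_dvd_intCast.2 hr₁
        push_cast at h2
        exact h2
      exact (pow_dvd_pow_of_dvd hσQ _).trans h1
    have hr1 : σ.1 ∣ (r₁ : Eis) ^ 3 - (b : Eis) := (dvd_pow_self _ (by omega)).trans hr0
    have hrr' : σ.1 ∣ (r₁ : Eis) - (r : Eis) := by
      have h1 := (hσi (r₁ - r)).2 hrr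
      rwa [Int.cast_sub] at h1
    rw [← hN0 r₁ ((pow_dvd_pow _ (Nat.le_succ _)).trans hr0)]
    have hsym : ∀ (g h : ℤ) (i : ℕ), sym σ.1 (Lf g h i r₁) = sym σ.1 (Lf g h i r) := by
      intro g h i
      apply sym_congr
      have h1 : Lf g h i r₁ - Lf g h i r = (h * w ^ i) * ((r₁ : Eis) - r) := by
        unfold Lf
        ring
      rw [h1]
      exact dvd_mul_of_dvd_right hrr' _
    have k1 := Lf_ndvd (p := p) (q := q) hr1 (hnd _ d1)
    have k2 := Lf_ndvd (p := p') (q := q') hr1 (hnd _ d2)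
    show tm σ.1 (((n : ℤ) * Q : ℤ) : Eis) (Lf p q 2 r₁) +
      tm σ.1 (((n : ℤ) * Q : ℤ) : Eis) (Lf p' q' 1 r₁) -
      tm σ.1 (((n : ℤ) * Q : ℤ) : Eis) (Lf p q 1 r₁) -
      tm σ.1 (((n : ℤ) * Q : ℤ) : Eis) (Lf p' q' 2 r₁) = - TAUVS σ.1 p q p' q' r
    rw [tm_one hVB (k1 2), tm_one hVB (k2 1), tm_one hVB (k1 1), tm_one hVB (k2 2), hsym, hsym,
      hsym, hsym]
    unfold TAUVS
    ring
  have hTρ := key ρ hρ hna hint
  have hTρ' := key ρ' hρ2 (by
    rw [hcjr, hρ']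
    exact fun h => hna h.symm) (by
    intro x
    rw [← hint x, hρ']
    constructor
    · rintro ⟨y, hy⟩
      refine ⟨conj y, ?_⟩
      have h1 := congrArg conj hy
      rw [map_mul, conj_conj, conj_intCast] at h1
      exact h1
    · rintro ⟨y, hy⟩
      refine ⟨conj y, ?_⟩
      have h1 := congrArg conj hy
      rw [map_mul, conj_intCast] at h1
      exact h1)
  -- the two values are equal
  have hnρ : ∀ m : ℤ, m ∣ M → ¬ ρ.1 ∣ (m : Eis) := fun m hm h =>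
    hQM' (((hint m).1 h).trans hm)
  have hrρ : ρ.1 ∣ (r : Eis) ^ 3 - (b : Eis) := by
    have h1 := (hint (r ^ 3 - b)).2 hr
    push_cast at h1
    exact h1
  have l1 := Lf_ndvd (p := p) (q := q) hrρ (hnρ _ d1)
  have l2 := Lf_ndvd (p := p') (q := q') hrρ (hnρ _ d2)
  have hTT : TAUVS ρ'.1 p q p' q' r = TAUVS ρ.1 p q p' q' r := by
    have e1 := hcj _ (l1 1)
    have e2 := hcj _ (l1 2)
    have e3 := hcj _ (l2 1)
    have e4 := hcj _ (l2 2)
    rw [(conj_Lf p q r).1] at e1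
    rw [(conj_Lf p q r).2] at e2
    rw [(conj_Lf p' q' r).1] at e3
    rw [(conj_Lf p' q' r).2] at e4
    unfold TAUVS
    rw [hρ', e1, e2, e3, e4]
    ring
  rw [hTT] at hTρ'
  have hρne : ρ ≠ ρ' := by
    rintro h
    apply hna
    rw [← hρ', ← h]
  -- the sum
  have hnρ' : ¬ ρ'.1 ∣ (M : Eis) := by
    intro h
    obtain ⟨y, hy⟩ := h
    apply hnρ M dvd_rfl
    refine ⟨conj y, ?_⟩
    have h1 := congrArg conj hy
    rw [map_mul, hcjr, conj_intCast] at h1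
    exact h1
  have hQS : ρ ∉ hfin.toFinset := by
    rw [Set.Finite.mem_toFinset]
    exact hnρ M dvd_rfl
  have hQS' : ρ' ∉ hfin.toFinset := by
    rw [Set.Finite.mem_toFinset]
    exact hnρ'
  classical
  have hsupp : (Function.support fun v : Pl => TT v ((n : ℤ) * Q) b x p q p' q') ⊆
      ((insert none (insert (some ρ) (insert (some ρ') (hfin.toFinset.image some))) :
        Finset Pl) : Set Pl) := by
    intro v hv
    by_contra hnv
    apply hv
    rcases v with _ | π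
    · exact absurd (Finset.mem_coe.2 (Finset.mem_insert_self _ _)) hnv
    · have hnM : ¬ π.1 ∣ (M : Eis) := by
        intro h
        apply hnv
        rw [Finset.mem_coe]
        refine Finset.mem_insert_of_mem (Finset.mem_insert_of_mem (Finset.mem_insert_of_mem
          (Finset.mem_image_of_mem _ ?_)))
        rw [Set.Finite.mem_toFinset]
        exact h
      have hπne : π ≠ ρ := by
        rintro rfl
        apply hnv
        rw [Finset.mem_coe]
        exact Finset.mem_insert_of_mem (Finset.mem_insert_self _ _)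
      have hπne' : π ≠ ρ' := by
        rintro rfl
        apply hnv
        rw [Finset.mem_coe]
        exact Finset.mem_insert_of_mem (Finset.mem_insert_of_mem (Finset.mem_insert_self _ _))
      have hd : ∀ m : ℤ, m ∣ M → ¬ π.1 ∣ (m : Eis) := fun m hm h =>
        hnM (h.trans (intCast_dvd_intCast.2 hm))
      have hπQnd : ¬ π.1 ∣ (Q : Eis) := by
        intro h
        rcases hdv π h with h1 | h1
        · exact hπne (Subtype.ext h1)
        · exact hπne' (Subtype.ext (h1.trans hρ'.symm))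
      have hnB : ¬ π.1 ∣ (((n : ℤ) * Q : ℤ) : Eis) := by
        rw [hBcast]
        intro h
        rcases π.2.1.dvd_or_dvd h with h1 | h1
        · exact hd _ dn h1
        · exact hπQnd h1
      have hnw : ¬ π.1 ∣ w := not_dvd_w π.2.1
      show TT (some π) ((n : ℤ) * Q) b x p q p' q' = 0
      by_cases hLC : LC (uni (some π)) b
      · rw [TT_LC hLC]
        have hw : sy (some π) w (x : Eis) = 0 := tm_zero hnw (hd x dx)
        obtain ⟨N0, hN0⟩ := (hAVV (some π) ((n : ℤ) * Q) b x p q p' q' (hBne Q hQp) hb hx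
          hs.toSolW (sy_zero hSTM hSPP (hBne Q hQp) hax (some π)) hLC).1
        obtain ⟨r₁, hr₁⟩ := hLC (max N0 1)
        have hr0 : uni (some π) ^ N0 ∣ (r₁ : Eis) ^ 3 - (b : Eis) :=
          (pow_dvd_pow _ (le_max_left _ _)).trans hr₁
        have hr1 : π.1 ∣ (r₁ : Eis) ^ 3 - (b : Eis) := by
          have h1 : π.1 ^ 1 ∣ (r₁ : Eis) ^ 3 - (b : Eis) :=
            (pow_dvd_pow π.1 (le_max_right N0 1)).trans hr₁
          rwa [pow_one] at h1
        have k1 := Lf_ndvd (p := p) (q := q) hr1 (hd _ d1)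
        have k2 := Lf_ndvd (p := p') (q := q') hr1 (hd _ d2)
        rw [hw, ← hN0 r₁ hr0]
        show tm π.1 (((n : ℤ) * Q : ℤ) : Eis) (Lf p q 2 r₁) +
          tm π.1 (((n : ℤ) * Q : ℤ) : Eis) (Lf p' q' 1 r₁) -
          tm π.1 (((n : ℤ) * Q : ℤ) : Eis) (Lf p q 1 r₁) -
          tm π.1 (((n : ℤ) * Q : ℤ) : Eis) (Lf p' q' 2 r₁) + 0 = 0
        rw [tm_zero hnB (k1 2), tm_zero hnB (k2 1), tm_zero hnB (k1 1), tm_zero hnB (k2 2)]
        simp
      · rw [TT_some hLC, if_neg]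
        rintro ⟨-, h1⟩
        apply h1
        rw [V_eq_zero (hd b db)]
        exact dvd_zero 3
  have hn_notin : (none : Pl) ∉ insert (some ρ) (insert (some ρ')
      (hfin.toFinset.image some)) := by
    simp
  have hρ'_notin : (some ρ' : Pl) ∉ hfin.toFinset.image some := by
    intro h
    obtain ⟨y, hy, hy'⟩ := Finset.mem_image.1 h
    rw [Option.some.injEq] at hy'
    rw [hy'] at hy
    exact hQS' hy
  have hρ_notin : (some ρ : Pl) ∉ insert (some ρ') (hfin.toFinset.image some) := by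
    intro h
    rcases Finset.mem_insert.1 h with h1 | h1
    · exact hρne (Option.some_injective _ h1)
    · obtain ⟨y, hy, hy'⟩ := Finset.mem_image.1 h1
      rw [Option.some.injEq] at hy'
      rw [hy'] at hy
      exact hQS hy
  have hsum : ∑ π ∈ hfin.toFinset, TT (some π) ((n : ℤ) * Q) b x p q p' q' =
      ∑ π ∈ hfin.toFinset, (c π + (Φ π (ZMod.unitOfCoprime Q hQ)).toAdd) := by
    refine Finset.sum_congr rfl ?_
    intro π hπ
    rw [Set.Finite.mem_toFinset] at hπ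
    exact H π hπ Q hQ hQp hax
  unfold OO
  rw [finsum_eq_sum_of_support_subset _ hsupp, Finset.sum_insert hn_notin,
    Finset.sum_insert hρ_notin, Finset.sum_insert hρ'_notin,
    Finset.sum_image (fun _ _ _ _ h => Option.some_injective _ h),
    hsum, hTρ, hTρ', H₀ Q hQ hQp hax, Finset.sum_add_distrib, MonoidHom.mul_apply,
    MonoidHom.finsetProd_apply, toAdd_mul, toAdd_prod]
  have h3 : (3 : ZMod 3) = 0 := rfl
  linear_combination (-(TAUVS ρ.1 p q p' q' r)) * h3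

end Pool.Agent.PTE

end

section

/-!
# Prime power twists: the pairing `O_{n Q^E}(b, η)` as a function of the prime and of the exponent
-/

set_option autoImplicit false

namespace Pool.Agent.PTL

open Pool.Agent.PT Pool.Agent.Lib_helper18 Pool.Agent.Lib_helper18.Eis Pool.Agent.Lib_helper84.Cub

/-- DCE: the pairing `O_{nQ^E}(b, η)` as a function of the prime `Q` and of `E`. -/
def DCE : Prop := ∀ (n : ℕ) (b x p q p' q' : ℤ), 0 < n → Sol b x p q p' q' →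
  b ≠ 0 → x ≠ 0 → ∃ f₀ : ℕ, 0 < f₀ ∧ ∀ f : ℕ, 0 < f → f₀ ∣ f →
  ∃ (C : ZMod 3) (Φ : (ZMod f)ˣ →* Multiplicative (ZMod 3)),
    ∀ (E Q : ℕ) (hQ : Q.Coprime f), Q.Prime → Q % 3 = 2 → Adm ((n : ℤ) * Q ^ E) x →
      ∀ r : ℤ, (Q : ℤ) ∣ r ^ 3 - b → OO ((n : ℤ) * Q ^ E) b x p q p' q' =
        C + E * ((Φ (ZMod.unitOfCoprime Q hQ)).toAdd - TAUV Q p q p' q' r)

namespace DC

open DCONST

lemma AS_pow {u : Eis} {s : Eis → Eis → ZMod 3} {e : ℕ} (h : LSym u s e) {p q p' q' r : ℤ}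
    (hr : ∀ i, Lf p q i r ≠ 0) (hr' : ∀ i, Lf p' q' i r ≠ 0) {B : Eis}
    (hB : B ≠ 0) (E : ℕ) : AS s (B ^ E) p q p' q' r = E * AS s B p q p' q' r := by
  induction E with
  | zero =>
    have h1 := AS_mul h hr hr' (A := 1) (B := 1) one_ne_zero one_ne_zero
    rw [mul_one] at h1
    rw [pow_zero, Nat.cast_zero, zero_mul]
    exact left_eq_add.1 h1
  | succ E ih =>
    rw [pow_succ, AS_mul h hr hr' (pow_ne_zero _ hB) hB, ih]
    push_cast
    ring

/-- places where `b` is a cube -/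
lemma place_LC {u : Eis} {s : Eis → Eis → ZMod 3} {e : ℕ} (h : LSym u s e)
    {b p q p' q' n : ℤ} (hn0 : n ≠ 0) (hn : p ^ 3 + b * q ^ 3 ≠ 0)
    (hn' : p' ^ 3 + b * q' ^ 3 ≠ 0) (hLC : LC u b) {f : ℕ} (hf : 1 < f)
    (huf : u ^ e ∣ ((f : ℤ) : Eis)) :
    ∃ (C : ZMod 3) (Φ : (ZMod f)ˣ →* Multiplicative (ZMod 3)),
      ∀ (E Q : ℕ) (hQ : Q.Coprime f) (c : ZMod 3) (N0 : ℕ),
      (∀ r : ℤ, u ^ N0 ∣ (r : Eis) ^ 3 - (b : Eis) →
        AS s ((n * Q ^ E : ℤ) : Eis) p q p' q' r = c) →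
      c = C + E * (Φ (ZMod.unitOfCoprime Q hQ)).toAdd := by
  obtain ⟨r, hr, hr', H⟩ := exists_root h hn hn' hLC
  have hne : ∀ a : ℤ, IsCoprime a (f : ℤ) → (a : Eis) ≠ 0 := by
    intro a ha
    apply cast_ne
    rintro rfl
    have h1 := isCoprime_zero_left.1 ha
    have h2 := Int.isUnit_iff.1 h1
    omega
  have huf1 : u ∣ ((f : ℤ) : Eis) := by
    have h1 : u ^ 1 ∣ u ^ e := pow_dvd_pow u h.pos
    rw [pow_one] at h1
    exact h1.trans huf
  have hV : ∀ a : ℤ, IsCoprime a (f : ℤ) → V u (a : Eis) = 0 := by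
    intro a ha
    apply V_eq_zero
    intro hd
    obtain ⟨x, y, hxy⟩ := ha
    apply h.prime.not_isUnit
    apply isUnit_of_dvd_one
    have h1 : (1 : Eis) = (x : Eis) * (a : Eis) + (y : Eis) * ((f : ℤ) : Eis) := by
      have h2 := congrArg (fun t : ℤ => (t : Eis)) hxy
      simp only [Int.cast_add, Int.cast_mul, Int.cast_one] at h2
      exact h2.symm
    rw [h1]
    exact dvd_add (dvd_mul_of_dvd_right hd _) (dvd_mul_of_dvd_right huf1 _)
  obtain ⟨Φ, hΦ⟩ := exists_hom hf (fun a => AS s (a : Eis) p q p' q' r) (by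
    intro a c ha hc
    show AS s ((a * c : ℤ) : Eis) p q p' q' r = _
    rw [Int.cast_mul]
    exact AS_mul h hr hr' (hne a ha) (hne c hc)) (by
    intro a c ha hc hd
    have h1 : u ^ (V u (a : Eis) + e) ∣ (c : Eis) - (a : Eis) := by
      rw [hV a ha, zero_add, ← Int.cast_sub]
      exact huf.trans (intCast_dvd_intCast.2 hd)
    show AS s (c : Eis) p q p' q' r = AS s (a : Eis) p q p' q' r
    unfold AS
    rw [h.cont _ _ _ (hne a ha) (hr 2) h1, h.cont _ _ _ (hne a ha) (hr' 1) h1,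
      h.cont _ _ _ (hne a ha) (hr 1) h1, h.cont _ _ _ (hne a ha) (hr' 2) h1])
  refine ⟨AS s (n : Eis) p q p' q' r, Φ, ?_⟩
  intro E Q hQ c N0 hc
  have hQ0 : ((Q : ℤ) : Eis) ≠ 0 := hne Q (Nat.isCoprime_iff_coprime.2 hQ)
  have hB : ((n * Q ^ E : ℤ) : Eis) = (n : Eis) * ((Q : ℤ) : Eis) ^ E := by
    rw [Int.cast_mul, Int.cast_pow]
  rw [hΦ, ← H ((n * Q ^ E : ℤ) : Eis) c N0
    (by rw [hB]; exact mul_ne_zero (cast_ne hn0) (pow_ne_zero _ hQ0)) hc, hB,
    AS_mul h hr hr' (cast_ne hn0) (pow_ne_zero _ hQ0), AS_pow h hr hr' hQ0]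

/-- the symbol at an inert prime -/
lemma tm_inert {Q : Eis} {n : ℤ} (hQ : Prime Q) (hn : ¬ Q ∣ (n : Eis)) {L : Eis}
    (hL : ¬ Q ∣ L) (E : ℕ) : tm Q ((n : Eis) * Q ^ E) L = - (E * sym Q L) := by
  have h1 : V Q ((n : Eis) * Q ^ E) = E := by
    rw [V_mul_not_dvd hQ hn (pow_ne_zero _ hQ.ne_zero), V_pow hQ hQ.ne_zero, V_self, mul_one]
  have h2 : up Q L = L := by
    unfold up
    rw [V_eq_zero hL, pow_zero, EuclideanDomain.div_one]
  unfold tm
  rw [V_eq_zero hL, h1]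
  unfold ch
  rw [h2]
  simp

end DC

open DCONST in
/-- DCE: the pairing `O_{nQ^E}(b, η)` as a function of the prime `Q`. -/
theorem DCE_thm (hSTM : STM) (hSPP : SPP) (hSLC : SLC)
    (hLCI : LCI) (hAVV : AVV) : DCE := by
  intro n b x p q p' q' hn0 hs hb hx
  have hn1 := hs.n1
  have hn2 : p' ^ 3 + b * q' ^ 3 ≠ 0 := by
    intro h
    apply hs.n1
    rw [hs.eq, h, mul_zero]
  have hnz : (n : ℤ) ≠ 0 := by omega
  obtain ⟨M, hMdef⟩ : ∃ M : ℤ, M = (n : ℤ) * b * x * (p ^ 3 + b * q ^ 3) *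
    (p' ^ 3 + b * q' ^ 3) := ⟨_, rfl⟩
  have hM : M ≠ 0 := by
    rw [hMdef]
    exact mul_ne_zero (mul_ne_zero (mul_ne_zero (mul_ne_zero hnz hb) hx) hn1) hn2
  have dn : (n : ℤ) ∣ M := ⟨b * x * (p ^ 3 + b * q ^ 3) * (p' ^ 3 + b * q' ^ 3), by
    rw [hMdef]; ring⟩
  have db : b ∣ M := ⟨(n : ℤ) * x * (p ^ 3 + b * q ^ 3) * (p' ^ 3 + b * q' ^ 3), by
    rw [hMdef]; ring⟩
  have dx : x ∣ M := ⟨(n : ℤ) * b * (p ^ 3 + b * q ^ 3) * (p' ^ 3 + b * q' ^ 3), by
    rw [hMdef]; ring⟩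
  have d1 : p ^ 3 + b * q ^ 3 ∣ M := ⟨(n : ℤ) * b * x * (p' ^ 3 + b * q' ^ 3), by
    rw [hMdef]; ring⟩
  have d2 : p' ^ 3 + b * q' ^ 3 ∣ M := ⟨(n : ℤ) * b * x * (p ^ 3 + b * q ^ 3), by
    rw [hMdef]; ring⟩
  have hfin := hSPP.2.2.1 (M : Eis) (cast_ne hM)
  have hMa : 0 < M.natAbs := Int.natAbs_pos.2 hM
  refine ⟨9 * M.natAbs, by omega, ?_⟩
  intro f hf0 hf
  have h9 : 9 ∣ f := (Dvd.intro _ rfl).trans hf
  have hf1 : 1 < f := by
    have := Nat.le_of_dvd hf0 h9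
    omega
  have hMf : M ∣ (f : ℤ) := by
    have h1 : M.natAbs ∣ f := (Dvd.intro_left 9 rfl).trans hf
    exact Int.natAbs_dvd.1 (Int.natCast_dvd_natCast.2 h1)
  have hlamf : lam ^ 4 ∣ ((f : ℤ) : Eis) := by
    have h1 : ((9 : ℤ) : Eis) ∣ ((f : ℤ) : Eis) :=
      intCast_dvd_intCast.2 (by exact_mod_cast h9)
    refine Dvd.dvd.trans ⟨w ^ 4, ?_⟩ h1
    have h2 : ((9 : ℤ) : Eis) = (3 : Eis) ^ 2 := by norm_num
    rw [h2, three_eq]
    ring
  have hQM : ∀ Q : ℕ, Q.Prime → Q.Coprime f → ¬ (Q : ℤ) ∣ M := by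
    intro Q hQ hQf h
    have h1 : (Q : ℤ) ∣ (f : ℤ) := h.trans hMf
    have h2 : Q ∣ f := Int.natCast_dvd_natCast.1 h1
    have h3 := Nat.Coprime.eq_one_of_dvd hQf h2
    exact hQ.one_lt.ne' h3
  have hBne : ∀ E Q : ℕ, Q.Prime → (n : ℤ) * Q ^ E ≠ 0 := fun E Q hQ =>
    mul_ne_zero hnz (pow_ne_zero _ (by exact_mod_cast hQ.ne_zero))
  -- the place above `3`
  obtain ⟨c₀, Φ₀, H₀⟩ : ∃ (c : ZMod 3) (Φ : (ZMod f)ˣ →* Multiplicative (ZMod 3)),
      ∀ (E Q : ℕ) (hQ : Q.Coprime f), Q.Prime → Adm ((n : ℤ) * Q ^ E) x →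
        TT none ((n : ℤ) * Q ^ E) b x p q p' q' =
          c + E * (Φ (ZMod.unitOfCoprime Q hQ)).toAdd := by
    by_cases hLC : LC (uni none) b
    · obtain ⟨C, Φ, H⟩   := DC.place_LC (n := (n : ℤ)) hSLC hnz hn1 hn2 hLC hf1 hlamf
      refine ⟨C + sl w (x : Eis), Φ, ?_⟩
      intro E Q hQ hQp hax
      rw [TT_LC hLC]
      obtain ⟨N0, hN0⟩ := (hAVV none ((n : ℤ) * Q ^ E) b x p q p' q' (hBne E Q hQp) hb hx hs.toSolW
        (sy_zero hSTM hSPP (hBne E Q hQp) hax none) hLC).1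
      rw [H E Q hQ _ N0 hN0]
      show _ + sl w (x : Eis) = _
      ring
    · refine ⟨0, 1, ?_⟩
      intro E Q hQ hQp hax
      unfold TT
      rw [if_neg hLC]
      simp
  -- the places dividing `M`
  have hpl : ∀ π : PP, ∃ (c : ZMod 3) (Φ : (ZMod f)ˣ →* Multiplicative (ZMod 3)),
      π.1 ∣ (M : Eis) → ∀ (E Q : ℕ) (hQ : Q.Coprime f), Q.Prime → Adm ((n : ℤ) * Q ^ E) x →
        TT (some π) ((n : ℤ) * Q ^ E) b x p q p' q' =
          c + E * (Φ (ZMod.unitOfCoprime Q hQ)).toAdd := by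
    intro π
    by_cases hπM : π.1 ∣ (M : Eis)
    · have hπf : π.1 ∣ ((f : ℤ) : Eis) := hπM.trans (intCast_dvd_intCast.2 hMf)
      by_cases hLC : LC (uni (some π)) b
      · obtain ⟨C, Φ, H⟩   := DC.place_LC (n := (n : ℤ)) (hSTM π.1 π.2.1 (hSPP.2.2.2.1 π).1) hnz hn1
          hn2 hLC hf1 (by rw [pow_one]; exact hπf)
        refine ⟨C + tm π.1 w (x : Eis), Φ, ?_⟩
        intro _ E Q hQ hQp hax
        rw [TT_LC hLC]
        obtain ⟨N0, hN0⟩ := (hAVV (some π) ((n : ℤ) * Q ^ E) b x p q p' q' (hBne E Q hQp) hb hx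
          hs.toSolW (sy_zero hSTM hSPP (hBne E Q hQp) hax (some π)) hLC).1
        rw [H E Q hQ _ N0 hN0]
        show _ + tm π.1 w (x : Eis) = _
        ring
      · refine ⟨if 3 ∣ V π.1 (b : Eis) + V π.1 ((n : ℤ) : Eis) ∧ ¬ 3 ∣ V π.1 (b : Eis)
          then - tm π.1 w (x : Eis) else 0, 1, ?_⟩
        intro _ E Q hQ hQp hax
        rw [TT_some hLC]
        have hVQ : V π.1 ((Q : ℤ) : Eis) = 0 := by
          apply V_eq_zero
          intro hd
          obtain ⟨y, z, hyz⟩ := Nat.isCoprime_iff_coprime.2 hQ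
          apply π.2.1.not_isUnit
          apply isUnit_of_dvd_one
          have h1 : (1 : Eis) = (y : Eis) * ((Q : ℤ) : Eis) + (z : Eis) * ((f : ℤ) : Eis) := by
            have h2 := congrArg (fun t : ℤ => (t : Eis)) hyz
            simp only [Int.cast_add, Int.cast_mul, Int.cast_one] at h2
            exact h2.symm
          rw [h1]
          exact dvd_add (dvd_mul_of_dvd_right hd _) (dvd_mul_of_dvd_right hπf _)
        have hV : V π.1 (((n : ℤ) * Q ^ E : ℤ) : Eis) = V π.1 ((n : ℤ) : Eis) := by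
          have hQe : ((Q : ℤ) : Eis) ≠ 0 := cast_ne (by exact_mod_cast hQp.ne_zero)
          rw [Int.cast_mul, Int.cast_pow, V_mul π.2.1 (cast_ne hnz) (pow_ne_zero _ hQe),
            V_pow π.2.1 hQe, hVQ, mul_zero, add_zero]
        rw [hV]
        simp
    · exact ⟨0, 1, fun h => absurd h hπM⟩
  choose c Φ H using hpl
  refine ⟨c₀ + ∑ π ∈ hfin.toFinset, c π, Φ₀ * ∏ π ∈ hfin.toFinset, Φ π, ?_⟩
  intro E Q hQ hQp hQ3 hax r hr
  obtain ⟨πQ, hπQ⟩ := hSPP.2.2.2.2.1 Q hQp hQ3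
  have hQc : ((Q : ℤ) : Eis) = (Q : Eis) := Int.cast_natCast Q
  have hπQ' : πQ.1 = ((Q : ℤ) : Eis) := by rw [hπQ, hQc]
  have hQnd : ∀ m : ℤ, m ∣ M → ¬ πQ.1 ∣ (m : Eis) := by
    intro m hm h
    rw [hπQ'] at h
    exact hQM Q hQp hQ ((intCast_dvd_intCast.1 h).trans hm)
  have hQw : ¬ πQ.1 ∣ w := not_dvd_w πQ.2.1
  have hBcast : (((n : ℤ) * Q ^ E : ℤ) : Eis) = ((n : ℤ) : Eis) * πQ.1 ^ E := by
    rw [Int.cast_mul, Int.cast_pow, hπQ']
  -- the place `Q`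
  have hTQ : TT (some πQ) ((n : ℤ) * Q ^ E) b x p q p' q' = - (E * TAUV Q p q p' q' r) := by
    have hLC : LC (uni (some πQ)) b := by
      refine (hLCI.1 πQ b hb).2 ⟨?_, ?_⟩
      · rw [V_eq_zero (hQnd b db)]
        exact dvd_zero 3
      · unfold ch up
        rw [V_eq_zero (hQnd b db), pow_zero, EuclideanDomain.div_one, hπQ]
        refine sym_int hQp hQ3 ?_
        intro h
        exact hQM Q hQp hQ (h.trans db)
    rw [TT_LC hLC]
    have hw : sy (some πQ) w (x : Eis) = 0 := tm_zero hQw (hQnd x dx)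
    rw [hw, add_zero]
    refine (hAVV (some πQ) ((n : ℤ) * Q ^ E) b x p q p' q' (hBne E Q hQp) hb hx
      hs.toSolW (sy_zero hSTM hSPP (hBne E Q hQp) hax (some πQ)) hLC).2 _ 1 ?_
    intro r' hr'
    have hr1 : πQ.1 ∣ (r' : Eis) ^ 3 - (b : Eis) := by
      have h1 : πQ.1 ^ 1 ∣ (r' : Eis) ^ 3 - (b : Eis) := hr'
      rwa [pow_one] at h1
    have hrr : (Q : ℤ) ∣ r' - r := by
      apply root_unique hQp hQ3
      have h1 : (Q : ℤ) ∣ r' ^ 3 - b := by
        rw [hπQ'] at hr1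
        apply intCast_dvd_intCast.1
        push_cast
        push_cast at hr1
        exact hr1
      have h2 : r' ^ 3 - r ^ 3 = (r' ^ 3 - b) - (r ^ 3 - b) := by ring
      rw [h2]
      exact dvd_sub h1 hr
    have hrr' : πQ.1 ∣ (r' : Eis) - (r : Eis) := by
      rw [hπQ', ← Int.cast_sub]
      exact intCast_dvd_intCast.2 hrr
    have hsym : ∀ (g h : ℤ) (i : ℕ), sym (Q : Eis) (Lf g h i r') = sym (Q : Eis) (Lf g h i r) := by
      intro g h i
      apply sym_congr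
      rw [← hπQ]
      have h1 : Lf g h i r' - Lf g h i r = (h * w ^ i) * ((r' : Eis) - r) := by
        unfold Lf
        ring
      rw [h1]
      exact dvd_mul_of_dvd_right hrr' _
    have k1 := Lf_ndvd (p := p) (q := q) hr1 (hQnd _ d1)
    have k2 := Lf_ndvd (p := p') (q := q') hr1 (hQnd _ d2)
    show tm πQ.1 (((n : ℤ) * Q ^ E : ℤ) : Eis) (Lf p q 2 r') +
      tm πQ.1 (((n : ℤ) * Q ^ E : ℤ) : Eis) (Lf p' q' 1 r') -
      tm πQ.1 (((n : ℤ) * Q ^ E : ℤ) : Eis) (Lf p q 1 r') -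
      tm πQ.1 (((n : ℤ) * Q ^ E : ℤ) : Eis) (Lf p' q' 2 r') = - (E * TAUV Q p q p' q' r)
    rw [hBcast, DC.tm_inert πQ.2.1 (hQnd _ dn) (k1 2), DC.tm_inert πQ.2.1 (hQnd _ dn) (k2 1),
      DC.tm_inert πQ.2.1 (hQnd _ dn) (k1 1), DC.tm_inert πQ.2.1 (hQnd _ dn) (k2 2), hπQ, hsym, hsym,
      hsym, hsym]
    unfold TAUV
    ring
  -- the sum
  have hQS : πQ ∉ hfin.toFinset := by
    rw [Set.Finite.mem_toFinset]
    exact hQnd M dvd_rfl
  classical
  have hsupp : (Function.support fun v : Pl => TT v ((n : ℤ) * Q ^ E) b x p q p' q') ⊆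
      ((insert none (insert (some πQ) (hfin.toFinset.image some)) : Finset Pl) : Set Pl) := by
    intro v hv
    by_contra hnv
    apply hv
    rcases v with _ | π
    · exact absurd (Finset.mem_coe.2 (Finset.mem_insert_self _ _)) hnv
    · have hnM : ¬ π.1 ∣ (M : Eis) := by
        intro h
        apply hnv
        rw [Finset.mem_coe]
        refine Finset.mem_insert_of_mem (Finset.mem_insert_of_mem (Finset.mem_image_of_mem _ ?_))
        rw [Set.Finite.mem_toFinset]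
        exact h
      have hπne : π ≠ πQ := by
        rintro rfl
        apply hnv
        rw [Finset.mem_coe]
        exact Finset.mem_insert_of_mem (Finset.mem_insert_self _ _)
      have hd : ∀ m : ℤ, m ∣ M → ¬ π.1 ∣ (m : Eis) := fun m hm h =>
        hnM (h.trans (intCast_dvd_intCast.2 hm))
      have hπQnd : ¬ π.1 ∣ πQ.1 := by
        intro h
        exact hπne (hSPP.2.1 π πQ (π.2.1.associated_of_dvd πQ.2.1 h))
      have hnB : ¬ π.1 ∣ (((n : ℤ) * Q ^ E : ℤ) : Eis) := by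
        rw [hBcast]
        intro h
        rcases π.2.1.dvd_or_dvd h with h1 | h1
        · exact hd _ dn h1
        · exact hπQnd (π.2.1.dvd_of_dvd_pow h1)
      have hnw : ¬ π.1 ∣ w := not_dvd_w π.2.1
      show TT (some π) ((n : ℤ) * Q ^ E) b x p q p' q' = 0
      by_cases hLC : LC (uni (some π)) b
      · rw [TT_LC hLC]
        have hw : sy (some π) w (x : Eis) = 0 := tm_zero hnw (hd x dx)
        obtain ⟨N0, hN0⟩ := (hAVV (some π) ((n : ℤ) * Q ^ E) b x p q p' q' (hBne E Q hQp) hb hx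
          hs.toSolW (sy_zero hSTM hSPP (hBne E Q hQp) hax (some π)) hLC).1
        obtain ⟨r₁, hr₁⟩ := hLC (max N0 1)
        have hr0 : uni (some π) ^ N0 ∣ (r₁ : Eis) ^ 3 - (b : Eis) :=
          (pow_dvd_pow _ (le_max_left _ _)).trans hr₁
        have hr1 : π.1 ∣ (r₁ : Eis) ^ 3 - (b : Eis) := by
          have h1 : π.1 ^ 1 ∣ (r₁ : Eis) ^ 3 - (b : Eis) :=
            (pow_dvd_pow π.1 (le_max_right N0 1)).trans hr₁
          rwa [pow_one] at h1
        have k1 := Lf_ndvd (p := p) (q := q) hr1 (hd _ d1)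
        have k2 := Lf_ndvd (p := p') (q := q') hr1 (hd _ d2)
        rw [hw, ← hN0 r₁ hr0]
        show tm π.1 (((n : ℤ) * Q ^ E : ℤ) : Eis) (Lf p q 2 r₁) +
          tm π.1 (((n : ℤ) * Q ^ E : ℤ) : Eis) (Lf p' q' 1 r₁) -
          tm π.1 (((n : ℤ) * Q ^ E : ℤ) : Eis) (Lf p q 1 r₁) -
          tm π.1 (((n : ℤ) * Q ^ E : ℤ) : Eis) (Lf p' q' 2 r₁) + 0 = 0
        rw [tm_zero hnB (k1 2), tm_zero hnB (k2 1), tm_zero hnB (k1 1), tm_zero hnB (k2 2)]
        simp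
      · rw [TT_some hLC, if_neg]
        rintro ⟨-, h1⟩
        apply h1
        rw [V_eq_zero (hd b db)]
        exact dvd_zero 3
  have hn_notin : (none : Pl) ∉ insert (some πQ) (hfin.toFinset.image some) := by
    simp
  have hQ_notin : (some πQ : Pl) ∉ hfin.toFinset.image some := by
    intro h
    obtain ⟨y, hy, hy'⟩ := Finset.mem_image.1 h
    rw [Option.some.injEq] at hy'
    rw [hy'] at hy
    exact hQS hy
  have hsum : ∑ π ∈ hfin.toFinset, TT (some π) ((n : ℤ) * Q ^ E) b x p q p' q' =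
      ∑ π ∈ hfin.toFinset, (c π + E * (Φ π (ZMod.unitOfCoprime Q hQ)).toAdd) := by
    refine Finset.sum_congr rfl ?_
    intro π hπ
    rw [Set.Finite.mem_toFinset] at hπ
    exact H π hπ E Q hQ hQp hax
  unfold OO
  rw [finsum_eq_sum_of_support_subset _ hsupp, Finset.sum_insert hn_notin,
    Finset.sum_insert hQ_notin, Finset.sum_image (fun _ _ _ _ h => Option.some_injective _ h),
    hsum, hTQ, H₀ E Q hQ hQp hax, Finset.sum_add_distrib, MonoidHom.mul_apply,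
    MonoidHom.finsetProd_apply, toAdd_mul, toAdd_prod, ← Finset.mul_sum]
  ring

end Pool.Agent.PTL

end

section

/-!
# Prime twists of rank zero, `n` divisible by `3`: the pairing as a function of the prime
`Q = 1 (mod 3)` and of the exponent `E`
-/

set_option autoImplicit false

namespace Pool.Agent.PT3

open Pool.Agent.Lib_helper18 Pool.Agent.Lib_helper18.Eis Pool.Agent.Lib_helper84.Cub
open Pool.Agent.PT Pool.Agent.PTE

namespace DCOU

open Pool.Agent.PT.DCONST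

lemma sy_zero (hSTM : STM) (hSPP : SPP) {B x : ℤ} (hB : B ≠ 0) (hx : AG B x) (v : Pl) :
    sy v (B : Eis) (x : Eis) = 0 := by
  have h1 : ∀ π : PP, tm π.1 (B : Eis) (x : Eis) = 0 := by
    intro π
    have h1 := (hSTM π.1 π.2.1 (hSPP.2.2.2.1 π).1).skew (x : Eis) (B : Eis)
      (cast_ne hx.ne) (cast_ne hB)
    rw [h1, hx.sym π, neg_zero]
  rcases v with _ | π
  · show sl (B : Eis) (x : Eis) = 0
    unfold sl
    rw [finsum_eq_zero_of_forall_eq_zero h1, neg_zero]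
  · exact h1 π

/-- the symbol at a prime, the second argument being a unit -/
lemma tm_val {ρ B L : Eis} {E : ℕ} (hB : V ρ B = E) (hL : ¬ ρ ∣ L) :
    tm ρ B L = - ((E : ZMod 3) * sym ρ L) := by
  have h2 : up ρ L = L := by
    unfold up
    rw [V_eq_zero hL, pow_zero, EuclideanDomain.div_one]
  unfold tm
  rw [V_eq_zero hL, hB]
  unfold ch
  rw [h2]
  simp

end DCOU

open Pool.Agent.PT.DCONST Pool.Agent.PTE.DCONSTS in
/-- DCOU: the pairing `O_{NQ^E}(b, η)` as a function of the prime `Q = 1 (mod 3)` and of `E`. -/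
theorem DCOU_thm (hSTM : STM) (hSPP : SPP) (hSLC : SLC) (hLCI : LCI) (hAVV : AVV)
    (_hSCJ : SCJ) (hSPLT : SPLT) : DCOU := by
  intro n b X Y x p q p' q' hn0 hs hb hx
  have hn1 := hs.n1
  have hn2 : p' ^ 3 + b * q' ^ 3 ≠ 0 := by
    intro h
    apply hs.n1
    rw [hs.eq, h, mul_zero]
  have hnz : (n : ℤ) ≠ 0 := by omega
  obtain ⟨M, hMdef⟩ : ∃ M : ℤ, M = (n : ℤ) * b * x * (p ^ 3 + b * q ^ 3) *
    (p' ^ 3 + b * q' ^ 3) := ⟨_, rfl⟩
  have hM : M ≠ 0 := by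
    rw [hMdef]
    exact mul_ne_zero (mul_ne_zero (mul_ne_zero (mul_ne_zero hnz hb) hx) hn1) hn2
  have dn : (n : ℤ) ∣ M := ⟨b * x * (p ^ 3 + b * q ^ 3) * (p' ^ 3 + b * q' ^ 3), by
    rw [hMdef]; ring⟩
  have db : b ∣ M := ⟨(n : ℤ) * x * (p ^ 3 + b * q ^ 3) * (p' ^ 3 + b * q' ^ 3), by
    rw [hMdef]; ring⟩
  have dx : x ∣ M := ⟨(n : ℤ) * b * (p ^ 3 + b * q ^ 3) * (p' ^ 3 + b * q' ^ 3), by
    rw [hMdef]; ring⟩
  have d1 : p ^ 3 + b * q ^ 3 ∣ M := ⟨(n : ℤ) * b * x * (p' ^ 3 + b * q' ^ 3), by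
    rw [hMdef]; ring⟩
  have d2 : p' ^ 3 + b * q' ^ 3 ∣ M := ⟨(n : ℤ) * b * x * (p ^ 3 + b * q ^ 3), by
    rw [hMdef]; ring⟩
  have hfin := hSPP.2.2.1 (M : Eis) (cast_ne hM)
  have hMa : 0 < M.natAbs := Int.natAbs_pos.2 hM
  refine ⟨9 * M.natAbs, by omega, ?_⟩
  intro f hf0 hf
  have h9 : 9 ∣ f := (Dvd.intro _ rfl).trans hf
  have hf1 : 1 < f := by
    have := Nat.le_of_dvd hf0 h9
    omega
  have hMf : M ∣ (f : ℤ) := by
    have h1 : M.natAbs ∣ f := (Dvd.intro_left 9 rfl).trans hf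
    exact Int.natAbs_dvd.1 (Int.natCast_dvd_natCast.2 h1)
  have hlamf : lam ^ 4 ∣ ((f : ℤ) : Eis) := by
    have h1 : ((9 : ℤ) : Eis) ∣ ((f : ℤ) : Eis) :=
      intCast_dvd_intCast.2 (by exact_mod_cast h9)
    refine Dvd.dvd.trans ⟨w ^ 4, ?_⟩ h1
    have h2 : ((9 : ℤ) : Eis) = (3 : Eis) ^ 2 := by norm_num
    rw [h2, three_eq]
    ring
  have hQM : ∀ Q : ℕ, Q.Prime → Q.Coprime f → ¬ (Q : ℤ) ∣ M := by
    intro Q hQ hQf h
    have h1 : (Q : ℤ) ∣ (f : ℤ) := h.trans hMf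
    have h2 : Q ∣ f := Int.natCast_dvd_natCast.1 h1
    have h3 := Nat.Coprime.eq_one_of_dvd hQf h2
    exact hQ.one_lt.ne' h3
  have hBne : ∀ E Q : ℕ, Q.Prime → (n : ℤ) * (Q : ℤ) ^ E ≠ 0 := fun E Q hQ =>
    mul_ne_zero hnz (pow_ne_zero _ (by exact_mod_cast hQ.ne_zero))
  -- the place above `3`
  obtain ⟨c₀, Φ₀, H₀⟩ : ∃ (c : ZMod 3) (Φ : (ZMod f)ˣ →* Multiplicative (ZMod 3)),
      ∀ (E Q : ℕ) (hQ : Q.Coprime f), Q.Prime → AG ((n : ℤ) * (Q : ℤ) ^ E) x →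
        TT none ((n : ℤ) * (Q : ℤ) ^ E) b x p q p' q' =
          c + E * (Φ (ZMod.unitOfCoprime Q hQ)).toAdd := by
    by_cases hLC : LC (uni none) b
    · obtain ⟨C, Φ, H⟩ := Pool.Agent.PTL.DC.place_LC (n := (n : ℤ)) hSLC hnz hn1 hn2 hLC hf1 hlamf
      refine ⟨C + sl w (x : Eis), Φ, ?_⟩
      intro E Q hQ hQp hax
      rw [TT_LC hLC]
      obtain ⟨N0, hN0⟩ := (hAVV none ((n : ℤ) * (Q : ℤ) ^ E) b x p q p' q' (hBne E Q hQp) hb hx hs.toSolW
        (DCOU.sy_zero hSTM hSPP (hBne E Q hQp) hax none) hLC).1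
      rw [H E Q hQ _ N0 hN0]
      show _ + sl w (x : Eis) = _
      ring
    · refine ⟨0, 1, ?_⟩
      intro E Q hQ hQp hax
      unfold TT
      rw [if_neg hLC]
      simp
  -- the places dividing `M`
  have hpl : ∀ π : PP, ∃ (c : ZMod 3) (Φ : (ZMod f)ˣ →* Multiplicative (ZMod 3)),
      π.1 ∣ (M : Eis) → ∀ (E Q : ℕ) (hQ : Q.Coprime f), Q.Prime → AG ((n : ℤ) * (Q : ℤ) ^ E) x →
        TT (some π) ((n : ℤ) * (Q : ℤ) ^ E) b x p q p' q' =
          c + E * (Φ (ZMod.unitOfCoprime Q hQ)).toAdd := by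
    intro π
    by_cases hπM : π.1 ∣ (M : Eis)
    · have hπf : π.1 ∣ ((f : ℤ) : Eis) := hπM.trans (intCast_dvd_intCast.2 hMf)
      by_cases hLC : LC (uni (some π)) b
      · obtain ⟨C, Φ, H⟩ := Pool.Agent.PTL.DC.place_LC (n := (n : ℤ)) (hSTM π.1 π.2.1 (hSPP.2.2.2.1 π).1) hnz hn1
          hn2 hLC hf1 (by rw [pow_one]; exact hπf)
        refine ⟨C + tm π.1 w (x : Eis), Φ, ?_⟩
        intro _ E Q hQ hQp hax
        rw [TT_LC hLC]
        obtain ⟨N0, hN0⟩ := (hAVV (some π) ((n : ℤ) * (Q : ℤ) ^ E) b x p q p' q' (hBne E Q hQp) hb hx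
          hs.toSolW (DCOU.sy_zero hSTM hSPP (hBne E Q hQp) hax (some π)) hLC).1
        rw [H E Q hQ _ N0 hN0]
        show _ + tm π.1 w (x : Eis) = _
        ring
      · refine ⟨if 3 ∣ V π.1 (b : Eis) + V π.1 ((n : ℤ) : Eis) ∧ ¬ 3 ∣ V π.1 (b : Eis)
          then - tm π.1 w (x : Eis) else 0, 1, ?_⟩
        intro _ E Q hQ hQp hax
        rw [TT_some hLC]
        have hVQ : V π.1 ((Q : ℤ) : Eis) = 0 := by
          apply V_eq_zero
          intro hd
          obtain ⟨y, z, hyz⟩ := Nat.isCoprime_iff_coprime.2 hQ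
          apply π.2.1.not_isUnit
          apply isUnit_of_dvd_one
          have h1 : (1 : Eis) = (y : Eis) * ((Q : ℤ) : Eis) + (z : Eis) * ((f : ℤ) : Eis) := by
            have h2 := congrArg (fun t : ℤ => (t : Eis)) hyz
            simp only [Int.cast_add, Int.cast_mul, Int.cast_one] at h2
            exact h2.symm
          rw [h1]
          exact dvd_add (dvd_mul_of_dvd_right hd _) (dvd_mul_of_dvd_right hπf _)
        have hV : V π.1 (((n : ℤ) * (Q : ℤ) ^ E : ℤ) : Eis) = V π.1 ((n : ℤ) : Eis) := by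
          have hQe : ((Q : ℤ) : Eis) ≠ 0 := cast_ne (by exact_mod_cast hQp.ne_zero)
          rw [Int.cast_mul, Int.cast_pow, V_mul π.2.1 (cast_ne hnz) (pow_ne_zero _ hQe),
            V_pow π.2.1 hQe, hVQ, mul_zero, add_zero]
        rw [hV]
        simp
    · exact ⟨0, 1, fun h => absurd h hπM⟩
  choose c Φ H using hpl
  classical
  refine ⟨c₀ + (∑ π ∈ hfin.toFinset, c π) +
    (if LC lam b then 0 else SV sl b p (-p') (-q) q' X Y), Φ₀ * ∏ π ∈ hfin.toFinset, Φ π, 0, ?_⟩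
  intro E Q hQ ρ hE hQp _ hQ3 hρ hab hax r hr
  obtain ⟨hna, ⟨ρ', hρ'⟩, hdv, hint, hcj, -⟩ := hSPLT.2 Q ρ hQp hQ3 hρ
  have hQc : ((Q : ℤ) : Eis) = (Q : Eis) := Int.cast_natCast Q
  have hQ0 : (Q : Eis) ≠ 0 := by
    rw [← hQc]
    exact cast_ne (by exact_mod_cast hQp.ne_zero)
  have hρ2 : (Q : Eis) = ρ'.1 * conj ρ'.1 := by
    rw [hρ', conj_conj, mul_comm]
    exact hρ
  have hcjr : conj ρ'.1 = ρ.1 := by rw [hρ', conj_conj]
  have hBcast : (((n : ℤ) * (Q : ℤ) ^ E : ℤ) : Eis) =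
      ((n : ℤ) : Eis) * (Q : Eis) ^ E := by
    rw [Int.cast_mul, Int.cast_pow, hQc]
  have hQM' := hQM Q hQp hQ
  have hp : Prime (Q : ℤ) := Nat.prime_iff_prime_int.1 hQp
  have hrQ : ¬ (Q : ℤ) ∣ r := by
    intro h
    apply hQM'
    refine Dvd.dvd.trans ?_ db
    have h1 := dvd_sub (dvd_pow h (three_ne_zero)) hr
    rwa [sub_sub_cancel] at h1
  have h3Q : ¬ (Q : ℤ) ∣ 3 := by
    intro h
    have h1 : Q ∣ 3 := by exact_mod_cast h
    have h2 := (Nat.prime_dvd_prime_iff_eq hQp Nat.prime_three).1 h1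
    omega
  -- the value at a place above `Q`
  have key : ∀ σ : PP, (Q : Eis) = σ.1 * conj σ.1 → ¬ Associated σ.1 (conj σ.1) →
      (∀ x : ℤ, σ.1 ∣ (x : Eis) ↔ (Q : ℤ) ∣ x) →
      TT (some σ) ((n : ℤ) * (Q : ℤ) ^ E) b x p q p' q' =
        - (E * TAUVS σ.1 p q p' q' r) := by
    intro σ hσ hσa hσi
    have hnd : ∀ m : ℤ, m ∣ M → ¬ σ.1 ∣ (m : Eis) := by
      intro m hm h
      exact hQM' (((hσi m).1 h).trans hm)
    have hσw : ¬ σ.1 ∣ w := not_dvd_w σ.2.1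
    have hσc : ¬ σ.1 ∣ conj σ.1 := by
      intro h
      apply hσa
      exact σ.2.1.associated_of_dvd (by
        have h1 := (hSPP.2.2.2.1 σ).2
        obtain ⟨τ, hτ⟩ := h1
        rw [← hτ]
        exact τ.2.1) h
    have hc0 : conj σ.1 ≠ 0 := by
      intro h
      apply hQ0
      rw [hσ, h, mul_zero]
    have hVQ : V σ.1 (Q : Eis) = 1 := by
      rw [hσ, V_mul σ.2.1 σ.2.1.ne_zero hc0, V_self, V_eq_zero hσc]
    have hVB : V σ.1 (((n : ℤ) * (Q : ℤ) ^ E : ℤ) : Eis) = E := by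
      rw [hBcast, V_mul_not_dvd σ.2.1 (hnd _ dn) (pow_ne_zero _ hQ0), V_pow σ.2.1 hQ0, hVQ,
        mul_one]
    have hLC : LC (uni (some σ)) b := by
      refine (hLCI.1 σ b hb).2 ⟨?_, ?_⟩
      · rw [V_eq_zero (hnd b db)]
        exact dvd_zero 3
      · have h1 := hab.sym σ
        unfold tm at h1
        rw [hVB, V_eq_zero (hnd b db), Nat.cast_zero, zero_mul, sub_zero] at h1
        have h2 : (E : ZMod 3) ≠ 0 := by
          rcases hE with rfl | rfl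
          · decide
          · decide
        exact (mul_eq_zero.1 h1).resolve_left h2
    rw [TT_LC hLC]
    have hw : sy (some σ) w (x : Eis) = 0 := tm_zero hσw (hnd x dx)
    rw [hw, add_zero]
    obtain ⟨N0, hN0⟩ := (hAVV (some σ) ((n : ℤ) * (Q : ℤ) ^ E) b x p q p' q' (hBne E Q hQp) hb hx
      hs.toSolW (DCOU.sy_zero hSTM hSPP (hBne E Q hQp) hax (some σ)) hLC).1
    obtain ⟨r₁, hr₁, hrr⟩ := lift_root hQp h3Q hrQ hr N0
    have hσQ : σ.1 ∣ (Q : Eis) := by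
      rw [hσ]
      exact Dvd.intro _ rfl
    have hr0 : σ.1 ^ (N0 + 1) ∣ (r₁ : Eis) ^ 3 - (b : Eis) := by
      have h1 : (Q : Eis) ^ (N0 + 1) ∣ (r₁ : Eis) ^ 3 - (b : Eis) := by
        have h2 := intCast_dvd_intCast.2 hr₁
        push_cast at h2
        exact h2
      exact (pow_dvd_pow_of_dvd hσQ _).trans h1
    have hr1 : σ.1 ∣ (r₁ : Eis) ^ 3 - (b : Eis) := (dvd_pow_self _ (by omega)).trans hr0
    have hrr' : σ.1 ∣ (r₁ : Eis) - (r : Eis) := by
      have h1 := (hσi (r₁ - r)).2 hrr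
      rwa [Int.cast_sub] at h1
    rw [← hN0 r₁ ((pow_dvd_pow _ (Nat.le_succ _)).trans hr0)]
    have hsym : ∀ (g h : ℤ) (i : ℕ), sym σ.1 (Lf g h i r₁) = sym σ.1 (Lf g h i r) := by
      intro g h i
      apply sym_congr
      have h1 : Lf g h i r₁ - Lf g h i r = (h * w ^ i) * ((r₁ : Eis) - r) := by
        unfold Lf
        ring
      rw [h1]
      exact dvd_mul_of_dvd_right hrr' _
    have k1 := Lf_ndvd (p := p) (q := q) hr1 (hnd _ d1)
    have k2 := Lf_ndvd (p := p') (q := q') hr1 (hnd _ d2)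
    show tm σ.1 (((n : ℤ) * (Q : ℤ) ^ E : ℤ) : Eis) (Lf p q 2 r₁) +
      tm σ.1 (((n : ℤ) * (Q : ℤ) ^ E : ℤ) : Eis) (Lf p' q' 1 r₁) -
      tm σ.1 (((n : ℤ) * (Q : ℤ) ^ E : ℤ) : Eis) (Lf p q 1 r₁) -
      tm σ.1 (((n : ℤ) * (Q : ℤ) ^ E : ℤ) : Eis) (Lf p' q' 2 r₁) =
      - (E * TAUVS σ.1 p q p' q' r)
    rw [DCOU.tm_val hVB (k1 2), DCOU.tm_val hVB (k2 1), DCOU.tm_val hVB (k1 1),
      DCOU.tm_val hVB (k2 2), hsym, hsym, hsym, hsym]
    unfold TAUVS
    ring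
  have hTρ := key ρ hρ hna hint
  have hTρ' := key ρ' hρ2 (by
    rw [hcjr, hρ']
    exact fun h => hna h.symm) (by
    intro x
    rw [← hint x, hρ']
    constructor
    · rintro ⟨y, hy⟩
      refine ⟨conj y, ?_⟩
      have h1 := congrArg conj hy
      rw [map_mul, conj_conj, conj_intCast] at h1
      exact h1
    · rintro ⟨y, hy⟩
      refine ⟨conj y, ?_⟩
      have h1 := congrArg conj hy
      rw [map_mul, conj_intCast] at h1
      exact h1)
  -- the two values are equal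
  have hnρ : ∀ m : ℤ, m ∣ M → ¬ ρ.1 ∣ (m : Eis) := fun m hm h =>
    hQM' (((hint m).1 h).trans hm)
  have hrρ : ρ.1 ∣ (r : Eis) ^ 3 - (b : Eis) := by
    have h1 := (hint (r ^ 3 - b)).2 hr
    push_cast at h1
    exact h1
  have l1 := Lf_ndvd (p := p) (q := q) hrρ (hnρ _ d1)
  have l2 := Lf_ndvd (p := p') (q := q') hrρ (hnρ _ d2)
  have hTT : TAUVS ρ'.1 p q p' q' r = TAUVS ρ.1 p q p' q' r := by
    have e1 := hcj _ (l1 1)
    have e2 := hcj _ (l1 2)
    have e3 := hcj _ (l2 1)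
    have e4 := hcj _ (l2 2)
    rw [(conj_Lf p q r).1] at e1
    rw [(conj_Lf p q r).2] at e2
    rw [(conj_Lf p' q' r).1] at e3
    rw [(conj_Lf p' q' r).2] at e4
    unfold TAUVS
    rw [hρ', e1, e2, e3, e4]
    ring
  rw [hTT] at hTρ'
  have hρne : ρ ≠ ρ' := by
    rintro h
    apply hna
    rw [← hρ', ← h]
  -- the sum
  have hnρ' : ¬ ρ'.1 ∣ (M : Eis) := by
    intro h
    obtain ⟨y, hy⟩ := h
    apply hnρ M dvd_rfl
    refine ⟨conj y, ?_⟩
    have h1 := congrArg conj hy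
    rw [map_mul, hcjr, conj_intCast] at h1
    exact h1
  have hQS : ρ ∉ hfin.toFinset := by
    rw [Set.Finite.mem_toFinset]
    exact hnρ M dvd_rfl
  have hQS' : ρ' ∉ hfin.toFinset := by
    rw [Set.Finite.mem_toFinset]
    exact hnρ'
  have hsupp : (Function.support fun v : Pl => TT v ((n : ℤ) * (Q : ℤ) ^ E) b x p q p' q') ⊆
      ((insert none (insert (some ρ) (insert (some ρ') (hfin.toFinset.image some))) :
        Finset Pl) : Set Pl) := by
    intro v hv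
    by_contra hnv
    apply hv
    rcases v with _ | π
    · exact absurd (Finset.mem_coe.2 (Finset.mem_insert_self _ _)) hnv
    · have hnM : ¬ π.1 ∣ (M : Eis) := by
        intro h
        apply hnv
        rw [Finset.mem_coe]
        refine Finset.mem_insert_of_mem (Finset.mem_insert_of_mem (Finset.mem_insert_of_mem
          (Finset.mem_image_of_mem _ ?_)))
        rw [Set.Finite.mem_toFinset]
        exact h
      have hπne : π ≠ ρ := by
        rintro rfl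
        apply hnv
        rw [Finset.mem_coe]
        exact Finset.mem_insert_of_mem (Finset.mem_insert_self _ _)
      have hπne' : π ≠ ρ' := by
        rintro rfl
        apply hnv
        rw [Finset.mem_coe]
        exact Finset.mem_insert_of_mem (Finset.mem_insert_of_mem (Finset.mem_insert_self _ _))
      have hd : ∀ m : ℤ, m ∣ M → ¬ π.1 ∣ (m : Eis) := fun m hm h =>
        hnM (h.trans (intCast_dvd_intCast.2 hm))
      have hπQnd : ¬ π.1 ∣ (Q : Eis) := by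
        intro h
        rcases hdv π h with h1 | h1
        · exact hπne (Subtype.ext h1)
        · exact hπne' (Subtype.ext (h1.trans hρ'.symm))
      have hnB : ¬ π.1 ∣ (((n : ℤ) * (Q : ℤ) ^ E : ℤ) : Eis) := by
        rw [hBcast]
        intro h
        rcases π.2.1.dvd_or_dvd h with h1 | h1
        · exact hd _ dn h1
        · exact hπQnd (π.2.1.dvd_of_dvd_pow h1)
      have hnw : ¬ π.1 ∣ w := not_dvd_w π.2.1
      show TT (some π) ((n : ℤ) * (Q : ℤ) ^ E) b x p q p' q' = 0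
      by_cases hLC : LC (uni (some π)) b
      · rw [TT_LC hLC]
        have hw : sy (some π) w (x : Eis) = 0 := tm_zero hnw (hd x dx)
        obtain ⟨N0, hN0⟩ := (hAVV (some π) ((n : ℤ) * (Q : ℤ) ^ E) b x p q p' q' (hBne E Q hQp) hb hx
          hs.toSolW (DCOU.sy_zero hSTM hSPP (hBne E Q hQp) hax (some π)) hLC).1
        obtain ⟨r₁, hr₁⟩ := hLC (max N0 1)
        have hr0 : uni (some π) ^ N0 ∣ (r₁ : Eis) ^ 3 - (b : Eis) :=
          (pow_dvd_pow _ (le_max_left _ _)).trans hr₁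
        have hr1 : π.1 ∣ (r₁ : Eis) ^ 3 - (b : Eis) := by
          have h1 : π.1 ^ 1 ∣ (r₁ : Eis) ^ 3 - (b : Eis) :=
            (pow_dvd_pow π.1 (le_max_right N0 1)).trans hr₁
          rwa [pow_one] at h1
        have k1 := Lf_ndvd (p := p) (q := q) hr1 (hd _ d1)
        have k2 := Lf_ndvd (p := p') (q := q') hr1 (hd _ d2)
        rw [hw, ← hN0 r₁ hr0]
        show tm π.1 (((n : ℤ) * (Q : ℤ) ^ E : ℤ) : Eis) (Lf p q 2 r₁) +
          tm π.1 (((n : ℤ) * (Q : ℤ) ^ E : ℤ) : Eis) (Lf p' q' 1 r₁) -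
          tm π.1 (((n : ℤ) * (Q : ℤ) ^ E : ℤ) : Eis) (Lf p q 1 r₁) -
          tm π.1 (((n : ℤ) * (Q : ℤ) ^ E : ℤ) : Eis) (Lf p' q' 2 r₁) + 0 = 0
        rw [tm_zero hnB (k1 2), tm_zero hnB (k2 1), tm_zero hnB (k1 1), tm_zero hnB (k2 2)]
        simp
      · rw [TT_some hLC, if_neg]
        rintro ⟨-, h1⟩
        apply h1
        rw [V_eq_zero (hd b db)]
        exact dvd_zero 3
  have hn_notin : (none : Pl) ∉ insert (some ρ) (insert (some ρ')
      (hfin.toFinset.image some)) := by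
    simp
  have hρ'_notin : (some ρ' : Pl) ∉ hfin.toFinset.image some := by
    intro h
    obtain ⟨y, hy, hy'⟩ := Finset.mem_image.1 h
    rw [Option.some.injEq] at hy'
    rw [hy'] at hy
    exact hQS' hy
  have hρ_notin : (some ρ : Pl) ∉ insert (some ρ') (hfin.toFinset.image some) := by
    intro h
    rcases Finset.mem_insert.1 h with h1 | h1
    · exact hρne (Option.some_injective _ h1)
    · obtain ⟨y, hy, hy'⟩ := Finset.mem_image.1 h1
      rw [Option.some.injEq] at hy'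
      rw [hy'] at hy
      exact hQS hy
  have hsum : ∑ π ∈ hfin.toFinset, TT (some π) ((n : ℤ) * (Q : ℤ) ^ E) b x p q p' q' =
      ∑ π ∈ hfin.toFinset, (c π + E * (Φ π (ZMod.unitOfCoprime Q hQ)).toAdd) := by
    refine Finset.sum_congr rfl ?_
    intro π hπ
    rw [Set.Finite.mem_toFinset] at hπ
    exact H π hπ E Q hQ hQp hax
  unfold OT OO
  rw [finsum_eq_sum_of_support_subset _ hsupp, Finset.sum_insert hn_notin,
    Finset.sum_insert hρ_notin, Finset.sum_insert hρ'_notin,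
    Finset.sum_image (fun _ _ _ _ h => Option.some_injective _ h),
    hsum, hTρ, hTρ', H₀ E Q hQ hQp hax, Finset.sum_add_distrib, MonoidHom.mul_apply,
    MonoidHom.finsetProd_apply, toAdd_mul, toAdd_prod, ← Finset.mul_sum]
  have h3 : (3 : ZMod 3) = 0 := rfl
  linear_combination (-(E * TAUVS ρ.1 p q p' q' r)) * h3


end Pool.Agent.PT3

end

section

/-!
# LL1: the linear forms of a point when `x` is a local cube
-/

open NumberField IsDedekindDomain Finset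
open scoped nonZeroDivisors Pointwise

namespace Pool.Agent.PT3

open Pool.Agent.Lib_helper18 Pool.Agent.Lib_helper18.Eis Pool.Agent.Lib_helper84.Cub
open Pool.Agent.PT Pool.Agent.PTE

namespace LL1

/-! ### Integers -/

/-- the power of `3` -/
theorem exists_unit {n : ℤ} (hn : n ≠ 0) :
    ∃ m : ℤ, n = 3 ^ padicValInt 3 n * m ∧ ¬ (3 : ℤ) ∣ m := by
  have : Fact (Nat.Prime 3) := ⟨Nat.prime_three⟩
  obtain ⟨m, hm⟩ : ((3 : ℕ) : ℤ) ^ padicValInt 3 n ∣ n := padicValInt_dvd n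
  have hm' : n = 3 ^ padicValInt 3 n * m := hm
  refine ⟨m, hm', ?_⟩
  rintro ⟨k, hk⟩
  have h1 : ((3 : ℕ) : ℤ) ^ (padicValInt 3 n + 1) ∣ n := by
    refine ⟨k, ?_⟩
    have h3 : n = 3 ^ padicValInt 3 n * (3 * k) := by rw [← hk]; exact hm'
    have h4 : ((3 : ℕ) : ℤ) ^ (padicValInt 3 n + 1) * k = 3 ^ padicValInt 3 n * (3 * k) := by
      rw [pow_succ]
      push_cast
      ring
    exact h3.trans h4.symm
  rcases (padicValInt_dvd_iff (p := 3) (padicValInt 3 n + 1) n).1 h1 with h2 | h2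
  · exact hn h2
  · omega

theorem pow_three_cong (a : ℤ) : (3 : ℤ) ∣ a ^ 3 - a := by
  have h : a % 3 = 0 ∨ a % 3 = 1 ∨ a % 3 = 2 := by omega
  obtain ⟨k, hk⟩ : ∃ k, a = 3 * k + a % 3 := ⟨a / 3, by omega⟩
  rcases h with h | h | h
  · rw [h] at hk
    exact ⟨9 * k ^ 3 - k, by rw [hk]; ring⟩
  · rw [h] at hk
    exact ⟨9 * k ^ 3 + 9 * k ^ 2 + 2 * k, by rw [hk]; ring⟩
  · rw [h] at hk
    exact ⟨9 * k ^ 3 + 18 * k ^ 2 + 11 * k + 2, by rw [hk]; ring⟩

theorem ndvd_mul {a b : ℤ} (ha : ¬ (3 : ℤ) ∣ a) (hb : ¬ (3 : ℤ) ∣ b) : ¬ (3 : ℤ) ∣ a * b := by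
  intro h
  rcases Int.prime_three.dvd_or_dvd h with h | h
  · exact ha h
  · exact hb h

/-- the main computation with integers -/
theorem int_part (N : ℕ) : ∀ (X c : ℤ), X.natAbs ≤ N → X ≠ 0 → ∀ (v : ℕ) (m : ℤ),
    X ^ 3 + c ^ 3 = 3 ^ v * m → ¬ (3 : ℤ) ∣ m → v % 3 = 1 →
    ∃ (a : ℕ) (X1 c1 : ℤ), X = 3 ^ a * X1 ∧ c = 3 ^ a * c1 ∧ ¬ (3 : ℤ) ∣ X1 ∧
      (27 : ℤ) ∣ X1 + c1 := by
  induction N with
  | zero =>
    intro X c hN hX
    exact absurd (Int.natAbs_eq_zero.1 (Nat.le_zero.1 hN)) hX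
  | succ N ih =>
    intro X c hN hX v m h hm hv
    obtain ⟨v', rfl⟩ : ∃ v', v = v' + 1 := ⟨v - 1, by omega⟩
    have h3 : (3 : ℤ) ∣ X ^ 3 + c ^ 3 := by
      rw [h, pow_succ]
      exact ⟨3 ^ v' * m, by ring⟩
    have hX3 := pow_three_cong X
    have hc3 := pow_three_cong c
    have hs : (3 : ℤ) ∣ X + c := by omega
    by_cases hX0 : (3 : ℤ) ∣ X
    · have hc0 : (3 : ℤ) ∣ c := by omega
      obtain ⟨X', rfl⟩ := hX0
      obtain ⟨c', rfl⟩ := hc0
      have hX' : X' ≠ 0 := by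
        rintro rfl
        exact hX (mul_zero _)
      have hN' : X'.natAbs ≤ N := by
        rw [Int.natAbs_mul] at hN
        have h1 : 0 < X'.natAbs := Int.natAbs_pos.2 hX'
        have h2 : (3 : ℤ).natAbs = 3 := rfl
        rw [h2] at hN
        omega
      have hv3 : 3 ≤ v' := by
        by_contra hlt
        have hv0 : v' = 0 := by omega
        subst hv0
        apply hm
        refine ⟨3 * (X' ^ 3 + c' ^ 3), ?_⟩
        have h4 : (3 : ℤ) * m = 3 * (3 * (3 * (X' ^ 3 + c' ^ 3))) := by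
          rw [zero_add, pow_one] at h
          linear_combination -h
        exact mul_left_cancel₀ three_ne_zero h4
      obtain ⟨u, rfl⟩ : ∃ u, v' = u + 3 := ⟨v' - 3, by omega⟩
      have h5 : X' ^ 3 + c' ^ 3 = 3 ^ (u + 1) * m := by
        have h6 : (27 : ℤ) * (X' ^ 3 + c' ^ 3) = 27 * (3 ^ (u + 1) * m) := by
          have h7 : (3 : ℤ) ^ (u + 3 + 1) = 27 * 3 ^ (u + 1) := by
            rw [show u + 3 + 1 = (u + 1) + 3 by ring, pow_add]
            norm_num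
            ring
          rw [h7] at h
          linear_combination h
        exact mul_left_cancel₀ (by norm_num) h6
      obtain ⟨a, X1, c1, e1, e2, e3, e4⟩ := ih X' c' hN' hX' (u + 1) m h5 hm (by omega)
      refine ⟨a + 1, X1, c1, ?_, ?_, e3, e4⟩
      · rw [e1, pow_succ]
        ring
      · rw [e2, pow_succ]
        ring
    · have hc0 : ¬ (3 : ℤ) ∣ c := by omega
      obtain ⟨s', hs'⟩ := hs
      set u : ℤ := 3 * s' ^ 2 - X * c with hu
      have hu3 : ¬ (3 : ℤ) ∣ u := by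
        intro h1
        apply ndvd_mul hX0 hc0
        have h2 : X * c = 3 * s' ^ 2 - u := by rw [hu]; ring
        rw [h2]
        exact dvd_sub (dvd_mul_right _ _) h1
      have hfac : X ^ 3 + c ^ 3 = 9 * (s' * u) := by
        have h1 : X ^ 3 + c ^ 3 = (X + c) * ((X + c) ^ 2 - 3 * (X * c)) := by ring
        rw [h1, hs', hu]
        ring
      have hv1 : 3 ≤ v' := by
        by_contra hlt
        have hv0 : v' = 0 := by omega
        subst hv0
        apply hm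
        refine ⟨s' * u, ?_⟩
        have h4 : (3 : ℤ) * m = 3 * (3 * (s' * u)) := by
          rw [zero_add, pow_one] at h
          linear_combination hfac - h
        exact mul_left_cancel₀ three_ne_zero h4
      obtain ⟨t, rfl⟩ : ∃ t, v' = t + 3 := ⟨v' - 3, by omega⟩
      have h9 : (9 : ℤ) ∣ s' * u := by
        refine ⟨3 ^ t * m, ?_⟩
        have h6 : (9 : ℤ) * (s' * u) = 9 * (9 * (3 ^ t * m)) := by
          have h7 : (3 : ℤ) ^ (t + 3 + 1) = 81 * 3 ^ t := by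
            rw [show t + 3 + 1 = t + 4 by ring, pow_add]
            norm_num
            ring
          rw [h7] at h
          linear_combination h - hfac
        exact mul_left_cancel₀ (by norm_num) h6
      have hcop : IsCoprime (9 : ℤ) u := by
        have h1 : IsCoprime (3 : ℤ) u := (Int.prime_three.coprime_iff_not_dvd).2 hu3
        have h2 := h1.pow_left (m := 2)
        norm_num at h2
        exact h2
      have h9' : (9 : ℤ) ∣ s' := hcop.dvd_of_dvd_mul_right h9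
      refine ⟨0, X, c, by ring, by ring, hX0, ?_⟩
      obtain ⟨r, hr⟩ := h9'
      exact ⟨r, by rw [hs', hr]; ring⟩

/-! ### Eisenstein integers -/

theorem lam_sq : lam ^ 2 = 3 * (-w) := by decide

theorem twentyseven : (27 : Eis) = lam ^ 5 * (-lam) := by decide

/-- powers of `lam` and of `3` -/
theorem int_dvd {M : ℕ} {n : ℤ} (h : lam ^ (2 * M) ∣ (n : Eis)) : (3 : ℤ) ^ M ∣ n := by
  rw [pow_mul, lam_sq, mul_pow] at h
  have h1 : ((3 ^ M : ℤ) : Eis) ∣ (n : Eis) := by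
    have h2 : ((3 ^ M : ℤ) : Eis) ∣ 3 ^ M * (-w) ^ M := ⟨(-w) ^ M, by push_cast; ring⟩
    exact h2.trans h
  exact intCast_dvd_intCast.1 h1

theorem lam_dvd_int {n : ℤ} (h : lam ∣ (n : Eis)) : (3 : ℤ) ∣ n := by
  rw [lam_dvd_iff] at h
  simpa using h

theorem ndvd1 {X : ℤ} (hX : ¬ (3 : ℤ) ∣ X) : ¬ lam ^ (1 + 1) ∣ lam * (X : Eis) := by
  intro h
  rw [pow_succ, pow_one] at h
  exact hX (lam_dvd_int ((mul_dvd_mul_iff_left prime_lam.ne_zero).1 h))

theorem one_sub_w2 : 1 - w ^ 2 = (-1) * (w * (w * lam)) := by decide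

theorem ndvd2 {X : ℤ} (hX : ¬ (3 : ℤ) ∣ X) : ¬ lam ^ (1 + 1) ∣ (1 - w ^ 2) * (X : Eis) := by
  intro h
  apply ndvd1 hX
  have h1 : lam * (X : Eis) = ((1 - w ^ 2) * (X : Eis)) * (-w) := by
    rw [one_sub_w2]
    linear_combination (-lam * (X : Eis)) * w_cube
  rw [h1]
  exact dvd_mul_of_dvd_left h _

/-- continuity -/
theorem near (hSLC : SLC) {X c : ℤ} {i : ℕ} (b : Eis) (hb : b ≠ 0)
    (hn : ¬ lam ^ (1 + 1) ∣ (1 - w ^ i) * (X : Eis)) (h : (27 : ℤ) ∣ X + c) :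
    (X : Eis) + w ^ i * (c : Eis) ≠ 0 ∧
    sl ((X : Eis) + w ^ i * (c : Eis)) b = sl ((1 - w ^ i) * (X : Eis)) b := by
  have hV := DCONST.V_le_of_ndvd prime_lam hn
  obtain ⟨k, hk⟩ := h
  have hk' : (X : Eis) + (c : Eis) = 27 * (k : Eis) := by exact_mod_cast congrArg (Int.cast : ℤ → Eis) hk
  have e : ((X : Eis) + w ^ i * (c : Eis)) - (1 - w ^ i) * (X : Eis) =
      lam ^ 5 * (-lam * (w ^ i * (k : Eis))) := by
    have e1 : ((X : Eis) + w ^ i * (c : Eis)) - (1 - w ^ i) * (X : Eis) =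
      w ^ i * ((X : Eis) + (c : Eis)) := by ring
    rw [e1, hk', twentyseven]
    ring
  have h0 := DCONST.ne_of_ndvd hn
  refine ⟨?_, ?_⟩
  · intro hz
    apply hn
    rw [hz, zero_sub] at e
    have e2 : (1 - w ^ i) * (X : Eis) = lam ^ (1 + 1) * (lam ^ 3 * (lam * (w ^ i * (k : Eis)))) := by
      linear_combination -e
    exact ⟨_, e2⟩
  · refine LSym.cont hSLC _ _ b h0 hb ?_
    have h5 : lam ^ (V lam ((1 - w ^ i) * (X : Eis)) + 4) ∣ lam ^ 5 := pow_dvd_pow _ (by omega)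
    refine h5.trans ?_
    rw [e]
    exact dvd_mul_right _ _

end LL1

open _root_.Pool.Agent.PT3.LL1 in
theorem LL1_thm (hSLC : SLC) (_ : SSL) (hSCJ : SCJ) (_ : LCL) : LL1 := by
  intro x X Y b hx hb hX hY hn0 hlv
  obtain ⟨m, hm, hm3⟩ := exists_unit hn0
  have hv : padicValInt 3 (X ^ 3 + x * Y ^ 3) % 3 = 1 := by
    have h1 : ((padicValInt 3 (X ^ 3 + x * Y ^ 3) : ℕ) : ZMod 3) = ((1 : ℕ) : ZMod 3) := by
      rw [Nat.cast_one]
      exact hlv
    rw [ZMod.natCast_eq_natCast_iff'] at h1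
    simpa using h1
  set v := padicValInt 3 (X ^ 3 + x * Y ^ 3) with hvd
  refine ⟨2 * (v + 1), fun ξ hξ => ?_⟩
  have h1 : lam ^ (2 * (v + 1)) ∣ ((ξ ^ 3 - x : ℤ) : Eis) := by
    push_cast
    exact hξ
  obtain ⟨k, hk⟩ := int_dvd h1
  have h2 : X ^ 3 + (ξ * Y) ^ 3 = 3 ^ v * (m + 3 * (k * Y ^ 3)) := by
    have h3 : X ^ 3 + (ξ * Y) ^ 3 = (X ^ 3 + x * Y ^ 3) + (ξ ^ 3 - x) * Y ^ 3 := by ring
    rw [h3, hm, hk, pow_succ]
    ring
  have hm3' : ¬ (3 : ℤ) ∣ m + 3 * (k * Y ^ 3) := by omega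
  obtain ⟨a, X1, c1, e1, e2, e3, e4⟩ := int_part X.natAbs X (ξ * Y) le_rfl hX v _ h2 hm3' hv
  have hb' : (b : Eis) ≠ 0 := DCONST.cast_ne hb
  obtain ⟨z1, s1⟩ := near hSLC (i := 1) (b : Eis) hb' (by
    rw [pow_one, ← lam_eq]
    exact ndvd1 e3) e4
  obtain ⟨z2, s2⟩ := near hSLC (i := 2) (b : Eis) hb' (ndvd2 e3) e4
  have hp : ((3 : Eis) ^ a) ≠ 0 := by
    have h3 : ((3 ^ a : ℤ) : Eis) ≠ 0 := DCONST.cast_ne (pow_ne_zero a (by norm_num))
    push_cast at h3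
    exact h3
  have hX1 : (X1 : Eis) ≠ 0 := by
    apply DCONST.cast_ne
    rintro rfl
    exact e3 (dvd_zero _)
  have hL : ∀ i : ℕ, Lf X Y i ξ = (3 : Eis) ^ a * ((X1 : Eis) + w ^ i * (c1 : Eis)) := by
    intro i
    have h5 : (X : Eis) = (3 : Eis) ^ a * (X1 : Eis) := by
      rw [e1]
      push_cast
      ring
    have h6 : (ξ : Eis) * (Y : Eis) = (3 : Eis) ^ a * (c1 : Eis) := by
      have := congrArg (Int.cast : ℤ → Eis) e2
      push_cast at this
      exact this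
    unfold Lf
    linear_combination h5 + w ^ i * h6
  have hw : (w : Eis) ≠ 0 := by decide
  have hl : lam ≠ 0 := prime_lam.ne_zero
  have hn1 : (-1 : Eis) ≠ 0 := by decide
  have hs1 : sl ((-1 : Eis)) (b : Eis) = 0 := by
    have h7 := hSCJ.2.2.1 (-1) b (by norm_num) hb
    have h8 : ((-1 : ℤ) : Eis) = -1 := by push_cast; rfl
    rwa [h8] at h7
  have hM := hSLC.mul
  rw [hL 1, hL 2, hM _ _ _ hp z1 hb', hM _ _ _ hp z2 hb', s1, s2, pow_one, ← lam_eq, one_sub_w2,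
    hM _ _ _ hl hX1 hb',
    hM _ _ _ (mul_ne_zero hn1 (mul_ne_zero hw (mul_ne_zero hw hl))) hX1 hb',
    hM _ _ _ hn1 (mul_ne_zero hw (mul_ne_zero hw hl)) hb',
    hM _ _ _ hw (mul_ne_zero hw hl) hb', hM _ _ _ hw hl hb', hs1]
  generalize sl w (b : Eis) = t
  generalize sl lam (b : Eis) = t'
  generalize sl (X1 : Eis) (b : Eis) = t''
  generalize sl ((3 : Eis) ^ a) (b : Eis) = t'''
  have h3 : (3 : ZMod 3) = 0 := by decide
  linear_combination (-t) * h3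

end Pool.Agent.PT3

end

section

/-!
# F3R: two noncubes at a place dividing `B`
-/

namespace Pool.Agent.PT

open Pool.Agent.Lib_helper18 Pool.Agent.Lib_helper18.Eis Pool.Agent.Lib_helper84.Cub

namespace F3R

theorem not_dvd_three (π : PP) : ¬ π.1 ∣ 3 := by
  intro h
  obtain ⟨π, hp, h1, h2⟩ := π
  have h3 : lam ∣ π := ((dvd_three_iff hp).1 h).symm.dvd
  rw [lam_dvd_iff] at h3
  change π ∣ 3 at h
  omega

theorem pow_dvd_iff {l z : Eis} (hl : Prime l) (hz : z ≠ 0) (k : ℕ) : l ^ k ∣ z ↔ k ≤ V l z :=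
  (fin hl hz).pow_dvd_iff_le_multiplicity

theorem taut {Pa Pb Pc Pd : Prop} (n : ¬ (Pa ∧ Pb ∧ Pc ∧ Pd)) (s1 : Pb → Pc → Pd → Pa)
    (s2 : Pa → Pc → Pd → Pb) (s3 : Pa → Pb → Pd → Pc) (s4 : Pa → Pb → Pc → Pd) (k1 : Pa ∨ Pb)
    (k2 : Pa ∨ Pc) (k3 : Pa ∨ Pd) (k4 : Pb ∨ Pd) (k5 : Pc ∨ Pd) : Pa ∧ Pd ∧ ¬ Pb ∧ ¬ Pc := by
  have a1 : Pa := by
    by_contra h
    exact h (s1 (k1.resolve_left h) (k2.resolve_left h) (k3.resolve_left h))
  have d1 : Pd := by
    by_contra h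
    exact h (s4 a1 (k4.resolve_right h) (k5.resolve_right h))
  exact ⟨a1, d1, fun hb => n ⟨a1, hb, s3 a1 hb d1, d1⟩, fun hc => n ⟨a1, s2 a1 hc d1, hc, d1⟩⟩

/-- Four terms with sum zero whose valuations are known modulo 3. -/
theorem four {l : Eis} (hl : Prime l) {a b c d : Eis} {ra rb rc rd : ZMod 3}
    (h : a + b + c + d = 0) (ha : a ≠ 0 → (V l a : ZMod 3) = ra)
    (hb : b ≠ 0 → (V l b : ZMod 3) = rb) (hc : c ≠ 0 → (V l c : ZMod 3) = rc)
    (hd : d ≠ 0 → (V l d : ZMod 3) = rd) (h1 : ra ≠ rb) (h2 : ra ≠ rc) (h3 : ra ≠ rd)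
    (h4 : rb ≠ rd) (h5 : rc ≠ rd) (h0 : ¬ (a = 0 ∧ b = 0 ∧ c = 0 ∧ d = 0)) :
    b ≠ 0 ∧ c ≠ 0 ∧ V l b = V l c ∧ l ^ (V l b + 1) ∣ a ∧ l ^ (V l b + 1) ∣ d := by
  classical
  have hex : ∃ k : ℕ, ¬ (l ^ (k + 1) ∣ a ∧ l ^ (k + 1) ∣ b ∧ l ^ (k + 1) ∣ c ∧
      l ^ (k + 1) ∣ d) := by
    by_contra hno
    push Not at hno
    have key : ∀ z : Eis, (∀ k : ℕ, l ^ (k + 1) ∣ z) → z = 0 := by
      intro z hz
      by_contra hz0
      have := (pow_dvd_iff hl hz0 _).1 (hz (V l z))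
      omega
    exact h0 ⟨key a fun k => (hno k).1, key b fun k => (hno k).2.1,
      key c fun k => (hno k).2.2.1, key d fun k => (hno k).2.2.2⟩
  obtain ⟨k, hk, hmin⟩ : ∃ k : ℕ, ¬ (l ^ (k + 1) ∣ a ∧ l ^ (k + 1) ∣ b ∧ l ^ (k + 1) ∣ c ∧
      l ^ (k + 1) ∣ d) ∧ (l ^ k ∣ a ∧ l ^ k ∣ b ∧ l ^ k ∣ c ∧ l ^ k ∣ d) := by
    refine ⟨Nat.find hex, Nat.find_spec hex, ?_⟩
    rcases Nat.eq_zero_or_pos (Nat.find hex) with h6 | h6
    · rw [h6, pow_zero]
      exact ⟨one_dvd _, one_dvd _, one_dvd _, one_dvd _⟩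
    · have h7 := Nat.find_min hex (m := Nat.find hex - 1) (by omega)
      rw [not_not, Nat.sub_add_cancel h6] at h7
      exact h7
  have res : ∀ z : Eis, l ^ k ∣ z → ¬ l ^ (k + 1) ∣ z → z ≠ 0 ∧ V l z = k := by
    intro z hz hz'
    have hz0 : z ≠ 0 := by
      rintro rfl
      exact hz' (dvd_zero _)
    rw [pow_dvd_iff hl hz0] at hz hz'
    exact ⟨hz0, by omega⟩
  obtain ⟨ka, kb, kc, kd⟩ := hmin
  have s1 : l ^ (k + 1) ∣ b → l ^ (k + 1) ∣ c → l ^ (k + 1) ∣ d → l ^ (k + 1) ∣ a := by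
    intro p1 p2 p3
    have e : a = -(b + c + d) := by linear_combination h
    rw [e]
    exact ((p1.add p2).add p3).neg_right
  have s2 : l ^ (k + 1) ∣ a → l ^ (k + 1) ∣ c → l ^ (k + 1) ∣ d → l ^ (k + 1) ∣ b := by
    intro p1 p2 p3
    have e : b = -(a + c + d) := by linear_combination h
    rw [e]
    exact ((p1.add p2).add p3).neg_right
  have s3 : l ^ (k + 1) ∣ a → l ^ (k + 1) ∣ b → l ^ (k + 1) ∣ d → l ^ (k + 1) ∣ c := by
    intro p1 p2 p3
    have e : c = -(a + b + d) := by linear_combination h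
    rw [e]
    exact ((p1.add p2).add p3).neg_right
  have s4 : l ^ (k + 1) ∣ a → l ^ (k + 1) ∣ b → l ^ (k + 1) ∣ c → l ^ (k + 1) ∣ d := by
    intro p1 p2 p3
    have e : d = -(a + b + c) := by linear_combination h
    rw [e]
    exact ((p1.add p2).add p3).neg_right
  have kk : ∀ {y z : Eis} {ry rz : ZMod 3}, (y ≠ 0 → (V l y : ZMod 3) = ry) →
      (z ≠ 0 → (V l z : ZMod 3) = rz) → ry ≠ rz → l ^ k ∣ y → l ^ k ∣ z →
      l ^ (k + 1) ∣ y ∨ l ^ (k + 1) ∣ z := by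
    intro y z ry rz hy hz hyz ky kz
    by_contra hno
    rw [not_or] at hno
    obtain ⟨y0, vy⟩ := res y ky hno.1
    obtain ⟨z0, vz⟩ := res z kz hno.2
    apply hyz
    rw [← hy y0, ← hz z0, vy, vz]
  have k1 := kk ha hb h1 ka kb
  have k2 := kk ha hc h2 ka kc
  have k3 := kk ha hd h3 ka kd
  have k4 := kk hb hd h4 kb kd
  have k5 := kk hc hd h5 kc kd
  obtain ⟨f1, f2, f3, f4⟩ := taut hk s1 s2 s3 s4 k1 k2 k3 k4 k5
  obtain ⟨b0, vb⟩ := res b kb f3
  obtain ⟨c0, vc⟩ := res c kc f4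
  exact ⟨b0, c0, by rw [vb, vc], by rw [vb]; exact f1, by rw [vb]; exact f2⟩

theorem ne_zero_cast {z : ℤ} (h : z ≠ 0) : (z : Eis) ≠ 0 := by
  intro h1
  apply h
  have h2 := congrArg Eis.re h1
  simpa using h2

/-- From the valuations of the four terms. -/
theorem cmp {l : Eis} (hl : Prime l) {A a b c d y z : Eis} (hA : A ≠ 0) (hb : b ≠ 0) (hc : c ≠ 0)
    (hV : V l b = V l c) (ha : l ^ (V l b + 1) ∣ a) (hd : l ^ (V l b + 1) ∣ d)
    (e1 : b * c = A * y ^ 3) (e2 : a * d = A * z ^ 3) : y ≠ 0 ∧ l ^ (V l y + 1) ∣ z := by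
  have hy : y ≠ 0 := by
    rintro rfl
    have : b * c = 0 := by rw [e1]; ring
    exact (mul_ne_zero hb hc) this
  refine ⟨hy, ?_⟩
  by_cases hz : z = 0
  · rw [hz]
    exact dvd_zero _
  · rw [pow_dvd_iff hl hz]
    have h1 : V l (b * c) = V l A + 3 * V l y := by
      rw [e1, V_mul hl hA (pow_ne_zero _ hy), V_pow hl hy]
    rw [V_mul hl hb hc] at h1
    have h2 : V l (A * z ^ 3) = V l A + 3 * V l z := by
      rw [V_mul hl hA (pow_ne_zero _ hz), V_pow hl hz]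
    have h3 : l ^ (V l b + 1 + (V l b + 1)) ∣ A * z ^ 3 := by
      rw [← e2, pow_add]
      exact mul_dvd_mul ha hd
    rw [pow_dvd_iff hl (mul_ne_zero hA (pow_ne_zero _ hz)), h2] at h3
    omega

theorem three_dvd_iff' (n : ℕ) : 3 ∣ n ↔ (n : ZMod 3) = 0 := (ZMod.natCast_eq_zero_iff n 3).symm

theorem ite3 (n : ℕ) (u : ZMod 3) [Decidable (3 ∣ n)] :
    (if 3 ∣ n then u else 0) = if (n : ZMod 3) = 0 then u else 0 :=
  if_congr (three_dvd_iff' n) rfl rfl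

theorem fin1 : ∀ v β o : ZMod 3, v ≠ 0 → β ≠ 0 →
    (v + β + β) * o = (if β + v = 0 then -(β * o) else 0) + (if β + v = 0 then -(β * o) else 0) := by
  decide

theorem fin2 : ∀ v β ξ o : ZMod 3, v ≠ 0 → β ≠ 0 → ξ ≠ 0 → β ≠ ξ →
    v * o + (v + ξ + β) * o =
      (if β + v = 0 then -(ξ * o) else 0) + (if ξ + v = 0 then -(β * o) else 0) := by
  decide

end F3R

open _root_.Pool.Agent.PT.F3R in
theorem F3R_thm (hSTM : STM) : F3R := by
  intro π B b x p q p' q' hB hb hx hs hdvd hVb hVx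
  have hπ : Prime π.1 := π.2.1
  have h3 := not_dvd_three π
  have S := hSTM π.1 hπ h3
  have B0 : (B : Eis) ≠ 0 := ne_zero_cast hB.ne
  have b0 : (b : Eis) ≠ 0 := ne_zero_cast hb.ne
  have x0 : (x : Eis) ≠ 0 := ne_zero_cast hx.ne
  have w0 : w ≠ 0 := isUnit_w.ne_zero
  have Vw : V π.1 w = 0 := V_eq_zero (not_dvd_of_isUnit hπ isUnit_w)
  have tw : ∀ y : Eis, tm π.1 w y = (V π.1 y : ZMod 3) * ch π.1 w := by
    intro y
    unfold tm
    rw [Vw]
    push_cast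
    ring
  have hv : (V π.1 (B : Eis) : ZMod 3) ≠ 0 := by
    rw [Ne, ← three_dvd_iff']
    have h1 : V π.1 (B : Eis) ≠ 0 := fun h => V_eq_zero_iff.1 h hdvd
    have h2 := hB.cf π
    omega
  have hβ : (V π.1 (b : Eis) : ZMod 3) ≠ 0 := by rwa [Ne, ← three_dvd_iff']
  have hξ : (V π.1 (x : Eis) : ZMod 3) ≠ 0 := by rwa [Ne, ← three_dvd_iff']
  have skw : ∀ a c : Eis, tm π.1 a c = - tm π.1 c a := by
    intro a c
    unfold tm
    ring
  have e3 : ∀ n : ℕ, ((3 * n : ℕ) : ZMod 3) = 0 := fun n => (three_dvd_iff' _).1 ⟨n, rfl⟩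
  -- the valuations of the four terms
  have c1 : (p : Eis) ^ 3 ≠ 0 → (V π.1 ((p : Eis) ^ 3) : ZMod 3) = 0 := by
    intro h
    have h1 : (p : Eis) ≠ 0 := fun h' => h (by rw [h']; ring)
    rw [V_pow hπ h1, e3]
  have c2 : (b : Eis) * (q : Eis) ^ 3 ≠ 0 →
      (V π.1 ((b : Eis) * (q : Eis) ^ 3) : ZMod 3) = V π.1 (b : Eis) := by
    intro h
    have h1 : (q : Eis) ≠ 0 := fun h' => h (by rw [h']; ring)
    rw [V_mul hπ b0 (pow_ne_zero _ h1), V_pow hπ h1, Nat.cast_add, e3, add_zero]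
  have c3 : -((x : Eis) * (p' : Eis) ^ 3) ≠ 0 →
      (V π.1 (-((x : Eis) * (p' : Eis) ^ 3)) : ZMod 3) = V π.1 (x : Eis) := by
    intro h
    have h1 : (p' : Eis) ≠ 0 := fun h' => h (by rw [h']; ring)
    rw [V_neg, V_mul hπ x0 (pow_ne_zero _ h1), V_pow hπ h1, Nat.cast_add, e3, add_zero]
  have c4 : -((x : Eis) * (b : Eis) * (q' : Eis) ^ 3) ≠ 0 →
      (V π.1 (-((x : Eis) * (b : Eis) * (q' : Eis) ^ 3)) : ZMod 3) =
        V π.1 (x : Eis) + V π.1 (b : Eis) := by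
    intro h
    have h1 : (q' : Eis) ≠ 0 := fun h' => h (by rw [h']; ring)
    rw [V_neg, V_mul hπ (mul_ne_zero x0 b0) (pow_ne_zero _ h1), V_mul hπ x0 b0, V_pow hπ h1,
      Nat.cast_add, e3, add_zero, Nat.cast_add]
  have heq : (p : Eis) ^ 3 + (b : Eis) * (q : Eis) ^ 3 =
      (x : Eis) * ((p' : Eis) ^ 3 + (b : Eis) * (q' : Eis) ^ 3) := by
    exact_mod_cast congrArg (Int.cast : ℤ → Eis) hs.eq
  have hn1 : (p : Eis) ^ 3 + (b : Eis) * (q : Eis) ^ 3 ≠ 0 := by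
    have := ne_zero_cast hs.n1
    push_cast at this
    exact this
  have hG : ∀ i, Gf p q p' q' i = (q : Eis) * p' - w ^ i * p * q' := fun i => rfl
  have hBxb : ((B * x * b : ℤ) : Eis) = (B : Eis) * x * b := by push_cast; ring
  have hsum : tm π.1 w ((B * x * b : ℤ) : Eis) = ((V π.1 (B : Eis) : ZMod 3) +
      V π.1 (x : Eis) + V π.1 (b : Eis)) * ch π.1 w := by
    rw [tw, hBxb, V_mul hπ (mul_ne_zero B0 x0) b0, V_mul hπ B0 x0]
    push_cast
    ring
  unfold UV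
  rw [hsum, tw, tw, ite3, ite3, Nat.cast_add, Nat.cast_add]
  by_cases hj : (V π.1 (b : Eis) : ZMod 3) = V π.1 (x : Eis)
  · obtain ⟨f1, f2, f3, f4, f5⟩ := four hπ (a := (p : Eis) ^ 3) (b := (b : Eis) * (q : Eis) ^ 3)
      (c := -((x : Eis) * (p' : Eis) ^ 3)) (d := -((x : Eis) * (b : Eis) * (q' : Eis) ^ 3))
      (by linear_combination heq) c1 c2 c3 c4 hβ.symm hξ.symm
      (by
        rw [← hj]
        intro h
        apply hβ
        linear_combination h + (V π.1 (b : Eis) : ZMod 3) * three_zmod)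
      (by
        intro h
        apply hξ
        linear_combination -h)
      (by
        intro h
        apply hβ
        linear_combination -h)
      (fun h => hn1 (by rw [h.1, h.2.1, add_zero]))
    obtain ⟨g1, g2⟩ := cmp hπ (A := -((x : Eis) * b)) (y := (q : Eis) * p') (z := (p : Eis) * q')
      (neg_ne_zero.2 (mul_ne_zero x0 b0)) f1 f2 f3 f4 f5 (by ring) (by ring)
    have hc : ∀ i, tm π.1 (B : Eis) (Gf p q p' q' i) = tm π.1 (B : Eis) ((q : Eis) * p') := by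
      intro i
      rw [skw, skw (B : Eis), S.cont ((q : Eis) * p') (Gf p q p' q' i) (B : Eis) g1 B0]
      have e : Gf p q p' q' i - (q : Eis) * p' = (p : Eis) * q' * (-w ^ i) := by
        rw [hG]
        ring
      rw [e]
      exact Dvd.dvd.mul_right g2 _
    rw [hc, hc, sub_self, zero_add, ← hj]
    exact fin1 _ _ _ hv hβ
  · obtain ⟨f1, f2, f3, f4, f5⟩ := four hπ (a := (b : Eis) * (q : Eis) ^ 3) (b := (p : Eis) ^ 3)
      (c := -((x : Eis) * (b : Eis) * (q' : Eis) ^ 3)) (d := -((x : Eis) * (p' : Eis) ^ 3))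
      (by linear_combination heq) c2 c1 c4 c3 hβ
      (by
        intro h
        apply hξ
        linear_combination -h)
      hj hξ.symm
      (by
        intro h
        apply hβ
        linear_combination h)
      (fun h => hn1 (by rw [h.1, h.2.1, add_zero]))
    obtain ⟨g1, g2⟩ := cmp hπ (A := -((x : Eis) * b)) (y := (p : Eis) * q') (z := (q : Eis) * p')
      (neg_ne_zero.2 (mul_ne_zero x0 b0)) f1 f2 f3 f4 f5 (by ring) (by ring)
    have hc : ∀ i, tm π.1 (B : Eis) (Gf p q p' q' i) =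
        -(tm π.1 (w ^ i) (B : Eis) + tm π.1 (-((p : Eis) * q')) (B : Eis)) := by
      intro i
      have gn : -((p : Eis) * q') ≠ 0 := neg_ne_zero.2 g1
      have wi : w ^ i ≠ 0 := pow_ne_zero _ w0
      have hVi : V π.1 (w ^ i * -((p : Eis) * q')) = V π.1 ((p : Eis) * q') := by
        rw [V_mul hπ wi gn, V_neg, V_eq_zero (not_dvd_of_isUnit hπ (isUnit_w.pow i)), zero_add]
      rw [skw, ← S.mul _ _ _ wi gn B0,
        S.cont (w ^ i * -((p : Eis) * q')) (Gf p q p' q' i) (B : Eis) (mul_ne_zero wi gn) B0]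
      have e : Gf p q p' q' i - w ^ i * -((p : Eis) * q') = (q : Eis) * p' := by
        rw [hG]
        ring
      rw [e, hVi]
      exact g2
    have hw2 : tm π.1 (w ^ 2) (B : Eis) = tm π.1 w (B : Eis) + tm π.1 w (B : Eis) := by
      rw [pow_two, S.mul _ _ _ w0 w0 B0]
    rw [hc, hc, hw2, pow_one, tw]
    have h6 := fin2 _ _ _ (ch π.1 w) hv hβ hξ hj
    rw [← h6]
    ring

end Pool.Agent.PT

end

section

/-!
# EADU: `AdC` and `AdT` for the primes `q = 1 (mod 3)`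

Follows `Pool/Agent/PTE/EADMS.lean`.
-/

set_option autoImplicit false

namespace Pool.Agent.PT3

open Pool.Agent.Lib_helper18 Pool.Agent.Lib_helper18.Eis Pool.Agent.Lib_helper84.Cub
open Pool.Agent.PT Pool.Agent.PTE

namespace EADU

open Pool.Agent.PT.EADM

theorem ch_pow' {π a : Eis} (hπ : Prime π) (h3 : ¬ π ∣ 3) (ha : a ≠ 0) (E : ℕ) :
    ch π (a ^ E) = (E : ZMod 3) * ch π a := by
  induction E with
  | zero =>
    have h1 : ch π (1 * 1 : Eis) = ch π 1 + ch π 1 := ch_mul hπ h3 one_ne_zero one_ne_zero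
    rw [one_mul] at h1
    have h2 : ch π (1 : Eis) = 0 := by
      have h4 := sub_eq_zero.2 h1
      linear_combination - h4
    rw [pow_zero, h2, Nat.cast_zero, zero_mul]
  | succ k ih =>
    rw [pow_succ, ch_mul hπ h3 (pow_ne_zero _ ha) ha, ih]
    push_cast
    ring

theorem below_ne {π : PP} {l : ℕ} (h : Below π l) : l ≠ 3 := by
  rcases h.h with ⟨h1, _⟩ | ⟨h1, _⟩ <;> omega

/-- the type of `B` at `3` -/
theorem type (hLCL : LCL) {h n E q : ℕ} {w0 : ZMod 3} (hh : h = 1 ∨ h = 2)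
    (hn0 : n ≠ 0) (hn3 : ¬ 3 ∣ n) (hq0 : q ≠ 0) (hq3 : ¬ 3 ∣ q)
    (hw : wt (((q : ℤ) ^ E) ^ 2) = w0) : TyB h n w0 (BB h n E q) := by
  obtain ⟨-, hL2, ⟨hL3, hL4⟩, hL5, -⟩ := hLCL
  have hn : (n : ℤ) ≠ 0 := by exact_mod_cast hn0
  have hq : (q : ℤ) ≠ 0 := by exact_mod_cast hq0
  have hqE : (q : ℤ) ^ E ≠ 0 := pow_ne_zero _ hq
  have h3n : ¬ (3 : ℤ) ∣ (n : ℤ) := fun h => hn3 (by exact_mod_cast h)
  have h3q : ¬ (3 : ℤ) ∣ (q : ℤ) ^ E := by
    intro h
    have h1 : (3 : ℤ) ∣ (q : ℤ) := Int.prime_three.dvd_of_dvd_pow h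
    exact hq3 (by exact_mod_cast h1)
  have h3h : (3 : ℤ) ^ h ≠ 0 := pow_ne_zero _ (by norm_num)
  have hp : lv ((3 : ℤ) ^ h) = (h : ZMod 3) ∧ lw ((3 : ℤ) ^ h) = 0 := by
    rcases hh with rfl | rfl
    · rw [pow_one]
      exact ⟨by rw [hL3]; norm_num, hL4⟩
    · have h1 := hL2 3 3 (by norm_num) (by norm_num)
      have h2 : (3 : ℤ) ^ 2 = 3 * 3 := by norm_num
      rw [h2, h1.1, h1.2, hL3, hL4]
      constructor
      · decide
      · ring
  have hB : BB h n E q ≠ 0 := mul_ne_zero (mul_ne_zero h3h hn) hqE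
  obtain ⟨h1, h2⟩ := hL2 ((3 : ℤ) ^ h * n) ((q : ℤ) ^ E) (mul_ne_zero h3h hn) hqE
  obtain ⟨h3, h4⟩ := hL2 ((3 : ℤ) ^ h) n h3h hn
  obtain ⟨h5, h6⟩ := hL5 n h3n
  obtain ⟨h7, h8⟩ := hL5 _ h3q
  refine ⟨hB, ?_, ?_⟩
  · unfold BB
    rw [h1, h3, hp.1, h5, h7]
    ring
  · unfold BB
    rw [h2, h4, hp.2, h6, h8, hw]
    ring

/-- the conditions on `B` -/
theorem bt {h n m k : ℕ} {π : Fin m → PP} {p e : Fin m → ℕ} {r f : Fin k → ℕ} {E q : ℕ}
    (hN : NF n π p e r f) (hh : h = 1 ∨ h = 2) (hE : E = 1 ∨ E = 2) (hq : q.Prime)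
    (hq3 : ¬ 3 ∣ q) (hqn : ¬ q ∣ n) (hbelow : ∀ π : PP, ∃ l, Below π l) :
    BT (BB h n E q) := by
  have hn0 : n ≠ 0 := n_ne hN
  have hn3 : ¬ 3 ∣ n := three_not hN
  have hM : ¬ 3 ∣ n * q ^ E := by
    intro h1
    rcases Nat.prime_three.dvd_mul.1 h1 with h2 | h2
    · exact hn3 h2
    · exact hq3 (Nat.prime_three.dvd_of_dvd_pow h2)
  have e0 : BB h n E q = ((3 ^ h * (n * q ^ E) : ℕ) : ℤ) := by
    unfold BB
    push_cast
    ring
  have hne : 3 ^ h * (n * q ^ E) ≠ 0 :=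
    mul_ne_zero (pow_ne_zero _ (by norm_num)) (mul_ne_zero hn0 (pow_ne_zero _ hq.ne_zero))
  refine ⟨⟨?_, ?_⟩, ?_, ?_⟩
  · rw [e0]
    exact_mod_cast hne
  · intro ϖ
    obtain ⟨l, hl⟩ := hbelow ϖ
    have hl3 := below_ne hl
    rw [e0, Int.cast_natCast, hl.V_nat hne,
      Nat.factorization_mul (pow_ne_zero _ (by norm_num))
        (mul_ne_zero hn0 (pow_ne_zero _ hq.ne_zero)), Finsupp.add_apply,
      Nat.factorization_mul hn0 (pow_ne_zero _ hq.ne_zero), Finsupp.add_apply]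
    have h1 := fac_le hN l
    have h0 : (3 ^ h).factorization l = 0 := by
      apply Nat.factorization_eq_zero_of_not_dvd
      intro h2
      exact hl3 ((Nat.prime_dvd_prime_iff_eq hl.pr Nat.prime_three).1 (hl.pr.dvd_of_dvd_pow h2))
    by_cases hlq : l = q
    · have h2 : n.factorization l = 0 := by
        rw [hlq]
        exact Nat.factorization_eq_zero_of_not_dvd hqn
      have h3 : (q ^ E).factorization l = E := by
        rw [hlq, hq.factorization_pow, Finsupp.single_eq_same]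
      omega
    · have h3 : (q ^ E).factorization l = 0 := by
        apply Nat.factorization_eq_zero_of_not_dvd
        intro h2
        exact hlq ((Nat.prime_dvd_prime_iff_eq hl.pr hq).1 (hl.pr.dvd_of_dvd_pow h2))
      omega
  · rw [e0]
    have h1 : 3 ∣ 3 ^ h * (n * q ^ E) := by
      apply Dvd.dvd.mul_right
      rcases hh with rfl | rfl
      · norm_num
      · norm_num
    exact_mod_cast h1
  · rw [e0]
    intro h1
    have h2 : 27 ∣ 3 ^ h * (n * q ^ E) := by exact_mod_cast h1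
    apply hM
    rcases hh with rfl | rfl
    · generalize n * q ^ E = M at *
      omega
    · generalize n * q ^ E = M at *
      omega

end EADU

open Pool.Agent.PT.EADM _root_.Pool.Agent.PT3.EADU in
/-- EADU: `AdC` and `AdT`, `q = 1 (mod 3)`. -/
theorem EADU_thm (hSTM : STM) (hSPP : SPP) (hSCJ : SCJ) (hSPLT : SPLT) (hLCL : LCL) : EADU := by
  have _ := hSTM
  intro h n m k π p e r f w0 c E q ρ hN hh hE hq hq3 hcl hqn hqρ
  obtain ⟨_, hSPP2, _, hSPP4, _, hSPP6⟩ := hSPP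
  obtain ⟨hSCJ1, _, _, hSCJ4⟩ := hSCJ
  obtain ⟨hqw, hqc⟩ := hcl
  obtain ⟨-, hsplit⟩ := hSPLT
  obtain ⟨-, -, hS3, hS4, -, -⟩ := hsplit q ρ hq hq3 hqρ
  have hn0 : n ≠ 0 := n_ne hN
  have hn3 : ¬ 3 ∣ n := three_not hN
  have hbelow : ∀ π : PP, ∃ l, Below π l := by
    intro π
    obtain ⟨l, hl, h⟩ := hSPP6 π
    exact ⟨l, hl, h⟩
  have h3q : ¬ 3 ∣ q := by omega
  have hbt := bt hN hh hE hq h3q hqn hbelow
  have hty := EADU.type hLCL hh hn0 hn3 hq.ne_zero h3q hqw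
  refine ⟨hbt, hty, ?_⟩
  have hB0 : BB h n E q ≠ 0 := hbt.ne
  intro x hsupp
  have hρ3 : ¬ ρ.1 ∣ 3 := (hSPP4 ρ).1
  have h3ne : ((3 ^ h * n : ℕ) : Eis) ≠ 0 := natCast_ne
    (mul_ne_zero (pow_ne_zero _ (by norm_num)) hn0)
  have hq0 : (q : Eis) ≠ 0 := natCast_ne hq.ne_zero
  have e1 : ((BB h n E q : ℤ) : Eis) = ((3 ^ h * n : ℕ) : Eis) * (q : Eis) ^ E := by
    unfold BB
    push_cast
    ring
  -- divisors of `3 n`
  have hsupp' : ∀ l : ℕ, l.Prime → l ≠ 3 → (l : ℤ) ∣ x → l ∣ n := by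
    intro l hl hl3 hlx
    rcases hl.dvd_mul.1 (hsupp l hl hlx) with h1 | h1
    · exact absurd ((Nat.prime_dvd_prime_iff_eq hl Nat.prime_three).1 h1) hl3
    · exact h1
  have hq3' : q ≠ 3 := by omega
  -- `ρ` does not divide `x`
  have hρx : ¬ ρ.1 ∣ (x : Eis) := fun h => hqn (hsupp' q hq hq3' ((hS4 x).1 h))
  have hρn : ¬ ρ.1 ∣ ((3 ^ h * n : ℕ) : Eis) := by
    intro h1
    have h2 := (hS4 ((3 ^ h * n : ℕ) : ℤ)).1 (by rwa [Int.cast_natCast])
    have h3 : q ∣ 3 ^ h * n := by exact_mod_cast h2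
    rcases hq.dvd_mul.1 h3 with h4 | h4
    · exact hq3' ((Nat.prime_dvd_prime_iff_eq hq Nat.prime_three).1 (hq.dvd_of_dvd_pow h4))
    · exact hqn h4
  -- the symbol at `ρ`
  have hVq : V ρ.1 (q : Eis) = 1 := by
    obtain ⟨l, hl⟩ := hbelow ρ
    have h1 : ρ.1 ∣ (q : Eis) := by rw [hqρ]; exact dvd_mul_right _ _
    have h2 : l = q := (Nat.prime_dvd_prime_iff_eq hl.pr hq).1 ((hl.dvd_nat _).1 h1)
    rw [← h2]
    exact hl.V_self
  have hVB : V ρ.1 ((BB h n E q : ℤ) : Eis) = E := by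
    rw [e1, V_mul ρ.2.1 h3ne (pow_ne_zero _ hq0), V_eq_zero hρn, V_pow ρ.2.1 hq0, hVq,
      zero_add, mul_one]
  have hrho : tm ρ.1 (x : Eis) ((BB h n E q : ℤ) : Eis) = (E : ZMod 3) * sym ρ.1 (x : Eis) := by
    unfold tm
    rw [hVB, V_eq_zero hρx, ch_unit ρ.2.1 hρx]
    simp
  have hE0 : (E : ZMod 3) ≠ 0 := by
    rcases hE with rfl | rfl <;> decide
  -- the conditions at the `π i`
  have key : x ≠ 0 → ∀ i, (V (π i).1 (n : Eis) : ZMod 3) * ch (π i).1 (x : Eis) -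
      (V (π i).1 (x : Eis) : ZMod 3) * (ch (π i).1 ((3 ^ h * n : ℕ) : Eis) + c i) =
      tm (π i).1 (x : Eis) ((BB h n E q : ℤ) : Eis) := by
    intro hx i
    obtain ⟨l, hl⟩ := hbelow (π i)
    have hpi : (p i : Eis) = (π i).1 * conj (π i).1 := hN.pπ i
    have hlp : l = p i := by
      have h1 : (π i).1 ∣ (p i : Eis) := by rw [hpi]; exact dvd_mul_right _ _
      exact (Nat.prime_dvd_prime_iff_eq hl.pr (hN.pp i)).1 ((hl.dvd_nat _).1 h1)
    have hq' : ¬ (π i).1 ∣ (q : Eis) := by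
      intro h
      have h1 := (Nat.prime_dvd_prime_iff_eq hl.pr hq).1 ((hl.dvd_nat _).1 h)
      apply hqn
      rw [← h1, hlp, hN.eq]
      have he : e i ≠ 0 := by
        have := hN.pe i
        omega
      exact Dvd.dvd.mul_right ((dvd_pow_self _ he).trans
        (Finset.dvd_prod_of_mem (fun i => p i ^ e i) (Finset.mem_univ i))) _
    have h3 : ¬ (π i).1 ∣ 3 := (hSPP4 (π i)).1
    have h3' : ¬ (π i).1 ∣ ((3 ^ h : ℕ) : Eis) := by
      intro h4
      apply h3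
      have h5 := (hl.dvd_nat _).1 h4
      have h6 := (hl.dvd_nat 3).2 (hl.pr.dvd_of_dvd_pow h5)
      exact_mod_cast h6
    have h30 : ((3 ^ h : ℕ) : Eis) ≠ 0 := natCast_ne (pow_ne_zero _ (by norm_num))
    have hV : V (π i).1 ((3 ^ h * n : ℕ) : Eis) = V (π i).1 (n : Eis) := by
      rw [Nat.cast_mul, V_mul (π i).2.1 h30 (natCast_ne hn0), V_eq_zero h3', zero_add]
    rw [e1]
    unfold tm
    rw [V_mul (π i).2.1 h3ne (pow_ne_zero _ hq0), V_pow (π i).2.1 hq0, V_eq_zero hq', mul_zero,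
      add_zero, hV, ch_mul (π i).2.1 h3 h3ne (pow_ne_zero _ hq0), ch_pow' (π i).2.1 h3 hq0 E,
      ch_unit (π i).2.1 hq', hqc i]
  have hwild : h = 2 ↔ lv (BB h n E q) = 2 := by
    rw [hty.2.1]
    rcases hh with rfl | rfl
    · constructor
      · intro h1
        omega
      · intro h1
        exact absurd h1 (by decide)
    · constructor
      · intro _
        rfl
      · intro _
        rfl
  constructor
  · rintro ⟨⟨hx, _, hsym, h9⟩, hxρ⟩
    refine ⟨⟨hx, ?_, ?_⟩, fun h1 => ?_⟩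
    · intro ϖ
      obtain ⟨l, hl⟩ := hbelow ϖ
      rcases hl.h with ⟨hl3, hl2⟩ | ⟨hl3, hl2, hl4, hl5⟩
      · rw [hl2]
        exact hSCJ4 l hl.pr hl3 x _ hx hB0
      · by_cases hln : l ∣ n
        · rcases prime_dvd hN hl.pr hln with ⟨i, hi⟩ | ⟨j, hj⟩
          · have h4 : ϖ.1 ∣ (π i).1 * conj (π i).1 := by
              rw [← hN.pπ i, ← hi, hl4]
              exact dvd_mul_right _ _
            rcases ϖ.2.1.dvd_or_dvd h4 with h5 | h5
            · have h6 : ϖ = π i :=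
                hSPP2 _ _ (ϖ.2.1.associated_of_dvd (π i).2.1 h5)
              rw [h6, ← key hx i]
              exact hsym i
            · obtain ⟨ϖ', hϖ'⟩ := (hSPP4 (π i)).2
              have h6 : ϖ = ϖ' := by
                apply hSPP2
                rw [hϖ']
                exact ϖ.2.1.associated_of_dvd (prime_conj (π i).2.1) h5
              rw [h6, hϖ']
              have h7 := hSCJ1 (π i).1 (x : Eis) ((BB h n E q : ℤ) : Eis) (π i).2.1
                (hSPP4 (π i)).1 (intCast_ne hx) (intCast_ne hB0)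
              rw [map_intCast, map_intCast] at h7
              rw [h7, ← key hx i, hsym i, neg_zero]
          · have := hN.r2 j
            rw [← hj] at this
            omega
        · by_cases hlq : l = q
          · -- the primes above `q`
            have h4 : ϖ.1 ∣ (q : Eis) := by
              rw [← hlq, hl4]
              exact dvd_mul_right _ _
            rcases hS3 ϖ h4 with h5 | h5
            · rw [h5, hrho, hxρ, mul_zero]
            · rw [h5]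
              have h7 := hSCJ1 ρ.1 (x : Eis) ((BB h n E q : ℤ) : Eis) ρ.2.1
                hρ3 (intCast_ne hx) (intCast_ne hB0)
              rw [map_intCast, map_intCast] at h7
              rw [h7, hrho, hxρ, mul_zero, neg_zero]
          · have h4 : ¬ ϖ.1 ∣ (x : Eis) := by
              intro h
              exact hln (hsupp' l hl.pr (below_ne hl) ((hl.dvd_int x).1 h))
            have h5 : ¬ ϖ.1 ∣ ((BB h n E q : ℤ) : Eis) := by
              rw [e1]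
              intro h6
              rcases ϖ.2.1.dvd_or_dvd h6 with h7 | h7
              · rcases hl.pr.dvd_mul.1 ((hl.dvd_nat _).1 h7) with h8 | h8
                · exact below_ne hl ((Nat.prime_dvd_prime_iff_eq hl.pr Nat.prime_three).1
                    (hl.pr.dvd_of_dvd_pow h8))
                · exact hln h8
              · exact hlq ((Nat.prime_dvd_prime_iff_eq hl.pr hq).1
                  ((hl.dvd_nat _).1 (ϖ.2.1.dvd_of_dvd_pow h7)))
            unfold tm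
            rw [V_eq_zero h4, V_eq_zero h5]
            simp
    · intro ϖ hϖ h1
      obtain ⟨l, hl⟩ := hbelow ϖ
      apply hϖ
      rw [e1]
      apply Dvd.dvd.mul_right
      rw [hl.dvd_nat]
      exact (hsupp' l hl.pr (below_ne hl) ((hl.dvd_int x).1 h1)).mul_left _
    · have h2 := h9 (hwild.2 h1)
      rw [hty.2.2]
      exact h2
  · rintro ⟨⟨hx, hsym, _⟩, h9⟩
    refine ⟨⟨hx, hsupp, fun i => ?_, fun h1 => ?_⟩, ?_⟩
    · rw [key hx i]
      exact hsym (π i)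
    · have h2 := h9 (hwild.1 h1)
      rw [hty.2.2] at h2
      exact h2
    · have h1 := hsym ρ
      rw [hrho] at h1
      exact (mul_eq_zero.1 h1).resolve_left hE0

end Pool.Agent.PT3

end

section

/-!
# FD2: the class of a point
-/

namespace Pool.Agent.PT

open Pool.Agent.Lib_helper18 Pool.Agent.Lib_helper18.Eis Pool.Agent.Lib_helper84.Cub

namespace FD2

theorem cast_ne {m : ℤ} (h : m ≠ 0) : (m : Eis) ≠ 0 := fun h' => h (by
  have := congrArg Eis.re h'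
  simpa using this)

/-- A cube-free number is not divisible by the cube of a prime. -/
theorem no_cube (hSPP : SPP) {B : ℤ} (hB : BOk B) {l : ℕ} (hl : l.Prime)
    (h : (l : ℤ) ^ 3 ∣ B) : False := by
  obtain ⟨h1, -⟩ := hSPP
  have hl3 : ¬ (3 : ℤ) ∣ l := by
    intro h3
    exact hB.three (h3.trans ((dvd_pow_self _ (by norm_num)).trans h))
  have hlu : ¬ IsUnit (l : Eis) := by
    rw [isUnit_iff_norm, norm_natCast]
    intro h3
    have h4 : l ^ 2 = 1 := by exact_mod_cast h3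
    have h5 := hl.two_le
    nlinarith
  have hl0 : (l : Eis) ≠ 0 := by
    have := cast_ne (m := (l : ℤ)) (by exact_mod_cast hl.ne_zero)
    simpa using this
  obtain ⟨ρ, hρ, hρl⟩ := WfDvdMonoid.exists_irreducible_factor hlu hl0
  have hρ' : Prime ρ := hρ.prime
  have hρ3 : ¬ ρ ∣ 3 := by
    intro h3
    have h4 : IsCoprime (3 : ℤ) l := by
      rw [Int.isCoprime_iff_gcd_eq_one]
      have h5 : Nat.Coprime 3 l := (Nat.Prime.coprime_iff_not_dvd Nat.prime_three).2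
        (fun h6 => hl3 (by exact_mod_cast h6))
      exact_mod_cast h5
    obtain ⟨u, v, huv⟩ := h4
    have h5 : (u : Eis) * 3 + v * l = 1 := by
      have := congrArg (fun m : ℤ => (m : Eis)) huv
      push_cast at this
      exact this
    exact hρ'.not_isUnit (isUnit_of_dvd_one (h5 ▸ dvd_add (h3.mul_left _) (hρl.mul_left _)))
  obtain ⟨π, hπ⟩ := h1 ρ hρ' hρ3
  have h2 : π.1 ^ 3 ∣ (B : Eis) := by
    have h3 : π.1 ∣ (l : Eis) := hπ.symm.dvd.trans hρl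
    refine (pow_dvd_pow_of_dvd h3 3).trans ?_
    obtain ⟨c, hc⟩ := h
    refine ⟨c, ?_⟩
    rw [hc]
    push_cast
    rfl
  have h3 := (fin π.2.1 (cast_ne hB.ne)).pow_dvd_iff_le_multiplicity.1 h2
  have h4 := hB.cf π
  exact absurd h3 (by unfold V at h4; omega)

section Sym

variable {π : Eis} {s : Eis → Eis → ZMod 3}

theorem three_mul (c : ZMod 3) : c + c + c = 0 := by
  revert c
  decide

theorem two_mul_eq {c : ZMod 3} (h : c = -c) : c = 0 := by
  revert c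
  decide

theorem s_cube (hs : LSym π s 1) {a b : Eis} (ha : a ≠ 0) (hb : b ≠ 0) : s (a ^ 3) b = 0 := by
  have h1 : a ^ 3 = a * a * a := by ring
  rw [h1, hs.mul _ _ _ (mul_ne_zero ha ha) ha hb, hs.mul _ _ _ ha ha hb]
  exact three_mul _

theorem s_cube' (hs : LSym π s 1) {a b : Eis} (ha : a ≠ 0) (hb : b ≠ 0) : s a (b ^ 3) = 0 := by
  rw [hs.skew _ _ (pow_ne_zero 3 hb) ha, s_cube hs hb ha, neg_zero]

theorem s_self (hs : LSym π s 1) {a : Eis} (ha : a ≠ 0) : s a a = 0 :=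
  two_mul_eq (hs.skew a a ha ha)

theorem mul_right (hs : LSym π s 1) {a b c : Eis} (ha : a ≠ 0) (hb : b ≠ 0) (hc : c ≠ 0) :
    s a (b * c) = s a b + s a c := by
  rw [hs.skew _ _ (mul_ne_zero hb hc) ha, hs.mul _ _ _ hb hc ha, hs.skew _ _ ha hb,
    hs.skew _ _ ha hc, neg_add, neg_neg, neg_neg]

theorem s_neg (hs : LSym π s 1) {a b : Eis} (ha : a ≠ 0) (hb : b ≠ 0) : s a (-b) = s a b := by
  have h1 : -b = (-1) ^ 3 * b := by ring
  rw [h1, mul_right hs ha (by simp) hb, s_cube' hs ha (by simp), zero_add]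

end Sym

theorem main (hSTM : STM) (hSPP : SPP) {n q : ℕ} (hq : q.Prime) (hB : BOk ((n : ℤ) * q))
    {a0 a1 a2 x0 x1 x2 : ℤ} (hx0 : x0 ≠ 0) (hx1 : x1 ≠ 0) (hx2 : x2 ≠ 0)
    (hs : a0 * x0 ^ 3 + a1 * x1 ^ 3 + a2 * x2 ^ 3 = 0) (hp : a0 * a1 * a2 = (n : ℤ) * q)
    (hc : IsCoprime a0 a1) (h2 : ¬ IsUnit a0 ∨ ¬ IsUnit a1)
    (h9 : C9 ((n : ℤ) * q) → wt (a0 ^ 2) = wt (a1 ^ 2)) (hq0 : ¬ (q : ℤ) ∣ a0)
    (hq1 : ¬ (q : ℤ) ∣ a1) :
    ∃ z X Y : ℤ, Pt ((n : ℤ) * q) z X Y ∧ Adm ((n : ℤ) * q) z ∧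
      (∀ l : ℕ, l.Prime → (l : ℤ) ∣ z → l ∣ n) ∧ ¬ ∃ t : ℤ, t ^ 3 = z := by
  set B : ℤ := (n : ℤ) * q with hBd
  have ha0 : a0 ≠ 0 := by
    rintro rfl
    exact hB.ne (by rw [← hp]; ring)
  have ha1 : a1 ≠ 0 := by
    rintro rfl
    exact hB.ne (by rw [← hp]; ring)
  have ha2 : a2 ≠ 0 := by
    rintro rfl
    exact hB.ne (by rw [← hp]; ring)
  have h30 : ¬ (3 : ℤ) ∣ a0 := fun h => hB.three (by
    rw [← hp]
    exact (h.mul_right _).mul_right _)
  have h31 : ¬ (3 : ℤ) ∣ a1 := fun h => hB.three (by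
    rw [← hp]
    exact (h.mul_left _).mul_right _)
  have hz0 : a0 ^ 2 * a1 ≠ 0 := mul_ne_zero (pow_ne_zero 2 ha0) ha1
  have heq : a0 ^ 2 * a1 * ((a0 * x0) ^ 3 + a0 ^ 2 * a1 * x1 ^ 3) = B * (-a0 * x2) ^ 3 := by
    rw [← hp]
    linear_combination a0 ^ 4 * a1 * hs
  have hc0 : -a0 * x2 ≠ 0 := mul_ne_zero (neg_ne_zero.2 ha0) hx2
  refine ⟨a0 ^ 2 * a1, a0 * x0, x1, ⟨mul_ne_zero ha0 hx0, hx1, -a0 * x2, hc0, heq⟩, ?_, ?_, ?_⟩
  · refine ⟨hz0, ?_, ?_, ?_, ?_⟩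
    · intro h
      rcases Int.prime_three.dvd_or_dvd h with h | h
      · exact h30 (Int.prime_three.dvd_of_dvd_pow h)
      · exact h31 h
    · intro π
      have hs := hSTM π.1 π.2.1 (hSPP.2.2.2.1 π).1
      set z : Eis := ((a0 ^ 2 * a1 : ℤ) : Eis) with hz
      set n0 : ℤ := (a0 * x0) ^ 3 + a0 ^ 2 * a1 * x1 ^ 3 with hn0
      have hn0' : n0 ≠ 0 := by
        intro h
        rw [h, mul_zero] at heq
        exact mul_ne_zero hB.ne (pow_ne_zero 3 hc0) heq.symm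
      have hzne : z ≠ 0 := cast_ne hz0
      have hBne : (B : Eis) ≠ 0 := cast_ne hB.ne
      have hcne : ((-a0 * x2 : ℤ) : Eis) ≠ 0 := cast_ne hc0
      have hnne : (n0 : Eis) ≠ 0 := cast_ne hn0'
      have hXne : ((a0 * x0 : ℤ) : Eis) ≠ 0 := cast_ne (mul_ne_zero ha0 hx0)
      have hYne : (x1 : Eis) ≠ 0 := cast_ne hx1
      have e1 : z * (n0 : Eis) = (B : Eis) * ((-a0 * x2 : ℤ) : Eis) ^ 3 := by
        have := congrArg (fun m : ℤ => (m : Eis)) heq
        push_cast at this ⊢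
        rw [hz]
        push_cast
        exact this
      have e2 : tm π.1 z (B : Eis) = tm π.1 z (z * (n0 : Eis)) := by
        rw [e1, mul_right hs hzne hBne (pow_ne_zero 3 hcne), s_cube' hs hzne hcne, add_zero]
      rw [e2, mul_right hs hzne hzne hnne, s_self hs hzne, zero_add]
      have e3 : ((a0 * x0 : ℤ) : Eis) ^ 3 + z * (x1 : Eis) ^ 3 + -(n0 : Eis) = 0 := by
        rw [hz, hn0]
        push_cast
        ring
      have e4 := hs.stein _ _ _ (pow_ne_zero 3 hXne) (mul_ne_zero hzne (pow_ne_zero 3 hYne))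
        (neg_ne_zero.2 hnne) e3
      rw [s_cube hs hXne (mul_ne_zero hzne (pow_ne_zero 3 hYne)),
        s_cube' hs (neg_ne_zero.2 hnne) hXne, zero_add, add_zero,
        s_neg hs (mul_ne_zero hzne (pow_ne_zero 3 hYne)) hnne,
        hs.mul _ _ _ hzne (pow_ne_zero 3 hYne) hnne, s_cube hs hYne hnne, add_zero] at e4
      exact e4
    · intro π hπ h
      apply hπ
      have e1 : (B : Eis) = (a0 : Eis) * a1 * a2 := by
        rw [← hp]
        push_cast
        ring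
      have e2 : ((a0 ^ 2 * a1 : ℤ) : Eis) = (a0 : Eis) ^ 2 * a1 := by
        push_cast
        ring
      rw [e2] at h
      rw [e1]
      rcases π.2.1.dvd_or_dvd h with h | h
      · exact ((π.2.1.dvd_of_dvd_pow h).mul_right _).mul_right _
      · exact (h.mul_left _).mul_right _
    · intro h
      have h1 := h9 h
      have e0 : a0 ^ 2 % 3 = 1 := by
        have h3 : a0 % 3 = 1 ∨ a0 % 3 = 2 := by omega
        rcases h3 with h3 | h3 <;> simp [pow_two, Int.mul_emod, h3]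
      have e1 : a1 ^ 2 % 3 = 1 := by
        have h3 : a1 % 3 = 1 ∨ a1 % 3 = 2 := by omega
        rcases h3 with h3 | h3 <;> simp [pow_two, Int.mul_emod, h3]
      unfold wt at h1
      rw [ZMod.intCast_eq_intCast_iff_dvd_sub] at h1
      set A0 : ℤ := a0 ^ 2 with hA0
      set A1 : ℤ := a1 ^ 2 with hA1
      have h3 : (9 : ℤ) ∣ A1 - A0 := by
        push_cast at h1
        omega
      have h4 : (a0 ^ 2 * a1) ^ 2 % 9 = 1 := by
        have h5 : (a0 ^ 2 * a1) ^ 2 = A0 ^ 3 + 9 * ((A1 - A0) / 9 * A0 ^ 2) := by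
          have h6 : A1 - A0 = 9 * ((A1 - A0) / 9) := by omega
          have h7 : (a0 ^ 2 * a1) ^ 2 = A0 ^ 2 * A1 := by rw [hA0, hA1]; ring
          rw [h7]
          linear_combination A0 ^ 2 * h6
        have h8 : A0 ^ 3 % 9 = 1 := by
          obtain ⟨k, hk⟩ : ∃ k, A0 = 1 + 3 * k := ⟨A0 / 3, by omega⟩
          have h9 : A0 ^ 3 = 1 + 9 * (k + 3 * k ^ 2 + 3 * k ^ 3) := by rw [hk]; ring
          omega
        omega
      unfold C9
      set z : ℤ := a0 ^ 2 * a1 with hz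
      have h5 : z % 9 = 0 ∨ z % 9 = 1 ∨ z % 9 = 2 ∨ z % 9 = 3 ∨ z % 9 = 4 ∨ z % 9 = 5 ∨
        z % 9 = 6 ∨ z % 9 = 7 ∨ z % 9 = 8 := by omega
      rcases h5 with h5 | h5 | h5 | h5 | h5 | h5 | h5 | h5 | h5 <;>
        simp [pow_two, Int.mul_emod, h5] at h4 ⊢
  · intro l hl h
    have hl' : Prime (l : ℤ) := Nat.prime_iff_prime_int.1 hl
    have h1 : (l : ℤ) ∣ a0 ∨ (l : ℤ) ∣ a1 := by
      rcases hl'.dvd_or_dvd h with h | h
      · exact Or.inl (hl'.dvd_of_dvd_pow h)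
      · exact Or.inr h
    have h3 : (l : ℤ) ∣ B := by
      rw [← hp]
      rcases h1 with h1 | h1
      · exact (h1.mul_right _).mul_right _
      · exact (h1.mul_left _).mul_right _
    rcases hl'.dvd_or_dvd h3 with h4 | h4
    · exact_mod_cast h4
    · exfalso
      have h5 : l ∣ q := by exact_mod_cast h4
      have h6 : l = q := (Nat.prime_dvd_prime_iff_eq hl hq).1 h5
      rw [h6] at h1
      exact h1.elim hq0 hq1
  · rintro ⟨t, ht⟩
    have hc' : IsCoprime (a0 ^ 2) a1 := hc.pow_left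
    obtain ⟨e, he⟩ := Int.eq_pow_of_mul_eq_pow_odd_left hc' (by decide : Odd 3) ht.symm
    obtain ⟨f, hf⟩ := Int.eq_pow_of_mul_eq_pow_odd_right hc' (by decide : Odd 3) ht.symm
    rcases h2 with h2 | h2
    · -- `a0` is a cube
      have h3 : e ∣ a0 := by
        rw [← Int.pow_dvd_pow_iff (n := 3) (by norm_num)]
        exact ⟨a0, by rw [← he]; ring⟩
      obtain ⟨g, hg⟩ := h3
      have he0 : e ≠ 0 := by
        rintro rfl
        exact ha0 (by rw [hg, zero_mul])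
      have h4 : g ^ 2 = e := by
        have h5 : e ^ 2 * g ^ 2 = e ^ 2 * e := by
          rw [← mul_pow, ← hg, he]
          ring
        exact mul_left_cancel₀ (pow_ne_zero 2 he0) h5
      have h5 : a0 = g ^ 3 := by rw [hg, ← h4]; ring
      have h6 : ¬ IsUnit g := fun h => h2 (by rw [h5]; exact h.pow 3)
      have h7 : g.natAbs ≠ 1 := fun h => h6 (Int.isUnit_iff_natAbs_eq.2 h)
      obtain ⟨l, hl, hlg⟩ := Nat.exists_prime_and_dvd h7
      refine no_cube hSPP hB hl ?_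
      have h8 : (l : ℤ) ∣ g := Int.natCast_dvd.2 hlg
      refine (pow_dvd_pow_of_dvd h8 3).trans ?_
      rw [← h5, ← hp]
      exact ⟨a1 * a2, by ring⟩
    · have h6 : ¬ IsUnit f := fun h => h2 (by rw [hf]; exact h.pow 3)
      have h7 : f.natAbs ≠ 1 := fun h => h6 (Int.isUnit_iff_natAbs_eq.2 h)
      obtain ⟨l, hl, hlg⟩ := Nat.exists_prime_and_dvd h7
      refine no_cube hSPP hB hl ?_
      have h8 : (l : ℤ) ∣ f := Int.natCast_dvd.2 hlg
      refine (pow_dvd_pow_of_dvd h8 3).trans ?_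
      rw [← hf, ← hp]
      exact ⟨a0 * a2, by ring⟩

end FD2

open _root_.Pool.Agent.PT.FD2 in
theorem FD2_thm (hSTM : STM) (hSPP : SPP) : FD2 := by
  intro n q a x hq _ _ _ hB hcell
  obtain ⟨hne, hsum, hprod, hcop, htwo, hnine⟩ := hcell
  rw [Fin.sum_univ_three] at hsum
  rw [Fin.prod_univ_three] at hprod
  have hq' : Prime (q : ℤ) := Nat.prime_iff_prime_int.1 hq
  have hqd : (q : ℤ) ∣ a 0 * a 1 * a 2 := by
    rw [hprod]
    exact dvd_mul_left _ _
  have hnot : ∀ i j, i ≠ j → (q : ℤ) ∣ a i → ¬ (q : ℤ) ∣ a j := fun i j hij h1 h2 =>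
    hq'.not_isUnit ((hcop i j hij).isUnit_of_dvd' h1 h2)
  have hk : (q : ℤ) ∣ a 0 ∨ (q : ℤ) ∣ a 1 ∨ (q : ℤ) ∣ a 2 := by
    rcases hq'.dvd_or_dvd hqd with h | h
    · rcases hq'.dvd_or_dvd h with h | h
      · exact Or.inl h
      · exact Or.inr (Or.inl h)
    · exact Or.inr (Or.inr h)
  rcases hk with h | h | h
  · refine main hSTM hSPP (a0 := a 1) (a1 := a 2) (a2 := a 0) hq hB (hne 1) (hne 2) (hne 0) (by linear_combination hsum)
      (by linear_combination hprod) (hcop 1 2 (by decide)) ?_ (fun h9 => hnine h9 1 2)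
      (hnot 0 1 (by decide) h) (hnot 0 2 (by decide) h)
    obtain ⟨j, hj, hu⟩ := htwo 0
    fin_cases j
    · exact absurd rfl hj
    · exact Or.inl hu
    · exact Or.inr hu
  · refine main hSTM hSPP (a0 := a 0) (a1 := a 2) (a2 := a 1) hq hB (hne 0) (hne 2) (hne 1) (by linear_combination hsum)
      (by linear_combination hprod) (hcop 0 2 (by decide)) ?_ (fun h9 => hnine h9 0 2)
      (hnot 1 0 (by decide) h) (hnot 1 2 (by decide) h)
    obtain ⟨j, hj, hu⟩ := htwo 1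
    fin_cases j
    · exact Or.inl hu
    · exact absurd rfl hj
    · exact Or.inr hu
  · refine main hSTM hSPP (a0 := a 0) (a1 := a 1) (a2 := a 2) hq hB (hne 0) (hne 1) (hne 2) (by linear_combination hsum)
      (by linear_combination hprod) (hcop 0 1 (by decide)) ?_ (fun h9 => hnine h9 0 1)
      (hnot 2 0 (by decide) h) (hnot 2 1 (by decide) h)
    obtain ⟨j, hj, hu⟩ := htwo 2
    fin_cases j
    · exact Or.inl hu
    · exact Or.inr hu
    · exact absurd rfl hj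

end Pool.Agent.PT

end

section

/-!
# PTE: the class of a point (`q = 1 (mod 3)`)
-/

set_option autoImplicit false

namespace Pool.Agent.PTE

open Pool.Agent.Lib_helper18 Pool.Agent.Lib_helper18.Eis Pool.Agent.Lib_helper84.Cub
open Pool.Agent.PT

open Pool.Agent.PT.FD2 in
/-- FD2S: the class of a point. -/
theorem FD2S_thm (hSTM : STM) (hSPP : SPP) : FD2S := by
  intro n q a x hq _ _ _ hB hcell
  obtain ⟨hne, hsum, hprod, hcop, htwo, hnine⟩ := hcell
  rw [Fin.sum_univ_three] at hsum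
  rw [Fin.prod_univ_three] at hprod
  have hq' : Prime (q : ℤ) := Nat.prime_iff_prime_int.1 hq
  have hqd : (q : ℤ) ∣ a 0 * a 1 * a 2 := by
    rw [hprod]
    exact dvd_mul_left _ _
  have hnot : ∀ i j, i ≠ j → (q : ℤ) ∣ a i → ¬ (q : ℤ) ∣ a j := fun i j hij h1 h2 =>
    hq'.not_isUnit ((hcop i j hij).isUnit_of_dvd' h1 h2)
  have hk : (q : ℤ) ∣ a 0 ∨ (q : ℤ) ∣ a 1 ∨ (q : ℤ) ∣ a 2 := by
    rcases hq'.dvd_or_dvd hqd with h | h
    · rcases hq'.dvd_or_dvd h with h | h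
      · exact Or.inl h
      · exact Or.inr (Or.inl h)
    · exact Or.inr (Or.inr h)
  rcases hk with h | h | h
  · refine main hSTM hSPP (a0 := a 1) (a1 := a 2) (a2 := a 0) hq hB (hne 1) (hne 2) (hne 0) (by linear_combination hsum)
      (by linear_combination hprod) (hcop 1 2 (by decide)) ?_ (fun h9 => hnine h9 1 2)
      (hnot 0 1 (by decide) h) (hnot 0 2 (by decide) h)
    obtain ⟨j, hj, hu⟩ := htwo 0
    fin_cases j
    · exact absurd rfl hj
    · exact Or.inl hu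
    · exact Or.inr hu
  · refine main hSTM hSPP (a0 := a 0) (a1 := a 2) (a2 := a 1) hq hB (hne 0) (hne 2) (hne 1) (by linear_combination hsum)
      (by linear_combination hprod) (hcop 0 2 (by decide)) ?_ (fun h9 => hnine h9 0 2)
      (hnot 1 0 (by decide) h) (hnot 1 2 (by decide) h)
    obtain ⟨j, hj, hu⟩ := htwo 1
    fin_cases j
    · exact Or.inl hu
    · exact absurd rfl hj
    · exact Or.inr hu
  · refine main hSTM hSPP (a0 := a 0) (a1 := a 1) (a2 := a 2) hq hB (hne 0) (hne 1) (hne 2) (by linear_combination hsum)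
      (by linear_combination hprod) (hcop 0 1 (by decide)) ?_ (fun h9 => hnine h9 0 1)
      (hnot 2 0 (by decide) h) (hnot 2 1 (by decide) h)
    obtain ⟨j, hj, hu⟩ := htwo 2
    fin_cases j
    · exact Or.inl hu
    · exact Or.inr hu
    · exact absurd rfl hj

end Pool.Agent.PTE

end

section

/-!
# NHO: the first cohomology of the `S`-units
-/

open NumberField IsDedekindDomain Finset
open scoped nonZeroDivisors Pointwise

namespace Pool.Agent.PT

open Pool.Agent.Lib_helper18 Pool.Agent.Lib_helper18.Eis Pool.Agent.Lib_helper84.Cub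

namespace NHO

variable {L : Type} [Field L] [NumberField L]

lemma mem_SU (ι : Eis →+* L) (S : Finset Pl) (u : Lˣ) :
    u ∈ SU ι S ↔ ∀ P : HeightOneSpectrum (𝓞 L), (∀ v ∈ S, P ∉ Abv ι v) →
      P.valuation L (u : L) = 1 := by
  constructor
  · intro h P hP
    exact h P (by
      intro hmem
      simp only [Set.mem_iUnion] at hmem
      obtain ⟨v, hv, hPv⟩ := hmem
      exact hP v hv hPv)
  · intro h P hP
    refine h P ?_
    intro v hv hPv
    apply hP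
    simp only [Set.mem_iUnion]
    exact ⟨v, hv, hPv⟩

lemma supp_fin (y : L) (hy : y ≠ 0) :
    {P : HeightOneSpectrum (𝓞 L) | P.valuation L y ≠ 1}.Finite := by
  have h1 := HeightOneSpectrum.Support.finite (𝓞 L) y
  have h2 := HeightOneSpectrum.Support.finite (𝓞 L) y⁻¹
  refine (h1.union h2).subset ?_
  intro P hP
  have hP' : P.valuation L y ≠ 1 := hP
  rcases lt_or_gt_of_ne hP' with h | h
  · right
    change 1 < P.valuation L y⁻¹
    rw [map_inv₀]
    have hne : P.valuation L y ≠ 0 := (Valuation.ne_zero_iff _).2 hy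
    exact (one_lt_inv₀ (zero_lt_iff.2 hne)).2 h
  · left
    exact h

end NHO

open _root_.Pool.Agent.PT.NHO in
theorem NHO_thm (hSPP : SPP) (hNHN : NHN) (hNTR : NTR) : NHO := by
  intro x L _ _ ι θ σ c hx h3x hC S hnone hS
  obtain ⟨hN1, hN2, hN3⟩ := hNHN x L ι θ σ c hx hC
  obtain ⟨hT1, hT2, hT3, hT4, hT5, hT6⟩ := hNTR x L ι θ σ c hx h3x hC
  obtain ⟨-, hP2, -, hP4, -, -⟩ := hSPP
  -- the prime `P2` with `P2 z = P (σ z)`
  have hpull : ∀ P : HeightOneSpectrum (𝓞 L), ∃ P₂ : HeightOneSpectrum (𝓞 L),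
      ∀ z : L, P₂.valuation L z = P.valuation L (σ z) := by
    intro P
    obtain ⟨P₁, h₁⟩ := hT3 P
    obtain ⟨P₂, h₂⟩ := hT3 P₁
    refine ⟨P₂, fun z => ?_⟩
    rw [← h₁ (σ z), ← h₂ (σ (σ z)), hN1]
  have hAbv : ∀ (P P₂ : HeightOneSpectrum (𝓞 L)),
      (∀ z : L, P₂.valuation L z = P.valuation L (σ z)) → ∀ v, P₂ ∈ Abv ι v ↔ P ∈ Abv ι v := by
    intro P P₂ h v
    change P₂.valuation L (ι (uni v)) < 1 ↔ P.valuation L (ι (uni v)) < 1
    rw [h, hC.sι]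
  have hsm : ∀ u : Lˣ, ((σ • u : Lˣ) : L) = σ (u : L) := fun u => rfl
  constructor
  · intro u hu
    rw [mem_SU] at hu ⊢
    intro P hP
    obtain ⟨P₂, h₂⟩ := hpull P
    rw [hsm, ← h₂]
    refine hu P₂ ?_
    intro v hv hmem
    exact hP v hv ((hAbv P P₂ h₂ v).1 hmem)
  · intro u hu hprod
    rw [mem_SU] at hu
    obtain ⟨y, hy⟩ := hN3 u hprod
    -- uniqueness of the place below
    have hlam : ∀ π : PP, ¬ π.1 ∣ lam := by
      intro π h
      exact (hP4 π).1 (h.trans lam_dvd_three)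
    have huniq : ∀ (π : PP) (v : Pl) (P : HeightOneSpectrum (𝓞 L)), P ∈ Abv ι (some π) →
        P ∈ Abv ι v → v = some π := by
      intro π v P hP hPv
      obtain ⟨v₀, -, hv₀⟩ := hT2 P
      have h1 := hv₀ _ hP
      have h2 := hv₀ _ hPv
      have key : ∀ w' : Pl, uni v₀ ∣ uni w' → w' = v₀ := by
        intro w' hd
        cases v₀ with
        | none =>
          cases w' with
          | none => rfl
          | some π' =>
            exfalso
            have : Associated lam π'.1 := prime_lam.associated_of_dvd π'.2.1 hd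
            exact hlam π' this.symm.dvd
        | some π₀ =>
          cases w' with
          | none => exact absurd hd (hlam π₀)
          | some π' =>
            have : Associated π₀.1 π'.1 := π₀.2.1.associated_of_dvd π'.2.1 hd
            rw [hP2 _ _ this]
      exact (key v h2).trans (key (some π) h1).symm
    -- valuations of `y` at the primes above a place outside `S`
    have hval : ∀ P : HeightOneSpectrum (𝓞 L), (∀ v ∈ S, P ∉ Abv ι v) →
        P.valuation L (σ (y : L)) = P.valuation L (y : L) := by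
      intro P hP
      have h1 := hu P hP
      rw [hy, Units.val_div_eq_div_val, map_div₀, hsm] at h1
      have hne : P.valuation L (σ (y : L)) ≠ 0 :=
        (Valuation.ne_zero_iff _).2 (by simp)
      exact ((div_eq_one_iff_eq hne).1 h1).symm
    have hout : ∀ (π : PP), some π ∉ S → ∀ P ∈ Abv ι (some π), ∀ v ∈ S, P ∉ Abv ι v := by
      intro π hπ P hP v hv hPv
      exact hπ (huniq π v P hP hPv ▸ hv)
    have hconst : ∀ (π : PP), some π ∉ S → ∀ i : ℕ, ∀ P ∈ Abv ι (some π),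
        P.valuation L ((σ ^ i) (y : L)) = P.valuation L (y : L) := by
      intro π hπ i
      induction i with
      | zero => intro P _; simp
      | succ i ih =>
        intro P hP
        obtain ⟨P₂, h₂⟩ := hpull P
        have hP₂ : P₂ ∈ Abv ι (some π) := (hAbv P P₂ h₂ _).2 hP
        have e : (σ ^ (i + 1)) (y : L) = σ ((σ ^ i) (y : L)) := by
          rw [pow_succ']; rfl
        rw [e, ← h₂, ih P₂ hP₂, h₂, hval P (hout π hπ P hP)]
    have hsame : ∀ (π : PP), some π ∉ S → ∀ P ∈ Abv ι (some π), ∀ P' ∈ Abv ι (some π),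
        P'.valuation L (y : L) = P.valuation L (y : L) := by
      intro π hπ P hP P' hP'
      obtain ⟨i, hi⟩ := hT5 (some π) P P' hP hP'
      rw [← hi, hconst π hπ i P' hP']
    -- the finite set of places
    have hfin : {π : PP | ∃ P ∈ Abv ι (some π), P.valuation L (y : L) ≠ 1}.Finite := by
      have h1 := supp_fin (y : L) (by simp)
      have h2 : (⋃ P ∈ {P : HeightOneSpectrum (𝓞 L) | P.valuation L (y : L) ≠ 1},
          {π : PP | P ∈ Abv ι (some π)}).Finite := by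
        refine h1.biUnion fun P _ => ?_
        refine Set.Subsingleton.finite ?_
        intro π hπ π' hπ'
        have := huniq π (some π') P hπ hπ'
        exact (Option.some_injective _ this).symm
      refine h2.subset ?_
      rintro π ⟨P, hP, hne⟩
      simp only [Set.mem_iUnion]
      exact ⟨P, hne, hP⟩
    -- the exponents
    have hexp : ∀ π : PP, ∃ n : ℤ, some π ∉ S → ∀ P ∈ Abv ι (some π),
        P.valuation L (y : L) = WithZero.exp n := by
      intro π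
      by_cases hπ : some π ∈ S
      · exact ⟨0, fun h => absurd hπ h⟩
      · obtain ⟨P, hP⟩ := (hT4 (some π)).2
        have hne : P.valuation L (y : L) ≠ 0 := (Valuation.ne_zero_iff _).2 (by simp)
        refine ⟨WithZero.log (P.valuation L (y : L)), fun _ P' hP' => ?_⟩
        rw [hsame π hπ P hP P' hP', WithZero.exp_log hne]
    choose n hn using hexp
    have hι : ∀ π : PP, ι π.1 ≠ 0 := by
      intro π h
      exact π.2.1.ne_zero (hC.inj (h.trans (map_zero ι).symm))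
    set T : Finset PP := hfin.toFinset with hT
    set g : Lˣ := ∏ π ∈ T, (Units.mk0 (ι π.1) (hι π)) ^ n π with hg
    have hσg : σ • g = g := by
      rw [hg, Finset.smul_prod']
      refine Finset.prod_congr rfl fun π _ => ?_
      rw [smul_zpow']
      congr 1
      ext
      rw [hsm]
      exact hC.sι _
    have hvg : ∀ P : HeightOneSpectrum (𝓞 L), P.valuation L (g : L) =
        ∏ π ∈ T, (P.valuation L (ι π.1)) ^ n π := by
      intro P
      rw [hg, Units.coe_prod, map_prod]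
      refine Finset.prod_congr rfl fun π _ => ?_
      rw [Units.val_zpow_eq_zpow_val, map_zpow₀]
      rfl
    refine ⟨y * g, ?_, ?_⟩
    · rw [mem_SU]
      intro P hP
      obtain ⟨v₀, hv₀, -⟩ := hT2 P
      have hv₀S : v₀ ∉ S := fun h => hP v₀ h hv₀
      cases v₀ with
      | none => exact absurd hnone hv₀S
      | some π₀ =>
        have hother : ∀ π : PP, π ≠ π₀ → P.valuation L (ι π.1) = 1 := by
          intro π hπ
          refine le_antisymm (hT1 P π.1) ?_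
          by_contra hlt
          have : P ∈ Abv ι (some π) := not_le.1 hlt
          exact hπ (Option.some_injective _ (huniq π₀ (some π) P hv₀ this))
        have hself : P.valuation L (ι π₀.1) = WithZero.exp (-1 : ℤ) := by
          refine hT6 π₀ P ?_ hv₀
          intro hd
          exact hv₀S (hS π₀ hd)
        rw [Units.val_mul, map_mul, hvg, hn π₀ hv₀S P hv₀]
        by_cases hmem : π₀ ∈ T
        · rw [Finset.prod_eq_single π₀ (fun π _ hπ => by rw [hother π hπ, one_zpow])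
            (fun h => absurd hmem h), hself, ← WithZero.exp_zsmul, ← WithZero.exp_add]
          simp
        · rw [Finset.prod_eq_one (fun π hπ => by
            rw [hother π (fun h => hmem (h ▸ hπ)), one_zpow]), mul_one]
          have h1 : P.valuation L (y : L) = 1 := by
            by_contra hne
            exact hmem (hfin.mem_toFinset.2 ⟨P, hv₀, hne⟩)
          rw [← hn π₀ hv₀S P hv₀, h1]
    · rw [hy, smul_mul', hσg, mul_div_mul_right_eq_div]

end Pool.Agent.PT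

end

section

/-!
# PT3_DCOT: the pairing `O_{NQ^E}(b, η)` as a function of the prime `Q = 2 (mod 3)` and of `E`

Copy of `PTL/DC.lean` with `AG` in place of `Adm` and the constant term of the local point.
-/

set_option autoImplicit false

open NumberField IsDedekindDomain Finset
open scoped nonZeroDivisors Pointwise

namespace Pool.Agent.PT3

open Pool.Agent.Lib_helper18 Pool.Agent.Lib_helper18.Eis Pool.Agent.Lib_helper84.Cub
open Pool.Agent.PT Pool.Agent.PTE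

namespace DCOT

lemma sy_zeroG (hSTM : STM) (hSPP : SPP) {B x : ℤ} (hB : B ≠ 0) (hx : AG B x) (v : Pl) :
    sy v (B : Eis) (x : Eis) = 0 := by
  have h1 : ∀ π : PP, tm π.1 (B : Eis) (x : Eis) = 0 := by
    intro π
    have h1 := (hSTM π.1 π.2.1 (hSPP.2.2.2.1 π).1).skew (x : Eis) (B : Eis)
      (DCONST.cast_ne hx.ne) (DCONST.cast_ne hB)
    rw [h1, hx.sym π, neg_zero]
  rcases v with _ | π
  · show sl (B : Eis) (x : Eis) = 0
    unfold sl
    rw [finsum_eq_zero_of_forall_eq_zero h1, neg_zero]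
  · exact h1 π

open DCONST in
/-- the part `OO` of the pairing -/
theorem main (hSTM : STM) (hSPP : SPP) (hSLC : SLC)
    (hLCI : LCI) (hAVV : AVV) : ∀ (n : ℕ) (b x p q p' q' : ℤ), 0 < n → Sol b x p q p' q' →
  b ≠ 0 → x ≠ 0 → ∃ f₀ : ℕ, 0 < f₀ ∧ ∀ f : ℕ, 0 < f → f₀ ∣ f →
  ∃ (C : ZMod 3) (Φ : (ZMod f)ˣ →* Multiplicative (ZMod 3)),
    ∀ (E Q : ℕ) (hQ : Q.Coprime f), Q.Prime → Q % 3 = 2 → AG ((n : ℤ) * Q ^ E) x →
      ∀ r : ℤ, (Q : ℤ) ∣ r ^ 3 - b → OO ((n : ℤ) * Q ^ E) b x p q p' q' =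
        C + E * ((Φ (ZMod.unitOfCoprime Q hQ)).toAdd - TAUV Q p q p' q' r) := by
  intro n b x p q p' q' hn0 hs hb hx
  have hn1 := hs.n1
  have hn2 : p' ^ 3 + b * q' ^ 3 ≠ 0 := by
    intro h
    apply hs.n1
    rw [hs.eq, h, mul_zero]
  have hnz : (n : ℤ) ≠ 0 := by omega
  obtain ⟨M, hMdef⟩ : ∃ M : ℤ, M = (n : ℤ) * b * x * (p ^ 3 + b * q ^ 3) *
    (p' ^ 3 + b * q' ^ 3) := ⟨_, rfl⟩
  have hM : M ≠ 0 := by
    rw [hMdef]
    exact mul_ne_zero (mul_ne_zero (mul_ne_zero (mul_ne_zero hnz hb) hx) hn1) hn2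
  have dn : (n : ℤ) ∣ M := ⟨b * x * (p ^ 3 + b * q ^ 3) * (p' ^ 3 + b * q' ^ 3), by
    rw [hMdef]; ring⟩
  have db : b ∣ M := ⟨(n : ℤ) * x * (p ^ 3 + b * q ^ 3) * (p' ^ 3 + b * q' ^ 3), by
    rw [hMdef]; ring⟩
  have dx : x ∣ M := ⟨(n : ℤ) * b * (p ^ 3 + b * q ^ 3) * (p' ^ 3 + b * q' ^ 3), by
    rw [hMdef]; ring⟩
  have d1 : p ^ 3 + b * q ^ 3 ∣ M := ⟨(n : ℤ) * b * x * (p' ^ 3 + b * q' ^ 3), by
    rw [hMdef]; ring⟩
  have d2 : p' ^ 3 + b * q' ^ 3 ∣ M := ⟨(n : ℤ) * b * x * (p ^ 3 + b * q ^ 3), by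
    rw [hMdef]; ring⟩
  have hfin := hSPP.2.2.1 (M : Eis) (cast_ne hM)
  have hMa : 0 < M.natAbs := Int.natAbs_pos.2 hM
  refine ⟨9 * M.natAbs, by omega, ?_⟩
  intro f hf0 hf
  have h9 : 9 ∣ f := (Dvd.intro _ rfl).trans hf
  have hf1 : 1 < f := by
    have := Nat.le_of_dvd hf0 h9
    omega
  have hMf : M ∣ (f : ℤ) := by
    have h1 : M.natAbs ∣ f := (Dvd.intro_left 9 rfl).trans hf
    exact Int.natAbs_dvd.1 (Int.natCast_dvd_natCast.2 h1)
  have hlamf : lam ^ 4 ∣ ((f : ℤ) : Eis) := by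
    have h1 : ((9 : ℤ) : Eis) ∣ ((f : ℤ) : Eis) :=
      intCast_dvd_intCast.2 (by exact_mod_cast h9)
    refine Dvd.dvd.trans ⟨w ^ 4, ?_⟩ h1
    have h2 : ((9 : ℤ) : Eis) = (3 : Eis) ^ 2 := by norm_num
    rw [h2, three_eq]
    ring
  have hQM : ∀ Q : ℕ, Q.Prime → Q.Coprime f → ¬ (Q : ℤ) ∣ M := by
    intro Q hQ hQf h
    have h1 : (Q : ℤ) ∣ (f : ℤ) := h.trans hMf
    have h2 : Q ∣ f := Int.natCast_dvd_natCast.1 h1
    have h3 := Nat.Coprime.eq_one_of_dvd hQf h2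
    exact hQ.one_lt.ne' h3
  have hBne : ∀ E Q : ℕ, Q.Prime → (n : ℤ) * Q ^ E ≠ 0 := fun E Q hQ =>
    mul_ne_zero hnz (pow_ne_zero _ (by exact_mod_cast hQ.ne_zero))
  -- the place above `3`
  obtain ⟨c₀, Φ₀, H₀⟩ : ∃ (c : ZMod 3) (Φ : (ZMod f)ˣ →* Multiplicative (ZMod 3)),
      ∀ (E Q : ℕ) (hQ : Q.Coprime f), Q.Prime → AG ((n : ℤ) * Q ^ E) x →
        TT none ((n : ℤ) * Q ^ E) b x p q p' q' =
          c + E * (Φ (ZMod.unitOfCoprime Q hQ)).toAdd := by
    by_cases hLC : LC (uni none) b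
    · obtain ⟨C, Φ, H⟩   := PTL.DC.place_LC (n := (n : ℤ)) hSLC hnz hn1 hn2 hLC hf1 hlamf
      refine ⟨C + sl w (x : Eis), Φ, ?_⟩
      intro E Q hQ hQp hax
      rw [TT_LC hLC]
      obtain ⟨N0, hN0⟩ := (hAVV none ((n : ℤ) * Q ^ E) b x p q p' q' (hBne E Q hQp) hb hx hs.toSolW
        (DCOT.sy_zeroG hSTM hSPP (hBne E Q hQp) hax none) hLC).1
      rw [H E Q hQ _ N0 hN0]
      show _ + sl w (x : Eis) = _
      ring
    · refine ⟨0, 1, ?_⟩
      intro E Q hQ hQp hax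
      unfold TT
      rw [if_neg hLC]
      simp
  -- the places dividing `M`
  have hpl : ∀ π : PP, ∃ (c : ZMod 3) (Φ : (ZMod f)ˣ →* Multiplicative (ZMod 3)),
      π.1 ∣ (M : Eis) → ∀ (E Q : ℕ) (hQ : Q.Coprime f), Q.Prime → AG ((n : ℤ) * Q ^ E) x →
        TT (some π) ((n : ℤ) * Q ^ E) b x p q p' q' =
          c + E * (Φ (ZMod.unitOfCoprime Q hQ)).toAdd := by
    intro π
    by_cases hπM : π.1 ∣ (M : Eis)
    · have hπf : π.1 ∣ ((f : ℤ) : Eis) := hπM.trans (intCast_dvd_intCast.2 hMf)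
      by_cases hLC : LC (uni (some π)) b
      · obtain ⟨C, Φ, H⟩   := PTL.DC.place_LC (n := (n : ℤ)) (hSTM π.1 π.2.1 (hSPP.2.2.2.1 π).1) hnz hn1
          hn2 hLC hf1 (by rw [pow_one]; exact hπf)
        refine ⟨C + tm π.1 w (x : Eis), Φ, ?_⟩
        intro _ E Q hQ hQp hax
        rw [TT_LC hLC]
        obtain ⟨N0, hN0⟩ := (hAVV (some π) ((n : ℤ) * Q ^ E) b x p q p' q' (hBne E Q hQp) hb hx
          hs.toSolW (DCOT.sy_zeroG hSTM hSPP (hBne E Q hQp) hax (some π)) hLC).1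
        rw [H E Q hQ _ N0 hN0]
        show _ + tm π.1 w (x : Eis) = _
        ring
      · refine ⟨if 3 ∣ V π.1 (b : Eis) + V π.1 ((n : ℤ) : Eis) ∧ ¬ 3 ∣ V π.1 (b : Eis)
          then - tm π.1 w (x : Eis) else 0, 1, ?_⟩
        intro _ E Q hQ hQp hax
        rw [TT_some hLC]
        have hVQ : V π.1 ((Q : ℤ) : Eis) = 0 := by
          apply V_eq_zero
          intro hd
          obtain ⟨y, z, hyz⟩ := Nat.isCoprime_iff_coprime.2 hQ
          apply π.2.1.not_isUnit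
          apply isUnit_of_dvd_one
          have h1 : (1 : Eis) = (y : Eis) * ((Q : ℤ) : Eis) + (z : Eis) * ((f : ℤ) : Eis) := by
            have h2 := congrArg (fun t : ℤ => (t : Eis)) hyz
            simp only [Int.cast_add, Int.cast_mul, Int.cast_one] at h2
            exact h2.symm
          rw [h1]
          exact dvd_add (dvd_mul_of_dvd_right hd _) (dvd_mul_of_dvd_right hπf _)
        have hV : V π.1 (((n : ℤ) * Q ^ E : ℤ) : Eis) = V π.1 ((n : ℤ) : Eis) := by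
          have hQe : ((Q : ℤ) : Eis) ≠ 0 := cast_ne (by exact_mod_cast hQp.ne_zero)
          rw [Int.cast_mul, Int.cast_pow, V_mul π.2.1 (cast_ne hnz) (pow_ne_zero _ hQe),
            V_pow π.2.1 hQe, hVQ, mul_zero, add_zero]
        rw [hV]
        simp
    · exact ⟨0, 1, fun h => absurd h hπM⟩
  choose c Φ H using hpl
  refine ⟨c₀ + ∑ π ∈ hfin.toFinset, c π, Φ₀ * ∏ π ∈ hfin.toFinset, Φ π, ?_⟩
  intro E Q hQ hQp hQ3 hax r hr
  obtain ⟨πQ, hπQ⟩ := hSPP.2.2.2.2.1 Q hQp hQ3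
  have hQc : ((Q : ℤ) : Eis) = (Q : Eis) := Int.cast_natCast Q
  have hπQ' : πQ.1 = ((Q : ℤ) : Eis) := by rw [hπQ, hQc]
  have hQnd : ∀ m : ℤ, m ∣ M → ¬ πQ.1 ∣ (m : Eis) := by
    intro m hm h
    rw [hπQ'] at h
    exact hQM Q hQp hQ ((intCast_dvd_intCast.1 h).trans hm)
  have hQw : ¬ πQ.1 ∣ w := not_dvd_w πQ.2.1
  have hBcast : (((n : ℤ) * Q ^ E : ℤ) : Eis) = ((n : ℤ) : Eis) * πQ.1 ^ E := by
    rw [Int.cast_mul, Int.cast_pow, hπQ']
  -- the place `Q`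
  have hTQ : TT (some πQ) ((n : ℤ) * Q ^ E) b x p q p' q' = - (E * TAUV Q p q p' q' r) := by
    have hLC : LC (uni (some πQ)) b := by
      refine (hLCI.1 πQ b hb).2 ⟨?_, ?_⟩
      · rw [V_eq_zero (hQnd b db)]
        exact dvd_zero 3
      · unfold ch up
        rw [V_eq_zero (hQnd b db), pow_zero, EuclideanDomain.div_one, hπQ]
        refine sym_int hQp hQ3 ?_
        intro h
        exact hQM Q hQp hQ (h.trans db)
    rw [TT_LC hLC]
    have hw : sy (some πQ) w (x : Eis) = 0 := tm_zero hQw (hQnd x dx)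
    rw [hw, add_zero]
    refine (hAVV (some πQ) ((n : ℤ) * Q ^ E) b x p q p' q' (hBne E Q hQp) hb hx
      hs.toSolW (DCOT.sy_zeroG hSTM hSPP (hBne E Q hQp) hax (some πQ)) hLC).2 _ 1 ?_
    intro r' hr'
    have hr1 : πQ.1 ∣ (r' : Eis) ^ 3 - (b : Eis) := by
      have h1 : πQ.1 ^ 1 ∣ (r' : Eis) ^ 3 - (b : Eis) := hr'
      rwa [pow_one] at h1
    have hrr : (Q : ℤ) ∣ r' - r := by
      apply root_unique hQp hQ3
      have h1 : (Q : ℤ) ∣ r' ^ 3 - b := by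
        rw [hπQ'] at hr1
        apply intCast_dvd_intCast.1
        push_cast
        push_cast at hr1
        exact hr1
      have h2 : r' ^ 3 - r ^ 3 = (r' ^ 3 - b) - (r ^ 3 - b) := by ring
      rw [h2]
      exact dvd_sub h1 hr
    have hrr' : πQ.1 ∣ (r' : Eis) - (r : Eis) := by
      rw [hπQ', ← Int.cast_sub]
      exact intCast_dvd_intCast.2 hrr
    have hsym : ∀ (g h : ℤ) (i : ℕ), sym (Q : Eis) (Lf g h i r') = sym (Q : Eis) (Lf g h i r) := by
      intro g h i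
      apply sym_congr
      rw [← hπQ]
      have h1 : Lf g h i r' - Lf g h i r = (h * w ^ i) * ((r' : Eis) - r) := by
        unfold Lf
        ring
      rw [h1]
      exact dvd_mul_of_dvd_right hrr' _
    have k1 := Lf_ndvd (p := p) (q := q) hr1 (hQnd _ d1)
    have k2 := Lf_ndvd (p := p') (q := q') hr1 (hQnd _ d2)
    show tm πQ.1 (((n : ℤ) * Q ^ E : ℤ) : Eis) (Lf p q 2 r') +
      tm πQ.1 (((n : ℤ) * Q ^ E : ℤ) : Eis) (Lf p' q' 1 r') -
      tm πQ.1 (((n : ℤ) * Q ^ E : ℤ) : Eis) (Lf p q 1 r') -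
      tm πQ.1 (((n : ℤ) * Q ^ E : ℤ) : Eis) (Lf p' q' 2 r') = - (E * TAUV Q p q p' q' r)
    rw [hBcast, PTL.DC.tm_inert πQ.2.1 (hQnd _ dn) (k1 2), PTL.DC.tm_inert πQ.2.1 (hQnd _ dn) (k2 1),
      PTL.DC.tm_inert πQ.2.1 (hQnd _ dn) (k1 1), PTL.DC.tm_inert πQ.2.1 (hQnd _ dn) (k2 2), hπQ, hsym, hsym,
      hsym, hsym]
    unfold TAUV
    ring
  -- the sum
  have hQS : πQ ∉ hfin.toFinset := by
    rw [Set.Finite.mem_toFinset]
    exact hQnd M dvd_rfl
  classical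
  have hsupp : (Function.support fun v : Pl => TT v ((n : ℤ) * Q ^ E) b x p q p' q') ⊆
      ((insert none (insert (some πQ) (hfin.toFinset.image some)) : Finset Pl) : Set Pl) := by
    intro v hv
    by_contra hnv
    apply hv
    rcases v with _ | π
    · exact absurd (Finset.mem_coe.2 (Finset.mem_insert_self _ _)) hnv
    · have hnM : ¬ π.1 ∣ (M : Eis) := by
        intro h
        apply hnv
        rw [Finset.mem_coe]
        refine Finset.mem_insert_of_mem (Finset.mem_insert_of_mem (Finset.mem_image_of_mem _ ?_))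
        rw [Set.Finite.mem_toFinset]
        exact h
      have hπne : π ≠ πQ := by
        rintro rfl
        apply hnv
        rw [Finset.mem_coe]
        exact Finset.mem_insert_of_mem (Finset.mem_insert_self _ _)
      have hd : ∀ m : ℤ, m ∣ M → ¬ π.1 ∣ (m : Eis) := fun m hm h =>
        hnM (h.trans (intCast_dvd_intCast.2 hm))
      have hπQnd : ¬ π.1 ∣ πQ.1 := by
        intro h
        exact hπne (hSPP.2.1 π πQ (π.2.1.associated_of_dvd πQ.2.1 h))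
      have hnB : ¬ π.1 ∣ (((n : ℤ) * Q ^ E : ℤ) : Eis) := by
        rw [hBcast]
        intro h
        rcases π.2.1.dvd_or_dvd h with h1 | h1
        · exact hd _ dn h1
        · exact hπQnd (π.2.1.dvd_of_dvd_pow h1)
      have hnw : ¬ π.1 ∣ w := not_dvd_w π.2.1
      show TT (some π) ((n : ℤ) * Q ^ E) b x p q p' q' = 0
      by_cases hLC : LC (uni (some π)) b
      · rw [TT_LC hLC]
        have hw : sy (some π) w (x : Eis) = 0 := tm_zero hnw (hd x dx)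
        obtain ⟨N0, hN0⟩ := (hAVV (some π) ((n : ℤ) * Q ^ E) b x p q p' q' (hBne E Q hQp) hb hx
          hs.toSolW (DCOT.sy_zeroG hSTM hSPP (hBne E Q hQp) hax (some π)) hLC).1
        obtain ⟨r₁, hr₁⟩ := hLC (max N0 1)
        have hr0 : uni (some π) ^ N0 ∣ (r₁ : Eis) ^ 3 - (b : Eis) :=
          (pow_dvd_pow _ (le_max_left _ _)).trans hr₁
        have hr1 : π.1 ∣ (r₁ : Eis) ^ 3 - (b : Eis) := by
          have h1 : π.1 ^ 1 ∣ (r₁ : Eis) ^ 3 - (b : Eis) :=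
            (pow_dvd_pow π.1 (le_max_right N0 1)).trans hr₁
          rwa [pow_one] at h1
        have k1 := Lf_ndvd (p := p) (q := q) hr1 (hd _ d1)
        have k2 := Lf_ndvd (p := p') (q := q') hr1 (hd _ d2)
        rw [hw, ← hN0 r₁ hr0]
        show tm π.1 (((n : ℤ) * Q ^ E : ℤ) : Eis) (Lf p q 2 r₁) +
          tm π.1 (((n : ℤ) * Q ^ E : ℤ) : Eis) (Lf p' q' 1 r₁) -
          tm π.1 (((n : ℤ) * Q ^ E : ℤ) : Eis) (Lf p q 1 r₁) -
          tm π.1 (((n : ℤ) * Q ^ E : ℤ) : Eis) (Lf p' q' 2 r₁) + 0 = 0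
        rw [tm_zero hnB (k1 2), tm_zero hnB (k2 1), tm_zero hnB (k1 1), tm_zero hnB (k2 2)]
        simp
      · rw [TT_some hLC, if_neg]
        rintro ⟨-, h1⟩
        apply h1
        rw [V_eq_zero (hd b db)]
        exact dvd_zero 3
  have hn_notin : (none : Pl) ∉ insert (some πQ) (hfin.toFinset.image some) := by
    simp
  have hQ_notin : (some πQ : Pl) ∉ hfin.toFinset.image some := by
    intro h
    obtain ⟨y, hy, hy'⟩ := Finset.mem_image.1 h
    rw [Option.some.injEq] at hy'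
    rw [hy'] at hy
    exact hQS hy
  have hsum : ∑ π ∈ hfin.toFinset, TT (some π) ((n : ℤ) * Q ^ E) b x p q p' q' =
      ∑ π ∈ hfin.toFinset, (c π + E * (Φ π (ZMod.unitOfCoprime Q hQ)).toAdd) := by
    refine Finset.sum_congr rfl ?_
    intro π hπ
    rw [Set.Finite.mem_toFinset] at hπ
    exact H π hπ E Q hQ hQp hax
  unfold OO
  rw [finsum_eq_sum_of_support_subset _ hsupp, Finset.sum_insert hn_notin,
    Finset.sum_insert hQ_notin, Finset.sum_image (fun _ _ _ _ h => Option.some_injective _ h),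
    hsum, hTQ, H₀ E Q hQ hQp hax, Finset.sum_add_distrib, MonoidHom.mul_apply,
    MonoidHom.finsetProd_apply, toAdd_mul, toAdd_prod, ← Finset.mul_sum]
  ring

end DCOT

/-- DCOT: the pairing `O_{NQ^E}(b, η)` as a function of the prime `Q = 2 (mod 3)` and of `E`. -/
theorem DCOT_thm (hSTM : STM) (hSPP : SPP) (hSLC : SLC) (hLCI : LCI) (hAVV : AVV)
    (_hSCJ : SCJ) : DCOT := by
  classical
  intro N b X Y x p q p' q' hN hs hb hx
  obtain ⟨f₀, hf₀, H⟩ := DCOT.main hSTM hSPP hSLC hLCI hAVV N b x p q p' q' hN hs hb hx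
  refine ⟨f₀, hf₀, fun f hf hd => ?_⟩
  obtain ⟨C, Φ, H1⟩ := H f hf hd
  refine ⟨C + (if LC lam b then 0 else SV sl b p (-p') (-q) q' X Y), Φ, ?_⟩
  intro E Q hQ hQp hQ3 hax r hr
  have h1 := H1 E Q hQ hQp hQ3 hax r hr
  unfold OT
  rw [h1]
  by_cases hLC : LC lam b
  · simp only [if_pos hLC]
    ring
  · simp only [if_neg hLC]
    ring

end Pool.Agent.PT3

end
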