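import Mathlib
import Pool.Agent.PTL.Defs
import Pool.Agent.PTWX.C28

/-! Parts: PT.F7U, PT.BKER, PT.ALTK, PTL.AL -/

namespace Pool.Agent.PT.BKER
end Pool.Agent.PT.BKER

section

/-!
# PT_F7U: the local term of a point at a tame place where `x` has valuation divisible by `3` and is
not a cube.
-/

namespace Pool.Agent.PT

open Pool.Agent.Lib_helper18 Pool.Agent.Lib_helper18.Eis Pool.Agent.Lib_helper84.Cub

namespace F7U

theorem cast_ne {n : ℤ} (h : n ≠ 0) : (n : Eis) ≠ 0 := by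
  intro h0
  apply h
  simpa using congrArg Eis.re h0

theorem pp_not_dvd_three (π : PP) : ¬ π.1 ∣ 3 := by
  intro h
  have h1 := (dvd_three_iff π.2.1).1 h
  have h2 : lam ∣ π.1 := h1.symm.dvd
  rw [lam_dvd_iff] at h2
  have h3 := π.2.2.1
  have h4 := π.2.2.2
  omega

theorem ch_self {π : Eis} (hπ : Prime π) (h3 : ¬ π ∣ 3) : ch π π = 0 := by
  unfold ch up
  rw [V_self, pow_one, EuclideanDomain.div_self hπ.ne_zero, sym_one hπ h3]

theorem tm_self {π a : Eis} (hπ : Prime π) (h3 : ¬ π ∣ 3) : tm π a π = ch π a := by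
  unfold tm
  rw [ch_self hπ h3, V_self]
  simp

theorem ch_mul {π a b : Eis} (hπ : Prime π) (h3 : ¬ π ∣ 3) (S : LSym π (tm π) 1) (ha : a ≠ 0)
    (hb : b ≠ 0) : ch π (a * b) = ch π a + ch π b := by
  rw [← tm_self hπ h3, ← tm_self hπ h3, ← tm_self hπ h3]
  exact S.mul a b π ha hb hπ.ne_zero

theorem three0 : (3 : ZMod 3) = 0 := rfl

theorem ch_cube {π a : Eis} (hπ : Prime π) (h3 : ¬ π ∣ 3) (S : LSym π (tm π) 1) (ha : a ≠ 0) :
    ch π (a ^ 3) = 0 := by
  have e : a ^ 3 = a * a * a := by ring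
  rw [e, ch_mul hπ h3 S (mul_ne_zero ha ha) ha, ch_mul hπ h3 S ha ha]
  linear_combination (ch π a) * three0

theorem ch_neg {π a : Eis} (hπ : Prime π) (h3 : ¬ π ∣ 3) (S : LSym π (tm π) 1) (ha : a ≠ 0) :
    ch π (-a) = ch π a := by
  have e : -a = (-1) ^ 3 * a := by ring
  rw [e, ch_mul hπ h3 S (pow_ne_zero _ (by simp)) ha, ch_cube hπ h3 S (by simp), zero_add]

theorem ch_congr {π a a' : Eis} (hπ : Prime π) (h3 : ¬ π ∣ 3) (S : LSym π (tm π) 1) (ha : a ≠ 0)
    (h : π ^ (V π a + 1) ∣ a' - a) : ch π a' = ch π a := by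
  rw [← tm_self hπ h3, ← tm_self hπ h3]
  exact S.cont a a' π ha hπ.ne_zero h

theorem dvd_iff_le {π a : Eis} (hπ : Prime π) (ha : a ≠ 0) (n : ℕ) : π ^ n ∣ a ↔ n ≤ V π a :=
  (fin hπ ha).pow_dvd_iff_le_multiplicity

theorem ch_unit {π a : Eis} (h : ¬ π ∣ a) : ch π a = sym π a := by
  unfold ch up
  rw [V_eq_zero h, pow_zero, EuclideanDomain.div_one]

/-- `x0` not a cube mod `π` -/
theorem noncube {π x0 : Eis} (hπ : Prime π) (h3 : ¬ π ∣ 3) (hx : ¬ π ∣ x0) (hs : sym π x0 ≠ 0)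
    (u v : Eis) (h : π ∣ u ^ 3 + x0 * v ^ 3) : π ∣ u ∧ π ∣ v := by
  by_cases hv : π ∣ v
  · refine ⟨?_, hv⟩
    have h1 : π ∣ x0 * v ^ 3 := dvd_mul_of_dvd_right (dvd_pow hv (by norm_num)) _
    exact hπ.dvd_of_dvd_pow ((dvd_add_left h1).1 h)
  · exfalso
    have hv3 : ¬ π ∣ v ^ 3 := fun h => hv (hπ.dvd_of_dvd_pow h)
    have hxv : ¬ π ∣ x0 * v ^ 3 := fun h => (hπ.dvd_or_dvd h).elim hx hv3
    have hu : ¬ π ∣ u := by
      intro hu
      have h1 : π ∣ u ^ 3 := dvd_pow hu (by norm_num)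
      exact hxv ((dvd_add_right h1).1 h)
    have e : π ∣ (-u) ^ 3 - x0 * v ^ 3 := by
      have : (-u) ^ 3 - x0 * v ^ 3 = -(u ^ 3 + x0 * v ^ 3) := by ring
      rw [this]; exact (dvd_neg).2 h
    have h1 := sym_congr e
    rw [sym_cube hπ h3 (fun h => hu ((dvd_neg).1 h)), sym_mul hπ h3 hx hv3, sym_cube hπ h3 hv,
      add_zero] at h1
    exact hs h1.symm

theorem descent {π x0 : Eis} (hπ : Prime π)
    (hB : ∀ u v : Eis, π ∣ u ^ 3 + x0 * v ^ 3 → π ∣ u ∧ π ∣ v) :
    ∀ (j : ℕ) (A B : Eis), π ^ (3 * j + 1) ∣ A ^ 3 + x0 * B ^ 3 → π ^ (j + 1) ∣ A ∧ π ^ (j + 1) ∣ B := by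
  intro j
  induction j with
  | zero => intro A B h; simpa using hB A B (by simpa using h)
  | succ j ih =>
    intro A B h
    obtain ⟨⟨a, rfl⟩, ⟨b, rfl⟩⟩ := hB A B (dvd_trans (dvd_pow_self _ (by omega)) h)
    have e : (π * a) ^ 3 + x0 * (π * b) ^ 3 = π ^ 3 * (a ^ 3 + x0 * b ^ 3) := by ring
    have e2 : π ^ (3 * (j + 1) + 1) = π ^ 3 * π ^ (3 * j + 1) := by rw [← pow_add]; congr 1; ring
    rw [e, e2] at h
    obtain ⟨h1, h2⟩ := ih a b ((mul_dvd_mul_iff_left (pow_ne_zero _ hπ.ne_zero)).1 h)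
    rw [pow_succ' π (j + 1)]
    exact ⟨mul_dvd_mul_left _ h1, mul_dvd_mul_left _ h2⟩

/-- the structure of `x` -/
theorem split_x {π x : Eis} (hπ : Prime π) (h3 : ¬ π ∣ 3) (S : LSym π (tm π) 1) (hx : x ≠ 0)
    (hV : 3 ∣ V π x) (hc : ch π x ≠ 0) : ∃ (k : ℕ) (x0 : Eis), x = (π ^ k) ^ 3 * x0 ∧
      ∀ u v : Eis, π ∣ u ^ 3 + x0 * v ^ 3 → π ∣ u ∧ π ∣ v := by
  obtain ⟨c, hc1, hc2⟩ := V_split hπ hx
  obtain ⟨k, hk⟩ := hV
  refine ⟨k, c, ?_, ?_⟩
  · rw [← pow_mul, mul_comm k 3, ← hk]; exact hc1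
  · apply noncube hπ h3 hc2
    intro hs
    apply hc
    have hc0 : c ≠ 0 := by rintro rfl; exact hc2 (dvd_zero _)
    have hx' : x = (π ^ k) ^ 3 * c := by rw [← pow_mul, mul_comm k 3, ← hk]; exact hc1
    rw [hx', ch_mul hπ h3 S (pow_ne_zero _ (pow_ne_zero _ hπ.ne_zero)) hc0,
      ch_cube hπ h3 S (pow_ne_zero _ hπ.ne_zero), zero_add, ch_unit hc2, hs]

theorem V_form {π x : Eis} (hπ : Prime π) (h3 : ¬ π ∣ 3) (S : LSym π (tm π) 1) (hx : x ≠ 0)
    (hV : 3 ∣ V π x) (hc : ch π x ≠ 0) (A B : Eis) (hAB : ¬ (A = 0 ∧ B = 0)) :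
    A ^ 3 + x * B ^ 3 ≠ 0 ∧ 3 ∣ V π (A ^ 3 + x * B ^ 3) := by
  obtain ⟨k, x0, rfl, hB⟩ := split_x hπ h3 S hx hV hc
  have e : A ^ 3 + (π ^ k) ^ 3 * x0 * B ^ 3 = A ^ 3 + x0 * (π ^ k * B) ^ 3 := by ring
  rw [e]
  apply three_dvd_V hπ hB _ _ _ rfl
  rintro ⟨h1, h2⟩
  exact hAB ⟨h1, (mul_eq_zero.1 h2).resolve_left (pow_ne_zero _ hπ.ne_zero)⟩

theorem half {π : Eis} (hπ : Prime π) (h3 : ¬ π ∣ 3) (S : LSym π (tm π) 1) (x X Y P P' : Eis)
    (hx : x ≠ 0) (hV : 3 ∣ V π x) (hc : ch π x ≠ 0) (hX : X ≠ 0) (hY : Y ≠ 0)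
    (hN : P ^ 3 - x * P' ^ 3 ≠ 0) (hD1 : X * P' + w ^ 1 * P * Y ≠ 0)
    (hD2 : X * P' + w ^ 2 * P * Y ≠ 0) :
    tm π (X * P' + w ^ 1 * P * Y) (P ^ 3 - x * P' ^ 3) -
      tm π (X * P' + w ^ 2 * P * Y) (P ^ 3 - x * P' ^ 3) -
      tm π (X * P' + w ^ 1 * P * Y) (X ^ 3 + x * Y ^ 3) +
      tm π (X * P' + w ^ 2 * P * Y) (X ^ 3 + x * Y ^ 3) = 0 := by
  have hn := V_form hπ h3 S hx hV hc X Y (fun h => hX h.1)
  have hPP : ¬ (P = 0 ∧ -P' = 0) := by
    rintro ⟨rfl, h⟩
    rw [neg_eq_zero] at h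
    apply hN
    rw [h]; ring
  have hN1 := V_form hπ h3 S hx hV hc P (-P') hPP
  have eN : P ^ 3 + x * (-P') ^ 3 = P ^ 3 - x * P' ^ 3 := by ring
  rw [eN] at hN1
  have hz1 : (V π (P ^ 3 - x * P' ^ 3) : ZMod 3) = 0 := by
    rw [ZMod.natCast_eq_zero_iff]; exact hN1.2
  have hz2 : (V π (X ^ 3 + x * Y ^ 3) : ZMod 3) = 0 := by
    rw [ZMod.natCast_eq_zero_iff]; exact hn.2
  have key : V π (X * P' + w ^ 1 * P * Y) = V π (X * P' + w ^ 2 * P * Y) ∨
      ch π (P ^ 3 - x * P' ^ 3) = ch π (X ^ 3 + x * Y ^ 3) := by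
    by_contra hcon
    push Not at hcon
    obtain ⟨hne, hch⟩ := hcon
    -- the differences
    have hw1 : ¬ π ∣ w - w ^ 2 := fun h => h3 (h.trans ⟨w ^ 2 * (1 - w ^ 2), by decide⟩)
    have hw2 : ¬ π ∣ w - 1 := fun h => h3 (h.trans ⟨w ^ 2 - 1, by decide⟩)
    have hcop : ∀ (c z : Eis) (n : ℕ), ¬ π ∣ c → π ^ n ∣ c * z → π ^ n ∣ z := by
      intro c z n hc h
      exact (hπ.pow_dvd_of_dvd_mul_left n hc h)
    have both : ∀ n : ℕ, π ^ n ∣ X * P' + w ^ 1 * P * Y → π ^ n ∣ X * P' + w ^ 2 * P * Y →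
        π ^ n ∣ P * Y ∧ π ^ n ∣ X * P' := by
      intro n h1 h2
      constructor
      · apply hcop _ _ _ hw1
        have := dvd_sub h1 h2
        have e : X * P' + w ^ 1 * P * Y - (X * P' + w ^ 2 * P * Y) = (w - w ^ 2) * (P * Y) := by ring
        rwa [e] at this
      · apply hcop _ _ _ hw2
        have := dvd_sub (dvd_mul_of_dvd_right h1 w) h2
        have e : w * (X * P' + w ^ 1 * P * Y) - (X * P' + w ^ 2 * P * Y) = (w - 1) * (X * P') := by
          ring
        rwa [e] at this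
    obtain ⟨k, x0, hxe, hB⟩ := split_x hπ h3 S hx hV hc
    -- main claim
    have main : ∀ (c : Eis) (m : ℕ), c ^ 3 = 1 → π ^ m ∣ P * Y → π ^ m ∣ X * P' →
        ¬ (π ^ (m + 1) ∣ P * Y ∧ π ^ (m + 1) ∣ X * P') → π ^ (m + 1) ∣ X * P' + c * (P * Y) →
        False := by
      intro c m hc3 h1 h2 h4 h5
      have h6 : π ^ (3 * m + 1) ∣ (X * P') ^ 3 + (c * (P * Y)) ^ 3 := by
        obtain ⟨u, hu⟩ := h1
        obtain ⟨v, hv⟩ := h2
        rw [hu, hv] at h5 ⊢
        obtain ⟨t, ht⟩ := h5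
        refine ⟨t * (v ^ 2 - v * (c * u) + (c * u) ^ 2), ?_⟩
        have e : (π ^ m * v) ^ 3 + (c * (π ^ m * u)) ^ 3 =
          (π ^ m * v + c * (π ^ m * u)) * (π ^ m * π ^ m * (v ^ 2 - v * (c * u) + (c * u) ^ 2)) := by
          ring
        rw [e, ht]
        ring
      have h7 : π ^ (3 * m + 1) ∣ (-((X ^ 3 + x * Y ^ 3) * P' ^ 3)) - Y ^ 3 * (P ^ 3 - x * P' ^ 3) := by
        have e : (-((X ^ 3 + x * Y ^ 3) * P' ^ 3)) - Y ^ 3 * (P ^ 3 - x * P' ^ 3) =
          -((X * P') ^ 3 + (c * (P * Y)) ^ 3) := by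
          linear_combination (P ^ 3 * Y ^ 3) * hc3
        rw [e]; exact (dvd_neg).2 h6
      have h8 : ¬ π ^ (3 * m + 1) ∣ Y ^ 3 * (P ^ 3 - x * P' ^ 3) := by
        intro h8
        have e : Y ^ 3 * (P ^ 3 - x * P' ^ 3) = (P * Y) ^ 3 + x0 * (-(π ^ k * P' * Y)) ^ 3 := by
          rw [hxe]; ring
        rw [e] at h8
        obtain ⟨h9, -⟩ := descent hπ hB m _ _ h8
        apply h4
        refine ⟨h9, ?_⟩
        exact (dvd_add_left (dvd_mul_of_dvd_right h9 c)).1 h5
      have hYN : Y ^ 3 * (P ^ 3 - x * P' ^ 3) ≠ 0 := mul_ne_zero (pow_ne_zero _ hY) hN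
      have h9 : V π (Y ^ 3 * (P ^ 3 - x * P' ^ 3)) + 1 ≤ 3 * m + 1 := by
        by_contra hcon
        exact h8 ((dvd_iff_le hπ hYN _).2 (by omega))
      have h10 := ch_congr hπ h3 S hYN ((pow_dvd_pow _ h9).trans h7)
      have hP' : P' ≠ 0 := by
        rintro rfl
        apply h8
        have := (dvd_neg).2 h7
        have e : -(-((X ^ 3 + x * Y ^ 3) * 0 ^ 3) - Y ^ 3 * (P ^ 3 - x * 0 ^ 3)) =
          Y ^ 3 * (P ^ 3 - x * 0 ^ 3) := by ring
        rwa [e] at this
      rw [ch_neg hπ h3 S (mul_ne_zero hn.1 (pow_ne_zero _ hP')),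
        ch_mul hπ h3 S hn.1 (pow_ne_zero _ hP'), ch_cube hπ h3 S hP',
        ch_mul hπ h3 S (pow_ne_zero _ hY) hN, ch_cube hπ h3 S hY, add_zero, zero_add] at h10
      exact hch h10.symm
    rcases lt_or_gt_of_ne hne with h | h
    · obtain ⟨a1, a2⟩ := both (V π (X * P' + w ^ 1 * P * Y)) ((dvd_iff_le hπ hD1 _).2 le_rfl)
        ((dvd_iff_le hπ hD2 _).2 h.le)
      refine main (w ^ 2) _ (by decide) a1 a2 ?_ ?_
      · rintro ⟨b1, b2⟩
        have := (dvd_add b2 (dvd_mul_of_dvd_right b1 (w ^ 1)))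
        rw [← mul_assoc, dvd_iff_le hπ hD1] at this
        omega
      · rw [← mul_assoc, dvd_iff_le hπ hD2]
        omega
    · obtain ⟨a1, a2⟩ := both (V π (X * P' + w ^ 2 * P * Y)) ((dvd_iff_le hπ hD1 _).2 h.le)
        ((dvd_iff_le hπ hD2 _).2 le_rfl)
      refine main (w ^ 1) _ (by decide) a1 a2 ?_ ?_
      · rintro ⟨b1, b2⟩
        have := (dvd_add b2 (dvd_mul_of_dvd_right b1 (w ^ 2)))
        rw [← mul_assoc, dvd_iff_le hπ hD2] at this
        omega
      · rw [← mul_assoc, dvd_iff_le hπ hD1]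
        omega
  unfold tm
  rw [hz1, hz2]
  rcases key with h | h
  · rw [h]; ring
  · rw [h]; ring

/-- nonvanishing of the linear forms with integer coefficients -/
theorem lin_ne {X Y p p' : ℤ} (hX : X ≠ 0) (hY : Y ≠ 0) (h : ¬ (p = 0 ∧ p' = 0)) (i : ℕ)
    (hi : i = 1 ∨ i = 2) : (X : Eis) * p' + w ^ i * p * Y ≠ 0 := by
  intro h0
  apply h
  have hre := congrArg Eis.re h0
  have him := congrArg Eis.im h0
  rcases hi with rfl | rfl
  · simp at hre him
    exact ⟨by tauto, by tauto⟩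
  · simp [pow_two] at hre him
    rcases him with h1 | h1
    · subst h1
      simp at hre
      exact ⟨rfl, by tauto⟩
    · exact absurd h1 hY

end F7U

theorem F7U_thm (hSTM : STM) : F7U := by
  intro π b x p q p' q' X Y hb hx hs hX hY hV hc
  have h3 := F7U.pp_not_dvd_three π
  have hπ := π.2.1
  have S := hSTM π.1 hπ h3
  have hxE : (x : Eis) ≠ 0 := F7U.cast_ne hx
  have hXE : (X : Eis) ≠ 0 := F7U.cast_ne hX
  have hYE : (Y : Eis) ≠ 0 := F7U.cast_ne hY
  have hN2 : x * q' ^ 3 - q ^ 3 ≠ 0 := by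
    intro h
    apply hs.n2
    have e : p ^ 3 - x * p' ^ 3 = b * (x * q' ^ 3 - q ^ 3) := by linear_combination hs.eq
    rw [e, h, mul_zero]
  have hp : ¬ (p = 0 ∧ p' = 0) := by
    rintro ⟨rfl, rfl⟩; apply hs.n2; ring
  have hq : ¬ (q = 0 ∧ q' = 0) := by
    rintro ⟨rfl, rfl⟩; apply hN2; ring
  have h1 := F7U.half hπ h3 S x X Y p p' hxE hV hc hXE hYE (by
    have := F7U.cast_ne hs.n2
    push_cast at this
    exact this) (F7U.lin_ne hX hY hp 1 (Or.inl rfl)) (F7U.lin_ne hX hY hp 2 (Or.inr rfl))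
  have hqE : (q : Eis) ^ 3 - x * (q' : Eis) ^ 3 ≠ 0 := by
    intro h
    have h' := F7U.cast_ne hN2
    apply h'
    push_cast; linear_combination -h
  have h2 := F7U.half hπ h3 S x X Y q q' hxE hV hc hXE hYE hqE
    (F7U.lin_ne hX hY hq 1 (Or.inl rfl)) (F7U.lin_ne hX hY hq 2 (Or.inr rfl))
  have hneg : ∀ D : Eis, tm π.1 D ((x * q' ^ 3 - q ^ 3 : ℤ) : Eis) =
      tm π.1 D ((q : Eis) ^ 3 - x * (q' : Eis) ^ 3) := by
    intro D
    have e : ((x * q' ^ 3 - q ^ 3 : ℤ) : Eis) = -((q : Eis) ^ 3 - x * (q' : Eis) ^ 3) := by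
      push_cast; ring
    rw [e]
    unfold tm
    rw [V_neg, F7U.ch_neg hπ h3 S hqE]
  unfold SV Df
  rw [hneg, hneg]
  push_cast
  rw [h1, h2, sub_zero]

end Pool.Agent.PT

end

section

/-!
# BKER: the rank is bounded by the dimension of the kernel of the matrix
-/

set_option autoImplicit false

namespace Pool.Agent.PT

open Pool.Agent.Lib_helper18 Pool.Agent.Lib_helper18.Eis Pool.Agent.Lib_helper84.Cub

namespace BKER

open Pool.Agent.CubeRank (UG HypG AA GenBy zf)

/-- the class of the vector `v` -/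
def Z {k : ℕ} (r f : Fin k → ℕ) (v : Fin (k + 1) → ZMod 3) : ℕ :=
  ∏ j, r j ^ (f j * (2 - (v j.succ).val))

/-- the primes -/
def pc {k : ℕ} (q : ℕ) (r : Fin k → ℕ) : Fin (k + 1) → ℕ := Fin.cons q r

theorem AA_pc {k : ℕ} (q : ℕ) (r f : Fin k → ℕ) :
    AA (pc q r) (pc 1 f) = (q : ℤ) * ∏ i, (r i : ℤ) ^ f i := by
  unfold AA
  rw [Fin.prod_univ_succ]
  simp [pc]

theorem cases3 (z : ZMod 3) : z = 0 ∨ z = 1 ∨ z = 2 := by revert z; decide

theorem Z_eq {k : ℕ} (q : ℕ) (r f : Fin k → ℕ) (v : Fin (k + 1) → ZMod 3) (h0 : v 0 = 2) :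
    (Z r f v : ℤ) = cell (pc q r) (pc 1 f) (fun i => zf (v i)) 0 ^ 2 *
      cell (pc q r) (pc 1 f) (fun i => zf (v i)) 1 := by
  unfold cell Z
  rw [Fin.prod_univ_succ, Fin.prod_univ_succ]
  have h1 : zf (v 0) ≠ 0 := by rw [h0]; decide
  have h2 : zf (v 0) ≠ 1 := by rw [h0]; decide
  rw [if_neg h1, if_neg h2, one_mul, one_mul, ← Finset.prod_pow, ← Finset.prod_mul_distrib]
  push_cast
  refine Finset.prod_congr rfl (fun j _ => ?_)
  simp only [pc, Fin.cons_succ]
  rcases cases3 (v j.succ) with h | h | h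
  · rw [h, if_pos (by decide), if_neg (by decide), mul_one, ← pow_mul]
    rfl
  · rw [h, if_neg (by decide), if_pos (by decide), one_pow, one_mul]
    have : (2 - (1 : ZMod 3).val) = 1 := by decide
    rw [this, mul_one]
  · rw [h, if_neg (by decide), if_neg (by decide), one_pow, one_mul]
    have : (2 - (2 : ZMod 3).val) = 0 := by decide
    rw [this, mul_zero, pow_zero]

theorem val_prod {k : ℕ} {r : Fin k → ℕ} (hr : ∀ j, (r j).Prime) (hinj : Function.Injective r)
    (n : Fin k → ℕ) (j : Fin k) : (∏ i, r i ^ n i).factorization (r j) = n j := by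
  rw [Nat.factorization_prod (fun i _ => pow_ne_zero _ (hr i).ne_zero), Finsupp.finset_sum_apply,
    Finset.sum_eq_single j]
  · rw [(hr j).factorization_pow, Finsupp.single_eq_same]
  · intro i _ hij
    rw [(hr i).factorization_pow, Finsupp.single_eq_of_ne (fun h => hij (hinj h).symm)]
  · intro h
    exact absurd (Finset.mem_univ j) h

theorem Z_pos {k : ℕ} {r f : Fin k → ℕ} (hr : ∀ j, (r j).Prime) (v : Fin (k + 1) → ZMod 3) :
    Z r f v ≠ 0 := Finset.prod_ne_zero_iff.mpr (fun j _ => pow_ne_zero _ (hr j).ne_zero)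

/-- equal classes have equal exponents modulo `3` -/
theorem fact_eq {a b : ℕ} {A B : ℤ} (ha : a ≠ 0) (hb : b ≠ 0) (hA : A ≠ 0) (hB : B ≠ 0)
    (h : (a : ℤ) * A ^ 3 = b * B ^ 3) (p : ℕ) :
    (a.factorization p : ZMod 3) = b.factorization p := by
  have h1 : a * A.natAbs ^ 3 = b * B.natAbs ^ 3 := by
    have := congrArg Int.natAbs h
    simpa [Int.natAbs_mul, Int.natAbs_pow] using this
  have hA' : A.natAbs ≠ 0 := Int.natAbs_ne_zero.mpr hA
  have hB' : B.natAbs ≠ 0 := Int.natAbs_ne_zero.mpr hB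
  have h2 := congrArg (fun n => n.factorization p) h1
  simp only [Nat.factorization_mul ha (pow_ne_zero 3 hA'),
    Nat.factorization_mul hb (pow_ne_zero 3 hB'), Nat.factorization_pow, Finsupp.add_apply,
    Finsupp.smul_apply, smul_eq_mul] at h2
  have h3 := congrArg (fun n : ℕ => (n : ZMod 3)) h2
  simp only [Nat.cast_add, Nat.cast_mul] at h3
  have h30 : ((3 : ℕ) : ZMod 3) = 0 := by decide
  rw [h30, zero_mul, zero_mul, add_zero, add_zero] at h3
  exact h3

theorem Z_inj {k : ℕ} {r f : Fin k → ℕ} (hr : ∀ j, (r j).Prime) (hinj : Function.Injective r)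
    (hf : ∀ j, f j = 1 ∨ f j = 2) {v v' : Fin (k + 1) → ZMod 3} (h0 : v 0 = v' 0)
    {A B : ℤ} (hA : A ≠ 0) (hB : B ≠ 0) (h : (Z r f v : ℤ) * A ^ 3 = Z r f v' * B ^ 3) :
    v = v' := by
  funext i
  refine Fin.cases h0 (fun j => ?_) i
  have h1 := fact_eq (Z_pos hr v) (Z_pos hr v') hA hB h (r j)
  unfold Z at h1
  rw [val_prod hr hinj, val_prod hr hinj] at h1
  generalize v j.succ = a at *
  generalize v' j.succ = b at *
  rcases hf j with h2 | h2 <;> rw [h2] at h1 <;> revert h1 <;> revert a b <;> decide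

/-- two products that agree modulo cubes -/
theorem prod_cube {s : ℕ} (b : Fin s → ℤ) (hb : ∀ i, b i ≠ 0) (g g' : Fin s → ℕ)
    (h : ∀ i, (g i : ZMod 3) = g' i) : ∃ A B : ℤ, A ≠ 0 ∧ B ≠ 0 ∧
      (∏ i, b i ^ g i) * A ^ 3 = (∏ i, b i ^ g' i) * B ^ 3 := by
  refine ⟨∏ i, b i ^ (g' i / 3), ∏ i, b i ^ (g i / 3),
    Finset.prod_ne_zero_iff.mpr (fun i _ => pow_ne_zero _ (hb i)),
    Finset.prod_ne_zero_iff.mpr (fun i _ => pow_ne_zero _ (hb i)), ?_⟩
  rw [← Finset.prod_pow, ← Finset.prod_pow, ← Finset.prod_mul_distrib, ← Finset.prod_mul_distrib]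
  refine Finset.prod_congr rfl (fun i _ => ?_)
  rw [← pow_mul, ← pow_mul, ← pow_add, ← pow_add]
  congr 1
  have h1 : g i % 3 = g' i % 3 := (ZMod.natCast_eq_natCast_iff _ _ _).mp (h i)
  omega

theorem NF_eq {n k : ℕ} {π : Fin 0 → PP} {p e : Fin 0 → ℕ} {r f : Fin k → ℕ}
    (hNF : NF n π p e r f) : n = ∏ j, r j ^ f j := by
  have := hNF.eq
  rwa [Fin.prod_univ_zero, one_mul] at this

theorem AA_eq {n k : ℕ} {π : Fin 0 → PP} {p e : Fin 0 → ℕ} {r f : Fin k → ℕ}
    (hNF : NF n π p e r f) (q : ℕ) : AA (pc q r) (pc 1 f) = (n : ℤ) * q := by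
  rw [AA_pc, NF_eq hNF]
  push_cast
  ring

theorem r_dvd {n k : ℕ} {π : Fin 0 → PP} {p e : Fin 0 → ℕ} {r f : Fin k → ℕ}
    (hNF : NF n π p e r f) (j : Fin k) : r j ∣ n := by
  rw [NF_eq hNF]
  refine (dvd_pow_self (r j) ?_).trans (Finset.dvd_prod_of_mem _ (Finset.mem_univ j))
  have := hNF.rf j
  omega

theorem main (hEADM : EADM) (hFDX : FDX) (hTEND : TEND) {n k : ℕ} {π : Fin 0 → PP}
    {p e : Fin 0 → ℕ} {r f : Fin k → ℕ} {w0 : ZMod 3} {c : Fin 0 → ZMod 3} {s : ℕ}
    {b : Fin s → ℤ} {P Q P' Q' : Fin s → Fin s → ℤ} {q : ℕ} (hNF : NF n π p e r f)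
    (hAdm : ∀ i, AdmC n π w0 c (b i)) (hSys : Sys b P Q P' Q')
    (hgen : ∀ x : ℤ, AdmC n π w0 c x → ∃ (g : Fin s → ℕ) (u v : ℤ), u ≠ 0 ∧ v ≠ 0 ∧
      x * u ^ 3 = (∏ i, b i ^ g i) * v ^ 3)
    (hq : q.Prime) (hq2 : q % 3 = 2) (hw : wt ((q : ℤ) ^ 2) = w0) (hqn : ¬ q ∣ n)
    (hG : HypG (pc q r) (pc 1 f)) {v : Fin (k + 1) → ZMod 3} (hv : UG (pc q r) (pc 1 f) v)
    (h0 : v 0 = 2) :
    ∃ (g : Fin s → ℕ) (u y : ℤ), u ≠ 0 ∧ y ≠ 0 ∧ (Z r f v : ℤ) * u ^ 3 =
      (∏ i, b i ^ g i) * y ^ 3 ∧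
      ∀ j, ∑ i, Mat b P Q P' Q' ((n : ℤ) * q) j i * (g i : ZMod 3) = 0 := by
  obtain ⟨hB, hE⟩ := hEADM n 0 k π p e r f w0 c q hNF hq ⟨hq2, hw, fun i => i.elim0⟩ hqn
  have hA : ∀ i, Adm ((n : ℤ) * q) (b i) := fun i => (hE _ (hAdm i).supp).1 (hAdm i)
  by_cases hc : ∃ c, ∀ i, v i = c
  · obtain ⟨d, hd⟩ := hc
    have hd2 : d = 2 := by rw [← hd 0, h0]
    refine ⟨0, 1, 1, one_ne_zero, one_ne_zero, ?_, fun j => by simp⟩
    have hZ : Z r f v = 1 := by
      unfold Z
      refine Finset.prod_eq_one (fun j _ => ?_)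
      rw [hd, hd2]
      have : (2 - (2 : ZMod 3).val) = 0 := by decide
      rw [this, mul_zero, pow_zero]
    rw [hZ]
    simp
  · obtain ⟨x, hx⟩ := CubeRank.UG_rep hG hv hc
    obtain ⟨hPt, hAz⟩ := hFDX ((n : ℤ) * q) (cell (pc q r) (pc 1 f) (fun i => zf (v i))) x hB
      hx.ne hx.sum (by
        rw [Fin.prod_univ_three, cell_prod]
        exact AA_eq hNF q) hx.cop
    rw [← Z_eq q r f v h0] at hPt hAz
    have hsupp : ∀ l : ℕ, l.Prime → (l : ℤ) ∣ (Z r f v : ℤ) → l ∣ n := by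
      intro l hl hlZ
      rw [Int.natCast_dvd_natCast, Z, hl.prime.dvd_finset_prod_iff] at hlZ
      obtain ⟨j, -, hj⟩ := hlZ
      exact (hl.dvd_of_dvd_pow hj).trans (r_dvd hNF j)
    obtain ⟨g, u, y, hu, hy, hg⟩ := hgen _ ((hE _ hsupp).2 hAz)
    refine ⟨g, u, y, hu, hy, hg, ?_⟩
    by_cases hex : ∃ i, ¬ 3 ∣ g i
    · generalize (Z r f v : ℤ) = z at *
      set W : ℤ := ∏ i, b i ^ g i with hW
      obtain ⟨c0, hc0, h1⟩ := hPt.eq
      have hPt' : Pt ((n : ℤ) * q) (∏ i, b i ^ g i)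
          (u * y * (cell (pc q r) (pc 1 f) (fun i => zf (v i)) 0 * x 0)) (y ^ 2 * x 1) := by
        refine ⟨mul_ne_zero (mul_ne_zero hu hy) hPt.hX, mul_ne_zero (pow_ne_zero 2 hy) hPt.hY,
          c0 * u ^ 2, mul_ne_zero hc0 (pow_ne_zero 2 hu), ?_⟩
        rw [← hW]
        generalize cell (pc q r) (pc 1 f) (fun i => zf (v i)) 0 * x 0 = X1 at *
        generalize x 1 = Y1 at *
        have e1 : W * ((u * y * X1) ^ 3 + W * (y ^ 2 * Y1) ^ 3) =
            (W * y ^ 3) * (u ^ 3 * X1 ^ 3 + (W * y ^ 3) * Y1 ^ 3) := by ring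
        rw [e1, ← hg]
        have e2 : z * u ^ 3 * (u ^ 3 * X1 ^ 3 + z * u ^ 3 * Y1 ^ 3) =
            u ^ 6 * (z * (X1 ^ 3 + z * Y1 ^ 3)) := by ring
        rw [e2, h1]
        ring
      exact (hTEND s b P Q P' Q' ((n : ℤ) * q) hSys hB hA).2 g _ _ hex hPt'
    · push Not at hex
      intro j
      refine Finset.sum_eq_zero (fun i _ => ?_)
      rw [(ZMod.natCast_eq_zero_iff (g i) 3).2 (hex i), mul_zero]

end BKER

open _root_.Pool.Agent.PT.BKER in
/-- BKER: the rank is bounded by the dimension of the kernel of the matrix. -/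
theorem BKER_thm (hEADM : EADM) (hFDX : FDX) (hTEND : TEND) (hSPP : SPP) : BKER := by
  clear hSPP
  classical
  intro n k π p e r f w0 c s b P Q P' Q' q hNF hk hAdm hSys hgen hq hq2 hw hqn hex
  have hG : CubeRank.HypG (pc q r) (pc 1 f) := by
    refine CubeRank.hypG_of (fun i => ?_) (fun i => ?_) ?_ (fun i => ?_) ?_
    · refine Fin.cases ?_ (fun i => ?_) i
      · simpa [pc] using hq
      · simpa [pc] using hNF.rp i
    · refine Fin.cases ?_ (fun i => ?_) i
      · simpa [pc] using hq2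
      · simpa [pc] using hNF.r2 i
    · unfold pc
      rw [Fin.cons_injective_iff]
      refine ⟨?_, hNF.rinj⟩
      rintro ⟨i, hi⟩
      exact hqn (by rw [← hi]; exact r_dvd hNF i)
    · refine Fin.cases ?_ (fun i => ?_) i
      · left; simp [pc]
      · simpa [pc] using hNF.rf i
    · rcases hex with ⟨j, hj⟩ | h
      · exact ⟨j.succ, by simpa [pc] using hj⟩
      · exact ⟨0, by simpa [pc] using h⟩
  set M := Mat b P Q P' Q' ((n : ℤ) * q) with hMdef
  have H : ∀ v : {v // CubeRank.UG (pc q r) (pc 1 f) v},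
      ∃ (g : Fin s → ℕ) (u y : ℤ), u ≠ 0 ∧ y ≠ 0 ∧
        (Z r f (v.1 + fun _ => 2 - v.1 0) : ℤ) * u ^ 3 = (∏ i, b i ^ g i) * y ^ 3 ∧
        ∀ j, ∑ i, M j i * (g i : ZMod 3) = 0 := by
    intro v
    exact main hEADM hFDX hTEND hNF hAdm hSys hgen hq hq2 hw hqn hG
      (CubeRank.UG_add hG v.2 (CubeRank.UG_const _ _ _)) (by
        simp only [Pi.add_apply]; ring)
  choose g u y hu hy hZ hM using H
  let F : {v // CubeRank.UG (pc q r) (pc 1 f) v} → ZMod 3 × LinearMap.ker M.mulVecLin :=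
    fun v => (v.1 0, ⟨fun i => (g v i : ZMod 3), by
      rw [LinearMap.mem_ker]
      funext j
      exact hM v j⟩)
  have hF : Function.Injective F := by
    intro v v' hvv
    have h0 : v.1 0 = v'.1 0 := congrArg Prod.fst hvv
    have h1 : ∀ i, (g v i : ZMod 3) = g v' i := by
      intro i
      have h2 := congrArg (fun x => (x.2 : Fin s → ZMod 3) i) hvv
      exact h2
    obtain ⟨A, B, hA, hB, hAB⟩ := prod_cube b (fun i => (hAdm i).ne) (g v) (g v') h1
    have h3 := Z_inj (v := v.1 + fun _ => 2 - v.1 0) (v' := v'.1 + fun _ => 2 - v'.1 0)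
      hNF.rp hNF.rinj hNF.rf (by simp only [Pi.add_apply]; ring)
      (A := u v * A * y v') (B := u v' * B * y v)
      (mul_ne_zero (mul_ne_zero (hu v) hA) (hy v')) (mul_ne_zero (mul_ne_zero (hu v') hB) (hy v))
      (by
        have e1 := hZ v
        have e2 := hZ v'
        generalize (Z r f (v.1 + fun _ => 2 - v.1 0) : ℤ) = z1 at *
        generalize (Z r f (v'.1 + fun _ => 2 - v'.1 0) : ℤ) = z2 at *
        linear_combination (A ^ 3 * y v' ^ 3) * e1 - (B ^ 3 * y v ^ 3) * e2 +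
          (y v ^ 3 * y v' ^ 3) * hAB)
    apply Subtype.ext
    rw [h0] at h3
    exact add_right_cancel h3
  have hcard := Nat.card_le_card_of_injective F hF
  have hker : Module.finrank (ZMod 3) (LinearMap.ker M.mulVecLin) = s - M.rank := by
    have h1 := LinearMap.finrank_range_add_finrank_ker M.mulVecLin
    rw [Module.finrank_fintype_fun_eq_card, Fintype.card_fin] at h1
    have h2 : Module.finrank (ZMod 3) (LinearMap.range M.mulVecLin) = M.rank := rfl
    omega
  rw [Nat.card_prod, Nat.card_zmod,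
    Module.natCard_eq_pow_finrank (K := ZMod 3) (V := LinearMap.ker M.mulVecLin), Nat.card_zmod,
    hker] at hcard
  have hfin := CubeRank.gen_of_cardG (by omega) hG (s - M.rank) (by
    rw [pow_succ, mul_comm]
    exact hcard)
  rw [AA_eq hNF q] at hfin
  exact hfin

end Pool.Agent.PT

end

section

/-!
# ALTK: the number of alternating matrices with large kernel

Adding one row and one column to an alternating matrix `A` changes the dimension of the kernel by
`-1` if the new column is not in the image of `A`; in any case it increases at most by `1`.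
-/

namespace Pool.Agent.PT

namespace ALTK

/-- the entries -/
abbrev F3 : Type := ZMod 3

instance : Fact (Nat.Prime 3) := ⟨Nat.prime_three⟩

variable {s : ℕ}

theorem alt_skew (v : Fin s → Fin s → ZMod 3) (i j : Fin s) : alt v i j = - alt v j i := by
  unfold alt
  rcases lt_trichotomy i j with h | h | h
  · simp [h, h.not_gt]
  · subst h
    simp
  · simp [h, h.not_gt]

/-- the smaller matrix -/
def res (v : Fin (s + 1) → Fin (s + 1) → ZMod 3) : Fin s → Fin s → ZMod 3 :=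
  fun j i => v j.succ i.succ

/-- the new row -/
def row (v : Fin (s + 1) → Fin (s + 1) → ZMod 3) : Fin s → ZMod 3 := fun i => v 0 i.succ

theorem alt_succ (v : Fin (s + 1) → Fin (s + 1) → ZMod 3) (j i : Fin s) :
    alt v j.succ i.succ = alt (res v) j i := by
  unfold alt res
  simp only [Fin.succ_lt_succ_iff]

theorem alt_zero_succ (v : Fin (s + 1) → Fin (s + 1) → ZMod 3) (i : Fin s) :
    alt v 0 i.succ = row v i := by
  unfold alt row
  simp

theorem alt_succ_zero (v : Fin (s + 1) → Fin (s + 1) → ZMod 3) (i : Fin s) :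
    alt v i.succ 0 = - row v i := by
  rw [alt_skew, alt_zero_succ]

/-- the matrix without its first row -/
def BB (v : Fin (s + 1) → Fin (s + 1) → ZMod 3) : Matrix (Fin s) (Fin (s + 1)) (ZMod 3) :=
  fun j i => alt v j.succ i

theorem range_A_le (v : Fin (s + 1) → Fin (s + 1) → ZMod 3) :
    LinearMap.range (alt (res v)).mulVecLin ≤ LinearMap.range (BB v).mulVecLin := by
  rintro _ ⟨x, rfl⟩
  refine ⟨Fin.cons 0 x, ?_⟩
  ext j
  simp only [Matrix.mulVecLin_apply, Matrix.mulVec, dotProduct, Fin.sum_univ_succ, Fin.cons_zero,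
    Fin.cons_succ, mul_zero, zero_add, BB, alt_succ]

theorem row_mem (v : Fin (s + 1) → Fin (s + 1) → ZMod 3) :
    row v ∈ LinearMap.range (BB v).mulVecLin := by
  refine ⟨Fin.cons (-1) 0, ?_⟩
  ext j
  simp only [Matrix.mulVecLin_apply, Matrix.mulVec, dotProduct, Fin.sum_univ_succ, Fin.cons_zero,
    Fin.cons_succ, BB, alt_succ_zero, Pi.zero_apply, mul_zero, Finset.sum_const_zero, add_zero]
  ring

theorem range_B_le (v : Fin (s + 1) → Fin (s + 1) → ZMod 3) :
    LinearMap.range (BB v).transpose.mulVecLin ≤ LinearMap.range (alt v).transpose.mulVecLin := by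
  rintro _ ⟨x, rfl⟩
  refine ⟨Fin.cons 0 x, ?_⟩
  ext j
  simp only [Matrix.mulVecLin_apply, Matrix.mulVec, dotProduct, Fin.sum_univ_succ, Fin.cons_zero,
    Fin.cons_succ, mul_zero, zero_add, BB, Matrix.transpose_apply]

theorem first_mem (v : Fin (s + 1) → Fin (s + 1) → ZMod 3) :
    alt v 0 ∈ LinearMap.range (alt v).transpose.mulVecLin := by
  refine ⟨Pi.single 0 1, ?_⟩
  ext j
  simp

theorem first_not_mem (v : Fin (s + 1) → Fin (s + 1) → ZMod 3)
    (h : row v ∉ LinearMap.range (alt (res v)).mulVecLin) :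
    alt v 0 ∉ LinearMap.range (BB v).transpose.mulVecLin := by
  rintro ⟨y, hy⟩
  apply h
  refine ⟨-y, ?_⟩
  ext i
  have h1 := congrFun hy i.succ
  rw [alt_zero_succ] at h1
  rw [← h1]
  simp only [Matrix.mulVecLin_apply, Matrix.mulVec, dotProduct, Matrix.transpose_apply, BB,
    alt_succ, Pi.neg_apply]
  refine Finset.sum_congr rfl fun j _ => ?_
  rw [alt_skew (res v) i j]
  ring

theorem rank_le (v : Fin (s + 1) → Fin (s + 1) → ZMod 3) :
    (alt (res v)).rank ≤ (alt v).rank := by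
  have h1 : (alt (res v)).rank ≤ (BB v).rank := Submodule.finrank_mono (range_A_le v)
  have h2 : (BB v).transpose.rank ≤ (alt v).transpose.rank := Submodule.finrank_mono (range_B_le v)
  rw [Matrix.rank_transpose, Matrix.rank_transpose] at h2
  exact h1.trans h2

theorem rank_lt (v : Fin (s + 1) → Fin (s + 1) → ZMod 3)
    (h : row v ∉ LinearMap.range (alt (res v)).mulVecLin) :
    (alt (res v)).rank + 2 ≤ (alt v).rank := by
  have h1 : (alt (res v)).rank < (BB v).rank := by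
    refine Submodule.finrank_lt_finrank_of_lt (lt_of_le_of_ne (range_A_le v) ?_)
    intro h2
    exact h (h2 ▸ row_mem v)
  have h2 : (BB v).transpose.rank < (alt v).transpose.rank := by
    refine Submodule.finrank_lt_finrank_of_lt (lt_of_le_of_ne (range_B_le v) ?_)
    intro h2
    exact first_not_mem v h (h2 ▸ first_mem v)
  rw [Matrix.rank_transpose, Matrix.rank_transpose] at h2
  omega

theorem card_range (A : Matrix (Fin s) (Fin s) (ZMod 3)) :
    Nat.card {c : Fin s → ZMod 3 // c ∈ LinearMap.range A.mulVecLin} = 3 ^ A.rank := by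
  have h1 := Module.natCard_eq_pow_finrank (K := ZMod 3) (V := LinearMap.range A.mulVecLin)
  rw [Nat.card_zmod] at h1
  exact h1

/-- the number of matrices with large kernel -/
noncomputable def N (s t : ℕ) : ℕ :=
  Nat.card {v : Fin s → Fin s → ZMod 3 // t ≤ s - (alt v).rank}

/-- the number of all matrices -/
theorem card_all (s : ℕ) : Nat.card (Fin s → Fin s → ZMod 3) = 3 ^ (s * s) := by
  rw [Nat.card_fun, Nat.card_fun, Nat.card_zmod, Nat.card_fin, pow_mul]

theorem rank_le_s (A : Matrix (Fin s) (Fin s) (ZMod 3)) : A.rank ≤ s := by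
  have h1 := A.rank_le_card_width
  rwa [Fintype.card_fin] at h1

theorem step (s t : ℕ) : N (s + 1) (t + 1) ≤
    3 ^ (s + 1) * (N s (t + 2) * 3 ^ s + N s t * 3 ^ (s - t)) := by
  classical
  let T1 : Type := {v : Fin s → Fin s → ZMod 3 // t + 2 ≤ s - (alt v).rank} × (Fin s → ZMod 3)
  let T2 : Type := Σ v : {v : Fin s → Fin s → ZMod 3 // t ≤ s - (alt v).rank},
    {c : Fin s → ZMod 3 // c ∈ LinearMap.range (alt v.1).mulVecLin}
  have key : ∀ v : {v : Fin (s + 1) → Fin (s + 1) → ZMod 3 // t + 1 ≤ s + 1 - (alt v).rank},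
      ¬ (t + 2 ≤ s - (alt (res v.1)).rank) → t ≤ s - (alt (res v.1)).rank ∧
        row v.1 ∈ LinearMap.range (alt (res v.1)).mulVecLin := by
    intro v hv
    have h0 := v.2
    have h1 := rank_le v.1
    refine ⟨by omega, ?_⟩
    by_contra h2
    have h3 := rank_lt v.1 h2
    have h4 := rank_le_s (alt v.1)
    omega
  let f : {v : Fin (s + 1) → Fin (s + 1) → ZMod 3 // t + 1 ≤ s + 1 - (alt v).rank} →
      (ZMod 3 × (Fin s → ZMod 3)) × (T1 ⊕ T2) := fun v =>
    ((v.1 0 0, fun j => v.1 j.succ 0), if h : t + 2 ≤ s - (alt (res v.1)).rank then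
      Sum.inl (⟨res v.1, h⟩, row v.1) else
      Sum.inr ⟨⟨res v.1, (key v h).1⟩, ⟨row v.1, (key v h).2⟩⟩)
  have hf : Function.Injective f := by
    intro v v' h
    have h1 := congrArg Prod.fst h
    have h2 := congrArg Prod.snd h
    have h00 : v.1 0 0 = v'.1 0 0 := congrArg Prod.fst h1
    have h10 : ∀ j : Fin s, v.1 j.succ 0 = v'.1 j.succ 0 := fun j =>
      congrFun (congrArg Prod.snd h1) j
    have h3 : res v.1 = res v'.1 ∧ row v.1 = row v'.1 := by
      simp only [f] at h2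
      by_cases ha : t + 2 ≤ s - (alt (res v.1)).rank
      · rw [dif_pos ha] at h2
        by_cases hb : t + 2 ≤ s - (alt (res v'.1)).rank
        · rw [dif_pos hb] at h2
          have h4 := Sum.inl_injective h2
          exact ⟨congrArg (fun z : T1 => z.1.1) h4, congrArg (fun z : T1 => z.2) h4⟩
        · rw [dif_neg hb] at h2
          cases h2
      · rw [dif_neg ha] at h2
        by_cases hb : t + 2 ≤ s - (alt (res v'.1)).rank
        · rw [dif_pos hb] at h2
          cases h2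
        · rw [dif_neg hb] at h2
          have h4 := Sum.inr_injective h2
          exact ⟨congrArg (fun z : T2 => z.1.1) h4, congrArg (fun z : T2 => z.2.1) h4⟩
    apply Subtype.ext
    funext j i
    refine Fin.cases ?_ (fun j => ?_) j
    · refine Fin.cases h00 (fun i => ?_) i
      exact congrFun h3.2 i
    · refine Fin.cases (h10 j) (fun i => ?_) i
      exact congrFun (congrFun h3.1 j) i
  have h1 := Nat.card_le_card_of_injective f hf
  have hT1 : Nat.card T1 = N s (t + 2) * 3 ^ s := by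
    simp only [T1, Nat.card_prod, Nat.card_fun, Nat.card_zmod, Nat.card_fin]
    rfl
  have hT2 : Nat.card T2 ≤ N s t * 3 ^ (s - t) := by
    simp only [T2]
    rw [Nat.card_sigma]
    have h2 : ∀ v : {v : Fin s → Fin s → ZMod 3 // t ≤ s - (alt v).rank},
        Nat.card {c : Fin s → ZMod 3 // c ∈ LinearMap.range (alt v.1).mulVecLin} ≤ 3 ^ (s - t) := by
      intro v
      rw [card_range]
      have h3 := v.2
      have h4 := rank_le_s (alt v.1)
      exact Nat.pow_le_pow_right (by norm_num) (by omega)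
    refine (Finset.sum_le_sum fun v _ => h2 v).trans ?_
    rw [Finset.sum_const, smul_eq_mul, Finset.card_univ, ← Nat.card_eq_fintype_card]
    exact le_of_eq rfl
  have h2 : Nat.card ((ZMod 3 × (Fin s → ZMod 3)) × (T1 ⊕ T2)) =
      3 ^ (s + 1) * (Nat.card T1 + Nat.card T2) := by
    have : Finite T1 := by
      simp only [T1]
      infer_instance
    have : Finite T2 := by
      simp only [T2]
      infer_instance
    rw [Nat.card_prod, Nat.card_prod, Nat.card_sum, Nat.card_fun, Nat.card_zmod, Nat.card_fin,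
      pow_succ]
    ring
  rw [h2] at h1
  refine h1.trans (Nat.mul_le_mul_left _ ?_)
  rw [hT1]
  exact Nat.add_le_add_left hT2 _

theorem half (t : ℕ) : (t + 1) * t / 2 = t * (t - 1) / 2 + t := by
  rcases Nat.eq_zero_or_pos t with h | h
  · subst h
    rfl
  · obtain ⟨u, rfl⟩ : ∃ u, t = u + 1 := ⟨t - 1, by omega⟩
    have h1 : (u + 1 + 1) * (u + 1) = (u + 1) * u + (u + 1) * 2 := by ring
    rw [h1, Nat.add_mul_div_right _ _ (by norm_num)]
    rfl

theorem main (s : ℕ) : ∀ t : ℕ, 3 ^ (t * (t - 1) / 2 + t) * N s t + 3 ^ (s * s) ≤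
    2 * 3 ^ t * 3 ^ (s * s) := by
  induction s with
  | zero =>
    intro t
    rcases Nat.eq_zero_or_pos t with h | h
    · subst h
      have h1 : N 0 0 ≤ 1 := by
        unfold N
        rw [Finite.card_le_one_iff_subsingleton]
        infer_instance
      simp
      omega
    · have h1 : N 0 t = 0 := by
        unfold N
        rw [Finite.card_eq_zero_iff]
        refine ⟨fun v => ?_⟩
        have := v.2
        omega
      rw [h1, mul_zero, zero_add]
      have h2 : 1 ≤ 3 ^ t := Nat.one_le_pow _ _ (by norm_num)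
      nlinarith [Nat.one_le_pow (0 * 0) 3 (by norm_num)]
  | succ s ih =>
    intro t
    rcases Nat.eq_zero_or_pos t with h | h
    · subst h
      have h1 : N (s + 1) 0 ≤ 3 ^ ((s + 1) * (s + 1)) := by
        rw [← card_all]
        exact Finite.card_subtype_le _
      simp
      omega
    · obtain ⟨t, rfl⟩ : ∃ u, t = u + 1 := ⟨t - 1, by omega⟩
      have h1 := step s t
      have h2 := ih t
      have h3 := ih (t + 2)
      have e1 : (t + 1) * (t + 1 - 1) / 2 = t * (t - 1) / 2 + t := half t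
      have e2 : (t + 2) * (t + 2 - 1) / 2 = t * (t - 1) / 2 + t + (t + 1) := by
        have h4 := half (t + 1)
        have h5 : (t + 2) * (t + 2 - 1) / 2 = (t + 1 + 1) * (t + 1) / 2 := rfl
        rw [h5, h4, e1]
      set E := t * (t - 1) / 2 with hE
      set T := 3 ^ (s * s) with hT
      have hT1 : 3 ^ ((s + 1) * (s + 1)) = 3 ^ (s + 1) * 3 ^ s * T := by
        rw [hT, ← pow_add, ← pow_add]
        congr 1
        ring
      rw [e1, hT1]
      -- the first term
      have h4 : 3 ^ (E + t + (t + 1)) * N s (t + 2) ≤ 2 * T := by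
        have h5 : 3 ^ (t + 2) * (3 ^ (E + t + (t + 1)) * N s (t + 2)) ≤ 3 ^ (t + 2) * (2 * T) := by
          rw [e2, pow_add _ _ (t + 2)] at h3
          nlinarith
        exact Nat.le_of_mul_le_mul_left h5 (by positivity)
      rcases Nat.lt_or_ge s t with hst | hst
      · have h5 : N s t = 0 := by
          unfold N
          rw [Finite.card_eq_zero_iff]
          refine ⟨fun v => ?_⟩
          have := v.2
          omega
        have h6 : N s (t + 2) = 0 := by
          unfold N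
          rw [Finite.card_eq_zero_iff]
          refine ⟨fun v => ?_⟩
          have := v.2
          omega
        have h7 : N (s + 1) (t + 1) = 0 := by
          rw [h5, h6] at h1
          simpa using h1
        rw [h7, mul_zero, zero_add]
        have h8 : 1 ≤ 3 ^ (t + 1) := Nat.one_le_pow _ _ (by norm_num)
        calc 3 ^ (s + 1) * 3 ^ s * T = 1 * (3 ^ (s + 1) * 3 ^ s * T) := by ring
          _ ≤ 2 * 3 ^ (t + 1) * (3 ^ (s + 1) * 3 ^ s * T) := Nat.mul_le_mul_right _ (by omega)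
      · have h5 : 3 ^ (t + 1) * 3 ^ (s - t) = 3 * 3 ^ s := by
          rw [← pow_add, ← pow_succ']
          congr 1
          omega
        have h6 : 3 ^ (E + t + (t + 1)) * N (s + 1) (t + 1) ≤
            3 ^ (s + 1) * 3 ^ s * (2 * T + 3 * (3 ^ (E + t) * N s t)) := by
          calc 3 ^ (E + t + (t + 1)) * N (s + 1) (t + 1)
              ≤ 3 ^ (E + t + (t + 1)) *
                (3 ^ (s + 1) * (N s (t + 2) * 3 ^ s + N s t * 3 ^ (s - t))) :=
                Nat.mul_le_mul_left _ h1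
            _ = 3 ^ (s + 1) * 3 ^ s * (3 ^ (E + t + (t + 1)) * N s (t + 2)) +
                3 ^ (s + 1) * 3 ^ (E + t) * N s t * (3 ^ (t + 1) * 3 ^ (s - t)) := by
                rw [pow_add 3 (E + t) (t + 1)]
                ring
            _ ≤ 3 ^ (s + 1) * 3 ^ s * (2 * T) +
                3 ^ (s + 1) * 3 ^ (E + t) * N s t * (3 ^ (t + 1) * 3 ^ (s - t)) :=
                Nat.add_le_add_right (Nat.mul_le_mul_left _ h4) _
            _ = 3 ^ (s + 1) * 3 ^ s * (2 * T + 3 * (3 ^ (E + t) * N s t)) := by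
                rw [h5]
                ring
        calc 3 ^ (E + t + (t + 1)) * N (s + 1) (t + 1) + 3 ^ (s + 1) * 3 ^ s * T
            ≤ 3 ^ (s + 1) * 3 ^ s * (2 * T + 3 * (3 ^ (E + t) * N s t)) +
              3 ^ (s + 1) * 3 ^ s * T := Nat.add_le_add_right h6 _
          _ = 3 ^ (s + 1) * 3 ^ s * (3 * (3 ^ (E + t) * N s t + T)) := by ring
          _ ≤ 3 ^ (s + 1) * 3 ^ s * (3 * (2 * 3 ^ t * T)) :=
              Nat.mul_le_mul_left _ (Nat.mul_le_mul_left _ h2)
          _ = 2 * 3 ^ (t + 1) * (3 ^ (s + 1) * 3 ^ s * T) := by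
              rw [pow_succ 3 t]
              ring

end ALTK

theorem ALTK_thm : ALTK := by
  intro s t
  have h1 := ALTK.main s t
  rw [ALTK.card_all]
  have h2 : 3 ^ t * (3 ^ (t * (t - 1) / 2) * ALTK.N s t) ≤ 3 ^ t * (2 * 3 ^ (s * s)) := by
    rw [pow_add] at h1
    calc 3 ^ t * (3 ^ (t * (t - 1) / 2) * ALTK.N s t)
        = 3 ^ (t * (t - 1) / 2) * 3 ^ t * ALTK.N s t := by ring
      _ ≤ 2 * 3 ^ t * 3 ^ (s * s) := (Nat.le_add_right _ _).trans h1
      _ = 3 ^ t * (2 * 3 ^ (s * s)) := by ring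
  exact Nat.le_of_mul_le_mul_left h2 (by positivity)

end Pool.Agent.PT

end

section

/-!
# Prime power twists: averages over skew-symmetric matrices over `F_3`
-/

set_option autoImplicit false

open Finset

namespace Pool.Agent.PTL

open Pool.Agent.PT

namespace AL

instance : Fact (Nat.Prime 3) := ⟨Nat.prime_three⟩

variable {s : ℕ}

/-- the corank -/
noncomputable def cr (v : Fin s → Fin s → ZMod 3) : ℕ := s - (alt v).rank

open Classical in
/-- matrices and skew-symmetric matrices -/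
noncomputable def eqv (s : ℕ) : (Fin s → Fin s → ZMod 3) ≃
    {M : Matrix (Fin s) (Fin s) (ZMod 3) // M.transpose = -M} ×
      ({x : Fin s × Fin s // ¬ x.1 < x.2} → ZMod 3) where
  toFun v := (⟨alt v, SING.alt_transpose v⟩, fun x => v x.1.1 x.1.2)
  invFun z := fun j i => if h : j < i then z.1.1 j i else z.2 ⟨(j, i), h⟩
  left_inv v := by
    funext j i
    by_cases h : j < i
    · simp [h, alt]
    · simp [h]
  right_inv z := by
    obtain ⟨⟨M, hM⟩, u⟩ := z
    have hsk : ∀ j i, M j i = - M i j := fun j i => by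
      have h1 := congrFun (congrFun hM i) j
      rw [Matrix.transpose_apply, Matrix.neg_apply] at h1
      exact h1
    have hd : ∀ j, M j j = 0 := fun j => by
      have h1 := hsk j j
      revert h1
      generalize M j j = d
      revert d
      decide
    refine Prod.ext (Subtype.ext ?_) ?_
    · ext j i
      change alt (fun j i => if h : j < i then M j i else u ⟨(j, i), h⟩) j i = M j i
      unfold alt
      rcases lt_trichotomy j i with h | h | h
      · simp [h]
      · subst h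
        simp [hd]
      · simp [h, not_lt_of_gt h, hsk j i]
    · funext x
      show (if h : x.1.1 < x.1.2 then M x.1.1 x.1.2 else u ⟨(x.1.1, x.1.2), h⟩) = u x
      rw [dif_neg x.2]

/-- the average over all arrays -/
theorem Esk_eq (s : ℕ) (F : ℕ → ℝ) :
    Esk s F = (∑ v : Fin s → Fin s → ZMod 3, F (cr v)) /
      Nat.card (Fin s → Fin s → ZMod 3) := by
  classical
  have : Fintype {M : Matrix (Fin s) (Fin s) (ZMod 3) // M.transpose = -M} :=
    Fintype.ofFinite _
  unfold Esk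
  rw [finsum_eq_sum_of_fintype, Nat.card_congr (eqv s), Nat.card_prod]
  have h1 : (∑ v : Fin s → Fin s → ZMod 3, F (cr v)) =
      Nat.card ({x : Fin s × Fin s // ¬ x.1 < x.2} → ZMod 3) *
        ∑ M : {M : Matrix (Fin s) (Fin s) (ZMod 3) // M.transpose = -M}, F (s - M.1.rank) := by
    rw [← (eqv s).symm.sum_comp, Fintype.sum_prod_type, Finset.mul_sum]
    refine Finset.sum_congr rfl fun M _ => ?_
    have h2 : ∀ u : {x : Fin s × Fin s // ¬ x.1 < x.2} → ZMod 3,
        F (cr ((eqv s).symm (M, u))) = F (s - M.1.rank) := by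
      intro u
      have h3 : alt ((eqv s).symm (M, u)) = M.1 := by
        have h4 := congrArg (fun z => z.1.1) ((eqv s).apply_symm_apply (M, u))
        exact h4
      unfold cr
      rw [h3]
    rw [Finset.sum_congr rfl fun u _ => h2 u, Finset.sum_const, nsmul_eq_mul, Finset.card_univ,
      ← Nat.card_eq_fintype_card]
  rw [h1, Nat.cast_mul, mul_comm ((Nat.card {M : Matrix (Fin s) (Fin s) (ZMod 3) //
    M.transpose = -M} : ℕ) : ℝ)]
  have h4 : (Nat.card ({x : Fin s × Fin s // ¬ x.1 < x.2} → ZMod 3) : ℝ) ≠ 0 :=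
    Nat.cast_ne_zero.2 Nat.card_pos.ne'
  rw [mul_div_mul_left _ _ h4]

theorem rank_le_s (A : Matrix (Fin s) (Fin s) (ZMod 3)) : A.rank ≤ s := ALTK.rank_le_s A

/-- the number of the vectors in the kernel -/
theorem card_ker (v : Fin s → Fin s → ZMod 3) :
    Nat.card {x : Fin s → ZMod 3 // (alt v).mulVec x = 0} = 3 ^ cr v := by
  have hker : Module.finrank (ZMod 3) (LinearMap.ker (alt v).mulVecLin) = cr v := by
    have h1 := LinearMap.finrank_range_add_finrank_ker (alt v).mulVecLin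
    rw [Module.finrank_fintype_fun_eq_card, Fintype.card_fin] at h1
    have h2 : Module.finrank (ZMod 3) (LinearMap.range (alt v).mulVecLin) = (alt v).rank := rfl
    unfold cr
    omega
  have h1 := Module.natCard_eq_pow_finrank (K := ZMod 3)
    (V := LinearMap.ker (alt v).mulVecLin)
  rw [Nat.card_zmod, hker] at h1
  exact h1

/-- the average of `3 ^ c` -/
theorem moment (s : ℕ) : (∑ v : Fin s → Fin s → ZMod 3, (3 : ℝ) ^ cr v) ≤
    (4 - 3 / 3 ^ s) * Nat.card (Fin s → Fin s → ZMod 3) := by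
  classical
  have hN : (Nat.card (Fin s → Fin s → ZMod 3) : ℝ) =
      Fintype.card (Fin s → Fin s → ZMod 3) := by rw [Nat.card_eq_fintype_card]
  have h1 : (∑ v : Fin s → Fin s → ZMod 3, (3 : ℝ) ^ cr v) =
      ∑ x : Fin s → ZMod 3,
        (Fintype.card {v : Fin s → Fin s → ZMod 3 // (alt v).mulVec x = 0} : ℝ) := by
    have h2 : ∀ v : Fin s → Fin s → ZMod 3, (3 : ℝ) ^ cr v =
        ∑ x : Fin s → ZMod 3, if (alt v).mulVec x = 0 then (1 : ℝ) else 0 := by
      intro v
      have h3 := card_ker v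
      rw [Nat.card_eq_fintype_card, Fintype.card_subtype] at h3
      rw [Finset.sum_ite, Finset.sum_const_zero, add_zero, Finset.sum_const, nsmul_eq_mul,
        mul_one, h3]
      push_cast
      rfl
    have h4 : ∀ x : Fin s → ZMod 3,
        (Fintype.card {v : Fin s → Fin s → ZMod 3 // (alt v).mulVec x = 0} : ℝ) =
        ∑ v : Fin s → Fin s → ZMod 3, if (alt v).mulVec x = 0 then (1 : ℝ) else 0 := by
      intro x
      rw [Finset.sum_ite, Finset.sum_const_zero, add_zero, Finset.sum_const, nsmul_eq_mul,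
        mul_one, Fintype.card_subtype]
    rw [Finset.sum_congr rfl fun v _ => h2 v, Finset.sum_congr rfl fun x _ => h4 x,
      Finset.sum_comm]
  rw [h1, ← Finset.add_sum_erase _ _ (Finset.mem_univ (0 : Fin s → ZMod 3))]
  have h5 : (Fintype.card {v : Fin s → Fin s → ZMod 3 // (alt v).mulVec 0 = 0} : ℝ) ≤
      Nat.card (Fin s → Fin s → ZMod 3) := by
    rw [hN]
    exact_mod_cast Fintype.card_subtype_le _
  have h6 : ∀ x ∈ (Finset.univ : Finset (Fin s → ZMod 3)).erase 0,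
      (Fintype.card {v : Fin s → Fin s → ZMod 3 // (alt v).mulVec x = 0} : ℝ) ≤
        3 / 3 ^ s * Nat.card (Fin s → Fin s → ZMod 3) := by
    intro x hx
    have h7 := SING.card_ker x (Finset.ne_of_mem_erase hx)
    have h8 : (3 : ℝ) ^ s *
        Fintype.card {v : Fin s → Fin s → ZMod 3 // (alt v).mulVec x = 0} ≤
        3 * Fintype.card (Fin s → Fin s → ZMod 3) := by exact_mod_cast h7
    rw [hN, div_mul_eq_mul_div, le_div_iff₀ (by positivity)]
    linarith
  have h9 := Finset.sum_le_sum h6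
  rw [Finset.sum_const, nsmul_eq_mul, Finset.card_erase_of_mem (Finset.mem_univ _),
    Finset.card_univ, Fintype.card_fun, ZMod.card, Fintype.card_fin] at h9
  have h10 : ((3 ^ s - 1 : ℕ) : ℝ) = 3 ^ s - 1 := by
    rw [Nat.cast_sub (Nat.one_le_pow _ _ (by norm_num))]
    push_cast
    rfl
  rw [h10] at h9
  have h11 : ((3 : ℝ) ^ s - 1) * (3 / 3 ^ s * Nat.card (Fin s → Fin s → ZMod 3)) =
      (3 - 3 / 3 ^ s) * Nat.card (Fin s → Fin s → ZMod 3) := by
    have h12 : (3 : ℝ) ^ s ≠ 0 := by positivity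
    field_simp
  rw [h11] at h9
  linarith

/-- the rank of a skew-symmetric matrix is even -/
theorem even_rank (A : Matrix (Fin s) (Fin s) (ZMod 3)) (hA : A.transpose = -A) :
    Even A.rank := by
  classical
  obtain ⟨U, hU⟩ := Submodule.exists_isCompl (LinearMap.ker A.mulVecLin)
  have hr : Module.finrank (ZMod 3) U = A.rank := by
    have h1 := LinearMap.finrank_range_add_finrank_ker A.mulVecLin
    have h2 := Submodule.finrank_add_eq_of_isCompl hU
    have h3 : Module.finrank (ZMod 3) (LinearMap.range A.mulVecLin) = A.rank := rfl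
    omega
  rw [← hr]
  set r := Module.finrank (ZMod 3) U with hrdef
  let B : Module.Basis (Fin r) (ZMod 3) U := Module.finBasis (ZMod 3) U
  have hsk : ∀ x y : Fin s → ZMod 3, x ⬝ᵥ A.mulVec y = - (y ⬝ᵥ A.mulVec x) := by
    intro x y
    rw [Matrix.dotProduct_mulVec, ← Matrix.mulVec_transpose, hA, Matrix.neg_mulVec,
      neg_dotProduct, dotProduct_comm]
  let G : Matrix (Fin r) (Fin r) (ZMod 3) := fun i j =>
    (B i : Fin s → ZMod 3) ⬝ᵥ A.mulVec (B j)
  have hG : G.transpose = -G := by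
    ext i j
    rw [Matrix.transpose_apply, Matrix.neg_apply]
    exact hsk _ _
  by_contra hodd
  rw [Nat.not_even_iff_odd] at hodd
  have hdet := SING.odd_det hodd G hG
  obtain ⟨x, hx0, hx⟩ := Matrix.exists_mulVec_eq_zero_iff.2 hdet
  obtain ⟨w, hw⟩ : ∃ w : U, w = ∑ j, x j • B j := ⟨_, rfl⟩
  have hAw : ∀ u : Fin s → ZMod 3, u ⬝ᵥ A.mulVec (w : Fin s → ZMod 3) = 0 := by
    have hB : ∀ i, (B i : Fin s → ZMod 3) ⬝ᵥ A.mulVec (w : Fin s → ZMod 3) = 0 := by
      intro i
      have h1 := congrFun hx i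
      have h2 : A.mulVec (w : Fin s → ZMod 3) = ∑ j, x j • A.mulVec (B j : Fin s → ZMod 3) := by
        rw [hw, Submodule.coe_sum, ← Matrix.mulVecLin_apply, map_sum]
        refine Finset.sum_congr rfl fun j _ => ?_
        rw [Submodule.coe_smul, map_smul, Matrix.mulVecLin_apply]
      rw [h2, dotProduct_sum]
      refine Eq.trans ?_ (h1 : (G.mulVec x) i = 0)
      unfold Matrix.mulVec dotProduct
      refine Finset.sum_congr rfl fun j _ => ?_
      simp only [G, Matrix.mulVec, dotProduct, Pi.smul_apply, smul_eq_mul, Finset.sum_mul]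
      refine Finset.sum_congr rfl fun a _ => ?_
      ring
    intro u
    have hu : u ∈ LinearMap.ker A.mulVecLin ⊔ U := by
      rw [hU.sup_eq_top]
      exact Submodule.mem_top
    obtain ⟨k, hk, y, hy, rfl⟩ := Submodule.mem_sup.1 hu
    rw [add_dotProduct]
    have h1 : k ⬝ᵥ A.mulVec (w : Fin s → ZMod 3) = 0 := by
      rw [hsk]
      have h2 : A.mulVec k = 0 := hk
      rw [h2, dotProduct_zero, neg_zero]
    have h2 : y ⬝ᵥ A.mulVec (w : Fin s → ZMod 3) = 0 := by
      have h3 := congrArg (Subtype.val : U → Fin s → ZMod 3) (B.sum_repr ⟨y, hy⟩)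
      rw [Submodule.coe_sum] at h3
      have h4 : y = ∑ j, (B.repr ⟨y, hy⟩ j) • (B j : Fin s → ZMod 3) := h3.symm
      rw [h4, sum_dotProduct]
      refine Finset.sum_eq_zero fun j _ => ?_
      rw [smul_dotProduct, hB, smul_zero]
    rw [h1, h2, add_zero]
  have hker : (w : Fin s → ZMod 3) ∈ LinearMap.ker A.mulVecLin := by
    rw [LinearMap.mem_ker, Matrix.mulVecLin_apply]
    funext i
    have h1 := hAw (Pi.single i 1)
    rw [single_one_dotProduct] at h1
    exact h1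
  have hw0 : (w : Fin s → ZMod 3) = 0 := by
    have h1 : (w : Fin s → ZMod 3) ∈ LinearMap.ker A.mulVecLin ⊓ U := ⟨hker, w.2⟩
    rw [hU.inf_eq_bot] at h1
    exact (Submodule.mem_bot _).1 h1
  have hw1 : ∑ j, x j • B j = 0 := by
    rw [← hw]
    exact Subtype.ext hw0
  exact hx0 (funext fun j => Fintype.linearIndependent_iff.1 B.linearIndependent x hw1 j)

theorem cr_parity (v : Fin s → Fin s → ZMod 3) : cr v % 2 = s % 2 := by
  have h1 := even_rank (alt v) (SING.alt_transpose v)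
  have h2 := rank_le_s (alt v)
  obtain ⟨a, ha⟩ := h1
  unfold cr
  omega

theorem Esk_le (s : ℕ) (F : ℕ → ℝ) (α β : ℝ) (hα : 0 ≤ α)
    (h : ∀ c : ℕ, c % 2 = s % 2 → F c ≤ α * 3 ^ c + β) :
    Esk s F ≤ α * (4 - 3 / 3 ^ s) + β := by
  rw [Esk_eq]
  have hN : (0 : ℝ) < Nat.card (Fin s → Fin s → ZMod 3) := Nat.cast_pos.2 Nat.card_pos
  rw [div_le_iff₀ hN]
  have h1 : (∑ v : Fin s → Fin s → ZMod 3, F (cr v)) ≤
      ∑ v : Fin s → Fin s → ZMod 3, (α * 3 ^ cr v + β) :=
    Finset.sum_le_sum fun v _ => h _ (cr_parity v)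
  rw [Finset.sum_add_distrib, ← Finset.mul_sum, Finset.sum_const, nsmul_eq_mul,
    Finset.card_univ, ← Nat.card_eq_fintype_card] at h1
  have h2 := mul_le_mul_of_nonneg_left (moment s) hα
  linarith

theorem pos3 (s : ℕ) : (0 : ℝ) < 3 / 3 ^ s := by positivity

theorem pow_even {c : ℕ} (hc : c ≠ 1) : 4 * c + 1 ≤ 3 ^ c := by
  rcases Nat.lt_or_ge c 2 with h | h
  · have : c = 0 := by omega
    subst this
    norm_num
  · induction c, h using Nat.le_induction with
    | base => norm_num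
    | succ c hc ih =>
      have := ih (by omega)
      rw [pow_succ]
      omega

theorem pow_odd {c : ℕ} (hc : c % 2 = 1) : 12 * c ≤ 3 ^ c + 9 := by
  rcases Nat.lt_or_ge c 3 with h | h
  · have : c = 1 := by omega
    subst this
    norm_num
  · clear hc
    induction c, h using Nat.le_induction with
    | base => norm_num
    | succ c hc ih =>
      rw [pow_succ]
      omega

/-- the average of the corank -/
theorem Esk_id (s : ℕ) : Esk s (fun c => (c : ℝ)) ≤ if Even s then 3 / 4 else 13 / 12 := by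
  have h3 := pos3 s
  by_cases hs : Even s
  · rw [if_pos hs]
    have h1 := Esk_le s (fun c => (c : ℝ)) (1 / 4) (-(1 / 4)) (by norm_num) fun c hc => by
      have h2 := pow_even (c := c) (by
        rintro rfl
        rw [Nat.even_iff] at hs
        omega)
      have h4 : (4 * c + 1 : ℝ) ≤ 3 ^ c := by exact_mod_cast h2
      linarith
    linarith
  · rw [if_neg hs]
    rw [Nat.not_even_iff] at hs
    have h1 := Esk_le s (fun c => (c : ℝ)) (1 / 12) (3 / 4) (by norm_num) fun c hc => by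
      have h2 := pow_odd (c := c) (by omega)
      have h4 : (12 * c : ℝ) ≤ 3 ^ c + 9 := by exact_mod_cast h2
      linarith
    linarith

/-- the average of `3 ^ c` -/
theorem Esk_pow (s : ℕ) : Esk s (fun c => (3 : ℝ) ^ c) ≤ 4 - 3 / 3 ^ s := by
  have h1 := Esk_le s (fun c => (3 : ℝ) ^ c) 1 0 (by norm_num) fun c hc => by simp
  linarith

/-- the proportion of the singular matrices of even size -/
theorem Esk_pos {s : ℕ} (hs : Even s) : Esk s (fun c => if 1 ≤ c then 1 else 0) ≤ 3 / 8 := by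
  have h3 := pos3 s
  rw [Nat.even_iff] at hs
  have h1 := Esk_le s (fun c => if 1 ≤ c then 1 else 0) (1 / 8) (-(1 / 8)) (by norm_num)
    fun c hc => by
      show (if 1 ≤ c then (1 : ℝ) else 0) ≤ _
      by_cases h0 : c = 0
      · subst h0
        norm_num
      · rw [if_pos (by omega)]
        have h2 : 3 ^ 2 ≤ 3 ^ c := Nat.pow_le_pow_right (by norm_num) (by omega)
        have h4 : (3 ^ 2 : ℝ) ≤ 3 ^ c := by exact_mod_cast h2
        linarith
  linarith

/-- the proportion of the matrices of odd size with large kernel -/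
theorem Esk_two {s : ℕ} (hs : Odd s) : Esk s (fun c => if 2 ≤ c then 1 else 0) ≤ 1 / 24 := by
  have h3 := pos3 s
  rw [Nat.odd_iff] at hs
  have h1 := Esk_le s (fun c => if 2 ≤ c then 1 else 0) (1 / 24) (-(1 / 8)) (by norm_num)
    fun c hc => by
      show (if 2 ≤ c then (1 : ℝ) else 0) ≤ _
      by_cases h0 : c = 1
      · subst h0
        norm_num
      · rw [if_pos (by omega)]
        have h2 : 3 ^ 3 ≤ 3 ^ c := Nat.pow_le_pow_right (by norm_num) (by omega)
        have h4 : (3 ^ 3 : ℝ) ≤ 3 ^ c := by exact_mod_cast h2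
        linarith
  linarith

/-- summation by parts -/
theorem Esk_sum (s : ℕ) (F : ℕ → ℝ) : Esk s F = F 0 +
    ∑ t ∈ Finset.range s, (F (t + 1) - F t) *
      ((Nat.card {v : Fin s → Fin s → ZMod 3 // t + 1 ≤ s - (alt v).rank} : ℝ) /
        Nat.card (Fin s → Fin s → ZMod 3)) := by
  classical
  rw [Esk_eq]
  have hN : (Nat.card (Fin s → Fin s → ZMod 3) : ℝ) ≠ 0 := Nat.cast_ne_zero.2 Nat.card_pos.ne'
  have key : ∀ v : Fin s → Fin s → ZMod 3, F (cr v) = F 0 +
      ∑ t ∈ Finset.range s, (F (t + 1) - F t) * (if t + 1 ≤ cr v then 1 else 0) := by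
    intro v
    have h1 : cr v ≤ s := Nat.sub_le _ _
    have h2 : ∀ t, (F (t + 1) - F t) * (if t + 1 ≤ cr v then (1 : ℝ) else 0) =
        if t < cr v then F (t + 1) - F t else 0 := by
      intro t
      by_cases h : t < cr v
      · rw [if_pos h, if_pos (show t + 1 ≤ cr v from h), mul_one]
      · rw [if_neg h, if_neg (show ¬ t + 1 ≤ cr v from h), mul_zero]
    rw [Finset.sum_congr rfl fun t _ => h2 t, ← Finset.sum_filter]
    have h3 : (Finset.range s).filter (fun t => t < cr v) = Finset.range (cr v) := by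
      ext t
      simp only [Finset.mem_filter, Finset.mem_range]
      omega
    rw [h3, Finset.sum_range_sub]
    ring
  rw [Finset.sum_congr rfl fun v _ => key v, Finset.sum_add_distrib, Finset.sum_const,
    nsmul_eq_mul, Finset.card_univ, ← Nat.card_eq_fintype_card, Finset.sum_comm, add_div,
    mul_div_cancel_left₀ _ hN, Finset.sum_div]
  congr 1
  refine Finset.sum_congr rfl fun t _ => ?_
  rw [← Finset.mul_sum, mul_div_assoc]
  congr 2
  rw [Nat.card_eq_fintype_card, Fintype.card_subtype, Finset.sum_ite, Finset.sum_const_zero,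
    add_zero, Finset.sum_const, nsmul_eq_mul, mul_one]
  rfl

end AL

end Pool.Agent.PTL

end
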