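import Mathlib
import Pool.Agent.PTWX.C16

/-! Parts: PT.EHYP, PT.TADD, PTE.HYPS, PT3.HYP0, PT3.HYPT, PT3.HYPU, PT3.SVAD -/

namespace Pool.Agent.PT.EHYP
end Pool.Agent.PT.EHYP

namespace Pool.Agent.PT.TADD
end Pool.Agent.PT.TADD

namespace Pool.Agent.PTE.HYPS
end Pool.Agent.PTE.HYPS

namespace Pool.Agent.PT3.HYP0
end Pool.Agent.PT3.HYP0

namespace Pool.Agent.PT3.HYPT
end Pool.Agent.PT3.HYPT

namespace Pool.Agent.PT3.HYPU
end Pool.Agent.PT3.HYPU

namespace Pool.Agent.PT3.SVAD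
end Pool.Agent.PT3.SVAD

section

/-!
# EHYP: the minus part of the Selmer group is trivial
-/

namespace Pool.Agent.PT

open Pool.Agent.Lib_helper18 Pool.Agent.Lib_helper18.Eis Pool.Agent.Lib_helper84.Cub

namespace EHYP

theorem up_eq {π a c : Eis} {k : ℕ} (hπ : Prime π) (hc : ¬ π ∣ c) (ha : a = π ^ k * c) :
    V π a = k ∧ up π a = c := by
  have h1 : V π a = k := by rw [ha]; exact V_pow_mul hπ k hc
  refine ⟨h1, ?_⟩
  unfold up
  rw [h1, ha]
  exact mul_div_cancel_left₀ c (pow_ne_zero _ hπ.ne_zero)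

theorem up_spec {π a : Eis} (hπ : Prime π) (ha : a ≠ 0) :
    a = π ^ V π a * up π a ∧ ¬ π ∣ up π a := by
  obtain ⟨c, hc, hd⟩ := V_split hπ ha
  have h1 := (up_eq hπ hd hc).2
  rw [h1]
  exact ⟨hc, hd⟩

theorem ch_mul {π a b : Eis} (hπ : Prime π) (h3 : ¬ π ∣ 3) (ha : a ≠ 0) (hb : b ≠ 0) :
    ch π (a * b) = ch π a + ch π b := by
  obtain ⟨h1, h2⟩ := up_spec hπ ha
  obtain ⟨h3', h4⟩ := up_spec hπ hb
  have h5 : a * b = π ^ (V π a + V π b) * (up π a * up π b) := by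
    conv_lhs => rw [h1, h3']
    ring
  have h6 : ¬ π ∣ up π a * up π b := fun h => (hπ.dvd_or_dvd h).elim h2 h4
  have h7 := (up_eq hπ h6 h5).2
  unfold ch
  rw [h7, sym_mul hπ h3 h2 h4]

theorem ch_of_not_dvd {π a : Eis} (hπ : Prime π) (ha : ¬ π ∣ a) : ch π a = sym π a := by
  unfold ch
  rw [(up_eq (k := 0) hπ ha (by simp : a = π ^ 0 * a)).2]

theorem ch_self {π : Eis} (hπ : Prime π) (h3 : ¬ π ∣ 3) : ch π π = 0 := by
  unfold ch
  rw [(up_eq (k := 1) hπ (not_dvd_of_isUnit hπ isUnit_one) (by simp : π = π ^ 1 * 1)).2]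
  exact sym_one hπ h3

theorem V_conj {π a : Eis} (hπ : Prime π) (ha : a ≠ 0) : V (conj π) (conj a) = V π a := by
  obtain ⟨c, hc, hd⟩ := V_split hπ ha
  obtain ⟨k, hk⟩ : ∃ k, k = V π a := ⟨_, rfl⟩
  rw [← hk] at hc ⊢
  rw [hc, map_mul, map_pow]
  exact V_pow_mul (prime_conj hπ) k (fun h => hd (conj_dvd_iff.1 h))

theorem V_assoc {l m a : Eis} (h : Associated l m) : V l a = V m a :=
  multiplicity_eq_of_associated_left h.symm

theorem V_self_assoc {l m : Eis} (hl : Prime l) (h : Associated l m) : V l m = 1 := by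
  obtain ⟨u, hu⟩ := h
  rw [← hu]
  have := V_pow_mul hl 1 (not_dvd_of_isUnit hl u.isUnit)
  rwa [pow_one] at this

theorem V_ne {l m : Eis} (hl : Prime l) (hm : Prime m) (h : ¬ Associated l m) : V l m = 0 :=
  V_eq_zero fun h' => h (hl.associated_of_dvd hm h')

theorem V_prod {l : Eis} (hl : Prime l) {ι : Type} (s : Finset ι) (f : ι → Eis)
    (hf : ∀ i ∈ s, f i ≠ 0) : V l (∏ i ∈ s, f i) = ∑ i ∈ s, V l (f i) := by
  classical
  induction s using Finset.induction_on with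
  | empty =>
    rw [Finset.prod_empty, Finset.sum_empty]
    exact V_eq_zero (not_dvd_of_isUnit hl isUnit_one)
  | insert i s hi ih =>
    have h1 : ∀ j ∈ s, f j ≠ 0 := fun j hj => hf j (Finset.mem_insert_of_mem hj)
    rw [Finset.prod_insert hi, Finset.sum_insert hi,
      V_mul hl (hf i (Finset.mem_insert_self i s)) (Finset.prod_ne_zero_iff.2 h1), ih h1]

/-- A number all of whose valuations are divisible by `3` is a unit times a cube. -/
theorem cube_of_V : ∀ (n : ℕ) (z : Eis), z ≠ 0 → N z ≤ n → (∀ l, Prime l → 3 ∣ V l z) →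
    ∃ u g : Eis, IsUnit u ∧ g ≠ 0 ∧ z = u * g ^ 3 := by
  intro n
  induction n with
  | zero =>
    intro z hz hn
    have := N_pos hz
    omega
  | succ n ih =>
    intro z hz hn hV
    by_cases hu : IsUnit z
    · exact ⟨z, 1, hu, one_ne_zero, by ring⟩
    obtain ⟨l, hl', hlz⟩ := WfDvdMonoid.exists_irreducible_factor hu hz
    have hl : Prime l := hl'.prime
    have h1 : V l z ≠ 0 := fun h => (V_eq_zero_iff.1 h) hlz
    have h2 : 3 ≤ V l z := Nat.le_of_dvd (Nat.pos_of_ne_zero h1) (hV l hl)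
    obtain ⟨c, hc, -⟩ := V_split hl hz
    obtain ⟨z', hz'⟩ : ∃ z', z = l ^ 3 * z' := by
      have h3 : l ^ 3 ∣ z := by
        rw [hc]
        have h4 : V l (l ^ V l z * c) = V l z := by rw [← hc]
        exact (pow_dvd_pow l h2).trans (dvd_mul_right _ _)
      exact h3
    have hz'0 : z' ≠ 0 := by
      rintro rfl
      exact hz (by rw [hz', mul_zero])
    have hl3 : l ^ 3 ≠ 0 := pow_ne_zero _ hl.ne_zero
    have hN : N z' < N z := by
      rw [hz', N_mul]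
      have h5 : 1 < N (l ^ 3) := by
        have h6 := N_prime hl
        have h7 : N (l ^ 3) = N l * N l * N l := by
          rw [pow_succ, pow_succ, pow_one, N_mul, N_mul]
        rw [h7]
        nlinarith
      have h6 := N_pos hz'0
      nlinarith
    obtain ⟨u, g, hu', hg, h⟩ := ih z' hz'0 (by omega) fun m hm => by
      have h5 := hV m hm
      rw [hz', V_mul hm hl3 hz'0, V_pow hm hl.ne_zero] at h5
      exact (Nat.dvd_add_right (dvd_mul_right 3 _)).1 h5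
    exact ⟨u, l * g, hu', mul_ne_zero hl.ne_zero hg, by rw [hz', h]; ring⟩

/-- additive functions with values in `ZMod 3` -/
def Add3 (F : Eis → ZMod 3) : Prop := ∀ a b, a ≠ 0 → b ≠ 0 → F (a * b) = F a + F b

theorem Add3.one {F : Eis → ZMod 3} (hF : Add3 F) : F 1 = 0 := by
  have := hF 1 1 one_ne_zero one_ne_zero
  rw [mul_one] at this
  exact left_eq_add.1 this

theorem three_zero (a : ZMod 3) : 3 * a = 0 := by
  have : (3 : ZMod 3) = 0 := rfl
  rw [this, zero_mul]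

theorem Add3.neg_one {F : Eis → ZMod 3} (hF : Add3 F) : F (-1) = 0 := by
  have h1 := hF (-1) (-1) (by simp) (by simp)
  have h2 : (-1 : Eis) * (-1) = 1 := by ring
  rw [h2, hF.one] at h1
  have h3 := three_zero (F (-1))
  linear_combination h3 + h1

theorem Add3.pow {F : Eis → ZMod 3} (hF : Add3 F) {a : Eis} (ha : a ≠ 0) (k : ℕ) :
    F (a ^ k) = k * F a := by
  induction k with
  | zero => rw [pow_zero, hF.one]; simp
  | succ k ih =>
    rw [pow_succ, hF _ _ (pow_ne_zero _ ha) ha, ih]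
    push_cast
    ring

theorem Add3.prod {F : Eis → ZMod 3} (hF : Add3 F) {ι : Type} (s : Finset ι) (f : ι → Eis)
    (hf : ∀ i ∈ s, f i ≠ 0) : F (∏ i ∈ s, f i) = ∑ i ∈ s, F (f i) := by
  classical
  induction s using Finset.induction_on with
  | empty => rw [Finset.prod_empty, Finset.sum_empty, hF.one]
  | insert i s hi ih =>
    have h1 : ∀ j ∈ s, f j ≠ 0 := fun j hj => hf j (Finset.mem_insert_of_mem hj)
    rw [Finset.prod_insert hi, Finset.sum_insert hi,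
      hF _ _ (hf i (Finset.mem_insert_self i s)) (Finset.prod_ne_zero_iff.2 h1), ih h1]

theorem w_ne : w ≠ 0 := isUnit_w.ne_zero

theorem Add3.unit {F : Eis → ZMod 3} (hF : Add3 F) {u : Eis} {a : ℕ}
    (h : u = w ^ a ∨ u = -w ^ a) : F u = a * F w := by
  rcases h with rfl | rfl
  · exact hF.pow w_ne a
  · have h1 : -w ^ a = -1 * w ^ a := by ring
    rw [h1, hF _ _ (by simp) (pow_ne_zero _ w_ne), hF.neg_one, zero_add]
    exact hF.pow w_ne a

theorem add3_ch {π : Eis} (hπ : Prime π) (h3 : ¬ π ∣ 3) : Add3 (ch π) :=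
  fun _ _ ha hb => ch_mul hπ h3 ha hb

theorem add3_tm (hSTM : STM) {π B : Eis} (hπ : Prime π) (h3 : ¬ π ∣ 3) (hB : B ≠ 0) :
    Add3 fun z => tm π z B :=
  fun _ _ ha hb => (hSTM π hπ h3).mul _ _ _ ha hb hB

theorem add3_sl (hSSL : SSL) {B : Eis} (hB : B ≠ 0) : Add3 fun z => sl z B :=
  fun _ _ ha hb => hSSL.1 _ _ _ ha hb hB

theorem inert (hSPP : SPP) {s : ℕ} (hs : s.Prime) (hs2 : s % 3 = 2) :
    Prime (s : Eis) ∧ ¬ (s : Eis) ∣ 3 := by
  obtain ⟨π, hπ⟩ := hSPP.2.2.2.2.1 s hs hs2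
  rw [← hπ]
  exact ⟨π.2.1, (hSPP.2.2.2.1 π).1⟩

theorem self_conj {l z t : Eis} (hl : Prime l) (h : Associated (conj l) l) (hz : z ≠ 0)
    (hzt : z * conj z = t ^ 3) : 3 ∣ V l z := by
  have hcz : conj z ≠ 0 := by
    intro h0
    apply hz
    have := congrArg conj h0
    rwa [conj_conj, map_zero] at this
  have ht : t ≠ 0 := by
    rintro rfl
    rw [zero_pow (by norm_num)] at hzt
    exact (mul_ne_zero hz hcz) hzt
  have h1 : V l (conj z) = V l z := by
    rw [← V_assoc h]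
    exact V_conj hl hz
  have h2 := congrArg (V l) hzt
  rw [V_mul hl hz hcz, V_pow hl ht, h1] at h2
  omega

theorem conj_lam : Associated (conj lam) lam := by
  have h1 : Prime (conj lam) := prime_conj prime_lam
  refine (dvd_three_iff h1).1 ?_
  have h2 := conj_dvd lam_dvd_three
  have h3 : conj (3 : Eis) = 3 := conj_natCast 3
  rwa [h3] at h2

section

variable {n m k : ℕ} {π : Fin m → PP} {p e : Fin m → ℕ} {r f : Fin k → ℕ}

theorem norm_eq (h : NF n π p e r f) (i : Fin m) : (π i).1.norm = p i := by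
  have h1 := h.pπ i
  rw [mul_conj] at h1
  have h2 := congrArg Eis.re h1
  simp only [natCast_re, intCast_re] at h2
  exact h2.symm

theorem not_assoc (h : NF n π p e r f) (i j : Fin m) : ¬ Associated (π i).1 (conj (π j).1) := by
  intro h1
  have h2 : (π i).1.norm = (conj (π j).1).norm := by
    obtain ⟨u, hu⟩ := h1
    rw [← hu, norm_mul, isUnit_iff_norm.mp u.isUnit, mul_one]
  rw [norm_conj, norm_eq h, norm_eq h] at h2
  have h3 : i = j := h.pinj (by exact_mod_cast h2)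
  subst h3
  have : Fact (p i).Prime := ⟨h.pp i⟩
  exact not_dvd_conj (h.p1 i) (norm_eq h i) h1.dvd

theorem assoc_iff (h : NF n π p e r f) (i j : Fin m) (h1 : Associated (π i).1 (π j).1) : i = j := by
  have h2 : (π i).1.norm = (π j).1.norm := by
    obtain ⟨u, hu⟩ := h1
    rw [← hu, norm_mul, isUnit_iff_norm.mp u.isUnit, mul_one]
  rw [norm_eq h, norm_eq h] at h2
  exact h.pinj (by exact_mod_cast h2)

theorem V_self_i (h : NF n π p e r f) (i j : Fin m) : V (π i).1 (π j).1 = if j = i then 1 else 0 := by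
  split_ifs with hij
  · rw [hij]; exact V_self
  · exact V_ne (π i).2.1 (π j).2.1 fun h1 => hij (assoc_iff h i j h1).symm

theorem V_conj_i (h : NF n π p e r f) (i j : Fin m) : V (π i).1 (conj (π j).1) = 0 :=
  V_ne (π i).2.1 (prime_conj (π j).2.1) (not_assoc h i j)

theorem assoc_conj {l m : Eis} (h : Associated l m) : Associated (conj l) (conj m) := by
  obtain ⟨u, rfl⟩ := h
  rw [map_mul]
  exact ⟨(u.isUnit.map conj).unit, rfl⟩

theorem V_conj_self (h : NF n π p e r f) (i j : Fin m) : V (conj (π i).1) (π j).1 = 0 :=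
  V_ne (prime_conj (π i).2.1) (π j).2.1 fun h1 => not_assoc h i j (by
    have := assoc_conj h1
    rwa [conj_conj] at this)

theorem V_conj_conj (h : NF n π p e r f) (i j : Fin m) :
    V (conj (π i).1) (conj (π j).1) = if j = i then 1 else 0 := by
  rw [V_conj (π i).2.1 (π j).2.1.ne_zero]
  exact V_self_i h i j

/-- primes dividing `B` -/
theorem dvd_B (hSPP : SPP) (h : NF n π p e r f) {q : ℕ} (hq : q.Prime) (hq2 : q % 3 = 2) {l : Eis}
    (hl : Prime l) (hd : l ∣ (((n : ℤ) * q : ℤ) : Eis)) :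
    (∃ i, Associated l (π i).1 ∨ Associated l (conj (π i).1)) ∨
      ∃ s : ℕ, s.Prime ∧ s % 3 = 2 ∧ Associated l (s : Eis) := by
  have h1 : (((n : ℤ) * q : ℤ) : Eis) = (n : Eis) * (q : Eis) := by push_cast; rfl
  rw [h1, h.eq] at hd
  push_cast at hd
  rcases hl.dvd_or_dvd hd with hd | hd
  · rcases hl.dvd_or_dvd hd with hd | hd
    · obtain ⟨i, -, hi⟩ := hl.exists_mem_finset_dvd hd
      have h2 := hl.dvd_of_dvd_pow hi
      rw [h.pπ i] at h2
      left
      refine ⟨i, ?_⟩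
      rcases hl.dvd_or_dvd h2 with h3 | h3
      · exact Or.inl (hl.associated_of_dvd (π i).2.1 h3)
      · exact Or.inr (hl.associated_of_dvd (prime_conj (π i).2.1) h3)
    · obtain ⟨j, -, hj⟩ := hl.exists_mem_finset_dvd hd
      have h2 := hl.dvd_of_dvd_pow hj
      exact Or.inr ⟨r j, h.rp j, h.r2 j, hl.associated_of_dvd (inert hSPP (h.rp j) (h.r2 j)).1 h2⟩
  · exact Or.inr ⟨q, hq, hq2, hl.associated_of_dvd (inert hSPP hq hq2).1 hd⟩

/-- the correcting factor -/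
noncomputable def fac (π : Fin m → PP) (z : Eis) : Eis :=
  ∏ i, ((π i).1 ^ (2 * V (π i).1 z) * conj (π i).1 ^ (2 * V (conj (π i).1) z))

theorem fac_ne (z : Eis) : fac π z ≠ 0 :=
  Finset.prod_ne_zero_iff.2 fun i _ => mul_ne_zero (pow_ne_zero _ (π i).2.1.ne_zero)
    (pow_ne_zero _ (prime_conj (π i).2.1).ne_zero)

theorem V_fac {l : Eis} (hl : Prime l) (z : Eis) : V l (fac π z) =
    ∑ i, (2 * V (π i).1 z * V l (π i).1 + 2 * V (conj (π i).1) z * V l (conj (π i).1)) := by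
  unfold fac
  rw [V_prod hl _ _ fun i _ => mul_ne_zero (pow_ne_zero _ (π i).2.1.ne_zero)
    (pow_ne_zero _ (prime_conj (π i).2.1).ne_zero)]
  refine Finset.sum_congr rfl fun i _ => ?_
  rw [V_mul hl (pow_ne_zero _ (π i).2.1.ne_zero) (pow_ne_zero _ (prime_conj (π i).2.1).ne_zero),
    V_pow hl (π i).2.1.ne_zero, V_pow hl (prime_conj (π i).2.1).ne_zero]

theorem V_sum (hSPP : SPP) (h : NF n π p e r f) {q : ℕ} (hq : q.Prime) (hq2 : q % 3 = 2)
    {z t : Eis} (hz : z ≠ 0) (hzt : z * conj z = t ^ 3)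
    (hun : ∀ π : PP, ¬ π.1 ∣ (((n : ℤ) * q : ℤ) : Eis) → 3 ∣ V π.1 z) {l : Eis} (hl : Prime l) :
    3 ∣ V l (z * fac π z) := by
  rw [V_mul hl hz (fac_ne z), V_fac hl]
  by_cases h1 : ∃ i, Associated l (π i).1
  · obtain ⟨j, hj⟩ := h1
    rw [V_assoc hj]
    have h2 : ∀ i, 2 * V (π i).1 z * V l (π i).1 + 2 * V (conj (π i).1) z * V l (conj (π i).1) =
        if i = j then 2 * V (π j).1 z else 0 := by
      intro i
      rw [V_assoc hj, V_self_i h j i, V_assoc hj, V_conj_i h j i]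
      split_ifs with hij
      · rw [hij]; ring
      · ring
    rw [Finset.sum_congr rfl fun i _ => h2 i, Finset.sum_ite_eq' Finset.univ j]
    simp only [Finset.mem_univ, if_true]
    omega
  by_cases h1' : ∃ i, Associated l (conj (π i).1)
  · obtain ⟨j, hj⟩ := h1'
    rw [V_assoc hj]
    have h2 : ∀ i, 2 * V (π i).1 z * V l (π i).1 + 2 * V (conj (π i).1) z * V l (conj (π i).1) =
        if i = j then 2 * V (conj (π j).1) z else 0 := by
      intro i
      rw [V_assoc hj, V_conj_self h j i, V_assoc hj, V_conj_conj h j i]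
      split_ifs with hij
      · rw [hij]; ring
      · ring
    rw [Finset.sum_congr rfl fun i _ => h2 i, Finset.sum_ite_eq' Finset.univ j]
    simp only [Finset.mem_univ, if_true]
    omega
  have h2 : ∀ i, 2 * V (π i).1 z * V l (π i).1 + 2 * V (conj (π i).1) z * V l (conj (π i).1) =
      0 := by
    intro i
    rw [V_ne hl (π i).2.1 fun h3 => h1 ⟨i, h3⟩,
      V_ne hl (prime_conj (π i).2.1) fun h3 => h1' ⟨i, h3⟩]
    ring
  rw [Finset.sum_congr rfl fun i _ => h2 i, Finset.sum_const_zero, add_zero]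
  by_cases h3 : l ∣ 3
  · have h4 := (dvd_three_iff hl).1 h3
    rw [V_assoc h4]
    exact self_conj prime_lam conj_lam hz hzt
  obtain ⟨l', hl'⟩ := hSPP.1 l hl h3
  by_cases h4 : l'.1 ∣ (((n : ℤ) * q : ℤ) : Eis)
  · rcases dvd_B hSPP h hq hq2 hl (hl'.dvd.trans h4) with ⟨i, h5 | h5⟩ | ⟨s, hs, hs2, h5⟩
    · exact absurd ⟨i, h5⟩ h1
    · exact absurd ⟨i, h5⟩ h1'
    · rw [V_assoc h5]
      refine self_conj (inert hSPP hs hs2).1 ?_ hz hzt
      rw [conj_natCast]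
  · rw [V_assoc hl']
    exact hun l' h4

end

section

variable {n m k : ℕ} {π : Fin m → PP} {p e : Fin m → ℕ} {r f : Fin k → ℕ}

theorem conj_ne {z : Eis} (hz : z ≠ 0) : conj z ≠ 0 := by
  intro h0
  apply hz
  have := congrArg conj h0
  rwa [conj_conj, map_zero] at this

theorem V_add_conj {l z t : Eis} (hl : Prime l) (hz : z ≠ 0) (hzt : z * conj z = t ^ 3) :
    3 ∣ V l z + V (conj l) z := by
  have hcz := conj_ne hz
  have ht : t ≠ 0 := by
    rintro rfl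
    rw [zero_pow (by norm_num)] at hzt
    exact (mul_ne_zero hz hcz) hzt
  have h1 : V l (conj z) = V (conj l) z := by
    have := V_conj (prime_conj hl) hz
    rwa [conj_conj] at this
  have h2 := congrArg (V l) hzt
  rw [V_mul hl hz hcz, V_pow hl ht, h1] at h2
  omega

theorem F_fac {F : Eis → ZMod 3} (hF : Add3 F) {z t : Eis} (hz : z ≠ 0)
    (hzt : z * conj z = t ^ 3) : F (fac π z) =
      -∑ i, (V (π i).1 z : ZMod 3) * (F (π i).1 - F (conj (π i).1)) := by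
  unfold fac
  rw [hF.prod _ _ fun i _ => mul_ne_zero (pow_ne_zero _ (π i).2.1.ne_zero)
    (pow_ne_zero _ (prime_conj (π i).2.1).ne_zero), ← Finset.sum_neg_distrib]
  refine Finset.sum_congr rfl fun i _ => ?_
  rw [hF _ _ (pow_ne_zero _ (π i).2.1.ne_zero) (pow_ne_zero _ (prime_conj (π i).2.1).ne_zero),
    hF.pow (π i).2.1.ne_zero, hF.pow (prime_conj (π i).2.1).ne_zero]
  have h1 := V_add_conj (π i).2.1 hz hzt
  have h2 : ((V (π i).1 z + V (conj (π i).1) z : ℕ) : ZMod 3) = 0 :=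
    (ZMod.natCast_eq_zero_iff _ 3).2 h1
  push_cast at h2 ⊢
  have h3 := three_zero ((V (π i).1 z : ZMod 3) * F (π i).1)
  have h4 := three_zero ((V (π i).1 z : ZMod 3) * F (conj (π i).1))
  linear_combination h3 + 2 * F (conj (π i).1) * h2 - h4

/-- the value of additive functions at `z`; `z` is a cube if all coordinates vanish -/
theorem decomp (hSPP : SPP) (h : NF n π p e r f) {q : ℕ} (hq : q.Prime) (hq2 : q % 3 = 2)
    {z t : Eis} (hz : z ≠ 0) (hzt : z * conj z = t ^ 3)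
    (hun : ∀ π : PP, ¬ π.1 ∣ (((n : ℤ) * q : ℤ) : Eis) → 3 ∣ V π.1 z) :
    ∃ a : ℕ, (∀ F : Eis → ZMod 3, Add3 F → F z =
      a * F w + ∑ i, (V (π i).1 z : ZMod 3) * (F (π i).1 - F (conj (π i).1))) ∧
      ((a : ZMod 3) = 0 → (∀ i, (V (π i).1 z : ZMod 3) = 0) → ∃ γ, z = γ ^ 3) := by
  obtain ⟨u, g, hu, hg, hug⟩ := cube_of_V _ (z * fac π z) (mul_ne_zero hz (fac_ne z)) le_rfl
    fun l hl => V_sum hSPP h hq hq2 hz hzt hun hl
  obtain ⟨a, -, ha⟩ := unit_cases hu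
  refine ⟨a, fun F hF => ?_, fun ha0 hv => ?_⟩
  · have h1 := congrArg F hug
    rw [hF _ _ hz (fac_ne z), hF _ _ hu.ne_zero (pow_ne_zero _ hg), hF.pow hg, hF.unit ha,
      F_fac hF hz hzt] at h1
    have h2 := three_zero (F g)
    push_cast at h1
    linear_combination h1 + h2
  · have h1 : ∀ i, 3 ∣ V (π i).1 z := fun i => (ZMod.natCast_eq_zero_iff _ 3).1 (hv i)
    have h2 : ∀ i, 3 ∣ V (conj (π i).1) z := fun i =>
      (Nat.dvd_add_right (h1 i)).1 (V_add_conj (π i).2.1 hz hzt)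
    have h3 : 3 ∣ a := (ZMod.natCast_eq_zero_iff _ 3).1 ha0
    obtain ⟨b, rfl⟩ := h3
    have hw : w ^ (3 * b) = 1 := by rw [pow_mul, w_cube, one_pow]
    rw [hw] at ha
    obtain ⟨u', hu'⟩ : ∃ u' : Eis, u = u' ^ 3 := by
      rcases ha with rfl | rfl
      · exact ⟨1, by ring⟩
      · exact ⟨-1, by ring⟩
    obtain ⟨d, hd0, hd⟩ : ∃ d : Eis, d ≠ 0 ∧ fac π z = d ^ 3 := by
      refine ⟨∏ i, ((π i).1 ^ (2 * (V (π i).1 z / 3)) *
        conj (π i).1 ^ (2 * (V (conj (π i).1) z / 3))), ?_, ?_⟩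
      · exact Finset.prod_ne_zero_iff.2 fun i _ => mul_ne_zero (pow_ne_zero _ (π i).2.1.ne_zero)
          (pow_ne_zero _ (prime_conj (π i).2.1).ne_zero)
      · unfold fac
        rw [← Finset.prod_pow]
        refine Finset.prod_congr rfl fun i _ => ?_
        rw [mul_pow, ← pow_mul, ← pow_mul]
        congr 2
        · have := h1 i
          omega
        · have := h2 i
          omega
    rw [hd, hu'] at hug
    have h4 : d ^ 3 ∣ (u' * g) ^ 3 := ⟨z, by rw [mul_pow, ← hug]; ring⟩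
    obtain ⟨c, hc⟩ := (IsIntegrallyClosed.pow_dvd_pow_iff (by norm_num : (3 : ℕ) ≠ 0)).1 h4
    refine ⟨c, ?_⟩
    have h5 : z * d ^ 3 = c ^ 3 * d ^ 3 := by
      rw [hug, ← mul_pow, hc]
      ring
    exact mul_right_cancel₀ (pow_ne_zero _ hd0) h5

end

section

variable {n m k : ℕ} {π : Fin m → PP} {p e : Fin m → ℕ} {r f : Fin k → ℕ}

theorem norm_assoc {l l' : Eis} (h : Associated l l') : l.norm = l'.norm := by
  obtain ⟨u, hu⟩ := h
  rw [← hu, norm_mul, isUnit_iff_norm.mp u.isUnit, mul_one]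

theorem not_sq {p s : ℕ} (hp : p.Prime) : (p : ℤ) ≠ (s : ℤ) ^ 2 := by
  intro h
  have h1 : p = s ^ 2 := by exact_mod_cast h
  rw [h1] at hp
  exact Nat.Prime.not_prime_pow le_rfl hp

theorem not_assoc_nat (h : NF n π p e r f) (i : Fin m) (s : ℕ) :
    ¬ Associated (π i).1 (s : Eis) := by
  intro h1
  have h2 := norm_assoc h1
  rw [norm_eq h, norm_natCast] at h2
  exact not_sq (h.pp i) h2

theorem not_assoc_nat' (h : NF n π p e r f) (i : Fin m) (s : ℕ) :
    ¬ Associated (conj (π i).1) (s : Eis) := by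
  intro h1
  have h2 := norm_assoc h1
  rw [norm_conj, norm_eq h, norm_natCast] at h2
  exact not_sq (h.pp i) h2

theorem V_nat_nat {s s' : ℕ} (hs : Prime (s : Eis)) (hs' : Prime (s' : Eis)) :
    V (s : Eis) (s' : Eis) = if s' = s then 1 else 0 := by
  split_ifs with h
  · rw [h]; exact V_self
  · refine V_ne hs hs' fun h1 => h ?_
    have h2 := norm_assoc h1
    rw [norm_natCast, norm_natCast] at h2
    have h3 : s ^ 2 = s' ^ 2 := by exact_mod_cast h2
    exact (Nat.pow_left_injective (by norm_num : (2 : ℕ) ≠ 0) h3).symm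

theorem V_n (hSPP : SPP) (h : NF n π p e r f) {l : Eis} (hl : Prime l) : V l (n : Eis) =
    ∑ i, e i * (V l (π i).1 + V l (conj (π i).1)) + ∑ j, f j * V l (r j : Eis) := by
  have hr : ∀ j, (r j : Eis) ≠ 0 := fun j => (inert hSPP (h.rp j) (h.r2 j)).1.ne_zero
  have hp : ∀ i, (p i : Eis) ≠ 0 := fun i => by
    rw [h.pπ i]
    exact mul_ne_zero (π i).2.1.ne_zero (prime_conj (π i).2.1).ne_zero
  conv_lhs => rw [h.eq]
  push_cast
  rw [V_mul hl (Finset.prod_ne_zero_iff.2 fun i _ => pow_ne_zero _ (hp i))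
    (Finset.prod_ne_zero_iff.2 fun j _ => pow_ne_zero _ (hr j)),
    V_prod hl _ _ fun i _ => pow_ne_zero _ (hp i), V_prod hl _ _ fun j _ => pow_ne_zero _ (hr j)]
  congr 1
  · refine Finset.sum_congr rfl fun i _ => ?_
    rw [V_pow hl (hp i), h.pπ i, V_mul hl (π i).2.1.ne_zero (prime_conj (π i).2.1).ne_zero]
  · refine Finset.sum_congr rfl fun j _ => ?_
    rw [V_pow hl (hr j)]

theorem V_n_i (hSPP : SPP) (h : NF n π p e r f) (i : Fin m) : V (π i).1 (n : Eis) = e i := by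
  rw [V_n hSPP h (π i).2.1]
  have h1 : ∀ i', e i' * (V (π i).1 (π i').1 + V (π i).1 (conj (π i').1)) =
      if i' = i then e i else 0 := by
    intro i'
    rw [V_self_i h, V_conj_i h]
    split_ifs with h2
    · rw [h2]; ring
    · ring
  have h2 : ∀ j, f j * V (π i).1 (r j : Eis) = 0 := by
    intro j
    rw [V_ne (π i).2.1 (inert hSPP (h.rp j) (h.r2 j)).1 (not_assoc_nat h i _), mul_zero]
  rw [Finset.sum_congr rfl fun i' _ => h1 i', Finset.sum_congr rfl fun j _ => h2 j,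
    Finset.sum_ite_eq' Finset.univ i]
  simp

theorem V_n_j (hSPP : SPP) (h : NF n π p e r f) (j : Fin k) : V (r j : Eis) (n : Eis) = f j := by
  have hj := (inert hSPP (h.rp j) (h.r2 j)).1
  rw [V_n hSPP h hj]
  have h1 : ∀ i', e i' * (V (r j : Eis) (π i').1 + V (r j : Eis) (conj (π i').1)) = 0 := by
    intro i'
    rw [V_ne hj (π i').2.1 fun h2 => not_assoc_nat h i' _ h2.symm,
      V_ne hj (prime_conj (π i').2.1) fun h2 => not_assoc_nat' h i' _ h2.symm]
    ring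
  have h2 : ∀ j', f j' * V (r j : Eis) (r j' : Eis) = if j' = j then f j else 0 := by
    intro j'
    rw [V_nat_nat hj (inert hSPP (h.rp j') (h.r2 j')).1]
    by_cases h3 : j' = j
    · rw [h3]; simp
    · rw [if_neg h3, if_neg fun h4 => h3 (h.rinj h4), mul_zero]
  rw [Finset.sum_congr rfl fun i' _ => h1 i', Finset.sum_congr rfl fun j _ => h2 j,
    Finset.sum_ite_eq' Finset.univ j]
  simp

theorem n_ne (h : NF n π p e r f) : n ≠ 0 := by
  rw [h.eq]
  exact mul_ne_zero (Finset.prod_ne_zero_iff.2 fun i _ => pow_ne_zero _ (h.pp i).ne_zero)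
    (Finset.prod_ne_zero_iff.2 fun j _ => pow_ne_zero _ (h.rp j).ne_zero)

theorem three_n (h : NF n π p e r f) : ¬ 3 ∣ n := by
  intro h3
  rw [h.eq] at h3
  rcases (Nat.prime_three.dvd_mul).1 h3 with h3 | h3
  · obtain ⟨i, -, hi⟩ := Nat.prime_three.prime.exists_mem_finset_dvd h3
    have h4 := Nat.prime_three.dvd_of_dvd_pow hi
    have h5 := h.p1 i
    omega
  · obtain ⟨j, -, hj⟩ := Nat.prime_three.prime.exists_mem_finset_dvd h3
    have h4 := Nat.prime_three.dvd_of_dvd_pow hj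
    have h5 := h.r2 j
    omega

end

end EHYP

open _root_.Pool.Agent.PT.EHYP in
theorem EHYP_thm (hSTM : STM) (hSPP : SPP) (hSSL : SSL) (hSREC : SREC) (_hSCJ : SCJ) : EHYP := by
  intro n m k π p e r f w0 c j0 q h hq hcl hqn hnone hdet z t hz hzt htm hun
  have hn := n_ne h
  obtain ⟨hq2, hq9, hqs⟩ := hcl
  have hqI := inert hSPP hq hq2
  obtain ⟨B, hB⟩ : ∃ B : Eis, B = (((n : ℤ) * q : ℤ) : Eis) := ⟨_, rfl⟩
  have hB2 : B = (n : Eis) * (q : Eis) := by rw [hB]; push_cast; rfl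
  have hn0 : (n : Eis) ≠ 0 := by
    intro h0
    have := congrArg Eis.re h0
    simp only [natCast_re, zero_re] at this
    exact hn (by exact_mod_cast this)
  have hB0 : B ≠ 0 := by rw [hB2]; exact mul_ne_zero hn0 hqI.1.ne_zero
  obtain ⟨a, hF, hcube⟩ := decomp hSPP h hq hq2 hz hzt hun
  rw [← hB] at htm
  have h3 : ∀ i, ¬ (π i).1 ∣ 3 := fun i => (hSPP.2.2.2.1 (π i)).1
  have hvec : (Mm n π e r j0 c).mulVec
      (Fin.cons (a : ZMod 3) fun i => (V (π i).1 z : ZMod 3)) = 0 := by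
    funext b
    refine Fin.cases ?_ (fun i => ?_) b
    · cases j0 with
      | none =>
        have h1 : (Mm n π e r none c).mulVec
            (Fin.cons (a : ZMod 3) fun i => (V (π i).1 z : ZMod 3)) 0 = a := by
          simp [Matrix.mulVec, dotProduct, Mm, Fin.sum_univ_succ]
        rw [h1]
        have hsl : sl z B = 0 := by
          unfold sl
          rw [finsum_eq_zero_of_forall_eq_zero fun π => htm π, neg_zero]
        have h2 := hF _ (add3_sl hSSL hB0)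
        have hPB : Prim B := by
          rw [hB]
          refine ⟨by simp, ?_⟩
          simp only [intCast_re]
          intro h4
          rcases Int.prime_three.dvd_or_dvd h4 with h5 | h5
          · exact three_n h (by exact_mod_cast h5)
          · have h6 : 3 ∣ q := by exact_mod_cast h5
            omega
        have hPi : ∀ i, Prim (π i).1 := fun i => ⟨(π i).2.2.2, by
          have := (π i).2.2.1
          omega⟩
        have h4 : ∀ i, sl (π i).1 B = 0 := fun i => hSREC.1 _ _ (hPi i) hPB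
        have h5 : ∀ i, sl (conj (π i).1) B = 0 := fun i => hSREC.1 _ _ (hPi i).conj hPB
        simp only [h4, h5, sub_zero, mul_zero, Finset.sum_const_zero, add_zero] at h2
        rw [hsl, hSSL.2.1 B w hB0 w_ne, hSREC.2.1 B hPB] at h2
        have h6 : wt B.norm = wt ((n : ℤ) ^ 2) + w0 := by
          rw [← hq9, ← wt_mul]
          · rw [hB, norm_intCast, mul_pow]
          · exact sq_mod_three fun h7 => three_n h (by exact_mod_cast h7)
          · refine sq_mod_three fun h7 => ?_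
            have h8 : 3 ∣ q := by exact_mod_cast h7
            omega
        have h7 := hnone rfl
        rw [← h6] at h7
        have h8 : (a : ZMod 3) * wt B.norm = 0 := by linear_combination h2
        have : Fact (Nat.Prime 3) := ⟨Nat.prime_three⟩
        exact (mul_eq_zero.1 h8).resolve_right h7
      | some j =>
        have hj := inert hSPP (h.rp j) (h.r2 j)
        have h1 : (Mm n π e r (some j) c).mulVec
            (Fin.cons (a : ZMod 3) fun i => (V (π i).1 z : ZMod 3)) 0 = sym (r j : Eis) w * a +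
            ∑ i, (sym (r j : Eis) (π i).1 - sym (r j : Eis) (conj (π i).1)) *
              (V (π i).1 z : ZMod 3) := by
          simp [Matrix.mulVec, dotProduct, Mm, Fin.sum_univ_succ]
        rw [h1]
        have h2 := hF _ (add3_ch hj.1 hj.2)
        have h4 : ∀ i, ch (r j : Eis) (π i).1 = sym (r j : Eis) (π i).1 := fun i =>
          ch_of_not_dvd hj.1 fun h5 => not_assoc_nat h i _ (hj.1.associated_of_dvd (π i).2.1 h5).symm
        have h5 : ∀ i, ch (r j : Eis) (conj (π i).1) = sym (r j : Eis) (conj (π i).1) := fun i =>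
          ch_of_not_dvd hj.1 fun h5 =>
            not_assoc_nat' h i _ (hj.1.associated_of_dvd (prime_conj (π i).2.1) h5).symm
        have h6 : ch (r j : Eis) w = sym (r j : Eis) w :=
          ch_of_not_dvd hj.1 (not_dvd_of_isUnit hj.1 isUnit_w)
        simp only [h4, h5, h6] at h2
        have h7 : ch (r j : Eis) z = 0 := by
          obtain ⟨ρ, hρ⟩ := hSPP.2.2.2.2.1 (r j) (h.rp j) (h.r2 j)
          have h8 := htm ρ
          rw [hρ] at h8
          unfold tm at h8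
          have h9 : 3 ∣ V (r j : Eis) z := self_conj hj.1 (by rw [conj_natCast]) hz hzt
          rw [(ZMod.natCast_eq_zero_iff _ 3).2 h9, zero_mul, sub_zero] at h8
          have hqr : V (r j : Eis) (q : Eis) = 0 := by
            rw [V_nat_nat hj.1 hqI.1, if_neg]
            intro h10
            apply hqn
            rw [h10, h.eq]
            refine Dvd.dvd.mul_left ?_ _
            have h11 : r j ^ f j ∣ ∏ j, r j ^ f j := Finset.dvd_prod_of_mem _ (Finset.mem_univ j)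
            refine (dvd_pow_self _ ?_).trans h11
            have := h.rf j
            omega
          have hVB : V (r j : Eis) B = f j := by
            rw [hB2, V_mul hj.1 hn0 hqI.1.ne_zero, V_n_j hSPP h, hqr, add_zero]
          rw [hVB] at h8
          have hf : (f j : ZMod 3) ≠ 0 := by
            rcases h.rf j with h10 | h10 <;> rw [h10] <;> decide
          have : Fact (Nat.Prime 3) := ⟨Nat.prime_three⟩
          exact (mul_eq_zero.1 h8).resolve_left hf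
        rw [h7] at h2
        rw [Pi.zero_apply, h2]
        rw [mul_comm (sym (r j : Eis) w)]
        congr 1
        exact Finset.sum_congr rfl fun i _ => mul_comm _ _
    · have h1 : (Mm n π e r j0 c).mulVec
          (Fin.cons (a : ZMod 3) fun i => (V (π i).1 z : ZMod 3)) i.succ =
          (e i : ZMod 3) * sym (π i).1 w * a + ∑ i', (if i' = i then
            - (e i : ZMod 3) * sym (π i).1 (conj (π i).1) - ch (π i).1 (n : Eis) - c i
            else (e i : ZMod 3) * (sym (π i).1 (π i').1 - sym (π i).1 (conj (π i').1))) *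
              (V (π i').1 z : ZMod 3) := by
        simp [Matrix.mulVec, dotProduct, Mm, Fin.sum_univ_succ]
      rw [h1]
      have hi := (π i).2.1
      have hqi : ¬ (π i).1 ∣ (q : Eis) := fun h5 =>
        not_assoc_nat h i q (hi.associated_of_dvd hqI.1 h5)
      have hVB : V (π i).1 B = e i := by
        rw [hB2, V_mul hi hn0 hqI.1.ne_zero, V_n_i hSPP h, V_eq_zero hqi, add_zero]
      have hcB : ch (π i).1 B = ch (π i).1 (n : Eis) + c i := by
        rw [hB2, ch_mul hi (h3 i) hn0 hqI.1.ne_zero, ch_of_not_dvd hi hqi, hqs i]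
      have h2 := hF _ (add3_tm hSTM hi (h3 i) hB0)
      simp only [htm (π i)] at h2
      have hw : tm (π i).1 w B = (e i : ZMod 3) * sym (π i).1 w := by
        unfold tm
        rw [hVB, V_eq_zero (not_dvd_of_isUnit hi isUnit_w),
          ch_of_not_dvd hi (not_dvd_of_isUnit hi isUnit_w)]
        simp
      have hd : ∀ i', tm (π i).1 (π i').1 B - tm (π i).1 (conj (π i').1) B = if i' = i then
            - (e i : ZMod 3) * sym (π i).1 (conj (π i).1) - ch (π i).1 (n : Eis) - c i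
            else (e i : ZMod 3) * (sym (π i).1 (π i').1 - sym (π i).1 (conj (π i').1)) := by
        intro i'
        unfold tm
        have hcj : ¬ (π i).1 ∣ conj (π i').1 := fun h5 =>
          not_assoc h i i' (hi.associated_of_dvd (prime_conj (π i').2.1) h5)
        rw [V_self_i h, V_conj_i h, hVB, hcB, ch_of_not_dvd hi hcj]
        split_ifs with hii
        · subst hii
          rw [ch_self hi (h3 i')]
          push_cast
          ring
        · have hci : ¬ (π i).1 ∣ (π i').1 := fun h5 =>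
            hii (assoc_iff h i i' (hi.associated_of_dvd (π i').2.1 h5)).symm
          rw [ch_of_not_dvd hi hci]
          push_cast
          ring
      rw [hw] at h2
      simp only [hd] at h2
      rw [Pi.zero_apply, h2, mul_comm (a : ZMod 3)]
      congr 1
      exact Finset.sum_congr rfl fun i _ => mul_comm _ _
  have hx := Matrix.eq_zero_of_mulVec_eq_zero hdet hvec
  refine hcube ?_ fun i => ?_
  · have := congrFun hx 0
    simpa using this
  · have := congrFun hx i.succ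
    simpa using this

end Pool.Agent.PT

end

section

/-!
# TADD: additivity of the pairing in the second variable
-/

namespace Pool.Agent.PT

open Pool.Agent.Lib_helper18 Pool.Agent.Lib_helper18.Eis Pool.Agent.Lib_helper84.Cub

namespace TADD

/-- the norm form of `x + y T + z T^2`, `T^3 = b` -/
def N3 (b x y z : ℤ) : ℤ := x ^ 3 + b * y ^ 3 + b ^ 2 * z ^ 3 - 3 * b * x * y * z

theorem N3_mul (b x y z u v t : ℤ) :
    N3 b (x * u + b * (y * t + z * v)) (x * v + y * u + b * (z * t)) (x * t + y * v + z * u) =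
      N3 b x y z * N3 b u v t := by
  unfold N3
  ring

/-- no zeros of `p^3 + b q^3` when `b` is not a cube -/
theorem ne_of_not_cube {b p q : ℤ} (hb : ¬ ∃ c : ℤ, c ^ 3 = b) (h : ¬ (p = 0 ∧ q = 0)) :
    p ^ 3 + b * q ^ 3 ≠ 0 := by
  intro h0
  by_cases hq : q = 0
  · subst hq
    have h1 : p ^ 3 = 0 := by linear_combination h0
    exact h ⟨pow_eq_zero_iff (three_ne_zero) |>.1 h1, rfl⟩
  · have h1 : q ^ 3 ∣ p ^ 3 := ⟨-b, by linear_combination h0⟩
    rw [Int.pow_dvd_pow_iff (three_ne_zero)] at h1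
    obtain ⟨k, rfl⟩ := h1
    apply hb
    refine ⟨-k, ?_⟩
    have h2 : q ^ 3 * ((-k) ^ 3 - b) = 0 := by linear_combination -h0
    have h3 := (mul_eq_zero.1 h2).resolve_left (pow_ne_zero _ hq)
    linear_combination h3

/-- the algebra: coefficients of the identity -/
theorem exists_prod (b : ℤ) (hb : ¬ ∃ c : ℤ, c ^ 3 = b) (p₁ q₁ p₁' q₁' p₂ q₂ p₂' q₂' : ℤ)
    (h1 : p₁' ^ 3 + b * q₁' ^ 3 ≠ 0) (h2 : p₂' ^ 3 + b * q₂' ^ 3 ≠ 0) :
    ∃ p q p' q' : ℤ, ¬ (p' = 0 ∧ q' = 0) ∧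
      (p₁ * p₂ * p' + b * (q₁ * q₂ * q') = p₁' * p₂' * p + b * (q₁' * q₂' * q)) ∧
      ((p₁ * q₂ + q₁ * p₂) * p' + p₁ * p₂ * q' = (p₁' * q₂' + q₁' * p₂') * p + p₁' * p₂' * q) ∧
      (q₁ * q₂ * p' + (p₁ * q₂ + q₁ * p₂) * q' = q₁' * q₂' * p + (p₁' * q₂' + q₁' * p₂') * q) := by
  obtain ⟨e0, he0⟩ : ∃ e0, e0 = p₁ * p₂ := ⟨_, rfl⟩
  obtain ⟨e1, he1⟩ : ∃ e1, e1 = p₁ * q₂ + q₁ * p₂ := ⟨_, rfl⟩
  obtain ⟨e2, he2⟩ : ∃ e2, e2 = q₁ * q₂ := ⟨_, rfl⟩
  obtain ⟨f0, hf0⟩ : ∃ e0, e0 = p₁' * p₂' := ⟨_, rfl⟩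
  obtain ⟨f1, hf1⟩ : ∃ e1, e1 = p₁' * q₂' + q₁' * p₂' := ⟨_, rfl⟩
  obtain ⟨f2, hf2⟩ : ∃ e2, e2 = q₁' * q₂' := ⟨_, rfl⟩
  have hN : N3 b f0 f1 f2 = (p₁' ^ 3 + b * q₁' ^ 3) * (p₂' ^ 3 + b * q₂' ^ 3) := by
    have := N3_mul b p₁' q₁' 0 p₂' q₂' 0
    unfold N3 at this ⊢
    subst hf0 hf1 hf2
    linear_combination this
  have hN0 : N3 b f0 f1 f2 ≠ 0 := by rw [hN]; exact mul_ne_zero h1 h2
  rw [← he0, ← he1, ← he2, ← hf0, ← hf1, ← hf2]
  obtain ⟨g0, hg0⟩ : ∃ g, g = e0 * (f0 ^ 2 - b * f1 * f2) + b * (e1 * (f1 ^ 2 - f0 * f2) +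
      e2 * (b * f2 ^ 2 - f0 * f1)) := ⟨_, rfl⟩
  obtain ⟨g1, hg1⟩ : ∃ g, g = e0 * (b * f2 ^ 2 - f0 * f1) + e1 * (f0 ^ 2 - b * f1 * f2) +
      b * (e2 * (f1 ^ 2 - f0 * f2)) := ⟨_, rfl⟩
  obtain ⟨g2, hg2⟩ : ∃ g, g = e0 * (f1 ^ 2 - f0 * f2) + e1 * (b * f2 ^ 2 - f0 * f1) +
      e2 * (f0 ^ 2 - b * f1 * f2) := ⟨_, rfl⟩
  -- g * f = N e
  have k0 : g0 * f0 + b * (g1 * f2 + g2 * f1) = N3 b f0 f1 f2 * e0 := by
    unfold N3; subst hg0 hg1 hg2; ring
  have k1 : g0 * f1 + g1 * f0 + b * (g2 * f2) = N3 b f0 f1 f2 * e1 := by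
    unfold N3; subst hg0 hg1 hg2; ring
  have k2 : g0 * f2 + g1 * f1 + g2 * f0 = N3 b f0 f1 f2 * e2 := by
    unfold N3; subst hg0 hg1 hg2; ring
  by_cases hg : g1 = 0 ∧ g2 = 0
  · obtain ⟨hg1', hg2'⟩ := hg
    refine ⟨g0, 0, N3 b f0 f1 f2, 0, fun h => hN0 h.1, ?_, ?_, ?_⟩
    · rw [hg1', hg2'] at k0; linear_combination -k0
    · rw [hg1', hg2'] at k1; linear_combination -k1
    · rw [hg1', hg2'] at k2; linear_combination -k2
  · refine ⟨g0 * g1 - b * g2 ^ 2, g1 ^ 2 - g0 * g2, N3 b f0 f1 f2 * g1, - (N3 b f0 f1 f2 * g2),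
      fun h => hg ⟨(mul_eq_zero.1 h.1).resolve_left hN0,
        (mul_eq_zero.1 (neg_eq_zero.1 h.2)).resolve_left hN0⟩, ?_, ?_, ?_⟩
    · linear_combination (-g1) * k0 + b * g2 * k2
    · linear_combination (-g1) * k1 + g2 * k0
    · linear_combination (-g1) * k2 + g2 * k1

/-- the three linear forms multiply to the norm -/
theorem Lf_prod (p q r : ℤ) : Lf p q 0 r * Lf p q 1 r * Lf p q 2 r = ((p ^ 3 + q ^ 3 * r ^ 3 : ℤ) : Eis) := by
  unfold Lf
  have h1 := w_rel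
  have h2 := w_cube
  push_cast
  linear_combination ((p : Eis) ^ 2 * q * r + p * q ^ 2 * r ^ 2 * w) * h1 +
    (q : Eis) ^ 3 * r ^ 3 * h2

/-- the linear forms are nonzero with bounded valuation at good approximations -/
theorem Lf_bound {π : Eis} (hπ : Prime π) {b p q r : ℤ} {N : ℕ}
    (hn : ((p ^ 3 + b * q ^ 3 : ℤ) : Eis) ≠ 0) (hr : π ^ N ∣ (r : Eis) ^ 3 - (b : Eis))
    (hN : V π ((p ^ 3 + b * q ^ 3 : ℤ) : Eis) < N) (i : ℕ) (hi : i = 1 ∨ i = 2) :
    Lf p q i r ≠ 0 ∧ V π (Lf p q i r) ≤ V π ((p ^ 3 + b * q ^ 3 : ℤ) : Eis) := by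
  have e : ((p ^ 3 + b * q ^ 3 : ℤ) : Eis) = ((p ^ 3 + q ^ 3 * r ^ 3 : ℤ) : Eis) -
      (q : Eis) ^ 3 * ((r : Eis) ^ 3 - (b : Eis)) := by
    push_cast; ring
  have hnd : ¬ π ^ (V π ((p ^ 3 + b * q ^ 3 : ℤ) : Eis) + 1) ∣
      Lf p q 0 r * Lf p q 1 r * Lf p q 2 r := by
    rw [Lf_prod]
    intro h
    have h1 : π ^ (V π ((p ^ 3 + b * q ^ 3 : ℤ) : Eis) + 1) ∣ ((p ^ 3 + b * q ^ 3 : ℤ) : Eis) := by
      rw [e]
      rw [← e]
      have h2 : π ^ (V π ((p ^ 3 + b * q ^ 3 : ℤ) : Eis) + 1) ∣ (q : Eis) ^ 3 * ((r : Eis) ^ 3 - (b : Eis)) :=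
        Dvd.dvd.mul_left ((pow_dvd_pow π (by omega)).trans hr) _
      have h3 := dvd_sub h h2
      rwa [← e] at h3
    exact (fin hπ hn).not_pow_dvd_of_multiplicity_lt (Nat.lt_succ_self _) h1
  have hdv : Lf p q i r ∣ Lf p q 0 r * Lf p q 1 r * Lf p q 2 r := by
    rcases hi with rfl | rfl
    · exact ⟨Lf p q 0 r * Lf p q 2 r, by ring⟩
    · exact ⟨Lf p q 0 r * Lf p q 1 r, by ring⟩
  have h0 : Lf p q i r ≠ 0 := by
    intro h
    rw [h] at hdv
    rw [zero_dvd_iff.1 hdv] at hnd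
    exact hnd (dvd_zero _)
  refine ⟨h0, ?_⟩
  by_contra hlt
  push Not at hlt
  apply hnd
  exact (pow_dvd_of_le_multiplicity hlt).trans hdv

/-- evaluation of the identity at `w^i r` -/
theorem Lf_ident {b p₁ q₁ p₁' q₁' p₂ q₂ p₂' q₂' p q p' q' : ℤ}
    (e0 : p₁ * p₂ * p' + b * (q₁ * q₂ * q') = p₁' * p₂' * p + b * (q₁' * q₂' * q))
    (e1 : (p₁ * q₂ + q₁ * p₂) * p' + p₁ * p₂ * q' = (p₁' * q₂' + q₁' * p₂') * p + p₁' * p₂' * q)
    (e2 : q₁ * q₂ * p' + (p₁ * q₂ + q₁ * p₂) * q' = q₁' * q₂' * p + (p₁' * q₂' + q₁' * p₂') * q)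
    (i : ℕ) (r : ℤ) :
    Lf p₁ q₁ i r * Lf p₂ q₂ i r * Lf p' q' i r - Lf p₁' q₁' i r * Lf p₂' q₂' i r * Lf p q i r =
      ((r : Eis) ^ 3 - (b : Eis)) * ((q₁ * q₂ * q' - q₁' * q₂' * q : ℤ) : Eis) := by
  have h3 : (w ^ i) ^ 3 = 1 := by rw [← pow_mul, mul_comm, pow_mul, w_cube, one_pow]
  have e0' : ((p₁ * p₂ * p' + b * (q₁ * q₂ * q') : ℤ) : Eis) = ((p₁' * p₂' * p + b * (q₁' * q₂' * q) : ℤ) : Eis) := by
    rw [e0]
  have e1' : (((p₁ * q₂ + q₁ * p₂) * p' + p₁ * p₂ * q' : ℤ) : Eis) =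
    (((p₁' * q₂' + q₁' * p₂') * p + p₁' * p₂' * q : ℤ) : Eis) := by rw [e1]
  have e2' : ((q₁ * q₂ * p' + (p₁ * q₂ + q₁ * p₂) * q' : ℤ) : Eis) =
    ((q₁' * q₂' * p + (p₁' * q₂' + q₁' * p₂') * q : ℤ) : Eis) := by rw [e2]
  unfold Lf
  push_cast at *
  generalize w ^ i = W at *
  linear_combination e0' + W * (r : Eis) * e1' + W ^ 2 * (r : Eis) ^ 2 * e2' +
    ((q₁ : Eis) * q₂ * q' - q₁' * q₂' * q) * (r : Eis) ^ 3 * h3

theorem LSym.right_mul {π : Eis} {s : Eis → Eis → ZMod 3} {e : ℕ} (hs : LSym π s e) {a b c : Eis}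
    (ha : a ≠ 0) (hb : b ≠ 0) (hc : c ≠ 0) : s a (b * c) = s a b + s a c := by
  rw [hs.skew (b * c) a (mul_ne_zero hb hc) ha, hs.mul b c a hb hc ha, hs.skew b a hb ha,
    hs.skew c a hc ha]
  ring

/-- one index -/
theorem step_i {π : Eis} {s : Eis → Eis → ZMod 3} {e : ℕ} (hs : LSym π s e) {B : Eis}
    (hB : B ≠ 0) {X₁ X₂ X₃ Y₁ Y₂ Y₃ R C : Eis} (hX₁ : X₁ ≠ 0) (hX₂ : X₂ ≠ 0) (hX₃ : X₃ ≠ 0)
    (hY₁ : Y₁ ≠ 0) (hY₂ : Y₂ ≠ 0) (hY₃ : Y₃ ≠ 0) {N : ℕ}
    (hN : V π Y₁ + V π Y₂ + V π Y₃ + e ≤ N) (hR : π ^ N ∣ R)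
    (h : X₁ * X₂ * X₃ - Y₁ * Y₂ * Y₃ = R * C) :
    s B X₁ + s B X₂ + s B X₃ = s B Y₁ + s B Y₂ + s B Y₃ := by
  have hV : V π (Y₁ * Y₂ * Y₃) = V π Y₁ + V π Y₂ + V π Y₃ := by
    rw [V_mul hs.prime (mul_ne_zero hY₁ hY₂) hY₃, V_mul hs.prime hY₁ hY₂]
  have h1 : π ^ (V π (Y₁ * Y₂ * Y₃) + e) ∣ X₁ * X₂ * X₃ - Y₁ * Y₂ * Y₃ := by
    rw [h, hV]
    exact Dvd.dvd.mul_right ((pow_dvd_pow π hN).trans hR) _
  have h2 := hs.cont (Y₁ * Y₂ * Y₃) (X₁ * X₂ * X₃) B (mul_ne_zero (mul_ne_zero hY₁ hY₂) hY₃) hB h1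
  rw [hs.mul _ _ _ (mul_ne_zero hX₁ hX₂) hX₃ hB, hs.mul _ _ _ hX₁ hX₂ hB,
    hs.mul _ _ _ (mul_ne_zero hY₁ hY₂) hY₃ hB, hs.mul _ _ _ hY₁ hY₂ hB] at h2
  rw [hs.skew X₁ B hX₁ hB, hs.skew X₂ B hX₂ hB, hs.skew X₃ B hX₃ hB, hs.skew Y₁ B hY₁ hB,
    hs.skew Y₂ B hY₂ hB, hs.skew Y₃ B hY₃ hB]
  linear_combination -h2

/-- additivity of `AS` at good approximations -/
theorem AS_add {π : Eis} {s : Eis → Eis → ZMod 3} {e : ℕ} (hs : LSym π s e)
    {B b p₁ q₁ p₁' q₁' p₂ q₂ p₂' q₂' p q p' q' : ℤ} (hB : (B : Eis) ≠ 0)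
    (n₁ : ((p₁ ^ 3 + b * q₁ ^ 3 : ℤ) : Eis) ≠ 0) (n₂ : ((p₂ ^ 3 + b * q₂ ^ 3 : ℤ) : Eis) ≠ 0)
    (n₃ : ((p' ^ 3 + b * q' ^ 3 : ℤ) : Eis) ≠ 0) (m₁ : ((p₁' ^ 3 + b * q₁' ^ 3 : ℤ) : Eis) ≠ 0)
    (m₂ : ((p₂' ^ 3 + b * q₂' ^ 3 : ℤ) : Eis) ≠ 0) (m₃ : ((p ^ 3 + b * q ^ 3 : ℤ) : Eis) ≠ 0)
    (e0 : p₁ * p₂ * p' + b * (q₁ * q₂ * q') = p₁' * p₂' * p + b * (q₁' * q₂' * q))
    (e1 : (p₁ * q₂ + q₁ * p₂) * p' + p₁ * p₂ * q' = (p₁' * q₂' + q₁' * p₂') * p + p₁' * p₂' * q)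
    (e2 : q₁ * q₂ * p' + (p₁ * q₂ + q₁ * p₂) * q' = q₁' * q₂' * p + (p₁' * q₂' + q₁' * p₂') * q) :
    ∃ N0 : ℕ, ∀ r : ℤ, π ^ N0 ∣ (r : Eis) ^ 3 - (b : Eis) →
      AS s (B : Eis) p q p' q' r = AS s (B : Eis) p₁ q₁ p₁' q₁' r + AS s (B : Eis) p₂ q₂ p₂' q₂' r := by
  refine ⟨V π ((p₁ ^ 3 + b * q₁ ^ 3 : ℤ) : Eis) + V π ((p₂ ^ 3 + b * q₂ ^ 3 : ℤ) : Eis) +
    V π ((p' ^ 3 + b * q' ^ 3 : ℤ) : Eis) + V π ((p₁' ^ 3 + b * q₁' ^ 3 : ℤ) : Eis) +
    V π ((p₂' ^ 3 + b * q₂' ^ 3 : ℤ) : Eis) + V π ((p ^ 3 + b * q ^ 3 : ℤ) : Eis) + e + 1,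
    fun r hr => ?_⟩
  have key : ∀ i : ℕ, i = 1 ∨ i = 2 →
      s B (Lf p₁ q₁ i r) + s B (Lf p₂ q₂ i r) + s B (Lf p' q' i r) =
        s B (Lf p₁' q₁' i r) + s B (Lf p₂' q₂' i r) + s B (Lf p q i r) := by
    intro i hi
    have a1 := Lf_bound hs.prime n₁ hr (by omega) i hi
    have a2 := Lf_bound hs.prime n₂ hr (by omega) i hi
    have a3 := Lf_bound hs.prime n₃ hr (by omega) i hi
    have b1 := Lf_bound hs.prime m₁ hr (by omega) i hi
    have b2 := Lf_bound hs.prime m₂ hr (by omega) i hi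
    have b3 := Lf_bound hs.prime m₃ hr (by omega) i hi
    refine step_i hs hB a1.1 a2.1 a3.1 b1.1 b2.1 b3.1 ?_ hr (Lf_ident e0 e1 e2 i r)
    have h1 := b1.2
    have h2 := b2.2
    have h3 := b3.2
    omega
  have k1 := key 1 (Or.inl rfl)
  have k2 := key 2 (Or.inr rfl)
  unfold AS
  linear_combination k1 - k2

theorem cast_ne {n : ℤ} (h : n ≠ 0) : (n : Eis) ≠ 0 := by
  intro h0
  apply h
  have := congrArg Eis.re h0
  simpa using this

end TADD

open _root_.Pool.Agent.PT.TADD in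
theorem TADD_thm (hSTM : STM) (hSPP : SPP) (hSSL : SSL) (hSLC : SLC) (hSCJ : SCJ) (hLCI : LCI)
    (hAVV : AVV) (hLFIN : LFIN) : TADD := by
  intro b x₁ x₂ p₁ q₁ p₁' q₁' p₂ q₂ p₂' q₂' hb hb0 hx₁ hx₂ S₁ S₂
  have d1 : p₁' ^ 3 + b * q₁' ^ 3 ≠ 0 := by
    intro h
    apply S₁.n1
    rw [S₁.eq, h, mul_zero]
  have d2 : p₂' ^ 3 + b * q₂' ^ 3 ≠ 0 := by
    intro h
    apply S₂.n1
    rw [S₂.eq, h, mul_zero]
  obtain ⟨p, q, p', q', hne, e0, e1, e2⟩ := exists_prod b hb p₁ q₁ p₁' q₁' p₂ q₂ p₂' q₂' d1 d2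
  have d' : p' ^ 3 + b * q' ^ 3 ≠ 0 := ne_of_not_cube hb hne
  have hnorm : (p₁ ^ 3 + b * q₁ ^ 3) * (p₂ ^ 3 + b * q₂ ^ 3) * (p' ^ 3 + b * q' ^ 3) =
      (p₁' ^ 3 + b * q₁' ^ 3) * (p₂' ^ 3 + b * q₂' ^ 3) * (p ^ 3 + b * q ^ 3) := by
    have h1 := N3_mul b p₁ q₁ 0 p₂ q₂ 0
    have h2 := N3_mul b p₁' q₁' 0 p₂' q₂' 0
    have h3 := N3_mul b (p₁ * p₂) (p₁ * q₂ + q₁ * p₂) (q₁ * q₂) p' q' 0
    have h4 := N3_mul b (p₁' * p₂') (p₁' * q₂' + q₁' * p₂') (q₁' * q₂') p q 0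
    have h5 : N3 b (p₁ * p₂ * p' + b * ((p₁ * q₂ + q₁ * p₂) * 0 + q₁ * q₂ * q'))
        (p₁ * p₂ * q' + (p₁ * q₂ + q₁ * p₂) * p' + b * (q₁ * q₂ * 0))
        (p₁ * p₂ * 0 + (p₁ * q₂ + q₁ * p₂) * q' + q₁ * q₂ * p') =
      N3 b (p₁' * p₂' * p + b * ((p₁' * q₂' + q₁' * p₂') * 0 + q₁' * q₂' * q))
        (p₁' * p₂' * q + (p₁' * q₂' + q₁' * p₂') * p + b * (q₁' * q₂' * 0))
        (p₁' * p₂' * 0 + (p₁' * q₂' + q₁' * p₂') * q + q₁' * q₂' * p) := by
      congr 1
      · linear_combination e0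
      · linear_combination e1
      · linear_combination e2
    rw [h3, h4] at h5
    have g1 : N3 b (p₁ * p₂) (p₁ * q₂ + q₁ * p₂) (q₁ * q₂) =
        (p₁ ^ 3 + b * q₁ ^ 3) * (p₂ ^ 3 + b * q₂ ^ 3) := by
      unfold N3 at h1 ⊢
      linear_combination h1
    have g2 : N3 b (p₁' * p₂') (p₁' * q₂' + q₁' * p₂') (q₁' * q₂') =
        (p₁' ^ 3 + b * q₁' ^ 3) * (p₂' ^ 3 + b * q₂' ^ 3) := by
      unfold N3 at h2 ⊢
      linear_combination h2
    have g3 : N3 b p' q' 0 = p' ^ 3 + b * q' ^ 3 := by unfold N3; ring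
    have g4 : N3 b p q 0 = p ^ 3 + b * q ^ 3 := by unfold N3; ring
    rw [g1, g2, g3, g4] at h5
    exact h5
  have hS : SolW b (x₁ * x₂) p q p' q' := by
    have heq : p ^ 3 + b * q ^ 3 = x₁ * x₂ * (p' ^ 3 + b * q' ^ 3) := by
      apply mul_left_cancel₀ (mul_ne_zero d1 d2)
      rw [← hnorm, S₁.eq, S₂.eq]
      ring
    refine ⟨heq, ?_⟩
    rw [heq]
    exact mul_ne_zero (mul_ne_zero hx₁ hx₂) d'
  refine ⟨p, q, p', q', hS, ?_⟩
  intro B hB hAb hA₁ hA₂
  have hB0 : (B : Eis) ≠ 0 := cast_ne hB.ne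
  have hx₁' : (x₁ : Eis) ≠ 0 := cast_ne hx₁
  have hx₂' : (x₂ : Eis) ≠ 0 := cast_ne hx₂
  have hw0 : (w : Eis) ≠ 0 := by
    intro h
    have := w_cube
    rw [h] at this
    exact absurd this (by decide)
  -- the symbols at all places
  have hv : ∀ v : Pl, ∃ e, LSym (uni v) (sy v) e := by
    intro v
    rcases v with _ | π
    · exact ⟨4, hSLC⟩
    · exact ⟨1, hSTM π.1 π.2.1 (hSPP.2.2.2.1 π).1⟩
  have htm : ∀ (x : ℤ), Adm B x → x ≠ 0 → ∀ π : PP, tm π.1 (B : Eis) (x : Eis) = 0 := by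
    intro x hx hx0 π
    have h1 := (hSTM π.1 π.2.1 (hSPP.2.2.2.1 π).1).skew (x : Eis) (B : Eis) (cast_ne hx0) hB0
    rw [h1, hx.sym π, neg_zero]
  have hsy : ∀ (x : ℤ), Adm B x → x ≠ 0 → ∀ v : Pl, sy v (B : Eis) (x : Eis) = 0 := by
    intro x hx hx0 v
    rcases v with _ | π
    · change sl (B : Eis) (x : Eis) = 0
      unfold sl
      rw [finsum_eq_zero_of_forall_eq_zero (htm x hx hx0), neg_zero]
    · exact htm x hx hx0 π
  -- local additivity
  have hloc : ∀ v : Pl, TT v B b (x₁ * x₂) p q p' q' =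
      TT v B b x₁ p₁ q₁ p₁' q₁' + TT v B b x₂ p₂ q₂ p₂' q₂' := by
    intro v
    obtain ⟨e, hs⟩ := hv v
    have hcast : (((x₁ * x₂ : ℤ)) : Eis) = (x₁ : Eis) * (x₂ : Eis) := by push_cast; rfl
    by_cases hLC : LC (uni v) b
    · have h12 : sy v (B : Eis) ((x₁ * x₂ : ℤ) : Eis) = 0 := by
        rw [hcast, LSym.right_mul hs hB0 hx₁' hx₂', hsy x₁ hA₁ hx₁ v, hsy x₂ hA₂ hx₂ v, add_zero]
      obtain ⟨⟨N₁, hN₁⟩, -⟩ := hAVV v B b x₁ p₁ q₁ p₁' q₁' hB.ne hb0 hx₁ S₁ (hsy x₁ hA₁ hx₁ v) hLC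
      obtain ⟨⟨N₂, hN₂⟩, -⟩ := hAVV v B b x₂ p₂ q₂ p₂' q₂' hB.ne hb0 hx₂ S₂ (hsy x₂ hA₂ hx₂ v) hLC
      obtain ⟨-, huniq⟩ := hAVV v B b (x₁ * x₂) p q p' q' hB.ne hb0 (mul_ne_zero hx₁ hx₂) hS h12 hLC
      obtain ⟨N₃, hN₃⟩ := AS_add hs hB0 (cast_ne S₁.n1) (cast_ne S₂.n1) (cast_ne d')
        (cast_ne d1) (cast_ne d2) (cast_ne hS.n1) e0 e1 e2
      have hAV : AV v B b p q p' q' = AV v B b p₁ q₁ p₁' q₁' + AV v B b p₂ q₂ p₂' q₂' := by
        refine huniq _ (max N₁ (max N₂ N₃)) (fun r hr => ?_)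
        rw [hN₃ r ((pow_dvd_pow _ (by omega)).trans hr), hN₁ r ((pow_dvd_pow _ (by omega)).trans hr),
          hN₂ r ((pow_dvd_pow _ (by omega)).trans hr)]
      unfold TT
      rw [if_pos hLC, if_pos hLC, if_pos hLC, hAV, hcast, LSym.right_mul hs hw0 hx₁' hx₂']
      ring
    · unfold TT
      rw [if_neg hLC, if_neg hLC, if_neg hLC]
      rcases v with _ | π
      · simp
      · simp only
        split_ifs with h
        · rw [hcast]
          have := LSym.right_mul hs hw0 hx₁' hx₂'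
          change tm π.1 w ((x₁ : Eis) * (x₂ : Eis)) = tm π.1 w (x₁ : Eis) + tm π.1 w (x₂ : Eis) at this
          rw [this]
          ring
        · simp
  unfold OO
  rw [← finsum_add_distrib (hLFIN.1 B b x₁ p₁ q₁ p₁' q₁' hB hAb hA₁ S₁)
    (hLFIN.1 B b x₂ p₂ q₂ p₂' q₂' hB hAb hA₂ S₂)]
  exact finsum_congr hloc

end Pool.Agent.PT

end

section

/-!
# HYPS: the minus part of the Selmer group is trivial, twists by primes `= 1 (mod 3)`
-/

set_option autoImplicit false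

namespace Pool.Agent.PTE

open Pool.Agent.Lib_helper18 Pool.Agent.Lib_helper18.Eis Pool.Agent.Lib_helper84.Cub
open Pool.Agent.PT Pool.Agent.PT.EHYP

namespace HYPS

section

variable {n m k : ℕ} {π : Fin m → PP} {p e : Fin m → ℕ} {r f : Fin k → ℕ}

/-- the extended normal form -/
theorem ext (h : NF n π p e r f) {q : ℕ} (ρ : PP) (hq : q.Prime) (hq1 : q % 3 = 1)
    (hqn : ¬ q ∣ n) (hρ : (q : Eis) = ρ.1 * conj ρ.1) :
    NF (n * q) (Fin.cons ρ π : Fin (m + 1) → PP) (Fin.cons q p : Fin (m + 1) → ℕ)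
      (Fin.cons 1 e : Fin (m + 1) → ℕ) r f where
  pp i := by
    refine Fin.cases ?_ (fun i => ?_) i
    · exact hq
    · exact h.pp i
  p1 i := by
    refine Fin.cases ?_ (fun i => ?_) i
    · exact hq1
    · exact h.p1 i
  pπ i := by
    refine Fin.cases ?_ (fun i => ?_) i
    · exact hρ
    · exact h.pπ i
  pe i := by
    refine Fin.cases ?_ (fun i => ?_) i
    · exact Or.inl rfl
    · exact h.pe i
  pinj := by
    rw [Fin.cons_injective_iff]
    refine ⟨?_, h.pinj⟩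
    rintro ⟨i, hi⟩
    apply hqn
    rw [← hi, h.eq]
    refine Dvd.dvd.mul_right ?_ _
    have h1 : p i ^ e i ∣ ∏ i, p i ^ e i := Finset.dvd_prod_of_mem _ (Finset.mem_univ i)
    refine (dvd_pow_self _ ?_).trans h1
    have := h.pe i
    omega
  rp := h.rp
  r2 := h.r2
  rf := h.rf
  rinj := h.rinj
  eq := by
    rw [Fin.prod_univ_succ]
    simp only [Fin.cons_zero, Fin.cons_succ, pow_one]
    rw [h.eq]
    ring

theorem n_ne0 (h : NF n π p e r f) : (n : Eis) ≠ 0 := by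
  intro h0
  have := congrArg Eis.re h0
  simp only [natCast_re, zero_re] at this
  exact n_ne h (by exact_mod_cast this)

/-- the primes dividing `n` -/
theorem cls (hSPP : SPP) (h : NF n π p e r f) {l : Eis} (hl : Prime l) (hd : l ∣ (n : Eis)) :
    (∃ i, Associated l (π i).1 ∨ Associated l (conj (π i).1)) ∨
      ∃ j, Associated l (r j : Eis) := by
  rw [h.eq] at hd
  push_cast at hd
  rcases hl.dvd_or_dvd hd with hd | hd
  · obtain ⟨i, -, hi⟩ := hl.exists_mem_finset_dvd hd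
    have h2 := hl.dvd_of_dvd_pow hi
    rw [h.pπ i] at h2
    left
    refine ⟨i, ?_⟩
    rcases hl.dvd_or_dvd h2 with h3 | h3
    · exact Or.inl (hl.associated_of_dvd (π i).2.1 h3)
    · exact Or.inr (hl.associated_of_dvd (prime_conj (π i).2.1) h3)
  · obtain ⟨j, -, hj⟩ := hl.exists_mem_finset_dvd hd
    have h2 := hl.dvd_of_dvd_pow hj
    exact Or.inr ⟨j, hl.associated_of_dvd (inert hSPP (h.rp j) (h.r2 j)).1 h2⟩

theorem e_sq (h : NF n π p e r f) (i : Fin m) : (e i : ZMod 3) * (e i : ZMod 3) = 1 := by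
  rcases h.pe i with h1 | h1 <;> rw [h1] <;> decide

/-- the local terms at a split pair -/
theorem pair (hSPP : SPP) (hSCJ : SCJ) (h : NF n π p e r f) {z t : Eis} (hz : z ≠ 0)
    (hzt : z * conj z = t ^ 3) (htm : ∀ σ : PP, tm σ.1 z (n : Eis) = 0) (i : Fin m) (x : ℤ)
    (hx : x ≠ 0) :
    tm (π i).1 z (x : Eis) + tm (conj (π i).1) z (x : Eis) =
      (e i : ZMod 3) * (V (π i).1 z : ZMod 3) * tm (π i).1 (x : Eis) (n : Eis) := by
  have hx0 : (x : Eis) ≠ 0 := by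
    intro h0
    have := congrArg Eis.re h0
    simp only [intCast_re, zero_re] at this
    exact hx this
  have h3 := (hSPP.2.2.2.1 (π i)).1
  obtain ⟨κ, hκ⟩ := (hSPP.2.2.2.1 (π i)).2
  have hA := htm (π i)
  have hA' := htm κ
  rw [hκ] at hA'
  have hc := hSCJ.1 (π i).1 (x : Eis) (n : Eis) (π i).2.1 h3 hx0 (n_ne0 h)
  rw [conj_intCast, conj_natCast] at hc
  have hVn : V (π i).1 (n : Eis) = e i := V_n_i hSPP h i
  have hVn' : V (conj (π i).1) (n : Eis) = e i := by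
    have h1 := V_conj (π i).2.1 (n_ne0 h)
    rw [conj_natCast, hVn] at h1
    exact h1
  have hV : ((V (π i).1 z + V (conj (π i).1) z : ℕ) : ZMod 3) = 0 :=
    (ZMod.natCast_eq_zero_iff _ 3).2 (V_add_conj (π i).2.1 hz hzt)
  push_cast at hV
  have hE := e_sq h i
  unfold tm at hA hA' hc ⊢
  rw [hVn] at hA hc ⊢
  rw [hVn'] at hA' hc
  have h0 := three_zero ((e i : ZMod 3) * (V (π i).1 z : ZMod 3) *
    ((e i : ZMod 3) * ch (π i).1 (x : Eis) - (V (π i).1 (x : Eis) : ZMod 3) *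
      ch (π i).1 (n : Eis)))
  generalize (V (π i).1 z : ZMod 3) = v at *
  generalize (V (conj (π i).1) z : ZMod 3) = v' at *
  generalize (e i : ZMod 3) = E at *
  generalize (V (π i).1 (x : Eis) : ZMod 3) = a at *
  generalize (V (conj (π i).1) (x : Eis) : ZMod 3) = a' at *
  generalize ch (π i).1 z = cz at *
  generalize ch (conj (π i).1) z = cz' at *
  generalize ch (π i).1 (x : Eis) = cx at *
  generalize ch (conj (π i).1) (x : Eis) = cx' at *
  generalize ch (π i).1 (n : Eis) = cn at *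
  generalize ch (conj (π i).1) (n : Eis) = cn' at *
  linear_combination (exp := 1) E * a * hA + E * a' * hA' - (a * cz - v * cx) * hE -
    (a' * cz' - v' * cx') * hE - h0 + v' * E * hc * (-1) +
    E * (E * cx - a * cn) * hV

/-- the local terms at the other places -/
theorem other (hSPP : SPP) (h : NF n π p e r f) {z t : Eis} (hz : z ≠ 0)
    (hzt : z * conj z = t ^ 3) (htm : ∀ σ : PP, tm σ.1 z (n : Eis) = 0)
    (hun : ∀ σ : PP, ¬ σ.1 ∣ (n : Eis) → 3 ∣ V σ.1 z) (x : ℤ)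
    (hxn : ∀ σ : PP, σ.1 ∣ (x : Eis) → σ.1 ∣ (n : Eis)) (σ : PP)
    (h1 : ∀ i, ¬ Associated σ.1 (π i).1) (h2 : ∀ i, ¬ Associated σ.1 (conj (π i).1)) :
    tm σ.1 z (x : Eis) = 0 := by
  by_cases hd : σ.1 ∣ (n : Eis)
  · rcases cls hSPP h σ.2.1 hd with ⟨i, h3 | h3⟩ | ⟨j, h3⟩
    · exact absurd h3 (h1 i)
    · exact absurd h3 (h2 i)
    · have hj := inert hSPP (h.rp j) (h.r2 j)
      have h4 : 3 ∣ V σ.1 z := by
        rw [V_assoc h3]
        exact self_conj hj.1 (by rw [conj_natCast]) hz hzt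
      have h5 := htm σ
      unfold tm at h5 ⊢
      rw [(ZMod.natCast_eq_zero_iff _ 3).2 h4, zero_mul, sub_zero] at h5 ⊢
      have hf : (f j : ZMod 3) ≠ 0 := by
        rcases h.rf j with h10 | h10 <;> rw [h10] <;> decide
      have : Fact (Nat.Prime 3) := ⟨Nat.prime_three⟩
      rw [V_assoc h3, V_n_j hSPP h] at h5
      rw [(mul_eq_zero.1 h5).resolve_left hf, mul_zero]
  · unfold tm
    rw [V_eq_zero fun h3 => hd (hxn σ h3), (ZMod.natCast_eq_zero_iff _ 3).2 (hun σ hd)]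
    simp

/-- the sum of the local terms -/
theorem finsum_tm (hSPP : SPP) (hSCJ : SCJ) (h : NF n π p e r f) {z t : Eis} (hz : z ≠ 0)
    (hzt : z * conj z = t ^ 3) (htm : ∀ σ : PP, tm σ.1 z (n : Eis) = 0)
    (hun : ∀ σ : PP, ¬ σ.1 ∣ (n : Eis) → 3 ∣ V σ.1 z) (x : ℤ) (hx : x ≠ 0)
    (hxn : ∀ σ : PP, σ.1 ∣ (x : Eis) → σ.1 ∣ (n : Eis)) :
    ∑ᶠ σ : PP, tm σ.1 z (x : Eis) =
      ∑ i, (e i : ZMod 3) * (V (π i).1 z : ZMod 3) * tm (π i).1 (x : Eis) (n : Eis) := by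
  classical
  choose κ hκ using fun i => (hSPP.2.2.2.1 (π i)).2
  have hg : Function.Injective (Sum.elim π κ) := by
    rintro (i | i) (j | j) hij
    · have h1 : π i = π j := hij
      rw [assoc_iff h i j (by rw [h1])]
    · have h1 : π i = κ j := hij
      exact absurd (by rw [h1, hκ j]) (not_assoc h i j)
    · have h1 : κ i = π j := hij
      exact absurd (by rw [← h1, hκ i]) (not_assoc h j i)
    · have h1 : κ i = κ j := hij
      have h2 : conj (π i).1 = conj (π j).1 := by rw [← hκ i, ← hκ j, h1]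
      have h3 : (π i).1 = (π j).1 := by rw [← conj_conj (π i).1, h2, conj_conj]
      rw [assoc_iff h i j (by rw [h3])]
  have hsup : Function.support (fun σ : PP => tm σ.1 z (x : Eis)) ⊆
      ((Finset.univ.image (Sum.elim π κ) : Finset PP) : Set PP) := by
    intro σ hσ
    by_contra hn
    apply hσ
    have hn' : ∀ y, Sum.elim π κ y ≠ σ := by
      intro y hy
      apply hn
      rw [Finset.mem_coe, Finset.mem_image]
      exact ⟨y, Finset.mem_univ _, hy⟩
    refine other hSPP h hz hzt htm hun x hxn σ (fun i hi => ?_) fun i hi => ?_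
    · exact hn' (Sum.inl i) (hSPP.2.1 _ _ hi.symm)
    · exact hn' (Sum.inr i) (hSPP.2.1 _ _ (by
        change Associated (κ i).1 σ.1
        rw [hκ i]
        exact hi.symm))
  rw [finsum_eq_sum_of_support_subset _ hsup, Finset.sum_image fun a _ b _ hab => hg hab,
    Fintype.sum_sum_type, ← Finset.sum_add_distrib]
  refine Finset.sum_congr rfl fun i _ => ?_
  rw [← pair hSPP hSCJ h hz hzt htm i x hx]
  change tm (π i).1 z (x : Eis) + tm (κ i).1 z (x : Eis) = _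
  rw [hκ i]

end

/-- a rational integer supported on `n` -/
theorem supp (hSPP : SPP) {n : ℕ} {x : ℤ} (hs : ∀ l : ℕ, l.Prime → (l : ℤ) ∣ x → l ∣ n)
    (σ : PP) (hd : σ.1 ∣ (x : Eis)) : σ.1 ∣ (n : Eis) := by
  obtain ⟨l, hl, h1⟩ := hSPP.2.2.2.2.2 σ
  have h2 : (l : ℤ) ∣ σ.1.norm := by
    rcases h1 with ⟨-, h1⟩ | ⟨-, h1, -⟩
    · rw [h1, norm_natCast]
      exact dvd_pow_self _ (by norm_num)
    · rw [h1]
  have h3 : (l : ℤ) ∣ x ^ 2 := by
    refine h2.trans ?_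
    obtain ⟨y, hy⟩ := hd
    rw [← norm_intCast, hy, norm_mul]
    exact dvd_mul_right _ _
  have h4 : (l : ℤ) ∣ x := (Nat.prime_iff_prime_int.1 hl).dvd_of_dvd_pow h3
  have h5 : (l : Eis) ∣ (n : Eis) := by
    obtain ⟨y, hy⟩ := hs l hl h4
    exact ⟨(y : Eis), by rw [hy]; push_cast; rfl⟩
  refine Dvd.dvd.trans ?_ h5
  rcases h1 with ⟨-, h1⟩ | ⟨-, -, h1, -⟩
  · rw [h1]
  · rw [h1]
    exact dvd_mul_right _ _

end HYPS

open _root_.Pool.Agent.PTE.HYPS in
/-- HYPS -/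
theorem HYPS_thm (_hSTM : STM) (hSPP : SPP) (hSSL : SSL) (hSREC : SREC) (hSCJ : SCJ)
    (_hSPLT : SPLT) : HYPS := by
  intro n m k π p e r f w0 c q ρ y h hq hcl hqn hρ hw0 hdet hy hsy z t hz hzt htm hun
  obtain ⟨hq1, hq9, hqs⟩ := hcl
  have h' := ext h ρ hq hq1 hqn hρ
  have hB : (((n : ℤ) * q : ℤ) : Eis) = ((n * q : ℕ) : Eis) := by push_cast; rfl
  rw [hB] at htm hun
  have hB2 : ((n * q : ℕ) : Eis) = (n : Eis) * (q : Eis) := by push_cast; rfl
  have hn0 := n_ne0 h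
  have hB0 := n_ne0 h'
  have hq0 : (q : Eis) ≠ 0 := fun h0 => hB0 (by rw [hB2, h0, mul_zero])
  have h3n := three_n h
  have hun2 : ∀ σ : PP, ¬ σ.1 ∣ ((((n * q : ℕ) : ℤ) * (2 : ℕ) : ℤ) : Eis) → 3 ∣ V σ.1 z := by
    intro σ hσ
    refine hun σ fun h1 => hσ ?_
    push_cast
    rw [hB2] at h1
    exact Dvd.dvd.mul_right h1 _
  obtain ⟨a, hF, hcube⟩ := decomp hSPP h' Nat.prime_two rfl hz hzt hun2
  have h3 : ∀ i, ¬ (π i).1 ∣ 3 := fun i => (hSPP.2.2.2.1 (π i)).1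
  have hP : ∀ σ : PP, Prim σ.1 := fun σ => ⟨σ.2.2.2, by
    have := σ.2.2.1
    omega⟩
  have hPB : Prim ((n * q : ℕ) : Eis) := by
    refine ⟨by simp, ?_⟩
    rw [natCast_re]
    intro h4
    have h5 : 3 ∣ n * q := by exact_mod_cast h4
    rcases (Nat.prime_three.dvd_mul).1 h5 with h5 | h5
    · exact h3n h5
    · omega
  -- the unit
  have ha : (a : ZMod 3) = 0 := by
    have hsl : sl z ((n * q : ℕ) : Eis) = 0 := by
      unfold sl
      rw [finsum_eq_zero_of_forall_eq_zero fun π => htm π, neg_zero]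
    have h2 := hF _ (add3_sl hSSL hB0)
    have h4 : ∀ σ : PP, sl σ.1 ((n * q : ℕ) : Eis) = 0 := fun σ => hSREC.1 _ _ (hP σ) hPB
    have h5 : ∀ σ : PP, sl (conj σ.1) ((n * q : ℕ) : Eis) = 0 := fun σ =>
      hSREC.1 _ _ (hP σ).conj hPB
    simp only [h4, h5, sub_zero, mul_zero, Finset.sum_const_zero, add_zero] at h2
    rw [hsl, hSSL.2.1 _ w hB0 w_ne, hSREC.2.1 _ hPB] at h2
    have h6 : wt ((n * q : ℕ) : Eis).norm = wt ((n : ℤ) ^ 2) + w0 := by
      rw [← hq9, ← wt_mul]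
      · rw [norm_natCast]
        push_cast
        rw [mul_pow]
      · exact sq_mod_three fun h7 => h3n (by exact_mod_cast h7)
      · refine sq_mod_three fun h7 => ?_
        have h8 : 3 ∣ q := by exact_mod_cast h7
        omega
    rw [← h6] at hw0
    have h8 : (a : ZMod 3) * wt ((n * q : ℕ) : Eis).norm = 0 := by linear_combination h2
    have : Fact (Nat.Prime 3) := ⟨Nat.prime_three⟩
    exact (mul_eq_zero.1 h8).resolve_right hw0
  -- the product formula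
  have key : ∀ x : ℤ, x ≠ 0 → ¬ (3 : ℤ) ∣ x → (∀ σ : PP, σ.1 ∣ (x : Eis) → σ.1 ∣ (n : Eis)) →
      (V ρ.1 z : ZMod 3) * tm ρ.1 (x : Eis) ((n * q : ℕ) : Eis) +
        ∑ i, (e i : ZMod 3) * (V (π i).1 z : ZMod 3) *
          tm (π i).1 (x : Eis) ((n * q : ℕ) : Eis) = 0 := by
    intro x hx hx3 hxn
    have hx0 : (x : Eis) ≠ 0 := by
      intro h0
      have := congrArg Eis.re h0
      simp only [intCast_re, zero_re] at this
      exact hx this
    have hPx : Prim (x : Eis) := ⟨by simp, by rwa [intCast_re]⟩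
    have h2 := hF _ (add3_sl hSSL hx0)
    have h4 : ∀ σ : PP, sl σ.1 (x : Eis) = 0 := fun σ => hSREC.1 _ _ (hP σ) hPx
    have h5 : ∀ σ : PP, sl (conj σ.1) (x : Eis) = 0 := fun σ => hSREC.1 _ _ (hP σ).conj hPx
    simp only [h4, h5, sub_zero, mul_zero, Finset.sum_const_zero, add_zero, ha, zero_mul] at h2
    have h6 := finsum_tm hSPP hSCJ h' hz hzt htm hun x hx fun σ hσ => by
      rw [hB2]
      exact Dvd.dvd.mul_right (hxn σ hσ) _
    rw [Fin.sum_univ_succ] at h6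
    simp only [Fin.cons_zero, Fin.cons_succ, Nat.cast_one, one_mul] at h6
    rw [← h6]
    unfold sl at h2
    rwa [neg_eq_zero] at h2
  have hi : ∀ i, Prime (π i).1 := fun i => (π i).2.1
  have hqi : ∀ i, ¬ (π i).1 ∣ (q : Eis) := fun i h5 => by
    rw [hρ] at h5
    have h6 := not_assoc h' i.succ 0
    have h7 := mt (assoc_iff h' i.succ 0) (Fin.succ_ne_zero i)
    simp only [Fin.cons_zero, Fin.cons_succ] at h6 h7
    rcases (hi i).dvd_or_dvd h5 with h5 | h5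
    · exact h7 ((hi i).associated_of_dvd ρ.2.1 h5)
    · exact h6 ((hi i).associated_of_dvd (prime_conj ρ.2.1) h5)
  have hVB : ∀ i, V (π i).1 ((n * q : ℕ) : Eis) = e i := fun i => by
    rw [hB2, V_mul (hi i) hn0 hq0, V_n_i hSPP h, V_eq_zero (hqi i), add_zero]
  have hcB : ∀ i, ch (π i).1 ((n * q : ℕ) : Eis) = ch (π i).1 (n : Eis) + c i := fun i => by
    rw [hB2, ch_mul (hi i) (h3 i) hn0 hq0, ch_of_not_dvd (hi i) (hqi i), hqs i]
  have hρn : ¬ ρ.1 ∣ (n : Eis) := by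
    intro h1
    rcases cls hSPP h ρ.2.1 h1 with ⟨i, h2 | h2⟩ | ⟨j, h2⟩
    · have h7 := mt (assoc_iff h' 0 i.succ) (Fin.succ_ne_zero i).symm
      simp only [Fin.cons_zero, Fin.cons_succ] at h7
      exact h7 h2
    · have h6 := not_assoc h' 0 i.succ
      simp only [Fin.cons_zero, Fin.cons_succ] at h6
      exact h6 h2
    · have h6 := not_assoc_nat h' 0 (r j)
      simp only [Fin.cons_zero] at h6
      exact h6 h2
  have hVρB : V ρ.1 ((n * q : ℕ) : Eis) = 1 := by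
    have h1 := V_n_i hSPP h' 0
    simpa only [Fin.cons_zero] using h1
  have htmρ : ∀ x : ℤ, ¬ ρ.1 ∣ (x : Eis) →
      tm ρ.1 (x : Eis) ((n * q : ℕ) : Eis) = sym ρ.1 (x : Eis) := by
    intro x hx
    unfold tm
    rw [hVρB, V_eq_zero hx, ch_of_not_dvd ρ.2.1 hx]
    simp
  have : Fact (Nat.Prime 3) := ⟨Nat.prime_three⟩
  -- the prime above `q`
  have hy2 := supp hSPP hy.supp
  have hV0 : (V ρ.1 z : ZMod 3) = 0 := by
    have h1 := key y hy.ne hy.three hy2
    have h2 : ∀ i, (e i : ZMod 3) * (V (π i).1 z : ZMod 3) *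
        tm (π i).1 (y : Eis) ((n * q : ℕ) : Eis) = 0 := by
      intro i
      have h4 := hy.sym i
      rw [V_n_i hSPP h, ← hcB i] at h4
      unfold tm
      rw [hVB i, h4, mul_zero]
    rw [Finset.sum_congr rfl fun i _ => h2 i, Finset.sum_const_zero, add_zero,
      htmρ y fun h4 => hρn (hy2 ρ h4)] at h1
    exact (mul_eq_zero.1 h1).resolve_right hsy
  -- the other primes
  have hVi : ∀ i, (V (π i).1 z : ZMod 3) = 0 := by
    have hpn : ∀ i, (p i : Eis) ∣ (n : Eis) := fun i => by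
      have h1 : p i ∣ n := by
        rw [h.eq]
        refine Dvd.dvd.mul_right ?_ _
        have h1 : p i ^ e i ∣ ∏ i, p i ^ e i := Finset.dvd_prod_of_mem _ (Finset.mem_univ i)
        refine (dvd_pow_self _ ?_).trans h1
        have := h.pe i
        omega
      obtain ⟨d, hd⟩ := h1
      exact ⟨(d : Eis), by rw [hd]; push_cast; rfl⟩
    have hvec : Matrix.vecMul
        (Fin.cons 0 fun i => (e i : ZMod 3) * (V (π i).1 z : ZMod 3) : Fin (m + 1) → ZMod 3)
        (Mp n π p e r none c) = 0 := by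
      funext b
      refine Fin.cases ?_ (fun i' => ?_) b
      · simp [Matrix.vecMul, dotProduct, Mp, Fin.sum_univ_succ]
      · have h1 : Matrix.vecMul
            (Fin.cons 0 fun i => (e i : ZMod 3) * (V (π i).1 z : ZMod 3) : Fin (m + 1) → ZMod 3)
            (Mp n π p e r none c) i'.succ = ∑ i, (e i : ZMod 3) * (V (π i).1 z : ZMod 3) *
              (if i' = i then
                (e i : ZMod 3) * sym (π i).1 (conj (π i).1) - ch (π i).1 (n : Eis) - c i
              else (e i : ZMod 3) * sym (π i).1 (p i' : Eis)) := by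
          simp [Matrix.vecMul, dotProduct, Mp, Fin.sum_univ_succ]
        rw [h1, Pi.zero_apply]
        have h2 := key (p i') (by exact_mod_cast (h.pp i').ne_zero) (by
          intro h4
          have h5 : 3 ∣ p i' := by exact_mod_cast h4
          have := h.p1 i'
          omega) (fun σ hσ => by
          rw [Int.cast_natCast] at hσ
          exact hσ.trans (hpn i'))
        rw [hV0, zero_mul, zero_add] at h2
        rw [← h2]
        refine Finset.sum_congr rfl fun i _ => ?_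
        congr 1
        rw [Int.cast_natCast]
        unfold tm
        rw [hVB i, hcB i]
        split_ifs with hii
        · subst hii
          have hcj : ¬ (π i').1 ∣ conj (π i').1 := fun h5 =>
            not_assoc h i' i' ((hi i').associated_of_dvd (prime_conj (π i').2.1) h5)
          rw [h.pπ i', V_mul (hi i') (hi i').ne_zero (prime_conj (π i').2.1).ne_zero, V_self,
            V_eq_zero hcj, ch_mul (hi i') (h3 i') (hi i').ne_zero
              (prime_conj (π i').2.1).ne_zero, ch_self (hi i') (h3 i'),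
            ch_of_not_dvd (hi i') hcj]
          push_cast
          ring
        · have hnd : ¬ (π i).1 ∣ (p i' : Eis) := by
            rw [h.pπ i']
            intro h5
            rcases (hi i).dvd_or_dvd h5 with h5 | h5
            · exact hii (assoc_iff h i i' ((hi i).associated_of_dvd (π i').2.1 h5)).symm
            · exact not_assoc h i i' ((hi i).associated_of_dvd (prime_conj (π i').2.1) h5)
          rw [V_eq_zero hnd, ch_of_not_dvd (hi i) hnd]
          push_cast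
          ring
    have hx := Matrix.eq_zero_of_vecMul_eq_zero hdet hvec
    intro i
    have h1 := congrFun hx i.succ
    simp only [Fin.cons_succ, Pi.zero_apply] at h1
    refine (mul_eq_zero.1 h1).resolve_left fun h2 => ?_
    have h4 := e_sq h i
    rw [h2, mul_zero] at h4
    exact zero_ne_one h4
  refine hcube ha fun i => ?_
  refine Fin.cases ?_ (fun i => ?_) i
  · exact hV0
  · exact hVi i

end Pool.Agent.PTE

end

section

/-!
# HYP0: the minus part of the Selmer group is trivial, `3` does not divide `n`, twists by primes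
`= 2 (mod 3)`
-/

set_option autoImplicit false

namespace Pool.Agent.PT3

open Pool.Agent.Lib_helper18 Pool.Agent.Lib_helper18.Eis Pool.Agent.Lib_helper84.Cub
open Pool.Agent.PT Pool.Agent.PT.EHYP Pool.Agent.PTE Pool.Agent.PTE.HYPS

namespace HYP0

/-- the extended normal form -/
theorem ext0 {n m k : ℕ} {π : Fin m → PP} {p e : Fin m → ℕ} {r f : Fin k → ℕ}
    (h : NF n π p e r f) {q : ℕ} (hq : q.Prime) (hq2 : q % 3 = 2) (hqn : ¬ q ∣ n) :
    NF (n * q) π p e (Fin.cons q r : Fin (k + 1) → ℕ) (Fin.cons 1 f : Fin (k + 1) → ℕ) where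
  pp := h.pp
  p1 := h.p1
  pπ := h.pπ
  pe := h.pe
  pinj := h.pinj
  rp j := by
    refine Fin.cases ?_ (fun j => ?_) j
    · exact hq
    · exact h.rp j
  r2 j := by
    refine Fin.cases ?_ (fun j => ?_) j
    · exact hq2
    · exact h.r2 j
  rf j := by
    refine Fin.cases ?_ (fun j => ?_) j
    · exact Or.inl rfl
    · exact h.rf j
  rinj := by
    rw [Fin.cons_injective_iff]
    refine ⟨?_, h.rinj⟩
    rintro ⟨j, hj⟩
    apply hqn
    rw [← hj, h.eq]
    refine Dvd.dvd.mul_left ?_ _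
    have h1 : r j ^ f j ∣ ∏ j, r j ^ f j := Finset.dvd_prod_of_mem _ (Finset.mem_univ j)
    refine (dvd_pow_self _ ?_).trans h1
    have := h.rf j
    omega
  eq := by
    rw [Fin.prod_univ_succ]
    simp only [Fin.cons_zero, Fin.cons_succ, pow_one]
    rw [h.eq]
    ring

end HYP0

open _root_.Pool.Agent.PT3.HYP0 in
/-- HYP0 -/
theorem HYP0_thm (_hSTM : STM) (hSPP : SPP) (hSSL : SSL) (hSREC : SREC) (hSCJ : SCJ) :
    HYP0 := by
  intro n m k π p e r f w0 c q h hq hcl hqn hw0 hdet z t hz hzt htm hun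
  obtain ⟨hq1, hq9, hqs⟩ := hcl
  have h' := ext0 h hq hq1 hqn
  have hB : (((n : ℤ) * q : ℤ) : Eis) = ((n * q : ℕ) : Eis) := by push_cast; rfl
  rw [hB] at htm hun
  have hB2 : ((n * q : ℕ) : Eis) = (n : Eis) * (q : Eis) := by push_cast; rfl
  have hn0 := n_ne0 h
  have hB0 := n_ne0 h'
  have hq0 : (q : Eis) ≠ 0 := fun h0 => hB0 (by rw [hB2, h0, mul_zero])
  have h3n := three_n h
  have hun2 : ∀ σ : PP, ¬ σ.1 ∣ ((((n * q : ℕ) : ℤ) * (2 : ℕ) : ℤ) : Eis) → 3 ∣ V σ.1 z := by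
    intro σ hσ
    refine hun σ fun h1 => hσ ?_
    push_cast
    rw [hB2] at h1
    exact Dvd.dvd.mul_right h1 _
  obtain ⟨a, hF, hcube⟩ := decomp hSPP h' Nat.prime_two rfl hz hzt hun2
  have h3 : ∀ i, ¬ (π i).1 ∣ 3 := fun i => (hSPP.2.2.2.1 (π i)).1
  have hP : ∀ σ : PP, Prim σ.1 := fun σ => ⟨σ.2.2.2, by
    have := σ.2.2.1
    omega⟩
  have hPB : Prim ((n * q : ℕ) : Eis) := by
    refine ⟨by simp, ?_⟩
    rw [natCast_re]
    intro h4
    have h5 : 3 ∣ n * q := by exact_mod_cast h4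
    rcases (Nat.prime_three.dvd_mul).1 h5 with h5 | h5
    · exact h3n h5
    · omega
  -- the unit
  have ha : (a : ZMod 3) = 0 := by
    have hsl : sl z ((n * q : ℕ) : Eis) = 0 := by
      unfold sl
      rw [finsum_eq_zero_of_forall_eq_zero fun π => htm π, neg_zero]
    have h2 := hF _ (add3_sl hSSL hB0)
    have h4 : ∀ σ : PP, sl σ.1 ((n * q : ℕ) : Eis) = 0 := fun σ => hSREC.1 _ _ (hP σ) hPB
    have h5 : ∀ σ : PP, sl (conj σ.1) ((n * q : ℕ) : Eis) = 0 := fun σ =>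
      hSREC.1 _ _ (hP σ).conj hPB
    simp only [h4, h5, sub_zero, mul_zero, Finset.sum_const_zero, add_zero] at h2
    rw [hsl, hSSL.2.1 _ w hB0 w_ne, hSREC.2.1 _ hPB] at h2
    have h6 : wt ((n * q : ℕ) : Eis).norm = wt ((n : ℤ) ^ 2) + w0 := by
      rw [← hq9, ← wt_mul]
      · rw [norm_natCast]
        push_cast
        rw [mul_pow]
      · exact sq_mod_three fun h7 => h3n (by exact_mod_cast h7)
      · refine sq_mod_three fun h7 => ?_
        have h8 : 3 ∣ q := by exact_mod_cast h7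
        omega
    rw [← h6] at hw0
    have h8 : (a : ZMod 3) * wt ((n * q : ℕ) : Eis).norm = 0 := by linear_combination h2
    have : Fact (Nat.Prime 3) := ⟨Nat.prime_three⟩
    exact (mul_eq_zero.1 h8).resolve_right hw0
  -- the product formula
  have key : ∀ x : ℤ, x ≠ 0 → ¬ (3 : ℤ) ∣ x → (∀ σ : PP, σ.1 ∣ (x : Eis) → σ.1 ∣ (n : Eis)) →
      ∑ i, (e i : ZMod 3) * (V (π i).1 z : ZMod 3) *
          tm (π i).1 (x : Eis) ((n * q : ℕ) : Eis) = 0 := by
    intro x hx hx3 hxn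
    have hx0 : (x : Eis) ≠ 0 := by
      intro h0
      have := congrArg Eis.re h0
      simp only [intCast_re, zero_re] at this
      exact hx this
    have hPx : Prim (x : Eis) := ⟨by simp, by rwa [intCast_re]⟩
    have h2 := hF _ (add3_sl hSSL hx0)
    have h4 : ∀ σ : PP, sl σ.1 (x : Eis) = 0 := fun σ => hSREC.1 _ _ (hP σ) hPx
    have h5 : ∀ σ : PP, sl (conj σ.1) (x : Eis) = 0 := fun σ => hSREC.1 _ _ (hP σ).conj hPx
    simp only [h4, h5, sub_zero, mul_zero, Finset.sum_const_zero, add_zero, ha, zero_mul] at h2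
    have h6 := finsum_tm hSPP hSCJ h' hz hzt htm hun x hx fun σ hσ => by
      rw [hB2]
      exact Dvd.dvd.mul_right (hxn σ hσ) _
    rw [← h6]
    unfold sl at h2
    rwa [neg_eq_zero] at h2
  have hi : ∀ i, Prime (π i).1 := fun i => (π i).2.1
  have hqi : ∀ i, ¬ (π i).1 ∣ (q : Eis) := fun i h5 => by
    have h6 : ¬ Associated (π i).1 (q : Eis) := not_assoc_nat h' i q
    exact h6 ((hi i).associated_of_dvd (inert hSPP hq hq1).1 h5)
  have hVB : ∀ i, V (π i).1 ((n * q : ℕ) : Eis) = e i := fun i => by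
    rw [hB2, V_mul (hi i) hn0 hq0, V_n_i hSPP h, V_eq_zero (hqi i), add_zero]
  have hcB : ∀ i, ch (π i).1 ((n * q : ℕ) : Eis) = ch (π i).1 (n : Eis) + c i := fun i => by
    rw [hB2, ch_mul (hi i) (h3 i) hn0 hq0, ch_of_not_dvd (hi i) (hqi i), hqs i]
  have : Fact (Nat.Prime 3) := ⟨Nat.prime_three⟩
  -- the other primes
  have hVi : ∀ i, (V (π i).1 z : ZMod 3) = 0 := by
    have hpn : ∀ i, (p i : Eis) ∣ (n : Eis) := fun i => by
      have h1 : p i ∣ n := by
        rw [h.eq]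
        refine Dvd.dvd.mul_right ?_ _
        have h1 : p i ^ e i ∣ ∏ i, p i ^ e i := Finset.dvd_prod_of_mem _ (Finset.mem_univ i)
        refine (dvd_pow_self _ ?_).trans h1
        have := h.pe i
        omega
      obtain ⟨d, hd⟩ := h1
      exact ⟨(d : Eis), by rw [hd]; push_cast; rfl⟩
    have hvec : Matrix.vecMul
        (Fin.cons 0 fun i => (e i : ZMod 3) * (V (π i).1 z : ZMod 3) : Fin (m + 1) → ZMod 3)
        (Mp n π p e r none c) = 0 := by
      funext b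
      refine Fin.cases ?_ (fun i' => ?_) b
      · simp [Matrix.vecMul, dotProduct, Mp, Fin.sum_univ_succ]
      · have h1 : Matrix.vecMul
            (Fin.cons 0 fun i => (e i : ZMod 3) * (V (π i).1 z : ZMod 3) : Fin (m + 1) → ZMod 3)
            (Mp n π p e r none c) i'.succ = ∑ i, (e i : ZMod 3) * (V (π i).1 z : ZMod 3) *
              (if i' = i then
                (e i : ZMod 3) * sym (π i).1 (conj (π i).1) - ch (π i).1 (n : Eis) - c i
              else (e i : ZMod 3) * sym (π i).1 (p i' : Eis)) := by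
          simp [Matrix.vecMul, dotProduct, Mp, Fin.sum_univ_succ]
        rw [h1, Pi.zero_apply]
        have h2 := key (p i') (by exact_mod_cast (h.pp i').ne_zero) (by
          intro h4
          have h5 : 3 ∣ p i' := by exact_mod_cast h4
          have := h.p1 i'
          omega) (fun σ hσ => by
          rw [Int.cast_natCast] at hσ
          exact hσ.trans (hpn i'))
        rw [← h2]
        refine Finset.sum_congr rfl fun i _ => ?_
        congr 1
        rw [Int.cast_natCast]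
        unfold tm
        rw [hVB i, hcB i]
        split_ifs with hii
        · subst hii
          have hcj : ¬ (π i').1 ∣ conj (π i').1 := fun h5 =>
            not_assoc h i' i' ((hi i').associated_of_dvd (prime_conj (π i').2.1) h5)
          rw [h.pπ i', V_mul (hi i') (hi i').ne_zero (prime_conj (π i').2.1).ne_zero, V_self,
            V_eq_zero hcj, ch_mul (hi i') (h3 i') (hi i').ne_zero
              (prime_conj (π i').2.1).ne_zero, ch_self (hi i') (h3 i'),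
            ch_of_not_dvd (hi i') hcj]
          push_cast
          ring
        · have hnd : ¬ (π i).1 ∣ (p i' : Eis) := by
            rw [h.pπ i']
            intro h5
            rcases (hi i).dvd_or_dvd h5 with h5 | h5
            · exact hii (assoc_iff h i i' ((hi i).associated_of_dvd (π i').2.1 h5)).symm
            · exact not_assoc h i i' ((hi i).associated_of_dvd (prime_conj (π i').2.1) h5)
          rw [V_eq_zero hnd, ch_of_not_dvd (hi i) hnd]
          push_cast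
          ring
    have hx := Matrix.eq_zero_of_vecMul_eq_zero hdet hvec
    intro i
    have h1 := congrFun hx i.succ
    simp only [Fin.cons_succ, Pi.zero_apply] at h1
    refine (mul_eq_zero.1 h1).resolve_left fun h2 => ?_
    have h4 := e_sq h i
    rw [h2, mul_zero] at h4
    exact zero_ne_one h4
  exact hcube ha hVi

end Pool.Agent.PT3

end

section

/-!
# HYPT: the minus part of the Selmer group is trivial, `B = 3^h n q^E`, `q = 2 (mod 3)`
-/

set_option autoImplicit false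

namespace Pool.Agent.PT3

open Pool.Agent.Lib_helper18 Pool.Agent.Lib_helper18.Eis Pool.Agent.Lib_helper84.Cub
open Pool.Agent.PT Pool.Agent.PTE Pool.Agent.PT.EHYP

namespace HYPT

/-- a family of split primes of `B` with their valuations; all other primes of `B` are inert -/
structure Dat (B : ℤ) {M : ℕ} (π : Fin M → PP) (e : Fin M → ℕ) : Prop where
  ne : B ≠ 0
  e12 : ∀ i, e i = 1 ∨ e i = 2
  vB : ∀ i, V (π i).1 (B : Eis) = e i
  nc : ∀ i j, ¬ Associated (π i).1 (conj (π j).1)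
  inj : ∀ i j, Associated (π i).1 (π j).1 → i = j
  cls : ∀ σ : PP, σ.1 ∣ (B : Eis) →
    (∃ i, Associated σ.1 (π i).1 ∨ Associated σ.1 (conj (π i).1)) ∨
      (Associated (conj σ.1) σ.1 ∧ ¬ 3 ∣ V σ.1 (B : Eis))

theorem int_ne {x : ℤ} (hx : x ≠ 0) : (x : Eis) ≠ 0 := by
  intro h0
  have := congrArg Eis.re h0
  simp only [intCast_re, zero_re] at this
  exact hx this

section

variable {B : ℤ} {M : ℕ} {π : Fin M → PP} {e : Fin M → ℕ}

theorem e_sq (h : Dat B π e) (i : Fin M) : (e i : ZMod 3) * (e i : ZMod 3) = 1 := by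
  rcases h.e12 i with h1 | h1 <;> rw [h1] <;> decide

/-- the local terms at a split pair -/
theorem pair (hSPP : SPP) (hSCJ : SCJ) (h : Dat B π e) {z t : Eis} (hz : z ≠ 0)
    (hzt : z * conj z = t ^ 3) (htm : ∀ σ : PP, tm σ.1 z (B : Eis) = 0) (i : Fin M) (x : ℤ)
    (hx : x ≠ 0) :
    tm (π i).1 z (x : Eis) + tm (conj (π i).1) z (x : Eis) =
      (e i : ZMod 3) * (V (π i).1 z : ZMod 3) * tm (π i).1 (x : Eis) (B : Eis) := by
  have hx0 : (x : Eis) ≠ 0 := int_ne hx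
  have hB0 : (B : Eis) ≠ 0 := int_ne h.ne
  have h3 := (hSPP.2.2.2.1 (π i)).1
  obtain ⟨κ, hκ⟩ := (hSPP.2.2.2.1 (π i)).2
  have hA := htm (π i)
  have hA' := htm κ
  rw [hκ] at hA'
  have hc := hSCJ.1 (π i).1 (x : Eis) (B : Eis) (π i).2.1 h3 hx0 hB0
  rw [conj_intCast, conj_intCast] at hc
  have hVn : V (π i).1 (B : Eis) = e i := h.vB i
  have hVn' : V (conj (π i).1) (B : Eis) = e i := by
    have h1 := V_conj (π i).2.1 hB0
    rw [conj_intCast, hVn] at h1
    exact h1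
  have hV : ((V (π i).1 z + V (conj (π i).1) z : ℕ) : ZMod 3) = 0 :=
    (ZMod.natCast_eq_zero_iff _ 3).2 (V_add_conj (π i).2.1 hz hzt)
  push_cast at hV
  have hE := e_sq h i
  unfold tm at hA hA' hc ⊢
  rw [hVn] at hA hc ⊢
  rw [hVn'] at hA' hc
  have h0 := three_zero ((e i : ZMod 3) * (V (π i).1 z : ZMod 3) *
    ((e i : ZMod 3) * ch (π i).1 (x : Eis) - (V (π i).1 (x : Eis) : ZMod 3) *
      ch (π i).1 (B : Eis)))
  generalize (V (π i).1 z : ZMod 3) = v at *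
  generalize (V (conj (π i).1) z : ZMod 3) = v' at *
  generalize (e i : ZMod 3) = E at *
  generalize (V (π i).1 (x : Eis) : ZMod 3) = a at *
  generalize (V (conj (π i).1) (x : Eis) : ZMod 3) = a' at *
  generalize ch (π i).1 z = cz at *
  generalize ch (conj (π i).1) z = cz' at *
  generalize ch (π i).1 (x : Eis) = cx at *
  generalize ch (conj (π i).1) (x : Eis) = cx' at *
  generalize ch (π i).1 (B : Eis) = cn at *
  generalize ch (conj (π i).1) (B : Eis) = cn' at *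
  linear_combination (exp := 1) E * a * hA + E * a' * hA' - (a * cz - v * cx) * hE -
    (a' * cz' - v' * cx') * hE - h0 + v' * E * hc * (-1) +
    E * (E * cx - a * cn) * hV

/-- the local terms at the other places -/
theorem other (h : Dat B π e) {z t : Eis} (hz : z ≠ 0)
    (hzt : z * conj z = t ^ 3) (htm : ∀ σ : PP, tm σ.1 z (B : Eis) = 0)
    (hun : ∀ σ : PP, ¬ σ.1 ∣ (B : Eis) → 3 ∣ V σ.1 z) (x : ℤ)
    (hxn : ∀ σ : PP, σ.1 ∣ (x : Eis) → σ.1 ∣ (B : Eis)) (σ : PP)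
    (h1 : ∀ i, ¬ Associated σ.1 (π i).1) (h2 : ∀ i, ¬ Associated σ.1 (conj (π i).1)) :
    tm σ.1 z (x : Eis) = 0 := by
  by_cases hd : σ.1 ∣ (B : Eis)
  · rcases h.cls σ hd with ⟨i, h3 | h3⟩ | ⟨h3, h3'⟩
    · exact absurd h3 (h1 i)
    · exact absurd h3 (h2 i)
    · have h4 : 3 ∣ V σ.1 z := self_conj σ.2.1 h3 hz hzt
      have h5 := htm σ
      unfold tm at h5 ⊢
      rw [(ZMod.natCast_eq_zero_iff _ 3).2 h4, zero_mul, sub_zero] at h5 ⊢
      have hf : (V σ.1 (B : Eis) : ZMod 3) ≠ 0 := fun h6 =>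
        h3' ((ZMod.natCast_eq_zero_iff _ 3).1 h6)
      have : Fact (Nat.Prime 3) := ⟨Nat.prime_three⟩
      rw [(mul_eq_zero.1 h5).resolve_left hf, mul_zero]
  · unfold tm
    rw [V_eq_zero fun h3 => hd (hxn σ h3), (ZMod.natCast_eq_zero_iff _ 3).2 (hun σ hd)]
    simp

/-- the sum of the local terms -/
theorem finsum_tm (hSPP : SPP) (hSCJ : SCJ) (h : Dat B π e) {z t : Eis} (hz : z ≠ 0)
    (hzt : z * conj z = t ^ 3) (htm : ∀ σ : PP, tm σ.1 z (B : Eis) = 0)
    (hun : ∀ σ : PP, ¬ σ.1 ∣ (B : Eis) → 3 ∣ V σ.1 z) (x : ℤ) (hx : x ≠ 0)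
    (hxn : ∀ σ : PP, σ.1 ∣ (x : Eis) → σ.1 ∣ (B : Eis)) :
    ∑ᶠ σ : PP, tm σ.1 z (x : Eis) =
      ∑ i, (e i : ZMod 3) * (V (π i).1 z : ZMod 3) * tm (π i).1 (x : Eis) (B : Eis) := by
  classical
  choose κ hκ using fun i => (hSPP.2.2.2.1 (π i)).2
  have hg : Function.Injective (Sum.elim π κ) := by
    rintro (i | i) (j | j) hij
    · have h1 : π i = π j := hij
      rw [h.inj i j (by rw [h1])]
    · have h1 : π i = κ j := hij
      exact absurd (by rw [h1, hκ j]) (h.nc i j)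
    · have h1 : κ i = π j := hij
      exact absurd (by rw [← h1, hκ i]) (h.nc j i)
    · have h1 : κ i = κ j := hij
      have h2 : conj (π i).1 = conj (π j).1 := by rw [← hκ i, ← hκ j, h1]
      have h3 : (π i).1 = (π j).1 := by rw [← conj_conj (π i).1, h2, conj_conj]
      rw [h.inj i j (by rw [h3])]
  have hsup : Function.support (fun σ : PP => tm σ.1 z (x : Eis)) ⊆
      ((Finset.univ.image (Sum.elim π κ) : Finset PP) : Set PP) := by
    intro σ hσ
    by_contra hn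
    apply hσ
    have hn' : ∀ y, Sum.elim π κ y ≠ σ := by
      intro y hy
      apply hn
      rw [Finset.mem_coe, Finset.mem_image]
      exact ⟨y, Finset.mem_univ _, hy⟩
    refine other h hz hzt htm hun x hxn σ (fun i hi => ?_) fun i hi => ?_
    · exact hn' (Sum.inl i) (hSPP.2.1 _ _ hi.symm)
    · exact hn' (Sum.inr i) (hSPP.2.1 _ _ (by
        change Associated (κ i).1 σ.1
        rw [hκ i]
        exact hi.symm))
  rw [finsum_eq_sum_of_support_subset _ hsup, Finset.sum_image fun a _ b _ hab => hg hab,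
    Fintype.sum_sum_type, ← Finset.sum_add_distrib]
  refine Finset.sum_congr rfl fun i _ => ?_
  rw [← pair hSPP hSCJ h hz hzt htm i x hx]
  change tm (π i).1 z (x : Eis) + tm (κ i).1 z (x : Eis) = _
  rw [hκ i]

/-- the product formula -/
theorem prodf (hSPP : SPP) (hSCJ : SCJ) (h : Dat B π e) {z t : Eis} (hz : z ≠ 0)
    (hzt : z * conj z = t ^ 3) (htm : ∀ σ : PP, tm σ.1 z (B : Eis) = 0)
    (hun : ∀ σ : PP, ¬ σ.1 ∣ (B : Eis) → 3 ∣ V σ.1 z) (x : ℤ) (hx : x ≠ 0)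
    (hxn : ∀ σ : PP, σ.1 ∣ (x : Eis) → σ.1 ∣ (B : Eis)) :
    sl z (x : Eis) +
      ∑ i, (e i : ZMod 3) * (V (π i).1 z : ZMod 3) * tm (π i).1 (x : Eis) (B : Eis) = 0 := by
  rw [← finsum_tm hSPP hSCJ h hz hzt htm hun x hx hxn]
  unfold sl
  ring

end

/-! ### The symbol with rational integers -/

theorem lv_pow (hLCL : LCL) {a : ℤ} (ha : a ≠ 0) (k : ℕ) :
    lv (a ^ k) = k * lv a ∧ lw (a ^ k) = k * lw a := by
  induction k with
  | zero =>
    have h1 := hLCL.2.2.2.1 1 (by norm_num)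
    rw [pow_zero, h1.1, h1.2, one_pow, wt_one]
    simp
  | succ k ih =>
    have h1 := hLCL.2.1 (a ^ k) a (pow_ne_zero _ ha) ha
    rw [pow_succ, h1.1, h1.2, ih.1, ih.2]
    push_cast
    constructor <;> ring

theorem lw_four (hLCL : LCL) : lv 4 = 0 ∧ lw 4 = -1 := by
  have h1 := hLCL.2.2.2.1 4 (by norm_num)
  rw [h1.1, h1.2]
  refine ⟨rfl, ?_⟩
  rw [wt_eq (k := 5) (by norm_num)]
  decide

/-- the symbol with a rational integer -/
theorem sl_int (hSSL : SSL) (hLCL : LCL) {z : Eis} (hz : z ≠ 0) (x : ℤ) (hx : x ≠ 0) :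
    sl z (x : Eis) = lv x * sl z 3 - lw x * sl z 4 := by
  obtain ⟨i, hi⟩ : ∃ i : ℕ, (i : ZMod 3) = lv x := ⟨(lv x).val, ZMod.natCast_zmod_val _⟩
  obtain ⟨j, hj⟩ : ∃ j : ℕ, (j : ZMod 3) = -lw x := ⟨(-lw x).val, ZMod.natCast_zmod_val _⟩
  have h3 : (3 : ℤ) ^ i ≠ 0 := pow_ne_zero _ (by norm_num)
  have h4 : (4 : ℤ) ^ j ≠ 0 := pow_ne_zero _ (by norm_num)
  have e3 := lv_pow hLCL (a := 3) (by norm_num) i
  have e4 := lv_pow hLCL (a := 4) (by norm_num) j
  have e34 := hLCL.2.1 _ _ h3 h4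
  obtain ⟨f1, f2⟩ := hLCL.2.2.1
  obtain ⟨g1, g2⟩ := lw_four hLCL
  have h5 := hLCL.2.2.2.2.2.1 x (3 ^ i * 4 ^ j) z hx (mul_ne_zero h3 h4) hz
    (by rw [e34.1, e3.1, e4.1, f1, g1, hi]; ring)
    (by rw [e34.2, e3.2, e4.2, f2, g2, hj]; ring)
  have hsk : ∀ a : Eis, a ≠ 0 → sl z a = - sl a z := fun a ha => hSSL.2.1 a z ha hz
  have hA := add3_sl hSSL hz
  have k3 : (3 : Eis) ≠ 0 := by
    have := int_ne (x := 3) (by norm_num)
    push_cast at this
    exact this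
  have k4 : (4 : Eis) ≠ 0 := by
    have := int_ne (x := 4) (by norm_num)
    push_cast at this
    exact this
  rw [h5]
  push_cast
  have h6 : sl (3 ^ i * 4 ^ j) z = i * sl 3 z + j * sl 4 z := by
    have h7 := hA _ _ (pow_ne_zero i k3) (pow_ne_zero j k4)
    have h8 := hA.pow k3 i
    have h9 := hA.pow k4 j
    simp only at h7 h8 h9
    rw [h7, h8, h9]
  rw [hsk _ (mul_ne_zero (pow_ne_zero i k3) (pow_ne_zero j k4)), hsk _ k3, hsk _ k4, h6, hi, hj]
  ring

/-! ### The family of `B = 3^h n q^E` -/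

section

variable {n m k : ℕ} {π : Fin m → PP} {p e : Fin m → ℕ} {r f : Fin k → ℕ}

theorem BB_cast (h n E q : ℕ) : ((BB h n E q : ℤ) : Eis) = 3 ^ h * (n : Eis) * (q : Eis) ^ E := by
  unfold BB
  push_cast
  rfl

theorem three_ne : (3 : Eis) ≠ 0 := by
  have := int_ne (x := 3) (by norm_num)
  push_cast at this
  exact this

theorem BB_ne (hn : NF n π p e r f) {h E q : ℕ} (hq : q.Prime) : BB h n E q ≠ 0 := by
  unfold BB
  have h1 := EHYP.n_ne hn
  have h2 := hq.ne_zero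
  positivity

theorem dvd_iff (hSPP : SPP) {h n E q : ℕ} (hE : E = 1 ∨ E = 2) (σ : PP) :
    σ.1 ∣ ((BB h n E q : ℤ) : Eis) ↔ σ.1 ∣ (n : Eis) ∨ σ.1 ∣ (q : Eis) := by
  rw [BB_cast]
  constructor
  · intro h1
    rcases σ.2.1.dvd_or_dvd h1 with h1 | h1
    · rcases σ.2.1.dvd_or_dvd h1 with h1 | h1
      · exact absurd (σ.2.1.dvd_of_dvd_pow h1) (hSPP.2.2.2.1 σ).1
      · exact Or.inl h1
    · exact Or.inr (σ.2.1.dvd_of_dvd_pow h1)
  · rintro (h1 | h1)
    · exact Dvd.dvd.mul_right (Dvd.dvd.mul_left h1 _) _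
    · refine Dvd.dvd.mul_left (h1.trans (dvd_pow_self _ ?_)) _
      omega

theorem V_BB (hn : NF n π p e r f) {h E q : ℕ} (hq : q.Prime) {l : Eis} (hl : Prime l)
    (h3 : ¬ l ∣ 3) : V l ((BB h n E q : ℤ) : Eis) = V l (n : Eis) + E * V l (q : Eis) := by
  have hq0 : (q : Eis) ≠ 0 := by
    have := int_ne (x := (q : ℤ)) (by exact_mod_cast hq.ne_zero)
    push_cast at this
    exact this
  have hn0 := HYPS.n_ne0 hn
  rw [BB_cast, V_mul hl (mul_ne_zero (pow_ne_zero _ three_ne) hn0) (pow_ne_zero _ hq0),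
    V_mul hl (pow_ne_zero _ three_ne) hn0, V_pow hl three_ne, V_pow hl hq0, V_eq_zero h3]
  ring

theorem nat_dvd {a b : ℕ} (h : (a : Eis) ∣ (b : Eis)) : a ∣ b := by
  obtain ⟨y, hy⟩ := h
  have h1 := congrArg Eis.re hy
  have h2 : (a : ℤ) ∣ (b : ℤ) := by
    refine ⟨y.re, ?_⟩
    simpa using h1
  exact_mod_cast h2

theorem dat (hSPP : SPP) (hn : NF n π p e r f) {h E q : ℕ} (hE : E = 1 ∨ E = 2) (hq : q.Prime)
    (hq2 : q % 3 = 2) (hqn : ¬ q ∣ n) : Dat (BB h n E q) π e where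
  ne := BB_ne hn hq
  e12 := hn.pe
  vB i := by
    have hqI := inert hSPP hq hq2
    rw [V_BB hn hq (π i).2.1 (hSPP.2.2.2.1 (π i)).1, V_n_i hSPP hn i,
      V_ne (π i).2.1 hqI.1 (not_assoc_nat hn i q)]
    ring
  nc := not_assoc hn
  inj := assoc_iff hn
  cls σ hσ := by
    have hqI := inert hSPP hq hq2
    have h3 := (hSPP.2.2.2.1 σ).1
    have key : ∀ s : ℕ, Associated σ.1 (s : Eis) → Associated (conj σ.1) σ.1 := by
      intro s hs
      have h1 := assoc_conj hs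
      rw [conj_natCast] at h1
      exact h1.trans hs.symm
    rw [V_BB hn hq σ.2.1 h3]
    rcases (dvd_iff hSPP hE σ).1 hσ with h1 | h1
    · rcases HYPS.cls hSPP hn σ.2.1 h1 with h2 | ⟨j, h2⟩
      · exact Or.inl h2
      · refine Or.inr ⟨key _ h2, ?_⟩
        have hj := inert hSPP (hn.rp j) (hn.r2 j)
        have h4 : r j ≠ q := by
          rintro h5
          apply hqn
          rw [← h5, hn.eq]
          refine Dvd.dvd.mul_left ?_ _
          have h11 : r j ^ f j ∣ ∏ j, r j ^ f j := Finset.dvd_prod_of_mem _ (Finset.mem_univ j)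
          refine (dvd_pow_self _ ?_).trans h11
          have := hn.rf j
          omega
        rw [V_assoc h2, V_assoc h2, V_n_j hSPP hn, V_nat_nat hj.1 hqI.1, if_neg h4.symm]
        have := hn.rf j
        omega
    · refine Or.inr ?_
      have h2 : Associated σ.1 (q : Eis) := σ.2.1.associated_of_dvd hqI.1 h1
      refine ⟨key _ h2, ?_⟩
      have h4 : V (q : Eis) (n : Eis) = 0 := V_eq_zero fun h5 => hqn (nat_dvd h5)
      rw [V_assoc h2, V_assoc h2, h4, V_nat_nat hqI.1 hqI.1, if_pos rfl]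
      omega

/-- the classes of `B` at `lam` -/
theorem lvw (hLCL : LCL) (hn : NF n π p e r f) {h E q : ℕ} {w0 : ZMod 3} (hq : q.Prime)
    (hq3 : ¬ 3 ∣ q) (hw : wt (((q : ℤ) ^ E) ^ 2) = w0) :
    lv (BB h n E q) = h ∧ lw (BB h n E q) = wt ((n : ℤ) ^ 2) + w0 := by
  have h0 : (n : ℤ) ≠ 0 := by exact_mod_cast EHYP.n_ne hn
  have h1 : (q : ℤ) ^ E ≠ 0 := pow_ne_zero _ (by exact_mod_cast hq.ne_zero)
  have h2 : (3 : ℤ) ^ h ≠ 0 := pow_ne_zero _ (by norm_num)
  have a1 := hLCL.2.1 _ _ (mul_ne_zero h2 h0) h1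
  have a2 := hLCL.2.1 _ _ h2 h0
  have a3 := lv_pow hLCL (a := 3) (by norm_num) h
  have a4 := hLCL.2.2.1
  have a5 := hLCL.2.2.2.1 (n : ℤ) fun h5 => three_n hn (by exact_mod_cast h5)
  have a6 := hLCL.2.2.2.1 ((q : ℤ) ^ E) fun h5 => hq3 (by
    have h6 := Int.prime_three.dvd_of_dvd_pow h5
    exact_mod_cast h6)
  unfold BB
  rw [a1.1, a1.2, a2.1, a2.2, a3.1, a3.2, a4.1, a4.2, a5.1, a5.2, a6.1, a6.2, hw]
  constructor <;> ring

theorem nine_BB (hn : NF n π p e r f) {E q : ℕ} (hq3 : ¬ 3 ∣ q) : ¬ (9 : ℤ) ∣ BB 1 n E q := by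
  unfold BB
  intro h1
  have h2 : (3 : ℤ) ∣ n * (q : ℤ) ^ E := by
    obtain ⟨y, hy⟩ := h1
    refine ⟨y, ?_⟩
    linarith
  rcases Int.prime_three.dvd_or_dvd h2 with h3 | h3
  · exact three_n hn (by exact_mod_cast h3)
  · have h6 := Int.prime_three.dvd_of_dvd_pow h3
    exact hq3 (by exact_mod_cast h6)

end

end HYPT

open _root_.Pool.Agent.PT3.HYPT in
/-- HYPT -/
theorem HYPT_thm (_hSTM : STM) (hSPP : SPP) (hSSL : SSL) (_hSLC : SLC) (_hSREC : SREC)
    (hSCJ : SCJ) (_hLCI : LCI) (hLCL : LCL) : HYPT := by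
  intro h n m k π p e r f w0 c E q hn hh hE hq hq2 hcl hqn hdet z t hz hzt htm hun h9
  obtain ⟨hw, hqs⟩ := hcl
  have hD := dat hSPP hn (h := h) hE hq hq2 hqn
  have hq3 : ¬ 3 ∣ q := by omega
  have hqI := inert hSPP hq hq2
  have hB0 := int_ne hD.ne
  have hn0 := HYPS.n_ne0 hn
  obtain ⟨a, hF, hcube⟩ := decomp hSPP hn hq hq2 hz hzt (fun σ hσ => hun σ fun h1 => hσ (by
    push_cast
    rcases (dvd_iff hSPP hE σ).1 h1 with h2 | h2
    · exact Dvd.dvd.mul_right h2 _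
    · exact Dvd.dvd.mul_left h2 _))
  obtain ⟨hlv, hlw⟩ := lvw hLCL hn (h := h) hq hq3 hw
  have hsl := sl_int hSSL hLCL hz
  -- the two values of the symbol
  obtain ⟨μ, hμ, hμ1⟩ : ∃ μ : ZMod 3, (∀ x : ℤ, x ≠ 0 →
      sl z (x : Eis) = μ * (lw x + lv x * (wt ((n : ℤ) ^ 2) + w0))) ∧ (h = 1 → μ = 0) := by
    rcases hh with rfl | rfl
    · obtain ⟨h1, h2⟩ := h9 (nine_BB hn hq3)
      refine ⟨0, fun x hx => ?_, fun _ => rfl⟩
      rw [hsl x hx, h1, h2]
      ring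
    · refine ⟨-sl z 4, fun x hx => ?_, fun h1 => by omega⟩
      have h1 : sl z ((BB 2 n E q : ℤ) : Eis) = 0 := by
        unfold sl
        rw [finsum_eq_zero_of_forall_eq_zero fun π => htm π, neg_zero]
      have h2 := hsl _ hD.ne
      rw [h1, hlv, hlw] at h2
      rw [hsl x hx]
      have h3 := three_zero (lv x * sl z 3)
      push_cast at h2
      linear_combination h3 + (-lv x) * (-1) * h2
  -- the product formula
  have key : ∀ x : ℤ, x ≠ 0 → (∀ σ : PP, σ.1 ∣ (x : Eis) → σ.1 ∣ ((BB h n E q : ℤ) : Eis)) →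
      μ * (lw x + lv x * (wt ((n : ℤ) ^ 2) + w0)) +
        ∑ i, (e i : ZMod 3) * (V (π i).1 z : ZMod 3) *
          tm (π i).1 (x : Eis) ((BB h n E q : ℤ) : Eis) = 0 := by
    intro x hx hxn
    rw [← hμ x hx]
    exact prodf hSPP hSCJ hD hz hzt htm hun x hx hxn
  have hi : ∀ i, Prime (π i).1 := fun i => (π i).2.1
  have h3 : ∀ i, ¬ (π i).1 ∣ 3 := fun i => (hSPP.2.2.2.1 (π i)).1
  have hqi : ∀ i, ¬ (π i).1 ∣ (q : Eis) := fun i h5 =>
    not_assoc_nat hn i q ((hi i).associated_of_dvd hqI.1 h5)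
  have hcB : ∀ i, ch (π i).1 ((BB h n E q : ℤ) : Eis) =
      ch (π i).1 ((3 ^ h * n : ℕ) : Eis) + c i := fun i => by
    have h1 : ((3 ^ h * n : ℕ) : Eis) = 3 ^ h * (n : Eis) := by push_cast; rfl
    have h2 := (add3_ch (hi i) (h3 i)).pow hqI.1.ne_zero E
    rw [BB_cast, h1, ch_mul (hi i) (h3 i) (mul_ne_zero (pow_ne_zero _ three_ne) hn0)
      (pow_ne_zero _ hqI.1.ne_zero), h2, ch_of_not_dvd (hi i) (hqi i), hqs i]
  have : Fact (Nat.Prime 3) := ⟨Nat.prime_three⟩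
  have hpn : ∀ i, (p i : Eis) ∣ (n : Eis) := fun i => by
    have h1 : p i ∣ n := by
      rw [hn.eq]
      refine Dvd.dvd.mul_right ?_ _
      have h1 : p i ^ e i ∣ ∏ i, p i ^ e i := Finset.dvd_prod_of_mem _ (Finset.mem_univ i)
      refine (dvd_pow_self _ ?_).trans h1
      have := hn.pe i
      omega
    obtain ⟨d, hd⟩ := h1
    exact ⟨(d : Eis), by rw [hd]; push_cast; rfl⟩
  -- the kernel
  have hvec : Matrix.vecMul
      (Fin.cons μ fun i => (e i : ZMod 3) * (V (π i).1 z : ZMod 3) : Fin (m + 1) → ZMod 3)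
      (Mt h n π p e w0 c) = 0 := by
    funext b
    refine Fin.cases ?_ (fun i' => ?_) b
    · have h1 : Matrix.vecMul
          (Fin.cons μ fun i => (e i : ZMod 3) * (V (π i).1 z : ZMod 3) : Fin (m + 1) → ZMod 3)
          (Mt h n π p e w0 c) 0 = μ * (if h = 2 then wt ((n : ℤ) ^ 2) + w0 else 1) +
            ∑ i, (e i : ZMod 3) * (V (π i).1 z : ZMod 3) *
            ((e i : ZMod 3) * sym (π i).1 3) := by
        simp [Matrix.vecMul, dotProduct, Mt, Fin.sum_univ_succ]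
      rw [h1, Pi.zero_apply]
      have h2 := key 3 (by norm_num) (fun σ hσ => absurd (by push_cast at hσ; exact hσ)
        (hSPP.2.2.2.1 σ).1)
      rw [hLCL.2.2.1.1, hLCL.2.2.1.2, one_mul, zero_add] at h2
      rw [← h2]
      congr 1
      · rcases hh with rfl | rfl
        · rw [hμ1 rfl]
          ring
        · rw [if_pos rfl]
      · refine Finset.sum_congr rfl fun i _ => ?_
        congr 1
        push_cast
        unfold tm
        rw [hD.vB i, V_eq_zero (h3 i), ch_of_not_dvd (hi i) (h3 i)]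
        simp
    · have h1 : Matrix.vecMul
          (Fin.cons μ fun i => (e i : ZMod 3) * (V (π i).1 z : ZMod 3) : Fin (m + 1) → ZMod 3)
          (Mt h n π p e w0 c) i'.succ = μ * (if h = 2 then wt ((p i' : ℤ) ^ 2) else 0) +
            ∑ i, (e i : ZMod 3) * (V (π i).1 z : ZMod 3) *
            (if i' = i then (e i : ZMod 3) * sym (π i).1 (conj (π i).1) -
              ch (π i).1 ((3 ^ h * n : ℕ) : Eis) - c i
            else (e i : ZMod 3) * sym (π i).1 (p i' : Eis)) := by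
        simp [Matrix.vecMul, dotProduct, Mt, Fin.sum_univ_succ]
      rw [h1, Pi.zero_apply]
      have h2 := key (p i') (by exact_mod_cast (hn.pp i').ne_zero) (fun σ hσ => by
        rw [Int.cast_natCast] at hσ
        exact (dvd_iff hSPP hE σ).2 (Or.inl (hσ.trans (hpn i'))))
      have h4 := hLCL.2.2.2.1 (p i' : ℤ) fun h5 => by
        have h6 : 3 ∣ p i' := by exact_mod_cast h5
        have := hn.p1 i'
        omega
      rw [h4.1, h4.2, zero_mul, add_zero] at h2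
      rw [← h2]
      congr 1
      · rcases hh with rfl | rfl
        · rw [hμ1 rfl]
          ring
        · rw [if_pos rfl]
      refine Finset.sum_congr rfl fun i _ => ?_
      congr 1
      rw [Int.cast_natCast]
      unfold tm
      rw [hD.vB i, hcB i]
      split_ifs with hii
      · subst hii
        have hcj : ¬ (π i').1 ∣ conj (π i').1 := fun h5 =>
          not_assoc hn i' i' ((hi i').associated_of_dvd (prime_conj (π i').2.1) h5)
        rw [hn.pπ i', V_mul (hi i') (hi i').ne_zero (prime_conj (π i').2.1).ne_zero, V_self,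
          V_eq_zero hcj, ch_mul (hi i') (h3 i') (hi i').ne_zero
            (prime_conj (π i').2.1).ne_zero, ch_self (hi i') (h3 i'),
          ch_of_not_dvd (hi i') hcj]
        push_cast
        ring
      · have hnd : ¬ (π i).1 ∣ (p i' : Eis) := by
          rw [hn.pπ i']
          intro h5
          rcases (hi i).dvd_or_dvd h5 with h5 | h5
          · exact hii (assoc_iff hn i i' ((hi i).associated_of_dvd (π i').2.1 h5)).symm
          · exact not_assoc hn i i' ((hi i).associated_of_dvd (prime_conj (π i').2.1) h5)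
        rw [V_eq_zero hnd, ch_of_not_dvd (hi i) hnd]
        push_cast
        ring
  have hx := Matrix.eq_zero_of_vecMul_eq_zero hdet hvec
  have hμ0 : μ = 0 := by
    have := congrFun hx 0
    simpa using this
  have hV : ∀ i, (V (π i).1 z : ZMod 3) = 0 := by
    intro i
    have h1 := congrFun hx i.succ
    simp only [Fin.cons_succ, Pi.zero_apply] at h1
    refine (mul_eq_zero.1 h1).resolve_left fun h2 => ?_
    have h4 := e_sq hD i
    rw [h2, mul_zero] at h4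
    exact zero_ne_one h4
  -- the unit
  refine hcube ?_ hV
  have h4 := hF _ (add3_sl hSSL (int_ne (x := 4) (by norm_num)))
  simp only [hV, zero_mul, Finset.sum_const_zero, add_zero] at h4
  rw [hμ 4 (by norm_num), hμ0, zero_mul, hLCL.2.2.2.2.1 4 (by norm_num), (lw_four hLCL).2] at h4
  rw [neg_neg, mul_one] at h4
  exact h4.symm

end Pool.Agent.PT3

end

section

/-!
# HYPU: the minus part of the Selmer group is trivial, `n` divisible by `3`, twists by primes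
`= 1 (mod 3)`
-/

set_option autoImplicit false

namespace Pool.Agent.PT3

open Pool.Agent.Lib_helper18 Pool.Agent.Lib_helper18.Eis Pool.Agent.Lib_helper84.Cub
open Pool.Agent.PT Pool.Agent.PTE Pool.Agent.PT.EHYP

namespace HYPU

section

variable {n m k : ℕ} {π : Fin m → PP} {p e : Fin m → ℕ} {r f : Fin k → ℕ}

/-- the extended normal form -/
theorem ext (h : NF n π p e r f) {q E : ℕ} (hE : E = 1 ∨ E = 2) (ρ : PP) (hq : q.Prime)
    (hq1 : q % 3 = 1) (hqn : ¬ q ∣ n) (hρ : (q : Eis) = ρ.1 * conj ρ.1) :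
    NF (n * q ^ E) (Fin.cons ρ π : Fin (m + 1) → PP) (Fin.cons q p : Fin (m + 1) → ℕ)
      (Fin.cons E e : Fin (m + 1) → ℕ) r f where
  pp i := by
    refine Fin.cases ?_ (fun i => ?_) i
    · exact hq
    · exact h.pp i
  p1 i := by
    refine Fin.cases ?_ (fun i => ?_) i
    · exact hq1
    · exact h.p1 i
  pπ i := by
    refine Fin.cases ?_ (fun i => ?_) i
    · exact hρ
    · exact h.pπ i
  pe i := by
    refine Fin.cases ?_ (fun i => ?_) i
    · exact hE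
    · exact h.pe i
  pinj := by
    rw [Fin.cons_injective_iff]
    refine ⟨?_, h.pinj⟩
    rintro ⟨i, hi⟩
    apply hqn
    rw [← hi, h.eq]
    refine Dvd.dvd.mul_right ?_ _
    have h1 : p i ^ e i ∣ ∏ i, p i ^ e i := Finset.dvd_prod_of_mem _ (Finset.mem_univ i)
    refine (dvd_pow_self _ ?_).trans h1
    have := h.pe i
    omega
  rp := h.rp
  r2 := h.r2
  rf := h.rf
  rinj := h.rinj
  eq := by
    rw [Fin.prod_univ_succ]
    simp only [Fin.cons_zero, Fin.cons_succ]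
    rw [h.eq]
    ring

/-- the local terms at a split pair; `B` has the same valuations as `n` -/
theorem pair (hSPP : SPP) (hSCJ : SCJ) (h : NF n π p e r f) {B : ℤ} (hB : (B : Eis) ≠ 0)
    (hVB : ∀ σ : PP, V σ.1 (B : Eis) = V σ.1 (n : Eis)) {z t : Eis} (hz : z ≠ 0)
    (hzt : z * conj z = t ^ 3) (htm : ∀ σ : PP, tm σ.1 z (B : Eis) = 0) (i : Fin m) (x : ℤ)
    (hx : x ≠ 0) :
    tm (π i).1 z (x : Eis) + tm (conj (π i).1) z (x : Eis) =
      (e i : ZMod 3) * (V (π i).1 z : ZMod 3) * tm (π i).1 (x : Eis) (B : Eis) := by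
  have hx0 : (x : Eis) ≠ 0 := by
    intro h0
    have := congrArg Eis.re h0
    simp only [intCast_re, zero_re] at this
    exact hx this
  have h3 := (hSPP.2.2.2.1 (π i)).1
  obtain ⟨κ, hκ⟩ := (hSPP.2.2.2.1 (π i)).2
  have hA := htm (π i)
  have hA' := htm κ
  rw [hκ] at hA'
  have hc := hSCJ.1 (π i).1 (x : Eis) (B : Eis) (π i).2.1 h3 hx0 hB
  rw [conj_intCast, conj_intCast] at hc
  have hVn : V (π i).1 (B : Eis) = e i := by rw [hVB]; exact V_n_i hSPP h i
  have hVn' : V (conj (π i).1) (B : Eis) = e i := by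
    have h1 := V_conj (π i).2.1 hB
    rw [conj_intCast, hVn] at h1
    exact h1
  have hV : ((V (π i).1 z + V (conj (π i).1) z : ℕ) : ZMod 3) = 0 :=
    (ZMod.natCast_eq_zero_iff _ 3).2 (V_add_conj (π i).2.1 hz hzt)
  push_cast at hV
  have hE := HYPS.e_sq h i
  unfold tm at hA hA' hc ⊢
  rw [hVn] at hA hc ⊢
  rw [hVn'] at hA' hc
  have h0 := three_zero ((e i : ZMod 3) * (V (π i).1 z : ZMod 3) *
    ((e i : ZMod 3) * ch (π i).1 (x : Eis) - (V (π i).1 (x : Eis) : ZMod 3) *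
      ch (π i).1 (B : Eis)))
  generalize (V (π i).1 z : ZMod 3) = v at *
  generalize (V (conj (π i).1) z : ZMod 3) = v' at *
  generalize (e i : ZMod 3) = E at *
  generalize (V (π i).1 (x : Eis) : ZMod 3) = a at *
  generalize (V (conj (π i).1) (x : Eis) : ZMod 3) = a' at *
  generalize ch (π i).1 z = cz at *
  generalize ch (conj (π i).1) z = cz' at *
  generalize ch (π i).1 (x : Eis) = cx at *
  generalize ch (conj (π i).1) (x : Eis) = cx' at *
  generalize ch (π i).1 (B : Eis) = cn at *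
  generalize ch (conj (π i).1) (B : Eis) = cn' at *
  linear_combination (exp := 1) E * a * hA + E * a' * hA' - (a * cz - v * cx) * hE -
    (a' * cz' - v' * cx') * hE - h0 + v' * E * hc * (-1) +
    E * (E * cx - a * cn) * hV

/-- the local terms at the other places -/
theorem other (hSPP : SPP) (h : NF n π p e r f) {B : ℤ}
    (hVB : ∀ σ : PP, V σ.1 (B : Eis) = V σ.1 (n : Eis)) {z t : Eis} (hz : z ≠ 0)
    (hzt : z * conj z = t ^ 3) (htm : ∀ σ : PP, tm σ.1 z (B : Eis) = 0)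
    (hun : ∀ σ : PP, ¬ σ.1 ∣ (n : Eis) → 3 ∣ V σ.1 z) (x : ℤ)
    (hxn : ∀ σ : PP, σ.1 ∣ (x : Eis) → σ.1 ∣ (n : Eis)) (σ : PP)
    (h1 : ∀ i, ¬ Associated σ.1 (π i).1) (h2 : ∀ i, ¬ Associated σ.1 (conj (π i).1)) :
    tm σ.1 z (x : Eis) = 0 := by
  by_cases hd : σ.1 ∣ (n : Eis)
  · rcases HYPS.cls hSPP h σ.2.1 hd with ⟨i, h3 | h3⟩ | ⟨j, h3⟩
    · exact absurd h3 (h1 i)
    · exact absurd h3 (h2 i)
    · have hj := inert hSPP (h.rp j) (h.r2 j)
      have h4 : 3 ∣ V σ.1 z := by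
        rw [V_assoc h3]
        exact self_conj hj.1 (by rw [conj_natCast]) hz hzt
      have h5 := htm σ
      unfold tm at h5 ⊢
      rw [(ZMod.natCast_eq_zero_iff _ 3).2 h4, zero_mul, sub_zero] at h5 ⊢
      have hf : (f j : ZMod 3) ≠ 0 := by
        rcases h.rf j with h10 | h10 <;> rw [h10] <;> decide
      have : Fact (Nat.Prime 3) := ⟨Nat.prime_three⟩
      rw [hVB σ, V_assoc h3, V_n_j hSPP h] at h5
      rw [(mul_eq_zero.1 h5).resolve_left hf, mul_zero]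
  · unfold tm
    rw [V_eq_zero fun h3 => hd (hxn σ h3), (ZMod.natCast_eq_zero_iff _ 3).2 (hun σ hd)]
    simp

/-- the sum of the local terms -/
theorem finsum_tm (hSPP : SPP) (hSCJ : SCJ) (h : NF n π p e r f) {B : ℤ} (hB : (B : Eis) ≠ 0)
    (hVB : ∀ σ : PP, V σ.1 (B : Eis) = V σ.1 (n : Eis)) {z t : Eis} (hz : z ≠ 0)
    (hzt : z * conj z = t ^ 3) (htm : ∀ σ : PP, tm σ.1 z (B : Eis) = 0)
    (hun : ∀ σ : PP, ¬ σ.1 ∣ (n : Eis) → 3 ∣ V σ.1 z) (x : ℤ) (hx : x ≠ 0)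
    (hxn : ∀ σ : PP, σ.1 ∣ (x : Eis) → σ.1 ∣ (n : Eis)) :
    ∑ᶠ σ : PP, tm σ.1 z (x : Eis) =
      ∑ i, (e i : ZMod 3) * (V (π i).1 z : ZMod 3) * tm (π i).1 (x : Eis) (B : Eis) := by
  classical
  choose κ hκ using fun i => (hSPP.2.2.2.1 (π i)).2
  have hg : Function.Injective (Sum.elim π κ) := by
    rintro (i | i) (j | j) hij
    · have h1 : π i = π j := hij
      rw [assoc_iff h i j (by rw [h1])]
    · have h1 : π i = κ j := hij
      exact absurd (by rw [h1, hκ j]) (not_assoc h i j)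
    · have h1 : κ i = π j := hij
      exact absurd (by rw [← h1, hκ i]) (not_assoc h j i)
    · have h1 : κ i = κ j := hij
      have h2 : conj (π i).1 = conj (π j).1 := by rw [← hκ i, ← hκ j, h1]
      have h3 : (π i).1 = (π j).1 := by rw [← conj_conj (π i).1, h2, conj_conj]
      rw [assoc_iff h i j (by rw [h3])]
  have hsup : Function.support (fun σ : PP => tm σ.1 z (x : Eis)) ⊆
      ((Finset.univ.image (Sum.elim π κ) : Finset PP) : Set PP) := by
    intro σ hσ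
    by_contra hn
    apply hσ
    have hn' : ∀ y, Sum.elim π κ y ≠ σ := by
      intro y hy
      apply hn
      rw [Finset.mem_coe, Finset.mem_image]
      exact ⟨y, Finset.mem_univ _, hy⟩
    refine other hSPP h hVB hz hzt htm hun x hxn σ (fun i hi => ?_) fun i hi => ?_
    · exact hn' (Sum.inl i) (hSPP.2.1 _ _ hi.symm)
    · exact hn' (Sum.inr i) (hSPP.2.1 _ _ (by
        change Associated (κ i).1 σ.1
        rw [hκ i]
        exact hi.symm))
  rw [finsum_eq_sum_of_support_subset _ hsup, Finset.sum_image fun a _ b _ hab => hg hab,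
    Fintype.sum_sum_type, ← Finset.sum_add_distrib]
  refine Finset.sum_congr rfl fun i _ => ?_
  rw [← pair hSPP hSCJ h hB hVB hz hzt htm i x hx]
  change tm (π i).1 z (x : Eis) + tm (κ i).1 z (x : Eis) = _
  rw [hκ i]

end

/-! ### the classes at `lam` -/

theorem cast_ne {x : ℤ} (hx : x ≠ 0) : (x : Eis) ≠ 0 := by
  intro h0
  have := congrArg Eis.re h0
  simp only [intCast_re, zero_re] at this
  exact hx this

theorem add3_slr (hSSL : SSL) {z : Eis} (hz : z ≠ 0) : Add3 fun b => sl z b := by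
  intro a b ha hb
  have h1 := hSSL.1 a b z ha hb hz
  rw [hSSL.2.1 z (a * b) hz (mul_ne_zero ha hb), hSSL.2.1 z a hz ha, hSSL.2.1 z b hz hb] at h1
  linear_combination (-1 : ZMod 3) * h1

theorem l_one (hLCL : LCL) : lv 1 = 0 ∧ lw 1 = 0 := by
  have h := hLCL.2.2.2.1 1 (by norm_num)
  refine ⟨h.1, ?_⟩
  rw [h.2, one_pow, wt_one]

theorem l_pow (hLCL : LCL) (a : ℤ) (ha : a ≠ 0) (k : ℕ) :
    lv (a ^ k) = k * lv a ∧ lw (a ^ k) = k * lw a := by
  induction k with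
  | zero =>
    rw [pow_zero]
    have h := l_one hLCL
    rw [h.1, h.2]
    simp
  | succ k ih =>
    have h := hLCL.2.1 (a ^ k) a (pow_ne_zero _ ha) ha
    rw [pow_succ, h.1, h.2, ih.1, ih.2]
    push_cast
    constructor <;> ring

theorem l_four (hLCL : LCL) : lv 4 = 0 ∧ lw 4 = -1 := by
  have h := hLCL.2.2.2.1 4 (by norm_num)
  refine ⟨h.1, ?_⟩
  rw [h.2]
  decide

/-- the symbol of a fixed number and the rational numbers -/
theorem sl_lin (hSSL : SSL) (hLCL : LCL) {z : Eis} (hz : z ≠ 0) (x : ℤ) (hx : x ≠ 0) :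
    sl z (x : Eis) = lv x * sl z 3 - lw x * sl z 4 := by
  have hA := add3_slr hSSL hz
  have h30 : (3 : Eis) ≠ 0 := by
    have := cast_ne (x := 3) (by norm_num)
    exact_mod_cast this
  have h40 : (4 : Eis) ≠ 0 := by
    have := cast_ne (x := 4) (by norm_num)
    exact_mod_cast this
  obtain ⟨i, hi⟩ : ∃ i : ℕ, (i : ZMod 3) = lv x := ⟨(lv x).val, ZMod.natCast_zmod_val _⟩
  obtain ⟨j, hj⟩ : ∃ j : ℕ, (j : ZMod 3) = -lw x := ⟨(-lw x).val, ZMod.natCast_zmod_val _⟩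
  have h3 := l_pow hLCL 3 (by norm_num) i
  have h4 := l_pow hLCL 4 (by norm_num) j
  have h5 := hLCL.2.1 (3 ^ i) (4 ^ j) (pow_ne_zero _ (by norm_num)) (pow_ne_zero _ (by norm_num))
  rw [h3.1, h3.2, h4.1, h4.2, hLCL.2.2.1.1, hLCL.2.2.1.2, (l_four hLCL).1, (l_four hLCL).2,
    hi, hj] at h5
  have h6 := hLCL.2.2.2.2.2.1 x (3 ^ i * 4 ^ j) z hx
    (mul_ne_zero (pow_ne_zero _ (by norm_num)) (pow_ne_zero _ (by norm_num))) hz
    (by rw [h5.1]; ring) (by rw [h5.2]; ring)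
  rw [h6]
  push_cast
  have h7 := hA ((3 : Eis) ^ i) ((4 : Eis) ^ j) (pow_ne_zero _ h30) (pow_ne_zero _ h40)
  have h8 := hA.pow h30 i
  have h9 := hA.pow h40 j
  simp only at h7 h8 h9
  rw [h7, h8, h9, hi, hj]
  ring

/-- the classes of `B` -/
theorem l_BB (hLCL : LCL) {h n E q : ℕ} (hn : ¬ 3 ∣ n) (hq : q.Prime) (hq3 : q % 3 = 1 ∨ q % 3 = 2)
    (hn0 : n ≠ 0) :
    BB h n E q ≠ 0 ∧ lv (BB h n E q) = h ∧
      lw (BB h n E q) = wt ((n : ℤ) ^ 2) + wt (((q : ℤ) ^ E) ^ 2) := by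
  have hq0 : (q : ℤ) ≠ 0 := by exact_mod_cast hq.ne_zero
  have hn0' : (n : ℤ) ≠ 0 := by exact_mod_cast hn0
  have h3 : ((3 : ℤ) ^ h) ≠ 0 := pow_ne_zero _ (by norm_num)
  have hn' : ¬ (3 : ℤ) ∣ (n : ℤ) := by exact_mod_cast hn
  have hq' : ¬ (3 : ℤ) ∣ (q : ℤ) ^ E := by
    intro h1
    have h2 : (3 : ℤ) ∣ (q : ℤ) := Int.prime_three.dvd_of_dvd_pow h1
    have h4 : 3 ∣ q := by exact_mod_cast h2
    omega
  have h1 := hLCL.2.1 ((3 : ℤ) ^ h * n) ((q : ℤ) ^ E) (mul_ne_zero h3 hn0') (pow_ne_zero _ hq0)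
  have h2 := hLCL.2.1 ((3 : ℤ) ^ h) n h3 hn0'
  have h4 := l_pow hLCL 3 (by norm_num) h
  have h5 := hLCL.2.2.2.1 n hn'
  have h6 := hLCL.2.2.2.1 _ hq'
  unfold BB
  refine ⟨mul_ne_zero (mul_ne_zero h3 hn0') (pow_ne_zero _ hq0), ?_, ?_⟩
  · rw [h1.1, h2.1, h4.1, h5.1, h6.1, hLCL.2.2.1.1]
    ring
  · rw [h1.2, h2.2, h4.2, h5.2, h6.2, hLCL.2.2.1.2]
    ring

end HYPU

open _root_.Pool.Agent.PT3.HYPU in
/-- HYPU -/
theorem HYPU_thm (_hSTM : STM) (hSPP : SPP) (hSSL : SSL) (_hSLC : SLC) (_hSREC : SREC)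
    (hSCJ : SCJ) (_hLCI : LCI) (_hSPLT : SPLT) (hLCL : LCL) : HYPU := by
  intro h n m k π p e r f w0 c E q ρ y hN hh hE hq hq1 hcl hqn hρ hdet hy hsy z t hz hzt htm hun
    h9
  obtain ⟨hcw, hci⟩ := hcl
  have h' := ext hN hE ρ hq hq1 hqn hρ
  have hn0 := HYPS.n_ne0 hN
  have hn1 := n_ne hN
  have h3n := three_n hN
  have hq0 : (q : Eis) ≠ 0 := by
    rw [hρ]
    exact mul_ne_zero ρ.2.1.ne_zero (prime_conj ρ.2.1).ne_zero
  have hE0 : E ≠ 0 := by omega
  have hEz : (E : ZMod 3) ≠ 0 := by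
    rcases hE with h1 | h1 <;> rw [h1] <;> decide
  obtain ⟨hBne, hBv, hBw⟩ := l_BB hLCL (h := h) (E := E) h3n hq (Or.inl hq1) hn1
  rw [hcw] at hBw
  have hB0 := cast_ne hBne
  have h30 : (3 : Eis) ≠ 0 := by
    have := cast_ne (x := 3) (by norm_num)
    exact_mod_cast this
  have h40 : (4 : Eis) ≠ 0 := by
    have := cast_ne (x := 4) (by norm_num)
    exact_mod_cast this
  have hσ3 : ∀ σ : PP, ¬ σ.1 ∣ 3 := fun σ => (hSPP.2.2.2.1 σ).1
  have hBe : ((BB h n E q : ℤ) : Eis) = (3 : Eis) ^ h * ((n * q ^ E : ℕ) : Eis) := by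
    unfold BB
    push_cast
    ring
  have hn'0 := HYPS.n_ne0 h'
  have hVB : ∀ σ : PP, V σ.1 ((BB h n E q : ℤ) : Eis) = V σ.1 ((n * q ^ E : ℕ) : Eis) := by
    intro σ
    rw [hBe, V_mul σ.2.1 (pow_ne_zero _ h30) hn'0, V_pow σ.2.1 h30, V_eq_zero (hσ3 σ)]
    omega
  have hdB : ∀ σ : PP, ¬ σ.1 ∣ ((n * q ^ E : ℕ) : Eis) → ¬ σ.1 ∣ ((BB h n E q : ℤ) : Eis) := by
    intro σ h1 h2
    rw [hBe] at h2
    rcases σ.2.1.dvd_or_dvd h2 with h2 | h2
    · exact hσ3 σ (σ.2.1.dvd_of_dvd_pow h2)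
    · exact h1 h2
  have hun1 : ∀ σ : PP, ¬ σ.1 ∣ ((n * q ^ E : ℕ) : Eis) → 3 ∣ V σ.1 z := fun σ h1 =>
    hun σ (hdB σ h1)
  have hun2 : ∀ σ : PP, ¬ σ.1 ∣ ((((n * q ^ E : ℕ) : ℤ) * (2 : ℕ) : ℤ) : Eis) →
      3 ∣ V σ.1 z := by
    intro σ hσ
    refine hun1 σ fun h1 => hσ ?_
    rw [Int.cast_mul, Int.cast_natCast]
    exact Dvd.dvd.mul_right h1 _
  obtain ⟨a, hF, hcube⟩ := decomp hSPP h' Nat.prime_two rfl hz hzt hun2
  -- the product formula
  have key : ∀ x : ℤ, x ≠ 0 → (∀ σ : PP, σ.1 ∣ (x : Eis) → σ.1 ∣ (n : Eis)) →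
      sl z (x : Eis) + ((E : ZMod 3) * (V ρ.1 z : ZMod 3) *
        tm ρ.1 (x : Eis) ((BB h n E q : ℤ) : Eis) +
        ∑ i, (e i : ZMod 3) * (V (π i).1 z : ZMod 3) *
          tm (π i).1 (x : Eis) ((BB h n E q : ℤ) : Eis)) = 0 := by
    intro x hx hxn
    have h6 := finsum_tm hSPP hSCJ h' hB0 hVB hz hzt htm hun1 x hx fun σ hσ => by
      push_cast
      exact Dvd.dvd.mul_right (hxn σ hσ) _
    rw [Fin.sum_univ_succ] at h6
    simp only [Fin.cons_zero, Fin.cons_succ] at h6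
    rw [← h6]
    unfold sl
    rw [neg_add_cancel]
  -- the symbols of `z` and the rational numbers
  have hlin := fun x hx => sl_lin hSSL hLCL hz x hx
  have hslB : sl z ((BB h n E q : ℤ) : Eis) = 0 := by
    unfold sl
    rw [finsum_eq_zero_of_forall_eq_zero fun σ => htm σ, neg_zero]
  have h3' : ((3 : ℤ) : Eis) = 3 := by push_cast; rfl
  have h4' : ((4 : ℤ) : Eis) = 4 := by push_cast; rfl
  obtain ⟨μ, hμ, hμ1⟩ : ∃ μ : ZMod 3, (∀ x : ℤ, x ≠ 0 → sl z (x : Eis) =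
      μ * (lw x + lv x * (wt ((n : ℤ) ^ 2) + w0))) ∧ (h = 1 → μ = 0) := by
    rcases hh with hh | hh
    · have h1 : ¬ (9 : ℤ) ∣ BB h n E q := by
        intro h2
        rw [hh] at h2
        unfold BB at h2
        have h5 : (3 : ℤ) * 3 ∣ 3 * (n * (q : ℤ) ^ E) := by
          have h6 : (3 : ℤ) * 3 = 9 := by norm_num
          have h7 : (3 : ℤ) * (n * (q : ℤ) ^ E) = 3 ^ 1 * n * (q : ℤ) ^ E := by ring
          rw [h6, h7]
          exact h2
        have h6 : (3 : ℤ) ∣ n * (q : ℤ) ^ E := (mul_dvd_mul_iff_left (by norm_num)).1 h5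
        have h7 : 3 ∣ n * q ^ E := by exact_mod_cast h6
        exact three_n h' h7
      obtain ⟨h2, h5⟩ := h9 h1
      refine ⟨0, fun x hx => ?_, fun _ => rfl⟩
      rw [hlin x hx, h2, h5]
      ring
    · refine ⟨-sl z 4, fun x hx => ?_, fun h1 => by omega⟩
      have h1 := hlin _ hBne
      rw [hslB, hBv, hBw, hh] at h1
      rw [hlin x hx]
      have h2 := three_zero (lv x * sl z 3)
      push_cast at h1
      linear_combination (lv x) * h1 + h2
  -- valuations and characters of `B`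
  have hi : ∀ i, Prime (π i).1 := fun i => (π i).2.1
  have h3 : ∀ i, ¬ (π i).1 ∣ 3 := fun i => hσ3 (π i)
  have hqi : ∀ i, ¬ (π i).1 ∣ (q : Eis) := fun i h5 => by
    rw [hρ] at h5
    have h6 := not_assoc h' i.succ 0
    have h7 := mt (assoc_iff h' i.succ 0) (Fin.succ_ne_zero i)
    simp only [Fin.cons_zero, Fin.cons_succ] at h6 h7
    rcases (hi i).dvd_or_dvd h5 with h5 | h5
    · exact h7 ((hi i).associated_of_dvd ρ.2.1 h5)
    · exact h6 ((hi i).associated_of_dvd (prime_conj ρ.2.1) h5)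
  have hVBi : ∀ i, V (π i).1 ((BB h n E q : ℤ) : Eis) = e i := fun i => by
    rw [hVB (π i)]
    have h1 := V_n_i hSPP h' i.succ
    simpa only [Fin.cons_succ] using h1
  have hcB : ∀ i, ch (π i).1 ((BB h n E q : ℤ) : Eis) =
      ch (π i).1 ((3 ^ h * n : ℕ) : Eis) + c i := fun i => by
    have h1 : ((BB h n E q : ℤ) : Eis) = ((3 ^ h * n : ℕ) : Eis) * (q : Eis) ^ E := by
      unfold BB
      push_cast
      ring
    have h2 : ((3 ^ h * n : ℕ) : Eis) ≠ 0 := by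
      push_cast
      exact mul_ne_zero (pow_ne_zero _ h30) hn0
    rw [h1, ch_mul (hi i) (h3 i) h2 (pow_ne_zero _ hq0),
      (add3_ch (hi i) (h3 i)).pow hq0 E, ch_of_not_dvd (hi i) (hqi i), hci i]
  have hρn : ¬ ρ.1 ∣ (n : Eis) := by
    intro h1
    rcases HYPS.cls hSPP hN ρ.2.1 h1 with ⟨i, h2 | h2⟩ | ⟨j, h2⟩
    · have h7 := mt (assoc_iff h' 0 i.succ) (Fin.succ_ne_zero i).symm
      simp only [Fin.cons_zero, Fin.cons_succ] at h7
      exact h7 h2
    · have h6 := not_assoc h' 0 i.succ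
      simp only [Fin.cons_zero, Fin.cons_succ] at h6
      exact h6 h2
    · have h6 := not_assoc_nat h' 0 (r j)
      simp only [Fin.cons_zero] at h6
      exact h6 h2
  have hVρB : V ρ.1 ((BB h n E q : ℤ) : Eis) = E := by
    rw [hVB ρ]
    have h1 := V_n_i hSPP h' 0
    simpa only [Fin.cons_zero] using h1
  have htmρ : ∀ x : ℤ, ¬ ρ.1 ∣ (x : Eis) →
      tm ρ.1 (x : Eis) ((BB h n E q : ℤ) : Eis) = (E : ZMod 3) * sym ρ.1 (x : Eis) := by
    intro x hx
    unfold tm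
    rw [hVρB, V_eq_zero hx, ch_of_not_dvd ρ.2.1 hx]
    simp
  have hF3 : Fact (Nat.Prime 3) := ⟨Nat.prime_three⟩
  -- the prime above `q`
  have hy2 : ∀ σ : PP, σ.1 ∣ (y : Eis) → σ.1 ∣ (n : Eis) := by
    intro σ h1
    have h2 := HYPS.supp hSPP (n := 3 * n) hy.supp σ h1
    push_cast at h2
    rcases σ.2.1.dvd_or_dvd h2 with h2 | h2
    · exact absurd h2 (hσ3 σ)
    · exact h2
  have hsly : sl z (y : Eis) = 0 := by
    rw [hμ y hy.ne]
    rcases hh with hh | hh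
    · rw [hμ1 hh, zero_mul]
    · rw [hy.wild hh, mul_zero]
  have hV0 : (V ρ.1 z : ZMod 3) = 0 := by
    have h1 := key y hy.ne hy2
    have h2 : ∀ i, (e i : ZMod 3) * (V (π i).1 z : ZMod 3) *
        tm (π i).1 (y : Eis) ((BB h n E q : ℤ) : Eis) = 0 := by
      intro i
      have h4 := hy.sym i
      rw [V_n_i hSPP hN, ← hcB i] at h4
      unfold tm
      rw [hVBi i, h4, mul_zero]
    rw [Finset.sum_congr rfl fun i _ => h2 i, Finset.sum_const_zero, add_zero, hsly, zero_add,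
      htmρ y fun h4 => hρn (hy2 ρ h4)] at h1
    have h5 := (mul_eq_zero.1 h1).resolve_right (mul_ne_zero hEz hsy)
    exact (mul_eq_zero.1 h5).resolve_left hEz
  -- the other primes
  have hmain : μ = 0 ∧ ∀ i, (V (π i).1 z : ZMod 3) = 0 := by
    have hpn : ∀ i, (p i : Eis) ∣ (n : Eis) := fun i => by
      have h1 : p i ∣ n := by
        rw [hN.eq]
        refine Dvd.dvd.mul_right ?_ _
        have h1 : p i ^ e i ∣ ∏ i, p i ^ e i := Finset.dvd_prod_of_mem _ (Finset.mem_univ i)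
        refine (dvd_pow_self _ ?_).trans h1
        have := hN.pe i
        omega
      obtain ⟨d, hd⟩ := h1
      exact ⟨(d : Eis), by rw [hd]; push_cast; rfl⟩
    have hvec : Matrix.vecMul
        (Fin.cons μ fun i => (e i : ZMod 3) * (V (π i).1 z : ZMod 3) : Fin (m + 1) → ZMod 3)
        (Mt h n π p e w0 c) = 0 := by
      funext b
      refine Fin.cases ?_ (fun i' => ?_) b
      · have h1 : Matrix.vecMul
            (Fin.cons μ fun i => (e i : ZMod 3) * (V (π i).1 z : ZMod 3) : Fin (m + 1) → ZMod 3)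
            (Mt h n π p e w0 c) 0 = μ * (if h = 2 then wt ((n : ℤ) ^ 2) + w0 else 1) +
              ∑ i, (e i : ZMod 3) * (V (π i).1 z : ZMod 3) *
              ((e i : ZMod 3) * sym (π i).1 3) := by
          simp [Matrix.vecMul, dotProduct, Mt, Fin.sum_univ_succ]
        rw [h1, Pi.zero_apply]
        have h2 := key 3 (by norm_num) (fun σ hσ => by
          rw [h3'] at hσ
          exact absurd hσ (hσ3 σ))
        rw [hV0, mul_zero, zero_mul, zero_add, hμ 3 (by norm_num), hLCL.2.2.1.1,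
          hLCL.2.2.1.2, h3'] at h2
        rw [← h2]
        congr 1
        · split_ifs with h5
          · ring
          · have h6 : h = 1 := by omega
            rw [hμ1 h6]
            ring
        · refine Finset.sum_congr rfl fun i _ => ?_
          congr 1
          unfold tm
          rw [hVBi i, V_eq_zero (h3 i), ch_of_not_dvd (hi i) (h3 i)]
          simp
      · have h1 : Matrix.vecMul
            (Fin.cons μ fun i => (e i : ZMod 3) * (V (π i).1 z : ZMod 3) : Fin (m + 1) → ZMod 3)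
            (Mt h n π p e w0 c) i'.succ =
              μ * (if h = 2 then wt ((p i' : ℤ) ^ 2) else 0) +
              ∑ i, (e i : ZMod 3) * (V (π i).1 z : ZMod 3) *
              (if i' = i then
                (e i : ZMod 3) * sym (π i).1 (conj (π i).1) -
                  ch (π i).1 ((3 ^ h * n : ℕ) : Eis) - c i
              else (e i : ZMod 3) * sym (π i).1 (p i' : Eis)) := by
          simp [Matrix.vecMul, dotProduct, Mt, Fin.sum_univ_succ]
        rw [h1, Pi.zero_apply]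
        have hp3 : ¬ (3 : ℤ) ∣ (p i' : ℤ) := by
          intro h4
          have h5 : 3 ∣ p i' := by exact_mod_cast h4
          have := hN.p1 i'
          omega
        have hp0 : (p i' : ℤ) ≠ 0 := by exact_mod_cast (hN.pp i').ne_zero
        have h2 := key (p i') hp0 (fun σ hσ => by
          rw [Int.cast_natCast] at hσ
          exact hσ.trans (hpn i'))
        rw [hV0, mul_zero, zero_mul, zero_add, hμ _ hp0, (hLCL.2.2.2.1 _ hp3).1,
          (hLCL.2.2.2.1 _ hp3).2] at h2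
        rw [← h2]
        congr 1
        · split_ifs with h5
          · ring
          · have h6 : h = 1 := by omega
            rw [hμ1 h6]
            ring
        refine Finset.sum_congr rfl fun i _ => ?_
        congr 1
        rw [Int.cast_natCast]
        unfold tm
        rw [hVBi i, hcB i]
        split_ifs with hii
        · subst hii
          have hcj : ¬ (π i').1 ∣ conj (π i').1 := fun h5 =>
            not_assoc hN i' i' ((hi i').associated_of_dvd (prime_conj (π i').2.1) h5)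
          rw [hN.pπ i', V_mul (hi i') (hi i').ne_zero (prime_conj (π i').2.1).ne_zero, V_self,
            V_eq_zero hcj, ch_mul (hi i') (h3 i') (hi i').ne_zero
              (prime_conj (π i').2.1).ne_zero, ch_self (hi i') (h3 i'),
            ch_of_not_dvd (hi i') hcj]
          push_cast
          ring
        · have hnd : ¬ (π i).1 ∣ (p i' : Eis) := by
            rw [hN.pπ i']
            intro h5
            rcases (hi i).dvd_or_dvd h5 with h5 | h5
            · exact hii (assoc_iff hN i i' ((hi i).associated_of_dvd (π i').2.1 h5)).symm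
            · exact not_assoc hN i i' ((hi i).associated_of_dvd (prime_conj (π i').2.1) h5)
          rw [V_eq_zero hnd, ch_of_not_dvd (hi i) hnd]
          push_cast
          ring
    have hx := Matrix.eq_zero_of_vecMul_eq_zero hdet hvec
    refine ⟨by simpa using congrFun hx 0, fun i => ?_⟩
    have h1 := congrFun hx i.succ
    simp only [Fin.cons_succ, Pi.zero_apply] at h1
    refine (mul_eq_zero.1 h1).resolve_left fun h2 => ?_
    have h4 := HYPS.e_sq hN i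
    rw [h2, mul_zero] at h4
    exact zero_ne_one h4
  obtain ⟨hμ0, hVi⟩ := hmain
  have hVall : ∀ i : Fin (m + 1), (V ((Fin.cons ρ π : Fin (m + 1) → PP) i).1 z : ZMod 3) = 0 := by
    intro i
    refine Fin.cases ?_ (fun i => ?_) i
    · exact hV0
    · exact hVi i
  -- the unit
  have ha : (a : ZMod 3) = 0 := by
    have h1 := hF _ (add3_sl hSSL h40)
    have h2 : sl z 4 = 0 := by
      have h5 := hμ 4 (by norm_num)
      rw [hμ0, zero_mul, h4'] at h5
      exact h5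
    have h5 : sl w 4 = 1 := by
      have h6 := hLCL.2.2.2.2.1 4 (by norm_num)
      rw [(l_four hLCL).2, neg_neg, h4'] at h6
      exact h6
    rw [h2, h5, Finset.sum_congr rfl fun i _ => by rw [hVall i, zero_mul], Finset.sum_const_zero,
      add_zero, mul_one] at h1
    exact h1.symm
  exact hcube ha hVall

end Pool.Agent.PT3

end

section

/-!
# SVAD: additivity of the local term at `lam`
-/

open NumberField IsDedekindDomain Finset
open scoped nonZeroDivisors Pointwise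

namespace Pool.Agent.PT3

open Pool.Agent.Lib_helper18 Pool.Agent.Lib_helper18.Eis Pool.Agent.Lib_helper84.Cub
open Pool.Agent.PT Pool.Agent.PTE

namespace SVAD

/-- the swapped solution -/
theorem swap' {b x p q p' q' : ℤ} (h : Sol b x p q p' q') : Sol x b p (-p') (-q) q' where
  eq := by linear_combination h.eq
  n1 := by
    intro h0
    apply h.n2
    linear_combination h0
  n2 := by
    intro h0
    apply h.n1
    linear_combination h0

/-- the denominators are nonzero -/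
theorem den_ne {b x p q p' q' : ℤ} (S : Sol b x p q p' q') : p' ^ 3 + b * q' ^ 3 ≠ 0 := by
  intro h
  apply S.n1
  rw [S.eq, h, mul_zero]

/-- IF4 for the swapped solution -/
theorem if4_swap (hIF4 : IF4) {π : Eis} {s : Eis → Eis → ZMod 3} {e : ℕ} (hs : LSym π s e)
    {b x p q p' q' X Y : ℤ} (hb : b ≠ 0) (hx : x ≠ 0) (S : Sol b x p q p' q') (hX : X ≠ 0)
    (hY : Y ≠ 0) (hn : X ^ 3 + b * Y ^ 3 ≠ 0) :
    ∃ N0 : ℕ, ∀ ξ : ℤ, π ^ N0 ∣ (ξ : Eis) ^ 3 - (b : Eis) →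
      SV s b p (-p') (-q) q' X Y = AS s ((X ^ 3 + b * Y ^ 3 : ℤ) : Eis) p q p' q' ξ +
        s (Lf X Y 1 ξ) (x : Eis) - s (Lf X Y 2 ξ) (x : Eis) := by
  obtain ⟨N0, hN0⟩ := hIF4 π s e hs x b p (-p') (-q) q' X Y hx hb (swap' S) hX hY hn
  refine ⟨N0, fun ξ hξ => ?_⟩
  have h := hN0 ξ hξ
  rw [neg_neg, neg_neg] at h
  exact h

/-- local additivity where `b` is a local cube -/
theorem loc_cube (hIF4 : IF4) {π : Eis} {s : Eis → Eis → ZMod 3} {e : ℕ} (hs : LSym π s e)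
    {b x₁ x₂ p₁ q₁ p₁' q₁' p₂ q₂ p₂' q₂' p q p' q' X Y : ℤ} (hb : b ≠ 0) (hx₁ : x₁ ≠ 0)
    (hx₂ : x₂ ≠ 0) (S₁ : Sol b x₁ p₁ q₁ p₁' q₁') (S₂ : Sol b x₂ p₂ q₂ p₂' q₂')
    (S : Sol b (x₁ * x₂) p q p' q') (R : PRel b p₁ q₁ p₁' q₁' p₂ q₂ p₂' q₂' p q p' q')
    (hX : X ≠ 0) (hY : Y ≠ 0) (hn : X ^ 3 + b * Y ^ 3 ≠ 0) (hLC : LC π b) :
    SV s b p (-p') (-q) q' X Y =
      SV s b p₁ (-p₁') (-q₁) q₁' X Y + SV s b p₂ (-p₂') (-q₂) q₂' X Y := by
  have hx₁' : (x₁ : Eis) ≠ 0 := TADD.cast_ne hx₁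
  have hx₂' : (x₂ : Eis) ≠ 0 := TADD.cast_ne hx₂
  obtain ⟨N₁, h₁⟩ := if4_swap hIF4 hs hb hx₁ S₁ hX hY hn
  obtain ⟨N₂, h₂⟩ := if4_swap hIF4 hs hb hx₂ S₂ hX hY hn
  obtain ⟨N₃, h₃⟩ := if4_swap hIF4 hs hb (mul_ne_zero hx₁ hx₂) S hX hY hn
  obtain ⟨N₄, h₄⟩ := TADD.AS_add hs (TADD.cast_ne hn) (TADD.cast_ne S₁.n1) (TADD.cast_ne S₂.n1)
    (TADD.cast_ne (den_ne S)) (TADD.cast_ne (den_ne S₁)) (TADD.cast_ne (den_ne S₂))
    (TADD.cast_ne S.n1) R.e0 R.e1 R.e2
  obtain ⟨r, hr⟩ := hLC (N₁ + N₂ + N₃ + N₄ + V π ((X ^ 3 + b * Y ^ 3 : ℤ) : Eis) + 1)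
  have k : ∀ M : ℕ, M ≤ N₁ + N₂ + N₃ + N₄ + V π ((X ^ 3 + b * Y ^ 3 : ℤ) : Eis) + 1 →
      π ^ M ∣ (r : Eis) ^ 3 - (b : Eis) := fun M hM => (pow_dvd_pow π hM).trans hr
  have l1 := (TADD.Lf_bound hs.prime (TADD.cast_ne hn) hr (by omega) 1 (Or.inl rfl)).1
  have l2 := (TADD.Lf_bound hs.prime (TADD.cast_ne hn) hr (by omega) 2 (Or.inr rfl)).1
  have g₁ := h₁ r (k _ (by omega))
  have g₂ := h₂ r (k _ (by omega))
  have g₃ := h₃ r (k _ (by omega))
  have g₄ := h₄ r (k _ (by omega))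
  have hcast : (((x₁ * x₂ : ℤ)) : Eis) = (x₁ : Eis) * (x₂ : Eis) := by push_cast; rfl
  rw [hcast, TADD.LSym.right_mul hs l1 hx₁' hx₂', TADD.LSym.right_mul hs l2 hx₁' hx₂'] at g₃
  rw [g₁, g₂, g₃, g₄]
  ring

end SVAD

open _root_.Pool.Agent.PT3.SVAD in
theorem SVAD_thm (hSTM : STM) (hSPP : SPP) (hSSL : SSL) (hSLC : SLC) (hLCI : LCI)
    (hLFIN : LFIN) (hIF4 : IF4) (hF6R : F6R) (hF7U : F7U) : SVAD := by
  intro b x₁ x₂ p₁ q₁ p₁' q₁' p₂ q₂ p₂' q₂' p q p' q' X Y hb hx₁ hx₂ S₁ S₂ S R hX hY hn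
  have hx₁' : (x₁ : Eis) ≠ 0 := TADD.cast_ne hx₁
  have hx₂' : (x₂ : Eis) ≠ 0 := TADD.cast_ne hx₂
  have hx : x₁ * x₂ ≠ 0 := mul_ne_zero hx₁ hx₂
  have hw0 : (w : Eis) ≠ 0 := by
    intro h
    have := w_cube
    rw [h] at this
    exact absurd this (by decide)
  have hcast : (((x₁ * x₂ : ℤ)) : Eis) = (x₁ : Eis) * (x₂ : Eis) := by push_cast; rfl
  have hloc : ∀ π : PP, SV (tm π.1) b p (-p') (-q) q' X Y =
      SV (tm π.1) b p₁ (-p₁') (-q₁) q₁' X Y + SV (tm π.1) b p₂ (-p₂') (-q₂) q₂' X Y := by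
    intro π
    have hs : LSym π.1 (tm π.1) 1 := hSTM π.1 π.2.1 (hSPP.2.2.2.1 π).1
    by_cases h3 : 3 ∣ V π.1 (b : Eis)
    · by_cases hc : ch π.1 (b : Eis) = 0
      · exact loc_cube hIF4 hs hb hx₁ hx₂ S₁ S₂ S R hX hY hn ((hLCI.1 π b hb).2 ⟨h3, hc⟩)
      · rw [hF7U π x₁ b p₁ (-p₁') (-q₁) q₁' X Y hx₁ hb (swap' S₁) hX hY h3 hc,
          hF7U π x₂ b p₂ (-p₂') (-q₂) q₂' X Y hx₂ hb (swap' S₂) hX hY h3 hc,
          hF7U π (x₁ * x₂) b p (-p') (-q) q' X Y hx hb (swap' S) hX hY h3 hc, add_zero]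
    · have f₁ := hF6R π x₁ b p₁ (-p₁') (-q₁) q₁' X Y hx₁ hb (swap' S₁) hX hY h3
      have f₂ := hF6R π x₂ b p₂ (-p₂') (-q₂) q₂' X Y hx₂ hb (swap' S₂) hX hY h3
      have f₃ := hF6R π (x₁ * x₂) b p (-p') (-q) q' X Y hx hb (swap' S) hX hY h3
      by_cases hV : 3 ∣ V π.1 ((X ^ 3 + b * Y ^ 3 : ℤ) : Eis)
      · rw [f₁.1 hV, f₂.1 hV, f₃.1 hV, add_zero]
      · rw [f₁.2 hV, f₂.2 hV, f₃.2 hV, hcast, TADD.LSym.right_mul hs hw0 hx₁' hx₂']
        ring
  obtain ⟨s₁, t₁⟩ := hLFIN.2.2 x₁ b p₁ (-p₁') (-q₁) q₁' X Y hx₁ hb (swap' S₁) hX hY hn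
  obtain ⟨s₂, t₂⟩ := hLFIN.2.2 x₂ b p₂ (-p₂') (-q₂) q₂' X Y hx₂ hb (swap' S₂) hX hY hn
  obtain ⟨s₃, t₃⟩ := hLFIN.2.2 (x₁ * x₂) b p (-p') (-q) q' X Y hx hb (swap' S) hX hY hn
  have s₁₂ : (Function.support fun v : Pl => SV (sy v) b p₁ (-p₁') (-q₁) q₁' X Y +
      SV (sy v) b p₂ (-p₂') (-q₂) q₂' X Y).Finite :=
    (s₁.union s₂).subset (Function.support_add _ _)
  have t₁₂ : ∑ᶠ v : Pl, (SV (sy v) b p₁ (-p₁') (-q₁) q₁' X Y +
      SV (sy v) b p₂ (-p₂') (-q₂) q₂' X Y) = 0 := by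
    rw [finsum_add_distrib s₁ s₂, t₁, t₂, add_zero]
  have t : ∑ᶠ v : Pl, (SV (sy v) b p (-p') (-q) q' X Y - (SV (sy v) b p₁ (-p₁') (-q₁) q₁' X Y +
      SV (sy v) b p₂ (-p₂') (-q₂) q₂' X Y)) = 0 := by
    rw [finsum_sub_distrib s₃ s₁₂, t₃, t₁₂, sub_zero]
  rw [finsum_eq_single _ (none : Pl)] at t
  · exact sub_eq_zero.1 t
  · intro v hv
    rcases v with _ | π
    · exact absurd rfl hv
    · exact sub_eq_zero.2 (hloc π)

end Pool.Agent.PT3

end
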