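import Mathlib
import Pool.Agent.PTWX.C29
import Pool.Agent.PTWX.C30
import Pool.Agent.PTWX.C34
import Pool.Agent.PTWX.C36
import Pool.Agent.PTWX.C37
import Pool.Agent.PTWX.C38

/-! Parts: PT.FDK, PT3.FDKT, PT.FD1, PT3.FD1T, PT3.ECLU, PTN.NBKU, PTN.NKIN -/

namespace Pool.Agent.PT.FDK
end Pool.Agent.PT.FDK

namespace Pool.Agent.PT.FD1
end Pool.Agent.PT.FD1

namespace Pool.Agent.PT3.FD1T
end Pool.Agent.PT3.FD1T

namespace Pool.Agent.PT3.ECLU
end Pool.Agent.PT3.ECLU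

namespace Pool.Agent.PTN.NBKU
end Pool.Agent.PTN.NBKU

section

/-!
# First descent: a primitive solution of `x^3 + y^3 = B z^3`
-/

namespace Pool.Agent.PT

open Pool.Agent.Lib_helper18 Pool.Agent.Lib_helper18.Eis
open Pool.Agent.Lib_helper84.Cub hiding cast_ne

namespace FDK

theorem cast_ne {n : ℤ} (h : n ≠ 0) : (n : Eis) ≠ 0 := by
  intro h0
  apply h
  have := congrArg Eis.re h0
  simpa using this

/-- integers dividing an element divide both coordinates -/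
theorem int_dvd {m : ℤ} {δ : Eis} (h : (m : Eis) ∣ δ) : m ∣ δ.re ∧ m ∣ δ.im := by
  obtain ⟨c, rfl⟩ := h
  constructor
  · exact ⟨c.re, by simp⟩
  · exact ⟨c.im, by simp⟩

/-- splitting off the integral content -/
theorem content {a : Eis} (ha : a ≠ 0) : ∃ (g : ℤ) (δ : Eis), g ≠ 0 ∧ a = g * δ ∧
    ∀ m : ℤ, (m : Eis) ∣ δ → IsUnit m := by
  have hpos : 0 < Int.gcd a.re a.im := by
    rw [Int.gcd_pos_iff]
    by_contra hcon
    push Not at hcon
    exact ha (Eis.ext hcon.1 hcon.2)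
  obtain ⟨m', n', h1, h2, h3⟩ := Int.exists_gcd_one hpos
  refine ⟨Int.gcd a.re a.im, ⟨m', n'⟩, by exact_mod_cast hpos.ne', ?_, ?_⟩
  · apply Eis.ext
    · simp only [mul_re, intCast_re, intCast_im, zero_mul, sub_zero]
      linarith
    · simp only [mul_im, intCast_re, intCast_im, zero_mul]
      linarith
  · intro m hm
    obtain ⟨h4, h5⟩ := int_dvd hm
    have h6 : m ∣ (Int.gcd m' n' : ℤ) := Int.dvd_coe_gcd h4 h5
    rw [h1] at h6
    exact isUnit_of_dvd_one (by exact_mod_cast h6)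

theorem three_fac : (3 : Eis) = (1 - w) * (1 - w ^ 2) := by
  linear_combination w_rel - w_cube

section

variable {π : Eis}

theorem right_mul {s : Eis → Eis → ZMod 3} {e : ℕ} (h : LSym π s e) {a b c : Eis} (ha : a ≠ 0)
    (hb : b ≠ 0) (hc : c ≠ 0) : s a (b * c) = s a b + s a c := by
  have h1 := h.skew (b * c) a (mul_ne_zero hb hc) ha
  rw [h1, h.mul b c a hb hc ha, h.skew a b ha hb, h.skew a c ha hc]
  ring

theorem not_dvd_of {x y : ℤ} (hπ : Prime π) (h3 : ¬ π ∣ 3) (hxy : IsCoprime x y) {c : Eis}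
    (hc : c ∣ 3) (h1 : π ∣ c * x) (h2 : π ∣ c * y) : False := by
  have hcπ : ¬ π ∣ c := fun h => h3 (h.trans hc)
  have hx : π ∣ (x : Eis) := (hπ.dvd_or_dvd h1).resolve_left hcπ
  have hy : π ∣ (y : Eis) := (hπ.dvd_or_dvd h2).resolve_left hcπ
  obtain ⟨a, b, hab⟩ := hxy
  apply hπ.not_isUnit
  apply isUnit_of_dvd_one
  have h : (1 : Eis) = (a : Eis) * x + b * y := by
    have := congrArg (fun t : ℤ => (t : Eis)) hab.symm
    push_cast at this
    exact this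
  rw [h]
  exact dvd_add (Dvd.dvd.mul_left hx _) (Dvd.dvd.mul_left hy _)

end

end FDK

open _root_.Pool.Agent.PT.FDK in
theorem FDK_thm (hSTM : STM) (hSPP : SPP) (hSTAR : STAR) : FDK := by
  intro B x y z hB hM hxy hz hxyz
  have hB0 : (B : Eis) ≠ 0 := cast_ne hB.ne
  have hz0 : (z : Eis) ≠ 0 := cast_ne hz
  obtain ⟨F, hF⟩ : ∃ F : ℕ → Eis, F = fun i => (x : Eis) + w ^ i * 1 * y := ⟨_, rfl⟩
  have hF0 : F 0 = (x : Eis) + y := by rw [hF]; ring
  have hF1 : F 1 = (x : Eis) + w * y := by rw [hF]; ring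
  have hF2 : F 2 = (x : Eis) + w ^ 2 * y := by rw [hF]; ring
  have hcast : (x : Eis) ^ 3 + (y : Eis) ^ 3 = B * (z : Eis) ^ 3 := by
    have := congrArg (fun t : ℤ => (t : Eis)) hxyz
    push_cast at this
    exact this
  have hprod : F 0 * F 1 * F 2 = (B : Eis) * (z : Eis) ^ 3 := by
    rw [← hcast, hF0, hF1, hF2]
    linear_combination ((x : Eis) ^ 2 * y + x * y ^ 2) * w_rel + ((x : Eis) * y ^ 2 + y ^ 3) * w_cube
  have hne : F 0 * F 1 * F 2 ≠ 0 := by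
    rw [hprod]
    exact mul_ne_zero hB0 (pow_ne_zero _ hz0)
  have h0 : F 0 ≠ 0 := left_ne_zero_of_mul (left_ne_zero_of_mul hne)
  have h1 : F 1 ≠ 0 := right_ne_zero_of_mul (left_ne_zero_of_mul hne)
  have h2 : F 2 ≠ 0 := right_ne_zero_of_mul hne
  have hc1 : conj (F 1) = F 2 := by
    rw [hF1, hF2, map_add, map_mul, conj_intCast, conj_intCast, conj_w]
  have hc2 : conj (F 2) = F 1 := by rw [← hc1, conj_conj]
  have hw0 : w ≠ 0 := fun h => by
    have := w_cube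
    rw [h] at this
    norm_num at this
  have hFall : ∀ i, F i ≠ 0 := by
    intro i
    have hi : F i = F (i % 3) := by
      have : w ^ i = w ^ (i % 3) := by
        conv_lhs => rw [← Nat.div_add_mod i 3, pow_add, pow_mul, w_cube, one_pow, one_mul]
      rw [hF]
      simp only [this]
    rw [hi]
    have h3 : i % 3 < 3 := Nat.mod_lt _ (by norm_num)
    interval_cases (i % 3)
    · exact h0
    · exact h1
    · exact h2
  -- the element
  obtain ⟨ζ, hζ⟩ : ∃ ζ : Eis, ζ = w ^ 2 * (F 1 * F 2 ^ 2) := ⟨_, rfl⟩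
  have hζ0 : ζ ≠ 0 := by
    rw [hζ]
    exact mul_ne_zero (pow_ne_zero _ hw0) (mul_ne_zero h1 (pow_ne_zero _ h2))
  have hζn : ζ * conj ζ = (F 1 * F 2) ^ 3 := by
    rw [hζ, map_mul, map_mul, map_pow, map_pow, hc1, hc2, conj_w]
    linear_combination ((F 1 * F 2) ^ 3 * (w ^ 3 + 1)) * w_cube
  have htm : ∀ π : PP, tm π.1 ζ (B : Eis) = 0 := by
    intro π
    have hs := hSTM π.1 π.2.1 (hSPP.2.2.2.1 π).1
    obtain ⟨hst, -⟩ := hSTAR π.1 (tm π.1) 1 hs x y 0 0 1 F (fun _ => 0 + w ^ 0 * 1 * 0)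
      (fun i => (x : Eis) * 0 - w ^ i * 0 * y) (fun i => by rw [hF]) (fun i => by ring)
      (fun i => by ring) one_ne_zero hFall
    have hz3 : (z : Eis) ^ 3 ≠ 0 := pow_ne_zero _ hz0
    have hr : ∀ a : Eis, a ≠ 0 → tm π.1 a (F 0 * F 1 * F 2) = tm π.1 a (B : Eis) := by
      intro a ha
      rw [hprod, right_mul hs ha hB0 hz3, pow_succ, right_mul hs ha (pow_ne_zero _ hz0) hz0,
        pow_two, right_mul hs ha hz0 hz0]
      have h3 : (3 : ZMod 3) = 0 := rfl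
      linear_combination (tm π.1 a z) * h3
    rw [hr _ h1, hr _ h2, hr _ hw0] at hst
    rw [hζ, hs.mul _ _ _ (pow_ne_zero _ hw0) (mul_ne_zero h1 (pow_ne_zero _ h2)) hB0,
      hs.mul _ _ _ h1 (pow_ne_zero _ h2) hB0, pow_two, pow_two, hs.mul _ _ _ hw0 hw0 hB0,
      hs.mul _ _ _ h2 h2 hB0]
    have h3 : (3 : ZMod 3) = 0 := rfl
    linear_combination hst + (tm π.1 w B + tm π.1 (F 2) B) * h3
  have hV : ∀ π : PP, ¬ π.1 ∣ (B : Eis) → 3 ∣ V π.1 ζ := by
    intro π hπB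
    have hπ := π.2.1
    have h3 : ¬ π.1 ∣ 3 := (hSPP.2.2.2.1 π).1
    have hsum : V π.1 (F 0) + V π.1 (F 1) + V π.1 (F 2) = 3 * V π.1 (z : Eis) := by
      rw [← V_mul hπ h0 h1, ← V_mul hπ (mul_ne_zero h0 h1) h2, hprod,
        V_mul_not_dvd hπ hπB (pow_ne_zero _ hz0), V_pow hπ hz0]
    have hd1 : (1 - w) ∣ (3 : Eis) := ⟨_, three_fac⟩
    have h01 : ¬ (π.1 ∣ F 0 ∧ π.1 ∣ F 1) := by
      rintro ⟨ha, hb⟩
      refine not_dvd_of hπ h3 hxy hd1 ?_ ?_
      · have : (1 - w) * (x : Eis) = F 1 - w * F 0 := by rw [hF0, hF1]; ring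
        rw [this]
        exact dvd_sub hb (Dvd.dvd.mul_left ha _)
      · have : (1 - w) * (y : Eis) = F 0 - F 1 := by rw [hF0, hF1]; ring
        rw [this]
        exact dvd_sub ha hb
    have h12 : ¬ (π.1 ∣ F 1 ∧ π.1 ∣ F 2) := by
      rintro ⟨ha, hb⟩
      refine not_dvd_of hπ h3 hxy hd1 ?_ ?_
      · have : (1 - w) * (x : Eis) = F 2 - w * F 1 := by rw [hF1, hF2]; ring
        rw [this]
        exact dvd_sub hb (Dvd.dvd.mul_left ha _)
      · have : (1 - w) * (y : Eis) = w ^ 2 * (F 1 - F 2) := by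
          rw [hF1, hF2]
          linear_combination (-(1 - w) * (y : Eis)) * w_cube
        rw [this]
        exact Dvd.dvd.mul_left (dvd_sub ha hb) _
    have hd2 : (1 - w ^ 2) ∣ (3 : Eis) := ⟨1 - w, by rw [three_fac]; ring⟩
    have h02 : ¬ (π.1 ∣ F 0 ∧ π.1 ∣ F 2) := by
      rintro ⟨ha, hb⟩
      refine not_dvd_of hπ h3 hxy hd2 ?_ ?_
      · have : (1 - w ^ 2) * (x : Eis) = F 2 - w ^ 2 * F 0 := by rw [hF0, hF2]; ring
        rw [this]
        exact dvd_sub hb (Dvd.dvd.mul_left ha _)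
      · have : (1 - w ^ 2) * (y : Eis) = F 0 - F 2 := by rw [hF0, hF2]; ring
        rw [this]
        exact dvd_sub ha hb
    have hz0' : V π.1 (F 0) = 0 ∨ V π.1 (F 1) = 0 := by
      by_contra hcon
      push Not at hcon
      apply h01
      constructor
      · by_contra h
        exact hcon.1 (V_eq_zero h)
      · by_contra h
        exact hcon.2 (V_eq_zero h)
    have hz1' : V π.1 (F 1) = 0 ∨ V π.1 (F 2) = 0 := by
      by_contra hcon
      push Not at hcon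
      apply h12
      constructor
      · by_contra h
        exact hcon.1 (V_eq_zero h)
      · by_contra h
        exact hcon.2 (V_eq_zero h)
    have hz2' : V π.1 (F 0) = 0 ∨ V π.1 (F 2) = 0 := by
      by_contra hcon
      push Not at hcon
      apply h02
      constructor
      · by_contra h
        exact hcon.1 (V_eq_zero h)
      · by_contra h
        exact hcon.2 (V_eq_zero h)
    have hw : ¬ π.1 ∣ w ^ 2 := by
      intro h
      apply hπ.not_isUnit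
      apply isUnit_of_dvd_unit h
      exact (IsUnit.of_mul_eq_one (w ^ 2) (by rw [← pow_succ', w_cube])).pow 2
    rw [hζ, V_mul_not_dvd hπ hw (mul_ne_zero h1 (pow_ne_zero _ h2)), V_mul hπ h1 (pow_ne_zero _ h2),
      V_pow hπ h2]
    omega
  obtain ⟨γ, hγ⟩ := hM ζ (F 1 * F 2) hζ0 hζn htm hV
  have hγ0 : γ ≠ 0 := by
    rintro rfl
    rw [hγ] at hζ0
    exact hζ0 (by norm_num)
  have hcγ0 : conj γ ≠ 0 := by
    intro h
    apply hγ0
    rw [← conj_conj γ, h, map_zero]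
  obtain ⟨g, δ, hg, hgδ, hδ⟩ := content hcγ0
  have hm : F 1 * F 2 = ((F 1).norm : Eis) := by rw [← hc1, mul_conj]
  have hn1 : (F 1).norm ≠ 0 := (norm_pos h1).ne'
  refine ⟨δ, (F 1).norm ^ 2 * g ^ 3, γ.norm ^ 3, mul_ne_zero (pow_ne_zero _ hn1)
    (pow_ne_zero _ hg), pow_ne_zero _ (norm_pos hγ0).ne', hδ, ?_⟩
  have e1 : γ ^ 3 * F 1 = w ^ 2 * (F 1 * F 2) ^ 2 := by
    rw [← hγ, hζ]
    ring
  have e2 : (γ.norm : Eis) = γ * conj γ := (mul_conj γ).symm
  push_cast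
  rw [← hF1, e2, ← hm]
  calc (γ * conj γ) ^ 3 * F 1 = (conj γ) ^ 3 * (γ ^ 3 * F 1) := by ring
    _ = (g * δ) ^ 3 * (w ^ 2 * (F 1 * F 2) ^ 2) := by rw [e1, ← hgδ]
    _ = _ := by ring

end Pool.Agent.PT

end

section

/-!
# FDKT: first descent, a primitive solution of `x^3 + y^3 = B z^3`, `B` divisible by `3`
-/

open NumberField IsDedekindDomain Finset
open scoped nonZeroDivisors Pointwise

namespace Pool.Agent.PT3

open Pool.Agent.Lib_helper18 Pool.Agent.Lib_helper18.Eis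
open Pool.Agent.Lib_helper84.Cub hiding cast_ne
open Pool.Agent.PT Pool.Agent.PTE

namespace FDKT

theorem cube_sub (t : ℤ) : (3 : ℤ) ∣ t ^ 3 - t := by
  have h : t % 3 = 0 ∨ t % 3 = 1 ∨ t % 3 = 2 := by omega
  have e := Int.emod_add_mul_ediv t 3
  rcases h with h | h | h
  · rw [h] at e
    refine ⟨9 * (t / 3) ^ 3 - t / 3, ?_⟩
    obtain ⟨k, hk⟩ : ∃ k, k = t / 3 := ⟨_, rfl⟩
    rw [← hk] at e ⊢
    rw [← e]
    ring
  · rw [h] at e
    refine ⟨9 * (t / 3) ^ 3 + 9 * (t / 3) ^ 2 + 2 * (t / 3), ?_⟩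
    obtain ⟨k, hk⟩ : ∃ k, k = t / 3 := ⟨_, rfl⟩
    rw [← hk] at e ⊢
    rw [← e]
    ring
  · rw [h] at e
    refine ⟨9 * (t / 3) ^ 3 + 18 * (t / 3) ^ 2 + 11 * (t / 3) + 2, ?_⟩
    obtain ⟨k, hk⟩ : ∃ k, k = t / 3 := ⟨_, rfl⟩
    rw [← hk] at e ⊢
    rw [← e]
    ring

theorem dvd27 {B x y z : ℤ} (h3 : (3 : ℤ) ∣ B) (h9 : ¬ (9 : ℤ) ∣ B) (hxy : IsCoprime x y)
    (h : x ^ 3 + y ^ 3 = B * z ^ 3) : (27 : ℤ) ∣ x + y ∧ ¬ (3 : ℤ) ∣ y := by
  have p3 : Prime (3 : ℤ) := Int.prime_three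
  have hs : (3 : ℤ) ∣ x + y := by
    have h1 := cube_sub x
    have h2 := cube_sub y
    have h4 : (3 : ℤ) ∣ x ^ 3 + y ^ 3 := by
      rw [h]
      exact h3.mul_right _
    have e : x + y = (x ^ 3 + y ^ 3) - (x ^ 3 - x) - (y ^ 3 - y) := by ring
    rw [e]
    exact (h4.sub h1).sub h2
  have hy : ¬ (3 : ℤ) ∣ y := by
    intro hy
    have hx : (3 : ℤ) ∣ x := (dvd_add_left hy).1 hs
    exact p3.not_isUnit (hxy.isUnit_of_dvd' hx hy)
  have hx : ¬ (3 : ℤ) ∣ x := by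
    intro hx
    exact hy ((dvd_add_right hx).1 hs)
  refine ⟨?_, hy⟩
  obtain ⟨t, ht⟩ := hs
  obtain ⟨B', hB'⟩ := h3
  have hB3 : ¬ (3 : ℤ) ∣ B' := by
    rintro ⟨c, hc⟩
    exact h9 ⟨c, by rw [hB', hc]; ring⟩
  have hU : ¬ (3 : ℤ) ∣ 3 * t ^ 2 - x * y := by
    intro hU
    have h5 : (3 : ℤ) ∣ x * y := by
      have e : x * y = 3 * t ^ 2 - (3 * t ^ 2 - x * y) := by ring
      rw [e]
      exact (dvd_mul_right _ _).sub hU
    rcases p3.dvd_or_dvd h5 with h6 | h6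
    · exact hx h6
    · exact hy h6
  have e1 : 3 * (t * (3 * t ^ 2 - x * y)) = B' * z ^ 3 := by
    have hy' : y = 3 * t - x := by linarith
    have h5 : x ^ 3 + y ^ 3 = 3 * (B' * z ^ 3) := by rw [h, hB']; ring
    have h6 : x ^ 3 + y ^ 3 = 3 * (3 * (t * (3 * t ^ 2 - x * y))) := by
      rw [hy']
      ring
    have h7 : (3 : ℤ) * (3 * (t * (3 * t ^ 2 - x * y))) = 3 * (B' * z ^ 3) := by
      rw [← h6, h5]
    exact mul_left_cancel₀ (by norm_num) h7
  have hz : (3 : ℤ) ∣ z := by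
    have h5 : (3 : ℤ) ∣ B' * z ^ 3 := ⟨_, e1.symm⟩
    rcases p3.dvd_or_dvd h5 with h6 | h6
    · exact absurd h6 hB3
    · exact p3.dvd_of_dvd_pow h6
  obtain ⟨z', hz'⟩ := hz
  have e2 : t * (3 * t ^ 2 - x * y) = 9 * (B' * z' ^ 3) := by
    have h5 : (3 : ℤ) * (t * (3 * t ^ 2 - x * y)) = 3 * (9 * (B' * z' ^ 3)) := by
      rw [e1, hz']
      ring
    exact mul_left_cancel₀ (by norm_num) h5
  have h6 : (9 : ℤ) ∣ t * (3 * t ^ 2 - x * y) := ⟨_, e2⟩
  have h7 : IsCoprime (9 : ℤ) (3 * t ^ 2 - x * y) := by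
    have h8 : IsCoprime (3 : ℤ) (3 * t ^ 2 - x * y) := (Prime.coprime_iff_not_dvd p3).2 hU
    have h10 := h8.pow_left (m := 2)
    norm_num at h10
    exact h10
  obtain ⟨c, hc⟩ := h7.dvd_of_dvd_mul_right h6
  exact ⟨c, by rw [ht, hc]; ring⟩

theorem lam_eq : lam = 1 - w := by
  ext <;> simp [lam]

theorem lam_six : lam ^ 6 = -27 := by
  rw [lam_eq]
  linear_combination (w ^ 4 - 7 * w ^ 3 + 21 * w ^ 2 - 34 * w + 28) * w_rel

theorem wild (hSLC : SLC) {x y : ℤ} (h27 : (27 : ℤ) ∣ x + y) (hy : ¬ (3 : ℤ) ∣ y) (c : Eis)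
    (hc : c ≠ 0) :
    sl (w ^ 2 * (((x : Eis) + w * y) * ((x : Eis) + w ^ 2 * y) ^ 2)) c = 0 := by
  obtain ⟨k, hk⟩ := h27
  have hl : Prime lam := hSLC.prime
  have hly : ¬ lam ∣ (y : Eis) := by
    rw [lam_dvd_iff]
    simp only [intCast_re, intCast_im, add_zero]
    exact hy
  have hy0 : (y : Eis) ≠ 0 := fun h0 => hly (by rw [h0]; exact dvd_zero _)
  have ha0 : -((y : Eis) * lam) ≠ 0 := neg_ne_zero.2 (mul_ne_zero hy0 hl.ne_zero)
  have hx : (x : Eis) = lam ^ 6 * (-k : Eis) - y := by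
    have h1 : (x : Eis) + y = 27 * k := by
      have := congrArg (fun t : ℤ => (t : Eis)) hk
      push_cast at this
      exact this
    rw [lam_six]
    linear_combination h1
  have hF1 : (x : Eis) + w * y = lam ^ 6 * (-k : Eis) - y * lam := by
    rw [hx]
    rw [lam_eq]
    ring
  have hF2 : (x : Eis) + w ^ 2 * y = lam ^ 6 * (-k : Eis) + w ^ 2 * y * lam := by
    rw [hx]
    rw [lam_eq]
    linear_combination (y : Eis) * w_cube
  have hV : V lam ((-((y : Eis) * lam)) ^ 3) = 3 := by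
    rw [V_pow hl ha0, V_neg, V_mul hl hy0 hl.ne_zero, V_eq_zero hly, V_self]
  have hd : lam ^ (V lam ((-((y : Eis) * lam)) ^ 3) + 4) ∣
      w ^ 2 * (((x : Eis) + w * y) * ((x : Eis) + w ^ 2 * y) ^ 2) - (-((y : Eis) * lam)) ^ 3 := by
    rw [hV, hF1, hF2]
    refine ⟨lam * ((-k : Eis) * (w ^ 2 * lam ^ 10 * (-k : Eis) ^ 2 +
      2 * w ^ 4 * lam ^ 5 * (-k : Eis) * y + w ^ 6 * (y : Eis) ^ 2 -
      w ^ 2 * y * lam ^ 5 * (-k : Eis) - 2 * w ^ 4 * (y : Eis) ^ 2)), ?_⟩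
    linear_combination (-(w ^ 3 + 1) * ((y : Eis) * lam) ^ 3) * w_cube
  rw [LSym.cont hSLC _ _ c (pow_ne_zero 3 ha0) hc hd, PT.F2B.s_pow hSLC ha0 hc]
  have h3 : ((3 : ℕ) : ZMod 3) = 0 := rfl
  rw [h3, zero_mul]

theorem three_ne : (3 : Eis) ≠ 0 := by
  intro h
  have := congrArg Eis.re h
  revert this
  decide

theorem four_ne : (4 : Eis) ≠ 0 := by
  intro h
  have := congrArg Eis.re h
  revert this
  decide

end FDKT

open PT.FDK in
theorem FDKT_thm (hSTM : STM) (hSPP : SPP) (hSTAR : STAR) (hSLC : SLC) (hSSL : SSL) (hSCJ : SCJ) :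
    FDKT := by
  intro B x y z hB hM hxy hz hxyz
  have hB0 : (B : Eis) ≠ 0 := cast_ne hB.ne
  have hz0 : (z : Eis) ≠ 0 := cast_ne hz
  obtain ⟨F, hF⟩ : ∃ F : ℕ → Eis, F = fun i => (x : Eis) + w ^ i * 1 * y := ⟨_, rfl⟩
  have hF0 : F 0 = (x : Eis) + y := by rw [hF]; ring
  have hF1 : F 1 = (x : Eis) + w * y := by rw [hF]; ring
  have hF2 : F 2 = (x : Eis) + w ^ 2 * y := by rw [hF]; ring
  have hcast : (x : Eis) ^ 3 + (y : Eis) ^ 3 = B * (z : Eis) ^ 3 := by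
    have := congrArg (fun t : ℤ => (t : Eis)) hxyz
    push_cast at this
    exact this
  have hprod : F 0 * F 1 * F 2 = (B : Eis) * (z : Eis) ^ 3 := by
    rw [← hcast, hF0, hF1, hF2]
    linear_combination ((x : Eis) ^ 2 * y + x * y ^ 2) * w_rel + ((x : Eis) * y ^ 2 + y ^ 3) * w_cube
  have hne : F 0 * F 1 * F 2 ≠ 0 := by
    rw [hprod]
    exact mul_ne_zero hB0 (pow_ne_zero _ hz0)
  have h0 : F 0 ≠ 0 := left_ne_zero_of_mul (left_ne_zero_of_mul hne)
  have h1 : F 1 ≠ 0 := right_ne_zero_of_mul (left_ne_zero_of_mul hne)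
  have h2 : F 2 ≠ 0 := right_ne_zero_of_mul hne
  have hc1 : conj (F 1) = F 2 := by
    rw [hF1, hF2, map_add, map_mul, conj_intCast, conj_intCast, conj_w]
  have hc2 : conj (F 2) = F 1 := by rw [← hc1, conj_conj]
  have hw0 : w ≠ 0 := fun h => by
    have := w_cube
    rw [h] at this
    norm_num at this
  have hFall : ∀ i, F i ≠ 0 := by
    intro i
    have hi : F i = F (i % 3) := by
      have : w ^ i = w ^ (i % 3) := by
        conv_lhs => rw [← Nat.div_add_mod i 3, pow_add, pow_mul, w_cube, one_pow, one_mul]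
      rw [hF]
      simp only [this]
    rw [hi]
    have h3 : i % 3 < 3 := Nat.mod_lt _ (by norm_num)
    interval_cases (i % 3)
    · exact h0
    · exact h1
    · exact h2
  -- the element
  obtain ⟨ζ, hζ⟩ : ∃ ζ : Eis, ζ = w ^ 2 * (F 1 * F 2 ^ 2) := ⟨_, rfl⟩
  have hζ0 : ζ ≠ 0 := by
    rw [hζ]
    exact mul_ne_zero (pow_ne_zero _ hw0) (mul_ne_zero h1 (pow_ne_zero _ h2))
  have hζn : ζ * conj ζ = (F 1 * F 2) ^ 3 := by
    rw [hζ, map_mul, map_mul, map_pow, map_pow, hc1, hc2, conj_w]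
    linear_combination ((F 1 * F 2) ^ 3 * (w ^ 3 + 1)) * w_cube
  have htm : ∀ π : PP, tm π.1 ζ (B : Eis) = 0 := by
    intro π
    have hs := hSTM π.1 π.2.1 (hSPP.2.2.2.1 π).1
    obtain ⟨hst, -⟩ := hSTAR π.1 (tm π.1) 1 hs x y 0 0 1 F (fun _ => 0 + w ^ 0 * 1 * 0)
      (fun i => (x : Eis) * 0 - w ^ i * 0 * y) (fun i => by rw [hF]) (fun i => by ring)
      (fun i => by ring) one_ne_zero hFall
    have hz3 : (z : Eis) ^ 3 ≠ 0 := pow_ne_zero _ hz0
    have hr : ∀ a : Eis, a ≠ 0 → tm π.1 a (F 0 * F 1 * F 2) = tm π.1 a (B : Eis) := by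
      intro a ha
      rw [hprod, right_mul hs ha hB0 hz3, pow_succ, right_mul hs ha (pow_ne_zero _ hz0) hz0,
        pow_two, right_mul hs ha hz0 hz0]
      have h3 : (3 : ZMod 3) = 0 := rfl
      linear_combination (tm π.1 a z) * h3
    rw [hr _ h1, hr _ h2, hr _ hw0] at hst
    rw [hζ, hs.mul _ _ _ (pow_ne_zero _ hw0) (mul_ne_zero h1 (pow_ne_zero _ h2)) hB0,
      hs.mul _ _ _ h1 (pow_ne_zero _ h2) hB0, pow_two, pow_two, hs.mul _ _ _ hw0 hw0 hB0,
      hs.mul _ _ _ h2 h2 hB0]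
    have h3 : (3 : ZMod 3) = 0 := rfl
    linear_combination hst + (tm π.1 w B + tm π.1 (F 2) B) * h3
  have hV : ∀ π : PP, ¬ π.1 ∣ (B : Eis) → 3 ∣ V π.1 ζ := by
    intro π hπB
    have hπ := π.2.1
    have h3 : ¬ π.1 ∣ 3 := (hSPP.2.2.2.1 π).1
    have hsum : V π.1 (F 0) + V π.1 (F 1) + V π.1 (F 2) = 3 * V π.1 (z : Eis) := by
      rw [← V_mul hπ h0 h1, ← V_mul hπ (mul_ne_zero h0 h1) h2, hprod,
        V_mul_not_dvd hπ hπB (pow_ne_zero _ hz0), V_pow hπ hz0]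
    have hd1 : (1 - w) ∣ (3 : Eis) := ⟨_, three_fac⟩
    have h01 : ¬ (π.1 ∣ F 0 ∧ π.1 ∣ F 1) := by
      rintro ⟨ha, hb⟩
      refine not_dvd_of hπ h3 hxy hd1 ?_ ?_
      · have : (1 - w) * (x : Eis) = F 1 - w * F 0 := by rw [hF0, hF1]; ring
        rw [this]
        exact dvd_sub hb (Dvd.dvd.mul_left ha _)
      · have : (1 - w) * (y : Eis) = F 0 - F 1 := by rw [hF0, hF1]; ring
        rw [this]
        exact dvd_sub ha hb
    have h12 : ¬ (π.1 ∣ F 1 ∧ π.1 ∣ F 2) := by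
      rintro ⟨ha, hb⟩
      refine not_dvd_of hπ h3 hxy hd1 ?_ ?_
      · have : (1 - w) * (x : Eis) = F 2 - w * F 1 := by rw [hF1, hF2]; ring
        rw [this]
        exact dvd_sub hb (Dvd.dvd.mul_left ha _)
      · have : (1 - w) * (y : Eis) = w ^ 2 * (F 1 - F 2) := by
          rw [hF1, hF2]
          linear_combination (-(1 - w) * (y : Eis)) * w_cube
        rw [this]
        exact Dvd.dvd.mul_left (dvd_sub ha hb) _
    have hd2 : (1 - w ^ 2) ∣ (3 : Eis) := ⟨1 - w, by rw [three_fac]; ring⟩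
    have h02 : ¬ (π.1 ∣ F 0 ∧ π.1 ∣ F 2) := by
      rintro ⟨ha, hb⟩
      refine not_dvd_of hπ h3 hxy hd2 ?_ ?_
      · have : (1 - w ^ 2) * (x : Eis) = F 2 - w ^ 2 * F 0 := by rw [hF0, hF2]; ring
        rw [this]
        exact dvd_sub hb (Dvd.dvd.mul_left ha _)
      · have : (1 - w ^ 2) * (y : Eis) = F 0 - F 2 := by rw [hF0, hF2]; ring
        rw [this]
        exact dvd_sub ha hb
    have hz0' : V π.1 (F 0) = 0 ∨ V π.1 (F 1) = 0 := by
      by_contra hcon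
      push Not at hcon
      apply h01
      constructor
      · by_contra h
        exact hcon.1 (V_eq_zero h)
      · by_contra h
        exact hcon.2 (V_eq_zero h)
    have hz1' : V π.1 (F 1) = 0 ∨ V π.1 (F 2) = 0 := by
      by_contra hcon
      push Not at hcon
      apply h12
      constructor
      · by_contra h
        exact hcon.1 (V_eq_zero h)
      · by_contra h
        exact hcon.2 (V_eq_zero h)
    have hz2' : V π.1 (F 0) = 0 ∨ V π.1 (F 2) = 0 := by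
      by_contra hcon
      push Not at hcon
      apply h02
      constructor
      · by_contra h
        exact hcon.1 (V_eq_zero h)
      · by_contra h
        exact hcon.2 (V_eq_zero h)
    have hw : ¬ π.1 ∣ w ^ 2 := by
      intro h
      apply hπ.not_isUnit
      apply isUnit_of_dvd_unit h
      exact (IsUnit.of_mul_eq_one (w ^ 2) (by rw [← pow_succ', w_cube])).pow 2
    rw [hζ, V_mul_not_dvd hπ hw (mul_ne_zero h1 (pow_ne_zero _ h2)), V_mul hπ h1 (pow_ne_zero _ h2),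
      V_pow hπ h2]
    omega
  have hlam : ¬ (9 : ℤ) ∣ B → sl ζ 3 = 0 ∧ sl ζ 4 = 0 := by
    intro h9
    obtain ⟨h27, hy3⟩ := FDKT.dvd27 hB.t1 h9 hxy hxyz
    rw [hζ, hF1, hF2]
    exact ⟨FDKT.wild hSLC h27 hy3 3 FDKT.three_ne, FDKT.wild hSLC h27 hy3 4 FDKT.four_ne⟩
  obtain ⟨γ, hγ⟩ := hM ζ (F 1 * F 2) hζ0 hζn htm hV hlam
  have hγ0 : γ ≠ 0 := by
    rintro rfl
    rw [hγ] at hζ0
    exact hζ0 (by norm_num)
  have hcγ0 : conj γ ≠ 0 := by
    intro h
    apply hγ0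
    rw [← conj_conj γ, h, map_zero]
  obtain ⟨g, δ, hg, hgδ, hδ⟩ := content hcγ0
  have hm : F 1 * F 2 = ((F 1).norm : Eis) := by rw [← hc1, mul_conj]
  have hn1 : (F 1).norm ≠ 0 := (norm_pos h1).ne'
  refine ⟨δ, (F 1).norm ^ 2 * g ^ 3, γ.norm ^ 3, mul_ne_zero (pow_ne_zero _ hn1)
    (pow_ne_zero _ hg), pow_ne_zero _ (norm_pos hγ0).ne', hδ, ?_⟩
  have e1 : γ ^ 3 * F 1 = w ^ 2 * (F 1 * F 2) ^ 2 := by
    rw [← hγ, hζ]
    ring
  have e2 : (γ.norm : Eis) = γ * conj γ := (mul_conj γ).symm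
  push_cast
  rw [← hF1, e2, ← hm]
  calc (γ * conj γ) ^ 3 * F 1 = (conj γ) ^ 3 * (γ ^ 3 * F 1) := by ring
    _ = (g * δ) ^ 3 * (w ^ 2 * (F 1 * F 2) ^ 2) := by rw [e1, ← hgδ]
    _ = _ := by ring

end Pool.Agent.PT3

end

section

/-!
# FD1: the first descent
-/

set_option autoImplicit false

namespace Pool.Agent.PT

open Pool.Agent.Lib_helper18 Pool.Agent.Lib_helper18.Eis Pool.Agent.Lib_helper84.Cub

namespace FD1

/-- A cube of a prime does not divide `B`. -/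
theorem cube_free {B : ℤ} (hB : BOk B) {l : ℕ} (hl : l.Prime) : ¬ (l : ℤ) ^ 3 ∣ B := by
  intro h
  by_cases h3 : l = 3
  · apply hB.three
    rw [h3] at h
    exact (Dvd.intro_left ((3 : ℤ) ^ 2) (by norm_num)).trans h
  have hlE : (l : Eis) ≠ 0 := by
    intro h4
    have h5 := congrArg Eis.re h4
    simp only [natCast_re, zero_re] at h5
    exact hl.ne_zero (by exact_mod_cast h5)
  have hnu : ¬ IsUnit (l : Eis) := by
    rw [isUnit_iff_norm, norm_natCast]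
    intro h4
    have h5 : (l : ℤ) = 1 ∨ (l : ℤ) = -1 := sq_eq_one_iff_of_side h4
    rcases h5 with h5 | h5
    · exact hl.one_lt.ne' (by exact_mod_cast h5)
    · omega
  obtain ⟨q, hq, hql⟩ := WfDvdMonoid.exists_irreducible_factor hnu hlE
  have hqp : Prime q := hq.prime
  have hlam : ¬ lam ∣ q := by
    intro h4
    have h5 : lam ∣ (l : Eis) := h4.trans hql
    obtain ⟨t, ht⟩ := h5
    have h6 := congrArg Eis.norm ht
    rw [Eis.norm_mul, norm_natCast, norm_lam] at h6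
    have h7 : (3 : ℤ) ∣ (l : ℤ) ^ 2 := ⟨_, h6⟩
    have h8 : (3 : ℤ) ∣ (l : ℤ) := Int.prime_three.dvd_of_dvd_pow h7
    have h9 : 3 ∣ l := by exact_mod_cast h8
    exact h3 ((Nat.prime_dvd_prime_iff_eq Nat.prime_three hl).1 h9).symm
  obtain ⟨i, hi⟩ := exists_prim hlam
  have hwu : IsUnit (w ^ i) := by
    have h4 : IsUnit w := IsUnit.of_mul_eq_one (w ^ 2) (by rw [← pow_succ']; exact w_cube)
    exact h4.pow i
  have key : ∃ π : PP, Associated q π.1 := by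
    have h4 : (q * w ^ i).re % 3 = 1 ∨ (q * w ^ i).re % 3 = 2 := by
      have := hi.2
      omega
    have h5 : Associated q (q * w ^ i) := associated_mul_unit_right q (w ^ i) hwu
    rcases h4 with h4 | h4
    · refine ⟨⟨-(q * w ^ i), ?_, ?_, ?_⟩, ?_⟩
      · exact (h5.prime hqp).neg
      · rw [neg_re]
        omega
      · rw [neg_im]
        exact (dvd_neg).2 hi.1
      · exact h5.neg_right
    · exact ⟨⟨q * w ^ i, h5.prime hqp, h4, hi.1⟩, h5⟩
  obtain ⟨π, hπ⟩ := key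
  have h4 : π.1 ^ 3 ∣ (B : Eis) := by
    have h5 : π.1 ∣ (l : Eis) := hπ.symm.dvd.trans hql
    refine (pow_dvd_pow_of_dvd h5 3).trans ?_
    obtain ⟨t, ht⟩ := h
    rw [ht]
    refine ⟨(t : Eis), ?_⟩
    ext <;> simp
  have hBE : (B : Eis) ≠ 0 := by
    intro h5
    have h6 := congrArg Eis.re h5
    simp only [intCast_re, zero_re] at h6
    exact hB.ne h6
  have h5 : 3 ≤ V π.1 (B : Eis) := by
    rw [V, ← (fin π.2.1 hBE).pow_dvd_iff_le_multiplicity]
    exact h4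
  have := hB.cf π
  omega

/-- A solution with two units gives a smaller solution. -/
theorem small {B z m ai aj ak xi xj xk : ℤ} (hB : B ≠ 0) (hprod : ai * aj * ak = B)
    (hA : (ai * xi ^ 3) * (aj * xj ^ 3) * (ak * xk ^ 3) = B * m ^ 3)
    (hsum : ai * xi ^ 3 + aj * xj ^ 3 + ak * xk ^ 3 = 0) (hcop : IsCoprime xi xj)
    (hxi : xi ≠ 0) (hxj : xj ≠ 0) (hxk : xk ≠ 0) (hai : IsUnit ai) (haj : IsUnit aj)
    (hmz : |m| < |z|) :
    ∃ x' y' z' : ℤ, z' ≠ 0 ∧ x' ^ 3 + y' ^ 3 = B * z' ^ 3 ∧ |z'| < |z| := by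
  have h1 : ai ^ 2 = 1 := by
    rcases Int.isUnit_iff.1 hai with h | h <;> rw [h] <;> norm_num
  have h2 : aj ^ 2 = 1 := by
    rcases Int.isUnit_iff.1 haj with h | h <;> rw [h] <;> norm_num
  have h3 : ak = ai * aj * B := by
    rw [← hprod]
    linear_combination (-(ak * aj ^ 2)) * h1 - ak * h2
  have h4 : (xi * xj * xk) ^ 3 = m ^ 3 := by
    have h5 : B * (xi * xj * xk) ^ 3 = B * m ^ 3 := by
      rw [← hA, ← hprod]
      ring
    exact mul_left_cancel₀ hB h5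
  have h5 : xi * xj * xk = m := by
    have hodd : Odd 3 := by decide
    exact hodd.pow_injective h4
  refine ⟨ai * xi, aj * xj, -(ai * aj) * xk, ?_, ?_, ?_⟩
  · have h6 : ai ≠ 0 := by
      rintro rfl
      norm_num at h1
    have h7 : aj ≠ 0 := by
      rintro rfl
      norm_num at h2
    exact mul_ne_zero (neg_ne_zero.2 (mul_ne_zero h6 h7)) hxk
  · have h6 : ak * xk ^ 3 = -(ai * xi ^ 3 + aj * xj ^ 3) := by linarith
    have h7 : (ai * xi) ^ 3 = ai * xi ^ 3 := by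
      linear_combination (ai * xi ^ 3) * h1
    have h8 : (aj * xj) ^ 3 = aj * xj ^ 3 := by
      linear_combination (aj * xj ^ 3) * h2
    have h9 : B * (-(ai * aj) * xk) ^ 3 = -(ak * xk ^ 3) := by
      rw [h3]
      linear_combination (-(B * ai * aj * xk ^ 3 * aj ^ 2)) * h1 - (B * ai * aj * xk ^ 3) * h2
    rw [h7, h8, h9, h6]
    ring
  · have h6 : |(-(ai * aj) * xk)| = |xk| := by
      rw [abs_mul, abs_neg, abs_mul]
      rcases Int.isUnit_iff.1 hai with h | h <;> rcases Int.isUnit_iff.1 haj with h' | h' <;>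
        rw [h, h'] <;> simp
    rw [h6]
    refine lt_of_le_of_lt ?_ hmz
    rw [← h5, abs_mul]
    have h7 : 1 ≤ |xi * xj| := Int.one_le_abs (mul_ne_zero hxi hxj)
    have h8 : 0 ≤ |xk| := abs_nonneg _
    nlinarith

end FD1

open _root_.Pool.Agent.PT.FD1 in
theorem FD1_thm (hFDK : FDK) (hFDA : FDA) (hFDC : FDC) : FD1 := by
  classical
  intro B hB hB3 hH hex
  -- the minimal solution
  obtain ⟨X, Y, hXY⟩ := hex
  have hsol : ∃ n : ℕ, ∃ x y z : ℤ, z ≠ 0 ∧ x ^ 3 + y ^ 3 = B * z ^ 3 ∧ z.natAbs = n := by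
    refine ⟨_, X.num * Y.den, Y.num * X.den, X.den * Y.den, ?_, ?_, rfl⟩
    · have h1 : (X.den : ℤ) ≠ 0 := by exact_mod_cast X.den_nz
      have h2 : (Y.den : ℤ) ≠ 0 := by exact_mod_cast Y.den_nz
      exact mul_ne_zero h1 h2
    · have h1 : (X.den : ℚ) ≠ 0 := by exact_mod_cast X.den_nz
      have h2 : (Y.den : ℚ) ≠ 0 := by exact_mod_cast Y.den_nz
      have h3 : (X.num : ℚ) = X * X.den := by
        rw [Rat.mul_den_eq_num]
      have h4 : (Y.num : ℚ) = Y * Y.den := by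
        rw [Rat.mul_den_eq_num]
      have h5 : (((X.num * Y.den) ^ 3 + (Y.num * X.den) ^ 3 : ℤ) : ℚ) =
          ((B * (X.den * Y.den) ^ 3 : ℤ) : ℚ) := by
        push_cast
        rw [h3, h4, ← hXY]
        ring
      exact_mod_cast h5
  obtain ⟨x, y, z, hz, heq, hzn⟩ := Nat.find_spec hsol
  have hmin : ∀ x' y' z' : ℤ, z' ≠ 0 → x' ^ 3 + y' ^ 3 = B * z' ^ 3 → ¬ |z'| < |z| := by
    intro x' y' z' hz' h' hlt
    have h1 := Nat.find_min' hsol ⟨x', y', z', hz', h', rfl⟩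
    rw [← hzn] at h1
    rw [Int.abs_eq_natAbs, Int.abs_eq_natAbs] at hlt
    omega
  have hcop : IsCoprime x y := by
    rw [Int.isCoprime_iff_gcd_eq_one]
    by_contra hg
    obtain ⟨l, hl, hlg⟩ := Nat.exists_prime_and_dvd hg
    have hlx : (l : ℤ) ∣ x := (Int.natCast_dvd_natCast.2 hlg).trans (Int.gcd_dvd_left _ _)
    have hly : (l : ℤ) ∣ y := (Int.natCast_dvd_natCast.2 hlg).trans (Int.gcd_dvd_right _ _)
    have hlp : Prime (l : ℤ) := Nat.prime_iff_prime_int.1 hl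
    obtain ⟨x', rfl⟩ := hlx
    obtain ⟨y', rfl⟩ := hly
    by_cases hlz : (l : ℤ) ∣ z
    · obtain ⟨z', rfl⟩ := hlz
      have hl0 : (l : ℤ) ≠ 0 := hlp.ne_zero
      have hz' : z' ≠ 0 := right_ne_zero_of_mul hz
      refine hmin x' y' z' hz' ?_ ?_
      · have h1 : (l : ℤ) ^ 3 * (x' ^ 3 + y' ^ 3) = (l : ℤ) ^ 3 * (B * z' ^ 3) := by
          linear_combination heq
        exact mul_left_cancel₀ (pow_ne_zero 3 hl0) h1
      · rw [abs_mul]
        have h1 : 0 < |z'| := abs_pos.2 hz'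
        have h2 : (2 : ℤ) ≤ |(l : ℤ)| := by
          rw [Nat.abs_cast]
          exact_mod_cast hl.two_le
        nlinarith
    · apply cube_free hB hl
      have h1 : (l : ℤ) ^ 3 ∣ B * z ^ 3 := ⟨x' ^ 3 + y' ^ 3, by rw [← heq]; ring⟩
      have h3 : Nat.Coprime l z.natAbs := (Nat.Prime.coprime_iff_not_dvd hl).2
        fun h3 => hlz (Int.natCast_dvd.2 h3)
      have h4 : IsCoprime (l : ℤ) z := by
        rw [Int.isCoprime_iff_gcd_eq_one]
        exact h3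
      have h2 : IsCoprime ((l : ℤ) ^ 3) (z ^ 3) := h4.pow
      exact h2.dvd_of_dvd_mul_right h1
  obtain ⟨δ, c, d, hc, hd, hδ, hcd⟩ := hFDK B x y z hB hH hcop hz heq
  obtain ⟨A, m, hA0, hAs, hAp, hAc, hmz⟩ := hFDA B x y z c d δ hB hB3 hcop hz heq hc hd hδ hcd
  obtain ⟨a, u, hau, hap, hac, huc, hnine⟩ := hFDC B m A hB hA0 hAs hAp hAc
  have hu0 : ∀ k, u k ≠ 0 := by
    intro k hk
    apply hA0 k
    rw [hau k, hk]
    ring
  have hprod : a 0 * a 1 * a 2 = B := by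
    rw [← hap, Fin.prod_univ_three]
  rw [hau 0, hau 1, hau 2] at hAs hAp
  refine ⟨a, u, hu0, by rw [Fin.sum_univ_three]; exact hAs, hap, hac, ?_, hnine⟩
  intro k
  by_contra hno
  push Not at hno
  fin_cases k
  · obtain ⟨x', y', z', h1, h2, h3⟩ := small (B := B) (z := z) (m := m) hB.ne
      (ai := a 1) (aj := a 2) (ak := a 0) (xi := u 1) (xj := u 2) (xk := u 0)
      (by rw [← hprod]; ring) (by rw [← hAp]; ring) (by rw [← hAs]; ring) (huc 1 2 (by decide))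
      (hu0 1) (hu0 2) (hu0 0) (hno 1 (by decide)) (hno 2 (by decide)) hmz
    exact hmin x' y' z' h1 h2 h3
  · obtain ⟨x', y', z', h1, h2, h3⟩ := small (B := B) (z := z) (m := m) hB.ne
      (ai := a 0) (aj := a 2) (ak := a 1) (xi := u 0) (xj := u 2) (xk := u 1)
      (by rw [← hprod]; ring) (by rw [← hAp]; ring) (by rw [← hAs]; ring) (huc 0 2 (by decide))
      (hu0 0) (hu0 2) (hu0 1) (hno 0 (by decide)) (hno 2 (by decide)) hmz
    exact hmin x' y' z' h1 h2 h3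
  · obtain ⟨x', y', z', h1, h2, h3⟩ := small (B := B) (z := z) (m := m) hB.ne
      (ai := a 0) (aj := a 1) (ak := a 2) (xi := u 0) (xj := u 1) (xk := u 2)
      hprod hAp hAs (huc 0 1 (by decide))
      (hu0 0) (hu0 1) (hu0 2) (hno 0 (by decide)) (hno 1 (by decide)) hmz
    exact hmin x' y' z' h1 h2 h3

end Pool.Agent.PT

end

section

/-!
# FD1T: the first descent, `B` divisible by `3`
-/

set_option autoImplicit false

namespace Pool.Agent.PT3

open Pool.Agent.Lib_helper18 Pool.Agent.Lib_helper18.Eis Pool.Agent.Lib_helper84.Cub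
open Pool.Agent.PT Pool.Agent.PTE

namespace FD1T

/-- A cube of a prime does not divide `B`. -/
theorem cube_free {B : ℤ} (hB : BT B) {l : ℕ} (hl : l.Prime) : ¬ (l : ℤ) ^ 3 ∣ B := by
  intro h
  by_cases h3 : l = 3
  · apply hB.t2
    rw [h3] at h
    norm_num at h
    exact h
  have hlE : (l : Eis) ≠ 0 := by
    intro h4
    have h5 := congrArg Eis.re h4
    simp only [natCast_re, zero_re] at h5
    exact hl.ne_zero (by exact_mod_cast h5)
  have hnu : ¬ IsUnit (l : Eis) := by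
    rw [isUnit_iff_norm, norm_natCast]
    intro h4
    have h5 : (l : ℤ) = 1 ∨ (l : ℤ) = -1 := sq_eq_one_iff_of_side h4
    rcases h5 with h5 | h5
    · exact hl.one_lt.ne' (by exact_mod_cast h5)
    · omega
  obtain ⟨q, hq, hql⟩ := WfDvdMonoid.exists_irreducible_factor hnu hlE
  have hqp : Prime q := hq.prime
  have hlam : ¬ lam ∣ q := by
    intro h4
    have h5 : lam ∣ (l : Eis) := h4.trans hql
    obtain ⟨t, ht⟩ := h5
    have h6 := congrArg Eis.norm ht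
    rw [Eis.norm_mul, norm_natCast, norm_lam] at h6
    have h7 : (3 : ℤ) ∣ (l : ℤ) ^ 2 := ⟨_, h6⟩
    have h8 : (3 : ℤ) ∣ (l : ℤ) := Int.prime_three.dvd_of_dvd_pow h7
    have h9 : 3 ∣ l := by exact_mod_cast h8
    exact h3 ((Nat.prime_dvd_prime_iff_eq Nat.prime_three hl).1 h9).symm
  obtain ⟨i, hi⟩ := exists_prim hlam
  have hwu : IsUnit (w ^ i) := by
    have h4 : IsUnit w := IsUnit.of_mul_eq_one (w ^ 2) (by rw [← pow_succ']; exact w_cube)
    exact h4.pow i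
  have key : ∃ π : PP, Associated q π.1 := by
    have h4 : (q * w ^ i).re % 3 = 1 ∨ (q * w ^ i).re % 3 = 2 := by
      have := hi.2
      omega
    have h5 : Associated q (q * w ^ i) := associated_mul_unit_right q (w ^ i) hwu
    rcases h4 with h4 | h4
    · refine ⟨⟨-(q * w ^ i), ?_, ?_, ?_⟩, ?_⟩
      · exact (h5.prime hqp).neg
      · rw [neg_re]
        omega
      · rw [neg_im]
        exact (dvd_neg).2 hi.1
      · exact h5.neg_right
    · exact ⟨⟨q * w ^ i, h5.prime hqp, h4, hi.1⟩, h5⟩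
  obtain ⟨π, hπ⟩ := key
  have h4 : π.1 ^ 3 ∣ (B : Eis) := by
    have h5 : π.1 ∣ (l : Eis) := hπ.symm.dvd.trans hql
    refine (pow_dvd_pow_of_dvd h5 3).trans ?_
    obtain ⟨t, ht⟩ := h
    rw [ht]
    refine ⟨(t : Eis), ?_⟩
    ext <;> simp
  have hBE : (B : Eis) ≠ 0 := by
    intro h5
    have h6 := congrArg Eis.re h5
    simp only [intCast_re, zero_re] at h6
    exact hB.ne h6
  have h5 : 3 ≤ V π.1 (B : Eis) := by
    rw [V, ← (fin π.2.1 hBE).pow_dvd_iff_le_multiplicity]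
    exact h4
  have := hB.cf π
  omega

/-- The clause `nine` of a cell is void. -/
theorem not_c9 {B : ℤ} (hB : (3 : ℤ) ∣ B) : ¬ C9 B := by
  unfold C9
  omega

end FD1T

open _root_.Pool.Agent.PT3.FD1T in
theorem FD1T_thm (hFDKT : FDKT) (hFDAT : FDAT) (hFDCT : FDCT) : FD1T := by
  classical
  intro B hB hH hex
  have hB3 : 3 ≤ |B| := by
    obtain ⟨t, ht⟩ := hB.t1
    have h1 : t ≠ 0 := by
      rintro rfl
      exact hB.ne (by rw [ht, mul_zero])
    have h2 : 1 ≤ |t| := Int.one_le_abs h1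
    rw [ht, abs_mul, abs_of_nonneg (by norm_num : (0 : ℤ) ≤ 3)]
    omega
  -- the minimal solution
  obtain ⟨X, Y, hXY⟩ := hex
  have hsol : ∃ n : ℕ, ∃ x y z : ℤ, z ≠ 0 ∧ x ^ 3 + y ^ 3 = B * z ^ 3 ∧ z.natAbs = n := by
    refine ⟨_, X.num * Y.den, Y.num * X.den, X.den * Y.den, ?_, ?_, rfl⟩
    · have h1 : (X.den : ℤ) ≠ 0 := by exact_mod_cast X.den_nz
      have h2 : (Y.den : ℤ) ≠ 0 := by exact_mod_cast Y.den_nz
      exact mul_ne_zero h1 h2
    · have h1 : (X.den : ℚ) ≠ 0 := by exact_mod_cast X.den_nz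
      have h2 : (Y.den : ℚ) ≠ 0 := by exact_mod_cast Y.den_nz
      have h3 : (X.num : ℚ) = X * X.den := by
        rw [Rat.mul_den_eq_num]
      have h4 : (Y.num : ℚ) = Y * Y.den := by
        rw [Rat.mul_den_eq_num]
      have h5 : (((X.num * Y.den) ^ 3 + (Y.num * X.den) ^ 3 : ℤ) : ℚ) =
          ((B * (X.den * Y.den) ^ 3 : ℤ) : ℚ) := by
        push_cast
        rw [h3, h4, ← hXY]
        ring
      exact_mod_cast h5
  obtain ⟨x, y, z, hz, heq, hzn⟩ := Nat.find_spec hsol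
  have hmin : ∀ x' y' z' : ℤ, z' ≠ 0 → x' ^ 3 + y' ^ 3 = B * z' ^ 3 → ¬ |z'| < |z| := by
    intro x' y' z' hz' h' hlt
    have h1 := Nat.find_min' hsol ⟨x', y', z', hz', h', rfl⟩
    rw [← hzn] at h1
    rw [Int.abs_eq_natAbs, Int.abs_eq_natAbs] at hlt
    omega
  have hcop : IsCoprime x y := by
    rw [Int.isCoprime_iff_gcd_eq_one]
    by_contra hg
    obtain ⟨l, hl, hlg⟩ := Nat.exists_prime_and_dvd hg
    have hlx : (l : ℤ) ∣ x := (Int.natCast_dvd_natCast.2 hlg).trans (Int.gcd_dvd_left _ _)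
    have hly : (l : ℤ) ∣ y := (Int.natCast_dvd_natCast.2 hlg).trans (Int.gcd_dvd_right _ _)
    have hlp : Prime (l : ℤ) := Nat.prime_iff_prime_int.1 hl
    obtain ⟨x', rfl⟩ := hlx
    obtain ⟨y', rfl⟩ := hly
    by_cases hlz : (l : ℤ) ∣ z
    · obtain ⟨z', rfl⟩ := hlz
      have hl0 : (l : ℤ) ≠ 0 := hlp.ne_zero
      have hz' : z' ≠ 0 := right_ne_zero_of_mul hz
      refine hmin x' y' z' hz' ?_ ?_
      · have h1 : (l : ℤ) ^ 3 * (x' ^ 3 + y' ^ 3) = (l : ℤ) ^ 3 * (B * z' ^ 3) := by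
          linear_combination heq
        exact mul_left_cancel₀ (pow_ne_zero 3 hl0) h1
      · rw [abs_mul]
        have h1 : 0 < |z'| := abs_pos.2 hz'
        have h2 : (2 : ℤ) ≤ |(l : ℤ)| := by
          rw [Nat.abs_cast]
          exact_mod_cast hl.two_le
        nlinarith
    · apply cube_free hB hl
      have h1 : (l : ℤ) ^ 3 ∣ B * z ^ 3 := ⟨x' ^ 3 + y' ^ 3, by rw [← heq]; ring⟩
      have h3 : Nat.Coprime l z.natAbs := (Nat.Prime.coprime_iff_not_dvd hl).2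
        fun h3 => hlz (Int.natCast_dvd.2 h3)
      have h4 : IsCoprime (l : ℤ) z := by
        rw [Int.isCoprime_iff_gcd_eq_one]
        exact h3
      have h2 : IsCoprime ((l : ℤ) ^ 3) (z ^ 3) := h4.pow
      exact h2.dvd_of_dvd_mul_right h1
  obtain ⟨δ, c, d, hc, hd, hδ, hcd⟩ := hFDKT B x y z hB hH hcop hz heq
  obtain ⟨A, m, hA0, hAs, hAp, hAc, hmz⟩ := hFDAT B x y z c d δ hB hB3 hcop hz heq hc hd hδ hcd
  obtain ⟨a, u, hau, hap, hac, huc⟩ := hFDCT B m A hB hA0 hAs hAp hAc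
  have hu0 : ∀ k, u k ≠ 0 := by
    intro k hk
    apply hA0 k
    rw [hau k, hk]
    ring
  have hprod : a 0 * a 1 * a 2 = B := by
    rw [← hap, Fin.prod_univ_three]
  rw [hau 0, hau 1, hau 2] at hAs hAp
  refine ⟨a, u, hu0, by rw [Fin.sum_univ_three]; exact hAs, hap, hac, ?_,
    fun h => absurd h (not_c9 hB.t1)⟩
  intro k
  by_contra hno
  push Not at hno
  fin_cases k
  · obtain ⟨x', y', z', h1, h2, h3⟩ := PT.FD1.small (B := B) (z := z) (m := m) hB.ne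
      (ai := a 1) (aj := a 2) (ak := a 0) (xi := u 1) (xj := u 2) (xk := u 0)
      (by rw [← hprod]; ring) (by rw [← hAp]; ring) (by rw [← hAs]; ring) (huc 1 2 (by decide))
      (hu0 1) (hu0 2) (hu0 0) (hno 1 (by decide)) (hno 2 (by decide)) hmz
    exact hmin x' y' z' h1 h2 h3
  · obtain ⟨x', y', z', h1, h2, h3⟩ := PT.FD1.small (B := B) (z := z) (m := m) hB.ne
      (ai := a 0) (aj := a 2) (ak := a 1) (xi := u 0) (xj := u 2) (xk := u 1)
      (by rw [← hprod]; ring) (by rw [← hAp]; ring) (by rw [← hAs]; ring) (huc 0 2 (by decide))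
      (hu0 0) (hu0 2) (hu0 1) (hno 0 (by decide)) (hno 2 (by decide)) hmz
    exact hmin x' y' z' h1 h2 h3
  · obtain ⟨x', y', z', h1, h2, h3⟩ := PT.FD1.small (B := B) (z := z) (m := m) hB.ne
      (ai := a 0) (aj := a 1) (ak := a 2) (xi := u 0) (xj := u 1) (xk := u 2)
      hprod hAp hAs (huc 0 1 (by decide))
      (hu0 0) (hu0 1) (hu0 2) (hno 0 (by decide)) (hno 1 (by decide)) hmz
    exact hmin x' y' z' h1 h2 h3

end Pool.Agent.PT3

end

section

/-!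
# Prime twists of rank zero, `n` divisible by `3`: the systems for the primes `q = 1 (mod 3)`
-/

set_option autoImplicit false

namespace Pool.Agent.PT3

open Pool.Agent.Lib_helper18 Pool.Agent.Lib_helper18.Eis Pool.Agent.Lib_helper84.Cub
open Pool.Agent.PT Pool.Agent.PTE

namespace ECLU

/-- the restriction of a system to the first indices -/
lemma sysG_restr {s : ℕ} {b : Fin (s + 1) → ℤ} {P Q P' Q' : Fin (s + 1) → Fin (s + 1) → ℤ}
    (h : SysG b P Q P' Q') : SysG (rv b) (rs P) (rs Q) (rs P') (rs Q') where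
  ind := by
    rintro c ⟨i, hi⟩ ⟨t, ht⟩
    refine h.ind (Fin.snoc (α := fun _ => ℕ) c 0) ⟨i.castSucc, ?_⟩ ⟨t, ?_⟩
    · rw [Fin.snoc_castSucc]
      exact hi
    · rw [ht, Fin.prod_univ_castSucc, Fin.snoc_last, pow_zero, mul_one]
      refine Finset.prod_congr rfl fun j _ => ?_
      rw [Fin.snoc_castSucc]
      rfl
  sol j i hji := h.sol j.castSucc i.castSucc fun h1 => hji (Fin.castSucc_injective _ h1)

lemma sw_restr {s : ℕ} {P Q P' Q' : Fin (s + 1) → Fin (s + 1) → ℤ}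
    (h : SwS P Q P' Q') : SwS (rs P) (rs Q) (rs P') (rs Q') :=
  fun j i hji => h j.castSucc i.castSucc fun h1 => hji (Fin.castSucc_injective _ h1)

/-- the class of a point gives a kernel vector -/
lemma det_zero (hTENT : TENT) {s : ℕ} {τ : Fin s → Fin 3} {b X Y : Fin s → ℤ}
    {P Q P' Q' : Fin s → Fin s → ℤ} {B : ℤ}
    (hSys : SysG b P Q P' Q') (hSw : SwS P Q P' Q') (hB : BG B) (hA : ∀ i, AG B (b i))
    (hT : LamS B τ b X Y) (hb : ∀ i, b i ≠ 0) {z X1 Y1 : ℤ}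
    (hPt : Pt B z X1 Y1) (hcube : ¬ ∃ t : ℤ, t ^ 3 = z) {g : Fin s → ℕ} {u v : ℤ} (hu : u ≠ 0)
    (hv : v ≠ 0) (hg : z * u ^ 3 = (∏ i, b i ^ g i) * v ^ 3) :
    (MaT b X Y P Q P' Q' B).det = 0 := by
  obtain ⟨W, hW⟩ : ∃ W : ℤ, W = ∏ i, b i ^ g i := ⟨_, rfl⟩
  rw [← hW] at hg
  have hex : ∃ i, ¬ 3 ∣ g i := by
    by_contra hcon
    push Not at hcon
    choose g' hg' using hcon
    apply hcube
    have h1 : z * u ^ 3 = ((∏ i, b i ^ g' i) * v) ^ 3 := by
      rw [hg, hW, mul_pow, ← Finset.prod_pow]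
      congr 1
      refine Finset.prod_congr rfl fun i _ => ?_
      rw [← pow_mul, hg' i, mul_comm]
    exact ECLS.cube_of hu h1
  have hPt' : Pt B (∏ i, b i ^ g i) (u * v * X1) (v ^ 2 * Y1) := by
    refine ⟨mul_ne_zero (mul_ne_zero hu hv) hPt.hX, mul_ne_zero (pow_ne_zero 2 hv) hPt.hY, ?_⟩
    obtain ⟨c0, hc0, h1⟩ := hPt.eq
    refine ⟨c0 * u ^ 2, mul_ne_zero hc0 (pow_ne_zero 2 hu), ?_⟩
    rw [← hW]
    have e1 : W * ((u * v * X1) ^ 3 + W * (v ^ 2 * Y1) ^ 3) =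
        (W * v ^ 3) * (u ^ 3 * X1 ^ 3 + (W * v ^ 3) * Y1 ^ 3) := by ring
    rw [e1, ← hg]
    have e2 : z * u ^ 3 * (u ^ 3 * X1 ^ 3 + z * u ^ 3 * Y1 ^ 3) =
        u ^ 6 * (z * (X1 ^ 3 + z * Y1 ^ 3)) := by ring
    rw [e2, h1]
    ring
  have hker := (hTENT s τ b X Y P Q P' Q' B hSys hSw hB hA hT hb).2 g _ _ hex hPt'
  rw [← Matrix.exists_mulVec_eq_zero_iff]
  refine ⟨fun i => (g i : ZMod 3), ?_, ?_⟩
  · intro h1
    obtain ⟨i, hi⟩ := hex
    apply hi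
    have h2 := congrFun h1 i
    exact (ZMod.natCast_eq_zero_iff (g i) 3).1 h2
  · ext j
    exact hker j

end ECLU

open _root_.Pool.Agent.PT3.ECLU in
/-- ECLU: the systems for a class, `q = 1 (mod 3)`. -/
theorem ECLU_thm (hHYPU : HYPU) (hEHPT : EHPT) (hEADU : EADU) (hESYT : ESYT) (hFD1T : FD1T)
    (hFD2T : FD2T) (hTENT : TENT) (hSPLT : SPLT) : ECLU := by
  intro h n m k π p e r f w0 c hNF hh hodd hdet
  obtain ⟨d, v, hd, hv, hδ⟩ := hEHPT h n m k π p e r f w0 c hNF hh hdet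
  refine ⟨d, v, ?_, fun i => ⟨(hv i).ne, (hv i).supp⟩, ?_⟩
  · rw [Nat.odd_iff] at hodd ⊢
    omega
  intro δ hδ0
  obtain ⟨s, τ, b, X, Y, hs, hAdm, hV, hind, h3, hT, hρ⟩ := hδ δ hδ0
  obtain ⟨P, Q, P', Q', hSys, hSw⟩ := hESYT h n m k π p e r f w0 c (s + 1) b hNF hAdm hV hind h3
  refine ⟨s, b, X, Y, P, Q, P', Q', hs, hSys, fun i => (hAdm i).ne, ?_, ?_⟩
  · intro ρ h1 h2 h3
    exact (hρ ρ h1 h2 h3).1
  intro E q ρ hE hq hq1 hIn hqn hqρ h0 h1
  obtain ⟨hB, hTy, hEA⟩ := hEADU h n m k π p e r f w0 c E q ρ hNF hh hE hq hq1 hIn hqn hqρ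
  have hA : ∀ i : Fin s, AdT (BB h n E q) (b i.castSucc) := fun i =>
    (hEA _ (hAdm i.castSucc).supp).1 ⟨hAdm i.castSucc, h0 i⟩
  have hR := sysG_restr hSys
  have hRw := sw_restr hSw
  have hL := hT _ hTy
  have hAG : ∀ i : Fin s, AG (BB h n E q) (rv b i) := fun i => (hA i).toAG
  have hne : ∀ i : Fin s, rv b i ≠ 0 := fun i => (hAdm i.castSucc).ne
  refine ⟨hB, hA, (hTENT s τ (rv b) X Y _ _ _ _ _ hR hRw hB.toBG hAG hL hne).1, ?_⟩
  intro hXY
  have hn0 : 0 < n := by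
    rcases Nat.eq_zero_or_pos n with h | h
    · exact absurd (by rw [h]; exact dvd_zero q) hqn
    · exact h
  have hq3 : q ≠ 3 := by
    rintro rfl
    norm_num at hq1
  have hH : HypT (BB h n E q) := hHYPU h n m k π p e r f w0 c E q ρ (b (Fin.last s)) hNF hh hE hq
    hq1 hIn hqn hqρ hdet (hAdm _) h1
  obtain ⟨a, x, hC⟩ := hFD1T (BB h n E q) hB hH hXY
  obtain ⟨z, X1, Y1, hPt, hAz, hsupp, hcube⟩ := hFD2T h n E q a x hh hE hq hq3 hqn hn0 hB hC
  obtain ⟨hz1, hz2⟩ := (hEA z hsupp).2 hAz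
  have hρn : ¬ ρ.1 ∣ (n : Eis) := by
    intro h2
    have h4 := (hSPLT.2 q ρ hq hq1 hqρ).2.2.2.1 (n : ℤ)
    rw [Int.cast_natCast] at h4
    exact hqn (Int.natCast_dvd_natCast.1 (h4.1 h2))
  obtain ⟨g, u, t, hu, ht, hg⟩ := (hρ ρ hρn h0 h1).2 z hz1 hz2
  exact det_zero hTENT hR hRw hB.toBG hAG hL hne hPt hcube hu ht hg

end Pool.Agent.PT3

end

section

/-!
# PTN_NBKU: the bound for the rank, `q = 1 (mod 3)`, generic case
-/

set_option autoImplicit false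

namespace Pool.Agent.PTN

open Pool.Agent.Lib_helper18 Pool.Agent.Lib_helper18.Eis Pool.Agent.Lib_helper84.Cub
open Pool.Agent.PT Pool.Agent.PTE Pool.Agent.PT3

namespace NBKU

theorem BB_nat (h n E q : ℕ) : BB h n E q = ((3 ^ h * (n * q ^ E) : ℕ) : ℤ) := by
  unfold BB
  push_cast
  ring

variable {h n m k : ℕ} {π : Fin m → PP} {p e : Fin m → ℕ} {r f : Fin k → ℕ} {E q : ℕ}

theorem nat_ne (hN : NF n π p e r f) (hq : q.Prime) : 3 ^ h * (n * q ^ E) ≠ 0 :=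
  mul_ne_zero (pow_ne_zero _ (by norm_num)) (mul_ne_zero (EADM.n_ne hN) (pow_ne_zero _ hq.ne_zero))

theorem BB_ne (hN : NF n π p e r f) (hq : q.Prime) : BB h n E q ≠ 0 := by
  rw [BB_nat]
  exact_mod_cast nat_ne hN hq

/-- no cube divides `B` -/
theorem fac (hN : NF n π p e r f) (hh : h ≤ 2) (hE : E = 1 ∨ E = 2) (hq : q.Prime) (hq3 : q ≠ 3)
    (hqn : ¬ q ∣ n) {l : ℕ} (hl : l.Prime) : (3 ^ h * (n * q ^ E)).factorization l ≤ 2 := by
  have hn0 : n ≠ 0 := EADM.n_ne hN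
  have hn3 : ¬ 3 ∣ n := EADM.three_not hN
  rw [Nat.factorization_mul (pow_ne_zero _ (by norm_num))
    (mul_ne_zero hn0 (pow_ne_zero _ hq.ne_zero)), Finsupp.add_apply,
    Nat.factorization_mul hn0 (pow_ne_zero _ hq.ne_zero), Finsupp.add_apply]
  have h1 := EADM.fac_le hN l
  by_cases hl3 : l = 3
  · subst hl3
    have h2 : n.factorization 3 = 0 := Nat.factorization_eq_zero_of_not_dvd hn3
    have h3 : (q ^ E).factorization 3 = 0 := by
      apply Nat.factorization_eq_zero_of_not_dvd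
      intro h4
      exact hq3 ((Nat.prime_dvd_prime_iff_eq Nat.prime_three hq).1
        (Nat.prime_three.dvd_of_dvd_pow h4)).symm
    have h5 : (3 ^ h).factorization 3 = h := by
      rw [Nat.prime_three.factorization_pow, Finsupp.single_eq_same]
    omega
  · have h0 : (3 ^ h).factorization l = 0 := by
      apply Nat.factorization_eq_zero_of_not_dvd
      intro h2
      exact hl3 ((Nat.prime_dvd_prime_iff_eq hl Nat.prime_three).1 (hl.dvd_of_dvd_pow h2))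
    by_cases hlq : l = q
    · have h2 : n.factorization l = 0 := by
        rw [hlq]
        exact Nat.factorization_eq_zero_of_not_dvd hqn
      have h3 : (q ^ E).factorization l = E := by
        rw [hlq, hq.factorization_pow, Finsupp.single_eq_same]
      omega
    · have h3 : (q ^ E).factorization l = 0 := by
        apply Nat.factorization_eq_zero_of_not_dvd
        intro h2
        exact hlq ((Nat.prime_dvd_prime_iff_eq hl hq).1 (hl.dvd_of_dvd_pow h2))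
      omega

theorem no_cube (hN : NF n π p e r f) (hh : h ≤ 2) (hE : E = 1 ∨ E = 2) (hq : q.Prime)
    (hq3 : q ≠ 3) (hqn : ¬ q ∣ n) {l : ℕ} (hl : l.Prime) : ¬ l ^ 3 ∣ 3 ^ h * (n * q ^ E) := by
  intro hd
  have h1 := (hl.pow_dvd_iff_le_factorization (nat_ne hN hq)).1 hd
  have h2 := fac hN hh hE hq hq3 hqn hl
  omega

theorem cubeFree (hN : NF n π p e r f) (hh : h ≤ 2) (hE : E = 1 ∨ E = 2) (hq : q.Prime)
    (hq3 : q ≠ 3) (hqn : ¬ q ∣ n) : CubeRank.CubeFree (BB h n E q) := by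
  intro l hl hd
  have h1 := Int.prime_iff_natAbs_prime.1 hl
  apply no_cube hN hh hE hq hq3 hqn h1
  rw [BB_nat] at hd
  have h2 := Int.natAbs_dvd_natAbs.2 hd
  rwa [Int.natAbs_pow, Int.natAbs_natCast] at h2

theorem not27 (hN : NF n π p e r f) (hh : h ≤ 2) (hE : E = 1 ∨ E = 2) (hq : q.Prime)
    (hq3 : q ≠ 3) (hqn : ¬ q ∣ n) : ¬ (27 : ℤ) ∣ BB h n E q := by
  intro hd
  apply no_cube hN hh hE hq hq3 hqn Nat.prime_three
  rw [BB_nat] at hd
  have h2 : (27 : ℕ) ∣ 3 ^ h * (n * q ^ E) := by exact_mod_cast hd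
  simpa using h2

theorem abs_ge (hN : NF n π p e r f) (hE : E = 1 ∨ E = 2) (hq : q.Prime) (hq3 : 3 < q) :
    3 ≤ (BB h n E q).natAbs := by
  rw [BB_nat, Int.natAbs_natCast]
  have h1 : q ∣ 3 ^ h * (n * q ^ E) := by
    apply Dvd.dvd.mul_left
    apply Dvd.dvd.mul_left
    exact dvd_pow_self q (by omega)
  have h2 := Nat.le_of_dvd (Nat.pos_of_ne_zero (nat_ne hN hq)) h1
  omega

theorem tm_one (σ : PP) (b : Eis) : tm σ.1 1 b = 0 := by
  have h1 : ¬ σ.1 ∣ 1 := fun h => σ.2.1.not_isUnit (isUnit_of_dvd_one h)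
  unfold tm
  rw [V_eq_zero h1, EHYP.ch_of_not_dvd σ.2.1 h1, sym_one σ.2.1 (F3R.not_dvd_three σ)]
  simp

theorem sl_one (b : Eis) : sl 1 b = 0 := by
  unfold sl
  simp_rw [tm_one]
  simp

theorem selM_one (B : ℤ) : SelM B 1 where
  ne := one_ne_zero
  nrm := ⟨1, by rw [map_one]; ring⟩
  sym σ := tm_one σ _
  unr σ _ := by
    have h1 : ¬ σ.1 ∣ 1 := fun h => σ.2.1.not_isUnit (isUnit_of_dvd_one h)
    rw [V_eq_zero h1]
    exact dvd_zero 3
  lam _ := ⟨sl_one _, sl_one _⟩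

/-- transport of a point -/
theorem pt_transport {B z W X1 Y1 u v : ℤ} (hPt : Pt B z X1 Y1) (hu : u ≠ 0) (hv : v ≠ 0)
    (hg : z * u ^ 3 = W * v ^ 3) : Pt B W (u * v * X1) (v ^ 2 * Y1) := by
  refine ⟨mul_ne_zero (mul_ne_zero hu hv) hPt.hX, mul_ne_zero (pow_ne_zero 2 hv) hPt.hY, ?_⟩
  obtain ⟨c0, hc0, h1⟩ := hPt.eq
  refine ⟨c0 * u ^ 2, mul_ne_zero hc0 (pow_ne_zero 2 hu), ?_⟩
  have e1 : W * ((u * v * X1) ^ 3 + W * (v ^ 2 * Y1) ^ 3) =
      (W * v ^ 3) * (u ^ 3 * X1 ^ 3 + (W * v ^ 3) * Y1 ^ 3) := by ring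
  rw [e1, ← hg]
  have e2 : z * u ^ 3 * (u ^ 3 * X1 ^ 3 + z * u ^ 3 * Y1 ^ 3) =
      u ^ 6 * (z * (X1 ^ 3 + z * Y1 ^ 3)) := by ring
  rw [e2, h1]
  ring

end NBKU

open _root_.Pool.Agent.PTN.NBKU in
/-- PTN_NBKU: the bound for the rank, `q = 1 (mod 3)`, generic case. -/
theorem NBKU_thm (hK : Stmt_KID) (hP : Stmt_NPSU) (hI : Stmt_NKIN) (hA : Stmt_NADU)
    (hL : Stmt_NPLU) (hTENT : TENT) : Stmt_NBKU := by
  classical
  intro h n m k π p e r f w0 c s τ b X Y P Q P' Q' E q ρ hN hh hAd hSys hSw hT hgen hE hq hq3 hq1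
    hIn hqn hqρ h0 h1
  have hq3' : q ≠ 3 := by omega
  have hB0 : BB h n E q ≠ 0 := BB_ne hN hq
  have hcf := cubeFree (h := h) hN hh hE hq hq3' hqn
  have h27 := not27 (h := h) hN hh hE hq hq3' hqn
  have habs := abs_ge (h := h) hN hE hq hq3
  have hnc : ¬ ∃ t : ℤ, t ^ 3 = BB h n E q := by
    apply CubeRank.GenPf.not_cube hcf
    have h2 : ((BB h n E q).natAbs : ℤ) = |BB h n E q| := Int.natCast_natAbs _
    rw [← h2]
    exact_mod_cast habs
  obtain ⟨hBG, hTy, hAdm⟩ := hA h n m k π p e r f w0 c E q ρ hN hh hE hq hq1 hIn hqn hqρ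
  obtain ⟨W, _, Ψ₁, hW, hΨ₁⟩ := hP h n m k π p e r f w0 c E q ρ hN hh hE hq hq1 hIn hqn hqρ
  rw [if_pos ⟨_, hAd (Fin.last s), h1⟩, add_zero] at hW
  set B := BB h n E q with hBdef
  set M := MaT (rv b) X Y (rs P) (rs Q) (rs P') (rs Q') B with hM
  have hsupp : ∀ i : Fin (s + 1), ∀ l : ℕ, l.Prime → (l : ℤ) ∣ b i → l ∣ 3 * n := fun i =>
    (hAd i).1.supp
  have hAG : ∀ i : Fin s, AG B (rv b i) := fun i =>
    ((hAdm (b i.castSucc) (hsupp _)).1 ⟨hAd _, h0 i⟩).1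
  have hne : ∀ i : Fin s, rv b i ≠ 0 := fun i => (hAd i.castSucc).1.ne
  have hker := (hTENT s τ (rv b) X Y _ _ _ _ B (ECLU.sysG_restr hSys) (ECLU.sw_restr hSw) hBG hAG
    (hT B hTy) hne).2
  -- the class of a point of the isogenous curve
  have hz : ∀ z : ℤ, S2 B z → ∃ (g : Fin s → ℕ) (u v : ℤ) (j : ℕ), u ≠ 0 ∧ v ≠ 0 ∧
      z * B ^ j * u ^ 3 = (∏ i, rv b i ^ g i) * v ^ 3 ∧
      ∀ j, ∑ i, M j i * (g i : ZMod 3) = 0 := by
    rintro z (rfl | ⟨A, m', hA0, hsum, hprod, hcop, rfl⟩)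
    · exact ⟨fun _ => 0, 1, 1, 0, one_ne_zero, one_ne_zero, by simp, fun j => by simp⟩
    · obtain ⟨z', X1, Y1, u, v, j, hu, hv, hz', hPt, hAGz, hLoc, hs⟩ :=
        hL h n m k π p e r f E q A m' hN hh hE hq hq3' hqn hA0 hsum hprod hcop
      obtain ⟨g1, g2⟩ := (hAdm z' hs).2 ⟨hAGz, hLoc⟩
      obtain ⟨g, u', v', hu', hv', hg⟩ := hgen z' g1 g2
      change z' * u' ^ 3 = (∏ i, rv b i ^ g i) * v' ^ 3 at hg
      refine ⟨g, v * u', v' * u, j, mul_ne_zero hv hu', mul_ne_zero hv' hu, ?_, ?_⟩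
      · have e1 : A 0 ^ 2 * A 1 * B ^ j * (v * u') ^ 3 =
            (A 0 ^ 2 * A 1 * B ^ j * v ^ 3) * u' ^ 3 := by ring
        rw [e1, ← hz']
        linear_combination (u ^ 3) * hg
      · by_cases hex : ∃ i, ¬ 3 ∣ g i
        · exact hker g _ _ hex (pt_transport hPt hu' hv' hg)
        · push Not at hex
          intro j
          refine Finset.sum_eq_zero (fun i _ => ?_)
          rw [(ZMod.natCast_eq_zero_iff (g i) 3).2 (hex i), mul_zero]
  choose! g u v j hu hv hzg hzM using hz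
  let Ψ₂ : ℤ → LinearMap.ker M.mulVecLin := fun z =>
    if hS : S2 B z then ⟨fun i => (g z i : ZMod 3), by
      rw [LinearMap.mem_ker]
      funext j'
      exact hzM z hS j'⟩ else 0
  have hΨ₂ : ∀ z z', S2 B z → S2 B z' → Ψ₂ z = Ψ₂ z' →
      ∃ (u v : ℤ) (j : ℕ), u ≠ 0 ∧ v ≠ 0 ∧ z * u ^ 3 = z' * B ^ j * v ^ 3 := by
    intro z z' hS hS' hΨ
    have h2 : ∀ i, (g z i : ZMod 3) = g z' i := by
      intro i
      have h3 := congrArg (fun x : LinearMap.ker M.mulVecLin => (x : Fin s → ZMod 3) i) hΨ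
      simp only [Ψ₂, dif_pos hS, dif_pos hS'] at h3
      exact h3
    obtain ⟨A, A', hA0, hA0', hAA⟩ := BKER.prod_cube (rv b) hne (g z) (g z') h2
    refine ⟨B ^ j z * (u z * A * v z'), u z' * A' * v z, j z' + 2 * j z,
      mul_ne_zero (pow_ne_zero _ hB0) (mul_ne_zero (mul_ne_zero (hu z hS) hA0) (hv z' hS')),
      mul_ne_zero (mul_ne_zero (hu z' hS') hA0') (hv z hS), ?_⟩
    have e1 := hzg z hS
    have e2 := hzg z' hS'
    generalize (∏ i, rv b i ^ g z i) = w1 at *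
    generalize (∏ i, rv b i ^ g z' i) = w2 at *
    rw [pow_add, mul_comm 2 (j z), pow_mul]
    generalize B ^ j z = β at *
    generalize B ^ j z' = β' at *
    linear_combination (β ^ 2 * A ^ 3 * v z' ^ 3) * e1 - (β ^ 2 * A' ^ 3 * v z ^ 3) * e2 +
      (β ^ 2 * v z ^ 3 * v z' ^ 3) * hAA
  have hΨ₁' : ∀ ζ ζ', S1 B ζ → S1 B ζ' → Ψ₁ ζ = Ψ₁ ζ' →
      ∃ g g' : Eis, g ≠ 0 ∧ g' ≠ 0 ∧ ζ * g ^ 3 = ζ' * g' ^ 3 := by
    have hsel : ∀ ζ, S1 B ζ → SelM B ζ := by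
      rintro ζ (rfl | ⟨x, y, z, hxy, hz0, heq, rfl⟩)
      · exact selM_one B
      · exact hI B x y z hB0 h27 hxy hz0 heq
    intro ζ ζ' h2 h3 h4
    exact hΨ₁ ζ ζ' (hsel ζ h2) (hsel ζ' h3) h4
  obtain ⟨hfin, hidx⟩ := hK B hB0 hcf hnc W (LinearMap.ker M.mulVecLin) Ψ₁ Ψ₂ hΨ₁' hΨ₂
  have hkerd : Module.finrank (ZMod 3) (LinearMap.ker M.mulVecLin) = s - M.rank := by
    have h2 := LinearMap.finrank_range_add_finrank_ker M.mulVecLin
    rw [Module.finrank_fintype_fun_eq_card, Fintype.card_fin] at h2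
    have h3 : Module.finrank (ZMod 3) (LinearMap.range M.mulVecLin) = M.rank := rfl
    omega
  rw [Module.natCard_eq_pow_finrank (K := ZMod 3) (V := LinearMap.ker M.mulVecLin), Nat.card_zmod,
    hkerd] at hidx
  refine CubeRank.gen' B hcf habs _ hfin (hidx.trans ?_)
  rw [pow_add]
  exact Nat.mul_le_mul_right _ hW

end Pool.Agent.PTN

end

section

/-!
# NKIN: the classes of the rational points are in the minus part
-/

set_option autoImplicit false

open NumberField IsDedekindDomain Finset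
open scoped nonZeroDivisors Pointwise

namespace Pool.Agent.PTN

open Pool.Agent.Lib_helper18 Pool.Agent.Lib_helper18.Eis Pool.Agent.Lib_helper84.Cub
open Pool.Agent.PT Pool.Agent.PTE Pool.Agent.PT3

namespace NKIN

theorem cast0 : ¬ (((0 : ℕ) : ZMod 3) = 1) := by decide

theorem cast2 : ¬ (((2 : ℕ) : ZMod 3) = 1) := by decide

theorem three_dvd {B : ℤ} (hB : B ≠ 0) (h27 : ¬ (27 : ℤ) ∣ B) (h : lv B = 1) :
    (3 : ℤ) ∣ B ∧ ¬ (9 : ℤ) ∣ B := by
  have hp : Fact (Nat.Prime 3) := ⟨Nat.prime_three⟩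
  have h1 : ∀ k : ℕ, ((3 : ℕ) : ℤ) ^ k ∣ B ↔ k ≤ padicValInt 3 B := by
    intro k
    rw [padicValInt_dvd_iff]
    constructor
    · rintro (h | h)
      · exact absurd h hB
      · exact h
    · exact Or.inr
  have h3 : ¬ 3 ≤ padicValInt 3 B := by
    rw [← h1 3]
    norm_num
    exact h27
  have h4 : padicValInt 3 B = 1 := by
    have h5 : ((padicValInt 3 B : ℕ) : ZMod 3) = 1 := h
    have h6 : padicValInt 3 B = 0 ∨ padicValInt 3 B = 1 ∨ padicValInt 3 B = 2 := by omega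
    rcases h6 with h6 | h6 | h6
    · exfalso
      rw [h6] at h5
      exact cast0 h5
    · exact h6
    · exfalso
      rw [h6] at h5
      exact cast2 h5
  constructor
  · have := (h1 1).2 (by omega)
    simpa using this
  · intro h9
    have := (h1 2).1 (by norm_num; exact h9)
    omega

end NKIN

open PT.FDK in
theorem NKIN_thm (hSTM : STM) (hSPP : SPP) (hSTAR : STAR) (hSLC : SLC) (_hSSL : SSL)
    (_hSCJ : SCJ) (_hLCL : LCL) : Stmt_NKIN := by
  intro B x y z hB h27B hxy hz hxyz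
  have hB0 : (B : Eis) ≠ 0 := Pool.Agent.PT.FDK.cast_ne hB
  have hz0 : (z : Eis) ≠ 0 := Pool.Agent.PT.FDK.cast_ne hz
  obtain ⟨F, hF⟩ : ∃ F : ℕ → Eis, F = fun i => (x : Eis) + w ^ i * 1 * y := ⟨_, rfl⟩
  have hF0 : F 0 = (x : Eis) + y := by rw [hF]; ring
  have hF1 : F 1 = (x : Eis) + w * y := by rw [hF]; ring
  have hF2 : F 2 = (x : Eis) + w ^ 2 * y := by rw [hF]; ring
  have hcast : (x : Eis) ^ 3 + (y : Eis) ^ 3 = B * (z : Eis) ^ 3 := by
    have := congrArg (fun t : ℤ => (t : Eis)) hxyz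
    push_cast at this
    exact this
  have hprod : F 0 * F 1 * F 2 = (B : Eis) * (z : Eis) ^ 3 := by
    rw [← hcast, hF0, hF1, hF2]
    linear_combination ((x : Eis) ^ 2 * y + x * y ^ 2) * w_rel + ((x : Eis) * y ^ 2 + y ^ 3) * w_cube
  have hne : F 0 * F 1 * F 2 ≠ 0 := by
    rw [hprod]
    exact mul_ne_zero hB0 (pow_ne_zero _ hz0)
  have h0 : F 0 ≠ 0 := left_ne_zero_of_mul (left_ne_zero_of_mul hne)
  have h1 : F 1 ≠ 0 := right_ne_zero_of_mul (left_ne_zero_of_mul hne)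
  have h2 : F 2 ≠ 0 := right_ne_zero_of_mul hne
  have hc1 : conj (F 1) = F 2 := by
    rw [hF1, hF2, map_add, map_mul, conj_intCast, conj_intCast, conj_w]
  have hc2 : conj (F 2) = F 1 := by rw [← hc1, conj_conj]
  have hw0 : w ≠ 0 := fun h => by
    have := w_cube
    rw [h] at this
    norm_num at this
  have hFall : ∀ i, F i ≠ 0 := by
    intro i
    have hi : F i = F (i % 3) := by
      have : w ^ i = w ^ (i % 3) := by
        conv_lhs => rw [← Nat.div_add_mod i 3, pow_add, pow_mul, w_cube, one_pow, one_mul]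
      rw [hF]
      simp only [this]
    rw [hi]
    have h3 : i % 3 < 3 := Nat.mod_lt _ (by norm_num)
    interval_cases (i % 3)
    · exact h0
    · exact h1
    · exact h2
  -- the element
  obtain ⟨ζ, hζ⟩ : ∃ ζ : Eis, ζ = w ^ 2 * (F 1 * F 2 ^ 2) := ⟨_, rfl⟩
  have hζ0 : ζ ≠ 0 := by
    rw [hζ]
    exact mul_ne_zero (pow_ne_zero _ hw0) (mul_ne_zero h1 (pow_ne_zero _ h2))
  have hζn : ζ * conj ζ = (F 1 * F 2) ^ 3 := by
    rw [hζ, map_mul, map_mul, map_pow, map_pow, hc1, hc2, conj_w]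
    linear_combination ((F 1 * F 2) ^ 3 * (w ^ 3 + 1)) * w_cube
  have htm : ∀ π : PP, tm π.1 ζ (B : Eis) = 0 := by
    intro π
    have hs := hSTM π.1 π.2.1 (hSPP.2.2.2.1 π).1
    obtain ⟨hst, -⟩ := hSTAR π.1 (tm π.1) 1 hs x y 0 0 1 F (fun _ => 0 + w ^ 0 * 1 * 0)
      (fun i => (x : Eis) * 0 - w ^ i * 0 * y) (fun i => by rw [hF]) (fun i => by ring)
      (fun i => by ring) one_ne_zero hFall
    have hz3 : (z : Eis) ^ 3 ≠ 0 := pow_ne_zero _ hz0
    have hr : ∀ a : Eis, a ≠ 0 → tm π.1 a (F 0 * F 1 * F 2) = tm π.1 a (B : Eis) := by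
      intro a ha
      rw [hprod, right_mul hs ha hB0 hz3, pow_succ, right_mul hs ha (pow_ne_zero _ hz0) hz0,
        pow_two, right_mul hs ha hz0 hz0]
      have h3 : (3 : ZMod 3) = 0 := rfl
      linear_combination (tm π.1 a z) * h3
    rw [hr _ h1, hr _ h2, hr _ hw0] at hst
    rw [hζ, hs.mul _ _ _ (pow_ne_zero _ hw0) (mul_ne_zero h1 (pow_ne_zero _ h2)) hB0,
      hs.mul _ _ _ h1 (pow_ne_zero _ h2) hB0, pow_two, pow_two, hs.mul _ _ _ hw0 hw0 hB0,
      hs.mul _ _ _ h2 h2 hB0]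
    have h3 : (3 : ZMod 3) = 0 := rfl
    linear_combination hst + (tm π.1 w B + tm π.1 (F 2) B) * h3
  have hV : ∀ π : PP, ¬ π.1 ∣ (B : Eis) → 3 ∣ V π.1 ζ := by
    intro π hπB
    have hπ := π.2.1
    have h3 : ¬ π.1 ∣ 3 := (hSPP.2.2.2.1 π).1
    have hsum : V π.1 (F 0) + V π.1 (F 1) + V π.1 (F 2) = 3 * V π.1 (z : Eis) := by
      rw [← V_mul hπ h0 h1, ← V_mul hπ (mul_ne_zero h0 h1) h2, hprod,
        V_mul_not_dvd hπ hπB (pow_ne_zero _ hz0), V_pow hπ hz0]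
    have hd1 : (1 - w) ∣ (3 : Eis) := ⟨_, three_fac⟩
    have h01 : ¬ (π.1 ∣ F 0 ∧ π.1 ∣ F 1) := by
      rintro ⟨ha, hb⟩
      refine not_dvd_of hπ h3 hxy hd1 ?_ ?_
      · have : (1 - w) * (x : Eis) = F 1 - w * F 0 := by rw [hF0, hF1]; ring
        rw [this]
        exact dvd_sub hb (Dvd.dvd.mul_left ha _)
      · have : (1 - w) * (y : Eis) = F 0 - F 1 := by rw [hF0, hF1]; ring
        rw [this]
        exact dvd_sub ha hb
    have h12 : ¬ (π.1 ∣ F 1 ∧ π.1 ∣ F 2) := by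
      rintro ⟨ha, hb⟩
      refine not_dvd_of hπ h3 hxy hd1 ?_ ?_
      · have : (1 - w) * (x : Eis) = F 2 - w * F 1 := by rw [hF1, hF2]; ring
        rw [this]
        exact dvd_sub hb (Dvd.dvd.mul_left ha _)
      · have : (1 - w) * (y : Eis) = w ^ 2 * (F 1 - F 2) := by
          rw [hF1, hF2]
          linear_combination (-(1 - w) * (y : Eis)) * w_cube
        rw [this]
        exact Dvd.dvd.mul_left (dvd_sub ha hb) _
    have hd2 : (1 - w ^ 2) ∣ (3 : Eis) := ⟨1 - w, by rw [three_fac]; ring⟩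
    have h02 : ¬ (π.1 ∣ F 0 ∧ π.1 ∣ F 2) := by
      rintro ⟨ha, hb⟩
      refine not_dvd_of hπ h3 hxy hd2 ?_ ?_
      · have : (1 - w ^ 2) * (x : Eis) = F 2 - w ^ 2 * F 0 := by rw [hF0, hF2]; ring
        rw [this]
        exact dvd_sub hb (Dvd.dvd.mul_left ha _)
      · have : (1 - w ^ 2) * (y : Eis) = F 0 - F 2 := by rw [hF0, hF2]; ring
        rw [this]
        exact dvd_sub ha hb
    have hz0' : V π.1 (F 0) = 0 ∨ V π.1 (F 1) = 0 := by
      by_contra hcon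
      push Not at hcon
      apply h01
      constructor
      · by_contra h
        exact hcon.1 (V_eq_zero h)
      · by_contra h
        exact hcon.2 (V_eq_zero h)
    have hz1' : V π.1 (F 1) = 0 ∨ V π.1 (F 2) = 0 := by
      by_contra hcon
      push Not at hcon
      apply h12
      constructor
      · by_contra h
        exact hcon.1 (V_eq_zero h)
      · by_contra h
        exact hcon.2 (V_eq_zero h)
    have hz2' : V π.1 (F 0) = 0 ∨ V π.1 (F 2) = 0 := by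
      by_contra hcon
      push Not at hcon
      apply h02
      constructor
      · by_contra h
        exact hcon.1 (V_eq_zero h)
      · by_contra h
        exact hcon.2 (V_eq_zero h)
    have hw : ¬ π.1 ∣ w ^ 2 := by
      intro h
      apply hπ.not_isUnit
      apply isUnit_of_dvd_unit h
      exact (IsUnit.of_mul_eq_one (w ^ 2) (by rw [← pow_succ', w_cube])).pow 2
    rw [hζ, V_mul_not_dvd hπ hw (mul_ne_zero h1 (pow_ne_zero _ h2)), V_mul hπ h1 (pow_ne_zero _ h2),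
      V_pow hπ h2]
    omega
  have key : SelM B ζ := by
    refine ⟨hζ0, ⟨F 1 * F 2, hζn⟩, htm, hV, fun hl => ?_⟩
    obtain ⟨h3B, h9B⟩ := NKIN.three_dvd hB h27B hl
    obtain ⟨h27, hy3⟩ := FDKT.dvd27 h3B h9B hxy hxyz
    rw [hζ, hF1, hF2]
    exact ⟨FDKT.wild hSLC h27 hy3 3 FDKT.three_ne, FDKT.wild hSLC h27 hy3 4 FDKT.four_ne⟩
  rw [hζ, hF1, hF2] at key
  exact key

end Pool.Agent.PTN

end
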