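import Mathlib
import Pool.Agent.PTWX.C16

/-! Parts: PT.SLE, PT3.TALT, PT.NHN, PT.ESYS, PT.GT, PT3.ESYT, PT3.GTG, PT.GKI, PT3.LN1 -/

namespace Pool.Agent.PT.SLE
end Pool.Agent.PT.SLE

namespace Pool.Agent.PT.ESYS
end Pool.Agent.PT.ESYS

namespace Pool.Agent.PT.GT
end Pool.Agent.PT.GT

namespace Pool.Agent.PT3.LN1
end Pool.Agent.PT3.LN1

section

/-!
# Prime twists of rank zero: the symbol at `lam` of `g + h w` and a rational integer
-/

namespace Pool.Agent.PT

open Pool.Agent.Lib_helper18 Pool.Agent.Lib_helper18.Eis Pool.Agent.Lib_helper84.Cub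

namespace SLE

theorem self_neg {x : ZMod 3} (h : x = -x) : x = 0 := by
  revert x
  decide

theorem add_self_zero {x : ZMod 3} (h : x + x = 0) : x = 0 := by
  revert x
  decide

theorem self_add {x : ZMod 3} (h : x = x + x) : x = 0 := by
  revert x
  decide

theorem w_ne : (w : Eis) ≠ 0 := by
  intro h
  have := congrArg Eis.im h
  simp at this

theorem lam_ne : (lam : Eis) ≠ 0 := by
  intro h
  have := congrArg Eis.re h
  simp [lam] at this

theorem three_re : (3 : Eis).re = 3 := rfl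

theorem three_im : (3 : Eis).im = 0 := rfl

theorem three_ne : (3 : Eis) ≠ 0 := by
  intro h
  have := congrArg Eis.re h
  rw [three_re] at this
  simp at this

theorem int_ne {n : ℤ} (h : n ≠ 0) : (n : Eis) ≠ 0 := by
  intro h'
  have := congrArg Eis.re h'
  simp at this
  exact h this

theorem three_eq : (3 : Eis) = -1 * ((w * w) * (lam * lam)) := by
  ext
  · rw [three_re]
    simp [w, lam]
  · rw [three_im]
    simp [w, lam]

section

variable (hS : SSL) (hR : SREC)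

include hS

theorem mulL {a b c : Eis} (ha : a ≠ 0) (hb : b ≠ 0) (hc : c ≠ 0) :
    sl (a * b) c = sl a c + sl b c := hS.1 a b c ha hb hc

theorem skew {a b : Eis} (ha : a ≠ 0) (hb : b ≠ 0) : sl b a = -sl a b := hS.2.1 a b ha hb

theorem mulR {a b c : Eis} (ha : a ≠ 0) (hb : b ≠ 0) (hc : c ≠ 0) :
    sl a (b * c) = sl a b + sl a c := by
  rw [skew hS (mul_ne_zero hb hc) ha, mulL hS hb hc ha, skew hS ha hb, skew hS ha hc]
  ring

theorem self {a : Eis} (ha : a ≠ 0) : sl a a = 0 := self_neg (skew hS ha ha)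

theorem oneR {a : Eis} (ha : a ≠ 0) : sl a 1 = 0 := by
  have h := mulR hS ha one_ne_zero one_ne_zero
  rw [one_mul] at h
  exact self_add h

theorem negR {a : Eis} (ha : a ≠ 0) : sl a (-1) = 0 := by
  have h1 : (-1 : Eis) ≠ 0 := neg_ne_zero.mpr one_ne_zero
  have h := mulR hS ha h1 h1
  rw [neg_one_mul, neg_neg, oneR hS ha] at h
  exact add_self_zero h.symm

theorem powR {a b : Eis} (ha : a ≠ 0) (hb : b ≠ 0) (v : ℕ) : sl a (b ^ v) = v * sl a b := by
  induction v with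
  | zero => rw [pow_zero, oneR hS ha, Nat.cast_zero, zero_mul]
  | succ v ih =>
    rw [pow_succ, mulR hS ha (pow_ne_zero _ hb) hb, ih]
    push_cast
    ring

theorem threeR {a : Eis} (ha : a ≠ 0) : sl a 3 = 2 * sl a w + 2 * sl a lam := by
  have h1 : (-1 : Eis) ≠ 0 := neg_ne_zero.mpr one_ne_zero
  rw [three_eq, mulR hS ha h1 (mul_ne_zero (mul_ne_zero w_ne w_ne) (mul_ne_zero lam_ne lam_ne)),
    negR hS ha, mulR hS ha (mul_ne_zero w_ne w_ne) (mul_ne_zero lam_ne lam_ne),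
    mulR hS ha w_ne w_ne, mulR hS ha lam_ne lam_ne]
  ring

theorem splitR {a : Eis} (ha : a ≠ 0) {N : ℤ} (hN : N ≠ 0) (v : ℕ) :
    sl a ((3 ^ v * N : ℤ) : Eis) = v * sl a 3 + sl a (N : Eis) := by
  have h1 : ((3 ^ v * N : ℤ) : Eis) = 3 ^ v * (N : Eis) := by push_cast; ring
  rw [h1, mulR hS ha (pow_ne_zero _ three_ne) (int_ne hN), powR hS ha three_ne]

include hR

/-- The symbol of a primary element. -/
theorem prim {g h N : ℤ} {v : ℕ} (hN : ¬ (3 : ℤ) ∣ N) (hg : ¬ (3 : ℤ) ∣ g) (hh : (3 : ℤ) ∣ h) :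
    sl ((g : Eis) + h * w) ((3 ^ v * N : ℤ) : Eis) = v * ((g * (h / 3) : ℤ) : ZMod 3) := by
  have hN0 : N ≠ 0 := fun h => hN (h ▸ dvd_zero 3)
  have hp : Prim ((g : Eis) + h * w) := by
    refine ⟨?_, ?_⟩
    · simpa using hh
    · simpa using hg
  have hD : (g : Eis) + h * w ≠ 0 := by
    intro h0
    have := congrArg Eis.re h0
    simp at this
    exact hg (this ▸ dvd_zero 3)
  have hNp : Prim (N : Eis) := ⟨by simp, by simpa using hN⟩
  obtain ⟨k, rfl⟩ := hh
  rw [splitR hS hD hN0, hR.1 _ _ hp hNp, threeR hS hD, hR.2.1 _ hp, hR.2.2.1 _ hp, add_zero]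
  have h1 : g ^ 2 % 3 = 1 := sq_mod_three hg
  obtain ⟨j, hj⟩ : ∃ j, g ^ 2 = 1 + 3 * j := ⟨g ^ 2 / 3, by omega⟩
  have h2 : ((g : Eis) + (3 * k : ℤ) * w).norm = 1 + 3 * (j - g * k + 3 * k ^ 2) := by
    rw [norm_def]
    simp only [add_re, mul_re, add_im, mul_im, intCast_re, intCast_im, w_re, w_im]
    linear_combination hj
  have h3 : ((g : Eis) + (3 * k : ℤ) * w).re ^ 2 = 1 + 3 * j := by
    simp only [add_re, mul_re, intCast_re, intCast_im, w_re, w_im]
    linear_combination hj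
  rw [wt_eq h2, h3, wt_eq rfl, Int.mul_ediv_cancel_left k (by norm_num)]
  push_cast
  have h4 : (3 : ZMod 3) = 0 := by decide
  linear_combination ((v : ZMod 3) * (2 * k ^ 2 + 2 * j - g * k)) * h4

/-- The symbol of `w`. -/
theorem symw {N : ℤ} {v : ℕ} (hN : ¬ (3 : ℤ) ∣ N) :
    sl w ((3 ^ v * N : ℤ) : Eis) = -wt (N ^ 2) := by
  have hN0 : N ≠ 0 := fun h => hN (h ▸ dvd_zero 3)
  have hNp : Prim (N : Eis) := ⟨by simp, by simpa using hN⟩
  rw [splitR hS w_ne hN0, threeR hS w_ne, self hS w_ne, hR.2.2.2, skew hS (int_ne hN0) w_ne,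
    hR.2.1 _ hNp, norm_intCast]
  ring

end

end SLE

open _root_.Pool.Agent.PT.SLE in
theorem SLE_thm (hSSL : SSL) (hSREC : SREC) : SLE := by
  intro g h N v hN
  have hN0 : N ≠ 0 := fun h => hN (h ▸ dvd_zero 3)
  have hM : ((3 ^ v * N : ℤ) : Eis) ≠ 0 := int_ne (mul_ne_zero (pow_ne_zero _ (by norm_num)) hN0)
  have h4 : (3 : ZMod 3) = 0 := by decide
  refine ⟨fun h1 h2 => prim hSSL hSREC hN h1 h2, fun h1 h2 => ?_, fun h1 h2 => ?_⟩
  · have e : (g : Eis) + h * w = w * (((h - g : ℤ) : Eis) + ((-g : ℤ) : Eis) * w) := by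
      ext <;> simp
    have hr : ¬ (3 : ℤ) ∣ h - g := by omega
    have hd : ((h - g : ℤ) : Eis) + ((-g : ℤ) : Eis) * w ≠ 0 := by
      intro h0
      have := congrArg Eis.re h0
      simp at this
      omega
    rw [e, mulL hSSL w_ne hd hM, symw hSSL hSREC hN, prim hSSL hSREC hN hr (by omega)]
    obtain ⟨k, rfl⟩ := h1
    have e1 : -(3 * k) / 3 = -k := by omega
    have e2 : 3 * k / 3 = k := by omega
    rw [e1, e2]
    push_cast
    linear_combination ((v : ZMod 3) * k * k) * h4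
  · have e : (g : Eis) + h * w = w * (w * (((-h : ℤ) : Eis) + ((g - h : ℤ) : Eis) * w)) := by
      ext
      · simp
      · simp
        ring
    have hr : ¬ (3 : ℤ) ∣ -h := by omega
    have hd : ((-h : ℤ) : Eis) + ((g - h : ℤ) : Eis) * w ≠ 0 := by
      intro h0
      have := congrArg Eis.re h0
      simp at this
      omega
    rw [e, mulL hSSL w_ne (mul_ne_zero w_ne hd) hM, mulL hSSL w_ne hd hM, symw hSSL hSREC hN,
      prim hSSL hSREC hN hr h2]
    push_cast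
    linear_combination (-wt (N ^ 2)) * h4

end Pool.Agent.PT

end

section

/-!
# PT3, module TALT (helper68): antisymmetry of the pairing
-/

namespace Pool.Agent.PT3

open Pool.Agent.Lib_helper18 Pool.Agent.Lib_helper18.Eis Pool.Agent.Lib_helper84.Cub
open Pool.Agent.PT Pool.Agent.PTE

namespace TALT

theorem sol_swap {b x p q p' q' : ℤ} (h : Sol b x p q p' q') : Sol x b p (-p') (-q) q' where
  eq := by linear_combination h.eq
  n1 := by
    intro h0
    apply h.n2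
    linear_combination h0
  n2 := by
    intro h0
    apply h.n1
    linear_combination h0

theorem SV_one_zero (s : Eis → Eis → ZMod 3) (x p q p' q' : ℤ) : SV s x p q p' q' 1 0 = 0 := by
  have h : ∀ (u v : ℤ) (i : ℕ), Df 1 0 u v i = (u : Eis) := by
    intro u v i
    unfold Df
    simp
  unfold SV
  simp only [h]
  ring

theorem TT_none {B b x p q p' q' : ℤ} (h : ¬ LC lam b) : TT none B b x p q p' q' = 0 := by
  unfold TT
  exact if_neg h

/-- The sum of the two pairings is the contribution of `lam`. -/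
theorem key (hLFIG : LFIG) (hLFIN : LFIN) (hLAMG : LAMG) {B b x p q p' q' : ℤ} (hB : BG B)
    (hb : AG B b) (hx : AG B x) (hS : Sol b x p q p' q') :
    OO B b x p q p' q' + OO B x b p (-p') (-q) q' =
      TT none B b x p q p' q' + TT none B x b p (-p') (-q) q' - UV sl B b x p q p' q' := by
  have f1 := hLFIG B b x p q p' q' hB hb hx hS.toSolW
  have f2 := hLFIG B x b p (-p') (-q) q' hB hx hb (sol_swap hS).toSolW
  obtain ⟨f3, e3⟩ := hLFIN.2.1 B b x p q p' q' hB.ne hb.ne hx.ne hS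
  have hd : ∀ v : Pl, v ≠ none → TT v B b x p q p' q' + TT v B x b p (-p') (-q) q' -
      UV (sy v) B b x p q p' q' = 0 := by
    intro v hv
    cases v with
    | none => exact absurd rfl hv
    | some π =>
      rw [hLAMG π B b x p q p' q' hB hb hx hS]
      exact sub_self _
  have f4 : (Function.support fun v : Pl => TT v B b x p q p' q' +
      TT v B x b p (-p') (-q) q' - UV (sy v) B b x p q p' q').Finite := by
    apply (Set.finite_singleton (none : Pl)).subset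
    intro v hv
    by_contra h0
    exact hv (hd v h0)
  have h1 : ∑ᶠ v : Pl, (TT v B b x p q p' q' + TT v B x b p (-p') (-q) q') =
      ∑ᶠ v : Pl, (TT v B b x p q p' q' + TT v B x b p (-p') (-q) q' -
        UV (sy v) B b x p q p' q') + ∑ᶠ v : Pl, UV (sy v) B b x p q p' q' := by
    rw [← finsum_add_distrib f4 f3]
    apply finsum_congr
    intro v
    ring
  have h2 : ∑ᶠ v : Pl, (TT v B b x p q p' q' + TT v B x b p (-p') (-q) q' -
        UV (sy v) B b x p q p' q') = TT none B b x p q p' q' +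
        TT none B x b p (-p') (-q) q' - UV sl B b x p q p' q' :=
    finsum_eq_single _ none hd
  unfold OO
  rw [← finsum_add_distrib f1 f2, h1, e3, add_zero, h2]

end TALT

theorem TALT_thm (hSTM : STM) (hSPP : SPP) (hSSL : SSL) (hSLC : SLC) (hSCJ : SCJ) (hLCI : LCI)
    (hAVV : AVV) (hLFIG : LFIG) (hLFIN : LFIN) (hLAMG : LAMG) (hLB : LB) (hLVA : LVA)
    (hLE1 : LE1) (hLCL : LCL) : TALT := by
  intro B b x p q p' q' X Y X' Y' hB hb hx hS hc
  have hk := TALT.key hLFIG hLFIN hLAMG hB hb hx hS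
  unfold OT
  rw [neg_neg, neg_neg]
  by_cases hbL : LC lam b
  · rw [if_pos hbL, add_zero]
    by_cases hxL : LC lam x
    · rw [if_pos hxL, add_zero, hk,
        hLB.1 B b x p q p' q' hB.ne hb.ne hx.ne hS hbL hxL, sub_self]
    · rw [if_neg hxL, ← add_assoc, hk, TALT.TT_none hxL]
      rcases hc with ⟨-, h1 | ⟨h1, h2, rfl, rfl⟩ | h1⟩ | ⟨h1, h2, h3, -⟩
      · exact absurd h1 hxL
      · rw [TALT.SV_one_zero, hLB.2 B b x p q p' q' hB.ne hb.ne hx.ne hS hbL h1 h2]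
        ring
      · rw [hLVA B b x p q p' q' X' Y' hB.ne hb.ne hx.ne hS hbL h1]
        ring
      · exfalso
        have h4 := ((hLCL.1 b hb.ne).1 hbL).1
        rw [h2, h1] at h4
        exact absurd h4 (by decide)
  · rw [if_neg hbL]
    rcases hc with ⟨h1, -⟩ | ⟨h1, h2, h3, rfl, rfl, h4, h5⟩
    · exact absurd h1 hbL
    · rw [TALT.SV_one_zero, add_zero, if_neg h4, ← add_assoc, hk, TALT.TT_none hbL,
        TALT.TT_none h4,
        hLE1 B b x p q p' q' X' Y' hB.ne hb.ne hx.ne hS h1 h2 h3 h4 h5]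
      ring

end Pool.Agent.PT3

end

section

/-!
# Hilbert 90 for the field `Q(w, x^(1/3))` (module NHN)
-/

open NumberField IsDedekindDomain Finset
open scoped nonZeroDivisors Pointwise

namespace Pool.Agent.PT

open Pool.Agent.Lib_helper18 Pool.Agent.Lib_helper18.Eis Pool.Agent.Lib_helper84.Cub

namespace NHN

set_option linter.unusedSectionVars false

variable {x : ℤ} {L : Type} [Field L] [NumberField L] {ι : Eis →+* L} {θ : L}
  {σ c : L ≃ₐ[ℚ] L}

theorem w3 (ι : Eis →+* L) : ι w ^ 3 = 1 := by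
  rw [← map_pow, w_cube, map_one]

theorem wrel (ι : Eis →+* L) : ι w ^ 2 + ι w + 1 = 0 := by
  rw [← map_pow, ← map_add, ← map_one ι, ← map_add, w_rel, map_zero]

theorem s1 (h : CubF x L ι θ σ c) (a b d : Eis) :
    σ (ι a + ι b * θ + ι d * θ ^ 2) = ι a + ι b * (ι w * θ) + ι d * (ι w * θ) ^ 2 := by
  rw [map_add, map_add, map_mul, map_mul, map_pow, h.sι, h.sι, h.sι, h.sθ]

theorem s3θ (h : CubF x L ι θ σ c) : σ (σ (σ θ)) = θ := by
  rw [h.sθ, map_mul, h.sι, h.sθ, map_mul, map_mul, h.sι, h.sθ]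
  linear_combination θ * w3 ι

theorem s3 (h : CubF x L ι θ σ c) (z : L) : σ (σ (σ z)) = z := by
  obtain ⟨m, a, b, d, hm, hz⟩ := h.rep z
  have hm' : (m : L) ≠ 0 := Int.cast_ne_zero.2 hm
  have h1 : σ (σ (σ ((m : L) * z))) = (m : L) * z := by
    rw [hz]
    simp only [map_add, map_mul, map_pow, h.sι, s3θ h]
  rw [map_mul, map_mul, map_mul, map_intCast, map_intCast, map_intCast] at h1
  exact mul_left_cancel₀ hm' h1

theorem fixed (h : CubF x L ι θ σ c) {z : L} (hz : σ z = z) :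
    ∃ a b : Eis, b ≠ 0 ∧ z * ι b = ι a := by
  obtain ⟨m, a, b, d, hm, hmz⟩ := h.rep z
  have h1 : σ ((m : L) * z) = (m : L) * z := by rw [map_mul, map_intCast, hz]
  rw [hmz, s1 h] at h1
  have h2 : ι 0 + ι (b * (w - 1)) * θ + ι (d * (w ^ 2 - 1)) * θ ^ 2 = 0 := by
    rw [map_zero, map_mul, map_mul, map_sub, map_sub, map_pow, map_one]
    linear_combination h1
  obtain ⟨-, h3, h4⟩ := h.lin _ _ _ h2
  have hw1 : (w - 1 : Eis) ≠ 0 := by
    intro hc
    have := congrArg Eis.im hc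
    simp at this
  have hw2 : (w ^ 2 - 1 : Eis) ≠ 0 := by
    rw [w_sq]
    intro hc
    have := congrArg Eis.im hc
    simp at this
  have hb : b = 0 := (mul_eq_zero.1 h3).resolve_right hw1
  have hd : d = 0 := (mul_eq_zero.1 h4).resolve_right hw2
  have hm' : (m : Eis) ≠ 0 := by
    intro hc
    have h5 := congrArg Eis.re hc
    rw [intCast_re, zero_re] at h5
    exact hm h5
  refine ⟨a, (m : Eis), hm', ?_⟩
  rw [hb, hd] at hmz
  rw [map_intCast, mul_comm, hmz, map_zero]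
  ring

end NHN

theorem NHN_thm : NHN := by
  intro x L _ _ ι θ σ c hx h
  refine ⟨NHN.s3 h, fun z hz => NHN.fixed h hz, fun u hu => ?_⟩
  have hu' : (u : L) * σ u * σ (σ u) = 1 := by
    have h1 := congrArg (Units.val) hu
    simp only [Finset.prod_range_succ, Finset.prod_range_zero, one_mul, pow_zero, pow_one,
      one_smul, pow_two, mul_smul] at h1
    simpa using h1
  have hθ : θ ≠ 0 := by
    rintro rfl
    have h1 := h.cube
    rw [zero_pow (by norm_num)] at h1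
    exact hx (Int.cast_eq_zero.1 h1.symm)
  -- the sum
  have key : ∀ e : L, (u : L) * σ (e + u * σ e + u * σ u * σ (σ e)) =
      e + u * σ e + u * σ u * σ (σ e) := by
    intro e
    rw [map_add, map_add, map_mul, map_mul, map_mul, NHN.s3 h]
    linear_combination e * hu'
  have main : ∃ e : L, e + u * σ e + u * σ u * σ (σ e) ≠ 0 := by
    by_contra hc
    push Not at hc
    have h1 := hc 1
    have h2 := hc θ
    have h3 := hc (θ ^ 2)
    have e1 : σ (σ θ) = ι w ^ 2 * θ := by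
      rw [h.sθ, map_mul, h.sι, h.sθ]
      ring
    have e2 : σ (σ (θ ^ 2)) = (ι w ^ 2 * θ) ^ 2 := by rw [map_pow, map_pow, e1]
    have e3 : σ (θ ^ 2) = (ι w * θ) ^ 2 := by rw [map_pow, h.sθ]
    rw [map_one, map_one, mul_one, mul_one] at h1
    rw [e1, h.sθ] at h2
    rw [e2, e3] at h3
    have h2' : 1 + u * ι w + u * σ u * ι w ^ 2 = 0 := by
      have : θ * (1 + u * ι w + u * σ u * ι w ^ 2) = 0 := by linear_combination h2
      exact (mul_eq_zero.1 this).resolve_left hθ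
    have h3' : 1 + u * ι w ^ 2 + u * σ u * ι w ^ 4 = 0 := by
      have : θ ^ 2 * (1 + u * ι w ^ 2 + u * σ u * ι w ^ 4) = 0 := by linear_combination h3
      exact (mul_eq_zero.1 this).resolve_left (pow_ne_zero _ hθ)
    have h4 : (3 : L) = 0 := by
      linear_combination h1 + h2' + h3' - (u : L) * NHN.wrel ι -
        (u : L) * σ u * (NHN.wrel ι + ι w * NHN.w3 ι)
    exact three_ne_zero h4
  obtain ⟨e, he⟩ := main
  refine ⟨Units.mk0 _ he, ?_⟩
  rw [eq_div_iff_mul_eq']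
  ext
  rw [Units.val_mul, AlgEquiv.smul_units_def]
  simp only [Units.coe_map, Units.val_mk0]
  have := key e
  simpa [mul_comm] using this

end Pool.Agent.PT

end

section

/-!
# ESYS: from a basis to a system with solutions
-/

namespace Pool.Agent.PT

open Pool.Agent.Lib_helper18 Pool.Agent.Lib_helper18.Eis Pool.Agent.Lib_helper84.Cub

namespace ESYS

theorem cast_ne {n : ℤ} (h : n ≠ 0) : (n : Eis) ≠ 0 := by
  intro h1
  apply h
  have := congrArg Eis.re h1
  simpa using this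

theorem dvd_int {ρ : Eis} {p : ℕ} (hp : p.Prime) (h : ρ.norm = p) {m : ℤ}
    (hd : ρ ∣ (m : Eis)) : (p : ℤ) ∣ m := by
  obtain ⟨t, ht⟩ := hd
  have h1 := congrArg Eis.norm ht
  rw [norm_intCast, norm_mul, h] at h1
  exact (Nat.prime_iff_prime_int.1 hp).dvd_of_dvd_pow ⟨t.norm, h1⟩

theorem V_p {ρ : Eis} {p : ℕ} (hρ : Prime ρ) (hn : (p : Eis) = ρ * conj ρ)
    (hna : ¬ Associated ρ (conj ρ)) : V ρ (p : Eis) = 1 := by
  have hc : Prime (conj ρ) := prime_conj hρ
  have hd : ¬ ρ ∣ conj ρ := fun h => hna ((hρ.dvd_prime_iff_associated hc).1 h)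
  rw [hn, V_mul hρ hρ.ne_zero hc.ne_zero, V_self, V_eq_zero hd]

theorem prime_cases {n m k : ℕ} {π : Fin m → PP} {p e : Fin m → ℕ} {r f : Fin k → ℕ}
    (h : NF n π p e r f) {l : ℕ} (hl : l.Prime) (hd : l ∣ n) : (∃ i, p i = l) ∨ ∃ j, r j = l := by
  rw [h.eq] at hd
  rcases hl.dvd_mul.1 hd with h1 | h1
  · obtain ⟨i, -, hi⟩ := (hl.prime.dvd_finsetProd_iff _).1 h1
    exact Or.inl ⟨i, ((Nat.prime_dvd_prime_iff_eq hl (h.pp i)).1 (hl.dvd_of_dvd_pow hi)).symm⟩
  · obtain ⟨i, -, hi⟩ := (hl.prime.dvd_finsetProd_iff _).1 h1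
    exact Or.inr ⟨i, ((Nat.prime_dvd_prime_iff_eq hl (h.rp i)).1 (hl.dvd_of_dvd_pow hi)).symm⟩

theorem V_n {n m k : ℕ} {π : Fin m → PP} {p e : Fin m → ℕ} {r f : Fin k → ℕ}
    (h : NF n π p e r f) {ρ : Eis} (i0 : Fin m) (hρ : Prime ρ) (hnorm : ρ.norm = p i0)
    (hn : (p i0 : Eis) = ρ * conj ρ) (hna : ¬ Associated ρ (conj ρ)) : V ρ (n : Eis) = e i0 := by
  classical
  set M : ℕ := (∏ i ∈ Finset.univ.erase i0, p i ^ e i) * ∏ j, r j ^ f j with hM
  have hnM : n = p i0 ^ e i0 * M := by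
    rw [h.eq, hM, ← mul_assoc, Finset.mul_prod_erase Finset.univ (fun i => p i ^ e i)
      (Finset.mem_univ i0)]
  have hMd : ¬ ρ ∣ (M : Eis) := by
    intro hd
    have h1 : ρ ∣ ((M : ℤ) : Eis) := by
      rw [Int.cast_natCast]
      exact hd
    have h2 := dvd_int (h.pp i0) hnorm h1
    have h3 : p i0 ∣ M := by exact_mod_cast h2
    have hl := h.pp i0
    rcases hl.dvd_mul.1 h3 with h4 | h4
    · obtain ⟨i, hi, hi'⟩ := (hl.prime.dvd_finsetProd_iff _).1 h4
      have h5 := (Nat.prime_dvd_prime_iff_eq hl (h.pp i)).1 (hl.dvd_of_dvd_pow hi')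
      exact (Finset.ne_of_mem_erase hi) (h.pinj h5).symm
    · obtain ⟨i, -, hi'⟩ := (hl.prime.dvd_finsetProd_iff _).1 h4
      have h5 := (Nat.prime_dvd_prime_iff_eq hl (h.rp i)).1 (hl.dvd_of_dvd_pow hi')
      have h6 := h.p1 i0
      have h7 := h.r2 i
      omega
  have hM0 : (M : Eis) ≠ 0 := by
    intro h0
    rw [h0] at hMd
    exact hMd (dvd_zero _)
  have hp0 : (p i0 : Eis) ≠ 0 := by
    rw [hn]
    exact mul_ne_zero hρ.ne_zero (prime_conj hρ).ne_zero
  rw [hnM, Nat.cast_mul, Nat.cast_pow, V_mul hρ (pow_ne_zero _ hp0) hM0, V_pow hρ hp0,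
    V_p hρ hn hna, V_eq_zero hMd]
  ring

theorem sol_swap {b x p q p' q' : ℤ} (h : Sol b x p q p' q') : Sol x b p (-p') (-q) q' := by
  have h1 := h.eq
  have h2 := h.n1
  have h3 := h.n2
  refine ⟨⟨?_, ?_⟩, ?_⟩
  · linear_combination h1
  · intro h0
    apply h3
    linear_combination h0
  · intro h0
    apply h2
    linear_combination h0

theorem cube_of {x u v : ℤ} (hv : v ≠ 0) (h : u ^ 3 = x * v ^ 3) : ∃ t : ℤ, t ^ 3 = x := by
  have h1 : v ^ 3 ∣ u ^ 3 := ⟨x, by rw [h]; ring⟩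
  have h2 : v ∣ u := (Int.pow_dvd_pow_iff (by norm_num)).1 h1
  obtain ⟨t, rfl⟩ := h2
  refine ⟨t, ?_⟩
  have h3 : v ^ 3 ≠ 0 := pow_ne_zero _ hv
  apply mul_left_cancel₀ h3
  linear_combination h

theorem sol_of {b x p q p' q' : ℤ} (h : SolW b x p q p' q') (hb : b ≠ 0)
    (hx : ¬ ∃ t : ℤ, t ^ 3 = x) : Sol b x p q p' q' := by
  refine ⟨h, ?_⟩
  intro h0
  by_cases hp' : p' = 0
  · subst hp'
    have hp : p ^ 3 = 0 := by linear_combination h0
    have h1 : q ^ 3 = x * q' ^ 3 := by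
      apply mul_left_cancel₀ hb
      linear_combination h.eq - hp
    have hq' : q' ≠ 0 := by
      rintro rfl
      apply h.n1
      have h2 : q ^ 3 = 0 := by linear_combination h1
      rw [hp, h2]
      ring
    exact hx (cube_of hq' h1)
  · exact hx (cube_of (u := p) hp' (by linear_combination h0))

/-- the symbols of two admissible classes -/
theorem tm_zero (hSPP : SPP) (hSCJ : SCJ) {n m k : ℕ} {π : Fin m → PP} {p e : Fin m → ℕ}
    {r f : Fin k → ℕ} {w0 : ZMod 3} {c : Fin m → ZMod 3} (h : NF n π p e r f) {x y : ℤ}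
    (hx : AdmC n π w0 c x) (hy : AdmC n π w0 c y) (ρ : PP) :
    tm ρ.1 (x : Eis) (y : Eis) = 0 := by
  obtain ⟨-, hS2, -, hS4, -, hS6⟩ := hSPP
  obtain ⟨hC1, -, -, hC4⟩ := hSCJ
  obtain ⟨l, hl, ⟨hl3, hρ⟩ | ⟨hl3, hnorm, hn, hna⟩⟩ := hS6 ρ
  · rw [hρ]
    exact hC4 l hl hl3 x y hx.ne hy.ne
  by_cases hln : l ∣ n
  · rcases prime_cases h hl hln with ⟨i, rfl⟩ | ⟨j, rfl⟩
    · -- the key computation
      have key : ∀ σ : PP, σ = π i → σ.1.norm = p i → (p i : Eis) = σ.1 * conj σ.1 →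
          ¬ Associated σ.1 (conj σ.1) → tm σ.1 (x : Eis) (y : Eis) = 0 := by
        intro σ hσ h1 h2 h3
        have hV := V_n h i σ.2.1 h1 h2 h3
        have e1 := hx.sym i
        have e2 := hy.sym i
        rw [← hσ, hV] at e1 e2
        have h4 : (e i : ZMod 3) * tm σ.1 (x : Eis) (y : Eis) = 0 := by
          unfold tm
          linear_combination (V σ.1 (y : Eis) : ZMod 3) * e1 - (V σ.1 (x : Eis) : ZMod 3) * e2
        rcases h.pe i with h5 | h5
        · rw [h5] at h4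
          simpa using h4
        · rw [h5] at h4
          generalize tm σ.1 (x : Eis) (y : Eis) = z at h4
          revert z
          decide
      have hd : ρ.1 ∣ (π i).1 * conj (π i).1 := by
        rw [← h.pπ i, hn]
        exact Dvd.intro _ rfl
      rcases ρ.2.1.dvd_or_dvd hd with h1 | h1
      · have h2 := hS2 ρ (π i) ((ρ.2.1.dvd_prime_iff_associated (π i).2.1).1 h1)
        exact key ρ h2 hnorm hn hna
      · obtain ⟨σ, hσ⟩ := (hS4 (π i)).2
        have h2 : ρ = σ := by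
          apply hS2
          rw [hσ]
          exact (ρ.2.1.dvd_prime_iff_associated (prime_conj (π i).2.1)).1 h1
        have h3 : (π i).1 = conj ρ.1 := by rw [h2, hσ, conj_conj]
        have h4 := key (π i) rfl (by rw [h3, norm_conj, hnorm])
          (by rw [h3, conj_conj, mul_comm, ← hn])
          (by
            rw [h3, conj_conj]
            exact fun h => hna h.symm)
        have h5 : ¬ (π i).1 ∣ 3 := (hS4 (π i)).1
        have h6 := hC1 (π i).1 (x : Eis) (y : Eis) (π i).2.1 h5 (cast_ne hx.ne) (cast_ne hy.ne)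
        rw [h4, neg_zero, conj_intCast, conj_intCast, h3, conj_conj] at h6
        exact h6
    · have := h.r2 j
      omega
  · have hnd : ∀ z : ℤ, AdmC n π w0 c z → V ρ.1 (z : Eis) = 0 := by
      intro z hz
      apply V_eq_zero
      intro hd
      exact hln (hz.supp l hl (dvd_int hl hnorm hd))
    unfold tm
    rw [hnd x hx, hnd y hy]
    simp

end ESYS

open _root_.Pool.Agent.PT.ESYS in
theorem ESYS_thm (hSTM : STM) (hSPP : SPP) (hSCJ : SCJ) (hHN : HN) : ESYS := by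
  classical
  intro n m k π p e r f w0 c s b hNF hA hV hind hC9
  have hnc : ∀ i, ¬ ∃ t : ℤ, t ^ 3 = b i := by
    intro i
    have := hind (fun j => if j = i then 1 else 0) ⟨i, by simp⟩
    simpa [Finset.prod_ite_eq'] using this
  have hex : ∀ j i : Fin s, ∃ P Q P' Q' : ℤ, Sol (b j) (b i) P Q P' Q' := by
    intro j i
    obtain ⟨P, Q, P', Q', h⟩ := hHN (b j) (b i) (hA j).ne (hA j).three (hnc j) (hV j) (hA i).ne
      (hA i).three (fun ρ => tm_zero hSPP hSCJ hNF (hA j) (hA i) ρ)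
    exact ⟨P, Q, P', Q', sol_of h (hA j).ne (hnc i)⟩
  choose P Q P' Q' hsol using hex
  refine ⟨fun j i => if j < i then P j i else P i j, fun j i => if j < i then Q j i else - P' i j,
    fun j i => if j < i then P' j i else - Q i j, fun j i => if j < i then Q' j i else Q' i j,
    hind, hC9, ?_, ?_⟩
  · intro j i hji
    rcases lt_or_gt_of_ne hji with h | h
    · simp only [h, if_true]
      exact hsol j i
    · simp only [not_lt_of_gt h, if_false]
      exact sol_swap (hsol i j)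
  · intro j i hji
    rcases lt_or_gt_of_ne hji with h | h
    · simp [h, not_lt_of_gt h]
    · simp [h, not_lt_of_gt h]

end Pool.Agent.PT

end

section

/-!
# GT: existence, uniqueness and properties of `t`
-/

set_option autoImplicit false
set_option linter.unusedSectionVars false

namespace Pool.Agent.PT

open Pool.Agent.Lib_helper18 Pool.Agent.Lib_helper18.Eis Pool.Agent.Lib_helper84.Cub

namespace GT

variable {L : Type} [Field L] [NumberField L] {ω : L}

/-- the powers of `ω` -/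
def E (ω : L) (t : ZMod 3) : L := ω ^ t.val

theorem cube_one (rel : ω ^ 2 + ω + 1 = 0) : ω ^ 3 = 1 := by
  linear_combination (ω - 1) * rel

theorem E_pow (rel : ω ^ 2 + ω + 1 = 0) (n : ℕ) : ω ^ n = E ω (n : ZMod 3) := by
  rw [E, ZMod.val_natCast]
  conv_lhs => rw [← Nat.div_add_mod n 3, pow_add, pow_mul, cube_one rel, one_pow, one_mul]

theorem E_add (rel : ω ^ 2 + ω + 1 = 0) (s t : ZMod 3) : E ω (s + t) = E ω s * E ω t := by
  have h : E ω s * E ω t = ω ^ (s.val + t.val) := by rw [E, E, pow_add]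
  rw [h, E_pow rel]
  rw [Nat.cast_add, ZMod.natCast_zmod_val, ZMod.natCast_zmod_val]

theorem E_zero : E ω 0 = 1 := by
  rw [E, ZMod.val_zero, pow_zero]

theorem ω_ne_zero (rel : ω ^ 2 + ω + 1 = 0) : ω ≠ 0 := by
  rintro rfl
  simp at rel

theorem E_ne_zero (rel : ω ^ 2 + ω + 1 = 0) (t : ZMod 3) : E ω t ≠ 0 :=
  pow_ne_zero _ (ω_ne_zero rel)

theorem E_neg (rel : ω ^ 2 + ω + 1 = 0) (t : ZMod 3) : E ω (-t) = (E ω t)⁻¹ := by
  refine eq_inv_of_mul_eq_one_left ?_
  rw [← E_add rel, neg_add_cancel, E_zero]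

theorem ω_ne_one (rel : ω ^ 2 + ω + 1 = 0) : ω ≠ 1 := by
  intro h
  rw [h] at rel
  have h3 : (3 : L) = 0 := by linear_combination rel
  exact three_ne_zero h3

theorem E_inj (rel : ω ^ 2 + ω + 1 = 0) {s t : ZMod 3} (h : E ω s = E ω t) : s = t := by
  have h1 : E ω (s - t) = 1 := by
    rw [sub_eq_add_neg, E_add rel, E_neg rel, h, mul_inv_cancel₀ (E_ne_zero rel t)]
  have h2 : ∀ u : ZMod 3, E ω u = 1 → u = 0 := by
    intro u hu
    have hne := ω_ne_one rel
    have hu' : u = 0 ∨ u = 1 ∨ u = 2 := by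
      revert u
      intro u _
      fin_cases u
      · exact Or.inl rfl
      · exact Or.inr (Or.inl rfl)
      · exact Or.inr (Or.inr rfl)
    rcases hu' with rfl | rfl | rfl
    · rfl
    · exfalso
      apply hne
      have : (1 : ZMod 3).val = 1 := rfl
      rw [E, this, pow_one] at hu
      exact hu
    · exfalso
      have : (2 : ZMod 3).val = 2 := rfl
      rw [E, this] at hu
      apply hne
      have h3 := cube_one rel
      calc ω = ω ^ 2 * ω := by rw [hu, one_mul]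
        _ = ω ^ 3 := by ring
        _ = 1 := h3
  exact sub_eq_zero.mp (h2 _ h1)

/-- Two elements with the same cube. -/
theorem of_cube (rel : ω ^ 2 + ω + 1 = 0) {x y : L} (h : x ^ 3 = y ^ 3) :
    ∃ k : ZMod 3, x = E ω k * y := by
  have h1 : (x - y) * ((x - ω * y) * (x - ω ^ 2 * y)) = 0 := by
    have h3 := cube_one rel
    have : (x - y) * ((x - ω * y) * (x - ω ^ 2 * y)) =
        x ^ 3 - y ^ 3 - (ω ^ 2 + ω + 1) * (x ^ 2 * y - x * y ^ 2) +
          (ω ^ 3 - 1) * (x * y ^ 2 - y ^ 3) := by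
      ring
    rw [this, h, rel, h3]
    ring
  rcases mul_eq_zero.mp h1 with h2 | h2
  · exact ⟨0, by rw [E_zero, one_mul]; exact sub_eq_zero.mp h2⟩
  rcases mul_eq_zero.mp h2 with h2 | h2
  · refine ⟨1, ?_⟩
    have : (1 : ZMod 3).val = 1 := rfl
    rw [E, this, pow_one]
    exact sub_eq_zero.mp h2
  · refine ⟨2, ?_⟩
    have : (2 : ZMod 3).val = 2 := rfl
    rw [E, this]
    exact sub_eq_zero.mp h2

/-- An automorphism which inverts `ω`. -/
theorem map_E (rel : ω ^ 2 + ω + 1 = 0) {g : L ≃ₐ[ℚ] L} (hg : g ω = ω ^ 2) (t : ZMod 3) :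
    g (E ω t) = E ω (-t) := by
  rw [E_neg rel]
  refine eq_inv_of_mul_eq_one_left ?_
  rw [E, map_pow, hg, ← pow_mul, ← pow_add]
  have : 2 * t.val + t.val = 3 * t.val := by ring
  rw [this, pow_mul, cube_one rel, one_pow]

/-- An automorphism which fixes `ω`. -/
theorem map_E' {g : L ≃ₐ[ℚ] L} (hg : g ω = ω) (t : ZMod 3) : g (E ω t) = E ω t := by
  rw [E, map_pow, hg]

/-- An automorphism sends `ω` to `ω` or to `ω ^ 2`. -/
theorem map_ω (rel : ω ^ 2 + ω + 1 = 0) (g : L ≃ₐ[ℚ] L) : g ω = ω ∨ g ω = ω ^ 2 := by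
  have h1 : (g ω) ^ 2 + g ω + 1 = 0 := by
    have := congrArg g rel
    rwa [map_add, map_add, map_pow, map_one, map_zero] at this
  have h2 : (g ω - ω) * (g ω - ω ^ 2) = 0 := by
    have h3 := cube_one rel
    linear_combination h1 - (g ω) * rel + h3
  rcases mul_eq_zero.mp h2 with h | h
  · exact Or.inl (sub_eq_zero.mp h)
  · exact Or.inr (sub_eq_zero.mp h)

/-- A cube root fixed by `g`. -/
theorem exists_fixed (rel : ω ^ 2 + ω + 1 = 0) {g : L ≃ₐ[ℚ] L} (hg : g ω = ω ^ 2) {b : ℤ} {θ : L}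
    (hθ : θ ^ 3 = (b : L)) : ∃ ρ : L, ρ ^ 3 = (b : L) ∧ g ρ = ρ := by
  have h1 : (g θ) ^ 3 = θ ^ 3 := by
    rw [← map_pow, hθ, map_intCast]
  obtain ⟨a, ha⟩ := of_cube rel h1
  refine ⟨E ω (2 * a) * θ, ?_, ?_⟩
  · rw [mul_pow, hθ, E, ← pow_mul, mul_comm _ 3, pow_mul, cube_one rel, one_pow, one_mul]
  · rw [map_mul, map_E rel hg, ha, ← mul_assoc, ← E_add rel]
    congr 2
    have h3 : (3 : ZMod 3) = 0 := rfl
    linear_combination (-a) * h3

/-- The fixed cube root is unique. -/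
theorem fixed_unique (rel : ω ^ 2 + ω + 1 = 0) {g : L ≃ₐ[ℚ] L} (hg : g ω = ω ^ 2) {b : ℤ}
    {ρ ρ' : L} (h : ρ ^ 3 = (b : L)) (h' : ρ' ^ 3 = (b : L)) (hf : g ρ = ρ) (hf' : g ρ' = ρ') :
    ρ' = ρ := by
  obtain ⟨k, hk⟩ := of_cube rel (h'.trans h.symm)
  by_cases h0 : ρ = 0
  · rw [hk, h0, mul_zero]
  · rw [hk, map_mul, map_E rel hg, hf] at hf'
    have h1 := mul_right_cancel₀ h0 hf'
    have h2 := E_inj rel h1
    have h3 : (3 : ZMod 3) = 0 := rfl
    have h4 : k = 0 := by linear_combination k * h3 + h2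
    rw [hk, h4, E_zero, one_mul]

theorem map_aN (rel : ω ^ 2 + ω + 1 = 0) {g : L ≃ₐ[ℚ] L} (hg : g ω = ω ^ 2) (p q p' q' : ℤ)
    (ρ : L) : g (aN ω p q p' q' ρ) = aD ω p q p' q' (g ρ) := by
  have h3 := cube_one rel
  rw [aN, aD]
  simp only [map_mul, map_add, map_pow, map_intCast, hg]
  have h4 : (ω ^ 2) ^ 2 = ω := by linear_combination ω * h3
  rw [h4]

theorem map_aD (rel : ω ^ 2 + ω + 1 = 0) {g : L ≃ₐ[ℚ] L} (hg : g ω = ω ^ 2) (p q p' q' : ℤ)
    (ρ : L) : g (aD ω p q p' q' ρ) = aN ω p q p' q' (g ρ) := by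
  have h3 := cube_one rel
  rw [aN, aD]
  simp only [map_mul, map_add, map_pow, map_intCast, hg]
  have h4 : (ω ^ 2) ^ 2 = ω := by linear_combination ω * h3
  rw [h4]

theorem map_aN' {g : L ≃ₐ[ℚ] L} (hg : g ω = ω) (p q p' q' : ℤ)
    (ρ : L) : g (aN ω p q p' q' ρ) = aN ω p q p' q' (g ρ) := by
  rw [aN, aN]
  simp only [map_mul, map_add, map_pow, map_intCast, hg]

theorem map_aD' {g : L ≃ₐ[ℚ] L} (hg : g ω = ω) (p q p' q' : ℤ)
    (ρ : L) : g (aD ω p q p' q' ρ) = aD ω p q p' q' (g ρ) := by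
  rw [aD, aD]
  simp only [map_mul, map_add, map_pow, map_intCast, hg]

end GT

open Pool.Agent.PT.GT in
/-- GT: existence, uniqueness and properties of `t`. -/
theorem GT_thm : GT := by
  intro s b p q p' q' f L _ _ ζ ω hS hG j i hji
  have rel := hG.rel
  have h3 := cube_one rel
  -- one witness is enough
  have isT_of : ∀ (g : L ≃ₐ[ℚ] L) (t : ZMod 3) (ρ A : L), g ω = ω ^ 2 → ρ ^ 3 = (b j : L) →
      g ρ = ρ → A ^ 3 * aD ω (p j i) (q j i) (p' j i) (q' j i) ρ =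
        aN ω (p j i) (q j i) (p' j i) (q' j i) ρ → g A * A = E ω t →
      IsT b p q p' q' ω g j i t := by
    intro g t ρ A hg hρ hf hA ht ρ' A' hρ' hf' hA'
    have e1 := fixed_unique rel hg hρ hρ' hf hf'
    subst e1
    have hD := (hG.D j i hji ρ' hρ').1
    have e2 : A' ^ 3 = A ^ 3 := mul_right_cancel₀ hD (hA'.trans hA.symm)
    obtain ⟨k, hk⟩ := of_cube rel e2
    change g A' * A' = E ω t
    rw [hk, map_mul, map_E rel hg, E_neg rel, ← ht]
    have hk0 := E_ne_zero rel k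
    field_simp
  -- witnesses exist
  have exW : ∀ g : L ≃ₐ[ℚ] L, g ω = ω ^ 2 → ∃ ρ A : L, ρ ^ 3 = (b j : L) ∧ g ρ = ρ ∧
      A ^ 3 * aD ω (p j i) (q j i) (p' j i) (q' j i) ρ =
        aN ω (p j i) (q j i) (p' j i) (q' j i) ρ ∧ A ≠ 0 := by
    intro g hg
    obtain ⟨θ, hθ⟩ := hG.root j
    obtain ⟨ρ, hρ, hf⟩ := exists_fixed rel hg hθ
    obtain ⟨A, hA⟩ := hG.A j i hji ρ hρ
    refine ⟨ρ, A, hρ, hf, hA, ?_⟩
    rintro rfl
    apply (hG.D j i hji ρ hρ).2
    rw [← hA]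
    ring
  refine ⟨?_, ?_, ?_⟩
  · intro g hg
    obtain ⟨ρ, A, hρ, hf, hA, hA0⟩ := exW g hg
    obtain ⟨hD, hN⟩ := hG.D j i hji ρ hρ
    have e1 : (g A) ^ 3 * aN ω (p j i) (q j i) (p' j i) (q' j i) ρ =
        aD ω (p j i) (q j i) (p' j i) (q' j i) ρ := by
      have := congrArg g hA
      rwa [map_mul, map_pow, map_aD rel hg, map_aN rel hg, hf] at this
    have e2 : (g A * A) ^ 3 = (1 : L) ^ 3 := by
      have h5 : (g A * A) ^ 3 * (aN ω (p j i) (q j i) (p' j i) (q' j i) ρ *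
          aD ω (p j i) (q j i) (p' j i) (q' j i) ρ) =
          1 * (aN ω (p j i) (q j i) (p' j i) (q' j i) ρ *
          aD ω (p j i) (q j i) (p' j i) (q' j i) ρ) := by
        calc (g A * A) ^ 3 * (aN ω (p j i) (q j i) (p' j i) (q' j i) ρ *
              aD ω (p j i) (q j i) (p' j i) (q' j i) ρ)
            = ((g A) ^ 3 * aN ω (p j i) (q j i) (p' j i) (q' j i) ρ) *
              (A ^ 3 * aD ω (p j i) (q j i) (p' j i) (q' j i) ρ) := by ring
          _ = _ := by rw [e1, hA]; ring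
      rw [one_pow]
      exact mul_right_cancel₀ (mul_ne_zero hN hD) h5
    obtain ⟨t, ht⟩ := of_cube rel e2
    rw [mul_one] at ht
    refine ⟨t, isT_of g t ρ A hg hρ hf hA ht, ?_⟩
    intro t' ht'
    have h5 : g A * A = E ω t' := ht' ρ A hρ hf hA
    exact E_inj rel (h5.symm.trans ht)
  · intro g τ t hg ht
    obtain ⟨ρ, A, hρ, hf, hA, hA0⟩ := exW g hg
    have hw : g A * A = E ω t := ht ρ A hρ hf hA
    have c1 : ∀ x : L, (τ * g * τ⁻¹) (τ x) = τ (g x) := by
      intro x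
      change τ (g (τ⁻¹ (τ x))) = τ (g x)
      have : τ⁻¹ (τ x) = x := τ.symm_apply_apply x
      rw [this]
    have hρ' : (τ ρ) ^ 3 = (b j : L) := by
      rw [← map_pow, hρ, map_intCast]
    have hf' : (τ * g * τ⁻¹) (τ ρ) = τ ρ := by rw [c1, hf]
    have e1 := congrArg τ hA
    rw [map_mul, map_pow] at e1
    rcases map_ω rel τ with hτ | hτ
    · have hg' : (τ * g * τ⁻¹) ω = ω ^ 2 := by
        have := c1 ω
        rwa [hτ, hg, map_pow, hτ] at this
      rw [map_aD' hτ, map_aN' hτ] at e1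
      refine isT_of _ t (τ ρ) (τ A) hg' hρ' hf' e1 ?_
      rw [c1, ← map_mul, hw, map_E' hτ]
    · have hg' : (τ * g * τ⁻¹) ω = ω ^ 2 := by
        have h5 := c1 (ω ^ 2)
        have h6 : τ (ω ^ 2) = ω := by
          rw [map_pow, hτ]
          linear_combination ω * h3
        rw [h6] at h5
        rw [h5, map_pow, hg]
        have h7 : (ω ^ 2) ^ 2 = ω := by linear_combination ω * h3
        rw [h7, hτ]
      rw [map_aD rel hτ, map_aN rel hτ] at e1
      have hτA : τ A ≠ 0 := by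
        rw [Ne, EmbeddingLike.map_eq_zero_iff]
        exact hA0
      refine isT_of _ t (τ ρ) (τ A)⁻¹ hg' hρ' hf' ?_ ?_
      · rw [inv_pow, ← e1]
        field_simp
      · rw [map_inv₀, c1, ← mul_inv, ← map_mul, hw, map_E rel hτ, E_neg rel, inv_inv]
  · intro g t k hg hk ht
    obtain ⟨ρ, A, hρ, hf, hA, hA0⟩ := exW g hg
    have hw : g A * A = E ω t := ht ρ A hρ hf hA
    have e1 : g A = E ω t * A⁻¹ := by
      rw [← hw]
      field_simp
    have h30 : (3 : ZMod 3) = 0 := rfl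
    have e2 : ∀ l : ℕ, (g ^ (2 * l)) A = E ω (l * t) * A := by
      intro l
      induction l with
      | zero => simp [E_zero]
      | succ l ih =>
        have h5 : (g ^ (2 * (l + 1))) A = g (g ((g ^ (2 * l)) A)) := by
          have : g ^ (2 * (l + 1)) = g * (g * g ^ (2 * l)) := by
            rw [← mul_assoc, ← pow_two, ← pow_add]
            congr 1
            ring
          rw [this]
          rfl
        rw [h5, ih, map_mul, map_E rel hg, e1, map_mul, map_mul, map_E rel hg, map_E rel hg,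
          map_inv₀, e1, mul_inv, inv_inv, ← E_neg rel, neg_neg, ← mul_assoc, ← mul_assoc,
          ← E_add rel, ← E_add rel]
        congr 2
        push_cast
        linear_combination (-t) * h30
    have f1 : ∀ m : ℕ, (g ^ m) ρ = ρ := by
      intro m
      induction m with
      | zero => rfl
      | succ m ih =>
        rw [pow_succ']
        change g ((g ^ m) ρ) = ρ
        rw [ih, hf]
    have f2 : ∀ l : ℕ, (g ^ (2 * l)) ω = ω := by
      intro l
      induction l with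
      | zero => rfl
      | succ l ih =>
        have h5 : (g ^ (2 * (l + 1))) ω = g (g ((g ^ (2 * l)) ω)) := by
          have : g ^ (2 * (l + 1)) = g * (g * g ^ (2 * l)) := by
            rw [← mul_assoc, ← pow_two, ← pow_add]
            congr 1
            ring
          rw [this]
          rfl
        rw [h5, ih, hg, map_pow, hg]
        linear_combination ω * h3
    obtain ⟨l, rfl⟩ := hk
    have h6 : ∀ x : L, (g ^ (2 * l + 1)) x = g ((g ^ (2 * l)) x) := by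
      intro x
      rw [pow_succ']
      rfl
    refine isT_of _ _ ρ A ?_ hρ (f1 _) hA ?_
    · rw [h6, f2, hg]
    · rw [h6, e2, map_mul, map_E rel hg, mul_assoc, hw, ← E_add rel]
      congr 1
      push_cast
      linear_combination (-(l : ZMod 3) * t) * h30

end Pool.Agent.PT

end

section

/-!
# ESYT: from a basis to a system with solutions, `n` divisible by `3`
-/

set_option linter.unusedVariables false

open Finset

namespace Pool.Agent.PT3

open Pool.Agent.Lib_helper18 Pool.Agent.Lib_helper18.Eis Pool.Agent.Lib_helper84.Cub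
open Pool.Agent.PT Pool.Agent.PTE

namespace ESYT

/-- the symbols of two admissible classes -/
theorem tm_zero (hSPP : SPP) (hSCJ : SCJ) {h n m k : ℕ} {π : Fin m → PP} {p e : Fin m → ℕ}
    {r f : Fin k → ℕ} {w0 : ZMod 3} {c : Fin m → ZMod 3} (hN : NF n π p e r f) {x y : ℤ}
    (hx : AdC h n π w0 c x) (hy : AdC h n π w0 c y) (ρ : PP) :
    tm ρ.1 (x : Eis) (y : Eis) = 0 := by
  obtain ⟨-, hS2, -, hS4, -, hS6⟩ := hSPP
  obtain ⟨hC1, -, -, hC4⟩ := hSCJ
  obtain ⟨l, hl, ⟨hl3, hρ⟩ | ⟨hl3, hnorm, hn, hna⟩⟩ := hS6 ρ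
  · rw [hρ]
    exact hC4 l hl hl3 x y hx.ne hy.ne
  by_cases hln : l ∣ n
  · rcases PT.ESYS.prime_cases hN hl hln with ⟨i, rfl⟩ | ⟨j, rfl⟩
    · -- the key computation
      have key : ∀ σ : PP, σ = π i → σ.1.norm = p i → (p i : Eis) = σ.1 * conj σ.1 →
          ¬ Associated σ.1 (conj σ.1) → tm σ.1 (x : Eis) (y : Eis) = 0 := by
        intro σ hσ h1 h2 h3
        have hV := PT.ESYS.V_n hN i σ.2.1 h1 h2 h3
        have e1 := hx.sym i
        have e2 := hy.sym i
        rw [← hσ, hV] at e1 e2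
        have h4 : (e i : ZMod 3) * tm σ.1 (x : Eis) (y : Eis) = 0 := by
          unfold tm
          linear_combination (V σ.1 (y : Eis) : ZMod 3) * e1 - (V σ.1 (x : Eis) : ZMod 3) * e2
        rcases hN.pe i with h5 | h5
        · rw [h5] at h4
          simpa using h4
        · rw [h5] at h4
          generalize tm σ.1 (x : Eis) (y : Eis) = z at h4
          revert z
          decide
      have hd : ρ.1 ∣ (π i).1 * conj (π i).1 := by
        rw [← hN.pπ i, hn]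
        exact Dvd.intro _ rfl
      rcases ρ.2.1.dvd_or_dvd hd with h1 | h1
      · have h2 := hS2 ρ (π i) ((ρ.2.1.dvd_prime_iff_associated (π i).2.1).1 h1)
        exact key ρ h2 hnorm hn hna
      · obtain ⟨σ, hσ⟩ := (hS4 (π i)).2
        have h2 : ρ = σ := by
          apply hS2
          rw [hσ]
          exact (ρ.2.1.dvd_prime_iff_associated (prime_conj (π i).2.1)).1 h1
        have h3 : (π i).1 = conj ρ.1 := by rw [h2, hσ, conj_conj]
        have h4 := key (π i) rfl (by rw [h3, norm_conj, hnorm])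
          (by rw [h3, conj_conj, mul_comm, ← hn])
          (by
            rw [h3, conj_conj]
            exact fun h => hna h.symm)
        have h5 : ¬ (π i).1 ∣ 3 := (hS4 (π i)).1
        have h6 := hC1 (π i).1 (x : Eis) (y : Eis) (π i).2.1 h5 (PT.ESYS.cast_ne hx.ne)
          (PT.ESYS.cast_ne hy.ne)
        rw [h4, neg_zero, conj_intCast, conj_intCast, h3, conj_conj] at h6
        exact h6
    · have := hN.r2 j
      omega
  · have hnd : ∀ z : ℤ, AdC h n π w0 c z → V ρ.1 (z : Eis) = 0 := by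
      intro z hz
      apply V_eq_zero
      intro hd
      have h1 := hz.supp l hl (PT.ESYS.dvd_int hl hnorm hd)
      rcases hl.dvd_mul.1 h1 with h2 | h2
      · have h3 := (Nat.prime_dvd_prime_iff_eq hl Nat.prime_three).1 h2
        omega
      · exact hln h2
    unfold tm
    rw [hnd x hx, hnd y hy]
    simp

end ESYT

theorem ESYT_thm (hSTM : STM) (hSPP : SPP) (hSCJ : SCJ) (hHNT : HNT) : ESYT := by
  classical
  intro h n m k π p e r f w0 c s b hNF hA hV hind h3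
  have hnc : ∀ i, ¬ ∃ t : ℤ, t ^ 3 = b i := by
    intro i
    have := hind (fun j => if j = i then 1 else 0) ⟨i, by simp⟩
    simpa [Finset.prod_ite_eq'] using this
  have hex1 : ∀ j i : Fin s, ¬ (3 : ℤ) ∣ b j → ∃ P Q P' Q' : ℤ, Sol (b j) (b i) P Q P' Q' := by
    intro j i hj
    obtain ⟨P, Q, P', Q', h⟩ := hHNT (b j) (b i) (hA j).ne hj (hnc j) (hV j) (hA i).ne
      (fun ρ => ESYT.tm_zero hSPP hSCJ hNF (hA j) (hA i) ρ)
    exact ⟨P, Q, P', Q', PT.ESYS.sol_of h (hA j).ne (hnc i)⟩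
  have hex : ∀ j i : Fin s, ∃ P Q P' Q' : ℤ, j ≠ i → Sol (b j) (b i) P Q P' Q' := by
    intro j i
    by_cases hji : j = i
    · exact ⟨0, 0, 0, 0, fun h => absurd hji h⟩
    · rcases h3 j i hji with h4 | h4
      · obtain ⟨P, Q, P', Q', h5⟩ := hex1 j i h4
        exact ⟨P, Q, P', Q', fun _ => h5⟩
      · obtain ⟨P, Q, P', Q', h5⟩ := hex1 i j h4
        exact ⟨P, -P', -Q, Q', fun _ => PT.ESYS.sol_swap h5⟩
  choose P Q P' Q' hsol using hex
  refine ⟨fun j i => if j < i then P j i else P i j, fun j i => if j < i then Q j i else - P' i j,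
    fun j i => if j < i then P' j i else - Q i j, fun j i => if j < i then Q' j i else Q' i j,
    ⟨hind, ?_⟩, ?_⟩
  · intro j i hji
    rcases lt_or_gt_of_ne hji with h | h
    · simp only [h, if_true]
      exact hsol j i hji
    · simp only [not_lt_of_gt h, if_false]
      exact PT.ESYS.sol_swap (hsol i j hji.symm)
  · intro j i hji
    rcases lt_or_gt_of_ne hji with h | h
    · simp [h, not_lt_of_gt h]
    · simp [h, not_lt_of_gt h]

end Pool.Agent.PT3

end

section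

/-!
# GTG: existence, uniqueness and properties of `t`
-/

set_option autoImplicit false
set_option linter.unusedSectionVars false

namespace Pool.Agent.PT3

open Pool.Agent.PT Pool.Agent.PTE Pool.Agent.Lib_helper18 Pool.Agent.Lib_helper18.Eis Pool.Agent.Lib_helper84.Cub

open Pool.Agent.PT.GT in
/-- GTG: existence, uniqueness and properties of `t`. -/
theorem GTG_thm : GTG := by
  intro s b p q p' q' f L _ _ ζ ω _ hG j i hji
  have rel := hG.rel
  have h3 := cube_one rel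
  -- one witness is enough
  have isT_of : ∀ (g : L ≃ₐ[ℚ] L) (t : ZMod 3) (ρ A : L), g ω = ω ^ 2 → ρ ^ 3 = (b j : L) →
      g ρ = ρ → A ^ 3 * aD ω (p j i) (q j i) (p' j i) (q' j i) ρ =
        aN ω (p j i) (q j i) (p' j i) (q' j i) ρ → g A * A = E ω t →
      IsT b p q p' q' ω g j i t := by
    intro g t ρ A hg hρ hf hA ht ρ' A' hρ' hf' hA'
    have e1 := fixed_unique rel hg hρ hρ' hf hf'
    subst e1
    have hD := (hG.D j i hji ρ' hρ').1
    have e2 : A' ^ 3 = A ^ 3 := mul_right_cancel₀ hD (hA'.trans hA.symm)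
    obtain ⟨k, hk⟩ := of_cube rel e2
    change g A' * A' = E ω t
    rw [hk, map_mul, map_E rel hg, E_neg rel, ← ht]
    have hk0 := E_ne_zero rel k
    field_simp
  -- witnesses exist
  have exW : ∀ g : L ≃ₐ[ℚ] L, g ω = ω ^ 2 → ∃ ρ A : L, ρ ^ 3 = (b j : L) ∧ g ρ = ρ ∧
      A ^ 3 * aD ω (p j i) (q j i) (p' j i) (q' j i) ρ =
        aN ω (p j i) (q j i) (p' j i) (q' j i) ρ ∧ A ≠ 0 := by
    intro g hg
    obtain ⟨θ, hθ⟩ := hG.root j
    obtain ⟨ρ, hρ, hf⟩ := exists_fixed rel hg hθ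
    obtain ⟨A, hA⟩ := hG.A j i hji ρ hρ
    refine ⟨ρ, A, hρ, hf, hA, ?_⟩
    rintro rfl
    apply (hG.D j i hji ρ hρ).2
    rw [← hA]
    ring
  refine ⟨?_, ?_, ?_⟩
  · intro g hg
    obtain ⟨ρ, A, hρ, hf, hA, hA0⟩ := exW g hg
    obtain ⟨hD, hN⟩ := hG.D j i hji ρ hρ
    have e1 : (g A) ^ 3 * aN ω (p j i) (q j i) (p' j i) (q' j i) ρ =
        aD ω (p j i) (q j i) (p' j i) (q' j i) ρ := by
      have := congrArg g hA
      rwa [map_mul, map_pow, map_aD rel hg, map_aN rel hg, hf] at this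
    have e2 : (g A * A) ^ 3 = (1 : L) ^ 3 := by
      have h5 : (g A * A) ^ 3 * (aN ω (p j i) (q j i) (p' j i) (q' j i) ρ *
          aD ω (p j i) (q j i) (p' j i) (q' j i) ρ) =
          1 * (aN ω (p j i) (q j i) (p' j i) (q' j i) ρ *
          aD ω (p j i) (q j i) (p' j i) (q' j i) ρ) := by
        calc (g A * A) ^ 3 * (aN ω (p j i) (q j i) (p' j i) (q' j i) ρ *
              aD ω (p j i) (q j i) (p' j i) (q' j i) ρ)
            = ((g A) ^ 3 * aN ω (p j i) (q j i) (p' j i) (q' j i) ρ) *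
              (A ^ 3 * aD ω (p j i) (q j i) (p' j i) (q' j i) ρ) := by ring
          _ = _ := by rw [e1, hA]; ring
      rw [one_pow]
      exact mul_right_cancel₀ (mul_ne_zero hN hD) h5
    obtain ⟨t, ht⟩ := of_cube rel e2
    rw [mul_one] at ht
    refine ⟨t, isT_of g t ρ A hg hρ hf hA ht, ?_⟩
    intro t' ht'
    have h5 : g A * A = E ω t' := ht' ρ A hρ hf hA
    exact E_inj rel (h5.symm.trans ht)
  · intro g τ t hg ht
    obtain ⟨ρ, A, hρ, hf, hA, hA0⟩ := exW g hg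
    have hw : g A * A = E ω t := ht ρ A hρ hf hA
    have c1 : ∀ x : L, (τ * g * τ⁻¹) (τ x) = τ (g x) := by
      intro x
      change τ (g (τ⁻¹ (τ x))) = τ (g x)
      have : τ⁻¹ (τ x) = x := τ.symm_apply_apply x
      rw [this]
    have hρ' : (τ ρ) ^ 3 = (b j : L) := by
      rw [← map_pow, hρ, map_intCast]
    have hf' : (τ * g * τ⁻¹) (τ ρ) = τ ρ := by rw [c1, hf]
    have e1 := congrArg τ hA
    rw [map_mul, map_pow] at e1
    rcases map_ω rel τ with hτ | hτ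
    · have hg' : (τ * g * τ⁻¹) ω = ω ^ 2 := by
        have := c1 ω
        rwa [hτ, hg, map_pow, hτ] at this
      rw [map_aD' hτ, map_aN' hτ] at e1
      refine isT_of _ t (τ ρ) (τ A) hg' hρ' hf' e1 ?_
      rw [c1, ← map_mul, hw, map_E' hτ]
    · have hg' : (τ * g * τ⁻¹) ω = ω ^ 2 := by
        have h5 := c1 (ω ^ 2)
        have h6 : τ (ω ^ 2) = ω := by
          rw [map_pow, hτ]
          linear_combination ω * h3
        rw [h6] at h5
        rw [h5, map_pow, hg]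
        have h7 : (ω ^ 2) ^ 2 = ω := by linear_combination ω * h3
        rw [h7, hτ]
      rw [map_aD rel hτ, map_aN rel hτ] at e1
      have hτA : τ A ≠ 0 := by
        rw [Ne, EmbeddingLike.map_eq_zero_iff]
        exact hA0
      refine isT_of _ t (τ ρ) (τ A)⁻¹ hg' hρ' hf' ?_ ?_
      · rw [inv_pow, ← e1]
        field_simp
      · rw [map_inv₀, c1, ← mul_inv, ← map_mul, hw, map_E rel hτ, E_neg rel, inv_inv]
  · intro g t k hg hk ht
    obtain ⟨ρ, A, hρ, hf, hA, hA0⟩ := exW g hg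
    have hw : g A * A = E ω t := ht ρ A hρ hf hA
    have e1 : g A = E ω t * A⁻¹ := by
      rw [← hw]
      field_simp
    have h30 : (3 : ZMod 3) = 0 := rfl
    have e2 : ∀ l : ℕ, (g ^ (2 * l)) A = E ω (l * t) * A := by
      intro l
      induction l with
      | zero => simp [E_zero]
      | succ l ih =>
        have h5 : (g ^ (2 * (l + 1))) A = g (g ((g ^ (2 * l)) A)) := by
          have : g ^ (2 * (l + 1)) = g * (g * g ^ (2 * l)) := by
            rw [← mul_assoc, ← pow_two, ← pow_add]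
            congr 1
            ring
          rw [this]
          rfl
        rw [h5, ih, map_mul, map_E rel hg, e1, map_mul, map_mul, map_E rel hg, map_E rel hg,
          map_inv₀, e1, mul_inv, inv_inv, ← E_neg rel, neg_neg, ← mul_assoc, ← mul_assoc,
          ← E_add rel, ← E_add rel]
        congr 2
        push_cast
        linear_combination (-t) * h30
    have f1 : ∀ m : ℕ, (g ^ m) ρ = ρ := by
      intro m
      induction m with
      | zero => rfl
      | succ m ih =>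
        rw [pow_succ']
        change g ((g ^ m) ρ) = ρ
        rw [ih, hf]
    have f2 : ∀ l : ℕ, (g ^ (2 * l)) ω = ω := by
      intro l
      induction l with
      | zero => rfl
      | succ l ih =>
        have h5 : (g ^ (2 * (l + 1))) ω = g (g ((g ^ (2 * l)) ω)) := by
          have : g ^ (2 * (l + 1)) = g * (g * g ^ (2 * l)) := by
            rw [← mul_assoc, ← pow_two, ← pow_add]
            congr 1
            ring
          rw [this]
          rfl
        rw [h5, ih, hg, map_pow, hg]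
        linear_combination ω * h3
    obtain ⟨l, rfl⟩ := hk
    have h6 : ∀ x : L, (g ^ (2 * l + 1)) x = g ((g ^ (2 * l)) x) := by
      intro x
      rw [pow_succ']
      rfl
    refine isT_of _ _ ρ A ?_ hρ (f1 _) hA ?_
    · rw [h6, f2, hg]
    · rw [h6, e2, map_mul, map_E rel hg, mul_assoc, hw, ← E_add rel]
      congr 1
      push_cast
      linear_combination (-(l : ZMod 3) * t) * h30

end Pool.Agent.PT3

end

section

/-!
# GKI: an integer which is a cube in a cyclotomic field is a cube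
-/

namespace Pool.Agent.PT

open Polynomial

theorem GKI_thm : GKI := by
  intro L _ _ f ζ β d hf hζ hβ hd
  by_contra hcon
  push Not at hcon
  -- `d` is not a cube in `ℚ`
  have hQ : ∀ b : ℚ, b ^ 3 ≠ (d : ℚ) := by
    intro b hb
    have h1 : IsIntegral ℤ b := by
      refine IsIntegral.of_pow (n := 3) (by norm_num) ?_
      rw [hb]
      exact isIntegral_algebraMap (R := ℤ) (A := ℚ) (x := d)
    obtain ⟨t, rfl⟩ := IsIntegrallyClosed.isIntegral_iff.1 h1
    refine hcon t ?_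
    have h2 : ((t ^ 3 : ℤ) : ℚ) = (d : ℚ) := by
      push_cast
      exact hb
    exact_mod_cast h2
  have hirr : Irreducible (X ^ 3 - C (d : ℚ)) := X_pow_sub_C_irreducible_of_prime Nat.prime_three hQ
  -- the cyclotomic field
  have hfo : IsOfFinOrder ζ := isOfFinOrder_iff_pow_eq_one.2 ⟨f, hf, hζ⟩
  have hpr : IsPrimitiveRoot ζ (orderOf ζ) := IsPrimitiveRoot.orderOf ζ
  have : NeZero (orderOf ζ) := ⟨(orderOf_pos_iff.2 hfo).ne'⟩
  have hcyc : IsCyclotomicExtension {orderOf ζ} ℚ (IntermediateField.adjoin ℚ {ζ}) :=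
    hpr.intermediateField_adjoin_isCyclotomicExtension ℚ
  have hab : IsAbelianGalois ℚ (IntermediateField.adjoin ℚ {ζ}) :=
    IsCyclotomicExtension.isAbelianGalois {orderOf ζ} ℚ _
  obtain ⟨γ, hγ⟩ : ∃ γ : IntermediateField.adjoin ℚ {ζ}, (γ : L) = β := ⟨⟨β, hβ⟩, rfl⟩
  have hγ3 : γ ^ 3 = (d : IntermediateField.adjoin ℚ {ζ}) := by
    apply Subtype.ext
    push_cast
    rw [hγ, hd]
  have hroot : aeval γ (X ^ 3 - C (d : ℚ)) = 0 := by
    simp [hγ3]
  have hmonic : (X ^ 3 - C (d : ℚ)).Monic := monic_X_pow_sub_C _ (by norm_num)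
  have hmin : X ^ 3 - C (d : ℚ) = minpoly ℚ γ :=
    minpoly.eq_of_irreducible_of_monic hirr hroot hmonic
  have hdeg : (X ^ 3 - C (d : ℚ)).natDegree = 3 := natDegree_X_pow_sub_C
  have hint : IsIntegral ℚ γ := ⟨_, hmonic, hroot⟩
  -- the field of `γ` is a Galois extension
  let E := IntermediateField.adjoin ℚ {γ}
  have hE : IsAbelianGalois ℚ E := IsAbelianGalois.of_algHom E.val
  have hfin : Module.finrank ℚ E = 3 := by
    rw [IntermediateField.adjoin.finrank hint, ← hmin, hdeg]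
  let δ : E := IntermediateField.AdjoinSimple.gen ℚ γ
  have hδ : (δ : IntermediateField.adjoin ℚ {ζ}) = γ := rfl
  have hδ3 : δ ^ 3 = (d : E) := by
    apply Subtype.ext
    push_cast
    exact hγ3
  have hδmin : minpoly ℚ δ = X ^ 3 - C (d : ℚ) := by
    rw [hmin]
    exact (minpoly.algebraMap_eq (algebraMap E (IntermediateField.adjoin ℚ {ζ})).injective δ).symm
  have hδ0 : δ ≠ 0 := by
    intro h
    rw [h, zero_pow (by norm_num)] at hδ3
    have h2 : (d : ℚ) = 0 := by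
      have : (d : E) = ((d : ℚ) : E) := by push_cast; rfl
      rw [this] at hδ3
      have h4 : ((0 : ℚ) : E) = ((d : ℚ) : E) := by rw [← hδ3]; simp
      exact (Rat.cast_injective h4).symm
    exact hQ 0 (by rw [h2]; norm_num)
  have hcard : Nat.card (E ≃ₐ[ℚ] E) = 3 := by
    rw [IsGalois.card_aut_eq_finrank, hfin]
  -- an automorphism
  have : Nontrivial (E ≃ₐ[ℚ] E) := by
    apply Finite.one_lt_card_iff_nontrivial.1
    rw [hcard]
    norm_num
  obtain ⟨σ, hσ⟩ := exists_ne (1 : E ≃ₐ[ℚ] E)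
  have hσδ : σ δ ≠ δ := by
    intro h
    apply hσ
    have h5 : (σ : E →ₐ[ℚ] E) = AlgHom.id ℚ E := by
      apply IntermediateField.algHom_ext_of_eq_adjoin ℚ (rfl : E = IntermediateField.adjoin ℚ {γ})
      intro x hx
      rw [Set.mem_singleton_iff] at hx
      subst hx
      exact h
    apply AlgEquiv.ext
    intro x
    exact DFunLike.congr_fun h5 x
  -- the primitive cube root of unity
  obtain ⟨ω, hω⟩ : ∃ ω : E, ω = σ δ / δ := ⟨_, rfl⟩
  have hω1 : ω ≠ 1 := by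
    rw [hω]
    intro h
    exact hσδ ((div_eq_one_iff_eq hδ0).1 h)
  have hω3 : ω ^ 3 = 1 := by
    rw [hω, div_pow, ← map_pow, hδ3, map_intCast]
    have : (d : E) ≠ 0 := by
      rw [← hδ3]
      exact pow_ne_zero 3 hδ0
    exact div_self this
  have hωr : aeval ω (X ^ 2 + X + 1 : ℚ[X]) = 0 := by
    have h6 : (ω - 1) * (ω ^ 2 + ω + 1) = 0 := by
      linear_combination hω3
    rcases mul_eq_zero.1 h6 with h7 | h7
    · exact absurd (sub_eq_zero.1 h7) hω1
    · simpa using h7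
  -- `[ℚ(ω) : ℚ]` is at most `2` and divides `3`
  have hq0 : (X ^ 2 + X + 1 : ℚ[X]) ≠ 0 := by
    intro h
    have h8 := congrArg (fun p : ℚ[X] => p.eval 0) h
    simp at h8
  have hωint : IsIntegral ℚ ω := Algebra.IsIntegral.isIntegral ω
  have hle : (minpoly ℚ ω).natDegree ≤ 2 := by
    have h9 := natDegree_le_of_dvd (minpoly.dvd ℚ ω hωr) hq0
    refine h9.trans ?_
    compute_degree
  have hdvd : (minpoly ℚ ω).natDegree ∣ 3 := by
    rw [← hfin]
    exact minpoly.degree_dvd hωint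
  have hone : (minpoly ℚ ω).natDegree = 1 := by
    rcases (Nat.dvd_prime Nat.prime_three).1 hdvd with h | h
    · exact h
    · omega
  obtain ⟨r, hr⟩ := (minpoly.natDegree_eq_one_iff).1 hone
  rw [← hr] at hωr
  have h10 : r ^ 2 + r + 1 = 0 := by
    have h11 : algebraMap ℚ E (r ^ 2 + r + 1) = 0 := by
      simpa using hωr
    exact (map_eq_zero _).1 h11
  nlinarith [sq_nonneg (r + 1 / 2)]

end Pool.Agent.PT

end

section

/-!
# Prime twists of rank zero, `n` divisible by `3`: the numerical form of LE1 (module LN1)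
-/

namespace Pool.Agent.PT3

open Pool.Agent.Lib_helper18 Pool.Agent.Lib_helper18.Eis Pool.Agent.Lib_helper84.Cub
open Pool.Agent.PT Pool.Agent.PTE

namespace LN1

theorem z3 {x : ℤ} : (x : ZMod 3) = 0 ↔ (3 : ℤ) ∣ x := by
  have := ZMod.intCast_zmod_eq_zero_iff_dvd x 3
  exact_mod_cast this

theorem three0 : (3 : ZMod 3) = 0 := rfl

theorem sq1 {x : ℤ} (h : ¬ (3 : ℤ) ∣ x) : (x : ZMod 3) ^ 2 = 1 := by
  have h1 : (x : ZMod 3) ≠ 0 := fun h0 => h (z3.mp h0)
  generalize (x : ZMod 3) = y at h1 ⊢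
  revert y
  decide

theorem cu (y : ZMod 3) : y ^ 3 = y := by
  revert y
  decide

/-- class of a unit -/
theorem lwG (hL : LCL) {β c k N : ℤ} (hβ : ¬ (3 : ℤ) ∣ β) (hc : ¬ (3 : ℤ) ∣ c)
    (h9 : (9 : ℤ) ∣ N - β * c ^ 3 * (1 + 3 * k)) :
    ¬ (3 : ℤ) ∣ N ∧ lv N = 0 ∧ lw N = lw β - k := by
  obtain ⟨t, ht⟩ := h9
  have hN' : N = β * c ^ 3 * (1 + 3 * k) + 9 * t := by linarith
  have hN : ¬ (3 : ℤ) ∣ N := by
    intro h
    have h1 : (3 : ℤ) ∣ β * c ^ 3 := by
      have e : β * c ^ 3 = N - 3 * (β * c ^ 3 * k + 3 * t) := by rw [hN']; ring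
      rw [e]
      exact dvd_sub h ⟨_, rfl⟩
    rcases Int.prime_three.dvd_or_dvd h1 with h1 | h1
    · exact hβ h1
    · exact hc (Int.prime_three.dvd_of_dvd_pow h1)
  have b1 : β ^ 2 % 3 = 1 := sq_mod_three hβ
  have c1 : c ^ 2 % 3 = 1 := sq_mod_three hc
  obtain ⟨a, ha⟩ : ∃ a, β ^ 2 = 1 + 3 * a := ⟨β ^ 2 / 3, by omega⟩
  obtain ⟨j, hj⟩ : ∃ j, c ^ 2 = 1 + 3 * j := ⟨c ^ 2 / 3, by omega⟩
  refine ⟨hN, (hL.2.2.2.1 N hN).1, ?_⟩
  have hc6 : c ^ 6 = 1 + 9 * (j + 3 * j ^ 2 + 3 * j ^ 3) := by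
    rw [show c ^ 6 = (c ^ 2) ^ 3 by ring, hj]
    ring
  have e2 : N ^ 2 = β ^ 2 * c ^ 6 * (1 + 3 * k) ^ 2 + 18 * t * (β * c ^ 3 * (1 + 3 * k)) +
      81 * t ^ 2 := by
    rw [hN']
    ring
  have e3 : N ^ 2 = 1 + 3 * (a + 2 * k + 3 * (2 * a * k +
      (1 + 3 * a) * (k ^ 2 + (j + 3 * j ^ 2 + 3 * j ^ 3) * (1 + 3 * k) ^ 2) +
      2 * t * (β * c ^ 3 * (1 + 3 * k)) + 9 * t ^ 2)) := by
    rw [e2, ha, hc6]
    ring
  rw [(hL.2.2.2.1 N hN).2, (hL.2.2.2.1 β hβ).2, wt_eq ha, wt_eq e3]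
  generalize (2 * a * k + (1 + 3 * a) * (k ^ 2 + (j + 3 * j ^ 2 + 3 * j ^ 3) * (1 + 3 * k) ^ 2) +
      2 * t * (β * c ^ 3 * (1 + 3 * k)) + 9 * t ^ 2) = K
  push_cast
  linear_combination ((k : ZMod 3) + K) * three0

theorem l1 (hL : LCL) : lv 1 = 0 ∧ lw 1 = 0 := by
  have h := hL.2.1 1 1 one_ne_zero one_ne_zero
  rw [mul_one] at h
  exact ⟨SLE.self_add h.1, SLE.self_add h.2⟩

/-- class of a unit -/
theorem lwU (hL : LCL) {c k N : ℤ} (hc : ¬ (3 : ℤ) ∣ c)
    (h9 : (9 : ℤ) ∣ N - c ^ 3 * (1 + 3 * k)) :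
    ¬ (3 : ℤ) ∣ N ∧ lv N = 0 ∧ lw N = - k := by
  have h := lwG hL (β := 1) (c := c) (k := k) (N := N) (by norm_num) hc (by rwa [one_mul])
  rw [(l1 hL).2, zero_sub] at h
  exact h

/-- decomposition of an integer -/
theorem dec (hL : LCL) {N : ℤ} (hN : N ≠ 0) :
    ∃ (v : ℕ) (M : ℤ), N = 3 ^ v * M ∧ ¬ (3 : ℤ) ∣ M ∧ lv N = v ∧ lw N = wt (M ^ 2) := by
  have key : ∀ n : ℕ, ∀ N : ℤ, N ≠ 0 → N.natAbs = n →
      ∃ (v : ℕ) (M : ℤ), N = 3 ^ v * M ∧ ¬ (3 : ℤ) ∣ M ∧ lv N = v ∧ lw N = wt (M ^ 2) := by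
    intro n
    induction n using Nat.strong_induction_on with
    | _ n ih =>
      intro N hN hn
      by_cases h : (3 : ℤ) ∣ N
      · obtain ⟨N1, rfl⟩ := h
        have h1 : N1 ≠ 0 := by
          rintro rfl
          exact hN (by ring)
        have h2 : N1.natAbs < n := by
          omega
        obtain ⟨v, M, e, hM, hv, hw⟩ := ih _ h2 N1 h1 rfl
        have h3 := hL.2.1 3 N1 (by norm_num) h1
        refine ⟨v + 1, M, ?_, hM, ?_, ?_⟩
        · rw [e]
          ring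
        · rw [h3.1, hL.2.2.1.1, hv]
          push_cast
          ring
        · rw [h3.2, hL.2.2.1.2, hw, zero_add]
      · refine ⟨0, N, ?_, h, ?_, ?_⟩
        · rw [pow_zero, one_mul]
        · rw [(hL.2.2.2.1 N h).1]
          simp
        · rw [(hL.2.2.2.1 N h).2]
  exact key _ N hN rfl

/-- first case of the symbol -/
theorem slA (hS : SLE) (hL : LCL) {g h k N : ℤ} (hN : N ≠ 0) (hg : ¬ (3 : ℤ) ∣ g)
    (hh : h = 3 * k) : sl ((g : Eis) + (h : Eis) * w) (N : Eis) = lv N * (g * k) := by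
  obtain ⟨v, M, e, hM, hv, hw⟩ := dec hL hN
  have h1 := (hS g h M v hM).1 hg (by rw [hh]; exact ⟨k, rfl⟩)
  rw [← e] at h1
  rw [h1, hv]
  have e2 : h / 3 = k := by omega
  rw [e2]
  push_cast
  ring

/-- second case of the symbol -/
theorem slB (hS : SLE) (hL : LCL) {g h k N : ℤ} (hN : N ≠ 0) (hg : g = 3 * k)
    (hh : ¬ (3 : ℤ) ∣ h) :
    sl ((g : Eis) + (h : Eis) * w) (N : Eis) = - lw N - lv N * (h * k) := by
  obtain ⟨v, M, e, hM, hv, hw⟩ := dec hL hN
  have h1 := (hS g h M v hM).2.1 (by rw [hg]; exact ⟨k, rfl⟩) hh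
  rw [← e] at h1
  rw [h1, hv, hw]
  have e2 : g / 3 = k := by omega
  rw [e2]
  push_cast
  ring

/-- third case of the symbol -/
theorem slC (hS : SLE) (hL : LCL) {g h k N : ℤ} (hN : N ≠ 0) (hh : ¬ (3 : ℤ) ∣ h)
    (hg : g - h = 3 * k) :
    sl ((g : Eis) + (h : Eis) * w) (N : Eis) = lw N - lv N * (h * k) := by
  obtain ⟨v, M, e, hM, hv, hw⟩ := dec hL hN
  have h1 := (hS g h M v hM).2.2 hh (by rw [hg]; exact ⟨k, rfl⟩)
  rw [← e] at h1
  rw [h1, hv, hw]
  have e2 : (g - h) / 3 = k := by omega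
  rw [e2]
  push_cast
  ring

/-- the symbol of `lam` -/
theorem slLam (hSSL : SSL) (hSREC : SREC) (hL : LCL) {N : ℤ} (hN : N ≠ 0) :
    sl lam (N : Eis) = lw N := by
  obtain ⟨v, M, e, hM, hv, hw⟩ := dec hL hN
  have hM0 : M ≠ 0 := fun h => hM (h ▸ dvd_zero 3)
  have hp : Prim (M : Eis) := ⟨by simp, by simpa using hM⟩
  have h1 : sl lam ((3 ^ v * M : ℤ) : Eis) = v * sl lam 3 + sl lam (M : Eis) :=
    SLE.splitR hSSL SLE.lam_ne hM0 v
  have h2 : sl lam 3 = 0 := by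
    rw [SLE.threeR hSSL SLE.lam_ne, SLE.self hSSL SLE.lam_ne,
      SLE.skew hSSL SLE.w_ne SLE.lam_ne, hSREC.2.2.2]
    ring
  have h3 : sl lam (M : Eis) = wt (M ^ 2) := by
    rw [SLE.skew hSSL (SLE.int_ne hM0) SLE.lam_ne, hSREC.2.2.1 _ hp, intCast_re]
    linear_combination (- wt (M ^ 2)) * three0
  rw [e, h1, h2, h3, ← e, hw]
  ring

/-- fourth case of the symbol -/
theorem slD (hS : SLE) (hSSL : SSL) (hSREC : SREC) (hL : LCL) {g h k N : ℤ} (hN : N ≠ 0)
    (hg : ¬ (3 : ℤ) ∣ g) (hk : g + h = 3 * k) (hv : lv N = 0) :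
    sl ((g : Eis) + (h : Eis) * w) (N : Eis) = lw N * (1 - k * g) := by
  have e : (g : Eis) + (h : Eis) * w = lam * (((g - k : ℤ) : Eis) + (k : Eis) * w) := by
    have hh : h = 3 * k - g := by linarith
    ext
    · simp
    · simp only [add_im, mul_im, intCast_re, intCast_im, w_re, w_im, lam_re, lam_im, add_re,
        mul_re, hh]
      ring
  have hd : ((g - k : ℤ) : Eis) + (k : Eis) * w ≠ 0 := by
    intro h0
    have h1 := congrArg Eis.re h0
    have h2 := congrArg Eis.im h0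
    simp at h1 h2
    apply hg
    have : g = 0 := by omega
    rw [this]
    exact dvd_zero 3
  rw [e, SLE.mulL hSSL SLE.lam_ne hd (SLE.int_ne hN), slLam hSSL hSREC hL hN]
  by_cases h1 : (3 : ℤ) ∣ k
  · have hk0 : (k : ZMod 3) = 0 := z3.mpr h1
    obtain ⟨m, hm⟩ := h1
    rw [slA hS hL (k := m) hN (by omega) hm, hv, hk0]
    ring
  · by_cases h2 : (3 : ℤ) ∣ g - k
    · obtain ⟨m, hm⟩ := h2
      rw [slB hS hL (k := m) hN hm h1, hv]
      have e1 : (g : ZMod 3) = k := by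
        have : ((g - k : ℤ) : ZMod 3) = 0 := z3.mpr ⟨m, hm⟩
        push_cast at this
        linear_combination this
      rw [e1]
      linear_combination (lw N) * sq1 h1
    · have h3 : (3 : ℤ) ∣ (g - k) - k := by
        have a1 : g % 3 = 1 ∨ g % 3 = 2 := by omega
        have a2 : k % 3 = 1 ∨ k % 3 = 2 := by omega
        omega
      obtain ⟨m, hm⟩ := h3
      rw [slC hS hL (k := m) hN h1 hm, hv]
      have e1 : (g : ZMod 3) = - k := by
        have : ((g - k - k : ℤ) : ZMod 3) = 0 := z3.mpr ⟨m, hm⟩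
        push_cast at this
        linear_combination this + k * three0
      rw [e1]
      linear_combination (- lw N) * sq1 h1

/-- the symbol of a local cube -/
theorem slZ (hSSL : SSL) (hL : LCL) {c : Eis} {N : ℤ} (hc : c ≠ 0) (hN : N ≠ 0) (h1 : lv N = 0)
    (h2 : lw N = 0) : sl c (N : Eis) = 0 := by
  have h := hL.2.2.2.2.2.1 N 1 c hN one_ne_zero hc (by rw [h1, (l1 hL).1]) (by rw [h2, (l1 hL).2])
  rw [h, Int.cast_one, SLE.oneR hSSL hc]

/-- third case of the symbol, `lv N = 0` -/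
theorem slE (hS : SLE) (hSSL : SSL) (hL : LCL) {g h N : ℤ} (hN : N ≠ 0)
    (hg : (g : ZMod 3) = h) (hh : h ≠ 0) (h1 : lv N = 0) (h2 : (3 : ℤ) ∣ h → lw N = 0) :
    sl ((g : Eis) + (h : Eis) * w) (N : Eis) = lw N := by
  by_cases h3 : (3 : ℤ) ∣ h
  · rw [h2 h3]
    refine slZ hSSL hL ?_ hN h1 (h2 h3)
    intro h0
    have h4 := congrArg Eis.im h0
    simp at h4
    exact hh h4
  · obtain ⟨m, hm⟩ : (3 : ℤ) ∣ g - h := by
      apply z3.mp
      push_cast
      rw [hg]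
      ring
    rw [slC hS hL hN h3 hm, h1]
    ring

theorem nine {x y : ℤ} (h : x = 3 * y) (hy : (y : ZMod 3) = 0) : (9 : ℤ) ∣ x := by
  obtain ⟨z, hz⟩ := z3.mp hy
  exact ⟨z, by rw [h, hz]; ring⟩

/-- class of `p^3 + b q^3`, `p` prime to `3` -/
theorem clU (hL : LCL) {β p q F : ℤ} (hp : ¬ (3 : ℤ) ∣ p) (hF : F = p ^ 3 + 3 * β * q ^ 3) :
    ¬ (3 : ℤ) ∣ F ∧ lv F = 0 ∧ lw F = - (β * p * q) := by
  have h := lwU hL (c := p) (k := β * p * q) (N := F) hp
    (nine (y := β * (q ^ 3 - p ^ 4 * q)) (by rw [hF]; ring) (by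
      push_cast
      linear_combination (β : ZMod 3) * cu (q : ZMod 3) -
        (β : ZMod 3) * q * ((p : ZMod 3) ^ 2 + 1) * sq1 hp))
  refine ⟨h.1, h.2.1, ?_⟩
  rw [h.2.2]
  push_cast
  ring

theorem three_mul (hL : LCL) {N : ℤ} (hN : ¬ (3 : ℤ) ∣ N) :
    lv (3 * N) = 1 ∧ lw (3 * N) = lw N := by
  have h0 : N ≠ 0 := fun h => hN (h ▸ dvd_zero 3)
  have h3 := hL.2.1 3 N (by norm_num) h0
  rw [h3.1, h3.2, hL.2.2.1.1, hL.2.2.1.2, (hL.2.2.2.1 N hN).1]
  exact ⟨by ring, by ring⟩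

/-- class of `p^3 + b q^3`, `3 ∣ p` -/
theorem clT (hL : LCL) {β ρ q : ℤ} (hβ : ¬ (3 : ℤ) ∣ β) (hq : ¬ (3 : ℤ) ∣ q) :
    ¬ (3 : ℤ) ∣ β * q ^ 3 + 9 * ρ ^ 3 ∧ lv (3 * (β * q ^ 3 + 9 * ρ ^ 3)) = 1 ∧
      lw (3 * (β * q ^ 3 + 9 * ρ ^ 3)) = lw β := by
  have h := lwG hL (β := β) (c := q) (k := 0) (N := β * q ^ 3 + 9 * ρ ^ 3) hβ hq
    ⟨ρ ^ 3, by ring⟩
  have h3 := three_mul hL h.1
  refine ⟨h.1, h3.1, ?_⟩
  rw [h3.2, h.2.2]
  simp

/-- class of a product -/
theorem cl5 (hL : LCL) {b W F H : ℤ} (hb : b ≠ 0) (hW : W ≠ 0) (hF : F ≠ 0) (hH : H ≠ 0) :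
    (b * W * F * H * b ≠ 0 ∧ lv (b * W * F * H * b) = 2 * lv b + lv W + lv F + lv H ∧
      lw (b * W * F * H * b) = 2 * lw b + lw W + lw F + lw H) ∧
    (b * W * F * H * b ^ 2 ≠ 0 ∧ lv (b * W * F * H * b ^ 2) = lv W + lv F + lv H ∧
      lw (b * W * F * H * b ^ 2) = lw W + lw F + lw H) := by
  have n1 : b * W ≠ 0 := mul_ne_zero hb hW
  have n2 : b * W * F ≠ 0 := mul_ne_zero n1 hF
  have n3 : b * W * F * H ≠ 0 := mul_ne_zero n2 hH
  have n4 : b * b ≠ 0 := mul_ne_zero hb hb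
  have a1 := hL.2.1 b W hb hW
  have a2 := hL.2.1 (b * W) F n1 hF
  have a3 := hL.2.1 (b * W * F) H n2 hH
  have a4 := hL.2.1 (b * W * F * H) b n3 hb
  have a5 := hL.2.1 b b hb hb
  have a6 := hL.2.1 (b * W * F * H) (b * b) n3 n4
  refine ⟨⟨mul_ne_zero n3 hb, ?_, ?_⟩, ?_, ?_, ?_⟩
  · rw [a4.1, a3.1, a2.1, a1.1]
    ring
  · rw [a4.2, a3.2, a2.2, a1.2]
    ring
  · rw [pow_two]
    exact mul_ne_zero n3 n4
  · rw [pow_two, a6.1, a5.1, a3.1, a2.1, a1.1]
    linear_combination (lv b) * three0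
  · rw [pow_two, a6.2, a5.2, a3.2, a2.2, a1.2]
    linear_combination (lw b) * three0

/-- `3` divides `p` -/
theorem case10 (hS : SLE) (hSSL : SSL) (hL : LCL)
    {b β ρ p q p' q' X Y F H M W : ℤ} (hb : b = 3 * β) (hβ : ¬ (3 : ℤ) ∣ β) (hp : p = 3 * ρ)
    (hq : ¬ (3 : ℤ) ∣ q) (hp' : ¬ (3 : ℤ) ∣ p') (hXY : ¬ ((3 : ℤ) ∣ X ∧ (3 : ℤ) ∣ Y))
    (hY0 : Y ≠ 0)
    (hF : F = p ^ 3 + b * q ^ 3) (hH : H = p' ^ 3 + b * q' ^ 3) (hM : M = H * X ^ 3 + F * Y ^ 3)
    (hW : W = p ^ 3 * q' ^ 3 - q ^ 3 * p' ^ 3) (hF0 : F ≠ 0) (hH0 : H ≠ 0) (hW0 : W ≠ 0)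
    (e1 : lv F + lv H + lv M = 1) (e2 : lw F + lw H + lw M = lw b) :
    sl ((X * q' : ℤ) + (q * Y : ℤ) * w) ((b * W * F * H * b : ℤ) : Eis) -
      sl ((X * p' : ℤ) + (p * Y : ℤ) * w) ((b * W * F * H * b ^ 2 : ℤ) : Eis) =
    sl ((q * p' : ℤ) - (p * q' : ℤ) * w) (b : Eis) + lw b - lw F + lw H := by
  have hb0 : b ≠ 0 := by
    rw [hb]
    intro h
    exact hβ (by
      have : β = 0 := by omega
      rw [this]
      exact dvd_zero 3)
  have bv : lv b = 1 := by rw [hb]; exact (three_mul hL hβ).1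
  have bw : lw b = lw β := by rw [hb]; exact (three_mul hL hβ).2
  have F1 : F = 3 * (β * q ^ 3 + 9 * ρ ^ 3) := by rw [hF, hb, hp]; ring
  obtain ⟨Fu, Fv, Fw⟩ := clT hL (ρ := ρ) hβ hq
  rw [← F1] at Fv Fw
  obtain ⟨Hu, Hv, Hw⟩ := clU hL (β := β) (q := q') (F := H) hp' (by rw [hH, hb])
  have hc : ¬ (3 : ℤ) ∣ -(q * p') := by
    rw [dvd_neg]
    intro h
    rcases Int.prime_three.dvd_or_dvd h with h | h
    · exact hq h
    · exact hp' h
  obtain ⟨Wu, Wv, Ww⟩ := lwU hL (c := -(q * p')) (k := 0) (N := W) hc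
    ⟨3 * ρ ^ 3 * q' ^ 3, by rw [hW, hp]; ring⟩
  rw [Int.cast_zero, neg_zero] at Ww
  have hX : ¬ (3 : ℤ) ∣ X := by
    rintro ⟨X1, hX1⟩
    have hY : ¬ (3 : ℤ) ∣ Y := fun h => hXY ⟨⟨X1, hX1⟩, h⟩
    have M1 : M = 3 * ((β * q ^ 3 + 9 * ρ ^ 3) * Y ^ 3 + 9 * (H * X1 ^ 3)) := by
      rw [hM, F1, hX1]
      ring
    have h1 : ¬ (3 : ℤ) ∣ (β * q ^ 3 + 9 * ρ ^ 3) * Y ^ 3 + 9 * (H * X1 ^ 3) := by
      intro h
      have h2 : (3 : ℤ) ∣ (β * q ^ 3 + 9 * ρ ^ 3) * Y ^ 3 := by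
        have e : (β * q ^ 3 + 9 * ρ ^ 3) * Y ^ 3 =
          ((β * q ^ 3 + 9 * ρ ^ 3) * Y ^ 3 + 9 * (H * X1 ^ 3)) - 3 * (3 * (H * X1 ^ 3)) := by ring
        rw [e]
        exact dvd_sub h ⟨_, rfl⟩
      rcases Int.prime_three.dvd_or_dvd h2 with h2 | h2
      · exact Fu h2
      · exact hY (Int.prime_three.dvd_of_dvd_pow h2)
    rw [M1, (three_mul hL h1).1, Fv, Hv] at e1
    exact absurd e1 (by decide)
  have hcX : ¬ (3 : ℤ) ∣ p' * X := by
    intro h
    rcases Int.prime_three.dvd_or_dvd h with h | h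
    · exact hp' h
    · exact hX h
  have sX := sq1 hX
  have sp' := sq1 hp'
  have sβ := sq1 hβ
  have sq := sq1 hq
  obtain ⟨Mu, Mv, Mw⟩ := lwU hL (c := p' * X) (k := β * (p' * X) * (q' * X + q * Y)) (N := M) hcX
    (nine (y := β * ((q' * X) ^ 3 + (q * Y) ^ 3) + 9 * (ρ ^ 3 * Y ^ 3) -
      β * (p' * X) ^ 4 * (q' * X + q * Y)) (by rw [hM, hF, hH, hb, hp]; ring) (by
        push_cast
        have e5 : ((p' : ZMod 3) * X) ^ 4 = 1 := by
          linear_combination ((X : ZMod 3) ^ 4 * ((p' : ZMod 3) ^ 2 + 1)) * sp' +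
            ((X : ZMod 3) ^ 2 + 1) * sX
        rw [e5, cu, cu]
        linear_combination (3 * ((ρ : ZMod 3) ^ 3 * (Y : ZMod 3) ^ 3)) * three0))
  push_cast at Mw
  rw [Fw, Hw, Mw, bw] at e2
  have r1 : (q' : ZMod 3) = X * (q * Y) := by
    linear_combination ((β : ZMod 3) * p') * e2 + ((q' : ZMod 3) + X * (q' * X + q * Y)) *
      ((p' : ZMod 3) ^ 2) * sβ + ((q' : ZMod 3) + X * (q' * X + q * Y)) * sp' + (q' : ZMod 3) * sX
      + (q' : ZMod 3) * three0
  have r : ((X * q' : ℤ) : ZMod 3) = ((q * Y : ℤ) : ZMod 3) := by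
    push_cast
    linear_combination (X : ZMod 3) * r1 + (q : ZMod 3) * Y * sX
  have r2 : (X : ZMod 3) * Y = q * q' := by
    linear_combination (-(q : ZMod 3)) * r1 - (X : ZMod 3) * Y * sq
  obtain ⟨⟨n1, v1, w1⟩, n2, v2, w2⟩ := cl5 hL hb0 hW0 hF0 hH0
  rw [bv, Wv, Fv, Hv] at v1
  rw [bw, Ww, Fw] at w1
  rw [Wv, Fv, Hv] at v2
  have v1' : lv (b * W * F * H * b) = 0 := by
    rw [v1]
    decide
  have w1' : lw (b * W * F * H * b) = lw H := by
    rw [w1]
    linear_combination (lw β) * three0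
  have S1 : sl ((X * q' : ℤ) + (q * Y : ℤ) * w) ((b * W * F * H * b : ℤ) : Eis) =
      lw (b * W * F * H * b) := by
    have hq0 : q ≠ 0 := fun h => hq (h ▸ dvd_zero 3)
    refine slE hS hSSL hL n1 r (mul_ne_zero hq0 hY0) v1' ?_
    intro h
    have h4 : (q' : ZMod 3) = 0 := by
      have h5 := z3.mpr h
      push_cast at h5
      rw [r1, h5, mul_zero]
    rw [w1', Hw, h4, mul_zero, neg_zero]
  have hgp : ¬ (3 : ℤ) ∣ X * p' := by rwa [mul_comm]
  have S2 := slA hS hL (g := X * p') (h := p * Y) (k := ρ * Y) n2 hgp (by rw [hp]; ring)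
  have hgq : ¬ (3 : ℤ) ∣ q * p' := by rwa [dvd_neg] at hc
  have S3 := slA hS hL (g := q * p') (h := -(p * q')) (k := -(ρ * q')) hb0 hgq (by rw [hp]; ring)
  have e3 : ((q * p' : ℤ) : Eis) - ((p * q' : ℤ) : Eis) * w =
      ((q * p' : ℤ) : Eis) + ((-(p * q') : ℤ) : Eis) * w := by
    push_cast
    ring
  rw [e3, S1, S2, S3, w1', v2, bv, bw, Fw]
  push_cast
  linear_combination (-(p' : ZMod 3) * ρ) * r2

/-- `3` divides `p'` -/
theorem case01 (hS : SLE) (hSSL : SSL) (hL : LCL)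
    {b β ρ p q p' q' X Y F H M W : ℤ} (hb : b = 3 * β) (hβ : ¬ (3 : ℤ) ∣ β) (hp : ¬ (3 : ℤ) ∣ p)
    (hp' : p' = 3 * ρ) (hq' : ¬ (3 : ℤ) ∣ q') (hXY : ¬ ((3 : ℤ) ∣ X ∧ (3 : ℤ) ∣ Y))
    (hX0 : X ≠ 0) (hY0 : Y ≠ 0)
    (hF : F = p ^ 3 + b * q ^ 3) (hH : H = p' ^ 3 + b * q' ^ 3) (hM : M = H * X ^ 3 + F * Y ^ 3)
    (hW : W = p ^ 3 * q' ^ 3 - q ^ 3 * p' ^ 3) (hF0 : F ≠ 0) (hH0 : H ≠ 0) (hW0 : W ≠ 0)
    (e1 : lv F + lv H + lv M = 1) (e2 : lw F + lw H + lw M = lw b) :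
    sl ((X * q' : ℤ) + (q * Y : ℤ) * w) ((b * W * F * H * b : ℤ) : Eis) -
      sl ((X * p' : ℤ) + (p * Y : ℤ) * w) ((b * W * F * H * b ^ 2 : ℤ) : Eis) =
    sl ((q * p' : ℤ) - (p * q' : ℤ) * w) (b : Eis) + lw b - lw F + lw H := by
  have hb0 : b ≠ 0 := by
    rw [hb]
    intro h
    exact hβ (by
      have : β = 0 := by omega
      rw [this]
      exact dvd_zero 3)
  have bv : lv b = 1 := by rw [hb]; exact (three_mul hL hβ).1
  have bw : lw b = lw β := by rw [hb]; exact (three_mul hL hβ).2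
  have H1 : H = 3 * (β * q' ^ 3 + 9 * ρ ^ 3) := by rw [hH, hb, hp']; ring
  obtain ⟨Hu, Hv, Hw⟩ := clT hL (ρ := ρ) hβ hq'
  rw [← H1] at Hv Hw
  obtain ⟨Fu, Fv, Fw⟩ := clU hL (β := β) (q := q) (F := F) hp (by rw [hF, hb])
  have hc : ¬ (3 : ℤ) ∣ p * q' := by
    intro h
    rcases Int.prime_three.dvd_or_dvd h with h | h
    · exact hp h
    · exact hq' h
  obtain ⟨Wu, Wv, Ww⟩ := lwU hL (c := p * q') (k := 0) (N := W) hc
    ⟨-(3 * ρ ^ 3 * q ^ 3), by rw [hW, hp']; ring⟩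
  rw [Int.cast_zero, neg_zero] at Ww
  have hY : ¬ (3 : ℤ) ∣ Y := by
    rintro ⟨Y1, hY1⟩
    have hX : ¬ (3 : ℤ) ∣ X := fun h => hXY ⟨h, ⟨Y1, hY1⟩⟩
    have M1 : M = 3 * ((β * q' ^ 3 + 9 * ρ ^ 3) * X ^ 3 + 9 * (F * Y1 ^ 3)) := by
      rw [hM, H1, hY1]
      ring
    have h1 : ¬ (3 : ℤ) ∣ (β * q' ^ 3 + 9 * ρ ^ 3) * X ^ 3 + 9 * (F * Y1 ^ 3) := by
      intro h
      have h2 : (3 : ℤ) ∣ (β * q' ^ 3 + 9 * ρ ^ 3) * X ^ 3 := by
        have e : (β * q' ^ 3 + 9 * ρ ^ 3) * X ^ 3 =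
          ((β * q' ^ 3 + 9 * ρ ^ 3) * X ^ 3 + 9 * (F * Y1 ^ 3)) - 3 * (3 * (F * Y1 ^ 3)) := by ring
        rw [e]
        exact dvd_sub h ⟨_, rfl⟩
      rcases Int.prime_three.dvd_or_dvd h2 with h2 | h2
      · exact Hu h2
      · exact hX (Int.prime_three.dvd_of_dvd_pow h2)
    rw [M1, (three_mul hL h1).1, Fv, Hv] at e1
    exact absurd e1 (by decide)
  have hcY : ¬ (3 : ℤ) ∣ p * Y := by
    intro h
    rcases Int.prime_three.dvd_or_dvd h with h | h
    · exact hp h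
    · exact hY h
  have sY := sq1 hY
  have sp := sq1 hp
  have sβ := sq1 hβ
  have sq' := sq1 hq'
  obtain ⟨Mu, Mv, Mw⟩ := lwU hL (c := p * Y) (k := β * (p * Y) * (q' * X + q * Y)) (N := M) hcY
    (nine (y := β * ((q' * X) ^ 3 + (q * Y) ^ 3) + 9 * (ρ ^ 3 * X ^ 3) -
      β * (p * Y) ^ 4 * (q' * X + q * Y)) (by rw [hM, hF, hH, hb, hp']; ring) (by
        push_cast
        have e5 : ((p : ZMod 3) * Y) ^ 4 = 1 := by
          linear_combination ((Y : ZMod 3) ^ 4 * ((p : ZMod 3) ^ 2 + 1)) * sp +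
            ((Y : ZMod 3) ^ 2 + 1) * sY
        rw [e5, cu, cu]
        linear_combination (3 * ((ρ : ZMod 3) ^ 3 * (X : ZMod 3) ^ 3)) * three0))
  push_cast at Mw
  rw [Fw, Hw, Mw, bw] at e2
  have r1 : (q : ZMod 3) = Y * (q' * X) := by
    linear_combination ((β : ZMod 3) * p) * e2 + ((q : ZMod 3) + Y * (q' * X + q * Y)) *
      ((p : ZMod 3) ^ 2) * sβ + ((q : ZMod 3) + Y * (q' * X + q * Y)) * sp + (q : ZMod 3) * sY
      + (q : ZMod 3) * three0
  have r : ((X * q' : ℤ) : ZMod 3) = ((q * Y : ℤ) : ZMod 3) := by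
    push_cast
    linear_combination (-(Y : ZMod 3)) * r1 - (q' : ZMod 3) * X * sY
  have r2 : (X : ZMod 3) * Y = q * q' := by
    linear_combination (-(q' : ZMod 3)) * r1 - (X : ZMod 3) * Y * sq'
  obtain ⟨⟨n1, v1, w1⟩, n2, v2, w2⟩ := cl5 hL hb0 hW0 hF0 hH0
  rw [bv, Wv, Fv, Hv] at v1
  rw [bw, Ww, Hw] at w1
  rw [Wv, Fv, Hv] at v2
  have v1' : lv (b * W * F * H * b) = 0 := by
    rw [v1]
    decide
  have w1' : lw (b * W * F * H * b) = lw F := by
    rw [w1]
    linear_combination (lw β) * three0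
  have S1 : sl ((X * q' : ℤ) + (q * Y : ℤ) * w) ((b * W * F * H * b : ℤ) : Eis) =
      lw (b * W * F * H * b) := by
    by_cases hq : (3 : ℤ) ∣ q
    · have h4 : (q : ZMod 3) = 0 := z3.mpr hq
      have h5 : lw (b * W * F * H * b) = 0 := by
        rw [w1', Fw, h4, mul_zero, neg_zero]
      rw [h5]
      refine slZ hSSL hL ?_ n1 v1' h5
      intro h0
      have h6 := congrArg Eis.re h0
      simp at h6
      rcases h6 with h6 | h6
      · exact hX0 h6
      · exact hq' (h6 ▸ dvd_zero 3)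
    · have hq0 : q ≠ 0 := fun h => hq (h ▸ dvd_zero 3)
      refine slE hS hSSL hL n1 r (mul_ne_zero hq0 hY0) v1' ?_
      intro h
      exfalso
      rcases Int.prime_three.dvd_or_dvd h with h | h
      · exact hq h
      · exact hY h
  have S2 := slB hS hL (g := X * p') (h := p * Y) (k := X * ρ) n2 (by rw [hp']; ring) hcY
  have hgq : ¬ (3 : ℤ) ∣ -(p * q') := by rwa [dvd_neg]
  have S3 := slB hS hL (g := q * p') (h := -(p * q')) (k := q * ρ) hb0 (by rw [hp']; ring) hgq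
  have e3 : ((q * p' : ℤ) : Eis) - ((p * q' : ℤ) : Eis) * w =
      ((q * p' : ℤ) : Eis) + ((-(p * q') : ℤ) : Eis) * w := by
    push_cast
    ring
  rw [e3, S1, S2, S3, w1', v2, w2, bv, bw, Hw, Ww]
  push_cast
  linear_combination ((p : ZMod 3) * ρ) * r2 + (lw F) * three0

/-- `p` and `p'` are prime to `3` -/
theorem case00 (hS : SLE) (hSSL : SSL) (hSREC : SREC) (hL : LCL)
    {b β p q p' q' X Y F H M W : ℤ} (hb : b = 3 * β) (hβ : ¬ (3 : ℤ) ∣ β) (hp : ¬ (3 : ℤ) ∣ p)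
    (hp' : ¬ (3 : ℤ) ∣ p') (hXY : ¬ ((3 : ℤ) ∣ X ∧ (3 : ℤ) ∣ Y))
    (hF : F = p ^ 3 + b * q ^ 3) (hH : H = p' ^ 3 + b * q' ^ 3) (hM : M = H * X ^ 3 + F * Y ^ 3)
    (hW : W = p ^ 3 * q' ^ 3 - q ^ 3 * p' ^ 3) (hF0 : F ≠ 0) (hH0 : H ≠ 0) (hW0 : W ≠ 0)
    (e1 : lv F + lv H + lv M = 1) (e2 : lw F + lw H + lw M = lw b)
    (e0 : ¬ (lv F = lv H ∧ lw F = lw H)) :
    sl ((X * q' : ℤ) + (q * Y : ℤ) * w) ((b * W * F * H * b : ℤ) : Eis) -
      sl ((X * p' : ℤ) + (p * Y : ℤ) * w) ((b * W * F * H * b ^ 2 : ℤ) : Eis) =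
    sl ((q * p' : ℤ) - (p * q' : ℤ) * w) (b : Eis) + lw b - lw F + lw H := by
  have hb0 : b ≠ 0 := by
    rw [hb]
    intro h
    exact hβ (by
      have : β = 0 := by omega
      rw [this]
      exact dvd_zero 3)
  have bv : lv b = 1 := by rw [hb]; exact (three_mul hL hβ).1
  have bw : lw b = lw β := by rw [hb]; exact (three_mul hL hβ).2
  obtain ⟨Fu, Fv, Fw⟩ := clU hL (β := β) (q := q) (F := F) hp (by rw [hF, hb])
  obtain ⟨Hu, Hv, Hw⟩ := clU hL (β := β) (q := q') (F := H) hp' (by rw [hH, hb])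
  have sp := sq1 hp
  have sp' := sq1 hp'
  have sβ := sq1 hβ
  have hne : (p : ZMod 3) * q ≠ p' * q' := by
    intro h
    apply e0
    rw [Fv, Hv, Fw, Hw]
    exact ⟨rfl, by linear_combination (-(β : ZMod 3)) * h⟩
  have hc : ¬ (3 : ℤ) ∣ p * q' - q * p' := by
    intro h
    have h1 := z3.mpr h
    push_cast at h1
    apply hne
    linear_combination (-(p : ZMod 3) * p') * h1 + (p' : ZMod 3) * q' * sp -
      (p : ZMod 3) * q * sp'
  obtain ⟨Wu, Wv, Ww⟩ := lwU hL (c := p * q' - q * p') (k := (p * q') * (q * p')) (N := W) hc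
    (nine (y := (p * q') * (q * p') * ((p * q' - q * p') - (p * q' - q * p') ^ 3))
      (by rw [hW]; ring) (by
        push_cast
        rw [cu]
        ring))
  push_cast at Ww
  -- `3` divides `M`
  have hMc : (M : ZMod 3) = p' * X + p * Y := by
    rw [hM, hH, hF, hb]
    push_cast
    have a1 := cu (p' : ZMod 3)
    have a2 := cu (p : ZMod 3)
    have a3 := cu (X : ZMod 3)
    have a4 := cu (Y : ZMod 3)
    rw [a1, a2, a3, a4]
    linear_combination ((β : ZMod 3) * (q' : ZMod 3) ^ 3 * X + (β : ZMod 3) * (q : ZMod 3) ^ 3 * Y)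
      * three0
  have hM3 : (3 : ℤ) ∣ M := by
    by_contra h
    rw [(hL.2.2.2.1 M h).1, Fv, Hv] at e1
    exact absurd e1 (by decide)
  have eM := z3.mpr hM3
  rw [hMc] at eM
  have hX : ¬ (3 : ℤ) ∣ X := by
    intro h
    apply hXY
    refine ⟨h, z3.mp ?_⟩
    have h1 := z3.mpr h
    linear_combination (p : ZMod 3) * eM - (Y : ZMod 3) * sp - (p : ZMod 3) * p' * h1
  have hY : ¬ (3 : ℤ) ∣ Y := by
    intro h
    apply hXY
    refine ⟨z3.mp ?_, h⟩
    have h1 := z3.mpr h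
    linear_combination (p' : ZMod 3) * eM - (X : ZMod 3) * sp' - (p : ZMod 3) * p' * h1
  have sX := sq1 hX
  have sY := sq1 hY
  obtain ⟨k, hk⟩ : (3 : ℤ) ∣ p' * X + p * Y := z3.mp (by push_cast; exact eM)
  have hε : ¬ (3 : ℤ) ∣ q' * X + q * Y := by
    intro h
    have h1 := z3.mpr h
    push_cast at h1
    apply hne
    -- q' X + q Y = 0, p' X = - p Y
    linear_combination (-(p' : ZMod 3) * X) * h1 + (p' : ZMod 3) * q' * sX +
      (q : ZMod 3) * Y * eM - (p : ZMod 3) * q * sY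
  obtain ⟨Mu, Mv, Mw⟩ := lwG hL (β := β) (c := q' * X + q * Y)
    (k := k * β * (q' * X + q * Y) - (q' * X) * (q * Y))
    (N := 9 * k ^ 3 - 3 * k * (p' * X) * (p * Y) + β * ((q' * X) ^ 3 + (q * Y) ^ 3)) hβ hε
    (nine (y := β * (q' * X) * (q * Y) * ((q' * X + q * Y) ^ 3 - (q' * X + q * Y)) -
      k * (β ^ 2 * (q' * X + q * Y) ^ 4 + (p' * X) * (p * Y)) + 3 * k ^ 3) (by ring) (by
        push_cast
        have s1 := sq1 hε
        push_cast at s1
        have s4 : ((q' : ZMod 3) * X + q * Y) ^ 4 = 1 := by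
          linear_combination (((q' : ZMod 3) * X + q * Y) ^ 2 + 1) * s1
        have s5 : (p' : ZMod 3) * X * (p * Y) = -1 := by
          linear_combination (p' : ZMod 3) * X * eM - (X : ZMod 3) ^ 2 * sp' - sX
        rw [s4, s5, cu, sβ]
        linear_combination (k : ZMod 3) ^ 3 * three0))
  have M1 : M = 3 * (9 * k ^ 3 - 3 * k * (p' * X) * (p * Y) +
      β * ((q' * X) ^ 3 + (q * Y) ^ 3)) := by
    rw [hM, hH, hF, hb]
    linear_combination ((p' * X + p * Y) ^ 2 + (p' * X + p * Y) * (3 * k) + 9 * k ^ 2 -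
      3 * (p' * X) * (p * Y)) * hk
  have Mw' : lw M = lw β - (k * β * (q' * X + q * Y) - (q' * X) * (q * Y)) := by
    rw [M1, (three_mul hL Mu).2, Mw]
    push_cast
    ring
  rw [Fw, Hw, Mw', bw] at e2
  obtain ⟨⟨n1, v1, w1⟩, n2, v2, w2⟩ := cl5 hL hb0 hW0 hF0 hH0
  rw [bv, Wv, Fv, Hv] at v1
  rw [bw, Ww, Fw, Hw] at w1
  rw [Wv, Fv, Hv] at v2
  rw [Ww, Fw, Hw] at w2
  have v2' : lv (b * W * F * H * b ^ 2) = 0 := by
    rw [v2]
    decide
  have hgp : ¬ (3 : ℤ) ∣ X * p' := by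
    intro h
    rcases Int.prime_three.dvd_or_dvd h with h | h
    · exact hX h
    · exact hp' h
  have S2 := slD hS hSSL hSREC hL (g := X * p') (h := p * Y) (k := k) n2 hgp
    (by rw [← hk]; ring) v2'
  have e3 : ((q * p' : ℤ) : Eis) - ((p * q' : ℤ) : Eis) * w =
      ((q * p' : ℤ) : Eis) + ((-(p * q') : ℤ) : Eis) * w := by
    push_cast
    ring
  have rXY : (X : ZMod 3) * Y = - (p * p') := by
    linear_combination (p' : ZMod 3) * Y * eM - (X : ZMod 3) * Y * sp' - (p : ZMod 3) * p' * sY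
  by_cases hq : (3 : ℤ) ∣ q
  · -- first case
    have hq0 := z3.mpr hq
    have hq' : ¬ (3 : ℤ) ∣ q' := by
      intro h
      apply hne
      rw [hq0, z3.mpr h]
      ring
    have sq' := sq1 hq'
    obtain ⟨κ, hκ⟩ := hq
    have hg1 : ¬ (3 : ℤ) ∣ X * q' := by
      intro h
      rcases Int.prime_three.dvd_or_dvd h with h | h
      · exact hX h
      · exact hq' h
    have hh3 : ¬ (3 : ℤ) ∣ -(p * q') := by
      rw [dvd_neg]
      intro h
      rcases Int.prime_three.dvd_or_dvd h with h | h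
      · exact hp h
      · exact hq' h
    have S1 := slA hS hL (g := X * q') (h := q * Y) (k := κ * Y) n1 hg1 (by rw [hκ]; ring)
    have S3 := slB hS hL (g := q * p') (h := -(p * q')) (k := κ * p') hb0 (by rw [hκ]; ring) hh3
    rw [hq0] at e2
    have c1 : (k : ZMod 3) * (X * p') = -1 := by
      linear_combination (-(β : ZMod 3) * q' * p') * e2 -
        ((k : ZMod 3) * X * p' * (q' : ZMod 3) ^ 2 + (p' : ZMod 3) ^ 2 * (q' : ZMod 3) ^ 2) * sβ -
        (q' : ZMod 3) ^ 2 * sp' - ((k : ZMod 3) * X * p' + 1) * sq'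
    rw [e3, S1, S2, S3, v1, w2, bv, bw, Fw, Hw]
    push_cast
    rw [hq0]
    linear_combination (2 * (q' : ZMod 3) * κ) * rXY - ((β : ZMod 3) * p' * q') * c1 +
      ((β : ZMod 3) * p' * q' - (p : ZMod 3) * p' * q' * κ) * three0
  · have sq := sq1 hq
    have hqY : ¬ (3 : ℤ) ∣ q * Y := by
      intro h
      rcases Int.prime_three.dvd_or_dvd h with h | h
      · exact hq h
      · exact hY h
    by_cases hq' : (3 : ℤ) ∣ q'
    · -- second case
      have hq0 := z3.mpr hq'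
      obtain ⟨κ, hκ⟩ := hq'
      have hg3 : ¬ (3 : ℤ) ∣ q * p' := by
        intro h
        rcases Int.prime_three.dvd_or_dvd h with h | h
        · exact hq h
        · exact hp' h
      have S1 := slB hS hL (g := X * q') (h := q * Y) (k := X * κ) n1 (by rw [hκ]; ring) hqY
      have S3 := slA hS hL (g := q * p') (h := -(p * q')) (k := -(p * κ)) hb0 hg3
        (by rw [hκ]; ring)
      rw [hq0] at e2
      have c1 : (k : ZMod 3) * (X * p') = 1 := by
        linear_combination (k : ZMod 3) * eM + ((β : ZMod 3) * q * p) * e2 +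
          ((k : ZMod 3) * p * Y * (q : ZMod 3) ^ 2 + (p : ZMod 3) ^ 2 * (q : ZMod 3) ^ 2) * sβ +
          (q : ZMod 3) ^ 2 * sp + ((k : ZMod 3) * p * Y + 1) * sq
      rw [e3, S1, S2, S3, v1, w1, w2, bv, bw, Fw, Hw]
      push_cast
      rw [hq0]
      linear_combination (-2 * (q : ZMod 3) * κ) * rXY - ((β : ZMod 3) * p * q) * c1 +
        ((p : ZMod 3) * p' * q * κ - lw β) * three0
    · -- third case
      have sq' := sq1 hq'
      have hpq : (p' : ZMod 3) * q' = - (p * q) := by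
        have opp : ∀ x y : ZMod 3, x ^ 2 = 1 → y ^ 2 = 1 → x ≠ y → y = -x := by decide
        refine opp _ _ ?_ ?_ hne
        · linear_combination (q : ZMod 3) ^ 2 * sp + sq
        · linear_combination (q' : ZMod 3) ^ 2 * sp' + sq'
      have r : (X : ZMod 3) * q' = q * Y := by
        linear_combination (-(X : ZMod 3) * q') * sp' + ((p' : ZMod 3) * q') * eM -
          ((p : ZMod 3) * Y) * hpq + ((q : ZMod 3) * Y) * sp
      obtain ⟨m, hm⟩ : (3 : ℤ) ∣ X * q' - q * Y := z3.mp (by push_cast; rw [r]; ring)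
      obtain ⟨n, hn⟩ : (3 : ℤ) ∣ q * p' - -(p * q') := z3.mp (by
        push_cast
        linear_combination ((p : ZMod 3) * p') * hpq - ((q : ZMod 3) * p') * sp -
          ((p : ZMod 3) * q') * sp')
      have hh3 : ¬ (3 : ℤ) ∣ -(p * q') := by
        rw [dvd_neg]
        intro h
        rcases Int.prime_three.dvd_or_dvd h with h | h
        · exact hp h
        · exact hq' h
      have S1 := slC hS hL (g := X * q') (h := q * Y) (k := m) n1 hqY hm
      have S3 := slC hS hL (g := q * p') (h := -(p * q')) (k := n) hb0 hh3 hn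
      have E3 : 3 * (p' ^ 2 * (q * Y * m - p * q' * n) - n * (p * q') * (Y ^ 2 - p' ^ 2) +
          3 * n ^ 2 * Y ^ 2 - k * p' * q * q' * Y) = 0 := by
        linear_combination (-(p' ^ 2 * q * Y)) * hm + (-(q * p') * Y ^ 2 - 3 * n * Y ^ 2) * hn +
          (p' * q * q' * Y) * hk
      have E1 := (mul_eq_zero.mp E3).resolve_left (by norm_num)
      have cE := congrArg (Int.cast : ℤ → ZMod 3) E1
      push_cast at cE
      have c0 : (k : ZMod 3) * β * (q * Y) = -1 := by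
        linear_combination e2 + (β : ZMod 3) * hpq + ((k : ZMod 3) * β - q * Y) * r -
          (Y : ZMod 3) ^ 2 * sq - sY + ((k : ZMod 3) * β * q * Y) * three0
      have c1 : (k : ZMod 3) * (X * p') = β * p * q := by
        linear_combination ((β : ZMod 3) * q * Y * X * p') * c0 - ((β : ZMod 3) * q * p') * rXY +
          ((β : ZMod 3) * p * q) * sp' - ((k : ZMod 3) * X * p') * ((q : ZMod 3) ^ 2 *
            (Y : ZMod 3) ^ 2) * sβ - ((k : ZMod 3) * X * p' * (Y : ZMod 3) ^ 2) * sq -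
          ((k : ZMod 3) * X * p') * sY
      have key2 : (q : ZMod 3) * Y * m - p * q' * n = β * p * q := by
        linear_combination cE - ((q : ZMod 3) * Y * m - p * q' * n) * sp' +
          ((n : ZMod 3) * p * q') * (sY - sp') - ((n : ZMod 3) ^ 2 * (Y : ZMod 3) ^ 2) * three0 +
          ((p' : ZMod 3) * q' * β) * c0 - ((p' : ZMod 3) * q' * k * q * Y) * sβ -
          (β : ZMod 3) * hpq
      rw [e3, S1, S2, S3, v1, w1, w2, bv, bw, Fw, Hw]
      push_cast
      linear_combination key2 + c1 + ((k : ZMod 3) * X * p') * (-((p : ZMod 3) * q + β)) * hpq +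
        ((k : ZMod 3) * X * p' * (q : ZMod 3) ^ 2) * sp + ((k : ZMod 3) * X * p') * sq +
        (β : ZMod 3) * hpq - ((q : ZMod 3) * Y * m) * three0

end LN1

open _root_.Pool.Agent.PT3.LN1 in
/-- LN1: the numerical form of LE1. -/
theorem LN1_thm (hSLE : SLE) (hSSL : SSL) (hSREC : SREC) (hSCJ : SCJ) (hSLC : SLC)
    (hLCL : LCL) : LN1 := by
  intro b p q p' q' X Y F H M hb3 hb9 hpq hpq' hXY hX0 hY0 hF hH hM hF0 hH0 hM0 hW0 e1 e2 e0
  obtain ⟨β, hb⟩ := hb3
  have hβ : ¬ (3 : ℤ) ∣ β := by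
    rintro ⟨c, hc⟩
    exact hb9 ⟨c, by rw [hb, hc]; ring⟩
  by_cases hp : (3 : ℤ) ∣ p
  · have hq : ¬ (3 : ℤ) ∣ q := fun h => hpq ⟨hp, h⟩
    obtain ⟨ρ, hρ⟩ := hp
    by_cases hp' : (3 : ℤ) ∣ p'
    · exfalso
      have hq' : ¬ (3 : ℤ) ∣ q' := fun h => hpq' ⟨hp', h⟩
      obtain ⟨ρ', hρ'⟩ := hp'
      have a1 := clT hLCL (ρ := ρ) hβ hq
      have a2 := clT hLCL (ρ := ρ') hβ hq'
      have F1 : F = 3 * (β * q ^ 3 + 9 * ρ ^ 3) := by rw [hF, hb, hρ]; ring
      have H1 : H = 3 * (β * q' ^ 3 + 9 * ρ' ^ 3) := by rw [hH, hb, hρ']; ring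
      apply e0
      rw [F1, H1, a1.2.1, a1.2.2, a2.2.1, a2.2.2]
      exact ⟨rfl, rfl⟩
    · exact case10 hSLE hSSL hLCL hb hβ hρ hq hp' hXY hY0 hF hH hM rfl hF0 hH0 hW0 e1 e2
  · by_cases hp' : (3 : ℤ) ∣ p'
    · have hq' : ¬ (3 : ℤ) ∣ q' := fun h => hpq' ⟨hp', h⟩
      obtain ⟨ρ', hρ'⟩ := hp'
      exact case01 hSLE hSSL hLCL hb hβ hp hρ' hq' hXY hX0 hY0 hF hH hM rfl hF0 hH0 hW0 e1 e2
    · exact case00 hSLE hSSL hSREC hLCL hb hβ hp hp' hXY hF hH hM rfl hF0 hH0 hW0 e1 e2 e0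

end Pool.Agent.PT3

end
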