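import Mathlib
import Pool.Agent.PTWX.C16

/-! Parts: PT.DENS, PT.ECL, PTE.DENSS, PTE.DIRS, PT3.DENG, PT3.ECL0, PT3.DADD, PT.FDC, PT.NFIX, PT3.FIN0, PT3.MAI3, PTE.MAINS, PTL.EA -/

namespace Pool.Agent.PT.DENS
end Pool.Agent.PT.DENS

namespace Pool.Agent.PT.ECL
end Pool.Agent.PT.ECL

namespace Pool.Agent.PTE.DENSS
end Pool.Agent.PTE.DENSS

namespace Pool.Agent.PTE.DIRS
end Pool.Agent.PTE.DIRS

namespace Pool.Agent.PT3.DADD
end Pool.Agent.PT3.DADD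

namespace Pool.Agent.PT.FDC
end Pool.Agent.PT.FDC

namespace Pool.Agent.PT.NFIX
end Pool.Agent.PT.NFIX

namespace Pool.Agent.PT3.FIN0
end Pool.Agent.PT3.FIN0

namespace Pool.Agent.PT3.MAI3
end Pool.Agent.PT3.MAI3

section

/-!
# Prime twists of rank zero: module DENS (the density of the primes with nonsingular matrix)
-/

open NumberField IsDedekindDomain Finset
open scoped nonZeroDivisors Pointwise

namespace Pool.Agent.PT

open Pool.Agent.Lib_helper18 Pool.Agent.Lib_helper18.Eis Pool.Agent.Lib_helper84.Cub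

namespace DENS

/-! ### Cube roots modulo `Q = 2 (mod 3)` -/

lemma root_exists {Q : ℕ} (hQ : Q.Prime) (h3 : Q % 3 = 2) (b : ℤ) :
    ∃ r : ℤ, (Q : ℤ) ∣ r ^ 3 - b := by
  have : Fact Q.Prime := ⟨hQ⟩
  obtain ⟨k, hk⟩ : ∃ k, Q = 3 * k + 2 := ⟨Q / 3, by omega⟩
  refine ⟨b ^ (2 * k + 1), ?_⟩
  have h : (b : ZMod Q) ^ (3 * k + 2) = b :=
    (congrArg (fun n => (b : ZMod Q) ^ n) hk).symm.trans (ZMod.pow_card (b : ZMod Q))
  have h1 : (((b ^ (2 * k + 1)) ^ 3 - b : ℤ) : ZMod Q) = 0 := by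
    push_cast
    have h2 : ((b : ZMod Q) ^ (2 * k + 1)) ^ 3 =
        (b : ZMod Q) ^ (3 * k + 2) * (b : ZMod Q) ^ (3 * k + 1) := by ring
    rw [h2, h]
    have h3 : (b : ZMod Q) * (b : ZMod Q) ^ (3 * k + 1) = (b : ZMod Q) ^ (3 * k + 2) := by ring
    rw [h3, h, sub_self]
  exact (ZMod.intCast_zmod_eq_zero_iff_dvd _ Q).mp h1

/-! ### Densities -/

lemma cls_eq (s : ℝ) {f : ℕ} (a : (ZMod f)ˣ) :
    ∑' q : {q : ℕ // q.Prime ∧ (q : ZMod f) = a}, (q : ℝ) ^ (-s) =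
      ∑' n : ℕ, Set.indicator {q : ℕ | q.Prime ∧ (q : ZMod f) = a}
        (fun n : ℕ => (n : ℝ) ^ (-s)) n :=
  tsum_subtype {q : ℕ | q.Prime ∧ (q : ZMod f) = a} (fun n : ℕ => (n : ℝ) ^ (-s))

open RI.PD in
/-- Removing primes in finitely many residue classes. -/
lemma dens_sub (hDIR : DIR) {f : ℕ} (hf : 0 < f) (𝒞 : Finset (ZMod f)ˣ) (F S : Set ℕ) (δ : ℝ)
    (hF : RI.DensityGE F δ)
    (hsub : ∀ q ∈ F, q.Prime → q ∉ S → ∃ a ∈ 𝒞, (q : ZMod f) = a) :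
    RI.DensityGE S (δ - 𝒞.card / f.totient) := by
  classical
  obtain ⟨C, h⟩ := hF
  have hD : ∀ a : (ZMod f)ˣ, ∃ C : ℝ, ∀ s : ℝ, 1 < s → s ≤ 2 →
    ∑' q : {q : ℕ // q.Prime ∧ (q : ZMod f) = a}, (q : ℝ) ^ (-s) ≤
      (1 / (f.totient : ℝ)) * Real.log (1 / (s - 1)) + C := fun a => hDIR f a hf
  choose D hD using hD
  refine ⟨C + ∑ a ∈ 𝒞, D a, fun s hs hs2 => ?_⟩
  have h1 := h s hs hs2
  rw [sub_eq] at h1 ⊢
  have hsum := summ hs
  have hSF := hsum.indicator {q : ℕ | q.Prime ∧ q ∈ F}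
  have hSS := hsum.indicator {q : ℕ | q.Prime ∧ q ∈ S}
  have hSa : ∀ a ∈ 𝒞, Summable (Set.indicator {q : ℕ | q.Prime ∧ (q : ZMod f) = a}
      (fun n : ℕ => (n : ℝ) ^ (-s))) := fun a _ => hsum.indicator _
  have hpt : ∀ n : ℕ, Set.indicator {q : ℕ | q.Prime ∧ q ∈ F} (fun n : ℕ => (n : ℝ) ^ (-s)) n ≤
      Set.indicator {q : ℕ | q.Prime ∧ q ∈ S} (fun n : ℕ => (n : ℝ) ^ (-s)) n +
        ∑ a ∈ 𝒞, Set.indicator {q : ℕ | q.Prime ∧ (q : ZMod f) = a}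
          (fun n : ℕ => (n : ℝ) ^ (-s)) n := by
    intro n
    have h0 : ∀ a ∈ 𝒞, 0 ≤ Set.indicator {q : ℕ | q.Prime ∧ (q : ZMod f) = a}
        (fun n : ℕ => (n : ℝ) ^ (-s)) n :=
      fun a _ => Set.indicator_nonneg (fun x _ => term_nonneg s x) n
    have hS0 : 0 ≤ Set.indicator {q : ℕ | q.Prime ∧ q ∈ S} (fun n : ℕ => (n : ℝ) ^ (-s)) n :=
      Set.indicator_nonneg (fun x _ => term_nonneg s x) n
    have hsum0 := Finset.sum_nonneg h0
    by_cases hn : n ∈ {q : ℕ | q.Prime ∧ q ∈ F}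
    · rw [Set.indicator_of_mem hn]
      by_cases hnS : n ∈ S
      · have hnT : n ∈ {q : ℕ | q.Prime ∧ q ∈ S} := ⟨hn.1, hnS⟩
        rw [Set.indicator_of_mem hnT]
        linarith
      · obtain ⟨a, ha, hna⟩ := hsub n hn.2 hn.1 hnS
        have h2 := Finset.single_le_sum h0 ha
        have hna' : n ∈ {q : ℕ | q.Prime ∧ (q : ZMod f) = a} := ⟨hn.1, hna⟩
        rw [Set.indicator_of_mem hna'] at h2
        linarith
    · rw [Set.indicator_of_notMem hn]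
      linarith
  have h2 := hSF.tsum_le_tsum hpt (hSS.add (summable_sum hSa))
  rw [hSS.tsum_add (summable_sum hSa), Summable.tsum_finsetSum hSa] at h2
  have h3 : ∑ a ∈ 𝒞, ∑' n : ℕ, Set.indicator {q : ℕ | q.Prime ∧ (q : ZMod f) = a}
      (fun n : ℕ => (n : ℝ) ^ (-s)) n ≤
      ∑ a ∈ 𝒞, ((1 / (f.totient : ℝ)) * Real.log (1 / (s - 1)) + D a) := by
    refine Finset.sum_le_sum fun a _ => ?_
    have h4 := hD a s hs hs2
    rwa [cls_eq] at h4
  rw [Finset.sum_add_distrib, Finset.sum_const, nsmul_eq_mul] at h3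
  have h5 : (δ - (𝒞.card : ℝ) / f.totient) * Real.log (1 / (s - 1)) =
      δ * Real.log (1 / (s - 1)) -
        𝒞.card * (1 / (f.totient : ℝ) * Real.log (1 / (s - 1))) := by ring
  rw [h5]
  linarith

lemma dens_mono {S : Set ℕ} {δ δ' : ℝ} (h : RI.DensityGE S δ) (hδ : δ' ≤ δ) :
    RI.DensityGE S δ' := by
  obtain ⟨C, h⟩ := h
  refine ⟨C, fun s hs hs2 => le_trans ?_ (h s hs hs2)⟩
  have h0 : 0 ≤ Real.log (1 / (s - 1)) := by
    apply Real.log_nonneg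
    rw [le_div_iff₀ (by linarith)]
    linarith
  have h1 := mul_le_mul_of_nonneg_right hδ h0
  linarith

/-! ### The counts -/

lemma card_fib {G β : Type} [Finite G] [Fintype β] [DecidableEq β] (χ : G → β) (S : β → Prop)
    [DecidablePred S] (R : G → Prop) :
    Nat.card {g : G // S (χ g) ∧ R g} =
      ∑ a ∈ univ.filter S, Nat.card {g : G // χ g = a ∧ R g} := by
  classical
  have := Fintype.ofFinite G
  simp only [Nat.card_eq_fintype_card, Fintype.card_subtype]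
  rw [Finset.card_eq_sum_card_fiberwise (f := χ) (t := univ.filter S)]
  · refine Finset.sum_congr rfl fun a ha => ?_
    rw [Finset.filter_filter]
    congr 1
    ext g
    simp only [Finset.mem_filter, Finset.mem_univ, true_and] at ha ⊢
    constructor
    · rintro ⟨⟨_, h2⟩, h3⟩
      exact ⟨h3, h2⟩
    · rintro ⟨h3, h2⟩
      exact ⟨⟨h3 ▸ ha, h2⟩, h3⟩
  · intro g hg
    simp only [Finset.coe_filter, Finset.mem_univ, true_and] at hg ⊢
    exact hg.1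

/-- The data for the counts. -/
structure Dat {G : Type} [Group G] [Finite G] {s f m : ℕ} [NeZero f] (χ : G →* (ZMod f)ˣ)
    (t : G → Fin s → Fin s → ZMod 3) (K : (ZMod f)ˣ → Fin (m + 1) → ZMod 3) : Prop where
  hK : ∀ c : Fin (m + 1) → ZMod 3,
    Nat.card {a : (ZMod f)ˣ // M2 a ∧ K a = c} * (2 * 3 ^ (m + 1)) = f.totient
  hD : ∀ (a : (ZMod f)ˣ) (C : Fin s → Fin s → ZMod 3), M2 a →
    8 * Nat.card {g : G // χ g = a ∧ (alt (C - t g)).det = 0} ≤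
      3 * Nat.card {g : G // χ g = a} ∧
    8 * Nat.card {g : G // χ g = a ∧ (alt (C + t g)).det = 0} ≤
      3 * Nat.card {g : G // χ g = a} ∧
    Nat.card {g : G // χ g = a} * f.totient = Nat.card G

section counts

variable {G : Type} [Group G] [Finite G] {s f m : ℕ} [NeZero f] {χ : G →* (ZMod f)ˣ}
  {t : G → Fin s → Fin s → ZMod 3} {K : (ZMod f)ˣ → Fin (m + 1) → ZMod 3}

omit [Finite G] [NeZero f] in
lemma card_true (a : (ZMod f)ˣ) :
    Nat.card {g : G // χ g = a ∧ True} = Nat.card {g : G // χ g = a} := by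
  simp only [and_true]

omit [Finite G] [NeZero f] in
lemma card_true' (c : Fin (m + 1) → ZMod 3) :
    Nat.card {g : G // (M2 (χ g) ∧ K (χ g) = c) ∧ True} =
      Nat.card {g : G // M2 (χ g) ∧ K (χ g) = c} := by
  simp only [and_true]

lemma countN (h : Dat χ t K) (c : Fin (m + 1) → ZMod 3) :
    Nat.card {g : G // M2 (χ g) ∧ K (χ g) = c} * (2 * 3 ^ (m + 1)) = Nat.card G := by
  classical
  have h1 := card_fib (G := G) (β := (ZMod f)ˣ) χ (fun a => M2 a ∧ K a = c) (fun _ => True)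
  rw [card_true' c] at h1
  simp only [card_true] at h1
  have h2 : (∑ a ∈ univ.filter (fun a : (ZMod f)ˣ => M2 a ∧ K a = c),
      Nat.card {g : G // χ g = a}) * f.totient =
      Nat.card {a : (ZMod f)ˣ // M2 a ∧ K a = c} * Nat.card G := by
    rw [Finset.sum_mul, Nat.card_eq_fintype_card (α := {a : (ZMod f)ˣ // M2 a ∧ K a = c}),
      Fintype.card_subtype, ← smul_eq_mul (a := Finset.card _), ← Finset.sum_const]
    refine Finset.sum_congr rfl fun a ha => ?_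
    simp only [Finset.mem_filter, Finset.mem_univ, true_and] at ha
    exact (h.hD a 0 ha.1).2.2
  have h3 := h.hK c
  have hφ : 0 < f.totient := Nat.totient_pos.mpr (NeZero.pos f)
  apply Nat.eq_of_mul_eq_mul_right hφ
  rw [h1]
  calc (∑ a ∈ univ.filter (fun a : (ZMod f)ˣ => M2 a ∧ K a = c), Nat.card {g : G // χ g = a}) *
        (2 * 3 ^ (m + 1)) * f.totient =
      ((∑ a ∈ univ.filter (fun a : (ZMod f)ˣ => M2 a ∧ K a = c),
        Nat.card {g : G // χ g = a}) * f.totient) * (2 * 3 ^ (m + 1)) := by ring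
    _ = (Nat.card {a : (ZMod f)ˣ // M2 a ∧ K a = c} * (2 * 3 ^ (m + 1))) * Nat.card G := by
        rw [h2]; ring
    _ = Nat.card G * f.totient := by rw [h3]; ring

lemma countB (c : Fin (m + 1) → ZMod 3) (D : G → Prop)
    (D' : (ZMod f)ˣ → G → Prop) (hDD : ∀ g, D g ↔ D' (χ g) g)
    (hb : ∀ a, M2 a → 8 * Nat.card {g : G // χ g = a ∧ D' a g} ≤
      3 * Nat.card {g : G // χ g = a}) :
    8 * Nat.card {g : G // (M2 (χ g) ∧ K (χ g) = c) ∧ D g} ≤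
      3 * Nat.card {g : G // M2 (χ g) ∧ K (χ g) = c} := by
  classical
  have h1 := card_fib (G := G) (β := (ZMod f)ˣ) χ (fun a => M2 a ∧ K a = c) (fun _ => True)
  rw [card_true' c] at h1
  simp only [card_true] at h1
  have h2 := card_fib (G := G) (β := (ZMod f)ˣ) χ (fun a => M2 a ∧ K a = c) D
  rw [h1, h2, Finset.mul_sum, Finset.mul_sum]
  refine Finset.sum_le_sum fun a ha => ?_
  simp only [Finset.mem_filter, Finset.mem_univ, true_and] at ha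
  refine le_trans (le_of_eq ?_) (hb a ha.1)
  congr 1
  refine Nat.card_congr (Equiv.subtypeEquivRight fun g => ?_)
  constructor
  · rintro ⟨h3, h4⟩
    exact ⟨h3, h3 ▸ (hDD g).mp h4⟩
  · rintro ⟨h3, h4⟩
    exact ⟨h3, (hDD g).mpr (h3.symm ▸ h4)⟩

/-- The positive part: nonsingular elements with class `c`. -/
lemma countP (h : Dat χ t K) (c : Fin (m + 1) → ZMod 3) (D : G → Prop)
    (D' : (ZMod f)ˣ → G → Prop) (hDD : ∀ g, D g ↔ D' (χ g) g)
    (hb : ∀ a, M2 a → 8 * Nat.card {g : G // χ g = a ∧ D' a g} ≤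
      3 * Nat.card {g : G // χ g = a}) :
    5 * Nat.card G ≤ 8 * (2 * 3 ^ (m + 1)) *
      Nat.card {g : G // (M2 (χ g) ∧ K (χ g) = c) ∧ ¬ D g} := by
  classical
  have h1 := countB (K := K) c D D' hDD hb
  have h2 := countN h c
  have h3 : Nat.card {g : G // (M2 (χ g) ∧ K (χ g) = c) ∧ D g} +
      Nat.card {g : G // (M2 (χ g) ∧ K (χ g) = c) ∧ ¬ D g} =
      Nat.card {g : G // M2 (χ g) ∧ K (χ g) = c} := by
    have := Fintype.ofFinite G
    simp only [Nat.card_eq_fintype_card, Fintype.card_subtype]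
    have h5 := Finset.card_filter_add_card_filter_not
      (s := univ.filter (fun g => M2 (χ g) ∧ K (χ g) = c)) D
    rwa [Finset.filter_filter, Finset.filter_filter] at h5
  rw [← h2]
  have h4 : 5 * Nat.card {g : G // M2 (χ g) ∧ K (χ g) = c} ≤
      8 * Nat.card {g : G // (M2 (χ g) ∧ K (χ g) = c) ∧ ¬ D g} := by omega
  calc 5 * (Nat.card {g : G // M2 (χ g) ∧ K (χ g) = c} * (2 * 3 ^ (m + 1))) =
      5 * Nat.card {g : G // M2 (χ g) ∧ K (χ g) = c} * (2 * 3 ^ (m + 1)) := by ring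
    _ ≤ 8 * Nat.card {g : G // (M2 (χ g) ∧ K (χ g) = c) ∧ ¬ D g} * (2 * 3 ^ (m + 1)) :=
        Nat.mul_le_mul_right _ h4
    _ = 8 * (2 * 3 ^ (m + 1)) *
        Nat.card {g : G // (M2 (χ g) ∧ K (χ g) = c) ∧ ¬ D g} := by ring

/-- Both conditions at once. -/
lemma countPP (h : Dat χ t K) (c : Fin (m + 1) → ZMod 3) (D E : G → Prop)
    (D' E' : (ZMod f)ˣ → G → Prop) (hDD : ∀ g, D g ↔ D' (χ g) g) (hEE : ∀ g, E g ↔ E' (χ g) g)
    (hb : ∀ a, M2 a → 8 * Nat.card {g : G // χ g = a ∧ D' a g} ≤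
      3 * Nat.card {g : G // χ g = a})
    (hb' : ∀ a, M2 a → 8 * Nat.card {g : G // χ g = a ∧ E' a g} ≤
      3 * Nat.card {g : G // χ g = a}) :
    Nat.card G ≤ 4 * (2 * 3 ^ (m + 1)) *
      Nat.card {g : G // (M2 (χ g) ∧ K (χ g) = c) ∧ ¬ D g ∧ ¬ E g} := by
  classical
  have h1 := countB (K := K) c D D' hDD hb
  have h1' := countB (K := K) c E E' hEE hb'
  have h2 := countN h c
  have h3 : Nat.card {g : G // M2 (χ g) ∧ K (χ g) = c} ≤
      Nat.card {g : G // (M2 (χ g) ∧ K (χ g) = c) ∧ D g} +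
      Nat.card {g : G // (M2 (χ g) ∧ K (χ g) = c) ∧ E g} +
      Nat.card {g : G // (M2 (χ g) ∧ K (χ g) = c) ∧ ¬ D g ∧ ¬ E g} := by
    have := Fintype.ofFinite G
    simp only [Nat.card_eq_fintype_card, Fintype.card_subtype]
    refine le_trans (Finset.card_le_card ?_) (le_trans (Finset.card_union_le _ _)
      (Nat.add_le_add_right (Finset.card_union_le _ _) _))
    intro g hg
    simp only [Finset.mem_filter, Finset.mem_univ, true_and, Finset.mem_union] at hg ⊢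
    tauto
  rw [← h2]
  have h4 : Nat.card {g : G // M2 (χ g) ∧ K (χ g) = c} ≤
      4 * Nat.card {g : G // (M2 (χ g) ∧ K (χ g) = c) ∧ ¬ D g ∧ ¬ E g} := by omega
  calc Nat.card {g : G // M2 (χ g) ∧ K (χ g) = c} * (2 * 3 ^ (m + 1)) ≤
      4 * Nat.card {g : G // (M2 (χ g) ∧ K (χ g) = c) ∧ ¬ D g ∧ ¬ E g} * (2 * 3 ^ (m + 1)) :=
        Nat.mul_le_mul_right _ h4
    _ = 4 * (2 * 3 ^ (m + 1)) *
        Nat.card {g : G // (M2 (χ g) ∧ K (χ g) = c) ∧ ¬ D g ∧ ¬ E g} := by ring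

end counts

/-! ### Invariance -/

lemma alt_congr {s : ℕ} {v v' : Fin s → Fin s → ZMod 3} (h : ∀ j i, j < i → v j i = v' j i) :
    alt v = alt v' := by
  ext j i
  unfold alt
  split_ifs with h1 h2
  · exact h j i h1
  · rw [h i j h2]
  · rfl

lemma M2_iff {f : ℕ} [NeZero f] (h3 : 3 ∣ f) (a : (ZMod f)ˣ) :
    M2 a ↔ ZMod.castHom h3 (ZMod 3) (a : ZMod f) = 2 := by
  have h1 : ZMod.castHom h3 (ZMod 3) (a : ZMod f) = (((a : ZMod f).val : ℕ) : ZMod 3) := by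
    rw [ZMod.castHom_apply, ZMod.cast_eq_val]
  rw [h1]
  unfold M2
  have h2 : ((2 : ℕ) : ZMod 3) = 2 := rfl
  rw [← h2, ZMod.natCast_eq_natCast_iff']

lemma two_pow_even {k : ℕ} (hk : Even k) : (2 : ZMod 3) ^ k = 1 := by
  obtain ⟨l, rfl⟩ := hk
  rw [← two_mul, pow_mul]
  have : (2 : ZMod 3) ^ 2 = 1 := by decide
  rw [this, one_pow]

lemma two_pow_odd {k : ℕ} (hk : Odd k) : (2 : ZMod 3) ^ k = 2 := by
  obtain ⟨l, rfl⟩ := hk
  rw [pow_succ, two_pow_even (even_two_mul l), one_mul]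

section inv

variable {G : Type} [Group G] [Finite G] {s f m : ℕ} [NeZero f] {χ : G →* (ZMod f)ˣ}
  {t : G → Fin s → Fin s → ZMod 3} {κ : (ZMod f)ˣ →* Multiplicative (Fin (m + 1) → ZMod 3)}
  {Φ : (ZMod f)ˣ →* Multiplicative (Fin s → Fin s → ZMod 3)}

lemma exps (h3 : 3 ∣ f) {g h : G} (hg : M2 (χ g)) (hz : Subgroup.zpowers h = Subgroup.zpowers g) :
    ∃ k l : ℕ, g ^ k = h ∧ h ^ l = g ∧ Odd k ∧ Odd l ∧ M2 (χ h) := by
  obtain ⟨k, hk⟩ : ∃ k : ℕ, g ^ k = h := by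
    have h1 : h ∈ Subgroup.zpowers g := hz ▸ Subgroup.mem_zpowers h
    exact mem_powers_iff_mem_zpowers.mpr h1
  obtain ⟨l, hl⟩ : ∃ l : ℕ, h ^ l = g := by
    have h1 : g ∈ Subgroup.zpowers h := hz ▸ Subgroup.mem_zpowers g
    exact mem_powers_iff_mem_zpowers.mpr h1
  rw [M2_iff h3] at hg
  have e1 : ZMod.castHom h3 (ZMod 3) ((χ h : (ZMod f)ˣ) : ZMod f) = 2 ^ k := by
    rw [← hk, map_pow, Units.val_pow_eq_pow_val, map_pow, hg]
  have e2 : (2 : ZMod 3) = (2 ^ k) ^ l := by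
    rw [← e1, ← map_pow, ← Units.val_pow_eq_pow_val, ← map_pow, hl, hg]
  have hodd : Odd k := by
    by_contra hc
    rw [Nat.not_odd_iff_even] at hc
    rw [two_pow_even hc, one_pow] at e2
    exact absurd e2 (by decide)
  rw [two_pow_odd hodd] at e1 e2
  have hodd' : Odd l := by
    by_contra hc
    rw [Nat.not_odd_iff_even] at hc
    rw [two_pow_even hc] at e2
    exact absurd e2 (by decide)
  exact ⟨k, l, hk, hl, hodd, hodd', (M2_iff h3 _).mpr e1⟩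

/-- Generators of conjugate cyclic subgroups have the same data up to a common sign. -/
lemma inv_main (h3 : 3 ∣ f)
    (hconj : ∀ g τ : G, M2 (χ g) → ∀ j i, j ≠ i → t (τ * g * τ⁻¹) j i = t g j i)
    (hpow : ∀ (g : G) (k : ℕ), M2 (χ g) → Odd k → ∀ j i, j ≠ i → t (g ^ k) j i = k * t g j i)
    {g h τ : G} (hg : M2 (χ g)) (hz : Subgroup.zpowers h = Subgroup.zpowers (τ * g * τ⁻¹)) :
    M2 (χ h) ∧
    (((κ (χ h)).toAdd = (κ (χ g)).toAdd ∧ (Φ (χ h)).toAdd = (Φ (χ g)).toAdd ∧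
        ∀ j i, j ≠ i → t h j i = t g j i) ∨
      ((κ (χ h)).toAdd = - (κ (χ g)).toAdd ∧ (Φ (χ h)).toAdd = - (Φ (χ g)).toAdd ∧
        ∀ j i, j ≠ i → t h j i = - t g j i)) := by
  have hχ : χ (τ * g * τ⁻¹) = χ g := by
    rw [map_mul, map_mul, map_inv, mul_comm (χ τ) (χ g), mul_inv_cancel_right]
  have hg' : M2 (χ (τ * g * τ⁻¹)) := by rw [hχ]; exact hg
  obtain ⟨k, l, hk, hl, hkodd, hlodd, hM⟩ := exps h3 hg' hz
  refine ⟨hM, ?_⟩
  have c1 : χ h = χ g ^ k := by rw [← hk, map_pow, hχ]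
  have c2 : χ g = χ h ^ l := by rw [← map_pow, hl, hχ]
  have k1 : (κ (χ h)).toAdd = k • (κ (χ g)).toAdd := by rw [c1, map_pow, toAdd_pow]
  have k2 : (κ (χ g)).toAdd = l • (κ (χ h)).toAdd := by
    rw [← toAdd_pow, ← map_pow, ← c2]
  have p1 : (Φ (χ h)).toAdd = k • (Φ (χ g)).toAdd := by rw [c1, map_pow, toAdd_pow]
  have p2 : (Φ (χ g)).toAdd = l • (Φ (χ h)).toAdd := by
    rw [← toAdd_pow, ← map_pow, ← c2]
  have t1 : ∀ j i, j ≠ i → t h j i = k * t g j i := by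
    intro j i hji
    rw [← hk, hpow _ k hg' hkodd j i hji, hconj g τ hg j i hji]
  have t2 : ∀ j i, j ≠ i → t g j i = l * t h j i := by
    intro j i hji
    rw [← hpow h l hM hlodd j i hji, hl, hconj g τ hg j i hji]
  rw [← Nat.cast_smul_eq_nsmul (ZMod 3)] at k1 k2 p1 p2
  have hcases : (k : ZMod 3) = 0 ∨ (k : ZMod 3) = 1 ∨ (k : ZMod 3) = -1 := by
    generalize (k : ZMod 3) = x
    revert x
    decide
  rcases hcases with hk0 | hk1 | hk2
  · left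
    rw [hk0] at k1 p1
    rw [zero_smul] at k1 p1
    rw [k1, smul_zero] at k2
    rw [p1, smul_zero] at p2
    refine ⟨k1.trans k2.symm, p1.trans p2.symm, fun j i hji => ?_⟩
    have h1 := t1 j i hji
    have h2 := t2 j i hji
    rw [hk0, zero_mul] at h1
    rw [h1, mul_zero] at h2
    exact h1.trans h2.symm
  · left
    rw [hk1, one_smul] at k1 p1
    refine ⟨k1, p1, fun j i hji => ?_⟩
    rw [t1 j i hji, hk1, one_mul]
  · right
    rw [hk2, neg_smul, one_smul] at k1 p1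
    refine ⟨k1, p1, fun j i hji => ?_⟩
    rw [t1 j i hji, hk2, neg_mul, one_mul]

end inv

/-! ### The final step -/

/-- The data of the governing field (`GALD`). -/
structure Gov {s : ℕ} (b : Fin s → ℤ) (p q p' q' : Fin s → Fin s → ℤ) (f : ℕ)
    (L : Type) [Field L] [NumberField L] (χ : (L ≃ₐ[ℚ] L) →* (ZMod f)ˣ)
    (t : (L ≃ₐ[ℚ] L) → Fin s → Fin s → ZMod 3) (N₀ : ℕ) : Prop where
  hconj : ∀ g τ : L ≃ₐ[ℚ] L, M2 (χ g) → ∀ j i, j ≠ i → t (τ * g * τ⁻¹) j i = t g j i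
  hpow : ∀ (g : L ≃ₐ[ℚ] L) (k : ℕ), M2 (χ g) → Odd k → ∀ j i, j ≠ i →
    t (g ^ k) j i = k * t g j i
  hfrob : ∀ (Q : ℕ) (hQ : Q.Coprime f), Q.Prime → N₀ < Q → ∀ (P : Ideal (𝓞 L))
      (g : L ≃ₐ[ℚ] L), P.IsPrime → (Q : 𝓞 L) ∈ P →
      MulAction.stabilizer (L ≃ₐ[ℚ] L) P = Subgroup.zpowers g →
      ∃ k : ℕ, k.Coprime (orderOf g) ∧ χ (g ^ k) = ZMod.unitOfCoprime Q hQ ∧
        (Q % 3 = 2 → ∀ j i, j ≠ i → ∀ r : ℤ, (Q : ℤ) ∣ r ^ 3 - b j →
          t (g ^ k) j i = TAUV Q (p j i) (q j i) (p' j i) (q' j i) r)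

section final

variable {s : ℕ} {b : Fin s → ℤ} {p q p' q' : Fin s → Fin s → ℤ} {f : ℕ}
    {L : Type} [Field L] [NumberField L] {χ : (L ≃ₐ[ℚ] L) →* (ZMod f)ˣ}
    {t : (L ≃ₐ[ℚ] L) → Fin s → Fin s → ZMod 3} {N₀ : ℕ}

lemma zp {G : Type} [Group G] {g : G} {k : ℕ} (hk : k.Coprime (orderOf g)) :
    Subgroup.zpowers (g ^ k) = Subgroup.zpowers g := by
  apply le_antisymm
  · rw [Subgroup.zpowers_le]
    exact Subgroup.npow_mem_zpowers g k
  · rw [Subgroup.zpowers_le]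
    obtain ⟨l, hl⟩ := exists_pow_eq_self_of_coprime hk
    have h1 := Subgroup.npow_mem_zpowers (g ^ k) l
    rwa [hl] at h1

/-- The primes with decomposition group generated by an element of an invariant set. -/
lemma frob_step (hG : Gov b p q p' q' f L χ t N₀) (hf : 0 < f) (T : Set (L ≃ₐ[ℚ] L))
    (hT : ∀ g h τ : L ≃ₐ[ℚ] L, g ∈ T → Subgroup.zpowers h = Subgroup.zpowers (τ * g * τ⁻¹) →
      h ∈ T) {Q : ℕ} (hQ : Q.Prime) (hN : N₀ < Q) (hfQ : f < Q)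
    (hF : ∃ g ∈ T, ∃ P : Ideal (𝓞 L), P.IsPrime ∧ (Q : 𝓞 L) ∈ P ∧
      MulAction.stabilizer (L ≃ₐ[ℚ] L) P = Subgroup.zpowers g) :
    ∃ (hc : Q.Coprime f) (φ : L ≃ₐ[ℚ] L), φ ∈ T ∧ χ φ = ZMod.unitOfCoprime Q hc ∧
      (Q % 3 = 2 → ∀ j i, j ≠ i → ∀ r : ℤ, (Q : ℤ) ∣ r ^ 3 - b j →
          t φ j i = TAUV Q (p j i) (q j i) (p' j i) (q' j i) r) := by
  obtain ⟨g, hg, P, hP, hQP, hst⟩ := hF
  have hc : Q.Coprime f := by
    rw [Nat.Prime.coprime_iff_not_dvd hQ]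
    intro hd
    have := Nat.le_of_dvd hf hd
    omega
  obtain ⟨k, hk, h1, h2⟩ := hG.hfrob Q hc hQ hN P g hP hQP hst
  refine ⟨hc, g ^ k, ?_, h1, h2⟩
  refine hT g (g ^ k) 1 hg ?_
  rw [one_mul, inv_one, mul_one]
  exact zp hk

/-- The set of the theorem. -/
def SS (b : Fin s → ℤ) (p q p' q' : Fin s → Fin s → ℤ) (f : ℕ) {m : ℕ}
    (κ : (ZMod f)ˣ →* Multiplicative (Fin (m + 1) → ZMod 3)) (c : Fin (m + 1) → ZMod 3)
    (C : Fin s → Fin s → ZMod 3) (Φ : (ZMod f)ˣ →* Multiplicative (Fin s → Fin s → ZMod 3)) :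
    Set ℕ :=
  {Q : ℕ | ∃ hQ : Q.Coprime f, Q % 3 = 2 ∧
    (κ (ZMod.unitOfCoprime Q hQ)).toAdd = c ∧
    ∀ τ : Fin s → Fin s → ZMod 3,
      (∀ j i, j ≠ i → ∀ r : ℤ, (Q : ℤ) ∣ r ^ 3 - b j →
        τ j i = TAUV Q (p j i) (q j i) (p' j i) (q' j i) r) →
      (alt (C + (Φ (ZMod.unitOfCoprime Q hQ)).toAdd - τ)).det ≠ 0}

variable {m : ℕ} {κ : (ZMod f)ˣ →* Multiplicative (Fin (m + 1) → ZMod 3)}
  {c : Fin (m + 1) → ZMod 3} {C : Fin s → Fin s → ZMod 3}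
  {Φ : (ZMod f)ˣ →* Multiplicative (Fin s → Fin s → ZMod 3)}

lemma mem_SS {Q : ℕ} (hQ : Q.Prime) (h3 : Q % 3 = 2) (hc : Q.Coprime f) {φ : L ≃ₐ[ℚ] L}
    (hφ : χ φ = ZMod.unitOfCoprime Q hc)
    (ht : ∀ j i, j ≠ i → ∀ r : ℤ, (Q : ℤ) ∣ r ^ 3 - b j →
          t φ j i = TAUV Q (p j i) (q j i) (p' j i) (q' j i) r)
    (hκ : (κ (χ φ)).toAdd = c) (hdet : ¬ (alt (C + (Φ (χ φ)).toAdd - t φ)).det = 0) :
    Q ∈ SS b p q p' q' f κ c C Φ := by
  rw [hφ] at hκ hdet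
  refine ⟨hc, h3, hκ, fun τ hτ hd => hdet ?_⟩
  rw [← hd]
  congr 1
  refine alt_congr fun j i hji => ?_
  obtain ⟨r, hr⟩ := root_exists hQ h3 (b j)
  simp only [Pi.sub_apply]
  rw [ht j i hji.ne r hr, hτ j i hji.ne r hr]

lemma M2_Q {Q : ℕ} (h3 : 3 ∣ f) (hc : Q.Coprime f) (h : M2 (ZMod.unitOfCoprime Q hc)) :
    Q % 3 = 2 := by
  unfold M2 at h
  rw [ZMod.coe_unitOfCoprime, ZMod.val_natCast, Nat.mod_mod_of_dvd _ h3] at h
  exact h

/-- Transfer of the conditions. -/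
lemma det_same {t₁ t₂ P₁ P₂ : Fin s → Fin s → ZMod 3} (hP : P₁ = P₂)
    (ht : ∀ j i, j ≠ i → t₁ j i = t₂ j i) :
    alt (C + P₁ - t₁) = alt (C + P₂ - t₂) ∧ alt (C - P₁ + t₁) = alt (C - P₂ + t₂) := by
  subst hP
  refine ⟨alt_congr fun j i hji => ?_, alt_congr fun j i hji => ?_⟩
  · simp only [Pi.sub_apply, Pi.add_apply, ht j i hji.ne]
  · simp only [Pi.sub_apply, Pi.add_apply, ht j i hji.ne]

lemma det_opp {t₁ t₂ P₁ P₂ : Fin s → Fin s → ZMod 3} (hP : P₁ = -P₂)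
    (ht : ∀ j i, j ≠ i → t₁ j i = - t₂ j i) :
    alt (C + P₁ - t₁) = alt (C - P₂ + t₂) ∧ alt (C - P₁ + t₁) = alt (C + P₂ - t₂) := by
  subst hP
  refine ⟨alt_congr fun j i hji => ?_, alt_congr fun j i hji => ?_⟩
  · simp only [Pi.sub_apply, Pi.add_apply, Pi.neg_apply, ht j i hji.ne]
    ring
  · simp only [Pi.sub_apply, Pi.add_apply, Pi.neg_apply, ht j i hji.ne]
    ring

end final

end DENS

open _root_.Pool.Agent.PT.DENS in
theorem DENS_thm (hGALD : GALD) (hDCNT : DCNT) (hDIR : DIR) : DENS := by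
  classical
  intro s b p q p' q' f m κ c C Φ hSys hs hf h9 hK
  have : NeZero f := ⟨hf.ne'⟩
  have h3f : 3 ∣ f := dvd_trans (by norm_num) h9
  obtain ⟨L, iF, iN, iG, χ, t, N₀, hsurj, hconj, hpow, hcnt, hfrob⟩ :=
    hGALD s b p q p' q' f hSys hf h9
  have hG : Gov b p q p' q' f L χ t N₀ := ⟨hconj, hpow, hfrob⟩
  have hDat : Dat χ t (fun a => (κ a).toAdd) := ⟨hK, hDCNT s f _ χ t hs hf hsurj hcnt⟩
  change RI.DensityGE (SS b p q p' q' f κ c C Φ) (1 / (24 * 3 ^ m))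
  have hGpos : 0 < Nat.card (L ≃ₐ[ℚ] L) := Nat.card_pos
  have hb1 : ∀ a, M2 a → 8 * Nat.card {g : L ≃ₐ[ℚ] L // χ g = a ∧
      (alt (C + (Φ a).toAdd - t g)).det = 0} ≤ 3 * Nat.card {g : L ≃ₐ[ℚ] L // χ g = a} :=
    fun a ha => (hDat.hD a (C + (Φ a).toAdd) ha).1
  have hb2 : ∀ a, M2 a → 8 * Nat.card {g : L ≃ₐ[ℚ] L // χ g = a ∧
      (alt (C - (Φ a).toAdd + t g)).det = 0} ≤ 3 * Nat.card {g : L ≃ₐ[ℚ] L // χ g = a} :=
    fun a ha => (hDat.hD a (C - (Φ a).toAdd) ha).2.1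
  by_cases hc0 : c = 0
  · subst hc0
    let T : Set (L ≃ₐ[ℚ] L) := {g | (M2 (χ g) ∧ (κ (χ g)).toAdd = 0) ∧
      ¬ (alt (C + (Φ (χ g)).toAdd - t g)).det = 0 ∧
      ¬ (alt (C - (Φ (χ g)).toAdd + t g)).det = 0}
    have hT : ∀ g h τ : L ≃ₐ[ℚ] L, g ∈ T →
        Subgroup.zpowers h = Subgroup.zpowers (τ * g * τ⁻¹) → h ∈ T := by
      rintro g h τ ⟨⟨hM, hκ⟩, hd1, hd2⟩ hz
      obtain ⟨hM', hh⟩ := inv_main (κ := κ) (Φ := Φ) h3f hconj hpow hM hz
      rcases hh with ⟨e1, e2, e3⟩ | ⟨e1, e2, e3⟩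
      · obtain ⟨d1, d2⟩ := det_same (C := C) e2 e3
        refine ⟨⟨hM', e1.trans hκ⟩, ?_, ?_⟩
        · rw [d1]; exact hd1
        · rw [d2]; exact hd2
      · obtain ⟨d1, d2⟩ := det_opp (C := C) e2 e3
        refine ⟨⟨hM', by rw [e1, hκ, neg_zero]⟩, ?_, ?_⟩
        · rw [d1]; exact hd2
        · rw [d2]; exact hd1
    have hcard := countPP hDat 0 (fun g => (alt (C + (Φ (χ g)).toAdd - t g)).det = 0)
      (fun g => (alt (C - (Φ (χ g)).toAdd + t g)).det = 0)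
      (fun a g => (alt (C + (Φ a).toAdd - t g)).det = 0)
      (fun a g => (alt (C - (Φ a).toAdd + t g)).det = 0)
      (fun g => Iff.rfl) (fun g => Iff.rfl) hb1 hb2
    have hF := RI.FROBD_thm L T hT
    have hF2 := RI.PDGE_thm _ (SS b p q p' q' f κ 0 C Φ) (Finset.range (N₀ + f + 1)) _ hF (by
      rintro Q hQF hQ hQA
      rw [Finset.mem_range, not_lt] at hQA
      obtain ⟨hc, φ, hφT, hφ, ht⟩ := frob_step hG hf T hT hQ (by omega) (by omega) hQF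
      have hQ3 : Q % 3 = 2 := M2_Q h3f hc (hφ ▸ hφT.1.1)
      exact mem_SS hQ hQ3 hc hφ (ht hQ3) hφT.1.2 hφT.2.1)
    refine dens_mono hF2 ?_
    have h1 : (Nat.card (L ≃ₐ[ℚ] L) : ℝ) ≤ 4 * (2 * 3 ^ (m + 1)) * Nat.card T := by
      exact_mod_cast hcard
    rw [div_le_div_iff₀ (by positivity) (by exact_mod_cast hGpos)]
    rw [pow_succ] at h1
    linarith
  · let T : Set (L ≃ₐ[ℚ] L) := {g | ((M2 (χ g) ∧ (κ (χ g)).toAdd = c) ∧
      ¬ (alt (C + (Φ (χ g)).toAdd - t g)).det = 0) ∨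
      ((M2 (χ g) ∧ (κ (χ g)).toAdd = -c) ∧
      ¬ (alt (C - (Φ (χ g)).toAdd + t g)).det = 0)}
    have hT : ∀ g h τ : L ≃ₐ[ℚ] L, g ∈ T →
        Subgroup.zpowers h = Subgroup.zpowers (τ * g * τ⁻¹) → h ∈ T := by
      rintro g h τ hg hz
      have hM : M2 (χ g) := by
        rcases hg with ⟨⟨hM, -⟩, -⟩ | ⟨⟨hM, -⟩, -⟩ <;> exact hM
      obtain ⟨hM', hh⟩ := inv_main (κ := κ) (Φ := Φ) h3f hconj hpow hM hz
      rcases hh with ⟨e1, e2, e3⟩ | ⟨e1, e2, e3⟩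
      · obtain ⟨d1, d2⟩ := det_same (C := C) e2 e3
        rcases hg with ⟨⟨-, hκ⟩, hd⟩ | ⟨⟨-, hκ⟩, hd⟩
        · left
          refine ⟨⟨hM', e1.trans hκ⟩, ?_⟩
          rw [d1]; exact hd
        · right
          refine ⟨⟨hM', e1.trans hκ⟩, ?_⟩
          rw [d2]; exact hd
      · obtain ⟨d1, d2⟩ := det_opp (C := C) e2 e3
        rcases hg with ⟨⟨-, hκ⟩, hd⟩ | ⟨⟨-, hκ⟩, hd⟩
        · right
          refine ⟨⟨hM', by rw [e1, hκ]⟩, ?_⟩
          rw [d2]; exact hd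
        · left
          refine ⟨⟨hM', by rw [e1, hκ, neg_neg]⟩, ?_⟩
          rw [d1]; exact hd
    have hcard1 := countP hDat c (fun g => (alt (C + (Φ (χ g)).toAdd - t g)).det = 0)
      (fun a g => (alt (C + (Φ a).toAdd - t g)).det = 0) (fun g => Iff.rfl) hb1
    have hcard2 := countP hDat (-c) (fun g => (alt (C - (Φ (χ g)).toAdd + t g)).det = 0)
      (fun a g => (alt (C - (Φ a).toAdd + t g)).det = 0) (fun g => Iff.rfl) hb2
    have hne : c ≠ -c := by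
      intro h
      apply hc0
      ext i
      have h1 := congrFun h i
      rw [Pi.neg_apply] at h1
      rw [Pi.zero_apply]
      revert h1
      generalize c i = x
      revert x
      decide
    have hcardT : Nat.card T = Nat.card {g : L ≃ₐ[ℚ] L // (M2 (χ g) ∧ (κ (χ g)).toAdd = c) ∧
        ¬ (alt (C + (Φ (χ g)).toAdd - t g)).det = 0} +
        Nat.card {g : L ≃ₐ[ℚ] L // (M2 (χ g) ∧ (κ (χ g)).toAdd = -c) ∧
        ¬ (alt (C - (Φ (χ g)).toAdd + t g)).det = 0} := by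
      have := Fintype.ofFinite (L ≃ₐ[ℚ] L)
      change Nat.card {g : L ≃ₐ[ℚ] L // ((M2 (χ g) ∧ (κ (χ g)).toAdd = c) ∧
      ¬ (alt (C + (Φ (χ g)).toAdd - t g)).det = 0) ∨
      ((M2 (χ g) ∧ (κ (χ g)).toAdd = -c) ∧
      ¬ (alt (C - (Φ (χ g)).toAdd + t g)).det = 0)} = _
      simp only [Nat.card_eq_fintype_card, Fintype.card_subtype]
      rw [Finset.filter_or, Finset.card_union_of_disjoint]
      rw [Finset.disjoint_filter]
      rintro g - ⟨⟨-, h1⟩, -⟩ ⟨⟨-, h2⟩, -⟩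
      exact hne (h1.symm.trans h2)
    have hF := RI.FROBD_thm L T hT
    have hF2 := RI.PDGE_thm _ {Q : ℕ | Q ∈ SS b p q p' q' f κ c C Φ ∨
        ∃ a ∈ univ.filter (fun a : (ZMod f)ˣ => M2 a ∧ (κ a).toAdd = -c), (Q : ZMod f) = a}
      (Finset.range (N₀ + f + 1)) _ hF (by
      rintro Q hQF hQ hQA
      rw [Finset.mem_range, not_lt] at hQA
      obtain ⟨hc, φ, hφT, hφ, ht⟩ := frob_step hG hf T hT hQ (by omega) (by omega) hQF
      have hM : M2 (χ φ) := by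
        rcases hφT with ⟨⟨hM, -⟩, -⟩ | ⟨⟨hM, -⟩, -⟩ <;> exact hM
      have hQ3 : Q % 3 = 2 := M2_Q h3f hc (hφ ▸ hM)
      rcases hφT with ⟨⟨-, hκ⟩, hd⟩ | ⟨⟨-, hκ⟩, hd⟩
      · left
        exact mem_SS hQ hQ3 hc hφ (ht hQ3) hκ hd
      · right
        refine ⟨χ φ, ?_, ?_⟩
        · rw [Finset.mem_filter]
          exact ⟨Finset.mem_univ _, hM, hκ⟩
        · rw [hφ, ZMod.coe_unitOfCoprime])
    have hF3 := dens_sub hDIR hf (univ.filter (fun a : (ZMod f)ˣ => M2 a ∧ (κ a).toAdd = -c)) _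
      (SS b p q p' q' f κ c C Φ) _ hF2 (by
      rintro Q hQ1 - hQ2
      exact hQ1.resolve_left hQ2)
    refine dens_mono hF3 ?_
    have hφ : 0 < f.totient := Nat.totient_pos.mpr hf
    have hKc := hK (-c)
    rw [Nat.card_eq_fintype_card, Fintype.card_subtype] at hKc
    have e1 : ((univ.filter (fun a : (ZMod f)ˣ => M2 a ∧ (κ a).toAdd = -c)).card : ℝ) /
        f.totient = 1 / (2 * 3 ^ (m + 1)) := by
      rw [div_eq_div_iff (by exact_mod_cast hφ.ne') (by positivity), one_mul]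
      exact_mod_cast hKc
    rw [e1]
    have h1 : (5 : ℝ) * (Nat.card (L ≃ₐ[ℚ] L) : ℝ) ≤ 8 * 3 ^ (m + 1) * Nat.card T := by
      have h2 : 10 * Nat.card (L ≃ₐ[ℚ] L) ≤ 8 * (2 * 3 ^ (m + 1)) * Nat.card T := by
        rw [hcardT, mul_add]
        omega
      have h4 : (10 : ℝ) * (Nat.card (L ≃ₐ[ℚ] L) : ℝ) ≤ 8 * (2 * 3 ^ (m + 1)) * Nat.card T := by
        exact_mod_cast h2
      linarith
    have h2 : (5 : ℝ) / (8 * 3 ^ (m + 1)) ≤ (Nat.card T : ℝ) / Nat.card (L ≃ₐ[ℚ] L) := by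
      rw [div_le_div_iff₀ (by positivity) (by exact_mod_cast hGpos)]
      linarith
    have h5 : (1 : ℝ) / (24 * 3 ^ m) = 5 / (8 * 3 ^ (m + 1)) - 1 / (2 * 3 ^ (m + 1)) := by
      have h6 : (3 : ℝ) ^ m ≠ 0 := by positivity
      rw [pow_succ]
      field_simp
      norm_num
    rw [h5]
    linarith

end Pool.Agent.PT

end

section

/-!
# Prime twists of rank zero: the class and the system
-/

set_option autoImplicit false

namespace Pool.Agent.PT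

open Pool.Agent.Lib_helper18 Pool.Agent.Lib_helper18.Eis Pool.Agent.Lib_helper84.Cub

namespace ECL

lemma wt_ne {r : ℕ} (h : r % 9 = 2 ∨ r % 9 = 5) : wt ((r : ℤ) ^ 2) ≠ 0 := by
  have h3 : (3 : ZMod 3) = 0 := rfl
  rcases h with h | h
  · obtain ⟨t, ht⟩ : ∃ t : ℕ, r = 9 * t + 2 := ⟨r / 9, by omega⟩
    have e : (r : ℤ) ^ 2 = 1 + 3 * (27 * (t : ℤ) ^ 2 + 12 * t + 1) := by
      rw [ht]
      push_cast
      ring
    rw [wt_eq e]
    have e2 : ((27 * (t : ℤ) ^ 2 + 12 * t + 1 : ℤ) : ZMod 3) = 1 := by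
      push_cast
      linear_combination (9 * (t : ZMod 3) ^ 2 + 4 * t) * h3
    rw [e2]
    decide
  · obtain ⟨t, ht⟩ : ∃ t : ℕ, r = 9 * t + 5 := ⟨r / 9, by omega⟩
    have e : (r : ℤ) ^ 2 = 1 + 3 * (27 * (t : ℤ) ^ 2 + 30 * t + 8) := by
      rw [ht]
      push_cast
      ring
    rw [wt_eq e]
    have e2 : ((27 * (t : ℤ) ^ 2 + 30 * t + 8 : ℤ) : ZMod 3) = 2 := by
      push_cast
      linear_combination (9 * (t : ZMod 3) ^ 2 + 10 * t + 2) * h3
    rw [e2]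
    decide

/-- a rational cube that is an integer is a cube -/
lemma cube_of {z u t : ℤ} (hu : u ≠ 0) (h : z * u ^ 3 = t ^ 3) : ∃ m : ℤ, m ^ 3 = z := by
  have h1 : u ^ 3 ∣ t ^ 3 := ⟨z, by rw [← h]; ring⟩
  have h2 : u ∣ t := (Int.pow_dvd_pow_iff (by norm_num)).1 h1
  obtain ⟨m, hm⟩ := h2
  refine ⟨m, ?_⟩
  have h3 : z * u ^ 3 = m ^ 3 * u ^ 3 := by rw [h, hm]; ring
  exact (mul_right_cancel₀ (pow_ne_zero 3 hu) h3).symm

/-- the determinant vanishes -/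
lemma point_det (hEHYP : EHYP) (hEADM : EADM) (hFD1 : FD1) (hFD2 : FD2) (hTEND : TEND)
    {n m k : ℕ} {π : Fin m → PP} {p e : Fin m → ℕ} {r f : Fin k → ℕ} (hNF : NF n π p e r f)
    {w0 : ZMod 3} {c : Fin m → ZMod 3} {j0 : Option (Fin k)}
    (h0 : j0 = none → wt ((n : ℤ) ^ 2) + w0 ≠ 0) (hdet : (Mm n π e r j0 c).det ≠ 0)
    {s : ℕ} {b : Fin s → ℤ} (hAdm : ∀ i, AdmC n π w0 c (b i))
    (hgen : ∀ x : ℤ, AdmC n π w0 c x → ∃ (g : Fin s → ℕ) (u v : ℤ), u ≠ 0 ∧ v ≠ 0 ∧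
      x * u ^ 3 = (∏ i, b i ^ g i) * v ^ 3)
    {P Q P' Q' : Fin s → Fin s → ℤ} (hSys : Sys b P Q P' Q') (q : ℕ) (hq : q.Prime)
    (hIn : InCl π w0 c q) (hqn : ¬ q ∣ n) (hq3 : 3 < q) :
    (∀ i, Adm ((n : ℤ) * q) (b i)) ∧ BOk ((n : ℤ) * q) ∧
      ((∃ X Y : ℚ, X ^ 3 + Y ^ 3 = (n : ℚ) * q) → (Mat b P Q P' Q' ((n : ℤ) * q)).det = 0) := by
  obtain ⟨hB, hE⟩ := hEADM n m k π p e r f w0 c q hNF hq hIn hqn
  have hA : ∀ i, Adm ((n : ℤ) * q) (b i) := fun i => (hE _ (hAdm i).supp).1 (hAdm i)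
  refine ⟨hA, hB, ?_⟩
  rintro ⟨X, Y, hXY⟩
  have hn0 : 0 < n := by
    rcases Nat.eq_zero_or_pos n with h | h
    · exact absurd (by rw [h]; exact dvd_zero q) hqn
    · exact h
  have h3 : 3 ≤ |(n : ℤ) * q| := by
    have h1 : (3 : ℤ) ≤ (n : ℤ) * q := by
      have h2 : 3 ≤ n * q := by nlinarith
      exact_mod_cast h2
    exact h1.trans (le_abs_self _)
  have hH : HypM ((n : ℤ) * q) := hEHYP n m k π p e r f w0 c j0 q hNF hq hIn hqn h0 hdet
  obtain ⟨a, x, hC⟩ := hFD1 ((n : ℤ) * q) hB h3 hH ⟨X, Y, by rw [hXY]; push_cast; ring⟩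
  obtain ⟨z, X1, Y1, hPt, hAz, hsupp, hcube⟩ := hFD2 n q a x hq hIn.1 hqn hn0 hB hC
  obtain ⟨g, u, v, hu, hv, hg⟩ := hgen z ((hE z hsupp).2 hAz)
  set W : ℤ := ∏ i, b i ^ g i with hW
  have hex : ∃ i, ¬ 3 ∣ g i := by
    by_contra hcon
    push Not at hcon
    choose g' hg' using hcon
    apply hcube
    have h1 : z * u ^ 3 = ((∏ i, b i ^ g' i) * v) ^ 3 := by
      rw [hg, hW, mul_pow, ← Finset.prod_pow]
      congr 1
      refine Finset.prod_congr rfl fun i _ => ?_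
      rw [← pow_mul, hg' i, mul_comm]
    exact cube_of hu h1
  have hPt' : Pt ((n : ℤ) * q) (∏ i, b i ^ g i) (u * v * X1) (v ^ 2 * Y1) := by
    refine ⟨mul_ne_zero (mul_ne_zero hu hv) hPt.hX, mul_ne_zero (pow_ne_zero 2 hv) hPt.hY, ?_⟩
    obtain ⟨c0, hc0, h1⟩ := hPt.eq
    refine ⟨c0 * u ^ 2, mul_ne_zero hc0 (pow_ne_zero 2 hu), ?_⟩
    rw [← hW]
    have e1 : W * ((u * v * X1) ^ 3 + W * (v ^ 2 * Y1) ^ 3) =
        (W * v ^ 3) * (u ^ 3 * X1 ^ 3 + (W * v ^ 3) * Y1 ^ 3) := by ring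
    rw [e1, ← hg]
    have e2 : z * u ^ 3 * (u ^ 3 * X1 ^ 3 + z * u ^ 3 * Y1 ^ 3) =
        u ^ 6 * (z * (X1 ^ 3 + z * Y1 ^ 3)) := by ring
    rw [e2, h1]
    ring
  have hker := (hTEND s b P Q P' Q' ((n : ℤ) * q) hSys hB hA).2 g _ _ hex hPt'
  rw [← Matrix.exists_mulVec_eq_zero_iff]
  refine ⟨fun i => (g i : ZMod 3), ?_, ?_⟩
  · intro h1
    obtain ⟨i, hi⟩ := hex
    apply hi
    have h2 := congrFun h1 i
    exact (ZMod.natCast_eq_zero_iff (g i) 3).1 h2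
  · ext j
    exact hker j

end ECL

open _root_.Pool.Agent.PT.ECL in
/-- ECL: the class and the system. -/
theorem ECL_thm (hEMAT : EMAT) (hEHYP : EHYP) (hEBAS : EBAS) (hEADM : EADM) (hESYS : ESYS)
    (hFD1 : FD1) (hFD2 : FD2) (hTEND : TEND) : ECL := by
  intro n m k π p e r f hNF hk
  have key : ∀ (j0 : Option (Fin k)) (w0 : ZMod 3),
      ((j0 = none ∧ Even k ∧ wt ((n : ℤ) ^ 2) + w0 ≠ 0) ∨
        (j0 ≠ none ∧ Odd k ∧ wt ((n : ℤ) ^ 2) + w0 = 0)) →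
      (∀ j, j0 = some j → wt ((r j : ℤ) ^ 2) ≠ 0) → ∃ (w0 : ZMod 3) (c : Fin m → ZMod 3) (s : ℕ)
      (b : Fin s → ℤ) (P Q P' Q' : Fin s → Fin s → ℤ),
      Even s ∧ (∀ i, AdmC n π w0 c (b i)) ∧ Sys b P Q P' Q' ∧
      ∀ q : ℕ, q.Prime → InCl π w0 c q → ¬ q ∣ n → 3 < q →
        (∀ i, Adm ((n : ℤ) * q) (b i)) ∧ BOk ((n : ℤ) * q) ∧
        ((∃ X Y : ℚ, X ^ 3 + Y ^ 3 = (n : ℚ) * q) →
          (Mat b P Q P' Q' ((n : ℤ) * q)).det = 0) := by
    intro j0 w0 hj hwt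
    obtain ⟨c, hc1, hc2⟩ := hEMAT n m k π p e r f j0 hNF hwt
    obtain ⟨s, b, hs, hAdm, hV, hind, hc9, hgen⟩ :=
      hEBAS n m k π p e r f w0 c j0 hNF hj hwt hc2
    obtain ⟨P, Q, P', Q', hSys⟩ := hESYS n m k π p e r f w0 c s b hNF hAdm hV hind hc9
    refine ⟨w0, c, s, b, P, Q, P', Q', hs, hAdm, hSys, ?_⟩
    intro q hq hIn hqn hq3
    refine point_det hEHYP hEADM hFD1 hFD2 hTEND hNF ?_ hc1 hAdm hgen hSys q hq hIn hqn hq3
    intro h
    rcases hj with h1 | h1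
    · exact h1.2.2
    · exact absurd h h1.1
  rcases Nat.even_or_odd k with hev | hodd
  · refine key none (1 - wt ((n : ℤ) ^ 2)) (Or.inl ⟨rfl, hev, ?_⟩) (fun j hj => by cases hj)
    rw [add_sub_cancel]
    exact one_ne_zero
  · rcases hk with h | ⟨j, hj⟩
    · exact absurd hodd (Nat.not_odd_iff_even.2 h)
    · refine key (some j) (-wt ((n : ℤ) ^ 2)) (Or.inr ⟨by simp, hodd, ?_⟩) ?_
      · rw [add_neg_cancel]
      · intro j' hj'
        rw [← Option.some.inj hj']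
        exact wt_ne hj

end Pool.Agent.PT

end

section

/-!
# Prime twists of rank zero, `k` odd: module DENSS (the density of the primes with nonsingular
matrix, for one hyperplane)
-/

set_option autoImplicit false

open NumberField IsDedekindDomain Finset
open scoped nonZeroDivisors Pointwise

namespace Pool.Agent.PTE

open Pool.Agent.Lib_helper18 Pool.Agent.Lib_helper18.Eis Pool.Agent.Lib_helper84.Cub
open Pool.Agent.PT

namespace DENSS

lemma M1_iff {f : ℕ} [NeZero f] (h3 : 3 ∣ f) (a : (ZMod f)ˣ) :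
    M1 a ↔ ZMod.castHom h3 (ZMod 3) (a : ZMod f) = 1 := by
  have h1 : ZMod.castHom h3 (ZMod 3) (a : ZMod f) = (((a : ZMod f).val : ℕ) : ZMod 3) := by
    rw [ZMod.castHom_apply, ZMod.cast_eq_val]
  rw [h1]
  unfold M1
  have h2 : ((1 : ℕ) : ZMod 3) = 1 := Nat.cast_one
  rw [← h2, ZMod.natCast_eq_natCast_iff']

section inv

variable {G : Type} [Group G] [Finite G] {s f m : ℕ} [NeZero f] {χ : G →* (ZMod f)ˣ}
  {F : G → Prop}
  {t : G → Fin s → Fin s → ZMod 3} {κ : (ZMod f)ˣ →* Multiplicative (Fin (m + 1) → ZMod 3)}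
  {Φ : (ZMod f)ˣ →* Multiplicative (Fin s → Fin s → ZMod 3)}

/-- Generators of conjugate cyclic subgroups have the same data up to a common sign. -/
lemma inv_main (h3 : 3 ∣ f)
    (hconj : ∀ g τ : G, M1 (χ g) → F g →
      F (τ * g * τ⁻¹) ∧ ∀ j i, j ≠ i → t (τ * g * τ⁻¹) j i = t g j i)
    (hpow : ∀ (g : G) (k : ℕ), M1 (χ g) → F g → ¬ 3 ∣ k →
      F (g ^ k) ∧ ∀ j i, j ≠ i → t (g ^ k) j i = k * t g j i)
    {g h τ : G} (hg : M1 (χ g)) (hF : F g) (hne : (κ (χ g)).toAdd ≠ 0)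
    (hz : Subgroup.zpowers h = Subgroup.zpowers (τ * g * τ⁻¹)) :
    M1 (χ h) ∧ F h ∧
    (((κ (χ h)).toAdd = (κ (χ g)).toAdd ∧ (Φ (χ h)).toAdd = (Φ (χ g)).toAdd ∧
        ∀ j i, j ≠ i → t h j i = t g j i) ∨
      ((κ (χ h)).toAdd = - (κ (χ g)).toAdd ∧ (Φ (χ h)).toAdd = - (Φ (χ g)).toAdd ∧
        ∀ j i, j ≠ i → t h j i = - t g j i)) := by
  have hχ : χ (τ * g * τ⁻¹) = χ g := by
    rw [map_mul, map_mul, map_inv, mul_comm (χ τ) (χ g), mul_inv_cancel_right]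
  have hg' : M1 (χ (τ * g * τ⁻¹)) := by rw [hχ]; exact hg
  obtain ⟨hF', htc⟩ := hconj g τ hg hF
  obtain ⟨k, hk⟩ : ∃ k : ℕ, (τ * g * τ⁻¹) ^ k = h := by
    have h1 : h ∈ Subgroup.zpowers (τ * g * τ⁻¹) := hz ▸ Subgroup.mem_zpowers h
    exact mem_powers_iff_mem_zpowers.mpr h1
  obtain ⟨l, hl⟩ : ∃ l : ℕ, h ^ l = τ * g * τ⁻¹ := by
    have h1 : τ * g * τ⁻¹ ∈ Subgroup.zpowers h := hz ▸ Subgroup.mem_zpowers _
    exact mem_powers_iff_mem_zpowers.mpr h1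
  have c1 : χ h = χ g ^ k := by rw [← hk, map_pow, hχ]
  have c2 : χ g = χ h ^ l := by rw [← map_pow, hl, hχ]
  have k1 : (κ (χ h)).toAdd = k • (κ (χ g)).toAdd := by rw [c1, map_pow, toAdd_pow]
  have k2 : (κ (χ g)).toAdd = l • (κ (χ h)).toAdd := by
    rw [← toAdd_pow, ← map_pow, ← c2]
  have p1 : (Φ (χ h)).toAdd = k • (Φ (χ g)).toAdd := by rw [c1, map_pow, toAdd_pow]
  rw [← Nat.cast_smul_eq_nsmul (ZMod 3)] at k1 k2 p1
  have hk0 : (k : ZMod 3) ≠ 0 := by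
    intro h0
    rw [h0, zero_smul] at k1
    rw [k1, smul_zero] at k2
    exact hne k2
  have h3k : ¬ 3 ∣ k := fun hd => hk0 ((ZMod.natCast_eq_zero_iff k 3).mpr hd)
  obtain ⟨hFk, htk⟩ := hpow _ k hg' hF' h3k
  rw [hk] at hFk htk
  have t1 : ∀ j i, j ≠ i → t h j i = k * t g j i := by
    intro j i hji
    rw [htk j i hji, htc j i hji]
  have hM : M1 (χ h) := by
    rw [M1_iff h3] at hg ⊢
    rw [c1, Units.val_pow_eq_pow_val, map_pow, hg, one_pow]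
  refine ⟨hM, hFk, ?_⟩
  have hcases : (k : ZMod 3) = 1 ∨ (k : ZMod 3) = -1 := by
    revert hk0
    generalize (k : ZMod 3) = x
    revert x
    decide
  rcases hcases with hk1 | hk2
  · left
    rw [hk1, one_smul] at k1 p1
    refine ⟨k1, p1, fun j i hji => ?_⟩
    rw [t1 j i hji, hk1, one_mul]
  · right
    rw [hk2, neg_smul, one_smul] at k1 p1
    refine ⟨k1, p1, fun j i hji => ?_⟩
    rw [t1 j i hji, hk2, neg_mul, one_mul]

/-- The count for one class. -/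
lemma count1 (c : Fin (m + 1) → ZMod 3) (R : G → Prop) (R' : (ZMod f)ˣ → G → Prop)
    (hRR : ∀ g, R g ↔ R' (χ g) g) (δ : ℝ)
    (hK : Nat.card {a : (ZMod f)ˣ // M1 a ∧ (κ a).toAdd = c} * (2 * 3 ^ (m + 1)) = f.totient)
    (hb : ∀ a, M1 a → δ * ((Nat.card G : ℝ) / f.totient) ≤
      (Nat.card {g : G // χ g = a ∧ R' a g} : ℝ)) :
    δ * (Nat.card G : ℝ) / (2 * 3 ^ (m + 1)) ≤
      (Nat.card {g : G // (M1 (χ g) ∧ (κ (χ g)).toAdd = c) ∧ R g} : ℝ) := by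
  classical
  have h1 := DENS.card_fib (G := G) (β := (ZMod f)ˣ) χ
    (fun a => M1 a ∧ (κ a).toAdd = c) R
  rw [h1]
  push_cast
  have h2 : ∀ a ∈ univ.filter (fun a : (ZMod f)ˣ => M1 a ∧ (κ a).toAdd = c),
      δ * ((Nat.card G : ℝ) / f.totient) ≤ (Nat.card {g : G // χ g = a ∧ R g} : ℝ) := by
    intro a ha
    simp only [Finset.mem_filter, Finset.mem_univ, true_and] at ha
    refine le_trans (hb a ha.1) (le_of_eq ?_)
    congr 1
    refine Nat.card_congr (Equiv.subtypeEquivRight fun g => ?_)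
    constructor
    · rintro ⟨h3, h4⟩
      exact ⟨h3, (hRR g).mpr (h3.symm ▸ h4)⟩
    · rintro ⟨h3, h4⟩
      exact ⟨h3, h3 ▸ (hRR g).mp h4⟩
  refine le_trans (le_of_eq ?_) (Finset.sum_le_sum h2)
  rw [Finset.sum_const, nsmul_eq_mul]
  rw [Nat.card_eq_fintype_card, Fintype.card_subtype] at hK
  have hφ : (0 : ℝ) < f.totient := by exact_mod_cast Nat.totient_pos.mpr (NeZero.pos f)
  have hK' : ((univ.filter (fun a : (ZMod f)ˣ => M1 a ∧ (κ a).toAdd = c)).card : ℝ) *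
      (2 * 3 ^ (m + 1)) = f.totient := by exact_mod_cast hK
  rw [← hK']
  have h5 : (0 : ℝ) < ((univ.filter (fun a : (ZMod f)ˣ => M1 a ∧ (κ a).toAdd = c)).card : ℝ) := by
    rcases Nat.eq_zero_or_pos (univ.filter (fun a : (ZMod f)ˣ => M1 a ∧ (κ a).toAdd = c)).card with
      h | h
    · rw [h, Nat.cast_zero, zero_mul] at hK'
      linarith
    · exact_mod_cast h
  field_simp

end inv

lemma M1_Q {f Q : ℕ} (h3 : 3 ∣ f) (hc : Q.Coprime f) (h : M1 (ZMod.unitOfCoprime Q hc)) :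
    Q % 3 = 1 := by
  unfold M1 at h
  rw [ZMod.coe_unitOfCoprime, ZMod.val_natCast, Nat.mod_mod_of_dvd _ h3] at h
  exact h

variable {s : ℕ} {C : Fin s → Fin s → ZMod 3}

/-- Transfer of the conditions. -/
lemma det_same {t₁ t₂ P₁ P₂ : Fin s → Fin s → ZMod 3} (hP : P₁ = P₂)
    (ht : ∀ j i, j ≠ i → t₁ j i = t₂ j i) :
    alt (C + P₁ + t₁) = alt (C + P₂ + t₂) ∧ alt (C - P₁ - t₁) = alt (C - P₂ - t₂) := by
  subst hP
  refine ⟨DENS.alt_congr fun j i hji => ?_, DENS.alt_congr fun j i hji => ?_⟩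
  · simp only [Pi.add_apply, ht j i hji.ne]
  · simp only [Pi.sub_apply, ht j i hji.ne]

lemma det_opp {t₁ t₂ P₁ P₂ : Fin s → Fin s → ZMod 3} (hP : P₁ = -P₂)
    (ht : ∀ j i, j ≠ i → t₁ j i = - t₂ j i) :
    alt (C + P₁ + t₁) = alt (C - P₂ - t₂) ∧ alt (C - P₁ - t₁) = alt (C + P₂ + t₂) := by
  subst hP
  refine ⟨DENS.alt_congr fun j i hji => ?_, DENS.alt_congr fun j i hji => ?_⟩
  · simp only [Pi.sub_apply, Pi.add_apply, Pi.neg_apply, ht j i hji.ne]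
    ring
  · simp only [Pi.sub_apply, Pi.add_apply, Pi.neg_apply, ht j i hji.ne]
    ring

end DENSS

open _root_.Pool.Agent.PTE.DENSS in
theorem DENSS_thm (hGALDS : GALDS) (hDCNTS : DCNTS) (hSPLT : SPLT) : DENSS := by
  classical
  intro s b p q p' q' f m κ c C Φ hSys hs hf h9 hc0 hK
  have : NeZero f := ⟨hf.ne'⟩
  have h3f : 3 ∣ f := dvd_trans (by norm_num) h9
  obtain ⟨L, iF, iN, iG, χ, F, t, N₀, hsurj, hconj, hpow, hcnt, hcntF, hfrob⟩ :=
    hGALDS s b p q p' q' f hSys hf h9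
  have hD := hDCNTS s f _ χ F t hs hf hsurj hcnt hcntF
  have hGpos : 0 < Nat.card (L ≃ₐ[ℚ] L) := Nat.card_pos
  let T : Set (L ≃ₐ[ℚ] L) := {g | ((M1 (χ g) ∧ (κ (χ g)).toAdd = c) ∧
      (F g ∧ (alt (C + (Φ (χ g)).toAdd + t g)).det ≠ 0)) ∨
      ((M1 (χ g) ∧ (κ (χ g)).toAdd = -c) ∧
      (F g ∧ (alt (C - (Φ (χ g)).toAdd - t g)).det ≠ 0))}
  have hTdat : ∀ g ∈ T, M1 (χ g) ∧ F g ∧ (κ (χ g)).toAdd ≠ 0 := by
    rintro g (⟨⟨h1, h2⟩, h3, -⟩ | ⟨⟨h1, h2⟩, h3, -⟩)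
    · exact ⟨h1, h3, by rw [h2]; exact hc0⟩
    · exact ⟨h1, h3, by rw [h2]; exact neg_ne_zero.mpr hc0⟩
  have hT : ∀ g h τ : L ≃ₐ[ℚ] L, g ∈ T →
      Subgroup.zpowers h = Subgroup.zpowers (τ * g * τ⁻¹) → h ∈ T := by
    intro g h τ hg hz
    obtain ⟨hM, hFg, hne⟩ := hTdat g hg
    obtain ⟨hM', hFh, hh⟩ := inv_main (κ := κ) (Φ := Φ) h3f hconj hpow hM hFg hne hz
    rcases hh with ⟨e1, e2, e3⟩ | ⟨e1, e2, e3⟩
    · obtain ⟨d1, d2⟩ := det_same (C := C) e2 e3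
      rcases hg with ⟨⟨-, hκ⟩, -, hd⟩ | ⟨⟨-, hκ⟩, -, hd⟩
      · left
        refine ⟨⟨hM', e1.trans hκ⟩, hFh, ?_⟩
        rw [d1]; exact hd
      · right
        refine ⟨⟨hM', e1.trans hκ⟩, hFh, ?_⟩
        rw [d2]; exact hd
    · obtain ⟨d1, d2⟩ := det_opp (C := C) e2 e3
      rcases hg with ⟨⟨-, hκ⟩, -, hd⟩ | ⟨⟨-, hκ⟩, -, hd⟩
      · right
        refine ⟨⟨hM', by rw [e1, hκ]⟩, hFh, ?_⟩
        rw [d2]; exact hd
      · left
        refine ⟨⟨hM', by rw [e1, hκ, neg_neg]⟩, hFh, ?_⟩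
        rw [d1]; exact hd
  have hcard1 := count1 (κ := κ) (χ := χ) c
    (fun g => F g ∧ (alt (C + (Φ (χ g)).toAdd + t g)).det ≠ 0)
    (fun a g => F g ∧ (alt (C + (Φ a).toAdd + t g)).det ≠ 0) (fun g => Iff.rfl)
    (rh s * (2 / 3 ^ (s + 1))) (hK c)
    (fun a ha => (hD a (C + (Φ a).toAdd) ha).1)
  have hcard2 := count1 (κ := κ) (χ := χ) (-c)
    (fun g => F g ∧ (alt (C - (Φ (χ g)).toAdd - t g)).det ≠ 0)
    (fun a g => F g ∧ (alt (C - (Φ a).toAdd - t g)).det ≠ 0) (fun g => Iff.rfl)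
    (rh s * (2 / 3 ^ (s + 1))) (hK (-c))
    (fun a ha => (hD a (C - (Φ a).toAdd) ha).2)
  have hne : c ≠ -c := by
    intro h
    apply hc0
    ext i
    have h1 := congrFun h i
    rw [Pi.neg_apply] at h1
    rw [Pi.zero_apply]
    revert h1
    generalize c i = x
    revert x
    decide
  have hcardT : Nat.card T = Nat.card {g : L ≃ₐ[ℚ] L // (M1 (χ g) ∧ (κ (χ g)).toAdd = c) ∧
      (F g ∧ (alt (C + (Φ (χ g)).toAdd + t g)).det ≠ 0)} +
      Nat.card {g : L ≃ₐ[ℚ] L // (M1 (χ g) ∧ (κ (χ g)).toAdd = -c) ∧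
      (F g ∧ (alt (C - (Φ (χ g)).toAdd - t g)).det ≠ 0)} := by
    have := Fintype.ofFinite (L ≃ₐ[ℚ] L)
    change Nat.card {g : L ≃ₐ[ℚ] L // ((M1 (χ g) ∧ (κ (χ g)).toAdd = c) ∧
      (F g ∧ (alt (C + (Φ (χ g)).toAdd + t g)).det ≠ 0)) ∨
      ((M1 (χ g) ∧ (κ (χ g)).toAdd = -c) ∧
      (F g ∧ (alt (C - (Φ (χ g)).toAdd - t g)).det ≠ 0))} = _
    simp only [Nat.card_eq_fintype_card, Fintype.card_subtype]
    rw [Finset.filter_or, Finset.card_union_of_disjoint]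
    rw [Finset.disjoint_filter]
    rintro g - ⟨⟨-, h1⟩, -⟩ ⟨⟨-, h2⟩, -⟩
    exact hne (h1.symm.trans h2)
  have hF := RI.FROBD_thm L T hT
  have hF2 := RI.PDGE_thm _ (SSS b p q p' q' κ c C Φ ∪
      {Q : ℕ | ∃ (hQ : Q.Coprime f) (ρ : PP), ClQ b κ (-c) Q hQ ρ})
    (Finset.range (N₀ + f + 1)) _ hF (by
    rintro Q ⟨g, hg, P, hP, hQP, hst⟩ hQ hQA
    rw [Finset.mem_range, not_lt] at hQA
    have hcf : Q.Coprime f := by
      rw [Nat.Prime.coprime_iff_not_dvd hQ]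
      intro hd
      have := Nat.le_of_dvd hf hd
      omega
    obtain ⟨hM, hFg, -⟩ := hTdat g hg
    obtain ⟨h1, k, hk, -, hχ, ρ, hρ, hb0, hb1, ht⟩ :=
      hfrob Q hcf hQ (by omega) P g hP hQP hst hM hFg
    have hφT : g ^ k ∈ T := by
      refine hT g (g ^ k) 1 hg ?_
      rw [one_mul, inv_one, mul_one]
      exact DENS.zp hk
    rcases hφT with ⟨⟨-, hκ⟩, -, hd⟩ | ⟨⟨-, hκ⟩, -, hd⟩
    · left
      rw [hχ] at hκ hd
      refine ⟨hcf, ρ, ⟨h1, hκ, hρ, hb0, hb1⟩, fun τ hτ h0 => hd ?_⟩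
      rw [← h0]
      congr 1
      refine DENS.alt_congr fun j i hji => ?_
      obtain ⟨r, hr⟩ : ∃ r : ℤ, (Q : ℤ) ∣ r ^ 3 - b j.castSucc := by
        by_cases hd : (Q : ℤ) ∣ b j.castSucc
        · exact ⟨0, by simpa using hd⟩
        · exact (hSPLT.2 Q ρ hQ h1 hρ).2.2.2.2.2 _ hd (hb0 j)
      simp only [Pi.add_apply]
      rw [ht j i hji.ne r hr, hτ j i hji.ne r hr]
    · right
      rw [hχ] at hκ
      exact ⟨hcf, ρ, h1, hκ, hρ, hb0, hb1⟩)
  refine DENS.dens_mono hF2 ?_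
  have hG : (0 : ℝ) < Nat.card (L ≃ₐ[ℚ] L) := by exact_mod_cast hGpos
  rw [le_div_iff₀ hG, hcardT]
  push_cast
  refine le_trans (le_of_eq ?_) (add_le_add hcard1 hcard2)
  have e1 : (3 : ℝ) ^ (s + m + 2) = 3 ^ (s + 1) * 3 ^ (m + 1) := by
    rw [← pow_add]; congr 1; ring
  rw [e1]
  have h6 : (3 : ℝ) ^ (s + 1) ≠ 0 := by positivity
  have h7 : (3 : ℝ) ^ (m + 1) ≠ 0 := by positivity
  field_simp
  ring

end Pool.Agent.PTE

end

section

/-!
# Prime twists of rank zero, every `n`: module DIRS (upper bound for the primes in a class)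
-/

open NumberField IsDedekindDomain Finset
open scoped nonZeroDivisors Pointwise

namespace Pool.Agent.PTE

open Pool.Agent.Lib_helper18 Pool.Agent.Lib_helper18.Eis Pool.Agent.Lib_helper84.Cub
open Pool.Agent.PT

namespace DIRS

lemma log_nonneg' {s : ℝ} (hs : 1 < s) (hs2 : s ≤ 2) : 0 ≤ Real.log (1 / (s - 1)) := by
  apply Real.log_nonneg
  rw [le_div_iff₀ (by linarith)]
  linarith

open RI.PD in
/-- An upper bound from finitely many residue classes and finitely many numbers. -/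
lemma upper (hDIR : DIR) {f : ℕ} (hf : 0 < f) (𝒞 : Finset (ZMod f)ˣ) (A : Finset ℕ) (R : Set ℕ)
    (hsub : ∀ q ∈ R, q.Prime → q ∉ A → ∃ a ∈ 𝒞, (q : ZMod f) = a) :
    ∃ K : ℝ, ∀ s : ℝ, 1 < s → s ≤ 2 →
      ∑' q : {q : ℕ // q.Prime ∧ q ∈ R}, (q : ℝ) ^ (-s) ≤
        (𝒞.card : ℝ) / f.totient * Real.log (1 / (s - 1)) + K := by
  classical
  have hD : ∀ a : (ZMod f)ˣ, ∃ C : ℝ, ∀ s : ℝ, 1 < s → s ≤ 2 →
    ∑' q : {q : ℕ // q.Prime ∧ (q : ZMod f) = a}, (q : ℝ) ^ (-s) ≤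
      (1 / (f.totient : ℝ)) * Real.log (1 / (s - 1)) + C := fun a => hDIR f a hf
  choose D hD using hD
  refine ⟨A.card + ∑ a ∈ 𝒞, D a, fun s hs hs2 => ?_⟩
  rw [sub_eq]
  have hsum := summ hs
  have hSR := hsum.indicator {q : ℕ | q.Prime ∧ q ∈ R}
  have hSA := hsum.indicator (A : Set ℕ)
  have hSa : ∀ a ∈ 𝒞, Summable (Set.indicator {q : ℕ | q.Prime ∧ (q : ZMod f) = a}
      (fun n : ℕ => (n : ℝ) ^ (-s))) := fun a _ => hsum.indicator _
  have hpt : ∀ n : ℕ, Set.indicator {q : ℕ | q.Prime ∧ q ∈ R} (fun n : ℕ => (n : ℝ) ^ (-s)) n ≤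
      Set.indicator (A : Set ℕ) (fun n : ℕ => (n : ℝ) ^ (-s)) n +
        ∑ a ∈ 𝒞, Set.indicator {q : ℕ | q.Prime ∧ (q : ZMod f) = a}
          (fun n : ℕ => (n : ℝ) ^ (-s)) n := by
    intro n
    have h0 : ∀ a ∈ 𝒞, 0 ≤ Set.indicator {q : ℕ | q.Prime ∧ (q : ZMod f) = a}
        (fun n : ℕ => (n : ℝ) ^ (-s)) n :=
      fun a _ => Set.indicator_nonneg (fun x _ => term_nonneg s x) n
    have hA0 : 0 ≤ Set.indicator (A : Set ℕ) (fun n : ℕ => (n : ℝ) ^ (-s)) n :=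
      Set.indicator_nonneg (fun x _ => term_nonneg s x) n
    have hsum0 := Finset.sum_nonneg h0
    by_cases hn : n ∈ {q : ℕ | q.Prime ∧ q ∈ R}
    · rw [Set.indicator_of_mem hn]
      by_cases hnA : n ∈ (A : Set ℕ)
      · rw [Set.indicator_of_mem hnA]
        linarith
      · obtain ⟨a, ha, hna⟩ := hsub n hn.2 hn.1 (by simpa using hnA)
        have h2 := Finset.single_le_sum h0 ha
        have hna' : n ∈ {q : ℕ | q.Prime ∧ (q : ZMod f) = a} := ⟨hn.1, hna⟩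
        rw [Set.indicator_of_mem hna'] at h2
        linarith
    · rw [Set.indicator_of_notMem hn]
      linarith
  have h2 := hSR.tsum_le_tsum hpt (hSA.add (summable_sum hSa))
  rw [hSA.tsum_add (summable_sum hSa), Summable.tsum_finsetSum hSa] at h2
  have h3 : ∑ a ∈ 𝒞, ∑' n : ℕ, Set.indicator {q : ℕ | q.Prime ∧ (q : ZMod f) = a}
      (fun n : ℕ => (n : ℝ) ^ (-s)) n ≤
      ∑ a ∈ 𝒞, ((1 / (f.totient : ℝ)) * Real.log (1 / (s - 1)) + D a) := by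
    refine Finset.sum_le_sum fun a _ => ?_
    have h4 := hD a s hs hs2
    rwa [DENS.cls_eq] at h4
  rw [Finset.sum_add_distrib, Finset.sum_const, nsmul_eq_mul] at h3
  have h5 : (𝒞.card : ℝ) / f.totient * Real.log (1 / (s - 1)) =
      𝒞.card * (1 / (f.totient : ℝ) * Real.log (1 / (s - 1))) := by ring
  have h6 := fin_le hs A
  rw [h5]
  linarith

end DIRS

open _root_.Pool.Agent.PTE.DIRS in
theorem DIRS_thm (hDIR : DIR) (hCLSC : CLSC) (hCLSCS : CLSCS) : DIRS := by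
  classical
  intro m π p hp hp3 hpπ hinj w0 c
  set f : ℕ := 9 * ∏ i, p i with hfdef
  have hf : 0 < f := Nat.mul_pos (by norm_num) (Finset.prod_pos fun i _ => (hp i).pos)
  have h9 : 9 ∣ f := Dvd.intro _ rfl
  have hpf : ∀ i, p i ∣ f := fun i => Dvd.dvd.mul_left (Finset.dvd_prod_of_mem _ (mem_univ i)) 9
  have : NeZero f := ⟨hf.ne'⟩
  have h3f : 3 ∣ f := dvd_trans (by norm_num) h9
  obtain ⟨κ, hκ, hM2⟩ := hCLSC m π p hp hp3 hpπ hinj f hf h9 hpf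
  have hM1 := hCLSCS f m κ hf h9 hM2 (Fin.cons w0 c)
  set 𝒞 : Finset (ZMod f)ˣ := univ.filter (fun a : (ZMod f)ˣ => M1 a ∧
    (κ a).toAdd = (Fin.cons w0 c : Fin (m + 1) → ZMod 3)) with h𝒞
  obtain ⟨K, hK⟩ := upper hDIR hf 𝒞 f.divisors {q : ℕ | InClS π w0 c q} (by
    rintro q ⟨hq3, hq0, hqc⟩ hq hqA
    have hcop : q.Coprime f := by
      rw [Nat.Prime.coprime_iff_not_dvd hq]
      intro hd
      exact hqA (Nat.mem_divisors.mpr ⟨hd, hf.ne'⟩)
    refine ⟨ZMod.unitOfCoprime q hcop, ?_, by rw [ZMod.coe_unitOfCoprime]⟩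
    rw [h𝒞, Finset.mem_filter]
    refine ⟨mem_univ _, ?_, ?_⟩
    · unfold M1
      rw [ZMod.coe_unitOfCoprime, ZMod.val_natCast, Nat.mod_mod_of_dvd _ h3f]
      exact hq3
    · rw [hκ q hcop, hq0]
      congr 1
      funext i
      exact hqc i)
  refine ⟨K, fun s hs hs2 => (hK s hs hs2).trans_eq ?_⟩
  have hφ : 0 < f.totient := Nat.totient_pos.mpr hf
  rw [Nat.card_eq_fintype_card, Fintype.card_subtype] at hM1
  have e1 : (𝒞.card : ℝ) / f.totient = 1 / (2 * 3 ^ (m + 1)) := by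
    rw [div_eq_div_iff (by exact_mod_cast hφ.ne') (by positivity), one_mul]
    exact_mod_cast hM1
  rw [e1]

end Pool.Agent.PTE

end

section

/-!
# PT3_DENG: the density of the primes with nonsingular matrix

Copy of `Pool/Agent/PT/DENS.lean` with `SysG` in place of `Sys`; the helper lemmas are those of that file.
-/

open NumberField IsDedekindDomain Finset
open scoped nonZeroDivisors Pointwise

namespace Pool.Agent.PT3

open Pool.Agent.Lib_helper18 Pool.Agent.Lib_helper18.Eis Pool.Agent.Lib_helper84.Cub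
open Pool.Agent.PT Pool.Agent.PTE

open Pool.Agent.PT.DENS in
theorem DENG_thm (hGALG : GALG) (hDCNT : DCNT) (hDIR : DIR) : DENG := by
  classical
  intro s b p q p' q' f m κ c C Φ hSys hs hf h9 hK
  have : NeZero f := ⟨hf.ne'⟩
  have h3f : 3 ∣ f := dvd_trans (by norm_num) h9
  obtain ⟨L, iF, iN, iG, χ, t, N₀, hsurj, hconj, hpow, hcnt, hfrob⟩ :=
    hGALG s b p q p' q' f hSys hf h9
  have hG : Gov b p q p' q' f L χ t N₀ := ⟨hconj, hpow, hfrob⟩
  have hDat : Dat χ t (fun a => (κ a).toAdd) := ⟨hK, hDCNT s f _ χ t hs hf hsurj hcnt⟩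
  change RI.DensityGE (SS b p q p' q' f κ c C Φ) (1 / (24 * 3 ^ m))
  have hGpos : 0 < Nat.card (L ≃ₐ[ℚ] L) := Nat.card_pos
  have hb1 : ∀ a, M2 a → 8 * Nat.card {g : L ≃ₐ[ℚ] L // χ g = a ∧
      (alt (C + (Φ a).toAdd - t g)).det = 0} ≤ 3 * Nat.card {g : L ≃ₐ[ℚ] L // χ g = a} :=
    fun a ha => (hDat.hD a (C + (Φ a).toAdd) ha).1
  have hb2 : ∀ a, M2 a → 8 * Nat.card {g : L ≃ₐ[ℚ] L // χ g = a ∧
      (alt (C - (Φ a).toAdd + t g)).det = 0} ≤ 3 * Nat.card {g : L ≃ₐ[ℚ] L // χ g = a} :=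
    fun a ha => (hDat.hD a (C - (Φ a).toAdd) ha).2.1
  by_cases hc0 : c = 0
  · subst hc0
    let T : Set (L ≃ₐ[ℚ] L) := {g | (M2 (χ g) ∧ (κ (χ g)).toAdd = 0) ∧
      ¬ (alt (C + (Φ (χ g)).toAdd - t g)).det = 0 ∧
      ¬ (alt (C - (Φ (χ g)).toAdd + t g)).det = 0}
    have hT : ∀ g h τ : L ≃ₐ[ℚ] L, g ∈ T →
        Subgroup.zpowers h = Subgroup.zpowers (τ * g * τ⁻¹) → h ∈ T := by
      rintro g h τ ⟨⟨hM, hκ⟩, hd1, hd2⟩ hz
      obtain ⟨hM', hh⟩ := inv_main (κ := κ) (Φ := Φ) h3f hconj hpow hM hz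
      rcases hh with ⟨e1, e2, e3⟩ | ⟨e1, e2, e3⟩
      · obtain ⟨d1, d2⟩ := det_same (C := C) e2 e3
        refine ⟨⟨hM', e1.trans hκ⟩, ?_, ?_⟩
        · rw [d1]; exact hd1
        · rw [d2]; exact hd2
      · obtain ⟨d1, d2⟩ := det_opp (C := C) e2 e3
        refine ⟨⟨hM', by rw [e1, hκ, neg_zero]⟩, ?_, ?_⟩
        · rw [d1]; exact hd2
        · rw [d2]; exact hd1
    have hcard := countPP hDat 0 (fun g => (alt (C + (Φ (χ g)).toAdd - t g)).det = 0)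
      (fun g => (alt (C - (Φ (χ g)).toAdd + t g)).det = 0)
      (fun a g => (alt (C + (Φ a).toAdd - t g)).det = 0)
      (fun a g => (alt (C - (Φ a).toAdd + t g)).det = 0)
      (fun g => Iff.rfl) (fun g => Iff.rfl) hb1 hb2
    have hF := RI.FROBD_thm L T hT
    have hF2 := RI.PDGE_thm _ (SS b p q p' q' f κ 0 C Φ) (Finset.range (N₀ + f + 1)) _ hF (by
      rintro Q hQF hQ hQA
      rw [Finset.mem_range, not_lt] at hQA
      obtain ⟨hc, φ, hφT, hφ, ht⟩ := frob_step hG hf T hT hQ (by omega) (by omega) hQF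
      have hQ3 : Q % 3 = 2 := M2_Q h3f hc (hφ ▸ hφT.1.1)
      exact mem_SS hQ hQ3 hc hφ (ht hQ3) hφT.1.2 hφT.2.1)
    refine dens_mono hF2 ?_
    have h1 : (Nat.card (L ≃ₐ[ℚ] L) : ℝ) ≤ 4 * (2 * 3 ^ (m + 1)) * Nat.card T := by
      exact_mod_cast hcard
    rw [div_le_div_iff₀ (by positivity) (by exact_mod_cast hGpos)]
    rw [pow_succ] at h1
    linarith
  · let T : Set (L ≃ₐ[ℚ] L) := {g | ((M2 (χ g) ∧ (κ (χ g)).toAdd = c) ∧
      ¬ (alt (C + (Φ (χ g)).toAdd - t g)).det = 0) ∨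
      ((M2 (χ g) ∧ (κ (χ g)).toAdd = -c) ∧
      ¬ (alt (C - (Φ (χ g)).toAdd + t g)).det = 0)}
    have hT : ∀ g h τ : L ≃ₐ[ℚ] L, g ∈ T →
        Subgroup.zpowers h = Subgroup.zpowers (τ * g * τ⁻¹) → h ∈ T := by
      rintro g h τ hg hz
      have hM : M2 (χ g) := by
        rcases hg with ⟨⟨hM, -⟩, -⟩ | ⟨⟨hM, -⟩, -⟩ <;> exact hM
      obtain ⟨hM', hh⟩ := inv_main (κ := κ) (Φ := Φ) h3f hconj hpow hM hz
      rcases hh with ⟨e1, e2, e3⟩ | ⟨e1, e2, e3⟩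
      · obtain ⟨d1, d2⟩ := det_same (C := C) e2 e3
        rcases hg with ⟨⟨-, hκ⟩, hd⟩ | ⟨⟨-, hκ⟩, hd⟩
        · left
          refine ⟨⟨hM', e1.trans hκ⟩, ?_⟩
          rw [d1]; exact hd
        · right
          refine ⟨⟨hM', e1.trans hκ⟩, ?_⟩
          rw [d2]; exact hd
      · obtain ⟨d1, d2⟩ := det_opp (C := C) e2 e3
        rcases hg with ⟨⟨-, hκ⟩, hd⟩ | ⟨⟨-, hκ⟩, hd⟩
        · right
          refine ⟨⟨hM', by rw [e1, hκ]⟩, ?_⟩
          rw [d2]; exact hd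
        · left
          refine ⟨⟨hM', by rw [e1, hκ, neg_neg]⟩, ?_⟩
          rw [d1]; exact hd
    have hcard1 := countP hDat c (fun g => (alt (C + (Φ (χ g)).toAdd - t g)).det = 0)
      (fun a g => (alt (C + (Φ a).toAdd - t g)).det = 0) (fun g => Iff.rfl) hb1
    have hcard2 := countP hDat (-c) (fun g => (alt (C - (Φ (χ g)).toAdd + t g)).det = 0)
      (fun a g => (alt (C - (Φ a).toAdd + t g)).det = 0) (fun g => Iff.rfl) hb2
    have hne : c ≠ -c := by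
      intro h
      apply hc0
      ext i
      have h1 := congrFun h i
      rw [Pi.neg_apply] at h1
      rw [Pi.zero_apply]
      revert h1
      generalize c i = x
      revert x
      decide
    have hcardT : Nat.card T = Nat.card {g : L ≃ₐ[ℚ] L // (M2 (χ g) ∧ (κ (χ g)).toAdd = c) ∧
        ¬ (alt (C + (Φ (χ g)).toAdd - t g)).det = 0} +
        Nat.card {g : L ≃ₐ[ℚ] L // (M2 (χ g) ∧ (κ (χ g)).toAdd = -c) ∧
        ¬ (alt (C - (Φ (χ g)).toAdd + t g)).det = 0} := by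
      have := Fintype.ofFinite (L ≃ₐ[ℚ] L)
      change Nat.card {g : L ≃ₐ[ℚ] L // ((M2 (χ g) ∧ (κ (χ g)).toAdd = c) ∧
      ¬ (alt (C + (Φ (χ g)).toAdd - t g)).det = 0) ∨
      ((M2 (χ g) ∧ (κ (χ g)).toAdd = -c) ∧
      ¬ (alt (C - (Φ (χ g)).toAdd + t g)).det = 0)} = _
      simp only [Nat.card_eq_fintype_card, Fintype.card_subtype]
      rw [Finset.filter_or, Finset.card_union_of_disjoint]
      rw [Finset.disjoint_filter]
      rintro g - ⟨⟨-, h1⟩, -⟩ ⟨⟨-, h2⟩, -⟩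
      exact hne (h1.symm.trans h2)
    have hF := RI.FROBD_thm L T hT
    have hF2 := RI.PDGE_thm _ {Q : ℕ | Q ∈ SS b p q p' q' f κ c C Φ ∨
        ∃ a ∈ univ.filter (fun a : (ZMod f)ˣ => M2 a ∧ (κ a).toAdd = -c), (Q : ZMod f) = a}
      (Finset.range (N₀ + f + 1)) _ hF (by
      rintro Q hQF hQ hQA
      rw [Finset.mem_range, not_lt] at hQA
      obtain ⟨hc, φ, hφT, hφ, ht⟩ := frob_step hG hf T hT hQ (by omega) (by omega) hQF
      have hM : M2 (χ φ) := by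
        rcases hφT with ⟨⟨hM, -⟩, -⟩ | ⟨⟨hM, -⟩, -⟩ <;> exact hM
      have hQ3 : Q % 3 = 2 := M2_Q h3f hc (hφ ▸ hM)
      rcases hφT with ⟨⟨-, hκ⟩, hd⟩ | ⟨⟨-, hκ⟩, hd⟩
      · left
        exact mem_SS hQ hQ3 hc hφ (ht hQ3) hκ hd
      · right
        refine ⟨χ φ, ?_, ?_⟩
        · rw [Finset.mem_filter]
          exact ⟨Finset.mem_univ _, hM, hκ⟩
        · rw [hφ, ZMod.coe_unitOfCoprime])
    have hF3 := dens_sub hDIR hf (univ.filter (fun a : (ZMod f)ˣ => M2 a ∧ (κ a).toAdd = -c)) _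
      (SS b p q p' q' f κ c C Φ) _ hF2 (by
      rintro Q hQ1 - hQ2
      exact hQ1.resolve_left hQ2)
    refine dens_mono hF3 ?_
    have hφ : 0 < f.totient := Nat.totient_pos.mpr hf
    have hKc := hK (-c)
    rw [Nat.card_eq_fintype_card, Fintype.card_subtype] at hKc
    have e1 : ((univ.filter (fun a : (ZMod f)ˣ => M2 a ∧ (κ a).toAdd = -c)).card : ℝ) /
        f.totient = 1 / (2 * 3 ^ (m + 1)) := by
      rw [div_eq_div_iff (by exact_mod_cast hφ.ne') (by positivity), one_mul]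
      exact_mod_cast hKc
    rw [e1]
    have h1 : (5 : ℝ) * (Nat.card (L ≃ₐ[ℚ] L) : ℝ) ≤ 8 * 3 ^ (m + 1) * Nat.card T := by
      have h2 : 10 * Nat.card (L ≃ₐ[ℚ] L) ≤ 8 * (2 * 3 ^ (m + 1)) * Nat.card T := by
        rw [hcardT, mul_add]
        omega
      have h4 : (10 : ℝ) * (Nat.card (L ≃ₐ[ℚ] L) : ℝ) ≤ 8 * (2 * 3 ^ (m + 1)) * Nat.card T := by
        exact_mod_cast h2
      linarith
    have h2 : (5 : ℝ) / (8 * 3 ^ (m + 1)) ≤ (Nat.card T : ℝ) / Nat.card (L ≃ₐ[ℚ] L) := by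
      rw [div_le_div_iff₀ (by positivity) (by exact_mod_cast hGpos)]
      linarith
    have h5 : (1 : ℝ) / (24 * 3 ^ m) = 5 / (8 * 3 ^ (m + 1)) - 1 / (2 * 3 ^ (m + 1)) := by
      have h6 : (3 : ℝ) ^ m ≠ 0 := by positivity
      rw [pow_succ]
      field_simp
      norm_num
    rw [h5]
    linarith

end Pool.Agent.PT3

end

section

/-!
# PT3: the class and the system, `3` does not divide `n`, `k` even
-/

set_option autoImplicit false

open NumberField IsDedekindDomain Finset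
open scoped nonZeroDivisors Pointwise

namespace Pool.Agent.PT3

open Pool.Agent.Lib_helper18 Pool.Agent.Lib_helper18.Eis Pool.Agent.Lib_helper84.Cub
open Pool.Agent.PT Pool.Agent.PTE

namespace ECL0

open Pool.Agent.PT.ECL

/-- the determinant vanishes -/
lemma point_det0 (hEADM : EADM) (hFD1 : FD1) (hFD2 : FD2) (hTEND : TEND)
    {n m k : ℕ} {π : Fin m → PP} {p e : Fin m → ℕ} {r f : Fin k → ℕ} (hNF : NF n π p e r f)
    {w0 : ZMod 3} {c : Fin m → ZMod 3}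
    {s : ℕ} {b : Fin s → ℤ} (hAdm : ∀ i, AdmC n π w0 c (b i))
    (hgen : ∀ x : ℤ, AdmC n π w0 c x → ∃ (g : Fin s → ℕ) (u v : ℤ), u ≠ 0 ∧ v ≠ 0 ∧
      x * u ^ 3 = (∏ i, b i ^ g i) * v ^ 3)
    {P Q P' Q' : Fin s → Fin s → ℤ} (hSys : Sys b P Q P' Q') (q : ℕ) (hq : q.Prime)
    (hIn : InCl π w0 c q) (hqn : ¬ q ∣ n) (hq3 : 3 < q) (hH : HypM ((n : ℤ) * q)) :
    (∀ i, Adm ((n : ℤ) * q) (b i)) ∧ BOk ((n : ℤ) * q) ∧
      ((∃ X Y : ℚ, X ^ 3 + Y ^ 3 = (n : ℚ) * q) → (Mat b P Q P' Q' ((n : ℤ) * q)).det = 0) := by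
  obtain ⟨hB, hE⟩ := hEADM n m k π p e r f w0 c q hNF hq hIn hqn
  have hA : ∀ i, Adm ((n : ℤ) * q) (b i) := fun i => (hE _ (hAdm i).supp).1 (hAdm i)
  refine ⟨hA, hB, ?_⟩
  rintro ⟨X, Y, hXY⟩
  have hn0 : 0 < n := by
    rcases Nat.eq_zero_or_pos n with h | h
    · exact absurd (by rw [h]; exact dvd_zero q) hqn
    · exact h
  have h3 : 3 ≤ |(n : ℤ) * q| := by
    have h1 : (3 : ℤ) ≤ (n : ℤ) * q := by
      have h2 : 3 ≤ n * q := by nlinarith
      exact_mod_cast h2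
    exact h1.trans (le_abs_self _)
  obtain ⟨a, x, hC⟩ := hFD1 ((n : ℤ) * q) hB h3 hH ⟨X, Y, by rw [hXY]; push_cast; ring⟩
  obtain ⟨z, X1, Y1, hPt, hAz, hsupp, hcube⟩ := hFD2 n q a x hq hIn.1 hqn hn0 hB hC
  obtain ⟨g, u, v, hu, hv, hg⟩ := hgen z ((hE z hsupp).2 hAz)
  set W : ℤ := ∏ i, b i ^ g i with hW
  have hex : ∃ i, ¬ 3 ∣ g i := by
    by_contra hcon
    push Not at hcon
    choose g' hg' using hcon
    apply hcube
    have h1 : z * u ^ 3 = ((∏ i, b i ^ g' i) * v) ^ 3 := by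
      rw [hg, hW, mul_pow, ← Finset.prod_pow]
      congr 1
      refine Finset.prod_congr rfl fun i _ => ?_
      rw [← pow_mul, hg' i, mul_comm]
    exact cube_of hu h1
  have hPt' : Pt ((n : ℤ) * q) (∏ i, b i ^ g i) (u * v * X1) (v ^ 2 * Y1) := by
    refine ⟨mul_ne_zero (mul_ne_zero hu hv) hPt.hX, mul_ne_zero (pow_ne_zero 2 hv) hPt.hY, ?_⟩
    obtain ⟨c0, hc0, h1⟩ := hPt.eq
    refine ⟨c0 * u ^ 2, mul_ne_zero hc0 (pow_ne_zero 2 hu), ?_⟩
    rw [← hW]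
    have e1 : W * ((u * v * X1) ^ 3 + W * (v ^ 2 * Y1) ^ 3) =
        (W * v ^ 3) * (u ^ 3 * X1 ^ 3 + (W * v ^ 3) * Y1 ^ 3) := by ring
    rw [e1, ← hg]
    have e2 : z * u ^ 3 * (u ^ 3 * X1 ^ 3 + z * u ^ 3 * Y1 ^ 3) =
        u ^ 6 * (z * (X1 ^ 3 + z * Y1 ^ 3)) := by ring
    rw [e2, h1]
    ring
  have hker := (hTEND s b P Q P' Q' ((n : ℤ) * q) hSys hB hA).2 g _ _ hex hPt'
  rw [← Matrix.exists_mulVec_eq_zero_iff]
  refine ⟨fun i => (g i : ZMod 3), ?_, ?_⟩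
  · intro h1
    obtain ⟨i, hi⟩ := hex
    apply hi
    have h2 := congrFun h1 i
    exact (ZMod.natCast_eq_zero_iff (g i) 3).1 h2
  · ext j
    exact hker j

end ECL0

/-- ECL0: the system for a class, `k` even. -/
theorem ECL0_thm (hHYP0 : HYP0) (hEBAS : EBAS) (hEADM : EADM) (hESYS : ESYS) (hFD1 : FD1)
    (hFD2 : FD2) (hTEND : TEND) : ECL0 := by
  intro n m k π p e r f w0 c hNF hk hw hdet
  obtain ⟨s, b, hs, hAdm, hV, hind, hc9, hgen⟩ :=
    hEBAS n m k π p e r f w0 c none hNF (Or.inl ⟨rfl, hk, hw⟩) (fun j hj => by cases hj) hdet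
  obtain ⟨P, Q, P', Q', hSys⟩ := hESYS n m k π p e r f w0 c s b hNF hAdm hV hind hc9
  refine ⟨s, b, P, Q, P', Q', hs, hAdm, hSys, ?_⟩
  intro q hq hIn hqn hq3
  exact ECL0.point_det0 hEADM hFD1 hFD2 hTEND hNF hAdm hgen hSys q hq hIn hqn hq3
    (hHYP0 n m k π p e r f w0 c q hNF hq hIn hqn hw hdet)

end Pool.Agent.PT3

end

section

/-!
# DADD: sum of the densities of disjoint sets
-/

open Finset

namespace Pool.Agent.PT3

namespace DADD

open RI.PD in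
/-- the pointwise inequality -/
lemma point {ι : Type} [Fintype ι] (S : ι → Set ℕ) (T : Set ℕ) (h1 : ∀ i, S i ⊆ T)
    (h2 : ∀ i j, i ≠ j → Disjoint (S i) (S j)) (s : ℝ) (n : ℕ) :
    ∑ i : ι, Set.indicator {q : ℕ | q.Prime ∧ q ∈ S i} (fun n : ℕ => (n : ℝ) ^ (-s)) n ≤
      Set.indicator {q : ℕ | q.Prime ∧ q ∈ T} (fun n : ℕ => (n : ℝ) ^ (-s)) n := by
  classical
  by_cases hex : ∃ i, n.Prime ∧ n ∈ S i
  · obtain ⟨i, hp, hi⟩ := hex
    rw [Finset.sum_eq_single i]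
    · have hsub : {q : ℕ | q.Prime ∧ q ∈ S i} ⊆ {q : ℕ | q.Prime ∧ q ∈ T} :=
        fun q hq => ⟨hq.1, h1 i hq.2⟩
      exact Set.indicator_le_indicator_of_subset hsub (fun x => term_nonneg s x) n
    · intro j _ hj
      rw [Set.indicator_of_notMem]
      rintro ⟨_, h⟩
      exact Set.disjoint_left.1 (h2 j i hj) h hi
    · intro h
      exact absurd (Finset.mem_univ i) h
  · have h0 : ∑ i : ι, Set.indicator {q : ℕ | q.Prime ∧ q ∈ S i}
        (fun n : ℕ => (n : ℝ) ^ (-s)) n = 0 := by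
      refine Finset.sum_eq_zero fun i _ => ?_
      rw [Set.indicator_of_notMem]
      rintro ⟨hp, h⟩
      exact hex ⟨i, hp, h⟩
    rw [h0]
    exact Set.indicator_nonneg (fun x _ => term_nonneg s x) n

end DADD

open _root_.Pool.Agent.PT3.DADD RI.PD in
theorem DADD_thm : DADD := by
  classical
  intro ι _ S T d hd h1 h2 h3 N hN
  choose C hC using h1
  refine ⟨∑ i, C i, fun s hs hs2 => ?_⟩
  rw [sub_eq]
  have hsum := summ hs
  have hSi : ∀ i ∈ (Finset.univ : Finset ι), Summable (Set.indicator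
      {q : ℕ | q.Prime ∧ q ∈ S i} (fun n : ℕ => (n : ℝ) ^ (-s))) :=
    fun i _ => hsum.indicator _
  have hT := hsum.indicator {q : ℕ | q.Prime ∧ q ∈ T}
  have h6 := (summable_sum hSi).tsum_le_tsum
    (fun n => by
      have := point S T h2 h3 s n
      simpa using this) hT
  rw [Summable.tsum_finsetSum hSi] at h6
  have h7 : ∑ i : ι, (d * Real.log (1 / (s - 1)) - C i) ≤ ∑ i : ι, ∑' n : ℕ,
      Set.indicator {q : ℕ | q.Prime ∧ q ∈ S i} (fun n : ℕ => (n : ℝ) ^ (-s)) n := by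
    refine Finset.sum_le_sum fun i _ => ?_
    have h8 := hC i s hs hs2
    rwa [sub_eq] at h8
  rw [Finset.sum_sub_distrib, Finset.sum_const, nsmul_eq_mul, Finset.card_univ] at h7
  have hlog : 0 ≤ Real.log (1 / (s - 1)) := by
    apply Real.log_nonneg
    rw [le_div_iff₀ (by linarith)]
    linarith
  have h9 : (N : ℝ) * (d * Real.log (1 / (s - 1))) ≤
      (Fintype.card ι : ℝ) * (d * Real.log (1 / (s - 1))) :=
    mul_le_mul_of_nonneg_right (by exact_mod_cast hN) (mul_nonneg hd hlog)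
  have h10 : (N : ℝ) * d * Real.log (1 / (s - 1)) = (N : ℝ) * (d * Real.log (1 / (s - 1))) := by
    ring
  rw [h10]
  linarith

end Pool.Agent.PT3

end

section

/-!
# Splitting into cells
-/

namespace Pool.Agent.PT

open Pool.Agent.Lib_helper18 Pool.Agent.Lib_helper18.Eis Pool.Agent.Lib_helper84.Cub

namespace FDC

/-- cube-free integers -/
def CF (a : ℤ) : Prop := ∀ p : ℤ, Prime p → ¬ p ^ 3 ∣ a

theorem exists_cf (n : ℤ) (hn : n ≠ 0) : ∃ a x : ℤ, n = a * x ^ 3 ∧ CF a := by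
  suffices h : ∀ N : ℕ, ∀ n : ℤ, n.natAbs = N → n ≠ 0 → ∃ a x : ℤ, n = a * x ^ 3 ∧ CF a from
    h _ n rfl hn
  intro N
  induction N using Nat.strong_induction_on with
  | _ N ih =>
    intro n hN hn
    by_cases h : CF n
    · exact ⟨n, 1, by ring, h⟩
    · unfold CF at h
      push Not at h
      obtain ⟨p, hp, c, hc⟩ := h
      have hc0 : c ≠ 0 := by
        rintro rfl
        rw [mul_zero] at hc
        exact hn hc
      have hp2 : 2 ≤ p.natAbs := (Int.prime_iff_natAbs_prime.mp hp).two_le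
      have hlt : c.natAbs < N := by
        rw [← hN, hc, Int.natAbs_mul, Int.natAbs_pow]
        have h1 : 0 < c.natAbs := Int.natAbs_pos.mpr hc0
        have h2 : 1 < p.natAbs ^ 3 := Nat.one_lt_pow (by norm_num) (by omega)
        nlinarith
      obtain ⟨a, x, hax, ha⟩ := ih _ hlt c rfl hc0
      exact ⟨a, p * x, by rw [hc, hax]; ring, ha⟩

theorem CF.mul {a b : ℤ} (ha : CF a) (hb : CF b) (hab : IsCoprime a b) : CF (a * b) := by
  intro p hp h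
  by_cases hpa : p ∣ a
  · have h1 : IsCoprime p b := hab.of_isCoprime_of_dvd_left hpa
    exact ha p hp ((h1.pow_left (m := 3)).dvd_of_dvd_mul_right h)
  · have h1 : IsCoprime p a := (hp.coprime_iff_not_dvd).mpr hpa
    exact hb p hp ((h1.pow_left (m := 3)).dvd_of_dvd_mul_left h)

theorem CF.unit {a d : ℤ} (ha : CF a) (hd : d ^ 3 ∣ a) (hd0 : d ≠ 0) : IsUnit d := by
  by_contra h
  obtain ⟨p, hp, hpd⟩ := WfDvdMonoid.exists_irreducible_factor h hd0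
  exact ha p hp.prime ((pow_dvd_pow_of_dvd hpd 3).trans hd)

/-- uniqueness of the cube-free part -/
theorem cf_unique {a b m x : ℤ} (ha : CF a) (hb : CF b) (hm : m ≠ 0) (hx : x ≠ 0)
    (h : a * m ^ 3 = b * x ^ 3) : b = a ∨ b = -a := by
  obtain ⟨g, m', x', hg, hcop, rfl, rfl⟩ : ∃ g m' x' : ℤ, g ≠ 0 ∧ IsCoprime m' x' ∧
      m = g * m' ∧ x = g * x' := by
    have hg0 : (Int.gcd m x : ℤ) ≠ 0 := by
      have := Int.gcd_pos_of_ne_zero_left x hm
      omega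
    obtain ⟨m', hm'⟩ := Int.gcd_dvd_left m x
    obtain ⟨x', hx'⟩ := Int.gcd_dvd_right m x
    refine ⟨Int.gcd m x, m', x', hg0, ?_, hm', hx'⟩
    have h1 := Int.gcd_eq_gcd_ab m x
    refine ⟨Int.gcdA m x, Int.gcdB m x, ?_⟩
    apply mul_left_cancel₀ hg0
    linear_combination (-1 : ℤ) * h1 - Int.gcdA m x * hm' - Int.gcdB m x * hx'
  have h2 : a * m' ^ 3 = b * x' ^ 3 := by
    apply mul_left_cancel₀ (pow_ne_zero 3 hg)
    linear_combination h
  have hm0 : m' ≠ 0 := by rintro rfl; exact hm (by ring)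
  have hx0 : x' ≠ 0 := by rintro rfl; exact hx (by ring)
  have hc3 : IsCoprime (m' ^ 3) (x' ^ 3) := hcop.pow
  have u1 : IsUnit m' := hb.unit (hc3.dvd_of_dvd_mul_right ⟨a, by rw [← h2]; ring⟩) hm0
  have u2 : IsUnit x' := ha.unit (hc3.symm.dvd_of_dvd_mul_right ⟨b, by rw [h2]; ring⟩) hx0
  rcases Int.isUnit_iff.mp u1 with rfl | rfl <;> rcases Int.isUnit_iff.mp u2 with rfl | rfl
  · left; linarith
  · right; linarith
  · right; linarith
  · left; linarith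

/-- the condition on `B` means that `B` is cube-free -/
theorem cf_of_BOk {B : ℤ} (hB : BOk B) : CF B := by
  intro p hp h
  have hp0 : p ≠ 0 := hp.ne_zero
  have hnu : ¬ IsUnit ((p : ℤ) : Eis) := by
    rw [isUnit_iff_norm]
    intro h1
    have h2 : ((p : ℤ) : Eis).norm = p ^ 2 := by
      rw [Eis.norm]; simp
    rw [h2] at h1
    have : p = 1 ∨ p = -1 := by
      have h3 : (p - 1) * (p + 1) = 0 := by linear_combination h1
      rcases mul_eq_zero.mp h3 with h | h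
      · left; linarith
      · right; linarith
    exact hp.not_unit (Int.isUnit_iff.mpr this)
  have hpe : ((p : ℤ) : Eis) ≠ 0 := by
    intro h1
    have := congrArg Eis.re h1
    simp at this
    exact hp0 this
  obtain ⟨l, hlirr, hlt⟩ := WfDvdMonoid.exists_irreducible_factor hnu hpe
  have hl : Prime l := hlirr.prime
  have hpB : p ∣ B := (dvd_pow_self p (by norm_num)).trans h
  have hl3 : ¬ l ∣ 3 := by
    intro h1
    have h2 : lam ∣ ((B : ℤ) : Eis) := by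
      have h3 : ((p : ℤ) : Eis) ∣ ((B : ℤ) : Eis) := by
        obtain ⟨c, rfl⟩ := hpB
        exact ⟨c, by push_cast; ring⟩
      exact (((dvd_three_iff hl).mp h1).symm.dvd.trans hlt).trans h3
    rw [lam_dvd_iff] at h2
    simp at h2
    exact hB.three h2
  obtain ⟨i, hi⟩ := exists_prim (not_lam_dvd_of_prime hl hl3)
  have hass : Associated (l * w ^ i) l := ⟨(isUnit_w.pow i).unit⁻¹, by
    rw [mul_assoc]; simp⟩
  have hBe : ((B : ℤ) : Eis) ≠ 0 := by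
    intro h1
    have := congrArg Eis.re h1
    simp at this
    exact hB.ne this
  have key : ∀ π : Eis, Associated π l → π.re % 3 = 2 → (3 : ℤ) ∣ π.im → False := by
    intro π hπ h1 h2
    have hπp : Prime π := hπ.symm.prime hl
    have h3 := hB.cf ⟨π, hπp, h1, h2⟩
    simp only at h3
    have h4 : π ^ 3 ∣ ((B : ℤ) : Eis) := by
      have h5 : π ∣ ((p : ℤ) : Eis) := hπ.dvd.trans hlt
      refine (pow_dvd_pow_of_dvd h5 3).trans ?_
      obtain ⟨c, rfl⟩ := h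
      exact ⟨c, by push_cast; ring⟩
    have h6 : 3 ≤ V π ((B : ℤ) : Eis) := (fin hπp hBe).le_multiplicity_of_pow_dvd h4
    omega
  obtain ⟨hi1, hi2⟩ := hi
  have h5 : (l * w ^ i).re % 3 = 1 ∨ (l * w ^ i).re % 3 = 2 := by omega
  rcases h5 with h5 | h5
  · refine key (-(l * w ^ i)) (hass.neg_left) ?_ ?_
    · rw [neg_re]; omega
    · rw [neg_im]; omega
  · exact key _ hass h5 hi1

theorem wt_congr {m n : ℤ} (h : m % 9 = n % 9) : wt m = wt n := by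
  obtain ⟨t, ht⟩ : ∃ t, m = n + 9 * t := ⟨(m - n) / 9, by omega⟩
  have h1 : (m - 1) / 3 = (n - 1) / 3 + 3 * t := by omega
  rw [wt, wt, h1]
  push_cast
  have h3 : (3 : ZMod 3) = 0 := by decide
  rw [h3]; ring

/-- three squares modulo `9` with product `1`, two of them equal -/
theorem sq_aux {a b c : ℤ} (ha : ¬ (3 : ℤ) ∣ a) (hc : ¬ (3 : ℤ) ∣ c)
    (h : a ^ 2 % 9 = b ^ 2 % 9) (h1 : (a * b * c) ^ 2 % 9 = 1) : a ^ 2 % 9 = c ^ 2 % 9 := by
  have e1 : (a ^ 2 * b ^ 2 * c ^ 2) % 9 = 1 := by rw [← h1]; congr 1; ring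
  have ra : a ^ 2 % 9 = 1 ∨ a ^ 2 % 9 = 4 ∨ a ^ 2 % 9 = 7 := by
    have : a % 9 = 1 ∨ a % 9 = 2 ∨ a % 9 = 4 ∨ a % 9 = 5 ∨ a % 9 = 7 ∨ a % 9 = 8 := by omega
    rcases this with h | h | h | h | h | h <;> simp [pow_two, Int.mul_emod, h]
  have rc : c ^ 2 % 9 = 1 ∨ c ^ 2 % 9 = 4 ∨ c ^ 2 % 9 = 7 := by
    have : c % 9 = 1 ∨ c % 9 = 2 ∨ c % 9 = 4 ∨ c % 9 = 5 ∨ c % 9 = 7 ∨ c % 9 = 8 := by omega
    rcases this with h | h | h | h | h | h <;> simp [pow_two, Int.mul_emod, h]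
  rw [Int.mul_emod, Int.mul_emod (a ^ 2)] at e1
  rw [← h] at e1
  rcases ra with h2 | h2 | h2 <;> rcases rc with h3 | h3 | h3 <;> rw [h2, h3] at e1 ⊢ <;>
    norm_num at e1

/-- a cube prime to `3` is `± 1` modulo `9` -/
theorem cube_mod {x : ℤ} (hx : ¬ (3 : ℤ) ∣ x) : x ^ 3 % 9 = 1 ∨ x ^ 3 % 9 = 8 := by
  have : x % 9 = 1 ∨ x % 9 = 2 ∨ x % 9 = 4 ∨ x % 9 = 5 ∨ x % 9 = 7 ∨ x % 9 = 8 := by omega
  rcases this with h | h | h | h | h | h <;> simp [pow_succ, Int.mul_emod, h]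

/-- the squares of `a` and `a x^3` modulo `9` -/
theorem sq_cube_mod {a x : ℤ} (hx : ¬ (3 : ℤ) ∣ x) : (a * x ^ 3) ^ 2 % 9 = a ^ 2 % 9 := by
  have h := cube_mod hx
  have e : (a * x ^ 3) ^ 2 = a ^ 2 * (x ^ 3 * x ^ 3) := by ring
  have h1 : (x ^ 3 * x ^ 3) % 9 = 1 := by
    rcases h with h | h <;> simp [Int.mul_emod, h]
  rw [e, Int.mul_emod, h1, mul_one, Int.emod_emod_of_dvd _ (dvd_refl _)]

/-- if `3` divides one of the three terms, all the squares agree modulo `9` -/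
theorem core {a b c x y z : ℤ} (ha : ¬ (3 : ℤ) ∣ a) (hc : ¬ (3 : ℤ) ∣ c)
    (hx : ¬ (3 : ℤ) ∣ x) (hy : ¬ (3 : ℤ) ∣ y) (hz : (3 : ℤ) ∣ z)
    (hs : a * x ^ 3 + b * y ^ 3 + c * z ^ 3 = 0) (h9 : (a * b * c) ^ 2 % 9 = 1) :
    a ^ 2 % 9 = b ^ 2 % 9 ∧ a ^ 2 % 9 = c ^ 2 % 9 := by
  have h1 : a ^ 2 % 9 = b ^ 2 % 9 := by
    rw [← sq_cube_mod (a := a) hx, ← sq_cube_mod (a := b) hy]
    obtain ⟨z', rfl⟩ := hz
    have : a * x ^ 3 = -(b * y ^ 3) - 27 * (c * z' ^ 3) := by linear_combination hs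
    rw [this]
    exact Int.modEq_iff_dvd.mpr ⟨-3 * (c * z' ^ 3) * (2 * (b * y ^ 3) + 27 * (c * z' ^ 3)), by ring⟩
  exact ⟨h1, sq_aux ha hc h1 h9⟩

/-- `3` divides `m` -/
theorem three_dvd {B m a b c : ℤ} (hB : C9 B) (hs : a + b + c = 0) (hp : a * b * c = B * m ^ 3) :
    (3 : ℤ) ∣ m := by
  by_contra hm
  have h1 := cube_mod hm
  have h2 : (B * m ^ 3) % 9 = 1 ∨ (B * m ^ 3) % 9 = 8 := by
    rcases hB with h | h <;> rcases h1 with h1 | h1 <;> simp [Int.mul_emod, h, h1]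
  rw [← hp] at h2
  obtain rfl : c = -(a + b) := by linarith
  have ra : a % 9 = 0 ∨ a % 9 = 1 ∨ a % 9 = 2 ∨ a % 9 = 3 ∨ a % 9 = 4 ∨ a % 9 = 5 ∨ a % 9 = 6 ∨
    a % 9 = 7 ∨ a % 9 = 8 := by omega
  have rb : b % 9 = 0 ∨ b % 9 = 1 ∨ b % 9 = 2 ∨ b % 9 = 3 ∨ b % 9 = 4 ∨ b % 9 = 5 ∨ b % 9 = 6 ∨
    b % 9 = 7 ∨ b % 9 = 8 := by omega
  obtain ⟨a', ha'⟩ : ∃ a', a = a % 9 + 9 * a' := ⟨a / 9, by omega⟩
  obtain ⟨b', hb'⟩ : ∃ b', b = b % 9 + 9 * b' := ⟨b / 9, by omega⟩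
  generalize a % 9 = r at *
  generalize b % 9 = s at *
  have e : (a * b * -(a + b)) % 9 = (r * s * -(r + s)) % 9 := by
    have e1 : a ≡ r [ZMOD 9] := Int.modEq_iff_dvd.mpr ⟨-a', by rw [ha']; ring⟩
    have e2 : b ≡ s [ZMOD 9] := Int.modEq_iff_dvd.mpr ⟨-b', by rw [hb']; ring⟩
    exact (e1.mul e2).mul (e1.add e2).neg
  rw [e] at h2
  rcases ra with rfl | rfl | rfl | rfl | rfl | rfl | rfl | rfl | rfl <;>
    rcases rb with rfl | rfl | rfl | rfl | rfl | rfl | rfl | rfl | rfl <;> revert h2 <;> decide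

theorem not_both {x y : ℤ} (h : IsCoprime x y) (hy : (3 : ℤ) ∣ y) : ¬ (3 : ℤ) ∣ x := by
  intro hx
  obtain ⟨u, v, huv⟩ := h
  have : (3 : ℤ) ∣ 1 := by
    rw [← huv]
    exact dvd_add (Dvd.dvd.mul_left hx _) (Dvd.dvd.mul_left hy _)
  omega

theorem last {B m : ℤ} {A a x : Fin 3 → ℤ} (hB : BOk B) (hs : A 0 + A 1 + A 2 = 0)
    (hp : A 0 * A 1 * A 2 = B * m ^ 3) (hA : ∀ k, A k = a k * x k ^ 3)
    (ha : ∏ k, a k = B) (hx : ∀ i j, i ≠ j → IsCoprime (x i) (x j)) (h9 : C9 B) :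
    ∀ k k', wt (a k ^ 2) = wt (a k' ^ 2) := by
  have hm := three_dvd h9 hs hp
  rw [Fin.prod_univ_three] at ha
  have ha' : ∀ k, ¬ (3 : ℤ) ∣ a k := by
    intro k hk
    apply hB.three
    rw [← ha]
    fin_cases k
    · exact Dvd.dvd.mul_right (Dvd.dvd.mul_right hk _) _
    · exact Dvd.dvd.mul_right (Dvd.dvd.mul_left hk _) _
    · exact Dvd.dvd.mul_left hk _
  have hB9 : B ^ 2 % 9 = 1 := by
    rcases h9 with h | h <;> simp [pow_two, Int.mul_emod, h]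
  have p3 : Prime (3 : ℤ) := Int.prime_three
  have hd : ∀ k, (3 : ℤ) ∣ A k → (3 : ℤ) ∣ x k := by
    intro k hk
    rw [hA k] at hk
    rcases p3.dvd_or_dvd hk with h | h
    · exact absurd h (ha' k)
    · exact p3.dvd_of_dvd_pow h
  have h3 : (3 : ℤ) ∣ A 0 * A 1 * A 2 := by
    rw [hp]
    exact Dvd.dvd.mul_left (Dvd.dvd.pow hm (by norm_num)) _
  have hs' : a 0 * x 0 ^ 3 + a 1 * x 1 ^ 3 + a 2 * x 2 ^ 3 = 0 := by
    rw [← hA, ← hA, ← hA]; exact hs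
  have key : a 0 ^ 2 % 9 = a 1 ^ 2 % 9 ∧ a 0 ^ 2 % 9 = a 2 ^ 2 % 9 := by
    rcases p3.dvd_or_dvd h3 with h | h
    · rcases p3.dvd_or_dvd h with h | h
      · have hz := hd 0 h
        have h1 := not_both (hx 1 0 (by decide)) hz
        have h2 := not_both (hx 2 0 (by decide)) hz
        obtain ⟨r1, r2⟩ := core (a := a 1) (b := a 2) (c := a 0) (ha' 1) (ha' 0) h1 h2 hz
          (by linear_combination hs') (by
            rw [← hB9, ← ha]; congr 1; ring)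
        exact ⟨r2.symm, r2.symm.trans r1⟩
      · have hz := hd 1 h
        have h1 := not_both (hx 0 1 (by decide)) hz
        have h2 := not_both (hx 2 1 (by decide)) hz
        obtain ⟨r1, r2⟩ := core (a := a 0) (b := a 2) (c := a 1) (ha' 0) (ha' 1) h1 h2 hz
          (by linear_combination hs') (by
            rw [← hB9, ← ha]; congr 1; ring)
        exact ⟨r2, r1⟩
    · have hz := hd 2 h
      have h1 := not_both (hx 0 2 (by decide)) hz
      have h2 := not_both (hx 1 2 (by decide)) hz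
      obtain ⟨r1, r2⟩ := core (a := a 0) (b := a 1) (c := a 2) (ha' 0) (ha' 2) h1 h2 hz
        (by linear_combination hs') (by
          rw [← hB9, ← ha])
      exact ⟨r1, r2⟩
  have hall : ∀ k, a k ^ 2 % 9 = a 0 ^ 2 % 9 := by
    intro k
    fin_cases k
    · rfl
    · exact key.1.symm
    · exact key.2.symm
  intro k k'
  exact wt_congr ((hall k).trans (hall k').symm)

end FDC

open _root_.Pool.Agent.PT.FDC in
theorem FDC_thm : FDC := by
  intro B m A hB hA hsum hprod hcop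
  choose a x hax hcf using fun k => exists_cf (A k) (hA k)
  have ha0 : ∀ k, a k ≠ 0 := by
    intro k h
    apply hA k
    rw [hax k, h, zero_mul]
  have hx0 : ∀ k, x k ≠ 0 := by
    intro k h
    apply hA k
    rw [hax k, h]; ring
  have hm0 : m ≠ 0 := by
    rintro rfl
    have : A 0 * A 1 * A 2 = 0 := by rw [hprod]; ring
    exact mul_ne_zero (mul_ne_zero (hA 0) (hA 1)) (hA 2) this
  have hca : ∀ i j, i ≠ j → IsCoprime (a i) (a j) := by
    intro i j hij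
    have h := hcop i j hij
    rw [hax i, hax j] at h
    exact h.of_mul_left_left.of_mul_right_left
  have hcx : ∀ i j, i ≠ j → IsCoprime (x i) (x j) := by
    intro i j hij
    have h := hcop i j hij
    rw [hax i, hax j] at h
    exact (h.of_mul_left_right.of_mul_right_right.of_isCoprime_of_dvd_left
      (dvd_pow_self _ (by norm_num))).of_isCoprime_of_dvd_right (dvd_pow_self _ (by norm_num))
  have hP : CF (a 0 * a 1 * a 2) := CF.mul (CF.mul (hcf 0) (hcf 1) (hca 0 1 (by decide))) (hcf 2)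
    (IsCoprime.mul_left (hca 0 2 (by decide)) (hca 1 2 (by decide)))
  have hu := cf_unique (cf_of_BOk hB) hP hm0
    (mul_ne_zero (mul_ne_zero (hx0 0) (hx0 1)) (hx0 2)) (by
      rw [← hprod, hax 0, hax 1, hax 2]; ring)
  rcases hu with hu | hu
  · have hprod' : ∏ k, a k = B := by rw [Fin.prod_univ_three, hu]
    exact ⟨a, x, hax, hprod', hca, hcx, last hB hsum hprod hax hprod' hcx⟩
  · have hprod' : ∏ k, (-a k) = B := by rw [Fin.prod_univ_three]; linear_combination -hu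
    have hax' : ∀ k, A k = (-a k) * (-x k) ^ 3 := by intro k; rw [hax k]; ring
    have hcx' : ∀ i j, i ≠ j → IsCoprime (-x i) (-x j) := fun i j h =>
      (hcx i j h).neg_left.neg_right
    exact ⟨fun k => -a k, fun k => -x k, hax', hprod',
      fun i j h => (hca i j h).neg_left.neg_right, hcx',
      last hB hsum hprod hax' hprod' hcx'⟩

end Pool.Agent.PT

end

section

/-!
# NFIX: the fixed `S`-units
-/

set_option autoImplicit false

namespace Pool.Agent.PT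

open Pool.Agent.Lib_helper18 Pool.Agent.Lib_helper18.Eis Pool.Agent.Lib_helper84.Cub
open IsDedekindDomain NumberField

namespace NFIX

theorem uni_prime : ∀ v : Pl, Prime (uni v)
  | none => prime_lam
  | some π => π.2.1

theorem lam_dvd_three : lam ∣ (3 : Eis) :=
  ⟨conj lam, by
    rw [mul_conj, norm_lam]
    rfl⟩

theorem uni_assoc (hSPP : SPP) {v v' : Pl} (h : Associated (uni v) (uni v')) : v = v' := by
  obtain ⟨-, h2, -, h4, -, -⟩ := hSPP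
  rcases v with _ | π <;> rcases v' with _ | π'
  · rfl
  · exact absurd (h.symm.dvd.trans lam_dvd_three) (h4 π').1
  · exact absurd (h.dvd.trans lam_dvd_three) (h4 π).1
  · rw [h2 π π' h]

theorem dvd_lam_of_dvd_three {l : Eis} (hl : Prime l) (h : l ∣ 3) : l ∣ lam := by
  have h1 : lam * conj lam = 3 := by
    rw [mul_conj, norm_lam]
    rfl
  have h2 : conj lam = -w ^ 2 * lam := by decide
  rw [← h1, h2] at h
  have h3 : lam * (-w ^ 2 * lam) = -w ^ 2 * lam ^ 2 := by ring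
  rw [h3] at h
  have hu : IsUnit (-w ^ 2) := by
    rw [isUnit_iff_norm]
    decide
  exact hl.dvd_of_dvd_pow ((hu.dvd_mul_left).1 h)

theorem exists_place (hSPP : SPP) (l : Eis) (hl : Prime l) : ∃ v : Pl, Associated l (uni v) := by
  by_cases h : l ∣ 3
  · exact ⟨none, hl.associated_of_dvd prime_lam (dvd_lam_of_dvd_three hl h)⟩
  · obtain ⟨π, hπ⟩ := hSPP.1 l hl h
    exact ⟨some π, hπ⟩

/-- elements with the same valuations -/
theorem dvd_of_V (hSPP : SPP) {a b : Eis} (ha : a ≠ 0) (hb : b ≠ 0)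
    (h : ∀ v : Pl, V (uni v) a = V (uni v) b) : a ∣ b := by
  rw [UniqueFactorizationMonoid.dvd_iff_emultiplicity_le ha]
  intro p hp
  obtain ⟨v, hv⟩ := exists_place hSPP p hp
  rw [← emultiplicity_eq_of_associated_left hv, ← emultiplicity_eq_of_associated_left hv,
    (fin (uni_prime v) ha).emultiplicity_eq_multiplicity,
    (fin (uni_prime v) hb).emultiplicity_eq_multiplicity]
  exact le_of_eq (congrArg _ (h v))

theorem unit_pow_six {x : Eis} (hx : IsUnit x) : x ^ 6 = 1 := by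
  obtain ⟨i, -, h⟩ := unit_cases hx
  have h1 : (w ^ i) ^ 6 = 1 := by
    rw [← pow_mul, mul_comm, show 6 * i = 3 * (2 * i) by ring, pow_mul, w_cube, one_pow]
  rcases h with rfl | rfl
  · exact h1
  · rw [Even.neg_pow (by decide), h1]

section

variable {x : ℤ} {L : Type} [Field L] [NumberField L] {ι : Eis →+* L} {θ : L}
  {σ c : L ≃ₐ[ℚ] L}

/-- the valuations at the primes above a place -/
theorem val_lt_iff (hSPP : SPP) (hNTR : NTR) (hx0 : x ≠ 0) (hx3 : ¬ (3 : ℤ) ∣ x)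
    (hC : CubF x L ι θ σ c) {v : Pl} {P : HeightOneSpectrum (𝓞 L)} (hP : P ∈ Abv ι v) (a : Eis) :
    P.valuation L (ι a) < 1 ↔ uni v ∣ a := by
  have hN := hNTR x L ι θ σ c hx0 hx3 hC
  obtain ⟨v', hP', h'⟩ := hN.2.1 P
  have hv : v' = v := uni_assoc hSPP
    ((uni_prime v').associated_of_dvd (uni_prime v) (h' _ hP))
  subst hv
  refine ⟨h' a, ?_⟩
  rintro ⟨d, rfl⟩
  rw [map_mul, map_mul]
  exact lt_of_le_of_lt (mul_le_of_le_one_right' (hN.1 P d)) hP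

theorem abv_unique (hSPP : SPP) (hNTR : NTR) (hx0 : x ≠ 0) (hx3 : ¬ (3 : ℤ) ∣ x)
    (hC : CubF x L ι θ σ c) {v v' : Pl} {P : HeightOneSpectrum (𝓞 L)} (hP : P ∈ Abv ι v)
    (hP' : P ∈ Abv ι v') : v = v' :=
  uni_assoc hSPP ((uni_prime v).associated_of_dvd (uni_prime v')
    ((val_lt_iff hSPP hNTR hx0 hx3 hC hP _).1 hP'))

theorem val_eq (hSPP : SPP) (hNTR : NTR) (hx0 : x ≠ 0) (hx3 : ¬ (3 : ℤ) ∣ x)
    (hC : CubF x L ι θ σ c) {v : Pl} {P : HeightOneSpectrum (𝓞 L)} (hP : P ∈ Abv ι v) {a : Eis}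
    (ha : a ≠ 0) : P.valuation L (ι a) = P.valuation L (ι (uni v)) ^ V (uni v) a := by
  have hN := hNTR x L ι θ σ c hx0 hx3 hC
  obtain ⟨d, hd, hnd⟩ := V_split (uni_prime v) ha
  have h1 : P.valuation L (ι d) = 1 := by
    refine le_antisymm (hN.1 P d) (not_lt.1 fun h => hnd ?_)
    exact (val_lt_iff hSPP hNTR hx0 hx3 hC hP d).1 h
  conv_lhs => rw [hd]
  rw [map_mul, map_pow, map_mul, map_pow, h1, mul_one]

/-- the valuations of an `S`-unit outside of `S` -/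
theorem V_eq_of_unit (hSPP : SPP) (hNTR : NTR) (hx0 : x ≠ 0) (hx3 : ¬ (3 : ℤ) ∣ x)
    (hC : CubF x L ι θ σ c) {S : Finset Pl} {u : Lˣ} (hu : u ∈ SU ι S) {a b : Eis} (ha : a ≠ 0)
    (hb : b ≠ 0) (h : (u : L) * ι b = ι a) {v : Pl} (hv : v ∉ S) :
    V (uni v) a = V (uni v) b := by
  have hN := hNTR x L ι θ σ c hx0 hx3 hC
  obtain ⟨P, hP⟩ := (hN.2.2.2.1 v).2
  have hPS : P ∉ ⋃ v ∈ S, Abv ι v := by
    simp only [Set.mem_iUnion, not_exists]
    intro v' hv' hP'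
    have := abv_unique hSPP hNTR hx0 hx3 hC hP hP'
    subst this
    exact hv hv'
  have h1 : P.valuation L (u : L) = 1 := hu P hPS
  have h2 := congrArg (P.valuation L) h
  rw [map_mul, h1, one_mul, val_eq hSPP hNTR hx0 hx3 hC hP ha,
    val_eq hSPP hNTR hx0 hx3 hC hP hb] at h2
  have h0 : P.valuation L (ι (uni v)) ≠ 0 := by
    rw [Valuation.ne_zero_iff]
    intro h3
    exact (uni_prime v).ne_zero (hC.inj (h3.trans (map_zero ι).symm))
  have h3 : P.valuation L (ι (uni v)) < 1 := hP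
  exact (pow_right_injective₀ (zero_lt_iff.2 h0) h3.ne h2).symm

end

/-- independence of the representation -/
theorem V_sub {L : Type} [Field L] {ι : Eis →+* L} (hι : Function.Injective ι) {u : L}
    {a b a' b' : Eis} (ha : a ≠ 0) (hb : b ≠ 0) (ha' : a' ≠ 0) (hb' : b' ≠ 0)
    (h : u * ι b = ι a) (h' : u * ι b' = ι a') {l : Eis} (hl : Prime l) :
    (V l a : ℤ) - V l b = (V l a' : ℤ) - V l b' := by
  have h1 : a * b' = a' * b := by
    apply hι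
    rw [map_mul, map_mul, ← h, ← h']
    ring
  have h2 := congrArg (V l) h1
  rw [V_mul hl ha hb', V_mul hl ha' hb] at h2
  omega

end NFIX

open _root_.Pool.Agent.PT.NFIX in
/-- NFIX: the fixed `S`-units. -/
theorem NFIX_thm (hSPP : SPP) (hNHN : NHN) (hNTR : NTR) : NFIX := by
  classical
  intro x L _ _ ι θ σ c hx0 hx3 hC S
  have hN := hNTR x L ι θ σ c hx0 hx3 hC
  have hinj := hC.inj
  -- elements of `Z[w]`
  have h1 : ∀ (u : Lˣ) (a : Eis), (u : L) = ι a → (∀ v : Pl, uni v ∣ a → v ∈ S) →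
      u ∈ SF ι σ S := by
    intro u a hu ha
    refine ⟨?_, ?_⟩
    · intro P hP
      change P.valuation L (u : L) = 1
      rw [hu]
      refine le_antisymm (hN.1 P a) (not_lt.1 fun hlt => hP ?_)
      obtain ⟨v, hPv, hv⟩ := hN.2.1 P
      exact Set.mem_iUnion₂.2 ⟨v, ha v (hv a hlt), hPv⟩
    · apply Units.ext
      change σ (u : L) = u
      rw [hu, hC.sι]
  have h2 : ∀ u ∈ SF ι σ S, ∃ a b : Eis, a ≠ 0 ∧ b ≠ 0 ∧ (u : L) * ι b = ι a := by
    rintro u ⟨-, hu⟩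
    have hσ : σ (u : L) = u := congrArg Units.val hu
    obtain ⟨a, b, hb, hab⟩ := (hNHN x L ι θ σ c hx0 hC).2.1 u hσ
    refine ⟨a, b, ?_, hb, hab⟩
    rintro rfl
    rw [map_zero] at hab
    rcases mul_eq_zero.1 hab with h | h
    · exact u.ne_zero h
    · exact hb (hinj (h.trans (map_zero ι).symm))
  refine ⟨h1, h2, ?_⟩
  -- the valuation map
  choose! A B hA hB hAB using h2
  let F : Additive (SF ι σ S) →+ (S → ℤ) :=
    { toFun := fun u v => (V (uni v) (A u.toMul) : ℤ) - V (uni v) (B u.toMul)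
      map_zero' := by
        funext v
        have h3 : ((1 : SF ι σ S) : Lˣ) ∈ SF ι σ S := (1 : SF ι σ S).2
        have h4 : (((1 : SF ι σ S) : Lˣ) : L) * ι 1 = ι 1 := by
          rw [map_one, mul_one]
          rfl
        have := V_sub hinj (hA _ h3) (hB _ h3) one_ne_zero one_ne_zero (hAB _ h3) h4
          (uni_prime v)
        change (V (uni v) (A ((1 : SF ι σ S) : Lˣ)) : ℤ) - V (uni v) (B ((1 : SF ι σ S) : Lˣ)) = 0
        rw [this, sub_self]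
      map_add' := by
        intro u u'
        funext v
        have hu := u.toMul.2
        have hu' := u'.toMul.2
        have huu := (u.toMul * u'.toMul).2
        have h4 : (((u.toMul * u'.toMul : SF ι σ S) : Lˣ) : L) *
            ι (B u.toMul * B u'.toMul) = ι (A u.toMul * A u'.toMul) := by
          rw [map_mul, map_mul, ← hAB _ hu, ← hAB _ hu']
          change ((u.toMul : Lˣ) : L) * ((u'.toMul : Lˣ) : L) * _ = _
          ring
        have h5 := V_sub hinj (hA _ huu) (hB _ huu) (mul_ne_zero (hA _ hu) (hA _ hu'))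
          (mul_ne_zero (hB _ hu) (hB _ hu')) (hAB _ huu) h4 (uni_prime v)
        rw [V_mul (uni_prime v) (hA _ hu) (hA _ hu'), V_mul (uni_prime v) (hB _ hu) (hB _ hu')]
          at h5
        change (V (uni v) (A ((u.toMul * u'.toMul : SF ι σ S) : Lˣ)) : ℤ) -
          V (uni v) (B ((u.toMul * u'.toMul : SF ι σ S) : Lˣ)) =
          ((V (uni v) (A u.toMul) : ℤ) - V (uni v) (B u.toMul)) +
          ((V (uni v) (A u'.toMul) : ℤ) - V (uni v) (B u'.toMul))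
        rw [h5]
        push_cast
        ring }
  have hF : ∀ (u : SF ι σ S) (v : S), F (Additive.ofMul u) v =
      (V (uni v) (A (u : Lˣ)) : ℤ) - V (uni v) (B (u : Lˣ)) := fun _ _ => rfl
  let G : Additive (SF ι σ S) →ₗ[ℤ] (S → ℤ) := F.toIntLinearMap
  have hG : ∀ u, G u = F u := fun _ => rfl
  -- surjectivity
  have hsurj : Function.Surjective G := by
    rw [← LinearMap.range_eq_top, ← top_le_iff, ← (Pi.basisFun ℤ S).span_eq, Submodule.span_le]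
    rintro _ ⟨v, rfl⟩
    rw [Pi.basisFun_apply]
    have hne : ι (uni v) ≠ 0 := fun h => (uni_prime v).ne_zero (hinj (h.trans (map_zero ι).symm))
    have hmem : Units.mk0 (ι (uni v)) hne ∈ SF ι σ S := by
      refine h1 _ (uni v) rfl fun v' hv' => ?_
      have := uni_assoc hSPP ((uni_prime v').associated_of_dvd (uni_prime v) hv')
      rw [this]
      exact v.2
    refine ⟨Additive.ofMul ⟨_, hmem⟩, ?_⟩
    funext v'
    rw [hG, hF]
    have h3 : ((Units.mk0 (ι (uni v)) hne : Lˣ) : L) * ι 1 = ι (uni v) := by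
      rw [map_one, mul_one]
      rfl
    rw [V_sub hinj (hA _ hmem) (hB _ hmem) (uni_prime v).ne_zero one_ne_zero (hAB _ hmem) h3
      (uni_prime v'), V_eq_zero (fun h => (uni_prime v').not_isUnit (isUnit_of_dvd_one h))]
    by_cases hvv : v' = v
    · subst hvv
      rw [V_self, Pi.single_eq_same]
      norm_num
    · rw [Pi.single_eq_of_ne hvv, V_eq_zero]
      · norm_num
      · intro h
        exact hvv (Subtype.ext (uni_assoc hSPP
          ((uni_prime v').associated_of_dvd (uni_prime v) h)))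
  -- the kernel
  have hker : Module.rank ℤ (LinearMap.ker G) = 0 := by
    rw [rank_eq_zero_iff]
    rintro ⟨u, hu⟩
    refine ⟨6, by norm_num, ?_⟩
    apply Subtype.ext
    have hu0 : G u = 0 := hu
    have hmem := u.toMul.2
    have hVS : ∀ v : Pl, V (uni v) (A u.toMul) = V (uni v) (B u.toMul) := by
      intro v
      by_cases hv : v ∈ S
      · have h3 := congrFun hu0 ⟨v, hv⟩
        have h4 : (V (uni v) (A u.toMul) : ℤ) - V (uni v) (B u.toMul) = 0 := h3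
        omega
      · exact V_eq_of_unit hSPP hNTR hx0 hx3 hC hmem.1 (hA _ hmem) (hB _ hmem) (hAB _ hmem) hv
    obtain ⟨d, hd⟩ := dvd_of_V hSPP (hB _ hmem) (hA _ hmem) fun v => (hVS v).symm
    obtain ⟨d', hd'⟩ := dvd_of_V hSPP (hA _ hmem) (hB _ hmem) hVS
    have hdd : d * d' = 1 := by
      have h3 : B u.toMul * (d * d') = B u.toMul * 1 := by
        rw [← mul_assoc, ← hd, ← hd', mul_one]
      exact mul_left_cancel₀ (hB _ hmem) h3
    have hud : ((u.toMul : Lˣ) : L) = ι d := by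
      have h3 := hAB _ hmem
      have h4 : ι (B u.toMul) ≠ 0 := fun h => hB _ hmem (hinj (h.trans (map_zero ι).symm))
      rw [hd, map_mul, mul_comm (ι _)] at h3
      exact mul_right_cancel₀ h4 h3
    have h6 : u.toMul ^ 6 = 1 := by
      apply Subtype.ext
      apply Units.ext
      change ((u.toMul : Lˣ) : L) ^ 6 = 1
      rw [hud, ← map_pow, unit_pow_six (IsUnit.of_mul_eq_one _ hdd), map_one]
    change (6 : ℤ) • u = 0
    exact_mod_cast congrArg Additive.ofMul h6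
  have hrank : Module.rank ℤ (Additive (SF ι σ S)) = S.card := by
    rw [LinearMap.rank_eq_of_surjective hsurj, hker, add_zero, rank_fun']
    simp
  rw [Module.finrank, hrank]
  exact Cardinal.toNat_natCast _

end Pool.Agent.PT

end

section

/-!
# PT3, module FIN0: sum over the classes, `n` prime to `3`
-/

set_option autoImplicit false

namespace Pool.Agent.PT3

open Pool.Agent.Lib_helper18 Pool.Agent.Lib_helper18.Eis Pool.Agent.Lib_helper84.Cub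
open Pool.Agent.PT Pool.Agent.PTE

namespace FIN0

/-- there are two values `w0` with `a + w0 ≠ 0` -/
theorem two_le (a : ZMod 3) : 2 ≤ Nat.card {w0 : ZMod 3 // a + w0 ≠ 0} := by
  rw [Nat.card_eq_fintype_card]
  revert a
  decide

/-- there is a value `w0 ≠ 0` with `a + w0 ≠ 0` -/
theorem exists_w0 (a : ZMod 3) : ∃ w0 : ZMod 3, w0 ≠ 0 ∧ a + w0 ≠ 0 := by
  revert a
  decide

/-- a smaller density -/
theorem dens_mono {S : Set ℕ} {δ δ' : ℝ} (h : RI.DensityGE S δ) (hδ : δ' ≤ δ) :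
    RI.DensityGE S δ' := by
  obtain ⟨C, h⟩ := h
  refine ⟨C, fun s hs hs2 => le_trans ?_ (h s hs hs2)⟩
  have h0 : 0 ≤ Real.log (1 / (s - 1)) := by
    apply Real.log_nonneg
    rw [le_div_iff₀ (by linarith)]
    linarith
  have h1 := mul_le_mul_of_nonneg_right hδ h0
  linarith

/-- sum over the classes, with two values of `w0` -/
theorem sum_two (hDADD : DADD) {m : ℕ} (a : ZMod 3) (D : ZMod 3 → (Fin m → ZMod 3) → Prop)
    (hD : ∀ w0, a + w0 ≠ 0 → 2 ^ m ≤ Nat.card {c : Fin m → ZMod 3 // D w0 c})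
    (I : ZMod 3 → (Fin m → ZMod 3) → ℕ → Prop) (T : Set ℕ)
    (hI : ∀ w0 w0' c c' q, I w0 c q → I w0' c' q → w0 = w0' ∧ c = c')
    (h : ∀ w0 c, a + w0 ≠ 0 → D w0 c → RI.DensityGE {q : ℕ | I w0 c q ∧ q ∈ T} (1 / (24 * 3 ^ m))) :
    RI.DensityGE T (2 ^ m / (12 * 3 ^ m)) := by
  classical
  have h1 := hDADD (Σ w : {w0 : ZMod 3 // a + w0 ≠ 0}, {c : Fin m → ZMod 3 // D w.1 c})
    (fun i => {q : ℕ | I i.1.1 i.2.1 q ∧ q ∈ T}) T (1 / (24 * 3 ^ m)) (by positivity)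
    (fun i => h _ _ i.1.2 i.2.2) (fun i q hq => hq.2) (fun i j hij => by
      rw [Set.disjoint_left]
      rintro q ⟨h1, -⟩ ⟨h2, -⟩
      apply hij
      obtain ⟨⟨w, hw⟩, ⟨c, hc⟩⟩ := i
      obtain ⟨⟨w', hw'⟩, ⟨c', hc'⟩⟩ := j
      obtain ⟨rfl, rfl⟩ := hI _ _ _ _ _ h1 h2
      rfl) (2 * 2 ^ m) (by
      rw [Fintype.card_sigma]
      have h2 := two_le a
      rw [Nat.card_eq_fintype_card] at h2
      calc 2 * 2 ^ m ≤ Fintype.card {w0 : ZMod 3 // a + w0 ≠ 0} * 2 ^ m :=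
            Nat.mul_le_mul_right _ h2
        _ = ∑ w : {w0 : ZMod 3 // a + w0 ≠ 0}, 2 ^ m := by
            rw [Finset.sum_const, Finset.card_univ, smul_eq_mul]
        _ ≤ _ := Finset.sum_le_sum fun w _ => by
            have h3 := hD w.1 w.2
            rwa [Nat.card_eq_fintype_card] at h3)
  refine dens_mono h1 (le_of_eq ?_)
  push_cast
  rw [mul_one_div, div_eq_div_iff (by positivity) (by positivity)]
  ring

/-- sum over the classes, with one value of `w0` -/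
theorem sum_one (hDADD : DADD) {m : ℕ} (D : (Fin m → ZMod 3) → Prop)
    (hD : 2 ^ m ≤ Nat.card {c : Fin m → ZMod 3 // D c})
    (I : (Fin m → ZMod 3) → ℕ → Prop) (T : Set ℕ)
    (hI : ∀ c c' q, I c q → I c' q → c = c')
    (h : ∀ c, D c → RI.DensityGE {q : ℕ | I c q ∧ q ∈ T} (1 / (30 * 3 ^ m))) :
    RI.DensityGE T (2 ^ m / (30 * 3 ^ m)) := by
  classical
  have h1 := hDADD {c : Fin m → ZMod 3 // D c}
    (fun i => {q : ℕ | I i.1 q ∧ q ∈ T}) T (1 / (30 * 3 ^ m)) (by positivity)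
    (fun i => h _ i.2) (fun i q hq => hq.2) (fun i j hij => by
      rw [Set.disjoint_left]
      rintro q ⟨h1, -⟩ ⟨h2, -⟩
      exact hij (Subtype.ext (hI _ _ _ h1 h2))) (2 ^ m) (by
      rwa [Nat.card_eq_fintype_card] at hD)
  refine dens_mono h1 (le_of_eq ?_)
  push_cast
  rw [mul_one_div]

theorem incl_unique {m : ℕ} (π : Fin m → PP) (w0 w0' : ZMod 3) (c c' : Fin m → ZMod 3) (q : ℕ)
    (h : InCl π w0 c q) (h' : InCl π w0' c' q) : w0 = w0' ∧ c = c' :=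
  ⟨h.2.1.symm.trans h'.2.1, funext fun i => (h.2.2 i).symm.trans (h'.2.2 i)⟩

theorem incls_unique {m : ℕ} (π : Fin m → PP) (w0 w0' : ZMod 3) (c c' : Fin m → ZMod 3) (q : ℕ)
    (h : InClS π w0 c q) (h' : InClS π w0' c' q) : w0 = w0' ∧ c = c' :=
  ⟨h.2.1.symm.trans h'.2.1, funext fun i => (h.2.2 i).symm.trans (h'.2.2 i)⟩

theorem weaker {T : Set ℕ} {m : ℕ} (h : RI.DensityGE T (2 ^ m / (12 * 3 ^ m))) :
    RI.DensityGE T (2 ^ m / (30 * 3 ^ m)) := by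
  refine dens_mono h ?_
  apply div_le_div_of_nonneg_left (by positivity) (by positivity)
  have : (0 : ℝ) < 3 ^ m := by positivity
  linarith

end FIN0

open _root_.Pool.Agent.PT3.FIN0 in
/-- FIN0: `n` prime to `3`. -/
theorem FIN0_thm (hFCL0 : FCL0) (hFCS0 : FCS0) (hEMA0 : EMA0) (hDADD : DADD) : FIN0 := by
  intro n m k π p e r f hNF
  have hev : Even k → RI.DensityGE {q : ℕ | ¬ ∃ X Y : ℚ, X ^ 3 + Y ^ 3 = (n : ℚ) * q}
      (2 ^ m / (12 * 3 ^ m)) := by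
    intro hk
    exact sum_two hDADD (wt ((n : ℤ) ^ 2)) (fun _ c => (Mp n π p e r none c).det ≠ 0)
      (fun _ _ => hEMA0 n m k π p e r) (fun w0 c q => InCl π w0 c q) _ (incl_unique π)
      (fun w0 c hw hc => hFCL0 n m k π p e r f w0 c hNF hk hw hc)
  refine ⟨hev, ?_⟩
  rcases Nat.even_or_odd k with hk | hk
  · exact weaker (hev hk)
  · obtain ⟨w0, h0, hw⟩ := exists_w0 (wt ((n : ℤ) ^ 2))
    exact sum_one hDADD (fun c => (Mp n π p e r none c).det ≠ 0) (hEMA0 n m k π p e r)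
      (fun c q => InClS π w0 c q) _ (fun c c' q h h' => (incls_unique π w0 w0 c c' q h h').2)
      (fun c hc => hFCS0 n m k π p e r f w0 c hNF hk (Or.inl h0) hw hc)

end Pool.Agent.PT3

end

section

/-!
# PT3: the theorem for all `n`
-/

set_option autoImplicit false

namespace Pool.Agent.PT3

open Pool.Agent.Lib_helper18 Pool.Agent.Lib_helper18.Eis Pool.Agent.Lib_helper84.Cub
open Pool.Agent.PT Pool.Agent.PTE

namespace MAI3

/-- the density statements give the two inequalities -/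
theorem ineq {N m : ℕ} {d : ℝ} (c : ℝ) (_hc : 0 < c) (hd : d = 2 ^ m / (c * 3 ^ m))
    (h : RI.DensityGE {q : ℕ | ¬ ∃ X Y : ℚ, X ^ 3 + Y ^ 3 = (N : ℚ) * q} d) :
    ∃ C : ℝ, ∀ s : ℝ, 1 < s → s ≤ 2 →
      (2 / 3) ^ m / c * Real.log (1 / (s - 1)) - C ≤
      ∑' q : {q : ℕ // q.Prime ∧ ¬ ∃ X Y : ℚ, X ^ 3 + Y ^ 3 = (N : ℚ) * q}, (q : ℝ) ^ (-s) := by
  obtain ⟨C, hC⟩ := h
  refine ⟨C, fun s hs1 hs2 => ?_⟩
  have := hC s hs1 hs2
  have e : ((2 : ℝ) / 3) ^ m / c = d := by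
    rw [hd, div_pow, div_div, mul_comm ((3 : ℝ) ^ m) c]
  rw [e]
  exact this

/-- multiplying by a cube -/
theorem set_eq {N M T : ℕ} (hT : 0 < T) (h : N = M * T ^ 3) :
    {q : ℕ | ¬ ∃ X Y : ℚ, X ^ 3 + Y ^ 3 = (M : ℚ) * q} =
      {q : ℕ | ¬ ∃ X Y : ℚ, X ^ 3 + Y ^ 3 = (N : ℚ) * q} := by
  ext q
  simp only [Set.mem_setOf_eq]
  rw [h, MAINT.sum_cubes_iff hT q]

/-- the exponents of the primes other than `3` -/
theorem card_eq (N r : ℕ) (hr : r ≠ 0) :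
    Nat.card {p : ℕ // p.Prime ∧ p % 3 = r ∧ ¬ 3 ∣ (N / 3 ^ N.factorization 3).factorization p} =
      Nat.card {p : ℕ // p.Prime ∧ p % 3 = r ∧ ¬ 3 ∣ N.factorization p} := by
  apply Nat.card_congr
  apply Equiv.subtypeEquivRight
  intro p
  have h1 : p % 3 = r → (N / 3 ^ N.factorization 3).factorization p = N.factorization p := by
    intro h
    have h3 : p ≠ 3 := by
      rintro rfl
      exact hr h.symm
    rw [Nat.factorization_ordCompl, Finsupp.erase_ne h3]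
  constructor
  · rintro ⟨a, b, c⟩
    exact ⟨a, b, by rwa [h1 b] at c⟩
  · rintro ⟨a, b, c⟩
    exact ⟨a, b, by rwa [h1 b]⟩

end MAI3

open _root_.Pool.Agent.PT3.MAI3 in
/-- MAI3: the theorem for all `n`. -/
theorem MAI3_thm (hENF : ENF) (hFIN0 : FIN0) (hFIN3 : FIN3) : MAIN3 := by
  intro N hN
  set v := N.factorization 3 with hv
  have hN0 : 3 ^ v * (N / 3 ^ v) = N := Nat.ordProj_mul_ordCompl_eq_self N 3
  have h3 : ¬ 3 ∣ N / 3 ^ v := Nat.not_dvd_ordCompl Nat.prime_three hN.ne'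
  have hpos : 0 < N / 3 ^ v := Nat.ordCompl_pos 3 hN.ne'
  have hm := card_eq N 1 (by norm_num)
  have hk := card_eq N 2 (by norm_num)
  rw [← hv] at hm hk
  obtain ⟨n, t, π, p, e, r, f, hn, ht, hNn, hNF, -⟩ := hENF (N / 3 ^ v) hpos h3
  rw [← hm, ← hk]
  have hvd := Nat.div_add_mod v 3
  have hT : 0 < t * 3 ^ (v / 3) := by positivity
  rcases Nat.eq_zero_or_pos (v % 3) with h0 | h0
  · have hN1 : N = n * (t * 3 ^ (v / 3)) ^ 3 := by
      rw [← hN0, hNn]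
      have : 3 ^ v = (3 ^ (v / 3)) ^ 3 := by
        rw [← pow_mul]
        congr 1
        omega
      rw [this]
      ring
    have hS := set_eq hT hN1
    obtain ⟨f1, f2⟩ := hFIN0 n _ _ π p e r f hNF
    rw [hS] at f1 f2
    refine ⟨ineq 30 (by norm_num) rfl f2, fun hE => ineq 12 (by norm_num) rfl (f1 ?_)⟩
    rwa [h0, zero_add] at hE
  · have hh : v % 3 = 1 ∨ v % 3 = 2 := by omega
    have hN1 : N = (3 ^ (v % 3) * n) * (t * 3 ^ (v / 3)) ^ 3 := by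
      rw [← hN0, hNn]
      have : 3 ^ v = 3 ^ (v % 3) * (3 ^ (v / 3)) ^ 3 := by
        rw [← pow_mul, ← pow_add]
        congr 1
        omega
      rw [this]
      ring
    have hS := set_eq hT hN1
    obtain ⟨f1, f2⟩ := hFIN3 (v % 3) n _ _ π p e r f hNF hh
    rw [hS] at f1 f2
    exact ⟨ineq 30 (by norm_num) rfl f2, fun hE => ineq 12 (by norm_num) rfl (f1 hE)⟩

end Pool.Agent.PT3

end

section

/-!
# PTE: the theorem for all `n` prime to `3`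
-/

set_option autoImplicit false

namespace Pool.Agent.PTE

open Pool.Agent.Lib_helper18 Pool.Agent.Lib_helper18.Eis Pool.Agent.Lib_helper84.Cub
open Pool.Agent.PT

/-- MAINS: the theorem for all `n` prime to `3`. -/
theorem MAINS_thm (hENF : ENF) (hFINA : FINA) (hFINAS : FINAS) : MAINS := by
  intro N hN h3
  obtain ⟨n, t, π, p, e, r, f, hn, ht, hNn, hNF, hl⟩ := hENF N hN h3
  have key : RI.DensityGE {q : ℕ | ¬ ∃ X Y : ℚ, X ^ 3 + Y ^ 3 = (n : ℚ) * q}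
      (1 / (30 * 3 ^ Nat.card {p : ℕ // p.Prime ∧ p % 3 = 1 ∧ ¬ 3 ∣ N.factorization p})) := by
    rcases Nat.even_or_odd (Nat.card {p : ℕ // p.Prime ∧ p % 3 = 2 ∧
      ¬ 3 ∣ N.factorization p}) with h | h
    · refine PT.DENS.dens_mono (hFINA n _ _ π p e r f hNF (Or.inl h)) ?_
      apply one_div_le_one_div_of_le
      · positivity
      · have h1 : (0 : ℝ) < 3 ^ Nat.card {p : ℕ // p.Prime ∧ p % 3 = 1 ∧
          ¬ 3 ∣ N.factorization p} := by positivity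
        linarith
    · exact hFINAS n _ _ π p e r f hNF h
  obtain ⟨C, hC⟩ := key
  refine ⟨C, fun s hs1 hs2 => ?_⟩
  have hset : {q : ℕ | ¬ ∃ X Y : ℚ, X ^ 3 + Y ^ 3 = (n : ℚ) * q} =
      {q : ℕ | ¬ ∃ X Y : ℚ, X ^ 3 + Y ^ 3 = (N : ℚ) * q} := by
    ext q
    simp only [Set.mem_setOf_eq]
    rw [hNn, MAINT.sum_cubes_iff ht q]
  have := hC s hs1 hs2
  rw [hset] at this
  exact this

end Pool.Agent.PTE

end

section

/-!
# Prime power twists: `AdmC` and `Adm` for `n q^E`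
-/

set_option autoImplicit false

namespace Pool.Agent.PTL

open Pool.Agent.PT Pool.Agent.Lib_helper18 Pool.Agent.Lib_helper18.Eis Pool.Agent.Lib_helper84.Cub

/-- EAE: `AdmC` and `Adm` for `n q^E`, `E = 1, 2`. -/
def EAE : Prop := ∀ (n k : ℕ) (π : Fin 0 → PP) (p e : Fin 0 → ℕ) (r f : Fin k → ℕ)
  (w0 : ZMod 3) (c : Fin 0 → ZMod 3) (E q : ℕ), NF n π p e r f → q.Prime → q % 3 = 2 →
  (E = 1 ∨ E = 2) → wt (((q : ℤ) ^ E) ^ 2) = w0 →
  ¬ q ∣ n → BOk ((n : ℤ) * q ^ E) ∧ ∀ x : ℤ, (∀ l : ℕ, l.Prime → (l : ℤ) ∣ x → l ∣ n) →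
    (AdmC n π w0 c x ↔ Adm ((n : ℤ) * q ^ E) x)

open EADM in
/-- EAE: `AdmC` and `Adm` for `n q^E`. -/
theorem EAE_thm (hSPP : SPP) (hSCJ : SCJ) : EAE := by
  intro n k π p e r f w0 c E q hN hq hq3 hE hqw hqn
  obtain ⟨_, _, _, _, _, hSPP6⟩ := hSPP
  obtain ⟨_, _, _, hSCJ4⟩ := hSCJ
  have hn0 : n ≠ 0 := n_ne hN
  have hn3 : ¬ 3 ∣ n := three_not hN
  have hbelow : ∀ π : PP, ∃ l, EADM.Below π l := by
    intro π
    obtain ⟨l, hl, h⟩ := hSPP6 π
    exact ⟨l, hl, h⟩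
  have hqE : q ^ E ≠ 0 := pow_ne_zero _ hq.ne_zero
  have hcast : (((n : ℤ) * (q : ℤ) ^ E : ℤ) : Eis) = ((n * q ^ E : ℕ) : Eis) := by push_cast; ring
  have hnq0 : n * q ^ E ≠ 0 := mul_ne_zero hn0 hqE
  have hB0 : (n : ℤ) * (q : ℤ) ^ E ≠ 0 := by exact_mod_cast hnq0
  have hB3 : ¬ (3 : ℤ) ∣ (n : ℤ) * (q : ℤ) ^ E := by
    intro h
    have h1 : 3 ∣ n * q ^ E := by exact_mod_cast h
    rcases Nat.prime_three.dvd_mul.1 h1 with h2 | h2
    · exact hn3 h2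
    · have := (Nat.prime_dvd_prime_iff_eq Nat.prime_three hq).1 (Nat.prime_three.dvd_of_dvd_pow h2)
      omega
  refine ⟨⟨hB0, hB3, ?_⟩, ?_⟩
  · intro ϖ
    obtain ⟨l, hl⟩ := hbelow ϖ
    rw [hcast, hl.V_nat hnq0, Nat.factorization_mul hn0 hqE, Finsupp.add_apply]
    have h1 := fac_le hN l
    by_cases hlq : l = q
    · have h2 : n.factorization l = 0 := by
        rw [hlq]
        exact Nat.factorization_eq_zero_of_not_dvd hqn
      have h3 : (q ^ E).factorization l = E := by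
        rw [hlq, hq.factorization_pow, Finsupp.single_eq_same]
      omega
    · have h3 : (q ^ E).factorization l = 0 := by
        apply Nat.factorization_eq_zero_of_not_dvd
        intro h
        exact hlq ((Nat.prime_dvd_prime_iff_eq hl.pr hq).1 (hl.pr.dvd_of_dvd_pow h))
      omega
  · intro x hsupp
    have hnine : ¬ (3 : ℤ) ∣ (n : ℤ) := by
      intro h
      exact hn3 (by exact_mod_cast h)
    have hqq : ¬ (3 : ℤ) ∣ (q : ℤ) ^ E := by
      intro h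
      have h1 : 3 ∣ q ^ E := by exact_mod_cast h
      have h2 := Nat.prime_three.dvd_of_dvd_pow h1
      omega
    have hC : C9 ((n : ℤ) * (q : ℤ) ^ E) ↔ wt ((n : ℤ) ^ 2) + w0 = 0 := by
      rw [C9_iff hB3, mul_pow, wt_mul (sq_mod_three hnine) (sq_mod_three hqq), hqw]
    constructor
    · rintro ⟨hx, h3, _, hsym, h9⟩
      refine ⟨hx, h3, ?_, ?_, fun h => h9 (hC.1 h)⟩
      · intro ϖ
        obtain ⟨l, hl⟩ := hbelow ϖ
        rcases hl.h with ⟨hl3, hl2⟩ | ⟨hl3, hl2, hl4, hl5⟩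
        · rw [hl2]
          exact hSCJ4 l hl.pr hl3 x _ hx hB0
        · have hln : ¬ l ∣ n := by
            intro hln
            rcases prime_dvd hN hl.pr hln with ⟨i, hi⟩ | ⟨j, hj⟩
            · exact i.elim0
            · have := hN.r2 j
              rw [← hj] at this
              omega
          have h4 : ¬ ϖ.1 ∣ (x : Eis) := by
            intro h
            exact hln (hsupp l hl.pr ((hl.dvd_int x).1 h))
          have h5 : ¬ ϖ.1 ∣ (((n : ℤ) * (q : ℤ) ^ E : ℤ) : Eis) := by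
            rw [hcast, hl.dvd_nat]
            intro h
            rcases hl.pr.dvd_mul.1 h with h6 | h6
            · exact hln h6
            · have := (Nat.prime_dvd_prime_iff_eq hl.pr hq).1 (hl.pr.dvd_of_dvd_pow h6)
              omega
          unfold tm
          rw [V_eq_zero h4, V_eq_zero h5]
          simp
      · intro ϖ hϖ h
        obtain ⟨l, hl⟩ := hbelow ϖ
        apply hϖ
        rw [hcast, hl.dvd_nat]
        exact (hsupp l hl.pr ((hl.dvd_int x).1 h)).mul_right _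
    · rintro ⟨hx, h3, hsym, _, h9⟩
      exact ⟨hx, h3, hsupp, fun i => i.elim0, fun h => h9 (hC.2 h)⟩

end Pool.Agent.PTL

end
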