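import Mathlib
import Pool.Agent.PTWX.C16

/-! Parts: PT.IF2, PT.NNS, PT3.EMAX, PT.NMAIN, PT3.NMAT, PT.DCNT, PT3.EADT, PT.LAM, PTKX.StL, PTKX.StN, PTKX.IF4B, PTKX.NNS, PTKX.NRK, PTKX.SVF, PTKX.NFL -/

namespace Pool.Agent.PT.IF2
end Pool.Agent.PT.IF2

namespace Pool.Agent.PT3.EMAX
end Pool.Agent.PT3.EMAX

namespace Pool.Agent.PT.NMAIN
end Pool.Agent.PT.NMAIN

namespace Pool.Agent.PT.DCNT
end Pool.Agent.PT.DCNT

namespace Pool.Agent.PT3.EADT
end Pool.Agent.PT3.EADT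

namespace Pool.Agent.PT.LAM
end Pool.Agent.PT.LAM

namespace Pool.Agent.PTK.SVF
end Pool.Agent.PTK.SVF

namespace Pool.Agent.PTK.NFL
end Pool.Agent.PTK.NFL

section

namespace Pool.Agent.PT

open Pool.Agent.Lib_helper18 Pool.Agent.Lib_helper18.Eis Pool.Agent.Lib_helper84.Cub

namespace IF2

theorem intCast_inj0 {m : ℤ} (h : m ≠ 0) : (m : Eis) ≠ 0 := by
  intro h0
  have := congrArg Eis.re h0
  simp at this
  exact h this

theorem not_dvd {π a : Eis} (hπ : Prime π) (ha : a ≠ 0) {N : ℕ} (hN : V π a < N) :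
    ¬ π ^ N ∣ a := by
  intro h
  have h1 := (fin hπ ha).le_multiplicity_of_pow_dvd h
  unfold V at hN
  omega

theorem near_ne {π a a' : Eis} (hπ : Prime π) (ha : a ≠ 0) {N : ℕ} (hN : V π a < N)
    (h : π ^ N ∣ a' - a) : a' ≠ 0 := by
  rintro rfl
  rw [zero_sub, dvd_neg] at h
  exact not_dvd hπ ha hN h

theorem wi_cube (i : ℕ) : (w ^ i) ^ 3 = 1 := by
  rw [← pow_mul, mul_comm, pow_mul, w_cube, one_pow]

theorem w_ne : w ≠ 0 := by
  intro h
  have := congrArg Eis.im h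
  simp at this

/-- each linear form divides the norm form -/
theorem form_dvd (X Y ξ : Eis) (i : ℕ) : X + w ^ i * ξ * Y ∣ X ^ 3 + ξ ^ 3 * Y ^ 3 := by
  refine ⟨X ^ 2 - X * (w ^ i * ξ * Y) + (w ^ i * ξ * Y) ^ 2, ?_⟩
  have h := wi_cube i
  have : (X + w ^ i * ξ * Y) * (X ^ 2 - X * (w ^ i * ξ * Y) + (w ^ i * ξ * Y) ^ 2) =
      X ^ 3 + (w ^ i) ^ 3 * ξ ^ 3 * Y ^ 3 := by ring
  rw [this, h, one_mul]

theorem form_prod (X Y ξ : Eis) : (X + w ^ 0 * ξ * Y) * (X + w ^ 1 * ξ * Y) *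
    (X + w ^ 2 * ξ * Y) = X ^ 3 + ξ ^ 3 * Y ^ 3 := by
  linear_combination (X ^ 2 * ξ * Y + X * ξ ^ 2 * Y ^ 2 * w) * w_rel +
    (ξ ^ 3 * Y ^ 3) * w_cube

section

variable {π : Eis} {s : Eis → Eis → ZMod 3} {e : ℕ}

theorem mul_right (hS : LSym π s e) {a b c : Eis} (ha : a ≠ 0) (hb : b ≠ 0) (hc : c ≠ 0) :
    s c (a * b) = s c a + s c b := by
  rw [hS.skew (a * b) c (mul_ne_zero ha hb) hc, hS.mul a b c ha hb hc, hS.skew c a hc ha,
    hS.skew c b hc hb]
  ring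

theorem cont_right (hS : LSym π s e) {a a' b : Eis} (ha : a ≠ 0) (ha' : a' ≠ 0) (hb : b ≠ 0)
    (h : π ^ (V π a + e) ∣ a' - a) : s b a' = s b a := by
  rw [hS.skew a' b ha' hb, hS.cont a a' b ha hb h, hS.skew b a hb ha]
  ring

end

/-- the forms `Gf` do not vanish -/
theorem Gf_ne {b x p q p' q' : ℤ} (h : Sol b x p q p' q') (i : ℕ)
    (hi : i = 1 ∨ i = 2) : Gf p q p' q' i ≠ 0 := by
  intro h0
  have h1 : q * p' = 0 ∧ p * q' = 0 := by
    rcases hi with rfl | rfl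
    · unfold Gf at h0
      have e1 := congrArg Eis.re h0
      have e2 := congrArg Eis.im h0
      simp at e1 e2
      rcases e1 with e1 | e1 <;> rcases e2 with e2 | e2 <;> simp [e1, e2]
    · unfold Gf at h0
      rw [w_sq] at h0
      have e1 := congrArg Eis.re h0
      have e2 := congrArg Eis.im h0
      simp at e1 e2
      rcases e2 with e2 | e2
      · subst e2
        simp at e1
        rcases e1 with e1 | e1 <;> simp [e1]
      · subst e2
        simp at e1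
        rcases e1 with e1 | e1 <;> simp [e1]
  obtain ⟨h2, h3⟩ := h1
  have hN : p' ^ 3 + b * q' ^ 3 ≠ 0 := by
    intro h4
    apply h.n1
    rw [h.eq, h4, mul_zero]
  rcases mul_eq_zero.mp h3 with hp | hq'
  · subst hp
    rcases mul_eq_zero.mp h2 with hq | hp'
    · subst hq
      exact h.n1 (by ring)
    · subst hp'
      exact h.n2 (by ring)
  · subst hq'
    rcases mul_eq_zero.mp h2 with hq | hp'
    · subst hq
      apply h.n2
      have := h.eq
      linarith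
    · subst hp'
      exact hN (by ring)

end IF2

open _root_.Pool.Agent.PT.IF2 in
theorem IF2_thm (hSTAR : STAR) : IF2 := by
  intro π s e hS b x p q p' q' hb hx hsol
  set n0 : Eis := (p' : Eis) ^ 3 + (b : Eis) * (q' : Eis) ^ 3 with hn0def
  set g0 : Eis := (p : Eis) ^ 3 + (b : Eis) * (q : Eis) ^ 3 with hg0def
  have hg0 : g0 = (x : Eis) * n0 := by
    rw [hn0def, hg0def]
    exact_mod_cast congrArg (fun t : ℤ => (t : Eis)) hsol.eq
  have hg0ne : g0 ≠ 0 := by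
    have := intCast_inj0 hsol.n1
    rw [hg0def]
    exact_mod_cast this
  have hn0ne : n0 ≠ 0 := by
    intro h
    apply hg0ne
    rw [hg0, h, mul_zero]
  have hxe : (x : Eis) ≠ 0 := intCast_inj0 hx
  have hbe : (b : Eis) ≠ 0 := intCast_inj0 hb
  have hD1 := Gf_ne hsol 1 (Or.inl rfl)
  have hD2 := Gf_ne hsol 2 (Or.inr rfl)
  refine ⟨V π (b : Eis) + V π n0 + V π g0 + e + 1, ?_⟩
  intro r hr
  set N0 := V π (b : Eis) + V π n0 + V π g0 + e + 1 with hN0
  have hr0 : (r : Eis) ≠ 0 := by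
    rintro h
    have : (r : Eis) ^ 3 ≠ 0 := near_ne hS.prime hbe (by omega) hr
    exact this (by rw [h]; ring)
  have hFdvd : π ^ N0 ∣ ((p' : Eis) ^ 3 + (r : Eis) ^ 3 * (q' : Eis) ^ 3) - n0 := by
    have : ((p' : Eis) ^ 3 + (r : Eis) ^ 3 * (q' : Eis) ^ 3) - n0 =
        ((r : Eis) ^ 3 - (b : Eis)) * (q' : Eis) ^ 3 := by rw [hn0def]; ring
    rw [this]
    exact hr.mul_right _
  have hGdvd : π ^ N0 ∣ ((p : Eis) ^ 3 + (r : Eis) ^ 3 * (q : Eis) ^ 3) - g0 := by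
    have : ((p : Eis) ^ 3 + (r : Eis) ^ 3 * (q : Eis) ^ 3) - g0 =
        ((r : Eis) ^ 3 - (b : Eis)) * (q : Eis) ^ 3 := by rw [hg0def]; ring
    rw [this]
    exact hr.mul_right _
  set n1 : Eis := (p' : Eis) ^ 3 + (r : Eis) ^ 3 * (q' : Eis) ^ 3 with hn1
  set g1 : Eis := (p : Eis) ^ 3 + (r : Eis) ^ 3 * (q : Eis) ^ 3 with hg1
  have hn1ne : n1 ≠ 0 := near_ne hS.prime hn0ne (by omega) hFdvd
  have hg1ne : g1 ≠ 0 := near_ne hS.prime hg0ne (by omega) hGdvd
  let F : ℕ → Eis := fun i => (p' : Eis) + w ^ i * (r : Eis) * (q' : Eis)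
  let G : ℕ → Eis := fun i => (p : Eis) + w ^ i * (r : Eis) * (q : Eis)
  have hF : ∀ i, F i ≠ 0 := fun i => ne_zero_of_dvd_ne_zero hn1ne (form_dvd _ _ _ i)
  have hG : ∀ i, G i ≠ 0 := fun i => ne_zero_of_dvd_ne_zero hg1ne (form_dvd _ _ _ i)
  have hFL : ∀ i, Lf p' q' i r = F i := fun i => by unfold Lf; ring
  have hGL : ∀ i, Lf p q i r = G i := fun i => by unfold Lf; ring
  have hFp : F 0 * F 1 * F 2 = n1 := form_prod _ _ _
  have hGp : G 0 * G 1 * G 2 = g1 := form_prod _ _ _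
  -- replace `n1`, `g1` by the integers `n0`, `g0`
  have cn : ∀ c : Eis, c ≠ 0 → s c n1 = s c n0 := fun c hc =>
    cont_right hS hn0ne hn1ne hc ((pow_dvd_pow π (by omega)).trans hFdvd)
  have cn' : ∀ c : Eis, c ≠ 0 → s n1 c = s n0 c := fun c hc =>
    hS.cont _ _ _ hn0ne hc ((pow_dvd_pow π (by omega)).trans hFdvd)
  have cg : ∀ c : Eis, c ≠ 0 → s c g1 = s c (x : Eis) + s c n0 := fun c hc => by
    rw [cont_right hS hg0ne hg1ne hc ((pow_dvd_pow π (by omega)).trans hGdvd), hg0,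
      mul_right hS hxe hn0ne hc]
  obtain ⟨s1, s2⟩ := hSTAR π s e hS (p' : Eis) (q' : Eis) (p : Eis) (q : Eis) (r : Eis) F G
    (Gf p q p' q') (fun i => rfl) (fun i => rfl) (fun i => by unfold Gf; ring) hr0 hF
  obtain ⟨t1, _⟩ := hSTAR π s e hS (p : Eis) (q : Eis) (p : Eis) (q : Eis) (r : Eis) G G
    (fun i => (p : Eis) * q - w ^ i * p * q) (fun i => rfl) (fun i => rfl) (fun i => rfl) hr0 hG
  have s3 := s2 hG hD1 hD2
  rw [hFp, cn _ (hF 1), cn _ (hF 2), cn _ w_ne] at s1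
  rw [hGp, cg _ (hG 1), cg _ (hG 2), cg _ w_ne] at t1
  rw [hFp, hGp, cg _ hD1, cg _ hD2, cn _ hD1, cn _ hD2, cn _ w_ne, cn' _ (hG 2), cn' _ (hG 1),
    cg _ (hF 1), cg _ (hF 2), hS.skew _ _ (hG 2) hn0ne, hS.skew _ _ (hG 1) hn0ne] at s3
  unfold AS
  rw [hFL, hFL, hGL, hGL, hS.skew _ _ (hG 2) hxe, hS.skew _ _ (hF 1) hxe, hS.skew _ _ (hG 1) hxe,
    hS.skew _ _ (hF 2) hxe, hS.skew _ _ hD1 hxe, hS.skew _ _ hD2 hxe]
  have h3 : (3 : ZMod 3) = 0 := rfl
  linear_combination s3 + s1 + t1 + s w n0 * h3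

end Pool.Agent.PT

end

section

open NumberField IsDedekindDomain Finset
open scoped nonZeroDivisors Pointwise

namespace Pool.Agent.PT

open Pool.Agent.Lib_helper18 Pool.Agent.Lib_helper18.Eis Pool.Agent.Lib_helper84.Cub

namespace NNS

lemma three_z (t : ZMod 3) : t + (t + t) = 0 := by
  revert t; decide

lemma two_z {t : ZMod 3} (h : t = -t) : t = 0 := by
  revert h; revert t; decide

variable {π : Eis} {s : Eis → Eis → ZMod 3} {e : ℕ}

lemma cube_left (hs : LSym π s e) {a c : Eis} (ha : a ≠ 0) (hc : c ≠ 0) : s (a ^ 3) c = 0 := by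
  have h2 : s (a * (a * a)) c = s a c + (s a c + s a c) := by
    rw [hs.mul _ _ _ ha (mul_ne_zero ha ha) hc, hs.mul _ _ _ ha ha hc]
  have e3 : a ^ 3 = a * (a * a) := by ring
  rw [e3, h2]
  exact three_z _

lemma cube_right (hs : LSym π s e) {a c : Eis} (ha : a ≠ 0) (hc : c ≠ 0) : s c (a ^ 3) = 0 := by
  rw [hs.skew _ _ (pow_ne_zero 3 ha) hc, cube_left hs ha hc, neg_zero]

lemma neg_one_left (hs : LSym π s e) {c : Eis} (hc : c ≠ 0) : s (-1) c = 0 := by
  have h := cube_left hs (a := (-1 : Eis)) (by simp) hc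
  have e3 : (-1 : Eis) ^ 3 = -1 := by ring
  rwa [e3] at h

lemma self_zero (hs : LSym π s e) {c : Eis} (hc : c ≠ 0) : s c c = 0 :=
  two_z (hs.skew c c hc hc)

/-- the norm form has trivial symbol -/
lemma norm_symbol (hs : LSym π s e) {x α β : Eis} (hx : x ≠ 0) (hN : α ^ 3 + x * β ^ 3 ≠ 0) :
    s (α ^ 3 + x * β ^ 3) x = 0 := by
  by_cases hα : α = 0
  · subst hα
    have hβ : β ≠ 0 := by
      rintro rfl
      apply hN
      simp
    have e1 : (0 : Eis) ^ 3 + x * β ^ 3 = x * β ^ 3 := by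
      rw [zero_pow (by norm_num), zero_add]
    rw [e1, hs.mul _ _ _ hx (pow_ne_zero 3 hβ) hx, self_zero hs hx, cube_left hs hβ hx, add_zero]
  by_cases hβ : β = 0
  · subst hβ
    have e1 : α ^ 3 + x * (0 : Eis) ^ 3 = α ^ 3 := by
      rw [zero_pow (by norm_num), mul_zero, add_zero]
    rw [e1, cube_left hs hα hx]
  set N := α ^ 3 + x * β ^ 3 with hNdef
  have hα3 : α ^ 3 ≠ 0 := pow_ne_zero 3 hα
  have hβ3 : β ^ 3 ≠ 0 := pow_ne_zero 3 hβ
  have hxβ : x * β ^ 3 ≠ 0 := mul_ne_zero hx hβ3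
  have hN' : -N ≠ 0 := neg_ne_zero.mpr hN
  have h1 := hs.stein (α ^ 3) (x * β ^ 3) (-N) hα3 hxβ hN' (by rw [hNdef]; ring)
  rw [cube_left hs hα hxβ, cube_right hs hα hN', zero_add, add_zero] at h1
  have h2 : s (-N) (x * β ^ 3) = 0 := by
    rw [hs.skew _ _ hxβ hN', h1, neg_zero]
  have e2 : -N = (-1) * N := by ring
  rw [e2, hs.mul _ _ _ (by simp) hN hxβ, neg_one_left hs hxβ, zero_add] at h2
  rw [hs.skew _ _ hxβ hN, hs.mul _ _ _ hx hβ3 hN, cube_left hs hβ hN, add_zero] at h2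
  rw [hs.skew _ _ hx hN, neg_eq_zero] 
  exact neg_eq_zero.mp h2

lemma norm_lin {x : ℤ} {L : Type} [Field L] [NumberField L] {ι : Eis →+* L} {θ : L}
    {σ c : L ≃ₐ[ℚ] L} (h : CubF x L ι θ σ c) (α β : Eis) :
    (ι α + ι β * θ) * σ (ι α + ι β * θ) * σ (σ (ι α + ι β * θ))
      = ι (α ^ 3 + (x : Eis) * β ^ 3) := by
  have hw : ι w ^ 2 + ι w + 1 = 0 := by
    have : w ^ 2 + w + 1 = (0 : Eis) := by
      decide
    rw [← map_pow, ← map_one ι, ← map_add, ← map_add, this, map_zero]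
  have h3 : ι w ^ 3 = 1 := by
    linear_combination (ι w - 1) * hw
  have e1 : σ (ι α + ι β * θ) = ι α + ι β * (ι w * θ) := by
    rw [map_add, map_mul, h.sι, h.sι, h.sθ]
  have e2 : σ (σ (ι α + ι β * θ)) = ι α + ι β * (ι w * (ι w * θ)) := by
    rw [e1, map_add, map_mul, map_mul, h.sι, h.sι, h.sι, h.sθ]
  rw [e2, e1]
  have hx : ι (x : Eis) = (x : L) := map_intCast ι x
  rw [map_add, map_mul, map_pow, map_pow, hx, ← h.cube]
  linear_combination (ι α ^ 2 * ι β * θ + ι α * ι β ^ 2 * θ ^ 2 * ι w) * hw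
    + ι β ^ 3 * θ ^ 3 * h3

lemma norm_ne {x : ℤ} {L : Type} [Field L] [NumberField L] {ι : Eis →+* L} {θ : L}
    {σ c : L ≃ₐ[ℚ] L} (h : CubF x L ι θ σ c) {α β : Eis} (hne : ι α + ι β * θ ≠ 0) :
    α ^ 3 + (x : Eis) * β ^ 3 ≠ 0 := by
  intro h0
  have h1 := norm_lin h α β
  rw [h0, map_zero] at h1
  have hs : ∀ y : L, y ≠ 0 → σ y ≠ 0 := fun y hy => (map_ne_zero σ).mpr hy
  exact (mul_ne_zero (mul_ne_zero hne (hs _ hne)) (hs _ (hs _ hne))) h1

end NNS

theorem NNS_thm : NNS := by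
  intro x L _ _ ι θ σ c hx hF π s e hs z a b hz ha hb hzab
  have hxE : (x : Eis) ≠ 0 := by
    intro h0
    have h1 : ι (x : Eis) = (x : L) := map_intCast ι x
    rw [h0, map_zero] at h1
    exact hx (by exact_mod_cast h1.symm)
  obtain ⟨m, a0, b0, d0, hm, hrep⟩ := hF.rep z
  have hmL : (m : L) ≠ 0 := by exact_mod_cast hm
  have hmE : (m : Eis) ≠ 0 := by
    intro h0
    have h1 : ι (m : Eis) = (m : L) := map_intCast ι m
    rw [h0, map_zero] at h1
    exact hmL h1.symm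
  obtain ⟨γ, δ, α, β, hγδ, hαβ⟩ : ∃ γ δ α β : Eis, ι γ + ι δ * θ ≠ 0 ∧
      z * (ι γ + ι δ * θ) * (m : L) = ι α + ι β * θ := by
    by_cases hbd : b0 = 0 ∧ d0 = 0
    · refine ⟨1, 0, a0, 0, ?_, ?_⟩
      · simp
      · rw [hbd.1, hbd.2] at hrep
        simp only [map_zero, zero_mul, add_zero, map_one, mul_one] at hrep ⊢
        rw [mul_comm]; exact hrep
    · refine ⟨b0, -d0, a0 * b0 - d0 ^ 2 * (x : Eis), b0 ^ 2 - a0 * d0, ?_, ?_⟩
      · intro h0
        have h1 := hF.lin b0 (-d0) 0 (by rw [map_zero, zero_mul, add_zero]; exact h0)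
        exact hbd ⟨h1.1, neg_eq_zero.mp h1.2.1⟩
      · have hx' : ι (x : Eis) = (x : L) := map_intCast ι x
        rw [map_sub, map_sub, map_neg, map_mul, map_mul, map_mul, map_pow, map_pow, hx', ← hF.cube]
        linear_combination (ι b0 - ι d0 * θ) * hrep
  have hαβ0 : ι α + ι β * θ ≠ 0 := by
    rw [← hαβ]
    exact mul_ne_zero (mul_ne_zero hz hγδ) hmL
  have hN1 := NNS.norm_ne hF hγδ
  have hN2 := NNS.norm_ne hF hαβ0
  have hkey : a * ((m : Eis) ^ 3 * (γ ^ 3 + (x : Eis) * δ ^ 3)) = b * (α ^ 3 + (x : Eis) * β ^ 3) := by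
    apply hF.inj
    have hm' : ι (m : Eis) = (m : L) := map_intCast ι m
    have hsm : ∀ k : ℤ, σ (k : L) = (k : L) := fun k => map_intCast σ k
    rw [map_mul, map_mul, map_mul, map_pow, hm', ← NNS.norm_lin hF γ δ, ← NNS.norm_lin hF α β, ← hαβ,
      ← hzab]
    simp only [map_mul, hsm]
    ring
  have hl : s (a * ((m : Eis) ^ 3 * (γ ^ 3 + (x : Eis) * δ ^ 3))) (x : Eis) = s a (x : Eis) := by
    rw [hs.mul _ _ _ ha (mul_ne_zero (pow_ne_zero 3 hmE) hN1) hxE,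
      hs.mul _ _ _ (pow_ne_zero 3 hmE) hN1 hxE, NNS.cube_left hs hmE hxE,
      NNS.norm_symbol hs hxE hN1, add_zero, add_zero]
  have hr : s (b * (α ^ 3 + (x : Eis) * β ^ 3)) (x : Eis) = s b (x : Eis) := by
    rw [hs.mul _ _ _ hb hN2 hxE, NNS.norm_symbol hs hxE hN2, add_zero]
  rw [← hl, hkey, hr]

end Pool.Agent.PT

end

section

/-!
# EMAX: the number of the classes such that the matrix is invertible
-/

namespace Pool.Agent.PT3

open Pool.Agent.Lib_helper18 Pool.Agent.Lib_helper18.Eis Pool.Agent.Lib_helper84.Cub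
open Pool.Agent.PT Pool.Agent.PTE

namespace EMAX

theorem Mt_eq (h n : ℕ) {m : ℕ} (π : Fin m → PP) (p e : Fin m → ℕ) (w0 : ZMod 3)
    (c : Fin m → ZMod 3) :
    Mt h n π p e w0 c = Mt h n π p e w0 0 -
      Matrix.diagonal (Fin.cons 0 c : Fin (m + 1) → ZMod 3) := by
  ext a b
  rw [Matrix.sub_apply]
  refine Fin.cases ?_ (fun i => ?_) a
  · have h0 : (Matrix.diagonal (Fin.cons 0 c : Fin (m + 1) → ZMod 3)) 0 b = 0 := by
      by_cases hb : (0 : Fin (m + 1)) = b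
      · rw [← hb, Matrix.diagonal_apply_eq, Fin.cons_zero]
      · rw [Matrix.diagonal_apply_ne _ hb]
    rw [h0, sub_zero]
    rfl
  · refine Fin.cases ?_ (fun i' => ?_) b
    · rw [Matrix.diagonal_apply_ne _ (Fin.succ_ne_zero i), sub_zero]
      rfl
    · by_cases h1 : i' = i
      · subst h1
        rw [Matrix.diagonal_apply_eq, Fin.cons_succ]
        simp [Mt]
      · have h' : i.succ ≠ i'.succ := fun h2 => h1 (Fin.succ_injective _ h2).symm
        rw [Matrix.diagonal_apply_ne _ h', sub_zero]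
        simp [Mt, h1]

end EMAX

open _root_.Pool.Agent.PT3.EMAX in
theorem EMAX_thm (hEDC : EDC) : EMAX := by
  intro h n m π p e w0 hw
  have h0 : Mt h n π p e w0 0 0 0 ≠ 0 := by
    have h1 : Mt h n π p e w0 0 0 0 = if h = 2 then wt ((n : ℤ) ^ 2) + w0 else 1 := rfl
    rw [h1]
    split_ifs with h2
    · exact hw h2
    · exact one_ne_zero
  have h3 : ∀ c : Fin m → ZMod 3, (Mt h n π p e w0 0 -
      Matrix.diagonal (Fin.cons 0 c : Fin (m + 1) → ZMod 3)).det ≠ 0 ↔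
      (Mt h n π p e w0 c).det ≠ 0 := fun c => by
    rw [Mt_eq h n π p e w0 c]
  exact (hEDC m _ h0).trans_eq (Nat.card_congr (Equiv.subtypeEquivRight h3))

end Pool.Agent.PT3

end

section

/-!
# NMAIN: the norm theorem for `L / Q(w)`
-/

open NumberField IsDedekindDomain Finset
open scoped nonZeroDivisors Pointwise

namespace Pool.Agent.PT

open Pool.Agent.Lib_helper18 Pool.Agent.Lib_helper18.Eis Pool.Agent.Lib_helper84.Cub

namespace NMAIN

/-! ### The symbols -/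

theorem prime_none : Prime lam := prime_lam

theorem uni_prime (v : Pl) : Prime (uni v) := by
  cases v with
  | none => exact prime_none
  | some π => exact π.2.1

theorem uni_inj (hSPP : SPP) {v v' : Pl} (h : uni v ∣ uni v') : v = v' := by
  have hass : Associated (uni v) (uni v') := (uni_prime v).associated_of_dvd (uni_prime v') h
  obtain ⟨-, S2, -, S4, -, -⟩ := hSPP
  cases v with
  | none =>
    cases v' with
    | none => rfl
    | some π =>
      exfalso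
      have h1 : π.1 ∣ lam := hass.symm.dvd
      exact (S4 π).1 (h1.trans lam_dvd_three)
  | some π =>
    cases v' with
    | none =>
      exfalso
      have h1 : π.1 ∣ lam := hass.dvd
      exact (S4 π).1 (h1.trans lam_dvd_three)
    | some π' =>
      rw [S2 π π' hass]

theorem sy_mul (hSTM : STM) (hSPP : SPP) (hSSL : SSL) (v : Pl) (a b c : Eis) (ha : a ≠ 0)
    (hb : b ≠ 0) (hc : c ≠ 0) : sy v (a * b) c = sy v a c + sy v b c := by
  cases v with
  | none => exact hSSL.1 a b c ha hb hc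
  | some π => exact (hSTM π.1 π.2.1 (hSPP.2.2.2.1 π).1).mul a b c ha hb hc

theorem sy_one (hSTM : STM) (hSPP : SPP) (hSSL : SSL) (v : Pl) (c : Eis) (hc : c ≠ 0) :
    sy v 1 c = 0 := by
  have h := sy_mul hSTM hSPP hSSL v 1 1 c one_ne_zero one_ne_zero hc
  rw [mul_one] at h
  exact left_eq_add.1 h

theorem sy_lsym (hSTM : STM) (hSPP : SPP) (hSLC : SLC) (v : Pl) :
    ∃ e : ℕ, LSym (uni v) (sy v) e := by
  cases v with
  | none => exact ⟨4, hSLC⟩
  | some π => exact ⟨1, hSTM π.1 π.2.1 (hSPP.2.2.2.1 π).1⟩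

section Psi

variable {L : Type} [Field L] [NumberField L] (ι : Eis →+* L) (x : Eis)

open Classical in
/-- The symbols of a number of `Q(w)`. -/
noncomputable def psi (u : Lˣ) (v : Pl) : ZMod 3 :=
  if h : ∃ ab : Eis × Eis, ab.1 ≠ 0 ∧ ab.2 ≠ 0 ∧ (u : L) * ι ab.2 = ι ab.1 then
    sy v h.choose.1 x - sy v h.choose.2 x else 0

variable {ι x}

theorem psi_eq (hSTM : STM) (hSPP : SPP) (hSSL : SSL) (hι : Function.Injective ι) (hx : x ≠ 0)
    {u : Lˣ} {a b : Eis} (ha : a ≠ 0) (hb : b ≠ 0) (h : (u : L) * ι b = ι a) (v : Pl) :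
    psi ι x u v = sy v a x - sy v b x := by
  have hex : ∃ ab : Eis × Eis, ab.1 ≠ 0 ∧ ab.2 ≠ 0 ∧ (u : L) * ι ab.2 = ι ab.1 :=
    ⟨(a, b), ha, hb, h⟩
  rw [psi, dif_pos hex]
  obtain ⟨h1, h2, h3⟩ := hex.choose_spec
  have h4 : a * hex.choose.2 = hex.choose.1 * b := by
    apply hι
    rw [map_mul, map_mul, ← h, ← h3]
    ring
  have h5 := congrArg (fun t => sy v t x) h4
  rw [sy_mul hSTM hSPP hSSL v _ _ _ ha h2 hx, sy_mul hSTM hSPP hSSL v _ _ _ h1 hb hx] at h5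
  rw [sub_eq_sub_iff_add_eq_add, ← h5]

end Psi

end NMAIN

open _root_.Pool.Agent.PT.NMAIN

/-- NMAIN. -/
theorem NMAIN_thm (hSTM : STM) (hSPP : SPP) (hSSL : SSL) (hSLC : SLC) (hLCI : LCI)
    (hHERBQ : HERBQ) (hSUN : SUN) (hNRK : NRK) (hNHN : NHN) (hNTR : NTR) (hNCNT : NCNT)
    (hNFIX : NFIX) (hNHO : NHO) (hNNS : NNS) (hNGEN : NGEN) : NMAIN := by
  classical
  intro x L _ _ ι θ σ c hx hx3 hV hcube hF y hy hy3 htm hyLC
  have hxE : (x : Eis) ≠ 0 := by
    intro h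
    have := congrArg Eis.re h
    rw [intCast_re, zero_re] at this
    exact hx this
  have hyE : (y : Eis) ≠ 0 := by
    intro h
    have := congrArg Eis.re h
    rw [intCast_re, zero_re] at this
    exact hy this
  have hι := hF.inj
  have hι0 : ∀ a : Eis, a ≠ 0 → ι a ≠ 0 := fun a ha h => ha (hι (by rw [h, map_zero]))
  -- the set of places
  obtain ⟨S₀, hS₀⟩ : ∃ S₀ : Finset Pl, ∀ v, v ∈ S₀ ↔ v = none ∨
      ∃ π : PP, v = some π ∧ (π.1 ∣ (x : Eis) ∨ π.1 ∣ (y : Eis)) := by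
    have hfin : ({v : Pl | v = none ∨ ∃ π : PP, v = some π ∧
        (π.1 ∣ (x : Eis) ∨ π.1 ∣ (y : Eis))}).Finite := by
      have h1 := (hSPP.2.2.1 (x : Eis) hxE).union (hSPP.2.2.1 (y : Eis) hyE)
      refine ((h1.image some).insert none).subset ?_
      rintro v (rfl | ⟨π, rfl, h⟩)
      · exact Set.mem_insert _ _
      · exact Set.mem_insert_of_mem _ ⟨π, h, rfl⟩
    exact ⟨hfin.toFinset, fun v => hfin.mem_toFinset⟩
  obtain ⟨S, e, d, hSS, hSLC', hcard, hd0, hdS, hdind, hdsym⟩ := hNGEN x S₀ hx hx3 hV hcube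
    ((hS₀ none).2 (Or.inl rfl)) (fun π h => (hS₀ _).2 (Or.inr ⟨π, rfl, Or.inl h⟩)) (by
      intro π h hLC
      rcases (hS₀ _).1 h with h1 | ⟨π', h1, h2⟩
      · exact absurd h1 (by simp)
      · have h3 : π = π' := Option.some.inj h1
        subst h3
        rcases h2 with h2 | h2
        · exact h2
        · exact hyLC π h2 hLC)
  have hnone : none ∈ S := hSS ((hS₀ none).2 (Or.inl rfl))
  have hxS : ∀ π : PP, π.1 ∣ (x : Eis) → some π ∈ S := fun π h =>
    hSS ((hS₀ _).2 (Or.inr ⟨π, rfl, Or.inl h⟩))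
  have hyS : ∀ v : Pl, uni v ∣ (y : Eis) → v ∈ S := by
    intro v hv
    cases v with
    | none => exact hnone
    | some π => exact hSS ((hS₀ _).2 (Or.inr ⟨π, rfl, Or.inr hv⟩))
  obtain ⟨H1, H2, -⟩ := hNHN x L ι θ σ c hx hF
  obtain ⟨-, T2, -, T4, -, -⟩ := hNTR x L ι θ σ c hx hx3 hF
  obtain ⟨X1, X2, X3⟩ := hNFIX x L ι θ σ c hx hx3 hF S
  obtain ⟨O1, O2⟩ := hNHO x L ι θ σ c hx hx3 hF S hnone hxS
  have hNC := hNCNT x L ι θ σ c hx hx3 hV hF
  have hσ3 : σ ^ 3 = 1 := by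
    ext z
    change σ (σ (σ z)) = z
    exact H1 z
  -- norms
  have hNval : ∀ u : Lˣ, ((∏ i ∈ range 3, σ ^ i • u : Lˣ) : L) = u * σ u * σ (σ u) := by
    intro u
    rw [prod_range_succ, prod_range_succ, prod_range_succ, prod_range_zero, one_mul]
    rfl
  have hN : ∀ u : Lˣ, ∃ a b : Eis, a ≠ 0 ∧ b ≠ 0 ∧
      ((∏ i ∈ range 3, σ ^ i • u : Lˣ) : L) * ι b = ι a := by
    intro u
    have h1 : σ ((∏ i ∈ range 3, σ ^ i • u : Lˣ) : L) = ((∏ i ∈ range 3, σ ^ i • u : Lˣ) : L) := by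
      rw [hNval, map_mul, map_mul, H1]
      ring
    obtain ⟨a, b, hb, hab⟩ := H2 _ h1
    refine ⟨a, b, ?_, hb, hab⟩
    rintro rfl
    rw [map_zero] at hab
    exact (mul_ne_zero (Units.ne_zero _) (hι0 b hb)) hab
  -- the units
  have hd' : ∀ i, ∃ u : Lˣ, (u : L) = ι (d i) := fun i => ⟨Units.mk0 _ (hι0 _ (hd0 i)), rfl⟩
  choose d' hd' using hd'
  have hpsi := fun {u : Lˣ} {a b : Eis} (ha : a ≠ 0) (hb : b ≠ 0) (h : (u : L) * ι b = ι a) v =>
    psi_eq (L := L) (ι := ι) hSTM hSPP hSSL hι hxE ha hb h v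
  have hpsi1 : ∀ (u : Lˣ) (a : Eis), a ≠ 0 → (u : L) = ι a → ∀ v, psi ι (x : Eis) u v = sy v a x := by
    intro u a ha h v
    rw [hpsi (u := u) ha one_ne_zero (by rw [map_one, mul_one, h]),
      sy_one hSTM hSPP hSSL v _ hxE, sub_zero]
  -- the set of primes
  obtain ⟨A, hA⟩ : ∃ A : Finset (HeightOneSpectrum (𝓞 L)),
      (A : Set (HeightOneSpectrum (𝓞 L))) = ⋃ v ∈ S, Abv ι v := by
    have hfin : (⋃ v ∈ S, Abv ι v).Finite := S.finite_toSet.biUnion fun v _ => (T4 v).1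
    exact ⟨hfin.toFinset, hfin.coe_toFinset⟩
  obtain ⟨U1, U2⟩ := hSUN L A
  rw [hA] at U1 U2
  have hAcard : A.card + 2 * (e + 1) = 3 * S.card := by
    have h1 : A = S.biUnion fun v => (T4 v).1.toFinset := by
      ext P
      rw [Finset.mem_biUnion, ← Finset.mem_coe, hA, Set.mem_iUnion₂]
      constructor
      · rintro ⟨v, hv, hP⟩
        exact ⟨v, hv, (T4 v).1.mem_toFinset.2 hP⟩
      · rintro ⟨v, hv, hP⟩
        exact ⟨v, hv, (T4 v).1.mem_toFinset.1 hP⟩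
    rw [h1, Finset.card_biUnion]
    · have h2 : ∀ v ∈ S, (T4 v).1.toFinset.card = if LC (uni v) x then 3 else 1 := by
        intro v _
        rw [← hNC v, Nat.card_coe_set_eq, Set.ncard_eq_toFinset_card _ (T4 v).1]
      rw [Finset.sum_congr rfl h2, ← hcard, Finset.card_filter, Finset.mul_sum,
        ← Finset.sum_add_distrib, Finset.card_eq_sum_ones, Finset.mul_sum]
      refine Finset.sum_congr rfl fun v _ => ?_
      by_cases h : LC (uni v) x
      · rw [if_pos h, if_neg (not_not.2 h)]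
        rfl
      · rw [if_neg h, if_pos h]
        rfl
    · intro v _ v' _ hne
      rw [Function.onFun, Finset.disjoint_left]
      intro P hP hP'
      rw [(T4 v).1.mem_toFinset] at hP
      rw [(T4 v').1.mem_toFinset] at hP'
      obtain ⟨v0, -, h0⟩ := T2 P
      have e1 := uni_inj hSPP (h0 _ hP)
      have e2 := uni_inj hSPP (h0 _ hP')
      exact hne (e1.symm.trans e2)
  obtain ⟨y', hy'⟩ : ∃ u : Lˣ, (u : L) = ι (y : Eis) := ⟨Units.mk0 _ (hι0 _ hyE), rfl⟩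
  have : Fact (Nat.Prime 3) := ⟨Nat.prime_three⟩
  have key := hHERBQ 3 Lˣ (L ≃ₐ[ℚ] L) σ (SU ι S) (SF ι σ S) Pl (psi ι (x : Eis)) e d' hσ3 U1 O1
    (fun u => Iff.rfl) O2 ?_ ?_ ?_ ?_ ?_ ?_ y' (X1 y' _ hy' hyS) ?_
  · obtain ⟨η, -, hη⟩ := key
    refine ⟨(η : L), η.ne_zero, ?_⟩
    rw [← hNval, ← hη, hy', map_intCast]
  · -- multiplicativity
    intro u hu u' hu'
    obtain ⟨a, b, ha, hb, hab⟩ := X2 u hu
    obtain ⟨a', b', ha', hb', hab'⟩ := X2 u' hu'
    funext v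
    rw [Pi.add_apply, hpsi ha hb hab, hpsi ha' hb' hab',
      hpsi (u := u * u') (mul_ne_zero ha ha') (mul_ne_zero hb hb') (by
        rw [Units.val_mul, map_mul, map_mul, ← hab, ← hab']
        ring),
      sy_mul hSTM hSPP hSSL v _ _ _ ha ha' hxE, sy_mul hSTM hSPP hSSL v _ _ _ hb hb' hxE]
    ring
  · -- norms have trivial symbols
    intro u _
    obtain ⟨a, b, ha, hb, hab⟩ := hN u
    funext v
    rw [hpsi ha hb hab]
    obtain ⟨e', he'⟩ := sy_lsym hSTM hSPP hSLC v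
    rw [Pi.zero_apply, sub_eq_zero]
    exact hNNS x L ι θ σ c hx hF (uni v) (sy v) e' he' (u : L) a b u.ne_zero ha hb
      (by rw [← hNval]; exact hab)
  · -- the units are in `E'`
    intro i
    exact X1 (d' i) (d i) (hd' i) (hdS i)
  · -- multiplicative independence
    intro n hn
    have h1 : (fun i => (n i).toNat) = fun i => (-n i).toNat := by
      apply hdind
      apply hι
      have h2 : ∏ i, (d' i) ^ ((n i).toNat) = ∏ i, (d' i) ^ ((-n i).toNat) := by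
        rw [← div_eq_one, ← Finset.prod_div_distrib, ← hn]
        refine Finset.prod_congr rfl fun i _ => ?_
        rw [← zpow_natCast, ← zpow_natCast, div_eq_mul_inv, ← zpow_sub]
        congr 1
        omega
      have h3 := congrArg (fun u : Lˣ => (u : L)) h2
      simp only [Units.coe_prod, Units.val_pow_eq_pow_val, hd'] at h3
      rw [map_prod, map_prod]
      simp only [map_pow]
      exact h3
    funext i
    have h2 : (n i).toNat = (-n i).toNat := congrFun h1 i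
    rw [Pi.zero_apply]
    omega
  · -- independence of the symbols
    intro n hn
    apply hdsym n
    intro v
    have h1 := congrFun hn v
    rw [Finset.sum_apply] at h1
    rw [← Pi.zero_apply (M := fun _ : Pl => ZMod 3) v, ← h1]
    refine Finset.sum_congr rfl fun i _ => ?_
    rw [Pi.smul_apply, smul_eq_mul, hpsi1 (d' i) (d i) (hd0 i) (hd' i)]
  · -- ranks
    change Module.finrank ℤ (Additive (SU ι S)) + 3 * e = 3 * Module.finrank ℤ (Additive (SF ι σ S)) + e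
    have h1 : Module.finrank ℤ (Additive (SU ι S)) = 2 + A.card := by
      rw [← hNRK x L ι θ σ c hF]
      exact U2
    rw [h1, X3]
    omega
  · -- the symbols of `y`
    funext v
    rw [hpsi1 y' _ hyE hy', Pi.zero_apply]
    have h1 : ∀ π : PP, tm π.1 (y : Eis) (x : Eis) = 0 := by
      intro π
      have h2 := htm π
      rw [tm] at h2 ⊢
      linear_combination -h2
    cases v with
    | none =>
      change -∑ᶠ π : PP, tm π.1 (y : Eis) (x : Eis) = 0
      rw [finsum_eq_zero_of_forall_eq_zero h1, neg_zero]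
    | some π => exact h1 π

end Pool.Agent.PT

end

section

/-!
# NMAT: the norm theorem for `L / Q(w)`, `y` arbitrary
-/

open NumberField IsDedekindDomain Finset
open scoped nonZeroDivisors Pointwise

namespace Pool.Agent.PT3

open Pool.Agent.Lib_helper18 Pool.Agent.Lib_helper18.Eis Pool.Agent.Lib_helper84.Cub
open Pool.Agent.PT Pool.Agent.PTE
open Pool.Agent.PT.NMAIN

/-- NMAT. -/
theorem NMAT_thm (hSTM : STM) (hSPP : SPP) (hSSL : SSL) (hSLC : SLC) (hLCI : LCI)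
    (hHERBQ : HERBQ) (hSUN : SUN) (hNRK : NRK) (hNHN : NHN) (hNTR : NTR) (hNCNT : NCNT)
    (hNFIX : NFIX) (hNHO : NHO) (hNNS : NNS) (hNGEN : NGEN) : NMAT := by
  classical
  intro x L _ _ ι θ σ c hx hx3 hV hcube hF y hy htm hyLC
  have hxE : (x : Eis) ≠ 0 := by
    intro h
    have := congrArg Eis.re h
    rw [intCast_re, zero_re] at this
    exact hx this
  have hyE : (y : Eis) ≠ 0 := by
    intro h
    have := congrArg Eis.re h
    rw [intCast_re, zero_re] at this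
    exact hy this
  have hι := hF.inj
  have hι0 : ∀ a : Eis, a ≠ 0 → ι a ≠ 0 := fun a ha h => ha (hι (by rw [h, map_zero]))
  -- the set of places
  obtain ⟨S₀, hS₀⟩ : ∃ S₀ : Finset Pl, ∀ v, v ∈ S₀ ↔ v = none ∨
      ∃ π : PP, v = some π ∧ (π.1 ∣ (x : Eis) ∨ π.1 ∣ (y : Eis)) := by
    have hfin : ({v : Pl | v = none ∨ ∃ π : PP, v = some π ∧
        (π.1 ∣ (x : Eis) ∨ π.1 ∣ (y : Eis))}).Finite := by
      have h1 := (hSPP.2.2.1 (x : Eis) hxE).union (hSPP.2.2.1 (y : Eis) hyE)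
      refine ((h1.image some).insert none).subset ?_
      rintro v (rfl | ⟨π, rfl, h⟩)
      · exact Set.mem_insert _ _
      · exact Set.mem_insert_of_mem _ ⟨π, h, rfl⟩
    exact ⟨hfin.toFinset, fun v => hfin.mem_toFinset⟩
  obtain ⟨S, e, d, hSS, hSLC', hcard, hd0, hdS, hdind, hdsym⟩ := hNGEN x S₀ hx hx3 hV hcube
    ((hS₀ none).2 (Or.inl rfl)) (fun π h => (hS₀ _).2 (Or.inr ⟨π, rfl, Or.inl h⟩)) (by
      intro π h hLC
      rcases (hS₀ _).1 h with h1 | ⟨π', h1, h2⟩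
      · exact absurd h1 (by simp)
      · have h3 : π = π' := Option.some.inj h1
        subst h3
        rcases h2 with h2 | h2
        · exact h2
        · exact hyLC π h2 hLC)
  have hnone : none ∈ S := hSS ((hS₀ none).2 (Or.inl rfl))
  have hxS : ∀ π : PP, π.1 ∣ (x : Eis) → some π ∈ S := fun π h =>
    hSS ((hS₀ _).2 (Or.inr ⟨π, rfl, Or.inl h⟩))
  have hyS : ∀ v : Pl, uni v ∣ (y : Eis) → v ∈ S := by
    intro v hv
    cases v with
    | none => exact hnone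
    | some π => exact hSS ((hS₀ _).2 (Or.inr ⟨π, rfl, Or.inr hv⟩))
  obtain ⟨H1, H2, -⟩ := hNHN x L ι θ σ c hx hF
  obtain ⟨-, T2, -, T4, -, -⟩ := hNTR x L ι θ σ c hx hx3 hF
  obtain ⟨X1, X2, X3⟩ := hNFIX x L ι θ σ c hx hx3 hF S
  obtain ⟨O1, O2⟩ := hNHO x L ι θ σ c hx hx3 hF S hnone hxS
  have hNC := hNCNT x L ι θ σ c hx hx3 hV hF
  have hσ3 : σ ^ 3 = 1 := by
    ext z
    change σ (σ (σ z)) = z
    exact H1 z
  -- norms
  have hNval : ∀ u : Lˣ, ((∏ i ∈ range 3, σ ^ i • u : Lˣ) : L) = u * σ u * σ (σ u) := by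
    intro u
    rw [prod_range_succ, prod_range_succ, prod_range_succ, prod_range_zero, one_mul]
    rfl
  have hN : ∀ u : Lˣ, ∃ a b : Eis, a ≠ 0 ∧ b ≠ 0 ∧
      ((∏ i ∈ range 3, σ ^ i • u : Lˣ) : L) * ι b = ι a := by
    intro u
    have h1 : σ ((∏ i ∈ range 3, σ ^ i • u : Lˣ) : L) = ((∏ i ∈ range 3, σ ^ i • u : Lˣ) : L) := by
      rw [hNval, map_mul, map_mul, H1]
      ring
    obtain ⟨a, b, hb, hab⟩ := H2 _ h1
    refine ⟨a, b, ?_, hb, hab⟩
    rintro rfl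
    rw [map_zero] at hab
    exact (mul_ne_zero (Units.ne_zero _) (hι0 b hb)) hab
  -- the units
  have hd' : ∀ i, ∃ u : Lˣ, (u : L) = ι (d i) := fun i => ⟨Units.mk0 _ (hι0 _ (hd0 i)), rfl⟩
  choose d' hd' using hd'
  have hpsi := fun {u : Lˣ} {a b : Eis} (ha : a ≠ 0) (hb : b ≠ 0) (h : (u : L) * ι b = ι a) v =>
    psi_eq (L := L) (ι := ι) hSTM hSPP hSSL hι hxE ha hb h v
  have hpsi1 : ∀ (u : Lˣ) (a : Eis), a ≠ 0 → (u : L) = ι a → ∀ v, psi ι (x : Eis) u v = sy v a x := by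
    intro u a ha h v
    rw [hpsi (u := u) ha one_ne_zero (by rw [map_one, mul_one, h]),
      sy_one hSTM hSPP hSSL v _ hxE, sub_zero]
  -- the set of primes
  obtain ⟨A, hA⟩ : ∃ A : Finset (HeightOneSpectrum (𝓞 L)),
      (A : Set (HeightOneSpectrum (𝓞 L))) = ⋃ v ∈ S, Abv ι v := by
    have hfin : (⋃ v ∈ S, Abv ι v).Finite := S.finite_toSet.biUnion fun v _ => (T4 v).1
    exact ⟨hfin.toFinset, hfin.coe_toFinset⟩
  obtain ⟨U1, U2⟩ := hSUN L A
  rw [hA] at U1 U2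
  have hAcard : A.card + 2 * (e + 1) = 3 * S.card := by
    have h1 : A = S.biUnion fun v => (T4 v).1.toFinset := by
      ext P
      rw [Finset.mem_biUnion, ← Finset.mem_coe, hA, Set.mem_iUnion₂]
      constructor
      · rintro ⟨v, hv, hP⟩
        exact ⟨v, hv, (T4 v).1.mem_toFinset.2 hP⟩
      · rintro ⟨v, hv, hP⟩
        exact ⟨v, hv, (T4 v).1.mem_toFinset.1 hP⟩
    rw [h1, Finset.card_biUnion]
    · have h2 : ∀ v ∈ S, (T4 v).1.toFinset.card = if LC (uni v) x then 3 else 1 := by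
        intro v _
        rw [← hNC v, Nat.card_coe_set_eq, Set.ncard_eq_toFinset_card _ (T4 v).1]
      rw [Finset.sum_congr rfl h2, ← hcard, Finset.card_filter, Finset.mul_sum,
        ← Finset.sum_add_distrib, Finset.card_eq_sum_ones, Finset.mul_sum]
      refine Finset.sum_congr rfl fun v _ => ?_
      by_cases h : LC (uni v) x
      · rw [if_pos h, if_neg (not_not.2 h)]
        rfl
      · rw [if_neg h, if_pos h]
        rfl
    · intro v _ v' _ hne
      rw [Function.onFun, Finset.disjoint_left]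
      intro P hP hP'
      rw [(T4 v).1.mem_toFinset] at hP
      rw [(T4 v').1.mem_toFinset] at hP'
      obtain ⟨v0, -, h0⟩ := T2 P
      have e1 := uni_inj hSPP (h0 _ hP)
      have e2 := uni_inj hSPP (h0 _ hP')
      exact hne (e1.symm.trans e2)
  obtain ⟨y', hy'⟩ : ∃ u : Lˣ, (u : L) = ι (y : Eis) := ⟨Units.mk0 _ (hι0 _ hyE), rfl⟩
  have : Fact (Nat.Prime 3) := ⟨Nat.prime_three⟩
  have key := hHERBQ 3 Lˣ (L ≃ₐ[ℚ] L) σ (SU ι S) (SF ι σ S) Pl (psi ι (x : Eis)) e d' hσ3 U1 O1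
    (fun u => Iff.rfl) O2 ?_ ?_ ?_ ?_ ?_ ?_ y' (X1 y' _ hy' hyS) ?_
  · obtain ⟨η, -, hη⟩ := key
    refine ⟨(η : L), η.ne_zero, ?_⟩
    rw [← hNval, ← hη, hy', map_intCast]
  · -- multiplicativity
    intro u hu u' hu'
    obtain ⟨a, b, ha, hb, hab⟩ := X2 u hu
    obtain ⟨a', b', ha', hb', hab'⟩ := X2 u' hu'
    funext v
    rw [Pi.add_apply, hpsi ha hb hab, hpsi ha' hb' hab',
      hpsi (u := u * u') (mul_ne_zero ha ha') (mul_ne_zero hb hb') (by
        rw [Units.val_mul, map_mul, map_mul, ← hab, ← hab']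
        ring),
      sy_mul hSTM hSPP hSSL v _ _ _ ha ha' hxE, sy_mul hSTM hSPP hSSL v _ _ _ hb hb' hxE]
    ring
  · -- norms have trivial symbols
    intro u _
    obtain ⟨a, b, ha, hb, hab⟩ := hN u
    funext v
    rw [hpsi ha hb hab]
    obtain ⟨e', he'⟩ := sy_lsym hSTM hSPP hSLC v
    rw [Pi.zero_apply, sub_eq_zero]
    exact hNNS x L ι θ σ c hx hF (uni v) (sy v) e' he' (u : L) a b u.ne_zero ha hb
      (by rw [← hNval]; exact hab)
  · -- the units are in `E'`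
    intro i
    exact X1 (d' i) (d i) (hd' i) (hdS i)
  · -- multiplicative independence
    intro n hn
    have h1 : (fun i => (n i).toNat) = fun i => (-n i).toNat := by
      apply hdind
      apply hι
      have h2 : ∏ i, (d' i) ^ ((n i).toNat) = ∏ i, (d' i) ^ ((-n i).toNat) := by
        rw [← div_eq_one, ← Finset.prod_div_distrib, ← hn]
        refine Finset.prod_congr rfl fun i _ => ?_
        rw [← zpow_natCast, ← zpow_natCast, div_eq_mul_inv, ← zpow_sub]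
        congr 1
        omega
      have h3 := congrArg (fun u : Lˣ => (u : L)) h2
      simp only [Units.coe_prod, Units.val_pow_eq_pow_val, hd'] at h3
      rw [map_prod, map_prod]
      simp only [map_pow]
      exact h3
    funext i
    have h2 : (n i).toNat = (-n i).toNat := congrFun h1 i
    rw [Pi.zero_apply]
    omega
  · -- independence of the symbols
    intro n hn
    apply hdsym n
    intro v
    have h1 := congrFun hn v
    rw [Finset.sum_apply] at h1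
    rw [← Pi.zero_apply (M := fun _ : Pl => ZMod 3) v, ← h1]
    refine Finset.sum_congr rfl fun i _ => ?_
    rw [Pi.smul_apply, smul_eq_mul, hpsi1 (d' i) (d i) (hd0 i) (hd' i)]
  · -- ranks
    change Module.finrank ℤ (Additive (SU ι S)) + 3 * e = 3 * Module.finrank ℤ (Additive (SF ι σ S)) + e
    have h1 : Module.finrank ℤ (Additive (SU ι S)) = 2 + A.card := by
      rw [← hNRK x L ι θ σ c hF]
      exact U2
    rw [h1, X3]
    omega
  · -- the symbols of `y`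
    funext v
    rw [hpsi1 y' _ hyE hy', Pi.zero_apply]
    have h1 : ∀ π : PP, tm π.1 (y : Eis) (x : Eis) = 0 := by
      intro π
      have h2 := htm π
      rw [tm] at h2 ⊢
      linear_combination -h2
    cases v with
    | none =>
      change -∑ᶠ π : PP, tm π.1 (y : Eis) (x : Eis) = 0
      rw [finsum_eq_zero_of_forall_eq_zero h1, neg_zero]
    | some π => exact h1 π

end Pool.Agent.PT3

end

section

/-!
# Prime twists of rank zero: elements with singular matrix in a class of the Galois group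
-/

namespace Pool.Agent.PT

open Pool.Agent.Lib_helper18 Pool.Agent.Lib_helper18.Eis Pool.Agent.Lib_helper84.Cub

namespace DCNT

/-- equality of the entries above the diagonal -/
def Up {s : ℕ} (v w : Fin s → Fin s → ZMod 3) : Prop := ∀ j i, j < i → v j i = w j i

theorem alt_congr {s : ℕ} {v w : Fin s → Fin s → ZMod 3} (h : Up v w) : alt v = alt w := by
  funext j i
  unfold alt
  split_ifs with h1 h2
  · exact h j i h1
  · rw [h i j h2]
  · rfl

open Classical in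
/-- Double counting. -/
theorem count {s : ℕ} {G : Type} [Fintype G] (A : Finset G) (t : G → Fin s → Fin s → ZMod 3)
    (hA : ∀ v v' : Fin s → Fin s → ZMod 3,
      (A.filter fun g => Up (t g) v).card = (A.filter fun g => Up (t g) v').card) :
    ∃ N K : ℕ, 0 < K ∧ ∀ P : (Fin s → Fin s → ZMod 3) → Prop,
      (∀ v w, Up v w → P v → P w) →
      K * (A.filter fun g => P (t g)).card =
        N * (Finset.univ.filter fun v : Fin s → Fin s → ZMod 3 => P v).card := by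
  refine ⟨(A.filter fun g => Up (t g) 0).card,
    (Finset.univ.filter fun v : Fin s → Fin s → ZMod 3 => Up 0 v).card, ?_, ?_⟩
  · apply Finset.card_pos.mpr
    exact ⟨0, Finset.mem_filter.mpr ⟨Finset.mem_univ _, fun j i _ => rfl⟩⟩
  · intro P hP
    have hK : ∀ w : Fin s → Fin s → ZMod 3,
        (Finset.univ.filter fun v : Fin s → Fin s → ZMod 3 => Up w v).card =
          (Finset.univ.filter fun v : Fin s → Fin s → ZMod 3 => Up 0 v).card := by
      intro w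
      refine Finset.card_bij (fun v _ => v - w) ?_ ?_ ?_
      · intro v hv
        rw [Finset.mem_filter] at hv ⊢
        refine ⟨Finset.mem_univ _, fun j i hji => ?_⟩
        have := hv.2 j i hji
        simp [this]
      · intro v _ v' _ h
        exact sub_left_injective h
      · intro v hv
        rw [Finset.mem_filter] at hv
        refine ⟨v + w, ?_, add_sub_cancel_right _ _⟩
        rw [Finset.mem_filter]
        refine ⟨Finset.mem_univ _, fun j i hji => ?_⟩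
        have := hv.2 j i hji
        simp only [Pi.zero_apply] at this
        simp [← this]
    have h1 : ∑ v : Fin s → Fin s → ZMod 3, ∑ g ∈ A, (if P v ∧ Up (t g) v then 1 else 0) =
        (A.filter fun g => Up (t g) 0).card *
          (Finset.univ.filter fun v : Fin s → Fin s → ZMod 3 => P v).card := by
      rw [Finset.card_filter (fun v : Fin s → Fin s → ZMod 3 => P v), Finset.mul_sum]
      refine Finset.sum_congr rfl fun v _ => ?_
      by_cases hv : P v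
      · simp only [hv, true_and, if_true, mul_one]
        rw [← Finset.card_filter]
        exact hA v 0
      · simp [hv]
    have h2 : ∑ g ∈ A, ∑ v : Fin s → Fin s → ZMod 3, (if P v ∧ Up (t g) v then 1 else 0) =
        (Finset.univ.filter fun v : Fin s → Fin s → ZMod 3 => Up 0 v).card *
          (A.filter fun g => P (t g)).card := by
      rw [Finset.card_filter (fun g => P (t g)), Finset.mul_sum]
      refine Finset.sum_congr rfl fun g _ => ?_
      by_cases hg : P (t g)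
      · rw [if_pos hg, mul_one, ← hK (t g), Finset.card_filter]
        refine Finset.sum_congr rfl fun v _ => ?_
        refine if_congr ⟨fun h => h.2, fun h => ⟨hP _ _ h hg, h⟩⟩ rfl rfl
      · rw [if_neg hg, mul_zero]
        refine Finset.sum_eq_zero fun v _ => ?_
        rw [if_neg]
        rintro ⟨h3, h4⟩
        exact hg (hP _ _ (fun j i hji => (h4 j i hji).symm) h3)
    rw [← h2, ← h1, Finset.sum_comm]

end DCNT

open _root_.Pool.Agent.PT.DCNT in
theorem DCNT_thm (hSING : SING) : DCNT := by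
  classical
  intro s f G _ _ χ t hs hf hχ ht a C ha
  have hft : Fintype G := Fintype.ofFinite G
  let A : Finset G := Finset.univ.filter fun g => χ g = a
  have hcard : ∀ P : G → Prop, Nat.card {g : G // χ g = a ∧ P g} = (A.filter P).card := by
    intro P
    rw [Nat.card_eq_fintype_card, Fintype.card_subtype, Finset.filter_filter]
  have hA : ∀ v v' : Fin s → Fin s → ZMod 3,
      (A.filter fun g => Up (t g) v).card = (A.filter fun g => Up (t g) v').card := by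
    intro v v'
    rw [← hcard, ← hcard]
    exact ht a v v' ha
  obtain ⟨N, K, hK, hNK⟩ := count A t hA
  have hall : K * A.card = N * Nat.card (Fin s → Fin s → ZMod 3) := by
    have h1 := hNK (fun _ => True) (fun _ _ _ _ => trivial)
    rw [Finset.filter_true, Finset.filter_true, Finset.card_univ] at h1
    rw [h1, Nat.card_eq_fintype_card]
  have hAc : Nat.card {g : G // χ g = a} = A.card := by
    rw [Nat.card_eq_fintype_card, Fintype.card_subtype]
  have hmain : ∀ P : (Fin s → Fin s → ZMod 3) → Prop, (∀ v w, Up v w → P v → P w) →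
      Nat.card {v : Fin s → Fin s → ZMod 3 // P v} =
        Nat.card {v : Fin s → Fin s → ZMod 3 // (alt v).det = 0} →
      8 * Nat.card {g : G // χ g = a ∧ P (t g)} ≤ 3 * Nat.card {g : G // χ g = a} := by
    intro P hP hPc
    have h1 := hNK P hP
    rw [← Fintype.card_subtype, ← Nat.card_eq_fintype_card] at h1
    have h2 := hSING s hs
    rw [hcard (fun g => P (t g)), hAc]
    have h3 : K * (8 * (A.filter fun g => P (t g)).card) ≤ K * (3 * A.card) := by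
      calc K * (8 * (A.filter fun g => P (t g)).card)
          = 8 * (K * (A.filter fun g => P (t g)).card) := by ring
        _ = N * (8 * Nat.card {v : Fin s → Fin s → ZMod 3 // (alt v).det = 0}) := by
            rw [h1, hPc]
            ring
        _ ≤ N * (3 * Nat.card (Fin s → Fin s → ZMod 3)) := Nat.mul_le_mul_left N h2
        _ = 3 * (K * A.card) := by
            rw [hall]
            ring
        _ = K * (3 * A.card) := by ring
    exact Nat.le_of_mul_le_mul_left h3 hK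
  refine ⟨?_, ?_, ?_⟩
  · refine hmain (fun v => (alt (C - v)).det = 0) ?_ ?_
    · intro v w hvw hv
      have h1 : Up (C - w) (C - v) := fun j i hji => by
        simp [hvw j i hji]
      change (alt (C - w)).det = 0
      rw [alt_congr h1]
      exact hv
    · exact Nat.card_congr ((Equiv.subLeft C).subtypeEquiv fun v => Iff.rfl)
  · refine hmain (fun v => (alt (C + v)).det = 0) ?_ ?_
    · intro v w hvw hv
      have h1 : Up (C + w) (C + v) := fun j i hji => by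
        simp [hvw j i hji]
      change (alt (C + w)).det = 0
      rw [alt_congr h1]
      exact hv
    · exact Nat.card_congr ((Equiv.addLeft C).subtypeEquiv fun v => Iff.rfl)
  · have : NeZero f := ⟨hf.ne'⟩
    obtain ⟨g0, hg0⟩ := hχ a
    have h1 : Nat.card {g : G // χ g = a} = Nat.card χ.ker := by
      refine Nat.card_congr ⟨fun g => ⟨g0⁻¹ * g.1, ?_⟩, fun g => ⟨g0 * g.1, ?_⟩, ?_, ?_⟩
      · rw [MonoidHom.mem_ker, map_mul, map_inv, hg0, g.2, inv_mul_cancel]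
      · rw [map_mul, hg0, MonoidHom.mem_ker.mp g.2, mul_one]
      · intro g
        exact Subtype.ext (mul_inv_cancel_left _ _)
      · intro g
        exact Subtype.ext (inv_mul_cancel_left _ _)
    have h2 : χ.ker.index = f.totient := by
      rw [Subgroup.index_ker, MonoidHom.range_eq_top.mpr hχ, Subgroup.card_top,
        Nat.card_eq_fintype_card, ZMod.card_units_eq_totient]
    rw [h1, ← h2, Subgroup.card_mul_index]

end Pool.Agent.PT

end

section

/-!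
# EADT: `AdC` and `AdT`, `q = 2 (mod 3)`

Follows `Pool/Agent/PT/EADM.lean`.
-/

set_option autoImplicit false

namespace Pool.Agent.PT3

open Pool.Agent.Lib_helper18 Pool.Agent.Lib_helper18.Eis Pool.Agent.Lib_helper84.Cub
open Pool.Agent.PT Pool.Agent.PTE

namespace EADT

open Pool.Agent.PT.EADM

section

variable {h n m k E q : ℕ} {π : Fin m → PP} {p e : Fin m → ℕ} {r f : Fin k → ℕ}
  {w0 : ZMod 3} {c : Fin m → ZMod 3}

theorem below (hSPP : SPP) (π : PP) : ∃ l, Below π l := by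
  obtain ⟨_, _, _, _, _, hSPP6⟩ := hSPP
  obtain ⟨l, hl, h⟩ := hSPP6 π
  exact ⟨l, hl, h⟩

theorem below_ne {π : PP} {l : ℕ} (h : Below π l) : l ≠ 3 := by
  rcases h.h with ⟨h1, _⟩ | ⟨h1, _, _, _⟩ <;> omega

theorem BB_cast (h n E q : ℕ) : BB h n E q = ((3 ^ h * n * q ^ E : ℕ) : ℤ) := by
  unfold BB
  push_cast
  ring

theorem BB_eis (h n E q : ℕ) : ((BB h n E q : ℤ) : Eis) = ((3 ^ h * n * q ^ E : ℕ) : Eis) := by
  rw [BB_cast, Int.cast_natCast]

theorem nat_ne (hN : NF n π p e r f) (hq : q.Prime) : 3 ^ h * n * q ^ E ≠ 0 :=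
  mul_ne_zero (mul_ne_zero (pow_ne_zero _ three_ne_zero) (n_ne hN)) (pow_ne_zero _ hq.ne_zero)

theorem BB_ne (hN : NF n π p e r f) (hq : q.Prime) : BB h n E q ≠ 0 := by
  rw [BB_cast]
  exact_mod_cast nat_ne hN hq

theorem not_dvd_nq (hN : NF n π p e r f) (hq : q.Prime) (hq3 : q ≠ 3) : ¬ 3 ∣ n * q ^ E := by
  intro h1
  rcases Nat.prime_three.dvd_mul.1 h1 with h2 | h2
  · exact three_not hN h2
  · exact hq3 ((Nat.prime_dvd_prime_iff_eq Nat.prime_three hq).1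
      (Nat.prime_three.dvd_of_dvd_pow h2)).symm

theorem base_BT (hSPP : SPP) (hN : NF n π p e r f) (hh : h = 1 ∨ h = 2) (hE : E = 1 ∨ E = 2)
    (hq : q.Prime) (hq3 : q ≠ 3) (hqn : ¬ q ∣ n) : BT (BB h n E q) := by
  have hn0 : n ≠ 0 := n_ne hN
  have h3n := not_dvd_nq (E := E) hN hq hq3
  refine ⟨⟨BB_ne hN hq, fun ϖ => ?_⟩, ?_, ?_⟩
  · obtain ⟨l, hl⟩ := below hSPP ϖ
    have hqE : q ^ E ≠ 0 := pow_ne_zero _ hq.ne_zero
    have h30 : 3 ^ h ≠ 0 := pow_ne_zero _ three_ne_zero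
    rw [BB_eis, hl.V_nat (nat_ne hN hq), Nat.factorization_mul (mul_ne_zero h30 hn0) hqE,
      Nat.factorization_mul h30 hn0, Finsupp.add_apply, Finsupp.add_apply]
    have h1 := fac_le hN l
    have h2 : (3 ^ h).factorization l = 0 := by
      apply Nat.factorization_eq_zero_of_not_dvd
      intro h4
      exact below_ne hl ((Nat.prime_dvd_prime_iff_eq hl.pr Nat.prime_three).1
        (hl.pr.dvd_of_dvd_pow h4))
    by_cases hlq : l = q
    · have h4 : n.factorization l = 0 := by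
        rw [hlq]
        exact Nat.factorization_eq_zero_of_not_dvd hqn
      have h3 : (q ^ E).factorization l = E := by
        rw [hlq, hq.factorization_pow, Finsupp.single_eq_same]
      omega
    · have h3 : (q ^ E).factorization l = 0 := by
        apply Nat.factorization_eq_zero_of_not_dvd
        intro h
        exact hlq ((Nat.prime_dvd_prime_iff_eq hl.pr hq).1 (hl.pr.dvd_of_dvd_pow h))
      omega
  · unfold BB
    have h1 : (3 : ℤ) ∣ 3 ^ h := dvd_pow_self _ (by omega)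
    exact (h1.mul_right _).mul_right _
  · intro h27
    rw [BB_cast] at h27
    have h1 : 27 ∣ 3 ^ h * n * q ^ E := by exact_mod_cast h27
    rw [mul_assoc] at h1
    apply h3n
    rcases hh with rfl | rfl
    · exact (Nat.dvd_of_mul_dvd_mul_left (by norm_num : 0 < 3)
        ((by norm_num : 3 * 3 ∣ 27).trans (by simpa using h1)))
    · exact (Nat.dvd_of_mul_dvd_mul_left (by norm_num : 0 < 9)
        ((by norm_num : 9 * 3 ∣ 27).trans (by simpa using h1)))

theorem base_Ty (hLCL : LCL) (hN : NF n π p e r f) (hh : h = 1 ∨ h = 2)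
    (hq : q.Prime) (hq3 : q ≠ 3) (hw : wt (((q : ℤ) ^ E) ^ 2) = w0) :
    TyB h n w0 (BB h n E q) := by
  obtain ⟨-, hmul, ⟨h3v, h3w⟩, hunit, -⟩ := hLCL
  have hn0 : (n : ℤ) ≠ 0 := by exact_mod_cast n_ne hN
  have hn3 : ¬ (3 : ℤ) ∣ (n : ℤ) := by
    intro h
    exact three_not hN (by exact_mod_cast h)
  have hq0 : (q : ℤ) ^ E ≠ 0 := pow_ne_zero _ (by exact_mod_cast hq.ne_zero)
  have hqE3 : ¬ (3 : ℤ) ∣ (q : ℤ) ^ E := by
    intro h
    have h1 : 3 ∣ q ^ E := by exact_mod_cast h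
    exact hq3 ((Nat.prime_dvd_prime_iff_eq Nat.prime_three hq).1
      (Nat.prime_three.dvd_of_dvd_pow h1)).symm
  have h30 : (3 : ℤ) ≠ 0 := by norm_num
  have h3h : lv ((3 : ℤ) ^ h) = (h : ZMod 3) ∧ lw ((3 : ℤ) ^ h) = 0 := by
    rcases hh with rfl | rfl
    · rw [pow_one, h3v, h3w]
      exact ⟨by norm_num, rfl⟩
    · rw [pow_two, (hmul 3 3 h30 h30).1, (hmul 3 3 h30 h30).2, h3v, h3w]
      exact ⟨by norm_num, by norm_num⟩
  have h1 := hmul ((3 : ℤ) ^ h) n (pow_ne_zero _ h30) hn0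
  have h2 := hmul ((3 : ℤ) ^ h * n) ((q : ℤ) ^ E) (mul_ne_zero (pow_ne_zero _ h30) hn0) hq0
  refine ⟨BB_ne hN hq, ?_, ?_⟩
  · unfold BB
    rw [h2.1, h1.1, h3h.1, (hunit _ hn3).1, (hunit _ hqE3).1, add_zero, add_zero]
  · unfold BB
    rw [h2.2, h1.2, h3h.2, (hunit _ hn3).2, (hunit _ hqE3).2, zero_add, hw]

theorem sym_pow (hSPP : SPP) {ϖ : PP} (hE : E = 1 ∨ E = 2) {a : Eis} (ha : ¬ ϖ.1 ∣ a) :
    sym ϖ.1 (a ^ E) = (E : ZMod 3) * sym ϖ.1 a := by
  obtain ⟨_, _, _, hSPP4, _, _⟩ := hSPP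
  rcases hE with rfl | rfl
  · rw [pow_one, Nat.cast_one, one_mul]
  · rw [pow_two, sym_mul ϖ.2.1 (hSPP4 ϖ).1 ha ha]
    push_cast
    ring

/-- The condition at `π i`. -/
theorem key (hSPP : SPP) (hN : NF n π p e r f) (hE : E = 1 ∨ E = 2) (hq : q.Prime)
    (hqn : ¬ q ∣ n) (hqc : ∀ i, (E : ZMod 3) * sym (π i).1 (q : Eis) = c i) {x : ℤ} (hx : x ≠ 0)
    (i : Fin m) :
    (V (π i).1 (n : Eis) : ZMod 3) * ch (π i).1 (x : Eis) -
      (V (π i).1 (x : Eis) : ZMod 3) * (ch (π i).1 ((3 ^ h * n : ℕ) : Eis) + c i) =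
        tm (π i).1 (x : Eis) ((BB h n E q : ℤ) : Eis) := by
  have hn0 : n ≠ 0 := n_ne hN
  obtain ⟨l, hl⟩ := below hSPP (π i)
  have hpi : (p i : Eis) = (π i).1 * conj (π i).1 := hN.pπ i
  have hlp : l = p i := by
    have h1 : (π i).1 ∣ (p i : Eis) := by rw [hpi]; exact dvd_mul_right _ _
    exact (Nat.prime_dvd_prime_iff_eq hl.pr (hN.pp i)).1 ((hl.dvd_nat _).1 h1)
  have hpn : p i ∣ n := by
    have h1 : p i ∣ ∏ i, p i ^ e i :=
      (dvd_pow_self _ (by rcases hN.pe i with h | h <;> omega)).trans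
        (Finset.dvd_prod_of_mem _ (Finset.mem_univ i))
    rw [hN.eq]
    exact h1.mul_right _
  have hq' : ¬ (π i).1 ∣ (q : Eis) := by
    intro h
    have h1 := (Nat.prime_dvd_prime_iff_eq hl.pr hq).1 ((hl.dvd_nat _).1 h)
    apply hqn
    rw [← h1, hlp]
    exact hpn
  have hqE' : ¬ (π i).1 ∣ (q : Eis) ^ E := fun h => hq' ((π i).2.1.dvd_of_dvd_pow h)
  have h3 : ¬ (π i).1 ∣ 3 := by
    obtain ⟨_, _, _, hSPP4, _, _⟩ := hSPP
    exact (hSPP4 (π i)).1
  have h30 : (3 : ℕ) ^ h ≠ 0 := pow_ne_zero _ three_ne_zero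
  have h3h : ¬ (π i).1 ∣ ((3 ^ h : ℕ) : Eis) := by
    rw [hl.dvd_nat]
    intro h4
    exact below_ne hl ((Nat.prime_dvd_prime_iff_eq hl.pr Nat.prime_three).1
      (hl.pr.dvd_of_dvd_pow h4))
  have hqE0 : (q : Eis) ^ E ≠ 0 := pow_ne_zero _ (natCast_ne hq.ne_zero)
  have e1 : ((BB h n E q : ℤ) : Eis) = ((3 ^ h * n : ℕ) : Eis) * (q : Eis) ^ E := by
    rw [BB_eis]
    push_cast
    ring
  have e2 : V (π i).1 ((3 ^ h * n : ℕ) : Eis) = V (π i).1 (n : Eis) := by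
    have h5 : ((3 ^ h * n : ℕ) : Eis) = ((3 ^ h : ℕ) : Eis) * (n : Eis) := by push_cast; ring
    rw [h5, V_mul (π i).2.1 (natCast_ne h30) (natCast_ne hn0), V_eq_zero h3h, zero_add]
  have hm0 : ((3 ^ h * n : ℕ) : Eis) ≠ 0 := natCast_ne (mul_ne_zero h30 hn0)
  rw [e1]
  unfold tm
  rw [V_mul (π i).2.1 hm0 hqE0, V_eq_zero hqE', add_zero, e2,
    ch_mul (π i).2.1 h3 hm0 hqE0, ch_unit (π i).2.1 hqE', sym_pow hSPP hE hq', hqc i]

/-- The tame conditions outside of `q`. -/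
theorem sym_of (hSPP : SPP) (hSCJ : SCJ) (hN : NF n π p e r f) (hE : E = 1 ∨ E = 2)
    (hq : q.Prime) (hqn : ¬ q ∣ n) (hqc : ∀ i, (E : ZMod 3) * sym (π i).1 (q : Eis) = c i)
    {x : ℤ} (hx : x ≠ 0) (hsupp : ∀ l : ℕ, l.Prime → (l : ℤ) ∣ x → l ∣ 3 * n)
    (hsym : ∀ i, (V (π i).1 (n : Eis) : ZMod 3) * ch (π i).1 (x : Eis) -
      (V (π i).1 (x : Eis) : ZMod 3) * (ch (π i).1 ((3 ^ h * n : ℕ) : Eis) + c i) = 0)
    (ϖ : PP) (hϖ : q % 3 = 2 ∨ ¬ ϖ.1 ∣ (q : Eis)) :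
    tm ϖ.1 (x : Eis) ((BB h n E q : ℤ) : Eis) = 0 := by
  have hB0 : BB h n E q ≠ 0 := BB_ne hN hq
  obtain ⟨l, hl⟩ := below hSPP ϖ
  have hlq : l % 3 = 1 → l ≠ q := by
    intro h1 h2
    rcases hϖ with h3 | h3
    · omega
    · apply h3
      rw [hl.dvd_nat, h2]
  obtain ⟨_, hSPP2, _, hSPP4, _, _⟩ := id hSPP
  obtain ⟨hSCJ1, _, _, hSCJ4⟩ := hSCJ
  rcases hl.h with ⟨hl3, hl2⟩ | ⟨hl3, hl2, hl4, hl5⟩
  · rw [hl2]
    exact hSCJ4 l hl.pr hl3 x _ hx hB0
  · by_cases hln : l ∣ n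
    · rcases prime_dvd hN hl.pr hln with ⟨i, hi⟩ | ⟨j, hj⟩
      · have h4 : ϖ.1 ∣ (π i).1 * conj (π i).1 := by
          rw [← hN.pπ i, ← hi, hl4]
          exact dvd_mul_right _ _
        rcases ϖ.2.1.dvd_or_dvd h4 with h5 | h5
        · have h6 : ϖ = π i :=
            hSPP2 _ _ (ϖ.2.1.associated_of_dvd (π i).2.1 h5)
          rw [h6, ← key hSPP hN hE hq hqn hqc hx i]
          exact hsym i
        · obtain ⟨ϖ', hϖ'⟩ := (hSPP4 (π i)).2
          have h6 : ϖ = ϖ' := by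
            apply hSPP2
            rw [hϖ']
            exact ϖ.2.1.associated_of_dvd (prime_conj (π i).2.1) h5
          rw [h6, hϖ']
          have h7 := hSCJ1 (π i).1 (x : Eis) ((BB h n E q : ℤ) : Eis) (π i).2.1
            (hSPP4 (π i)).1 (intCast_ne hx) (intCast_ne hB0)
          rw [map_intCast, map_intCast] at h7
          rw [h7, ← key hSPP hN hE hq hqn hqc hx i, hsym i, neg_zero]
      · have := hN.r2 j
        rw [← hj] at this
        omega
    · have hl3' : ¬ l ∣ 3 * n := by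
        intro h1
        rcases hl.pr.dvd_mul.1 h1 with h2 | h2
        · exact below_ne hl ((Nat.prime_dvd_prime_iff_eq hl.pr Nat.prime_three).1 h2)
        · exact hln h2
      have h4 : ¬ ϖ.1 ∣ (x : Eis) := by
        intro h
        exact hl3' (hsupp l hl.pr ((hl.dvd_int x).1 h))
      have h5 : ¬ ϖ.1 ∣ ((BB h n E q : ℤ) : Eis) := by
        rw [BB_eis, hl.dvd_nat]
        intro h
        rcases hl.pr.dvd_mul.1 h with h6 | h6
        · rcases hl.pr.dvd_mul.1 h6 with h7 | h7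
          · exact below_ne hl ((Nat.prime_dvd_prime_iff_eq hl.pr Nat.prime_three).1
              (hl.pr.dvd_of_dvd_pow h7))
          · exact hln h7
        · exact hlq hl3 ((Nat.prime_dvd_prime_iff_eq hl.pr hq).1 (hl.pr.dvd_of_dvd_pow h6))
      unfold tm
      rw [V_eq_zero h4, V_eq_zero h5]
      simp

theorem unr_of (hSPP : SPP) (hh : h = 1 ∨ h = 2) {x : ℤ}
    (hsupp : ∀ l : ℕ, l.Prime → (l : ℤ) ∣ x → l ∣ 3 * n) (ϖ : PP)
    (hϖ : ¬ ϖ.1 ∣ ((BB h n E q : ℤ) : Eis)) : ¬ ϖ.1 ∣ (x : Eis) := by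
  intro h1
  obtain ⟨l, hl⟩ := below hSPP ϖ
  apply hϖ
  rw [BB_eis, hl.dvd_nat]
  have h2 : 3 * n ∣ 3 ^ h * n := Nat.mul_dvd_mul_right (dvd_pow_self _ (by omega)) n
  exact ((hsupp l hl.pr ((hl.dvd_int x).1 h1)).trans h2).mul_right _

theorem wild_iff (hT : TyB h n w0 (BB h n E q)) (hh : h = 1 ∨ h = 2) (x : ℤ) :
    (h = 2 → lw x + lv x * (wt ((n : ℤ) ^ 2) + w0) = 0) ↔
      (lv (BB h n E q) = 2 → lw x + lv x * lw (BB h n E q) = 0) := by
  obtain ⟨-, h1, h2⟩ := hT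
  rw [h1, h2]
  rcases hh with rfl | rfl
  · constructor
    · intro _ h3
      exact absurd h3 (by decide)
    · intro _ h3
      exact absurd h3 (by norm_num)
  · constructor
    · intro h3 _
      exact h3 rfl
    · intro h3 _
      exact h3 (by decide)

end

end EADT

open _root_.Pool.Agent.PT3.EADT in
/-- EADT: `AdC` and `AdT`, `q = 2 (mod 3)`. -/
theorem EADT_thm (hSTM : STM) (hSPP : SPP) (hSCJ : SCJ) (hLCL : LCL) : EADT := by
  have _ := hSTM
  intro h n m k π p e r f w0 c E q hN hh hE hq hq3 hcl hqn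
  obtain ⟨hqw, hqc⟩ := hcl
  have hq3' : q ≠ 3 := by rintro rfl; omega
  have hT := base_Ty hLCL hN hh hq hq3' hqw
  refine ⟨base_BT hSPP hN hh hE hq hq3' hqn, hT, fun x hsupp => ⟨?_, ?_⟩⟩
  · rintro ⟨hx, _, hsym, hwild⟩
    exact ⟨⟨hx, fun ϖ => sym_of hSPP hSCJ hN hE hq hqn hqc hx hsupp hsym ϖ (Or.inl hq3),
      fun ϖ hϖ => unr_of hSPP hh hsupp ϖ hϖ⟩, (wild_iff hT hh x).1 hwild⟩
  · rintro ⟨⟨hx, hsym, _⟩, hwild⟩
    refine ⟨hx, hsupp, fun i => ?_, (wild_iff hT hh x).2 hwild⟩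
    rw [key hSPP hN hE hq hqn hqc hx i]
    exact hsym (π i)

end Pool.Agent.PT3

end

section

/-!
# PT_LAM: the local form of the antisymmetry
-/

namespace Pool.Agent.PT

open Pool.Agent.Lib_helper18 Pool.Agent.Lib_helper18.Eis Pool.Agent.Lib_helper84.Cub

namespace LAM

theorem icast_ne {n : ℤ} (h : n ≠ 0) : (n : Eis) ≠ 0 := by
  intro h0
  apply h
  have := congrArg Eis.re h0
  simpa using this

theorem w_ne : (w : Eis) ≠ 0 := by
  intro h0
  have := congrArg Eis.im h0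
  simp at this

/-- the swapped solution -/
theorem sol_swap {b x p q p' q' : ℤ} (h : Sol b x p q p' q') : Sol x b p (-p') (-q) q' := by
  refine ⟨⟨?_, ?_⟩, ?_⟩
  · have := h.eq
    linear_combination this
  · have := h.n2
    intro h0
    apply this
    linear_combination h0
  · have := h.n1
    intro h0
    apply this
    linear_combination h0

theorem Gf_swap (p q p' q' : ℤ) (i : ℕ) : Gf p (-p') (-q) q' i = Gf p q p' q' i := by
  unfold Gf
  push_cast
  ring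

/-- every `sy v` is a symbol -/
theorem lsym (hSTM : STM) (hSPP : SPP) (hSLC : SLC) (v : Pl) : ∃ e, LSym (uni v) (sy v) e := by
  rcases v with _ | π
  · exact ⟨4, hSLC⟩
  · exact ⟨1, hSTM π.1 π.2.1 (hSPP.2.2.2.1 π).1⟩

theorem tm_swap (π a b : Eis) : tm π b a = - tm π a b := by
  unfold tm
  ring

/-- `(B, b) = 0` at all places -/
theorem sy_zero {B b : ℤ} (h : Adm B b) (v : Pl) : sy v (B : Eis) (b : Eis) = 0 := by
  have h1 : ∀ π : PP, tm π.1 (B : Eis) (b : Eis) = 0 := by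
    intro π
    rw [tm_swap π.1 (b : Eis) (B : Eis), h.sym π, neg_zero]
  rcases v with _ | π
  · show sl (B : Eis) (b : Eis) = 0
    unfold sl
    rw [finsum_congr h1, finsum_zero, neg_zero]
  · exact h1 π

/-- `(w, x) = 0` if `x` is a local cube -/
theorem w_lc (hLCI : LCI) {v : Pl} {e : ℕ} (hs : LSym (uni v) (sy v) e) {x : ℤ} (hx : x ≠ 0)
    (h : LC (uni v) x) : sy v w (x : Eis) = 0 := by
  have h1 : sy v (x : Eis) w = 0 := hLCI.2.2 (uni v) (sy v) e x w hs h hx w_ne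
  rw [hs.skew (x : Eis) w (icast_ne hx) w_ne, h1, neg_zero]

/-- expansion of `(w, B x b)` -/
theorem w_mul {v : Pl} {e : ℕ} (hs : LSym (uni v) (sy v) e) {B x b : ℤ} (hB : B ≠ 0)
    (hx : x ≠ 0) (hb : b ≠ 0) : sy v w ((B * x * b : ℤ) : Eis) =
      sy v w (B : Eis) + sy v w (x : Eis) + sy v w (b : Eis) := by
  have hB' := icast_ne hB
  have hx' := icast_ne hx
  have hb' := icast_ne hb
  have h1 : ((B * x * b : ℤ) : Eis) = (B : Eis) * (x : Eis) * (b : Eis) := by push_cast; ring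
  rw [h1, hs.skew ((B : Eis) * (x : Eis) * (b : Eis)) w (mul_ne_zero (mul_ne_zero hB' hx') hb') w_ne,
    hs.mul _ _ _ (mul_ne_zero hB' hx') hb' w_ne, hs.mul _ _ _ hB' hx' w_ne,
    hs.skew (B : Eis) w hB' w_ne, hs.skew (x : Eis) w hx' w_ne, hs.skew (b : Eis) w hb' w_ne]
  ring

theorem dvd_weak {π a : Eis} {M N : ℕ} (hMN : M ≤ N) (h : π ^ N ∣ a) : π ^ M ∣ a :=
  (pow_dvd_pow π hMN).trans h

/-- the case that `b` is a local cube and `x` is not -/
theorem half (hSTM : STM) (hSPP : SPP) (hSLC : SLC) (hLCI : LCI) (hAVV : AVV) (hF2B : F2B)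
    (v : Pl) (B b x p q p' q' : ℤ) (hB : BOk B) (hb : Adm B b) (hx : Adm B x)
    (hs : Sol b x p q p' q') (h1 : LC (uni v) b) (h2 : ¬ LC (uni v) x) :
    TT v B b x p q p' q' = UV (sy v) B b x p q p' q' ∧
      TT v B x b p (-p') (-q) q' = 0 := by
  obtain ⟨e, hL⟩ := lsym hSTM hSPP hSLC v
  have hwb : sy v w (b : Eis) = 0 := w_lc hLCI hL hb.ne h1
  obtain ⟨N0, hN⟩ := hF2B v B b x p q p' q' hB hb hx hs h1 h2
  have hA := (hAVV v B b x p q p' q' hB.ne hb.ne hx.ne hs.toSolW (sy_zero hx v) h1).2 _ N0 hN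
  constructor
  · unfold TT
    rw [if_pos h1, hA]
    unfold UV
    rw [w_mul hL hB.ne hx.ne hb.ne, hwb]
    ring
  · unfold TT
    rw [if_neg h2]
    rcases v with _ | π
    · rfl
    · show (if 3 ∣ V π.1 (x : Eis) + V π.1 (B : Eis) ∧ ¬ 3 ∣ V π.1 (x : Eis)
        then - tm π.1 w (b : Eis) else 0) = 0
      have hwb' : tm π.1 w (b : Eis) = 0 := hwb
      rw [hwb', neg_zero, ite_self]

theorem UV_swap {v : Pl} (B b x p q p' q' : ℤ) :
    UV (sy v) B x b p (-p') (-q) q' = UV (sy v) B b x p q p' q' := by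
  unfold UV
  rw [Gf_swap, Gf_swap]
  have : B * b * x = B * x * b := by ring
  rw [this]

/-- an admissible noncube at a place dividing `B` has valuation prime to `3` -/
theorem val_nc (hLCI : LCI) {B b : ℤ} (hB : BOk B) (hb : Adm B b) (π : PP)
    (hd : π.1 ∣ (B : Eis)) (h : ¬ LC π.1 b) : ¬ 3 ∣ V π.1 (b : Eis) := by
  intro h3
  apply h
  rw [hLCI.1 π b hb.ne]
  refine ⟨h3, ?_⟩
  have h1 : tm π.1 (b : Eis) (B : Eis) = 0 := hb.sym π
  have h2 : ((V π.1 (b : Eis) : ℕ) : ZMod 3) = 0 := by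
    rw [ZMod.natCast_eq_zero_iff]
    exact h3
  unfold tm at h1
  rw [h2, zero_mul, sub_zero] at h1
  have h4 : V π.1 (B : Eis) ≤ 2 := hB.cf π
  have h5 : V π.1 (B : Eis) ≠ 0 := by
    intro h0
    exact (V_eq_zero_iff.1 h0) hd
  have h6 : ((V π.1 (B : Eis) : ℕ) : ZMod 3) ≠ 0 := by
    intro h0
    rw [ZMod.natCast_eq_zero_iff] at h0
    omega
  have : Fact (Nat.Prime 3) := ⟨Nat.prime_three⟩
  rcases mul_eq_zero.1 h1 with h7 | h7
  · exact absurd h7 h6
  · exact h7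

end LAM

set_option linter.unusedVariables false in
open _root_.Pool.Agent.PT.LAM in
theorem LAM_thm (hSTM : STM) (hSPP : SPP) (hSSL : SSL) (hSLC : SLC) (hSREC : SREC) (hSCJ : SCJ)
    (hLCI : LCI) (hIF1 : IF1) (hAVV : AVV) (hF2B : F2B) (hF3R : F3R) (hF3U : F3U) : LAM := by
  intro v B b x p q p' q' hB hb hx hs h9
  obtain ⟨e, hL⟩ := lsym hSTM hSPP hSLC v
  have hs' := sol_swap hs
  by_cases h1 : LC (uni v) b
  · by_cases h2 : LC (uni v) x
    · -- both are local cubes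
      obtain ⟨N0, hN⟩ := hIF1 (uni v) (sy v) e hL b x p q p' q' hb.ne hx.ne hs
      obtain ⟨N1, hN1⟩ := (hAVV v B b x p q p' q' hB.ne hb.ne hx.ne hs.toSolW
        (sy_zero hx v) h1).1
      obtain ⟨N2, hN2⟩ := (hAVV v B x b p (-p') (-q) q' hB.ne hx.ne hb.ne hs'.toSolW
        (sy_zero hb v) h2).1
      obtain ⟨r, hr⟩ := h1 (max N0 N1)
      obtain ⟨ξ, hξ⟩ := h2 (max N0 N2)
      have hwb : sy v w (b : Eis) = 0 := w_lc hLCI hL hb.ne h1
      have hwx : sy v w (x : Eis) = 0 := w_lc hLCI hL hx.ne h2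
      have e1 := hN r ξ (dvd_weak (le_max_left _ _) hr) (dvd_weak (le_max_left _ _) hξ)
        (B : Eis) (icast_ne hB.ne)
      have e2 := hN1 r (dvd_weak (le_max_right _ _) hr)
      have e3 := hN2 ξ (dvd_weak (le_max_right _ _) hξ)
      unfold TT
      rw [if_pos h1, if_pos h2, hwb, hwx, ← e2, ← e3]
      unfold UV
      rw [w_mul hL hB.ne hx.ne hb.ne, hwb, hwx]
      linear_combination e1
    · obtain ⟨h3, h4⟩ := half hSTM hSPP hSLC hLCI hAVV hF2B v B b x p q p' q' hB hb hx hs h1 h2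
      rw [h3, h4, add_zero]
  · by_cases h2 : LC (uni v) x
    · obtain ⟨h3, h4⟩ := half hSTM hSPP hSLC hLCI hAVV hF2B v B x b p (-p') (-q) q' hB hx hb hs'
        h2 h1
      rw [h3, UV_swap]
      rw [neg_neg, neg_neg] at h4
      rw [h4, zero_add]
    · -- both are not local cubes
      rcases v with _ | π
      · exfalso
        have hl : ∀ y : ℤ, Adm B y → (LC (uni none) y ↔ C9 y) := fun y hy =>
          hLCI.2.1 y hy.three
        rcases h9 with h9 | h9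
        · exact h1 ((hl b hb).2 h9)
        · exact h2 ((hl x hx).2 h9)
      · have hT1 : TT (some π) B b x p q p' q' =
            if 3 ∣ V π.1 (b : Eis) + V π.1 (B : Eis) ∧ ¬ 3 ∣ V π.1 (b : Eis)
              then - tm π.1 w (x : Eis) else 0 := by
          unfold TT
          rw [if_neg h1]
        have hT2 : TT (some π) B x b p (-p') (-q) q' =
            if 3 ∣ V π.1 (x : Eis) + V π.1 (B : Eis) ∧ ¬ 3 ∣ V π.1 (x : Eis)
              then - tm π.1 w (b : Eis) else 0 := by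
          unfold TT
          rw [if_neg h2]
        have h1' : ¬ LC π.1 b := h1
        have h2' : ¬ LC π.1 x := h2
        rw [hT1, hT2]
        show _ = UV (tm π.1) B b x p q p' q'
        by_cases hd : π.1 ∣ (B : Eis)
        · have hvb := val_nc hLCI hB hb π hd h1'
          have hvx := val_nc hLCI hB hx π hd h2'
          rw [hF3R π B b x p q p' q' hB hb hx hs hd hvb hvx]
          simp only [hvb, hvx, not_false_eq_true, and_true]
        · have hvb : V π.1 (b : Eis) = 0 := V_eq_zero (hb.unr π hd)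
          have hvx : V π.1 (x : Eis) = 0 := V_eq_zero (hx.unr π hd)
          have hcb : ch π.1 (b : Eis) ≠ 0 := by
            intro h0
            apply h1'
            rw [hLCI.1 π b hb.ne]
            exact ⟨by rw [hvb]; exact dvd_zero 3, h0⟩
          have hcx : ch π.1 (x : Eis) ≠ 0 := by
            intro h0
            apply h2'
            rw [hLCI.1 π x hx.ne]
            exact ⟨by rw [hvx]; exact dvd_zero 3, h0⟩
          rw [hF3U π B b x p q p' q' hB hb hx hs hd hcb hcx, hvb, hvx]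
          simp

end Pool.Agent.PT

end

section

/-!
# The average rank of prime twists: the local terms over `K = Q(w)`

The classes `b`, `x` are now elements of `Z[w]` (`Eis`) and not rational integers. The statements
of this file are those of `PT/Stmts1.lean` and `PT3/Stmts.lean` with `Eis` in place of `ℤ`; the
proofs are the same ones (copy the file named in the docstring and replace `ℤ` by `Eis`, casts
disappear). They were checked numerically.

Everything in `PT`, `PTE`, `PT3`, `PTL`, `PTN` is proved and may be imported, or taken as a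
hypothesis of your theorem (for example `(hSTM : STM) (hSPP : SPP) (hSSL : SSL) (hSLC : SLC)`,
`(hLCL : LCL)`, `(hSCJ : SCJ)`); statements `Stmt_...` of `PTK` may be hypotheses too, if your docstring
says so.
-/

set_option autoImplicit false

namespace Pool.Agent.PTK

open Pool.Agent.Lib_helper18 Pool.Agent.Lib_helper18.Eis Pool.Agent.Lib_helper84.Cub
open Pool.Agent.PT

/-! ### Definitions -/

/-- the linear form `p + q w^i r` -/
def LfE (p q : Eis) (i : ℕ) (r : Eis) : Eis := p + q * w ^ i * r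

/-- the symbol of `B` with `α = [(p + q w² r)(p' + q' w r)] / [(p + q w r)(p' + q' w² r)]` -/
def ASE (s : Eis → Eis → ZMod 3) (B : Eis) (p q p' q' r : Eis) : ZMod 3 :=
  s B (LfE p q 2 r) + s B (LfE p' q' 1 r) - s B (LfE p q 1 r) - s B (LfE p' q' 2 r)

/-- `G_i = q p' - w^i p q'` -/
def GfE (p q p' q' : Eis) (i : ℕ) : Eis := q * p' - w ^ i * p * q'

/-- `D_i = X u + w^i v Y` -/
def DfE (X Y u v : Eis) (i : ℕ) : Eis := X * u + w ^ i * v * Y

/-- The local term of the point `(X, Y)`. -/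
def SVE (s : Eis → Eis → ZMod 3) (x p q p' q' X Y : Eis) : ZMod 3 :=
  (s (DfE X Y p' p 1) (p ^ 3 - x * p' ^ 3) - s (DfE X Y p' p 2) (p ^ 3 - x * p' ^ 3) -
    s (DfE X Y p' p 1) (X ^ 3 + x * Y ^ 3) + s (DfE X Y p' p 2) (X ^ 3 + x * Y ^ 3)) -
  (s (DfE X Y q' q 1) (x * q' ^ 3 - q ^ 3) - s (DfE X Y q' q 2) (x * q' ^ 3 - q ^ 3) -
    s (DfE X Y q' q 1) (X ^ 3 + x * Y ^ 3) + s (DfE X Y q' q 2) (X ^ 3 + x * Y ^ 3))

/-- `b` is a cube in the completion at `π` -/
def LCE (π b : Eis) : Prop := ∀ N : ℕ, ∃ r : Eis, π ^ N ∣ r ^ 3 - b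

/-- `η = (p + q T)/(p' + q' T)` has norm `x` from `K(b^(1/3))`. -/
structure SolWE (b x p q p' q' : Eis) : Prop where
  eq : p ^ 3 + b * q ^ 3 = x * (p' ^ 3 + b * q' ^ 3)
  n1 : p ^ 3 + b * q ^ 3 ≠ 0

/-- `SolWE` with nondegeneracy conditions (automatic when `b` and `x` are not cubes). -/
structure SolE (b x p q p' q' : Eis) : Prop extends SolWE b x p q p' q' where
  n2 : p ^ 3 - x * p' ^ 3 ≠ 0
  g1 : GfE p q p' q' 1 ≠ 0
  g2 : GfE p q p' q' 2 ≠ 0

/-- nondegeneracy of the point `(X, Y)` with respect to `(p, q, p', q')` -/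
structure DNE (X Y p q p' q' : Eis) : Prop where
  d1 : DfE X Y p' p 1 ≠ 0
  d2 : DfE X Y p' p 2 ≠ 0
  d3 : DfE X Y q' q 1 ≠ 0
  d4 : DfE X Y q' q 2 ≠ 0

/-- `(X, Y)` is a point of class `x` on the curve `X³ + Y³ = B` (over `K`). -/
structure PtE (B x X Y : Eis) : Prop where
  hX : X ≠ 0
  hY : Y ≠ 0
  eq : ∃ c : Eis, c ≠ 0 ∧ x * (X ^ 3 + x * Y ^ 3) = B * c ^ 3

/-! ### Identities for a symbol -/

/-- PTK_IF1: `α_b α_x = w⁻¹ k_0` modulo cubes. Copy of `PT/IF1.lean` (in the integral case the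
numbers `Gf .. 1`, `Gf .. 2` are never `0`; here this is assumed in `SolE`). -/
def Stmt_IF1 : Prop := ∀ (π : Eis) (s : Eis → Eis → ZMod 3) (e : ℕ), LSym π s e →
  ∀ b x p q p' q' : Eis, b ≠ 0 → x ≠ 0 → SolE b x p q p' q' →
  ∃ N0 : ℕ, ∀ r ξ : Eis, π ^ N0 ∣ r ^ 3 - b → π ^ N0 ∣ ξ ^ 3 - x →
    ∀ B : Eis, B ≠ 0 → ASE s B p q p' q' r + ASE s B p (-p') (-q) q' ξ =
      s B (GfE p q p' q' 1) - s B (GfE p q p' q' 2) + s w B

/-- PTK_IF2: `(x, α_b) = (x, k_0) + (w, x)`. Copy of `PT/IF2.lean`. -/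
def Stmt_IF2 : Prop := ∀ (π : Eis) (s : Eis → Eis → ZMod 3) (e : ℕ), LSym π s e →
  ∀ b x p q p' q' : Eis, b ≠ 0 → x ≠ 0 → SolE b x p q p' q' →
  ∃ N0 : ℕ, ∀ r : Eis, π ^ N0 ∣ r ^ 3 - b →
    ASE s x p q p' q' r = s x (GfE p q p' q' 1) - s x (GfE p q p' q' 2) + s w x

/-- PTK_IF4: the local term of a point when `x` is a local cube. Copy of `PT/IF4.lean` (there the
`D_i` never vanish; here this is the hypothesis `DNE`). -/
def Stmt_IF4 : Prop := ∀ (π : Eis) (s : Eis → Eis → ZMod 3) (e : ℕ), LSym π s e →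
  ∀ b x p q p' q' X Y : Eis, b ≠ 0 → x ≠ 0 → SolE b x p q p' q' → X ≠ 0 → Y ≠ 0 →
    X ^ 3 + x * Y ^ 3 ≠ 0 → DNE X Y p q p' q' →
  ∃ N0 : ℕ, ∀ ξ : Eis, π ^ N0 ∣ ξ ^ 3 - x →
    SVE s x p q p' q' X Y =
      ASE s (X ^ 3 + x * Y ^ 3) p (-p') (-q) q' ξ + s (LfE X Y 1 ξ) b - s (LfE X Y 2 ξ) b

/-- PTK_IF4B: `(F_1/F_2, n_0) = (w, n_0)`. Copy of `PT/IF4B.lean`. -/
def Stmt_IF4B : Prop := ∀ (π : Eis) (s : Eis → Eis → ZMod 3) (e : ℕ), LSym π s e →
  ∀ x X Y : Eis, x ≠ 0 → X ≠ 0 → Y ≠ 0 → X ^ 3 + x * Y ^ 3 ≠ 0 →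
  ∃ N0 : ℕ, ∀ ξ : Eis, π ^ N0 ∣ ξ ^ 3 - x →
    s (LfE X Y 1 ξ) (X ^ 3 + x * Y ^ 3) - s (LfE X Y 2 ξ) (X ^ 3 + x * Y ^ 3) =
      s w (X ^ 3 + x * Y ^ 3)

/-! ### Tame places -/

/-- PTK_F6R: the local term of a point at a tame place where `x` has valuation prime to `3`.
Copy of `PT/F6R.lean`. -/
def Stmt_F6R : Prop := ∀ (π : PP) (b x p q p' q' X Y : Eis), b ≠ 0 → x ≠ 0 →
  SolE b x p q p' q' → X ≠ 0 → Y ≠ 0 → DNE X Y p q p' q' → ¬ 3 ∣ V π.1 x →
    (3 ∣ V π.1 (X ^ 3 + x * Y ^ 3) → SVE (tm π.1) x p q p' q' X Y = 0) ∧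
    (¬ 3 ∣ V π.1 (X ^ 3 + x * Y ^ 3) → SVE (tm π.1) x p q p' q' X Y = - tm π.1 w b)

/-- PTK_F7U: the local term of a point at a tame place where `x` has valuation divisible by `3` and is
not a cube. Copy of `PT/F7U.lean`. -/
def Stmt_F7U : Prop := ∀ (π : PP) (b x p q p' q' X Y : Eis), b ≠ 0 → x ≠ 0 →
  SolE b x p q p' q' → X ≠ 0 → Y ≠ 0 → DNE X Y p q p' q' → 3 ∣ V π.1 x → ch π.1 x ≠ 0 →
    SVE (tm π.1) x p q p' q' X Y = 0

/-- PTK_LFV: the valuations of the linear forms of a point when `x` is a local cube.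
Proof. Let `π' = π.1`, `V = V π'`, `n₀ = X³ + x Y³ ≠ 0`, `3 ∣ V x`, `3 ∣ V n₀`, `ξ³ = x` up to `π' ^ N0`,
`N0` large (larger than `V x` and `V n₀ + 3 V X + 3 V Y + V x`); then `V ξ³ = V x`. With
`F_i = X + Y w^i ξ`: `F_0 F_1 F_2 = X³ + Y³ ξ³` has the valuation of `n₀` (differences by a multiple
of `π' ^ N0`). If `V X ≠ V (Y ξ)` then all `V F_i` are `min (V X) (V (Y ξ))`. Otherwise
`X = π' ^ a X'`, `Y ξ = π' ^ a Z'` with units `X'`, `Z'`; `F_i = π' ^ a (X' + w^i Z')`; two of the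
`X' + w^i Z'` cannot both be divisible by `π'` (their difference is `(w^i - w^j) Z'`, and
`w^i - w^j` divides `3`), so at most one `V F_i` is different from `a`, it is `a + k`, and
`3 a + k = V n₀` gives `3 ∣ k`. -/
def Stmt_LFV : Prop := ∀ (π : PP) (x X Y : Eis), x ≠ 0 → X ≠ 0 → Y ≠ 0 →
  X ^ 3 + x * Y ^ 3 ≠ 0 → 3 ∣ V π.1 x → 3 ∣ V π.1 (X ^ 3 + x * Y ^ 3) →
  ∃ N0 : ℕ, ∀ ξ : Eis, π.1 ^ N0 ∣ ξ ^ 3 - x →
    (V π.1 (LfE X Y 1 ξ) : ZMod 3) = (V π.1 (LfE X Y 2 ξ) : ZMod 3)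

/-! ### Local cubes -/

/-- PTK_LCI: local cubes. Copy of `PT/LCI.lean` (first and third part); second part: if
`λ ∤ b` and `b c³ = a³` modulo `λ⁴` with `c`, `a` prime to `λ` then `b` is a cube in the completion at
`λ`. Proof of the second part: cubes of elements prime to `λ` are `± 1` modulo `λ⁴` (see
`NCNT.cube_mod_nine` in PT/NCNT.lean; `λ⁴ = w² 9`), so `b = ± 1` modulo `λ⁴`; since `-1` is a cube let
`b = 1` modulo `λ⁴`. By induction there is `r_N = 1` modulo `λ²` with `λ ^ (N + 4) ∣ r_N³ - b`: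
`r_0 = 1`, and for `r' = r + λ ^ (N + 2) t`, `r'³ = r³ + 3 r² λ ^ (N + 2) t + ...`, `3 = - w² λ²`
(`three_eq`), the further terms are divisible by `λ ^ (N + 5)`; `r² = 1` modulo `λ`; choose `t`. -/
def Stmt_LCI : Prop :=
  (∀ (π : PP) (b : Eis), b ≠ 0 → (LCE π.1 b ↔ 3 ∣ V π.1 b ∧ ch π.1 b = 0)) ∧
  (∀ b a c : Eis, ¬ lam ∣ a → ¬ lam ∣ c → lam ^ 4 ∣ b * c ^ 3 - a ^ 3 → LCE lam b) ∧
  (∀ (π : Eis) (s : Eis → Eis → ZMod 3) (e : ℕ) (b a : Eis), LSym π s e → LCE π b →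
    b ≠ 0 → a ≠ 0 → s b a = 0)

/-! ### The place above `3` -/

/-- PTK_SVF: the sum of the local terms. Copy of the last part of `PT/LFIN.lean` (product formula
`SSL`, fourth part, for every term). -/
def Stmt_SVF : Prop := ∀ b x p q p' q' X Y : Eis, b ≠ 0 → x ≠ 0 → SolE b x p q p' q' →
  X ≠ 0 → Y ≠ 0 → X ^ 3 + x * Y ^ 3 ≠ 0 → DNE X Y p q p' q' →
  (Function.support fun v : Pl => SVE (sy v) x p q p' q' X Y).Finite ∧
    ∑ᶠ v : Pl, SVE (sy v) x p q p' q' X Y = 0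

/-- PTK_IIAG: the local term of a point at `λ` when `b` is a cube. Copy of `PT3/IIAG.lean`
(hypotheses `Stmt_LCI`, `Stmt_IF1`, `Stmt_IF2`, `Stmt_IF4`, `Stmt_F6R`, `Stmt_F7U`, `Stmt_SVF`). -/
def Stmt_IIAG : Prop := ∀ r x p q p' q' X Y : Eis, r ≠ 0 → x ≠ 0 → SolE (r ^ 3) x p q p' q' →
  X ≠ 0 → Y ≠ 0 → X ^ 3 + x * Y ^ 3 ≠ 0 → DNE X Y p q p' q' →
  SVE sl x p q p' q' X Y =
    sl (X ^ 3 + x * Y ^ 3) (GfE p q p' q' 1) - sl (X ^ 3 + x * Y ^ 3) (GfE p q p' q' 2) +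
      sl w (X ^ 3 + x * Y ^ 3) - ASE sl (X ^ 3 + x * Y ^ 3) p q p' q' r

/-- PTK_IIA: the local term of a point at `λ` when `b` is a local cube. Copy of `PT3/IIA.lean`
(hypothesis `Stmt_IIAG`). -/
def Stmt_IIA : Prop := ∀ b x p q p' q' X Y : Eis, b ≠ 0 → x ≠ 0 → LCE lam b →
  SolE b x p q p' q' → X ≠ 0 → Y ≠ 0 → X ^ 3 + x * Y ^ 3 ≠ 0 → DNE X Y p q p' q' →
  ∃ N0 : ℕ, ∀ r : Eis, lam ^ N0 ∣ r ^ 3 - b →
  SVE sl x p q p' q' X Y =
    sl (X ^ 3 + x * Y ^ 3) (GfE p q p' q' 1) - sl (X ^ 3 + x * Y ^ 3) (GfE p q p' q' 2) +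
      sl w (X ^ 3 + x * Y ^ 3) - ASE sl (X ^ 3 + x * Y ^ 3) p q p' q' r

/-! ### The global relation -/

/-- The cubic residue symbol modulo the inert prime `Q` of
`[(p + q w² r)(p' + q' w r)] / [(p + q w r)(p' + q' w² r)]`. -/
noncomputable def TAUE (Q : ℕ) (p q p' q' r : Eis) : ZMod 3 :=
  sym (Q : Eis) (LfE p q 2 r) + sym (Q : Eis) (LfE p' q' 1 r) -
    sym (Q : Eis) (LfE p q 1 r) - sym (Q : Eis) (LfE p' q' 2 r)

/-- The general hypotheses: `x` is the base and `b` the norm. Then `SolE b x p (-p') (-q) q'` (check: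
`eq` is the same equation, `n1` and `n2` are exchanged, `GfE` is unchanged), and the local term of a
point `(X, Y)` of class `x` is `SVE (sy v) x p (-p') (-q) q' X Y`. -/
structure HypD (N : ℕ) (b x p q p' q' : Eis) : Prop where
  N0 : 0 < N
  sol : SolE x b p q p' q'
  hb : b ≠ 0
  hx : x ≠ 0
  lc : LCE lam b
  unr : ∀ π : PP, ¬ π.1 ∣ (N : Eis) → ¬ π.1 ∣ b ∧ ¬ π.1 ∣ x
  cf : ∀ π : PP, V π.1 (N : Eis) ≤ 2

/-- the hypotheses on the point: `B = N Q^E` -/
structure HypP (N : ℕ) (b x p q p' q' : Eis) (E Q : ℕ) (X Y : Eis) : Prop where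
  hE : E = 1 ∨ E = 2
  hQ : Q.Prime
  sb : ∀ σ : PP, tm σ.1 b ((N : Eis) * (Q : Eis) ^ E) = 0
  sx : ∀ σ : PP, tm σ.1 x ((N : Eis) * (Q : Eis) ^ E) = 0
  pt : PtE ((N : Eis) * (Q : Eis) ^ E) x X Y
  dn : DNE X Y p (-p') (-q) q'

/-- PTK_DP1: the local terms of a point at a place `π` dividing `f` depend on `Q^E` only through a
character of `Q`. (`Q` is prime to `f`, so `π ∤ Q`.)
Proof. Hypotheses you may use: `Stmt_IF4`, `Stmt_IF4B`, `Stmt_F6R`, `Stmt_F7U`, `Stmt_LFV`, `Stmt_LCI`.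
Put `B = N Q^E`, `n₀ = X³ + x Y³`, `x n₀ = B c³`, `s = tm π.1`, `V = V π.1`, `ch = ch π.1`.
(a) `3 ∣ V x`, `ch x = 0` (`x` is a local cube). By `IF4` (for `SolE b x p (-p') (-q) q'`), for all good `ξ`
(`π ^ N0 ∣ ξ³ - x`): `SVE = ASE s n₀ p q p' q' ξ + s F_1 b - s F_2 b`, `F_i = LfE X Y i ξ`. `s n₀ a = s B a` for
`a ≠ 0` as `x` is a local cube. The other terms are a constant: if `π ∣ N` and `3 ∤ V b` then
`s b a = i s B a` for all `a ≠ 0` with `i = V b / V B` in `ZMod 3` (`V B = V N = 1, 2`; `s b B = 0`; a general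
fact on `tm`: it depends only on the vectors `(V, ch)`), so by `IF4B`, `s F_1 b - s F_2 b = i (s F_1 B - s F_2 B) =
i (s F_1 n₀ - s F_2 n₀) = i s w n₀ = i s w B = V(b) ch w`; if `π ∣ N` and `3 ∣ V b` then `V B ch b = 0`, so
`b` is a local cube and the terms are `0` (`LCI`); if `π ∤ N` then `V b = V B = 0`,
`3 ∣ V n₀`, and they are `- (V F_1 - V F_2) ch b = 0` by `LFV`. So for all good `ξ` the number
`ASE s B p q p' q' ξ = s B (..)` is the same (namely `SVE - constant`). Fix once and for all `ξ₀` with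
`π ^ N1 ∣ ξ₀³ - x`, `N1` so large that `ASE s a p q p' q' ξ = ASE s a p q p' q' ξ₀` for all `a ≠ 0` and all
`ξ` congruent to `ξ₀` modulo `π ^ N1` (continuity in the second variable; the `LfE` at `ξ₀` are not `0`
since their product is `p³ + x q³` modulo `π ^ N1`); for every `N0` there is a `ξ` with `π ^ N0 ∣ ξ³ - x`
congruent to `ξ₀` (Hensel; or: a sequence of approximations has infinitely many terms close to one
of `w^i ξ₀`, multiply them by `w^(-i)`). See `PTL/DC.lean: place_LC` which is this argument in the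
rational case. Then `ASE s B ξ₀ = ASE s N ξ₀ + E ASE s Q ξ₀` and `ASE s Q ξ₀ = k ch Q`, `k` an integer,
is a character of `Q` modulo `f`.
(b) `3 ∤ V x`: then `π ∣ N`; `F6R`: `V n₀ = V N - V x` modulo `3`, so the value is a constant.
(c) `3 ∣ V x`, `ch x ≠ 0`: `0` by `F7U`. -/
def Stmt_DP1 : Prop := ∀ (N : ℕ) (b x p q p' q' : Eis), HypD N b x p q p' q' →
  ∀ (π : PP) (f : ℕ), 1 < f → π.1 ∣ (f : Eis) →
    ∃ (C : ZMod 3) (Φ : (ZMod f)ˣ →* Multiplicative (ZMod 3)),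
    ∀ (E Q : ℕ) (hQ : Q.Coprime f) (X Y : Eis), HypP N b x p q p' q' E Q X Y →
      SVE (tm π.1) x p (-p') (-q) q' X Y = C + E * (Φ (ZMod.unitOfCoprime Q hQ)).toAdd

/-- PTK_DP2: the same at `λ`.
Proof. Hypotheses you may use: `Stmt_IIA`, `Stmt_IF2`. By `IIA` for `SolE b x p (-p') (-q) q'` (`b` is a local
cube): for all good `r` (`λ ^ N0 ∣ r³ - b`), `SVE = R n₀` with
`R a = sl a G_1 - sl a G_2 + sl w a - ASE sl a p (-p') (-q) q' r`; `R` is additive in `a`, `R x = 0` by `IF2`,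
`R (c³) = 0`, so `R n₀ = R B = R N + E R Q`, and `R Q` depends only on `Q` modulo `9` (`SLC`: exponent
`4`, `λ⁴ ∣ 9`). The value is the same for all good `r`; fix `r₀` as in `DP1`. -/
def Stmt_DP2 : Prop := ∀ (N : ℕ) (b x p q p' q' : Eis), HypD N b x p q p' q' →
  ∀ f : ℕ, 1 < f → 9 ∣ f → ∃ (C : ZMod 3) (Φ : (ZMod f)ˣ →* Multiplicative (ZMod 3)),
    ∀ (E Q : ℕ) (hQ : Q.Coprime f) (X Y : Eis), HypP N b x p q p' q' E Q X Y →
      SVE sl x p (-p') (-q) q' X Y = C + E * (Φ (ZMod.unitOfCoprime Q hQ)).toAdd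

/-- PTK_DP3: the local terms vanish outside.
Proof. As `DP1`, (a), (c) (`π ∤ N`): `B`, `b`, `x` are prime to `π`. If `x` is a local cube, `SVE = ASE s B p q p' q' ξ`
for a good `ξ`; the `LfE` are prime to `π` because their product over `i = 0, 1, 2` is `p³ + x q³`, resp.
`p'³ + x q'³`, modulo `π`; so all symbols are `0`. -/
def Stmt_DP3 : Prop := ∀ (N : ℕ) (b x p q p' q' : Eis), HypD N b x p q p' q' →
  ∀ (π : PP) (E Q : ℕ) (X Y : Eis), HypP N b x p q p' q' E Q X Y →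
    ¬ π.1 ∣ (N : Eis) → ¬ π.1 ∣ (Q : Eis) →
    ¬ π.1 ∣ (p ^ 3 + x * q ^ 3) * (p' ^ 3 + x * q' ^ 3) →
    SVE (tm π.1) x p (-p') (-q) q' X Y = 0

/-- PTK_DP4: the local term at `Q`.
Proof. `V x = V b = 0`, `V B = E` at `π = Q`; `tm x B = 0`, `tm b B = 0` give `sym Q x = sym Q b = 0`: `x` and
`b` are local cubes (`LCI`). By `IF4` for a good `ξ'`: `SVE = ASE s B p q p' q' ξ'` (the terms with `b` vanish).
The `LfE` are prime to `Q` (as in `DP3`), so `s B (LfE ..) = - E sym Q (LfE ..)` and the value is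
`- E TAUE Q p q p' q' ξ'`. `ξ'³ = ξ³` modulo `Q`, so `ξ' = w^i ξ` modulo `Q` (`Q` is a prime of `Z[w]`, and
`∏ (ξ' - w^i ξ) = ξ'³ - ξ³`), and `TAUE` does not depend on `i`: with `l_i = p + q w^i ξ`, `l'_i` similar,
`∏ l_i = b ∏ l'_i` modulo `Q`, `sym Q b = 0`; `TAUE(ξ) = l_2 + l'_1 - l_1 - l'_2` (symbols),
`TAUE(w ξ) = l_0 + l'_2 - l_2 - l'_0`, difference `l_0 + l_1 - 2 l_2 - (l'_0 + l'_1 - 2 l'_2)`
`= ∑ l_i - ∑ l'_i = 0` modulo `3`. -/
def Stmt_DP4 : Prop := ∀ (N : ℕ) (b x p q p' q' : Eis), HypD N b x p q p' q' →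
  ∀ (π : PP) (E Q : ℕ) (X Y ξ : Eis), HypP N b x p q p' q' E Q X Y → Q % 3 = 2 →
    π.1 = (Q : Eis) → ¬ π.1 ∣ (N : Eis) →
    ¬ π.1 ∣ (p ^ 3 + x * q ^ 3) * (p' ^ 3 + x * q' ^ 3) → (Q : Eis) ∣ ξ ^ 3 - x →
    SVE (tm π.1) x p (-p') (-q) q' X Y = - (E * TAUE Q p q p' q' ξ)

/-- PTK_DCK: the relation for the Frobenius invariant of `Q`.
Proof. Hypotheses: `Stmt_DP1`, …, `Stmt_DP4`, `Stmt_SVF` (for `SolE b x p (-p') (-q) q'`). Copy the structure of
the last part of `PT3/DCOT.lean: main`: `M` is a rational integer divisible by `N` and by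
`(p³ + x q³)(p'³ + x q'³)` (times its conjugate); `f₀ = 9 |M|`; `C`, `Φ` are the sums, resp. products, of
those of the places dividing `M` and of `λ`. `DNE`: for `Q > N₀` the `D_i` do not vanish. Let
`(P, Q₁, P', Q₁') = (p, -p', -q, q')`, `D_i = X P' + w^i P Y`, `D'_i = X Q₁' + w^i Q₁ Y`. If `D_i = 0` then
`(X P')³ = - (P Y)³`, and `P' ≠ 0`, `P ≠ 0` (otherwise both are `0`, against `n2` of the solution
`SolE b x P Q₁ P' Q₁'`: `P³ - x P'³ ≠ 0`), so `P'³ (X³ + x Y³) = - Y³ (P³ - x P'³)`, and with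
`x (X³ + x Y³) = B c³`: `B (c P')³ = - x Y³ (P³ - x P'³)`. The valuation at `Q` of the left side is `E` modulo `3`,
that of the right side is `0` modulo `3` if `Q` does not divide `x (P³ - x P'³)`. The same for
`D'_i` with `x Q₁'³ - Q₁³` (`P³ - x P'³ = b (x Q₁'³ - Q₁³)`). -/
def Stmt_DCK : Prop := ∀ (N : ℕ) (b x p q p' q' : Eis), HypD N b x p q p' q' →
  ∃ f₀ : ℕ, 0 < f₀ ∧ ∀ f : ℕ, 0 < f → f₀ ∣ f →
  ∃ (C : ZMod 3) (Φ : (ZMod f)ˣ →* Multiplicative (ZMod 3)) (N₀ : ℕ),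
    ∀ (E Q : ℕ) (hQ : Q.Coprime f), (E = 1 ∨ E = 2) → Q.Prime → N₀ < Q → Q % 3 = 2 →
      (∀ σ : PP, tm σ.1 b ((N : Eis) * (Q : Eis) ^ E) = 0) →
      (∀ σ : PP, tm σ.1 x ((N : Eis) * (Q : Eis) ^ E) = 0) →
      ∀ X Y ξ : Eis, PtE ((N : Eis) * (Q : Eis) ^ E) x X Y → (Q : Eis) ∣ ξ ^ 3 - x →
        C + E * ((Φ (ZMod.unitOfCoprime Q hQ)).toAdd - TAUE Q p q p' q' ξ) = 0

end Pool.Agent.PTK

end

section

/-!
# The average rank of prime twists: the norm theorem for `K(x^(1/3)) / K`, `K = Q(w)`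

The statements are those of `PT/Stmts3.lean` with `x` in `Z[w]` in place of a rational integer, and
without complex conjugation on `L`. The proofs are those of the files `PT/N*.lean` (copy the file named in
the docstring; replace `ℤ` by `Eis`, `CubF` by `CubE`, `LC` by `LCE`, and remove `c`). General lemmas of
those files (for example in the namespace `Pool.Agent.PT.NTR`, as far as they do not mention `CubF`) can be
imported. `HERBQ`, `SUN`, `KUM`, `NAUX` (PT/Stmts3.lean) are general and proved.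
-/

set_option autoImplicit false

open NumberField IsDedekindDomain Finset
open scoped nonZeroDivisors Pointwise

namespace Pool.Agent.PTK

open Pool.Agent.Lib_helper18 Pool.Agent.Lib_helper18.Eis Pool.Agent.Lib_helper84.Cub
open Pool.Agent.PT

/-- The data of the field `L = K(x^(1/3))`. -/
structure CubE (x : Eis) (L : Type) [Field L] [NumberField L] (ι : Eis →+* L) (θ : L)
    (σ : L ≃ₐ[ℚ] L) : Prop where
  inj : Function.Injective ι
  cube : θ ^ 3 = ι x
  sθ : σ θ = ι w * θ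
  sι : ∀ a : Eis, σ (ι a) = ι a
  rep : ∀ z : L, ∃ (m : ℤ) (a b d : Eis), m ≠ 0 ∧ (m : L) * z = ι a + ι b * θ + ι d * θ ^ 2
  lin : ∀ a b d : Eis, ι a + ι b * θ + ι d * θ ^ 2 = 0 → a = 0 ∧ b = 0 ∧ d = 0

/-- PTK_NFL: existence of the field. Copy of `PT/NFLD.lean`. (Irreducibility of `T³ - x` over the fraction
field of `Eis`: if `b³ = x` for a fraction `b = u / v` then `u³ = x v³`, so `v³ ∣ u³`, `v ∣ u`
(`Eis` is a principal ideal domain, `pow_dvd_pow_iff` for `GCDMonoid` or by valuations), so `x` is a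
cube.) -/
def Stmt_NFL : Prop := ∀ x : Eis, x ≠ 0 → (¬ ∃ c : Eis, c ^ 3 = x) →
  ∃ (L : Type) (_ : Field L) (_ : NumberField L) (ι : Eis →+* L) (θ : L) (σ : L ≃ₐ[ℚ] L),
    CubE x L ι θ σ

/-- PTK_NRK: the unit rank. Copy of `PT/NRK.lean`. -/
def Stmt_NRK : Prop := ∀ (x : Eis) (L : Type) [Field L] [NumberField L] (ι : Eis →+* L) (θ : L)
  (σ : L ≃ₐ[ℚ] L), CubE x L ι θ σ → NumberField.Units.rank L = 2

/-- PTK_NHN: Hilbert 90. Copy of `PT/NHN.lean`. -/
def Stmt_NHN : Prop := ∀ (x : Eis) (L : Type) [Field L] [NumberField L] (ι : Eis →+* L) (θ : L)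
  (σ : L ≃ₐ[ℚ] L), x ≠ 0 → CubE x L ι θ σ →
  (∀ z : L, σ (σ (σ z)) = z) ∧
  (∀ z : L, σ z = z → ∃ a b : Eis, b ≠ 0 ∧ z * ι b = ι a) ∧
  ∀ u : Lˣ, ∏ i ∈ range 3, σ ^ i • u = 1 → ∃ v : Lˣ, u = v / σ • v

/-- PTK_NTR: the primes of `L` above the primes of `Z[w]`. Copy of `PT/NTR.lean` (most lemmas of the
namespace `Pool.Agent.PT.NTR` are general and can be cited). The only use of `c` there is
`not_isUnit_io`; here: if `ι u z = 1` with `z` integral, `u = uni v`, then `z` is integral over `Eis` and in the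
fraction field, so in `ι Eis` (`Eis` is integrally closed), and `u` would be a unit; or: the norm
`N_{L/ℚ}(z)` is an integer and `N(ι u) N(z) = 1`; `N(ι u) = ± (norm u)³`. -/
def Stmt_NTR : Prop := ∀ (x : Eis) (L : Type) [Field L] [NumberField L] (ι : Eis →+* L) (θ : L)
  (σ : L ≃ₐ[ℚ] L), x ≠ 0 → ¬ lam ∣ x → CubE x L ι θ σ →
  (∀ (P : HeightOneSpectrum (𝓞 L)) (a : Eis), P.valuation L (ι a) ≤ 1) ∧
  (∀ P : HeightOneSpectrum (𝓞 L), ∃ v : Pl, P ∈ Abv ι v ∧
    ∀ a : Eis, P.valuation L (ι a) < 1 → uni v ∣ a) ∧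
  (∀ P : HeightOneSpectrum (𝓞 L), ∃ P' : HeightOneSpectrum (𝓞 L),
    ∀ z : L, P'.valuation L (σ z) = P.valuation L z) ∧
  (∀ v : Pl, (Abv ι v).Finite ∧ (Abv ι v).Nonempty) ∧
  (∀ (v : Pl) (P P' : HeightOneSpectrum (𝓞 L)), P ∈ Abv ι v → P' ∈ Abv ι v →
    ∃ i : ℕ, ∀ z : L, P'.valuation L ((σ ^ i) z) = P.valuation L z) ∧
  (∀ (π : PP) (P : HeightOneSpectrum (𝓞 L)), ¬ π.1 ∣ x → P ∈ Abv ι (some π) →
    P.valuation L (ι π.1) = WithZero.exp (-1 : ℤ))

open Classical in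
/-- PTK_NCN: the number of primes above a place. Copy of `PT/NCNT.lean` (with `Stmt_LCI`, first and
second part, in `local_cube`). -/
def Stmt_NCN : Prop := ∀ (x : Eis) (L : Type) [Field L] [NumberField L] (ι : Eis →+* L) (θ : L)
  (σ : L ≃ₐ[ℚ] L), x ≠ 0 → ¬ lam ∣ x → (∀ π : PP, V π.1 x ≤ 2) →
  CubE x L ι θ σ → ∀ v : Pl, Nat.card (Abv ι v) = if LCE (uni v) x then 3 else 1

/-- PTK_NFX: the fixed `S`-units. Copy of `PT/NFIX.lean`. -/
def Stmt_NFX : Prop := ∀ (x : Eis) (L : Type) [Field L] [NumberField L] (ι : Eis →+* L) (θ : L)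
  (σ : L ≃ₐ[ℚ] L), x ≠ 0 → ¬ lam ∣ x → CubE x L ι θ σ → ∀ S : Finset Pl,
  (∀ (u : Lˣ) (a : Eis), (u : L) = ι a → (∀ v : Pl, uni v ∣ a → v ∈ S) → u ∈ SF ι σ S) ∧
  (∀ u ∈ SF ι σ S, ∃ a b : Eis, a ≠ 0 ∧ b ≠ 0 ∧ (u : L) * ι b = ι a) ∧
  Module.finrank ℤ (Additive (SF ι σ S)) = S.card

/-- PTK_NHO: the first cohomology of the `S`-units. Copy of `PT/NHO.lean`. -/
def Stmt_NHO : Prop := ∀ (x : Eis) (L : Type) [Field L] [NumberField L] (ι : Eis →+* L) (θ : L)
  (σ : L ≃ₐ[ℚ] L), x ≠ 0 → ¬ lam ∣ x → CubE x L ι θ σ → ∀ S : Finset Pl,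
  none ∈ S → (∀ π : PP, π.1 ∣ x → some π ∈ S) →
  (∀ u ∈ SU ι S, σ • u ∈ SU ι S) ∧
  ∀ u ∈ SU ι S, ∏ i ∈ range 3, σ ^ i • u = 1 → ∃ v ∈ SU ι S, u = v / σ • v

/-- PTK_NNS: norms have trivial symbols with `x`. Copy of `PT/NNS.lean`. -/
def Stmt_NNS : Prop := ∀ (x : Eis) (L : Type) [Field L] [NumberField L] (ι : Eis →+* L) (θ : L)
  (σ : L ≃ₐ[ℚ] L), x ≠ 0 → CubE x L ι θ σ →
  ∀ (π : Eis) (s : Eis → Eis → ZMod 3) (e : ℕ), LSym π s e →
  ∀ (z : L) (a b : Eis), z ≠ 0 → a ≠ 0 → b ≠ 0 → z * σ z * σ (σ z) * ι b = ι a →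
    s a x = s b x

open Classical in
/-- PTK_NGN: a set of places and sufficiently many units with independent symbols. Copy of the part of
`PT/NGEN.lean` where `x` is a cube modulo `9` (here `x = ± 1` modulo `λ⁴`, so `LCE lam x` by `Stmt_LCI` with
`c = 1`, `a = ± 1`; `x` is primary up to sign: `Prim x`). -/
def Stmt_NGN : Prop := ∀ (x : Eis) (S₀ : Finset Pl), x ≠ 0 → lam ^ 4 ∣ x ^ 2 - 1 →
  (∀ π : PP, V π.1 x ≤ 2) → (¬ ∃ c : Eis, c ^ 3 = x) → none ∈ S₀ →
  (∀ π : PP, π.1 ∣ x → some π ∈ S₀) →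
  (∀ π : PP, some π ∈ S₀ → ¬ LCE π.1 x → π.1 ∣ x) →
  ∃ (S : Finset Pl) (e : ℕ) (d : Fin e → Eis), S₀ ⊆ S ∧ (∀ v ∈ S, v ∉ S₀ → LCE (uni v) x) ∧
    (S.filter fun v => ¬ LCE (uni v) x).card = e + 1 ∧
    (∀ i, d i ≠ 0) ∧ (∀ i (v : Pl), uni v ∣ d i → v ∈ S) ∧
    (∀ n m : Fin e → ℕ, ∏ i, d i ^ n i = ∏ i, d i ^ m i → n = m) ∧
    (∀ n : Fin e → ZMod 3, (∀ v : Pl, ∑ i, n i * sy v (d i) x = 0) → n = 0)

/-- PTK_NMN: the norm theorem for `L / K`. Copy of `PT/NMAIN.lean` (hypotheses: the `Stmt_N..` above,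
`HERBQ`, `SUN`). -/
def Stmt_NMN : Prop := ∀ (x : Eis) (L : Type) [Field L] [NumberField L] (ι : Eis →+* L) (θ : L)
  (σ : L ≃ₐ[ℚ] L), x ≠ 0 → lam ^ 4 ∣ x ^ 2 - 1 → (∀ π : PP, V π.1 x ≤ 2) →
  (¬ ∃ c : Eis, c ^ 3 = x) → CubE x L ι θ σ →
  ∀ y : Eis, y ≠ 0 → (∀ π : PP, tm π.1 x y = 0) →
    (∀ π : PP, π.1 ∣ y → ¬ LCE π.1 x → π.1 ∣ x) →
    ∃ z : L, z ≠ 0 ∧ z * σ z * σ (σ z) = ι y

/-- PTK_NDS: the solution as a quotient of linear forms. As the end of `PT/NDESC.lean`, directly over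
`Eis` (no descent): `m z = ι a + ι b θ + ι d θ²`; choose `(γ, δ) ≠ (0, 0)` in `Eis` with `b δ + d γ = 0`; then
`m z (γ + δ θ) = (a γ + d δ x) + (a δ + b γ) θ`, take norms:
`m³ y (γ³ + x δ³) = (a γ + d δ x)³ + x (a δ + b γ)³`. So `p = a γ + d δ x`, `q = a δ + b γ`,
`p' = m γ`, `q' = m δ`. -/
def Stmt_NDS : Prop := ∀ (x : Eis) (L : Type) [Field L] [NumberField L] (ι : Eis →+* L) (θ : L)
  (σ : L ≃ₐ[ℚ] L), x ≠ 0 → CubE x L ι θ σ → ∀ (y : Eis) (z : L), y ≠ 0 → z ≠ 0 →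
    z * σ z * σ (σ z) = ι y → ∃ p q p' q' : Eis, SolWE x y p q p' q'

/-- PTK_HNE: the Hasse norm theorem used in the sequel. `NFL`, `NMN`, `NDS`. For the additional
conditions of `SolE`: `n2`: if `p³ = y p'³` then `p' = 0` (otherwise `y` is a cube: `p'³ ∣ p³`), `p = 0`, so
`x q³ = x y q'³` and `y` would be a cube again (`q' ≠ 0` by `n1`). `g1`, `g2`: if `q p' = w^i p q'`: if `p' ≠ 0` and
`q' ≠ 0` then `p = t p'`, `w^i q = …`: `q³ p'³ = p³ q'³` and so
`p³ + x q³ = (p / p')³ (p'³ + x q'³)`, i.e. `y p'³ = p³`, against `n2`; `p' = 0` implies `p q' = 0`, `q' ≠ 0`, `p = 0`,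
against `n2`; `q' = 0` implies `q p' = 0`, `p' ≠ 0`, `q = 0`, and `p³ = y p'³`. -/
def Stmt_HNE : Prop := ∀ x y : Eis, x ≠ 0 → lam ^ 4 ∣ x ^ 2 - 1 → (¬ ∃ c : Eis, c ^ 3 = x) →
  (∀ π : PP, V π.1 x ≤ 2) → y ≠ 0 → (¬ ∃ c : Eis, c ^ 3 = y) → (∀ π : PP, tm π.1 x y = 0) →
  (∀ π : PP, π.1 ∣ y → ¬ LCE π.1 x → π.1 ∣ x) →
  ∃ p q p' q' : Eis, SolE x y p q p' q'

end Pool.Agent.PTK

end

section

/-!
# IF4B: the symbol of `F_1 / F_2` and `n_0` over `K`
-/

set_option autoImplicit false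

namespace Pool.Agent.PTK

open Pool.Agent.Lib_helper18 Pool.Agent.Lib_helper18.Eis Pool.Agent.Lib_helper84.Cub
open Pool.Agent.PT Pool.Agent.PT.IF4B

theorem IF4B_thm (hSTAR : STAR) : Stmt_IF4B := by
  intro π s e hs x X Y hx' _ _ hn'
  have hw : w ≠ 0 := by
    intro h
    have h1 := congrArg Eis.im h
    simp at h1
  set n0 : Eis := X ^ 3 + x * Y ^ 3 with hn0
  refine ⟨V π n0 + V π x + e + 1, fun ξ hξ => ?_⟩
  have hξ0 : ξ ≠ 0 := by
    intro h
    rw [h] at hξ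
    refine not_dvd hs.prime hx' (N := V π n0 + V π x + e + 1) (by omega) ?_
    have h1 : (0 : Eis) ^ 3 - x = -x := by ring
    rw [h1, dvd_neg] at hξ
    exact hξ
  have hprod := prod_eq X ξ Y
  have hdvd : π ^ (V π n0 + V π x + e + 1) ∣ X ^ 3 + ξ ^ 3 * Y ^ 3 - n0 := by
    have h1 : X ^ 3 + ξ ^ 3 * Y ^ 3 - n0 = (ξ ^ 3 - x) * Y ^ 3 := by
      rw [hn0]
      ring
    rw [h1]
    exact Dvd.dvd.mul_right hξ _
  have hne : X ^ 3 + ξ ^ 3 * Y ^ 3 ≠ 0 := by
    intro h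
    rw [h, zero_sub, dvd_neg] at hdvd
    exact not_dvd hs.prime hn' (by omega) hdvd
  set F : ℕ → Eis := fun i => X + w ^ i * ξ * Y with hF
  have hF3 : F 0 * F 1 * F 2 = X ^ 3 + ξ ^ 3 * Y ^ 3 := hprod
  have hF0 : F 0 ≠ 0 := by
    intro h
    rw [h, zero_mul, zero_mul] at hF3
    exact hne hF3.symm
  have hF1 : F 1 ≠ 0 := by
    intro h
    rw [h, mul_zero, zero_mul] at hF3
    exact hne hF3.symm
  have hF2 : F 2 ≠ 0 := by
    intro h
    rw [h, mul_zero] at hF3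
    exact hne hF3.symm
  have hFi : ∀ i, F i ≠ 0 := by
    intro i
    have h1 : F i = F (i % 3) := by
      simp only [hF]
      rw [w_pow i]
    rw [h1]
    have h2 : i % 3 < 3 := Nat.mod_lt _ (by norm_num)
    interval_cases i % 3
    · exact hF0
    · exact hF1
    · exact hF2
  have h1 := (hSTAR π s e hs X Y 0 0 ξ F (fun _ => 0) (fun _ => 0)
    (fun _ => rfl) (fun i => by simp) (fun i => by simp) hξ0 hFi).1
  have hcont : ∀ b : Eis, b ≠ 0 → s b (F 0 * F 1 * F 2) = s b n0 := by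
    intro b hb
    rw [hs.skew _ b (hF3 ▸ hne) hb, hs.skew n0 b hn' hb, hF3]
    congr 1
    refine hs.cont n0 _ b hn' hb ((pow_dvd_pow π ?_).trans hdvd)
    omega
  rw [hcont _ hF1, hcont _ hF2, hcont _ hw] at h1
  have h2 : ∀ i, LfE X Y i ξ = F i := by
    intro i
    simp only [LfE, hF]
    ring
  rw [h2, h2]
  exact h1

end Pool.Agent.PTK

end

section

/-!
# PTK, module NNS: norms have trivial symbols with the base class (helper54)

Copy of `PT/NNS.lean`.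
-/

set_option autoImplicit false

open NumberField IsDedekindDomain Finset
open scoped nonZeroDivisors Pointwise

namespace Pool.Agent.PTK

open Pool.Agent.Lib_helper18 Pool.Agent.Lib_helper18.Eis Pool.Agent.Lib_helper84.Cub
open Pool.Agent.PT

namespace NNS

variable {x : Eis} {L : Type} [Field L] [NumberField L] {ι : Eis →+* L} {θ : L} {σ : L ≃ₐ[ℚ] L}

lemma norm_lin (h : CubE x L ι θ σ) (α β : Eis) :
    (ι α + ι β * θ) * σ (ι α + ι β * θ) * σ (σ (ι α + ι β * θ)) = ι (α ^ 3 + x * β ^ 3) := by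
  have hw : ι w ^ 2 + ι w + 1 = 0 := by
    have : w ^ 2 + w + 1 = (0 : Eis) := by
      decide
    rw [← map_pow, ← map_one ι, ← map_add, ← map_add, this, map_zero]
  have h3 : ι w ^ 3 = 1 := by
    linear_combination (ι w - 1) * hw
  have e1 : σ (ι α + ι β * θ) = ι α + ι β * (ι w * θ) := by
    rw [map_add, map_mul, h.sι, h.sι, h.sθ]
  have e2 : σ (σ (ι α + ι β * θ)) = ι α + ι β * (ι w * (ι w * θ)) := by
    rw [e1, map_add, map_mul, map_mul, h.sι, h.sι, h.sι, h.sθ]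
  rw [e2, e1, map_add, map_mul, map_pow, map_pow, ← h.cube]
  linear_combination (ι α ^ 2 * ι β * θ + ι α * ι β ^ 2 * θ ^ 2 * ι w) * hw
    + ι β ^ 3 * θ ^ 3 * h3

lemma norm_ne (h : CubE x L ι θ σ) {α β : Eis} (hne : ι α + ι β * θ ≠ 0) :
    α ^ 3 + x * β ^ 3 ≠ 0 := by
  intro h0
  have h1 := norm_lin h α β
  rw [h0, map_zero] at h1
  have hs : ∀ y : L, y ≠ 0 → σ y ≠ 0 := fun y hy => (map_ne_zero σ).mpr hy
  exact (mul_ne_zero (mul_ne_zero hne (hs _ hne)) (hs _ (hs _ hne))) h1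

end NNS

theorem NNS_thm : Stmt_NNS := by
  intro x L _ _ ι θ σ hxE hF π s e hs z a b hz ha hb hzab
  obtain ⟨m, a0, b0, d0, hm, hrep⟩ := hF.rep z
  have hmL : (m : L) ≠ 0 := by exact_mod_cast hm
  have hmE : (m : Eis) ≠ 0 := by
    intro h0
    have h1 : ι (m : Eis) = (m : L) := map_intCast ι m
    rw [h0, map_zero] at h1
    exact hmL h1.symm
  obtain ⟨γ, δ, α, β, hγδ, hαβ⟩ : ∃ γ δ α β : Eis, ι γ + ι δ * θ ≠ 0 ∧
      z * (ι γ + ι δ * θ) * (m : L) = ι α + ι β * θ := by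
    by_cases hbd : b0 = 0 ∧ d0 = 0
    · refine ⟨1, 0, a0, 0, ?_, ?_⟩
      · simp
      · rw [hbd.1, hbd.2] at hrep
        simp only [map_zero, zero_mul, add_zero, map_one, mul_one] at hrep ⊢
        rw [mul_comm]; exact hrep
    · refine ⟨b0, -d0, a0 * b0 - d0 ^ 2 * x, b0 ^ 2 - a0 * d0, ?_, ?_⟩
      · intro h0
        have h1 := hF.lin b0 (-d0) 0 (by rw [map_zero, zero_mul, add_zero]; exact h0)
        exact hbd ⟨h1.1, neg_eq_zero.mp h1.2.1⟩
      · rw [map_sub, map_sub, map_neg, map_mul, map_mul, map_mul, map_pow, map_pow, ← hF.cube]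
        linear_combination (ι b0 - ι d0 * θ) * hrep
  have hαβ0 : ι α + ι β * θ ≠ 0 := by
    rw [← hαβ]
    exact mul_ne_zero (mul_ne_zero hz hγδ) hmL
  have hN1 := NNS.norm_ne hF hγδ
  have hN2 := NNS.norm_ne hF hαβ0
  have hkey : a * ((m : Eis) ^ 3 * (γ ^ 3 + x * δ ^ 3)) = b * (α ^ 3 + x * β ^ 3) := by
    apply hF.inj
    have hm' : ι (m : Eis) = (m : L) := map_intCast ι m
    have hsm : ∀ k : ℤ, σ (k : L) = (k : L) := fun k => map_intCast σ k
    rw [map_mul, map_mul, map_mul, map_pow, hm', ← NNS.norm_lin hF γ δ, ← NNS.norm_lin hF α β, ← hαβ,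
      ← hzab]
    simp only [map_mul, hsm]
    ring
  have hl : s (a * ((m : Eis) ^ 3 * (γ ^ 3 + x * δ ^ 3))) x = s a x := by
    rw [hs.mul _ _ _ ha (mul_ne_zero (pow_ne_zero 3 hmE) hN1) hxE,
      hs.mul _ _ _ (pow_ne_zero 3 hmE) hN1 hxE, Pool.Agent.PT.NNS.cube_left hs hmE hxE,
      Pool.Agent.PT.NNS.norm_symbol hs hxE hN1, add_zero, add_zero]
  have hr : s (b * (α ^ 3 + x * β ^ 3)) x = s b x := by
    rw [hs.mul _ _ _ hb hN2 hxE, Pool.Agent.PT.NNS.norm_symbol hs hxE hN2, add_zero]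
  rw [← hl, hkey, hr]

end Pool.Agent.PTK

end

section

/-!
# PTK_NRK: the unit rank
-/

set_option autoImplicit false

open NumberField IsDedekindDomain Finset
open scoped nonZeroDivisors Pointwise

namespace Pool.Agent.PTK

open Pool.Agent.Lib_helper18 Pool.Agent.Lib_helper18.Eis Pool.Agent.Lib_helper84.Cub
open Pool.Agent.PT

namespace NRK

/-- the basis of `L` over `ℚ` -/
def bv {L : Type} [Field L] (ι : Eis →+* L) (θ : L) : Fin 6 → L :=
  ![1, ι w, θ, ι w * θ, θ ^ 2, ι w * θ ^ 2]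

theorem iota_eq {L : Type} [Field L] (ι : Eis →+* L) (a : Eis) :
    ι a = (a.re : L) + (a.im : L) * ι w := by
  conv_lhs => rw [eq_re_add_im a]
  simp

theorem bv_indep {x : Eis} {L : Type} [Field L] [NumberField L] {ι : Eis →+* L} {θ : L}
    {σ : L ≃ₐ[ℚ] L} (h : CubE x L ι θ σ) : LinearIndependent ℚ (bv ι θ) := by
  rw [← LinearIndependent.iff_fractionRing ℤ ℚ, Fintype.linearIndependent_iff]
  intro g hg
  rw [Fin.sum_univ_six] at hg
  simp only [bv, Matrix.cons_val, zsmul_eq_mul] at hg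
  obtain ⟨h1, h2, h3⟩ := h.lin ⟨g 0, g 1⟩ ⟨g 2, g 3⟩ ⟨g 4, g 5⟩ (by
    rw [iota_eq ι ⟨g 0, g 1⟩, iota_eq ι ⟨g 2, g 3⟩, iota_eq ι ⟨g 4, g 5⟩]
    simp only
    rw [← hg]
    ring)
  have e1 := congrArg Eis.re h1
  have e2 := congrArg Eis.im h1
  have e3 := congrArg Eis.re h2
  have e4 := congrArg Eis.im h2
  have e5 := congrArg Eis.re h3
  have e6 := congrArg Eis.im h3
  simp only [zero_re, zero_im] at e1 e2 e3 e4 e5 e6
  intro i
  fin_cases i <;> assumption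

theorem bv_span {x : Eis} {L : Type} [Field L] [NumberField L] {ι : Eis →+* L} {θ : L}
    {σ : L ≃ₐ[ℚ] L} (h : CubE x L ι θ σ) : ⊤ ≤ Submodule.span ℚ (Set.range (bv ι θ)) := by
  intro z _
  obtain ⟨m, a, b, d, hm, hz⟩ := h.rep z
  have hmL : (m : L) ≠ 0 := Int.cast_ne_zero.mpr hm
  have hz' : z = ((m : ℚ)⁻¹) • ((a.re : ℚ) • bv ι θ 0 + (a.im : ℚ) • bv ι θ 1 +
      (b.re : ℚ) • bv ι θ 2 + (b.im : ℚ) • bv ι θ 3 +
      (d.re : ℚ) • bv ι θ 4 + (d.im : ℚ) • bv ι θ 5) := by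
    simp only [bv, Matrix.cons_val, Algebra.smul_def, map_inv₀, map_intCast]
    rw [iota_eq ι a, iota_eq ι b, iota_eq ι d] at hz
    field_simp
    rw [mul_comm z, hz]
    ring
  have hmem : ∀ i, bv ι θ i ∈ Submodule.span ℚ (Set.range (bv ι θ)) := fun i =>
    Submodule.subset_span ⟨i, rfl⟩
  rw [hz']
  refine Submodule.smul_mem _ _ ?_
  refine Submodule.add_mem _ (Submodule.add_mem _ (Submodule.add_mem _ (Submodule.add_mem _
    (Submodule.add_mem _ ?_ ?_) ?_) ?_) ?_) ?_ <;> exact Submodule.smul_mem _ _ (hmem _)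

theorem finrank_six {x : Eis} {L : Type} [Field L] [NumberField L] {ι : Eis →+* L} {θ : L}
    {σ : L ≃ₐ[ℚ] L} (h : CubE x L ι θ σ) : Module.finrank ℚ L = 6 := by
  rw [Module.finrank_eq_card_basis (Module.Basis.mk (bv_indep h) (bv_span h))]
  simp

theorem prim {x : Eis} {L : Type} [Field L] [NumberField L] {ι : Eis →+* L} {θ : L}
    {σ : L ≃ₐ[ℚ] L} (h : CubE x L ι θ σ) : IsPrimitiveRoot (ι w) 3 := by
  have h3 : (ι w) ^ 3 = 1 := by rw [← map_pow, w_cube, map_one]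
  have h1 : ι w ≠ 1 := by
    intro he
    rw [← map_one ι] at he
    have := congrArg Eis.im (h.inj he)
    simp at this
  have := orderOf_eq_prime (p := 3) h3 h1
  rw [← this]
  exact IsPrimitiveRoot.orderOf _

end NRK

/-- NRK: the unit rank. -/
theorem NRK_thm : Stmt_NRK := by
  intro x L _ _ ι θ σ h
  have h6 := NRK.finrank_six h
  have hr : NumberField.InfinitePlace.nrRealPlaces L = 0 :=
    NumberField.InfinitePlace.IsPrimitiveRoot.nrRealPlaces_eq_zero_of_two_lt (by norm_num)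
      (NRK.prim h)
  have hc := NumberField.InfinitePlace.card_add_two_mul_card_eq_rank L
  have ht := NumberField.InfinitePlace.card_eq_nrRealPlaces_add_nrComplexPlaces L
  unfold NumberField.Units.rank
  rw [ht]
  omega

end Pool.Agent.PTK

end

section

/-!
# PTK_SVF: the sum of the local terms of a point
-/

set_option autoImplicit false

namespace Pool.Agent.PTK

open Pool.Agent.Lib_helper18 Pool.Agent.Lib_helper18.Eis Pool.Agent.Lib_helper84.Cub
open Pool.Agent.PT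

namespace SVF

/-- Finite support and sum zero. -/
def FZ (f : Pl → ZMod 3) : Prop := (Function.support f).Finite ∧ ∑ᶠ v : Pl, f v = 0

lemma FZ.add {f g : Pl → ZMod 3} (hf : FZ f) (hg : FZ g) : FZ (fun v => f v + g v) := by
  refine ⟨(hf.1.union hg.1).subset (Function.support_add f g), ?_⟩
  rw [finsum_add_distrib hf.1 hg.1, hf.2, hg.2, add_zero]

lemma FZ.sub {f g : Pl → ZMod 3} (hf : FZ f) (hg : FZ g) : FZ (fun v => f v - g v) := by
  refine ⟨(hf.1.union hg.1).subset (Function.support_sub f g), ?_⟩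
  rw [finsum_sub_distrib hf.1 hg.1, hf.2, hg.2, sub_zero]

lemma N''_ne {b x p q p' q' : Eis} (h : SolE b x p q p' q') : x * q' ^ 3 - q ^ 3 ≠ 0 := by
  intro h1
  apply h.n2
  have h2 := h.eq
  have h3 : p ^ 3 - x * p' ^ 3 = b * (x * q' ^ 3 - q ^ 3) := by linear_combination h2
  rw [h3, h1, mul_zero]

end SVF

open _root_.Pool.Agent.PTK.SVF in
/-- PTK_SVF. -/
theorem SVF_thm (hSSL : SSL) : Stmt_SVF := by
  have key : ∀ a b : Eis, a ≠ 0 → b ≠ 0 → FZ (fun v : Pl => sy v a b) :=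
    fun a b ha hb => hSSL.2.2.2 a b ha hb
  intro b x p q p' q' X Y _ _ hs _ _ hn hD
  have hN2 := N''_ne hs
  exact (((((key _ _ hD.d1 hs.n2).sub (key _ _ hD.d2 hs.n2)).sub (key _ _ hD.d1 hn)).add
    (key _ _ hD.d2 hn)).sub ((((key _ _ hD.d3 hN2).sub (key _ _ hD.d4 hN2)).sub
    (key _ _ hD.d3 hn)).add (key _ _ hD.d4 hn)))

end Pool.Agent.PTK

end

section

/-!
# PTK_NFL: existence of the field `K(x^(1/3))`
-/

set_option autoImplicit false

open Polynomial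

namespace Pool.Agent.PTK

open Pool.Agent.Lib_helper18 Pool.Agent.Lib_helper18.Eis Pool.Agent.Lib_helper84.Cub
open Pool.Agent.PT

namespace NFL

/-- the field `Q(w)` -/
abbrev F : Type := FractionRing Eis

theorem no_root {x : Eis} (hx : ¬ ∃ c : Eis, c ^ 3 = x) (b : F) : b ^ 3 ≠ algebraMap Eis F x := by
  intro hb
  have h1 : IsIntegral Eis b := IsIntegral.of_pow (n := 3) (by norm_num)
    (by rw [hb]; exact isIntegral_algebraMap)
  obtain ⟨c, hc⟩ := IsIntegrallyClosed.isIntegral_iff.mp h1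
  exact hx ⟨c, IsFractionRing.injective Eis F (by rw [map_pow, hc, hb])⟩

/-- From ring endomorphisms to the final statement. -/
theorem build (x : Eis) (L : Type) [Field L] [CharZero L] (ι : Eis →+* L) (θ : L)
    (σ0 : L →+* L) (inj : Function.Injective ι) (cube : θ ^ 3 = ι x)
    (sθ : σ0 θ = ι w * θ) (sι : ∀ a : Eis, σ0 (ι a) = ι a)
    (rep : ∀ z : L, ∃ (m : ℤ) (a b d : Eis), m ≠ 0 ∧ (m : L) * z = ι a + ι b * θ + ι d * θ ^ 2)
    (lin : ∀ a b d : Eis, ι a + ι b * θ + ι d * θ ^ 2 = 0 → a = 0 ∧ b = 0 ∧ d = 0) :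
    ∃ (L : Type) (_ : Field L) (_ : NumberField L) (ι : Eis →+* L) (θ : L) (σ : L ≃ₐ[ℚ] L),
      CubE x L ι θ σ := by
  classical
  have hfin : FiniteDimensional ℚ L := by
    refine Module.finite_def.mpr ⟨(Finset.range 2 ×ˢ Finset.range 3).image
      (fun ij : ℕ × ℕ => ι w ^ ij.1 * θ ^ ij.2), ?_⟩
    rw [eq_top_iff]
    rintro z -
    obtain ⟨m, a, b, d, hm, h⟩ := rep z
    have hmL : (m : L) ≠ 0 := Int.cast_ne_zero.mpr hm
    have hs : ∀ i < 2, ∀ j < 3, ι w ^ i * θ ^ j ∈ Submodule.span ℚ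
        (((Finset.range 2 ×ˢ Finset.range 3).image
          (fun ij : ℕ × ℕ => ι w ^ ij.1 * θ ^ ij.2) : Finset L) : Set L) := by
      intro i hi j hj
      apply Submodule.subset_span
      rw [Finset.mem_coe, Finset.mem_image]
      exact ⟨(i, j), by simp [hi, hj], rfl⟩
    have he : ∀ a : Eis, ι a = (a.re : L) + (a.im : L) * ι w := by
      intro a
      conv_lhs => rw [eq_re_add_im a]
      simp
    have hz : z = ((a.re : ℚ) / m) • (ι w ^ 0 * θ ^ 0) + ((a.im : ℚ) / m) • (ι w ^ 1 * θ ^ 0) +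
        ((b.re : ℚ) / m) • (ι w ^ 0 * θ ^ 1) + ((b.im : ℚ) / m) • (ι w ^ 1 * θ ^ 1) +
        ((d.re : ℚ) / m) • (ι w ^ 0 * θ ^ 2) + ((d.im : ℚ) / m) • (ι w ^ 1 * θ ^ 2) := by
      apply mul_left_cancel₀ hmL
      rw [h, he a, he b, he d]
      simp only [Rat.smul_def]
      push_cast
      field_simp
      ring
    rw [hz]
    refine Submodule.add_mem _ (Submodule.add_mem _ (Submodule.add_mem _ (Submodule.add_mem _
      (Submodule.add_mem _ ?_ ?_) ?_) ?_) ?_) ?_ <;>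
    exact Submodule.smul_mem _ _ (hs _ (by norm_num) _ (by norm_num))
  have hNF : NumberField L := { to_charZero := inferInstance, to_finiteDimensional := hfin }
  have key : ∀ g : L →+* L, ∃ g' : L ≃ₐ[ℚ] L, ∀ z, g' z = g z := by
    intro g
    have hb : Function.Bijective g.toRatAlgHom :=
      Algebra.IsAlgebraic.algHom_bijective _
    exact ⟨AlgEquiv.ofBijective g.toRatAlgHom hb, fun z => rfl⟩
  obtain ⟨σ, hσ⟩ := key σ0
  exact ⟨L, inferInstance, hNF, ι, θ, σ, inj, cube, by rw [hσ, sθ], fun a => by rw [hσ, sι],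
    rep, lin⟩

end NFL

open Pool.Agent.PTK.NFL in
theorem NFL_thm : Stmt_NFL := by
  intro x hx0 hx
  let f : F[X] := X ^ 3 - C (algebraMap Eis F x)
  have hf : Irreducible f :=
    X_pow_sub_C_irreducible_of_prime Nat.prime_three (fun b => no_root hx b)
  have : Fact (Irreducible f) := ⟨hf⟩
  have hdeg : f.natDegree = 3 := natDegree_X_pow_sub_C
  have hmonic : f.Monic := monic_X_pow_sub_C _ (by norm_num)
  let L := AdjoinRoot f
  let θ : L := AdjoinRoot.root f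
  let ι : Eis →+* L := (AdjoinRoot.of f).comp (algebraMap Eis F)
  have hinj : Function.Injective ι :=
    (AdjoinRoot.of f).injective.comp (IsFractionRing.injective Eis F)
  have hchar : CharZero Eis := ⟨fun a b h => by
    have := congrArg Eis.re h
    simpa using this⟩
  have hcL : CharZero L := charZero_of_injective_ringHom hinj
  have hcube : θ ^ 3 = ι x := by
    have h := AdjoinRoot.eval₂_root f
    simp only [f, eval₂_sub, eval₂_pow, eval₂_X, eval₂_C] at h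
    exact sub_eq_zero.mp h
  -- lin
  have hlin : ∀ a b d : Eis, ι a + ι b * θ + ι d * θ ^ 2 = 0 → a = 0 ∧ b = 0 ∧ d = 0 := by
    intro a b d h
    let g : F[X] := C (algebraMap Eis F a) + C (algebraMap Eis F b) * X +
      C (algebraMap Eis F d) * X ^ 2
    have hg : AdjoinRoot.mk f g = 0 := by
      simp only [g, map_add, map_mul, map_pow, AdjoinRoot.mk_C, AdjoinRoot.mk_X]
      exact h
    rw [AdjoinRoot.mk_eq_zero] at hg
    have hg0 : g = 0 := by
      by_contra hne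
      have h1 := natDegree_le_of_dvd hg hne
      have h2 : g.natDegree ≤ 2 := by
        simp only [g]
        compute_degree
      omega
    have c0 := congrArg (fun q => coeff q 0) hg0
    have c1 := congrArg (fun q => coeff q 1) hg0
    have c2 := congrArg (fun q => coeff q 2) hg0
    simp [g, coeff_X, coeff_C] at c0 c1 c2
    exact ⟨c0, c1, c2⟩
  -- rep
  have hF : ∀ z : F, ∃ (m : ℤ) (a : Eis), m ≠ 0 ∧ (m : F) * z = algebraMap Eis F a := by
    intro z
    obtain ⟨⟨u, v⟩, huv⟩ := IsLocalization.surj (nonZeroDivisors Eis) z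
    have hv : (v : Eis) ≠ 0 := nonZeroDivisors.coe_ne_zero v
    simp only at huv
    refine ⟨(v : Eis).norm, u * conj v, fun h => hv (norm_eq_zero.mp h), ?_⟩
    have h1 : (((v : Eis).norm : ℤ) : F) = algebraMap Eis F ((v : Eis) * conj v) := by
      rw [mul_conj]; simp
    rw [h1, map_mul, map_mul, ← huv]
    ring
  have hrep : ∀ z : L, ∃ (m : ℤ) (a b d : Eis), m ≠ 0 ∧
      (m : L) * z = ι a + ι b * θ + ι d * θ ^ 2 := by
    intro z
    obtain ⟨g0, rfl⟩ := AdjoinRoot.mk_surjective z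
    obtain ⟨g, hgd, hgz⟩ : ∃ g : F[X], g.natDegree < 3 ∧ AdjoinRoot.mk f g0 = AdjoinRoot.mk f g := by
      refine ⟨g0 %ₘ f, ?_, ?_⟩
      · have := natDegree_modByMonic_lt g0 hmonic (fun h => by
          rw [h] at hdeg; simp at hdeg)
        rwa [hdeg] at this
      · rw [AdjoinRoot.mk_eq_mk]
        exact ⟨g0 /ₘ f, by
          have := modByMonic_add_div g0 f
          linear_combination (-1 : F[X]) * this⟩
    obtain ⟨m0, a, hm0, ha⟩ := hF (g.coeff 0)
    obtain ⟨m1, b, hm1, hb⟩ := hF (g.coeff 1)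
    obtain ⟨m2, d, hm2, hd⟩ := hF (g.coeff 2)
    refine ⟨m0 * m1 * m2, ((m1 * m2 : ℤ) : Eis) * a, ((m0 * m2 : ℤ) : Eis) * b, ((m0 * m1 : ℤ) : Eis) * d,
      by simp [hm0, hm1, hm2], ?_⟩
    have hg3 : g = C (g.coeff 0) + C (g.coeff 1) * X + C (g.coeff 2) * X ^ 2 := by
      conv_lhs => rw [g.as_sum_range' 3 hgd]
      simp [Finset.sum_range_succ, ← C_mul_X_pow_eq_monomial]
    have e : AdjoinRoot.mk f g0 = AdjoinRoot.of f (g.coeff 0) + AdjoinRoot.of f (g.coeff 1) * θ +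
        AdjoinRoot.of f (g.coeff 2) * θ ^ 2 := by
      rw [hgz]
      conv_lhs => rw [hg3]
      simp only [map_add, map_mul, map_pow, AdjoinRoot.mk_C, AdjoinRoot.mk_X]
      rfl
    have ha' : (m0 : L) * AdjoinRoot.of f (g.coeff 0) = ι a := by
      have := congrArg (AdjoinRoot.of f) ha
      rw [map_mul, map_intCast] at this
      exact this
    have hb' : (m1 : L) * AdjoinRoot.of f (g.coeff 1) = ι b := by
      have := congrArg (AdjoinRoot.of f) hb
      rw [map_mul, map_intCast] at this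
      exact this
    have hd' : (m2 : L) * AdjoinRoot.of f (g.coeff 2) = ι d := by
      have := congrArg (AdjoinRoot.of f) hd
      rw [map_mul, map_intCast] at this
      exact this
    rw [e, map_mul, map_mul, map_mul, ← ha', ← hb', ← hd']
    have hm : ((m0 * m1 * m2 : ℤ) : L) = (m0 : L) * m1 * m2 := by
      rw [Int.cast_mul, Int.cast_mul]
    have hi : ∀ k l : ℤ, ι ((k * l : ℤ) : Eis) = (k : L) * l := fun k l => by
      rw [map_intCast, Int.cast_mul]
    rw [hm, hi, hi, hi]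
    ring
  have hw3 : ι w ^ 3 = 1 := by rw [← map_pow, w_cube, map_one]
  -- sigma
  let σ0 : L →+* L := AdjoinRoot.lift (AdjoinRoot.of f) (ι w * θ) (by
    simp only [f, eval₂_sub, eval₂_pow, eval₂_X, eval₂_C]
    rw [mul_pow, hw3, hcube, one_mul]
    exact sub_self _)
  exact build x L ι θ σ0 hinj hcube (AdjoinRoot.lift_root _) (fun a => AdjoinRoot.lift_of _)
    hrep hlin

end Pool.Agent.PTK

end
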