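import Mathlib
import Pool.Agent.PTWX.C34
import Pool.Agent.PTWX.C42

/-! Parts: PT.NAUX, PT.F6R, PTKX.F6R -/

namespace Pool.Agent.PT.NAUX
end Pool.Agent.PT.NAUX

namespace Pool.Agent.PT.F6R
end Pool.Agent.PT.F6R

namespace Pool.Agent.PTK.F6R
end Pool.Agent.PTK.F6R

section

/-!
# Primes with prescribed cubic residue symbols up to a common factor
-/

open NumberField
open scoped Pointwise

namespace Pool.Agent.PT

open Pool.Agent.Lib_helper18 Pool.Agent.Lib_helper18.Eis Pool.Agent.Lib_helper84.Cub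

namespace NAUX

/-! ### A set of primes of positive density is infinite -/

theorem exists_large {S : Set ℕ} {δ : ℝ} (hδ : 0 < δ) (h : RI.DensityGE S δ) (M : ℕ) :
    ∃ q : ℕ, q.Prime ∧ q ∈ S ∧ M < q := by
  by_contra hcon
  push Not at hcon
  have h1 : RI.DensityGE ∅ δ := by
    refine RI.PDGE_thm S ∅ (Finset.range (M + 1)) δ h ?_
    intro q hq hp hA
    exact absurd (Finset.mem_range.2 (Nat.lt_succ_of_le (hcon q hp hq))) hA
  obtain ⟨C, hC⟩ := h1
  have hx : 0 ≤ (|C| + 1) / δ := by positivity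
  have he : Real.exp (-((|C| + 1) / δ)) ≤ 1 := Real.exp_le_one_iff.2 (by linarith)
  have h2 := hC (1 + Real.exp (-((|C| + 1) / δ))) (by linarith [Real.exp_pos (-((|C| + 1) / δ))])
    (by linarith)
  have h3 : Real.log (1 / (1 + Real.exp (-((|C| + 1) / δ)) - 1)) = (|C| + 1) / δ := by
    rw [add_sub_cancel_left, one_div, ← Real.exp_neg, neg_neg, Real.log_exp]
  have h4 : IsEmpty {q : ℕ // q.Prime ∧ q ∈ (∅ : Set ℕ)} := ⟨fun q => q.2.2⟩
  rw [h3, tsum_empty, mul_div_cancel₀ _ hδ.ne'] at h2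
  linarith [le_abs_self C]

/-! ### The field -/

theorem hom_injective {R : Type*} [Field R] [CharZero R] (φ : Eis →+* R) :
    Function.Injective φ := by
  rw [injective_iff_map_eq_zero]
  intro x hx
  have h1 : φ (x * conj x) = 0 := by rw [map_mul, hx, zero_mul]
  rw [mul_conj, map_intCast] at h1
  exact norm_eq_zero.1 (by exact_mod_cast h1)

/-- an algebraic closure of `ℚ` -/
abbrev Ω : Type := AlgebraicClosure ℚ

theorem isAlgebraic_Ω : Algebra.IsAlgebraic ℚ Ω := by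
  have e : (AlgebraicClosure.instAlgebra ℚ : Algebra ℚ Ω) = DivisionRing.toRatAlgebra :=
    Subsingleton.elim _ _
  exact e ▸ (AlgebraicClosure.isAlgebraic ℚ)

theorem exists_field (t : ℕ) (a : Fin t → Eis) :
    ∃ (L : Type) (_ : Field L) (_ : NumberField L) (_ : IsGalois ℚ L) (ι : Eis →+* L)
      (A : Fin t → L), ∀ i, A i ^ 3 = ι (a i) := by
  classical
  have hint := isAlgebraic_Ω
  have hcl : IsAlgClosure ℚ Ω := ⟨inferInstance, inferInstance⟩
  have hnorm : Normal ℚ Ω := IsAlgClosure.normal ℚ Ω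
  obtain ⟨ω, hω⟩ : ∃ ω : Ω, ω ^ 2 + ω + 1 = 0 := by
    have hd : (Polynomial.X ^ 2 + Polynomial.X + 1 : Polynomial Ω).degree ≠ 0 := by
      have : (Polynomial.X ^ 2 + Polynomial.X + 1 : Polynomial Ω).degree = 2 := by
        compute_degree!
      rw [this]
      norm_num
    obtain ⟨ω, hω⟩ := IsAlgClosed.exists_root _ hd
    exact ⟨ω, by simpa [Polynomial.IsRoot] using hω⟩
  obtain ⟨ι₀, hι₀⟩ : ∃ ι₀ : Eis →+* Ω, ι₀ = lift ω hω := ⟨_, rfl⟩
  have hA : ∀ i, ∃ x : Ω, x ^ 3 = ι₀ (a i) := fun i =>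
    IsAlgClosed.exists_pow_nat_eq _ (by norm_num)
  choose A₀ hA₀ using hA
  let K : IntermediateField ℚ Ω := IntermediateField.adjoin ℚ (insert ω (Set.range A₀))
  have hK : FiniteDimensional ℚ K :=
    IntermediateField.finiteDimensional_adjoin fun x _ => Algebra.IsIntegral.isIntegral x
  let L : IntermediateField ℚ Ω := IntermediateField.normalClosure ℚ K Ω
  have hKL : K ≤ L := IntermediateField.le_normalClosure K
  have hfin : FiniteDimensional ℚ L := inferInstance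
  have hnf : NumberField L := ⟨⟩
  have hnL : Normal ℚ L := normalClosure.normal ℚ K Ω
  have hgal : IsGalois ℚ L := ⟨⟩
  have hωL : ω ∈ L := hKL (IntermediateField.subset_adjoin _ _ (Set.mem_insert _ _))
  have hAL : ∀ i, A₀ i ∈ L := fun i =>
    hKL (IntermediateField.subset_adjoin _ _ (Set.mem_insert_of_mem _ ⟨i, rfl⟩))
  refine ⟨L, inferInstance, hnf, hgal, lift (⟨ω, hωL⟩ : L) (Subtype.ext (by
    push_cast
    exact hω)), fun i => ⟨A₀ i, hAL i⟩, ?_⟩
  intro i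
  apply Subtype.ext
  have h1 := hA₀ i
  rw [hι₀, lift_apply] at h1
  rw [lift_apply]
  push_cast
  exact h1

/-! ### The automorphism -/

theorem exists_aut (hSPP : SPP) (hKUM : KUM) {t : ℕ} (π : Fin t → PP)
    (hπ : Function.Injective π) (L : Type) [Field L] [NumberField L] [IsGalois ℚ L]
    (ι : Eis →+* L) (A : Fin t → L) (hA : ∀ i, A i ^ 3 = ι (π i).1) (r : Fin t → ZMod 3) :
    ∃ g : L ≃ₐ[ℚ] L, g (ι w) = ι w ∧ ∀ i, g (A i) = ι w ^ (r i).val * A i := by
  have hinj := hom_injective ι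
  have hcz : CharZero Eis := ⟨fun m n h => by
    have := congrArg Eis.re h
    simpa using this⟩
  let F := FractionRing Eis
  have hczF : CharZero F := charZero_of_injective_algebraMap (IsFractionRing.injective Eis F)
  letI : Algebra F L := (IsFractionRing.lift hinj : F →+* L).toAlgebra
  have halg : ∀ x : Eis, algebraMap F L (algebraMap Eis F x) = ι x := fun x =>
    IsFractionRing.lift_algebraMap hinj x
  have htow : IsScalarTower ℚ F L := IsScalarTower.of_algebraMap_eq' (RingHom.ext_rat _ _)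
  have hfin : FiniteDimensional F L := Module.Finite.of_restrictScalars_finite ℚ F L
  have hgal : IsGalois F L := IsGalois.tower_top_of_isGalois ℚ F L
  have hnd : ∀ i j, i ≠ j → ¬ (π j).1 ∣ (π i).1 := by
    intro i j hij h
    apply hij
    apply hπ
    exact (hSPP.2.1 (π j) (π i) ((π j).2.1.associated_of_dvd (π i).2.1 h)).symm
  obtain ⟨g, hg⟩ := hKUM F L (algebraMap Eis F w) (Fin t) (fun i => algebraMap Eis F (π i).1) A
    (by rw [← map_pow, ← map_add, ← map_one (algebraMap Eis F), ← map_add, w_rel, map_zero])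
    (fun i h => (π i).2.1.ne_zero ((IsFractionRing.injective Eis F) (by rw [h, map_zero])))
    (fun i => by rw [halg, hA]) (by
      rintro n ⟨b, hb⟩ j
      obtain ⟨u, v, hv, rfl⟩ := IsFractionRing.div_surjective (A := Eis) b
      have hv0 : v ≠ 0 := nonZeroDivisors.ne_zero hv
      have hvF : algebraMap Eis F v ≠ 0 := fun h => hv0
        ((IsFractionRing.injective Eis F) (by rw [h, map_zero]))
      have h1 : (∏ i, (π i).1 ^ n i) * v ^ 3 = u ^ 3 := by
        apply IsFractionRing.injective Eis F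
        rw [map_mul, map_prod, map_pow, map_pow]
        simp only [map_pow]
        rw [hb, div_pow, div_mul_cancel₀ _ (pow_ne_zero _ hvF)]
      have hj := (π j).2.1
      have hrest : ¬ (π j).1 ∣ ∏ i ∈ Finset.univ.erase j, (π i).1 ^ n i := by
        intro h
        obtain ⟨i, hi, h2⟩ := hj.exists_mem_finset_dvd h
        exact hnd i j (Finset.ne_of_mem_erase hi) (hj.dvd_of_dvd_pow h2)
      have hrest0 : ∏ i ∈ Finset.univ.erase j, (π i).1 ^ n i ≠ 0 := fun h => hrest (h ▸ dvd_zero _)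
      have hprod : ∏ i, (π i).1 ^ n i = (π j).1 ^ n j * ∏ i ∈ Finset.univ.erase j, (π i).1 ^ n i :=
        (Finset.mul_prod_erase _ _ (Finset.mem_univ j)).symm
      have hu0 : u ≠ 0 := by
        rintro rfl
        rw [zero_pow (by norm_num), hprod] at h1
        exact mul_ne_zero (mul_ne_zero (pow_ne_zero _ hj.ne_zero) hrest0) (pow_ne_zero _ hv0) h1
      have h2 := congrArg (V (π j).1) h1
      rw [V_mul hj (by rw [hprod]; exact mul_ne_zero (pow_ne_zero _ hj.ne_zero) hrest0)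
        (pow_ne_zero _ hv0), V_pow hj hv0, V_pow hj hu0, hprod,
        V_mul hj (pow_ne_zero _ hj.ne_zero) hrest0, V_pow hj hj.ne_zero, V_self,
        V_eq_zero hrest] at h2
      omega) r
  refine ⟨g.restrictScalars ℚ, ?_, ?_⟩
  · show g (ι w) = ι w
    rw [← halg, AlgEquiv.commutes]
  · intro i
    show g (A i) = _
    rw [hg, halg]

/-! ### The residue field -/

section Local

variable {L : Type} [Field L] [NumberField L]

theorem ne_bot {q : ℕ} (hq : q.Prime) (P : Ideal (𝓞 L)) (hqP : (q : 𝓞 L) ∈ P) : P ≠ ⊥ := by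
  rintro rfl
  rw [Ideal.mem_bot] at hqP
  exact hq.ne_zero (by exact_mod_cast hqP)

theorem finite_quot {q : ℕ} (hq : q.Prime) (P : Ideal (𝓞 L)) (hqP : (q : 𝓞 L) ∈ P) :
    Finite (𝓞 L ⧸ P) := Ideal.finiteQuotientOfFreeOfNeBot P (ne_bot hq P hqP)

theorem card_quot {q : ℕ} (hq : q.Prime) (P : Ideal (𝓞 L)) [P.IsPrime] (hqP : (q : 𝓞 L) ∈ P) :
    Nat.card (ℤ ⧸ P.under ℤ) = q := by
  have h1 : P.under ℤ = Ideal.span {(q : ℤ)} := by
    symm
    have hmax : (Ideal.span {(q : ℤ)}).IsMaximal :=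
      PrincipalIdealRing.isMaximal_of_irreducible (Nat.prime_iff_prime_int.1 hq).irreducible
    refine hmax.eq_of_le (Ideal.IsPrime.ne_top inferInstance) ?_
    rw [Ideal.span_singleton_le_iff_mem, Ideal.mem_comap]
    simpa using hqP
  rw [h1, Nat.card_congr (Int.quotientSpanNatEquivZMod q).toEquiv, Nat.card_zmod]

theorem exists_frob [IsGalois ℚ L] {q : ℕ} (hq : q.Prime) (P : Ideal (𝓞 L)) [P.IsPrime]
    (hqP : (q : 𝓞 L) ∈ P) (g : L ≃ₐ[ℚ] L)
    (hst : MulAction.stabilizer (L ≃ₐ[ℚ] L) P = Subgroup.zpowers g) :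
    ∃ k : ℕ, ∀ x : 𝓞 L, (g ^ k) • x - x ^ q ∈ P := by
  have := finite_quot hq P hqP
  obtain ⟨σ, hσ⟩ := IsArithFrobAt.exists_of_isInvariant ℤ (L ≃ₐ[ℚ] L) P
  have hσs := hσ.mem_stabilizer
  rw [hst, ← mem_powers_iff_mem_zpowers] at hσs
  obtain ⟨k, rfl⟩ := hσs
  refine ⟨k, fun x => ?_⟩
  have h := hσ x
  rw [card_quot hq P hqP] at h
  exact h

theorem frob_pow_apply (K M : Type) [Field K] [Fintype K] [Field M] [Finite M] [Algebra K M]
    (n : ℕ) (y : M) : (FiniteField.frobeniusAlgEquivOfAlgebraic K M ^ n) y =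
      y ^ (Fintype.card K ^ n) := by
  induction n generalizing y with
  | zero => simp
  | succ n ih =>
    rw [pow_succ, AlgEquiv.mul_apply, ih, FiniteField.coe_frobeniusAlgEquivOfAlgebraic]
    show (y ^ Fintype.card K) ^ (Fintype.card K ^ n) = _
    rw [← pow_mul, pow_succ']

theorem exists_pow [IsGalois ℚ L] {q : ℕ} (hq : q.Prime) (P : Ideal (𝓞 L)) [hP : P.IsPrime]
    (hqP : (q : 𝓞 L) ∈ P) (g : L ≃ₐ[ℚ] L) (hg : g ∈ MulAction.stabilizer (L ≃ₐ[ℚ] L) P) :
    ∃ j : ℕ, ∀ x : 𝓞 L, g • x - x ^ (q ^ j) ∈ P := by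
  have hfin := finite_quot hq P hqP
  have hmax : P.IsMaximal := hP.isMaximal (ne_bot hq P hqP)
  letI : Field (𝓞 L ⧸ P) := Ideal.Quotient.field P
  have hfact := Fact.mk hq
  have hchar : CharP (𝓞 L ⧸ P) q := by
    refine (CharP.charP_iff_prime_eq_zero hq).2 ?_
    have : (Ideal.Quotient.mk P) (q : 𝓞 L) = 0 := Ideal.Quotient.eq_zero_iff_mem.2 hqP
    simpa using this
  letI : Algebra (ZMod q) (𝓞 L ⧸ P) := ZMod.algebra _ q
  let e : (𝓞 L ⧸ P) ≃+* (𝓞 L ⧸ P) := Ideal.quotientEquiv P P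
    (MulSemiringAction.toRingEquiv (L ≃ₐ[ℚ] L) (𝓞 L) g) (by
      rw [MulAction.mem_stabilizer_iff] at hg
      conv_lhs => rw [← hg]
      rfl)
  let e' : (𝓞 L ⧸ P) ≃ₐ[ZMod q] (𝓞 L ⧸ P) := AlgEquiv.ofRingEquiv (f := e) (fun r =>
    RingHom.congr_fun (Subsingleton.elim ((e : (𝓞 L ⧸ P) →+* (𝓞 L ⧸ P)).comp
      (algebraMap (ZMod q) (𝓞 L ⧸ P))) (algebraMap (ZMod q) (𝓞 L ⧸ P))) r)
  obtain ⟨n, hn⟩ := (FiniteField.bijective_frobeniusAlgEquivOfAlgebraic_pow (ZMod q)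
    (𝓞 L ⧸ P)).2 e'
  refine ⟨n, fun x => ?_⟩
  have h1 := DFunLike.congr_fun hn (Ideal.Quotient.mk P x)
  simp only at h1
  rw [frob_pow_apply, ZMod.card] at h1
  rw [← Ideal.Quotient.eq, map_pow, h1]
  rfl

theorem pow_apply (g : L ≃ₐ[ℚ] L) {ω a : L} {m : ℕ} (hω : g ω = ω) (ha : g a = ω ^ m * a)
    (k : ℕ) : (g ^ k) a = ω ^ (m * k) * a := by
  induction k with
  | zero => simp
  | succ k ih =>
    rw [pow_succ', AlgEquiv.mul_apply, ih, map_mul, map_pow, hω, ha]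
    ring

theorem coe_smul (g : L ≃ₐ[ℚ] L) (x : 𝓞 L) :
    algebraMap (𝓞 L) L (g • x) = g (algebraMap (𝓞 L) L x) := rfl

theorem inj_O {x y : 𝓞 L} (h : algebraMap (𝓞 L) L x = algebraMap (𝓞 L) L y) : x = y :=
  FaithfulSMul.algebraMap_injective (𝓞 L) L h

theorem local_main [IsGalois ℚ L] (hSPP : SPP) {t : ℕ} (π : Fin t → PP) (ι : Eis →+* L)
    (A : Fin t → L) (hA : ∀ i, A i ^ 3 = ι (π i).1) (r : Fin t → ZMod 3) (g : L ≃ₐ[ℚ] L)
    (hgw : g (ι w) = ι w) (hgA : ∀ i, g (A i) = ι w ^ (r i).val * A i) {q : ℕ} (hq : q.Prime)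
    (hq3 : 3 < q) (hbig : ∀ i, N (π i).1 < q) (P : Ideal (𝓞 L)) (hP : P.IsPrime)
    (hqP : (q : 𝓞 L) ∈ P)
    (hst : MulAction.stabilizer (L ≃ₐ[ℚ] L) P = Subgroup.zpowers g) :
    ∃ ρ : PP, N ρ.1 = q ∧ ∃ k c : ZMod 3, ∀ i,
      sym ρ.1 (π i).1 = k * r i ∧ r i = c * sym ρ.1 (π i).1 := by
  have hmax : P.IsMaximal := hP.isMaximal (ne_bot hq P hqP)
  letI : Field (𝓞 L ⧸ P) := Ideal.Quotient.field P
  obtain ⟨k, hk⟩ := exists_frob hq P hqP g hst
  obtain ⟨j, hj⟩ := exists_pow hq P hqP g (by rw [hst]; exact Subgroup.mem_zpowers g)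
  -- integral versions
  have hwint : IsIntegral ℤ (ι w) := by
    refine IsIntegral.of_pow (n := 3) (by norm_num) ?_
    rw [← map_pow, w_cube, map_one]
    exact isIntegral_one
  obtain ⟨W, hW⟩ : ∃ W : 𝓞 L, algebraMap (𝓞 L) L W = ι w := ⟨⟨ι w, hwint⟩, rfl⟩
  have hWrel : W ^ 2 + W + 1 = 0 := by
    apply inj_O
    rw [map_add, map_add, map_pow, map_one, map_zero, hW]
    exact hom_w ι
  obtain ⟨ιO, hιO⟩ : ∃ ιO : Eis →+* 𝓞 L, ιO = lift W hWrel := ⟨_, rfl⟩
  have hιOw : ιO w = W := by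
    rw [hιO, lift_apply]
    simp
  have hιc : ∀ x : Eis, algebraMap (𝓞 L) L (ιO x) = ι x := by
    intro x
    rw [hιO, lift_apply, hom_apply ι x, map_add, map_mul, map_intCast, map_intCast, hW]
  have hint : ∀ x : Eis, IsIntegral ℤ (ι x) := fun x => by
    rw [← hιc x]
    exact RingOfIntegers.isIntegral_coe (ιO x)
  have hAint : ∀ i, IsIntegral ℤ (A i) := fun i =>
    IsIntegral.of_pow (n := 3) (by norm_num) (by rw [hA]; exact hint _)
  obtain ⟨B, hB⟩ : ∃ B : Fin t → 𝓞 L, ∀ i, algebraMap (𝓞 L) L (B i) = A i :=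
    ⟨fun i => ⟨A i, hAint i⟩, fun i => rfl⟩
  have hB3 : ∀ i, B i ^ 3 = ιO (π i).1 := by
    intro i
    apply inj_O
    rw [hιc, map_pow, hB, hA]
  -- the residue map
  obtain ⟨θ, hθ⟩ : ∃ θ : Eis →+* (𝓞 L ⧸ P), θ = (Ideal.Quotient.mk P).comp ιO := ⟨_, rfl⟩
  have hθa : ∀ x, θ x = Ideal.Quotient.mk P (ιO x) := fun x => by rw [hθ]; rfl
  have hθq : θ (q : Eis) = 0 := by
    rw [hθa, map_natCast]
    exact Ideal.Quotient.eq_zero_iff_mem.2 hqP
  have hkerp : (RingHom.ker θ).IsPrime := RingHom.ker_isPrime θ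
  have hkne : RingHom.ker θ ≠ ⊥ := by
    intro h
    have h1 : (q : Eis) ∈ RingHom.ker θ := hθq
    rw [h, Ideal.mem_bot] at h1
    have := congrArg Eis.re h1
    simp at this
    exact hq.ne_zero this
  obtain ⟨l, hl, hlθ⟩ : ∃ l : Eis, Prime l ∧ ∀ x, θ x = 0 ↔ l ∣ x := by
    refine ⟨Submodule.IsPrincipal.generator (RingHom.ker θ),
      Submodule.IsPrincipal.prime_generator_of_isPrime _ hkne, fun x => ?_⟩
    rw [← Submodule.IsPrincipal.mem_iff_generator_dvd]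
    exact (RingHom.mem_ker).symm
  have hl3 : ¬ l ∣ 3 := by
    intro h
    have h1 := (hlθ 3).2 h
    rw [hom_three] at h1
    have h2 : (q : 𝓞 L ⧸ P) = 0 := by rw [← map_natCast θ]; exact hθq
    have hcop : Nat.Coprime 3 q := by
      rw [Nat.coprime_primes Nat.prime_three hq]
      omega
    have h3 : IsCoprime ((3 : ℕ) : ℤ) (q : ℤ) := Nat.isCoprime_iff_coprime.2 hcop
    obtain ⟨a, b, hab⟩ := h3
    have h4 := congrArg (fun z : ℤ => (z : 𝓞 L ⧸ P)) hab
    push_cast at h4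
    rw [h1, h2, mul_zero, mul_zero, add_zero] at h4
    exact zero_ne_one h4
  obtain ⟨ρ, hρ⟩ := hSPP.1 l hl hl3
  have hρθ : ∀ x, θ x = 0 ↔ ρ.1 ∣ x := fun x => (hlθ x).trans hρ.dvd_iff_dvd_left
  have hρp := ρ.2.1
  have hρ3 : ¬ ρ.1 ∣ 3 := (hSPP.2.2.2.1 ρ).1
  have hcmp : ∀ a b : ℕ, (θ w) ^ a = (θ w) ^ b → (a : ZMod 3) = b := by
    intro a b h
    apply w_pow_sub_dvd hρ3
    rw [← hρθ, map_sub, map_pow, map_pow, h, sub_self]
  have hθw0 : θ w ≠ 0 := by
    intro h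
    have h1 := (hρθ w).1 h
    exact not_dvd_of_isUnit hρp isUnit_w h1
  have hθw : θ w = Ideal.Quotient.mk P W := by rw [hθa, hιOw]
  -- `q = 1 (mod 3)`
  have hgk : (g ^ k) (ι w) = ι w := by
    have := pow_apply g (ω := ι w) (a := ι w) (m := 0) hgw (by rw [hgw]; simp) k
    simpa using this
  have hq1 : (1 : ZMod 3) = q := by
    have h1 := hk W
    rw [← Ideal.Quotient.eq, map_pow] at h1
    have h2 : (g ^ k) • W = W := by
      apply inj_O
      rw [coe_smul, hW, hgk]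
    rw [h2, ← hθw] at h1
    have h3 := hcmp 1 q (by rw [pow_one]; exact h1)
    simpa using h3
  have hq1' : q % 3 = 1 := by
    have h1 : ((1 : ℕ) : ZMod 3) = (q : ℕ) := by simpa using hq1
    rw [ZMod.natCast_eq_natCast_iff'] at h1
    omega
  -- the norm
  have hN : N ρ.1 = q := by
    have hdq : ρ.1 ∣ (q : Eis) := (hρθ _).1 hθq
    obtain ⟨p, hp, h | h⟩ := hSPP.2.2.2.2.2 ρ
    · exfalso
      rw [h.2] at hdq
      have h1 := (natCast_dvd_iff (n := p) (x := (q : Eis))).1 hdq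
      have h2 : p ∣ q := by
        have := h1.1
        simp only [natCast_re] at this
        exact_mod_cast this
      rw [Nat.prime_dvd_prime_iff_eq hp hq] at h2
      omega
    · obtain ⟨c, hc⟩ := hdq
      have h1 : (q : ℤ) ^ 2 = p * c.norm := by
        rw [← h.2.1, ← Eis.norm_mul, ← hc, norm_natCast]
      have h2 : (p : ℤ) ∣ (q : ℤ) ^ 2 := ⟨_, h1⟩
      have h3 : p ∣ q ^ 2 := by exact_mod_cast h2
      have h4 : p ∣ q := hp.dvd_of_dvd_pow h3
      rw [Nat.prime_dvd_prime_iff_eq hp hq] at h4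
      have h5 := N_cast ρ.1
      rw [h.2.1, h4] at h5
      exact_mod_cast h5
  refine ⟨ρ, hN, k, ((q ^ j - 1) / (q - 1) : ℕ), ?_⟩
  intro i
  have hnd : ¬ ρ.1 ∣ (π i).1 := by
    intro h
    have h1 := hSPP.2.1 ρ (π i) (hρp.associated_of_dvd (π i).2.1 h)
    have h2 := hbig i
    rw [← h1, hN] at h2
    exact lt_irrefl _ h2
  have hs := map_pow_eq hρp hρ3 hnd θ ((hρθ _).2 dvd_rfl)
  rw [hN] at hs
  -- the element `B i` in the residue field
  have hb0 : Ideal.Quotient.mk P (B i) ≠ 0 := by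
    intro h
    apply hnd
    rw [← hρθ, hθa, ← hB3, map_pow, h]
    norm_num
  have hb3 : (Ideal.Quotient.mk P (B i)) ^ 3 = θ (π i).1 := by
    rw [← map_pow, hB3, hθa]
  have hdiv : 3 * ((q - 1) / 3) = q - 1 := by omega
  have hb1 : (Ideal.Quotient.mk P (B i)) ^ (q - 1) = (θ w) ^ (sym ρ.1 (π i).1).val := by
    rw [← hs, ← hb3, ← pow_mul, hdiv]
  constructor
  · have h1 := hk (B i)
    rw [← Ideal.Quotient.eq, map_pow] at h1
    have h2 : (g ^ k) • B i = W ^ ((r i).val * k) * B i := by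
      apply inj_O
      rw [coe_smul, hB, pow_apply g hgw (hgA i) k, map_mul, map_pow, hW, hB]
    rw [h2, map_mul, map_pow, ← hθw] at h1
    have h3 : (Ideal.Quotient.mk P (B i)) ^ q =
        (Ideal.Quotient.mk P (B i)) ^ (q - 1) * Ideal.Quotient.mk P (B i) := by
      rw [← pow_succ, Nat.sub_add_cancel hq.one_le]
    rw [h3, hb1] at h1
    have h4 := mul_right_cancel₀ hb0 h1
    have h5 := hcmp _ _ h4
    push_cast at h5
    simp only [ZMod.natCast_val, ZMod.cast_id', id] at h5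
    rw [← h5]
    ring
  · have h1 := hj (B i)
    rw [← Ideal.Quotient.eq, map_pow] at h1
    have h2 : g • B i = W ^ (r i).val * B i := by
      apply inj_O
      rw [coe_smul, hB, hgA i, map_mul, map_pow, hW, hB]
    rw [h2, map_mul, map_pow, ← hθw] at h1
    have hqj : 1 ≤ q ^ j := Nat.one_le_pow _ _ hq.pos
    have hc : (q - 1) * ((q ^ j - 1) / (q - 1)) = q ^ j - 1 := by
      apply Nat.mul_div_cancel'
      have := Nat.sub_dvd_pow_sub_pow q 1 j
      rwa [one_pow] at this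
    have h3 : (Ideal.Quotient.mk P (B i)) ^ (q ^ j) =
        (Ideal.Quotient.mk P (B i)) ^ (q ^ j - 1) * Ideal.Quotient.mk P (B i) := by
      rw [← pow_succ, Nat.sub_add_cancel hqj]
    rw [h3, ← hc, pow_mul, hb1, ← pow_mul] at h1
    have h4 := mul_right_cancel₀ hb0 h1
    have h5 := hcmp _ _ h4
    push_cast at h5
    simp only [ZMod.natCast_val, ZMod.cast_id', id] at h5
    rw [h5]
    ring

end Local

end NAUX

open _root_.Pool.Agent.PT.NAUX in
theorem NAUX_thm (hSPP : SPP) (hKUM : KUM) : NAUX := by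
  intro t π r A hπ
  obtain ⟨L, _, _, _, ι, B, hB⟩ := exists_field t (fun i => (π i).1)
  obtain ⟨g, hgw, hgA⟩ := exists_aut hSPP hKUM π hπ L ι B hB r
  have hdens := RI.FROBD.main L {g}
  have hδ : (0 : ℝ) < (Nat.card ({g} : Set (L ≃ₐ[ℚ] L)) : ℝ) / Nat.card (L ≃ₐ[ℚ] L) := by
    have h1 : 0 < Nat.card (L ≃ₐ[ℚ] L) := Nat.card_pos
    have h2 : 0 < Nat.card ({g} : Set (L ≃ₐ[ℚ] L)) := by
      rw [Nat.card_unique]
      norm_num
    positivity
  obtain ⟨q, hq, ⟨g', hg', P, hP, hqP, hst⟩, hlarge⟩ := exists_large hδ hdens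
    (∑ a ∈ A, N a.1 + ∑ i, N (π i).1 + 3)
  rw [Set.mem_singleton_iff] at hg'
  subst hg'
  have hbig : ∀ i, N (π i).1 < q := by
    intro i
    have h1 : N (π i).1 ≤ ∑ i, N (π i).1 :=
      Finset.single_le_sum (f := fun i => N (π i).1) (fun _ _ => Nat.zero_le _) (Finset.mem_univ i)
    omega
  have hbigA : ∀ a ∈ A, N a.1 < q := by
    intro a ha
    have h1 : N a.1 ≤ ∑ a ∈ A, N a.1 :=
      Finset.single_le_sum (f := fun a : PP => N a.1) (fun _ _ => Nat.zero_le _) ha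
    omega
  obtain ⟨ρ, hN, k, c, hkc⟩ := local_main hSPP π ι B hB r g' hgw hgA hq (by omega) hbig P hP hqP hst
  refine ⟨ρ, fun h => ?_, ?_⟩
  · have := hbigA ρ h
    omega
  · by_cases hr : ∀ i, r i = 0
    · refine ⟨1, by decide, fun i => ?_⟩
      rw [(hkc i).1, hr i]
      ring
    · push Not at hr
      obtain ⟨i₀, hi₀⟩ := hr
      refine ⟨k, ?_, fun i => (hkc i).1⟩
      rintro rfl
      apply hi₀
      rw [(hkc i₀).2, (hkc i₀).1]
      ring

end Pool.Agent.PT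

end

section

/-!
# Module F6R: the local term of a point at a tame place where `x` has valuation prime to `3`
-/

namespace Pool.Agent.PT

open Pool.Agent.Lib_helper18 Pool.Agent.Lib_helper18.Eis Pool.Agent.Lib_helper84.Cub

namespace F6R

variable {π : Eis} {s : Eis → Eis → ZMod 3}

theorem three_smul_zmod (a : ZMod 3) : a + a + a = 0 := by
  revert a; decide

/-- The dominating term determines the symbol. -/
theorem dom (L : LSym π s 1) {a d c : Eis} (ha : a ≠ 0) (hc : c ≠ 0)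
    (hd : d = 0 ∨ V π a < V π d) : s (a + d) c = s a c := by
  apply L.cont a (a + d) c ha hc
  have h1 : a + d - a = d := by ring
  rw [h1]
  rcases hd with rfl | hd
  · exact dvd_zero _
  · exact (pow_dvd_pow π hd).trans (pow_multiplicity_dvd π d)

/-- The dominating term determines the valuation. -/
theorem V_dom (L : LSym π s 1) {a d : Eis} (ha : a ≠ 0) (hd : d = 0 ∨ V π a < V π d) :
    V π (a + d) = V π a := by
  rcases hd with rfl | hd
  · rw [add_zero]
  · rw [add_comm]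
    exact (fin L.prime ha).multiplicity_add_of_gt hd

theorem cube_left (L : LSym π s 1) {a c : Eis} (ha : a ≠ 0) (hc : c ≠ 0) : s (a ^ 3) c = 0 := by
  have h1 : a ^ 3 = a * a * a := by ring
  rw [h1, L.mul _ _ _ (mul_ne_zero ha ha) ha hc, L.mul _ _ _ ha ha hc]
  exact three_smul_zmod _

theorem neg_left (L : LSym π s 1) {a c : Eis} (ha : a ≠ 0) (hc : c ≠ 0) : s (-a) c = s a c := by
  have h1 : -a = (-1) ^ 3 * a := by ring
  have h2 : ((-1 : Eis)) ≠ 0 := neg_ne_zero.mpr one_ne_zero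
  rw [h1, L.mul _ _ _ (pow_ne_zero _ h2) ha hc, cube_left L h2 hc, zero_add]

theorem neg_right (L : LSym π s 1) {a c : Eis} (ha : a ≠ 0) (hc : c ≠ 0) : s c (-a) = s c a := by
  rw [L.skew _ _ (neg_ne_zero.mpr ha) hc, neg_left L ha hc, ← L.skew _ _ ha hc]

theorem V_w (hπ : Prime π) (i : ℕ) {y : Eis} (hy : y ≠ 0) : V π (w ^ i * y) = V π y := by
  apply V_mul_not_dvd hπ _ hy
  intro h
  exact not_dvd_w hπ (hπ.dvd_of_dvd_pow h)

theorem w_ne : (w : Eis) ≠ 0 := by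
  intro h
  have := congrArg Eis.im h
  simp at this

theorem cast_ne {n : ℤ} (h : n ≠ 0) : (n : Eis) ≠ 0 := by
  intro h'
  apply h
  have := congrArg Eis.re h'
  simpa using this

theorem not_dvd_three (π : PP) : ¬ π.1 ∣ 3 := by
  rintro ⟨c, hc⟩
  obtain ⟨h1, h2, h3⟩ := π.2
  have h4 : (9 : ℤ) = π.1.norm * c.norm := by
    rw [← norm_mul, ← hc]
    decide
  have h5 : π.1.norm % 3 = 1 := by
    obtain ⟨k, hk⟩ := h3
    rw [norm_def, hk]
    have h6 : π.1.re ^ 2 - π.1.re * (3 * k) + (3 * k) ^ 2 =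
        π.1.re * π.1.re + 3 * (3 * k ^ 2 - π.1.re * k) := by ring
    rw [h6, Int.add_mul_emod_self_left, Int.mul_emod, h2]
    norm_num
  have h6 : 0 < π.1.norm := norm_pos h1.ne_zero
  have h7 : π.1.norm ∣ 9 := ⟨_, h4⟩
  have h8 : π.1.norm ≤ 9 := Int.le_of_dvd (by norm_num) h7
  apply h1.not_isUnit
  rw [isUnit_iff_norm]
  generalize π.1.norm = t at *
  interval_cases t <;> omega

/-- `v ^ 3` dominates in `v ^ 3 - x u ^ 3`. -/
def DA (π : Eis) (x u v : ℤ) : Prop :=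
  v ≠ 0 ∧ (u = 0 ∨ 3 * V π (v : Eis) < V π (x : Eis) + 3 * V π (u : Eis))

/-- `x u ^ 3` dominates in `v ^ 3 - x u ^ 3`. -/
def DB (π : Eis) (x u v : ℤ) : Prop :=
  u ≠ 0 ∧ (v = 0 ∨ V π (x : Eis) + 3 * V π (u : Eis) < 3 * V π (v : Eis))

theorem cases_uv {x u v : ℤ} (h3 : ¬ 3 ∣ V π (x : Eis)) (huv : ¬ (u = 0 ∧ v = 0)) :
    DA π x u v ∨ DB π x u v := by
  by_cases hu : u = 0
  · left
    exact ⟨fun hv => huv ⟨hu, hv⟩, Or.inl hu⟩
  · by_cases hv : v = 0
    · right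
      exact ⟨hu, Or.inl hv⟩
    · rcases lt_trichotomy (3 * V π (v : Eis)) (V π (x : Eis) + 3 * V π (u : Eis)) with h | h | h
      · left
        exact ⟨hv, Or.inr h⟩
      · exfalso
        apply h3
        omega
      · right
        exact ⟨hu, Or.inr h⟩

theorem V_xu (hπ : Prime π) {x u : ℤ} (hx : x ≠ 0) (hu : u ≠ 0) :
    V π ((x : Eis) * (u : Eis) ^ 3) = V π (x : Eis) + 3 * V π (u : Eis) := by
  rw [V_mul hπ (cast_ne hx) (pow_ne_zero _ (cast_ne hu)), V_pow hπ (cast_ne hu)]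

/-- the symbol when `v ^ 3` dominates -/
theorem sym_DA (L : LSym π s 1) {x u v : ℤ} (hx : x ≠ 0) (h : DA π x u v) {D : Eis}
    (hD : D ≠ 0) (hM : v ^ 3 - x * u ^ 3 ≠ 0) : s D ((v ^ 3 - x * u ^ 3 : ℤ) : Eis) = 0 := by
  have h1 : ((v ^ 3 - x * u ^ 3 : ℤ) : Eis) = (v : Eis) ^ 3 + -((x : Eis) * (u : Eis) ^ 3) := by
    push_cast
    ring
  have hv := cast_ne h.1
  rw [L.skew _ _ (cast_ne hM) hD, h1, dom L (pow_ne_zero _ hv) hD, cube_left L hv hD, neg_zero]
  rcases h.2 with rfl | h2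
  · left
    push_cast
    ring
  · by_cases hu : u = 0
    · left
      rw [hu]
      push_cast
      ring
    · right
      rw [V_neg, V_xu L.prime hx hu, V_pow L.prime hv]
      exact h2

/-- the symbol when `x u ^ 3` dominates -/
theorem sym_DB (L : LSym π s 1) {x u v : ℤ} (hx : x ≠ 0) (h : DB π x u v) {D : Eis}
    (hD : D ≠ 0) (hM : v ^ 3 - x * u ^ 3 ≠ 0) :
    s D ((v ^ 3 - x * u ^ 3 : ℤ) : Eis) = s D (x : Eis) := by
  have h1 : ((v ^ 3 - x * u ^ 3 : ℤ) : Eis) = -((x : Eis) * (u : Eis) ^ 3) + (v : Eis) ^ 3 := by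
    push_cast
    ring
  have hu := cast_ne h.1
  have hx' := cast_ne hx
  have hxu : (x : Eis) * (u : Eis) ^ 3 ≠ 0 := mul_ne_zero hx' (pow_ne_zero _ hu)
  rw [L.skew _ _ (cast_ne hM) hD, h1, dom L (neg_ne_zero.mpr hxu) hD, neg_left L hxu hD,
    L.mul _ _ _ hx' (pow_ne_zero _ hu) hD, cube_left L hu hD, add_zero, ← L.skew _ _ hx' hD]
  rcases h.2 with hv | h2
  · left
    rw [hv]
    push_cast
    ring
  · by_cases hv : v = 0
    · left
      rw [hv]
      push_cast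
      ring
    · right
      rw [V_neg, V_xu L.prime hx h.1, V_pow L.prime (cast_ne hv)]
      exact h2

theorem Df_ne {X Y u v : ℤ} (hX : X ≠ 0) (hY : Y ≠ 0) (huv : ¬ (u = 0 ∧ v = 0)) :
    Df X Y u v 1 ≠ 0 ∧ Df X Y u v 2 ≠ 0 := by
  constructor
  · intro h
    have h1 := congrArg Eis.re h
    have h2 := congrArg Eis.im h
    simp [Df] at h1 h2
    apply huv
    constructor
    · rcases h1 with h1 | h1
      · exact absurd h1 hX
      · exact h1
    · rcases h2 with h2 | h2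
      · exact h2
      · exact absurd h2 hY
  · intro h
    have h1 := congrArg Eis.re h
    have h2 := congrArg Eis.im h
    simp [Df, w_sq] at h1 h2
    apply huv
    have hv : v = 0 := by
      rcases h2 with h2 | h2
      · exact h2
      · exact absurd h2 hY
    rw [hv] at h1
    simp at h1
    refine ⟨?_, hv⟩
    rcases h1 with h1 | h1
    · exact absurd h1 hX
    · exact h1

/-- one half of `SV` -/
def half (s : Eis → Eis → ZMod 3) (X Y u v M n : ℤ) : ZMod 3 :=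
  s (Df X Y u v 1) (M : Eis) - s (Df X Y u v 2) (M : Eis) - s (Df X Y u v 1) (n : Eis) +
    s (Df X Y u v 2) (n : Eis)

theorem V_mul' (hπ : Prime π) {u v : ℤ} (hu : u ≠ 0) (hv : v ≠ 0) :
    V π ((u : Eis) * (v : Eis)) = V π (u : Eis) + V π (v : Eis) :=
  V_mul hπ (cast_ne hu) (cast_ne hv)

theorem n_eq (x X Y : ℤ) : ((X ^ 3 + x * Y ^ 3 : ℤ) : Eis) =
    (X : Eis) ^ 3 + (x : Eis) * (Y : Eis) ^ 3 := by
  push_cast
  ring

theorem n_eq' (x X Y : ℤ) : ((X ^ 3 + x * Y ^ 3 : ℤ) : Eis) =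
    (x : Eis) * (Y : Eis) ^ 3 + (X : Eis) ^ 3 := by
  push_cast
  ring

/-- Case A: `X ^ 3` dominates in `n₀`. -/
theorem half_caseA (L : LSym π s 1) {x X Y u v M : ℤ} (hx : x ≠ 0) (hX : X ≠ 0) (hY : Y ≠ 0)
    (h3 : ¬ 3 ∣ V π (x : Eis)) (hM : v ^ 3 - x * u ^ 3 ≠ 0)
    (hMs : M = v ^ 3 - x * u ^ 3 ∨ M = -(v ^ 3 - x * u ^ 3))
    (hA : 3 * V π (X : Eis) < V π (x : Eis) + 3 * V π (Y : Eis))
    (hn : X ^ 3 + x * Y ^ 3 ≠ 0) : half s X Y u v M (X ^ 3 + x * Y ^ 3) = 0 := by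
  have huv : ¬ (u = 0 ∧ v = 0) := by
    rintro ⟨rfl, rfl⟩
    apply hM
    ring
  obtain ⟨hD1, hD2⟩ := Df_ne hX hY huv
  have hMM : ∀ D : Eis, D ≠ 0 → s D (M : Eis) = s D ((v ^ 3 - x * u ^ 3 : ℤ) : Eis) := by
    intro D hD
    rcases hMs with rfl | rfl
    · rfl
    · rw [Int.cast_neg]
      exact neg_right L (cast_ne hM) hD
  have hn0 : ∀ D : Eis, D ≠ 0 → s D ((X ^ 3 + x * Y ^ 3 : ℤ) : Eis) = 0 := by
    intro D hD
    have hX' := cast_ne hX
    rw [L.skew _ _ (cast_ne hn) hD, n_eq, dom L (pow_ne_zero _ hX') hD, cube_left L hX' hD,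
      neg_zero]
    right
    rw [V_pow L.prime hX', V_xu L.prime hx hY]
    exact hA
  unfold half
  rw [hn0 _ hD1, hn0 _ hD2, hMM _ hD1, hMM _ hD2]
  rcases cases_uv h3 huv with h | h
  · rw [sym_DA L hx h hD1 hM, sym_DA L hx h hD2 hM]
    ring
  · rw [sym_DB L hx h hD1 hM, sym_DB L hx h hD2 hM]
    have hu := h.1
    have hXu : (X : Eis) * (u : Eis) ≠ 0 := mul_ne_zero (cast_ne hX) (cast_ne hu)
    have hs : ∀ i : ℕ, s (Df X Y u v i) (x : Eis) = s ((X : Eis) * (u : Eis)) (x : Eis) := by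
      intro i
      unfold Df
      apply dom L hXu (cast_ne hx)
      rcases h.2 with hv | h2
      · left
        rw [hv]
        push_cast
        ring
      · by_cases hv : v = 0
        · left
          rw [hv]
          push_cast
          ring
        · right
          rw [mul_assoc, V_w L.prime i (mul_ne_zero (cast_ne hv) (cast_ne hY)),
            V_mul' L.prime hX hu, V_mul' L.prime hv hY]
          omega
    rw [hs 1, hs 2]
    ring

/-- Case B: `x Y ^ 3` dominates in `n₀`. -/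
theorem half_caseB (L : LSym π s 1) {x X Y u v M : ℤ} (hx : x ≠ 0) (hX : X ≠ 0) (hY : Y ≠ 0)
    (hM : v ^ 3 - x * u ^ 3 ≠ 0)
    (hMs : M = v ^ 3 - x * u ^ 3 ∨ M = -(v ^ 3 - x * u ^ 3))
    (hB : V π (x : Eis) + 3 * V π (Y : Eis) < 3 * V π (X : Eis))
    (hn : X ^ 3 + x * Y ^ 3 ≠ 0) :
    (DA π x u v → half s X Y u v M (X ^ 3 + x * Y ^ 3) = s w (x : Eis)) ∧
    (DB π x u v → half s X Y u v M (X ^ 3 + x * Y ^ 3) = 0) := by
  have huv : ¬ (u = 0 ∧ v = 0) := by
    rintro ⟨rfl, rfl⟩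
    apply hM
    ring
  obtain ⟨hD1, hD2⟩ := Df_ne hX hY huv
  have hx' := cast_ne hx
  have hY' := cast_ne hY
  have hMM : ∀ D : Eis, D ≠ 0 → s D (M : Eis) = s D ((v ^ 3 - x * u ^ 3 : ℤ) : Eis) := by
    intro D hD
    rcases hMs with rfl | rfl
    · rfl
    · rw [Int.cast_neg]
      exact neg_right L (cast_ne hM) hD
  have hn0 : ∀ D : Eis, D ≠ 0 → s D ((X ^ 3 + x * Y ^ 3 : ℤ) : Eis) = s D (x : Eis) := by
    intro D hD
    have hxY : (x : Eis) * (Y : Eis) ^ 3 ≠ 0 := mul_ne_zero hx' (pow_ne_zero _ hY')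
    rw [L.skew _ _ (cast_ne hn) hD, n_eq', dom L hxY hD, L.mul _ _ _ hx' (pow_ne_zero _ hY') hD,
      cube_left L hY' hD, add_zero, ← L.skew _ _ hx' hD]
    right
    rw [V_pow L.prime (cast_ne hX), V_xu L.prime hx hY]
    exact hB
  unfold half
  rw [hn0 _ hD1, hn0 _ hD2, hMM _ hD1, hMM _ hD2]
  constructor
  · intro h
    rw [sym_DA L hx h hD1 hM, sym_DA L hx h hD2 hM]
    have hv := h.1
    have hv' := cast_ne hv
    have hw : ∀ i : ℕ, (w : Eis) ^ i ≠ 0 := fun i => pow_ne_zero _ w_ne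
    have hs : ∀ i : ℕ, s (Df X Y u v i) (x : Eis) =
        s (w ^ i) (x : Eis) + s (v : Eis) (x : Eis) + s (Y : Eis) (x : Eis) := by
      intro i
      have h1 : Df X Y u v i = w ^ i * (v : Eis) * (Y : Eis) + (X : Eis) * (u : Eis) := by
        unfold Df
        ring
      rw [h1, dom L (mul_ne_zero (mul_ne_zero (hw i) hv') hY') hx',
        L.mul _ _ _ (mul_ne_zero (hw i) hv') hY' hx', L.mul _ _ _ (hw i) hv' hx']
      rcases h.2 with hu | h2
      · left
        rw [hu]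
        push_cast
        ring
      · by_cases hu : u = 0
        · left
          rw [hu]
          push_cast
          ring
        · right
          rw [mul_assoc, V_w L.prime i (mul_ne_zero hv' hY'),
            V_mul' L.prime hX hu, V_mul' L.prime hv hY]
          omega
    have hw1 : s ((w : Eis) ^ 1) (x : Eis) = s w (x : Eis) := by rw [pow_one]
    have hw2 : s ((w : Eis) ^ 2) (x : Eis) = s w (x : Eis) + s w (x : Eis) := by
      rw [pow_two, L.mul _ _ _ w_ne w_ne hx']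
    rw [hs 1, hs 2, hw1, hw2]
    ring
  · intro h
    rw [sym_DB L hx h hD1 hM, sym_DB L hx h hD2 hM]
    ring

end F6R

theorem F6R_thm (hSTM : STM) : F6R := by
  intro π b x p q p' q' X Y hb hx hSol hX hY h3
  have hSPPp : Prime π.1 := π.2.1
  have hπ3 : ¬ π.1 ∣ 3 := F6R.not_dvd_three π
  have L : LSym π.1 (tm π.1) 1 := hSTM π.1 hSPPp hπ3
  set s := tm π.1 with hs
  have hN1 := hSol.n2
  have hbN : b * (x * q' ^ 3 - q ^ 3) = p ^ 3 - x * p' ^ 3 := by
    have h1 := hSol.eq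
    linear_combination -h1
  have hN2 : x * q' ^ 3 - q ^ 3 ≠ 0 := by
    intro h
    apply hN1
    rw [← hbN, h, mul_zero]
  have hN2' : q ^ 3 - x * q' ^ 3 ≠ 0 := by
    intro h
    apply hN2
    linear_combination -h
  have hn : X ^ 3 + x * Y ^ 3 ≠ 0 := by
    intro h
    apply h3
    have h1 : (X : Eis) ^ 3 = -((x : Eis) * (Y : Eis) ^ 3) := by
      have h2 : ((X ^ 3 + x * Y ^ 3 : ℤ) : Eis) = ((0 : ℤ) : Eis) := by rw [h]
      push_cast at h2
      linear_combination h2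
    have h2 := congrArg (V π.1) h1
    rw [V_neg, V_pow L.prime (F6R.cast_ne hX), F6R.V_xu L.prime hx hY] at h2
    omega
  have hSV : SV s x p q p' q' X Y =
      F6R.half s X Y p' p (p ^ 3 - x * p' ^ 3) (X ^ 3 + x * Y ^ 3) -
        F6R.half s X Y q' q (x * q' ^ 3 - q ^ 3) (X ^ 3 + x * Y ^ 3) := rfl
  have hX' := F6R.cast_ne hX
  have hY' := F6R.cast_ne hY
  have hx' := F6R.cast_ne hx
  have hb' := F6R.cast_ne hb
  have hxY : (x : Eis) * (Y : Eis) ^ 3 ≠ 0 := mul_ne_zero hx' (pow_ne_zero _ hY')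
  rcases lt_trichotomy (3 * V π.1 (X : Eis)) (V π.1 (x : Eis) + 3 * V π.1 (Y : Eis)) with
    hA | hE | hB
  · -- case A
    have hV : V π.1 ((X ^ 3 + x * Y ^ 3 : ℤ) : Eis) = 3 * V π.1 (X : Eis) := by
      rw [F6R.n_eq, F6R.V_dom L (pow_ne_zero _ hX'), V_pow L.prime hX']
      right
      rw [V_pow L.prime hX', F6R.V_xu L.prime hx hY]
      exact hA
    refine ⟨fun _ => ?_, fun h => absurd (by rw [hV]; exact dvd_mul_right 3 _) h⟩
    rw [hSV, F6R.half_caseA L hx hX hY h3 hN1 (Or.inl rfl) hA hn,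
      F6R.half_caseA L hx hX hY h3 hN2' (Or.inr (by ring)) hA hn, sub_zero]
  · exfalso
    apply h3
    omega
  · -- case B
    have hV : V π.1 ((X ^ 3 + x * Y ^ 3 : ℤ) : Eis) =
        V π.1 (x : Eis) + 3 * V π.1 (Y : Eis) := by
      rw [F6R.n_eq', F6R.V_dom L hxY, F6R.V_xu L.prime hx hY]
      right
      rw [V_pow L.prime hX', F6R.V_xu L.prime hx hY]
      exact hB
    refine ⟨fun h => absurd ?_ h3, fun _ => ?_⟩
    · rw [hV] at h
      exact (Nat.dvd_add_left (dvd_mul_right 3 _)).mp h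
    · have huv1 : ¬ (p' = 0 ∧ p = 0) := by
        rintro ⟨rfl, rfl⟩
        apply hN1
        ring
      have huv2 : ¬ (q' = 0 ∧ q = 0) := by
        rintro ⟨rfl, rfl⟩
        apply hN2
        ring
      obtain ⟨a1, a2⟩ := F6R.half_caseB L hx hX hY hN1 (Or.inl rfl) hB hn
      obtain ⟨b1, b2⟩ := F6R.half_caseB L hx hX hY hN2'
        (M := x * q' ^ 3 - q ^ 3) (Or.inr (by ring)) hB hn
      have hwb : s w (b : Eis) = s w ((p ^ 3 - x * p' ^ 3 : ℤ) : Eis) -
          s w ((q ^ 3 - x * q' ^ 3 : ℤ) : Eis) := by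
        have h1 : ((p ^ 3 - x * p' ^ 3 : ℤ) : Eis) =
            -((b : Eis) * ((q ^ 3 - x * q' ^ 3 : ℤ) : Eis)) := by
          rw [← hbN]
          push_cast
          ring
        have hN' := F6R.cast_ne hN2'
        rw [h1, F6R.neg_right L (mul_ne_zero hb' hN') F6R.w_ne,
          L.skew _ _ (mul_ne_zero hb' hN') F6R.w_ne, L.mul _ _ _ hb' hN' F6R.w_ne,
          L.skew w _ F6R.w_ne hb', L.skew w _ F6R.w_ne hN']
        ring
      rw [hSV, hwb]
      rcases F6R.cases_uv h3 huv1 with h | h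
      · rcases F6R.cases_uv h3 huv2 with h' | h'
        · rw [a1 h, b1 h', F6R.sym_DA L hx h F6R.w_ne hN1, F6R.sym_DA L hx h' F6R.w_ne hN2']
          ring
        · rw [a1 h, b2 h', F6R.sym_DA L hx h F6R.w_ne hN1, F6R.sym_DB L hx h' F6R.w_ne hN2']
          ring
      · rcases F6R.cases_uv h3 huv2 with h' | h'
        · rw [a2 h, b1 h', F6R.sym_DB L hx h F6R.w_ne hN1, F6R.sym_DA L hx h' F6R.w_ne hN2']
          ring
        · rw [a2 h, b2 h', F6R.sym_DB L hx h F6R.w_ne hN1, F6R.sym_DB L hx h' F6R.w_ne hN2']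
          ring

end Pool.Agent.PT

end

section

/-!
# PTK_F6R: the local term of a point at a tame place where `x` has valuation prime to `3`
-/

set_option autoImplicit false

namespace Pool.Agent.PTK

open Pool.Agent.Lib_helper18 Pool.Agent.Lib_helper18.Eis Pool.Agent.Lib_helper84.Cub
open Pool.Agent.PT

namespace F6R

open Pool.Agent.PT.F6R

variable {π : Eis} {s : Eis → Eis → ZMod 3}

/-- `v ^ 3` dominates in `v ^ 3 - x u ^ 3`. -/
def DAE (π : Eis) (x u v : Eis) : Prop :=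
  v ≠ 0 ∧ (u = 0 ∨ 3 * V π v < V π x + 3 * V π u)

/-- `x u ^ 3` dominates in `v ^ 3 - x u ^ 3`. -/
def DBE (π : Eis) (x u v : Eis) : Prop :=
  u ≠ 0 ∧ (v = 0 ∨ V π x + 3 * V π u < 3 * V π v)

theorem cases_uvE {x u v : Eis} (h3 : ¬ 3 ∣ V π x) (huv : ¬ (u = 0 ∧ v = 0)) :
    DAE π x u v ∨ DBE π x u v := by
  by_cases hu : u = 0
  · left
    exact ⟨fun hv => huv ⟨hu, hv⟩, Or.inl hu⟩
  · by_cases hv : v = 0
    · right
      exact ⟨hu, Or.inl hv⟩
    · rcases lt_trichotomy (3 * V π v) (V π x + 3 * V π u) with h | h | h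
      · left
        exact ⟨hv, Or.inr h⟩
      · exfalso
        apply h3
        omega
      · right
        exact ⟨hu, Or.inr h⟩

theorem V_xuE (hπ : Prime π) {x u : Eis} (hx : x ≠ 0) (hu : u ≠ 0) :
    V π (x * u ^ 3) = V π x + 3 * V π u := by
  rw [V_mul hπ hx (pow_ne_zero _ hu), V_pow hπ hu]

/-- the symbol when `v ^ 3` dominates -/
theorem sym_DAE (L : LSym π s 1) {x u v : Eis} (hx : x ≠ 0) (h : DAE π x u v) {D : Eis}
    (hD : D ≠ 0) (hM : v ^ 3 - x * u ^ 3 ≠ 0) : s D (v ^ 3 - x * u ^ 3) = 0 := by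
  have h1 : v ^ 3 - x * u ^ 3 = v ^ 3 + -(x * u ^ 3) := by ring
  have hv := h.1
  rw [L.skew _ _ hM hD, h1, dom L (pow_ne_zero _ hv) hD, cube_left L hv hD, neg_zero]
  rcases h.2 with rfl | h2
  · left
    ring
  · by_cases hu : u = 0
    · left
      rw [hu]
      ring
    · right
      rw [V_neg, V_xuE L.prime hx hu, V_pow L.prime hv]
      exact h2

/-- the symbol when `x u ^ 3` dominates -/
theorem sym_DBE (L : LSym π s 1) {x u v : Eis} (hx : x ≠ 0) (h : DBE π x u v) {D : Eis}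
    (hD : D ≠ 0) (hM : v ^ 3 - x * u ^ 3 ≠ 0) :
    s D (v ^ 3 - x * u ^ 3) = s D x := by
  have h1 : v ^ 3 - x * u ^ 3 = -(x * u ^ 3) + v ^ 3 := by ring
  have hu := h.1
  have hxu : x * u ^ 3 ≠ 0 := mul_ne_zero hx (pow_ne_zero _ hu)
  rw [L.skew _ _ hM hD, h1, dom L (neg_ne_zero.mpr hxu) hD, neg_left L hxu hD,
    L.mul _ _ _ hx (pow_ne_zero _ hu) hD, cube_left L hu hD, add_zero, ← L.skew _ _ hx hD]
  rcases h.2 with hv | h2
  · left
    rw [hv]
    ring
  · by_cases hv : v = 0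
    · left
      rw [hv]
      ring
    · right
      rw [V_neg, V_xuE L.prime hx h.1, V_pow L.prime hv]
      exact h2

/-- one half of `SVE` -/
def halfE (s : Eis → Eis → ZMod 3) (X Y u v M n : Eis) : ZMod 3 :=
  s (DfE X Y u v 1) M - s (DfE X Y u v 2) M - s (DfE X Y u v 1) n + s (DfE X Y u v 2) n

/-- Case A: `X ^ 3` dominates in `n₀`. -/
theorem half_caseAE (L : LSym π s 1) {x X Y u v M : Eis} (hx : x ≠ 0) (hX : X ≠ 0) (hY : Y ≠ 0)
    (h3 : ¬ 3 ∣ V π x) (hM : v ^ 3 - x * u ^ 3 ≠ 0) (hD1 : DfE X Y u v 1 ≠ 0)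
    (hD2 : DfE X Y u v 2 ≠ 0)
    (hMs : M = v ^ 3 - x * u ^ 3 ∨ M = -(v ^ 3 - x * u ^ 3))
    (hA : 3 * V π X < V π x + 3 * V π Y)
    (hn : X ^ 3 + x * Y ^ 3 ≠ 0) : halfE s X Y u v M (X ^ 3 + x * Y ^ 3) = 0 := by
  have huv : ¬ (u = 0 ∧ v = 0) := by
    rintro ⟨rfl, rfl⟩
    apply hM
    ring
  have hMM : ∀ D : Eis, D ≠ 0 → s D M = s D (v ^ 3 - x * u ^ 3) := by
    intro D hD
    rcases hMs with rfl | rfl
    · rfl
    · exact neg_right L hM hD
  have hn0 : ∀ D : Eis, D ≠ 0 → s D (X ^ 3 + x * Y ^ 3) = 0 := by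
    intro D hD
    rw [L.skew _ _ hn hD, dom L (pow_ne_zero _ hX) hD, cube_left L hX hD, neg_zero]
    right
    rw [V_pow L.prime hX, V_xuE L.prime hx hY]
    exact hA
  unfold halfE
  rw [hn0 _ hD1, hn0 _ hD2, hMM _ hD1, hMM _ hD2]
  rcases cases_uvE h3 huv with h | h
  · rw [sym_DAE L hx h hD1 hM, sym_DAE L hx h hD2 hM]
    ring
  · rw [sym_DBE L hx h hD1 hM, sym_DBE L hx h hD2 hM]
    have hu := h.1
    have hXu : X * u ≠ 0 := mul_ne_zero hX hu
    have hs : ∀ i : ℕ, s (DfE X Y u v i) x = s (X * u) x := by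
      intro i
      unfold DfE
      apply dom L hXu hx
      rcases h.2 with hv | h2
      · left
        rw [hv]
        ring
      · by_cases hv : v = 0
        · left
          rw [hv]
          ring
        · right
          rw [mul_assoc, V_w L.prime i (mul_ne_zero hv hY),
            V_mul L.prime hX hu, V_mul L.prime hv hY]
          omega
    rw [hs 1, hs 2]
    ring

/-- Case B: `x Y ^ 3` dominates in `n₀`. -/
theorem half_caseBE (L : LSym π s 1) {x X Y u v M : Eis} (hx : x ≠ 0) (hX : X ≠ 0) (hY : Y ≠ 0)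
    (hM : v ^ 3 - x * u ^ 3 ≠ 0) (hD1 : DfE X Y u v 1 ≠ 0) (hD2 : DfE X Y u v 2 ≠ 0)
    (hMs : M = v ^ 3 - x * u ^ 3 ∨ M = -(v ^ 3 - x * u ^ 3))
    (hB : V π x + 3 * V π Y < 3 * V π X)
    (hn : X ^ 3 + x * Y ^ 3 ≠ 0) :
    (DAE π x u v → halfE s X Y u v M (X ^ 3 + x * Y ^ 3) = s w x) ∧
    (DBE π x u v → halfE s X Y u v M (X ^ 3 + x * Y ^ 3) = 0) := by
  have hMM : ∀ D : Eis, D ≠ 0 → s D M = s D (v ^ 3 - x * u ^ 3) := by
    intro D hD
    rcases hMs with rfl | rfl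
    · rfl
    · exact neg_right L hM hD
  have hn0 : ∀ D : Eis, D ≠ 0 → s D (X ^ 3 + x * Y ^ 3) = s D x := by
    intro D hD
    have hxY : x * Y ^ 3 ≠ 0 := mul_ne_zero hx (pow_ne_zero _ hY)
    have e : X ^ 3 + x * Y ^ 3 = x * Y ^ 3 + X ^ 3 := by ring
    rw [L.skew _ _ hn hD, e, dom L hxY hD, L.mul _ _ _ hx (pow_ne_zero _ hY) hD,
      cube_left L hY hD, add_zero, ← L.skew _ _ hx hD]
    right
    rw [V_pow L.prime hX, V_xuE L.prime hx hY]
    exact hB
  unfold halfE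
  rw [hn0 _ hD1, hn0 _ hD2, hMM _ hD1, hMM _ hD2]
  constructor
  · intro h
    rw [sym_DAE L hx h hD1 hM, sym_DAE L hx h hD2 hM]
    have hv := h.1
    have hw : ∀ i : ℕ, (w : Eis) ^ i ≠ 0 := fun i => pow_ne_zero _ w_ne
    have hs : ∀ i : ℕ, s (DfE X Y u v i) x = s (w ^ i) x + s v x + s Y x := by
      intro i
      have h1 : DfE X Y u v i = w ^ i * v * Y + X * u := by
        unfold DfE
        ring
      rw [h1, dom L (mul_ne_zero (mul_ne_zero (hw i) hv) hY) hx,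
        L.mul _ _ _ (mul_ne_zero (hw i) hv) hY hx, L.mul _ _ _ (hw i) hv hx]
      rcases h.2 with hu | h2
      · left
        rw [hu]
        ring
      · by_cases hu : u = 0
        · left
          rw [hu]
          ring
        · right
          rw [mul_assoc, V_w L.prime i (mul_ne_zero hv hY),
            V_mul L.prime hX hu, V_mul L.prime hv hY]
          omega
    have hw1 : s ((w : Eis) ^ 1) x = s w x := by rw [pow_one]
    have hw2 : s ((w : Eis) ^ 2) x = s w x + s w x := by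
      rw [pow_two, L.mul _ _ _ w_ne w_ne hx]
    rw [hs 1, hs 2, hw1, hw2]
    ring
  · intro h
    rw [sym_DBE L hx h hD1 hM, sym_DBE L hx h hD2 hM]
    ring

end F6R

open Pool.Agent.PT.F6R _root_.Pool.Agent.PTK.F6R in
theorem F6R_thm (hSTM : STM) : Stmt_F6R := by
  intro π b x p q p' q' X Y hb hx hSol hX hY hD h3
  have hSPPp : Prime π.1 := π.2.1
  have hπ3 : ¬ π.1 ∣ 3 := not_dvd_three π
  have L : LSym π.1 (tm π.1) 1 := hSTM π.1 hSPPp hπ3
  set s := tm π.1 with hs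
  have hN1 := hSol.n2
  have hbN : b * (x * q' ^ 3 - q ^ 3) = p ^ 3 - x * p' ^ 3 := by
    have h1 := hSol.eq
    linear_combination -h1
  have hN2 : x * q' ^ 3 - q ^ 3 ≠ 0 := by
    intro h
    apply hN1
    rw [← hbN, h, mul_zero]
  have hN2' : q ^ 3 - x * q' ^ 3 ≠ 0 := by
    intro h
    apply hN2
    linear_combination -h
  have hn : X ^ 3 + x * Y ^ 3 ≠ 0 := by
    intro h
    apply h3
    have h1 : X ^ 3 = -(x * Y ^ 3) := by
      linear_combination h
    have h2 := congrArg (V π.1) h1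
    rw [V_neg, V_pow L.prime hX, V_xuE L.prime hx hY] at h2
    omega
  have hSV : SVE s x p q p' q' X Y =
      halfE s X Y p' p (p ^ 3 - x * p' ^ 3) (X ^ 3 + x * Y ^ 3) -
        halfE s X Y q' q (x * q' ^ 3 - q ^ 3) (X ^ 3 + x * Y ^ 3) := rfl
  have hxY : x * Y ^ 3 ≠ 0 := mul_ne_zero hx (pow_ne_zero _ hY)
  rcases lt_trichotomy (3 * V π.1 X) (V π.1 x + 3 * V π.1 Y) with hA | hE | hB
  · -- case A
    have hV : V π.1 (X ^ 3 + x * Y ^ 3) = 3 * V π.1 X := by
      rw [V_dom L (pow_ne_zero _ hX), V_pow L.prime hX]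
      right
      rw [V_pow L.prime hX, V_xuE L.prime hx hY]
      exact hA
    refine ⟨fun _ => ?_, fun h => absurd (by rw [hV]; exact dvd_mul_right 3 _) h⟩
    rw [hSV, half_caseAE L hx hX hY h3 hN1 hD.d1 hD.d2 (Or.inl rfl) hA hn,
      half_caseAE L hx hX hY h3 hN2' hD.d3 hD.d4 (Or.inr (by ring)) hA hn, sub_zero]
  · exfalso
    apply h3
    omega
  · -- case B
    have hV : V π.1 (X ^ 3 + x * Y ^ 3) = V π.1 x + 3 * V π.1 Y := by
      have e : X ^ 3 + x * Y ^ 3 = x * Y ^ 3 + X ^ 3 := by ring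
      rw [e, V_dom L hxY, V_xuE L.prime hx hY]
      right
      rw [V_pow L.prime hX, V_xuE L.prime hx hY]
      exact hB
    refine ⟨fun h => absurd ?_ h3, fun _ => ?_⟩
    · rw [hV] at h
      exact (Nat.dvd_add_left (dvd_mul_right 3 _)).mp h
    · have huv1 : ¬ (p' = 0 ∧ p = 0) := by
        rintro ⟨rfl, rfl⟩
        apply hN1
        ring
      have huv2 : ¬ (q' = 0 ∧ q = 0) := by
        rintro ⟨rfl, rfl⟩
        apply hN2
        ring
      obtain ⟨a1, a2⟩ := half_caseBE L hx hX hY hN1 hD.d1 hD.d2 (Or.inl rfl) hB hn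
      obtain ⟨b1, b2⟩ := half_caseBE L hx hX hY hN2' hD.d3 hD.d4
        (M := x * q' ^ 3 - q ^ 3) (Or.inr (by ring)) hB hn
      have hwb : s w b = s w (p ^ 3 - x * p' ^ 3) - s w (q ^ 3 - x * q' ^ 3) := by
        have h1 : p ^ 3 - x * p' ^ 3 = -(b * (q ^ 3 - x * q' ^ 3)) := by
          rw [← hbN]
          ring
        rw [h1, neg_right L (mul_ne_zero hb hN2') w_ne,
          L.skew _ _ (mul_ne_zero hb hN2') w_ne, L.mul _ _ _ hb hN2' w_ne,
          L.skew w _ w_ne hb, L.skew w _ w_ne hN2']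
        ring
      rw [hSV, hwb]
      rcases cases_uvE h3 huv1 with h | h
      · rcases cases_uvE h3 huv2 with h' | h'
        · rw [a1 h, b1 h', sym_DAE L hx h w_ne hN1, sym_DAE L hx h' w_ne hN2']
          ring
        · rw [a1 h, b2 h', sym_DAE L hx h w_ne hN1, sym_DBE L hx h' w_ne hN2']
          ring
      · rcases cases_uvE h3 huv2 with h' | h'
        · rw [a2 h, b1 h', sym_DBE L hx h w_ne hN1, sym_DAE L hx h' w_ne hN2']
          ring
        · rw [a2 h, b2 h', sym_DBE L hx h w_ne hN1, sym_DBE L hx h' w_ne hN2']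
          ring

end Pool.Agent.PTK

end
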