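import Mathlib
import Pool.Agent.PTWX.C16

/-! Parts: PT.EVEC, PT.EBAS, PT3.EBAT, PTE.EHPL, PT3.EHPT -/

namespace Pool.Agent.PT.EVEC
end Pool.Agent.PT.EVEC

namespace Pool.Agent.PT.EBAS
end Pool.Agent.PT.EBAS

namespace Pool.Agent.PT3.EBAT
end Pool.Agent.PT3.EBAT

namespace Pool.Agent.PTE.EHPL
end Pool.Agent.PTE.EHPL

namespace Pool.Agent.PT3.EHPT
end Pool.Agent.PT3.EHPT

section

/-!
# EVEC: the admissible classes in terms of exponent vectors
-/

set_option autoImplicit false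

namespace Pool.Agent.PT

open Pool.Agent.Lib_helper18 Pool.Agent.Lib_helper18.Eis Pool.Agent.Lib_helper84.Cub

namespace EVEC

/-! ### additive functions -/

/-- the value of an additive function at a product of powers -/
theorem fun_prod {M ι : Type} [AddCommMonoid M] [DecidableEq ι] (G : ℤ → Prop) (F : ℤ → M)
    (hG1 : G 1) (hGm : ∀ a b, G a → G b → G (a * b)) (hF1 : F 1 = 0)
    (hF : ∀ a b, G a → G b → F (a * b) = F a + F b) (s : Finset ι) (a : ι → ℤ) (k : ι → ℕ)
    (ha : ∀ i ∈ s, G (a i)) :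
    G (∏ i ∈ s, a i ^ k i) ∧ F (∏ i ∈ s, a i ^ k i) = ∑ i ∈ s, k i • F (a i) := by
  have hpow : ∀ b, G b → ∀ j : ℕ, G (b ^ j) ∧ F (b ^ j) = j • F b := by
    intro b hb j
    induction j with
    | zero => rw [pow_zero, zero_nsmul]; exact ⟨hG1, hF1⟩
    | succ j ih =>
      rw [pow_succ, succ_nsmul]
      exact ⟨hGm _ _ ih.1 hb, by rw [hF _ _ ih.1 hb, ih.2]⟩
  induction s using Finset.induction_on with
  | empty => rw [Finset.prod_empty, Finset.sum_empty]; exact ⟨hG1, hF1⟩
  | insert i s hi ih =>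
    rw [Finset.prod_insert hi, Finset.sum_insert hi]
    obtain ⟨h1, h2⟩ := hpow (a i) (ha i (Finset.mem_insert_self i s)) (k i)
    obtain ⟨h3, h4⟩ := ih fun j hj => ha j (Finset.mem_insert_of_mem hj)
    exact ⟨hGm _ _ h1 h3, by rw [hF _ _ h1 h3, h2, h4]⟩

section NF

variable {n m k : ℕ} {π : Fin m → PP} {p e : Fin m → ℕ} {r f : Fin k → ℕ}

/-- the primes dividing `n` -/
theorem prime_dvd (h : NF n π p e r f) {l : ℕ} (hl : l.Prime) (hn : l ∣ n) :
    (∃ i, l = p i) ∨ ∃ j, l = r j := by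
  rw [h.eq, hl.dvd_mul] at hn
  rcases hn with hn | hn
  · left
    obtain ⟨i, -, hi⟩ := (hl.prime.dvd_finsetProd_iff _).1 hn
    exact ⟨i, (Nat.prime_dvd_prime_iff_eq hl (h.pp i)).1 (hl.dvd_of_dvd_pow hi)⟩
  · right
    obtain ⟨j, -, hj⟩ := (hl.prime.dvd_finsetProd_iff _).1 hn
    exact ⟨j, (Nat.prime_dvd_prime_iff_eq hl (h.rp j)).1 (hl.dvd_of_dvd_pow hj)⟩

/-- the factorisation of a number supported on `n` -/
theorem natAbs_eq (h : NF n π p e r f) {x : ℤ} (hx : x ≠ 0)
    (hs : ∀ l : ℕ, l.Prime → (l : ℤ) ∣ x → l ∣ n) :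
    x.natAbs = (∏ i, p i ^ padicValInt (p i) x) * ∏ j, r j ^ padicValInt (r j) x := by
  classical
  have hx' : x.natAbs ≠ 0 := Int.natAbs_ne_zero.2 hx
  have h1 := Nat.prod_factorization_pow_eq_self hx'
  have hsub : x.natAbs.factorization.support ⊆
      Finset.univ.image p ∪ Finset.univ.image r := by
    intro l hl
    rw [Nat.support_factorization, Nat.mem_primeFactors] at hl
    have h2 := hs l hl.1 (Int.natCast_dvd.2 hl.2.1)
    rw [Finset.mem_union, Finset.mem_image, Finset.mem_image]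
    rcases prime_dvd h hl.1 h2 with ⟨i, hi⟩ | ⟨j, hj⟩
    · exact Or.inl ⟨i, Finset.mem_univ _, hi.symm⟩
    · exact Or.inr ⟨j, Finset.mem_univ _, hj.symm⟩
  have hdis : Disjoint (Finset.univ.image p) (Finset.univ.image r) := by
    rw [Finset.disjoint_left]
    intro l hl hl'
    obtain ⟨i, -, rfl⟩ := Finset.mem_image.1 hl
    obtain ⟨j, -, hj⟩ := Finset.mem_image.1 hl'
    have e1 := h.p1 i
    have e2 := h.r2 j
    omega
  rw [Finsupp.prod_of_support_subset _ hsub _ (fun i _ => pow_zero i),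
    Finset.prod_union hdis, Finset.prod_image (fun a _ b _ hab => h.pinj hab),
    Finset.prod_image (fun a _ b _ hab => h.rinj hab)] at h1
  have hval : ∀ l : ℕ, l.Prime → x.natAbs.factorization l = padicValInt l x := by
    intro l hl
    rw [Nat.factorization_def _ hl]
    rfl
  rw [← h1]
  congr 1
  · exact Finset.prod_congr rfl fun i _ => by rw [hval _ (h.pp i)]
  · exact Finset.prod_congr rfl fun j _ => by rw [hval _ (h.rp j)]

theorem eq_prod (h : NF n π p e r f) {x : ℤ} (hx : x ≠ 0)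
    (hs : ∀ l : ℕ, l.Prime → (l : ℤ) ∣ x → l ∣ n) :
    x = x.sign * ((∏ i, (p i : ℤ) ^ padicValInt (p i) x) *
      ∏ j, (r j : ℤ) ^ padicValInt (r j) x) := by
  conv_lhs => rw [← Int.sign_mul_natAbs x, natAbs_eq h hx hs]
  push_cast
  rfl

theorem sign_cases {x : ℤ} (hx : x ≠ 0) : x.sign = 1 ∨ x.sign = -1 := by
  rcases lt_or_gt_of_ne hx with h | h
  · exact Or.inr (Int.sign_eq_neg_one_of_neg h)
  · exact Or.inl (Int.sign_eq_one_of_pos h)

/-- the value of an additive function with values in `ZMod 3` -/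
theorem fun_eq (h : NF n π p e r f) (F : ℤ → ZMod 3)
    (hF : ∀ a b : ℤ, a ≠ 0 → b ≠ 0 → ¬ (3 : ℤ) ∣ a → ¬ (3 : ℤ) ∣ b → F (a * b) = F a + F b)
    (hneg : F (-1) = 0) {x : ℤ} (hx : x ≠ 0)
    (hs : ∀ l : ℕ, l.Prime → (l : ℤ) ∣ x → l ∣ n) :
    F x = ∑ i, (padicValInt (p i) x : ZMod 3) * F (p i) +
      ∑ j, (padicValInt (r j) x : ZMod 3) * F (r j) := by
  classical
  let G : ℤ → Prop := fun a => a ≠ 0 ∧ ¬ (3 : ℤ) ∣ a
  have hG1 : G 1 := ⟨one_ne_zero, by norm_num⟩
  have hGm : ∀ a b, G a → G b → G (a * b) := fun a b ha hb =>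
    ⟨mul_ne_zero ha.1 hb.1, fun hd => ((Int.prime_three.dvd_or_dvd hd).elim ha.2 hb.2)⟩
  have hF' : ∀ a b, G a → G b → F (a * b) = F a + F b := fun a b ha hb =>
    hF a b ha.1 hb.1 ha.2 hb.2
  have hF1 : F 1 = 0 := by
    have e1 := hF' 1 1 hG1 hG1
    rw [one_mul] at e1
    exact (left_eq_add.1 e1)
  have hp : ∀ i, G (p i) := fun i => ⟨by exact_mod_cast (h.pp i).ne_zero, by
    have := h.p1 i
    omega⟩
  have hr : ∀ j, G (r j) := fun j => ⟨by exact_mod_cast (h.rp j).ne_zero, by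
    have := h.r2 j
    omega⟩
  obtain ⟨a1, a2⟩ := fun_prod G F hG1 hGm hF1 hF' Finset.univ (fun i => (p i : ℤ))
    (fun i => padicValInt (p i) x) (fun i _ => hp i)
  obtain ⟨b1, b2⟩ := fun_prod G F hG1 hGm hF1 hF' Finset.univ (fun j => (r j : ℤ))
    (fun j => padicValInt (r j) x) (fun j _ => hr j)
  have e1 : F x = F ((∏ i, (p i : ℤ) ^ padicValInt (p i) x) *
      ∏ j, (r j : ℤ) ^ padicValInt (r j) x) := by
    conv_lhs => rw [eq_prod h hx hs]
    rcases sign_cases hx with hs | hs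
    · rw [hs, one_mul]
    · rw [hs, hF' (-1) _ ⟨by norm_num, by norm_num⟩ (hGm _ _ a1 b1), hneg, zero_add]
  rw [e1, hF' _ _ a1 b1, a2, b2]
  simp only [nsmul_eq_mul]

/-- a number supported on `n` with all exponents divisible by three is a cube -/
theorem exists_cube (h : NF n π p e r f) {x : ℤ} (hx : x ≠ 0)
    (hs : ∀ l : ℕ, l.Prime → (l : ℤ) ∣ x → l ∣ n) (h1 : ∀ i, 3 ∣ padicValInt (p i) x)
    (h2 : ∀ j, 3 ∣ padicValInt (r j) x) : ∃ t : ℤ, t ≠ 0 ∧ x = t ^ 3 := by
  have e1 := eq_prod h hx hs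
  choose a ha using h1
  choose b hb using h2
  have e2 : (∏ i, (p i : ℤ) ^ padicValInt (p i) x) * ∏ j, (r j : ℤ) ^ padicValInt (r j) x =
      ((∏ i, (p i : ℤ) ^ a i) * ∏ j, (r j : ℤ) ^ b j) ^ 3 := by
    rw [mul_pow, ← Finset.prod_pow, ← Finset.prod_pow]
    congr 1
    · exact Finset.prod_congr rfl fun i _ => by rw [ha, ← pow_mul, mul_comm]
    · exact Finset.prod_congr rfl fun j _ => by rw [hb, ← pow_mul, mul_comm]
  have e3 : x = (x.sign * ((∏ i, (p i : ℤ) ^ a i) * ∏ j, (r j : ℤ) ^ b j)) ^ 3 := by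
    rw [mul_pow, ← e2]
    have e4 : x.sign ^ 3 = x.sign := by
      rcases sign_cases hx with h | h
      · rw [h]; norm_num
      · rw [h]; norm_num
    rw [e4]
    exact e1
  refine ⟨_, ?_, e3⟩
  intro h0
  rw [h0] at e3
  exact hx (by rw [e3]; norm_num)

end NF

/-! ### valuations and symbols at a split prime -/

section Split

variable {π : Eis} {p : ℕ}

/-- a split prime -/
structure Sp (π : Eis) (p : ℕ) : Prop where
  hp : p.Prime
  hp1 : p % 3 = 1
  pr : Prime π
  h3 : ¬ π ∣ 3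
  norm : π.norm = p
  eq : (p : Eis) = π * conj π
  na : ¬ Associated π (conj π)

theorem Sp.dvd_int (h : Sp π p) {a : ℤ} (ha : π ∣ (a : Eis)) : (p : ℤ) ∣ a := by
  obtain ⟨c, hc⟩ := ha
  have h1 : a ^ 2 = p * c.norm := by
    have h2 := congrArg Eis.norm hc
    rwa [norm_intCast, norm_mul, h.norm] at h2
  have h2 : (p : ℤ) ∣ a ^ 2 := ⟨_, h1⟩
  exact (Nat.prime_iff_prime_int.1 h.hp).dvd_of_dvd_pow h2

theorem Sp.not_dvd_conj (h : Sp π p) : ¬ π ∣ conj π := fun hd =>
  h.na (h.pr.associated_of_dvd (prime_conj h.pr) hd)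

theorem Sp.V_self (h : Sp π p) : V π (p : Eis) = 1 := by
  rw [h.eq, V_mul h.pr h.pr.ne_zero (prime_conj h.pr).ne_zero, Pool.Agent.Lib_helper84.Cub.V_self,
    V_eq_zero h.not_dvd_conj]

theorem Sp.V_int (h : Sp π p) {x : ℤ} (hx : x ≠ 0) : V π (x : Eis) = padicValInt p x := by
  have : Fact p.Prime := ⟨h.hp⟩
  obtain ⟨c, hc⟩ : (p : ℤ) ^ padicValInt p x ∣ x := padicValInt_dvd x
  have hc0 : c ≠ 0 := by
    rintro rfl
    rw [mul_zero] at hc
    exact hx hc
  have hpc : ¬ (p : ℤ) ∣ c := by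
    rintro ⟨d, rfl⟩
    have h1 : (p : ℤ) ^ (padicValInt p x + 1) ∣ x := ⟨d, by
      rw [pow_succ]
      conv_lhs => rw [hc]
      ring⟩
    rw [padicValInt_dvd_iff] at h1
    rcases h1 with h1 | h1
    · exact hx h1
    · omega
  have h1 : (x : Eis) = (p : Eis) ^ padicValInt p x * (c : Eis) := by
    conv_lhs => rw [hc]
    push_cast
    rfl
  have hp0 : (p : Eis) ≠ 0 := by
    rw [h.eq]
    exact mul_ne_zero h.pr.ne_zero (prime_conj h.pr).ne_zero
  have hcE : (c : Eis) ≠ 0 := by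
    intro h0
    apply hc0
    have := congrArg Eis.re h0
    simpa using this
  rw [h1, V_mul h.pr (pow_ne_zero _ hp0) hcE, V_pow h.pr hp0, h.V_self,
    V_eq_zero (fun hd => hpc (h.dvd_int hd)), mul_one, add_zero]

end Split

/-! ### the symbols of the unit parts -/

section Ch

variable {π : Eis}

theorem up_eq (hπ : Prime π) {a c : Eis} {v : ℕ} (h : a = π ^ v * c) (hc : ¬ π ∣ c) :
    up π a = c := by
  have hv : V π a = v := by rw [h, V_pow_mul hπ v hc]
  rw [up, hv, h, mul_div_cancel_left₀ _ (pow_ne_zero _ hπ.ne_zero)]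

theorem ch_mul (hπ : Prime π) (h3 : ¬ π ∣ 3) {a b : Eis} (ha : a ≠ 0) (hb : b ≠ 0) :
    ch π (a * b) = ch π a + ch π b := by
  obtain ⟨c, hc, hc'⟩ := V_split hπ ha
  obtain ⟨d, hd, hd'⟩ := V_split hπ hb
  have h1 : a * b = π ^ (V π a + V π b) * (c * d) := by
    conv_lhs => rw [hc, hd]
    ring
  have h2 : ¬ π ∣ c * d := fun h => (hπ.dvd_or_dvd h).elim hc' hd'
  rw [ch, ch, ch, up_eq hπ h1 h2, up_eq hπ hc hc', up_eq hπ hd hd', sym_mul hπ h3 hc' hd']

theorem ch_not_dvd (hπ : Prime π) {a : Eis} (ha : ¬ π ∣ a) : ch π a = sym π a := by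
  rw [ch, up_eq hπ (v := 0) (by rw [pow_zero, one_mul]) ha]

theorem ch_neg_one (hπ : Prime π) (h3 : ¬ π ∣ 3) : ch π (-1) = 0 := by
  rw [ch_not_dvd hπ (not_dvd_of_isUnit hπ (by simp)), sym_neg_one hπ h3]

theorem ch_self_mul (hπ : Prime π) {a : Eis} (ha : ¬ π ∣ a) : ch π (π * a) = sym π a := by
  rw [ch, up_eq hπ (v := 1) (by rw [pow_one]) ha]

end Ch

/-! ### the condition modulo nine -/

theorem wt_eq_zero_iff {a : ℤ} (ha : a % 3 = 1) : wt a = 0 ↔ a % 9 = 1 := by
  rw [wt, ZMod.intCast_zmod_eq_zero_iff_dvd]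
  omega

theorem C9_iff {x : ℤ} (hx : ¬ (3 : ℤ) ∣ x) : C9 x ↔ wt (x ^ 2) = 0 := by
  rw [wt_eq_zero_iff (sq_mod_three hx), C9]
  have h1 : x ^ 2 % 9 = (x % 9) ^ 2 % 9 := by rw [pow_two, pow_two, Int.mul_emod]
  rw [h1]
  have h2 : x % 9 = 0 ∨ x % 9 = 1 ∨ x % 9 = 2 ∨ x % 9 = 3 ∨ x % 9 = 4 ∨ x % 9 = 5 ∨
      x % 9 = 6 ∨ x % 9 = 7 ∨ x % 9 = 8 := by omega
  rcases h2 with h | h | h | h | h | h | h | h | h
  · omega
  · rw [h]; norm_num
  · rw [h]; norm_num
  · omega
  · rw [h]; norm_num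
  · rw [h]; norm_num
  · omega
  · rw [h]; norm_num
  · rw [h]; norm_num

end EVEC

open _root_.Pool.Agent.PT.EVEC in
theorem EVEC_thm (_hSTM : STM) (hSPP : SPP) : EVEC := by
  classical
  intro n m k π p e r f w0 c h
  -- the primes are split
  have hSp : ∀ i, Sp (π i).1 (p i) := by
    intro i
    obtain ⟨-, -, -, h4, -, h6⟩ := hSPP
    obtain ⟨p', hp', hc⟩ := h6 (π i)
    rcases hc with ⟨-, hc⟩ | ⟨-, hc1, hc2, hc3⟩
    · exfalso
      have e1 := h.pπ i
      rw [hc, conj_natCast, ← Nat.cast_mul] at e1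
      have e2 : p i = p' * p' := by
        have := congrArg Eis.re e1
        rw [natCast_re, natCast_re] at this
        exact_mod_cast this
      have e3 := h.pp i
      rw [e2] at e3
      exact Nat.not_prime_mul hp'.one_lt.ne' hp'.one_lt.ne' e3
    · have e1 : p i = p' := by
        have e2 : (p i : Eis) = (p' : Eis) := by rw [h.pπ i, hc2]
        have := congrArg Eis.re e2
        simpa using this
      exact ⟨h.pp i, h.p1 i, (π i).2.1, (h4 (π i)).1, by rw [e1]; exact hc1, h.pπ i, hc3⟩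
  have hpne : ∀ i i', i' ≠ i → ¬ (π i).1 ∣ (p i' : Eis) := by
    intro i i' hii hd
    have e1 : (p i : ℤ) ∣ (p i' : ℤ) := (hSp i).dvd_int (by exact_mod_cast hd)
    rw [Int.natCast_dvd_natCast, Nat.prime_dvd_prime_iff_eq (h.pp i) (h.pp i')] at e1
    exact hii (h.pinj e1).symm
  have hrne : ∀ i j, ¬ (π i).1 ∣ (r j : Eis) := by
    intro i j hd
    have e1 : (p i : ℤ) ∣ (r j : ℤ) := (hSp i).dvd_int (by exact_mod_cast hd)
    rw [Int.natCast_dvd_natCast, Nat.prime_dvd_prime_iff_eq (h.pp i) (h.rp j)] at e1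
    have e2 := h.p1 i
    have e3 := h.r2 j
    omega
  have hcast0 : ∀ a : ℤ, a ≠ 0 → (a : Eis) ≠ 0 := by
    intro a ha h0
    apply ha
    have := congrArg Eis.re h0
    simpa using this
  -- the valuation of `n`
  have hVn : ∀ i, V (π i).1 (n : Eis) = e i := by
    intro i
    let F : ℤ → ℕ := fun a => V (π i).1 (a : Eis)
    have hF1 : F 1 = 0 := by
      show V (π i).1 ((1 : ℤ) : Eis) = 0
      rw [Int.cast_one]
      exact V_eq_zero (not_dvd_of_isUnit (π i).2.1 isUnit_one)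
    have hF : ∀ a b : ℤ, a ≠ 0 → b ≠ 0 → F (a * b) = F a + F b := by
      intro a b ha hb
      show V (π i).1 ((a * b : ℤ) : Eis) = _
      rw [Int.cast_mul, V_mul (π i).2.1 (hcast0 a ha) (hcast0 b hb)]
    obtain ⟨a1, a2⟩ := fun_prod (fun a : ℤ => a ≠ 0) F one_ne_zero
      (fun a b => mul_ne_zero) hF1 hF Finset.univ (fun i => (p i : ℤ)) e
      (fun i _ => by exact_mod_cast (h.pp i).ne_zero)
    obtain ⟨b1, b2⟩ := fun_prod (fun a : ℤ => a ≠ 0) F one_ne_zero
      (fun a b => mul_ne_zero) hF1 hF Finset.univ (fun j => (r j : ℤ)) f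
      (fun j _ => by exact_mod_cast (h.rp j).ne_zero)
    have e1 : V (π i).1 (n : Eis) = F ((∏ i, (p i : ℤ) ^ e i) * ∏ j, (r j : ℤ) ^ f j) := by
      have e2 : ((n : ℕ) : ℤ) = (∏ i, (p i : ℤ) ^ e i) * ∏ j, (r j : ℤ) ^ f j := by
        rw [h.eq]
        push_cast
        rfl
      rw [← e2]
      show V (π i).1 (n : Eis) = V (π i).1 ((n : ℤ) : Eis)
      rw [Int.cast_natCast]
    have hFp : F (p i) = 1 := by
      show V (π i).1 ((p i : ℤ) : Eis) = 1
      rw [Int.cast_natCast]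
      exact (hSp i).V_self
    have hFp' : ∀ i', i' ≠ i → F (p i') = 0 := by
      intro i' hi'
      show V (π i).1 ((p i' : ℤ) : Eis) = 0
      rw [Int.cast_natCast]
      exact V_eq_zero (hpne i i' hi')
    have hFr : ∀ j, F (r j) = 0 := by
      intro j
      show V (π i).1 ((r j : ℤ) : Eis) = 0
      rw [Int.cast_natCast]
      exact V_eq_zero (hrne i j)
    rw [e1, hF _ _ a1 b1, a2, b2, Finset.sum_eq_single i, hFp,
      Finset.sum_eq_zero fun j _ => by rw [hFr, smul_zero]]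
    · simp
    · intro i' _ hi'
      rw [hFp' i' hi', smul_zero]
    · intro h0
      exact absurd (Finset.mem_univ _) h0
  -- the symbols
  have hch : ∀ (x : ℤ), x ≠ 0 → (∀ l : ℕ, l.Prime → (l : ℤ) ∣ x → l ∣ n) → ∀ i,
      ch (π i).1 (x : Eis) = (∑ i', (padicValInt (p i') x : ZMod 3) *
          (if i' = i then sym (π i).1 (conj (π i).1) else sym (π i).1 (p i' : Eis))) +
        ∑ j, (padicValInt (r j) x : ZMod 3) * sym (π i).1 (r j : Eis) := by
    intro x hx hs i
    have hπ := (hSp i).pr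
    have h3 := (hSp i).h3
    have e1 := fun_eq h (fun a => ch (π i).1 (a : Eis))
      (fun a b ha hb _ _ => by
        show ch (π i).1 ((a * b : ℤ) : Eis) = _
        rw [Int.cast_mul, ch_mul hπ h3 (hcast0 a ha) (hcast0 b hb)])
      (by
        show ch (π i).1 ((-1 : ℤ) : Eis) = 0
        rw [Int.cast_neg, Int.cast_one, ch_neg_one hπ h3]) hx hs
    rw [e1]
    congr 1
    · refine Finset.sum_congr rfl fun i' _ => ?_
      congr 1
      show ch (π i).1 ((p i' : ℤ) : Eis) = _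
      rw [Int.cast_natCast]
      by_cases hi' : i' = i
      · rw [if_pos hi', hi', (hSp i).eq, ch_self_mul hπ (hSp i).not_dvd_conj]
      · rw [if_neg hi', ch_not_dvd hπ (hpne i i' hi')]
    · refine Finset.sum_congr rfl fun j _ => ?_
      congr 1
      show ch (π i).1 ((r j : ℤ) : Eis) = _
      rw [Int.cast_natCast, ch_not_dvd hπ (hrne i j)]
  -- the weight
  have hwt : ∀ (x : ℤ), x ≠ 0 → (∀ l : ℕ, l.Prime → (l : ℤ) ∣ x → l ∣ n) →
      wt (x ^ 2) = (∑ i, (padicValInt (p i) x : ZMod 3) * wt ((p i : ℤ) ^ 2)) +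
        ∑ j, (padicValInt (r j) x : ZMod 3) * wt ((r j : ℤ) ^ 2) := by
    intro x hx hs
    exact fun_eq h (fun a => wt (a ^ 2))
      (fun a b _ _ ha hb => by
        show wt ((a * b) ^ 2) = _
        rw [mul_pow, wt_mul (sq_mod_three ha) (sq_mod_three hb)])
      (by
        show wt ((-1) ^ 2) = 0
        rw [neg_one_sq, wt_one]) hx hs
  have hC9 : ∀ (x : ℤ), x ≠ 0 → ¬ (3 : ℤ) ∣ x → (∀ l : ℕ, l.Prime → (l : ℤ) ∣ x → l ∣ n) →
      (C9 x ↔ (∑ i, (padicValInt (p i) x : ZMod 3) * wt ((p i : ℤ) ^ 2)) +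
        ∑ j, (padicValInt (r j) x : ZMod 3) * wt ((r j : ℤ) ^ 2) = 0) := by
    intro x hx h3 hs
    rw [C9_iff h3, hwt x hx hs]
  refine ⟨fun x hx h3 hs => ⟨?_, hC9 x hx h3 hs⟩, ?_⟩
  · have e1 : ∀ i, ((V (π i).1 (n : Eis) : ZMod 3) * ch (π i).1 (x : Eis) -
        (V (π i).1 (x : Eis) : ZMod 3) * (ch (π i).1 (n : Eis) + c i) = 0) ↔
        ((e i : ZMod 3) * (∑ i', (padicValInt (p i') x : ZMod 3) *
          (if i' = i then sym (π i).1 (conj (π i).1) else sym (π i).1 (p i' : Eis))) +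
        (e i : ZMod 3) * (∑ j, (padicValInt (r j) x : ZMod 3) * sym (π i).1 (r j : Eis)) -
        (padicValInt (p i) x : ZMod 3) * (ch (π i).1 (n : Eis) + c i) = 0) := by
      intro i
      rw [hVn i, (hSp i).V_int hx, hch x hx hs i, mul_add]
    constructor
    · intro hA
      exact ⟨fun i => (e1 i).1 (hA.sym i), fun hw => (hC9 x hx h3 hs).1 (hA.nine hw)⟩
    · rintro ⟨hA, hB⟩
      exact ⟨hx, h3, hs, fun i => (e1 i).2 (hA i), fun hw => (hC9 x hx h3 hs).2 (hB hw)⟩
  · -- equality modulo cubes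
    intro x x' hx hx' hs hs'
    have hmod : ∀ l : ℕ, l.Prime → ∀ u v : ℤ, u ≠ 0 → v ≠ 0 → x * u ^ 3 = x' * v ^ 3 →
        (padicValInt l x : ZMod 3) = padicValInt l x' := by
      intro l hl u v hu hv huv
      have : Fact l.Prime := ⟨hl⟩
      have e1 := congrArg (padicValInt l) huv
      rw [padicValInt.mul hx (pow_ne_zero _ hu), padicValInt.mul hx' (pow_ne_zero _ hv),
        pow_succ, pow_succ, pow_one, pow_succ, pow_succ, pow_one,
        padicValInt.mul (mul_ne_zero hu hu) hu, padicValInt.mul hu hu,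
        padicValInt.mul (mul_ne_zero hv hv) hv, padicValInt.mul hv hv] at e1
      have e2 := congrArg (fun t : ℕ => (t : ZMod 3)) e1
      push_cast at e2
      have e3 : (3 : ZMod 3) = 0 := by decide
      linear_combination e2 + ((padicValInt l v : ZMod 3) - padicValInt l u) * e3
    constructor
    · rintro ⟨u, v, hu, hv, huv⟩
      exact ⟨fun i => hmod _ (h.pp i) u v hu hv huv, fun j => hmod _ (h.rp j) u v hu hv huv⟩
    · rintro ⟨hA, hB⟩
      have hxx : x * x' ^ 2 ≠ 0 := mul_ne_zero hx (pow_ne_zero _ hx')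
      have h3 : ∀ l : ℕ, l.Prime → (padicValInt l x : ZMod 3) = padicValInt l x' →
          3 ∣ padicValInt l (x * x' ^ 2) := by
        intro l hl he
        have : Fact l.Prime := ⟨hl⟩
        rw [padicValInt.mul hx (pow_ne_zero _ hx'), pow_two, padicValInt.mul hx' hx',
          ← ZMod.natCast_eq_zero_iff]
        push_cast
        rw [he]
        have e3 : (3 : ZMod 3) = 0 := by decide
        linear_combination (padicValInt l x' : ZMod 3) * e3
      obtain ⟨t, ht, hxt⟩ := exists_cube h hxx (by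
        intro l hl hd
        rcases (Nat.prime_iff_prime_int.1 hl).dvd_or_dvd hd with h1 | h1
        · exact hs l hl h1
        · exact hs' l hl ((Nat.prime_iff_prime_int.1 hl).dvd_of_dvd_pow h1))
        (fun i => h3 _ (h.pp i) (hA i)) (fun j => h3 _ (h.rp j) (hB j))
      refine ⟨x', t, hx', ht, ?_⟩
      rw [← hxt]
      ring

end Pool.Agent.PT

end

section

/-!
# Prime twists of rank zero: basis of the admissible classes (module EBAS)
-/

set_option autoImplicit false

namespace Pool.Agent.PT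

open Pool.Agent.Lib_helper18 Pool.Agent.Lib_helper18.Eis Pool.Agent.Lib_helper84.Cub

namespace EBAS

/-! ### Linear algebra -/

/-- Exponent vectors modulo `3`. -/
abbrev EV (m k : ℕ) : Type := (Fin m → ZMod 3) × (Fin k → ZMod 3)

/-- A basis of a subspace such that a linear form vanishes at all its members with at most one
exception. -/
theorem exists_basis {M : Type} [AddCommGroup M] [Module (ZMod 3) M] [Module.Finite (ZMod 3) M]
    (W : M →ₗ[ZMod 3] ZMod 3) (S : Submodule (ZMod 3) M) :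
    ∃ b : Module.Basis (Fin (Module.finrank (ZMod 3) S)) (ZMod 3) S,
      ∀ i j, i ≠ j → W (b i) = 0 ∨ W (b j) = 0 := by
  classical
  set b0 := Module.finBasis (ZMod 3) S with hb0
  by_cases h : ∀ i, W (b0 i) = 0
  · exact ⟨b0, fun i j _ => Or.inl (h i)⟩
  · push Not at h
    obtain ⟨i0, hi0⟩ := h
    let b : Fin (Module.finrank (ZMod 3) S) → S := fun i =>
      if i = i0 then b0 i0 else b0 i - (W (b0 i) / W (b0 i0)) • b0 i0
    have hb1 : b i0 = b0 i0 := if_pos rfl
    have hb2 : ∀ i, i ≠ i0 → b i = b0 i - (W (b0 i) / W (b0 i0)) • b0 i0 := fun i hi => if_neg hi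
    have hspan : ⊤ ≤ Submodule.span (ZMod 3) (Set.range b) := by
      rw [← b0.span_eq, Submodule.span_le]
      rintro x ⟨i, rfl⟩
      have h0 : b0 i0 ∈ Submodule.span (ZMod 3) (Set.range b) := by
        rw [← hb1]
        exact Submodule.subset_span ⟨i0, rfl⟩
      by_cases hi : i = i0
      · rw [hi]
        exact h0
      · have h1 : b0 i = b i + (W (b0 i) / W (b0 i0)) • b0 i0 := by
          rw [hb2 i hi, sub_add_cancel]
        rw [h1]
        exact add_mem (Submodule.subset_span ⟨i, rfl⟩) (Submodule.smul_mem _ _ h0)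
    have hli : LinearIndependent (ZMod 3) b :=
      linearIndependent_of_top_le_span_of_card_eq_finrank hspan (by simp)
    refine ⟨Module.Basis.mk hli hspan, fun i j hij => ?_⟩
    rw [Module.Basis.mk_apply, Module.Basis.mk_apply]
    have h2 : ∀ i, i ≠ i0 → W (b i) = 0 := by
      intro i hi
      rw [hb2 i hi, Submodule.coe_sub, Submodule.coe_smul, map_sub, map_smul, smul_eq_mul,
        div_mul_cancel₀ _ hi0, sub_self]
    by_cases hi : i = i0
    · exact Or.inr (h2 j (by rw [← hi]; exact hij.symm))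
    · exact Or.inl (h2 i hi)

/-- The conditions at the split primes. -/
noncomputable def Lm (n : ℕ) {m k : ℕ} (π : Fin m → PP) (p e : Fin m → ℕ) (r : Fin k → ℕ)
    (c : Fin m → ZMod 3) : EV m k →ₗ[ZMod 3] (Fin m → ZMod 3) where
  toFun v i := (e i : ZMod 3) * (∑ i', v.1 i' *
      (if i' = i then sym (π i).1 (conj (π i).1) else sym (π i).1 (p i' : Eis))) +
    (e i : ZMod 3) * (∑ j, v.2 j * sym (π i).1 (r j : Eis)) -
    v.1 i * (ch (π i).1 (n : Eis) + c i)
  map_add' := by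
    intro v v'
    funext i
    simp only [Prod.fst_add, Prod.snd_add, Pi.add_apply, add_mul, Finset.sum_add_distrib]
    ring
  map_smul' := by
    intro t v
    funext i
    simp only [Prod.smul_fst, Prod.smul_snd, Pi.smul_apply, smul_eq_mul, mul_assoc,
      RingHom.id_apply, ← Finset.mul_sum]
    ring

/-- The condition modulo `9`. -/
noncomputable def Wm {m k : ℕ} (p : Fin m → ℕ) (r : Fin k → ℕ) :
    EV m k →ₗ[ZMod 3] ZMod 3 where
  toFun v := (∑ i, v.1 i * wt ((p i : ℤ) ^ 2)) + ∑ j, v.2 j * wt ((r j : ℤ) ^ 2)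
  map_add' := by
    intro v v'
    simp only [Prod.fst_add, Prod.snd_add, Pi.add_apply, add_mul, Finset.sum_add_distrib]
    ring
  map_smul' := by
    intro t v
    simp only [Prod.smul_fst, Prod.smul_snd, Pi.smul_apply, smul_eq_mul, mul_assoc,
      RingHom.id_apply, ← Finset.mul_sum]
    ring

/-- The rows of the matrix. -/
theorem row (n : ℕ) {m k : ℕ} (π : Fin m → PP) (p e : Fin m → ℕ) (r : Fin k → ℕ)
    (c : Fin m → ZMod 3) (v : EV m k) (i : Fin m) :
    Lm n π p e r c v i = (∑ i', (if i' = i then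
          (e i : ZMod 3) * sym (π i).1 (conj (π i).1) - ch (π i).1 (n : Eis) - c i
        else (e i : ZMod 3) * sym (π i).1 (p i' : Eis)) * v.1 i') +
      (e i : ZMod 3) * (∑ j, v.2 j * sym (π i).1 (r j : Eis)) := by
  classical
  have h1 : ∀ i', (if i' = i then
          (e i : ZMod 3) * sym (π i).1 (conj (π i).1) - ch (π i).1 (n : Eis) - c i
        else (e i : ZMod 3) * sym (π i).1 (p i' : Eis)) * v.1 i' =
      (e i : ZMod 3) * (v.1 i' *
        (if i' = i then sym (π i).1 (conj (π i).1) else sym (π i).1 (p i' : Eis))) -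
      (if i' = i then v.1 i' * (ch (π i).1 (n : Eis) + c i) else 0) := by
    intro i'
    split_ifs
    · ring
    · ring
  rw [Finset.sum_congr rfl fun i' _ => h1 i', Finset.sum_sub_distrib, ← Finset.mul_sum,
    Finset.sum_ite_eq' Finset.univ i, if_pos (Finset.mem_univ i)]
  change (e i : ZMod 3) * (∑ i', v.1 i' *
      (if i' = i then sym (π i).1 (conj (π i).1) else sym (π i).1 (p i' : Eis))) +
    (e i : ZMod 3) * (∑ j, v.2 j * sym (π i).1 (r j : Eis)) -
    v.1 i * (ch (π i).1 (n : Eis) + c i) = _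
  ring

theorem solve {m : ℕ} (M : Matrix (Fin (m + 1)) (Fin (m + 1)) (ZMod 3)) (h : M.det ≠ 0)
    (v : Fin (m + 1) → ZMod 3) : ∃ u : Fin (m + 1) → ZMod 3, ∀ a, ∑ b, M a b * u b = v a := by
  refine ⟨M⁻¹.mulVec v, fun a => ?_⟩
  have h1 : M.mulVec (M⁻¹.mulVec v) = v := by
    rw [Matrix.mulVec_mulVec, Matrix.mul_nonsing_inv _ (isUnit_iff_ne_zero.mpr h),
      Matrix.one_mulVec]
  exact congrFun h1 a

theorem surj_none (n : ℕ) {m k : ℕ} (π : Fin m → PP) (p e : Fin m → ℕ) (r : Fin k → ℕ)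
    (c : Fin m → ZMod 3) (h : (Mp n π p e r none c).det ≠ 0) :
    Function.Surjective (Lm n π p e r c : EV m k →ₗ[ZMod 3] (Fin m → ZMod 3)) := by
  intro v
  obtain ⟨u, hu⟩ := solve _ h (Fin.cons 0 v)
  refine ⟨(fun i => u i.succ, 0), ?_⟩
  funext i
  rw [row]
  have h1 := hu i.succ
  rw [Fin.sum_univ_succ, Fin.cons_succ] at h1
  have h2 : Mp n π p e r none c i.succ 0 = 0 := rfl
  rw [h2, zero_mul, zero_add] at h1
  rw [← h1]
  have h3 : ∑ j : Fin k, (0 : Fin k → ZMod 3) j * sym (π i).1 (r j : Eis) = 0 := by simp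
  rw [h3, mul_zero, add_zero]
  rfl

theorem surj_some (n : ℕ) {m k : ℕ} (π : Fin m → PP) (p e : Fin m → ℕ) (r : Fin k → ℕ)
    (c : Fin m → ZMod 3) (j0 : Fin k) (h : (Mp n π p e r (some j0) c).det ≠ 0) :
    Function.Surjective ((Wm p r).prod (Lm n π p e r c) :
      EV m k →ₗ[ZMod 3] (ZMod 3 × (Fin m → ZMod 3))) := by
  classical
  rintro ⟨t, v⟩
  obtain ⟨u, hu⟩ := solve _ h (Fin.cons t v)
  refine ⟨(fun i => u i.succ, Pi.single j0 (u 0)), ?_⟩
  have hs : ∀ f : Fin k → ZMod 3, ∑ j, (Pi.single j0 (u 0) : Fin k → ZMod 3) j * f j =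
      f j0 * u 0 := by
    intro f
    rw [Finset.sum_eq_single j0]
    · rw [Pi.single_eq_same, mul_comm]
    · intro j _ hj
      rw [Pi.single_eq_of_ne hj, zero_mul]
    · intro hj
      exact absurd (Finset.mem_univ _) hj
  refine Prod.ext ?_ ?_
  · have h1 := hu 0
    rw [Fin.sum_univ_succ, Fin.cons_zero] at h1
    change (∑ i, u i.succ * wt ((p i : ℤ) ^ 2)) +
      ∑ j, (Pi.single j0 (u 0) : Fin k → ZMod 3) j * wt ((r j : ℤ) ^ 2) = t
    rw [hs, ← h1, add_comm]
    congr 1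
    exact Finset.sum_congr rfl fun i _ => mul_comm _ _
  · change Lm n π p e r c (fun i => u i.succ, Pi.single j0 (u 0)) = v
    funext i
    rw [row]
    have h1 := hu i.succ
    rw [Fin.sum_univ_succ, Fin.cons_succ] at h1
    have h2 : Mp n π p e r (some j0) c i.succ 0 = (e i : ZMod 3) * sym (π i).1 (r j0 : Eis) :=
      rfl
    rw [h2] at h1
    rw [← h1]
    have h3 := hs fun j => sym (π i).1 (r j : Eis)
    simp only at h3 ⊢
    rw [h3, add_comm, mul_assoc]
    rfl

/-- The space of admissible exponent vectors. -/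
theorem exists_space (n : ℕ) {m k : ℕ} (π : Fin m → PP) (p e : Fin m → ℕ) (r : Fin k → ℕ)
    (w0 : ZMod 3) (c : Fin m → ZMod 3) (j0 : Option (Fin k))
    (hj0 : (j0 = none ∧ Even k ∧ wt ((n : ℤ) ^ 2) + w0 ≠ 0) ∨
      (j0 ≠ none ∧ Odd k ∧ wt ((n : ℤ) ^ 2) + w0 = 0))
    (h : (Mp n π p e r j0 c).det ≠ 0) :
    ∃ S : Submodule (ZMod 3) (EV m k), Even (Module.finrank (ZMod 3) S) ∧
      ∀ v : EV m k, v ∈ S ↔ (∀ i, Lm n π p e r c v i = 0) ∧
        (wt ((n : ℤ) ^ 2) + w0 = 0 → Wm p r v = 0) := by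
  rcases hj0 with ⟨rfl, hk, hw⟩ | ⟨hne, hk, hw⟩
  · refine ⟨LinearMap.ker (Lm n π p e r c), ?_, fun v => ?_⟩
    · have h1 := LinearMap.finrank_range_add_finrank_ker
        (Lm n π p e r c : EV m k →ₗ[ZMod 3] (Fin m → ZMod 3))
      rw [LinearMap.range_eq_top.mpr (surj_none n π p e r c h), finrank_top] at h1
      simp only [Module.finrank_prod, Module.finrank_fintype_fun_eq_card, Fintype.card_fin] at h1
      have h2 : Module.finrank (ZMod 3) (LinearMap.ker
          (Lm n π p e r c : EV m k →ₗ[ZMod 3] (Fin m → ZMod 3))) = k := by omega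
      rw [h2]
      exact hk
    · rw [LinearMap.mem_ker, funext_iff]
      exact ⟨fun h3 => ⟨h3, fun h4 => absurd h4 hw⟩, fun h3 => h3.1⟩
  · obtain ⟨j1, rfl⟩ := Option.ne_none_iff_exists'.mp hne
    refine ⟨LinearMap.ker ((Wm p r).prod (Lm n π p e r c)), ?_, fun v => ?_⟩
    · have h1 := LinearMap.finrank_range_add_finrank_ker
        ((Wm p r).prod (Lm n π p e r c) : EV m k →ₗ[ZMod 3] (ZMod 3 × (Fin m → ZMod 3)))
      rw [LinearMap.range_eq_top.mpr (surj_some n π p e r c j1 h), finrank_top] at h1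
      simp only [Module.finrank_prod, Module.finrank_fintype_fun_eq_card, Fintype.card_fin,
        Module.finrank_self] at h1
      obtain ⟨k', hk'⟩ := hk
      have h2 : Module.finrank (ZMod 3) (LinearMap.ker
          ((Wm p r).prod (Lm n π p e r c) :
            EV m k →ₗ[ZMod 3] (ZMod 3 × (Fin m → ZMod 3)))) = 2 * k' := by omega
      rw [h2]
      exact even_two_mul k'
    · rw [LinearMap.mem_ker]
      change (Wm p r v, Lm n π p e r c v) = 0 ↔ _
      rw [Prod.mk_eq_zero, funext_iff]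
      exact ⟨fun h3 => ⟨h3.2, fun _ => h3.1⟩, fun h3 => ⟨h3.2 hw, h3.1⟩⟩

/-! ### From exponent vectors to integers -/

/-- The number with given exponents. -/
def toN {m k : ℕ} (p : Fin m → ℕ) (r : Fin k → ℕ) (v : EV m k) : ℕ :=
  (∏ i, p i ^ (v.1 i).val) * ∏ j, r j ^ (v.2 j).val

section

variable {n m k : ℕ} {π : Fin m → PP} {p e : Fin m → ℕ} {r f : Fin k → ℕ}

theorem toN_ne (h : NF n π p e r f) (v : EV m k) : toN p r v ≠ 0 :=
  mul_ne_zero (Finset.prod_ne_zero_iff.mpr fun i _ => pow_ne_zero _ (h.pp i).ne_zero)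
    (Finset.prod_ne_zero_iff.mpr fun j _ => pow_ne_zero _ (h.rp j).ne_zero)

theorem val_prod {a : ℕ} (q : Fin a → ℕ) (hq : ∀ i, (q i).Prime) (x : Fin a → ℕ) (l : ℕ)
    (hl : l.Prime) : padicValNat l (∏ i, q i ^ x i) = ∑ i, if q i = l then x i else 0 := by
  classical
  have hl' : Fact l.Prime := ⟨hl⟩
  have key : ∀ s : Finset (Fin a), padicValNat l (∏ i ∈ s, q i ^ x i) =
      ∑ i ∈ s, if q i = l then x i else 0 := by
    intro s
    induction s using Finset.induction_on with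
    | empty => simp
    | insert b s hb ih =>
      rw [Finset.prod_insert hb, Finset.sum_insert hb,
        padicValNat.mul (pow_ne_zero _ (hq b).ne_zero)
          (Finset.prod_ne_zero_iff.mpr fun i _ => pow_ne_zero _ (hq i).ne_zero), ih,
        padicValNat.pow _ _]
      congr 1
      split_ifs with h1
      · rw [h1, padicValNat_self, mul_one]
      · have hq' : Fact (q b).Prime := ⟨hq b⟩
        rw [padicValNat_primes (Ne.symm h1), mul_zero]
  exact key Finset.univ

theorem val_toN (h : NF n π p e r f) (v : EV m k) (l : ℕ) (hl : l.Prime) :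
    padicValNat l (toN p r v) = (∑ i, if p i = l then (v.1 i).val else 0) +
      ∑ j, if r j = l then (v.2 j).val else 0 := by
  have hl' : Fact l.Prime := ⟨hl⟩
  rw [toN, padicValNat.mul
    (Finset.prod_ne_zero_iff.mpr fun i _ => pow_ne_zero _ (h.pp i).ne_zero)
    (Finset.prod_ne_zero_iff.mpr fun j _ => pow_ne_zero _ (h.rp j).ne_zero),
    val_prod p h.pp _ l hl, val_prod r h.rp _ l hl]

theorem pr_ne (h : NF n π p e r f) (i : Fin m) (j : Fin k) : p i ≠ r j := by
  intro h1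
  have h2 := h.p1 i
  rw [h1, h.r2 j] at h2
  omega

theorem val_p (h : NF n π p e r f) (v : EV m k) (i : Fin m) :
    padicValNat (p i) (toN p r v) = (v.1 i).val := by
  rw [val_toN h v _ (h.pp i)]
  have h1 : ∀ i', (if p i' = p i then (v.1 i').val else 0) = if i' = i then (v.1 i').val else 0 := by
    intro i'
    by_cases h2 : i' = i
    · rw [h2, if_pos rfl, if_pos rfl]
    · rw [if_neg h2, if_neg fun h3 => h2 (h.pinj h3)]
  have h2 : ∀ j, (if r j = p i then (v.2 j).val else 0) = 0 := fun j =>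
    if_neg (pr_ne h i j).symm
  rw [Finset.sum_congr rfl fun i' _ => h1 i', Finset.sum_congr rfl fun j _ => h2 j]
  simp

theorem val_r (h : NF n π p e r f) (v : EV m k) (j : Fin k) :
    padicValNat (r j) (toN p r v) = (v.2 j).val := by
  rw [val_toN h v _ (h.rp j)]
  have h1 : ∀ j', (if r j' = r j then (v.2 j').val else 0) = if j' = j then (v.2 j').val else 0 := by
    intro j'
    by_cases h2 : j' = j
    · rw [h2, if_pos rfl, if_pos rfl]
    · rw [if_neg h2, if_neg fun h3 => h2 (h.rinj h3)]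
  have h2 : ∀ i, (if p i = r j then (v.1 i).val else 0) = 0 := fun i =>
    if_neg (pr_ne h i j)
  rw [Finset.sum_congr rfl fun j' _ => h1 j', Finset.sum_congr rfl fun i _ => h2 i]
  simp

theorem zval_le (a : ZMod 3) : a.val ≤ 2 := by
  have h := ZMod.val_lt a
  omega

/-- The primes dividing `toN`. -/
theorem dvd_toN (h : NF n π p e r f) (v : EV m k) (l : ℕ) (hl : l.Prime) (hd : l ∣ toN p r v) :
    (∃ i, p i = l) ∨ ∃ j, r j = l := by
  rcases hl.prime.dvd_mul.mp hd with h1 | h1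
  · obtain ⟨i, -, hi⟩ := (hl.prime.dvd_finsetProd_iff _).mp h1
    exact Or.inl ⟨i, ((Nat.prime_dvd_prime_iff_eq hl (h.pp i)).mp (hl.dvd_of_dvd_pow hi)).symm⟩
  · obtain ⟨j, -, hj⟩ := (hl.prime.dvd_finsetProd_iff _).mp h1
    exact Or.inr ⟨j, ((Nat.prime_dvd_prime_iff_eq hl (h.rp j)).mp (hl.dvd_of_dvd_pow hj)).symm⟩

theorem val_le (h : NF n π p e r f) (v : EV m k) (l : ℕ) (hl : l.Prime) :
    padicValNat l (toN p r v) ≤ 2 := by
  by_cases hd : l ∣ toN p r v
  · rcases dvd_toN h v l hl hd with ⟨i, rfl⟩ | ⟨j, rfl⟩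
    · rw [val_p h]
      exact zval_le _
    · rw [val_r h]
      exact zval_le _
  · rw [padicValNat.eq_zero_of_not_dvd hd]
    exact Nat.zero_le _

theorem p_dvd (h : NF n π p e r f) (i : Fin m) : p i ∣ n := by
  rw [h.eq]
  refine Dvd.dvd.mul_right ?_ _
  refine dvd_trans (dvd_pow_self (p i) ?_) (Finset.dvd_prod_of_mem _ (Finset.mem_univ i))
  rcases h.pe i with h1 | h1 <;> rw [h1] <;> omega

theorem r_dvd (h : NF n π p e r f) (j : Fin k) : r j ∣ n := by
  rw [h.eq]
  refine Dvd.dvd.mul_left ?_ _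
  refine dvd_trans (dvd_pow_self (r j) ?_) (Finset.dvd_prod_of_mem _ (Finset.mem_univ j))
  rcases h.rf j with h1 | h1 <;> rw [h1] <;> omega

theorem supp_toN (h : NF n π p e r f) (v : EV m k) (l : ℕ) (hl : l.Prime)
    (hd : (l : ℤ) ∣ (toN p r v : ℤ)) : l ∣ n := by
  rcases dvd_toN h v l hl (Int.natCast_dvd_natCast.mp hd) with ⟨i, rfl⟩ | ⟨j, rfl⟩
  · exact p_dvd h i
  · exact r_dvd h j

theorem three_toN (h : NF n π p e r f) (v : EV m k) : ¬ (3 : ℤ) ∣ (toN p r v : ℤ) := by
  intro hd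
  have hd' : 3 ∣ toN p r v := by exact_mod_cast hd
  rcases dvd_toN h v 3 Nat.prime_three hd' with ⟨i, hi⟩ | ⟨j, hj⟩
  · have := h.p1 i
    rw [hi] at this
    omega
  · have := h.r2 j
    rw [hj] at this
    omega

end

/-! ### Multiplicities in `Z[w]` -/

theorem int_dvd {l x : ℤ} (h : (l : Eis) ∣ (x : Eis)) : l ∣ x := by
  obtain ⟨c, hc⟩ := h
  refine ⟨c.re, ?_⟩
  have h1 := congrArg Eis.re hc
  simpa using h1

theorem V_le (hSPP : SPP) (π : PP) {x : ℤ} (hx : x ≠ 0) :
    ∃ l : ℕ, l.Prime ∧ V π.1 (x : Eis) ≤ padicValInt l x := by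
  obtain ⟨l, hl, hcase⟩ := hSPP.2.2.2.2.2 π
  refine ⟨l, hl, ?_⟩
  have hl' : Fact l.Prime := ⟨hl⟩
  have hπ : Prime π.1 := π.2.1
  set a := V π.1 (x : Eis) with ha
  have hxE : (x : Eis) ≠ 0 := by
    intro h
    apply hx
    have h1 := congrArg Eis.re h
    simpa using h1
  have hd : π.1 ^ a ∣ (x : Eis) := pow_multiplicity_dvd _ _
  have key : (l : ℤ) ^ a ∣ x := by
    apply int_dvd
    rcases hcase with ⟨-, h1⟩ | ⟨-, -, h2, h3⟩
    · rw [h1] at hd
      push_cast
      exact hd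
    · have hd' : conj π.1 ^ a ∣ (x : Eis) := by
        have h4 := conj_dvd hd
        rwa [map_pow, conj_intCast] at h4
      have hcop : IsCoprime (π.1 ^ a) (conj π.1 ^ a) := by
        apply IsCoprime.pow
        rw [hπ.irreducible.coprime_iff_not_dvd]
        intro h5
        exact h3 (hπ.irreducible.associated_of_dvd (prime_conj hπ).irreducible h5)
      have h6 := hcop.mul_dvd hd hd'
      rw [← mul_pow, ← h2] at h6
      push_cast
      exact h6
  have h7 : l ^ a ∣ x.natAbs := by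
    have h8 := Int.natAbs_dvd_natAbs.mpr key
    rwa [Int.natAbs_pow, Int.natAbs_natCast] at h8
  rw [padicValInt]
  exact (padicValNat_dvd_iff_le (Int.natAbs_ne_zero.mpr hx)).mp h7

/-! ### The exponent vector of an integer -/

/-- The exponent vector modulo `3`. -/
noncomputable def ev {m k : ℕ} (p : Fin m → ℕ) (r : Fin k → ℕ) (x : ℤ) : EV m k :=
  (fun i => (padicValInt (p i) x : ZMod 3), fun j => (padicValInt (r j) x : ZMod 3))

theorem padicInt_mul (l : ℕ) (hl : l.Prime) {x y : ℤ} (hx : x ≠ 0) (hy : y ≠ 0) :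
    padicValInt l (x * y) = padicValInt l x + padicValInt l y := by
  have hl' : Fact l.Prime := ⟨hl⟩
  exact padicValInt.mul hx hy

theorem padicInt_pow (l : ℕ) (hl : l.Prime) {x : ℤ} (hx : x ≠ 0) (a : ℕ) :
    padicValInt l (x ^ a) = a * padicValInt l x := by
  induction a with
  | zero => simp
  | succ a ih =>
    rw [pow_succ, padicInt_mul l hl (pow_ne_zero _ hx) hx, ih]
    ring

theorem padicInt_prod (l : ℕ) (hl : l.Prime) {ι : Type} (s : Finset ι) (x : ι → ℤ)
    (hx : ∀ i, x i ≠ 0) : padicValInt l (∏ i ∈ s, x i) = ∑ i ∈ s, padicValInt l (x i) := by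
  classical
  induction s using Finset.induction_on with
  | empty => simp
  | insert a s ha ih =>
    rw [Finset.prod_insert ha, Finset.sum_insert ha,
      padicInt_mul l hl (hx a) (Finset.prod_ne_zero_iff.mpr fun i _ => hx i), ih]

section

variable {n m k : ℕ} {π : Fin m → PP} {p e : Fin m → ℕ} {r f : Fin k → ℕ}

theorem ev_toN (h : NF n π p e r f) (v : EV m k) : ev p r (toN p r v : ℤ) = v := by
  refine Prod.ext ?_ ?_
  · funext i
    change ((padicValInt (p i) (toN p r v : ℤ) : ℕ) : ZMod 3) = v.1 i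
    rw [padicValInt.of_nat, val_p h, ZMod.natCast_zmod_val]
  · funext j
    change ((padicValInt (r j) (toN p r v : ℤ) : ℕ) : ZMod 3) = v.2 j
    rw [padicValInt.of_nat, val_r h, ZMod.natCast_zmod_val]

theorem ev_prod (h : NF n π p e r f) {s : ℕ} (x : Fin s → ℤ) (hx : ∀ i, x i ≠ 0)
    (g : Fin s → ℕ) : ev p r (∏ i, x i ^ g i) = ∑ i, (g i : ZMod 3) • ev p r (x i) := by
  have key : ∀ l : ℕ, l.Prime → ((padicValInt l (∏ i, x i ^ g i) : ℕ) : ZMod 3) =
      ∑ i, (g i : ZMod 3) * (padicValInt l (x i) : ZMod 3) := by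
    intro l hl
    rw [padicInt_prod l hl _ _ fun i => pow_ne_zero _ (hx i), Nat.cast_sum]
    refine Finset.sum_congr rfl fun i _ => ?_
    rw [padicInt_pow l hl (hx i), Nat.cast_mul]
  refine Prod.ext ?_ ?_
  · rw [Prod.fst_sum]
    funext i
    rw [Finset.sum_apply]
    exact key _ (h.pp i)
  · rw [Prod.snd_sum]
    funext j
    rw [Finset.sum_apply]
    exact key _ (h.rp j)

theorem ev_cube (h : NF n π p e r f) (t : ℤ) (ht : t ≠ 0) : ev p r (t ^ 3) = 0 := by
  have h3 : ((3 : ℕ) : ZMod 3) = 0 := ZMod.natCast_self 3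
  refine Prod.ext ?_ ?_
  · funext i
    change ((padicValInt (p i) (t ^ 3) : ℕ) : ZMod 3) = 0
    rw [padicInt_pow _ (h.pp i) ht, Nat.cast_mul, h3, zero_mul]
  · funext j
    change ((padicValInt (r j) (t ^ 3) : ℕ) : ZMod 3) = 0
    rw [padicInt_pow _ (h.rp j) ht, Nat.cast_mul, h3, zero_mul]

end

end EBAS

open _root_.Pool.Agent.PT.EBAS in
/-- EBAS: basis of the admissible classes. -/
theorem EBAS_thm (hEVEC : EVEC) (hSPP : SPP) : EBAS := by
  intro n m k π p e r f w0 c j0 h hj0 _ hdet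
  obtain ⟨S, hS, hmem⟩ := exists_space n π p e r w0 c j0 hj0 hdet
  obtain ⟨b, hb⟩ := exists_basis (Wm p r) S
  obtain ⟨hE1, hE2⟩ := hEVEC n m k π p e r f w0 c h
  have hB0 : ∀ v : EV m k, (toN p r v : ℤ) ≠ 0 := fun v => by
    exact_mod_cast toN_ne h v
  have hadm : ∀ x : ℤ, x ≠ 0 → ¬ (3 : ℤ) ∣ x → (∀ l : ℕ, l.Prime → (l : ℤ) ∣ x → l ∣ n) →
      (AdmC n π w0 c x ↔ ev p r x ∈ S) := by
    intro x h1 h2 h3
    rw [(hE1 x h1 h2 h3).1, hmem]
    exact Iff.rfl
  refine ⟨Module.finrank (ZMod 3) S, fun i => (toN p r (b i) : ℤ), hS, fun i => ?_,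
    fun i π' => ?_, fun g hg => ?_, fun i j hij => ?_, fun x hx => ?_⟩
  · rw [hadm _ (hB0 _) (three_toN h _) (supp_toN h _), ev_toN h]
    exact (b i).2
  · obtain ⟨l, hl, hle⟩ := V_le hSPP π' (hB0 (b i))
    refine hle.trans ?_
    rw [padicValInt.of_nat]
    exact val_le h _ l hl
  · rintro ⟨t, ht⟩
    have hprod : ∏ i, (toN p r (b i) : ℤ) ^ g i ≠ 0 :=
      Finset.prod_ne_zero_iff.mpr fun i _ => pow_ne_zero _ (hB0 _)
    have ht0 : t ≠ 0 := by
      rintro rfl
      apply hprod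
      rw [← ht]
      norm_num
    have h1 := ev_prod h (fun i => (toN p r (b i) : ℤ)) (fun i => hB0 _) g
    rw [← ht, ev_cube h t ht0] at h1
    simp only [ev_toN h] at h1
    have h2 : ∑ i, (g i : ZMod 3) • b i = 0 := by
      apply Subtype.ext
      rw [AddSubmonoidClass.coe_finsetSum]
      exact h1.symm
    have h3 := Fintype.linearIndependent_iff.mp b.linearIndependent _ h2
    obtain ⟨i, hi⟩ := hg
    exact hi ((ZMod.natCast_eq_zero_iff _ _).mp (h3 i))
  · have h1 : ∀ i, C9 (toN p r (b i) : ℤ) ↔ Wm p r (b i : EV m k) = 0 := by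
      intro i
      rw [(hE1 _ (hB0 _) (three_toN h _) (supp_toN h _)).2]
      change Wm p r (ev p r (toN p r (b i) : ℤ)) = 0 ↔ _
      rw [ev_toN h]
    rcases hb i j hij with h2 | h2
    · exact Or.inl ((h1 i).mpr h2)
    · exact Or.inr ((h1 j).mpr h2)
  · have hxS : ev p r x ∈ S := (hadm x hx.ne hx.three hx.supp).mp hx
    refine ⟨fun i => (b.repr ⟨ev p r x, hxS⟩ i).val, ?_⟩
    rw [hE2 x _ hx.ne (Finset.prod_ne_zero_iff.mpr fun i _ => pow_ne_zero _ (hB0 _)) hx.supp
      (fun l hl hd => ?_)]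
    · have h1 := ev_prod h (fun i => (toN p r (b i) : ℤ)) (fun i => hB0 _)
        (fun i => (b.repr ⟨ev p r x, hxS⟩ i).val)
      simp only [ev_toN h, ZMod.natCast_zmod_val] at h1
      have h2 : ev p r x = ev p r (∏ i, (toN p r (b i) : ℤ) ^
          (b.repr ⟨ev p r x, hxS⟩ i).val) := by
        rw [h1]
        have h3 := congrArg (fun z : S => (z : EV m k)) (b.sum_repr ⟨ev p r x, hxS⟩)
        simp only [AddSubmonoidClass.coe_finsetSum] at h3
        exact h3.symm
      exact ⟨fun i => congrFun (congrArg Prod.fst h2) i, fun j => congrFun (congrArg Prod.snd h2) j⟩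
    · obtain ⟨i, -, hi⟩ := (Nat.prime_iff_prime_int.mp hl).dvd_finsetProd_iff _ |>.mp hd
      exact supp_toN h _ l hl ((Nat.prime_iff_prime_int.mp hl).dvd_of_dvd_pow hi)

end Pool.Agent.PT

end

section

/-!
# Prime twists of rank zero, `n` divisible by `3`: basis of the admissible classes (module EBAT)
-/

namespace Pool.Agent.PT3

open Pool.Agent.Lib_helper18 Pool.Agent.Lib_helper18.Eis Pool.Agent.Lib_helper84.Cub
open Pool.Agent.PT Pool.Agent.PTE

namespace EBAT

open Pool.Agent.PT.EBAS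

/-! ### Linear algebra -/

/-- A basis made of a basis of the kernel of a linear map and of given vectors. -/
theorem glue {S Q : Type} [AddCommGroup S] [Module (ZMod 3) S] [Module.Finite (ZMod 3) S]
    [AddCommGroup Q] [Module (ZMod 3) Q] (Λ : S →ₗ[ZMod 3] Q) {c : ℕ} (u : Fin c → S)
    (hli : ∀ g : Fin c → ZMod 3, ∑ i, g i • Λ (u i) = 0 → ∀ i, g i = 0)
    (hsp : ∀ x, ∃ g : Fin c → ZMod 3, Λ x = ∑ i, g i • Λ (u i)) :
    ∃ (e : Fin (Module.finrank (ZMod 3) S) ≃
        Fin (Module.finrank (ZMod 3) (LinearMap.ker Λ)) ⊕ Fin c)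
      (b : Module.Basis (Fin (Module.finrank (ZMod 3) S)) (ZMod 3) S),
      ∀ i, b i = Sum.elim (fun a =>
        ((Module.finBasis (ZMod 3) (LinearMap.ker Λ) a : LinearMap.ker Λ) : S)) u (e i) := by
  classical
  set K := Module.finBasis (ZMod 3) (LinearMap.ker Λ) with hK
  set F : Fin (Module.finrank (ZMod 3) (LinearMap.ker Λ)) ⊕ Fin c → S :=
    Sum.elim (fun a => ((K a : LinearMap.ker Λ) : S)) u with hF
  have h1 : LinearIndependent (ZMod 3) F := by
    rw [Fintype.linearIndependent_iff]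
    intro g hg
    rw [Fintype.sum_sum_type] at hg
    simp only [hF, Sum.elim_inl, Sum.elim_inr] at hg
    have h2 : ∀ i, g (Sum.inr i) = 0 := by
      apply hli
      have h3 := congrArg Λ hg
      rw [map_add, map_sum, map_sum, map_zero] at h3
      rw [Finset.sum_eq_zero fun a _ => ?_, zero_add] at h3
      · rw [← h3]
        exact Finset.sum_congr rfl fun i _ => by rw [map_smul]
      · rw [map_smul, LinearMap.mem_ker.mp (K a).2, smul_zero]
    have h4 : ∑ a, g (Sum.inl a) • K a = 0 := by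
      apply Subtype.ext
      rw [AddSubmonoidClass.coe_finsetSum, Submodule.coe_zero, ← hg]
      rw [Finset.sum_eq_zero fun i (_ : i ∈ Finset.univ) => show g (Sum.inr i) • u i = 0 by
        rw [h2 i, zero_smul], add_zero]
      rfl
    have h5 := Fintype.linearIndependent_iff.mp K.linearIndependent _ h4
    rintro (a | i)
    · exact h5 a
    · exact h2 i
  have h6 : ⊤ ≤ Submodule.span (ZMod 3) (Set.range F) := by
    intro x _
    obtain ⟨g, hg⟩ := hsp x
    have h7 : x - ∑ i, g i • u i ∈ LinearMap.ker Λ := by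
      rw [LinearMap.mem_ker, map_sub, map_sum, hg, sub_eq_zero]
      exact Finset.sum_congr rfl fun i _ => by rw [map_smul]
    have h8 : x - ∑ i, g i • u i = ∑ a, K.repr ⟨_, h7⟩ a • ((K a : LinearMap.ker Λ) : S) := by
      have h9 := congrArg (fun z : LinearMap.ker Λ => (z : S)) (K.sum_repr ⟨_, h7⟩)
      simp only [AddSubmonoidClass.coe_finsetSum] at h9
      exact h9.symm
    have h10 : x = ∑ a, K.repr ⟨_, h7⟩ a • ((K a : LinearMap.ker Λ) : S) + ∑ i, g i • u i := by
      rw [← h8, sub_add_cancel]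
    rw [h10]
    refine add_mem (sum_mem fun a _ => Submodule.smul_mem _ _ ?_)
      (sum_mem fun i _ => Submodule.smul_mem _ _ ?_)
    · exact Submodule.subset_span ⟨Sum.inl a, rfl⟩
    · exact Submodule.subset_span ⟨Sum.inr i, rfl⟩
  let b := Module.Basis.mk h1 h6
  have hc : Fintype.card (Fin (Module.finrank (ZMod 3) (LinearMap.ker Λ)) ⊕ Fin c) =
      Module.finrank (ZMod 3) S := (Module.finrank_eq_card_basis b).symm
  let e := Fintype.equivFinOfCardEq hc
  refine ⟨e.symm, b.reindex e, fun i => ?_⟩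
  rw [Module.Basis.reindex_apply]
  exact congrFun (Module.Basis.coe_mk h1 h6) _

theorem pair_or : ∀ p q : ZMod 3 × ZMod 3, p ≠ 0 →
    (∃ t : ZMod 3, q = t • p) ∨ ∀ w : ZMod 3 × ZMod 3, ∃ s t : ZMod 3, w = s • p + t • q := by
  rintro ⟨a, b⟩ ⟨c, d⟩ hp
  have hF : Fact (Nat.Prime 3) := ⟨Nat.prime_three⟩
  by_cases hd : a * d - b * c = 0
  · left
    by_cases ha : a = 0
    · subst ha
      have hb : b ≠ 0 := by
        rintro rfl
        exact hp rfl
      have hc : c = 0 := by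
        have : b * c = 0 := by linear_combination -hd
        exact (mul_eq_zero.mp this).resolve_left hb
      subst hc
      refine ⟨d / b, Prod.ext ?_ ?_⟩
      · simp
      · simp only [Prod.smul_mk, smul_eq_mul]
        field_simp
    · refine ⟨c / a, Prod.ext ?_ ?_⟩
      · simp only [Prod.smul_mk, smul_eq_mul]
        field_simp
      · simp only [Prod.smul_mk, smul_eq_mul]
        field_simp
        linear_combination hd
  · right
    have hd' : a * d - b * c ≠ 0 := hd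
    rintro ⟨x, y⟩
    refine ⟨(x * d - y * c) / (a * d - b * c), (a * y - b * x) / (a * d - b * c),
      Prod.ext ?_ ?_⟩
    · simp only [Prod.smul_mk, Prod.mk_add_mk, smul_eq_mul]
      rw [div_mul_eq_mul_div, div_mul_eq_mul_div, ← add_div, eq_div_iff hd']
      ring
    · simp only [Prod.smul_mk, Prod.mk_add_mk, smul_eq_mul]
      rw [div_mul_eq_mul_div, div_mul_eq_mul_div, ← add_div, eq_div_iff hd']
      ring

theorem dec_one : ((1 : ℕ) : ZMod 3) ≠ 0 := by decide

theorem dec_two : ((2 : ℕ) : ZMod 3) ≠ 0 := by decide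

theorem dec_a : ∀ a : ZMod 3, a = 2 * a * ((2 : ℕ) : ZMod 3) := by decide

theorem dec_b : ∀ a b : ZMod 3, a + b = 0 → a = 2 * b := by decide

/-- The properties of an adapted basis. -/
structure Adp {M : Type} [AddCommGroup M] [Module (ZMod 3) M]
    (Λ : M →ₗ[ZMod 3] (ZMod 3 × ZMod 3)) (w : ZMod 3 × ZMod 3) {s : ℕ} (τ : Fin s → Fin 3)
    (b : Fin s → M) : Prop where
  a0 : ∀ i, τ i = 0 → Λ (b i) = 0
  a1 : ∀ i, τ i = 1 → Λ (b i) = w
  a2 : ∀ i, τ i = 2 → Λ (b i) ≠ 0 ∧ ¬ ∃ t : ZMod 3, Λ (b i) = t • w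
  inj : ∀ i j, τ i = τ j → τ i ≠ 0 → i = j
  one : ∀ i j, i ≠ j → (Λ (b i)).1 = 0 ∨ (Λ (b j)).1 = 0

theorem adapted_aux {S : Type} [AddCommGroup S] [Module (ZMod 3) S] [Module.Finite (ZMod 3) S]
    (Λ : S →ₗ[ZMod 3] (ZMod 3 × ZMod 3)) (w : ZMod 3 × ZMod 3) {c : ℕ} (u : Fin c → S)
    (τ : Fin c → Fin 3) (ht : ∀ i, τ i ≠ 0) (hA : Adp Λ w τ u)
    (hli : ∀ g : Fin c → ZMod 3, ∑ i, g i • Λ (u i) = 0 → ∀ i, g i = 0)
    (hsp : ∀ x, ∃ g : Fin c → ZMod 3, Λ x = ∑ i, g i • Λ (u i)) :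
    ∃ (τ : Fin (Module.finrank (ZMod 3) S) → Fin 3)
      (b : Module.Basis (Fin (Module.finrank (ZMod 3) S)) (ZMod 3) S), Adp Λ w τ b := by
  obtain ⟨e, b, hb⟩ := glue Λ u hli hsp
  have hl : ∀ i a, e i = Sum.inl a → Λ (b i) = 0 := by
    intro i a hi
    rw [hb, hi, Sum.elim_inl]
    exact LinearMap.mem_ker.mp (Subtype.prop _)
  have hr : ∀ i j, e i = Sum.inr j → Λ (b i) = Λ (u j) := by
    intro i j hi
    rw [hb, hi, Sum.elim_inr]
  refine ⟨fun i => Sum.elim (fun _ => 0) τ (e i), b, ?_, ?_, ?_, ?_, ?_⟩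
  · intro i hi
    rcases hei : e i with a | j
    · exact hl i a hei
    · simp only [hei, Sum.elim_inr] at hi
      exact absurd hi (ht j)
  · intro i hi
    rcases hei : e i with a | j
    · simp only [hei, Sum.elim_inl] at hi
      exact absurd hi (by decide)
    · simp only [hei, Sum.elim_inr] at hi
      rw [hr i j hei]
      exact hA.a1 j hi
  · intro i hi
    rcases hei : e i with a | j
    · simp only [hei, Sum.elim_inl] at hi
      exact absurd hi (by decide)
    · simp only [hei, Sum.elim_inr] at hi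
      rw [hr i j hei]
      exact hA.a2 j hi
  · intro i i' hii hi
    rcases hei : e i with a | j
    · simp only [hei, Sum.elim_inl] at hi
      exact absurd rfl hi
    · rcases hei' : e i' with a' | j'
      · simp only [hei, hei', Sum.elim_inl, Sum.elim_inr] at hii
        exact absurd hii (ht j)
      · simp only [hei, hei', Sum.elim_inr] at hii
        have := hA.inj j j' hii (ht j)
        apply e.injective
        rw [hei, hei', this]
  · intro i i' hii
    rcases hei : e i with a | j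
    · left
      rw [hl i a hei]
      rfl
    · rcases hei' : e i' with a' | j'
      · right
        rw [hl i' a' hei']
        rfl
      · rw [hr i j hei, hr i' j' hei']
        apply hA.one
        rintro rfl
        apply hii
        apply e.injective
        rw [hei, hei']

/-- A basis of a space with two linear forms, adapted to a vector `w`. -/
theorem adapted {S : Type} [AddCommGroup S] [Module (ZMod 3) S] [Module.Finite (ZMod 3) S]
    (Λ : S →ₗ[ZMod 3] (ZMod 3 × ZMod 3)) (w : ZMod 3 × ZMod 3) (hw : w.1 ≠ 0) :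
    ∃ (τ : Fin (Module.finrank (ZMod 3) S) → Fin 3)
      (b : Module.Basis (Fin (Module.finrank (ZMod 3) S)) (ZMod 3) S), Adp Λ w τ b := by
  have hF : Fact (Nat.Prime 3) := ⟨Nat.prime_three⟩
  have hw0 : w ≠ 0 := by
    rintro rfl
    exact hw rfl
  by_cases h0 : ∀ x, Λ x = 0
  · -- all types are `0`
    refine adapted_aux Λ w (c := 0) (fun i => i.elim0) (fun i => i.elim0) (fun i => i.elim0)
      ⟨fun i => i.elim0, fun i => i.elim0, fun i => i.elim0, fun i => i.elim0, fun i => i.elim0⟩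
      (fun g _ i => i.elim0) (fun x => ⟨fun i => i.elim0, ?_⟩)
    rw [h0 x]
    simp
  push Not at h0
  obtain ⟨x₀, hx₀⟩ := h0
  by_cases h1 : ∃ u₁, Λ u₁ = w
  · obtain ⟨u₁, hu₁⟩ := h1
    by_cases h2 : ∀ x, ∃ t : ZMod 3, Λ x = t • w
    · refine adapted_aux Λ w (c := 1) (fun _ => u₁) (fun _ => 1) (fun _ => by decide)
        ⟨fun i hi => absurd hi (by decide), fun _ _ => hu₁, fun i hi => absurd hi (by decide),
          fun i j _ _ => Subsingleton.elim i j, fun i j hij => absurd (Subsingleton.elim i j) hij⟩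
        (fun g hg i => ?_) (fun x => ?_)
      · rw [Fin.sum_univ_one, hu₁] at hg
        have h3 : g 0 * w.1 = 0 := congrArg Prod.fst hg
        rw [Subsingleton.elim i 0]
        exact (mul_eq_zero.mp h3).resolve_right hw
      · obtain ⟨t, ht⟩ := h2 x
        refine ⟨fun _ => t, ?_⟩
        rw [Fin.sum_univ_one, hu₁, ht]
    · push Not at h2
      obtain ⟨x, hx⟩ := h2
      obtain ⟨u₂, hu₂⟩ : ∃ u₂, Λ u₂ = (0, 1) := by
        rcases pair_or w (Λ x) hw0 with ⟨t, ht⟩ | h3
        · exact absurd ht (hx t)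
        · obtain ⟨s, t, hst⟩ := h3 (0, 1)
          refine ⟨s • u₁ + t • x, ?_⟩
          rw [map_add, map_smul, map_smul, hu₁, ← hst]
      have hv : ∀ i : Fin 2, Λ ((![u₁, u₂] : Fin 2 → S) i) = (![w, (0, 1)] : Fin 2 → _) i := by
        intro i
        fin_cases i
        · exact hu₁
        · exact hu₂
      refine adapted_aux Λ w (c := 2) ![u₁, u₂] ![1, 2] (fun i => ?_)
        ⟨fun i hi => ?_, fun i hi => ?_, fun i hi => ?_, fun i j hij _ => ?_, fun i j hij => ?_⟩
        (fun g hg => ?_) (fun y => ?_)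
      · fin_cases i <;> decide
      · fin_cases i
        · exact absurd hi (by decide)
        · exact absurd hi (by decide)
      · fin_cases i
        · exact hu₁
        · exact absurd hi (by decide)
      · fin_cases i
        · exact absurd hi (by decide)
        · change Λ u₂ ≠ 0 ∧ ¬ ∃ t : ZMod 3, Λ u₂ = t • w
          rw [hu₂]
          refine ⟨fun h3 => one_ne_zero (congrArg Prod.snd h3), ?_⟩
          rintro ⟨t, ht⟩
          have h4 : (0 : ZMod 3) = t * w.1 := congrArg Prod.fst ht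
          have h5 : (1 : ZMod 3) = t * w.2 := congrArg Prod.snd ht
          have h6 : t = 0 := (mul_eq_zero.mp h4.symm).resolve_right hw
          rw [h6, zero_mul] at h5
          exact one_ne_zero h5
      · fin_cases i <;> fin_cases j
        · rfl
        · exact absurd hij (by decide)
        · exact absurd hij (by decide)
        · rfl
      · fin_cases i <;> fin_cases j
        · exact absurd rfl hij
        · right
          change (Λ u₂).1 = 0
          rw [hu₂]
        · left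
          change (Λ u₂).1 = 0
          rw [hu₂]
        · exact absurd rfl hij
      · rw [Fin.sum_univ_two] at hg
        change g 0 • Λ u₁ + g 1 • Λ u₂ = 0 at hg
        rw [hu₁, hu₂] at hg
        have h3 : g 0 * w.1 + g 1 * 0 = 0 := congrArg Prod.fst hg
        have h4 : g 0 * w.2 + g 1 * 1 = 0 := congrArg Prod.snd hg
        have h5 : g 0 = 0 := by
          rw [mul_zero, add_zero] at h3
          exact (mul_eq_zero.mp h3).resolve_right hw
        rw [h5, zero_mul, zero_add, mul_one] at h4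
        intro i
        fin_cases i
        · exact h5
        · exact h4
      · have h3 : ¬ ∃ t : ZMod 3, ((0, 1) : ZMod 3 × ZMod 3) = t • w := by
          rintro ⟨t, ht⟩
          have h4 : (0 : ZMod 3) = t * w.1 := congrArg Prod.fst ht
          have h5 : (1 : ZMod 3) = t * w.2 := congrArg Prod.snd ht
          have h6 : t = 0 := (mul_eq_zero.mp h4.symm).resolve_right hw
          rw [h6, zero_mul] at h5
          exact one_ne_zero h5
        obtain ⟨s, t, hst⟩ := ((pair_or w (0, 1) hw0).resolve_left h3) (Λ y)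
        refine ⟨![s, t], ?_⟩
        rw [Fin.sum_univ_two]
        change Λ y = s • Λ u₁ + t • Λ u₂
        rw [hu₁, hu₂, hst]
  · -- one vector of type `2`
    have h2 : ∀ x, ∃ t : ZMod 3, Λ x = t • Λ x₀ := by
      intro x
      rcases pair_or (Λ x₀) (Λ x) hx₀ with h3 | h3
      · exact h3
      · obtain ⟨s, t, hst⟩ := h3 w
        exact absurd ⟨s • x₀ + t • x, by rw [map_add, map_smul, map_smul, hst]⟩ h1
    refine adapted_aux Λ w (c := 1) (fun _ => x₀) (fun _ => 2) (fun _ => by decide)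
      ⟨fun i hi => absurd hi (by decide), fun i hi => absurd hi (by decide), fun _ _ => ⟨hx₀, ?_⟩,
        fun i j _ _ => Subsingleton.elim i j, fun i j hij => absurd (Subsingleton.elim i j) hij⟩
      (fun g hg i => ?_) (fun x => ?_)
    · rintro ⟨t, ht⟩
      have ht0 : t ≠ 0 := by
        rintro rfl
        rw [zero_smul] at ht
        exact hx₀ ht
      apply h1
      refine ⟨t⁻¹ • x₀, ?_⟩
      rw [map_smul, ht, smul_smul, inv_mul_cancel₀ ht0, one_smul]
    · rw [Fin.sum_univ_one] at hg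
      rw [Subsingleton.elim i 0]
      exact (smul_eq_zero.mp hg).resolve_right hx₀
    · obtain ⟨t, ht⟩ := h2 x
      refine ⟨fun _ => t, ?_⟩
      rw [Fin.sum_univ_one, ht]

/-! ### Exponent vectors -/

/-- Exponent vectors modulo `3`, with the exponent of `3`. -/
abbrev EVT (m k : ℕ) : Type := ZMod 3 × EV m k

/-- The conditions at the split primes. -/
noncomputable def LmT (h n : ℕ) {m k : ℕ} (π : Fin m → PP) (p e : Fin m → ℕ) (r : Fin k → ℕ)
    (c : Fin m → ZMod 3) : EVT m k →ₗ[ZMod 3] (Fin m → ZMod 3) where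
  toFun v i := (e i : ZMod 3) * (v.1 * sym (π i).1 3) + Lm (3 ^ h * n) π p e r c v.2 i
  map_add' := by
    intro v v'
    funext i
    simp only [Prod.fst_add, Prod.snd_add, map_add, Pi.add_apply]
    ring
  map_smul' := by
    intro t v
    funext i
    simp only [Prod.smul_fst, Prod.smul_snd, map_smul, Pi.smul_apply, smul_eq_mul,
      RingHom.id_apply]
    ring

/-- The condition at `lam`, `h = 2`. -/
noncomputable def WmT (n : ℕ) {m k : ℕ} (p : Fin m → ℕ) (r : Fin k → ℕ) (w0 : ZMod 3) :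
    EVT m k →ₗ[ZMod 3] ZMod 3 where
  toFun v := Wm p r v.2 + v.1 * (wt ((n : ℤ) ^ 2) + w0)
  map_add' := by
    intro v v'
    simp only [Prod.fst_add, Prod.snd_add, map_add]
    ring
  map_smul' := by
    intro t v
    simp only [Prod.smul_fst, Prod.smul_snd, map_smul, smul_eq_mul, RingHom.id_apply]
    ring

/-- The pair `(lv, lw)` in terms of exponents. -/
noncomputable def LaT {m k : ℕ} (p : Fin m → ℕ) (r : Fin k → ℕ) :
    EVT m k →ₗ[ZMod 3] (ZMod 3 × ZMod 3) where
  toFun v := (v.1, Wm p r v.2)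
  map_add' := by
    intro v v'
    simp only [Prod.fst_add, Prod.snd_add, map_add, Prod.mk_add_mk]
  map_smul' := by
    intro t v
    simp only [Prod.smul_fst, Prod.smul_snd, map_smul, RingHom.id_apply, Prod.smul_mk]

theorem sum_zero {m k : ℕ} (π : Fin m → PP) (r : Fin k → ℕ) (i : Fin m) :
    ∑ j, (0 : Fin k → ZMod 3) j * sym (π i).1 (r j : Eis) = 0 :=
  Finset.sum_eq_zero fun j _ => by rw [Pi.zero_apply, zero_mul]

theorem rowT (h n : ℕ) {m k : ℕ} (π : Fin m → PP) (p e : Fin m → ℕ) (r : Fin k → ℕ)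
    (w0 : ZMod 3) (c : Fin m → ZMod 3) (u : Fin (m + 1) → ZMod 3) (i : Fin m) :
    LmT h n π p e r c (u 0, ((fun i => u i.succ), (0 : Fin k → ZMod 3))) i =
      ∑ b, Mt h n π p e w0 c i.succ b * u b := by
  change (e i : ZMod 3) * (u 0 * sym (π i).1 3) +
    Lm (3 ^ h * n) π p e r c ((fun i => u i.succ), (0 : Fin k → ZMod 3)) i = _
  rw [row, Fin.sum_univ_succ]
  have h1 : ∑ j, (((fun i : Fin m => u i.succ), (0 : Fin k → ZMod 3)) : EV m k).2 j *
      sym (π i).1 (r j : Eis) = 0 := sum_zero π r i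
  rw [h1, mul_zero, add_zero]
  have h2 : Mt h n π p e w0 c i.succ 0 = (e i : ZMod 3) * sym (π i).1 3 := rfl
  rw [h2]
  have h3 : (e i : ZMod 3) * (u 0 * sym (π i).1 3) = (e i : ZMod 3) * sym (π i).1 3 * u 0 := by
    ring
  rw [h3]
  rfl

theorem surj_one (n : ℕ) {m k : ℕ} (π : Fin m → PP) (p e : Fin m → ℕ) (r : Fin k → ℕ)
    (w0 : ZMod 3) (c : Fin m → ZMod 3) (hdet : (Mt 1 n π p e w0 c).det ≠ 0) :
    Function.Surjective (LmT 1 n π p e r c : EVT m k →ₗ[ZMod 3] (Fin m → ZMod 3)) := by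
  intro v
  obtain ⟨u, hu⟩ := solve _ hdet (Fin.cons 0 v)
  refine ⟨(u 0, ((fun i => u i.succ), 0)), ?_⟩
  funext i
  rw [rowT 1 n π p e r w0 c u i, hu i.succ, Fin.cons_succ]

theorem surj_two (n : ℕ) {m k : ℕ} (π : Fin m → PP) (p e : Fin m → ℕ) (r : Fin k → ℕ)
    (w0 : ZMod 3) (c : Fin m → ZMod 3) (hdet : (Mt 2 n π p e w0 c).det ≠ 0) :
    Function.Surjective ((WmT n p r w0).prod (LmT 2 n π p e r c) :
      EVT m k →ₗ[ZMod 3] (ZMod 3 × (Fin m → ZMod 3))) := by
  rintro ⟨t, v⟩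
  obtain ⟨u, hu⟩ := solve _ hdet (Fin.cons t v)
  refine ⟨(u 0, ((fun i => u i.succ), 0)), Prod.ext ?_ ?_⟩
  · have h1 := hu 0
    rw [Fin.sum_univ_succ, Fin.cons_zero] at h1
    change ((∑ i, u (Fin.succ i) * wt ((p i : ℤ) ^ 2)) +
      ∑ j, (0 : Fin k → ZMod 3) j * wt ((r j : ℤ) ^ 2)) + u 0 * (wt ((n : ℤ) ^ 2) + w0) = t
    rw [Finset.sum_eq_zero fun j (_ : j ∈ (Finset.univ : Finset (Fin k))) =>
      show (0 : Fin k → ZMod 3) j * wt ((r j : ℤ) ^ 2) = 0 by rw [Pi.zero_apply, zero_mul],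
      add_zero, ← h1]
    have h2 : Mt 2 n π p e w0 c 0 0 = wt ((n : ℤ) ^ 2) + w0 := by
      change (if 2 = 2 then wt ((n : ℤ) ^ 2) + w0 else 1) = _
      rw [if_pos rfl]
    have h3 : ∀ i : Fin m, Mt 2 n π p e w0 c 0 i.succ = wt ((p i : ℤ) ^ 2) := by
      intro i
      change (if 2 = 2 then wt ((p i : ℤ) ^ 2) else 0) = _
      rw [if_pos rfl]
    rw [h2, add_comm]
    congr 1
    · exact mul_comm _ _
    · exact Finset.sum_congr rfl fun i _ => by rw [h3 i, mul_comm]
  · change LmT 2 n π p e r c (u 0, ((fun i => u i.succ), 0)) = v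
    funext i
    rw [rowT 2 n π p e r w0 c u i, hu i.succ, Fin.cons_succ]

/-- The space of admissible exponent vectors. -/
theorem exists_spaceT (h n : ℕ) {m k : ℕ} (π : Fin m → PP) (p e : Fin m → ℕ) (r : Fin k → ℕ)
    (w0 : ZMod 3) (c : Fin m → ZMod 3) (h12 : h = 1 ∨ h = 2)
    (hdet : (Mt h n π p e w0 c).det ≠ 0) :
    ∃ S : Submodule (ZMod 3) (EVT m k), Module.finrank (ZMod 3) S + h = k + 2 ∧
      ∀ v : EVT m k, v ∈ S ↔ (∀ i, LmT h n π p e r c v i = 0) ∧ (h = 2 → WmT n p r w0 v = 0) := by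
  rcases h12 with rfl | rfl
  · refine ⟨LinearMap.ker (LmT 1 n π p e r c), ?_, fun v => ?_⟩
    · have h1 := LinearMap.finrank_range_add_finrank_ker
        (LmT 1 n π p e r c : EVT m k →ₗ[ZMod 3] (Fin m → ZMod 3))
      rw [LinearMap.range_eq_top.mpr (surj_one n π p e r w0 c hdet), finrank_top] at h1
      simp only [Module.finrank_prod, Module.finrank_fintype_fun_eq_card, Fintype.card_fin,
        Module.finrank_self] at h1
      omega
    · rw [LinearMap.mem_ker, funext_iff]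
      exact ⟨fun h3 => ⟨h3, fun h4 => absurd h4 (by decide)⟩, fun h3 => h3.1⟩
  · refine ⟨LinearMap.ker ((WmT n p r w0).prod (LmT 2 n π p e r c)), ?_, fun v => ?_⟩
    · have h1 := LinearMap.finrank_range_add_finrank_ker
        ((WmT n p r w0).prod (LmT 2 n π p e r c) :
          EVT m k →ₗ[ZMod 3] (ZMod 3 × (Fin m → ZMod 3)))
      rw [LinearMap.range_eq_top.mpr (surj_two n π p e r w0 c hdet), finrank_top] at h1
      simp only [Module.finrank_prod, Module.finrank_fintype_fun_eq_card, Fintype.card_fin,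
        Module.finrank_self] at h1
      omega
    · rw [LinearMap.mem_ker]
      change (WmT n p r w0 v, LmT 2 n π p e r c v) = 0 ↔ _
      rw [Prod.mk_eq_zero, funext_iff]
      exact ⟨fun h3 => ⟨h3.2, fun _ => h3.1⟩, fun h3 => ⟨h3.2 rfl, h3.1⟩⟩

/-! ### From exponent vectors to integers -/

/-- The number with given exponents. -/
noncomputable def toT {m k : ℕ} (p : Fin m → ℕ) (r : Fin k → ℕ) (v : EVT m k) : ℤ :=
  ((3 ^ v.1.val * toN p r v.2 : ℕ) : ℤ)

/-- The exponent vector of an integer. -/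
noncomputable def evT {m k : ℕ} (p : Fin m → ℕ) (r : Fin k → ℕ) (x : ℤ) : EVT m k :=
  (lv x, ev p r x)

section

variable {h n m k : ℕ} {π : Fin m → PP} {p e : Fin m → ℕ} {r f : Fin k → ℕ}

theorem toT_ne (hN : NF n π p e r f) (v : EVT m k) : toT p r v ≠ 0 := by
  have h1 : (3 ^ v.1.val * toN p r v.2 : ℕ) ≠ 0 :=
    mul_ne_zero (pow_ne_zero _ (by norm_num)) (toN_ne hN v.2)
  rw [toT]
  exact_mod_cast h1

theorem padic_toT (hN : NF n π p e r f) (v : EVT m k) (l : ℕ) (hl : l.Prime) :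
    padicValInt l (toT p r v) =
      (if l = 3 then v.1.val else 0) + padicValNat l (toN p r v.2) := by
  have hl' : Fact l.Prime := ⟨hl⟩
  have h3 : Fact (Nat.Prime 3) := ⟨Nat.prime_three⟩
  rw [toT, padicValInt.of_nat, padicValNat.mul (pow_ne_zero _ (by norm_num)) (toN_ne hN v.2),
    padicValNat.pow _ _]
  congr 1
  split_ifs with h1
  · subst h1
    rw [padicValNat_self, mul_one]
  · rw [padicValNat_primes h1, mul_zero]

theorem three_toN' (hN : NF n π p e r f) (v : EV m k) : padicValNat 3 (toN p r v) = 0 := by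
  apply padicValNat.eq_zero_of_not_dvd
  intro hd
  exact three_toN hN v (by exact_mod_cast hd)

theorem p_ne (hN : NF n π p e r f) (i : Fin m) : p i ≠ 3 := by
  intro h1
  have := hN.p1 i
  rw [h1] at this
  omega

theorem r_ne (hN : NF n π p e r f) (j : Fin k) : r j ≠ 3 := by
  intro h1
  have := hN.r2 j
  rw [h1] at this
  omega

theorem evT_toT (hN : NF n π p e r f) (v : EVT m k) : evT p r (toT p r v) = v := by
  refine Prod.ext ?_ (Prod.ext ?_ ?_)
  · change ((padicValInt 3 (toT p r v) : ℕ) : ZMod 3) = v.1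
    rw [padic_toT hN v 3 Nat.prime_three, if_pos rfl, three_toN' hN, add_zero,
      ZMod.natCast_zmod_val]
  · funext i
    change ((padicValInt (p i) (toT p r v) : ℕ) : ZMod 3) = v.2.1 i
    rw [padic_toT hN v _ (hN.pp i), if_neg (p_ne hN i), zero_add, val_p hN,
      ZMod.natCast_zmod_val]
  · funext j
    change ((padicValInt (r j) (toT p r v) : ℕ) : ZMod 3) = v.2.2 j
    rw [padic_toT hN v _ (hN.rp j), if_neg (r_ne hN j), zero_add, val_r hN,
      ZMod.natCast_zmod_val]

theorem padic_toT_le (hN : NF n π p e r f) (v : EVT m k) (l : ℕ) (hl : l.Prime) :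
    padicValInt l (toT p r v) ≤ 2 := by
  rw [padic_toT hN v l hl]
  split_ifs with h1
  · subst h1
    rw [three_toN' hN, add_zero]
    exact zval_le _
  · rw [zero_add]
    exact val_le hN _ l hl

theorem V_toT_le (hSPP : SPP) (hN : NF n π p e r f) (v : EVT m k) (π' : PP) :
    V π'.1 (toT p r v : Eis) ≤ 2 := by
  obtain ⟨l, hl, hle⟩ := V_le hSPP π' (toT_ne hN v)
  exact hle.trans (padic_toT_le hN v l hl)

theorem supp_toT (hN : NF n π p e r f) (v : EVT m k) (l : ℕ) (hl : l.Prime)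
    (hd : (l : ℤ) ∣ toT p r v) : l ∣ 3 * n := by
  rw [toT] at hd
  have h1 : l ∣ 3 ^ v.1.val * toN p r v.2 := Int.natCast_dvd_natCast.mp hd
  rcases hl.dvd_mul.mp h1 with h2 | h2
  · have h3 := hl.dvd_of_dvd_pow h2
    exact Dvd.dvd.mul_right h3 _
  · exact Dvd.dvd.mul_left (supp_toN hN v.2 l hl (Int.natCast_dvd_natCast.mpr h2)) _

theorem three_toT (hN : NF n π p e r f) (v : EVT m k) (hv : v.1 = 0) :
    ¬ (3 : ℤ) ∣ toT p r v := by
  have h1 : toT p r v = (toN p r v.2 : ℤ) := by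
    rw [toT, hv]
    simp
  rw [h1]
  exact three_toN hN v.2

theorem evT_prod (hN : NF n π p e r f) {s : ℕ} (x : Fin s → ℤ) (hx : ∀ i, x i ≠ 0)
    (g : Fin s → ℕ) : evT p r (∏ i, x i ^ g i) = ∑ i, (g i : ZMod 3) • evT p r (x i) := by
  refine Prod.ext ?_ ?_
  · rw [Prod.fst_sum]
    change ((padicValInt 3 (∏ i, x i ^ g i) : ℕ) : ZMod 3) =
      ∑ i, (g i : ZMod 3) * (padicValInt 3 (x i) : ZMod 3)
    rw [padicInt_prod 3 Nat.prime_three _ _ fun i => pow_ne_zero _ (hx i), Nat.cast_sum]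
    refine Finset.sum_congr rfl fun i _ => ?_
    rw [padicInt_pow 3 Nat.prime_three (hx i), Nat.cast_mul]
  · rw [Prod.snd_sum]
    exact ev_prod hN x hx g

theorem evT_cube (hN : NF n π p e r f) (t : ℤ) (ht : t ≠ 0) : evT p r (t ^ 3) = 0 := by
  have h3 : ((3 : ℕ) : ZMod 3) = 0 := ZMod.natCast_self 3
  refine Prod.ext ?_ (ev_cube hN t ht)
  change ((padicValInt 3 (t ^ 3) : ℕ) : ZMod 3) = 0
  rw [padicInt_pow _ Nat.prime_three ht, Nat.cast_mul, h3, zero_mul]

/-- Admissible classes in terms of exponent vectors. -/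
theorem adC_iff (hEVET : EVET) (hN : NF n π p e r f) (w0 : ZMod 3) (c : Fin m → ZMod 3)
    (S : Submodule (ZMod 3) (EVT m k))
    (hS : ∀ v : EVT m k, v ∈ S ↔
      (∀ i, LmT h n π p e r c v i = 0) ∧ (h = 2 → WmT n p r w0 v = 0))
    (x : ℤ) (h1 : x ≠ 0) (h2 : ∀ l : ℕ, l.Prime → (l : ℤ) ∣ x → l ∣ 3 * n) :
    AdC h n π w0 c x ↔ evT p r x ∈ S := by
  obtain ⟨hE1, -⟩ := hEVET h n m k π p e r f w0 c hN
  rw [(hE1 x h1 h2).1, hS]
  refine and_congr (forall_congr' fun i => ?_) (forall_congr' fun _ => ?_)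
  · change _ ↔ (e i : ZMod 3) * (lv x * sym (π i).1 3) +
      ((e i : ZMod 3) * (∑ i', (padicValInt (p i') x : ZMod 3) *
          (if i' = i then sym (π i).1 (conj (π i).1) else sym (π i).1 (p i' : Eis))) +
        (e i : ZMod 3) * (∑ j, (padicValInt (r j) x : ZMod 3) * sym (π i).1 (r j : Eis)) -
        (padicValInt (p i) x : ZMod 3) * (ch (π i).1 ((3 ^ h * n : ℕ) : Eis) + c i)) = 0
    rw [← add_sub_assoc, ← add_assoc]
  · exact Iff.rfl

theorem lw_toT (hEVET : EVET) (hN : NF n π p e r f) (h : ℕ) (w0 : ZMod 3) (c : Fin m → ZMod 3)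
    (v : EVT m k) : lw (toT p r v) = Wm p r v.2 := by
  obtain ⟨hE1, -⟩ := hEVET h n m k π p e r f w0 c hN
  rw [(hE1 _ (toT_ne hN v) (supp_toT hN v)).2]
  change Wm p r (evT p r (toT p r v)).2 = _
  rw [evT_toT hN]

theorem lv_toT (hN : NF n π p e r f) (v : EVT m k) : lv (toT p r v) = v.1 :=
  congrArg Prod.fst (evT_toT hN v)

/-- The adapted basis of a space of exponent vectors. -/
theorem core (hEVET : EVET) (hLPT : LPT) (hLCL : LCL) (hN : NF n π p e r f)
    (h12 : h = 1 ∨ h = 2) (w0 : ZMod 3) (c : Fin m → ZMod 3)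
    (T : Submodule (ZMod 3) (EVT m k)) (hT : h = 2 → ∀ v ∈ T, WmT n p r w0 v = 0) :
    ∃ (τ : Fin (Module.finrank (ZMod 3) T) → Fin 3)
      (u : Module.Basis (Fin (Module.finrank (ZMod 3) T)) (ZMod 3) T)
      (X Y : Fin (Module.finrank (ZMod 3) T) → ℤ),
      (∀ i j, i ≠ j → (u i : EVT m k).1 = 0 ∨ (u j : EVT m k).1 = 0) ∧
      ∀ B : ℤ, TyB h n w0 B → LamS B τ (fun i => toT p r (u i : EVT m k)) X Y := by
  have hF : Fact (Nat.Prime 3) := ⟨Nat.prime_three⟩
  set β : ZMod 3 := wt ((n : ℤ) ^ 2) + w0 with hβ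
  have hh : (h : ZMod 3) ≠ 0 := by
    rcases h12 with rfl | rfl
    · exact dec_one
    · exact dec_two
  obtain ⟨τ, u, hA⟩ := adapted ((LaT p r).comp T.subtype) ((h : ZMod 3), β) hh
  have hLa : ∀ i, ((LaT p r).comp T.subtype) (u i) =
      (lv (toT p r (u i : EVT m k)), lw (toT p r (u i : EVT m k))) := by
    intro i
    rw [lv_toT hN, lw_toT hEVET hN h w0 c]
    rfl
  have hLC : ∀ i, LC lam (toT p r (u i : EVT m k)) ↔
      lv (toT p r (u i : EVT m k)) = 0 ∧ lw (toT p r (u i : EVT m k)) = 0 := fun i =>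
    hLCL.1 _ (toT_ne hN _)
  have hXY : ∀ i, ∃ X Y : ℤ, (τ i = 1 → X = 1 ∧ Y = 0) ∧
      (τ i = 2 → X ≠ 0 ∧ Y ≠ 0 ∧ X ^ 3 + toT p r (u i : EVT m k) * Y ^ 3 ≠ 0 ∧
        lv (toT p r (u i : EVT m k) * (X ^ 3 + toT p r (u i : EVT m k) * Y ^ 3)) = 1 ∧
        lw (toT p r (u i : EVT m k) * (X ^ 3 + toT p r (u i : EVT m k) * Y ^ 3)) = β) := by
    intro i
    by_cases h2 : τ i = 2
    · have h3 : ¬ (lv (toT p r (u i : EVT m k)) = 0 ∧ lw (toT p r (u i : EVT m k)) = 0) := by
        rintro ⟨h4, h5⟩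
        apply (hA.a2 i h2).1
        rw [hLa i, h4, h5]
        rfl
      obtain ⟨X, Y, hXY⟩ := hLPT _ β (toT_ne hN (u i : EVT m k)) h3
      refine ⟨X, Y, fun h4 => ?_, fun _ => hXY⟩
      rw [h2] at h4
      exact absurd h4 (by decide)
    · exact ⟨1, 0, fun _ => ⟨rfl, rfl⟩, fun h3 => absurd h3 h2⟩
  choose X Y hX1 hX2 using hXY
  refine ⟨τ, u, X, Y, hA.one, fun B hB => ⟨fun i hi => ?_, fun i hi => ?_, fun i hi => ?_,
    hA.inj⟩⟩
  · have h1 := hA.a0 i hi
    rw [hLa i, Prod.mk_eq_zero] at h1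
    exact (hLC i).mpr h1
  · have h1 := hA.a1 i hi
    rw [hLa i, Prod.mk.injEq] at h1
    obtain ⟨-, hB1, hB2⟩ := hB
    refine ⟨fun h2 => ?_, ?_, ?_, (hX1 i hi).1, (hX1 i hi).2⟩
    · have h3 := ((hLC i).mp h2).1
      rw [h1.1] at h3
      exact hh h3
    · rw [hB1]
      exact h1.1
    · rw [hB2]
      exact h1.2
  · obtain ⟨-, hB1, hB2⟩ := hB
    have h1 := hA.a2 i hi
    have h2 : h ≠ 2 := by
      intro h2
      apply h1.2
      have h3 : Wm p r (u i : EVT m k).2 + (u i : EVT m k).1 * β = 0 := hT h2 _ (u i).2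
      refine ⟨2 * (u i : EVT m k).1, Prod.ext ?_ ?_⟩
      · change (u i : EVT m k).1 = 2 * (u i : EVT m k).1 * (h : ZMod 3)
        rw [h2]
        exact dec_a _
      · change Wm p r (u i : EVT m k).2 = 2 * (u i : EVT m k).1 * β
        rw [mul_assoc]
        exact dec_b _ _ h3
    have h3 : h = 1 := by
      rcases h12 with h3 | h3
      · exact h3
      · exact absurd h3 h2
    have hB1' : lv B = 1 := by
      rw [hB1, h3, Nat.cast_one]
    obtain ⟨hx1, hx2, hx3, hx4, hx5⟩ := hX2 i hi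
    refine ⟨fun h4 => ?_, hB1', ⟨hx1, hx2, hx3, ?_, ?_⟩⟩
    · apply h1.1
      have h5 := (hLC i).mp h4
      rw [hLa i, h5.1, h5.2]
      rfl
    · rw [hB1']
      exact hx4
    · rw [hB2]
      exact hx5

/-- Independence modulo cubes of the numbers of a family of independent exponent vectors. -/
theorem not_cube (hN : NF n π p e r f) {s : ℕ} (v : Fin s → EVT m k)
    (hv : ∀ g : Fin s → ZMod 3, ∑ i, g i • v i = 0 → ∀ i, g i = 0)
    (g : Fin s → ℕ) (hg : ∃ i, ¬ 3 ∣ g i) : ¬ ∃ t : ℤ, t ^ 3 = ∏ i, toT p r (v i) ^ g i := by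
  rintro ⟨t, ht⟩
  have hprod : ∏ i, toT p r (v i) ^ g i ≠ 0 :=
    Finset.prod_ne_zero_iff.mpr fun i _ => pow_ne_zero _ (toT_ne hN _)
  have ht0 : t ≠ 0 := by
    rintro rfl
    apply hprod
    rw [← ht]
    norm_num
  have h1 := evT_prod hN (fun i => toT p r (v i)) (fun i => toT_ne hN _) g
  rw [← ht, evT_cube hN t ht0] at h1
  simp only [evT_toT hN] at h1
  obtain ⟨i, hi⟩ := hg
  exact hi ((ZMod.natCast_eq_zero_iff _ _).mp (hv _ h1.symm i))

/-- A number whose exponent vector is a combination of given ones. -/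
theorem express (hEVET : EVET) (hN : NF n π p e r f) (h : ℕ) (w0 : ZMod 3)
    (c : Fin m → ZMod 3) {s : ℕ} (v : Fin s → EVT m k) (x : ℤ) (hx : x ≠ 0)
    (hxs : ∀ l : ℕ, l.Prime → (l : ℤ) ∣ x → l ∣ 3 * n) (a : Fin s → ZMod 3)
    (hxa : evT p r x = ∑ i, a i • v i) :
    ∃ (g : Fin s → ℕ) (u t : ℤ), u ≠ 0 ∧ t ≠ 0 ∧
      x * u ^ 3 = (∏ i, toT p r (v i) ^ g i) * t ^ 3 := by
  obtain ⟨-, hE2⟩ := hEVET h n m k π p e r f w0 c hN
  refine ⟨fun i => (a i).val, ?_⟩
  rw [hE2 x _ hx (Finset.prod_ne_zero_iff.mpr fun i _ => pow_ne_zero _ (toT_ne hN _)) hxs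
    (fun l hl hd => ?_)]
  · have h1 := evT_prod hN (fun i => toT p r (v i)) (fun i => toT_ne hN _)
      (fun i => (a i).val)
    simp only [evT_toT hN, ZMod.natCast_zmod_val] at h1
    rw [← hxa] at h1
    have h2 : evT p r x = evT p r (∏ i, toT p r (v i) ^ (a i).val) := h1.symm
    exact ⟨congrArg Prod.fst h2,
      fun i => congrFun (congrArg Prod.fst (congrArg Prod.snd h2)) i,
      fun j => congrFun (congrArg Prod.snd (congrArg Prod.snd h2)) j⟩
  · obtain ⟨i, -, hi⟩ := (Nat.prime_iff_prime_int.mp hl).dvd_finsetProd_iff _ |>.mp hd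
    exact supp_toT hN _ l hl ((Nat.prime_iff_prime_int.mp hl).dvd_of_dvd_pow hi)

end

end EBAT

open _root_.Pool.Agent.PT3.EBAT in
/-- EBAT: basis of the admissible classes. -/
theorem EBAT_thm (hEVET : EVET) (hSPP : SPP) (hLPT : LPT) (hLCL : LCL) : EBAT := by
  intro h n m k π p e r f w0 c hN h12 hdet
  obtain ⟨S, hfr, hS⟩ := exists_spaceT h n π p e r w0 c h12 hdet
  obtain ⟨τ, u, X, Y, hone, hL⟩ := core hEVET hLPT hLCL hN h12 w0 c S
    (fun h2 v hv => ((hS v).mp hv).2 h2)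
  refine ⟨Module.finrank (ZMod 3) S, τ, fun i => toT p r (u i), X, Y, hfr, fun i => ?_,
    fun i π' => V_toT_le hSPP hN _ π', fun g hg => ?_, fun i j hij => ?_, hL, fun x hx => ?_⟩
  · rw [adC_iff hEVET hN w0 c S hS _ (toT_ne hN _) (supp_toT hN _), evT_toT hN]
    exact (u i).2
  · refine not_cube hN (fun i => (u i : EVT m k)) (fun a ha => ?_) g hg
    apply Fintype.linearIndependent_iff.mp u.linearIndependent a
    apply Subtype.ext
    rw [AddSubmonoidClass.coe_finsetSum]
    exact ha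
  · rcases hone i j hij with h2 | h2
    · exact Or.inl (three_toT hN _ h2)
    · exact Or.inr (three_toT hN _ h2)
  · have hxS : evT p r x ∈ S := (adC_iff hEVET hN w0 c S hS x hx.ne hx.supp).mp hx
    refine express hEVET hN h w0 c (fun i => (u i : EVT m k)) x hx.ne hx.supp
      (fun i => u.repr ⟨evT p r x, hxS⟩ i) ?_
    have h3 := congrArg (fun z : S => (z : EVT m k)) (u.sum_repr ⟨evT p r x, hxS⟩)
    simp only [AddSubmonoidClass.coe_finsetSum] at h3
    exact h3.symm

end Pool.Agent.PT3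

end

section

/-!
# Twists by primes `q = 1 (mod 3)`: bases adapted to a hyperplane (module EHPL)
-/

namespace Pool.Agent.PTE

open Pool.Agent.Lib_helper18 Pool.Agent.Lib_helper18.Eis Pool.Agent.Lib_helper84.Cub
open Pool.Agent.PT

namespace EHPL

/-- A linear form that vanishes on the kernel of another one. -/
theorem form_eq {M : Type} [AddCommGroup M] [Module (ZMod 3) M] (D F : M →ₗ[ZMod 3] ZMod 3)
    (h : ∀ x, D x = 0 → F x = 0) (y : M) (hD : D y ≠ 0) (hF : F y ≠ 0) :
    ∃ ε : ZMod 3, ε ≠ 0 ∧ ∀ x, F x = ε * D x := by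
  refine ⟨F y / D y, div_ne_zero hF hD, fun x => ?_⟩
  have h1 : F (x - (D x / D y) • y) = 0 := by
    apply h
    rw [map_sub, map_smul, smul_eq_mul, div_mul_cancel₀ _ hD, sub_self]
  rw [map_sub, map_smul, smul_eq_mul, sub_eq_zero] at h1
  rw [h1]
  ring

/-- A basis adapted to the kernel of a nonzero form `D` such that the form `W` vanishes at all its
members with at most one exception. -/
theorem exists_family {M : Type} [AddCommGroup M] [Module (ZMod 3) M] [Module.Finite (ZMod 3) M]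
    (W D : M →ₗ[ZMod 3] ZMod 3) (hD : D ≠ 0) :
    ∃ (s : ℕ) (b : Fin (s + 1) → M), s + 1 = Module.finrank (ZMod 3) M ∧
      (∀ g : Fin (s + 1) → ZMod 3, ∑ i, g i • b i = 0 → ∀ i, g i = 0) ∧
      (∀ i j, i ≠ j → W (b i) = 0 ∨ W (b j) = 0) ∧
      (∀ i : Fin s, D (b i.castSucc) = 0) ∧ D (b (Fin.last s)) ≠ 0 ∧
      ∀ x, D x = 0 → ∃ g : Fin s → ZMod 3, x = ∑ i, g i • b i.castSucc := by
  classical
  obtain ⟨bH, hbH⟩ := EBAS.exists_basis W (LinearMap.ker D)
  have hDb : ∀ i, D (bH i : M) = 0 := fun i => LinearMap.mem_ker.mp (bH i).2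
  obtain ⟨y0, hy0⟩ : ∃ y, D y ≠ 0 := by
    by_contra hc
    push Not at hc
    exact hD (LinearMap.ext hc)
  obtain ⟨y, hy, hyW⟩ : ∃ y, D y ≠ 0 ∧ (W y = 0 ∨ ∀ i, W (bH i : M) = 0) := by
    by_cases h : ∀ i, W (bH i : M) = 0
    · exact ⟨y0, hy0, Or.inr h⟩
    · push Not at h
      obtain ⟨i0, hi0⟩ := h
      refine ⟨y0 - (W y0 / W (bH i0 : M)) • (bH i0 : M), ?_, Or.inl ?_⟩
      · rw [map_sub, map_smul, hDb, smul_zero, sub_zero]
        exact hy0
      · rw [map_sub, map_smul, smul_eq_mul, div_mul_cancel₀ _ hi0, sub_self]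
  have hrk : Module.finrank (ZMod 3) (LinearMap.ker D) + 1 = Module.finrank (ZMod 3) M := by
    have h1 := LinearMap.finrank_range_add_finrank_ker D
    rw [LinearMap.range_eq_top.mpr (LinearMap.surjective hD), finrank_top,
      Module.finrank_self] at h1
    omega
  let b : Fin (Module.finrank (ZMod 3) (LinearMap.ker D) + 1) → M :=
    Fin.snoc (α := fun _ => M) (fun i => (bH i : M)) y
  have hb1 : ∀ i : Fin (Module.finrank (ZMod 3) (LinearMap.ker D)),
      b i.castSucc = (bH i : M) := fun i => Fin.snoc_castSucc (α := fun _ => M) _ _ _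
  have hb2 : b (Fin.last _) = y := Fin.snoc_last (α := fun _ => M) _ _
  refine ⟨_, b, hrk, fun g hg => ?_, fun i j hij => ?_, fun i => ?_, ?_, fun x hx => ?_⟩
  · rw [Fin.sum_univ_castSucc, hb2] at hg
    simp only [hb1] at hg
    have hl : g (Fin.last _) = 0 := by
      have h1 := congrArg D hg
      rw [map_add, map_sum, map_smul, map_zero, smul_eq_mul] at h1
      have h2 : ∑ i, D (g (Fin.castSucc i) • (bH i : M)) = 0 :=
        Finset.sum_eq_zero fun i _ => by rw [map_smul, hDb, smul_zero]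
      rw [h2, zero_add] at h1
      exact (mul_eq_zero.mp h1).resolve_right hy
    rw [hl, zero_smul, add_zero] at hg
    have h3 : ∑ i, g (Fin.castSucc i) • bH i = 0 := by
      apply Subtype.ext
      rw [AddSubmonoidClass.coe_finsetSum]
      exact hg
    have h4 := Fintype.linearIndependent_iff.mp bH.linearIndependent _ h3
    intro i
    induction i using Fin.lastCases with
    | last => exact hl
    | cast i => exact h4 i
  · induction i using Fin.lastCases with
    | last =>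
      induction j using Fin.lastCases with
      | last => exact absurd rfl hij
      | cast j =>
        rw [hb2, hb1]
        rcases hyW with h | h
        · exact Or.inl h
        · exact Or.inr (h j)
    | cast i =>
      induction j using Fin.lastCases with
      | last =>
        rw [hb2, hb1]
        rcases hyW with h | h
        · exact Or.inr h
        · exact Or.inl (h i)
      | cast j =>
        rw [hb1, hb1]
        exact hbH i j fun h => hij (congrArg _ h)
  · rw [hb1]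
    exact hDb i
  · rw [hb2]
    exact hy
  · refine ⟨fun i => bH.repr ⟨x, LinearMap.mem_ker.mpr hx⟩ i, ?_⟩
    simp only [hb1]
    have h3 := congrArg (fun z : LinearMap.ker D => (z : M))
      (bH.sum_repr ⟨x, LinearMap.mem_ker.mpr hx⟩)
    simp only [AddSubmonoidClass.coe_finsetSum] at h3
    exact h3.symm

/-- The linear form with given values at the primes. -/
def Fm {m k : ℕ} (a : Fin m → ZMod 3) (b : Fin k → ZMod 3) :
    EBAS.EV m k →ₗ[ZMod 3] ZMod 3 where
  toFun v := (∑ i, v.1 i * a i) + ∑ j, v.2 j * b j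
  map_add' := by
    intro v v'
    simp only [Prod.fst_add, Prod.snd_add, Pi.add_apply, add_mul, Finset.sum_add_distrib]
    ring
  map_smul' := by
    intro t v
    simp only [Prod.smul_fst, Prod.smul_snd, Pi.smul_apply, smul_eq_mul, mul_assoc,
      RingHom.id_apply, ← Finset.mul_sum]
    ring

section

variable {n m k : ℕ} {π : Fin m → PP} {p e : Fin m → ℕ} {r f : Fin k → ℕ}

/-- A prime not dividing `n` does not divide the numbers supported on `n`. -/
theorem not_dvd (hSPP : SPP) (ρ : PP) (hρ : ¬ ρ.1 ∣ (n : Eis)) {x : ℤ}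
    (hs : ∀ l : ℕ, l.Prime → (l : ℤ) ∣ x → l ∣ n) : ¬ ρ.1 ∣ (x : Eis) := by
  intro hd
  obtain ⟨l, hl, hcase⟩ := hSPP.2.2.2.2.2 ρ
  have h1 : ρ.1 ∣ (l : Eis) ∧ (l : ℤ) ∣ x := by
    rcases hcase with ⟨-, h1⟩ | ⟨h0, h1, h2, h3⟩
    · refine ⟨dvd_of_eq h1, EBAS.int_dvd ?_⟩
      rw [h1] at hd
      push_cast
      exact hd
    · refine ⟨⟨conj ρ.1, h2⟩, ?_⟩
      exact EVEC.Sp.dvd_int ⟨hl, h0, ρ.2.1, (hSPP.2.2.2.1 ρ).1, h1, h2, h3⟩ hd
  refine hρ (h1.1.trans ?_)
  obtain ⟨c, hc⟩ := hs l hl h1.2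
  refine ⟨(c : Eis), ?_⟩
  rw [hc]
  push_cast
  rfl

/-- The symbol as a function of the exponent vector. -/
theorem sym_eq (hSPP : SPP) (h : NF n π p e r f) (ρ : PP) (hρ : ¬ ρ.1 ∣ (n : Eis)) {x : ℤ}
    (hx : x ≠ 0) (hs : ∀ l : ℕ, l.Prime → (l : ℤ) ∣ x → l ∣ n) :
    sym ρ.1 (x : Eis) = Fm (fun i => ch ρ.1 (p i : Eis)) (fun j => ch ρ.1 (r j : Eis))
      (EBAS.ev p r x) := by
  have hcast : ∀ a : ℤ, a ≠ 0 → (a : Eis) ≠ 0 := by
    intro a ha h0
    apply ha
    have := congrArg Eis.re h0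
    simpa using this
  have h1 := EVEC.fun_eq h (fun a : ℤ => ch ρ.1 (a : Eis)) (fun a b ha hb _ _ => by
    rw [Int.cast_mul]
    exact EVEC.ch_mul ρ.2.1 (hSPP.2.2.2.1 ρ).1 (hcast a ha) (hcast b hb)) (by
    rw [Int.cast_neg, Int.cast_one]
    exact EVEC.ch_neg_one ρ.2.1 (hSPP.2.2.2.1 ρ).1) hx hs
  simp only [Int.cast_natCast] at h1
  rw [← EVEC.ch_not_dvd ρ.2.1 (not_dvd hSPP ρ hρ hs), h1]
  rfl

end

end EHPL

open _root_.Pool.Agent.PTE.EHPL EBAS in
/-- EHPL: bases of the admissible classes adapted to a hyperplane. -/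
theorem EHPL_thm (hEVEC : EVEC) (hSPP : SPP) (hSTM : STM) : EHPL := by
  classical
  intro n m k π p e r f w0 c h _ hw hdet
  obtain ⟨hE1, hE2⟩ := hEVEC n m k π p e r f w0 c h
  have hB0 : ∀ v : EV m k, (toN p r v : ℤ) ≠ 0 := fun v => by
    exact_mod_cast toN_ne h v
  set S : Submodule (ZMod 3) (EV m k) := LinearMap.ker (Lm n π p e r c) with hS
  have hSk : Module.finrank (ZMod 3) S = k := by
    have h1 := LinearMap.finrank_range_add_finrank_ker
      (Lm n π p e r c : EV m k →ₗ[ZMod 3] (Fin m → ZMod 3))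
    rw [LinearMap.range_eq_top.mpr (surj_none n π p e r c hdet), finrank_top] at h1
    simp only [Module.finrank_prod, Module.finrank_fintype_fun_eq_card, Fintype.card_fin] at h1
    rw [hS]
    omega
  have hadm : ∀ x : ℤ, x ≠ 0 → ¬ (3 : ℤ) ∣ x → (∀ l : ℕ, l.Prime → (l : ℤ) ∣ x → l ∣ n) →
      (AdmC n π w0 c x ↔ ev p r x ∈ S) := by
    intro x h1 h2 h3
    rw [(hE1 x h1 h2 h3).1, hS, LinearMap.mem_ker, funext_iff]
    exact ⟨fun h4 => h4.1, fun h4 => ⟨h4, fun h5 => absurd h5 hw⟩⟩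
  have hadmB : ∀ u : S, AdmC n π w0 c (toN p r (u : EV m k) : ℤ) := by
    intro u
    rw [hadm _ (hB0 _) (three_toN h _) (supp_toN h _), ev_toN h]
    exact u.2
  let B0 : Module.Basis (Fin k) (ZMod 3) S := Module.finBasisOfFinrankEq (ZMod 3) S hSk
  refine ⟨fun i => (toN p r (B0 i : EV m k) : ℤ), fun i => hadmB _, fun δ hδ => ?_⟩
  let D : S →ₗ[ZMod 3] ZMod 3 := B0.constr (ZMod 3) δ
  have hDB : ∀ i, D (B0 i) = δ i := fun i => B0.constr_basis (ZMod 3) δ i
  have hD : D ≠ 0 := by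
    intro h0
    apply hδ
    funext i
    rw [← hDB i, h0]
    rfl
  obtain ⟨s, b, hs, hli, hW, hb0, hb1, hspan⟩ := exists_family ((Wm p r).comp S.subtype) D hD
  refine ⟨s, fun i => (toN p r (b i : EV m k) : ℤ), hs.trans hSk, fun i => hadmB _,
    fun i π' => ?_, fun g hg => ?_, fun i j hij => ?_, fun ρ hρ hρ0 hρ1 => ?_⟩
  · obtain ⟨l, hl, hle⟩ := V_le hSPP π' (hB0 (b i))
    refine hle.trans ?_
    rw [padicValInt.of_nat]
    exact val_le h _ l hl
  · rintro ⟨t, ht⟩
    have hprod : ∏ i, (toN p r (b i : EV m k) : ℤ) ^ g i ≠ 0 :=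
      Finset.prod_ne_zero_iff.mpr fun i _ => pow_ne_zero _ (hB0 _)
    have ht0 : t ≠ 0 := by
      rintro rfl
      apply hprod
      rw [← ht]
      norm_num
    have h1 := ev_prod h (fun i => (toN p r (b i : EV m k) : ℤ)) (fun i => hB0 _) g
    rw [← ht, ev_cube h t ht0] at h1
    simp only [ev_toN h] at h1
    have h2 : ∑ i, (g i : ZMod 3) • b i = 0 := by
      apply Subtype.ext
      rw [AddSubmonoidClass.coe_finsetSum]
      exact h1.symm
    have h3 := hli _ h2
    obtain ⟨i, hi⟩ := hg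
    exact hi ((ZMod.natCast_eq_zero_iff _ _).mp (h3 i))
  · have h1 : ∀ i, C9 (toN p r (b i : EV m k) : ℤ) ↔ Wm p r (b i : EV m k) = 0 := by
      intro i
      rw [(hE1 _ (hB0 _) (three_toN h _) (supp_toN h _)).2]
      change Wm p r (ev p r (toN p r (b i : EV m k) : ℤ)) = 0 ↔ _
      rw [ev_toN h]
    rcases hW i j hij with h2 | h2
    · exact Or.inl ((h1 i).mpr h2)
    · exact Or.inr ((h1 j).mpr h2)
  · let F : S →ₗ[ZMod 3] ZMod 3 :=
      (Fm (fun i => ch ρ.1 (p i : Eis)) (fun j => ch ρ.1 (r j : Eis))).comp S.subtype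
    have hF : ∀ u : S, sym ρ.1 ((toN p r (u : EV m k) : ℤ) : Eis) = F u := by
      intro u
      rw [sym_eq hSPP h ρ hρ (hB0 _) (supp_toN h _), ev_toN h]
      rfl
    have hF0 : ∀ u : S, D u = 0 → F u = 0 := by
      intro u hu
      obtain ⟨g, hg⟩ := hspan u hu
      rw [hg, map_sum]
      refine Finset.sum_eq_zero fun i _ => ?_
      rw [map_smul, ← hF, hρ0 i, smul_zero]
    obtain ⟨ε, hε, hFD⟩ := form_eq D F hF0 (b (Fin.last s)) hb1 (by rw [← hF]; exact hρ1)
    refine ⟨⟨ε, hε, fun i => ?_⟩, fun x hx hx0 => ?_⟩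
    · rw [hF, hFD, hDB]
    · have hxS : ev p r x ∈ S := (hadm x hx.ne hx.three hx.supp).mp hx
      have hDx : D ⟨ev p r x, hxS⟩ = 0 := by
        have h1 := hFD ⟨ev p r x, hxS⟩
        have h2 : F ⟨ev p r x, hxS⟩ = 0 := by
          rw [sym_eq hSPP h ρ hρ hx.ne hx.supp] at hx0
          exact hx0
        rw [h2] at h1
        exact (mul_eq_zero.mp h1.symm).resolve_left hε
      obtain ⟨g, hg⟩ := hspan _ hDx
      refine ⟨fun i => (g i).val, ?_⟩
      rw [hE2 x _ hx.ne (Finset.prod_ne_zero_iff.mpr fun i _ => pow_ne_zero _ (hB0 _)) hx.supp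
        (fun l hl hd => ?_)]
      · have h1 := ev_prod h (fun i : Fin s => (toN p r (b i.castSucc : EV m k) : ℤ))
          (fun i => hB0 _) (fun i => (g i).val)
        simp only [ev_toN h, ZMod.natCast_zmod_val] at h1
        have h2 : ev p r x = ev p r (∏ i : Fin s, (toN p r (b i.castSucc : EV m k) : ℤ) ^
            (g i).val) := by
          rw [h1]
          have h3 := congrArg (fun z : S => (z : EV m k)) hg
          simp only [AddSubmonoidClass.coe_finsetSum] at h3
          exact h3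
        exact ⟨fun i => congrFun (congrArg Prod.fst h2) i,
          fun j => congrFun (congrArg Prod.snd h2) j⟩
      · obtain ⟨i, -, hi⟩ := (Nat.prime_iff_prime_int.mp hl).dvd_finsetProd_iff _ |>.mp hd
        exact supp_toN h _ l hl ((Nat.prime_iff_prime_int.mp hl).dvd_of_dvd_pow hi)

end Pool.Agent.PTE

end

section

/-!
# Prime twists of rank zero, `n` divisible by `3`: bases adapted to a hyperplane (module EHPT)
-/

namespace Pool.Agent.PT3

open Pool.Agent.Lib_helper18 Pool.Agent.Lib_helper18.Eis Pool.Agent.Lib_helper84.Cub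
open Pool.Agent.PT Pool.Agent.PTE

namespace EHPT

open Pool.Agent.PT.EBAS

/-! ### Linear algebra -/

/-- A basis adapted to two linear forms. -/
theorem family {M : Type} [AddCommGroup M] [Module (ZMod 3) M] [Module.Finite (ZMod 3) M]
    (A W : M →ₗ[ZMod 3] ZMod 3) (β1 β2 : ZMod 3) (hβ : β1 ≠ 0) (T : Prop)
    (hT : T ∨ ∀ x, W x * β1 = A x * β2) :
    ∃ (s : ℕ) (b : Fin s → M) (τ : Fin s → Fin 3), s = Module.finrank (ZMod 3) M ∧
      (∀ g : Fin s → ZMod 3, ∑ i, g i • b i = 0 → ∀ i, g i = 0) ∧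
      (∀ x, ∃ g : Fin s → ZMod 3, x = ∑ i, g i • b i) ∧
      (∀ i, τ i = 0 → A (b i) = 0 ∧ W (b i) = 0) ∧
      (∀ i, τ i = 1 → A (b i) = β1 ∧ W (b i) = β2) ∧
      (∀ i, τ i = 2 → T ∧ ¬ (A (b i) = 0 ∧ W (b i) = 0)) ∧
      (∀ i j, τ i = τ j → τ i ≠ 0 → i = j) ∧
      (∀ i j, i ≠ j → A (b i) = 0 ∨ A (b j) = 0) := by
  classical
  obtain ⟨bK, hbK⟩ := EBAS.exists_basis W (LinearMap.ker A)
  have hA : ∀ i, A (bK i : M) = 0 := fun i => LinearMap.mem_ker.mp (bK i).2
  let τK : Fin (Module.finrank (ZMod 3) (LinearMap.ker A)) → Fin 3 := fun i =>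
    if W (bK i : M) = 0 then 0 else 2
  have hτ : ∀ i, (τK i = 0 ∧ W (bK i : M) = 0) ∨ (τK i = 2 ∧ W (bK i : M) ≠ 0) := by
    intro i
    by_cases h : W (bK i : M) = 0
    · exact Or.inl ⟨if_pos h, h⟩
    · exact Or.inr ⟨if_neg h, h⟩
  have hτT : ∀ i, W (bK i : M) ≠ 0 → T := by
    intro i hi
    rcases hT with h | h
    · exact h
    · exfalso
      have h1 := h (bK i : M)
      rw [hA i, zero_mul] at h1
      exact hi ((mul_eq_zero.mp h1).resolve_right hβ)
  have h02 : (0 : Fin 3) ≠ 1 ∧ (0 : Fin 3) ≠ 2 ∧ (1 : Fin 3) ≠ 2 := by decide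
  by_cases hA0 : A = 0
  · have htop : LinearMap.ker A = ⊤ := by rw [hA0, LinearMap.ker_zero]
    refine ⟨_, fun i => (bK i : M), τK, ?_, ?_, ?_, ?_, ?_, ?_, ?_, ?_⟩
    · rw [htop, finrank_top]
    · intro g hg
      have h3 : ∑ i, g i • bK i = 0 := by
        apply Subtype.ext
        rw [AddSubmonoidClass.coe_finsetSum]
        exact hg
      exact Fintype.linearIndependent_iff.mp bK.linearIndependent _ h3
    · intro x
      have hx : x ∈ LinearMap.ker A := by
        rw [htop]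
        trivial
      refine ⟨fun i => bK.repr ⟨x, hx⟩ i, ?_⟩
      have h3 := congrArg (fun z : LinearMap.ker A => (z : M)) (bK.sum_repr ⟨x, hx⟩)
      simp only [AddSubmonoidClass.coe_finsetSum] at h3
      exact h3.symm
    · intro i hi
      rcases hτ i with h | h
      · exact ⟨hA i, h.2⟩
      · rw [hi] at h
        exact absurd h.1 h02.2.1
    · intro i hi
      rcases hτ i with h | h
      · rw [hi] at h
        exact absurd h.1.symm h02.1
      · rw [hi] at h
        exact absurd h.1 h02.2.2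
    · intro i hi
      rcases hτ i with h | h
      · rw [hi] at h
        exact absurd h.1.symm h02.2.1
      · exact ⟨hτT i h.2, fun h4 => h.2 h4.2⟩
    · intro i j hij hi
      by_contra hne
      rcases hτ i with h | h
      · exact hi h.1
      · rcases hτ j with h' | h'
        · rw [h.1, h'.1] at hij
          exact absurd hij.symm h02.2.1
        · rcases hbK i j hne with h5 | h5
          · exact h.2 h5
          · exact h'.2 h5
    · intro i j _
      exact Or.inl (hA i)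
  · obtain ⟨y0, hy0⟩ : ∃ y, A y ≠ 0 := by
      by_contra hc
      push Not at hc
      exact hA0 (LinearMap.ext hc)
    obtain ⟨y, hy, hyW⟩ : ∃ y, A y = β1 ∧ (W y = β2 ∨ (T ∧ ∀ i, W (bK i : M) = 0)) := by
      have hy1 : A ((β1 / A y0) • y0) = β1 := by
        rw [map_smul, smul_eq_mul, div_mul_cancel₀ _ hy0]
      by_cases h : ∀ i, W (bK i : M) = 0
      · rcases hT with hT | hT
        · exact ⟨_, hy1, Or.inr ⟨hT, h⟩⟩
        · refine ⟨_, hy1, Or.inl ?_⟩
          have h1 := hT ((β1 / A y0) • y0)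
          rw [hy1, mul_comm β1] at h1
          exact mul_right_cancel₀ hβ h1
      · push Not at h
        obtain ⟨i0, hi0⟩ := h
        refine ⟨(β1 / A y0) • y0 +
          ((β2 - W ((β1 / A y0) • y0)) / W (bK i0 : M)) • (bK i0 : M), ?_, Or.inl ?_⟩
        · rw [map_add, hy1, map_smul, hA, smul_zero, add_zero]
        · rw [map_add, map_smul W _ (bK i0 : M), smul_eq_mul, div_mul_cancel₀ _ hi0,
            add_sub_cancel]
    have hrk : Module.finrank (ZMod 3) (LinearMap.ker A) + 1 = Module.finrank (ZMod 3) M := by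
      have h1 := LinearMap.finrank_range_add_finrank_ker A
      rw [LinearMap.range_eq_top.mpr (LinearMap.surjective hA0), finrank_top,
        Module.finrank_self] at h1
      omega
    let b : Fin (Module.finrank (ZMod 3) (LinearMap.ker A) + 1) → M :=
      Fin.snoc (α := fun _ => M) (fun i => (bK i : M)) y
    have hb1 : ∀ i : Fin (Module.finrank (ZMod 3) (LinearMap.ker A)),
        b i.castSucc = (bK i : M) := fun i => Fin.snoc_castSucc (α := fun _ => M) _ _ _
    have hb2 : b (Fin.last _) = y := Fin.snoc_last (α := fun _ => M) _ _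
    let t0 : Fin 3 := if W y = β2 then 1 else 2
    have ht0 : (t0 = 1 ∧ W y = β2) ∨ (t0 = 2 ∧ T ∧ ∀ i, W (bK i : M) = 0) := by
      by_cases h : W y = β2
      · exact Or.inl ⟨if_pos h, h⟩
      · exact Or.inr ⟨if_neg h, hyW.resolve_left h⟩
    let τ : Fin (Module.finrank (ZMod 3) (LinearMap.ker A) + 1) → Fin 3 :=
      Fin.snoc (α := fun _ => Fin 3) τK t0
    have hτ1 : ∀ i : Fin (Module.finrank (ZMod 3) (LinearMap.ker A)),
        τ i.castSucc = τK i := fun i => Fin.snoc_castSucc (α := fun _ => Fin 3) _ _ _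
    have hτ2 : τ (Fin.last _) = t0 := Fin.snoc_last (α := fun _ => Fin 3) _ _
    refine ⟨_, b, τ, hrk, ?_, ?_, ?_, ?_, ?_, ?_, ?_⟩
    · intro g hg
      rw [Fin.sum_univ_castSucc, hb2] at hg
      simp only [hb1] at hg
      have hl : g (Fin.last _) = 0 := by
        have h1 := congrArg A hg
        rw [map_add, map_sum, map_smul, map_zero, smul_eq_mul, hy] at h1
        have h2 : ∑ i, A (g (Fin.castSucc i) • (bK i : M)) = 0 :=
          Finset.sum_eq_zero fun i _ => by rw [map_smul, hA, smul_zero]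
        rw [h2, zero_add] at h1
        exact (mul_eq_zero.mp h1).resolve_right hβ
      rw [hl, zero_smul, add_zero] at hg
      have h3 : ∑ i, g (Fin.castSucc i) • bK i = 0 := by
        apply Subtype.ext
        rw [AddSubmonoidClass.coe_finsetSum]
        exact hg
      have h4 := Fintype.linearIndependent_iff.mp bK.linearIndependent _ h3
      intro i
      induction i using Fin.lastCases with
      | last => exact hl
      | cast i => exact h4 i
    · intro x
      have hx : x - (A x / β1) • y ∈ LinearMap.ker A := by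
        rw [LinearMap.mem_ker, map_sub, map_smul, hy, smul_eq_mul, div_mul_cancel₀ _ hβ, sub_self]
      refine ⟨Fin.snoc (α := fun _ => ZMod 3) (fun i => bK.repr ⟨_, hx⟩ i) (A x / β1), ?_⟩
      rw [Fin.sum_univ_castSucc, hb2]
      simp only [hb1, Fin.snoc_castSucc, Fin.snoc_last]
      have h3 := congrArg (fun z : LinearMap.ker A => (z : M)) (bK.sum_repr ⟨_, hx⟩)
      simp only [AddSubmonoidClass.coe_finsetSum] at h3
      have h4 : ∑ i, bK.repr ⟨x - (A x / β1) • y, hx⟩ i • (bK i : M) = x - (A x / β1) • y := h3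
      rw [h4, sub_add_cancel]
    · intro i hi
      induction i using Fin.lastCases with
      | last =>
        rw [hτ2] at hi
        rcases ht0 with h | h
        · rw [h.1] at hi
          exact absurd hi.symm h02.1
        · rw [h.1] at hi
          exact absurd hi.symm h02.2.1
      | cast i =>
        rw [hτ1] at hi
        rw [hb1]
        rcases hτ i with h | h
        · exact ⟨hA i, h.2⟩
        · rw [hi] at h
          exact absurd h.1 h02.2.1
    · intro i hi
      induction i using Fin.lastCases with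
      | last =>
        rw [hτ2] at hi
        rw [hb2]
        rcases ht0 with h | h
        · exact ⟨hy, h.2⟩
        · rw [h.1] at hi
          exact absurd hi.symm h02.2.2
      | cast i =>
        rw [hτ1] at hi
        rcases hτ i with h | h
        · rw [hi] at h
          exact absurd h.1.symm h02.1
        · rw [hi] at h
          exact absurd h.1 h02.2.2
    · intro i hi
      induction i using Fin.lastCases with
      | last =>
        rw [hτ2] at hi
        rw [hb2, hy]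
        rcases ht0 with h | h
        · rw [h.1] at hi
          exact absurd hi h02.2.2
        · exact ⟨h.2.1, fun h4 => hβ h4.1⟩
      | cast i =>
        rw [hτ1] at hi
        rw [hb1]
        rcases hτ i with h | h
        · rw [hi] at h
          exact absurd h.1.symm h02.2.1
        · exact ⟨hτT i h.2, fun h4 => h.2 h4.2⟩
    · intro i j hij hi
      induction i using Fin.lastCases with
      | last =>
        induction j using Fin.lastCases with
        | last => rfl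
        | cast j =>
          exfalso
          rw [hτ2, hτ1] at hij
          rcases ht0 with h | h
          · rcases hτ j with h' | h'
            · rw [h.1, h'.1] at hij
              exact absurd hij.symm h02.1
            · rw [h.1, h'.1] at hij
              exact absurd hij h02.2.2
          · rcases hτ j with h' | h'
            · rw [h.1, h'.1] at hij
              exact absurd hij.symm h02.2.1
            · exact h'.2 (h.2.2 j)
      | cast i =>
        induction j using Fin.lastCases with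
        | last =>
          exfalso
          rw [hτ2, hτ1] at hij
          rcases ht0 with h | h
          · rcases hτ i with h' | h'
            · rw [h.1, h'.1] at hij
              exact absurd hij h02.1
            · rw [h.1, h'.1] at hij
              exact absurd hij.symm h02.2.2
          · rcases hτ i with h' | h'
            · rw [h.1, h'.1] at hij
              exact absurd hij h02.2.1
            · exact h'.2 (h.2.2 i)
        | cast j =>
          rw [hτ1, hτ1] at hij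
          rw [hτ1] at hi
          by_contra hne
          have hne' : i ≠ j := fun h => hne (by rw [h])
          rcases hτ i with h | h
          · exact hi h.1
          · rcases hτ j with h' | h'
            · rw [h.1, h'.1] at hij
              exact absurd hij.symm h02.2.1
            · rcases hbK i j hne' with h5 | h5
              · exact h.2 h5
              · exact h'.2 h5
    · intro i j hij
      induction i using Fin.lastCases with
      | last =>
        induction j using Fin.lastCases with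
        | last => exact absurd rfl hij
        | cast j =>
          right
          rw [hb1]
          exact hA j
      | cast i =>
        left
        rw [hb1]
        exact hA i

/-! ### The space of admissible exponent vectors -/

/-- Exponent vectors modulo `3`; the first component belongs to the prime `3`. -/
abbrev E3 (m k : ℕ) : Type := ZMod 3 × EV m k

/-- The part of the conditions which belongs to the prime `3`. -/
noncomputable def c3 {m : ℕ} (π : Fin m → PP) (e : Fin m → ℕ) :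
    ZMod 3 →ₗ[ZMod 3] (Fin m → ZMod 3) where
  toFun a i := (e i : ZMod 3) * (a * sym (π i).1 3)
  map_add' := by
    intro a b
    funext i
    simp only [Pi.add_apply]
    ring
  map_smul' := by
    intro t a
    funext i
    simp only [Pi.smul_apply, smul_eq_mul, RingHom.id_apply]
    ring

/-- The conditions at the split primes. -/
noncomputable def L3 (h n : ℕ) {m k : ℕ} (π : Fin m → PP) (p e : Fin m → ℕ) (r : Fin k → ℕ)
    (c : Fin m → ZMod 3) : E3 m k →ₗ[ZMod 3] (Fin m → ZMod 3) :=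
  (c3 π e).comp (LinearMap.fst (ZMod 3) (ZMod 3) (EV m k)) +
    (Lm (3 ^ h * n) π p e r c).comp (LinearMap.snd (ZMod 3) (ZMod 3) (EV m k))

theorem L3_apply (h n : ℕ) {m k : ℕ} (π : Fin m → PP) (p e : Fin m → ℕ) (r : Fin k → ℕ)
    (c : Fin m → ZMod 3) (u : E3 m k) (i : Fin m) :
    L3 h n π p e r c u i = (e i : ZMod 3) * (u.1 * sym (π i).1 3) +
      Lm (3 ^ h * n) π p e r c u.2 i := rfl

/-- The exponent of `3`. -/
def A3 (m k : ℕ) : E3 m k →ₗ[ZMod 3] ZMod 3 := LinearMap.fst (ZMod 3) (ZMod 3) (EV m k)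

/-- The class modulo `9`. -/
noncomputable def W3 {m k : ℕ} (p : Fin m → ℕ) (r : Fin k → ℕ) : E3 m k →ₗ[ZMod 3] ZMod 3 :=
  (Wm p r).comp (LinearMap.snd (ZMod 3) (ZMod 3) (EV m k))

/-- The space. -/
noncomputable def SS (h n : ℕ) {m k : ℕ} (π : Fin m → PP) (p e : Fin m → ℕ) (r : Fin k → ℕ)
    (w0 : ZMod 3) (c : Fin m → ZMod 3) : Submodule (ZMod 3) (E3 m k) :=
  if h = 2 then LinearMap.ker
    ((W3 p r + (wt ((n : ℤ) ^ 2) + w0) • A3 m k).prod (L3 h n π p e r c))
  else LinearMap.ker (L3 h n π p e r c)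

theorem mem_SS (h n : ℕ) {m k : ℕ} (π : Fin m → PP) (p e : Fin m → ℕ) (r : Fin k → ℕ)
    (w0 : ZMod 3) (c : Fin m → ZMod 3) (u : E3 m k) :
    u ∈ SS h n π p e r w0 c ↔ (∀ i, L3 h n π p e r c u i = 0) ∧
      (h = 2 → Wm p r u.2 + u.1 * (wt ((n : ℤ) ^ 2) + w0) = 0) := by
  unfold SS
  by_cases hh : h = 2
  · rw [if_pos hh, LinearMap.mem_ker]
    change (Wm p r u.2 + (wt ((n : ℤ) ^ 2) + w0) * u.1, L3 h n π p e r c u) = 0 ↔ _
    rw [Prod.mk_eq_zero, funext_iff, mul_comm]
    exact ⟨fun h3 => ⟨h3.2, fun _ => h3.1⟩, fun h3 => ⟨h3.2 hh, h3.1⟩⟩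
  · rw [if_neg hh, LinearMap.mem_ker, funext_iff]
    exact ⟨fun h3 => ⟨h3, fun h4 => absurd h4 hh⟩, fun h3 => h3.1⟩

theorem L3_row (h n : ℕ) {m k : ℕ} (π : Fin m → PP) (p e : Fin m → ℕ) (r : Fin k → ℕ)
    (w0 : ZMod 3) (c : Fin m → ZMod 3) (u : Fin (m + 1) → ZMod 3) (i : Fin m) :
    L3 h n π p e r c (u 0, ((fun i => u i.succ, 0) : EV m k)) i =
      ∑ b, Mt h n π p e w0 c i.succ b * u b := by
  rw [L3_apply, row, Fin.sum_univ_succ]
  have h1 : Mt h n π p e w0 c i.succ 0 = (e i : ZMod 3) * sym (π i).1 3 := rfl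
  have h3 : ∑ j : Fin k, (0 : Fin k → ZMod 3) j * sym (π i).1 (r j : Eis) = 0 := by simp
  rw [h1]
  change (e i : ZMod 3) * (u 0 * sym (π i).1 3) + (_ + (e i : ZMod 3) *
    (∑ j : Fin k, (0 : Fin k → ZMod 3) j * sym (π i).1 (r j : Eis))) = _
  rw [h3, mul_zero, add_zero]
  congr 1
  ring

theorem finrank_E3 (m k : ℕ) : Module.finrank (ZMod 3) (E3 m k) = 1 + (m + k) := by
  simp only [Module.finrank_prod, Module.finrank_fintype_fun_eq_card, Fintype.card_fin,
    Module.finrank_self]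

theorem finrank_SS (h n : ℕ) {m k : ℕ} (π : Fin m → PP) (p e : Fin m → ℕ) (r : Fin k → ℕ)
    (w0 : ZMod 3) (c : Fin m → ZMod 3) (hh : h = 1 ∨ h = 2)
    (hdet : (Mt h n π p e w0 c).det ≠ 0) :
    Module.finrank (ZMod 3) (SS h n π p e r w0 c) + h = k + 2 := by
  unfold SS
  rcases hh with rfl | rfl
  · rw [if_neg (by norm_num)]
    have hs : Function.Surjective (L3 1 n π p e r c : E3 m k →ₗ[ZMod 3] (Fin m → ZMod 3)) := by
      intro v
      obtain ⟨u, hu⟩ := solve _ hdet (Fin.cons 0 v)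
      refine ⟨(u 0, ((fun i => u i.succ, 0) : EV m k)), ?_⟩
      funext i
      rw [L3_row 1 n π p e r w0 c u i, hu i.succ, Fin.cons_succ]
    have h1 := LinearMap.finrank_range_add_finrank_ker
      (L3 1 n π p e r c : E3 m k →ₗ[ZMod 3] (Fin m → ZMod 3))
    rw [LinearMap.range_eq_top.mpr hs, finrank_top, finrank_E3] at h1
    simp only [Module.finrank_fintype_fun_eq_card, Fintype.card_fin] at h1
    omega
  · rw [if_pos rfl]
    have hs : Function.Surjective ((W3 p r + (wt ((n : ℤ) ^ 2) + w0) • A3 m k).prod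
        (L3 2 n π p e r c) : E3 m k →ₗ[ZMod 3] (ZMod 3 × (Fin m → ZMod 3))) := by
      rintro ⟨t, v⟩
      obtain ⟨u, hu⟩ := solve _ hdet (Fin.cons t v)
      refine ⟨(u 0, ((fun i => u i.succ, 0) : EV m k)), ?_⟩
      refine Prod.ext ?_ ?_
      · have h1 := hu 0
        rw [Fin.sum_univ_succ, Fin.cons_zero] at h1
        have h2 : Mt 2 n π p e w0 c 0 0 = wt ((n : ℤ) ^ 2) + w0 := by simp [Mt]
        have h3 : ∀ i : Fin m, Mt 2 n π p e w0 c 0 i.succ = wt ((p i : ℤ) ^ 2) := by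
          intro i
          simp [Mt]
        change ((∑ i, u i.succ * wt ((p i : ℤ) ^ 2)) +
          ∑ j : Fin k, (0 : Fin k → ZMod 3) j * wt ((r j : ℤ) ^ 2)) +
            (wt ((n : ℤ) ^ 2) + w0) * u 0 = t
        have h4 : ∑ j : Fin k, (0 : Fin k → ZMod 3) j * wt ((r j : ℤ) ^ 2) = 0 := by simp
        rw [h4, add_zero, ← h1, h2, add_comm]
        congr 1
        exact Finset.sum_congr rfl fun i _ => by rw [h3, mul_comm]
      · change L3 2 n π p e r c (u 0, ((fun i => u i.succ, 0) : EV m k)) = v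
        funext i
        rw [L3_row 2 n π p e r w0 c u i, hu i.succ, Fin.cons_succ]
    have h1 := LinearMap.finrank_range_add_finrank_ker
      ((W3 p r + (wt ((n : ℤ) ^ 2) + w0) • A3 m k).prod
        (L3 2 n π p e r c) : E3 m k →ₗ[ZMod 3] (ZMod 3 × (Fin m → ZMod 3)))
    rw [LinearMap.range_eq_top.mpr hs, finrank_top, finrank_E3] at h1
    simp only [Module.finrank_prod, Module.finrank_fintype_fun_eq_card, Fintype.card_fin,
      Module.finrank_self] at h1
    omega

/-! ### From exponent vectors to integers -/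

/-- The number with given exponents. -/
def N3 {m k : ℕ} (p : Fin m → ℕ) (r : Fin k → ℕ) (u : E3 m k) : ℤ :=
  3 ^ u.1.val * (toN p r u.2 : ℤ)

/-- The exponent vector modulo `3`. -/
noncomputable def e3 {m k : ℕ} (p : Fin m → ℕ) (r : Fin k → ℕ) (x : ℤ) : E3 m k :=
  (lv x, ev p r x)

section

variable {n m k : ℕ} {π : Fin m → PP} {p e : Fin m → ℕ} {r f : Fin k → ℕ}

theorem N3_ne (h : NF n π p e r f) (u : E3 m k) : N3 p r u ≠ 0 :=
  mul_ne_zero (pow_ne_zero _ (by norm_num)) (by exact_mod_cast toN_ne h u.2)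

theorem N3_supp (h : NF n π p e r f) (u : E3 m k) (l : ℕ) (hl : l.Prime)
    (hd : (l : ℤ) ∣ N3 p r u) : l ∣ 3 * n := by
  rcases (Nat.prime_iff_prime_int.mp hl).dvd_mul.mp hd with h1 | h1
  · have h2 : (l : ℤ) ∣ ((3 : ℕ) : ℤ) := (Nat.prime_iff_prime_int.mp hl).dvd_of_dvd_pow h1
    exact Dvd.dvd.mul_right (Int.natCast_dvd_natCast.mp h2) _
  · exact Dvd.dvd.mul_left (supp_toN h u.2 l hl h1) _

theorem lv_three_pow (hLCL : LCL) (a : ℕ) : lv ((3 : ℤ) ^ a) = a := by
  induction a with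
  | zero =>
    rw [pow_zero, (hLCL.2.2.2.1 1 (by norm_num)).1]
    simp
  | succ a ih =>
    rw [pow_succ, (hLCL.2.1 _ _ (pow_ne_zero _ (by norm_num)) (by norm_num)).1, ih,
      hLCL.2.2.1.1]
    push_cast
    ring

theorem lv_N3 (hLCL : LCL) (h : NF n π p e r f) (u : E3 m k) : lv (N3 p r u) = u.1 := by
  unfold N3
  rw [(hLCL.2.1 _ _ (pow_ne_zero _ (by norm_num)) (by exact_mod_cast toN_ne h u.2)).1,
    lv_three_pow hLCL, (hLCL.2.2.2.1 _ (three_toN h u.2)).1, add_zero, ZMod.natCast_zmod_val]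

theorem val_three (l : ℕ) (hl : l.Prime) (h3 : l ≠ 3) (a : ℕ) :
    padicValInt l ((3 : ℤ) ^ a) = 0 := by
  have hl' : Fact l.Prime := ⟨hl⟩
  have h3' : Fact (Nat.Prime 3) := ⟨Nat.prime_three⟩
  rw [padicInt_pow l hl (by norm_num)]
  have h4 : padicValInt l (3 : ℤ) = 0 := by
    have h5 : padicValInt l ((3 : ℕ) : ℤ) = padicValNat l 3 := padicValInt.of_nat
    have h6 : ((3 : ℕ) : ℤ) = 3 := by norm_num
    rw [h6] at h5
    rw [h5, padicValNat_primes h3]
  rw [h4, mul_zero]

theorem p_ne_three (h : NF n π p e r f) (i : Fin m) : p i ≠ 3 := by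
  intro h1
  have h2 := h.p1 i
  rw [h1] at h2
  omega

theorem r_ne_three (h : NF n π p e r f) (j : Fin k) : r j ≠ 3 := by
  intro h1
  have h2 := h.r2 j
  rw [h1] at h2
  omega

theorem ev_mul_pow (h : NF n π p e r f) (a : ℕ) {x : ℤ} (hx : x ≠ 0) :
    ev p r (3 ^ a * x) = ev p r x := by
  refine Prod.ext ?_ ?_
  · funext i
    change ((padicValInt (p i) (3 ^ a * x) : ℕ) : ZMod 3) = (padicValInt (p i) x : ℕ)
    rw [padicInt_mul _ (h.pp i) (pow_ne_zero _ (by norm_num)) hx,
      val_three _ (h.pp i) (p_ne_three h i), zero_add]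
  · funext j
    change ((padicValInt (r j) (3 ^ a * x) : ℕ) : ZMod 3) = (padicValInt (r j) x : ℕ)
    rw [padicInt_mul _ (h.rp j) (pow_ne_zero _ (by norm_num)) hx,
      val_three _ (h.rp j) (r_ne_three h j), zero_add]

theorem e3_N3 (hLCL : LCL) (h : NF n π p e r f) (u : E3 m k) : e3 p r (N3 p r u) = u := by
  unfold e3
  rw [lv_N3 hLCL h u]
  unfold N3
  rw [ev_mul_pow h _ (by exact_mod_cast toN_ne h u.2), ev_toN h]

theorem lv_pow (hLCL : LCL) {x : ℤ} (hx : x ≠ 0) (a : ℕ) : lv (x ^ a) = (a : ZMod 3) * lv x := by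
  induction a with
  | zero =>
    rw [pow_zero, (hLCL.2.2.2.1 1 (by norm_num)).1]
    simp
  | succ a ih =>
    rw [pow_succ, (hLCL.2.1 _ _ (pow_ne_zero _ hx) hx).1, ih]
    push_cast
    ring

theorem lv_prod (hLCL : LCL) {s : ℕ} (x : Fin s → ℤ) (hx : ∀ i, x i ≠ 0) (g : Fin s → ℕ) :
    lv (∏ i, x i ^ g i) = ∑ i, (g i : ZMod 3) * lv (x i) := by
  classical
  have key : ∀ t : Finset (Fin s), lv (∏ i ∈ t, x i ^ g i) =
      ∑ i ∈ t, (g i : ZMod 3) * lv (x i) := by
    intro t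
    induction t using Finset.induction_on with
    | empty => rw [Finset.prod_empty, Finset.sum_empty, (hLCL.2.2.2.1 1 (by norm_num)).1]
    | insert a t ha ih =>
      rw [Finset.prod_insert ha, Finset.sum_insert ha, (hLCL.2.1 _ _ (pow_ne_zero _ (hx a))
        (Finset.prod_ne_zero_iff.mpr fun i _ => pow_ne_zero _ (hx i))).1, ih,
        lv_pow hLCL (hx a)]
  exact key Finset.univ

theorem e3_prod (hLCL : LCL) (h : NF n π p e r f) {s : ℕ} (x : Fin s → ℤ) (hx : ∀ i, x i ≠ 0)
    (g : Fin s → ℕ) : e3 p r (∏ i, x i ^ g i) = ∑ i, (g i : ZMod 3) • e3 p r (x i) := by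
  refine Prod.ext ?_ ?_
  · rw [Prod.fst_sum]
    exact lv_prod hLCL x hx g
  · rw [Prod.snd_sum]
    exact ev_prod h x hx g

theorem e3_cube (hLCL : LCL) (h : NF n π p e r f) (t : ℤ) (ht : t ≠ 0) :
    e3 p r (t ^ 3) = 0 := by
  refine Prod.ext ?_ (ev_cube h t ht)
  change lv (t ^ 3) = 0
  rw [lv_pow hLCL ht]
  have h3 : ((3 : ℕ) : ZMod 3) = 0 := ZMod.natCast_self 3
  rw [h3, zero_mul]

theorem val_N3_le (h : NF n π p e r f) (u : E3 m k) (l : ℕ) (hl : l.Prime) :
    padicValInt l (N3 p r u) ≤ 2 := by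
  have h0 : (toN p r u.2 : ℤ) ≠ 0 := by exact_mod_cast toN_ne h u.2
  unfold N3
  rw [padicInt_mul l hl (pow_ne_zero _ (by norm_num)) h0]
  by_cases h3 : l = 3
  · subst h3
    have h1 : padicValInt 3 (toN p r u.2 : ℤ) = 0 := padicValInt.eq_zero_of_not_dvd (three_toN h u.2)
    have h2 : padicValInt 3 (3 : ℤ) = 1 := by
      have h3' : Fact (Nat.Prime 3) := ⟨Nat.prime_three⟩
      have h5 : padicValInt 3 ((3 : ℕ) : ℤ) = padicValNat 3 3 := padicValInt.of_nat
      rw [padicValNat_self] at h5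
      exact h5
    rw [h1, padicInt_pow 3 hl (by norm_num), h2]
    have := zval_le u.1
    omega
  · rw [val_three l hl h3, zero_add, padicValInt.of_nat]
    exact val_le h u.2 l hl

theorem V_N3_le (hSPP : SPP) (h : NF n π p e r f) (u : E3 m k) (ρ : PP) :
    V ρ.1 (N3 p r u : Eis) ≤ 2 := by
  obtain ⟨l, hl, hle⟩ := V_le hSPP ρ (N3_ne h u)
  exact hle.trans (val_N3_le h u l hl)

theorem not_three_N3 (h : NF n π p e r f) (u : E3 m k) (hu : u.1 = 0) :
    ¬ (3 : ℤ) ∣ N3 p r u := by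
  unfold N3
  rw [hu, ZMod.val_zero, pow_zero, one_mul]
  exact three_toN h u.2

/-- The symbol as a function of the exponent vector. -/
theorem sym_eq (hSPP : SPP) (h : NF n π p e r f) (ρ : PP)
    (hρ : ¬ ρ.1 ∣ (n : Eis)) {x : ℤ}
    (hx : x ≠ 0) (hs : ∀ l : ℕ, l.Prime → (l : ℤ) ∣ x → l ∣ 3 * n) :
    sym ρ.1 (x : Eis) = (e3 p r x).1 * sym ρ.1 3 +
      EHPL.Fm (fun i => ch ρ.1 (p i : Eis)) (fun j => ch ρ.1 (r j : Eis)) (e3 p r x).2 := by
  have hcast : ∀ a : ℤ, a ≠ 0 → (a : Eis) ≠ 0 := by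
    intro a ha h0
    apply ha
    have := congrArg Eis.re h0
    simpa using this
  have h3' : Fact (Nat.Prime 3) := ⟨Nat.prime_three⟩
  obtain ⟨y, hy⟩ : (3 : ℤ) ^ padicValInt 3 x ∣ x := by
    have := padicValInt_dvd (p := 3) x
    exact_mod_cast this
  have hy0 : y ≠ 0 := by
    rintro rfl
    rw [mul_zero] at hy
    exact hx hy
  have hy3 : ¬ (3 : ℤ) ∣ y := by
    rintro ⟨z, hz⟩
    have hz0 : z ≠ 0 := by
      rintro rfl
      rw [mul_zero] at hz
      exact hy0 hz
    have h1 : x = 3 ^ (padicValInt 3 x + 1) * z := by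
      rw [pow_succ, mul_assoc, ← hz]
      exact hy
    have h2 : padicValInt 3 (3 : ℤ) = 1 := by
      have h5 : padicValInt 3 ((3 : ℕ) : ℤ) = padicValNat 3 3 := padicValInt.of_nat
      rw [padicValNat_self] at h5
      exact h5
    have h4 := congrArg (padicValInt 3) h1
    rw [padicInt_mul 3 Nat.prime_three (pow_ne_zero _ (by norm_num)) hz0,
      padicInt_pow 3 Nat.prime_three (by norm_num), h2] at h4
    omega
  have hys : ∀ l : ℕ, l.Prime → (l : ℤ) ∣ y → l ∣ n := by
    intro l hl hd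
    have h1 : l ∣ 3 * n := hs l hl (by rw [hy]; exact Dvd.dvd.mul_left hd _)
    rcases hl.dvd_mul.mp h1 with h2 | h2
    · exfalso
      have h4 : l = 3 := (Nat.prime_dvd_prime_iff_eq hl Nat.prime_three).mp h2
      rw [h4] at hd
      exact hy3 (by exact_mod_cast hd)
    · exact h2
  have hρ3 : ¬ ρ.1 ∣ 3 := (hSPP.2.2.2.1 ρ).1
  have hxd : ¬ ρ.1 ∣ (x : Eis) := by
    rw [hy]
    push_cast
    intro hd
    rcases ρ.2.1.dvd_mul.mp hd with h1 | h1
    · exact hρ3 (ρ.2.1.dvd_of_dvd_pow h1)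
    · exact EHPL.not_dvd hSPP ρ hρ hys h1
  have hpow : ∀ a : ℕ, ch ρ.1 ((3 : Eis) ^ a) = (a : ZMod 3) * sym ρ.1 3 := by
    intro a
    induction a with
    | zero =>
      have h1 : ch ρ.1 (1 : Eis) = 0 := by
        have h2 := EVEC.ch_mul ρ.2.1 hρ3 (a := 1) (b := 1) one_ne_zero one_ne_zero
        rw [mul_one] at h2
        exact left_eq_add.mp h2
      rw [pow_zero, h1]
      simp
    | succ a ih =>
      rw [pow_succ, EVEC.ch_mul ρ.2.1 hρ3 (pow_ne_zero _ (by decide)) (by decide), ih,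
        EVEC.ch_not_dvd ρ.2.1 hρ3]
      push_cast
      ring
  have h5 : sym ρ.1 (x : Eis) = (padicValInt 3 x : ZMod 3) * sym ρ.1 3 + sym ρ.1 (y : Eis) := by
    rw [← EVEC.ch_not_dvd ρ.2.1 hxd, ← EVEC.ch_not_dvd ρ.2.1 (EHPL.not_dvd hSPP ρ hρ hys), ← hpow,
      ← EVEC.ch_mul ρ.2.1 hρ3 (pow_ne_zero _ (by decide)) (hcast y hy0)]
    congr 1
    conv_lhs => rw [hy]
    push_cast
    rfl
  have h6 : ev p r x = ev p r y := by
    conv_lhs => rw [hy]
    exact ev_mul_pow h _ hy0
  rw [h5, EHPL.sym_eq hSPP h ρ hρ hy0 hys]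
  change _ = lv x * sym ρ.1 3 + EHPL.Fm (fun i => ch ρ.1 (p i : Eis))
    (fun j => ch ρ.1 (r j : Eis)) (ev p r x)
  rw [h6]
  rfl

end

end EHPT

open _root_.Pool.Agent.PT3.EHPT EBAS in
/-- EHPT: bases of the admissible classes adapted to a hyperplane. -/
theorem EHPT_thm (hEVET : EVET) (_hSTM : STM) (hSPP : SPP) (hLPT : LPT) (hLCL : LCL) : EHPT := by
  classical
  intro h n m k π p e r f w0 c hNF hh hdet
  obtain ⟨hE1, hE2⟩ := hEVET h n m k π p e r f w0 c hNF
  have hadm : ∀ x : ℤ, x ≠ 0 → (∀ l : ℕ, l.Prime → (l : ℤ) ∣ x → l ∣ 3 * n) →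
      (AdC h n π w0 c x ↔ e3 p r x ∈ SS h n π p e r w0 c) := by
    intro x h1 h2
    rw [(hE1 x h1 h2).1, mem_SS]
    refine and_congr (forall_congr' fun i => ?_) (Iff.rfl)
    rw [L3_apply]
    change _ ↔ (e i : ZMod 3) * (lv x * sym (π i).1 3) +
      ((e i : ZMod 3) * (∑ i', (padicValInt (p i') x : ZMod 3) *
          (if i' = i then sym (π i).1 (conj (π i).1) else sym (π i).1 (p i' : Eis))) +
        (e i : ZMod 3) * (∑ j, (padicValInt (r j) x : ZMod 3) * sym (π i).1 (r j : Eis)) -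
        (padicValInt (p i) x : ZMod 3) * (ch (π i).1 ((3 ^ h * n : ℕ) : Eis) + c i)) = 0
    rw [← add_sub_assoc, ← add_assoc]
  set S : Submodule (ZMod 3) (E3 m k) := SS h n π p e r w0 c with hS
  have hSk : Module.finrank (ZMod 3) S + h = k + 2 := finrank_SS h n π p e r w0 c hh hdet
  have hadmB : ∀ u : S, AdC h n π w0 c (N3 p r (u : E3 m k)) := by
    intro u
    rw [hadm _ (N3_ne hNF _) (N3_supp hNF _), e3_N3 hLCL hNF]
    exact u.2
  have hlw : ∀ u : E3 m k, lw (N3 p r u) = Wm p r u.2 := by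
    intro u
    rw [(hE1 _ (N3_ne hNF _) (N3_supp hNF _)).2]
    change Wm p r (ev p r (N3 p r u)) = Wm p r u.2
    have h1 := e3_N3 hLCL hNF u
    have h2 : ev p r (N3 p r u) = u.2 := congrArg Prod.snd h1
    rw [h2]
  let B0 : Module.Basis (Fin (Module.finrank (ZMod 3) S)) (ZMod 3) S :=
    Module.finBasisOfFinrankEq (ZMod 3) S rfl
  refine ⟨_, fun i => N3 p r (B0 i : E3 m k), hSk, fun i => hadmB _, fun δ hδ => ?_⟩
  let D : S →ₗ[ZMod 3] ZMod 3 := B0.constr (ZMod 3) δ
  have hDB : ∀ i, D (B0 i) = δ i := fun i => B0.constr_basis (ZMod 3) δ i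
  have hD : D ≠ 0 := by
    intro h0
    apply hδ
    funext i
    rw [← hDB i, h0]
    rfl
  let A : S →ₗ[ZMod 3] ZMod 3 := (A3 m k).comp S.subtype
  let W : S →ₗ[ZMod 3] ZMod 3 := (W3 p r).comp S.subtype
  have hβ : (h : ZMod 3) ≠ 0 := by
    rcases hh with rfl | rfl <;> decide
  have hWA : h = 1 ∨ ∀ x : S, W x * (h : ZMod 3) = A x * (wt ((n : ℤ) ^ 2) + w0) := by
    rcases hh with h1 | h2
    · exact Or.inl h1
    · right
      intro x
      have h3 := ((mem_SS h n π p e r w0 c (x : E3 m k)).mp x.2).2 h2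
      have h4 : W x + A x * (wt ((n : ℤ) ^ 2) + w0) = 0 := h3
      have h5 : (h : ZMod 3) = -1 := by rw [h2]; decide
      rw [h5, eq_neg_of_add_eq_zero_left h4]
      ring
  obtain ⟨s, b', τ, hs, hli, hsp, ht0, ht1, ht2, hinj, hA'⟩ := family
    (M := LinearMap.ker D) (A.comp (LinearMap.ker D).subtype) (W.comp (LinearMap.ker D).subtype)
    (h : ZMod 3) (wt ((n : ℤ) ^ 2) + w0) hβ (h = 1) (by
      rcases hWA with h1 | h1
      · exact Or.inl h1
      · exact Or.inr fun x => h1 (x : S))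
  have hrk : Module.finrank (ZMod 3) (LinearMap.ker D) + 1 = Module.finrank (ZMod 3) S := by
    have h1 := LinearMap.finrank_range_add_finrank_ker D
    rw [LinearMap.range_eq_top.mpr (LinearMap.surjective hD), finrank_top,
      Module.finrank_self] at h1
    omega
  have hDb : ∀ i, D (b' i : S) = 0 := fun i => LinearMap.mem_ker.mp (b' i).2
  obtain ⟨y0, hy0⟩ : ∃ y, D y ≠ 0 := by
    by_contra hc
    push Not at hc
    exact hD (LinearMap.ext hc)
  obtain ⟨y, hy, hyA⟩ : ∃ y : S, D y ≠ 0 ∧ (A y = 0 ∨ ∀ i, A (b' i : S) = 0) := by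
    by_cases h1 : ∀ i, A (b' i : S) = 0
    · exact ⟨y0, hy0, Or.inr h1⟩
    · push Not at h1
      obtain ⟨i0, hi0⟩ := h1
      refine ⟨y0 - (A y0 / A (b' i0 : S)) • (b' i0 : S), ?_, Or.inl ?_⟩
      · rw [map_sub, map_smul, hDb, smul_zero, sub_zero]
        exact hy0
      · rw [map_sub, map_smul, smul_eq_mul, div_mul_cancel₀ _ hi0, sub_self]
  let b : Fin (s + 1) → S := Fin.snoc (α := fun _ => S) (fun i => (b' i : S)) y
  have hb1 : ∀ i : Fin s, b i.castSucc = (b' i : S) := fun i =>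
    Fin.snoc_castSucc (α := fun _ => S) _ _ _
  have hb2 : b (Fin.last s) = y := Fin.snoc_last (α := fun _ => S) _ _
  have hbli : ∀ g : Fin (s + 1) → ZMod 3, ∑ i, g i • b i = 0 → ∀ i, g i = 0 := by
    intro g hg
    rw [Fin.sum_univ_castSucc, hb2] at hg
    simp only [hb1] at hg
    have hl : g (Fin.last _) = 0 := by
      have h1 := congrArg D hg
      rw [map_add, map_sum, map_smul, map_zero, smul_eq_mul] at h1
      have h2 : ∑ i, D (g (Fin.castSucc i) • (b' i : S)) = 0 :=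
        Finset.sum_eq_zero fun i _ => by rw [map_smul, hDb, smul_zero]
      rw [h2, zero_add] at h1
      exact (mul_eq_zero.mp h1).resolve_right hy
    rw [hl, zero_smul, add_zero] at hg
    have h3 : ∑ i, g (Fin.castSucc i) • b' i = 0 := by
      apply Subtype.ext
      rw [AddSubmonoidClass.coe_finsetSum]
      exact hg
    have h4 := hli _ h3
    intro i
    induction i using Fin.lastCases with
    | last => exact hl
    | cast i => exact h4 i
  have hbA : ∀ i j, i ≠ j → A (b i) = 0 ∨ A (b j) = 0 := by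
    intro i j hij
    induction i using Fin.lastCases with
    | last =>
      induction j using Fin.lastCases with
      | last => exact absurd rfl hij
      | cast j =>
        rw [hb2, hb1]
        rcases hyA with h1 | h1
        · exact Or.inl h1
        · exact Or.inr (h1 j)
    | cast i =>
      induction j using Fin.lastCases with
      | last =>
        rw [hb2, hb1]
        rcases hyA with h1 | h1
        · exact Or.inr h1
        · exact Or.inl (h1 i)
      | cast j =>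
        rw [hb1, hb1]
        exact hA' i j fun h1 => hij (congrArg _ h1)
  have hLV : ∀ i : Fin s, lv (N3 p r ((b' i : S) : E3 m k)) = A (b' i : S) := fun i =>
    lv_N3 hLCL hNF _
  have hLW : ∀ i : Fin s, lw (N3 p r ((b' i : S) : E3 m k)) = W (b' i : S) := fun i => hlw _
  have hXY : ∀ i : Fin s, ∃ X Y : ℤ, (τ i ≠ 2 → X = 1 ∧ Y = 0) ∧ (τ i = 2 → X ≠ 0 ∧ Y ≠ 0 ∧
      X ^ 3 + N3 p r ((b' i : S) : E3 m k) * Y ^ 3 ≠ 0 ∧
      lv (N3 p r ((b' i : S) : E3 m k) * (X ^ 3 + N3 p r ((b' i : S) : E3 m k) * Y ^ 3)) = 1 ∧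
      lw (N3 p r ((b' i : S) : E3 m k) * (X ^ 3 + N3 p r ((b' i : S) : E3 m k) * Y ^ 3)) =
        wt ((n : ℤ) ^ 2) + w0) := by
    intro i
    by_cases hi : τ i = 2
    · obtain ⟨X, Y, h1⟩ := hLPT (N3 p r ((b' i : S) : E3 m k)) (wt ((n : ℤ) ^ 2) + w0)
        (N3_ne hNF _) (by rw [hLV, hLW]; exact (ht2 i hi).2)
      exact ⟨X, Y, fun h2 => absurd hi h2, fun _ => h1⟩
    · exact ⟨1, 0, fun _ => ⟨rfl, rfl⟩, fun h2 => absurd h2 hi⟩
  choose X Y hXY1 hXY2 using hXY
  have h12 : (1 : Fin 3) ≠ 2 := by decide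
  refine ⟨s, τ, fun i => N3 p r (b i : E3 m k), X, Y, by omega, fun i => hadmB _,
    fun i π' => V_N3_le hSPP hNF _ π', fun g hg => ?_, fun i j hij => ?_, fun B hB => ?_,
    fun ρ hρ hρ0 hρ1 => ?_⟩
  · rintro ⟨t, ht⟩
    have hprod : ∏ i, N3 p r (b i : E3 m k) ^ g i ≠ 0 :=
      Finset.prod_ne_zero_iff.mpr fun i _ => pow_ne_zero _ (N3_ne hNF _)
    have ht0 : t ≠ 0 := by
      rintro rfl
      apply hprod
      rw [← ht]
      norm_num
    have h1 := e3_prod hLCL hNF (fun i => N3 p r (b i : E3 m k)) (fun i => N3_ne hNF _) g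
    rw [← ht, e3_cube hLCL hNF t ht0] at h1
    simp only [e3_N3 hLCL hNF] at h1
    have h2 : ∑ i, (g i : ZMod 3) • b i = 0 := by
      apply Subtype.ext
      rw [AddSubmonoidClass.coe_finsetSum]
      exact h1.symm
    have h3 := hbli _ h2
    obtain ⟨i, hi⟩ := hg
    exact hi ((ZMod.natCast_eq_zero_iff _ _).mp (h3 i))
  · rcases hbA i j hij with h2 | h2
    · exact Or.inl (not_three_N3 hNF _ h2)
    · exact Or.inr (not_three_N3 hNF _ h2)
  · obtain ⟨hB0, hB1, hB2⟩ := hB
    have hrv : ∀ i : Fin s, rv (fun i => N3 p r (b i : E3 m k)) i =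
        N3 p r ((b' i : S) : E3 m k) := by
      intro i
      change N3 p r (b i.castSucc : E3 m k) = _
      rw [hb1]
    refine ⟨fun i hi => ?_, fun i hi => ?_, fun i hi => ?_, fun i j hij hi => ?_⟩
    · rw [hrv, hLCL.1 _ (N3_ne hNF _), hLV, hLW]
      exact ht0 i hi
    · obtain ⟨h1, h2⟩ := ht1 i hi
      have h3 : A (b' i : S) = h := h1
      have h4 : W (b' i : S) = wt ((n : ℤ) ^ 2) + w0 := h2
      rw [hrv, hLCL.1 _ (N3_ne hNF _), hLV, hLW, hB1, hB2, h3, h4]
      exact ⟨fun h5 => hβ h5.1, rfl, rfl, hXY1 i (by rw [hi]; exact h12)⟩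
    · obtain ⟨h1, h2⟩ := ht2 i hi
      obtain ⟨h3, h4, h5, h6, h7⟩ := hXY2 i hi
      rw [hrv, hLCL.1 _ (N3_ne hNF _), hLV, hLW, hB1]
      refine ⟨h2, by rw [h1]; decide, ⟨h3, h4, h5, ?_, ?_⟩⟩
      · rw [h6, hB1, h1]
        decide
      · rw [h7, hB2]
    · exact hinj i j hij hi
  · let F : S →ₗ[ZMod 3] ZMod 3 := sym ρ.1 3 • A +
      (EHPL.Fm (fun i => ch ρ.1 (p i : Eis)) (fun j => ch ρ.1 (r j : Eis))).comp
        ((LinearMap.snd (ZMod 3) (ZMod 3) (EV m k)).comp S.subtype)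
    have hF : ∀ u : S, sym ρ.1 (N3 p r (u : E3 m k) : Eis) = F u := by
      intro u
      rw [EHPT.sym_eq hSPP hNF ρ hρ (N3_ne hNF _) (N3_supp hNF _), e3_N3 hLCL hNF]
      change (u : E3 m k).1 * sym ρ.1 3 + _ = sym ρ.1 3 * (u : E3 m k).1 + _
      rw [mul_comm]
      rfl
    have hspan : ∀ x : S, D x = 0 → ∃ g : Fin s → ZMod 3, x = ∑ i, g i • b i.castSucc := by
      intro x hx
      obtain ⟨g, hg⟩ := hsp ⟨x, LinearMap.mem_ker.mpr hx⟩
      refine ⟨g, ?_⟩
      simp only [hb1]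
      have h3 := congrArg (fun z : LinearMap.ker D => (z : S)) hg
      simp only [AddSubmonoidClass.coe_finsetSum] at h3
      exact h3
    have hF0 : ∀ u : S, D u = 0 → F u = 0 := by
      intro u hu
      obtain ⟨g, hg⟩ := hspan u hu
      rw [hg, map_sum]
      refine Finset.sum_eq_zero fun i _ => ?_
      rw [map_smul, ← hF, hρ0 i, smul_zero]
    obtain ⟨ε, hε, hFD⟩ := EHPL.form_eq D F hF0 (b (Fin.last s)) (by rw [hb2]; exact hy)
      (by rw [← hF]; exact hρ1)
    refine ⟨⟨ε, hε, fun i => ?_⟩, fun x hx hx0 => ?_⟩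
    · rw [hF, hFD, hDB]
    · have hxS : e3 p r x ∈ S := (hadm x hx.ne hx.supp).mp hx
      have hDx : D ⟨e3 p r x, hxS⟩ = 0 := by
        have h1 := hFD ⟨e3 p r x, hxS⟩
        have h2 : F ⟨e3 p r x, hxS⟩ = 0 := by
          rw [EHPT.sym_eq hSPP hNF ρ hρ hx.ne hx.supp] at hx0
          change sym ρ.1 3 * (e3 p r x).1 + EHPL.Fm (fun i => ch ρ.1 (p i : Eis))
            (fun j => ch ρ.1 (r j : Eis)) (e3 p r x).2 = 0
          rw [mul_comm]
          exact hx0
        rw [h2] at h1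
        exact (mul_eq_zero.mp h1.symm).resolve_left hε
      obtain ⟨g, hg⟩ := hspan _ hDx
      have hne : ∏ i : Fin s, N3 p r (b i.castSucc : E3 m k) ^ (g i).val ≠ 0 :=
        Finset.prod_ne_zero_iff.mpr fun i _ => pow_ne_zero _ (N3_ne hNF _)
      have h1 := e3_prod hLCL hNF (fun i : Fin s => N3 p r (b i.castSucc : E3 m k))
        (fun i => N3_ne hNF _) (fun i => (g i).val)
      simp only [e3_N3 hLCL hNF, ZMod.natCast_zmod_val] at h1
      have h2 : e3 p r x = e3 p r (∏ i : Fin s, N3 p r (b i.castSucc : E3 m k) ^ (g i).val) := by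
        rw [h1]
        have h3 := congrArg (fun z : S => (z : E3 m k)) hg
        simp only [AddSubmonoidClass.coe_finsetSum] at h3
        exact h3
      obtain ⟨u, t, hu, ht, hut⟩ := (hE2 x _ hx.ne hne hx.supp (fun l hl hd => by
          obtain ⟨i, -, hi⟩ := (Nat.prime_iff_prime_int.mp hl).dvd_finsetProd_iff _ |>.mp hd
          exact N3_supp hNF _ l hl ((Nat.prime_iff_prime_int.mp hl).dvd_of_dvd_pow hi))).mpr
        ⟨congrArg Prod.fst h2, fun i => congrFun (congrArg (fun z => z.2.1) h2) i,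
          fun j => congrFun (congrArg (fun z => z.2.2) h2) j⟩
      exact ⟨fun i => (g i).val, u, t, hu, ht, hut⟩

end Pool.Agent.PT3

end
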