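import Mathlib

/-! Parts: Lib_helper3.SU.Basic, Lib_helper3.SU.Lattice, Lib_helper3.SU.Tensor -/

section

/-!
# The S-unit theorem for number fields

`S` a finite set of height one primes of `𝓞 K`; `U = S.unit K` (Mathlib's `Set.unit`).
`plog x w` is the logarithm of the normalised absolute value of `x ∈ Kˣ` at the place
`w ∈ S_∞ ⊔ S`.
-/

open NumberField IsDedekindDomain Module
open scoped nonZeroDivisors

namespace SUnit

variable {K : Type*} [Field K] [NumberField K]

/-- places above: infinite places and the finite places in `S` -/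
abbrev Pl (K : Type*) [Field K] [NumberField K] (S : Finset (HeightOneSpectrum (𝓞 K))) :=
  InfinitePlace K ⊕ S

/-- logarithm of the normalised absolute value -/
noncomputable def plog (S : Finset (HeightOneSpectrum (𝓞 K))) :
    Additive Kˣ →+ (Pl K S → ℝ) where
  toFun x w := match w with
    | Sum.inl w => w.mult * Real.log (w (x.toMul : K))
    | Sum.inr v => Real.log (FinitePlace.mk v.1 (x.toMul : K))
  map_zero' := by
    funext w
    rcases w with w | v <;> simp
  map_add' x y := by
    funext w
    rcases w with w | v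
    · have hx : w (x.toMul : K) ≠ 0 := by simp
      have hy : w (y.toMul : K) ≠ 0 := by simp
      simp [Real.log_mul hx hy, mul_add]
    · have hx : FinitePlace.mk v.1 (x.toMul : K) ≠ 0 := by simp
      have hy : FinitePlace.mk v.1 (y.toMul : K) ≠ 0 := by simp
      show Real.log (FinitePlace.mk v.1 ((x + y).toMul : K)) = Real.log _ + Real.log _
      rw [← Real.log_mul hx hy, ← map_mul]
      rfl

@[simp] theorem plog_inl (S : Finset (HeightOneSpectrum (𝓞 K))) (x : Additive Kˣ)
    (w : InfinitePlace K) : plog S x (Sum.inl w) = w.mult * Real.log (w (x.toMul : K)) := rfl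

theorem plog_inr (S : Finset (HeightOneSpectrum (𝓞 K))) (x : Additive Kˣ)
    (v : S) : plog S x (Sum.inr v) = Real.log (FinitePlace.mk v.1 (x.toMul : K)) := rfl

/-- the finite absolute value is one iff the valuation is one -/
theorem finitePlace_eq_one_iff (v : HeightOneSpectrum (𝓞 K)) (x : K) :
    FinitePlace.mk v x = 1 ↔ v.valuation K x = 1 := by
  rw [FinitePlace.mk_apply, FinitePlace.norm_embedding, HeightOneSpectrum.adicAbv_def]
  norm_cast
  rw [WithZeroMulInt.toNNReal_eq_one_iff]
  · exact HeightOneSpectrum.one_lt_absNorm_nnreal v |>.ne'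
  
theorem finitePlace_le_one_iff (v : HeightOneSpectrum (𝓞 K)) (x : K) :
    FinitePlace.mk v x ≤ 1 ↔ v.valuation K x ≤ 1 := by
  rw [FinitePlace.mk_apply, FinitePlace.norm_embedding, HeightOneSpectrum.adicAbv_def]
  norm_cast
  rw [WithZeroMulInt.toNNReal_le_one_iff]
  · exact HeightOneSpectrum.one_lt_absNorm_nnreal v

/-- membership in the group of `S`-units -/
theorem mem_unit_iff (S : Finset (HeightOneSpectrum (𝓞 K))) (x : Kˣ) :
    x ∈ (S : Set (HeightOneSpectrum (𝓞 K))).unit K ↔
      ∀ v : HeightOneSpectrum (𝓞 K), v ∉ S → FinitePlace.mk v (x : K) = 1 := by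
  have : x ∈ (S : Set (HeightOneSpectrum (𝓞 K))).unit K ↔
      ∀ v : HeightOneSpectrum (𝓞 K), v ∉ (S : Set (HeightOneSpectrum (𝓞 K))) →
        v.valuation K (x : K) = 1 := Iff.rfl
  rw [this]
  simp only [Finset.mem_coe, finitePlace_eq_one_iff]

/-- the group of `S`-units as an additive subgroup of `Additive Kˣ` -/
noncomputable abbrev U (K : Type*) [Field K] [NumberField K] (S : Finset (HeightOneSpectrum (𝓞 K))) :
    AddSubgroup (Additive Kˣ) :=
  ((S : Set (HeightOneSpectrum (𝓞 K))).unit K).toAddSubgroup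

theorem mem_U_iff (S : Finset (HeightOneSpectrum (𝓞 K))) (x : Additive Kˣ) :
    x ∈ U K S ↔ ∀ v : HeightOneSpectrum (𝓞 K), v ∉ S → FinitePlace.mk v (x.toMul : K) = 1 :=
  mem_unit_iff S x.toMul

/-- product formula -/
theorem sum_plog (S : Finset (HeightOneSpectrum (𝓞 K))) (x : Additive Kˣ) (hx : x ∈ U K S) :
    ∑ w, plog S x w = 0 := by
  rw [mem_U_iff] at hx
  have hx0 : (x.toMul : K) ≠ 0 := x.toMul.ne_zero
  have h := prod_abs_eq_one hx0
  have h2 : ∏ᶠ w : FinitePlace K, w (x.toMul : K)
      = ∏ v : S, FinitePlace.mk v.1 (x.toMul : K) := by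
    rw [← finprod_comp_equiv FinitePlace.equivHeightOneSpectrum.symm]
    rw [Finset.prod_coe_sort S (fun v => FinitePlace.mk v (x.toMul : K))]
    apply finprod_eq_prod_of_mulSupport_subset
    intro v hv
    by_contra hvS
    exact hv (hx v (by simpa using hvS))
  rw [h2] at h
  have h3 := congrArg Real.log h
  rw [Real.log_one, Real.log_mul] at h3
  · rw [Real.log_prod, Real.log_prod] at h3
    · rw [Fintype.sum_sum_type]
      simpa [plog_inr, Real.log_pow] using h3
    · intro v _
      simp
    · intro w _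
      simp
  · rw [Finset.prod_ne_zero_iff]
    intro w _
    simp
  · rw [Finset.prod_ne_zero_iff]
    intro w _
    simp

/-- **Northcott for `S`-units**: only finitely many `S`-units have bounded logarithms. -/
theorem finite_bounded (S : Finset (HeightOneSpectrum (𝓞 K))) (r : ℝ) :
    {x : Additive Kˣ | x ∈ U K S ∧ ∀ w, |plog S x w| ≤ r}.Finite := by
  classical
  set N : ℕ := ∏ v ∈ S, Ideal.absNorm v.asIdeal with hN
  have hN0 : N ≠ 0 := by
    rw [hN, Finset.prod_ne_zero_iff]
    intro v _
    rw [Ne, Ideal.absNorm_eq_zero_iff]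
    exact v.ne_bot
  have hN0K : (N : K) ≠ 0 := by exact_mod_cast hN0
  have hNint : ∀ v : HeightOneSpectrum (𝓞 K), FinitePlace.mk v (N : K) ≤ 1 := by
    intro v
    have := FinitePlace.norm_le_one (K := K) v (N : 𝓞 K)
    simpa using this
  have hNlt : ∀ v ∈ S, FinitePlace.mk v (N : K) < 1 := by
    intro v hv
    have h := (FinitePlace.norm_lt_one_iff_mem (K := K) v (N : 𝓞 K)).mpr ?_
    · simpa using h
    · rw [hN]
      push_cast
      rw [← Finset.mul_prod_erase _ _ hv]
      exact Ideal.mul_mem_right _ _ (Ideal.absNorm_mem v.asIdeal)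
  have hk : ∀ v ∈ S, ∃ k : ℕ, (FinitePlace.mk v (N : K)) ^ k * Real.exp r ≤ 1 := by
    intro v hv
    obtain ⟨k, hk⟩ := exists_pow_lt_of_lt_one (Real.exp_pos (-r)) (hNlt v hv)
    refine ⟨k, ?_⟩
    calc (FinitePlace.mk v (N : K)) ^ k * Real.exp r ≤ Real.exp (-r) * Real.exp r := by
          gcongr
      _ = 1 := by rw [← Real.exp_add]; simp
  choose! κ hκ using hk
  set k : ℕ := S.sup κ with hkdef
  have hk : ∀ v ∈ S, (FinitePlace.mk v (N : K)) ^ k * Real.exp r ≤ 1 := by
    intro v hv
    refine le_trans ?_ (hκ v hv)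
    gcongr ?_ * _
    exact pow_le_pow_of_le_one (apply_nonneg _ _) (hNint v) (Finset.le_sup hv)
  have hfin := Embeddings.finite_of_norm_le K ℂ ((N : ℝ) ^ k * Real.exp r)
  refine Set.Finite.of_finite_image (f := fun x : Additive Kˣ => (N : K) ^ k * (x.toMul : K))
    (hfin.subset ?_) ?_
  · rintro _ ⟨x, ⟨hxU, hxb⟩, rfl⟩
    rw [mem_U_iff] at hxU
    refine ⟨?_, ?_⟩
    · have hval : ∀ v : HeightOneSpectrum (𝓞 K),
          v.valuation K ((N : K) ^ k * (x.toMul : K)) ≤ 1 := by
        intro v
        rw [← finitePlace_le_one_iff, map_mul, map_pow]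
        by_cases hv : v ∈ S
        · refine le_trans ?_ (hk v hv)
          gcongr
          have h1 := hxb (Sum.inr ⟨v, hv⟩)
          rw [plog_inr] at h1
          have h2 := (abs_le.mp h1).2
          have hpos : 0 < FinitePlace.mk v (x.toMul : K) := by
            rw [FinitePlace.pos_iff]
            exact x.toMul.ne_zero
          rwa [Real.log_le_iff_le_exp hpos] at h2
        · rw [hxU v hv, mul_one]
          exact pow_le_one₀ (apply_nonneg _ _) (hNint v)
      obtain ⟨y, hy⟩ := HeightOneSpectrum.mem_integers_of_valuation_le_one K _ hval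
      show IsIntegral ℤ ((N : K) ^ k * (x.toMul : K))
      rw [← hy]
      exact RingOfIntegers.isIntegral_coe y
    · intro φ
      have h1 := hxb (Sum.inl (InfinitePlace.mk φ))
      rw [plog_inl] at h1
      have hpos : 0 < (InfinitePlace.mk φ) (x.toMul : K) := by
        rw [InfinitePlace.pos_iff]
        exact x.toMul.ne_zero
      have hm : (1 : ℝ) ≤ (InfinitePlace.mk φ).mult := by
        exact_mod_cast InfinitePlace.one_le_mult
      have h2 : Real.log ((InfinitePlace.mk φ) (x.toMul : K)) ≤ r := by
        rw [abs_mul, abs_of_pos (by linarith : (0:ℝ) < (InfinitePlace.mk φ).mult)] at h1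
        calc _ ≤ |Real.log ((InfinitePlace.mk φ) (x.toMul : K))| := le_abs_self _
          _ ≤ (InfinitePlace.mk φ).mult * |Real.log ((InfinitePlace.mk φ) (x.toMul : K))| :=
            le_mul_of_one_le_left (abs_nonneg _) hm
          _ ≤ r := h1
      rw [Real.log_le_iff_le_exp hpos, InfinitePlace.apply] at h2
      show ‖φ ((N : K) ^ k * (x.toMul : K))‖ ≤ _
      rw [map_mul, map_pow, map_natCast, norm_mul, norm_pow, Complex.norm_natCast]
      gcongr
  · intro x _ y _ hxy
    have : (N : K) ^ k * (x.toMul : K) = (N : K) ^ k * (y.toMul : K) := hxy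
    have h2 := mul_left_cancel₀ (pow_ne_zero k hN0K) this
    exact Additive.toMul.injective (Units.ext h2)

/-- an integer divisible by exactly one given prime -/
theorem exists_generator (v : HeightOneSpectrum (𝓞 K)) :
    ∃ a : 𝓞 K, a ≠ 0 ∧ ∀ v' : HeightOneSpectrum (𝓞 K), a ∈ v'.asIdeal ↔ v' = v := by
  classical
  have hv0 : v.asIdeal ∈ (Ideal (𝓞 K))⁰ := mem_nonZeroDivisors_iff_ne_zero.mpr v.ne_bot
  set I : (Ideal (𝓞 K))⁰ := ⟨v.asIdeal, hv0⟩ with hI
  have h1 : ClassGroup.mk0 (I ^ Fintype.card (ClassGroup (𝓞 K))) = 1 := by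
    rw [map_pow, pow_card_eq_one]
  have h2 := (ClassGroup.mk0_eq_one_iff (I ^ Fintype.card (ClassGroup (𝓞 K))).2).mp h1
  obtain ⟨a, ha⟩ := h2
  have ha' : v.asIdeal ^ Fintype.card (ClassGroup (𝓞 K)) = Ideal.span {a} := by
    have : ((I ^ Fintype.card (ClassGroup (𝓞 K)) : (Ideal (𝓞 K))⁰) : Ideal (𝓞 K))
        = v.asIdeal ^ Fintype.card (ClassGroup (𝓞 K)) := by
      simp [hI]
    rw [← this, ha]
  refine ⟨a, ?_, ?_⟩
  · rintro rfl
    have : v.asIdeal ^ Fintype.card (ClassGroup (𝓞 K)) = ⊥ := by
      rw [ha']; simp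
    exact v.ne_bot (pow_eq_zero_iff (Fintype.card_ne_zero) |>.mp this)
  · intro v'
    rw [← Ideal.span_singleton_le_iff_mem, ← ha']
    constructor
    · intro h
      have h3 : v.asIdeal ≤ v'.asIdeal := Ideal.IsPrime.le_of_pow_le (hP := v'.isPrime) h
      have h4 := v.isMaximal.eq_of_le v'.isPrime.ne_top h3
      exact (HeightOneSpectrum.ext h4).symm
    · rintro rfl
      exact Ideal.pow_le_self Fintype.card_ne_zero

open NumberField.Units NumberField.Units.dirichletUnitTheorem in
/-- the hyperplane `∑ = 0` -/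
noncomputable def hyper (K : Type*) [Field K] [NumberField K]
    (S : Finset (HeightOneSpectrum (𝓞 K))) : Submodule ℝ (Pl K S → ℝ) :=
  LinearMap.ker (∑ w, LinearMap.proj (R := ℝ) (φ := fun _ => ℝ) w : (Pl K S → ℝ) →ₗ[ℝ] ℝ)

theorem mem_hyper (S : Finset (HeightOneSpectrum (𝓞 K))) (f : Pl K S → ℝ) :
    f ∈ hyper K S ↔ ∑ w, f w = 0 := by
  simp [hyper]

open NumberField.Units NumberField.Units.dirichletUnitTheorem in
/-- the logarithms of units span the part of the hyperplane supported at infinity -/
theorem inf_mem_span (S : Finset (HeightOneSpectrum (𝓞 K))) (f : Pl K S → ℝ)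
    (hf : ∑ w, f w = 0) (hfin : ∀ v : S, f (Sum.inr v) = 0) :
    f ∈ Submodule.span ℝ (plog S '' (U K S : Set (Additive Kˣ))) := by
  classical
  set E : logSpace K →ₗ[ℝ] (Pl K S → ℝ) :=
    LinearMap.pi (fun w => match w with
      | Sum.inl w => if h : w = w₀ then
          -(∑ w', LinearMap.proj (R := ℝ) (φ := fun _ => ℝ) w' : logSpace K →ₗ[ℝ] ℝ)
          else LinearMap.proj (R := ℝ) (φ := fun _ => ℝ) ⟨w, h⟩
      | Sum.inr _ => 0) with hE
  have hspan : Submodule.map E ⊤ ≤ Submodule.span ℝ (plog S '' (U K S : Set (Additive Kˣ))) := by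
    rw [← unitLattice_span_eq_top K, Submodule.map_span]
    apply Submodule.span_mono
    rintro _ ⟨g, ⟨u, _, rfl⟩, rfl⟩
    set x : Additive Kˣ := Additive.ofMul (Units.map (algebraMap (𝓞 K) K).toMonoidHom u.toMul)
      with hx
    refine ⟨x, ?_, ?_⟩
    · rw [SetLike.mem_coe, mem_U_iff]
      intro v _
      have h1 := (FinitePlace.norm_eq_one_iff_notMem (K := K) v (u.toMul : 𝓞 K)).mpr (by
        intro h
        exact v.isPrime.ne_top (Ideal.eq_top_of_isUnit_mem _ h u.toMul.isUnit))
      exact h1
    · funext w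
      rcases w with w | v
      · rw [plog_inl, hE]
        by_cases h : w = w₀
        · subst h
          have := sum_logEmbedding_component u.toMul
          simp only [LinearMap.pi_apply, dif_pos, LinearMap.neg_apply, LinearMap.sum_apply,
            LinearMap.proj_apply]
          have h3 : ∑ d, (logEmbedding K).toIntLinearMap u d
              = -↑w₀.mult * Real.log (w₀ ((algebraMap (𝓞 K) K) ↑(Additive.toMul u))) := this
          rw [h3]
          simp [hx]
        · simp only [LinearMap.pi_apply, dif_neg h, LinearMap.proj_apply]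
          rfl
      · rw [plog_inr, hE]
        have h1 := (FinitePlace.norm_eq_one_iff_notMem (K := K) v.1 (u.toMul : 𝓞 K)).mpr (by
          intro h
          exact v.1.isPrime.ne_top (Ideal.eq_top_of_isUnit_mem _ h u.toMul.isUnit))
        have h2 : FinitePlace.mk v.1 (x.toMul : K) = 1 := h1
        rw [h2]
        simp
  refine hspan ⟨fun w => f (Sum.inl w.1), trivial, ?_⟩
  funext w
  rcases w with w | v
  · by_cases h : w = w₀
    · subst h
      simp only [hE, LinearMap.pi_apply, dif_pos, LinearMap.neg_apply, LinearMap.sum_apply,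
            LinearMap.proj_apply]
      rw [Fintype.sum_sum_type] at hf
      simp only [hfin, Finset.sum_const_zero, add_zero] at hf
      rw [Fintype.sum_eq_add_sum_subtype_ne _ (w₀ : InfinitePlace K)] at hf
      linarith
    · simp only [hE, LinearMap.pi_apply, dif_neg h, LinearMap.proj_apply]
  · rw [hfin]
    rfl

/-- **span part of the `S`-unit theorem** -/
theorem span_plog (S : Finset (HeightOneSpectrum (𝓞 K))) :
    Submodule.span ℝ (plog S '' (U K S : Set (Additive Kˣ))) = hyper K S := by
  classical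
  apply le_antisymm
  · rw [Submodule.span_le]
    rintro _ ⟨x, hx, rfl⟩
    rw [SetLike.mem_coe, mem_hyper]
    exact sum_plog S x hx
  · intro f hf
    rw [mem_hyper] at hf
    -- the elements `a v`
    choose a ha0 ha using exists_generator (K := K)
    have haK : ∀ v, (algebraMap (𝓞 K) K (a v)) ≠ 0 := by
      intro v
      rw [Ne, FaithfulSMul.algebraMap_eq_zero_iff]
      exact ha0 v
    set x : HeightOneSpectrum (𝓞 K) → Additive Kˣ :=
      fun v => Additive.ofMul (Units.mk0 _ (haK v)) with hx
    have hval : ∀ v v', v' ≠ v → FinitePlace.mk v' ((x v).toMul : K) = 1 := by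
      intro v v' h
      have h1 := (FinitePlace.norm_eq_one_iff_notMem (K := K) v' (a v)).mpr (by
        rw [ha v v']; exact h)
      exact h1
    have hval2 : ∀ v, FinitePlace.mk v ((x v).toMul : K) < 1 := by
      intro v
      exact (FinitePlace.norm_lt_one_iff_mem (K := K) v (a v)).mpr ((ha v v).mpr rfl)
    have hxU : ∀ v ∈ S, x v ∈ U K S := by
      intro v hv
      rw [mem_U_iff]
      intro v' hv'
      exact hval v v' (fun h => hv' (h ▸ hv))
    have hlog : ∀ v : S, plog S (x v.1) (Sum.inr v) ≠ 0 := by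
      intro v
      rw [plog_inr]
      have hpos : 0 < FinitePlace.mk v.1 ((x v.1).toMul : K) := by
        rw [FinitePlace.pos_iff]
        exact (x v.1).toMul.ne_zero
      exact (Real.log_neg hpos (hval2 v.1)).ne
    set g : Pl K S → ℝ := ∑ v : S, (f (Sum.inr v) / plog S (x v.1) (Sum.inr v)) • plog S (x v.1)
      with hg
    have hgmem : g ∈ Submodule.span ℝ (plog S '' (U K S : Set (Additive Kˣ))) := by
      apply Submodule.sum_mem
      intro v _
      apply Submodule.smul_mem
      exact Submodule.subset_span ⟨x v.1, hxU v.1 v.2, rfl⟩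
    have hgsum : ∑ w, g w = 0 := by
      have : g ∈ hyper K S := by
        apply Submodule.sum_mem
        intro v _
        apply Submodule.smul_mem
        rw [mem_hyper]
        exact sum_plog S _ (hxU v.1 v.2)
      rwa [mem_hyper] at this
    have hginr : ∀ v : S, g (Sum.inr v) = f (Sum.inr v) := by
      intro v
      rw [hg, Finset.sum_apply, Finset.sum_eq_single v]
      · simp only [Pi.smul_apply, smul_eq_mul]
        rw [div_mul_cancel₀ _ (hlog v)]
      · intro v' _ hne
        simp only [Pi.smul_apply, smul_eq_mul]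
        rw [plog_inr S (x v'.1) v, hval v'.1 v.1 (fun h => hne (Subtype.ext h.symm))]
        simp
      · simp
    have hsub := inf_mem_span S (f - g) (by simp [Finset.sum_sub_distrib, hf, hgsum]) (by
      intro v
      simp [hginr v])
    have := Submodule.add_mem _ hsub hgmem
    simpa using this

end SUnit

end

section

/-!
# The S-unit theorem, lattice form
-/

open NumberField IsDedekindDomain Module
open scoped nonZeroDivisors TensorProduct

namespace SUnit

variable {K : Type*} [Field K] [NumberField K]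

/-- the logarithmic map from `S`-units to the hyperplane -/
noncomputable def ell (S : Finset (HeightOneSpectrum (𝓞 K))) : U K S →ₗ[ℤ] hyper K S where
  toFun x := ⟨plog S x.1, (mem_hyper S _).mpr (sum_plog S x.1 x.2)⟩
  map_add' x y := by
    apply Subtype.ext
    show plog S (x.1 + y.1) = plog S x.1 + plog S y.1
    rw [map_add]
  map_smul' n x := by
    apply Subtype.ext
    show plog S (n • x.1) = n • plog S x.1
    rw [map_zsmul]

theorem ell_coe (S : Finset (HeightOneSpectrum (𝓞 K))) (x : U K S) :
    (ell S x : Pl K S → ℝ) = plog S x.1 := rfl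

/-- the `S`-unit lattice -/
noncomputable def lat (S : Finset (HeightOneSpectrum (𝓞 K))) : Submodule ℤ (hyper K S) :=
  LinearMap.range (ell S)

theorem lat_ball_finite (S : Finset (HeightOneSpectrum (𝓞 K))) (r : ℝ) :
    {x : hyper K S | x ∈ lat S ∧ ‖x‖ ≤ r}.Finite := by
  by_cases hr : 0 ≤ r
  · refine ((finite_bounded S r).image (fun x : Additive Kˣ => (plog S x))).preimage
      (Subtype.val_injective.injOn) |>.subset ?_
    rintro _ ⟨⟨x, rfl⟩, hx⟩
    refine ⟨x.1, ⟨x.2, fun w => ?_⟩, rfl⟩
    have h1 : ‖(plog S x.1)‖ ≤ r := hx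
    rw [pi_norm_le_iff_of_nonneg hr] at h1
    exact h1 w
  · convert Set.finite_empty
    ext x
    simp only [Set.mem_ofPred_eq, Set.mem_empty_iff_false, iff_false, not_and, not_le]
    intro _
    exact lt_of_lt_of_le (not_le.mp hr) (norm_nonneg _)

instance (S : Finset (HeightOneSpectrum (𝓞 K))) : DiscreteTopology (lat S) := by
  refine discreteTopology_of_isOpen_singleton_zero ?_
  refine isOpen_singleton_of_finite_mem_nhds 0 (s := Metric.closedBall 0 1) ?_ ?_
  · exact Metric.closedBall_mem_nhds _ (by simp)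
  · refine Set.Finite.of_finite_image ?_ (Set.injOn_of_injective Subtype.val_injective)
    refine (lat_ball_finite S 1).subset ?_
    rintro _ ⟨x, hx, rfl⟩
    refine ⟨x.2, ?_⟩
    rw [mem_closedBall_zero_iff] at hx
    exact hx

instance (S : Finset (HeightOneSpectrum (𝓞 K))) : IsZLattice ℝ (lat S) where
  span_top := by
    rw [eq_top_iff]
    have h := span_plog S
    have hinj : Function.Injective (hyper K S).subtype := Subtype.val_injective
    rw [← Submodule.map_le_map_iff_of_injective hinj, Submodule.map_subtype_top,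
      Submodule.map_span]
    refine h.ge.trans (Submodule.span_mono ?_)
    rintro _ ⟨x, hx, rfl⟩
    exact ⟨ell S ⟨x, hx⟩, ⟨⟨x, hx⟩, rfl⟩, rfl⟩

theorem isOfFinAddOrder_of_plog_eq_zero (S : Finset (HeightOneSpectrum (𝓞 K)))
    (x : Additive Kˣ) (hx : x ∈ U K S) (h0 : plog S x = 0) : IsOfFinAddOrder x := by
  have hfin := finite_bounded S 0
  have hmap : ∀ n : ℕ, n • x ∈ {x : Additive Kˣ | x ∈ U K S ∧ ∀ w, |plog S x w| ≤ 0} := by
    intro n
    refine ⟨AddSubgroup.nsmul_mem _ hx n, fun w => ?_⟩
    rw [map_nsmul, h0]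
    simp
  by_contra hcon
  have hinj : Function.Injective (fun n : ℕ => n • x) :=
    injective_nsmul_iff_not_isOfFinAddOrder.mpr hcon
  exact Set.infinite_range_of_injective hinj (hfin.subset (by
    rintro _ ⟨n, rfl⟩
    exact hmap n))

/-- **The `S`-unit theorem**, explicit form: fundamental `S`-units. -/
theorem exists_fundamental (S : Finset (HeightOneSpectrum (𝓞 K))) :
    ∃ u : Fin (finrank ℝ (hyper K S)) → U K S,
      LinearIndependent ℝ (fun i => plog S (u i).1) ∧
      Submodule.span ℝ (Set.range fun i => plog S (u i).1) = hyper K S ∧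
      ∀ x : U K S, ∃ n : Fin (finrank ℝ (hyper K S)) → ℤ,
        IsOfFinAddOrder (x - ∑ i, n i • u i) := by
  classical
  have hfree : Module.Free ℤ (lat S) := ZLattice.module_free ℝ (lat S)
  have hfinite : Module.Finite ℤ (lat S) := ZLattice.module_finite ℝ (lat S)
  have hrank : finrank ℤ (lat S) = finrank ℝ (hyper K S) := ZLattice.rank ℝ (lat S)
  obtain ⟨b⟩ : Nonempty (Basis (Fin (finrank ℝ (hyper K S))) ℤ (lat S)) := by
    rw [← hrank]
    exact ⟨Module.finBasis ℤ (lat S)⟩
  choose u hu using fun i => (b i).2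
  have hli : LinearIndependent ℝ (fun i => ((b i : lat S) : hyper K S)) := by
    have := (b.ofZLatticeBasis ℝ (lat S)).linearIndependent
    have h2 : (⇑(b.ofZLatticeBasis ℝ (lat S))) = fun i => ((b i : lat S) : hyper K S) := by
      funext i
      exact b.ofZLatticeBasis_apply ℝ (lat S) i
    rwa [h2] at this
  have hsp : Submodule.span ℝ (Set.range fun i => ((b i : lat S) : hyper K S)) = ⊤ := by
    have := (b.ofZLatticeBasis ℝ (lat S)).span_eq
    have h2 : (⇑(b.ofZLatticeBasis ℝ (lat S))) = fun i => ((b i : lat S) : hyper K S) := by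
      funext i
      exact b.ofZLatticeBasis_apply ℝ (lat S) i
    rwa [h2] at this
  refine ⟨u, ?_, ?_, ?_⟩
  · have := hli.map' (hyper K S).subtype (Submodule.ker_subtype _)
    have h3 : (⇑(hyper K S).subtype ∘ fun i => ((b i : lat S) : hyper K S))
        = fun i => plog S (u i).1 := by
      funext i
      simp only [Function.comp_apply, ← hu i, Submodule.subtype_apply, ell_coe]
    rwa [h3] at this
  · have := congrArg (Submodule.map (hyper K S).subtype) hsp
    rw [Submodule.map_span, Submodule.map_subtype_top] at this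
    have h3 : (⇑(hyper K S).subtype '' Set.range fun i => ((b i : lat S) : hyper K S))
        = Set.range fun i => plog S (u i).1 := by
      rw [← Set.range_comp]
      congr 1
      funext i
      simp only [Function.comp_apply, ← hu i, Submodule.subtype_apply, ell_coe]
    rwa [h3] at this
  · intro x
    set y : lat S := ⟨ell S x, ⟨x, rfl⟩⟩ with hy
    refine ⟨fun i => b.repr y i, ?_⟩
    have h1 := b.sum_repr y
    have h2 : ell S (x - ∑ i, b.repr y i • u i) = 0 := by
      rw [map_sub, map_sum]
      simp only [map_smul, hu]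
      have h3 := congrArg (Submodule.subtype (lat S)) h1
      rw [map_sum] at h3
      simp only [map_smul, Submodule.subtype_apply] at h3
      rw [h3, sub_self]
    have h4 := isOfFinAddOrder_of_plog_eq_zero S _ (x - ∑ i, b.repr y i • u i).2 (by
      have := congrArg Subtype.val h2
      exact this)
    exact (AddSubmonoid.isOfFinAddOrder_coe (x := x - ∑ i, b.repr y i • u i)).mp h4

end SUnit

end

section

/-!
# The S-unit theorem, tensor form
-/

open NumberField IsDedekindDomain Module
open scoped nonZeroDivisors TensorProduct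

namespace SUnit

variable {K : Type*} [Field K] [NumberField K]

/-- a torsion element dies in a characteristic zero base change -/
theorem tmul_eq_zero_of_torsion {M : Type*} [AddCommGroup M] {k : Type*} [Field k] [CharZero k]
    (t : M) (ht : IsOfFinAddOrder t) (c : k) : (c ⊗ₜ[ℤ] t : k ⊗[ℤ] M) = 0 := by
  obtain ⟨n, hn, hnt⟩ := isOfFinAddOrder_iff_nsmul_eq_zero.mp ht
  have hn' : (n : k) ≠ 0 := by exact_mod_cast hn.ne'
  have h : c = (n : ℤ) • (c / n) := by
    rw [zsmul_eq_mul]
    push_cast
    field_simp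
  rw [h, TensorProduct.smul_tmul]
  have : (n : ℤ) • t = 0 := by
    rw [natCast_zsmul]
    exact hnt
  rw [this, TensorProduct.tmul_zero]

/-- every element of `k ⊗ U` is a combination of the fundamental units -/
theorem tensor_span (S : Finset (HeightOneSpectrum (𝓞 K))) (k : Type*) [Field k] [CharZero k]
    {ι : Type*} [Fintype ι] (u : ι → U K S)
    (hu : ∀ x : U K S, ∃ n : ι → ℤ, IsOfFinAddOrder (x - ∑ i, n i • u i)) :
    Submodule.span k (Set.range fun i => (1 : k) ⊗ₜ[ℤ] u i) = ⊤ := by
  rw [eq_top_iff]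
  rintro z -
  induction z using TensorProduct.induction_on with
  | zero => exact Submodule.zero_mem _
  | add x y hx hy => exact Submodule.add_mem _ hx hy
  | tmul c x =>
    obtain ⟨n, hn⟩ := hu x
    have h1 : (c ⊗ₜ[ℤ] x : k ⊗[ℤ] U K S) = ∑ i, (c * n i) • ((1 : k) ⊗ₜ[ℤ] u i) := by
      have h2 : x = (x - ∑ i, n i • u i) + ∑ i, n i • u i := by abel
      conv_lhs => rw [h2]
      rw [TensorProduct.tmul_add, tmul_eq_zero_of_torsion _ hn, zero_add, TensorProduct.tmul_sum]
      refine Finset.sum_congr rfl fun i _ => ?_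
      rw [TensorProduct.smul_tmul', smul_eq_mul, mul_one, mul_comm, ← zsmul_eq_mul,
        TensorProduct.smul_tmul]
    rw [h1]
    refine Submodule.sum_mem _ fun i _ => Submodule.smul_mem _ _ ?_
    exact Submodule.subset_span ⟨i, rfl⟩

/-- `plog` as a `ℤ`-linear map on `S`-units with values in `k`-valued functions -/
noncomputable def plogk (S : Finset (HeightOneSpectrum (𝓞 K))) (k : Type*) [Field k]
    [Algebra ℝ k] : U K S →ₗ[ℤ] (Pl K S → k) where
  toFun x w := algebraMap ℝ k (plog S x.1 w)
  map_add' x y := by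
    funext w
    show algebraMap ℝ k (plog S (x.1 + y.1) w) = _ + _
    rw [map_add, Pi.add_apply, map_add]
  map_smul' n x := by
    funext w
    show algebraMap ℝ k (plog S (n • x.1) w) = n • _
    rw [map_zsmul, Pi.smul_apply, map_zsmul]

/-- the `k`-linear logarithmic map `k ⊗ U → k^{S(K)}` -/
noncomputable def lam (S : Finset (HeightOneSpectrum (𝓞 K))) (k : Type*) [Field k]
    [Algebra ℝ k] : k ⊗[ℤ] U K S →ₗ[k] (Pl K S → k) :=
  (plogk S k).liftBaseChange k

@[simp] theorem lam_tmul (S : Finset (HeightOneSpectrum (𝓞 K))) (k : Type*) [Field k]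
    [Algebra ℝ k] (c : k) (x : U K S) (w : Pl K S) :
    lam S k (c ⊗ₜ[ℤ] x) w = c * algebraMap ℝ k (plog S x.1 w) := by
  simp [lam, plogk]

/-- the hyperplane over `k` -/
noncomputable def hyperk (K : Type*) [Field K] [NumberField K]
    (S : Finset (HeightOneSpectrum (𝓞 K))) (k : Type*) [Field k] : Submodule k (Pl K S → k) :=
  LinearMap.ker (∑ w, LinearMap.proj (R := k) (φ := fun _ => k) w : (Pl K S → k) →ₗ[k] k)

theorem mem_hyperk (S : Finset (HeightOneSpectrum (𝓞 K))) {k : Type*} [Field k]
    (f : Pl K S → k) : f ∈ hyperk K S k ↔ ∑ w, f w = 0 := by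
  simp [hyperk]

theorem finrank_hyperk (S : Finset (HeightOneSpectrum (𝓞 K))) (k : Type*) [Field k] :
    finrank k (hyperk K S k) + 1 = Fintype.card (Pl K S) := by
  classical
  set φ := (∑ w, LinearMap.proj (R := k) (φ := fun _ => k) w : (Pl K S → k) →ₗ[k] k) with hφ
  have h1 := LinearMap.finrank_range_add_finrank_ker φ
  have h2 : LinearMap.range φ = ⊤ := by
    rw [LinearMap.range_eq_top]
    intro c
    obtain ⟨w₀⟩ : Nonempty (Pl K S) := by
      obtain ⟨w⟩ : Nonempty (InfinitePlace K) := inferInstance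
      exact ⟨Sum.inl w⟩
    refine ⟨Pi.single w₀ c, ?_⟩
    rw [hφ, LinearMap.sum_apply]
    simp only [LinearMap.proj_apply]
    rw [Finset.sum_eq_single w₀]
    · simp
    · intro b _ hb
      rw [Pi.single_eq_of_ne hb]
    · simp
  rw [h2, finrank_top, finrank_self, finrank_fintype_fun_eq_card] at h1
  show finrank k (LinearMap.ker φ) + 1 = _
  omega

theorem finrank_hyper (S : Finset (HeightOneSpectrum (𝓞 K))) (k : Type*) [Field k] :
    finrank ℝ (hyper K S) = finrank k (hyperk K S k) := by
  have h1 := finrank_hyperk S k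
  have h2 : finrank ℝ (hyper K S) + 1 = Fintype.card (Pl K S) := finrank_hyperk S ℝ
  omega

variable (k : Type*) [Field k] [Algebra ℝ k]

/-- **`S`-unit theorem, injectivity**: `λ_S : k ⊗ O_S^× → k^{S(K)}` is injective for every
field `k ⊇ ℝ`. -/
theorem lam_injective (S : Finset (HeightOneSpectrum (𝓞 K))) :
    Function.Injective (lam S k) := by
  classical
  have : CharZero k := charZero_of_injective_algebraMap (algebraMap ℝ k).injective
  obtain ⟨u, hli, -, hu⟩ := exists_fundamental S
  have hsp := tensor_span S k u hu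
  have hli2 : LinearIndependent k (fun i => lam S k ((1 : k) ⊗ₜ[ℤ] u i)) := by
    have h1 := linearIndependent_algebraMap_comp_iff (S := k) |>.mpr hli
    have h2 : (fun i => lam S k ((1 : k) ⊗ₜ[ℤ] u i))
        = fun i => ⇑(algebraMap ℝ k) ∘ (plog S) ↑(u i) := by
      funext i w
      simp
    rw [h2]
    exact h1
  have hli3 : LinearIndependent k (fun i => (1 : k) ⊗ₜ[ℤ] u i) := LinearIndependent.of_comp _ hli2
  exact LinearMap.injective_of_linearIndependent hsp hli2

omit [Algebra ℝ k] in
/-- `k ⊗ O_S^×` is finite dimensional -/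
theorem finite_tensor (S : Finset (HeightOneSpectrum (𝓞 K))) [CharZero k] :
    Module.Finite k (k ⊗[ℤ] U K S) := by
  classical
  obtain ⟨u, -, -, hu⟩ := exists_fundamental S
  exact ⟨⟨Finset.univ.image (fun i => (1 : k) ⊗ₜ[ℤ] u i), by
    rw [Finset.coe_image, Finset.coe_univ, Set.image_univ]
    exact tensor_span S k u hu⟩⟩

/-- **`S`-unit theorem, image**: the image of `λ_S` is the hyperplane `∑ = 0`. -/
theorem range_lam (S : Finset (HeightOneSpectrum (𝓞 K))) :
    LinearMap.range (lam S k) = hyperk K S k := by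
  classical
  have : CharZero k := charZero_of_injective_algebraMap (algebraMap ℝ k).injective
  have hle : LinearMap.range (lam S k) ≤ hyperk K S k := by
    rintro _ ⟨z, rfl⟩
    induction z using TensorProduct.induction_on with
    | zero => rw [map_zero]; exact Submodule.zero_mem _
    | add x y hx hy => rw [map_add]; exact Submodule.add_mem _ hx hy
    | tmul c x =>
      rw [mem_hyperk]
      simp only [lam_tmul]
      rw [← Finset.mul_sum, ← map_sum, sum_plog S x.1 x.2, map_zero, mul_zero]
  refine Submodule.eq_of_le_of_finrank_le hle ?_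
  obtain ⟨u, hli, -, hu⟩ := exists_fundamental S
  have hli2 : LinearIndependent k (fun i => lam S k ((1 : k) ⊗ₜ[ℤ] u i)) := by
    have h1 := linearIndependent_algebraMap_comp_iff (S := k) |>.mpr hli
    have h2 : (fun i => lam S k ((1 : k) ⊗ₜ[ℤ] u i))
        = fun i => ⇑(algebraMap ℝ k) ∘ (plog S) ↑(u i) := by
      funext i w
      simp
    rw [h2]
    exact h1
  have h5 : LinearIndependent k (fun i => (⟨lam S k ((1 : k) ⊗ₜ[ℤ] u i), ⟨_, rfl⟩⟩ :
      LinearMap.range (lam S k))) := by
    refine LinearIndependent.of_comp (Submodule.subtype _) ?_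
    exact hli2
  have h6 := h5.fintype_card_le_finrank
  rw [Fintype.card_fin, finrank_hyper S k] at h6
  exact h6

/-- the `S`-units are a finitely generated group -/
instance (S : Finset (HeightOneSpectrum (𝓞 K))) : Module.Finite ℤ (U K S) := by
  classical
  obtain ⟨u, -, -, hu⟩ := exists_fundamental S
  -- torsion is finite
  have htor : {x : U K S | IsOfFinAddOrder x}.Finite := by
    have h1 := finite_bounded S 0
    refine Set.Finite.of_finite_image (f := fun x : U K S => x.1) (h1.subset ?_)
      Subtype.val_injective.injOn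
    rintro _ ⟨x, hx, rfl⟩
    refine ⟨x.2, fun w => ?_⟩
    obtain ⟨n, hn, hnx⟩ := isOfFinAddOrder_iff_nsmul_eq_zero.mp hx
    have h2 : n • plog S x.1 = 0 := by
      rw [← map_nsmul]
      have : n • x.1 = 0 := by
        have := congrArg Subtype.val hnx
        exact this
      rw [this, map_zero]
    have h3 := congrFun h2 w
    have h4 : plog S x.1 w = 0 := by
      simpa [hn.ne'] using h3
    rw [h4]
    simp
  refine ⟨⟨Finset.univ.image u ∪ htor.toFinset, ?_⟩⟩
  rw [eq_top_iff]
  rintro x -
  obtain ⟨n, hn⟩ := hu x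
  have h2 : x = (x - ∑ i, n i • u i) + ∑ i, n i • u i := by abel
  rw [h2]
  refine Submodule.add_mem _ ?_ (Submodule.sum_mem _ fun i _ => Submodule.smul_mem _ _ ?_)
  · apply Submodule.subset_span
    simp only [Finset.coe_union, Set.mem_union, Set.Finite.coe_toFinset, Set.mem_ofPred_eq]
    exact Or.inr hn
  · apply Submodule.subset_span
    simp

end SUnit

end
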