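import Mathlib
import Pool.Agent.PTWX.C17
import Pool.Agent.PTWX.C34
import Pool.Agent.PTWX.C36
import Pool.Agent.PTWX.C38
import Pool.Agent.PTWX.C42

/-! Parts: PT.F3U, PT3.TAMG, PT3.TADT, PTE.GALDS, PT3.GALG, PT3.FCL0, PTKX.IF1 -/

namespace Pool.Agent.PT3.TADT
end Pool.Agent.PT3.TADT

namespace Pool.Agent.PTE.GALDS
end Pool.Agent.PTE.GALDS

namespace Pool.Agent.PTK.IF1
end Pool.Agent.PTK.IF1

section

/-!
# F3U: the case of two noncubes at a place not dividing `B`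
-/

namespace Pool.Agent.PT

open Pool.Agent.Lib_helper18 Pool.Agent.Lib_helper18.Eis Pool.Agent.Lib_helper84.Cub

namespace F3U

/-- `u ^ 3 + b v ^ 3` has no nontrivial zero modulo `l` when `b` is not a cube. -/
theorem noncube {l b : Eis} (hl : Prime l) (h3 : ¬ l ∣ 3) (hb : ¬ l ∣ b) (hs : sym l b ≠ 0)
    {u v : Eis} (h : l ∣ u ^ 3 + b * v ^ 3) : l ∣ u ∧ l ∣ v := by
  have hv : l ∣ v := by
    by_contra hv
    have hu : ¬ l ∣ u := by
      intro hu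
      have h1 : l ∣ b * v ^ 3 := (dvd_add_right (dvd_pow hu (by norm_num))).1 h
      rcases hl.dvd_or_dvd h1 with h2 | h2
      · exact hb h2
      · exact hv (hl.dvd_of_dvd_pow h2)
    apply hs
    have hv3 : ¬ l ∣ v ^ 3 := fun h' => hv (hl.dvd_of_dvd_pow h')
    have hu' : ¬ l ∣ -u := by rwa [dvd_neg]
    have e1 : sym l (b * v ^ 3) = sym l ((-u) ^ 3) := by
      apply sym_congr
      have e2 : b * v ^ 3 - (-u) ^ 3 = u ^ 3 + b * v ^ 3 := by ring
      rw [e2]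
      exact h
    rw [sym_mul hl h3 hb hv3, sym_cube hl h3 hv, sym_cube hl h3 hu', add_zero] at e1
    exact e1
  refine ⟨?_, hv⟩
  have h1 : l ∣ b * v ^ 3 := Dvd.dvd.mul_left (dvd_pow hv (by norm_num)) _
  exact hl.dvd_of_dvd_pow ((dvd_add_left h1).1 h)

/-- The key step: the case where not all four numbers are divisible by `l`. -/
theorem key {l b x : Eis} (hl : Prime l) (h3 : ¬ l ∣ 3) (hb : ¬ l ∣ b) (hs : sym l b ≠ 0)
    (hx : ¬ l ∣ x) (hxs : sym l x ≠ 0) {p q p' q' : Eis}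
    (h : p ^ 3 + b * q ^ 3 = x * (p' ^ 3 + b * q' ^ 3))
    (hn : ¬ (l ∣ p ∧ l ∣ q ∧ l ∣ p' ∧ l ∣ q')) (i : ℕ) : ¬ l ∣ q * p' - w ^ i * p * q' := by
  intro hG
  have hw3 : (w ^ i) ^ 3 = 1 := by
    rw [← pow_mul, mul_comm, pow_mul, w_cube, one_pow]
  have hG3 : l ∣ (q * p') ^ 3 - (p * q') ^ 3 := by
    have e1 : (q * p') ^ 3 - (p * q') ^ 3 = (q * p') ^ 3 - (w ^ i * p * q') ^ 3 := by
      have e2 : (w ^ i * p * q') ^ 3 = (w ^ i) ^ 3 * (p * q') ^ 3 := by ring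
      rw [e2, hw3, one_mul]
    rw [e1]
    exact hG.trans (sub_dvd_pow_sub_pow _ _ 3)
  have h5 : l ∣ (x * p' ^ 3 - p ^ 3) * (p' ^ 3 + b * q' ^ 3) := by
    have e1 : (x * p' ^ 3 - p ^ 3) * (p' ^ 3 + b * q' ^ 3) =
        b * ((q * p') ^ 3 - (p * q') ^ 3) := by
      linear_combination (-(p' ^ 3)) * h
    rw [e1]
    exact hG3.mul_left _
  rcases hl.dvd_or_dvd h5 with h6 | h6
  · have hx' : ¬ l ∣ -x := by rwa [dvd_neg]
    have hxs' : sym l (-x) ≠ 0 := by rwa [sym_neg hl h3 hx]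
    have h7 : l ∣ p ^ 3 + (-x) * p' ^ 3 := by
      have e1 : p ^ 3 + (-x) * p' ^ 3 = -(x * p' ^ 3 - p ^ 3) := by ring
      rw [e1, dvd_neg]
      exact h6
    obtain ⟨h8, h9⟩ := noncube hl h3 hx' hxs' h7
    have h10 : l ∣ b * (q ^ 3 + (-x) * q' ^ 3) := by
      have e1 : b * (q ^ 3 + (-x) * q' ^ 3) = x * p' ^ 3 - p ^ 3 := by
        linear_combination h
      rw [e1]
      exact h6
    obtain ⟨h11, h12⟩ := noncube hl h3 hx' hxs' ((hl.dvd_or_dvd h10).resolve_left hb)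
    exact hn ⟨h8, h11, h9, h12⟩
  · obtain ⟨h8, h9⟩ := noncube hl h3 hb hs h6
    have h10 : l ∣ p ^ 3 + b * q ^ 3 := by
      rw [h]
      exact h6.mul_left _
    obtain ⟨h11, h12⟩ := noncube hl h3 hb hs h10
    exact hn ⟨h11, h12, h8, h9⟩

/-- The maximal power which divides all four numbers. -/
theorem exists_max {l p q p' q' : Eis} (hl : Prime l) (h : ¬ (p = 0 ∧ q = 0)) :
    ∃ (m : ℕ) (P Q P' Q' : Eis), p = l ^ m * P ∧ q = l ^ m * Q ∧ p' = l ^ m * P' ∧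
      q' = l ^ m * Q' ∧ ¬ (l ∣ P ∧ l ∣ Q ∧ l ∣ P' ∧ l ∣ Q') := by
  classical
  have hex : ∃ m : ℕ, ¬ (l ^ (m + 1) ∣ p ∧ l ^ (m + 1) ∣ q ∧ l ^ (m + 1) ∣ p' ∧
      l ^ (m + 1) ∣ q') := by
    by_cases hp : p = 0
    · have hq : q ≠ 0 := fun hq => h ⟨hp, hq⟩
      exact ⟨V l q, fun h' => (fin hl hq).not_pow_dvd_of_multiplicity_lt (Nat.lt_succ_self _) h'.2.1⟩
    · exact ⟨V l p, fun h' => (fin hl hp).not_pow_dvd_of_multiplicity_lt (Nat.lt_succ_self _) h'.1⟩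
  let m := Nat.find hex
  have hm := Nat.find_spec hex
  have hlow : l ^ m ∣ p ∧ l ^ m ∣ q ∧ l ^ m ∣ p' ∧ l ^ m ∣ q' := by
    rcases Nat.eq_zero_or_pos m with h0 | h0
    · rw [h0, pow_zero]
      exact ⟨one_dvd _, one_dvd _, one_dvd _, one_dvd _⟩
    · have h1 := Nat.find_min hex (m := m - 1) (Nat.sub_lt h0 one_pos)
      have h2 : m - 1 + 1 = m := Nat.sub_add_cancel h0
      rw [not_not, h2] at h1
      exact h1
  obtain ⟨⟨P, hP⟩, ⟨Q, hQ⟩, ⟨P', hP'⟩, ⟨Q', hQ'⟩⟩ := hlow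
  refine ⟨m, P, Q, P', Q', hP, hQ, hP', hQ', ?_⟩
  rintro ⟨⟨a, rfl⟩, ⟨b, rfl⟩, ⟨c, rfl⟩, ⟨d, rfl⟩⟩
  apply hm
  change l ^ (m + 1) ∣ p ∧ l ^ (m + 1) ∣ q ∧ l ^ (m + 1) ∣ p' ∧ l ^ (m + 1) ∣ q'
  refine ⟨⟨a, ?_⟩, ⟨b, ?_⟩, ⟨c, ?_⟩, ⟨d, ?_⟩⟩
  · rw [hP, pow_succ, mul_assoc]
  · rw [hQ, pow_succ, mul_assoc]
  · rw [hP', pow_succ, mul_assoc]
  · rw [hQ', pow_succ, mul_assoc]

theorem ch_eq {l a : Eis} (h : ¬ l ∣ a) : ch l a = sym l a := by
  unfold ch up
  rw [V_eq_zero h, pow_zero]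
  congr 1
  exact EuclideanDomain.div_one a

end F3U

theorem F3U_thm (hSTM : STM) : F3U := by
  intro π B b x p q p' q' hB hAb hAx hS hπB hcb hcx
  have hl : Prime π.1 := π.2.1
  have h3 : ¬ π.1 ∣ 3 := by
    intro h
    have h1 := (dvd_three_iff hl).1 h
    have h2 : lam ∣ π.1 := h1.symm.dvd
    rw [lam_dvd_iff] at h2
    have h4 := π.2.2.1
    have h5 := π.2.2.2
    omega
  have hb : ¬ π.1 ∣ (b : Eis) := hAb.unr π hπB
  have hx : ¬ π.1 ∣ (x : Eis) := hAx.unr π hπB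
  rw [F3U.ch_eq hb] at hcb
  rw [F3U.ch_eq hx] at hcx
  have hw : ¬ π.1 ∣ w := not_dvd_of_isUnit hl isUnit_w
  -- the maximal power
  have hpq : ¬ ((p : Eis) = 0 ∧ (q : Eis) = 0) := by
    rintro ⟨h1, h2⟩
    have h1' : p = 0 := by
      have h4 := congrArg Eis.re h1
      simpa using h4
    have h2' : q = 0 := by
      have h4 := congrArg Eis.re h2
      simpa using h4
    apply hS.n1
    rw [h1', h2']
    ring
  obtain ⟨m, P, Q, P', Q', eP, eQ, eP', eQ', hn⟩ :=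
    F3U.exists_max (p' := (p' : Eis)) (q' := (q' : Eis)) hl hpq
  have heq : (p : Eis) ^ 3 + b * (q : Eis) ^ 3 = x * ((p' : Eis) ^ 3 + b * (q' : Eis) ^ 3) := by
    have h1 : ((p ^ 3 + b * q ^ 3 : ℤ) : Eis) = ((x * (p' ^ 3 + b * q' ^ 3) : ℤ) : Eis) := by
      rw [hS.eq]
    push_cast at h1
    exact h1
  have heq2 : P ^ 3 + (b : Eis) * Q ^ 3 = (x : Eis) * (P' ^ 3 + b * Q' ^ 3) := by
    have h0 : (π.1 ^ m) ^ 3 ≠ 0 := pow_ne_zero _ (pow_ne_zero _ hl.ne_zero)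
    apply mul_left_cancel₀ h0
    rw [eP, eQ, eP', eQ'] at heq
    linear_combination heq
  have hV : ∀ i, V π.1 (Gf p q p' q' i) = m + m := by
    intro i
    have e1 : Gf p q p' q' i = π.1 ^ (m + m) * (Q * P' - w ^ i * P * Q') := by
      unfold Gf
      rw [eP, eQ, eP', eQ', pow_add]
      ring
    rw [e1]
    exact V_pow_mul hl _ (F3U.key hl h3 hb hcb hx hcx heq2 hn i)
  have hVB : V π.1 (B : Eis) = 0 := V_eq_zero hπB
  have hVw : V π.1 w = 0 := V_eq_zero hw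
  have hVP : V π.1 ((B * x * b : ℤ) : Eis) = 0 := by
    apply V_eq_zero
    push_cast
    intro h
    rcases hl.dvd_or_dvd h with h1 | h1
    · rcases hl.dvd_or_dvd h1 with h2 | h2
      · exact hπB h2
      · exact hx h2
    · exact hb h1
  unfold UV tm
  rw [hV 1, hV 2, hVB, hVw, hVP]
  simp

end Pool.Agent.PT

end

section

/-!
# TAMG: the tame places, two noncubes or one noncube
-/

open NumberField IsDedekindDomain Finset
open scoped nonZeroDivisors Pointwise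

namespace Pool.Agent.PT3

open Pool.Agent.Lib_helper18 Pool.Agent.Lib_helper18.Eis
open Pool.Agent.Lib_helper84.Cub hiding Gf
open Pool.Agent.PT Pool.Agent.PTE

namespace TAMG

theorem f2bg (hSTM : STM) (hSPP : SPP) (hLCI : LCI) (hIF2 : IF2) : F2BG := by
  intro π B b x p q p' q' hB hb hx hsol hLb hLx
  have hLSym : LSym π.1 (tm π.1) 1 := hSTM π.1 π.2.1 (hSPP.2.2.2.1 π).1
  have h1 : ¬ (3 ∣ V π.1 (x : Eis) ∧ ch π.1 (x : Eis) = 0) :=
    fun h => hLx ((hLCI.1 π x hx.ne).2 h)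
  obtain ⟨j, hj, hj'⟩ := PT.F2B.tm_smul (hx.sym π) h1
  obtain ⟨N0, hN0⟩ := hIF2 π.1 (tm π.1) 1 hLSym b x p q p' q' hb.ne hx.ne hsol
  refine ⟨N0, fun r hr => ?_⟩
  have h2 := hN0 r hr
  have h3 : AS (tm π.1) (B : Eis) p q p' q' r = j * AS (tm π.1) (x : Eis) p q p' q' r := by
    unfold AS
    rw [hj, hj, hj, hj]
    ring
  rw [h3, h2, hj, hj, hj']
  ring

open PT.F3R in
theorem f3rg (hSTM : STM) : F3RG := by
  intro π B b x p q p' q' hB hb hx hs hdvd hVb hVx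
  have hπ : Prime π.1 := π.2.1
  have h3 := not_dvd_three π
  have S := hSTM π.1 hπ h3
  have B0 : (B : Eis) ≠ 0 := ne_zero_cast hB.ne
  have b0 : (b : Eis) ≠ 0 := ne_zero_cast hb.ne
  have x0 : (x : Eis) ≠ 0 := ne_zero_cast hx.ne
  have w0 : w ≠ 0 := isUnit_w.ne_zero
  have Vw : V π.1 w = 0 := V_eq_zero (not_dvd_of_isUnit hπ isUnit_w)
  have tw : ∀ y : Eis, tm π.1 w y = (V π.1 y : ZMod 3) * ch π.1 w := by
    intro y
    unfold tm
    rw [Vw]
    push_cast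
    ring
  have hv : (V π.1 (B : Eis) : ZMod 3) ≠ 0 := by
    rw [Ne, ← three_dvd_iff']
    have h1 : V π.1 (B : Eis) ≠ 0 := fun h => V_eq_zero_iff.1 h hdvd
    have h2 := hB.cf π
    omega
  have hβ : (V π.1 (b : Eis) : ZMod 3) ≠ 0 := by rwa [Ne, ← three_dvd_iff']
  have hξ : (V π.1 (x : Eis) : ZMod 3) ≠ 0 := by rwa [Ne, ← three_dvd_iff']
  have skw : ∀ a c : Eis, tm π.1 a c = - tm π.1 c a := by
    intro a c
    unfold tm
    ring
  have e3 : ∀ n : ℕ, ((3 * n : ℕ) : ZMod 3) = 0 := fun n => (three_dvd_iff' _).1 ⟨n, rfl⟩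
  -- the valuations of the four terms
  have c1 : (p : Eis) ^ 3 ≠ 0 → (V π.1 ((p : Eis) ^ 3) : ZMod 3) = 0 := by
    intro h
    have h1 : (p : Eis) ≠ 0 := fun h' => h (by rw [h']; ring)
    rw [V_pow hπ h1, e3]
  have c2 : (b : Eis) * (q : Eis) ^ 3 ≠ 0 →
      (V π.1 ((b : Eis) * (q : Eis) ^ 3) : ZMod 3) = V π.1 (b : Eis) := by
    intro h
    have h1 : (q : Eis) ≠ 0 := fun h' => h (by rw [h']; ring)
    rw [V_mul hπ b0 (pow_ne_zero _ h1), V_pow hπ h1, Nat.cast_add, e3, add_zero]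
  have c3 : -((x : Eis) * (p' : Eis) ^ 3) ≠ 0 →
      (V π.1 (-((x : Eis) * (p' : Eis) ^ 3)) : ZMod 3) = V π.1 (x : Eis) := by
    intro h
    have h1 : (p' : Eis) ≠ 0 := fun h' => h (by rw [h']; ring)
    rw [V_neg, V_mul hπ x0 (pow_ne_zero _ h1), V_pow hπ h1, Nat.cast_add, e3, add_zero]
  have c4 : -((x : Eis) * (b : Eis) * (q' : Eis) ^ 3) ≠ 0 →
      (V π.1 (-((x : Eis) * (b : Eis) * (q' : Eis) ^ 3)) : ZMod 3) =
        V π.1 (x : Eis) + V π.1 (b : Eis) := by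
    intro h
    have h1 : (q' : Eis) ≠ 0 := fun h' => h (by rw [h']; ring)
    rw [V_neg, V_mul hπ (mul_ne_zero x0 b0) (pow_ne_zero _ h1), V_mul hπ x0 b0, V_pow hπ h1,
      Nat.cast_add, e3, add_zero, Nat.cast_add]
  have heq : (p : Eis) ^ 3 + (b : Eis) * (q : Eis) ^ 3 =
      (x : Eis) * ((p' : Eis) ^ 3 + (b : Eis) * (q' : Eis) ^ 3) := by
    exact_mod_cast congrArg (Int.cast : ℤ → Eis) hs.eq
  have hn1 : (p : Eis) ^ 3 + (b : Eis) * (q : Eis) ^ 3 ≠ 0 := by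
    have := ne_zero_cast hs.n1
    push_cast at this
    exact this
  have hG : ∀ i, Gf p q p' q' i = (q : Eis) * p' - w ^ i * p * q' := fun i => rfl
  have hBxb : ((B * x * b : ℤ) : Eis) = (B : Eis) * x * b := by push_cast; ring
  have hsum : tm π.1 w ((B * x * b : ℤ) : Eis) = ((V π.1 (B : Eis) : ZMod 3) +
      V π.1 (x : Eis) + V π.1 (b : Eis)) * ch π.1 w := by
    rw [tw, hBxb, V_mul hπ (mul_ne_zero B0 x0) b0, V_mul hπ B0 x0]
    push_cast
    ring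
  unfold UV
  rw [hsum, tw, tw, ite3, ite3, Nat.cast_add, Nat.cast_add]
  by_cases hj : (V π.1 (b : Eis) : ZMod 3) = V π.1 (x : Eis)
  · obtain ⟨f1, f2, f3, f4, f5⟩ := four hπ (a := (p : Eis) ^ 3) (b := (b : Eis) * (q : Eis) ^ 3)
      (c := -((x : Eis) * (p' : Eis) ^ 3)) (d := -((x : Eis) * (b : Eis) * (q' : Eis) ^ 3))
      (by linear_combination heq) c1 c2 c3 c4 hβ.symm hξ.symm
      (by
        rw [← hj]
        intro h
        apply hβ
        linear_combination h + (V π.1 (b : Eis) : ZMod 3) * three_zmod)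
      (by
        intro h
        apply hξ
        linear_combination -h)
      (by
        intro h
        apply hβ
        linear_combination -h)
      (fun h => hn1 (by rw [h.1, h.2.1, add_zero]))
    obtain ⟨g1, g2⟩ := cmp hπ (A := -((x : Eis) * b)) (y := (q : Eis) * p') (z := (p : Eis) * q')
      (neg_ne_zero.2 (mul_ne_zero x0 b0)) f1 f2 f3 f4 f5 (by ring) (by ring)
    have hc : ∀ i, tm π.1 (B : Eis) (Gf p q p' q' i) = tm π.1 (B : Eis) ((q : Eis) * p') := by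
      intro i
      rw [skw, skw (B : Eis), S.cont ((q : Eis) * p') (Gf p q p' q' i) (B : Eis) g1 B0]
      have e : Gf p q p' q' i - (q : Eis) * p' = (p : Eis) * q' * (-w ^ i) := by
        rw [hG]
        ring
      rw [e]
      exact Dvd.dvd.mul_right g2 _
    rw [hc, hc, sub_self, zero_add, ← hj]
    exact fin1 _ _ _ hv hβ
  · obtain ⟨f1, f2, f3, f4, f5⟩ := four hπ (a := (b : Eis) * (q : Eis) ^ 3) (b := (p : Eis) ^ 3)
      (c := -((x : Eis) * (b : Eis) * (q' : Eis) ^ 3)) (d := -((x : Eis) * (p' : Eis) ^ 3))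
      (by linear_combination heq) c2 c1 c4 c3 hβ
      (by
        intro h
        apply hξ
        linear_combination -h)
      hj hξ.symm
      (by
        intro h
        apply hβ
        linear_combination h)
      (fun h => hn1 (by rw [h.1, h.2.1, add_zero]))
    obtain ⟨g1, g2⟩ := cmp hπ (A := -((x : Eis) * b)) (y := (p : Eis) * q') (z := (q : Eis) * p')
      (neg_ne_zero.2 (mul_ne_zero x0 b0)) f1 f2 f3 f4 f5 (by ring) (by ring)
    have hc : ∀ i, tm π.1 (B : Eis) (Gf p q p' q' i) =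
        -(tm π.1 (w ^ i) (B : Eis) + tm π.1 (-((p : Eis) * q')) (B : Eis)) := by
      intro i
      have gn : -((p : Eis) * q') ≠ 0 := neg_ne_zero.2 g1
      have wi : w ^ i ≠ 0 := pow_ne_zero _ w0
      have hVi : V π.1 (w ^ i * -((p : Eis) * q')) = V π.1 ((p : Eis) * q') := by
        rw [V_mul hπ wi gn, V_neg, V_eq_zero (not_dvd_of_isUnit hπ (isUnit_w.pow i)), zero_add]
      rw [skw, ← S.mul _ _ _ wi gn B0,
        S.cont (w ^ i * -((p : Eis) * q')) (Gf p q p' q' i) (B : Eis) (mul_ne_zero wi gn) B0]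
      have e : Gf p q p' q' i - w ^ i * -((p : Eis) * q') = (q : Eis) * p' := by
        rw [hG]
        ring
      rw [e, hVi]
      exact g2
    have hw2 : tm π.1 (w ^ 2) (B : Eis) = tm π.1 w (B : Eis) + tm π.1 w (B : Eis) := by
      rw [pow_two, S.mul _ _ _ w0 w0 B0]
    rw [hc, hc, hw2, pow_one, tw]
    have h6 := fin2 _ _ _ (ch π.1 w) hv hβ hξ hj
    rw [← h6]
    ring

theorem f3ug (hSTM : STM) : F3UG := by
  intro π B b x p q p' q' hB hAb hAx hS hπB hcb hcx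
  have hl : Prime π.1 := π.2.1
  have h3 : ¬ π.1 ∣ 3 := by
    intro h
    have h1 := (dvd_three_iff hl).1 h
    have h2 : lam ∣ π.1 := h1.symm.dvd
    rw [lam_dvd_iff] at h2
    have h4 := π.2.2.1
    have h5 := π.2.2.2
    omega
  have hb : ¬ π.1 ∣ (b : Eis) := hAb.unr π hπB
  have hx : ¬ π.1 ∣ (x : Eis) := hAx.unr π hπB
  rw [PT.F3U.ch_eq hb] at hcb
  rw [PT.F3U.ch_eq hx] at hcx
  have hw : ¬ π.1 ∣ w := not_dvd_of_isUnit hl isUnit_w
  -- the maximal power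
  have hpq : ¬ ((p : Eis) = 0 ∧ (q : Eis) = 0) := by
    rintro ⟨h1, h2⟩
    have h1' : p = 0 := by
      have h4 := congrArg Eis.re h1
      simpa using h4
    have h2' : q = 0 := by
      have h4 := congrArg Eis.re h2
      simpa using h4
    apply hS.n1
    rw [h1', h2']
    ring
  obtain ⟨m, P, Q, P', Q', eP, eQ, eP', eQ', hn⟩ :=
    PT.F3U.exists_max (p' := (p' : Eis)) (q' := (q' : Eis)) hl hpq
  have heq : (p : Eis) ^ 3 + b * (q : Eis) ^ 3 = x * ((p' : Eis) ^ 3 + b * (q' : Eis) ^ 3) := by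
    have h1 : ((p ^ 3 + b * q ^ 3 : ℤ) : Eis) = ((x * (p' ^ 3 + b * q' ^ 3) : ℤ) : Eis) := by
      rw [hS.eq]
    push_cast at h1
    exact h1
  have heq2 : P ^ 3 + (b : Eis) * Q ^ 3 = (x : Eis) * (P' ^ 3 + b * Q' ^ 3) := by
    have h0 : (π.1 ^ m) ^ 3 ≠ 0 := pow_ne_zero _ (pow_ne_zero _ hl.ne_zero)
    apply mul_left_cancel₀ h0
    rw [eP, eQ, eP', eQ'] at heq
    linear_combination heq
  have hV : ∀ i, V π.1 (Gf p q p' q' i) = m + m := by
    intro i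
    have e1 : Gf p q p' q' i = π.1 ^ (m + m) * (Q * P' - w ^ i * P * Q') := by
      unfold Gf
      rw [eP, eQ, eP', eQ', pow_add]
      ring
    rw [e1]
    exact V_pow_mul hl _ (PT.F3U.key hl h3 hb hcb hx hcx heq2 hn i)
  have hVB : V π.1 (B : Eis) = 0 := V_eq_zero hπB
  have hVw : V π.1 w = 0 := V_eq_zero hw
  have hVP : V π.1 ((B * x * b : ℤ) : Eis) = 0 := by
    apply V_eq_zero
    push_cast
    intro h
    rcases hl.dvd_or_dvd h with h1 | h1
    · rcases hl.dvd_or_dvd h1 with h2 | h2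
      · exact hπB h2
      · exact hx h2
    · exact hb h1
  unfold UV tm
  rw [hV 1, hV 2, hVB, hVw, hVP]
  simp

end TAMG

theorem TAMG_thm (hSTM : STM) (hSPP : SPP) (hSSL : SSL) (hSLC : SLC) (hSREC : SREC) (hSCJ : SCJ)
    (hLCI : LCI) (hIF2 : IF2) : TAMG :=
  ⟨TAMG.f2bg hSTM hSPP hLCI hIF2, TAMG.f3rg hSTM, TAMG.f3ug hSTM⟩

end Pool.Agent.PT3

end

section

/-!
# TADT: additivity of the pairing in the second variable, `n` divisible by `3`
-/

set_option autoImplicit false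

namespace Pool.Agent.PT3

open Pool.Agent.Lib_helper18 Pool.Agent.Lib_helper18.Eis
open Pool.Agent.Lib_helper84.Cub hiding cast_ne OO
open Pool.Agent.PT Pool.Agent.PTE

namespace TADT

open Pool.Agent.PT.TADD

/-- an integer that is the cube of a rational number is a cube -/
theorem rcube {x m n : ℤ} (hn : n ≠ 0) (h : m ^ 3 = x * n ^ 3) : ∃ t : ℤ, t ^ 3 = x := by
  have h1 : n ^ 3 ∣ m ^ 3 := ⟨x, by rw [h]; ring⟩
  obtain ⟨t, rfl⟩ := (Int.pow_dvd_pow_iff (by norm_num)).1 h1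
  refine ⟨t, ?_⟩
  have h2 : n ^ 3 * t ^ 3 = n ^ 3 * x := by
    rw [← mul_pow, h]
    ring
  exact mul_left_cancel₀ (pow_ne_zero 3 hn) h2

theorem sol_of {b x p q p' q' : ℤ} (hb : b ≠ 0) (hc : ¬ ∃ c : ℤ, c ^ 3 = x)
    (h : SolW b x p q p' q') : Sol b x p q p' q' := by
  refine { toSolW := h, n2 := fun h2 => ?_ }
  by_cases hp : p' = 0
  · subst hp
    have hp0 : p = 0 := by
      have : p ^ 3 = 0 := by linarith
      exact pow_eq_zero_iff (by norm_num) |>.1 this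
    subst hp0
    have h3 := h.eq
    have h4 := h.n1
    have h5 : b * q ^ 3 = b * (x * q' ^ 3) := by linarith
    have h6 : q ^ 3 = x * q' ^ 3 := mul_left_cancel₀ hb h5
    by_cases hq : q' = 0
    · subst hq
      apply h4
      have : q ^ 3 = 0 := by rw [h6]; ring
      rw [this]
      ring
    · exact hc (rcube hq h6)
  · exact hc (rcube (m := p) hp (by linarith))

lemma w_ne : w ≠ 0 := by
  intro h
  have h2 := congrArg Eis.im h
  simp at h2

/-- `g + w^i h ≠ 0` -/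
lemma lin_ne {g h : ℤ} (hne : g ≠ 0 ∨ h ≠ 0) (i : ℕ) (hi : i = 1 ∨ i = 2) :
    (g : Eis) + w ^ i * (h : Eis) ≠ 0 := by
  intro h0
  have h1 := congrArg Eis.re h0
  have h2 := congrArg Eis.im h0
  rcases hi with rfl | rfl
  · rw [pow_one] at h1 h2
    simp at h1 h2
    rcases hne with h3 | h3
    · exact h3 h1
    · exact h3 h2
  · rw [w_sq] at h1 h2
    simp at h1 h2
    rcases hne with h3 | h3
    · apply h3
      rw [h2] at h1
      simpa using h1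
    · exact h3 h2

lemma Df_ne {X Y u v : ℤ} (hX : X ≠ 0) (hY : Y ≠ 0) (h : u ≠ 0 ∨ v ≠ 0) (i : ℕ)
    (hi : i = 1 ∨ i = 2) : Df X Y u v i ≠ 0 := by
  have e : Df X Y u v i = ((X * u : ℤ) : Eis) + w ^ i * ((v * Y : ℤ) : Eis) := by
    unfold Df
    push_cast
    ring
  rw [e]
  apply lin_ne _ i hi
  rcases h with h | h
  · exact Or.inl (mul_ne_zero hX h)
  · exact Or.inr (mul_ne_zero h hY)

/-- the local term at the point `(1, 0)` -/
lemma SV_one_zero (s : Eis → Eis → ZMod 3) (x p q p' q' : ℤ) : SV s x p q p' q' 1 0 = 0 := by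
  have e : ∀ (u v : ℤ), Df 1 0 u v 1 = Df 1 0 u v 2 := by
    intro u v
    unfold Df
    push_cast
    ring
  unfold SV
  rw [e p' p, e q' q]
  ring

lemma three_mul_zero (a : ZMod 3) : 3 * a = 0 := by
  have : (3 : ZMod 3) = 0 := by decide
  rw [this, zero_mul]

/-- cubes are in the kernel on the right -/
lemma right_cube {π : Eis} {s : Eis → Eis → ZMod 3} {e : ℕ} (hs : LSym π s e) {a c : Eis} {u : ℤ}
    (ha : a ≠ 0) (hc : c ≠ 0) (hu : u ≠ 0) : s a ((u : Eis) ^ 3 * c) = s a c := by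
  have hu' : (u : Eis) ≠ 0 := cast_ne hu
  have e1 : (u : Eis) ^ 3 * c = (u : Eis) * ((u : Eis) * ((u : Eis) * c)) := by ring
  rw [e1, LSym.right_mul hs ha hu' (mul_ne_zero hu' (mul_ne_zero hu' hc)),
    LSym.right_mul hs ha hu' (mul_ne_zero hu' hc), LSym.right_mul hs ha hu' hc]
  linear_combination three_mul_zero (s a (u : Eis))

/-- the local term for `(u p, u q)` -/
lemma SV_cube {π : Eis} {s : Eis → Eis → ZMod 3} {e : ℕ} (hs : LSym π s e)
    {b x p q p' q' X Y u : ℤ} (hu : u ≠ 0) (hX : X ≠ 0) (hY : Y ≠ 0)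
    (hn : X ^ 3 + b * Y ^ 3 ≠ 0) (h : Sol b x p q p' q') :
    SV s b (u * p) (-p') (-(u * q)) q' X Y = SV s b p (-p') (-q) q' X Y := by
  have hpq : -q ≠ 0 ∨ p ≠ 0 := by
    by_contra hcon
    push Not at hcon
    obtain ⟨h1, h2⟩ := hcon
    have h3 : q = 0 := by linarith
    apply h.n1
    rw [h2, h3]
    ring
  have hu' : (u : Eis) ≠ 0 := cast_ne hu
  have d1 := Df_ne hX hY hpq 1 (Or.inl rfl)
  have d2 := Df_ne hX hY hpq 2 (Or.inr rfl)
  have hN : p ^ 3 - b * (-q) ^ 3 ≠ 0 := by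
    have : p ^ 3 - b * (-q) ^ 3 = p ^ 3 + b * q ^ 3 := by ring
    rw [this]
    exact h.n1
  have hN' : ((p ^ 3 - b * (-q) ^ 3 : ℤ) : Eis) ≠ 0 := cast_ne hN
  have hn' : ((X ^ 3 + b * Y ^ 3 : ℤ) : Eis) ≠ 0 := cast_ne hn
  have eD : ∀ i : ℕ, Df X Y (-(u * q)) (u * p) i = (u : Eis) * Df X Y (-q) p i := by
    intro i
    unfold Df
    push_cast
    ring
  have eN : (((u * p) ^ 3 - b * (-(u * q)) ^ 3 : ℤ) : Eis) =
      (u : Eis) ^ 3 * ((p ^ 3 - b * (-q) ^ 3 : ℤ) : Eis) := by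
    push_cast
    ring
  unfold SV
  rw [eD, eD, eN, right_cube hs (mul_ne_zero hu' d1) hN' hu, right_cube hs (mul_ne_zero hu' d2) hN' hu,
    hs.mul _ _ _ hu' d1 hN', hs.mul _ _ _ hu' d2 hN', hs.mul _ _ _ hu' d1 hn',
    hs.mul _ _ _ hu' d2 hn']
  ring

/-- `AS` for `(u p, u q)` -/
lemma AS_cube {π : Eis} {s : Eis → Eis → ZMod 3} {e : ℕ} (hs : LSym π s e)
    {B b x p q p' q' u : ℤ} (hB : (B : Eis) ≠ 0) (hu : u ≠ 0) (h : SolW b x p q p' q') :
    ∃ N0 : ℕ, ∀ r : ℤ, π ^ N0 ∣ (r : Eis) ^ 3 - (b : Eis) →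
      AS s (B : Eis) (u * p) (u * q) p' q' r = AS s (B : Eis) p q p' q' r := by
  refine ⟨V π ((p ^ 3 + b * q ^ 3 : ℤ) : Eis) + 1, fun r hr => ?_⟩
  have hu' : (u : Eis) ≠ 0 := cast_ne hu
  have a1 := Lf_bound hs.prime (cast_ne h.n1) hr (by omega) 1 (Or.inl rfl)
  have a2 := Lf_bound hs.prime (cast_ne h.n1) hr (by omega) 2 (Or.inr rfl)
  have eL : ∀ i : ℕ, Lf (u * p) (u * q) i r = (u : Eis) * Lf p q i r := by
    intro i
    unfold Lf
    push_cast
    ring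
  unfold AS
  rw [eL, eL, LSym.right_mul hs hB hu' a1.1, LSym.right_mul hs hB hu' a2.1]
  ring

end TADT

open _root_.Pool.Agent.PT3.TADT in
open Pool.Agent.PT.TADD in
/-- TADT: additivity of the pairing in the second variable. -/
theorem TADT_thm (hSTM : STM) (hSPP : SPP) (hSSL : SSL) (hSLC : SLC) (hSCJ : SCJ) (hLCI : LCI)
    (hAVV : AVV) (hLFIG : LFIG) (hSVAD : SVAD) : TADT := by
  -- the symbols at all places
  have hv : ∀ v : Pl, ∃ e, LSym (uni v) (sy v) e := by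
    intro v
    rcases v with _ | π
    · exact ⟨4, hSLC⟩
    · exact ⟨1, hSTM π.1 π.2.1 (hSPP.2.2.2.1 π).1⟩
  have hw0 : (w : Eis) ≠ 0 := TADT.w_ne
  have hsy : ∀ (B x : ℤ), (B : Eis) ≠ 0 → AG B x → ∀ v : Pl, sy v (B : Eis) (x : Eis) = 0 := by
    intro B x hB0 hx v
    have htm : ∀ π : PP, tm π.1 (B : Eis) (x : Eis) = 0 := by
      intro π
      have h1 := (hSTM π.1 π.2.1 (hSPP.2.2.2.1 π).1).skew (x : Eis) (B : Eis)
        (Pool.Agent.PT.TADD.cast_ne hx.ne) hB0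
      rw [h1, hx.sym π, neg_zero]
    rcases v with _ | π
    · change sl (B : Eis) (x : Eis) = 0
      unfold sl
      rw [finsum_eq_zero_of_forall_eq_zero htm, neg_zero]
    · exact htm π
  constructor
  · intro b x₁ x₂ p₁ q₁ p₁' q₁' p₂ q₂ p₂' q₂' hb hx12 hb0 hx₁ hx₂ T₁ T₂
    have S₁ := T₁.toSolW
    have S₂ := T₂.toSolW
    have d1 : p₁' ^ 3 + b * q₁' ^ 3 ≠ 0 := by
      intro h
      apply S₁.n1
      rw [S₁.eq, h, mul_zero]
    have d2 : p₂' ^ 3 + b * q₂' ^ 3 ≠ 0 := by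
      intro h
      apply S₂.n1
      rw [S₂.eq, h, mul_zero]
    obtain ⟨p, q, p', q', hne, e0, e1, e2⟩ := exists_prod b hb p₁ q₁ p₁' q₁' p₂ q₂ p₂' q₂' d1 d2
    have d' : p' ^ 3 + b * q' ^ 3 ≠ 0 := ne_of_not_cube hb hne
    have hnorm : (p₁ ^ 3 + b * q₁ ^ 3) * (p₂ ^ 3 + b * q₂ ^ 3) * (p' ^ 3 + b * q' ^ 3) =
        (p₁' ^ 3 + b * q₁' ^ 3) * (p₂' ^ 3 + b * q₂' ^ 3) * (p ^ 3 + b * q ^ 3) := by
      have h1 := N3_mul b p₁ q₁ 0 p₂ q₂ 0
      have h2 := N3_mul b p₁' q₁' 0 p₂' q₂' 0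
      have h3 := N3_mul b (p₁ * p₂) (p₁ * q₂ + q₁ * p₂) (q₁ * q₂) p' q' 0
      have h4 := N3_mul b (p₁' * p₂') (p₁' * q₂' + q₁' * p₂') (q₁' * q₂') p q 0
      have h5 : N3 b (p₁ * p₂ * p' + b * ((p₁ * q₂ + q₁ * p₂) * 0 + q₁ * q₂ * q'))
          (p₁ * p₂ * q' + (p₁ * q₂ + q₁ * p₂) * p' + b * (q₁ * q₂ * 0))
          (p₁ * p₂ * 0 + (p₁ * q₂ + q₁ * p₂) * q' + q₁ * q₂ * p') =
        N3 b (p₁' * p₂' * p + b * ((p₁' * q₂' + q₁' * p₂') * 0 + q₁' * q₂' * q))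
          (p₁' * p₂' * q + (p₁' * q₂' + q₁' * p₂') * p + b * (q₁' * q₂' * 0))
          (p₁' * p₂' * 0 + (p₁' * q₂' + q₁' * p₂') * q + q₁' * q₂' * p) := by
        congr 1
        · linear_combination e0
        · linear_combination e1
        · linear_combination e2
      rw [h3, h4] at h5
      have g1 : N3 b (p₁ * p₂) (p₁ * q₂ + q₁ * p₂) (q₁ * q₂) =
          (p₁ ^ 3 + b * q₁ ^ 3) * (p₂ ^ 3 + b * q₂ ^ 3) := by
        unfold N3 at h1 ⊢
        linear_combination h1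
      have g2 : N3 b (p₁' * p₂') (p₁' * q₂' + q₁' * p₂') (q₁' * q₂') =
          (p₁' ^ 3 + b * q₁' ^ 3) * (p₂' ^ 3 + b * q₂' ^ 3) := by
        unfold N3 at h2 ⊢
        linear_combination h2
      have g3 : N3 b p' q' 0 = p' ^ 3 + b * q' ^ 3 := by unfold N3; ring
      have g4 : N3 b p q 0 = p ^ 3 + b * q ^ 3 := by unfold N3; ring
      rw [g1, g2, g3, g4] at h5
      exact h5
    have hS : SolW b (x₁ * x₂) p q p' q' := by
      have heq : p ^ 3 + b * q ^ 3 = x₁ * x₂ * (p' ^ 3 + b * q' ^ 3) := by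
        apply mul_left_cancel₀ (mul_ne_zero d1 d2)
        rw [← hnorm, S₁.eq, S₂.eq]
        ring
      refine ⟨heq, ?_⟩
      rw [heq]
      exact mul_ne_zero (mul_ne_zero hx₁ hx₂) d'
    have hT : Sol b (x₁ * x₂) p q p' q' := TADT.sol_of hb0 hx12 hS
    refine ⟨p, q, p', q', hT, ?_⟩
    intro B X Y hB hAb hA₁ hA₂ hXY
    have hB0 : (B : Eis) ≠ 0 := Pool.Agent.PT.TADD.cast_ne hB.ne
    have hx₁' : (x₁ : Eis) ≠ 0 := Pool.Agent.PT.TADD.cast_ne hx₁
    have hx₂' : (x₂ : Eis) ≠ 0 := Pool.Agent.PT.TADD.cast_ne hx₂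
    -- local additivity
    have hloc : ∀ v : Pl, TT v B b (x₁ * x₂) p q p' q' =
        TT v B b x₁ p₁ q₁ p₁' q₁' + TT v B b x₂ p₂ q₂ p₂' q₂' := by
      intro v
      obtain ⟨e, hs⟩ := hv v
      have hcast : (((x₁ * x₂ : ℤ)) : Eis) = (x₁ : Eis) * (x₂ : Eis) := by push_cast; rfl
      by_cases hLC : LC (uni v) b
      · have h12 : sy v (B : Eis) ((x₁ * x₂ : ℤ) : Eis) = 0 := by
          rw [hcast, LSym.right_mul hs hB0 hx₁' hx₂', hsy B x₁ hB0 hA₁ v, hsy B x₂ hB0 hA₂ v,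
            add_zero]
        obtain ⟨⟨N₁, hN₁⟩, -⟩ := hAVV v B b x₁ p₁ q₁ p₁' q₁' hB.ne hb0 hx₁ S₁ (hsy B x₁ hB0 hA₁ v)
          hLC
        obtain ⟨⟨N₂, hN₂⟩, -⟩ := hAVV v B b x₂ p₂ q₂ p₂' q₂' hB.ne hb0 hx₂ S₂ (hsy B x₂ hB0 hA₂ v)
          hLC
        obtain ⟨-, huniq⟩ := hAVV v B b (x₁ * x₂) p q p' q' hB.ne hb0 (mul_ne_zero hx₁ hx₂) hS h12
          hLC
        obtain ⟨N₃, hN₃⟩ := AS_add hs hB0 (Pool.Agent.PT.TADD.cast_ne S₁.n1)
          (Pool.Agent.PT.TADD.cast_ne S₂.n1) (Pool.Agent.PT.TADD.cast_ne d')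
          (Pool.Agent.PT.TADD.cast_ne d1) (Pool.Agent.PT.TADD.cast_ne d2)
          (Pool.Agent.PT.TADD.cast_ne hS.n1) e0 e1 e2
        have hAV : AV v B b p q p' q' = AV v B b p₁ q₁ p₁' q₁' + AV v B b p₂ q₂ p₂' q₂' := by
          refine huniq _ (max N₁ (max N₂ N₃)) (fun r hr => ?_)
          rw [hN₃ r ((pow_dvd_pow _ (by omega)).trans hr),
            hN₁ r ((pow_dvd_pow _ (by omega)).trans hr),
            hN₂ r ((pow_dvd_pow _ (by omega)).trans hr)]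
        unfold TT
        rw [if_pos hLC, if_pos hLC, if_pos hLC, hAV, hcast, LSym.right_mul hs hw0 hx₁' hx₂']
        ring
      · unfold TT
        rw [if_neg hLC, if_neg hLC, if_neg hLC]
        rcases v with _ | π
        · simp
        · simp only
          split_ifs with h
          · rw [hcast]
            have := LSym.right_mul hs hw0 hx₁' hx₂'
            change tm π.1 w ((x₁ : Eis) * (x₂ : Eis)) = tm π.1 w (x₁ : Eis) + tm π.1 w (x₂ : Eis)
              at this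
            rw [this]
            ring
          · simp
    have hOO : OO B b (x₁ * x₂) p q p' q' =
        OO B b x₁ p₁ q₁ p₁' q₁' + OO B b x₂ p₂ q₂ p₂' q₂' := by
      unfold OO
      rw [← finsum_add_distrib (hLFIG B b x₁ p₁ q₁ p₁' q₁' hB hAb hA₁ S₁)
        (hLFIG B b x₂ p₂ q₂ p₂' q₂' hB hAb hA₂ S₂)]
      exact finsum_congr hloc
    unfold OT
    by_cases hL : LC lam b
    · rw [if_pos hL, if_pos hL, if_pos hL, hOO]
      ring
    · rw [if_neg hL, if_neg hL, if_neg hL, hOO]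
      rcases hXY with hXY | ⟨rfl, rfl⟩ | ⟨hX, hY, hn⟩
      · exact absurd hXY hL
      · rw [SV_one_zero, SV_one_zero, SV_one_zero]
        ring
      · rw [hSVAD b x₁ x₂ p₁ q₁ p₁' q₁' p₂ q₂ p₂' q₂' p q p' q' X Y hb0 hx₁ hx₂ T₁ T₂ hT
          ⟨e0, e1, e2⟩ hX hY hn]
        ring
  · intro b x p q p' q' u hb0 hx hu T
    have hS : Sol b (u ^ 3 * x) (u * p) (u * q) p' q' := by
      refine { eq := ?_, n1 := ?_, n2 := ?_ }
      · linear_combination u ^ 3 * T.eq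
      · have h1 : (u * p) ^ 3 + b * (u * q) ^ 3 = u ^ 3 * (p ^ 3 + b * q ^ 3) := by ring
        rw [h1]
        exact mul_ne_zero (pow_ne_zero _ hu) T.n1
      · have h1 : (u * p) ^ 3 - u ^ 3 * x * p' ^ 3 = u ^ 3 * (p ^ 3 - x * p' ^ 3) := by ring
        rw [h1]
        exact mul_ne_zero (pow_ne_zero _ hu) T.n2
    refine ⟨hS, ?_⟩
    intro B X Y hB hAb hAx _ hXY
    have hB0 : (B : Eis) ≠ 0 := Pool.Agent.PT.TADD.cast_ne hB.ne
    have hx' : (x : Eis) ≠ 0 := Pool.Agent.PT.TADD.cast_ne hx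
    have hcast : (((u ^ 3 * x : ℤ)) : Eis) = (u : Eis) ^ 3 * (x : Eis) := by push_cast; rfl
    have hloc : ∀ v : Pl, TT v B b (u ^ 3 * x) (u * p) (u * q) p' q' = TT v B b x p q p' q' := by
      intro v
      obtain ⟨e, hs⟩ := hv v
      by_cases hLC : LC (uni v) b
      · have h12 : sy v (B : Eis) ((u ^ 3 * x : ℤ) : Eis) = 0 := by
          rw [hcast, right_cube hs hB0 hx' hu, hsy B x hB0 hAx v]
        obtain ⟨⟨N₁, hN₁⟩, -⟩ := hAVV v B b x p q p' q' hB.ne hb0 hx T.toSolW (hsy B x hB0 hAx v)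
          hLC
        obtain ⟨-, huniq⟩ := hAVV v B b (u ^ 3 * x) (u * p) (u * q) p' q' hB.ne hb0
          (mul_ne_zero (pow_ne_zero _ hu) hx) hS.toSolW h12 hLC
        obtain ⟨N₃, hN₃⟩ := AS_cube hs hB0 hu T.toSolW
        have hAV : AV v B b (u * p) (u * q) p' q' = AV v B b p q p' q' := by
          refine huniq _ (max N₁ N₃) (fun r hr => ?_)
          rw [hN₃ r ((pow_dvd_pow _ (by omega)).trans hr),
            hN₁ r ((pow_dvd_pow _ (by omega)).trans hr)]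
        unfold TT
        rw [if_pos hLC, if_pos hLC, hAV, hcast, right_cube hs hw0 hx' hu]
      · unfold TT
        rw [if_neg hLC, if_neg hLC]
        rcases v with _ | π
        · rfl
        · simp only
          have := right_cube hs hw0 hx' hu
          change tm π.1 w ((u : Eis) ^ 3 * (x : Eis)) = tm π.1 w (x : Eis) at this
          rw [hcast, this]
    have hOO : OO B b (u ^ 3 * x) (u * p) (u * q) p' q' = OO B b x p q p' q' := by
      unfold OO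
      exact finsum_congr hloc
    unfold OT
    by_cases hL : LC lam b
    · rw [if_pos hL, if_pos hL, hOO]
    · rw [if_neg hL, if_neg hL, hOO]
      rcases hXY with hXY | ⟨rfl, rfl⟩ | ⟨hX, hY, hn⟩
      · exact absurd hXY hL
      · rw [SV_one_zero, SV_one_zero]
      · rw [SV_cube hSLC hu hX hY hn T]

end Pool.Agent.PT3

end

section

/-!
# Prime twists of rank zero, `q = 1 (mod 3)`: summary of the governing field
-/

open NumberField IsDedekindDomain Finset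
open scoped nonZeroDivisors Pointwise

namespace Pool.Agent.PTE.GALDS

open Pool.Agent.Lib_helper18 Pool.Agent.Lib_helper18.Eis Pool.Agent.Lib_helper84.Cub
open Pool.Agent.PT Pool.Agent.PT.GALD

lemma om_ne {L : Type} [Field L] [CharZero L] {ω : L} (h : ω ^ 2 + ω + 1 = 0) :
    ω ≠ 1 ∧ ω ^ 2 ≠ 1 ∧ ω ^ 2 ≠ ω ∧ ω ≠ 0 := by
  have h3 : (3 : L) ≠ 0 := by norm_num
  have h1 : ω ≠ 1 := by
    rintro rfl
    apply h3
    linear_combination h
  have h0 : ω ≠ 0 := by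
    rintro rfl
    norm_num at h
  refine ⟨h1, ?_, ?_, h0⟩
  · intro h2
    have h4 : ω = -2 := by linear_combination h - h2
    rw [h4] at h2
    norm_num at h2
  · intro h2
    have h4 : ω * (ω - 1) = 0 := by linear_combination h2
    rcases mul_eq_zero.1 h4 with h5 | h5
    · exact h0 h5
    · exact h1 (sub_eq_zero.1 h5)

lemma om_pow_inj {L : Type} [Field L] [CharZero L] {ω : L} (h : ω ^ 2 + ω + 1 = 0) {i j : ℕ}
    (hij : ω ^ i = ω ^ j) : i % 3 = j % 3 := by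
  have h3 := om_cube h
  obtain ⟨h1, h2, h21, _⟩ := om_ne h
  rw [om_mod h3 i, om_mod h3 j] at hij
  have hi : i % 3 < 3 := Nat.mod_lt _ (by norm_num)
  have hj : j % 3 < 3 := Nat.mod_lt _ (by norm_num)
  generalize i % 3 = a at hij hi
  generalize j % 3 = c at hij hj
  have e01 : ω ^ 0 ≠ ω ^ 1 := by rw [pow_zero, pow_one]; exact h1.symm
  have e02 : ω ^ 0 ≠ ω ^ 2 := by rw [pow_zero]; exact h2.symm
  have e12 : ω ^ 1 ≠ ω ^ 2 := by rw [pow_one]; exact h21.symm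
  interval_cases a <;> interval_cases c <;>
    first
    | rfl
    | exact absurd hij e01
    | exact absurd hij e02
    | exact absurd hij e12
    | exact absurd hij.symm e01
    | exact absurd hij.symm e02
    | exact absurd hij.symm e12

lemma om_zmod_inj {L : Type} [Field L] [CharZero L] {ω : L} (h : ω ^ 2 + ω + 1 = 0) {θ : L}
    (hθ : θ ≠ 0) {u v : ZMod 3} (e : ω ^ u.val * θ = ω ^ v.val * θ) : u = v := by
  have h1 := om_pow_inj h (mul_right_cancel₀ hθ e)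
  have hu := ZMod.val_lt u
  have hv := ZMod.val_lt v
  apply ZMod.val_injective
  omega

lemma om_add {L : Type} [Field L] {ω : L} (h : ω ^ 3 = 1) (u v : ZMod 3) :
    ω ^ u.val * ω ^ v.val = ω ^ (u + v).val := by
  rw [← pow_add]
  apply om_congr h
  rw [ZMod.val_add]
  simp

lemma cube_root {L : Type} [Field L] {ω : L} (h : ω ^ 2 + ω + 1 = 0) {θ ρ : L}
    (e : ρ ^ 3 = θ ^ 3) : ∃ u : ZMod 3, ρ = ω ^ u.val * θ := by
  have h3 := om_cube h
  have h1 : (ρ - θ) * ((ρ - ω * θ) * (ρ - ω ^ 2 * θ)) = 0 := by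
    have h2 : (ρ - θ) * ((ρ - ω * θ) * (ρ - ω ^ 2 * θ)) =
        (ρ ^ 3 - θ ^ 3) - (ω ^ 2 + ω + 1) * (ρ ^ 2 * θ - ω * ρ * θ ^ 2) -
          (ω ^ 3 - 1) * θ ^ 3 := by ring
    rw [h2, h, h3, e]
    ring
  rcases mul_eq_zero.1 h1 with h2 | h2
  · refine ⟨0, ?_⟩
    rw [sub_eq_zero.1 h2]
    simp
  · rcases mul_eq_zero.1 h2 with h4 | h4
    · refine ⟨1, ?_⟩
      rw [sub_eq_zero.1 h4, show (1 : ZMod 3).val = 1 from rfl, pow_one]
    · refine ⟨2, ?_⟩
      rw [sub_eq_zero.1 h4, show (2 : ZMod 3).val = 2 from rfl]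

/-- the vectors with the last entry not zero and all others zero -/
lemma card_good (s : ℕ) : (univ.filter fun w : Fin (s + 1) → ZMod 3 =>
    (∀ j : Fin s, w j.castSucc = 0) ∧ w (Fin.last s) ≠ 0).card = 2 := by
  have h1 : (univ.filter fun c : ZMod 3 => c ≠ 0).card = 2 := by decide
  refine (Finset.card_bij (fun w _ => w (Fin.last s)) ?_ ?_ ?_).trans h1
  · intro w hw
    rw [mem_filter] at hw ⊢
    exact ⟨mem_univ _, hw.2.2⟩
  · intro w hw w' hw' e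
    rw [mem_filter] at hw hw'
    funext j
    refine Fin.lastCases e (fun i => ?_) j
    rw [hw.2.1 i, hw'.2.1 i]
  · intro c hc
    rw [mem_filter] at hc
    refine ⟨Fin.snoc (fun _ => 0) c, ?_, ?_⟩
    · rw [mem_filter]
      refine ⟨mem_univ _, fun j => ?_, ?_⟩
      · rw [Fin.snoc_castSucc]
      · rw [Fin.snoc_last]
        exact hc.2
    · rw [Fin.snoc_last]

end Pool.Agent.PTE.GALDS

namespace Pool.Agent.PTE

open Pool.Agent.Lib_helper18 Pool.Agent.Lib_helper18.Eis Pool.Agent.Lib_helper84.Cub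
open Pool.Agent.PT Pool.Agent.PT.GALD Pool.Agent.PTE.GALDS

theorem GALDS_thm (hGZEROG : GZEROG) (hGCHI : GCHI) (hGCG : GCG) (hGKUM : GKUM) (hGTS : GTS)
    (hGFRS : GFRS) : GALDS := by
  classical
  intro s b p q p' q' f hSys hf h9
  obtain ⟨L, hF, hN, ζ, ω, hG⟩ := hGZEROG (s + 1) b p q p' q' f hSys hf h9
  have hgal := hG.gal
  obtain ⟨χ, hχs, hχζ, hχF⟩ := hGCHI L f ζ hf hG.prim
  obtain ⟨N₀, hFr⟩ := hGFRS s b p q p' q' f L ζ ω hSys hG
  have hω3 : ω ^ 3 = 1 := om_cube hG.rel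
  have hf1 : 1 < f := by
    obtain ⟨c, hc⟩ := h9
    omega
  have h3f : 3 ∣ f := (by norm_num : (3 : ℕ) ∣ 9).trans h9
  have hfz : NeZero f := ⟨hf.ne'⟩
  obtain ⟨hT1, hT⟩ := hGTS s b p q p' q' f L ζ ω hSys hG
  -- action on ω
  have hωχ : ∀ g : L ≃ₐ[ℚ] L, g ω = ω ^ ((χ g : ZMod f)).val := by
    intro g
    rw [hG.hω, map_pow, hχζ g, ← pow_mul, mul_comm, pow_mul, ← hG.hω]
  have hM : ∀ g : L ≃ₐ[ℚ] L, M1 (χ g) → g ω = ω := by
    intro g hg
    rw [hωχ g]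
    conv_rhs => rw [← pow_one ω]
    apply om_congr hω3
    unfold M1 at hg
    omega
  have hb0 : ∀ j, b j ≠ 0 := by
    intro j h0
    refine hSys.ind (Pi.single j 1) ⟨j, by simp⟩ ⟨0, ?_⟩
    have h1 : ∏ i, b i ^ (Pi.single j 1 : Fin (s + 1) → ℕ) i = 0 := by
      refine Finset.prod_eq_zero (Finset.mem_univ j) ?_
      rw [Pi.single_eq_same, pow_one, h0]
    rw [h1]
    norm_num
  have hz1 : ∀ z : L ≃ₐ[ℚ] L, z ζ = ζ → z ω = ω ∧ χ z = 1 := by
    intro z hzζ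
    refine ⟨by rw [hG.hω, map_pow, hzζ], ?_⟩
    have h1 := hχζ z
    rw [hzζ] at h1
    have h2 : ((χ z : ZMod f)).val = 1 := by
      apply hG.prim.pow_inj (ZMod.val_lt _) hf1
      rw [← h1, pow_one]
    apply Units.ext
    have h3 := ZMod.natCast_zmod_val (χ z : ZMod f)
    rw [h2] at h3
    rw [← h3]
    simp
  let t : (L ≃ₐ[ℚ] L) → Fin s → Fin s → ZMod 3 := fun g j i =>
    if h : j ≠ i ∧ g ω = ω ∧ Fx b g then ((hT j i h.1).1 g h.2.1 h.2.2).choose else 0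
  have ht : ∀ (g : L ≃ₐ[ℚ] L) (j i : Fin s), j ≠ i → g ω = ω → Fx b g →
      IsTS b p q p' q' ω g j.castSucc i.castSucc (t g j i) := by
    intro g j i hji hg hF
    have h : j ≠ i ∧ g ω = ω ∧ Fx b g := ⟨hji, hg, hF⟩
    have e : t g j i = ((hT j i h.1).1 g h.2.1 h.2.2).choose := dif_pos h
    rw [e]
    exact ((hT j i h.1).1 g h.2.1 h.2.2).choose_spec.1
  have htu : ∀ (g : L ≃ₐ[ℚ] L) (j i : Fin s) (c : ZMod 3), j ≠ i → g ω = ω → Fx b g →
      IsTS b p q p' q' ω g j.castSucc i.castSucc c → t g j i = c := by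
    intro g j i c hji hg hF hc
    exact ((hT j i hji).1 g hg hF).unique (ht g j i hji hg hF) hc
  refine ⟨L, hF, hN, hG.gal, χ, Fx b, t, N₀, hχs, ?_, ?_, ?_, ?_, ?_⟩
  · intro g τ hg hFg
    obtain ⟨_, h1, _⟩ := hT1 g (hM g hg) hFg
    obtain ⟨h2, h3⟩ := h1 τ
    refine ⟨h3, fun j i hji => ?_⟩
    exact htu _ _ _ _ hji h2 h3 ((hT j i hji).2.1 g τ _ (hM g hg) hFg (ht g j i hji (hM g hg) hFg))
  · intro g k hg hFg hk
    obtain ⟨_, _, h1⟩ := hT1 g (hM g hg) hFg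
    obtain ⟨h2, h3⟩ := h1 k
    refine ⟨h3 hk, fun j i hji => ?_⟩
    exact htu _ _ _ _ hji h2 (h3 hk) ((hT j i hji).2.2 g _ k (hM g hg)
      (ht g j i hji (hM g hg) hFg))
  · intro a v v' ha
    obtain ⟨z, hzζ, hzρ, hzA⟩ := hGCG (s + 1) b p q p' q' f L ζ ω hSys hG
      (fun j i => if h : j ≠ Fin.last s ∧ i ≠ Fin.last s then
        v' (j.castPred h.1) (i.castPred h.2) - v (j.castPred h.1) (i.castPred h.2) else 0)
    obtain ⟨hzω, hχz⟩ := hz1 z hzζ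
    have hFz : ∀ g : L ≃ₐ[ℚ] L, Fx b (g * z) ↔ Fx b g := by
      intro g
      have h1 : ∀ (j : Fin (s + 1)) (ρ : L), ρ ^ 3 = (b j : L) → (g * z) ρ = g ρ := by
        intro j ρ hρ
        rw [AlgEquiv.mul_apply, hzρ j ρ hρ]
      unfold Fx
      constructor
      · rintro ⟨h2, h3⟩
        exact ⟨fun j ρ hρ => by rw [← h1 _ ρ hρ]; exact h2 j ρ hρ,
          fun ρ hρ => by rw [← h1 _ ρ hρ]; exact h3 ρ hρ⟩
      · rintro ⟨h2, h3⟩
        exact ⟨fun j ρ hρ => by rw [h1 _ ρ hρ]; exact h2 j ρ hρ,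
          fun ρ hρ => by rw [h1 _ ρ hρ]; exact h3 ρ hρ⟩
    have key : ∀ g : L ≃ₐ[ℚ] L, g ω = ω → Fx b g → ∀ j i, j < i →
        t (g * z) j i = (v' j i - v j i) + t g j i := by
      intro g hg hFg j i hji
      have hgz : (g * z) ω = ω := by rw [AlgEquiv.mul_apply, hzω, hg]
      apply htu _ _ _ _ hji.ne hgz ((hFz g).2 hFg)
      intro ρ A hρ hA
      have h1 := ht g j i hji.ne hg hFg ρ A hρ hA
      have h2 := hzA j.castSucc i.castSucc (Fin.castSucc_lt_castSucc_iff.2 hji) ρ A hρ hA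
      have h3 : j.castSucc ≠ Fin.last s ∧ i.castSucc ≠ Fin.last s :=
        ⟨(Fin.castSucc_lt_last j).ne, (Fin.castSucc_lt_last i).ne⟩
      simp only [dif_pos h3, Fin.castPred_castSucc] at h2
      rw [AlgEquiv.mul_apply, h2, map_mul, map_pow, hg, h1, ← mul_assoc, om_add hω3]
    apply Nat.card_congr
    refine Equiv.subtypeEquiv (Equiv.mulRight z) ?_
    intro g
    have hχ : χ (g * z) = χ g := by rw [map_mul, hχz, mul_one]
    show (χ g = a ∧ Fx b g ∧ ∀ j i, j < i → t g j i = v j i) ↔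
      (χ (g * z) = a ∧ Fx b (g * z) ∧ ∀ j i, j < i → t (g * z) j i = v' j i)
    rw [hχ, hFz g]
    constructor
    · rintro ⟨h1, h2, h3⟩
      refine ⟨h1, h2, fun j i hji => ?_⟩
      rw [key g (hM g (by rw [h1]; exact ha)) h2 j i hji, h3 j i hji]
      ring
    · rintro ⟨h1, h2, h3⟩
      refine ⟨h1, h2, fun j i hji => ?_⟩
      have h4 := h3 j i hji
      rw [key g (hM g (by rw [h1]; exact ha)) h2 j i hji] at h4
      linear_combination h4
  · intro a ha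
    choose θ hθ using hG.root
    have hθ0 : ∀ j, θ j ≠ 0 := by
      intro j h0
      have h1 := hθ j
      rw [h0] at h1
      apply hb0 j
      have h2 : ((b j : ℤ) : L) = 0 := by rw [← h1]; norm_num
      exact_mod_cast h2
    have hex : ∀ (g : L ≃ₐ[ℚ] L) (j : Fin (s + 1)), ∃ u : ZMod 3, g (θ j) = ω ^ u.val * θ j := by
      intro g j
      apply cube_root hG.rel
      rw [← map_pow, hθ j, map_intCast]
    choose uu huu using hex
    have huniq : ∀ (g : L ≃ₐ[ℚ] L) (j : Fin (s + 1)) (u : ZMod 3), g (θ j) = ω ^ u.val * θ j →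
        uu g j = u := by
      intro g j u h
      apply om_zmod_inj hG.rel (hθ0 j)
      rw [← huu g j, h]
    -- criterion for `Fx`
    have hFu : ∀ g : L ≃ₐ[ℚ] L, g ω = ω → (Fx b g ↔
        (∀ j : Fin s, uu g j.castSucc = 0) ∧ uu g (Fin.last s) ≠ 0) := by
      intro g hg
      constructor
      · rintro ⟨h1, h2⟩
        refine ⟨fun j => ?_, fun h0 => ?_⟩
        · apply huniq
          rw [h1 j _ (hθ _)]
          simp
        · apply h2 _ (hθ _)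
          rw [huu, h0]
          simp
      · rintro ⟨h1, h2⟩
        have h3 : ∀ (j : Fin (s + 1)) (ρ : L), ρ ^ 3 = (b j : L) →
            g ρ = ω ^ (uu g j).val * ρ := by
          intro j ρ hρ
          obtain ⟨u, hu⟩ := cube_root hG.rel (θ := θ j) (ρ := ρ) (by rw [hρ, hθ])
          rw [hu, map_mul, map_pow, hg, huu]
          ring
        refine ⟨fun j ρ hρ => ?_, fun ρ hρ h4 => ?_⟩
        · rw [h3 _ ρ hρ, h1 j]
          simp
        · rw [h3 _ ρ hρ] at h4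
          have hρ0 : ρ ≠ 0 := by
            intro h0
            rw [h0] at hρ
            apply hb0 (Fin.last s)
            have h5 : ((b (Fin.last s) : ℤ) : L) = 0 := by rw [← hρ]; norm_num
            exact_mod_cast h5
          apply h2
          apply om_zmod_inj hG.rel hρ0
          rw [h4]
          simp
    have hfib : ∀ w w' : Fin (s + 1) → ZMod 3,
        (univ.filter fun g : L ≃ₐ[ℚ] L => χ g = a ∧ uu g = w).card =
        (univ.filter fun g : L ≃ₐ[ℚ] L => χ g = a ∧ uu g = w').card := by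
      intro w w'
      obtain ⟨z, hzζ, hzρ⟩ := hGKUM (s + 1) b p q p' q' f L ζ ω hSys hG (w' - w)
      obtain ⟨hzω, hχz⟩ := hz1 z hzζ
      have key : ∀ g : L ≃ₐ[ℚ] L, g ω = ω → uu (g * z) = (w' - w) + uu g := by
        intro g hg
        funext j
        apply huniq
        rw [AlgEquiv.mul_apply, hzρ j _ (hθ j), map_mul, map_pow, hg, huu, ← mul_assoc,
          om_add hω3]
        rfl
      refine Finset.card_bij (fun g _ => g * z) ?_ ?_ ?_
      · intro g hg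
        rw [mem_filter] at hg ⊢
        obtain ⟨_, h1, h2⟩ := hg
        refine ⟨mem_univ _, by rw [map_mul, hχz, mul_one, h1], ?_⟩
        rw [key g (hM g (by rw [h1]; exact ha)), h2]
        abel
      · intro g _ g' _ e
        exact mul_right_cancel e
      · intro g hg
        rw [mem_filter] at hg
        obtain ⟨_, h1, h2⟩ := hg
        have h3 : g * z⁻¹ * z = g := inv_mul_cancel_right g z
        have h4 : χ (g * z⁻¹) = a := by rw [map_mul, map_inv, hχz, inv_one, mul_one, h1]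
        refine ⟨g * z⁻¹, ?_, h3⟩
        rw [mem_filter]
        refine ⟨mem_univ _, h4, ?_⟩
        have h5 := key (g * z⁻¹) (hM _ (by rw [h4]; exact ha))
        rw [h3, h2] at h5
        funext j
        have h7 := congrFun h5 j
        simp only [Pi.add_apply, Pi.sub_apply] at h7
        linear_combination (-1 : ZMod 3) * h7
    have hsub : ∀ (D : Finset (Fin (s + 1) → ZMod 3)),
        (univ.filter fun g : L ≃ₐ[ℚ] L => χ g = a ∧ uu g ∈ D).card =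
        D.card * (univ.filter fun g : L ≃ₐ[ℚ] L => χ g = a ∧ uu g = 0).card := by
      intro D
      rw [Finset.card_eq_sum_card_fiberwise (f := uu) (t := D)]
      · rw [← smul_eq_mul, ← Finset.sum_const]
        refine Finset.sum_congr rfl fun w hw => ?_
        rw [← hfib w 0, Finset.filter_filter]
        congr 1
        apply Finset.filter_congr
        intro g _
        constructor
        · rintro ⟨⟨h1, _⟩, h2⟩
          exact ⟨h1, h2⟩
        · rintro ⟨h1, h2⟩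
          exact ⟨⟨h1, by rw [h2]; exact hw⟩, h2⟩
      · intro g hg
        have h1 := (mem_filter.1 (Finset.mem_coe.1 hg)).2.2
        exact h1
    have h1 : Nat.card {g : L ≃ₐ[ℚ] L // χ g = a} =
        3 ^ (s + 1) * (univ.filter fun g : L ≃ₐ[ℚ] L => χ g = a ∧ uu g = 0).card := by
      rw [Nat.card_eq_fintype_card, Fintype.card_subtype]
      have h2 := hsub univ
      simp only [mem_univ, and_true] at h2
      rw [h2, Finset.card_univ, Fintype.card_fun, ZMod.card, Fintype.card_fin]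
    have h2 : Nat.card {g : L ≃ₐ[ℚ] L // χ g = a ∧ Fx b g} =
        2 * (univ.filter fun g : L ≃ₐ[ℚ] L => χ g = a ∧ uu g = 0).card := by
      rw [Nat.card_eq_fintype_card, Fintype.card_subtype]
      have h2 := hsub (univ.filter fun w : Fin (s + 1) → ZMod 3 =>
        (∀ j : Fin s, w j.castSucc = 0) ∧ w (Fin.last s) ≠ 0)
      rw [card_good] at h2
      rw [← h2]
      congr 1
      apply Finset.filter_congr
      intro g _
      constructor
      · rintro ⟨h3, h4⟩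
        refine ⟨h3, mem_filter.2 ⟨mem_univ _, ?_⟩⟩
        exact (hFu g (hM g (by rw [h3]; exact ha))).1 h4
      · rintro ⟨h3, h4⟩
        exact ⟨h3, (hFu g (hM g (by rw [h3]; exact ha))).2 (mem_filter.1 h4).2⟩
    rw [h1, h2]
    ring
  · intro Q hQ hQp hN₀ P g hP hQP hst hg hFg
    have hfin := GFR.quo_finite hQp hP hQP
    obtain ⟨k, hk, hfr⟩ := GFR.exists_frob_gen (R := ℤ) P g hst
    obtain ⟨h3o, _, hpow⟩ := hT1 g (hM g hg) hFg
    have hk3 : ¬ 3 ∣ k := by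
      intro h
      have h1 := Nat.dvd_gcd h h3o
      rw [hk] at h1
      omega
    obtain ⟨hkω, hkF⟩ := hpow k
    have hχk := hχF Q hQ hQp P (g ^ k) hP hQP hfr
    have hQ3 : Q % 3 = 1 := by
      have h1 := hωχ (g ^ k)
      rw [hkω, hχk, ZMod.coe_unitOfCoprime, ZMod.val_natCast] at h1
      have h2 := om_pow_inj hG.rel (i := 1) (j := Q % f) (by rw [pow_one]; exact h1)
      rw [Nat.mod_mod_of_dvd _ h3f] at h2
      omega
    obtain ⟨ρ, hρ1, hρ2, hρ3, hρ4⟩ := hFr Q hQp hN₀ hQ3 P hP hQP (g ^ k) hfr (hkF hk3)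
    refine ⟨hQ3, k, hk, hk3, hχk, ρ, hρ1, hρ2, hρ3, fun j i hji r hr => ?_⟩
    exact hρ4 j i hji r _ hr (ht (g ^ k) j i hji hkω (hkF hk3))

end Pool.Agent.PTE

end

section

/-!
# GALG: summary of the governing field, without congruence conditions at `3`
-/

open NumberField IsDedekindDomain Finset
open scoped nonZeroDivisors Pointwise

namespace Pool.Agent.PT3

open Pool.Agent.Lib_helper18 Pool.Agent.Lib_helper18.Eis Pool.Agent.Lib_helper84.Cub
open Pool.Agent.PT Pool.Agent.PTE Pool.Agent.PT.GALD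

theorem GALG_thm (hGZEROG : GZEROG) (hGCHI : GCHI) (hGTG : GTG) (hGCG : GCG) (hGFRG : GFRG) :
    GALG := by
  classical
  intro s b p q p' q' f hSys hf h9
  obtain ⟨L, hF, hN, ζ, ω, hG⟩ := hGZEROG s b p q p' q' f hSys hf h9
  haveI := hG.gal
  obtain ⟨χ, hχs, hχζ, hχF⟩ := hGCHI L f ζ hf hG.prim
  obtain ⟨N₀, hFr⟩ := hGFRG s b p q p' q' f L ζ ω hSys hG
  have hω3 : ω ^ 3 = 1 := om_cube hG.rel
  have hf1 : 1 < f := by
    obtain ⟨c, hc⟩ := h9
    omega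
  have hT := hGTG s b p q p' q' f L ζ ω hSys hG
  -- action on ω
  have hM : ∀ g : L ≃ₐ[ℚ] L, M2 (χ g) → g ω = ω ^ 2 := by
    intro g hg
    rw [hG.hω, map_pow, hχζ g, ← pow_mul, mul_comm, pow_mul, ← hG.hω]
    apply om_congr hω3
    unfold M2 at hg
    omega
  let t : (L ≃ₐ[ℚ] L) → Fin s → Fin s → ZMod 3 := fun g j i =>
    if h : j ≠ i ∧ g ω = ω ^ 2 then ((hT j i h.1).1 g h.2).choose else 0
  have ht : ∀ (g : L ≃ₐ[ℚ] L) (j i : Fin s), j ≠ i → g ω = ω ^ 2 →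
      IsT b p q p' q' ω g j i (t g j i) := by
    intro g j i hji hg
    have h : j ≠ i ∧ g ω = ω ^ 2 := ⟨hji, hg⟩
    have e : t g j i = ((hT j i h.1).1 g h.2).choose := dif_pos h
    rw [e]
    exact ((hT j i h.1).1 g h.2).choose_spec.1
  have htu : ∀ (g : L ≃ₐ[ℚ] L) (j i : Fin s) (c : ZMod 3), j ≠ i → g ω = ω ^ 2 →
      IsT b p q p' q' ω g j i c → t g j i = c := by
    intro g j i c hji hg hc
    exact ((hT j i hji).1 g hg).unique (ht g j i hji hg) hc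
  refine ⟨L, hF, hN, hG.gal, χ, t, N₀, hχs, ?_, ?_, ?_, ?_⟩
  · intro g τ hg j i hji
    have h1 : χ (τ * g * τ⁻¹) = χ g := by
      rw [map_mul, map_mul, map_inv, mul_comm (χ τ), mul_inv_cancel_right]
    apply htu _ _ _ _ hji
    · apply hM
      rw [h1]
      exact hg
    · exact (hT j i hji).2.1 g τ _ (hM g hg) (ht g j i hji (hM g hg))
  · intro g k hg hk j i hji
    apply htu _ _ _ _ hji
    · rw [pow_om hω3 g (hM g hg) k]
      apply om_congr hω3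
      rw [two_pow_odd hk]
    · exact (hT j i hji).2.2 g _ k (hM g hg) hk (ht g j i hji (hM g hg))
  · intro a v v' ha
    obtain ⟨z, hzζ, hzρ, hzA⟩ := hGCG s b p q p' q' f L ζ ω hSys hG (fun j i => v j i - v' j i)
    have hzω : z ω = ω := by rw [hG.hω, map_pow, hzζ]
    have hχz : χ z = 1 := by
      have h1 := hχζ z
      rw [hzζ] at h1
      haveI : NeZero f := ⟨hf.ne'⟩
      have h2 : ((χ z : ZMod f)).val = 1 := by
        apply hG.prim.pow_inj (ZMod.val_lt _) hf1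
        rw [← h1, pow_one]
      apply Units.ext
      have h3 := ZMod.natCast_zmod_val (χ z : ZMod f)
      rw [h2] at h3
      rw [← h3]
      simp
    have key : ∀ g : L ≃ₐ[ℚ] L, g ω = ω ^ 2 → ∀ j i, j < i →
        t (g * z) j i = t g j i - (v j i - v' j i) := by
      intro g hg j i hji
      have hgz : (g * z) ω = ω ^ 2 := by rw [AlgEquiv.mul_apply, hzω, hg]
      apply htu _ _ _ _ hji.ne hgz
      intro ρ A hρ hgρ hA
      rw [AlgEquiv.mul_apply, hzρ j ρ hρ] at hgρ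
      have h1 := ht g j i hji.ne hg ρ A hρ hgρ hA
      rw [AlgEquiv.mul_apply, hzA j i hji ρ A hρ hA, map_mul, map_pow, hg, mul_assoc, h1,
        ← pow_mul, ← pow_add]
      apply om_congr hω3
      have : ((2 * (v j i - v' j i).val + (t g j i).val : ℕ) : ZMod 3) =
          (((t g j i - (v j i - v' j i)).val : ℕ) : ZMod 3) := by
        push_cast
        rw [ZMod.natCast_zmod_val, ZMod.natCast_zmod_val, ZMod.natCast_zmod_val]
        have h3 : (3 : ZMod 3) = 0 := by decide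
        linear_combination (v j i - v' j i) * h3
      exact (ZMod.natCast_eq_natCast_iff' _ _ 3).mp this
    apply Nat.card_congr
    refine Equiv.subtypeEquiv (Equiv.mulRight z) ?_
    intro g
    have hχ : χ (g * z) = χ g := by rw [map_mul, hχz, mul_one]
    show (χ g = a ∧ ∀ j i, j < i → t g j i = v j i) ↔
      (χ (g * z) = a ∧ ∀ j i, j < i → t (g * z) j i = v' j i)
    rw [hχ]
    constructor
    · rintro ⟨h1, h2⟩
      refine ⟨h1, fun j i hji => ?_⟩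
      rw [key g (hM g (by rw [h1]; exact ha)) j i hji, h2 j i hji]
      ring
    · rintro ⟨h1, h2⟩
      refine ⟨h1, fun j i hji => ?_⟩
      have h3 := h2 j i hji
      rw [key g (hM g (by rw [h1]; exact ha)) j i hji] at h3
      linear_combination h3
  · intro Q hQ hQp hN₀ P g hP hQP hst
    haveI := hP
    obtain ⟨h1, h2⟩ := hFr Q hQp hN₀ P hP hQP
    obtain ⟨k, hk, hfr⟩ := h1 g hst
    refine ⟨k, hk, hχF Q hQ hQp P (g ^ k) hP hQP hfr, ?_⟩
    intro hQ3 j i hji r hr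
    obtain ⟨h3, h4⟩ := h2 (g ^ k) hfr hQ3
    exact h4 j i hji r _ hr (ht (g ^ k) j i hji h3)

end Pool.Agent.PT3

end

section

/-!
# PT3, module FCL0: one class, `3` does not divide `n`, `k` even
-/

set_option autoImplicit false

open NumberField IsDedekindDomain Finset
open scoped nonZeroDivisors Pointwise

namespace Pool.Agent.PT3

open Pool.Agent.Lib_helper18 Pool.Agent.Lib_helper18.Eis
open Pool.Agent.Lib_helper84.Cub hiding OO
open Pool.Agent.PT Pool.Agent.PTE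

namespace FCL0

theorem pos_of_nf {n m k : ℕ} {π : Fin m → PP} {p e : Fin m → ℕ} {r f : Fin k → ℕ}
    (h : NF n π p e r f) : 0 < n := by
  rw [h.eq]
  exact Nat.mul_pos (Finset.prod_pos fun i _ => pow_pos (h.pp i).pos _)
    (Finset.prod_pos fun j _ => pow_pos (h.rp j).pos _)

theorem three_of_nf {n m k : ℕ} {π : Fin m → PP} {p e : Fin m → ℕ} {r f : Fin k → ℕ}
    (h : NF n π p e r f) : ¬ 3 ∣ n := by
  rw [h.eq]
  intro h0
  rcases (Nat.prime_three.dvd_mul).1 h0 with h1 | h1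
  · obtain ⟨i, _, hi⟩ := (Nat.prime_three.prime.dvd_finsetProd_iff _).1 h1
    have h2 := Nat.prime_three.dvd_of_dvd_pow hi
    have h3 := h.p1 i
    omega
  · obtain ⟨i, _, hi⟩ := (Nat.prime_three.prime.dvd_finsetProd_iff _).1 h1
    have h2 := Nat.prime_three.dvd_of_dvd_pow hi
    have h3 := h.r2 i
    omega

/-- The homomorphism with given components. -/
def assemble {s F : ℕ} (Φ : Fin s → Fin s → ((ZMod F)ˣ →* Multiplicative (ZMod 3))) :
    (ZMod F)ˣ →* Multiplicative (Fin s → Fin s → ZMod 3) where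
  toFun := fun a => Multiplicative.ofAdd fun j i => (Φ j i a).toAdd
  map_one' := by
    apply Multiplicative.toAdd.injective
    funext j i
    simp
  map_mul' := fun a a' => by
    apply Multiplicative.toAdd.injective
    funext j i
    simp

theorem assemble_apply {s F : ℕ} (Φ : Fin s → Fin s → ((ZMod F)ˣ →* Multiplicative (ZMod 3)))
    (a : (ZMod F)ˣ) (j i : Fin s) : (assemble Φ a).toAdd j i = (Φ j i a).toAdd := rfl

end FCL0

set_option linter.unusedVariables false in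
/-- One class, `3` does not divide `n`, `k` even. -/
theorem FCL0_thm (hSPP : SPP) (hECL0 : ECL0) (hDCONST : DCONST) (hCLSC : CLSC) (hDENS : DENS)
    (hTEND : TEND) : FCL0 := by
  intro n m k π p e r f w0 c hNF hk hw hdt
  obtain ⟨s, b, P, Q, P', Q', hs, hadm, hsys, hq⟩ := hECL0 n m k π p e r f w0 c hNF hk hw hdt
  have hn : 0 < n := FCL0.pos_of_nf hNF
  have h3 : ¬ 3 ∣ n := FCL0.three_of_nf hNF
  have hD : ∀ j i : Fin s, ∃ f₀ : ℕ, 0 < f₀ ∧ ∀ F : ℕ, 0 < F → f₀ ∣ F →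
      ∃ (C : ZMod 3) (Φ : (ZMod F)ˣ →* Multiplicative (ZMod 3)) (N₀ : ℕ), j ≠ i →
        ∀ (q : ℕ) (hQ : q.Coprime F), q.Prime → N₀ < q → q % 3 = 2 → BOk ((n : ℤ) * q) →
          Adm ((n : ℤ) * q) (b j) → Adm ((n : ℤ) * q) (b i) → ∀ t : ℤ, (q : ℤ) ∣ t ^ 3 - b j →
          OO ((n : ℤ) * q) (b j) (b i) (P j i) (Q j i) (P' j i) (Q' j i) =
            C + (Φ (ZMod.unitOfCoprime q hQ)).toAdd -
              TAUV q (P j i) (Q j i) (P' j i) (Q' j i) t := by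
    intro j i
    by_cases hji : j = i
    · exact ⟨1, one_pos, fun F _ _ => ⟨0, 1, 0, fun h => absurd hji h⟩⟩
    · obtain ⟨f₀, hf₀, h⟩ := hDCONST n (b j) (b i) (P j i) (Q j i) (P' j i) (Q' j i) hn h3
        (hsys.sol j i hji) (hadm j).ne (hadm i).ne
      refine ⟨f₀, hf₀, fun F hF hd => ?_⟩
      obtain ⟨C, Φ, N₀, h'⟩ := h F hF hd
      exact ⟨C, Φ, N₀, fun _ => h'⟩
  choose f₀ hf₀ hD1 using hD
  obtain ⟨F, hF, h9, hpF, hfF⟩ : ∃ F : ℕ, 0 < F ∧ 9 ∣ F ∧ (∀ i, p i ∣ F) ∧ ∀ j i, f₀ j i ∣ F := by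
    refine ⟨9 * (∏ i, p i) * ∏ j, ∏ i, f₀ j i, ?_, ?_, ?_, ?_⟩
    · have h1 : 0 < ∏ i, p i := Finset.prod_pos fun i _ => (hNF.pp i).pos
      have h2 : 0 < ∏ j, ∏ i, f₀ j i :=
        Finset.prod_pos fun j _ => Finset.prod_pos fun i _ => hf₀ j i
      positivity
    · exact Dvd.dvd.mul_right (Dvd.intro _ rfl) _
    · intro i
      exact Dvd.dvd.mul_right (Dvd.dvd.mul_left (Finset.dvd_prod_of_mem p (mem_univ i)) _) _
    · intro j i
      exact Dvd.dvd.mul_left ((Finset.dvd_prod_of_mem (fun i => f₀ j i) (mem_univ i)).trans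
        (Finset.dvd_prod_of_mem (fun j => ∏ i, f₀ j i) (mem_univ j))) _
  choose C Φ N₀ hD2 using fun j i => hD1 j i F hF (hfF j i)
  obtain ⟨κ, hκ, hcount⟩ := hCLSC m π p hNF.pp hNF.p1 hNF.pπ hNF.pinj F hF h9 hpF
  have hdens := hDENS s b P Q P' Q' F m κ (Fin.cons w0 c) C (FCL0.assemble Φ) hsys hs hF h9 hcount
  refine RI.PDGE_thm _ _ (Finset.range (n + 3 + ∑ j, ∑ i, N₀ j i + 1)) _ hdens ?_
  rintro q ⟨hQ, hq3, hκq, hdet⟩ hqp hqA
  rw [Finset.mem_range, not_lt] at hqA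
  have hN : ∀ j i, N₀ j i ≤ ∑ j, ∑ i, N₀ j i := by
    intro j i
    exact (Finset.single_le_sum (f := fun i => N₀ j i) (fun i _ => Nat.zero_le _)
      (mem_univ i)).trans (Finset.single_le_sum (f := fun j => ∑ i, N₀ j i)
        (fun j _ => Nat.zero_le _) (mem_univ j))
  rw [hκ q hQ] at hκq
  have hcl : InCl π w0 c q := by
    refine ⟨hq3, ?_, fun i => ?_⟩
    · have := congrFun hκq 0
      simpa using this
    · have := congrFun hκq i.succ
      simpa using this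
  refine ⟨hcl, fun hXY => ?_⟩
  have hqn : ¬ q ∣ n := fun h => by
    have := Nat.le_of_dvd hn h
    omega
  obtain ⟨hA, hB, hM⟩ := hq q hqp hcl hqn (by omega)
  have hM0 := hM hXY
  have hskew := (hTEND s b P Q P' Q' ((n : ℤ) * q) hsys hB hA).1
  let τ : Fin s → Fin s → ZMod 3 := fun j i =>
    C j i + (Φ j i (ZMod.unitOfCoprime q hQ)).toAdd -
      OO ((n : ℤ) * q) (b j) (b i) (P j i) (Q j i) (P' j i) (Q' j i)
  apply hdet τ
  · intro j i hji t ht
    have h1 := hD2 j i hji q hQ hqp (by have := hN j i; omega) hq3 hB (hA j) (hA i) t ht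
    simp only [τ]
    rw [h1]
    ring
  · rw [← hM0]
    congr 1
    ext j i
    have hv : ∀ j i, (C + (FCL0.assemble Φ (ZMod.unitOfCoprime q hQ)).toAdd - τ) j i =
        OO ((n : ℤ) * q) (b j) (b i) (P j i) (Q j i) (P' j i) (Q' j i) := by
      intro j i
      simp only [Pi.sub_apply, Pi.add_apply, τ, FCL0.assemble_apply]
      ring
    unfold alt
    rw [hv, hv]
    by_cases h1 : j < i
    · rw [if_pos h1]
      unfold Mat
      rw [if_neg h1.ne]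
    · rw [if_neg h1]
      by_cases h2 : i < j
      · rw [if_pos h2, hskew j i]
        unfold Mat
        rw [if_neg h2.ne]
      · rw [if_neg h2]
        have h3 : j = i := le_antisymm (not_lt.1 h2) (not_lt.1 h1)
        unfold Mat
        rw [if_pos h3]

end Pool.Agent.PT3

end

section

/-!
# PTK_IF1: the identity of the two norm residue symbols over `Z[w]`
-/

set_option autoImplicit false

namespace Pool.Agent.PTK

open Pool.Agent.Lib_helper18 Pool.Agent.Lib_helper18.Eis Pool.Agent.Lib_helper84.Cub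
open Pool.Agent.PT

namespace IF1

open Pool.Agent.PT.IF1 (key degen le_V dvd_V V_le dvd_cancel two_mul_eq_zero three_mul_eq s_one
  s_neg s_cube w_ne dvd_sub3 dvd_add3 w2_cube w_sub_ne)

theorem cast_ne {n : Eis} (h : n ≠ 0) : n ≠ 0 := h

/-- The numbers attached to a solution. -/
theorem consts {b x p q p' q' : Eis} (_hb : b ≠ 0) (hS : SolE b x p q p' q') :
    p' ^ 3 + b * q' ^ 3 ≠ 0 ∧ x * q' ^ 3 - q ^ 3 ≠ 0 ∧ GfE p q p' q' 1 ≠ 0 ∧
      GfE p q p' q' 2 ≠ 0 := by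
  refine ⟨?_, ?_, hS.g1, hS.g2⟩
  · intro h
    apply hS.n1
    rw [hS.eq, h, mul_zero]
  · intro h
    apply hS.n2
    have h3 := hS.eq
    linear_combination h3 + b * h

/-- The linear forms do not vanish, and their valuations are bounded. -/
theorem forms {π : Eis} (hπ : Prime π) {b x p q p' q' : Eis} (hb : b ≠ 0)
    (hS : SolE b x p q p' q') {N : ℕ}
    (hN1 : V π ((p ^ 3 + b * q ^ 3 : Eis) : Eis) < N)
    (hN2 : V π ((p' ^ 3 + b * q' ^ 3 : Eis) : Eis) < N)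
    (hN3 : V π ((p ^ 3 - x * p' ^ 3 : Eis) : Eis) < N)
    (hN4 : V π ((q ^ 3 - x * q' ^ 3 : Eis) : Eis) < N) {r z : Eis}
    (hr : π ^ N ∣ r ^ 3 - (b : Eis)) (hz : π ^ N ∣ z ^ 3 - (x : Eis)) {t : Eis}
    (ht : t ^ 3 = 1) :
    ((p + t * r * q ≠ 0 ∧ V π (p + t * r * q) ≤ V π ((p ^ 3 + b * q ^ 3 : Eis) : Eis)) ∧
    (p' + t * r * q' ≠ 0 ∧ V π (p' + t * r * q') ≤ V π ((p' ^ 3 + b * q' ^ 3 : Eis) : Eis))) ∧
    ((p - t * z * p' ≠ 0 ∧ V π (p - t * z * p') ≤ V π ((p ^ 3 - x * p' ^ 3 : Eis) : Eis)) ∧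
    (q - t * z * q' ≠ 0 ∧ V π (q - t * z * q') ≤ V π ((q ^ 3 - x * q' ^ 3 : Eis) : Eis))) := by
  obtain ⟨c1, c2, -, -⟩ := consts hb hS
  have c3 : q ^ 3 - x * q' ^ 3 ≠ 0 := by
    intro h
    apply c2
    linear_combination -h
  have e1 : ∀ u v : Eis, (u : Eis) + t * r * v = u + t * (r * v) := fun u v => by ring
  have e2 : ∀ u v : Eis, (u : Eis) - t * z * v = u - t * (z * v) := fun u v => by ring
  refine ⟨⟨?_, ?_⟩, ?_, ?_⟩
  · rw [e1]
    refine V_le (c' := (p : Eis) ^ 3 + (r * q) ^ 3) hπ (cast_ne hS.n1) hN1 ?_ (dvd_add3 ht)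
    have e3 : (p : Eis) ^ 3 + (r * q) ^ 3 - ((p ^ 3 + b * q ^ 3 : Eis) : Eis) =
        (r ^ 3 - b) * q ^ 3 := by
      ring
    rw [e3]
    exact Dvd.dvd.mul_right hr _
  · rw [e1]
    refine V_le (c' := (p' : Eis) ^ 3 + (r * q') ^ 3) hπ (cast_ne c1) hN2 ?_ (dvd_add3 ht)
    have e3 : (p' : Eis) ^ 3 + (r * q') ^ 3 - ((p' ^ 3 + b * q' ^ 3 : Eis) : Eis) =
        (r ^ 3 - b) * q' ^ 3 := by
      ring
    rw [e3]
    exact Dvd.dvd.mul_right hr _
  · rw [e2]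
    refine V_le (c' := (p : Eis) ^ 3 - (z * p') ^ 3) hπ (cast_ne hS.n2) hN3 ?_ (dvd_sub3 ht)
    have e3 : (p : Eis) ^ 3 - (z * p') ^ 3 - ((p ^ 3 - x * p' ^ 3 : Eis) : Eis) =
        (z ^ 3 - x) * (-p' ^ 3) := by
      ring
    rw [e3]
    exact Dvd.dvd.mul_right hz _
  · rw [e2]
    refine V_le (c' := (q : Eis) ^ 3 - (z * q') ^ 3) hπ (cast_ne c3) hN4 ?_ (dvd_sub3 ht)
    have e3 : (q : Eis) ^ 3 - (z * q') ^ 3 - ((q ^ 3 - x * q' ^ 3 : Eis) : Eis) =
        (z ^ 3 - x) * (-q' ^ 3) := by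
      ring
    rw [e3]
    exact Dvd.dvd.mul_right hz _

theorem sum_dvd {π : Eis} {b x p q p' q' : Eis} (hS : SolE b x p q p' q') {N : ℕ} {r z : Eis}
    (hr : π ^ N ∣ r ^ 3 - (b : Eis)) (hz : π ^ N ∣ z ^ 3 - (x : Eis)) :
    π ^ N ∣ (p : Eis) ^ 3 + (-(z * p')) ^ 3 + (r * q) ^ 3 + (-(z * (r * q'))) ^ 3 := by
  obtain ⟨u, hu⟩ := hr
  obtain ⟨v, hv⟩ := hz
  have h1 : (p : Eis) ^ 3 + b * q ^ 3 = x * (p' ^ 3 + b * q' ^ 3) := by
    exact hS.eq
  refine ⟨u * (q ^ 3 - z ^ 3 * q' ^ 3) - v * (p' ^ 3 + b * q' ^ 3), ?_⟩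
  linear_combination ((q : Eis) ^ 3 - z ^ 3 * q' ^ 3) * hu -
    ((p' : Eis) ^ 3 + b * q' ^ 3) * hv + h1

/-- The identity for one cube root `z` of `x`, in the nondegenerate case. -/
theorem core {π : Eis} {s : Eis → Eis → ZMod 3} {e : ℕ} (hs : LSym π s e)
    (b x p q p' q' : Eis) (hb : b ≠ 0) (hx : x ≠ 0) (hS : SolE b x p q p' q') :
    ∃ K : ℕ, ∀ (M N : ℕ), K + 3 * M ≤ N → ∀ r z : Eis, π ^ N ∣ r ^ 3 - (b : Eis) →
      π ^ N ∣ z ^ 3 - (x : Eis) →
      ¬ π ^ M ∣ (p + w * (-(z * p')) + w * (r * q) + -(z * (r * q'))) → ∀ B : Eis, B ≠ 0 →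
      s (p - w ^ 2 * z * p') B + s (q - w * z * q') B + s (p + w ^ 2 * r * q) B +
        s (p' + w * r * q') B + s (GfE p q p' q' 2) B =
      s (w ^ 2) B + s (p - w * z * p') B + s (q - w ^ 2 * z * q') B + s (p + w * r * q) B +
        s (p' + w ^ 2 * r * q') B + s (GfE p q p' q' 1) B := by
  have hπ := hs.prime
  have he := hs.pos
  obtain ⟨c1, c2, cG1, cG2⟩ := consts hb hS
  refine ⟨2 * V π (b : Eis) + 2 * V π (x : Eis) + V π ((p ^ 3 + b * q ^ 3 : Eis) : Eis) +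
    V π ((p' ^ 3 + b * q' ^ 3 : Eis) : Eis) + V π ((p ^ 3 - x * p' ^ 3 : Eis) : Eis) +
    V π ((q ^ 3 - x * q' ^ 3 : Eis) : Eis) + V π (GfE p q p' q' 2) + e + 1, ?_⟩
  intro M N hN r z hr hz hE B hB
  obtain ⟨⟨-, vQ1⟩, -, vH1⟩ := forms hπ hb hS (by omega) (by omega) (by omega) (by omega) hr hz
    w_cube
  obtain ⟨⟨vP2, -⟩, vF2, -⟩ := forms hπ hb hS (by omega) (by omega) (by omega) (by omega) hr hz
    w2_cube
  have vr : r ≠ 0 ∧ V π r ≤ V π (b : Eis) := V_le (c' := r ^ 3) hπ (cast_ne hb)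
    (by omega : V π (b : Eis) < N) hr (dvd_pow_self r three_ne_zero)
  have vz : z ≠ 0 ∧ V π z ≤ V π (x : Eis) := V_le (c' := z ^ 3) hπ (cast_ne hx)
    (by omega : V π (x : Eis) < N) hz (dvd_pow_self z three_ne_zero)
  obtain ⟨E1, hE1⟩ : ∃ E1 : Eis, E1 = p + w * (-(z * p')) + w * (r * q) + -(z * (r * q')) :=
    ⟨_, rfl⟩
  obtain ⟨E2, hE2⟩ : ∃ E2 : Eis,
      E2 = p + w ^ 2 * (-(z * p')) + w ^ 2 * (r * q) + -(z * (r * q')) := ⟨_, rfl⟩
  rw [← hE1] at hE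
  have hE0 : E1 ≠ 0 := by
    rintro h
    rw [h] at hE
    exact hE (dvd_zero _)
  have hEV : V π E1 < M := by
    by_contra hcon
    exact hE (dvd_V (not_lt.mp hcon))
  have hkey := (sum_dvd hS hr hz).trans
    (key w_rel (p : Eis) (-(z * p')) (r * q) (-(z * (r * q'))))
  rw [← hE1, ← hE2] at hkey
  obtain ⟨F2, hF2⟩ : ∃ F2 : Eis, F2 = p - w ^ 2 * z * p' := ⟨_, rfl⟩
  obtain ⟨H1, hH1⟩ : ∃ H1 : Eis, H1 = q - w * z * q' := ⟨_, rfl⟩
  obtain ⟨P2, hP2⟩ : ∃ P2 : Eis, P2 = p + w ^ 2 * r * q := ⟨_, rfl⟩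
  obtain ⟨Q1, hQ1⟩ : ∃ Q1 : Eis, Q1 = p' + w * r * q' := ⟨_, rfl⟩
  obtain ⟨F1, hF1⟩ : ∃ F1 : Eis, F1 = p - w * z * p' := ⟨_, rfl⟩
  obtain ⟨H2, hH2⟩ : ∃ H2 : Eis, H2 = q - w ^ 2 * z * q' := ⟨_, rfl⟩
  obtain ⟨P1, hP1⟩ : ∃ P1 : Eis, P1 = p + w * r * q := ⟨_, rfl⟩
  obtain ⟨Q2, hQ2⟩ : ∃ Q2 : Eis, Q2 = p' + w ^ 2 * r * q' := ⟨_, rfl⟩
  obtain ⟨G1, hG1⟩ : ∃ G1 : Eis, G1 = GfE p q p' q' 1 := ⟨_, rfl⟩
  obtain ⟨G2, hG2⟩ : ∃ G2 : Eis, G2 = GfE p q p' q' 2 := ⟨_, rfl⟩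
  have eL : ((p : Eis) + w ^ 2 * (-(z * p'))) * (r * q + w * (-(z * (r * q')))) *
      (((p : Eis) + w ^ 2 * (r * q)) * (-(z * p') + w * (-(z * (r * q'))))) *
      (-(z * p') * (r * q) - w ^ 2 * ((p : Eis) * (-(z * (r * q'))))) * E1 ^ 3 =
      F2 * (r * H1) * (P2 * (-(z * Q1))) * (-(z * (r * G2))) * E1 ^ 3 := by
    rw [hF2, hH1, hP2, hQ1, hG2]
    unfold GfE
    ring
  have eR : w ^ 2 * (((p : Eis) + w * (-(z * p'))) * (r * q + w ^ 2 * (-(z * (r * q')))) *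
      (((p : Eis) + w * (r * q)) * (-(z * p') + w ^ 2 * (-(z * (r * q'))))) *
      (-(z * p') * (r * q) - w * ((p : Eis) * (-(z * (r * q'))))) * E2 ^ 3) =
      w ^ 2 * (F1 * (r * H2) * (P1 * (-(z * Q2))) * (-(z * (r * G1))) * E2 ^ 3) := by
    rw [hF1, hH2, hP1, hQ2, hG1]
    unfold GfE
    ring
  rw [eL, eR] at hkey
  rw [← hF2, ← hH1, ← hP2, ← hQ1, ← hF1, ← hH2, ← hP1, ← hQ2, ← hG1, ← hG2]
  rw [← hF2] at vF2
  rw [← hH1] at vH1
  rw [← hP2] at vP2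
  rw [← hQ1] at vQ1
  rw [← hG2] at hN cG2
  obtain ⟨hr0, hrV⟩ := vr
  obtain ⟨hz0, hzV⟩ := vz
  obtain ⟨hF0, hFV⟩ := vF2
  obtain ⟨hH0, hHV⟩ := vH1
  obtain ⟨hP0, hPV⟩ := vP2
  obtain ⟨hQ0, hQV⟩ := vQ1
  have n1 := mul_ne_zero hr0 hH0
  have n2 := mul_ne_zero hF0 n1
  have n3 := mul_ne_zero hz0 hQ0
  have n3' := neg_ne_zero.mpr n3
  have n4 := mul_ne_zero hP0 n3'
  have n5 := mul_ne_zero n2 n4
  have n6 := mul_ne_zero hr0 cG2
  have n7 := mul_ne_zero hz0 n6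
  have n7' := neg_ne_zero.mpr n7
  have n8 := mul_ne_zero n5 n7'
  have n9 := pow_ne_zero 3 hE0
  have n10 := mul_ne_zero n8 n9
  obtain ⟨L, hL⟩ : ∃ L : Eis, L = F2 * (r * H1) * (P2 * (-(z * Q1))) * (-(z * (r * G2))) *
      E1 ^ 3 := ⟨_, rfl⟩
  have hLV : V π L + e ≤ N := by
    rw [hL, V_mul hπ n8 n9, V_mul hπ n5 n7', V_mul hπ n2 n4, V_mul hπ hF0 n1, V_mul hπ hr0 hH0,
      V_mul hπ hP0 n3', V_neg, V_mul hπ hz0 hQ0, V_neg, V_mul hπ hz0 n6, V_mul hπ hr0 cG2,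
      V_pow hπ hE0]
    omega
  rw [← hL] at hkey n10
  obtain ⟨R, hR⟩ : ∃ R : Eis, R = w ^ 2 * (F1 * (r * H2) * (P1 * (-(z * Q2))) *
      (-(z * (r * G1))) * E2 ^ 3) := ⟨_, rfl⟩
  rw [← hR] at hkey
  have hd : π ^ (V π L + e) ∣ R - L := (pow_dvd_pow π hLV).trans hkey
  have hR0 : R ≠ 0 := (V_le hπ n10 (by omega) hd (dvd_refl R)).1
  have hcont := hs.cont L R B n10 hB hd
  rw [hR] at hR0
  have m1 := right_ne_zero_of_mul hR0
  have m0 := left_ne_zero_of_mul hR0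
  have m2 := right_ne_zero_of_mul m1
  have m3 := left_ne_zero_of_mul m1
  have m4 := right_ne_zero_of_mul m3
  have m5 := left_ne_zero_of_mul m3
  have m6 := right_ne_zero_of_mul m5
  have m7 := left_ne_zero_of_mul m5
  have m8 := right_ne_zero_of_mul m7
  have m9 := left_ne_zero_of_mul m7
  have m10 := right_ne_zero_of_mul m8
  have m11 := left_ne_zero_of_mul m6
  have m12 := right_ne_zero_of_mul m6
  have m13 := neg_ne_zero.mp m12
  have m14 := right_ne_zero_of_mul m13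
  have m15 := neg_ne_zero.mp m4
  have m16 := right_ne_zero_of_mul m15
  have m17 := right_ne_zero_of_mul m16
  have hE20 : E2 ≠ 0 := by
    intro h
    rw [h] at m2
    exact m2 (zero_pow three_ne_zero)
  have hsL : s L B = s F2 B + (s r B + s H1 B) + (s P2 B + (s z B + s Q1 B)) +
      (s z B + (s r B + s G2 B)) := by
    rw [hL, hs.mul _ _ _ n8 n9 hB, hs.mul _ _ _ n5 n7' hB, hs.mul _ _ _ n2 n4 hB,
      hs.mul _ _ _ hF0 n1 hB, hs.mul _ _ _ hr0 hH0 hB, hs.mul _ _ _ hP0 n3' hB,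
      s_neg hs hB n3, hs.mul _ _ _ hz0 hQ0 hB, s_neg hs hB n7, hs.mul _ _ _ hz0 n6 hB,
      hs.mul _ _ _ hr0 cG2 hB, s_cube hs hB hE0, add_zero]
  have hsR : s R B = s (w ^ 2) B + (s F1 B + (s r B + s H2 B) + (s P1 B + (s z B + s Q2 B)) +
      (s z B + (s r B + s G1 B))) := by
    rw [hR, hs.mul _ _ _ m0 m1 hB, hs.mul _ _ _ m3 m2 hB, hs.mul _ _ _ m5 m4 hB,
      hs.mul _ _ _ m7 m6 hB, hs.mul _ _ _ m9 m8 hB, hs.mul _ _ _ hr0 m10 hB,
      hs.mul _ _ _ m11 m12 hB, s_neg hs hB m13, hs.mul _ _ _ hz0 m14 hB, s_neg hs hB m15,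
      hs.mul _ _ _ hz0 m16 hB, hs.mul _ _ _ hr0 m17 hB, s_cube hs hB hE20, add_zero]
  rw [hsL, hsR] at hcont
  linear_combination -hcont

/-- Both roots `z`, `w z` cannot be degenerate. -/
theorem not_both {π : Eis} (hπ : Prime π)
    (b x p q p' q' : Eis) (hb : b ≠ 0) (hx : x ≠ 0) (hS : SolE b x p q p' q') :
    ∃ M0 : ℕ, ∀ N : ℕ, M0 ≤ N → ∀ r z : Eis, π ^ N ∣ r ^ 3 - (b : Eis) →
      π ^ N ∣ z ^ 3 - (x : Eis) →
      π ^ M0 ∣ (p + w * (-(z * p')) + w * (r * q) + -(z * (r * q'))) →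
      π ^ M0 ∣ (p + w * (-((w * z) * p')) + w * (r * q) + -((w * z) * (r * q'))) → False := by
  obtain ⟨c1, c2, cG1, cG2⟩ := consts hb hS
  have h30 : (3 : Eis) ≠ 0 := by
    have h := Pool.Agent.PT.IF1.cast_ne (n := 3) (by norm_num)
    rwa [Int.cast_ofNat] at h
  refine ⟨(V π (3 : Eis) + V π (x : Eis) + V π (b : Eis) + V π (GfE p q p' q' 1)) +
    (V π (w - 1 : Eis) + V π (x : Eis) + V π (b : Eis) + V π (p' : Eis) + V π (q' : Eis) + 1),
    ?_⟩
  intro N hN r z hr hz h1 h2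
  obtain ⟨hr0, hrV⟩ : r ≠ 0 ∧ V π r ≤ V π (b : Eis) := V_le (c' := r ^ 3) hπ (cast_ne hb)
    (by omega : V π (b : Eis) < N) hr (dvd_pow_self r three_ne_zero)
  obtain ⟨hz0, hzV⟩ : z ≠ 0 ∧ V π z ≤ V π (x : Eis) := V_le (c' := z ^ 3) hπ (cast_ne hx)
    (by omega : V π (x : Eis) < N) hz (dvd_pow_self z three_ne_zero)
  have hw0 : (w : Eis) ≠ 0 := w_ne
  have hVw : V π (w : Eis) = 0 := by
    apply V_eq_zero
    intro h
    have h3 : π ∣ 1 := by
      rw [← w_cube]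
      exact h.trans (dvd_pow_self w three_ne_zero)
    exact hπ.not_isUnit (isUnit_of_dvd_one h3)
  have hwz : π ^ N ∣ (w * z) ^ 3 - (x : Eis) := by
    have e1 : (w * z) ^ 3 = z ^ 3 := by
      rw [mul_pow, w_cube, one_mul]
    rw [e1]
    exact hz
  -- one degenerate root
  have key1 : ∀ y : Eis, y ≠ 0 → V π y ≤ V π (x : Eis) → π ^ N ∣ y ^ 3 - (x : Eis) →
      ∀ M : ℕ, M ≤ N → π ^ M ∣ (p + w * (-(y * p')) + w * (r * q) + -(y * (r * q'))) →
      π ^ (M - (V π (3 : Eis) + V π (x : Eis) + V π (b : Eis) + V π (GfE p q p' q' 1))) ∣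
        (-(y * p') + r * q) ∧
      π ^ (M - (V π (3 : Eis) + V π (x : Eis) + V π (b : Eis) + V π (GfE p q p' q' 1))) ∣
        ((p : Eis) - y * (r * q')) := by
    intro y hy hyV hyx M hM hE
    have e1 := degen w_cube (p : Eis) (-(y * p')) (r * q) (-(y * (r * q')))
    have e2 : π ^ M ∣ 3 * (-(y * p') + r * q) *
        (-(y * p') * (r * q) - w * ((p : Eis) * (-(y * (r * q'))))) := by
      rw [e1]
      exact dvd_sub (Dvd.dvd.mul_right hE _) ((pow_dvd_pow π hM).trans (sum_dvd hS hr hyx))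
    have e3 : 3 * (-(y * p') + r * q) *
        (-(y * p') * (r * q) - w * ((p : Eis) * (-(y * (r * q'))))) =
        (-(3 * (y * (r * GfE p q p' q' 1)))) * (-(y * p') + r * q) := by
      unfold GfE
      ring
    rw [e3] at e2
    have f1 := mul_ne_zero hr0 cG1
    have f2 := mul_ne_zero hy f1
    have f3 := mul_ne_zero h30 f2
    have e4 := dvd_cancel hπ (neg_ne_zero.mpr f3) (K := V π (3 : Eis) + V π (x : Eis) +
      V π (b : Eis) + V π (GfE p q p' q' 1)) (by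
        rw [V_neg, V_mul hπ h30 f2, V_mul hπ hy f1, V_mul hπ hr0 cG1]
        omega) e2
    refine ⟨e4, ?_⟩
    have e5 : (p : Eis) - y * (r * q') =
        (p + w * (-(y * p')) + w * (r * q) + -(y * (r * q'))) -
          w * (-(y * p') + r * q) := by ring
    rw [e5]
    exact dvd_sub ((pow_dvd_pow π (by omega)).trans hE) (Dvd.dvd.mul_left e4 _)
  obtain ⟨a1, a2⟩ := key1 z hz0 hzV hz _ hN h1
  obtain ⟨a3, a4⟩ := key1 (w * z) (mul_ne_zero hw0 hz0)
    (by rw [V_mul hπ hw0 hz0, hVw, zero_add]; exact hzV) hwz _ hN h2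
  rw [Nat.add_sub_cancel_left] at a1 a2 a3 a4
  have b1 : π ^ (V π (w - 1 : Eis) + V π (x : Eis) + V π (b : Eis) + V π (p' : Eis) +
      V π (q' : Eis) + 1) ∣ (w - 1) * (z * p') := by
    have := dvd_sub a1 a3
    have e1 : -(z * (p' : Eis)) + r * q - (-(w * z * p') + r * q) = (w - 1) * (z * p') := by ring
    rwa [e1] at this
  have b2 : π ^ (V π (w - 1 : Eis) + V π (x : Eis) + V π (b : Eis) + V π (p' : Eis) +
      V π (q' : Eis) + 1) ∣ (w - 1) * (z * (r * q')) := by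
    have := dvd_sub a2 a4
    have e1 : (p : Eis) - z * (r * q') - (p - w * z * (r * q')) = (w - 1) * (z * (r * q')) := by
      ring
    rwa [e1] at this
  by_cases hp : p' = 0
  · have hq : q' ≠ 0 := by
      rintro rfl
      apply c1
      rw [hp]
      ring
    have hqE := cast_ne hq
    have f1 := mul_ne_zero hr0 hqE
    have f2 := mul_ne_zero hz0 f1
    have h3 := le_V hπ (mul_ne_zero w_sub_ne f2) b2
    rw [V_mul hπ w_sub_ne f2, V_mul hπ hz0 f1, V_mul hπ hr0 hqE] at h3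
    omega
  · have hpE := cast_ne hp
    have f2 := mul_ne_zero hz0 hpE
    have h3 := le_V hπ (mul_ne_zero w_sub_ne f2) b1
    rw [V_mul hπ w_sub_ne f2, V_mul hπ hz0 hpE] at h3
    omega

end IF1

open Pool.Agent.PTK.IF1 (consts core not_both forms sum_dvd cast_ne) in
open Pool.Agent.PT.IF1 (key degen le_V dvd_V V_le dvd_cancel two_mul_eq_zero three_mul_eq s_one
  s_neg s_cube w_ne dvd_sub3 dvd_add3 w2_cube w_sub_ne) in
/-- IF1: `α_b α_x = w⁻¹ k_0` modulo cubes. -/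
theorem IF1_thm : Stmt_IF1 := by
  intro π s e hs b x p q p' q' hb hx hS
  have hπ := hs.prime
  have he := hs.pos
  obtain ⟨c1, c2, cG1, cG2⟩ := consts hb hS
  obtain ⟨K, hK⟩ := core hs b x p q p' q' hb hx hS
  obtain ⟨M0, hM0⟩ := not_both hπ b x p q p' q' hb hx hS
  refine ⟨K + 3 * M0 + M0 + V π (b : Eis) + V π ((p ^ 3 + b * q ^ 3 : Eis) : Eis) +
    V π ((p' ^ 3 + b * q' ^ 3 : Eis) : Eis) + V π ((p ^ 3 - x * p' ^ 3 : Eis) : Eis) +
    V π ((q ^ 3 - x * q' ^ 3 : Eis) : Eis) + e + 1, ?_⟩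
  intro r ξ hr hξ B hB
  obtain ⟨N, hN⟩ : ∃ N : ℕ, N = K + 3 * M0 + M0 + V π (b : Eis) +
    V π ((p ^ 3 + b * q ^ 3 : Eis) : Eis) +
    V π ((p' ^ 3 + b * q' ^ 3 : Eis) : Eis) + V π ((p ^ 3 - x * p' ^ 3 : Eis) : Eis) +
    V π ((q ^ 3 - x * q' ^ 3 : Eis) : Eis) + e + 1 := ⟨_, rfl⟩
  rw [← hN] at hr hξ
  have hw1 := w_cube
  have forms1 := fun (t : Eis) (ht : t ^ 3 = 1) => forms hπ hb hS (N := N) (by omega) (by omega)
    (by omega) (by omega) hr hξ ht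
  obtain ⟨⟨⟨nP0, -⟩, nQ0, -⟩, ⟨nF0, -⟩, nH0, -⟩ := forms1 1 (one_pow 3)
  obtain ⟨⟨⟨nP1, -⟩, nQ1, -⟩, ⟨nF1, -⟩, nH1, -⟩ := forms1 w w_cube
  obtain ⟨⟨⟨nP2, -⟩, nQ2, -⟩, ⟨nF2, -⟩, nH2, -⟩ := forms1 (w ^ 2) w2_cube
  -- the main equation
  have hmain : s (p - w ^ 2 * ξ * p') B + s (q - w * ξ * q') B + s (p + w ^ 2 * r * q) B +
        s (p' + w * r * q') B + s (GfE p q p' q' 2) B =
      s (w ^ 2) B + s (p - w * ξ * p') B + s (q - w ^ 2 * ξ * q') B + s (p + w * r * q) B +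
        s (p' + w ^ 2 * r * q') B + s (GfE p q p' q' 1) B := by
    by_cases h1 : π ^ M0 ∣ ((p : Eis) + w * (-((ξ : Eis) * p')) + w * ((r : Eis) * q) +
        -((ξ : Eis) * (r * q')))
    swap
    · exact hK M0 N (by omega) r ξ hr hξ h1 B hB
    by_cases h2 : π ^ M0 ∣ ((p : Eis) + w * (-((w * (ξ : Eis)) * p')) + w * ((r : Eis) * q) +
        -((w * (ξ : Eis)) * (r * q')))
    · exact absurd (hM0 N (by omega) r ξ hr hξ h1 h2) id
    have hwz : π ^ N ∣ (w * (ξ : Eis)) ^ 3 - (x : Eis) := by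
      have e1 : (w * (ξ : Eis)) ^ 3 = (ξ : Eis) ^ 3 := by
        rw [mul_pow, w_cube, one_mul]
      rw [e1]
      exact hξ
    have h3 := hK M0 N (by omega) r (w * ξ) hr hwz h2 B hB
    have e1 : (p : Eis) - w ^ 2 * (w * ξ) * p' = p - 1 * ξ * p' := by
      linear_combination (-(ξ : Eis) * p') * hw1
    have e2 : (q : Eis) - w * (w * ξ) * q' = q - w ^ 2 * ξ * q' := by ring
    have e3 : (p : Eis) - w * (w * ξ) * p' = p - w ^ 2 * ξ * p' := by ring
    have e4 : (q : Eis) - w ^ 2 * (w * ξ) * q' = q - 1 * ξ * q' := by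
      linear_combination (-(ξ : Eis) * q') * hw1
    rw [e1, e2, e3, e4] at h3
    -- the sums
    have hrel := w_rel
    have g1 : s (p - 1 * ξ * p') B + s (p - w * ξ * p') B + s (p - w ^ 2 * ξ * p') B =
        s ((p ^ 3 - x * p' ^ 3 : Eis) : Eis) B := by
      rw [← hs.mul _ _ _ nF0 nF1 hB, ← hs.mul _ _ _ (mul_ne_zero nF0 nF1) nF2 hB]
      apply hs.cont _ _ _ (cast_ne hS.n2) hB
      have e5 : ((p : Eis) - 1 * ξ * p') * (p - w * ξ * p') * (p - w ^ 2 * ξ * p') -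
          ((p ^ 3 - x * p' ^ 3 : Eis) : Eis) = ((ξ : Eis) ^ 3 - x) * (-p' ^ 3) := by
        linear_combination (-(p : Eis) ^ 2 * (ξ * p') + w * p * (ξ * p') ^ 2 -
          (w - 1) * ((ξ : Eis) * p') ^ 3) * hrel
      rw [e5]
      exact Dvd.dvd.mul_right ((pow_dvd_pow π (by omega)).trans hξ) _
    have c3 : q ^ 3 - x * q' ^ 3 ≠ 0 := by
      intro h
      apply c2
      linear_combination -h
    have g2 : s (q - 1 * ξ * q') B + s (q - w * ξ * q') B + s (q - w ^ 2 * ξ * q') B =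
        s ((q ^ 3 - x * q' ^ 3 : Eis) : Eis) B := by
      rw [← hs.mul _ _ _ nH0 nH1 hB, ← hs.mul _ _ _ (mul_ne_zero nH0 nH1) nH2 hB]
      apply hs.cont _ _ _ (cast_ne c3) hB
      have e5 : ((q : Eis) - 1 * ξ * q') * (q - w * ξ * q') * (q - w ^ 2 * ξ * q') -
          ((q ^ 3 - x * q' ^ 3 : Eis) : Eis) = ((ξ : Eis) ^ 3 - x) * (-q' ^ 3) := by
        linear_combination (-(q : Eis) ^ 2 * (ξ * q') + w * q * (ξ * q') ^ 2 -
          (w - 1) * ((ξ : Eis) * q') ^ 3) * hrel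
      rw [e5]
      exact Dvd.dvd.mul_right ((pow_dvd_pow π (by omega)).trans hξ) _
    have g3 : s ((p ^ 3 - x * p' ^ 3 : Eis) : Eis) B = s ((q ^ 3 - x * q' ^ 3 : Eis) : Eis) B := by
      have e5 : ((p ^ 3 - x * p' ^ 3 : Eis) : Eis) = -((b : Eis) *
          ((q ^ 3 - x * q' ^ 3 : Eis) : Eis)) := by
        have e6 : (p ^ 3 - x * p' ^ 3 : Eis) = -(b * (q ^ 3 - x * q' ^ 3)) := by
          have h6 := hS.eq
          linear_combination h6
        rw [e6]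
      have hbE := cast_ne hb
      have hcE := cast_ne c3
      rw [e5, s_neg hs hB (mul_ne_zero hbE hcE), hs.mul _ _ _ hbE hcE hB]
      have e7 : s (b : Eis) B = 0 := by
        have hr0 : (r : Eis) ≠ 0 := (V_le (c' := (r : Eis) ^ 3) hπ hbE
          (by omega : V π (b : Eis) < N) hr (dvd_pow_self (r : Eis) three_ne_zero)).1
        rw [← hs.cont (b : Eis) ((r : Eis) ^ 3) B hbE hB ((pow_dvd_pow π (by omega)).trans hr),
          s_cube hs hB hr0]
      rw [e7, zero_add]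
    have t1 := three_mul_eq (s ((p : Eis) - w ^ 2 * ξ * p') B)
    have t2 := three_mul_eq (s ((q : Eis) - w ^ 2 * ξ * q') B)
    linear_combination h3 + t1 - t2 - g1 + g2 - g3
  -- conclusion
  have f1 : LfE p q 2 r = p + w ^ 2 * r * q := by
    unfold LfE
    ring
  have f2 : LfE p' q' 1 r = p' + w * r * q' := by
    unfold LfE
    ring
  have f3 : LfE p q 1 r = p + w * r * q := by
    unfold LfE
    ring
  have f4 : LfE p' q' 2 r = p' + w ^ 2 * r * q' := by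
    unfold LfE
    ring
  have f5 : LfE p (-p') 2 ξ = p - w ^ 2 * ξ * p' := by
    unfold LfE
    ring
  have f6 : LfE (-q) q' 1 ξ = -(q - w * ξ * q') := by
    unfold LfE
    ring
  have f7 : LfE p (-p') 1 ξ = p - w * ξ * p' := by
    unfold LfE
    ring
  have f8 : LfE (-q) q' 2 ξ = -(q - w ^ 2 * ξ * q') := by
    unfold LfE
    ring
  unfold ASE
  rw [f1, f2, f3, f4, f5, f6, f7, f8, hs.skew _ _ nP2 hB, hs.skew _ _ nQ1 hB,
    hs.skew _ _ nP1 hB, hs.skew _ _ nQ2 hB, hs.skew _ _ nF2 hB,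
    hs.skew _ _ (neg_ne_zero.mpr nH1) hB, hs.skew _ _ nF1 hB,
    hs.skew _ _ (neg_ne_zero.mpr nH2) hB, s_neg hs hB nH1, s_neg hs hB nH2,
    hs.skew _ _ cG1 hB, hs.skew _ _ cG2 hB]
  have hw2 : s (w ^ 2) B = s w B + s w B := by
    rw [pow_two, hs.mul _ _ _ w_ne w_ne hB]
  rw [hw2] at hmain
  have t3 := three_mul_eq (s w B)
  linear_combination -hmain - t3

end Pool.Agent.PTK

end
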