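import Mathlib
import Pool.Agent.PTWX.C28
import Pool.Agent.PTWX.C36
import Pool.Agent.PTWX.C42

/-! Parts: PT.GZERO, PTE.FINAS, PTE.GZEROG, PT3.FCLU, PT3.FCS0, PT.NRK, PT.EQD, PTKX.DPA, PTKX.DP4, PTKX.DP1, PTKX.DP3, PTKX.LFV, PTKX.NDS -/

namespace Pool.Agent.PT.GZERO
end Pool.Agent.PT.GZERO

namespace Pool.Agent.PTE.FINAS
end Pool.Agent.PTE.FINAS

namespace Pool.Agent.PT3.FCLU
end Pool.Agent.PT3.FCLU

namespace Pool.Agent.PT3.FCS0
end Pool.Agent.PT3.FCS0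

namespace Pool.Agent.PTK.DPA
end Pool.Agent.PTK.DPA

namespace Pool.Agent.PTK.DP4
end Pool.Agent.PTK.DP4

namespace Pool.Agent.PTK.DP1
end Pool.Agent.PTK.DP1

namespace Pool.Agent.PTK.LFV
end Pool.Agent.PTK.LFV

section

/-!
# Prime twists of rank zero: existence of the governing field
-/

set_option autoImplicit false

open NumberField IsDedekindDomain Finset
open scoped nonZeroDivisors Pointwise

namespace Pool.Agent.PT

open Pool.Agent.Lib_helper18 Pool.Agent.Lib_helper18.Eis Pool.Agent.Lib_helper84.Cub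

namespace GZERO

lemma gal_transfer {L : Type} [Field L] [CharZero L] (a : Algebra ℚ L)
    (h : @IsGalois ℚ _ L _ a) : IsGalois ℚ L := by
  have e : a = DivisionRing.toRatAlgebra := Subsingleton.elim _ _
  subst e
  exact h

lemma fin_transfer {L : Type} [Field L] [CharZero L] (a : Algebra ℚ L)
    (h : @Module.Finite ℚ L _ _ a.toModule) : FiniteDimensional ℚ L := by
  have e : a = DivisionRing.toRatAlgebra := Subsingleton.elim _ _
  subst e
  exact h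

lemma alg_transfer {L : Type} [Field L] [CharZero L] (a : Algebra ℚ L)
    (h : @Algebra.IsAlgebraic ℚ L _ _ a) : Algebra.IsAlgebraic ℚ L := by
  have e : a = DivisionRing.toRatAlgebra := Subsingleton.elim _ _
  subst e
  exact h

/-- A finite set of algebraic numbers is contained in a Galois number field. -/
lemma exists_field (S : Set (AlgebraicClosure ℚ)) (hS : S.Finite) :
    ∃ (L : Type) (_ : Field L) (_ : NumberField L) (_ : IsGalois ℚ L)
      (ι : L →+* AlgebraicClosure ℚ), ∀ x ∈ S, ∃ y : L, ι y = x := by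
  have : Finite S := hS
  have ha : Algebra.IsAlgebraic ℚ (AlgebraicClosure ℚ) :=
    alg_transfer _ (AlgebraicClosure.isAlgebraic ℚ)
  have hc : IsAlgClosure ℚ (AlgebraicClosure ℚ) := ⟨inferInstance, inferInstance⟩
  have h0 : FiniteDimensional ℚ (IntermediateField.adjoin ℚ S) :=
    IntermediateField.finiteDimensional_adjoin fun x _ =>
      (Algebra.IsAlgebraic.isAlgebraic x).isIntegral
  have hn : Normal ℚ (AlgebraicClosure ℚ) := IsAlgClosure.normal ℚ _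
  have h1 : FiniteDimensional ℚ (IntermediateField.normalClosure ℚ
      (IntermediateField.adjoin ℚ S) (AlgebraicClosure ℚ)) := inferInstance
  have h4 := @normalClosure.normal ℚ (IntermediateField.adjoin ℚ S) (AlgebraicClosure ℚ)
    _ _ _ _ _ hn
  refine ⟨IntermediateField.normalClosure ℚ (IntermediateField.adjoin ℚ S)
    (AlgebraicClosure ℚ), inferInstance, @NumberField.mk _ _ inferInstance (fin_transfer _ h1),
    gal_transfer (IntermediateField.algebra' _)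
      (@IsGalois.mk ℚ _ _ _ (IntermediateField.algebra' _) inferInstance h4),
    algebraMap (IntermediateField.normalClosure ℚ
      (IntermediateField.adjoin ℚ S) (AlgebraicClosure ℚ)) (AlgebraicClosure ℚ), ?_⟩
  intro x hx
  have h3 : x ∈ IntermediateField.adjoin ℚ S := IntermediateField.subset_adjoin ℚ S hx
  exact ⟨⟨x, IntermediateField.le_normalClosure _ h3⟩, rfl⟩

lemma ne_of_prod {L : Type} [Field L] {ω : L} (hω : ω ^ 2 + ω + 1 = 0) {p q p' q' b : ℤ} {ρ : L}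
    [CharZero L] (h1 : p ^ 3 + b * q ^ 3 ≠ 0) (h2 : p' ^ 3 + b * q' ^ 3 ≠ 0)
    (hρ : ρ ^ 3 = (b : L)) : aD ω p q p' q' ρ ≠ 0 ∧ aN ω p q p' q' ρ ≠ 0 := by
  have h3 : ω ^ 3 = 1 := by linear_combination (ω - 1) * hω
  have key : aD ω p q p' q' ρ * aN ω p q p' q' ρ * ((p + q * ρ) * (p' + q' * ρ)) =
      ((p ^ 3 + b * q ^ 3 : ℤ) : L) * ((p' ^ 3 + b * q' ^ 3 : ℤ) : L) := by
    have e1 : ∀ u v : L, (u + v * ω ^ 2 * ρ) * (u + v * ω * ρ) * (u + v * ρ) =
        u ^ 3 + v ^ 3 * ρ ^ 3 := by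
      intro u v
      linear_combination (u ^ 2 * v * ρ + u * v ^ 2 * ρ ^ 2 * ω) * hω + v ^ 3 * ρ ^ 3 * h3
    have e2 := e1 p q
    have e3 := e1 p' q'
    rw [hρ] at e2 e3
    unfold aD aN
    push_cast
    linear_combination ((p' + q' * ω ^ 2 * ρ) * (p' + q' * ω * ρ) * (p' + q' * ρ)) * e2 +
      ((p : L) ^ 3 + q ^ 3 * b) * e3
  have hne : ((p ^ 3 + b * q ^ 3 : ℤ) : L) * ((p' ^ 3 + b * q' ^ 3 : ℤ) : L) ≠ 0 :=
    mul_ne_zero (Int.cast_ne_zero.2 h1) (Int.cast_ne_zero.2 h2)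
  rw [← key] at hne
  exact ⟨left_ne_zero_of_mul (left_ne_zero_of_mul hne),
    right_ne_zero_of_mul (left_ne_zero_of_mul hne)⟩

lemma rel_of_prim {L : Type} [Field L] {ω : L} (h : IsPrimitiveRoot ω 3) :
    ω ^ 2 + ω + 1 = 0 := by
  have h1 : ω ^ 3 = 1 := h.pow_eq_one
  have h2 : ω ≠ 1 := h.ne_one (by norm_num)
  have h3 : (ω - 1) * (ω ^ 2 + ω + 1) = 0 := by linear_combination h1
  exact (mul_eq_zero.1 h3).resolve_left (sub_ne_zero.2 h2)

lemma prim_pow {L : Type} [Field L] {ζ : L} {f : ℕ} (hf : 0 < f) (h9 : 9 ∣ f)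
    (h : IsPrimitiveRoot ζ f) : IsPrimitiveRoot (ζ ^ (f / 3)) 3 :=
  h.pow hf (by omega)

end GZERO

open _root_.Pool.Agent.PT.GZERO in
/-- GZERO: existence of the governing field. -/
theorem GZERO_thm : GZERO := by
  intro s b p q p' q' f hSys hf h9
  have : NeZero (f : AlgebraicClosure ℚ) := ⟨Nat.cast_ne_zero.2 hf.ne'⟩
  have : NeZero f := ⟨hf.ne'⟩
  obtain ⟨ζ, hζ⟩ := HasEnoughRootsOfUnity.exists_primitiveRoot (AlgebraicClosure ℚ) f
  have hω := rel_of_prim (prim_pow hf h9 hζ)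
  have hN : ∀ j i, j ≠ i → p j i ^ 3 + b j * q j i ^ 3 ≠ 0 ∧
      p' j i ^ 3 + b j * q' j i ^ 3 ≠ 0 := by
    intro j i hji
    have h1 := hSys.sol j i hji
    refine ⟨h1.n1, fun h2 => h1.n1 ?_⟩
    rw [h1.eq, h2, mul_zero]
  have hA : ∀ (j i : Fin s) (ρ : AlgebraicClosure ℚ), ∃ A : AlgebraicClosure ℚ, j ≠ i →
      ρ ^ 3 = (b j : AlgebraicClosure ℚ) →
      A ^ 3 * aD (ζ ^ (f / 3)) (p j i) (q j i) (p' j i) (q' j i) ρ =
        aN (ζ ^ (f / 3)) (p j i) (q j i) (p' j i) (q' j i) ρ := by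
    intro j i ρ
    obtain ⟨A, hA⟩ := IsAlgClosed.exists_pow_nat_eq
      (aN (ζ ^ (f / 3)) (p j i) (q j i) (p' j i) (q' j i) ρ /
        aD (ζ ^ (f / 3)) (p j i) (q j i) (p' j i) (q' j i) ρ) (n := 3) (by norm_num)
    refine ⟨A, fun hji hρ => ?_⟩
    rw [hA, div_mul_cancel₀]
    exact (ne_of_prod hω (hN j i hji).1 (hN j i hji).2 hρ).1
  choose A hA using hA
  have hθ : ∀ j : Fin s, ∃ θ : AlgebraicClosure ℚ, θ ^ 3 = (b j : AlgebraicClosure ℚ) :=
    fun j => IsAlgClosed.exists_pow_nat_eq _ (by norm_num)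
  have hR : ∀ j : Fin s, {ρ : AlgebraicClosure ℚ | ρ ^ 3 = (b j : AlgebraicClosure ℚ)}.Finite := by
    intro j
    classical
    refine (Polynomial.nthRoots 3 (b j : AlgebraicClosure ℚ)).toFinset.finite_toSet.subset ?_
    intro ρ hρ
    simp only [Finset.mem_coe, Multiset.mem_toFinset]
    exact (Polynomial.mem_nthRoots (by norm_num)).2 hρ
  obtain ⟨L, iF, iN, iG, ι, hι⟩ := exists_field
    (({ζ} ∪ ⋃ j : Fin s, {ρ | ρ ^ 3 = (b j : AlgebraicClosure ℚ)}) ∪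
      ⋃ j : Fin s, ⋃ i : Fin s, A j i '' {ρ | ρ ^ 3 = (b j : AlgebraicClosure ℚ)})
    (((Set.finite_singleton ζ).union (Set.finite_iUnion hR)).union
      (Set.finite_iUnion fun j => Set.finite_iUnion fun i => (hR j).image _))
  have hinj : Function.Injective ι := ι.injective
  obtain ⟨z, hz⟩ := hι ζ (Or.inl (Or.inl rfl))
  have hzp : IsPrimitiveRoot z f := by
    refine IsPrimitiveRoot.of_map_of_injective (f := ι) ?_ hinj
    rw [hz]
    exact hζ
  have hzω : ι (z ^ (f / 3)) = ζ ^ (f / 3) := by rw [map_pow, hz]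
  have hrel := rel_of_prim (prim_pow hf h9 hzp)
  have hNmap : ∀ (u v u' v' : ℤ) (ρ : L), ι (aN (z ^ (f / 3)) u v u' v' ρ) =
      aN (ζ ^ (f / 3)) u v u' v' (ι ρ) := by
    intro u v u' v' ρ
    unfold aN
    simp only [map_mul, map_add, map_pow, map_intCast, hz]
  have hDmap : ∀ (u v u' v' : ℤ) (ρ : L), ι (aD (z ^ (f / 3)) u v u' v' ρ) =
      aD (ζ ^ (f / 3)) u v u' v' (ι ρ) := by
    intro u v u' v' ρ
    unfold aD
    simp only [map_mul, map_add, map_pow, map_intCast, hz]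
  refine ⟨L, iF, iN, z, z ^ (f / 3), iG, hzp, h9, rfl, hrel, ?_, ?_, ?_⟩
  · intro j
    obtain ⟨θ, hθ⟩ := hθ j
    obtain ⟨y, hy⟩ := hι θ (Or.inl (Or.inr (Set.mem_iUnion.2 ⟨j, hθ⟩)))
    refine ⟨y, hinj ?_⟩
    rw [map_pow, hy, hθ, map_intCast]
  · intro j i hji ρ hρ
    have hρ' : (ι ρ) ^ 3 = (b j : AlgebraicClosure ℚ) := by rw [← map_pow, hρ, map_intCast]
    obtain ⟨y, hy⟩ := hι (A j i (ι ρ)) (Or.inr (Set.mem_iUnion.2 ⟨j, Set.mem_iUnion.2
      ⟨i, ⟨ι ρ, hρ', rfl⟩⟩⟩))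
    refine ⟨y, hinj ?_⟩
    rw [map_mul, map_pow, hy, hDmap, hNmap]
    exact hA j i (ι ρ) hji hρ'
  · intro j i hji ρ hρ
    exact ne_of_prod hrel (hN j i hji).1 (hN j i hji).2 hρ

end Pool.Agent.PT

end

section

/-!
# PTE: the theorem for numbers in normal form, an odd number of primes `= 2 (mod 3)`
-/

set_option autoImplicit false

open NumberField IsDedekindDomain Finset
open scoped nonZeroDivisors Pointwise

namespace Pool.Agent.PTE

open Pool.Agent.Lib_helper18 Pool.Agent.Lib_helper18.Eis Pool.Agent.Lib_helper84.Cub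
open Pool.Agent.PT

namespace FINAS

theorem pos_of_nf {n m k : ℕ} {π : Fin m → PP} {p e : Fin m → ℕ} {r f : Fin k → ℕ}
    (h : NF n π p e r f) : 0 < n := by
  rw [h.eq]
  exact Nat.mul_pos (Finset.prod_pos fun i _ => pow_pos (h.pp i).pos _)
    (Finset.prod_pos fun j _ => pow_pos (h.rp j).pos _)

theorem three_of_nf {n m k : ℕ} {π : Fin m → PP} {p e : Fin m → ℕ} {r f : Fin k → ℕ}
    (h : NF n π p e r f) : ¬ 3 ∣ n := by
  rw [h.eq]
  intro h0
  rcases (Nat.prime_three.dvd_mul).1 h0 with h1 | h1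
  · obtain ⟨i, _, hi⟩ := (Nat.prime_three.prime.dvd_finsetProd_iff _).1 h1
    have h2 := Nat.prime_three.dvd_of_dvd_pow hi
    have h3 := h.p1 i
    omega
  · obtain ⟨i, _, hi⟩ := (Nat.prime_three.prime.dvd_finsetProd_iff _).1 h1
    have h2 := Nat.prime_three.dvd_of_dvd_pow hi
    have h3 := h.r2 i
    omega

/-- The homomorphism with given components. -/
def assemble {s F : ℕ} (Φ : Fin s → Fin s → ((ZMod F)ˣ →* Multiplicative (ZMod 3))) :
    (ZMod F)ˣ →* Multiplicative (Fin s → Fin s → ZMod 3) where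
  toFun := fun a => Multiplicative.ofAdd fun j i => (Φ j i a).toAdd
  map_one' := by
    apply Multiplicative.toAdd.injective
    funext j i
    simp
  map_mul' := fun a a' => by
    apply Multiplicative.toAdd.injective
    funext j i
    simp

theorem assemble_apply {s F : ℕ} (Φ : Fin s → Fin s → ((ZMod F)ˣ →* Multiplicative (ZMod 3)))
    (a : (ZMod F)ˣ) (j i : Fin s) : (assemble Φ a).toAdd j i = (Φ j i a).toAdd := rfl

theorem dens_mono {S : Set ℕ} {d d' : ℝ} (h : RI.DensityGE S d) (hd : d' ≤ d) :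
    RI.DensityGE S d' := by
  obtain ⟨C, hC⟩ := h
  refine ⟨C, fun s hs1 hs2 => ?_⟩
  have h0 : 0 ≤ Real.log (1 / (s - 1)) := by
    apply Real.log_nonneg
    rw [le_div_iff₀ (by linarith)]
    linarith
  have h1 := mul_le_mul_of_nonneg_right hd h0
  linarith [hC s hs1 hs2]

theorem sq_one {ε : ZMod 3} (h : ε ≠ 0) : ε * ε = 1 := by
  revert h
  revert ε
  decide

theorem eq_or {ε : ZMod 3} (h : ε ≠ 0) : ε = 1 ∨ ε = -1 := by
  revert h
  revert ε
  decide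

/-- Two vectors on the same line. -/
theorem line {k : ℕ} (δ δ' : Fin k → ZMod 3) {ε ε' : ZMod 3} (hε : ε ≠ 0) (hε' : ε' ≠ 0)
    (h : ∀ i, ε' * δ' i = ε * δ i) : δ' = δ ∨ δ' = -δ := by
  rcases eq_or hε with h1 | h1 <;> rcases eq_or hε' with h2 | h2 <;> subst h1 <;> subst h2
  · left; funext i; simpa using h i
  · right; funext i
    have := h i
    rw [Pi.neg_apply, ← one_mul (δ i), ← this]
    ring
  · right; funext i
    have := h i
    rw [Pi.neg_apply]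
    rw [one_mul] at this
    rw [this]
    ring
  · left; funext i
    have := h i
    simpa using this

/-- The set of the theorem. -/
def TT' (n : ℕ) : Set ℕ := {q : ℕ | ¬ ∃ X Y : ℚ, X ^ 3 + Y ^ 3 = (n : ℚ) * q}

/-- One hyperplane. -/
theorem one (hDCONSTS : DCONSTS) (hCLSC : CLSC) (hCLSCS : CLSCS) (hDENSS : DENSS)
    {n m k : ℕ} {π : Fin m → PP} {p e : Fin m → ℕ} {r f : Fin k → ℕ} (hNF : NF n π p e r f)
    (hk : Odd k) (w0 : ZMod 3) (c : Fin m → ZMod 3) (v : Fin k → ℤ) (hw0 : w0 ≠ 0)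
    (δ : Fin k → ZMod 3)
    (hδ : ∃ (s : ℕ) (b : Fin (s + 1) → ℤ)
      (P Q P' Q' : Fin (s + 1) → Fin (s + 1) → ℤ), s + 1 = k ∧ SysG b P Q P' Q' ∧
      (∀ i, b i ≠ 0) ∧
      (∀ ρ : PP, ¬ ρ.1 ∣ (n : Eis) → (∀ i : Fin s, sym ρ.1 (b i.castSucc : Eis) = 0) →
        sym ρ.1 (b (Fin.last s) : Eis) ≠ 0 →
        ∃ ε : ZMod 3, ε ≠ 0 ∧ ∀ i, sym ρ.1 (v i : Eis) = ε * δ i) ∧
      ∀ (q : ℕ) (ρ : PP), q.Prime → InClS π w0 c q → ¬ q ∣ n → 3 < q →
        (q : Eis) = ρ.1 * conj ρ.1 → (∀ i : Fin s, sym ρ.1 (b i.castSucc : Eis) = 0) →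
        sym ρ.1 (b (Fin.last s) : Eis) ≠ 0 →
        BOk ((n : ℤ) * q) ∧ (∀ i : Fin s, Adm ((n : ℤ) * q) (b i.castSucc)) ∧
        (∀ i j, Mat (rv b) (rs P) (rs Q) (rs P') (rs Q') ((n : ℤ) * q) i j =
          - Mat (rv b) (rs P) (rs Q) (rs P') (rs Q') ((n : ℤ) * q) j i) ∧
        ((∃ X Y : ℚ, X ^ 3 + Y ^ 3 = (n : ℚ) * q) →
          (Mat (rv b) (rs P) (rs Q) (rs P') (rs Q') ((n : ℤ) * q)).det = 0)) :
    ∃ (S S' : Set ℕ) (N : ℕ), RI.DensityGE (S ∪ S') (2 * rh (k - 1) / 3 ^ (k + m + 1)) ∧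
      (∀ q, q.Prime → q ∈ S' → q ∈ {q : ℕ | InClS π (-w0) (-c) q}) ∧
      (∀ q, q.Prime → N < q → q ∈ S → q ∈ TT' n) ∧
      ∀ q, q.Prime → N < q → q ∈ S ∨ q ∈ S' → q % 3 = 1 ∧ ∃ ρ : PP,
        (q : Eis) = ρ.1 * conj ρ.1 ∧ (¬ ρ.1 ∣ (n : Eis) →
          ∃ ε : ZMod 3, ε ≠ 0 ∧ ∀ i, sym ρ.1 (v i : Eis) = ε * δ i) := by
  obtain ⟨s, b, P, Q, P', Q', hs, hsys, hb, hρ, hq⟩ := hδ
  have hn : 0 < n := pos_of_nf hNF
  have h3 : ¬ 3 ∣ n := three_of_nf hNF
  have hD : ∀ j i : Fin s, ∃ f₀ : ℕ, 0 < f₀ ∧ ∀ F : ℕ, 0 < F → f₀ ∣ F →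
      ∃ (C : ZMod 3) (Φ : (ZMod F)ˣ →* Multiplicative (ZMod 3)) (N₀ : ℕ), j ≠ i →
        ∀ (q : ℕ) (hQ : q.Coprime F) (ρ : PP), q.Prime → N₀ < q → q % 3 = 1 →
          (q : Eis) = ρ.1 * conj ρ.1 → BOk ((n : ℤ) * q) →
          Adm ((n : ℤ) * q) (b j.castSucc) → Adm ((n : ℤ) * q) (b i.castSucc) →
          ∀ t : ℤ, (q : ℤ) ∣ t ^ 3 - b j.castSucc →
          OO ((n : ℤ) * q) (b j.castSucc) (b i.castSucc) (rs P j i) (rs Q j i) (rs P' j i)
            (rs Q' j i) = C + (Φ (ZMod.unitOfCoprime q hQ)).toAdd +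
              TAUVS ρ.1 (rs P j i) (rs Q j i) (rs P' j i) (rs Q' j i) t := by
    intro j i
    by_cases hji : j = i
    · exact ⟨1, one_pos, fun F _ _ => ⟨0, 1, 0, fun h => absurd hji h⟩⟩
    · obtain ⟨f₀, hf₀, h⟩ := hDCONSTS n (b j.castSucc) (b i.castSucc) (rs P j i) (rs Q j i)
        (rs P' j i) (rs Q' j i) hn h3
        (hsys.sol j.castSucc i.castSucc fun h => hji (Fin.castSucc_injective _ h)) (hb _) (hb _)
      refine ⟨f₀, hf₀, fun F hF hd => ?_⟩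
      obtain ⟨C, Φ, N₀, h'⟩ := h F hF hd
      exact ⟨C, Φ, N₀, fun _ => h'⟩
  choose f₀ hf₀ hD1 using hD
  obtain ⟨F, hF, h9, hpF, hfF⟩ : ∃ F : ℕ, 0 < F ∧ 9 ∣ F ∧ (∀ i, p i ∣ F) ∧ ∀ j i, f₀ j i ∣ F := by
    refine ⟨9 * (∏ i, p i) * ∏ j, ∏ i, f₀ j i, ?_, ?_, ?_, ?_⟩
    · have h1 : 0 < ∏ i, p i := Finset.prod_pos fun i _ => (hNF.pp i).pos
      have h2 : 0 < ∏ j, ∏ i, f₀ j i :=
        Finset.prod_pos fun j _ => Finset.prod_pos fun i _ => hf₀ j i
      positivity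
    · exact Dvd.dvd.mul_right (Dvd.intro _ rfl) _
    · intro i
      exact Dvd.dvd.mul_right (Dvd.dvd.mul_left (Finset.dvd_prod_of_mem p (mem_univ i)) _) _
    · intro j i
      exact Dvd.dvd.mul_left ((Finset.dvd_prod_of_mem (fun i => f₀ j i) (mem_univ i)).trans
        (Finset.dvd_prod_of_mem (fun j => ∏ i, f₀ j i) (mem_univ j))) _
  choose C Φ N₀ hD2 using fun j i => hD1 j i F hF (hfF j i)
  obtain ⟨κ, hκ, hcount⟩ := hCLSC m π p hNF.pp hNF.p1 hNF.pπ hNF.pinj F hF h9 hpF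
  have hcount' := hCLSCS F m κ hF h9 hcount
  have heven : Even s := by
    rw [← hs] at hk
    rcases hk with ⟨t, ht⟩
    exact ⟨t, by omega⟩
  have hc0 : (Fin.cons w0 c : Fin (m + 1) → ZMod 3) ≠ 0 := fun h => hw0 (by
    have := congrFun h 0
    simpa using this)
  have hdens := hDENSS s b P Q P' Q' F m κ (Fin.cons w0 c) C (assemble Φ) hsys heven hF h9 hc0
    hcount'
  have hN : ∀ j i, N₀ j i ≤ ∑ j, ∑ i, N₀ j i := by
    intro j i
    exact (Finset.single_le_sum (f := fun i => N₀ j i) (fun i _ => Nat.zero_le _)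
      (mem_univ i)).trans (Finset.single_le_sum (f := fun j => ∑ i, N₀ j i)
        (fun j _ => Nat.zero_le _) (mem_univ j))
  have hk1 : k - 1 = s := by omega
  have hk2 : k + m + 1 = s + m + 2 := by omega
  rw [hk1, hk2]
  refine ⟨SSS b P Q P' Q' κ (Fin.cons w0 c) C (assemble Φ),
    {Q : ℕ | ∃ (hQ : Q.Coprime F) (ρ : PP), ClQ b κ (-Fin.cons w0 c) Q hQ ρ},
    n + 3 + ∑ j, ∑ i, N₀ j i, hdens, ?_, ?_, ?_⟩
  · -- the second set is in `R`
    rintro q hqp ⟨hQ, ρ, hq3, hκq, -⟩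
    rw [hκ q hQ] at hκq
    refine ⟨hq3, ?_, fun i => ?_⟩
    · have := congrFun hκq 0
      simpa using this
    · have := congrFun hκq i.succ
      simpa using this
  · -- the first set is in `T`
    rintro q hqp hqN ⟨hQ, ρ, ⟨hq3, hκq, hqρ, hb0, hb1⟩, hdet⟩ hXY
    rw [hκ q hQ] at hκq
    have hcl : InClS π w0 c q := by
      refine ⟨hq3, ?_, fun i => ?_⟩
      · have := congrFun hκq 0
        simpa using this
      · have := congrFun hκq i.succ
        simpa using this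
    have hqn : ¬ q ∣ n := fun h => by
      have := Nat.le_of_dvd hn h
      omega
    obtain ⟨hB, hA, hskew, hM⟩ := hq q ρ hqp hcl hqn (by omega) hqρ hb0 hb1
    have hM0 := hM hXY
    let τ : Fin s → Fin s → ZMod 3 := fun j i =>
      OO ((n : ℤ) * q) (b j.castSucc) (b i.castSucc) (rs P j i) (rs Q j i) (rs P' j i)
            (rs Q' j i) - C j i - (Φ j i (ZMod.unitOfCoprime q hQ)).toAdd
    apply hdet τ
    · intro j i hji t ht
      have h1 := hD2 j i hji q hQ ρ hqp (by have := hN j i; omega) hq3 hqρ hB (hA j) (hA i) t ht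
      simp only [τ]
      rw [h1]
      ring
    · rw [← hM0]
      congr 1
      ext j i
      have hv : ∀ j i, (C + (assemble Φ (ZMod.unitOfCoprime q hQ)).toAdd + τ) j i =
          OO ((n : ℤ) * q) (b j.castSucc) (b i.castSucc) (rs P j i) (rs Q j i) (rs P' j i)
            (rs Q' j i) := by
        intro j i
        simp only [Pi.add_apply, τ, assemble_apply]
        ring
      unfold alt
      rw [hv, hv]
      by_cases h1 : j < i
      · rw [if_pos h1]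
        unfold Mat
        rw [if_neg h1.ne]
        rfl
      · rw [if_neg h1]
        by_cases h2 : i < j
        · rw [if_pos h2, hskew j i]
          unfold Mat
          rw [if_neg h2.ne]
          rfl
        · rw [if_neg h2]
          have h3 : j = i := le_antisymm (not_lt.1 h2) (not_lt.1 h1)
          unfold Mat
          rw [if_pos h3]
  · -- the hyperplane
    rintro q hqp hqN (⟨hQ, ρ, ⟨hq3, hκq, hqρ, hb0, hb1⟩, hdet⟩ | ⟨hQ, ρ, hq3, hκq, hqρ, hb0, hb1⟩)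
    · exact ⟨hq3, ρ, hqρ, fun hn => hρ ρ hn hb0 hb1⟩
    · exact ⟨hq3, ρ, hqρ, fun hn => hρ ρ hn hb0 hb1⟩

theorem num0 (m : ℕ) : (1 : ℝ) / (30 * 3 ^ m) ≤
    ((3 ^ 1 - 1 : ℝ) * (2 * 1 / 3 ^ (1 + m + 1)) - 2 * (1 / (2 * 3 ^ (m + 1)))) / 2 := by
  have h : (0 : ℝ) < 3 ^ m := by positivity
  have h1 : ((3 ^ 1 - 1 : ℝ) * (2 * 1 / 3 ^ (1 + m + 1)) - 2 * (1 / (2 * 3 ^ (m + 1)))) / 2 =
      1 / (18 * 3 ^ m) := by
    rw [show 1 + m + 1 = m + 2 by ring, pow_add, pow_add]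
    field_simp
    norm_num
  rw [h1]
  apply one_div_le_one_div_of_le
  · positivity
  · linarith

theorem num1 (m k : ℕ) (hk : 3 ≤ k) : (1 : ℝ) / (30 * 3 ^ m) ≤
    ((3 ^ k - 1 : ℝ) * (2 * (5 / 8) / 3 ^ (k + m + 1)) - 2 * (1 / (2 * 3 ^ (m + 1)))) / 2 := by
  have h : (0 : ℝ) < 3 ^ m := by positivity
  have hk' : (27 : ℝ) ≤ 3 ^ k := by
    have : (3 : ℝ) ^ 3 ≤ 3 ^ k := pow_le_pow_right₀ (by norm_num) hk
    linarith
  set x : ℝ := 3 ^ k with hx
  have hx0 : 0 < x := by linarith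
  have h1 : ((x - 1 : ℝ) * (2 * (5 / 8) / 3 ^ (k + m + 1)) - 2 * (1 / (2 * 3 ^ (m + 1)))) / 2 =
      (5 / 8 * (1 - 1 / x) - 1 / 2) / (3 * 3 ^ m) := by
    rw [pow_add, pow_add, pow_add, ← hx]
    field_simp
  have h2 : 1 / x ≤ 1 / 27 := one_div_le_one_div_of_le (by norm_num) hk'
  rw [h1, div_le_div_iff₀ (by positivity) (by positivity)]
  nlinarith

end FINAS

open _root_.Pool.Agent.PTE.FINAS

/-- The theorem for numbers in normal form, `k` odd. -/
theorem FINAS_thm (hSPLT : SPLT) (hECLS : ECLS) (hDCONSTS : DCONSTS) (hCLSC : CLSC)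
    (hCLSCS : CLSCS) (hDENSS : DENSS) (hDIRS : DIRS) (hDSUM : DSUM) : FINAS := by
  intro n m k π p e r f hNF hk
  obtain ⟨w0, c, v, hw0, hv, hδ⟩ := hECLS n m k π p e r f hNF hk
  have hn : 0 < n := pos_of_nf hNF
  choose S S' N hd hR hT hH using fun δ : {δ : Fin k → ZMod 3 // δ ≠ 0} =>
    one hDCONSTS hCLSC hCLSCS hDENSS hNF hk w0 c v hw0 δ.1 (hδ δ.1 δ.2)
  have hN : ∀ δ, N δ ≤ ∑ δ, N δ := fun δ =>
    Finset.single_le_sum (f := fun δ => N δ) (fun i _ => Nat.zero_le _) (mem_univ δ)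
  have hmain := hDSUM {δ : Fin k → ZMod 3 // δ ≠ 0} S S' (TT' n)
    {q : ℕ | InClS π (-w0) (-c) q} _ _ (n + ∑ δ, N δ) hd
    (hDIRS m π p hNF.pp hNF.p1 hNF.pπ hNF.pinj (-w0) (-c))
    (fun i q hq _ h => hR i q hq h) (fun i q hq hNq h => hT i q hq (by have := hN i; omega) h) ?_
  · refine dens_mono hmain ?_
    have hcard : ((Fintype.card {δ : Fin k → ZMod 3 // δ ≠ 0} : ℕ) : ℝ) = 3 ^ k - 1 := by
      rw [Fintype.card_subtype_compl, Fintype.card_subtype_eq, Fintype.card_fun, ZMod.card,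
        Fintype.card_fin, Nat.cast_sub (Nat.one_le_pow _ _ (by norm_num))]
      push_cast
      ring
    rw [hcard]
    rcases Nat.eq_zero_or_pos (k - 1) with h0 | h0
    · have hk1 : k = 1 := by
        rcases hk with ⟨t, ht⟩
        omega
      subst hk1
      have : rh (1 - 1) = 1 := by simp [rh]
      rw [this]
      exact num0 m
    · have hk3 : 3 ≤ k := by
        rcases hk with ⟨t, ht⟩
        omega
      have : rh (k - 1) = 5 / 8 := by
        unfold rh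
        rw [if_neg (by omega)]
      rw [this]
      exact num1 m k hk3
  · intro q hqp hNq
    by_cases hex : ∃ i, q ∈ S i ∨ q ∈ S' i
    · obtain ⟨δ₀, h₀⟩ := hex
      obtain ⟨hq3, ρ₀, hqρ₀, hε₀⟩ := hH δ₀ q hqp (by have := hN δ₀; omega) h₀
      have hqn : ¬ q ∣ n := fun h => by
        have := Nat.le_of_dvd hn h
        omega
      have hqv : ∀ i, ¬ (q : ℤ) ∣ v i := fun i h => hqn ((hv i).2 q hqp h)
      obtain ⟨-, -, hσ, hdv, hcj, -⟩ := hSPLT.2 q ρ₀ hqp hq3 hqρ₀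
      have hn₀ : ∀ ρ : PP, (q : Eis) = ρ.1 * conj ρ.1 → ¬ ρ.1 ∣ (n : Eis) := by
        intro ρ hρ h
        obtain ⟨-, -, -, hdv', -, -⟩ := hSPLT.2 q ρ hqp hq3 hρ
        have h1 : ρ.1 ∣ ((n : ℤ) : Eis) := by
          rwa [Int.cast_natCast]
        exact hqn (Int.natCast_dvd_natCast.1 ((hdv' n).1 h1))
      obtain ⟨ε₀, hε₀0, hε₀v⟩ := hε₀ (hn₀ ρ₀ hqρ₀)
      refine ⟨δ₀, ⟨-δ₀.1, neg_ne_zero.2 δ₀.2⟩, fun δ h => ?_⟩
      obtain ⟨-, ρ, hqρ, hε⟩ := hH δ q hqp (by have := hN δ; omega) h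
      obtain ⟨ε, hε0, hεv⟩ := hε (hn₀ ρ hqρ)
      rcases hσ ρ ⟨conj ρ.1, hqρ⟩ with h1 | h1
      · rcases line δ₀.1 δ.1 hε₀0 hε0 fun i => by rw [← hεv i, ← hε₀v i, h1] with h2 | h2
        · exact Or.inl (Subtype.ext h2)
        · exact Or.inr (Subtype.ext h2)
      · rcases line δ₀.1 δ.1 (neg_ne_zero.2 hε₀0) hε0 fun i => by
          have h3 := hcj (v i : Eis) fun h => hqv i ((hdv (v i)).1 h)
          rw [← hεv i, h1, neg_mul, ← hε₀v i, ← h3]
          congr 1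
          exact (conj_intCast _).symm with h2 | h2
        · exact Or.inl (Subtype.ext h2)
        · exact Or.inr (Subtype.ext h2)
    · have : Nonempty {δ : Fin k → ZMod 3 // δ ≠ 0} := by
        refine ⟨fun _ => 1, fun h => ?_⟩
        have h1 := congrFun h ⟨0, hk.pos⟩
        exact one_ne_zero h1
      obtain ⟨i⟩ := this
      exact ⟨i, i, fun j hj => absurd ⟨j, hj⟩ hex⟩

end Pool.Agent.PTE

end

section

/-!
# PTE: existence of the governing field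
-/

set_option autoImplicit false

open NumberField IsDedekindDomain Finset
open scoped nonZeroDivisors Pointwise

namespace Pool.Agent.PTE

open Pool.Agent.Lib_helper18 Pool.Agent.Lib_helper18.Eis Pool.Agent.Lib_helper84.Cub
open Pool.Agent.PT

open Pool.Agent.PT.GZERO in
/-- GZEROG: existence of the governing field. -/
theorem GZEROG_thm : GZEROG := by
  intro s b p q p' q' f hSys hf h9
  have : NeZero (f : AlgebraicClosure ℚ) := ⟨Nat.cast_ne_zero.2 hf.ne'⟩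
  have : NeZero f := ⟨hf.ne'⟩
  obtain ⟨ζ, hζ⟩ := HasEnoughRootsOfUnity.exists_primitiveRoot (AlgebraicClosure ℚ) f
  have hω := rel_of_prim (prim_pow hf h9 hζ)
  have hN : ∀ j i, j ≠ i → p j i ^ 3 + b j * q j i ^ 3 ≠ 0 ∧
      p' j i ^ 3 + b j * q' j i ^ 3 ≠ 0 := by
    intro j i hji
    have h1 := hSys.sol j i hji
    refine ⟨h1.n1, fun h2 => h1.n1 ?_⟩
    rw [h1.eq, h2, mul_zero]
  have hA : ∀ (j i : Fin s) (ρ : AlgebraicClosure ℚ), ∃ A : AlgebraicClosure ℚ, j ≠ i →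
      ρ ^ 3 = (b j : AlgebraicClosure ℚ) →
      A ^ 3 * aD (ζ ^ (f / 3)) (p j i) (q j i) (p' j i) (q' j i) ρ =
        aN (ζ ^ (f / 3)) (p j i) (q j i) (p' j i) (q' j i) ρ := by
    intro j i ρ
    obtain ⟨A, hA⟩ := IsAlgClosed.exists_pow_nat_eq
      (aN (ζ ^ (f / 3)) (p j i) (q j i) (p' j i) (q' j i) ρ /
        aD (ζ ^ (f / 3)) (p j i) (q j i) (p' j i) (q' j i) ρ) (n := 3) (by norm_num)
    refine ⟨A, fun hji hρ => ?_⟩
    rw [hA, div_mul_cancel₀]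
    exact (ne_of_prod hω (hN j i hji).1 (hN j i hji).2 hρ).1
  choose A hA using hA
  have hθ : ∀ j : Fin s, ∃ θ : AlgebraicClosure ℚ, θ ^ 3 = (b j : AlgebraicClosure ℚ) :=
    fun j => IsAlgClosed.exists_pow_nat_eq _ (by norm_num)
  have hR : ∀ j : Fin s, {ρ : AlgebraicClosure ℚ | ρ ^ 3 = (b j : AlgebraicClosure ℚ)}.Finite := by
    intro j
    classical
    refine (Polynomial.nthRoots 3 (b j : AlgebraicClosure ℚ)).toFinset.finite_toSet.subset ?_
    intro ρ hρ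
    simp only [Finset.mem_coe, Multiset.mem_toFinset]
    exact (Polynomial.mem_nthRoots (by norm_num)).2 hρ
  obtain ⟨L, iF, iN, iG, ι, hι⟩ := exists_field
    (({ζ} ∪ ⋃ j : Fin s, {ρ | ρ ^ 3 = (b j : AlgebraicClosure ℚ)}) ∪
      ⋃ j : Fin s, ⋃ i : Fin s, A j i '' {ρ | ρ ^ 3 = (b j : AlgebraicClosure ℚ)})
    (((Set.finite_singleton ζ).union (Set.finite_iUnion hR)).union
      (Set.finite_iUnion fun j => Set.finite_iUnion fun i => (hR j).image _))
  have hinj : Function.Injective ι := ι.injective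
  obtain ⟨z, hz⟩ := hι ζ (Or.inl (Or.inl rfl))
  have hzp : IsPrimitiveRoot z f := by
    refine IsPrimitiveRoot.of_map_of_injective (f := ι) ?_ hinj
    rw [hz]
    exact hζ
  have hzω : ι (z ^ (f / 3)) = ζ ^ (f / 3) := by rw [map_pow, hz]
  have hrel := rel_of_prim (prim_pow hf h9 hzp)
  have hNmap : ∀ (u v u' v' : ℤ) (ρ : L), ι (aN (z ^ (f / 3)) u v u' v' ρ) =
      aN (ζ ^ (f / 3)) u v u' v' (ι ρ) := by
    intro u v u' v' ρ
    unfold aN
    simp only [map_mul, map_add, map_pow, map_intCast, hz]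
  have hDmap : ∀ (u v u' v' : ℤ) (ρ : L), ι (aD (z ^ (f / 3)) u v u' v' ρ) =
      aD (ζ ^ (f / 3)) u v u' v' (ι ρ) := by
    intro u v u' v' ρ
    unfold aD
    simp only [map_mul, map_add, map_pow, map_intCast, hz]
  refine ⟨L, iF, iN, z, z ^ (f / 3), iG, hzp, h9, rfl, hrel, ?_, ?_, ?_⟩
  · intro j
    obtain ⟨θ, hθ⟩ := hθ j
    obtain ⟨y, hy⟩ := hι θ (Or.inl (Or.inr (Set.mem_iUnion.2 ⟨j, hθ⟩)))
    refine ⟨y, hinj ?_⟩
    rw [map_pow, hy, hθ, map_intCast]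
  · intro j i hji ρ hρ
    have hρ' : (ι ρ) ^ 3 = (b j : AlgebraicClosure ℚ) := by rw [← map_pow, hρ, map_intCast]
    obtain ⟨y, hy⟩ := hι (A j i (ι ρ)) (Or.inr (Set.mem_iUnion.2 ⟨j, Set.mem_iUnion.2
      ⟨i, ⟨ι ρ, hρ', rfl⟩⟩⟩))
    refine ⟨y, hinj ?_⟩
    rw [map_mul, map_pow, hy, hDmap, hNmap]
    exact hA j i (ι ρ) hji hρ'
  · intro j i hji ρ hρ
    exact ne_of_prod hrel (hN j i hji).1 (hN j i hji).2 hρ

end Pool.Agent.PTE

end

section

/-!
# PT3: the theorem for one class, `3^h n`, `h + k` odd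
-/

set_option autoImplicit false

open NumberField IsDedekindDomain Finset
open scoped nonZeroDivisors Pointwise

namespace Pool.Agent.PT3

open Pool.Agent.Lib_helper18 Pool.Agent.Lib_helper18.Eis Pool.Agent.Lib_helper84.Cub
open Pool.Agent.PT Pool.Agent.PTE

namespace FCLU

/-- The set of the theorem. -/
def TU (h n : ℕ) {m : ℕ} (π : Fin m → PP) (w0 : ZMod 3) (c : Fin m → ZMod 3) : Set ℕ :=
  {q : ℕ | InClS π w0 c q ∧ ¬ ∃ X Y : ℚ, X ^ 3 + Y ^ 3 = ((3 ^ h * n : ℕ) : ℚ) * q}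

theorem BB_one (h n q : ℕ) : BB h n 1 q = ((3 ^ h * n : ℕ) : ℤ) * (q : ℤ) ^ 1 := by
  unfold BB
  push_cast
  rfl

theorem inCT_of {m : ℕ} {π : Fin m → PP} {w0 : ZMod 3} {c : Fin m → ZMod 3} {q : ℕ}
    (h : InClS π w0 c q) : InCT 1 π w0 c q := by
  refine ⟨?_, fun i => ?_⟩
  · rw [pow_one]
    exact h.2.1
  · rw [Nat.cast_one, one_mul]
    exact h.2.2 i

/-- One hyperplane. -/
theorem one (hDCOU : DCOU) (hCLSC : CLSC) (hCLSCS : CLSCS) (hDENSS : DENSS)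
    {h n m k : ℕ} {π : Fin m → PP} {p e : Fin m → ℕ} {r f : Fin k → ℕ} (hNF : NF n π p e r f)
    {d : ℕ} (hd : Odd d) (w0 : ZMod 3) (c : Fin m → ZMod 3) (v : Fin d → ℤ)
    (hwc : w0 ≠ 0 ∨ c ≠ 0) (δ : Fin d → ZMod 3)
    (hδ : ∃ (s : ℕ) (b : Fin (s + 1) → ℤ) (X Y : Fin s → ℤ)
      (P Q P' Q' : Fin (s + 1) → Fin (s + 1) → ℤ), s + 1 = d ∧ SysG b P Q P' Q' ∧
      (∀ i, b i ≠ 0) ∧
      (∀ ρ : PP, ¬ ρ.1 ∣ (n : Eis) → (∀ i : Fin s, sym ρ.1 (b i.castSucc : Eis) = 0) →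
        sym ρ.1 (b (Fin.last s) : Eis) ≠ 0 →
        ∃ ε : ZMod 3, ε ≠ 0 ∧ ∀ i, sym ρ.1 (v i : Eis) = ε * δ i) ∧
      ∀ (E q : ℕ) (ρ : PP), (E = 1 ∨ E = 2) → q.Prime → q % 3 = 1 → InCT E π w0 c q →
        ¬ q ∣ n → (q : Eis) = ρ.1 * conj ρ.1 →
        (∀ i : Fin s, sym ρ.1 (b i.castSucc : Eis) = 0) →
        sym ρ.1 (b (Fin.last s) : Eis) ≠ 0 →
        BT (BB h n E q) ∧ (∀ i : Fin s, AdT (BB h n E q) (b i.castSucc)) ∧
        (∀ i j, MaT (rv b) X Y (rs P) (rs Q) (rs P') (rs Q') (BB h n E q) i j =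
          - MaT (rv b) X Y (rs P) (rs Q) (rs P') (rs Q') (BB h n E q) j i) ∧
        ((∃ X Y : ℚ, X ^ 3 + Y ^ 3 = (BB h n E q : ℚ)) →
          (MaT (rv b) X Y (rs P) (rs Q) (rs P') (rs Q') (BB h n E q)).det = 0)) :
    ∃ (S S' : Set ℕ) (N : ℕ), RI.DensityGE (S ∪ S') (2 * rh (d - 1) / 3 ^ (d + m + 1)) ∧
      (∀ q, q.Prime → q ∈ S' → q ∈ {q : ℕ | InClS π (-w0) (-c) q}) ∧
      (∀ q, q.Prime → N < q → q ∈ S → q ∈ TU h n π w0 c) ∧
      ∀ q, q.Prime → N < q → q ∈ S ∨ q ∈ S' → q % 3 = 1 ∧ ∃ ρ : PP,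
        (q : Eis) = ρ.1 * conj ρ.1 ∧ (¬ ρ.1 ∣ (n : Eis) →
          ∃ ε : ZMod 3, ε ≠ 0 ∧ ∀ i, sym ρ.1 (v i : Eis) = ε * δ i) := by
  obtain ⟨s, b, X, Y, P, Q, P', Q', hs, hsys, hb, hρ, hq⟩ := hδ
  have hn : 0 < n := FINAS.pos_of_nf hNF
  have hN0 : 0 < 3 ^ h * n := Nat.mul_pos (pow_pos (by norm_num) _) hn
  have hD : ∀ j i : Fin s, ∃ f₀ : ℕ, 0 < f₀ ∧ ∀ F : ℕ, 0 < F → f₀ ∣ F →
      ∃ (C : ZMod 3) (Φ : (ZMod F)ˣ →* Multiplicative (ZMod 3)) (N₀ : ℕ), j ≠ i →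
        ∀ (q : ℕ) (hQ : q.Coprime F) (ρ : PP), q.Prime → N₀ < q → q % 3 = 1 →
          (q : Eis) = ρ.1 * conj ρ.1 →
          AdT (BB h n 1 q) (b j.castSucc) → AdT (BB h n 1 q) (b i.castSucc) →
          ∀ t : ℤ, (q : ℤ) ∣ t ^ 3 - b j.castSucc →
          OT (BB h n 1 q) (b j.castSucc) (X j) (Y j) (b i.castSucc) (rs P j i) (rs Q j i)
            (rs P' j i) (rs Q' j i) = C + (Φ (ZMod.unitOfCoprime q hQ)).toAdd +
              TAUVS ρ.1 (rs P j i) (rs Q j i) (rs P' j i) (rs Q' j i) t := by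
    intro j i
    by_cases hji : j = i
    · exact ⟨1, one_pos, fun F _ _ => ⟨0, 1, 0, fun h => absurd hji h⟩⟩
    · obtain ⟨f₀, hf₀, hf⟩ := hDCOU (3 ^ h * n) (b j.castSucc) (X j) (Y j) (b i.castSucc)
        (rs P j i) (rs Q j i) (rs P' j i) (rs Q' j i) hN0
        (hsys.sol j.castSucc i.castSucc fun h => hji (Fin.castSucc_injective _ h)) (hb _) (hb _)
      refine ⟨f₀, hf₀, fun F hF hd => ?_⟩
      obtain ⟨C, Φ, N₀, h'⟩ := hf F hF hd
      refine ⟨C, Φ, N₀, fun _ q hQ ρ hqp hqN hq3 hqρ hAj hAi t ht => ?_⟩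
      have h1 := h' 1 q hQ ρ (Or.inl rfl) hqp hqN hq3 hqρ
        (by rw [← BB_one]; exact hAj.toAG) (by rw [← BB_one]; exact hAi.toAG) t ht
      rw [← BB_one, Nat.cast_one, one_mul] at h1
      rw [h1, add_assoc]
  choose f₀ hf₀ hD1 using hD
  obtain ⟨F, hF, h9, hpF, hfF⟩ : ∃ F : ℕ, 0 < F ∧ 9 ∣ F ∧ (∀ i, p i ∣ F) ∧ ∀ j i, f₀ j i ∣ F := by
    refine ⟨9 * (∏ i, p i) * ∏ j, ∏ i, f₀ j i, ?_, ?_, ?_, ?_⟩
    · have h1 : 0 < ∏ i, p i := Finset.prod_pos fun i _ => (hNF.pp i).pos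
      have h2 : 0 < ∏ j, ∏ i, f₀ j i :=
        Finset.prod_pos fun j _ => Finset.prod_pos fun i _ => hf₀ j i
      positivity
    · exact Dvd.dvd.mul_right (Dvd.intro _ rfl) _
    · intro i
      exact Dvd.dvd.mul_right (Dvd.dvd.mul_left (Finset.dvd_prod_of_mem p (mem_univ i)) _) _
    · intro j i
      exact Dvd.dvd.mul_left ((Finset.dvd_prod_of_mem (fun i => f₀ j i) (mem_univ i)).trans
        (Finset.dvd_prod_of_mem (fun j => ∏ i, f₀ j i) (mem_univ j))) _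
  choose C Φ N₀ hD2 using fun j i => hD1 j i F hF (hfF j i)
  obtain ⟨κ, hκ, hcount⟩ := hCLSC m π p hNF.pp hNF.p1 hNF.pπ hNF.pinj F hF h9 hpF
  have hcount' := hCLSCS F m κ hF h9 hcount
  have heven : Even s := by
    rw [← hs] at hd
    rcases hd with ⟨t, ht⟩
    exact ⟨t, by omega⟩
  have hc0 : (Fin.cons w0 c : Fin (m + 1) → ZMod 3) ≠ 0 := fun h => by
    rcases hwc with h1 | h1
    · apply h1
      have := congrFun h 0
      simpa using this
    · apply h1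
      funext i
      have := congrFun h i.succ
      simpa using this
  have hdens := hDENSS s b P Q P' Q' F m κ (Fin.cons w0 c) C (FINAS.assemble Φ) hsys heven hF h9
    hc0 hcount'
  have hN : ∀ j i, N₀ j i ≤ ∑ j, ∑ i, N₀ j i := by
    intro j i
    exact (Finset.single_le_sum (f := fun i => N₀ j i) (fun i _ => Nat.zero_le _)
      (mem_univ i)).trans (Finset.single_le_sum (f := fun j => ∑ i, N₀ j i)
        (fun j _ => Nat.zero_le _) (mem_univ j))
  have hk1 : d - 1 = s := by omega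
  have hk2 : d + m + 1 = s + m + 2 := by omega
  rw [hk1, hk2]
  refine ⟨SSS b P Q P' Q' κ (Fin.cons w0 c) C (FINAS.assemble Φ),
    {Q : ℕ | ∃ (hQ : Q.Coprime F) (ρ : PP), ClQ b κ (-Fin.cons w0 c) Q hQ ρ},
    n + 3 + ∑ j, ∑ i, N₀ j i, hdens, ?_, ?_, ?_⟩
  · -- the second set is in `R`
    rintro q hqp ⟨hQ, ρ, hq3, hκq, -⟩
    rw [hκ q hQ] at hκq
    refine ⟨hq3, ?_, fun i => ?_⟩
    · have := congrFun hκq 0
      simpa using this
    · have := congrFun hκq i.succ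
      simpa using this
  · -- the first set is in `T`
    rintro q hqp hqN ⟨hQ, ρ, ⟨hq3, hκq, hqρ, hb0, hb1⟩, hdet⟩
    rw [hκ q hQ] at hκq
    have hcl : InClS π w0 c q := by
      refine ⟨hq3, ?_, fun i => ?_⟩
      · have := congrFun hκq 0
        simpa using this
      · have := congrFun hκq i.succ
        simpa using this
    refine ⟨hcl, fun hXY => ?_⟩
    have hqn : ¬ q ∣ n := fun h => by
      have := Nat.le_of_dvd hn h
      omega
    obtain ⟨-, hA, hskew, hM⟩ := hq 1 q ρ (Or.inl rfl) hqp hq3 (inCT_of hcl) hqn hqρ hb0 hb1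
    have hM0 := hM (by
      obtain ⟨x, y, hxy⟩ := hXY
      refine ⟨x, y, ?_⟩
      rw [hxy, BB_one]
      push_cast
      rw [pow_one])
    let τ : Fin s → Fin s → ZMod 3 := fun j i =>
      OT (BB h n 1 q) (b j.castSucc) (X j) (Y j) (b i.castSucc) (rs P j i) (rs Q j i) (rs P' j i)
            (rs Q' j i) - C j i - (Φ j i (ZMod.unitOfCoprime q hQ)).toAdd
    apply hdet τ
    · intro j i hji t ht
      have h1 := hD2 j i hji q hQ ρ hqp (by have := hN j i; omega) hq3 hqρ (hA j) (hA i) t ht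
      simp only [τ]
      rw [h1]
      ring
    · rw [← hM0]
      congr 1
      ext j i
      have hv : ∀ j i, (C + (FINAS.assemble Φ (ZMod.unitOfCoprime q hQ)).toAdd + τ) j i =
          OT (BB h n 1 q) (b j.castSucc) (X j) (Y j) (b i.castSucc) (rs P j i) (rs Q j i)
            (rs P' j i) (rs Q' j i) := by
        intro j i
        simp only [Pi.add_apply, τ, FINAS.assemble_apply]
        ring
      unfold alt
      rw [hv, hv]
      by_cases h1 : j < i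
      · rw [if_pos h1]
        unfold MaT
        rw [if_neg h1.ne]
        rfl
      · rw [if_neg h1]
        by_cases h2 : i < j
        · rw [if_pos h2, hskew j i]
          unfold MaT
          rw [if_neg h2.ne]
          rfl
        · rw [if_neg h2]
          have h3 : j = i := le_antisymm (not_lt.1 h2) (not_lt.1 h1)
          unfold MaT
          rw [if_pos h3]
  · -- the hyperplane
    rintro q hqp hqN (⟨hQ, ρ, ⟨hq3, hκq, hqρ, hb0, hb1⟩, hdet⟩ | ⟨hQ, ρ, hq3, hκq, hqρ, hb0, hb1⟩)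
    · exact ⟨hq3, ρ, hqρ, fun hn => hρ ρ hn hb0 hb1⟩
    · exact ⟨hq3, ρ, hqρ, fun hn => hρ ρ hn hb0 hb1⟩

end FCLU

open _root_.Pool.Agent.PT3.FCLU

/-- The theorem for one class, `3^h n`, `h + k` odd. -/
theorem FCLU_thm (hSPLT : SPLT) (hECLU : ECLU) (hDCOU : DCOU) (hCLSC : CLSC) (hCLSCS : CLSCS)
    (hDENSS : DENSS) (hDIRS : DIRS) (hDSUM : DSUM) : FCLU := by
  intro h n m k π p e r f w0 c hNF hh hk hwc hdet
  obtain ⟨d, v, hdo, hv, hδ⟩ := hECLU h n m k π p e r f w0 c hNF hh hk hdet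
  have hn : 0 < n := FINAS.pos_of_nf hNF
  choose S S' N hd hR hT hH using fun δ : {δ : Fin d → ZMod 3 // δ ≠ 0} =>
    one hDCOU hCLSC hCLSCS hDENSS hNF hdo w0 c v hwc δ.1 (hδ δ.1 δ.2)
  have hN : ∀ δ, N δ ≤ ∑ δ, N δ := fun δ =>
    Finset.single_le_sum (f := fun δ => N δ) (fun i _ => Nat.zero_le _) (mem_univ δ)
  have hmain := hDSUM {δ : Fin d → ZMod 3 // δ ≠ 0} S S' (TU h n π w0 c)
    {q : ℕ | InClS π (-w0) (-c) q} _ _ (n + 3 + ∑ δ, N δ) hd
    (hDIRS m π p hNF.pp hNF.p1 hNF.pπ hNF.pinj (-w0) (-c))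
    (fun i q hq _ h => hR i q hq h) (fun i q hq hNq h => hT i q hq (by have := hN i; omega) h) ?_
  · refine FINAS.dens_mono hmain ?_
    have hcard : ((Fintype.card {δ : Fin d → ZMod 3 // δ ≠ 0} : ℕ) : ℝ) = 3 ^ d - 1 := by
      rw [Fintype.card_subtype_compl, Fintype.card_subtype_eq, Fintype.card_fun, ZMod.card,
        Fintype.card_fin, Nat.cast_sub (Nat.one_le_pow _ _ (by norm_num))]
      push_cast
      ring
    rw [hcard]
    rcases Nat.eq_zero_or_pos (d - 1) with h0 | h0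
    · have hk1 : d = 1 := by
        rcases hdo with ⟨t, ht⟩
        omega
      subst hk1
      have : rh (1 - 1) = 1 := by simp [rh]
      rw [this]
      exact FINAS.num0 m
    · have hk3 : 3 ≤ d := by
        rcases hdo with ⟨t, ht⟩
        omega
      have : rh (d - 1) = 5 / 8 := by
        unfold rh
        rw [if_neg (by omega)]
      rw [this]
      exact FINAS.num1 m d hk3
  · intro q hqp hNq
    by_cases hex : ∃ i, q ∈ S i ∨ q ∈ S' i
    · obtain ⟨δ₀, h₀⟩ := hex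
      obtain ⟨hq3, ρ₀, hqρ₀, hε₀⟩ := hH δ₀ q hqp (by have := hN δ₀; omega) h₀
      have hqn : ¬ q ∣ n := fun h => by
        have := Nat.le_of_dvd hn h
        omega
      have hqv : ∀ i, ¬ (q : ℤ) ∣ v i := fun i h => by
        have h1 := (hv i).2 q hqp h
        rcases (hqp.dvd_mul).1 h1 with h2 | h2
        · have := Nat.le_of_dvd (by norm_num) h2
          omega
        · exact hqn h2
      obtain ⟨-, -, hσ, hdv, hcj, -⟩ := hSPLT.2 q ρ₀ hqp hq3 hqρ₀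
      have hn₀ : ∀ ρ : PP, (q : Eis) = ρ.1 * conj ρ.1 → ¬ ρ.1 ∣ (n : Eis) := by
        intro ρ hρ h
        obtain ⟨-, -, -, hdv', -, -⟩ := hSPLT.2 q ρ hqp hq3 hρ
        have h1 : ρ.1 ∣ ((n : ℤ) : Eis) := by
          rwa [Int.cast_natCast]
        exact hqn (Int.natCast_dvd_natCast.1 ((hdv' n).1 h1))
      obtain ⟨ε₀, hε₀0, hε₀v⟩ := hε₀ (hn₀ ρ₀ hqρ₀)
      refine ⟨δ₀, ⟨-δ₀.1, neg_ne_zero.2 δ₀.2⟩, fun δ h => ?_⟩
      obtain ⟨-, ρ, hqρ, hε⟩ := hH δ q hqp (by have := hN δ; omega) h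
      obtain ⟨ε, hε0, hεv⟩ := hε (hn₀ ρ hqρ)
      rcases hσ ρ ⟨conj ρ.1, hqρ⟩ with h1 | h1
      · rcases FINAS.line δ₀.1 δ.1 hε₀0 hε0 fun i => by rw [← hεv i, ← hε₀v i, h1] with h2 | h2
        · exact Or.inl (Subtype.ext h2)
        · exact Or.inr (Subtype.ext h2)
      · rcases FINAS.line δ₀.1 δ.1 (neg_ne_zero.2 hε₀0) hε0 fun i => by
          have h3 := hcj (v i : Eis) fun h => hqv i ((hdv (v i)).1 h)
          rw [← hεv i, h1, neg_mul, ← hε₀v i, ← h3]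
          congr 1
          exact (conj_intCast _).symm with h2 | h2
        · exact Or.inl (Subtype.ext h2)
        · exact Or.inr (Subtype.ext h2)
    · have : Nonempty {δ : Fin d → ZMod 3 // δ ≠ 0} := by
        refine ⟨fun _ => 1, fun h => ?_⟩
        have h1 := congrFun h ⟨0, hdo.pos⟩
        exact one_ne_zero h1
      obtain ⟨i⟩ := this
      exact ⟨i, i, fun j hj => absurd ⟨j, hj⟩ hex⟩

end Pool.Agent.PT3

end

section

/-!
# PT3: one class, `3` does not divide `n`, `k` odd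
-/

set_option autoImplicit false

open NumberField IsDedekindDomain Finset
open scoped nonZeroDivisors Pointwise

namespace Pool.Agent.PT3

open Pool.Agent.Lib_helper18 Pool.Agent.Lib_helper18.Eis Pool.Agent.Lib_helper84.Cub
open Pool.Agent.PT Pool.Agent.PTE Pool.Agent.PTE.FINAS

namespace FCS0

/-- The set of the theorem. -/
def TS (n : ℕ) {m : ℕ} (π : Fin m → PP) (w0 : ZMod 3) (c : Fin m → ZMod 3) : Set ℕ :=
  {q : ℕ | InClS π w0 c q ∧ ¬ ∃ X Y : ℚ, X ^ 3 + Y ^ 3 = (n : ℚ) * q}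

/-- One hyperplane. -/
theorem one (hDCONSTS : DCONSTS) (hCLSC : CLSC) (hCLSCS : CLSCS) (hDENSS : DENSS)
    {n m k : ℕ} {π : Fin m → PP} {p e : Fin m → ℕ} {r f : Fin k → ℕ} (hNF : NF n π p e r f)
    (hk : Odd k) (w0 : ZMod 3) (c : Fin m → ZMod 3) (v : Fin k → ℤ) (hw0 : w0 ≠ 0 ∨ c ≠ 0)
    (δ : Fin k → ZMod 3)
    (hδ : ∃ (s : ℕ) (b : Fin (s + 1) → ℤ)
      (P Q P' Q' : Fin (s + 1) → Fin (s + 1) → ℤ), s + 1 = k ∧ SysG b P Q P' Q' ∧
      (∀ i, b i ≠ 0) ∧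
      (∀ ρ : PP, ¬ ρ.1 ∣ (n : Eis) → (∀ i : Fin s, sym ρ.1 (b i.castSucc : Eis) = 0) →
        sym ρ.1 (b (Fin.last s) : Eis) ≠ 0 →
        ∃ ε : ZMod 3, ε ≠ 0 ∧ ∀ i, sym ρ.1 (v i : Eis) = ε * δ i) ∧
      ∀ (q : ℕ) (ρ : PP), q.Prime → InClS π w0 c q → ¬ q ∣ n → 3 < q →
        (q : Eis) = ρ.1 * conj ρ.1 → (∀ i : Fin s, sym ρ.1 (b i.castSucc : Eis) = 0) →
        sym ρ.1 (b (Fin.last s) : Eis) ≠ 0 →
        BOk ((n : ℤ) * q) ∧ (∀ i : Fin s, Adm ((n : ℤ) * q) (b i.castSucc)) ∧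
        (∀ i j, Mat (rv b) (rs P) (rs Q) (rs P') (rs Q') ((n : ℤ) * q) i j =
          - Mat (rv b) (rs P) (rs Q) (rs P') (rs Q') ((n : ℤ) * q) j i) ∧
        ((∃ X Y : ℚ, X ^ 3 + Y ^ 3 = (n : ℚ) * q) →
          (Mat (rv b) (rs P) (rs Q) (rs P') (rs Q') ((n : ℤ) * q)).det = 0)) :
    ∃ (S S' : Set ℕ) (N : ℕ), RI.DensityGE (S ∪ S') (2 * rh (k - 1) / 3 ^ (k + m + 1)) ∧
      (∀ q, q.Prime → q ∈ S' → q ∈ {q : ℕ | InClS π (-w0) (-c) q}) ∧
      (∀ q, q.Prime → N < q → q ∈ S → q ∈ TS n π w0 c) ∧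
      ∀ q, q.Prime → N < q → q ∈ S ∨ q ∈ S' → q % 3 = 1 ∧ ∃ ρ : PP,
        (q : Eis) = ρ.1 * conj ρ.1 ∧ (¬ ρ.1 ∣ (n : Eis) →
          ∃ ε : ZMod 3, ε ≠ 0 ∧ ∀ i, sym ρ.1 (v i : Eis) = ε * δ i) := by
  obtain ⟨s, b, P, Q, P', Q', hs, hsys, hb, hρ, hq⟩ := hδ
  have hn : 0 < n := pos_of_nf hNF
  have h3 : ¬ 3 ∣ n := three_of_nf hNF
  have hD : ∀ j i : Fin s, ∃ f₀ : ℕ, 0 < f₀ ∧ ∀ F : ℕ, 0 < F → f₀ ∣ F →
      ∃ (C : ZMod 3) (Φ : (ZMod F)ˣ →* Multiplicative (ZMod 3)) (N₀ : ℕ), j ≠ i →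
        ∀ (q : ℕ) (hQ : q.Coprime F) (ρ : PP), q.Prime → N₀ < q → q % 3 = 1 →
          (q : Eis) = ρ.1 * conj ρ.1 → BOk ((n : ℤ) * q) →
          Adm ((n : ℤ) * q) (b j.castSucc) → Adm ((n : ℤ) * q) (b i.castSucc) →
          ∀ t : ℤ, (q : ℤ) ∣ t ^ 3 - b j.castSucc →
          OO ((n : ℤ) * q) (b j.castSucc) (b i.castSucc) (rs P j i) (rs Q j i) (rs P' j i)
            (rs Q' j i) = C + (Φ (ZMod.unitOfCoprime q hQ)).toAdd +
              TAUVS ρ.1 (rs P j i) (rs Q j i) (rs P' j i) (rs Q' j i) t := by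
    intro j i
    by_cases hji : j = i
    · exact ⟨1, one_pos, fun F _ _ => ⟨0, 1, 0, fun h => absurd hji h⟩⟩
    · obtain ⟨f₀, hf₀, h⟩ := hDCONSTS n (b j.castSucc) (b i.castSucc) (rs P j i) (rs Q j i)
        (rs P' j i) (rs Q' j i) hn h3
        (hsys.sol j.castSucc i.castSucc fun h => hji (Fin.castSucc_injective _ h)) (hb _) (hb _)
      refine ⟨f₀, hf₀, fun F hF hd => ?_⟩
      obtain ⟨C, Φ, N₀, h'⟩ := h F hF hd
      exact ⟨C, Φ, N₀, fun _ => h'⟩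
  choose f₀ hf₀ hD1 using hD
  obtain ⟨F, hF, h9, hpF, hfF⟩ : ∃ F : ℕ, 0 < F ∧ 9 ∣ F ∧ (∀ i, p i ∣ F) ∧ ∀ j i, f₀ j i ∣ F := by
    refine ⟨9 * (∏ i, p i) * ∏ j, ∏ i, f₀ j i, ?_, ?_, ?_, ?_⟩
    · have h1 : 0 < ∏ i, p i := Finset.prod_pos fun i _ => (hNF.pp i).pos
      have h2 : 0 < ∏ j, ∏ i, f₀ j i :=
        Finset.prod_pos fun j _ => Finset.prod_pos fun i _ => hf₀ j i
      positivity
    · exact Dvd.dvd.mul_right (Dvd.intro _ rfl) _
    · intro i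
      exact Dvd.dvd.mul_right (Dvd.dvd.mul_left (Finset.dvd_prod_of_mem p (mem_univ i)) _) _
    · intro j i
      exact Dvd.dvd.mul_left ((Finset.dvd_prod_of_mem (fun i => f₀ j i) (mem_univ i)).trans
        (Finset.dvd_prod_of_mem (fun j => ∏ i, f₀ j i) (mem_univ j))) _
  choose C Φ N₀ hD2 using fun j i => hD1 j i F hF (hfF j i)
  obtain ⟨κ, hκ, hcount⟩ := hCLSC m π p hNF.pp hNF.p1 hNF.pπ hNF.pinj F hF h9 hpF
  have hcount' := hCLSCS F m κ hF h9 hcount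
  have heven : Even s := by
    rw [← hs] at hk
    rcases hk with ⟨t, ht⟩
    exact ⟨t, by omega⟩
  have hc0 : (Fin.cons w0 c : Fin (m + 1) → ZMod 3) ≠ 0 := by
    intro h
    rcases hw0 with h1 | h1
    · apply h1
      have := congrFun h 0
      simpa using this
    · apply h1
      funext i
      have := congrFun h i.succ
      simpa using this
  have hdens := hDENSS s b P Q P' Q' F m κ (Fin.cons w0 c) C (assemble Φ) hsys heven hF h9 hc0
    hcount'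
  have hN : ∀ j i, N₀ j i ≤ ∑ j, ∑ i, N₀ j i := by
    intro j i
    exact (Finset.single_le_sum (f := fun i => N₀ j i) (fun i _ => Nat.zero_le _)
      (mem_univ i)).trans (Finset.single_le_sum (f := fun j => ∑ i, N₀ j i)
        (fun j _ => Nat.zero_le _) (mem_univ j))
  have hk1 : k - 1 = s := by omega
  have hk2 : k + m + 1 = s + m + 2 := by omega
  rw [hk1, hk2]
  refine ⟨SSS b P Q P' Q' κ (Fin.cons w0 c) C (assemble Φ),
    {Q : ℕ | ∃ (hQ : Q.Coprime F) (ρ : PP), ClQ b κ (-Fin.cons w0 c) Q hQ ρ},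
    n + 3 + ∑ j, ∑ i, N₀ j i, hdens, ?_, ?_, ?_⟩
  · -- the second set is in `R`
    rintro q hqp ⟨hQ, ρ, hq3, hκq, -⟩
    rw [hκ q hQ] at hκq
    refine ⟨hq3, ?_, fun i => ?_⟩
    · have := congrFun hκq 0
      simpa using this
    · have := congrFun hκq i.succ
      simpa using this
  · -- the first set is in `T`
    rintro q hqp hqN ⟨hQ, ρ, ⟨hq3, hκq, hqρ, hb0, hb1⟩, hdet⟩
    rw [hκ q hQ] at hκq
    have hcl : InClS π w0 c q := by
      refine ⟨hq3, ?_, fun i => ?_⟩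
      · have := congrFun hκq 0
        simpa using this
      · have := congrFun hκq i.succ
        simpa using this
    refine ⟨hcl, fun hXY => ?_⟩
    have hqn : ¬ q ∣ n := fun h => by
      have := Nat.le_of_dvd hn h
      omega
    obtain ⟨hB, hA, hskew, hM⟩ := hq q ρ hqp hcl hqn (by omega) hqρ hb0 hb1
    have hM0 := hM hXY
    let τ : Fin s → Fin s → ZMod 3 := fun j i =>
      OO ((n : ℤ) * q) (b j.castSucc) (b i.castSucc) (rs P j i) (rs Q j i) (rs P' j i)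
            (rs Q' j i) - C j i - (Φ j i (ZMod.unitOfCoprime q hQ)).toAdd
    apply hdet τ
    · intro j i hji t ht
      have h1 := hD2 j i hji q hQ ρ hqp (by have := hN j i; omega) hq3 hqρ hB (hA j) (hA i) t ht
      simp only [τ]
      rw [h1]
      ring
    · rw [← hM0]
      congr 1
      ext j i
      have hv : ∀ j i, (C + (assemble Φ (ZMod.unitOfCoprime q hQ)).toAdd + τ) j i =
          OO ((n : ℤ) * q) (b j.castSucc) (b i.castSucc) (rs P j i) (rs Q j i) (rs P' j i)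
            (rs Q' j i) := by
        intro j i
        simp only [Pi.add_apply, τ, assemble_apply]
        ring
      unfold alt
      rw [hv, hv]
      by_cases h1 : j < i
      · rw [if_pos h1]
        unfold Mat
        rw [if_neg h1.ne]
        rfl
      · rw [if_neg h1]
        by_cases h2 : i < j
        · rw [if_pos h2, hskew j i]
          unfold Mat
          rw [if_neg h2.ne]
          rfl
        · rw [if_neg h2]
          have h3 : j = i := le_antisymm (not_lt.1 h2) (not_lt.1 h1)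
          unfold Mat
          rw [if_pos h3]
  · -- the hyperplane
    rintro q hqp hqN (⟨hQ, ρ, ⟨hq3, hκq, hqρ, hb0, hb1⟩, hdet⟩ | ⟨hQ, ρ, hq3, hκq, hqρ, hb0, hb1⟩)
    · exact ⟨hq3, ρ, hqρ, fun hn => hρ ρ hn hb0 hb1⟩
    · exact ⟨hq3, ρ, hqρ, fun hn => hρ ρ hn hb0 hb1⟩

end FCS0

open _root_.Pool.Agent.PT3.FCS0

/-- One class, `3` does not divide `n`, `k` odd. -/
theorem FCS0_thm (hSPLT : SPLT) (hECS0 : ECS0) (hDCONSTS : DCONSTS) (hCLSC : CLSC)
    (hCLSCS : CLSCS) (hDENSS : DENSS) (hDIRS : DIRS) (hDSUM : DSUM) : FCS0 := by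
  intro n m k π p e r f w0 c hNF hk hw0 hwt hdet
  obtain ⟨v, hv, hδ⟩ := hECS0 n m k π p e r f w0 c hNF hk hwt hdet
  have hn : 0 < n := pos_of_nf hNF
  choose S S' N hd hR hT hH using fun δ : {δ : Fin k → ZMod 3 // δ ≠ 0} =>
    one hDCONSTS hCLSC hCLSCS hDENSS hNF hk w0 c v hw0 δ.1 (hδ δ.1 δ.2)
  have hN : ∀ δ, N δ ≤ ∑ δ, N δ := fun δ =>
    Finset.single_le_sum (f := fun δ => N δ) (fun i _ => Nat.zero_le _) (mem_univ δ)
  have hmain := hDSUM {δ : Fin k → ZMod 3 // δ ≠ 0} S S' (TS n π w0 c)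
    {q : ℕ | InClS π (-w0) (-c) q} _ _ (n + ∑ δ, N δ) hd
    (hDIRS m π p hNF.pp hNF.p1 hNF.pπ hNF.pinj (-w0) (-c))
    (fun i q hq _ h => hR i q hq h) (fun i q hq hNq h => hT i q hq (by have := hN i; omega) h) ?_
  · refine dens_mono hmain ?_
    have hcard : ((Fintype.card {δ : Fin k → ZMod 3 // δ ≠ 0} : ℕ) : ℝ) = 3 ^ k - 1 := by
      rw [Fintype.card_subtype_compl, Fintype.card_subtype_eq, Fintype.card_fun, ZMod.card,
        Fintype.card_fin, Nat.cast_sub (Nat.one_le_pow _ _ (by norm_num))]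
      push_cast
      ring
    rw [hcard]
    rcases Nat.eq_zero_or_pos (k - 1) with h0 | h0
    · have hk1 : k = 1 := by
        rcases hk with ⟨t, ht⟩
        omega
      subst hk1
      have : rh (1 - 1) = 1 := by simp [rh]
      rw [this]
      exact num0 m
    · have hk3 : 3 ≤ k := by
        rcases hk with ⟨t, ht⟩
        omega
      have : rh (k - 1) = 5 / 8 := by
        unfold rh
        rw [if_neg (by omega)]
      rw [this]
      exact num1 m k hk3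
  · intro q hqp hNq
    by_cases hex : ∃ i, q ∈ S i ∨ q ∈ S' i
    · obtain ⟨δ₀, h₀⟩ := hex
      obtain ⟨hq3, ρ₀, hqρ₀, hε₀⟩ := hH δ₀ q hqp (by have := hN δ₀; omega) h₀
      have hqn : ¬ q ∣ n := fun h => by
        have := Nat.le_of_dvd hn h
        omega
      have hqv : ∀ i, ¬ (q : ℤ) ∣ v i := fun i h => hqn ((hv i).2 q hqp h)
      obtain ⟨-, -, hσ, hdv, hcj, -⟩ := hSPLT.2 q ρ₀ hqp hq3 hqρ₀
      have hn₀ : ∀ ρ : PP, (q : Eis) = ρ.1 * conj ρ.1 → ¬ ρ.1 ∣ (n : Eis) := by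
        intro ρ hρ h
        obtain ⟨-, -, -, hdv', -, -⟩ := hSPLT.2 q ρ hqp hq3 hρ
        have h1 : ρ.1 ∣ ((n : ℤ) : Eis) := by
          rwa [Int.cast_natCast]
        exact hqn (Int.natCast_dvd_natCast.1 ((hdv' n).1 h1))
      obtain ⟨ε₀, hε₀0, hε₀v⟩ := hε₀ (hn₀ ρ₀ hqρ₀)
      refine ⟨δ₀, ⟨-δ₀.1, neg_ne_zero.2 δ₀.2⟩, fun δ h => ?_⟩
      obtain ⟨-, ρ, hqρ, hε⟩ := hH δ q hqp (by have := hN δ; omega) h
      obtain ⟨ε, hε0, hεv⟩ := hε (hn₀ ρ hqρ)
      rcases hσ ρ ⟨conj ρ.1, hqρ⟩ with h1 | h1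
      · rcases line δ₀.1 δ.1 hε₀0 hε0 fun i => by rw [← hεv i, ← hε₀v i, h1] with h2 | h2
        · exact Or.inl (Subtype.ext h2)
        · exact Or.inr (Subtype.ext h2)
      · rcases line δ₀.1 δ.1 (neg_ne_zero.2 hε₀0) hε0 fun i => by
          have h3 := hcj (v i : Eis) fun h => hqv i ((hdv (v i)).1 h)
          rw [← hεv i, h1, neg_mul, ← hε₀v i, ← h3]
          congr 1
          exact (conj_intCast _).symm with h2 | h2
        · exact Or.inl (Subtype.ext h2)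
        · exact Or.inr (Subtype.ext h2)
    · have : Nonempty {δ : Fin k → ZMod 3 // δ ≠ 0} := by
        refine ⟨fun _ => 1, fun h => ?_⟩
        have h1 := congrFun h ⟨0, hk.pos⟩
        exact one_ne_zero h1
      obtain ⟨i⟩ := this
      exact ⟨i, i, fun j hj => absurd ⟨j, hj⟩ hex⟩

end Pool.Agent.PT3

end

section

/-!
# Prime twists of rank zero: the unit rank of `Q(w, x^(1/3))`
-/

open NumberField IsDedekindDomain Finset
open scoped nonZeroDivisors Pointwise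

namespace Pool.Agent.PT

open Pool.Agent.Lib_helper18 Pool.Agent.Lib_helper18.Eis Pool.Agent.Lib_helper84.Cub

namespace NRK

/-- the basis of `L` over `ℚ` -/
def bv {L : Type} [Field L] (ι : Eis →+* L) (θ : L) : Fin 6 → L :=
  ![1, ι w, θ, ι w * θ, θ ^ 2, ι w * θ ^ 2]

theorem iota_eq {L : Type} [Field L] (ι : Eis →+* L) (a : Eis) :
    ι a = (a.re : L) + (a.im : L) * ι w := by
  conv_lhs => rw [eq_re_add_im a]
  simp

theorem bv_indep {x : ℤ} {L : Type} [Field L] [NumberField L] {ι : Eis →+* L} {θ : L}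
    {σ c : L ≃ₐ[ℚ] L} (h : CubF x L ι θ σ c) : LinearIndependent ℚ (bv ι θ) := by
  rw [← LinearIndependent.iff_fractionRing ℤ ℚ, Fintype.linearIndependent_iff]
  intro g hg
  rw [Fin.sum_univ_six] at hg
  simp only [bv, Matrix.cons_val, zsmul_eq_mul] at hg
  obtain ⟨h1, h2, h3⟩ := h.lin ⟨g 0, g 1⟩ ⟨g 2, g 3⟩ ⟨g 4, g 5⟩ (by
    rw [iota_eq ι ⟨g 0, g 1⟩, iota_eq ι ⟨g 2, g 3⟩, iota_eq ι ⟨g 4, g 5⟩]
    simp only
    rw [← hg]
    ring)
  have e1 := congrArg Eis.re h1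
  have e2 := congrArg Eis.im h1
  have e3 := congrArg Eis.re h2
  have e4 := congrArg Eis.im h2
  have e5 := congrArg Eis.re h3
  have e6 := congrArg Eis.im h3
  simp only [zero_re, zero_im] at e1 e2 e3 e4 e5 e6
  intro i
  fin_cases i <;> assumption

theorem bv_span {x : ℤ} {L : Type} [Field L] [NumberField L] {ι : Eis →+* L} {θ : L}
    {σ c : L ≃ₐ[ℚ] L} (h : CubF x L ι θ σ c) : ⊤ ≤ Submodule.span ℚ (Set.range (bv ι θ)) := by
  intro z _
  obtain ⟨m, a, b, d, hm, hz⟩ := h.rep z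
  have hmL : (m : L) ≠ 0 := Int.cast_ne_zero.mpr hm
  have hz' : z = ((m : ℚ)⁻¹) • ((a.re : ℚ) • bv ι θ 0 + (a.im : ℚ) • bv ι θ 1 +
      (b.re : ℚ) • bv ι θ 2 + (b.im : ℚ) • bv ι θ 3 +
      (d.re : ℚ) • bv ι θ 4 + (d.im : ℚ) • bv ι θ 5) := by
    simp only [bv, Matrix.cons_val, Algebra.smul_def, map_inv₀, map_intCast]
    rw [iota_eq ι a, iota_eq ι b, iota_eq ι d] at hz
    field_simp
    rw [mul_comm z, hz]
    ring
  have hmem : ∀ i, bv ι θ i ∈ Submodule.span ℚ (Set.range (bv ι θ)) := fun i =>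
    Submodule.subset_span ⟨i, rfl⟩
  rw [hz']
  refine Submodule.smul_mem _ _ ?_
  refine Submodule.add_mem _ (Submodule.add_mem _ (Submodule.add_mem _ (Submodule.add_mem _
    (Submodule.add_mem _ ?_ ?_) ?_) ?_) ?_) ?_ <;> exact Submodule.smul_mem _ _ (hmem _)

theorem finrank_six {x : ℤ} {L : Type} [Field L] [NumberField L] {ι : Eis →+* L} {θ : L}
    {σ c : L ≃ₐ[ℚ] L} (h : CubF x L ι θ σ c) : Module.finrank ℚ L = 6 := by
  rw [Module.finrank_eq_card_basis (Module.Basis.mk (bv_indep h) (bv_span h))]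
  simp

theorem prim {x : ℤ} {L : Type} [Field L] [NumberField L] {ι : Eis →+* L} {θ : L}
    {σ c : L ≃ₐ[ℚ] L} (h : CubF x L ι θ σ c) : IsPrimitiveRoot (ι w) 3 := by
  have h3 : (ι w) ^ 3 = 1 := by rw [← map_pow, w_cube, map_one]
  have h1 : ι w ≠ 1 := by
    intro he
    rw [← map_one ι] at he
    have := congrArg Eis.im (h.inj he)
    simp at this
  have := orderOf_eq_prime (p := 3) h3 h1
  rw [← this]
  exact IsPrimitiveRoot.orderOf _

end NRK

/-- NRK: the unit rank. -/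
theorem NRK_thm : NRK := by
  intro x L _ _ ι θ σ c h
  have h6 := NRK.finrank_six h
  have hr : NumberField.InfinitePlace.nrRealPlaces L = 0 :=
    NumberField.InfinitePlace.IsPrimitiveRoot.nrRealPlaces_eq_zero_of_two_lt (by norm_num)
      (NRK.prim h)
  have hc := NumberField.InfinitePlace.card_add_two_mul_card_eq_rank L
  have ht := NumberField.InfinitePlace.card_eq_nrRealPlaces_add_nrComplexPlaces L
  unfold NumberField.Units.rank
  rw [ht]
  omega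

end Pool.Agent.PT

end

section

/-!
# EQD: equidistribution of the matrices in a class of the Galois group
-/

namespace Pool.Agent.PT.EQD

open Pool.Agent.Lib_helper18 Pool.Agent.Lib_helper18.Eis Pool.Agent.Lib_helper84.Cub

/-- counting with fibres of equal cardinality -/
theorem fib_count {X E : Type} [Finite X] [Finite E] (φ : X → E)
    (h : ∀ e e', Nat.card {x // φ x = e} = Nat.card {x // φ x = e'}) (S : Set E) :
    Nat.card {x // φ x ∈ S} * Nat.card E = Nat.card S * Nat.card X := by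
  classical
  have := Fintype.ofFinite E
  rcases isEmpty_or_nonempty E with hE | ⟨⟨e0⟩⟩
  · have h1 : Nat.card E = 0 := Nat.card_of_isEmpty
    have h2 : Nat.card S = 0 := Nat.card_of_isEmpty
    rw [h1, h2, mul_zero, zero_mul]
  · have h1 : Nat.card X = Nat.card E * Nat.card {x // φ x = e0} := by
      rw [← Nat.card_congr (Equiv.sigmaFiberEquiv φ), Nat.card_sigma,
        Finset.sum_congr rfl fun e _ => h e e0, Finset.sum_const, Finset.card_univ,
        smul_eq_mul, Nat.card_eq_fintype_card (α := E)]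
    have e : {x // φ x ∈ S} ≃ Σ e : S, {x // φ x = (e : E)} :=
      { toFun := fun x => ⟨⟨φ x.1, x.2⟩, ⟨x.1, rfl⟩⟩
        invFun := fun y => ⟨y.2.1, by
          rw [y.2.2]
          exact y.1.2⟩
        left_inv := fun x => rfl
        right_inv := by
          rintro ⟨e, ⟨x, hx⟩⟩
          have hmem : φ x ∈ S := by
            rw [hx]
            exact e.2
          obtain rfl : (⟨φ x, hmem⟩ : S) = e := Subtype.ext hx
          rfl }
    have := Fintype.ofFinite S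
    have h2 : Nat.card {x // φ x ∈ S} = Nat.card S * Nat.card {x // φ x = e0} := by
      rw [Nat.card_congr e, Nat.card_sigma, Finset.sum_congr rfl fun (e : S) _ => h (e : E) e0,
        Finset.sum_const, Finset.card_univ, smul_eq_mul, Nat.card_eq_fintype_card (α := S)]
    rw [h1, h2]
    ring

/-- the pairs above the diagonal -/
abbrev Pr (s : ℕ) : Type := {x : Fin s × Fin s // x.1 < x.2}

/-- the entries above the diagonal -/
def rst {s : ℕ} (v : Fin s → Fin s → ZMod 3) : Pr s → ZMod 3 := fun x => v x.1.1 x.1.2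

/-- a function with given entries above the diagonal -/
def lft {s : ℕ} (e : Pr s → ZMod 3) : Fin s → Fin s → ZMod 3 :=
  fun j i => if h : j < i then e ⟨(j, i), h⟩ else 0

theorem rst_lft {s : ℕ} (e : Pr s → ZMod 3) : rst (lft e) = e := by
  funext x
  exact dif_pos x.2

theorem alt_lft {s : ℕ} (v : Fin s → Fin s → ZMod 3) : alt (lft (rst v)) = alt v := by
  funext j i
  unfold alt lft rst
  by_cases h1 : j < i
  · rw [if_pos h1, if_pos h1, dif_pos h1]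
  · rw [if_neg h1, if_neg h1]
    by_cases h2 : i < j
    · rw [if_pos h2, if_pos h2, dif_pos h2]
    · rw [if_neg h2, if_neg h2]

theorem rst_eq_iff {s : ℕ} (v : Fin s → Fin s → ZMod 3) (e : Pr s → ZMod 3) :
    rst v = e ↔ ∀ j i, j < i → v j i = lft e j i := by
  constructor
  · rintro rfl j i h
    have h1 : lft (rst v) j i = rst v ⟨(j, i), h⟩ := dif_pos h
    rw [h1]
    rfl
  · intro h
    funext x
    have h1 := h x.1.1 x.1.2 x.2
    rw [show rst v x = v x.1.1 x.1.2 from rfl, h1]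
    exact dif_pos x.2

theorem fib_all {s : ℕ} (e e' : Pr s → ZMod 3) :
    Nat.card {v : Fin s → Fin s → ZMod 3 // rst v = e} =
      Nat.card {v : Fin s → Fin s → ZMod 3 // rst v = e'} := by
  refine Nat.card_congr ⟨fun v => ⟨v.1 - lft e + lft e', ?_⟩, fun v => ⟨v.1 - lft e' + lft e, ?_⟩,
    ?_, ?_⟩
  · have h1 : rst (v.1 - lft e + lft e') = rst v.1 - rst (lft e) + rst (lft e') := rfl
    rw [h1, v.2, rst_lft, rst_lft]
    abel
  · have h1 : rst (v.1 - lft e' + lft e) = rst v.1 - rst (lft e') + rst (lft e) := rfl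
    rw [h1, v.2, rst_lft, rst_lft]
    abel
  · intro v
    apply Subtype.ext
    show v.1 - lft e + lft e' - lft e' + lft e = v.1
    abel
  · intro v
    apply Subtype.ext
    show v.1 - lft e' + lft e - lft e + lft e' = v.1
    abel

/-- The comparison of two counts. -/
theorem main {s : ℕ} {X : Type} [Finite X] (u : X → Fin s → Fin s → ZMod 3)
    (h : ∀ e e' : Pr s → ZMod 3, Nat.card {x // rst (u x) = e} = Nat.card {x // rst (u x) = e'})
    (S : Set (Matrix (Fin s) (Fin s) (ZMod 3))) :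
    Nat.card {x : X // alt (u x) ∈ S} * Nat.card (Fin s → Fin s → ZMod 3) =
      Nat.card {v : Fin s → Fin s → ZMod 3 // alt v ∈ S} * Nat.card X := by
  have h1 := fib_count (fun x => rst (u x)) h {e | alt (lft e) ∈ S}
  have h2 := fib_count (rst (s := s)) fib_all {e | alt (lft e) ∈ S}
  simp only [Set.mem_ofPred_eq, alt_lft] at h1 h2
  have h3 : 0 < Nat.card (Pr s → ZMod 3) := Nat.card_pos
  apply Nat.eq_of_mul_eq_mul_right h3
  calc Nat.card {x : X // alt (u x) ∈ S} * Nat.card (Fin s → Fin s → ZMod 3) *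
      Nat.card (Pr s → ZMod 3)
      = (Nat.card {x : X // alt (u x) ∈ S} * Nat.card (Pr s → ZMod 3)) *
        Nat.card (Fin s → Fin s → ZMod 3) := by ring
    _ = (Nat.card {e : Pr s → ZMod 3 | alt (lft e) ∈ S} *
        Nat.card (Fin s → Fin s → ZMod 3)) * Nat.card X := by
        rw [h1]
        ring
    _ = Nat.card {v : Fin s → Fin s → ZMod 3 // alt v ∈ S} * Nat.card X *
      Nat.card (Pr s → ZMod 3) := by
        rw [← h2]
        ring

end Pool.Agent.PT.EQD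

namespace Pool.Agent.PT

theorem EQD_thm : EQD := by
  intro s f G _ _ χ t hf h a C S ha
  have hsub : ∀ (P : G → Prop),
      Nat.card {x : {g : G // χ g = a} // P x.1} = Nat.card {g : G // χ g = a ∧ P g} := by
    intro P
    exact Nat.card_congr (Equiv.subtypeSubtypeEquivSubtypeInter (fun g => χ g = a) P)
  constructor
  · have h1 := EQD.main (fun x : {g : G // χ g = a} => C - t x.1) ?_ S
    · rw [hsub (fun g => alt (C - t g) ∈ S)] at h1
      exact h1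
    · intro e e'
      have h2 : ∀ e : EQD.Pr s → ZMod 3,
          Nat.card {x : {g : G // χ g = a} // EQD.rst (C - t x.1) = e} =
            Nat.card {g : G // χ g = a ∧ ∀ j i, j < i → t g j i = (C - EQD.lft e) j i} := by
        intro e
        rw [← hsub]
        refine Nat.card_congr (Equiv.subtypeEquivRight fun x => ?_)
        rw [EQD.rst_eq_iff]
        refine forall₃_congr fun j i _ => ?_
        show C j i - t x.1 j i = EQD.lft e j i ↔ t x.1 j i = C j i - EQD.lft e j i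
        constructor
        · intro h3
          rw [← h3]
          ring
        · intro h3
          rw [h3]
          ring
      rw [h2, h2]
      exact h a _ _ ha
  · have h1 := EQD.main (fun x : {g : G // χ g = a} => C + t x.1) ?_ S
    · rw [hsub (fun g => alt (C + t g) ∈ S)] at h1
      exact h1
    · intro e e'
      have h2 : ∀ e : EQD.Pr s → ZMod 3,
          Nat.card {x : {g : G // χ g = a} // EQD.rst (C + t x.1) = e} =
            Nat.card {g : G // χ g = a ∧ ∀ j i, j < i → t g j i = (EQD.lft e - C) j i} := by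
        intro e
        rw [← hsub]
        refine Nat.card_congr (Equiv.subtypeEquivRight fun x => ?_)
        rw [EQD.rst_eq_iff]
        refine forall₃_congr fun j i _ => ?_
        show C j i + t x.1 j i = EQD.lft e j i ↔ t x.1 j i = EQD.lft e j i - C j i
        constructor
        · intro h3
          rw [← h3]
          ring
        · intro h3
          rw [h3]
          ring
      rw [h2, h2]
      exact h a _ _ ha

end Pool.Agent.PT

end

section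

/-!
# The average rank of prime twists: tools for the local terms (`DP1` to `DP4`)

The lemmas of `PT/DCONST.lean` and `PTL/DC.lean` with `Eis` in place of `ℤ`.
-/

set_option autoImplicit false

namespace Pool.Agent.PTK

open Pool.Agent.Lib_helper18 Pool.Agent.Lib_helper18.Eis Pool.Agent.Lib_helper84.Cub
open Pool.Agent.PT

namespace DPA

open DCONST

lemma w_pow3 (i : ℕ) : (w ^ i) ^ 3 = 1 := by
  rw [← pow_mul, mul_comm, pow_mul, w_cube, one_pow]

lemma LfE_mul (p q r : Eis) (i : ℕ) :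
    LfE p q i r * (p ^ 2 - p * (q * w ^ i * r) + (q * w ^ i * r) ^ 2) =
      p ^ 3 + q ^ 3 * r ^ 3 := by
  have h2 := w_pow3 i
  unfold LfE
  linear_combination (q ^ 3 * r ^ 3) * h2

/-- The linear forms at good approximations have bounded valuation. -/
lemma LfE_ndvd {u b p q r : Eis} (hr : u ∣ r ^ 3 - b) (h : ¬ u ∣ p ^ 3 + b * q ^ 3) (i : ℕ) :
    ¬ u ∣ LfE p q i r := by
  intro hd
  apply h
  have h1 : p ^ 3 + b * q ^ 3 =
      LfE p q i r * (p ^ 2 - p * (q * w ^ i * r) + (q * w ^ i * r) ^ 2) -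
        q ^ 3 * (r ^ 3 - b) := by
    rw [LfE_mul]
    ring
  rw [h1]
  exact dvd_sub (dvd_mul_of_dvd_left hd _) (dvd_mul_of_dvd_right hr _)

lemma LfE_cont {u : Eis} {s : Eis → Eis → ZMod 3} {e : ℕ} (h : LSym u s e) {b p q r r' : Eis}
    {K : ℕ} (hn : ¬ u ^ (K + 1) ∣ p ^ 3 + b * q ^ 3)
    (hr : u ^ (K + 1) ∣ r ^ 3 - b) (hr' : u ^ (K + 1) ∣ r' ^ 3 - b)
    (hrr : u ^ (K + e) ∣ r' - r) {B : Eis} (hB : B ≠ 0) (i : ℕ) :
    s B (LfE p q i r') = s B (LfE p q i r) := by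
  have h1 := LfE_ndvd hr hn i
  have h2 := LfE_ndvd hr' hn i
  refine LSym.cont' h hB (ne_of_ndvd h1) (ne_of_ndvd h2) ?_
  have h3 : LfE p q i r' - LfE p q i r = (q * w ^ i) * (r' - r) := by
    unfold LfE
    ring
  rw [h3]
  refine dvd_mul_of_dvd_right ((pow_dvd_pow u ?_).trans hrr) _
  have := V_le_of_ndvd h.prime h1
  omega

/-- a fixed good approximation of a cube root -/
lemma exists_root {u : Eis} {s : Eis → Eis → ZMod 3} {e : ℕ} (h : LSym u s e)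
    {b p q p' q' : Eis} (hn : p ^ 3 + b * q ^ 3 ≠ 0) (hn' : p' ^ 3 + b * q' ^ 3 ≠ 0)
    (hLC : LCE u b) : ∃ r : Eis, (∀ i, LfE p q i r ≠ 0) ∧ (∀ i, LfE p' q' i r ≠ 0) ∧
      ∀ (B : Eis) (c : ZMod 3) (N0 : ℕ), B ≠ 0 → (∀ r : Eis, u ^ N0 ∣ r ^ 3 - b →
        ASE s B p q p' q' r = c) → ASE s B p q p' q' r = c := by
  have hu := h.prime
  set K := V u (p ^ 3 + b * q ^ 3) + V u (p' ^ 3 + b * q' ^ 3) with hK
  have k1 : ¬ u ^ (K + 1) ∣ p ^ 3 + b * q ^ 3 :=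
    ndvd_pow hu hn (Nat.le_add_right _ _)
  have k2 : ¬ u ^ (K + 1) ∣ p' ^ 3 + b * q' ^ 3 :=
    ndvd_pow hu hn' (Nat.le_add_left _ _)
  choose ρ hρ using hLC
  have hNu : 1 < N u := N_prime hu
  set m := (N u) ^ (K + e) with hm
  have hm0 : m ≠ 0 := pow_ne_zero _ (by omega)
  have : NeZero m := ⟨hm0⟩
  have hum : u ^ (K + e) ∣ ((m : ℤ) : Eis) := by
    have h1 : u ∣ ((N u : ℤ) : Eis) := by
      rw [N_cast, ← mul_conj]
      exact Dvd.intro _ rfl
    have h2 := pow_dvd_pow_of_dvd h1 (K + e)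
    rw [hm]
    push_cast
    push_cast at h2
    exact h2
  obtain ⟨y, hy⟩ := Finite.exists_infinite_fiber
    (fun N : ℕ => (((ρ N).re : ZMod m), ((ρ N).im : ZMod m)))
  have hinf : ((fun N : ℕ => (((ρ N).re : ZMod m), ((ρ N).im : ZMod m))) ⁻¹' {y}).Infinite :=
    Set.infinite_coe_iff.1 hy
  obtain ⟨N1, hN1, hN1'⟩ := hinf.exists_gt K
  have lev : ∀ N, K < N → u ^ (K + 1) ∣ (ρ N) ^ 3 - b :=
    fun N hN => (pow_dvd_pow u hN).trans (hρ N)
  refine ⟨ρ N1, fun i => ne_of_ndvd (LfE_ndvd (lev N1 hN1') k1 i),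
    fun i => ne_of_ndvd (LfE_ndvd (lev N1 hN1') k2 i), ?_⟩
  intro B c N0 hB hc
  obtain ⟨N2, hN2, hN2'⟩ := hinf.exists_gt (max K N0)
  have h2 := hc (ρ N2) ((pow_dvd_pow u ((le_max_right K N0).trans hN2'.le)).trans (hρ N2))
  have hrr : u ^ (K + e) ∣ ρ N1 - ρ N2 := by
    have h3 : (((ρ N2).re : ZMod m), ((ρ N2).im : ZMod m)) =
        (((ρ N1).re : ZMod m), ((ρ N1).im : ZMod m)) := by
      rw [Set.mem_preimage, Set.mem_singleton_iff] at hN1 hN2
      rw [hN1, hN2]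
    rw [Prod.mk.injEq] at h3
    have h4 : (m : ℤ) ∣ (ρ N1).re - (ρ N2).re := (ZMod.intCast_eq_intCast_iff_dvd_sub _ _ _).1 h3.1
    have h5 : (m : ℤ) ∣ (ρ N1).im - (ρ N2).im := (ZMod.intCast_eq_intCast_iff_dvd_sub _ _ _).1 h3.2
    have h6 : ((m : ℤ) : Eis) ∣ ρ N1 - ρ N2 := intCast_dvd_iff.2 ⟨by simpa using h4, by simpa using h5⟩
    exact hum.trans h6
  have l2 := lev N2 ((le_max_left K N0).trans_lt hN2')
  have l1 := lev N1 hN1'
  rw [← h2]
  unfold ASE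
  rw [LfE_cont h k1 l2 l1 hrr hB 2, LfE_cont h k2 l2 l1 hrr hB 1, LfE_cont h k1 l2 l1 hrr hB 1,
    LfE_cont h k2 l2 l1 hrr hB 2]

lemma ASE_mul {u : Eis} {s : Eis → Eis → ZMod 3} {e : ℕ} (h : LSym u s e) {p q p' q' r : Eis}
    (hr : ∀ i, LfE p q i r ≠ 0) (hr' : ∀ i, LfE p' q' i r ≠ 0) {A B : Eis} (hA : A ≠ 0)
    (hB : B ≠ 0) : ASE s (A * B) p q p' q' r = ASE s A p q p' q' r + ASE s B p q p' q' r := by
  unfold ASE
  rw [h.mul A B _ hA hB (hr 2), h.mul A B _ hA hB (hr' 1), h.mul A B _ hA hB (hr 1),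
    h.mul A B _ hA hB (hr' 2)]
  ring

lemma ASE_pow {u : Eis} {s : Eis → Eis → ZMod 3} {e : ℕ} (h : LSym u s e) {p q p' q' r : Eis}
    (hr : ∀ i, LfE p q i r ≠ 0) (hr' : ∀ i, LfE p' q' i r ≠ 0) {B : Eis}
    (hB : B ≠ 0) (E : ℕ) : ASE s (B ^ E) p q p' q' r = E * ASE s B p q p' q' r := by
  induction E with
  | zero =>
    have h1 := ASE_mul h hr hr' (A := 1) (B := 1) one_ne_zero one_ne_zero
    rw [mul_one] at h1
    rw [pow_zero, Nat.cast_zero, zero_mul]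
    exact left_eq_add.1 h1
  | succ E ih =>
    rw [pow_succ, ASE_mul h hr hr' (pow_ne_zero _ hB) hB, ih]
    push_cast
    ring

lemma ASE_cont {u : Eis} {s : Eis → Eis → ZMod 3} {e : ℕ} (h : LSym u s e) {p q p' q' r : Eis}
    (hr : ∀ i, LfE p q i r ≠ 0) (hr' : ∀ i, LfE p' q' i r ≠ 0) {A B : Eis} (hA : A ≠ 0)
    (hd : u ^ (V u A + e) ∣ B - A) : ASE s B p q p' q' r = ASE s A p q p' q' r := by
  unfold ASE
  rw [h.cont _ _ _ hA (hr 2) hd, h.cont _ _ _ hA (hr' 1) hd,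
    h.cont _ _ _ hA (hr 1) hd, h.cont _ _ _ hA (hr' 2) hd]

/-- powers in the first variable -/
lemma s_pow {u : Eis} {s : Eis → Eis → ZMod 3} {e : ℕ} (h : LSym u s e) {a B : Eis}
    (ha : a ≠ 0) (hB : B ≠ 0) (E : ℕ) : s (B ^ E) a = E * s B a := by
  induction E with
  | zero =>
    have h1 := h.mul 1 1 a one_ne_zero one_ne_zero ha
    rw [mul_one] at h1
    rw [pow_zero, Nat.cast_zero, zero_mul]
    exact left_eq_add.1 h1
  | succ E ih =>
    rw [pow_succ, h.mul _ _ a (pow_ne_zero _ hB) hB ha, ih]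
    push_cast
    ring

lemma three_zero (a : ZMod 3) : 3 * a = 0 := by
  have h : (3 : ZMod 3) = 0 := rfl
  rw [h, zero_mul]

lemma s_cube {u : Eis} {s : Eis → Eis → ZMod 3} {e : ℕ} (h : LSym u s e) {a c : Eis}
    (ha : a ≠ 0) (hc : c ≠ 0) : s (c ^ 3) a = 0 := by
  rw [s_pow h ha hc 3]
  exact three_zero _

/-- the symbol does not see cubes and the relation `x n = B c³` -/
lemma s_rel {u : Eis} {s : Eis → Eis → ZMod 3} {e : ℕ} (h : LSym u s e) {x n B c a : Eis}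
    (hx : x ≠ 0) (hn : n ≠ 0) (hB : B ≠ 0) (hc : c ≠ 0) (ha : a ≠ 0)
    (hE : x * n = B * c ^ 3) : s x a + s n a = s B a := by
  rw [← h.mul x n a hx hn ha, hE, h.mul B (c ^ 3) a hB (pow_ne_zero _ hc) ha, s_cube h ha hc,
    add_zero]

lemma ASE_rel {u : Eis} {s : Eis → Eis → ZMod 3} {e : ℕ} (h : LSym u s e) {p q p' q' r : Eis}
    (hr : ∀ i, LfE p q i r ≠ 0) (hr' : ∀ i, LfE p' q' i r ≠ 0) {x n B c : Eis}
    (hx : x ≠ 0) (hn : n ≠ 0) (hB : B ≠ 0) (hc : c ≠ 0)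
    (hE : x * n = B * c ^ 3) :
    ASE s x p q p' q' r + ASE s n p q p' q' r = ASE s B p q p' q' r := by
  unfold ASE
  rw [← s_rel h hx hn hB hc (hr 2) hE, ← s_rel h hx hn hB hc (hr' 1) hE,
    ← s_rel h hx hn hB hc (hr 1) hE, ← s_rel h hx hn hB hc (hr' 2) hE]
  ring

/-- the linear forms do not vanish at good approximations -/
lemma exists_ne {u : Eis} (hu : Prime u) {b p q : Eis} (hn : p ^ 3 + b * q ^ 3 ≠ 0) :
    ∃ N0 : ℕ, ∀ r : Eis, u ^ N0 ∣ r ^ 3 - b → ∀ i, LfE p q i r ≠ 0 := by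
  refine ⟨V u (p ^ 3 + b * q ^ 3) + 1, fun r hr i => ?_⟩
  exact ne_of_ndvd (LfE_ndvd hr (ndvd_pow hu hn le_rfl) i)

/-- numbers prime to `f` -/
lemma V_cop {u : Eis} (hu : Prime u) {f : ℕ} (huf : u ∣ (f : Eis)) {a : ℤ}
    (ha : IsCoprime a (f : ℤ)) : V u (a : Eis) = 0 := by
  apply V_eq_zero
  intro hd
  obtain ⟨x, y, hxy⟩ := ha
  apply hu.not_isUnit
  apply isUnit_of_dvd_one
  have h1 : (1 : Eis) = (x : Eis) * (a : Eis) + (y : Eis) * (f : Eis) := by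
    have h2 := congrArg (fun t : ℤ => (t : Eis)) hxy
    simp only [Int.cast_add, Int.cast_mul, Int.cast_one, Int.cast_natCast] at h2
    exact h2.symm
  rw [h1]
  exact dvd_add (dvd_mul_of_dvd_right hd _) (dvd_mul_of_dvd_right huf _)

lemma ne_cop {f : ℕ} (hf : 1 < f) {a : ℤ} (ha : IsCoprime a (f : ℤ)) : (a : Eis) ≠ 0 := by
  apply DCONST.cast_ne
  rintro rfl
  have h1 := isCoprime_zero_left.1 ha
  have h2 := Int.isUnit_iff.1 h1
  omega

/-- A function of the first variable `B` which is additive and continuous is, for `B = N Q^E`,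
a constant plus `E` times a character of `Q`. -/
lemma exists_char {u : Eis} (hu : Prime u) {e f : ℕ} (he : 1 ≤ e) (hf : 1 < f)
    (huf : u ^ e ∣ (f : Eis)) (R : Eis → ZMod 3)
    (hmul : ∀ A B : Eis, A ≠ 0 → B ≠ 0 → R (A * B) = R A + R B)
    (hcont : ∀ A B : Eis, A ≠ 0 → B ≠ 0 → u ^ (V u A + e) ∣ B - A → R B = R A)
    {n : Eis} (hn : n ≠ 0) :
    ∃ (C : ZMod 3) (Φ : (ZMod f)ˣ →* Multiplicative (ZMod 3)),
      ∀ (E Q : ℕ) (hQ : Q.Coprime f),
      R (n * (Q : Eis) ^ E) = C + E * (Φ (ZMod.unitOfCoprime Q hQ)).toAdd := by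
  have huf1 : u ∣ (f : Eis) := by
    have h1 : u ^ 1 ∣ u ^ e := pow_dvd_pow u he
    rw [pow_one] at h1
    exact h1.trans huf
  have hpow : ∀ (B : Eis), B ≠ 0 → ∀ E : ℕ, R (B ^ E) = E * R B := by
    intro B hB E
    induction E with
    | zero =>
      have h1 := hmul 1 1 one_ne_zero one_ne_zero
      rw [mul_one] at h1
      rw [pow_zero, Nat.cast_zero, zero_mul]
      exact left_eq_add.1 h1
    | succ E ih =>
      rw [pow_succ, hmul _ _ (pow_ne_zero _ hB) hB, ih]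
      push_cast
      ring
  obtain ⟨Φ, hΦ⟩ := exists_hom hf (fun a : ℤ => R (a : Eis)) (by
    intro a c ha hc
    show R ((a * c : ℤ) : Eis) = _
    rw [Int.cast_mul]
    exact hmul _ _ (ne_cop hf ha) (ne_cop hf hc)) (by
    intro a c ha hc hd
    refine hcont _ _ (ne_cop hf ha) (ne_cop hf hc) ?_
    rw [V_cop hu huf1 ha, zero_add, ← Int.cast_sub]
    have h2 : ((f : ℤ) : Eis) ∣ ((c - a : ℤ) : Eis) := intCast_dvd_intCast.2 hd
    rw [Int.cast_natCast] at h2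
    exact huf.trans h2)
  refine ⟨R n, Φ, ?_⟩
  intro E Q hQ
  have hQ0 : ((Q : ℤ) : Eis) ≠ 0 := ne_cop hf (Nat.isCoprime_iff_coprime.2 hQ)
  rw [hΦ, Int.cast_natCast] at *
  rw [hmul _ _ hn (pow_ne_zero _ hQ0), hpow _ hQ0]

/-- places where `b` is a cube -/
lemma place_LC {u : Eis} {s : Eis → Eis → ZMod 3} {e : ℕ} (h : LSym u s e)
    {b p q p' q' n : Eis} (hn0 : n ≠ 0) (hn : p ^ 3 + b * q ^ 3 ≠ 0)
    (hn' : p' ^ 3 + b * q' ^ 3 ≠ 0) (hLC : LCE u b) {f : ℕ} (hf : 1 < f)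
    (huf : u ^ e ∣ (f : Eis)) :
    ∃ (C : ZMod 3) (Φ : (ZMod f)ˣ →* Multiplicative (ZMod 3)),
      ∀ (E Q : ℕ) (hQ : Q.Coprime f) (c : ZMod 3) (N0 : ℕ),
      (∀ r : Eis, u ^ N0 ∣ r ^ 3 - b →
        ASE s (n * (Q : Eis) ^ E) p q p' q' r = c) →
      c = C + E * (Φ (ZMod.unitOfCoprime Q hQ)).toAdd := by
  obtain ⟨r, hr, hr', H⟩ := exists_root h hn hn' hLC
  obtain ⟨C, Φ, hΦ⟩ := exists_char h.prime h.pos hf huf (fun B => ASE s B p q p' q' r)
    (fun A B hA hB => ASE_mul h hr hr' hA hB) (fun A B hA _ hd => ASE_cont h hr hr' hA hd) hn0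
  refine ⟨C, Φ, ?_⟩
  intro E Q hQ c N0 hc
  have hQ0 : (Q : Eis) ≠ 0 := by
    have h1 : ((Q : ℤ) : Eis) ≠ 0 := ne_cop hf (Nat.isCoprime_iff_coprime.2 hQ)
    rwa [Int.cast_natCast] at h1
  rw [← hΦ E Q hQ]
  exact (H _ c N0 (mul_ne_zero hn0 (pow_ne_zero _ hQ0)) hc).symm

/-- the base and the norm are exchanged -/
lemma SolE_flip {b x p q p' q' : Eis} (h : SolE x b p q p' q') :
    SolE b x p (-p') (-q) q' := by
  refine ⟨⟨?_, ?_⟩, ?_, ?_, ?_⟩
  · linear_combination h.eq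
  · intro h0
    apply h.n2
    linear_combination h0
  · intro h0
    apply h.n1
    linear_combination h0
  · intro h0
    apply h.g1
    rw [← h0]
    unfold GfE
    ring
  · intro h0
    apply h.g2
    rw [← h0]
    unfold GfE
    ring

/-- the second norm -/
lemma SolE_n1' {x b p q p' q' : Eis} (h : SolE x b p q p' q') : p' ^ 3 + x * q' ^ 3 ≠ 0 := by
  intro h0
  apply h.n1
  rw [h.eq, h0, mul_zero]

lemma B_ne {N : ℕ} {b x p q p' q' : Eis} (HD : HypD N b x p q p' q') {E Q : ℕ} {X Y : Eis}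
    (HP : HypP N b x p q p' q' E Q X Y) : (N : Eis) * (Q : Eis) ^ E ≠ 0 := by
  have h1 : (N : Eis) ≠ 0 := by
    have h2 : ((N : ℤ) : Eis) ≠ 0 := DCONST.cast_ne (by have := HD.N0; omega)
    rwa [Int.cast_natCast] at h2
  have h3 : (Q : Eis) ≠ 0 := by
    have h2 : ((Q : ℤ) : Eis) ≠ 0 := DCONST.cast_ne (by have := HP.hQ.pos; omega)
    rwa [Int.cast_natCast] at h2
  exact mul_ne_zero h1 (pow_ne_zero _ h3)

lemma n0_ne {N : ℕ} {b x p q p' q' : Eis} (HD : HypD N b x p q p' q') {E Q : ℕ} {X Y : Eis}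
    (HP : HypP N b x p q p' q' E Q X Y) : X ^ 3 + x * Y ^ 3 ≠ 0 := by
  obtain ⟨c, hc, h⟩ := HP.pt.eq
  intro h0
  rw [h0, mul_zero] at h
  exact mul_ne_zero (B_ne HD HP) (pow_ne_zero _ hc) h.symm

/-- The local term at a tame place where `x` is a local cube. -/
lemma core (hIF4 : Stmt_IF4) (hLCI : Stmt_LCI) {π : PP} (hs : LSym π.1 (tm π.1) 1) {N : ℕ}
    {b x p q p' q' : Eis} (HD : HypD N b x p q p' q') {E Q : ℕ} {X Y : Eis}
    (HP : HypP N b x p q p' q' E Q X Y) (hL : LCE π.1 x) :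
    ∃ N0 : ℕ, ∀ ξ : Eis, π.1 ^ N0 ∣ ξ ^ 3 - x →
      (∀ i, LfE X Y i ξ ≠ 0) ∧
      (∀ a : Eis, a ≠ 0 → tm π.1 a (X ^ 3 + x * Y ^ 3) = tm π.1 a ((N : Eis) * (Q : Eis) ^ E)) ∧
      SVE (tm π.1) x p (-p') (-q) q' X Y =
        ASE (tm π.1) ((N : Eis) * (Q : Eis) ^ E) p q p' q' ξ +
          tm π.1 (LfE X Y 1 ξ) b - tm π.1 (LfE X Y 2 ξ) b := by
  have hB := B_ne HD HP
  have hn0 := n0_ne HD HP
  obtain ⟨c, hc, hE⟩ := HP.pt.eq
  obtain ⟨N1, H1⟩ := exists_ne hs.prime (b := x) HD.sol.n1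
  obtain ⟨N2, H2⟩ := exists_ne hs.prime (b := x) (SolE_n1' HD.sol)
  obtain ⟨N3, H3⟩ := exists_ne hs.prime (b := x) (p := X) (q := Y) hn0
  obtain ⟨N4, H4⟩ := hIF4 π.1 (tm π.1) 1 hs b x p (-p') (-q) q' X Y HD.hb HD.hx
    (SolE_flip HD.sol) HP.pt.hX HP.pt.hY hn0 HP.dn
  refine ⟨N1 + N2 + N3 + N4, fun ξ hξ => ?_⟩
  have g1 := H1 ξ ((pow_dvd_pow _ (by omega)).trans hξ)
  have g2 := H2 ξ ((pow_dvd_pow _ (by omega)).trans hξ)
  have g3 := H3 ξ ((pow_dvd_pow _ (by omega)).trans hξ)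
  have g4 := H4 ξ ((pow_dvd_pow _ (by omega)).trans hξ)
  have hx0 : ∀ a : Eis, a ≠ 0 → tm π.1 x a = 0 := fun a ha =>
    hLCI.2.2 π.1 (tm π.1) 1 x a hs hL HD.hx ha
  have hrel : ∀ a : Eis, a ≠ 0 →
      tm π.1 (X ^ 3 + x * Y ^ 3) a = tm π.1 ((N : Eis) * (Q : Eis) ^ E) a := by
    intro a ha
    have h1 := s_rel hs HD.hx hn0 hB hc ha hE
    rw [hx0 a ha, zero_add] at h1
    exact h1
  refine ⟨g3, ?_, ?_⟩
  · intro a ha
    rw [hs.skew (X ^ 3 + x * Y ^ 3) a hn0 ha, hs.skew ((N : Eis) * (Q : Eis) ^ E) a hB ha, hrel a ha]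
  · rw [g4, neg_neg, neg_neg]
    unfold ASE
    rw [hrel _ (g1 2), hrel _ (g2 1), hrel _ (g1 1), hrel _ (g2 2)]

/-- the tame symbol with an element proportional to `B` -/
lemma tm_prop {π a b B : Eis} (hb : tm π b B = 0) :
    (V π B : ZMod 3) * tm π a b = (V π b : ZMod 3) * tm π a B := by
  have h1 : (V π B : ZMod 3) * ch π b = (V π b : ZMod 3) * ch π B := by
    unfold tm at hb
    linear_combination hb
  unfold tm
  linear_combination (- (V π a : ZMod 3)) * h1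

end DPA

end Pool.Agent.PTK

end

section

/-!
# PTK_DP4: the local term of a point at `Q`
-/

set_option autoImplicit false

namespace Pool.Agent.PTK

open Pool.Agent.Lib_helper18 Pool.Agent.Lib_helper18.Eis Pool.Agent.Lib_helper84.Cub
open Pool.Agent.PT

namespace DP4

open DPA

/-- the symbol at an inert prime -/
lemma tm_inert {Q : Eis} {n : Eis} (hQ : Prime Q) (hn : ¬ Q ∣ n) {L : Eis}
    (hL : ¬ Q ∣ L) (E : ℕ) : tm Q (n * Q ^ E) L = - (E * sym Q L) := by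
  have h1 : V Q (n * Q ^ E) = E := by
    rw [V_mul_not_dvd hQ hn (pow_ne_zero _ hQ.ne_zero), V_pow hQ hQ.ne_zero, V_self, mul_one]
  have h2 : up Q L = L := by
    unfold up
    rw [V_eq_zero hL, pow_zero, EuclideanDomain.div_one]
  unfold tm
  rw [V_eq_zero hL, h1]
  unfold ch
  rw [h2]
  simp

lemma LfE_per (p q r : Eis) (i : ℕ) : LfE p q (i + 3) r = LfE p q i r := by
  unfold LfE
  rw [pow_add, w_cube, mul_one]

lemma LfE_shift (p q r : Eis) (i : ℕ) : LfE p q i (w * r) = LfE p q (i + 1) r := by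
  unfold LfE
  ring

lemma LfE_prod (p q r : Eis) : LfE p q 0 r * LfE p q 1 r * LfE p q 2 r = p ^ 3 + q ^ 3 * r ^ 3 := by
  have h1 : w ^ 3 = 1 := w_cube
  have h2 : w ^ 2 + w + 1 = 0 := w_rel
  unfold LfE
  linear_combination (q ^ 3 * r ^ 3) * h1 + (p ^ 2 * q * r + p * q ^ 2 * r ^ 2 * w) * h2

end DP4

open DPA _root_.Pool.Agent.PTK.DP4 in
/-- PTK_DP4. -/
theorem DP4_thm (hSTM : STM) (hSPP : SPP) (hIF4 : Stmt_IF4) (hLCI : Stmt_LCI) : Stmt_DP4 := by
  intro N b x p q p' q' HD π E Q X Y ξ HP hQ3 hπQ hπN hπM hξ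
  have h3 : ¬ π.1 ∣ 3 := (hSPP.2.2.2.1 π).1
  have hs : LSym π.1 (tm π.1) 1 := hSTM π.1 π.2.1 h3
  obtain ⟨hπb, hπx⟩ := HD.unr π hπN
  have hVx0 : V π.1 x = 0 := V_eq_zero hπx
  have hVb0 : V π.1 b = 0 := V_eq_zero hπb
  have hB := B_ne HD HP
  have hn0 := n0_ne HD HP
  have hVB : V π.1 ((N : Eis) * (Q : Eis) ^ E) = E := by
    rw [← hπQ, V_mul_not_dvd π.2.1 hπN (pow_ne_zero _ π.2.1.ne_zero), V_pow π.2.1 π.2.1.ne_zero,
      V_self, mul_one]
  have hE0 : (E : ZMod 3) ≠ 0 := by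
    rcases HP.hE with h | h
    · rw [h]; decide
    · rw [h]; decide
  have hcub : ∀ a : Eis, V π.1 a = 0 → tm π.1 a ((N : Eis) * (Q : Eis) ^ E) = 0 →
      ch π.1 a = 0 := by
    intro a ha h
    unfold tm at h
    rw [hVB, ha] at h
    simp only [Nat.cast_zero, zero_mul, sub_zero] at h
    exact (mul_eq_zero.1 h).resolve_left hE0
  have hLx : LCE π.1 x := (hLCI.1 π x HD.hx).2 ⟨by rw [hVx0]; exact dvd_zero 3,
    hcub x hVx0 (HP.sx π)⟩
  have hcb := hcub b hVb0 (HP.sb π)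
  have hLb : LCE π.1 b := (hLCI.1 π b HD.hb).2 ⟨by rw [hVb0]; exact dvd_zero 3, hcb⟩
  obtain ⟨N1, H1⟩ := core hIF4 hLCI hs HD HP hLx
  obtain ⟨ξ', hξ'⟩ := hLx (N1 + 1)
  obtain ⟨hF, -, h1⟩ := H1 ξ' ((pow_dvd_pow _ (by omega)).trans hξ')
  have h4 : π.1 ∣ ξ' ^ 3 - x := by
    have h4 : π.1 ^ 1 ∣ ξ' ^ 3 - x := (pow_dvd_pow _ (by omega)).trans hξ'
    rwa [pow_one] at h4
  have hb0 : ∀ i, tm π.1 (LfE X Y i ξ') b = 0 := by
    intro i
    rw [hs.skew b (LfE X Y i ξ') HD.hb (hF i),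
      hLCI.2.2 π.1 (tm π.1) 1 b _ hs hLb HD.hb (hF i), neg_zero]
  have hM1 : ¬ π.1 ∣ p ^ 3 + x * q ^ 3 := fun h => hπM (dvd_mul_of_dvd_left h _)
  have hM2 : ¬ π.1 ∣ p' ^ 3 + x * q' ^ 3 := fun h => hπM (dvd_mul_of_dvd_right h _)
  have k1 := LfE_ndvd (p := p) (q := q) h4 hM1
  have k2 := LfE_ndvd (p := p') (q := q') h4 hM2
  have hQe : (Q : Eis) = π.1 := hπQ.symm
  rw [hQe] at hξ
  rw [h1, hb0, hb0, add_zero, sub_zero]
  have h5 : ASE (tm π.1) ((N : Eis) * (Q : Eis) ^ E) p q p' q' ξ' = - (E * TAUE Q p q p' q' ξ') := by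
    unfold ASE TAUE
    rw [hQe, tm_inert π.2.1 hπN (k1 2), tm_inert π.2.1 hπN (k2 1), tm_inert π.2.1 hπN (k1 1),
      tm_inert π.2.1 hπN (k2 2)]
    ring
  rw [h5]
  congr 2
  -- independence of the cube root
  have hcongr : ∀ r r' : Eis, π.1 ∣ r - r' → TAUE Q p q p' q' r = TAUE Q p q p' q' r' := by
    intro r r' hr
    have h6 : ∀ (g h : Eis) (i : ℕ), sym (Q : Eis) (LfE g h i r) = sym (Q : Eis) (LfE g h i r') := by
      intro g h i
      apply sym_congr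
      have h7 : LfE g h i r - LfE g h i r' = (h * w ^ i) * (r - r') := by
        unfold LfE
        ring
      rw [h7, hQe]
      exact dvd_mul_of_dvd_right hr _
    unfold TAUE
    rw [h6, h6, h6, h6]
  have hshift : ∀ r : Eis, π.1 ∣ r ^ 3 - x → TAUE Q p q p' q' (w * r) = TAUE Q p q p' q' r := by
    intro r hr
    have m1 := LfE_ndvd (p := p) (q := q) hr hM1
    have m2 := LfE_ndvd (p := p') (q := q') hr hM2
    have h8 : sym π.1 (LfE p q 0 r) + sym π.1 (LfE p q 1 r) + sym π.1 (LfE p q 2 r) =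
        sym π.1 b + (sym π.1 (LfE p' q' 0 r) + sym π.1 (LfE p' q' 1 r) +
          sym π.1 (LfE p' q' 2 r)) := by
      rw [← sym_mul π.2.1 h3 (m1 0) (m1 1), ← sym_mul π.2.1 h3 (π.2.1.not_dvd_mul (m1 0) (m1 1)) (m1 2),
        ← sym_mul π.2.1 h3 (m2 0) (m2 1), ← sym_mul π.2.1 h3 (π.2.1.not_dvd_mul (m2 0) (m2 1)) (m2 2),
        ← sym_mul π.2.1 h3 hπb (π.2.1.not_dvd_mul (π.2.1.not_dvd_mul (m2 0) (m2 1)) (m2 2))]
      apply sym_congr
      rw [LfE_prod, LfE_prod]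
      have h9 : p ^ 3 + q ^ 3 * r ^ 3 - b * (p' ^ 3 + q' ^ 3 * r ^ 3) =
          (q ^ 3 - b * q' ^ 3) * (r ^ 3 - x) := by
        linear_combination HD.sol.eq
      rw [h9]
      exact dvd_mul_of_dvd_right hr _
    have h10 : sym π.1 b = 0 := by
      have h11 := hcb
      unfold ch up at h11
      rwa [hVb0, pow_zero, EuclideanDomain.div_one] at h11
    unfold TAUE
    rw [LfE_shift, LfE_shift, LfE_shift, LfE_shift, hQe]
    have e1 : LfE p q (2 + 1) r = LfE p q 0 r := LfE_per p q r 0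
    have e2 : LfE p' q' (2 + 1) r = LfE p' q' 0 r := LfE_per p' q' r 0
    rw [e1, e2]
    rw [h10] at h8
    have h12 : (3 : ZMod 3) = 0 := rfl
    linear_combination h8 - (sym π.1 (LfE p q 2 r) - sym π.1 (LfE p' q' 2 r)) * h12
  have hdiv : π.1 ∣ (ξ' - ξ) * (ξ' - w * ξ) * (ξ' - w * (w * ξ)) := by
    have h13 : (ξ' - ξ) * (ξ' - w * ξ) * (ξ' - w * (w * ξ)) = (ξ' ^ 3 - x) - (ξ ^ 3 - x) := by
      have h1 : w ^ 3 = 1 := w_cube
      have h2 : w ^ 2 + w + 1 = 0 := w_rel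
      linear_combination (- ξ ^ 3) * h1 + (- ξ' ^ 2 * ξ + ξ' * ξ ^ 2 * w) * h2
    rw [h13]
    exact dvd_sub h4 hξ
  have hw3 : ∀ r : Eis, π.1 ∣ r ^ 3 - x → π.1 ∣ (w * r) ^ 3 - x := by
    intro r hr
    rwa [mul_pow, w_cube, one_mul]
  rcases π.2.1.dvd_or_dvd hdiv with h | h
  · rcases π.2.1.dvd_or_dvd h with h | h
    · exact hcongr _ _ h
    · rw [hcongr _ _ h, hshift ξ hξ]
  · rw [hcongr _ _ h, hshift (w * ξ) (hw3 ξ hξ), hshift ξ hξ]

end Pool.Agent.PTK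

end

section

/-!
# PTK_DP1: the local terms of a point at a place dividing `f`
-/

set_option autoImplicit false

namespace Pool.Agent.PTK

open Pool.Agent.Lib_helper18 Pool.Agent.Lib_helper18.Eis Pool.Agent.Lib_helper84.Cub
open Pool.Agent.PT

namespace DP1

open DPA

lemma dvd3_iff (n : ℕ) : 3 ∣ n ↔ (n : ZMod 3) = 0 := (ZMod.natCast_eq_zero_iff n 3).symm

lemma V_B {π : PP} {f : ℕ} (hπf : π.1 ∣ (f : Eis)) {N : ℕ} {b x p q p' q' : Eis}
    (HD : HypD N b x p q p' q') {E Q : ℕ} {X Y : Eis} (HP : HypP N b x p q p' q' E Q X Y)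
    (hQ : Q.Coprime f) : V π.1 ((N : Eis) * (Q : Eis) ^ E) = V π.1 (N : Eis) := by
  have hB := B_ne HD HP
  have hN : (N : Eis) ≠ 0 := left_ne_zero_of_mul hB
  have hQE := right_ne_zero_of_mul hB
  have hQ0 : (Q : Eis) ≠ 0 := by
    have h2 : ((Q : ℤ) : Eis) ≠ 0 := DCONST.cast_ne (by have := HP.hQ.pos; omega)
    rwa [Int.cast_natCast] at h2
  have h1 := V_cop π.2.1 hπf (Nat.isCoprime_iff_coprime.2 hQ)
  rw [Int.cast_natCast] at h1
  rw [V_mul π.2.1 hN hQE, V_pow π.2.1 hQ0, h1, mul_zero, add_zero]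

end DP1

open DPA _root_.Pool.Agent.PTK.DP1 in
/-- PTK_DP1. -/
theorem DP1_thm (hSTM : STM) (hSPP : SPP) (hIF4 : Stmt_IF4) (hIF4B : Stmt_IF4B)
    (hF6R : Stmt_F6R) (hF7U : Stmt_F7U) (hLFV : Stmt_LFV) (hLCI : Stmt_LCI) : Stmt_DP1 := by
  intro N b x p q p' q' HD π f hf hπf
  have hs : LSym π.1 (tm π.1) 1 := hSTM π.1 π.2.1 (hSPP.2.2.2.1 π).1
  have hN : (N : Eis) ≠ 0 := by
    have h2 : ((N : ℤ) : Eis) ≠ 0 := DCONST.cast_ne (by have := HD.N0; omega)
    rwa [Int.cast_natCast] at h2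
  by_cases hVx : 3 ∣ V π.1 x
  · by_cases hcx : ch π.1 x = 0
    · -- `x` is a local cube
      have hL : LCE π.1 x := (hLCI.1 π x HD.hx).2 ⟨hVx, hcx⟩
      obtain ⟨C, Φ, H⟩ := place_LC hs hN HD.sol.n1 (SolE_n1' HD.sol) hL hf (by rwa [pow_one])
      classical
      refine ⟨C + (if π.1 ∣ (N : Eis) ∧ ¬ 3 ∣ V π.1 b then (V π.1 b : ZMod 3) * ch π.1 w else 0),
        Φ, ?_⟩
      intro E Q hQ X Y HP
      have hB := B_ne HD HP
      have hn0 := n0_ne HD HP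
      have hVB := V_B hπf HD HP hQ
      obtain ⟨N0, H0⟩ := core hIF4 hLCI hs HD HP hL
      -- the terms with `b`
      have hterm : ∃ N1 : ℕ, ∀ ξ : Eis, π.1 ^ N1 ∣ ξ ^ 3 - x →
          tm π.1 (LfE X Y 1 ξ) b - tm π.1 (LfE X Y 2 ξ) b =
            if π.1 ∣ (N : Eis) ∧ ¬ 3 ∣ V π.1 b then (V π.1 b : ZMod 3) * ch π.1 w else 0 := by
        by_cases hπN : π.1 ∣ (N : Eis)
        · have hVN : (V π.1 ((N : Eis) * (Q : Eis) ^ E) : ZMod 3) ≠ 0 := by
            rw [hVB]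
            have h1 := HD.cf π
            have h2 : V π.1 (N : Eis) ≠ 0 := fun h => (V_eq_zero_iff.1 h) hπN
            rw [Ne, ← dvd3_iff]
            omega
          by_cases hVb : 3 ∣ V π.1 b
          · -- `b` is a local cube
            have hcb : ch π.1 b = 0 := by
              have h1 := HP.sb π
              unfold tm at h1
              rw [(dvd3_iff _).1 hVb, zero_mul, sub_zero] at h1
              exact (mul_eq_zero.1 h1).resolve_left hVN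
            have hLb : LCE π.1 b := (hLCI.1 π b HD.hb).2 ⟨hVb, hcb⟩
            refine ⟨N0, fun ξ hξ => ?_⟩
            obtain ⟨hF, -, -⟩ := H0 ξ hξ
            have h0 : ∀ i, tm π.1 (LfE X Y i ξ) b = 0 := by
              intro i
              rw [hs.skew b (LfE X Y i ξ) HD.hb (hF i),
                hLCI.2.2 π.1 (tm π.1) 1 b _ hs hLb HD.hb (hF i), neg_zero]
            rw [h0, h0, if_neg (by tauto), sub_zero]
          · obtain ⟨N2, H2⟩ := hIF4B π.1 (tm π.1) 1 hs x X Y HD.hx HP.pt.hX HP.pt.hY hn0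
            refine ⟨N0 + N2, fun ξ hξ => ?_⟩
            obtain ⟨hF, hrel, -⟩ := H0 ξ ((pow_dvd_pow _ (by omega)).trans hξ)
            have h2 := H2 ξ ((pow_dvd_pow _ (by omega)).trans hξ)
            rw [if_pos ⟨hπN, hVb⟩]
            have hw0 : w ≠ 0 := by
              intro h
              have := congrArg Eis.im h
              simp at this
            rw [hrel _ (hF 1), hrel _ (hF 2), hrel _ hw0] at h2
            have hw : tm π.1 w ((N : Eis) * (Q : Eis) ^ E) =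
                (V π.1 ((N : Eis) * (Q : Eis) ^ E) : ZMod 3) * ch π.1 w := by
              unfold tm
              rw [V_eq_zero (not_dvd_w π.2.1)]
              simp
            rw [hw] at h2
            refine mul_left_cancel₀ hVN ?_
            rw [mul_sub, tm_prop (HP.sb π), tm_prop (HP.sb π), ← mul_sub, h2]
            ring
        · -- `π` does not divide `N`
          obtain ⟨hπb, hπx⟩ := HD.unr π hπN
          have hVx0 : V π.1 x = 0 := V_eq_zero hπx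
          have hVb0 : V π.1 b = 0 := V_eq_zero hπb
          have hVB0 : V π.1 ((N : Eis) * (Q : Eis) ^ E) = 0 := by
            rw [hVB]
            exact V_eq_zero hπN
          obtain ⟨c, hc, hE⟩ := HP.pt.eq
          have hVn : 3 ∣ V π.1 (X ^ 3 + x * Y ^ 3) := by
            have h1 := congrArg (V π.1) hE
            rw [V_mul π.2.1 HD.hx hn0, V_mul π.2.1 hB (pow_ne_zero _ hc), V_pow π.2.1 hc, hVx0,
              hVB0] at h1
            omega
          obtain ⟨N2, H2⟩ := hLFV π x X Y HD.hx HP.pt.hX HP.pt.hY hn0 hVx hVn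
          refine ⟨N2, fun ξ hξ => ?_⟩
          rw [if_neg (by tauto)]
          unfold tm
          rw [H2 ξ hξ, hVb0]
          simp
      obtain ⟨N1, H1⟩ := hterm
      have h3 := H E Q hQ (SVE (tm π.1) x p (-p') (-q) q' X Y -
        (if π.1 ∣ (N : Eis) ∧ ¬ 3 ∣ V π.1 b then (V π.1 b : ZMod 3) * ch π.1 w else 0))
        (N0 + N1) (fun ξ hξ => by
          obtain ⟨-, -, h4⟩ := H0 ξ ((pow_dvd_pow _ (by omega)).trans hξ)
          rw [h4, ← H1 ξ ((pow_dvd_pow _ (by omega)).trans hξ)]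
          ring)
      linear_combination h3
    · -- `x` is not a local cube
      refine ⟨0, 1, ?_⟩
      intro E Q hQ X Y HP
      rw [hF7U π b x p (-p') (-q) q' X Y HD.hb HD.hx (SolE_flip HD.sol) HP.pt.hX HP.pt.hY HP.dn
        hVx hcx]
      simp
  · -- the valuation of `x` is prime to `3`
    classical
    refine ⟨if (V π.1 (N : Eis) : ZMod 3) = (V π.1 x : ZMod 3) then 0 else - tm π.1 w b, 1, ?_⟩
    intro E Q hQ X Y HP
    have hB := B_ne HD HP
    have hn0 := n0_ne HD HP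
    have hVB := V_B hπf HD HP hQ
    obtain ⟨c, hc, hE⟩ := HP.pt.eq
    have h1 := congrArg (V π.1) hE
    rw [V_mul π.2.1 HD.hx hn0, V_mul π.2.1 hB (pow_ne_zero _ hc), V_pow π.2.1 hc, hVB] at h1
    have h2 : (V π.1 x : ZMod 3) + (V π.1 (X ^ 3 + x * Y ^ 3) : ZMod 3) =
        (V π.1 (N : Eis) : ZMod 3) := by
      have h3 := congrArg (fun n : ℕ => (n : ZMod 3)) h1
      simp only [Nat.cast_add, Nat.cast_mul] at h3
      rw [h3]
      have h4 : ((3 : ℕ) : ZMod 3) = 0 := rfl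
      rw [h4, zero_mul, add_zero]
    obtain ⟨k1, k2⟩ := hF6R π b x p (-p') (-q) q' X Y HD.hb HD.hx (SolE_flip HD.sol) HP.pt.hX
      HP.pt.hY HP.dn hVx
    by_cases hv : (V π.1 (N : Eis) : ZMod 3) = (V π.1 x : ZMod 3)
    · rw [if_pos hv, k1 ((dvd3_iff _).2 (by linear_combination h2 + hv))]
      simp
    · rw [if_neg hv, k2 (fun h => hv (by
        rw [dvd3_iff] at h
        rw [h] at h2
        linear_combination - h2))]
      simp

end Pool.Agent.PTK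

end

section

/-!
# PTK_DP3: the local terms of a point vanish outside
-/

set_option autoImplicit false

namespace Pool.Agent.PTK

open Pool.Agent.Lib_helper18 Pool.Agent.Lib_helper18.Eis Pool.Agent.Lib_helper84.Cub
open Pool.Agent.PT

open DPA in
/-- PTK_DP3. -/
theorem DP3_thm (hSTM : STM) (hSPP : SPP) (hIF4 : Stmt_IF4) (hF7U : Stmt_F7U)
    (hLFV : Stmt_LFV) (hLCI : Stmt_LCI) : Stmt_DP3 := by
  intro N b x p q p' q' HD π E Q X Y HP hπN hπQ hπM
  have hs : LSym π.1 (tm π.1) 1 := hSTM π.1 π.2.1 (hSPP.2.2.2.1 π).1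
  obtain ⟨hπb, hπx⟩ := HD.unr π hπN
  have hVx0 : V π.1 x = 0 := V_eq_zero hπx
  have hVb0 : V π.1 b = 0 := V_eq_zero hπb
  have hVx : 3 ∣ V π.1 x := by rw [hVx0]; exact dvd_zero 3
  by_cases hcx : ch π.1 x = 0
  · have hL : LCE π.1 x := (hLCI.1 π x HD.hx).2 ⟨hVx, hcx⟩
    have hB := B_ne HD HP
    have hn0 := n0_ne HD HP
    have hπB : ¬ π.1 ∣ (N : Eis) * (Q : Eis) ^ E := by
      intro h
      rcases π.2.1.dvd_or_dvd h with h1 | h1
      · exact hπN h1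
      · exact hπQ (π.2.1.dvd_of_dvd_pow h1)
    have hVB0 : V π.1 ((N : Eis) * (Q : Eis) ^ E) = 0 := V_eq_zero hπB
    obtain ⟨c, hc, hE⟩ := HP.pt.eq
    have hVn : 3 ∣ V π.1 (X ^ 3 + x * Y ^ 3) := by
      have h1 := congrArg (V π.1) hE
      rw [V_mul π.2.1 HD.hx hn0, V_mul π.2.1 hB (pow_ne_zero _ hc), V_pow π.2.1 hc, hVx0,
        hVB0] at h1
      omega
    obtain ⟨N1, H1⟩ := core hIF4 hLCI hs HD HP hL
    obtain ⟨N2, H2⟩ := hLFV π x X Y HD.hx HP.pt.hX HP.pt.hY hn0 hVx hVn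
    obtain ⟨ξ, hξ⟩ := hL (N1 + N2 + 1)
    obtain ⟨-, -, h1⟩ := H1 ξ ((pow_dvd_pow _ (by omega)).trans hξ)
    have h2 := H2 ξ ((pow_dvd_pow _ (by omega)).trans hξ)
    have h3 : π.1 ∣ ξ ^ 3 - x := by
      have h4 : π.1 ^ 1 ∣ ξ ^ 3 - x := (pow_dvd_pow _ (by omega)).trans hξ
      rwa [pow_one] at h4
    have k1 := LfE_ndvd (p := p) (q := q) h3 (fun h => hπM (dvd_mul_of_dvd_left h _))
    have k2 := LfE_ndvd (p := p') (q := q') h3 (fun h => hπM (dvd_mul_of_dvd_right h _))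
    have h5 : tm π.1 (LfE X Y 1 ξ) b - tm π.1 (LfE X Y 2 ξ) b = 0 := by
      unfold tm
      rw [h2, hVb0]
      simp
    rw [h1, add_sub_assoc, h5, add_zero]
    unfold ASE
    rw [DCONST.tm_zero hπB (k1 2), DCONST.tm_zero hπB (k2 1), DCONST.tm_zero hπB (k1 1),
      DCONST.tm_zero hπB (k2 2)]
    simp
  · exact hF7U π b x p (-p') (-q) q' X Y HD.hb HD.hx (SolE_flip HD.sol) HP.pt.hX HP.pt.hY HP.dn
      hVx hcx

end Pool.Agent.PTK

end

section

/-!
# LFV: the valuations of the linear forms of a point when `x` is a local cube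
-/

set_option autoImplicit false

namespace Pool.Agent.PTK

open Pool.Agent.Lib_helper18 Pool.Agent.Lib_helper18.Eis Pool.Agent.Lib_helper84.Cub
open Pool.Agent.PT

namespace LFV

theorem prod3 (X T : Eis) :
    (X + w ^ 0 * T) * (X + w ^ 1 * T) * (X + w ^ 2 * T) = X ^ 3 + T ^ 3 := by
  have h1 := w_rel
  have h2 := w_cube
  linear_combination (X + T) * X * T * h1 + (X + T) * T ^ 2 * h2

/-- Two of the three linear forms cannot both be divisible by `l`. -/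
theorem two_forms {l X T : Eis} (hl : Prime l) (h3 : ¬ l ∣ 3) (h : ¬ (l ∣ X ∧ l ∣ T))
    {i j : ℕ} (hij : (i : ZMod 3) ≠ j) (hi : l ∣ X + w ^ i * T) (hj : l ∣ X + w ^ j * T) :
    False := by
  have h1 : l ∣ (w ^ i - w ^ j) * T := by
    have e : (w ^ i - w ^ j) * T = (X + w ^ i * T) - (X + w ^ j * T) := by ring
    rw [e]
    exact dvd_sub hi hj
  rcases hl.dvd_or_dvd h1 with h2 | h2
  · exact hij (w_pow_sub_dvd h3 h2)
  · refine h ⟨?_, h2⟩
    exact (dvd_add_left (h2.mul_left _)).1 hi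

end LFV

open _root_.Pool.Agent.PTK.LFV in
theorem LFV_thm (hSPP : SPP) : Stmt_LFV := by
  intro π x X Y hx hX hY hn _ hn3
  have hπ := π.2.1
  have h3 := (hSPP.2.2.2.1 π).1
  refine ⟨V π.1 x + V π.1 (X ^ 3 + x * Y ^ 3) + 1, fun ξ hξ => ?_⟩
  set N0 : ℕ := V π.1 x + V π.1 (X ^ 3 + x * Y ^ 3) + 1 with hN0
  have hξ' : π.1 ^ N0 ∣ x - ξ ^ 3 := by
    rw [← dvd_neg, neg_sub]
    exact hξ
  obtain ⟨hξ3, -⟩ := V_congr hπ hξ' hx (by omega)
  have hξ0 : ξ ≠ 0 := by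
    rintro rfl
    exact hξ3 (by ring)
  have hT0 : Y * ξ ≠ 0 := mul_ne_zero hY hξ0
  -- the product
  have hd : π.1 ^ N0 ∣ (X ^ 3 + x * Y ^ 3) - (X ^ 3 + (Y * ξ) ^ 3) := by
    have e : (X ^ 3 + x * Y ^ 3) - (X ^ 3 + (Y * ξ) ^ 3) = (x - ξ ^ 3) * Y ^ 3 := by ring
    rw [e]
    exact Dvd.dvd.mul_right hξ' _
  obtain ⟨hne, hV⟩ := V_congr hπ hd hn (by omega)
  -- the common power
  set m : ℕ := min (V π.1 X) (V π.1 (Y * ξ)) with hm
  obtain ⟨X', hX'⟩ : π.1 ^ m ∣ X :=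
    (pow_dvd_pow _ (min_le_left _ _)).trans (pow_multiplicity_dvd _ _)
  obtain ⟨T', hT'⟩ : π.1 ^ m ∣ Y * ξ :=
    (pow_dvd_pow _ (min_le_right _ _)).trans (pow_multiplicity_dvd _ _)
  have hnd : ¬ (π.1 ∣ X' ∧ π.1 ∣ T') := by
    rintro ⟨⟨a, ha⟩, b, hb⟩
    have h4 : m + 1 ≤ V π.1 X := (fin hπ hX).le_multiplicity_of_pow_dvd
      ⟨a, by rw [hX', ha, pow_succ]; ring⟩
    have h5 : m + 1 ≤ V π.1 (Y * ξ) := (fin hπ hT0).le_multiplicity_of_pow_dvd
      ⟨b, by rw [hT', hb, pow_succ]; ring⟩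
    have h6 : m + 1 ≤ m := by
      conv_rhs => rw [hm]
      exact le_min h4 h5
    omega
  have hF : ∀ i : ℕ, X + w ^ i * (Y * ξ) = π.1 ^ m * (X' + w ^ i * T') := by
    intro i
    rw [hX', hT']
    ring
  have hprod := prod3 X (Y * ξ)
  have hpne : (X + w ^ 0 * (Y * ξ)) * (X + w ^ 1 * (Y * ξ)) * (X + w ^ 2 * (Y * ξ)) ≠ 0 := by
    rw [hprod]
    exact hne
  have n0 : X + w ^ 0 * (Y * ξ) ≠ 0 := fun h => hpne (by rw [h, zero_mul, zero_mul])
  have n1 : X + w ^ 1 * (Y * ξ) ≠ 0 := fun h => hpne (by rw [h, mul_zero, zero_mul])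
  have n2 : X + w ^ 2 * (Y * ξ) ≠ 0 := fun h => hpne (by rw [h, mul_zero])
  have hVF : ∀ i : ℕ, X + w ^ i * (Y * ξ) ≠ 0 →
      V π.1 (X + w ^ i * (Y * ξ)) = m + V π.1 (X' + w ^ i * T') := by
    intro i hi
    have h4 : X' + w ^ i * T' ≠ 0 := by
      intro h
      apply hi
      rw [hF, h, mul_zero]
    rw [hF, V_mul hπ (pow_ne_zero _ hπ.ne_zero) h4, V_pow hπ hπ.ne_zero, V_self, mul_one]
  have hsum : 3 ∣ V π.1 (X' + w ^ 0 * T') + V π.1 (X' + w ^ 1 * T') + V π.1 (X' + w ^ 2 * T') := by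
    have h4 : V π.1 ((X + w ^ 0 * (Y * ξ)) * (X + w ^ 1 * (Y * ξ)) * (X + w ^ 2 * (Y * ξ))) =
        V π.1 (X ^ 3 + x * Y ^ 3) := by
      rw [hprod, hV]
    rw [V_mul hπ (mul_ne_zero n0 n1) n2, V_mul hπ n0 n1, hVF 0 n0, hVF 1 n1, hVF 2 n2] at h4
    omega
  have z : ∀ i j : ℕ, (i : ZMod 3) ≠ j → V π.1 (X' + w ^ i * T') ≠ 0 →
      V π.1 (X' + w ^ j * T') = 0 := by
    intro i j hij hi
    by_contra hj
    have h4 : π.1 ∣ X' + w ^ i * T' := by
      by_contra h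
      exact hi (V_eq_zero h)
    have h5 : π.1 ∣ X' + w ^ j * T' := by
      by_contra h
      exact hj (V_eq_zero h)
    exact two_forms hπ h3 hnd hij h4 h5
  have e : ∀ i : ℕ, LfE X Y i ξ = X + w ^ i * (Y * ξ) := by
    intro i
    unfold LfE
    ring
  rw [e, e, hVF 1 n1, hVF 2 n2, ZMod.natCast_eq_natCast_iff']
  have d01 : ((0 : ℕ) : ZMod 3) ≠ ((1 : ℕ) : ZMod 3) := by decide
  have d02 : ((0 : ℕ) : ZMod 3) ≠ ((2 : ℕ) : ZMod 3) := by decide
  have d12 : ((1 : ℕ) : ZMod 3) ≠ ((2 : ℕ) : ZMod 3) := by decide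
  by_cases h4 : V π.1 (X' + w ^ 1 * T') = 0
  · by_cases h5 : V π.1 (X' + w ^ 2 * T') = 0
    · rw [h4, h5]
    · have h6 := z 2 0 d02.symm h5
      rw [h4, h6] at hsum
      omega
  · have h5 := z 1 2 d12 h4
    have h6 := z 1 0 d01.symm h4
    rw [h5, h6] at hsum
    omega

end Pool.Agent.PTK

end

section

/-!
# PTK, module NDS: the solution as a quotient of linear forms (helper54)
-/

set_option autoImplicit false

open NumberField IsDedekindDomain Finset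
open scoped nonZeroDivisors Pointwise

namespace Pool.Agent.PTK

open Pool.Agent.Lib_helper18 Pool.Agent.Lib_helper18.Eis Pool.Agent.Lib_helper84.Cub
open Pool.Agent.PT

namespace NDS

variable {x : Eis} {L : Type} [Field L] [NumberField L] {ι : Eis →+* L} {θ : L} {σ : L ≃ₐ[ℚ] L}

theorem norm_lin (h : CubE x L ι θ σ) (α β : Eis) :
    (ι α + ι β * θ) * σ (ι α + ι β * θ) * σ (σ (ι α + ι β * θ)) = ι (α ^ 3 + x * β ^ 3) := by
  have hw : ι w ^ 2 + ι w + 1 = 0 := by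
    have : w ^ 2 + w + 1 = (0 : Eis) := by
      decide
    rw [← map_pow, ← map_one ι, ← map_add, ← map_add, this, map_zero]
  have h3 : ι w ^ 3 = 1 := by
    linear_combination (ι w - 1) * hw
  have e1 : σ (ι α + ι β * θ) = ι α + ι β * (ι w * θ) := by
    rw [map_add, map_mul, h.sι, h.sι, h.sθ]
  have e2 : σ (σ (ι α + ι β * θ)) = ι α + ι β * (ι w * (ι w * θ)) := by
    rw [e1, map_add, map_mul, map_mul, h.sι, h.sι, h.sι, h.sθ]
  rw [e2, e1, map_add, map_mul, map_pow, map_pow, ← h.cube]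
  linear_combination (ι α ^ 2 * ι β * θ + ι α * ι β ^ 2 * θ ^ 2 * ι w) * hw
    + ι β ^ 3 * θ ^ 3 * h3

theorem norm_ne (h : CubE x L ι θ σ) {α β : Eis} (hne : ι α + ι β * θ ≠ 0) :
    α ^ 3 + x * β ^ 3 ≠ 0 := by
  intro h0
  have h1 := norm_lin h α β
  rw [h0, map_zero] at h1
  have hs : ∀ y : L, y ≠ 0 → σ y ≠ 0 := fun y hy => (map_ne_zero σ).mpr hy
  exact (mul_ne_zero (mul_ne_zero hne (hs _ hne)) (hs _ (hs _ hne))) h1

end NDS

theorem NDS_thm : Stmt_NDS := by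
  intro x L _ _ ι θ σ _ hF y z hy hz hN
  obtain ⟨m, a, b, d, hm, e⟩ := hF.rep z
  have hmL : (m : L) ≠ 0 := by exact_mod_cast hm
  have hm' : ι (m : Eis) = (m : L) := map_intCast ι m
  have hmE : (m : Eis) ≠ 0 := by
    intro h0
    rw [h0, map_zero] at hm'
    exact hmL hm'.symm
  -- killing the coefficient of `θ ^ 2`
  obtain ⟨γ, δ, hγδ, h2⟩ : ∃ γ δ : Eis, ¬ (γ = 0 ∧ δ = 0) ∧ b * δ + d * γ = 0 := by
    by_cases h3 : b = 0 ∧ d = 0
    · refine ⟨1, 0, by simp, ?_⟩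
      rw [h3.1, h3.2]
      ring
    · refine ⟨b, -d, ?_, by ring⟩
      rintro ⟨h4, h5⟩
      exact h3 ⟨h4, neg_eq_zero.1 h5⟩
  have hlin : ι γ + ι δ * θ ≠ 0 := by
    intro h0
    have h1 := hF.lin γ δ 0 (by rw [map_zero, zero_mul, add_zero]; exact h0)
    exact hγδ ⟨h1.1, h1.2.1⟩
  have h3 : ((m : L) * z) * (ι γ + ι δ * θ) =
      ι (a * γ + d * δ * x) + ι (a * δ + b * γ) * θ := by
    have h4 : ι b * ι δ + ι d * ι γ = 0 := by
      rw [← map_mul, ← map_mul, ← map_add, h2, map_zero]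
    have h5 := hF.cube
    rw [e]
    simp only [map_add, map_mul]
    linear_combination θ ^ 2 * h4 + ι d * ι δ * h5
  have h4 : (m : Eis) ^ 3 * y * (γ ^ 3 + x * δ ^ 3) =
      (a * γ + d * δ * x) ^ 3 + x * (a * δ + b * γ) ^ 3 := by
    apply hF.inj
    rw [← NDS.norm_lin hF (a * γ + d * δ * x) (a * δ + b * γ), ← h3, map_mul, map_mul, map_pow,
      hm', ← NDS.norm_lin hF γ δ, ← hN]
    simp only [map_mul, map_intCast]
    ring
  have h5 := NDS.norm_ne hF hlin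
  refine ⟨a * γ + d * δ * x, a * δ + b * γ, m * γ, m * δ, ?_, ?_⟩
  · rw [← h4]
    ring
  · rw [← h4]
    exact mul_ne_zero (mul_ne_zero (pow_ne_zero 3 hmE) hy) h5

end Pool.Agent.PTK

end
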