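import Mathlib
import Pool.Agent.PTWX.C32
import Pool.Agent.PTWX.C33
import Pool.Agent.PTWX.C41

/-! Parts: PT.KUM, PT.IF4, PTN.StQ, PTN.BDL, PTN.NZE0, PTN.TRC, PTN.NZER, PTN.NZE1 -/

namespace Pool.Agent.PT.KUM
end Pool.Agent.PT.KUM

namespace Pool.Agent.PT.IF4
end Pool.Agent.PT.IF4

namespace Pool.Agent.PTN.BDL
end Pool.Agent.PTN.BDL

namespace Pool.Agent.PTN.NZE0
end Pool.Agent.PTN.NZE0

namespace Pool.Agent.PTN.TRC
end Pool.Agent.PTN.TRC

namespace Pool.Agent.PTN.NZER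
end Pool.Agent.PTN.NZER

namespace Pool.Agent.PTN.NZE1
end Pool.Agent.PTN.NZE1

section

/-!
# KUM: Kummer theory
-/

namespace Pool.Agent.PT

open Pool.Agent.Lib_helper18 Pool.Agent.Lib_helper18.Eis Pool.Agent.Lib_helper84.Cub

namespace KUM

variable {F L : Type} [Field F] [Field L] [Algebra F L]

lemma pow_mod {ω : F} (hω : ω ^ 2 + ω + 1 = 0) (n : ℕ) :
    (algebraMap F L ω) ^ (n % 3) = (algebraMap F L ω) ^ n := by
  have h3 : ω ^ 3 = 1 := by linear_combination (ω - 1) * hω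
  conv_rhs => rw [← Nat.div_add_mod n 3]
  rw [pow_add, pow_mul, ← map_pow _ ω 3, h3, map_one, one_pow, one_mul]

lemma cube_root {ω : F} (hω : ω ^ 2 + ω + 1 = 0) {x y : L} (h : x ^ 3 = y ^ 3) :
    ∃ v : ZMod 3, x = (algebraMap F L ω) ^ v.val * y := by
  have hω' : (algebraMap F L ω) ^ 2 + algebraMap F L ω + 1 = 0 := by
    rw [← map_pow, ← map_add, ← map_one (algebraMap F L), ← map_add, hω, map_zero]
  set z := algebraMap F L ω
  have e : (x - y) * ((x - z * y) * (x - z ^ 2 * y)) = 0 := by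
    linear_combination h + (-y * x ^ 2 + y ^ 2 * z * x - z * y ^ 3 + y ^ 3) * hω'
  rcases mul_eq_zero.1 e with h1 | h1
  · exact ⟨0, by rw [ZMod.val_zero, pow_zero, one_mul]; exact sub_eq_zero.1 h1⟩
  · rcases mul_eq_zero.1 h1 with h2 | h2
    · exact ⟨1, by rw [show (1 : ZMod 3).val = 1 from rfl, pow_one]; exact sub_eq_zero.1 h2⟩
    · exact ⟨2, by rw [show (2 : ZMod 3).val = 2 from rfl]; exact sub_eq_zero.1 h2⟩

/-- the realised vectors -/
def W (ω : F) (hω : ω ^ 2 + ω + 1 = 0) {κ : Type} (A : κ → L) :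
    Submodule (ZMod 3) (κ → ZMod 3) where
  carrier := {v | ∃ g : L ≃ₐ[F] L, ∀ i, g (A i) = algebraMap F L ω ^ (v i).val * A i}
  zero_mem' := ⟨AlgEquiv.refl, fun i => by
    rw [Pi.zero_apply, ZMod.val_zero, pow_zero, one_mul]; rfl⟩
  add_mem' := by
    rintro v v' ⟨g, hg⟩ ⟨g', hg'⟩
    refine ⟨g'.trans g, fun i => ?_⟩
    rw [AlgEquiv.trans_apply, hg', map_mul, map_pow, AlgEquiv.commutes, hg, Pi.add_apply,
      ZMod.val_add, pow_mod hω, pow_add]
    ring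
  smul_mem' := by
    rintro c v ⟨g, hg⟩
    have key : ∀ n : ℕ, ∀ i, (g ^ n) (A i) = algebraMap F L ω ^ (n * (v i).val) * A i := by
      intro n
      induction n with
      | zero => intro i; simp
      | succ n ih =>
        intro i
        rw [pow_succ', AlgEquiv.mul_apply, ih i, map_mul, map_pow, AlgEquiv.commutes, hg]
        ring
    refine ⟨g ^ c.val, fun i => ?_⟩
    rw [key, Pi.smul_apply, smul_eq_mul, ZMod.val_mul, pow_mod hω]

end KUM

open _root_.Pool.Agent.PT.KUM in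
theorem KUM_thm : KUM := by
  intro F L _ _ _ _ _ _ ω κ _ a A hω ha hA hind v
  classical
  have hA0 : ∀ i, A i ≠ 0 := by
    intro i h0
    have h1 := hA i
    rw [h0, zero_pow (by norm_num)] at h1
    exact ha i ((map_eq_zero (algebraMap F L)).1 h1.symm)
  by_contra hv
  have hlt : W ω hω A < ⊤ := by
    rw [lt_top_iff_ne_top]
    intro htop
    apply hv
    have : v ∈ W ω hω A := by rw [htop]; exact Submodule.mem_top
    exact this
  obtain ⟨f, hf0, hf⟩ := Submodule.exists_le_ker_of_lt_top _ hlt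
  let n : κ → ℕ := fun i => (f (Pi.single i 1)).val
  have hfix : ∀ g : L ≃ₐ[F] L, g (∏ i, A i ^ n i) = ∏ i, A i ^ n i := by
    intro g
    have h1 : ∀ i, ∃ u : ZMod 3, g (A i) = algebraMap F L ω ^ u.val * A i := by
      intro i
      apply cube_root hω
      rw [← map_pow, hA, AlgEquiv.commutes]
    choose u hu using h1
    have hmem : u ∈ W ω hω A := ⟨g, hu⟩
    have h2 : f u = 0 := hf hmem
    rw [LinearMap.pi_apply_eq_sum_univ f u] at h2
    have h3 : 3 ∣ ∑ i, (u i).val * n i := by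
      rw [← ZMod.natCast_eq_zero_iff]
      push_cast
      rw [← h2]
      apply Finset.sum_congr rfl
      intro i _
      rw [ZMod.natCast_zmod_val, smul_eq_mul]
      congr 1
      show (((f (Pi.single i 1)).val : ℕ) : ZMod 3) = _
      rw [ZMod.natCast_zmod_val]
      congr 1
      funext j
      rw [Pi.single_apply]
      simp only [eq_comm]
    rw [map_prod]
    have h4 : ∀ i ∈ Finset.univ, g (A i ^ n i)
        = algebraMap F L ω ^ ((u i).val * n i) * A i ^ n i := by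
      intro i _
      rw [map_pow, hu, mul_pow, ← pow_mul]
    rw [Finset.prod_congr rfl h4, Finset.prod_mul_distrib, Finset.prod_pow_eq_pow_sum]
    rw [← pow_mod hω, Nat.mod_eq_zero_of_dvd h3, pow_zero, one_mul]
  obtain ⟨b, hb⟩ := (IsGalois.mem_range_algebraMap_iff_fixed (F := F) (∏ i, A i ^ n i)).2 hfix
  have hdvd := hind n ⟨b, by
    apply (algebraMap F L).injective
    rw [map_pow, hb, map_prod, ← Finset.prod_pow]
    apply Finset.prod_congr rfl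
    intro i _
    rw [map_pow, ← hA, ← pow_mul, ← pow_mul, mul_comm]⟩
  apply hf0
  have hz : ∀ i, f (Pi.single i 1) = 0 := by
    intro i
    have h1 : (f (Pi.single i 1)).val < 3 := ZMod.val_lt _
    have h2 : 3 ∣ (f (Pi.single i 1)).val := hdvd i
    have h3 : (f (Pi.single i 1)).val = 0 := by omega
    exact (ZMod.val_eq_zero _).1 h3
  ext i
  simp [hz i]

end Pool.Agent.PT

end

section

/-!
# IF4: the local term of a point when `x` is a local cube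
-/

namespace Pool.Agent.PT

open Pool.Agent.Lib_helper18 Pool.Agent.Lib_helper18.Eis
open Pool.Agent.Lib_helper84.Cub hiding cast_ne

namespace IF4

theorem cast_ne {n : ℤ} (h : n ≠ 0) : (n : Eis) ≠ 0 := by
  intro h1
  apply h
  have := congrArg Eis.re h1
  simpa using this

theorem prod3 (a t : Eis) : (a + t) * (a + w * t) * (a + w ^ 2 * t) = a ^ 3 + t ^ 3 := by
  have h1 := w_rel
  have h2 := w_cube
  linear_combination (a + t) * a * t * h1 + (a + t) * t ^ 2 * h2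

theorem lin_ne (a t : Eis) (h : a ^ 3 + t ^ 3 ≠ 0) (i : ℕ) : a + w ^ i * t ≠ 0 := by
  intro h0
  apply h
  have h1 : a = -(w ^ i * t) := by linear_combination h0
  have h2 : (w ^ i) ^ 3 = 1 := by
    rw [← pow_mul, mul_comm, pow_mul, w_cube, one_pow]
  rw [h1]
  linear_combination (-t ^ 3) * h2

theorem D_ne {X Y u v : ℤ} (hX : X ≠ 0) (hY : Y ≠ 0) (huv : ¬ (u = 0 ∧ v = 0)) :
    Df X Y u v 1 ≠ 0 ∧ Df X Y u v 2 ≠ 0 := by
  constructor
  · intro h
    have h1 := congrArg Eis.re h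
    have h2 := congrArg Eis.im h
    simp [Df] at h1 h2
    apply huv
    refine ⟨h1.resolve_left hX, h2.resolve_right hY⟩
  · intro h
    have h1 := congrArg Eis.re h
    have h2 := congrArg Eis.im h
    rw [Df, w_sq] at h1 h2
    simp at h1 h2
    have h3 : v = 0 := h2.resolve_right hY
    rw [h3] at h1
    simp at h1
    exact huv ⟨h1.resolve_left hX, h3⟩

variable {π : Eis} {s : Eis → Eis → ZMod 3} {e : ℕ}

theorem s_one (h : LSym π s e) {c : Eis} (hc : c ≠ 0) : s 1 c = 0 := by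
  have := h.mul 1 1 c one_ne_zero one_ne_zero hc
  rw [mul_one] at this
  simpa using this

theorem s_neg (h : LSym π s e) {a c : Eis} (ha : a ≠ 0) (hc : c ≠ 0) : s (-a) c = s a c := by
  have hm : (-1 : Eis) ≠ 0 := neg_ne_zero.2 one_ne_zero
  have h1 := h.mul (-1) (-1) c hm hm hc
  rw [neg_mul_neg, one_mul, s_one h hc] at h1
  have h2 : s (-1) c = 0 := by
    generalize s (-1) c = z at h1
    revert z
    decide
  have h3 := h.mul (-1) a c hm ha hc
  rwa [neg_one_mul, h2, zero_add] at h3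

theorem mul_right (h : LSym π s e) {a b c : Eis} (ha : a ≠ 0) (hb : b ≠ 0) (hc : c ≠ 0) :
    s a (b * c) = s a b + s a c := by
  rw [h.skew (b * c) a (mul_ne_zero hb hc) ha, h.mul b c a hb hc ha, h.skew b a hb ha,
    h.skew c a hc ha]
  ring

theorem approx (h : LSym π s e) {a a' : Eis} (ha : a ≠ 0) {N : ℕ} (hN : V π a + e + 1 ≤ N)
    (hd : π ^ N ∣ a' - a) : a' ≠ 0 ∧ ∀ c, c ≠ 0 → s a' c = s a c ∧ s c a' = s c a := by
  have h0 : a' ≠ 0 := by
    rintro rfl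
    rw [zero_sub, dvd_neg] at hd
    have h1 : N ≤ V π a := (fin h.prime ha).le_multiplicity_of_pow_dvd hd
    omega
  refine ⟨h0, fun c hc => ?_⟩
  have h1 : s a' c = s a c := h.cont a a' c ha hc ((pow_dvd_pow π (by omega)).trans hd)
  refine ⟨h1, ?_⟩
  rw [h.skew a' c h0 hc, h1, h.skew a c ha hc]

end IF4

open _root_.Pool.Agent.PT.IF4 in
theorem IF4_thm (hSTAR : STAR) : IF4 := by
  intro π s e hs b x p q p' q' X Y hb hx hsol hX hY hn0
  have hN12 : p ^ 3 - x * p' ^ 3 = b * (x * q' ^ 3 - q ^ 3) := by linear_combination hsol.eq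
  have hN1 : p ^ 3 - x * p' ^ 3 ≠ 0 := hsol.n2
  have hN2 : x * q' ^ 3 - q ^ 3 ≠ 0 := by
    intro h
    rw [h, mul_zero] at hN12
    exact hN1 hN12
  have hp : ¬ (p' = 0 ∧ p = 0) := by
    rintro ⟨rfl, rfl⟩
    exact hN1 (by ring)
  have hq : ¬ (q' = 0 ∧ q = 0) := by
    rintro ⟨rfl, rfl⟩
    exact hN2 (by ring)
  have cn0 := cast_ne hn0
  have cN1 := cast_ne hN1
  have cN2 := cast_ne hN2
  have cx := cast_ne hx
  have cb := cast_ne hb
  refine ⟨V π ((X ^ 3 + x * Y ^ 3 : ℤ) : Eis) + V π ((p ^ 3 - x * p' ^ 3 : ℤ) : Eis) +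
    V π ((x * q' ^ 3 - q ^ 3 : ℤ) : Eis) + V π (x : Eis) + e + 1, ?_⟩
  intro ξ hξ
  set N : ℕ := V π ((X ^ 3 + x * Y ^ 3 : ℤ) : Eis) + V π ((p ^ 3 - x * p' ^ 3 : ℤ) : Eis) +
    V π ((x * q' ^ 3 - q ^ 3 : ℤ) : Eis) + V π (x : Eis) + e + 1 with hN
  have hξ0 : (ξ : Eis) ≠ 0 := by
    intro h
    have := (approx hs cx (N := N) (by omega) hξ).1
    apply this
    rw [h]
    ring
  -- the products
  have eF : Lf X Y 0 ξ * Lf X Y 1 ξ * Lf X Y 2 ξ = (X : Eis) ^ 3 + ((ξ : Eis) * Y) ^ 3 := by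
    rw [← prod3]
    simp only [Lf]
    ring
  have eG : Lf p (-p') 0 ξ * Lf p (-p') 1 ξ * Lf p (-p') 2 ξ
      = (p : Eis) ^ 3 + ((ξ : Eis) * (-p' : ℤ)) ^ 3 := by
    rw [← prod3]
    simp only [Lf]
    ring
  have eG' : Lf (-q) q' 0 ξ * Lf (-q) q' 1 ξ * Lf (-q) q' 2 ξ
      = ((-q : ℤ) : Eis) ^ 3 + ((ξ : Eis) * q') ^ 3 := by
    rw [← prod3]
    simp only [Lf]
    ring
  obtain ⟨hF0, hF⟩ := approx hs cn0 (a' := (X : Eis) ^ 3 + ((ξ : Eis) * Y) ^ 3) (N := N)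
    (by omega) (by
      have e1 : (X : Eis) ^ 3 + ((ξ : Eis) * Y) ^ 3 - ((X ^ 3 + x * Y ^ 3 : ℤ) : Eis)
          = ((ξ : Eis) ^ 3 - x) * Y ^ 3 := by push_cast; ring
      rw [e1]
      exact Dvd.dvd.mul_right hξ _)
  obtain ⟨hG0, hG⟩ := approx hs cN1 (a' := (p : Eis) ^ 3 + ((ξ : Eis) * (-p' : ℤ)) ^ 3) (N := N)
    (by omega) (by
      have e1 : (p : Eis) ^ 3 + ((ξ : Eis) * (-p' : ℤ)) ^ 3 - ((p ^ 3 - x * p' ^ 3 : ℤ) : Eis)
          = ((ξ : Eis) ^ 3 - x) * (-(p' : Eis) ^ 3) := by push_cast; ring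
      rw [e1]
      exact Dvd.dvd.mul_right hξ _)
  obtain ⟨hG0', hG'⟩ := approx hs cN2 (a' := ((-q : ℤ) : Eis) ^ 3 + ((ξ : Eis) * q') ^ 3) (N := N)
    (by omega) (by
      have e1 : ((-q : ℤ) : Eis) ^ 3 + ((ξ : Eis) * q') ^ 3 - ((x * q' ^ 3 - q ^ 3 : ℤ) : Eis)
          = ((ξ : Eis) ^ 3 - x) * ((q' : Eis) ^ 3) := by push_cast; ring
      rw [e1]
      exact Dvd.dvd.mul_right hξ _)
  have nF : ∀ i, Lf X Y i ξ ≠ 0 := by
    intro i
    have := lin_ne _ _ hF0 i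
    intro h
    apply this
    rw [← h]
    simp only [Lf]
    ring
  have nG : ∀ i, Lf p (-p') i ξ ≠ 0 := by
    intro i
    have := lin_ne _ _ hG0 i
    intro h
    apply this
    rw [← h]
    simp only [Lf]
    ring
  have nG' : ∀ i, Lf (-q) q' i ξ ≠ 0 := by
    intro i
    have := lin_ne _ _ hG0' i
    intro h
    apply this
    rw [← h]
    simp only [Lf]
    ring
  obtain ⟨nD1, nD2⟩ := D_ne hX hY hp
  obtain ⟨nD1', nD2'⟩ := D_ne hX hY hq
  have S1 := (hSTAR π s e hs X Y p (-p' : ℤ) ξ (fun i => Lf X Y i ξ) (fun i => Lf p (-p') i ξ)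
    (fun i => -Df X Y p' p i) (fun i => by simp only [Lf]; ring) (fun i => by simp only [Lf]; ring)
    (fun i => by simp only [Df]; push_cast; ring) hξ0 nF).2 nG (neg_ne_zero.2 nD1)
    (neg_ne_zero.2 nD2)
  have S2 := (hSTAR π s e hs X Y (-q : ℤ) q' ξ (fun i => Lf X Y i ξ) (fun i => Lf (-q) q' i ξ)
    (fun i => Df X Y q' q i) (fun i => by simp only [Lf]; ring) (fun i => by simp only [Lf]; ring)
    (fun i => by simp only [Df]; push_cast; ring) hξ0 nF).2 nG' nD1' nD2'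
  simp only [eF, eG, eG'] at S1 S2
  have hw : w ≠ 0 := by
    intro h
    have := congrArg Eis.im h
    simp at this
  rw [s_neg hs nD1 hG0, s_neg hs nD2 hG0, s_neg hs nD1 hF0, s_neg hs nD2 hF0,
    (hG _ nD1).2, (hG _ nD2).2, (hF _ nD1).2, (hF _ nD2).2, (hF _ hw).2, (hF _ (nG 2)).1,
    (hF _ (nG 1)).1, (hG _ (nF 1)).2, (hG _ (nF 2)).2] at S1
  rw [(hG' _ nD1').2, (hG' _ nD2').2, (hF _ nD1').2, (hF _ nD2').2, (hF _ hw).2,
    (hF _ (nG' 2)).1, (hF _ (nG' 1)).1, (hG' _ (nF 1)).2, (hG' _ (nF 2)).2] at S2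
  have hb1 : ∀ i, s (Lf X Y i ξ) ((p ^ 3 - x * p' ^ 3 : ℤ) : Eis)
      = s (Lf X Y i ξ) (b : Eis) + s (Lf X Y i ξ) ((x * q' ^ 3 - q ^ 3 : ℤ) : Eis) := by
    intro i
    rw [← mul_right hs (nF i) cb cN2, hN12]
    congr 1
    push_cast
    rfl
  rw [hb1 1, hb1 2] at S1
  unfold SV AS
  linear_combination S1 - S2

end Pool.Agent.PT

end

section

/-!
# The law of the ranks of prime twists for every `n`: sharper final statements

Additions to StF: the sharper counts for `h = 1`, the classes with `N q^e = ± 1 (mod 9)`, lower bounds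
for the single classes modulo `9 N`.
-/

set_option autoImplicit false

open NumberField IsDedekindDomain Finset
open scoped nonZeroDivisors Pointwise

namespace Pool.Agent.PTN

open Pool.Agent.Lib_helper18 Pool.Agent.Lib_helper18.Eis Pool.Agent.Lib_helper84.Cub
open Pool.Agent.PT Pool.Agent.PTE Pool.Agent.PT3 Pool.Agent.PTL

/-- PTN_NSU1: the average of `3 ^ v` over the classes, `h = 1`.
Proof. As `NSUM` (see PTN/NSUM.lean): `actR` is false, so `y 0 = 0` for `y ∈ VS`; only the term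
`3 · 5^m` remains. -/
def Stmt_NSU1 : Prop := ∀ (n m k : ℕ) (π : Fin m → PP) (p e : Fin m → ℕ) (r f : Fin k → ℕ),
  NF n π p e r f →
  ∑ x : ZMod 3 × (Fin m → ZMod 3), 3 ^ vN 1 n π p e r x.1 x.2 ≤ 3 * 5 ^ m

/-- PTN_NZE1: the number of the classes with `v = 0`, `h = 1`.
Proof. As `NZER` (see PTN/NZER.lean): all three values of `w0` are allowed. -/
def Stmt_NZE1 : Prop := ∀ (n m k : ℕ) (π : Fin m → PP) (p e : Fin m → ℕ) (r f : Fin k → ℕ),
  NF n π p e r f →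
  3 * 2 ^ m ≤ Nat.card {x : ZMod 3 × (Fin m → ZMod 3) // vN 1 n π p e r x.1 x.2 = 0}

/-- PTN_NZE0: the number of the classes with `v = 0`, `h = 0`, `B = ± 1 (mod 9)`.
Proof. Take `w0 = - wt (n²)`. `y ∈ VS` gives `vecMul y A = 0` for the square matrix `A` with the columns `inr j`
(column `0`) and `inl i.succ` (column `i.succ`) of `Nm`; `A 0 0 = wt (r j ^ 2) ≠ 0`, and `A` depends
on `c` through `- c i` at the places `(i.succ, i.succ)`. `EDC` (PT3): `A` is invertible for at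
least `2 ^ m` of the `c`; then `VS = ⊥`, `vN = 0`. -/
def Stmt_NZE0 : Prop := ∀ (n m k : ℕ) (π : Fin m → PP) (p e : Fin m → ℕ) (r f : Fin k → ℕ),
  NF n π p e r f → (∃ j, wt ((r j : ℤ) ^ 2) ≠ 0) →
  2 ^ m ≤ Nat.card {x : ZMod 3 × (Fin m → ZMod 3) // vN 0 n π p e r x.1 x.2 = 0 ∧
    wt ((n : ℤ) ^ 2) + x.1 = 0}

/-- PTN_TRC: converse of `TRU`: numbers of the same class differ by a cube modulo `9 N`.
Proof. Let `G` be the group of units modulo `f = 9 N`, `N = 3 ^ h n`, `κ : G → F_3^(m+1)` from `CLSC` (`9 ∣ f`,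
`p i ∣ f`), `κ u = (wt (U²), sym (π i) U)`. `κ` is surjective (`CLSC`: every fibre is nonempty, as
`φ(f) > 0`), so its kernel has `φ(f) / 3^(m+1)` elements, and it contains the group of cubes, which
has `φ(f) / #G[3]` elements, `G[3] = {x | x³ = 1}`. `#G[3] ≤ 3^(m+1)`: `x ∈ G[3]` is determined by its
classes modulo `3^(h+2)`, `p i ^ e i`, `r j ^ f j` (pairwise coprime, product `f`); modulo an odd prime
power the units are cyclic, so there are at most `3` solutions of `x³ = 1` (`IsCyclic.card_pow_eq_one_le`,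
`ZMod.isCyclic_units_of_prime_pow` or similar), and modulo `r j ^ f j` only `x = 1`, since `3` does not divide
`φ(r j ^ f j) = r j ^ (f j - 1) (r j - 1)`. So the kernel is the group of cubes. If `y` and `U` have
the same class then `y / U ∈ G` is in the kernel, `y = U x³`. -/
def Stmt_TRC : Prop := ∀ (h n m k : ℕ) (π : Fin m → PP) (p e : Fin m → ℕ) (r f : Fin k → ℕ),
  NF n π p e r f →
  ∀ (u : (ZMod (9 * (3 ^ h * n)))ˣ) (w0 : ZMod 3) (c : Fin m → ZMod 3) (y : ℤ),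
    Kl π w0 c (((u : ZMod (9 * (3 ^ h * n))).val : ℕ) : ℤ) → Kl π w0 c y →
    IsCoprime y ((9 * (3 ^ h * n) : ℕ) : ℤ) →
    ∃ x : ℤ, ((9 * (3 ^ h * n) : ℕ) : ℤ) ∣
      y - (((u : ZMod (9 * (3 ^ h * n))).val : ℕ) : ℤ) * x ^ 3

open Classical in
/-- PTN_ALLQ: the averages over all `A`, sharper for `h = 1`.
Proof. As `ALLA` (see PTN/ALLA.lean), for `h = 1` with `NSU1`, `NZE1` in place of `NSUM`, `NZER`. -/
def Stmt_ALLQ : Prop := ∀ (h n m k : ℕ) (π : Fin m → PP) (p e : Fin m → ℕ) (r f : Fin k → ℕ),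
  NF n π p e r f → h ≤ 2 → ∀ μ : ℕ, μ = m + (if h = 1 then 0 else 1) →
  AboveA ((3 ^ h * n : ℕ) : ℤ) 2 (fun _ => True) (fun A => 3 ^ CubeRank.rr A)
    (4 * (5 / 3) ^ μ) ∧
  AboveA ((3 ^ h * n : ℕ) : ℤ) 1 (fun _ => True) (fun A => 3 ^ CubeRank.rr A)
    (7 * (5 / 3) ^ μ) ∧
  (Even (k + if h = 1 then 1 else 0) →
    BelowA ((3 ^ h * n : ℕ) : ℤ) 2 (fun _ => True)
      (fun A => tf (¬ ∃ X Y : ℚ, X ^ 3 + Y ^ 3 = (A : ℚ))) (5 / 8 * (2 / 3) ^ μ) ∧
    BelowA ((3 ^ h * n : ℕ) : ℤ) 1 (fun _ => True) (fun A => tf (CubeRank.rr A ≤ 1))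
      (8 / 9 * (2 / 3) ^ μ)) ∧
  (Odd (k + if h = 1 then 1 else 0) →
    BelowA ((3 ^ h * n : ℕ) : ℤ) 2 (fun _ => True) (fun A => tf (CubeRank.rr A ≤ 1))
      (23 / 24 * (2 / 3) ^ μ) ∧
    BelowA ((3 ^ h * n : ℕ) : ℤ) 1 (fun _ => True)
      (fun A => tf (¬ ∃ X Y : ℚ, X ^ 3 + Y ^ 3 = (A : ℚ))) (5 / 8 * (2 / 3) ^ μ))

/-- `y = u x³ (mod 9 N)` for some `x` -/
def Cu (N : ℕ) (u : (ZMod (9 * N))ˣ) (y : ℤ) : Prop :=
  ∃ x : ℤ, ((9 * N : ℕ) : ℤ) ∣ y - ((u : ZMod (9 * N)).val : ℤ) * x ^ 3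

/-- `N u = ± 1 (mod 9)` -/
def Nu1 (N : ℕ) (u : (ZMod (9 * N))ˣ) : Prop :=
  (N * (u : ZMod (9 * N)).val) % 9 = 1 ∨ (N * (u : ZMod (9 * N)).val) % 9 = 8

open Classical in
/-- PTN_MAINQ: the theorem.
Proof. As `MAINN` (see PTN/MAINN.lean; `Nu1 N u` implies `3 ∤ N`), with `ALLQ`, and for the
additional statements: the last part of the first block: `CBE` for the class of `u` (`v u = 0`,
`R A` the negation with `t = 1`, or `R A = rr A ≤ 1`, `t = 2`), `LAW` (3)-(6), and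
`TRC`: for large `q` of the class, `Cu N u (q ^ e)`. The lower bound for the number of the `u` with
`Nu1 N u` and `v u = 0`: `NZE0` and `TRU` (1) (a prime `p ∣ N` with `p % 9 = 2` or `5` is one of the `r j`, and
`wt (p ^ 2) ≠ 0`, `FIN.p_wt` in PTL/FIN.lean); each class has `φ(9 N) / 3 ^ (m + 1)` units. -/
def Stmt_MAINQ : Prop := ∀ N : ℕ, 0 < N → (∀ p : ℕ, p.Prime → ¬ p ^ 3 ∣ N) →
  ∀ m k δ μ : ℕ, m = (N.primeFactors.filter (fun p => p % 3 = 1)).card →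
  k = (N.primeFactors.filter (fun p => p % 3 = 2)).card →
  δ = (if 3 ∣ N ∧ ¬ 9 ∣ N then 1 else 0) → μ + δ = m + 1 →
  (∃ v s : (ZMod (9 * N))ˣ → ℕ,
    (∀ u : (ZMod (9 * N))ˣ, s u + (if Nu1 N u then 1 else 0) = v u + k + δ) ∧
    (∑ᶠ u : (ZMod (9 * N))ˣ, (3 : ℝ) ^ v u ≤ (5 / 3) ^ μ * (9 * N).totient) ∧
    ((2 / 3 : ℝ) ^ μ * (9 * N).totient ≤
      Nat.card {u : (ZMod (9 * N))ˣ // v u = 0 ∧ ¬ Nu1 N u}) ∧
    (¬ 3 ∣ N → (∃ p : ℕ, p.Prime ∧ p ∣ N ∧ (p % 9 = 2 ∨ p % 9 = 5)) →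
      1 / 3 * (2 / 3 : ℝ) ^ m * (9 * N).totient ≤
        Nat.card {u : (ZMod (9 * N))ˣ // v u = 0 ∧ Nu1 N u}) ∧
    (∀ (u : (ZMod (9 * N))ˣ) (F : ℕ → ℝ), Monotone F → 0 ≤ F 0 →
      AboveA N 2 (Cu N u) (fun A => F (CubeRank.rr A))
        (Esk (s u) (fun x => F (v u + x)) / 3 ^ (m + 1)) ∧
      AboveA N 1 (Cu N u) (fun A => F (CubeRank.rr A))
        (((1 - 1 / 3 ^ s u) * Esk (s u - 1) (fun x => F (v u + x)) +
          1 / 3 ^ s u * F (v u + s u + 1)) / 3 ^ (m + 1))) ∧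
    ∀ u : (ZMod (9 * N))ˣ, v u = 0 →
      (Even (s u) →
        BelowA N 2 (Cu N u) (fun A => tf (¬ ∃ X Y : ℚ, X ^ 3 + Y ^ 3 = (A : ℚ)))
          (5 / 8 / 3 ^ (m + 1)) ∧
        BelowA N 1 (Cu N u) (fun A => tf (CubeRank.rr A ≤ 1)) (8 / 9 / 3 ^ (m + 1))) ∧
      (Odd (s u) →
        BelowA N 2 (Cu N u) (fun A => tf (CubeRank.rr A ≤ 1)) (23 / 24 / 3 ^ (m + 1)) ∧
        BelowA N 1 (Cu N u) (fun A => tf (¬ ∃ X Y : ℚ, X ^ 3 + Y ^ 3 = (A : ℚ)))
          (5 / 8 / 3 ^ (m + 1)))) ∧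
  (∃ M : ℕ, ∀ q e : ℕ, q.Prime → M < q → (e = 1 ∨ e = 2) →
    CubeRank.GenBy (N * q ^ e) (CubeRank.rr (N * q ^ e))) ∧
  AboveA N 2 (fun _ => True) (fun A => 3 ^ CubeRank.rr A) (4 * (5 / 3) ^ μ) ∧
  AboveA N 1 (fun _ => True) (fun A => 3 ^ CubeRank.rr A) (7 * (5 / 3) ^ μ) ∧
  (Even (k + δ) →
    BelowA N 2 (fun _ => True)
      (fun A => tf (¬ ∃ X Y : ℚ, X ^ 3 + Y ^ 3 = (A : ℚ))) (5 / 8 * (2 / 3) ^ μ) ∧
    BelowA N 1 (fun _ => True) (fun A => tf (CubeRank.rr A ≤ 1)) (8 / 9 * (2 / 3) ^ μ)) ∧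
  (Odd (k + δ) →
    BelowA N 2 (fun _ => True) (fun A => tf (CubeRank.rr A ≤ 1)) (23 / 24 * (2 / 3) ^ μ) ∧
    BelowA N 1 (fun _ => True)
      (fun A => tf (¬ ∃ X Y : ℚ, X ^ 3 + Y ^ 3 = (A : ℚ))) (5 / 8 * (2 / 3) ^ μ))

end Pool.Agent.PTN

end

section

/-!
# PTN_BDL: the lower bound for the number of the primes with a given pattern
-/

set_option autoImplicit false

open NumberField IsDedekindDomain Finset
open scoped nonZeroDivisors Pointwise

namespace Pool.Agent.PTN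

open Pool.Agent.Lib_helper18 Pool.Agent.Lib_helper18.Eis Pool.Agent.Lib_helper84.Cub
open Pool.Agent.PT Pool.Agent.PTE Pool.Agent.PT3 Pool.Agent.PTL

namespace BDL

/-- Generators of a finite cyclic group are powers with exponent prime to `3`. -/
theorem exists_pow3 {G : Type} [Group G] [Finite G] {g h : G}
    (hz : Subgroup.zpowers h = Subgroup.zpowers g) : ∃ k : ℕ, ¬ 3 ∣ k ∧ h = g ^ k := by
  have h1 : h ∈ Subgroup.zpowers g := by
    rw [← hz]
    exact Subgroup.mem_zpowers h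
  obtain ⟨k, hk⟩ := (isOfFinOrder_of_finite g).mem_powers_iff_mem_zpowers.2 h1
  have hk' : g ^ k = h := hk
  by_cases h3 : 3 ∣ k
  · refine ⟨k + orderOf g, ?_, ?_⟩
    · intro h4
      have h5 : 3 ∣ orderOf g := (Nat.dvd_add_right h3).1 h4
      have h6 : orderOf h = orderOf g := by
        rw [← Nat.card_zpowers, ← Nat.card_zpowers, hz]
      obtain ⟨l, rfl⟩ := h3
      obtain ⟨n, hn⟩ := h5
      have h7 : h ^ n = 1 := by
        rw [← hk', ← pow_mul, show 3 * l * n = (3 * n) * l by ring, ← hn, pow_mul,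
          pow_orderOf_eq_one, one_pow]
      have h8 : orderOf g ∣ n := h6 ▸ orderOf_dvd_of_pow_eq_one h7
      have h9 : 0 < orderOf g := orderOf_pos g
      have h10 : 0 < n := by
        rcases Nat.eq_zero_or_pos n with h | h
        · rw [h, Nat.mul_zero] at hn
          omega
        · exact h
      have h11 := Nat.le_of_dvd h10 h8
      omega
    · rw [pow_add, pow_orderOf_eq_one, mul_one, hk']
  · exact ⟨k, h3, hk'.symm⟩

section
variable {G : Type} [Group G] [Finite G] {f m : ℕ} [NeZero f] (χ : G →* (ZMod f)ˣ)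
    (κ : (ZMod f)ˣ →* Multiplicative (Fin (m + 1) → ZMod 3)) (F : G → Prop)

/-- the elements of class `c` with the pattern -/
def YP (c : Fin (m + 1) → ZMod 3) (g : G) : Prop := M1 (χ g) ∧ (κ (χ g)).toAdd = c ∧ F g

omit [NeZero f] in
/-- The exponents prime to `3`. -/
theorem cases3 {k : ℕ} (hk : ¬ 3 ∣ k) (v : Fin (m + 1) → ZMod 3) : k • v = v ∨ k • v = -v := by
  rw [← Nat.cast_smul_eq_nsmul (ZMod 3)]
  have h0 : (k : ZMod 3) ≠ 0 := fun h => hk ((ZMod.natCast_eq_zero_iff k 3).1 h)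
  have hc : (k : ZMod 3) = 1 ∨ (k : ZMod 3) = -1 := by
    revert h0
    generalize (k : ZMod 3) = x
    revert x
    decide
  rcases hc with h | h
  · left
    rw [h, one_smul]
  · right
    rw [h, neg_smul, one_smul]

variable {χ κ F} in
/-- Stability. -/
theorem step (h3 : 3 ∣ f)
    (hconj : ∀ g τ : G, M1 (χ g) → F g → F (τ * g * τ⁻¹))
    (hpow : ∀ (g : G) (k : ℕ), M1 (χ g) → F g → ¬ 3 ∣ k → F (g ^ k))
    {g h τ : G} (hg : M1 (χ g)) (hF : F g)
    (hz : Subgroup.zpowers h = Subgroup.zpowers (τ * g * τ⁻¹)) :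
    M1 (χ h) ∧ F h ∧ ((κ (χ h)).toAdd = (κ (χ g)).toAdd ∨
      (κ (χ h)).toAdd = -(κ (χ g)).toAdd) := by
  have hχ : χ (τ * g * τ⁻¹) = χ g := by
    rw [map_mul, map_mul, map_inv, mul_comm (χ τ) (χ g), mul_inv_cancel_right]
  have hg' : M1 (χ (τ * g * τ⁻¹)) := by rw [hχ]; exact hg
  have hF' := hconj g τ hg hF
  obtain ⟨k, hk3, hk⟩ := exists_pow3 hz
  have c1 : χ h = χ g ^ k := by rw [hk, map_pow, hχ]
  have hFh : F h := by
    rw [hk]
    exact hpow _ k hg' hF' hk3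
  have hM : M1 (χ h) := by
    rw [DENSS.M1_iff h3] at hg ⊢
    rw [c1, Units.val_pow_eq_pow_val, map_pow, hg, one_pow]
  refine ⟨hM, hFh, ?_⟩
  have e1 : (κ (χ h)).toAdd = k • (κ (χ g)).toAdd := by rw [c1, map_pow, toAdd_pow]
  rw [e1]
  exact cases3 hk3 _

/-- Counting. -/
theorem count (s : ℕ) (c : Fin (m + 1) → ZMod 3) (hf : 0 < f) (hχ : Function.Surjective χ)
    (hcnt : ∀ a : (ZMod f)ˣ, M1 a → 3 ^ (s + 1) * Nat.card {g : G // χ g = a ∧ F g} =
      2 * Nat.card {g : G // χ g = a})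
    (hκ : Nat.card {a : (ZMod f)ˣ // M1 a ∧ (κ a).toAdd = c} * (2 * 3 ^ (m + 1)) = f.totient) :
    3 ^ (s + 1) * 3 ^ (m + 1) * Nat.card {g : G // YP χ κ F c g} = Nat.card G := by
  classical
  obtain ⟨hfib, hcard⟩ := BDENS.fibre χ hχ
  have hH : Nat.card (ZMod f)ˣ = f.totient := by
    rw [Nat.card_eq_fintype_card, ZMod.card_units_eq_totient]
  rw [hH] at hcard
  have e1 : Nat.card {g : G // YP χ κ F c g} =
      Nat.card {g : G // (M1 (χ g) ∧ (κ (χ g)).toAdd = c) ∧ F g} :=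
    Nat.card_congr (Equiv.subtypeEquivRight fun g => (and_assoc).symm)
  have e2 := DENS.card_fib (G := G) (β := (ZMod f)ˣ) χ
    (fun a => M1 a ∧ (κ a).toAdd = c) F
  have e3 : 3 ^ (s + 1) * Nat.card {g : G // YP χ κ F c g} =
      Nat.card {a : (ZMod f)ˣ // M1 a ∧ (κ a).toAdd = c} * (2 * Nat.card χ.ker) := by
    rw [e1, e2, Finset.mul_sum, Nat.card_eq_fintype_card, Fintype.card_subtype,
      ← smul_eq_mul (Finset.card _), ← Finset.sum_const]
    refine Finset.sum_congr rfl fun a ha => ?_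
    simp only [Finset.mem_filter, Finset.mem_univ, true_and] at ha
    rw [hcnt a ha.1, hfib a]
  generalize Nat.card {g : G // YP χ κ F c g} = n at *
  generalize Nat.card {a : (ZMod f)ˣ // M1 a ∧ (κ a).toAdd = c} = u at *
  generalize Nat.card χ.ker = K at *
  rw [← hcard, ← hκ]
  calc 3 ^ (s + 1) * 3 ^ (m + 1) * n = 3 ^ (s + 1) * n * 3 ^ (m + 1) := by ring
    _ = u * (2 * K) * 3 ^ (m + 1) := by rw [e3]
    _ = K * (u * (2 * 3 ^ (m + 1))) := by ring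

end

end BDL

open BDENS _root_.Pool.Agent.PTN.BDL in
/-- PTN_BDL. -/
theorem BDL_thm (hGALDU : Stmt_GALDU) (hSPLT : SPLT) : Stmt_BDL := by
  classical
  intro s b p q p' q' f m κ c hSys hf h9 hκ
  have : NeZero f := ⟨hf.ne'⟩
  have h3f : 3 ∣ f := dvd_trans (by norm_num) h9
  obtain ⟨L, iF, iN, iG, χ, F, t, N₀, hχ, hconj, hpow, -, hcnt, hfrob⟩ :=
    hGALDU s b p q p' q' f hSys hf h9
  have hconj' : ∀ g τ : L ≃ₐ[ℚ] L, M1 (χ g) → F g → F (τ * g * τ⁻¹) :=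
    fun g τ h1 h2 => (hconj g τ h1 h2).1
  have hpow' : ∀ (g : L ≃ₐ[ℚ] L) (k : ℕ), M1 (χ g) → F g → ¬ 3 ∣ k → F (g ^ k) :=
    fun g k h1 h2 h3 => (hpow g k h1 h2 h3).1
  have hcP := count χ κ F s c hf hχ hcnt (hκ c)
  have hcM := count χ κ F s (-c) hf hχ hcnt (hκ (-c))
  have hincl := BD.card_incl (fun g => YP χ κ F c g) (fun g => YP χ κ F (-c) g)
  -- stability
  have hT1 : ∀ g h τ : L ≃ₐ[ℚ] L, g ∈ {g | YP χ κ F c g ∨ YP χ κ F (-c) g} →
      Subgroup.zpowers h = Subgroup.zpowers (τ * g * τ⁻¹) →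
      h ∈ {g | YP χ κ F c g ∨ YP χ κ F (-c) g} := by
    rintro g h τ (⟨h1, h2, h4⟩ | ⟨h1, h2, h4⟩) hz
    · obtain ⟨g1, g2, g3⟩ := step (κ := κ) h3f hconj' hpow' h1 h4 hz
      rw [h2] at g3
      rcases g3 with g3 | g3
      · exact Or.inl ⟨g1, g3, g2⟩
      · exact Or.inr ⟨g1, g3, g2⟩
    · obtain ⟨g1, g2, g3⟩ := step (κ := κ) h3f hconj' hpow' h1 h4 hz
      rw [h2, neg_neg] at g3
      rcases g3 with g3 | g3
      · exact Or.inr ⟨g1, g3, g2⟩
      · exact Or.inl ⟨g1, g3, g2⟩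
  have hT2 : ∀ g h τ : L ≃ₐ[ℚ] L, g ∈ {g | YP χ κ F c g ∧ YP χ κ F (-c) g} →
      Subgroup.zpowers h = Subgroup.zpowers (τ * g * τ⁻¹) →
      h ∈ {g | YP χ κ F c g ∧ YP χ κ F (-c) g} := by
    rintro g h τ ⟨⟨h1, h2, h4⟩, -, h6, -⟩ hz
    obtain ⟨g1, g2, g3⟩ := step (κ := κ) h3f hconj' hpow' h1 h4 hz
    have h7 : c = -c := h2.symm.trans h6
    rw [h2, ← h7, or_self] at g3
    exact ⟨⟨g1, g3, g2⟩, ⟨g1, g3.trans h7, g2⟩⟩
  -- the primes
  have hprime : ∀ (T : Set (L ≃ₐ[ℚ] L)), (∀ g h τ : L ≃ₐ[ℚ] L, g ∈ T →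
      Subgroup.zpowers h = Subgroup.zpowers (τ * g * τ⁻¹) → h ∈ T) →
      ∀ Q ∈ {q : ℕ | ∃ g ∈ T, ∃ P : Ideal (𝓞 L), P.IsPrime ∧ (q : 𝓞 L) ∈ P ∧
        MulAction.stabilizer (L ≃ₐ[ℚ] L) P = Subgroup.zpowers g}, Q.Prime →
      Q ∉ Finset.range (N₀ + f + 1) → ∃ (hQ : Q.Coprime f) (ρ : PP) (g : L ≃ₐ[ℚ] L), g ∈ T ∧
        χ g = ZMod.unitOfCoprime Q hQ ∧ (Q % 3 = 1 → (Q : Eis) = ρ.1 * conj ρ.1 ∧
          (F g → (∀ j : Fin s, sym ρ.1 (b j.castSucc : Eis) = 0) ∧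
            sym ρ.1 (b (Fin.last s) : Eis) ≠ 0)) := by
    rintro T hT Q ⟨g, hg, P, hP, hQP, hst⟩ hQ hQA
    rw [Finset.mem_range, not_lt] at hQA
    have hcf : Q.Coprime f := by
      rw [Nat.Prime.coprime_iff_not_dvd hQ]
      intro hd
      have := Nat.le_of_dvd hf hd
      omega
    obtain ⟨k, hk, hχk, hcl⟩ := hfrob Q hcf hQ (by omega) P g hP hQP hst
    have hφT : g ^ k ∈ T := by
      refine hT g (g ^ k) 1 hg ?_
      rw [one_mul, inv_one, mul_one]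
      exact DENS.zp hk
    by_cases h1 : Q % 3 = 1
    · obtain ⟨ρ, hρ⟩ := hSPLT.1 Q hQ h1
      exact ⟨hcf, ρ, g ^ k, hφT, hχk, fun _ => ⟨hρ, ((hcl h1 ρ hρ).1).1⟩⟩
    · obtain ⟨ρ, -⟩ := hSPLT.1 7 (by norm_num) (by norm_num)
      exact ⟨hcf, ρ, g ^ k, hφT, hχk, fun h => absurd h h1⟩
  have hcl : ∀ (Q : ℕ) (hQ : Q.Coprime f) (ρ : PP) (g : L ≃ₐ[ℚ] L)
      (d : Fin (m + 1) → ZMod 3), YP χ κ F d g → χ g = ZMod.unitOfCoprime Q hQ →
      (Q % 3 = 1 → (Q : Eis) = ρ.1 * conj ρ.1 ∧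
          (F g → (∀ j : Fin s, sym ρ.1 (b j.castSucc : Eis) = 0) ∧
            sym ρ.1 (b (Fin.last s) : Eis) ≠ 0)) → ClQ b κ d Q hQ ρ := by
    rintro Q hQ ρ g d ⟨h1, h2, h4⟩ hg h5
    rw [hg] at h1 h2
    have h6 := DENSS.M1_Q h3f hQ h1
    obtain ⟨h7, h8⟩ := h5 h6
    exact ⟨h6, h2, h7, h8 h4⟩
  obtain ⟨K1, hK1⟩ := RI.PDGE_thm _
    ({Q : ℕ | ∃ (hQ : Q.Coprime f) (ρ : PP), ClQ b κ c Q hQ ρ} ∪
      {Q : ℕ | ∃ (hQ : Q.Coprime f) (ρ : PP), ClQ b κ (-c) Q hQ ρ})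
    (Finset.range (N₀ + f + 1)) _ (RI.FROBD_thm L _ hT1) (by
      intro Q hQS hQ hQA
      obtain ⟨hQf, ρ, g, hgT, hg, h5⟩ := hprime _ hT1 Q hQS hQ hQA
      rcases hgT with h | h
      · exact Or.inl ⟨hQf, ρ, hcl Q hQf ρ g c h hg h5⟩
      · exact Or.inr ⟨hQf, ρ, hcl Q hQf ρ g (-c) h hg h5⟩)
  obtain ⟨K2, hK2⟩ := RI.PDGE_thm _
    ({Q : ℕ | ∃ (hQ : Q.Coprime f) (ρ : PP), ClQ b κ c Q hQ ρ} ∩
      {Q : ℕ | ∃ (hQ : Q.Coprime f) (ρ : PP), ClQ b κ (-c) Q hQ ρ})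
    (Finset.range (N₀ + f + 1)) _ (RI.FROBD_thm L _ hT2) (by
      intro Q hQS hQ hQA
      obtain ⟨hQf, ρ, g, hgT, hg, h5⟩ := hprime _ hT2 Q hQS hQ hQA
      exact ⟨⟨hQf, ρ, hcl Q hQf ρ g c hgT.1 hg h5⟩, ⟨hQf, ρ, hcl Q hQf ρ g (-c) hgT.2 hg h5⟩⟩)
  refine ⟨K1 + K2, fun σ h1 h2 => ?_⟩
  have e1 := hK1 σ h1 h2
  have e2 := hK2 σ h1 h2
  rw [BD.sm_union_inter _ _ h1]
  have hG : 0 < Nat.card (L ≃ₐ[ℚ] L) := Nat.card_pos
  have hcount : (2 : ℝ) / 3 ^ (s + 1) / 3 ^ (m + 1) =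
      (Nat.card {g : L ≃ₐ[ℚ] L | YP χ κ F c g ∨ YP χ κ F (-c) g} : ℝ) /
        Nat.card (L ≃ₐ[ℚ] L) +
      (Nat.card {g : L ≃ₐ[ℚ] L | YP χ κ F c g ∧ YP χ κ F (-c) g} : ℝ) /
        Nat.card (L ≃ₐ[ℚ] L) := by
    have i3 : (Nat.card {g : L ≃ₐ[ℚ] L | YP χ κ F c g ∨ YP χ κ F (-c) g} : ℝ) +
        Nat.card {g : L ≃ₐ[ℚ] L | YP χ κ F c g ∧ YP χ κ F (-c) g} =
        Nat.card {g : L ≃ₐ[ℚ] L // YP χ κ F c g} +
          Nat.card {g : L ≃ₐ[ℚ] L // YP χ κ F (-c) g} := by exact_mod_cast hincl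
    rw [← add_div, i3]
    generalize Nat.card {g : L ≃ₐ[ℚ] L // YP χ κ F c g} = x1 at *
    generalize Nat.card {g : L ≃ₐ[ℚ] L // YP χ κ F (-c) g} = x2 at *
    generalize Nat.card (L ≃ₐ[ℚ] L) = g0 at *
    have hG' : (0 : ℝ) < g0 := Nat.cast_pos.2 hG
    have i1 : (3 : ℝ) ^ (s + 1) * 3 ^ (m + 1) * x1 = g0 := by exact_mod_cast hcP
    have i2 : (3 : ℝ) ^ (s + 1) * 3 ^ (m + 1) * x2 = g0 := by exact_mod_cast hcM
    rw [div_div, div_eq_div_iff (by positivity) hG'.ne']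
    linear_combination (-1 : ℝ) * i1 - i2
  rw [hcount, add_mul]
  have e1' : (Nat.card {g : L ≃ₐ[ℚ] L | YP χ κ F c g ∨ YP χ κ F (-c) g} : ℝ) /
        Nat.card (L ≃ₐ[ℚ] L) * Real.log (1 / (σ - 1)) - K1 ≤
      sm ({Q : ℕ | ∃ (hQ : Q.Coprime f) (ρ : PP), ClQ b κ c Q hQ ρ} ∪
      {Q : ℕ | ∃ (hQ : Q.Coprime f) (ρ : PP), ClQ b κ (-c) Q hQ ρ}) σ := e1
  have e2' : (Nat.card {g : L ≃ₐ[ℚ] L | YP χ κ F c g ∧ YP χ κ F (-c) g} : ℝ) /
        Nat.card (L ≃ₐ[ℚ] L) * Real.log (1 / (σ - 1)) - K2 ≤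
      sm ({Q : ℕ | ∃ (hQ : Q.Coprime f) (ρ : PP), ClQ b κ c Q hQ ρ} ∩
      {Q : ℕ | ∃ (hQ : Q.Coprime f) (ρ : PP), ClQ b κ (-c) Q hQ ρ}) σ := e2
  linarith

end Pool.Agent.PTN

end

section

/-!
# NZE0: the number of the classes with `v = 0` in the case `h = 0`, `B = ± 1 (mod 9)`
-/

set_option autoImplicit false

open NumberField IsDedekindDomain Finset
open scoped nonZeroDivisors Pointwise

namespace Pool.Agent.PTN

open Pool.Agent.Lib_helper18 Pool.Agent.Lib_helper18.Eis Pool.Agent.Lib_helper84.Cub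
open Pool.Agent.PT Pool.Agent.PTE Pool.Agent.PT3

namespace NZE0

/-- the columns used: `inr j` and `inl i.succ` -/
def colN {m k : ℕ} (j : Fin k) (b : Fin (m + 1)) : Col m k :=
  Fin.cases (motive := fun _ => Col m k) (Sum.inr j) (fun i => Sum.inl i.succ) b

variable (n : ℕ) {m k : ℕ} (π : Fin m → PP) (p e : Fin m → ℕ) (r : Fin k → ℕ)
    (w0 : ZMod 3) (c : Fin m → ZMod 3) (j : Fin k)

/-- the square matrix, without the diagonal `c` -/
noncomputable def Am : Matrix (Fin (m + 1)) (Fin (m + 1)) (ZMod 3) :=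
  fun a b => Nm 0 n π p e r w0 0 a (colN j b)

theorem Am_sub (a b : Fin (m + 1)) :
    (Am n π p e r w0 j - Matrix.diagonal (Fin.cons 0 c : Fin (m + 1) → ZMod 3)) a b =
      Nm 0 n π p e r w0 c a (colN j b) := by
  rw [Matrix.sub_apply]
  refine Fin.cases ?_ (fun i' => ?_) b
  · refine Fin.cases ?_ (fun i => ?_) a
    · rw [Matrix.diagonal_apply_eq, Fin.cons_zero, sub_zero]
      rfl
    · rw [Matrix.diagonal_apply_ne _ (Fin.succ_ne_zero i), sub_zero]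
      rfl
  · refine Fin.cases ?_ (fun i => ?_) a
    · rw [Matrix.diagonal_apply_ne _ (Fin.succ_ne_zero i').symm, sub_zero]
      rfl
    · by_cases hi : i' = i
      · subst hi
        rw [Matrix.diagonal_apply_eq, Fin.cons_succ]
        simp only [Am, colN, Nm, Fin.cases_succ, if_true, Pi.zero_apply, sub_zero]
      · have h1 : i.succ ≠ i'.succ := fun h0 => hi (Fin.succ_injective _ h0).symm
        rw [Matrix.diagonal_apply_ne _ h1, sub_zero]
        simp only [Am, colN, Nm, Fin.cases_succ, if_neg hi]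

theorem vN_zero
    (hdet : (Am n π p e r w0 j - Matrix.diagonal (Fin.cons 0 c : Fin (m + 1) → ZMod 3)).det ≠ 0) :
    vN 0 n π p e r w0 c = 0 := by
  have : Fact (Nat.Prime 3) := ⟨Nat.prime_three⟩
  have h1 : VS 0 n π p e r w0 c = ⊥ := by
    rw [Submodule.eq_bot_iff]
    intro y hy
    obtain ⟨-, h2⟩ := hy
    refine Matrix.eq_zero_of_vecMul_eq_zero hdet ?_
    funext b
    rw [Pi.zero_apply]
    have h3 := h2 (colN j b) (fun _ => by
      refine Fin.cases ?_ (fun i => ?_) b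
      · exact fun h0 => nomatch h0
      · exact fun h0 => Fin.succ_ne_zero _ (Sum.inl.inj h0))
    refine Eq.trans ?_ h3
    change ∑ a, y a * (Am n π p e r w0 j -
      Matrix.diagonal (Fin.cons 0 c : Fin (m + 1) → ZMod 3)) a b =
        ∑ a, y a * Nm 0 n π p e r w0 c a (colN j b)
    refine Finset.sum_congr rfl fun a _ => ?_
    rw [Am_sub]
  unfold vN
  rw [h1]
  exact finrank_bot _ _

end NZE0

open _root_.Pool.Agent.PTN.NZE0 in
/-- NZE0: the number of the classes with `v = 0`, `h = 0`, `B = ± 1 (mod 9)`. -/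
theorem NZE0_thm (hEDC : EDC) : Stmt_NZE0 := by
  intro n m k π p e r f _ hj
  obtain ⟨j, hj⟩ := hj
  have h0 : (Am n π p e r (- wt ((n : ℤ) ^ 2)) j) 0 0 ≠ 0 := hj
  refine (hEDC m _ h0).trans (Nat.card_le_card_of_injective
    (fun x => (⟨(- wt ((n : ℤ) ^ 2), x.1), vN_zero n π p e r _ _ j x.2,
      add_neg_cancel _⟩ : {x : ZMod 3 × (Fin m → ZMod 3) //
        vN 0 n π p e r x.1 x.2 = 0 ∧ wt ((n : ℤ) ^ 2) + x.1 = 0})) ?_)
  intro x1 x2 hx
  have h2 := congrArg Subtype.val hx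
  exact Subtype.ext (Prod.ext_iff.1 h2).2

end Pool.Agent.PTN

end

section

/-!
# TRC: numbers of the same class differ by a cube modulo `9 N`
-/

set_option autoImplicit false

open NumberField IsDedekindDomain Finset
open scoped nonZeroDivisors Pointwise

namespace Pool.Agent.PTN

open Pool.Agent.Lib_helper18 Pool.Agent.Lib_helper18.Eis Pool.Agent.Lib_helper84.Cub
open Pool.Agent.PT Pool.Agent.PTE Pool.Agent.PT3 Pool.Agent.PTL

namespace TRC

/-- the number of the solutions of `x ^ 3 = 1` modulo `f` -/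
noncomputable def N3 (f : ℕ) : ℕ := Nat.card {x : (ZMod f)ˣ // x ^ 3 = 1}

theorem N3_mul {a b : ℕ} (ha : a ≠ 0) (hb : b ≠ 0) (h : a.Coprime b) :
    N3 (a * b) ≤ N3 a * N3 b := by
  have : NeZero a := ⟨ha⟩
  have : NeZero b := ⟨hb⟩
  have : NeZero (a * b) := ⟨mul_ne_zero ha hb⟩
  unfold N3
  rw [← Nat.card_prod]
  let e : (ZMod (a * b))ˣ ≃* (ZMod a)ˣ × (ZMod b)ˣ :=
    (Units.mapEquiv (ZMod.chineseRemainder h).toMulEquiv).trans MulEquiv.prodUnits
  refine Nat.card_le_card_of_injective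
    (fun x : {x : (ZMod (a * b))ˣ // x ^ 3 = 1} =>
      ((⟨(e x.1).1, by rw [← Prod.pow_fst, ← map_pow, x.2, map_one, Prod.fst_one]⟩,
        ⟨(e x.1).2, by rw [← Prod.pow_snd, ← map_pow, x.2, map_one, Prod.snd_one]⟩) :
        {x : (ZMod a)ˣ // x ^ 3 = 1} × {x : (ZMod b)ˣ // x ^ 3 = 1})) ?_
  intro x y hxy
  rw [Prod.ext_iff, Subtype.ext_iff, Subtype.ext_iff] at hxy
  exact Subtype.ext (e.injective (Prod.ext hxy.1 hxy.2))

theorem N3_prod {ι : Type} [DecidableEq ι] (s : Finset ι) (q : ι → ℕ) (hq : ∀ i, q i ≠ 0)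
    (hc : ∀ i j, i ≠ j → (q i).Coprime (q j)) : N3 (∏ i ∈ s, q i) ≤ ∏ i ∈ s, N3 (q i) := by
  induction s using Finset.induction_on with
  | empty =>
    rw [Finset.prod_empty, Finset.prod_empty]
    unfold N3
    have : Subsingleton (ZMod 1) := inferInstance
    have : Subsingleton (ZMod 1)ˣ := inferInstance
    exact Finite.card_le_one_iff_subsingleton.2 inferInstance
  | insert i s hi ih =>
    rw [Finset.prod_insert hi, Finset.prod_insert hi]
    refine (N3_mul (hq i) (Finset.prod_ne_zero_iff.2 fun j _ => hq j) ?_).trans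
      (Nat.mul_le_mul_left _ ih)
    refine Nat.Coprime.prod_right fun j hj => hc i j ?_
    rintro rfl
    exact hi hj

theorem N3_cyc {q : ℕ} (hq : q.Prime) (h2 : q ≠ 2) (j : ℕ) : N3 (q ^ j) ≤ 3 := by
  classical
  have : NeZero (q ^ j) := ⟨pow_ne_zero _ hq.ne_zero⟩
  have hcyc : IsCyclic (ZMod (q ^ j))ˣ := ZMod.isCyclic_units_of_prime_pow q hq h2 j
  unfold N3
  rw [Nat.card_eq_fintype_card, Fintype.card_subtype]
  exact IsCyclic.card_pow_eq_one_le (by norm_num)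

theorem N3_one {q : ℕ} (hq : q.Prime) (h2 : q % 3 = 2) {j : ℕ} (hj : 0 < j) :
    N3 (q ^ j) ≤ 1 := by
  classical
  have : NeZero (q ^ j) := ⟨pow_ne_zero _ hq.ne_zero⟩
  unfold N3
  refine Finite.card_le_one_iff_subsingleton.2 ⟨fun x y => ?_⟩
  have key : ∀ x : {x : (ZMod (q ^ j))ˣ // x ^ 3 = 1}, x.1 = 1 := by
    rintro ⟨x, hx⟩
    have h1 : orderOf x ∣ 3 := orderOf_dvd_of_pow_eq_one hx
    have h3 : orderOf x ∣ (q ^ j).totient := by
      rw [← ZMod.card_units_eq_totient]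
      exact orderOf_dvd_card
    rw [Nat.totient_prime_pow hq hj] at h3
    have hc : Nat.Coprime 3 (q ^ (j - 1) * (q - 1)) := by
      rw [Nat.Prime.coprime_iff_not_dvd Nat.prime_three]
      intro hd
      rcases (Nat.Prime.dvd_mul Nat.prime_three).1 hd with h | h
      · have h4 := Nat.Prime.dvd_of_dvd_pow Nat.prime_three h
        omega
      · omega
    have h4 : orderOf x ∣ 1 := by
      have h5 := Nat.dvd_gcd h1 h3
      rwa [hc] at h5
    exact orderOf_eq_one_iff.1 (Nat.dvd_one.1 h4)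
  exact Subtype.ext ((key x).trans (key y).symm)

/-- the number of the cubes -/
theorem card_cubes (f : ℕ) [NeZero f] (u : (ZMod f)ˣ) :
    f.totient = (Set.range fun x : (ZMod f)ˣ => u * x ^ 3).ncard * N3 f := by
  classical
  let g : (ZMod f)ˣ →* (ZMod f)ˣ := powMonoidHom 3
  have h1 : Nat.card g.ker * g.ker.index = Nat.card (ZMod f)ˣ := Subgroup.card_mul_index _
  rw [Subgroup.index_ker] at h1
  have h2 : Nat.card g.ker = N3 f := rfl
  have h3 : Nat.card g.range = (Set.range fun x : (ZMod f)ˣ => u * x ^ 3).ncard := by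
    have h4 : (Set.range fun x : (ZMod f)ˣ => u * x ^ 3) =
        (fun y => u * y) '' (g.range : Set (ZMod f)ˣ) := by
      ext z
      constructor
      · rintro ⟨x, rfl⟩
        exact ⟨x ^ 3, ⟨x, rfl⟩, rfl⟩
      · rintro ⟨y, ⟨x, rfl⟩, rfl⟩
        exact ⟨x, rfl⟩
    rw [h4, Set.ncard_image_of_injective _ (mul_right_injective u)]
    exact Nat.card_coe_set_eq _
  rw [← ZMod.card_units_eq_totient, ← Nat.card_eq_fintype_card, ← h1, h2, h3, mul_comm]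

end TRC

open _root_.Pool.Agent.PTN.TRC in
theorem TRC_thm (hTRU : Stmt_TRU) : Stmt_TRC := by
  classical
  intro h n m k π p e r f hNF u w0 c y hu hy hcop
  obtain ⟨hT1, hT2⟩ := hTRU h n m k π p e r f hNF
  have hp0 : ∀ i, p i ^ e i ≠ 0 := fun i => pow_ne_zero _ (hNF.pp i).ne_zero
  have hr0 : ∀ j, r j ^ f j ≠ 0 := fun j => pow_ne_zero _ (hNF.rp j).ne_zero
  have hn0 : n ≠ 0 := by
    rw [hNF.eq]
    exact mul_ne_zero (Finset.prod_ne_zero_iff.2 fun i _ => hp0 i)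
      (Finset.prod_ne_zero_iff.2 fun j _ => hr0 j)
  have hF0 : 9 * (3 ^ h * n) ≠ 0 := by positivity
  -- the number of the cube roots of unity
  have hN3 : N3 (9 * (3 ^ h * n)) ≤ 3 ^ (m + 1) := by
    have e1 : 9 * (3 ^ h * n) = 3 ^ (h + 2) * ((∏ i, p i ^ e i) * ∏ j, r j ^ f j) := by
      rw [← hNF.eq]
      ring
    rw [e1]
    have cpr : ∀ i j, (p i ^ e i).Coprime (r j ^ f j) := by
      intro i j
      refine Nat.Coprime.pow _ _ ((Nat.coprime_primes (hNF.pp i) (hNF.rp j)).2 fun hh => ?_)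
      have a1 := hNF.p1 i
      have a2 := hNF.r2 j
      rw [hh] at a1
      omega
    have cpp : ∀ i j, i ≠ j → (p i ^ e i).Coprime (p j ^ e j) := fun i j hij =>
      Nat.Coprime.pow _ _ ((Nat.coprime_primes (hNF.pp i) (hNF.pp j)).2
        fun hh => hij (hNF.pinj hh))
    have crr : ∀ i j, i ≠ j → (r i ^ f i).Coprime (r j ^ f j) := fun i j hij =>
      Nat.Coprime.pow _ _ ((Nat.coprime_primes (hNF.rp i) (hNF.rp j)).2
        fun hh => hij (hNF.rinj hh))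
    have c3 : Nat.Coprime (3 ^ (h + 2)) ((∏ i, p i ^ e i) * ∏ j, r j ^ f j) := by
      refine Nat.Coprime.mul_right ?_ ?_
      · refine Nat.Coprime.prod_right fun i _ => Nat.Coprime.pow _ _ ?_
        refine (Nat.coprime_primes Nat.prime_three (hNF.pp i)).2 fun hh => ?_
        have a1 := hNF.p1 i
        rw [← hh] at a1
        omega
      · refine Nat.Coprime.prod_right fun i _ => Nat.Coprime.pow _ _ ?_
        refine (Nat.coprime_primes Nat.prime_three (hNF.rp i)).2 fun hh => ?_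
        have a1 := hNF.r2 i
        rw [← hh] at a1
        omega
    have cprod : Nat.Coprime (∏ i, p i ^ e i) (∏ j, r j ^ f j) :=
      Nat.Coprime.prod_left fun i _ => Nat.Coprime.prod_right fun j _ => cpr i j
    have b1 : N3 (3 ^ (h + 2)) ≤ 3 := N3_cyc Nat.prime_three (by norm_num) _
    have b2 : N3 (∏ i, p i ^ e i) ≤ 3 ^ m := by
      refine (N3_prod univ _ hp0 cpp).trans ?_
      refine (Finset.prod_le_prod' fun i _ => N3_cyc (hNF.pp i) ?_ (e i)).trans ?_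
      · intro hh
        have a1 := hNF.p1 i
        rw [hh] at a1
        omega
      · rw [Finset.prod_const, Finset.card_univ, Fintype.card_fin]
    have b3 : N3 (∏ j, r j ^ f j) ≤ 1 := by
      refine (N3_prod univ _ hr0 crr).trans ?_
      refine (Finset.prod_le_prod' fun j _ => N3_one (hNF.rp j) (hNF.r2 j) ?_).trans ?_
      · rcases hNF.rf j with hh | hh <;> omega
      · rw [Finset.prod_const_one]
    have hA0 : (∏ i, p i ^ e i) ≠ 0 := Finset.prod_ne_zero_iff.2 fun i _ => hp0 i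
    have hB0 : (∏ j, r j ^ f j) ≠ 0 := Finset.prod_ne_zero_iff.2 fun j _ => hr0 j
    calc N3 (3 ^ (h + 2) * ((∏ i, p i ^ e i) * ∏ j, r j ^ f j))
        ≤ N3 (3 ^ (h + 2)) * N3 ((∏ i, p i ^ e i) * ∏ j, r j ^ f j) :=
          N3_mul (by positivity) (mul_ne_zero hA0 hB0) c3
      _ ≤ 3 * (3 ^ m * 1) := by
          refine Nat.mul_le_mul b1 ((N3_mul hA0 hB0 cprod).trans (Nat.mul_le_mul b2 b3))
      _ = 3 ^ (m + 1) := by ring
  have : NeZero (9 * (3 ^ h * n)) := ⟨hF0⟩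
  -- the class of `u`
  let S : Set (ZMod (9 * (3 ^ h * n)))ˣ :=
    {v | Kl π w0 c (((v : ZMod (9 * (3 ^ h * n))).val : ℕ) : ℤ)}
  let C : Set (ZMod (9 * (3 ^ h * n)))ˣ := Set.range fun x => u * x ^ 3
  have hCS : C ⊆ S := by
    rintro _ ⟨x, rfl⟩
    refine hT2 u w0 c _ (((x : ZMod (9 * (3 ^ h * n))).val : ℕ) : ℤ) hu ?_ ?_
    · exact Nat.isCoprime_iff_coprime.2 (ZMod.val_coe_unit_coprime _)
    · rw [← ZMod.intCast_zmod_eq_zero_iff_dvd]
      push_cast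
      rw [ZMod.natCast_zmod_val, ZMod.natCast_zmod_val, ZMod.natCast_zmod_val, sub_self]
  have hcard : S.ncard ≤ C.ncard := by
    have h1 : S.ncard * 3 ^ (m + 1) = (9 * (3 ^ h * n)).totient := by
      rw [← Nat.card_coe_set_eq]
      exact hT1 w0 c
    have h2 := card_cubes (9 * (3 ^ h * n)) u
    have h3 : S.ncard * 3 ^ (m + 1) ≤ C.ncard * 3 ^ (m + 1) := by
      rw [h1, h2]
      exact Nat.mul_le_mul_left _ hN3
    exact Nat.le_of_mul_le_mul_right h3 (by positivity)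
  have hCSeq : C = S := Set.eq_of_subset_of_ncard_le hCS hcard S.toFinite
  -- the unit of `y`
  obtain ⟨Y, hY⟩ : IsUnit ((y : ℤ) : ZMod (9 * (3 ^ h * n))) :=
    (ZMod.coe_int_isUnit_iff_isCoprime _ _).2 hcop.symm
  have hYS : Y ∈ S := by
    obtain ⟨g1, g2⟩ := hT2 Y (wt ((((Y : ZMod (9 * (3 ^ h * n))).val : ℕ) : ℤ) ^ 2))
      (fun i => sym (π i).1 ((((Y : ZMod (9 * (3 ^ h * n))).val : ℕ) : ℤ) : Eis)) y 1
      ⟨rfl, fun i => rfl⟩ hcop (by
        rw [← ZMod.intCast_zmod_eq_zero_iff_dvd]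
        push_cast
        rw [ZMod.natCast_zmod_val, hY, mul_one, sub_self])
    exact ⟨g1.symm.trans hy.1, fun i => (g2 i).symm.trans (hy.2 i)⟩
  rw [← hCSeq] at hYS
  obtain ⟨x, hx⟩ := hYS
  refine ⟨(((x : ZMod (9 * (3 ^ h * n))).val : ℕ) : ℤ), ?_⟩
  rw [← ZMod.intCast_zmod_eq_zero_iff_dvd]
  push_cast
  rw [ZMod.natCast_zmod_val, ZMod.natCast_zmod_val, ← hY, ← hx, sub_eq_zero]
  push_cast
  rfl

end Pool.Agent.PTN

end

section

/-!
# NZER: the number of the classes with `v = 0`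
-/

set_option autoImplicit false

open NumberField IsDedekindDomain Finset
open scoped nonZeroDivisors Pointwise

namespace Pool.Agent.PTN

open Pool.Agent.Lib_helper18 Pool.Agent.Lib_helper18.Eis Pool.Agent.Lib_helper84.Cub
open Pool.Agent.PT Pool.Agent.PTE Pool.Agent.PT3

namespace NZER

theorem vecMul_apply' {m : ℕ} {β : Type} (y : Fin (m + 1) → ZMod 3)
    (A : Matrix (Fin (m + 1)) β (ZMod 3)) (b : β) :
    Matrix.vecMul y A b = y 0 * A 0 b + ∑ i : Fin m, y i.succ * A i.succ b := by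
  change ∑ a, y a * A a b = _
  rw [Fin.sum_univ_succ]

theorem card_w0 (a : ZMod 3) : Nat.card {w : ZMod 3 // a + w ≠ 0} = 2 := by
  rw [Nat.card_eq_fintype_card]
  revert a
  decide

variable (h n : ℕ) {m k : ℕ} (π : Fin m → PP) (p e : Fin m → ℕ) (r : Fin k → ℕ)
    (w0 : ZMod 3) (c : Fin m → ZMod 3)

theorem eq_zero (hdet : (Mt h n π p e w0 c).det ≠ 0) (hw : wt ((n : ℤ) ^ 2) + w0 ≠ 0)
    (y : Fin (m + 1) → ZMod 3) (hy : y ∈ VS h n π p e r w0 c) : y = 0 := by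
  have : Fact (Nat.Prime 3) := ⟨Nat.prime_three⟩
  obtain ⟨h1, h2⟩ := hy
  by_cases hh : h = 2
  · refine Matrix.eq_zero_of_vecMul_eq_zero hdet ?_
    funext b
    have h3 := h2 (Sum.inl b) (fun h0 => by omega)
    rw [vecMul_apply'] at h3
    rw [vecMul_apply', Pi.zero_apply, ← h3]
    have h4 : Mt h n π p e w0 c 0 b = Nm h n π p e r w0 c 0 (Sum.inl b) := by
      refine Fin.cases ?_ (fun i' => ?_) b
      · simp only [Mt, Nm, Fin.cases_zero, if_pos hh]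
      · simp only [Mt, Nm, Fin.cases_zero, Fin.cases_succ, if_pos hh]
    have h5 : ∀ i : Fin m, Mt h n π p e w0 c i.succ b =
        Nm h n π p e r w0 c i.succ (Sum.inl b) := by
      intro i
      simp only [Mt, Nm, Fin.cases_succ]
    rw [h4]
    simp only [h5]
  · have hact : ¬ actR h n w0 := by
      rintro (h0 | ⟨-, h0⟩)
      · exact hh h0
      · exact hw h0
    have hy0 := h1 hact
    have h6 : (Fin.cons (- ∑ i : Fin m, y i.succ * Mt h n π p e w0 c i.succ 0)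
        (fun i => y i.succ) : Fin (m + 1) → ZMod 3) = 0 := by
      refine Matrix.eq_zero_of_vecMul_eq_zero hdet ?_
      funext b
      rw [vecMul_apply', Pi.zero_apply]
      simp only [Fin.cons_zero, Fin.cons_succ]
      refine Fin.cases ?_ (fun i' => ?_) b
      · have h7 : Mt h n π p e w0 c 0 0 = 1 := by
          simp only [Mt, Fin.cases_zero, if_neg hh]
        rw [h7, mul_one, neg_add_cancel]
      · have h7 : Mt h n π p e w0 c 0 i'.succ = 0 := by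
          simp only [Mt, Fin.cases_zero, Fin.cases_succ, if_neg hh]
        have h3 := h2 (Sum.inl i'.succ) (fun _ h0 => Fin.succ_ne_zero _ (Sum.inl.inj h0))
        rw [vecMul_apply', hy0, zero_mul, zero_add] at h3
        rw [h7, mul_zero, zero_add, ← h3]
        exact Finset.sum_congr rfl fun i _ => rfl
    funext a
    refine Fin.cases ?_ (fun i => ?_) a
    · exact hy0
    · have h8 := congrFun h6 i.succ
      rw [Fin.cons_succ] at h8
      exact h8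

theorem vN_zero (hdet : (Mt h n π p e w0 c).det ≠ 0) (hw : wt ((n : ℤ) ^ 2) + w0 ≠ 0) :
    vN h n π p e r w0 c = 0 := by
  have h1 : VS h n π p e r w0 c = ⊥ := by
    rw [Submodule.eq_bot_iff]
    exact eq_zero h n π p e r w0 c hdet hw
  unfold vN
  rw [h1]
  exact finrank_bot _ _

end NZER

open _root_.Pool.Agent.PTN.NZER in
theorem NZER_thm (hEMAX : EMAX) : Stmt_NZER := by
  intro h n m k π p e r f _
  let Z : Type := {w : ZMod 3 // wt ((n : ℤ) ^ 2) + w ≠ 0}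
  let C : Z → Type := fun w => {c : Fin m → ZMod 3 // (Mt h n π p e w.1 c).det ≠ 0}
  have h1 : 2 ^ (m + 1) ≤ Nat.card (Σ w : Z, C w) := by
    rw [Nat.card_sigma]
    calc 2 ^ (m + 1) = ∑ w : Z, 2 ^ m := by
          rw [Finset.sum_const, Finset.card_univ, ← Nat.card_eq_fintype_card, card_w0,
            smul_eq_mul, pow_succ, mul_comm]
      _ ≤ ∑ w : Z, Nat.card (C w) :=
          Finset.sum_le_sum fun w _ => hEMAX h n m π p e w.1 fun _ => w.2
  refine h1.trans (Nat.card_le_card_of_injective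
    (fun x : Σ w : Z, C w => (⟨(x.1.1, x.2.1), vN_zero h n π p e r _ _ x.2.2 x.1.2,
      fun h0 => x.1.2 h0.2⟩ : {x : ZMod 3 × (Fin m → ZMod 3) //
        vN h n π p e r x.1 x.2 = 0 ∧ ¬ (h = 0 ∧ wt ((n : ℤ) ^ 2) + x.1 = 0)})) ?_)
  rintro ⟨⟨w1, hw1⟩, ⟨c1, hc1⟩⟩ ⟨⟨w2, hw2⟩, ⟨c2, hc2⟩⟩ hx
  have h2 := congrArg Subtype.val hx
  obtain ⟨h3, h4⟩ := Prod.ext_iff.1 h2
  change w1 = w2 at h3
  change c1 = c2 at h4
  subst h3
  subst h4
  rfl

end Pool.Agent.PTN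

end

section

/-!
# NZE1: the number of the classes with `v = 0`, `h = 1`
-/

set_option autoImplicit false

open NumberField IsDedekindDomain Finset
open scoped nonZeroDivisors Pointwise

namespace Pool.Agent.PTN

open Pool.Agent.Lib_helper18 Pool.Agent.Lib_helper18.Eis Pool.Agent.Lib_helper84.Cub
open Pool.Agent.PT Pool.Agent.PTE Pool.Agent.PT3

namespace NZE1

variable (n : ℕ) {m k : ℕ} (π : Fin m → PP) (p e : Fin m → ℕ) (r : Fin k → ℕ)
    (w0 : ZMod 3) (c : Fin m → ZMod 3)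

theorem eq_zero (hdet : (Mt 1 n π p e w0 c).det ≠ 0)
    (y : Fin (m + 1) → ZMod 3) (hy : y ∈ VS 1 n π p e r w0 c) : y = 0 := by
  have : Fact (Nat.Prime 3) := ⟨Nat.prime_three⟩
  obtain ⟨h1, h2⟩ := hy
  have hh : ¬ (1 : ℕ) = 2 := by norm_num
  have hact : ¬ actR 1 n w0 := by
    rintro (h0 | ⟨h0, -⟩)
    · exact hh h0
    · exact absurd h0 (by norm_num)
  have hy0 := h1 hact
  have h6 : (Fin.cons (- ∑ i : Fin m, y i.succ * Mt 1 n π p e w0 c i.succ 0)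
      (fun i => y i.succ) : Fin (m + 1) → ZMod 3) = 0 := by
    refine Matrix.eq_zero_of_vecMul_eq_zero hdet ?_
    funext b
    rw [NZER.vecMul_apply', Pi.zero_apply]
    simp only [Fin.cons_zero, Fin.cons_succ]
    refine Fin.cases ?_ (fun i' => ?_) b
    · have h7 : Mt 1 n π p e w0 c 0 0 = 1 := by
        simp only [Mt, Fin.cases_zero, if_neg hh]
      rw [h7, mul_one, neg_add_cancel]
    · have h7 : Mt 1 n π p e w0 c 0 i'.succ = 0 := by
        simp only [Mt, Fin.cases_zero, Fin.cases_succ, if_neg hh]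
      have h3 := h2 (Sum.inl i'.succ) (fun _ h0 => Fin.succ_ne_zero _ (Sum.inl.inj h0))
      rw [NZER.vecMul_apply', hy0, zero_mul, zero_add] at h3
      rw [h7, mul_zero, zero_add, ← h3]
      exact Finset.sum_congr rfl fun i _ => rfl
  funext a
  refine Fin.cases ?_ (fun i => ?_) a
  · exact hy0
  · have h8 := congrFun h6 i.succ
    rw [Fin.cons_succ] at h8
    exact h8

theorem vN_zero (hdet : (Mt 1 n π p e w0 c).det ≠ 0) : vN 1 n π p e r w0 c = 0 := by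
  have h1 : VS 1 n π p e r w0 c = ⊥ := by
    rw [Submodule.eq_bot_iff]
    exact eq_zero n π p e r w0 c hdet
  unfold vN
  rw [h1]
  exact finrank_bot _ _

end NZE1

open _root_.Pool.Agent.PTN.NZE1 in
theorem NZE1_thm (hEMAX : EMAX) : Stmt_NZE1 := by
  intro n m k π p e r f _
  let C : ZMod 3 → Type := fun w => {c : Fin m → ZMod 3 // (Mt 1 n π p e w c).det ≠ 0}
  have h1 : 3 * 2 ^ m ≤ Nat.card (Σ w : ZMod 3, C w) := by
    rw [Nat.card_sigma]
    calc 3 * 2 ^ m = ∑ w : ZMod 3, 2 ^ m := by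
          rw [Finset.sum_const, Finset.card_univ, smul_eq_mul, ZMod.card]
      _ ≤ ∑ w : ZMod 3, Nat.card (C w) :=
          Finset.sum_le_sum fun w _ => hEMAX 1 n m π p e w fun h => absurd h (by norm_num)
  refine h1.trans (Nat.card_le_card_of_injective
    (fun x : Σ w : ZMod 3, C w => (⟨(x.1, x.2.1), vN_zero n π p e r _ _ x.2.2⟩ :
      {x : ZMod 3 × (Fin m → ZMod 3) // vN 1 n π p e r x.1 x.2 = 0})) ?_)
  rintro ⟨w1, ⟨c1, hc1⟩⟩ ⟨w2, ⟨c2, hc2⟩⟩ hx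
  have h2 := congrArg Subtype.val hx
  obtain ⟨h3, h4⟩ := Prod.ext_iff.1 h2
  change w1 = w2 at h3
  change c1 = c2 at h4
  subst h3
  subst h4
  rfl

end Pool.Agent.PTN

end
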