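import Mathlib
import Pool.Agent.PTWX.C16

/-! Parts: PT.FDA, PT3.FDAT -/

namespace Pool.Agent.PT.FDA
end Pool.Agent.PT.FDA

namespace Pool.Agent.PT3.FDAT
end Pool.Agent.PT3.FDAT

section

/-!
# Prime twists of rank zero: FDA, the three integers of the first descent
-/

namespace Pool.Agent.PT

open Pool.Agent.Lib_helper18 Pool.Agent.Lib_helper18.Eis Pool.Agent.Lib_helper84.Cub

namespace FDA

/-- There is an element of `PP` above every rational prime different from `3`. -/
theorem exPP {l : ℕ} (hl : l.Prime) (h3 : l ≠ 3) : ∃ π : PP, π.1 ∣ (l : Eis) := by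
  have h0 : (l : Eis) ≠ 0 := by
    intro h
    have h1 := congrArg Eis.re h
    rw [natCast_re, zero_re] at h1
    exact hl.ne_zero (by exact_mod_cast h1)
  have hu : ¬ IsUnit (l : Eis) := by
    rw [isUnit_iff_norm, norm_natCast]
    intro h
    have h2 : (2 : ℤ) ≤ l := by exact_mod_cast hl.two_le
    nlinarith
  obtain ⟨ρ, hρ, hρl⟩ := WfDvdMonoid.exists_irreducible_factor hu h0
  have hlam : ¬ lam ∣ ρ := by
    intro h
    have h1 := lam_dvd_iff.1 (h.trans hρl)
    rw [natCast_re, natCast_im, add_zero] at h1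
    have h2 : 3 ∣ l := by exact_mod_cast h1
    rcases (Nat.dvd_prime hl).1 h2 with h | h
    · omega
    · exact h3 h.symm
  obtain ⟨i, h1, h2⟩ := exists_prim hlam
  have hw : IsUnit (w ^ i) := IsUnit.pow i (IsUnit.of_mul_eq_one (w ^ 2) (by
    rw [← pow_succ', w_cube]))
  have ha : Associated ρ (ρ * w ^ i) := ⟨hw.unit, by simp⟩
  have hp : Prime (ρ * w ^ i) := ha.prime hρ.prime
  have hd : ρ * w ^ i ∣ (l : Eis) := ha.symm.dvd.trans hρl
  rcases (by rw [neg_re]; omega : (ρ * w ^ i).re % 3 = 2 ∨ (-(ρ * w ^ i)).re % 3 = 2) with h | h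
  · exact ⟨⟨ρ * w ^ i, hp, h, h1⟩, hd⟩
  · exact ⟨⟨-(ρ * w ^ i), hp.neg, h, by rw [neg_im]; exact h1.neg_right⟩, by
      show -(ρ * w ^ i) ∣ (l : Eis)
      exact (neg_dvd).2 hd⟩

theorem cubefree {B : ℤ} (hB : BOk B) {l : ℕ} (hl : l.Prime) : ¬ (l : ℤ) ^ 3 ∣ B := by
  intro h
  by_cases h3 : l = 3
  · subst h3
    exact hB.three ((dvd_pow_self _ (by norm_num)).trans h)
  · obtain ⟨π, hπ⟩ := exPP hl h3
    have h1 : π.1 ^ 3 ∣ (B : Eis) := by
      refine (pow_dvd_pow_of_dvd hπ 3).trans ?_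
      obtain ⟨k, rfl⟩ := h
      exact ⟨(k : Eis), by push_cast; rfl⟩
    have h2 := hB.cf π
    have h0 : (B : Eis) ≠ 0 := by
      intro h
      have h1 := congrArg Eis.re h
      rw [intCast_re, zero_re] at h1
      exact hB.ne h1
    have h4 : FiniteMultiplicity π.1 (B : Eis) :=
      FiniteMultiplicity.of_prime_left π.2.1 h0
    have h5 := h4.le_multiplicity_of_pow_dvd h1
    have h6 : V π.1 (B : Eis) = multiplicity π.1 (B : Eis) := rfl
    omega

theorem dvd_of_cube {B N z : ℤ} (hB : ∀ l : ℕ, l.Prime → ¬ (l : ℤ) ^ 3 ∣ B) (hN : N ≠ 0)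
    (h : N ^ 3 ∣ B * z ^ 3) : N ∣ z := by
  have hg : 0 < Int.gcd N z := Int.gcd_pos_of_ne_zero_left z hN
  obtain ⟨N', z', hc, h1, h2⟩ := Int.exists_gcd_one hg
  set g : ℤ := (Int.gcd N z : ℤ) with hgdef
  have hg0 : g ≠ 0 := by
    rw [hgdef]
    exact_mod_cast hg.ne'
  have h3 : N' ^ 3 ∣ B := by
    have h4 : N' ^ 3 * g ^ 3 ∣ (B * z' ^ 3) * g ^ 3 := by
      obtain ⟨k, hk⟩ := h
      refine ⟨k, ?_⟩
      rw [h1, h2] at hk
      linear_combination hk
    have h5 := (mul_dvd_mul_iff_right (pow_ne_zero 3 hg0)).1 h4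
    have h6 : IsCoprime (N' ^ 3) (z' ^ 3) := (Int.isCoprime_iff_gcd_eq_one.2 hc).pow
    exact h6.dvd_of_dvd_mul_right h5
  have h7 : N'.natAbs = 1 := by
    by_contra hne
    obtain ⟨l, hl, hlN⟩ := Nat.exists_prime_and_dvd hne
    exact hB l hl ((pow_dvd_pow_of_dvd (Int.natCast_dvd.2 hlN) 3).trans h3)
  rw [h1, h2]
  exact mul_dvd_mul_right ((Int.isUnit_iff_natAbs_eq.2 h7).dvd) _

/-- The final computation. -/
theorem fin_step {B z s t ε : ℤ} {A : Fin 3 → ℤ} (hB : BOk B) (hB3 : 3 ≤ |B|) (hz : z ≠ 0)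
    (hε : ε = 1 ∨ ε = -1) (hN0 : s ^ 2 - s * t + t ^ 2 ≠ 0)
    (hsum : A 0 + A 1 + A 2 = 0) (hcop : IsCoprime (A 0) (A 1))
    (hprod : A 0 * A 1 * A 2 * (s ^ 2 - s * t + t ^ 2) ^ 3 = ε * B * z ^ 3)
    (hN1 : s ^ 2 - s * t + t ^ 2 = 1 → |A 0 * A 1 * A 2| = 2) :
    ∃ (A : Fin 3 → ℤ) (m : ℤ), (∀ k, A k ≠ 0) ∧ A 0 + A 1 + A 2 = 0 ∧
    A 0 * A 1 * A 2 = B * m ^ 3 ∧ (∀ i j, i ≠ j → IsCoprime (A i) (A j)) ∧ |m| < |z| := by
  set N : ℤ := s ^ 2 - s * t + t ^ 2 with hN
  have hNpos : 0 < N := by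
    have h1 : 0 ≤ N := by
      rw [hN]
      nlinarith [sq_nonneg (2 * s - t), sq_nonneg t]
    omega
  have hNz : N ∣ z := by
    apply dvd_of_cube (fun l hl => cubefree hB hl) hN0
    have hee : ε * ε = 1 := by rcases hε with rfl | rfl <;> norm_num
    exact ⟨ε * (A 0 * A 1 * A 2), by linear_combination (-ε) * hprod + (- B * z ^ 3) * hee⟩
  obtain ⟨m, rfl⟩ := hNz
  have hm : m ≠ 0 := by
    rintro rfl
    exact hz (mul_zero _)
  have he3 : ε ^ 3 = ε := by rcases hε with rfl | rfl <;> norm_num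
  have hp : A 0 * A 1 * A 2 = B * (ε * m) ^ 3 := by
    apply mul_right_cancel₀ (pow_ne_zero 3 hN0)
    rw [hprod]
    linear_combination (- B * m ^ 3 * N ^ 3) * he3
  have hA0 : A 0 * A 1 * A 2 ≠ 0 := by
    rw [hp]
    refine mul_ne_zero hB.ne (pow_ne_zero 3 (mul_ne_zero ?_ hm))
    rcases hε with rfl | rfl <;> norm_num
  have hA2 : A 2 = -(A 0 + A 1) := by linarith
  have h12 : IsCoprime (A 1) (A 2) := by
    rw [hA2]
    refine IsCoprime.neg_right ?_
    have := hcop.symm.add_mul_left_right 1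
    rwa [mul_one] at this
  have h02 : IsCoprime (A 0) (A 2) := by
    rw [hA2]
    refine IsCoprime.neg_right ?_
    have := hcop.add_mul_left_right 1
    rw [mul_one] at this
    rwa [add_comm] at this
  refine ⟨A, ε * m, ?_, hsum, hp, ?_, ?_⟩
  · intro k
    fin_cases k
    · exact left_ne_zero_of_mul (left_ne_zero_of_mul hA0)
    · exact right_ne_zero_of_mul (left_ne_zero_of_mul hA0)
    · exact right_ne_zero_of_mul hA0
  · intro i j hij
    fin_cases i <;> fin_cases j <;>
      first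
        | exact absurd rfl hij
        | exact hcop
        | exact hcop.symm
        | exact h12
        | exact h12.symm
        | exact h02
        | exact h02.symm
  · have he1 : |ε * m| = |m| := by
      rw [abs_mul]
      rcases hε with rfl | rfl <;> simp
    rw [he1, abs_mul, abs_of_pos hNpos]
    have hmpos : 0 < |m| := abs_pos.2 hm
    have hN2 : 2 ≤ N := by
      by_contra hlt
      have h1 : N = 1 := by omega
      have h2 := hN1 h1
      rw [hp, abs_mul, abs_pow, he1] at h2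
      have h3 : 1 ≤ |m| ^ 3 := one_le_pow₀ (by omega)
      nlinarith
    nlinarith

end FDA

open _root_.Pool.Agent.PT.FDA in
theorem FDA_thm : FDA := by
  intro B x y z c d δ hB hB3 hxy hz hcub hc hd hδ h
  obtain ⟨s, t⟩ := δ
  have hst : IsCoprime s t := by
    rw [Int.isCoprime_iff_gcd_eq_one]
    have h1 : ((Int.gcd s t : ℤ) : Eis) ∣ (⟨s, t⟩ : Eis) := by
      obtain ⟨s', hs'⟩ := Int.gcd_dvd_left s t
      obtain ⟨t', ht'⟩ := Int.gcd_dvd_right s t
      refine ⟨⟨s', t'⟩, ?_⟩
      ext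
      · simp only [mul_re, intCast_re, intCast_im]
        linear_combination hs'
      · simp only [mul_im, intCast_re, intCast_im]
        linear_combination ht'
    have h2 := hδ _ h1
    have h3 := Int.isUnit_iff_natAbs_eq.1 h2
    simpa using h3
  have hre : d * x = c * (3 * s ^ 2 * t - s ^ 3 - t ^ 3) := by
    have h1 := congrArg Eis.re h
    rw [w_sq] at h1
    simp only [pow_succ, pow_zero, one_mul, mul_re, mul_im, add_re, add_im, sub_re, sub_im,
      neg_re, neg_im, one_re, one_im, w_re, w_im, intCast_re, intCast_im] at h1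
    linear_combination h1
  have him : d * y = c * (3 * s * t ^ 2 - s ^ 3 - t ^ 3) := by
    have h1 := congrArg Eis.im h
    rw [w_sq] at h1
    simp only [pow_succ, pow_zero, one_mul, mul_re, mul_im, add_re, add_im, sub_re, sub_im,
      neg_re, neg_im, one_re, one_im, w_re, w_im, intCast_re, intCast_im] at h1
    linear_combination h1
  set P : ℤ := 3 * s ^ 2 * t - s ^ 3 - t ^ 3 with hP
  set Q : ℤ := 3 * s * t ^ 2 - s ^ 3 - t ^ 3 with hQ
  have hPQ : P * y = Q * x := by
    apply mul_left_cancel₀ hc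
    linear_combination (-y) * hre + x * him
  obtain ⟨a', b', hab⟩ := hxy
  obtain ⟨k, hk⟩ : ∃ k, k = P * a' + Q * b' := ⟨_, rfl⟩
  have hkx : k * x = P := by
    rw [hk]
    linear_combination P * hab - b' * hPQ
  have hky : k * y = Q := by
    rw [hk]
    linear_combination Q * hab + a' * hPQ
  have hk3 : k ∣ 3 := by
    have h1 : IsCoprime P s := by
      have h2 : IsCoprime (-(t ^ 3)) s := (hst.symm.pow_left).neg_left
      have h3 := h2.add_mul_right_left (3 * s * t - s ^ 2)
      have h4 : -(t ^ 3) + (3 * s * t - s ^ 2) * s = P := by rw [hP]; ring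
      rwa [h4] at h3
    have h5 : IsCoprime P t := by
      have h2 : IsCoprime (-(s ^ 3)) t := (hst.pow_left).neg_left
      have h3 := h2.add_mul_right_left (3 * s ^ 2 - t ^ 2)
      have h4 : -(s ^ 3) + (3 * s ^ 2 - t ^ 2) * t = P := by rw [hP]; ring
      rwa [h4] at h3
    have h6 : IsCoprime P (s - t) := by
      have h7 : IsCoprime s (s - t) := by
        have h2 := (hst.neg_right).add_mul_left_right 1
        have h4 : -t + s * 1 = s - t := by ring
        rwa [h4] at h2
      have h2 : IsCoprime (s ^ 3) (s - t) := h7.pow_left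
      have h3 := h2.add_mul_right_left ((s - t) ^ 2 - 3 * s * (s - t))
      have h4 : s ^ 3 + ((s - t) ^ 2 - 3 * s * (s - t)) * (s - t) = P := by rw [hP]; ring
      rwa [h4] at h3
    have h8 : IsCoprime k (s * t * (s - t)) := by
      have h9 : IsCoprime P (s * t * (s - t)) := (h1.mul_right h5).mul_right h6
      rw [← hkx] at h9
      exact h9.of_mul_left_left
    have h10 : k ∣ 3 * (s * t * (s - t)) :=
      ⟨x - y, by linear_combination (-1 : ℤ) * hkx + hky + hP - hQ⟩
    exact h8.dvd_of_dvd_mul_right h10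
  have hNN : P ^ 2 - P * Q + Q ^ 2 = (s ^ 2 - s * t + t ^ 2) ^ 3 := by
    rw [hP, hQ]
    ring
  have hN0 : s ^ 2 - s * t + t ^ 2 ≠ 0 := by
    intro h0
    have h1 : s ^ 2 = 0 := le_antisymm (by nlinarith [sq_nonneg (2 * t - s)]) (sq_nonneg s)
    have h2 : t ^ 2 = 0 := le_antisymm (by nlinarith [sq_nonneg (2 * s - t)]) (sq_nonneg t)
    rw [pow_eq_zero_iff two_ne_zero] at h1 h2
    rw [h1, h2] at hst
    exact not_isCoprime_zero_zero hst
  have hk4 : k = 1 ∨ k = -1 ∨ k = 3 ∨ k = -3 := by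
    have h1 : k.natAbs ∣ 3 := by
      have := Int.natAbs_dvd_natAbs.2 hk3
      simpa using this
    rcases (Nat.dvd_prime Nat.prime_three).1 h1 with h | h <;> omega
  have key : (2 * s - t) * (2 * t - s) * (-(s + t)) * (s ^ 2 - s * t + t ^ 2) ^ 3 =
      - k ^ 3 * B * z ^ 3 := by
    have e1 : (2 * s - t) * (2 * t - s) * (-(s + t)) = -(P + Q) := by
      rw [hP, hQ]
      ring
    rw [e1, ← hNN, ← hkx, ← hky]
    linear_combination (-k ^ 3) * hcub
  have e2 : (s + t) ^ 3 = -P + 3 * (s ^ 2 * t + s * t * (s + t)) := by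
    rw [hP]
    ring
  have e3 : (s + t) ^ 3 = -Q + 3 * (s * t ^ 2 + s * t * (s + t)) := by
    rw [hQ]
    ring
  have hp3 : Prime (3 : ℤ) := Int.prime_three
  by_cases h3 : (3 : ℤ) ∣ s + t
  · obtain ⟨r, hr⟩ := h3
    have hsr : s = 3 * r - t := by linarith
    have hk5 : k = 3 ∨ k = -3 := by
      have h4 : (3 : ℤ) ∣ (s + t) ^ 3 := (Dvd.intro _ hr.symm).trans (dvd_pow_self _ (by norm_num))
      have h5 : (3 : ℤ) ∣ P := by
        have : P = 3 * (s ^ 2 * t + s * t * (s + t)) - (s + t) ^ 3 := by linarith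
        rw [this]
        exact dvd_sub (dvd_mul_right _ _) h4
      have h6 : (3 : ℤ) ∣ Q := by
        have : Q = 3 * (s * t ^ 2 + s * t * (s + t)) - (s + t) ^ 3 := by linarith
        rw [this]
        exact dvd_sub (dvd_mul_right _ _) h4
      have h7 : ¬ ((3 : ℤ) ∣ x ∧ (3 : ℤ) ∣ y) := by
        rintro ⟨⟨x', hx'⟩, y', hy'⟩
        rw [hx', hy'] at hab
        have h8 : (3 : ℤ) ∣ 1 := ⟨a' * x' + b' * y', by linarith⟩
        exact hp3.not_dvd_one h8
      rcases hk4 with h | h | h | h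
      · exfalso
        rw [h, one_mul] at hkx hky
        exact h7 ⟨hkx ▸ h5, hky ▸ h6⟩
      · exfalso
        rw [h, neg_one_mul] at hkx hky
        exact h7 ⟨(dvd_neg).1 (hkx ▸ h5), (dvd_neg).1 (hky ▸ h6)⟩
      · exact Or.inl h
      · exact Or.inr h
    obtain ⟨ε, hε, hkε⟩ : ∃ ε : ℤ, (ε = 1 ∨ ε = -1) ∧ k = -3 * ε := by
      rcases hk5 with h | h
      · exact ⟨-1, Or.inr rfl, by rw [h]; norm_num⟩
      · exact ⟨1, Or.inl rfl, by rw [h]; norm_num⟩
    have he3 : ε ^ 3 = ε := by rcases hε with rfl | rfl <;> norm_num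
    refine fin_step (s := s) (t := t) (ε := ε) (A := ![2 * r - t, 2 * r - s, -r]) hB hB3 hz hε
      hN0 ?_ ?_ ?_ ?_
    · show 2 * r - t + (2 * r - s) + -r = 0
      linarith
    · show IsCoprime (2 * r - t) (2 * r - s)
      obtain ⟨a, b, hab'⟩ := hst
      refine ⟨2 * a + b, a + 2 * b, ?_⟩
      linear_combination hab' + (-(2 : ℤ) * a - 2 * b) * hr
    · show (2 * r - t) * (2 * r - s) * -r * (s ^ 2 - s * t + t ^ 2) ^ 3 = ε * B * z ^ 3
      apply mul_left_cancel₀ (show (27 : ℤ) ≠ 0 by norm_num)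
      rw [hkε] at key
      have h4 : 27 * ((2 * r - t) * (2 * r - s) * -r) =
          (2 * s - t) * (2 * t - s) * (-(s + t)) := by
        rw [hsr]
        ring
      linear_combination key + (s ^ 2 - s * t + t ^ 2) ^ 3 * h4 + 27 * B * z ^ 3 * he3
    · intro h1
      exfalso
      rw [hsr] at h1
      ring_nf at h1
      omega
  · have hk5 : k = 1 ∨ k = -1 := by
      rcases hk4 with h | h | h | h
      · exact Or.inl h
      · exact Or.inr h
      · exfalso
        apply h3
        apply hp3.dvd_of_dvd_pow (n := 3)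
        rw [e2, ← hkx, h]
        exact ⟨-x + (s ^ 2 * t + s * t * (s + t)), by ring⟩
      · exfalso
        apply h3
        apply hp3.dvd_of_dvd_pow (n := 3)
        rw [e2, ← hkx, h]
        exact ⟨x + (s ^ 2 * t + s * t * (s + t)), by ring⟩
    obtain ⟨ε, hε, hkε⟩ : ∃ ε : ℤ, (ε = 1 ∨ ε = -1) ∧ k = -ε := by
      rcases hk5 with h | h
      · exact ⟨-1, Or.inr rfl, by rw [h]; norm_num⟩
      · exact ⟨1, Or.inl rfl, by rw [h]⟩
    have he3 : ε ^ 3 = ε := by rcases hε with rfl | rfl <;> norm_num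
    refine fin_step (s := s) (t := t) (ε := ε) (A := ![2 * s - t, 2 * t - s, -(s + t)]) hB hB3 hz
      hε hN0 ?_ ?_ ?_ ?_
    · show 2 * s - t + (2 * t - s) + -(s + t) = 0
      ring
    · show IsCoprime (2 * s - t) (2 * t - s)
      obtain ⟨a, b, hab'⟩ := hst
      have h4 : IsCoprime (2 * s - t) 3 := by
        refine (hp3.coprime_iff_not_dvd.2 ?_).symm
        intro h5
        apply h3
        obtain ⟨c', hc'⟩ := h5
        exact ⟨s - c', by linarith⟩
      have h6 : IsCoprime (2 * s - t) (3 - (2 * s - t) * (2 * a + b)) := by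
        have := h4.add_mul_left_right (-(2 * a + b))
        have h7 : 3 + (2 * s - t) * (-(2 * a + b)) = 3 - (2 * s - t) * (2 * a + b) := by ring
        rwa [h7] at this
      have h8 : 3 - (2 * s - t) * (2 * a + b) = (a + 2 * b) * (2 * t - s) := by
        linear_combination (-3 : ℤ) * hab'
      rw [h8] at h6
      exact h6.of_mul_right_right
    · show (2 * s - t) * (2 * t - s) * -(s + t) * (s ^ 2 - s * t + t ^ 2) ^ 3 = ε * B * z ^ 3
      rw [hkε] at key
      linear_combination key + B * z ^ 3 * he3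
    · intro h1
      show |(2 * s - t) * (2 * t - s) * -(s + t)| = 2
      have ht1 : t ≤ 1 := by nlinarith [sq_nonneg (2 * s - t)]
      have ht2 : -1 ≤ t := by nlinarith [sq_nonneg (2 * s - t)]
      have hs1 : s ≤ 1 := by nlinarith [sq_nonneg (2 * t - s)]
      have hs2 : -1 ≤ s := by nlinarith [sq_nonneg (2 * t - s)]
      interval_cases s <;> interval_cases t <;> first | (exfalso; norm_num at h1; done) | norm_num

end Pool.Agent.PT

end

section

/-!
# Prime twists of rank zero, `n` divisible by `3`: FDAT, the three integers of the first descent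
-/

namespace Pool.Agent.PT3

open Pool.Agent.Lib_helper18 Pool.Agent.Lib_helper18.Eis Pool.Agent.Lib_helper84.Cub
open Pool.Agent.PT Pool.Agent.PT.FDA

namespace FDAT

theorem cubefree {B : ℤ} (hB : BT B) {l : ℕ} (hl : l.Prime) : ¬ (l : ℤ) ^ 3 ∣ B := by
  intro h
  by_cases h3 : l = 3
  · subst h3
    exact hB.t2 (by norm_num at h; exact h)
  · obtain ⟨π, hπ⟩ := exPP hl h3
    have h1 : π.1 ^ 3 ∣ (B : Eis) := by
      refine (pow_dvd_pow_of_dvd hπ 3).trans ?_
      obtain ⟨k, rfl⟩ := h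
      exact ⟨(k : Eis), by push_cast; rfl⟩
    have h2 := hB.cf π
    have h0 : (B : Eis) ≠ 0 := by
      intro h
      have h1 := congrArg Eis.re h
      rw [intCast_re, zero_re] at h1
      exact hB.ne h1
    have h4 : FiniteMultiplicity π.1 (B : Eis) :=
      FiniteMultiplicity.of_prime_left π.2.1 h0
    have h5 := h4.le_multiplicity_of_pow_dvd h1
    have h6 : V π.1 (B : Eis) = multiplicity π.1 (B : Eis) := rfl
    omega

/-- The final computation. -/
theorem fin_step {B z s t ε : ℤ} {A : Fin 3 → ℤ} (hB : BT B) (hB3 : 3 ≤ |B|) (hz : z ≠ 0)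
    (hε : ε = 1 ∨ ε = -1) (hN0 : s ^ 2 - s * t + t ^ 2 ≠ 0)
    (hsum : A 0 + A 1 + A 2 = 0) (hcop : IsCoprime (A 0) (A 1))
    (hprod : A 0 * A 1 * A 2 * (s ^ 2 - s * t + t ^ 2) ^ 3 = ε * B * z ^ 3)
    (hN1 : s ^ 2 - s * t + t ^ 2 = 1 → |A 0 * A 1 * A 2| = 2) :
    ∃ (A : Fin 3 → ℤ) (m : ℤ), (∀ k, A k ≠ 0) ∧ A 0 + A 1 + A 2 = 0 ∧
    A 0 * A 1 * A 2 = B * m ^ 3 ∧ (∀ i j, i ≠ j → IsCoprime (A i) (A j)) ∧ |m| < |z| := by
  set N : ℤ := s ^ 2 - s * t + t ^ 2 with hN
  have hNpos : 0 < N := by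
    have h1 : 0 ≤ N := by
      rw [hN]
      nlinarith [sq_nonneg (2 * s - t), sq_nonneg t]
    omega
  have hNz : N ∣ z := by
    apply dvd_of_cube (fun l hl => FDAT.cubefree hB hl) hN0
    have hee : ε * ε = 1 := by rcases hε with rfl | rfl <;> norm_num
    exact ⟨ε * (A 0 * A 1 * A 2), by linear_combination (-ε) * hprod + (- B * z ^ 3) * hee⟩
  obtain ⟨m, rfl⟩ := hNz
  have hm : m ≠ 0 := by
    rintro rfl
    exact hz (mul_zero _)
  have he3 : ε ^ 3 = ε := by rcases hε with rfl | rfl <;> norm_num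
  have hp : A 0 * A 1 * A 2 = B * (ε * m) ^ 3 := by
    apply mul_right_cancel₀ (pow_ne_zero 3 hN0)
    rw [hprod]
    linear_combination (- B * m ^ 3 * N ^ 3) * he3
  have hA0 : A 0 * A 1 * A 2 ≠ 0 := by
    rw [hp]
    refine mul_ne_zero hB.ne (pow_ne_zero 3 (mul_ne_zero ?_ hm))
    rcases hε with rfl | rfl <;> norm_num
  have hA2 : A 2 = -(A 0 + A 1) := by linarith
  have h12 : IsCoprime (A 1) (A 2) := by
    rw [hA2]
    refine IsCoprime.neg_right ?_
    have := hcop.symm.add_mul_left_right 1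
    rwa [mul_one] at this
  have h02 : IsCoprime (A 0) (A 2) := by
    rw [hA2]
    refine IsCoprime.neg_right ?_
    have := hcop.add_mul_left_right 1
    rw [mul_one] at this
    rwa [add_comm] at this
  refine ⟨A, ε * m, ?_, hsum, hp, ?_, ?_⟩
  · intro k
    fin_cases k
    · exact left_ne_zero_of_mul (left_ne_zero_of_mul hA0)
    · exact right_ne_zero_of_mul (left_ne_zero_of_mul hA0)
    · exact right_ne_zero_of_mul hA0
  · intro i j hij
    fin_cases i <;> fin_cases j <;>
      first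
        | exact absurd rfl hij
        | exact hcop
        | exact hcop.symm
        | exact h12
        | exact h12.symm
        | exact h02
        | exact h02.symm
  · have he1 : |ε * m| = |m| := by
      rw [abs_mul]
      rcases hε with rfl | rfl <;> simp
    rw [he1, abs_mul, abs_of_pos hNpos]
    have hmpos : 0 < |m| := abs_pos.2 hm
    have hN2 : 2 ≤ N := by
      by_contra hlt
      have h1 : N = 1 := by omega
      have h2 := hN1 h1
      rw [hp, abs_mul, abs_pow, he1] at h2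
      have h3 : 1 ≤ |m| ^ 3 := one_le_pow₀ (by omega)
      nlinarith
    nlinarith

end FDAT

open _root_.Pool.Agent.PT3.FDAT in
theorem FDAT_thm : FDAT := by
  intro B x y z c d δ hB hB3 hxy hz hcub hc hd hδ h
  obtain ⟨s, t⟩ := δ
  have hst : IsCoprime s t := by
    rw [Int.isCoprime_iff_gcd_eq_one]
    have h1 : ((Int.gcd s t : ℤ) : Eis) ∣ (⟨s, t⟩ : Eis) := by
      obtain ⟨s', hs'⟩ := Int.gcd_dvd_left s t
      obtain ⟨t', ht'⟩ := Int.gcd_dvd_right s t
      refine ⟨⟨s', t'⟩, ?_⟩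
      ext
      · simp only [mul_re, intCast_re, intCast_im]
        linear_combination hs'
      · simp only [mul_im, intCast_re, intCast_im]
        linear_combination ht'
    have h2 := hδ _ h1
    have h3 := Int.isUnit_iff_natAbs_eq.1 h2
    simpa using h3
  have hre : d * x = c * (3 * s ^ 2 * t - s ^ 3 - t ^ 3) := by
    have h1 := congrArg Eis.re h
    rw [w_sq] at h1
    simp only [pow_succ, pow_zero, one_mul, mul_re, mul_im, add_re, add_im, sub_re, sub_im,
      neg_re, neg_im, one_re, one_im, w_re, w_im, intCast_re, intCast_im] at h1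
    linear_combination h1
  have him : d * y = c * (3 * s * t ^ 2 - s ^ 3 - t ^ 3) := by
    have h1 := congrArg Eis.im h
    rw [w_sq] at h1
    simp only [pow_succ, pow_zero, one_mul, mul_re, mul_im, add_re, add_im, sub_re, sub_im,
      neg_re, neg_im, one_re, one_im, w_re, w_im, intCast_re, intCast_im] at h1
    linear_combination h1
  set P : ℤ := 3 * s ^ 2 * t - s ^ 3 - t ^ 3 with hP
  set Q : ℤ := 3 * s * t ^ 2 - s ^ 3 - t ^ 3 with hQ
  have hPQ : P * y = Q * x := by
    apply mul_left_cancel₀ hc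
    linear_combination (-y) * hre + x * him
  obtain ⟨a', b', hab⟩ := hxy
  obtain ⟨k, hk⟩ : ∃ k, k = P * a' + Q * b' := ⟨_, rfl⟩
  have hkx : k * x = P := by
    rw [hk]
    linear_combination P * hab - b' * hPQ
  have hky : k * y = Q := by
    rw [hk]
    linear_combination Q * hab + a' * hPQ
  have hk3 : k ∣ 3 := by
    have h1 : IsCoprime P s := by
      have h2 : IsCoprime (-(t ^ 3)) s := (hst.symm.pow_left).neg_left
      have h3 := h2.add_mul_right_left (3 * s * t - s ^ 2)
      have h4 : -(t ^ 3) + (3 * s * t - s ^ 2) * s = P := by rw [hP]; ring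
      rwa [h4] at h3
    have h5 : IsCoprime P t := by
      have h2 : IsCoprime (-(s ^ 3)) t := (hst.pow_left).neg_left
      have h3 := h2.add_mul_right_left (3 * s ^ 2 - t ^ 2)
      have h4 : -(s ^ 3) + (3 * s ^ 2 - t ^ 2) * t = P := by rw [hP]; ring
      rwa [h4] at h3
    have h6 : IsCoprime P (s - t) := by
      have h7 : IsCoprime s (s - t) := by
        have h2 := (hst.neg_right).add_mul_left_right 1
        have h4 : -t + s * 1 = s - t := by ring
        rwa [h4] at h2
      have h2 : IsCoprime (s ^ 3) (s - t) := h7.pow_left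
      have h3 := h2.add_mul_right_left ((s - t) ^ 2 - 3 * s * (s - t))
      have h4 : s ^ 3 + ((s - t) ^ 2 - 3 * s * (s - t)) * (s - t) = P := by rw [hP]; ring
      rwa [h4] at h3
    have h8 : IsCoprime k (s * t * (s - t)) := by
      have h9 : IsCoprime P (s * t * (s - t)) := (h1.mul_right h5).mul_right h6
      rw [← hkx] at h9
      exact h9.of_mul_left_left
    have h10 : k ∣ 3 * (s * t * (s - t)) :=
      ⟨x - y, by linear_combination (-1 : ℤ) * hkx + hky + hP - hQ⟩
    exact h8.dvd_of_dvd_mul_right h10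
  have hNN : P ^ 2 - P * Q + Q ^ 2 = (s ^ 2 - s * t + t ^ 2) ^ 3 := by
    rw [hP, hQ]
    ring
  have hN0 : s ^ 2 - s * t + t ^ 2 ≠ 0 := by
    intro h0
    have h1 : s ^ 2 = 0 := le_antisymm (by nlinarith [sq_nonneg (2 * t - s)]) (sq_nonneg s)
    have h2 : t ^ 2 = 0 := le_antisymm (by nlinarith [sq_nonneg (2 * s - t)]) (sq_nonneg t)
    rw [pow_eq_zero_iff two_ne_zero] at h1 h2
    rw [h1, h2] at hst
    exact not_isCoprime_zero_zero hst
  have hk4 : k = 1 ∨ k = -1 ∨ k = 3 ∨ k = -3 := by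
    have h1 : k.natAbs ∣ 3 := by
      have := Int.natAbs_dvd_natAbs.2 hk3
      simpa using this
    rcases (Nat.dvd_prime Nat.prime_three).1 h1 with h | h <;> omega
  have key : (2 * s - t) * (2 * t - s) * (-(s + t)) * (s ^ 2 - s * t + t ^ 2) ^ 3 =
      - k ^ 3 * B * z ^ 3 := by
    have e1 : (2 * s - t) * (2 * t - s) * (-(s + t)) = -(P + Q) := by
      rw [hP, hQ]
      ring
    rw [e1, ← hNN, ← hkx, ← hky]
    linear_combination (-k ^ 3) * hcub
  have e2 : (s + t) ^ 3 = -P + 3 * (s ^ 2 * t + s * t * (s + t)) := by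
    rw [hP]
    ring
  have e3 : (s + t) ^ 3 = -Q + 3 * (s * t ^ 2 + s * t * (s + t)) := by
    rw [hQ]
    ring
  have hp3 : Prime (3 : ℤ) := Int.prime_three
  by_cases h3 : (3 : ℤ) ∣ s + t
  · obtain ⟨r, hr⟩ := h3
    have hsr : s = 3 * r - t := by linarith
    have hk5 : k = 3 ∨ k = -3 := by
      have h4 : (3 : ℤ) ∣ (s + t) ^ 3 := (Dvd.intro _ hr.symm).trans (dvd_pow_self _ (by norm_num))
      have h5 : (3 : ℤ) ∣ P := by
        have : P = 3 * (s ^ 2 * t + s * t * (s + t)) - (s + t) ^ 3 := by linarith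
        rw [this]
        exact dvd_sub (dvd_mul_right _ _) h4
      have h6 : (3 : ℤ) ∣ Q := by
        have : Q = 3 * (s * t ^ 2 + s * t * (s + t)) - (s + t) ^ 3 := by linarith
        rw [this]
        exact dvd_sub (dvd_mul_right _ _) h4
      have h7 : ¬ ((3 : ℤ) ∣ x ∧ (3 : ℤ) ∣ y) := by
        rintro ⟨⟨x', hx'⟩, y', hy'⟩
        rw [hx', hy'] at hab
        have h8 : (3 : ℤ) ∣ 1 := ⟨a' * x' + b' * y', by linarith⟩
        exact hp3.not_dvd_one h8
      rcases hk4 with h | h | h | h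
      · exfalso
        rw [h, one_mul] at hkx hky
        exact h7 ⟨hkx ▸ h5, hky ▸ h6⟩
      · exfalso
        rw [h, neg_one_mul] at hkx hky
        exact h7 ⟨(dvd_neg).1 (hkx ▸ h5), (dvd_neg).1 (hky ▸ h6)⟩
      · exact Or.inl h
      · exact Or.inr h
    obtain ⟨ε, hε, hkε⟩ : ∃ ε : ℤ, (ε = 1 ∨ ε = -1) ∧ k = -3 * ε := by
      rcases hk5 with h | h
      · exact ⟨-1, Or.inr rfl, by rw [h]; norm_num⟩
      · exact ⟨1, Or.inl rfl, by rw [h]; norm_num⟩
    have he3 : ε ^ 3 = ε := by rcases hε with rfl | rfl <;> norm_num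
    refine FDAT.fin_step (s := s) (t := t) (ε := ε) (A := ![2 * r - t, 2 * r - s, -r]) hB hB3 hz hε
      hN0 ?_ ?_ ?_ ?_
    · show 2 * r - t + (2 * r - s) + -r = 0
      linarith
    · show IsCoprime (2 * r - t) (2 * r - s)
      obtain ⟨a, b, hab'⟩ := hst
      refine ⟨2 * a + b, a + 2 * b, ?_⟩
      linear_combination hab' + (-(2 : ℤ) * a - 2 * b) * hr
    · show (2 * r - t) * (2 * r - s) * -r * (s ^ 2 - s * t + t ^ 2) ^ 3 = ε * B * z ^ 3
      apply mul_left_cancel₀ (show (27 : ℤ) ≠ 0 by norm_num)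
      rw [hkε] at key
      have h4 : 27 * ((2 * r - t) * (2 * r - s) * -r) =
          (2 * s - t) * (2 * t - s) * (-(s + t)) := by
        rw [hsr]
        ring
      linear_combination key + (s ^ 2 - s * t + t ^ 2) ^ 3 * h4 + 27 * B * z ^ 3 * he3
    · intro h1
      exfalso
      rw [hsr] at h1
      ring_nf at h1
      omega
  · have hk5 : k = 1 ∨ k = -1 := by
      rcases hk4 with h | h | h | h
      · exact Or.inl h
      · exact Or.inr h
      · exfalso
        apply h3
        apply hp3.dvd_of_dvd_pow (n := 3)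
        rw [e2, ← hkx, h]
        exact ⟨-x + (s ^ 2 * t + s * t * (s + t)), by ring⟩
      · exfalso
        apply h3
        apply hp3.dvd_of_dvd_pow (n := 3)
        rw [e2, ← hkx, h]
        exact ⟨x + (s ^ 2 * t + s * t * (s + t)), by ring⟩
    obtain ⟨ε, hε, hkε⟩ : ∃ ε : ℤ, (ε = 1 ∨ ε = -1) ∧ k = -ε := by
      rcases hk5 with h | h
      · exact ⟨-1, Or.inr rfl, by rw [h]; norm_num⟩
      · exact ⟨1, Or.inl rfl, by rw [h]⟩
    have he3 : ε ^ 3 = ε := by rcases hε with rfl | rfl <;> norm_num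
    refine FDAT.fin_step (s := s) (t := t) (ε := ε) (A := ![2 * s - t, 2 * t - s, -(s + t)]) hB hB3 hz
      hε hN0 ?_ ?_ ?_ ?_
    · show 2 * s - t + (2 * t - s) + -(s + t) = 0
      ring
    · show IsCoprime (2 * s - t) (2 * t - s)
      obtain ⟨a, b, hab'⟩ := hst
      have h4 : IsCoprime (2 * s - t) 3 := by
        refine (hp3.coprime_iff_not_dvd.2 ?_).symm
        intro h5
        apply h3
        obtain ⟨c', hc'⟩ := h5
        exact ⟨s - c', by linarith⟩
      have h6 : IsCoprime (2 * s - t) (3 - (2 * s - t) * (2 * a + b)) := by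
        have := h4.add_mul_left_right (-(2 * a + b))
        have h7 : 3 + (2 * s - t) * (-(2 * a + b)) = 3 - (2 * s - t) * (2 * a + b) := by ring
        rwa [h7] at this
      have h8 : 3 - (2 * s - t) * (2 * a + b) = (a + 2 * b) * (2 * t - s) := by
        linear_combination (-3 : ℤ) * hab'
      rw [h8] at h6
      exact h6.of_mul_right_right
    · show (2 * s - t) * (2 * t - s) * -(s + t) * (s ^ 2 - s * t + t ^ 2) ^ 3 = ε * B * z ^ 3
      rw [hkε] at key
      linear_combination key + B * z ^ 3 * he3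
    · intro h1
      show |(2 * s - t) * (2 * t - s) * -(s + t)| = 2
      have ht1 : t ≤ 1 := by nlinarith [sq_nonneg (2 * s - t)]
      have ht2 : -1 ≤ t := by nlinarith [sq_nonneg (2 * s - t)]
      have hs1 : s ≤ 1 := by nlinarith [sq_nonneg (2 * t - s)]
      have hs2 : -1 ≤ s := by nlinarith [sq_nonneg (2 * t - s)]
      interval_cases s <;> interval_cases t <;> first | (exfalso; norm_num at h1; done) | norm_num

end Pool.Agent.PT3

end
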