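import Mathlib
import Pool.Agent.PTWX.C42

/-! Parts: PT.LEV, PT.LFIN, PT3.IIAG, PT3.LB, PT3.LEVG, PT3.LVC, PT3.IIA, PT3.LFIG, PT3.LVB, PTKX.IIAG, PTKX.NHN -/

namespace Pool.Agent.PT.LEV
end Pool.Agent.PT.LEV

namespace Pool.Agent.PT.LFIN
end Pool.Agent.PT.LFIN

namespace Pool.Agent.PT3.IIAG
end Pool.Agent.PT3.IIAG

namespace Pool.Agent.PTK.IIAG
end Pool.Agent.PTK.IIAG

section

/-!
# Prime twists of rank zero: the local evaluation (module LEV)
-/

namespace Pool.Agent.PT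

open Pool.Agent.Lib_helper18 Pool.Agent.Lib_helper18.Eis Pool.Agent.Lib_helper84.Cub

namespace LEV

theorem three0 : (3 : ZMod 3) = 0 := rfl

theorem cast_ne {m : ℤ} (h : m ≠ 0) : (m : Eis) ≠ 0 := by
  intro h'
  apply h
  simpa using congrArg Eis.re h'

theorem w_ne : w ≠ 0 := by
  intro h
  have := congrArg Eis.im h
  simp at this

section Sym

variable {π : Eis} {s : Eis → Eis → ZMod 3} {e : ℕ}

theorem mul_right (h : LSym π s e) {a b c : Eis} (ha : a ≠ 0) (hb : b ≠ 0) (hc : c ≠ 0) :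
    s c (a * b) = s c a + s c b := by
  rw [h.skew (a * b) c (mul_ne_zero ha hb) hc, h.mul a b c ha hb hc, h.skew c a hc ha,
    h.skew c b hc hb]
  ring

theorem cube_left (h : LSym π s e) {c y : Eis} (hc : c ≠ 0) (hy : y ≠ 0) : s (c ^ 3) y = 0 := by
  have e1 : c ^ 3 = c * c * c := by ring
  rw [e1, h.mul _ _ _ (mul_ne_zero hc hc) hc hy, h.mul _ _ _ hc hc hy]
  linear_combination (s c y) * three0

theorem neg_left (h : LSym π s e) {a y : Eis} (ha : a ≠ 0) (hy : y ≠ 0) :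
    s (-a) y = s a y := by
  have h1 : (-1 : Eis) ≠ 0 := neg_ne_zero.2 one_ne_zero
  have e1 : -a = (-1) ^ 3 * a := by ring
  rw [e1, h.mul _ _ _ (pow_ne_zero 3 h1) ha hy, cube_left h h1 hy, zero_add]

end Sym

/-- The relation between `B`, `x` and `n_0`. -/
theorem rel {B x X Y : ℤ} (hB : B ≠ 0) (hP : Pt B x X Y) :
    X ^ 3 + x * Y ^ 3 ≠ 0 ∧ ∃ c : Eis, c ≠ 0 ∧
      (x : Eis) * ((X ^ 3 + x * Y ^ 3 : ℤ) : Eis) = (B : Eis) * c ^ 3 := by
  obtain ⟨c, hc, heq⟩ := hP.eq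
  refine ⟨?_, (c : Eis), cast_ne hc, ?_⟩
  · intro h0
    rw [h0, mul_zero] at heq
    exact (mul_ne_zero hB (pow_ne_zero 3 hc)) heq.symm
  · exact_mod_cast congrArg (Int.cast : ℤ → Eis) heq

/-- The relation of symbols. -/
def Rel (s : Eis → Eis → ZMod 3) (B x n : Eis) : Prop := ∀ y : Eis, y ≠ 0 → s B y = s x y + s n y

theorem rel_sym {π : Eis} {s : Eis → Eis → ZMod 3} {e : ℕ} (h : LSym π s e) {B x n c : Eis}
    (hB : B ≠ 0) (hx : x ≠ 0) (hn : n ≠ 0) (hc : c ≠ 0) (heq : x * n = B * c ^ 3) :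
    Rel s B x n := by
  intro y hy
  have h1 := h.mul x n y hx hn hy
  rw [heq, h.mul B _ y hB (pow_ne_zero 3 hc) hy, cube_left h hc hy, add_zero] at h1
  exact h1

/-- Linear forms at good approximations of a cube root do not vanish. -/
theorem lf_ne {π : Eis} (hπ : Prime π) {p q r b : ℤ} {N : ℕ} (hn : p ^ 3 + b * q ^ 3 ≠ 0)
    (hN : V π ((p ^ 3 + b * q ^ 3 : ℤ) : Eis) < N) (hr : π ^ N ∣ (r : Eis) ^ 3 - (b : Eis))
    (i : ℕ) : Lf p q i r ≠ 0 := by
  intro h0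
  unfold Lf at h0
  have h1 : (q : Eis) * w ^ i * (r : Eis) = -(p : Eis) := by linear_combination h0
  have h2 : ((q : Eis) * w ^ i * (r : Eis)) ^ 3 = (-(p : Eis)) ^ 3 := by rw [h1]
  have h3 : (w ^ i) ^ 3 = 1 := by rw [← pow_mul, mul_comm, pow_mul, w_cube, one_pow]
  have h4 : ((p ^ 3 + b * q ^ 3 : ℤ) : Eis) = (-(q : Eis) ^ 3) * ((r : Eis) ^ 3 - (b : Eis)) := by
    push_cast
    linear_combination h2 - (q : Eis) ^ 3 * (r : Eis) ^ 3 * h3
  have h5 : π ^ N ∣ ((p ^ 3 + b * q ^ 3 : ℤ) : Eis) := by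
    rw [h4]
    exact Dvd.dvd.mul_left hr _
  have h6 := (fin hπ (cast_ne hn)).le_multiplicity_of_pow_dvd h5
  exact absurd h6 (not_le.2 hN)

/-- A symbol of a rational local cube. -/
theorem lc_right {π : Eis} {s : Eis → Eis → ZMod 3} {e : ℕ} (h : LSym π s e) (hLCI : LCI)
    {b : ℤ} (hb : b ≠ 0) (hL : LC π b) {y : Eis} (hy : y ≠ 0) : s y (b : Eis) = 0 := by
  rw [h.skew (b : Eis) y (cast_ne hb) hy, hLCI.2.2 π s e b y h hL hb hy, neg_zero]

/-- The swapped solution. -/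
theorem swap {b x p q p' q' : ℤ} (h : Sol b x p q p' q') :
    Sol x b p (-p') (-q) q' where
  eq := by linear_combination h.eq
  n1 := by
    intro h0
    apply h.n2
    linear_combination h0
  n2 := by
    intro h0
    apply h.n1
    linear_combination h0

theorem nn {b x p q p' q' : ℤ} (h : Sol b x p q p' q') :
    (-q) ^ 3 + x * q' ^ 3 ≠ 0 := by
  intro h0
  apply h.n2
  linear_combination h.eq + b * h0

theorem gf_swap (p q p' q' : ℤ) (i : ℕ) : Gf p (-p') (-q) q' i = Gf p q p' q' i := by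
  unfold Gf
  push_cast
  ring

/-- The local term of a point when `x` is a local cube. -/
theorem SV_LC {π : Eis} {s : Eis → Eis → ZMod 3} {e : ℕ} (h : LSym π s e) (hLCI : LCI)
    (hIF4 : IF4) {B b x p q p' q' X Y : ℤ} (hb : b ≠ 0) (hx : x ≠ 0)
    (hS : Sol b x p q p' q') (hX : X ≠ 0) (hY : Y ≠ 0) (hn : X ^ 3 + x * Y ^ 3 ≠ 0)
    (hL : LC π x) (hrel : Rel s (B : Eis) (x : Eis) ((X ^ 3 + x * Y ^ 3 : ℤ) : Eis)) :
    ∃ N0 : ℕ, V π ((X ^ 3 + x * Y ^ 3 : ℤ) : Eis) < N0 ∧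
      ∀ ξ : ℤ, π ^ N0 ∣ (ξ : Eis) ^ 3 - (x : Eis) → (∀ i, Lf X Y i ξ ≠ 0) ∧
        SV s x p q p' q' X Y = AS s (B : Eis) p (-p') (-q) q' ξ +
          s (Lf X Y 1 ξ) (b : Eis) - s (Lf X Y 2 ξ) (b : Eis) := by
  obtain ⟨N1, h1⟩ := hIF4 π s e h b x p q p' q' X Y hb hx hS hX hY hn
  have hn' : p ^ 3 + x * (-p') ^ 3 ≠ 0 := (swap hS).n1
  have hn'' := nn hS
  set N0 := N1 + V π ((X ^ 3 + x * Y ^ 3 : ℤ) : Eis) + V π ((p ^ 3 + x * (-p') ^ 3 : ℤ) : Eis) +
    V π (((-q) ^ 3 + x * q' ^ 3 : ℤ) : Eis) + 1 with hN0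
  refine ⟨N0, by omega, fun ξ hξ => ?_⟩
  have hF := lf_ne h.prime hn (N := N0) (by omega) hξ
  have hG := lf_ne h.prime hn' (N := N0) (by omega) hξ
  have hG' := lf_ne h.prime hn'' (N := N0) (by omega) hξ
  refine ⟨hF, ?_⟩
  rw [h1 ξ ((pow_dvd_pow π (by omega)).trans hξ)]
  have key : ∀ y : Eis, y ≠ 0 →
      s (B : Eis) y = s ((X ^ 3 + x * Y ^ 3 : ℤ) : Eis) y := by
    intro y hy
    rw [hrel y hy, hLCI.2.2 π s e x y h hL hx hy, zero_add]
  unfold AS
  rw [key _ (hG 2), key _ (hG' 1), key _ (hG 1), key _ (hG' 2)]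

/-- The case of a functional proportional to the one of `B`. -/
theorem prop_case {π : Eis} {s : Eis → Eis → ZMod 3} {e : ℕ} (h : LSym π s e) (hLCI : LCI)
    (hIF4B : IF4B) {B b x X Y : ℤ} (hb : b ≠ 0) (hx : x ≠ 0)
    (hX : X ≠ 0) (hY : Y ≠ 0) (hn : X ^ 3 + x * Y ^ 3 ≠ 0) (hL : LC π x)
    (hrel : Rel s (B : Eis) (x : Eis) ((X ^ 3 + x * Y ^ 3 : ℤ) : Eis)) (j : ZMod 3)
    (hj : ∀ y : Eis, y ≠ 0 → s (b : Eis) y = j * s (B : Eis) y) :
    ∃ N0 : ℕ, ∀ ξ : ℤ, π ^ N0 ∣ (ξ : Eis) ^ 3 - (x : Eis) → (∀ i, Lf X Y i ξ ≠ 0) →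
      s (Lf X Y 1 ξ) (b : Eis) - s (Lf X Y 2 ξ) (b : Eis) = s w (b : Eis) := by
  obtain ⟨N1, h1⟩ := hIF4B π s e h x X Y hx hX hY hn
  refine ⟨N1, fun ξ hξ hF => ?_⟩
  have h2 := h1 ξ hξ
  have key : ∀ y : Eis, y ≠ 0 → s y (b : Eis) = j * s y ((X ^ 3 + x * Y ^ 3 : ℤ) : Eis) := by
    intro y hy
    rw [h.skew (b : Eis) y (cast_ne hb) hy, hj y hy, hrel y hy,
      hLCI.2.2 π s e x y h hL hx hy, h.skew y _ hy (cast_ne hn)]
    ring
  rw [key _ (hF 1), key _ (hF 2), key _ w_ne]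
  linear_combination j * h2

theorem lam4 : lam ^ 4 ∣ (9 : Eis) := ⟨w, by decide⟩

theorem not_lam {m : ℤ} (h : ¬ (3 : ℤ) ∣ m) : ¬ lam ∣ (m : Eis) := by
  rw [lam_dvd_iff]
  simpa using h

theorem res {m : ℤ} (h3 : ¬ (3 : ℤ) ∣ m) (h9 : ¬ C9 m) :
    m % 9 = 2 ∨ m % 9 = 4 ∨ m % 9 = 5 ∨ m % 9 = 7 := by
  unfold C9 at h9
  omega

/-- Units modulo `9`. -/
theorem units9 {b B : ℤ} (hb3 : ¬ (3 : ℤ) ∣ b) (hB3 : ¬ (3 : ℤ) ∣ B) (hb : ¬ C9 b)
    (hB : ¬ C9 B) : 9 ∣ b - B ∨ 9 ∣ b + B ∨ 9 ∣ b - B * B ∨ 9 ∣ b + B * B := by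
  have h1 := res hb3 hb
  have h2 : (B % 9 = 2 ∨ B % 9 = 4 ∨ B % 9 = 5 ∨ B % 9 = 7) := res hB3 hB
  have h3 : (B * B) % 9 = ((B % 9) * (B % 9)) % 9 := Int.mul_emod B B 9
  rcases h2 with h | h | h | h <;> rw [h] at h3 <;> norm_num at h3 <;> omega

theorem none_prop (hL : LSym lam sl 4) {b B : ℤ} (hB0 : B ≠ 0)
    (hb3 : ¬ (3 : ℤ) ∣ b) (hB3 : ¬ (3 : ℤ) ∣ B)
    (hb : ¬ C9 b) (hB : ¬ C9 B) :
    ∃ j : ZMod 3, ∀ y : Eis, y ≠ 0 → sl (b : Eis) y = j * sl (B : Eis) y := by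
  have hBe : (B : Eis) ≠ 0 := cast_ne hB0
  have hV : ∀ a : Eis, a ≠ 0 → ¬ lam ∣ a → (9 : Eis) ∣ (b : Eis) - a → ∀ y : Eis, y ≠ 0 →
      sl (b : Eis) y = sl a y := by
    intro a ha hla h9 y hy
    refine hL.cont a b y ha hy ?_
    rw [V_eq_zero hla, zero_add]
    exact lam4.trans h9
  have hl := not_lam hB3
  have hll : ¬ lam ∣ (B : Eis) * B := fun h => (prime_lam.dvd_or_dvd h).elim hl hl
  have cst : ∀ m : ℤ, (9 : ℤ) ∣ m → (9 : Eis) ∣ (m : Eis) := by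
    rintro m ⟨k, rfl⟩
    exact ⟨k, by push_cast; ring⟩
  rcases units9 hb3 hB3 hb hB with h | h | h | h
  · refine ⟨1, fun y hy => ?_⟩
    rw [hV B hBe hl (by simpa using cst _ h) y hy, one_mul]
  · refine ⟨1, fun y hy => ?_⟩
    rw [hV (-B) (neg_ne_zero.2 hBe) (by rwa [dvd_neg]) (by simpa using cst _ h) y hy,
      neg_left hL hBe hy, one_mul]
  · refine ⟨2, fun y hy => ?_⟩
    rw [hV (B * B) (mul_ne_zero hBe hBe) hll (by simpa using cst _ h) y hy,
      hL.mul _ _ _ hBe hBe hy]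
    ring
  · refine ⟨2, fun y hy => ?_⟩
    rw [hV (-(B * B)) (neg_ne_zero.2 (mul_ne_zero hBe hBe)) (by rwa [dvd_neg])
      (by simpa using cst _ h) y hy, neg_left hL (mul_ne_zero hBe hBe) hy,
      hL.mul _ _ _ hBe hBe hy]
    ring

theorem alg3 : ∀ vB cB vb cb : ZMod 3, ¬ (vB = 0 ∧ cB = 0) → vB * cb - vb * cB = 0 →
    ∃ j : ZMod 3, vb = j * vB ∧ cb = j * cB := by decide

theorem cast3 {n : ℕ} : ((n : ℕ) : ZMod 3) = 0 ↔ 3 ∣ n := ZMod.natCast_eq_zero_iff n 3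

theorem tame_prop {π : Eis} {b B : ℤ}
    (hB : ¬ (3 ∣ V π (B : Eis) ∧ ch π (B : Eis) = 0)) (h0 : tm π (b : Eis) (B : Eis) = 0) :
    ∃ j : ZMod 3, ∀ y : Eis, y ≠ 0 → tm π (b : Eis) y = j * tm π (B : Eis) y := by
  unfold tm at h0
  obtain ⟨j, h1, h2⟩ := alg3 (V π (B : Eis) : ZMod 3) (ch π (B : Eis)) (V π (b : Eis) : ZMod 3)
    (ch π (b : Eis)) (by rwa [cast3]) h0
  refine ⟨j, fun y _ => ?_⟩
  unfold tm
  rw [h1, h2]
  ring

/-- Valuations of the three linear forms. -/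
theorem val_case {π : Eis} (hπ : Prime π) (h3 : ¬ π ∣ 3) {x X Y ξ : ℤ} {N : ℕ}
    (hX : X ≠ 0) (hY : Y ≠ 0) (hn : X ^ 3 + x * Y ^ 3 ≠ 0) (hxu : ¬ π ∣ (x : Eis))
    (hN : V π ((X ^ 3 + x * Y ^ 3 : ℤ) : Eis) < N)
    (hξ : π ^ N ∣ (ξ : Eis) ^ 3 - (x : Eis)) (hF : ∀ i, Lf X Y i ξ ≠ 0)
    (hV : 3 ∣ V π ((X ^ 3 + x * Y ^ 3 : ℤ) : Eis)) :
    ((V π (Lf X Y 1 ξ) : ℕ) : ZMod 3) = ((V π (Lf X Y 2 ξ) : ℕ) : ZMod 3) := by
  have hξu : ¬ π ∣ (ξ : Eis) := by
    intro h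
    apply hxu
    have h1 : π ∣ (ξ : Eis) ^ 3 - (x : Eis) := (dvd_pow_self π (by omega)).trans hξ
    have h2 : π ∣ (ξ : Eis) ^ 3 := h.trans (dvd_pow_self _ (by norm_num))
    have h3 := dvd_sub h2 h1
    simpa using h3
  set m := min (V π (X : Eis)) (V π (Y : Eis)) with hm
  have hmX : π ^ m ∣ (X : Eis) := (pow_dvd_pow π (min_le_left _ _)).trans (pow_multiplicity_dvd _ _)
  have hmY : π ^ m ∣ (Y : Eis) := (pow_dvd_pow π (min_le_right _ _)).trans (pow_multiplicity_dvd _ _)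
  have hge : ∀ i, m ≤ V π (Lf X Y i ξ) := by
    intro i
    apply (fin hπ (hF i)).le_multiplicity_of_pow_dvd
    unfold Lf
    exact dvd_add hmX (Dvd.dvd.mul_right (Dvd.dvd.mul_right hmY _) _)
  have hw1 : ¬ π ∣ 1 - w := fun h => not_dvd_lam h3 (by rw [lam_eq]; exact h)
  have hw2 : ¬ π ∣ 1 - w ^ 2 := fun h => h3 (h.trans ⟨1 - w, by decide⟩)
  have hw0 : ¬ π ∣ w := not_dvd_w hπ
  have pair : ∀ i k : ℕ, ¬ π ∣ w ^ i - w ^ k → m < V π (Lf X Y i ξ) →
      m < V π (Lf X Y k ξ) → False := by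
    intro i k hik h1 h2
    have d1 : π ^ (m + 1) ∣ Lf X Y i ξ :=
      (pow_dvd_pow π h1).trans (pow_multiplicity_dvd _ _)
    have d2 : π ^ (m + 1) ∣ Lf X Y k ξ :=
      (pow_dvd_pow π h2).trans (pow_multiplicity_dvd _ _)
    have d3 : π ^ (m + 1) ∣ (w ^ i - w ^ k) * (ξ : Eis) * (Y : Eis) := by
      have := dvd_sub d1 d2
      unfold Lf at this
      have e1 : (X : Eis) + (Y : Eis) * w ^ i * (ξ : Eis) - ((X : Eis) + (Y : Eis) * w ^ k * (ξ : Eis))
        = (w ^ i - w ^ k) * (ξ : Eis) * (Y : Eis) := by ring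
      rwa [e1] at this
    have hu : ¬ π ∣ (w ^ i - w ^ k) * (ξ : Eis) := fun h => (hπ.dvd_or_dvd h).elim hik hξu
    have d4 : π ^ (m + 1) ∣ (Y : Eis) := hπ.pow_dvd_of_dvd_mul_left _ hu d3
    have d5 : π ^ (m + 1) ∣ (X : Eis) := by
      have h5 : π ^ (m + 1) ∣ (Y : Eis) * w ^ i * (ξ : Eis) :=
        Dvd.dvd.mul_right (Dvd.dvd.mul_right d4 _) _
      have := dvd_sub d1 h5
      unfold Lf at this
      simpa using this
    have h6 : m + 1 ≤ V π (X : Eis) := (fin hπ (cast_ne hX)).le_multiplicity_of_pow_dvd d5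
    have h7 : m + 1 ≤ V π (Y : Eis) := (fin hπ (cast_ne hY)).le_multiplicity_of_pow_dvd d4
    omega
  have hsum : V π (Lf X Y 0 ξ) + V π (Lf X Y 1 ξ) + V π (Lf X Y 2 ξ) =
      V π ((X ^ 3 + x * Y ^ 3 : ℤ) : Eis) := by
    rw [← V_mul hπ (hF 0) (hF 1), ← V_mul hπ (mul_ne_zero (hF 0) (hF 1)) (hF 2)]
    have e1 : Lf X Y 0 ξ * Lf X Y 1 ξ * Lf X Y 2 ξ =
        ((X ^ 3 + x * Y ^ 3 : ℤ) : Eis) + (Y : Eis) ^ 3 * ((ξ : Eis) ^ 3 - (x : Eis)) := by
      unfold Lf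
      push_cast
      linear_combination ((X : Eis) ^ 2 * (Y : Eis) * ξ + (X : Eis) * (Y : Eis) ^ 2 * ξ ^ 2 * w) *
        w_rel + (Y : Eis) ^ 3 * (ξ : Eis) ^ 3 * w_cube
    rw [e1]
    have hne : (Y : Eis) ^ 3 * ((ξ : Eis) ^ 3 - (x : Eis)) = 0 ∨
        V π ((X ^ 3 + x * Y ^ 3 : ℤ) : Eis) < V π ((Y : Eis) ^ 3 * ((ξ : Eis) ^ 3 - (x : Eis))) := by
      by_cases hz : (Y : Eis) ^ 3 * ((ξ : Eis) ^ 3 - (x : Eis)) = 0
      · exact Or.inl hz
      · right
        have := (fin hπ hz).le_multiplicity_of_pow_dvd (Dvd.dvd.mul_left hξ _)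
        exact hN.trans_le this
    rcases hne with hz | hlt
    · rw [hz, add_zero]
    · rw [add_comm]
      exact (fin hπ (cast_ne hn)).multiplicity_add_of_gt hlt
  have p01 := pair 0 1 (by simpa using hw1)
  have p02 := pair 0 2 (by simpa using hw2)
  have p12 := pair 1 2 (by
    intro h
    have e1 : w ^ 1 - w ^ 2 = w * (1 - w) := by ring
    rw [e1] at h
    exact (hπ.dvd_or_dvd h).elim hw0 hw1)
  have g0 := hge 0
  have g1 := hge 1
  have g2 := hge 2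
  rw [ZMod.natCast_eq_natCast_iff]
  unfold Nat.ModEq
  rw [← hsum] at hV
  by_cases c1 : m < V π (Lf X Y 1 ξ)
  · have c2 : ¬ m < V π (Lf X Y 2 ξ) := fun h => p12 c1 h
    have c0 : ¬ m < V π (Lf X Y 0 ξ) := fun h => p01 h c1
    omega
  · by_cases c2 : m < V π (Lf X Y 2 ξ)
    · have c0 : ¬ m < V π (Lf X Y 0 ξ) := fun h => p02 h c2
      omega
    · omega

end LEV

open _root_.Pool.Agent.PT.LEV in
/-- LEV: the local evaluation. -/
theorem LEV_thm (hSTM : STM) (hSPP : SPP) (hSSL : SSL) (hSLC : SLC) (hSREC : SREC) (hSCJ : SCJ)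
    (hLCI : LCI) (hIF1 : IF1) (hIF2 : IF2) (hIF4 : IF4) (hIF4B : IF4B) (hAVV : AVV)
    (hF2B : F2B) (hF6R : F6R) (hF7U : F7U) (hF5L : F5L) (hF3R : F3R) (hF3U : F3U) : LEV := by
  intro v B b x p q p' q' X Y hB hb hx hS hP hC
  obtain ⟨e, hs⟩ : ∃ e, LSym (uni v) (sy v) e := by
    cases v with
    | none => exact ⟨4, hSLC⟩
    | some π => exact ⟨1, hSTM π.1 π.2.1 (hSPP.2.2.2.1 π).1⟩
  have hB0 := hB.ne
  have hb0 := hb.ne
  have hx0 := hx.ne
  have hBe := cast_ne hB0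
  have hbe := cast_ne hb0
  have hxe := cast_ne hx0
  obtain ⟨hn, c, hc, heq⟩ := rel hB0 hP
  have hrel := rel_sym hs hBe hxe (cast_ne hn) hc heq
  have hsBx : sy v (B : Eis) (x : Eis) = 0 := by
    cases v with
    | none => exact hSCJ.2.2.1 B x hB0 hx0
    | some π =>
      have h1 := hx.sym π
      have h2 := hs.skew (x : Eis) (B : Eis) hxe hBe
      rw [h2]
      change - tm π.1 (x : Eis) (B : Eis) = 0
      rw [h1, neg_zero]
  have hwprod : sy v w ((B * x * b : ℤ) : Eis) =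
      sy v w (B : Eis) + sy v w (x : Eis) + sy v w (b : Eis) := by
    push_cast
    rw [mul_right hs (mul_ne_zero hBe hxe) hbe w_ne, mul_right hs hBe hxe w_ne]
  by_cases hLb : LC (uni v) b
  · by_cases hLx : LC (uni v) x
    · -- both cubes
      obtain ⟨N1, h1⟩ := (hAVV v B b x p q p' q' hB0 hb0 hx0 hS.toSolW hsBx hLb).1
      obtain ⟨N2, h2⟩ := hIF1 (uni v) (sy v) e hs b x p q p' q' hb0 hx0 hS
      obtain ⟨N3, _, h3⟩ := SV_LC hs hLCI hIF4 hb0 hx0 hS hP.hX hP.hY hn hLx hrel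
      obtain ⟨r, hr⟩ := hLb (N1 + N2)
      obtain ⟨ξ, hξ⟩ := hLx (N2 + N3)
      have a1 := h1 r ((pow_dvd_pow _ (by omega)).trans hr)
      have a2 := h2 r ξ ((pow_dvd_pow _ (by omega)).trans hr)
        ((pow_dvd_pow _ (by omega)).trans hξ) (B : Eis) hBe
      obtain ⟨hF, a3⟩ := h3 ξ ((pow_dvd_pow _ (by omega)).trans hξ)
      rw [lc_right hs hLCI hb0 hLb (hF 1), lc_right hs hLCI hb0 hLb (hF 2)] at a3
      have a4 := lc_right hs hLCI hb0 hLb w_ne
      have a5 := lc_right hs hLCI hx0 hLx w_ne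
      unfold TT
      rw [if_pos hLb]
      unfold UV
      rw [hwprod, a3, a4, a5, ← a1]
      linear_combination a2
    · -- `b` is a cube, `x` is not
      obtain ⟨N1, h1⟩ := hF2B v B b x p q p' q' hB hb hx hS hLb hLx
      have a1 := (hAVV v B b x p q p' q' hB0 hb0 hx0 hS.toSolW hsBx hLb).2 _ N1 h1
      have a4 := lc_right hs hLCI hb0 hLb w_ne
      have a2 : SV (sy v) x p q p' q' X Y = 0 := by
        cases v with
        | none =>
          exact hF5L B b x p q p' q' X Y hB hb hx hS hP ((hLCI.2.1 b hb.three).1 hLb)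
            fun h => hLx ((hLCI.2.1 x hx.three).2 h)
        | some π =>
          change SV (tm π.1) x p q p' q' X Y = 0
          by_cases hVx : 3 ∣ V π.1 (x : Eis)
          · refine hF7U π b x p q p' q' X Y hb0 hx0 hS hP.hX hP.hY hVx fun h => hLx ?_
            exact (hLCI.1 π x hx0).2 ⟨hVx, h⟩
          · have h6 := hF6R π b x p q p' q' X Y hb0 hx0 hS hP.hX hP.hY hVx
            by_cases hVn : 3 ∣ V π.1 ((X ^ 3 + x * Y ^ 3 : ℤ) : Eis)
            · exact h6.1 hVn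
            · rw [h6.2 hVn]
              change - sy (some π) w (b : Eis) = 0
              rw [a4, neg_zero]
      unfold TT
      rw [if_pos hLb, a1, a2]
      unfold UV
      rw [hwprod, a4]
      ring
  · by_cases hLx : LC (uni v) x
    · -- `x` is a cube, `b` is not
      have a5 := lc_right hs hLCI hx0 hLx w_ne
      have hTT : TT v B b x p q p' q' = 0 := by
        unfold TT
        rw [if_neg hLb]
        cases v with
        | none => rfl
        | some π =>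
          dsimp only
          split_ifs with hcond
          · change - sy (some π) w (x : Eis) = 0
            rw [a5, neg_zero]
          · rfl
      obtain ⟨N1, h1⟩ := hF2B v B x b p (-p') (-q) q' hB hx hb (swap hS) hLx hLb
      obtain ⟨N3, hN3, h3⟩ := SV_LC hs hLCI hIF4 hb0 hx0 hS hP.hX hP.hY hn hLx hrel
      have hmain : ∃ N4 : ℕ, ∀ ξ : ℤ, uni v ^ N4 ∣ (ξ : Eis) ^ 3 - (x : Eis) →
          (∀ i, Lf X Y i ξ ≠ 0) →
          sy v (Lf X Y 1 ξ) (b : Eis) - sy v (Lf X Y 2 ξ) (b : Eis) = sy v w (b : Eis) := by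
        cases v with
        | none =>
          have hb9 : ¬ C9 b := fun h => hLb ((hLCI.2.1 b hb.three).2 h)
          obtain ⟨j, hj⟩ := none_prop hSLC hB0 hb.three hB.three hb9 fun h => hb9 (hb.nine h)
          exact prop_case hs hLCI hIF4B hb0 hx0 hP.hX hP.hY hn hLx hrel j hj
        | some π =>
          by_cases hLB : LC π.1 B
          · have hB' := (hLCI.1 π B hB0).1 hLB
            have hVB : V π.1 (B : Eis) = 0 := by
              have := hB.cf π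
              omega
            have hπB : ¬ π.1 ∣ (B : Eis) := V_eq_zero_iff.1 hVB
            have hπb := hb.unr π hπB
            have hπx := hx.unr π hπB
            have hVb : V π.1 (b : Eis) = 0 := V_eq_zero hπb
            have hVw : V π.1 w = 0 := V_eq_zero (not_dvd_w π.2.1)
            have hVn : 3 ∣ V π.1 ((X ^ 3 + x * Y ^ 3 : ℤ) : Eis) := by
              have h7 := congrArg (V π.1) heq
              rw [V_mul π.2.1 hxe (cast_ne hn), V_mul π.2.1 hBe (pow_ne_zero 3 hc),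
                V_pow π.2.1 hc, hVB, V_eq_zero hπx] at h7
              omega
            refine ⟨N3, fun ξ hξ hF => ?_⟩
            have h8 := val_case π.2.1 (hSPP.2.2.2.1 π).1 hP.hX hP.hY hn hπx hN3 hξ hF hVn
            change tm π.1 (Lf X Y 1 ξ) (b : Eis) - tm π.1 (Lf X Y 2 ξ) (b : Eis) =
              tm π.1 w (b : Eis)
            unfold tm
            rw [hVb, hVw, h8]
            push_cast
            ring
          · obtain ⟨j, hj⟩ := tame_prop (π := π.1) (b := b) (B := B)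
              (fun h => hLB ((hLCI.1 π B hB0).2 h)) (hb.sym π)
            exact prop_case hs hLCI hIF4B hb0 hx0 hP.hX hP.hY hn hLx hrel j hj
      obtain ⟨N4, h4⟩ := hmain
      obtain ⟨ξ, hξ⟩ := hLx (N1 + N3 + N4)
      obtain ⟨hF, a3⟩ := h3 ξ ((pow_dvd_pow _ (by omega)).trans hξ)
      have a1 := h1 ξ ((pow_dvd_pow _ (by omega)).trans hξ)
      have a6 := h4 ξ ((pow_dvd_pow _ (by omega)).trans hξ) hF
      rw [gf_swap, gf_swap] at a1
      rw [hTT, a3]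
      unfold UV
      rw [hwprod, a5]
      linear_combination a1 + a6
    · -- no cubes
      cases v with
      | none =>
        exfalso
        rcases hC with h | h
        · exact hLb ((hLCI.2.1 b hb.three).2 h)
        · exact hLx ((hLCI.2.1 x hx.three).2 h)
      | some π =>
        have hLb' : ¬ (3 ∣ V π.1 (b : Eis) ∧ ch π.1 (b : Eis) = 0) :=
          fun h => hLb ((hLCI.1 π b hb0).2 h)
        have hLx' : ¬ (3 ∣ V π.1 (x : Eis) ∧ ch π.1 (x : Eis) = 0) :=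
          fun h => hLx ((hLCI.1 π x hx0).2 h)
        unfold TT
        rw [if_neg hLb]
        dsimp only
        change _ = UV (tm π.1) B b x p q p' q' - SV (tm π.1) x p q p' q' X Y
        by_cases hπB : π.1 ∣ (B : Eis)
        · have hVB1 : V π.1 (B : Eis) ≠ 0 := fun h => (V_eq_zero_iff.1 h) hπB
          have hVB2 := hB.cf π
          have nd : ∀ t : ℤ, tm π.1 (t : Eis) (B : Eis) = 0 →
              ¬ (3 ∣ V π.1 (t : Eis) ∧ ch π.1 (t : Eis) = 0) → ¬ 3 ∣ V π.1 (t : Eis) := by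
            intro t ht hLt h3
            apply hLt
            refine ⟨h3, ?_⟩
            unfold tm at ht
            rw [cast3.2 h3, zero_mul, sub_zero] at ht
            have h9 : (V π.1 (B : Eis) : ZMod 3) ≠ 0 := by
              rw [Ne, cast3]
              omega
            have : ∀ u y : ZMod 3, u ≠ 0 → u * y = 0 → y = 0 := by decide
            exact this _ _ h9 ht
          have hVb := nd b (hb.sym π) hLb'
          have hVx := nd x (hx.sym π) hLx'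
          rw [hF3R π B b x p q p' q' hB hb hx hS hπB hVb hVx]
          have h6 := hF6R π b x p q p' q' X Y hb0 hx0 hS hP.hX hP.hY hVx
          have h7 := congrArg (V π.1) heq
          rw [V_mul π.2.1 hxe (cast_ne hn), V_mul π.2.1 hBe (pow_ne_zero 3 hc),
            V_pow π.2.1 hc] at h7
          have hSV : SV (tm π.1) x p q p' q' X Y =
              if 3 ∣ V π.1 (x : Eis) + V π.1 (B : Eis) then - tm π.1 w (b : Eis) else 0 := by
            split_ifs with hcond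
            · exact h6.2 (by omega)
            · refine h6.1 ?_
              have c1 : V π.1 (x : Eis) % 3 = 1 ∨ V π.1 (x : Eis) % 3 = 2 := by omega
              have c2 : V π.1 (B : Eis) = 1 ∨ V π.1 (B : Eis) = 2 := by omega
              rcases c1 with c1 | c1 <;> rcases c2 with c2 | c2 <;> omega
          rw [hSV]
          by_cases hcond : 3 ∣ V π.1 (b : Eis) + V π.1 (B : Eis)
          · rw [if_pos ⟨hcond, hVb⟩, if_pos hcond]
            ring
          · rw [if_neg (fun h => hcond h.1), if_neg hcond]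
            ring
        · have hπb := hb.unr π hπB
          have hπx := hx.unr π hπB
          have hVb : V π.1 (b : Eis) = 0 := V_eq_zero hπb
          have hVx : V π.1 (x : Eis) = 0 := V_eq_zero hπx
          have hcb : ch π.1 (b : Eis) ≠ 0 := fun h => hLb' ⟨by rw [hVb]; exact dvd_zero _, h⟩
          have hcx : ch π.1 (x : Eis) ≠ 0 := fun h => hLx' ⟨by rw [hVx]; exact dvd_zero _, h⟩
          rw [hF3U π B b x p q p' q' hB hb hx hS hπB hcb hcx,
            hF7U π b x p q p' q' X Y hb0 hx0 hS hP.hX hP.hY (by rw [hVx]; exact dvd_zero _) hcx,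
            if_neg (fun h => h.2 (by rw [hVb]; exact dvd_zero _))]
          ring

end Pool.Agent.PT

end

section

/-!
# Prime twists of rank zero: finiteness of the supports
-/

set_option autoImplicit false

namespace Pool.Agent.PT

open Pool.Agent.Lib_helper18 Pool.Agent.Lib_helper18.Eis Pool.Agent.Lib_helper84.Cub

namespace LFIN

/-- Finite support and sum zero. -/
def FZ (f : Pl → ZMod 3) : Prop := (Function.support f).Finite ∧ ∑ᶠ v : Pl, f v = 0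

lemma FZ.add {f g : Pl → ZMod 3} (hf : FZ f) (hg : FZ g) : FZ (fun v => f v + g v) := by
  refine ⟨(hf.1.union hg.1).subset (Function.support_add f g), ?_⟩
  rw [finsum_add_distrib hf.1 hg.1, hf.2, hg.2, add_zero]

lemma FZ.sub {f g : Pl → ZMod 3} (hf : FZ f) (hg : FZ g) : FZ (fun v => f v - g v) := by
  refine ⟨(hf.1.union hg.1).subset (Function.support_sub f g), ?_⟩
  rw [finsum_sub_distrib hf.1 hg.1, hf.2, hg.2, sub_zero]

lemma cast_ne {n : ℤ} (h : n ≠ 0) : ((n : ℤ) : Eis) ≠ 0 := by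
  intro h1
  apply h
  have h2 := congrArg Eis.re h1
  simpa using h2

lemma w_ne : w ≠ 0 := by
  intro h
  have h2 := congrArg Eis.im h
  simp at h2

lemma w_unit : IsUnit w := by
  refine IsUnit.of_mul_eq_one (w ^ 2) ?_
  rw [← w_cube]
  ring

/-- `g + w^i h ≠ 0` -/
lemma lin_ne {g h : ℤ} (hne : g ≠ 0 ∨ h ≠ 0) (i : ℕ) (hi : i = 1 ∨ i = 2) :
    (g : Eis) + w ^ i * (h : Eis) ≠ 0 := by
  intro h0
  have h1 := congrArg Eis.re h0
  have h2 := congrArg Eis.im h0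
  rcases hi with rfl | rfl
  · rw [pow_one] at h1 h2
    simp at h1 h2
    rcases hne with h3 | h3
    · exact h3 h1
    · exact h3 h2
  · rw [w_sq] at h1 h2
    simp at h1 h2
    rcases hne with h3 | h3
    · apply h3
      rw [h2] at h1
      simpa using h1
    · exact h3 h2

lemma Gf_ne {b x p q p' q' : ℤ} (h : Sol b x p q p' q') (i : ℕ) (hi : i = 1 ∨ i = 2) :
    Gf p q p' q' i ≠ 0 := by
  have e : Gf p q p' q' i = ((q * p' : ℤ) : Eis) + w ^ i * ((-(p * q') : ℤ) : Eis) := by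
    unfold Gf
    push_cast
    ring
  rw [e]
  apply lin_ne _ i hi
  by_contra hcon
  push Not at hcon
  obtain ⟨h1, h2⟩ := hcon
  have h2' : p * q' = 0 := by linarith
  rcases mul_eq_zero.1 h1 with h3 | h3
  · rcases mul_eq_zero.1 h2' with h4 | h4
    · apply h.n1
      rw [h3, h4]
      ring
    · apply h.n2
      have h5 := h.eq
      rw [h3, h4] at h5
      linarith
  · rcases mul_eq_zero.1 h2' with h4 | h4
    · apply h.n2
      rw [h3, h4]
      ring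
    · apply h.n1
      rw [h.eq, h3, h4]
      ring

lemma N''_ne {b x p q p' q' : ℤ} (h : Sol b x p q p' q') : x * q' ^ 3 - q ^ 3 ≠ 0 := by
  intro h1
  apply h.n2
  have h2 := h.eq
  have h3 : p ^ 3 - x * p' ^ 3 = b * (x * q' ^ 3 - q ^ 3) := by linarith
  rw [h3, h1, mul_zero]

lemma Df_ne {X Y u v : ℤ} (hX : X ≠ 0) (hY : Y ≠ 0) (h : u ≠ 0 ∨ v ≠ 0) (i : ℕ)
    (hi : i = 1 ∨ i = 2) : Df X Y u v i ≠ 0 := by
  have e : Df X Y u v i = ((X * u : ℤ) : Eis) + w ^ i * ((v * Y : ℤ) : Eis) := by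
    unfold Df
    push_cast
    ring
  rw [e]
  apply lin_ne _ i hi
  rcases h with h | h
  · exact Or.inl (mul_ne_zero hX h)
  · exact Or.inr (mul_ne_zero h hY)

/-- The linear forms at good approximations are prime to `π`. -/
lemma Lf_not_dvd {π : Eis} {b p q r : ℤ} (hr : π ∣ (r : Eis) ^ 3 - (b : Eis))
    (h : ¬ π ∣ ((p ^ 3 + b * q ^ 3 : ℤ) : Eis)) (i : ℕ) : ¬ π ∣ Lf p q i r := by
  intro hd
  apply h
  have h1 : ((p ^ 3 + b * q ^ 3 : ℤ) : Eis) =
      Lf p q i r * ((p : Eis) ^ 2 - p * (q * w ^ i * r) + (q * w ^ i * r) ^ 2) -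
        (q : Eis) ^ 3 * ((r : Eis) ^ 3 - (b : Eis)) := by
    have h2 : (w ^ i) ^ 3 = 1 := by rw [← pow_mul, mul_comm, pow_mul, w_cube, one_pow]
    unfold Lf
    push_cast
    linear_combination (-((q : Eis) ^ 3 * (r : Eis) ^ 3)) * h2
  rw [h1]
  exact dvd_sub (dvd_mul_of_dvd_left hd _) (dvd_mul_of_dvd_right hr _)

lemma tm_zero {π a b : Eis} (ha : ¬ π ∣ a) (hb : ¬ π ∣ b) : tm π a b = 0 := by
  unfold tm
  rw [V_eq_zero ha, V_eq_zero hb]
  simp

end LFIN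

open _root_.Pool.Agent.PT.LFIN in
/-- LFIN: finiteness of the supports. -/
theorem LFIN_thm (hSTM : STM) (hSPP : SPP) (hSSL : SSL) (_hSLC : SLC) (_hLCI : LCI)
    (hAVV : AVV) : LFIN := by
  have key : ∀ a b : Eis, a ≠ 0 → b ≠ 0 → FZ (fun v : Pl => sy v a b) :=
    fun a b ha hb => hSSL.2.2.2 a b ha hb
  refine ⟨?_, ?_, ?_⟩
  · intro B b x p q p' q' hB hb hx hs
    have hn2 : p' ^ 3 + b * q' ^ 3 ≠ 0 := by
      intro h
      apply hs.n1
      rw [hs.eq, h, mul_zero]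
    set M : ℤ := B * b * x * (p ^ 3 + b * q ^ 3) * (p' ^ 3 + b * q' ^ 3) with hMdef
    have hM : M ≠ 0 := mul_ne_zero (mul_ne_zero (mul_ne_zero (mul_ne_zero hB.ne hb.ne) hx.ne)
      hs.n1) hn2
    have hfin := hSPP.2.2.1 (M : Eis) (cast_ne hM)
    refine ((hfin.image some).union (Set.finite_singleton none)).subset ?_
    intro v hv
    rcases v with _ | π
    · right
      rfl
    · left
      refine ⟨π, ?_, rfl⟩
      by_contra hnd
      apply hv
      have hd : ∀ n : ℤ, n ∣ M → ¬ π.1 ∣ ((n : ℤ) : Eis) := by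
        intro n hn h1
        apply hnd
        obtain ⟨c, hc⟩ := hn
        show π.1 ∣ (M : Eis)
        rw [hc]
        push_cast
        exact dvd_mul_of_dvd_left h1 _
      have hnB := hd B ⟨b * x * (p ^ 3 + b * q ^ 3) * (p' ^ 3 + b * q' ^ 3), by rw [hMdef]; ring⟩
      have hnb := hd b ⟨B * x * (p ^ 3 + b * q ^ 3) * (p' ^ 3 + b * q' ^ 3), by rw [hMdef]; ring⟩
      have hnx := hd x ⟨B * b * (p ^ 3 + b * q ^ 3) * (p' ^ 3 + b * q' ^ 3), by rw [hMdef]; ring⟩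
      have hn1 := hd (p ^ 3 + b * q ^ 3) ⟨B * b * x * (p' ^ 3 + b * q' ^ 3), by rw [hMdef]; ring⟩
      have hn2 := hd (p' ^ 3 + b * q' ^ 3) ⟨B * b * x * (p ^ 3 + b * q ^ 3), by rw [hMdef]; ring⟩
      have hnw : ¬ π.1 ∣ w := fun h1 => π.2.1.not_isUnit (isUnit_of_dvd_unit h1 w_unit)
      show TT (some π) B b x p q p' q' = 0
      by_cases hLC : LC (uni (some π)) b
      · have hTT : TT (some π) B b x p q p' q' =
            AV (some π) B b p q p' q' + sy (some π) w (x : Eis) := by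
          unfold TT
          rw [if_pos hLC]
        rw [hTT]
        have hw : sy (some π) w (x : Eis) = 0 := tm_zero hnw hnx
        have hsym : sy (some π) (B : Eis) (x : Eis) = 0 := by
          have h1 := (hSTM π.1 π.2.1 (hSPP.2.2.2.1 π).1).skew (x : Eis) (B : Eis)
            (cast_ne hx.ne) (cast_ne hB.ne)
          show tm π.1 (B : Eis) (x : Eis) = 0
          rw [h1, hx.sym π, neg_zero]
        obtain ⟨N0, hN0⟩ := (hAVV (some π) B b x p q p' q' hB.ne hb.ne hx.ne hs hsym hLC).1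
        obtain ⟨r, hr⟩ := hLC (max N0 1)
        have hr0 : uni (some π) ^ N0 ∣ (r : Eis) ^ 3 - (b : Eis) :=
          (pow_dvd_pow _ (le_max_left _ _)).trans hr
        have hr1 : π.1 ∣ (r : Eis) ^ 3 - (b : Eis) := by
          have h1 : π.1 ^ 1 ∣ (r : Eis) ^ 3 - (b : Eis) :=
            (pow_dvd_pow π.1 (le_max_right N0 1)).trans hr
          rwa [pow_one] at h1
        rw [hw, ← hN0 r hr0]
        show tm π.1 (B : Eis) (Lf p q 2 r) + tm π.1 (B : Eis) (Lf p' q' 1 r) -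
          tm π.1 (B : Eis) (Lf p q 1 r) - tm π.1 (B : Eis) (Lf p' q' 2 r) + 0 = 0
        rw [tm_zero hnB (Lf_not_dvd hr1 hn1 2), tm_zero hnB (Lf_not_dvd hr1 hn2 1),
          tm_zero hnB (Lf_not_dvd hr1 hn1 1), tm_zero hnB (Lf_not_dvd hr1 hn2 2)]
        simp
      · unfold TT
        rw [if_neg hLC]
        show (if 3 ∣ V π.1 (b : Eis) + V π.1 (B : Eis) ∧ ¬ 3 ∣ V π.1 (b : Eis)
          then - tm π.1 w (x : Eis) else 0) = 0
        rw [if_neg]
        rintro ⟨-, h1⟩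
        apply h1
        rw [V_eq_zero hnb]
        exact dvd_zero 3
  · intro B b x p q p' q' hB hb hx hs
    have hBbx : B * x * b ≠ 0 := mul_ne_zero (mul_ne_zero hB hx) hb
    exact ((key _ _ (cast_ne hB) (Gf_ne hs 1 (Or.inl rfl))).sub
      (key _ _ (cast_ne hB) (Gf_ne hs 2 (Or.inr rfl)))).add (key _ _ w_ne (cast_ne hBbx))
  · intro b x p q p' q' X Y hb hx hs hX hY hn
    have hpp : p' ≠ 0 ∨ p ≠ 0 := by
      by_contra hcon
      push Not at hcon
      apply hs.n2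
      rw [hcon.1, hcon.2]
      ring
    have hqq : q' ≠ 0 ∨ q ≠ 0 := by
      by_contra hcon
      push Not at hcon
      apply N''_ne hs
      rw [hcon.1, hcon.2]
      ring
    have hN1 := cast_ne hs.n2
    have hN2 := cast_ne (N''_ne hs)
    have hN0 := cast_ne hn
    have d1 := Df_ne hX hY hpp 1 (Or.inl rfl)
    have d2 := Df_ne hX hY hpp 2 (Or.inr rfl)
    have e1 := Df_ne hX hY hqq 1 (Or.inl rfl)
    have e2 := Df_ne hX hY hqq 2 (Or.inr rfl)
    exact ((((key _ _ d1 hN1).sub (key _ _ d2 hN1)).sub (key _ _ d1 hN0)).add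
      (key _ _ d2 hN0)).sub ((((key _ _ e1 hN2).sub (key _ _ e2 hN2)).sub
      (key _ _ e1 hN0)).add (key _ _ e2 hN0))

end Pool.Agent.PT

end

section

/-!
# Prime twists of rank zero, `n` divisible by `3`: the local term of a point when `b` is a cube
-/

set_option autoImplicit false

namespace Pool.Agent.PT3

open Pool.Agent.Lib_helper18 Pool.Agent.Lib_helper18.Eis Pool.Agent.Lib_helper84.Cub
open Pool.Agent.PT Pool.Agent.PTE

namespace IIAG

/-- the right side of the identity -/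
noncomputable def RS (s : Eis → Eis → ZMod 3) (n : Eis) (p q p' q' r : ℤ) : ZMod 3 :=
  s n (Gf p q p' q' 1) - s n (Gf p q p' q' 2) + s w n - AS s n p q p' q' r

/-- the linear forms do not vanish -/
theorem lf_ne' {π : Eis} (hπ : Prime π) {p q r : ℤ} (hn : p ^ 3 + r ^ 3 * q ^ 3 ≠ 0) (i : ℕ) :
    Lf p q i r ≠ 0 := by
  refine LEV.lf_ne hπ (b := r ^ 3) hn (Nat.lt_succ_self _) ?_ i
  push_cast
  rw [sub_self]
  exact dvd_zero _

theorem sol_n {b x p q p' q' : ℤ} (h : Sol b x p q p' q') : p' ^ 3 + b * q' ^ 3 ≠ 0 := by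
  intro h0
  apply h.n1
  rw [h.eq, h0, mul_zero]

section Sym

variable {π : Eis} {s : Eis → Eis → ZMod 3} {e : ℕ} {p q p' q' r x : ℤ}

theorem RS_congr (h : LSym π s e) (hS : Sol (r ^ 3) x p q p' q') {n m : Eis} (hn : n ≠ 0)
    (hm : m ≠ 0) (hnm : ∀ A : Eis, A ≠ 0 → s n A = s m A) :
    RS s n p q p' q' r = RS s m p q p' q' r := by
  have l1 := lf_ne' h.prime hS.n1
  have l2 := lf_ne' h.prime (sol_n hS)
  unfold RS AS
  rw [hnm _ (LFIN.Gf_ne hS 1 (Or.inl rfl)), hnm _ (LFIN.Gf_ne hS 2 (Or.inr rfl)),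
    h.skew n w hn LEV.w_ne, h.skew m w hm LEV.w_ne, hnm _ LEV.w_ne, hnm _ (l1 2), hnm _ (l2 1),
    hnm _ (l1 1), hnm _ (l2 2)]

theorem RS_zero (h : LSym π s e) (hS : Sol (r ^ 3) x p q p' q') {n : Eis} (hn : n ≠ 0)
    (h0 : ∀ A : Eis, A ≠ 0 → s n A = 0) : RS s n p q p' q' r = 0 := by
  have l1 := lf_ne' h.prime hS.n1
  have l2 := lf_ne' h.prime (sol_n hS)
  unfold RS AS
  rw [h0 _ (LFIN.Gf_ne hS 1 (Or.inl rfl)), h0 _ (LFIN.Gf_ne hS 2 (Or.inr rfl)),
    h.skew n w hn LEV.w_ne, h0 _ LEV.w_ne, h0 _ (l1 2), h0 _ (l2 1), h0 _ (l1 1), h0 _ (l2 2)]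
  ring

/-- IF2 -/
theorem RS_x (h : LSym π s e) (hIF2 : IF2) (hr : r ≠ 0) (hx : x ≠ 0)
    (hS : Sol (r ^ 3) x p q p' q') : RS s (x : Eis) p q p' q' r = 0 := by
  obtain ⟨N0, h1⟩ := hIF2 π s e h (r ^ 3) x p q p' q' (pow_ne_zero 3 hr) hx hS
  have h2 := h1 r (by push_cast; rw [sub_self]; exact dvd_zero _)
  unfold RS
  rw [h2, sub_self]

/-- a symbol of a cube on the right -/
theorem cube_right (h : LSym π s e) {c y : Eis} (hc : c ≠ 0) (hy : y ≠ 0) : s y (c ^ 3) = 0 := by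
  rw [h.skew (c ^ 3) y (pow_ne_zero 3 hc) hy, LEV.cube_left h hc hy, neg_zero]

/-- the case where `x` is a local cube -/
theorem case_cube (h : LSym π s e) (hIF1 : IF1) (hIF4 : IF4) (hr : r ≠ 0) (hx : x ≠ 0)
    (hS : Sol (r ^ 3) x p q p' q') {X Y : ℤ} (hX : X ≠ 0) (hY : Y ≠ 0)
    (hn : X ^ 3 + x * Y ^ 3 ≠ 0) (hL : LC π x) :
    SV s x p q p' q' X Y = RS s ((X ^ 3 + x * Y ^ 3 : ℤ) : Eis) p q p' q' r := by
  have hr3 : r ^ 3 ≠ 0 := pow_ne_zero 3 hr
  obtain ⟨N1, h1⟩ := hIF4 π s e h (r ^ 3) x p q p' q' X Y hr3 hx hS hX hY hn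
  obtain ⟨N2, h2⟩ := hIF1 π s e h (r ^ 3) x p q p' q' hr3 hx hS
  obtain ⟨ξ, hξ⟩ := hL (N1 + N2 + V π ((X ^ 3 + x * Y ^ 3 : ℤ) : Eis) + 1)
  have a1 := h1 ξ ((pow_dvd_pow _ (by omega)).trans hξ)
  have a2 := h2 r ξ (by push_cast; rw [sub_self]; exact dvd_zero _)
    ((pow_dvd_pow _ (by omega)).trans hξ) ((X ^ 3 + x * Y ^ 3 : ℤ) : Eis) (LEV.cast_ne hn)
  have hF := LEV.lf_ne h.prime hn (N := N1 + N2 + V π ((X ^ 3 + x * Y ^ 3 : ℤ) : Eis) + 1)
    (by omega) hξ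
  have c1 : ((r ^ 3 : ℤ) : Eis) = (r : Eis) ^ 3 := by push_cast; ring
  rw [c1, cube_right h (LEV.cast_ne hr) (hF 1), cube_right h (LEV.cast_ne hr) (hF 2)] at a1
  unfold RS
  rw [a1]
  linear_combination a2

end Sym

/-- the continuity of the symbol, in terms of valuations -/
theorem s_close {π : Eis} {s : Eis → Eis → ZMod 3} (h : LSym π s 1) {a c : Eis} (ha : a ≠ 0)
    (hc : c ≠ 0) (hV : V π a < V π c) {A : Eis} (hA : A ≠ 0) : s (a + c) A = s a A := by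
  refine h.cont a (a + c) A ha hA ?_
  rw [add_sub_cancel_left]
  exact (pow_dvd_pow _ hV).trans (pow_multiplicity_dvd _ _)

/-- the tame places -/
theorem tame (hSTM : STM) (hSPP : SPP) (hLCI : LCI) (hIF1 : IF1) (hIF2 : IF2) (hIF4 : IF4)
    (hF6R : F6R) (hF7U : F7U) (π : PP) {r x p q p' q' X Y : ℤ} (hr : r ≠ 0) (hx : x ≠ 0)
    (hS : Sol (r ^ 3) x p q p' q') (hX : X ≠ 0) (hY : Y ≠ 0) (hn : X ^ 3 + x * Y ^ 3 ≠ 0) :
    SV (tm π.1) x p q p' q' X Y =
      RS (tm π.1) ((X ^ 3 + x * Y ^ 3 : ℤ) : Eis) p q p' q' r := by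
  have h3 := (hSPP.2.2.2.1 π).1
  have h : LSym π.1 (tm π.1) 1 := hSTM π.1 π.2.1 h3
  have hπ := π.2.1
  have hr3 : r ^ 3 ≠ 0 := pow_ne_zero 3 hr
  have hXe := LEV.cast_ne hX
  have hYe := LEV.cast_ne hY
  have hxe := LEV.cast_ne hx
  have hne := LEV.cast_ne hn
  have hX3 : (X : Eis) ^ 3 ≠ 0 := pow_ne_zero 3 hXe
  have hY3 : (Y : Eis) ^ 3 ≠ 0 := pow_ne_zero 3 hYe
  have hxY : (x : Eis) * (Y : Eis) ^ 3 ≠ 0 := mul_ne_zero hxe hY3
  have en : ((X ^ 3 + x * Y ^ 3 : ℤ) : Eis) = (X : Eis) ^ 3 + (x : Eis) * (Y : Eis) ^ 3 := by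
    push_cast; ring
  have hsX : ∀ A : Eis, A ≠ 0 → tm π.1 ((X : Eis) ^ 3) A = 0 := fun A hA =>
    LEV.cube_left h hXe hA
  have hsx : ∀ A : Eis, A ≠ 0 → tm π.1 ((x : Eis) * (Y : Eis) ^ 3) A = tm π.1 (x : Eis) A :=
    fun A hA => by rw [h.mul _ _ _ hxe hY3 hA, LEV.cube_left h hYe hA, add_zero]
  have vX : V π.1 ((X : Eis) ^ 3) = 3 * V π.1 (X : Eis) := V_pow hπ hXe 3
  have vx : V π.1 ((x : Eis) * (Y : Eis) ^ 3) = V π.1 (x : Eis) + 3 * V π.1 (Y : Eis) := by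
    rw [V_mul hπ hxe hY3, V_pow hπ hYe]
  by_cases hVx : 3 ∣ V π.1 (x : Eis)
  · by_cases hcx : ch π.1 (x : Eis) = 0
    · exact case_cube h hIF1 hIF4 hr hx hS hX hY hn ((hLCI.1 π x hx).2 ⟨hVx, hcx⟩)
    · -- valuation divisible by three, not a cube
      rw [hF7U π (r ^ 3) x p q p' q' X Y hr3 hx hS hX hY hVx hcx]
      have hVx0 : (V π.1 (x : Eis) : ZMod 3) = 0 := LEV.cast3.2 hVx
      have hVw : (V π.1 w : ZMod 3) = 0 := by
        rw [V_eq_zero (not_dvd_w hπ)]; rfl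
      -- the valuation of `n0`
      have hVn : 3 ∣ V π.1 ((X ^ 3 + x * Y ^ 3 : ℤ) : Eis) := by
        rw [en]
        have hne' : (X : Eis) ^ 3 + (x : Eis) * (Y : Eis) ^ 3 ≠ 0 := by rw [← en]; exact hne
        rcases lt_trichotomy (V π.1 ((X : Eis) ^ 3)) (V π.1 ((x : Eis) * (Y : Eis) ^ 3)) with
          hlt | heq | hlt
        · have e1 : V π.1 ((X : Eis) ^ 3 + (x : Eis) * (Y : Eis) ^ 3) = V π.1 ((X : Eis) ^ 3) := by
            rw [add_comm]
            exact (fin hπ hX3).multiplicity_add_of_gt hlt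
          rw [e1, vX]
          exact dvd_mul_right _ _
        · by_cases hgt : V π.1 ((X : Eis) ^ 3) <
              V π.1 ((X : Eis) ^ 3 + (x : Eis) * (Y : Eis) ^ 3)
          · exfalso
            apply hcx
            have e1 : tm π.1 ((x : Eis) * (Y : Eis) ^ 3) π.1 = 0 := by
              have e2 := s_close h (a := -((X : Eis) ^ 3))
                (c := (X : Eis) ^ 3 + (x : Eis) * (Y : Eis) ^ 3) (neg_ne_zero.2 hX3) hne'
                (by rw [V_neg]; exact hgt) hπ.ne_zero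
              rw [neg_add_cancel_left, LEV.neg_left h hX3 hπ.ne_zero,
                hsX _ hπ.ne_zero] at e2
              exact e2
            rw [hsx _ hπ.ne_zero] at e1
            unfold tm at e1
            rw [V_self, hVx0] at e1
            simpa using e1
          · have hle : V π.1 ((X : Eis) ^ 3) ≤
                V π.1 ((X : Eis) ^ 3 + (x : Eis) * (Y : Eis) ^ 3) := by
              apply (fin hπ hne').le_multiplicity_of_pow_dvd
              refine dvd_add (pow_multiplicity_dvd _ _) ?_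
              change π.1 ^ (V π.1 ((X : Eis) ^ 3)) ∣ _
              rw [heq]
              exact pow_multiplicity_dvd _ _
            have e1 : V π.1 ((X : Eis) ^ 3 + (x : Eis) * (Y : Eis) ^ 3) =
                V π.1 ((X : Eis) ^ 3) := by omega
            rw [e1, vX]
            exact dvd_mul_right _ _
        · have e1 : V π.1 ((X : Eis) ^ 3 + (x : Eis) * (Y : Eis) ^ 3) =
              V π.1 ((x : Eis) * (Y : Eis) ^ 3) :=
            (fin hπ hxY).multiplicity_add_of_gt hlt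
          rw [e1, vx]
          exact (Nat.dvd_add_right hVx).2 (dvd_mul_right _ _)
      have hVn0 : (V π.1 ((X ^ 3 + x * Y ^ 3 : ℤ) : Eis) : ZMod 3) = 0 := LEV.cast3.2 hVn
      have h2 := RS_x h hIF2 hr hx hS
      unfold RS AS tm at h2 ⊢
      rw [hVx0, hVw] at h2
      rw [hVn0, hVw]
      have e1 : ∀ c d t : ZMod 3, c ≠ 0 → c * t = 0 → d * t = 0 := by decide
      have e2 := e1 (ch π.1 (x : Eis)) (ch π.1 ((X ^ 3 + x * Y ^ 3 : ℤ) : Eis))
        ((V π.1 (Gf p q p' q' 1) : ZMod 3) - (V π.1 (Gf p q p' q' 2) : ZMod 3) -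
          ((V π.1 (Lf p q 2 r) : ZMod 3) + (V π.1 (Lf p' q' 1 r) : ZMod 3) -
            (V π.1 (Lf p q 1 r) : ZMod 3) - (V π.1 (Lf p' q' 2 r) : ZMod 3))) hcx
        (by linear_combination h2)
      linear_combination -e2
  · -- valuation not divisible by three
    have hSV : SV (tm π.1) x p q p' q' X Y = 0 := by
      have h6 := hF6R π (r ^ 3) x p q p' q' X Y hr3 hx hS hX hY hVx
      by_cases hVn : 3 ∣ V π.1 ((X ^ 3 + x * Y ^ 3 : ℤ) : Eis)
      · exact h6.1 hVn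
      · have c1 : ((r ^ 3 : ℤ) : Eis) = (r : Eis) ^ 3 := by push_cast; ring
        rw [h6.2 hVn, c1, cube_right h (LEV.cast_ne hr) LEV.w_ne, neg_zero]
    rw [hSV]
    rcases lt_trichotomy (V π.1 ((X : Eis) ^ 3)) (V π.1 ((x : Eis) * (Y : Eis) ^ 3)) with
      hlt | heq | hlt
    · refine (RS_zero h hS hne fun A hA => ?_).symm
      rw [en, s_close h hX3 hxY hlt hA, hsX A hA]
    · exfalso
      omega
    · rw [RS_congr h hS hne hxe, RS_x h hIF2 hr hx hS]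
      intro A hA
      rw [en, add_comm, s_close h hxY hX3 hlt hA, hsx A hA]

end IIAG

open _root_.Pool.Agent.PT3.IIAG in
/-- IIAG: the local term of a point when `b` is the cube of an integer. -/
theorem IIAG_thm (hSTM : STM) (hSPP : SPP) (hSSL : SSL) (hLCI : LCI) (hLFIN : LFIN)
    (hIF1 : IF1) (hIF2 : IF2) (hIF4 : IF4) (hF6R : F6R) (hF7U : F7U) : IIAG := by
  intro r x p q p' q' X Y hr hx hS hX hY hn
  have hr3 : r ^ 3 ≠ 0 := pow_ne_zero 3 hr
  have hne := LEV.cast_ne hn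
  obtain ⟨π0, -⟩ := hSPP.2.2.2.2.1 2 Nat.prime_two (by norm_num)
  have l1 := lf_ne' π0.2.1 hS.n1
  have l2 := lf_ne' π0.2.1 (sol_n hS)
  have key : ∀ a b : Eis, a ≠ 0 → b ≠ 0 → LFIN.FZ (fun v : Pl => sy v a b) :=
    fun a b ha hb => hSSL.2.2.2 a b ha hb
  have hSV : LFIN.FZ (fun v : Pl => SV (sy v) x p q p' q' X Y) :=
    hLFIN.2.2 (r ^ 3) x p q p' q' X Y hr3 hx hS hX hY hn
  have hG1 := LFIN.Gf_ne hS 1 (Or.inl rfl)
  have hG2 := LFIN.Gf_ne hS 2 (Or.inr rfl)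
  have hRS : LFIN.FZ (fun v : Pl =>
      RS (sy v) ((X ^ 3 + x * Y ^ 3 : ℤ) : Eis) p q p' q' r) := by
    unfold RS AS
    exact (((key _ _ hne hG1).sub (key _ _ hne hG2)).add (key _ _ LEV.w_ne hne)).sub
      ((((key _ _ hne (l1 2)).add (key _ _ hne (l2 1))).sub (key _ _ hne (l1 1))).sub
        (key _ _ hne (l2 2)))
  have hD := (hSV.sub hRS).2
  have h0 : ∀ v : Pl, v ≠ none → SV (sy v) x p q p' q' X Y -
      RS (sy v) ((X ^ 3 + x * Y ^ 3 : ℤ) : Eis) p q p' q' r = 0 := by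
    intro v hv
    cases v with
    | none => exact absurd rfl hv
    | some π =>
      exact sub_eq_zero.2 (tame hSTM hSPP hLCI hIF1 hIF2 hIF4 hF6R hF7U π hr hx hS hX hY hn)
  rw [finsum_eq_single _ none h0] at hD
  exact sub_eq_zero.1 hD

end Pool.Agent.PT3

end

section

/-!
# PT3_LB: the local form of the antisymmetry at `lam` when `b` is a local cube
-/

open NumberField IsDedekindDomain Finset
open scoped nonZeroDivisors Pointwise

namespace Pool.Agent.PT3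

open Pool.Agent.Lib_helper18 Pool.Agent.Lib_helper18.Eis Pool.Agent.Lib_helper84.Cub
open Pool.Agent.PT Pool.Agent.PTE

namespace LB

/-- the left argument of a symbol at `lam` only matters through its class -/
theorem sl_congr (hSLC : SLC) (hLCL : LCL) {B x : ℤ} (hB : B ≠ 0) (hx : x ≠ 0)
    (h1 : lv x = lv B) (h2 : lw x = lw B) {c : Eis} (hc : c ≠ 0) :
    sl (B : Eis) c = sl (x : Eis) c := by
  have h3 := hLCL.2.2.2.2.2.1 x B c hx hB hc h1 h2
  rw [hSLC.skew c (B : Eis) hc (LEV.cast_ne hB), hSLC.skew c (x : Eis) hc (LEV.cast_ne hx), h3]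

/-- `AS` of a rational number depends only on its class at `lam`. -/
theorem AS_congr (hSLC : SLC) (hLCL : LCL) {B x p q p' q' r : ℤ} (hB : B ≠ 0) (hx : x ≠ 0)
    (h1 : lv x = lv B) (h2 : lw x = lw B) (hF : ∀ i, Lf p q i r ≠ 0)
    (hH : ∀ i, Lf p' q' i r ≠ 0) :
    AS sl (B : Eis) p q p' q' r = AS sl (x : Eis) p q p' q' r := by
  unfold AS
  rw [sl_congr hSLC hLCL hB hx h1 h2 (hF 2), sl_congr hSLC hLCL hB hx h1 h2 (hH 1),
    sl_congr hSLC hLCL hB hx h1 h2 (hF 1), sl_congr hSLC hLCL hB hx h1 h2 (hH 2)]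

theorem hn' {b x p q p' q' : ℤ} (h : SolW b x p q p' q') : p' ^ 3 + b * q' ^ 3 ≠ 0 := by
  intro h0
  apply h.n1
  rw [h.eq, h0, mul_zero]

theorem first (hSTM : STM) (hSPP : SPP) (hSLC : SLC) (hSCJ : SCJ) (hLCI : LCI) (hIF1 : IF1)
    (hAVV : AVV) (B b x p q p' q' : ℤ) (hB : B ≠ 0) (hb : b ≠ 0) (hx : x ≠ 0)
    (hs : Sol b x p q p' q') (h1 : LC lam b) (h2 : LC lam x) :
    TT none B b x p q p' q' + TT none B x b p (-p') (-q) q' = UV sl B b x p q p' q' := by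
  have hL : LSym (uni none) (sy none) 4 := hSLC
  have hs' := LAM.sol_swap hs
  have h1' : LC (uni none) b := h1
  have h2' : LC (uni none) x := h2
  obtain ⟨N0, hN⟩ := hIF1 (uni none) (sy none) 4 hL b x p q p' q' hb hx hs
  obtain ⟨N1, hN1⟩ := (hAVV none B b x p q p' q' hB hb hx hs.toSolW
    (hSCJ.2.2.1 B x hB hx) h1').1
  obtain ⟨N2, hN2⟩ := (hAVV none B x b p (-p') (-q) q' hB hx hb hs'.toSolW
    (hSCJ.2.2.1 B b hB hb) h2').1
  obtain ⟨r, hr⟩ := h1' (max N0 N1)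
  obtain ⟨ξ, hξ⟩ := h2' (max N0 N2)
  have hwb : sy none w (b : Eis) = 0 := LAM.w_lc hLCI hL hb h1'
  have hwx : sy none w (x : Eis) = 0 := LAM.w_lc hLCI hL hx h2'
  have e1 := hN r ξ (LAM.dvd_weak (le_max_left _ _) hr) (LAM.dvd_weak (le_max_left _ _) hξ)
    (B : Eis) (LAM.icast_ne hB)
  have e2 := hN1 r (LAM.dvd_weak (le_max_right _ _) hr)
  have e3 := hN2 ξ (LAM.dvd_weak (le_max_right _ _) hξ)
  have e4 : UV (sy none) B b x p q p' q' = sy none (B : Eis) (Gf p q p' q' 1) -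
      sy none (B : Eis) (Gf p q p' q' 2) + sy none w (B : Eis) := by
    unfold UV
    rw [LAM.w_mul hL hB hx hb, hwb, hwx, add_zero, add_zero]
  change _ = UV (sy none) B b x p q p' q'
  rw [e4]
  unfold TT
  rw [if_pos h1', if_pos h2', hwb, hwx, ← e2, ← e3]
  linear_combination e1

theorem second (hSLC : SLC) (hSCJ : SCJ) (hLCI : LCI) (hIF2 : IF2)
    (hAVV : AVV) (hLCL : LCL) (B b x p q p' q' : ℤ) (hB : B ≠ 0) (hb : b ≠ 0) (hx : x ≠ 0)
    (hs : Sol b x p q p' q') (h1 : LC lam b) (h2 : lv x = lv B) (h3 : lw x = lw B) :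
    TT none B b x p q p' q' = UV sl B b x p q p' q' := by
  have hL : LSym (uni none) (sy none) 4 := hSLC
  have h1' : LC (uni none) b := h1
  have hwb : sy none w (b : Eis) = 0 := LAM.w_lc hLCI hL hb h1'
  have hwB : sy none w (B : Eis) = sy none w (x : Eis) :=
    hLCL.2.2.2.2.2.1 B x w hB hx LEV.w_ne h2.symm h3.symm
  have hG : ∀ i, i = 1 ∨ i = 2 → sl (B : Eis) (Gf p q p' q' i) = sl (x : Eis) (Gf p q p' q' i) :=
    fun i hi => sl_congr hSLC hLCL hB hx h2 h3 (LFIN.Gf_ne hs i hi)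
  obtain ⟨N0, hN⟩ := hIF2 lam sl 4 hSLC b x p q p' q' hb hx hs
  obtain ⟨N1, hN1⟩ := (hAVV none B b x p q p' q' hB hb hx hs.toSolW
    (hSCJ.2.2.1 B x hB hx) h1').1
  obtain ⟨r, hr⟩ := h1' (max (max N0 N1)
    (max (V lam ((p ^ 3 + b * q ^ 3 : ℤ) : Eis) + 1) (V lam ((p' ^ 3 + b * q' ^ 3 : ℤ) : Eis) + 1)))
  have hr1 := LAM.dvd_weak (le_max_left _ _) hr
  have hr2 := LAM.dvd_weak (le_max_right _ _) hr
  have hF : ∀ i, Lf p q i r ≠ 0 := LEV.lf_ne hSLC.prime hs.n1 (Nat.lt_succ_self _)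
    (LAM.dvd_weak (le_max_left _ _) hr2)
  have hH : ∀ i, Lf p' q' i r ≠ 0 := LEV.lf_ne hSLC.prime (hn' hs.toSolW) (Nat.lt_succ_self _)
    (LAM.dvd_weak (le_max_right _ _) hr2)
  have e1 := hN r (LAM.dvd_weak (le_max_left _ _) hr1)
  have e2 := hN1 r (LAM.dvd_weak (le_max_right _ _) hr1)
  have e3 : AS (sy none) (B : Eis) p q p' q' r = AS sl (x : Eis) p q p' q' r :=
    AS_congr hSLC hLCL hB hx h2 h3 hF hH
  have e4 : UV (sy none) B b x p q p' q' = sl (x : Eis) (Gf p q p' q' 1) -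
      sl (x : Eis) (Gf p q p' q' 2) + (sy none w (x : Eis) + sy none w (x : Eis)) := by
    unfold UV
    rw [LAM.w_mul hL hB hx hb, hwb, hwB, add_zero]
    change sl (B : Eis) _ - sl (B : Eis) _ + _ = _
    rw [hG 1 (Or.inl rfl), hG 2 (Or.inr rfl)]
  change _ = UV (sy none) B b x p q p' q'
  rw [e4]
  unfold TT
  rw [if_pos h1', ← e2, e3, e1]
  change sl (x : Eis) _ - sl (x : Eis) _ + sl w (x : Eis) + sl w (x : Eis) =
    sl (x : Eis) _ - sl (x : Eis) _ + (sl w (x : Eis) + sl w (x : Eis))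
  rw [add_assoc]

end LB

set_option linter.unusedVariables false in
theorem LB_thm (hSTM : STM) (hSPP : SPP) (hSSL : SSL) (hSLC : SLC) (hSCJ : SCJ) (hLCI : LCI)
    (hIF1 : IF1) (hIF2 : IF2) (hAVV : AVV) (hLCL : LCL) : LB :=
  ⟨LB.first hSTM hSPP hSLC hSCJ hLCI hIF1 hAVV, LB.second hSLC hSCJ hLCI hIF2 hAVV hLCL⟩

end Pool.Agent.PT3

end

section

/-!
# Prime twists of rank zero, `n` divisible by `3`: the local evaluation at the tame places
(module LEVG)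
-/

namespace Pool.Agent.PT3

open Pool.Agent.Lib_helper18 Pool.Agent.Lib_helper18.Eis Pool.Agent.Lib_helper84.Cub
open Pool.Agent.PT Pool.Agent.PTE

namespace LEVG

/-- A class that is not a local cube and whose symbol with `B` vanishes has valuation prime to
`3` at a prime dividing `B`. -/
theorem nd {π : PP} {B t : ℤ} (h1 : V π.1 (B : Eis) ≠ 0) (h2 : V π.1 (B : Eis) ≤ 2)
    (ht : tm π.1 (t : Eis) (B : Eis) = 0)
    (hL : ¬ (3 ∣ V π.1 (t : Eis) ∧ ch π.1 (t : Eis) = 0)) : ¬ 3 ∣ V π.1 (t : Eis) := by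
  intro h3
  apply hL
  refine ⟨h3, ?_⟩
  unfold tm at ht
  rw [LEV.cast3.2 h3, zero_mul, sub_zero] at ht
  have h9 : (V π.1 (B : Eis) : ZMod 3) ≠ 0 := by
    rw [Ne, LEV.cast3]
    omega
  have : ∀ u y : ZMod 3, u ≠ 0 → u * y = 0 → y = 0 := by decide
  exact this _ _ h9 ht

end LEVG

/-- LEVG: the local evaluation at the tame places. -/
theorem LEVG_thm (hSTM : STM) (hSPP : SPP) (hSSL : SSL) (hSLC : SLC) (hSREC : SREC) (hSCJ : SCJ)
    (hLCI : LCI) (hIF1 : IF1) (hIF2 : IF2) (hIF4 : IF4) (hIF4B : IF4B) (hAVV : AVV)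
    (hTAMG : TAMG) (hF6R : F6R) (hF7U : F7U) : LEVG := by
  intro π B b x p q p' q' X Y hB hb hx hS hP
  have hs : LSym π.1 (tm π.1) 1 := hSTM π.1 π.2.1 (hSPP.2.2.2.1 π).1
  obtain ⟨hF2B, hF3R, hF3U⟩ := hTAMG
  have hB0 := hB.ne
  have hb0 := hb.ne
  have hx0 := hx.ne
  have hBe := LEV.cast_ne hB0
  have hbe := LEV.cast_ne hb0
  have hxe := LEV.cast_ne hx0
  obtain ⟨hn, c, hc, heq⟩ := LEV.rel hB0 hP
  have hrel := LEV.rel_sym hs hBe hxe (LEV.cast_ne hn) hc heq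
  have hsBx : tm π.1 (B : Eis) (x : Eis) = 0 := by
    have h1 := hx.sym π
    have h2 := hs.skew (x : Eis) (B : Eis) hxe hBe
    rw [h2, h1, neg_zero]
  have hwprod : tm π.1 w ((B * x * b : ℤ) : Eis) =
      tm π.1 w (B : Eis) + tm π.1 w (x : Eis) + tm π.1 w (b : Eis) := by
    push_cast
    rw [LEV.mul_right hs (mul_ne_zero hBe hxe) hbe LEV.w_ne, LEV.mul_right hs hBe hxe LEV.w_ne]
  by_cases hLb : LC π.1 b
  · have hTT : TT (some π) B b x p q p' q' = AV (some π) B b p q p' q' + tm π.1 w (x : Eis) := by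
      unfold TT
      exact if_pos hLb
    have hA := hAVV (some π) B b x p q p' q' hB0 hb0 hx0 hS.toSolW hsBx hLb
    by_cases hLx : LC π.1 x
    · -- both cubes
      obtain ⟨N1, h1⟩ := hA.1
      obtain ⟨N2, h2⟩ := hIF1 π.1 (tm π.1) 1 hs b x p q p' q' hb0 hx0 hS
      obtain ⟨N3, _, h3⟩ := LEV.SV_LC hs hLCI hIF4 hb0 hx0 hS hP.hX hP.hY hn hLx hrel
      obtain ⟨r, hr⟩ := hLb (N1 + N2)
      obtain ⟨ξ, hξ⟩ := hLx (N2 + N3)
      have a1 : AS (tm π.1) (B : Eis) p q p' q' r = AV (some π) B b p q p' q' :=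
        h1 r ((pow_dvd_pow π.1 (by omega)).trans hr)
      have a2 := h2 r ξ ((pow_dvd_pow _ (by omega)).trans hr)
        ((pow_dvd_pow _ (by omega)).trans hξ) (B : Eis) hBe
      obtain ⟨hF, a3⟩ := h3 ξ ((pow_dvd_pow _ (by omega)).trans hξ)
      rw [LEV.lc_right hs hLCI hb0 hLb (hF 1), LEV.lc_right hs hLCI hb0 hLb (hF 2)] at a3
      have a4 := LEV.lc_right hs hLCI hb0 hLb LEV.w_ne
      have a5 := LEV.lc_right hs hLCI hx0 hLx LEV.w_ne
      rw [hTT]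
      unfold UV
      rw [hwprod, a3, a4, a5, ← a1]
      linear_combination a2
    · -- `b` is a cube, `x` is not
      obtain ⟨N1, h1⟩ := hF2B π B b x p q p' q' hB hb hx hS hLb hLx
      have a1 := hA.2 _ N1 h1
      have a4 := LEV.lc_right hs hLCI hb0 hLb LEV.w_ne
      have a2 : SV (tm π.1) x p q p' q' X Y = 0 := by
        by_cases hVx : 3 ∣ V π.1 (x : Eis)
        · refine hF7U π b x p q p' q' X Y hb0 hx0 hS hP.hX hP.hY hVx fun h => hLx ?_
          exact (hLCI.1 π x hx0).2 ⟨hVx, h⟩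
        · have h6 := hF6R π b x p q p' q' X Y hb0 hx0 hS hP.hX hP.hY hVx
          by_cases hVn : 3 ∣ V π.1 ((X ^ 3 + x * Y ^ 3 : ℤ) : Eis)
          · exact h6.1 hVn
          · rw [h6.2 hVn, a4, neg_zero]
      rw [hTT, a1, a2]
      unfold UV
      rw [hwprod, a4]
      ring
  · have hTT : TT (some π) B b x p q p' q' =
        if 3 ∣ V π.1 (b : Eis) + V π.1 (B : Eis) ∧ ¬ 3 ∣ V π.1 (b : Eis)
          then - tm π.1 w (x : Eis) else 0 := by
      unfold TT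
      exact if_neg hLb
    by_cases hLx : LC π.1 x
    · -- `x` is a cube, `b` is not
      have a5 := LEV.lc_right hs hLCI hx0 hLx LEV.w_ne
      have hTT0 : TT (some π) B b x p q p' q' = 0 := by
        rw [hTT]
        split_ifs with hcond
        · rw [a5, neg_zero]
        · rfl
      obtain ⟨N1, h1⟩ := hF2B π B x b p (-p') (-q) q' hB hx hb (LEV.swap hS) hLx hLb
      obtain ⟨N3, hN3, h3⟩ := LEV.SV_LC hs hLCI hIF4 hb0 hx0 hS hP.hX hP.hY hn hLx hrel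
      have hmain : ∃ N4 : ℕ, ∀ ξ : ℤ, π.1 ^ N4 ∣ (ξ : Eis) ^ 3 - (x : Eis) →
          (∀ i, Lf X Y i ξ ≠ 0) →
          tm π.1 (Lf X Y 1 ξ) (b : Eis) - tm π.1 (Lf X Y 2 ξ) (b : Eis) =
            tm π.1 w (b : Eis) := by
        by_cases hLB : LC π.1 B
        · have hB' := (hLCI.1 π B hB0).1 hLB
          have hVB : V π.1 (B : Eis) = 0 := by
            have := hB.cf π
            omega
          have hπB : ¬ π.1 ∣ (B : Eis) := V_eq_zero_iff.1 hVB
          have hπb := hb.unr π hπB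
          have hπx := hx.unr π hπB
          have hVb : V π.1 (b : Eis) = 0 := V_eq_zero hπb
          have hVw : V π.1 w = 0 := V_eq_zero (not_dvd_w π.2.1)
          have hVn : 3 ∣ V π.1 ((X ^ 3 + x * Y ^ 3 : ℤ) : Eis) := by
            have h7 := congrArg (V π.1) heq
            rw [V_mul π.2.1 hxe (LEV.cast_ne hn), V_mul π.2.1 hBe (pow_ne_zero 3 hc),
              V_pow π.2.1 hc, hVB, V_eq_zero hπx] at h7
            omega
          refine ⟨N3, fun ξ hξ hF => ?_⟩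
          have h8 := LEV.val_case π.2.1 (hSPP.2.2.2.1 π).1 hP.hX hP.hY hn hπx hN3 hξ hF hVn
          unfold tm
          rw [hVb, hVw, h8]
          push_cast
          ring
        · obtain ⟨j, hj⟩ := LEV.tame_prop (π := π.1) (b := b) (B := B)
            (fun h => hLB ((hLCI.1 π B hB0).2 h)) (hb.sym π)
          exact LEV.prop_case hs hLCI hIF4B hb0 hx0 hP.hX hP.hY hn hLx hrel j hj
      obtain ⟨N4, h4⟩ := hmain
      obtain ⟨ξ, hξ⟩ := hLx (N1 + N3 + N4)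
      obtain ⟨hF, a3⟩ := h3 ξ ((pow_dvd_pow _ (by omega)).trans hξ)
      have a1 := h1 ξ ((pow_dvd_pow _ (by omega)).trans hξ)
      have a6 := h4 ξ ((pow_dvd_pow _ (by omega)).trans hξ) hF
      rw [LEV.gf_swap, LEV.gf_swap] at a1
      rw [hTT0, a3]
      unfold UV
      rw [hwprod, a5]
      linear_combination a1 + a6
    · -- no cubes
      have hLb' : ¬ (3 ∣ V π.1 (b : Eis) ∧ ch π.1 (b : Eis) = 0) :=
        fun h => hLb ((hLCI.1 π b hb0).2 h)
      have hLx' : ¬ (3 ∣ V π.1 (x : Eis) ∧ ch π.1 (x : Eis) = 0) :=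
        fun h => hLx ((hLCI.1 π x hx0).2 h)
      rw [hTT]
      by_cases hπB : π.1 ∣ (B : Eis)
      · have hVB1 : V π.1 (B : Eis) ≠ 0 := fun h => (V_eq_zero_iff.1 h) hπB
        have hVB2 := hB.cf π
        have hVb := LEVG.nd hVB1 hVB2 (hb.sym π) hLb'
        have hVx := LEVG.nd hVB1 hVB2 (hx.sym π) hLx'
        rw [hF3R π B b x p q p' q' hB hb hx hS hπB hVb hVx]
        have h6 := hF6R π b x p q p' q' X Y hb0 hx0 hS hP.hX hP.hY hVx
        have h7 := congrArg (V π.1) heq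
        rw [V_mul π.2.1 hxe (LEV.cast_ne hn), V_mul π.2.1 hBe (pow_ne_zero 3 hc),
          V_pow π.2.1 hc] at h7
        have hSV : SV (tm π.1) x p q p' q' X Y =
            if 3 ∣ V π.1 (x : Eis) + V π.1 (B : Eis) then - tm π.1 w (b : Eis) else 0 := by
          split_ifs with hcond
          · exact h6.2 (by omega)
          · refine h6.1 ?_
            have c1 : V π.1 (x : Eis) % 3 = 1 ∨ V π.1 (x : Eis) % 3 = 2 := by omega
            have c2 : V π.1 (B : Eis) = 1 ∨ V π.1 (B : Eis) = 2 := by omega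
            rcases c1 with c1 | c1 <;> rcases c2 with c2 | c2 <;> omega
        rw [hSV]
        by_cases hcond : 3 ∣ V π.1 (b : Eis) + V π.1 (B : Eis)
        · rw [if_pos ⟨hcond, hVb⟩, if_pos hcond]
          ring
        · rw [if_neg (fun h => hcond h.1), if_neg hcond]
          ring
      · have hπb := hb.unr π hπB
        have hπx := hx.unr π hπB
        have hVb : V π.1 (b : Eis) = 0 := V_eq_zero hπb
        have hVx : V π.1 (x : Eis) = 0 := V_eq_zero hπx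
        have hcb : ch π.1 (b : Eis) ≠ 0 := fun h => hLb' ⟨by rw [hVb]; exact dvd_zero _, h⟩
        have hcx : ch π.1 (x : Eis) ≠ 0 := fun h => hLx' ⟨by rw [hVx]; exact dvd_zero _, h⟩
        rw [hF3U π B b x p q p' q' hB hb hx hS hπB hcb hcx,
          hF7U π b x p q p' q' X Y hb0 hx0 hS hP.hX hP.hY (by rw [hVx]; exact dvd_zero _) hcx,
          if_neg (fun h => h.2 (by rw [hVb]; exact dvd_zero _))]
        ring

end Pool.Agent.PT3

end

section

/-!
# PT3, module LVC: `x` is a local cube at `lam` and `v(B) = 1`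
-/

set_option autoImplicit false

open NumberField IsDedekindDomain Finset
open scoped nonZeroDivisors Pointwise

namespace Pool.Agent.PT3

open Pool.Agent.Lib_helper18 Pool.Agent.Lib_helper18.Eis Pool.Agent.Lib_helper84.Cub
open Pool.Agent.PT Pool.Agent.PTE

namespace LVC

/-- integers of the same class have the same symbols, first variable -/
theorem left_eq (hSSL : SSL) (hLCL : LCL) {a b : ℤ} (ha : a ≠ 0) (hb : b ≠ 0) (h1 : lv a = lv b)
    (h2 : lw a = lw b) {c : Eis} (hc : c ≠ 0) : sl (a : Eis) c = sl (b : Eis) c := by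
  have h3 := hLCL.2.2.2.2.2.1 a b c ha hb hc h1 h2
  have h4 : sl (a : Eis) c = - sl c (a : Eis) := hSSL.2.1 c (a : Eis) hc (LEV.cast_ne ha)
  have h5 : sl (b : Eis) c = - sl c (b : Eis) := hSSL.2.1 c (b : Eis) hc (LEV.cast_ne hb)
  rw [h4, h5, h3]

end LVC

set_option linter.unusedVariables false in
theorem LVC_thm (hSTM : STM) (hSPP : SPP) (hSSL : SSL) (hSLC : SLC) (hSCJ : SCJ) (hLCI : LCI)
    (hIF2 : IF2) (hIF4 : IF4) (hIIA : IIA) (hLL1 : LL1) (hLCL : LCL) : LVC := by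
  intro B b x p q p' q' X Y X' Y' hB hb hx hS hlv hLCx hP hP'
  have hL : LSym lam sl 4 := hSLC
  have hS' := LEV.swap hS
  obtain ⟨hX, hY, hn0, hcv, hcw⟩ := hP
  obtain ⟨hX', hY', hnb, hcv', hcw'⟩ := hP'
  obtain ⟨hvx, hwx⟩ := (hLCL.1 x hx).1 hLCx
  have hm := hLCL.2.1 x (X ^ 3 + x * Y ^ 3) hx hn0
  have hv0 : lv (X ^ 3 + x * Y ^ 3) = lv B := by rw [← hcv, hm.1, hvx, zero_add]
  have hw0 : lw (X ^ 3 + x * Y ^ 3) = lw B := by rw [← hcw, hm.2, hwx, zero_add]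
  obtain ⟨N1, h1⟩ := hIIA x b p (-p') (-q) q' X' Y' hx hb hLCx hS' hX' hY' hnb
  obtain ⟨N2, h2⟩ := hIF4 lam sl 4 hL b x p q p' q' X Y hb hx hS hX hY hn0
  obtain ⟨N3, h3⟩ := hLL1 x X Y b hx hb hX hY hn0 (by rw [hv0, hlv])
  obtain ⟨N4, h4⟩ := hIF2 lam sl 4 hL x b p (-p') (-q) q' hx hb hS'
  have hn' : p ^ 3 + x * (-p') ^ 3 ≠ 0 := hS'.n1
  have hn'' : (-q) ^ 3 + x * q' ^ 3 ≠ 0 := LEV.nn hS
  obtain ⟨N, hN⟩ : ∃ N, N = N1 + N2 + N3 + N4 + V lam ((p ^ 3 + x * (-p') ^ 3 : ℤ) : Eis) +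
    V lam (((-q) ^ 3 + x * q' ^ 3 : ℤ) : Eis) + 1 := ⟨_, rfl⟩
  obtain ⟨ξ, hξ⟩ := hLCx N
  have g1 := h1 ξ ((pow_dvd_pow lam (by omega)).trans hξ)
  have g2 := h2 ξ ((pow_dvd_pow lam (by omega)).trans hξ)
  have g3 := h3 ξ ((pow_dvd_pow lam (by omega)).trans hξ)
  have g4 := h4 ξ ((pow_dvd_pow lam (by omega)).trans hξ)
  have hG := LEV.lf_ne hL.prime hn' (N := N) (by omega) hξ
  have hG' := LEV.lf_ne hL.prime hn'' (N := N) (by omega) hξ
  have hw : (w : Eis) ≠ 0 := LEV.w_ne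
  have hB' := LEV.cast_ne hB
  have hb' := LEV.cast_ne hb
  have hx' := LEV.cast_ne hx
  have hnb' := LEV.cast_ne hnb
  -- the class of `b n_b` is the class of `B`
  have key : ∀ y : Eis, y ≠ 0 →
      sl (B : Eis) y = sl (b : Eis) y + sl ((X' ^ 3 + b * Y' ^ 3 : ℤ) : Eis) y := by
    intro y hy
    have e1 := LVC.left_eq hSSL hLCL (mul_ne_zero hb hnb) hB hcv' hcw' hy
    have e2 : ((b * (X' ^ 3 + b * Y' ^ 3) : ℤ) : Eis) =
        (b : Eis) * ((X' ^ 3 + b * Y' ^ 3 : ℤ) : Eis) := Int.cast_mul _ _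
    rw [← e1, e2, hL.mul _ _ _ hb' hnb' hy]
  have keyw : sl w (B : Eis) = sl w (b : Eis) + sl w ((X' ^ 3 + b * Y' ^ 3 : ℤ) : Eis) := by
    have e1 := hLCL.2.2.2.2.2.1 _ _ w (mul_ne_zero hb hnb) hB hw hcv' hcw'
    have e2 : ((b * (X' ^ 3 + b * Y' ^ 3) : ℤ) : Eis) =
        (b : Eis) * ((X' ^ 3 + b * Y' ^ 3 : ℤ) : Eis) := Int.cast_mul _ _
    rw [← e1, e2, LEV.mul_right hL hb' hnb' hw]
  have key0 : ∀ y : Eis, y ≠ 0 →
      sl ((X ^ 3 + x * Y ^ 3 : ℤ) : Eis) y = sl (B : Eis) y := fun y hy =>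
    LVC.left_eq hSSL hLCL hn0 hB hv0 hw0 hy
  have a1 : AS sl ((X ^ 3 + x * Y ^ 3 : ℤ) : Eis) p (-p') (-q) q' ξ =
      AS sl (b : Eis) p (-p') (-q) q' ξ +
        AS sl ((X' ^ 3 + b * Y' ^ 3 : ℤ) : Eis) p (-p') (-q) q' ξ := by
    unfold AS
    rw [key0 _ (hG 2), key0 _ (hG' 1), key0 _ (hG 1), key0 _ (hG' 2), key _ (hG 2),
      key _ (hG' 1), key _ (hG 1), key _ (hG' 2)]
    ring
  have wx : sl w (x : Eis) = 0 := LEV.lc_right hL hLCI hx hLCx hw
  have wm : sl w ((B * x * b : ℤ) : Eis) = sl w (B : Eis) + sl w (b : Eis) := by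
    have e2 : ((B * x * b : ℤ) : Eis) = (B : Eis) * (x : Eis) * (b : Eis) := by push_cast; ring
    rw [e2, LEV.mul_right hL (mul_ne_zero hB' hx') hb' hw, LEV.mul_right hL hB' hx' hw, wx,
      add_zero]
  have G1 : Gf p q p' q' 1 ≠ 0 := LFIN.Gf_ne hS 1 (Or.inl rfl)
  have G2 : Gf p q p' q' 2 ≠ 0 := LFIN.Gf_ne hS 2 (Or.inr rfl)
  rw [LEV.gf_swap, LEV.gf_swap] at g1 g4
  unfold UV
  rw [wm, key _ G1, key _ G2, keyw]
  rw [a1] at g2
  linear_combination g1 + g2 + g3 + g4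

end Pool.Agent.PT3

end

section

/-!
# Prime twists of rank zero, `n` divisible by `3`: the local term of a point at `lam` when `b` is a
local cube
-/

namespace Pool.Agent.PT3

open Pool.Agent.Lib_helper18 Pool.Agent.Lib_helper18.Eis Pool.Agent.Lib_helper84.Cub
open Pool.Agent.PT Pool.Agent.PTE

namespace IIA

/-- close integers have the same symbols -/
theorem close (hL : LSym lam sl 4) {a a0 : ℤ} {N : ℕ} (h0 : a0 ≠ 0)
    (hN : V lam (a0 : Eis) + 4 ≤ N) (h : lam ^ N ∣ (a : Eis) - (a0 : Eis)) :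
    a ≠ 0 ∧ ∀ y : Eis, y ≠ 0 → sl (a : Eis) y = sl (a0 : Eis) y := by
  refine ⟨?_, fun y hy => hL.cont _ _ y (LEV.cast_ne h0) hy ((pow_dvd_pow lam hN).trans h)⟩
  rintro rfl
  have h1 : lam ^ N ∣ (a0 : Eis) := by
    have := (dvd_neg (a := lam ^ N)).2 h
    simpa using this
  have h2 := (fin prime_lam (LEV.cast_ne h0)).le_multiplicity_of_pow_dvd h1
  unfold V at hN
  omega

theorem cube_close (hL : LSym lam sl 4) {a h0 m : ℤ} {N : ℕ} (hh : h0 ≠ 0) (hm : m ≠ 0)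
    (hN : V lam ((h0 ^ 3 * m : ℤ) : Eis) + 4 ≤ N)
    (h : lam ^ N ∣ (a : Eis) - ((h0 ^ 3 * m : ℤ) : Eis)) :
    a ≠ 0 ∧ ∀ y : Eis, y ≠ 0 → sl (a : Eis) y = sl (m : Eis) y := by
  obtain ⟨h1, h2⟩ := close hL (mul_ne_zero (pow_ne_zero 3 hh) hm) hN h
  refine ⟨h1, fun y hy => ?_⟩
  rw [h2 y hy]
  push_cast
  rw [hL.mul _ _ _ (pow_ne_zero 3 (LEV.cast_ne hh)) (LEV.cast_ne hm) hy,
    LEV.cube_left hL (LEV.cast_ne hh) hy, zero_add]

theorem wlin {u v : ℤ} (h : u ≠ 0 ∨ v ≠ 0) (i : ℕ) (hi : i = 1 ∨ i = 2) :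
    (u : Eis) + w ^ i * (v : Eis) ≠ 0 := by
  intro h0
  rcases hi with rfl | rfl
  · have h1 := congrArg Eis.re h0
    have h2 := congrArg Eis.im h0
    simp at h1 h2
    rcases h with h | h
    · exact h (by omega)
    · exact h (by omega)
  · have h1 := congrArg Eis.re h0
    have h2 := congrArg Eis.im h0
    rw [pow_two] at h1 h2
    simp at h1 h2
    rcases h with h | h
    · exact h (by omega)
    · exact h (by omega)

end IIA

theorem IIA_thm (hSLC : SLC) (hSSL : SSL) (hSCJ : SCJ) (hIIAG : IIAG) : IIA := by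
  intro b x p q p' q' X Y hb hx hLC hS hX hY hn
  have hL : LSym lam sl 4 := hSLC
  obtain ⟨⟨heq, hn1⟩, hn2⟩ := hS
  have hS' : Sol b x p q p' q' := ⟨⟨heq, hn1⟩, hn2⟩
  have hH0 : p' ^ 3 + b * q' ^ 3 ≠ 0 := by
    intro h0
    apply hn1
    rw [heq, h0, mul_zero]
  have hn3 : x * q' ^ 3 - q ^ 3 ≠ 0 := by
    have := LEV.nn hS'
    intro h0
    apply this
    linear_combination h0
  obtain ⟨H0, hH0d⟩ : ∃ H0, H0 = p' ^ 3 + b * q' ^ 3 := ⟨_, rfl⟩
  rw [← hH0d] at hH0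
  set N0 := V lam ((H0 ^ 3 * (X ^ 3 + x * Y ^ 3) : ℤ) : Eis) +
    V lam ((H0 ^ 3 * (p ^ 3 - x * p' ^ 3) : ℤ) : Eis) +
    V lam ((H0 ^ 3 * (x * q' ^ 3 - q ^ 3) : ℤ) : Eis) +
    V lam ((p ^ 3 + b * q ^ 3 : ℤ) : Eis) + V lam ((p' ^ 3 + b * q' ^ 3 : ℤ) : Eis) +
    V lam (b : Eis) + 5 with hN0
  refine ⟨N0, fun r hr => ?_⟩
  obtain ⟨δ, hδ⟩ : ∃ δ : ℤ, δ = r ^ 3 - b := ⟨_, rfl⟩
  have hδd : lam ^ N0 ∣ (δ : Eis) := by
    rw [hδ]
    push_cast
    exact hr
  have cls : ∀ {a a0 c : ℤ}, a = a0 + δ * c → lam ^ N0 ∣ (a : Eis) - (a0 : Eis) := by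
    intro a a0 c h
    have : (a : Eis) - (a0 : Eis) = (δ : Eis) * c := by
      rw [h]
      push_cast
      ring
    rw [this]
    exact Dvd.dvd.mul_right hδd _
  -- nonvanishing
  have hr0 : r ≠ 0 := by
    have h1 := IIA.close hL (a := r ^ 3) (a0 := b) (N := N0) hb (by omega)
      (cls (c := 1) (by rw [hδ]; ring))
    intro h0
    apply h1.1
    rw [h0]
    ring
  obtain ⟨F, hF⟩ : ∃ F, F = p ^ 3 + r ^ 3 * q ^ 3 := ⟨_, rfl⟩
  obtain ⟨H, hH⟩ : ∃ H, H = p' ^ 3 + r ^ 3 * q' ^ 3 := ⟨_, rfl⟩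
  have hFne : F ≠ 0 := (IIA.close hL (a := F) (a0 := p ^ 3 + b * q ^ 3) (N := N0) hn1 (by omega)
    (cls (c := q ^ 3) (by rw [hδ, hF]; ring))).1
  have hHne : H ≠ 0 := (IIA.close hL (a := H) (a0 := p' ^ 3 + b * q' ^ 3) (N := N0)
    (by rw [← hH0d]; exact hH0) (by omega) (cls (c := q' ^ 3) (by rw [hδ, hH]; ring))).1
  have hHe : H = H0 + δ * q' ^ 3 := by rw [hH, hδ, hH0d]; ring
  have hFe : F = x * H0 + δ * q ^ 3 := by
    rw [hF, hδ, hH0d]
    linear_combination heq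
  -- close numbers
  obtain ⟨k1, k1'⟩ := IIA.cube_close hL (a := (X * H) ^ 3 + F * H ^ 2 * Y ^ 3) (h0 := H0)
    (m := X ^ 3 + x * Y ^ 3) (N := N0) hH0 hn (by omega)
    (cls (c := X ^ 3 * (3 * H0 ^ 2 * q' ^ 3 + 3 * H0 * δ * q' ^ 6 + δ ^ 2 * q' ^ 9) +
      Y ^ 3 * (x * H0 * (2 * H0 * q' ^ 3 + δ * q' ^ 6) +
        q ^ 3 * (H0 + δ * q' ^ 3) ^ 2)) (by rw [hHe, hFe]; ring))
  obtain ⟨k2, k2'⟩ := IIA.cube_close hL (a := (p * H) ^ 3 - F * H ^ 2 * p' ^ 3) (h0 := H0)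
    (m := p ^ 3 - x * p' ^ 3) (N := N0) hH0 hn2 (by omega)
    (cls (c := p ^ 3 * (3 * H0 ^ 2 * q' ^ 3 + 3 * H0 * δ * q' ^ 6 + δ ^ 2 * q' ^ 9) -
      p' ^ 3 * (x * H0 * (2 * H0 * q' ^ 3 + δ * q' ^ 6) +
        q ^ 3 * (H0 + δ * q' ^ 3) ^ 2)) (by rw [hHe, hFe]; ring))
  obtain ⟨k3, k3'⟩ := IIA.cube_close hL (a := F * H ^ 2 * q' ^ 3 - (q * H) ^ 3) (h0 := H0)
    (m := x * q' ^ 3 - q ^ 3) (N := N0) hH0 hn3 (by omega)
    (cls (c := q' ^ 3 * (x * H0 * (2 * H0 * q' ^ 3 + δ * q' ^ 6) +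
        q ^ 3 * (H0 + δ * q' ^ 3) ^ 2) -
      q ^ 3 * (3 * H0 ^ 2 * q' ^ 3 + 3 * H0 * δ * q' ^ 6 + δ ^ 2 * q' ^ 9))
      (by rw [hHe, hFe]; ring))
  -- the global identity
  have hSt : Sol (r ^ 3) (F * H ^ 2) (p * H) (q * H) p' q' := by
    refine ⟨⟨?_, ?_⟩, k2⟩
    · rw [← hH]
      linear_combination (-(H ^ 3)) * hF
    · have : (p * H) ^ 3 + r ^ 3 * (q * H) ^ 3 = F * H ^ 3 := by rw [hF]; ring
      rw [this]
      exact mul_ne_zero hFne (pow_ne_zero 3 hHne)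
  have key := hIIAG r (F * H ^ 2) (p * H) (q * H) p' q' (X * H) Y hr0
    (mul_ne_zero hFne (pow_ne_zero 2 hHne)) hSt (mul_ne_zero hX hHne) hY k1
  -- the forms
  have hHc : (H : Eis) ≠ 0 := LEV.cast_ne hHne
  have hpp : p' ≠ 0 ∨ p ≠ 0 := by
    by_contra h0
    push Not at h0
    apply hn2
    rw [h0.1, h0.2]
    ring
  have hqq : q' ≠ 0 ∨ q ≠ 0 := by
    by_contra h0
    push Not at h0
    apply hn3
    rw [h0.1, h0.2]
    ring
  have hD : ∀ i : ℕ, i = 1 ∨ i = 2 → Df X Y p' p i ≠ 0 := by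
    intro i hi
    have := IIA.wlin (u := X * p') (v := p * Y) (by
      rcases hpp with h | h
      · exact Or.inl (mul_ne_zero hX h)
      · exact Or.inr (mul_ne_zero h hY)) i hi
    unfold Df
    intro h0
    apply this
    push_cast
    linear_combination h0
  have hD' : ∀ i : ℕ, i = 1 ∨ i = 2 → Df X Y q' q i ≠ 0 := by
    intro i hi
    have := IIA.wlin (u := X * q') (v := q * Y) (by
      rcases hqq with h | h
      · exact Or.inl (mul_ne_zero hX h)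
      · exact Or.inr (mul_ne_zero h hY)) i hi
    unfold Df
    intro h0
    apply this
    push_cast
    linear_combination h0
  have hG : ∀ i : ℕ, i = 1 ∨ i = 2 → Gf p q p' q' i ≠ 0 := by
    intro i hi
    have := IIA.wlin (u := q * p') (v := -(p * q')) (by
      by_contra h0
      push Not at h0
      obtain ⟨h1, h2⟩ := h0
      rw [neg_eq_zero] at h2
      rcases mul_eq_zero.1 h1 with h3 | h3 <;> rcases mul_eq_zero.1 h2 with h4 | h4
      · apply hn1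
        rw [h3, h4]
        ring
      · apply hn3
        rw [h3, h4]
        ring
      · apply hn2
        rw [h3, h4]
        ring
      · apply hn1
        rw [heq, h3, h4]
        ring) i hi
    unfold Gf
    intro h0
    apply this
    push_cast
    linear_combination h0
  have hLf : ∀ i, Lf p q i r ≠ 0 :=
    LEV.lf_ne prime_lam (N := N0) hn1 (by omega) hr
  have hLf' : ∀ i, Lf p' q' i r ≠ 0 :=
    LEV.lf_ne prime_lam (N := N0) (b := b) (by rw [← hH0d]; exact hH0) (by omega) hr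
  have eD : ∀ i, Df (X * H) Y p' (p * H) i = (H : Eis) * Df X Y p' p i := by
    intro i
    unfold Df
    push_cast
    ring
  have eD' : ∀ i, Df (X * H) Y q' (q * H) i = (H : Eis) * Df X Y q' q i := by
    intro i
    unfold Df
    push_cast
    ring
  have eG : ∀ i, Gf (p * H) (q * H) p' q' i = (H : Eis) * Gf p q p' q' i := by
    intro i
    unfold Gf
    push_cast
    ring
  have eL : ∀ i, Lf (p * H) (q * H) i r = (H : Eis) * Lf p q i r := by
    intro i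
    unfold Lf
    push_cast
    ring
  -- symbols
  have skl : ∀ {m : ℤ} {a : ℤ}, a ≠ 0 → m ≠ 0 → (∀ y : Eis, y ≠ 0 → sl (a : Eis) y = sl (m : Eis) y) →
      ∀ y : Eis, y ≠ 0 → sl y (a : Eis) = sl y (m : Eis) := by
    intro m a ha hm h y hy
    rw [hL.skew _ _ (LEV.cast_ne ha) hy, hL.skew _ _ (LEV.cast_ne hm) hy, h y hy]
  have j1 := skl k1 hn k1'
  have j2 := skl k2 hn2 k2'
  have j3 := skl k3 hn3 k3'
  have c1 : ∀ {m : ℤ} (hm : m ≠ 0) {u v : Eis} (hu : u ≠ 0) (hv : v ≠ 0),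
      sl ((H : Eis) * u) (m : Eis) - sl ((H : Eis) * v) (m : Eis) =
        sl u (m : Eis) - sl v (m : Eis) := by
    intro m hm u v hu hv
    rw [hL.mul _ _ _ hHc hu (LEV.cast_ne hm), hL.mul _ _ _ hHc hv (LEV.cast_ne hm)]
    ring
  have c2 : ∀ {m : ℤ} (hm : m ≠ 0) {u v : Eis} (hu : u ≠ 0) (hv : v ≠ 0),
      sl (m : Eis) ((H : Eis) * u) - sl (m : Eis) ((H : Eis) * v) =
        sl (m : Eis) u - sl (m : Eis) v := by
    intro m hm u v hu hv
    rw [LEV.mul_right hL hHc hu (LEV.cast_ne hm), LEV.mul_right hL hHc hv (LEV.cast_ne hm)]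
    ring
  unfold SV AS at key
  unfold SV AS
  rw [eD, eD, eD', eD', eG, eG, eL, eL] at key
  have f1 := hD 1 (Or.inl rfl)
  have f2 := hD 2 (Or.inr rfl)
  have f3 := hD' 1 (Or.inl rfl)
  have f4 := hD' 2 (Or.inr rfl)
  have f5 := hG 1 (Or.inl rfl)
  have f6 := hG 2 (Or.inr rfl)
  have g1 := c1 k2 f1 f2
  have g2 := c1 k1 f1 f2
  have g3 := c1 k3 f3 f4
  have g4 := c1 k1 f3 f4
  have g5 := c2 k1 f5 f6
  have g6 := c2 k1 (hLf 2) (hLf 1)
  rw [j2 _ f1, j2 _ f2] at g1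
  rw [j1 _ f1, j1 _ f2] at g2
  rw [j3 _ f3, j3 _ f4] at g3
  rw [j1 _ f3, j1 _ f4] at g4
  rw [k1' _ f5, k1' _ f6] at g5
  rw [k1' _ (hLf 2), k1' _ (hLf 1)] at g6
  have g7 := k1' _ (hLf' 1)
  have g8 := k1' _ (hLf' 2)
  have g9 := j1 _ LEV.w_ne
  linear_combination key - g1 + g2 + g3 - g4 + g5 + g9 - g6 - g7 + g8

end Pool.Agent.PT3

end

section

/-!
# Prime twists of rank zero, `n` divisible by `3`: finiteness of the supports
-/

set_option autoImplicit false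

open NumberField IsDedekindDomain Finset
open scoped nonZeroDivisors Pointwise

namespace Pool.Agent.PT3

open Pool.Agent.Lib_helper18 Pool.Agent.Lib_helper18.Eis Pool.Agent.Lib_helper84.Cub
open Pool.Agent.PT Pool.Agent.PTE

open Pool.Agent.PT.LFIN in
/-- LFIG: finiteness of the supports. -/
theorem LFIG_thm (hSTM : STM) (hSPP : SPP) (_hSSL : SSL) (_hSLC : SLC) (_hSCJ : SCJ)
    (_hLCI : LCI) (hAVV : AVV) : LFIG := by
  intro B b x p q p' q' hB hb hx hs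
  have hn2 : p' ^ 3 + b * q' ^ 3 ≠ 0 := by
    intro h
    apply hs.n1
    rw [hs.eq, h, mul_zero]
  set M : ℤ := B * b * x * (p ^ 3 + b * q ^ 3) * (p' ^ 3 + b * q' ^ 3) with hMdef
  have hM : M ≠ 0 := mul_ne_zero (mul_ne_zero (mul_ne_zero (mul_ne_zero hB.ne hb.ne) hx.ne)
    hs.n1) hn2
  have hfin := hSPP.2.2.1 (M : Eis) (cast_ne hM)
  refine ((hfin.image some).union (Set.finite_singleton none)).subset ?_
  intro v hv
  rcases v with _ | π
  · right
    rfl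
  · left
    refine ⟨π, ?_, rfl⟩
    by_contra hnd
    apply hv
    have hd : ∀ n : ℤ, n ∣ M → ¬ π.1 ∣ ((n : ℤ) : Eis) := by
      intro n hn h1
      apply hnd
      obtain ⟨c, hc⟩ := hn
      show π.1 ∣ (M : Eis)
      rw [hc]
      push_cast
      exact dvd_mul_of_dvd_left h1 _
    have hnB := hd B ⟨b * x * (p ^ 3 + b * q ^ 3) * (p' ^ 3 + b * q' ^ 3), by rw [hMdef]; ring⟩
    have hnb := hd b ⟨B * x * (p ^ 3 + b * q ^ 3) * (p' ^ 3 + b * q' ^ 3), by rw [hMdef]; ring⟩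
    have hnx := hd x ⟨B * b * (p ^ 3 + b * q ^ 3) * (p' ^ 3 + b * q' ^ 3), by rw [hMdef]; ring⟩
    have hn1 := hd (p ^ 3 + b * q ^ 3) ⟨B * b * x * (p' ^ 3 + b * q' ^ 3), by rw [hMdef]; ring⟩
    have hn2 := hd (p' ^ 3 + b * q' ^ 3) ⟨B * b * x * (p ^ 3 + b * q ^ 3), by rw [hMdef]; ring⟩
    have hnw : ¬ π.1 ∣ w := fun h1 => π.2.1.not_isUnit (isUnit_of_dvd_unit h1 w_unit)
    show TT (some π) B b x p q p' q' = 0
    by_cases hLC : LC (uni (some π)) b
    · have hTT : TT (some π) B b x p q p' q' =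
          AV (some π) B b p q p' q' + sy (some π) w (x : Eis) := by
        unfold TT
        rw [if_pos hLC]
      rw [hTT]
      have hw : sy (some π) w (x : Eis) = 0 := tm_zero hnw hnx
      have hsym : sy (some π) (B : Eis) (x : Eis) = 0 := by
        have h1 := (hSTM π.1 π.2.1 (hSPP.2.2.2.1 π).1).skew (x : Eis) (B : Eis)
          (cast_ne hx.ne) (cast_ne hB.ne)
        show tm π.1 (B : Eis) (x : Eis) = 0
        rw [h1, hx.sym π, neg_zero]
      obtain ⟨N0, hN0⟩ := (hAVV (some π) B b x p q p' q' hB.ne hb.ne hx.ne hs hsym hLC).1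
      obtain ⟨r, hr⟩ := hLC (max N0 1)
      have hr0 : uni (some π) ^ N0 ∣ (r : Eis) ^ 3 - (b : Eis) :=
        (pow_dvd_pow _ (le_max_left _ _)).trans hr
      have hr1 : π.1 ∣ (r : Eis) ^ 3 - (b : Eis) := by
        have h1 : π.1 ^ 1 ∣ (r : Eis) ^ 3 - (b : Eis) :=
          (pow_dvd_pow π.1 (le_max_right N0 1)).trans hr
        rwa [pow_one] at h1
      rw [hw, ← hN0 r hr0]
      show tm π.1 (B : Eis) (Lf p q 2 r) + tm π.1 (B : Eis) (Lf p' q' 1 r) -
        tm π.1 (B : Eis) (Lf p q 1 r) - tm π.1 (B : Eis) (Lf p' q' 2 r) + 0 = 0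
      rw [tm_zero hnB (Lf_not_dvd hr1 hn1 2), tm_zero hnB (Lf_not_dvd hr1 hn2 1),
        tm_zero hnB (Lf_not_dvd hr1 hn1 1), tm_zero hnB (Lf_not_dvd hr1 hn2 2)]
      simp
    · unfold TT
      rw [if_neg hLC]
      show (if 3 ∣ V π.1 (b : Eis) + V π.1 (B : Eis) ∧ ¬ 3 ∣ V π.1 (b : Eis)
        then - tm π.1 w (x : Eis) else 0) = 0
      rw [if_neg]
      rintro ⟨-, h1⟩
      apply h1
      rw [V_eq_zero hnb]
      exact dvd_zero 3

end Pool.Agent.PT3

end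

section

/-!
# Module LVB: the local evaluation at `lam`, `x` a local cube, `b` in the class of `B`
-/

namespace Pool.Agent.PT3

open Pool.Agent.Lib_helper18 Pool.Agent.Lib_helper18.Eis Pool.Agent.Lib_helper84.Cub
open Pool.Agent.PT Pool.Agent.PTE

namespace LVB

/-- symbols of rational numbers in the same class, on the left -/
theorem left_eq (hSLC : SLC) (hLCL : LCL) {a b : ℤ} (ha : a ≠ 0) (hb : b ≠ 0)
    (h1 : lv a = lv b) (h2 : lw a = lw b) {y : Eis} (hy : y ≠ 0) :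
    sl (a : Eis) y = sl (b : Eis) y := by
  have h := hLCL.2.2.2.2.2.1 a b y ha hb hy h1 h2
  rw [hSLC.skew y (a : Eis) hy (LEV.cast_ne ha), hSLC.skew y (b : Eis) hy (LEV.cast_ne hb), h]

end LVB

theorem LVB_thm (_hSTM : STM) (_hSPP : SPP) (_hSSL : SSL) (hSLC : SLC) (_hSCJ : SCJ) (hLCI : LCI)
    (hIF2 : IF2) (hIF4 : IF4) (hIF4B : IF4B) (hLCL : LCL) : LVB := by
  intro B b x p q p' q' X Y hB hb hx hS hLx hbv hbw hP
  have hn := hP.n0
  have hxn : x * (X ^ 3 + x * Y ^ 3) ≠ 0 := mul_ne_zero hx hn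
  have hbe := LEV.cast_ne hb
  have hBe := LEV.cast_ne hB
  have hxe := LEV.cast_ne hx
  have hne := LEV.cast_ne hn
  -- the classes
  have hrel : LEV.Rel sl (B : Eis) (x : Eis) ((X ^ 3 + x * Y ^ 3 : ℤ) : Eis) := by
    intro y hy
    rw [← LVB.left_eq hSLC hLCL hxn hB hP.cl.1 hP.cl.2 hy, Int.cast_mul,
      hSLC.mul _ _ y hxe hne hy]
  have hbB : ∀ y : Eis, y ≠ 0 → sl (b : Eis) y = sl (B : Eis) y := fun y hy =>
    LVB.left_eq hSLC hLCL hb hB hbv hbw hy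
  obtain ⟨N1, _, h1⟩ := LEV.SV_LC hSLC hLCI hIF4 hb hx hS hP.hX hP.hY hn hLx hrel
  obtain ⟨N2, h2⟩ := LEV.prop_case hSLC hLCI hIF4B hb hx hP.hX hP.hY hn hLx hrel 1
    (fun y hy => by rw [one_mul]; exact hbB y hy)
  obtain ⟨N3, h3⟩ := hIF2 lam sl 4 hSLC x b p (-p') (-q) q' hx hb (LEV.swap hS)
  set N0 := N1 + N2 + N3 + V lam ((p ^ 3 + x * (-p') ^ 3 : ℤ) : Eis) +
    V lam (((-q) ^ 3 + x * q' ^ 3 : ℤ) : Eis) + 1 with hN0
  obtain ⟨ξ, hξ⟩ := hLx N0
  obtain ⟨hF, h4⟩ := h1 ξ ((pow_dvd_pow lam (by omega)).trans hξ)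
  have h5 := h2 ξ ((pow_dvd_pow lam (by omega)).trans hξ) hF
  have h6 := h3 ξ ((pow_dvd_pow lam (by omega)).trans hξ)
  have hG := LEV.lf_ne hSLC.prime (LEV.swap hS).n1 (N := N0) (by omega) hξ
  have hG' := LEV.lf_ne hSLC.prime (LEV.nn hS) (N := N0) (by omega) hξ
  have hAS : AS sl (B : Eis) p (-p') (-q) q' ξ = AS sl (b : Eis) p (-p') (-q) q' ξ := by
    unfold AS
    rw [hbB _ (hG 2), hbB _ (hG' 1), hbB _ (hG 1), hbB _ (hG' 2)]
  have hg1 := IF2.Gf_ne hS 1 (Or.inl rfl)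
  have hg2 := IF2.Gf_ne hS 2 (Or.inr rfl)
  rw [LEV.gf_swap, LEV.gf_swap, hbB _ hg1, hbB _ hg2] at h6
  have hw := LEV.w_ne
  -- the symbols of `w`
  have hwb : sl w (b : Eis) = sl w (B : Eis) :=
    hLCL.2.2.2.2.2.1 b B w hb hB hw hbv hbw
  have hwx : sl w (x : Eis) = 0 := LEV.lc_right hSLC hLCI hx hLx hw
  have hwBxb : sl w ((B * x * b : ℤ) : Eis) = sl w (b : Eis) + sl w (b : Eis) := by
    rw [Int.cast_mul, Int.cast_mul, LEV.mul_right hSLC (mul_ne_zero hBe hxe) hbe hw,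
      LEV.mul_right hSLC hBe hxe hw, hwx, hwb, add_zero]
  unfold UV
  rw [hwBxb, h4, hAS, h6]
  linear_combination h5

end Pool.Agent.PT3

end

section

/-!
# The average rank of prime twists: the local term of a point at `λ` when `b` is a cube

Copy of `PT3/IIAG.lean` with `Eis` in place of `ℤ`.
-/

set_option autoImplicit false

namespace Pool.Agent.PTK

open Pool.Agent.Lib_helper18 Pool.Agent.Lib_helper18.Eis Pool.Agent.Lib_helper84.Cub
open Pool.Agent.PT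

namespace IIAG

/-- the right side of the identity -/
noncomputable def RS (s : Eis → Eis → ZMod 3) (n : Eis) (p q p' q' r : Eis) : ZMod 3 :=
  s n (GfE p q p' q' 1) - s n (GfE p q p' q' 2) + s w n - ASE s n p q p' q' r

/-- Linear forms at good approximations of a cube root do not vanish. -/
theorem lf_ne {π : Eis} (hπ : Prime π) {p q r b : Eis} {N : ℕ} (hn : p ^ 3 + b * q ^ 3 ≠ 0)
    (hN : V π (p ^ 3 + b * q ^ 3) < N) (hr : π ^ N ∣ r ^ 3 - b)
    (i : ℕ) : LfE p q i r ≠ 0 := by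
  intro h0
  unfold LfE at h0
  have h1 : q * w ^ i * r = -p := by linear_combination h0
  have h2 : (q * w ^ i * r) ^ 3 = (-p) ^ 3 := by rw [h1]
  have h3 : (w ^ i) ^ 3 = 1 := by rw [← pow_mul, mul_comm, pow_mul, w_cube, one_pow]
  have h4 : p ^ 3 + b * q ^ 3 = (-q ^ 3) * (r ^ 3 - b) := by
    linear_combination h2 - q ^ 3 * r ^ 3 * h3
  have h5 : π ^ N ∣ p ^ 3 + b * q ^ 3 := by
    rw [h4]
    exact Dvd.dvd.mul_left hr _
  have h6 := (fin hπ hn).le_multiplicity_of_pow_dvd h5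
  exact absurd h6 (not_le.2 hN)

/-- the linear forms do not vanish -/
theorem lf_ne' {π : Eis} (hπ : Prime π) {p q r : Eis} (hn : p ^ 3 + r ^ 3 * q ^ 3 ≠ 0) (i : ℕ) :
    LfE p q i r ≠ 0 := by
  refine lf_ne hπ (b := r ^ 3) hn (Nat.lt_succ_self _) ?_ i
  rw [sub_self]
  exact dvd_zero _

theorem sol_n {b x p q p' q' : Eis} (h : SolE b x p q p' q') : p' ^ 3 + b * q' ^ 3 ≠ 0 := by
  intro h0
  apply h.n1
  rw [h.eq, h0, mul_zero]

section Sym

variable {π : Eis} {s : Eis → Eis → ZMod 3} {e : ℕ} {p q p' q' r x : Eis}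

theorem RS_congr (h : LSym π s e) (hS : SolE (r ^ 3) x p q p' q') {n m : Eis} (hn : n ≠ 0)
    (hm : m ≠ 0) (hnm : ∀ A : Eis, A ≠ 0 → s n A = s m A) :
    RS s n p q p' q' r = RS s m p q p' q' r := by
  have l1 := lf_ne' h.prime hS.n1
  have l2 := lf_ne' h.prime (sol_n hS)
  unfold RS ASE
  rw [hnm _ hS.g1, hnm _ hS.g2,
    h.skew n w hn LEV.w_ne, h.skew m w hm LEV.w_ne, hnm _ LEV.w_ne, hnm _ (l1 2), hnm _ (l2 1),
    hnm _ (l1 1), hnm _ (l2 2)]

theorem RS_zero (h : LSym π s e) (hS : SolE (r ^ 3) x p q p' q') {n : Eis} (hn : n ≠ 0)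
    (h0 : ∀ A : Eis, A ≠ 0 → s n A = 0) : RS s n p q p' q' r = 0 := by
  have l1 := lf_ne' h.prime hS.n1
  have l2 := lf_ne' h.prime (sol_n hS)
  unfold RS ASE
  rw [h0 _ hS.g1, h0 _ hS.g2,
    h.skew n w hn LEV.w_ne, h0 _ LEV.w_ne, h0 _ (l1 2), h0 _ (l2 1), h0 _ (l1 1), h0 _ (l2 2)]
  ring

/-- IF2 -/
theorem RS_x (h : LSym π s e) (hIF2 : Stmt_IF2) (hr : r ≠ 0) (hx : x ≠ 0)
    (hS : SolE (r ^ 3) x p q p' q') : RS s x p q p' q' r = 0 := by
  obtain ⟨N0, h1⟩ := hIF2 π s e h (r ^ 3) x p q p' q' (pow_ne_zero 3 hr) hx hS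
  have h2 := h1 r (by rw [sub_self]; exact dvd_zero _)
  unfold RS
  rw [h2, sub_self]

/-- a symbol of a cube on the right -/
theorem cube_right (h : LSym π s e) {c y : Eis} (hc : c ≠ 0) (hy : y ≠ 0) : s y (c ^ 3) = 0 := by
  rw [h.skew (c ^ 3) y (pow_ne_zero 3 hc) hy, LEV.cube_left h hc hy, neg_zero]

/-- the case where `x` is a local cube -/
theorem case_cube (h : LSym π s e) (hIF1 : Stmt_IF1) (hIF4 : Stmt_IF4) (hr : r ≠ 0) (hx : x ≠ 0)
    (hS : SolE (r ^ 3) x p q p' q') {X Y : Eis} (hX : X ≠ 0) (hY : Y ≠ 0)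
    (hn : X ^ 3 + x * Y ^ 3 ≠ 0) (hD : DNE X Y p q p' q') (hL : LCE π x) :
    SVE s x p q p' q' X Y = RS s (X ^ 3 + x * Y ^ 3) p q p' q' r := by
  have hr3 : r ^ 3 ≠ 0 := pow_ne_zero 3 hr
  obtain ⟨N1, h1⟩ := hIF4 π s e h (r ^ 3) x p q p' q' X Y hr3 hx hS hX hY hn hD
  obtain ⟨N2, h2⟩ := hIF1 π s e h (r ^ 3) x p q p' q' hr3 hx hS
  obtain ⟨ξ, hξ⟩ := hL (N1 + N2 + V π (X ^ 3 + x * Y ^ 3) + 1)
  have a1 := h1 ξ ((pow_dvd_pow _ (by omega)).trans hξ)
  have a2 := h2 r ξ (by rw [sub_self]; exact dvd_zero _)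
    ((pow_dvd_pow _ (by omega)).trans hξ) (X ^ 3 + x * Y ^ 3) hn
  have hF := lf_ne h.prime hn (N := N1 + N2 + V π (X ^ 3 + x * Y ^ 3) + 1)
    (by omega) hξ
  rw [cube_right h hr (hF 1), cube_right h hr (hF 2)] at a1
  unfold RS
  rw [a1]
  linear_combination a2

end Sym

/-- the continuity of the symbol, in terms of valuations -/
theorem s_close {π : Eis} {s : Eis → Eis → ZMod 3} (h : LSym π s 1) {a c : Eis} (ha : a ≠ 0)
    (hc : c ≠ 0) (hV : V π a < V π c) {A : Eis} (hA : A ≠ 0) : s (a + c) A = s a A := by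
  refine h.cont a (a + c) A ha hA ?_
  rw [add_sub_cancel_left]
  exact (pow_dvd_pow _ hV).trans (pow_multiplicity_dvd _ _)

/-- the tame places -/
theorem tame (hSTM : STM) (hSPP : SPP) (hLCI : Stmt_LCI) (hIF1 : Stmt_IF1) (hIF2 : Stmt_IF2)
    (hIF4 : Stmt_IF4) (hF6R : Stmt_F6R) (hF7U : Stmt_F7U) (π : PP) {r x p q p' q' X Y : Eis}
    (hr : r ≠ 0) (hx : x ≠ 0) (hS : SolE (r ^ 3) x p q p' q') (hX : X ≠ 0) (hY : Y ≠ 0)
    (hn : X ^ 3 + x * Y ^ 3 ≠ 0) (hD : DNE X Y p q p' q') :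
    SVE (tm π.1) x p q p' q' X Y = RS (tm π.1) (X ^ 3 + x * Y ^ 3) p q p' q' r := by
  have h3 := (hSPP.2.2.2.1 π).1
  have h : LSym π.1 (tm π.1) 1 := hSTM π.1 π.2.1 h3
  have hπ := π.2.1
  have hr3 : r ^ 3 ≠ 0 := pow_ne_zero 3 hr
  have hX3 : X ^ 3 ≠ 0 := pow_ne_zero 3 hX
  have hY3 : Y ^ 3 ≠ 0 := pow_ne_zero 3 hY
  have hxY : x * Y ^ 3 ≠ 0 := mul_ne_zero hx hY3
  have hsX : ∀ A : Eis, A ≠ 0 → tm π.1 (X ^ 3) A = 0 := fun A hA =>
    LEV.cube_left h hX hA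
  have hsx : ∀ A : Eis, A ≠ 0 → tm π.1 (x * Y ^ 3) A = tm π.1 x A :=
    fun A hA => by rw [h.mul _ _ _ hx hY3 hA, LEV.cube_left h hY hA, add_zero]
  have vX : V π.1 (X ^ 3) = 3 * V π.1 X := V_pow hπ hX 3
  have vx : V π.1 (x * Y ^ 3) = V π.1 x + 3 * V π.1 Y := by
    rw [V_mul hπ hx hY3, V_pow hπ hY]
  by_cases hVx : 3 ∣ V π.1 x
  · by_cases hcx : ch π.1 x = 0
    · exact case_cube h hIF1 hIF4 hr hx hS hX hY hn hD ((hLCI.1 π x hx).2 ⟨hVx, hcx⟩)
    · -- valuation divisible by three, not a cube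
      rw [hF7U π (r ^ 3) x p q p' q' X Y hr3 hx hS hX hY hD hVx hcx]
      have hVx0 : (V π.1 x : ZMod 3) = 0 := LEV.cast3.2 hVx
      have hVw : (V π.1 w : ZMod 3) = 0 := by
        rw [V_eq_zero (not_dvd_w hπ)]; rfl
      -- the valuation of `n0`
      have hVn : 3 ∣ V π.1 (X ^ 3 + x * Y ^ 3) := by
        rcases lt_trichotomy (V π.1 (X ^ 3)) (V π.1 (x * Y ^ 3)) with
          hlt | heq | hlt
        · have e1 : V π.1 (X ^ 3 + x * Y ^ 3) = V π.1 (X ^ 3) := by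
            rw [add_comm]
            exact (fin hπ hX3).multiplicity_add_of_gt hlt
          rw [e1, vX]
          exact dvd_mul_right _ _
        · by_cases hgt : V π.1 (X ^ 3) < V π.1 (X ^ 3 + x * Y ^ 3)
          · exfalso
            apply hcx
            have e1 : tm π.1 (x * Y ^ 3) π.1 = 0 := by
              have e2 := s_close h (a := -(X ^ 3))
                (c := X ^ 3 + x * Y ^ 3) (neg_ne_zero.2 hX3) hn
                (by rw [V_neg]; exact hgt) hπ.ne_zero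
              rw [neg_add_cancel_left, LEV.neg_left h hX3 hπ.ne_zero,
                hsX _ hπ.ne_zero] at e2
              exact e2
            rw [hsx _ hπ.ne_zero] at e1
            unfold tm at e1
            rw [V_self, hVx0] at e1
            simpa using e1
          · have hle : V π.1 (X ^ 3) ≤ V π.1 (X ^ 3 + x * Y ^ 3) := by
              apply (fin hπ hn).le_multiplicity_of_pow_dvd
              refine dvd_add (pow_multiplicity_dvd _ _) ?_
              change π.1 ^ (V π.1 (X ^ 3)) ∣ _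
              rw [heq]
              exact pow_multiplicity_dvd _ _
            have e1 : V π.1 (X ^ 3 + x * Y ^ 3) = V π.1 (X ^ 3) := by omega
            rw [e1, vX]
            exact dvd_mul_right _ _
        · have e1 : V π.1 (X ^ 3 + x * Y ^ 3) = V π.1 (x * Y ^ 3) :=
            (fin hπ hxY).multiplicity_add_of_gt hlt
          rw [e1, vx]
          exact (Nat.dvd_add_right hVx).2 (dvd_mul_right _ _)
      have hVn0 : (V π.1 (X ^ 3 + x * Y ^ 3) : ZMod 3) = 0 := LEV.cast3.2 hVn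
      have h2 := RS_x h hIF2 hr hx hS
      unfold RS ASE tm at h2 ⊢
      rw [hVx0, hVw] at h2
      rw [hVn0, hVw]
      have e1 : ∀ c d t : ZMod 3, c ≠ 0 → c * t = 0 → d * t = 0 := by decide
      have e2 := e1 (ch π.1 x) (ch π.1 (X ^ 3 + x * Y ^ 3))
        ((V π.1 (GfE p q p' q' 1) : ZMod 3) - (V π.1 (GfE p q p' q' 2) : ZMod 3) -
          ((V π.1 (LfE p q 2 r) : ZMod 3) + (V π.1 (LfE p' q' 1 r) : ZMod 3) -
            (V π.1 (LfE p q 1 r) : ZMod 3) - (V π.1 (LfE p' q' 2 r) : ZMod 3))) hcx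
        (by linear_combination h2)
      linear_combination -e2
  · -- valuation not divisible by three
    have hSV : SVE (tm π.1) x p q p' q' X Y = 0 := by
      have h6 := hF6R π (r ^ 3) x p q p' q' X Y hr3 hx hS hX hY hD hVx
      by_cases hVn : 3 ∣ V π.1 (X ^ 3 + x * Y ^ 3)
      · exact h6.1 hVn
      · rw [h6.2 hVn, cube_right h hr LEV.w_ne, neg_zero]
    rw [hSV]
    rcases lt_trichotomy (V π.1 (X ^ 3)) (V π.1 (x * Y ^ 3)) with
      hlt | heq | hlt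
    · refine (RS_zero h hS hn fun A hA => ?_).symm
      rw [s_close h hX3 hxY hlt hA, hsX A hA]
    · exfalso
      omega
    · rw [RS_congr h hS hn hx, RS_x h hIF2 hr hx hS]
      intro A hA
      rw [add_comm, s_close h hxY hX3 hlt hA, hsx A hA]

end IIAG

open _root_.Pool.Agent.PTK.IIAG in
/-- PTK_IIAG: the local term of a point at `λ` when `b` is the cube of an element of `Z[w]`.
Proof (copy of `PT3/IIAG.lean`). Both sides are sums of terms of a symbol at the place `λ`; the sums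
of the same terms over all places are `0` (`Stmt_SVF` for the left side, the product formula `SSL`
for the right side), so it suffices to prove the equality at the tame places `π`. If `x` is a local
cube: `Stmt_IF4` and `Stmt_IF1` (`case_cube`). If `3 ∣ V x` and `ch x ≠ 0`: the left side is `0`
(`Stmt_F7U`), `3 ∣ V n₀` for `n₀ = X³ + x Y³`, so the right side is `ch n₀` times a number which times `ch x` is
`0` by `Stmt_IF2`. If `3 ∤ V x`: the left side is `0` (`Stmt_F6R`, `b` is a cube); `n₀` is close to a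
cube or to `x` times a cube, and the right side is `0` (`Stmt_IF2` in the second case). -/
theorem IIAG_thm (hSTM : STM) (hSPP : SPP) (hSSL : SSL) (hLCI : Stmt_LCI) (hIF1 : Stmt_IF1)
    (hIF2 : Stmt_IF2) (hIF4 : Stmt_IF4) (hF6R : Stmt_F6R) (hF7U : Stmt_F7U)
    (hSVF : Stmt_SVF) : Stmt_IIAG := by
  intro r x p q p' q' X Y hr hx hS hX hY hn hD
  have hr3 : r ^ 3 ≠ 0 := pow_ne_zero 3 hr
  obtain ⟨π0, -⟩ := hSPP.2.2.2.2.1 2 Nat.prime_two (by norm_num)
  have l1 := lf_ne' π0.2.1 hS.n1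
  have l2 := lf_ne' π0.2.1 (sol_n hS)
  have key : ∀ a b : Eis, a ≠ 0 → b ≠ 0 → LFIN.FZ (fun v : Pl => sy v a b) :=
    fun a b ha hb => hSSL.2.2.2 a b ha hb
  have hSV : LFIN.FZ (fun v : Pl => SVE (sy v) x p q p' q' X Y) :=
    hSVF (r ^ 3) x p q p' q' X Y hr3 hx hS hX hY hn hD
  have hG1 := hS.g1
  have hG2 := hS.g2
  have hRS : LFIN.FZ (fun v : Pl => RS (sy v) (X ^ 3 + x * Y ^ 3) p q p' q' r) := by
    unfold RS ASE
    exact (((key _ _ hn hG1).sub (key _ _ hn hG2)).add (key _ _ LEV.w_ne hn)).sub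
      ((((key _ _ hn (l1 2)).add (key _ _ hn (l2 1))).sub (key _ _ hn (l1 1))).sub
        (key _ _ hn (l2 2)))
  have hE := (hSV.sub hRS).2
  have h0 : ∀ v : Pl, v ≠ none → SVE (sy v) x p q p' q' X Y -
      RS (sy v) (X ^ 3 + x * Y ^ 3) p q p' q' r = 0 := by
    intro v hv
    cases v with
    | none => exact absurd rfl hv
    | some π =>
      exact sub_eq_zero.2 (tame hSTM hSPP hLCI hIF1 hIF2 hIF4 hF6R hF7U π hr hx hS hX hY hn hD)
  rw [finsum_eq_single _ none h0] at hE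
  exact sub_eq_zero.1 hE

end Pool.Agent.PTK

end

section

/-!
# PTK_NHN: Hilbert 90
-/

set_option autoImplicit false

open NumberField IsDedekindDomain Finset
open scoped nonZeroDivisors Pointwise

namespace Pool.Agent.PTK

open Pool.Agent.Lib_helper18 Pool.Agent.Lib_helper18.Eis Pool.Agent.Lib_helper84.Cub
open Pool.Agent.PT

namespace NHN

set_option linter.unusedSectionVars false

variable {x : Eis} {L : Type} [Field L] [NumberField L] {ι : Eis →+* L} {θ : L}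
  {σ : L ≃ₐ[ℚ] L}

theorem w3 (ι : Eis →+* L) : ι w ^ 3 = 1 := by
  rw [← map_pow, w_cube, map_one]

theorem wrel (ι : Eis →+* L) : ι w ^ 2 + ι w + 1 = 0 := by
  rw [← map_pow, ← map_add, ← map_one ι, ← map_add, w_rel, map_zero]

theorem s1 (h : CubE x L ι θ σ) (a b d : Eis) :
    σ (ι a + ι b * θ + ι d * θ ^ 2) = ι a + ι b * (ι w * θ) + ι d * (ι w * θ) ^ 2 := by
  rw [map_add, map_add, map_mul, map_mul, map_pow, h.sι, h.sι, h.sι, h.sθ]

theorem s3θ (h : CubE x L ι θ σ) : σ (σ (σ θ)) = θ := by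
  rw [h.sθ, map_mul, h.sι, h.sθ, map_mul, map_mul, h.sι, h.sθ]
  linear_combination θ * w3 ι

theorem s3 (h : CubE x L ι θ σ) (z : L) : σ (σ (σ z)) = z := by
  obtain ⟨m, a, b, d, hm, hz⟩ := h.rep z
  have hm' : (m : L) ≠ 0 := Int.cast_ne_zero.2 hm
  have h1 : σ (σ (σ ((m : L) * z))) = (m : L) * z := by
    rw [hz]
    simp only [map_add, map_mul, map_pow, h.sι, s3θ h]
  rw [map_mul, map_mul, map_mul, map_intCast, map_intCast, map_intCast] at h1
  exact mul_left_cancel₀ hm' h1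

theorem fixed (h : CubE x L ι θ σ) {z : L} (hz : σ z = z) :
    ∃ a b : Eis, b ≠ 0 ∧ z * ι b = ι a := by
  obtain ⟨m, a, b, d, hm, hmz⟩ := h.rep z
  have h1 : σ ((m : L) * z) = (m : L) * z := by rw [map_mul, map_intCast, hz]
  rw [hmz, s1 h] at h1
  have h2 : ι 0 + ι (b * (w - 1)) * θ + ι (d * (w ^ 2 - 1)) * θ ^ 2 = 0 := by
    rw [map_zero, map_mul, map_mul, map_sub, map_sub, map_pow, map_one]
    linear_combination h1
  obtain ⟨-, h3, h4⟩ := h.lin _ _ _ h2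
  have hw1 : (w - 1 : Eis) ≠ 0 := by
    intro hc
    have := congrArg Eis.im hc
    simp at this
  have hw2 : (w ^ 2 - 1 : Eis) ≠ 0 := by
    rw [w_sq]
    intro hc
    have := congrArg Eis.im hc
    simp at this
  have hb : b = 0 := (mul_eq_zero.1 h3).resolve_right hw1
  have hd : d = 0 := (mul_eq_zero.1 h4).resolve_right hw2
  have hm' : (m : Eis) ≠ 0 := by
    intro hc
    have h5 := congrArg Eis.re hc
    rw [intCast_re, zero_re] at h5
    exact hm h5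
  refine ⟨a, (m : Eis), hm', ?_⟩
  rw [hb, hd] at hmz
  rw [map_intCast, mul_comm, hmz, map_zero]
  ring

end NHN

theorem NHN_thm : Stmt_NHN := by
  intro x L _ _ ι θ σ hx h
  refine ⟨NHN.s3 h, fun z hz => NHN.fixed h hz, fun u hu => ?_⟩
  have hu' : (u : L) * σ u * σ (σ u) = 1 := by
    have h1 := congrArg (Units.val) hu
    simp only [Finset.prod_range_succ, Finset.prod_range_zero, one_mul, pow_zero, pow_one,
      one_smul, pow_two, mul_smul] at h1
    simpa using h1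
  have hθ : θ ≠ 0 := by
    rintro rfl
    have h1 := h.cube
    rw [zero_pow (by norm_num)] at h1
    exact hx (h.inj (h1.symm.trans (map_zero ι).symm))
  -- the sum
  have key : ∀ e : L, (u : L) * σ (e + u * σ e + u * σ u * σ (σ e)) =
      e + u * σ e + u * σ u * σ (σ e) := by
    intro e
    rw [map_add, map_add, map_mul, map_mul, map_mul, NHN.s3 h]
    linear_combination e * hu'
  have main : ∃ e : L, e + u * σ e + u * σ u * σ (σ e) ≠ 0 := by
    by_contra hc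
    push Not at hc
    have h1 := hc 1
    have h2 := hc θ
    have h3 := hc (θ ^ 2)
    have e1 : σ (σ θ) = ι w ^ 2 * θ := by
      rw [h.sθ, map_mul, h.sι, h.sθ]
      ring
    have e2 : σ (σ (θ ^ 2)) = (ι w ^ 2 * θ) ^ 2 := by rw [map_pow, map_pow, e1]
    have e3 : σ (θ ^ 2) = (ι w * θ) ^ 2 := by rw [map_pow, h.sθ]
    rw [map_one, map_one, mul_one, mul_one] at h1
    rw [e1, h.sθ] at h2
    rw [e2, e3] at h3
    have h2' : 1 + u * ι w + u * σ u * ι w ^ 2 = 0 := by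
      have : θ * (1 + u * ι w + u * σ u * ι w ^ 2) = 0 := by linear_combination h2
      exact (mul_eq_zero.1 this).resolve_left hθ
    have h3' : 1 + u * ι w ^ 2 + u * σ u * ι w ^ 4 = 0 := by
      have : θ ^ 2 * (1 + u * ι w ^ 2 + u * σ u * ι w ^ 4) = 0 := by linear_combination h3
      exact (mul_eq_zero.1 this).resolve_left (pow_ne_zero _ hθ)
    have h4 : (3 : L) = 0 := by
      linear_combination h1 + h2' + h3' - (u : L) * NHN.wrel ι -
        (u : L) * σ u * (NHN.wrel ι + ι w * NHN.w3 ι)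
    exact three_ne_zero h4
  obtain ⟨e, he⟩ := main
  refine ⟨Units.mk0 _ he, ?_⟩
  rw [eq_div_iff_mul_eq']
  ext
  rw [Units.val_mul, AlgEquiv.smul_units_def]
  simp only [Units.coe_map, Units.val_mk0]
  have := key e
  simpa [mul_comm] using this

end Pool.Agent.PTK

end
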