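import Mathlib
import Pool.Agent.PTWX.C30
import Pool.Agent.PTWX.C34
import Pool.Agent.PTWX.C36
import Pool.Agent.PTWX.C41
import Pool.Agent.PTWX.C42

/-! Parts: PT.LCI, PT.NGEN, PT3.FD2T, PT3.LCL, PTN.NPLU, PTKX.LCI -/

namespace Pool.Agent.PT.NGEN
end Pool.Agent.PT.NGEN

namespace Pool.Agent.PT3.FD2T
end Pool.Agent.PT3.FD2T

namespace Pool.Agent.PTN.NPLU
end Pool.Agent.PTN.NPLU

namespace Pool.Agent.PT.LCI
end Pool.Agent.PT.LCI

section

/-!
# LCI: rational local cubes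
-/

namespace Pool.Agent.PT

open Pool.Agent.Lib_helper18 Pool.Agent.Lib_helper18.Eis Pool.Agent.Lib_helper84.Cub

namespace LCI

/-! ### The unit part -/

theorem up_eq {π a c : Eis} {k : ℕ} (hπ : Prime π) (hc : ¬ π ∣ c) (ha : a = π ^ k * c) :
    V π a = k ∧ up π a = c := by
  have h1 : V π a = k := by rw [ha]; exact V_pow_mul hπ k hc
  refine ⟨h1, ?_⟩
  unfold up
  rw [h1, ha]
  exact mul_div_cancel_left₀ c (pow_ne_zero _ hπ.ne_zero)

theorem up_spec {π a : Eis} (hπ : Prime π) (ha : a ≠ 0) :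
    a = π ^ V π a * up π a ∧ ¬ π ∣ up π a := by
  obtain ⟨c, hc, hd⟩ := V_split hπ ha
  have h1 := (up_eq hπ hd hc).2
  rw [h1]
  exact ⟨hc, hd⟩

theorem ch_mul {π a b : Eis} (hπ : Prime π) (h3 : ¬ π ∣ 3) (ha : a ≠ 0) (hb : b ≠ 0) :
    ch π (a * b) = ch π a + ch π b := by
  obtain ⟨h1, h2⟩ := up_spec hπ ha
  obtain ⟨h3', h4⟩ := up_spec hπ hb
  have h5 : a * b = π ^ (V π a + V π b) * (up π a * up π b) := by
    conv_lhs => rw [h1, h3']
    ring
  have h6 : ¬ π ∣ up π a * up π b := fun h => (hπ.dvd_or_dvd h).elim h2 h4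
  have h7 := (up_eq hπ h6 h5).2
  unfold ch
  rw [h7, sym_mul hπ h3 h2 h4]

theorem ch_unit {π a : Eis} (hπ : Prime π) (ha : ¬ π ∣ a) : ch π a = sym π a := by
  have h := (up_eq (k := 0) hπ ha (by rw [pow_zero, one_mul] : a = π ^ 0 * a)).2
  unfold ch
  rw [h]

theorem ch_pow {π a : Eis} (hπ : Prime π) (h3 : ¬ π ∣ 3) (ha : a ≠ 0) (n : ℕ) :
    ch π (a ^ n) = n * ch π a := by
  induction n with
  | zero =>
    rw [pow_zero, ch_unit hπ (fun h => hπ.not_isUnit (isUnit_of_dvd_one h)), sym_one hπ h3]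
    simp
  | succ n ih =>
    rw [pow_succ, ch_mul hπ h3 (pow_ne_zero _ ha) ha, ih]
    push_cast
    ring

theorem three_mul_zmod {n : ℕ} (h : 3 ∣ n) : (n : ZMod 3) = 0 :=
  (ZMod.natCast_eq_zero_iff n 3).2 h

theorem cont {π a a' : Eis} (hπ : Prime π) (ha : a ≠ 0) (h : π ^ (V π a + 1) ∣ a' - a) :
    V π a' = V π a ∧ ch π a' = ch π a := by
  obtain ⟨h1, h2⟩ := up_spec hπ ha
  obtain ⟨d, hd⟩ := h
  have h3 : a' = π ^ V π a * (up π a + π * d) := by
    have : a' = a + π ^ (V π a + 1) * d := by rw [← hd]; ring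
    rw [this]
    conv_lhs => rw [h1]
    have h4 : V π (π ^ V π a * up π a) = V π a := by rw [← h1]
    rw [h4]
    ring
  have h4 : ¬ π ∣ up π a + π * d := fun h => h2 ((dvd_add_left (dvd_mul_right π d)).1 h)
  obtain ⟨h5, h6⟩ := up_eq hπ h4 h3
  refine ⟨h5, ?_⟩
  unfold ch
  rw [h6]
  refine sym_congr ⟨d, ?_⟩
  ring

theorem root_ne_zero {π : Eis} (hπ : Prime π) {b : Eis} (hb : b ≠ 0) {r : Eis} {e : ℕ}
    (he : 1 ≤ e) (h : π ^ (V π b + e) ∣ r ^ 3 - b) : r ≠ 0 := by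
  rintro rfl
  obtain ⟨h1, h2⟩ := up_spec hπ hb
  have h3 : π ^ (V π b + e) ∣ b := by
    have h4 : (0 : Eis) ^ 3 - b = -b := by ring
    rw [h4] at h
    exact (dvd_neg).1 h
  have h4 : π ^ (V π b + 1) ∣ b := (pow_dvd_pow π (by omega)).trans h3
  rw [pow_succ] at h4
  have h5 : π ^ V π b * π ∣ π ^ V π b * up π b := by rw [← h1]; exact h4
  exact h2 ((mul_dvd_mul_iff_left (pow_ne_zero _ hπ.ne_zero)).1 h5)

/-! ### Rational integers -/

theorem hensel {p : ℕ} (hp : p.Prime) (h3 : ¬ (p : ℤ) ∣ 3) {b r0 : ℤ} (hb : ¬ (p : ℤ) ∣ b)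
    (h : (p : ℤ) ∣ r0 ^ 3 - b) : ∀ N : ℕ, ∃ r : ℤ, (p : ℤ) ^ (N + 1) ∣ r ^ 3 - b := by
  intro N
  induction N with
  | zero => exact ⟨r0, by rw [zero_add, pow_one]; exact h⟩
  | succ N ih =>
    obtain ⟨r, c, hc⟩ := ih
    have hpi : Prime (p : ℤ) := Nat.prime_iff_prime_int.1 hp
    have hr : ¬ (p : ℤ) ∣ r := by
      intro hr
      apply hb
      have h1 : (p : ℤ) ∣ r ^ 3 - b := (dvd_pow_self _ (Nat.succ_ne_zero N)).trans ⟨c, hc⟩
      have h2 : (p : ℤ) ∣ r ^ 3 := dvd_pow hr (by norm_num)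
      have h4 := dvd_sub h2 h1
      have h5 : r ^ 3 - (r ^ 3 - b) = b := by ring
      rwa [h5] at h4
    have hcop : IsCoprime (p : ℤ) (3 * r ^ 2) := by
      refine (Irreducible.coprime_iff_not_dvd hpi.irreducible).2 ?_
      intro h4
      rcases hpi.dvd_or_dvd h4 with h5 | h5
      · exact h3 h5
      · exact hr (hpi.dvd_of_dvd_pow h5)
    obtain ⟨u, v, huv⟩ := hcop
    refine ⟨r + (p : ℤ) ^ (N + 1) * (-c * v),
      c * u + 3 * r * (p : ℤ) ^ N * (-c * v) ^ 2 + ((p : ℤ) ^ N) ^ 2 * p * (-c * v) ^ 3, ?_⟩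
    rw [pow_succ (p : ℤ) N] at hc
    rw [pow_succ (p : ℤ) (N + 1), pow_succ (p : ℤ) N]
    generalize (p : ℤ) ^ N = P at *
    linear_combination hc + (-(P * p * c)) * huv

theorem hensel3 {b : ℤ} (h : C9 b) : ∀ N : ℕ, ∃ r : ℤ, (3 : ℤ) ^ (N + 2) ∣ r ^ 3 - b := by
  intro N
  have hb : b % 9 = 1 ∨ b % 9 = 8 := h
  induction N with
  | zero =>
    have e : (3 : ℤ) ^ (0 + 2) = 9 := by norm_num
    rw [e]
    rcases hb with h1 | h1
    · exact ⟨1, by omega⟩
    · exact ⟨-1, by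
        have e2 : (-1 : ℤ) ^ 3 = -1 := by norm_num
        rw [e2]
        omega⟩
  | succ N ih =>
    obtain ⟨r, c, hc⟩ := ih
    have hr : ¬ (3 : ℤ) ∣ r := by
      intro hr
      have h1 : (3 : ℤ) ∣ r ^ 3 - b := (dvd_pow_self _ (by omega)).trans ⟨c, hc⟩
      have h2 : (3 : ℤ) ∣ r ^ 3 := dvd_pow hr (by norm_num)
      have h4 := dvd_sub h2 h1
      have h5 : r ^ 3 - (r ^ 3 - b) = b := by ring
      rw [h5] at h4
      omega
    obtain ⟨k, hk⟩ : ∃ k : ℤ, r ^ 2 = 1 + 3 * k := by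
      have h1 : r % 3 = 1 ∨ r % 3 = 2 := by omega
      rcases h1 with h1 | h1
      · obtain ⟨t, ht⟩ : ∃ t, r = 3 * t + 1 := ⟨r / 3, by omega⟩
        exact ⟨3 * t ^ 2 + 2 * t, by rw [ht]; ring⟩
      · obtain ⟨t, ht⟩ : ∃ t, r = 3 * t + 2 := ⟨r / 3, by omega⟩
        exact ⟨3 * t ^ 2 + 4 * t + 1, by rw [ht]; ring⟩
    refine ⟨r - (3 : ℤ) ^ (N + 1) * c,
      -c * k + (3 : ℤ) ^ N * r * c ^ 2 - ((3 : ℤ) ^ N) ^ 2 * c ^ 3, ?_⟩
    have e1 : (3 : ℤ) ^ (N + 2) = (3 : ℤ) ^ N * 9 := by rw [pow_add]; norm_num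
    have e2 : (3 : ℤ) ^ (N + 1 + 2) = (3 : ℤ) ^ N * 27 := by rw [pow_add, pow_succ]; ring
    rw [e1] at hc
    rw [e2, pow_succ (3 : ℤ) N]
    generalize (3 : ℤ) ^ N = P at *
    linear_combination hc + (-(9 * P * c)) * hk

theorem cube_of_pow {p : ℕ} (hp : p.Prime) (h1 : p % 3 = 1) {m : ℤ} (hm : ¬ (p : ℤ) ∣ m)
    (h : (p : ℤ) ∣ m ^ ((p - 1) / 3) - 1) : ∃ r : ℤ, (p : ℤ) ∣ r ^ 3 - m := by
  have : Fact p.Prime := ⟨hp⟩
  have hm0 : (m : ZMod p) ≠ 0 := by
    intro h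
    exact hm ((ZMod.intCast_zmod_eq_zero_iff_dvd m p).1 h)
  have h2 : (m : ZMod p) ^ ((p - 1) / 3) = 1 := by
    have h3 := (ZMod.intCast_zmod_eq_zero_iff_dvd _ p).2 h
    push_cast at h3
    exact sub_eq_zero.1 h3
  obtain ⟨g, hg⟩ := IsCyclic.exists_generator (α := (ZMod p)ˣ)
  obtain ⟨u, hu⟩ : ∃ u : (ZMod p)ˣ, (u : ZMod p) = m := ⟨Units.mk0 _ hm0, rfl⟩
  obtain ⟨k, hk⟩ := (Subgroup.mem_zpowers_iff).1 (hg u)
  have hu1 : u ^ ((p - 1) / 3) = 1 := by
    apply Units.ext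
    rw [Units.val_pow_eq_pow_val, hu, h2, Units.val_one]
  have ho : orderOf g = p - 1 := by
    rw [orderOf_eq_card_of_forall_mem_zpowers hg, Nat.card_eq_fintype_card,
      ZMod.card_units_eq_totient, Nat.totient_prime hp]
  have hd : ((p - 1 : ℕ) : ℤ) ∣ k * (((p - 1) / 3 : ℕ) : ℤ) := by
    rw [← ho]
    apply orderOf_dvd_iff_zpow_eq_one.2
    rw [zpow_mul, hk, zpow_natCast, ho]
    exact hu1
  have h3 : p - 1 = 3 * ((p - 1) / 3) := by omega
  have hp1 : 1 < p := hp.one_lt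
  have h3k : (3 : ℤ) ∣ k := by
    obtain ⟨c, hc⟩ := hd
    have h4 : ((p - 1 : ℕ) : ℤ) = 3 * (((p - 1) / 3 : ℕ) : ℤ) := by
      conv_lhs => rw [h3]
      push_cast
      ring
    rw [h4] at hc
    have h5 : (((p - 1) / 3 : ℕ) : ℤ) ≠ 0 := by omega
    refine ⟨c, ?_⟩
    apply mul_right_cancel₀ h5
    linear_combination hc
  obtain ⟨j, hj⟩ := h3k
  have h6 : ((g ^ j : (ZMod p)ˣ) : ZMod p) ^ 3 = m := by
    rw [← hu, ← hk, hj, ← Units.val_pow_eq_pow_val]
    congr 1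
    rw [← zpow_natCast, ← zpow_mul]
    congr 1
    push_cast
    ring
  obtain ⟨r, hr⟩ := ZMod.intCast_surjective ((g ^ j : (ZMod p)ˣ) : ZMod p)
  refine ⟨r, (ZMod.intCast_zmod_eq_zero_iff_dvd _ p).1 ?_⟩
  push_cast
  rw [hr, h6, sub_self]

theorem cube_inert {p : ℕ} (hp : p.Prime) (h2 : p % 3 = 2) {m : ℤ} (hm : ¬ (p : ℤ) ∣ m) :
    ∃ r : ℤ, (p : ℤ) ∣ r ^ 3 - m := by
  have : Fact p.Prime := ⟨hp⟩
  have hm0 : (m : ZMod p) ≠ 0 := by
    intro h
    exact hm ((ZMod.intCast_zmod_eq_zero_iff_dvd m p).1 h)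
  have h3 := ZMod.pow_card_sub_one_eq_one hm0
  refine ⟨m ^ ((2 * (p - 1) + 1) / 3), (ZMod.intCast_zmod_eq_zero_iff_dvd _ p).1 ?_⟩
  push_cast
  have hp1 : 1 < p := hp.one_lt
  have h4 : (2 * (p - 1) + 1) / 3 * 3 = 2 * (p - 1) + 1 := by omega
  rw [← pow_mul, h4, pow_succ, mul_comm 2, pow_mul, h3, one_pow, one_mul, sub_self]

/-! ### The primes of `PP` -/

theorem norm_int (m : ℤ) : ((m : ℤ) : Eis).norm = m ^ 2 := by
  rw [norm_def, intCast_re, intCast_im]
  ring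

theorem above (hSPP : SPP) (π : PP) : ∃ p : ℕ, p.Prime ∧ ¬ (p : ℤ) ∣ 3 ∧
    (∀ m : ℤ, π.1 ∣ (m : Eis) ↔ (p : ℤ) ∣ m) ∧ V π.1 ((p : ℤ) : Eis) = 1 ∧
    (∀ m : ℤ, ¬ (p : ℤ) ∣ m → sym π.1 (m : Eis) = 0 → ∃ r : ℤ, (p : ℤ) ∣ r ^ 3 - m) := by
  have hπ := π.2.1
  have h3 := (hSPP.2.2.2.1 π).1
  obtain ⟨p, hp, hc⟩ := hSPP.2.2.2.2.2 π
  have hpi : Prime (p : ℤ) := Nat.prime_iff_prime_int.1 hp
  refine ⟨p, hp, ?_, ?_⟩
  · intro h
    have h1 : p ∣ 3 := by exact_mod_cast h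
    have h2 := (Nat.prime_dvd_prime_iff_eq hp Nat.prime_three).1 h1
    omega
  rcases hc with ⟨h1, h2⟩ | ⟨h1, h2, h4, h5⟩
  · have h2' : π.1 = ((p : ℤ) : Eis) := by rw [h2, Int.cast_natCast]
    refine ⟨?_, ?_, ?_⟩
    · intro m
      rw [h2', intCast_dvd_intCast]
    · rw [← h2']
      exact V_self
    · intro m hm _
      exact cube_inert hp h1 hm
  · have h4' : ((p : ℤ) : Eis) = π.1 * conj π.1 := by rw [Int.cast_natCast, h4]
    have hdvd : ∀ m : ℤ, π.1 ∣ (m : Eis) ↔ (p : ℤ) ∣ m := by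
      intro m
      constructor
      · rintro ⟨y, hy⟩
        have h6 := congrArg Eis.norm hy
        rw [norm_mul, norm_int, h2] at h6
        exact hpi.dvd_of_dvd_pow ⟨_, h6⟩
      · intro h
        refine dvd_trans ?_ (intCast_dvd_intCast.2 h)
        rw [h4']
        exact dvd_mul_right _ _
    refine ⟨hdvd, ?_, ?_⟩
    · have h6 : ¬ π.1 ∣ conj π.1 := fun h => h5 (hπ.associated_of_dvd (prime_conj hπ) h)
      rw [h4', V_mul hπ hπ.ne_zero (prime_conj hπ).ne_zero, V_self, V_eq_zero h6]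
    · intro m hm hs
      have h6 : ¬ π.1 ∣ (m : Eis) := fun h => hm ((hdvd m).1 h)
      have h7 := sym_spec hπ h3 h6
      have hN : N π.1 = p := by
        have h8 := N_cast π.1
        rw [h2] at h8
        exact_mod_cast h8
      rw [hs, ZMod.val_zero, pow_zero, hN] at h7
      have h8 : (m : Eis) ^ ((p - 1) / 3) - 1 = ((m ^ ((p - 1) / 3) - 1 : ℤ) : Eis) := by
        push_cast
        ring
      rw [h8, hdvd] at h7
      exact cube_of_pow hp h1 hm h7

theorem cast_ne_zero {b : ℤ} (hb : b ≠ 0) : (b : Eis) ≠ 0 := by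
  intro h
  have h1 := congrArg Eis.re h
  rw [intCast_re] at h1
  exact hb h1

theorem first (hSPP : SPP) (π : PP) (b : ℤ) (hb : b ≠ 0) :
    LC π.1 b ↔ 3 ∣ V π.1 (b : Eis) ∧ ch π.1 (b : Eis) = 0 := by
  have hπ := π.2.1
  have h3 := (hSPP.2.2.2.1 π).1
  have hb0 := cast_ne_zero hb
  constructor
  · intro h
    obtain ⟨r, hr⟩ := h (V π.1 (b : Eis) + 1)
    have hr0 := root_ne_zero hπ hb0 le_rfl hr
    obtain ⟨h1, h2⟩ := cont hπ hb0 hr
    rw [V_pow hπ hr0] at h1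
    rw [ch_pow hπ h3 hr0, three_mul_zmod (dvd_refl 3), zero_mul] at h2
    exact ⟨⟨_, h1.symm⟩, h2.symm⟩
  · rintro ⟨h1, h2⟩
    obtain ⟨p, hp, hp3, hd, hV, hs⟩ := above hSPP π
    have hpi : Prime (p : ℤ) := Nat.prime_iff_prime_int.1 hp
    obtain ⟨c, hc, hpc⟩ :=
      (FiniteMultiplicity.of_prime_left hpi hb).exists_eq_pow_mul_and_not_dvd
    generalize multiplicity (p : ℤ) b = k at hc
    have hp0 : ((p : ℤ) : Eis) ≠ 0 := cast_ne_zero hpi.ne_zero
    have hπc : ¬ π.1 ∣ (c : Eis) := fun h => hpc ((hd c).1 h)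
    have hc0 : (c : Eis) ≠ 0 := by
      intro h
      rw [h] at hπc
      exact hπc (dvd_zero _)
    have hbE : (b : Eis) = ((p : ℤ) : Eis) ^ k * (c : Eis) := by
      rw [hc]
      push_cast
      ring
    have hVb : V π.1 (b : Eis) = k := by
      rw [hbE, V_mul hπ (pow_ne_zero _ hp0) hc0, V_pow hπ hp0, hV, V_eq_zero hπc]
      ring
    rw [hVb] at h1
    rw [hbE, ch_mul hπ h3 (pow_ne_zero _ hp0) hc0, ch_pow hπ h3 hp0, three_mul_zmod h1, zero_mul,
      zero_add, ch_unit hπ hπc] at h2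
    obtain ⟨r0, hr0⟩ := hs c hpc h2
    obtain ⟨j, hj⟩ := h1
    intro N
    obtain ⟨r, hr⟩ := hensel hp hp3 hpc hr0 N
    refine ⟨(p : ℤ) ^ j * r, ?_⟩
    have h4 : (p : ℤ) ^ (N + 1) ∣ ((p : ℤ) ^ j * r) ^ 3 - b := by
      have e : ((p : ℤ) ^ j * r) ^ 3 - b = (p : ℤ) ^ k * (r ^ 3 - c) := by
        rw [hc, hj, mul_comm 3 j, pow_mul]
        ring
      rw [e]
      exact hr.mul_left _
    have h5 : π.1 ^ N ∣ ((p : ℤ) : Eis) ^ (N + 1) := by
      refine (pow_dvd_pow π.1 (Nat.le_succ N)).trans (pow_dvd_pow_of_dvd ?_ _)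
      exact (hd (p : ℤ)).2 (dvd_refl _)
    have h6 : (((p : ℤ) ^ (N + 1) : ℤ) : Eis) ∣ ((((p : ℤ) ^ j * r) ^ 3 - b : ℤ) : Eis) :=
      intCast_dvd_intCast.2 h4
    rw [Int.cast_pow] at h6
    refine (h5.trans h6).trans (dvd_of_eq ?_)
    push_cast
    ring

theorem lam_four : lam ^ 4 = 9 * w ^ 2 := by decide

theorem second (b : ℤ) (hb : ¬ (3 : ℤ) ∣ b) : LC lam b ↔ C9 b := by
  constructor
  · intro h
    obtain ⟨r, hr⟩ := h 4
    have h1 : ((9 : ℤ) : Eis) ∣ ((r ^ 3 - b : ℤ) : Eis) := by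
      rw [lam_four] at hr
      have e : ((9 : ℤ) : Eis) = 9 := by push_cast; rfl
      rw [e]
      refine (dvd_mul_right 9 (w ^ 2)).trans (hr.trans (dvd_of_eq ?_))
      push_cast
      ring
    have h2 : (9 : ℤ) ∣ r ^ 3 - b := intCast_dvd_intCast.1 h1
    show b % 9 = 1 ∨ b % 9 = 8
    obtain ⟨t, ht⟩ : ∃ t, r = 3 * t + r % 3 := ⟨r / 3, by omega⟩
    have h3 : r % 3 = 0 ∨ r % 3 = 1 ∨ r % 3 = 2 := by omega
    rcases h3 with h3 | h3 | h3
    · rw [h3] at ht
      have e : r ^ 3 = 9 * (3 * t ^ 3) := by rw [ht]; ring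
      rw [e] at h2
      generalize 3 * t ^ 3 = T at h2
      omega
    · rw [h3] at ht
      have e : r ^ 3 = 9 * (3 * t ^ 3 + 3 * t ^ 2 + t) + 1 := by rw [ht]; ring
      rw [e] at h2
      generalize 3 * t ^ 3 + 3 * t ^ 2 + t = T at h2
      omega
    · rw [h3] at ht
      have e : r ^ 3 = 9 * (3 * t ^ 3 + 6 * t ^ 2 + 4 * t) + 8 := by rw [ht]; ring
      rw [e] at h2
      generalize 3 * t ^ 3 + 6 * t ^ 2 + 4 * t = T at h2
      omega
  · intro h N
    obtain ⟨r, hr⟩ := hensel3 h N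
    refine ⟨r, ?_⟩
    have h1 : lam ^ N ∣ (3 : Eis) ^ (N + 2) :=
      (pow_dvd_pow lam (by omega)).trans (pow_dvd_pow_of_dvd lam_dvd_three _)
    have h2 : (((3 : ℤ) ^ (N + 2) : ℤ) : Eis) ∣ ((r ^ 3 - b : ℤ) : Eis) :=
      intCast_dvd_intCast.2 hr
    rw [Int.cast_pow, ← three_eq_cast] at h2
    refine (h1.trans h2).trans (dvd_of_eq ?_)
    push_cast
    ring

theorem third (π : Eis) (s : Eis → Eis → ZMod 3) (e : ℕ) (b : ℤ) (a : Eis) (hs : LSym π s e)
    (h : LC π b) (hb : b ≠ 0) (ha : a ≠ 0) : s (b : Eis) a = 0 := by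
  have hb0 := cast_ne_zero hb
  obtain ⟨r, hr⟩ := h (V π (b : Eis) + e)
  have hr0 := root_ne_zero hs.prime hb0 hs.pos hr
  have h1 := hs.cont (b : Eis) ((r : Eis) ^ 3) a hb0 ha hr
  rw [← h1]
  have h2 := hs.mul (r : Eis) (r : Eis) a hr0 hr0 ha
  have h3 := hs.mul ((r : Eis) * (r : Eis)) (r : Eis) a (mul_ne_zero hr0 hr0) hr0 ha
  have e3 : (r : Eis) ^ 3 = (r : Eis) * (r : Eis) * (r : Eis) := by ring
  rw [e3, h3, h2]
  have h4 : ∀ x : ZMod 3, x + x + x = 0 := by decide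
  exact h4 _

end LCI

theorem LCI_thm (_hSTM : STM) (hSPP : SPP) (_hSLC : SLC) : LCI :=
  ⟨LCI.first hSPP, LCI.second, fun π s e b a hs h hb ha => LCI.third π s e b a hs h hb ha⟩

end Pool.Agent.PT

end

section

/-!
# A set of places and sufficiently many units with independent symbols
-/

set_option autoImplicit false

open NumberField IsDedekindDomain Finset
open scoped nonZeroDivisors Pointwise

namespace Pool.Agent.PT

open Pool.Agent.Lib_helper18 Pool.Agent.Lib_helper18.Eis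
open Pool.Agent.Lib_helper84.Cub hiding cast_ne

namespace NGEN

theorem cast_ne {n : ℤ} (h : n ≠ 0) : (n : Eis) ≠ 0 := by
  intro h0
  apply h
  have := congrArg Eis.re h0
  simpa using this

theorem ppPrim (π : PP) : Prim π.1 := ⟨π.2.2.2, by have := π.2.2.1; omega⟩

theorem intPrim {x : ℤ} (h : ¬ (3 : ℤ) ∣ x) : Prim (x : Eis) := ⟨by simp, by simpa using h⟩

theorem tm_of_not_dvd {π a b : Eis} (ha : ¬ π ∣ a) (hb : ¬ π ∣ b) : tm π a b = 0 := by
  unfold tm
  rw [V_eq_zero ha, V_eq_zero hb]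
  simp

theorem ch_of_not_dvd {π a : Eis} (ha : ¬ π ∣ a) : ch π a = sym π a := by
  unfold ch up
  rw [V_eq_zero ha, pow_zero, EuclideanDomain.div_one]

theorem eq_of_dvd (hSPP : SPP) {π ρ : PP} (h : π.1 ∣ ρ.1) : π = ρ :=
  hSPP.2.1 π ρ ((Prime.dvd_prime_iff_associated π.2.1 ρ.2.1).1 h)

theorem not_three (hSPP : SPP) (π : PP) : ¬ π.1 ∣ 3 := (hSPP.2.2.2.1 π).1

theorem sl_eq {a b : Eis} (F : Finset PP) (hF : ∀ π : PP, π.1 ∣ a ∨ π.1 ∣ b → π ∈ F) :
    sl a b = - ∑ π ∈ F, tm π.1 a b := by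
  unfold sl
  congr 1
  apply finsum_eq_sum_of_support_subset
  intro π hπ
  rw [Finset.mem_coe]
  apply hF
  by_contra h
  rw [not_or] at h
  exact hπ (tm_of_not_dvd h.1 h.2)

theorem recPP (hSPP : SPP) (hSREC : SREC) {π ρ : PP} (h : π ≠ ρ) : sym ρ.1 π.1 = sym π.1 ρ.1 := by
  classical
  have h1 := hSREC.1 π.1 ρ.1 (ppPrim π) (ppPrim ρ)
  have hd1 : ¬ π.1 ∣ ρ.1 := fun hd => h (eq_of_dvd hSPP hd)
  have hd2 : ¬ ρ.1 ∣ π.1 := fun hd => h (eq_of_dvd hSPP hd).symm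
  rw [sl_eq {π, ρ} (fun v hv => by
    rcases hv with hv | hv
    · rw [eq_of_dvd hSPP hv]
      simp
    · rw [eq_of_dvd hSPP hv]
      simp), Finset.sum_pair h, neg_eq_zero] at h1
  unfold tm at h1
  rw [V_eq_zero hd1, V_eq_zero hd2, V_self, V_self, ch_of_not_dvd hd1, ch_of_not_dvd hd2] at h1
  push_cast at h1
  rw [zero_mul, one_mul, one_mul, zero_mul, zero_sub, sub_zero] at h1
  have h2 := eq_neg_of_add_eq_zero_right h1
  rw [neg_neg] at h2
  exact h2

/-- the symbol of `x` at a prime not dividing it -/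
theorem ch_eq (hSPP : SPP) (hSREC : SREC) {x : ℤ} (h3 : ¬ (3 : ℤ) ∣ x) (D : Finset PP)
    (hD : ∀ π : PP, π ∈ D ↔ π.1 ∣ (x : Eis)) (ρ : PP) (hρ : ρ ∉ D) :
    ch ρ.1 (x : Eis) = ∑ π ∈ D, (V π.1 (x : Eis) : ZMod 3) * sym π.1 ρ.1 := by
  classical
  have h1 := hSREC.1 ρ.1 (x : Eis) (ppPrim ρ) (intPrim h3)
  have hρx : ¬ ρ.1 ∣ (x : Eis) := fun h => hρ ((hD ρ).2 h)
  rw [sl_eq (insert ρ D) (fun v hv => by
    rcases hv with hv | hv
    · rw [eq_of_dvd hSPP hv]
      exact Finset.mem_insert_self _ _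
    · exact Finset.mem_insert_of_mem ((hD v).2 hv)), Finset.sum_insert hρ, neg_eq_zero] at h1
  have h2 : tm ρ.1 ρ.1 (x : Eis) = - ch ρ.1 (x : Eis) := by
    unfold tm
    rw [V_eq_zero hρx, V_self]
    push_cast
    ring
  have h3' : ∑ π ∈ D, tm π.1 ρ.1 (x : Eis) = ∑ π ∈ D, (V π.1 (x : Eis) : ZMod 3) * sym π.1 ρ.1 := by
    apply Finset.sum_congr rfl
    intro π hπ
    have hne : π ≠ ρ := fun h => hρ (h ▸ hπ)
    have hd1 : ¬ π.1 ∣ ρ.1 := fun hd => hne (eq_of_dvd hSPP hd)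
    unfold tm
    rw [V_eq_zero hd1, ch_of_not_dvd hd1]
    push_cast
    ring
  rw [h2, h3'] at h1
  rw [← add_right_inj (-ch ρ.1 (x : Eis)), h1]
  ring

theorem tm_eq (hSPP : SPP) {x : ℤ} {π ρ : PP} (hne : π ≠ ρ) :
    tm π.1 ρ.1 (x : Eis) = (V π.1 (x : Eis) : ZMod 3) * sym π.1 ρ.1 := by
  have hd1 : ¬ π.1 ∣ ρ.1 := fun hd => hne (eq_of_dvd hSPP hd)
  unfold tm
  rw [V_eq_zero hd1, ch_of_not_dvd hd1]
  push_cast
  ring

theorem V_prod {κ : Type} [Fintype κ] {l : Eis} (hl : Prime l) (d : κ → Eis) (hd : ∀ i, d i ≠ 0)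
    (n : κ → ℕ) : V l (∏ i, d i ^ n i) = ∑ i, n i * V l (d i) := by
  classical
  have : ∀ t : Finset κ, V l (∏ i ∈ t, d i ^ n i) = ∑ i ∈ t, n i * V l (d i) := by
    intro t
    induction t using Finset.induction_on with
    | empty =>
      rw [Finset.prod_empty, Finset.sum_empty]
      exact V_eq_zero (fun h => hl.not_unit (isUnit_of_dvd_one h))
    | insert i t hi ih =>
      rw [Finset.prod_insert hi, Finset.sum_insert hi,
        V_mul hl (pow_ne_zero _ (hd i)) (Finset.prod_ne_zero_iff.2 (fun j _ => pow_ne_zero _ (hd j))),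
        V_pow hl (hd i), ih]
  exact this Finset.univ

theorem mul_indep {κ : Type} [Fintype κ] (d : κ → Eis) (hd : ∀ i, d i ≠ 0)
    (h : ∀ i, ∃ l : Eis, Prime l ∧ V l (d i) ≠ 0 ∧ ∀ j, j ≠ i → V l (d j) = 0) (n m : κ → ℕ)
    (he : ∏ i, d i ^ n i = ∏ i, d i ^ m i) : n = m := by
  classical
  funext i
  obtain ⟨l, hl, h1, h2⟩ := h i
  have h3 : ∀ n : κ → ℕ, ∑ j, n j * V l (d j) = n i * V l (d i) := by
    intro n
    apply Finset.sum_eq_single i
    · intro j _ hj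
      rw [h2 j hj, mul_zero]
    · intro h
      exact absurd (Finset.mem_univ _) h
  have h4 := congrArg (V l) he
  rw [V_prod hl d hd, V_prod hl d hd, h3, h3] at h4
  exact Nat.eq_of_mul_eq_mul_right (Nat.pos_of_ne_zero h1) h4

/-- choice of distinct objects with given properties -/
theorem choose_distinct {κ α : Type} [DecidableEq α] (P : κ → α → Prop) (A : Finset α)
    (h : ∀ (k : κ) (B : Finset α), ∃ a, a ∉ B ∧ P k a) (T : Finset κ) :
    ∃ f : κ → α, (∀ k ∈ T, P k (f k) ∧ f k ∉ A) ∧ ∀ k ∈ T, ∀ l ∈ T, f k = f l → k = l := by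
  classical
  induction T using Finset.induction_on with
  | empty =>
    refine ⟨fun k => (h k ∅).choose, ?_, ?_⟩
    · intro k hk
      simp at hk
    · intro k hk
      simp at hk
  | insert k T hk ih =>
    obtain ⟨f, hf1, hf2⟩ := ih
    obtain ⟨a, ha1, ha2⟩ := h k (A ∪ T.image f)
    rw [Finset.mem_union, not_or] at ha1
    have hne : ∀ l ∈ T, a ≠ f l := fun l hl he => ha1.2 (he ▸ Finset.mem_image_of_mem f hl)
    refine ⟨Function.update f k a, ?_, ?_⟩
    · intro l hl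
      rcases Finset.mem_insert.1 hl with rfl | hl
      · rw [Function.update_self]
        exact ⟨ha2, ha1.1⟩
      · have hlk : l ≠ k := fun he => hk (he ▸ hl)
        rw [Function.update_of_ne hlk]
        exact hf1 l hl
    · intro l hl m hm he
      by_cases hlk : l = k
      · by_cases hmk : m = k
        · rw [hlk, hmk]
        · have hmT : m ∈ T := Finset.mem_of_mem_insert_of_ne hm hmk
          rw [hlk, Function.update_self, Function.update_of_ne hmk] at he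
          exact absurd he (hne m hmT)
      · have hlT : l ∈ T := Finset.mem_of_mem_insert_of_ne hl hlk
        by_cases hmk : m = k
        · rw [hmk, Function.update_self, Function.update_of_ne hlk] at he
          exact absurd he.symm (hne l hlT)
        · have hmT : m ∈ T := Finset.mem_of_mem_insert_of_ne hm hmk
          rw [Function.update_of_ne hlk, Function.update_of_ne hmk] at he
          exact hf2 l hlT m hmT he

theorem wt_ne {x : ℤ} (h3 : ¬ (3 : ℤ) ∣ x) (h : ¬ C9 x) : wt ((x : Eis).norm) ≠ 0 := by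
  rw [norm_intCast]
  unfold wt
  intro h0
  rw [ZMod.intCast_zmod_eq_zero_iff_dvd] at h0
  apply h
  unfold C9
  have hx : x % 9 = 0 ∨ x % 9 = 1 ∨ x % 9 = 2 ∨ x % 9 = 3 ∨ x % 9 = 4 ∨ x % 9 = 5 ∨ x % 9 = 6 ∨
      x % 9 = 7 ∨ x % 9 = 8 := by omega
  have h2 : x ^ 2 % 9 = ((x % 9) * (x % 9)) % 9 := by
    rw [pow_two]
    simp [Int.mul_emod]
  rcases hx with h | h | h | h | h | h | h | h | h
  · exact absurd (by omega) h3
  · exact Or.inl h
  · rw [h] at h2
    push_cast at h0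
    omega
  · exact absurd (by omega) h3
  · rw [h] at h2
    push_cast at h0
    omega
  · rw [h] at h2
    push_cast at h0
    omega
  · exact absurd (by omega) h3
  · rw [h] at h2
    push_cast at h0
    omega
  · exact Or.inr h

/-- `x` is divisible by an element of `PP` -/
theorem exists_dvd (hSPP : SPP) {x : ℤ} (h0 : x ≠ 0) (h3 : ¬ (3 : ℤ) ∣ x)
    (hc : ¬ ∃ c : ℤ, c ^ 3 = x) : ∃ π : PP, π.1 ∣ (x : Eis) := by
  have h1 : x.natAbs ≠ 1 := by
    intro h
    rcases Int.natAbs_eq x with h' | h'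
    · exact hc ⟨1, by rw [h', h]; rfl⟩
    · exact hc ⟨-1, by rw [h', h]; rfl⟩
  obtain ⟨p, hp, hpx⟩ := Nat.exists_prime_and_dvd h1
  have hpx' : (p : ℤ) ∣ x := Int.natCast_dvd.2 hpx
  have hp3 : ¬ (3 : ℤ) ∣ (p : ℤ) := fun h => h3 (h.trans hpx')
  have hpu : ¬ IsUnit ((p : ℤ) : Eis) := by
    rw [Eis.isUnit_iff_norm, norm_intCast]
    have := hp.two_le
    intro h
    have h2 : (2 : ℤ) ≤ (p : ℤ) := by exact_mod_cast this
    nlinarith
  have hp0 : ((p : ℤ) : Eis) ≠ 0 := cast_ne (by exact_mod_cast hp.ne_zero)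
  obtain ⟨l, hl, hlp⟩ := WfDvdMonoid.exists_irreducible_factor hpu hp0
  have hlP : Prime l := hl.prime
  have hl3 : ¬ l ∣ 3 := by
    intro h
    rw [dvd_three_iff hlP] at h
    have h4 : lam ∣ ((p : ℤ) : Eis) := h.symm.dvd.trans hlp
    rw [lam_dvd_iff] at h4
    apply hp3
    simpa using h4
  obtain ⟨π, hπ⟩ := hSPP.1 l hlP hl3
  refine ⟨π, hπ.symm.dvd.trans (hlp.trans ?_)⟩
  obtain ⟨k, hk⟩ := hpx'
  exact ⟨(k : Eis), by rw [hk]; push_cast; rfl⟩

open Classical in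
/-- from a finite type to `Fin e` -/
theorem transfer {κ : Type} [Fintype κ] (x : ℤ) (S₀ S : Finset Pl) (d : κ → Eis) (hS : S₀ ⊆ S)
    (hLC : ∀ v ∈ S, v ∉ S₀ → LC (uni v) x)
    (hcard : (S.filter fun v => ¬ LC (uni v) x).card = Fintype.card κ + 1)
    (hd0 : ∀ i, d i ≠ 0) (hdS : ∀ i (v : Pl), uni v ∣ d i → v ∈ S)
    (hmul : ∀ n m : κ → ℕ, ∏ i, d i ^ n i = ∏ i, d i ^ m i → n = m)
    (hind : ∀ n : κ → ZMod 3, (∀ v : Pl, ∑ i, n i * sy v (d i) (x : Eis) = 0) → n = 0) :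
    ∃ (S : Finset Pl) (e : ℕ) (d : Fin e → Eis), S₀ ⊆ S ∧ (∀ v ∈ S, v ∉ S₀ → LC (uni v) x) ∧
    (S.filter fun v => ¬ LC (uni v) x).card = e + 1 ∧
    (∀ i, d i ≠ 0) ∧ (∀ i (v : Pl), uni v ∣ d i → v ∈ S) ∧
    (∀ n m : Fin e → ℕ, ∏ i, d i ^ n i = ∏ i, d i ^ m i → n = m) ∧
    (∀ n : Fin e → ZMod 3, (∀ v : Pl, ∑ i, n i * sy v (d i) (x : Eis) = 0) → n = 0) := by
  let E : Fin (Fintype.card κ) ≃ κ := (Fintype.equivFin κ).symm
  refine ⟨S, Fintype.card κ, fun i => d (E i), hS, hLC, hcard, fun i => hd0 _,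
    fun i v h => hdS _ v h, ?_, ?_⟩
  · intro n m h
    have h1 : ∀ n : Fin (Fintype.card κ) → ℕ,
        ∏ i, d (E i) ^ n i = ∏ k, d k ^ n (E.symm k) := by
      intro n
      rw [← E.prod_comp]
      simp
    rw [h1, h1] at h
    have h2 := hmul _ _ h
    funext i
    have := congrFun h2 (E i)
    simpa using this
  · intro n h
    have h1 := hind (fun k => n (E.symm k)) (fun v => by
      rw [← h v, ← E.sum_comp]
      simp)
    funext i
    have := congrFun h1 (E i)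
    simpa using this

theorem V_cast {x : ℤ} (π : PP) (h : π.1 ∣ (x : Eis)) (h0 : x ≠ 0) (h2 : V π.1 (x : Eis) ≤ 2) :
    (V π.1 (x : Eis) : ZMod 3) * (V π.1 (x : Eis) : ZMod 3) = 1 ∧ ¬ 3 ∣ V π.1 (x : Eis) := by
  have h1 : V π.1 (x : Eis) ≠ 0 := fun h' => (V_eq_zero_iff.1 h') h
  have h3 : V π.1 (x : Eis) = 1 ∨ V π.1 (x : Eis) = 2 := by omega
  rcases h3 with h3 | h3
  · rw [h3]
    exact ⟨by decide, by decide⟩
  · rw [h3]
    exact ⟨by decide, by decide⟩

end NGEN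

open _root_.Pool.Agent.PT.NGEN in
open Classical in
/-- a set of places and sufficiently many units with independent symbols -/
theorem NGEN_thm (hSTM : STM) (hSPP : SPP) (hSSL : SSL) (hSREC : SREC) (hLCI : LCI)
    (hNAUX : NAUX) : NGEN := by
  intro x S₀ hx0 hx3 hV hcube hnone hS0 hS0'
  obtain ⟨D, hD⟩ : ∃ D : Finset PP, ∀ π : PP, π ∈ D ↔ π.1 ∣ (x : Eis) := by
    refine ⟨(hSPP.2.2.1 (x : Eis) (cast_ne hx0)).toFinset, fun π => ?_⟩
    rw [Set.Finite.mem_toFinset]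
    rfl
  obtain ⟨π₀, hπ₀⟩ := exists_dvd hSPP hx0 hx3 hcube
  have hπ₀D : π₀ ∈ D := (hD π₀).2 hπ₀
  have hVD : ∀ π ∈ D, (V π.1 (x : Eis) : ZMod 3) * (V π.1 (x : Eis) : ZMod 3) = 1 ∧
      ¬ 3 ∣ V π.1 (x : Eis) := fun π hπ => V_cast π ((hD π).1 hπ) hx0 (hV π)
  let κ : Type := {k // k ∈ D.erase π₀}
  -- the vectors
  let r : κ → PP → ZMod 3 := fun k π => if π = k.1 then 1 else
    if π = π₀ then - (V k.1.1 (x : Eis) : ZMod 3) * (V π₀.1 (x : Eis) : ZMod 3) else 0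
  have hkD : ∀ k : κ, k.1 ∈ D ∧ k.1 ≠ π₀ := fun k =>
    ⟨Finset.mem_of_mem_erase k.2, Finset.ne_of_mem_erase k.2⟩
  have hr0 : ∀ k : κ, ∑ π ∈ D, (V π.1 (x : Eis) : ZMod 3) * r k π = 0 := by
    intro k
    obtain ⟨hk1, hk2⟩ := hkD k
    have h1 : ∑ π ∈ D, (V π.1 (x : Eis) : ZMod 3) * r k π =
        ∑ π ∈ ({k.1, π₀} : Finset PP), (V π.1 (x : Eis) : ZMod 3) * r k π := by
      symm
      apply Finset.sum_subset
      · intro π hπ
        rcases Finset.mem_insert.1 hπ with rfl | hπ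
        · exact hk1
        · rw [Finset.mem_singleton.1 hπ]
          exact hπ₀D
      · intro π _ hπ
        rw [Finset.mem_insert, Finset.mem_singleton, not_or] at hπ
        simp only [r]
        rw [if_neg hπ.1, if_neg hπ.2, mul_zero]
    have hr1 : r k k.1 = 1 := if_pos rfl
    have hr2 : r k π₀ = - (V k.1.1 (x : Eis) : ZMod 3) * (V π₀.1 (x : Eis) : ZMod 3) := by
      change (if π₀ = k.1 then (1 : ZMod 3) else
        if π₀ = π₀ then - (V k.1.1 (x : Eis) : ZMod 3) * (V π₀.1 (x : Eis) : ZMod 3) else 0) = _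
      rw [if_neg hk2.symm, if_pos rfl]
    rw [h1, Finset.sum_pair hk2, hr1, hr2]
    have h2 := (hVD π₀ hπ₀D).1
    calc (V k.1.1 (x : Eis) : ZMod 3) * 1 + (V π₀.1 (x : Eis) : ZMod 3) *
          (- (V k.1.1 (x : Eis) : ZMod 3) * (V π₀.1 (x : Eis) : ZMod 3))
        = (V k.1.1 (x : Eis) : ZMod 3) * (1 - (V π₀.1 (x : Eis) : ZMod 3) *
          (V π₀.1 (x : Eis) : ZMod 3)) := by ring
      _ = 0 := by rw [h2, sub_self, mul_zero]
  have hrk : ∀ k l : κ, r k l.1 = if l = k then 1 else 0 := by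
    intro k l
    simp only [r]
    by_cases h : l = k
    · rw [h, if_pos rfl, if_pos rfl]
    · rw [if_neg (fun h' => h (Subtype.ext h')), if_neg (hkD l).2, if_neg h]
  -- the auxiliary primes
  have hex : ∀ (k : κ) (A : Finset PP), ∃ ρ : PP, ρ ∉ A ∧ ∃ ε : ZMod 3, ε ≠ 0 ∧
      ∀ π ∈ D, sym ρ.1 π.1 = ε * r k π := by
    intro k A
    obtain ⟨ρ, hρ, ε, hε, h⟩ := hNAUX D.card (fun i => (D.equivFin.symm i).1)
      (fun i => r k (D.equivFin.symm i).1) A (fun i j h => by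
        exact D.equivFin.symm.injective (Subtype.ext h))
    refine ⟨ρ, hρ, ε, hε, fun π hπ => ?_⟩
    have := h (D.equivFin ⟨π, hπ⟩)
    simpa using this
  let A₀ : Finset PP := (S₀.biUnion fun v => match v with
    | none => ∅
    | some π => {π})
  have hA₀ : ∀ π : PP, π ∈ A₀ ↔ some π ∈ S₀ := by
    intro π
    simp only [A₀, Finset.mem_biUnion]
    constructor
    · rintro ⟨v, hv, hπ⟩
      cases v with
      | none => simp at hπ
      | some π' =>
        have : π = π' := by simpa using hπ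
        rw [this]
        exact hv
    · intro h
      exact ⟨some π, h, by simp⟩
  obtain ⟨ρ, hρ1, hρ2⟩ := choose_distinct (κ := κ) (α := PP)
    (fun k ρ => ∃ ε : ZMod 3, ε ≠ 0 ∧ ∀ π ∈ D, sym ρ.1 π.1 = ε * r k π) A₀ hex Finset.univ
  have hρS : ∀ k, some (ρ k) ∉ S₀ := fun k h => (hρ1 k (Finset.mem_univ _)).2 ((hA₀ _).2 h)
  have hρD : ∀ k, ρ k ∉ D := fun k h => hρS k (hS0 _ ((hD _).1 h))
  have hρinj : ∀ k l, ρ k = ρ l → k = l := fun k l h =>
    hρ2 k (Finset.mem_univ _) l (Finset.mem_univ _) h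
  choose ε hε hsym using fun k => (hρ1 k (Finset.mem_univ _)).1
  have hsym' : ∀ k, ∀ π ∈ D, sym π.1 (ρ k).1 = ε k * r k π := by
    intro k π hπ
    have hne : π ≠ ρ k := fun h => hρD k (h ▸ hπ)
    rw [← recPP hSPP hSREC hne]
    exact hsym k π hπ
  have htm : ∀ k, ∀ π ∈ D, tm π.1 (ρ k).1 (x : Eis) =
      (V π.1 (x : Eis) : ZMod 3) * (ε k * r k π) := by
    intro k π hπ
    have hne : π ≠ ρ k := fun h => hρD k (h ▸ hπ)
    rw [tm_eq hSPP hne, hsym' k π hπ]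
  have htm0 : ∀ k, ∑ π ∈ D, tm π.1 (ρ k).1 (x : Eis) = 0 := by
    intro k
    rw [Finset.sum_congr rfl (htm k)]
    have h1 : ∀ π ∈ D, (V π.1 (x : Eis) : ZMod 3) * (ε k * r k π) =
        ε k * ((V π.1 (x : Eis) : ZMod 3) * r k π) := fun π _ => by ring
    rw [Finset.sum_congr rfl h1, ← Finset.mul_sum, hr0 k, mul_zero]
  have hLCρ : ∀ k, LC (ρ k).1 x := by
    intro k
    rw [hLCI.1 (ρ k) x hx0]
    have hnd : ¬ (ρ k).1 ∣ (x : Eis) := fun h => hρD k ((hD _).2 h)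
    refine ⟨by rw [V_eq_zero hnd]; exact dvd_zero _, ?_⟩
    rw [ch_eq hSPP hSREC hx3 D hD (ρ k) (hρD k)]
    have h1 : ∀ π ∈ D, (V π.1 (x : Eis) : ZMod 3) * sym π.1 (ρ k).1 =
        ε k * ((V π.1 (x : Eis) : ZMod 3) * r k π) := fun π hπ => by
      rw [hsym' k π hπ]
      ring
    rw [Finset.sum_congr rfl h1, ← Finset.mul_sum, hr0 k, mul_zero]
  have hLCD : ∀ π ∈ D, ¬ LC π.1 x := by
    intro π hπ h
    exact (hVD π hπ).2 ((hLCI.1 π x hx0).1 h).1
  -- the set of places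
  let S : Finset Pl := S₀ ∪ Finset.univ.image (fun k : κ => some (ρ k))
  have hmemS : ∀ v, v ∈ S ↔ v ∈ S₀ ∨ ∃ k, some (ρ k) = v := by
    intro v
    simp [S]
  have hLCS : ∀ v ∈ S, v ∉ S₀ → LC (uni v) x := by
    intro v hv hv0
    rcases (hmemS v).1 hv with h | ⟨k, rfl⟩
    · exact absurd h hv0
    · exact hLCρ k
  have hSsub : S₀ ⊆ S := fun v hv => (hmemS v).2 (Or.inl hv)
  have hcκ : Fintype.card κ + 1 = D.card := by
    have h1 : Fintype.card κ = (D.erase π₀).card := Fintype.card_coe _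
    rw [h1, Finset.card_erase_of_mem hπ₀D]
    have : 0 < D.card := Finset.card_pos.2 ⟨π₀, hπ₀D⟩
    omega
  have hfilter : ∀ v, v ∈ S.filter (fun v => ¬ LC (uni v) x) ↔
      v ∈ D.image some ∨ (v = none ∧ ¬ C9 x) := by
    intro v
    rw [Finset.mem_filter, hmemS]
    cases v with
    | none =>
      have h1 : ¬ LC (uni none) x ↔ ¬ C9 x := not_congr (hLCI.2.1 x hx3)
      rw [h1]
      constructor
      · rintro ⟨_, h⟩
        exact Or.inr ⟨rfl, h⟩
      · rintro (h | ⟨_, h⟩)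
        · simp at h
        · exact ⟨Or.inl hnone, h⟩
    | some π =>
      constructor
      · rintro ⟨h1, h2⟩
        left
        rw [Finset.mem_image]
        rcases h1 with h1 | ⟨k, hk⟩
        · exact ⟨π, (hD π).2 (hS0' π h1 h2), rfl⟩
        · exfalso
          have : ρ k = π := by simpa using hk
          exact h2 (this ▸ hLCρ k)
      · rintro (h | ⟨h, _⟩)
        · rw [Finset.mem_image] at h
          obtain ⟨π', hπ', he⟩ := h
          have : π' = π := by simpa using he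
          subst this
          exact ⟨Or.inl (hS0 _ ((hD _).1 hπ')), hLCD _ hπ'⟩
        · simp at h
  have hVρ : ∀ k l, V (ρ k).1 (ρ l).1 = if l = k then 1 else 0 := by
    intro k l
    by_cases h : l = k
    · rw [h, if_pos rfl]
      exact V_self
    · rw [if_neg h]
      apply V_eq_zero
      intro hd
      exact h (hρinj _ _ (eq_of_dvd hSPP hd)).symm
  have hρdS : ∀ (k : κ) (v : Pl), uni v ∣ (ρ k).1 → v ∈ S := by
    intro k v hv
    cases v with
    | none => exact hSsub hnone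
    | some π =>
      have : π = ρ k := eq_of_dvd hSPP hv
      rw [this]
      exact (hmemS _).2 (Or.inr ⟨k, rfl⟩)
  -- independence, first part
  have hsum : ∀ (n : κ → ZMod 3) (l : κ), ∑ k, n k * tm l.1.1 (ρ k).1 (x : Eis) =
      (V l.1.1 (x : Eis) : ZMod 3) * (ε l * n l) := by
    intro n l
    rw [Finset.sum_eq_single l]
    · rw [htm l l.1 (hkD l).1, hrk, if_pos rfl]
      ring
    · intro k _ hk
      rw [htm k l.1 (hkD l).1, hrk, if_neg (fun h => hk h.symm)]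
      ring
    · intro h
      exact absurd (Finset.mem_univ _) h
  have hzero : ∀ (l : κ) (a : ZMod 3), (V l.1.1 (x : Eis) : ZMod 3) * (ε l * a) = 0 → a = 0 := by
    intro l a h
    have h1 := (hVD l.1 (hkD l).1).1
    have h2 : (V l.1.1 (x : Eis) : ZMod 3) ≠ 0 := by
      intro h0
      rw [h0, mul_zero] at h1
      exact zero_ne_one h1
    rcases mul_eq_zero.1 h with h | h
    · exact absurd h h2
    · rcases mul_eq_zero.1 h with h | h
      · exact absurd h (hε l)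
      · exact h
  by_cases h9 : C9 x
  · refine transfer (κ := κ) x S₀ S (fun k => (ρ k).1) hSsub hLCS ?_
      (fun k => (ρ k).2.1.ne_zero) hρdS ?_ ?_
    · have h1 : S.filter (fun v => ¬ LC (uni v) x) = D.image some := by
        ext v
        rw [hfilter]
        constructor
        · rintro (h | ⟨_, h⟩)
          · exact h
          · exact absurd h9 h
        · exact fun h => Or.inl h
      rw [h1, Finset.card_image_of_injective _ (Option.some_injective _), hcκ]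
    · apply mul_indep
      · exact fun k => (ρ k).2.1.ne_zero
      · intro k
        refine ⟨(ρ k).1, (ρ k).2.1, ?_, ?_⟩
        · rw [hVρ, if_pos rfl]
          exact one_ne_zero
        · intro l hl
          rw [hVρ, if_neg hl]
    · intro n h
      funext l
      have h1 := h (some l.1)
      change ∑ k, n k * tm l.1.1 (ρ k).1 (x : Eis) = 0 at h1
      rw [hsum] at h1
      exact hzero l _ h1
  · have hnd : ∀ π : PP, ¬ π.1 ∣ w * lam ^ 3 := by
      intro π h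
      rcases π.2.1.dvd_or_dvd h with h | h
      · apply π.2.1.not_unit
        apply isUnit_of_dvd_unit h
        rw [Eis.isUnit_iff_norm]
        decide
      · have h2 := π.2.1.dvd_of_dvd_pow h
        exact not_three hSPP π (h2.trans lam_dvd_three)
    have hw0 : w ≠ 0 := by
      intro h
      have := congrArg Eis.im h
      revert this
      decide
    have hd0 : w * lam ^ 3 ≠ 0 := mul_ne_zero hw0 (pow_ne_zero _ prime_lam.ne_zero)
    let d : Option κ → Eis := fun o => match o with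
      | none => w * lam ^ 3
      | some k => (ρ k).1
    have hd : ∀ o, d o ≠ 0 := by
      intro o
      cases o with
      | none => exact hd0
      | some k => exact (ρ k).2.1.ne_zero
    refine transfer (κ := Option κ) x S₀ S d hSsub hLCS ?_ hd ?_ ?_ ?_
    · have h1 : S.filter (fun v => ¬ LC (uni v) x) = insert none (D.image some) := by
        ext v
        rw [hfilter, Finset.mem_insert]
        constructor
        · rintro (h | ⟨h, _⟩)
          · exact Or.inr h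
          · exact Or.inl h
        · rintro (h | h)
          · exact Or.inr ⟨h, h9⟩
          · exact Or.inl h
      rw [h1, Finset.card_insert_of_notMem (by simp),
        Finset.card_image_of_injective _ (Option.some_injective _), ← hcκ, Fintype.card_option]
    · intro o v hv
      cases o with
      | none =>
        cases v with
        | none => exact hSsub hnone
        | some π => exact absurd hv (hnd π)
      | some k => exact hρdS k v hv
    · apply mul_indep _ hd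
      intro o
      cases o with
      | none =>
        refine ⟨lam, prime_lam, ?_, ?_⟩
        · intro h
          rw [V_eq_zero_iff] at h
          exact h ⟨w * lam ^ 2, by simp only [d]; ring⟩
        · intro o ho
          cases o with
          | none => exact absurd rfl ho
          | some k => exact V_eq_zero (ppPrim (ρ k)).not_lam_dvd
      | some k =>
        refine ⟨(ρ k).1, (ρ k).2.1, ?_, ?_⟩
        · change V (ρ k).1 (ρ k).1 ≠ 0
          rw [V_self]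
          exact one_ne_zero
        · intro o ho
          cases o with
          | none => exact V_eq_zero (hnd (ρ k))
          | some l =>
            change V (ρ k).1 (ρ l).1 = 0
            rw [hVρ, if_neg (fun h => ho (by rw [h]))]
    · intro n h
      have hs : ∀ π : PP, n none * tm π.1 (w * lam ^ 3) (x : Eis) +
          ∑ k : κ, n (some k) * tm π.1 (ρ k).1 (x : Eis) = 0 := by
        intro π
        have h1 := h (some π)
        rw [Fintype.sum_option] at h1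
        exact h1
      have hw : ∀ π : PP, tm π.1 (w * lam ^ 3) (x : Eis) = - tm π.1 (x : Eis) w := by
        intro π
        have hL := hSTM π.1 π.2.1 (not_three hSPP π)
        have hl0 : lam ≠ 0 := prime_lam.ne_zero
        have hx0' := cast_ne hx0
        have e1 : (lam : Eis) ^ 3 = lam * lam * lam := by ring
        rw [hL.mul _ _ _ hw0 (pow_ne_zero _ hl0) hx0', e1,
          hL.mul _ _ _ (mul_ne_zero hl0 hl0) hl0 hx0', hL.mul _ _ _ hl0 hl0 hx0',
          hL.skew _ _ hx0' hw0]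
        have e2 : tm π.1 lam (x : Eis) + tm π.1 lam (x : Eis) + tm π.1 lam (x : Eis) =
            3 * tm π.1 lam (x : Eis) := by ring
        have e3 : (3 : ZMod 3) = 0 := rfl
        rw [e2, e3, zero_mul, add_zero]
      have h1 : ∑ π ∈ D, (n none * tm π.1 (w * lam ^ 3) (x : Eis) +
          ∑ k : κ, n (some k) * tm π.1 (ρ k).1 (x : Eis)) = 0 :=
        Finset.sum_eq_zero (fun π _ => hs π)
      rw [Finset.sum_add_distrib, Finset.sum_comm] at h1
      have h2 : ∑ k : κ, ∑ π ∈ D, n (some k) * tm π.1 (ρ k).1 (x : Eis) = 0 := by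
        apply Finset.sum_eq_zero
        intro k _
        rw [← Finset.mul_sum, htm0 k, mul_zero]
      rw [h2, add_zero, ← Finset.mul_sum] at h1
      have h3 : ∑ π ∈ D, tm π.1 (w * lam ^ 3) (x : Eis) = wt ((x : Eis).norm) := by
        rw [← hSREC.2.1 (x : Eis) (intPrim hx3), sl_eq D (fun π hπ => by
          rcases hπ with hπ | hπ
          · exact (hD π).2 hπ
          · exact absurd (hπ.mul_right _) (hnd π)), ← Finset.sum_neg_distrib]
        exact Finset.sum_congr rfl (fun π _ => hw π)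
      rw [h3] at h1
      have hn0 : n none = 0 := by
        rcases mul_eq_zero.1 h1 with h | h
        · exact h
        · exact absurd h (wt_ne hx3 h9)
      funext o
      cases o with
      | none => exact hn0
      | some l =>
        have h4 := hs l.1
        rw [hn0, zero_mul, zero_add, hsum (fun k => n (some k)) l] at h4
        exact hzero l _ h4

end Pool.Agent.PT

end

section

/-!
# FD2T: the class of a point (`B` divisible by `3`)
-/

set_option autoImplicit false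

namespace Pool.Agent.PT3

open Pool.Agent.Lib_helper18 Pool.Agent.Lib_helper18.Eis
open Pool.Agent.Lib_helper84.Cub hiding cast_ne
open Pool.Agent.PT Pool.Agent.PTE

namespace FD2T

open Pool.Agent.PT.FD2 (cast_ne s_cube s_cube' s_self mul_right s_neg)

/-- A cube-free number is not divisible by the cube of a prime. -/
theorem no_cube (hSPP : SPP) {B : ℤ} (hB : BT B) {l : ℕ} (hl : l.Prime)
    (h : (l : ℤ) ^ 3 ∣ B) : False := by
  obtain ⟨h1, -⟩ := hSPP
  by_cases hl3 : (3 : ℤ) ∣ l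
  · have h3 : 3 ∣ l := by exact_mod_cast hl3
    have h4 : 3 = l := (Nat.prime_dvd_prime_iff_eq Nat.prime_three hl).1 h3
    subst h4
    exact hB.t2 (by simpa using h)
  have hlu : ¬ IsUnit (l : Eis) := by
    rw [isUnit_iff_norm, norm_natCast]
    intro h3
    have h4 : l ^ 2 = 1 := by exact_mod_cast h3
    have h5 := hl.two_le
    nlinarith
  have hl0 : (l : Eis) ≠ 0 := by
    have := cast_ne (m := (l : ℤ)) (by exact_mod_cast hl.ne_zero)
    simpa using this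
  obtain ⟨ρ, hρ, hρl⟩ := WfDvdMonoid.exists_irreducible_factor hlu hl0
  have hρ' : Prime ρ := hρ.prime
  have hρ3 : ¬ ρ ∣ 3 := by
    intro h3
    have h4 : IsCoprime (3 : ℤ) l := by
      rw [Int.isCoprime_iff_gcd_eq_one]
      have h5 : Nat.Coprime 3 l := (Nat.Prime.coprime_iff_not_dvd Nat.prime_three).2
        (fun h6 => hl3 (by exact_mod_cast h6))
      exact_mod_cast h5
    obtain ⟨u, v, huv⟩ := h4
    have h5 : (u : Eis) * 3 + v * l = 1 := by
      have := congrArg (fun m : ℤ => (m : Eis)) huv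
      push_cast at this
      exact this
    exact hρ'.not_isUnit (isUnit_of_dvd_one (h5 ▸ dvd_add (h3.mul_left _) (hρl.mul_left _)))
  obtain ⟨π, hπ⟩ := h1 ρ hρ' hρ3
  have h2 : π.1 ^ 3 ∣ (B : Eis) := by
    have h3 : π.1 ∣ (l : Eis) := hπ.symm.dvd.trans hρl
    refine (pow_dvd_pow_of_dvd h3 3).trans ?_
    obtain ⟨c, hc⟩ := h
    refine ⟨c, ?_⟩
    rw [hc]
    push_cast
    rfl
  have h3 := (fin π.2.1 (cast_ne hB.ne)).pow_dvd_iff_le_multiplicity.1 h2
  have h4 := hB.cf π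
  exact absurd h3 (by unfold V at h4; omega)

theorem cube9 : ∀ y : ZMod 9, y ^ 3 = 0 ∨ y ^ 3 = 1 ∨ y ^ 3 = -1 := by decide

theorem three_dvd {x : ℤ} (h : (x : ZMod 9) ^ 3 = 0) : (3 : ℤ) ∣ x := by
  have h1 : ((x ^ 3 : ℤ) : ZMod 9) = 0 := by
    push_cast
    exact h
  rw [ZMod.intCast_zmod_eq_zero_iff_dvd] at h1
  have h2 : (3 : ℤ) ∣ x ^ 3 := (Dvd.intro 3 (by norm_num)).trans h1
  exact Int.prime_three.dvd_of_dvd_pow h2

theorem wt_eq {a b : ℤ} (h3 : ¬ (3 : ℤ) ∣ a) (h : ((a : ZMod 9)) ^ 2 = (b : ZMod 9) ^ 2) :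
    wt (a ^ 2) = wt (b ^ 2) := by
  have h1 : ((a ^ 2 : ℤ) : ZMod 9) = ((b ^ 2 : ℤ) : ZMod 9) := by
    push_cast
    exact h
  rw [ZMod.intCast_eq_intCast_iff_dvd_sub] at h1
  have e0 : a ^ 2 % 3 = 1 := by
    have h3 : a % 3 = 1 ∨ a % 3 = 2 := by omega
    rcases h3 with h3 | h3 <;> simp [pow_two, Int.mul_emod, h3]
  unfold wt
  rw [ZMod.intCast_eq_intCast_iff_dvd_sub]
  set A : ℤ := a ^ 2
  set C : ℤ := b ^ 2
  push_cast at h1 ⊢
  omega

/-- the condition at `3` -/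
theorem wild0 (a b c : ℤ) (ha : ¬ (3 : ℤ) ∣ a) (hc : (9 : ℤ) ∣ c)
    (hc27 : ¬ (27 : ℤ) ∣ c) : ∀ (N : ℕ) (x y z : ℤ), x.natAbs ≤ N → x ≠ 0 →
    a * x ^ 3 + b * y ^ 3 + c * z ^ 3 = 0 → ¬ (3 : ℤ) ∣ b → wt (a ^ 2) = wt (b ^ 2) := by
  intro N
  induction N with
  | zero =>
    intro x y z h1 h2 _ _
    exact absurd (Int.natAbs_eq_zero.1 (Nat.le_zero.1 h1)) h2
  | succ N ih =>
    intro x y z h1 h2 hs hb
    by_cases hx : (3 : ℤ) ∣ x
    · obtain ⟨x', rfl⟩ := hx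
      have hy : (3 : ℤ) ∣ y := by
        have h5 : (3 : ℤ) ∣ b * y ^ 3 := by
          obtain ⟨c', rfl⟩ := hc
          exact ⟨-(9 * a * x' ^ 3 + 3 * c' * z ^ 3), by linear_combination hs⟩
        exact Int.prime_three.dvd_of_dvd_pow ((Int.prime_three.dvd_or_dvd h5).resolve_left hb)
      obtain ⟨y', rfl⟩ := hy
      have hz : (3 : ℤ) ∣ z := by
        obtain ⟨c', rfl⟩ := hc
        have h5 : (3 : ℤ) ∣ c' * z ^ 3 := ⟨-(a * x' ^ 3 + b * y' ^ 3), by
          have h6 : (9 : ℤ) * (c' * z ^ 3) = 9 * (3 * (-(a * x' ^ 3 + b * y' ^ 3))) := by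
            linear_combination hs
          exact mul_left_cancel₀ (by norm_num) h6⟩
        refine Int.prime_three.dvd_of_dvd_pow ((Int.prime_three.dvd_or_dvd h5).resolve_left ?_)
        rintro ⟨d, rfl⟩
        exact hc27 ⟨d, by ring⟩
      obtain ⟨z', rfl⟩ := hz
      refine ih x' y' z' ?_ ?_ ?_ hb
      · have : (3 * x').natAbs = 3 * x'.natAbs := by rw [Int.natAbs_mul]; rfl
        have h7 : x'.natAbs ≠ 0 := fun h => h2 (by rw [Int.natAbs_eq_zero.1 h, mul_zero])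
        omega
      · rintro rfl
        exact h2 (mul_zero _)
      · have h6 : (27 : ℤ) * (a * x' ^ 3 + b * y' ^ 3 + c * z' ^ 3) = 27 * 0 := by
          linear_combination hs
        exact mul_left_cancel₀ (by norm_num) h6
    · have hy : ¬ (3 : ℤ) ∣ y := by
        intro hy
        have h5 : (3 : ℤ) ∣ a * x ^ 3 := by
          obtain ⟨c', rfl⟩ := hc
          obtain ⟨y', rfl⟩ := hy
          exact ⟨-(9 * b * y' ^ 3 + 3 * c' * z ^ 3), by linear_combination hs⟩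
        exact hx (Int.prime_three.dvd_of_dvd_pow
          ((Int.prime_three.dvd_or_dvd h5).resolve_left ha))
      refine wt_eq ha ?_
      have h9 : (c : ZMod 9) = 0 := by
        rw [ZMod.intCast_zmod_eq_zero_iff_dvd]
        exact_mod_cast hc
      have hs9 : (a : ZMod 9) * (x : ZMod 9) ^ 3 + (b : ZMod 9) * (y : ZMod 9) ^ 3 = 0 := by
        have := congrArg (Int.cast : ℤ → ZMod 9) hs
        push_cast at this
        rw [h9, zero_mul, add_zero] at this
        exact this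
      have hx9 : (x : ZMod 9) ^ 3 = 1 ∨ (x : ZMod 9) ^ 3 = -1 :=
        (cube9 _).resolve_left fun h => hx (three_dvd h)
      have hy9 : (y : ZMod 9) ^ 3 = 1 ∨ (y : ZMod 9) ^ 3 = -1 :=
        (cube9 _).resolve_left fun h => hy (three_dvd h)
      rcases hx9 with h7 | h7 <;> rcases hy9 with h8 | h8 <;> rw [h7, h8] at hs9
      · have : (a : ZMod 9) = -b := by linear_combination hs9
        rw [this]; ring
      · have : (a : ZMod 9) = b := by linear_combination hs9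
        rw [this]
      · have : (a : ZMod 9) = b := by linear_combination -hs9
        rw [this]
      · have : (a : ZMod 9) = -b := by linear_combination -hs9
        rw [this]; ring

theorem z3a : ∀ t : ZMod 3, t + t + t = 0 := by decide

/-- the number `9` divides one of the three factors -/
theorem split9 {a0 a1 a2 B : ℤ} (hp : a0 * a1 * a2 = B) (hc01 : IsCoprime a0 a1)
    (hc02 : IsCoprime a0 a2) (h9 : (9 : ℤ) ∣ B) (h27 : ¬ (27 : ℤ) ∣ B) (h : (3 : ℤ) ∣ a0) :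
    ¬ (3 : ℤ) ∣ a1 ∧ ¬ (3 : ℤ) ∣ a2 ∧ (9 : ℤ) ∣ a0 ∧ ¬ (27 : ℤ) ∣ a0 := by
  have h1 : ¬ (3 : ℤ) ∣ a1 := fun h' => Int.prime_three.not_isUnit (hc01.isUnit_of_dvd' h h')
  have h2 : ¬ (3 : ℤ) ∣ a2 := fun h' => Int.prime_three.not_isUnit (hc02.isUnit_of_dvd' h h')
  refine ⟨h1, h2, ?_, fun h' => h27 (by rw [← hp]; exact (h'.mul_right _).mul_right _)⟩
  have c1 : IsCoprime (3 : ℤ) a1 :=
    (Int.prime_three.irreducible.coprime_iff_not_dvd).2 h1
  have c2 : IsCoprime (3 : ℤ) a2 :=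
    (Int.prime_three.irreducible.coprime_iff_not_dvd).2 h2
  have c3 : IsCoprime (9 : ℤ) (a1 * a2) := by
    have : (9 : ℤ) = 3 ^ 2 := by norm_num
    rw [this]
    exact (c1.mul_right c2).pow_left
  rw [← hp, mul_assoc] at h9
  exact c3.dvd_of_dvd_mul_right h9

theorem main (hSTM : STM) (hSPP : SPP) (hLCL : LCL) {h n E q : ℕ} (hq : q.Prime)
    (hB : BT (BB h n E q))
    {a0 a1 a2 x0 x1 x2 : ℤ} (hx0 : x0 ≠ 0) (hx1 : x1 ≠ 0) (hx2 : x2 ≠ 0)
    (hs : a0 * x0 ^ 3 + a1 * x1 ^ 3 + a2 * x2 ^ 3 = 0) (hp : a0 * a1 * a2 = BB h n E q)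
    (hc : IsCoprime a0 a1) (hc02 : IsCoprime a0 a2) (hc12 : IsCoprime a1 a2)
    (h2 : ¬ IsUnit a0 ∨ ¬ IsUnit a1)
    (hq0 : ¬ (q : ℤ) ∣ a0) (hq1 : ¬ (q : ℤ) ∣ a1) :
    ∃ z X Y : ℤ, Pt (BB h n E q) z X Y ∧ AdT (BB h n E q) z ∧
      (∀ l : ℕ, l.Prime → (l : ℤ) ∣ z → l ∣ 3 * n) ∧ ¬ ∃ t : ℤ, t ^ 3 = z := by
  have hBB : BB h n E q = (3 : ℤ) ^ h * n * (q : ℤ) ^ E := rfl
  set B : ℤ := BB h n E q with hBd
  have ha0 : a0 ≠ 0 := by
    rintro rfl
    exact hB.ne (by rw [← hp]; ring)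
  have ha1 : a1 ≠ 0 := by
    rintro rfl
    exact hB.ne (by rw [← hp]; ring)
  have ha2 : a2 ≠ 0 := by
    rintro rfl
    exact hB.ne (by rw [← hp]; ring)
  have hz0 : a0 ^ 2 * a1 ≠ 0 := mul_ne_zero (pow_ne_zero 2 ha0) ha1
  have heq : a0 ^ 2 * a1 * ((a0 * x0) ^ 3 + a0 ^ 2 * a1 * x1 ^ 3) = B * (-a0 * x2) ^ 3 := by
    rw [← hp]
    linear_combination a0 ^ 4 * a1 * hs
  have hc0 : -a0 * x2 ≠ 0 := mul_ne_zero (neg_ne_zero.2 ha0) hx2
  refine ⟨a0 ^ 2 * a1, a0 * x0, x1, ⟨mul_ne_zero ha0 hx0, hx1, -a0 * x2, hc0, heq⟩, ?_, ?_, ?_⟩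
  · refine ⟨⟨hz0, ?_, ?_⟩, ?_⟩
    · intro π
      have hs := hSTM π.1 π.2.1 (hSPP.2.2.2.1 π).1
      set z : Eis := ((a0 ^ 2 * a1 : ℤ) : Eis) with hz
      set n0 : ℤ := (a0 * x0) ^ 3 + a0 ^ 2 * a1 * x1 ^ 3 with hn0
      have hn0' : n0 ≠ 0 := by
        intro h
        rw [h, mul_zero] at heq
        exact mul_ne_zero hB.ne (pow_ne_zero 3 hc0) heq.symm
      have hzne : z ≠ 0 := cast_ne hz0
      have hBne : (B : Eis) ≠ 0 := cast_ne hB.ne
      have hcne : ((-a0 * x2 : ℤ) : Eis) ≠ 0 := cast_ne hc0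
      have hnne : (n0 : Eis) ≠ 0 := cast_ne hn0'
      have hXne : ((a0 * x0 : ℤ) : Eis) ≠ 0 := cast_ne (mul_ne_zero ha0 hx0)
      have hYne : (x1 : Eis) ≠ 0 := cast_ne hx1
      have e1 : z * (n0 : Eis) = (B : Eis) * ((-a0 * x2 : ℤ) : Eis) ^ 3 := by
        have := congrArg (fun m : ℤ => (m : Eis)) heq
        push_cast at this ⊢
        rw [hz]
        push_cast
        exact this
      have e2 : tm π.1 z (B : Eis) = tm π.1 z (z * (n0 : Eis)) := by
        rw [e1, mul_right hs hzne hBne (pow_ne_zero 3 hcne), s_cube' hs hzne hcne, add_zero]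
      rw [e2, mul_right hs hzne hzne hnne, s_self hs hzne, zero_add]
      have e3 : ((a0 * x0 : ℤ) : Eis) ^ 3 + z * (x1 : Eis) ^ 3 + -(n0 : Eis) = 0 := by
        rw [hz, hn0]
        push_cast
        ring
      have e4 := hs.stein _ _ _ (pow_ne_zero 3 hXne) (mul_ne_zero hzne (pow_ne_zero 3 hYne))
        (neg_ne_zero.2 hnne) e3
      rw [s_cube hs hXne (mul_ne_zero hzne (pow_ne_zero 3 hYne)),
        s_cube' hs (neg_ne_zero.2 hnne) hXne, zero_add, add_zero,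
        s_neg hs (mul_ne_zero hzne (pow_ne_zero 3 hYne)) hnne,
        hs.mul _ _ _ hzne (pow_ne_zero 3 hYne) hnne, s_cube hs hYne hnne, add_zero] at e4
      exact e4
    · intro π hπ h
      apply hπ
      have e1 : (B : Eis) = (a0 : Eis) * a1 * a2 := by
        rw [← hp]
        push_cast
        ring
      have e2 : ((a0 ^ 2 * a1 : ℤ) : Eis) = (a0 : Eis) ^ 2 * a1 := by
        push_cast
        ring
      rw [e2] at h
      rw [e1]
      rcases π.2.1.dvd_or_dvd h with h | h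
      · exact ((π.2.1.dvd_of_dvd_pow h).mul_right _).mul_right _
      · exact (h.mul_left _).mul_right _
    · intro hlv
      obtain ⟨-, hmul, -, hpr, -⟩ := hLCL
      have m1 := hmul a0 a1 ha0 ha1
      have m2 := hmul (a0 * a1) a2 (mul_ne_zero ha0 ha1) ha2
      have m3 := hmul a0 a0 ha0 ha0
      have m4 := hmul (a0 ^ 2) a1 (pow_ne_zero 2 ha0) ha1
      rw [← pow_two] at m3
      rw [hp, m1.1, m1.2] at m2
      rw [m3.1, m3.2] at m4
      have h9 : (9 : ℤ) ∣ B := by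
        have hv1 : padicValInt 3 B < 3 := by
          by_contra hcon
          have : ((3 : ℕ) : ℤ) ^ 3 ∣ B := (padicValInt_dvd_iff 3 B).2 (Or.inr (by omega))
          exact hB.t2 (by simpa using this)
        have hv2 : padicValInt 3 B = 2 := by
          unfold lv at hlv
          generalize padicValInt 3 B = v at hlv hv1
          interval_cases v
          · exact absurd hlv (by decide)
          · exact absurd hlv (by decide)
          · rfl
        have : ((3 : ℕ) : ℤ) ^ 2 ∣ B := (padicValInt_dvd_iff 2 B).2 (Or.inr hv2.ge)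
        simpa using this
      have h3d : (3 : ℤ) ∣ a0 ∨ (3 : ℤ) ∣ a1 ∨ (3 : ℤ) ∣ a2 := by
        have h3B : (3 : ℤ) ∣ a0 * a1 * a2 := by rw [hp]; exact hB.t1
        rcases Int.prime_three.dvd_or_dvd h3B with h | h
        · rcases Int.prime_three.dvd_or_dvd h with h | h
          · exact Or.inl h
          · exact Or.inr (Or.inl h)
        · exact Or.inr (Or.inr h)
      rw [m4.1, m4.2]
      rcases h3d with h3 | h3 | h3
      · obtain ⟨n1, n2, n3, n4⟩ := split9 hp hc hc02 h9 hB.t2 h3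
        have w := wild0 a1 a2 a0 n1 n3 n4 _ x1 x2 x0 le_rfl hx1 (by linear_combination hs) n2
        obtain ⟨v1, u1⟩ := hpr a1 n1
        obtain ⟨v2, u2⟩ := hpr a2 n2
        rw [v1, v2, hlv] at m2
        rw [m2.2, u2, ← w, ← u1, v1]
        have v0 : lv a0 = 2 := by
          have := m2.1
          linear_combination -this
        rw [v0]
        generalize lw a0 = s
        generalize lw a1 = t
        revert s t
        decide
      · obtain ⟨n1, n2, n3, n4⟩ := split9 (a0 := a1) (a1 := a0) (a2 := a2)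
          (by rw [← hp]; ring) hc.symm hc12 h9 hB.t2 h3
        have w := wild0 a0 a2 a1 n1 n3 n4 _ x0 x2 x1 le_rfl hx0 (by linear_combination hs) n2
        obtain ⟨v1, u1⟩ := hpr a0 n1
        obtain ⟨v2, u2⟩ := hpr a2 n2
        rw [v1, v2, hlv] at m2
        rw [m2.2, u2, ← w, ← u1, v1]
        have v0 : lv a1 = 2 := by
          have := m2.1
          linear_combination -this
        rw [v0]
        generalize lw a0 = s
        generalize lw a1 = t
        revert s t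
        decide
      · obtain ⟨n1, n2, n3, n4⟩ := split9 (a0 := a2) (a1 := a0) (a2 := a1)
          (by rw [← hp]; ring) hc02.symm hc12.symm h9 hB.t2 h3
        have w := wild0 a0 a1 a2 n1 n3 n4 _ x0 x1 x2 le_rfl hx0 hs n2
        obtain ⟨v1, u1⟩ := hpr a0 n1
        obtain ⟨v2, u2⟩ := hpr a1 n2
        rw [u2, ← w, ← u1, v1, v2]
        generalize lw a0 = s
        generalize lw B = t
        revert s t
        decide
  · intro l hl h
    have hl' : Prime (l : ℤ) := Nat.prime_iff_prime_int.1 hl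
    have h1 : (l : ℤ) ∣ a0 ∨ (l : ℤ) ∣ a1 := by
      rcases hl'.dvd_or_dvd h with h | h
      · exact Or.inl (hl'.dvd_of_dvd_pow h)
      · exact Or.inr h
    have h3 : (l : ℤ) ∣ B := by
      rw [← hp]
      rcases h1 with h1 | h1
      · exact (h1.mul_right _).mul_right _
      · exact (h1.mul_left _).mul_right _
    rw [hBB] at h3
    rcases hl'.dvd_or_dvd h3 with h4 | h4
    · rcases hl'.dvd_or_dvd h4 with h5 | h5
      · have h6 : (l : ℤ) ∣ 3 := hl'.dvd_of_dvd_pow h5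
        have h7 : l ∣ 3 := by exact_mod_cast h6
        exact h7.mul_right _
      · have h7 : l ∣ n := by exact_mod_cast h5
        exact h7.mul_left _
    · exfalso
      have h5 : l ∣ q := by
        have := hl'.dvd_of_dvd_pow h4
        exact_mod_cast this
      have h6 : l = q := (Nat.prime_dvd_prime_iff_eq hl hq).1 h5
      rw [h6] at h1
      exact h1.elim hq0 hq1
  · rintro ⟨t, ht⟩
    have hc' : IsCoprime (a0 ^ 2) a1 := hc.pow_left
    obtain ⟨e, he⟩ := Int.eq_pow_of_mul_eq_pow_odd_left hc' (by decide : Odd 3) ht.symm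
    obtain ⟨f, hf⟩ := Int.eq_pow_of_mul_eq_pow_odd_right hc' (by decide : Odd 3) ht.symm
    rcases h2 with h2 | h2
    · -- `a0` is a cube
      have h3 : e ∣ a0 := by
        rw [← Int.pow_dvd_pow_iff (n := 3) (by norm_num)]
        exact ⟨a0, by rw [← he]; ring⟩
      obtain ⟨g, hg⟩ := h3
      have he0 : e ≠ 0 := by
        rintro rfl
        exact ha0 (by rw [hg, zero_mul])
      have h4 : g ^ 2 = e := by
        have h5 : e ^ 2 * g ^ 2 = e ^ 2 * e := by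
          rw [← mul_pow, ← hg, he]
          ring
        exact mul_left_cancel₀ (pow_ne_zero 2 he0) h5
      have h5 : a0 = g ^ 3 := by rw [hg, ← h4]; ring
      have h6 : ¬ IsUnit g := fun h => h2 (by rw [h5]; exact h.pow 3)
      have h7 : g.natAbs ≠ 1 := fun h => h6 (Int.isUnit_iff_natAbs_eq.2 h)
      obtain ⟨l, hl, hlg⟩ := Nat.exists_prime_and_dvd h7
      refine no_cube hSPP hB hl ?_
      have h8 : (l : ℤ) ∣ g := Int.natCast_dvd.2 hlg
      refine (pow_dvd_pow_of_dvd h8 3).trans ?_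
      rw [← h5, ← hp]
      exact ⟨a1 * a2, by ring⟩
    · have h6 : ¬ IsUnit f := fun h => h2 (by rw [hf]; exact h.pow 3)
      have h7 : f.natAbs ≠ 1 := fun h => h6 (Int.isUnit_iff_natAbs_eq.2 h)
      obtain ⟨l, hl, hlg⟩ := Nat.exists_prime_and_dvd h7
      refine no_cube hSPP hB hl ?_
      have h8 : (l : ℤ) ∣ f := Int.natCast_dvd.2 hlg
      refine (pow_dvd_pow_of_dvd h8 3).trans ?_
      rw [← hf, ← hp]
      exact ⟨a0 * a2, by ring⟩

end FD2T

open _root_.Pool.Agent.PT3.FD2T in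
theorem FD2T_thm (hSTM : STM) (hSPP : SPP) (hLCL : LCL) : FD2T := by
  intro h n E q a x _ hE hq _ _ _ hB hcell
  obtain ⟨hne, hsum, hprod, hcop, htwo, -⟩ := hcell
  rw [Fin.sum_univ_three] at hsum
  rw [Fin.prod_univ_three] at hprod
  have hq' : Prime (q : ℤ) := Nat.prime_iff_prime_int.1 hq
  have hqd : (q : ℤ) ∣ a 0 * a 1 * a 2 := by
    rw [hprod]
    have hE0 : E ≠ 0 := by rcases hE with h | h <;> omega
    exact (dvd_pow_self _ hE0).mul_left _
  have hnot : ∀ i j, i ≠ j → (q : ℤ) ∣ a i → ¬ (q : ℤ) ∣ a j := fun i j hij h1 h2 =>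
    hq'.not_isUnit ((hcop i j hij).isUnit_of_dvd' h1 h2)
  have hk : (q : ℤ) ∣ a 0 ∨ (q : ℤ) ∣ a 1 ∨ (q : ℤ) ∣ a 2 := by
    rcases hq'.dvd_or_dvd hqd with h | h
    · rcases hq'.dvd_or_dvd h with h | h
      · exact Or.inl h
      · exact Or.inr (Or.inl h)
    · exact Or.inr (Or.inr h)
  rcases hk with h | h | h
  · refine main hSTM hSPP hLCL (a0 := a 1) (a1 := a 2) (a2 := a 0) hq hB (hne 1) (hne 2) (hne 0)
      (by linear_combination hsum) (by linear_combination hprod) (hcop 1 2 (by decide))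
      (hcop 1 0 (by decide)) (hcop 2 0 (by decide)) ?_
      (hnot 0 1 (by decide) h) (hnot 0 2 (by decide) h)
    obtain ⟨j, hj, hu⟩ := htwo 0
    fin_cases j
    · exact absurd rfl hj
    · exact Or.inl hu
    · exact Or.inr hu
  · refine main hSTM hSPP hLCL (a0 := a 0) (a1 := a 2) (a2 := a 1) hq hB (hne 0) (hne 2) (hne 1)
      (by linear_combination hsum) (by linear_combination hprod) (hcop 0 2 (by decide))
      (hcop 0 1 (by decide)) (hcop 2 1 (by decide)) ?_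
      (hnot 1 0 (by decide) h) (hnot 1 2 (by decide) h)
    obtain ⟨j, hj, hu⟩ := htwo 1
    fin_cases j
    · exact Or.inl hu
    · exact absurd rfl hj
    · exact Or.inr hu
  · refine main hSTM hSPP hLCL (a0 := a 0) (a1 := a 1) (a2 := a 2) hq hB (hne 0) (hne 1) (hne 2)
      (by linear_combination hsum) (by linear_combination hprod) (hcop 0 1 (by decide))
      (hcop 0 2 (by decide)) (hcop 1 2 (by decide)) ?_
      (hnot 2 0 (by decide) h) (hnot 2 1 (by decide) h)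
    obtain ⟨j, hj, hu⟩ := htwo 2
    fin_cases j
    · exact Or.inl hu
    · exact Or.inr hu
    · exact absurd rfl hj

end Pool.Agent.PT3

end

section

/-!
# LCL: local cubes at `lam` and symbols of rational numbers
-/

namespace Pool.Agent.PT3

open Pool.Agent.Lib_helper18 Pool.Agent.Lib_helper18.Eis Pool.Agent.Lib_helper84.Cub
open Pool.Agent.PT Pool.Agent.PTE

namespace LCL

/-! ### The part prime to three -/

theorem split {b : ℤ} (hb : b ≠ 0) : ∃ (k : ℕ) (c : ℤ), b = 3 ^ k * c ∧ ¬ (3 : ℤ) ∣ c := by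
  have h3 : Prime (3 : ℤ) := Int.prime_three
  obtain ⟨c, hc, hpc⟩ := (FiniteMultiplicity.of_prime_left h3 hb).exists_eq_pow_mul_and_not_dvd
  exact ⟨_, c, hc, hpc⟩

theorem val_eq {k : ℕ} {c : ℤ} (hc : ¬ (3 : ℤ) ∣ c) : padicValInt 3 (3 ^ k * c) = k := by
  have : Fact (Nat.Prime 3) := ⟨Nat.prime_three⟩
  have hc0 : c ≠ 0 := by
    rintro rfl
    exact hc (dvd_zero _)
  have h1 : padicValInt 3 c = 0 := padicValInt.eq_zero_of_not_dvd hc
  have h3 : padicValInt 3 (3 : ℤ) = 1 := padicValInt_self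
  rw [padicValInt.mul (pow_ne_zero _ (by norm_num)) hc0, h1, add_zero]
  have h2 : ∀ n : ℕ, padicValInt 3 ((3 : ℤ) ^ n) = n := by
    intro n
    induction n with
    | zero => rw [pow_zero]; exact padicValInt.one
    | succ n ih =>
      rw [pow_succ, padicValInt.mul (pow_ne_zero _ (by norm_num)) (by norm_num), ih, h3]
  exact h2 k

theorem spec {b : ℤ} {k : ℕ} {c : ℤ} (hb : b = 3 ^ k * c) (hc : ¬ (3 : ℤ) ∣ c) :
    lv b = (k : ZMod 3) ∧ lw b = wt (c ^ 2) := by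
  subst hb
  unfold lv lw
  rw [val_eq hc]
  refine ⟨rfl, ?_⟩
  rw [Int.mul_ediv_cancel_left _ (pow_ne_zero _ (by norm_num))]

theorem not_dvd_mul {a b : ℤ} (ha : ¬ (3 : ℤ) ∣ a) (hb : ¬ (3 : ℤ) ∣ b) : ¬ (3 : ℤ) ∣ a * b :=
  fun h => (Int.prime_three.dvd_or_dvd h).elim ha hb

theorem mul_spec {a b : ℤ} (ha : a ≠ 0) (hb : b ≠ 0) :
    lv (a * b) = lv a + lv b ∧ lw (a * b) = lw a + lw b := by
  obtain ⟨k, c, h1, h2⟩ := split ha
  obtain ⟨k', c', h1', h2'⟩ := split hb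
  have h3 : a * b = 3 ^ (k + k') * (c * c') := by
    rw [h1, h1']
    ring
  obtain ⟨e1, e2⟩ := spec h1 h2
  obtain ⟨e3, e4⟩ := spec h1' h2'
  obtain ⟨e5, e6⟩ := spec h3 (not_dvd_mul h2 h2')
  rw [e1, e2, e3, e4, e5, e6, mul_pow]
  refine ⟨by push_cast; rfl, ?_⟩
  exact wt_mul (sq_mod_three h2) (sq_mod_three h2')

theorem wt_zero_iff {c : ℤ} (hc : ¬ (3 : ℤ) ∣ c) : wt (c ^ 2) = 0 ↔ C9 c := by
  obtain ⟨t, r, ht, hr0, hr9⟩ : ∃ t r : ℤ, c = 9 * t + r ∧ 0 ≤ r ∧ r < 9 :=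
    ⟨c / 9, c % 9, by omega, by omega, by omega⟩
  have h1 : c ^ 2 % 9 = r ^ 2 % 9 := by
    have e : c ^ 2 = r ^ 2 + 9 * (9 * t ^ 2 + 2 * t * r) := by rw [ht]; ring
    rw [e]
    omega
  have h2 := sq_mod_three hc
  have h3 : wt (c ^ 2) = 0 ↔ c ^ 2 % 9 = 1 := by
    unfold wt
    rw [ZMod.intCast_zmod_eq_zero_iff_dvd]
    generalize c ^ 2 = s at h2 ⊢
    push_cast
    omega
  rw [h3, h1]
  unfold C9
  have h4 : c % 9 = r := by omega
  rw [h4]
  have hr3 : r % 3 ≠ 0 := by omega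
  interval_cases r <;> simp_all

theorem cube_C9 {s c : ℤ} (hs : ¬ (3 : ℤ) ∣ s) (h : (9 : ℤ) ∣ s ^ 3 - c) : C9 c := by
  obtain ⟨t, r, ht, hr0, hr3⟩ : ∃ t r : ℤ, s = 3 * t + r ∧ 0 < r ∧ r < 3 :=
    ⟨s / 3, s % 3, by omega, by omega, by omega⟩
  have e : s ^ 3 = r ^ 3 + 9 * (3 * t ^ 3 + 3 * t ^ 2 * r + t * r ^ 2) := by rw [ht]; ring
  rw [e] at h
  unfold C9
  generalize 3 * t ^ 3 + 3 * t ^ 2 * r + t * r ^ 2 = T at h
  interval_cases r
  · left
    omega
  · right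
    omega

theorem lam_sq : lam ^ 2 = 3 * (-w) := by decide

/-- local cubes in terms of rational integers -/
theorem int_of_LC {b : ℤ} (h : LC lam b) (N : ℕ) : ∃ r : ℤ, (3 : ℤ) ^ N ∣ r ^ 3 - b := by
  obtain ⟨r, hr⟩ := h (2 * N)
  refine ⟨r, intCast_dvd_intCast.1 ?_⟩
  have h1 : (((3 : ℤ) ^ N : ℤ) : Eis) ∣ lam ^ (2 * N) := by
    rw [pow_mul, lam_sq, mul_pow, Int.cast_pow, ← three_eq_cast]
    exact dvd_mul_right _ _
  refine (h1.trans hr).trans (dvd_of_eq ?_)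
  push_cast
  ring

theorem first (b : ℤ) (hb : b ≠ 0) : LC lam b ↔ lv b = 0 ∧ lw b = 0 := by
  obtain ⟨k, c, h1, h2⟩ := split hb
  obtain ⟨e1, e2⟩ := spec h1 h2
  rw [e1, e2, ZMod.natCast_eq_zero_iff, wt_zero_iff h2]
  constructor
  · intro h
    obtain ⟨r, hr⟩ := int_of_LC h (k + 2)
    have hr0 : r ≠ 0 := by
      rintro rfl
      apply h2
      have h3 : (3 : ℤ) ^ (k + 1) ∣ 3 ^ k * c := by
        rw [← h1]
        have h4 : (0 : ℤ) ^ 3 - b = -b := by ring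
        rw [h4, dvd_neg] at hr
        exact (pow_dvd_pow 3 (by omega)).trans hr
      rw [pow_succ] at h3
      exact (mul_dvd_mul_iff_left (pow_ne_zero k (by norm_num))).1 h3
    obtain ⟨j, s, h3, h4⟩ := split hr0
    have h5 : r ^ 3 - b = 3 ^ (3 * j) * s ^ 3 - 3 ^ k * c := by
      rw [h3, h1, mul_pow, ← pow_mul, mul_comm j 3]
    rw [h5] at hr
    have hs3 : ¬ (3 : ℤ) ∣ s ^ 3 := fun h => h4 (Int.prime_three.dvd_of_dvd_pow h)
    have hk : k = 3 * j := by
      rcases lt_trichotomy k (3 * j) with hlt | he | hgt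
      · exfalso
        apply h2
        have h6 : (3 : ℤ) ^ (k + 1) ∣ 3 ^ (3 * j) * s ^ 3 :=
          (pow_dvd_pow 3 hlt).mul_right _
        have h7 : (3 : ℤ) ^ (k + 1) ∣ 3 ^ (3 * j) * s ^ 3 - 3 ^ k * c :=
          (pow_dvd_pow 3 (by omega)).trans hr
        have h8 := dvd_sub h6 h7
        rw [sub_sub_cancel, pow_succ] at h8
        exact (mul_dvd_mul_iff_left (pow_ne_zero k (by norm_num))).1 h8
      · exact he
      · exfalso
        apply hs3
        have h6 : (3 : ℤ) ^ (3 * j + 1) ∣ 3 ^ k * c := (pow_dvd_pow 3 hgt).mul_right _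
        have h7 : (3 : ℤ) ^ (3 * j + 1) ∣ 3 ^ (3 * j) * s ^ 3 - 3 ^ k * c :=
          (pow_dvd_pow 3 (by omega)).trans hr
        have h8 := dvd_add h7 h6
        rw [sub_add_cancel, pow_succ] at h8
        exact (mul_dvd_mul_iff_left (pow_ne_zero (3 * j) (by norm_num))).1 h8
    refine ⟨⟨j, hk⟩, cube_C9 h4 ?_⟩
    rw [← hk, ← mul_sub, pow_add] at hr
    have h9 := (mul_dvd_mul_iff_left (pow_ne_zero k (by norm_num : (3 : ℤ) ≠ 0))).1 hr
    norm_num at h9
    exact h9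
  · rintro ⟨⟨j, rfl⟩, hc⟩ N
    obtain ⟨r, hr⟩ := (LCI.second c h2).2 hc N
    refine ⟨3 ^ j * r, hr.trans ⟨3 ^ (3 * j), ?_⟩⟩
    rw [h1]
    push_cast
    ring

/-! ### Symbols -/

theorem zmod_two {x : ZMod 3} (h : x = -x) : x = 0 := by
  revert x
  decide

theorem mul_right (hSSL : SSL) {a b c : Eis} (ha : a ≠ 0) (hb : b ≠ 0) (hc : c ≠ 0) :
    sl c (a * b) = sl c a + sl c b := by
  rw [hSSL.2.1 (a * b) c (mul_ne_zero ha hb) hc, hSSL.1 a b c ha hb hc, hSSL.2.1 a c ha hc,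
    hSSL.2.1 b c hb hc]
  ring

theorem w_ne : (w : Eis) ≠ 0 := by decide

theorem lam_ne : (lam : Eis) ≠ 0 := by decide

theorem sl_one (hSSL : SSL) {c : Eis} (hc : c ≠ 0) : sl c 1 = 0 := by
  have h := mul_right hSSL (one_ne_zero) (one_ne_zero) hc
  rw [mul_one] at h
  have h2 : sl c 1 + 0 = sl c 1 + sl c 1 := by rw [add_zero]; exact h
  exact (add_left_cancel h2).symm

theorem sl_neg_one (hSSL : SSL) {c : Eis} (hc : c ≠ 0) : sl c (-1) = 0 := by
  have hm : (-1 : Eis) ≠ 0 := neg_ne_zero.2 one_ne_zero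
  have h := mul_right hSSL hm hm hc
  rw [neg_one_mul, neg_neg, sl_one hSSL hc] at h
  exact zmod_two (eq_neg_of_add_eq_zero_left h.symm)

theorem sl_w_three (hSSL : SSL) (hSREC : SREC) : sl w 3 = 0 := by
  have h3 : (3 : Eis) = (-1) * ((w * w) * (lam * lam)) := by decide
  have hm : (-1 : Eis) ≠ 0 := neg_ne_zero.2 one_ne_zero
  have hww : sl w w = 0 := zmod_two (hSSL.2.1 w w w_ne w_ne)
  rw [h3, mul_right hSSL hm (mul_ne_zero (mul_ne_zero w_ne w_ne) (mul_ne_zero lam_ne lam_ne)) w_ne,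
    mul_right hSSL (mul_ne_zero w_ne w_ne) (mul_ne_zero lam_ne lam_ne) w_ne,
    mul_right hSSL w_ne w_ne w_ne, mul_right hSSL lam_ne lam_ne w_ne, hSREC.2.2.2, hww,
    sl_neg_one hSSL w_ne]
  ring

theorem three_ne : ((3 : Eis)) ≠ 0 := by decide

theorem sl_w_pow (hSSL : SSL) (hSREC : SREC) (k : ℕ) : sl w ((3 : Eis) ^ k) = 0 := by
  induction k with
  | zero => rw [pow_zero]; exact sl_one hSSL w_ne
  | succ k ih =>
    rw [pow_succ, mul_right hSSL (pow_ne_zero _ three_ne) three_ne w_ne, ih,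
      sl_w_three hSSL hSREC, add_zero]

theorem fifth (hSSL : SSL) (hSREC : SREC) (b : ℤ) (hb : b ≠ 0) : sl w (b : Eis) = - lw b := by
  obtain ⟨k, c, h1, h2⟩ := split hb
  obtain ⟨e1, e2⟩ := spec h1 h2
  have hc0 : c ≠ 0 := by
    rintro rfl
    exact h2 (dvd_zero _)
  have hcE := LCI.cast_ne_zero hc0
  have h3 : (b : Eis) = (3 : Eis) ^ k * (c : Eis) := by
    rw [h1]
    push_cast
    rfl
  have hP : Prim (c : Eis) := by
    refine ⟨?_, ?_⟩
    · rw [intCast_im]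
      exact dvd_zero _
    · rw [intCast_re]
      exact h2
  rw [h3, mul_right hSSL (pow_ne_zero _ three_ne) hcE w_ne, sl_w_pow hSSL hSREC, zero_add,
    hSSL.2.1 (c : Eis) w hcE w_ne, hSREC.2.1 _ hP, LCI.norm_int, e2]

theorem seventh (a b : ℤ) (ha : a ≠ 0) (hb : b ≠ 0) (h1 : lv a = lv b) (h2 : lw a = lw b) :
    LC lam (a * b ^ 2) := by
  have hbb := mul_spec hb hb
  have hab := mul_spec ha (mul_ne_zero hb hb)
  have h3 : ∀ x : ZMod 3, x + (x + x) = 0 := by decide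
  rw [pow_two, first _ (mul_ne_zero ha (mul_ne_zero hb hb)), hab.1, hab.2, hbb.1, hbb.2, h1, h2]
  exact ⟨h3 _, h3 _⟩

theorem sixth (hSSL : SSL) (hSLC : SLC) (a b : ℤ) (c : Eis) (ha : a ≠ 0) (hb : b ≠ 0)
    (hc : c ≠ 0) (h1 : lv a = lv b) (h2 : lw a = lw b) : sl c (a : Eis) = sl c (b : Eis) := by
  have h3 := LCI.third lam sl 4 (a * b ^ 2) c hSLC (seventh a b ha hb h1 h2)
    (mul_ne_zero ha (pow_ne_zero _ hb)) hc
  have haE := LCI.cast_ne_zero ha
  have hbE := LCI.cast_ne_zero hb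
  have h4 : ((a * b ^ 2 : ℤ) : Eis) = (a : Eis) * ((b : Eis) * (b : Eis)) := by
    push_cast
    ring
  rw [h4, hSSL.1 _ _ c haE (mul_ne_zero hbE hbE) hc, hSSL.1 _ _ c hbE hbE hc] at h3
  rw [hSSL.2.1 (a : Eis) c haE hc, hSSL.2.1 (b : Eis) c hbE hc]
  have h5 : ∀ x y : ZMod 3, x + (y + y) = 0 → -x = -y := by decide
  exact h5 _ _ h3

end LCL

theorem LCL_thm (_hSTM : STM) (_hSPP : SPP) (hSSL : SSL) (hSLC : SLC) (hSREC : SREC)
    (_hSCJ : SCJ) (_hLCI : LCI) : LCL := by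
  refine ⟨LCL.first, fun a b ha hb => LCL.mul_spec ha hb, ?_, ?_, LCL.fifth hSSL hSREC,
    fun a b c ha hb hc h1 h2 => LCL.sixth hSSL hSLC a b c ha hb hc h1 h2,
    fun a b ha hb h1 h2 => LCL.seventh a b ha hb h1 h2⟩
  · obtain ⟨e1, e2⟩ := LCL.spec (b := 3) (k := 1) (c := 1) (by norm_num) (by norm_num)
    rw [e1, e2]
    refine ⟨by norm_num, ?_⟩
    rw [one_pow, wt_one]
  · intro b hb
    obtain ⟨e1, e2⟩ := LCL.spec (b := b) (k := 0) (c := b) (by ring) hb
    rw [e1, e2]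
    exact ⟨by norm_num, rfl⟩

end Pool.Agent.PT3

end

section

/-!
# NPLU: the class of a point of the isogenous curve (every `n`)
-/

set_option autoImplicit false

namespace Pool.Agent.PTN

open Pool.Agent.Lib_helper18 Pool.Agent.Lib_helper18.Eis Pool.Agent.Lib_helper84.Cub
open Pool.Agent.PT Pool.Agent.PTE Pool.Agent.PT3

namespace NPLU

open Pool.Agent.PT.FD2 (s_cube s_cube' s_self mul_right s_neg)
open Pool.Agent.PT.FDC (CF exists_cf cf_unique)
open Pool.Agent.PT3.FD2T (wild0 split9)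

theorem cf_one : CF 1 := fun _ hp h =>
  hp.not_isUnit (isUnit_of_dvd_one ((dvd_pow_self _ (by norm_num)).trans h))

theorem cf_prime_pow {p : ℕ} (hp : p.Prime) {e : ℕ} (he : e ≤ 2) : CF ((p : ℤ) ^ e) := by
  intro ρ hρ h
  have hp' : Prime (p : ℤ) := Nat.prime_iff_prime_int.1 hp
  have h1 : ρ ∣ (p : ℤ) := hρ.dvd_of_dvd_pow ((dvd_pow_self ρ (by norm_num)).trans h)
  have h2 : Associated ρ (p : ℤ) := (hρ.dvd_prime_iff_associated hp').1 h1
  have h3 : (p : ℤ) ^ 3 ∣ (p : ℤ) ^ e := ((h2.pow_pow (n := 3)).symm.dvd).trans h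
  have h4 : 3 ≤ e := (pow_dvd_pow_iff hp'.ne_zero hp'.not_isUnit).1 h3
  omega

theorem cf_prod {ι : Type} (s : Finset ι) (f : ι → ℤ) (h : ∀ i ∈ s, CF (f i))
    (hc : ∀ i ∈ s, ∀ j ∈ s, i ≠ j → IsCoprime (f i) (f j)) : CF (∏ i ∈ s, f i) := by
  classical
  induction s using Finset.induction_on with
  | empty => simpa using cf_one
  | insert a s ha ih =>
    rw [Finset.prod_insert ha]
    refine FDC.CF.mul (h a (Finset.mem_insert_self a s))
      (ih (fun i hi => h i (Finset.mem_insert_of_mem hi))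
        (fun i hi j hj => hc i (Finset.mem_insert_of_mem hi) j (Finset.mem_insert_of_mem hj))) ?_
    refine IsCoprime.prod_right fun i hi => hc a (Finset.mem_insert_self a s) i
      (Finset.mem_insert_of_mem hi) ?_
    rintro rfl
    exact ha hi

theorem cop {p q : ℕ} (hp : p.Prime) (hq : q.Prime) (h : p ≠ q) (e f : ℕ) :
    IsCoprime ((p : ℤ) ^ e) ((q : ℤ) ^ f) := by
  have h1 : Nat.Coprime p q := (Nat.coprime_primes hp hq).2 h
  exact (Nat.isCoprime_iff_coprime.2 h1).pow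

theorem cf_B {h n m k : ℕ} {π : Fin m → PP} {p e : Fin m → ℕ} {r f : Fin k → ℕ} {E q : ℕ}
    (hN : NF n π p e r f) (hh : h ≤ 2) (hE : E = 1 ∨ E = 2) (hq : q.Prime) (hq3 : q ≠ 3)
    (hqn : ¬ q ∣ n) : CF (BB h n E q) := by
  have hn : (n : ℤ) = (∏ i, (p i : ℤ) ^ e i) * ∏ j, (r j : ℤ) ^ f j := by
    rw [hN.eq]
    push_cast
    rfl
  have hpr : ∀ i j, p i ≠ r j := fun i j h => by
    have h1 := hN.p1 i
    have h2 := hN.r2 j
    rw [h] at h1
    omega
  have h3p : ∀ i, 3 ≠ p i := fun i h => by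
    have h1 := hN.p1 i
    rw [← h] at h1
    omega
  have h3r : ∀ i, 3 ≠ r i := fun i h => by
    have h1 := hN.r2 i
    rw [← h] at h1
    omega
  have hcn : CF (n : ℤ) := by
    rw [hn]
    refine FDC.CF.mul (cf_prod _ _ (fun i _ => cf_prime_pow (hN.pp i) ?_) fun i _ j _ hij =>
      cop (hN.pp i) (hN.pp j) (fun h => hij (hN.pinj h)) _ _)
      (cf_prod _ _ (fun i _ => cf_prime_pow (hN.rp i) ?_) fun i _ j _ hij =>
      cop (hN.rp i) (hN.rp j) (fun h => hij (hN.rinj h)) _ _) ?_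
    · rcases hN.pe i with h | h <;> omega
    · rcases hN.rf i with h | h <;> omega
    · exact IsCoprime.prod_left fun i _ => IsCoprime.prod_right fun j _ =>
        cop (hN.pp i) (hN.rp j) (hpr i j) _ _
  have h3n : IsCoprime ((3 : ℤ) ^ h) (n : ℤ) := by
    rw [hn]
    refine IsCoprime.mul_right (IsCoprime.prod_right fun i _ => ?_)
      (IsCoprime.prod_right fun i _ => ?_)
    · exact_mod_cast cop Nat.prime_three (hN.pp i) (h3p i) h (e i)
    · exact_mod_cast cop Nat.prime_three (hN.rp i) (h3r i) h (f i)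
  have hqn' : IsCoprime (n : ℤ) ((q : ℤ) ^ E) := by
    have h1 : Nat.Coprime q n := (Nat.Prime.coprime_iff_not_dvd hq).2 hqn
    exact ((Nat.isCoprime_iff_coprime.2 h1).symm).pow_right
  unfold BB
  refine FDC.CF.mul (FDC.CF.mul ?_ hcn h3n) (cf_prime_pow hq ?_) (IsCoprime.mul_left ?_ hqn')
  · exact_mod_cast cf_prime_pow Nat.prime_three hh
  · rcases hE with h | h <;> omega
  · exact_mod_cast cop Nat.prime_three hq (Ne.symm hq3) h E

/-- splitting into cells -/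
theorem cells {B m : ℤ} {A : Fin 3 → ℤ} (hB : CF B) (hA : ∀ k, A k ≠ 0)
    (hprod : A 0 * A 1 * A 2 = B * m ^ 3) (hcop : ∀ i j, i ≠ j → IsCoprime (A i) (A j)) :
    ∃ a x : Fin 3 → ℤ, (∀ k, A k = a k * x k ^ 3) ∧ a 0 * a 1 * a 2 = B := by
  choose a x hax hcf using fun k => exists_cf (A k) (hA k)
  have hx0 : ∀ k, x k ≠ 0 := by
    intro k h
    apply hA k
    rw [hax k, h]; ring
  have hm0 : m ≠ 0 := by
    rintro rfl
    have : A 0 * A 1 * A 2 = 0 := by rw [hprod]; ring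
    exact mul_ne_zero (mul_ne_zero (hA 0) (hA 1)) (hA 2) this
  have hca : ∀ i j, i ≠ j → IsCoprime (a i) (a j) := by
    intro i j hij
    have h := hcop i j hij
    rw [hax i, hax j] at h
    exact h.of_mul_left_left.of_mul_right_left
  have hP : CF (a 0 * a 1 * a 2) := FDC.CF.mul
    (FDC.CF.mul (hcf 0) (hcf 1) (hca 0 1 (by decide))) (hcf 2)
    (IsCoprime.mul_left (hca 0 2 (by decide)) (hca 1 2 (by decide)))
  have hu := cf_unique hB hP hm0
    (mul_ne_zero (mul_ne_zero (hx0 0) (hx0 1)) (hx0 2)) (by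
      rw [← hprod, hax 0, hax 1, hax 2]; ring)
  rcases hu with hu | hu
  · exact ⟨a, x, hax, hu⟩
  · exact ⟨fun k => -a k, fun k => -x k, fun k => by rw [hax k]; ring,
      by linear_combination -hu⟩

theorem wt_zero {x : ℤ} (h3 : ¬ (3 : ℤ) ∣ x) : wt (x ^ 2) = 0 ↔ C9 x := by
  have h : x % 9 = 1 ∨ x % 9 = 2 ∨ x % 9 = 4 ∨ x % 9 = 5 ∨ x % 9 = 7 ∨ x % 9 = 8 := by omega
  have e : wt (x ^ 2) = wt ((x % 9) ^ 2) := by
    refine FDC.wt_congr ?_
    rw [pow_two, pow_two, Int.mul_emod]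
  rw [e, C9]
  rcases h with h | h | h | h | h | h <;> rw [h] <;> decide

/-- the main part -/
theorem main (hSTM : STM) (hSPP : SPP) (hLCL : LCL) {h n E q : ℕ} (hq : q.Prime)
    (hB : CF (BB h n E q)) (hB0 : BB h n E q ≠ 0)
    {a0 a1 a2 x0 x1 x2 : ℤ} (hx0 : x0 ≠ 0) (hx1 : x1 ≠ 0) (hx2 : x2 ≠ 0)
    (hs : a0 * x0 ^ 3 + a1 * x1 ^ 3 + a2 * x2 ^ 3 = 0) (hp : a0 * a1 * a2 = BB h n E q)
    (hc : IsCoprime (a0 * x0 ^ 3) (a1 * x1 ^ 3)) (hc02 : IsCoprime (a0 * x0 ^ 3) (a2 * x2 ^ 3))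
    (hc12 : IsCoprime (a1 * x1 ^ 3) (a2 * x2 ^ 3))
    (hq0 : ¬ (q : ℤ) ∣ a0) (hq1 : ¬ (q : ℤ) ∣ a1) :
    Pt (BB h n E q) (a0 ^ 2 * a1) (a0 * x0) x1 ∧ AG (BB h n E q) (a0 ^ 2 * a1) ∧
      Loc (BB h n E q) (a0 ^ 2 * a1) ∧
      ∀ l : ℕ, l.Prime → (l : ℤ) ∣ a0 ^ 2 * a1 → l ∣ 3 * n := by
  have hBB : BB h n E q = (3 : ℤ) ^ h * n * (q : ℤ) ^ E := rfl
  set B : ℤ := BB h n E q with hBd
  have h27 : ¬ (27 : ℤ) ∣ B := fun h => hB 3 Int.prime_three (by norm_num; exact h)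
  have ca : IsCoprime a0 a1 := hc.of_mul_left_left.of_mul_right_left
  have ca02 : IsCoprime a0 a2 := hc02.of_mul_left_left.of_mul_right_left
  have ca12 : IsCoprime a1 a2 := hc12.of_mul_left_left.of_mul_right_left
  have ha0 : a0 ≠ 0 := by
    rintro rfl
    exact hB0 (by rw [← hp]; ring)
  have ha1 : a1 ≠ 0 := by
    rintro rfl
    exact hB0 (by rw [← hp]; ring)
  have ha2 : a2 ≠ 0 := by
    rintro rfl
    exact hB0 (by rw [← hp]; ring)
  have hz0 : a0 ^ 2 * a1 ≠ 0 := mul_ne_zero (pow_ne_zero 2 ha0) ha1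
  have heq : a0 ^ 2 * a1 * ((a0 * x0) ^ 3 + a0 ^ 2 * a1 * x1 ^ 3) = B * (-a0 * x2) ^ 3 := by
    rw [← hp]
    linear_combination a0 ^ 4 * a1 * hs
  have hc0 : -a0 * x2 ≠ 0 := mul_ne_zero (neg_ne_zero.2 ha0) hx2
  refine ⟨⟨mul_ne_zero ha0 hx0, hx1, -a0 * x2, hc0, heq⟩, ⟨hz0, ?_, ?_⟩, ⟨?_, ?_⟩, ?_⟩
  · intro π
    have hs := hSTM π.1 π.2.1 (hSPP.2.2.2.1 π).1
    set z : Eis := ((a0 ^ 2 * a1 : ℤ) : Eis) with hz
    set n0 : ℤ := (a0 * x0) ^ 3 + a0 ^ 2 * a1 * x1 ^ 3 with hn0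
    have hn0' : n0 ≠ 0 := by
      intro h
      rw [h, mul_zero] at heq
      exact mul_ne_zero hB0 (pow_ne_zero 3 hc0) heq.symm
    have hzne : z ≠ 0 := FD2.cast_ne hz0
    have hBne : (B : Eis) ≠ 0 := FD2.cast_ne hB0
    have hcne : ((-a0 * x2 : ℤ) : Eis) ≠ 0 := FD2.cast_ne hc0
    have hnne : (n0 : Eis) ≠ 0 := FD2.cast_ne hn0'
    have hXne : ((a0 * x0 : ℤ) : Eis) ≠ 0 := FD2.cast_ne (mul_ne_zero ha0 hx0)
    have hYne : (x1 : Eis) ≠ 0 := FD2.cast_ne hx1
    have e1 : z * (n0 : Eis) = (B : Eis) * ((-a0 * x2 : ℤ) : Eis) ^ 3 := by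
      have := congrArg (fun m : ℤ => (m : Eis)) heq
      push_cast at this ⊢
      rw [hz]
      push_cast
      exact this
    have e2 : tm π.1 z (B : Eis) = tm π.1 z (z * (n0 : Eis)) := by
      rw [e1, mul_right hs hzne hBne (pow_ne_zero 3 hcne), s_cube' hs hzne hcne, add_zero]
    rw [e2, mul_right hs hzne hzne hnne, s_self hs hzne, zero_add]
    have e3 : ((a0 * x0 : ℤ) : Eis) ^ 3 + z * (x1 : Eis) ^ 3 + -(n0 : Eis) = 0 := by
      rw [hz, hn0]
      push_cast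
      ring
    have e4 := hs.stein _ _ _ (pow_ne_zero 3 hXne) (mul_ne_zero hzne (pow_ne_zero 3 hYne))
      (neg_ne_zero.2 hnne) e3
    rw [s_cube hs hXne (mul_ne_zero hzne (pow_ne_zero 3 hYne)),
      s_cube' hs (neg_ne_zero.2 hnne) hXne, zero_add, add_zero,
      s_neg hs (mul_ne_zero hzne (pow_ne_zero 3 hYne)) hnne,
      hs.mul _ _ _ hzne (pow_ne_zero 3 hYne) hnne, s_cube hs hYne hnne, add_zero] at e4
    exact e4
  · intro π hπ h
    apply hπ
    have e1 : (B : Eis) = (a0 : Eis) * a1 * a2 := by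
      rw [← hp]
      push_cast
      ring
    have e2 : ((a0 ^ 2 * a1 : ℤ) : Eis) = (a0 : Eis) ^ 2 * a1 := by
      push_cast
      ring
    rw [e2] at h
    rw [e1]
    rcases π.2.1.dvd_or_dvd h with h | h
    · exact ((π.2.1.dvd_of_dvd_pow h).mul_right _).mul_right _
    · exact (h.mul_left _).mul_right _
  · intro hlv
    obtain ⟨-, hmul, -, hpr, -⟩ := hLCL
    have m1 := hmul a0 a1 ha0 ha1
    have m2 := hmul (a0 * a1) a2 (mul_ne_zero ha0 ha1) ha2
    have m3 := hmul a0 a0 ha0 ha0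
    have m4 := hmul (a0 ^ 2) a1 (pow_ne_zero 2 ha0) ha1
    rw [← pow_two] at m3
    rw [hp, m1.1, m1.2] at m2
    rw [m3.1, m3.2] at m4
    have h9 : (9 : ℤ) ∣ B := by
      have hv1 : padicValInt 3 B < 3 := by
        by_contra hcon
        have : ((3 : ℕ) : ℤ) ^ 3 ∣ B := (padicValInt_dvd_iff 3 B).2 (Or.inr (by omega))
        exact h27 (by simpa using this)
      have hv2 : padicValInt 3 B = 2 := by
        unfold lv at hlv
        generalize padicValInt 3 B = v at hlv hv1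
        interval_cases v
        · exact absurd hlv (by decide)
        · exact absurd hlv (by decide)
        · rfl
      have : ((3 : ℕ) : ℤ) ^ 2 ∣ B := (padicValInt_dvd_iff 2 B).2 (Or.inr hv2.ge)
      simpa using this
    have h3d : (3 : ℤ) ∣ a0 ∨ (3 : ℤ) ∣ a1 ∨ (3 : ℤ) ∣ a2 := by
      have h3B : (3 : ℤ) ∣ a0 * a1 * a2 := by
        rw [hp]
        exact (Dvd.intro 3 (by norm_num)).trans h9
      rcases Int.prime_three.dvd_or_dvd h3B with h | h
      · rcases Int.prime_three.dvd_or_dvd h with h | h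
        · exact Or.inl h
        · exact Or.inr (Or.inl h)
      · exact Or.inr (Or.inr h)
    rw [m4.1, m4.2]
    rcases h3d with h3 | h3 | h3
    · obtain ⟨n1, n2, n3, n4⟩ := split9 hp ca ca02 h9 h27 h3
      have w := wild0 a1 a2 a0 n1 n3 n4 _ x1 x2 x0 le_rfl hx1 (by linear_combination hs) n2
      obtain ⟨v1, u1⟩ := hpr a1 n1
      obtain ⟨v2, u2⟩ := hpr a2 n2
      rw [v1, v2, hlv] at m2
      rw [m2.2, u2, ← w, ← u1, v1]
      have v0 : lv a0 = 2 := by
        have := m2.1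
        linear_combination -this
      rw [v0]
      generalize lw a0 = s
      generalize lw a1 = t
      revert s t
      decide
    · obtain ⟨n1, n2, n3, n4⟩ := split9 (a0 := a1) (a1 := a0) (a2 := a2)
        (by rw [← hp]; ring) ca.symm ca12 h9 h27 h3
      have w := wild0 a0 a2 a1 n1 n3 n4 _ x0 x2 x1 le_rfl hx0 (by linear_combination hs) n2
      obtain ⟨v1, u1⟩ := hpr a0 n1
      obtain ⟨v2, u2⟩ := hpr a2 n2
      rw [v1, v2, hlv] at m2
      rw [m2.2, u2, ← w, ← u1, v1]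
      have v0 : lv a1 = 2 := by
        have := m2.1
        linear_combination -this
      rw [v0]
      generalize lw a0 = s
      generalize lw a1 = t
      revert s t
      decide
    · obtain ⟨n1, n2, n3, n4⟩ := split9 (a0 := a2) (a1 := a0) (a2 := a1)
        (by rw [← hp]; ring) ca02.symm ca12.symm h9 h27 h3
      have w := wild0 a0 a1 a2 n1 n3 n4 _ x0 x1 x2 le_rfl hx0 hs n2
      obtain ⟨v1, u1⟩ := hpr a0 n1
      obtain ⟨v2, u2⟩ := hpr a1 n2
      rw [u2, ← w, ← u1, v1, v2]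
      generalize lw a0 = s
      generalize lw B = t
      revert s t
      decide
  · intro hlv
    obtain ⟨-, -, -, hpr, -⟩ := hLCL
    have h3B : ¬ (3 : ℤ) ∣ B := by
      intro h3
      have hv1 : padicValInt 3 B < 3 := by
        by_contra hcon
        have : ((3 : ℕ) : ℤ) ^ 3 ∣ B := (padicValInt_dvd_iff 3 B).2 (Or.inr (by omega))
        exact h27 (by simpa using this)
      have hv0 : 1 ≤ padicValInt 3 B := by
        have := (padicValInt_dvd_iff (p := 3) 1 B).1 (by simpa using h3)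
        exact this.resolve_left hB0
      unfold lv at hlv
      generalize padicValInt 3 B = v at hlv hv1 hv0
      interval_cases v
      · exact absurd hlv (by decide)
      · exact absurd hlv (by decide)
    have h3z : ¬ (3 : ℤ) ∣ a0 ^ 2 * a1 := by
      intro h3
      apply h3B
      rw [← hp]
      rcases Int.prime_three.dvd_or_dvd h3 with h | h
      · exact ((Int.prime_three.dvd_of_dvd_pow h).mul_right _).mul_right _
      · exact (h.mul_left _).mul_right _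
    refine ⟨(hpr _ h3z).1, fun hlw => ?_⟩
    rw [(hpr _ h3B).2, wt_zero h3B] at hlw
    rw [(hpr _ h3z).2, wt_zero h3z]
    have hnd : ∀ a b x y : ℤ, IsCoprime (a * x ^ 3) (b * y ^ 3) →
        ¬ ((x : ZMod 9) ^ 3 = 0 ∧ (y : ZMod 9) ^ 3 = 0) := by
      rintro a b x y hxy ⟨h1, h2⟩
      have h3 : (3 : ℤ) ∣ a * x ^ 3 :=
        ((FDX.three_dvd h1).trans (dvd_pow_self _ (by norm_num))).mul_left a
      have h4 : (3 : ℤ) ∣ b * y ^ 3 :=
        ((FDX.three_dvd h2).trans (dvd_pow_self _ (by norm_num))).mul_left b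
      exact Int.prime_three.not_isUnit (hxy.isUnit_of_dvd' h3 h4)
    rw [FDX.C9_iff] at hlw ⊢
    rw [← hp] at hlw
    push_cast at hlw ⊢
    refine FDX.mod9 a0 a1 a2 x0 x1 x2 ?_ hlw (hnd _ _ _ _ hc) (hnd _ _ _ _ hc02)
      (hnd _ _ _ _ hc12)
    have := congrArg (Int.cast : ℤ → ZMod 9) hs
    push_cast at this
    exact this
  · intro l hl h
    have hl' : Prime (l : ℤ) := Nat.prime_iff_prime_int.1 hl
    have h1 : (l : ℤ) ∣ a0 ∨ (l : ℤ) ∣ a1 := by
      rcases hl'.dvd_or_dvd h with h | h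
      · exact Or.inl (hl'.dvd_of_dvd_pow h)
      · exact Or.inr h
    have h3 : (l : ℤ) ∣ B := by
      rw [← hp]
      rcases h1 with h1 | h1
      · exact (h1.mul_right _).mul_right _
      · exact (h1.mul_left _).mul_right _
    rw [hBB] at h3
    rcases hl'.dvd_or_dvd h3 with h4 | h4
    · rcases hl'.dvd_or_dvd h4 with h5 | h5
      · have h6 : (l : ℤ) ∣ 3 := hl'.dvd_of_dvd_pow h5
        have h7 : l ∣ 3 := by exact_mod_cast h6
        exact h7.mul_right _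
      · have h7 : l ∣ n := by exact_mod_cast h5
        exact h7.mul_left _
    · exfalso
      have h5 : l ∣ q := by
        have := hl'.dvd_of_dvd_pow h4
        exact_mod_cast this
      have h6 : l = q := (Nat.prime_dvd_prime_iff_eq hl hq).1 h5
      rw [h6] at h1
      exact h1.elim hq0 hq1

end NPLU

open _root_.Pool.Agent.PTN.NPLU in
/-- NPLU: the class of a point of the isogenous curve. -/
theorem NPLU_thm (hSTM : STM) (hSPP : SPP) (hLCL : LCL) : Stmt_NPLU := by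
  intro h n m k π p e r f E q A m' hN hh hE hq hq3 hqn hA hsum hprod hcop
  have hCF : FDC.CF (BB h n E q) := cf_B hN hh hE hq hq3 hqn
  have hm0 : m' ≠ 0 := by
    rintro rfl
    have : A 0 * A 1 * A 2 = 0 := by rw [hprod]; ring
    exact mul_ne_zero (mul_ne_zero (hA 0) (hA 1)) (hA 2) this
  have hB0 : BB h n E q ≠ 0 := by
    intro h0
    have : A 0 * A 1 * A 2 = 0 := by rw [hprod, h0, zero_mul]
    exact mul_ne_zero (mul_ne_zero (hA 0) (hA 1)) (hA 2) this
  obtain ⟨a, x, hax, hpa⟩ := cells hCF hA hprod hcop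
  have hx0 : ∀ k, x k ≠ 0 := by
    intro k h
    apply hA k
    rw [hax k, h]; ring
  have hc' : ∀ i j, i ≠ j → IsCoprime (a i * x i ^ 3) (a j * x j ^ 3) := fun i j hij => by
    rw [← hax i, ← hax j]
    exact hcop i j hij
  have hs : a 0 * x 0 ^ 3 + a 1 * x 1 ^ 3 + a 2 * x 2 ^ 3 = 0 := by
    rw [← hax, ← hax, ← hax]
    exact hsum
  have hq' : Prime (q : ℤ) := Nat.prime_iff_prime_int.1 hq
  have hqd : (q : ℤ) ∣ a 0 * a 1 * a 2 := by
    rw [hpa]
    have hE0 : E ≠ 0 := by rcases hE with h | h <;> omega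
    exact (dvd_pow_self _ hE0).mul_left _
  have hnot : ∀ i j, i ≠ j → (q : ℤ) ∣ a i → ¬ (q : ℤ) ∣ a j := fun i j hij h1 h2 =>
    hq'.not_isUnit ((hc' i j hij).isUnit_of_dvd' (h1.mul_right _) (h2.mul_right _))
  have hk : (q : ℤ) ∣ a 0 ∨ (q : ℤ) ∣ a 1 ∨ (q : ℤ) ∣ a 2 := by
    rcases hq'.dvd_or_dvd hqd with h | h
    · rcases hq'.dvd_or_dvd h with h | h
      · exact Or.inl h
      · exact Or.inr (Or.inl h)
    · exact Or.inr (Or.inr h)
  rcases hk with hk | hk | hk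
  · obtain ⟨r1, r2, r3, r4⟩ := main hSTM hSPP hLCL (a0 := a 1) (a1 := a 2) (a2 := a 0) hq hCF hB0
      (hx0 1) (hx0 2) (hx0 0)
      (by linear_combination hs) (by linear_combination hpa) (hc' 1 2 (by decide))
      (hc' 1 0 (by decide)) (hc' 2 0 (by decide)) (hnot 0 1 (by decide) hk)
      (hnot 0 2 (by decide) hk)
    refine ⟨a 1 ^ 2 * a 2, a 1 * x 1, x 2, x 1 ^ 2 * x 2 * A 0, m', 1,
      mul_ne_zero (mul_ne_zero (pow_ne_zero 2 (hx0 1)) (hx0 2)) (hA 0), hm0, ?_, r1, r2, r3, r4⟩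
    have e : a 1 ^ 2 * a 2 * (x 1 ^ 2 * x 2 * A 0) ^ 3 = A 0 ^ 2 * A 1 * (A 0 * A 1 * A 2) := by
      rw [hax 1, hax 2]
      ring
    rw [e, hprod]
    ring
  · obtain ⟨r1, r2, r3, r4⟩ := main hSTM hSPP hLCL (a0 := a 2) (a1 := a 0) (a2 := a 1) hq hCF hB0
      (hx0 2) (hx0 0) (hx0 1)
      (by linear_combination hs) (by linear_combination hpa) (hc' 2 0 (by decide))
      (hc' 2 1 (by decide)) (hc' 0 1 (by decide)) (hnot 1 2 (by decide) hk)
      (hnot 1 0 (by decide) hk)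
    refine ⟨a 2 ^ 2 * a 0, a 2 * x 2, x 0, x 2 ^ 2 * x 0 * (A 0 * A 1), m' ^ 2, 2,
      mul_ne_zero (mul_ne_zero (pow_ne_zero 2 (hx0 2)) (hx0 0)) (mul_ne_zero (hA 0) (hA 1)),
      pow_ne_zero 2 hm0, ?_, r1, r2, r3, r4⟩
    have e : a 2 ^ 2 * a 0 * (x 2 ^ 2 * x 0 * (A 0 * A 1)) ^ 3 =
        A 0 ^ 2 * A 1 * (A 0 * A 1 * A 2) ^ 2 := by
      rw [mul_pow (x 2 ^ 2 * x 0)]
      have e1 : a 2 ^ 2 * a 0 * ((x 2 ^ 2 * x 0) ^ 3) = A 2 ^ 2 * A 0 := by
        rw [hax 2, hax 0]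
        ring
      rw [← mul_assoc, e1]
      ring
    rw [e, hprod]
    ring
  · obtain ⟨r1, r2, r3, r4⟩ := main hSTM hSPP hLCL (a0 := a 0) (a1 := a 1) (a2 := a 2) hq hCF hB0
      (hx0 0) (hx0 1) (hx0 2)
      (by linear_combination hs) (by linear_combination hpa) (hc' 0 1 (by decide))
      (hc' 0 2 (by decide)) (hc' 1 2 (by decide)) (hnot 2 0 (by decide) hk)
      (hnot 2 1 (by decide) hk)
    refine ⟨a 0 ^ 2 * a 1, a 0 * x 0, x 1, x 0 ^ 2 * x 1, 1, 0,
      mul_ne_zero (pow_ne_zero 2 (hx0 0)) (hx0 1), one_ne_zero, ?_, r1, r2, r3, r4⟩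
    rw [hax 0, hax 1]
    ring

end Pool.Agent.PTN

end

section

/-!
# LCI: local cubes in `Z[w]`
-/

set_option autoImplicit false

namespace Pool.Agent.PTK

open Pool.Agent.Lib_helper18 Pool.Agent.Lib_helper18.Eis Pool.Agent.Lib_helper84.Cub
open Pool.Agent.PT

namespace LCI

open Pool.Agent.PT.LCI (up_eq up_spec ch_mul ch_unit ch_pow three_mul_zmod cont root_ne_zero)

/-- In a finite field with `3 K + 1` elements the elements with `x ^ K = 1` are cubes. -/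
theorem fin_cube {F : Type} [Field F] [Finite F] {K : ℕ} (hK : Nat.card F = 3 * K + 1) {x : F}
    (hx : x ≠ 0) (h : x ^ K = 1) : ∃ y : F, y ^ 3 = x := by
  obtain ⟨g, hg⟩ := IsCyclic.exists_generator (α := Fˣ)
  obtain ⟨u, hu⟩ : ∃ u : Fˣ, (u : F) = x := ⟨Units.mk0 x hx, rfl⟩
  obtain ⟨k, hk⟩ := (Subgroup.mem_zpowers_iff).1 (hg u)
  have hu1 : u ^ K = 1 := by
    apply Units.ext
    rw [Units.val_pow_eq_pow_val, hu, h, Units.val_one]
  have ho : orderOf g = 3 * K := by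
    rw [orderOf_eq_card_of_forall_mem_zpowers hg, Nat.card_units, hK, Nat.add_sub_cancel]
  have hK0 : K ≠ 0 := by
    rintro rfl
    have h1 : 1 < Nat.card F := Finite.one_lt_card
    omega
  have hd : ((3 * K : ℕ) : ℤ) ∣ k * (K : ℤ) := by
    rw [← ho]
    apply orderOf_dvd_iff_zpow_eq_one.2
    rw [zpow_mul, hk, zpow_natCast]
    exact hu1
  have h3k : (3 : ℤ) ∣ k := by
    obtain ⟨c, hc⟩ := hd
    have h5 : (K : ℤ) ≠ 0 := by exact_mod_cast hK0
    refine ⟨c, ?_⟩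
    apply mul_right_cancel₀ h5
    push_cast at hc
    linear_combination hc
  obtain ⟨j, hj⟩ := h3k
  refine ⟨((g ^ j : Fˣ) : F), ?_⟩
  rw [← hu, ← hk, hj, ← Units.val_pow_eq_pow_val]
  congr 1
  rw [← zpow_natCast, ← zpow_mul]
  congr 1
  push_cast
  ring

/-- The integer residue. -/
theorem val_dvd (M : ℕ) [NeZero M] (a : ℤ) : (M : ℤ) ∣ a - ((a : ZMod M).val : ℤ) := by
  rw [← ZMod.intCast_zmod_eq_zero_iff_dvd]
  push_cast
  rw [ZMod.natCast_val, ZMod.cast_id', id, sub_self]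

theorem aux1 (x : Eis) (a b : ℤ) : ((a : Eis) + (b : Eis) * w) - x =
    -(((x.re - a : ℤ) : Eis) + ((x.im - b : ℤ) : Eis) * w) := by
  conv_lhs => rw [eq_re_add_im x]
  push_cast
  ring

theorem aux2 (a b a' b' : ℤ) : ((a : Eis) + (b : Eis) * w) - ((a' : Eis) + (b' : Eis) * w) =
    (⟨a - a', b - b'⟩ : Eis) := by
  ext
  · simp
  · simp

/-- The residue field is finite, with `N π` elements. -/
theorem card_res (hSPP : SPP) (π : PP) (h3 : ¬ π.1 ∣ 3) (I : Ideal Eis)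
    (hI : I = Ideal.span {π.1}) [I.IsMaximal] : Finite (Eis ⧸ I) ∧ Nat.card (Eis ⧸ I) = N π.1 := by
  have hπ := π.2.1
  have hmk : ∀ a : Eis, Ideal.Quotient.mk I a = 0 ↔ π.1 ∣ a := by
    intro a
    rw [Ideal.Quotient.eq_zero_iff_mem, hI, Ideal.mem_span_singleton]
  let _ : Field (Eis ⧸ I) := Ideal.Quotient.field I
  have hM0 : N π.1 ≠ 0 := by
    intro h
    have h1 := three_mul_div hπ h3
    omega
  have : NeZero (N π.1) := ⟨hM0⟩
  have hMd : π.1 ∣ (((N π.1 : ℕ) : ℤ) : Eis) := by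
    rw [N_cast, ← mul_conj]
    exact dvd_mul_right _ _
  -- finiteness
  have hfin : Finite (Eis ⧸ I) := by
    refine Finite.of_surjective (fun z : ZMod (N π.1) × ZMod (N π.1) =>
      Ideal.Quotient.mk I (((z.1.val : ℤ) : Eis) + ((z.2.val : ℤ) : Eis) * w)) ?_
    intro y
    obtain ⟨x, rfl⟩ := Ideal.Quotient.mk_surjective y
    refine ⟨((x.re : ZMod (N π.1)), (x.im : ZMod (N π.1))), ?_⟩
    rw [← sub_eq_zero, ← map_sub, hmk]
    rw [aux1, dvd_neg]
    refine dvd_add ?_ (Dvd.dvd.mul_right ?_ _)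
    · exact hMd.trans (intCast_dvd_intCast.2 (val_dvd _ _))
    · exact hMd.trans (intCast_dvd_intCast.2 (val_dvd _ _))
  refine ⟨hfin, le_antisymm ?_ ?_⟩
  · -- at most `N π` elements
    obtain ⟨g, hg⟩ := IsCyclic.exists_generator (α := (Eis ⧸ I)ˣ)
    have ho : orderOf g = Nat.card (Eis ⧸ I) - 1 := by
      rw [orderOf_eq_card_of_forall_mem_zpowers hg, Nat.card_units]
    obtain ⟨x, hx⟩ := Ideal.Quotient.mk_surjective ((g : (Eis ⧸ I)ˣ) : Eis ⧸ I)
    have h1 : (Ideal.Quotient.mk I x) ^ N π.1 = Ideal.Quotient.mk I x := by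
      rw [← sub_eq_zero, ← map_pow, ← map_sub, hmk]
      exact dvd_pow_sub hπ h3
    have h2 : g ^ (N π.1 - 1) = 1 := by
      have h4 : g ^ (N π.1 - 1) * g = 1 * g := by
        rw [← pow_succ, Nat.sub_add_cancel (Nat.one_le_iff_ne_zero.2 hM0), one_mul]
        apply Units.ext
        rw [Units.val_pow_eq_pow_val, ← hx, h1]
      exact mul_right_cancel h4
    have h5 := orderOf_dvd_of_pow_eq_one h2
    rw [ho] at h5
    have h6 : 0 < N π.1 - 1 := by
      have h7 := three_mul_div hπ h3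
      have h8 : N π.1 ≠ 1 := by
        intro h9
        apply hπ.not_isUnit
        rw [isUnit_iff_norm, ← N_cast, h9]
        rfl
      omega
    have h7 := Nat.le_of_dvd h6 h5
    omega
  · -- at least `N π` elements
    obtain ⟨p, hp, hc⟩ := hSPP.2.2.2.2.2 π
    have : NeZero p := ⟨hp.ne_zero⟩
    have hpi : Prime (p : ℤ) := Nat.prime_iff_prime_int.1 hp
    have hval : ∀ a b : ZMod p, (p : ℤ) ∣ (a.val : ℤ) - (b.val : ℤ) → a = b := by
      intro a b h
      have h1 := (ZMod.intCast_zmod_eq_zero_iff_dvd _ p).2 h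
      push_cast at h1
      rw [ZMod.natCast_val, ZMod.natCast_val, ZMod.cast_id', id, id] at h1
      exact sub_eq_zero.1 h1
    rcases hc with ⟨-, h2⟩ | ⟨-, h2, -, -⟩
    · have hN : N π.1 = Nat.card (ZMod p × ZMod p) := by
        rw [Nat.card_prod, Nat.card_zmod]
        have h5 : ((N π.1 : ℕ) : ℤ) = ((p * p : ℕ) : ℤ) := by
          rw [N_cast, h2, norm_def]
          push_cast
          simp only [natCast_re, natCast_im]
          ring
        exact_mod_cast h5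
      rw [hN]
      refine Nat.card_le_card_of_injective (fun z : ZMod p × ZMod p =>
        Ideal.Quotient.mk I (((z.1.val : ℤ) : Eis) + ((z.2.val : ℤ) : Eis) * w)) ?_
      intro z z' hz
      have h5 := sub_eq_zero.2 hz
      simp only [] at h5
      rw [← map_sub, hmk, h2] at h5
      rw [aux2, ← Int.cast_natCast, intCast_dvd_iff] at h5
      exact Prod.ext (hval _ _ h5.1) (hval _ _ h5.2)
    · have hN : N π.1 = Nat.card (ZMod p) := by
        rw [Nat.card_zmod]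
        have h5 : ((N π.1 : ℕ) : ℤ) = (p : ℤ) := by rw [N_cast, h2]
        exact_mod_cast h5
      rw [hN]
      refine Nat.card_le_card_of_injective (fun z : ZMod p =>
        Ideal.Quotient.mk I ((z.val : ℤ) : Eis)) ?_
      intro z z' hz
      have h5 := sub_eq_zero.2 hz
      simp only [] at h5
      rw [← map_sub, hmk, ← Int.cast_sub] at h5
      apply hval
      obtain ⟨y, hy⟩ := h5
      have h6 := congrArg Eis.norm hy
      rw [Eis.norm_mul, Pool.Agent.PT.LCI.norm_int, h2] at h6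
      exact hpi.dvd_of_dvd_pow ⟨_, h6⟩

/-- An element prime to `π` with trivial symbol is a cube modulo `π`. -/
theorem cube_root (hSPP : SPP) (π : PP) {c : Eis} (hc : ¬ π.1 ∣ c) (hs : sym π.1 c = 0) :
    ∃ r : Eis, π.1 ∣ r ^ 3 - c := by
  have hπ := π.2.1
  have h3 := (hSPP.2.2.2.1 π).1
  have hmax : (Ideal.span {π.1}).IsMaximal := PrincipalIdealRing.isMaximal_of_irreducible
    hπ.irreducible
  generalize hI : Ideal.span {π.1} = I at hmax
  obtain ⟨hfin, hcard⟩ := card_res hSPP π h3 I hI.symm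
  have hmk : ∀ a : Eis, Ideal.Quotient.mk I a = 0 ↔ π.1 ∣ a := by
    intro a
    rw [Ideal.Quotient.eq_zero_iff_mem, ← hI, Ideal.mem_span_singleton]
  let _ : Field (Eis ⧸ I) := Ideal.Quotient.field I
  have h4 := sym_spec hπ h3 hc
  rw [hs, ZMod.val_zero, pow_zero] at h4
  obtain ⟨y, hy⟩ := fin_cube (K := (N π.1 - 1) / 3) (x := Ideal.Quotient.mk I c)
    (by rw [hcard, three_mul_div hπ h3]) (fun h => hc ((hmk c).1 h))
    (by rw [← map_pow, ← sub_eq_zero, ← map_one (Ideal.Quotient.mk I), ← map_sub, hmk]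
        exact h4)
  obtain ⟨r, rfl⟩ := Ideal.Quotient.mk_surjective y
  refine ⟨r, ?_⟩
  rw [← hmk, map_sub, map_pow, hy, sub_self]

theorem first (hSPP : SPP) (π : PP) (b : Eis) (hb0 : b ≠ 0) :
    LCE π.1 b ↔ 3 ∣ V π.1 b ∧ ch π.1 b = 0 := by
  have hπ := π.2.1
  have h3 := (hSPP.2.2.2.1 π).1
  constructor
  · intro h
    obtain ⟨r, hr⟩ := h (V π.1 b + 1)
    have hr0 := root_ne_zero hπ hb0 le_rfl hr
    obtain ⟨h1, h2⟩ := cont hπ hb0 hr
    rw [V_pow hπ hr0] at h1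
    rw [ch_pow hπ h3 hr0, three_mul_zmod (dvd_refl 3), zero_mul] at h2
    exact ⟨⟨_, h1.symm⟩, h2.symm⟩
  · rintro ⟨⟨j, hj⟩, h2⟩ M
    obtain ⟨h4, h5⟩ := up_spec hπ hb0
    obtain ⟨r0, hr0⟩ := cube_root hSPP π h5 h2
    obtain ⟨τ, -, hτ⟩ := hensel hπ h3 h5 hr0 M
    refine ⟨π.1 ^ j * τ, ?_⟩
    have e : (π.1 ^ j * τ) ^ 3 - b = π.1 ^ V π.1 b * (τ ^ 3 - up π.1 b) := by
      conv_lhs => rw [h4]
      rw [hj]
      ring
    rw [e]
    exact ((pow_dvd_pow π.1 (Nat.le_succ M)).trans hτ).mul_left _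

/-- Cubes at `λ`: elements `1` modulo `λ⁴`. -/
theorem lam_cube {b : Eis} (hb : lam ^ 4 ∣ b - 1) : ∀ M : ℕ, ∃ r : Eis, lam ∣ r - 1 ∧
    lam ^ (M + 4) ∣ r ^ 3 - b := by
  intro M
  induction M with
  | zero =>
    refine ⟨1, by rw [sub_self]; exact dvd_zero _, ?_⟩
    rw [zero_add, one_pow, ← dvd_neg, neg_sub]
    exact hb
  | succ M ih =>
    obtain ⟨r, ⟨k, hk⟩, c, hc⟩ := ih
    have h3 : (3 : Eis) = lam ^ 2 * (-w ^ 2) := lam_two
    have hw := w_cube
    refine ⟨r + lam ^ (M + 2) * (w * c), ⟨k + lam ^ (M + 1) * (w * c), ?_⟩,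
      -c * k * (r + 1) - w ^ 2 * lam ^ (M + 1) * r * (w * c) ^ 2 +
        lam ^ (2 * M + 1) * (w * c) ^ 3, ?_⟩
    · rw [pow_succ lam (M + 1)]
      linear_combination hk
    · have e1 : lam ^ (M + 1 + 4) = lam ^ M * lam ^ 5 := by rw [← pow_add]
      have e2 : lam ^ (M + 4) = lam ^ M * lam ^ 4 := by rw [← pow_add]
      have e3 : lam ^ (M + 2) = lam ^ M * lam ^ 2 := by rw [← pow_add]
      have e4 : lam ^ (M + 1) = lam ^ M * lam := by rw [pow_succ]
      have e5 : lam ^ (2 * M + 1) = lam ^ M * lam ^ M * lam := by rw [two_mul, pow_succ, pow_add]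
      rw [e2] at hc
      rw [e1, e3, e4, e5]
      generalize lam ^ M = P at *
      linear_combination hc + (P * lam ^ 2 * r ^ 2 * (w * c) + P ^ 2 * lam ^ 4 * r * (w * c) ^ 2) * h3
        - P * lam ^ 4 * r ^ 2 * c * hw - P * lam ^ 4 * c * (r + 1) * hk

theorem second (b a c : Eis) (ha : ¬ lam ∣ a) (hc : ¬ lam ∣ c) (h : lam ^ 4 ∣ b * c ^ 3 - a ^ 3) :
    LCE lam b := by
  obtain ⟨C, hC, y, hy⟩ := cube_mod_nine ha
  obtain ⟨C', hC', y', hy'⟩ := cube_mod_nine hc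
  have h9 : (9 : Eis) = w * lam ^ 4 := by decide
  have hCC : (C' : Eis) * (C' : Eis) = 1 := by
    rcases hC' with rfl | rfl <;> simp
  have hC2 : (C : Eis) * (C : Eis) = 1 := by
    rcases hC with rfl | rfl <;> simp
  -- `b` is congruent to `C C'`
  have h1 : lam ^ 4 ∣ b - (C : Eis) * C' := by
    obtain ⟨k, hk⟩ := h
    rw [hy, hy'] at hk
    refine ⟨k * C' - b * w * y' * C' + w * y * C', ?_⟩
    linear_combination (C' : Eis) * hk - b * hCC - (b * y' * C' - y * C') * h9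
  -- a cube root of `C C' b`
  have h2 : lam ^ 4 ∣ (C : Eis) * C' * b - 1 := by
    have e : (C : Eis) * C' * b - 1 = (C : Eis) * C' * (b - (C : Eis) * C') := by
      linear_combination (C' : Eis) * C' * hC2 + hCC
    rw [e]
    exact h1.mul_left _
  intro M
  obtain ⟨r, -, hr⟩ := lam_cube h2 M
  refine ⟨(C : Eis) * C' * r, ?_⟩
  have e : ((C : Eis) * C' * r) ^ 3 - b = (C : Eis) * C' * (r ^ 3 - (C : Eis) * C' * b) := by
    have h4 : ((C : Eis) * C') ^ 2 = 1 := by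
      rw [mul_pow, pow_two, pow_two, hC2, hCC, one_mul]
    linear_combination ((C : Eis) * C' * r ^ 3 + b) * h4
  rw [e]
  exact ((pow_dvd_pow lam (by omega)).trans hr).mul_left _

theorem third (π : Eis) (s : Eis → Eis → ZMod 3) (e : ℕ) (b a : Eis) (hs : LSym π s e)
    (h : LCE π b) (hb0 : b ≠ 0) (ha : a ≠ 0) : s b a = 0 := by
  obtain ⟨r, hr⟩ := h (V π b + e)
  have hr0 := root_ne_zero hs.prime hb0 hs.pos hr
  have h1 := hs.cont b (r ^ 3) a hb0 ha hr
  rw [← h1]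
  have h2 := hs.mul r r a hr0 hr0 ha
  have h3 := hs.mul (r * r) r a (mul_ne_zero hr0 hr0) hr0 ha
  have e3 : r ^ 3 = r * r * r := by ring
  rw [e3, h3, h2]
  have h4 : ∀ x : ZMod 3, x + x + x = 0 := by decide
  exact h4 _

end LCI

theorem LCI_thm (hSPP : SPP) : Stmt_LCI :=
  ⟨LCI.first hSPP, LCI.second, fun π s e b a hs h hb ha => LCI.third π s e b a hs h hb ha⟩

end Pool.Agent.PTK

end
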