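import Mathlib
import Pool.Agent.PTWX.C34
import Pool.Agent.PTWX.C42

/-! Parts: PT.NCNT, PT.NTR, PTKX.NTR, PTKX.NCN -/

namespace Pool.Agent.PT.NCNT
end Pool.Agent.PT.NCNT

namespace Pool.Agent.PT.NTR
end Pool.Agent.PT.NTR

namespace Pool.Agent.PTK.NCN
end Pool.Agent.PTK.NCN

section

/-!
# NCNT: the number of primes above a place
-/

open NumberField IsDedekindDomain Finset
open scoped nonZeroDivisors Pointwise

namespace Pool.Agent.PT

open Pool.Agent.Lib_helper18 Pool.Agent.Lib_helper18.Eis Pool.Agent.Lib_helper84.Cub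

namespace NCNT

/-! ### Arithmetic of `Z[w]` -/

theorem pow_dvd_iff {l a : Eis} (hl : Prime l) (ha : a ≠ 0) (k : ℕ) : l ^ k ∣ a ↔ k ≤ V l a :=
  (fin hl ha).pow_dvd_iff_le_multiplicity

theorem intCast_ne {z : ℤ} (hz : z ≠ 0) : (z : Eis) ≠ 0 := fun h =>
  hz (by simpa using congrArg Eis.re h)

/-- Division by the exact power. -/
theorem reduce {u x a b : Eis} (hu : Prime u) (hx : x ≠ 0) (hb : b ≠ 0)
    (h : u ^ (3 * V u b + V u x + 4) ∣ x * b ^ 3 - a ^ 3) :
    ∃ x1 a1 b1 : Eis, x = u ^ V u x * x1 ∧ 3 ∣ V u x ∧ ¬ u ∣ x1 ∧ ¬ u ∣ a1 ∧ ¬ u ∣ b1 ∧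
      u ^ 4 ∣ x1 * b1 ^ 3 - a1 ^ 3 := by
  obtain ⟨b1, hb1, hub⟩ := V_split hu hb
  obtain ⟨x1, hx1, hux⟩ := V_split hu hx
  have hu0 := hu.ne_zero
  have hxb : x * b ^ 3 ≠ 0 := mul_ne_zero hx (pow_ne_zero _ hb)
  have hVxb : V u (x * b ^ 3) = V u x + 3 * V u b := by
    rw [V_mul hu hx (pow_ne_zero _ hb), V_pow hu hb]
  have ha : a ≠ 0 := by
    rintro rfl
    have h1 : u ^ (3 * V u b + V u x + 4) ∣ x * b ^ 3 := by simpa using h
    rw [pow_dvd_iff hu hxb, hVxb] at h1
    omega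
  have ha3 : a ^ 3 ≠ 0 := pow_ne_zero _ ha
  have hVa : 3 * V u a = V u x + 3 * V u b := by
    rw [← V_pow hu ha, ← hVxb]
    apply le_antisymm
    · rw [← pow_dvd_iff hu hxb]
      by_contra hcon
      have h2 : V u (a ^ 3) ≤ 3 * V u b + V u x + 4 := by
        by_contra h3
        push Not at h3
        have h4 : u ^ (3 * V u b + V u x + 4) ∣ a ^ 3 := (pow_dvd_iff hu ha3 _).mpr h3.le
        have h5 : u ^ (3 * V u b + V u x + 4) ∣ x * b ^ 3 := by
          have h6 := dvd_add h h4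
          rwa [sub_add_cancel] at h6
        rw [pow_dvd_iff hu hxb, hVxb] at h5
        omega
      have h3 : u ^ V u (a ^ 3) ∣ x * b ^ 3 - a ^ 3 := (pow_dvd_pow u h2).trans h
      have h4 : u ^ V u (a ^ 3) ∣ a ^ 3 := (pow_dvd_iff hu ha3 _).mpr le_rfl
      have h5 := dvd_add h3 h4
      rw [sub_add_cancel] at h5
      exact hcon h5
    · rw [← pow_dvd_iff hu ha3]
      have h3 : u ^ V u (x * b ^ 3) ∣ x * b ^ 3 - a ^ 3 :=
        (pow_dvd_pow u (by rw [hVxb]; omega)).trans h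
      have h4 : u ^ V u (x * b ^ 3) ∣ x * b ^ 3 := (pow_dvd_iff hu hxb _).mpr le_rfl
      have h5 := dvd_sub h4 h3
      rwa [sub_sub_cancel] at h5
  obtain ⟨a1, ha1, hua⟩ := V_split hu ha
  refine ⟨x1, a1, b1, hx1, by omega, hux, hua, hub, ?_⟩
  have e : x * b ^ 3 - a ^ 3 = u ^ (3 * V u b + V u x) * (x1 * b1 ^ 3 - a1 ^ 3) := by
    have e1 : x * b ^ 3 = u ^ (3 * V u b + V u x) * (x1 * b1 ^ 3) := by
      conv_lhs => rw [hx1, hb1]
      rw [mul_pow, ← pow_mul, pow_add, mul_comm (V u b) 3]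
      ring
    have e2 : a ^ 3 = u ^ (3 * V u b + V u x) * a1 ^ 3 := by
      conv_lhs => rw [ha1]
      rw [mul_pow, ← pow_mul, mul_comm (V u a) 3, hVa, add_comm (V u x)]
    rw [e1, e2]
    ring
  rw [e, pow_add] at h
  exact (mul_dvd_mul_iff_left (pow_ne_zero _ hu0)).mp h

/-- Cubes modulo 9. -/
theorem cube_mod_nine {z : Eis} (hz : ¬ lam ∣ z) :
    ∃ ε : ℤ, (ε = 1 ∨ ε = -1) ∧ (9 : ℤ) ∣ (z ^ 3).re - ε ∧ (9 : ℤ) ∣ (z ^ 3).im := by
  rw [lam_dvd_iff] at hz
  have hre : (z ^ 3).re = z.re ^ 3 + z.im ^ 3 - 3 * z.re * z.im ^ 2 := by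
    simp only [pow_succ, pow_zero, one_mul, mul_re, mul_im]
    ring
  have him : (z ^ 3).im = 3 * z.re * z.im * (z.re - z.im) := by
    simp only [pow_succ, pow_zero, one_mul, mul_re, mul_im]
    ring
  rw [hre, him]
  generalize z.re = a at *
  generalize z.im = b at *
  have key : ∀ α β : ZMod 9, (α + β = 0 ∨ α + β = 3 ∨ α + β = 6) ∨
      ((α ^ 3 + β ^ 3 - 3 * α * β ^ 2 = 1 ∨ α ^ 3 + β ^ 3 - 3 * α * β ^ 2 = -1) ∧
        3 * α * β * (α - β) = 0) := by decide
  have hcast : ∀ n : ℤ, ((n : ZMod 9) = 0 ↔ (9 : ℤ) ∣ n) := fun n => by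
    have := ZMod.intCast_zmod_eq_zero_iff_dvd n 9
    simpa using this
  rcases key (a : ZMod 9) (b : ZMod 9) with h | ⟨h1, h2⟩
  · exfalso
    apply hz
    rcases h with h | h | h
    · have h3 := (hcast (a + b)).mp (by push_cast; exact h)
      omega
    · have h3 := (hcast (a + b - 3)).mp (by push_cast; rw [h]; ring)
      omega
    · have h3 := (hcast (a + b - 6)).mp (by push_cast; rw [h]; ring)
      omega
  · have h3 : (9 : ℤ) ∣ 3 * a * b * (a - b) := (hcast _).mp (by push_cast; exact h2)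
    rcases h1 with h1 | h1
    · exact ⟨1, Or.inl rfl, (hcast _).mp (by push_cast; rw [h1]; ring), h3⟩
    · exact ⟨-1, Or.inr rfl, (hcast _).mp (by push_cast; rw [h1]; ring), h3⟩

theorem lam_four : lam ^ 4 = w ^ 2 * 9 := by decide

theorem nine_dvd {z : Eis} (h : lam ^ 4 ∣ z) : (9 : ℤ) ∣ z.re ∧ (9 : ℤ) ∣ z.im := by
  have h1 : ((9 : ℤ) : Eis) ∣ z := by
    refine Dvd.dvd.trans ?_ h
    rw [lam_four]
    exact ⟨w ^ 2, by push_cast; ring⟩
  exact intCast_dvd_iff.mp h1

/-- The end of the argument. -/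
theorem local_cube (hLCI : LCI) {x : ℤ} (hx : x ≠ 0) (h3 : ¬ (3 : ℤ) ∣ x) (v : Pl) {a b : Eis}
    (hu : Prime (uni v)) (hb : b ≠ 0)
    (h : uni v ^ (3 * V (uni v) b + V (uni v) (x : Eis) + 4) ∣ (x : Eis) * b ^ 3 - a ^ 3) :
    LC (uni v) x := by
  have hxE := intCast_ne hx
  obtain ⟨x1, a1, b1, hx1, hV, hux, hua, hub, hd⟩ := reduce hu hxE hb h
  cases v with
  | some π =>
    have hπ3 : ¬ π.1 ∣ 3 := by
      intro h
      have h2 := (dvd_three_iff π.2.1).mp h
      have h4 : lam ∣ π.1 := h2.symm.dvd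
      rw [lam_dvd_iff] at h4
      obtain ⟨-, h5, h6⟩ := π.2
      omega
    change LC π.1 x
    change Prime π.1 at hu
    rw [hLCI.1 π x hx]
    refine ⟨hV, ?_⟩
    have hup : up π.1 (x : Eis) = x1 := by
      unfold up
      conv_lhs => rw [hx1]
      have hne : π.1 ^ V π.1 (x : Eis) ≠ 0 := pow_ne_zero _ hu.ne_zero
      change (π.1 ^ V π.1 (x : Eis) * x1) / π.1 ^ V π.1 (π.1 ^ V π.1 (x : Eis) * x1) = x1
      have hVV : V π.1 (π.1 ^ V π.1 (x : Eis) * x1) = V π.1 (x : Eis) := by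
        conv_rhs => rw [show (x : Eis) = π.1 ^ V π.1 (x : Eis) * x1 from hx1]
      rw [hVV]
      exact mul_div_cancel_left₀ x1 hne
    unfold ch
    rw [hup]
    have hd1 : π.1 ∣ x1 * b1 ^ 3 - a1 ^ 3 :=
      (dvd_pow_self π.1 (by norm_num)).trans hd
    have h1 := sym_congr hd1
    have hb3 : ¬ π.1 ∣ b1 ^ 3 := fun h => hub (hu.dvd_of_dvd_pow h)
    rw [sym_mul hu hπ3 hux hb3, sym_pow hu hπ3 hub, sym_pow hu hπ3 hua] at h1
    have h30 : (3 : ZMod 3) = 0 := by decide
    push_cast at h1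
    rw [h30] at h1
    simpa using h1
  | none =>
    change LC lam x
    change Prime lam at hu
    rw [hLCI.2.1 x h3]
    have hlx : ¬ lam ∣ (x : Eis) := by
      rw [lam_dvd_iff]
      simpa using h3
    have hV0 : V lam (x : Eis) = 0 := V_eq_zero hlx
    have hx1' : (x : Eis) = x1 := by
      have h1 : (x : Eis) = lam ^ V lam (x : Eis) * x1 := hx1
      rw [hV0, pow_zero, one_mul] at h1
      exact h1
    obtain ⟨ε, hε, hr, hi⟩ := cube_mod_nine (z := a1) hua
    obtain ⟨δ, hδ, hr', hi'⟩ := cube_mod_nine (z := b1) hub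
    have h9 := (nine_dvd hd).1
    rw [← hx1'] at h9
    have e1 : ((x : Eis) * b1 ^ 3 - a1 ^ 3).re = x * (b1 ^ 3).re - (a1 ^ 3).re := by
      rw [sub_re, mul_re]
      simp
    rw [e1] at h9
    have h10 : (9 : ℤ) ∣ x * δ - ε := by
      obtain ⟨s, hs⟩ := h9
      obtain ⟨t, ht⟩ := hr
      obtain ⟨t', ht'⟩ := hr'
      exact ⟨s - x * t' + t, by linear_combination hs - x * ht' + ht⟩
    unfold C9
    rcases hε with rfl | rfl <;> rcases hδ with rfl | rfl <;> omega

/-! ### Valuations of `L` -/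

variable {L : Type} [Field L] [NumberField L]

theorem ext_val {P P' : HeightOneSpectrum (𝓞 L)}
    (h : ∀ z : L, P.valuation L z = P'.valuation L z) : P = P' := by
  apply HeightOneSpectrum.ext
  ext z
  rw [← P.valuation_lt_one_iff_mem (K := L), ← P'.valuation_lt_one_iff_mem (K := L), h]

theorem exists_exp_le {γ : WithZero (Multiplicative ℤ)} (h : γ ≠ 0) :
    ∃ N : ℕ, WithZero.exp (-(N : ℤ)) ≤ γ := by
  refine ⟨(-(WithZero.log γ)).toNat, ?_⟩
  rw [← WithZero.exp_log h, WithZero.exp_le_exp, WithZero.log_exp]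
  omega

theorem pow_le_exp {ρ : WithZero (Multiplicative ℤ)} (h : ρ < 1) (N : ℕ) :
    ρ ^ N ≤ WithZero.exp (-(N : ℤ)) := by
  by_cases h0 : ρ = 0
  · rcases N with _ | N
    · simp
    · rw [h0, zero_pow (Nat.succ_ne_zero N)]
      exact zero_le
  · have h1 : WithZero.log ρ < 0 := by
      rw [← WithZero.exp_log h0, ← WithZero.exp_zero, WithZero.exp_lt_exp] at h
      exact h
    rw [← WithZero.exp_log h0, ← WithZero.exp_nsmul, WithZero.exp_le_exp]
    simp only [nsmul_eq_mul]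
    nlinarith [Int.natCast_nonneg N]

theorem exists_pow_lt {ρ γ : WithZero (Multiplicative ℤ)} (h : ρ < 1) (hγ : γ ≠ 0) :
    ∃ N : ℕ, ρ ^ N < γ := by
  obtain ⟨N, hN⟩ := exists_exp_le hγ
  refine ⟨N + 1, (pow_le_exp h (N + 1)).trans_lt (lt_of_lt_of_le ?_ hN)⟩
  rw [WithZero.exp_lt_exp]
  push_cast
  omega

variable {x : ℤ} {ι : Eis →+* L} {θ : L} {σ c : L ≃ₐ[ℚ] L}

/-- The valuation of an element of `Z[w]`. -/
theorem val_eq {v : Pl} {P : HeightOneSpectrum (𝓞 L)} (hu : Prime (uni v))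
    (hle : ∀ a : Eis, P.valuation L (ι a) ≤ 1)
    (hlt : ∀ a : Eis, P.valuation L (ι a) < 1 → uni v ∣ a) {y : Eis} (hy : y ≠ 0) :
    P.valuation L (ι y) = P.valuation L (ι (uni v)) ^ V (uni v) y := by
  obtain ⟨c, hc, huc⟩ := V_split hu hy
  have h1 : P.valuation L (ι c) = 1 := by
    rcases (hle c).lt_or_eq with h | h
    · exact absurd (hlt c h) huc
    · exact h
  conv_lhs => rw [hc]
  rw [map_mul, map_pow, map_mul, map_pow, h1, mul_one]

theorem val_w {P : HeightOneSpectrum (𝓞 L)} : P.valuation L (ι w) = 1 := by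
  have h1 : P.valuation L (ι w) ^ 3 = 1 := by
    rw [← map_pow, ← map_pow, w_cube, map_one, map_one]
  rcases lt_trichotomy (P.valuation L (ι w)) 1 with h | h | h
  · exact absurd h1 (pow_lt_one₀ zero_le h (by norm_num)).ne
  · exact h
  · exact absurd h1 (one_lt_pow₀ h (by norm_num)).ne'

/-- If `x` is a local cube, `σ` does not fix a prime above `v`. -/
theorem no_fix (h : CubF x L ι θ σ c) (hx : x ≠ 0) {v : Pl} {P : HeightOneSpectrum (𝓞 L)}
    (hle : ∀ a : Eis, P.valuation L (ι a) ≤ 1) (hP : P.valuation L (ι (uni v)) < 1)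
    (hfix : ∀ z : L, P.valuation L (σ z) = P.valuation L z) (hLC : LC (uni v) x) : False := by
  have hc0 : (w - 1) ^ 3 * (x : Eis) ≠ 0 :=
    mul_ne_zero (pow_ne_zero _ (by decide)) (intCast_ne hx)
  have hγ : P.valuation L (ι ((w - 1) ^ 3 * (x : Eis))) ≠ 0 := by
    rw [Valuation.ne_zero_iff]
    exact (map_ne_zero_iff ι h.inj).mpr hc0
  obtain ⟨N, hN⟩ := exists_pow_lt hP hγ
  obtain ⟨r, t, ht⟩ := hLC N
  have hsmall : P.valuation L (ι ((r : Eis) ^ 3 - (x : Eis))) ≤
      P.valuation L (ι (uni v)) ^ N := by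
    rw [ht, map_mul, map_mul, map_pow, map_pow]
    exact mul_le_of_le_one_right' (hle t)
  have s0 : σ (θ - ι r) = ι w * (θ - ι (w ^ 2 * r)) := by
    rw [map_sub, h.sθ, h.sι, mul_sub, ← map_mul, ← mul_assoc, ← pow_succ', w_cube, one_mul]
  have s1 : σ (θ - ι (w * r)) = ι w * (θ - ι r) := by
    rw [map_sub, h.sθ, h.sι, mul_sub, ← map_mul]
  have v0 : P.valuation L (θ - ι (w ^ 2 * r)) = P.valuation L (θ - ι r) := by
    rw [← hfix (θ - ι r), s0, Valuation.map_mul, val_w, one_mul]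
  have v1 : P.valuation L (θ - ι (w * r)) = P.valuation L (θ - ι r) := by
    rw [← hfix (θ - ι (w * r)), s1, Valuation.map_mul, val_w, one_mul]
  have hprod : (θ - ι r) * (θ - ι (w * r)) * (θ - ι (w ^ 2 * r)) =
      - ι ((r : Eis) ^ 3 - (x : Eis)) := by
    have h1 : (ι w) ^ 2 + ι w + 1 = 0 := by
      have := congrArg ι w_rel
      simpa using this
    have h2 : (ι w) ^ 3 = 1 := by
      have := congrArg ι w_cube
      simpa using this
    have h3 := h.cube
    have h4 : ι (x : Eis) = (x : L) := map_intCast ι x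
    have h5 : ι (r : Eis) = (r : L) := map_intCast ι r
    simp only [map_sub, map_mul, map_pow, h4, h5]
    linear_combination (-(θ ^ 2 * (r : L)) + θ * (r : L) ^ 2 * ι w) * h1 -
      ((r : L) ^ 3) * h2 + h3
  have hα : P.valuation L (θ - ι r) ^ 3 ≤ P.valuation L (ι (uni v)) ^ N := by
    have h1 := congrArg (P.valuation L) hprod
    rw [map_mul, map_mul, v0, v1, Valuation.map_neg] at h1
    calc P.valuation L (θ - ι r) ^ 3 = P.valuation L (θ - ι r) * P.valuation L (θ - ι r) *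
        P.valuation L (θ - ι r) := by rw [pow_succ, pow_two]
      _ ≤ _ := by rw [h1]; exact hsmall
  have hdiff : P.valuation L (ι ((w - 1) * r)) ≤ P.valuation L (θ - ι r) := by
    have e1 : ι ((w - 1) * r) = (θ - ι r) - (θ - ι (w * r)) := by
      rw [sub_mul, one_mul, map_sub]
      ring
    rw [e1]
    refine (Valuation.map_sub _ _ _).trans ?_
    rw [v1, max_self]
  have hcube : P.valuation L (ι (((w - 1) * r) ^ 3)) ≤ P.valuation L (ι (uni v)) ^ N := by
    rw [map_pow, map_pow]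
    exact (pow_le_pow_left' hdiff 3).trans hα
  have hfin : P.valuation L (ι ((w - 1) ^ 3 * (x : Eis))) ≤ P.valuation L (ι (uni v)) ^ N := by
    have e1 : ι ((w - 1) ^ 3 * (x : Eis)) = ι (((w - 1) * r) ^ 3) -
        ι ((w - 1) ^ 3) * ι ((r : Eis) ^ 3 - (x : Eis)) := by
      rw [← map_mul, ← map_sub]
      congr 1
      ring
    rw [e1]
    refine (Valuation.map_sub _ _ _).trans (max_le hcube ?_)
    rw [map_mul]
    exact (mul_le_of_le_one_left' (hle _)).trans hsmall
  exact absurd hN (not_lt.mpr hfin)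

/-- If `σ` does not fix the prime `P`, then `θ` is approximated at `P` by invariant elements. -/
theorem approx (h : CubF x L ι θ σ c) (h3 : ∀ z : L, σ (σ (σ z)) = z)
    {P P1 P2 : HeightOneSpectrum (𝓞 L)} (h01 : P ≠ P1) (h02 : P ≠ P2) (h12 : P1 ≠ P2)
    (e1 : ∀ z, P1.valuation L (σ z) = P.valuation L z)
    (e2 : ∀ z, P2.valuation L (σ z) = P1.valuation L z) (N : ℕ) :
    ∃ T : L, σ T = T ∧ P.valuation L (θ - T) ≤ WithZero.exp (-(N : ℤ)) := by
  have hθ : IsIntegral ℤ θ := by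
    refine IsIntegral.of_pow (n := 3) (by norm_num) ?_
    rw [h.cube]
    exact isIntegral_algebraMap (R := ℤ) (x := x)
  let θ' : 𝓞 L := ⟨θ, hθ⟩
  obtain ⟨z, hz⟩ := IsDedekindDomain.exists_forall_sub_mem_ideal (R := 𝓞 L)
    (s := (univ : Finset (Fin 3))) (![P.asIdeal, P1.asIdeal, P2.asIdeal]) (fun _ => N)
    (by
      intro i _
      fin_cases i
      · exact P.prime
      · exact P1.prime
      · exact P2.prime)
    (by
      have k01 : P.asIdeal ≠ P1.asIdeal := fun h => h01 (HeightOneSpectrum.ext h)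
      have k02 : P.asIdeal ≠ P2.asIdeal := fun h => h02 (HeightOneSpectrum.ext h)
      have k12 : P1.asIdeal ≠ P2.asIdeal := fun h => h12 (HeightOneSpectrum.ext h)
      intro i _ j _ hij
      fin_cases i <;> fin_cases j
      · exact absurd rfl hij
      · exact k01
      · exact k02
      · exact k01.symm
      · exact absurd rfl hij
      · exact k12
      · exact k02.symm
      · exact k12.symm
      · exact absurd rfl hij)
    (fun i => (![θ', 0, 0] : Fin 3 → 𝓞 L) i.1)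
  have z0 : z - θ' ∈ P.asIdeal ^ N := hz 0 (mem_univ _)
  have z1 : z ∈ P1.asIdeal ^ N := by
    have h1 : z - 0 ∈ P1.asIdeal ^ N := hz 1 (mem_univ _)
    rwa [sub_zero] at h1
  have z2 : z ∈ P2.asIdeal ^ N := by
    have h1 : z - 0 ∈ P2.asIdeal ^ N := hz 2 (mem_univ _)
    rwa [sub_zero] at h1
  have cv : ∀ (Q : HeightOneSpectrum (𝓞 L)) (y : 𝓞 L), y ∈ Q.asIdeal ^ N →
      Q.valuation L (algebraMap (𝓞 L) L y) ≤ WithZero.exp (-(N : ℤ)) := by
    intro Q y hy
    rw [Q.valuation_of_algebraMap, Q.intValuation_le_pow_iff_mem]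
    exact hy
  have w0 := cv P _ z0
  have w1 := cv P1 _ z1
  have w2 := cv P2 _ z2
  rw [map_sub] at w0
  have hθ' : algebraMap (𝓞 L) L θ' = θ := rfl
  rw [hθ'] at w0
  set y : L := algebraMap (𝓞 L) L z with hy
  have f1 : ∀ t, P.valuation L (σ t) = P2.valuation L t := by
    intro t
    rw [← e1 (σ t), ← e2 (σ (σ t)), h3]
  refine ⟨y + σ y + σ (σ y), ?_, ?_⟩
  · rw [map_add, map_add, h3]
    ring
  · have e3 : θ - (y + σ y + σ (σ y)) = -((y - θ) + (σ y + σ (σ y))) := by ring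
    rw [e3, Valuation.map_neg]
    refine (Valuation.map_add _ _ _).trans (max_le w0 ?_)
    refine (Valuation.map_add _ _ _).trans (max_le ?_ ?_)
    · rw [f1]
      exact w2
    · rw [f1, e2]
      exact w1

/-- If `σ` does not fix `P`, then `x` is a local cube. -/
theorem lc_of (hLCI : LCI) (h : CubF x L ι θ σ c) (hx : x ≠ 0) (hx3 : ¬ (3 : ℤ) ∣ x)
    (h3 : ∀ z : L, σ (σ (σ z)) = z)
    (hfixed : ∀ z : L, σ z = z → ∃ a b : Eis, b ≠ 0 ∧ z * ι b = ι a) {v : Pl}
    {P P1 P2 : HeightOneSpectrum (𝓞 L)} (hu : Prime (uni v))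
    (hle : ∀ a : Eis, P.valuation L (ι a) ≤ 1) (hP : P.valuation L (ι (uni v)) < 1)
    (hlt : ∀ a : Eis, P.valuation L (ι a) < 1 → uni v ∣ a)
    (h01 : P ≠ P1) (h02 : P ≠ P2) (h12 : P1 ≠ P2)
    (e1 : ∀ z, P1.valuation L (σ z) = P.valuation L z)
    (e2 : ∀ z, P2.valuation L (σ z) = P1.valuation L z) : LC (uni v) x := by
  have hρ : P.valuation L (ι (uni v)) ≠ 0 := by
    rw [Valuation.ne_zero_iff]
    exact (map_ne_zero_iff ι h.inj).mpr hu.ne_zero
  set ρ := P.valuation L (ι (uni v)) with hρd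
  set M := V (uni v) (x : Eis) + 4 with hM
  obtain ⟨N, hN⟩ := exists_exp_le (pow_ne_zero M hρ)
  obtain ⟨T, hT, hTP⟩ := approx h h3 h01 h02 h12 e1 e2 N
  obtain ⟨a, b, hb, hab⟩ := hfixed T hT
  apply local_cube hLCI hx hx3 v hu hb (a := a)
  set y := (x : Eis) * b ^ 3 - a ^ 3 with hyd
  by_cases hy0 : y = 0
  · rw [hy0]
    exact dvd_zero _
  rw [pow_dvd_iff hu hy0, add_assoc, ← hM]
  by_contra hcon
  push Not at hcon
  have hθ1 : P.valuation L θ ≤ 1 := by
    have hθ : IsIntegral ℤ θ := by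
      refine IsIntegral.of_pow (n := 3) (by norm_num) ?_
      rw [h.cube]
      exact isIntegral_algebraMap (R := ℤ) (x := x)
    exact P.valuation_le_one (K := L) (⟨θ, hθ⟩ : 𝓞 L)
  have hexp : WithZero.exp (-(N : ℤ)) ≤ (1 : WithZero (Multiplicative ℤ)) := by
    rw [← WithZero.exp_zero, WithZero.exp_le_exp]
    omega
  have hT1 : P.valuation L T ≤ 1 := by
    have e3 : T = θ - (θ - T) := by ring
    rw [e3]
    exact (Valuation.map_sub _ _ _).trans (max_le hθ1 (hTP.trans hexp))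
  have hfac : ι y = (θ - T) * ((ι b) ^ 3 * (θ ^ 2 + θ * T + T ^ 2)) := by
    have h4 : ι (x : Eis) = (x : L) := map_intCast ι x
    have h5 := h.cube
    rw [hyd]
    simp only [map_sub, map_mul, map_pow, h4]
    rw [← hab, ← h5]
    ring
  have hquad : P.valuation L (θ ^ 2 + θ * T + T ^ 2) ≤ 1 := by
    refine (Valuation.map_add _ _ _).trans (max_le ((Valuation.map_add _ _ _).trans
      (max_le ?_ ?_)) ?_)
    · rw [map_pow]
      exact pow_le_one' hθ1 2
    · rw [map_mul]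
      exact mul_le_one' hθ1 hT1
    · rw [map_pow]
      exact pow_le_one' hT1 2
  have hval : P.valuation L (ι y) ≤ ρ ^ M * (P.valuation L (ι b)) ^ 3 := by
    rw [hfac, map_mul, map_mul, map_pow]
    refine mul_le_mul' (hTP.trans hN) ?_
    exact mul_le_of_le_one_right' hquad
  rw [val_eq hu hle hlt hy0, val_eq hu hle hlt hb, ← hρd, ← pow_mul, ← pow_add] at hval
  have h6 : M + V (uni v) b * 3 > V (uni v) y := by omega
  have h7 := pow_lt_pow_right_of_lt_one₀ (zero_lt_iff.mpr hρ) hP h6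
  exact absurd hval (not_le.mpr h7)

theorem prime_uni (v : Pl) : Prime (uni v) := by
  cases v with
  | none => exact prime_lam
  | some π => exact π.2.1

end NCNT

open _root_.Pool.Agent.PT.NCNT in
theorem NCNT_thm (_hSPP : SPP) (hLCI : LCI) (hNHN : NHN) (hNTR : NTR) : NCNT := by
  classical
  intro x L _ _ ι θ σ c hx hx3 _ h v
  obtain ⟨h3, hfixed, -⟩ := hNHN x L ι θ σ c hx h
  obtain ⟨t1, t2, t3, t4, t5, -⟩ := hNTR x L ι θ σ c hx hx3 h
  have hu := prime_uni v
  obtain ⟨P, hP⟩ := (t4 v).2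
  obtain ⟨P1, e1⟩ := t3 P
  obtain ⟨P2, e2⟩ := t3 P1
  have hP' : P.valuation L (ι (uni v)) < 1 := hP
  have hP1 : P1 ∈ Abv ι v := by
    change P1.valuation L (ι (uni v)) < 1
    rw [← h.sι, e1]
    exact hP'
  have hP2 : P2 ∈ Abv ι v := by
    change P2.valuation L (ι (uni v)) < 1
    rw [← h.sι, e2]
    exact hP1
  have e0 : ∀ z, P.valuation L (σ z) = P2.valuation L z := by
    intro z
    rw [← e1 (σ z), ← e2 (σ (σ z)), h3]
  have hall : ∀ Q ∈ Abv ι v, Q = P ∨ Q = P1 ∨ Q = P2 := by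
    intro Q hQ
    obtain ⟨i, hi⟩ := t5 v P Q hP hQ
    have key : ∀ i : ℕ, ∀ Q : HeightOneSpectrum (𝓞 L),
        (∀ z : L, Q.valuation L ((σ ^ i) z) = P.valuation L z) → Q = P ∨ Q = P1 ∨ Q = P2 := by
      intro i
      induction i using Nat.strong_induction_on with
      | _ i ih =>
        intro Q hi
        rcases i with _ | _ | _ | i
        · left
          apply ext_val
          intro z
          simpa using hi z
        · right; left
          apply ext_val
          intro z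
          obtain ⟨y, rfl⟩ := σ.surjective z
          rw [e1]
          simpa using hi y
        · right; right
          apply ext_val
          intro z
          obtain ⟨y, rfl⟩ := σ.surjective z
          obtain ⟨y, rfl⟩ := σ.surjective y
          rw [e2, e1]
          have h4 := hi y
          rw [pow_succ, pow_one] at h4
          exact h4
        · refine ih i (by omega) Q fun z => ?_
          have h4 := hi z
          have h5 : (σ ^ (i + 3)) z = (σ ^ i) z := by
            rw [pow_add]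
            change (σ ^ i) ((σ ^ 3) z) = _
            congr 1
            exact h3 z
          rw [← h5]
          exact h4
    exact key i Q hi
  have hlt : ∀ a : Eis, P.valuation L (ι a) < 1 → uni v ∣ a := by
    obtain ⟨v', -, hv'⟩ := t2 P
    intro a ha
    have h4 : uni v' ∣ uni v := hv' _ hP'
    have h5 : Associated (uni v') (uni v) := (prime_uni v').associated_of_dvd hu h4
    exact h5.symm.dvd.trans (hv' a ha)
  by_cases hfix : P = P1
  · have hfix' : ∀ z : L, P.valuation L (σ z) = P.valuation L z := by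
      intro z
      conv_lhs => rw [hfix]
      exact e1 z
    have hnot : ¬ LC (uni v) x := fun hLC => no_fix h hx (t1 P) hP' hfix' hLC
    rw [if_neg hnot]
    have hP2' : P2 = P := by
      apply ext_val
      intro z
      rw [← e0, hfix']
    have hset : Abv ι v = {P} := by
      ext Q
      rw [Set.mem_singleton_iff]
      constructor
      · intro hQ
        rcases hall Q hQ with h4 | h4 | h4
        · exact h4
        · exact h4.trans hfix.symm
        · exact h4.trans hP2'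
      · rintro rfl
        exact hP
    rw [hset]
    simp
  · have h02 : P ≠ P2 := by
      intro h4
      apply hfix
      apply ext_val
      intro z
      obtain ⟨y, rfl⟩ := σ.surjective z
      rw [e1, e0, ← h4]
    have h12 : P1 ≠ P2 := by
      intro h4
      apply hfix
      apply ext_val
      intro z
      calc P.valuation L z = P1.valuation L (σ z) := (e1 z).symm
        _ = P2.valuation L (σ z) := by rw [h4]
        _ = P1.valuation L z := e2 z
    have hLC : LC (uni v) x :=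
      lc_of hLCI h hx hx3 h3 hfixed hu (t1 P) hP' hlt hfix h02 h12 e1 e2
    rw [if_pos hLC]
    have hset : Abv ι v = {P, P1, P2} := by
      ext Q
      simp only [Set.mem_insert_iff, Set.mem_singleton_iff]
      constructor
      · exact hall Q
      · rintro (rfl | rfl | rfl)
        · exact hP
        · exact hP1
        · exact hP2
    rw [Nat.card_coe_set_eq, hset, Set.ncard_eq_three]
    exact ⟨P, P1, P2, hfix, h02, h12, rfl⟩

end Pool.Agent.PT

end

section

/-!
# NTR: the primes of `L = Q(w, x^(1/3))` above the primes of `Z[w]`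
-/

open NumberField IsDedekindDomain Finset
open scoped nonZeroDivisors Pointwise

namespace Pool.Agent.PT

open Pool.Agent.Lib_helper18 Pool.Agent.Lib_helper18.Eis Pool.Agent.Lib_helper84.Cub

namespace NTR

variable {L : Type} [Field L] [NumberField L]

theorem uni_prime (v : Pl) : Prime (uni v) := by
  cases v with
  | none => exact prime_lam
  | some π => exact π.2.1

theorem isIntegral_io (ι : Eis →+* L) (a : Eis) : IsIntegral ℤ (ι a) := by
  have hw : IsIntegral ℤ (ι w) := by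
    refine IsIntegral.of_pow (n := 3) (by norm_num) ?_
    rw [← map_pow, w_cube, map_one]; exact isIntegral_one
  have hc : ∀ n : ℤ, IsIntegral ℤ ((n : ℤ) : L) := fun n => by
    have := isIntegral_algebraMap (R := ℤ) (A := L) (x := n)
    simpa using this
  rw [eq_re_add_im a, map_add, map_mul, map_intCast, map_intCast]
  exact (hc _).add ((hc _).mul hw)

/-- the map to the ring of integers -/
noncomputable def io (ι : Eis →+* L) : Eis →+* 𝓞 L where
  toFun a := ⟨ι a, isIntegral_io ι a⟩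
  map_one' := RingOfIntegers.ext (map_one ι)
  map_mul' a b := RingOfIntegers.ext (map_mul ι a b)
  map_zero' := RingOfIntegers.ext (map_zero ι)
  map_add' a b := RingOfIntegers.ext (map_add ι a b)

theorem coe_io (ι : Eis →+* L) (a : Eis) : algebraMap (𝓞 L) L (io ι a) = ι a := rfl

theorem val_le_one (ι : Eis →+* L) (P : HeightOneSpectrum (𝓞 L)) (a : Eis) :
    P.valuation L (ι a) ≤ 1 := P.valuation_le_one (io ι a)

theorem val_lt_iff (ι : Eis →+* L) (P : HeightOneSpectrum (𝓞 L)) (a : Eis) :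
    P.valuation L (ι a) < 1 ↔ io ι a ∈ P.asIdeal := P.valuation_lt_one_iff_mem (io ι a)

theorem exists_place (hSPP : SPP) (ι : Eis →+* L) (P : HeightOneSpectrum (𝓞 L)) :
    ∃ v : Pl, P ∈ Abv ι v ∧ ∀ a : Eis, P.valuation L (ι a) < 1 → uni v ∣ a := by
  set I : Ideal Eis := P.asIdeal.comap (io ι) with hI
  have hIp : I.IsPrime := P.isPrime.comap (io ι)
  have hI0 : I ≠ ⊥ := by
    intro h0
    have h1 : ((Ideal.absNorm P.asIdeal : ℕ) : Eis) ∈ I := by
      rw [hI, Ideal.mem_comap, map_natCast]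
      exact Ideal.absNorm_mem P.asIdeal
    rw [h0, Ideal.mem_bot] at h1
    have h2 : Ideal.absNorm P.asIdeal ≠ 0 := fun h => P.ne_bot (Ideal.absNorm_eq_zero_iff.mp h)
    have h3 := congrArg Eis.re h1
    rw [natCast_re, zero_re] at h3
    exact h2 (by exact_mod_cast h3)
  have hl : Prime (Submodule.IsPrincipal.generator I) :=
    Submodule.IsPrincipal.prime_generator_of_isPrime I hI0
  set l := Submodule.IsPrincipal.generator I with hldef
  have hmem : ∀ a : Eis, a ∈ I ↔ l ∣ a := fun a => Submodule.IsPrincipal.mem_iff_generator_dvd I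
  have hv : ∃ v : Pl, Associated l (uni v) := by
    by_cases h3 : l ∣ 3
    · exact ⟨none, (dvd_three_iff hl).mp h3⟩
    · obtain ⟨π, hπ⟩ := hSPP.1 l hl h3
      exact ⟨some π, hπ⟩
  obtain ⟨v, hv⟩ := hv
  refine ⟨v, ?_, fun a ha => ?_⟩
  · show P.valuation L (ι (uni v)) < 1
    rw [val_lt_iff]
    exact (hmem _).mpr hv.dvd
  · rw [val_lt_iff] at ha
    exact hv.symm.dvd.trans ((hmem a).mp ha)

theorem lt_iff (hSPP : SPP) {ι : Eis →+* L} {P : HeightOneSpectrum (𝓞 L)} {v : Pl}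
    (hP : P ∈ Abv ι v) (a : Eis) : P.valuation L (ι a) < 1 ↔ uni v ∣ a := by
  constructor
  · intro h
    obtain ⟨v', h1, h2⟩ := exists_place hSPP ι P
    have h3 : uni v' ∣ uni v := h2 _ hP
    have h4 : Associated (uni v') (uni v) := (uni_prime v').associated_of_dvd (uni_prime v) h3
    exact h4.symm.dvd.trans (h2 a h)
  · rintro ⟨b, rfl⟩
    rw [map_mul, map_mul]
    exact mul_lt_one_of_lt_of_le hP (val_le_one ι P b)

theorem eq_one_of (hSPP : SPP) {ι : Eis →+* L} {P : HeightOneSpectrum (𝓞 L)} {v : Pl}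
    (hP : P ∈ Abv ι v) {a : Eis} (ha : ¬ uni v ∣ a) : P.valuation L (ι a) = 1 := by
  rcases lt_or_eq_of_le (val_le_one ι P a) with h | h
  · exact absurd ((lt_iff hSPP hP a).mp h) ha
  · exact h

theorem reduce (hSPP : SPP) {ι : Eis →+* L} (hinj : Function.Injective ι)
    {P : HeightOneSpectrum (𝓞 L)} {v : Pl}
    (hP : P ∈ Abv ι v) {T : L} {a b : Eis} (hb : b ≠ 0) (hT : T * ι b = ι a)
    (hTP : P.valuation L T < 1) :
    ∃ a' b' : Eis, ¬ uni v ∣ b' ∧ T * ι b' = ι (uni v * a') := by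
  have hl := uni_prime v
  have hιb : ι b ≠ 0 := fun h => hb (hinj (by rw [h, map_zero]))
  by_cases ha : a = 0
  · refine ⟨0, 1, fun h => hl.not_dvd_one h, ?_⟩
    rw [ha, map_zero] at hT
    rcases mul_eq_zero.mp hT with h | h
    · rw [h]; simp
    · exact absurd h hιb
  obtain ⟨a', ha', hla⟩ := V_split hl ha
  obtain ⟨b', hb', hlb⟩ := V_split hl hb
  set n := V (uni v) a with hn
  set m := V (uni v) b with hm
  have hιl : ι (uni v) ≠ 0 := fun h => hl.ne_zero (hinj (by rw [h, map_zero]))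
  set t := P.valuation L (ι (uni v)) with ht
  have ht1 : t < 1 := hP
  have ht0 : t ≠ 0 := by rw [ht]; exact (Valuation.ne_zero_iff _).mpr hιl
  have hv1 := congrArg (P.valuation L) hT
  rw [ha', hb', map_mul, map_mul ι, map_mul ι, map_mul, map_mul, map_pow, map_pow, map_pow,
    map_pow, eq_one_of hSPP hP hla, eq_one_of hSPP hP hlb, mul_one, mul_one, ← ht] at hv1
  have hmn : m < n := by
    by_contra hcon
    push Not at hcon
    have h1 : t ^ m ≤ t ^ n := pow_le_pow_right_of_le_one' ht1.le hcon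
    rw [← hv1] at h1
    have h2 : P.valuation L T * t ^ m < 1 * t ^ m := by
      exact mul_lt_mul_of_pos_right hTP (zero_lt_iff.mpr (pow_ne_zero _ ht0))
    rw [one_mul] at h2
    exact absurd h1 (not_le.mpr h2)
  obtain ⟨k, hk⟩ : ∃ k, n = m + (k + 1) := ⟨n - m - 1, by omega⟩
  refine ⟨uni v ^ k * a', b', hlb, ?_⟩
  have h3 : ι (uni v) ^ m ≠ 0 := pow_ne_zero _ hιl
  apply mul_left_cancel₀ h3
  rw [ha', hb', hk] at hT
  simp only [map_mul, map_pow] at hT ⊢
  calc ι (uni v) ^ m * (T * ι b') = T * (ι (uni v) ^ m * ι b') := by ring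
    _ = _ := hT
    _ = _ := by ring

theorem exists_map (σ : L ≃ₐ[ℚ] L) (P : HeightOneSpectrum (𝓞 L)) :
    ∃ P' : HeightOneSpectrum (𝓞 L), ∀ z : L, P'.valuation L (σ z) = P.valuation L z := by
  set e : 𝓞 L ≃+* 𝓞 L := RingOfIntegers.mapRingEquiv (σ : L ≃+* L) with he
  have hmem : ∀ (n : ℕ) (r : 𝓞 L), e r ∈ (P.asIdeal.map e) ^ n ↔ r ∈ P.asIdeal ^ n := by
    intro n r
    rw [← Ideal.map_pow, Ideal.mem_map_of_equiv]
    constructor
    · rintro ⟨x, hx, hxr⟩
      rwa [e.injective hxr] at hx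
    · intro h
      exact ⟨r, h, rfl⟩
  let P' : HeightOneSpectrum (𝓞 L) :=
    { asIdeal := P.asIdeal.map e
      isPrime := Ideal.map_isPrime_of_equiv e
      ne_bot := fun h => P.ne_bot ((Ideal.map_eq_bot_iff_of_injective e.injective).mp h) }
  refine ⟨P', ?_⟩
  have hint : ∀ r : 𝓞 L, P'.intValuation (e r) = P.intValuation r := by
    intro r
    by_cases hr : r = 0
    · rw [hr, map_zero, map_zero, map_zero]
    have her : e r ≠ 0 := fun h => hr (e.injective (by rw [h, map_zero]))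
    have hk : ∀ (n : ℕ), P'.intValuation (e r) ≤ WithZero.exp (-(n : ℤ)) ↔
        P.intValuation r ≤ WithZero.exp (-(n : ℤ)) := by
      intro n
      rw [HeightOneSpectrum.intValuation_le_pow_iff_mem,
        HeightOneSpectrum.intValuation_le_pow_iff_mem]
      exact hmem n r
    have h1 := P'.intValuation_eq_exp_neg_multiplicity her
    have h2 := P.intValuation_eq_exp_neg_multiplicity hr
    refine le_antisymm ?_ ?_
    · rw [h2]
      exact (hk _).mpr h2.le
    · rw [h1]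
      exact (hk _).mp h1.le
  have halg : ∀ r : 𝓞 L, σ (algebraMap (𝓞 L) L r) = algebraMap (𝓞 L) L (e r) := fun r => rfl
  intro z
  obtain ⟨x, y, hy, rfl⟩ := IsFractionRing.div_surjective (A := 𝓞 L) z
  rw [map_div₀, map_div₀, map_div₀, halg, halg, HeightOneSpectrum.valuation_of_algebraMap,
    HeightOneSpectrum.valuation_of_algebraMap, HeightOneSpectrum.valuation_of_algebraMap,
    HeightOneSpectrum.valuation_of_algebraMap, hint, hint]

theorem io_ne_zero {ι : Eis →+* L} (hinj : Function.Injective ι) {a : Eis} (ha : a ≠ 0) :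
    io ι a ≠ 0 := by
  intro h
  apply ha
  apply hinj
  rw [map_zero, ← coe_io, h, map_zero]

theorem abv_finite {ι : Eis →+* L} (hinj : Function.Injective ι) (v : Pl) : (Abv ι v).Finite := by
  have h0 := io_ne_zero hinj (uni_prime v).ne_zero
  have h1 : Ideal.span {io ι (uni v)} ≠ 0 := by
    intro h
    exact h0 (Ideal.span_singleton_eq_bot.mp h)
  refine (Ideal.finite_factors h1).subset ?_
  intro P hP
  exact (P.valuation_lt_one_iff_dvd (K := L) (io ι (uni v))).mp hP

theorem not_isUnit_io {ι : Eis →+* L} (hinj : Function.Injective ι) {c : L ≃ₐ[ℚ] L}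
    (hc : ∀ a : Eis, c (ι a) = ι (conj a)) (v : Pl) : ¬ IsUnit (io ι (uni v)) := by
  intro hu
  obtain ⟨z, hz⟩ := hu.exists_right_inv
  have h1 : ι (uni v) * (z : L) = 1 := by
    have := congrArg (algebraMap (𝓞 L) L) hz
    rw [map_mul, map_one] at this
    exact this
  have h2 : ι (conj (uni v)) * c (z : L) = 1 := by
    rw [← hc, ← map_mul, h1, map_one]
  have hzi : IsIntegral ℤ ((z : L) * c (z : L)) := by
    have hz1 : IsIntegral ℤ (z : L) := z.2
    exact hz1.mul (map_isIntegral_int c hz1)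
  set N := (uni v).norm with hN
  have h3 : ((N : ℤ) : L) * ((z : L) * c (z : L)) = 1 := by
    have h4 : ι (uni v) * ι (conj (uni v)) = ((N : ℤ) : L) := by
      rw [← map_mul, mul_conj, map_intCast]
    rw [← h4]
    calc ι (uni v) * ι (conj (uni v)) * ((z : L) * c (z : L))
        = (ι (uni v) * (z : L)) * (ι (conj (uni v)) * c (z : L)) := by ring
      _ = 1 := by rw [h1, h2, mul_one]
  have hN0 : N ≠ 0 := fun h => (uni_prime v).ne_zero (norm_eq_zero.mp h)
  have hNL : ((N : ℤ) : L) ≠ 0 := by exact_mod_cast hN0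
  have h5 : (z : L) * c (z : L) = algebraMap ℚ L ((N : ℚ)⁻¹) := by
    rw [map_inv₀, map_intCast]
    exact (eq_inv_of_mul_eq_one_right h3)
  rw [h5] at hzi
  have h6 : IsIntegral ℤ ((N : ℚ)⁻¹) := (isIntegral_algebraMap_iff (algebraMap ℚ L).injective).mp hzi
  obtain ⟨k, hk⟩ := IsIntegrallyClosed.isIntegral_iff.mp h6
  have h7 : (k : ℚ) * N = 1 := by
    have hk' : (k : ℚ) = (N : ℚ)⁻¹ := by simpa using hk
    rw [hk']
    exact inv_mul_cancel₀ (by exact_mod_cast hN0)
  have h8 : k * N = 1 := by exact_mod_cast h7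
  have h9 : N = 1 := by
    rcases Int.eq_one_or_neg_one_of_mul_eq_one' h8 with h | h
    · exact h.2
    · have := norm_nonneg (uni v)
      omega
  exact (uni_prime v).not_unit (isUnit_iff_norm.mpr h9)

theorem abv_nonempty {ι : Eis →+* L} (hinj : Function.Injective ι) {c : L ≃ₐ[ℚ] L}
    (hc : ∀ a : Eis, c (ι a) = ι (conj a)) (v : Pl) : (Abv ι v).Nonempty := by
  obtain ⟨M, hM, hmem⟩ := exists_max_ideal_of_mem_nonunits
    (show io ι (uni v) ∈ nonunits (𝓞 L) from not_isUnit_io hinj hc v)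
  have h0 : M ≠ ⊥ := by
    intro h
    rw [h, Ideal.mem_bot] at hmem
    exact io_ne_zero hinj (uni_prime v).ne_zero hmem
  refine ⟨⟨M, hM.isPrime, h0⟩, ?_⟩
  show HeightOneSpectrum.valuation L _ (ι (uni v)) < 1
  rw [val_lt_iff]
  exact hmem

theorem transitive (hSPP : SPP) {ι : Eis →+* L} (hinj : Function.Injective ι) {σ : L ≃ₐ[ℚ] L}
    (hσ3 : ∀ z : L, σ (σ (σ z)) = z)
    (hfix : ∀ z : L, σ z = z → ∃ a b : Eis, b ≠ 0 ∧ z * ι b = ι a)
    (v : Pl) (P P' : HeightOneSpectrum (𝓞 L)) (hP : P ∈ Abv ι v) (hP' : P' ∈ Abv ι v) :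
    ∃ i : ℕ, ∀ z : L, P'.valuation L ((σ ^ i) z) = P.valuation L z := by
  obtain ⟨P1, h1⟩ := exists_map σ P
  obtain ⟨P2, h2⟩ := exists_map σ P1
  by_contra hcon
  push Not at hcon
  have hn0 : P' ≠ P := by
    rintro rfl
    obtain ⟨z, hz⟩ := hcon 0
    exact hz (by rw [pow_zero]; rfl)
  have hn1 : P' ≠ P1 := by
    rintro rfl
    obtain ⟨z, hz⟩ := hcon 1
    exact hz (by rw [pow_one]; exact h1 z)
  have hn2 : P' ≠ P2 := by
    rintro rfl
    obtain ⟨z, hz⟩ := hcon 2
    exact hz (by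
      rw [pow_two]
      show P'.valuation L (σ (σ z)) = _
      rw [h2, h1])
  let f : Fin 3 → Ideal (𝓞 L) := ![P.asIdeal, P1.asIdeal, P2.asIdeal]
  have hfp : ∀ i, (f i).IsPrime := by
    intro i
    fin_cases i
    · exact P.isPrime
    · exact P1.isPrime
    · exact P2.isPrime
  have hne : ∀ Q : HeightOneSpectrum (𝓞 L), P' ≠ Q → ¬ P'.asIdeal ≤ Q.asIdeal := by
    intro Q hQ hle
    have h3 : P'.asIdeal = Q.asIdeal := P'.isMaximal.eq_of_le Q.isPrime.ne_top hle
    exact hQ (HeightOneSpectrum.ext h3)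
  have hnot : ¬ ((P'.asIdeal : Set (𝓞 L)) ⊆ ⋃ i ∈ ((Finset.univ : Finset (Fin 3)) : Set (Fin 3)), f i) := by
    intro hsub
    obtain ⟨i, _, hi⟩ := (Ideal.subset_union_prime (0 : Fin 3) 0 (fun i _ _ _ => hfp i)).mp hsub
    fin_cases i
    · exact hne P hn0 hi
    · exact hne P1 hn1 hi
    · exact hne P2 hn2 hi
  obtain ⟨z, hz, hz2⟩ := Set.not_subset.mp hnot
  have hzi : ∀ i, z ∉ f i := by
    intro i hi
    apply hz2
    simp only [Set.mem_iUnion]
    exact ⟨i, by simp, hi⟩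
  set Z : L := algebraMap (𝓞 L) L z with hZ
  have hv0 : P.valuation L Z = 1 := P.valuation_eq_one_iff_notMem.mpr (hzi 0)
  have hv1 : P1.valuation L Z = 1 := P1.valuation_eq_one_iff_notMem.mpr (hzi 1)
  have hv2 : P2.valuation L Z = 1 := P2.valuation_eq_one_iff_notMem.mpr (hzi 2)
  have hv' : P'.valuation L Z < 1 := (P'.valuation_lt_one_iff_mem z).mpr hz
  have hint : ∀ (Q : HeightOneSpectrum (𝓞 L)) (y : L), IsIntegral ℤ y → Q.valuation L y ≤ 1 :=
    fun Q y hy => Q.valuation_le_one (⟨y, hy⟩ : 𝓞 L)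
  have hZi : IsIntegral ℤ Z := z.2
  have hZ1 : IsIntegral ℤ (σ Z) := map_isIntegral_int σ hZi
  have hZ2 : IsIntegral ℤ (σ (σ Z)) := map_isIntegral_int σ hZ1
  set T : L := Z * σ Z * σ (σ Z) with hT
  have hTfix : σ T = T := by
    rw [hT, map_mul, map_mul, hσ3]; ring
  obtain ⟨a, b, hb, hab⟩ := hfix T hTfix
  have hT' : P'.valuation L T < 1 := by
    rw [hT, mul_assoc, map_mul, map_mul]
    exact mul_lt_one_of_lt_of_le hv' (mul_le_one' (hint P' _ hZ1) (hint P' _ hZ2))
  obtain ⟨a', b', hb', hab'⟩ := reduce hSPP hinj hP' hb hab hT'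
  have hTP : P.valuation L T < 1 := by
    have h5 := congrArg (P.valuation L) hab'
    rw [map_mul, eq_one_of hSPP hP hb', mul_one] at h5
    rw [h5]
    exact (lt_iff hSPP hP _).mpr (dvd_mul_right _ _)
  have hTP1 : P.valuation L T = 1 := by
    rw [hT, map_mul, map_mul, hv0, one_mul]
    have e1 : P.valuation L (σ Z) = 1 := by
      rw [← h1, ← h2, hσ3, hv2]
    have e2 : P.valuation L (σ (σ Z)) = 1 := by
      rw [← h1, hσ3, hv1]
    rw [e1, e2, one_mul]
  rw [hTP1] at hTP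
  exact lt_irrefl _ hTP

/-- traces with small valuation are divisible by the uniformizer -/
theorem trace_dvd (hSPP : SPP) {ι : Eis →+* L} (hinj : Function.Injective ι) {σ : L ≃ₐ[ℚ] L}
    (hσ3 : ∀ z : L, σ (σ (σ z)) = z)
    (hfix : ∀ z : L, σ z = z → ∃ a b : Eis, b ≠ 0 ∧ z * ι b = ι a)
    {v : Pl} {P : HeightOneSpectrum (𝓞 L)} (hP : P ∈ Abv ι v) {s : L} (hs : IsIntegral ℤ s)
    (h0 : P.valuation L s < 1) (h1 : P.valuation L (σ s) < 1)
    (h2 : P.valuation L (σ (σ s)) < 1) :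
    ∃ t : L, IsIntegral ℤ t ∧ s + σ s + σ (σ s) = ι (uni v) * t := by
  set T : L := s + σ s + σ (σ s) with hT
  have hTfix : σ T = T := by
    rw [hT, map_add, map_add, hσ3]; ring
  obtain ⟨a, b, hb, hab⟩ := hfix T hTfix
  have hTP : P.valuation L T < 1 := by
    rw [hT]
    exact lt_of_le_of_lt (Valuation.map_add _ _ _)
      (max_lt (lt_of_le_of_lt (Valuation.map_add _ _ _) (max_lt h0 h1)) h2)
  obtain ⟨a', b', hb', hab'⟩ := reduce hSPP hinj hP hb hab hTP
  have hl := uni_prime v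
  obtain ⟨m, n, hmn⟩ := (hl.coprime_iff_not_dvd.mpr hb' : IsCoprime (uni v) b')
  have hTi : IsIntegral ℤ T := by
    have h3 : IsIntegral ℤ (σ s) := map_isIntegral_int σ hs
    have h4 : IsIntegral ℤ (σ (σ s)) := map_isIntegral_int σ h3
    exact (hs.add h3).add h4
  refine ⟨ι m * T + ι n * ι a', ((isIntegral_io ι m).mul hTi).add
    ((isIntegral_io ι n).mul (isIntegral_io ι a')), ?_⟩
  have h5 : T = T * ι (m * uni v + n * b') := by rw [hmn, map_one, mul_one]
  have h6 : ι (m * uni v + n * b') = ι m * ι (uni v) + ι n * ι b' := by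
    simp only [map_add, map_mul]
  rw [h6] at h5
  rw [map_mul] at hab'
  calc T = T * (ι m * ι (uni v) + ι n * ι b') := h5
    _ = T * ι m * ι (uni v) + ι n * (T * ι b') := by ring
    _ = T * ι m * ι (uni v) + ι n * (ι (uni v) * ι a') := by rw [hab']
    _ = _ := by ring

theorem reduced (hSPP : SPP) {x : ℤ} {ι : Eis →+* L} {θ : L} {σ c : L ≃ₐ[ℚ] L}
    (hF : CubF x L ι θ σ c)
    (hσ3 : ∀ z : L, σ (σ (σ z)) = z)
    (hfix : ∀ z : L, σ z = z → ∃ a b : Eis, b ≠ 0 ∧ z * ι b = ι a)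
    {π : PP} {P : HeightOneSpectrum (𝓞 L)} (hx : ¬ π.1 ∣ (x : Eis))
    (hP : P ∈ Abv ι (some π)) {y u : L} (hy : IsIntegral ℤ y) (hu : IsIntegral ℤ u)
    (hyu : y ^ 2 = ι π.1 * u) : ∃ t : L, IsIntegral ℤ t ∧ y = ι π.1 * t := by
  have hinj := hF.inj
  have hθi : IsIntegral ℤ θ := by
    refine IsIntegral.of_pow (n := 3) (by norm_num) ?_
    rw [hF.cube]
    have := isIntegral_algebraMap (R := ℤ) (A := L) (x := x)
    simpa using this
  have hint : ∀ (Q : HeightOneSpectrum (𝓞 L)) (y : L), IsIntegral ℤ y → Q.valuation L y ≤ 1 :=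
    fun Q y hy => Q.valuation_le_one (⟨y, hy⟩ : 𝓞 L)
  have hσi : ∀ z : L, IsIntegral ℤ z → IsIntegral ℤ (σ z) := fun z hz => map_isIntegral_int σ hz
  have hPlt : P.valuation L (ι π.1) < 1 := hP
  -- small valuations of all conjugates
  have key : ∀ z t : L, IsIntegral ℤ t → z ^ 2 = ι π.1 * t → P.valuation L z < 1 := by
    intro z t ht hzt
    have h1 : P.valuation L z ^ 2 < 1 := by
      rw [← map_pow, hzt, map_mul]
      exact mul_lt_one_of_lt_of_le hPlt (hint P t ht)
    by_contra hcon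
    push Not at hcon
    exact absurd (one_le_pow₀ hcon (n := 2)) (not_le.mpr h1)
  have hy1 : σ y ^ 2 = ι π.1 * σ u := by
    rw [← map_pow, hyu, map_mul, hF.sι]
  have hy2 : σ (σ y) ^ 2 = ι π.1 * σ (σ u) := by
    rw [← map_pow, hy1, map_mul, hF.sι]
  have k0 := key y u hu hyu
  have k1 := key (σ y) (σ u) (hσi _ hu) hy1
  have k2 := key (σ (σ y)) (σ (σ u)) (hσi _ (hσi _ hu)) hy2
  have htr : ∀ t : L, IsIntegral ℤ t → ∃ s : L, IsIntegral ℤ s ∧
      y * t + σ (y * t) + σ (σ (y * t)) = ι π.1 * s := by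
    intro t ht
    refine trace_dvd hSPP hinj hσ3 hfix hP (hy.mul ht) ?_ ?_ ?_
    · rw [map_mul]
      exact mul_lt_one_of_lt_of_le k0 (hint P t ht)
    · rw [map_mul, map_mul]
      exact mul_lt_one_of_lt_of_le k1 (hint P _ (hσi _ ht))
    · rw [map_mul, map_mul, map_mul]
      exact mul_lt_one_of_lt_of_le k2 (hint P _ (hσi _ (hσi _ ht)))
  obtain ⟨s0, hs0, e0⟩ := htr 1 isIntegral_one
  obtain ⟨s1, hs1, e1⟩ := htr θ hθi
  obtain ⟨s2, hs2, e2⟩ := htr (θ ^ 2) (hθi.pow 2)
  have hw : ι w ^ 2 + ι w + 1 = 0 := by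
    rw [← map_pow, ← map_one ι, ← map_add, ← map_add, w_rel, map_zero]
  have hw3 : ι w ^ 3 = 1 := by rw [← map_pow, w_cube, map_one]
  have hcube := hF.cube
  have hmain : 3 * (x : L) * y = ι π.1 * ((x : L) * s0 + θ * s2 + θ ^ 2 * s1) := by
    have h1 : 3 * (x : L) * y = (x : L) * (y * 1 + σ (y * 1) + σ (σ (y * 1))) +
        θ * (y * θ ^ 2 + σ (y * θ ^ 2) + σ (σ (y * θ ^ 2))) +
        θ ^ 2 * (y * θ + σ (y * θ) + σ (σ (y * θ))) := by
      simp only [map_mul, map_pow, hF.sθ, hF.sι, mul_one, map_one]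
      rw [← hcube]
      have hw4 : ι w ^ 4 = ι w := by
        calc ι w ^ 4 = ι w ^ 3 * ι w := by ring
          _ = ι w := by rw [hw3, one_mul]
      have e1' : θ ^ 3 * (σ y * (ι w ^ 2 + ι w + 1)) = 0 := by rw [hw]; ring
      have e2' : θ ^ 3 * (σ (σ y) * (ι w ^ 4 + ι w ^ 2 + 1)) = 0 := by
        rw [hw4]
        have : ι w + ι w ^ 2 + 1 = 0 := by rw [← hw]; ring
        rw [this]; ring
      linear_combination (-1 : L) * e1' - e2'
    rw [h1, e0, e1, e2]
    ring
  have h3 : ¬ π.1 ∣ (3 * x : Eis) := by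
    intro h
    rcases π.2.1.dvd_or_dvd h with h | h
    · exact (hSPP.2.2.2.1 π).1 h
    · exact hx h
  obtain ⟨m, n, hmn⟩ := (π.2.1.coprime_iff_not_dvd.mpr h3 : IsCoprime π.1 (3 * x : Eis))
  have hxi : IsIntegral ℤ (x : L) := by
    have := isIntegral_algebraMap (R := ℤ) (A := L) (x := x)
    simpa using this
  refine ⟨ι m * y + ι n * ((x : L) * s0 + θ * s2 + θ ^ 2 * s1), ?_, ?_⟩
  · exact ((isIntegral_io ι m).mul hy).add ((isIntegral_io ι n).mul
      (((hxi.mul hs0).add (hθi.mul hs2)).add ((hθi.pow 2).mul hs1)))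
  · have h5 : y = y * ι (m * π.1 + n * (3 * x : Eis)) := by rw [hmn, map_one, mul_one]
    have h6 : ι (m * π.1 + n * (3 * x : Eis)) = ι m * ι π.1 + ι n * (3 * (x : L)) := by
      simp only [map_add, map_mul, map_intCast, map_ofNat]
    rw [h6] at h5
    calc y = y * (ι m * ι π.1 + ι n * (3 * (x : L))) := h5
      _ = ι m * ι π.1 * y + ι n * (3 * (x : L) * y) := by ring
      _ = _ := by rw [hmain]; ring

theorem unram (hSPP : SPP) {x : ℤ} {ι : Eis →+* L} {θ : L} {σ c : L ≃ₐ[ℚ] L}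
    (hF : CubF x L ι θ σ c)
    (hσ3 : ∀ z : L, σ (σ (σ z)) = z)
    (hfix : ∀ z : L, σ z = z → ∃ a b : Eis, b ≠ 0 ∧ z * ι b = ι a)
    (π : PP) (P : HeightOneSpectrum (𝓞 L)) (hx : ¬ π.1 ∣ (x : Eis))
    (hP : P ∈ Abv ι (some π)) : P.valuation L (ι π.1) = WithZero.exp (-1 : ℤ) := by
  have hinj := hF.inj
  have hp0 : io ι π.1 ≠ 0 := io_ne_zero hinj π.2.1.ne_zero
  set p := io ι π.1 with hp
  have hnot : p ∉ P.asIdeal ^ 2 := by
    intro hmem
    have hdvd : P.asIdeal ^ 2 ∣ Ideal.span {p} := Ideal.dvd_span_singleton.mpr hmem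
    obtain ⟨J', hJ'⟩ := hdvd
    set J : Ideal (𝓞 L) := P.asIdeal * J' with hJ
    have hpJ : Ideal.span {p} = P.asIdeal * J := by rw [hJ', hJ, pow_two, mul_assoc]
    have hJ2 : J * J ≤ Ideal.span {p} := by
      have h1 : J * J = Ideal.span {p} * J' := by
        rw [hJ', hJ]; ring
      rw [h1]
      exact Ideal.mul_le_left
    have hpne : Ideal.span {p} ≠ (0 : Ideal (𝓞 L)) := fun h => hp0 (Ideal.span_singleton_eq_bot.mp h)
    have hJ0 : J ≠ 0 := by
      intro h
      rw [h, mul_zero] at hpJ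
      exact hpne hpJ
    have hnle : ¬ J ≤ Ideal.span {p} := by
      intro hle
      have h1 : J = P.asIdeal * J := le_antisymm (by rw [← hpJ]; exact hle) Ideal.mul_le_right
      have h2 : (1 : Ideal (𝓞 L)) * J = P.asIdeal * J := by rw [one_mul]; exact h1
      have h3 : (1 : Ideal (𝓞 L)) = P.asIdeal := mul_right_cancel₀ hJ0 h2
      exact P.isPrime.ne_top (by rw [← h3, Ideal.one_eq_top])
    obtain ⟨y, hyJ, hyp⟩ := Set.not_subset.mp hnle
    have hy2 : y * y ∈ Ideal.span {p} := hJ2 (Ideal.mul_mem_mul hyJ hyJ)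
    obtain ⟨u, hu⟩ := Ideal.mem_span_singleton.mp hy2
    have hu' : (y : L) ^ 2 = ι π.1 * (u : L) := by
      have := congrArg (algebraMap (𝓞 L) L) hu
      rw [map_mul, map_mul, ← pow_two] at this
      exact this
    obtain ⟨t, ht, hyt⟩ := reduced hSPP hF hσ3 hfix hx hP y.2 u.2 hu'
    apply hyp
    show y ∈ Ideal.span {p}
    rw [Ideal.mem_span_singleton]
    set t' : 𝓞 L := ⟨t, ht⟩ with ht'
    exact ⟨t', RingOfIntegers.ext (hyt.trans (map_mul (algebraMap (𝓞 L) L) p t').symm)⟩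
  have hval : P.valuation L (ι π.1) = P.intValuation p := P.valuation_of_algebraMap p
  rw [hval, P.intValuation_eq_exp_neg_multiplicity hp0]
  have hlt : P.intValuation p < 1 := by rw [← hval]; exact hP
  set k := multiplicity P.asIdeal (Ideal.span {p}) with hk
  have hk' := P.intValuation_eq_exp_neg_multiplicity hp0
  rw [← hk] at hk'
  have hk1 : 1 ≤ k := by
    by_contra h
    have h0 : k = 0 := by omega
    rw [h0] at hk'
    rw [hk'] at hlt
    simp at hlt
  have hk2 : k < 2 := by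
    by_contra h
    push Not at h
    apply hnot
    rw [← P.intValuation_le_pow_iff_mem, hk', WithZero.exp_le_exp]
    push_cast
    omega
  have hk3 : k = 1 := by omega
  rw [hk3]
  norm_num

end NTR

theorem NTR_thm (hSPP : SPP) (hNHN : NHN) : NTR := by
  intro x L _ _ ι θ σ c hx0 hx3 hF
  obtain ⟨hσ3, hfix, -⟩ := hNHN x L ι θ σ c hx0 hF
  exact ⟨fun P a => NTR.val_le_one ι P a, fun P => NTR.exists_place hSPP ι P,
    fun P => NTR.exists_map σ P,
    fun v => ⟨NTR.abv_finite hF.inj v, NTR.abv_nonempty hF.inj hF.cι v⟩,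
    fun v P P' hP hP' => NTR.transitive hSPP hF.inj hσ3 hfix v P P' hP hP',
    fun π P hπ hP => NTR.unram hSPP hF hσ3 hfix π P hπ hP⟩

end Pool.Agent.PT

end

section

/-!
# PTK_NTR: the primes of `L = K(x^(1/3))` above the primes of `Z[w]`
-/

set_option autoImplicit false

open NumberField IsDedekindDomain Finset
open scoped nonZeroDivisors Pointwise

namespace Pool.Agent.PTK

open Pool.Agent.Lib_helper18 Pool.Agent.Lib_helper18.Eis Pool.Agent.Lib_helper84.Cub
open Pool.Agent.PT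

namespace NTR

open Pool.Agent.PT.NTR (uni_prime isIntegral_io io coe_io val_le_one val_lt_iff exists_place lt_iff
  eq_one_of reduce exists_map io_ne_zero abv_finite transitive trace_dvd)

variable {L : Type} [Field L] [NumberField L]

/-- `Z[w]` is integrally closed -/
theorem isUnit_of_int {ι : Eis →+* L} (hinj : Function.Injective ι) {u : Eis} {z : L}
    (hz : IsIntegral ℤ z) (h : ι u * z = 1) : IsUnit u := by
  have hu : u ≠ 0 := by
    rintro rfl
    rw [map_zero, zero_mul] at h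
    exact zero_ne_one h
  let f : FractionRing Eis →+* L := IsFractionRing.lift hinj
  have hf : ∀ a : Eis, f (algebraMap Eis (FractionRing Eis) a) = ι a := fun a =>
    IsFractionRing.lift_algebraMap hinj a
  have huK : algebraMap Eis (FractionRing Eis) u ≠ 0 := by
    rw [Ne, IsFractionRing.to_map_eq_zero_iff]
    exact hu
  have h1 : f ((algebraMap Eis (FractionRing Eis) u)⁻¹) = z := by
    rw [map_inv₀, hf]
    exact (eq_inv_of_mul_eq_one_right h).symm
  have h3 : IsIntegral Eis ((algebraMap Eis (FractionRing Eis) u)⁻¹) := by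
    obtain ⟨q, hq, hq0⟩ := hz
    refine ⟨q.map (Int.castRingHom Eis), hq.map _, ?_⟩
    rw [Polynomial.eval₂_map]
    apply f.injective
    rw [Polynomial.hom_eval₂, h1, map_zero, ← hq0]
    congr 1
    exact RingHom.ext_int _ _
  obtain ⟨y, hy⟩ := IsIntegrallyClosed.isIntegral_iff.mp h3
  have h4 : algebraMap Eis (FractionRing Eis) (u * y) = algebraMap Eis (FractionRing Eis) 1 := by
    rw [map_mul, hy, map_one, mul_inv_cancel₀ huK]
  have h5 : u * y = 1 := IsFractionRing.injective Eis (FractionRing Eis) h4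
  exact IsUnit.of_mul_eq_one y h5

theorem not_isUnit_io {ι : Eis →+* L} (hinj : Function.Injective ι) (v : Pl) :
    ¬ IsUnit (io ι (uni v)) := by
  intro hu
  obtain ⟨z, hz⟩ := hu.exists_right_inv
  have h1 : ι (uni v) * (z : L) = 1 := by
    have := congrArg (algebraMap (𝓞 L) L) hz
    rw [map_mul, map_one] at this
    exact this
  exact (uni_prime v).not_isUnit (isUnit_of_int hinj z.2 h1)

theorem abv_nonempty {ι : Eis →+* L} (hinj : Function.Injective ι) (v : Pl) :
    (Abv ι v).Nonempty := by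
  obtain ⟨M, hM, hmem⟩ := exists_max_ideal_of_mem_nonunits
    (show io ι (uni v) ∈ nonunits (𝓞 L) from not_isUnit_io hinj v)
  have h0 : M ≠ ⊥ := by
    intro h
    rw [h, Ideal.mem_bot] at hmem
    exact io_ne_zero hinj (uni_prime v).ne_zero hmem
  refine ⟨⟨M, hM.isPrime, h0⟩, ?_⟩
  show HeightOneSpectrum.valuation L _ (ι (uni v)) < 1
  rw [Pool.Agent.PT.NTR.val_lt_iff]
  exact hmem

theorem reduced (hSPP : SPP) {x : Eis} {ι : Eis →+* L} {θ : L} {σ : L ≃ₐ[ℚ] L}
    (hF : CubE x L ι θ σ)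
    (hσ3 : ∀ z : L, σ (σ (σ z)) = z)
    (hfix : ∀ z : L, σ z = z → ∃ a b : Eis, b ≠ 0 ∧ z * ι b = ι a)
    {π : PP} {P : HeightOneSpectrum (𝓞 L)} (hx : ¬ π.1 ∣ x)
    (hP : P ∈ Abv ι (some π)) {y u : L} (hy : IsIntegral ℤ y) (hu : IsIntegral ℤ u)
    (hyu : y ^ 2 = ι π.1 * u) : ∃ t : L, IsIntegral ℤ t ∧ y = ι π.1 * t := by
  have hinj := hF.inj
  have hθi : IsIntegral ℤ θ := by
    refine IsIntegral.of_pow (n := 3) (by norm_num) ?_
    rw [hF.cube]
    exact isIntegral_io ι x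
  have hint : ∀ (Q : HeightOneSpectrum (𝓞 L)) (y : L), IsIntegral ℤ y → Q.valuation L y ≤ 1 :=
    fun Q y hy => Q.valuation_le_one (⟨y, hy⟩ : 𝓞 L)
  have hσi : ∀ z : L, IsIntegral ℤ z → IsIntegral ℤ (σ z) := fun z hz => map_isIntegral_int σ hz
  have hPlt : P.valuation L (ι π.1) < 1 := hP
  -- small valuations of all conjugates
  have key : ∀ z t : L, IsIntegral ℤ t → z ^ 2 = ι π.1 * t → P.valuation L z < 1 := by
    intro z t ht hzt
    have h1 : P.valuation L z ^ 2 < 1 := by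
      rw [← map_pow, hzt, map_mul]
      exact mul_lt_one_of_lt_of_le hPlt (hint P t ht)
    by_contra hcon
    push Not at hcon
    exact absurd (one_le_pow₀ hcon (n := 2)) (not_le.mpr h1)
  have hy1 : σ y ^ 2 = ι π.1 * σ u := by
    rw [← map_pow, hyu, map_mul, hF.sι]
  have hy2 : σ (σ y) ^ 2 = ι π.1 * σ (σ u) := by
    rw [← map_pow, hy1, map_mul, hF.sι]
  have k0 := key y u hu hyu
  have k1 := key (σ y) (σ u) (hσi _ hu) hy1
  have k2 := key (σ (σ y)) (σ (σ u)) (hσi _ (hσi _ hu)) hy2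
  have htr : ∀ t : L, IsIntegral ℤ t → ∃ s : L, IsIntegral ℤ s ∧
      y * t + σ (y * t) + σ (σ (y * t)) = ι π.1 * s := by
    intro t ht
    refine trace_dvd hSPP hinj hσ3 hfix hP (hy.mul ht) ?_ ?_ ?_
    · rw [map_mul]
      exact mul_lt_one_of_lt_of_le k0 (hint P t ht)
    · rw [map_mul, map_mul]
      exact mul_lt_one_of_lt_of_le k1 (hint P _ (hσi _ ht))
    · rw [map_mul, map_mul, map_mul]
      exact mul_lt_one_of_lt_of_le k2 (hint P _ (hσi _ (hσi _ ht)))
  obtain ⟨s0, hs0, e0⟩ := htr 1 isIntegral_one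
  obtain ⟨s1, hs1, e1⟩ := htr θ hθi
  obtain ⟨s2, hs2, e2⟩ := htr (θ ^ 2) (hθi.pow 2)
  have hw : ι w ^ 2 + ι w + 1 = 0 := by
    rw [← map_pow, ← map_one ι, ← map_add, ← map_add, w_rel, map_zero]
  have hw3 : ι w ^ 3 = 1 := by rw [← map_pow, w_cube, map_one]
  have hcube := hF.cube
  have hmain : 3 * ι x * y = ι π.1 * (ι x * s0 + θ * s2 + θ ^ 2 * s1) := by
    have h1 : 3 * ι x * y = ι x * (y * 1 + σ (y * 1) + σ (σ (y * 1))) +
        θ * (y * θ ^ 2 + σ (y * θ ^ 2) + σ (σ (y * θ ^ 2))) +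
        θ ^ 2 * (y * θ + σ (y * θ) + σ (σ (y * θ))) := by
      simp only [map_mul, map_pow, hF.sθ, hF.sι, mul_one]
      rw [← hcube]
      have hw4 : ι w ^ 4 = ι w := by
        calc ι w ^ 4 = ι w ^ 3 * ι w := by ring
          _ = ι w := by rw [hw3, one_mul]
      have e1' : θ ^ 3 * (σ y * (ι w ^ 2 + ι w + 1)) = 0 := by rw [hw]; ring
      have e2' : θ ^ 3 * (σ (σ y) * (ι w ^ 4 + ι w ^ 2 + 1)) = 0 := by
        rw [hw4]
        have : ι w + ι w ^ 2 + 1 = 0 := by rw [← hw]; ring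
        rw [this]; ring
      linear_combination (-1 : L) * e1' - e2'
    rw [h1, e0, e1, e2]
    ring
  have h3 : ¬ π.1 ∣ (3 * x : Eis) := by
    intro h
    rcases π.2.1.dvd_or_dvd h with h | h
    · exact (hSPP.2.2.2.1 π).1 h
    · exact hx h
  obtain ⟨m, n, hmn⟩ := (π.2.1.coprime_iff_not_dvd.mpr h3 : IsCoprime π.1 (3 * x : Eis))
  have hxi : IsIntegral ℤ (ι x) := isIntegral_io ι x
  refine ⟨ι m * y + ι n * (ι x * s0 + θ * s2 + θ ^ 2 * s1), ?_, ?_⟩
  · exact ((isIntegral_io ι m).mul hy).add ((isIntegral_io ι n).mul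
      (((hxi.mul hs0).add (hθi.mul hs2)).add ((hθi.pow 2).mul hs1)))
  · have h5 : y = y * ι (m * π.1 + n * (3 * x : Eis)) := by rw [hmn, map_one, mul_one]
    have h6 : ι (m * π.1 + n * (3 * x : Eis)) = ι m * ι π.1 + ι n * (3 * ι x) := by
      simp only [map_add, map_mul, map_ofNat]
    rw [h6] at h5
    calc y = y * (ι m * ι π.1 + ι n * (3 * ι x)) := h5
      _ = ι m * ι π.1 * y + ι n * (3 * ι x * y) := by ring
      _ = _ := by rw [hmain]; ring

theorem unram (hSPP : SPP) {x : Eis} {ι : Eis →+* L} {θ : L} {σ : L ≃ₐ[ℚ] L}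
    (hF : CubE x L ι θ σ)
    (hσ3 : ∀ z : L, σ (σ (σ z)) = z)
    (hfix : ∀ z : L, σ z = z → ∃ a b : Eis, b ≠ 0 ∧ z * ι b = ι a)
    (π : PP) (P : HeightOneSpectrum (𝓞 L)) (hx : ¬ π.1 ∣ x)
    (hP : P ∈ Abv ι (some π)) : P.valuation L (ι π.1) = WithZero.exp (-1 : ℤ) := by
  have hinj := hF.inj
  have hp0 : io ι π.1 ≠ 0 := io_ne_zero hinj π.2.1.ne_zero
  set p := io ι π.1 with hp
  have hnot : p ∉ P.asIdeal ^ 2 := by
    intro hmem
    have hdvd : P.asIdeal ^ 2 ∣ Ideal.span {p} := Ideal.dvd_span_singleton.mpr hmem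
    obtain ⟨J', hJ'⟩ := hdvd
    set J : Ideal (𝓞 L) := P.asIdeal * J' with hJ
    have hpJ : Ideal.span {p} = P.asIdeal * J := by rw [hJ', hJ, pow_two, mul_assoc]
    have hJ2 : J * J ≤ Ideal.span {p} := by
      have h1 : J * J = Ideal.span {p} * J' := by
        rw [hJ', hJ]; ring
      rw [h1]
      exact Ideal.mul_le_left
    have hpne : Ideal.span {p} ≠ (0 : Ideal (𝓞 L)) := fun h => hp0 (Ideal.span_singleton_eq_bot.mp h)
    have hJ0 : J ≠ 0 := by
      intro h
      rw [h, mul_zero] at hpJ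
      exact hpne hpJ
    have hnle : ¬ J ≤ Ideal.span {p} := by
      intro hle
      have h1 : J = P.asIdeal * J := le_antisymm (by rw [← hpJ]; exact hle) Ideal.mul_le_right
      have h2 : (1 : Ideal (𝓞 L)) * J = P.asIdeal * J := by rw [one_mul]; exact h1
      have h3 : (1 : Ideal (𝓞 L)) = P.asIdeal := mul_right_cancel₀ hJ0 h2
      exact P.isPrime.ne_top (by rw [← h3, Ideal.one_eq_top])
    obtain ⟨y, hyJ, hyp⟩ := Set.not_subset.mp hnle
    have hy2 : y * y ∈ Ideal.span {p} := hJ2 (Ideal.mul_mem_mul hyJ hyJ)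
    obtain ⟨u, hu⟩ := Ideal.mem_span_singleton.mp hy2
    have hu' : (y : L) ^ 2 = ι π.1 * (u : L) := by
      have := congrArg (algebraMap (𝓞 L) L) hu
      rw [map_mul, map_mul, ← pow_two] at this
      exact this
    obtain ⟨t, ht, hyt⟩ := reduced hSPP hF hσ3 hfix hx hP y.2 u.2 hu'
    apply hyp
    show y ∈ Ideal.span {p}
    rw [Ideal.mem_span_singleton]
    set t' : 𝓞 L := ⟨t, ht⟩ with ht'
    exact ⟨t', RingOfIntegers.ext (hyt.trans (map_mul (algebraMap (𝓞 L) L) p t').symm)⟩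
  have hval : P.valuation L (ι π.1) = P.intValuation p := P.valuation_of_algebraMap p
  rw [hval, P.intValuation_eq_exp_neg_multiplicity hp0]
  have hlt : P.intValuation p < 1 := by rw [← hval]; exact hP
  set k := multiplicity P.asIdeal (Ideal.span {p}) with hk
  have hk' := P.intValuation_eq_exp_neg_multiplicity hp0
  rw [← hk] at hk'
  have hk1 : 1 ≤ k := by
    by_contra h
    have h0 : k = 0 := by omega
    rw [h0] at hk'
    rw [hk'] at hlt
    simp at hlt
  have hk2 : k < 2 := by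
    by_contra h
    push Not at h
    apply hnot
    rw [← P.intValuation_le_pow_iff_mem, hk', WithZero.exp_le_exp]
    push_cast
    omega
  have hk3 : k = 1 := by omega
  rw [hk3]
  norm_num

end NTR

theorem NTR_thm (hSPP : SPP) (hNHN : Stmt_NHN) : Stmt_NTR := by
  intro x L _ _ ι θ σ hx0 hx3 hF
  obtain ⟨hσ3, hfix, -⟩ := hNHN x L ι θ σ hx0 hF
  exact ⟨fun P a => Pool.Agent.PT.NTR.val_le_one ι P a,
    fun P => Pool.Agent.PT.NTR.exists_place hSPP ι P,
    fun P => Pool.Agent.PT.NTR.exists_map σ P,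
    fun v => ⟨Pool.Agent.PT.NTR.abv_finite hF.inj v, NTR.abv_nonempty hF.inj v⟩,
    fun v P P' hP hP' => Pool.Agent.PT.NTR.transitive hSPP hF.inj hσ3 hfix v P P' hP hP',
    fun π P hπ hP => NTR.unram hSPP hF hσ3 hfix π P hπ hP⟩

end Pool.Agent.PTK

end

section

/-!
# PTK_NCN: the number of primes above a place
-/

set_option autoImplicit false

open NumberField IsDedekindDomain Finset
open scoped nonZeroDivisors Pointwise

namespace Pool.Agent.PTK

open Pool.Agent.Lib_helper18 Pool.Agent.Lib_helper18.Eis Pool.Agent.Lib_helper84.Cub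
open Pool.Agent.PT

namespace NCN

open Pool.Agent.PT.NCNT

/-- The end of the argument. -/
theorem local_cube (hLCI : Stmt_LCI) {x : Eis} (hx : x ≠ 0) (h3 : ¬ lam ∣ x) (v : Pl) {a b : Eis}
    (hu : Prime (uni v)) (hb : b ≠ 0)
    (h : uni v ^ (3 * V (uni v) b + V (uni v) x + 4) ∣ x * b ^ 3 - a ^ 3) :
    LCE (uni v) x := by
  obtain ⟨x1, a1, b1, hx1, hV, hux, hua, hub, hd⟩ := reduce hu hx hb h
  cases v with
  | some π =>
    have hπ3 : ¬ π.1 ∣ 3 := by
      intro h
      have h2 := (dvd_three_iff π.2.1).mp h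
      have h4 : lam ∣ π.1 := h2.symm.dvd
      rw [lam_dvd_iff] at h4
      obtain ⟨-, h5, h6⟩ := π.2
      omega
    change LCE π.1 x
    change Prime π.1 at hu
    rw [hLCI.1 π x hx]
    refine ⟨hV, ?_⟩
    have hup : up π.1 x = x1 := by
      unfold up
      conv_lhs => rw [hx1]
      have hne : π.1 ^ V π.1 x ≠ 0 := pow_ne_zero _ hu.ne_zero
      change (π.1 ^ V π.1 x * x1) / π.1 ^ V π.1 (π.1 ^ V π.1 x * x1) = x1
      have hVV : V π.1 (π.1 ^ V π.1 x * x1) = V π.1 x := by
        conv_rhs => rw [show x = π.1 ^ V π.1 x * x1 from hx1]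
      rw [hVV]
      exact mul_div_cancel_left₀ x1 hne
    unfold ch
    rw [hup]
    have hd1 : π.1 ∣ x1 * b1 ^ 3 - a1 ^ 3 :=
      (dvd_pow_self π.1 (by norm_num)).trans hd
    have h1 := sym_congr hd1
    have hb3 : ¬ π.1 ∣ b1 ^ 3 := fun h => hub (hu.dvd_of_dvd_pow h)
    rw [sym_mul hu hπ3 hux hb3, sym_pow hu hπ3 hub, sym_pow hu hπ3 hua] at h1
    have h30 : (3 : ZMod 3) = 0 := by decide
    push_cast at h1
    rw [h30] at h1
    simpa using h1
  | none =>
    change LCE lam x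
    change Prime lam at hu
    have hV0 : V lam x = 0 := V_eq_zero h3
    have hx1' : x = x1 := by
      have h1 : x = lam ^ V lam x * x1 := hx1
      rw [hV0, pow_zero, one_mul] at h1
      exact h1
    rw [← hx1'] at hd
    exact hLCI.2.1 x a1 b1 hua hub hd

/-! ### Valuations of `L` -/

variable {L : Type} [Field L] [NumberField L]

variable {x : Eis} {ι : Eis →+* L} {θ : L} {σ : L ≃ₐ[ℚ] L}

/-- If `x` is a local cube, `σ` does not fix a prime above `v`. -/
theorem no_fix (h : CubE x L ι θ σ) (hx : x ≠ 0) {v : Pl} {P : HeightOneSpectrum (𝓞 L)}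
    (hle : ∀ a : Eis, P.valuation L (ι a) ≤ 1) (hP : P.valuation L (ι (uni v)) < 1)
    (hfix : ∀ z : L, P.valuation L (σ z) = P.valuation L z) (hLC : LCE (uni v) x) : False := by
  have hc0 : (w - 1) ^ 3 * x ≠ 0 :=
    mul_ne_zero (pow_ne_zero _ (by decide)) (hx)
  have hγ : P.valuation L (ι ((w - 1) ^ 3 * x)) ≠ 0 := by
    rw [Valuation.ne_zero_iff]
    exact (map_ne_zero_iff ι h.inj).mpr hc0
  obtain ⟨N, hN⟩ := exists_pow_lt hP hγ
  obtain ⟨r, t, ht⟩ := hLC N
  have hsmall : P.valuation L (ι (r ^ 3 - x)) ≤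
      P.valuation L (ι (uni v)) ^ N := by
    rw [ht, map_mul, map_mul, map_pow, map_pow]
    exact mul_le_of_le_one_right' (hle t)
  have s0 : σ (θ - ι r) = ι w * (θ - ι (w ^ 2 * r)) := by
    rw [map_sub, h.sθ, h.sι, mul_sub, ← map_mul, ← mul_assoc, ← pow_succ', w_cube, one_mul]
  have s1 : σ (θ - ι (w * r)) = ι w * (θ - ι r) := by
    rw [map_sub, h.sθ, h.sι, mul_sub, ← map_mul]
  have v0 : P.valuation L (θ - ι (w ^ 2 * r)) = P.valuation L (θ - ι r) := by
    rw [← hfix (θ - ι r), s0, Valuation.map_mul, val_w, one_mul]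
  have v1 : P.valuation L (θ - ι (w * r)) = P.valuation L (θ - ι r) := by
    rw [← hfix (θ - ι (w * r)), s1, Valuation.map_mul, val_w, one_mul]
  have hprod : (θ - ι r) * (θ - ι (w * r)) * (θ - ι (w ^ 2 * r)) =
      - ι (r ^ 3 - x) := by
    have h1 : (ι w) ^ 2 + ι w + 1 = 0 := by
      have := congrArg ι w_rel
      simpa using this
    have h2 : (ι w) ^ 3 = 1 := by
      have := congrArg ι w_cube
      simpa using this
    have h3 := h.cube
    simp only [map_sub, map_mul, map_pow]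
    linear_combination (-(θ ^ 2 * ι r) + θ * (ι r) ^ 2 * ι w) * h1 -
      ((ι r) ^ 3) * h2 + h3
  have hα : P.valuation L (θ - ι r) ^ 3 ≤ P.valuation L (ι (uni v)) ^ N := by
    have h1 := congrArg (P.valuation L) hprod
    rw [map_mul, map_mul, v0, v1, Valuation.map_neg] at h1
    calc P.valuation L (θ - ι r) ^ 3 = P.valuation L (θ - ι r) * P.valuation L (θ - ι r) *
        P.valuation L (θ - ι r) := by rw [pow_succ, pow_two]
      _ ≤ _ := by rw [h1]; exact hsmall
  have hdiff : P.valuation L (ι ((w - 1) * r)) ≤ P.valuation L (θ - ι r) := by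
    have e1 : ι ((w - 1) * r) = (θ - ι r) - (θ - ι (w * r)) := by
      rw [sub_mul, one_mul, map_sub]
      ring
    rw [e1]
    refine (Valuation.map_sub _ _ _).trans ?_
    rw [v1, max_self]
  have hcube : P.valuation L (ι (((w - 1) * r) ^ 3)) ≤ P.valuation L (ι (uni v)) ^ N := by
    rw [map_pow, map_pow]
    exact (pow_le_pow_left' hdiff 3).trans hα
  have hfin : P.valuation L (ι ((w - 1) ^ 3 * x)) ≤ P.valuation L (ι (uni v)) ^ N := by
    have e1 : ι ((w - 1) ^ 3 * x) = ι (((w - 1) * r) ^ 3) -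
        ι ((w - 1) ^ 3) * ι (r ^ 3 - x) := by
      rw [← map_mul, ← map_sub]
      congr 1
      ring
    rw [e1]
    refine (Valuation.map_sub _ _ _).trans (max_le hcube ?_)
    rw [map_mul]
    exact (mul_le_of_le_one_left' (hle _)).trans hsmall
  exact absurd hN (not_lt.mpr hfin)

/-- If `σ` does not fix the prime `P`, then `θ` is approximated at `P` by invariant elements. -/
theorem approx (h : CubE x L ι θ σ) (h3 : ∀ z : L, σ (σ (σ z)) = z)
    {P P1 P2 : HeightOneSpectrum (𝓞 L)} (h01 : P ≠ P1) (h02 : P ≠ P2) (h12 : P1 ≠ P2)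
    (e1 : ∀ z, P1.valuation L (σ z) = P.valuation L z)
    (e2 : ∀ z, P2.valuation L (σ z) = P1.valuation L z) (N : ℕ) :
    ∃ T : L, σ T = T ∧ P.valuation L (θ - T) ≤ WithZero.exp (-(N : ℤ)) := by
  have hθ : IsIntegral ℤ θ := by
    refine IsIntegral.of_pow (n := 3) (by norm_num) ?_
    rw [h.cube]
    exact Pool.Agent.PT.NTR.isIntegral_io ι x
  let θ' : 𝓞 L := ⟨θ, hθ⟩
  obtain ⟨z, hz⟩ := IsDedekindDomain.exists_forall_sub_mem_ideal (R := 𝓞 L)
    (s := (univ : Finset (Fin 3))) (![P.asIdeal, P1.asIdeal, P2.asIdeal]) (fun _ => N)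
    (by
      intro i _
      fin_cases i
      · exact P.prime
      · exact P1.prime
      · exact P2.prime)
    (by
      have k01 : P.asIdeal ≠ P1.asIdeal := fun h => h01 (HeightOneSpectrum.ext h)
      have k02 : P.asIdeal ≠ P2.asIdeal := fun h => h02 (HeightOneSpectrum.ext h)
      have k12 : P1.asIdeal ≠ P2.asIdeal := fun h => h12 (HeightOneSpectrum.ext h)
      intro i _ j _ hij
      fin_cases i <;> fin_cases j
      · exact absurd rfl hij
      · exact k01
      · exact k02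
      · exact k01.symm
      · exact absurd rfl hij
      · exact k12
      · exact k02.symm
      · exact k12.symm
      · exact absurd rfl hij)
    (fun i => (![θ', 0, 0] : Fin 3 → 𝓞 L) i.1)
  have z0 : z - θ' ∈ P.asIdeal ^ N := hz 0 (mem_univ _)
  have z1 : z ∈ P1.asIdeal ^ N := by
    have h1 : z - 0 ∈ P1.asIdeal ^ N := hz 1 (mem_univ _)
    rwa [sub_zero] at h1
  have z2 : z ∈ P2.asIdeal ^ N := by
    have h1 : z - 0 ∈ P2.asIdeal ^ N := hz 2 (mem_univ _)
    rwa [sub_zero] at h1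
  have cv : ∀ (Q : HeightOneSpectrum (𝓞 L)) (y : 𝓞 L), y ∈ Q.asIdeal ^ N →
      Q.valuation L (algebraMap (𝓞 L) L y) ≤ WithZero.exp (-(N : ℤ)) := by
    intro Q y hy
    rw [Q.valuation_of_algebraMap, Q.intValuation_le_pow_iff_mem]
    exact hy
  have w0 := cv P _ z0
  have w1 := cv P1 _ z1
  have w2 := cv P2 _ z2
  rw [map_sub] at w0
  have hθ' : algebraMap (𝓞 L) L θ' = θ := rfl
  rw [hθ'] at w0
  set y : L := algebraMap (𝓞 L) L z with hy
  have f1 : ∀ t, P.valuation L (σ t) = P2.valuation L t := by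
    intro t
    rw [← e1 (σ t), ← e2 (σ (σ t)), h3]
  refine ⟨y + σ y + σ (σ y), ?_, ?_⟩
  · rw [map_add, map_add, h3]
    ring
  · have e3 : θ - (y + σ y + σ (σ y)) = -((y - θ) + (σ y + σ (σ y))) := by ring
    rw [e3, Valuation.map_neg]
    refine (Valuation.map_add _ _ _).trans (max_le w0 ?_)
    refine (Valuation.map_add _ _ _).trans (max_le ?_ ?_)
    · rw [f1]
      exact w2
    · rw [f1, e2]
      exact w1

/-- If `σ` does not fix `P`, then `x` is a local cube. -/
theorem lc_of (hLCI : Stmt_LCI) (h : CubE x L ι θ σ) (hx : x ≠ 0) (hx3 : ¬ lam ∣ x)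
    (h3 : ∀ z : L, σ (σ (σ z)) = z)
    (hfixed : ∀ z : L, σ z = z → ∃ a b : Eis, b ≠ 0 ∧ z * ι b = ι a) {v : Pl}
    {P P1 P2 : HeightOneSpectrum (𝓞 L)} (hu : Prime (uni v))
    (hle : ∀ a : Eis, P.valuation L (ι a) ≤ 1) (hP : P.valuation L (ι (uni v)) < 1)
    (hlt : ∀ a : Eis, P.valuation L (ι a) < 1 → uni v ∣ a)
    (h01 : P ≠ P1) (h02 : P ≠ P2) (h12 : P1 ≠ P2)
    (e1 : ∀ z, P1.valuation L (σ z) = P.valuation L z)
    (e2 : ∀ z, P2.valuation L (σ z) = P1.valuation L z) : LCE (uni v) x := by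
  have hρ : P.valuation L (ι (uni v)) ≠ 0 := by
    rw [Valuation.ne_zero_iff]
    exact (map_ne_zero_iff ι h.inj).mpr hu.ne_zero
  set ρ := P.valuation L (ι (uni v)) with hρd
  set M := V (uni v) x + 4 with hM
  obtain ⟨N, hN⟩ := exists_exp_le (pow_ne_zero M hρ)
  obtain ⟨T, hT, hTP⟩ := approx h h3 h01 h02 h12 e1 e2 N
  obtain ⟨a, b, hb, hab⟩ := hfixed T hT
  apply local_cube hLCI hx hx3 v hu hb (a := a)
  set y := x * b ^ 3 - a ^ 3 with hyd
  by_cases hy0 : y = 0
  · rw [hy0]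
    exact dvd_zero _
  rw [pow_dvd_iff hu hy0, add_assoc, ← hM]
  by_contra hcon
  push Not at hcon
  have hθ1 : P.valuation L θ ≤ 1 := by
    have hθ : IsIntegral ℤ θ := by
      refine IsIntegral.of_pow (n := 3) (by norm_num) ?_
      rw [h.cube]
      exact Pool.Agent.PT.NTR.isIntegral_io ι x
    exact P.valuation_le_one (K := L) (⟨θ, hθ⟩ : 𝓞 L)
  have hexp : WithZero.exp (-(N : ℤ)) ≤ (1 : WithZero (Multiplicative ℤ)) := by
    rw [← WithZero.exp_zero, WithZero.exp_le_exp]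
    omega
  have hT1 : P.valuation L T ≤ 1 := by
    have e3 : T = θ - (θ - T) := by ring
    rw [e3]
    exact (Valuation.map_sub _ _ _).trans (max_le hθ1 (hTP.trans hexp))
  have hfac : ι y = (θ - T) * ((ι b) ^ 3 * (θ ^ 2 + θ * T + T ^ 2)) := by
    have h5 := h.cube
    rw [hyd]
    simp only [map_sub, map_mul, map_pow]
    rw [← hab, ← h5]
    ring
  have hquad : P.valuation L (θ ^ 2 + θ * T + T ^ 2) ≤ 1 := by
    refine (Valuation.map_add _ _ _).trans (max_le ((Valuation.map_add _ _ _).trans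
      (max_le ?_ ?_)) ?_)
    · rw [map_pow]
      exact pow_le_one' hθ1 2
    · rw [map_mul]
      exact mul_le_one' hθ1 hT1
    · rw [map_pow]
      exact pow_le_one' hT1 2
  have hval : P.valuation L (ι y) ≤ ρ ^ M * (P.valuation L (ι b)) ^ 3 := by
    rw [hfac, map_mul, map_mul, map_pow]
    refine mul_le_mul' (hTP.trans hN) ?_
    exact mul_le_of_le_one_right' hquad
  rw [val_eq hu hle hlt hy0, val_eq hu hle hlt hb, ← hρd, ← pow_mul, ← pow_add] at hval
  have h6 : M + V (uni v) b * 3 > V (uni v) y := by omega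
  have h7 := pow_lt_pow_right_of_lt_one₀ (zero_lt_iff.mpr hρ) hP h6
  exact absurd hval (not_le.mpr h7)

end NCN

open Pool.Agent.PTK.NCN in
open Pool.Agent.PT.NCNT (pow_dvd_iff reduce ext_val exists_exp_le pow_le_exp exists_pow_lt val_eq
  val_w prime_uni) in
theorem NCN_thm (_hSPP : SPP) (hLCI : Stmt_LCI) (hNHN : Stmt_NHN) (hNTR : Stmt_NTR) :
    Stmt_NCN := by
  classical
  intro x L _ _ ι θ σ hx hx3 _ h v
  obtain ⟨h3, hfixed, -⟩ := hNHN x L ι θ σ hx h
  obtain ⟨t1, t2, t3, t4, t5, -⟩ := hNTR x L ι θ σ hx hx3 h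
  have hu := prime_uni v
  obtain ⟨P, hP⟩ := (t4 v).2
  obtain ⟨P1, e1⟩ := t3 P
  obtain ⟨P2, e2⟩ := t3 P1
  have hP' : P.valuation L (ι (uni v)) < 1 := hP
  have hP1 : P1 ∈ Abv ι v := by
    change P1.valuation L (ι (uni v)) < 1
    rw [← h.sι, e1]
    exact hP'
  have hP2 : P2 ∈ Abv ι v := by
    change P2.valuation L (ι (uni v)) < 1
    rw [← h.sι, e2]
    exact hP1
  have e0 : ∀ z, P.valuation L (σ z) = P2.valuation L z := by
    intro z
    rw [← e1 (σ z), ← e2 (σ (σ z)), h3]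
  have hall : ∀ Q ∈ Abv ι v, Q = P ∨ Q = P1 ∨ Q = P2 := by
    intro Q hQ
    obtain ⟨i, hi⟩ := t5 v P Q hP hQ
    have key : ∀ i : ℕ, ∀ Q : HeightOneSpectrum (𝓞 L),
        (∀ z : L, Q.valuation L ((σ ^ i) z) = P.valuation L z) → Q = P ∨ Q = P1 ∨ Q = P2 := by
      intro i
      induction i using Nat.strong_induction_on with
      | _ i ih =>
        intro Q hi
        rcases i with _ | _ | _ | i
        · left
          apply ext_val
          intro z
          simpa using hi z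
        · right; left
          apply ext_val
          intro z
          obtain ⟨y, rfl⟩ := σ.surjective z
          rw [e1]
          simpa using hi y
        · right; right
          apply ext_val
          intro z
          obtain ⟨y, rfl⟩ := σ.surjective z
          obtain ⟨y, rfl⟩ := σ.surjective y
          rw [e2, e1]
          have h4 := hi y
          rw [pow_succ, pow_one] at h4
          exact h4
        · refine ih i (by omega) Q fun z => ?_
          have h4 := hi z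
          have h5 : (σ ^ (i + 3)) z = (σ ^ i) z := by
            rw [pow_add]
            change (σ ^ i) ((σ ^ 3) z) = _
            congr 1
            exact h3 z
          rw [← h5]
          exact h4
    exact key i Q hi
  have hlt : ∀ a : Eis, P.valuation L (ι a) < 1 → uni v ∣ a := by
    obtain ⟨v', -, hv'⟩ := t2 P
    intro a ha
    have h4 : uni v' ∣ uni v := hv' _ hP'
    have h5 : Associated (uni v') (uni v) := (prime_uni v').associated_of_dvd hu h4
    exact h5.symm.dvd.trans (hv' a ha)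
  by_cases hfix : P = P1
  · have hfix' : ∀ z : L, P.valuation L (σ z) = P.valuation L z := by
      intro z
      conv_lhs => rw [hfix]
      exact e1 z
    have hnot : ¬ LCE (uni v) x := fun hLC => no_fix h hx (t1 P) hP' hfix' hLC
    rw [if_neg hnot]
    have hP2' : P2 = P := by
      apply ext_val
      intro z
      rw [← e0, hfix']
    have hset : Abv ι v = {P} := by
      ext Q
      rw [Set.mem_singleton_iff]
      constructor
      · intro hQ
        rcases hall Q hQ with h4 | h4 | h4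
        · exact h4
        · exact h4.trans hfix.symm
        · exact h4.trans hP2'
      · rintro rfl
        exact hP
    rw [hset]
    simp
  · have h02 : P ≠ P2 := by
      intro h4
      apply hfix
      apply ext_val
      intro z
      obtain ⟨y, rfl⟩ := σ.surjective z
      rw [e1, e0, ← h4]
    have h12 : P1 ≠ P2 := by
      intro h4
      apply hfix
      apply ext_val
      intro z
      calc P.valuation L z = P1.valuation L (σ z) := (e1 z).symm
        _ = P2.valuation L (σ z) := by rw [h4]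
        _ = P1.valuation L z := e2 z
    have hLC : LCE (uni v) x :=
      lc_of hLCI h hx hx3 h3 hfixed hu (t1 P) hP' hlt hfix h02 h12 e1 e2
    rw [if_pos hLC]
    have hset : Abv ι v = {P, P1, P2} := by
      ext Q
      simp only [Set.mem_insert_iff, Set.mem_singleton_iff]
      constructor
      · exact hall Q
      · rintro (rfl | rfl | rfl)
        · exact hP
        · exact hP1
        · exact hP2
    rw [Nat.card_coe_set_eq, hset, Set.ncard_eq_three]
    exact ⟨P, P1, P2, hfix, h02, h12, rfl⟩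

end Pool.Agent.PTK

end
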