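import Mathlib
import Pool.Agent.PTWX.C33
import Pool.Agent.PTWX.C34
import Pool.Agent.PTWX.C36
import Pool.Agent.PTWX.C37
import Pool.Agent.PTWX.C41

/-! Parts: PTL.DL, PTL.BK, PT.BFINA, PTL.CL, PTL.DOM, PTN.LAW, PTN.NFE -/

namespace Pool.Agent.PTL.BK
end Pool.Agent.PTL.BK

namespace Pool.Agent.PT.BFINA
end Pool.Agent.PT.BFINA

namespace Pool.Agent.PTL.CL
end Pool.Agent.PTL.CL

namespace Pool.Agent.PTN.LAW
end Pool.Agent.PTN.LAW

section

/-!
# Prime power twists: lower bound for the number of primes in a class modulo `9`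
-/

set_option autoImplicit false

open NumberField Finset

namespace Pool.Agent.PTL

open Pool.Agent.PT Pool.Agent.Lib_helper18 Pool.Agent.Lib_helper18.Eis Pool.Agent.Lib_helper84.Cub

namespace DL

open BDENS

theorem sm_nonneg (S : Set ℕ) (σ : ℝ) : 0 ≤ sm S σ := by
  rw [sm_eq]
  exact tsum_nonneg fun n => ind_nonneg S σ n

theorem sm_mono {S T : Set ℕ} (h : ∀ n, n.Prime → n ∈ S → n ∈ T) {σ : ℝ} (hσ : 1 < σ) :
    sm S σ ≤ sm T σ := by
  rw [sm_eq, sm_eq]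
  refine (ind_summable S hσ).tsum_le_tsum (fun n => ?_) (ind_summable T hσ)
  by_cases hn : n.Prime ∧ n ∈ S
  · rw [ind_mem hn.1 hn.2, ind_mem hn.1 (h n hn.1 hn.2)]
  · rw [ind_not hn]
    exact ind_nonneg _ _ _

theorem total_of (L : Type) [Field L] [NumberField L] [IsGalois ℚ L] :
    ∃ C : ℝ, ∀ σ : ℝ, 1 < σ → σ ≤ 2 → Real.log (1 / (σ - 1)) - C ≤ sm Set.univ σ := by
  obtain ⟨C, hC⟩ := RI.FROBD_thm L (T := Set.univ) fun _ _ _ _ _ => Set.mem_univ _
  refine ⟨C, fun σ h1 h2 => ?_⟩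
  have h3 := hC σ h1 h2
  have h4 : (Nat.card (Set.univ : Set (L ≃ₐ[ℚ] L)) : ℝ) / Nat.card (L ≃ₐ[ℚ] L) = 1 := by
    rw [Nat.card_coe_set_eq, Set.ncard_univ]
    exact div_self (Nat.cast_ne_zero.2 Nat.card_pos.ne')
  rw [h4, one_mul] at h3
  refine h3.trans ?_
  exact sm_mono (fun n _ _ => Set.mem_univ n) h1

/-- all primes -/
theorem total : ∃ C : ℝ, ∀ σ : ℝ, 1 < σ → σ ≤ 2 →
    Real.log (1 / (σ - 1)) - C ≤ sm Set.univ σ := by
  have hgal : @IsGalois ℚ _ ℚ _ DivisionRing.toRatAlgebra := by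
    have h : (DivisionRing.toRatAlgebra : Algebra ℚ ℚ) = Algebra.id ℚ := Subsingleton.elim _ _
    rw [h]
    infer_instance
  exact @total_of ℚ _ _ hgal

/-- a class modulo `9` -/
theorem cls_lower (hDIR : DIR) (a : (ZMod 9)ˣ) : ∃ C : ℝ, ∀ σ : ℝ, 1 < σ → σ ≤ 2 →
    1 / 6 * Real.log (1 / (σ - 1)) - C ≤ sm {q : ℕ | (q : ZMod 9) = a} σ := by
  classical
  obtain ⟨C0, hC0⟩ := total
  choose DC hDC using fun b : (ZMod 9)ˣ => hDIR 9 b (by norm_num)
  refine ⟨C0 + 2 + ∑ b ∈ (Finset.univ : Finset (ZMod 9)ˣ).erase a, DC b, fun σ h1 h2 => ?_⟩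
  have e0 := hC0 σ h1 h2
  have e1 := sm_add_le Set.univ ∅ {n : ℕ | n ≠ 3} {3} (fun n _ hA _ => ⟨by
    rw [Finset.mem_singleton] at hA
    exact hA, fun h => h⟩) (fun n _ _ h => absurd h (Set.notMem_empty n)) h1
  have e2 := sm_cover {n : ℕ | n ≠ 3} (Finset.univ : Finset (ZMod 9)ˣ) (fun n hn hn3 => by
    have h3 : n.Coprime 9 := by
      have h4 : (9 : ℕ) = 3 ^ 2 := by norm_num
      rw [h4]
      apply Nat.Coprime.pow_right
      exact (Nat.coprime_primes hn Nat.prime_three).2 hn3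
    exact ⟨ZMod.unitOfCoprime n h3, Finset.mem_univ _, (ZMod.coe_unitOfCoprime n h3).symm⟩) h1
  have e3 := sm_nonneg ∅ σ
  rw [← Finset.add_sum_erase _ _ (Finset.mem_univ a)] at e2
  have e4 : ∑ b ∈ (Finset.univ : Finset (ZMod 9)ˣ).erase a,
      ∑' q : {q : ℕ // q.Prime ∧ (q : ZMod 9) = b}, (q : ℝ) ^ (-σ) ≤
      ∑ b ∈ (Finset.univ : Finset (ZMod 9)ˣ).erase a,
        ((1 / ((Nat.totient 9 : ℕ) : ℝ)) * Real.log (1 / (σ - 1)) + DC b) :=
    Finset.sum_le_sum fun b _ => hDC b σ h1 h2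
  have h9 : Nat.totient 9 = 6 := by decide
  rw [Finset.sum_add_distrib, Finset.sum_const, Finset.card_erase_of_mem (Finset.mem_univ a),
    Finset.card_univ, ZMod.card_units_eq_totient, h9, nsmul_eq_mul] at e4
  have e5 : sm {q : ℕ | (q : ZMod 9) = a} σ =
      ∑' q : {q : ℕ // q.Prime ∧ (q : ZMod 9) = a}, (q : ℝ) ^ (-σ) := rfl
  rw [Finset.card_singleton] at e1
  have h5 : ((6 - 1 : ℕ) : ℝ) = 5 := by norm_num
  have h6 : ((6 : ℕ) : ℝ) = 6 := by norm_num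
  have h7 : ((1 : ℕ) : ℝ) = 1 := by norm_num
  rw [h5, h6] at e4
  rw [h7] at e1
  rw [e5]
  linarith

theorem wt_val {q : ℕ} (c : ℕ) (s t : ℤ) (hq : q % 9 = c) (h : (c : ℤ) ^ 2 = 1 + 3 * (3 * s + t)) :
    wt ((q : ℤ) ^ 2) = (t : ZMod 3) := by
  obtain ⟨k, hk⟩ : ∃ k : ℤ, (q : ℤ) = 9 * k + c := ⟨(q : ℤ) / 9, by omega⟩
  have h3 : (q : ℤ) ^ 2 = 1 + 3 * (3 * (9 * k ^ 2 + 2 * k * c + s) + t) := by
    rw [hk]
    linear_combination h
  rw [wt_eq h3]
  push_cast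
  have h4 : (3 : ZMod 3) = 0 := by decide
  rw [h4]
  ring

/-- the primes `= 2 (mod 3)` of a class modulo `9` -/
theorem w_lower (hDIR : DIR) (w : ZMod 3) : ∃ C : ℝ, ∀ σ : ℝ, 1 < σ → σ ≤ 2 →
    1 / 6 * Real.log (1 / (σ - 1)) - C ≤ sm {q : ℕ | q % 3 = 2 ∧ wt ((q : ℤ) ^ 2) = w} σ := by
  have key : ∀ (c : ℕ) (hc : c.Coprime 9) (s t : ℤ), c < 9 → c % 3 = 2 →
      (c : ℤ) ^ 2 = 1 + 3 * (3 * s + t) → (t : ZMod 3) = w → ∃ C : ℝ, ∀ σ : ℝ, 1 < σ → σ ≤ 2 →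
    1 / 6 * Real.log (1 / (σ - 1)) - C ≤
      sm {q : ℕ | q % 3 = 2 ∧ wt ((q : ℤ) ^ 2) = w} σ := by
    intro c hc s t hc9 hc3 h ht
    obtain ⟨C, hC⟩ := cls_lower hDIR (ZMod.unitOfCoprime c hc)
    refine ⟨C, fun σ h1 h2 => (hC σ h1 h2).trans (sm_mono ?_ h1)⟩
    intro n _ hn
    have h3 : (n : ZMod 9) = (c : ZMod 9) := by
      rw [← ZMod.coe_unitOfCoprime c hc]
      exact hn
    rw [ZMod.natCast_eq_natCast_iff'] at h3
    have h4 : n % 9 = c := by omega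
    refine ⟨by omega, ?_⟩
    rw [wt_val c s t h4 h, ht]
  have hw : ∀ w : ZMod 3, w = 0 ∨ w = 1 ∨ w = 2 := by decide
  rcases hw w with rfl | rfl | rfl
  · exact key 8 (by decide) 7 0 (by norm_num) (by norm_num) (by norm_num) (by decide)
  · exact key 2 (by decide) 0 1 (by norm_num) (by norm_num) (by norm_num) (by decide)
  · exact key 5 (by decide) 2 2 (by norm_num) (by norm_num) (by norm_num) (by decide)

end DL

end Pool.Agent.PTL

end

section

/-!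
# Prime power twists: the rank is bounded by the dimension of the kernel of the matrix
-/

set_option autoImplicit false

namespace Pool.Agent.PTL

open Pool.Agent.PT Pool.Agent.Lib_helper18 Pool.Agent.Lib_helper18.Eis Pool.Agent.Lib_helper84.Cub

/-- BKE: the rank is bounded by the dimension of the kernel of the matrix. -/
def BKE : Prop := ∀ (n k : ℕ) (π : Fin 0 → PP) (p e : Fin 0 → ℕ) (r f : Fin k → ℕ)
  (w0 : ZMod 3) (c : Fin 0 → ZMod 3) (s : ℕ) (b : Fin s → ℤ) (P Q P' Q' : Fin s → Fin s → ℤ)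
  (E q : ℕ), NF n π p e r f → 1 ≤ k → (∀ i, AdmC n π w0 c (b i)) → Sys b P Q P' Q' →
  (∀ x : ℤ, AdmC n π w0 c x → ∃ (g : Fin s → ℕ) (u v : ℤ), u ≠ 0 ∧ v ≠ 0 ∧
      x * u ^ 3 = (∏ i, b i ^ g i) * v ^ 3) →
  q.Prime → q % 3 = 2 → (E = 1 ∨ E = 2) → wt (((q : ℤ) ^ E) ^ 2) = w0 → ¬ q ∣ n →
  ((∃ j, r j % 9 ≠ 8) ∨ q % 9 ≠ 8) →
  CubeRank.GenBy ((n : ℤ) * q ^ E) (s - (Mat b P Q P' Q' ((n : ℤ) * q ^ E)).rank)

namespace BK

open BKER Pool.Agent.CubeRank

theorem AA_pc {k : ℕ} (E q : ℕ) (r f : Fin k → ℕ) :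
    AA (pc q r) (pc E f) = (q : ℤ) ^ E * ∏ i, (r i : ℤ) ^ f i := by
  unfold AA
  rw [Fin.prod_univ_succ]
  simp [pc]

theorem Z_eq {k : ℕ} (E q : ℕ) (r f : Fin k → ℕ) (v : Fin (k + 1) → ZMod 3) (h0 : v 0 = 2) :
    (Z r f v : ℤ) = cell (pc q r) (pc E f) (fun i => zf (v i)) 0 ^ 2 *
      cell (pc q r) (pc E f) (fun i => zf (v i)) 1 := by
  unfold cell Z
  rw [Fin.prod_univ_succ, Fin.prod_univ_succ]
  have h1 : zf (v 0) ≠ 0 := by rw [h0]; decide
  have h2 : zf (v 0) ≠ 1 := by rw [h0]; decide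
  rw [if_neg h1, if_neg h2, one_mul, one_mul, ← Finset.prod_pow, ← Finset.prod_mul_distrib]
  push_cast
  refine Finset.prod_congr rfl (fun j _ => ?_)
  simp only [pc, Fin.cons_succ]
  rcases cases3 (v j.succ) with h | h | h
  · rw [h, if_pos (by decide), if_neg (by decide), mul_one, ← pow_mul]
    rfl
  · rw [h, if_neg (by decide), if_pos (by decide), one_pow, one_mul]
    have : (2 - (1 : ZMod 3).val) = 1 := by decide
    rw [this, mul_one]
  · rw [h, if_neg (by decide), if_neg (by decide), one_pow, one_mul]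
    have : (2 - (2 : ZMod 3).val) = 0 := by decide
    rw [this, mul_zero, pow_zero]

theorem AA_eq {n k : ℕ} {π : Fin 0 → PP} {p e : Fin 0 → ℕ} {r f : Fin k → ℕ}
    (hNF : NF n π p e r f) (E q : ℕ) :
    AA (pc q r) (pc E f) = (n : ℤ) * q ^ E := by
  rw [AA_pc, NF_eq hNF]
  push_cast
  ring

theorem main (hEAE : EAE) (hFDX : FDX) (hTEND : TEND) {n k : ℕ} {π : Fin 0 → PP}
    {p e : Fin 0 → ℕ} {r f : Fin k → ℕ} {w0 : ZMod 3} {c : Fin 0 → ZMod 3} {s : ℕ}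
    {b : Fin s → ℤ} {P Q P' Q' : Fin s → Fin s → ℤ} {E q : ℕ} (hNF : NF n π p e r f)
    (hAdm : ∀ i, AdmC n π w0 c (b i)) (hSys : Sys b P Q P' Q')
    (hgen : ∀ x : ℤ, AdmC n π w0 c x → ∃ (g : Fin s → ℕ) (u v : ℤ), u ≠ 0 ∧ v ≠ 0 ∧
      x * u ^ 3 = (∏ i, b i ^ g i) * v ^ 3)
    (hq : q.Prime) (hq2 : q % 3 = 2) (hEE : E = 1 ∨ E = 2) (hw : wt (((q : ℤ) ^ E) ^ 2) = w0)
    (hqn : ¬ q ∣ n)
    (hG : HypG (pc q r) (pc E f)) {v : Fin (k + 1) → ZMod 3} (hv : UG (pc q r) (pc E f) v)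
    (h0 : v 0 = 2) :
    ∃ (g : Fin s → ℕ) (u y : ℤ), u ≠ 0 ∧ y ≠ 0 ∧ (Z r f v : ℤ) * u ^ 3 =
      (∏ i, b i ^ g i) * y ^ 3 ∧
      ∀ j, ∑ i, Mat b P Q P' Q' ((n : ℤ) * q ^ E) j i * (g i : ZMod 3) = 0 := by
  obtain ⟨hB, hE⟩ := hEAE n k π p e r f w0 c E q hNF hq hq2 hEE hw hqn
  have hA : ∀ i, Adm ((n : ℤ) * q ^ E) (b i) := fun i => (hE _ (hAdm i).supp).1 (hAdm i)
  by_cases hc : ∃ c, ∀ i, v i = c
  · obtain ⟨d, hd⟩ := hc
    have hd2 : d = 2 := by rw [← hd 0, h0]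
    refine ⟨0, 1, 1, one_ne_zero, one_ne_zero, ?_, fun j => by simp⟩
    have hZ : Z r f v = 1 := by
      unfold Z
      refine Finset.prod_eq_one (fun j _ => ?_)
      rw [hd, hd2]
      have : (2 - (2 : ZMod 3).val) = 0 := by decide
      rw [this, mul_zero, pow_zero]
    rw [hZ]
    simp
  · obtain ⟨x, hx⟩ := CubeRank.UG_rep hG hv hc
    obtain ⟨hPt, hAz⟩ := hFDX ((n : ℤ) * q ^ E) (cell (pc q r) (pc E f) (fun i => zf (v i))) x hB
      hx.ne hx.sum (by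
        rw [Fin.prod_univ_three, cell_prod]
        exact AA_eq hNF E q) hx.cop
    rw [← Z_eq E q r f v h0] at hPt hAz
    have hsupp : ∀ l : ℕ, l.Prime → (l : ℤ) ∣ (Z r f v : ℤ) → l ∣ n := by
      intro l hl hlZ
      rw [Int.natCast_dvd_natCast, Z, hl.prime.dvd_finset_prod_iff] at hlZ
      obtain ⟨j, -, hj⟩ := hlZ
      exact (hl.dvd_of_dvd_pow hj).trans (r_dvd hNF j)
    obtain ⟨g, u, y, hu, hy, hg⟩ := hgen _ ((hE _ hsupp).2 hAz)
    refine ⟨g, u, y, hu, hy, hg, ?_⟩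
    by_cases hex : ∃ i, ¬ 3 ∣ g i
    · generalize (Z r f v : ℤ) = z at *
      set W : ℤ := ∏ i, b i ^ g i with hW
      obtain ⟨c0, hc0, h1⟩ := hPt.eq
      have hPt' : Pt ((n : ℤ) * q ^ E) (∏ i, b i ^ g i)
          (u * y * (cell (pc q r) (pc E f) (fun i => zf (v i)) 0 * x 0)) (y ^ 2 * x 1) := by
        refine ⟨mul_ne_zero (mul_ne_zero hu hy) hPt.hX, mul_ne_zero (pow_ne_zero 2 hy) hPt.hY,
          c0 * u ^ 2, mul_ne_zero hc0 (pow_ne_zero 2 hu), ?_⟩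
        rw [← hW]
        generalize cell (pc q r) (pc E f) (fun i => zf (v i)) 0 * x 0 = X1 at *
        generalize x 1 = Y1 at *
        have e1 : W * ((u * y * X1) ^ 3 + W * (y ^ 2 * Y1) ^ 3) =
            (W * y ^ 3) * (u ^ 3 * X1 ^ 3 + (W * y ^ 3) * Y1 ^ 3) := by ring
        rw [e1, ← hg]
        have e2 : z * u ^ 3 * (u ^ 3 * X1 ^ 3 + z * u ^ 3 * Y1 ^ 3) =
            u ^ 6 * (z * (X1 ^ 3 + z * Y1 ^ 3)) := by ring
        rw [e2, h1]
        ring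
      exact (hTEND s b P Q P' Q' ((n : ℤ) * q ^ E) hSys hB hA).2 g _ _ hex hPt'
    · push Not at hex
      intro j
      refine Finset.sum_eq_zero (fun i _ => ?_)
      rw [(ZMod.natCast_eq_zero_iff (g i) 3).2 (hex i), mul_zero]

end BK

open BKER _root_.Pool.Agent.PTL.BK in
/-- BKE: the rank is bounded by the dimension of the kernel of the matrix. -/
theorem BKE_thm (hEAE : EAE) (hFDX : FDX) (hTEND : TEND) : BKE := by
  classical
  intro n k π p e r f w0 c s b P Q P' Q' E q hNF hk hAdm hSys hgen hq hq2 hEE hw hqn hex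
  have hG : CubeRank.HypG (pc q r) (pc E f) := by
    refine CubeRank.hypG_of (fun i => ?_) (fun i => ?_) ?_ (fun i => ?_) ?_
    · refine Fin.cases ?_ (fun i => ?_) i
      · simpa [pc] using hq
      · simpa [pc] using hNF.rp i
    · refine Fin.cases ?_ (fun i => ?_) i
      · simpa [pc] using hq2
      · simpa [pc] using hNF.r2 i
    · unfold pc
      rw [Fin.cons_injective_iff]
      refine ⟨?_, hNF.rinj⟩
      rintro ⟨i, hi⟩
      exact hqn (by rw [← hi]; exact r_dvd hNF i)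
    · refine Fin.cases ?_ (fun i => ?_) i
      · simpa [pc] using hEE
      · simpa [pc] using hNF.rf i
    · rcases hex with ⟨j, hj⟩ | h
      · exact ⟨j.succ, by simpa [pc] using hj⟩
      · exact ⟨0, by simpa [pc] using h⟩
  set M := Mat b P Q P' Q' ((n : ℤ) * q ^ E) with hMdef
  have H : ∀ v : {v // CubeRank.UG (pc q r) (pc E f) v},
      ∃ (g : Fin s → ℕ) (u y : ℤ), u ≠ 0 ∧ y ≠ 0 ∧
        (Z r f (v.1 + fun _ => 2 - v.1 0) : ℤ) * u ^ 3 = (∏ i, b i ^ g i) * y ^ 3 ∧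
        ∀ j, ∑ i, M j i * (g i : ZMod 3) = 0 := by
    intro v
    exact BK.main hEAE hFDX hTEND hNF hAdm hSys hgen hq hq2 hEE hw hqn hG
      (CubeRank.UG_add hG v.2 (CubeRank.UG_const _ _ _)) (by
        simp only [Pi.add_apply]; ring)
  choose g u y hu hy hZ hM using H
  let F : {v // CubeRank.UG (pc q r) (pc E f) v} → ZMod 3 × LinearMap.ker M.mulVecLin :=
    fun v => (v.1 0, ⟨fun i => (g v i : ZMod 3), by
      rw [LinearMap.mem_ker]
      funext j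
      exact hM v j⟩)
  have hF : Function.Injective F := by
    intro v v' hvv
    have h0 : v.1 0 = v'.1 0 := congrArg Prod.fst hvv
    have h1 : ∀ i, (g v i : ZMod 3) = g v' i := by
      intro i
      have h2 := congrArg (fun x => (x.2 : Fin s → ZMod 3) i) hvv
      exact h2
    obtain ⟨A, B, hA, hB, hAB⟩ := prod_cube b (fun i => (hAdm i).ne) (g v) (g v') h1
    have h3 := Z_inj (v := v.1 + fun _ => 2 - v.1 0) (v' := v'.1 + fun _ => 2 - v'.1 0)
      hNF.rp hNF.rinj hNF.rf (by simp only [Pi.add_apply]; ring)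
      (A := u v * A * y v') (B := u v' * B * y v)
      (mul_ne_zero (mul_ne_zero (hu v) hA) (hy v')) (mul_ne_zero (mul_ne_zero (hu v') hB) (hy v))
      (by
        have e1 := hZ v
        have e2 := hZ v'
        generalize (Z r f (v.1 + fun _ => 2 - v.1 0) : ℤ) = z1 at *
        generalize (Z r f (v'.1 + fun _ => 2 - v'.1 0) : ℤ) = z2 at *
        linear_combination (A ^ 3 * y v' ^ 3) * e1 - (B ^ 3 * y v ^ 3) * e2 +
          (y v ^ 3 * y v' ^ 3) * hAB)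
    apply Subtype.ext
    rw [h0] at h3
    exact add_right_cancel h3
  have hcard := Nat.card_le_card_of_injective F hF
  have hker : Module.finrank (ZMod 3) (LinearMap.ker M.mulVecLin) = s - M.rank := by
    have h1 := LinearMap.finrank_range_add_finrank_ker M.mulVecLin
    rw [Module.finrank_fintype_fun_eq_card, Fintype.card_fin] at h1
    have h2 : Module.finrank (ZMod 3) (LinearMap.range M.mulVecLin) = M.rank := rfl
    omega
  rw [Nat.card_prod, Nat.card_zmod,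
    Module.natCard_eq_pow_finrank (K := ZMod 3) (V := LinearMap.ker M.mulVecLin), Nat.card_zmod,
    hker] at hcard
  have hfin := CubeRank.gen_of_cardG (by omega) hG (s - M.rank) (by
    rw [pow_succ, mul_comm]
    exact hcard)
  rw [BK.AA_eq hNF E q] at hfin
  exact hfin

end Pool.Agent.PTL

end

section

/-!
# BFINA: the distribution of the rank over prime twists, final assembly
-/

open NumberField IsDedekindDomain Finset
open scoped nonZeroDivisors Pointwise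

namespace Pool.Agent.PT

open Pool.Agent.Lib_helper18 Pool.Agent.Lib_helper18.Eis Pool.Agent.Lib_helper84.Cub

namespace BFINA

/-! ### Sums over sets of natural numbers -/

/-- The sum of `q ^ (-σ)` over the set `A`. -/
noncomputable def PS (A : Set ℕ) (σ : ℝ) : ℝ := ∑' q : A, ((q : ℕ) : ℝ) ^ (-σ)

theorem PS_eq (A : Set ℕ) (σ : ℝ) : PS A σ = ∑' n : ℕ, A.indicator (fun n : ℕ => (n : ℝ) ^ (-σ)) n :=
  tsum_subtype A fun n : ℕ => (n : ℝ) ^ (-σ)

theorem summ {σ : ℝ} (h : 1 < σ) (A : Set ℕ) :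
    Summable (A.indicator (fun n : ℕ => (n : ℝ) ^ (-σ))) :=
  (Real.summable_nat_rpow.2 (by linarith)).indicator A

theorem rpow_nn (n : ℕ) (σ : ℝ) : 0 ≤ (n : ℝ) ^ (-σ) := Real.rpow_nonneg (Nat.cast_nonneg n) _

theorem PS_mono {A B : Set ℕ} (hAB : A ⊆ B) {σ : ℝ} (h : 1 < σ) : PS A σ ≤ PS B σ := by
  rw [PS_eq, PS_eq]
  apply (summ h A).tsum_le_tsum _ (summ h B)
  intro n
  exact Set.indicator_le_indicator_of_subset hAB (fun n => rpow_nn n σ) n

theorem PS_union {A B : Set ℕ} {σ : ℝ} (h : 1 < σ) : PS (A ∪ B) σ ≤ PS A σ + PS B σ := by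
  classical
  rw [PS_eq, PS_eq, PS_eq, ← (summ h A).tsum_add (summ h B)]
  apply (summ h (A ∪ B)).tsum_le_tsum _ ((summ h A).add (summ h B))
  intro n
  have h0 := rpow_nn n σ
  rw [Set.indicator_apply, Set.indicator_apply, Set.indicator_apply]
  by_cases hA : n ∈ A
  · rw [if_pos (show n ∈ A ∪ B from Or.inl hA), if_pos hA]
    split_ifs <;> linarith
  · by_cases hB : n ∈ B
    · rw [if_pos (show n ∈ A ∪ B from Or.inr hB), if_neg hA, if_pos hB, zero_add]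
    · rw [if_neg (show n ∉ A ∪ B from fun h => h.elim hA hB), if_neg hA, if_neg hB, zero_add]

theorem PS_small (M : ℕ) {σ : ℝ} (h : 1 < σ) : PS {q | q ≤ M} σ ≤ M + 1 := by
  classical
  rw [PS_eq, tsum_eq_sum (s := Finset.range (M + 1))]
  · calc ∑ n ∈ Finset.range (M + 1), Set.indicator {q | q ≤ M} (fun n : ℕ => (n : ℝ) ^ (-σ)) n
        ≤ ∑ n ∈ Finset.range (M + 1), (1 : ℝ) := by
          refine Finset.sum_le_sum fun n _ => ?_
          rw [Set.indicator_apply]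
          split_ifs
          · rcases Nat.eq_zero_or_pos n with rfl | hn
            · rw [Nat.cast_zero, Real.zero_rpow (by linarith)]
              exact zero_le_one
            · exact Real.rpow_le_one_of_one_le_of_nonpos (by exact_mod_cast hn) (by linarith)
          · exact zero_le_one
      _ = M + 1 := by
          rw [Finset.sum_const, Finset.card_range, nsmul_eq_mul, mul_one]
          push_cast
          ring
  · intro n hn
    rw [Finset.mem_range, not_lt] at hn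
    exact Set.indicator_of_notMem (s := {q | q ≤ M})
      (fun h => absurd (show n ≤ M from h) (by omega)) _

/-! ### Cube roots -/

theorem exists_root {q : ℕ} (hq : q.Prime) (h3 : q % 3 = 2) (b : ℤ) : ∃ r : ℤ, (q : ℤ) ∣ r ^ 3 - b := by
  have : Fact q.Prime := ⟨hq⟩
  obtain ⟨k, hk⟩ : ∃ k, k = (2 * q - 1) / 3 := ⟨_, rfl⟩
  have hk3 : k * 3 = q + (q - 1) := by
    have := hq.two_le
    omega
  refine ⟨b ^ k, ?_⟩
  rw [← ZMod.intCast_zmod_eq_zero_iff_dvd]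
  push_cast
  rw [← pow_mul, hk3, pow_add, ZMod.pow_card, ← pow_succ', Nat.sub_add_cancel hq.one_le,
    ZMod.pow_card, sub_self]

section Cls

variable {k : ℕ} {r f : Fin k → ℕ} (hk : 1 ≤ k) (hr : ∀ i, (r i).Prime) (h2 : ∀ i, r i % 3 = 2)
  (hinj : Function.Injective r) (hf : ∀ i, f i = 1 ∨ f i = 2)

include hr h2 in
theorem three_ndvd : ¬ 3 ∣ ∏ i, r i ^ f i := by
  intro h
  obtain ⟨i, -, hi⟩ := (Nat.prime_three.prime.dvd_finset_prod_iff _).1 h
  have h3 := Nat.prime_three.dvd_of_dvd_pow hi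
  have := h2 i
  omega

include hr h2 hinj hf in
theorem nf : NF (∏ i, r i ^ f i) (fun i : Fin 0 => i.elim0) (fun i : Fin 0 => i.elim0)
    (fun i : Fin 0 => i.elim0) r f where
  pp := fun i => i.elim0
  p1 := fun i => i.elim0
  pπ := fun i => i.elim0
  pe := fun i => i.elim0
  pinj := fun i => i.elim0
  rp := hr
  r2 := h2
  rf := hf
  rinj := hinj
  eq := by rw [Fin.prod_univ_zero, one_mul]

include hk hr h2 hinj hf in
theorem cls (hBSYS : BSYS) (hDCONST : DCONST) (hCLSC : CLSC) (hBKER : BKER) (hBDENS : BDENS)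
    (hTEND : TEND) (hEADM : EADM) (t : ℕ) (w0 : ZMod 3) :
    ∃ K : ℝ, ∀ σ : ℝ, 1 < σ → σ ≤ 2 →
      PS {q : ℕ | (q.Prime ∧ q % 3 = 2 ∧ (q % 9 ≠ 8 ∨ ∃ i, r i % 9 ≠ 8) ∧
        t ≤ CubeRank.rr ((∏ i, (r i : ℤ) ^ f i) * q)) ∧ wt ((q : ℤ) ^ 2) = w0} σ ≤
      2 / 3 ^ (t * (t - 1) / 2) / 3 * Real.log (1 / (σ - 1)) + K := by
  classical
  obtain ⟨n, hn⟩ : ∃ n, n = ∏ i, r i ^ f i := ⟨_, rfl⟩
  have hNF := nf hr h2 hinj hf
  rw [← hn] at hNF
  have hn0 : 0 < n := by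
    rw [hn]
    exact Finset.prod_pos fun i _ => pow_pos (hr i).pos _
  have hn3 : ¬ 3 ∣ n := by
    rw [hn]
    exact three_ndvd hr h2
  have hnZ : (∏ i, (r i : ℤ) ^ f i) = (n : ℤ) := by
    rw [hn]
    push_cast
    rfl
  obtain ⟨s, b, P, Q, P', Q', hAC, hSys, hspan⟩ := hBSYS n k (fun i : Fin 0 => i.elim0)
    (fun i : Fin 0 => i.elim0) (fun i : Fin 0 => i.elim0) r f w0 (fun i : Fin 0 => i.elim0) hNF
  -- the conductor
  have hD : ∀ j i : Fin s, ∃ f₀ : ℕ, 0 < f₀ ∧ (j ≠ i → ∀ f : ℕ, 0 < f → f₀ ∣ f →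
      ∃ (C : ZMod 3) (Φ : (ZMod f)ˣ →* Multiplicative (ZMod 3)) (N₀ : ℕ),
        ∀ (q : ℕ) (hQ : q.Coprime f), q.Prime → N₀ < q → q % 3 = 2 →
          BOk ((n : ℤ) * q) → Adm ((n : ℤ) * q) (b j) → Adm ((n : ℤ) * q) (b i) →
          ∀ r : ℤ, (q : ℤ) ∣ r ^ 3 - b j →
            OO ((n : ℤ) * q) (b j) (b i) (P j i) (Q j i) (P' j i) (Q' j i) =
            C + (Φ (ZMod.unitOfCoprime q hQ)).toAdd -
              TAUV q (P j i) (Q j i) (P' j i) (Q' j i) r) := by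
    intro j i
    by_cases hji : j = i
    · exact ⟨1, one_pos, fun h => absurd hji h⟩
    · obtain ⟨f₀, h0, h1⟩ := hDCONST n (b j) (b i) (P j i) (Q j i) (P' j i) (Q' j i) hn0 hn3
        (hSys.sol j i hji) (hAC j).ne (hAC i).ne
      exact ⟨f₀, h0, fun _ => h1⟩
  choose F0 hF0 hF1 using hD
  obtain ⟨F, hFdef⟩ : ∃ F, F = 9 * ∏ j, ∏ i, F0 j i := ⟨_, rfl⟩
  have hFpos : 0 < F := by
    rw [hFdef]
    exact Nat.mul_pos (by norm_num) (Finset.prod_pos fun j _ => Finset.prod_pos fun i _ => hF0 j i)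
  have hF9 : 9 ∣ F := by
    rw [hFdef]
    exact dvd_mul_right _ _
  have hFd : ∀ j i, F0 j i ∣ F := by
    intro j i
    rw [hFdef]
    apply Dvd.dvd.mul_left
    exact (Finset.dvd_prod_of_mem (fun i => F0 j i) (Finset.mem_univ i)).trans
      (Finset.dvd_prod_of_mem (fun j => ∏ i, F0 j i) (Finset.mem_univ j))
  have hC : ∀ j i : Fin s, ∃ (C : ZMod 3) (Φ : (ZMod F)ˣ →* Multiplicative (ZMod 3)) (N₀ : ℕ),
      j ≠ i → ∀ (q : ℕ) (hQ : q.Coprime F), q.Prime → N₀ < q → q % 3 = 2 →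
          BOk ((n : ℤ) * q) → Adm ((n : ℤ) * q) (b j) → Adm ((n : ℤ) * q) (b i) →
          ∀ r : ℤ, (q : ℤ) ∣ r ^ 3 - b j →
            OO ((n : ℤ) * q) (b j) (b i) (P j i) (Q j i) (P' j i) (Q' j i) =
            C + (Φ (ZMod.unitOfCoprime q hQ)).toAdd -
              TAUV q (P j i) (Q j i) (P' j i) (Q' j i) r := by
    intro j i
    by_cases hji : j = i
    · exact ⟨0, 1, 0, fun h => absurd hji h⟩
    · obtain ⟨C, Φ, N₀, h⟩ := hF1 j i hji F hFpos (hFd j i)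
      exact ⟨C, Φ, N₀, fun _ => h⟩
  choose C Φ N₀ hC using hC
  obtain ⟨κ, hκ1, hκ2⟩ := hCLSC 0 (fun i : Fin 0 => i.elim0) (fun i : Fin 0 => i.elim0)
    (fun i => i.elim0) (fun i => i.elim0) (fun i => i.elim0) (fun i => i.elim0) F hFpos hF9
    (fun i => i.elim0)
  let Φ' : (ZMod F)ˣ →* Multiplicative (Fin s → Fin s → ZMod 3) :=
    { toFun := fun a => Multiplicative.ofAdd fun j i => (Φ j i a).toAdd
      map_one' := by
        rw [← ofAdd_zero]
        congr 1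
        funext j i
        rw [map_one]
        rfl
      map_mul' := by
        intro a a'
        rw [← ofAdd_add]
        congr 1
        funext j i
        rw [map_mul]
        rfl }
  obtain ⟨K, hK⟩ := hBDENS s b P Q P' Q' F 0 t κ (Fin.cons w0 fun i : Fin 0 => i.elim0) C Φ' hSys
    hFpos hF9 hκ2
  obtain ⟨M, hM⟩ : ∃ M, M = n + F + ∑ j, ∑ i, N₀ j i := ⟨_, rfl⟩
  refine ⟨K + (M + 1), fun σ h1 hσ2 => ?_⟩
  have hB := hK σ h1 hσ2
  obtain ⟨B, hBdef⟩ : ∃ B : Set ℕ, B = {q : ℕ | q.Prime ∧ ∃ hQ : q.Coprime F, q % 3 = 2 ∧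
      (κ (ZMod.unitOfCoprime q hQ)).toAdd = (Fin.cons w0 fun i : Fin 0 => i.elim0) ∧
      ∀ τ : Fin s → Fin s → ZMod 3,
        (∀ j i, j ≠ i → ∀ r : ℤ, (q : ℤ) ∣ r ^ 3 - b j →
          τ j i = TAUV q (P j i) (Q j i) (P' j i) (Q' j i) r) →
        t ≤ s - (alt (C + (Φ' (ZMod.unitOfCoprime q hQ)).toAdd - τ)).rank} := ⟨_, rfl⟩
  have hB' : PS B σ ≤ 2 / 3 ^ (t * (t - 1) / 2) / 3 ^ (0 + 1) * Real.log (1 / (σ - 1)) + K := by
    rw [hBdef]
    exact hB
  have hsub : {q : ℕ | (q.Prime ∧ q % 3 = 2 ∧ (q % 9 ≠ 8 ∨ ∃ i, r i % 9 ≠ 8) ∧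
      t ≤ CubeRank.rr ((∏ i, (r i : ℤ) ^ f i) * q)) ∧ wt ((q : ℤ) ^ 2) = w0} ⊆
      B ∪ {q | q ≤ M} := by
    rintro q ⟨⟨hq, hq3, hq9, hrr⟩, hw⟩
    rcases le_or_gt q M with hqM | hqM
    · exact Or.inr hqM
    left
    rw [hnZ] at hrr
    have hqn : ¬ q ∣ n := fun h => by
      have := Nat.le_of_dvd hn0 h
      omega
    have hQ : q.Coprime F := by
      rw [Nat.Prime.coprime_iff_not_dvd hq]
      intro h
      have := Nat.le_of_dvd hFpos h
      omega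
    have hIn : InCl (fun i : Fin 0 => i.elim0) w0 (fun i : Fin 0 => i.elim0) q :=
      ⟨hq3, hw, fun i => i.elim0⟩
    obtain ⟨hBOk, hA⟩ := hEADM n 0 k (fun i : Fin 0 => i.elim0) (fun i : Fin 0 => i.elim0)
      (fun i : Fin 0 => i.elim0) r f w0 (fun i : Fin 0 => i.elim0) q hNF hq hIn hqn
    have hAdm : ∀ i, Adm ((n : ℤ) * q) (b i) := fun i => (hA (b i) (hAC i).supp).1 (hAC i)
    have hgen := hBKER n k (fun i : Fin 0 => i.elim0) (fun i : Fin 0 => i.elim0)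
      (fun i : Fin 0 => i.elim0) r f w0 (fun i : Fin 0 => i.elim0) s b P Q P' Q' q hNF hk hAC
      hSys hspan hq hq3 hw hqn hq9.symm
    have ht : t ≤ s - (Mat b P Q P' Q' ((n : ℤ) * q)).rank := hrr.trans (CubeRank.rr_le hgen)
    rw [hBdef]
    refine ⟨hq, hQ, hq3, ?_, ?_⟩
    · rw [hκ1]
      funext i
      refine Fin.cases ?_ (fun i => i.elim0) i
      rw [Fin.cons_zero, Fin.cons_zero, hw]
    · intro τ hτ
      have hent : ∀ j i, j ≠ i → Mat b P Q P' Q' ((n : ℤ) * q) j i =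
          (C + (Φ' (ZMod.unitOfCoprime q hQ)).toAdd - τ) j i := by
        intro j i hji
        obtain ⟨ρ, hρ⟩ := exists_root hq hq3 (b j)
        have hN : N₀ j i < q := by
          have e1 : N₀ j i ≤ ∑ i, N₀ j i :=
            Finset.single_le_sum (f := fun i => N₀ j i) (fun _ _ => Nat.zero_le _)
              (Finset.mem_univ i)
          have e2 : ∑ i, N₀ j i ≤ ∑ j, ∑ i, N₀ j i :=
            Finset.single_le_sum (f := fun j => ∑ i, N₀ j i) (fun _ _ => Nat.zero_le _)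
              (Finset.mem_univ j)
          omega
        rw [Mat, if_neg hji, hC j i hji q hQ hq hN hq3 hBOk (hAdm j) (hAdm i) ρ hρ,
          ← hτ j i hji ρ hρ]
        rfl
      have hMat : Mat b P Q P' Q' ((n : ℤ) * q) =
          alt (C + (Φ' (ZMod.unitOfCoprime q hQ)).toAdd - τ) := by
        have hanti := (hTEND s b P Q P' Q' ((n : ℤ) * q) hSys hBOk hAdm).1
        ext j i
        rw [alt]
        rcases lt_trichotomy j i with h | h | h
        · rw [if_pos h, hent j i h.ne]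
        · subst h
          rw [if_neg (lt_irrefl _), if_neg (lt_irrefl _), Mat, if_pos rfl]
        · rw [if_neg (not_lt.2 h.le), if_pos h, hanti j i, hent i j h.ne]
      rw [← hMat]
      exact ht
  have h5 := PS_mono hsub h1
  have h6 := PS_union (A := B) (B := {q | q ≤ M}) h1
  have h7 := PS_small M h1
  rw [zero_add, pow_one] at hB'
  linarith

end Cls

end BFINA

open _root_.Pool.Agent.PT.BFINA

/-- BFINA. -/
theorem BFIN_thm (hSPP : SPP) (hBSYS : BSYS) (hDCONST : DCONST) (hCLSC : CLSC) (hBKER : BKER)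
    (hBDENS : BDENS) (hTEND : TEND) (hEADM : EADM) : BFIN := by
  intro k r f hk hr h2 hinj hf t
  have hcl := fun w0 => cls hk hr h2 hinj hf hBSYS hDCONST hCLSC hBKER hBDENS hTEND hEADM t w0
  obtain ⟨K0, hK0⟩ := hcl 0
  obtain ⟨K1, hK1⟩ := hcl 1
  obtain ⟨K2, hK2⟩ := hcl 2
  refine ⟨K0 + K1 + K2, fun σ h1 hσ => ?_⟩
  obtain ⟨A, hA⟩ : ∃ A : ZMod 3 → Set ℕ, ∀ w0, A w0 = {q : ℕ | (q.Prime ∧ q % 3 = 2 ∧
      (q % 9 ≠ 8 ∨ ∃ i, r i % 9 ≠ 8) ∧
        t ≤ CubeRank.rr ((∏ i, (r i : ℤ) ^ f i) * q)) ∧ wt ((q : ℤ) ^ 2) = w0} :=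
    ⟨_, fun _ => rfl⟩
  have h3 : {q : ℕ | q.Prime ∧ q % 3 = 2 ∧ (q % 9 ≠ 8 ∨ ∃ i, r i % 9 ≠ 8) ∧
        t ≤ CubeRank.rr ((∏ i, (r i : ℤ) ^ f i) * q)} ⊆ (A 0 ∪ A 1) ∪ A 2 := by
    intro q hq
    rw [Set.mem_union, Set.mem_union, hA, hA, hA]
    have h4 : ∀ v : ZMod 3, (v = 0 ∨ v = 1) ∨ v = 2 := by decide
    rcases h4 (wt ((q : ℤ) ^ 2)) with (h | h) | h
    · exact Or.inl (Or.inl ⟨hq, h⟩)
    · exact Or.inl (Or.inr ⟨hq, h⟩)
    · exact Or.inr ⟨hq, h⟩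
  have h4 := PS_mono h3 h1
  have h5 := PS_union (A := A 0 ∪ A 1) (B := A 2) h1
  have h6 := PS_union (A := A 0) (B := A 1) h1
  have e0 := hK0 σ h1 hσ
  have e1 := hK1 σ h1 hσ
  have e2 := hK2 σ h1 hσ
  rw [← hA] at e0 e1 e2
  have h7 : PS {q : ℕ | q.Prime ∧ q % 3 = 2 ∧ (q % 9 ≠ 8 ∨ ∃ i, r i % 9 ≠ 8) ∧
        t ≤ CubeRank.rr ((∏ i, (r i : ℤ) ^ f i) * q)} σ ≤
      2 / 3 ^ (t * (t - 1) / 2) * Real.log (1 / (σ - 1)) + (K0 + K1 + K2) := by
    have h8 : (2 / 3 ^ (t * (t - 1) / 2) : ℝ) * Real.log (1 / (σ - 1)) =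
        3 * (2 / 3 ^ (t * (t - 1) / 2) / 3 * Real.log (1 / (σ - 1))) := by
      ring
    rw [h8]
    linarith
  exact h7

end Pool.Agent.PT

end

section

/-!
# Prime power twists: the distribution of the rank in a class
-/

set_option autoImplicit false

open NumberField IsDedekindDomain Finset
open scoped nonZeroDivisors Pointwise

namespace Pool.Agent.PTL

open Pool.Agent.PT Pool.Agent.Lib_helper18 Pool.Agent.Lib_helper18.Eis Pool.Agent.Lib_helper84.Cub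

/-- the primes `q` with `n q^E` in the class `w0` and rank at least `t` -/
def WS {k : ℕ} (r f : Fin k → ℕ) (w0 : ZMod 3) (E t : ℕ) : Set ℕ :=
  {q : ℕ | q % 3 = 2 ∧ (q % 9 ≠ 8 ∨ ∃ i, r i % 9 ≠ 8) ∧ wt (((q : ℤ) ^ E) ^ 2) = w0 ∧
    t ≤ CubeRank.rr ((∏ i, (r i : ℤ) ^ f i) * q ^ E)}

open Classical in
/-- the size of the matrices -/
noncomputable def sz {k : ℕ} (r f : Fin k → ℕ) (w0 : ZMod 3) : ℕ :=
  if wt (((∏ i, r i ^ f i : ℕ) : ℤ) ^ 2) + w0 = 0 ∧ ∃ j, wt ((r j : ℤ) ^ 2) ≠ 0 then k - 1 else k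

/-- CLE: the distribution of the rank in a class. -/
def CLE : Prop := ∀ (k : ℕ) (r f : Fin k → ℕ), 1 ≤ k → (∀ i, (r i).Prime) →
  (∀ i, r i % 3 = 2) → Function.Injective r → (∀ i, f i = 1 ∨ f i = 2) → ∀ w0 : ZMod 3,
  (∃ M : ℕ, ∀ (E q : ℕ), (E = 1 ∨ E = 2) → q.Prime → M < q → q ∈ WS r f w0 E 0 →
    CubeRank.rr ((∏ i, (r i : ℤ) ^ f i) * q ^ E) ≤ sz r f w0) ∧
  ∀ t : ℕ, ∃ K : ℝ, ∀ σ : ℝ, 1 < σ → σ ≤ 2 →
    BDENS.sm (WS r f w0 1 t) σ + BDENS.sm (WS r f w0 2 t) σ ≤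
      (NK (sz r f w0) t : ℝ) / Nat.card (Fin (sz r f w0) → Fin (sz r f w0) → ZMod 3) / 3 *
        Real.log (1 / (σ - 1)) + K

namespace CL

open BDENS

theorem sm_le_add (S T : Set ℕ) (M : ℕ) (h : ∀ n, n.Prime → M < n → n ∈ S → n ∈ T) {σ : ℝ}
    (hσ : 1 < σ) : sm S σ ≤ sm T σ + 2 * ((Finset.range (M + 1)).card : ℝ) := by
  have h1 := sm_add_le S ∅ T (Finset.range (M + 1)) (fun n hn hA hS => ⟨h n hn (by
    rw [Finset.mem_range, not_lt] at hA
    omega) hS, fun h => h⟩) (fun n _ _ h => absurd h (Set.notMem_empty n)) hσ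
  have h2 : 0 ≤ sm ∅ σ := by
    rw [sm_eq]
    exact tsum_nonneg fun n => ind_nonneg ∅ σ n
  linarith

theorem wt_sq2 {q : ℕ} (hq : q % 3 = 2) : wt (((q : ℤ) ^ 2) ^ 2) = 2 * wt ((q : ℤ) ^ 2) := by
  have h : ¬ (3 : ℤ) ∣ (q : ℤ) := by omega
  have h1 := sq_mod_three h
  have h2 : ((q : ℤ) ^ 2) ^ 2 = (q : ℤ) ^ 2 * (q : ℤ) ^ 2 := by ring
  rw [h2, wt_mul h1 h1]
  ring

end CL

open BFINA _root_.Pool.Agent.PTL.CL in
/-- CLE: the distribution of the rank in a class. -/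
theorem CLE_thm (hBSE : BSE) (hDCE : DCE) (hCLSC : CLSC) (hBKE : BKE) (hBDE : BDE)
    (hTEND : TEND) (hEAE : EAE) : CLE := by
  classical
  intro k r f hk hr h2 hinj hf w0
  obtain ⟨n, hn⟩ : ∃ n, n = ∏ i, r i ^ f i := ⟨_, rfl⟩
  have hNF := nf hr h2 hinj hf
  rw [← hn] at hNF
  have hn0 : 0 < n := by
    rw [hn]
    exact Finset.prod_pos fun i _ => pow_pos (hr i).pos _
  have hnZ : (∏ i, (r i : ℤ) ^ f i) = (n : ℤ) := by
    rw [hn]
    push_cast
    rfl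
  obtain ⟨s, b, P, Q, P', Q', hs, hAC, hSys, hspan⟩ := hBSE n k (fun i : Fin 0 => i.elim0)
    (fun i : Fin 0 => i.elim0) (fun i : Fin 0 => i.elim0) r f w0 (fun i : Fin 0 => i.elim0) hNF
  have hsz : sz r f w0 = s := by
    rw [hs]
    unfold sz
    rw [← hn]
  rw [hsz]
  -- the conductor
  have hD : ∀ j i : Fin s, ∃ f₀ : ℕ, 0 < f₀ ∧ (j ≠ i → ∀ f : ℕ, 0 < f → f₀ ∣ f →
      ∃ (C : ZMod 3) (Φ : (ZMod f)ˣ →* Multiplicative (ZMod 3)),
        ∀ (E q : ℕ) (hQ : q.Coprime f), q.Prime → q % 3 = 2 →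
          Adm ((n : ℤ) * q ^ E) (b i) →
          ∀ r : ℤ, (q : ℤ) ∣ r ^ 3 - b j →
            OO ((n : ℤ) * q ^ E) (b j) (b i) (P j i) (Q j i) (P' j i) (Q' j i) =
            C + E * ((Φ (ZMod.unitOfCoprime q hQ)).toAdd -
              TAUV q (P j i) (Q j i) (P' j i) (Q' j i) r)) := by
    intro j i
    by_cases hji : j = i
    · exact ⟨1, one_pos, fun h => absurd hji h⟩
    · obtain ⟨f₀, h0, h1⟩ := hDCE n (b j) (b i) (P j i) (Q j i) (P' j i) (Q' j i) hn0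
        (hSys.sol j i hji) (hAC j).ne (hAC i).ne
      exact ⟨f₀, h0, fun _ => h1⟩
  choose F0 hF0 hF1 using hD
  obtain ⟨F, hFdef⟩ : ∃ F, F = 9 * ∏ j, ∏ i, F0 j i := ⟨_, rfl⟩
  have hFpos : 0 < F := by
    rw [hFdef]
    exact Nat.mul_pos (by norm_num) (Finset.prod_pos fun j _ => Finset.prod_pos fun i _ => hF0 j i)
  have hF9 : 9 ∣ F := by
    rw [hFdef]
    exact dvd_mul_right _ _
  have hFd : ∀ j i, F0 j i ∣ F := by
    intro j i
    rw [hFdef]
    apply Dvd.dvd.mul_left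
    exact (Finset.dvd_prod_of_mem (fun i => F0 j i) (Finset.mem_univ i)).trans
      (Finset.dvd_prod_of_mem (fun j => ∏ i, F0 j i) (Finset.mem_univ j))
  have hC : ∀ j i : Fin s, ∃ (C : ZMod 3) (Φ : (ZMod F)ˣ →* Multiplicative (ZMod 3)),
      j ≠ i → ∀ (E q : ℕ) (hQ : q.Coprime F), q.Prime → q % 3 = 2 →
          Adm ((n : ℤ) * q ^ E) (b i) →
          ∀ r : ℤ, (q : ℤ) ∣ r ^ 3 - b j →
            OO ((n : ℤ) * q ^ E) (b j) (b i) (P j i) (Q j i) (P' j i) (Q' j i) =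
            C + E * ((Φ (ZMod.unitOfCoprime q hQ)).toAdd -
              TAUV q (P j i) (Q j i) (P' j i) (Q' j i) r) := by
    intro j i
    by_cases hji : j = i
    · exact ⟨0, 1, fun h => absurd hji h⟩
    · obtain ⟨C, Φ, h⟩ := hF1 j i hji F hFpos (hFd j i)
      exact ⟨C, Φ, fun _ => h⟩
  choose C Φ hC using hC
  obtain ⟨κ, hκ1, hκ2⟩ := hCLSC 0 (fun i : Fin 0 => i.elim0) (fun i : Fin 0 => i.elim0)
    (fun i => i.elim0) (fun i => i.elim0) (fun i => i.elim0) (fun i => i.elim0) F hFpos hF9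
    (fun i => i.elim0)
  let Φ' : (ZMod F)ˣ →* Multiplicative (Fin s → Fin s → ZMod 3) :=
    { toFun := fun a => Multiplicative.ofAdd fun j i => (Φ j i a).toAdd
      map_one' := by
        rw [← ofAdd_zero]
        congr 1
        funext j i
        rw [map_one]
        rfl
      map_mul' := by
        intro a a'
        rw [← ofAdd_add]
        congr 1
        funext j i
        rw [map_mul]
        rfl }
  obtain ⟨M, hM⟩ : ∃ M, M = n + F := ⟨_, rfl⟩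
  -- the matrix
  have hmat : ∀ (E q : ℕ), (E = 1 ∨ E = 2) → q.Prime → M < q → q ∈ WS r f w0 E 0 →
      CubeRank.rr ((n : ℤ) * q ^ E) ≤ s - (Mat b P Q P' Q' ((n : ℤ) * q ^ E)).rank ∧
      ∃ hQ : q.Coprime F, ∀ τ : Fin s → Fin s → ZMod 3,
        (∀ j i, j ≠ i → ∀ r : ℤ, (q : ℤ) ∣ r ^ 3 - b j →
          τ j i = TAUV q (P j i) (Q j i) (P' j i) (Q' j i) r) →
        Mat b P Q P' Q' ((n : ℤ) * q ^ E) = alt fun j i =>
          C j i + E * ((Φ j i (ZMod.unitOfCoprime q hQ)).toAdd - τ j i) := by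
    intro E q hE hq hqM ⟨hq3, hq9, hw, _⟩
    have hqn : ¬ q ∣ n := fun h => by
      have := Nat.le_of_dvd hn0 h
      omega
    have hQ : q.Coprime F := by
      rw [Nat.Prime.coprime_iff_not_dvd hq]
      intro h
      have := Nat.le_of_dvd hFpos h
      omega
    obtain ⟨hBOk, hA⟩ := hEAE n k (fun i : Fin 0 => i.elim0) (fun i : Fin 0 => i.elim0)
      (fun i : Fin 0 => i.elim0) r f w0 (fun i : Fin 0 => i.elim0) E q hNF hq hq3 hE hw hqn
    have hAdm : ∀ i, Adm ((n : ℤ) * q ^ E) (b i) := fun i => (hA (b i) (hAC i).supp).1 (hAC i)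
    have hgen := hBKE n k (fun i : Fin 0 => i.elim0) (fun i : Fin 0 => i.elim0)
      (fun i : Fin 0 => i.elim0) r f w0 (fun i : Fin 0 => i.elim0) s b P Q P' Q' E q hNF hk hAC
      hSys hspan hq hq3 hE hw hqn hq9.symm
    refine ⟨CubeRank.rr_le hgen, hQ, ?_⟩
    intro τ hτ
    have hent : ∀ j i, j ≠ i → Mat b P Q P' Q' ((n : ℤ) * q ^ E) j i =
        C j i + E * ((Φ j i (ZMod.unitOfCoprime q hQ)).toAdd - τ j i) := by
      intro j i hji
      obtain ⟨ρ, hρ⟩ := exists_root hq hq3 (b j)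
      rw [Mat, if_neg hji, hC j i hji E q hQ hq hq3 (hAdm i) ρ hρ, ← hτ j i hji ρ hρ]
    have hanti := (hTEND s b P Q P' Q' ((n : ℤ) * q ^ E) hSys hBOk hAdm).1
    ext j i
    rw [alt]
    rcases lt_trichotomy j i with h | h | h
    · rw [if_pos h, hent j i h.ne]
    · subst h
      rw [if_neg (lt_irrefl _), if_neg (lt_irrefl _), Mat, if_pos rfl]
    · rw [if_neg (not_lt.2 h.le), if_pos h, hanti j i, hent i j h.ne]
  constructor
  · refine ⟨M, fun E q hE hq hqM hqW => ?_⟩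
    rw [hnZ]
    exact (hmat E q hE hq hqM hqW).1.trans (Nat.sub_le _ _)
  intro t
  obtain ⟨K, hK⟩ := hBDE s b P Q P' Q' F 0 t κ (Fin.cons w0 fun i : Fin 0 => i.elim0) C Φ' hSys
    hFpos hF9 hκ2
  refine ⟨K + 2 * (2 * ((Finset.range (M + 1)).card : ℝ)), fun σ h1 hσ2 => ?_⟩
  have hB := hK σ h1 hσ2
  have h31 : (3 : ℝ) ^ (0 + 1) = 3 := by norm_num
  rw [h31] at hB
  have hsub1 : ∀ q : ℕ, q.Prime → M < q → q ∈ WS r f w0 1 t →
      q ∈ SP b P Q P' Q' t κ (Fin.cons w0 fun i : Fin 0 => i.elim0) C Φ' := by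
    intro q hq hqM ⟨hq3, hq9, hw, hrr⟩
    obtain ⟨hr1, hQ, hm⟩ := hmat 1 q (Or.inl rfl) hq hqM ⟨hq3, hq9, hw, Nat.zero_le _⟩
    rw [hnZ] at hrr
    refine ⟨hQ, hq3, ?_, ?_⟩
    · rw [hκ1]
      funext i
      refine Fin.cases ?_ (fun i => i.elim0) i
      rw [Fin.cons_zero, Fin.cons_zero]
      rw [pow_one] at hw
      exact hw
    · intro τ hτ
      have e1 : (fun j i => C j i + ((1 : ℕ) : ZMod 3) *
          ((Φ j i (ZMod.unitOfCoprime q hQ)).toAdd - τ j i)) =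
          C + (Φ' (ZMod.unitOfCoprime q hQ)).toAdd - τ := by
        funext j i
        show C j i + ((1 : ℕ) : ZMod 3) * ((Φ j i (ZMod.unitOfCoprime q hQ)).toAdd - τ j i) =
          C j i + (Φ j i (ZMod.unitOfCoprime q hQ)).toAdd - τ j i
        rw [Nat.cast_one]
        ring
      rw [← e1, ← hm τ hτ]
      exact hrr.trans hr1
  have hsub2 : ∀ q : ℕ, q.Prime → M < q → q ∈ WS r f w0 2 t →
      q ∈ SM b P Q P' Q' t κ (Fin.cons w0 fun i : Fin 0 => i.elim0) C Φ' := by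
    intro q hq hqM ⟨hq3, hq9, hw, hrr⟩
    obtain ⟨hr1, hQ, hm⟩ := hmat 2 q (Or.inr rfl) hq hqM ⟨hq3, hq9, hw, Nat.zero_le _⟩
    rw [hnZ] at hrr
    refine ⟨hQ, hq3, ?_, ?_⟩
    · rw [hκ1]
      funext i
      refine Fin.cases ?_ (fun i => i.elim0) i
      rw [Fin.cons_zero, Pi.neg_apply, Fin.cons_zero]
      rw [wt_sq2 hq3] at hw
      rw [← hw]
      generalize wt ((q : ℤ) ^ 2) = z
      revert z
      decide
    · intro τ hτ
      have e1 : (fun j i => C j i + ((2 : ℕ) : ZMod 3) *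
          ((Φ j i (ZMod.unitOfCoprime q hQ)).toAdd - τ j i)) =
          C - (Φ' (ZMod.unitOfCoprime q hQ)).toAdd + τ := by
        funext j i
        show C j i + ((2 : ℕ) : ZMod 3) * ((Φ j i (ZMod.unitOfCoprime q hQ)).toAdd - τ j i) =
          C j i - (Φ j i (ZMod.unitOfCoprime q hQ)).toAdd + τ j i
        rw [show ((2 : ℕ) : ZMod 3) = -1 from by decide]
        ring
      rw [← e1, ← hm τ hτ]
      exact hrr.trans hr1
  have i1 := sm_le_add _ _ M hsub1 h1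
  have i2 := sm_le_add _ _ M hsub2 h1
  linarith

end Pool.Agent.PTL

end

section

/-!
# Prime power twists: averages of functions of the rank in a class
-/

set_option autoImplicit false

open NumberField IsDedekindDomain Finset
open scoped nonZeroDivisors Pointwise

namespace Pool.Agent.PTL

open Pool.Agent.PT Pool.Agent.Lib_helper18 Pool.Agent.Lib_helper18.Eis Pool.Agent.Lib_helper84.Cub

namespace DOM

open BDENS

/-- The groups are finitely generated. -/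
theorem fin_gen {k : ℕ} (hk : 1 ≤ k) {p e : Fin k → ℕ} (hp : ∀ i, (p i).Prime)
    (h3 : ∀ i, p i % 3 = 2) (hinj : Function.Injective p) (he : ∀ i, e i = 1 ∨ e i = 2)
    {q E : ℕ} (hq : q.Prime) (hq3 : q % 3 = 2) (hE : E = 1 ∨ E = 2)
    (h9 : q % 9 ≠ 8 ∨ ∃ i, p i % 9 ≠ 8) (hne : ∀ i, p i ≠ q) :
    CubeRank.GenBy ((∏ i, (p i : ℤ) ^ e i) * q ^ E)
      (CubeRank.rr ((∏ i, (p i : ℤ) ^ e i) * q ^ E)) := by
  have h := CubeRank.gen_no (q := (Fin.cons q p : Fin (k + 1) → ℕ))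
    (fun i => Fin.cases (by simpa using hq) (fun i => by simpa using hp i) i)
    (fun i => Fin.cases (by simpa using hq3) (fun i => by simpa using h3 i) i)
    (by
      rw [Fin.cons_injective_iff]
      exact ⟨fun ⟨i, hi⟩ => hne i hi, hinj⟩)
    (by
      rcases h9 with h9 | ⟨i, h9⟩
      · exact ⟨0, by simpa using h9⟩
      · exact ⟨i.succ, by simpa using h9⟩)
    (by omega) (e := (Fin.cons E e : Fin (k + 1) → ℕ))
    (fun i => Fin.cases (by simpa using hE) (fun i => by simpa using he i) i)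
  rw [Fin.prod_univ_succ] at h
  simp only [Fin.cons_zero, Fin.cons_succ] at h
  rw [mul_comm] at h
  exact CubeRank.gen_rr h

/-- The trivial group has no rational points. -/
theorem no_sol {A : ℤ} (hA : A ≠ 0) (h : CubeRank.GenBy A 0) :
    ¬ ∃ X Y : ℚ, X ^ 3 + Y ^ 3 = (A : ℚ) := by
  rintro ⟨X, Y, hXY⟩
  have hAq : (A : ℚ) ≠ 0 := by exact_mod_cast hA
  obtain ⟨s, hs, hcl⟩ := h
  have hs0 : s = ∅ := Finset.card_eq_zero.1 (by omega)
  rw [hs0, Finset.coe_empty, AddSubgroup.closure_empty] at hcl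
  have hsum : X + Y ≠ 0 := by
    intro h0
    apply hAq
    rw [← hXY]
    have : Y = -X := by linarith
    rw [this]
    ring
  have hx : 12 * (A : ℚ) / (X + Y) ≠ 0 := div_ne_zero (mul_ne_zero (by norm_num) hAq) hsum
  have hns := CubeRank.bas_nonsing (A := A) (x := 12 * (A : ℚ) / (X + Y))
    (y := 36 * (A : ℚ) * (X - Y) / (X + Y)) hx (by
      rw [← hXY]
      field_simp
      ring)
  have h1 : (WeierstrassCurve.Affine.Point.some _ _ hns : CubeRank.GA A) ∈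
      (⊥ : AddSubgroup (CubeRank.GA A)) := by
    rw [hcl]
    exact AddSubgroup.mem_top _
  rw [AddSubgroup.mem_bot] at h1
  exact WeierstrassCurve.Affine.Point.some_ne_zero _ h1

theorem sum_ind_le (S : Set ℕ) {σ : ℝ} (hσ : 1 < σ) (T : Finset ℕ) :
    ∑ q ∈ T, ind S σ q ≤ sm S σ := by
  rw [sm_eq]
  exact (ind_summable S hσ).sum_le_tsum T fun n _ => ind_nonneg S σ n

theorem NK_zero (s : ℕ) : NK s 0 = Nat.card (Fin s → Fin s → ZMod 3) := by
  unfold NK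
  exact Nat.card_congr (Equiv.subtypeUnivEquiv fun v => Nat.zero_le _)

section

variable {k : ℕ} {r f : Fin k → ℕ} {w0 : ZMod 3}

theorem WS_zero {E t q : ℕ} (h : q ∈ WS r f w0 E t) : q ∈ WS r f w0 E 0 :=
  ⟨h.1, h.2.1, h.2.2.1, Nat.zero_le _⟩

open Classical in
/-- one exponent, pointwise -/
theorem point (F : ℕ → ℝ) (hF : Monotone F) (h0 : 0 ≤ F 0) {M s : ℕ} {E : ℕ}
    (hM : ∀ q : ℕ, q.Prime → M < q → q ∈ WS r f w0 E 0 →
      CubeRank.rr ((∏ i, (r i : ℤ) ^ f i) * q ^ E) ≤ s) {σ : ℝ} (hσ : 1 < σ) (q : ℕ) :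
    (if q.Prime ∧ q ∈ WS r f w0 E 0 then
      F (CubeRank.rr ((∏ i, (r i : ℤ) ^ f i) * q ^ E)) * (q : ℝ) ^ (-σ) else 0) ≤
    F 0 * ind (WS r f w0 E 0) σ q +
      ∑ t ∈ Finset.range s, (F (t + 1) - F t) * ind (WS r f w0 E (t + 1)) σ q +
      (if q ≤ M then F (CubeRank.rr ((∏ i, (r i : ℤ) ^ f i) * q ^ E)) else 0) := by
  have hFn : ∀ n, 0 ≤ F n := fun n => h0.trans (hF (Nat.zero_le n))
  have hsum : 0 ≤ ∑ t ∈ Finset.range s, (F (t + 1) - F t) * ind (WS r f w0 E (t + 1)) σ q :=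
    Finset.sum_nonneg fun t _ => mul_nonneg (sub_nonneg.2 (hF (Nat.le_succ t)))
      (ind_nonneg _ _ _)
  have h00 : 0 ≤ F 0 * ind (WS r f w0 E 0) σ q := mul_nonneg h0 (ind_nonneg _ _ _)
  have hlast : 0 ≤ (if q ≤ M then F (CubeRank.rr ((∏ i, (r i : ℤ) ^ f i) * q ^ E)) else 0) := by
    split_ifs
    · exact hFn _
    · exact le_rfl
  by_cases hq : q.Prime ∧ q ∈ WS r f w0 E 0
  · rw [if_pos hq]
    by_cases hqM : q ≤ M
    · rw [if_pos hqM]
      have h1 : (q : ℝ) ^ (-σ) ≤ 1 :=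
        Real.rpow_le_one_of_one_le_of_nonpos (by exact_mod_cast hq.1.one_lt.le) (by linarith)
      have h2 := mul_le_mul_of_nonneg_left h1
        (hFn (CubeRank.rr ((∏ i, (r i : ℤ) ^ f i) * q ^ E)))
      rw [mul_one] at h2
      linarith
    · rw [if_neg hqM, add_zero]
      push Not at hqM
      have hrs := hM q hq.1 hqM hq.2
      obtain ⟨ρ, hρ⟩ : ∃ ρ, ρ = CubeRank.rr ((∏ i, (r i : ℤ) ^ f i) * q ^ E) := ⟨_, rfl⟩
      rw [← hρ] at hrs ⊢
      have e1 : ∀ t, ind (WS r f w0 E (t + 1)) σ q = if t < ρ then (q : ℝ) ^ (-σ) else 0 := by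
        intro t
        by_cases ht : t < ρ
        · rw [if_pos ht]
          exact ind_mem hq.1 ⟨hq.2.1, hq.2.2.1, hq.2.2.2.1, by rw [← hρ]; exact ht⟩
        · rw [if_neg ht]
          refine ind_not fun h => ht ?_
          have h3 := h.2.2.2.2
          rw [← hρ] at h3
          exact h3
      have e2 : ∑ t ∈ Finset.range s, (F (t + 1) - F t) * ind (WS r f w0 E (t + 1)) σ q =
          (F ρ - F 0) * (q : ℝ) ^ (-σ) := by
        have e3 : ∀ t ∈ Finset.range s, (F (t + 1) - F t) * ind (WS r f w0 E (t + 1)) σ q =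
            if t < ρ then (F (t + 1) - F t) * (q : ℝ) ^ (-σ) else 0 := by
          intro t _
          rw [e1 t, mul_ite, mul_zero]
        rw [Finset.sum_congr rfl e3, ← Finset.sum_filter]
        have e4 : (Finset.range s).filter (fun t => t < ρ) = Finset.range ρ := by
          ext t
          simp only [Finset.mem_filter, Finset.mem_range]
          omega
        rw [e4, ← Finset.sum_mul, Finset.sum_range_sub]
      rw [e2, ind_mem hq.1 hq.2]
      apply le_of_eq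
      ring
  · rw [if_neg hq]
    linarith

open Classical in
/-- averages in a class -/
theorem dom (hCLE : CLE) (hk : 1 ≤ k) (hr : ∀ i, (r i).Prime) (h2 : ∀ i, r i % 3 = 2)
    (hinj : Function.Injective r) (hf : ∀ i, f i = 1 ∨ f i = 2) (w0 : ZMod 3)
    (F : ℕ → ℝ) (hF : Monotone F) (h0 : 0 ≤ F 0) :
    ∃ K : ℝ, ∀ σ : ℝ, 1 < σ → σ ≤ 2 → ∀ T : Finset ℕ,
      ∑ E ∈ ({1, 2} : Finset ℕ), ∑ q ∈ T, (if q.Prime ∧ q ∈ WS r f w0 E 0 then
        F (CubeRank.rr ((∏ i, (r i : ℤ) ^ f i) * q ^ E)) * (q : ℝ) ^ (-σ) else 0) ≤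
      Esk (sz r f w0) F / 3 * Real.log (1 / (σ - 1)) + K := by
  obtain ⟨⟨M, hM⟩, hC⟩ := hCLE k r f hk hr h2 hinj hf w0
  choose K hK using hC
  have hFn : ∀ n, 0 ≤ F n := fun n => h0.trans (hF (Nat.zero_le n))
  obtain ⟨s, hs⟩ : ∃ s, s = sz r f w0 := ⟨_, rfl⟩
  rw [← hs] at hM hK ⊢
  obtain ⟨B, hB⟩ : ∃ B : ℕ → ℝ, ∀ E, B E = ∑ q ∈ Finset.range (M + 1),
      F (CubeRank.rr ((∏ i, (r i : ℤ) ^ f i) * (q : ℤ) ^ E)) := ⟨_, fun _ => rfl⟩
  refine ⟨F 0 * K 0 + ∑ t ∈ Finset.range s, (F (t + 1) - F t) * K (t + 1) + B 1 + B 2,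
    fun σ h1 hσ2 T => ?_⟩
  have hone : ∀ E : ℕ, (E = 1 ∨ E = 2) →
      ∑ q ∈ T, (if q.Prime ∧ q ∈ WS r f w0 E 0 then
        F (CubeRank.rr ((∏ i, (r i : ℤ) ^ f i) * q ^ E)) * (q : ℝ) ^ (-σ) else 0) ≤
      F 0 * sm (WS r f w0 E 0) σ + ∑ t ∈ Finset.range s, (F (t + 1) - F t) *
        sm (WS r f w0 E (t + 1)) σ + B E := by
    intro E hE
    refine (Finset.sum_le_sum fun q _ => point F hF h0 (s := s) (M := M)
      (fun q hq hqM hqW => hM E q hE hq hqM hqW) h1 q).trans ?_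
    rw [Finset.sum_add_distrib, Finset.sum_add_distrib]
    refine add_le_add (add_le_add ?_ ?_) ?_
    · rw [← Finset.mul_sum]
      exact mul_le_mul_of_nonneg_left (sum_ind_le _ h1 T) h0
    · rw [Finset.sum_comm]
      refine Finset.sum_le_sum fun t _ => ?_
      rw [← Finset.mul_sum]
      exact mul_le_mul_of_nonneg_left (sum_ind_le _ h1 T) (sub_nonneg.2 (hF (Nat.le_succ t)))
    · rw [← Finset.sum_filter, hB]
      refine Finset.sum_le_sum_of_subset_of_nonneg ?_ fun q _ _ => hFn _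
      intro q hq
      rw [Finset.mem_range]
      have := (Finset.mem_filter.1 hq).2
      omega
  rw [Finset.sum_pair (by norm_num : (1 : ℕ) ≠ 2)]
  have i1 := hone 1 (Or.inl rfl)
  have i2 := hone 2 (Or.inr rfl)
  have j0 := mul_le_mul_of_nonneg_left (hK 0 σ h1 hσ2) h0
  have j1 : ∑ t ∈ Finset.range s, (F (t + 1) - F t) * (sm (WS r f w0 1 (t + 1)) σ +
      sm (WS r f w0 2 (t + 1)) σ) ≤ ∑ t ∈ Finset.range s, (F (t + 1) - F t) *
      ((NK s (t + 1) : ℝ) / Nat.card (Fin s → Fin s → ZMod 3) / 3 *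
        Real.log (1 / (σ - 1)) + K (t + 1)) :=
    Finset.sum_le_sum fun t _ => mul_le_mul_of_nonneg_left (hK (t + 1) σ h1 hσ2)
      (sub_nonneg.2 (hF (Nat.le_succ t)))
  have hN : (Nat.card (Fin s → Fin s → ZMod 3) : ℝ) ≠ 0 := Nat.cast_ne_zero.2 Nat.card_pos.ne'
  rw [NK_zero, div_self hN] at j0
  have hE : Esk s F / 3 * Real.log (1 / (σ - 1)) =
      F 0 * (1 / 3 * Real.log (1 / (σ - 1))) +
      ∑ t ∈ Finset.range s, (F (t + 1) - F t) *
        ((NK s (t + 1) : ℝ) / Nat.card (Fin s → Fin s → ZMod 3) / 3 *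
          Real.log (1 / (σ - 1))) := by
    rw [AL.Esk_sum, add_div, add_mul, Finset.sum_div, Finset.sum_mul]
    congr 1
    · ring
    · refine Finset.sum_congr rfl fun t _ => ?_
      unfold NK
      ring
  rw [hE]
  have e1 : ∑ t ∈ Finset.range s, (F (t + 1) - F t) * (sm (WS r f w0 1 (t + 1)) σ +
      sm (WS r f w0 2 (t + 1)) σ) =
      ∑ t ∈ Finset.range s, (F (t + 1) - F t) * sm (WS r f w0 1 (t + 1)) σ +
      ∑ t ∈ Finset.range s, (F (t + 1) - F t) * sm (WS r f w0 2 (t + 1)) σ := by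
    rw [← Finset.sum_add_distrib]
    exact Finset.sum_congr rfl fun t _ => by ring
  have e2 : ∑ t ∈ Finset.range s, (F (t + 1) - F t) *
      ((NK s (t + 1) : ℝ) / Nat.card (Fin s → Fin s → ZMod 3) / 3 *
        Real.log (1 / (σ - 1)) + K (t + 1)) =
      ∑ t ∈ Finset.range s, (F (t + 1) - F t) *
        ((NK s (t + 1) : ℝ) / Nat.card (Fin s → Fin s → ZMod 3) / 3 *
          Real.log (1 / (σ - 1))) +
      ∑ t ∈ Finset.range s, (F (t + 1) - F t) * K (t + 1) := by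
    rw [← Finset.sum_add_distrib]
    exact Finset.sum_congr rfl fun t _ => by ring
  rw [e1, e2] at j1
  rw [mul_add, mul_add] at j0
  linarith

/-- the number of the primes in the class -/
theorem low0 (hDIR : DIR) (w0 : ZMod 3) (hH : (∃ i, r i % 9 ≠ 8) ∨ w0 ≠ 0) :
    ∃ K : ℝ, ∀ σ : ℝ, 1 < σ → σ ≤ 2 →
      1 / 3 * Real.log (1 / (σ - 1)) - K ≤ sm (WS r f w0 1 0) σ + sm (WS r f w0 2 0) σ := by
  obtain ⟨C1, hC1⟩ := DL.w_lower hDIR w0
  obtain ⟨C2, hC2⟩ := DL.w_lower hDIR (-w0)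
  have h9 : ∀ q : ℕ, q % 3 = 2 → wt ((q : ℤ) ^ 2) = w0 ∨ wt ((q : ℤ) ^ 2) = -w0 →
      q % 9 ≠ 8 ∨ ∃ i, r i % 9 ≠ 8 := by
    intro q _ hw
    rcases hH with h | h
    · exact Or.inr h
    · refine Or.inl fun hq => h ?_
      have h1 := DL.wt_val 8 7 0 hq (by norm_num)
      rw [h1] at hw
      rcases hw with hw | hw
      · rw [← hw]
        decide
      · have h2 : w0 = -(-w0) := (neg_neg _).symm
        rw [h2, ← hw]
        decide
  refine ⟨C1 + C2, fun σ h1 h2 => ?_⟩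
  have e1 := hC1 σ h1 h2
  have e2 := hC2 σ h1 h2
  have e3 : sm {q : ℕ | q % 3 = 2 ∧ wt ((q : ℤ) ^ 2) = w0} σ ≤ sm (WS r f w0 1 0) σ := by
    refine DL.sm_mono ?_ h1
    intro q _ hq
    refine ⟨hq.1, h9 q hq.1 (Or.inl hq.2), ?_, Nat.zero_le _⟩
    rw [pow_one]
    exact hq.2
  have e4 : sm {q : ℕ | q % 3 = 2 ∧ wt ((q : ℤ) ^ 2) = -w0} σ ≤ sm (WS r f w0 2 0) σ := by
    refine DL.sm_mono ?_ h1
    intro q _ hq
    refine ⟨hq.1, h9 q hq.1 (Or.inr hq.2), ?_, Nat.zero_le _⟩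
    rw [CL.wt_sq2 hq.1, hq.2]
    have h3 : ∀ z : ZMod 3, 2 * -z = z := by decide
    exact h3 w0
  linarith

theorem approx (S : Set ℕ) {σ : ℝ} (hσ : 1 < σ) :
    ∃ T : Finset ℕ, sm S σ - 1 ≤ ∑ q ∈ T, ind S σ q := by
  have h1 := (ind_summable S hσ).hasSum
  rw [← sm_eq] at h1
  have h2 := h1.eventually (lt_mem_nhds (show sm S σ - 1 < sm S σ by linarith))
  obtain ⟨T, hT⟩ := h2.exists
  exact ⟨T, hT.le⟩

/-- lower bounds in a class -/
theorem low (hCLE : CLE) (hDIR : DIR) (hk : 1 ≤ k) (hr : ∀ i, (r i).Prime)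
    (h2 : ∀ i, r i % 3 = 2) (hinj : Function.Injective r) (hf : ∀ i, f i = 1 ∨ f i = 2)
    (w0 : ZMod 3) (hH : (∃ i, r i % 9 ≠ 8) ∨ w0 ≠ 0) (t : ℕ) (G : ℕ → Set ℕ) (M : ℕ)
    (hG : ∀ E q : ℕ, (E = 1 ∨ E = 2) → q.Prime → M < q → q ∈ WS r f w0 E 0 →
      q ∉ WS r f w0 E t → q ∈ G E) :
    ∃ K : ℝ, ∀ σ : ℝ, 1 < σ → σ ≤ 2 → ∃ T : Finset ℕ,
      (1 - (NK (sz r f w0) t : ℝ) / Nat.card (Fin (sz r f w0) → Fin (sz r f w0) → ZMod 3)) / 3 *
        Real.log (1 / (σ - 1)) - K ≤ ∑ E ∈ ({1, 2} : Finset ℕ), ∑ q ∈ T, ind (G E) σ q := by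
  obtain ⟨-, hC⟩ := hCLE k r f hk hr h2 hinj hf w0
  obtain ⟨K, hK⟩ := hC t
  obtain ⟨K0, hK0⟩ := low0 (r := r) (f := f) hDIR w0 hH
  refine ⟨K + K0 + 2 * (2 * ((Finset.range (M + 1)).card : ℝ)) + 2, fun σ h1 hσ2 => ?_⟩
  have e1 := hK σ h1 hσ2
  have e2 := hK0 σ h1 hσ2
  have e3 : ∀ E : ℕ, (E = 1 ∨ E = 2) → sm (WS r f w0 E 0) σ ≤
      sm (WS r f w0 E t) σ + sm (G E) σ + 2 * ((Finset.range (M + 1)).card : ℝ) := by
    intro E hE
    have i1 := CL.sm_le_add (WS r f w0 E 0) (WS r f w0 E t ∪ G E) M (fun q hq hqM hqW => by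
      by_cases h : q ∈ WS r f w0 E t
      · exact Or.inl h
      · exact Or.inr (hG E q hE hq hqM hqW h)) h1
    have i2 := BD.sm_union_inter (WS r f w0 E t) (G E) h1
    have i3 := DL.sm_nonneg (WS r f w0 E t ∩ G E) σ
    linarith
  obtain ⟨T1, hT1⟩ := approx (G 1) h1
  obtain ⟨T2, hT2⟩ := approx (G 2) h1
  refine ⟨T1 ∪ T2, ?_⟩
  rw [Finset.sum_pair (by norm_num : (1 : ℕ) ≠ 2)]
  have j1 : ∑ q ∈ T1, ind (G 1) σ q ≤ ∑ q ∈ T1 ∪ T2, ind (G 1) σ q :=
    Finset.sum_le_sum_of_subset_of_nonneg Finset.subset_union_left fun q _ _ =>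
      ind_nonneg _ _ _
  have j2 : ∑ q ∈ T2, ind (G 2) σ q ≤ ∑ q ∈ T1 ∪ T2, ind (G 2) σ q :=
    Finset.sum_le_sum_of_subset_of_nonneg Finset.subset_union_right fun q _ _ =>
      ind_nonneg _ _ _
  have e4 := e3 1 (Or.inl rfl)
  have e5 := e3 2 (Or.inr rfl)
  have e6 : (1 - (NK (sz r f w0) t : ℝ) /
      Nat.card (Fin (sz r f w0) → Fin (sz r f w0) → ZMod 3)) / 3 * Real.log (1 / (σ - 1)) =
      1 / 3 * Real.log (1 / (σ - 1)) - (NK (sz r f w0) t : ℝ) /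
      Nat.card (Fin (sz r f w0) → Fin (sz r f w0) → ZMod 3) / 3 * Real.log (1 / (σ - 1)) := by
    ring
  rw [e6]
  linarith

end

end DOM

end Pool.Agent.PTL

end

section

/-!
# PTN_LAW: the sums of `DOMG` for the two laws
-/

set_option autoImplicit false

open Finset

namespace Pool.Agent.PTN

open Pool.Agent.PT Pool.Agent.PTL

namespace LAW

theorem LI_zero (s : ℕ) : LI s 0 = 1 := by
  unfold LI
  rw [DOM.NK_zero]
  exact div_self (Nat.cast_ne_zero.2 Nat.card_pos.ne')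

theorem LI_big {s t : ℕ} (h : s < t) : LI s t = 0 := by
  unfold LI
  have h1 : NK s t = 0 := by
    unfold NK
    have : IsEmpty {v : Fin s → Fin s → ZMod 3 // t ≤ s - (alt v).rank} :=
      ⟨fun v => by
        have h2 := v.2
        omega⟩
    exact Nat.card_of_isEmpty
  rw [h1, Nat.cast_zero, zero_div]

theorem LI_nonneg (s t : ℕ) : 0 ≤ LI s t := by
  unfold LI
  positivity

theorem Esk_LI (s : ℕ) (G : ℕ → ℝ) : Esk s G = G 0 +
    ∑ t ∈ Finset.range s, (G (t + 1) - G t) * LI s (t + 1) :=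
  AL.Esk_sum s G

theorem Esk_ind (s t : ℕ) : Esk s (fun c => if t ≤ c then 1 else 0) = LI s t := by
  classical
  rw [AL.Esk_eq]
  unfold LI
  congr 1
  unfold NK
  rw [Nat.card_eq_fintype_card, Fintype.card_subtype, Finset.sum_ite, Finset.sum_const_zero,
    add_zero, Finset.sum_const, nsmul_eq_mul, mul_one]
  rfl

theorem main (s v k : ℕ) (F : ℕ → ℝ) : F 0 * LI s (0 - v) +
    ∑ t ∈ Finset.range (v + (s + k)), (F (t + 1) - F t) * LI s (t + 1 - v) =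
      Esk s (fun c => F (v + c)) := by
  have h0 : 0 - v = 0 := by omega
  rw [h0, LI_zero, mul_one, Finset.sum_range_add, Esk_LI]
  have h1 : ∑ x ∈ Finset.range v, (F (x + 1) - F x) * LI s (x + 1 - v) = F v - F 0 := by
    rw [← Finset.sum_range_sub]
    refine Finset.sum_congr rfl fun x hx => ?_
    rw [Finset.mem_range] at hx
    have h2 : x + 1 - v = 0 := by omega
    rw [h2, LI_zero, mul_one]
  have h3 : ∑ x ∈ Finset.range (s + k), (F (v + x + 1) - F (v + x)) * LI s (v + x + 1 - v) =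
      ∑ x ∈ Finset.range s, (F (v + (x + 1)) - F (v + x)) * LI s (x + 1) := by
    rw [Finset.sum_range_add]
    have h4 : ∑ x ∈ Finset.range k, (F (v + (s + x) + 1) - F (v + (s + x))) *
        LI s (v + (s + x) + 1 - v) = 0 := by
      refine Finset.sum_eq_zero fun x _ => ?_
      rw [LI_big (by omega), mul_zero]
    rw [h4, add_zero]
    refine Finset.sum_congr rfl fun x _ => ?_
    have h5 : v + x + 1 - v = x + 1 := by omega
    rw [h5, add_assoc]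
  rw [h1, h3]
  show F 0 + (F v - F 0 + _) = F (v + 0) + _
  rw [add_zero]
  ring

theorem x_nonneg (s : ℕ) : (0 : ℝ) ≤ 1 / 3 ^ s := by positivity

theorem x_le (s n : ℕ) (h : n ≤ s) : (1 : ℝ) / 3 ^ s ≤ 1 / 3 ^ n :=
  one_div_le_one_div_of_le (by positivity) (pow_le_pow_right₀ (by norm_num) h)

theorem pow_le (s v : ℕ) : Esk s (fun c => (3 : ℝ) ^ (v + c)) ≤ 4 * 3 ^ v := by
  have h := AL.Esk_le s (fun c => (3 : ℝ) ^ (v + c)) (3 ^ v) 0 (by positivity) fun c _ => by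
    rw [pow_add, add_zero]
  have h3 : (0 : ℝ) ≤ 3 ^ v * (3 / 3 ^ s) := by positivity
  linarith

end LAW

open _root_.Pool.Agent.PTN.LAW in
theorem LAW_thm : Stmt_LAW := by
  refine ⟨fun s v F => main s v 0 F, ?_, ?_, ?_, ?_, ?_, pow_le, ?_⟩
  · intro s v F
    have hb : F 0 * (if 0 ≤ v + s + 1 then (1 : ℝ) else 0) +
        ∑ t ∈ Finset.range (v + s + 1), (F (t + 1) - F t) *
          (if t + 1 ≤ v + s + 1 then (1 : ℝ) else 0) = F (v + s + 1) := by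
      rw [if_pos (Nat.zero_le _), mul_one]
      have h1 : ∑ t ∈ Finset.range (v + s + 1), (F (t + 1) - F t) *
          (if t + 1 ≤ v + s + 1 then (1 : ℝ) else 0) = F (v + s + 1) - F 0 := by
        rw [← Finset.sum_range_sub]
        refine Finset.sum_congr rfl fun t ht => ?_
        rw [Finset.mem_range] at ht
        rw [if_pos (by omega), mul_one]
      rw [h1]
      ring
    have ha : F 0 * LI (s - 1) (0 - v) +
        ∑ t ∈ Finset.range (v + s + 1), (F (t + 1) - F t) * LI (s - 1) (t + 1 - v) =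
        Esk (s - 1) (fun c => F (v + c)) := by
      have h1 : v + s + 1 = v + (s - 1 + (s + 1 - (s - 1))) := by omega
      rw [h1]
      exact main (s - 1) v _ F
    rw [← ha, ← hb]
    unfold LS
    have e1 : ∀ t, (F (t + 1) - F t) * ((1 - 1 / 3 ^ s) * LI (s - 1) (t + 1 - v) +
        1 / 3 ^ s * (if t + 1 ≤ v + s + 1 then (1 : ℝ) else 0)) =
        (1 - 1 / 3 ^ s) * ((F (t + 1) - F t) * LI (s - 1) (t + 1 - v)) +
        1 / 3 ^ s * ((F (t + 1) - F t) * (if t + 1 ≤ v + s + 1 then (1 : ℝ) else 0)) := by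
      intro t
      ring
    rw [Finset.sum_congr rfl fun t _ => e1 t, Finset.sum_add_distrib, ← Finset.mul_sum,
      ← Finset.mul_sum]
    ring
  · intro s hs
    rw [← Esk_ind]
    exact AL.Esk_pos hs
  · intro s hs
    rw [← Esk_ind]
    exact AL.Esk_two hs
  · intro s hs
    unfold LS
    rw [if_pos (by omega), mul_one]
    show (1 - 1 / 3 ^ s) * LI (s - 1) 1 + 1 / 3 ^ s ≤ 3 / 8
    obtain ⟨k, rfl⟩ := hs
    have h1 : LI (2 * k + 1 - 1) 1 ≤ 1 / 8 * (4 - 3 / 3 ^ (2 * k + 1 - 1)) + -(1 / 8) := by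
      rw [← Esk_ind]
      refine AL.Esk_le _ (fun c => if 1 ≤ c then 1 else 0) (1 / 8) (-(1 / 8)) (by norm_num)
        fun c hc => ?_
      show (if 1 ≤ c then (1 : ℝ) else 0) ≤ _
      by_cases h0 : c = 0
      · subst h0
        norm_num
      · rw [if_pos (by omega)]
        have h2 : 3 ^ 2 ≤ 3 ^ c := Nat.pow_le_pow_right (by norm_num) (by omega)
        have h4 : (3 ^ 2 : ℝ) ≤ 3 ^ c := by exact_mod_cast h2
        linarith
    have h2 := x_le (2 * k + 1) 1 (by omega)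
    have h3 := x_nonneg (2 * k + 1)
    have h6 : (3 : ℝ) / 3 ^ (2 * k + 1 - 1) = 9 * (1 / 3 ^ (2 * k + 1)) := by
      have : (3 : ℝ) ^ (2 * k) ≠ 0 := by positivity
      rw [Nat.add_sub_cancel, pow_succ]
      field_simp
      norm_num
    rw [h6] at h1
    rw [pow_one] at h2
    generalize (1 : ℝ) / 3 ^ (2 * k + 1) = x at h1 h2 h3 ⊢
    generalize LI (2 * k + 1 - 1) 1 = y at h1 ⊢
    have h4 : (0 : ℝ) ≤ 1 - x := by linarith
    have h5 := mul_le_mul_of_nonneg_left h1 h4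
    nlinarith [mul_nonneg h3 (by linarith : (0 : ℝ) ≤ 1 / 3 - x)]
  · intro s hs
    unfold LS
    show (1 - 1 / 3 ^ s) * LI (s - 1) 2 + 1 / 3 ^ s * (if 2 ≤ 0 + s + 1 then (1 : ℝ) else 0) ≤
      1 / 9
    obtain ⟨k, rfl⟩ := hs
    rcases Nat.lt_or_ge k 2 with hk | hk
    · interval_cases k
      · norm_num
      · rw [LI_big (by norm_num), if_pos (by norm_num)]
        norm_num
    · rw [if_pos (by omega), mul_one]
      have h1 : LI (k + k - 1) 2 ≤ 1 / 24 := by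
        rw [← Esk_ind]
        exact AL.Esk_two ⟨k - 1, by omega⟩
      have h2 := x_le (k + k) 4 (by omega)
      have h3 := x_nonneg (k + k)
      have h6 : (1 : ℝ) / 3 ^ 4 = 1 / 81 := by norm_num
      rw [h6] at h2
      have h4 : (0 : ℝ) ≤ 1 - 1 / 3 ^ (k + k) := by linarith
      have h5 := mul_le_mul_of_nonneg_left h1 h4
      linarith
  · intro s v
    have h1 := pow_le (s - 1) v
    have h3 := x_nonneg s
    have h2 := x_le s 0 (Nat.zero_le _)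
    rw [pow_zero, div_one] at h2
    have h4 : (0 : ℝ) ≤ 1 - 1 / 3 ^ s := by linarith
    have h5 := mul_le_mul_of_nonneg_left h1 h4
    have h6 : 1 / 3 ^ s * (3 : ℝ) ^ (v + s + 1) = 3 * 3 ^ v := by
      have : (3 : ℝ) ^ s ≠ 0 := by positivity
      rw [pow_add, pow_add]
      field_simp
    have h7 : (0 : ℝ) ≤ 1 / 3 ^ s * (4 * 3 ^ v) := by positivity
    rw [h6]
    linarith

end Pool.Agent.PTN

end

section

set_option autoImplicit false

open NumberField IsDedekindDomain Finset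
open scoped nonZeroDivisors Pointwise

namespace Pool.Agent.PTN

open Pool.Agent.Lib_helper18 Pool.Agent.Lib_helper18.Eis Pool.Agent.Lib_helper84.Cub
open Pool.Agent.PT Pool.Agent.PTE Pool.Agent.PT3 Pool.Agent.PTL

namespace NFE

theorem card_eq {N : ℕ} (hN : 0 < N) (hcf : ∀ p : ℕ, p.Prime → ¬ p ^ 3 ∣ N) (a : ℕ)
    (ha : a ≠ 0) :
    Nat.card {p : ℕ // p.Prime ∧ p % 3 = a ∧
      ¬ 3 ∣ (N / 3 ^ N.factorization 3).factorization p} =
      (N.primeFactors.filter (fun p => p % 3 = a)).card := by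
  apply Nat.subtype_card
  intro p
  rw [Finset.mem_filter]
  constructor
  · rintro ⟨hp, hpa⟩
    have hpr := Nat.prime_of_mem_primeFactors hp
    have h3 : p ≠ 3 := by
      rintro rfl
      exact ha hpa.symm
    refine ⟨hpr, hpa, ?_⟩
    rw [Nat.factorization_ordCompl, Finsupp.erase_ne h3]
    have h1 : 0 < N.factorization p :=
      hpr.factorization_pos_of_dvd hN.ne' (Nat.dvd_of_mem_primeFactors hp)
    have h2 : N.factorization p < 3 := by
      by_contra hc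
      exact hcf p hpr ((hpr.pow_dvd_iff_le_factorization hN.ne').2 (not_lt.1 hc))
    omega
  · rintro ⟨hpr, hpa, h⟩
    have h3 : p ≠ 3 := by
      rintro rfl
      exact ha hpa.symm
    rw [Nat.factorization_ordCompl, Finsupp.erase_ne h3] at h
    refine ⟨?_, hpa⟩
    rw [← Nat.support_factorization, Finsupp.mem_support_iff]
    intro h0
    rw [h0] at h
    exact h (dvd_zero 3)

end NFE

/-- NFE: normal form. -/
theorem NFE_thm (hENF : ENF) : Stmt_NFE := by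
  intro N hN hcf
  have h3 : ¬ 3 ∣ N / 3 ^ N.factorization 3 := Nat.not_dvd_ordCompl Nat.prime_three hN.ne'
  have hpos : 0 < N / 3 ^ N.factorization 3 := Nat.ordCompl_pos 3 hN.ne'
  have hle : N.factorization 3 ≤ 2 := by
    by_contra hc
    exact hcf 3 Nat.prime_three
      ((Nat.prime_three.pow_dvd_iff_le_factorization hN.ne').2 (by omega))
  obtain ⟨n, t, π, p, e, r, f, hn, ht, hNn, hNF, -⟩ := hENF _ hpos h3
  have ht1 : t = 1 := by
    by_contra hc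
    obtain ⟨l, hl, hlt⟩ := Nat.exists_prime_and_dvd hc
    apply hcf l hl
    have h1 : l ^ 3 ∣ N / 3 ^ N.factorization 3 := by
      rw [hNn]
      exact (pow_dvd_pow_of_dvd hlt 3).mul_left n
    exact h1.trans (Nat.ordCompl_dvd N 3)
  rw [ht1, one_pow, mul_one] at hNn
  refine ⟨N.factorization 3, n, _, _, π, p, e, r, f, hNF, hle, rfl, ?_, ?_, ?_⟩
  · rw [← hNn]
    exact (Nat.ordProj_mul_ordCompl_eq_self N 3).symm
  · exact NFE.card_eq hN hcf 1 (by norm_num)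
  · exact NFE.card_eq hN hcf 2 (by norm_num)

end Pool.Agent.PTN

end
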