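import Mathlib
import Pool.Agent.PTWX.C30
import Pool.Agent.PTWX.C38

/-! Parts: PTN.NPSI -/

namespace Pool.Agent.PTN.NPSI
end Pool.Agent.PTN.NPSI

section

/-!
# NPSI: the minus part of the Selmer group is bounded by `VS`, `B = 3^h n q^E`, `q = 2 (mod 3)`
-/

set_option autoImplicit false

namespace Pool.Agent.PTN

open Pool.Agent.Lib_helper18 Pool.Agent.Lib_helper18.Eis Pool.Agent.Lib_helper84.Cub
open Pool.Agent.PT Pool.Agent.PTE Pool.Agent.PT3 Pool.Agent.PT.EHYP Pool.Agent.PT3.HYPT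

namespace NPSI

/-- the vector of a class of the minus part -/
noncomputable def yv {m : ℕ} (π : Fin m → PP) (e : Fin m → ℕ) (z : Eis) : Fin (m + 1) → ZMod 3 :=
  Fin.cons (-sl z 4) fun i => (e i : ZMod 3) * (V (π i).1 z : ZMod 3)

/-- the vector is in `VS` -/
theorem yv_mem (hSPP : SPP) (hSSL : SSL) (hSCJ : SCJ) (hLCL : LCL) {h n m k : ℕ}
    {π : Fin m → PP} {p e : Fin m → ℕ} {r f : Fin k → ℕ} {w0 : ZMod 3} {c : Fin m → ZMod 3}
    {E q : ℕ} (hn : NF n π p e r f) (hh : h ≤ 2) (hE : E = 1 ∨ E = 2) (hq : q.Prime)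
    (hq2 : q % 3 = 2) (hcl : InCT E π w0 c q) (hqn : ¬ q ∣ n) {z : Eis}
    (hS : SelM (BB h n E q) z) : yv π e z ∈ VS h n π p e r w0 c := by
  obtain ⟨hw, hqs⟩ := hcl
  obtain ⟨hz, ⟨t, hzt⟩, htm, hun, hlam⟩ := hS
  have hD := dat hSPP hn (h := h) hE hq hq2 hqn
  have hq3 : ¬ 3 ∣ q := by omega
  have hqI := inert hSPP hq hq2
  have hn0 := HYPS.n_ne0 hn
  obtain ⟨hlv, hlw⟩ := lvw hLCL hn (h := h) hq hq3 hw
  have hsl := sl_int hSSL hLCL hz
  have hslB : sl z ((BB h n E q : ℤ) : Eis) = 0 := by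
    unfold sl
    rw [finsum_eq_zero_of_forall_eq_zero fun π => htm π, neg_zero]
  have hB := hsl _ hD.ne
  rw [hslB, hlv, hlw] at hB
  set μ : ZMod 3 := -sl z 4 with hμdef
  have : Fact (Nat.Prime 3) := ⟨Nat.prime_three⟩
  -- the values of the symbol
  have hμ : ∀ x : ℤ, x ≠ 0 → (h = 0 → lv x = 0) →
      sl z (x : Eis) = μ * (lw x + lv x * (wt ((n : ℤ) ^ 2) + w0)) := by
    intro x hx hx0
    obtain rfl | rfl | rfl : h = 0 ∨ h = 1 ∨ h = 2 := by omega
    · rw [hsl x hx, hx0 rfl]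
      ring
    · obtain ⟨h1, h2⟩ := hlam (by rw [hlv]; rfl)
      rw [hsl x hx, hμdef, h1, h2]
      ring
    · rw [hsl x hx, hμdef]
      have h3 := three_zero (lv x * sl z 3)
      push_cast at hB
      linear_combination h3 + (-lv x) * (-1) * hB
  -- the product formula
  have key : ∀ x : ℤ, x ≠ 0 → (h = 0 → lv x = 0) →
      (∀ σ : PP, σ.1 ∣ (x : Eis) → σ.1 ∣ ((BB h n E q : ℤ) : Eis)) →
      μ * (lw x + lv x * (wt ((n : ℤ) ^ 2) + w0)) +
        ∑ i, (e i : ZMod 3) * (V (π i).1 z : ZMod 3) *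
          tm (π i).1 (x : Eis) ((BB h n E q : ℤ) : Eis) = 0 := by
    intro x hx hx0 hxn
    rw [← hμ x hx hx0]
    exact prodf hSPP hSCJ hD hz hzt htm hun x hx hxn
  have hi : ∀ i, Prime (π i).1 := fun i => (π i).2.1
  have h3 : ∀ i, ¬ (π i).1 ∣ 3 := fun i => (hSPP.2.2.2.1 (π i)).1
  have hqi : ∀ i, ¬ (π i).1 ∣ (q : Eis) := fun i h5 =>
    not_assoc_nat hn i q ((hi i).associated_of_dvd hqI.1 h5)
  have hcB : ∀ i, ch (π i).1 ((BB h n E q : ℤ) : Eis) =
      ch (π i).1 ((3 ^ h * n : ℕ) : Eis) + c i := fun i => by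
    have h1 : ((3 ^ h * n : ℕ) : Eis) = 3 ^ h * (n : Eis) := by push_cast; rfl
    have h2 := (add3_ch (hi i) (h3 i)).pow hqI.1.ne_zero E
    rw [BB_cast, h1, ch_mul (hi i) (h3 i) (mul_ne_zero (pow_ne_zero _ three_ne) hn0)
      (pow_ne_zero _ hqI.1.ne_zero), h2, ch_of_not_dvd (hi i) (hqi i), hqs i]
  have hpn : ∀ i, (p i : Eis) ∣ (n : Eis) := fun i => by
    have h1 : p i ∣ n := by
      rw [hn.eq]
      refine Dvd.dvd.mul_right ?_ _
      have h1 : p i ^ e i ∣ ∏ i, p i ^ e i := Finset.dvd_prod_of_mem _ (Finset.mem_univ i)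
      refine (dvd_pow_self _ ?_).trans h1
      have := hn.pe i
      omega
    obtain ⟨d, hd⟩ := h1
    exact ⟨(d : Eis), by rw [hd]; push_cast; rfl⟩
  have hrn : ∀ j, (r j : Eis) ∣ (n : Eis) := fun j => by
    have h1 : r j ∣ n := by
      rw [hn.eq]
      refine Dvd.dvd.mul_left ?_ _
      have h1 : r j ^ f j ∣ ∏ j, r j ^ f j := Finset.dvd_prod_of_mem _ (Finset.mem_univ j)
      refine (dvd_pow_self _ ?_).trans h1
      have := hn.rf j
      omega
    obtain ⟨d, hd⟩ := h1
    exact ⟨(d : Eis), by rw [hd]; push_cast; rfl⟩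
  constructor
  · intro hact
    change -sl z 4 = 0
    obtain rfl | rfl | rfl : h = 0 ∨ h = 1 ∨ h = 2 := by omega
    · have h1 : wt ((n : ℤ) ^ 2) + w0 ≠ 0 := fun h1 => hact (Or.inr ⟨rfl, h1⟩)
      push_cast at hB
      rw [zero_mul, zero_sub] at hB
      have h2 : (wt ((n : ℤ) ^ 2) + w0) * sl z 4 = 0 := neg_eq_zero.1 hB.symm
      rw [(mul_eq_zero.1 h2).resolve_left h1, neg_zero]
    · rw [(hlam (by rw [hlv]; rfl)).2, neg_zero]
    · exact absurd (Or.inl rfl) hact
  · intro b hb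
    rcases b with b | j
    · revert hb
      refine Fin.cases (fun hb => ?_) (fun i' hb => ?_) b
      · have h1 : Matrix.vecMul (yv π e z) (Nm h n π p e r w0 c) (Sum.inl 0) =
            μ * (wt ((n : ℤ) ^ 2) + w0) +
              ∑ i, (e i : ZMod 3) * (V (π i).1 z : ZMod 3) *
              ((e i : ZMod 3) * sym (π i).1 3) := by
          simp [Matrix.vecMul, dotProduct, Nm, yv, Fin.sum_univ_succ, hμdef]
        rw [h1]
        have h2 := key 3 (by norm_num) (fun h0 => absurd rfl (hb h0))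
          (fun σ hσ => absurd (by push_cast at hσ; exact hσ) (hSPP.2.2.2.1 σ).1)
        rw [hLCL.2.2.1.1, hLCL.2.2.1.2, one_mul, zero_add] at h2
        rw [← h2]
        congr 1
        refine Finset.sum_congr rfl fun i _ => ?_
        congr 1
        push_cast
        unfold tm
        rw [hD.vB i, V_eq_zero (h3 i), ch_of_not_dvd (hi i) (h3 i)]
        simp
      · have h1 : Matrix.vecMul (yv π e z) (Nm h n π p e r w0 c) (Sum.inl i'.succ) =
            μ * wt ((p i' : ℤ) ^ 2) +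
              ∑ i, (e i : ZMod 3) * (V (π i).1 z : ZMod 3) *
              (if i' = i then (e i : ZMod 3) * sym (π i).1 (conj (π i).1) -
                ch (π i).1 ((3 ^ h * n : ℕ) : Eis) - c i
              else (e i : ZMod 3) * sym (π i).1 (p i' : Eis)) := by
          simp [Matrix.vecMul, dotProduct, Nm, yv, Fin.sum_univ_succ, hμdef]
        rw [h1]
        have h4 := hLCL.2.2.2.1 (p i' : ℤ) fun h5 => by
          have h6 : 3 ∣ p i' := by exact_mod_cast h5
          have := hn.p1 i'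
          omega
        have h2 := key (p i') (by exact_mod_cast (hn.pp i').ne_zero) (fun _ => h4.1)
          (fun σ hσ => by
            rw [Int.cast_natCast] at hσ
            exact (dvd_iff hSPP hE σ).2 (Or.inl (hσ.trans (hpn i'))))
        rw [h4.1, h4.2, zero_mul, add_zero] at h2
        rw [← h2]
        congr 1
        refine Finset.sum_congr rfl fun i _ => ?_
        congr 1
        rw [Int.cast_natCast]
        unfold tm
        rw [hD.vB i, hcB i]
        split_ifs with hii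
        · subst hii
          have hcj : ¬ (π i').1 ∣ conj (π i').1 := fun h5 =>
            not_assoc hn i' i' ((hi i').associated_of_dvd (prime_conj (π i').2.1) h5)
          rw [hn.pπ i', V_mul (hi i') (hi i').ne_zero (prime_conj (π i').2.1).ne_zero, V_self,
            V_eq_zero hcj, ch_mul (hi i') (h3 i') (hi i').ne_zero
              (prime_conj (π i').2.1).ne_zero, ch_self (hi i') (h3 i'),
            ch_of_not_dvd (hi i') hcj]
          push_cast
          ring
        · have hnd : ¬ (π i).1 ∣ (p i' : Eis) := by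
            rw [hn.pπ i']
            intro h5
            rcases (hi i).dvd_or_dvd h5 with h5 | h5
            · exact hii (assoc_iff hn i i' ((hi i).associated_of_dvd (π i').2.1 h5)).symm
            · exact not_assoc hn i i' ((hi i).associated_of_dvd (prime_conj (π i').2.1) h5)
          rw [V_eq_zero hnd, ch_of_not_dvd (hi i) hnd]
          push_cast
          ring
    · have h1 : Matrix.vecMul (yv π e z) (Nm h n π p e r w0 c) (Sum.inr j) =
          μ * wt ((r j : ℤ) ^ 2) +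
            ∑ i, (e i : ZMod 3) * (V (π i).1 z : ZMod 3) *
            ((e i : ZMod 3) * sym (π i).1 (r j : Eis)) := by
        simp [Matrix.vecMul, dotProduct, Nm, yv, Fin.sum_univ_succ, hμdef]
      rw [h1]
      have h4 := hLCL.2.2.2.1 (r j : ℤ) fun h5 => by
        have h6 : 3 ∣ r j := by exact_mod_cast h5
        have := hn.r2 j
        omega
      have h2 := key (r j) (by exact_mod_cast (hn.rp j).ne_zero) (fun _ => h4.1)
        (fun σ hσ => by
          rw [Int.cast_natCast] at hσ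
          exact (dvd_iff hSPP hE σ).2 (Or.inl (hσ.trans (hrn j))))
      rw [h4.1, h4.2, zero_mul, add_zero] at h2
      rw [← h2]
      congr 1
      refine Finset.sum_congr rfl fun i _ => ?_
      congr 1
      rw [Int.cast_natCast]
      unfold tm
      have hjI := inert hSPP (hn.rp j) (hn.r2 j)
      have hnd : ¬ (π i).1 ∣ (r j : Eis) := fun h5 =>
        not_assoc_nat hn i (r j) ((hi i).associated_of_dvd hjI.1 h5)
      rw [hD.vB i, V_eq_zero hnd, ch_of_not_dvd (hi i) hnd]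
      push_cast
      ring

/-- two classes with the same vector differ by a cube -/
theorem yv_inj (hSPP : SPP) (hSSL : SSL) (hLCL : LCL) {h n m k : ℕ}
    {π : Fin m → PP} {p e : Fin m → ℕ} {r f : Fin k → ℕ}
    {E q : ℕ} (hn : NF n π p e r f) (hE : E = 1 ∨ E = 2) (hq : q.Prime)
    (hq2 : q % 3 = 2) (hqn : ¬ q ∣ n) {z z' : Eis}
    (hS : SelM (BB h n E q) z) (hS' : SelM (BB h n E q) z') (hy : yv π e z = yv π e z') :
    ∃ g g' : Eis, g ≠ 0 ∧ g' ≠ 0 ∧ z * g ^ 3 = z' * g' ^ 3 := by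
  obtain ⟨hz, ⟨t, hzt⟩, htm, hun, -⟩ := hS
  obtain ⟨hz', ⟨t', hzt'⟩, htm', hun', -⟩ := hS'
  have hD := dat hSPP hn (h := h) hE hq hq2 hqn
  have : Fact (Nat.Prime 3) := ⟨Nat.prime_three⟩
  have hz2 : z' ^ 2 ≠ 0 := pow_ne_zero _ hz'
  have hzz : z * z' ^ 2 ≠ 0 := mul_ne_zero hz hz2
  have hconj : (z * z' ^ 2) * conj (z * z' ^ 2) = (t * t' ^ 2) ^ 3 := by
    have h1 : conj (z * z' ^ 2) = conj z * (conj z') ^ 2 := by
      rw [map_mul, map_pow]
    rw [h1]
    calc z * z' ^ 2 * (conj z * conj z' ^ 2) = (z * conj z) * (z' * conj z') ^ 2 := by ring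
      _ = (t * t' ^ 2) ^ 3 := by rw [hzt, hzt']; ring
  have hV : ∀ l : Eis, Prime l → V l (z * z' ^ 2) = V l z + 2 * V l z' := by
    intro l hl
    rw [V_mul hl hz hz2, V_pow hl hz']
  obtain ⟨a, hF, hcube⟩ := decomp hSPP hn hq hq2 hzz hconj (fun σ hσ => by
    have hnd : ¬ σ.1 ∣ ((BB h n E q : ℤ) : Eis) := fun h1 => hσ (by
      push_cast
      rcases (dvd_iff hSPP hE σ).1 h1 with h2 | h2
      · exact Dvd.dvd.mul_right h2 _
      · exact Dvd.dvd.mul_left h2 _)
    rw [hV σ.1 σ.2.1]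
    exact dvd_add (hun σ hnd) (Dvd.dvd.mul_left (hun' σ hnd) _))
  have hVi : ∀ i, (V (π i).1 z : ZMod 3) = (V (π i).1 z' : ZMod 3) := by
    intro i
    have h1 := congrFun hy i.succ
    simp only [yv, Fin.cons_succ] at h1
    have h4 := e_sq hD i
    have he : (e i : ZMod 3) ≠ 0 := by
      intro h2
      rw [h2, mul_zero] at h4
      exact zero_ne_one h4
    exact mul_left_cancel₀ he h1
  have hV0 : ∀ i, (V (π i).1 (z * z' ^ 2) : ZMod 3) = 0 := by
    intro i
    rw [hV _ (π i).2.1]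
    push_cast
    rw [hVi i]
    have h2 := three_zero (V (π i).1 z' : ZMod 3)
    linear_combination h2
  have h4ne : (4 : Eis) ≠ 0 := by
    have := int_ne (x := 4) (by norm_num)
    push_cast at this
    exact this
  have hadd := add3_sl hSSL h4ne
  have hs4 : sl (z * z' ^ 2) 4 = 0 := by
    have h1 := congrFun hy 0
    simp only [yv, Fin.cons_zero] at h1
    have h2 := hadd z (z' ^ 2) hz hz2
    have h3 := hadd.pow hz' 2
    simp only at h2 h3
    rw [h2, h3]
    have h5 : sl z 4 = sl z' 4 := neg_injective h1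
    rw [h5]
    have h6 := three_zero (sl z' 4)
    push_cast
    linear_combination h6
  have ha := hF _ hadd
  simp only [hV0, zero_mul, Finset.sum_const_zero, add_zero] at ha
  rw [hs4] at ha
  have hw4 : sl w 4 = 1 := by
    have h1 := hLCL.2.2.2.2.1 4 (by norm_num)
    rw [(lw_four hLCL).2, neg_neg] at h1
    push_cast at h1
    exact h1
  rw [hw4, mul_one] at ha
  obtain ⟨γ, hγ⟩ := hcube ha.symm hV0
  have hγ0 : γ ≠ 0 := by
    rintro rfl
    rw [zero_pow (by norm_num)] at hγ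
    exact hzz hγ
  refine ⟨z', γ, hz', hγ0, ?_⟩
  rw [← hγ]
  ring

end NPSI

open _root_.Pool.Agent.PTN.NPSI in
/-- NPSI -/
theorem NPSI_thm (_hSTM : STM) (hSPP : SPP) (hSSL : SSL) (_hSLC : SLC) (_hSREC : SREC)
    (hSCJ : SCJ) (_hLCI : LCI) (hLCL : LCL) : Stmt_NPSI := by
  intro h n m k π p e r f w0 c E q hn hh hE hq hq2 hcl hqn
  classical
  have : Fact (Nat.Prime 3) := ⟨Nat.prime_three⟩
  refine ⟨VS h n π p e r w0 c, inferInstance, fun z =>
    if hz : SelM (BB h n E q) z then ⟨yv π e z, yv_mem hSPP hSSL hSCJ hLCL hn hh hE hq hq2 hcl hqn hz⟩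
    else 0, ?_, ?_⟩
  · have h1 := Module.natCard_eq_pow_finrank (K := ZMod 3) (V := VS h n π p e r w0 c)
    rw [h1, Nat.card_zmod]
    exact le_rfl
  · intro z z' hz hz' hyy
    simp only [dif_pos hz, dif_pos hz'] at hyy
    exact yv_inj hSPP hSSL hLCL hn hE hq hq2 hqn hz hz' (congrArg Subtype.val hyy)

end Pool.Agent.PTN

end
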