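import Mathlib
import Pool.Agent.PTWX.C35
import Pool.Agent.PTWX.C39
import Pool.Agent.PTWX.C40
import Pool.Agent.PTWX.C43
import Pool.Agent.PTWX.C44
import Pool.Agent.PTWX.C45
import Pool.Agent.PTWX.C46
import Pool.Agent.PTWX.C47
import Pool.Agent.PTWX.C48
import Pool.Agent.PTWX.C49
import Pool.Agent.PTWX.C50
import Pool.Agent.PTWX.C51
import Pool.Agent.PTWX.C52
import Pool.Agent.PTWX.C53
import Pool.Agent.PTWX.C54
import Pool.Agent.PTWX.C57

/-! Parts: PT.TCA, PT.STAR, PT.DIR, PT.GCHI, PT.STM, PT.SUN, PT.Final, PTKX.CTK, PTKX.MSKU, PTKX.MS1 -/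

namespace Pool.Agent.PT.GCHI
end Pool.Agent.PT.GCHI

namespace Pool.Agent.PTK.CTK
end Pool.Agent.PTK.CTK

namespace Pool.Agent.PTK.MSKU
end Pool.Agent.PTK.MSKU

section

/-!
# TCA: the pairing vanishes on the class of a point; antisymmetry
-/

namespace Pool.Agent.PT

open Pool.Agent.Lib_helper18 Pool.Agent.Lib_helper18.Eis Pool.Agent.Lib_helper84.Cub

namespace TCA

theorem sol_swap {b x p q p' q' : ℤ} (h : Sol b x p q p' q') : Sol x b p (-p') (-q) q' where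
  eq := by linear_combination h.eq
  n1 := by
    intro h0
    apply h.n2
    linear_combination h0
  n2 := by
    intro h0
    apply h.n1
    linear_combination h0

end TCA

theorem TC_thm (hLEV : LEV) (hLFIN : LFIN) : TC := by
  intro B b x p q p' q' X Y hB hb hx hS hP h9
  obtain ⟨hX, hY, c, hc, e⟩ := hP
  have hn : X ^ 3 + x * Y ^ 3 ≠ 0 := by
    intro h0
    rw [h0, mul_zero] at e
    exact mul_ne_zero hB.ne (pow_ne_zero 3 hc) e.symm
  obtain ⟨f1, e1⟩ := hLFIN.2.1 B b x p q p' q' hB.ne hb.ne hx.ne hS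
  obtain ⟨f2, e2⟩ := hLFIN.2.2 b x p q p' q' X Y hb.ne hx.ne hS hX hY hn
  unfold OO
  rw [finsum_congr fun v => hLEV v B b x p q p' q' X Y hB hb hx hS ⟨hX, hY, c, hc, e⟩ h9,
    finsum_sub_distrib f1 f2, e1, e2, sub_zero]

theorem TA_thm (hLAM : LAM) (hLFIN : LFIN) : TA := by
  intro B b x p q p' q' hB hb hx hS h9
  obtain ⟨-, e1⟩ := hLFIN.2.1 B b x p q p' q' hB.ne hb.ne hx.ne hS
  have f1 := hLFIN.1 B b x p q p' q' hB hb hx hS.toSolW
  have f2 := hLFIN.1 B x b p (-p') (-q) q' hB hx hb (TCA.sol_swap hS).toSolW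
  unfold OO
  rw [← finsum_add_distrib f1 f2, finsum_congr fun v => hLAM v B b x p q p' q' hB hb hx hS h9, e1]

end Pool.Agent.PT

end

section

/-!
# STAR: the identity of symbols of linear forms
-/

namespace Pool.Agent.PT

open Pool.Agent.Lib_helper18 Pool.Agent.Lib_helper18.Eis Pool.Agent.Lib_helper84.Cub

namespace STAR

theorem w_ne : (w : Eis) ≠ 0 := by
  intro h
  have := congrArg Eis.im h
  simp [w] at this

theorem three0 : (3 : ZMod 3) = 0 := rfl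

theorem double {x : ZMod 3} (h : x + x = 0) : x = 0 := by
  revert x; decide

variable {π : Eis} {s : Eis → Eis → ZMod 3} {e : ℕ}

theorem self (h : LSym π s e) {a : Eis} (ha : a ≠ 0) : s a a = 0 := by
  have := h.skew a a ha ha
  apply double
  linear_combination this

theorem one (h : LSym π s e) {c : Eis} (hc : c ≠ 0) : s 1 c = 0 := by
  have := h.mul 1 1 c one_ne_zero one_ne_zero hc
  rw [mul_one] at this
  linear_combination -this

theorem mulR (h : LSym π s e) {a b c : Eis} (ha : a ≠ 0) (hb : b ≠ 0) (hc : c ≠ 0) :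
    s a (b * c) = s a b + s a c := by
  have h1 := h.skew (b * c) a (mul_ne_zero hb hc) ha
  have h2 := h.mul b c a hb hc ha
  have h3 := h.skew b a hb ha
  have h4 := h.skew c a hc ha
  linear_combination h1 - h2 - h3 - h4

theorem negL (h : LSym π s e) {a b : Eis} (ha : a ≠ 0) (hb : b ≠ 0) : s (-a) b = s a b := by
  have h1 : s (-1) b = 0 := by
    apply double
    have := h.mul (-1) (-1) b (neg_ne_zero.2 one_ne_zero) (neg_ne_zero.2 one_ne_zero) hb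
    rw [neg_mul_neg, mul_one, one h hb] at this
    exact this.symm
  have := h.mul (-1) a b (neg_ne_zero.2 one_ne_zero) ha hb
  rw [neg_one_mul] at this
  rw [this, h1, zero_add]

theorem negR (h : LSym π s e) {a b : Eis} (ha : a ≠ 0) (hb : b ≠ 0) : s a (-b) = s a b := by
  rw [h.skew (-b) a (neg_ne_zero.2 hb) ha, negL h hb ha, ← h.skew b a hb ha]

/-- Steinberg for differences -/
theorem stein' (h : LSym π s e) {a b d : Eis} (ha : a ≠ 0) (hb : b ≠ 0) (hd : d ≠ 0)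
    (hd' : a - b = d) : s a b = s d b - s d a := by
  have h1 := h.stein (-a) d b (neg_ne_zero.2 ha) hd hb (by rw [← hd']; ring)
  rw [negL h ha hd, negR h hb ha, h.skew d a hd ha, h.skew a b ha hb] at h1
  linear_combination -h1

theorem cyc (h : LSym π s e) {a b c : Eis} (ha : a ≠ 0) (hb : b ≠ 0) (hc : c ≠ 0)
    (h0 : a + w * b + w * w * c = 0) :
    s a b + s b c + s c a + s w a + s w b + s w c = 0 := by
  have hw := w_ne
  have h1 := h.stein a (w * b) (w * w * c) ha (mul_ne_zero hw hb)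
    (mul_ne_zero (mul_ne_zero hw hw) hc) h0
  have k1 := mulR h ha hw hb
  have k2 := h.mul w b (w * w * c) hw hb (mul_ne_zero (mul_ne_zero hw hw) hc)
  have k3 := mulR h hw (mul_ne_zero hw hw) hc
  have k4 := mulR h hb (mul_ne_zero hw hw) hc
  have k5 := mulR h hw hw hw
  have k6 := mulR h hb hw hw
  have k7 := h.mul (w * w) c a (mul_ne_zero hw hw) hc ha
  have k8 := h.mul w w a hw hw ha
  have k9 := self h hw
  have k10 := h.skew w a hw ha
  have k11 := h.skew w b hw hb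
  have k12 : (3 : ZMod 3) = 0 := rfl
  linear_combination h1 - k1 - k2 - k3 - k4 - k5 - k6 - k7 - k8 - 2 * k9 - k10 - 2 * k11 + s w b * k12

theorem key (h : LSym π s e) {f0 f1 f2 g0 g1 g2 d1 d2 k : Eis} (hf0 : f0 ≠ 0) (hf1 : f1 ≠ 0)
    (hf2 : f2 ≠ 0) (hg0 : g0 ≠ 0) (hg1 : g1 ≠ 0) (hg2 : g2 ≠ 0) (hd1 : d1 ≠ 0) (hd2 : d2 ≠ 0)
    (hk : k ≠ 0) (e1 : f0 * g0 - f1 * g2 = k * (w * w) * d1) (e2 : f1 * g1 - f2 * g0 = k * d1)
    (e3 : f0 * g2 - f1 * g1 = k * w * d2) (e4 : f1 * g0 - f2 * g2 = k * (w * w) * d2)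
    (cf : s f0 f1 + s f1 f2 + s f2 f0 + s w f0 + s w f1 + s w f2 = 0)
    (cg : s g0 g1 + s g1 g2 + s g2 g0 + s w g0 + s w g1 + s w g2 = 0) :
    s d1 (g0 * g1 * g2) - s d2 (g0 * g1 * g2) - s d1 (f0 * f1 * f2) + s d2 (f0 * f1 * f2) =
      s w (f0 * f1 * f2) + s (f0 * f1 * f2) g2 - s (f0 * f1 * f2) g1 +
        s f1 (g0 * g1 * g2) - s f2 (g0 * g1 * g2) := by
  have hw := w_ne
  have hww : w * w ≠ 0 := mul_ne_zero hw hw
  have E1 := stein' h (mul_ne_zero hf0 hg0) (mul_ne_zero hf1 hg2)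
    (mul_ne_zero (mul_ne_zero hk hww) hd1) e1
  have E2 := stein' h (mul_ne_zero hf1 hg1) (mul_ne_zero hf2 hg0) (mul_ne_zero hk hd1) e2
  have E3 := stein' h (mul_ne_zero hf0 hg2) (mul_ne_zero hf1 hg1)
    (mul_ne_zero (mul_ne_zero hk hw) hd2) e3
  have E4 := stein' h (mul_ne_zero hf1 hg0) (mul_ne_zero hf2 hg2)
    (mul_ne_zero (mul_ne_zero hk hww) hd2) e4
  have L : ∀ a b c : Eis, a ≠ 0 → b ≠ 0 → c ≠ 0 → s (a * b) c = s a c + s b c := h.mul
  have R : ∀ a b c : Eis, a ≠ 0 → b ≠ 0 → c ≠ 0 → s a (b * c) = s a b + s a c :=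
    fun a b c ha hb hc => mulR h ha hb hc
  simp only [L, R, ne_eq, mul_eq_zero, hf0, hf1, hf2, hg0, hg1, hg2, hd1, hd2, hk, hw,
    or_self, not_false_eq_true] at E1 E2 E3 E4 ⊢
  have a1 := h.skew f0 f1 hf0 hf1
  have a2 := h.skew f1 f2 hf1 hf2
  have a3 := h.skew f2 f0 hf2 hf0
  have b1 := h.skew g0 g1 hg0 hg1
  have b2 := h.skew g1 g2 hg1 hg2
  have b3 := h.skew g2 g0 hg2 hg0
  have c00 := h.skew f0 g0 hf0 hg0
  have c01 := h.skew f0 g1 hf0 hg1
  have c02 := h.skew f0 g2 hf0 hg2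
  have c10 := h.skew f1 g0 hf1 hg0
  have c11 := h.skew f1 g1 hf1 hg1
  have c12 := h.skew f1 g2 hf1 hg2
  have c20 := h.skew f2 g0 hf2 hg0
  have c21 := h.skew f2 g1 hf2 hg1
  have c22 := h.skew f2 g2 hf2 hg2
  have s0 := self h hf0
  have s1 := self h hf1
  have s2 := self h hf2
  have t0 := self h hg0
  have t1 := self h hg1
  have t2 := self h hg2
  simp only [s0, s1, s2, t0, t1, t2, c00, c01, c02, c10, c11, c12, c20, c21, c22, a1, a2, a3, b1,
    b2, b3] at E1 E2 E3 E4 cf cg ⊢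
  clear a1 a2 a3 b1 b2 b3 c00 c01 c02 c10 c11 c12 c20 c21 c22
  grind

theorem tail (h : LSym π s e) {f0 f1 f2 : Eis} (hf0 : f0 ≠ 0) (hf1 : f1 ≠ 0) (hf2 : f2 ≠ 0)
    (cf : s f0 f1 + s f1 f2 + s f2 f0 + s w f0 + s w f1 + s w f2 = 0) :
    s f1 (f0 * f1 * f2) - s f2 (f0 * f1 * f2) = s w (f0 * f1 * f2) := by
  have hw := w_ne
  have h01 := mul_ne_zero hf0 hf1
  have k1 := mulR h hf1 h01 hf2
  have k2 := mulR h hf1 hf0 hf1
  have k3 := mulR h hf2 h01 hf2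
  have k4 := mulR h hf2 hf0 hf1
  have k5 := mulR h hw h01 hf2
  have k6 := mulR h hw hf0 hf1
  have a1 := h.skew f0 f1 hf0 hf1
  have a2 := h.skew f1 f2 hf1 hf2
  have s1 := self h hf1
  have s2 := self h hf2
  have h3 : (3 : ZMod 3) = 0 := rfl
  linear_combination k1 + k2 - k3 - k4 - k5 - k6 + a1 - a2 + s1 - s2 - cf + s f1 f2 * h3

end STAR

theorem STAR_thm : STAR := by
  intro π s e h X Y u v ξ F G D hF hG hD hξ hF0
  have hww : (w : Eis) * w = -1 - w := by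
    ext <;> simp [w]
  have e0 := hF 0
  have e1 := hF 1
  have e2 := hF 2
  have cf := STAR.cyc h (hF0 0) (hF0 1) (hF0 2) (by rw [e0, e1, e2]; clear * - hww; grind)
  refine ⟨STAR.tail h (hF0 0) (hF0 1) (hF0 2) cf, fun hG0 hD1 hD2 => ?_⟩
  have cg := STAR.cyc h (hG0 0) (hG0 1) (hG0 2) (by rw [hG 0, hG 1, hG 2]; clear * - hww; grind)
  have hk : ξ * (w - 1) ≠ 0 := by
    refine mul_ne_zero hξ fun h0 => ?_
    have := congrArg Eis.im h0
    simp [w] at this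
  refine STAR.key h (hF0 0) (hF0 1) (hF0 2) (hG0 0) (hG0 1) (hG0 2) hD1 hD2 hk ?_ ?_ ?_ ?_ cf cg
  · rw [e0, e1, hG 0, hG 2, hD 1]; clear * - hww; grind
  · rw [e1, e2, hG 0, hG 1, hD 1]; clear * - hww; grind
  · rw [e0, e1, hG 1, hG 2, hD 2]; clear * - hww; grind
  · rw [e1, e2, hG 0, hG 2, hD 2]; clear * - hww; grind

end Pool.Agent.PT

end

section

/-!
# DIR: upper bound for the number of primes in an arithmetic progression
-/

namespace Pool.Agent.PT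

open Pool.Agent.Lib_helper18 Pool.Agent.Lib_helper18.Eis Pool.Agent.Lib_helper84.Cub

namespace DIR

open Complex ArithmeticFunction ArithmeticFunction.vonMangoldt

variable {q : ℕ} [NeZero q] {a : ZMod q}

theorem upper (ha : IsUnit a) :
    ∃ C : ℝ, ∀ x : ℝ, x ∈ Set.Ioc (1:ℝ) 2 →
      ∑' n, residueClass a n / (n : ℝ) ^ x ≤ (q.totient : ℝ)⁻¹ / (x - 1) + C := by
  have H {x : ℝ} (hx : 1 < x) :
      ∑' n, residueClass a n / (n : ℝ) ^ x =
        (LFunctionResidueClassAux a x).re + (q.totient : ℝ)⁻¹ / (x - 1) := by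
    refine ofReal_injective ?_
    simp only [ofReal_tsum, ofReal_div, ofReal_cpow (Nat.cast_nonneg _), ofReal_natCast,
      ofReal_add, ofReal_inv, ofReal_sub, ofReal_one]
    simp_rw [← LFunctionResidueClassAux_real ha hx,
      eqOn_LFunctionResidueClassAux ha <| Set.mem_ofPred.mpr (ofReal_re x ▸ hx), sub_add_cancel,
      LSeries, LSeries.term]
    refine tsum_congr fun n ↦ ?_
    split_ifs with hn
    · simp only [hn, residueClass_apply_zero, ofReal_zero, zero_div]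
    · rfl
  have hc : ContinuousOn (fun x : ℝ ↦ (LFunctionResidueClassAux a x).re) (Set.Icc 1 2) :=
    continuous_re.continuousOn.comp (t := Set.univ) (continuousOn_LFunctionResidueClassAux a)
      (fun ⦃x⦄ a ↦ trivial) |>.comp continuous_ofReal.continuousOn fun x hx ↦ by
        simpa only [Set.mem_ofPred_eq, ofReal_re] using hx.1
  obtain ⟨C, hC⟩ := bddAbove_def.mp <| IsCompact.bddAbove_image isCompact_Icc hc
  replace hC {x : ℝ} (hx : x ∈ Set.Icc 1 2) : (LFunctionResidueClassAux a x).re ≤ C :=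
    hC (LFunctionResidueClassAux a x).re <|
      Set.mem_image_of_mem (fun x : ℝ ↦ (LFunctionResidueClassAux a x).re) hx
  refine ⟨C, fun x hx ↦ ?_⟩
  rw [H hx.1, add_comm]
  exact add_le_add_right (hC (Set.mem_Icc_of_Ioc hx)) _

theorem summ {x : ℝ} (hx : 1 < x) : Summable fun n : ℕ => residueClass a n / (n : ℝ) ^ x :=
  LSeries.summable_real_of_abscissaOfAbsConv_lt <|
    (abscissaOfAbsConv_residueClass_le_one a).trans_lt <| mod_cast hx

theorem part (T : Finset {p : ℕ // p.Prime ∧ (p : ZMod q) = a}) {x : ℝ} (hx : 1 < x) :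
    ∑ p ∈ T, Real.log (p : ℕ) * ((p : ℕ) : ℝ) ^ (-x) ≤ ∑' n, residueClass a n / (n : ℝ) ^ x := by
  classical
  have h1 : ∑ p ∈ T, Real.log (p : ℕ) * ((p : ℕ) : ℝ) ^ (-x) =
      ∑ n ∈ T.map (Function.Embedding.subtype _), residueClass a n / (n : ℝ) ^ x := by
    rw [Finset.sum_map]
    refine Finset.sum_congr rfl fun p _ => ?_
    change Real.log (p : ℕ) * ((p : ℕ) : ℝ) ^ (-x) = residueClass a (p : ℕ) / ((p : ℕ) : ℝ) ^ x
    have h2 : residueClass a (p : ℕ) = Real.log (p : ℕ) := by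
      have h3 : residueClass a (p : ℕ) = vonMangoldt (p : ℕ) := by
        rw [residueClass, Set.indicator_of_mem]
        exact p.2.2
      rw [h3, vonMangoldt_apply_prime p.2.1]
    rw [h2, Real.rpow_neg (Nat.cast_nonneg _), div_eq_mul_inv]
  rw [h1]
  refine (summ hx).sum_le_tsum _ fun n _ => ?_
  exact div_nonneg (residueClass_nonneg a n) (Real.rpow_nonneg (Nat.cast_nonneg _) _)

end DIR

/-- DIR. -/
theorem DIR_thm : DIR := by
  classical
  intro f a hf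
  haveI : NeZero f := ⟨hf.ne'⟩
  obtain ⟨C, hC⟩ := DIR.upper (a := (a : ZMod f)) a.isUnit
  obtain ⟨D, hD⟩ : ∃ D : ℝ, D = |C| := ⟨_, rfl⟩
  have hD0 : 0 ≤ D := by rw [hD]; exact abs_nonneg _
  have hCD : C ≤ D := by rw [hD]; exact le_abs_self _
  obtain ⟨c, hc⟩ : ∃ c : ℝ, c = 1 / (f.totient : ℝ) := ⟨_, rfl⟩
  have hc0 : 0 ≤ c := by rw [hc]; positivity
  have hs2 : Summable fun n : ℕ => (n : ℝ) ^ (-(2:ℝ)) := by
    rw [Real.summable_nat_rpow]
    norm_num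
  obtain ⟨Z, hZ⟩ : ∃ Z : ℝ, Z = ∑' n : ℕ, (n : ℝ) ^ (-(2:ℝ)) := ⟨_, rfl⟩
  have hZ0 : 0 ≤ Z := by
    rw [hZ]
    exact tsum_nonneg fun n => Real.rpow_nonneg (Nat.cast_nonneg _) _
  refine ⟨D + Z, ?_⟩
  intro s hs1 hs2'
  have hlog : 0 ≤ Real.log (1 / (s - 1)) := by
    apply Real.log_nonneg
    rw [le_div_iff₀ (by linarith)]
    linarith
  rw [← hc]
  apply tsum_le_of_sum_le' (by positivity)
  intro T
  obtain ⟨H, hH⟩ : ∃ H : ℝ → ℝ, H = fun x => ∑ p ∈ T, ((p : ℕ) : ℝ) ^ (-x) +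
    c * Real.log (x - 1) + D * x := ⟨_, rfl⟩
  have hder : ∀ x : ℝ, 1 < x → HasDerivAt H (∑ p ∈ T, Real.log (p : ℕ) * (-1) *
      ((p : ℕ) : ℝ) ^ (-x) + c * (1 / (x - 1)) + D * 1) x := by
    intro x hx
    rw [hH]
    refine ((HasDerivAt.fun_sum fun p _ => ?_).add ?_).add ((hasDerivAt_id x).const_mul D)
    · have hp : (0:ℝ) < ((p : ℕ) : ℝ) := by exact_mod_cast p.2.1.pos
      exact (hasDerivAt_neg x).const_rpow hp
    · exact (((hasDerivAt_id x).sub_const 1).log (by simp only [id]; linarith)).const_mul c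
  have hmono : MonotoneOn H (Set.Ioc 1 2) := by
    apply monotoneOn_of_deriv_nonneg (convex_Ioc 1 2)
    · intro x hx
      exact (hder x hx.1).continuousAt.continuousWithinAt
    · intro x hx
      rw [interior_Ioc] at hx
      exact (hder x hx.1).differentiableAt.differentiableWithinAt
    · intro x hx
      rw [interior_Ioc] at hx
      rw [(hder x hx.1).deriv]
      have h1 := DIR.part (a := (a : ZMod f)) T hx.1
      have h2 := hC x ⟨hx.1, hx.2.le⟩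
      have h3 : ∑ p ∈ T, Real.log (p : ℕ) * (-1) * ((p : ℕ) : ℝ) ^ (-x) =
          - ∑ p ∈ T, Real.log (p : ℕ) * ((p : ℕ) : ℝ) ^ (-x) := by
        rw [← Finset.sum_neg_distrib]
        exact Finset.sum_congr rfl fun p _ => by ring
      rw [h3]
      have h4 : c * (1 / (x - 1)) = (f.totient : ℝ)⁻¹ / (x - 1) := by
        rw [hc]
        ring
      rw [h4]
      linarith
  have h5 := hmono ⟨hs1, hs2'⟩ ⟨by norm_num, le_refl (2:ℝ)⟩ hs2'
  rw [hH] at h5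
  have h6 : ∑ p ∈ T, ((p : ℕ) : ℝ) ^ (-(2:ℝ)) ≤ Z := by
    have h7 : ∑ p ∈ T, ((p : ℕ) : ℝ) ^ (-(2:ℝ)) =
        ∑ n ∈ T.map (Function.Embedding.subtype _), (n : ℝ) ^ (-(2:ℝ)) := by
      rw [Finset.sum_map]
      rfl
    rw [h7, hZ]
    exact hs2.sum_le_tsum _ fun n _ => Real.rpow_nonneg (Nat.cast_nonneg _) _
  have h8 : Real.log (1 / (s - 1)) = - Real.log (s - 1) := by
    rw [one_div, Real.log_inv]
  have h9 : Real.log ((2:ℝ) - 1) = 0 := by norm_num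
  simp only at h5
  rw [h9] at h5
  rw [h8]
  nlinarith

end Pool.Agent.PT

end

section

/-!
# GCHI: the cyclotomic character
-/

open NumberField
open scoped nonZeroDivisors Pointwise

namespace Pool.Agent.PT

open Pool.Agent.Lib_helper18 Pool.Agent.Lib_helper18.Eis Pool.Agent.Lib_helper84.Cub

namespace GCHI

theorem under_eq {L : Type} [Field L] [NumberField L] {q : ℕ} (hq : q.Prime) {Q : Ideal (𝓞 L)}
    (hQ : Q.IsPrime) (h : (q : 𝓞 L) ∈ Q) : Q.under ℤ = Ideal.span {(q : ℤ)} := by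
  have hmax : (Ideal.span {(q : ℤ)}).IsMaximal :=
    (Ideal.span_singleton_prime (by exact_mod_cast hq.ne_zero)).mpr
      (Nat.prime_iff_prime_int.mp hq) |>.isMaximal (by
        rw [Ne, Ideal.span_singleton_eq_bot]
        exact_mod_cast hq.ne_zero)
  refine (hmax.eq_of_le (Ideal.IsPrime.under ℤ Q).ne_top ?_).symm
  rw [Ideal.span_singleton_le_iff_mem, Ideal.mem_comap]
  simpa using h

theorem card_eq {L : Type} [Field L] [NumberField L] {q : ℕ} (hq : q.Prime) {Q : Ideal (𝓞 L)}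
    (hQ : Q.IsPrime) (h : (q : 𝓞 L) ∈ Q) : Nat.card (ℤ ⧸ Q.under ℤ) = q := by
  rw [under_eq hq hQ h, Nat.card_congr (Int.quotientSpanNatEquivZMod q).toEquiv, Nat.card_zmod]

end GCHI

open _root_.Pool.Agent.PT.GCHI in
theorem GCHI_thm : GCHI := by
  intro L _ _ _ f ζ hf hζ
  have hf0 : NeZero f := ⟨hf.ne'⟩
  have key : ∀ (g : L ≃ₐ[ℚ] L) (u : (ZMod f)ˣ) (k : ℕ), g ζ = ζ ^ k →
      (k : ZMod f) = (u : ZMod f) → hζ.autToPow ℚ g = u := by
    intro g u k hg hk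
    apply Units.ext
    have h2 := hζ.autToPow_spec ℚ g
    have h4 : ζ ^ k = ζ ^ (k % f) := by
      conv_lhs => rw [← Nat.mod_add_div k f, pow_add, pow_mul, hζ.pow_eq_one, one_pow, mul_one]
    rw [hg, h4] at h2
    have h3 := hζ.pow_inj (ZMod.val_lt _) (Nat.mod_lt _ hf) h2
    rw [← hk]
    apply ZMod.val_injective f
    rw [ZMod.val_natCast]
    exact h3
  refine ⟨hζ.autToPow ℚ, ?_, fun g => (hζ.autToPow_spec ℚ g).symm, ?_⟩
  · intro u
    have hcop : ((u : ZMod f).val).Coprime f := ZMod.val_coe_unit_coprime u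
    have hprim : IsPrimitiveRoot (ζ ^ (u : ZMod f).val) f := hζ.pow_of_coprime _ hcop
    have h1 : Polynomial.aeval (ζ ^ (u : ZMod f).val) (minpoly ℚ ζ) = 0 := by
      rw [← Polynomial.cyclotomic_eq_minpoly_rat hζ hf,
        Polynomial.cyclotomic_eq_minpoly_rat hprim hf]
      exact minpoly.aeval _ _
    obtain ⟨σ, hσ⟩ := minpoly.exists_algEquiv_of_root' (Algebra.IsAlgebraic.isAlgebraic ζ) h1
    exact ⟨σ, key σ u _ hσ (ZMod.natCast_zmod_val _)⟩
  · intro Q hQ hQp P φ hP hQP hF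
    let ζ' : 𝓞 L := ⟨ζ, hζ.isIntegral hf⟩
    have hζ' : ζ' ^ f = 1 := by
      apply RingOfIntegers.ext
      show ζ ^ f = 1
      exact hζ.pow_eq_one
    have hfP : ((f : ℕ) : 𝓞 L) ∉ P := by
      intro hfP
      apply hP.ne_top
      rw [Ideal.eq_top_iff_one]
      have h1 : (1 : 𝓞 L) = (Q : 𝓞 L) * (Nat.gcdA Q f : ℤ) + (f : 𝓞 L) * (Nat.gcdB Q f : ℤ) := by
        have h2 := Nat.gcd_eq_gcd_ab Q f
        rw [hQ] at h2
        have h3 := congrArg (Int.cast : ℤ → 𝓞 L) h2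
        push_cast at h3
        exact h3
      rw [h1]
      exact P.add_mem (P.mul_mem_right _ hQP) (P.mul_mem_right _ hfP)
    have h := AlgHom.IsArithFrobAt.apply_of_pow_eq_one hF hζ' hfP
    rw [card_eq hQp hP hQP] at h
    have h2 : φ ζ = ζ ^ Q := by
      have h3 := congrArg (fun z : 𝓞 L => (z : L)) h
      exact h3
    exact key φ _ Q h2 (by simp)

end Pool.Agent.PT

end

section

/-!
# STM: the tame symbols
-/

namespace Pool.Agent.PT

open Pool.Agent.Lib_helper18 Pool.Agent.Lib_helper18.Eis Pool.Agent.Lib_helper84.Cub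

namespace STM

theorem up_eq {π a c : Eis} {k : ℕ} (hπ : Prime π) (hc : ¬ π ∣ c) (ha : a = π ^ k * c) :
    V π a = k ∧ up π a = c := by
  have h1 : V π a = k := by rw [ha]; exact V_pow_mul hπ k hc
  refine ⟨h1, ?_⟩
  unfold up
  rw [h1, ha]
  exact mul_div_cancel_left₀ c (pow_ne_zero _ hπ.ne_zero)

theorem up_spec {π a : Eis} (hπ : Prime π) (ha : a ≠ 0) :
    a = π ^ V π a * up π a ∧ ¬ π ∣ up π a := by
  obtain ⟨c, hc, hd⟩ := V_split hπ ha
  have h1 := (up_eq hπ hd hc).2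
  rw [h1]
  exact ⟨hc, hd⟩

theorem ch_mul {π a b : Eis} (hπ : Prime π) (h3 : ¬ π ∣ 3) (ha : a ≠ 0) (hb : b ≠ 0) :
    ch π (a * b) = ch π a + ch π b := by
  obtain ⟨h1, h2⟩ := up_spec hπ ha
  obtain ⟨h3', h4⟩ := up_spec hπ hb
  have h5 : a * b = π ^ (V π a + V π b) * (up π a * up π b) := by
    conv_lhs => rw [h1, h3']
    ring
  have h6 : ¬ π ∣ up π a * up π b := fun h => (hπ.dvd_or_dvd h).elim h2 h4
  have h7 := (up_eq hπ h6 h5).2
  unfold ch
  rw [h7, sym_mul hπ h3 h2 h4]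

theorem cont {π a a' : Eis} (hπ : Prime π) (ha : a ≠ 0) (h : π ^ (V π a + 1) ∣ a' - a) :
    V π a' = V π a ∧ ch π a' = ch π a := by
  obtain ⟨h1, h2⟩ := up_spec hπ ha
  obtain ⟨d, hd⟩ := h
  have h3 : a' = π ^ V π a * (up π a + π * d) := by
    have : a' = a + π ^ (V π a + 1) * d := by rw [← hd]; ring
    rw [this]
    conv_lhs => rw [h1]
    have h4 : V π (π ^ V π a * up π a) = V π a := by rw [← h1]
    rw [h4]
    ring
  have h4 : ¬ π ∣ up π a + π * d := fun h => h2 ((dvd_add_left (dvd_mul_right π d)).1 h)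
  obtain ⟨h5, h6⟩ := up_eq hπ h4 h3
  refine ⟨h5, ?_⟩
  unfold ch
  rw [h6]
  refine sym_congr ⟨d, ?_⟩
  ring

theorem ch_neg {π a : Eis} (hπ : Prime π) (h3 : ¬ π ∣ 3) (ha : a ≠ 0) : ch π (-a) = ch π a := by
  have h1 : ch π (-1 : Eis) = 0 := by
    have h2 : ¬ π ∣ (-1 : Eis) := fun h => hπ.not_isUnit (isUnit_of_dvd_unit h (by simp))
    have h4 := (up_eq (k := 0) hπ h2 (by simp : (-1 : Eis) = π ^ 0 * (-1))).2
    unfold ch
    rw [h4]
    exact sym_neg_one hπ h3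
  have h2 : -a = -1 * a := by ring
  rw [h2, ch_mul hπ h3 (by simp) ha, h1, zero_add]

/-- `a + b + c = 0` and `V b > V a` -/
theorem dom {π a b c : Eis} (hπ : Prime π) (h3 : ¬ π ∣ 3) (ha : a ≠ 0) (hb : b ≠ 0) (hc : c ≠ 0)
    (h : a + b + c = 0) (hv : V π a < V π b) : V π c = V π a ∧ ch π c = ch π a := by
  have h1 : π ^ (V π a + 1) ∣ b := by
    obtain ⟨h1, -⟩ := up_spec hπ hb
    rw [h1]
    have h2 : V π (π ^ V π b * up π b) = V π b := by rw [← h1]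
    exact (pow_dvd_pow π (by omega)).trans (dvd_mul_right _ _)
  have h2 : (-c) - a = b := by linear_combination (-1 : Eis) * h
  obtain ⟨h4, h5⟩ := cont hπ ha (by rw [h2]; exact h1)
  rw [V_neg] at h4
  rw [ch_neg hπ h3 hc] at h5
  exact ⟨h4, h5⟩

theorem stein {π a b c : Eis} (hπ : Prime π) (h3 : ¬ π ∣ 3) (ha : a ≠ 0) (hb : b ≠ 0) (hc : c ≠ 0)
    (h : a + b + c = 0) : tm π a b + tm π b c + tm π c a = 0 := by
  unfold tm
  rcases lt_trichotomy (V π a) (V π b) with hv | hv | hv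
  · obtain ⟨h1, h2⟩ := dom hπ h3 ha hb hc h hv
    rw [h1, h2]
    ring
  · rcases lt_trichotomy (V π a) (V π c) with hw | hw | hw
    · obtain ⟨h1, h2⟩ := dom hπ h3 ha hc hb (by linear_combination h) hw
      rw [h1, h2]
      ring
    · rw [← hv, ← hw]
      ring
    · obtain ⟨h1, h2⟩ := dom hπ h3 hc ha hb (by linear_combination h) hw
      omega
  · obtain ⟨h1, h2⟩ := dom hπ h3 hb ha hc (by linear_combination h) hv
    rw [h1, h2]
    ring

end STM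

theorem STM_thm : STM := by
  intro π hπ h3
  refine ⟨hπ, le_rfl, ?_, ?_, ?_, ?_⟩
  · intro a b c ha hb hc
    unfold tm
    rw [STM.ch_mul hπ h3 ha hb, V_mul hπ ha hb]
    push_cast
    ring
  · intro a b _ _
    unfold tm
    ring
  · intro a b c ha hb hc h
    exact STM.stein hπ h3 ha hb hc h
  · intro a a' b ha _ h
    obtain ⟨h1, h2⟩ := STM.cont hπ ha h
    unfold tm
    rw [h1, h2]

end Pool.Agent.PT

end

section

/-!
# SUN: the theorem on `S`-units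
-/

open NumberField IsDedekindDomain Module
open scoped nonZeroDivisors

namespace Pool.Agent.PT

namespace SUN

variable {K : Type} [Field K] [NumberField K]

/-- the additive forms of the group of `S`-units -/
noncomputable def eqv (S : Finset (HeightOneSpectrum (𝓞 K))) :
    Additive ((S : Set (HeightOneSpectrum (𝓞 K))).unit K) ≃ₗ[ℤ] SUnit.U K S where
  toFun x := ⟨Additive.ofMul (x.toMul : Kˣ), x.toMul.2⟩
  invFun x := Additive.ofMul ⟨x.1.toMul, x.2⟩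
  map_add' x y := rfl
  map_smul' n x := by
    apply Subtype.ext
    rfl
  left_inv x := rfl
  right_inv x := rfl

theorem ker_torsion (S : Finset (HeightOneSpectrum (𝓞 K))) :
    finrank ℤ (LinearMap.ker (SUnit.ell S)) = 0 := by
  rw [Module.finrank_eq_zero_iff]
  intro x
  have h1 : SUnit.ell S x.1 = 0 := x.2
  have h2 : SUnit.plog S x.1.1 = 0 := congrArg Subtype.val h1
  have h3 := SUnit.isOfFinAddOrder_of_plog_eq_zero S x.1.1 x.1.2 h2
  obtain ⟨n, hn, hnx⟩ := isOfFinAddOrder_iff_nsmul_eq_zero.mp h3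
  refine ⟨n, by exact_mod_cast hn.ne', ?_⟩
  apply Subtype.ext
  apply Subtype.ext
  show (n : ℤ) • x.1.1 = 0
  rw [natCast_zsmul]
  exact hnx

theorem finrank_U (S : Finset (HeightOneSpectrum (𝓞 K))) :
    finrank ℤ (SUnit.U K S) = NumberField.Units.rank K + S.card := by
  have h1 := Submodule.finrank_quotient_add_finrank (LinearMap.ker (SUnit.ell S))
  have h2 := (SUnit.ell S).quotKerEquivRange.finrank_eq
  have h3 : finrank ℤ (SUnit.lat S) = finrank ℝ (SUnit.hyper K S) := ZLattice.rank ℝ (SUnit.lat S)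
  have h4 : finrank ℝ (SUnit.hyper K S) + 1 = Fintype.card (SUnit.Pl K S) :=
    SUnit.finrank_hyperk S ℝ
  have h5 := ker_torsion S
  have h6 : Fintype.card (SUnit.Pl K S) = Fintype.card (InfinitePlace K) + S.card := by
    rw [Fintype.card_sum, Fintype.card_coe]
  have h7 : 0 < Fintype.card (InfinitePlace K) := Fintype.card_pos
  have h8 : NumberField.Units.rank K = Fintype.card (InfinitePlace K) - 1 := rfl
  have h9 : finrank ℤ (LinearMap.range (SUnit.ell S)) = finrank ℝ (SUnit.hyper K S) := h3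
  omega

end SUN

theorem SUN_thm : SUN := by
  intro L _ _ A
  have hfin : Module.Finite ℤ (SUnit.U L A) := inferInstance
  constructor
  · rw [Subgroup.fg_iff_add_fg, ← AddGroup.fg_iff_addSubgroup_fg, ← Module.Finite.iff_addGroup_fg]
    exact hfin
  · rw [(SUN.eqv A).finrank_eq]
    exact SUN.finrank_U A

end Pool.Agent.PT

end

section

/-!
# Prime twists of rank zero: assembly
-/

namespace Pool.Agent.PT.Final

open Pool.Agent.PT

theorem fSPP : SPP := SPP_thm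

theorem fENF : ENF := ENF_thm fSPP

theorem fEDET : EDET := EDET_thm

theorem fEMAT : EMAT := EMAT_thm fEDET

theorem fSTM : STM := STM_thm

theorem fSSL : SSL := SSL_thm fSTM fSPP

theorem fSREC : SREC := SREC_thm fSTM fSPP fSSL

theorem fSCJ : SCJ := SCJ_thm fSTM fSPP fSSL

theorem fEHYP : EHYP := EHYP_thm fSTM fSPP fSSL fSREC fSCJ

theorem fEVEC : EVEC := EVEC_thm fSTM fSPP

theorem fEBAS : EBAS := EBAS_thm fEVEC fSPP

theorem fEADM : EADM := EADM_thm fSTM fSPP fSCJ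

theorem fNFLD : NFLD := NFLD_thm

theorem fSLC : SLC := SLC_thm fSSL fSREC

theorem fLCI : LCI := LCI_thm fSTM fSPP fSLC

theorem fHERBQ : HERBQ := HERBQ_thm

theorem fSUN : SUN := SUN_thm

theorem fNRK : NRK := NRK_thm

theorem fNHN : NHN := NHN_thm

theorem fNTR : NTR := NTR_thm fSPP fNHN

theorem fNCNT : NCNT := NCNT_thm fSPP fLCI fNHN fNTR

theorem fNFIX : NFIX := NFIX_thm fSPP fNHN fNTR

theorem fNHO : NHO := NHO_thm fSPP fNHN fNTR

theorem fNNS : NNS := NNS_thm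

theorem fKUM : KUM := KUM_thm

theorem fNAUX : NAUX := NAUX_thm fSPP fKUM

theorem fNGEN : NGEN := NGEN_thm fSTM fSPP fSSL fSREC fLCI fNAUX

theorem fNMAIN : NMAIN := NMAIN_thm fSTM fSPP fSSL fSLC fLCI fHERBQ fSUN fNRK fNHN fNTR fNCNT fNFIX fNHO fNNS fNGEN

theorem fNDESC : NDESC := NDESC_thm

theorem fHN : HN := HN_thm fNFLD fNMAIN fNDESC fSTM fSPP fLCI

theorem fESYS : ESYS := ESYS_thm fSTM fSPP fSCJ fHN

theorem fSTAR : STAR := STAR_thm

theorem fFDK : FDK := FDK_thm fSTM fSPP fSTAR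

theorem fFDA : FDA := FDA_thm

theorem fFDC : FDC := FDC_thm

theorem fFD1 : FD1 := FD1_thm fFDK fFDA fFDC

theorem fFD2 : FD2 := FD2_thm fSTM fSPP

theorem fIF1 : IF1 := IF1_thm

theorem fIF2 : IF2 := IF2_thm fSTAR

theorem fIF4 : IF4 := IF4_thm fSTAR

theorem fIF4B : IF4B := IF4B_thm fSTAR

theorem fROOT : ROOT := ROOT_thm

theorem fAVV : AVV := AVV_thm fSTM fSPP fSLC fROOT

theorem fF2B : F2B := F2B_thm fSTM fSPP fSLC fLCI fSCJ fSREC fSSL fIF2

theorem fF6R : F6R := F6R_thm fSTM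

theorem fF7U : F7U := F7U_thm fSTM

theorem fSLE : SLE := SLE_thm fSSL fSREC

theorem fF5L : F5L := F5L_thm fSLE fSCJ fSSL

theorem fF3R : F3R := F3R_thm fSTM

theorem fF3U : F3U := F3U_thm fSTM

theorem fLEV : LEV := LEV_thm fSTM fSPP fSSL fSLC fSREC fSCJ fLCI fIF1 fIF2 fIF4 fIF4B fAVV fF2B fF6R fF7U fF5L fF3R fF3U

theorem fLFIN : LFIN := LFIN_thm fSTM fSPP fSSL fSLC fLCI fAVV

theorem fTC : TC := TC_thm fLEV fLFIN

theorem fLAM : LAM := LAM_thm fSTM fSPP fSSL fSLC fSREC fSCJ fLCI fIF1 fAVV fF2B fF3R fF3U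

theorem fTA : TA := TA_thm fLAM fLFIN

theorem fTADD : TADD := TADD_thm fSTM fSPP fSSL fSLC fSCJ fLCI fAVV fLFIN

theorem fTTH : TTH := TTH_thm fSTM fSPP fSSL fSLC fSCJ fLCI fAVV fLFIN

theorem fTEND : TEND := TEND_thm fTC fTA fTADD fTTH fSTM fSPP fSSL fSLC fLCI fAVV fLFIN

theorem fECL : ECL := ECL_thm fEMAT fEHYP fEBAS fEADM fESYS fFD1 fFD2 fTEND

theorem fDCONST : DCONST := DCONST_thm fSTM fSPP fSSL fSLC fSCJ fLCI fAVV fLFIN

theorem fCLSC : CLSC := CLSC_thm fSPP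

theorem fGZERO : GZERO := GZERO_thm

theorem fGCHI : GCHI := GCHI_thm

theorem fGT : GT := GT_thm

theorem fGKI : GKI := GKI_thm

theorem fGC : GC := GC_thm fKUM fGKI

theorem fGFR : GFR := GFR_thm

theorem fGALD : GALD := GALD_thm fGZERO fGCHI fGT fGC fGFR

theorem fSING : SING := SING_thm

theorem fDCNT : DCNT := DCNT_thm fSING

theorem fDIR : DIR := DIR_thm

theorem fDENS : DENS := DENS_thm fGALD fDCNT fDIR

theorem fFINA : FINA := FINA_thm fSPP fECL fDCONST fCLSC fDENS fTEND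

theorem fMAINT : MAINT := MAINT_thm fENF fFINA

end Pool.Agent.PT.Final

end

section

/-!
# PTK_CTK: the number of the primes with a given class
-/

set_option autoImplicit false

open NumberField IsDedekindDomain Finset
open scoped nonZeroDivisors Pointwise

namespace Pool.Agent.PTK

open Pool.Agent.Lib_helper18 Pool.Agent.Lib_helper18.Eis Pool.Agent.Lib_helper84.Cub
open Pool.Agent.PT Pool.Agent.PTE Pool.Agent.PT3 Pool.Agent.PTL Pool.Agent.PTN

namespace CTK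

theorem neg_of_two {x y : ZMod 3} (h : ((2 : ℕ) : ZMod 3) * x = y) : x = -y := by
  rw [← h]
  clear h y
  revert x
  decide

theorem zero_of_mul {E : ℕ} (hE : E = 1 ∨ E = 2) {x : ZMod 3} (h : (E : ZMod 3) * x = 0) :
    x = 0 := by
  rcases hE with rfl | rfl
  · rwa [Nat.cast_one, one_mul] at h
  · rw [neg_of_two h, neg_zero]

/-- The homomorphism with given components. -/
def assemble {s F : ℕ} (Φ : Fin s → ((ZMod F)ˣ →* Multiplicative (ZMod 3))) :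
    (ZMod F)ˣ →* Multiplicative (Fin s → ZMod 3) where
  toFun := fun a => Multiplicative.ofAdd fun j => (Φ j a).toAdd
  map_one' := by
    apply Multiplicative.toAdd.injective
    funext j
    simp
  map_mul' := fun a a' => by
    apply Multiplicative.toAdd.injective
    funext j
    simp

theorem assemble_apply {s F : ℕ} (Φ : Fin s → ((ZMod F)ˣ →* Multiplicative (ZMod 3)))
    (a : (ZMod F)ˣ) (j : Fin s) : (assemble Φ a).toAdd j = (Φ j a).toAdd := rfl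

theorem nat_dvd {a b : ℕ} (h : (a : Eis) ∣ (b : Eis)) : a ∣ b := by
  have h1 : ((a : ℤ) : Eis) ∣ ((b : ℤ) : Eis) := by
    rw [Int.cast_natCast, Int.cast_natCast]
    exact h
  exact Int.natCast_dvd_natCast.1 (intCast_dvd_intCast.1 h1)

/-- the symbol at `q` vanishes -/
theorem sym_zero (hSPP : SPP) {q : ℕ} (hq : q.Prime) (hq3 : q % 3 = 2) {E N : ℕ}
    (hE : E = 1 ∨ E = 2) (hqN : ¬ q ∣ N) {z : Eis} (hz : ¬ (q : Eis) ∣ z)
    (htm : ∀ σ : PP, tm σ.1 z ((N : Eis) * (q : Eis) ^ E) = 0) : sym (q : Eis) z = 0 := by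
  obtain ⟨σ, hσ⟩ := hSPP.2.2.2.2.1 q hq hq3
  have hp : Prime (q : Eis) := hσ ▸ σ.2.1
  have hN : ¬ (q : Eis) ∣ (N : Eis) := fun h => hqN (nat_dvd h)
  have h1 := htm σ
  rw [hσ] at h1
  unfold tm at h1
  rw [V_mul_not_dvd hp hN (pow_ne_zero _ hp.ne_zero), V_pow hp hp.ne_zero, V_self,
    V_eq_zero hz, EHYP.ch_of_not_dvd hp hz, Nat.cast_zero, zero_mul, sub_zero, mul_one] at h1
  exact zero_of_mul hE h1

end CTK

open _root_.Pool.Agent.PTK.CTK in
/-- PTK_CTK. -/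
theorem CTK_thm (hSPP : SPP) (hCLSC : CLSC) (hSYK : Stmt_SYK) (hDCK : Stmt_DCK) (hZS : Stmt_ZS)
    (hPT : Stmt_PT) (hBDK : Stmt_BDK) (hZA : Stmt_ZA) : Stmt_CTK := by
  classical
  intro h n m k π p e r f w0 c hNF hh y hy s u hu hind
  have hn0 : 0 < n := PT.FINA.pos_of_nf hNF
  have hN0 : 0 < 3 ^ h * n := Nat.mul_pos (pow_pos (by norm_num) _) hn0
  have hBB : ∀ E q : ℕ, ((BB h n E q : ℤ) : Eis) = ((3 ^ h * n : ℕ) : Eis) * (q : Eis) ^ E := by
    intro E q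
    unfold BB
    push_cast
    ring
  obtain ⟨P, Q, P', Q', hSys, hHyp⟩ := hSYK h n m k π p e r f w0 c hNF hh y hy s u hu hind
  have hy0 : y ≠ 0 := by
    have h1 := hind.ne_zero 0
    rwa [Fin.cons_zero] at h1
  obtain ⟨hx0, -, -, -, -, -, -, -, -, hxc⟩ := hZA n m k π p e r f hNF y
  have hxnc : ¬ ∃ t : Eis, t ^ 3 = zN π e y := fun ht => hy0 (hxc ht)
  have hnd : ∀ (v : Fin (m + 1) → ZMod 3) (q : ℕ), q.Prime → q % 3 = 2 → ¬ q ∣ n →
      ¬ (q : Eis) ∣ zN π e v := by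
    intro v q hq hq3 hqn
    obtain ⟨-, -, -, h4, -⟩ := hZA n m k π p e r f hNF v
    obtain ⟨σ, hσ⟩ := hSPP.2.2.2.2.1 q hq hq3
    have h5 := h4 σ
    rw [hσ] at h5
    exact h5 fun h6 => hqn (nat_dvd h6)
  -- the conductor
  choose F0 hF0 hF1 using fun j => hDCK (3 ^ h * n) (zN π e (u j)) (zN π e y) (P j) (Q j) (P' j)
    (Q' j) (hHyp j)
  obtain ⟨F, hFpos, hF9, hpF, hFd⟩ : ∃ F : ℕ, 0 < F ∧ 9 ∣ F ∧ (∀ i, p i ∣ F) ∧
      ∀ j, F0 j ∣ F := by
    refine ⟨9 * (∏ i, p i) * ∏ j, F0 j, ?_, ?_, ?_, ?_⟩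
    · have h1 : 0 < ∏ i, p i := Finset.prod_pos fun i _ => (hNF.pp i).pos
      have h2 : 0 < ∏ j, F0 j := Finset.prod_pos fun j _ => hF0 j
      positivity
    · exact Dvd.dvd.mul_right (Dvd.intro _ rfl) _
    · intro i
      exact Dvd.dvd.mul_right (Dvd.dvd.mul_left (Finset.dvd_prod_of_mem p (mem_univ i)) _) _
    · intro j
      exact Dvd.dvd.mul_left (Finset.dvd_prod_of_mem F0 (mem_univ j)) _
  choose C Φ N₀ hC using fun j => hF1 j F hFpos (hFd j)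
  obtain ⟨κ, hκ1, hκ2⟩ := hCLSC m π p hNF.pp hNF.p1 hNF.pπ hNF.pinj F hFpos hF9 hpF
  obtain ⟨M, hM⟩ : ∃ M, M = 3 ^ h * n + F + ∑ j, N₀ j := ⟨_, rfl⟩
  have hMN : ∀ j, N₀ j ≤ ∑ j, N₀ j := fun j =>
    Finset.single_le_sum (f := N₀) (fun i _ => Nat.zero_le _) (mem_univ j)
  have hmain : ∀ (E q : ℕ), (E = 1 ∨ E = 2) → q.Prime → M < q → q ∈ QY h n π e w0 c y E →
      ∃ hQ : q.Coprime F, sym (q : Eis) (zN π e y) = 0 ∧
        (∀ j, sym (q : Eis) (zN π e (u j)) = 0) ∧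
        ∀ (j : Fin s) (ξ : Eis), (q : Eis) ∣ ξ ^ 3 - zN π e y →
          C j + E * ((Φ j (ZMod.unitOfCoprime q hQ)).toAdd -
            TAUE q (P j) (Q j) (P' j) (Q' j) ξ) = 0 := by
    intro E q hE hq hqM ⟨hq3, hIn, hOcc⟩
    have hqN : ¬ q ∣ 3 ^ h * n := fun h => by
      have := Nat.le_of_dvd hN0 h
      omega
    have hqn : ¬ q ∣ n := fun h => hqN (Dvd.dvd.mul_left h _)
    have hQ : q.Coprime F := by
      rw [Nat.Prime.coprime_iff_not_dvd hq]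
      intro h
      have := Nat.le_of_dvd hFpos h
      omega
    have hSel : ∀ v ∈ VS h n π p e r w0 c, ∀ σ : PP,
        tm σ.1 (zN π e v) (((3 ^ h * n : ℕ) : Eis) * (q : Eis) ^ E) = 0 := by
      intro v hv σ
      have h1 := (hZS h n m k π p e r f w0 c E q hNF hh hE hq hq3 hIn hqn v hv).sym σ
      rwa [hBB] at h1
    have hB0 : BB h n E q ≠ 0 := by
      unfold BB
      have h3 : (3 : ℤ) ^ h ≠ 0 := pow_ne_zero _ (by norm_num)
      have h4 : (n : ℤ) ≠ 0 := by exact_mod_cast hn0.ne'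
      have h5 : (q : ℤ) ^ E ≠ 0 := pow_ne_zero _ (by exact_mod_cast hq.ne_zero)
      exact mul_ne_zero (mul_ne_zero h3 h4) h5
    obtain ⟨X, Y, hpt⟩ := hPT (BB h n E q) (zN π e y) hB0 hx0 hxnc hOcc
    rw [hBB] at hpt
    refine ⟨hQ, sym_zero hSPP hq hq3 hE hqN (hnd y q hq hq3 hqn) (hSel y hy),
      fun j => sym_zero hSPP hq hq3 hE hqN (hnd (u j) q hq hq3 hqn) (hSel (u j) (hu j).1), ?_⟩
    intro j ξ hξ
    exact hC j E q hQ hE hq (by have := hMN j; omega) hq3 (hSel (u j) (hu j).1) (hSel y hy)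
      X Y ξ hpt hξ
  obtain ⟨K, hK⟩ := hBDK s (zN π e y) (fun j => zN π e (u j)) P Q P' Q' F m κ (Fin.cons w0 c) C
    (assemble Φ) hSys hFpos hF9 hκ2
  refine ⟨K + 2 * (2 * ((Finset.range (M + 1)).card : ℝ)), fun σ h1 hσ2 => ?_⟩
  have hB := hK σ h1 hσ2
  have hsub1 : ∀ q : ℕ, q.Prime → M < q → q ∈ QY h n π e w0 c y 1 →
      q ∈ SPK (zN π e y) (fun j => zN π e (u j)) P Q P' Q' κ (Fin.cons w0 c) C (assemble Φ) := by
    intro q hq hqM hqY
    obtain ⟨hQ, h2, h3, h4⟩ := hmain 1 q (Or.inl rfl) hq hqM hqY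
    obtain ⟨hq3, hIn, -⟩ := hqY
    refine ⟨hQ, hq3, ?_, h2, h3, ?_⟩
    · rw [hκ1]
      funext i
      refine Fin.cases ?_ (fun i => ?_) i
      · rw [Fin.cons_zero, Fin.cons_zero]
        have h5 := hIn.1
        rw [pow_one] at h5
        exact h5
      · rw [Fin.cons_succ, Fin.cons_succ]
        have h5 := hIn.2 i
        rw [Nat.cast_one, one_mul] at h5
        exact h5
    · intro j ξ hξ
      have h5 := h4 j ξ hξ
      rw [assemble_apply]
      rw [Nat.cast_one, one_mul] at h5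
      linear_combination -h5
  have hsub2 : ∀ q : ℕ, q.Prime → M < q → q ∈ QY h n π e w0 c y 2 →
      q ∈ SMK (zN π e y) (fun j => zN π e (u j)) P Q P' Q' κ (Fin.cons w0 c) C (assemble Φ) := by
    intro q hq hqM hqY
    obtain ⟨hQ, h2, h3, h4⟩ := hmain 2 q (Or.inr rfl) hq hqM hqY
    obtain ⟨hq3, hIn, -⟩ := hqY
    refine ⟨hQ, hq3, ?_, h2, h3, ?_⟩
    · rw [hκ1]
      funext i
      refine Fin.cases ?_ (fun i => ?_) i
      · rw [Fin.cons_zero, Pi.neg_apply, Fin.cons_zero]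
        have h5 := hIn.1
        rw [CL.wt_sq2 hq3] at h5
        exact neg_of_two h5
      · rw [Fin.cons_succ, Pi.neg_apply, Fin.cons_succ]
        exact neg_of_two (hIn.2 i)
    · intro j ξ hξ
      have h5 := h4 j ξ hξ
      rw [assemble_apply]
      rw [show ((2 : ℕ) : ZMod 3) = -1 from by decide] at h5
      linear_combination h5
  have i1 := CL.sm_le_add _ _ M hsub1 h1
  have i2 := CL.sm_le_add _ _ M hsub2 h1
  linarith

end Pool.Agent.PTK

end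

section

/-!
# PTK_MSKU: the primes for which a class is the class of a point, `q = 1 (mod 3)`
-/

set_option autoImplicit false

open NumberField IsDedekindDomain Finset
open scoped nonZeroDivisors Pointwise

namespace Pool.Agent.PTK

open Pool.Agent.Lib_helper18 Pool.Agent.Lib_helper18.Eis Pool.Agent.Lib_helper84.Cub
open Pool.Agent.PT Pool.Agent.PTE Pool.Agent.PT3 Pool.Agent.PTL Pool.Agent.PTN

namespace MSKU

/-- a prime factor of a prime `q = 1 (mod 3)` divides no number prime to `q` -/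
theorem not_dvd {ρ : PP} {q : ℕ} (hq : q.Prime) (hρ : (q : Eis) = ρ.1 * conj ρ.1) {N : ℕ}
    (hqN : ¬ q ∣ N) : ¬ ρ.1 ∣ (N : Eis) := by
  have : Fact q.Prime := ⟨hq⟩
  rw [dvd_natCast_iff (CLSC.norm_of _ _ hρ)]
  exact hqN

/-- the symbol at a prime factor of `q` vanishes -/
theorem sym_zero {ρ : PP} {q : ℕ} (hq : q.Prime) (hq3 : q % 3 = 1)
    (hρ : (q : Eis) = ρ.1 * conj ρ.1) {E N : ℕ}
    (hE : E = 1 ∨ E = 2) (hqN : ¬ q ∣ N) {z : Eis} (hz : ¬ ρ.1 ∣ z)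
    (htm : ∀ σ : PP, tm σ.1 z ((N : Eis) * (q : Eis) ^ E) = 0) : sym ρ.1 z = 0 := by
  have : Fact q.Prime := ⟨hq⟩
  have hn := CLSC.norm_of _ _ hρ
  have hp : Prime ρ.1 := ρ.2.1
  have hN : ¬ ρ.1 ∣ (N : Eis) := not_dvd hq hρ hqN
  have hcp : conj ρ.1 ≠ 0 := fun h => hp.ne_zero (by
    have h1 := congrArg conj h
    rwa [conj_conj, map_zero] at h1)
  have hq0 : (q : Eis) ≠ 0 := by
    rw [hρ]
    exact mul_ne_zero hp.ne_zero hcp
  have hc : ¬ ρ.1 ∣ conj ρ.1 := not_dvd_conj hq3 hn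
  have hV : V ρ.1 (q : Eis) = 1 := by
    rw [hρ, mul_comm, V_mul_not_dvd hp hc hp.ne_zero, V_self]
  have h1 := htm ρ
  unfold tm at h1
  rw [V_mul_not_dvd hp hN (pow_ne_zero _ hq0), V_pow hp hq0, hV,
    V_eq_zero hz, EHYP.ch_of_not_dvd hp hz, Nat.cast_zero, zero_mul, sub_zero, mul_one] at h1
  exact CTK.zero_of_mul hE h1

theorem wt_sq {q : ℕ} (hq : q % 3 = 1) : wt (((q : ℤ) ^ 2) ^ 2) = 2 * wt ((q : ℤ) ^ 2) := by
  have h : ¬ (3 : ℤ) ∣ (q : ℤ) := by omega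
  have h1 := sq_mod_three h
  have h2 : ((q : ℤ) ^ 2) ^ 2 = (q : ℤ) ^ 2 * (q : ℤ) ^ 2 := by ring
  rw [h2, wt_mul h1 h1]
  ring

end MSKU

open _root_.Pool.Agent.PTK.MSKU in
/-- PTK_MSKU. -/
theorem MSKU_thm (hDCKU : Stmt_DCKU) (hZSU : Stmt_ZSU)
    (hPT : Stmt_PT) (hZA : Stmt_ZA) : Stmt_MSKU := by
  classical
  intro h n m k π p e r f w0 c hNF hh y hy s u P Q P' Q' hu hSys hHyp
  have hn0 : 0 < n := PT.FINA.pos_of_nf hNF
  have hN0 : 0 < 3 ^ h * n := Nat.mul_pos (pow_pos (by norm_num) _) hn0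
  have hBB : ∀ E q : ℕ, ((BB h n E q : ℤ) : Eis) = ((3 ^ h * n : ℕ) : Eis) * (q : Eis) ^ E := by
    intro E q
    unfold BB
    push_cast
    ring
  have hxnc : ¬ ∃ t : Eis, t ^ 3 = zN π e y := by
    rintro ⟨t, ht⟩
    exact hSys.ind 1 0 (Or.inl (by norm_num)) ⟨t, by simpa using ht⟩
  obtain ⟨hx0, -⟩ := hZA n m k π p e r f hNF y
  have hnd : ∀ (v : Fin (m + 1) → ZMod 3) (q : ℕ) (ρ : PP), q.Prime →
      (q : Eis) = ρ.1 * conj ρ.1 → ¬ q ∣ n → ¬ ρ.1 ∣ zN π e v := by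
    intro v q ρ hq hρ hqn
    obtain ⟨-, -, -, h4, -⟩ := hZA n m k π p e r f hNF v
    exact h4 ρ (not_dvd hq hρ hqn)
  -- the conductor
  choose F0 hF0 hF1 using fun j => hDCKU (3 ^ h * n) (zN π e (u j)) (zN π e y) (P j) (Q j) (P' j)
    (Q' j) (hHyp j)
  refine ⟨∏ j, F0 j, Finset.prod_pos fun j _ => hF0 j, fun F hFpos hFd κ hκ1 => ?_⟩
  choose C Φ N₀ hC using fun j => hF1 j F hFpos
    ((Finset.dvd_prod_of_mem F0 (mem_univ j)).trans hFd)
  have hMN : ∀ j, N₀ j ≤ ∑ j, N₀ j := fun j =>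
    Finset.single_le_sum (f := N₀) (fun i _ => Nat.zero_le _) (mem_univ j)
  have hmain : ∀ (E q : ℕ), (E = 1 ∨ E = 2) → q.Prime → 3 ^ h * n + F + ∑ j, N₀ j < q →
      q ∈ QYU h n π e w0 c y E →
      ∃ hQ : q.Coprime F, ∀ ρ : PP, (q : Eis) = ρ.1 * conj ρ.1 → sym ρ.1 (zN π e y) = 0 ∧
        (∀ j, sym ρ.1 (zN π e (u j)) = 0) ∧
        ∀ (j : Fin s) (ξ ξ' : Eis), ρ.1 ∣ ξ ^ 3 - zN π e y → conj ρ.1 ∣ ξ' ^ 3 - zN π e y →
          C j + E * ((Φ j (ZMod.unitOfCoprime q hQ)).toAdd -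
            TAUP ρ.1 (P j) (Q j) (P' j) (Q' j) ξ -
            TAUP (conj ρ.1) (P j) (Q j) (P' j) (Q' j) ξ') = 0 := by
    intro E q hE hq hqM ⟨hq3, hIn, hOcc⟩
    have hqN : ¬ q ∣ 3 ^ h * n := fun h => by
      have := Nat.le_of_dvd hN0 h
      omega
    have hqn : ¬ q ∣ n := fun h => hqN (Dvd.dvd.mul_left h _)
    have hQ : q.Coprime F := by
      rw [Nat.Prime.coprime_iff_not_dvd hq]
      intro h
      have := Nat.le_of_dvd hFpos h
      omega
    have hSel : ∀ v ∈ VS h n π p e r w0 c, ∀ σ : PP,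
        tm σ.1 (zN π e v) (((3 ^ h * n : ℕ) : Eis) * (q : Eis) ^ E) = 0 := by
      intro v hv σ
      have h1 := (hZSU h n m k π p e r f w0 c E q hNF hh hE hq hq3 hIn hqn v hv).sym σ
      rwa [hBB] at h1
    have hB0 : BB h n E q ≠ 0 := by
      unfold BB
      have h3 : (3 : ℤ) ^ h ≠ 0 := pow_ne_zero _ (by norm_num)
      have h4 : (n : ℤ) ≠ 0 := by exact_mod_cast hn0.ne'
      have h5 : (q : ℤ) ^ E ≠ 0 := pow_ne_zero _ (by exact_mod_cast hq.ne_zero)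
      exact mul_ne_zero (mul_ne_zero h3 h4) h5
    obtain ⟨X, Y, hpt⟩ := hPT (BB h n E q) (zN π e y) hB0 hx0 hxnc hOcc
    rw [hBB] at hpt
    refine ⟨hQ, fun ρ hρ => ⟨sym_zero hq hq3 hρ hE hqN (hnd y q ρ hq hρ hqn) (hSel y hy),
      fun j => sym_zero hq hq3 hρ hE hqN (hnd (u j) q ρ hq hρ hqn) (hSel (u j) (hu j).1), ?_⟩⟩
    intro j ξ ξ' hξ hξ'
    exact hC j E q hQ ρ hE hq (by have := hMN j; omega) hq3 hρ (hSel (u j) (hu j).1) (hSel y hy)
      X Y ξ ξ' hpt hξ hξ'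
  refine ⟨C, CTK.assemble Φ, 3 ^ h * n + F + ∑ j, N₀ j, fun q hq hqM => ⟨fun hqY => ?_,
    fun hqY => ?_⟩⟩
  · obtain ⟨hQ, h2⟩ := hmain 1 q (Or.inl rfl) hq hqM hqY
    obtain ⟨hq3, hIn, -⟩ := hqY
    refine ⟨hQ, hq3, ?_, fun ρ hρ => ⟨(h2 ρ hρ).1, (h2 ρ hρ).2.1, fun j ξ ξ' hξ hξ' => ?_⟩⟩
    · rw [hκ1]
      funext i
      refine Fin.cases ?_ (fun i => ?_) i
      · rw [Fin.cons_zero, Fin.cons_zero]
        have h5 := hIn.1
        rw [pow_one] at h5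
        exact h5
      · rw [Fin.cons_succ, Fin.cons_succ]
        have h5 := hIn.2 i
        rw [Nat.cast_one, one_mul] at h5
        exact h5
    · have h5 := (h2 ρ hρ).2.2 j ξ ξ' hξ hξ'
      rw [CTK.assemble_apply]
      rw [Nat.cast_one, one_mul] at h5
      linear_combination -h5
  · obtain ⟨hQ, h2⟩ := hmain 2 q (Or.inr rfl) hq hqM hqY
    obtain ⟨hq3, hIn, -⟩ := hqY
    refine ⟨hQ, hq3, ?_, fun ρ hρ => ⟨(h2 ρ hρ).1, (h2 ρ hρ).2.1, fun j ξ ξ' hξ hξ' => ?_⟩⟩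
    · rw [hκ1]
      funext i
      refine Fin.cases ?_ (fun i => ?_) i
      · rw [Fin.cons_zero, Pi.neg_apply, Fin.cons_zero]
        have h5 := hIn.1
        rw [wt_sq hq3] at h5
        exact CTK.neg_of_two h5
      · rw [Fin.cons_succ, Pi.neg_apply, Fin.cons_succ]
        exact CTK.neg_of_two (hIn.2 i)
    · have h5 := (h2 ρ hρ).2.2 j ξ ξ' hξ hξ'
      rw [CTK.assemble_apply]
      rw [show ((2 : ℕ) : ZMod 3) = -1 from by decide] at h5
      linear_combination h5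

end Pool.Agent.PTK

end

section

/-!
# PTK_MS1: the primes of `QM` are in `SPZU`, `SMZU` (`q = 1 (mod 3)`, several base classes)
-/

set_option autoImplicit false

open NumberField IsDedekindDomain Finset
open scoped nonZeroDivisors Pointwise

namespace Pool.Agent.PTK

open Pool.Agent.Lib_helper18 Pool.Agent.Lib_helper18.Eis Pool.Agent.Lib_helper84.Cub
open Pool.Agent.PT Pool.Agent.PTE Pool.Agent.PT3 Pool.Agent.PTL Pool.Agent.PTN

namespace MS1

/-- a class of a system is no cube -/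
theorem not_cube {M N : ℕ} {z : Fin M → Eis} {α β : Fin N → Fin M} {P Q P' Q' : Fin N → Eis}
    (hS : SysZ z α β P Q P' Q') (i : Fin M) : ¬ ∃ t : Eis, t ^ 3 = z i := by
  rintro ⟨t, ht⟩
  refine hS.ind (Pi.single i 1) ⟨i, by rw [Pi.single_eq_same]; norm_num⟩ ⟨t, ?_⟩
  rw [Fintype.prod_eq_single i, Pi.single_eq_same, pow_one, ht]
  intro l hl
  rw [Pi.single_eq_of_ne hl, pow_zero]

/-- `lv B ≠ 1` for `h ≠ 1` -/
theorem lv_ne (hLCL : LCL) {n m k : ℕ} {π : Fin m → PP} {p e : Fin m → ℕ} {r f : Fin k → ℕ}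
    (hNF : NF n π p e r f) {h E q : ℕ} {w0 : ZMod 3} {c : Fin m → ZMod 3} (hh : h ≤ 2)
    (h1 : h ≠ 1) (hq : q.Prime) (hq3 : ¬ 3 ∣ q) (hIn : InCT E π w0 c q) : lv (BB h n E q) ≠ 1 := by
  rw [(HYPT.lvw hLCL hNF hq hq3 hIn.1).1]
  interval_cases h
  · decide
  · exact absurd rfl h1
  · decide

end MS1

open MSKU in
/-- PTK_MS1. -/
theorem MS1_thm (hDCKU : Stmt_DCKU) (hDXL : Stmt_DXL) (hPT : Stmt_PT) (hPTX : Stmt_PTX)
    (hZSU : Stmt_ZSU) (hZA : Stmt_ZA) (hLCL : LCL) : Stmt_MS1 := by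
  classical
  intro h n m k π p e r f w0 c hNF hh M N y α β hT P Q P' Q' hSys hHyp
  have hn0 : 0 < n := PT.FINA.pos_of_nf hNF
  have hN0 : 0 < 3 ^ h * n := Nat.mul_pos (pow_pos (by norm_num) _) hn0
  have hBB : ∀ E q : ℕ, ((BB h n E q : ℤ) : Eis) = ((3 ^ h * n : ℕ) : Eis) * (q : Eis) ^ E := by
    intro E q
    unfold BB
    push_cast
    ring
  have hBZ : ∀ E q : ℕ, BB h n E q = ((3 ^ h * n : ℕ) : ℤ) * (q : ℤ) ^ E := by
    intro E q
    unfold BB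
    push_cast
    ring
  have hxnc : ∀ i, ¬ ∃ t : Eis, t ^ 3 = zN π e (y i) := fun i => MS1.not_cube hSys i
  have hx0 : ∀ i, zN π e (y i) ≠ 0 := fun i => (hZA n m k π p e r f hNF (y i)).1
  have hB0 : ∀ E q : ℕ, q.Prime → BB h n E q ≠ 0 := by
    intro E q hq
    unfold BB
    have h3 : (3 : ℤ) ^ h ≠ 0 := pow_ne_zero _ (by norm_num)
    have h4 : (n : ℤ) ≠ 0 := by exact_mod_cast hn0.ne'
    have h5 : (q : ℤ) ^ E ≠ 0 := pow_ne_zero _ (by exact_mod_cast hq.ne_zero)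
    exact mul_ne_zero (mul_ne_zero h3 h4) h5
  have hnd : ∀ (v : Fin (m + 1) → ZMod 3) (q : ℕ) (ρ : PP), q.Prime →
      (q : Eis) = ρ.1 * conj ρ.1 → ¬ q ∣ n → ¬ ρ.1 ∣ zN π e v := by
    intro v q ρ hq hρ hqn
    obtain ⟨-, -, -, h4, -⟩ := hZA n m k π p e r f hNF v
    exact h4 ρ (not_dvd hq hρ hqn)
  -- the relation for one pair
  have hrel : ∀ j, ∃ f₀ : ℕ, 0 < f₀ ∧ ∀ F : ℕ, 0 < F → f₀ ∣ F →
      ∃ (C : ZMod 3) (Φ : (ZMod F)ˣ →* Multiplicative (ZMod 3)) (N₀ : ℕ),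
      ∀ (E q : ℕ) (hQ : q.Coprime F) (ρ : PP), (E = 1 ∨ E = 2) → q.Prime → N₀ < q → q % 3 = 1 →
        (q : Eis) = ρ.1 * conj ρ.1 → InCT E π w0 c q →
        (∀ σ : PP, tm σ.1 (zN π e (y (β j))) (((3 ^ h * n : ℕ) : Eis) * (q : Eis) ^ E) = 0) →
        (∀ σ : PP, tm σ.1 (zN π e (y (α j))) (((3 ^ h * n : ℕ) : Eis) * (q : Eis) ^ E) = 0) →
        Occ (BB h n E q) (zN π e (y (α j))) →
        ∀ ξ ξ' : Eis, ρ.1 ∣ ξ ^ 3 - zN π e (y (α j)) → conj ρ.1 ∣ ξ' ^ 3 - zN π e (y (α j)) →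
          C + E * ((Φ (ZMod.unitOfCoprime q hQ)).toAdd -
            TAUP ρ.1 (P j) (Q j) (P' j) (Q' j) ξ -
            TAUP (conj ρ.1) (P j) (Q j) (P' j) (Q' j) ξ') = 0 := by
    intro j
    rcases hHyp j with hD | ⟨h1, hX⟩
    · obtain ⟨F0, hF0, hF1⟩ := hDCKU (3 ^ h * n) (zN π e (y (β j))) (zN π e (y (α j))) (P j) (Q j)
        (P' j) (Q' j) hD
      refine ⟨F0, hF0, fun F hF hd => ?_⟩
      obtain ⟨C, Φ, N₀, hC⟩ := hF1 F hF hd
      refine ⟨C, Φ, N₀, fun E q hQ ρ hE hq hN hq3 hρ hIn hb hx hocc ξ ξ' hξ hξ' => ?_⟩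
      obtain ⟨X, Y, hpt⟩ := hPT (BB h n E q) (zN π e (y (α j))) (hB0 E q hq) (hx0 _) (hxnc _) hocc
      rw [hBB] at hpt
      exact hC E q hQ ρ hE hq hN hq3 hρ hb hx X Y ξ ξ' hpt hξ hξ'
    · obtain ⟨F0, hF0, hF1⟩ := hDXL (3 ^ h * n) (zN π e (y (β j))) (zN π e (y (α j))) (P j) (Q j)
        (P' j) (Q' j) hX
      refine ⟨F0, hF0, fun F hF hd => ?_⟩
      obtain ⟨C, Φ, N₀, hC⟩ := hF1 F hF hd
      refine ⟨C, Φ, N₀, fun E q hQ ρ hE hq hN hq3 hρ hIn hb hx hocc ξ ξ' hξ hξ' => ?_⟩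
      obtain ⟨X, Y, hpt, hgp⟩ := hPTX (BB h n E q) (zN π e (y (α j))) (hB0 E q hq)
        (MS1.lv_ne hLCL hNF hh h1 hq (by omega) hIn) (hx0 _) (hxnc _) hocc
      rw [hBB] at hpt
      rw [hBZ] at hgp
      exact hC E q hQ ρ hE hq hN hq3 hρ hb hx X Y ξ ξ' hpt hgp hξ hξ'
  choose F0 hF0 hF1 using hrel
  refine ⟨∏ j, F0 j, Finset.prod_pos fun j _ => hF0 j, fun F hFpos hFd κ hκ1 => ?_⟩
  choose C Φ N₀ hC using fun j => hF1 j F hFpos
    ((Finset.dvd_prod_of_mem F0 (mem_univ j)).trans hFd)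
  have hMN : ∀ j, N₀ j ≤ ∑ j, N₀ j := fun j =>
    Finset.single_le_sum (f := N₀) (fun i _ => Nat.zero_le _) (mem_univ j)
  have hmain : ∀ (E q : ℕ), (E = 1 ∨ E = 2) → q.Prime → 3 ^ h * n + F + ∑ j, N₀ j < q →
      q ∈ QM h n π e w0 c y α 1 E →
      ∃ hQ : q.Coprime F, ∀ ρ : PP, (q : Eis) = ρ.1 * conj ρ.1 →
        (∀ i, sym ρ.1 (zN π e (y i)) = 0) ∧
        ∀ (j : Fin N) (ξ ξ' : Eis), ρ.1 ∣ ξ ^ 3 - zN π e (y (α j)) →
          conj ρ.1 ∣ ξ' ^ 3 - zN π e (y (α j)) →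
          C j + E * ((Φ j (ZMod.unitOfCoprime q hQ)).toAdd -
            TAUP ρ.1 (P j) (Q j) (P' j) (Q' j) ξ -
            TAUP (conj ρ.1) (P j) (Q j) (P' j) (Q' j) ξ') = 0 := by
    intro E q hE hq hqM ⟨hq3, hIn, hOcc⟩
    have hqN : ¬ q ∣ 3 ^ h * n := fun h => by
      have := Nat.le_of_dvd hN0 h
      omega
    have hqn : ¬ q ∣ n := fun h => hqN (Dvd.dvd.mul_left h _)
    have hQ : q.Coprime F := by
      rw [Nat.Prime.coprime_iff_not_dvd hq]
      intro h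
      have := Nat.le_of_dvd hFpos h
      omega
    have hSel : ∀ v ∈ VS h n π p e r w0 c, ∀ σ : PP,
        tm σ.1 (zN π e v) (((3 ^ h * n : ℕ) : Eis) * (q : Eis) ^ E) = 0 := by
      intro v hv σ
      have h1 := (hZSU h n m k π p e r f w0 c E q hNF hh hE hq hq3 hIn hqn v hv).sym σ
      rwa [hBB] at h1
    refine ⟨hQ, fun ρ hρ => ⟨fun i => sym_zero hq hq3 hρ hE hqN (hnd (y i) q ρ hq hρ hqn)
      (hSel (y i) (hT.mem i)), ?_⟩⟩
    intro j ξ ξ' hξ hξ'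
    exact hC j E q hQ ρ hE hq (by have := hMN j; omega) hq3 hρ hIn (hSel _ (hT.mem _))
      (hSel _ (hT.mem _)) (hOcc j) ξ ξ' hξ hξ'
  refine ⟨C, CTK.assemble Φ, 3 ^ h * n + F + ∑ j, N₀ j, fun q hq hqM => ⟨fun hqY => ?_,
    fun hqY => ?_⟩⟩
  · obtain ⟨hQ, h2⟩ := hmain 1 q (Or.inl rfl) hq hqM hqY
    obtain ⟨hq3, hIn, -⟩ := hqY
    refine ⟨hQ, hq3, ?_, fun ρ hρ => ⟨(h2 ρ hρ).1, fun j ξ ξ' hξ hξ' => ?_⟩⟩
    · rw [hκ1]
      funext i
      refine Fin.cases ?_ (fun i => ?_) i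
      · rw [Fin.cons_zero, Fin.cons_zero]
        have h5 := hIn.1
        rw [pow_one] at h5
        exact h5
      · rw [Fin.cons_succ, Fin.cons_succ]
        have h5 := hIn.2 i
        rw [Nat.cast_one, one_mul] at h5
        exact h5
    · have h5 := (h2 ρ hρ).2 j ξ ξ' hξ hξ'
      rw [CTK.assemble_apply]
      rw [Nat.cast_one, one_mul] at h5
      linear_combination -h5
  · obtain ⟨hQ, h2⟩ := hmain 2 q (Or.inr rfl) hq hqM hqY
    obtain ⟨hq3, hIn, -⟩ := hqY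
    refine ⟨hQ, hq3, ?_, fun ρ hρ => ⟨(h2 ρ hρ).1, fun j ξ ξ' hξ hξ' => ?_⟩⟩
    · rw [hκ1]
      funext i
      refine Fin.cases ?_ (fun i => ?_) i
      · rw [Fin.cons_zero, Pi.neg_apply, Fin.cons_zero]
        have h5 := hIn.1
        rw [wt_sq hq3] at h5
        exact CTK.neg_of_two h5
      · rw [Fin.cons_succ, Pi.neg_apply, Fin.cons_succ]
        exact CTK.neg_of_two (hIn.2 i)
    · have h5 := (h2 ρ hρ).2 j ξ ξ' hξ hξ'
      rw [CTK.assemble_apply]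
      rw [show ((2 : ℕ) : ZMod 3) = -1 from by decide] at h5
      linear_combination h5

end Pool.Agent.PTK

end
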