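import Mathlib
import Pool.Agent.PTWX.C34
import Pool.Agent.PTWX.C37
import Pool.Agent.PTWX.C41
import Pool.Agent.PTWX.C44
import Pool.Agent.PTWX.C47
import Pool.Agent.PTWX.C57

/-! Parts: PT3.ECLT, PTN.NVEC, PTKX.SYK, PTKX.F7U, PTKX.DCK, PTKX.MSY, PTKX.DCKU, PTKX.DP4U, PTKX.DX4, PTKX.S1G, PTKX.SAE -/

namespace Pool.Agent.PT3.ECLT
end Pool.Agent.PT3.ECLT

namespace Pool.Agent.PTK.SYK
end Pool.Agent.PTK.SYK

namespace Pool.Agent.PTK.DCK
end Pool.Agent.PTK.DCK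

namespace Pool.Agent.PTK.MSY
end Pool.Agent.PTK.MSY

namespace Pool.Agent.PTK.DCKU
end Pool.Agent.PTK.DCKU

namespace Pool.Agent.PTK.DP4U
end Pool.Agent.PTK.DP4U

namespace Pool.Agent.PTK.SAE
end Pool.Agent.PTK.SAE

section

/-!
# Prime twists of rank zero, `3 ∣ B`: the class and the system, `q = 2 (mod 3)`
-/

set_option autoImplicit false

namespace Pool.Agent.PT3

open Pool.Agent.Lib_helper18 Pool.Agent.Lib_helper18.Eis Pool.Agent.Lib_helper84.Cub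
open Pool.Agent.PT Pool.Agent.PTE

namespace ECLT

/-- a point whose class is generated by the `b i` gives a point of the class of a product -/
lemma pt_prod {s : ℕ} {B z X Y : ℤ} {b : Fin s → ℤ} (hPt : Pt B z X Y)
    (hcube : ¬ ∃ t : ℤ, t ^ 3 = z) {g : Fin s → ℕ} {u v : ℤ} (hu : u ≠ 0) (hv : v ≠ 0)
    (hg : z * u ^ 3 = (∏ i, b i ^ g i) * v ^ 3) :
    (∃ i, ¬ 3 ∣ g i) ∧ ∃ X' Y' : ℤ, Pt B (∏ i, b i ^ g i) X' Y' := by
  set W : ℤ := ∏ i, b i ^ g i with hW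
  constructor
  · by_contra hcon
    push Not at hcon
    choose g' hg' using hcon
    apply hcube
    have h1 : z * u ^ 3 = ((∏ i, b i ^ g' i) * v) ^ 3 := by
      rw [hg, hW, mul_pow, ← Finset.prod_pow]
      congr 1
      refine Finset.prod_congr rfl fun i _ => ?_
      rw [← pow_mul, hg' i, mul_comm]
    exact ECL.cube_of hu h1
  · refine ⟨u * v * X, v ^ 2 * Y, mul_ne_zero (mul_ne_zero hu hv) hPt.hX,
      mul_ne_zero (pow_ne_zero 2 hv) hPt.hY, ?_⟩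
    obtain ⟨c0, hc0, h1⟩ := hPt.eq
    refine ⟨c0 * u ^ 2, mul_ne_zero hc0 (pow_ne_zero 2 hu), ?_⟩
    have e1 : W * ((u * v * X) ^ 3 + W * (v ^ 2 * Y) ^ 3) =
        (W * v ^ 3) * (u ^ 3 * X ^ 3 + (W * v ^ 3) * Y ^ 3) := by ring
    rw [e1, ← hg]
    have e2 : z * u ^ 3 * (u ^ 3 * X ^ 3 + z * u ^ 3 * Y ^ 3) =
        u ^ 6 * (z * (X ^ 3 + z * Y ^ 3)) := by ring
    rw [e2, h1]
    ring

end ECLT

open _root_.Pool.Agent.PT3.ECLT in
/-- ECLT: the system for a class, `q = 2 (mod 3)`. -/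
theorem ECLT_thm (hHYPT : HYPT) (hEBAT : EBAT) (hEADT : EADT) (hESYT : ESYT) (hFD1T : FD1T)
    (hFD2T : FD2T) (hTENT : TENT) : ECLT := by
  intro h n m k π p e r f w0 c hNF hh hhk hdet
  obtain ⟨s, τ, b, X, Y, hs, hAdC, hV, hind, h3, hLam, hgen⟩ :=
    hEBAT h n m k π p e r f w0 c hNF hh hdet
  obtain ⟨P, Q, P', Q', hSys, hSw⟩ := hESYT h n m k π p e r f w0 c s b hNF hAdC hV hind h3
  have hb0 : ∀ i, b i ≠ 0 := fun i => (hAdC i).ne
  refine ⟨s, b, X, Y, P, Q, P', Q', ?_, hSys, hb0, ?_⟩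
  · obtain ⟨a, ha⟩ := hhk
    exact ⟨a + 1 - h, by omega⟩
  intro E q hE hq hq2 hIn hqn
  obtain ⟨hBT, hTy, hiff⟩ := hEADT h n m k π p e r f w0 c E q hNF hh hE hq hq2 hIn hqn
  have hA : ∀ i, AdT (BB h n E q) (b i) := fun i => (hiff _ (hAdC i).supp).1 (hAdC i)
  obtain ⟨hsk, hker⟩ := hTENT s τ b X Y P Q P' Q' (BB h n E q) hSys hSw hBT.toBG
    (fun i => (hA i).toAG) (hLam _ hTy) hb0
  refine ⟨hBT, hA, hsk, ?_⟩
  intro hXY
  have hn0 : 0 < n := by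
    rcases Nat.eq_zero_or_pos n with h0 | h0
    · exact absurd (by rw [h0]; exact dvd_zero q) hqn
    · exact h0
  have hq3 : q ≠ 3 := by
    rintro rfl
    norm_num at hq2
  have hH : HypT (BB h n E q) :=
    hHYPT h n m k π p e r f w0 c E q hNF hh hE hq hq2 hIn hqn hdet
  obtain ⟨a, x, hC⟩ := hFD1T (BB h n E q) hBT hH hXY
  obtain ⟨z, X1, Y1, hPt, hAz, hsupp, hcube⟩ := hFD2T h n E q a x hh hE hq hq3 hqn hn0 hBT hC
  obtain ⟨g, u, v, hu, hv, hg⟩ := hgen z ((hiff z hsupp).2 hAz)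
  obtain ⟨hex, X', Y', hPt'⟩ := pt_prod hPt hcube hu hv hg
  have hk := hker g X' Y' hex hPt'
  rw [← Matrix.exists_mulVec_eq_zero_iff]
  refine ⟨fun i => (g i : ZMod 3), ?_, ?_⟩
  · intro h1
    obtain ⟨i, hi⟩ := hex
    apply hi
    have h2 := congrFun h1 i
    exact (ZMod.natCast_eq_zero_iff (g i) 3).1 h2
  · ext j
    exact hk j

end Pool.Agent.PT3

end

section

/-!
# The law of the ranks of prime twists for every `n`: exponent vectors (module NVEC)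
-/

set_option autoImplicit false

open Finset

namespace Pool.Agent.PTN

open Pool.Agent.Lib_helper18 Pool.Agent.Lib_helper18.Eis Pool.Agent.Lib_helper84.Cub
open Pool.Agent.PT Pool.Agent.PTE Pool.Agent.PT3

namespace NVEC

/-- row `i.succ` of the product with a vector -/
theorem row_succ (h n : ℕ) {m k : ℕ} (π : Fin m → PP) (p e : Fin m → ℕ) (r : Fin k → ℕ)
    (w0 : ZMod 3) (c : Fin m → ZMod 3) (u : Col m k → ZMod 3) (i : Fin m) :
    ((Nm h n π p e r w0 c).mulVec u) i.succ =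
      (e i : ZMod 3) * (u (Sum.inl 0) * sym (π i).1 3) +
        (e i : ZMod 3) * (∑ i', u (Sum.inl i'.succ) *
          (if i' = i then sym (π i).1 (conj (π i).1) else sym (π i).1 (p i' : Eis))) +
        (e i : ZMod 3) * (∑ j, u (Sum.inr j) * sym (π i).1 (r j : Eis)) -
        u (Sum.inl i.succ) * (ch (π i).1 ((3 ^ h * n : ℕ) : Eis) + c i) := by
  have h1 : ((Nm h n π p e r w0 c).mulVec u) i.succ =
      ((e i : ZMod 3) * sym (π i).1 3 * u (Sum.inl 0) +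
        ∑ i', (if i' = i then (e i : ZMod 3) * sym (π i).1 (conj (π i).1) -
              ch (π i).1 ((3 ^ h * n : ℕ) : Eis) - c i
          else (e i : ZMod 3) * sym (π i).1 (p i' : Eis)) * u (Sum.inl i'.succ)) +
        ∑ j, (e i : ZMod 3) * sym (π i).1 (r j : Eis) * u (Sum.inr j) := by
    change ∑ b : Col m k, Nm h n π p e r w0 c i.succ b * u b = _
    rw [Fintype.sum_sum_type, Fin.sum_univ_succ]
    rfl
  have h2 : ∀ i' : Fin m, (if i' = i then (e i : ZMod 3) * sym (π i).1 (conj (π i).1) -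
              ch (π i).1 ((3 ^ h * n : ℕ) : Eis) - c i
          else (e i : ZMod 3) * sym (π i).1 (p i' : Eis)) * u (Sum.inl i'.succ) =
      (e i : ZMod 3) * (u (Sum.inl i'.succ) *
          (if i' = i then sym (π i).1 (conj (π i).1) else sym (π i).1 (p i' : Eis))) -
        (if i' = i then u (Sum.inl i'.succ) * (ch (π i).1 ((3 ^ h * n : ℕ) : Eis) + c i)
          else 0) := by
    intro i'
    split_ifs with h3
    · ring
    · ring
  rw [h1, Finset.sum_congr rfl fun i' _ => h2 i', Finset.sum_sub_distrib, ← Finset.mul_sum,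
    Finset.sum_ite_eq' Finset.univ i, if_pos (Finset.mem_univ i)]
  have h4 : ∑ j, (e i : ZMod 3) * sym (π i).1 (r j : Eis) * u (Sum.inr j) =
      (e i : ZMod 3) * (∑ j, u (Sum.inr j) * sym (π i).1 (r j : Eis)) := by
    rw [Finset.mul_sum]
    exact Finset.sum_congr rfl fun j _ => by ring
  rw [h4]
  ring

/-- row `0` of the product with a vector -/
theorem row_zero (h n : ℕ) {m k : ℕ} (π : Fin m → PP) (p e : Fin m → ℕ) (r : Fin k → ℕ)
    (w0 : ZMod 3) (c : Fin m → ZMod 3) (u : Col m k → ZMod 3) :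
    ((Nm h n π p e r w0 c).mulVec u) 0 =
      (∑ i, u (Sum.inl i.succ) * wt ((p i : ℤ) ^ 2)) +
        (∑ j, u (Sum.inr j) * wt ((r j : ℤ) ^ 2)) +
        u (Sum.inl 0) * (wt ((n : ℤ) ^ 2) + w0) := by
  have h1 : ((Nm h n π p e r w0 c).mulVec u) 0 =
      ((wt ((n : ℤ) ^ 2) + w0) * u (Sum.inl 0) +
        ∑ i : Fin m, wt ((p i : ℤ) ^ 2) * u (Sum.inl i.succ)) +
        ∑ j : Fin k, wt ((r j : ℤ) ^ 2) * u (Sum.inr j) := by
    change ∑ b : Col m k, Nm h n π p e r w0 c 0 b * u b = _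
    rw [Fintype.sum_sum_type, Fin.sum_univ_succ]
    rfl
  rw [h1, Finset.sum_congr rfl fun i _ => mul_comm (wt ((p i : ℤ) ^ 2)) (u (Sum.inl i.succ)),
    Finset.sum_congr rfl fun j _ => mul_comm (wt ((r j : ℤ) ^ 2)) (u (Sum.inr j))]
  ring

end NVEC

theorem NVEC_thm (hEVET : EVET) (hSPP : SPP) : Stmt_NVEC := by
  intro h n m k π p e r f w0 c hN hh
  obtain ⟨hE1, hE2⟩ := hEVET h n m k π p e r f w0 c hN
  refine ⟨fun x hx hs => ?_, fun x x' hx hx' hs hs' => ?_, fun u => ?_⟩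
  · obtain ⟨hA, hW⟩ := hE1 x hx hs
    have hr : ∀ i : Fin m, ((Nm h n π p e r w0 c).mulVec (exv p r x)) i.succ =
        (e i : ZMod 3) * (lv x * sym (π i).1 3) +
        (e i : ZMod 3) * (∑ i', (padicValInt (p i') x : ZMod 3) *
          (if i' = i then sym (π i).1 (conj (π i).1) else sym (π i).1 (p i' : Eis))) +
        (e i : ZMod 3) * (∑ j, (padicValInt (r j) x : ZMod 3) * sym (π i).1 (r j : Eis)) -
        (padicValInt (p i) x : ZMod 3) * (ch (π i).1 ((3 ^ h * n : ℕ) : Eis) + c i) := by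
      intro i
      rw [NVEC.row_succ]
      rfl
    have h0 : ((Nm h n π p e r w0 c).mulVec (exv p r x)) 0 =
        (∑ i, (padicValInt (p i) x : ZMod 3) * wt ((p i : ℤ) ^ 2)) +
        (∑ j, (padicValInt (r j) x : ZMod 3) * wt ((r j : ℤ) ^ 2)) +
        lv x * (wt ((n : ℤ) ^ 2) + w0) := by
      rw [NVEC.row_zero]
      rfl
    have hv : exv p r x (Sum.inl 0) = lv x := rfl
    change (AdC h n π w0 c x ∧ (h = 0 → lv x = 0 ∧ (wt ((n : ℤ) ^ 2) + w0 = 0 → lw x = 0))) ↔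
      (∀ i : Fin m, ((Nm h n π p e r w0 c).mulVec (exv p r x)) i.succ = 0) ∧
        (actR h n w0 → ((Nm h n π p e r w0 c).mulVec (exv p r x)) 0 = 0) ∧
        (h = 0 → exv p r x (Sum.inl 0) = 0)
    rw [hA, h0, hv]
    constructor
    · rintro ⟨⟨h1, h2⟩, h3⟩
      refine ⟨fun i => by rw [hr i]; exact h1 i, ?_, fun h4 => (h3 h4).1⟩
      rintro (h5 | ⟨h5, h6⟩)
      · exact h2 h5
      · rw [h6, mul_zero, add_zero, ← hW]
        exact (h3 h5).2 h6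
    · rintro ⟨h1, h2, h3⟩
      refine ⟨⟨fun i => by rw [← hr i]; exact h1 i, fun h4 => h2 (Or.inl h4)⟩, fun h4 =>
        ⟨h3 h4, fun h5 => ?_⟩⟩
      have h6 := h2 (Or.inr ⟨h4, h5⟩)
      rw [h5, mul_zero, add_zero, ← hW] at h6
      exact h6
  · rw [hE2 x x' hx hx' hs hs']
    constructor
    · rintro ⟨h1, h2, h3⟩
      funext b
      rcases b with b | j
      · refine Fin.cases ?_ (fun i => ?_) b
        · exact h1
        · exact h2 i
      · exact h3 j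
    · intro h1
      exact ⟨congrFun h1 (Sum.inl 0), fun i => congrFun h1 (Sum.inl i.succ),
        fun j => congrFun h1 (Sum.inr j)⟩
  · set v : EBAT.EVT m k := (u (Sum.inl 0), ((fun i => u (Sum.inl i.succ)), fun j => u (Sum.inr j)))
      with hv
    have hev := EBAT.evT_toT hN v
    refine ⟨EBAT.toT p r v, EBAT.toT_ne hN v, EBAT.supp_toT hN v, ?_, EBAT.V_toT_le hSPP hN v,
      fun h1 => EBAT.three_toT hN v h1⟩
    funext b
    rcases b with b | j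
    · refine Fin.cases ?_ (fun i => ?_) b
      · exact congrArg Prod.fst hev
      · exact congrFun (congrArg (fun z : EBAT.EVT m k => z.2.1) hev) i
    · exact congrFun (congrArg (fun z : EBAT.EVT m k => z.2.2) hev) j

end Pool.Agent.PTN

end

section

/-!
# PTK_SYK: the system for a vector `y` and independent vectors of `V0`
-/

set_option autoImplicit false

open NumberField IsDedekindDomain Finset
open scoped nonZeroDivisors Pointwise

namespace Pool.Agent.PTK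

open Pool.Agent.Lib_helper18 Pool.Agent.Lib_helper18.Eis Pool.Agent.Lib_helper84.Cub
open Pool.Agent.PT Pool.Agent.PTE Pool.Agent.PT3 Pool.Agent.PTL Pool.Agent.PTN

namespace SYK

variable {n m k : ℕ} {π : Fin m → PP} {p e : Fin m → ℕ} {r f : Fin k → ℕ}

/-- exchange of the base and the norm -/
theorem swap {b x P Q P' Q' : Eis} (h : SolE b x P Q P' Q') :
    SolE x b P (-P') (-Q) Q' where
  eq := by
    have := h.eq
    linear_combination this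
  n1 := by
    intro h0
    exact h.n2 (by linear_combination h0)
  n2 := by
    intro h0
    exact h.n1 (by linear_combination h0)
  g1 := by
    intro h0
    apply h.g1
    unfold GfE at h0 ⊢
    linear_combination h0
  g2 := by
    intro h0
    apply h.g2
    unfold GfE at h0 ⊢
    linear_combination h0

theorem natEis_ne {a : ℕ} (ha : a ≠ 0) : (a : Eis) ≠ 0 := by
  intro h0
  have := congrArg Eis.re h0
  simp only [natCast_re, zero_re] at this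
  exact ha (by exact_mod_cast this)

theorem lam_two : ¬ lam ∣ (2 : Eis) := by
  rintro ⟨t, ht⟩
  have h1 := congrArg Eis.norm ht
  rw [norm_mul] at h1
  have h2 : (2 : Eis).norm = 4 := by
    have : (2 : Eis) = ((2 : ℕ) : Eis) := by push_cast; rfl
    rw [this, norm_natCast]
    norm_num
  have h3 : lam.norm = 3 := by
    simp [Eis.norm, lam]
  rw [h2, h3] at h1
  omega

/-- `b` is a local cube at `λ` -/
theorem lc (hLCI : Stmt_LCI) {b : Eis} (h : lam ^ 4 ∣ b ^ 2 - 1) : LCE lam b := by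
  have h1 : lam ^ 4 ∣ (b - 1) * (b + 1) := by
    have : b ^ 2 - 1 = (b - 1) * (b + 1) := by ring
    rwa [this] at h
  have h0 : ¬ lam ∣ (1 : Eis) := fun h2 => prime_lam.not_isUnit (isUnit_of_dvd_one h2)
  by_cases h2 : lam ∣ b - 1
  · have h3 : ¬ lam ∣ b + 1 := fun h3 => lam_two (by
      have h4 := dvd_sub h3 h2
      have h5 : b + 1 - (b - 1) = 2 := by ring
      rwa [h5] at h4)
    have h4 : lam ^ 4 ∣ b - 1 := prime_lam.pow_dvd_of_dvd_mul_right 4 h3 h1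
    refine hLCI.2.1 b 1 1 h0 h0 ?_
    have h5 : b * 1 ^ 3 - 1 ^ 3 = b - 1 := by ring
    rw [h5]
    exact h4
  · have h4 : lam ^ 4 ∣ b + 1 := prime_lam.pow_dvd_of_dvd_mul_left 4 h2 h1
    refine hLCI.2.1 b (-1) 1 (fun h5 => h0 (by simpa using h5)) h0 ?_
    have h5 : b * 1 ^ 3 - (-1) ^ 3 = b + 1 := by ring
    rw [h5]
    exact h4

/-- the valuations of `n` -/
theorem Vn_le (hSPP : SPP) (hn : NF n π p e r f) (σ : PP) : V σ.1 (n : Eis) ≤ 2 := by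
  by_cases hd : σ.1 ∣ (n : Eis)
  · rcases HYPS.cls hSPP hn σ.2.1 hd with ⟨i, h1 | h1⟩ | ⟨j, h1⟩
    · rw [EHYP.V_assoc h1, EHYP.V_n_i hSPP hn i]
      have := hn.pe i
      omega
    · have h2 := EHYP.V_conj (π i).2.1 (HYPS.n_ne0 hn)
      rw [conj_natCast] at h2
      rw [EHYP.V_assoc h1, h2, EHYP.V_n_i hSPP hn i]
      have := hn.pe i
      omega
    · rw [EHYP.V_assoc h1, EHYP.V_n_j hSPP hn j]
      have := hn.rf j
      omega
  · rw [V_eq_zero hd]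
    exact Nat.zero_le _

theorem VN_le (hSPP : SPP) (hn : NF n π p e r f) (h : ℕ) (σ : PP) :
    V σ.1 ((3 ^ h * n : ℕ) : Eis) ≤ 2 := by
  have h3 : (3 : Eis) ≠ 0 := HYPT.three_ne
  push_cast
  rw [V_mul σ.2.1 (pow_ne_zero _ h3) (HYPS.n_ne0 hn), V_pow σ.2.1 h3,
    V_eq_zero (hSPP.2.2.2.1 σ).1, mul_zero, zero_add]
  exact Vn_le hSPP hn σ

end SYK

open _root_.Pool.Agent.PTK.SYK in
theorem SYK_thm (hSPP : SPP) (hLCI : Stmt_LCI) (hHNE : Stmt_HNE) (hZA : Stmt_ZA) (hZI : Stmt_ZI)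
    (hZL : Stmt_ZL) (hZT : Stmt_ZT) : Stmt_SYK := by
  intro h n m k π p e r f w0 c hn hh y hy s u hu hli
  have hy0 : y ≠ 0 := by
    have := hli.ne_zero 0
    simpa using this
  have hu0 : ∀ j, u j ≠ 0 := fun j => by
    have := hli.ne_zero j.succ
    simpa using this
  have hAy := hZA n m k π p e r f hn y
  have hAu := fun j => hZA n m k π p e r f hn (u j)
  have hL : ∀ j, lam ^ 4 ∣ zN π e (u j) ^ 2 - 1 := fun j =>
    hZL n m k π p e r f hn (u j) (hu j).2.1 (hu j).2.2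
  have hcy : ¬ ∃ c : Eis, c ^ 3 = zN π e y := fun h1 => hy0 (hAy.2.2.2.2.2.2.2.2.2 h1)
  have hcu : ∀ j, ¬ ∃ c : Eis, c ^ 3 = zN π e (u j) := fun j h1 =>
    hu0 j ((hAu j).2.2.2.2.2.2.2.2.2 h1)
  have hT := fun j => hZT h n m k π p e r f w0 c hn hh (u j) (hu j).1 y hy
  have hsol : ∀ j, ∃ P Q P' Q' : Eis, SolE (zN π e (u j)) (zN π e y) P Q P' Q' := fun j =>
    hHNE (zN π e (u j)) (zN π e y) (hAu j).1 (hL j) (hcu j) (hAu j).2.2.2.2.1 hAy.1 hcy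
      (hT j).1 (hT j).2
  choose P Q P' Q' hS using hsol
  refine ⟨P, fun j => - P' j, fun j => - Q j, Q', ⟨?_, fun j => swap (hS j), hAy.2.2.1,
    fun j => (hAu j).2.2.1⟩, fun j => ⟨?_, swap (hS j), (hAu j).1, hAy.1, lc hLCI (hL j), ?_,
    VN_le hSPP hn h⟩⟩
  · rintro c₀ d hcd ⟨t, ht⟩
    have h1 : ∑ i, ((Fin.cons c₀ d : Fin (s + 1) → ℕ) i : ZMod 3) •
        (Fin.cons y u : Fin (s + 1) → Fin (m + 1) → ZMod 3) i = 0 := by
      refine hZI n m k π p e r f hn (s + 1) _ _ ⟨t, ?_⟩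
      rw [Fin.prod_univ_succ]
      simpa using ht
    have h2 := Fintype.linearIndependent_iff.1 hli _ h1
    rcases hcd with h3 | ⟨i, h3⟩
    · exact h3 ((ZMod.natCast_eq_zero_iff _ 3).1 (by simpa using h2 0))
    · exact h3 ((ZMod.natCast_eq_zero_iff _ 3).1 (by simpa using h2 i.succ))
  · have := EHYP.n_ne hn
    positivity
  · intro σ hσ
    have h1 : ¬ σ.1 ∣ (n : Eis) := fun h2 => hσ (by
      push_cast
      exact Dvd.dvd.mul_left h2 _)
    exact ⟨(hAu j).2.2.2.1 σ h1, hAy.2.2.2.1 σ h1⟩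

end Pool.Agent.PTK

end

section

/-!
# PTK_F7U: the local term of a point at a tame place where `x` has valuation divisible by `3` and is
not a cube.
-/

set_option autoImplicit false

namespace Pool.Agent.PTK

open Pool.Agent.Lib_helper18 Pool.Agent.Lib_helper18.Eis Pool.Agent.Lib_helper84.Cub
open Pool.Agent.PT

theorem F7U_thm (hSTM : STM) : Stmt_F7U := by
  intro π b x p q p' q' X Y hb hx hs hX hY hD hV hc
  have h3 := Pool.Agent.PT.F7U.pp_not_dvd_three π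
  have hπ := π.2.1
  have S := hSTM π.1 hπ h3
  have hN2 : x * q' ^ 3 - q ^ 3 ≠ 0 := by
    intro h
    apply hs.n2
    have e : p ^ 3 - x * p' ^ 3 = b * (x * q' ^ 3 - q ^ 3) := by linear_combination hs.eq
    rw [e, h, mul_zero]
  have h1 := Pool.Agent.PT.F7U.half hπ h3 S x X Y p p' hx hV hc hX hY hs.n2 hD.d1 hD.d2
  have hqE : q ^ 3 - x * q' ^ 3 ≠ 0 := by
    intro h
    apply hN2
    linear_combination -h
  have h2 := Pool.Agent.PT.F7U.half hπ h3 S x X Y q q' hx hV hc hX hY hqE hD.d3 hD.d4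
  have hneg : ∀ D : Eis, tm π.1 D (x * q' ^ 3 - q ^ 3) = tm π.1 D (q ^ 3 - x * q' ^ 3) := by
    intro D
    have e : x * q' ^ 3 - q ^ 3 = -(q ^ 3 - x * q' ^ 3) := by ring
    rw [e]
    unfold tm
    rw [V_neg, Pool.Agent.PT.F7U.ch_neg hπ h3 S hqE]
  unfold SVE DfE
  rw [hneg, hneg, h1, h2, sub_zero]

end Pool.Agent.PTK

end

section

/-!
# PTK_DCK: the relation for the Frobenius invariant of `Q`
-/

set_option autoImplicit false

namespace Pool.Agent.PTK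

open Pool.Agent.Lib_helper18 Pool.Agent.Lib_helper18.Eis Pool.Agent.Lib_helper84.Cub
open Pool.Agent.PT

namespace DCK

open DPA

lemma nat_ne {n : ℕ} (h : n ≠ 0) : (n : Eis) ≠ 0 := by
  have h2 : ((n : ℤ) : Eis) ≠ 0 := DCONST.cast_ne (by omega)
  rwa [Int.cast_natCast] at h2

lemma dvd_natAbs_norm (a : Eis) : a ∣ ((a.norm.natAbs : ℕ) : Eis) := by
  have h1 : ((a.norm.natAbs : ℕ) : ℤ) = a.norm := Int.natAbs_of_nonneg (norm_nonneg a)
  have h2 : ((a.norm.natAbs : ℕ) : Eis) = ((a.norm : ℤ) : Eis) := by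
    rw [← h1, Int.cast_natCast]
    simp
  rw [h2, ← mul_conj]
  exact Dvd.intro _ rfl

/-- the forms of a point do not vanish -/
lemma dne_aux {π : PP} {E : ℕ} (hE : E = 1 ∨ E = 2) {B N c x X Y u v : Eis}
    (hB : B = N * π.1 ^ E) (hN : ¬ π.1 ∣ N) (hx : ¬ π.1 ∣ x) (hc : c ≠ 0) (hY : Y ≠ 0)
    (hpt : x * (X ^ 3 + x * Y ^ 3) = B * c ^ 3) (hM : ¬ π.1 ∣ v ^ 3 + x * u ^ 3)
    (i : ℕ) : X * u - w ^ i * v * Y ≠ 0 := by
  intro h0
  have hM0 : v ^ 3 + x * u ^ 3 ≠ 0 := DCONST.ne_of_ndvd hM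
  have hw := w_pow3 i
  have h1 : X ^ 3 * u ^ 3 = v ^ 3 * Y ^ 3 := by
    have h2 : (X * u) ^ 3 = (w ^ i * v * Y) ^ 3 := by rw [sub_eq_zero.1 h0]
    linear_combination h2 + (v ^ 3 * Y ^ 3) * hw
  have hu : u ≠ 0 := by
    rintro rfl
    have h3 : v ^ 3 * Y ^ 3 = 0 := by rw [← h1]; ring
    rcases mul_eq_zero.1 h3 with h4 | h4
    · apply hM0
      rw [h4]
      ring
    · exact hY (pow_eq_zero_iff (by norm_num) |>.1 h4)
  have h5 : B * (c * u) ^ 3 = x * Y ^ 3 * (v ^ 3 + x * u ^ 3) := by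
    linear_combination (- u ^ 3) * hpt + x * h1
  have hπ := π.2.1
  have hN0 : N ≠ 0 := DCONST.ne_of_ndvd hN
  have hx0 : x ≠ 0 := DCONST.ne_of_ndvd hx
  have hcu : c * u ≠ 0 := mul_ne_zero hc hu
  have hB0 : B ≠ 0 := by
    rw [hB]
    exact mul_ne_zero hN0 (pow_ne_zero _ hπ.ne_zero)
  have h6 := congrArg (V π.1) h5
  rw [V_mul hπ hB0 (pow_ne_zero _ hcu), V_pow hπ hcu,
    V_mul hπ (mul_ne_zero hx0 (pow_ne_zero _ hY)) hM0, V_mul hπ hx0 (pow_ne_zero _ hY),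
    V_pow hπ hY, V_eq_zero hx, V_eq_zero hM, hB,
    V_mul_not_dvd hπ hN (pow_ne_zero _ hπ.ne_zero), V_pow hπ hπ.ne_zero, V_self] at h6
  omega

end DCK

open DPA _root_.Pool.Agent.PTK.DCK in
/-- PTK_DCK. -/
theorem DCK_thm (hSPP : SPP) (hDP1 : Stmt_DP1) (hDP2 : Stmt_DP2) (hDP3 : Stmt_DP3)
    (hDP4 : Stmt_DP4) (hSVF : Stmt_SVF) : Stmt_DCK := by
  intro N b x p q p' q' HD
  have hn1 := HD.sol.n1
  have hn2 := SolE_n1' HD.sol
  obtain ⟨m1, hm1⟩ : ∃ m : ℕ, m = (p ^ 3 + x * q ^ 3).norm.natAbs := ⟨_, rfl⟩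
  obtain ⟨m2, hm2⟩ : ∃ m : ℕ, m = (p' ^ 3 + x * q' ^ 3).norm.natAbs := ⟨_, rfl⟩
  have hm1d : p ^ 3 + x * q ^ 3 ∣ (m1 : Eis) := by rw [hm1]; exact dvd_natAbs_norm _
  have hm2d : p' ^ 3 + x * q' ^ 3 ∣ (m2 : Eis) := by rw [hm2]; exact dvd_natAbs_norm _
  have hm1p : 0 < m1 := by
    rw [hm1]
    exact Int.natAbs_pos.2 (norm_pos hn1).ne'
  have hm2p : 0 < m2 := by
    rw [hm2]
    exact Int.natAbs_pos.2 (norm_pos hn2).ne'
  obtain ⟨M, hMdef⟩ : ∃ M : ℕ, M = N * m1 * m2 := ⟨_, rfl⟩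
  have hMp : 0 < M := by
    rw [hMdef]
    exact Nat.mul_pos (Nat.mul_pos HD.N0 hm1p) hm2p
  have hMe : (M : Eis) = (N : Eis) * (m1 : Eis) * (m2 : Eis) := by
    rw [hMdef]
    push_cast
    ring
  have hM0 : (M : Eis) ≠ 0 := nat_ne hMp.ne'
  have dN : (N : Eis) ∣ (M : Eis) := by
    rw [hMe, mul_assoc]
    exact Dvd.intro _ rfl
  have d1 : p ^ 3 + x * q ^ 3 ∣ (M : Eis) := by
    rw [hMe]
    exact dvd_mul_of_dvd_left (dvd_mul_of_dvd_right hm1d _) _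
  have d2 : p' ^ 3 + x * q' ^ 3 ∣ (M : Eis) := by
    rw [hMe]
    exact dvd_mul_of_dvd_right hm2d _
  have hfin := hSPP.2.2.1 (M : Eis) hM0
  refine ⟨9 * M, by omega, ?_⟩
  intro f hf0 hf
  have h9 : 9 ∣ f := (Dvd.intro _ rfl).trans hf
  have hf1 : 1 < f := by
    have := Nat.le_of_dvd hf0 h9
    omega
  have hMf : M ∣ f := (Dvd.intro_left 9 rfl).trans hf
  have hMfe : (M : Eis) ∣ (f : Eis) := by
    obtain ⟨k, hk⟩ := hMf
    rw [hk]
    push_cast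
    exact Dvd.intro _ rfl
  obtain ⟨C₀, Φ₀, H₀⟩ := hDP2 N b x p q p' q' HD f hf1 h9
  have hpl : ∀ π : PP, ∃ (c : ZMod 3) (Φ : (ZMod f)ˣ →* Multiplicative (ZMod 3)),
      π.1 ∣ (M : Eis) → ∀ (E Q : ℕ) (hQ : Q.Coprime f) (X Y : Eis),
        HypP N b x p q p' q' E Q X Y →
        SVE (tm π.1) x p (-p') (-q) q' X Y = c + E * (Φ (ZMod.unitOfCoprime Q hQ)).toAdd := by
    intro π
    by_cases hπM : π.1 ∣ (M : Eis)
    · obtain ⟨C, Φ, H⟩ := hDP1 N b x p q p' q' HD π f hf1 (hπM.trans hMfe)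
      exact ⟨C, Φ, fun _ => H⟩
    · exact ⟨0, 1, fun h => absurd h hπM⟩
  choose c Φ H using hpl
  refine ⟨C₀ + ∑ π ∈ hfin.toFinset, c π, Φ₀ * ∏ π ∈ hfin.toFinset, Φ π, 0, ?_⟩
  intro E Q hQ hE hQp _ hQ3 hsb hsx X Y ξ hpt hξ
  obtain ⟨πQ, hπQ⟩ := hSPP.2.2.2.2.1 Q hQp hQ3
  have hQM : ¬ πQ.1 ∣ (M : Eis) := by
    intro h
    rw [hπQ] at h
    have h1 : ((Q : ℤ) : Eis) ∣ ((M : ℤ) : Eis) := by
      rw [Int.cast_natCast, Int.cast_natCast]
      exact h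
    have h2 : Q ∣ M := Int.natCast_dvd_natCast.1 (intCast_dvd_intCast.1 h1)
    have h3 := Nat.Coprime.eq_one_of_dvd hQ (h2.trans hMf)
    exact hQp.one_lt.ne' h3
  have hQN : ¬ πQ.1 ∣ (N : Eis) := fun h => hQM (h.trans dN)
  obtain ⟨hQb, hQx⟩ := HD.unr πQ hQN
  obtain ⟨k, hk, hkE⟩ := hpt.eq
  have hBe : (N : Eis) * (Q : Eis) ^ E = (N : Eis) * πQ.1 ^ E := by rw [hπQ]
  have hdn : DNE X Y p (-p') (-q) q' := by
    have hA := fun i => dne_aux (π := πQ) hE (X := X) (Y := Y) (u := q) (v := p) hBe hQN hQx hk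
      hpt.hY hkE (fun h => hQM (h.trans d1)) i
    have hA' := fun i => dne_aux (π := πQ) hE (X := X) (Y := Y) (u := q') (v := p') hBe hQN hQx hk
      hpt.hY hkE (fun h => hQM (h.trans d2)) i
    refine ⟨?_, ?_, ?_, ?_⟩
    · intro h
      apply hA 1
      unfold DfE at h
      linear_combination - h
    · intro h
      apply hA 2
      unfold DfE at h
      linear_combination - h
    · intro h
      apply hA' 1
      unfold DfE at h
      linear_combination h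
    · intro h
      apply hA' 2
      unfold DfE at h
      linear_combination h
  have HP : HypP N b x p q p' q' E Q X Y := ⟨hE, hQp, hsb, hsx, hpt, hdn⟩
  have hn0 := n0_ne HD HP
  obtain ⟨-, hsum0⟩ := hSVF b x p (-p') (-q) q' X Y HD.hb HD.hx (SolE_flip HD.sol) hpt.hX hpt.hY
    hn0 hdn
  -- the place `Q`
  have hTQ : SVE (tm πQ.1) x p (-p') (-q) q' X Y = - (E * TAUE Q p q p' q' ξ) := by
    refine hDP4 N b x p q p' q' HD πQ E Q X Y ξ HP hQ3 hπQ hQN ?_ hξ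
    intro h
    rcases πQ.2.1.dvd_or_dvd h with h1 | h1
    · exact hQM (h1.trans d1)
    · exact hQM (h1.trans d2)
  -- the sum
  have hQS : πQ ∉ hfin.toFinset := by
    rw [Set.Finite.mem_toFinset]
    exact hQM
  classical
  have hsupp : (Function.support fun v : Pl => SVE (sy v) x p (-p') (-q) q' X Y) ⊆
      ((insert none (insert (some πQ) (hfin.toFinset.image some)) : Finset Pl) : Set Pl) := by
    intro v hv
    by_contra hnv
    apply hv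
    rcases v with _ | π
    · exact absurd (Finset.mem_coe.2 (Finset.mem_insert_self _ _)) hnv
    · have hnM : ¬ π.1 ∣ (M : Eis) := by
        intro h
        apply hnv
        rw [Finset.mem_coe]
        refine Finset.mem_insert_of_mem (Finset.mem_insert_of_mem (Finset.mem_image_of_mem _ ?_))
        rw [Set.Finite.mem_toFinset]
        exact h
      have hπne : π ≠ πQ := by
        rintro rfl
        apply hnv
        rw [Finset.mem_coe]
        exact Finset.mem_insert_of_mem (Finset.mem_insert_self _ _)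
      have hπQnd : ¬ π.1 ∣ (Q : Eis) := by
        rw [← hπQ]
        intro h
        exact hπne (hSPP.2.1 π πQ (π.2.1.associated_of_dvd πQ.2.1 h))
      refine hDP3 N b x p q p' q' HD π E Q X Y HP (fun h => hnM (h.trans dN)) hπQnd ?_
      intro h
      rcases π.2.1.dvd_or_dvd h with h1 | h1
      · exact hnM (h1.trans d1)
      · exact hnM (h1.trans d2)
  have hn_notin : (none : Pl) ∉ insert (some πQ) (hfin.toFinset.image some) := by
    simp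
  have hQ_notin : (some πQ : Pl) ∉ hfin.toFinset.image some := by
    intro h
    obtain ⟨y, hy, hy'⟩ := Finset.mem_image.1 h
    rw [Option.some.injEq] at hy'
    rw [hy'] at hy
    exact hQS hy
  have hsum : ∑ π ∈ hfin.toFinset, SVE (sy (some π)) x p (-p') (-q) q' X Y =
      ∑ π ∈ hfin.toFinset, (c π + E * (Φ π (ZMod.unitOfCoprime Q hQ)).toAdd) := by
    refine Finset.sum_congr rfl ?_
    intro π hπ
    rw [Set.Finite.mem_toFinset] at hπ
    exact H π hπ E Q hQ X Y HP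
  rw [finsum_eq_sum_of_support_subset _ hsupp, Finset.sum_insert hn_notin,
    Finset.sum_insert hQ_notin, Finset.sum_image (fun _ _ _ _ h => Option.some_injective _ h),
    hsum] at hsum0
  have e1 : SVE (sy none) x p (-p') (-q) q' X Y =
      C₀ + E * (Φ₀ (ZMod.unitOfCoprime Q hQ)).toAdd := H₀ E Q hQ X Y HP
  have e2 : SVE (sy (some πQ)) x p (-p') (-q) q' X Y = - (E * TAUE Q p q p' q' ξ) := hTQ
  rw [e1, e2, Finset.sum_add_distrib, ← Finset.mul_sum] at hsum0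
  rw [MonoidHom.mul_apply, MonoidHom.finsetProd_apply, toAdd_mul, toAdd_prod]
  linear_combination hsum0

end Pool.Agent.PTK

end

section

/-!
# PTK_MSY: the system of a test configuration
-/

set_option autoImplicit false

open NumberField IsDedekindDomain Finset
open scoped nonZeroDivisors Pointwise

namespace Pool.Agent.PTK

open Pool.Agent.Lib_helper18 Pool.Agent.Lib_helper18.Eis Pool.Agent.Lib_helper84.Cub
open Pool.Agent.PT Pool.Agent.PTE Pool.Agent.PT3 Pool.Agent.PTL Pool.Agent.PTN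

namespace MSY

variable {h n m k : ℕ} {π : Fin m → PP} {p e : Fin m → ℕ} {r f : Fin k → ℕ}
  {w0 : ZMod 3} {c : Fin m → ZMod 3}

/-- the solution with the base in `V0` -/
theorem sol (hHNE : Stmt_HNE) (hZA : Stmt_ZA) (hZL : Stmt_ZL) (hZT : Stmt_ZT)
    (hn : NF n π p e r f) (hh : h ≤ 2) {u y : Fin (m + 1) → ZMod 3}
    (hu : u ∈ V0 h n π p e r w0 c) (hy : y ∈ VS h n π p e r w0 c) (hu0 : u ≠ 0) (hy0 : y ≠ 0) :
    ∃ P Q P' Q' : Eis, SolE (zN π e u) (zN π e y) P Q P' Q' := by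
  have hAy := hZA n m k π p e r f hn y
  have hAu := hZA n m k π p e r f hn u
  have hL := hZL n m k π p e r f hn u hu.2.1 hu.2.2
  have hcy : ¬ ∃ c : Eis, c ^ 3 = zN π e y := fun h1 => hy0 (hAy.2.2.2.2.2.2.2.2.2 h1)
  have hcu : ¬ ∃ c : Eis, c ^ 3 = zN π e u := fun h1 => hu0 (hAu.2.2.2.2.2.2.2.2.2 h1)
  have hT := hZT h n m k π p e r f w0 c hn hh u hu.1 y hy
  exact hHNE (zN π e u) (zN π e y) hAu.1 hL hcu hAu.2.2.2.2.1 hAy.1 hcy hT.1 hT.2

/-- `V0 = VS` for `h = 1` -/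
theorem V0_eq (hVDIM : Stmt_VDIM) {y : Fin (m + 1) → ZMod 3} (h1 : h = 1)
    (hy : y ∈ VS h n π p e r w0 c) : y ∈ V0 h n π p e r w0 c := by
  have h2 := hVDIM h n m k π p e r w0 c (by omega)
  have h3 : dN h n w0 = 0 := by simp [dN, h1]
  rw [h3, add_zero] at h2
  have hle : V0 h n π p e r w0 c ≤ VS h n π p e r w0 c := fun x hx => hx.1
  have h4 : V0 h n π p e r w0 c = VS h n π p e r w0 c :=
    Submodule.eq_of_le_of_finrank_le hle h2
  rw [h4]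
  exact hy

end MSY

open _root_.Pool.Agent.PTK.MSY in
theorem MSY_thm (hSPP : SPP) (hLCI : Stmt_LCI) (hHNE : Stmt_HNE) (hZA : Stmt_ZA) (hZI : Stmt_ZI)
    (hZL : Stmt_ZL) (hZT : Stmt_ZT) (hVDIM : Stmt_VDIM) : Stmt_MSY := by
  intro h n m k π p e r f w0 c hn hh M N y α β hT
  have hy0 : ∀ i, y i ≠ 0 := fun i => hT.ind.ne_zero i
  have hA := fun i => hZA n m k π p e r f hn (y i)
  have hN0 : 0 < 3 ^ h * n := by
    have := EHYP.n_ne hn
    positivity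
  have hunr : ∀ (i : Fin M) (σ : PP), ¬ σ.1 ∣ ((3 ^ h * n : ℕ) : Eis) → ¬ σ.1 ∣ zN π e (y i) := by
    intro i σ hσ
    refine (hA i).2.2.2.1 σ fun h2 => hσ ?_
    push_cast
    exact Dvd.dvd.mul_left h2 _
  have hL : ∀ i, y i ∈ V0 h n π p e r w0 c → LCE lam (zN π e (y i)) := fun i hi =>
    SYK.lc hLCI (hZL n m k π p e r f hn (y i) hi.2.1 hi.2.2)
  have hpair : ∀ j : Fin N, ∃ P Q P' Q' : Eis,
      SolE (zN π e (y (α j))) (zN π e (y (β j))) P Q P' Q' ∧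
      (HypD (3 ^ h * n) (zN π e (y (β j))) (zN π e (y (α j))) P Q P' Q' ∨
        (h ≠ 1 ∧ HypX (3 ^ h * n) (zN π e (y (β j))) (zN π e (y (α j))) P Q P' Q')) := by
    intro j
    by_cases hβ : y (β j) ∈ V0 h n π p e r w0 c
    · obtain ⟨P, Q, P', Q', hs⟩ := sol hHNE hZA hZL hZT hn hh hβ (hT.mem (α j)) (hy0 _) (hy0 _)
      have hs' := SYK.swap hs
      exact ⟨P, -P', -Q, Q', hs', Or.inl ⟨hN0, hs', (hA _).1, (hA _).1, hL _ hβ,
        fun σ hσ => ⟨hunr _ σ hσ, hunr _ σ hσ⟩, SYK.VN_le hSPP hn h⟩⟩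
    · have hα : y (α j) ∈ V0 h n π p e r w0 c := (hT.wl j).resolve_right hβ
      obtain ⟨P, Q, P', Q', hs⟩ := sol hHNE hZA hZL hZT hn hh hα (hT.mem (β j)) (hy0 _) (hy0 _)
      exact ⟨P, Q, P', Q', hs, Or.inr ⟨fun h1 => hβ (V0_eq hVDIM h1 (hT.mem _)),
        ⟨hN0, hs, (hA _).1, (hA _).1, hL _ hα, (hA _).2.1, (hA _).2.2.1,
          fun σ hσ => ⟨hunr _ σ hσ, hunr _ σ hσ⟩, SYK.VN_le hSPP hn h⟩⟩⟩
  choose P Q P' Q' hs hH using hpair
  refine ⟨P, Q, P', Q', ⟨?_, fun i => (hA i).2.2.1, hT.lt, hT.inj, hs⟩, hH⟩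
  rintro d ⟨i, hi⟩ hd
  have h1 := hZI n m k π p e r f hn M y d hd
  have h2 := Fintype.linearIndependent_iff.1 hT.ind (fun i => (d i : ZMod 3)) h1 i
  exact hi ((ZMod.natCast_eq_zero_iff _ 3).1 h2)

end Pool.Agent.PTK

end

section

/-!
# PTK_DCKU: the relation for the Frobenius invariant of `Q`, `Q = 1 (mod 3)`
-/

set_option autoImplicit false

namespace Pool.Agent.PTK

open Pool.Agent.Lib_helper18 Pool.Agent.Lib_helper18.Eis Pool.Agent.Lib_helper84.Cub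
open Pool.Agent.PT

namespace DCKU

/-- a place above a split prime is not associated to its conjugate -/
lemma not_assoc (hSPP : SPP) {ρ : PP} {Q : ℕ} (hQ : Q.Prime)
    (hρ : (Q : Eis) = ρ.1 * conj ρ.1) : ¬ Associated ρ.1 (conj ρ.1) := by
  obtain ⟨l, hl, ⟨-, h2⟩ | ⟨-, -, -, h3⟩⟩ := hSPP.2.2.2.2.2 ρ
  · exfalso
    rw [mul_conj, h2, norm_natCast] at hρ
    have h4 : ((Q : ℤ) : Eis) = (((l : ℤ) ^ 2 : ℤ) : Eis) := by
      rw [Int.cast_natCast]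
      exact hρ
    have h5 := congrArg Eis.re h4
    rw [intCast_re, intCast_re] at h5
    have h6 : Q = l ^ 2 := by exact_mod_cast h5
    rw [h6] at hQ
    exact Nat.Prime.not_prime_pow (le_refl 2) hQ
  · exact h3

end DCKU

open DPA DCK _root_.Pool.Agent.PTK.DCKU in
/-- PTK_DCKU. -/
theorem DCKU_thm (hSPP : SPP) (hDP1 : Stmt_DP1) (hDP2 : Stmt_DP2) (hDP3 : Stmt_DP3)
    (hDP4U : Stmt_DP4U) (hSVF : Stmt_SVF) : Stmt_DCKU := by
  intro N b x p q p' q' HD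
  have hn1 := HD.sol.n1
  have hn2 := SolE_n1' HD.sol
  obtain ⟨m1, hm1⟩ : ∃ m : ℕ, m = (p ^ 3 + x * q ^ 3).norm.natAbs := ⟨_, rfl⟩
  obtain ⟨m2, hm2⟩ : ∃ m : ℕ, m = (p' ^ 3 + x * q' ^ 3).norm.natAbs := ⟨_, rfl⟩
  have hm1d : p ^ 3 + x * q ^ 3 ∣ (m1 : Eis) := by rw [hm1]; exact dvd_natAbs_norm _
  have hm2d : p' ^ 3 + x * q' ^ 3 ∣ (m2 : Eis) := by rw [hm2]; exact dvd_natAbs_norm _
  have hm1p : 0 < m1 := by
    rw [hm1]
    exact Int.natAbs_pos.2 (norm_pos hn1).ne'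
  have hm2p : 0 < m2 := by
    rw [hm2]
    exact Int.natAbs_pos.2 (norm_pos hn2).ne'
  obtain ⟨M, hMdef⟩ : ∃ M : ℕ, M = N * m1 * m2 := ⟨_, rfl⟩
  have hMp : 0 < M := by
    rw [hMdef]
    exact Nat.mul_pos (Nat.mul_pos HD.N0 hm1p) hm2p
  have hMe : (M : Eis) = (N : Eis) * (m1 : Eis) * (m2 : Eis) := by
    rw [hMdef]
    push_cast
    ring
  have hM0 : (M : Eis) ≠ 0 := nat_ne hMp.ne'
  have dN : (N : Eis) ∣ (M : Eis) := by
    rw [hMe, mul_assoc]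
    exact Dvd.intro _ rfl
  have d1 : p ^ 3 + x * q ^ 3 ∣ (M : Eis) := by
    rw [hMe]
    exact dvd_mul_of_dvd_left (dvd_mul_of_dvd_right hm1d _) _
  have d2 : p' ^ 3 + x * q' ^ 3 ∣ (M : Eis) := by
    rw [hMe]
    exact dvd_mul_of_dvd_right hm2d _
  have hfin := hSPP.2.2.1 (M : Eis) hM0
  refine ⟨9 * M, by omega, ?_⟩
  intro f hf0 hf
  have h9 : 9 ∣ f := (Dvd.intro _ rfl).trans hf
  have hf1 : 1 < f := by
    have := Nat.le_of_dvd hf0 h9
    omega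
  have hMf : M ∣ f := (Dvd.intro_left 9 rfl).trans hf
  have hMfe : (M : Eis) ∣ (f : Eis) := by
    obtain ⟨k, hk⟩ := hMf
    rw [hk]
    push_cast
    exact Dvd.intro _ rfl
  obtain ⟨C₀, Φ₀, H₀⟩ := hDP2 N b x p q p' q' HD f hf1 h9
  have hpl : ∀ π : PP, ∃ (c : ZMod 3) (Φ : (ZMod f)ˣ →* Multiplicative (ZMod 3)),
      π.1 ∣ (M : Eis) → ∀ (E Q : ℕ) (hQ : Q.Coprime f) (X Y : Eis),
        HypP N b x p q p' q' E Q X Y →
        SVE (tm π.1) x p (-p') (-q) q' X Y = c + E * (Φ (ZMod.unitOfCoprime Q hQ)).toAdd := by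
    intro π
    by_cases hπM : π.1 ∣ (M : Eis)
    · obtain ⟨C, Φ, H⟩ := hDP1 N b x p q p' q' HD π f hf1 (hπM.trans hMfe)
      exact ⟨C, Φ, fun _ => H⟩
    · exact ⟨0, 1, fun h => absurd h hπM⟩
  choose c Φ H using hpl
  refine ⟨C₀ + ∑ π ∈ hfin.toFinset, c π, Φ₀ * ∏ π ∈ hfin.toFinset, Φ π, 0, ?_⟩
  intro E Q hQ πQ hE hQp _ hQ3 hπQ hsb hsx X Y ξ ξ' hpt hξ hξ'
  obtain ⟨πR, hπR⟩ := (hSPP.2.2.2.1 πQ).2
  have hna : ¬ Associated πQ.1 (conj πQ.1) := not_assoc hSPP hQp hπQ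
  have hdQ : πQ.1 ∣ (Q : Eis) := by
    rw [hπQ]
    exact Dvd.intro _ rfl
  have hdR : πR.1 ∣ (Q : Eis) := by
    rw [hπQ, hπR]
    exact Dvd.intro_left _ rfl
  have hQRne : πQ ≠ πR := by
    intro h
    apply hna
    rw [← hπR, ← h]
  have hcop : IsCoprime (Q : Eis) (M : Eis) := by
    have h1 : Nat.Coprime Q M := Nat.Coprime.coprime_dvd_right hMf hQ
    have h2 : IsCoprime (Q : ℤ) (M : ℤ) := Nat.isCoprime_iff_coprime.2 h1
    have h3 := h2.map (Int.castRingHom Eis)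
    simpa using h3
  have hnd : ∀ π : PP, π.1 ∣ (Q : Eis) → ¬ π.1 ∣ (M : Eis) := fun π h1 h2 =>
    π.2.1.not_unit (hcop.isUnit_of_dvd' h1 h2)
  have hQM : ¬ πQ.1 ∣ (M : Eis) := hnd πQ hdQ
  have hRM : ¬ πR.1 ∣ (M : Eis) := hnd πR hdR
  have hQN : ¬ πQ.1 ∣ (N : Eis) := fun h => hQM (h.trans dN)
  have hRN : ¬ πR.1 ∣ (N : Eis) := fun h => hRM (h.trans dN)
  have hQN' : ¬ πQ.1 ∣ (N : Eis) * (conj πQ.1) ^ E := by
    intro h
    rcases πQ.2.1.dvd_or_dvd h with h1 | h1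
    · exact hQN h1
    · have h2 := πQ.2.1.dvd_of_dvd_pow h1
      rw [← hπR] at h2
      exact hQRne (hSPP.2.1 πQ πR (πQ.2.1.associated_of_dvd πR.2.1 h2))
  obtain ⟨hQb, hQx⟩ := HD.unr πQ hQN
  obtain ⟨k, hk, hkE⟩ := hpt.eq
  have hBe : (N : Eis) * (Q : Eis) ^ E = ((N : Eis) * (conj πQ.1) ^ E) * πQ.1 ^ E := by
    rw [hπQ, mul_pow]
    ring
  have hdn : DNE X Y p (-p') (-q) q' := by
    have hA := fun i => dne_aux (π := πQ) hE (X := X) (Y := Y) (u := q) (v := p) hBe hQN' hQx hk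
      hpt.hY hkE (fun h => hQM (h.trans d1)) i
    have hA' := fun i => dne_aux (π := πQ) hE (X := X) (Y := Y) (u := q') (v := p') hBe hQN' hQx hk
      hpt.hY hkE (fun h => hQM (h.trans d2)) i
    refine ⟨?_, ?_, ?_, ?_⟩
    · intro h
      apply hA 1
      unfold DfE at h
      linear_combination - h
    · intro h
      apply hA 2
      unfold DfE at h
      linear_combination - h
    · intro h
      apply hA' 1
      unfold DfE at h
      linear_combination h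
    · intro h
      apply hA' 2
      unfold DfE at h
      linear_combination h
  have HP : HypP N b x p q p' q' E Q X Y := ⟨hE, hQp, hsb, hsx, hpt, hdn⟩
  have hn0 := n0_ne HD HP
  obtain ⟨-, hsum0⟩ := hSVF b x p (-p') (-q) q' X Y HD.hb HD.hx (SolE_flip HD.sol) hpt.hX hpt.hY
    hn0 hdn
  -- the places above `Q`
  have hTQ : SVE (tm πQ.1) x p (-p') (-q) q' X Y = - (E * TAUP πQ.1 p q p' q' ξ) := by
    refine hDP4U N b x p q p' q' HD πQ E Q X Y ξ HP hQ3 hdQ hQN ?_ hξ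
    intro h
    rcases πQ.2.1.dvd_or_dvd h with h1 | h1
    · exact hQM (h1.trans d1)
    · exact hQM (h1.trans d2)
  have hTR : SVE (tm πR.1) x p (-p') (-q) q' X Y = - (E * TAUP πR.1 p q p' q' ξ') := by
    refine hDP4U N b x p q p' q' HD πR E Q X Y ξ' HP hQ3 hdR hRN ?_ ?_
    · intro h
      rcases πR.2.1.dvd_or_dvd h with h1 | h1
      · exact hRM (h1.trans d1)
      · exact hRM (h1.trans d2)
    · rw [hπR]
      exact hξ'
  -- the sum
  have hQS : πQ ∉ hfin.toFinset := by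
    rw [Set.Finite.mem_toFinset]
    exact hQM
  have hRS : πR ∉ hfin.toFinset := by
    rw [Set.Finite.mem_toFinset]
    exact hRM
  classical
  have hsupp : (Function.support fun v : Pl => SVE (sy v) x p (-p') (-q) q' X Y) ⊆
      ((insert none (insert (some πQ) (insert (some πR) (hfin.toFinset.image some))) :
        Finset Pl) : Set Pl) := by
    intro v hv
    by_contra hnv
    apply hv
    rcases v with _ | π
    · exact absurd (Finset.mem_coe.2 (Finset.mem_insert_self _ _)) hnv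
    · have hnM : ¬ π.1 ∣ (M : Eis) := by
        intro h
        apply hnv
        rw [Finset.mem_coe]
        refine Finset.mem_insert_of_mem (Finset.mem_insert_of_mem (Finset.mem_insert_of_mem
          (Finset.mem_image_of_mem _ ?_)))
        rw [Set.Finite.mem_toFinset]
        exact h
      have hπne : π ≠ πQ := by
        rintro rfl
        apply hnv
        rw [Finset.mem_coe]
        exact Finset.mem_insert_of_mem (Finset.mem_insert_self _ _)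
      have hπne' : π ≠ πR := by
        rintro rfl
        apply hnv
        rw [Finset.mem_coe]
        exact Finset.mem_insert_of_mem (Finset.mem_insert_of_mem (Finset.mem_insert_self _ _))
      have hπQnd : ¬ π.1 ∣ (Q : Eis) := by
        rw [hπQ]
        intro h
        rcases π.2.1.dvd_or_dvd h with h1 | h1
        · exact hπne (hSPP.2.1 π πQ (π.2.1.associated_of_dvd πQ.2.1 h1))
        · rw [← hπR] at h1
          exact hπne' (hSPP.2.1 π πR (π.2.1.associated_of_dvd πR.2.1 h1))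
      refine hDP3 N b x p q p' q' HD π E Q X Y HP (fun h => hnM (h.trans dN)) hπQnd ?_
      intro h
      rcases π.2.1.dvd_or_dvd h with h1 | h1
      · exact hnM (h1.trans d1)
      · exact hnM (h1.trans d2)
  have hn_notin : (none : Pl) ∉ insert (some πQ) (insert (some πR) (hfin.toFinset.image some)) := by
    simp
  have hR_notin : (some πR : Pl) ∉ hfin.toFinset.image some := by
    intro h
    obtain ⟨y, hy, hy'⟩ := Finset.mem_image.1 h
    rw [Option.some.injEq] at hy'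
    rw [hy'] at hy
    exact hRS hy
  have hQ_notin : (some πQ : Pl) ∉ insert (some πR) (hfin.toFinset.image some) := by
    intro h
    rcases Finset.mem_insert.1 h with h | h
    · rw [Option.some.injEq] at h
      exact hQRne h
    · obtain ⟨y, hy, hy'⟩ := Finset.mem_image.1 h
      rw [Option.some.injEq] at hy'
      rw [hy'] at hy
      exact hQS hy
  have hsum : ∑ π ∈ hfin.toFinset, SVE (sy (some π)) x p (-p') (-q) q' X Y =
      ∑ π ∈ hfin.toFinset, (c π + E * (Φ π (ZMod.unitOfCoprime Q hQ)).toAdd) := by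
    refine Finset.sum_congr rfl ?_
    intro π hπ
    rw [Set.Finite.mem_toFinset] at hπ
    exact H π hπ E Q hQ X Y HP
  rw [finsum_eq_sum_of_support_subset _ hsupp, Finset.sum_insert hn_notin,
    Finset.sum_insert hQ_notin, Finset.sum_insert hR_notin,
    Finset.sum_image (fun _ _ _ _ h => Option.some_injective _ h), hsum] at hsum0
  have e1 : SVE (sy none) x p (-p') (-q) q' X Y =
      C₀ + E * (Φ₀ (ZMod.unitOfCoprime Q hQ)).toAdd := H₀ E Q hQ X Y HP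
  have e2 : SVE (sy (some πQ)) x p (-p') (-q) q' X Y = - (E * TAUP πQ.1 p q p' q' ξ) := hTQ
  have e3 : SVE (sy (some πR)) x p (-p') (-q) q' X Y = - (E * TAUP πR.1 p q p' q' ξ') := hTR
  rw [e1, e2, e3, Finset.sum_add_distrib, ← Finset.mul_sum] at hsum0
  rw [MonoidHom.mul_apply, MonoidHom.finsetProd_apply, toAdd_mul, toAdd_prod, ← hπR]
  linear_combination hsum0

end Pool.Agent.PTK

end

section

/-!
# PTK_DP4U: the local term of a point at a prime factor of `Q`, `Q = 1 (mod 3)`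
-/

set_option autoImplicit false

namespace Pool.Agent.PTK

open Pool.Agent.Lib_helper18 Pool.Agent.Lib_helper18.Eis Pool.Agent.Lib_helper84.Cub
open Pool.Agent.PT

namespace DP4U

open DPA

/-- the symbol at a prime factor of `B` -/
lemma tm_val {π B L : Eis} {E : ℕ} (h1 : V π B = E) (hL : ¬ π ∣ L) :
    tm π B L = - (E * sym π L) := by
  have h2 : up π L = L := by
    unfold up
    rw [V_eq_zero hL, pow_zero, EuclideanDomain.div_one]
  unfold tm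
  rw [V_eq_zero hL, h1]
  unfold ch
  rw [h2]
  simp

/-- a rational prime divisible by `π` has valuation `1` -/
lemma V_one (hSPP : SPP) {π : PP} {Q : ℕ} (hQ : Q.Prime) (h : π.1 ∣ (Q : Eis)) :
    V π.1 (Q : Eis) = 1 := by
  obtain ⟨r, hr, hc⟩ := hSPP.2.2.2.2.2 π
  have hb : EADM.Below π r := ⟨hr, hc⟩
  have h1 : r = Q := (Nat.prime_dvd_prime_iff_eq hr hQ).1 ((hb.dvd_nat Q).1 h)
  rw [← h1]
  exact hb.V_self

end DP4U

open DPA DP4 _root_.Pool.Agent.PTK.DP4U in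
/-- PTK_DP4U. -/
theorem DP4U_thm (hSTM : STM) (hSPP : SPP) (hIF4 : Stmt_IF4) (hLCI : Stmt_LCI) : Stmt_DP4U := by
  intro N b x p q p' q' HD π E Q X Y ξ HP hQ3 hπQ hπN hπM hξ
  have h3 : ¬ π.1 ∣ 3 := (hSPP.2.2.2.1 π).1
  have hs : LSym π.1 (tm π.1) 1 := hSTM π.1 π.2.1 h3
  obtain ⟨hπb, hπx⟩ := HD.unr π hπN
  have hVx0 : V π.1 x = 0 := V_eq_zero hπx
  have hVb0 : V π.1 b = 0 := V_eq_zero hπb
  have hB := B_ne HD HP
  have hn0 := n0_ne HD HP
  have hQ1 := V_one hSPP HP.hQ hπQ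
  have hQ0 : (Q : Eis) ≠ 0 := EADM.natCast_ne HP.hQ.ne_zero
  have hVB : V π.1 ((N : Eis) * (Q : Eis) ^ E) = E := by
    rw [V_mul_not_dvd π.2.1 hπN (pow_ne_zero _ hQ0), V_pow π.2.1 hQ0, hQ1, mul_one]
  have hE0 : (E : ZMod 3) ≠ 0 := by
    rcases HP.hE with h | h
    · rw [h]; decide
    · rw [h]; decide
  have hcub : ∀ a : Eis, V π.1 a = 0 → tm π.1 a ((N : Eis) * (Q : Eis) ^ E) = 0 →
      ch π.1 a = 0 := by
    intro a ha h
    unfold tm at h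
    rw [hVB, ha] at h
    simp only [Nat.cast_zero, zero_mul, sub_zero] at h
    exact (mul_eq_zero.1 h).resolve_left hE0
  have hLx : LCE π.1 x := (hLCI.1 π x HD.hx).2 ⟨by rw [hVx0]; exact dvd_zero 3,
    hcub x hVx0 (HP.sx π)⟩
  have hcb := hcub b hVb0 (HP.sb π)
  have hLb : LCE π.1 b := (hLCI.1 π b HD.hb).2 ⟨by rw [hVb0]; exact dvd_zero 3, hcb⟩
  obtain ⟨N1, H1⟩ := core hIF4 hLCI hs HD HP hLx
  obtain ⟨ξ', hξ'⟩ := hLx (N1 + 1)
  obtain ⟨hF, -, h1⟩ := H1 ξ' ((pow_dvd_pow _ (by omega)).trans hξ')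
  have h4 : π.1 ∣ ξ' ^ 3 - x := by
    have h4 : π.1 ^ 1 ∣ ξ' ^ 3 - x := (pow_dvd_pow _ (by omega)).trans hξ'
    rwa [pow_one] at h4
  have hb0 : ∀ i, tm π.1 (LfE X Y i ξ') b = 0 := by
    intro i
    rw [hs.skew b (LfE X Y i ξ') HD.hb (hF i),
      hLCI.2.2 π.1 (tm π.1) 1 b _ hs hLb HD.hb (hF i), neg_zero]
  have hM1 : ¬ π.1 ∣ p ^ 3 + x * q ^ 3 := fun h => hπM (dvd_mul_of_dvd_left h _)
  have hM2 : ¬ π.1 ∣ p' ^ 3 + x * q' ^ 3 := fun h => hπM (dvd_mul_of_dvd_right h _)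
  have k1 := LfE_ndvd (p := p) (q := q) h4 hM1
  have k2 := LfE_ndvd (p := p') (q := q') h4 hM2
  rw [h1, hb0, hb0, add_zero, sub_zero]
  have h5 : ASE (tm π.1) ((N : Eis) * (Q : Eis) ^ E) p q p' q' ξ' =
      - (E * TAUP π.1 p q p' q' ξ') := by
    unfold ASE TAUP
    rw [tm_val hVB (k1 2), tm_val hVB (k2 1), tm_val hVB (k1 1), tm_val hVB (k2 2)]
    ring
  rw [h5]
  congr 2
  -- independence of the cube root
  have hcongr : ∀ r r' : Eis, π.1 ∣ r - r' → TAUP π.1 p q p' q' r = TAUP π.1 p q p' q' r' := by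
    intro r r' hr
    have h6 : ∀ (g h : Eis) (i : ℕ), sym π.1 (LfE g h i r) = sym π.1 (LfE g h i r') := by
      intro g h i
      apply sym_congr
      have h7 : LfE g h i r - LfE g h i r' = (h * w ^ i) * (r - r') := by
        unfold LfE
        ring
      rw [h7]
      exact dvd_mul_of_dvd_right hr _
    unfold TAUP
    rw [h6, h6, h6, h6]
  have hshift : ∀ r : Eis, π.1 ∣ r ^ 3 - x →
      TAUP π.1 p q p' q' (w * r) = TAUP π.1 p q p' q' r := by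
    intro r hr
    have m1 := LfE_ndvd (p := p) (q := q) hr hM1
    have m2 := LfE_ndvd (p := p') (q := q') hr hM2
    have h8 : sym π.1 (LfE p q 0 r) + sym π.1 (LfE p q 1 r) + sym π.1 (LfE p q 2 r) =
        sym π.1 b + (sym π.1 (LfE p' q' 0 r) + sym π.1 (LfE p' q' 1 r) +
          sym π.1 (LfE p' q' 2 r)) := by
      rw [← sym_mul π.2.1 h3 (m1 0) (m1 1), ← sym_mul π.2.1 h3 (π.2.1.not_dvd_mul (m1 0) (m1 1)) (m1 2),
        ← sym_mul π.2.1 h3 (m2 0) (m2 1), ← sym_mul π.2.1 h3 (π.2.1.not_dvd_mul (m2 0) (m2 1)) (m2 2),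
        ← sym_mul π.2.1 h3 hπb (π.2.1.not_dvd_mul (π.2.1.not_dvd_mul (m2 0) (m2 1)) (m2 2))]
      apply sym_congr
      rw [LfE_prod, LfE_prod]
      have h9 : p ^ 3 + q ^ 3 * r ^ 3 - b * (p' ^ 3 + q' ^ 3 * r ^ 3) =
          (q ^ 3 - b * q' ^ 3) * (r ^ 3 - x) := by
        linear_combination HD.sol.eq
      rw [h9]
      exact dvd_mul_of_dvd_right hr _
    have h10 : sym π.1 b = 0 := by
      have h11 := hcb
      unfold ch up at h11
      rwa [hVb0, pow_zero, EuclideanDomain.div_one] at h11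
    unfold TAUP
    rw [LfE_shift, LfE_shift, LfE_shift, LfE_shift]
    have e1 : LfE p q (2 + 1) r = LfE p q 0 r := LfE_per p q r 0
    have e2 : LfE p' q' (2 + 1) r = LfE p' q' 0 r := LfE_per p' q' r 0
    rw [e1, e2]
    rw [h10] at h8
    have h12 : (3 : ZMod 3) = 0 := rfl
    linear_combination h8 - (sym π.1 (LfE p q 2 r) - sym π.1 (LfE p' q' 2 r)) * h12
  have hdiv : π.1 ∣ (ξ' - ξ) * (ξ' - w * ξ) * (ξ' - w * (w * ξ)) := by
    have h13 : (ξ' - ξ) * (ξ' - w * ξ) * (ξ' - w * (w * ξ)) = (ξ' ^ 3 - x) - (ξ ^ 3 - x) := by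
      have h1 : w ^ 3 = 1 := w_cube
      have h2 : w ^ 2 + w + 1 = 0 := w_rel
      linear_combination (- ξ ^ 3) * h1 + (- ξ' ^ 2 * ξ + ξ' * ξ ^ 2 * w) * h2
    rw [h13]
    exact dvd_sub h4 hξ
  have hw3 : ∀ r : Eis, π.1 ∣ r ^ 3 - x → π.1 ∣ (w * r) ^ 3 - x := by
    intro r hr
    rwa [mul_pow, w_cube, one_mul]
  rcases π.2.1.dvd_or_dvd hdiv with h | h
  · rcases π.2.1.dvd_or_dvd h with h | h
    · exact hcongr _ _ h
    · rw [hcongr _ _ h, hshift ξ hξ]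
  · rw [hcongr _ _ h, hshift (w * ξ) (hw3 ξ hξ), hshift ξ hξ]

end Pool.Agent.PTK

end

section

/-!
# PTK_DX4: the local term of a point at a prime factor of `Q`, for `HypX`
-/

set_option autoImplicit false

namespace Pool.Agent.PTK

open Pool.Agent.Lib_helper18 Pool.Agent.Lib_helper18.Eis Pool.Agent.Lib_helper84.Cub
open Pool.Agent.PT

namespace DX4

open DPA hiding B_ne n0_ne core
open DP4 DP4U

lemma B_ne {N : ℕ} {b x p q p' q' : Eis} (HD : HypX N b x p q p' q') {E Q : ℕ} {X Y : Eis}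
    (HP : HypP N b x p q p' q' E Q X Y) : (N : Eis) * (Q : Eis) ^ E ≠ 0 := by
  have h1 : (N : Eis) ≠ 0 := by
    have h2 : ((N : ℤ) : Eis) ≠ 0 := DCONST.cast_ne (by have := HD.N0; omega)
    rwa [Int.cast_natCast] at h2
  have h3 : (Q : Eis) ≠ 0 := by
    have h2 : ((Q : ℤ) : Eis) ≠ 0 := DCONST.cast_ne (by have := HP.hQ.pos; omega)
    rwa [Int.cast_natCast] at h2
  exact mul_ne_zero h1 (pow_ne_zero _ h3)

lemma n0_ne {N : ℕ} {b x p q p' q' : Eis} (HD : HypX N b x p q p' q') {E Q : ℕ} {X Y : Eis}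
    (HP : HypP N b x p q p' q' E Q X Y) : X ^ 3 + x * Y ^ 3 ≠ 0 := by
  obtain ⟨c, hc, h⟩ := HP.pt.eq
  intro h0
  rw [h0, mul_zero] at h
  exact mul_ne_zero (B_ne HD HP) (pow_ne_zero _ hc) h.symm

/-- The local term at a tame place where `x` is a local cube. -/
lemma core (hIF4 : Stmt_IF4) (hLCI : Stmt_LCI) {π : PP} (hs : LSym π.1 (tm π.1) 1) {N : ℕ}
    {b x p q p' q' : Eis} (HD : HypX N b x p q p' q') {E Q : ℕ} {X Y : Eis}
    (HP : HypP N b x p q p' q' E Q X Y) (hL : LCE π.1 x) :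
    ∃ N0 : ℕ, ∀ ξ : Eis, π.1 ^ N0 ∣ ξ ^ 3 - x →
      (∀ i, LfE X Y i ξ ≠ 0) ∧
      (∀ a : Eis, a ≠ 0 → tm π.1 a (X ^ 3 + x * Y ^ 3) = tm π.1 a ((N : Eis) * (Q : Eis) ^ E)) ∧
      SVE (tm π.1) x p (-p') (-q) q' X Y =
        ASE (tm π.1) ((N : Eis) * (Q : Eis) ^ E) p q p' q' ξ +
          tm π.1 (LfE X Y 1 ξ) b - tm π.1 (LfE X Y 2 ξ) b := by
  have hB := B_ne HD HP
  have hn0 := n0_ne HD HP
  obtain ⟨c, hc, hE⟩ := HP.pt.eq
  obtain ⟨N1, H1⟩ := exists_ne hs.prime (b := x) HD.sol.n1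
  obtain ⟨N2, H2⟩ := exists_ne hs.prime (b := x) (SolE_n1' HD.sol)
  obtain ⟨N3, H3⟩ := exists_ne hs.prime (b := x) (p := X) (q := Y) hn0
  obtain ⟨N4, H4⟩ := hIF4 π.1 (tm π.1) 1 hs b x p (-p') (-q) q' X Y HD.hb HD.hx
    (SolE_flip HD.sol) HP.pt.hX HP.pt.hY hn0 HP.dn
  refine ⟨N1 + N2 + N3 + N4, fun ξ hξ => ?_⟩
  have g1 := H1 ξ ((pow_dvd_pow _ (by omega)).trans hξ)
  have g2 := H2 ξ ((pow_dvd_pow _ (by omega)).trans hξ)
  have g3 := H3 ξ ((pow_dvd_pow _ (by omega)).trans hξ)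
  have g4 := H4 ξ ((pow_dvd_pow _ (by omega)).trans hξ)
  have hx0 : ∀ a : Eis, a ≠ 0 → tm π.1 x a = 0 := fun a ha =>
    hLCI.2.2 π.1 (tm π.1) 1 x a hs hL HD.hx ha
  have hrel : ∀ a : Eis, a ≠ 0 →
      tm π.1 (X ^ 3 + x * Y ^ 3) a = tm π.1 ((N : Eis) * (Q : Eis) ^ E) a := by
    intro a ha
    have h1 := s_rel hs HD.hx hn0 hB hc ha hE
    rw [hx0 a ha, zero_add] at h1
    exact h1
  refine ⟨g3, ?_, ?_⟩
  · intro a ha
    rw [hs.skew (X ^ 3 + x * Y ^ 3) a hn0 ha, hs.skew ((N : Eis) * (Q : Eis) ^ E) a hB ha, hrel a ha]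
  · rw [g4, neg_neg, neg_neg]
    unfold ASE
    rw [hrel _ (g1 2), hrel _ (g2 1), hrel _ (g1 1), hrel _ (g2 2)]

lemma half (hSTM : STM) (hSPP : SPP) (hIF4 : Stmt_IF4) (hLCI : Stmt_LCI) {N : ℕ}
    {b x p q p' q' : Eis} (HD : HypX N b x p q p' q') (π : PP) {E Q : ℕ} {X Y ξ : Eis}
    (HP : HypP N b x p q p' q' E Q X Y) (hπQ : π.1 ∣ (Q : Eis)) (hπN : ¬ π.1 ∣ (N : Eis))
    (hπM : ¬ π.1 ∣ (p ^ 3 + x * q ^ 3) * (p' ^ 3 + x * q' ^ 3)) (hξ : π.1 ∣ ξ ^ 3 - x) :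
    SVE (tm π.1) x p (-p') (-q) q' X Y = - (E * TAUP π.1 p q p' q' ξ) := by
  have h3 : ¬ π.1 ∣ 3 := (hSPP.2.2.2.1 π).1
  have hs : LSym π.1 (tm π.1) 1 := hSTM π.1 π.2.1 h3
  obtain ⟨hπb, hπx⟩ := HD.unr π hπN
  have hVx0 : V π.1 x = 0 := V_eq_zero hπx
  have hVb0 : V π.1 b = 0 := V_eq_zero hπb
  have hB := B_ne HD HP
  have hn0 := n0_ne HD HP
  have hQ1 := V_one hSPP HP.hQ hπQ
  have hQ0 : (Q : Eis) ≠ 0 := EADM.natCast_ne HP.hQ.ne_zero
  have hVB : V π.1 ((N : Eis) * (Q : Eis) ^ E) = E := by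
    rw [V_mul_not_dvd π.2.1 hπN (pow_ne_zero _ hQ0), V_pow π.2.1 hQ0, hQ1, mul_one]
  have hE0 : (E : ZMod 3) ≠ 0 := by
    rcases HP.hE with h | h
    · rw [h]; decide
    · rw [h]; decide
  have hcub : ∀ a : Eis, V π.1 a = 0 → tm π.1 a ((N : Eis) * (Q : Eis) ^ E) = 0 →
      ch π.1 a = 0 := by
    intro a ha h
    unfold tm at h
    rw [hVB, ha] at h
    simp only [Nat.cast_zero, zero_mul, sub_zero] at h
    exact (mul_eq_zero.1 h).resolve_left hE0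
  have hLx : LCE π.1 x := (hLCI.1 π x HD.hx).2 ⟨by rw [hVx0]; exact dvd_zero 3,
    hcub x hVx0 (HP.sx π)⟩
  have hcb := hcub b hVb0 (HP.sb π)
  have hLb : LCE π.1 b := (hLCI.1 π b HD.hb).2 ⟨by rw [hVb0]; exact dvd_zero 3, hcb⟩
  obtain ⟨N1, H1⟩ := core hIF4 hLCI hs HD HP hLx
  obtain ⟨ξ', hξ'⟩ := hLx (N1 + 1)
  obtain ⟨hF, -, h1⟩ := H1 ξ' ((pow_dvd_pow _ (by omega)).trans hξ')
  have h4 : π.1 ∣ ξ' ^ 3 - x := by
    have h4 : π.1 ^ 1 ∣ ξ' ^ 3 - x := (pow_dvd_pow _ (by omega)).trans hξ'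
    rwa [pow_one] at h4
  have hb0 : ∀ i, tm π.1 (LfE X Y i ξ') b = 0 := by
    intro i
    rw [hs.skew b (LfE X Y i ξ') HD.hb (hF i),
      hLCI.2.2 π.1 (tm π.1) 1 b _ hs hLb HD.hb (hF i), neg_zero]
  have hM1 : ¬ π.1 ∣ p ^ 3 + x * q ^ 3 := fun h => hπM (dvd_mul_of_dvd_left h _)
  have hM2 : ¬ π.1 ∣ p' ^ 3 + x * q' ^ 3 := fun h => hπM (dvd_mul_of_dvd_right h _)
  have k1 := LfE_ndvd (p := p) (q := q) h4 hM1
  have k2 := LfE_ndvd (p := p') (q := q') h4 hM2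
  rw [h1, hb0, hb0, add_zero, sub_zero]
  have h5 : ASE (tm π.1) ((N : Eis) * (Q : Eis) ^ E) p q p' q' ξ' =
      - (E * TAUP π.1 p q p' q' ξ') := by
    unfold ASE TAUP
    rw [tm_val hVB (k1 2), tm_val hVB (k2 1), tm_val hVB (k1 1), tm_val hVB (k2 2)]
    ring
  rw [h5]
  congr 2
  -- independence of the cube root
  have hcongr : ∀ r r' : Eis, π.1 ∣ r - r' → TAUP π.1 p q p' q' r = TAUP π.1 p q p' q' r' := by
    intro r r' hr
    have h6 : ∀ (g h : Eis) (i : ℕ), sym π.1 (LfE g h i r) = sym π.1 (LfE g h i r') := by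
      intro g h i
      apply sym_congr
      have h7 : LfE g h i r - LfE g h i r' = (h * w ^ i) * (r - r') := by
        unfold LfE
        ring
      rw [h7]
      exact dvd_mul_of_dvd_right hr _
    unfold TAUP
    rw [h6, h6, h6, h6]
  have hshift : ∀ r : Eis, π.1 ∣ r ^ 3 - x →
      TAUP π.1 p q p' q' (w * r) = TAUP π.1 p q p' q' r := by
    intro r hr
    have m1 := LfE_ndvd (p := p) (q := q) hr hM1
    have m2 := LfE_ndvd (p := p') (q := q') hr hM2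
    have h8 : sym π.1 (LfE p q 0 r) + sym π.1 (LfE p q 1 r) + sym π.1 (LfE p q 2 r) =
        sym π.1 b + (sym π.1 (LfE p' q' 0 r) + sym π.1 (LfE p' q' 1 r) +
          sym π.1 (LfE p' q' 2 r)) := by
      rw [← sym_mul π.2.1 h3 (m1 0) (m1 1), ← sym_mul π.2.1 h3 (π.2.1.not_dvd_mul (m1 0) (m1 1)) (m1 2),
        ← sym_mul π.2.1 h3 (m2 0) (m2 1), ← sym_mul π.2.1 h3 (π.2.1.not_dvd_mul (m2 0) (m2 1)) (m2 2),
        ← sym_mul π.2.1 h3 hπb (π.2.1.not_dvd_mul (π.2.1.not_dvd_mul (m2 0) (m2 1)) (m2 2))]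
      apply sym_congr
      rw [LfE_prod, LfE_prod]
      have h9 : p ^ 3 + q ^ 3 * r ^ 3 - b * (p' ^ 3 + q' ^ 3 * r ^ 3) =
          (q ^ 3 - b * q' ^ 3) * (r ^ 3 - x) := by
        linear_combination HD.sol.eq
      rw [h9]
      exact dvd_mul_of_dvd_right hr _
    have h10 : sym π.1 b = 0 := by
      have h11 := hcb
      unfold ch up at h11
      rwa [hVb0, pow_zero, EuclideanDomain.div_one] at h11
    unfold TAUP
    rw [LfE_shift, LfE_shift, LfE_shift, LfE_shift]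
    have e1 : LfE p q (2 + 1) r = LfE p q 0 r := LfE_per p q r 0
    have e2 : LfE p' q' (2 + 1) r = LfE p' q' 0 r := LfE_per p' q' r 0
    rw [e1, e2]
    rw [h10] at h8
    have h12 : (3 : ZMod 3) = 0 := rfl
    linear_combination h8 - (sym π.1 (LfE p q 2 r) - sym π.1 (LfE p' q' 2 r)) * h12
  have hdiv : π.1 ∣ (ξ' - ξ) * (ξ' - w * ξ) * (ξ' - w * (w * ξ)) := by
    have h13 : (ξ' - ξ) * (ξ' - w * ξ) * (ξ' - w * (w * ξ)) = (ξ' ^ 3 - x) - (ξ ^ 3 - x) := by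
      have h1 : w ^ 3 = 1 := w_cube
      have h2 : w ^ 2 + w + 1 = 0 := w_rel
      linear_combination (- ξ ^ 3) * h1 + (- ξ' ^ 2 * ξ + ξ' * ξ ^ 2 * w) * h2
    rw [h13]
    exact dvd_sub h4 hξ
  have hw3 : ∀ r : Eis, π.1 ∣ r ^ 3 - x → π.1 ∣ (w * r) ^ 3 - x := by
    intro r hr
    rwa [mul_pow, w_cube, one_mul]
  rcases π.2.1.dvd_or_dvd hdiv with h | h
  · rcases π.2.1.dvd_or_dvd h with h | h
    · exact hcongr _ _ h
    · rw [hcongr _ _ h, hshift ξ hξ]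
  · rw [hcongr _ _ h, hshift (w * ξ) (hw3 ξ hξ), hshift ξ hξ]


end DX4

/-- PTK_DX4. -/
theorem DX4_thm (hSTM : STM) (hSPP : SPP) (hIF4 : Stmt_IF4) (hLCI : Stmt_LCI) : Stmt_DX4 := by
  intro N b x p q p' q' HD π E Q X Y ξ HP hπN hπM
  refine ⟨?_, ?_⟩
  · intro _ hπQ hξ
    have h := DX4.half hSTM hSPP hIF4 hLCI HD π (ξ := ξ) HP (by rw [hπQ]) hπN hπM
      (by rw [hπQ]; exact hξ)
    rw [h]
    unfold TAUE TAUP
    rw [hπQ]
  · intro _ hπQ hξ
    exact DX4.half hSTM hSPP hIF4 hLCI HD π HP hπQ hπN hπM hξ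

end Pool.Agent.PTK

end

section

/-!
# The average rank of prime twists: the classes of the points form a group
-/

set_option autoImplicit false

namespace Pool.Agent.PTK.S1G

open Pool.Agent.Lib_helper18 Pool.Agent.Lib_helper18.Eis Pool.Agent.Lib_helper84.Cub
open Pool.Agent.PT Pool.Agent.PTN WeierstrassCurve.Affine

variable {K : Type} [Field K] [CharZero K] {ι : Eis →+* K} {c : K →ₐ[ℚ] K}

/-- an identity up to cubes in the field gives one in the ring -/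
theorem descend (hK : KF K ι c) {a b : Eis} {u v : K} (hu : u ≠ 0) (hv : v ≠ 0)
    (h : ι a * u ^ 3 = ι b * v ^ 3) :
    ∃ g g' : Eis, g ≠ 0 ∧ g' ≠ 0 ∧ a * g ^ 3 = b * g' ^ 3 := by
  obtain ⟨e1, d1, hd1, h1⟩ := hK.frac u
  obtain ⟨e2, d2, hd2, h2⟩ := hK.frac v
  have hd1K : (d1 : K) ≠ 0 := by exact_mod_cast hd1
  have hd2K : (d2 : K) ≠ 0 := by exact_mod_cast hd2
  have hg : ι (e1 * (d2 : Eis)) = u * d1 * d2 := by rw [map_mul, map_intCast, h1]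
  have hg' : ι (e2 * (d1 : Eis)) = v * d2 * d1 := by rw [map_mul, map_intCast, h2]
  refine ⟨e1 * (d2 : Eis), e2 * (d1 : Eis), fun h0 => ?_, fun h0 => ?_, hK.inj ?_⟩
  · rw [h0, map_zero] at hg
    exact mul_ne_zero (mul_ne_zero hu hd1K) hd2K hg.symm
  · rw [h0, map_zero] at hg'
    exact mul_ne_zero (mul_ne_zero hv hd2K) hd1K hg'.symm
  · rw [map_mul, map_mul, map_pow, map_pow, hg, hg']
    linear_combination (d1 : K) ^ 3 * (d2 : K) ^ 3 * h

end Pool.Agent.PTK.S1G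

namespace Pool.Agent.PTK

open Pool.Agent.Lib_helper18 Pool.Agent.Lib_helper18.Eis Pool.Agent.Lib_helper84.Cub
open Pool.Agent.PT Pool.Agent.PTE Pool.Agent.PT3 Pool.Agent.PTL Pool.Agent.PTN
open WeierstrassCurve.Affine

theorem S1G_thm (h0 : Stmt_KEX) (h2 : Stmt_KEMB) (h4 : Stmt_KAD) (h7 : Stmt_KMI) : Stmt_S1G := by
  classical
  intro B hB hcf hnc ζ ζ' hζ hζ'
  obtain ⟨K, fK, cK, dK, ι, c, hK⟩ := h0
  obtain ⟨cc, j, hcc, hj, -, -, -⟩ := h2 K ι c B hK hB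
  obtain ⟨hk0, hadd⟩ := h4 K ι c B hK hB
  -- a point with the given class
  have hpt : ∀ ζ, S1 B ζ → ∃ (P : CubeRank.GA B) (g : K), g ≠ 0 ∧
      kap ι (j P) = ι ζ * g ^ 3 := by
    rintro ζ (rfl | ⟨x, y, z, hco, hz, he, rfl⟩)
    · exact ⟨0, 1, one_ne_zero, by rw [map_zero, KID.kap_zero, map_one]; ring⟩
    · obtain ⟨P, hP⟩ := (CubeRank.basics B hB).2.1 x y z hz hco he
      obtain ⟨g, hg, e⟩ := h7 K ι c B hK hB j hj P x y z hP
      exact ⟨P, g, hg, e⟩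
  -- the class of a point
  have hcl : ∀ P : CubeRank.GA B, ∃ ζ : Eis, S1 B ζ ∧ ∃ g : K, g ≠ 0 ∧
      kap ι (j P) = ι ζ * g ^ 3 := by
    intro P
    by_cases hP : P = 0
    · refine ⟨1, Or.inl rfl, 1, one_ne_zero, ?_⟩
      rw [hP, map_zero, KID.kap_zero, map_one]; ring
    · obtain ⟨a, b, z, hC⟩ := (CubeRank.basics B hB).1 hcf P hP
      obtain ⟨g, hg, e⟩ := h7 K ι c B hK hB j hj P a b z hC
      exact ⟨_, Or.inr ⟨a, b, z, hC.2.1, hC.1, hC.2.2.1, rfl⟩, g, hg, e⟩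
  obtain ⟨P, g1, hg1, e1⟩ := hpt ζ hζ
  obtain ⟨P', g2, hg2, e2⟩ := hpt ζ' hζ'
  obtain ⟨ζ'', hS, g3, hg3, e3⟩ := hcl (P - P')
  have hp' := hk0 (j P')
  obtain ⟨k, hk, ek⟩ := KID.kap_sub hk0 hadd (j P) (j P')
  have hζ0 : ι ζ' ≠ 0 := by
    intro h
    rw [e2, h, zero_mul] at hp'
    exact hp' rfl
  rw [map_sub, ek, e1, e2] at e3
  have e4 : ι (ζ'' * ζ') * (g3 * g2) ^ 3 = ι ζ * (g1 * k) ^ 3 := by
    rw [map_mul]
    field_simp at e3
    linear_combination -e3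
  obtain ⟨g, g', hg, hg', e5⟩ := S1G.descend hK (mul_ne_zero hg3 hg2) (mul_ne_zero hg1 hk) e4
  exact ⟨ζ'', g, g', hS, hg, hg', e5⟩

end Pool.Agent.PTK

end

section

/-!
# PTK_SAE: additivity of the local term of a point at `lam`
-/

set_option autoImplicit false

open NumberField IsDedekindDomain Finset
open scoped nonZeroDivisors Pointwise

namespace Pool.Agent.PTK

open Pool.Agent.Lib_helper18 Pool.Agent.Lib_helper18.Eis Pool.Agent.Lib_helper84.Cub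
open Pool.Agent.PT Pool.Agent.PTE Pool.Agent.PT3 Pool.Agent.PTL Pool.Agent.PTN

namespace SAE

/-- the three linear forms multiply to the norm -/
theorem Lf_prod (p q r : Eis) : LfE p q 0 r * LfE p q 1 r * LfE p q 2 r = p ^ 3 + q ^ 3 * r ^ 3 := by
  unfold LfE
  have h1 := w_rel
  have h2 := w_cube
  linear_combination (p ^ 2 * q * r + p * q ^ 2 * r ^ 2 * w) * h1 +
    q ^ 3 * r ^ 3 * h2

/-- the linear forms are nonzero with bounded valuation at good approximations -/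
theorem Lf_bound {π : Eis} (hπ : Prime π) {b p q r : Eis} {N : ℕ}
    (hn : p ^ 3 + b * q ^ 3 ≠ 0) (hr : π ^ N ∣ r ^ 3 - b)
    (hN : V π (p ^ 3 + b * q ^ 3) < N) (i : ℕ) (hi : i = 1 ∨ i = 2) :
    LfE p q i r ≠ 0 ∧ V π (LfE p q i r) ≤ V π (p ^ 3 + b * q ^ 3) := by
  have e : p ^ 3 + b * q ^ 3 = (p ^ 3 + q ^ 3 * r ^ 3) - q ^ 3 * (r ^ 3 - b) := by
    ring
  have hnd : ¬ π ^ (V π (p ^ 3 + b * q ^ 3) + 1) ∣
      LfE p q 0 r * LfE p q 1 r * LfE p q 2 r := by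
    rw [Lf_prod]
    intro h
    have h1 : π ^ (V π (p ^ 3 + b * q ^ 3) + 1) ∣ p ^ 3 + b * q ^ 3 := by
      have h2 : π ^ (V π (p ^ 3 + b * q ^ 3) + 1) ∣ q ^ 3 * (r ^ 3 - b) :=
        Dvd.dvd.mul_left ((pow_dvd_pow π (by omega)).trans hr) _
      have h3 := dvd_sub h h2
      rwa [← e] at h3
    exact (fin hπ hn).not_pow_dvd_of_multiplicity_lt (Nat.lt_succ_self _) h1
  have hdv : LfE p q i r ∣ LfE p q 0 r * LfE p q 1 r * LfE p q 2 r := by
    rcases hi with rfl | rfl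
    · exact ⟨LfE p q 0 r * LfE p q 2 r, by ring⟩
    · exact ⟨LfE p q 0 r * LfE p q 1 r, by ring⟩
  have h0 : LfE p q i r ≠ 0 := by
    intro h
    rw [h] at hdv
    rw [zero_dvd_iff.1 hdv] at hnd
    exact hnd (dvd_zero _)
  refine ⟨h0, ?_⟩
  by_contra hlt
  push Not at hlt
  apply hnd
  exact (pow_dvd_of_le_multiplicity hlt).trans hdv

/-- evaluation of the identity at `w^i r` -/
theorem Lf_ident {b p₁ q₁ p₁' q₁' p₂ q₂ p₂' q₂' p q p' q' : Eis}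
    (R : PRelE b p₁ q₁ p₁' q₁' p₂ q₂ p₂' q₂' p q p' q') (i : ℕ) (r : Eis) :
    LfE p₁ q₁ i r * LfE p₂ q₂ i r * LfE p' q' i r - LfE p₁' q₁' i r * LfE p₂' q₂' i r * LfE p q i r =
      (r ^ 3 - b) * (q₁ * q₂ * q' - q₁' * q₂' * q) := by
  have h3 : (w ^ i) ^ 3 = 1 := by rw [← pow_mul, mul_comm, pow_mul, w_cube, one_pow]
  have e0' := R.e0
  have e1' := R.e1
  have e2' := R.e2
  unfold LfE
  generalize w ^ i = W at *
  linear_combination e0' + W * r * e1' + W ^ 2 * r ^ 2 * e2' +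
    (q₁ * q₂ * q' - q₁' * q₂' * q) * r ^ 3 * h3

/-- additivity of `ASE` at good approximations -/
theorem AS_add {π : Eis} {s : Eis → Eis → ZMod 3} {e : ℕ} (hs : LSym π s e)
    {B b p₁ q₁ p₁' q₁' p₂ q₂ p₂' q₂' p q p' q' : Eis} (hB : B ≠ 0)
    (n₁ : p₁ ^ 3 + b * q₁ ^ 3 ≠ 0) (n₂ : p₂ ^ 3 + b * q₂ ^ 3 ≠ 0)
    (n₃ : p' ^ 3 + b * q' ^ 3 ≠ 0) (m₁ : p₁' ^ 3 + b * q₁' ^ 3 ≠ 0)
    (m₂ : p₂' ^ 3 + b * q₂' ^ 3 ≠ 0) (m₃ : p ^ 3 + b * q ^ 3 ≠ 0)
    (R : PRelE b p₁ q₁ p₁' q₁' p₂ q₂ p₂' q₂' p q p' q') :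
    ∃ N0 : ℕ, ∀ r : Eis, π ^ N0 ∣ r ^ 3 - b →
      ASE s B p q p' q' r = ASE s B p₁ q₁ p₁' q₁' r + ASE s B p₂ q₂ p₂' q₂' r := by
  refine ⟨V π (p₁ ^ 3 + b * q₁ ^ 3) + V π (p₂ ^ 3 + b * q₂ ^ 3) +
    V π (p' ^ 3 + b * q' ^ 3) + V π (p₁' ^ 3 + b * q₁' ^ 3) +
    V π (p₂' ^ 3 + b * q₂' ^ 3) + V π (p ^ 3 + b * q ^ 3) + e + 1,
    fun r hr => ?_⟩
  have key : ∀ i : ℕ, i = 1 ∨ i = 2 →
      s B (LfE p₁ q₁ i r) + s B (LfE p₂ q₂ i r) + s B (LfE p' q' i r) =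
        s B (LfE p₁' q₁' i r) + s B (LfE p₂' q₂' i r) + s B (LfE p q i r) := by
    intro i hi
    have a1 := Lf_bound hs.prime n₁ hr (by omega) i hi
    have a2 := Lf_bound hs.prime n₂ hr (by omega) i hi
    have a3 := Lf_bound hs.prime n₃ hr (by omega) i hi
    have b1 := Lf_bound hs.prime m₁ hr (by omega) i hi
    have b2 := Lf_bound hs.prime m₂ hr (by omega) i hi
    have b3 := Lf_bound hs.prime m₃ hr (by omega) i hi
    refine TADD.step_i hs hB a1.1 a2.1 a3.1 b1.1 b2.1 b3.1 ?_ hr (Lf_ident R i r)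
    have h1 := b1.2
    have h2 := b2.2
    have h3 := b3.2
    omega
  have k1 := key 1 (Or.inl rfl)
  have k2 := key 2 (Or.inr rfl)
  unfold ASE
  linear_combination k1 - k2

/-- the swapped solution -/
theorem swap' {b x p q p' q' : Eis} (h : SolE b x p q p' q') : SolE x b p (-p') (-q) q' where
  eq := by linear_combination h.eq
  n1 := by
    intro h0
    apply h.n2
    linear_combination h0
  n2 := by
    intro h0
    apply h.n1
    linear_combination h0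
  g1 := by
    intro h0
    apply h.g1
    unfold GfE at h0 ⊢
    linear_combination h0
  g2 := by
    intro h0
    apply h.g2
    unfold GfE at h0 ⊢
    linear_combination h0

/-- the denominators are nonzero -/
theorem den_ne {b x p q p' q' : Eis} (S : SolE b x p q p' q') : p' ^ 3 + b * q' ^ 3 ≠ 0 := by
  intro h
  apply S.n1
  rw [S.eq, h, mul_zero]

/-- IF4 for the swapped solution -/
theorem if4_swap (hIF4 : Stmt_IF4) {π : Eis} {s : Eis → Eis → ZMod 3} {e : ℕ} (hs : LSym π s e)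
    {b x p q p' q' X Y : Eis} (hb : b ≠ 0) (hx : x ≠ 0) (S : SolE b x p q p' q') (hX : X ≠ 0)
    (hY : Y ≠ 0) (hn : X ^ 3 + b * Y ^ 3 ≠ 0) (hD : DNE X Y p (-p') (-q) q') :
    ∃ N0 : ℕ, ∀ ξ : Eis, π ^ N0 ∣ ξ ^ 3 - b →
      SVE s b p (-p') (-q) q' X Y = ASE s (X ^ 3 + b * Y ^ 3) p q p' q' ξ +
        s (LfE X Y 1 ξ) x - s (LfE X Y 2 ξ) x := by
  obtain ⟨N0, hN0⟩ := hIF4 π s e hs x b p (-p') (-q) q' X Y hx hb (swap' S) hX hY hn hD
  refine ⟨N0, fun ξ hξ => ?_⟩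
  have h := hN0 ξ hξ
  rw [neg_neg, neg_neg] at h
  exact h

/-- local additivity where `b` is a local cube -/
theorem loc_cube (hIF4 : Stmt_IF4) {π : Eis} {s : Eis → Eis → ZMod 3} {e : ℕ} (hs : LSym π s e)
    {b x₁ x₂ p₁ q₁ p₁' q₁' p₂ q₂ p₂' q₂' p q p' q' X Y : Eis} (hb : b ≠ 0) (hx₁ : x₁ ≠ 0)
    (hx₂ : x₂ ≠ 0) (S₁ : SolE b x₁ p₁ q₁ p₁' q₁') (S₂ : SolE b x₂ p₂ q₂ p₂' q₂')
    (S : SolE b (x₁ * x₂) p q p' q') (R : PRelE b p₁ q₁ p₁' q₁' p₂ q₂ p₂' q₂' p q p' q')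
    (hX : X ≠ 0) (hY : Y ≠ 0) (hn : X ^ 3 + b * Y ^ 3 ≠ 0)
    (D₁ : DNE X Y p₁ (-p₁') (-q₁) q₁') (D₂ : DNE X Y p₂ (-p₂') (-q₂) q₂')
    (D : DNE X Y p (-p') (-q) q') (hLC : LCE π b) :
    SVE s b p (-p') (-q) q' X Y =
      SVE s b p₁ (-p₁') (-q₁) q₁' X Y + SVE s b p₂ (-p₂') (-q₂) q₂' X Y := by
  obtain ⟨N₁, h₁⟩ := if4_swap hIF4 hs hb hx₁ S₁ hX hY hn D₁
  obtain ⟨N₂, h₂⟩ := if4_swap hIF4 hs hb hx₂ S₂ hX hY hn D₂
  obtain ⟨N₃, h₃⟩ := if4_swap hIF4 hs hb (mul_ne_zero hx₁ hx₂) S hX hY hn D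
  obtain ⟨N₄, h₄⟩ := AS_add hs hn S₁.n1 S₂.n1 (den_ne S) (den_ne S₁) (den_ne S₂) S.n1 R
  obtain ⟨r, hr⟩ := hLC (N₁ + N₂ + N₃ + N₄ + V π (X ^ 3 + b * Y ^ 3) + 1)
  have k : ∀ M : ℕ, M ≤ N₁ + N₂ + N₃ + N₄ + V π (X ^ 3 + b * Y ^ 3) + 1 →
      π ^ M ∣ r ^ 3 - b := fun M hM => (pow_dvd_pow π hM).trans hr
  have l1 := (Lf_bound hs.prime hn hr (by omega) 1 (Or.inl rfl)).1
  have l2 := (Lf_bound hs.prime hn hr (by omega) 2 (Or.inr rfl)).1
  have g₁ := h₁ r (k _ (by omega))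
  have g₂ := h₂ r (k _ (by omega))
  have g₃ := h₃ r (k _ (by omega))
  have g₄ := h₄ r (k _ (by omega))
  rw [TADD.LSym.right_mul hs l1 hx₁ hx₂, TADD.LSym.right_mul hs l2 hx₁ hx₂] at g₃
  rw [g₁, g₂, g₃, g₄]
  ring

end SAE

open _root_.Pool.Agent.PTK.SAE in
/-- PTK_SAE -/
theorem SAE_thm (hSTM : STM) (hSPP : SPP) (hLCI : Stmt_LCI)
    (hIF4 : Stmt_IF4) (hF6R : Stmt_F6R) (hF7U : Stmt_F7U) (hSVF : Stmt_SVF) : Stmt_SAE := by
  intro b x₁ x₂ p₁ q₁ p₁' q₁' p₂ q₂ p₂' q₂' p q p' q' X Y hb hx₁ hx₂ S₁ S₂ S R hX hY hn D₁ D₂ D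
  have hx : x₁ * x₂ ≠ 0 := mul_ne_zero hx₁ hx₂
  have hw0 : (w : Eis) ≠ 0 := by
    intro h
    have := w_cube
    rw [h] at this
    exact absurd this (by decide)
  have hloc : ∀ π : PP, SVE (tm π.1) b p (-p') (-q) q' X Y =
      SVE (tm π.1) b p₁ (-p₁') (-q₁) q₁' X Y + SVE (tm π.1) b p₂ (-p₂') (-q₂) q₂' X Y := by
    intro π
    have hs : LSym π.1 (tm π.1) 1 := hSTM π.1 π.2.1 (hSPP.2.2.2.1 π).1
    by_cases h3 : 3 ∣ V π.1 b
    · by_cases hc : ch π.1 b = 0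
      · exact loc_cube hIF4 hs hb hx₁ hx₂ S₁ S₂ S R hX hY hn D₁ D₂ D ((hLCI.1 π b hb).2 ⟨h3, hc⟩)
      · rw [hF7U π x₁ b p₁ (-p₁') (-q₁) q₁' X Y hx₁ hb (swap' S₁) hX hY D₁ h3 hc,
          hF7U π x₂ b p₂ (-p₂') (-q₂) q₂' X Y hx₂ hb (swap' S₂) hX hY D₂ h3 hc,
          hF7U π (x₁ * x₂) b p (-p') (-q) q' X Y hx hb (swap' S) hX hY D h3 hc, add_zero]
    · have f₁ := hF6R π x₁ b p₁ (-p₁') (-q₁) q₁' X Y hx₁ hb (swap' S₁) hX hY D₁ h3
      have f₂ := hF6R π x₂ b p₂ (-p₂') (-q₂) q₂' X Y hx₂ hb (swap' S₂) hX hY D₂ h3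
      have f₃ := hF6R π (x₁ * x₂) b p (-p') (-q) q' X Y hx hb (swap' S) hX hY D h3
      by_cases hV : 3 ∣ V π.1 (X ^ 3 + b * Y ^ 3)
      · rw [f₁.1 hV, f₂.1 hV, f₃.1 hV, add_zero]
      · rw [f₁.2 hV, f₂.2 hV, f₃.2 hV, TADD.LSym.right_mul hs hw0 hx₁ hx₂]
        ring
  obtain ⟨s₁, t₁⟩ := hSVF x₁ b p₁ (-p₁') (-q₁) q₁' X Y hx₁ hb (swap' S₁) hX hY hn D₁
  obtain ⟨s₂, t₂⟩ := hSVF x₂ b p₂ (-p₂') (-q₂) q₂' X Y hx₂ hb (swap' S₂) hX hY hn D₂
  obtain ⟨s₃, t₃⟩ := hSVF (x₁ * x₂) b p (-p') (-q) q' X Y hx hb (swap' S) hX hY hn D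
  have s₁₂ : (Function.support fun v : Pl => SVE (sy v) b p₁ (-p₁') (-q₁) q₁' X Y +
      SVE (sy v) b p₂ (-p₂') (-q₂) q₂' X Y).Finite :=
    (s₁.union s₂).subset (Function.support_add _ _)
  have t₁₂ : ∑ᶠ v : Pl, (SVE (sy v) b p₁ (-p₁') (-q₁) q₁' X Y +
      SVE (sy v) b p₂ (-p₂') (-q₂) q₂' X Y) = 0 := by
    rw [finsum_add_distrib s₁ s₂, t₁, t₂, add_zero]
  have t : ∑ᶠ v : Pl, (SVE (sy v) b p (-p') (-q) q' X Y -
      (SVE (sy v) b p₁ (-p₁') (-q₁) q₁' X Y + SVE (sy v) b p₂ (-p₂') (-q₂) q₂' X Y)) = 0 := by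
    rw [finsum_sub_distrib s₃ s₁₂, t₃, t₁₂, sub_zero]
  rw [finsum_eq_single _ (none : Pl)] at t
  · exact sub_eq_zero.1 t
  · intro v hv
    rcases v with _ | π
    · exact absurd rfl hv
    · exact sub_eq_zero.2 (hloc π)

end Pool.Agent.PTK

end
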