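import Mathlib
import Pool.Agent.PTWX.C17
import Pool.Agent.PTWX.C32
import Pool.Agent.PTWX.C33
import Pool.Agent.PTWX.C34
import Pool.Agent.PTWX.C41
import Pool.Agent.PTWX.C56

/-! Parts: PT3.LAMG, PTN.DOMG, PTN.BDU, PTKX.GCK, PTKX.NMN, PTKX.GAK -/

namespace Pool.Agent.PT3.LAMG
end Pool.Agent.PT3.LAMG

namespace Pool.Agent.PTN.DOMG
end Pool.Agent.PTN.DOMG

namespace Pool.Agent.PTN.BDU
end Pool.Agent.PTN.BDU

section

/-!
# PT3_LAMG: the local form of the antisymmetry at the tame places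
-/

namespace Pool.Agent.PT3

open Pool.Agent.Lib_helper18 Pool.Agent.Lib_helper18.Eis Pool.Agent.Lib_helper84.Cub
open Pool.Agent.PT Pool.Agent.PTE

namespace LAMG

open Pool.Agent.PT.LAM in
/-- `(B, b) = 0` at the tame places -/
theorem sy_zero {B b : ℤ} (h : AG B b) (π : PP) : sy (some π) (B : Eis) (b : Eis) = 0 := by
  show tm π.1 (B : Eis) (b : Eis) = 0
  rw [tm_swap π.1 (b : Eis) (B : Eis), h.sym π, neg_zero]

open Pool.Agent.PT.LAM in
/-- the case that `b` is a local cube and `x` is not -/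
theorem half (hSTM : STM) (hSPP : SPP) (hSLC : SLC) (hLCI : LCI) (hAVV : AVV) (hF2B : F2BG)
    (π : PP) (B b x p q p' q' : ℤ) (hB : BG B) (hb : AG B b) (hx : AG B x)
    (hs : Sol b x p q p' q') (h1 : LC (uni (some π)) b) (h2 : ¬ LC (uni (some π)) x) :
    TT (some π) B b x p q p' q' = UV (sy (some π)) B b x p q p' q' ∧
      TT (some π) B x b p (-p') (-q) q' = 0 := by
  obtain ⟨e, hL⟩ := lsym hSTM hSPP hSLC (some π)
  have hwb : sy (some π) w (b : Eis) = 0 := w_lc hLCI hL hb.ne h1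
  obtain ⟨N0, hN⟩ := hF2B π B b x p q p' q' hB hb hx hs h1 h2
  have hA := (hAVV (some π) B b x p q p' q' hB.ne hb.ne hx.ne hs.toSolW (sy_zero hx π) h1).2
    _ N0 hN
  constructor
  · unfold TT
    rw [if_pos h1, hA]
    unfold UV
    rw [w_mul hL hB.ne hx.ne hb.ne, hwb]
    show tm π.1 (B : Eis) (Gf p q p' q' 1) - tm π.1 (B : Eis) (Gf p q p' q' 2) +
        tm π.1 w (B : Eis) + tm π.1 w (x : Eis) =
      tm π.1 (B : Eis) (Gf p q p' q' 1) - tm π.1 (B : Eis) (Gf p q p' q' 2) +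
        (tm π.1 w (B : Eis) + tm π.1 w (x : Eis) + 0)
    ring
  · unfold TT
    rw [if_neg h2]
    show (if 3 ∣ V π.1 (x : Eis) + V π.1 (B : Eis) ∧ ¬ 3 ∣ V π.1 (x : Eis)
      then - tm π.1 w (b : Eis) else 0) = 0
    have hwb' : tm π.1 w (b : Eis) = 0 := hwb
    rw [hwb', neg_zero, ite_self]

/-- an admissible noncube at a place dividing `B` has valuation prime to `3` -/
theorem val_nc (hLCI : LCI) {B b : ℤ} (hB : BG B) (hb : AG B b) (π : PP)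
    (hd : π.1 ∣ (B : Eis)) (h : ¬ LC π.1 b) : ¬ 3 ∣ V π.1 (b : Eis) := by
  intro h3
  apply h
  rw [hLCI.1 π b hb.ne]
  refine ⟨h3, ?_⟩
  have h1 : tm π.1 (b : Eis) (B : Eis) = 0 := hb.sym π
  have h2 : ((V π.1 (b : Eis) : ℕ) : ZMod 3) = 0 := by
    rw [ZMod.natCast_eq_zero_iff]
    exact h3
  unfold tm at h1
  rw [h2, zero_mul, sub_zero] at h1
  have h4 : V π.1 (B : Eis) ≤ 2 := hB.cf π
  have h5 : V π.1 (B : Eis) ≠ 0 := by
    intro h0
    exact (V_eq_zero_iff.1 h0) hd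
  have h6 : ((V π.1 (B : Eis) : ℕ) : ZMod 3) ≠ 0 := by
    intro h0
    rw [ZMod.natCast_eq_zero_iff] at h0
    omega
  have : Fact (Nat.Prime 3) := ⟨Nat.prime_three⟩
  rcases mul_eq_zero.1 h1 with h7 | h7
  · exact absurd h7 h6
  · exact h7

end LAMG

set_option linter.unusedVariables false in
open _root_.Pool.Agent.PT3.LAMG Pool.Agent.PT.LAM in
theorem LAMG_thm (hSTM : STM) (hSPP : SPP) (hSSL : SSL) (hSLC : SLC) (hSREC : SREC)
    (hSCJ : SCJ) (hLCI : LCI) (hIF1 : IF1) (hAVV : AVV) (hTAMG : TAMG) : LAMG := by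
  intro π B b x p q p' q' hB hb hx hs
  obtain ⟨hF2B, hF3R, hF3U⟩ := hTAMG
  obtain ⟨e, hL⟩ := lsym hSTM hSPP hSLC (some π)
  have hs' := sol_swap hs
  show TT (some π) B b x p q p' q' + TT (some π) B x b p (-p') (-q) q' =
    UV (sy (some π)) B b x p q p' q'
  by_cases h1 : LC (uni (some π)) b
  · by_cases h2 : LC (uni (some π)) x
    · -- both are local cubes
      obtain ⟨N0, hN⟩ := hIF1 (uni (some π)) (sy (some π)) e hL b x p q p' q' hb.ne hx.ne hs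
      obtain ⟨N1, hN1⟩ := (hAVV (some π) B b x p q p' q' hB.ne hb.ne hx.ne hs.toSolW
        (LAMG.sy_zero hx π) h1).1
      obtain ⟨N2, hN2⟩ := (hAVV (some π) B x b p (-p') (-q) q' hB.ne hx.ne hb.ne hs'.toSolW
        (LAMG.sy_zero hb π) h2).1
      obtain ⟨r, hr⟩ := h1 (max N0 N1)
      obtain ⟨ξ, hξ⟩ := h2 (max N0 N2)
      have hwb : sy (some π) w (b : Eis) = 0 := w_lc hLCI hL hb.ne h1
      have hwx : sy (some π) w (x : Eis) = 0 := w_lc hLCI hL hx.ne h2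
      have e1 := hN r ξ (dvd_weak (le_max_left _ _) hr) (dvd_weak (le_max_left _ _) hξ)
        (B : Eis) (icast_ne hB.ne)
      have e2 := hN1 r (dvd_weak (le_max_right _ _) hr)
      have e3 := hN2 ξ (dvd_weak (le_max_right _ _) hξ)
      unfold TT
      rw [if_pos h1, if_pos h2, hwb, hwx, ← e2, ← e3]
      unfold UV
      rw [w_mul hL hB.ne hx.ne hb.ne, hwb, hwx]
      linear_combination e1
    · obtain ⟨h3, h4⟩ := LAMG.half hSTM hSPP hSLC hLCI hAVV hF2B π B b x p q p' q' hB hb hx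
        hs h1 h2
      rw [h3, h4, add_zero]
  · by_cases h2 : LC (uni (some π)) x
    · obtain ⟨h3, h4⟩ := LAMG.half hSTM hSPP hSLC hLCI hAVV hF2B π B x b p (-p') (-q) q' hB hx
        hb hs' h2 h1
      rw [h3, UV_swap]
      rw [neg_neg, neg_neg] at h4
      rw [h4, zero_add]
    · -- both are not local cubes
      have hT1 : TT (some π) B b x p q p' q' =
          if 3 ∣ V π.1 (b : Eis) + V π.1 (B : Eis) ∧ ¬ 3 ∣ V π.1 (b : Eis)
            then - tm π.1 w (x : Eis) else 0 := by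
        unfold TT
        rw [if_neg h1]
      have hT2 : TT (some π) B x b p (-p') (-q) q' =
          if 3 ∣ V π.1 (x : Eis) + V π.1 (B : Eis) ∧ ¬ 3 ∣ V π.1 (x : Eis)
            then - tm π.1 w (b : Eis) else 0 := by
        unfold TT
        rw [if_neg h2]
      have h1' : ¬ LC π.1 b := h1
      have h2' : ¬ LC π.1 x := h2
      rw [hT1, hT2]
      show _ = UV (tm π.1) B b x p q p' q'
      by_cases hd : π.1 ∣ (B : Eis)
      · have hvb := LAMG.val_nc hLCI hB hb π hd h1'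
        have hvx := LAMG.val_nc hLCI hB hx π hd h2'
        rw [hF3R π B b x p q p' q' hB hb hx hs hd hvb hvx]
        simp only [hvb, hvx, not_false_eq_true, and_true]
      · have hvb : V π.1 (b : Eis) = 0 := V_eq_zero (hb.unr π hd)
        have hvx : V π.1 (x : Eis) = 0 := V_eq_zero (hx.unr π hd)
        have hcb : ch π.1 (b : Eis) ≠ 0 := by
          intro h0
          apply h1'
          rw [hLCI.1 π b hb.ne]
          exact ⟨by rw [hvb]; exact dvd_zero 3, h0⟩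
        have hcx : ch π.1 (x : Eis) ≠ 0 := by
          intro h0
          apply h2'
          rw [hLCI.1 π x hx.ne]
          exact ⟨by rw [hvx]; exact dvd_zero 3, h0⟩
        rw [hF3U π B b x p q p' q' hB hb hx hs hd hcb hcx, hvb, hvx]
        simp

end Pool.Agent.PT3

end

section

/-!
# From tails to averages
-/

set_option autoImplicit false

open Finset

namespace Pool.Agent.PTN

open Pool.Agent.PT Pool.Agent.PTL

namespace DOMG

open BDENS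

/-- the tail sets -/
def TS (S : ℕ → Set ℕ) (R : ℕ → ℕ → ℕ) (E t : ℕ) : Set ℕ := {q | q ∈ S E ∧ t ≤ R E q}

theorem sum_ind_le (S : Set ℕ) {σ : ℝ} (hσ : 1 < σ) (T : Finset ℕ) :
    ∑ q ∈ T, ind S σ q ≤ sm S σ := by
  rw [sm_eq]
  exact (ind_summable S hσ).sum_le_tsum T fun n _ => ind_nonneg S σ n

open Classical in
/-- one exponent, pointwise -/
theorem point (S : ℕ → Set ℕ) (R : ℕ → ℕ → ℕ) (F : ℕ → ℝ) (hF : Monotone F) (h0 : 0 ≤ F 0)
    {M N E : ℕ} (hM : ∀ q : ℕ, q.Prime → M < q → q ∈ S E → R E q ≤ N) {σ : ℝ} (hσ : 1 < σ)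
    (q : ℕ) :
    (if q.Prime ∧ q ∈ S E then F (R E q) * (q : ℝ) ^ (-σ) else 0) ≤
    F 0 * ind (TS S R E 0) σ q +
      ∑ t ∈ Finset.range N, (F (t + 1) - F t) * ind (TS S R E (t + 1)) σ q +
      (if q ≤ M then F (R E q) else 0) := by
  have hFn : ∀ n, 0 ≤ F n := fun n => h0.trans (hF (Nat.zero_le n))
  have hsum : 0 ≤ ∑ t ∈ Finset.range N, (F (t + 1) - F t) * ind (TS S R E (t + 1)) σ q :=
    Finset.sum_nonneg fun t _ => mul_nonneg (sub_nonneg.2 (hF (Nat.le_succ t)))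
      (ind_nonneg _ _ _)
  have h00 : 0 ≤ F 0 * ind (TS S R E 0) σ q := mul_nonneg h0 (ind_nonneg _ _ _)
  have hlast : 0 ≤ (if q ≤ M then F (R E q) else 0) := by
    split_ifs
    · exact hFn _
    · exact le_rfl
  by_cases hq : q.Prime ∧ q ∈ S E
  · rw [if_pos hq]
    by_cases hqM : q ≤ M
    · rw [if_pos hqM]
      have h1 : (q : ℝ) ^ (-σ) ≤ 1 :=
        Real.rpow_le_one_of_one_le_of_nonpos (by exact_mod_cast hq.1.one_lt.le) (by linarith)
      have h2 := mul_le_mul_of_nonneg_left h1 (hFn (R E q))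
      rw [mul_one] at h2
      linarith
    · rw [if_neg hqM, add_zero]
      push Not at hqM
      have hrs := hM q hq.1 hqM hq.2
      obtain ⟨ρ, hρ⟩ : ∃ ρ, ρ = R E q := ⟨_, rfl⟩
      rw [← hρ] at hrs ⊢
      have e1 : ∀ t, ind (TS S R E (t + 1)) σ q = if t < ρ then (q : ℝ) ^ (-σ) else 0 := by
        intro t
        by_cases ht : t < ρ
        · rw [if_pos ht]
          exact ind_mem hq.1 ⟨hq.2, by rw [← hρ]; exact ht⟩
        · rw [if_neg ht]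
          refine ind_not fun h => ht ?_
          have h3 := h.2.2
          rw [← hρ] at h3
          exact h3
      have e2 : ∑ t ∈ Finset.range N, (F (t + 1) - F t) * ind (TS S R E (t + 1)) σ q =
          (F ρ - F 0) * (q : ℝ) ^ (-σ) := by
        have e3 : ∀ t ∈ Finset.range N, (F (t + 1) - F t) * ind (TS S R E (t + 1)) σ q =
            if t < ρ then (F (t + 1) - F t) * (q : ℝ) ^ (-σ) else 0 := by
          intro t _
          rw [e1 t, mul_ite, mul_zero]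
        rw [Finset.sum_congr rfl e3, ← Finset.sum_filter]
        have e4 : (Finset.range N).filter (fun t => t < ρ) = Finset.range ρ := by
          ext t
          simp only [Finset.mem_filter, Finset.mem_range]
          omega
        rw [e4, ← Finset.sum_mul, Finset.sum_range_sub]
      rw [e2, ind_mem hq.1 (show q ∈ TS S R E 0 from ⟨hq.2, Nat.zero_le _⟩)]
      apply le_of_eq
      ring
  · rw [if_neg hq]
    linarith

end DOMG

open BDENS _root_.Pool.Agent.PTN.DOMG in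
/-- from tails to averages -/
theorem DOMG_thm : Stmt_DOMG := by
  classical
  intro S R P M N F hR hC hF h0
  choose K hK using hC
  have hFn : ∀ n, 0 ≤ F n := fun n => h0.trans (hF (Nat.zero_le n))
  obtain ⟨B, hB⟩ : ∃ B : ℕ → ℝ, ∀ E, B E = ∑ q ∈ Finset.range (M + 1), F (R E q) :=
    ⟨_, fun _ => rfl⟩
  refine ⟨F 0 * K 0 + ∑ t ∈ Finset.range N, (F (t + 1) - F t) * K (t + 1) + B 1 + B 2,
    fun σ h1 hσ2 T => ?_⟩
  have hone : ∀ E : ℕ, (E = 1 ∨ E = 2) →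
      ∑ q ∈ T, (if q.Prime ∧ q ∈ S E then F (R E q) * (q : ℝ) ^ (-σ) else 0) ≤
      F 0 * sm (TS S R E 0) σ + ∑ t ∈ Finset.range N, (F (t + 1) - F t) *
        sm (TS S R E (t + 1)) σ + B E := by
    intro E hE
    refine (Finset.sum_le_sum fun q _ => point S R F hF h0 (N := N) (M := M)
      (fun q hq hqM hqW => hR E q hE hq hqM hqW) h1 q).trans ?_
    rw [Finset.sum_add_distrib, Finset.sum_add_distrib]
    refine add_le_add (add_le_add ?_ ?_) ?_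
    · rw [← Finset.mul_sum]
      exact mul_le_mul_of_nonneg_left (DOMG.sum_ind_le _ h1 T) h0
    · rw [Finset.sum_comm]
      refine Finset.sum_le_sum fun t _ => ?_
      rw [← Finset.mul_sum]
      exact mul_le_mul_of_nonneg_left (DOMG.sum_ind_le _ h1 T)
        (sub_nonneg.2 (hF (Nat.le_succ t)))
    · rw [← Finset.sum_filter, hB]
      refine Finset.sum_le_sum_of_subset_of_nonneg ?_ fun q _ _ => hFn _
      intro q hq
      rw [Finset.mem_range]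
      have := (Finset.mem_filter.1 hq).2
      omega
  rw [Finset.sum_pair (by norm_num : (1 : ℕ) ≠ 2)]
  have i1 := hone 1 (Or.inl rfl)
  have i2 := hone 2 (Or.inr rfl)
  have hK' : ∀ t, sm (TS S R 1 t) σ + sm (TS S R 2 t) σ ≤
      P t * Real.log (1 / (σ - 1)) + K t := fun t => hK t σ h1 hσ2
  have j0 := mul_le_mul_of_nonneg_left (hK' 0) h0
  have j1 : ∑ t ∈ Finset.range N, (F (t + 1) - F t) * (sm (TS S R 1 (t + 1)) σ +
      sm (TS S R 2 (t + 1)) σ) ≤ ∑ t ∈ Finset.range N, (F (t + 1) - F t) *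
      (P (t + 1) * Real.log (1 / (σ - 1)) + K (t + 1)) :=
    Finset.sum_le_sum fun t _ => mul_le_mul_of_nonneg_left (hK' (t + 1))
      (sub_nonneg.2 (hF (Nat.le_succ t)))
  have hE : (F 0 * P 0 + ∑ t ∈ Finset.range N, (F (t + 1) - F t) * P (t + 1)) *
        Real.log (1 / (σ - 1)) =
      F 0 * (P 0 * Real.log (1 / (σ - 1))) +
      ∑ t ∈ Finset.range N, (F (t + 1) - F t) * (P (t + 1) * Real.log (1 / (σ - 1))) := by
    rw [add_mul, Finset.sum_mul]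
    congr 1
    · ring
    · exact Finset.sum_congr rfl fun t _ => by ring
  rw [hE]
  have e1 : ∑ t ∈ Finset.range N, (F (t + 1) - F t) * (sm (TS S R 1 (t + 1)) σ +
      sm (TS S R 2 (t + 1)) σ) =
      ∑ t ∈ Finset.range N, (F (t + 1) - F t) * sm (TS S R 1 (t + 1)) σ +
      ∑ t ∈ Finset.range N, (F (t + 1) - F t) * sm (TS S R 2 (t + 1)) σ := by
    rw [← Finset.sum_add_distrib]
    exact Finset.sum_congr rfl fun t _ => by ring
  have e2 : ∑ t ∈ Finset.range N, (F (t + 1) - F t) *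
      (P (t + 1) * Real.log (1 / (σ - 1)) + K (t + 1)) =
      ∑ t ∈ Finset.range N, (F (t + 1) - F t) * (P (t + 1) * Real.log (1 / (σ - 1))) +
      ∑ t ∈ Finset.range N, (F (t + 1) - F t) * K (t + 1) := by
    rw [← Finset.sum_add_distrib]
    exact Finset.sum_congr rfl fun t _ => by ring
  rw [e1, e2] at j1
  rw [mul_add, mul_add] at j0
  linarith

end Pool.Agent.PTN

end

section

/-!
# The law of the ranks of prime twists for every `n`: module BDU (the exact bound for the density,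
both exponents together, `Q = 1 (mod 3)`)
-/

set_option autoImplicit false

open NumberField IsDedekindDomain Finset
open scoped nonZeroDivisors Pointwise

namespace Pool.Agent.PTN

open Pool.Agent.Lib_helper18 Pool.Agent.Lib_helper18.Eis Pool.Agent.Lib_helper84.Cub
open Pool.Agent.PT Pool.Agent.PTE Pool.Agent.PT3 Pool.Agent.PTL

namespace BDU

open BDENS

theorem M1_pow {f : ℕ} (hf : 0 < f) (h3 : 3 ∣ f) {a : (ZMod f)ˣ} (ha : M1 a) (k : ℕ) :
    M1 (a ^ k) := by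
  have : NeZero f := ⟨hf.ne'⟩
  rw [DENSS.M1_iff h3] at ha ⊢
  rw [Units.val_pow_eq_pow_val, map_pow, ha, one_pow]

/-- Generators of a finite cyclic group are powers of each other with an exponent prime
to `3`. -/
theorem exists_pow3 {G : Type} [Group G] [Finite G] {g h : G}
    (hz : Subgroup.zpowers h = Subgroup.zpowers g) :
    ∃ k : ℕ, k % 3 ≠ 0 ∧ h = g ^ k := by
  have h1 : h ∈ Subgroup.zpowers g := by
    rw [← hz]
    exact Subgroup.mem_zpowers h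
  obtain ⟨k, hk⟩ := (isOfFinOrder_of_finite g).mem_powers_iff_mem_zpowers.2 h1
  have hk' : g ^ k = h := hk
  have h2 : orderOf h = orderOf g := by
    rw [← Nat.card_zpowers, ← Nat.card_zpowers, hz]
  have h3 : (orderOf g).gcd k = 1 := by
    have h5 : orderOf (g ^ k) = orderOf g / (orderOf g).gcd k := orderOf_pow g
    rw [hk', h2] at h5
    have h6 : 0 < orderOf g := orderOf_pos g
    have h7 : (orderOf g).gcd k ∣ orderOf g := Nat.gcd_dvd_left _ _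
    obtain ⟨c, hc⟩ := h7
    have h8 : 0 < (orderOf g).gcd k := Nat.gcd_pos_of_pos_left _ h6
    have h9 : orderOf g / (orderOf g).gcd k = c := Nat.div_eq_of_eq_mul_right h8 hc
    rw [h9] at h5
    rw [← h5] at hc
    have h10 : (orderOf g) * (orderOf g).gcd k = orderOf g * 1 := by
      rw [mul_one, mul_comm]
      exact hc.symm
    exact Nat.eq_of_mul_eq_mul_left h6 h10
  by_cases h30 : k % 3 = 0
  · refine ⟨k + orderOf g, ?_, ?_⟩
    · intro h4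
      have h5 : 3 ∣ (orderOf g).gcd k := Nat.dvd_gcd (by omega) (by omega)
      rw [h3] at h5
      omega
    · rw [pow_add, pow_orderOf_eq_one, mul_one, hk']
  · exact ⟨k, h30, hk'.symm⟩

section
variable {G : Type} [Group G] {f m s : ℕ} (χ : G →* (ZMod f)ˣ)
    (κ : (ZMod f)ˣ →* Multiplicative (Fin (m + 1) → ZMod 3)) (c : Fin (m + 1) → ZMod 3)
    (C : Fin s → Fin s → ZMod 3) (Φ : (ZMod f)ˣ →* Multiplicative (Fin s → Fin s → ZMod 3))
    (t : ℕ) (F : G → Prop) (tt : G → Fin s → Fin s → ZMod 3)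

/-- the elements with class `c` or `-c` -/
def InU (g : G) : Prop := M1 (χ g) ∧ ((κ (χ g)).toAdd = c ∨ (κ (χ g)).toAdd = -c)

/-- the elements of class `c` with the pattern and large kernel -/
def XP (g : G) : Prop := M1 (χ g) ∧ (κ (χ g)).toAdd = c ∧ F g ∧
  t ≤ s - (alt (C + (Φ (χ g)).toAdd + tt g)).rank

/-- the elements of class `-c` with the pattern and large kernel -/
def XM (g : G) : Prop := M1 (χ g) ∧ (κ (χ g)).toAdd = -c ∧ F g ∧
  t ≤ s - (alt (C - (Φ (χ g)).toAdd - tt g)).rank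

/-- passing to a power with exponent prime to `3` -/
theorem transfer (hf : 0 < f) (h3 : 3 ∣ f) {g h : G} {k : ℕ} (hk3 : k % 3 ≠ 0)
    (hχ : χ h = χ g ^ k) (hg : M1 (χ g)) (hF : F h → F g)
    (ht : F g → ∀ j i, j ≠ i → tt h j i = k * tt g j i) :
    (InU χ κ c g → InU χ κ c h) ∧
      (((XP χ κ c C Φ t F tt h → XP χ κ c C Φ t F tt g) ∧
          (XM χ κ c C Φ t F tt h → XM χ κ c C Φ t F tt g)) ∨
        ((XP χ κ c C Φ t F tt h → XM χ κ c C Φ t F tt g) ∧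
          (XM χ κ c C Φ t F tt h → XP χ κ c C Φ t F tt g))) := by
  have hM : M1 (χ h) := by
    rw [hχ]
    exact M1_pow hf h3 hg k
  have e1 : (κ (χ h)).toAdd = k • (κ (χ g)).toAdd := by
    rw [hχ, map_pow, toAdd_pow]
  have e2 : (Φ (χ h)).toAdd = k • (Φ (χ g)).toAdd := by
    rw [hχ, map_pow, toAdd_pow]
  have hk12 : k % 3 = 1 ∨ k % 3 = 2 := by omega
  rcases hk12 with hk1 | hk2
  · rw [nsmul_one three_f hk1] at e1
    rw [nsmul_one three_ff hk1] at e2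
    have ht' : F g → ∀ j i, j ≠ i → tt h j i = tt g j i := by
      intro hFg j i hji
      rw [ht hFg j i hji, cast_one hk1]
    refine ⟨?_, Or.inl ⟨?_, ?_⟩⟩
    · rintro ⟨-, h2⟩
      refine ⟨hM, ?_⟩
      rw [e1]
      exact h2
    · rintro ⟨-, h2, hFh, h4⟩
      rw [e1] at h2
      rw [(DENSS.det_same e2 (ht' (hF hFh))).1] at h4
      exact ⟨hg, h2, hF hFh, h4⟩
    · rintro ⟨-, h2, hFh, h4⟩
      rw [e1] at h2
      rw [(DENSS.det_same e2 (ht' (hF hFh))).2] at h4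
      exact ⟨hg, h2, hF hFh, h4⟩
  · rw [nsmul_two three_f hk2] at e1
    rw [nsmul_two three_ff hk2] at e2
    have ht' : F g → ∀ j i, j ≠ i → tt h j i = - tt g j i := by
      intro hFg j i hji
      rw [ht hFg j i hji, cast_two hk2]
    refine ⟨?_, Or.inr ⟨?_, ?_⟩⟩
    · rintro ⟨-, h2⟩
      refine ⟨hM, ?_⟩
      rw [e1]
      rcases h2 with h2 | h2
      · exact Or.inr (by rw [h2])
      · exact Or.inl (by rw [h2, neg_neg])
    · rintro ⟨-, h2, hFh, h4⟩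
      rw [e1] at h2
      rw [(DENSS.det_opp e2 (ht' (hF hFh))).1] at h4
      exact ⟨hg, by rw [← h2, neg_neg], hF hFh, h4⟩
    · rintro ⟨-, h2, hFh, h4⟩
      rw [e1] at h2
      rw [(DENSS.det_opp e2 (ht' (hF hFh))).2] at h4
      exact ⟨hg, neg_injective h2, hF hFh, h4⟩

/-- a predicate which can be transferred -/
def Inv (B : G → Prop) : Prop := ∀ {g h : G} {k : ℕ}, k % 3 ≠ 0 → χ h = χ g ^ k →
  M1 (χ g) → (F h → F g) → (F g → ∀ j i, j ≠ i → tt h j i = k * tt g j i) →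
  (InU χ κ c g → InU χ κ c h) ∧ (B h → B g)

theorem inv_or (hf : 0 < f) (h3 : 3 ∣ f) :
    Inv χ κ c F tt fun g => XP χ κ c C Φ t F tt g ∨ XM χ κ c C Φ t F tt g := by
  intro g h k hk3 hχ hg hF ht
  obtain ⟨h1, h2⟩ := transfer χ κ c C Φ t F tt hf h3 hk3 hχ hg hF ht
  refine ⟨h1, ?_⟩
  rcases h2 with ⟨h4, h5⟩ | ⟨h4, h5⟩
  · rintro (h6 | h6)
    · exact Or.inl (h4 h6)
    · exact Or.inr (h5 h6)
  · rintro (h6 | h6)
    · exact Or.inr (h4 h6)
    · exact Or.inl (h5 h6)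

theorem inv_and (hf : 0 < f) (h3 : 3 ∣ f) :
    Inv χ κ c F tt fun g => XP χ κ c C Φ t F tt g ∧ XM χ κ c C Φ t F tt g := by
  intro g h k hk3 hχ hg hF ht
  obtain ⟨h1, h2⟩ := transfer χ κ c C Φ t F tt hf h3 hk3 hχ hg hF ht
  refine ⟨h1, ?_⟩
  rcases h2 with ⟨h4, h5⟩ | ⟨h4, h5⟩
  · rintro ⟨h6, h7⟩
    exact ⟨h4 h6, h5 h7⟩
  · rintro ⟨h6, h7⟩
    exact ⟨h5 h7, h4 h6⟩

/-- the data of generators of conjugate cyclic groups -/
theorem gen [Finite G] (hf : 0 < f) (h3 : 3 ∣ f)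
    (hconj : ∀ g τ : G, M1 (χ g) → F g →
      F (τ * g * τ⁻¹) ∧ ∀ j i, j ≠ i → tt (τ * g * τ⁻¹) j i = tt g j i)
    (hpow : ∀ (g : G) (k : ℕ), M1 (χ g) → F g → ¬ 3 ∣ k →
      F (g ^ k) ∧ ∀ j i, j ≠ i → tt (g ^ k) j i = k * tt g j i)
    {g h τ : G} (hM : M1 (χ g))
    (hz : Subgroup.zpowers h = Subgroup.zpowers (τ * g * τ⁻¹)) :
    ∃ k : ℕ, k % 3 ≠ 0 ∧ χ h = χ g ^ k ∧ (F h → F g) ∧
      (F g → ∀ j i, j ≠ i → tt h j i = k * tt g j i) := by
  have hχg : χ (τ * g * τ⁻¹) = χ g := by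
    rw [map_mul, map_mul, map_inv, mul_comm (χ τ), mul_inv_cancel_right]
  have hM' : M1 (χ (τ * g * τ⁻¹)) := by
    rw [hχg]
    exact hM
  obtain ⟨k, hk3, hh⟩ := exists_pow3 hz
  obtain ⟨l, hl3, hl⟩ := exists_pow3 hz.symm
  have h1 : χ h = χ g ^ k := by
    rw [hh, map_pow, hχg]
  have hMh : M1 (χ h) := by
    rw [h1]
    exact M1_pow hf h3 hM k
  refine ⟨k, hk3, h1, ?_, ?_⟩
  · intro hFh
    have h4 : F (τ * g * τ⁻¹) := by
      rw [hl]
      exact (hpow h l hMh hFh (by omega)).1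
    have h5 := (hconj (τ * g * τ⁻¹) τ⁻¹ hM' h4).1
    have h6 : τ⁻¹ * (τ * g * τ⁻¹) * τ⁻¹⁻¹ = g := by group
    rwa [h6] at h5
  · intro hFg j i hji
    obtain ⟨h4, h5⟩ := hconj g τ hM hFg
    rw [hh, (hpow _ k hM' h4 (by omega)).2 j i hji, h5 j i hji]

/-- the elements that are not bad are stable under conjugation and change of generator -/
theorem stable [Finite G] (hf : 0 < f) (h3 : 3 ∣ f) {B : G → Prop} (hB : Inv χ κ c F tt B)
    (hconj : ∀ g τ : G, M1 (χ g) → F g →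
      F (τ * g * τ⁻¹) ∧ ∀ j i, j ≠ i → tt (τ * g * τ⁻¹) j i = tt g j i)
    (hpow : ∀ (g : G) (k : ℕ), M1 (χ g) → F g → ¬ 3 ∣ k →
      F (g ^ k) ∧ ∀ j i, j ≠ i → tt (g ^ k) j i = k * tt g j i)
    {g h τ : G} (hg : InU χ κ c g ∧ ¬ B g)
    (hz : Subgroup.zpowers h = Subgroup.zpowers (τ * g * τ⁻¹)) :
    InU χ κ c h ∧ ¬ B h := by
  obtain ⟨k, hk3, h1, h2, h4⟩ := gen χ F tt hf h3 hconj hpow hg.1.1 hz
  obtain ⟨h5, h6⟩ := hB hk3 h1 hg.1.1 h2 h4
  exact ⟨h5 hg.1, fun h7 => hg.2 (h6 h7)⟩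

/-- counting in one class -/
theorem card_cls [Finite G] (hEQX : Stmt_EQX)
    (heq : ∀ (a : (ZMod f)ˣ) (v v' : Fin s → Fin s → ZMod 3), M1 a →
      Nat.card {g : G // χ g = a ∧ F g ∧ ∀ j i, j < i → tt g j i = v j i} =
        Nat.card {g : G // χ g = a ∧ F g ∧ ∀ j i, j < i → tt g j i = v' j i})
    (hcF : ∀ a : (ZMod f)ˣ, M1 a → 3 ^ (s + 1) * Nat.card {g : G // χ g = a ∧ F g} =
      2 * Nat.card {g : G // χ g = a})
    (hfib : ∀ a : (ZMod f)ˣ, Nat.card {g : G // χ g = a} = Nat.card χ.ker)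
    (a : (ZMod f)ˣ) (D : Fin s → Fin s → ZMod 3) (ha : M1 a) :
    (3 ^ (s + 1) * Nat.card (Fin s → Fin s → ZMod 3)) *
        Nat.card {g : G // χ g = a ∧ F g ∧ t ≤ s - (alt (D + tt g)).rank} ≤
        2 * NK s t * Nat.card χ.ker ∧
    (3 ^ (s + 1) * Nat.card (Fin s → Fin s → ZMod 3)) *
        Nat.card {g : G // χ g = a ∧ F g ∧ t ≤ s - (alt (D - tt g)).rank} ≤
        2 * NK s t * Nat.card χ.ker := by
  have key : ∀ R : G → Prop, Nat.card {x : {g : G // χ g = a ∧ F g} // R x} =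
      Nat.card {g : G // χ g = a ∧ F g ∧ R g} := fun R =>
    Nat.card_congr ((Equiv.subtypeSubtypeEquivSubtypeInter (fun g : G => χ g = a ∧ F g) R).trans
      (Equiv.subtypeEquivRight fun g => and_assoc))
  obtain ⟨h1, h2⟩ := hEQX s {g : G // χ g = a ∧ F g} (fun x => tt x) (by
    intro v v'
    rw [key (fun g => ∀ j i, j < i → tt g j i = v j i),
      key (fun g => ∀ j i, j < i → tt g j i = v' j i)]
    exact heq a v v' ha) D {M | t ≤ s - M.rank}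
  have k1 := key (fun g => t ≤ s - (alt (D + tt g)).rank)
  have k2 := key (fun g => t ≤ s - (alt (D - tt g)).rank)
  have h3 := hcF a ha
  rw [hfib a] at h3
  have h1' : Nat.card {g : G // χ g = a ∧ F g ∧ t ≤ s - (alt (D + tt g)).rank} *
      Nat.card (Fin s → Fin s → ZMod 3) = NK s t * Nat.card {g : G // χ g = a ∧ F g} := by
    rw [← k1]
    exact h1
  have h2' : Nat.card {g : G // χ g = a ∧ F g ∧ t ≤ s - (alt (D - tt g)).rank} *
      Nat.card (Fin s → Fin s → ZMod 3) = NK s t * Nat.card {g : G // χ g = a ∧ F g} := by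
    rw [← k2]
    exact h2
  generalize Nat.card {g : G // χ g = a ∧ F g ∧ t ≤ s - (alt (D + tt g)).rank} = x1 at *
  generalize Nat.card {g : G // χ g = a ∧ F g ∧ t ≤ s - (alt (D - tt g)).rank} = x2 at *
  generalize Nat.card {g : G // χ g = a ∧ F g} = X at *
  generalize Nat.card (Fin s → Fin s → ZMod 3) = A at *
  generalize Nat.card χ.ker = K at *
  generalize 3 ^ (s + 1) = T at *
  constructor
  · calc (T * A) * x1 = T * (x1 * A) := by ring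
      _ = NK s t * (T * X) := by rw [h1']; ring
      _ = 2 * NK s t * K := by rw [h3]; ring
      _ ≤ _ := le_refl _
  · calc (T * A) * x2 = T * (x2 * A) := by ring
      _ = NK s t * (T * X) := by rw [h2']; ring
      _ = 2 * NK s t * K := by rw [h3]; ring
      _ ≤ _ := le_refl _

/-- counting -/
theorem card_X [Finite G] (hEQX : Stmt_EQX) (hf : 0 < f) (hχ : Function.Surjective χ)
    (heq : ∀ (a : (ZMod f)ˣ) (v v' : Fin s → Fin s → ZMod 3), M1 a →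
      Nat.card {g : G // χ g = a ∧ F g ∧ ∀ j i, j < i → tt g j i = v j i} =
        Nat.card {g : G // χ g = a ∧ F g ∧ ∀ j i, j < i → tt g j i = v' j i})
    (hcF : ∀ a : (ZMod f)ˣ, M1 a → 3 ^ (s + 1) * Nat.card {g : G // χ g = a ∧ F g} =
      2 * Nat.card {g : G // χ g = a})
    (hκ : ∀ c : Fin (m + 1) → ZMod 3,
      Nat.card {a : (ZMod f)ˣ // M1 a ∧ (κ a).toAdd = c} * (2 * 3 ^ (m + 1)) = f.totient) :
    (3 ^ (s + 1) * Nat.card (Fin s → Fin s → ZMod 3)) *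
        Nat.card {g : G // XP χ κ c C Φ t F tt g} *
        (2 * 3 ^ (m + 1)) ≤ 2 * NK s t * Nat.card G ∧
      (3 ^ (s + 1) * Nat.card (Fin s → Fin s → ZMod 3)) *
        Nat.card {g : G // XM χ κ c C Φ t F tt g} *
        (2 * 3 ^ (m + 1)) ≤ 2 * NK s t * Nat.card G := by
  have : NeZero f := ⟨hf.ne'⟩
  obtain ⟨hfib, hcard⟩ := fibre χ hχ
  have hH : Nat.card (ZMod f)ˣ = f.totient := by
    rw [Nat.card_eq_fintype_card, ZMod.card_units_eq_totient]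
  rw [hH] at hcard
  have hcls := card_cls χ t F tt hEQX heq hcF hfib
  have hP : (3 ^ (s + 1) * Nat.card (Fin s → Fin s → ZMod 3)) *
      Nat.card {g : G // (M1 (χ g) ∧ (κ (χ g)).toAdd = c) ∧
        F g ∧ t ≤ s - (alt (C + (Φ (χ g)).toAdd + tt g)).rank} ≤
      Nat.card {a : (ZMod f)ˣ // M1 a ∧ (κ a).toAdd = c} * (2 * NK s t * Nat.card χ.ker) := by
    refine count_le χ (fun g => F g ∧ t ≤ s - (alt (C + (Φ (χ g)).toAdd + tt g)).rank)
      (fun a => M1 a ∧ (κ a).toAdd = c) _ _ fun a ha => ?_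
    refine le_trans (Nat.mul_le_mul_left _ (le_of_eq ?_)) (hcls a (C + (Φ a).toAdd) ha.1).1
    refine Nat.card_congr (Equiv.subtypeEquivRight fun g => ?_)
    constructor
    · rintro ⟨rfl, h⟩
      exact ⟨rfl, h⟩
    · rintro ⟨rfl, h⟩
      exact ⟨rfl, h⟩
  have hN : (3 ^ (s + 1) * Nat.card (Fin s → Fin s → ZMod 3)) *
      Nat.card {g : G // (M1 (χ g) ∧ (κ (χ g)).toAdd = -c) ∧
        F g ∧ t ≤ s - (alt (C - (Φ (χ g)).toAdd - tt g)).rank} ≤
      Nat.card {a : (ZMod f)ˣ // M1 a ∧ (κ a).toAdd = -c} * (2 * NK s t * Nat.card χ.ker) := by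
    refine count_le χ (fun g => F g ∧ t ≤ s - (alt (C - (Φ (χ g)).toAdd - tt g)).rank)
      (fun a => M1 a ∧ (κ a).toAdd = -c) _ _ fun a ha => ?_
    refine le_trans (Nat.mul_le_mul_left _ (le_of_eq ?_)) (hcls a (C - (Φ a).toAdd) ha.1).2
    refine Nat.card_congr (Equiv.subtypeEquivRight fun g => ?_)
    constructor
    · rintro ⟨rfl, h⟩
      exact ⟨rfl, h⟩
    · rintro ⟨rfl, h⟩
      exact ⟨rfl, h⟩
  have e1 : Nat.card {g : G // XP χ κ c C Φ t F tt g} =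
      Nat.card {g : G // (M1 (χ g) ∧ (κ (χ g)).toAdd = c) ∧
        F g ∧ t ≤ s - (alt (C + (Φ (χ g)).toAdd + tt g)).rank} :=
    Nat.card_congr (Equiv.subtypeEquivRight fun g => (and_assoc).symm)
  have e2 : Nat.card {g : G // XM χ κ c C Φ t F tt g} =
      Nat.card {g : G // (M1 (χ g) ∧ (κ (χ g)).toAdd = -c) ∧
        F g ∧ t ≤ s - (alt (C - (Φ (χ g)).toAdd - tt g)).rank} :=
    Nat.card_congr (Equiv.subtypeEquivRight fun g => (and_assoc).symm)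
  rw [← e1] at hP
  rw [← e2] at hN
  have h1 := hκ c
  have h2 := hκ (-c)
  generalize Nat.card {g : G // XP χ κ c C Φ t F tt g} = nP at *
  generalize Nat.card {g : G // XM χ κ c C Φ t F tt g} = nN at *
  generalize Nat.card {a : (ZMod f)ˣ // M1 a ∧ (κ a).toAdd = c} = cP at *
  generalize Nat.card {a : (ZMod f)ˣ // M1 a ∧ (κ a).toAdd = -c} = cN at *
  generalize 3 ^ (s + 1) * Nat.card (Fin s → Fin s → ZMod 3) = A at *
  generalize 3 ^ (m + 1) = T at *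
  generalize Nat.card χ.ker = K at *
  rw [← hcard]
  constructor
  · calc A * nP * (2 * T) ≤ cP * (2 * NK s t * K) * (2 * T) := Nat.mul_le_mul_right _ hP
      _ = 2 * NK s t * (K * (cP * (2 * T))) := by ring
      _ = 2 * NK s t * (K * f.totient) := by rw [h1]
  · calc A * nN * (2 * T) ≤ cN * (2 * NK s t * K) * (2 * T) := Nat.mul_le_mul_right _ hN
      _ = 2 * NK s t * (K * (cN * (2 * T))) := by ring
      _ = 2 * NK s t * (K * f.totient) := by rw [h2]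

/-- counting the elements of `T` -/
theorem card_T [Finite G] (hf : 0 < f) (hχ : Function.Surjective χ) (B : G → Prop) :
    (Nat.card {a : (ZMod f)ˣ // M1 a ∧ ((κ a).toAdd = c ∨ (κ a).toAdd = -c)} : ℝ) *
        (1 / (f.totient : ℝ)) -
      (Nat.card {g : G // InU χ κ c g ∧ ¬ B g} : ℝ) / Nat.card G ≤
      (Nat.card {g : G // B g} : ℝ) / Nat.card G := by
  have : NeZero f := ⟨hf.ne'⟩
  obtain ⟨hfib, hcard⟩ := fibre χ hχ
  have hH : Nat.card (ZMod f)ˣ = f.totient := by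
    rw [Nat.card_eq_fintype_card, ZMod.card_units_eq_totient]
  rw [hH] at hcard
  have hU : Nat.card {g : G // InU χ κ c g} =
      Nat.card {a : (ZMod f)ˣ // M1 a ∧ ((κ a).toAdd = c ∨ (κ a).toAdd = -c)} *
        Nat.card χ.ker :=
    count_eq χ (fun a => M1 a ∧ ((κ a).toAdd = c ∨ (κ a).toAdd = -c)) _ fun a _ => hfib a
  have hUT : Nat.card {g : G // InU χ κ c g} ≤
      Nat.card {g : G // InU χ κ c g ∧ ¬ B g} + Nat.card {g : G // B g} := by
    have h1 : {g : G | InU χ κ c g} ⊆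
        {g : G | InU χ κ c g ∧ ¬ B g} ∪ {g : G | B g} := by
      intro g hg
      by_cases hb : B g
      · exact Or.inr hb
      · exact Or.inl ⟨hg, hb⟩
    exact (Set.ncard_le_ncard h1 (Set.toFinite _)).trans (Set.ncard_union_le _ _)
  have hK : 0 < Nat.card χ.ker := Nat.card_pos
  have hφ : 0 < f.totient := Nat.totient_pos.2 hf
  rw [hU] at hUT
  generalize Nat.card {a : (ZMod f)ˣ // M1 a ∧ ((κ a).toAdd = c ∨ (κ a).toAdd = -c)} = nV at *
  generalize Nat.card {g : G // InU χ κ c g ∧ ¬ B g} = nT at *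
  generalize Nat.card {g : G // B g} = nB at *
  generalize Nat.card χ.ker = K at *
  rw [← hcard]
  have hK' : (0 : ℝ) < K := Nat.cast_pos.2 hK
  have hφ' : (0 : ℝ) < f.totient := Nat.cast_pos.2 hφ
  have h1 : (nV : ℝ) * K ≤ nT + nB := by exact_mod_cast hUT
  have h3 : (nV : ℝ) * (1 / (f.totient : ℝ)) - (nT : ℝ) / ((K * f.totient : ℕ) : ℝ) =
      (nV * K - nT) / (K * f.totient) := by
    push_cast
    field_simp
  rw [h3]
  push_cast
  exact div_le_div_of_nonneg_right (by linarith) (by positivity)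

end

/-- the density of a set of primes -/
theorem dens (hDIR : DIR) {f m : ℕ} (hf : 0 < f) (h3 : 3 ∣ f)
    (κ : (ZMod f)ˣ →* Multiplicative (Fin (m + 1) → ZMod 3)) (c : Fin (m + 1) → ZMod 3)
    (L : Type) [Field L] [NumberField L] [IsGalois ℚ L] (χ : (L ≃ₐ[ℚ] L) →* (ZMod f)ˣ)
    (N₀ : ℕ) (hχ : Function.Surjective χ) (R : ℕ → (L ≃ₐ[ℚ] L) → Prop)
    (hfrob : ∀ (Q : ℕ) (hQ : Q.Coprime f), Q.Prime → N₀ < Q → ∀ (P : Ideal (𝓞 L))
      (g : L ≃ₐ[ℚ] L), P.IsPrime → (Q : 𝓞 L) ∈ P →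
      MulAction.stabilizer (L ≃ₐ[ℚ] L) P = Subgroup.zpowers g →
      ∃ k : ℕ, k.Coprime (orderOf g) ∧ χ (g ^ k) = ZMod.unitOfCoprime Q hQ ∧ R Q (g ^ k))
    (B : (L ≃ₐ[ℚ] L) → Prop)
    (hst : ∀ g h τ : L ≃ₐ[ℚ] L, InU χ κ c g ∧ ¬ B g →
      Subgroup.zpowers h = Subgroup.zpowers (τ * g * τ⁻¹) → InU χ κ c h ∧ ¬ B h)
    (S : Set ℕ)
    (hS1 : ∀ n : ℕ, n.Prime → ∀ hQ : n.Coprime f, n ∈ S → n % 3 = 1 ∧
      ((κ (ZMod.unitOfCoprime n hQ)).toAdd = c ∨ (κ (ZMod.unitOfCoprime n hQ)).toAdd = -c))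
    (hS2 : ∀ n : ℕ, n.Prime → ∀ hQ : n.Coprime f, n ∈ S → ∀ g : L ≃ₐ[ℚ] L,
      χ g = ZMod.unitOfCoprime n hQ → R n g → B g) :
    ∃ K : ℝ, ∀ σ : ℝ, 1 < σ → σ ≤ 2 → sm S σ ≤
      (Nat.card {g : L ≃ₐ[ℚ] L // B g} : ℝ) / Nat.card (L ≃ₐ[ℚ] L) *
        Real.log (1 / (σ - 1)) + K := by
  classical
  have : NeZero f := ⟨hf.ne'⟩
  have hst' : ∀ g h τ : L ≃ₐ[ℚ] L, g ∈ {g | InU χ κ c g ∧ ¬ B g} →
      Subgroup.zpowers h = Subgroup.zpowers (τ * g * τ⁻¹) →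
      h ∈ {g | InU χ κ c g ∧ ¬ B g} := fun g h τ hg hz => hst g h τ hg hz
  obtain ⟨C1, hC1⟩ := RI.FROBD_thm L _ hst'
  choose DC hDC using fun a : (ZMod f)ˣ => hDIR f a hf
  have hT := card_T χ κ c hf hχ B
  obtain ⟨ST, hST⟩ : ∃ ST : Set ℕ, ST = {Q : ℕ | ∃ g ∈ {g | InU χ κ c g ∧
      ¬ B g}, ∃ P : Ideal (𝓞 L), P.IsPrime ∧ (Q : 𝓞 L) ∈ P ∧
      MulAction.stabilizer (L ≃ₐ[ℚ] L) P = Subgroup.zpowers g} := ⟨_, rfl⟩
  obtain ⟨V, hV⟩ : ∃ V : Finset (ZMod f)ˣ, V = Finset.univ.filter fun a =>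
      M1 a ∧ ((κ a).toAdd = c ∨ (κ a).toAdd = -c) := ⟨_, rfl⟩
  have hVc : V.card =
      Nat.card {a : (ZMod f)ˣ // M1 a ∧ ((κ a).toAdd = c ∨ (κ a).toAdd = -c)} := by
    rw [Nat.card_eq_fintype_card, Fintype.card_subtype, hV]
  have hM : ∀ (Q : ℕ) (hQ : Q.Coprime f), M1 (ZMod.unitOfCoprime Q hQ) ↔ Q % 3 = 1 := by
    intro Q hQ
    unfold M1
    rw [ZMod.coe_unitOfCoprime, ZMod.val_natCast, Nat.mod_mod_of_dvd _ h3]
  have hcop : ∀ n : ℕ, n.Prime → n ∉ Finset.range (max N₀ f + 1) → n.Coprime f ∧ N₀ < n := by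
    intro n hn hA
    rw [Finset.mem_range, not_lt] at hA
    refine ⟨(Nat.Prime.coprime_iff_not_dvd hn).2 fun h => ?_, ?_⟩
    · have h1 := Nat.le_of_dvd hf h
      have h2 := le_max_right N₀ f
      omega
    · have h2 := le_max_left N₀ f
      omega
  have hSTe : ∀ n : ℕ, n.Prime → n ∉ Finset.range (max N₀ f + 1) → n ∈ ST →
      ∃ (hQ : n.Coprime f) (g : L ≃ₐ[ℚ] L), (InU χ κ c g ∧ ¬ B g) ∧
        χ g = ZMod.unitOfCoprime n hQ ∧ R n g := by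
    intro n hn hA hnST
    rw [hST] at hnST
    obtain ⟨g, hg, P, hP, hnP, hstab⟩ := hnST
    obtain ⟨hQ, hN⟩ := hcop n hn hA
    obtain ⟨k, hk, hχk, htk⟩ := hfrob n hQ hn hN P g hP hnP hstab
    refine ⟨hQ, g ^ k, ?_, hχk, htk⟩
    refine hst g (g ^ k) 1 hg ?_
    rw [one_mul, inv_one, mul_one]
    exact zpowers_pow_eq hk
  refine ⟨2 * (Finset.range (max N₀ f + 1)).card + ∑ a ∈ V, DC a + C1, fun σ h1 h2 => ?_⟩
  have key := sm_add_le S ST {Q : ℕ | ∃ a ∈ V, (Q : ZMod f) = a}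
    (Finset.range (max N₀ f + 1)) ?_ ?_ h1
  · have cov := sm_cover {Q : ℕ | ∃ a ∈ V, (Q : ZMod f) = a} V (fun n _ hn => hn) h1
    have hfr := hC1 σ h1 h2
    have hfr' : ((Nat.card {g : L ≃ₐ[ℚ] L // InU χ κ c g ∧ ¬ B g} : ℝ) /
        Nat.card (L ≃ₐ[ℚ] L)) * Real.log (1 / (σ - 1)) - C1 ≤ sm ST σ := by
      rw [hST]
      exact hfr
    have hsum : ∑ a ∈ V, ∑' q : {q : ℕ // q.Prime ∧ (q : ZMod f) = a}, (q : ℝ) ^ (-σ) ≤
        ∑ a ∈ V, ((1 / (f.totient : ℝ)) * Real.log (1 / (σ - 1)) + DC a) :=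
      Finset.sum_le_sum fun a _ => hDC a σ h1 h2
    rw [Finset.sum_add_distrib, Finset.sum_const, nsmul_eq_mul, hVc] at hsum
    have hlog : 0 ≤ Real.log (1 / (σ - 1)) := by
      apply Real.log_nonneg
      rw [le_div_iff₀ (by linarith)]
      linarith
    have hmul := mul_le_mul_of_nonneg_right hT hlog
    rw [sub_mul, mul_assoc] at hmul
    linarith
  · intro n hn hA hnB
    obtain ⟨hQ, _⟩ := hcop n hn hA
    obtain ⟨hn3, hnc⟩ := hS1 n hn hQ hnB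
    constructor
    · refine ⟨ZMod.unitOfCoprime n hQ, ?_, ZMod.coe_unitOfCoprime n hQ⟩
      rw [hV]
      exact Finset.mem_filter.2 ⟨Finset.mem_univ _, (hM n hQ).2 hn3, hnc⟩
    · intro hnST
      obtain ⟨hQ', g, ⟨hgU, hgB⟩, hχg, htg⟩ := hSTe n hn hA hnST
      exact hgB (hS2 n hn hQ' hnB g hχg htg)
  · intro n hn hA hnST
    obtain ⟨hQ', g, ⟨hgU, hgB⟩, hχg, htg⟩ := hSTe n hn hA hnST
    refine ⟨ZMod.unitOfCoprime n hQ', ?_, ZMod.coe_unitOfCoprime n hQ'⟩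
    rw [hV]
    have h5 := hgU
    unfold InU at h5
    rw [hχg] at h5
    exact Finset.mem_filter.2 ⟨Finset.mem_univ _, h5⟩

end BDU

open BDENS _root_.Pool.Agent.PTN.BDU in
/-- BDU: the exact bound for the density, both exponents together, `Q = 1 (mod 3)`. -/
theorem BDU_thm (hGALDU : Stmt_GALDU) (hEQX : Stmt_EQX) (hDIR : DIR) : Stmt_BDU := by
  classical
  intro s b p q p' q' f m t κ c C Φ hSys hf h9 hκ
  obtain ⟨L, iF, iN, iG, χ, F, tt, N₀, hχ, hconj, hpow, heq, hcF, hfrob⟩ :=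
    hGALDU s b p q p' q' f hSys hf h9
  have h3 : 3 ∣ f := Dvd.dvd.trans (by norm_num) h9
  have hM : ∀ (Q : ℕ) (hQ : Q.Coprime f), M1 (ZMod.unitOfCoprime Q hQ) ↔ Q % 3 = 1 := by
    intro Q hQ
    unfold M1
    rw [ZMod.coe_unitOfCoprime, ZMod.val_natCast, Nat.mod_mod_of_dvd _ h3]
  let R : ℕ → (L ≃ₐ[ℚ] L) → Prop := fun Q g =>
    Q % 3 = 1 → ∀ ρ : PP, (Q : Eis) = ρ.1 * conj ρ.1 →
      (F g ↔ (∀ j : Fin s, sym ρ.1 (b j.castSucc : Eis) = 0) ∧
        sym ρ.1 (b (Fin.last s) : Eis) ≠ 0) ∧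
      (F g → ∀ j i : Fin s, j ≠ i → ∀ r : ℤ, (Q : ℤ) ∣ r ^ 3 - b j.castSucc →
        tt g j i = TAUVS ρ.1 (rs p j i) (rs q j i) (rs p' j i) (rs q' j i) r)
  have hP : ∀ n : ℕ, n.Prime → ∀ hQ : n.Coprime f, n ∈ SPU b p q p' q' t κ c C Φ →
      ∀ g : L ≃ₐ[ℚ] L, χ g = ZMod.unitOfCoprime n hQ → R n g → XP χ κ c C Φ t F tt g := by
    intro n hn hQ hnS g hg hR
    obtain ⟨hQ', ρ, ⟨h1, h2, h5, h6, h7⟩, h4⟩ := hnS
    obtain ⟨r1, r2⟩ := hR h1 ρ h5
    have hFg : F g := r1.2 ⟨h6, h7⟩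
    refine ⟨?_, ?_, hFg, ?_⟩
    · rw [hg]
      exact (hM n hQ).2 h1
    · rw [hg]
      exact h2
    · rw [hg]
      exact h4 (tt g) (r2 hFg)
  have hN : ∀ n : ℕ, n.Prime → ∀ hQ : n.Coprime f, n ∈ SMU b p q p' q' t κ c C Φ →
      ∀ g : L ≃ₐ[ℚ] L, χ g = ZMod.unitOfCoprime n hQ → R n g → XM χ κ c C Φ t F tt g := by
    intro n hn hQ hnS g hg hR
    obtain ⟨hQ', ρ, ⟨h1, h2, h5, h6, h7⟩, h4⟩ := hnS
    obtain ⟨r1, r2⟩ := hR h1 ρ h5
    have hFg : F g := r1.2 ⟨h6, h7⟩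
    refine ⟨?_, ?_, hFg, ?_⟩
    · rw [hg]
      exact (hM n hQ).2 h1
    · rw [hg]
      exact h2
    · rw [hg]
      exact h4 (tt g) (r2 hFg)
  obtain ⟨K1, hK1⟩ := dens hDIR hf h3 κ c L χ N₀ hχ R hfrob
    (fun g => XP χ κ c C Φ t F tt g ∨ XM χ κ c C Φ t F tt g)
    (fun g h τ hg hz => stable χ κ c F tt hf h3 (inv_or χ κ c C Φ t F tt hf h3) hconj hpow hg hz)
    (SPU b p q p' q' t κ c C Φ ∪ SMU b p q p' q' t κ c C Φ)
    (by
      rintro n hn hQ (⟨hQ', ρ, ⟨h1, h2, -⟩, -⟩ | ⟨hQ', ρ, ⟨h1, h2, -⟩, -⟩)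
      · exact ⟨h1, Or.inl h2⟩
      · exact ⟨h1, Or.inr h2⟩)
    (by
      rintro n hn hQ (h | h) g hg htg
      · exact Or.inl (hP n hn hQ h g hg htg)
      · exact Or.inr (hN n hn hQ h g hg htg))
  obtain ⟨K2, hK2⟩ := dens hDIR hf h3 κ c L χ N₀ hχ R hfrob
    (fun g => XP χ κ c C Φ t F tt g ∧ XM χ κ c C Φ t F tt g)
    (fun g h τ hg hz => stable χ κ c F tt hf h3 (inv_and χ κ c C Φ t F tt hf h3) hconj hpow hg hz)
    (SPU b p q p' q' t κ c C Φ ∩ SMU b p q p' q' t κ c C Φ)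
    (by
      rintro n hn hQ ⟨⟨hQ', ρ, ⟨h1, h2, -⟩, -⟩, -⟩
      exact ⟨h1, Or.inl h2⟩)
    (by
      rintro n hn hQ ⟨h, h'⟩ g hg htg
      exact ⟨hP n hn hQ h g hg htg, hN n hn hQ h' g hg htg⟩)
  obtain ⟨hX1, hX2⟩ := card_X χ κ c C Φ t F tt hEQX hf hχ heq hcF hκ
  have hincl := BD.card_incl (fun g => XP χ κ c C Φ t F tt g) (fun g => XM χ κ c C Φ t F tt g)
  refine ⟨K1 + K2, fun σ h1 h2 => ?_⟩
  have e1 := hK1 σ h1 h2
  have e2 := hK2 σ h1 h2
  have hlog : 0 ≤ Real.log (1 / (σ - 1)) := by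
    apply Real.log_nonneg
    rw [le_div_iff₀ (by linarith)]
    linarith
  rw [BD.sm_union_inter _ _ h1]
  have hG : 0 < Nat.card (L ≃ₐ[ℚ] L) := Nat.card_pos
  have hA : 0 < Nat.card (Fin s → Fin s → ZMod 3) := Nat.card_pos
  have hcnt : (Nat.card {g : L ≃ₐ[ℚ] L // XP χ κ c C Φ t F tt g ∨ XM χ κ c C Φ t F tt g} : ℝ) /
      Nat.card (L ≃ₐ[ℚ] L) +
      (Nat.card {g : L ≃ₐ[ℚ] L // XP χ κ c C Φ t F tt g ∧ XM χ κ c C Φ t F tt g} : ℝ) /
      Nat.card (L ≃ₐ[ℚ] L) ≤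
      2 / 3 ^ (s + 1) * ((NK s t : ℝ) / Nat.card (Fin s → Fin s → ZMod 3)) / 3 ^ (m + 1) := by
    generalize Nat.card {g : L ≃ₐ[ℚ] L // XP χ κ c C Φ t F tt g ∨ XM χ κ c C Φ t F tt g} = n1
      at *
    generalize Nat.card {g : L ≃ₐ[ℚ] L // XP χ κ c C Φ t F tt g ∧ XM χ κ c C Φ t F tt g} = n2
      at *
    generalize Nat.card {g : L ≃ₐ[ℚ] L // XP χ κ c C Φ t F tt g} = x1 at *
    generalize Nat.card {g : L ≃ₐ[ℚ] L // XM χ κ c C Φ t F tt g} = x2 at *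
    generalize Nat.card (Fin s → Fin s → ZMod 3) = A at *
    generalize Nat.card (L ≃ₐ[ℚ] L) = g0 at *
    have hG' : (0 : ℝ) < g0 := Nat.cast_pos.2 hG
    have hA' : (0 : ℝ) < A := Nat.cast_pos.2 hA
    have hT : (0 : ℝ) < 3 ^ (m + 1) := by positivity
    have hT' : (0 : ℝ) < 3 ^ (s + 1) := by positivity
    have i1 : (3 : ℝ) ^ (s + 1) * A * x1 * (2 * 3 ^ (m + 1)) ≤ 2 * NK s t * g0 := by
      exact_mod_cast hX1
    have i2 : (3 : ℝ) ^ (s + 1) * A * x2 * (2 * 3 ^ (m + 1)) ≤ 2 * NK s t * g0 := by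
      exact_mod_cast hX2
    have i3 : (n1 : ℝ) + n2 = x1 + x2 := by exact_mod_cast hincl
    have i4 : (2 : ℝ) / 3 ^ (s + 1) * ((NK s t : ℝ) / A) / 3 ^ (m + 1) =
        2 * NK s t / (3 ^ (s + 1) * A * 3 ^ (m + 1)) := by
      field_simp
    rw [← add_div, i3, i4, div_le_div_iff₀ hG' (by positivity)]
    nlinarith
  have hmul := mul_le_mul_of_nonneg_right hcnt hlog
  rw [add_mul] at hmul
  linarith

end Pool.Agent.PTN

end

section

/-!
# The average rank of prime twists: the commutators in the governing field over `K`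
-/

set_option autoImplicit false

open NumberField IsDedekindDomain Finset
open scoped nonZeroDivisors Pointwise

namespace Pool.Agent.PTK

open Pool.Agent.Lib_helper18 Pool.Agent.Lib_helper18.Eis Pool.Agent.Lib_helper84.Cub
open Pool.Agent.PT Pool.Agent.PTL

namespace GCK

section alg

variable {L : Type} [Field L]

theorem om (ι : Eis →+* L) : ι w ^ 2 + ι w + 1 = 0 := by
  have h := congrArg ι w_rel
  rwa [map_add, map_add, map_pow, map_one, map_zero] at h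

/-- the norm form -/
theorem nrm (ι : Eis →+* L) {ρ : L} {x : Eis} (hρ : ρ ^ 3 = ι x) (p q : Eis) :
    (ι p + ι q * ρ) * ((ι p + ι q * ι w * ρ) * (ι p + ι q * ι w ^ 2 * ρ)) =
      ι (p ^ 3 + x * q ^ 3) := by
  rw [map_add, map_mul, map_pow, map_pow, ← hρ]
  linear_combination (ι p ^ 2 * ι q * ρ + ι p * ι q ^ 2 * ρ ^ 2 * ι w +
    ι q ^ 3 * ρ ^ 3 * (ι w - 1)) * om ι

end alg

section aut

variable {L : Type} [Field L] [NumberField L]

theorem fix {ι : Eis →+* L} {g : L ≃ₐ[ℚ] L} (hg : g (ι w) = ι w) (a : Eis) : g (ι a) = ι a := by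
  rw [eq_re_add_im a, map_add, map_mul, map_add, map_mul, hg]
  simp only [map_intCast]

theorem cj {ι : Eis →+* L} {g : L ≃ₐ[ℚ] L} (hg : g (ι w) = ι w ^ 2) (a : Eis) :
    g (ι a) = ι (conj a) := by
  conv_lhs => rw [eq_re_add_im a, map_add, map_mul, map_add, map_mul, hg]
  conv_rhs => rw [eq_re_add_im a, map_add, map_mul, map_add, map_mul, conj_w, map_pow]
  simp only [map_intCast]

/-- the nonvanishing of the linear forms -/
def Nz (ι : Eis →+* L) (x p q p' q' : Eis) : Prop := ∀ ρ : L, ρ ^ 3 = ι x →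
  aDE ι p q p' q' ρ ≠ 0 ∧ aNE ι p q p' q' ρ ≠ 0

theorem root_mul (ι : Eis →+* L) {ρ : L} {x : Eis} (hρ : ρ ^ 3 = ι x) : (ι w * ρ) ^ 3 = ι x := by
  rw [mul_pow, GC.om3 (om ι), one_mul, hρ]

theorem ne3 {ι : Eis →+* L} {x p q p' q' : Eis} (h : Nz ι x p q p' q') {ρ : L}
    (hρ : ρ ^ 3 = ι x) :
    (ι p + ι q * ρ) ≠ 0 ∧ (ι p + ι q * ι w * ρ) ≠ 0 ∧ (ι p + ι q * ι w ^ 2 * ρ) ≠ 0 ∧
      (ι p' + ι q' * ρ) ≠ 0 ∧ (ι p' + ι q' * ι w * ρ) ≠ 0 ∧
      (ι p' + ι q' * ι w ^ 2 * ρ) ≠ 0 := by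
  have hc := GC.om3 (om ι)
  obtain ⟨h1, h2⟩ := h ρ hρ
  obtain ⟨h3, h4⟩ := h (ι w * ρ) (root_mul ι hρ)
  unfold aDE at h1 h3
  unfold aNE at h2 h4
  refine ⟨?_, left_ne_zero_of_mul h1, left_ne_zero_of_mul h2, ?_, right_ne_zero_of_mul h2,
    right_ne_zero_of_mul h1⟩
  · have h5 := left_ne_zero_of_mul h4
    have e : ι p + ι q * ι w ^ 2 * (ι w * ρ) = ι p + ι q * ρ := by
      linear_combination (ι q * ρ) * hc
    rwa [e] at h5
  · have h5 := right_ne_zero_of_mul h3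
    have e : ι p' + ι q' * ι w ^ 2 * (ι w * ρ) = ι p' + ι q' * ρ := by
      linear_combination (ι q' * ρ) * hc
    rwa [e] at h5

/-- an automorphism fixing `ω` and `ρ` acts by a root of unity on `A` -/
theorem fixA {ι : Eis →+* L} {x p q p' q' : Eis} (hnz : Nz ι x p q p' q') {ρ A : L}
    (h : L ≃ₐ[ℚ] L) (hρ : ρ ^ 3 = ι x) (hhω : h (ι w) = ι w) (hhρ : h ρ = ρ)
    (hA : A ^ 3 * aDE ι p q p' q' ρ = aNE ι p q p' q' ρ) : ∃ e : ℕ, h A = ι w ^ e * A := by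
  have hD := (hnz ρ hρ).1
  have h1 : h (aDE ι p q p' q' ρ) = aDE ι p q p' q' ρ := by
    unfold aDE
    simp only [map_mul, map_add, map_pow, fix hhω, hhρ]
  have h2 : h (aNE ι p q p' q' ρ) = aNE ι p q p' q' ρ := by
    unfold aNE
    simp only [map_mul, map_add, map_pow, fix hhω, hhρ]
  have h3 := congrArg h hA
  rw [map_mul, map_pow, h1, h2, ← hA] at h3
  exact GC.cube_eq (om ι) (mul_right_cancel₀ hD h3)

/-- an automorphism fixing `ω` and mapping `ρ` to `ωρ` -/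
theorem movA {ι : Eis →+* L} {x b p q p' q' : Eis} (hnz : Nz ι x p q p' q') {ρ t A : L}
    (g : L ≃ₐ[ℚ] L) (hρ : ρ ^ 3 = ι x) (ht : t ^ 3 = ι b) (hs : SolE x b p q p' q')
    (hgω : g (ι w) = ι w) (hgρ : g ρ = ι w * ρ)
    (hA : A ^ 3 * aDE ι p q p' q' ρ = aNE ι p q p' q' ρ) :
    ∃ e : ℕ, g A * (ι p + ι q * ι w ^ 2 * ρ) =
      ι w ^ e * (A * t * (ι p' + ι q' * ι w ^ 2 * ρ)) := by
  have h3 := congrArg g hA
  have hN := nrm ι hρ p q
  have hN' := nrm ι hρ p' q'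
  obtain ⟨n1, n2, n3, n4, n5, n6⟩ := ne3 hnz hρ
  have hnz' := mul_ne_zero n4 n2
  unfold aDE aNE at h3 hA
  simp only [map_mul, map_pow, map_add, fix hgω, hgρ] at h3
  have hc := GC.om3 (om ι)
  have h4 : g A ^ 3 * ((ι p + ι q * ι w ^ 2 * ρ) * (ι p' + ι q' * ρ)) =
      (ι p + ι q * ρ) * (ι p' + ι q' * ι w ^ 2 * ρ) := by
    have e1 : ι p + ι q * ι w * (ι w * ρ) = ι p + ι q * ι w ^ 2 * ρ := by ring
    have e2 : ι p' + ι q' * ι w ^ 2 * (ι w * ρ) = ι p' + ι q' * ρ := by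
      linear_combination (ι q' * ρ) * hc
    have e3 : ι p + ι q * ι w ^ 2 * (ι w * ρ) = ι p + ι q * ρ := by
      linear_combination (ι q * ρ) * hc
    have e4 : ι p' + ι q' * ι w * (ι w * ρ) = ι p' + ι q' * ι w ^ 2 * ρ := by ring
    rw [e1, e2, e3, e4] at h3
    exact h3
  have heq : ι (p ^ 3 + x * q ^ 3) = ι b * ι (p' ^ 3 + x * q' ^ 3) := by
    rw [hs.eq, map_mul]
  rw [← hN, ← hN'] at heq
  apply GC.cube_eq (om ι)
  apply mul_right_cancel₀ hnz'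
  rw [mul_pow, mul_pow, mul_pow, ht]
  calc g A ^ 3 * (ι p + ι q * ι w ^ 2 * ρ) ^ 3 * ((ι p' + ι q' * ρ) * (ι p + ι q * ι w * ρ))
      = (g A ^ 3 * ((ι p + ι q * ι w ^ 2 * ρ) * (ι p' + ι q' * ρ))) *
          ((ι p + ι q * ι w ^ 2 * ρ) ^ 2 * (ι p + ι q * ι w * ρ)) := by ring
    _ = (ι p + ι q * ρ) * ((ι p + ι q * ι w * ρ) * (ι p + ι q * ι w ^ 2 * ρ)) *
          ((ι p' + ι q' * ι w ^ 2 * ρ) * (ι p + ι q * ι w ^ 2 * ρ)) := by rw [h4]; ring
    _ = (A ^ 3 * ((ι p + ι q * ι w * ρ) * (ι p' + ι q' * ι w ^ 2 * ρ))) *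
          (ι b * ((ι p' + ι q' * ι w ^ 2 * ρ) ^ 2 * (ι p' + ι q' * ρ))) := by rw [heq, hA]; ring
    _ = A ^ 3 * ι b * (ι p' + ι q' * ι w ^ 2 * ρ) ^ 3 * ((ι p' + ι q' * ρ) *
          (ι p + ι q * ι w * ρ)) := by ring

theorem mv {ι : Eis →+* L} {x b p q p' q' : Eis} (hnz : Nz ι x p q p' q') {ρ t A : L}
    (g h : L ≃ₐ[ℚ] L) (c : ℕ) (hρ : ρ ^ 3 = ι x) (ht : t ^ 3 = ι b) (hs : SolE x b p q p' q')
    (hgω : g (ι w) = ι w) (hhω : h (ι w) = ι w) (hgρ : g ρ = ι w * ρ)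
    (hhρ : h ρ = ρ) (hht : h t = ι w ^ c * t)
    (hA : A ^ 3 * aDE ι p q p' q' ρ = aNE ι p q p' q' ρ) :
    h (g A) = ι w ^ c * g (h A) := by
  obtain ⟨e, he⟩ := movA hnz g hρ ht hs hgω hgρ hA
  obtain ⟨e', he'⟩ := fixA hnz h hρ hhω hhρ hA
  have hnz' := (ne3 hnz hρ).2.2.1
  apply mul_right_cancel₀ hnz'
  have h1 := congrArg h he
  simp only [map_mul, map_pow, map_add, fix hhω, hhρ, hht, he'] at h1
  rw [h1, he']
  simp only [map_mul, map_pow, hgω]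
  linear_combination (- ι w ^ c * ι w ^ e') * he

/-- the action of an automorphism on the roots -/
def Act {s : ℕ} (ι : Eis →+* L) (x : Eis) (b : Fin s → Eis) (a₀ : ZMod 3) (a : Fin s → ZMod 3)
    (g : L ≃ₐ[ℚ] L) : Prop :=
  g (ι w) = ι w ∧ (∀ ρ : L, ρ ^ 3 = ι x → g ρ = ι w ^ a₀.val * ρ) ∧
    ∀ (j : Fin s) (ρ : L), ρ ^ 3 = ι (b j) → g ρ = ι w ^ (a j).val * ρ

/-- the action of the conjugate on a root -/
theorem cjr {ι : Eis →+* L} {g σ : L ≃ₐ[ℚ] L} (hg : g (ι w) = ι w ^ 2) (hσ : σ (ι w) = ι w)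
    {y t : Eis} (hy : y * conj y = t ^ 3) {ρ : L} (hρ : ρ ^ 3 = ι y) {a : ℕ}
    (ha : σ ρ = ι w ^ a * ρ) : (g⁻¹ * σ * g) ρ = ι w ^ a * ρ := by
  rcases eq_or_ne ρ 0 with rfl | h0
  · rw [map_zero, mul_zero]
  have h1 : (g ρ * ρ) ^ 3 = (ι t) ^ 3 := by
    rw [mul_pow, ← map_pow, hρ, cj hg, ← map_mul, mul_comm (conj y), hy, map_pow]
  obtain ⟨k, hk⟩ := GC.cube_eq (om ι) h1
  have hk' : g ρ * ρ = ι (w ^ k * t) := by rw [hk, map_mul, map_pow]
  have h2 : σ (g ρ) * (ι w ^ a * ρ) = g ρ * ρ := by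
    rw [← ha, ← map_mul, hk', fix hσ]
  have h3 : σ (g ρ) * ι w ^ a = g ρ := by
    apply mul_right_cancel₀ h0
    rw [← h2]
    ring
  have hc := GC.om3 (om ι)
  have h4 : σ (g ρ) = g (ι w ^ a * ρ) := by
    rw [map_mul, map_pow, hg, ← h3]
    have h5 : (ι w ^ 2) ^ a * (σ (g ρ) * ι w ^ a) = (ι w ^ 3) ^ a * σ (g ρ) := by ring
    rw [h3] at h5 ⊢
    rw [h5, hc, one_pow, one_mul]
  rw [AlgEquiv.mul_apply, AlgEquiv.mul_apply, h4, ← AlgEquiv.mul_apply, inv_mul_cancel]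
  rfl

theorem cjAct {s : ℕ} {ι : Eis →+* L} {x : Eis} {b : Fin s → Eis} {a₀ : ZMod 3}
    {a : Fin s → ZMod 3} {g σ : L ≃ₐ[ℚ] L} (hg : g (ι w) = ι w ^ 2)
    (hx : ∃ t : Eis, x * conj x = t ^ 3) (hb : ∀ j, ∃ t : Eis, b j * conj (b j) = t ^ 3)
    (h : Act ι x b a₀ a σ) : Act ι x b a₀ a (g⁻¹ * σ * g) := by
  refine ⟨?_, fun ρ hρ => ?_, fun j ρ hρ => ?_⟩
  · have h1 : σ (ι w ^ 2) = ι w ^ 2 := by rw [map_pow, h.1]
    rw [AlgEquiv.mul_apply, AlgEquiv.mul_apply, hg, h1, ← hg, ← AlgEquiv.mul_apply,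
      inv_mul_cancel]
    rfl
  · obtain ⟨t, ht⟩ := hx
    exact cjr hg h.1 ht hρ (h.2.1 ρ hρ)
  · obtain ⟨t, ht⟩ := hb j
    exact cjr hg h.1 ht hρ (h.2.2 j ρ hρ)

/-- the commutator -/
theorem com {s : ℕ} {ι : Eis →+* L} {x : Eis} {b p q p' q' : Fin s → Eis}
    {v : Fin s → ZMod 3} (hsol : ∀ j, SolE x (b j) (p j) (q j) (p' j) (q' j))
    (hnz : ∀ j, Nz ι x (p j) (q j) (p' j) (q' j)) (hr : ∀ j, ∃ θ : L, θ ^ 3 = ι (b j))
    {σ τ : L ≃ₐ[ℚ] L} (hσ : Act ι x b 1 0 σ) (hτ : Act ι x b 0 v τ) (j : Fin s) (ρ A : L)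
    (hρ : ρ ^ 3 = ι x)
    (hA : A ^ 3 * aDE ι (p j) (q j) (p' j) (q' j) ρ = aNE ι (p j) (q j) (p' j) (q' j) ρ) :
    ((σ * τ)⁻¹ * (τ * σ)) A = ι w ^ (v j).val * A := by
  obtain ⟨θ, hθ⟩ := hr j
  apply GC.comm_apply σ τ _ hσ.1 hτ.1
  refine mv (hnz j) σ τ _ hρ hθ (hsol j) hσ.1 hτ.1 ?_ ?_ (hτ.2.2 j θ hθ) hA
  · rw [hσ.2.1 ρ hρ, show (1 : ZMod 3).val = 1 from rfl, pow_one]
  · rw [hτ.2.1 ρ hρ, ZMod.val_zero, pow_zero, one_mul]

end aut

theorem val_neg : ∀ v : ZMod 3, (2 * v.val) % 3 = (-v).val % 3 := by decide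

end GCK

/-- the commutators in the governing field over `K` -/
theorem GCK_thm (hGKK : Stmt_GKK) : Stmt_GCK := by
  intro s x b p q p' q' f L _ _ ζ ι hS hG v
  have hω := GCK.om ι
  have hf : 0 < f := by
    rcases Nat.eq_zero_or_pos f with h | h
    · exfalso
      have h1 := hG.hω
      rw [h, Nat.zero_div, pow_zero] at h1
      rw [h1] at hω
      norm_num at hω
    · exact h
  obtain ⟨σ, hσ⟩ := hGKK s x b p q p' q' f L ζ ι hS hG 1 0
  obtain ⟨τ, hτ⟩ := hGKK s x b p q p' q' f L ζ ι hS hG 0 v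
  have hσ' : GCK.Act ι x b 1 0 σ := hσ
  have hτ' : GCK.Act ι x b 0 v τ := hτ
  have hnz : ∀ j, GCK.Nz ι x (p j) (q j) (p' j) (q' j) := fun j ρ hρ => hG.D j ρ hρ
  refine ⟨(σ * τ)⁻¹ * (τ * σ), ?_, fun ρ hρ => ?_, fun j ρ hρ => ?_, fun j ρ A hρ hA => ⟨?_, ?_⟩⟩
  · have hz : ∀ g : L ≃ₐ[ℚ] L, ∃ i : ℕ, g ζ = ζ ^ i := by
      intro g
      have h1 : (g ζ) ^ f = 1 := by rw [← map_pow, hG.prim.pow_eq_one, map_one]
      haveI : NeZero f := ⟨hf.ne'⟩
      obtain ⟨i, _, hi⟩ := hG.prim.eq_pow_of_pow_eq_one h1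
      exact ⟨i, hi.symm⟩
    obtain ⟨i, hi⟩ := hz σ
    obtain ⟨j, hj⟩ := hz τ
    have h1 : τ (σ ζ) = ι w ^ 0 * σ (τ ζ) := by
      rw [hi, hj, map_pow, map_pow, hi, hj, pow_zero, one_mul, ← pow_mul, ← pow_mul, mul_comm]
    rw [GC.comm_apply σ τ 0 hσ'.1 hτ'.1 ζ h1, pow_zero, one_mul]
  · have h1 : τ (σ ρ) = ι w ^ 0 * σ (τ ρ) := by
      rw [hσ'.2.1 ρ hρ, hτ'.2.1 ρ hρ, map_mul, map_mul, map_pow, map_pow, hσ'.1, hτ'.1,
        hσ'.2.1 ρ hρ, hτ'.2.1 ρ hρ]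
      ring
    rw [GC.comm_apply σ τ 0 hσ'.1 hτ'.1 ρ h1, pow_zero, one_mul]
  · have h1 : τ (σ ρ) = ι w ^ 0 * σ (τ ρ) := by
      rw [hσ'.2.2 j ρ hρ, hτ'.2.2 j ρ hρ, map_mul, map_mul, map_pow, map_pow, hσ'.1, hτ'.1,
        hσ'.2.2 j ρ hρ, hτ'.2.2 j ρ hρ]
      ring
    rw [GC.comm_apply σ τ 0 hσ'.1 hτ'.1 ρ h1, pow_zero, one_mul]
  · exact GCK.com hS.sol hnz hG.rb hσ' hτ' j ρ A hρ hA
  · intro g hg
    have h1 := GCK.com hS.sol hnz hG.rb (GCK.cjAct hg hS.cx hS.cb hσ')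
      (GCK.cjAct hg hS.cx hS.cb hτ') j ρ A hρ hA
    have h2 : ((g⁻¹ * σ * g) * (g⁻¹ * τ * g))⁻¹ * ((g⁻¹ * τ * g) * (g⁻¹ * σ * g)) =
        g⁻¹ * ((σ * τ)⁻¹ * (τ * σ)) * g := by group
    rw [h2] at h1
    have h3 := congrArg g h1
    rw [← AlgEquiv.mul_apply, ← mul_assoc, ← mul_assoc, mul_inv_cancel, one_mul,
      AlgEquiv.mul_apply, map_mul, map_pow, hg, ← pow_mul] at h3
    rw [h3, pow_eq_pow_mod _ (GC.om3 hω), GCK.val_neg, ← pow_eq_pow_mod _ (GC.om3 hω)]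

end Pool.Agent.PTK

end

section

/-!
# PTK, module NMN: the norm theorem for `K(x^(1/3)) / K`, `K = Q(w)` (helper54)

Copy of `PT/NMAIN.lean`.
-/

set_option autoImplicit false

open NumberField IsDedekindDomain Finset
open scoped nonZeroDivisors Pointwise

namespace Pool.Agent.PTK

open Pool.Agent.Lib_helper18 Pool.Agent.Lib_helper18.Eis Pool.Agent.Lib_helper84.Cub
open Pool.Agent.PT

open Pool.Agent.PT.NMAIN

/-- NMN. -/
theorem NMN_thm (hSTM : STM) (hSPP : SPP) (hSSL : SSL) (hSLC : SLC)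
    (hHERBQ : HERBQ) (hSUN : SUN) (hNRK : Stmt_NRK) (hNHN : Stmt_NHN) (hNTR : Stmt_NTR)
    (hNCN : Stmt_NCN) (hNFX : Stmt_NFX) (hNHO : Stmt_NHO) (hNNS : Stmt_NNS)
    (hNGN : Stmt_NGN) : Stmt_NMN := by
  classical
  intro x L _ _ ι θ σ hxE hx4 hV hcube hF y hyE htm hyLC
  have hx3 : ¬ lam ∣ x := by
    intro h
    have h1 : lam ∣ x ^ 2 - 1 := (dvd_pow_self lam (by norm_num)).trans hx4
    have h2 : lam ∣ x ^ 2 := h.trans (dvd_pow_self x (by norm_num))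
    have h3 : lam ∣ 1 := by
      have h4 := dvd_sub h2 h1
      have h5 : x ^ 2 - (x ^ 2 - 1) = 1 := by ring
      rwa [h5] at h4
    exact prime_lam.not_isUnit (isUnit_of_dvd_one h3)
  have hι := hF.inj
  have hι0 : ∀ a : Eis, a ≠ 0 → ι a ≠ 0 := fun a ha h => ha (hι (by rw [h, map_zero]))
  -- the set of places
  obtain ⟨S₀, hS₀⟩ : ∃ S₀ : Finset Pl, ∀ v, v ∈ S₀ ↔ v = none ∨
      ∃ π : PP, v = some π ∧ (π.1 ∣ x ∨ π.1 ∣ y) := by
    have hfin : ({v : Pl | v = none ∨ ∃ π : PP, v = some π ∧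
        (π.1 ∣ x ∨ π.1 ∣ y)}).Finite := by
      have h1 := (hSPP.2.2.1 x hxE).union (hSPP.2.2.1 y hyE)
      refine ((h1.image some).insert none).subset ?_
      rintro v (rfl | ⟨π, rfl, h⟩)
      · exact Set.mem_insert _ _
      · exact Set.mem_insert_of_mem _ ⟨π, h, rfl⟩
    exact ⟨hfin.toFinset, fun v => hfin.mem_toFinset⟩
  obtain ⟨S, e, d, hSS, hSLC', hcard, hd0, hdS, hdind, hdsym⟩ := hNGN x S₀ hxE hx4 hV hcube
    ((hS₀ none).2 (Or.inl rfl)) (fun π h => (hS₀ _).2 (Or.inr ⟨π, rfl, Or.inl h⟩)) (by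
      intro π h hLC
      rcases (hS₀ _).1 h with h1 | ⟨π', h1, h2⟩
      · exact absurd h1 (by simp)
      · have h3 : π = π' := Option.some.inj h1
        subst h3
        rcases h2 with h2 | h2
        · exact h2
        · exact hyLC π h2 hLC)
  have hnone : none ∈ S := hSS ((hS₀ none).2 (Or.inl rfl))
  have hxS : ∀ π : PP, π.1 ∣ x → some π ∈ S := fun π h =>
    hSS ((hS₀ _).2 (Or.inr ⟨π, rfl, Or.inl h⟩))
  have hyS : ∀ v : Pl, uni v ∣ y → v ∈ S := by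
    intro v hv
    cases v with
    | none => exact hnone
    | some π => exact hSS ((hS₀ _).2 (Or.inr ⟨π, rfl, Or.inr hv⟩))
  obtain ⟨H1, H2, -⟩ := hNHN x L ι θ σ hxE hF
  obtain ⟨-, T2, -, T4, -, -⟩ := hNTR x L ι θ σ hxE hx3 hF
  obtain ⟨X1, X2, X3⟩ := hNFX x L ι θ σ hxE hx3 hF S
  obtain ⟨O1, O2⟩ := hNHO x L ι θ σ hxE hx3 hF S hnone hxS
  have hNC := hNCN x L ι θ σ hxE hx3 hV hF
  have hσ3 : σ ^ 3 = 1 := by
    ext z
    change σ (σ (σ z)) = z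
    exact H1 z
  -- norms
  have hNval : ∀ u : Lˣ, ((∏ i ∈ range 3, σ ^ i • u : Lˣ) : L) = u * σ u * σ (σ u) := by
    intro u
    rw [prod_range_succ, prod_range_succ, prod_range_succ, prod_range_zero, one_mul]
    rfl
  have hN : ∀ u : Lˣ, ∃ a b : Eis, a ≠ 0 ∧ b ≠ 0 ∧
      ((∏ i ∈ range 3, σ ^ i • u : Lˣ) : L) * ι b = ι a := by
    intro u
    have h1 : σ ((∏ i ∈ range 3, σ ^ i • u : Lˣ) : L) = ((∏ i ∈ range 3, σ ^ i • u : Lˣ) : L) := by
      rw [hNval, map_mul, map_mul, H1]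
      ring
    obtain ⟨a, b, hb, hab⟩ := H2 _ h1
    refine ⟨a, b, ?_, hb, hab⟩
    rintro rfl
    rw [map_zero] at hab
    exact (mul_ne_zero (Units.ne_zero _) (hι0 b hb)) hab
  -- the units
  have hd' : ∀ i, ∃ u : Lˣ, (u : L) = ι (d i) := fun i => ⟨Units.mk0 _ (hι0 _ (hd0 i)), rfl⟩
  choose d' hd' using hd'
  have hpsi := fun {u : Lˣ} {a b : Eis} (ha : a ≠ 0) (hb : b ≠ 0) (h : (u : L) * ι b = ι a) v =>
    psi_eq (L := L) (ι := ι) hSTM hSPP hSSL hι hxE ha hb h v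
  have hpsi1 : ∀ (u : Lˣ) (a : Eis), a ≠ 0 → (u : L) = ι a → ∀ v, psi ι x u v = sy v a x := by
    intro u a ha h v
    rw [hpsi (u := u) ha one_ne_zero (by rw [map_one, mul_one, h]),
      sy_one hSTM hSPP hSSL v _ hxE, sub_zero]
  -- the set of primes
  obtain ⟨A, hA⟩ : ∃ A : Finset (HeightOneSpectrum (𝓞 L)),
      (A : Set (HeightOneSpectrum (𝓞 L))) = ⋃ v ∈ S, Abv ι v := by
    have hfin : (⋃ v ∈ S, Abv ι v).Finite := S.finite_toSet.biUnion fun v _ => (T4 v).1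
    exact ⟨hfin.toFinset, hfin.coe_toFinset⟩
  obtain ⟨U1, U2⟩ := hSUN L A
  rw [hA] at U1 U2
  have hAcard : A.card + 2 * (e + 1) = 3 * S.card := by
    have h1 : A = S.biUnion fun v => (T4 v).1.toFinset := by
      ext P
      rw [Finset.mem_biUnion, ← Finset.mem_coe, hA, Set.mem_iUnion₂]
      constructor
      · rintro ⟨v, hv, hP⟩
        exact ⟨v, hv, (T4 v).1.mem_toFinset.2 hP⟩
      · rintro ⟨v, hv, hP⟩
        exact ⟨v, hv, (T4 v).1.mem_toFinset.1 hP⟩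
    rw [h1, Finset.card_biUnion]
    · have h2 : ∀ v ∈ S, (T4 v).1.toFinset.card = if LCE (uni v) x then 3 else 1 := by
        intro v _
        rw [← hNC v, Nat.card_coe_set_eq, Set.ncard_eq_toFinset_card _ (T4 v).1]
      rw [Finset.sum_congr rfl h2, ← hcard, Finset.card_filter, Finset.mul_sum,
        ← Finset.sum_add_distrib, Finset.card_eq_sum_ones, Finset.mul_sum]
      refine Finset.sum_congr rfl fun v _ => ?_
      by_cases h : LCE (uni v) x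
      · rw [if_pos h, if_neg (not_not.2 h)]
        rfl
      · rw [if_neg h, if_pos h]
        rfl
    · intro v _ v' _ hne
      rw [Function.onFun, Finset.disjoint_left]
      intro P hP hP'
      rw [(T4 v).1.mem_toFinset] at hP
      rw [(T4 v').1.mem_toFinset] at hP'
      obtain ⟨v0, -, h0⟩ := T2 P
      have e1 := uni_inj hSPP (h0 _ hP)
      have e2 := uni_inj hSPP (h0 _ hP')
      exact hne (e1.symm.trans e2)
  obtain ⟨y', hy'⟩ : ∃ u : Lˣ, (u : L) = ι y := ⟨Units.mk0 _ (hι0 _ hyE), rfl⟩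
  have : Fact (Nat.Prime 3) := ⟨Nat.prime_three⟩
  have key := hHERBQ 3 Lˣ (L ≃ₐ[ℚ] L) σ (SU ι S) (SF ι σ S) Pl (psi ι x) e d' hσ3 U1 O1
    (fun u => Iff.rfl) O2 ?_ ?_ ?_ ?_ ?_ ?_ y' (X1 y' _ hy' hyS) ?_
  · obtain ⟨η, -, hη⟩ := key
    refine ⟨(η : L), η.ne_zero, ?_⟩
    rw [← hNval, ← hη, hy']
  · -- multiplicativity
    intro u hu u' hu'
    obtain ⟨a, b, ha, hb, hab⟩ := X2 u hu
    obtain ⟨a', b', ha', hb', hab'⟩ := X2 u' hu'
    funext v
    rw [Pi.add_apply, hpsi ha hb hab, hpsi ha' hb' hab',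
      hpsi (u := u * u') (mul_ne_zero ha ha') (mul_ne_zero hb hb') (by
        rw [Units.val_mul, map_mul, map_mul, ← hab, ← hab']
        ring),
      sy_mul hSTM hSPP hSSL v _ _ _ ha ha' hxE, sy_mul hSTM hSPP hSSL v _ _ _ hb hb' hxE]
    ring
  · -- norms have trivial symbols
    intro u _
    obtain ⟨a, b, ha, hb, hab⟩ := hN u
    funext v
    rw [hpsi ha hb hab]
    obtain ⟨e', he'⟩ := sy_lsym hSTM hSPP hSLC v
    rw [Pi.zero_apply, sub_eq_zero]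
    exact hNNS x L ι θ σ hxE hF (uni v) (sy v) e' he' (u : L) a b u.ne_zero ha hb
      (by rw [← hNval]; exact hab)
  · -- the units are in `E'`
    intro i
    exact X1 (d' i) (d i) (hd' i) (hdS i)
  · -- multiplicative independence
    intro n hn
    have h1 : (fun i => (n i).toNat) = fun i => (-n i).toNat := by
      apply hdind
      apply hι
      have h2 : ∏ i, (d' i) ^ ((n i).toNat) = ∏ i, (d' i) ^ ((-n i).toNat) := by
        rw [← div_eq_one, ← Finset.prod_div_distrib, ← hn]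
        refine Finset.prod_congr rfl fun i _ => ?_
        rw [← zpow_natCast, ← zpow_natCast, div_eq_mul_inv, ← zpow_sub]
        congr 1
        omega
      have h3 := congrArg (fun u : Lˣ => (u : L)) h2
      simp only [Units.coe_prod, Units.val_pow_eq_pow_val, hd'] at h3
      rw [map_prod, map_prod]
      simp only [map_pow]
      exact h3
    funext i
    have h2 : (n i).toNat = (-n i).toNat := congrFun h1 i
    rw [Pi.zero_apply]
    omega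
  · -- independence of the symbols
    intro n hn
    apply hdsym n
    intro v
    have h1 := congrFun hn v
    rw [Finset.sum_apply] at h1
    rw [← Pi.zero_apply (M := fun _ : Pl => ZMod 3) v, ← h1]
    refine Finset.sum_congr rfl fun i _ => ?_
    rw [Pi.smul_apply, smul_eq_mul, hpsi1 (d' i) (d i) (hd0 i) (hd' i)]
  · -- ranks
    change Module.finrank ℤ (Additive (SU ι S)) + 3 * e = 3 * Module.finrank ℤ (Additive (SF ι σ S)) + e
    have h1 : Module.finrank ℤ (Additive (SU ι S)) = 2 + A.card := by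
      rw [← hNRK x L ι θ σ hF]
      exact U2
    rw [h1, X3]
    omega
  · -- the symbols of `y`
    funext v
    rw [hpsi1 y' _ hyE hy', Pi.zero_apply]
    have h1 : ∀ π : PP, tm π.1 y x = 0 := by
      intro π
      have h2 := htm π
      rw [tm] at h2 ⊢
      linear_combination -h2
    cases v with
    | none =>
      change -∑ᶠ π : PP, tm π.1 y x = 0
      rw [finsum_eq_zero_of_forall_eq_zero h1, neg_zero]
    | some π => exact h1 π

end Pool.Agent.PTK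

end

section

/-!
# The average rank of prime twists: summary of the governing field over `K`
-/

set_option autoImplicit false

open NumberField IsDedekindDomain Finset
open scoped nonZeroDivisors Pointwise

namespace Pool.Agent.PTK

open Pool.Agent.Lib_helper18 Pool.Agent.Lib_helper18.Eis Pool.Agent.Lib_helper84.Cub
open Pool.Agent.PT Pool.Agent.PTL

namespace GAK

variable {L : Type} [Field L] [NumberField L]

/-- an automorphism fixes or squares `ω` -/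
theorem cases_om (ι : Eis →+* L) (τ : L ≃ₐ[ℚ] L) : τ (ι w) = ι w ∨ τ (ι w) = ι w ^ 2 := by
  have h := GCK.om ι
  have h1 := congrArg τ h
  rw [map_add, map_add, map_pow, map_one, map_zero] at h1
  have hc := GC.om3 h
  have h2 : (τ (ι w) - ι w) * (τ (ι w) - ι w ^ 2) = 0 := by
    linear_combination h1 + hc - τ (ι w) * h
  rcases mul_eq_zero.1 h2 with h3 | h3
  · exact Or.inl (sub_eq_zero.1 h3)
  · exact Or.inr (sub_eq_zero.1 h3)

theorem om4 (ι : Eis →+* L) : (ι w ^ 2) ^ 2 = ι w := by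
  have hc := GC.om3 (GCK.om ι)
  linear_combination ι w * hc

theorem fxk_conj0 {s : ℕ} {x : Eis} {b : Fin s → Eis} {ι : Eis →+* L} {g τ : L ≃ₐ[ℚ] L}
    (hτ : τ (ι w) = ι w) (h : FxK x b ι g) : FxK x b ι (τ * g * τ⁻¹) := by
  have hτ' : τ⁻¹ (ι w) = ι w := by
    conv_lhs => rw [← hτ]
    rw [← AlgEquiv.mul_apply, inv_mul_cancel]
    rfl
  have key : ∀ y : Eis, (∀ ρ : L, ρ ^ 3 = ι y → g (g ρ) = ρ) →
      ∀ ρ : L, ρ ^ 3 = ι y → (τ * g * τ⁻¹) ((τ * g * τ⁻¹) ρ) = ρ := by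
    intro y hy ρ hρ
    have h1 : (τ⁻¹ ρ) ^ 3 = ι y := by rw [← map_pow, hρ, GCK.fix hτ']
    have h2 := hy _ h1
    have h3 : (τ * g * τ⁻¹) ((τ * g * τ⁻¹) ρ) = τ (g (g (τ⁻¹ ρ))) := by
      rw [← AlgEquiv.mul_apply, show (τ * g * τ⁻¹) * (τ * g * τ⁻¹) = τ * (g * (g * τ⁻¹)) by group]
      rfl
    rw [h3, h2, ← AlgEquiv.mul_apply, mul_inv_cancel]
    rfl
  exact ⟨key x h.1, fun j => key (b j) (h.2 j)⟩

theorem fxk_conj {s : ℕ} {x : Eis} {b : Fin s → Eis} {ι : Eis →+* L} {g : L ≃ₐ[ℚ] L}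
    (τ : L ≃ₐ[ℚ] L) (hg : g (ι w) = ι w ^ 2) (h : FxK x b ι g) :
    FxK x b ι (τ * g * τ⁻¹) := by
  rcases cases_om ι τ with hτ | hτ
  · exact fxk_conj0 hτ h
  · have h1 : g (ι w ^ 2) = ι w := by rw [map_pow, hg, om4]
    have h2 : g⁻¹ (ι w) = ι w ^ 2 := by
      conv_lhs => rw [← h1]
      rw [← AlgEquiv.mul_apply, inv_mul_cancel]
      rfl
    have h3 : (τ * g⁻¹) (ι w) = ι w := by
      rw [AlgEquiv.mul_apply, h2, map_pow, hτ, om4]
    have h4 := fxk_conj0 h3 h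
    rwa [show (τ * g⁻¹) * g * (τ * g⁻¹)⁻¹ = τ * g * τ⁻¹ by group] at h4

theorem pow_fix {g : L ≃ₐ[ℚ] L} {ρ : L} (h : (g * g) ρ = ρ) (k : ℕ) : ((g * g) ^ k) ρ = ρ := by
  induction k with
  | zero => rfl
  | succ k ih => rw [pow_succ, AlgEquiv.mul_apply, h, ih]

theorem fxk_pow {s : ℕ} {x : Eis} {b : Fin s → Eis} {ι : Eis →+* L} {g : L ≃ₐ[ℚ] L}
    (h : FxK x b ι g) (k : ℕ) : FxK x b ι (g ^ k) := by
  have key : ∀ ρ : L, g (g ρ) = ρ → (g ^ k) ((g ^ k) ρ) = ρ := by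
    intro ρ hρ
    rw [← AlgEquiv.mul_apply, ← (Commute.refl g).mul_pow k]
    exact pow_fix hρ k
  exact ⟨fun ρ hρ => key ρ (h.1 ρ hρ), fun j ρ hρ => key ρ (h.2 j ρ hρ)⟩

/-- `z` fixes `ω` and the roots, `g² = 1` on the roots: then `z` fixes `g ρ` -/
theorem fix_g {ι : Eis →+* L} {g z : L ≃ₐ[ℚ] L} (hg : g (ι w) = ι w ^ 2) (hz : z (ι w) = ι w)
    {y t : Eis} (hy : y * conj y = t ^ 3) {ρ : L} (hρ : ρ ^ 3 = ι y) (hzρ : z ρ = ρ) :
    z (g ρ) = g ρ := by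
  rcases eq_or_ne ρ 0 with rfl | h0
  · rw [map_zero, map_zero]
  have h1 : (g ρ * ρ) ^ 3 = (ι t) ^ 3 := by
    rw [mul_pow, ← map_pow, hρ, GCK.cj hg, ← map_mul, mul_comm (conj y), hy, map_pow]
  obtain ⟨k, hk⟩ := GC.cube_eq (GCK.om ι) h1
  have hk' : g ρ * ρ = ι (w ^ k * t) := by rw [hk, map_mul, map_pow]
  apply mul_right_cancel₀ h0
  calc z (g ρ) * ρ = z (g ρ) * z ρ := by rw [hzρ]
    _ = g ρ * ρ := by rw [← map_mul, hk', GCK.fix hz]

theorem fxk_mul {s : ℕ} {x : Eis} {b : Fin s → Eis} {ι : Eis →+* L} {g z : L ≃ₐ[ℚ] L}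
    (hx : ∃ t : Eis, x * conj x = t ^ 3) (hb : ∀ j, ∃ t : Eis, b j * conj (b j) = t ^ 3)
    (hg : g (ι w) = ι w ^ 2) (hz : z (ι w) = ι w) (hzx : ∀ ρ : L, ρ ^ 3 = ι x → z ρ = ρ)
    (hzb : ∀ (j : Fin s) (ρ : L), ρ ^ 3 = ι (b j) → z ρ = ρ) (h : FxK x b ι g) :
    FxK x b ι (g * z) := by
  refine ⟨fun ρ hρ => ?_, fun j ρ hρ => ?_⟩
  · obtain ⟨t, ht⟩ := hx
    rw [AlgEquiv.mul_apply, AlgEquiv.mul_apply, hzx ρ hρ, fix_g hg hz ht hρ (hzx ρ hρ)]
    exact h.1 ρ hρ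
  · obtain ⟨t, ht⟩ := hb j
    rw [AlgEquiv.mul_apply, AlgEquiv.mul_apply, hzb j ρ hρ, fix_g hg hz ht hρ (hzb j ρ hρ)]
    exact h.2 j ρ hρ

theorem inv_fix {z : L ≃ₐ[ℚ] L} {y : L} (h : z y = y) : z⁻¹ y = y := by
  conv_lhs => rw [← h]
  rw [← AlgEquiv.mul_apply, inv_mul_cancel]
  rfl

theorem val_calc : ∀ c d : ZMod 3,
    (2 * (2 * c.val + (-c).val) + d.val) % 3 = (d - c).val % 3 := by decide

end GAK

theorem GAK_thm (hGZK : Stmt_GZK) (hGCHI : GCHI) (hGTK : Stmt_GTK) (hGCK : Stmt_GCK)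
    (hGFK : Stmt_GFK) : Stmt_GAK := by
  classical
  intro s x b p q p' q' f hSys hf h9
  obtain ⟨L, hF, hN, ζ, ι, hG⟩ := hGZK s x b p q p' q' f hSys hf h9
  haveI := hG.gal
  obtain ⟨χ, hχs, hχζ, hχF⟩ := hGCHI L f ζ hf hG.prim
  obtain ⟨N₀, hFr⟩ := hGFK s x b p q p' q' f L ζ ι hSys hG
  have hω3 : ι w ^ 3 = 1 := GC.om3 (GCK.om ι)
  have hf1 : 1 < f := by
    obtain ⟨c, hc⟩ := h9
    omega
  have hT := hGTK s x b p q p' q' f L ζ ι hSys hG
  -- action on ω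
  have hM : ∀ g : L ≃ₐ[ℚ] L, M2 (χ g) → g (ι w) = ι w ^ 2 := by
    intro g hg
    rw [hG.hω, map_pow, hχζ g, ← pow_mul, mul_comm, pow_mul, ← hG.hω]
    apply GALD.om_congr hω3
    unfold M2 at hg
    omega
  let F : (L ≃ₐ[ℚ] L) → Prop := fun g => g (ι w) = ι w ^ 2 ∧ FxK x b ι g
  let t : (L ≃ₐ[ℚ] L) → Fin s → ZMod 3 := fun g j =>
    if h : F g then ((hT j).1 g h.1 h.2).choose else 0
  have ht : ∀ (g : L ≃ₐ[ℚ] L) (j : Fin s), F g → IsTK x p q p' q' ι g j (t g j) := by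
    intro g j h
    have e : t g j = ((hT j).1 g h.1 h.2).choose := dif_pos h
    rw [e]
    exact ((hT j).1 g h.1 h.2).choose_spec.1
  have htu : ∀ (g : L ≃ₐ[ℚ] L) (j : Fin s) (c : ZMod 3), F g →
      IsTK x p q p' q' ι g j c → t g j = c := by
    intro g j c h hc
    exact ((hT j).1 g h.1 h.2).unique (ht g j h) hc
  have hconj : ∀ g τ : L ≃ₐ[ℚ] L, F g → (τ * g * τ⁻¹) (ι w) = ι w ^ 2 := by
    intro g τ hg
    rcases GAK.cases_om ι τ with hτ | hτ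
    · rw [AlgEquiv.mul_apply, AlgEquiv.mul_apply, GAK.inv_fix hτ, hg.1, map_pow, hτ]
    · have h2 : τ⁻¹ (ι w) = ι w ^ 2 := by
        have h1 : τ (ι w ^ 2) = ι w := by rw [map_pow, hτ, GAK.om4]
        conv_lhs => rw [← h1]
        rw [← AlgEquiv.mul_apply, inv_mul_cancel]
        rfl
      rw [AlgEquiv.mul_apply, AlgEquiv.mul_apply, h2, map_pow, hg.1, GAK.om4, hτ]
  refine ⟨L, hF, hN, hG.gal, χ, F, t, N₀, hχs, ?_, ?_, ?_, ?_⟩
  · intro g τ _ hg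
    have hF' : F (τ * g * τ⁻¹) := ⟨hconj g τ hg, GAK.fxk_conj τ hg.1 hg.2⟩
    refine ⟨hF', funext fun j => ?_⟩
    exact htu _ _ _ hF' ((hT j).2.1 g τ _ hg.1 hg.2 (ht g j hg)).2
  · intro g k _ hg hk
    have hF' : F (g ^ k) := by
      refine ⟨?_, GAK.fxk_pow hg.2 k⟩
      rw [GALD.pow_om hω3 g hg.1 k]
      apply GALD.om_congr hω3
      rw [GALD.two_pow_odd hk]
    refine ⟨hF', funext fun j => ?_⟩
    rw [Pi.smul_apply, smul_eq_mul]
    exact htu _ _ _ hF' ((hT j).2.2 g _ k hg.1 hg.2 hk (ht g j hg)).2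
  · intro a v v' ha
    obtain ⟨z, hzζ, hzx, hzb, hzA⟩ := hGCK s x b p q p' q' f L ζ ι hSys hG
      (fun j => v j - v' j)
    have hzω : z (ι w) = ι w := by rw [hG.hω, map_pow, hzζ]
    have hχz : χ z = 1 := by
      have h1 := hχζ z
      rw [hzζ] at h1
      haveI : NeZero f := ⟨hf.ne'⟩
      have h2 : ((χ z : ZMod f)).val = 1 := by
        apply hG.prim.pow_inj (ZMod.val_lt _) hf1
        rw [← h1, pow_one]
      apply Units.ext
      have h3 := ZMod.natCast_zmod_val (χ z : ZMod f)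
      rw [h2] at h3
      rw [← h3]
      simp
    have hFz : ∀ g : L ≃ₐ[ℚ] L, F g → F (g * z) := by
      intro g hg
      refine ⟨?_, GAK.fxk_mul hSys.cx hSys.cb hg.1 hzω hzx hzb hg.2⟩
      rw [AlgEquiv.mul_apply, hzω, hg.1]
    have hFz' : ∀ g : L ≃ₐ[ℚ] L, F (g * z) → F g := by
      intro g hg
      have h1 : F (g * z * z⁻¹) := by
        refine ⟨?_, GAK.fxk_mul hSys.cx hSys.cb hg.1 (GAK.inv_fix hzω)
          (fun ρ hρ => GAK.inv_fix (hzx ρ hρ)) (fun j ρ hρ => GAK.inv_fix (hzb j ρ hρ)) hg.2⟩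
        rw [AlgEquiv.mul_apply, GAK.inv_fix hzω, hg.1]
      rwa [mul_inv_cancel_right] at h1
    have key : ∀ g : L ≃ₐ[ℚ] L, F g → ∀ j, t (g * z) j = t g j - (v j - v' j) := by
      intro g hg j
      apply htu _ _ _ (hFz g hg)
      intro ρ A hρ hA
      obtain ⟨h1, h2⟩ := hzA j ρ A hρ hA
      have h3 := h2 g hg.1
      have h4 := ht g j hg ρ A hρ hA
      rw [AlgEquiv.mul_apply, AlgEquiv.mul_apply, h1, map_mul, map_pow, hg.1, map_mul, map_pow,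
        map_pow, hzω, h3, map_mul, map_mul, map_pow, map_pow, map_pow, hg.1, h4]
      rw [← mul_assoc, ← mul_assoc, ← pow_mul, ← pow_mul, ← pow_mul, ← pow_add, ← pow_add]
      congr 1
      apply GALD.om_congr hω3
      have h5 := GAK.val_calc (v j - v' j) (t g j)
      omega
    apply Nat.card_congr
    refine Equiv.subtypeEquiv (Equiv.mulRight z) ?_
    intro g
    have hχ : χ (g * z) = χ g := by rw [map_mul, hχz, mul_one]
    show (χ g = a ∧ F g ∧ t g = v) ↔ (χ (g * z) = a ∧ F (g * z) ∧ t (g * z) = v')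
    rw [hχ]
    constructor
    · rintro ⟨h1, h2, h3⟩
      refine ⟨h1, hFz g h2, funext fun j => ?_⟩
      rw [key g h2 j, h3]
      ring
    · rintro ⟨h1, h2, h3⟩
      refine ⟨h1, hFz' g h2, funext fun j => ?_⟩
      have h4 := congrFun h3 j
      rw [key g (hFz' g h2) j] at h4
      linear_combination h4
  · intro Q hQ hQp hN₀ P g hP hQP hst
    haveI := hP
    obtain ⟨h1, h2⟩ := hFr Q hQp hN₀ P hP hQP
    obtain ⟨k, hk, hfr⟩ := h1 g hst
    refine ⟨k, hk, hχF Q hQ hQp P (g ^ k) hP hQP hfr, ?_⟩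
    intro hQ3 hx hb
    obtain ⟨h3, h4⟩ := h2 (g ^ k) hfr hQ3
    obtain ⟨h5, h6⟩ := h4 hx hb
    refine ⟨⟨h3, h5⟩, fun j r hr => ?_⟩
    exact h6 j r _ hr (ht (g ^ k) j ⟨h3, h5⟩)

end Pool.Agent.PTK

end
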