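import Mathlib
import Pool.Agent.PTWX.C35
import Pool.Agent.PTWX.C44
import Pool.Agent.PTWX.C46
import Pool.Agent.PTWX.C57
import Pool.Agent.PTWX.C60

/-! Parts: PT3.EVET, PTN.NADT, PTKX.JAZ, PTKX.MAZ, PTKX.THE -/

namespace Pool.Agent.PT3.EVET
end Pool.Agent.PT3.EVET

namespace Pool.Agent.PTK.JAZ
end Pool.Agent.PTK.JAZ

section

/-!
# PT3, module EVET: the admissible classes in terms of exponent vectors
-/

set_option autoImplicit false

namespace Pool.Agent.PT3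

open Pool.Agent.Lib_helper18 Pool.Agent.Lib_helper18.Eis Pool.Agent.Lib_helper84.Cub
open Pool.Agent.PT Pool.Agent.PTE

namespace EVET

/-- the part prime to `3` -/
theorem split3 {x : ℤ} (hx : x ≠ 0) : ∃ y : ℤ, y ≠ 0 ∧ ¬ (3 : ℤ) ∣ y ∧
    x = 3 ^ padicValInt 3 x * y ∧ x / 3 ^ padicValInt 3 x = y := by
  have : Fact (Nat.Prime 3) := ⟨Nat.prime_three⟩
  obtain ⟨c, hc⟩ : ((3 : ℕ) : ℤ) ^ padicValInt 3 x ∣ x := padicValInt_dvd x
  rw [Nat.cast_ofNat] at hc
  have hc0 : c ≠ 0 := by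
    rintro rfl
    rw [mul_zero] at hc
    exact hx hc
  refine ⟨c, hc0, ?_, hc, ?_⟩
  · rintro ⟨d, rfl⟩
    have h1 : ((3 : ℕ) : ℤ) ^ (padicValInt 3 x + 1) ∣ x := ⟨d, by
      rw [pow_succ, Nat.cast_ofNat]
      conv_lhs => rw [hc]
      ring⟩
    rw [padicValInt_dvd_iff] at h1
    rcases h1 with h1 | h1
    · exact hx h1
    · omega
  · exact Int.ediv_eq_of_eq_mul_right (pow_ne_zero _ (by norm_num)) hc

theorem val_split {l : ℕ} (hl : l.Prime) (h3 : l ≠ 3) {x y : ℤ} {a : ℕ} (hy : y ≠ 0)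
    (h : x = 3 ^ a * y) : padicValInt l x = padicValInt l y := by
  have : Fact l.Prime := ⟨hl⟩
  rw [h, padicValInt.mul (pow_ne_zero _ (by norm_num)) hy, padicValInt.eq_zero_of_not_dvd,
    zero_add]
  intro hd
  have h1 : (l : ℤ) ∣ ((3 : ℕ) : ℤ) := by
    rw [Nat.cast_ofNat]
    exact (Nat.prime_iff_prime_int.1 hl).dvd_of_dvd_pow hd
  rw [Int.natCast_dvd_natCast, Nat.prime_dvd_prime_iff_eq hl Nat.prime_three] at h1
  exact h3 h1

theorem supp_split {n : ℕ} {x y : ℤ} {a : ℕ} (hy : ¬ (3 : ℤ) ∣ y) (h : x = 3 ^ a * y)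
    (hs : ∀ l : ℕ, l.Prime → (l : ℤ) ∣ x → l ∣ 3 * n) : ∀ l : ℕ, l.Prime → (l : ℤ) ∣ y → l ∣ n := by
  intro l hl hd
  have h1 := hs l hl (by rw [h]; exact hd.mul_left _)
  rcases (Nat.Prime.dvd_mul hl).1 h1 with h2 | h2
  · exfalso
    rw [Nat.prime_dvd_prime_iff_eq hl Nat.prime_three] at h2
    rw [h2] at hd
    exact hy hd
  · exact h2

theorem cast0 {a : ℤ} (ha : a ≠ 0) : (a : Eis) ≠ 0 := by
  intro h0
  apply ha
  have := congrArg Eis.re h0
  simpa using this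

theorem ch_pow {π : Eis} (hπ : Prime π) (h3 : ¬ π ∣ 3) {a : Eis} (ha : a ≠ 0) (j : ℕ) :
    ch π (a ^ j) = (j : ZMod 3) * ch π a := by
  induction j with
  | zero =>
    rw [pow_zero, Nat.cast_zero, zero_mul]
    have h1 := EVEC.ch_mul hπ h3 (one_ne_zero (α := Eis)) (one_ne_zero (α := Eis))
    rw [mul_one] at h1
    exact left_eq_add.1 h1
  | succ j ih =>
    rw [pow_succ, EVEC.ch_mul hπ h3 (pow_ne_zero _ ha) ha, ih]
    push_cast
    ring

end EVET

open _root_.Pool.Agent.PT3.EVET EVEC in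
theorem EVET_thm (_hSTM : STM) (hSPP : SPP) (_hLCL : LCL) : EVET := by
  classical
  intro h' n m k π p e r f w0 c h
  -- the primes are split
  have hSp : ∀ i, Sp (π i).1 (p i) := by
    intro i
    obtain ⟨-, -, -, h4, -, h6⟩ := hSPP
    obtain ⟨p', hp', hc⟩ := h6 (π i)
    rcases hc with ⟨-, hc⟩ | ⟨-, hc1, hc2, hc3⟩
    · exfalso
      have e1 := h.pπ i
      rw [hc, conj_natCast, ← Nat.cast_mul] at e1
      have e2 : p i = p' * p' := by
        have := congrArg Eis.re e1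
        rw [natCast_re, natCast_re] at this
        exact_mod_cast this
      have e3 := h.pp i
      rw [e2] at e3
      exact Nat.not_prime_mul hp'.one_lt.ne' hp'.one_lt.ne' e3
    · have e1 : p i = p' := by
        have e2 : (p i : Eis) = (p' : Eis) := by rw [h.pπ i, hc2]
        have := congrArg Eis.re e2
        simpa using this
      exact ⟨h.pp i, h.p1 i, (π i).2.1, (h4 (π i)).1, by rw [e1]; exact hc1, h.pπ i, hc3⟩
  have hpne : ∀ i i', i' ≠ i → ¬ (π i).1 ∣ (p i' : Eis) := by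
    intro i i' hii hd
    have e1 : (p i : ℤ) ∣ (p i' : ℤ) := (hSp i).dvd_int (by exact_mod_cast hd)
    rw [Int.natCast_dvd_natCast, Nat.prime_dvd_prime_iff_eq (h.pp i) (h.pp i')] at e1
    exact hii (h.pinj e1).symm
  have hrne : ∀ i j, ¬ (π i).1 ∣ (r j : Eis) := by
    intro i j hd
    have e1 : (p i : ℤ) ∣ (r j : ℤ) := (hSp i).dvd_int (by exact_mod_cast hd)
    rw [Int.natCast_dvd_natCast, Nat.prime_dvd_prime_iff_eq (h.pp i) (h.rp j)] at e1
    have e2 := h.p1 i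
    have e3 := h.r2 j
    omega
  have hp3 : ∀ i, p i ≠ 3 := by
    intro i h0
    have := h.p1 i
    omega
  have hr3 : ∀ j, r j ≠ 3 := by
    intro j h0
    have := h.r2 j
    omega
  -- the valuation of `n`
  have hVn : ∀ i, V (π i).1 (n : Eis) = e i := by
    intro i
    let F : ℤ → ℕ := fun a => V (π i).1 (a : Eis)
    have hF1 : F 1 = 0 := by
      show V (π i).1 ((1 : ℤ) : Eis) = 0
      rw [Int.cast_one]
      exact V_eq_zero (not_dvd_of_isUnit (π i).2.1 isUnit_one)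
    have hF : ∀ a b : ℤ, a ≠ 0 → b ≠ 0 → F (a * b) = F a + F b := by
      intro a b ha hb
      show V (π i).1 ((a * b : ℤ) : Eis) = _
      rw [Int.cast_mul, V_mul (π i).2.1 (cast0 ha) (cast0 hb)]
    obtain ⟨a1, a2⟩ := fun_prod (fun a : ℤ => a ≠ 0) F one_ne_zero
      (fun a b => mul_ne_zero) hF1 hF Finset.univ (fun i => (p i : ℤ)) e
      (fun i _ => by exact_mod_cast (h.pp i).ne_zero)
    obtain ⟨b1, b2⟩ := fun_prod (fun a : ℤ => a ≠ 0) F one_ne_zero
      (fun a b => mul_ne_zero) hF1 hF Finset.univ (fun j => (r j : ℤ)) f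
      (fun j _ => by exact_mod_cast (h.rp j).ne_zero)
    have e1 : V (π i).1 (n : Eis) = F ((∏ i, (p i : ℤ) ^ e i) * ∏ j, (r j : ℤ) ^ f j) := by
      have e2 : ((n : ℕ) : ℤ) = (∏ i, (p i : ℤ) ^ e i) * ∏ j, (r j : ℤ) ^ f j := by
        rw [h.eq]
        push_cast
        rfl
      rw [← e2]
      show V (π i).1 (n : Eis) = V (π i).1 ((n : ℤ) : Eis)
      rw [Int.cast_natCast]
    have hFp : F (p i) = 1 := by
      show V (π i).1 ((p i : ℤ) : Eis) = 1
      rw [Int.cast_natCast]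
      exact (hSp i).V_self
    have hFp' : ∀ i', i' ≠ i → F (p i') = 0 := by
      intro i' hi'
      show V (π i).1 ((p i' : ℤ) : Eis) = 0
      rw [Int.cast_natCast]
      exact V_eq_zero (hpne i i' hi')
    have hFr : ∀ j, F (r j) = 0 := by
      intro j
      show V (π i).1 ((r j : ℤ) : Eis) = 0
      rw [Int.cast_natCast]
      exact V_eq_zero (hrne i j)
    rw [e1, hF _ _ a1 b1, a2, b2, Finset.sum_eq_single i, hFp,
      Finset.sum_eq_zero fun j _ => by rw [hFr, smul_zero]]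
    · simp
    · intro i' _ hi'
      rw [hFp' i' hi', smul_zero]
    · intro h0
      exact absurd (Finset.mem_univ _) h0
  -- the symbols, part prime to `3`
  have hch0 : ∀ (x : ℤ), x ≠ 0 → (∀ l : ℕ, l.Prime → (l : ℤ) ∣ x → l ∣ n) → ∀ i,
      ch (π i).1 (x : Eis) = (∑ i', (padicValInt (p i') x : ZMod 3) *
          (if i' = i then sym (π i).1 (conj (π i).1) else sym (π i).1 (p i' : Eis))) +
        ∑ j, (padicValInt (r j) x : ZMod 3) * sym (π i).1 (r j : Eis) := by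
    intro x hx hs i
    have hπ := (hSp i).pr
    have h3 := (hSp i).h3
    have e1 := fun_eq h (fun a => ch (π i).1 (a : Eis))
      (fun a b ha hb _ _ => by
        show ch (π i).1 ((a * b : ℤ) : Eis) = _
        rw [Int.cast_mul, ch_mul hπ h3 (cast0 ha) (cast0 hb)])
      (by
        show ch (π i).1 ((-1 : ℤ) : Eis) = 0
        rw [Int.cast_neg, Int.cast_one, ch_neg_one hπ h3]) hx hs
    rw [e1]
    congr 1
    · refine Finset.sum_congr rfl fun i' _ => ?_
      congr 1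
      show ch (π i).1 ((p i' : ℤ) : Eis) = _
      rw [Int.cast_natCast]
      by_cases hi' : i' = i
      · rw [if_pos hi', hi', (hSp i).eq, ch_self_mul hπ (hSp i).not_dvd_conj]
      · rw [if_neg hi', ch_not_dvd hπ (hpne i i' hi')]
    · refine Finset.sum_congr rfl fun j _ => ?_
      congr 1
      show ch (π i).1 ((r j : ℤ) : Eis) = _
      rw [Int.cast_natCast, ch_not_dvd hπ (hrne i j)]
  -- the symbols
  have hch : ∀ (x : ℤ), x ≠ 0 → (∀ l : ℕ, l.Prime → (l : ℤ) ∣ x → l ∣ 3 * n) → ∀ i,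
      ch (π i).1 (x : Eis) = lv x * sym (π i).1 3 + ((∑ i', (padicValInt (p i') x : ZMod 3) *
          (if i' = i then sym (π i).1 (conj (π i).1) else sym (π i).1 (p i' : Eis))) +
        ∑ j, (padicValInt (r j) x : ZMod 3) * sym (π i).1 (r j : Eis)) := by
    intro x hx hs i
    obtain ⟨y, hy, hy3, hxy, -⟩ := split3 hx
    have hπ := (hSp i).pr
    have h3 := (hSp i).h3
    have h30 : (3 : Eis) ≠ 0 := by
      have := cast0 (show (3 : ℤ) ≠ 0 by norm_num)
      rwa [Int.cast_ofNat] at this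
    have e1 : ch (π i).1 (x : Eis) = lv x * sym (π i).1 3 + ch (π i).1 (y : Eis) := by
      conv_lhs => rw [hxy]
      rw [Int.cast_mul, Int.cast_pow, Int.cast_ofNat, ch_mul hπ h3 (pow_ne_zero _ h30) (cast0 hy),
        ch_pow hπ h3 h30, ch_not_dvd hπ h3]
      rfl
    rw [e1, hch0 y hy (supp_split hy3 hxy hs) i]
    congr 2
    · refine Finset.sum_congr rfl fun i' _ => ?_
      rw [val_split (h.pp i') (hp3 i') hy hxy]
    · refine Finset.sum_congr rfl fun j _ => ?_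
      rw [val_split (h.rp j) (hr3 j) hy hxy]
  -- the weight
  have hwt : ∀ (x : ℤ), x ≠ 0 → (∀ l : ℕ, l.Prime → (l : ℤ) ∣ x → l ∣ 3 * n) →
      lw x = (∑ i, (padicValInt (p i) x : ZMod 3) * wt ((p i : ℤ) ^ 2)) +
        ∑ j, (padicValInt (r j) x : ZMod 3) * wt ((r j : ℤ) ^ 2) := by
    intro x hx hs
    obtain ⟨y, hy, hy3, hxy, hxy'⟩ := split3 hx
    have e1 : lw x = wt (y ^ 2) := by
      unfold lw
      rw [hxy']
    have e2 : wt (y ^ 2) = (∑ i, (padicValInt (p i) y : ZMod 3) * wt ((p i : ℤ) ^ 2)) +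
        ∑ j, (padicValInt (r j) y : ZMod 3) * wt ((r j : ℤ) ^ 2) :=
      fun_eq h (fun a => wt (a ^ 2))
      (fun a b _ _ ha hb => by
        show wt ((a * b) ^ 2) = _
        rw [mul_pow, wt_mul (sq_mod_three ha) (sq_mod_three hb)])
      (by
        show wt ((-1) ^ 2) = 0
        rw [neg_one_sq, wt_one]) hy (supp_split hy3 hxy hs)
    rw [e1, e2]
    congr 1
    · refine Finset.sum_congr rfl fun i' _ => ?_
      rw [val_split (h.pp i') (hp3 i') hy hxy]
    · refine Finset.sum_congr rfl fun j _ => ?_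
      rw [val_split (h.rp j) (hr3 j) hy hxy]
  refine ⟨fun x hx hs => ⟨?_, hwt x hx hs⟩, ?_⟩
  · have e1 : ∀ i, ((V (π i).1 (n : Eis) : ZMod 3) * ch (π i).1 (x : Eis) -
        (V (π i).1 (x : Eis) : ZMod 3) * (ch (π i).1 ((3 ^ h' * n : ℕ) : Eis) + c i) = 0) ↔
        ((e i : ZMod 3) * (lv x * sym (π i).1 3) +
        (e i : ZMod 3) * (∑ i', (padicValInt (p i') x : ZMod 3) *
          (if i' = i then sym (π i).1 (conj (π i).1) else sym (π i).1 (p i' : Eis))) +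
        (e i : ZMod 3) * (∑ j, (padicValInt (r j) x : ZMod 3) * sym (π i).1 (r j : Eis)) -
        (padicValInt (p i) x : ZMod 3) * (ch (π i).1 ((3 ^ h' * n : ℕ) : Eis) + c i) = 0) := by
      intro i
      rw [hVn i, (hSp i).V_int hx, hch x hx hs i, mul_add, mul_add, add_assoc]
    constructor
    · intro hA
      refine ⟨fun i => (e1 i).1 (hA.sym i), fun h2 => ?_⟩
      rw [← hwt x hx hs]
      exact hA.wild h2
    · rintro ⟨hA, hB⟩
      refine ⟨hx, hs, fun i => (e1 i).2 (hA i), fun h2 => ?_⟩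
      rw [hwt x hx hs]
      exact hB h2
  · -- equality modulo cubes
    intro x x' hx hx' hs hs'
    have hmod : ∀ l : ℕ, l.Prime → ∀ u v : ℤ, u ≠ 0 → v ≠ 0 → x * u ^ 3 = x' * v ^ 3 →
        (padicValInt l x : ZMod 3) = padicValInt l x' := by
      intro l hl u v hu hv huv
      have : Fact l.Prime := ⟨hl⟩
      have e1 := congrArg (padicValInt l) huv
      rw [padicValInt.mul hx (pow_ne_zero _ hu), padicValInt.mul hx' (pow_ne_zero _ hv),
        pow_succ, pow_succ, pow_one, pow_succ, pow_succ, pow_one,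
        padicValInt.mul (mul_ne_zero hu hu) hu, padicValInt.mul hu hu,
        padicValInt.mul (mul_ne_zero hv hv) hv, padicValInt.mul hv hv] at e1
      have e2 := congrArg (fun t : ℕ => (t : ZMod 3)) e1
      push_cast at e2
      have e3 : (3 : ZMod 3) = 0 := by decide
      linear_combination e2 + ((padicValInt l v : ZMod 3) - padicValInt l u) * e3
    constructor
    · rintro ⟨u, v, hu, hv, huv⟩
      exact ⟨hmod 3 Nat.prime_three u v hu hv huv, fun i => hmod _ (h.pp i) u v hu hv huv,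
        fun j => hmod _ (h.rp j) u v hu hv huv⟩
    · rintro ⟨h0, hA, hB⟩
      have hxx : x * x' ^ 2 ≠ 0 := mul_ne_zero hx (pow_ne_zero _ hx')
      have h3 : ∀ l : ℕ, l.Prime → (padicValInt l x : ZMod 3) = padicValInt l x' →
          3 ∣ padicValInt l (x * x' ^ 2) := by
        intro l hl he
        have : Fact l.Prime := ⟨hl⟩
        rw [padicValInt.mul hx (pow_ne_zero _ hx'), pow_two, padicValInt.mul hx' hx',
          ← ZMod.natCast_eq_zero_iff]
        push_cast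
        rw [he]
        have e3 : (3 : ZMod 3) = 0 := by decide
        linear_combination (padicValInt l x' : ZMod 3) * e3
      have hss : ∀ l : ℕ, l.Prime → (l : ℤ) ∣ x * x' ^ 2 → l ∣ 3 * n := by
        intro l hl hd
        rcases (Nat.prime_iff_prime_int.1 hl).dvd_or_dvd hd with h1 | h1
        · exact hs l hl h1
        · exact hs' l hl ((Nat.prime_iff_prime_int.1 hl).dvd_of_dvd_pow h1)
      obtain ⟨y, hy, hy3, hxy, -⟩ := split3 hxx
      obtain ⟨b, hb⟩ := h3 3 Nat.prime_three h0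
      obtain ⟨t, ht, hyt⟩ := exists_cube h hy (supp_split hy3 hxy hss)
        (fun i => by rw [← val_split (h.pp i) (hp3 i) hy hxy]; exact h3 _ (h.pp i) (hA i))
        (fun j => by rw [← val_split (h.rp j) (hr3 j) hy hxy]; exact h3 _ (h.rp j) (hB j))
      refine ⟨x', 3 ^ b * t, hx', mul_ne_zero (pow_ne_zero _ (by norm_num)) ht, ?_⟩
      have e5 : x * x' ^ 2 = (3 ^ b * t) ^ 3 := by
        rw [hxy, hb, hyt]
        ring
      rw [← e5]
      ring

end Pool.Agent.PT3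

end

section

/-!
# NADT: `AdN` and the local conditions, `q = 2 (mod 3)`

Follows `Pool/Agent/PT3/EADT.lean`.
-/

set_option autoImplicit false

namespace Pool.Agent.PTN

open Pool.Agent.Lib_helper18 Pool.Agent.Lib_helper18.Eis Pool.Agent.Lib_helper84.Cub
open Pool.Agent.PT Pool.Agent.PTE Pool.Agent.PT3

namespace NADT

open Pool.Agent.PT.EADM

theorem cast_two {h : ℕ} (hh : h ≤ 2) : (h : ZMod 3) = 2 ↔ h = 2 := by
  have h1 : h = 0 ∨ h = 1 ∨ h = 2 := by omega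
  rcases h1 with rfl | rfl | rfl <;> decide

theorem cast_zero {h : ℕ} (hh : h ≤ 2) : (h : ZMod 3) = 0 ↔ h = 0 := by
  have h1 : h = 0 ∨ h = 1 ∨ h = 2 := by omega
  rcases h1 with rfl | rfl | rfl <;> decide

section

variable {h n m k E q : ℕ} {π : Fin m → PP} {p e : Fin m → ℕ} {r f : Fin k → ℕ}
  {w0 : ZMod 3} {c : Fin m → ZMod 3}

theorem base_BG (hSPP : SPP) (hN : NF n π p e r f) (hE : E = 1 ∨ E = 2)
    (hq : q.Prime) (hqn : ¬ q ∣ n) : BG (BB h n E q) := by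
  have hn0 : n ≠ 0 := n_ne hN
  refine ⟨EADT.BB_ne hN hq, fun ϖ => ?_⟩
  obtain ⟨l, hl⟩ := EADT.below hSPP ϖ
  have hqE : q ^ E ≠ 0 := pow_ne_zero _ hq.ne_zero
  have h30 : 3 ^ h ≠ 0 := pow_ne_zero _ three_ne_zero
  rw [EADT.BB_eis, hl.V_nat (EADT.nat_ne hN hq), Nat.factorization_mul (mul_ne_zero h30 hn0) hqE,
    Nat.factorization_mul h30 hn0, Finsupp.add_apply, Finsupp.add_apply]
  have h1 := fac_le hN l
  have h2 : (3 ^ h).factorization l = 0 := by
    apply Nat.factorization_eq_zero_of_not_dvd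
    intro h4
    exact EADT.below_ne hl ((Nat.prime_dvd_prime_iff_eq hl.pr Nat.prime_three).1
      (hl.pr.dvd_of_dvd_pow h4))
  by_cases hlq : l = q
  · have h4 : n.factorization l = 0 := by
      rw [hlq]
      exact Nat.factorization_eq_zero_of_not_dvd hqn
    have h3 : (q ^ E).factorization l = E := by
      rw [hlq, hq.factorization_pow, Finsupp.single_eq_same]
    omega
  · have h3 : (q ^ E).factorization l = 0 := by
      apply Nat.factorization_eq_zero_of_not_dvd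
      intro h
      exact hlq ((Nat.prime_dvd_prime_iff_eq hl.pr hq).1 (hl.pr.dvd_of_dvd_pow h))
    omega

theorem base_Ty (hLCL : LCL) (hN : NF n π p e r f) (hh : h ≤ 2)
    (hq : q.Prime) (hq3 : q ≠ 3) (hw : wt (((q : ℤ) ^ E) ^ 2) = w0) :
    TyB h n w0 (BB h n E q) := by
  rcases Nat.eq_zero_or_pos h with rfl | hpos
  · obtain ⟨-, hmul, -, hunit, -⟩ := hLCL
    have hn0 : (n : ℤ) ≠ 0 := by exact_mod_cast n_ne hN
    have hn3 : ¬ (3 : ℤ) ∣ (n : ℤ) := by
      intro h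
      exact three_not hN (by exact_mod_cast h)
    have hq0 : (q : ℤ) ^ E ≠ 0 := pow_ne_zero _ (by exact_mod_cast hq.ne_zero)
    have hqE3 : ¬ (3 : ℤ) ∣ (q : ℤ) ^ E := by
      intro h
      have h1 : 3 ∣ q ^ E := by exact_mod_cast h
      exact hq3 ((Nat.prime_dvd_prime_iff_eq Nat.prime_three hq).1
        (Nat.prime_three.dvd_of_dvd_pow h1)).symm
    have h2 := hmul (n : ℤ) ((q : ℤ) ^ E) hn0 hq0
    refine ⟨EADT.BB_ne hN hq, ?_, ?_⟩
    · unfold BB
      rw [pow_zero, one_mul, h2.1, (hunit _ hn3).1, (hunit _ hqE3).1, add_zero, Nat.cast_zero]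
    · unfold BB
      rw [pow_zero, one_mul, h2.2, (hunit _ hn3).2, (hunit _ hqE3).2, hw]
  · exact EADT.base_Ty hLCL hN (by omega) hq hq3 hw

theorem unr_of (hSPP : SPP) {x : ℤ}
    (hsupp : ∀ l : ℕ, l.Prime → (l : ℤ) ∣ x → l ∣ 3 * n) (ϖ : PP)
    (hϖ : ¬ ϖ.1 ∣ ((BB h n E q : ℤ) : Eis)) : ¬ ϖ.1 ∣ (x : Eis) := by
  intro h1
  obtain ⟨l, hl⟩ := EADT.below hSPP ϖ
  apply hϖ
  rw [EADT.BB_eis, hl.dvd_nat]
  have h2 : l ∣ n := by
    rcases hl.pr.dvd_mul.1 (hsupp l hl.pr ((hl.dvd_int x).1 h1)) with h3 | h3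
    · exact absurd ((Nat.prime_dvd_prime_iff_eq hl.pr Nat.prime_three).1 h3) (EADT.below_ne hl)
    · exact h3
  exact (h2.mul_left _).mul_right _

/-- The local conditions at `3`. -/
theorem loc_iff (hT : TyB h n w0 (BB h n E q)) (hh : h ≤ 2) (x : ℤ) :
    ((h = 2 → lw x + lv x * (wt ((n : ℤ) ^ 2) + w0) = 0) ∧
      (h = 0 → lv x = 0 ∧ (wt ((n : ℤ) ^ 2) + w0 = 0 → lw x = 0))) ↔
      Loc (BB h n E q) x := by
  obtain ⟨-, h1, h2⟩ := hT
  unfold Loc
  rw [h1, h2, cast_two hh, cast_zero hh]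

end

end NADT

/-- NADT: `AdN` and the local conditions, `q = 2 (mod 3)`. -/
theorem NADT_thm (hSTM : STM) (hSPP : SPP) (hSCJ : SCJ) (hLCL : LCL) : Stmt_NADT := by
  have _ := hSTM
  intro h n m k π p e r f w0 c E q hN hh hE hq hq3 hcl hqn
  obtain ⟨hqw, hqc⟩ := hcl
  have hq3' : q ≠ 3 := by rintro rfl; omega
  have hT := NADT.base_Ty hLCL hN hh hq hq3' hqw
  refine ⟨NADT.base_BG hSPP hN hE hq hqn, hT, fun x hsupp => ⟨?_, ?_⟩⟩
  · rintro ⟨⟨hx, _, hsym, hwild⟩, h0⟩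
    exact ⟨⟨hx, fun ϖ => EADT.sym_of hSPP hSCJ hN hE hq hqn hqc hx hsupp hsym ϖ (Or.inl hq3),
      fun ϖ hϖ => NADT.unr_of hSPP hsupp ϖ hϖ⟩, (NADT.loc_iff hT hh x).1 ⟨hwild, h0⟩⟩
  · rintro ⟨⟨hx, hsym, _⟩, hloc⟩
    obtain ⟨hwild, h0⟩ := (NADT.loc_iff hT hh x).2 hloc
    refine ⟨⟨hx, hsupp, fun i => ?_, hwild⟩, h0⟩
    rw [EADT.key hSPP hN hE hq hqn hqc hx i]
    exact hsym (π i)

end Pool.Agent.PTN

end

section

/-!
# The average of `3^r` for prime twists: the joint governing field, all classes cubes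

`Q = 1 (mod 3)` and all rational classes are cubes modulo `Q`.
-/

set_option autoImplicit false

open NumberField IsDedekindDomain Finset
open scoped nonZeroDivisors Pointwise

namespace Pool.Agent.PTK

open Pool.Agent.Lib_helper18 Pool.Agent.Lib_helper18.Eis Pool.Agent.Lib_helper84.Cub
open Pool.Agent.PT Pool.Agent.PTE Pool.Agent.PT3 Pool.Agent.PTL Pool.Agent.PTN
open Pool.Agent.PT.GALD Pool.Agent.PTE.GALDS

namespace JAZ

section aut

variable {L : Type} [Field L] [NumberField L]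

/-- `g` fixes `ω` and the cube roots of all the `b j` -/
def F0 {s : ℕ} (b : Fin s → ℤ) (ι : Eis →+* L) (g : L ≃ₐ[ℚ] L) : Prop :=
  g (ι w) = ι w ∧ ∀ (j : Fin s) (ρ : L), ρ ^ 3 = (b j : L) → g ρ = ρ

theorem inv_sq {ι : Eis →+* L} {τ : L ≃ₐ[ℚ] L} (h : τ (ι w) = ι w ^ 2) :
    τ⁻¹ (ι w) = ι w ^ 2 := by
  have h1 : τ (ι w ^ 2) = ι w := by rw [map_pow, h, GAK.om4]
  conv_lhs => rw [← h1]
  rw [← AlgEquiv.mul_apply, inv_mul_cancel]
  rfl

theorem conj_fix {ι : Eis →+* L} {g : L ≃ₐ[ℚ] L} (τ : L ≃ₐ[ℚ] L) (hg : g (ι w) = ι w) :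
    (τ * g * τ⁻¹) (ι w) = ι w := by
  rcases GAK.cases_om ι τ with hτ | hτ
  · rw [AlgEquiv.mul_apply, AlgEquiv.mul_apply, GAK.inv_fix hτ, hg, hτ]
  · rw [AlgEquiv.mul_apply, AlgEquiv.mul_apply, inv_sq hτ, map_pow, hg, map_pow, hτ, GAK.om4]

theorem conj_pt {g τ : L ≃ₐ[ℚ] L} {ρ : L} (h : g (τ⁻¹ ρ) = τ⁻¹ ρ) : (τ * g * τ⁻¹) ρ = ρ := by
  rw [AlgEquiv.mul_apply, AlgEquiv.mul_apply, h, ← AlgEquiv.mul_apply, mul_inv_cancel]
  rfl

theorem pow_pt {g : L ≃ₐ[ℚ] L} {ρ : L} (h : g ρ = ρ) (l : ℕ) : (g ^ l) ρ = ρ := by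
  induction l with
  | zero => rfl
  | succ l ih => rw [pow_succ, AlgEquiv.mul_apply, h, ih]

theorem F0.conj {s : ℕ} {b : Fin s → ℤ} {ι : Eis →+* L} {g : L ≃ₐ[ℚ] L} (h : F0 b ι g)
    (τ : L ≃ₐ[ℚ] L) : F0 b ι (τ * g * τ⁻¹) := by
  refine ⟨conj_fix τ h.1, fun j ρ hρ => conj_pt (h.2 j _ ?_)⟩
  rw [← map_pow, hρ, map_intCast]

theorem F0.pow {s : ℕ} {b : Fin s → ℤ} {ι : Eis →+* L} {g : L ≃ₐ[ℚ] L} (h : F0 b ι g)
    (l : ℕ) : F0 b ι (g ^ l) :=
  ⟨pow_pt h.1 l, fun j ρ hρ => pow_pt (h.2 j ρ hρ) l⟩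

theorem neg_one_val {f : ℕ} (hf : 1 < f) : (((-1 : (ZMod f)ˣ) : ZMod f)).val = f - 1 := by
  obtain ⟨n, rfl⟩ : ∃ n, f = n + 1 := ⟨f - 1, by omega⟩
  rw [Units.val_neg, Units.val_one]
  exact ZMod.val_neg_one n

theorem two_neg : ∀ v : ZMod 3, (2 * (-v).val) % 3 = v.val % 3 := by decide

/-- the action of the conjugate of `z` -/
theorem conj_z {ι : Eis →+* L} {c z : L ≃ₐ[ℚ] L} (hc : c (ι w) = ι w ^ 2) {v : ZMod 3} {A : L}
    (h : z (c⁻¹ A) = ι w ^ (-v).val * c⁻¹ A) : (c * z * c⁻¹) A = ι w ^ v.val * A := by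
  rw [AlgEquiv.mul_apply, AlgEquiv.mul_apply, h, map_mul, map_pow, hc, ← pow_mul,
    ← AlgEquiv.mul_apply, mul_inv_cancel]
  congr 1
  exact om_congr (GC.om3 (GCK.om ι)) (two_neg v)

theorem three_card : (4 : ZMod 3) = 1 := by decide

end aut

end JAZ

open _root_.Pool.Agent.PTK.JAZ in
theorem JAZ_thm (hJZ : Stmt_JZ) (hGCHI : GCHI) (hGKUM : GKUM) (hGTU : Stmt_GTU)
    (hGFKU : Stmt_GFKU) (hJC1 : Stmt_JC1) (hSPLT : SPLT) (hSPP : SPP) : Stmt_JAZ := by
  classical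
  intro s b p q p' q' k x u P Q P' Q' f hSys hSysK hf h9
  obtain ⟨L, hF, hN, ζ, ι, hG⟩ := hJZ s k b p q p' q' x u P Q P' Q' f hSys hSysK hf h9
  have hGp := hG.plus
  have hGm := hG.minus
  have := hGp.gal
  obtain ⟨χ, hχs, hχζ, hχF⟩ := hGCHI L f ζ hf hGp.prim
  obtain ⟨N₁, hFr⟩ := hGFKU k x u P Q P' Q' f L ζ ι hSysK hGm
  obtain ⟨hT1, hT2, hT⟩ := hGTU k x u P Q P' Q' f L ζ ι hSysK hGm
  have hω3 : ι w ^ 3 = 1 := GC.om3 (GCK.om ι)
  have hf1 : 1 < f := by
    obtain ⟨c, hc⟩ := h9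
    omega
  have h3f : 3 ∣ f := (by norm_num : (3 : ℕ) ∣ 9).trans h9
  have hfz : NeZero f := ⟨hf.ne'⟩
  -- action on ω
  have hωχ : ∀ g : L ≃ₐ[ℚ] L, g (ι w) = ι w ^ ((χ g : ZMod f)).val := by
    intro g
    rw [hGm.hω, map_pow, hχζ g, ← pow_mul, mul_comm, pow_mul, ← hGm.hω]
  have hM : ∀ g : L ≃ₐ[ℚ] L, M1 (χ g) → g (ι w) = ι w := by
    intro g hg
    rw [hωχ g]
    conv_rhs => rw [← pow_one (ι w)]
    apply om_congr hω3
    unfold M1 at hg
    omega
  obtain ⟨c, hc⟩ : ∃ c : L ≃ₐ[ℚ] L, c (ι w) = ι w ^ 2 := by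
    obtain ⟨c, hc⟩ := hχs (-1)
    refine ⟨c, ?_⟩
    rw [hωχ c, hc, neg_one_val hf1]
    apply om_congr hω3
    omega
  have hz1 : ∀ z : L ≃ₐ[ℚ] L, z ζ = ζ → z (ι w) = ι w ∧ χ z = 1 := by
    intro z hzζ
    refine ⟨by rw [hGm.hω, map_pow, hzζ], ?_⟩
    have h1 := hχζ z
    rw [hzζ] at h1
    have h2 : ((χ z : ZMod f)).val = 1 := by
      apply hGp.prim.pow_inj (ZMod.val_lt _) hf1
      rw [← h1, pow_one]
    apply Units.ext
    have h3 := ZMod.natCast_zmod_val (χ z : ZMod f)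
    rw [h2] at h3
    rw [← h3]
    simp
  have hb0 : ∀ j, b j ≠ 0 := PTE.GFRS.ne_zero hSys
  -- the class of the minus part
  let F2 : (L ≃ₐ[ℚ] L) → Prop := fun g => g (ι w) = ι w ∧ FxU x u ι g
  let t : (L ≃ₐ[ℚ] L) → Fin k → ZMod 3 := fun g j =>
    if h : F2 g then ((hT j).1 g h.1 h.2).choose else 0
  have ht : ∀ (g : L ≃ₐ[ℚ] L) (j : Fin k), F2 g → IsTU x P Q P' Q' ι g j (t g j) := by
    intro g j h
    have e : t g j = ((hT j).1 g h.1 h.2).choose := dif_pos h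
    rw [e]
    exact ((hT j).1 g h.1 h.2).choose_spec.1
  have htu : ∀ (g : L ≃ₐ[ℚ] L) (j : Fin k) (a : ZMod 3), F2 g →
      IsTU x P Q P' Q' ι g j a → t g j = a := by
    intro g j a h ha
    exact ((hT j).1 g h.1 h.2).unique (ht g j h) ha
  let T : (L ≃ₐ[ℚ] L) → Fin k → ZMod 3 := fun g j => t g j + t (c * g * c⁻¹) j
  have hF2c : ∀ g τ : L ≃ₐ[ℚ] L, F2 g → F2 (τ * g * τ⁻¹) := fun g τ hg =>
    ⟨conj_fix τ hg.1, hT1 g τ hg.1 hg.2⟩
  have hF2p : ∀ (g : L ≃ₐ[ℚ] L) (l : ℕ), F2 g → F2 (g ^ l) := fun g l hg =>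
    ⟨pow_pt hg.1 l, hT2 g l hg.2⟩
  have htc : ∀ (g σ : L ≃ₐ[ℚ] L) (j : Fin k), F2 g → σ (ι w) = ι w →
      t (σ * g * σ⁻¹) j = t g j := fun g σ j hg hσ =>
    htu _ _ _ (hF2c g σ hg) ((hT j).2.1 g σ _ hg.1 hg.2 hσ (ht g j hg))
  have htp : ∀ (g : L ≃ₐ[ℚ] L) (l : ℕ) (j : Fin k), F2 g → t (g ^ l) j = l * t g j :=
    fun g l j hg => htu _ _ _ (hF2p g l hg) ((hT j).2.2 g _ l hg.1 (ht g j hg))
  -- the bound
  let B : ℕ := ∑ j, (b j).natAbs
  have hB : ∀ j, (b j).natAbs ≤ B := fun j =>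
    Finset.single_le_sum (f := fun j => (b j).natAbs) (fun _ _ => Nat.zero_le _)
      (Finset.mem_univ j)
  refine ⟨L, hF, hN, hGp.gal, χ, F0 b ι, F2, T, max N₁ B, hχs, fun g τ _ h => h.conj τ,
    fun g l _ h => h.pow l, ?_, ?_, ?_, ?_, ?_⟩
  · intro g τ _ hg
    refine ⟨hF2c g τ hg, funext fun j => ?_⟩
    show t (τ * g * τ⁻¹) j + t (c * (τ * g * τ⁻¹) * c⁻¹) j = t g j + t (c * g * c⁻¹) j
    rcases GAK.cases_om ι τ with hτ | hτ
    · have e : c * (τ * g * τ⁻¹) * c⁻¹ =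
          (c * τ * c⁻¹) * (c * g * c⁻¹) * (c * τ * c⁻¹)⁻¹ := by group
      rw [e, htc g τ j hg hτ, htc _ _ j (hF2c g c hg) (conj_fix c hτ)]
    · have e1 : τ * g * τ⁻¹ = (τ * c⁻¹) * (c * g * c⁻¹) * (τ * c⁻¹)⁻¹ := by group
      have e2 : c * (τ * g * τ⁻¹) * c⁻¹ = (c * τ) * g * (c * τ)⁻¹ := by group
      have h1 : (τ * c⁻¹) (ι w) = ι w := by
        rw [AlgEquiv.mul_apply, inv_sq hc, map_pow, hτ, GAK.om4]
      have h2 : (c * τ) (ι w) = ι w := by
        rw [AlgEquiv.mul_apply, hτ, map_pow, hc, GAK.om4]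
      rw [e2, htc g _ j hg h2, e1, htc _ _ j (hF2c g c hg) h1, add_comm]
  · intro g l _ hg
    refine ⟨hF2p g l hg, funext fun j => ?_⟩
    show t (g ^ l) j + t (c * g ^ l * c⁻¹) j = (l : ZMod 3) • (t g j + t (c * g * c⁻¹) j)
    have e : c * g ^ l * c⁻¹ = (c * g * c⁻¹) ^ l := by rw [conj_pow]
    rw [e, htp g l j hg, htp _ l j (hF2c g c hg), smul_eq_mul]
    ring
  · intro a y y' ha
    obtain ⟨z, hzF, -, hzA⟩ := hJC1 s k b p q p' q' x u P Q P' Q' f L ζ ι hSys hSysK hG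
      (fun j => 2 * (y' j - y j))
    obtain ⟨hzω, hχz⟩ := hz1 z hzF.ze
    have hF0z : ∀ g : L ≃ₐ[ℚ] L, F0 b ι (g * z) ↔ F0 b ι g := by
      intro g
      have h1 : ∀ (j : Fin s) (ρ : L), ρ ^ 3 = (b j : L) → (g * z) ρ = g ρ := by
        intro j ρ hρ
        rw [AlgEquiv.mul_apply, hzF.rb j ρ hρ]
      have h2 : (g * z) (ι w) = g (ι w) := by rw [AlgEquiv.mul_apply, hzω]
      unfold F0
      rw [h2]
      refine and_congr_right fun _ => ?_
      constructor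
      · intro h j ρ hρ
        rw [← h1 j ρ hρ]
        exact h j ρ hρ
      · intro h j ρ hρ
        rw [h1 j ρ hρ]
        exact h j ρ hρ
    have hF2z : ∀ g : L ≃ₐ[ℚ] L, F2 (g * z) ↔ F2 g := by
      intro g
      have h1 : ∀ ρ : L, ρ ^ 3 = ι x → (g * z) ρ = g ρ := by
        intro ρ hρ
        rw [AlgEquiv.mul_apply, hzF.rx ρ hρ]
      have h1' : ∀ (j : Fin k) (ρ : L), ρ ^ 3 = ι (u j) → (g * z) ρ = g ρ := by
        intro j ρ hρ
        rw [AlgEquiv.mul_apply, hzF.ru j ρ hρ]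
      have h2 : (g * z) (ι w) = g (ι w) := by rw [AlgEquiv.mul_apply, hzω]
      show ((g * z) (ι w) = ι w ∧ FxU x u ι (g * z)) ↔ (g (ι w) = ι w ∧ FxU x u ι g)
      rw [h2]
      refine and_congr_right fun _ => ?_
      unfold FxU
      constructor
      · rintro ⟨h3, h4⟩
        exact ⟨fun ρ hρ => by rw [← h1 ρ hρ]; exact h3 ρ hρ,
          fun j ρ hρ => by rw [← h1' j ρ hρ]; exact h4 j ρ hρ⟩
      · rintro ⟨h3, h4⟩
        exact ⟨fun ρ hρ => by rw [h1 ρ hρ]; exact h3 ρ hρ,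
          fun j ρ hρ => by rw [h1' j ρ hρ]; exact h4 j ρ hρ⟩
    have key : ∀ g : L ≃ₐ[ℚ] L, F2 g → ∀ j, T (g * z) j = (y' j - y j) + T g j := by
      intro g hg j
      show t (g * z) j + t (c * (g * z) * c⁻¹) j =
        (y' j - y j) + (t g j + t (c * g * c⁻¹) j)
      have e1 : t (g * z) j = 2 * (y' j - y j) + t g j := by
        apply htu _ _ _ ((hF2z g).2 hg)
        intro ρ A hA
        rw [AlgEquiv.mul_apply, (hzA j ρ A hA).1, map_mul, map_pow, hg.1,
          ht g j hg ρ A hA, ← mul_assoc, om_add hω3]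
      have hg' := hF2c g c hg
      have e2 : t (c * (g * z) * c⁻¹) j = 2 * (y' j - y j) + t (c * g * c⁻¹) j := by
        apply htu _ _ _ (hF2c _ c ((hF2z g).2 hg))
        intro ρ A hA
        have h1 := conj_z hc ((hzA j ρ A hA).2 c⁻¹ (inv_sq hc))
        have h2 : c * (g * z) * c⁻¹ = (c * g * c⁻¹) * (c * z * c⁻¹) := by group
        rw [h2, AlgEquiv.mul_apply, h1, map_mul, map_pow, hg'.1,
          ht _ j hg' ρ A hA, ← mul_assoc, om_add hω3]
      rw [e1, e2]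
      linear_combination (y' j - y j) * three_card
    apply Nat.card_congr
    refine Equiv.subtypeEquiv (Equiv.mulRight z) ?_
    intro g
    have hχ : χ (g * z) = χ g := by rw [map_mul, hχz, mul_one]
    show (χ g = a ∧ F0 b ι g ∧ F2 g ∧ T g = y) ↔
      (χ (g * z) = a ∧ F0 b ι (g * z) ∧ F2 (g * z) ∧ T (g * z) = y')
    rw [hχ, hF0z g, hF2z g]
    refine and_congr_right fun _ => and_congr_right fun _ => and_congr_right fun hg => ?_
    constructor
    · intro h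
      funext j
      rw [key g hg j, h]
      ring
    · intro h
      funext j
      have h4 := congrFun h j
      rw [key g hg j] at h4
      linear_combination h4
  · intro a ha
    choose θ hθ using hGp.root
    have hθ0 : ∀ j, θ j ≠ 0 := by
      intro j h0
      have h1 := hθ j
      rw [h0] at h1
      apply hb0 j
      have h2 : ((b j : ℤ) : L) = 0 := by rw [← h1]; norm_num
      exact_mod_cast h2
    have hex : ∀ (g : L ≃ₐ[ℚ] L) (j : Fin s), ∃ u : ZMod 3, g (θ j) = ι w ^ u.val * θ j := by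
      intro g j
      apply cube_root hGp.rel
      rw [← map_pow, hθ j, map_intCast]
    choose uu huu using hex
    have huniq : ∀ (g : L ≃ₐ[ℚ] L) (j : Fin s) (u : ZMod 3), g (θ j) = ι w ^ u.val * θ j →
        uu g j = u := by
      intro g j u h
      apply om_zmod_inj hGp.rel (hθ0 j)
      rw [← huu g j, h]
    -- criterion for `F0`
    have hFu : ∀ g : L ≃ₐ[ℚ] L, g (ι w) = ι w → (F0 b ι g ↔ uu g = 0) := by
      intro g hg
      constructor
      · rintro ⟨_, h1⟩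
        funext j
        apply huniq
        rw [h1 j _ (hθ _)]
        simp
      · intro h1
        refine ⟨hg, fun j ρ hρ => ?_⟩
        obtain ⟨u, hu⟩ := cube_root hGp.rel (θ := θ j) (ρ := ρ) (by rw [hρ, hθ])
        rw [hu, map_mul, map_pow, hg, huu, h1]
        simp
    have hfib : ∀ w w' : Fin s → ZMod 3,
        (univ.filter fun g : L ≃ₐ[ℚ] L => χ g = a ∧ uu g = w).card =
        (univ.filter fun g : L ≃ₐ[ℚ] L => χ g = a ∧ uu g = w').card := by
      intro v v'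
      obtain ⟨z, hzζ, hzρ⟩ := hGKUM s b p q p' q' f L ζ (ι w) hSys hGp (v' - v)
      obtain ⟨hzω, hχz⟩ := hz1 z hzζ
      have key : ∀ g : L ≃ₐ[ℚ] L, g (ι w) = ι w → uu (g * z) = (v' - v) + uu g := by
        intro g hg
        funext j
        apply huniq
        rw [AlgEquiv.mul_apply, hzρ j _ (hθ j), map_mul, map_pow, hg, huu, ← mul_assoc,
          om_add hω3]
        rfl
      refine Finset.card_bij (fun g _ => g * z) ?_ ?_ ?_
      · intro g hg
        rw [mem_filter] at hg ⊢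
        obtain ⟨_, h1, h2⟩ := hg
        refine ⟨mem_univ _, by rw [map_mul, hχz, mul_one, h1], ?_⟩
        rw [key g (hM g (by rw [h1]; exact ha)), h2]
        abel
      · intro g _ g' _ e
        exact mul_right_cancel e
      · intro g hg
        rw [mem_filter] at hg
        obtain ⟨_, h1, h2⟩ := hg
        have h3 : g * z⁻¹ * z = g := inv_mul_cancel_right g z
        have h4 : χ (g * z⁻¹) = a := by rw [map_mul, map_inv, hχz, inv_one, mul_one, h1]
        refine ⟨g * z⁻¹, ?_, h3⟩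
        rw [mem_filter]
        refine ⟨mem_univ _, h4, ?_⟩
        have h5 := key (g * z⁻¹) (hM _ (by rw [h4]; exact ha))
        rw [h3, h2] at h5
        funext j
        have h7 := congrFun h5 j
        simp only [Pi.add_apply, Pi.sub_apply] at h7
        linear_combination (-1 : ZMod 3) * h7
    have h1 : Nat.card {g : L ≃ₐ[ℚ] L // χ g = a} =
        3 ^ s * (univ.filter fun g : L ≃ₐ[ℚ] L => χ g = a ∧ uu g = 0).card := by
      rw [Nat.card_eq_fintype_card, Fintype.card_subtype,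
        Finset.card_eq_sum_card_fiberwise (f := uu) (t := univ) (fun _ _ => by simp)]
      have h2 : ∀ v ∈ (univ : Finset (Fin s → ZMod 3)),
          (Finset.filter (fun g => uu g = v) (univ.filter fun g : L ≃ₐ[ℚ] L => χ g = a)).card =
          (univ.filter fun g : L ≃ₐ[ℚ] L => χ g = a ∧ uu g = 0).card := by
        intro v _
        rw [Finset.filter_filter]
        exact hfib v 0
      rw [Finset.sum_congr rfl h2, Finset.sum_const, smul_eq_mul, Finset.card_univ,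
        Fintype.card_fun, ZMod.card, Fintype.card_fin]
    have h2 : Nat.card {g : L ≃ₐ[ℚ] L // χ g = a ∧ F0 b ι g} =
        (univ.filter fun g : L ≃ₐ[ℚ] L => χ g = a ∧ uu g = 0).card := by
      rw [Nat.card_eq_fintype_card, Fintype.card_subtype]
      congr 1
      apply Finset.filter_congr
      intro g _
      refine and_congr_right fun h3 => ?_
      exact hFu g (hM g (by rw [h3]; exact ha))
    rw [h1, h2]
  · intro N hN' hNp hN₀ I g hI hNI hst
    have hfin := GFR.quo_finite hNp hI hNI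
    obtain ⟨l, hl, hfr⟩ := GFR.exists_frob_gen (R := ℤ) I g hst
    refine ⟨l, hl, hχF N hN' hNp I (g ^ l) hI hNI hfr, fun hN3 ρ hρ => ⟨fun hsym => ?_,
      fun hx hu => ?_⟩⟩
    · -- the rational classes
      have hb : ∀ j, ¬ (N : ℤ) ∣ b j := fun j =>
        GFR.not_dvd_of_lt (hb0 j)
          (lt_of_le_of_lt ((hB j).trans (le_max_right _ _)) hN₀)
      obtain ⟨ωB, ρ₀, K, _, mk, z, ψ, hωB, hρ₀, D⟩ :=
        PTE.GFRS.exists_dat hSPLT hSPP hNp hI hNI hN3 hfr hGp.rel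
      obtain ⟨-, -, h3, h4, h5, -⟩ := hSPLT.2 N ρ₀ hNp hN3 hρ₀
      have hC : GFRU.CJ ρ₀.1 N := ⟨h4, h5⟩
      have hsym' : ∀ j, sym ρ₀.1 (b j : Eis) = 0 := by
        intro j
        rcases h3 ρ ⟨conj ρ.1, hρ⟩ with h6 | h6
        · rw [← h6]
          exact hsym j
        · have h7 := hC.int (hb j)
          rw [← h6, hsym j] at h7
          exact neg_eq_zero.1 h7.symm
      have hfω := D.fω
      rw [hωB] at hfω
      refine ⟨hfω, fun j θ hθ => ?_⟩
      obtain ⟨θB, rfl, hθB⟩ := PTE.GFRS.exists_int hθ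
      by_contra h8
      exact D.sym_ne hθB (hb _)
        (fun h => h8 (congrArg (fun x : 𝓞 L => (x : L)) h)) (hsym' j)
    · obtain ⟨h1, h2, h3⟩ := hFr N hNp (lt_of_le_of_lt (le_max_left _ _) hN₀) hN3 I hI hNI
        (g ^ l) hfr ρ hρ hx hu
      have h4 : F2 (g ^ l) := ⟨h1, h2⟩
      refine ⟨h4, fun j r r' hr hr' => ?_⟩
      exact h3 c hc j r r' _ _ hr hr' (ht _ j h4) (ht _ j (hF2c _ c h4))

end Pool.Agent.PTK

end

section

/-!
# All moments of `3^r` for prime twists: the joint governing field, all classes cubes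

`Q = 1 (mod 3)` and all rational classes are cubes modulo `Q`; several base classes.
-/

set_option autoImplicit false

open NumberField IsDedekindDomain Finset
open scoped nonZeroDivisors Pointwise

namespace Pool.Agent.PTK

open Pool.Agent.Lib_helper18 Pool.Agent.Lib_helper18.Eis Pool.Agent.Lib_helper84.Cub
open Pool.Agent.PT Pool.Agent.PTE Pool.Agent.PT3 Pool.Agent.PTL Pool.Agent.PTN
open Pool.Agent.PT.GALD Pool.Agent.PTE.GALDS

namespace MAZ

/-- the empty family -/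
def nil : Fin 0 → Eis := fun j => j.elim0

theorem sys0 {M N : ℕ} {z : Fin M → Eis} {α β : Fin N → Fin M} {P Q P' Q' : Fin N → Eis}
    (hS : SysZ z α β P Q P' Q') (i : Fin M) : SysK (z i) nil nil nil nil nil := by
  classical
  refine ⟨fun c₀ c h hc => ?_, fun j => j.elim0, hS.cz i, fun j => j.elim0⟩
  have h3 : ¬ 3 ∣ c₀ := by
    rcases h with h | ⟨j, _⟩
    · exact h
    · exact j.elim0
  refine hS.ind (Pi.single i c₀) ⟨i, by rwa [Pi.single_eq_same]⟩ ?_
  obtain ⟨t, ht⟩ := hc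
  refine ⟨t, ht.trans ?_⟩
  rw [Finset.univ_eq_empty, Finset.prod_empty, mul_one,
    Finset.prod_eq_single i (fun j _ hj => by rw [Pi.single_eq_of_ne hj, pow_zero])
      (fun h => absurd (Finset.mem_univ i) h), Pi.single_eq_same]

theorem gov0 {M N : ℕ} {z : Fin M → Eis} {α : Fin N → Fin M} {P Q P' Q' : Fin N → Eis}
    {f : ℕ} {L : Type} [Field L] [NumberField L] {ζ : L} {ι : Eis →+* L}
    (hG : GovZ z α P Q P' Q' f L ζ ι) (i : Fin M) : GovK (z i) nil nil nil nil nil f L ζ ι :=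
  ⟨hG.gal, hG.prim, hG.nine, hG.hω, hG.rz i, fun j => j.elim0, fun j => j.elim0,
    fun j => j.elim0⟩

end MAZ

open JAZ in
theorem MAZ_thm (hMZF : Stmt_MZF) (hMC1 : Stmt_MC1) (hMC2 : Stmt_MC2) (hGTZ : Stmt_GTZ)
    (hGFZ : Stmt_GFZ) (hGTU : Stmt_GTU) (hGFKU : Stmt_GFKU) (hGCHI : GCHI) (hGKUM : GKUM) :
    Stmt_MAZ := by
  classical
  intro s b p q p' q' M N z α β P Q P' Q' f hSys hSysZ hf h9
  obtain ⟨L, hF, hN, ζ, ι, hG⟩ := hMZF s M N b p q p' q' z α β P Q P' Q' f hSys hSysZ hf h9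
  have hGp := hG.plus
  have hGm := hG.minus
  have := hGp.gal
  obtain ⟨χ, hχs, hχζ, hχF⟩ := hGCHI L f ζ hf hGp.prim
  obtain ⟨Nz, hFrZ⟩ := hGFZ s b p q p' q' f L ζ (ι w) hSys hGp
  have hFr1 := fun i => hGFKU 0 (z i) MAZ.nil MAZ.nil MAZ.nil MAZ.nil MAZ.nil f L ζ ι
    (MAZ.sys0 hSysZ i) (MAZ.gov0 hGm i)
  choose N₁ hFr₁ using hFr1
  have hFr2 := fun r => hGFKU 1 (z (α r)) (fun _ => z (β r)) (fun _ => P r) (fun _ => Q r)
    (fun _ => P' r) (fun _ => Q' r) f L ζ ι (hSysZ.one r) (hGm.one r)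
  choose N₂ hFr₂ using hFr2
  have hU := fun r => hGTU 1 (z (α r)) (fun _ => z (β r)) (fun _ => P r) (fun _ => Q r)
    (fun _ => P' r) (fun _ => Q' r) f L ζ ι (hSysZ.one r) (hGm.one r)
  have hU0 := fun i => hGTU 0 (z i) MAZ.nil MAZ.nil MAZ.nil MAZ.nil MAZ.nil f L ζ ι
    (MAZ.sys0 hSysZ i) (MAZ.gov0 hGm i)
  obtain ⟨hZ0, hZ⟩ := hGTZ s b p q p' q' f L ζ (ι w) hSys hGp
  have hω3 : ι w ^ 3 = 1 := GC.om3 (GCK.om ι)
  have hf1 : 1 < f := by
    obtain ⟨c, hc⟩ := h9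
    omega
  have h3f : 3 ∣ f := (by norm_num : (3 : ℕ) ∣ 9).trans h9
  have hfz : NeZero f := ⟨hf.ne'⟩
  -- action on ω
  have hωχ : ∀ g : L ≃ₐ[ℚ] L, g (ι w) = ι w ^ ((χ g : ZMod f)).val := by
    intro g
    rw [hGm.hω, map_pow, hχζ g, ← pow_mul, mul_comm, pow_mul, ← hGm.hω]
  have hM : ∀ g : L ≃ₐ[ℚ] L, M1 (χ g) → g (ι w) = ι w := by
    intro g hg
    rw [hωχ g]
    conv_rhs => rw [← pow_one (ι w)]
    apply om_congr hω3
    unfold M1 at hg
    omega
  obtain ⟨c, hc⟩ : ∃ c : L ≃ₐ[ℚ] L, c (ι w) = ι w ^ 2 := by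
    obtain ⟨c, hc⟩ := hχs (-1)
    refine ⟨c, ?_⟩
    rw [hωχ c, hc, neg_one_val hf1]
    apply om_congr hω3
    omega
  have hz1 : ∀ z : L ≃ₐ[ℚ] L, z ζ = ζ → z (ι w) = ι w ∧ χ z = 1 := by
    intro z hzζ
    refine ⟨by rw [hGm.hω, map_pow, hzζ], ?_⟩
    have h1 := hχζ z
    rw [hzζ] at h1
    have h2 : ((χ z : ZMod f)).val = 1 := by
      apply hGp.prim.pow_inj (ZMod.val_lt _) hf1
      rw [← h1, pow_one]
    apply Units.ext
    have h3 := ZMod.natCast_zmod_val (χ z : ZMod f)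
    rw [h2] at h3
    rw [← h3]
    simp
  have hb0 : ∀ j, b j ≠ 0 := PTE.GFRS.ne_zero hSys
  -- the class of the plus part
  let tt : (L ≃ₐ[ℚ] L) → Fin s → Fin s → ZMod 3 := fun g j i =>
    if h : j ≠ i ∧ F0 b ι g then ((hZ j i h.1).1 g h.2.1 h.2.2).choose else 0
  have htt : ∀ (g : L ≃ₐ[ℚ] L) (j i : Fin s), j ≠ i → F0 b ι g →
      IsTS b p q p' q' (ι w) g j i (tt g j i) := by
    intro g j i hji hg
    have h : j ≠ i ∧ F0 b ι g := ⟨hji, hg⟩
    have e : tt g j i = ((hZ j i h.1).1 g h.2.1 h.2.2).choose := dif_pos h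
    rw [e]
    exact ((hZ j i h.1).1 g h.2.1 h.2.2).choose_spec.1
  have httu : ∀ (g : L ≃ₐ[ℚ] L) (j i : Fin s) (a : ZMod 3), j ≠ i → F0 b ι g →
      IsTS b p q p' q' (ι w) g j i a → tt g j i = a := by
    intro g j i a hji hg ha
    exact ((hZ j i hji).1 g hg.1 hg.2).unique (htt g j i hji hg) ha
  -- the class of the minus part
  let F2 : (L ≃ₐ[ℚ] L) → Prop := fun g =>
    g (ι w) = ι w ∧ ∀ (i : Fin M) (ρ : L), ρ ^ 3 = ι (z i) → g ρ = ρ
  have hFU : ∀ (g : L ≃ₐ[ℚ] L) (r : Fin N), F2 g →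
      FxU (z (α r)) (fun _ : Fin 1 => z (β r)) ι g := fun g r hg =>
    ⟨hg.2 (α r), fun _ => hg.2 (β r)⟩
  let t : (L ≃ₐ[ℚ] L) → Fin N → ZMod 3 := fun g r =>
    if h : F2 g then (((hU r).2.2 0).1 g h.1 (hFU g r h)).choose else 0
  have ht : ∀ (g : L ≃ₐ[ℚ] L) (r : Fin N), F2 g →
      IsTU (z (α r)) (fun _ : Fin 1 => P r) (fun _ => Q r) (fun _ => P' r) (fun _ => Q' r)
        ι g 0 (t g r) := by
    intro g r h
    have e : t g r = (((hU r).2.2 0).1 g h.1 (hFU g r h)).choose := dif_pos h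
    rw [e]
    exact (((hU r).2.2 0).1 g h.1 (hFU g r h)).choose_spec.1
  have htu : ∀ (g : L ≃ₐ[ℚ] L) (r : Fin N) (a : ZMod 3), F2 g →
      IsTU (z (α r)) (fun _ : Fin 1 => P r) (fun _ => Q r) (fun _ => P' r) (fun _ => Q' r)
        ι g 0 a → t g r = a := by
    intro g r a h ha
    exact (((hU r).2.2 0).1 g h.1 (hFU g r h)).unique (ht g r h) ha
  let T : (L ≃ₐ[ℚ] L) → Fin N → ZMod 3 := fun g r => t g r + t (c * g * c⁻¹) r
  have hF2c : ∀ g τ : L ≃ₐ[ℚ] L, F2 g → F2 (τ * g * τ⁻¹) := fun g τ hg =>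
    ⟨conj_fix τ hg.1, fun i => ((hU0 i).1 g τ hg.1 ⟨hg.2 i, fun j => j.elim0⟩).1⟩
  have hF2p : ∀ (g : L ≃ₐ[ℚ] L) (l : ℕ), F2 g → F2 (g ^ l) := fun g l hg =>
    ⟨pow_pt hg.1 l, fun i ρ hρ => pow_pt (hg.2 i ρ hρ) l⟩
  have htc : ∀ (g σ : L ≃ₐ[ℚ] L) (r : Fin N), F2 g → σ (ι w) = ι w →
      t (σ * g * σ⁻¹) r = t g r := fun g σ r hg hσ =>
    htu _ _ _ (hF2c g σ hg) (((hU r).2.2 0).2.1 g σ _ hg.1 (hFU g r hg) hσ (ht g r hg))
  have htp : ∀ (g : L ≃ₐ[ℚ] L) (l : ℕ) (r : Fin N), F2 g → t (g ^ l) r = l * t g r :=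
    fun g l r hg => htu _ _ _ (hF2p g l hg) (((hU r).2.2 0).2.2 g _ l hg.1 (ht g r hg))
  -- the bound
  have hB1 : ∀ i, N₁ i ≤ ∑ i, N₁ i := fun i =>
    Finset.single_le_sum (f := N₁) (fun _ _ => Nat.zero_le _) (Finset.mem_univ i)
  have hB2 : ∀ r, N₂ r ≤ ∑ r, N₂ r := fun r =>
    Finset.single_le_sum (f := N₂) (fun _ _ => Nat.zero_le _) (Finset.mem_univ r)
  refine ⟨L, hF, hN, hGp.gal, χ, F0 b ι, tt, F2, T, Nz + ∑ i, N₁ i + ∑ r, N₂ r, hχs,
    fun g τ _ h => ⟨h.conj τ, fun j i hji => ?_⟩, fun g l _ h => ⟨h.pow l, fun j i hji => ?_⟩,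
    ?_, ?_, ?_, ?_, ?_⟩
  · exact httu _ _ _ _ hji (h.conj τ) ((hZ j i hji).2.1 g τ _ h.1 h.2 (htt g j i hji h))
  · exact httu _ _ _ _ hji (h.pow l) ((hZ j i hji).2.2 g _ l h.1 (htt g j i hji h))
  · intro g τ _ hg
    refine ⟨hF2c g τ hg, funext fun j => ?_⟩
    show t (τ * g * τ⁻¹) j + t (c * (τ * g * τ⁻¹) * c⁻¹) j = t g j + t (c * g * c⁻¹) j
    rcases GAK.cases_om ι τ with hτ | hτ
    · have e : c * (τ * g * τ⁻¹) * c⁻¹ =
          (c * τ * c⁻¹) * (c * g * c⁻¹) * (c * τ * c⁻¹)⁻¹ := by group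
      rw [e, htc g τ j hg hτ, htc _ _ j (hF2c g c hg) (conj_fix c hτ)]
    · have e1 : τ * g * τ⁻¹ = (τ * c⁻¹) * (c * g * c⁻¹) * (τ * c⁻¹)⁻¹ := by group
      have e2 : c * (τ * g * τ⁻¹) * c⁻¹ = (c * τ) * g * (c * τ)⁻¹ := by group
      have h1 : (τ * c⁻¹) (ι w) = ι w := by
        rw [AlgEquiv.mul_apply, inv_sq hc, map_pow, hτ, GAK.om4]
      have h2 : (c * τ) (ι w) = ι w := by
        rw [AlgEquiv.mul_apply, hτ, map_pow, hc, GAK.om4]
      rw [e2, htc g _ j hg h2, e1, htc _ _ j (hF2c g c hg) h1, add_comm]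
  · intro g l _ hg
    refine ⟨hF2p g l hg, funext fun j => ?_⟩
    show t (g ^ l) j + t (c * g ^ l * c⁻¹) j = (l : ZMod 3) • (t g j + t (c * g * c⁻¹) j)
    have e : c * g ^ l * c⁻¹ = (c * g * c⁻¹) ^ l := by rw [conj_pow]
    rw [e, htp g l j hg, htp _ l j (hF2c g c hg), smul_eq_mul]
    ring
  · intro a v v' y y' ha
    obtain ⟨z₁, hz₁, hz₁P, hz₁M⟩ := hMC1 s M N b p q p' q' z α β P Q P' Q' f L ζ ι hSys hSysZ hG
      (fun j => 2 * (y' j - y j))
    obtain ⟨z₂, hz₂, hz₂P, hz₂M⟩ := hMC2 s M N b p q p' q' z α β P Q P' Q' f L ζ ι hSys hSysZ hG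
      (fun j i => v' j i - v j i)
    obtain ⟨hz₁ω, hχz₁⟩ := hz1 z₁ hz₁.ze
    obtain ⟨hz₂ω, hχz₂⟩ := hz1 z₂ hz₂.ze
    set zz := z₁ * z₂ with hzz
    have hzω : zz (ι w) = ι w := by rw [hzz, AlgEquiv.mul_apply, hz₂ω, hz₁ω]
    have hχz : χ zz = 1 := by rw [hzz, map_mul, hχz₁, hχz₂, mul_one]
    have hzb : ∀ (j : Fin s) (ρ : L), ρ ^ 3 = (b j : L) → zz ρ = ρ := by
      intro j ρ hρ
      rw [hzz, AlgEquiv.mul_apply, hz₂.rb j ρ hρ, hz₁.rb j ρ hρ]
    have hzr : ∀ (i : Fin M) (ρ : L), ρ ^ 3 = ι (z i) → zz ρ = ρ := by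
      intro i ρ hρ
      rw [hzz, AlgEquiv.mul_apply, hz₂.rz i ρ hρ, hz₁.rz i ρ hρ]
    have hF0z : ∀ g : L ≃ₐ[ℚ] L, F0 b ι (g * zz) ↔ F0 b ι g := by
      intro g
      have h1 : ∀ (j : Fin s) (ρ : L), ρ ^ 3 = (b j : L) → (g * zz) ρ = g ρ := by
        intro j ρ hρ
        rw [AlgEquiv.mul_apply, hzb j ρ hρ]
      have h2 : (g * zz) (ι w) = g (ι w) := by rw [AlgEquiv.mul_apply, hzω]
      unfold F0
      rw [h2]
      refine and_congr_right fun _ => ?_
      constructor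
      · intro h j ρ hρ
        rw [← h1 j ρ hρ]
        exact h j ρ hρ
      · intro h j ρ hρ
        rw [h1 j ρ hρ]
        exact h j ρ hρ
    have hF2z : ∀ g : L ≃ₐ[ℚ] L, F2 (g * zz) ↔ F2 g := by
      intro g
      have h1 : ∀ (i : Fin M) (ρ : L), ρ ^ 3 = ι (z i) → (g * zz) ρ = g ρ := by
        intro i ρ hρ
        rw [AlgEquiv.mul_apply, hzr i ρ hρ]
      have h2 : (g * zz) (ι w) = g (ι w) := by rw [AlgEquiv.mul_apply, hzω]
      show ((g * zz) (ι w) = ι w ∧ ∀ (i : Fin M) (ρ : L), ρ ^ 3 = ι (z i) → (g * zz) ρ = ρ) ↔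
        (g (ι w) = ι w ∧ ∀ (i : Fin M) (ρ : L), ρ ^ 3 = ι (z i) → g ρ = ρ)
      rw [h2]
      refine and_congr_right fun _ => ?_
      constructor
      · intro h i ρ hρ
        rw [← h1 i ρ hρ]
        exact h i ρ hρ
      · intro h i ρ hρ
        rw [h1 i ρ hρ]
        exact h i ρ hρ
    have key0 : ∀ g : L ≃ₐ[ℚ] L, F0 b ι g → ∀ j i, j < i →
        tt (g * zz) j i = (v' j i - v j i) + tt g j i := by
      intro g hg j i hji
      apply httu _ _ _ _ hji.ne ((hF0z g).2 hg)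
      intro ρ A hρ hA
      have h1 := htt g j i hji.ne hg ρ A hρ hA
      have h2 := hz₂P j i ρ A hji ⟨hρ, hA⟩
      have h3 := hz₁P j i ρ A hji.ne ⟨hρ, hA⟩
      rw [AlgEquiv.mul_apply, hzz, AlgEquiv.mul_apply, h2, map_mul, map_pow, hz₁ω, h3, map_mul,
        map_pow, hg.1, h1, ← mul_assoc, om_add hω3]
    have key : ∀ g : L ≃ₐ[ℚ] L, F2 g → ∀ j, T (g * zz) j = (y' j - y j) + T g j := by
      intro g hg j
      show t (g * zz) j + t (c * (g * zz) * c⁻¹) j =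
        (y' j - y j) + (t g j + t (c * g * c⁻¹) j)
      have e1 : t (g * zz) j = 2 * (y' j - y j) + t g j := by
        apply htu _ _ _ ((hF2z g).2 hg)
        intro ρ A hA
        have h1 := ht g j hg ρ A hA
        rw [AlgEquiv.mul_apply, hzz, AlgEquiv.mul_apply, (hz₂M j ρ A hA).1, (hz₁M j ρ A hA).1,
          map_mul, map_pow, hg.1, h1, ← mul_assoc, om_add hω3]
      have hg' := hF2c g c hg
      have e2 : t (c * (g * zz) * c⁻¹) j = 2 * (y' j - y j) + t (c * g * c⁻¹) j := by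
        apply htu _ _ _ (hF2c _ c ((hF2z g).2 hg))
        intro ρ A hA
        have h0 : zz (c⁻¹ A) = ι w ^ (-(2 * (y' j - y j))).val * c⁻¹ A := by
          rw [hzz, AlgEquiv.mul_apply, (hz₂M j ρ A hA).2 c⁻¹ (inv_sq hc),
            (hz₁M j ρ A hA).2 c⁻¹ (inv_sq hc)]
        have h1 := conj_z hc h0
        have h2 : c * (g * zz) * c⁻¹ = (c * g * c⁻¹) * (c * zz * c⁻¹) := by group
        rw [h2, AlgEquiv.mul_apply, h1, map_mul, map_pow, hg'.1,
          ht _ j hg' ρ A hA, ← mul_assoc, om_add hω3]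
      rw [e1, e2]
      linear_combination (y' j - y j) * three_card
    apply Nat.card_congr
    refine Equiv.subtypeEquiv (Equiv.mulRight zz) ?_
    intro g
    have hχ : χ (g * zz) = χ g := by rw [map_mul, hχz, mul_one]
    show (χ g = a ∧ F0 b ι g ∧ F2 g ∧ T g = y ∧ ∀ j i, j < i → tt g j i = v j i) ↔
      (χ (g * zz) = a ∧ F0 b ι (g * zz) ∧ F2 (g * zz) ∧ T (g * zz) = y' ∧
        ∀ j i, j < i → tt (g * zz) j i = v' j i)
    rw [hχ, hF0z g, hF2z g]
    refine and_congr_right fun _ => and_congr_right fun hg0 => and_congr_right fun hg =>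
      and_congr ?_ ?_
    · constructor
      · intro h
        funext j
        rw [key g hg j, h]
        ring
      · intro h
        funext j
        have h4 := congrFun h j
        rw [key g hg j] at h4
        linear_combination h4
    · constructor
      · intro h j i hji
        rw [key0 g hg0 j i hji, h j i hji]
        ring
      · intro h j i hji
        have h4 := h j i hji
        rw [key0 g hg0 j i hji] at h4
        linear_combination h4
  · intro a ha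
    choose θ hθ using hGp.root
    have hθ0 : ∀ j, θ j ≠ 0 := by
      intro j h0
      have h1 := hθ j
      rw [h0] at h1
      apply hb0 j
      have h2 : ((b j : ℤ) : L) = 0 := by rw [← h1]; norm_num
      exact_mod_cast h2
    have hex : ∀ (g : L ≃ₐ[ℚ] L) (j : Fin s), ∃ u : ZMod 3, g (θ j) = ι w ^ u.val * θ j := by
      intro g j
      apply cube_root hGp.rel
      rw [← map_pow, hθ j, map_intCast]
    choose uu huu using hex
    have huniq : ∀ (g : L ≃ₐ[ℚ] L) (j : Fin s) (u : ZMod 3), g (θ j) = ι w ^ u.val * θ j →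
        uu g j = u := by
      intro g j u h
      apply om_zmod_inj hGp.rel (hθ0 j)
      rw [← huu g j, h]
    -- criterion for `F0`
    have hFu : ∀ g : L ≃ₐ[ℚ] L, g (ι w) = ι w → (F0 b ι g ↔ uu g = 0) := by
      intro g hg
      constructor
      · rintro ⟨_, h1⟩
        funext j
        apply huniq
        rw [h1 j _ (hθ _)]
        simp
      · intro h1
        refine ⟨hg, fun j ρ hρ => ?_⟩
        obtain ⟨u, hu⟩ := cube_root hGp.rel (θ := θ j) (ρ := ρ) (by rw [hρ, hθ])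
        rw [hu, map_mul, map_pow, hg, huu, h1]
        simp
    have hfib : ∀ w w' : Fin s → ZMod 3,
        (univ.filter fun g : L ≃ₐ[ℚ] L => χ g = a ∧ uu g = w).card =
        (univ.filter fun g : L ≃ₐ[ℚ] L => χ g = a ∧ uu g = w').card := by
      intro v v'
      obtain ⟨z, hzζ, hzρ⟩ := hGKUM s b p q p' q' f L ζ (ι w) hSys hGp (v' - v)
      obtain ⟨hzω, hχz⟩ := hz1 z hzζ
      have key : ∀ g : L ≃ₐ[ℚ] L, g (ι w) = ι w → uu (g * z) = (v' - v) + uu g := by
        intro g hg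
        funext j
        apply huniq
        rw [AlgEquiv.mul_apply, hzρ j _ (hθ j), map_mul, map_pow, hg, huu, ← mul_assoc,
          om_add hω3]
        rfl
      refine Finset.card_bij (fun g _ => g * z) ?_ ?_ ?_
      · intro g hg
        rw [mem_filter] at hg ⊢
        obtain ⟨_, h1, h2⟩ := hg
        refine ⟨mem_univ _, by rw [map_mul, hχz, mul_one, h1], ?_⟩
        rw [key g (hM g (by rw [h1]; exact ha)), h2]
        abel
      · intro g _ g' _ e
        exact mul_right_cancel e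
      · intro g hg
        rw [mem_filter] at hg
        obtain ⟨_, h1, h2⟩ := hg
        have h3 : g * z⁻¹ * z = g := inv_mul_cancel_right g z
        have h4 : χ (g * z⁻¹) = a := by rw [map_mul, map_inv, hχz, inv_one, mul_one, h1]
        refine ⟨g * z⁻¹, ?_, h3⟩
        rw [mem_filter]
        refine ⟨mem_univ _, h4, ?_⟩
        have h5 := key (g * z⁻¹) (hM _ (by rw [h4]; exact ha))
        rw [h3, h2] at h5
        funext j
        have h7 := congrFun h5 j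
        simp only [Pi.add_apply, Pi.sub_apply] at h7
        linear_combination (-1 : ZMod 3) * h7
    have h1 : Nat.card {g : L ≃ₐ[ℚ] L // χ g = a} =
        3 ^ s * (univ.filter fun g : L ≃ₐ[ℚ] L => χ g = a ∧ uu g = 0).card := by
      rw [Nat.card_eq_fintype_card, Fintype.card_subtype,
        Finset.card_eq_sum_card_fiberwise (f := uu) (t := univ) (fun _ _ => by simp)]
      have h2 : ∀ v ∈ (univ : Finset (Fin s → ZMod 3)),
          (Finset.filter (fun g => uu g = v) (univ.filter fun g : L ≃ₐ[ℚ] L => χ g = a)).card =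
          (univ.filter fun g : L ≃ₐ[ℚ] L => χ g = a ∧ uu g = 0).card := by
        intro v _
        rw [Finset.filter_filter]
        exact hfib v 0
      rw [Finset.sum_congr rfl h2, Finset.sum_const, smul_eq_mul, Finset.card_univ,
        Fintype.card_fun, ZMod.card, Fintype.card_fin]
    have h2 : Nat.card {g : L ≃ₐ[ℚ] L // χ g = a ∧ F0 b ι g} =
        (univ.filter fun g : L ≃ₐ[ℚ] L => χ g = a ∧ uu g = 0).card := by
      rw [Nat.card_eq_fintype_card, Fintype.card_subtype]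
      congr 1
      apply Finset.filter_congr
      intro g _
      refine and_congr_right fun h3 => ?_
      exact hFu g (hM g (by rw [h3]; exact ha))
    rw [h1, h2]
  · intro q₀ hq hq₀ hN₀ I g hI hNI hst
    have hfin := GFR.quo_finite hq₀ hI hNI
    obtain ⟨l, hl, hfr⟩ := GFR.exists_frob_gen (R := ℤ) I g hst
    have hχl := hχF q₀ hq hq₀ I (g ^ l) hI hNI hfr
    refine ⟨l, hl, hχl, fun hN3 ρ hρ => ⟨fun hsym => ?_, fun hsym => ?_⟩⟩
    · -- the rational classes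
      obtain ⟨h1, h2, h3⟩ := hFrZ q₀ hq₀ (by omega) hN3 I hI hNI (g ^ l) hfr ρ hρ hsym
      have h4 : F0 b ι (g ^ l) := ⟨h1, h2⟩
      exact ⟨h4, fun j i hji r hr => h3 j i hji r _ hr (htt _ j i hji h4)⟩
    · have hM1 : M1 (χ (g ^ l)) := by
        unfold M1
        rw [hχl, ZMod.coe_unitOfCoprime, ZMod.val_natCast, Nat.mod_mod_of_dvd _ h3f]
        exact hN3
      have h4 : F2 (g ^ l) := by
        refine ⟨hM _ hM1, fun i => ?_⟩
        have h5 := hB1 i
        exact (hFr₁ i q₀ hq₀ (by omega) hN3 I hI hNI (g ^ l) hfr ρ hρ (hsym i)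
          (fun j => j.elim0)).2.1.1
      refine ⟨h4, fun r ξ ξ' hξ hξ' => ?_⟩
      have h5 := hB2 r
      exact (hFr₂ r q₀ hq₀ (by omega) hN3 I hI hNI (g ^ l) hfr ρ hρ (hsym (α r))
        (fun _ => hsym (β r))).2.2 c hc 0 ξ ξ' _ _ hξ hξ' (ht _ r h4)
        (ht _ r (hF2c _ c h4))

end Pool.Agent.PTK

end

section

/-!
# PTK_THE: the pairing of `b` with `b^(1/3)` is zero
-/

set_option autoImplicit false

namespace Pool.Agent.PTK

open Pool.Agent.Lib_helper18 Pool.Agent.Lib_helper18.Eis Pool.Agent.Lib_helper84.Cub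
open Pool.Agent.PT Pool.Agent.PTE Pool.Agent.PT3 Pool.Agent.PTL Pool.Agent.PTN

namespace THE

open Pool.Agent.PT.TTH

theorem ASE_val {π : Eis} {s : Eis → Eis → ZMod 3} {e : ℕ} (hs : LSym π s e) {B : Eis}
    (hB : B ≠ 0) {r : Eis} (hr : r ≠ 0) : ASE s B 0 1 1 0 r = - s w B := by
  have e1 : LfE 0 1 2 r = w * (w * r) := by
    unfold LfE
    ring
  have e2 : LfE 1 0 1 r = 1 := by
    unfold LfE
    ring
  have e3 : LfE 0 1 1 r = w * r := by
    unfold LfE
    ring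
  have e4 : LfE 1 0 2 r = 1 := by
    unfold LfE
    ring
  unfold ASE
  rw [e1, e2, e3, e4, LSym.mul_right hs hB TTH.w_ne (mul_ne_zero TTH.w_ne hr),
    hs.skew w B TTH.w_ne hB]
  ring

theorem sy_sym {B b : Eis} (hb : AGE B b) {e : ℕ} (v : Pl) (hs : LSym (uni v) (sy v) e)
    (hB0 : B ≠ 0) : sy v B b = 0 := by
  rw [hs.skew _ _ hb.ne hB0]
  cases v with
  | none =>
    change - sl b B = 0
    unfold sl
    have h0 : (fun π : PP => tm π.1 b B) = fun _ => 0 := by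
      funext π
      exact hb.sym π
    rw [h0, finsum_zero, neg_zero, neg_zero]
  | some π =>
    change - tm π.1 b B = 0
    rw [hb.sym π, neg_zero]

/-- the value at a place where `b` is a local cube -/
theorem AVE_val (hAVE : Stmt_AVE) {B b : Eis} (hB : BGE B) (hb : AGE B b) {e : ℕ} (v : Pl)
    (hs : LSym (uni v) (sy v) e) (hLC : LCE (uni v) b) :
    AVE v B b 0 1 1 0 = - sy v w B := by
  have hSol : SolWE b b 0 1 1 0 := ⟨by ring, by simpa using hb.ne⟩
  refine (hAVE v B b b 0 1 1 0 hB.ne hb.ne hb.ne hSol (sy_sym hb v hs hB.ne) hLC).2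
    (- sy v w B) (V (uni v) b + 1) ?_
  intro r hr
  refine ASE_val hs hB.ne ?_
  intro hr0
  rw [hr0, zero_pow three_ne_zero, zero_sub, dvd_neg] at hr
  exact (fin hs.prime hb.ne).not_pow_dvd_of_multiplicity_lt (Nat.lt_succ_self _) hr

theorem tame_eq (hAVE : Stmt_AVE) (hLCI : Stmt_LCI) (hSTM : STM) (hSPP : SPP) {B b : Eis}
    (hB : BGE B) (hb : AGE B b) (π : PP) :
    TTE π B b b 0 1 1 0 = tm π.1 w b - tm π.1 w B := by
  have hs : LSym (uni (some π)) (sy (some π)) 1 := hSTM π.1 π.2.1 (hSPP.2.2.2.1 π).1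
  by_cases hLC : LCE π.1 b
  · have hAV := AVE_val hAVE hB hb (some π) hs hLC
    unfold TTE
    rw [if_pos hLC, hAV]
    change - tm π.1 w B + tm π.1 w b = _
    ring
  · have hVw : V π.1 w = 0 := by
      rw [V_eq_zero_iff]
      intro h
      have h1 : π.1 ∣ w ^ 3 := dvd_pow h three_ne_zero
      rw [w_cube] at h1
      exact π.2.1.not_isUnit (isUnit_of_dvd_one h1)
    have ht : ∀ x : Eis, tm π.1 w x = (V π.1 x : ZMod 3) * ch π.1 w := by
      intro x
      unfold tm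
      rw [hVw]
      push_cast
      ring
    unfold TTE
    rw [if_neg hLC]
    rw [ht, ht]
    by_cases hd : π.1 ∣ B
    · have hV1 : V π.1 B ≠ 0 := by
        intro h
        exact (V_eq_zero_iff.mp h) hd
      have hV2 := hB.cf π
      have hVB : ¬ 3 ∣ V π.1 B := by omega
      have hVb : ¬ 3 ∣ V π.1 b := by
        intro h3
        apply hLC
        refine (hLCI.1 π b hb.ne).mpr ⟨h3, ?_⟩
        have h4 := hb.sym π
        unfold tm at h4
        rw [(cast3 _).mpr h3, zero_mul, sub_zero] at h4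
        rcases mul_eq_zero.mp h4 with h5 | h5
        · exact absurd ((cast3 _).mp h5) hVB
        · exact h5
      by_cases h6 : 3 ∣ V π.1 b + V π.1 B
      · rw [if_pos ⟨h6, hVb⟩]
        refine key3 _ _ _ ?_
        rw [← Nat.cast_add]
        exact (cast3 _).mpr h6
      · rw [if_neg (fun h => h6 h.1)]
        refine key3' _ _ _ ?_ ?_ ?_
        · exact fun h => hVb ((cast3 _).mp h)
        · exact fun h => hVB ((cast3 _).mp h)
        · rw [← Nat.cast_add]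
          exact fun h => h6 ((cast3 _).mp h)
    · have h1 : V π.1 B = 0 := V_eq_zero hd
      have h2 : V π.1 b = 0 := V_eq_zero (hb.unr π hd)
      rw [h1, h2, if_neg (fun h => h.2 (dvd_zero _))]
      push_cast
      ring

theorem lam_eq (hAVE : Stmt_AVE) (hLMC : Stmt_LMC) (hLCI : Stmt_LCI) (hSLC : SLC) {B b : Eis}
    (hB : BGE B) (hb : AGE B b) (hM : MCl b) (h : LCE lam b ∨ LCE lam B) :
    LTE B b b 0 1 1 0 = sl w b - sl w B := by
  by_cases hLC : LCE lam b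
  · have hAV : AVE none B b 0 1 1 0 = - sl w B := AVE_val hAVE hB hb none hSLC hLC
    unfold LTE
    rw [if_pos hLC, hAV]
    ring
  · have hLB := h.resolve_left hLC
    have h1 := hLCI.2.2 lam sl 4 B w hSLC hLB hB.ne TTH.w_ne
    have h2 : sl w B = 0 := by
      rw [hSLC.skew _ _ hB.ne TTH.w_ne, h1, neg_zero]
    unfold LTE lfE
    rw [if_neg hLC, if_neg hLC, h2, (hLMC b hb.ne hM).1]
    ring

theorem fin_tame (hSSL : SSL) {a b : Eis} (ha : a ≠ 0) (hb : b ≠ 0) :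
    (Function.support fun π : PP => tm π.1 a b).Finite := by
  have h1 := (hSSL.2.2.2 a b ha hb).1
  have h2 : (Function.support fun π : PP => tm π.1 a b) =
      (some : PP → Pl) ⁻¹' (Function.support fun v : Pl => sy v a b) := by
    ext π
    rfl
  rw [h2]
  exact h1.preimage (Option.some_injective PP).injOn

end THE

/-- PTK_THE -/
theorem THE_thm (hAVE : Stmt_AVE) (hLMC : Stmt_LMC) (hLCI : Stmt_LCI) (hSTM : STM) (hSPP : SPP)
    (hSSL : SSL) (hSLC : SLC) : Stmt_THE := by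
  intro B b hB hb hM h
  unfold OZE
  rw [THE.lam_eq hAVE hLMC hLCI hSLC hB hb hM h]
  have h1 : (fun π : PP => TTE π (B : Eis) b b 0 1 1 0) =
      fun π : PP => tm π.1 w b - tm π.1 w (B : Eis) := by
    funext π
    exact THE.tame_eq hAVE hLCI hSTM hSPP hB hb π
  rw [h1, finsum_sub_distrib (THE.fin_tame hSSL TTH.w_ne hb.ne)
    (THE.fin_tame hSSL TTH.w_ne hB.ne)]
  unfold sl
  ring

end Pool.Agent.PTK

end
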