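import Mathlib
import Pool.Agent.PTWX.C40
import Pool.Agent.PTWX.C50
import Pool.Agent.PTWX.C54
import Pool.Agent.PTWX.C57
import Pool.Agent.PTWX.C60

/-! Parts: PTE.GTS, PTKX.GTZ, PTKX.JC2, PTKX.MC2, PTKX.ESR, PTKX.LAE, PTKX.LFE, PTKX.MSP, PTKX.VDIM -/

namespace Pool.Agent.PTK.ESR
end Pool.Agent.PTK.ESR

namespace Pool.Agent.PTK.LAE
end Pool.Agent.PTK.LAE

namespace Pool.Agent.PTK.LFE
end Pool.Agent.PTK.LFE

namespace Pool.Agent.PTK.MSP
end Pool.Agent.PTK.MSP

namespace Pool.Agent.PTK.VDIM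
end Pool.Agent.PTK.VDIM

section

/-!
# GTS: existence, uniqueness and properties of `t`
-/

set_option autoImplicit false
set_option linter.unusedSectionVars false

namespace Pool.Agent.PTE

open Pool.Agent.Lib_helper18 Pool.Agent.Lib_helper18.Eis Pool.Agent.Lib_helper84.Cub
open Pool.Agent.PT

namespace GTS

open Pool.Agent.PT.GT

variable {L : Type} [Field L] [NumberField L] {ω : L}

/-- The element `A` for `ω ρ` in terms of the one for `ρ`. -/
theorem mov {ρ t A A' : L} {p q p' q' b x : ℤ}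
    (hω : ω ^ 2 + ω + 1 = 0) (hρ : ρ ^ 3 = (b : L)) (ht : t ^ 3 = (x : L))
    (hs : SolW b x p q p' q')
    (hA : A ^ 3 * aD ω p q p' q' ρ = aN ω p q p' q' ρ)
    (hA' : A' ^ 3 * aD ω p q p' q' (ω * ρ) = aN ω p q p' q' (ω * ρ)) :
    ∃ e : ℕ, A' * (p + q * ω ^ 2 * ρ) = ω ^ e * (A * t * (p' + q' * ω ^ 2 * ρ)) := by
  have h3 := hA'
  have hN := PT.GC.nrm hω hρ (p := p) (q := q)
  have hN' := PT.GC.nrm hω hρ (p := p') (q := q')
  have hnz := mul_ne_zero (PT.GC.ne3 hω hρ (PT.GC.n1' hs)).1 (PT.GC.ne3 hω hρ hs.n1).2.1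
  unfold aD aN at h3 hA
  have hc := PT.GC.om3 hω
  have h4 : A' ^ 3 * ((p + q * ω ^ 2 * ρ) * (p' + q' * ρ)) =
      (p + q * ρ) * (p' + q' * ω ^ 2 * ρ) := by
    have e1 : (p : L) + q * ω * (ω * ρ) = p + q * ω ^ 2 * ρ := by ring
    have e2 : (p' : L) + q' * ω ^ 2 * (ω * ρ) = p' + q' * ρ := by
      linear_combination ((q' : L) * ρ) * hc
    have e3 : (p : L) + q * ω ^ 2 * (ω * ρ) = p + q * ρ := by
      linear_combination ((q : L) * ρ) * hc
    have e4 : (p' : L) + q' * ω * (ω * ρ) = p' + q' * ω ^ 2 * ρ := by ring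
    rw [e1, e2, e3, e4] at h3
    exact h3
  have heq : ((p ^ 3 + b * q ^ 3 : ℤ) : L) = (x : L) * ((p' ^ 3 + b * q' ^ 3 : ℤ) : L) := by
    rw [hs.eq]
    push_cast
    ring
  rw [← hN, ← hN'] at heq
  apply PT.GC.cube_eq hω
  apply mul_right_cancel₀ hnz
  rw [mul_pow, mul_pow, mul_pow, ht]
  calc A' ^ 3 * ((p : L) + q * ω ^ 2 * ρ) ^ 3 * ((p' + q' * ρ) * (p + q * ω * ρ))
      = (A' ^ 3 * ((p + q * ω ^ 2 * ρ) * (p' + q' * ρ))) *
          ((p + q * ω ^ 2 * ρ) ^ 2 * (p + q * ω * ρ)) := by ring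
    _ = ((p : L) + q * ρ) * ((p + q * ω * ρ) * (p + q * ω ^ 2 * ρ)) *
          ((p' + q' * ω ^ 2 * ρ) * (p + q * ω ^ 2 * ρ)) := by rw [h4]; ring
    _ = (A ^ 3 * ((p + q * ω * ρ) * (p' + q' * ω ^ 2 * ρ))) *
          (x * ((p' + q' * ω ^ 2 * ρ) ^ 2 * (p' + q' * ρ))) := by rw [heq, hA]; ring
    _ = A ^ 3 * (x : L) * ((p' : L) + q' * ω ^ 2 * ρ) ^ 3 * ((p' + q' * ρ) * (p + q * ω * ρ)) := by
        ring

/-- `g` acts by `ω^t` on all `A` belonging to `ρ`. -/
def W (ω : L) (p q p' q' : ℤ) (g : L ≃ₐ[ℚ] L) (t : ZMod 3) (ρ : L) : Prop :=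
  ∀ A : L, A ^ 3 * aD ω p q p' q' ρ = aN ω p q p' q' ρ → g A = E ω t * A

theorem W_step {ρ θ A : L} {p q p' q' b x : ℤ} {g : L ≃ₐ[ℚ] L} {t : ZMod 3}
    (hω : ω ^ 2 + ω + 1 = 0) (hρ : ρ ^ 3 = (b : L)) (hθ : θ ^ 3 = (x : L))
    (hs : SolW b x p q p' q') (hg : g ω = ω) (hgρ : g ρ = ρ) (hgθ : g θ = θ)
    (hA : A ^ 3 * aD ω p q p' q' ρ = aN ω p q p' q' ρ) (h : W ω p q p' q' g t ρ) :
    W ω p q p' q' g t (ω * ρ) := by
  intro A' hA'
  obtain ⟨e, he⟩ := mov hω hρ hθ hs hA hA'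
  have hnz := (PT.GC.ne3 hω hρ hs.n1).2.2
  apply mul_right_cancel₀ hnz
  have h1 := congrArg g he
  simp only [map_mul, map_pow, map_add, map_intCast, hg, hgρ, hgθ, h A hA] at h1
  rw [h1, mul_assoc (E ω t) A' _, he]
  ring

theorem W_all {ρ ρ' θ : L} {p q p' q' b x : ℤ} {g : L ≃ₐ[ℚ] L} {t : ZMod 3}
    (hω : ω ^ 2 + ω + 1 = 0) (hρ : ρ ^ 3 = (b : L)) (hρ' : ρ' ^ 3 = (b : L))
    (hθ : θ ^ 3 = (x : L)) (hs : SolW b x p q p' q') (hg : g ω = ω)
    (hgρ : ∀ ρ : L, ρ ^ 3 = (b : L) → g ρ = ρ) (hgθ : g θ = θ)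
    (hA : ∀ ρ : L, ρ ^ 3 = (b : L) → ∃ A, A ^ 3 * aD ω p q p' q' ρ = aN ω p q p' q' ρ)
    (h : W ω p q p' q' g t ρ) : W ω p q p' q' g t ρ' := by
  have hc := PT.GC.om3 hω
  obtain ⟨k, hk⟩ := PT.GC.cube_eq hω (hρ'.trans hρ.symm)
  have hpow : ∀ k : ℕ, (ω ^ k * ρ) ^ 3 = (b : L) ∧ W ω p q p' q' g t (ω ^ k * ρ) := by
    intro k
    induction k with
    | zero => exact ⟨by rw [pow_zero, one_mul, hρ], by rw [pow_zero, one_mul]; exact h⟩
    | succ k ih =>
      obtain ⟨A, hA1⟩ := hA _ ih.1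
      have e : ω ^ (k + 1) * ρ = ω * (ω ^ k * ρ) := by ring
      rw [e]
      refine ⟨?_, W_step hω ih.1 hθ hs hg (hgρ _ ih.1) hgθ hA1 ih.2⟩
      rw [mul_pow, hc, one_mul, ih.1]
  rw [hk]
  exact (hpow k).2

theorem pow_ω {g : L ≃ₐ[ℚ] L} (hg : g ω = ω) (k : ℕ) : (g ^ k) ω = ω := by
  induction k with
  | zero => rfl
  | succ k ih =>
    rw [pow_succ']
    change g ((g ^ k) ω) = ω
    rw [ih, hg]

theorem pow_E (rel : ω ^ 2 + ω + 1 = 0) {g : L ≃ₐ[ℚ] L} (hg : g ω = ω) {x : L} {u : ZMod 3}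
    (hx : g x = E ω u * x) (k : ℕ) : (g ^ k) x = E ω (k * u) * x := by
  induction k with
  | zero =>
    rw [Nat.cast_zero, zero_mul, E_zero, one_mul]
    rfl
  | succ k ih =>
    rw [pow_succ']
    change g ((g ^ k) x) = _
    rw [ih, map_mul, map_E' hg, hx, ← mul_assoc, ← E_add rel]
    congr 2
    push_cast
    ring

theorem conj_apply (g τ : L ≃ₐ[ℚ] L) (x : L) : (τ * g * τ⁻¹) x = τ (g (τ⁻¹ x)) := rfl

theorem apply_inv (τ : L ≃ₐ[ℚ] L) (x : L) : τ (τ⁻¹ x) = x := τ.apply_symm_apply x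

end GTS

open Pool.Agent.PT.GT in
/-- GTS: existence, uniqueness and properties of `t`. -/
theorem GTS_thm : GTS := by
  intro s b p q p' q' f L _ _ ζ ω hS hG
  have rel := hG.rel
  have h3 := cube_one rel
  have hω0 := ω_ne_zero rel
  have rootne : ∀ (g : L ≃ₐ[ℚ] L) (ρ : L), g ρ ≠ ρ → ρ ≠ 0 := by
    rintro g ρ h rfl
    exact h (map_zero g)
  refine ⟨?_, ?_⟩
  · intro g hg hF
    have hmove : ∀ ρ : L, ρ ^ 3 = (b (Fin.last s) : L) → ∃ u : ZMod 3, u ≠ 0 ∧
        g ρ = E ω u * ρ := by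
      intro ρ hρ
      have h1 : (g ρ) ^ 3 = ρ ^ 3 := by rw [← map_pow, hρ, map_intCast]
      obtain ⟨u, hu⟩ := of_cube rel h1
      refine ⟨u, ?_, hu⟩
      rintro rfl
      rw [E_zero, one_mul] at hu
      exact hF.2 ρ hρ hu
    have hk0 : ∀ (k : ℕ) (ρ : L), ρ ^ 3 = (b (Fin.last s) : L) → (g ^ k) ρ = ρ → 3 ∣ k := by
      intro k ρ hρ hk
      obtain ⟨u, hu0, hu⟩ := hmove ρ hρ
      have h1 := GTS.pow_E rel hg hu k
      rw [hk] at h1
      have hρ0 := rootne g ρ (hF.2 ρ hρ)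
      have h2 : E ω 0 = E ω (k * u) := by
        apply mul_right_cancel₀ hρ0
        rw [E_zero, one_mul]
        exact h1
      have h4 := E_inj rel h2
      have : Fact (Nat.Prime 3) := ⟨Nat.prime_three⟩
      rcases mul_eq_zero.1 h4.symm with h5 | h5
      · exact (ZMod.natCast_eq_zero_iff k 3).1 h5
      · exact absurd h5 hu0
    refine ⟨?_, ?_, ?_⟩
    · obtain ⟨θ, hθ⟩ := hG.root (Fin.last s)
      apply hk0 _ θ hθ
      rw [pow_orderOf_eq_one]
      rfl
    · intro τ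
      have hinv : ∀ (j : Fin (s + 1)) (ρ : L), ρ ^ 3 = (b j : L) → (τ⁻¹ ρ) ^ 3 = (b j : L) := by
        intro j ρ hρ
        rw [← map_pow, hρ, map_intCast]
      refine ⟨?_, ?_, ?_⟩
      · rw [GTS.conj_apply]
        have h1 : g (τ⁻¹ ω) = τ⁻¹ ω := by
          rcases map_ω rel (τ⁻¹ : L ≃ₐ[ℚ] L) with h | h
          · rw [h, hg]
          · rw [h, map_pow, hg]
        rw [h1, GTS.apply_inv]
      · intro j ρ hρ
        rw [GTS.conj_apply, hF.1 j _ (hinv _ ρ hρ), GTS.apply_inv]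
      · intro ρ hρ h1
        rw [GTS.conj_apply] at h1
        apply hF.2 _ (hinv _ ρ hρ)
        apply τ.injective
        rw [h1, GTS.apply_inv]
    · intro k
      refine ⟨GTS.pow_ω hg k, fun hk => ⟨?_, ?_⟩⟩
      · intro j ρ hρ
        have h1 : g ρ = E ω 0 * ρ := by rw [hF.1 j ρ hρ, E_zero, one_mul]
        rw [GTS.pow_E rel hg h1, mul_zero, E_zero, one_mul]
      · intro ρ hρ h1
        exact hk (hk0 k ρ hρ h1)
  · intro j i hji
    have hji' : j.castSucc ≠ i.castSucc := fun h => hji (Fin.castSucc_injective _ h)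
    have hsol := hS.sol _ _ hji'
    have hAne : ∀ ρ A : L, ρ ^ 3 = (b j.castSucc : L) →
        A ^ 3 * aD ω (p j.castSucc i.castSucc) (q j.castSucc i.castSucc)
          (p' j.castSucc i.castSucc) (q' j.castSucc i.castSucc) ρ =
        aN ω (p j.castSucc i.castSucc) (q j.castSucc i.castSucc)
          (p' j.castSucc i.castSucc) (q' j.castSucc i.castSucc) ρ → A ≠ 0 := by
      rintro ρ A hρ hA rfl
      apply (hG.D _ _ hji' ρ hρ).2
      rw [← hA]
      ring
    refine ⟨?_, ?_, ?_⟩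
    · intro g hg hF
      obtain ⟨ρ, hρ⟩ := hG.root j.castSucc
      obtain ⟨θ, hθ⟩ := hG.root i.castSucc
      obtain ⟨A, hA⟩ := hG.A _ _ hji' ρ hρ
      have hA0 := hAne ρ A hρ hA
      obtain ⟨hD, hN⟩ := hG.D _ _ hji' ρ hρ
      have hgρ := hF.1 j ρ hρ
      have e1 : (g A) ^ 3 = A ^ 3 := by
        have h1 := congrArg g hA
        rw [map_mul, map_pow, map_aD' hg, map_aN' hg, hgρ, ← hA] at h1
        exact mul_right_cancel₀ hD h1
      obtain ⟨t, ht⟩ := of_cube rel e1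
      have hW : GTS.W ω (p j.castSucc i.castSucc) (q j.castSucc i.castSucc)
          (p' j.castSucc i.castSucc) (q' j.castSucc i.castSucc) g t ρ := by
        intro A' hA'
        have e2 : A' ^ 3 = A ^ 3 := mul_right_cancel₀ hD (hA'.trans hA.symm)
        obtain ⟨m, hm⟩ := of_cube rel e2
        rw [hm, map_mul, map_E' hg, ht]
        ring
      refine ⟨t, ?_, ?_⟩
      · intro ρ' A' hρ' hA'
        exact GTS.W_all rel hρ hρ' hθ hsol.toSolW hg (hF.1 j) (hF.1 i θ hθ)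
          (hG.A _ _ hji') hW A' hA'
      · intro t' ht'
        have h1 : g A = E ω t' * A := ht' ρ A hρ hA
        rw [ht] at h1
        exact (E_inj rel (mul_right_cancel₀ hA0 h1)).symm
    · intro g τ t hg hF ht ρ A hρ hA
      have hρ' : (τ⁻¹ ρ) ^ 3 = (b j.castSucc : L) := by rw [← map_pow, hρ, map_intCast]
      have hA0 := hAne ρ A hρ hA
      have e1 := congrArg (τ⁻¹ : L ≃ₐ[ℚ] L) hA
      rw [map_mul, map_pow] at e1
      rw [GTS.conj_apply]
      change τ (g (τ⁻¹ A)) = E ω t * A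
      rcases map_ω rel (τ⁻¹ : L ≃ₐ[ℚ] L) with hτ | hτ
      · rw [map_aD' hτ, map_aN' hτ] at e1
        have h1 : g (τ⁻¹ A) = E ω t * τ⁻¹ A := ht _ _ hρ' e1
        have hτω : τ ω = ω := by
          have := congrArg τ hτ
          rw [GTS.apply_inv] at this
          exact this.symm
        rw [h1, map_mul, map_E' hτω, GTS.apply_inv]
      · rw [map_aD rel hτ, map_aN rel hτ] at e1
        have hA1 : τ⁻¹ A ≠ 0 := by
          rw [Ne, EmbeddingLike.map_eq_zero_iff]
          exact hA0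
        have h1 : g ((τ⁻¹ A)⁻¹) = E ω t * (τ⁻¹ A)⁻¹ := by
          apply ht _ _ hρ'
          rw [inv_pow, ← e1]
          field_simp
        have hτω : τ ω = ω ^ 2 := by
          have h4 := congrArg τ hτ
          rw [GTS.apply_inv, map_pow] at h4
          rcases map_ω rel τ with h5 | h5
          · exfalso
            rw [h5] at h4
            apply ω_ne_one rel
            have h6 : ω * (ω - 1) = 0 := by linear_combination -h4
            rcases mul_eq_zero.1 h6 with h7 | h7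
            · exact absurd h7 hω0
            · exact sub_eq_zero.1 h7
          · exact h5
        have h2 : g (τ⁻¹ A) = E ω (-t) * τ⁻¹ A := by
          rw [map_inv₀] at h1
          rw [E_neg rel]
          have h4 := congrArg (fun x => x⁻¹) h1
          simp only [inv_inv, mul_inv] at h4
          exact h4
        rw [h2, map_mul, map_E rel hτω, neg_neg, GTS.apply_inv]
    · intro g t k hg ht ρ A hρ hA
      have h1 : g A = E ω t * A := ht ρ A hρ hA
      exact GTS.pow_E rel hg h1 k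

end Pool.Agent.PTE

end

section

/-!
# GTZ (helper44): existence, uniqueness and properties of `t` on the elements fixing all roots of
the `b j`, `Q = 1 (mod 3)`
-/

set_option autoImplicit false
set_option linter.unusedSectionVars false

open NumberField IsDedekindDomain Finset
open scoped nonZeroDivisors Pointwise

namespace Pool.Agent.PTK

open Pool.Agent.Lib_helper18 Pool.Agent.Lib_helper18.Eis Pool.Agent.Lib_helper84.Cub
open Pool.Agent.PT Pool.Agent.PTE Pool.Agent.PT3 Pool.Agent.PTL Pool.Agent.PTN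

open Pool.Agent.PT.GT in
/-- GTZ: existence, uniqueness and properties of `t` on the elements fixing all roots. -/
theorem GTZ_thm : Stmt_GTZ := by
  intro s b p q p' q' f L _ _ ζ ω hS hG
  have rel := hG.rel
  have h3 := cube_one rel
  have hω0 := ω_ne_zero rel
  refine ⟨?_, ?_⟩
  · intro g τ hg hF
    have hinv : ∀ (j : Fin s) (ρ : L), ρ ^ 3 = (b j : L) → (τ⁻¹ ρ) ^ 3 = (b j : L) := by
      intro j ρ hρ
      rw [← map_pow, hρ, map_intCast]
    refine ⟨?_, ?_⟩
    · rw [GTS.conj_apply]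
      have h1 : g (τ⁻¹ ω) = τ⁻¹ ω := by
        rcases map_ω rel (τ⁻¹ : L ≃ₐ[ℚ] L) with h | h
        · rw [h, hg]
        · rw [h, map_pow, hg]
      rw [h1, GTS.apply_inv]
    · intro j ρ hρ
      rw [GTS.conj_apply, hF j _ (hinv _ ρ hρ), GTS.apply_inv]
  · intro j i hji
    have hsol := hS.sol _ _ hji
    have hAne : ∀ ρ A : L, ρ ^ 3 = (b j : L) →
        A ^ 3 * aD ω (p j i) (q j i)
          (p' j i) (q' j i) ρ =
        aN ω (p j i) (q j i)
          (p' j i) (q' j i) ρ → A ≠ 0 := by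
      rintro ρ A hρ hA rfl
      apply (hG.D _ _ hji ρ hρ).2
      rw [← hA]
      ring
    refine ⟨?_, ?_, ?_⟩
    · intro g hg hF
      obtain ⟨ρ, hρ⟩ := hG.root j
      obtain ⟨θ, hθ⟩ := hG.root i
      obtain ⟨A, hA⟩ := hG.A _ _ hji ρ hρ
      have hA0 := hAne ρ A hρ hA
      obtain ⟨hD, hN⟩ := hG.D _ _ hji ρ hρ
      have hgρ := hF j ρ hρ
      have e1 : (g A) ^ 3 = A ^ 3 := by
        have h1 := congrArg g hA
        rw [map_mul, map_pow, map_aD' hg, map_aN' hg, hgρ, ← hA] at h1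
        exact mul_right_cancel₀ hD h1
      obtain ⟨t, ht⟩ := of_cube rel e1
      have hW : GTS.W ω (p j i) (q j i)
          (p' j i) (q' j i) g t ρ := by
        intro A' hA'
        have e2 : A' ^ 3 = A ^ 3 := mul_right_cancel₀ hD (hA'.trans hA.symm)
        obtain ⟨m, hm⟩ := of_cube rel e2
        rw [hm, map_mul, map_E' hg, ht]
        ring
      refine ⟨t, ?_, ?_⟩
      · intro ρ' A' hρ' hA'
        exact GTS.W_all rel hρ hρ' hθ hsol.toSolW hg (hF j) (hF i θ hθ)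
          (hG.A _ _ hji) hW A' hA'
      · intro t' ht'
        have h1 : g A = E ω t' * A := ht' ρ A hρ hA
        rw [ht] at h1
        exact (E_inj rel (mul_right_cancel₀ hA0 h1)).symm
    · intro g τ t hg hF ht ρ A hρ hA
      have hρ' : (τ⁻¹ ρ) ^ 3 = (b j : L) := by rw [← map_pow, hρ, map_intCast]
      have hA0 := hAne ρ A hρ hA
      have e1 := congrArg (τ⁻¹ : L ≃ₐ[ℚ] L) hA
      rw [map_mul, map_pow] at e1
      rw [GTS.conj_apply]
      change τ (g (τ⁻¹ A)) = E ω t * A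
      rcases map_ω rel (τ⁻¹ : L ≃ₐ[ℚ] L) with hτ | hτ
      · rw [map_aD' hτ, map_aN' hτ] at e1
        have h1 : g (τ⁻¹ A) = E ω t * τ⁻¹ A := ht _ _ hρ' e1
        have hτω : τ ω = ω := by
          have := congrArg τ hτ
          rw [GTS.apply_inv] at this
          exact this.symm
        rw [h1, map_mul, map_E' hτω, GTS.apply_inv]
      · rw [map_aD rel hτ, map_aN rel hτ] at e1
        have hA1 : τ⁻¹ A ≠ 0 := by
          rw [Ne, EmbeddingLike.map_eq_zero_iff]
          exact hA0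
        have h1 : g ((τ⁻¹ A)⁻¹) = E ω t * (τ⁻¹ A)⁻¹ := by
          apply ht _ _ hρ'
          rw [inv_pow, ← e1]
          field_simp
        have hτω : τ ω = ω ^ 2 := by
          have h4 := congrArg τ hτ
          rw [GTS.apply_inv, map_pow] at h4
          rcases map_ω rel τ with h5 | h5
          · exfalso
            rw [h5] at h4
            apply ω_ne_one rel
            have h6 : ω * (ω - 1) = 0 := by linear_combination -h4
            rcases mul_eq_zero.1 h6 with h7 | h7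
            · exact absurd h7 hω0
            · exact sub_eq_zero.1 h7
          · exact h5
        have h2 : g (τ⁻¹ A) = E ω (-t) * τ⁻¹ A := by
          rw [map_inv₀] at h1
          rw [E_neg rel]
          have h4 := congrArg (fun x => x⁻¹) h1
          simp only [inv_inv, mul_inv] at h4
          exact h4
        rw [h2, map_mul, map_E rel hτω, neg_neg, GTS.apply_inv]
    · intro g t k hg ht ρ A hρ hA
      have h1 : g A = E ω t * A := ht ρ A hρ hA
      exact GTS.pow_E rel hg h1 k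

end Pool.Agent.PTK

end

section

/-!
# The joint governing field: commutators for the plus part which are trivial on the minus part
-/

set_option autoImplicit false

open NumberField IsDedekindDomain Finset
open scoped nonZeroDivisors Pointwise

namespace Pool.Agent.PTK

open Pool.Agent.Lib_helper18 Pool.Agent.Lib_helper18.Eis Pool.Agent.Lib_helper84.Cub
open Pool.Agent.PT Pool.Agent.PTE Pool.Agent.PT3 Pool.Agent.PTL Pool.Agent.PTN

namespace JC2

section rel

variable {s : ℕ} {b : Fin s → ℤ} {p q p' q' : Fin s → Fin s → ℤ} {L : Type} [Field L]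
    [NumberField L] {ζ ω : L}

/-- `GC.all` with a property `H` of the automorphisms which is closed under products -/
theorem all (hω : ω ^ 2 + ω + 1 = 0) (hζ : ∀ z : L ≃ₐ[ℚ] L, z ζ = ζ → z ω = ω)
    (H : (L ≃ₐ[ℚ] L) → Prop) (H1 : H 1) (Hm : ∀ z z', H z → H z' → H (z * z'))
    (hel : ∀ j₀ i₀ : Fin s, j₀ < i₀ → ∃ z : L ≃ₐ[ℚ] L,
      GC.R b p q p' q' ζ ω (fun j i => if (j, i) = (j₀, i₀) then 1 else 0) z ∧ H z)
    (v : Fin s → Fin s → ZMod 3) : ∃ z : L ≃ₐ[ℚ] L, GC.R b p q p' q' ζ ω v z ∧ H z := by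
  let S : AddSubmonoid (Fin s → Fin s → ZMod 3) :=
    { carrier := {v | ∃ z : L ≃ₐ[ℚ] L, GC.R b p q p' q' ζ ω v z ∧ H z}
      zero_mem' := ⟨1, GC.R_zero (fun _ _ _ => rfl), H1⟩
      add_mem' := by
        rintro v v' ⟨z, hz, hz1⟩ ⟨z', hz', hz1'⟩
        exact ⟨z * z', GC.R_add hω hζ hz hz', Hm _ _ hz1 hz1'⟩ }
  have h1 : ∀ x : Fin s × Fin s,
      (fun j i => if (j, i) = x then v x.1 x.2 else 0 : Fin s → Fin s → ZMod 3) ∈ S := by
    rintro ⟨j₀, i₀⟩
    by_cases hji : j₀ < i₀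
    · have h2 : (fun j i => if (j, i) = (j₀, i₀) then v j₀ i₀ else 0 : Fin s → Fin s → ZMod 3) =
          (v j₀ i₀).val • (fun j i => if (j, i) = (j₀, i₀) then 1 else 0 :
            Fin s → Fin s → ZMod 3) := by
        funext j i
        rw [Pi.smul_apply, Pi.smul_apply]
        split_ifs with h
        · rw [nsmul_one, ZMod.natCast_val, ZMod.cast_id', id]
        · rw [smul_zero]
      change (fun j i => if (j, i) = (j₀, i₀) then v j₀ i₀ else 0 : Fin s → Fin s → ZMod 3) ∈ S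
      rw [h2]
      exact S.nsmul_mem (hel j₀ i₀ hji) _
    · refine ⟨1, GC.R_zero (fun j i hji' => ?_), H1⟩
      rw [if_neg]
      intro h
      rw [Prod.mk.injEq] at h
      rw [h.1, h.2] at hji'
      exact hji hji'
  have h3 : v = ∑ x : Fin s × Fin s,
      (fun j i => if (j, i) = x then v x.1 x.2 else 0 : Fin s → Fin s → ZMod 3) := by
    funext j i
    rw [Finset.sum_apply, Finset.sum_apply, Finset.sum_ite_eq, if_pos (Finset.mem_univ _)]
  have h4 : v ∈ S := by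
    rw [h3]
    exact S.sum_mem (fun x _ => h1 x)
  exact h4

end rel

section com

variable {k : ℕ} {L : Type} [Field L] [NumberField L] {ι : Eis →+* L} {x : Eis}
  {u P Q P' Q' : Fin k → Eis}

/-- commutators of automorphisms which fix `ω` and the roots of `x` are trivial on `A` -/
theorem comA (hnz : ∀ j, GCK.Nz ι x (P j) (Q j) (P' j) (Q' j)) {σ τ : L ≃ₐ[ℚ] L}
    (hσ : GCK.Act ι x u 0 0 σ) (hτ : GCK.Act ι x u 0 0 τ) (j : Fin k) (ρ A : L)
    (hA : PrM x P Q P' Q' ι j ρ A) : ((σ * τ)⁻¹ * (τ * σ)) A = A := by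
  have f0 : ∀ g : L ≃ₐ[ℚ] L, GCK.Act ι x u 0 0 g → g ρ = ρ := by
    intro g hg
    rw [hg.2.1 ρ hA.1, ZMod.val_zero, pow_zero, one_mul]
  obtain ⟨e, he⟩ := GCK.fixA (hnz j) σ hA.1 hσ.1 (f0 σ hσ) hA.2
  obtain ⟨e', he'⟩ := GCK.fixA (hnz j) τ hA.1 hτ.1 (f0 τ hτ) hA.2
  have h1 : τ (σ A) = ι w ^ 0 * σ (τ A) := by
    rw [he, he', map_mul, map_mul, map_pow, map_pow, hσ.1, hτ.1, he, he', pow_zero, one_mul]
    ring
  rw [GC.comm_apply σ τ 0 hσ.1 hτ.1 A h1, pow_zero, one_mul]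

/-- the same for the conjugates of `A` -/
theorem comgA (hnz : ∀ j, GCK.Nz ι x (P j) (Q j) (P' j) (Q' j))
    (hx : ∃ t : Eis, x * conj x = t ^ 3) (hu : ∀ j, ∃ t : Eis, u j * conj (u j) = t ^ 3)
    {σ τ : L ≃ₐ[ℚ] L} (hσ : GCK.Act ι x u 0 0 σ) (hτ : GCK.Act ι x u 0 0 τ) (j : Fin k)
    (ρ A : L) (hA : PrM x P Q P' Q' ι j ρ A) (g : L ≃ₐ[ℚ] L) (hg : g (ι w) = ι w ^ 2) :
    ((σ * τ)⁻¹ * (τ * σ)) (g A) = g A := by
  have h1 := comA hnz (GCK.cjAct hg hx hu hσ) (GCK.cjAct hg hx hu hτ) j ρ A hA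
  have h2 : ((g⁻¹ * σ * g) * (g⁻¹ * τ * g))⁻¹ * ((g⁻¹ * τ * g) * (g⁻¹ * σ * g)) =
      g⁻¹ * ((σ * τ)⁻¹ * (τ * σ)) * g := by group
  rw [h2] at h1
  have h3 := congrArg g h1
  rw [← AlgEquiv.mul_apply, ← mul_assoc, ← mul_assoc, mul_inv_cancel, one_mul,
    AlgEquiv.mul_apply] at h3
  exact h3

end com

end JC2

/-- commutators for the plus part which are trivial on the minus part -/
theorem JC2_thm (hJKU : Stmt_JKU) : Stmt_JC2 := by
  intro s k b p q p' q' x u P Q P' Q' f L _ _ ζ ι hS hSK hG v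
  have hω := GCK.om ι
  have hf : 0 < f := by
    rcases Nat.eq_zero_or_pos f with h | h
    · exfalso
      have h1 := hG.minus.hω
      rw [h, Nat.zero_div, pow_zero] at h1
      rw [h1] at hω
      norm_num at hω
    · exact h
  have hζ : ∀ z : L ≃ₐ[ℚ] L, z ζ = ζ → z (ι w) = ι w := by
    intro z hz
    rw [hG.minus.hω, map_pow, hz]
  have hnz : ∀ j, GCK.Nz ι x (P j) (Q j) (P' j) (Q' j) := fun j ρ hρ => hG.minus.D j ρ hρ
  choose θ hθ using hG.plus.root
  have hg1 : ∀ i : Fin s, ∃ g : L ≃ₐ[ℚ] L, GCK.Act ι x u 0 0 g ∧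
      ∀ (l : Fin s) (ρ : L), ρ ^ 3 = (b l : L) →
        g ρ = ι w ^ ((Pi.single i 1 : Fin s → ZMod 3) l).val * ρ := by
    intro i
    obtain ⟨g, h0, h1, h2, h3⟩ := hJKU s k b p q p' q' x u P Q P' Q' f L ζ ι hS hSK hG 0 0
      (Pi.single i 1)
    exact ⟨g, ⟨h0, h1, h2⟩, h3⟩
  choose g hgK hgv using hg1
  have hgω : ∀ i, g i (ι w) = ι w := fun i => (hgK i).1
  have hgρ : ∀ (j : Fin s) (ρ : L), ρ ^ 3 = (b j : L) → g j ρ = ι w * ρ := by
    intro j ρ hρ
    rw [hgv j j ρ hρ, Pi.single_eq_same, show (1 : ZMod 3).val = 1 from rfl, pow_one]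
  have hgρ' : ∀ (i j : Fin s) (ρ : L), ρ ^ 3 = (b j : L) → j ≠ i → g i ρ = ρ := by
    intro i j ρ hρ hji
    rw [hgv i j ρ hρ, Pi.single_eq_of_ne hji, ZMod.val_zero, pow_zero, one_mul]
  have hz : ∀ g : L ≃ₐ[ℚ] L, ∃ i : ℕ, g ζ = ζ ^ i := by
    intro g
    have h1 : (g ζ) ^ f = 1 := by rw [← map_pow, hG.minus.prim.pow_eq_one, map_one]
    haveI : NeZero f := ⟨hf.ne'⟩
    obtain ⟨i, _, hi⟩ := hG.minus.prim.eq_pow_of_pow_eq_one h1
    exact ⟨i, hi.symm⟩
  obtain ⟨z, hzR, hz1, hz2, hz3⟩ := JC2.all (b := b) (p := p) (q := q) (p' := p') (q' := q')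
    (ζ := ζ) hω hζ
    (fun z => (∀ ρ : L, ρ ^ 3 = ι x → z ρ = ρ) ∧
      (∀ (j : Fin k) (ρ : L), ρ ^ 3 = ι (u j) → z ρ = ρ) ∧
      ∀ (j : Fin k) (ρ A : L), PrM x P Q P' Q' ι j ρ A → z A = A ∧
        ∀ g : L ≃ₐ[ℚ] L, g (ι w) = ι w ^ 2 → z (g A) = g A)
    ⟨fun _ _ => rfl, fun _ _ _ => rfl, fun _ _ _ _ => ⟨rfl, fun _ _ => rfl⟩⟩
    (by
      rintro z z' ⟨h1, h2, h3⟩ ⟨h1', h2', h3'⟩
      refine ⟨fun ρ hρ => ?_, fun j ρ hρ => ?_, fun j ρ A hA => ⟨?_, fun g hg => ?_⟩⟩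
      · rw [AlgEquiv.mul_apply, h1' ρ hρ, h1 ρ hρ]
      · rw [AlgEquiv.mul_apply, h2' j ρ hρ, h2 j ρ hρ]
      · rw [AlgEquiv.mul_apply, (h3' j ρ A hA).1, (h3 j ρ A hA).1]
      · rw [AlgEquiv.mul_apply, (h3' j ρ A hA).2 g hg, (h3 j ρ A hA).2 g hg])
    (by
      intro j i hji
      refine ⟨(g j * g i)⁻¹ * (g i * g j), ⟨?_, fun l ρ hρ => ?_, fun l k hlk ρ A hρ hA => ?_⟩,
        fun ρ hρ => ?_, fun l ρ hρ => ?_, fun l ρ A hA => ⟨?_, fun τ hτ => ?_⟩⟩
      · obtain ⟨m, hm⟩ := hz (g j)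
        obtain ⟨n, hn⟩ := hz (g i)
        have h1 : g i (g j ζ) = ι w ^ 0 * g j (g i ζ) := by
          rw [hm, hn, map_pow, map_pow, hm, hn, pow_zero, one_mul, ← pow_mul, ← pow_mul, mul_comm]
        rw [GC.comm_apply (g j) (g i) 0 (hgω j) (hgω i) ζ h1, pow_zero, one_mul]
      · have h1 : g i (g j ρ) = ι w ^ 0 * g j (g i ρ) := by
          rw [pow_zero, one_mul]
          by_cases h2 : l = i
          · subst h2
            rw [hgρ l ρ hρ, hgρ' j l ρ hρ (ne_of_gt hji), hgρ l ρ hρ, map_mul, hgω j,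
              hgρ' j l ρ hρ (ne_of_gt hji)]
          · by_cases h3 : l = j
            · subst h3
              rw [hgρ l ρ hρ, hgρ' i l ρ hρ h2, hgρ l ρ hρ, map_mul, hgω i, hgρ' i l ρ hρ h2]
            · rw [hgρ' i l ρ hρ h2, hgρ' j l ρ hρ h3, hgρ' i l ρ hρ h2]
        rw [GC.comm_apply (g j) (g i) 0 (hgω j) (hgω i) ρ h1, pow_zero, one_mul]
      · have hsol := (hS.sol l k hlk.ne).toSolW
        by_cases h2 : (l, k) = (j, i)
        · rw [Prod.mk.injEq] at h2
          obtain ⟨rfl, rfl⟩ := h2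
          simp only [if_true]
          have h1 : g k (g l A) = ι w ^ 1 * g l (g k A) :=
            GC.mv (g l) (g k) 1 hω hρ (hθ k) hsol (hgω l) (hgω k) (hgρ l ρ hρ)
              (hgρ' k l ρ hρ hlk.ne) (by rw [pow_one]; exact hgρ k _ (hθ k)) hA
          exact GC.comm_apply (g l) (g k) 1 (hgω l) (hgω k) A h1
        · simp only [if_neg h2]
          have h1 : g i (g j A) = ι w ^ 0 * g j (g i A) := by
            by_cases h3 : l = j
            · subst h3
              have h4 : k ≠ i := fun h => h2 (by rw [h])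
              exact GC.mv (g l) (g i) 0 hω hρ (hθ k) hsol (hgω l) (hgω i) (hgρ l ρ hρ)
                (hgρ' i l ρ hρ hji.ne)
                (by rw [pow_zero, one_mul]; exact hgρ' i k _ (hθ k) h4) hA
            · by_cases h4 : l = i
              · subst h4
                have h5 : k ≠ j := (hji.trans hlk).ne'
                have h6 := GC.mv (g l) (g j) 0 hω hρ (hθ k) hsol (hgω l) (hgω j) (hgρ l ρ hρ)
                  (hgρ' j l ρ hρ hji.ne')
                  (by rw [pow_zero, one_mul]; exact hgρ' j k _ (hθ k) h5) hA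
                rw [pow_zero, one_mul] at h6 ⊢
                exact h6.symm
              · rw [pow_zero, one_mul]
                exact GC.fx (g j) (g i) hω hρ hsol (hgω j) (hgω i) (hgρ' j l ρ hρ h3)
                  (hgρ' i l ρ hρ h4) hA
          have h5 := GC.comm_apply (g j) (g i) 0 (hgω j) (hgω i) A h1
          rw [ZMod.val_zero]
          exact h5
      · have f0 : ∀ i, g i ρ = ρ := fun i => by
          rw [(hgK i).2.1 ρ hρ, ZMod.val_zero, pow_zero, one_mul]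
        have h1 : g i (g j ρ) = ι w ^ 0 * g j (g i ρ) := by
          rw [f0 i, f0 j, f0 i, pow_zero, one_mul]
        rw [GC.comm_apply (g j) (g i) 0 (hgω j) (hgω i) ρ h1, pow_zero, one_mul]
      · have f0 : ∀ i, g i ρ = ρ := fun i => by
          rw [(hgK i).2.2 l ρ hρ, Pi.zero_apply, ZMod.val_zero, pow_zero, one_mul]
        have h1 : g i (g j ρ) = ι w ^ 0 * g j (g i ρ) := by
          rw [f0 i, f0 j, f0 i, pow_zero, one_mul]
        rw [GC.comm_apply (g j) (g i) 0 (hgω j) (hgω i) ρ h1, pow_zero, one_mul]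
      · exact JC2.comA hnz (hgK j) (hgK i) l ρ A hA
      · exact JC2.comgA hnz hSK.cx hSK.cb (hgK j) (hgK i) l ρ A hA τ hτ)
    v
  exact ⟨z, ⟨hzR.1, hz1, hz2, fun i ρ hρ => hzR.2.1 i ρ hρ⟩,
    fun j i ρ A hji hA => hzR.2.2 j i hji ρ A hA.1 hA.2, hz3⟩

end Pool.Agent.PTK

end

section

/-!
# The joint governing field with several base classes: commutators for the plus part which are
trivial on the minus part
-/

set_option autoImplicit false

open NumberField IsDedekindDomain Finset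
open scoped nonZeroDivisors Pointwise

namespace Pool.Agent.PTK

open Pool.Agent.Lib_helper18 Pool.Agent.Lib_helper18.Eis Pool.Agent.Lib_helper84.Cub
open Pool.Agent.PT Pool.Agent.PTE Pool.Agent.PT3 Pool.Agent.PTL Pool.Agent.PTN

namespace MC2

variable {M N : ℕ} {L : Type} [Field L] [NumberField L] {ι : Eis →+* L} {z : Fin M → Eis}
  {α β : Fin N → Fin M} {P Q P' Q' : Fin N → Eis}

/-- `g` fixes `ω` and the roots of the classes -/
def Fz (ι : Eis →+* L) (z : Fin M → Eis) (g : L ≃ₐ[ℚ] L) : Prop :=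
  g (ι w) = ι w ∧ ∀ (i : Fin M) (ρ : L), ρ ^ 3 = ι (z i) → g ρ = ρ

theorem act {g : L ≃ₐ[ℚ] L} (hg : Fz ι z g) (i j : Fin M) :
    GCK.Act ι (z i) (fun _ : Fin 1 => z j) 0 0 g := by
  refine ⟨hg.1, fun ρ hρ => ?_, fun _ ρ hρ => ?_⟩
  · rw [hg.2 i ρ hρ, ZMod.val_zero, pow_zero, one_mul]
  · rw [hg.2 j ρ hρ, Pi.zero_apply, ZMod.val_zero, pow_zero, one_mul]

/-- commutators are trivial on the minus part -/
theorem com (hD : ∀ (r : Fin N) (ρ : L), ρ ^ 3 = ι (z (α r)) →
      aDE ι (P r) (Q r) (P' r) (Q' r) ρ ≠ 0 ∧ aNE ι (P r) (Q r) (P' r) (Q' r) ρ ≠ 0)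
    (hz : ∀ i, ∃ t : Eis, z i * conj (z i) = t ^ 3)
    {σ τ : L ≃ₐ[ℚ] L} (hσ : Fz ι z σ) (hτ : Fz ι z τ) (r : Fin N) (ρ A : L)
    (hA : PrW z α P Q P' Q' ι r ρ A) : ((σ * τ)⁻¹ * (τ * σ)) A = A ∧
      ∀ g : L ≃ₐ[ℚ] L, g (ι w) = ι w ^ 2 → ((σ * τ)⁻¹ * (τ * σ)) (g A) = g A := by
  have hnz : ∀ j : Fin 1, GCK.Nz ι (z (α r)) ((fun _ : Fin 1 => P r) j)
      ((fun _ : Fin 1 => Q r) j) ((fun _ : Fin 1 => P' r) j) ((fun _ : Fin 1 => Q' r) j) :=
    fun _ ρ hρ => hD r ρ hρ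
  have hA' : PrM (z (α r)) (fun _ : Fin 1 => P r) (fun _ : Fin 1 => Q r)
      (fun _ : Fin 1 => P' r) (fun _ : Fin 1 => Q' r) ι 0 ρ A := hA
  exact ⟨JC2.comA hnz (act hσ (α r) (α r)) (act hτ (α r) (α r)) 0 ρ A hA',
    fun g hg => JC2.comgA hnz (hz _) (fun _ => hz _) (act hσ (α r) (α r)) (act hτ (α r) (α r))
      0 ρ A hA' g hg⟩

end MC2

/-- commutators for the plus part which are trivial on the minus part -/
theorem MC2_thm (hMKU : Stmt_MKU) : Stmt_MC2 := by
  intro s M N b p q p' q' z α β P Q P' Q' f L _ _ ζ ι hS hSZ hG v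
  have hω := GCK.om ι
  have hf : 0 < f := by
    rcases Nat.eq_zero_or_pos f with h | h
    · exfalso
      have h1 := hG.minus.hω
      rw [h, Nat.zero_div, pow_zero] at h1
      rw [h1] at hω
      norm_num at hω
    · exact h
  have hζ : ∀ z : L ≃ₐ[ℚ] L, z ζ = ζ → z (ι w) = ι w := by
    intro z hz
    rw [hG.minus.hω, map_pow, hz]
  choose θ hθ using hG.plus.root
  have hg1 : ∀ i : Fin s, ∃ g : L ≃ₐ[ℚ] L, MC2.Fz ι z g ∧
      ∀ (l : Fin s) (ρ : L), ρ ^ 3 = (b l : L) →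
        g ρ = ι w ^ ((Pi.single i 1 : Fin s → ZMod 3) l).val * ρ := by
    intro i
    obtain ⟨g, h0, h1, h3⟩ := hMKU s M N b p q p' q' z α β P Q P' Q' f L ζ ι hS hSZ hG 0
      (Pi.single i 1)
    refine ⟨g, ⟨h0, fun l ρ hρ => ?_⟩, h3⟩
    rw [h1 l ρ hρ, Pi.zero_apply, ZMod.val_zero, pow_zero, one_mul]
  choose g hgK hgv using hg1
  have hgω : ∀ i, g i (ι w) = ι w := fun i => (hgK i).1
  have hgρ : ∀ (j : Fin s) (ρ : L), ρ ^ 3 = (b j : L) → g j ρ = ι w * ρ := by
    intro j ρ hρ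
    rw [hgv j j ρ hρ, Pi.single_eq_same, show (1 : ZMod 3).val = 1 from rfl, pow_one]
  have hgρ' : ∀ (i j : Fin s) (ρ : L), ρ ^ 3 = (b j : L) → j ≠ i → g i ρ = ρ := by
    intro i j ρ hρ hji
    rw [hgv i j ρ hρ, Pi.single_eq_of_ne hji, ZMod.val_zero, pow_zero, one_mul]
  have hzi : ∀ g : L ≃ₐ[ℚ] L, ∃ i : ℕ, g ζ = ζ ^ i := by
    intro g
    have h1 : (g ζ) ^ f = 1 := by rw [← map_pow, hG.minus.prim.pow_eq_one, map_one]
    have : NeZero f := ⟨hf.ne'⟩
    obtain ⟨i, _, hi⟩ := hG.minus.prim.eq_pow_of_pow_eq_one h1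
    exact ⟨i, hi.symm⟩
  obtain ⟨g₀, hzR, hz2, hz3⟩ := JC2.all (b := b) (p := p) (q := q) (p' := p') (q' := q')
    (ζ := ζ) hω hζ
    (fun g₀ => (∀ (j : Fin M) (ρ : L), ρ ^ 3 = ι (z j) → g₀ ρ = ρ) ∧
      ∀ (j : Fin N) (ρ A : L), PrW z α P Q P' Q' ι j ρ A → g₀ A = A ∧
        ∀ g : L ≃ₐ[ℚ] L, g (ι w) = ι w ^ 2 → g₀ (g A) = g A)
    ⟨fun _ _ _ => rfl, fun _ _ _ _ => ⟨rfl, fun _ _ => rfl⟩⟩
    (by
      rintro z z' ⟨h2, h3⟩ ⟨h2', h3'⟩
      refine ⟨fun j ρ hρ => ?_, fun j ρ A hA => ⟨?_, fun g hg => ?_⟩⟩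
      · rw [AlgEquiv.mul_apply, h2' j ρ hρ, h2 j ρ hρ]
      · rw [AlgEquiv.mul_apply, (h3' j ρ A hA).1, (h3 j ρ A hA).1]
      · rw [AlgEquiv.mul_apply, (h3' j ρ A hA).2 g hg, (h3 j ρ A hA).2 g hg])
    (by
      intro j i hji
      refine ⟨(g j * g i)⁻¹ * (g i * g j), ⟨?_, fun l ρ hρ => ?_, fun l k hlk ρ A hρ hA => ?_⟩,
        fun l ρ hρ => ?_, fun l ρ A hA => ?_⟩
      · obtain ⟨m, hm⟩ := hzi (g j)
        obtain ⟨n, hn⟩ := hzi (g i)
        have h1 : g i (g j ζ) = ι w ^ 0 * g j (g i ζ) := by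
          rw [hm, hn, map_pow, map_pow, hm, hn, pow_zero, one_mul, ← pow_mul, ← pow_mul, mul_comm]
        rw [GC.comm_apply (g j) (g i) 0 (hgω j) (hgω i) ζ h1, pow_zero, one_mul]
      · have h1 : g i (g j ρ) = ι w ^ 0 * g j (g i ρ) := by
          rw [pow_zero, one_mul]
          by_cases h2 : l = i
          · subst h2
            rw [hgρ l ρ hρ, hgρ' j l ρ hρ (ne_of_gt hji), hgρ l ρ hρ, map_mul, hgω j,
              hgρ' j l ρ hρ (ne_of_gt hji)]
          · by_cases h3 : l = j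
            · subst h3
              rw [hgρ l ρ hρ, hgρ' i l ρ hρ h2, hgρ l ρ hρ, map_mul, hgω i, hgρ' i l ρ hρ h2]
            · rw [hgρ' i l ρ hρ h2, hgρ' j l ρ hρ h3, hgρ' i l ρ hρ h2]
        rw [GC.comm_apply (g j) (g i) 0 (hgω j) (hgω i) ρ h1, pow_zero, one_mul]
      · have hsol := (hS.sol l k hlk.ne).toSolW
        by_cases h2 : (l, k) = (j, i)
        · rw [Prod.mk.injEq] at h2
          obtain ⟨rfl, rfl⟩ := h2
          simp only [if_true]
          have h1 : g k (g l A) = ι w ^ 1 * g l (g k A) :=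
            GC.mv (g l) (g k) 1 hω hρ (hθ k) hsol (hgω l) (hgω k) (hgρ l ρ hρ)
              (hgρ' k l ρ hρ hlk.ne) (by rw [pow_one]; exact hgρ k _ (hθ k)) hA
          exact GC.comm_apply (g l) (g k) 1 (hgω l) (hgω k) A h1
        · simp only [if_neg h2]
          have h1 : g i (g j A) = ι w ^ 0 * g j (g i A) := by
            by_cases h3 : l = j
            · subst h3
              have h4 : k ≠ i := fun h => h2 (by rw [h])
              exact GC.mv (g l) (g i) 0 hω hρ (hθ k) hsol (hgω l) (hgω i) (hgρ l ρ hρ)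
                (hgρ' i l ρ hρ hji.ne)
                (by rw [pow_zero, one_mul]; exact hgρ' i k _ (hθ k) h4) hA
            · by_cases h4 : l = i
              · subst h4
                have h5 : k ≠ j := (hji.trans hlk).ne'
                have h6 := GC.mv (g l) (g j) 0 hω hρ (hθ k) hsol (hgω l) (hgω j) (hgρ l ρ hρ)
                  (hgρ' j l ρ hρ hji.ne')
                  (by rw [pow_zero, one_mul]; exact hgρ' j k _ (hθ k) h5) hA
                rw [pow_zero, one_mul] at h6 ⊢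
                exact h6.symm
              · rw [pow_zero, one_mul]
                exact GC.fx (g j) (g i) hω hρ hsol (hgω j) (hgω i) (hgρ' j l ρ hρ h3)
                  (hgρ' i l ρ hρ h4) hA
          have h5 := GC.comm_apply (g j) (g i) 0 (hgω j) (hgω i) A h1
          rw [ZMod.val_zero]
          exact h5
      · have f0 : ∀ i, g i ρ = ρ := fun i => (hgK i).2 l ρ hρ
        have h1 : g i (g j ρ) = ι w ^ 0 * g j (g i ρ) := by
          rw [f0 i, f0 j, f0 i, pow_zero, one_mul]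
        rw [GC.comm_apply (g j) (g i) 0 (hgω j) (hgω i) ρ h1, pow_zero, one_mul]
      · exact MC2.com hG.minus.D hSZ.cz (hgK j) (hgK i) l ρ A hA)
    v
  exact ⟨g₀, ⟨hzR.1, hz2, fun i ρ hρ => hzR.2.1 i ρ hρ⟩,
    fun j i ρ A hji hA => hzR.2.2 j i hji ρ A hA.1 hA.2, hz3⟩

end Pool.Agent.PTK

end

section

/-!
# ESR: the recursion for the corank of a random skew-symmetric matrix
-/

set_option autoImplicit false

namespace Pool.Agent.PTK

open Pool.Agent.PTL

namespace ESR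

open Matrix

instance : Fact (Nat.Prime 3) := ⟨Nat.prime_three⟩

variable {s : ℕ}

/-- the large matrix -/
def big (A : Matrix (Fin s) (Fin s) (ZMod 3)) (x : Fin s → ZMod 3) :
    Matrix (Fin (s + 1)) (Fin (s + 1)) (ZMod 3) :=
  Matrix.of (Fin.cons (Fin.cons 0 (-x)) fun i => Fin.cons (x i) (A i))

theorem big_mulVec (A : Matrix (Fin s) (Fin s) (ZMod 3)) (x y : Fin s → ZMod 3) (t : ZMod 3) :
    (big A x).mulVec (Fin.cons t y) = Fin.cons (-(x ⬝ᵥ y)) fun i => x i * t + A.mulVec y i := by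
  funext i
  refine Fin.cases ?_ (fun i => ?_) i
  · simp [big, Matrix.mulVec, dotProduct, Fin.sum_univ_succ]
  · simp [big, Matrix.mulVec, dotProduct, Fin.sum_univ_succ]

theorem big_ker (A : Matrix (Fin s) (Fin s) (ZMod 3)) (x y : Fin s → ZMod 3) (t : ZMod 3) :
    (big A x).mulVec (Fin.cons t y) = 0 ↔ x ⬝ᵥ y = 0 ∧ t • x + A.mulVec y = 0 := by
  rw [big_mulVec]
  constructor
  · intro h
    refine ⟨?_, ?_⟩
    · have h1 := congrFun h 0
      simpa using h1
    · funext i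
      have h1 := congrFun h i.succ
      simp only [Fin.cons_succ, Pi.zero_apply] at h1
      simp only [Pi.add_apply, Pi.smul_apply, smul_eq_mul, Pi.zero_apply]
      rw [mul_comm]
      exact h1
  · rintro ⟨h1, h2⟩
    funext i
    refine Fin.cases ?_ (fun i => ?_) i
    · simp [h1]
    · have h3 := congrFun h2 i
      simp only [Pi.add_apply, Pi.smul_apply, smul_eq_mul, Pi.zero_apply] at h3
      simp only [Fin.cons_succ, Pi.zero_apply]
      rw [mul_comm]
      exact h3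

/-- the number of the vectors in the kernel -/
theorem card_ker (n : ℕ) (A : Matrix (Fin n) (Fin n) (ZMod 3)) :
    Nat.card {x : Fin n → ZMod 3 // A.mulVec x = 0} = 3 ^ (n - A.rank) := by
  have hker : Module.finrank (ZMod 3) (LinearMap.ker A.mulVecLin) = n - A.rank := by
    have h1 := LinearMap.finrank_range_add_finrank_ker A.mulVecLin
    rw [Module.finrank_fintype_fun_eq_card, Fintype.card_fin] at h1
    have h2 : Module.finrank (ZMod 3) (LinearMap.range A.mulVecLin) = A.rank := rfl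
    omega
  have h1 := Module.natCard_eq_pow_finrank (K := ZMod 3) (V := LinearMap.ker A.mulVecLin)
  rw [Nat.card_zmod, hker] at h1
  exact h1

theorem skew_dot {A : Matrix (Fin s) (Fin s) (ZMod 3)} (hA : A.transpose = -A)
    (y z : Fin s → ZMod 3) : A.mulVec z ⬝ᵥ y = -(z ⬝ᵥ A.mulVec y) := by
  rw [dotProduct_comm, dotProduct_mulVec, ← mulVec_transpose, hA, neg_mulVec, neg_dotProduct,
    dotProduct_comm]

theorem alt_dot {A : Matrix (Fin s) (Fin s) (ZMod 3)} (hA : A.transpose = -A)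
    (z : Fin s → ZMod 3) : z ⬝ᵥ A.mulVec z = 0 := by
  have h1 := skew_dot hA z z
  rw [dotProduct_comm] at h1
  revert h1
  generalize z ⬝ᵥ A.mulVec z = d
  revert d
  decide

/-- the column is in the range -/
theorem case1 {A : Matrix (Fin s) (Fin s) (ZMod 3)} (hA : A.transpose = -A)
    (z : Fin s → ZMod 3) :
    s + 1 - (big A (A.mulVec z)).rank = s - A.rank + 1 := by
  have h1 : Nat.card {v : Fin (s + 1) → ZMod 3 // (big A (A.mulVec z)).mulVec v = 0} =
      Nat.card (ZMod 3 × {y : Fin s → ZMod 3 // A.mulVec y = 0}) := by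
    refine Nat.card_congr
      { toFun := fun v => (v.1 0, ⟨Fin.tail v.1 + v.1 0 • z, ?_⟩)
        invFun := fun w => ⟨Fin.cons w.1 (w.2.1 - w.1 • z), ?_⟩
        left_inv := ?_
        right_inv := ?_ }
    · have h2 := v.2
      rw [← Fin.cons_self_tail v.1, big_ker] at h2
      rw [mulVec_add, mulVec_smul, add_comm]
      simpa using h2.2
    · rw [big_ker, skew_dot hA, mulVec_sub, mulVec_smul, w.2.2, zero_sub, dotProduct_neg,
        dotProduct_smul, alt_dot hA]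
      simp
    · intro v
      refine Subtype.ext ?_
      simp only [add_sub_cancel_right]
      exact Fin.cons_self_tail v.1
    · intro w
      refine Prod.ext (by simp) (Subtype.ext ?_)
      simp
  rw [card_ker, Nat.card_prod, card_ker, Nat.card_zmod, mul_comm, ← pow_succ] at h1
  exact Nat.pow_right_injective (by norm_num : 2 ≤ 3) h1

/-- the dot product with `x` on the kernel -/
def phi (A : Matrix (Fin s) (Fin s) (ZMod 3)) (x : Fin s → ZMod 3) :
    Module.Dual (ZMod 3) (LinearMap.ker A.mulVecLin) :=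
  (dotProductBilin (ZMod 3) (ZMod 3) x).comp (Submodule.subtype _)

theorem phi_ne {A : Matrix (Fin s) (Fin s) (ZMod 3)} (hA : A.transpose = -A)
    {x : Fin s → ZMod 3} (hx : ∀ z, A.mulVec z ≠ x) : phi A x ≠ 0 := by
  intro h
  have h1 : (dotProductBilin (ZMod 3) (ZMod 3) x : Module.Dual (ZMod 3) (Fin s → ZMod 3)) ∈
      (LinearMap.ker A.mulVecLin).dualAnnihilator := by
    rw [Submodule.mem_dualAnnihilator]
    intro y hy
    exact LinearMap.congr_fun h ⟨y, hy⟩
  rw [← LinearMap.range_dualMap_eq_dualAnnihilator_ker] at h1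
  obtain ⟨ψ, hψ⟩ := h1
  obtain ⟨w, rfl⟩ := (dotProductEquiv (ZMod 3) (Fin s)).surjective ψ
  refine hx (-w) ?_
  have h2 : ∀ y, x ⬝ᵥ y = (A.mulVec (-w)) ⬝ᵥ y := by
    intro y
    have h3 := LinearMap.congr_fun hψ y
    have h4 : w ⬝ᵥ A.mulVec y = x ⬝ᵥ y := by simpa using h3
    rw [skew_dot hA, neg_dotProduct, neg_neg, h4]
  exact (dotProduct_eq _ _ h2).symm

/-- the column is not in the range -/
theorem case2 {A : Matrix (Fin s) (Fin s) (ZMod 3)} (hA : A.transpose = -A)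
    {x : Fin s → ZMod 3} (hx : ∀ z, A.mulVec z ≠ x) :
    s + 1 - (big A x).rank = s - A.rank - 1 := by
  have h1 : Nat.card {v : Fin (s + 1) → ZMod 3 // (big A x).mulVec v = 0} =
      Nat.card (LinearMap.ker (phi A x)) := by
    have ht : ∀ v : {v : Fin (s + 1) → ZMod 3 // (big A x).mulVec v = 0},
        v.1 0 = 0 ∧ A.mulVec (Fin.tail v.1) = 0 ∧ x ⬝ᵥ Fin.tail v.1 = 0 := by
      intro v
      have h2 := v.2
      rw [← Fin.cons_self_tail v.1, big_ker] at h2
      have h3 : v.1 0 = 0 := by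
        by_contra h0
        refine hx (-(v.1 0)⁻¹ • Fin.tail v.1) ?_
        have h4 : A.mulVec (Fin.tail v.1) = -(v.1 0 • x) := by
          rw [eq_neg_iff_add_eq_zero, add_comm]
          exact h2.2
        rw [mulVec_smul, h4, smul_neg, neg_smul, neg_neg, smul_smul, inv_mul_cancel₀ h0,
          one_smul]
      refine ⟨h3, ?_, h2.1⟩
      have h4 := h2.2
      rwa [h3, zero_smul, zero_add] at h4
    refine Nat.card_congr
      { toFun := fun v => ⟨⟨Fin.tail v.1, (ht v).2.1⟩, (ht v).2.2⟩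
        invFun := fun w => ⟨Fin.cons 0 w.1.1, ?_⟩
        left_inv := ?_
        right_inv := ?_ }
    · rw [big_ker, zero_smul, zero_add]
      exact ⟨w.2, w.1.2⟩
    · intro v
      refine Subtype.ext ?_
      have h3 := Fin.cons_self_tail v.1
      rw [(ht v).1] at h3
      exact h3
    · intro w
      refine Subtype.ext (Subtype.ext ?_)
      simp
  have h2 := Module.Dual.finrank_ker_add_one_of_ne_zero (phi_ne hA hx)
  have h3 : Module.finrank (ZMod 3) (LinearMap.ker A.mulVecLin) = s - A.rank := by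
    have h1 := LinearMap.finrank_range_add_finrank_ker A.mulVecLin
    rw [Module.finrank_fintype_fun_eq_card, Fintype.card_fin] at h1
    have h2 : Module.finrank (ZMod 3) (LinearMap.range A.mulVecLin) = A.rank := rfl
    omega
  have h4 := Module.natCard_eq_pow_finrank (K := ZMod 3) (V := LinearMap.ker (phi A x))
  rw [Nat.card_zmod] at h4
  rw [card_ker, h4] at h1
  have h5 := Nat.pow_right_injective (by norm_num : 2 ≤ 3) h1
  omega

/-- the number of the columns in the range -/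
theorem card_range (A : Matrix (Fin s) (Fin s) (ZMod 3)) :
    Nat.card {x : Fin s → ZMod 3 // ∃ z, A.mulVec z = x} = 3 ^ A.rank := by
  have h1 := Module.natCard_eq_pow_finrank (K := ZMod 3) (V := LinearMap.range A.mulVecLin)
  rw [Nat.card_zmod] at h1
  exact h1

/-- the skew-symmetric matrices -/
abbrev Sk (s : ℕ) := {M : Matrix (Fin s) (Fin s) (ZMod 3) // M.transpose = -M}

/-- the sum over the columns -/
theorem sum_col {A : Matrix (Fin s) (Fin s) (ZMod 3)} (hA : A.transpose = -A) (F : ℕ → ℝ) :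
    ∑ x : Fin s → ZMod 3, F (s + 1 - (big A x).rank) =
      3 ^ s * ((1 - 1 / 3 ^ (s - A.rank)) * F (s - A.rank - 1) +
        1 / 3 ^ (s - A.rank) * F (s - A.rank + 1)) := by
  classical
  have h1 : ∀ x : Fin s → ZMod 3, F (s + 1 - (big A x).rank) =
      F (s - A.rank - 1) + if ∃ z, A.mulVec z = x then
        F (s - A.rank + 1) - F (s - A.rank - 1) else 0 := by
    intro x
    split_ifs with h
    · obtain ⟨z, rfl⟩ := h
      rw [case1 hA]
      ring
    · rw [case2 hA fun z hz => h ⟨z, hz⟩, add_zero]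
  rw [Finset.sum_congr rfl fun x _ => h1 x, Finset.sum_add_distrib, Finset.sum_const,
    Finset.sum_ite, Finset.sum_const_zero, add_zero, Finset.sum_const]
  have h2 := card_range A
  rw [Nat.card_eq_fintype_card, Fintype.card_subtype] at h2
  rw [h2]
  have h3 : A.rank ≤ s := by
    have h4 := A.rank_le_card_height
    rwa [Fintype.card_fin] at h4
  have h5 : (3 : ℝ) ^ s = 3 ^ (s - A.rank) * 3 ^ A.rank := by
    rw [← pow_add]
    congr 1
    omega
  rw [Finset.card_univ, Fintype.card_fun, Fintype.card_fin, ZMod.card, nsmul_eq_mul, nsmul_eq_mul]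
  push_cast
  rw [h5]
  field_simp
  ring

theorem big_skew {A : Matrix (Fin s) (Fin s) (ZMod 3)} (hA : A.transpose = -A)
    (x : Fin s → ZMod 3) : (big A x).transpose = -(big A x) := by
  have hsk : ∀ i j, A j i = - A i j := fun i j => by
    have h1 := congrFun (congrFun hA i) j
    rw [transpose_apply, neg_apply] at h1
    exact h1
  ext i j
  refine Fin.cases ?_ (fun i => ?_) i <;> refine Fin.cases ?_ (fun j => ?_) j
  · simp [big]
  · simp [big]
  · simp [big]
  · simp [big, hsk i j]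

/-- a matrix of size `s + 1` -/
def eqv (s : ℕ) : Sk (s + 1) ≃ Sk s × (Fin s → ZMod 3) where
  toFun M := (⟨fun i j => M.1 i.succ j.succ, by
    ext i j
    have h1 := congrFun (congrFun M.2 i.succ) j.succ
    rw [transpose_apply, neg_apply] at h1
    exact h1⟩, fun i => M.1 i.succ 0)
  invFun z := ⟨big z.1.1 z.2, big_skew z.1.2 z.2⟩
  left_inv M := by
    have hsk : ∀ i j, M.1 j i = - M.1 i j := fun i j => by
      have h1 := congrFun (congrFun M.2 i) j
      rw [transpose_apply, neg_apply] at h1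
      exact h1
    have hd : ∀ j, M.1 j j = 0 := fun j => by
      have h1 := hsk j j
      revert h1
      generalize M.1 j j = d
      revert d
      decide
    refine Subtype.ext ?_
    ext i j
    refine Fin.cases ?_ (fun i => ?_) i <;> refine Fin.cases ?_ (fun j => ?_) j
    · simp [big, hd]
    · simp [big, hsk j.succ 0]
    · simp [big]
    · simp [big]
  right_inv z := by
    refine Prod.ext (Subtype.ext ?_) ?_
    · ext i j
      simp [big]
    · funext i
      simp [big]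

end ESR

open _root_.Pool.Agent.PTK.ESR in
theorem ESR_thm : Stmt_ESR := by
  classical
  intro s F
  unfold Esk
  have : Fintype (Sk s) := Fintype.ofFinite _
  have : Fintype (Sk (s + 1)) := Fintype.ofFinite _
  rw [finsum_eq_sum_of_fintype, finsum_eq_sum_of_fintype, Nat.card_congr (eqv s), Nat.card_prod,
    ← (eqv s).symm.sum_comp, Fintype.sum_prod_type]
  have h1 : ∀ A : Sk s, ∑ x : Fin s → ZMod 3, F (s + 1 - ((eqv s).symm (A, x)).1.rank) =
      3 ^ s * ((1 - 1 / 3 ^ (s - A.1.rank)) * F (s - A.1.rank - 1) +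
        1 / 3 ^ (s - A.1.rank) * F (s - A.1.rank + 1)) := fun A => sum_col A.2 F
  rw [Finset.sum_congr rfl fun A _ => h1 A, ← Finset.mul_sum]
  have h2 : (Nat.card (Fin s → ZMod 3) : ℝ) = 3 ^ s := by
    rw [Nat.card_eq_fintype_card, Fintype.card_fun, Fintype.card_fin, ZMod.card]
    push_cast
    rfl
  rw [Nat.cast_mul, h2, mul_comm (Nat.card (Sk s) : ℝ), mul_div_mul_left _ _ (by positivity)]

end Pool.Agent.PTK

end

section

/-!
# PTK_LAE: the local form of the antisymmetry at the tame places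
-/

set_option autoImplicit false

namespace Pool.Agent.PTK

open Pool.Agent.Lib_helper18 Pool.Agent.Lib_helper18.Eis Pool.Agent.Lib_helper84.Cub
open Pool.Agent.PT Pool.Agent.PTE Pool.Agent.PT3 Pool.Agent.PTL Pool.Agent.PTN

namespace LAE

theorem w_ne : (w : Eis) ≠ 0 := by
  intro h0
  have := congrArg Eis.im h0
  simp at this

theorem GfE_swap (p q p' q' : Eis) (i : ℕ) : GfE p (-p') (-q) q' i = GfE p q p' q' i := by
  unfold GfE
  ring

/-- the swapped solution -/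
theorem sol_swap {b x p q p' q' : Eis} (h : SolE b x p q p' q') : SolE x b p (-p') (-q) q' := by
  refine ⟨⟨?_, ?_⟩, ?_, ?_, ?_⟩
  · have := h.eq
    linear_combination this
  · have := h.n2
    intro h0
    apply this
    linear_combination h0
  · have := h.n1
    intro h0
    apply this
    linear_combination h0
  · rw [GfE_swap]
    exact h.g1
  · rw [GfE_swap]
    exact h.g2

/-- the tame symbols are symbols -/
theorem lsym (hSTM : STM) (hSPP : SPP) (π : PP) : LSym π.1 (tm π.1) 1 :=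
  hSTM π.1 π.2.1 (hSPP.2.2.2.1 π).1

theorem tm_swap (π a b : Eis) : tm π b a = - tm π a b := by
  unfold tm
  ring

/-- `(B, b) = 0` at the tame places -/
theorem sy_zero {B b : Eis} (h : AGE B b) (π : PP) : sy (some π) B b = 0 := by
  show tm π.1 B b = 0
  rw [tm_swap π.1 b B, h.sym π, neg_zero]

/-- `(w, x) = 0` if `x` is a local cube -/
theorem w_lc (hLCI : Stmt_LCI) {π : Eis} {s : Eis → Eis → ZMod 3} {e : ℕ} (hs : LSym π s e)
    {x : Eis} (hx : x ≠ 0) (h : LCE π x) : s w x = 0 := by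
  have h1 : s x w = 0 := hLCI.2.2 π s e x w hs h hx w_ne
  rw [hs.skew x w hx w_ne, h1, neg_zero]

/-- expansion of `(w, B x b)` -/
theorem w_mul {π : Eis} {s : Eis → Eis → ZMod 3} {e : ℕ} (hs : LSym π s e) {B x b : Eis}
    (hB : B ≠ 0) (hx : x ≠ 0) (hb : b ≠ 0) : s w (B * x * b) = s w B + s w x + s w b := by
  rw [hs.skew (B * x * b) w (mul_ne_zero (mul_ne_zero hB hx) hb) w_ne,
    hs.mul _ _ _ (mul_ne_zero hB hx) hb w_ne, hs.mul _ _ _ hB hx w_ne,
    hs.skew B w hB w_ne, hs.skew x w hx w_ne, hs.skew b w hb w_ne]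
  ring

theorem dvd_weak {π a : Eis} {M N : ℕ} (hMN : M ≤ N) (h : π ^ N ∣ a) : π ^ M ∣ a :=
  (pow_dvd_pow π hMN).trans h

theorem UVE_swap (s : Eis → Eis → ZMod 3) (B b x p q p' q' : Eis) :
    UVE s B x b p (-p') (-q) q' = UVE s B b x p q p' q' := by
  unfold UVE
  rw [GfE_swap, GfE_swap]
  have : B * b * x = B * x * b := by ring
  rw [this]

/-- the case that `b` is a local cube and `x` is not -/
theorem half (hSTM : STM) (hSPP : SPP) (hLCI : Stmt_LCI) (hAVE : Stmt_AVE) (hF2E : Stmt_F2E)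
    (π : PP) (B b x p q p' q' : Eis) (hB : BGE B) (hb : AGE B b) (hx : AGE B x)
    (hs : SolE b x p q p' q') (h1 : LCE π.1 b) (h2 : ¬ LCE π.1 x) :
    TTE π B b x p q p' q' = UVE (tm π.1) B b x p q p' q' ∧
      TTE π B x b p (-p') (-q) q' = 0 := by
  have hL := lsym hSTM hSPP π
  have hwb : tm π.1 w b = 0 := w_lc hLCI hL hb.ne h1
  obtain ⟨N0, hN⟩ := hF2E π B b x p q p' q' hB hb hx hs h1 h2
  have hA := (hAVE (some π) B b x p q p' q' hB.ne hb.ne hx.ne hs.toSolWE (sy_zero hx π) h1).2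
    _ N0 hN
  constructor
  · unfold TTE
    rw [if_pos h1, hA]
    unfold UVE
    rw [w_mul hL hB.ne hx.ne hb.ne, hwb]
    ring
  · unfold TTE
    rw [if_neg h2, hwb, neg_zero, ite_self]

/-- an admissible noncube at a place dividing `B` has valuation prime to `3` -/
theorem val_nc (hLCI : Stmt_LCI) {B b : Eis} (hB : BGE B) (hb : AGE B b) (π : PP)
    (hd : π.1 ∣ B) (h : ¬ LCE π.1 b) : ¬ 3 ∣ V π.1 b := by
  intro h3
  apply h
  rw [hLCI.1 π b hb.ne]
  refine ⟨h3, ?_⟩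
  have h1 : tm π.1 b B = 0 := hb.sym π
  have h2 : ((V π.1 b : ℕ) : ZMod 3) = 0 := by
    rw [ZMod.natCast_eq_zero_iff]
    exact h3
  unfold tm at h1
  rw [h2, zero_mul, sub_zero] at h1
  have h4 : V π.1 B ≤ 2 := hB.cf π
  have h5 : V π.1 B ≠ 0 := by
    intro h0
    exact (V_eq_zero_iff.1 h0) hd
  have h6 : ((V π.1 B : ℕ) : ZMod 3) ≠ 0 := by
    intro h0
    rw [ZMod.natCast_eq_zero_iff] at h0
    omega
  have : Fact (Nat.Prime 3) := ⟨Nat.prime_three⟩
  rcases mul_eq_zero.1 h1 with h7 | h7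
  · exact absurd h7 h6
  · exact h7

end LAE

open _root_.Pool.Agent.PTK.LAE in
theorem LAE_thm (hAVE : Stmt_AVE) (hF2E : Stmt_F2E) (hF3E : Stmt_F3E) (hF4E : Stmt_F4E)
    (hIF1 : Stmt_IF1) (hLCI : Stmt_LCI) (hSTM : STM) (hSPP : SPP) : Stmt_LAE := by
  intro π B b x p q p' q' hB hb hx hs
  have hL := lsym hSTM hSPP π
  have hs' := LAE.sol_swap hs
  by_cases h1 : LCE π.1 b
  · by_cases h2 : LCE π.1 x
    · -- both are local cubes
      obtain ⟨N0, hN⟩ := hIF1 π.1 (tm π.1) 1 hL b x p q p' q' hb.ne hx.ne hs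
      obtain ⟨N1, hN1⟩ := (hAVE (some π) B b x p q p' q' hB.ne hb.ne hx.ne hs.toSolWE
        (LAE.sy_zero hx π) h1).1
      obtain ⟨N2, hN2⟩ := (hAVE (some π) B x b p (-p') (-q) q' hB.ne hx.ne hb.ne hs'.toSolWE
        (LAE.sy_zero hb π) h2).1
      obtain ⟨r, hr⟩ := h1 (max N0 N1)
      obtain ⟨ξ, hξ⟩ := h2 (max N0 N2)
      have hwb : tm π.1 w b = 0 := LAE.w_lc hLCI hL hb.ne h1
      have hwx : tm π.1 w x = 0 := LAE.w_lc hLCI hL hx.ne h2
      have e1 := hN r ξ (LAE.dvd_weak (le_max_left _ _) hr) (LAE.dvd_weak (le_max_left _ _) hξ)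
        B hB.ne
      have e2 : ASE (tm π.1) B p q p' q' r = AVE (some π) B b p q p' q' :=
        hN1 r (LAE.dvd_weak (le_max_right _ _) hr)
      have e3 : ASE (tm π.1) B p (-p') (-q) q' ξ = AVE (some π) B x p (-p') (-q) q' :=
        hN2 ξ (LAE.dvd_weak (le_max_right _ _) hξ)
      unfold TTE
      rw [if_pos h1, if_pos h2, hwb, hwx, ← e2, ← e3]
      unfold UVE
      rw [LAE.w_mul hL hB.ne hx.ne hb.ne, hwb, hwx]
      linear_combination e1
    · obtain ⟨h3, h4⟩ := LAE.half hSTM hSPP hLCI hAVE hF2E π B b x p q p' q' hB hb hx hs h1 h2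
      rw [h3, h4, add_zero]
  · by_cases h2 : LCE π.1 x
    · obtain ⟨h3, h4⟩ := LAE.half hSTM hSPP hLCI hAVE hF2E π B x b p (-p') (-q) q' hB hx hb hs'
        h2 h1
      rw [h3, LAE.UVE_swap]
      rw [neg_neg, neg_neg] at h4
      rw [h4, zero_add]
    · -- both are not local cubes
      have hT1 : TTE π B b x p q p' q' =
          if 3 ∣ V π.1 b + V π.1 B ∧ ¬ 3 ∣ V π.1 b then - tm π.1 w x else 0 := by
        unfold TTE
        rw [if_neg h1]
      have hT2 : TTE π B x b p (-p') (-q) q' =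
          if 3 ∣ V π.1 x + V π.1 B ∧ ¬ 3 ∣ V π.1 x then - tm π.1 w b else 0 := by
        unfold TTE
        rw [if_neg h2]
      rw [hT1, hT2]
      by_cases hd : π.1 ∣ B
      · have hvb := LAE.val_nc hLCI hB hb π hd h1
        have hvx := LAE.val_nc hLCI hB hx π hd h2
        rw [hF3E π B b x p q p' q' hB hb hx hs hd hvb hvx]
        simp only [hvb, hvx, not_false_eq_true, and_true]
      · have hvb : V π.1 b = 0 := V_eq_zero (hb.unr π hd)
        have hvx : V π.1 x = 0 := V_eq_zero (hx.unr π hd)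
        have hcb : ch π.1 b ≠ 0 := by
          intro h0
          apply h1
          rw [hLCI.1 π b hb.ne]
          exact ⟨by rw [hvb]; exact dvd_zero 3, h0⟩
        have hcx : ch π.1 x ≠ 0 := by
          intro h0
          apply h2
          rw [hLCI.1 π x hx.ne]
          exact ⟨by rw [hvx]; exact dvd_zero 3, h0⟩
        rw [hF4E π B b x p q p' q' hB hb hx hs hd hcb hcx, hvb, hvx]
        simp

end Pool.Agent.PTK

end

section

/-!
# PTK_LFE: finiteness of the supports, minus part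
-/

set_option autoImplicit false

open NumberField IsDedekindDomain Finset
open scoped nonZeroDivisors Pointwise

namespace Pool.Agent.PTK

open Pool.Agent.Lib_helper18 Pool.Agent.Lib_helper18.Eis Pool.Agent.Lib_helper84.Cub
open Pool.Agent.PT Pool.Agent.PTE Pool.Agent.PT3 Pool.Agent.PTL Pool.Agent.PTN

namespace LFE

/-- Finite support and total sum zero. -/
def FP (c : ZMod 3) (f : PP → ZMod 3) : Prop :=
  (Function.support f).Finite ∧ c + ∑ᶠ π : PP, f π = 0

lemma FP.add {c d : ZMod 3} {f g : PP → ZMod 3} (hf : FP c f) (hg : FP d g) :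
    FP (c + d) (fun v => f v + g v) := by
  refine ⟨(hf.1.union hg.1).subset (Function.support_add f g), ?_⟩
  rw [finsum_add_distrib hf.1 hg.1]
  have h1 := hf.2
  have h2 := hg.2
  linear_combination h1 + h2

lemma FP.sub {c d : ZMod 3} {f g : PP → ZMod 3} (hf : FP c f) (hg : FP d g) :
    FP (c - d) (fun v => f v - g v) := by
  refine ⟨(hf.1.union hg.1).subset (Function.support_sub f g), ?_⟩
  rw [finsum_sub_distrib hf.1 hg.1]
  have h1 := hf.2
  have h2 := hg.2
  linear_combination h1 - h2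

lemma FP.sym (hSSL : SSL) {a b : Eis} (ha : a ≠ 0) (hb : b ≠ 0) :
    FP (sl a b) (fun π : PP => tm π.1 a b) := by
  refine ⟨?_, neg_add_cancel _⟩
  have h1 := (hSSL.2.2.2 a b ha hb).1
  refine (h1.preimage (Option.some_injective PP).injOn).subset ?_
  intro π hπ
  exact hπ

/-- The linear forms at good approximations are prime to `π`. -/
lemma LfE_not_dvd {π b p q r : Eis} (hr : π ∣ r ^ 3 - b) (h : ¬ π ∣ p ^ 3 + b * q ^ 3) (i : ℕ) :
    ¬ π ∣ LfE p q i r := by
  intro hd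
  apply h
  have h1 : p ^ 3 + b * q ^ 3 =
      LfE p q i r * (p ^ 2 - p * (q * w ^ i * r) + (q * w ^ i * r) ^ 2) -
        q ^ 3 * (r ^ 3 - b) := by
    have h2 : (w ^ i) ^ 3 = 1 := by rw [← pow_mul, mul_comm, pow_mul, w_cube, one_pow]
    unfold LfE
    linear_combination (-(q ^ 3 * r ^ 3)) * h2
  rw [h1]
  exact dvd_sub (dvd_mul_of_dvd_left hd _) (dvd_mul_of_dvd_right hr _)

end LFE

open _root_.Pool.Agent.PTK.LFE Pool.Agent.PT.LFIN in
/-- PTK_LFE. -/
theorem LFE_thm (hAVE : Stmt_AVE) (hSTM : STM) (hSPP : SPP) (hSSL : SSL) : Stmt_LFE := by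
  refine ⟨?_, ?_⟩
  · intro B b x p q p' q' hB hb hx hs
    have hn2 : p' ^ 3 + b * q' ^ 3 ≠ 0 := by
      intro h
      apply hs.n1
      rw [hs.eq, h, mul_zero]
    set M : Eis := B * b * x * (p ^ 3 + b * q ^ 3) * (p' ^ 3 + b * q' ^ 3) with hMdef
    have hM : M ≠ 0 := mul_ne_zero (mul_ne_zero (mul_ne_zero (mul_ne_zero hB.ne hb.ne) hx.ne)
      hs.n1) hn2
    refine (hSPP.2.2.1 M hM).subset ?_
    intro π hπ
    by_contra hnd
    apply hπ
    have hd : ∀ n : Eis, n ∣ M → ¬ π.1 ∣ n := fun n hn h1 => hnd (h1.trans hn)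
    have hnB := hd B ⟨b * x * (p ^ 3 + b * q ^ 3) * (p' ^ 3 + b * q' ^ 3), by rw [hMdef]; ring⟩
    have hnb := hd b ⟨B * x * (p ^ 3 + b * q ^ 3) * (p' ^ 3 + b * q' ^ 3), by rw [hMdef]; ring⟩
    have hnx := hd x ⟨B * b * (p ^ 3 + b * q ^ 3) * (p' ^ 3 + b * q' ^ 3), by rw [hMdef]; ring⟩
    have hn1 := hd (p ^ 3 + b * q ^ 3) ⟨B * b * x * (p' ^ 3 + b * q' ^ 3), by rw [hMdef]; ring⟩
    have hn2 := hd (p' ^ 3 + b * q' ^ 3) ⟨B * b * x * (p ^ 3 + b * q ^ 3), by rw [hMdef]; ring⟩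
    have hnw : ¬ π.1 ∣ w := fun h1 => π.2.1.not_isUnit (isUnit_of_dvd_unit h1 w_unit)
    show TTE π B b x p q p' q' = 0
    by_cases hLC : LCE π.1 b
    · have hTT : TTE π B b x p q p' q' = AVE (some π) B b p q p' q' + tm π.1 w x := by
        unfold TTE
        rw [if_pos hLC]
      rw [hTT]
      have hw : tm π.1 w x = 0 := tm_zero hnw hnx
      have hsym : sy (some π) B x = 0 := by
        have h1 := (hSTM π.1 π.2.1 (hSPP.2.2.2.1 π).1).skew x B hx.ne hB.ne
        show tm π.1 B x = 0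
        rw [h1, hx.sym π, neg_zero]
      obtain ⟨N0, hN0⟩ := (hAVE (some π) B b x p q p' q' hB.ne hb.ne hx.ne hs hsym hLC).1
      obtain ⟨r, hr⟩ := hLC (max N0 1)
      have hr0 : uni (some π) ^ N0 ∣ r ^ 3 - b :=
        (pow_dvd_pow _ (le_max_left _ _)).trans hr
      have hr1 : π.1 ∣ r ^ 3 - b := by
        have h1 : π.1 ^ 1 ∣ r ^ 3 - b := (pow_dvd_pow π.1 (le_max_right N0 1)).trans hr
        rwa [pow_one] at h1
      rw [hw, ← hN0 r hr0]
      show tm π.1 B (LfE p q 2 r) + tm π.1 B (LfE p' q' 1 r) -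
        tm π.1 B (LfE p q 1 r) - tm π.1 B (LfE p' q' 2 r) + 0 = 0
      rw [tm_zero hnB (LfE_not_dvd hr1 hn1 2), tm_zero hnB (LfE_not_dvd hr1 hn2 1),
        tm_zero hnB (LfE_not_dvd hr1 hn1 1), tm_zero hnB (LfE_not_dvd hr1 hn2 2)]
      simp
    · unfold TTE
      rw [if_neg hLC, if_neg]
      rintro ⟨-, h1⟩
      apply h1
      rw [V_eq_zero hnb]
      exact dvd_zero 3
  · intro B b x p q p' q' hB hb hx hs
    have hBxb : B * x * b ≠ 0 := mul_ne_zero (mul_ne_zero hB hx) hb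
    exact ((FP.sym hSSL hB hs.g1).sub (FP.sym hSSL hB hs.g2)).add (FP.sym hSSL w_ne hBxb)

end Pool.Agent.PTK

end

section

/-!
# PTK_MSP: the primes with large corank are in `SP`, `SM`
-/

set_option autoImplicit false

open NumberField IsDedekindDomain Finset
open scoped nonZeroDivisors Pointwise

namespace Pool.Agent.PTK

open Pool.Agent.Lib_helper18 Pool.Agent.Lib_helper18.Eis Pool.Agent.Lib_helper84.Cub
open Pool.Agent.PT Pool.Agent.PTE Pool.Agent.PT3 Pool.Agent.PTL Pool.Agent.PTN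

namespace MSP

theorem neg_of_two {x y : ZMod 3} (h : ((2 : ℕ) : ZMod 3) * x = y) : x = -y := by
  rw [← h]
  clear h y
  revert x
  decide

end MSP

open _root_.Pool.Agent.PTK.MSP in
/-- PTK_MSP: the primes with large corank are in `SP`, `SM`. -/
theorem MSP_thm (hDCOT : DCOT) (hTENT : TENT) (hNADT : Stmt_NADT) : Stmt_MSP := by
  classical
  intro h n m k π p e r f w0 c s τ' b X Y P Q P' Q' hNF hh hPl
  have hn0 : 0 < n := PT.FINA.pos_of_nf hNF
  have hN0 : 0 < 3 ^ h * n := Nat.mul_pos (pow_pos (by norm_num) _) hn0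
  have hBB : ∀ E q : ℕ, BB h n E q = ((3 ^ h * n : ℕ) : ℤ) * (q : ℤ) ^ E := by
    intro E q
    unfold BB
    push_cast
    ring
  have hAdN := hPl.adm
  have hSys := hPl.sys
  have hSw := hPl.sw
  have hLam := hPl.lam
  have hAdC : ∀ i, AdC h n π w0 c (b i) := fun i => (hAdN i).1
  have hb0 : ∀ i, b i ≠ 0 := fun i => (hAdC i).ne
  -- the conductor
  have hD : ∀ j i : Fin s, ∃ f₀ : ℕ, 0 < f₀ ∧ (j ≠ i → ∀ f : ℕ, 0 < f → f₀ ∣ f →
      ∃ (C : ZMod 3) (Φ : (ZMod f)ˣ →* Multiplicative (ZMod 3)),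
        ∀ (E q : ℕ) (hQ : q.Coprime f), q.Prime → q % 3 = 2 →
          AG (BB h n E q) (b i) →
          ∀ r : ℤ, (q : ℤ) ∣ r ^ 3 - b j →
            OT (BB h n E q) (b j) (X j) (Y j) (b i) (P j i) (Q j i) (P' j i) (Q' j i) =
            C + E * ((Φ (ZMod.unitOfCoprime q hQ)).toAdd -
              TAUV q (P j i) (Q j i) (P' j i) (Q' j i) r)) := by
    intro j i
    by_cases hji : j = i
    · exact ⟨1, one_pos, fun h => absurd hji h⟩
    · obtain ⟨f₀, h0, h1⟩ := hDCOT (3 ^ h * n) (b j) (X j) (Y j) (b i) (P j i) (Q j i) (P' j i)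
        (Q' j i) hN0 (hSys.sol j i hji) (hb0 j) (hb0 i)
      refine ⟨f₀, h0, fun _ f hf hd => ?_⟩
      obtain ⟨C, Φ, h2⟩ := h1 f hf hd
      refine ⟨C, Φ, fun E q hQ hq hq3 hAG r hr => ?_⟩
      rw [hBB] at hAG ⊢
      exact h2 E q hQ hq hq3 hAG r hr
  choose F0 hF0 hF1 using hD
  refine ⟨∏ j, ∏ i, F0 j i, Finset.prod_pos fun j _ => Finset.prod_pos fun i _ => hF0 j i, ?_⟩
  intro F hFpos hdF κ hκ
  have hFd : ∀ j i, F0 j i ∣ F := fun j i =>
    ((Finset.dvd_prod_of_mem (fun i => F0 j i) (mem_univ i)).trans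
      (Finset.dvd_prod_of_mem (fun j => ∏ i, F0 j i) (mem_univ j))).trans hdF
  have hC : ∀ j i : Fin s, ∃ (C : ZMod 3) (Φ : (ZMod F)ˣ →* Multiplicative (ZMod 3)),
      j ≠ i → ∀ (E q : ℕ) (hQ : q.Coprime F), q.Prime → q % 3 = 2 →
          AG (BB h n E q) (b i) →
          ∀ r : ℤ, (q : ℤ) ∣ r ^ 3 - b j →
            OT (BB h n E q) (b j) (X j) (Y j) (b i) (P j i) (Q j i) (P' j i) (Q' j i) =
            C + E * ((Φ (ZMod.unitOfCoprime q hQ)).toAdd -
              TAUV q (P j i) (Q j i) (P' j i) (Q' j i) r) := by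
    intro j i
    by_cases hji : j = i
    · exact ⟨0, 1, fun h => absurd hji h⟩
    · obtain ⟨C, Φ, h⟩ := hF1 j i hji F hFpos (hFd j i)
      exact ⟨C, Φ, fun _ => h⟩
  choose C Φ hC using hC
  let Φ' : (ZMod F)ˣ →* Multiplicative (Fin s → Fin s → ZMod 3) := PT.FINA.assemble Φ
  obtain ⟨M, hM⟩ : ∃ M, M = n + F := ⟨_, rfl⟩
  -- the matrix
  have hmat : ∀ (E q : ℕ), (E = 1 ∨ E = 2) → q.Prime → M < q → q % 3 = 2 → InCT E π w0 c q →
      ∃ hQ : q.Coprime F, ∀ τ : Fin s → Fin s → ZMod 3,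
        (∀ j i, j ≠ i → ∀ r : ℤ, (q : ℤ) ∣ r ^ 3 - b j →
          τ j i = TAUV q (P j i) (Q j i) (P' j i) (Q' j i) r) →
        MaT b X Y P Q P' Q' (BB h n E q) = alt fun j i =>
          C j i + E * ((Φ j i (ZMod.unitOfCoprime q hQ)).toAdd - τ j i) := by
    intro E q hE hq hqM hq3 hIn
    have hqn : ¬ q ∣ n := fun h => by
      have := Nat.le_of_dvd hn0 h
      omega
    have hQ : q.Coprime F := by
      rw [Nat.Prime.coprime_iff_not_dvd hq]
      intro h
      have := Nat.le_of_dvd hFpos h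
      omega
    obtain ⟨hBG, hTy, hiff⟩ := hNADT h n m k π p e r f w0 c E q hNF hh hE hq hq3 hIn hqn
    have hAG : ∀ i, AG (BB h n E q) (b i) := fun i =>
      ((hiff (b i) (hAdC i).supp).1 (hAdN i)).1
    refine ⟨hQ, ?_⟩
    intro τ hτ
    have hent : ∀ j i, j ≠ i → MaT b X Y P Q P' Q' (BB h n E q) j i =
        C j i + E * ((Φ j i (ZMod.unitOfCoprime q hQ)).toAdd - τ j i) := by
      intro j i hji
      obtain ⟨ρ, hρ⟩ := BFINA.exists_root hq hq3 (b j)
      rw [MaT, if_neg hji, hC j i hji E q hQ hq hq3 (hAG i) ρ hρ, ← hτ j i hji ρ hρ]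
    have hanti := (hTENT s τ' b X Y P Q P' Q' (BB h n E q) hSys hSw hBG hAG (hLam _ hTy) hb0).1
    ext j i
    rw [alt]
    rcases lt_trichotomy j i with h | h | h
    · rw [if_pos h, hent j i h.ne]
    · subst h
      rw [if_neg (lt_irrefl _), if_neg (lt_irrefl _), MaT, if_pos rfl]
    · rw [if_neg (not_lt.2 h.le), if_pos h, hanti j i, hent i j h.ne]
  refine ⟨C, Φ', M, ?_⟩
  intro q t hq hqM hq3
  constructor
  · intro hIn hrr
    obtain ⟨hQ, hm⟩ := hmat 1 q (Or.inl rfl) hq hqM hq3 hIn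
    refine ⟨hQ, hq3, ?_, ?_⟩
    · rw [hκ]
      funext i
      refine Fin.cases ?_ (fun i => ?_) i
      · rw [Fin.cons_zero, Fin.cons_zero]
        have h5 := hIn.1
        rw [pow_one] at h5
        exact h5
      · rw [Fin.cons_succ, Fin.cons_succ]
        have h5 := hIn.2 i
        rw [Nat.cast_one, one_mul] at h5
        exact h5
    · intro τ hτ
      have e1 : (fun j i => C j i + ((1 : ℕ) : ZMod 3) *
          ((Φ j i (ZMod.unitOfCoprime q hQ)).toAdd - τ j i)) =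
          C + (Φ' (ZMod.unitOfCoprime q hQ)).toAdd - τ := by
        funext j i
        show C j i + ((1 : ℕ) : ZMod 3) * ((Φ j i (ZMod.unitOfCoprime q hQ)).toAdd - τ j i) =
          C j i + (Φ j i (ZMod.unitOfCoprime q hQ)).toAdd - τ j i
        rw [Nat.cast_one]
        ring
      rw [← e1, ← hm τ hτ]
      exact hrr
  · intro hIn hrr
    obtain ⟨hQ, hm⟩ := hmat 2 q (Or.inr rfl) hq hqM hq3 hIn
    refine ⟨hQ, hq3, ?_, ?_⟩
    · rw [hκ]
      funext i
      refine Fin.cases ?_ (fun i => ?_) i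
      · rw [Fin.cons_zero, Pi.neg_apply, Fin.cons_zero]
        have h5 := hIn.1
        rw [CL.wt_sq2 hq3] at h5
        exact neg_of_two h5
      · rw [Fin.cons_succ, Pi.neg_apply, Fin.cons_succ]
        exact neg_of_two (hIn.2 i)
    · intro τ hτ
      have e1 : (fun j i => C j i + ((2 : ℕ) : ZMod 3) *
          ((Φ j i (ZMod.unitOfCoprime q hQ)).toAdd - τ j i)) =
          C - (Φ' (ZMod.unitOfCoprime q hQ)).toAdd + τ := by
        funext j i
        show C j i + ((2 : ℕ) : ZMod 3) * ((Φ j i (ZMod.unitOfCoprime q hQ)).toAdd - τ j i) =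
          C j i - (Φ j i (ZMod.unitOfCoprime q hQ)).toAdd + τ j i
        rw [show ((2 : ℕ) : ZMod 3) = -1 from by decide]
        ring
      rw [← e1, ← hm τ hτ]
      exact hrr

end Pool.Agent.PTK

end

section

/-! PTK_VDIM (helper87): the codimension of `V0`. -/

set_option autoImplicit false

namespace Pool.Agent.PTK

open Pool.Agent.Lib_helper18 Pool.Agent.Lib_helper18.Eis Pool.Agent.Lib_helper84.Cub
open Pool.Agent.PT Pool.Agent.PTE Pool.Agent.PT3 Pool.Agent.PTL Pool.Agent.PTN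

namespace VDIM

/-- one linear condition lowers the dimension by at most one -/
lemma step {M : ℕ} (S : Submodule (ZMod 3) (Fin M → ZMod 3)) (l : (Fin M → ZMod 3) →ₗ[ZMod 3] ZMod 3) :
    Module.finrank (ZMod 3) S ≤
      Module.finrank (ZMod 3) (S ⊓ LinearMap.ker l : Submodule (ZMod 3) (Fin M → ZMod 3)) + 1 := by
  have h1 := LinearMap.finrank_range_add_finrank_ker (l.comp S.subtype)
  have h2 : Module.finrank (ZMod 3) (LinearMap.range (l.comp S.subtype)) ≤ 1 := by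
    have := Submodule.finrank_le (LinearMap.range (l.comp S.subtype))
    rwa [Module.finrank_self] at this
  have h3 : Module.finrank (ZMod 3) (LinearMap.ker (l.comp S.subtype)) =
      Module.finrank (ZMod 3) (S ⊓ LinearMap.ker l : Submodule (ZMod 3) (Fin M → ZMod 3)) := by
    rw [LinearMap.ker_comp, ← Submodule.map_comap_subtype]
    exact (Submodule.finrank_map_subtype_eq _ _).symm
  omega

end VDIM

open _root_.Pool.Agent.PTK.VDIM

theorem VDIM_thm : Stmt_VDIM := by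
  classical
  intro h n m k π p e r w0 c hh
  unfold vN v0N
  set VSS := VS h n π p e r w0 c with hVSS
  set l1 : (Fin (m + 1) → ZMod 3) →ₗ[ZMod 3] ZMod 3 := LinearMap.proj 0 with hl1
  set l2 : (Fin (m + 1) → ZMod 3) →ₗ[ZMod 3] ZMod 3 :=
    ∑ i : Fin m, ((e i : ZMod 3) * sym (π i).1 3) • LinearMap.proj i.succ with hl2
  have e1 : ∀ y, l1 y = y 0 := fun y => rfl
  have e2 : ∀ y, l2 y = ∑ i : Fin m, y i.succ * ((e i : ZMod 3) * sym (π i).1 3) := by
    intro y
    rw [hl2, LinearMap.sum_apply]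
    refine Finset.sum_congr rfl fun i _ => ?_
    rw [LinearMap.smul_apply, LinearMap.proj_apply, smul_eq_mul, mul_comm]
  have hmem : ∀ y, y ∈ V0 h n π p e r w0 c ↔ y ∈ VSS ∧ l1 y = 0 ∧ l2 y = 0 := by
    intro y
    rw [e1, e2]
    exact Iff.rfl
  -- the column `inl 0`
  have hcol : ∀ y ∈ VSS, h ≠ 0 → y 0 * (wt ((n : ℤ) ^ 2) + w0) + l2 y = 0 := by
    intro y hy h0
    have h1 := hy.2 (Sum.inl 0) (fun h' => absurd h' h0)
    rw [Matrix.vecMul, dotProduct, Fin.sum_univ_succ] at h1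
    rw [e2]
    exact h1
  have hact : ∀ y ∈ VSS, ¬ actR h n w0 → l1 y = 0 := fun y hy ha => hy.1 ha
  unfold dN
  by_cases h1 : h = 1
  · rw [if_pos h1, add_zero]
    apply Submodule.finrank_mono
    intro y hy
    have ha : ¬ actR h n w0 := by
      rintro (h2 | ⟨h2, -⟩) <;> omega
    have hy0 := hact y hy ha
    have hc := hcol y hy (by omega)
    rw [e1] at hy0
    rw [hy0, zero_mul, zero_add] at hc
    exact (hmem y).mpr ⟨hy, hy0, hc⟩
  rw [if_neg h1]
  by_cases h2 : h = 0 ∧ wt ((n : ℤ) ^ 2) + w0 = 0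
  · rw [if_pos h2]
    have s1 := step VSS l1
    have s2 := step (VSS ⊓ LinearMap.ker l1) l2
    have s3 : Module.finrank (ZMod 3) (VSS ⊓ LinearMap.ker l1 ⊓ LinearMap.ker l2 :
        Submodule (ZMod 3) (Fin (m + 1) → ZMod 3)) ≤
        Module.finrank (ZMod 3) (V0 h n π p e r w0 c) := by
      apply Submodule.finrank_mono
      rintro y ⟨⟨hy, h3⟩, h4⟩
      exact (hmem y).mpr ⟨hy, h3, h4⟩
    omega
  rw [if_neg h2]
  by_cases h3 : h = 0
  · have ha : ¬ actR h n w0 := by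
      rintro (h4 | h4)
      · omega
      · exact h2 h4
    have s1 := step VSS l2
    have s3 : Module.finrank (ZMod 3) (VSS ⊓ LinearMap.ker l2 :
        Submodule (ZMod 3) (Fin (m + 1) → ZMod 3)) ≤
        Module.finrank (ZMod 3) (V0 h n π p e r w0 c) := by
      apply Submodule.finrank_mono
      rintro y ⟨hy, h4⟩
      exact (hmem y).mpr ⟨hy, hact y hy ha, h4⟩
    omega
  · have s1 := step VSS l1
    have s3 : Module.finrank (ZMod 3) (VSS ⊓ LinearMap.ker l1 :
        Submodule (ZMod 3) (Fin (m + 1) → ZMod 3)) ≤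
        Module.finrank (ZMod 3) (V0 h n π p e r w0 c) := by
      apply Submodule.finrank_mono
      rintro y ⟨hy, h4⟩
      have hy0 : y 0 = 0 := h4
      have hc := hcol y hy h3
      rw [hy0, zero_mul, zero_add] at hc
      exact (hmem y).mpr ⟨hy, h4, hc⟩
    omega

end Pool.Agent.PTK

end
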