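import Mathlib
import Pool.Agent.PTWX.C34
import Pool.Agent.PTWX.C40
import Pool.Agent.PTWX.C41
import Pool.Agent.PTWX.C57

/-! Parts: PT3.TENT, PT3.FDCT, PTN.KIX, PTKX.MTL, PTKX.GTK, PTKX.GTU, PTKX.GKK, PTKX.JKU, PTKX.MKU -/

namespace Pool.Agent.PT3.TENT
end Pool.Agent.PT3.TENT

namespace Pool.Agent.PT3.FDCT
end Pool.Agent.PT3.FDCT

namespace Pool.Agent.PTN.KIX
end Pool.Agent.PTN.KIX

namespace Pool.Agent.PTK.GTK
end Pool.Agent.PTK.GTK

namespace Pool.Agent.PTK.GTU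
end Pool.Agent.PTK.GTU

namespace Pool.Agent.PTK.GKK
end Pool.Agent.PTK.GKK

namespace Pool.Agent.PTK.JKU
end Pool.Agent.PTK.JKU

namespace Pool.Agent.PTK.MKU
end Pool.Agent.PTK.MKU

section

/-!
# PT3_TENT: the matrix of the pairing is alternating and the class of a point is in its kernel
-/

open NumberField IsDedekindDomain Finset
open scoped nonZeroDivisors Pointwise

namespace Pool.Agent.PT3

open Pool.Agent.Lib_helper18 Pool.Agent.Lib_helper18.Eis Pool.Agent.Lib_helper84.Cub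
open Pool.Agent.PT Pool.Agent.PTE

namespace TENT

/-! ### Admissible classes -/

theorem ag_mul (hSTM : STM) (hSPP : SPP) {B x y : ℤ} (hB : B ≠ 0) (hx : AG B x)
    (hy : AG B y) : AG B (x * y) where
  ne := mul_ne_zero hx.ne hy.ne
  sym := fun π => by
    have hs := hSTM π.1 π.2.1 (hSPP.2.2.2.1 π).1
    push_cast
    rw [hs.mul _ _ _ (TEND.cast_ne hx.ne) (TEND.cast_ne hy.ne) (TEND.cast_ne hB), hx.sym π,
      hy.sym π, add_zero]
  unr := fun π h1 h2 => by
    push_cast at h2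
    rcases π.2.1.dvd_or_dvd h2 with h | h
    · exact hx.unr π h1 h
    · exact hy.unr π h1 h

theorem ag_one (hSTM : STM) (hSPP : SPP) {B : ℤ} (hB : B ≠ 0) : AG B 1 where
  ne := one_ne_zero
  sym := fun π => by
    have hs := hSTM π.1 π.2.1 (hSPP.2.2.2.1 π).1
    have h1 : (1 : Eis) ≠ 0 := one_ne_zero
    have h := hs.mul 1 1 _ h1 h1 (TEND.cast_ne hB)
    rw [one_mul] at h
    push_cast
    have h2 : tm π.1 1 (B : Eis) + 0 = tm π.1 1 (B : Eis) + tm π.1 1 (B : Eis) := by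
      rw [add_zero]
      exact h
    exact (add_left_cancel h2).symm
  unr := fun π _ h2 => by
    push_cast at h2
    exact π.2.1.not_isUnit (isUnit_of_dvd_one h2)

theorem ag_pow (hSTM : STM) (hSPP : SPP) {B x : ℤ} (hB : B ≠ 0) (hx : AG B x) (n : ℕ) :
    AG B (x ^ n) := by
  induction n with
  | zero =>
    rw [pow_zero]
    exact ag_one hSTM hSPP hB
  | succ n ih =>
    rw [pow_succ]
    exact ag_mul hSTM hSPP hB ih hx

theorem ag_prod (hSTM : STM) (hSPP : SPP) {B : ℤ} (hB : B ≠ 0) {s : ℕ} {b : Fin s → ℤ}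
    (hb : ∀ i, AG B (b i)) (c : Fin s → ℕ) (t : Finset (Fin s)) :
    AG B (∏ i ∈ t, b i ^ c i) := by
  classical
  induction t using Finset.induction_on with
  | empty =>
    rw [Finset.prod_empty]
    exact ag_one hSTM hSPP hB
  | insert i t hi ih =>
    rw [Finset.prod_insert hi]
    exact ag_mul hSTM hSPP hB (ag_pow hSTM hSPP hB (hb i) _) ih

/-! ### The class at `lam` of a product -/

theorem hom_one {f : ℤ → ZMod 3} (hf : ∀ a b : ℤ, a ≠ 0 → b ≠ 0 → f (a * b) = f a + f b) :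
    f 1 = 0 := by
  have h := hf 1 1 one_ne_zero one_ne_zero
  rw [one_mul] at h
  have h2 : f 1 + 0 = f 1 + f 1 := by rw [add_zero]; exact h
  exact (add_left_cancel h2).symm

theorem hom_pow {f : ℤ → ZMod 3} (hf : ∀ a b : ℤ, a ≠ 0 → b ≠ 0 → f (a * b) = f a + f b)
    {a : ℤ} (ha : a ≠ 0) (n : ℕ) : f (a ^ n) = (n : ZMod 3) * f a := by
  induction n with
  | zero => rw [pow_zero, hom_one hf]; simp
  | succ n ih =>
    rw [pow_succ, hf _ _ (pow_ne_zero n ha) ha, ih]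
    push_cast
    ring

theorem hom_prod {f : ℤ → ZMod 3} (hf : ∀ a b : ℤ, a ≠ 0 → b ≠ 0 → f (a * b) = f a + f b)
    {s : ℕ} {b : Fin s → ℤ} (hb : ∀ i, b i ≠ 0) (c : Fin s → ℕ) (t : Finset (Fin s)) :
    f (∏ i ∈ t, b i ^ c i) = ∑ i ∈ t, (c i : ZMod 3) * f (b i) := by
  classical
  induction t using Finset.induction_on with
  | empty =>
    rw [Finset.prod_empty, Finset.sum_empty, hom_one hf]
  | insert i t hi ih =>
    rw [Finset.prod_insert hi, Finset.sum_insert hi, hf _ _ (pow_ne_zero _ (hb i))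
      (Finset.prod_ne_zero_iff.2 fun k _ => pow_ne_zero _ (hb k)), ih, hom_pow hf (hb i)]

/-- the multiplicity of the class of `B` in a product -/
noncomputable def mth {s : ℕ} (τ : Fin s → Fin 3) (c : Fin s → ℕ) : ZMod 3 :=
  ∑ i, if τ i = 1 then (c i : ZMod 3) else 0

theorem cls (hLCL : LCL) {s : ℕ} {τ : Fin s → Fin 3} {b X Y : Fin s → ℤ} {B : ℤ}
    (hL : LamS B τ b X Y) (hb : ∀ i, b i ≠ 0) (c : Fin s → ℕ)
    (hc : ∀ i, τ i = 2 → (c i : ZMod 3) = 0) :
    lv (∏ i, b i ^ c i) = mth τ c * lv B ∧ lw (∏ i, b i ^ c i) = mth τ c * lw B := by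
  have h3 : ∀ i, τ i = 0 ∨ τ i = 1 ∨ τ i = 2 := by
    intro i
    generalize τ i = t
    revert t
    decide
  have key : ∀ f : ℤ → ZMod 3, (∀ a b : ℤ, a ≠ 0 → b ≠ 0 → f (a * b) = f a + f b) →
      (∀ i, τ i = 0 → f (b i) = 0) → (∀ i, τ i = 1 → f (b i) = f B) →
      f (∏ i, b i ^ c i) = mth τ c * f B := by
    intro f hf h0 h1
    rw [hom_prod hf hb c, mth, Finset.sum_mul]
    refine Finset.sum_congr rfl fun i _ => ?_
    rcases h3 i with h | h | h
    · rw [h0 i h, mul_zero, if_neg (by rw [h]; decide), zero_mul]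
    · rw [h1 i h, if_pos h]
    · rw [hc i h, zero_mul, if_neg (by rw [h]; decide), zero_mul]
  constructor
  · refine key lv (fun a b ha hb => (hLCL.2.1 a b ha hb).1) (fun i hi => ?_) fun i hi => ?_
    · exact ((hLCL.1 (b i) (hb i)).1 (hL.t0 i hi)).1
    · exact (hL.t1 i hi).2.1
  · refine key lw (fun a b ha hb => (hLCL.2.1 a b ha hb).2) (fun i hi => ?_) fun i hi => ?_
    · exact ((hLCL.1 (b i) (hb i)).1 (hL.t0 i hi)).2
    · exact (hL.t1 i hi).2.2.1

/-! ### The trivial solution -/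

theorem sol_self {b : ℤ} (hb : b ≠ 0) : Sol b b 0 1 1 0 where
  eq := by ring
  n1 := by simpa using hb
  n2 := by simpa using hb

theorem sv_triv (s : Eis → Eis → ZMod 3) (x p q p' q' : ℤ) : SV s x p q p' q' 1 0 = 0 := by
  unfold SV Df
  simp

theorem ot_self (hTTHT : TTHT) {B b X Y : ℤ} (hB : BG B) (hb : AG B b)
    (h : LC lam b ∨ (lv b = lv B ∧ lw b = lw B ∧ X = 1 ∧ Y = 0)) :
    OT B b X Y b 0 1 1 0 = 0 := by
  unfold OT
  rw [hTTHT B b hB hb (h.imp id fun h => ⟨h.1, h.2.1⟩), zero_add]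
  rcases h with h | ⟨-, -, rfl, rfl⟩
  · rw [if_pos h]
  · rw [sv_triv, ite_self]

/-- the point of the square class -/
theorem pt_sq {B x X Y : ℤ} (hx : x ≠ 0) (h : Pt B x X Y) : Pt B (x ^ 2) (x * Y) X where
  hX := mul_ne_zero hx h.hY
  hY := h.hX
  eq := by
    obtain ⟨c, hc, h1⟩ := h.eq
    refine ⟨x * c, mul_ne_zero hx hc, ?_⟩
    linear_combination x ^ 3 * h1

section Row

variable {s : ℕ} {τ : Fin s → Fin 3} {b X Y : Fin s → ℤ} {p q p' q' : Fin s → Fin s → ℤ} {B : ℤ}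

/-- the solution for one factor -/
theorem one (hTTHT : TTHT) (hSys : SysG b p q p' q') (hB : BG B) (hA : ∀ i, AG B (b i))
    (hL : LamS B τ b X Y) (j i : Fin s) (hj : τ j ≠ 2 ∨ i ≠ j) :
    ∃ P Q P' Q' : ℤ, Sol (b j) (b i) P Q P' Q' ∧
      OT B (b j) (X j) (Y j) (b i) P Q P' Q' = MaT b X Y p q p' q' B j i := by
  by_cases hij : i = j
  · subst hij
    have hj2 : τ i ≠ 2 := hj.resolve_right fun h => h rfl
    refine ⟨0, 1, 1, 0, sol_self (hA i).ne, ?_⟩
    have hM : MaT b X Y p q p' q' B i i = 0 := by simp [MaT]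
    rw [hM]
    refine ot_self hTTHT hB (hA i) ?_
    have h3 : τ i = 0 ∨ τ i = 1 := by
      revert hj2
      generalize τ i = t
      revert t
      decide
    rcases h3 with h | h
    · exact Or.inl (hL.t0 i h)
    · exact Or.inr (hL.t1 i h).2
  · have hji : j ≠ i := fun h => hij h.symm
    refine ⟨_, _, _, _, hSys.sol j i hji, ?_⟩
    unfold MaT
    rw [if_neg hji]

theorem prod_split (b : Fin s → ℤ) (g g' : Fin s → ℕ) (i0 : Fin s)
    (h : ∀ i, g i = g' i + if i = i0 then 1 else 0) :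
    ∏ i, b i ^ g i = (∏ i, b i ^ g' i) * b i0 := by
  have h1 : ∏ i, b i ^ (if i = i0 then 1 else 0) = b i0 := by
    rw [Finset.prod_eq_single i0]
    · simp
    · intro i _ hi
      simp [hi]
    · intro hi
      exact absurd (Finset.mem_univ _) hi
  conv_rhs => rw [← h1]
  rw [← Finset.prod_mul_distrib]
  refine Finset.prod_congr rfl fun i _ => ?_
  rw [← pow_add, h i]

theorem sum_split (m : Fin s → ZMod 3) (g g' : Fin s → ℕ) (i0 : Fin s)
    (h : ∀ i, g i = g' i + if i = i0 then 1 else 0) :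
    ∑ i, m i * (g i : ZMod 3) = (∑ i, m i * (g' i : ZMod 3)) + m i0 := by
  have h1 : ∑ i, (if i = i0 then m i else 0) = m i0 := by
    rw [Finset.sum_ite_eq']
    simp
  conv_rhs => rw [← h1]
  rw [← Finset.sum_add_distrib]
  refine Finset.sum_congr rfl fun i _ => ?_
  rw [h i]
  split_ifs <;> push_cast <;> ring

/-- solutions for reduced exponents -/
theorem red (hTADT : TADT) (hTTHT : TTHT) (hSTM : STM) (hSPP : SPP) (hSys : SysG b p q p' q')
    (hB : BG B) (hA : ∀ i, AG B (b i)) (hL : LamS B τ b X Y) (j : Fin s)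
    (hbj : ¬ ∃ c : ℤ, c ^ 3 = b j)
    (hcond : LC lam (b j) ∨ (X j = 1 ∧ Y j = 0) ∨
      (X j ≠ 0 ∧ Y j ≠ 0 ∧ X j ^ 3 + b j * Y j ^ 3 ≠ 0)) (n : ℕ) :
    ∀ g : Fin s → ℕ, ∑ i, g i = n + 1 → (∀ i, g i ≤ 2) → (τ j ≠ 2 ∨ g j = 0) →
    ∃ P Q P' Q' : ℤ, Sol (b j) (∏ i, b i ^ g i) P Q P' Q' ∧
      OT B (b j) (X j) (Y j) (∏ i, b i ^ g i) P Q P' Q' =
        ∑ i, MaT b X Y p q p' q' B j i * (g i : ZMod 3) := by
  induction n with
  | zero =>
    intro g hg hg2 hgj
    obtain ⟨i0, hi0⟩ : ∃ i, g i ≠ 0 := by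
      by_contra hcon
      push Not at hcon
      rw [Finset.sum_eq_zero fun i _ => hcon i] at hg
      omega
    have hsp : ∀ i, g i = (g i - if i = i0 then 1 else 0) + if i = i0 then 1 else 0 := by
      intro i
      split_ifs with h
      · rw [h]; omega
      · omega
    have hsum : ∑ i, g i = (∑ i, (g i - if i = i0 then 1 else 0)) + 1 := by
      have h1 : ∑ i : Fin s, (if i = i0 then 1 else 0) = 1 := by
        rw [Finset.sum_ite_eq']
        simp
      calc ∑ i, g i = ∑ i, ((g i - if i = i0 then 1 else 0) + if i = i0 then 1 else 0) :=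
            Finset.sum_congr rfl fun i _ => hsp i
        _ = (∑ i, (g i - if i = i0 then 1 else 0)) + ∑ i : Fin s, (if i = i0 then 1 else 0) :=
            Finset.sum_add_distrib
        _ = _ := by rw [h1]
    have h0 : ∀ i, (g i - if i = i0 then 1 else 0) = 0 := by
      have h2 : ∑ i, (g i - if i = i0 then 1 else 0) = 0 := by omega
      intro i
      exact (Finset.sum_eq_zero_iff.1 h2) i (Finset.mem_univ i)
    obtain ⟨P, Q, P', Q', h1, h2⟩ := one hTTHT hSys hB hA hL j i0 (by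
      rcases hgj with h | h
      · exact Or.inl h
      · right
        rintro rfl
        exact hi0 h)
    refine ⟨P, Q, P', Q', ?_, ?_⟩
    · rw [prod_split b g _ i0 hsp]
      have h3 : ∏ i, b i ^ (g i - if i = i0 then 1 else 0) = 1 :=
        Finset.prod_eq_one fun i _ => by rw [h0 i, pow_zero]
      rw [h3, one_mul]
      exact h1
    · rw [prod_split b g _ i0 hsp, sum_split _ g _ i0 hsp]
      have h3 : ∏ i, b i ^ (g i - if i = i0 then 1 else 0) = 1 :=
        Finset.prod_eq_one fun i _ => by rw [h0 i, pow_zero]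
      have h4 : ∑ i, MaT b X Y p q p' q' B j i *
          (((g i - if i = i0 then 1 else 0 : ℕ)) : ZMod 3) = 0 :=
        Finset.sum_eq_zero fun i _ => by rw [h0 i, Nat.cast_zero, mul_zero]
      rw [h3, one_mul, h4, zero_add]
      exact h2
  | succ n ih =>
    intro g hg hg2 hgj
    obtain ⟨i0, hi0⟩ : ∃ i, g i ≠ 0 := by
      by_contra hcon
      push Not at hcon
      rw [Finset.sum_eq_zero fun i _ => hcon i] at hg
      omega
    have hsp : ∀ i, g i = (g i - if i = i0 then 1 else 0) + if i = i0 then 1 else 0 := by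
      intro i
      split_ifs with h
      · rw [h]; omega
      · omega
    have hsum : ∑ i, g i = (∑ i, (g i - if i = i0 then 1 else 0)) + 1 := by
      have h1 : ∑ i : Fin s, (if i = i0 then 1 else 0) = 1 := by
        rw [Finset.sum_ite_eq']
        simp
      calc ∑ i, g i = ∑ i, ((g i - if i = i0 then 1 else 0) + if i = i0 then 1 else 0) :=
            Finset.sum_congr rfl fun i _ => hsp i
        _ = (∑ i, (g i - if i = i0 then 1 else 0)) + ∑ i : Fin s, (if i = i0 then 1 else 0) :=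
            Finset.sum_add_distrib
        _ = _ := by rw [h1]
    obtain ⟨P, Q, P', Q', h1, h2⟩ := one hTTHT hSys hB hA hL j i0 (by
      rcases hgj with h | h
      · exact Or.inl h
      · right
        rintro rfl
        exact hi0 h)
    obtain ⟨P₁, Q₁, P₁', Q₁', h3, h4⟩ := ih (fun i => g i - if i = i0 then 1 else 0)
      (by
        show ∑ i, (g i - if i = i0 then 1 else 0) = n + 1
        omega)
      (fun i => (Nat.sub_le _ _).trans (hg2 i))
      (by
        rcases hgj with h | h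
        · exact Or.inl h
        · right
          show g j - (if j = i0 then 1 else 0) = 0
          omega)
    have hnc : ¬ ∃ c : ℤ, c ^ 3 =
        (∏ i, b i ^ (g i - if i = i0 then 1 else 0)) * b i0 := by
      rw [← prod_split b g _ i0 hsp]
      refine hSys.ind g ⟨i0, ?_⟩
      intro h
      have := hg2 i0
      omega
    obtain ⟨P₂, Q₂, P₂', Q₂', h5, h6⟩ := hTADT.1 (b j)
      (∏ i, b i ^ (g i - if i = i0 then 1 else 0)) (b i0) P₁ Q₁ P₁' Q₁' P Q P' Q' hbj hnc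
      (hA j).ne (ag_prod hSTM hSPP hB.ne hA _ Finset.univ).ne (hA i0).ne h3 h1
    refine ⟨P₂, Q₂, P₂', Q₂', ?_, ?_⟩
    · rw [prod_split b g _ i0 hsp]
      exact h5
    · rw [prod_split b g _ i0 hsp, sum_split _ g _ i0 hsp, h6 B (X j) (Y j) hB (hA j)
        (ag_prod hSTM hSPP hB.ne hA _ Finset.univ) (hA i0) hcond, h4, h2]

/-- the solution for a product -/
theorem key (hTADT : TADT) (hTTHT : TTHT) (hSTM : STM) (hSPP : SPP) (hSys : SysG b p q p' q')
    (hB : BG B) (hA : ∀ i, AG B (b i)) (hL : LamS B τ b X Y) (j : Fin s)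
    (hbj : ¬ ∃ c : ℤ, c ^ 3 = b j)
    (hcond : LC lam (b j) ∨ (X j = 1 ∧ Y j = 0) ∨
      (X j ≠ 0 ∧ Y j ≠ 0 ∧ X j ^ 3 + b j * Y j ^ 3 ≠ 0)) (c : Fin s → ℕ)
    (hc : ∃ i, ¬ 3 ∣ c i) (hj : τ j ≠ 2 ∨ 3 ∣ c j) :
    ∃ P Q P' Q' : ℤ, Sol (b j) (∏ i, b i ^ c i) P Q P' Q' ∧
      OT B (b j) (X j) (Y j) (∏ i, b i ^ c i) P Q P' Q' =
        ∑ i, MaT b X Y p q p' q' B j i * (c i : ZMod 3) := by
  obtain ⟨i1, hi1⟩ := hc
  have hpos : 0 < ∑ i, c i % 3 := by
    have h1 : c i1 % 3 ≤ ∑ i, c i % 3 :=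
      Finset.single_le_sum (f := fun i => c i % 3) (fun i _ => Nat.zero_le _)
        (Finset.mem_univ i1)
    omega
  obtain ⟨P, Q, P', Q', h1, h2⟩ := red hTADT hTTHT hSTM hSPP hSys hB hA hL j hbj hcond
    ((∑ i, c i % 3) - 1) (fun i => c i % 3) (by
      show ∑ i, c i % 3 = _
      omega) (fun i => by
      show c i % 3 ≤ 2
      omega) (by
      rcases hj with h | h
      · exact Or.inl h
      · right
        show c j % 3 = 0
        omega)
  have hprod : ∏ i, b i ^ c i = (∏ i, b i ^ (c i / 3)) ^ 3 * ∏ i, b i ^ (c i % 3) := by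
    rw [← Finset.prod_pow, ← Finset.prod_mul_distrib]
    refine Finset.prod_congr rfl fun i _ => ?_
    rw [← pow_mul, ← pow_add]
    congr 1
    omega
  have hu := ag_prod hSTM hSPP hB.ne hA (fun i => c i / 3) Finset.univ
  have hx := ag_prod hSTM hSPP hB.ne hA (fun i => c i % 3) Finset.univ
  obtain ⟨h3, h4⟩ := hTADT.2 (b j) (∏ i, b i ^ (c i % 3)) P Q P' Q' (∏ i, b i ^ (c i / 3))
    (hA j).ne hx.ne hu.ne h1
  refine ⟨(∏ i, b i ^ (c i / 3)) * P, (∏ i, b i ^ (c i / 3)) * Q, P', Q', ?_, ?_⟩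
  · rw [hprod]
    exact h3
  · rw [hprod, h4 B (X j) (Y j) hB (hA j) hx hu hcond, h2]
    refine Finset.sum_congr rfl fun i _ => ?_
    rw [ZMod.natCast_mod]

end Row

end TENT

set_option linter.unusedVariables false in
open _root_.Pool.Agent.PT3.TENT in
theorem TENT_thm (hTPT : TPT) (hTALT : TALT) (hTADT : TADT) (hTTHT : TTHT) (hSTM : STM)
    (hSPP : SPP) (hSSL : SSL) (hSLC : SLC) (hSCJ : SCJ) (hLCI : LCI) (hAVV : AVV)
    (hLCL : LCL) : TENT := by
  classical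
  intro s τ b X Y p q p' q' B hSys hSw hB hA hL hb0
  have h3 : ∀ i, τ i = 0 ∨ τ i = 1 ∨ τ i = 2 := by
    intro i
    generalize τ i = t
    revert t
    decide
  -- antisymmetry
  have hord : ∀ j i, j ≠ i → (τ j = 0 ∨ (τ j = 1 ∧ τ i = 2)) →
      MaT b X Y p q p' q' B j i + MaT b X Y p q p' q' B i j = 0 := by
    intro j i hji h
    obtain ⟨e1, e2, e3, e4⟩ := hSw j i hji
    have hij : i ≠ j := fun h => hji h.symm
    unfold MaT
    rw [if_neg hji, if_neg hij, e1, e2, e3, e4]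
    refine hTALT B (b j) (b i) (p j i) (q j i) (p' j i) (q' j i) (X j) (Y j) (X i) (Y i) hB
      (hA j) (hA i) (hSys.sol j i hji) ?_
    rcases h with h | ⟨h, h'⟩
    · left
      refine ⟨hL.t0 j h, ?_⟩
      rcases h3 i with h' | h' | h'
      · exact Or.inl (hL.t0 i h')
      · exact Or.inr (Or.inl (hL.t1 i h').2)
      · exact Or.inr (Or.inr (hL.t2 i h').2.2)
    · right
      obtain ⟨-, k1, k2, k3, k4⟩ := hL.t1 j h
      obtain ⟨m1, m2, m3⟩ := hL.t2 i h'
      exact ⟨m2, k1, k2, k3, k4, m1, m3⟩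
  have hanti : ∀ i j, MaT b X Y p q p' q' B i j = - MaT b X Y p q p' q' B j i := by
    intro i j
    by_cases hij : i = j
    · subst hij
      simp [MaT]
    · have hji : j ≠ i := fun h => hij h.symm
      have h : (τ j = 0 ∨ (τ j = 1 ∧ τ i = 2)) ∨ (τ i = 0 ∨ (τ i = 1 ∧ τ j = 2)) := by
        rcases h3 i with h | h | h
        · exact Or.inr (Or.inl h)
        · rcases h3 j with h' | h' | h'
          · exact Or.inl (Or.inl h')
          · exact absurd (hL.inj i j (h.trans h'.symm) (by rw [h]; decide)) hij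
          · exact Or.inr (Or.inr ⟨h, h'⟩)
        · rcases h3 j with h' | h' | h'
          · exact Or.inl (Or.inl h')
          · exact Or.inl (Or.inr ⟨h', h⟩)
          · exact absurd (hL.inj i j (h.trans h'.symm) (by rw [h]; decide)) hij
      rcases h with h | h
      · exact eq_neg_of_add_eq_zero_right (hord j i hji h)
      · exact eq_neg_of_add_eq_zero_left (hord i j hij h)
  refine ⟨hanti, fun c X₀ Y₀ hc hPt => ?_⟩
  have hbc : ∀ j, ¬ ∃ t : ℤ, t ^ 3 = b j := by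
    intro j
    have h1 := hSys.ind (fun i => if i = j then 1 else 0) ⟨j, by simp⟩
    have h2 : ∏ i, b i ^ (if i = j then 1 else 0) = b j := by
      rw [Finset.prod_eq_single j]
      · simp
      · intro i _ hij
        simp [hij]
      · intro h
        exact absurd (Finset.mem_univ _) h
    rw [h2] at h1
    exact h1
  have hcond : ∀ j, LC lam (b j) ∨ (X j = 1 ∧ Y j = 0) ∨
      (X j ≠ 0 ∧ Y j ≠ 0 ∧ X j ^ 3 + b j * Y j ^ 3 ≠ 0) := by
    intro j
    rcases h3 j with h | h | h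
    · exact Or.inl (hL.t0 j h)
    · exact Or.inr (Or.inl (hL.t1 j h).2.2.2)
    · have := (hL.t2 j h).2.2
      exact Or.inr (Or.inr ⟨this.hX, this.hY, this.n0⟩)
  -- rows to which `TPT` applies
  have good : ∀ (c : Fin s → ℕ) (X₀ Y₀ : ℤ), (∃ i, ¬ 3 ∣ c i) → Pt B (∏ i, b i ^ c i) X₀ Y₀ →
      ∀ j, (τ j ≠ 2 ∨ 3 ∣ c j) → (LC lam (b j) ∨
      (lv (b j) = lv B ∧ lw (b j) = lw B ∧ X j = 1 ∧ Y j = 0 ∧
        (LC lam (∏ i, b i ^ c i) ∨ lv B = 1)) ∨
      (lv B = 1 ∧ ¬ LC lam (b j) ∧ PtL B (b j) (X j) (Y j) ∧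
        (LC lam (∏ i, b i ^ c i) ∨
          (lv (∏ i, b i ^ c i) = lv B ∧ lw (∏ i, b i ^ c i) = lw B)))) →
      ∑ i, MaT b X Y p q p' q' B j i * (c i : ZMod 3) = 0 := by
    intro c X₀ Y₀ hc hPt j hj h
    obtain ⟨P, Q, P', Q', k1, k2⟩ := key hTADT hTTHT hSTM hSPP hSys hB hA hL j (hbc j)
      (hcond j) c hc hj
    rw [← k2]
    exact hTPT B (b j) (∏ i, b i ^ c i) P Q P' Q' (X j) (Y j) X₀ Y₀ hB (hA j)
      (ag_prod hSTM hSPP hB.ne hA c Finset.univ) k1 hPt h
  have hx0 : ∀ c : Fin s → ℕ, ∏ i, b i ^ c i ≠ 0 := fun c =>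
    Finset.prod_ne_zero_iff.2 fun i _ => pow_ne_zero _ (hb0 i)
  have hlc : ∀ c : Fin s → ℕ, (∀ i, τ i = 2 → (c i : ZMod 3) = 0) → mth τ c = 0 →
      LC lam (∏ i, b i ^ c i) := by
    intro c h1 h2
    obtain ⟨k1, k2⟩ := cls hLCL hL hb0 c h1
    rw [hLCL.1 _ (hx0 c), k1, k2, h2, zero_mul, zero_mul]
    exact ⟨rfl, rfl⟩
  -- rows of type 2, exponent divisible by 3
  have good2 : ∀ j, τ j = 2 → 3 ∣ c j →
      ∑ i, MaT b X Y p q p' q' B j i * (c i : ZMod 3) = 0 := by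
    intro j hj h3c
    obtain ⟨m1, m2, m3⟩ := hL.t2 j hj
    have hz : ∀ i, τ i = 2 → (c i : ZMod 3) = 0 := by
      intro i hi
      have : i = j := hL.inj i j (hi.trans hj.symm) (by rw [hi]; decide)
      rw [this, ZMod.natCast_eq_zero_iff]
      exact h3c
    have ht : mth τ c = 0 ∨ mth τ c = 1 ∨ mth τ c = 2 := by
      generalize mth τ c = t
      revert t
      decide
    rcases ht with ht | ht | ht
    · exact good c X₀ Y₀ hc hPt j (Or.inr h3c)
        (Or.inr (Or.inr ⟨m2, m1, m3, Or.inl (hlc c hz ht)⟩))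
    · obtain ⟨k1, k2⟩ := cls hLCL hL hb0 c hz
      rw [ht, one_mul] at k1 k2
      exact good c X₀ Y₀ hc hPt j (Or.inr h3c)
        (Or.inr (Or.inr ⟨m2, m1, m3, Or.inr ⟨k1, k2⟩⟩))
    · have hz2 : ∀ i, τ i = 2 → ((2 * c i : ℕ) : ZMod 3) = 0 := by
        intro i hi
        rw [Nat.cast_mul, hz i hi, mul_zero]
      have ht2 : mth τ (fun i => 2 * c i) = 1 := by
        have h1 : mth τ (fun i => 2 * c i) = 2 * mth τ c := by
          unfold mth
          rw [Finset.mul_sum]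
          refine Finset.sum_congr rfl fun i _ => ?_
          split_ifs
          · push_cast; ring
          · ring
        rw [h1, ht]
        rfl
      have hsq : ∏ i, b i ^ (2 * c i) = (∏ i, b i ^ c i) ^ 2 := by
        rw [← Finset.prod_pow]
        refine Finset.prod_congr rfl fun i _ => ?_
        rw [← pow_mul, mul_comm]
      have hP2 : Pt B (∏ i, b i ^ (2 * c i)) ((∏ i, b i ^ c i) * Y₀) X₀ := by
        rw [hsq]
        exact pt_sq (hx0 c) hPt
      obtain ⟨k1, k2⟩ := cls hLCL hL hb0 (fun i => 2 * c i) hz2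
      rw [ht2, one_mul] at k1 k2
      have hg := good (fun i => 2 * c i) _ _ (by
          obtain ⟨i, hi⟩ := hc
          refine ⟨i, ?_⟩
          show ¬ 3 ∣ 2 * c i
          omega) hP2 j (Or.inr (by
          show 3 ∣ 2 * c j
          exact Dvd.dvd.mul_left h3c 2)) (Or.inr (Or.inr ⟨m2, m1, m3, Or.inr ⟨k1, k2⟩⟩))
      have h1 : ∑ i, MaT b X Y p q p' q' B j i * ((2 * c i : ℕ) : ZMod 3) =
          2 * ∑ i, MaT b X Y p q p' q' B j i * (c i : ZMod 3) := by
        rw [Finset.mul_sum]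
        refine Finset.sum_congr rfl fun i _ => ?_
        push_cast
        ring
      rw [h1] at hg
      generalize ∑ i, MaT b X Y p q p' q' B j i * (c i : ZMod 3) = z at hg ⊢
      revert hg
      revert z
      decide
  -- the remaining row
  have skew : ∀ j, ¬ 3 ∣ c j →
      (∀ i, i ≠ j → ∑ k, MaT b X Y p q p' q' B i k * (c k : ZMod 3) = 0) →
      ∑ i, MaT b X Y p q p' q' B j i * (c i : ZMod 3) = 0 := by
    intro j hcj hrow
    set M := MaT b X Y p q p' q' B with hM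
    have h1 : ∑ i, (c i : ZMod 3) * ∑ k, M i k * (c k : ZMod 3) =
        (c j : ZMod 3) * ∑ k, M j k * (c k : ZMod 3) := by
      rw [Finset.sum_eq_single j]
      · intro i _ hi
        rw [hrow i hi, mul_zero]
      · intro h
        exact absurd (Finset.mem_univ _) h
    have h2 : ∑ i, (c i : ZMod 3) * ∑ k, M i k * (c k : ZMod 3) =
        - ∑ i, (c i : ZMod 3) * ∑ k, M i k * (c k : ZMod 3) := by
      conv_lhs =>
        simp only [Finset.mul_sum]
        rw [Finset.sum_comm]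
      rw [← Finset.sum_neg_distrib]
      apply Finset.sum_congr rfl
      intro i _
      rw [Finset.mul_sum, ← Finset.sum_neg_distrib]
      apply Finset.sum_congr rfl
      intro k _
      rw [hanti k i]
      ring
    have h3 : ∑ i, (c i : ZMod 3) * ∑ k, M i k * (c k : ZMod 3) = 0 := by
      generalize ∑ i, (c i : ZMod 3) * ∑ k, M i k * (c k : ZMod 3) = z at h2
      revert h2
      revert z
      decide
    rw [h1] at h3
    have : Fact (Nat.Prime 3) := ⟨Nat.prime_three⟩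
    rcases mul_eq_zero.1 h3 with h | h
    · exact absurd ((ZMod.natCast_eq_zero_iff _ _).1 h) hcj
    · exact h
  have type0 : ∀ j, τ j = 0 → ∑ i, MaT b X Y p q p' q' B j i * (c i : ZMod 3) = 0 :=
    fun j hj => good c X₀ Y₀ hc hPt j (Or.inl (by rw [hj]; decide)) (Or.inl (hL.t0 j hj))
  have type1 : ∀ j, τ j = 1 → (LC lam (∏ i, b i ^ c i) ∨ lv B = 1) →
      ∑ i, MaT b X Y p q p' q' B j i * (c i : ZMod 3) = 0 := by
    intro j hj h
    obtain ⟨-, k1, k2, k3, k4⟩ := hL.t1 j hj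
    exact good c X₀ Y₀ hc hPt j (Or.inl (by rw [hj]; decide))
      (Or.inr (Or.inl ⟨k1, k2, k3, k4, h⟩))
  intro j
  rcases h3 j with hj | hj | hj
  · exact type0 j hj
  · by_cases h : LC lam (∏ i, b i ^ c i) ∨ lv B = 1
    · exact type1 j hj h
    · push Not at h
      have hno : ∀ i, τ i ≠ 2 := fun i hi => h.2 (hL.t2 i hi).2.1
      refine skew j ?_ fun i hi => ?_
      · intro h3c
        apply h.1
        refine hlc c (fun i hi => absurd hi (hno i)) ?_
        unfold mth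
        refine Finset.sum_eq_zero fun i _ => ?_
        split_ifs with hi
        · have : i = j := hL.inj i j (hi.trans hj.symm) (by rw [hi]; decide)
          rw [this, ZMod.natCast_eq_zero_iff]
          exact h3c
        · rfl
      · rcases h3 i with h' | h' | h'
        · exact type0 i h'
        · exact absurd (hL.inj i j (h'.trans hj.symm) (by rw [h']; decide)) hi
        · exact absurd h' (hno i)
  · by_cases h3c : 3 ∣ c j
    · exact good2 j hj h3c
    · refine skew j h3c fun i hi => ?_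
      rcases h3 i with h' | h' | h'
      · exact type0 i h'
      · exact type1 i h' (Or.inr (hL.t2 j hj).2.1)
      · exact absurd (hL.inj i j (h'.trans hj.symm) (by rw [h']; decide)) hi

end Pool.Agent.PT3

end

section

/-!
# Splitting into cells, `3 ∣ B`
-/

namespace Pool.Agent.PT3

open Pool.Agent.Lib_helper18 Pool.Agent.Lib_helper18.Eis Pool.Agent.Lib_helper84.Cub
open Pool.Agent.PT Pool.Agent.PTE

namespace FDCT

open Pool.Agent.PT.FDC

/-- the condition on `B` means that `B` is cube-free -/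
theorem cf_of_BT {B : ℤ} (hB : BT B) : CF B := by
  intro p hp h
  by_cases h3 : (3 : ℤ) ∣ p
  · apply hB.t2
    have e : (27 : ℤ) = 3 ^ 3 := by norm_num
    rw [e]
    exact (pow_dvd_pow_of_dvd h3 3).trans h
  have hp0 : p ≠ 0 := hp.ne_zero
  have hnu : ¬ IsUnit ((p : ℤ) : Eis) := by
    rw [isUnit_iff_norm]
    intro h1
    have h2 : ((p : ℤ) : Eis).norm = p ^ 2 := by
      rw [Eis.norm]; simp
    rw [h2] at h1
    have : p = 1 ∨ p = -1 := by
      have h3 : (p - 1) * (p + 1) = 0 := by linear_combination h1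
      rcases mul_eq_zero.mp h3 with h | h
      · left; linarith
      · right; linarith
    exact hp.not_isUnit (Int.isUnit_iff.mpr this)
  have hpe : ((p : ℤ) : Eis) ≠ 0 := by
    intro h1
    have := congrArg Eis.re h1
    simp at this
    exact hp0 this
  obtain ⟨l, hlirr, hlt⟩ := WfDvdMonoid.exists_irreducible_factor hnu hpe
  have hl : Prime l := hlirr.prime
  have hl3 : ¬ l ∣ 3 := by
    intro h1
    obtain ⟨u, v, huv⟩ := (Int.prime_three.coprime_iff_not_dvd).mpr h3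
    have h2 : ((u : ℤ) : Eis) * 3 + ((v : ℤ) : Eis) * ((p : ℤ) : Eis) = 1 := by
      have h4 : ((u * 3 + v * p : ℤ) : Eis) = ((1 : ℤ) : Eis) := by rw [huv]
      push_cast at h4
      exact h4
    apply hl.not_isUnit
    rw [isUnit_iff_dvd_one, ← h2]
    exact dvd_add (Dvd.dvd.mul_left h1 _) (Dvd.dvd.mul_left hlt _)
  obtain ⟨i, hi⟩ := exists_prim (not_lam_dvd_of_prime hl hl3)
  have hass : Associated (l * w ^ i) l := ⟨(isUnit_w.pow i).unit⁻¹, by
    rw [mul_assoc]; simp⟩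
  have hBe : ((B : ℤ) : Eis) ≠ 0 := by
    intro h1
    have := congrArg Eis.re h1
    simp at this
    exact hB.ne this
  have key : ∀ π : Eis, Associated π l → π.re % 3 = 2 → (3 : ℤ) ∣ π.im → False := by
    intro π hπ h1 h2
    have hπp : Prime π := hπ.symm.prime hl
    have h3 := hB.cf ⟨π, hπp, h1, h2⟩
    simp only at h3
    have h4 : π ^ 3 ∣ ((B : ℤ) : Eis) := by
      have h5 : π ∣ ((p : ℤ) : Eis) := hπ.dvd.trans hlt
      refine (pow_dvd_pow_of_dvd h5 3).trans ?_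
      obtain ⟨c, rfl⟩ := h
      exact ⟨c, by push_cast; ring⟩
    have h6 : 3 ≤ V π ((B : ℤ) : Eis) := (fin hπp hBe).le_multiplicity_of_pow_dvd h4
    omega
  obtain ⟨hi1, hi2⟩ := hi
  have h5 : (l * w ^ i).re % 3 = 1 ∨ (l * w ^ i).re % 3 = 2 := by omega
  rcases h5 with h5 | h5
  · refine key (-(l * w ^ i)) (hass.neg_left) ?_ ?_
    · rw [neg_re]; omega
    · rw [neg_im]; omega
  · exact key _ hass h5 hi1

end FDCT

open _root_.Pool.Agent.PT3.FDCT Pool.Agent.PT.FDC in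
theorem FDCT_thm : FDCT := by
  intro B m A hB hA hsum hprod hcop
  choose a x hax hcf using fun k => exists_cf (A k) (hA k)
  have hx0 : ∀ k, x k ≠ 0 := by
    intro k h
    apply hA k
    rw [hax k, h]; ring
  have hm0 : m ≠ 0 := by
    rintro rfl
    have : A 0 * A 1 * A 2 = 0 := by rw [hprod]; ring
    exact mul_ne_zero (mul_ne_zero (hA 0) (hA 1)) (hA 2) this
  have hca : ∀ i j, i ≠ j → IsCoprime (a i) (a j) := by
    intro i j hij
    have h := hcop i j hij
    rw [hax i, hax j] at h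
    exact h.of_mul_left_left.of_mul_right_left
  have hcx : ∀ i j, i ≠ j → IsCoprime (x i) (x j) := by
    intro i j hij
    have h := hcop i j hij
    rw [hax i, hax j] at h
    exact (h.of_mul_left_right.of_mul_right_right.of_isCoprime_of_dvd_left
      (dvd_pow_self _ (by norm_num))).of_isCoprime_of_dvd_right (dvd_pow_self _ (by norm_num))
  have hP : CF (a 0 * a 1 * a 2) := CF.mul (CF.mul (hcf 0) (hcf 1) (hca 0 1 (by decide))) (hcf 2)
    (IsCoprime.mul_left (hca 0 2 (by decide)) (hca 1 2 (by decide)))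
  have hu := cf_unique (cf_of_BT hB) hP hm0
    (mul_ne_zero (mul_ne_zero (hx0 0) (hx0 1)) (hx0 2)) (by
      rw [← hprod, hax 0, hax 1, hax 2]; ring)
  rcases hu with hu | hu
  · have hprod' : ∏ k, a k = B := by rw [Fin.prod_univ_three, hu]
    exact ⟨a, x, hax, hprod', hca, hcx⟩
  · have hprod' : ∏ k, (-a k) = B := by rw [Fin.prod_univ_three]; linear_combination -hu
    have hax' : ∀ k, A k = (-a k) * (-x k) ^ 3 := by intro k; rw [hax k]; ring
    have hcx' : ∀ i j, i ≠ j → IsCoprime (-x i) (-x j) := fun i j h =>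
      (hcx i j h).neg_left.neg_right
    exact ⟨fun k => -a k, fun k => -x k, hax', hprod',
      fun i j h => (hca i j h).neg_left.neg_right, hcx'⟩

end Pool.Agent.PT3

end

section

/-!
# PTN_KIX: the index of `3 G` (pure group theory)
-/

set_option autoImplicit false

namespace Pool.Agent.PTN

namespace KIX

variable {G H : Type} [AddCommGroup G] [AddCommGroup H]

lemma om3 (om : H →+ H) (h1 : ∀ Q, Q + om Q + om (om Q) = 0) (Q : H) :
    om (om (om Q)) = Q := by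
  have a := h1 Q
  have b := h1 (om Q)
  have c : om (om (om Q)) - Q = 0 := by
    have : om (om (om Q)) - Q =
      (om Q + om (om Q) + om (om (om Q))) - (Q + om Q + om (om Q)) := by abel
    rw [this, a, b, sub_zero]
  exact sub_eq_zero.mp c

lemma theta2 (om : H →+ H) (h1 : ∀ Q, Q + om Q + om (om Q) = 0) (Q : H) :
    om (om Q - om (om Q)) - om (om (om Q - om (om Q))) = -(3 • Q) := by
  have c := om3 om h1
  have a := h1 Q
  simp only [map_sub]
  rw [c Q]
  have : om (om Q) - Q - (Q - om Q) = (Q + om Q + om (om Q)) - 3 • Q := by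
    rw [show (3 : ℕ) = 2 + 1 from rfl, add_nsmul, two_nsmul, one_nsmul]; abel
  rw [this, a, zero_sub]

lemma ccom2 (om cc : H →+ H) (h1 : ∀ Q, Q + om Q + om (om Q) = 0)
    (h2 : ∀ Q, cc (om Q) = om (om (cc Q))) (Q : H) : cc (om (om Q)) = om (cc Q) := by
  rw [h2, h2, om3 om h1]

lemma cctheta (om cc : H →+ H) (h1 : ∀ Q, Q + om Q + om (om Q) = 0)
    (h2 : ∀ Q, cc (om Q) = om (om (cc Q))) (R : H) :
    cc (om R - om (om R)) = -(om (cc R) - om (om (cc R))) := by
  rw [map_sub, ccom2 om cc h1 h2, h2]; abel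

lemma threeT (om : H →+ H) (T : H) (h1 : ∀ Q, Q + om Q + om (om Q) = 0) (h5 : om T = T) :
    3 • T = 0 := by
  have := h1 T
  rw [h5, h5] at this
  rw [show (3 : ℕ) = 2 + 1 from rfl, add_nsmul, two_nsmul, one_nsmul]
  exact this

lemma threeiT (om : H →+ H) (T : H) (h1 : ∀ Q, Q + om Q + om (om Q) = 0) (h5 : om T = T)
    (i : ℕ) : i • T + i • T + i • T = 0 := by
  have h := threeT om T h1 h5
  have : i • T + i • T + i • T = i • (3 • T) := by
    rw [show (3 : ℕ) = 2 + 1 from rfl, add_nsmul, two_nsmul, one_nsmul, nsmul_add, nsmul_add]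
  rw [this, h, nsmul_zero]

lemma thetaT (om : H →+ H) (T : H) (h5 : om T = T) (i : ℕ) :
    om (i • T) = i • T := by
  rw [map_nsmul, h5]

lemma partD (om cc : H →+ H) (T : H) (h1 : ∀ Q, Q + om Q + om (om Q) = 0)
    (h2 : ∀ Q, cc (om Q) = om (om (cc Q))) (h5 : om T = T) (h6 : cc T = -T)
    (h7 : ∀ R, om R = om (om R) → ∃ i : ℕ, R = i • T) (R : H)
    (h : cc (om R - om (om R)) = -(om R - om (om R))) :
    ∃ R', cc R' = R' ∧ om R' - om (om R') = om R - om (om R) := by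
  rw [cctheta om cc h1 h2] at h
  have h' : om (cc R) - om (om (cc R)) = om R - om (om R) := neg_injective h
  have h'' : om (cc R - R) = om (om (cc R - R)) := by
    simp only [map_sub]
    have : om (cc R) - om R - (om (om (cc R)) - om (om R)) = 0 := by
      have e : om (cc R) - om R - (om (om (cc R)) - om (om R)) =
        (om (cc R) - om (om (cc R))) - (om R - om (om R)) := by abel
      rw [e, h', sub_self]
    exact sub_eq_zero.mp this
  obtain ⟨i, hi⟩ := h7 _ h''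
  have hc : cc R = R + i • T := by rw [← hi]; abel
  refine ⟨R - i • T, ?_, ?_⟩
  · rw [map_sub, map_nsmul, h6, hc, smul_neg]
    have h3 := threeiT om T h1 h5 i
    have e : R + i • T - -(i • T) = (R - i • T) + (i • T + i • T + i • T) := by abel
    rw [e, h3, add_zero]
  · simp only [map_sub, thetaT om T h5 i]
    abel

lemma partE (om cc : H →+ H) (T : H) (h1 : ∀ Q, Q + om Q + om (om Q) = 0)
    (h2 : ∀ Q, cc (om Q) = om (om (cc Q))) (h3 : ∀ Q, cc (cc Q) = Q)
    (h5 : om T = T) (h6 : cc T = -T)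
    (h7 : ∀ R, om R = om (om R) → ∃ i : ℕ, R = i • T) (R : H)
    (h : cc (om R - om (om R)) = om R - om (om R)) : cc R = -R := by
  rw [cctheta om cc h1 h2] at h
  have h'' : om (cc R + R) = om (om (cc R + R)) := by
    simp only [map_add]
    have : om (cc R) + om R - (om (om (cc R)) + om (om R)) = 0 := by
      have e : om (cc R) + om R - (om (om (cc R)) + om (om R)) =
        (om (cc R) - om (om (cc R))) + (om R - om (om R)) := by abel
      rw [e, ← h, add_neg_cancel]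
    exact sub_eq_zero.mp this
  obtain ⟨i, hi⟩ := h7 _ h''
  have hc : cc (cc R + R) = cc (i • T) := by rw [hi]
  rw [map_add, h3, map_nsmul, h6, smul_neg, add_comm, hi] at hc
  have h3 := threeiT om T h1 h5 i
  have hz : i • T = 0 := by
    have : i • T + i • T = 0 := by nth_rw 1 [hc]; abel
    rw [this, zero_add] at h3
    exact h3
  rw [hz] at hi
  exact eq_neg_of_add_eq_zero_left hi

end KIX

open _root_.Pool.Agent.PTN.KIX in
theorem KIX_thm : Stmt_KIX := by
  intro G H _ _ j om cc T N W₁ W₂ _ _ Ψ₁ Ψ₂ hj h1 h2 h3 h4 h5 h6 h7 h8 h9 h10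
  classical
  -- representatives
  let f1 : W₁ → G := fun α => if h : ∃ P, Ψ₁ P = α then h.choose else 0
  have hf1 : ∀ P, Ψ₁ (f1 (Ψ₁ P)) = Ψ₁ P := by
    intro P
    have hex : ∃ P', Ψ₁ P' = Ψ₁ P := ⟨P, rfl⟩
    have : f1 (Ψ₁ P) = hex.choose := dif_pos hex
    rw [this]; exact hex.choose_spec
  have hS : ∀ β : W₂, ∃ S : G, ∀ Q, cc Q = -Q → Ψ₂ Q = β →
      ∃ Q', cc Q' = -Q' ∧ Ψ₂ Q' = β ∧ j S = om Q' - om (om Q') := by
    intro β
    by_cases hex : ∃ Q, cc Q = -Q ∧ Ψ₂ Q = β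
    · obtain ⟨Q', hQ', hQ'2⟩ := hex
      have : cc (om Q' - om (om Q')) = om Q' - om (om Q') := by
        rw [cctheta om cc h1 h2, hQ']
        simp only [map_neg]
        abel
      obtain ⟨S, hS⟩ := (h4 _).mp this
      exact ⟨S, fun _ _ _ => ⟨Q', hQ', hQ'2, hS⟩⟩
    · exact ⟨0, fun Q hQ hQ2 => absurd ⟨Q, hQ, hQ2⟩ hex⟩
  choose f2 hf2 using hS
  have key : ∀ P : G, ∃ (β : W₂) (U : G), P = f1 (Ψ₁ P) + f2 β - 3 • U := by
    intro P
    have hN := h9 P (f1 (Ψ₁ P)) (hf1 P).symm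
    obtain ⟨Q, hQ⟩ := h8 _ hN
    have hfix : cc (om Q - om (om Q)) = om Q - om (om Q) := by
      rw [← hQ]; exact (h4 _).mpr ⟨_, rfl⟩
    have hQm := partE om cc T h1 h2 h3 h5 h6 h7 Q hfix
    obtain ⟨Q', hQ', hQ'2, hS⟩ := hf2 (Ψ₂ Q) Q hQm rfl
    obtain ⟨i, hi⟩ := h10 Q Q' hQm hQ' hQ'2.symm
    obtain ⟨R, hR⟩ := h8 _ hi
    have hRm : cc (om R - om (om R)) = -(om R - om (om R)) := by
      rw [← hR]
      rw [map_sub, map_sub, map_nsmul, hQm, hQ', h6, smul_neg]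
      abel
    obtain ⟨R', hR', hR'2⟩ := partD om cc T h1 h2 h5 h6 h7 R hRm
    obtain ⟨U, hU⟩ := (h4 _).mp hR'
    refine ⟨Ψ₂ Q, U, ?_⟩
    apply hj
    have hjP : j P = j (f1 (Ψ₁ P)) + (om Q - om (om Q)) := by
      rw [← hQ, map_sub]; abel
    have hQe : Q = Q' + i • T + (om R' - om (om R')) := by
      rw [hR'2, ← hR]; abel
    have hth : om Q - om (om Q) = (om Q' - om (om Q')) +
        (om (om R' - om (om R')) - om (om (om R' - om (om R')))) := by
      conv_lhs => rw [hQe]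
      simp only [map_add, thetaT om T h5 i]
      abel
    rw [hjP, hth, theta2 om h1, ← hS, ← hU, map_sub, map_add, map_nsmul]
    abel
  let F : W₁ × W₂ → G ⧸ (nsmulAddMonoidHom (α := G) 3).range :=
    fun p => QuotientAddGroup.mk (f1 p.1 + f2 p.2)
  have hF : Function.Surjective F := by
    intro q
    obtain ⟨P, rfl⟩ := QuotientAddGroup.mk_surjective q
    obtain ⟨β, U, hU⟩ := key P
    refine ⟨(Ψ₁ P, β), ?_⟩
    refine (QuotientAddGroup.eq).mpr ?_
    refine ⟨-U, ?_⟩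
    show 3 • (-U) = -(f1 (Ψ₁ P) + f2 β) + P
    generalize f1 (Ψ₁ P) = a at hU ⊢
    rw [hU, smul_neg]
    abel
  have : Finite (G ⧸ (nsmulAddMonoidHom (α := G) 3).range) := Finite.of_surjective F hF
  refine ⟨AddSubgroup.finiteIndex_of_finite_quotient, ?_⟩
  have := Nat.card_le_card_of_surjective F hF
  rw [Nat.card_prod] at this
  exact this

end Pool.Agent.PTN

end

section

/-!
# PTK_MTL: from moments to tails
-/

set_option autoImplicit false

open NumberField IsDedekindDomain Finset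
open scoped nonZeroDivisors Pointwise

namespace Pool.Agent.PTK

open Pool.Agent.Lib_helper18 Pool.Agent.Lib_helper18.Eis Pool.Agent.Lib_helper84.Cub
open Pool.Agent.PT Pool.Agent.PTE Pool.Agent.PT3 Pool.Agent.PTL Pool.Agent.PTN

namespace MTL

theorem tf_le (k t r : ℕ) : tf (t ≤ r) ≤ (1 / 3 ^ (k * t)) * (3 : ℝ) ^ (k * r) := by
  unfold tf
  split_ifs with h
  · rw [one_div, inv_mul_eq_div, le_div_iff₀ (by positivity), one_mul]
    exact pow_le_pow_right₀ (by norm_num) (Nat.mul_le_mul_left k h)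
  · positivity

end MTL

/-- PTK_MTL -/
theorem MTL_thm : Stmt_MTL := by
  classical
  rintro n a W k t x ⟨K, hK⟩
  refine ⟨K / 3 ^ (k * t), fun σ h1 h2 T => ?_⟩
  have h3 := hK σ h1 h2 T
  have h4 : SumA n a W (fun A => tf (t ≤ CubeRank.rr A)) σ T ≤
      (1 / 3 ^ (k * t)) * SumA n a W (fun A => (3 : ℝ) ^ (k * CubeRank.rr A)) σ T := by
    unfold SumA
    rw [Finset.mul_sum]
    refine Finset.sum_le_sum fun e _ => ?_
    rw [Finset.mul_sum]
    refine Finset.sum_le_sum fun q _ => ?_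
    split_ifs with hc
    · rw [← mul_assoc]
      exact mul_le_mul_of_nonneg_right (MTL.tf_le k t _) (Real.rpow_nonneg (Nat.cast_nonneg q) _)
    · rw [mul_zero]
  refine h4.trans ((mul_le_mul_of_nonneg_left h3 (by positivity)).trans (le_of_eq ?_))
  ring

end Pool.Agent.PTK

end

section

/-!
# GTK: existence, uniqueness and properties of `t`
-/

set_option autoImplicit false
set_option linter.unusedSectionVars false

open NumberField IsDedekindDomain Finset
open scoped nonZeroDivisors Pointwise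

namespace Pool.Agent.PTK

open Pool.Agent.Lib_helper18 Pool.Agent.Lib_helper18.Eis Pool.Agent.Lib_helper84.Cub
open Pool.Agent.PT Pool.Agent.PTL

namespace GTK

open Pool.Agent.PT.GT (E E_pow E_add E_zero E_inj of_cube map_ω cube_one ω_ne_zero E_ne_zero map_E')

variable {L : Type} [Field L] [NumberField L] {ι : Eis →+* L}

theorem rel (ι : Eis →+* L) : ι w ^ 2 + ι w + 1 = 0 := by
  rw [← map_pow, ← map_add, ← map_one ι, ← map_add, w_rel, map_zero]

theorem ι_eq (ι : Eis →+* L) (a : Eis) : ι a = (a.re : L) + (a.im : L) * ι w := by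
  conv_lhs => rw [eq_re_add_im a]
  rw [map_add, map_mul, map_intCast, map_intCast]

/-- An automorphism which fixes `ω` fixes the image of `Z[w]`. -/
theorem fix_ι {h : L ≃ₐ[ℚ] L} (hh : h (ι w) = ι w) (a : Eis) : h (ι a) = ι a := by
  rw [ι_eq ι a, map_add, map_mul, map_intCast, map_intCast, hh]

theorem map_aD {h : L ≃ₐ[ℚ] L} (hh : h (ι w) = ι w) (p q p' q' : Eis) (ρ : L) :
    h (aDE ι p q p' q' ρ) = aDE ι p q p' q' (h ρ) := by
  unfold aDE
  simp only [map_mul, map_add, map_pow, fix_ι hh]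

theorem map_aN {h : L ≃ₐ[ℚ] L} (hh : h (ι w) = ι w) (p q p' q' : Eis) (ρ : L) :
    h (aNE ι p q p' q' ρ) = aNE ι p q p' q' (h ρ) := by
  unfold aNE
  simp only [map_mul, map_add, map_pow, fix_ι hh]

theorem nrm (ι : Eis →+* L) {ρ : L} {x : Eis} (p q : Eis) (hρ : ρ ^ 3 = ι x) :
    (ι p + ι q * ρ) * ((ι p + ι q * ι w * ρ) * (ι p + ι q * ι w ^ 2 * ρ)) =
      ι (p ^ 3 + x * q ^ 3) := by
  rw [map_add, map_mul, map_pow, map_pow, ← hρ]
  linear_combination ((ι p) ^ 2 * ι q * ρ + ι p * (ι q) ^ 2 * ρ ^ 2 * ι w +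
    (ι q) ^ 3 * ρ ^ 3 * (ι w - 1)) * rel ι

/-- The step from `ρ` to `ω ρ`. -/
theorem step {h : L ≃ₐ[ℚ] L} (hh : h (ι w) = ι w) {x b p q p' q' : Eis}
    (hsol : SolE x b p q p' q') (hb : ∀ θ : L, θ ^ 3 = ι b → h θ = θ) {ρ A A' c : L}
    (hρ : ρ ^ 3 = ι x) (hhρ : h ρ = ρ)
    (hD : aDE ι p q p' q' ρ ≠ 0) (hN : aNE ι p q p' q' ρ ≠ 0)
    (hD' : aDE ι p q p' q' (ι w * ρ) ≠ 0)
    (hA : A ^ 3 * aDE ι p q p' q' ρ = aNE ι p q p' q' ρ)
    (hA' : A' ^ 3 * aDE ι p q p' q' (ι w * ρ) = aNE ι p q p' q' (ι w * ρ))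
    (hc : h A = c * A) : h A' = c * A' := by
  have r := rel ι
  have h3 := cube_one r
  have e1 : ι q * ι w ^ 2 * (ι w * ρ) = ι q * ρ := by linear_combination (ι q * ρ) * h3
  have e2 : ι q' * ι w ^ 2 * (ι w * ρ) = ι q' * ρ := by linear_combination (ι q' * ρ) * h3
  have e3 : ι q * ι w * (ι w * ρ) = ι q * ι w ^ 2 * ρ := by ring
  have e4 : ι q' * ι w * (ι w * ρ) = ι q' * ι w ^ 2 * ρ := by ring
  have hn := nrm ι p q hρ
  have hn' := nrm ι p' q' hρ
  have heq : ι (p ^ 3 + x * q ^ 3) = ι b * ι (p' ^ 3 + x * q' ^ 3) := by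
    rw [hsol.eq, map_mul]
  unfold aDE at hD hD' hA hA'
  unfold aNE at hN hA hA'
  rw [e2, e3] at hD'
  rw [e1, e2, e3, e4] at hA'
  rw [← hn, ← hn'] at heq
  obtain ⟨d1, d2'⟩ := mul_ne_zero_iff.1 hD
  obtain ⟨d2, d1'⟩ := mul_ne_zero_iff.1 hN
  obtain ⟨-, d0'⟩ := mul_ne_zero_iff.1 hD'
  have hA0 : A ≠ 0 := by
    rintro rfl
    apply hN
    rw [← hA]
    ring
  have hθ : (A' * (ι p + ι q * ι w ^ 2 * ρ) / (A * (ι p' + ι q' * ι w ^ 2 * ρ))) ^ 3 = ι b := by
    rw [div_pow, div_eq_iff (pow_ne_zero _ (mul_ne_zero hA0 d2')), mul_pow, mul_pow]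
    apply mul_right_cancel₀ (mul_ne_zero d1 d0')
    generalize ι p + ι q * ρ = l0 at *
    generalize ι p' + ι q' * ρ = l0' at *
    generalize ι p + ι q * ι w * ρ = l1 at *
    generalize ι p' + ι q' * ι w * ρ = l1' at *
    generalize ι p + ι q * ι w ^ 2 * ρ = l2 at *
    generalize ι p' + ι q' * ι w ^ 2 * ρ = l2' at *
    linear_combination (l2 ^ 2 * l1) * hA' + (l2 * l2') * heq - (ι b * l2' ^ 2 * l0') * hA
  have hfix := hb _ hθ
  simp only [map_div₀, map_mul, map_add, map_pow, fix_ι hh, hhρ, hc] at hfix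
  have hc0 : c ≠ 0 := by
    rintro rfl
    rw [zero_mul] at hc
    exact hA0 ((map_eq_zero_iff h h.injective).1 hc)
  rw [div_eq_div_iff (mul_ne_zero (mul_ne_zero hc0 hA0) d2') (mul_ne_zero hA0 d2')] at hfix
  apply mul_right_cancel₀ (mul_ne_zero d2 (mul_ne_zero hA0 d2'))
  linear_combination hfix

/-- The square of an automorphism which inverts `ω`. -/
theorem sq_ω {g : L ≃ₐ[ℚ] L} (hg : g (ι w) = ι w ^ 2) : (g * g) (ι w) = ι w := by
  have h3 := cube_one (rel ι)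
  change g (g (ι w)) = ι w
  rw [hg, map_pow, hg]
  linear_combination (ι w) * h3

end GTK

open _root_.Pool.Agent.PTK.GTK in
open Pool.Agent.PT.GT (E E_pow E_add E_zero E_inj of_cube map_ω cube_one ω_ne_zero E_ne_zero
  map_E') in
/-- GTK: existence, uniqueness and properties of `t`. -/
theorem GTK_thm : Stmt_GTK := by
  intro s x b p q p' q' f L _ _ ζ ι hS hG j
  have r := rel ι
  have h3 := cube_one r
  have hA0 : ∀ (ρ A : L), ρ ^ 3 = ι x →
      A ^ 3 * aDE ι (p j) (q j) (p' j) (q' j) ρ = aNE ι (p j) (q j) (p' j) (q' j) ρ → A ≠ 0 := by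
    rintro ρ A hρ hA rfl
    apply (hG.D j ρ hρ).2
    rw [← hA]
    ring
  -- one witness is enough
  have all : ∀ (h : L ≃ₐ[ℚ] L) (t : ZMod 3) (ρ₀ A₀ : L), h (ι w) = ι w →
      (∀ ρ : L, ρ ^ 3 = ι x → h ρ = ρ) → (∀ θ : L, θ ^ 3 = ι (b j) → h θ = θ) →
      ρ₀ ^ 3 = ι x →
      A₀ ^ 3 * aDE ι (p j) (q j) (p' j) (q' j) ρ₀ = aNE ι (p j) (q j) (p' j) (q' j) ρ₀ →
      h A₀ = E (ι w) t * A₀ → ∀ ρ A : L, ρ ^ 3 = ι x →
      A ^ 3 * aDE ι (p j) (q j) (p' j) (q' j) ρ = aNE ι (p j) (q j) (p' j) (q' j) ρ →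
      h A = E (ι w) t * A := by
    intro h t ρ₀ A₀ hh hx hb hρ₀ hA₀ ht
    have hpow : ∀ n : ℕ, (ι w ^ n * ρ₀) ^ 3 = ι x := by
      intro n
      rw [mul_pow, hρ₀, ← pow_mul, mul_comm n 3, pow_mul, h3, one_pow, one_mul]
    have key : ∀ n : ℕ, ∀ A : L,
        A ^ 3 * aDE ι (p j) (q j) (p' j) (q' j) (ι w ^ n * ρ₀) =
          aNE ι (p j) (q j) (p' j) (q' j) (ι w ^ n * ρ₀) → h A = E (ι w) t * A := by
      intro n
      induction n with
      | zero =>
        intro A hA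
        rw [pow_zero, one_mul] at hA
        have hD := (hG.D j ρ₀ hρ₀).1
        have e2 : A ^ 3 = A₀ ^ 3 := mul_right_cancel₀ hD (hA.trans hA₀.symm)
        obtain ⟨k, hk⟩ := of_cube r e2
        rw [hk, map_mul, map_E' hh, ht]
        ring
      | succ n ih =>
        intro A' hA'
        obtain ⟨A, hA⟩ := hG.A j _ (hpow n)
        have e1 : ι w ^ (n + 1) * ρ₀ = ι w * (ι w ^ n * ρ₀) := by rw [pow_succ]; ring
        have hD' := (hG.D j _ (hpow (n + 1))).1
        rw [e1] at hA' hD'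
        exact step hh (hS.sol j) hb (hpow n) (hx _ (hpow n)) (hG.D j _ (hpow n)).1
          (hG.D j _ (hpow n)).2 hD' hA hA' (ih A hA)
    intro ρ A hρ hA
    obtain ⟨k, hk⟩ := of_cube r (hρ.trans hρ₀.symm)
    rw [hk] at hA
    exact key k.val A hA
  obtain ⟨ρ₀, hρ₀⟩ := hG.rx
  obtain ⟨A₀, hA₀⟩ := hG.A j ρ₀ hρ₀
  have hA₀0 := hA0 ρ₀ A₀ hρ₀ hA₀
  -- conjugation by an automorphism which fixes `ω`
  have conjA : ∀ (g τ : L ≃ₐ[ℚ] L) (t : ZMod 3), τ (ι w) = ι w → FxK x b ι g →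
      IsTK x p q p' q' ι g j t →
      FxK x b ι (τ * g * τ⁻¹) ∧ IsTK x p q p' q' ι (τ * g * τ⁻¹) j t := by
    intro g τ t hτ hF hT
    have hτ' : τ⁻¹ (ι w) = ι w := by
      have h5 : τ⁻¹ (τ (ι w)) = ι w := τ.symm_apply_apply _
      rwa [hτ] at h5
    have hττ : ∀ y : L, τ (τ⁻¹ y) = y := fun y => τ.apply_symm_apply y
    have hτt : ∀ y : L, τ⁻¹ (τ y) = y := fun y => τ.symm_apply_apply y
    have c1 : ∀ y : L, (τ * g * τ⁻¹) ((τ * g * τ⁻¹) y) = τ (g (g (τ⁻¹ y))) := by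
      intro y
      change τ (g (τ⁻¹ (τ (g (τ⁻¹ y))))) = _
      rw [hτt]
    refine ⟨⟨?_, ?_⟩, ?_⟩
    · intro ρ hρ
      rw [c1, hF.1 (τ⁻¹ ρ) (by rw [← map_pow, hρ, fix_ι hτ']), hττ]
    · intro i ρ hρ
      rw [c1, hF.2 i (τ⁻¹ ρ) (by rw [← map_pow, hρ, fix_ι hτ']), hττ]
    · intro ρ A hρ hA
      have e1 := congrArg (τ⁻¹ : L ≃ₐ[ℚ] L) hA
      rw [map_mul, map_pow, map_aD hτ', map_aN hτ'] at e1
      rw [c1, hT (τ⁻¹ ρ) (τ⁻¹ A) (by rw [← map_pow, hρ, fix_ι hτ']) e1, map_mul, map_pow, hτ, hττ]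
  refine ⟨?_, ?_, ?_⟩
  · intro g hg hF
    have hh : (g * g) (ι w) = ι w := sq_ω hg
    have e1 := congrArg (g * g : L ≃ₐ[ℚ] L) hA₀
    rw [map_mul, map_pow, map_aD hh, map_aN hh] at e1
    have e0 : (g * g) ρ₀ = ρ₀ := hF.1 ρ₀ hρ₀
    rw [e0] at e1
    have e2 : ((g * g) A₀) ^ 3 = A₀ ^ 3 :=
      mul_right_cancel₀ (hG.D j ρ₀ hρ₀).1 (e1.trans hA₀.symm)
    obtain ⟨t, ht⟩ := of_cube r e2
    refine ⟨t, ?_, ?_⟩
    · intro ρ A hρ hA
      exact all (g * g) t ρ₀ A₀ hh hF.1 (hF.2 j) hρ₀ hA₀ ht ρ A hρ hA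
    · intro t' ht'
      have h5 : (g * g) A₀ = E (ι w) t' * A₀ := ht' ρ₀ A₀ hρ₀ hA₀
      rw [ht] at h5
      exact (E_inj r (mul_right_cancel₀ hA₀0 h5)).symm
  · intro g τ t hg hF hT
    rcases map_ω r τ with hτ | hτ
    · exact conjA g τ t hτ hF hT
    · have hgi : g⁻¹ (ι w) = ι w ^ 2 := by
        have h5 : g⁻¹ (g (ι w ^ 2)) = ι w ^ 2 := g.symm_apply_apply _
        have h6 : g (ι w ^ 2) = ι w := by
          rw [map_pow, hg]
          linear_combination (ι w) * h3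
        rwa [h6] at h5
      have hτ' : (τ * g⁻¹) (ι w) = ι w := by
        change τ (g⁻¹ (ι w)) = ι w
        rw [hgi, map_pow, hτ]
        linear_combination (ι w) * h3
      have h7 := conjA g (τ * g⁻¹) t hτ' hF hT
      have h8 : (τ * g⁻¹) * g * (τ * g⁻¹)⁻¹ = τ * g * τ⁻¹ := by group
      rwa [h8] at h7
  · intro g t k hg hF _ hT
    have hh : (g * g) (ι w) = ι w := sq_ω hg
    have hsq : ∀ (n : ℕ) (y : L), (g ^ n) ((g ^ n) y) = ((g * g) ^ n) y := by
      intro n y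
      change (g ^ n * g ^ n) y = _
      rw [← (Commute.refl g).mul_pow]
    have hfix : ∀ (n : ℕ) (y : L), g (g y) = y → ((g * g) ^ n) y = y := by
      intro n y hy
      induction n with
      | zero => rfl
      | succ n ih =>
        rw [pow_succ']
        change g (g (((g * g) ^ n) y)) = y
        rw [ih, hy]
    refine ⟨⟨?_, ?_⟩, ?_⟩
    · intro ρ hρ
      rw [hsq, hfix _ _ (hF.1 ρ hρ)]
    · intro i ρ hρ
      rw [hsq, hfix _ _ (hF.2 i ρ hρ)]
    · intro ρ A hρ hA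
      have h5 : ∀ n : ℕ, ((g * g) ^ n) A = E (ι w) ((n : ZMod 3) * t) * A := by
        intro n
        induction n with
        | zero =>
          rw [Nat.cast_zero, zero_mul, E_zero, one_mul]
          rfl
        | succ n ih =>
          rw [pow_succ']
          change (g * g) (((g * g) ^ n) A) = _
          rw [ih, map_mul, map_E' hh]
          have h6 : (g * g) A = E (ι w) t * A := hT ρ A hρ hA
          rw [h6, Nat.cast_succ, add_mul, one_mul, E_add r]
          ring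
      rw [hsq, h5]
      rfl

end Pool.Agent.PTK

end

section

/-!
# GTU (helper9): existence, uniqueness and properties of `t` for `Q = 1 (mod 3)`
-/

set_option autoImplicit false
set_option linter.unusedSectionVars false

open NumberField IsDedekindDomain Finset
open scoped nonZeroDivisors Pointwise

namespace Pool.Agent.PTK

open Pool.Agent.Lib_helper18 Pool.Agent.Lib_helper18.Eis Pool.Agent.Lib_helper84.Cub
open Pool.Agent.PT Pool.Agent.PTE Pool.Agent.PT3 Pool.Agent.PTL Pool.Agent.PTN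

namespace GTU

open Pool.Agent.PT.GT (E E_pow E_add E_zero E_inj of_cube map_ω cube_one ω_ne_zero E_ne_zero map_E')
open GTK (rel ι_eq fix_ι map_aD map_aN)

variable {L : Type} [Field L] [NumberField L] {ι : Eis →+* L}

/-- An automorphism with `σ ω = ω²` acts on the image of `Z[w]` as the conjugation. -/
theorem conj_ι {h : L ≃ₐ[ℚ] L} (hh : h (ι w) = ι w ^ 2) (a : Eis) : h (ι a) = ι (conj a) := by
  rw [ι_eq ι a, ι_eq ι (conj a), map_add, map_mul, map_intCast, map_intCast, hh, conj_re, conj_im]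
  push_cast
  linear_combination (a.im : L) * rel ι

theorem inv_ω {τ : L ≃ₐ[ℚ] L} (hτ : τ (ι w) = ι w) : τ⁻¹ (ι w) = ι w := by
  have h5 : τ⁻¹ (τ (ι w)) = ι w := τ.symm_apply_apply _
  rwa [hτ] at h5

theorem inv_ω2 {τ : L ≃ₐ[ℚ] L} (hτ : τ (ι w) = ι w ^ 2) : τ⁻¹ (ι w) = ι w ^ 2 := by
  have h3 := cube_one (rel ι)
  have h5 : τ⁻¹ (τ (ι w ^ 2)) = ι w ^ 2 := τ.symm_apply_apply _
  have h6 : τ (ι w ^ 2) = ι w := by
    rw [map_pow, hτ]
    linear_combination (ι w) * h3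
  rwa [h6] at h5

/-- `g` fixes the conjugates of the roots of `z`. -/
theorem fix_root {g τ : L ≃ₐ[ℚ] L} (hg : g (ι w) = ι w) {z : Eis}
    (hz : ∃ T : Eis, z * conj z = T ^ 3) (hfix : ∀ ρ : L, ρ ^ 3 = ι z → g ρ = ρ) {ρ : L}
    (hρ : ρ ^ 3 = ι z) : g (τ⁻¹ ρ) = τ⁻¹ ρ := by
  have r := rel ι
  rcases map_ω r τ with hτ | hτ
  · exact hfix _ (by rw [← map_pow, hρ, fix_ι (inv_ω hτ)])
  · obtain ⟨T, hT⟩ := hz
    by_cases h0 : ρ = 0
    · rw [h0, map_zero, map_zero]
    · have h1 : (τ⁻¹ ρ * ρ) ^ 3 = (ι T) ^ 3 := by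
        rw [mul_pow, ← map_pow, hρ, conj_ι (inv_ω2 hτ), ← map_mul, ← map_pow, ← hT, mul_comm]
      obtain ⟨k, hk⟩ := of_cube r h1
      have h2 : g (τ⁻¹ ρ * ρ) = τ⁻¹ ρ * ρ := by
        rw [hk, map_mul, map_E' hg, fix_ι hg]
      rw [map_mul, hfix ρ hρ] at h2
      exact mul_right_cancel₀ h0 h2

end GTU

open _root_.Pool.Agent.PTK.GTU in
open GTK (rel fix_ι map_aD map_aN step) in
open Pool.Agent.PT.GT (E E_pow E_add E_zero E_inj of_cube map_ω cube_one ω_ne_zero E_ne_zero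
  map_E') in
/-- GTU: existence, uniqueness and properties of `t`. -/
theorem GTU_thm : Stmt_GTU := by
  intro k x u P Q P' Q' f L _ _ ζ ι hS hG
  have r := rel ι
  have h3 := cube_one r
  refine ⟨?_, ?_, ?_⟩
  · intro g τ hg hF
    have hττ : ∀ y : L, τ (τ⁻¹ y) = y := fun y => τ.apply_symm_apply y
    refine ⟨?_, ?_⟩
    · intro ρ hρ
      change τ (g (τ⁻¹ ρ)) = ρ
      rw [fix_root hg hS.cx hF.1 hρ, hττ]
    · intro j ρ hρ
      change τ (g (τ⁻¹ ρ)) = ρ
      rw [fix_root hg (hS.cb j) (hF.2 j) hρ, hττ]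
  · intro g l hF
    have hfix : ∀ y : L, g y = y → (g ^ l) y = y := by
      intro y hy
      induction l with
      | zero => rfl
      | succ n ih =>
        rw [pow_succ']
        change g ((g ^ n) y) = y
        rw [ih, hy]
    exact ⟨fun ρ hρ => hfix _ (hF.1 ρ hρ), fun j ρ hρ => hfix _ (hF.2 j ρ hρ)⟩
  intro j
  have hA0 : ∀ (ρ A : L), ρ ^ 3 = ι x →
      A ^ 3 * aDE ι (P j) (Q j) (P' j) (Q' j) ρ = aNE ι (P j) (Q j) (P' j) (Q' j) ρ → A ≠ 0 := by
    rintro ρ A hρ hA rfl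
    apply (hG.D j ρ hρ).2
    rw [← hA]
    ring
  -- one witness is enough
  have all : ∀ (h : L ≃ₐ[ℚ] L) (t : ZMod 3) (ρ₀ A₀ : L), h (ι w) = ι w →
      (∀ ρ : L, ρ ^ 3 = ι x → h ρ = ρ) → (∀ θ : L, θ ^ 3 = ι (u j) → h θ = θ) →
      ρ₀ ^ 3 = ι x →
      A₀ ^ 3 * aDE ι (P j) (Q j) (P' j) (Q' j) ρ₀ = aNE ι (P j) (Q j) (P' j) (Q' j) ρ₀ →
      h A₀ = E (ι w) t * A₀ → ∀ ρ A : L, ρ ^ 3 = ι x →
      A ^ 3 * aDE ι (P j) (Q j) (P' j) (Q' j) ρ = aNE ι (P j) (Q j) (P' j) (Q' j) ρ →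
      h A = E (ι w) t * A := by
    intro h t ρ₀ A₀ hh hx hb hρ₀ hA₀ ht
    have hpow : ∀ n : ℕ, (ι w ^ n * ρ₀) ^ 3 = ι x := by
      intro n
      rw [mul_pow, hρ₀, ← pow_mul, mul_comm n 3, pow_mul, h3, one_pow, one_mul]
    have key : ∀ n : ℕ, ∀ A : L,
        A ^ 3 * aDE ι (P j) (Q j) (P' j) (Q' j) (ι w ^ n * ρ₀) =
          aNE ι (P j) (Q j) (P' j) (Q' j) (ι w ^ n * ρ₀) → h A = E (ι w) t * A := by
      intro n
      induction n with
      | zero =>
        intro A hA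
        rw [pow_zero, one_mul] at hA
        have hD := (hG.D j ρ₀ hρ₀).1
        have e2 : A ^ 3 = A₀ ^ 3 := mul_right_cancel₀ hD (hA.trans hA₀.symm)
        obtain ⟨k, hk⟩ := of_cube r e2
        rw [hk, map_mul, map_E' hh, ht]
        ring
      | succ n ih =>
        intro A' hA'
        obtain ⟨A, hA⟩ := hG.A j _ (hpow n)
        have e1 : ι w ^ (n + 1) * ρ₀ = ι w * (ι w ^ n * ρ₀) := by rw [pow_succ]; ring
        have hD' := (hG.D j _ (hpow (n + 1))).1
        rw [e1] at hA' hD'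
        exact step hh (hS.sol j) hb (hpow n) (hx _ (hpow n)) (hG.D j _ (hpow n)).1
          (hG.D j _ (hpow n)).2 hD' hA hA' (ih A hA)
    intro ρ A hρ hA
    obtain ⟨k, hk⟩ := of_cube r (hρ.trans hρ₀.symm)
    rw [hk] at hA
    exact key k.val A hA
  obtain ⟨ρ₀, hρ₀⟩ := hG.rx
  obtain ⟨A₀, hA₀⟩ := hG.A j ρ₀ hρ₀
  have hA₀0 := hA0 ρ₀ A₀ hρ₀ hA₀
  refine ⟨?_, ?_, ?_⟩
  · intro g hg hF
    have e1 := congrArg g hA₀
    rw [map_mul, map_pow, map_aD hg, map_aN hg, hF.1 ρ₀ hρ₀] at e1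
    have e2 : (g A₀) ^ 3 = A₀ ^ 3 :=
      mul_right_cancel₀ (hG.D j ρ₀ hρ₀).1 (e1.trans hA₀.symm)
    obtain ⟨t, ht⟩ := of_cube r e2
    refine ⟨t, ?_, ?_⟩
    · intro ρ A hPA
      exact all g t ρ₀ A₀ hg hF.1 (hF.2 j) hρ₀ hA₀ ht ρ A hPA.1 hPA.2
    · intro t' ht'
      have h5 : g A₀ = E (ι w) t' * A₀ := ht' ρ₀ A₀ ⟨hρ₀, hA₀⟩
      rw [ht] at h5
      exact (E_inj r (mul_right_cancel₀ hA₀0 h5)).symm
  · intro g τ t hg hF hτ hT
    have hτ' := inv_ω hτ
    have hττ : ∀ y : L, τ (τ⁻¹ y) = y := fun y => τ.apply_symm_apply y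
    intro ρ A hPA
    obtain ⟨hρ, hA⟩ := hPA
    have e1 := congrArg (τ⁻¹ : L ≃ₐ[ℚ] L) hA
    rw [map_mul, map_pow, map_aD hτ', map_aN hτ'] at e1
    change τ (g (τ⁻¹ A)) = _
    rw [hT (τ⁻¹ ρ) (τ⁻¹ A) ⟨by rw [← map_pow, hρ, fix_ι hτ'], e1⟩, map_mul, map_pow, hτ, hττ]
  · intro g t l hg hT ρ A hPA
    have h5 : ∀ n : ℕ, (g ^ n) A = E (ι w) ((n : ZMod 3) * t) * A := by
      intro n
      induction n with
      | zero =>
        rw [Nat.cast_zero, zero_mul, E_zero, one_mul]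
        rfl
      | succ n ih =>
        rw [pow_succ']
        change g ((g ^ n) A) = _
        rw [ih, map_mul, map_E' hg]
        have h6 : g A = E (ι w) t * A := hT ρ A hPA
        rw [h6, Nat.cast_succ, add_mul, one_mul, E_add r]
        ring
    exact h5 l

end Pool.Agent.PTK

end

section

/-!
# GKK: Kummer theory over `K = Q(w)`
-/

set_option autoImplicit false

open NumberField IsDedekindDomain Finset
open scoped nonZeroDivisors Pointwise

namespace Pool.Agent.PTK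

open Pool.Agent.Lib_helper18 Pool.Agent.Lib_helper18.Eis Pool.Agent.Lib_helper84.Cub
open Pool.Agent.PT Pool.Agent.PTL

namespace GKK

variable {L : Type} [Field L] [NumberField L] {ι : Eis →+* L}

/-- `ι` is injective. -/
theorem inj (ι : Eis →+* L) : Function.Injective ι := by
  rw [injective_iff_map_eq_zero]
  intro a ha
  have h1 : ι (a * conj a) = 0 := by rw [map_mul, ha, zero_mul]
  rw [mul_conj, map_intCast] at h1
  have h2 : a.norm = 0 := by exact_mod_cast h1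
  exact norm_eq_zero.1 h2

theorem mem_F (ι : Eis →+* L) (a : Eis) : ι a ∈ IntermediateField.adjoin ℚ {ι w} := by
  rw [GTK.ι_eq ι a]
  refine add_mem ?_ (mul_mem ?_ (IntermediateField.mem_adjoin_simple_self ℚ (ι w)))
  · exact intCast_mem _ _
  · exact intCast_mem _ _

/-- The elements of `ℚ(ω)` are fractions. -/
theorem frac (ι : Eis →+* L) {y : L} (hy : y ∈ IntermediateField.adjoin ℚ {ι w}) :
    ∃ u v : Eis, v ≠ 0 ∧ y * ι v = ι u := by
  have hi := inj ι
  induction hy using IntermediateField.adjoin_induction with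
  | mem x hx =>
    rw [Set.mem_singleton_iff] at hx
    exact ⟨w, 1, one_ne_zero, by rw [hx, map_one, mul_one]⟩
  | algebraMap q =>
    refine ⟨(q.num : Eis), (q.den : Eis), ?_, ?_⟩
    · intro h
      have h1 := congrArg Eis.re h
      rw [natCast_re, zero_re] at h1
      exact q.den_nz (by exact_mod_cast h1)
    · rw [map_intCast, map_natCast]
      have h1 : (q : ℚ) * q.den = q.num := Rat.mul_den_eq_num q
      have h2 := congrArg (algebraMap ℚ L) h1
      rw [map_mul, map_natCast, map_intCast] at h2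
      exact h2
  | add x y _ _ hx hy =>
    obtain ⟨u, v, hv, h1⟩ := hx
    obtain ⟨u', v', hv', h2⟩ := hy
    refine ⟨u * v' + u' * v, v * v', mul_ne_zero hv hv', ?_⟩
    rw [map_mul, map_add, map_mul, map_mul]
    linear_combination ι v' * h1 + ι v * h2
  | inv x _ hx =>
    obtain ⟨u, v, hv, h1⟩ := hx
    by_cases hx0 : x = 0
    · exact ⟨0, 1, one_ne_zero, by rw [hx0, inv_zero, zero_mul, map_zero]⟩
    · refine ⟨v, u, ?_, ?_⟩
      · rintro rfl
        rw [map_zero] at h1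
        rcases mul_eq_zero.1 h1 with h2 | h2
        · exact hx0 h2
        · exact hv (hi (by rw [h2, map_zero]))
      · rw [← h1, ← mul_assoc, inv_mul_cancel₀ hx0, one_mul]
  | mul x y _ _ hx hy =>
    obtain ⟨u, v, hv, h1⟩ := hx
    obtain ⟨u', v', hv', h2⟩ := hy
    refine ⟨u * u', v * v', mul_ne_zero hv hv', ?_⟩
    rw [map_mul, map_mul, ← h1, ← h2]
    ring

/-- An element of `Z[w]` which is a cube in `ℚ(ω)` is a cube. -/
theorem cube_of (ι : Eis →+* L) {β : L} (hβ : β ∈ IntermediateField.adjoin ℚ {ι w}) {a : Eis}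
    (h : ι a = β ^ 3) : ∃ t : Eis, t ^ 3 = a := by
  obtain ⟨u, v, hv, h1⟩ := frac ι hβ
  have h2 : u ^ 3 = v ^ 3 * a := by
    apply inj ι
    rw [map_pow, ← h1, map_mul, map_pow, h]
    ring
  obtain ⟨t, rfl⟩ := (IsIntegrallyClosed.pow_dvd_pow_iff (R := Eis) three_ne_zero).1
    (⟨a, h2⟩ : v ^ 3 ∣ u ^ 3)
  refine ⟨t, ?_⟩
  apply mul_left_cancel₀ (pow_ne_zero 3 hv)
  rw [← h2]
  ring

end GKK

open _root_.Pool.Agent.PTK.GKK in
/-- GKK: Kummer theory over `K`. -/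
theorem GKK_thm (hKUM : KUM) : Stmt_GKK := by
  intro s x b p q p' q' f L _ _ ζ ι hS hG a₀ a
  have hω := GTK.rel ι
  have := hG.gal
  have hx0 : x ≠ 0 := by
    rintro rfl
    refine hS.ind 1 (fun _ => 0) (Or.inl (by norm_num)) ⟨0, ?_⟩
    rw [pow_one, zero_mul]
    ring
  have hb0 : ∀ j, b j ≠ 0 := by
    intro j hj
    refine hS.ind 0 (fun l => if l = j then 1 else 0) (Or.inr ⟨j, by simp⟩) ⟨0, ?_⟩
    rw [zero_pow three_ne_zero, pow_zero, one_mul]
    symm
    exact Finset.prod_eq_zero (Finset.mem_univ j) (by simp [hj])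
  obtain ⟨θ₀, hθ₀⟩ := hG.rx
  choose θ hθ using hG.rb
  let F := IntermediateField.adjoin ℚ {ι w}
  let c : Option (Fin s) → Eis := fun i => i.elim x b
  have hc0 : ∀ i, c i ≠ 0 := by
    rintro (_ | j)
    · exact hx0
    · exact hb0 j
  let A : Option (Fin s) → L := fun i => i.elim θ₀ θ
  have hA : ∀ i, A i ^ 3 = ι (c i) := by
    rintro (_ | j)
    · exact hθ₀
    · exact hθ j
  obtain ⟨g, hg⟩ := hKUM F L ⟨ι w, mem_F ι w⟩ (Option (Fin s)) (fun i => ⟨ι (c i), mem_F ι _⟩) A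
    (by
      apply Subtype.ext
      push_cast
      exact hω)
    (by
      intro i h
      have h1 : ι (c i) = 0 := congrArg Subtype.val h
      exact hc0 i (inj ι (by rw [h1, map_zero])))
    (fun i => hA i)
    (by
      rintro n ⟨β, hβ⟩
      by_contra hcon
      push Not at hcon
      have h1 : ι (∏ i, c i ^ n i) = (β : L) ^ 3 := by
        have h2 := congrArg (algebraMap F L) hβ
        rw [map_pow, map_prod] at h2
        rw [map_prod]
        refine Eq.trans ?_ h2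
        refine Finset.prod_congr rfl fun i _ => ?_
        rw [map_pow, map_pow]
        rfl
      obtain ⟨t, ht⟩ := cube_of ι β.2 h1
      rw [Fintype.prod_option] at ht
      refine hS.ind (n none) (fun j => n (some j)) ?_ ⟨t, ht⟩
      obtain ⟨i, hi⟩ := hcon
      rcases i with _ | j
      · exact Or.inl hi
      · exact Or.inr ⟨j, hi⟩)
    (fun i => i.elim a₀ a)
  have hgω : g (ι w) = ι w := g.commutes (⟨ι w, mem_F ι w⟩ : F)
  have hroot : ∀ (i : Option (Fin s)) (ρ : L), ρ ^ 3 = ι (c i) →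
      g ρ = ι w ^ (i.elim a₀ a : ZMod 3).val * ρ := by
    intro i ρ hρ
    obtain ⟨k, hk⟩ := Pool.Agent.PT.GT.of_cube hω (hρ.trans (hA i).symm)
    have h2 := hg i
    change g (A i) = ι w ^ (i.elim a₀ a : ZMod 3).val * A i at h2
    rw [hk, map_mul, h2, Pool.Agent.PT.GT.E, map_pow, hgω]
    ring
  refine ⟨g.restrictScalars ℚ, hgω, fun ρ hρ => ?_, fun j ρ hρ => ?_⟩
  · exact hroot none ρ hρ
  · exact hroot (some j) ρ hρ

end Pool.Agent.PTK

end

section

/-!
# JKU: Kummer theory over `K = Q(w)` for all classes together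
-/

set_option autoImplicit false

open NumberField IsDedekindDomain Finset
open scoped nonZeroDivisors Pointwise

namespace Pool.Agent.PTK

open Pool.Agent.Lib_helper18 Pool.Agent.Lib_helper18.Eis Pool.Agent.Lib_helper84.Cub
open Pool.Agent.PT Pool.Agent.PTE Pool.Agent.PT3 Pool.Agent.PTL Pool.Agent.PTN

namespace JKU

/-- A rational integer whose square is a cube in `Eis` is a cube. -/
theorem cube_int {D : ℤ} (hD : D ≠ 0) {r : Eis} (h : r ^ 3 = (D : Eis) ^ 2) :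
    ∃ m : ℤ, m ^ 3 = D := by
  have h1 : r.norm ^ 3 = (D ^ 2) ^ 2 := by
    have h2 := congrArg Eis.norm h
    rw [norm_pow, norm_pow, norm_intCast] at h2
    exact h2
  have h3 : D ^ 3 ∣ r.norm ^ 3 := ⟨D, by rw [h1]; ring⟩
  have h4 : D ∣ r.norm := (Int.pow_dvd_pow_iff three_ne_zero).1 h3
  obtain ⟨m, hm⟩ := h4
  refine ⟨m, ?_⟩
  rw [hm] at h1
  have h5 : D ^ 3 * m ^ 3 = D ^ 3 * D := by rw [← mul_pow, h1]; ring
  exact mul_left_cancel₀ (pow_ne_zero 3 hD) h5

theorem cast_zero {n : ℤ} (h : (n : Eis) = 0) : n = 0 := by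
  have h1 := congrArg Eis.re h
  rw [intCast_re, zero_re] at h1
  exact h1

/-- Divisibility of cubes. -/
theorem dvd_cube {a b : Eis} (h : a ^ 3 ∣ b ^ 3) : a ∣ b :=
  (IsIntegrallyClosed.pow_dvd_pow_iff (R := Eis) three_ne_zero).1 h

theorem x_ne {k : ℕ} {x : Eis} {u P Q P' Q' : Fin k → Eis} (hK : SysK x u P Q P' Q') :
    x ≠ 0 := by
  rintro rfl
  refine hK.ind 1 (fun _ => 0) (Or.inl (by norm_num)) ⟨0, ?_⟩
  rw [pow_one, zero_mul]
  ring

theorem u_ne {k : ℕ} {x : Eis} {u P Q P' Q' : Fin k → Eis} (hK : SysK x u P Q P' Q')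
    (j : Fin k) : u j ≠ 0 := by
  intro hj
  refine hK.ind 0 (fun l => if l = j then 1 else 0) (Or.inr ⟨j, by simp⟩) ⟨0, ?_⟩
  rw [zero_pow three_ne_zero, pow_zero, one_mul]
  symm
  exact Finset.prod_eq_zero (Finset.mem_univ j) (by simp [hj])

theorem b_ne {s : ℕ} {b : Fin s → ℤ} {p q p' q' : Fin s → Fin s → ℤ} (hG : SysG b p q p' q')
    (j : Fin s) : b j ≠ 0 := by
  intro hj
  refine hG.ind (fun l => if l = j then 1 else 0) ⟨j, by simp⟩ ⟨0, ?_⟩
  rw [zero_pow three_ne_zero]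
  symm
  exact Finset.prod_eq_zero (Finset.mem_univ j) (by simp [hj])

/-- Independence of all classes. -/
theorem indep {s k : ℕ} {b : Fin s → ℤ} {p q p' q' : Fin s → Fin s → ℤ}
    {x : Eis} {u P Q P' Q' : Fin k → Eis} (hG : SysG b p q p' q') (hK : SysK x u P Q P' Q')
    (c₀ : ℕ) (c : Fin k → ℕ) (d : Fin s → ℕ) (t : Eis)
    (h : t ^ 3 = (x ^ c₀ * ∏ j, u j ^ c j) * ∏ i, (b i : Eis) ^ d i) :
    3 ∣ c₀ ∧ (∀ j, 3 ∣ c j) ∧ ∀ i, 3 ∣ d i := by
  have hx0 : x ≠ 0 := x_ne hK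
  have hu0 : ∀ j, u j ≠ 0 := u_ne hK
  have hb0 : ∀ i, b i ≠ 0 := b_ne hG
  obtain ⟨tx, htx⟩ := hK.cx
  choose tu htu using hK.cb
  obtain ⟨Z, hZ⟩ : ∃ Z : Eis, Z = x ^ c₀ * ∏ j, u j ^ c j := ⟨_, rfl⟩
  obtain ⟨D, hD⟩ : ∃ D : ℤ, D = ∏ i, b i ^ d i := ⟨_, rfl⟩
  obtain ⟨t₁, ht₁⟩ : ∃ t₁ : Eis, t₁ = tx ^ c₀ * ∏ j, tu j ^ c j := ⟨_, rfl⟩
  have hDE : (∏ i, (b i : Eis) ^ d i) = (D : Eis) := by
    rw [hD, Int.cast_prod]
    exact Finset.prod_congr rfl fun i _ => (Int.cast_pow _ _).symm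
  have hD0 : D ≠ 0 := by
    rw [hD]
    exact Finset.prod_ne_zero_iff.2 fun i _ => pow_ne_zero _ (hb0 i)
  have hZ0 : Z ≠ 0 := by
    rw [hZ]
    exact mul_ne_zero (pow_ne_zero _ hx0)
      (Finset.prod_ne_zero_iff.2 fun i _ => pow_ne_zero _ (hu0 i))
  rw [hDE, ← hZ] at h
  have hZZ : Z * conj Z = t₁ ^ 3 := by
    rw [hZ, ht₁, map_mul, map_pow, map_prod]
    have e1 : ∀ j, conj (u j ^ c j) = conj (u j) ^ c j := fun j => map_pow _ _ _
    calc (x ^ c₀ * ∏ j, u j ^ c j) * (conj x ^ c₀ * ∏ j, conj (u j ^ c j))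
        = (x * conj x) ^ c₀ * ∏ j, (u j * conj (u j)) ^ c j := by
          simp only [e1, mul_pow, Finset.prod_mul_distrib]
          ring
      _ = (tx ^ 3) ^ c₀ * ∏ j, (tu j ^ 3) ^ c j := by
          rw [htx]
          congr 1
          exact Finset.prod_congr rfl fun j _ => by rw [htu j]
      _ = (tx ^ c₀ * ∏ j, tu j ^ c j) ^ 3 := by
          rw [mul_pow, ← Finset.prod_pow]
          congr 1
          · rw [← pow_mul, ← pow_mul, mul_comm]
          · exact Finset.prod_congr rfl fun j _ => by rw [← pow_mul, ← pow_mul, mul_comm]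
  have ht₁0 : t₁ ≠ 0 := by
    rintro rfl
    rw [zero_pow three_ne_zero, mul_conj] at hZZ
    have h2 : Z.norm = 0 := cast_zero hZZ
    exact hZ0 (norm_eq_zero.1 h2)
  have hc : conj t ^ 3 = conj Z * D := by
    rw [← map_pow, h, map_mul, conj_intCast]
  have hNN : (t * conj t) ^ 3 = t₁ ^ 3 * (D : Eis) ^ 2 := by
    rw [mul_pow, h, hc, ← hZZ]
    ring
  obtain ⟨r, hr⟩ := dvd_cube (⟨_, hNN⟩ : t₁ ^ 3 ∣ (t * conj t) ^ 3)
  have hr3 : r ^ 3 = (D : Eis) ^ 2 := by
    apply mul_left_cancel₀ (pow_ne_zero 3 ht₁0)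
    rw [← hNN, hr]
    ring
  obtain ⟨m, hm⟩ := cube_int hD0 hr3
  have hd : ∀ i, 3 ∣ d i := by
    by_contra hcon
    push Not at hcon
    exact hG.ind d hcon ⟨m, by rw [hm, hD]⟩
  have hm0 : (m : Eis) ≠ 0 := by
    intro h0
    have h1 : ((m ^ 3 : ℤ) : Eis) = 0 := by
      rw [Int.cast_pow, h0, zero_pow three_ne_zero]
    rw [hm] at h1
    exact hD0 (cast_zero h1)
  have h3 : t ^ 3 = (m : Eis) ^ 3 * Z := by
    rw [h, ← hm, Int.cast_pow]
    ring
  obtain ⟨t', ht'⟩ := dvd_cube (⟨Z, h3⟩ : (m : Eis) ^ 3 ∣ t ^ 3)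
  have h4 : t' ^ 3 = Z := by
    apply mul_left_cancel₀ (pow_ne_zero 3 hm0)
    rw [← h3, ht']
    ring
  have h5 : ¬ (¬ 3 ∣ c₀ ∨ ∃ j, ¬ 3 ∣ c j) := fun hcon =>
    hK.ind c₀ c hcon ⟨t', by rw [h4, hZ]⟩
  push Not at h5
  exact ⟨h5.1, h5.2, hd⟩

end JKU

open _root_.Pool.Agent.PTK.JKU in
/-- JKU: Kummer theory over `K` for all classes together. -/
theorem JKU_thm (hKUM : KUM) : Stmt_JKU := by
  intro s k b p q p' q' x u P Q P' Q' f L _ _ ζ ι hSG hSK hJ a₀ a v
  have hω := GTK.rel ι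
  have := hJ.minus.gal
  obtain ⟨θ₀, hθ₀⟩ := hJ.minus.rx
  choose θ hθ using hJ.minus.rb
  choose η hη using hJ.plus.root
  let F := IntermediateField.adjoin ℚ {ι w}
  let c : Option (Fin k) ⊕ Fin s → Eis :=
    Sum.elim (fun i => i.elim x u) (fun i => (b i : Eis))
  let V : Option (Fin k) ⊕ Fin s → ZMod 3 := Sum.elim (fun i => i.elim a₀ a) v
  have hc0 : ∀ i, c i ≠ 0 := by
    rintro ((_ | j) | i)
    · exact x_ne hSK
    · exact u_ne hSK j
    · intro h0
      have h1 : (b i : Eis) = 0 := h0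
      exact b_ne hSG i (cast_zero h1)
  let A : Option (Fin k) ⊕ Fin s → L := Sum.elim (fun i => i.elim θ₀ θ) η
  have hA : ∀ i, A i ^ 3 = ι (c i) := by
    rintro ((_ | j) | i)
    · exact hθ₀
    · exact hθ j
    · exact (hη i).trans (map_intCast ι (b i)).symm
  obtain ⟨g, hg⟩ := hKUM F L ⟨ι w, GKK.mem_F ι w⟩ (Option (Fin k) ⊕ Fin s)
    (fun i => ⟨ι (c i), GKK.mem_F ι _⟩) A
    (by
      apply Subtype.ext
      push_cast
      exact hω)
    (by
      intro i h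
      have h1 : ι (c i) = 0 := congrArg Subtype.val h
      exact hc0 i (GKK.inj ι (by rw [h1, map_zero])))
    (fun i => hA i)
    (by
      rintro n ⟨β, hβ⟩
      have h1 : ι (∏ i, c i ^ n i) = (β : L) ^ 3 := by
        have h2 := congrArg (algebraMap F L) hβ
        rw [map_pow, map_prod] at h2
        rw [map_prod]
        refine Eq.trans ?_ h2
        refine Finset.prod_congr rfl fun i _ => ?_
        rw [map_pow, map_pow]
        rfl
      obtain ⟨t, ht⟩ := GKK.cube_of ι β.2 h1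
      rw [Fintype.prod_sum_type, Fintype.prod_option] at ht
      obtain ⟨h3, h4, h5⟩ := indep hSG hSK (n (Sum.inl none)) (fun j => n (Sum.inl (some j)))
        (fun i => n (Sum.inr i)) t ht
      rintro ((_ | j) | i)
      · exact h3
      · exact h4 j
      · exact h5 i)
    V
  have hgω : g (ι w) = ι w := g.commutes (⟨ι w, GKK.mem_F ι w⟩ : F)
  have hroot : ∀ (i : Option (Fin k) ⊕ Fin s) (ρ : L), ρ ^ 3 = ι (c i) →
      g ρ = ι w ^ (V i).val * ρ := by
    intro i ρ hρ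
    obtain ⟨l, hl⟩ := Pool.Agent.PT.GT.of_cube hω (hρ.trans (hA i).symm)
    have h2 := hg i
    change g (A i) = ι w ^ (V i).val * A i at h2
    rw [hl, map_mul, h2, Pool.Agent.PT.GT.E, map_pow, hgω]
    ring
  refine ⟨g.restrictScalars ℚ, hgω, fun ρ hρ => ?_, fun j ρ hρ => ?_, fun i ρ hρ => ?_⟩
  · exact hroot (Sum.inl none) ρ hρ
  · exact hroot (Sum.inl (some j)) ρ hρ
  · exact hroot (Sum.inr i) ρ (hρ.trans (map_intCast ι (b i)).symm)

end Pool.Agent.PTK

end

section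

/-!
# MKU: Kummer theory over `K = Q(w)` for all classes together, several base classes
-/

set_option autoImplicit false

open NumberField IsDedekindDomain Finset
open scoped nonZeroDivisors Pointwise

namespace Pool.Agent.PTK

open Pool.Agent.Lib_helper18 Pool.Agent.Lib_helper18.Eis Pool.Agent.Lib_helper84.Cub
open Pool.Agent.PT Pool.Agent.PTE Pool.Agent.PT3 Pool.Agent.PTL Pool.Agent.PTN

namespace MKU

theorem z_ne {M N : ℕ} {z : Fin M → Eis} {α β : Fin N → Fin M} {P Q P' Q' : Fin N → Eis}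
    (hS : SysZ z α β P Q P' Q') (j : Fin M) : z j ≠ 0 := by
  intro hj
  refine hS.ind (fun l => if l = j then 1 else 0) ⟨j, by simp⟩ ⟨0, ?_⟩
  rw [zero_pow three_ne_zero]
  symm
  exact Finset.prod_eq_zero (Finset.mem_univ j) (by simp [hj])

/-- Independence of all classes. -/
theorem indep {s M N : ℕ} {b : Fin s → ℤ} {p q p' q' : Fin s → Fin s → ℤ}
    {z : Fin M → Eis} {α β : Fin N → Fin M} {P Q P' Q' : Fin N → Eis}
    (hG : SysG b p q p' q') (hS : SysZ z α β P Q P' Q')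
    (c : Fin M → ℕ) (d : Fin s → ℕ) (t : Eis)
    (h : t ^ 3 = (∏ j, z j ^ c j) * ∏ i, (b i : Eis) ^ d i) :
    (∀ j, 3 ∣ c j) ∧ ∀ i, 3 ∣ d i := by
  have hz0 : ∀ j, z j ≠ 0 := z_ne hS
  have hb0 : ∀ i, b i ≠ 0 := JKU.b_ne hG
  choose tz htz using hS.cz
  obtain ⟨Z, hZ⟩ : ∃ Z : Eis, Z = ∏ j, z j ^ c j := ⟨_, rfl⟩
  obtain ⟨D, hD⟩ : ∃ D : ℤ, D = ∏ i, b i ^ d i := ⟨_, rfl⟩
  obtain ⟨t₁, ht₁⟩ : ∃ t₁ : Eis, t₁ = ∏ j, tz j ^ c j := ⟨_, rfl⟩
  have hDE : (∏ i, (b i : Eis) ^ d i) = (D : Eis) := by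
    rw [hD, Int.cast_prod]
    exact Finset.prod_congr rfl fun i _ => (Int.cast_pow _ _).symm
  have hD0 : D ≠ 0 := by
    rw [hD]
    exact Finset.prod_ne_zero_iff.2 fun i _ => pow_ne_zero _ (hb0 i)
  have hZ0 : Z ≠ 0 := by
    rw [hZ]
    exact Finset.prod_ne_zero_iff.2 fun i _ => pow_ne_zero _ (hz0 i)
  rw [hDE, ← hZ] at h
  have hZZ : Z * conj Z = t₁ ^ 3 := by
    rw [hZ, ht₁, map_prod, ← Finset.prod_mul_distrib, ← Finset.prod_pow]
    refine Finset.prod_congr rfl fun j _ => ?_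
    rw [map_pow, ← mul_pow, htz j, ← pow_mul, ← pow_mul, mul_comm]
  have ht₁0 : t₁ ≠ 0 := by
    rintro rfl
    rw [zero_pow three_ne_zero, mul_conj] at hZZ
    have h2 : Z.norm = 0 := JKU.cast_zero hZZ
    exact hZ0 (norm_eq_zero.1 h2)
  have hc : conj t ^ 3 = conj Z * D := by
    rw [← map_pow, h, map_mul, conj_intCast]
  have hNN : (t * conj t) ^ 3 = t₁ ^ 3 * (D : Eis) ^ 2 := by
    rw [mul_pow, h, hc, ← hZZ]
    ring
  obtain ⟨r, hr⟩ := JKU.dvd_cube (⟨_, hNN⟩ : t₁ ^ 3 ∣ (t * conj t) ^ 3)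
  have hr3 : r ^ 3 = (D : Eis) ^ 2 := by
    apply mul_left_cancel₀ (pow_ne_zero 3 ht₁0)
    rw [← hNN, hr]
    ring
  obtain ⟨m, hm⟩ := JKU.cube_int hD0 hr3
  have hd : ∀ i, 3 ∣ d i := by
    by_contra hcon
    push Not at hcon
    exact hG.ind d hcon ⟨m, by rw [hm, hD]⟩
  have hm0 : (m : Eis) ≠ 0 := by
    intro h0
    have h1 : ((m ^ 3 : ℤ) : Eis) = 0 := by
      rw [Int.cast_pow, h0, zero_pow three_ne_zero]
    rw [hm] at h1
    exact hD0 (JKU.cast_zero h1)
  have h3 : t ^ 3 = (m : Eis) ^ 3 * Z := by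
    rw [h, ← hm, Int.cast_pow]
    ring
  obtain ⟨t', ht'⟩ := JKU.dvd_cube (⟨Z, h3⟩ : (m : Eis) ^ 3 ∣ t ^ 3)
  have h4 : t' ^ 3 = Z := by
    apply mul_left_cancel₀ (pow_ne_zero 3 hm0)
    rw [← h3, ht']
    ring
  have h5 : ¬ ∃ j, ¬ 3 ∣ c j := fun hcon => hS.ind c hcon ⟨t', by rw [h4, hZ]⟩
  push Not at h5
  exact ⟨h5, hd⟩

end MKU

open _root_.Pool.Agent.PTK.MKU in
/-- MKU: Kummer theory over `K` for all classes together. -/
theorem MKU_thm (hKUM : KUM) : Stmt_MKU := by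
  intro s M N b p q p' q' z α β P Q P' Q' f L _ _ ζ ι hSG hSZ hJ a v
  have hω := GTK.rel ι
  have := hJ.minus.gal
  choose θ hθ using hJ.minus.rz
  choose η hη using hJ.plus.root
  let F := IntermediateField.adjoin ℚ {ι w}
  let c : Fin M ⊕ Fin s → Eis := Sum.elim z (fun i => (b i : Eis))
  let V : Fin M ⊕ Fin s → ZMod 3 := Sum.elim a v
  have hc0 : ∀ i, c i ≠ 0 := by
    rintro (j | i)
    · exact z_ne hSZ j
    · intro h0
      have h1 : (b i : Eis) = 0 := h0
      exact JKU.b_ne hSG i (JKU.cast_zero h1)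
  let A : Fin M ⊕ Fin s → L := Sum.elim θ η
  have hA : ∀ i, A i ^ 3 = ι (c i) := by
    rintro (j | i)
    · exact hθ j
    · exact (hη i).trans (map_intCast ι (b i)).symm
  obtain ⟨g, hg⟩ := hKUM F L ⟨ι w, GKK.mem_F ι w⟩ (Fin M ⊕ Fin s)
    (fun i => ⟨ι (c i), GKK.mem_F ι _⟩) A
    (by
      apply Subtype.ext
      push_cast
      exact hω)
    (by
      intro i h
      have h1 : ι (c i) = 0 := congrArg Subtype.val h
      exact hc0 i (GKK.inj ι (by rw [h1, map_zero])))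
    (fun i => hA i)
    (by
      rintro n ⟨β', hβ⟩
      have h1 : ι (∏ i, c i ^ n i) = (β' : L) ^ 3 := by
        have h2 := congrArg (algebraMap F L) hβ
        rw [map_pow, map_prod] at h2
        rw [map_prod]
        refine Eq.trans ?_ h2
        refine Finset.prod_congr rfl fun i _ => ?_
        rw [map_pow, map_pow]
        rfl
      obtain ⟨t, ht⟩ := GKK.cube_of ι β'.2 h1
      rw [Fintype.prod_sum_type] at ht
      obtain ⟨h4, h5⟩ := indep hSG hSZ (fun j => n (Sum.inl j)) (fun i => n (Sum.inr i)) t ht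
      rintro (j | i)
      · exact h4 j
      · exact h5 i)
    V
  have hgω : g (ι w) = ι w := g.commutes (⟨ι w, GKK.mem_F ι w⟩ : F)
  have hroot : ∀ (i : Fin M ⊕ Fin s) (ρ : L), ρ ^ 3 = ι (c i) →
      g ρ = ι w ^ (V i).val * ρ := by
    intro i ρ hρ
    obtain ⟨l, hl⟩ := Pool.Agent.PT.GT.of_cube hω (hρ.trans (hA i).symm)
    have h2 := hg i
    change g (A i) = ι w ^ (V i).val * A i at h2
    rw [hl, map_mul, h2, Pool.Agent.PT.GT.E, map_pow, hgω]
    ring
  refine ⟨g.restrictScalars ℚ, hgω, fun j ρ hρ => ?_, fun i ρ hρ => ?_⟩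
  · exact hroot (Sum.inl j) ρ hρ
  · exact hroot (Sum.inr i) ρ (hρ.trans (map_intCast ι (b i)).symm)

end Pool.Agent.PTK

end
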