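import Mathlib
import Pool.Agent.PTWX.C39
import Pool.Agent.PTWX.C46
import Pool.Agent.PTWX.C47
import Pool.Agent.PTWX.C54
import Pool.Agent.PTWX.C57

/-! Parts: PT3.EMA0, PTN.KEMB, PTN.GALDU, PTN.DLU, PTKX.F3E -/

namespace Pool.Agent.PTN.DLU
end Pool.Agent.PTN.DLU

section

/-!
# PT3, EMA0: the number of the classes with an invertible matrix
-/

namespace Pool.Agent.PT3

open Pool.Agent.PT Pool.Agent.PTE

namespace EMA0

/-- The matrix of a class is the matrix of the class `0` minus a diagonal matrix. -/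
theorem Mp_eq (n m k : ℕ) (π : Fin m → PP) (p e : Fin m → ℕ) (r : Fin k → ℕ)
    (c : Fin m → ZMod 3) :
    Mp n π p e r none c =
      Mp n π p e r none (fun _ => 0) -
        Matrix.diagonal (Fin.cons 0 c : Fin (m + 1) → ZMod 3) := by
  ext a b
  rw [Matrix.sub_apply, Matrix.diagonal_apply]
  refine Fin.cases ?_ (fun i => ?_) a
  · rw [Fin.cons_zero, ite_self, sub_zero]
    rfl
  · refine Fin.cases ?_ (fun i' => ?_) b
    · rw [if_neg (Fin.succ_ne_zero i), sub_zero]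
      rfl
    · by_cases h : i' = i
      · subst h
        rw [if_pos rfl, Fin.cons_succ]
        simp only [Mp, Fin.cases_succ, if_true, sub_zero]
      · rw [if_neg (fun h' => h (Fin.succ_injective _ h').symm), sub_zero]
        simp only [Mp, Fin.cases_succ, if_neg h]

end EMA0

theorem EMA0_thm (hEDC : EDC) : EMA0 := by
  intro n m k π p e r
  have h := hEDC m (Mp n π p e r none (fun _ => 0)) (by
    have : Mp n π p e r none (fun _ => 0) 0 0 = 1 := rfl
    rw [this]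
    exact one_ne_zero)
  refine h.trans (le_of_eq (Nat.card_congr (Equiv.subtypeEquivRight fun c => ?_)))
  rw [EMA0.Mp_eq n m k π p e r c]

end Pool.Agent.PT3

end

section

/-!
# PTN_KEMB: the rational points and complex conjugation (statement of helper3)
-/

set_option autoImplicit false

namespace Pool.Agent.PTN.KEMB

open Pool.Agent.Lib_helper18 Pool.Agent.Lib_helper18.Eis Pool.Agent.Lib_helper84.Cub
open Pool.Agent.PT WeierstrassCurve.Affine

/-- the points over the rationals of the base change to the rationals are the rational points -/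
noncomputable def idHom (A : ℤ) :
    CubeRank.GA A →+ (WeierstrassCurve.Affine.baseChange (CubeRank.EA A).toAffine ℚ).Point :=
  AddMonoidHom.id _

theorem idHom_some (A : ℤ) (x y : ℚ) (h) : ∃ h', idHom A (.some x y h) = .some x y h' := ⟨h, rfl⟩

theorem idHom_injective (A : ℤ) : Function.Injective (idHom A) := fun _ _ h => h

variable {K : Type} [Field K] [CharZero K]

/-- an element fixed by the conjugation is rational -/
theorem rational_of_fixed {ι : Eis →+* K} {c : K →ₐ[ℚ] K} (hK : KF K ι c) {z : K} (hz : c z = z) :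
    ∃ q : ℚ, z = (q : K) := by
  obtain ⟨e, d, hd, he⟩ := hK.frac z
  have hd' : (d : K) ≠ 0 := Int.cast_ne_zero.mpr hd
  have h1 : ι (conj e) = ι e := by
    rw [← hK.conj e, ← he, map_mul, hz, map_intCast]
  have h2 : conj e = e := hK.inj h1
  have h3 : e.im = 0 := by
    have := congrArg Eis.im h2
    rw [conj_im] at this
    omega
  have h4 : e = (e.re : Eis) := by
    ext
    · simp
    · simp [h3]
  refine ⟨(e.re : ℚ) / (d : ℚ), ?_⟩
  rw [h4, map_intCast] at he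
  push_cast
  rw [eq_div_iff hd', he]

theorem _root_.Pool.Agent.PTN.KEMB_thm : Stmt_KEMB := by
  intro K _ _ _ ι c A hK hA
  refine ⟨Point.map c, (Point.map (W' := (CubeRank.EA A).toAffine) (Algebra.ofId ℚ K)).comp
    (idHom A), ?_, ?_, ?_, ?_, ?_⟩
  · intro x y h
    exact ⟨_, rfl⟩
  · intro x y h
    refine ⟨((CubeRank.EA A).toAffine.baseChange_nonsingular (Algebra.ofId ℚ K).injective ..).mpr
      h, rfl⟩
  · exact (Point.map_injective _).comp (idHom_injective A)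
  · intro Q
    rcases Q with _ | ⟨x, y, h⟩
    · rfl
    · have hcc : ∀ z : K, c (c z) = z := by
        intro z
        obtain ⟨e, d, hd, he⟩ := hK.frac z
        have hd' : (d : K) ≠ 0 := Int.cast_ne_zero.mpr hd
        have h1 : c (c z) * d = z * d := by
          calc c (c z) * d = c (c (z * d)) := by simp only [map_mul, map_intCast]
            _ = z * d := by rw [he, hK.conj, hK.conj, conj_conj]
        exact mul_right_cancel₀ hd' h1
      change Point.some _ _ _ = Point.some _ _ _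
      simp only [Point.some.injEq]
      exact ⟨hcc x, hcc y⟩
  · intro Q
    constructor
    · intro hQ
      rcases Q with _ | ⟨x, y, h⟩
      · exact ⟨0, rfl⟩
      · change Point.some _ _ _ = Point.some _ _ _ at hQ
        simp only [Point.some.injEq] at hQ
        obtain ⟨q, rfl⟩ := rational_of_fixed hK hQ.1
        obtain ⟨r, rfl⟩ := rational_of_fixed hK hQ.2
        exact ⟨.some q r (((CubeRank.EA A).toAffine.baseChange_nonsingular
          (Algebra.ofId ℚ K).injective ..).mp h), rfl⟩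
    · rintro ⟨P, rfl⟩
      rcases P with _ | ⟨x, y, h⟩
      · rfl
      · change Point.some _ _ _ = Point.some _ _ _
        simp only [Point.some.injEq]
        exact ⟨c.commutes x, c.commutes y⟩

end Pool.Agent.PTN.KEMB

end

section

/-!
# The law of the ranks of prime twists for every `n`: summary of the governing field
-/

set_option autoImplicit false

open NumberField IsDedekindDomain Finset
open scoped nonZeroDivisors Pointwise

namespace Pool.Agent.PTN

open Pool.Agent.Lib_helper18 Pool.Agent.Lib_helper18.Eis Pool.Agent.Lib_helper84.Cub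
open Pool.Agent.PT Pool.Agent.PTE Pool.Agent.PT3 Pool.Agent.PTL
open Pool.Agent.PT.GALD Pool.Agent.PTE.GALDS

theorem GALDU_thm (hGZEROG : GZEROG) (hGCHI : GCHI) (hGCG : GCG) (hGKUM : GKUM) (hGTS : GTS)
    (hGFRU : Stmt_GFRU) : Stmt_GALDU := by
  classical
  intro s b p q p' q' f hSys hf h9
  obtain ⟨L, hF, hN, ζ, ω, hG⟩ := hGZEROG (s + 1) b p q p' q' f hSys hf h9
  have hgal := hG.gal
  obtain ⟨χ, hχs, hχζ, hχF⟩ := hGCHI L f ζ hf hG.prim
  obtain ⟨N₀, hFr⟩ := hGFRU s b p q p' q' f L ζ ω hSys hG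
  have hω3 : ω ^ 3 = 1 := om_cube hG.rel
  have hf1 : 1 < f := by
    obtain ⟨c, hc⟩ := h9
    omega
  have h3f : 3 ∣ f := (by norm_num : (3 : ℕ) ∣ 9).trans h9
  have hfz : NeZero f := ⟨hf.ne'⟩
  obtain ⟨hT1, hT⟩ := hGTS s b p q p' q' f L ζ ω hSys hG
  -- action on ω
  have hωχ : ∀ g : L ≃ₐ[ℚ] L, g ω = ω ^ ((χ g : ZMod f)).val := by
    intro g
    rw [hG.hω, map_pow, hχζ g, ← pow_mul, mul_comm, pow_mul, ← hG.hω]
  have hM : ∀ g : L ≃ₐ[ℚ] L, M1 (χ g) → g ω = ω := by
    intro g hg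
    rw [hωχ g]
    conv_rhs => rw [← pow_one ω]
    apply om_congr hω3
    unfold M1 at hg
    omega
  have hb0 : ∀ j, b j ≠ 0 := by
    intro j h0
    refine hSys.ind (Pi.single j 1) ⟨j, by simp⟩ ⟨0, ?_⟩
    have h1 : ∏ i, b i ^ (Pi.single j 1 : Fin (s + 1) → ℕ) i = 0 := by
      refine Finset.prod_eq_zero (Finset.mem_univ j) ?_
      rw [Pi.single_eq_same, pow_one, h0]
    rw [h1]
    norm_num
  have hz1 : ∀ z : L ≃ₐ[ℚ] L, z ζ = ζ → z ω = ω ∧ χ z = 1 := by
    intro z hzζ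
    refine ⟨by rw [hG.hω, map_pow, hzζ], ?_⟩
    have h1 := hχζ z
    rw [hzζ] at h1
    have h2 : ((χ z : ZMod f)).val = 1 := by
      apply hG.prim.pow_inj (ZMod.val_lt _) hf1
      rw [← h1, pow_one]
    apply Units.ext
    have h3 := ZMod.natCast_zmod_val (χ z : ZMod f)
    rw [h2] at h3
    rw [← h3]
    simp
  let t : (L ≃ₐ[ℚ] L) → Fin s → Fin s → ZMod 3 := fun g j i =>
    if h : j ≠ i ∧ g ω = ω ∧ Fx b g then ((hT j i h.1).1 g h.2.1 h.2.2).choose else 0
  have ht : ∀ (g : L ≃ₐ[ℚ] L) (j i : Fin s), j ≠ i → g ω = ω → Fx b g →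
      IsTS b p q p' q' ω g j.castSucc i.castSucc (t g j i) := by
    intro g j i hji hg hF
    have h : j ≠ i ∧ g ω = ω ∧ Fx b g := ⟨hji, hg, hF⟩
    have e : t g j i = ((hT j i h.1).1 g h.2.1 h.2.2).choose := dif_pos h
    rw [e]
    exact ((hT j i h.1).1 g h.2.1 h.2.2).choose_spec.1
  have htu : ∀ (g : L ≃ₐ[ℚ] L) (j i : Fin s) (c : ZMod 3), j ≠ i → g ω = ω → Fx b g →
      IsTS b p q p' q' ω g j.castSucc i.castSucc c → t g j i = c := by
    intro g j i c hji hg hF hc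
    exact ((hT j i hji).1 g hg hF).unique (ht g j i hji hg hF) hc
  refine ⟨L, hF, hN, hG.gal, χ, Fx b, t, N₀, hχs, ?_, ?_, ?_, ?_, ?_⟩
  · intro g τ hg hFg
    obtain ⟨_, h1, _⟩ := hT1 g (hM g hg) hFg
    obtain ⟨h2, h3⟩ := h1 τ
    refine ⟨h3, fun j i hji => ?_⟩
    exact htu _ _ _ _ hji h2 h3 ((hT j i hji).2.1 g τ _ (hM g hg) hFg (ht g j i hji (hM g hg) hFg))
  · intro g k hg hFg hk
    obtain ⟨_, _, h1⟩ := hT1 g (hM g hg) hFg
    obtain ⟨h2, h3⟩ := h1 k
    refine ⟨h3 hk, fun j i hji => ?_⟩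
    exact htu _ _ _ _ hji h2 (h3 hk) ((hT j i hji).2.2 g _ k (hM g hg)
      (ht g j i hji (hM g hg) hFg))
  · intro a v v' ha
    obtain ⟨z, hzζ, hzρ, hzA⟩ := hGCG (s + 1) b p q p' q' f L ζ ω hSys hG
      (fun j i => if h : j ≠ Fin.last s ∧ i ≠ Fin.last s then
        v' (j.castPred h.1) (i.castPred h.2) - v (j.castPred h.1) (i.castPred h.2) else 0)
    obtain ⟨hzω, hχz⟩ := hz1 z hzζ
    have hFz : ∀ g : L ≃ₐ[ℚ] L, Fx b (g * z) ↔ Fx b g := by
      intro g
      have h1 : ∀ (j : Fin (s + 1)) (ρ : L), ρ ^ 3 = (b j : L) → (g * z) ρ = g ρ := by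
        intro j ρ hρ
        rw [AlgEquiv.mul_apply, hzρ j ρ hρ]
      unfold Fx
      constructor
      · rintro ⟨h2, h3⟩
        exact ⟨fun j ρ hρ => by rw [← h1 _ ρ hρ]; exact h2 j ρ hρ,
          fun ρ hρ => by rw [← h1 _ ρ hρ]; exact h3 ρ hρ⟩
      · rintro ⟨h2, h3⟩
        exact ⟨fun j ρ hρ => by rw [h1 _ ρ hρ]; exact h2 j ρ hρ,
          fun ρ hρ => by rw [h1 _ ρ hρ]; exact h3 ρ hρ⟩
    have key : ∀ g : L ≃ₐ[ℚ] L, g ω = ω → Fx b g → ∀ j i, j < i →
        t (g * z) j i = (v' j i - v j i) + t g j i := by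
      intro g hg hFg j i hji
      have hgz : (g * z) ω = ω := by rw [AlgEquiv.mul_apply, hzω, hg]
      apply htu _ _ _ _ hji.ne hgz ((hFz g).2 hFg)
      intro ρ A hρ hA
      have h1 := ht g j i hji.ne hg hFg ρ A hρ hA
      have h2 := hzA j.castSucc i.castSucc (Fin.castSucc_lt_castSucc_iff.2 hji) ρ A hρ hA
      have h3 : j.castSucc ≠ Fin.last s ∧ i.castSucc ≠ Fin.last s :=
        ⟨(Fin.castSucc_lt_last j).ne, (Fin.castSucc_lt_last i).ne⟩
      simp only [dif_pos h3, Fin.castPred_castSucc] at h2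
      rw [AlgEquiv.mul_apply, h2, map_mul, map_pow, hg, h1, ← mul_assoc, om_add hω3]
    apply Nat.card_congr
    refine Equiv.subtypeEquiv (Equiv.mulRight z) ?_
    intro g
    have hχ : χ (g * z) = χ g := by rw [map_mul, hχz, mul_one]
    show (χ g = a ∧ Fx b g ∧ ∀ j i, j < i → t g j i = v j i) ↔
      (χ (g * z) = a ∧ Fx b (g * z) ∧ ∀ j i, j < i → t (g * z) j i = v' j i)
    rw [hχ, hFz g]
    constructor
    · rintro ⟨h1, h2, h3⟩
      refine ⟨h1, h2, fun j i hji => ?_⟩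
      rw [key g (hM g (by rw [h1]; exact ha)) h2 j i hji, h3 j i hji]
      ring
    · rintro ⟨h1, h2, h3⟩
      refine ⟨h1, h2, fun j i hji => ?_⟩
      have h4 := h3 j i hji
      rw [key g (hM g (by rw [h1]; exact ha)) h2 j i hji] at h4
      linear_combination h4
  · intro a ha
    choose θ hθ using hG.root
    have hθ0 : ∀ j, θ j ≠ 0 := by
      intro j h0
      have h1 := hθ j
      rw [h0] at h1
      apply hb0 j
      have h2 : ((b j : ℤ) : L) = 0 := by rw [← h1]; norm_num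
      exact_mod_cast h2
    have hex : ∀ (g : L ≃ₐ[ℚ] L) (j : Fin (s + 1)), ∃ u : ZMod 3, g (θ j) = ω ^ u.val * θ j := by
      intro g j
      apply cube_root hG.rel
      rw [← map_pow, hθ j, map_intCast]
    choose uu huu using hex
    have huniq : ∀ (g : L ≃ₐ[ℚ] L) (j : Fin (s + 1)) (u : ZMod 3), g (θ j) = ω ^ u.val * θ j →
        uu g j = u := by
      intro g j u h
      apply om_zmod_inj hG.rel (hθ0 j)
      rw [← huu g j, h]
    -- criterion for `Fx`
    have hFu : ∀ g : L ≃ₐ[ℚ] L, g ω = ω → (Fx b g ↔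
        (∀ j : Fin s, uu g j.castSucc = 0) ∧ uu g (Fin.last s) ≠ 0) := by
      intro g hg
      constructor
      · rintro ⟨h1, h2⟩
        refine ⟨fun j => ?_, fun h0 => ?_⟩
        · apply huniq
          rw [h1 j _ (hθ _)]
          simp
        · apply h2 _ (hθ _)
          rw [huu, h0]
          simp
      · rintro ⟨h1, h2⟩
        have h3 : ∀ (j : Fin (s + 1)) (ρ : L), ρ ^ 3 = (b j : L) →
            g ρ = ω ^ (uu g j).val * ρ := by
          intro j ρ hρ
          obtain ⟨u, hu⟩ := cube_root hG.rel (θ := θ j) (ρ := ρ) (by rw [hρ, hθ])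
          rw [hu, map_mul, map_pow, hg, huu]
          ring
        refine ⟨fun j ρ hρ => ?_, fun ρ hρ h4 => ?_⟩
        · rw [h3 _ ρ hρ, h1 j]
          simp
        · rw [h3 _ ρ hρ] at h4
          have hρ0 : ρ ≠ 0 := by
            intro h0
            rw [h0] at hρ
            apply hb0 (Fin.last s)
            have h5 : ((b (Fin.last s) : ℤ) : L) = 0 := by rw [← hρ]; norm_num
            exact_mod_cast h5
          apply h2
          apply om_zmod_inj hG.rel hρ0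
          rw [h4]
          simp
    have hfib : ∀ w w' : Fin (s + 1) → ZMod 3,
        (univ.filter fun g : L ≃ₐ[ℚ] L => χ g = a ∧ uu g = w).card =
        (univ.filter fun g : L ≃ₐ[ℚ] L => χ g = a ∧ uu g = w').card := by
      intro w w'
      obtain ⟨z, hzζ, hzρ⟩ := hGKUM (s + 1) b p q p' q' f L ζ ω hSys hG (w' - w)
      obtain ⟨hzω, hχz⟩ := hz1 z hzζ
      have key : ∀ g : L ≃ₐ[ℚ] L, g ω = ω → uu (g * z) = (w' - w) + uu g := by
        intro g hg
        funext j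
        apply huniq
        rw [AlgEquiv.mul_apply, hzρ j _ (hθ j), map_mul, map_pow, hg, huu, ← mul_assoc,
          om_add hω3]
        rfl
      refine Finset.card_bij (fun g _ => g * z) ?_ ?_ ?_
      · intro g hg
        rw [mem_filter] at hg ⊢
        obtain ⟨_, h1, h2⟩ := hg
        refine ⟨mem_univ _, by rw [map_mul, hχz, mul_one, h1], ?_⟩
        rw [key g (hM g (by rw [h1]; exact ha)), h2]
        abel
      · intro g _ g' _ e
        exact mul_right_cancel e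
      · intro g hg
        rw [mem_filter] at hg
        obtain ⟨_, h1, h2⟩ := hg
        have h3 : g * z⁻¹ * z = g := inv_mul_cancel_right g z
        have h4 : χ (g * z⁻¹) = a := by rw [map_mul, map_inv, hχz, inv_one, mul_one, h1]
        refine ⟨g * z⁻¹, ?_, h3⟩
        rw [mem_filter]
        refine ⟨mem_univ _, h4, ?_⟩
        have h5 := key (g * z⁻¹) (hM _ (by rw [h4]; exact ha))
        rw [h3, h2] at h5
        funext j
        have h7 := congrFun h5 j
        simp only [Pi.add_apply, Pi.sub_apply] at h7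
        linear_combination (-1 : ZMod 3) * h7
    have hsub : ∀ (D : Finset (Fin (s + 1) → ZMod 3)),
        (univ.filter fun g : L ≃ₐ[ℚ] L => χ g = a ∧ uu g ∈ D).card =
        D.card * (univ.filter fun g : L ≃ₐ[ℚ] L => χ g = a ∧ uu g = 0).card := by
      intro D
      rw [Finset.card_eq_sum_card_fiberwise (f := uu) (t := D)]
      · rw [← smul_eq_mul, ← Finset.sum_const]
        refine Finset.sum_congr rfl fun w hw => ?_
        rw [← hfib w 0, Finset.filter_filter]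
        congr 1
        apply Finset.filter_congr
        intro g _
        constructor
        · rintro ⟨⟨h1, _⟩, h2⟩
          exact ⟨h1, h2⟩
        · rintro ⟨h1, h2⟩
          exact ⟨⟨h1, by rw [h2]; exact hw⟩, h2⟩
      · intro g hg
        have h1 := (mem_filter.1 (Finset.mem_coe.1 hg)).2.2
        exact h1
    have h1 : Nat.card {g : L ≃ₐ[ℚ] L // χ g = a} =
        3 ^ (s + 1) * (univ.filter fun g : L ≃ₐ[ℚ] L => χ g = a ∧ uu g = 0).card := by
      rw [Nat.card_eq_fintype_card, Fintype.card_subtype]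
      have h2 := hsub univ
      simp only [mem_univ, and_true] at h2
      rw [h2, Finset.card_univ, Fintype.card_fun, ZMod.card, Fintype.card_fin]
    have h2 : Nat.card {g : L ≃ₐ[ℚ] L // χ g = a ∧ Fx b g} =
        2 * (univ.filter fun g : L ≃ₐ[ℚ] L => χ g = a ∧ uu g = 0).card := by
      rw [Nat.card_eq_fintype_card, Fintype.card_subtype]
      have h2 := hsub (univ.filter fun w : Fin (s + 1) → ZMod 3 =>
        (∀ j : Fin s, w j.castSucc = 0) ∧ w (Fin.last s) ≠ 0)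
      rw [card_good] at h2
      rw [← h2]
      congr 1
      apply Finset.filter_congr
      intro g _
      constructor
      · rintro ⟨h3, h4⟩
        refine ⟨h3, mem_filter.2 ⟨mem_univ _, ?_⟩⟩
        exact (hFu g (hM g (by rw [h3]; exact ha))).1 h4
      · rintro ⟨h3, h4⟩
        exact ⟨h3, (hFu g (hM g (by rw [h3]; exact ha))).2 (mem_filter.1 h4).2⟩
    rw [h1, h2]
    ring
  · intro Q hQ hQp hN₀ P g hP hQP hst
    have hfin := GFR.quo_finite hQp hP hQP
    obtain ⟨k, hk, hfr⟩ := GFR.exists_frob_gen (R := ℤ) P g hst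
    have hχk := hχF Q hQ hQp P (g ^ k) hP hQP hfr
    refine ⟨k, hk, hχk, fun hQ3 ρ hρ => ?_⟩
    obtain ⟨h1, h2⟩ := hFr Q hQp hN₀ hQ3 P hP hQP (g ^ k) hfr ρ hρ
    have hM1 : M1 (χ (g ^ k)) := by
      unfold M1
      rw [hχk, ZMod.coe_unitOfCoprime, ZMod.val_natCast, Nat.mod_mod_of_dvd _ h3f]
      exact hQ3
    refine ⟨h1, fun hF j i hji r hr => ?_⟩
    exact h2 hF j i hji r _ hr (ht (g ^ k) j i hji (hM _ hM1) hF)

end Pool.Agent.PTN

end

section

/-!
# The law of the ranks of prime twists: the distribution of the rank for a given pattern,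
`q = 1 (mod 3)`, upper bound
-/

set_option autoImplicit false

open NumberField IsDedekindDomain Finset
open scoped nonZeroDivisors Pointwise

namespace Pool.Agent.PTN

open Pool.Agent.Lib_helper18 Pool.Agent.Lib_helper18.Eis Pool.Agent.Lib_helper84.Cub
open Pool.Agent.PT Pool.Agent.PTE Pool.Agent.PT3 Pool.Agent.PTL

namespace DLU

theorem BB_eq (h n E q : ℕ) : BB h n E q = ((3 ^ h * n : ℕ) : ℤ) * (q : ℤ) ^ E := by
  unfold BB
  push_cast
  rfl

theorem cons_eq {m : ℕ} {x y : Fin (m + 1) → ZMod 3} (h0 : x 0 = y 0)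
    (h1 : ∀ i : Fin m, x i.succ = y i.succ) : x = y := by
  funext i
  exact Fin.cases h0 h1 i

theorem neg_of_two {x y : ZMod 3} (h : 2 * x = y) : x = -y := by
  revert x y
  decide

end DLU

open _root_.Pool.Agent.PTN.DLU in
/-- PTN_DLU: the distribution of the rank for a given pattern, upper bound. -/
theorem DLU_thm (hESYT : ESYT) (hDCOU : DCOU) (hCLSC : CLSC) (hCLSCS : CLSCS)
    (hNBKU : Stmt_NBKU) (hBDU : Stmt_BDU) (hTENT : TENT) (hNADU : Stmt_NADU)
    (hSPLT : SPLT) : Stmt_DLU := by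
  intro h n m k π p e r f w0 c d v hNF hh hHB δ hδ t
  obtain ⟨hv, hspan, hδ'⟩ := hHB
  obtain ⟨s, τ, b, X, Y, hs, hAdN, hV, hind, h3, hLam, hρ⟩ := hδ' δ hδ
  obtain ⟨P, Q, P', Q', hSys, hSw⟩ := hESYT h n m k π p e r f w0 c (s + 1) b hNF
    (fun i => (hAdN i).1) hV hind h3
  have hn : 0 < n := FINAS.pos_of_nf hNF
  have hN0 : 0 < 3 ^ h * n := Nat.mul_pos (pow_pos (by norm_num) _) hn
  have hb : ∀ i, b i ≠ 0 := fun i => (hAdN i).1.ne
  have hD : ∀ j i : Fin s, ∃ f₀ : ℕ, 0 < f₀ ∧ ∀ F : ℕ, 0 < F → f₀ ∣ F →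
      ∃ (C : ZMod 3) (Φ : (ZMod F)ˣ →* Multiplicative (ZMod 3)) (N₀ : ℕ), j ≠ i →
        ∀ (E q : ℕ) (hQ : q.Coprime F) (ρ : PP), (E = 1 ∨ E = 2) → q.Prime → N₀ < q →
          q % 3 = 1 → (q : Eis) = ρ.1 * conj ρ.1 →
          AG (BB h n E q) (b j.castSucc) → AG (BB h n E q) (b i.castSucc) →
          ∀ t : ℤ, (q : ℤ) ∣ t ^ 3 - b j.castSucc →
          OT (BB h n E q) (b j.castSucc) (X j) (Y j) (b i.castSucc) (rs P j i) (rs Q j i)
            (rs P' j i) (rs Q' j i) = C + E * ((Φ (ZMod.unitOfCoprime q hQ)).toAdd +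
              TAUVS ρ.1 (rs P j i) (rs Q j i) (rs P' j i) (rs Q' j i) t) := by
    intro j i
    by_cases hji : j = i
    · exact ⟨1, one_pos, fun F _ _ => ⟨0, 1, 0, fun h => absurd hji h⟩⟩
    · obtain ⟨f₀, hf₀, hf⟩ := hDCOU (3 ^ h * n) (b j.castSucc) (X j) (Y j) (b i.castSucc)
        (rs P j i) (rs Q j i) (rs P' j i) (rs Q' j i) hN0
        (hSys.sol j.castSucc i.castSucc fun h => hji (Fin.castSucc_injective _ h)) (hb _) (hb _)
      refine ⟨f₀, hf₀, fun F hF hd => ?_⟩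
      obtain ⟨C, Φ, N₀, h'⟩ := hf F hF hd
      refine ⟨C, Φ, N₀, fun _ E q hQ ρ hE hqp hqN hq3 hqρ hAj hAi t ht => ?_⟩
      rw [BB_eq] at hAj hAi ⊢
      exact h' E q hQ ρ hE hqp hqN hq3 hqρ hAj hAi t ht
  choose f₀ hf₀ hD1 using hD
  obtain ⟨F, hF, h9, hpF, hfF⟩ : ∃ F : ℕ, 0 < F ∧ 9 ∣ F ∧ (∀ i, p i ∣ F) ∧ ∀ j i, f₀ j i ∣ F := by
    refine ⟨9 * (∏ i, p i) * ∏ j, ∏ i, f₀ j i, ?_, ?_, ?_, ?_⟩
    · have h1 : 0 < ∏ i, p i := Finset.prod_pos fun i _ => (hNF.pp i).pos
      have h2 : 0 < ∏ j, ∏ i, f₀ j i :=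
        Finset.prod_pos fun j _ => Finset.prod_pos fun i _ => hf₀ j i
      positivity
    · exact Dvd.dvd.mul_right (Dvd.intro _ rfl) _
    · intro i
      exact Dvd.dvd.mul_right (Dvd.dvd.mul_left (Finset.dvd_prod_of_mem p (mem_univ i)) _) _
    · intro j i
      exact Dvd.dvd.mul_left ((Finset.dvd_prod_of_mem (fun i => f₀ j i) (mem_univ i)).trans
        (Finset.dvd_prod_of_mem (fun j => ∏ i, f₀ j i) (mem_univ j))) _
  choose C Φ N₀ hD2 using fun j i => hD1 j i F hF (hfF j i)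
  obtain ⟨κ, hκ, hcount⟩ := hCLSC m π p hNF.pp hNF.p1 hNF.pπ hNF.pinj F hF h9 hpF
  have hcount' := hCLSCS F m κ hF h9 hcount
  obtain ⟨K, hK⟩ := hBDU s b P Q P' Q' F m (t - vN h n π p e r w0 c) κ (Fin.cons w0 c) C
    (FINAS.assemble Φ) hSys hF h9 hcount'
  have hN : ∀ j i, N₀ j i ≤ ∑ j, ∑ i, N₀ j i := by
    intro j i
    exact (Finset.single_le_sum (f := fun i => N₀ j i) (fun i _ => Nat.zero_le _)
      (mem_univ i)).trans (Finset.single_le_sum (f := fun j => ∑ i, N₀ j i)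
        (fun j _ => Nat.zero_le _) (mem_univ j))
  obtain ⟨M, hM⟩ : ∃ M, M = n + F + 3 + ∑ j, ∑ i, N₀ j i := ⟨_, rfl⟩
  -- the matrix
  have hmat : ∀ (E q : ℕ), (E = 1 ∨ E = 2) → q.Prime → M < q →
      q ∈ WR h n π w0 c 1 E t ∩ Pat v δ →
      ∃ (hQ : q.Coprime F) (ρ : PP), (q : Eis) = ρ.1 * conj ρ.1 ∧
        (∀ j : Fin s, sym ρ.1 (b j.castSucc : Eis) = 0) ∧ sym ρ.1 (b (Fin.last s) : Eis) ≠ 0 ∧
        ∀ τ' : Fin s → Fin s → ZMod 3,
        (∀ j i, j ≠ i → ∀ r : ℤ, (q : ℤ) ∣ r ^ 3 - b j.castSucc →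
          τ' j i = TAUVS ρ.1 (rs P j i) (rs Q j i) (rs P' j i) (rs Q' j i) r) →
        t - vN h n π p e r w0 c ≤ s - (alt fun j i =>
          C j i + E * ((Φ j i (ZMod.unitOfCoprime q hQ)).toAdd + τ' j i)).rank := by
    intro E q hE hq hqM ⟨⟨hq3, hIn, hrr⟩, ρ, hqρ, hpat⟩
    have hqn : ¬ q ∣ n := fun h => by
      have := Nat.le_of_dvd hn h
      omega
    have hQ : q.Coprime F := by
      rw [Nat.Prime.coprime_iff_not_dvd hq]
      intro h
      have := Nat.le_of_dvd hF h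
      omega
    have h3q : 3 < q := by omega
    have hρn : ¬ ρ.1 ∣ (n : Eis) := by
      intro h2
      have h4 := (hSPLT.2 q ρ hq hq3 hqρ).2.2.2.1 (n : ℤ)
      rw [Int.cast_natCast] at h4
      exact hqn (Int.natCast_dvd_natCast.1 (h4.1 h2))
    obtain ⟨hiff, hsp⟩ := hρ ρ hρn
    obtain ⟨hb0, hb1⟩ := hiff.2 hpat
    obtain ⟨hBG, hTy, hA⟩ := hNADU h n m k π p e r f w0 c E q ρ hNF hh hE hq hq3 hIn hqn hqρ
    have hAG : ∀ i : Fin s, AG (BB h n E q) (b i.castSucc) := fun i =>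
      ((hA _ (hAdN i.castSucc).1.supp).1 ⟨hAdN i.castSucc, hb0 i⟩).1
    have hgen := hNBKU h n m k π p e r f w0 c s τ b X Y P Q P' Q' E q ρ hNF hh hAdN hSys hSw hLam
      (hsp hb0 hb1) hE hq h3q hq3 hIn hqn hqρ hb0 hb1
    have hle := CubeRank.rr_le hgen
    have hskew := (hTENT s τ (rv b) X Y _ _ _ _ _ (ECLU.sysG_restr hSys) (ECLU.sw_restr hSw) hBG
      hAG (hLam _ hTy) (fun i => hb _)).1
    refine ⟨hQ, ρ, hqρ, hb0, hb1, fun τ' hτ' => ?_⟩
    have hent : ∀ j i, j ≠ i →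
        MaT (rv b) X Y (rs P) (rs Q) (rs P') (rs Q') (BB h n E q) j i =
        C j i + E * ((Φ j i (ZMod.unitOfCoprime q hQ)).toAdd + τ' j i) := by
      intro j i hji
      have hqb : ¬ (q : ℤ) ∣ b j.castSucc := fun h => by
        rcases (hq.dvd_mul).1 ((hAdN j.castSucc).1.supp q hq h) with h1 | h1
        · have := Nat.le_of_dvd (by norm_num) h1
          omega
        · exact hqn h1
      obtain ⟨x, hx⟩ := (hSPLT.2 q ρ hq hq3 hqρ).2.2.2.2.2 _ hqb (hb0 j)
      unfold MaT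
      rw [if_neg hji]
      refine (hD2 j i hji E q hQ ρ hE hq (by have := hN j i; omega) hq3 hqρ (hAG j) (hAG i) x
        hx).trans ?_
      rw [← hτ' j i hji x hx]
    have hMa : MaT (rv b) X Y (rs P) (rs Q) (rs P') (rs Q') (BB h n E q) = alt fun j i =>
        C j i + E * ((Φ j i (ZMod.unitOfCoprime q hQ)).toAdd + τ' j i) := by
      ext j i
      rw [alt]
      rcases lt_trichotomy j i with h | h | h
      · rw [if_pos h, hent j i h.ne]
      · subst h
        rw [if_neg (lt_irrefl _), if_neg (lt_irrefl _), MaT, if_pos rfl]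
      · rw [if_neg (not_lt.2 h.le), if_pos h, hskew j i, hent i j h.ne]
    rw [← hMa]
    omega
  refine ⟨K + 2 * (2 * ((Finset.range (M + 1)).card : ℝ)), fun σ h1 hσ2 => ?_⟩
  have hB := hK σ h1 hσ2
  have hsub1 : ∀ q : ℕ, q.Prime → M < q → q ∈ WR h n π w0 c 1 1 t ∩ Pat v δ →
      q ∈ SPU b P Q P' Q' (t - vN h n π p e r w0 c) κ (Fin.cons w0 c) C (FINAS.assemble Φ) := by
    intro q hq hqM hqW
    obtain ⟨hQ, ρ, hqρ, hb0, hb1, hm⟩ := hmat 1 q (Or.inl rfl) hq hqM hqW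
    obtain ⟨⟨hq3, ⟨hw, hc⟩, -⟩, -⟩ := hqW
    refine ⟨hQ, ρ, ⟨hq3, ?_, hqρ, hb0, hb1⟩, fun τ' hτ' => ?_⟩
    · rw [hκ]
      refine cons_eq ?_ fun i => ?_
      · rw [Fin.cons_zero, Fin.cons_zero]
        rw [pow_one] at hw
        exact hw
      · rw [Fin.cons_succ, Fin.cons_succ, ← hc i, Nat.cast_one, one_mul]
    · have e1 : (fun j i => C j i + ((1 : ℕ) : ZMod 3) *
          ((Φ j i (ZMod.unitOfCoprime q hQ)).toAdd + τ' j i)) =
          C + (FINAS.assemble Φ (ZMod.unitOfCoprime q hQ)).toAdd + τ' := by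
        funext j i
        show C j i + ((1 : ℕ) : ZMod 3) * ((Φ j i (ZMod.unitOfCoprime q hQ)).toAdd + τ' j i) =
          C j i + (Φ j i (ZMod.unitOfCoprime q hQ)).toAdd + τ' j i
        rw [Nat.cast_one]
        ring
      rw [← e1]
      exact hm τ' hτ'
  have hsub2 : ∀ q : ℕ, q.Prime → M < q → q ∈ WR h n π w0 c 1 2 t ∩ Pat v δ →
      q ∈ SMU b P Q P' Q' (t - vN h n π p e r w0 c) κ (Fin.cons w0 c) C (FINAS.assemble Φ) := by
    intro q hq hqM hqW
    obtain ⟨hQ, ρ, hqρ, hb0, hb1, hm⟩ := hmat 2 q (Or.inr rfl) hq hqM hqW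
    obtain ⟨⟨hq3, ⟨hw, hc⟩, -⟩, -⟩ := hqW
    refine ⟨hQ, ρ, ⟨hq3, ?_, hqρ, hb0, hb1⟩, fun τ' hτ' => ?_⟩
    · rw [hκ]
      refine cons_eq ?_ fun i => ?_
      · rw [Fin.cons_zero, Pi.neg_apply, Fin.cons_zero]
        have h3 : ¬ (3 : ℤ) ∣ (q : ℤ) := by omega
        have h4 := sq_mod_three h3
        have h5 : ((q : ℤ) ^ 2) ^ 2 = (q : ℤ) ^ 2 * (q : ℤ) ^ 2 := by ring
        rw [h5, wt_mul h4 h4] at hw
        exact neg_of_two (by rw [two_mul]; exact hw)
      · rw [Fin.cons_succ, Pi.neg_apply, Fin.cons_succ]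
        exact neg_of_two (hc i)
    · have e1 : (fun j i => C j i + ((2 : ℕ) : ZMod 3) *
          ((Φ j i (ZMod.unitOfCoprime q hQ)).toAdd + τ' j i)) =
          C - (FINAS.assemble Φ (ZMod.unitOfCoprime q hQ)).toAdd - τ' := by
        funext j i
        show C j i + ((2 : ℕ) : ZMod 3) * ((Φ j i (ZMod.unitOfCoprime q hQ)).toAdd + τ' j i) =
          C j i - (Φ j i (ZMod.unitOfCoprime q hQ)).toAdd - τ' j i
        rw [show ((2 : ℕ) : ZMod 3) = -1 from by decide]
        ring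
      rw [← e1]
      exact hm τ' hτ'
  have i1 := CL.sm_le_add _ _ M hsub1 h1
  have i2 := CL.sm_le_add _ _ M hsub2 h1
  have e2 : (2 / 3 ^ d * LI (d - 1) (t - vN h n π p e r w0 c) / 3 ^ (m + 1) : ℝ) =
      2 / 3 ^ (s + 1) * ((NK s (t - vN h n π p e r w0 c) : ℝ) /
        Nat.card (Fin s → Fin s → ZMod 3)) / 3 ^ (m + 1) := by
    subst hs
    rw [LI, Nat.add_sub_cancel]
  rw [e2]
  linarith

end Pool.Agent.PTN

end

section

/-!
# PTK_F3E: two noncubes at a place dividing `B`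

Copy of `PT/F3R.lean` with variables in `Z[w]` instead of `ℤ`.
-/

set_option autoImplicit false

open NumberField IsDedekindDomain Finset
open scoped nonZeroDivisors Pointwise

namespace Pool.Agent.PTK

open Pool.Agent.Lib_helper18 Pool.Agent.Lib_helper18.Eis Pool.Agent.Lib_helper84.Cub
open Pool.Agent.PT Pool.Agent.PTE Pool.Agent.PT3 Pool.Agent.PTL Pool.Agent.PTN

namespace F3E

/-- the main computation, over `Z[w]` -/
theorem main (hSTM : STM) (π : PP) (B b x p q p' q' : Eis) (hBne : B ≠ 0)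
    (hBcf : V π.1 B ≤ 2) (b0 : b ≠ 0) (x0 : x ≠ 0)
    (heq : p ^ 3 + b * q ^ 3 = x * (p' ^ 3 + b * q' ^ 3)) (hn1 : p ^ 3 + b * q ^ 3 ≠ 0)
    (hdvd : π.1 ∣ B) (hVb : ¬ 3 ∣ V π.1 b) (hVx : ¬ 3 ∣ V π.1 x) :
    UVE (tm π.1) B b x p q p' q' =
      (if 3 ∣ V π.1 b + V π.1 B then - tm π.1 w x else 0) +
      (if 3 ∣ V π.1 x + V π.1 B then - tm π.1 w b else 0) := by
  have hπ : Prime π.1 := π.2.1
  have h3 := PT.F3R.not_dvd_three π
  have S := hSTM π.1 hπ h3
  have B0 : B ≠ 0 := hBne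
  have w0 : w ≠ 0 := isUnit_w.ne_zero
  have Vw : V π.1 w = 0 := V_eq_zero (not_dvd_of_isUnit hπ isUnit_w)
  have tw : ∀ y : Eis, tm π.1 w y = (V π.1 y : ZMod 3) * ch π.1 w := by
    intro y
    unfold tm
    rw [Vw]
    push_cast
    ring
  have hv : (V π.1 B : ZMod 3) ≠ 0 := by
    rw [Ne, ← PT.F3R.three_dvd_iff']
    have h1 : V π.1 B ≠ 0 := fun h => V_eq_zero_iff.1 h hdvd
    have h2 := hBcf
    omega
  have hβ : (V π.1 b : ZMod 3) ≠ 0 := by rwa [Ne, ← PT.F3R.three_dvd_iff']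
  have hξ : (V π.1 x : ZMod 3) ≠ 0 := by rwa [Ne, ← PT.F3R.three_dvd_iff']
  have skw : ∀ a c : Eis, tm π.1 a c = - tm π.1 c a := by
    intro a c
    unfold tm
    ring
  have e3 : ∀ n : ℕ, ((3 * n : ℕ) : ZMod 3) = 0 := fun n => (PT.F3R.three_dvd_iff' _).1 ⟨n, rfl⟩
  -- the valuations of the four terms
  have c1 : p ^ 3 ≠ 0 → (V π.1 (p ^ 3) : ZMod 3) = 0 := by
    intro h
    have h1 : p ≠ 0 := fun h' => h (by rw [h']; ring)
    rw [V_pow hπ h1, e3]
  have c2 : b * q ^ 3 ≠ 0 → (V π.1 (b * q ^ 3) : ZMod 3) = V π.1 b := by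
    intro h
    have h1 : q ≠ 0 := fun h' => h (by rw [h']; ring)
    rw [V_mul hπ b0 (pow_ne_zero _ h1), V_pow hπ h1, Nat.cast_add, e3, add_zero]
  have c3 : -(x * p' ^ 3) ≠ 0 → (V π.1 (-(x * p' ^ 3)) : ZMod 3) = V π.1 x := by
    intro h
    have h1 : p' ≠ 0 := fun h' => h (by rw [h']; ring)
    rw [V_neg, V_mul hπ x0 (pow_ne_zero _ h1), V_pow hπ h1, Nat.cast_add, e3, add_zero]
  have c4 : -(x * b * q' ^ 3) ≠ 0 →
      (V π.1 (-(x * b * q' ^ 3)) : ZMod 3) = V π.1 x + V π.1 b := by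
    intro h
    have h1 : q' ≠ 0 := fun h' => h (by rw [h']; ring)
    rw [V_neg, V_mul hπ (mul_ne_zero x0 b0) (pow_ne_zero _ h1), V_mul hπ x0 b0, V_pow hπ h1,
      Nat.cast_add, e3, add_zero, Nat.cast_add]
  have hG : ∀ i, GfE p q p' q' i = q * p' - w ^ i * p * q' := fun i => rfl
  have hsum : tm π.1 w (B * x * b) = ((V π.1 B : ZMod 3) +
      V π.1 x + V π.1 b) * ch π.1 w := by
    rw [tw, V_mul hπ (mul_ne_zero B0 x0) b0, V_mul hπ B0 x0]
    push_cast
    ring
  unfold UVE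
  rw [hsum, tw, tw, PT.F3R.ite3, PT.F3R.ite3, Nat.cast_add, Nat.cast_add]
  by_cases hj : (V π.1 b : ZMod 3) = V π.1 x
  · obtain ⟨f1, f2, f3, f4, f5⟩ := PT.F3R.four hπ (a := p ^ 3) (b := b * q ^ 3)
      (c := -(x * p' ^ 3)) (d := -(x * b * q' ^ 3))
      (by linear_combination heq) c1 c2 c3 c4 hβ.symm hξ.symm
      (by
        rw [← hj]
        intro h
        apply hβ
        linear_combination h + (V π.1 b : ZMod 3) * three_zmod)
      (by
        intro h
        apply hξ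
        linear_combination -h)
      (by
        intro h
        apply hβ
        linear_combination -h)
      (fun h => hn1 (by rw [h.1, h.2.1, add_zero]))
    obtain ⟨g1, g2⟩ := PT.F3R.cmp hπ (A := -(x * b)) (y := q * p') (z := p * q')
      (neg_ne_zero.2 (mul_ne_zero x0 b0)) f1 f2 f3 f4 f5 (by ring) (by ring)
    have hc : ∀ i, tm π.1 B (GfE p q p' q' i) = tm π.1 B (q * p') := by
      intro i
      rw [skw, skw B, S.cont (q * p') (GfE p q p' q' i) B g1 B0]
      have e : GfE p q p' q' i - q * p' = p * q' * (-w ^ i) := by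
        rw [hG]
        ring
      rw [e]
      exact Dvd.dvd.mul_right g2 _
    rw [hc, hc, sub_self, zero_add, ← hj]
    exact PT.F3R.fin1 _ _ _ hv hβ
  · obtain ⟨f1, f2, f3, f4, f5⟩ := PT.F3R.four hπ (a := b * q ^ 3) (b := p ^ 3)
      (c := -(x * b * q' ^ 3)) (d := -(x * p' ^ 3))
      (by linear_combination heq) c2 c1 c4 c3 hβ
      (by
        intro h
        apply hξ
        linear_combination -h)
      hj hξ.symm
      (by
        intro h
        apply hβ
        linear_combination h)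
      (fun h => hn1 (by rw [h.1, h.2.1, add_zero]))
    obtain ⟨g1, g2⟩ := PT.F3R.cmp hπ (A := -(x * b)) (y := p * q') (z := q * p')
      (neg_ne_zero.2 (mul_ne_zero x0 b0)) f1 f2 f3 f4 f5 (by ring) (by ring)
    have hc : ∀ i, tm π.1 B (GfE p q p' q' i) =
        -(tm π.1 (w ^ i) B + tm π.1 (-(p * q')) B) := by
      intro i
      have gn : -(p * q') ≠ 0 := neg_ne_zero.2 g1
      have wi : w ^ i ≠ 0 := pow_ne_zero _ w0
      have hVi : V π.1 (w ^ i * -(p * q')) = V π.1 (p * q') := by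
        rw [V_mul hπ wi gn, V_neg, V_eq_zero (not_dvd_of_isUnit hπ (isUnit_w.pow i)), zero_add]
      rw [skw, ← S.mul _ _ _ wi gn B0,
        S.cont (w ^ i * -(p * q')) (GfE p q p' q' i) B (mul_ne_zero wi gn) B0]
      have e : GfE p q p' q' i - w ^ i * -(p * q') = q * p' := by
        rw [hG]
        ring
      rw [e, hVi]
      exact g2
    have hw2 : tm π.1 (w ^ 2) B = tm π.1 w B + tm π.1 w B := by
      rw [pow_two, S.mul _ _ _ w0 w0 B0]
    rw [hc, hc, hw2, pow_one, tw]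
    have h6 := PT.F3R.fin2 _ _ _ (ch π.1 w) hv hβ hξ hj
    rw [← h6]
    ring

end F3E

theorem F3E_thm (hSTM : STM) : Stmt_F3E := by
  intro π B b x p q p' q' hB hb hx hs hdvd hVb hVx
  exact F3E.main hSTM π B b x p q p' q' hB.ne (hB.cf π) hb.ne hx.ne hs.eq hs.n1 hdvd hVb hVx

end Pool.Agent.PTK

end
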