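import Mathlib
import Pool.Agent.PTWX.C58
import Pool.Agent.PTWX.C59
import Pool.Agent.PTWX.C61
import Pool.Agent.PTWX.C62
import Pool.Agent.PTWX.C63
import Pool.Agent.PTWX.C64

/-! Parts: PT3.FIN3, PT3.HNT, PTE.DCNTS, PTE.Final, PT3.LVA, PT3.Final, PT.FinalB -/

namespace Pool.Agent.PT3.FIN3
end Pool.Agent.PT3.FIN3

namespace Pool.Agent.PT3.LVA
end Pool.Agent.PT3.LVA

namespace Pool.Agent.PTE.Final
end Pool.Agent.PTE.Final

section

/-!
# FIN3: all the classes together, `3^h n`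
-/

open NumberField IsDedekindDomain Finset
open scoped nonZeroDivisors Pointwise

namespace Pool.Agent.PT3

open Pool.Agent.Lib_helper18 Pool.Agent.Lib_helper18.Eis Pool.Agent.Lib_helper84.Cub
open Pool.Agent.PT Pool.Agent.PTE

namespace FIN3

theorem card_two : ∀ t : ZMod 3, Fintype.card {w : ZMod 3 // t + w ≠ 0} = 2 := by decide

theorem exists_w : ∀ t : ZMod 3, ∃ w : ZMod 3, w ≠ 0 ∧ t + w ≠ 0 := by decide

open Classical in
/-- sum over the classes, `q = 2 (mod 3)` -/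
theorem even_part (hDADD : DADD) {m : ℕ} (π : Fin m → PP) (t : ZMod 3)
    (D : ZMod 3 → (Fin m → ZMod 3) → Prop) (T : Set ℕ) (d : ℝ) (hd : 0 ≤ d)
    (hD : ∀ w0, t + w0 ≠ 0 → 2 ^ m ≤ Nat.card {c : Fin m → ZMod 3 // D w0 c})
    (hS : ∀ w0 c, t + w0 ≠ 0 → D w0 c → RI.DensityGE {q : ℕ | InCl π w0 c q ∧ q ∈ T} d) :
    RI.DensityGE T ((2 * 2 ^ m : ℕ) * d) := by
  refine hDADD (Σ w : {w : ZMod 3 // t + w ≠ 0}, {c : Fin m → ZMod 3 // D w.1 c})
    (fun i => {q : ℕ | InCl π i.1.1 i.2.1 q ∧ q ∈ T}) T d hd ?_ ?_ ?_ _ ?_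
  · rintro ⟨⟨w, hw⟩, ⟨c, hc⟩⟩
    exact hS w c hw hc
  · rintro i q ⟨_, hq⟩
    exact hq
  · rintro ⟨⟨w, hw⟩, ⟨c, hc⟩⟩ ⟨⟨w', hw'⟩, ⟨c', hc'⟩⟩ hne
    rw [Set.disjoint_left]
    rintro q ⟨⟨_, h1, h2⟩, _⟩ ⟨⟨_, h3, h4⟩, _⟩
    apply hne
    have e1 : w = w' := h1.symm.trans h3
    have e2 : c = c' := funext fun i => (h2 i).symm.trans (h4 i)
    subst e1
    subst e2
    rfl
  · rw [Fintype.card_sigma]
    calc 2 * 2 ^ m = ∑ _w : {w : ZMod 3 // t + w ≠ 0}, 2 ^ m := by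
          rw [Finset.sum_const, Finset.card_univ, smul_eq_mul]
          congr 1
          exact (card_two t).symm.trans (Fintype.card_congr (Equiv.refl _))
      _ ≤ _ := by
          refine Finset.sum_le_sum fun w _ => ?_
          rw [← Nat.card_eq_fintype_card]
          exact hD w.1 w.2

open Classical in
/-- sum over the classes, `q = 1 (mod 3)` -/
theorem odd_part (hDADD : DADD) {m : ℕ} (π : Fin m → PP) (w0 : ZMod 3)
    (D : (Fin m → ZMod 3) → Prop) (T : Set ℕ) (d : ℝ) (hd : 0 ≤ d)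
    (hD : 2 ^ m ≤ Nat.card {c : Fin m → ZMod 3 // D c})
    (hS : ∀ c, D c → RI.DensityGE {q : ℕ | InClS π w0 c q ∧ q ∈ T} d) :
    RI.DensityGE T ((2 ^ m : ℕ) * d) := by
  refine hDADD {c : Fin m → ZMod 3 // D c}
    (fun i => {q : ℕ | InClS π w0 i.1 q ∧ q ∈ T}) T d hd ?_ ?_ ?_ _ ?_
  · rintro ⟨c, hc⟩
    exact hS c hc
  · rintro i q ⟨_, hq⟩
    exact hq
  · rintro ⟨c, hc⟩ ⟨c', hc'⟩ hne
    rw [Set.disjoint_left]
    rintro q ⟨⟨_, h1, h2⟩, _⟩ ⟨⟨_, h3, h4⟩, _⟩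
    apply hne
    have e2 : c = c' := funext fun i => (h2 i).symm.trans (h4 i)
    subst e2
    rfl
  · rw [← Nat.card_eq_fintype_card]
    exact hD

theorem const_even (m : ℕ) : ((2 * 2 ^ m : ℕ) : ℝ) * (1 / (24 * 3 ^ m)) = 2 ^ m / (12 * 3 ^ m) := by
  have h : (3 : ℝ) ^ m ≠ 0 := pow_ne_zero _ (by norm_num)
  push_cast
  field_simp
  norm_num

theorem const_odd (m : ℕ) : ((2 ^ m : ℕ) : ℝ) * (1 / (30 * 3 ^ m)) = 2 ^ m / (30 * 3 ^ m) := by
  have h : (3 : ℝ) ^ m ≠ 0 := pow_ne_zero _ (by norm_num)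
  push_cast
  field_simp

theorem const_le (m : ℕ) : (2 : ℝ) ^ m / (30 * 3 ^ m) ≤ 2 ^ m / (12 * 3 ^ m) := by
  have h : (0 : ℝ) < 3 ^ m := pow_pos (by norm_num) _
  have h2 : (0 : ℝ) ≤ 2 ^ m := (pow_pos (by norm_num) _).le
  exact div_le_div_of_nonneg_left h2 (by linarith) (by linarith)

end FIN3

open _root_.Pool.Agent.PT3.FIN3 in
theorem FIN3_thm (hFCLT : FCLT) (hFCLU : FCLU) (hEMAX : EMAX) (hDADD : DADD) : FIN3 := by
  intro h n m k π p e r f hNF hh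
  have hE : Even (h + k) →
      RI.DensityGE {q : ℕ | ¬ ∃ X Y : ℚ, X ^ 3 + Y ^ 3 = ((3 ^ h * n : ℕ) : ℚ) * q}
        (2 ^ m / (12 * 3 ^ m)) := by
    intro hev
    have h1 := even_part hDADD π (wt ((n : ℤ) ^ 2))
      (fun w0 c => (Mt h n π p e w0 c).det ≠ 0)
      {q : ℕ | ¬ ∃ X Y : ℚ, X ^ 3 + Y ^ 3 = ((3 ^ h * n : ℕ) : ℚ) * q} (1 / (24 * 3 ^ m))
      (by positivity)
      (fun w0 hw => hEMAX h n m π p e w0 fun _ => hw)
      (fun w0 c _ hc => hFCLT h n m k π p e r f w0 c hNF hh hev hc)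
    rwa [const_even] at h1
  refine ⟨hE, ?_⟩
  rcases Nat.even_or_odd (h + k) with hev | hod
  · exact PT.DENS.dens_mono (hE hev) (const_le m)
  · obtain ⟨w0, hw0, hw1⟩ := exists_w (wt ((n : ℤ) ^ 2))
    have h1 := odd_part hDADD π w0 (fun c => (Mt h n π p e w0 c).det ≠ 0)
      {q : ℕ | ¬ ∃ X Y : ℚ, X ^ 3 + Y ^ 3 = ((3 ^ h * n : ℕ) : ℚ) * q} (1 / (30 * 3 ^ m))
      (by positivity)
      (hEMAX h n m π p e w0 fun _ => hw1)
      (fun c hc => hFCLU h n m k π p e r f w0 c hNF hh hod (Or.inl hw0) hc)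
    rwa [const_odd] at h1

end Pool.Agent.PT3

end

section

/-!
# HNT: the Hasse norm theorem for pure cubic fields, rational version, arbitrary norm
-/

namespace Pool.Agent.PT3

open Pool.Agent.Lib_helper18 Pool.Agent.Lib_helper18.Eis Pool.Agent.Lib_helper84.Cub
open Pool.Agent.PT Pool.Agent.PTE

theorem HNT_thm (hNFLD : NFLD) (hNMAT : NMAT) (hNDESC : NDESC) (hSTM : STM) (hSPP : SPP)
    (hLCI : LCI) : HNT := by
  intro x y hx h3x hcube hV hy htm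
  obtain ⟨-, -, -, hSPP4, -, hSPP6⟩ := hSPP
  obtain ⟨y1, m, hm, hy1, hyy, hprop⟩ := HN.split x y hy
  obtain ⟨L, iF, iN, ι, θ, σ, c, hC⟩ := hNFLD x hx hcube
  have hxE : (x : Eis) ≠ 0 := HN.cast_ne hx
  have hyE : (y : Eis) ≠ 0 := HN.cast_ne hy
  have hy1E : (y1 : Eis) ≠ 0 := HN.cast_ne hy1
  have hmE : ((m : ℤ) : Eis) ≠ 0 := HN.cast_ne (by exact_mod_cast hm)
  have htm1 : ∀ π : PP, tm π.1 (x : Eis) (y1 : Eis) = 0 := by
    intro π
    have hS := hSTM π.1 π.2.1 (hSPP4 π).1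
    have h1 := htm π
    have h2 : (y : Eis) = (y1 : Eis) * ((m : ℤ) : Eis) * ((m : ℤ) : Eis) * ((m : ℤ) : Eis) := by
      rw [hyy]
      push_cast
      ring
    have h3 : tm π.1 (y : Eis) (x : Eis) = tm π.1 (y1 : Eis) (x : Eis) +
        3 * tm π.1 ((m : ℤ) : Eis) (x : Eis) := by
      rw [h2, hS.mul _ _ _ (mul_ne_zero (mul_ne_zero hy1E hmE) hmE) hmE hxE,
        hS.mul _ _ _ (mul_ne_zero hy1E hmE) hmE hxE, hS.mul _ _ _ hy1E hmE hxE]
      ring
    have h4 : (3 : ZMod 3) = 0 := rfl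
    rw [h4, zero_mul, add_zero, hS.skew _ _ hxE hyE, h1, hS.skew _ _ hxE hy1E] at h3
    rw [neg_zero] at h3
    exact neg_eq_zero.1 h3.symm
  have hLC : ∀ π : PP, π.1 ∣ (y1 : Eis) → ¬ LC π.1 x → π.1 ∣ (x : Eis) := by
    intro π hπ hnot
    by_contra hπx
    obtain ⟨p, hp, hcl⟩ := hSPP6 π
    have h1 := HN.dvd_int hp hcl hπ
    have h2 : ¬ (p : ℤ) ∣ x := by
      intro h
      obtain ⟨d, hd⟩ := h
      apply hπx
      rw [hd, Int.cast_mul, Int.cast_natCast]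
      exact (HN.dvd_nat hcl).mul_right _
    obtain ⟨k, t, hk, ht, hyt⟩ := hprop p hp h1 h2
    have h3 : V π.1 (y1 : Eis) = k := by
      rw [hyt]
      exact HN.V_eq hp hcl k ht
    have h4 : V π.1 (x : Eis) = 0 := V_eq_zero hπx
    have h5 := htm1 π
    rw [tm, h3, h4, Nat.cast_zero, zero_mul, sub_zero] at h5
    have h6 : (k : ZMod 3) ≠ 0 := by
      rw [ne_eq, ZMod.natCast_eq_zero_iff]
      exact hk
    have h7 : ch π.1 (x : Eis) = 0 := by
      have : Fact (Nat.Prime 3) := ⟨Nat.prime_three⟩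
      exact (mul_eq_zero.1 h5).resolve_left h6
    exact hnot ((hLCI.1 π x hx).2 ⟨by rw [h4]; exact dvd_zero _, h7⟩)
  obtain ⟨z, hz, hzN⟩ := hNMAT x L ι θ σ c hx h3x hV hcube hC y1 hy1 htm1 hLC
  obtain ⟨p, q, p', q', hsol⟩ := hNDESC x L ι θ σ c hx hC y1 z hy1 hz hzN
  have hmz : (m : ℤ) ≠ 0 := by exact_mod_cast hm
  refine ⟨m * p, m * q, p', q', ⟨?_, ?_⟩⟩
  · have h1 := hsol.eq
    rw [hyy]
    linear_combination (m : ℤ) ^ 3 * h1
  · have h1 := hsol.n1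
    have h2 : ((m : ℤ) * p) ^ 3 + x * ((m : ℤ) * q) ^ 3 = (m : ℤ) ^ 3 * (p ^ 3 + x * q ^ 3) := by
      ring
    rw [h2]
    exact mul_ne_zero (pow_ne_zero 3 hmz) h1

end Pool.Agent.PT3

end

section

/-!
# DCNTS: elements with nonsingular matrix in a class of the Galois group
-/

namespace Pool.Agent.PTE.DCNTS

open Pool.Agent.PT

/-- the nonsingular alternating matrices -/
theorem nonsing (hSING : SING) (s : ℕ) (hs : Even s) :
    rh s * (Nat.card (Fin s → Fin s → ZMod 3) : ℝ) ≤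
      (Nat.card {v : Fin s → Fin s → ZMod 3 // (alt v).det ≠ 0} : ℝ) := by
  classical
  by_cases h0 : s = 0
  · subst h0
    have h1 : Nat.card {v : Fin 0 → Fin 0 → ZMod 3 // (alt v).det ≠ 0} =
        Nat.card (Fin 0 → Fin 0 → ZMod 3) := by
      refine Nat.card_congr (Equiv.subtypeUnivEquiv fun v => ?_)
      rw [Matrix.det_isEmpty]
      exact one_ne_zero
    rw [h1, rh, if_pos rfl, one_mul]
  · have h1 := hSING s hs
    have h2 : Nat.card {v : Fin s → Fin s → ZMod 3 // (alt v).det = 0} +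
        Nat.card {v : Fin s → Fin s → ZMod 3 // (alt v).det ≠ 0} =
        Nat.card (Fin s → Fin s → ZMod 3) := by
      rw [← Nat.card_sum]
      exact Nat.card_congr (Equiv.sumCompl fun v : Fin s → Fin s → ZMod 3 => (alt v).det = 0)
    have h3 : 5 * Nat.card (Fin s → Fin s → ZMod 3) ≤
        8 * Nat.card {v : Fin s → Fin s → ZMod 3 // (alt v).det ≠ 0} := by
      omega
    have h4 : (5 : ℝ) * Nat.card (Fin s → Fin s → ZMod 3) ≤
        8 * Nat.card {v : Fin s → Fin s → ZMod 3 // (alt v).det ≠ 0} := by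
      exact_mod_cast h3
    rw [rh, if_neg h0]
    linarith

/-- the number of elements in a class -/
theorem cls {f : ℕ} {G : Type} [Group G] [Finite G] (χ : G →* (ZMod f)ˣ) (hf : 0 < f)
    (hχ : Function.Surjective χ) (a : (ZMod f)ˣ) :
    Nat.card {g : G // χ g = a} * f.totient = Nat.card G := by
  have : NeZero f := ⟨hf.ne'⟩
  obtain ⟨g0, hg0⟩ := hχ a
  have h1 : Nat.card {g : G // χ g = a} = Nat.card χ.ker := by
    refine Nat.card_congr ⟨fun g => ⟨g0⁻¹ * g.1, ?_⟩, fun g => ⟨g0 * g.1, ?_⟩, ?_, ?_⟩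
    · rw [MonoidHom.mem_ker, map_mul, map_inv, hg0, g.2, inv_mul_cancel]
    · rw [map_mul, hg0, MonoidHom.mem_ker.mp g.2, mul_one]
    · intro g
      exact Subtype.ext (mul_inv_cancel_left _ _)
    · intro g
      exact Subtype.ext (inv_mul_cancel_left _ _)
  have h2 : χ.ker.index = f.totient := by
    rw [Subgroup.index_ker, MonoidHom.range_eq_top.mpr hχ, Subgroup.card_top,
      Nat.card_eq_fintype_card, ZMod.card_units_eq_totient]
  rw [h1, ← h2, Subgroup.card_mul_index]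

end Pool.Agent.PTE.DCNTS

namespace Pool.Agent.PTE

open Pool.Agent.PT

open DCNT (Up alt_congr) in
theorem DCNTS_thm (hSING : SING) : DCNTS := by
  classical
  intro s f G _ _ χ F t hs hf hχ ht hc a C ha
  have hft : Fintype G := Fintype.ofFinite G
  let A : Finset G := Finset.univ.filter fun g => χ g = a ∧ F g
  have hcard : ∀ P : G → Prop, Nat.card {g : G // χ g = a ∧ F g ∧ P g} = (A.filter P).card := by
    intro P
    rw [Nat.card_eq_fintype_card, Fintype.card_subtype, Finset.filter_filter]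
    simp only [and_assoc]
  have hA : ∀ v v' : Fin s → Fin s → ZMod 3,
      (A.filter fun g => Up (t g) v).card = (A.filter fun g => Up (t g) v').card := by
    intro v v'
    rw [← hcard, ← hcard]
    exact ht a v v' ha
  obtain ⟨N, K, hK, hNK⟩ := DCNT.count A t hA
  have hall : K * A.card = N * Nat.card (Fin s → Fin s → ZMod 3) := by
    have h1 := hNK (fun _ => True) (fun _ _ _ _ => trivial)
    rw [Finset.filter_true, Finset.filter_true, Finset.card_univ] at h1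
    rw [h1, Nat.card_eq_fintype_card]
  have hAc : Nat.card {g : G // χ g = a ∧ F g} = A.card := by
    rw [Nat.card_eq_fintype_card, Fintype.card_subtype]
  have hφ : (0 : ℝ) < (f.totient : ℝ) := by exact_mod_cast Nat.totient_pos.2 hf
  have h4 : (Nat.card G : ℝ) / f.totient = (Nat.card {g : G // χ g = a} : ℝ) := by
    rw [div_eq_iff hφ.ne']
    exact_mod_cast (DCNTS.cls χ hf hχ a).symm
  have h5 : (2 / 3 ^ (s + 1) : ℝ) * (Nat.card {g : G // χ g = a} : ℝ) = (A.card : ℝ) := by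
    have h6 : (3 : ℝ) ^ (s + 1) * (Nat.card {g : G // χ g = a ∧ F g} : ℝ) =
        2 * (Nat.card {g : G // χ g = a} : ℝ) := by exact_mod_cast hc a ha
    rw [div_mul_eq_mul_div, ← h6, hAc]
    field_simp
  have hKR : (0 : ℝ) < (K : ℝ) := by exact_mod_cast hK
  have hmain : ∀ P : (Fin s → Fin s → ZMod 3) → Prop, (∀ v w, Up v w → P v → P w) →
      Nat.card {v : Fin s → Fin s → ZMod 3 // P v} =
        Nat.card {v : Fin s → Fin s → ZMod 3 // (alt v).det ≠ 0} →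
      rh s * (2 / 3 ^ (s + 1)) * ((Nat.card G : ℝ) / f.totient) ≤
        (Nat.card {g : G // χ g = a ∧ F g ∧ P (t g)} : ℝ) := by
    intro P hP hPc
    have h1 := hNK P hP
    rw [← Fintype.card_subtype, ← Nat.card_eq_fintype_card, hPc] at h1
    have h2 := DCNTS.nonsing hSING s hs
    rw [hcard (fun g => P (t g)), mul_assoc, h4, h5]
    have h1R : (K : ℝ) * ((A.filter fun g => P (t g)).card : ℝ) =
        N * (Nat.card {v : Fin s → Fin s → ZMod 3 // (alt v).det ≠ 0} : ℝ) := by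
      exact_mod_cast h1
    have hallR : (K : ℝ) * (A.card : ℝ) = N * (Nat.card (Fin s → Fin s → ZMod 3) : ℝ) := by
      exact_mod_cast hall
    have h3 : (K : ℝ) * (rh s * (A.card : ℝ)) ≤
        (K : ℝ) * ((A.filter fun g => P (t g)).card : ℝ) := by
      calc (K : ℝ) * (rh s * (A.card : ℝ)) = rh s * ((K : ℝ) * (A.card : ℝ)) := by ring
        _ = N * (rh s * (Nat.card (Fin s → Fin s → ZMod 3) : ℝ)) := by
            rw [hallR]
            ring
        _ ≤ N * (Nat.card {v : Fin s → Fin s → ZMod 3 // (alt v).det ≠ 0} : ℝ) :=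
            mul_le_mul_of_nonneg_left h2 (Nat.cast_nonneg _)
        _ = _ := h1R.symm
    exact le_of_mul_le_mul_left h3 hKR
  constructor
  · refine hmain (fun v => (alt (C + v)).det ≠ 0) ?_ ?_
    · intro v w hvw hv
      have h1 : Up (C + w) (C + v) := fun j i hji => by
        simp [hvw j i hji]
      change (alt (C + w)).det ≠ 0
      rw [alt_congr h1]
      exact hv
    · exact Nat.card_congr ((Equiv.addLeft C).subtypeEquiv fun v => Iff.rfl)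
  · refine hmain (fun v => (alt (C - v)).det ≠ 0) ?_ ?_
    · intro v w hvw hv
      have h1 : Up (C - w) (C - v) := fun j i hji => by
        simp [hvw j i hji]
      change (alt (C - w)).det ≠ 0
      rw [alt_congr h1]
      exact hv
    · exact Nat.card_congr ((Equiv.subLeft C).subtypeEquiv fun v => Iff.rfl)

end Pool.Agent.PTE

end

section

/-!
# Prime twists of rank zero, every `n` prime to `3`: assembly
-/

namespace Pool.Agent.PTE.Final

open Pool.Agent.PT Pool.Agent.PT.Final Pool.Agent.PTE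

theorem fSPLT : SPLT := SPLT_thm fSTM fSPP fSCJ

theorem fHYPS : HYPS := HYPS_thm fSTM fSPP fSSL fSREC fSCJ fSPLT

theorem fEADMS : EADMS := EADMS_thm fSTM fSPP fSCJ fSPLT

theorem fFD2S : FD2S := FD2S_thm fSTM fSPP

theorem fEHPL : EHPL := EHPL_thm fEVEC fSPP fSTM

theorem fECLS : ECLS := ECLS_thm fEMAT fEHPL fESYS fEADMS fHYPS fFD1 fFD2S fTEND fSPLT

theorem fDCONSTS : DCONSTS := DCONSTS_thm fSTM fSPP fSSL fSLC fSCJ fLCI fAVV fLFIN fSPLT

theorem fGZEROG : GZEROG := GZEROG_thm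

theorem fGCG : GCG := GCG_thm fKUM fGKI

theorem fGKUM : GKUM := GKUM_thm fKUM fGKI

theorem fGTS : GTS := GTS_thm

theorem fGFRS : GFRS := GFRS_thm fSPLT fSPP

theorem fGALDS : GALDS := GALDS_thm fGZEROG fGCHI fGCG fGKUM fGTS fGFRS

theorem fDCNTS : DCNTS := DCNTS_thm fSING

theorem fCLSCS : CLSCS := CLSCS_thm

theorem fDENSS : DENSS := DENSS_thm fGALDS fDCNTS fSPLT

theorem fDIRS : DIRS := DIRS_thm fDIR fCLSC fCLSCS

theorem fDSUM : DSUM := DSUM_thm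

theorem fFINAS : FINAS := FINAS_thm fSPLT fECLS fDCONSTS fCLSC fCLSCS fDENSS fDIRS fDSUM

theorem fMAINS : MAINS := MAINS_thm fENF fFINA fFINAS

end Pool.Agent.PTE.Final

end

section

/-!
# PT3, module LVA: the local evaluation at `lam` when `b` is a local cube
-/

namespace Pool.Agent.PT3

open Pool.Agent.Lib_helper18 Pool.Agent.Lib_helper18.Eis Pool.Agent.Lib_helper84.Cub
open Pool.Agent.PT Pool.Agent.PTE

namespace LVA

/-- two rational integers in the same class have the same symbols -/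
theorem sl_congr (hSLC : SLC) (hLCL : LCL) {a b : ℤ} (ha : a ≠ 0) (hb : b ≠ 0)
    (h1 : lv a = lv b) (h2 : lw a = lw b) {y : Eis} (hy : y ≠ 0) :
    sl (a : Eis) y = sl (b : Eis) y := by
  have h := hLCL.2.2.2.2.2.1 a b y ha hb hy h1 h2
  rw [hSLC.skew _ _ (LEV.cast_ne ha) hy, hSLC.skew _ _ (LEV.cast_ne hb) hy] at h
  exact neg_injective h

/-- the relation of symbols of a local point -/
theorem rel (hSLC : SLC) (hLCL : LCL) {B x X Y : ℤ} (hB : B ≠ 0) (hx : x ≠ 0)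
    (hP : PtL B x X Y) {y : Eis} (hy : y ≠ 0) :
    sl (B : Eis) y = sl (x : Eis) y + sl ((X ^ 3 + x * Y ^ 3 : ℤ) : Eis) y := by
  rw [← sl_congr hSLC hLCL (mul_ne_zero hx hP.n0) hB hP.cl.1 hP.cl.2 hy, Int.cast_mul,
    hSLC.mul _ _ _ (LEV.cast_ne hx) (LEV.cast_ne hP.n0) hy]

/-- the relation of symbols of a local point, right argument -/
theorem rel_right (hSLC : SLC) (hLCL : LCL) {B x X Y : ℤ} (hB : B ≠ 0) (hx : x ≠ 0)
    (hP : PtL B x X Y) {y : Eis} (hy : y ≠ 0) :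
    sl y (B : Eis) = sl y (x : Eis) + sl y ((X ^ 3 + x * Y ^ 3 : ℤ) : Eis) := by
  rw [hSLC.skew _ _ (LEV.cast_ne hB) hy, hSLC.skew _ _ (LEV.cast_ne hx) hy,
    hSLC.skew _ _ (LEV.cast_ne hP.n0) hy, rel hSLC hLCL hB hx hP hy]
  ring

/-- expansion of `(w, B x b)` -/
theorem w_mul (hSLC : SLC) {B x b : ℤ} (hB : B ≠ 0) (hx : x ≠ 0) (hb : b ≠ 0) :
    sl w ((B * x * b : ℤ) : Eis) = sl w (B : Eis) + sl w (x : Eis) + sl w (b : Eis) := by
  have h1 : ((B * x * b : ℤ) : Eis) = (B : Eis) * (x : Eis) * (b : Eis) := by push_cast; ring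
  rw [h1, LEV.mul_right hSLC (mul_ne_zero (LEV.cast_ne hB) (LEV.cast_ne hx)) (LEV.cast_ne hb)
    LEV.w_ne, LEV.mul_right hSLC (LEV.cast_ne hB) (LEV.cast_ne hx) LEV.w_ne]

/-- the second linear form -/
theorem n1' {b x p q p' q' : ℤ} (h : Sol b x p q p' q') : p' ^ 3 + b * q' ^ 3 ≠ 0 := by
  intro h0
  apply h.n1
  rw [h.eq, h0, mul_zero]

end LVA

set_option linter.unusedVariables false in
open _root_.Pool.Agent.PT3.LVA in
theorem LVA_thm (hSTM : STM) (hSPP : SPP) (hSSL : SSL) (hSLC : SLC) (hSCJ : SCJ) (hLCI : LCI)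
    (hIF2 : IF2) (hAVV : AVV) (hIIA : IIA) (hLCL : LCL) : LVA := by
  intro B b x p q p' q' X Y hB hb hx hS hLb hP
  obtain ⟨N1, h1⟩ := hIIA b x p q p' q' X Y hb hx hLb hS hP.hX hP.hY hP.n0
  obtain ⟨N2, h2⟩ := hIF2 lam sl 4 hSLC b x p q p' q' hb hx hS
  have hLb' : LC (uni none) b := hLb
  obtain ⟨N3, h3⟩ := (hAVV none B b x p q p' q' hB hb hx hS.toSolW (hSCJ.2.2.1 B x hB hx)
    hLb').1
  obtain ⟨r, hr⟩ := hLb (N1 + N2 + N3 + V lam ((p ^ 3 + b * q ^ 3 : ℤ) : Eis) +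
    V lam ((p' ^ 3 + b * q' ^ 3 : ℤ) : Eis) + 1)
  have hF := LEV.lf_ne hSLC.prime hS.n1 (by omega) hr
  have hF' := LEV.lf_ne hSLC.prime (n1' hS) (by omega) hr
  have a1 := h1 r ((pow_dvd_pow _ (by omega)).trans hr)
  have a2 := h2 r ((pow_dvd_pow _ (by omega)).trans hr)
  have a3 := h3 r ((pow_dvd_pow _ (by omega)).trans hr)
  have hG1 := IF2.Gf_ne hS 1 (Or.inl rfl)
  have hG2 := IF2.Gf_ne hS 2 (Or.inr rfl)
  have hwb : sl w (b : Eis) = 0 := LEV.lc_right hSLC hLCI hb hLb LEV.w_ne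
  have hT : TT none B b x p q p' q' = AV none B b p q p' q' + sl w (x : Eis) := by
    unfold TT
    rw [if_pos hLb']
    rfl
  have a3' : AS sl (B : Eis) p q p' q' r = AV none B b p q p' q' := a3
  rw [hT, ← a3', a1]
  unfold UV
  rw [w_mul hSLC hB hx hb, hwb]
  unfold AS at a2 ⊢
  rw [rel hSLC hLCL hB hx hP (hF 2), rel hSLC hLCL hB hx hP (hF' 1),
    rel hSLC hLCL hB hx hP (hF 1), rel hSLC hLCL hB hx hP (hF' 2),
    rel hSLC hLCL hB hx hP hG1, rel hSLC hLCL hB hx hP hG2,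
    rel_right hSLC hLCL hB hx hP LEV.w_ne]
  linear_combination a2

end Pool.Agent.PT3

end

section

/-!
# Prime twists of rank zero, every `n`: assembly
-/

namespace Pool.Agent.PT3.Final

open Pool.Agent.PT Pool.Agent.PT.Final Pool.Agent.PTE Pool.Agent.PTE.Final Pool.Agent.PT3

theorem fDADD : DADD := DADD_thm

theorem fDCOT : DCOT := DCOT_thm fSTM fSPP fSLC fLCI fAVV fSCJ

theorem fDCOU : DCOU := DCOU_thm fSTM fSPP fSLC fLCI fAVV fSCJ fSPLT

theorem fECS0 : ECS0 := ECS0_thm fEHPL fESYS fEADMS fHYPS fFD1 fFD2S fTEND fSPLT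

theorem fEDC : EDC := EDC_thm

theorem fEMA0 : EMA0 := EMA0_thm fEDC

theorem fEMAX : EMAX := EMAX_thm fEDC

theorem fFCS0 : FCS0 := FCS0_thm fSPLT fECS0 fDCONSTS fCLSC fCLSCS fDENSS fDIRS fDSUM

theorem fFDAT : FDAT := FDAT_thm

theorem fFDCT : FDCT := FDCT_thm

theorem fFDKT : FDKT := FDKT_thm fSTM fSPP fSTAR fSLC fSSL fSCJ

theorem fGFRG : GFRG := GFRG_thm

theorem fGTG : GTG := GTG_thm

theorem fHYP0 : HYP0 := HYP0_thm fSTM fSPP fSSL fSREC fSCJ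

theorem fIIAG : IIAG := IIAG_thm fSTM fSPP fSSL fLCI fLFIN fIF1 fIF2 fIF4 fF6R fF7U

theorem fLCL : LCL := LCL_thm fSTM fSPP fSSL fSLC fSREC fSCJ fLCI

theorem fLE3 : LE3 := LE3_thm fSLE fLCL fSCJ fSSL fSLC fSREC fLCI

theorem fLFIG : LFIG := LFIG_thm fSTM fSPP fSSL fSLC fSCJ fLCI fAVV

theorem fLL1 : LL1 := LL1_thm fSLC fSSL fSCJ fLCL

theorem fLN1 : LN1 := LN1_thm fSLE fSSL fSREC fSCJ fSLC fLCL

theorem fLPT : LPT := LPT_thm fLCL

theorem fLVB : LVB := LVB_thm fSTM fSPP fSSL fSLC fSCJ fLCI fIF2 fIF4 fIF4B fLCL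

theorem fNMAT : NMAT := NMAT_thm fSTM fSPP fSSL fSLC fLCI fHERBQ fSUN fNRK fNHN fNTR fNCNT fNFIX fNHO fNNS fNGEN

theorem fSVAD : SVAD := SVAD_thm fSTM fSPP fSSL fSLC fLCI fLFIN fIF4 fF6R fF7U

theorem fTADT : TADT := TADT_thm fSTM fSPP fSSL fSLC fSCJ fLCI fAVV fLFIG fSVAD

theorem fTAMG : TAMG := TAMG_thm fSTM fSPP fSSL fSLC fSREC fSCJ fLCI fIF2

theorem fTTHT : TTHT := TTHT_thm fSTM fSPP fSSL fSLC fSCJ fLCI fAVV fLFIG fLCL

theorem fEADT : EADT := EADT_thm fSTM fSPP fSCJ fLCL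

theorem fEADU : EADU := EADU_thm fSTM fSPP fSCJ fSPLT fLCL

theorem fECL0 : ECL0 := ECL0_thm fHYP0 fEBAS fEADM fESYS fFD1 fFD2 fTEND

theorem fEVET : EVET := EVET_thm fSTM fSPP fLCL

theorem fFCL0 : FCL0 := FCL0_thm fSPP fECL0 fDCONST fCLSC fDENS fTEND

theorem fFD1T : FD1T := FD1T_thm fFDKT fFDAT fFDCT

theorem fFD2T : FD2T := FD2T_thm fSTM fSPP fLCL

theorem fFIN0 : FIN0 := FIN0_thm fFCL0 fFCS0 fEMA0 fDADD

theorem fGALG : GALG := GALG_thm fGZEROG fGCHI fGTG fGCG fGFRG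

theorem fHNT : HNT := HNT_thm fNFLD fNMAT fNDESC fSTM fSPP fLCI

theorem fHYPT : HYPT := HYPT_thm fSTM fSPP fSSL fSLC fSREC fSCJ fLCI fLCL

theorem fHYPU : HYPU := HYPU_thm fSTM fSPP fSSL fSLC fSREC fSCJ fLCI fSPLT fLCL

theorem fIIA : IIA := IIA_thm fSLC fSSL fSCJ fIIAG

theorem fLAMG : LAMG := LAMG_thm fSTM fSPP fSSL fSLC fSREC fSCJ fLCI fIF1 fAVV fTAMG

theorem fLB : LB := LB_thm fSTM fSPP fSSL fSLC fSCJ fLCI fIF1 fIF2 fAVV fLCL

theorem fLE1 : LE1 := LE1_thm fLN1 fLCL fSCJ fSSL fSLC fSREC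

theorem fLEVG : LEVG := LEVG_thm fSTM fSPP fSSL fSLC fSREC fSCJ fLCI fIF1 fIF2 fIF4 fIF4B fAVV fTAMG fF6R fF7U

theorem fLVA : LVA := LVA_thm fSTM fSPP fSSL fSLC fSCJ fLCI fIF2 fAVV fIIA fLCL

theorem fLVC : LVC := LVC_thm fSTM fSPP fSSL fSLC fSCJ fLCI fIF2 fIF4 fIIA fLL1 fLCL

theorem fTALT : TALT := TALT_thm fSTM fSPP fSSL fSLC fSCJ fLCI fAVV fLFIG fLFIN fLAMG fLB fLVA fLE1 fLCL

theorem fTPT : TPT := TPT_thm fSTM fSPP fSSL fSLC fSCJ fLCI fAVV fLFIG fLFIN fLEVG fLVA fLVB fLVC fLE1 fLE3 fLCL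

theorem fDENG : DENG := DENG_thm fGALG fDCNT fDIR

theorem fEBAT : EBAT := EBAT_thm fEVET fSPP fLPT fLCL

theorem fEHPT : EHPT := EHPT_thm fEVET fSTM fSPP fLPT fLCL

theorem fESYT : ESYT := ESYT_thm fSTM fSPP fSCJ fHNT

theorem fTENT : TENT := TENT_thm fTPT fTALT fTADT fTTHT fSTM fSPP fSSL fSLC fSCJ fLCI fAVV fLCL

theorem fECLT : ECLT := ECLT_thm fHYPT fEBAT fEADT fESYT fFD1T fFD2T fTENT

theorem fECLU : ECLU := ECLU_thm fHYPU fEHPT fEADU fESYT fFD1T fFD2T fTENT fSPLT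

theorem fFCLT : FCLT := FCLT_thm fSPP fECLT fDCOT fCLSC fDENG

theorem fFCLU : FCLU := FCLU_thm fSPLT fECLU fDCOU fCLSC fCLSCS fDENSS fDIRS fDSUM

theorem fFIN3 : FIN3 := FIN3_thm fFCLT fFCLU fEMAX fDADD

theorem fMAIN3 : MAIN3 := MAI3_thm fENF fFIN0 fFIN3

end Pool.Agent.PT3.Final

end

section

/-!
# Prime twists: assembly of theorem B
-/

namespace Pool.Agent.PT.FinalB

open Pool.Agent.PT Pool.Agent.PT.Final

theorem fBSYS : BSYS := BSYS_thm fEVEC fESYS fSPP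

theorem fFDX : FDX := FDX_thm fSTM fSPP

theorem fBKER : BKER := BKER_thm fEADM fFDX fTEND fSPP

theorem fALTK : ALTK := ALTK_thm

theorem fEQD : EQD := EQD_thm

theorem fBDENS : BDENS := BDENS_thm fGALD fALTK fEQD fDIR

theorem fBFIN : BFIN := BFIN_thm fSPP fBSYS fDCONST fCLSC fBKER fBDENS fTEND fEADM

/-- The groups are finitely generated. -/
theorem fin_gen {k : ℕ} (hk : 1 ≤ k) {p e : Fin k → ℕ} (hp : ∀ i, (p i).Prime)
    (h3 : ∀ i, p i % 3 = 2) (hinj : Function.Injective p) (he : ∀ i, e i = 1 ∨ e i = 2)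
    {q : ℕ} (hq : q.Prime) (hq3 : q % 3 = 2) (h9 : q % 9 ≠ 8 ∨ ∃ i, p i % 9 ≠ 8)
    (hne : ∀ i, p i ≠ q) :
    CubeRank.GenBy ((∏ i, (p i : ℤ) ^ e i) * q)
      (CubeRank.rr ((∏ i, (p i : ℤ) ^ e i) * q)) := by
  have h := CubeRank.gen_no (q := (Fin.cons q p : Fin (k + 1) → ℕ))
    (fun i => Fin.cases (by simpa using hq) (fun i => by simpa using hp i) i)
    (fun i => Fin.cases (by simpa using hq3) (fun i => by simpa using h3 i) i)
    (by
      rw [Fin.cons_injective_iff]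
      exact ⟨fun ⟨i, hi⟩ => hne i hi, hinj⟩)
    (by
      rcases h9 with h9 | ⟨i, h9⟩
      · exact ⟨0, by simpa using h9⟩
      · exact ⟨i.succ, by simpa using h9⟩)
    (by omega) (e := (Fin.cons 1 e : Fin (k + 1) → ℕ))
    (fun i => Fin.cases (by simp) (fun i => by simpa using he i) i)
  rw [Fin.prod_univ_succ] at h
  simp only [Fin.cons_zero, Fin.cons_succ, pow_one] at h
  rw [mul_comm] at h
  exact CubeRank.gen_rr h

end Pool.Agent.PT.FinalB

end
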