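import Mathlib
import Pool.Agent.PTWX.C35
import Pool.Agent.PTWX.C48
import Pool.Agent.PTWX.C54
import Pool.Agent.PTWX.C57

/-! Parts: PTN.CBE, PTKX.StX, PTKX.StV, PTKX.StZ2, PTKX.MDU, PTKX.MDZ, PTKX.CAV, PTKX.MD2, PTKX.JDG, PTKX.CBV, PTKX.UPL, PTKX.FB, PTKX.JDZ -/

namespace Pool.Agent.PTK.UPL
end Pool.Agent.PTK.UPL

section

/-!
# CBE: lower bounds in a class
-/

set_option autoImplicit false

open NumberField IsDedekindDomain Finset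
open scoped nonZeroDivisors Pointwise

namespace Pool.Agent.PTN

open Pool.Agent.Lib_helper18 Pool.Agent.Lib_helper18.Eis Pool.Agent.Lib_helper84.Cub
open Pool.Agent.PT Pool.Agent.PTE Pool.Agent.PT3 Pool.Agent.PTL

namespace CBE

open BDENS

theorem low (S W G : ℕ → Set ℕ) (P D : ℝ) (M : ℕ)
    (hG : ∀ E q : ℕ, (E = 1 ∨ E = 2) → q.Prime → M < q → q ∈ S E → q ∉ W E → q ∈ G E)
    (hD : ∃ K : ℝ, ∀ σ : ℝ, 1 < σ → σ ≤ 2 →
      D * Real.log (1 / (σ - 1)) - K ≤ sm (S 1) σ + sm (S 2) σ)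
    (hP : ∃ K : ℝ, ∀ σ : ℝ, 1 < σ → σ ≤ 2 →
      sm (W 1) σ + sm (W 2) σ ≤ P * Real.log (1 / (σ - 1)) + K) :
    ∃ K : ℝ, ∀ σ : ℝ, 1 < σ → σ ≤ 2 → ∃ T : Finset ℕ,
      (D - P) * Real.log (1 / (σ - 1)) - K ≤
        ∑ E ∈ ({1, 2} : Finset ℕ), ∑ q ∈ T, ind (G E) σ q := by
  obtain ⟨K0, hK0⟩ := hD
  obtain ⟨K, hK⟩ := hP
  refine ⟨K + K0 + 2 * (2 * ((Finset.range (M + 1)).card : ℝ)) + 2, fun σ h1 hσ2 => ?_⟩
  have e1 := hK σ h1 hσ2
  have e2 := hK0 σ h1 hσ2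
  have e3 : ∀ E : ℕ, (E = 1 ∨ E = 2) → sm (S E) σ ≤
      sm (W E) σ + sm (G E) σ + 2 * ((Finset.range (M + 1)).card : ℝ) := by
    intro E hE
    have i1 := CL.sm_le_add (S E) (W E ∪ G E) M (fun q hq hqM hqW => by
      by_cases h : q ∈ W E
      · exact Or.inl h
      · exact Or.inr (hG E q hE hq hqM hqW h)) h1
    have i2 := BD.sm_union_inter (W E) (G E) h1
    have i3 := DL.sm_nonneg (W E ∩ G E) σ
    linarith
  obtain ⟨T1, hT1⟩ := DOM.approx (G 1) h1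
  obtain ⟨T2, hT2⟩ := DOM.approx (G 2) h1
  refine ⟨T1 ∪ T2, ?_⟩
  rw [Finset.sum_pair (by norm_num : (1 : ℕ) ≠ 2)]
  have j1 : ∑ q ∈ T1, ind (G 1) σ q ≤ ∑ q ∈ T1 ∪ T2, ind (G 1) σ q :=
    Finset.sum_le_sum_of_subset_of_nonneg Finset.subset_union_left fun q _ _ =>
      ind_nonneg _ _ _
  have j2 : ∑ q ∈ T2, ind (G 2) σ q ≤ ∑ q ∈ T1 ∪ T2, ind (G 2) σ q :=
    Finset.sum_le_sum_of_subset_of_nonneg Finset.subset_union_right fun q _ _ =>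
      ind_nonneg _ _ _
  have e4 := e3 1 (Or.inl rfl)
  have e5 := e3 2 (Or.inr rfl)
  have e6 : (D - P) * Real.log (1 / (σ - 1)) =
      D * Real.log (1 / (σ - 1)) - P * Real.log (1 / (σ - 1)) := by ring
  rw [e6]
  linarith

theorem n_ne {n m k : ℕ} {π : Fin m → PP} {p e : Fin m → ℕ} {r f : Fin k → ℕ}
    (hN : NF n π p e r f) : n ≠ 0 := by
  rw [hN.eq]
  refine mul_ne_zero ?_ ?_
  · exact Finset.prod_ne_zero_iff.2 fun i _ => pow_ne_zero _ (hN.pp i).ne_zero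
  · exact Finset.prod_ne_zero_iff.2 fun i _ => pow_ne_zero _ (hN.rp i).ne_zero

/-- for large primes the two forms of the class agree -/
theorem kl_of (hSPP : SPP) {n m k : ℕ} {π : Fin m → PP} {p e : Fin m → ℕ} {r f : Fin k → ℕ}
    (hN : NF n π p e r f) {w0 : ZMod 3} {c : Fin m → ZMod 3} {E q : ℕ} (hq : q.Prime)
    (hqp : ∀ i, p i < q) (h : InCT E π w0 c q) : Kl π w0 c ((q : ℤ) ^ E) := by
  refine ⟨h.1, fun i => ?_⟩
  have hn := CLSC.norm_of _ _ (hN.pπ i)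
  have : Fact (p i).Prime := ⟨hN.pp i⟩
  have hd : ¬ (π i).1 ∣ (q : Eis) := by
    rw [dvd_natCast_iff hn]
    intro h1
    have h2 := (Nat.prime_dvd_prime_iff_eq (hN.pp i) hq).1 h1
    have h3 := hqp i
    omega
  have h1 : (((q : ℤ) ^ E : ℤ) : Eis) = (q : Eis) ^ E := by
    push_cast
    rfl
  rw [h1, sym_pow (π i).2.1 (hSPP.2.2.2.1 (π i)).1 hd]
  exact h.2 i

theorem below (hSPP : SPP) {h n m k : ℕ} {π : Fin m → PP} {p e : Fin m → ℕ}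
    {r f : Fin k → ℕ} {w0 : ZMod 3} {c : Fin m → ZMod 3} (hN : NF n π p e r f) (a t : ℕ)
    (R : ℤ → Prop)
    (hR : ∀ A : ℤ, A ≠ 0 → CubeRank.GenBy A (CubeRank.rr A) → CubeRank.rr A < t → R A)
    (hgen : ∃ M : ℕ, ∀ E q : ℕ, (E = 1 ∨ E = 2) → q.Prime → M < q → q % 3 = a →
      InCT E π w0 c q → ∃ d, CubeRank.GenBy (BB h n E q) d)
    (D P : ℝ)
    (hD : ∃ K : ℝ, ∀ σ : ℝ, 1 < σ → σ ≤ 2 →
      D * Real.log (1 / (σ - 1)) - K ≤ sm {q : ℕ | q % 3 = a ∧ InCT 1 π w0 c q} σ +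
        sm {q : ℕ | q % 3 = a ∧ InCT 2 π w0 c q} σ)
    (hP : ∃ K : ℝ, ∀ σ : ℝ, 1 < σ → σ ≤ 2 →
      sm (WR h n π w0 c a 1 t) σ + sm (WR h n π w0 c a 2 t) σ ≤
        P * Real.log (1 / (σ - 1)) + K) :
    BelowA ((3 ^ h * n : ℕ) : ℤ) a (Kl π w0 c) (fun A => tf (R A)) (D - P) := by
  classical
  obtain ⟨M, hM⟩ := hgen
  have hBB : ∀ E q : ℕ, ((3 ^ h * n : ℕ) : ℤ) * (q : ℤ) ^ E = BB h n E q := by
    intro E q
    unfold BB
    push_cast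
    rfl
  obtain ⟨K, hK⟩ := low (fun E => {q : ℕ | q % 3 = a ∧ InCT E π w0 c q})
    (fun E => WR h n π w0 c a E t)
    (fun E => {q : ℕ | q % 3 = a ∧ Kl π w0 c ((q : ℤ) ^ E) ∧
      R (((3 ^ h * n : ℕ) : ℤ) * (q : ℤ) ^ E)}) P D (M + ∑ i, p i)
    (fun E q hE hq hqM hqS hqW => by
      have hp : ∀ i, p i < q := by
        intro i
        have := Finset.single_le_sum (f := p) (fun j _ => Nat.zero_le _) (Finset.mem_univ i)
        omega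
      refine ⟨hqS.1, kl_of hSPP hN hq hp hqS.2, ?_⟩
      rw [hBB]
      obtain ⟨d, hd⟩ := hM E q hE hq (by omega) hqS.1 hqS.2
      refine hR _ ?_ (CubeRank.gen_rr hd) ?_
      · unfold BB
        refine mul_ne_zero (mul_ne_zero (pow_ne_zero _ (by norm_num)) ?_) (pow_ne_zero _ ?_)
        · exact_mod_cast n_ne hN
        · exact_mod_cast hq.ne_zero
      · by_contra hlt
        exact hqW ⟨hqS.1, hqS.2, not_lt.1 hlt⟩) hD hP
  refine ⟨K, fun σ h1 h2 => ?_⟩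
  obtain ⟨T, hT⟩ := hK σ h1 h2
  refine ⟨T, hT.trans (le_of_eq ?_)⟩
  unfold SumA
  refine Finset.sum_congr rfl fun E _ => Finset.sum_congr rfl fun q _ => ?_
  show ind {q : ℕ | q % 3 = a ∧ Kl π w0 c ((q : ℤ) ^ E) ∧
    R (((3 ^ h * n : ℕ) : ℤ) * (q : ℤ) ^ E)} σ q = _
  unfold tf
  beta_reduce
  by_cases hq : q.Prime ∧ q % 3 = a ∧ Kl π w0 c ((q : ℤ) ^ E)
  · rw [if_pos hq]
    by_cases hRq : R (((3 ^ h * n : ℕ) : ℤ) * (q : ℤ) ^ E)
    · rw [ind_mem (S := {q : ℕ | q % 3 = a ∧ Kl π w0 c ((q : ℤ) ^ E) ∧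
        R (((3 ^ h * n : ℕ) : ℤ) * (q : ℤ) ^ E)}) hq.1 ⟨hq.2.1, hq.2.2, hRq⟩, if_pos hRq,
        one_mul]
    · rw [ind_not fun h => hRq h.2.2.2, if_neg hRq, zero_mul]
  · rw [if_neg hq, ind_not fun h => hq ⟨h.1, h.2.1, h.2.2.1⟩]

end CBE

theorem CBE_thm (hCLN : Stmt_CLN) (hCLU : Stmt_CLU) (hCLT : Stmt_CLT) (hSPP : SPP) :
    Stmt_CBE := by
  intro h n m k π p e r f w0 c hN hh t R hR
  constructor
  · obtain ⟨⟨M, hM⟩, hT⟩ := hCLN h n m k π p e r f w0 c hN hh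
    obtain ⟨K, hK⟩ := hCLT m π p hN.pp hN.p1 hN.pπ hN.pinj w0 c 2 (Or.inr rfl)
    have := CBE.below hSPP hN 2 t R hR
      ⟨M, fun E q hE hq hqM hq3 hqc => ⟨_, hM E q hE hq hqM hq3 hqc⟩⟩ (1 / 3 ^ (m + 1))
      (LI (sN h n π p e r w0 c) (t - vN h n π p e r w0 c) / 3 ^ (m + 1))
      ⟨K, fun σ h1 h2 => (hK σ h1 h2).1⟩ (hT t)
    rwa [← sub_div] at this
  · obtain ⟨⟨M, hM⟩, hT⟩ := hCLU h n m k π p e r f w0 c hN hh
    obtain ⟨K, hK⟩ := hCLT m π p hN.pp hN.p1 hN.pπ hN.pinj w0 c 1 (Or.inl rfl)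
    have := CBE.below hSPP hN 1 t R hR
      ⟨M, fun E q hE hq hqM hq3 hqc => ⟨_, hM E q hE hq hqM hq3 hqc⟩⟩ (1 / 3 ^ (m + 1))
      (LS (sN h n π p e r w0 c) (vN h n π p e r w0 c) t / 3 ^ (m + 1))
      ⟨K, fun σ h1 h2 => (hK σ h1 h2).1⟩ (hT t)
    rwa [← sub_div] at this

end Pool.Agent.PTN

end

section

/-!
# The law of the ranks of prime twists for `q = 1 (mod 3)`: a skew-symmetric matrix of size `s + 1`

Upgrade of the law of `PTN` (hand-in PrimeTwistDistribution): for `q = 1 (mod 3)` the law is that of `v + (s + 1 - rank M)`, `M` a random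
skew-symmetric matrix of size `s + 1` (before: size `s - 1`, except with probability `3^-s`, when only `v + s + 1` was known). The new input is the matrix
for the zero pattern (`NBX`, `MTZ` of StW). Everything of the other statement files may be imported or taken as a hypothesis.
-/

set_option autoImplicit false

open NumberField IsDedekindDomain Finset
open scoped nonZeroDivisors Pointwise

namespace Pool.Agent.PTK

open Pool.Agent.Lib_helper18 Pool.Agent.Lib_helper18.Eis Pool.Agent.Lib_helper84.Cub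
open Pool.Agent.PT Pool.Agent.PTE Pool.Agent.PT3 Pool.Agent.PTL Pool.Agent.PTN

/-- PTK_CLV: the distribution of the rank in a class, `q = 1 (mod 3)`.
Proof. `d = sN`, `v` from `NHPT`, the system `b : Fin sN → ℤ` from `PLE`; `τ = t - vN`. (1) Primes not in `ZP v`: as in `CLU_thm` (PTN/CLU.lean; `DLU`, `SMT`, every such prime is in
`Pat v δ` for two `δ ≠ 0`: `PAT`): `≤ (1 - 1 / 3^d) LI (d - 1) τ / 3^(m+1) log + K`. (2) Primes in `ZP v`, large: `q ∈ ZP b` (`ZPV`), `rr B ≤ vN + 1 + kS` (`NBX`; `WqS ⊆ VS` gives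
`Nat.log 3 (card WqS) ≤ vN`; `CubeRank.rr_le`), so `t ≤ rr B` implies `τ - 1 ≤ kS`; `MTZ` for the empty configuration (`M = N = 0`; `QM .. 1 E` is then `q % 3 = 1 ∧ InCT`):
`≤ (1 / 3^d) LI d (τ - 1) / 3^(m+1) log + K`. (3) The sum of the two bounds is `LI (d + 1) τ / 3^(m+1)`: `ESZ` for `F c = [τ ≤ c]` (`Esk_ind` in PTN/LAW.lean;
`[τ ≤ c + 1] = [τ - 1 ≤ c]`). -/
def Stmt_CLV : Prop := ∀ (h n m k : ℕ) (π : Fin m → PP) (p e : Fin m → ℕ) (r f : Fin k → ℕ)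
  (w0 : ZMod 3) (c : Fin m → ZMod 3), NF n π p e r f → h ≤ 2 →
  ∀ t : ℕ, ∃ K : ℝ, ∀ σ : ℝ, 1 < σ → σ ≤ 2 →
    BDENS.sm (WR h n π w0 c 1 1 t) σ + BDENS.sm (WR h n π w0 c 1 2 t) σ ≤
      LI (sN h n π p e r w0 c + 1) (t - vN h n π p e r w0 c) / 3 ^ (m + 1) *
        Real.log (1 / (σ - 1)) + K

/-- PTK_CAV: averages in a class, `q = 1 (mod 3)`. As `CAB_thm` (PTN/CAB.lean), first part, with `CLV` in place of `CLN` (and the first part of `CLU`); `LAW` (first part) for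
`s = sN + 1`. -/
def Stmt_CAV : Prop := ∀ (h n m k : ℕ) (π : Fin m → PP) (p e : Fin m → ℕ) (r f : Fin k → ℕ)
  (w0 : ZMod 3) (c : Fin m → ZMod 3), NF n π p e r f → h ≤ 2 →
  ∀ F : ℕ → ℝ, Monotone F → 0 ≤ F 0 →
  AboveA ((3 ^ h * n : ℕ) : ℤ) 1 (Kl π w0 c) (fun A => F (CubeRank.rr A))
    (Esk (sN h n π p e r w0 c + 1) (fun x => F (vN h n π p e r w0 c + x)) / 3 ^ (m + 1))

/-- PTK_CBV: lower bounds in a class, `q = 1 (mod 3)`. As `CBE_thm` (PTN/CBE.lean), first part, with `CLV`. -/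
def Stmt_CBV : Prop := ∀ (h n m k : ℕ) (π : Fin m → PP) (p e : Fin m → ℕ) (r f : Fin k → ℕ)
  (w0 : ZMod 3) (c : Fin m → ZMod 3), NF n π p e r f → h ≤ 2 → ∀ (t : ℕ) (R : ℤ → Prop),
  (∀ A : ℤ, A ≠ 0 → CubeRank.GenBy A (CubeRank.rr A) → CubeRank.rr A < t → R A) →
  BelowA ((3 ^ h * n : ℕ) : ℤ) 1 (Kl π w0 c) (fun A => tf (R A))
    ((1 - LI (sN h n π p e r w0 c + 1) (t - vN h n π p e r w0 c)) / 3 ^ (m + 1))

open Classical in
/-- PTK_ALV: the averages over all `A`, `q = 1 (mod 3)`. As `ALLQ_thm` (PTN/ALLQ.lean), the parts for `a = 2`, with `CAV`, `CBV`; `LAW` for the size `sN + 1`. -/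
def Stmt_ALV : Prop := ∀ (h n m k : ℕ) (π : Fin m → PP) (p e : Fin m → ℕ) (r f : Fin k → ℕ),
  NF n π p e r f → h ≤ 2 → ∀ μ : ℕ, μ = m + (if h = 1 then 0 else 1) →
  AboveA ((3 ^ h * n : ℕ) : ℤ) 1 (fun _ => True) (fun A => 3 ^ CubeRank.rr A)
    (4 * (5 / 3) ^ μ) ∧
  (Even (k + if h = 1 then 1 else 0) →
    BelowA ((3 ^ h * n : ℕ) : ℤ) 1 (fun _ => True) (fun A => tf (CubeRank.rr A ≤ 1))
      (23 / 24 * (2 / 3) ^ μ)) ∧
  (Odd (k + if h = 1 then 1 else 0) →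
    BelowA ((3 ^ h * n : ℕ) : ℤ) 1 (fun _ => True)
      (fun A => tf (¬ ∃ X Y : ℚ, X ^ 3 + Y ^ 3 = (A : ℚ))) (5 / 8 * (2 / 3) ^ μ))

open Classical in
/-- PTK_MAV: the theorem.
Proof. As `MAINQ_thm` (PTN/MAINQ.lean) with `CAV`, `CBV`, `ALV` for `q = 1 (mod 3)`. (`Stmt_MAINQ` alone does not suffice because the functions `v`, `s` are
existentially quantified: repeat the proof with the new inputs.) -/
def Stmt_MAV : Prop := ∀ N : ℕ, 0 < N → (∀ p : ℕ, p.Prime → ¬ p ^ 3 ∣ N) →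
  ∀ m k δ μ : ℕ, m = (N.primeFactors.filter (fun p => p % 3 = 1)).card →
  k = (N.primeFactors.filter (fun p => p % 3 = 2)).card →
  δ = (if 3 ∣ N ∧ ¬ 9 ∣ N then 1 else 0) → μ + δ = m + 1 →
  (∃ v s : (ZMod (9 * N))ˣ → ℕ,
    (∀ u : (ZMod (9 * N))ˣ, s u + (if Nu1 N u then 1 else 0) = v u + k + δ) ∧
    (∑ᶠ u : (ZMod (9 * N))ˣ, (3 : ℝ) ^ v u ≤ (5 / 3) ^ μ * (9 * N).totient) ∧
    ((2 / 3 : ℝ) ^ μ * (9 * N).totient ≤
      Nat.card {u : (ZMod (9 * N))ˣ // v u = 0 ∧ ¬ Nu1 N u}) ∧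
    (¬ 3 ∣ N → (∃ p : ℕ, p.Prime ∧ p ∣ N ∧ (p % 9 = 2 ∨ p % 9 = 5)) →
      1 / 3 * (2 / 3 : ℝ) ^ m * (9 * N).totient ≤
        Nat.card {u : (ZMod (9 * N))ˣ // v u = 0 ∧ Nu1 N u}) ∧
    (∀ (u : (ZMod (9 * N))ˣ) (F : ℕ → ℝ), Monotone F → 0 ≤ F 0 →
      AboveA N 2 (Cu N u) (fun A => F (CubeRank.rr A))
        (Esk (s u) (fun x => F (v u + x)) / 3 ^ (m + 1)) ∧
      AboveA N 1 (Cu N u) (fun A => F (CubeRank.rr A))
        (Esk (s u + 1) (fun x => F (v u + x)) / 3 ^ (m + 1))) ∧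
    ∀ u : (ZMod (9 * N))ˣ, v u = 0 →
      (Even (s u) →
        BelowA N 2 (Cu N u) (fun A => tf (¬ ∃ X Y : ℚ, X ^ 3 + Y ^ 3 = (A : ℚ)))
          (5 / 8 / 3 ^ (m + 1)) ∧
        BelowA N 1 (Cu N u) (fun A => tf (CubeRank.rr A ≤ 1)) (23 / 24 / 3 ^ (m + 1))) ∧
      (Odd (s u) →
        BelowA N 2 (Cu N u) (fun A => tf (CubeRank.rr A ≤ 1)) (23 / 24 / 3 ^ (m + 1)) ∧
        BelowA N 1 (Cu N u) (fun A => tf (¬ ∃ X Y : ℚ, X ^ 3 + Y ^ 3 = (A : ℚ)))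
          (5 / 8 / 3 ^ (m + 1)))) ∧
  (∃ M : ℕ, ∀ q e : ℕ, q.Prime → M < q → (e = 1 ∨ e = 2) →
    CubeRank.GenBy (N * q ^ e) (CubeRank.rr (N * q ^ e))) ∧
  AboveA N 2 (fun _ => True) (fun A => 3 ^ CubeRank.rr A) (4 * (5 / 3) ^ μ) ∧
  AboveA N 1 (fun _ => True) (fun A => 3 ^ CubeRank.rr A) (4 * (5 / 3) ^ μ) ∧
  (Even (k + δ) →
    BelowA N 2 (fun _ => True)
      (fun A => tf (¬ ∃ X Y : ℚ, X ^ 3 + Y ^ 3 = (A : ℚ))) (5 / 8 * (2 / 3) ^ μ) ∧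
    BelowA N 1 (fun _ => True) (fun A => tf (CubeRank.rr A ≤ 1)) (23 / 24 * (2 / 3) ^ μ)) ∧
  (Odd (k + δ) →
    BelowA N 2 (fun _ => True) (fun A => tf (CubeRank.rr A ≤ 1)) (23 / 24 * (2 / 3) ^ μ) ∧
    BelowA N 1 (fun _ => True)
      (fun A => tf (¬ ∃ X Y : ℚ, X ^ 3 + Y ^ 3 = (A : ℚ))) (5 / 8 * (2 / 3) ^ μ))

end Pool.Agent.PTK

end

section

/-!
# Small ranks of prime twists: at least one third (one half if `3 ∣ N`) of the ranks is at most `2`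

Stage 3 of the project PTK, part 3. Everything of the other statement files may be imported or taken as a hypothesis.
-/

set_option autoImplicit false

open NumberField IsDedekindDomain Finset
open scoped nonZeroDivisors Pointwise

namespace Pool.Agent.PTK

open Pool.Agent.Lib_helper18 Pool.Agent.Lib_helper18.Eis Pool.Agent.Lib_helper84.Cub
open Pool.Agent.PT Pool.Agent.PTE Pool.Agent.PT3 Pool.Agent.PTL Pool.Agent.PTN

/-- PTK_UPL: from upper bounds to a lower bound.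
Proof. For `σ` take a finite set `T` of primes for which the partial sums of the two series `BDENS.sm (S E) σ` are at least the series minus `1`
(`DOM.approx` in PTL/DOM.lean). For a prime `q > M` in `S E` (`E = 1, 2`): `tf (R A) ≥ c₀ - G E q`; the primes `≤ M` contribute a constant; the sum of the
`tf (R A) q^(-σ)` over all `q ∈ T` with `q % 3 = a ∧ W (q ^ E)` is at least that over the large `q ∈ S E` (the terms are `≥ 0`), so at least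
`c₀ (y log - K - 2 - const) - (x log + K')`. See `CBE_thm` (PTN/CBE.lean), which is the case of tails. -/
def Stmt_UPL : Prop := ∀ (n : ℤ) (a M : ℕ) (W R : ℤ → Prop) (S : ℕ → Set ℕ) (G : ℕ → ℕ → ℝ) (x y c₀ : ℝ),
  0 ≤ c₀ →
  (∀ E q : ℕ, (E = 1 ∨ E = 2) → q.Prime → M < q → q ∈ S E → q % 3 = a ∧ W ((q : ℤ) ^ E)) →
  (∀ E q : ℕ, (E = 1 ∨ E = 2) → q.Prime → M < q → q ∈ S E → c₀ - G E q ≤ tf (R (n * (q : ℤ) ^ E))) →
  (∃ K : ℝ, ∀ σ : ℝ, 1 < σ → σ ≤ 2 →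
    y * Real.log (1 / (σ - 1)) - K ≤ BDENS.sm (S 1) σ + BDENS.sm (S 2) σ) →
  UpS S G x → BelowA n a W (fun A => tf (R A)) (c₀ * y - x)

/-- PTK_PR2: small ranks in a class, `q = 2 (mod 3)`.
Proof. `S E = {q | q % 3 = 2 ∧ InCT E π w0 c q}`, system from `PLE` (`s = sN`), `κ = kS`, `card WqS = 3^w`, `rr B ≤ w + κ` for large `q` (`NBW`, `WGR`, as in `AM2`). If `s` is even:
`rr B ≥ 3` implies `κ ≥ 1` or `w ≥ 3`, so `1 - tf (rr B ≤ 2) ≤ [1 ≤ κ] + (3^w - 1) / 26`; if `s` is odd: `rr B ≥ 3` implies `κ ≥ 2` or `w ≥ 2`, so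
`1 - tf ≤ [2 ≤ κ] + (3^w - 1) / 8`. `JP2` with `(k₀, F) = (0, [t ≤ ·])` (`Esk s F = LI s t`: `Esk_ind` in
PTN/LAW.lean; `LAW`: `LI s 1 ≤ 3/8`, `LI s 2 ≤ 1/24`) and `(1, 1)`: `gM 1 (v - v₀) = 4` (`GMB`, `VDIM`, `dN ≤ 1`). `UPL` with `c₀ = 27/26`, `G = [1 ≤ κ] + 3^w / 26`, resp. `c₀ = 9/8`,
`G = [2 ≤ κ] + 3^w / 8` (the sum of two functions: `UPS` (1) with `ι = Bool`), the lower bound of the total from `CLT` (`a = 2`): `27/26 - 3/8 - 4/26 ≥ 1/2`,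
`9/8 - 1/24 - 4/8 ≥ 1/2`, times `1 / 3^(m+1)`; `SUMA` (4). -/
def Stmt_PR2 : Prop := ∀ (h n m k : ℕ) (π : Fin m → PP) (p e : Fin m → ℕ) (r f : Fin k → ℕ)
  (w0 : ZMod 3) (c : Fin m → ZMod 3), NF n π p e r f → h ≤ 2 → dN h n w0 ≤ 1 →
  BelowA ((3 ^ h * n : ℕ) : ℤ) 2 (Kl π w0 c) (fun A => tf (CubeRank.rr A ≤ 2))
    (1 / 2 / 3 ^ (m + 1))

/-- PTK_PR1: small ranks in a class, `q = 1 (mod 3)`.
Proof. As `PR2` and `AM1`: for large `q`, with `κ' = κ_δ` (`q ∈ Pat v δ`), resp. `κ' = κ + 1` (`q ∈ ZP b`), `rr B ≤ w + κ'`. `2 (1 - tf) ≤ ∑_δ [q ∈ Pat v δ] ([t ≤ κ_δ] + (3^w - 1)/D) +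
[q ∈ ZP b] 2 ([t ≤ κ + 1] + (3^w - 1)/D)` with `(t, D) = (1, 26)` if `d + 1` is even, `(2, 8)` if `d + 1` is odd; `JPG`, `JPZ`, `ESZ` (`Esk (d + 1) [t ≤ ·] = LI (d + 1) t`), `LAW`, `CLT` (`a = 1`). -/
def Stmt_PR1 : Prop := ∀ (h n m k : ℕ) (π : Fin m → PP) (p e : Fin m → ℕ) (r f : Fin k → ℕ)
  (w0 : ZMod 3) (c : Fin m → ZMod 3), NF n π p e r f → h ≤ 2 → dN h n w0 ≤ 1 →
  BelowA ((3 ^ h * n : ℕ) : ℤ) 1 (Kl π w0 c) (fun A => tf (CubeRank.rr A ≤ 2))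
    (1 / 2 / 3 ^ (m + 1))

/-- PTK_PRB: small ranks, all classes.
Proof. `NFE`, `SUMA` (2) and (4), `PR2`, `PR1`: `h ≠ 0`: `dN ≤ 1` for all classes: `1/2`. `h = 0`: `dN ≤ 1` for two of the three `w0`: `1/3` (lower bound `0` for the others). -/
def Stmt_PRB : Prop := ∀ N : ℕ, 0 < N → (∀ p : ℕ, p.Prime → ¬ p ^ 3 ∣ N) → ∀ a : ℕ, (a = 1 ∨ a = 2) →
  BelowA N a (fun _ => True) (fun A => tf (CubeRank.rr A ≤ 2)) (1 / 3) ∧
  (3 ∣ N → BelowA N a (fun _ => True) (fun A => tf (CubeRank.rr A ≤ 2)) (1 / 2))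

end Pool.Agent.PTK

end

section

/-!
# Full law of the ranks of prime twists: the matrix of the minus part, joint densities, the theorem

Stage 4 of the project PTK, part 2 (part 1: `StZ.lean`). Everything of `StL`, …, `StX`, `StZ` and of `PT`, `PTE`, `PT3`, `PTL`, `PTN` may be
imported or taken as a hypothesis; other statements of this file may be hypotheses if your docstring says so.

The law: in every class the rank of `X³ + Y³ = N q^e` is dominated by the sum of the coranks of two independent random alternating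
matrices over `F_3`, of sizes `v` (minus part) and `s` (plus part; `s + 1` if `q = 1 (mod 3)`).
-/

set_option autoImplicit false

open NumberField IsDedekindDomain Finset
open scoped nonZeroDivisors Pointwise

namespace Pool.Agent.PTK

open Pool.Agent.Lib_helper18 Pool.Agent.Lib_helper18.Eis Pool.Agent.Lib_helper84.Cub
open Pool.Agent.PT Pool.Agent.PTE Pool.Agent.PT3 Pool.Agent.PTL Pool.Agent.PTN

/-! ### The matrix of the minus part -/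

/-- Classes of the minus part with solutions for all pairs: base `z j`, norm `z i`. -/
structure SysF {l : ℕ} (z : Fin l → Eis) (P Q P' Q' : Fin l → Fin l → Eis) : Prop where
  ind : ∀ c : Fin l → ℕ, (∃ i, ¬ 3 ∣ c i) → ¬ ∃ t : Eis, t ^ 3 = ∏ i, z i ^ c i
  mc : ∀ i, MCl (z i)
  sol : ∀ j i, j ≠ i → SolE (z j) (z i) (P j i) (Q j i) (P' j i) (Q' j i)
  sw : ∀ j i, j ≠ i → P i j = P j i ∧ Q i j = - P' j i ∧ P' i j = - Q j i ∧ Q' i j = Q' j i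

/-- the matrix of the minus part -/
noncomputable def MaZ {l : ℕ} (z : Fin l → Eis) (P Q P' Q' : Fin l → Fin l → Eis) (B : ℤ) :
    Matrix (Fin l) (Fin l) (ZMod 3) := fun j i =>
  if j = i then 0 else OZE B (z j) (z i) (P j i) (Q j i) (P' j i) (Q' j i)

/-- `B` is a local cube at `λ`, or at most one of the `z i` is not -/
def TyZ {l : ℕ} (z : Fin l → Eis) (B : ℤ) : Prop :=
  LCE lam (B : Eis) ∨ ∀ i j, i ≠ j → LCE lam (z i) ∨ LCE lam (z j)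

/-- PTK_CHE: the pairing of `z j` with a product.
Proof. Hypotheses: `Stmt_TAE`, `Stmt_THE`. Induction on `∑ c i`. `∑ c i = 1`: the product is `z i`; `i ≠ j`: the solution `(P j i, ..)`; `i = j`: the solution `(0, 1, 1, 0)` of
`SolE (z j) (z j)` (`n2`, `g1`, `g2` are clear, `z j ≠ 0`), `THE` (its condition `LCE lam (z j) ∨ LCE lam B` follows from each of the three conditions, as `c j ≠ 0`). Step: choose `i` with
`c i ≠ 0`, `c = c' + e_i`, `c' ≠ 0`; `TAE` for `x₁ = ∏ z^(c')`, `x₂ = z i` (`i = j`: the solution `(0, 1, 1, 0)`); `x₁ x₂ = ∏ z^c` is not a cube (`ind`; `c i = 1, 2` is not divisible by `3`);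
`MCl` of a product (`lam` is prime; `t` is a product); `AGE B (∏ ..)`: `tm` is additive in the first variable (`STM`), a prime dividing the product divides a `z i`; a product of local
cubes is a local cube. -/
def Stmt_CHE : Prop := ∀ (l : ℕ) (z : Fin l → Eis) (P Q P' Q' : Fin l → Fin l → Eis),
  SysF z P Q P' Q' → ∀ (j : Fin l) (c : Fin l → ℕ), (∀ i, c i ≤ 2) → (∃ i, c i ≠ 0) →
  ∃ p q p' q' : Eis, SolE (z j) (∏ i, z i ^ c i) p q p' q' ∧ ∀ B : ℤ, BGE B →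
    (∀ i, AGE B (z i)) → (LCE lam (z j) ∨ LCE lam (B : Eis) ∨ ∀ i, c i ≠ 0 → LCE lam (z i)) →
    OZE B (z j) (∏ i, z i ^ c i) p q p' q' = ∑ i, MaZ z P Q P' Q' B j i * (c i : ZMod 3)

/-- PTK_ZKE: the matrix is alternating, and the classes of points are in the kernel.
Proof. Hypotheses: `Stmt_CHE`, `Stmt_TLE`, `Stmt_TPE`, `Stmt_LCI`. For `q > N₀` (`N₀ ≥ N`, `N₀ ≥ 3`): `BGE B`, `AGE B (z i)` (a place over `q` does not divide `N`, `V B = E` there). Antisymmetry: `TLE` with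
`sw` (`i ≠ j`; its condition is `TyZ`). Kernel: let `x = ∏ z^c` (not a cube, `MCl x`, `AGE B x`, as in `CHE`). For `j` let `(p, q, p', q')` be the solution of `CHE`; it does not depend on
`B`; `DNE X Y p q p' q'` for `q > N₀` (as in `Stmt_DCK`: if `D_i = X p' + w^i p Y = 0` then `p' ≠ 0` by `n2` and `p'³ (X³ + x Y³) = - Y³ (p³ - x p'³)`; with `x (X³ + x Y³) = B c₀³`:
`B (c₀ p')³ = - x Y³ (p³ - x p'³)`, and the valuations at a place over `q` are `E` and `0` modulo `3` if `q` does not divide `x (p³ - x p'³) ≠ 0`; the same for `D'_i` with `x q'³ - q³`).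
`N₀` is the maximum over all `j` and `c`. (A) `z j` is a local cube: `CHE`, and `TPE` (first case): `OZE = 0`. (B) `B` is a local cube, `z j` is not: `CHE`; `TPE`: if `x` is a local cube, second case
(`GoodPt`: not all `z i` are local cubes); otherwise the third case. (C) neither: by `TyZ` all `z i`, `i ≠ j`, are local cubes. If `c j = 0`: `CHE` (third condition), `x` is a local cube, `TPE`,
second case. If `c j ≠ 0`: `∑_{k, i} c_k M_{k i} c_i = 0` (`M` antisymmetric, `2 ≠ 0`), and `∑_i M_{k i} c_i = 0` for `k ≠ j` by (A), so `c_j ∑_i M_{j i} c_i = 0`, `c_j = ± 1`. -/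
def Stmt_ZKE : Prop := ∀ (l N : ℕ) (z : Fin l → Eis) (P Q P' Q' : Fin l → Fin l → Eis),
  SysF z P Q P' Q' → 0 < N → (∀ π : PP, V π.1 (N : Eis) ≤ 2) →
  (∀ (π : PP) (i : Fin l), ¬ π.1 ∣ (N : Eis) → ¬ π.1 ∣ z i) →
  ∃ N₀ : ℕ, ∀ (E q : ℕ) (B : ℤ), (E = 1 ∨ E = 2) → q.Prime → N₀ < q →
    B = (N : ℤ) * (q : ℤ) ^ E → (∀ (σ : PP) (i : Fin l), tm σ.1 (z i) (B : Eis) = 0) →
    TyZ z B →
    (∀ i j, MaZ z P Q P' Q' B i j = - MaZ z P Q P' Q' B j i) ∧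
    ∀ c : Fin l → ℕ, (∀ i, c i ≤ 2) → (∃ i, c i ≠ 0) → ∀ X Y : Eis,
      PtE (B : Eis) (∏ i, z i ^ c i) X Y →
      ((∀ i, LCE lam (z i)) ∨ GoodPt B (∏ i, z i ^ c i) X Y) →
      (LCE lam (B : Eis) → GoodW (∏ i, z i ^ c i) X Y) →
      ∀ j, ∑ i, MaZ z P Q P' Q' B j i * (c i : ZMod 3) = 0

/-! ### Dependence of the pairing on the prime -/

/-- the hypotheses on a pair: base `b`, norm `x` -/
structure HypE (N : ℕ) (b x p q p' q' : Eis) : Prop where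
  N0 : 0 < N
  sol : SolE b x p q p' q'
  hb : b ≠ 0
  hx : x ≠ 0
  unr : ∀ π : PP, ¬ π.1 ∣ (N : Eis) → ¬ π.1 ∣ b ∧ ¬ π.1 ∣ x
  cf : ∀ π : PP, V π.1 (N : Eis) ≤ 2

/-- PTK_DE2: the pairing as a function of the prime `Q = 2 (mod 3)` and of `E`.
Proof. As `DCOT_thm` (PT3/DCOT.lean) and `DCK_thm` (PTK/DCK.lean). `B = N Q^E`, `M` a rational integer divisible by `N` and by the norms of `p³ + b q³`, `p'³ + b q'³`, `p³ - x p'³`,
`x q'³ - q³` and of the `GfE`; `f₀ = 9 |M|`, `Q > N₀`. (a) `π ∣ M`, `b` a local cube at `π`: the term is `AVE (some π) B b + tm w x`; `ASE s B .. r` is the same for all good `r` (`AVE`; `sy (some π) B x = 0`);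
fix a good `r₀` as in `DP1_thm` (PTK/DP1.lean; `PTL/DC.lean: place_LC`): `ASE s B r₀ = ASE s N r₀ + E ASE s Q r₀`, and `ASE s Q r₀` is a multiple of `ch Q`, a character of `Q` modulo `f`.
(b) `π ∣ M`, `b` not a local cube: `TTE` depends only on `V π B = V π N`: a constant. (c) `π ∤ M`, `π ∤ Q`: `b`, `x`, `B` are units, the `LfE` at a good `r` are units: `TTE = 0`. (d) `π = Q`:
`tm b B = 0` and `V b = 0` give `ch b = 0`: `b` is a local cube, `TTE = AVE = - E TAUE Q p q p' q' ξ` (as `DP4_thm`), `tm w x = 0`. (e) `λ`: `b` a local cube: `AVE none B b + sl w x`, as (a)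
(`sl B x = 0`: product formula; `sl Q a` depends only on `Q` modulo `9`: `SLC`); `b` not, `x` a local cube: `UVE sl B b x` is additive in `B` up to the constant `sl w (x b)` and `AVE none B x p (-p') (-q) q'` as
before (`SolE x b p (-p') (-q) q'`, `sl B b = 0`); otherwise `lfE b x` is a constant. -/
def Stmt_DE2 : Prop := ∀ (N : ℕ) (b x p q p' q' : Eis), HypE N b x p q p' q' →
  ∃ f₀ : ℕ, 0 < f₀ ∧ ∀ f : ℕ, 0 < f → f₀ ∣ f →
  ∃ (C : ZMod 3) (Φ : (ZMod f)ˣ →* Multiplicative (ZMod 3)) (N₀ : ℕ),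
    ∀ (E Q : ℕ) (hQ : Q.Coprime f), (E = 1 ∨ E = 2) → Q.Prime → N₀ < Q → Q % 3 = 2 →
      (∀ σ : PP, tm σ.1 b ((N : Eis) * (Q : Eis) ^ E) = 0) →
      (∀ σ : PP, tm σ.1 x ((N : Eis) * (Q : Eis) ^ E) = 0) →
      ∀ ξ : Eis, (Q : Eis) ∣ ξ ^ 3 - b → OZE ((N : Eis) * (Q : Eis) ^ E) b x p q p' q' =
        C + E * ((Φ (ZMod.unitOfCoprime Q hQ)).toAdd - TAUE Q p q p' q' ξ)

/-- PTK_DE1: the pairing as a function of the prime `Q = 1 (mod 3)` and of `E`.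
Proof. As `DE2` and `DCKU_thm` (PTK/DCKU.lean); the places over `Q` are `ρ` and `conj ρ`: `- E TAUP ρ .. ξ - E TAUP (conj ρ) .. ξ'`. -/
def Stmt_DE1 : Prop := ∀ (N : ℕ) (b x p q p' q' : Eis), HypE N b x p q p' q' →
  ∃ f₀ : ℕ, 0 < f₀ ∧ ∀ f : ℕ, 0 < f → f₀ ∣ f →
  ∃ (C : ZMod 3) (Φ : (ZMod f)ˣ →* Multiplicative (ZMod 3)) (N₀ : ℕ),
    ∀ (E Q : ℕ) (hQ : Q.Coprime f) (ρ : PP), (E = 1 ∨ E = 2) → Q.Prime → N₀ < Q → Q % 3 = 1 →
      (Q : Eis) = ρ.1 * conj ρ.1 →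
      (∀ σ : PP, tm σ.1 b ((N : Eis) * (Q : Eis) ^ E) = 0) →
      (∀ σ : PP, tm σ.1 x ((N : Eis) * (Q : Eis) ^ E) = 0) →
      ∀ ξ ξ' : Eis, ρ.1 ∣ ξ ^ 3 - b → conj ρ.1 ∣ ξ' ^ 3 - b →
        OZE ((N : Eis) * (Q : Eis) ^ E) b x p q p' q' =
        C + E * ((Φ (ZMod.unitOfCoprime Q hQ)).toAdd - TAUP ρ.1 p q p' q' ξ -
          TAUP (conj ρ.1) p q p' q' ξ')

/-! ### The system of the minus part -/

/-- A basis of `VS` adapted to the place `λ`. -/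
structure BasZ (h n : ℕ) {m k : ℕ} (π : Fin m → PP) (p e : Fin m → ℕ) (r : Fin k → ℕ)
    (w0 : ZMod 3) (c : Fin m → ZMod 3) {l : ℕ} (y : Fin l → Fin (m + 1) → ZMod 3) : Prop where
  ind : LinearIndependent (ZMod 3) y
  mem : ∀ i, y i ∈ VS h n π p e r w0 c
  card : l = vN h n π p e r w0 c
  ty : (h = 0 ∧ wt ((n : ℤ) ^ 2) + w0 = 0) ∨
    ∀ i j, i ≠ j → y i ∈ V0 h n π p e r w0 c ∨ y j ∈ V0 h n π p e r w0 c
  wd : ∀ i j, i < j → y i ∈ V0 h n π p e r w0 c ∨ y j ∈ V0 h n π p e r w0 c ∨ y i 0 = 0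

/-- PTK_ZBA: existence of the basis (linear algebra).
Proof. `V1 = {y ∈ VS | y 0 = 0}`; `V0 ≤ V1 ≤ VS`, each of codimension at most `1` in the next (kernel of a linear functional). Basis: a basis of `V0`, then, if `V0 ≠ V1`, a vector of `V1` outside `V0`, then,
if `V1 ≠ VS`, a vector of `VS` outside `V1`. `wd`: if `i < j` are both outside `V0` they are the last two vectors, and `y i ∈ V1`. `ty`: if not `(h = 0 ∧ wt (n²) + w0 = 0)` then `dN ≤ 1`, so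
`vN ≤ v0N + 1` (`VDIM`): at most one vector is outside `V0`. -/
def Stmt_ZBA : Prop := ∀ (h n m k : ℕ) (π : Fin m → PP) (p e : Fin m → ℕ) (r : Fin k → ℕ)
  (w0 : ZMod 3) (c : Fin m → ZMod 3), h ≤ 2 →
  ∃ (l : ℕ) (y : Fin l → Fin (m + 1) → ZMod 3), BasZ h n π p e r w0 c y

/-- PTK_MSF: existence of the solutions.
Proof. `ind`, `mc`: `ZI`, `ZA` (as in `MSY_thm`, PTK/MSY.lean). For `i < j` (`z i = zN π e (y i)`; the symbols and the divisibilities from `ZT`, `V ≤ 2` from `ZA`): (a) `y i ∈ V0`: `HNE` for the base `z i`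
(`λ⁴ ∣ (z i)² - 1`: `ZL`) and the norm `z j`; (b) `y j ∈ V0`: `HNE` for the base `z j` and the norm `z i`: `SolE (z j) (z i) P Q P' Q'`, so `SolE (z i) (z j) P (-P') (-Q) Q'`; (c) otherwise `y i 0 = 0`:
`HN2` for the base `z i`: it is `Prim` (no factor `w`; products and powers of primary elements), and `sl (z i) lam ≠ 0`: `sl z 3 = - ∑ y i.succ (e i sym (π i) 3) ≠ 0` as `y i ∉ V0` (see the proof of `ZL_thm`,
PTK/ZL.lean), `sl z 3 = 2 sl z w + 2 sl z lam`, `sl z w = 0` (`3 = - w² λ²`). Define the entries for `j > i` by `sw`. -/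
def Stmt_MSF : Prop := ∀ (h n m k : ℕ) (π : Fin m → PP) (p e : Fin m → ℕ) (r f : Fin k → ℕ)
  (w0 : ZMod 3) (c : Fin m → ZMod 3), NF n π p e r f → h ≤ 2 →
  ∀ (l : ℕ) (y : Fin l → Fin (m + 1) → ZMod 3), BasZ h n π p e r w0 c y →
  ∃ P Q P' Q' : Fin l → Fin l → Eis, SysF (fun i => zN π e (y i)) P Q P' Q'

/-- an enumeration of the pairs `i < j` -/
structure Prs {l N : ℕ} (α β : Fin N → Fin l) : Prop where
  lt : ∀ r, α r < β r
  inj : ∀ r r', α r = α r' → β r = β r' → r = r'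
  sur : ∀ i j : Fin l, i < j → ∃ r, α r = i ∧ β r = j

/-- A system of the minus part. -/
structure MnS (h n : ℕ) {m k : ℕ} (π : Fin m → PP) (p e : Fin m → ℕ) (r : Fin k → ℕ)
    (w0 : ZMod 3) (c : Fin m → ZMod 3) {l N : ℕ} (y : Fin l → Fin (m + 1) → ZMod 3)
    (U R U' R' : Fin l → Fin l → Eis) (α β : Fin N → Fin l) : Prop where
  bas : BasZ h n π p e r w0 c y
  sys : SysF (fun i => zN π e (y i)) U R U' R'
  prs : Prs α β

/-- the matrix of the minus part of a class, as a function of the prime -/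
noncomputable def MY (h n : ℕ) {m : ℕ} (π : Fin m → PP) (e : Fin m → ℕ) {l : ℕ}
    (y : Fin l → Fin (m + 1) → ZMod 3) (U R U' R' : Fin l → Fin l → Eis) (E q : ℕ) :
    Matrix (Fin l) (Fin l) (ZMod 3) := MaZ (fun i => zN π e (y i)) U R U' R' (BB h n E q)

/-- the corank of the matrix of the minus part -/
noncomputable def kY (h n : ℕ) {m : ℕ} (π : Fin m → PP) (e : Fin m → ℕ) {l : ℕ}
    (y : Fin l → Fin (m + 1) → ZMod 3) (U R U' R' : Fin l → Fin l → Eis) (E q : ℕ) : ℕ :=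
  l - (MY h n π e y U R U' R' E q).rank

/-- PTK_ZKQ: the number of the classes of points is bounded by the corank of the matrix.
Proof. `ZKE` for `N = 3^h n` (`BB h n E q = N q^E`; `NF`, `ZA`), `tm σ (z i) B = 0` by `ZS`, `ZSU`. `TyZ`: if `h = 0` and `wt (n²) + w0 = 0` then `B² = 1 (mod 9)` (`wt (B²) = wt (n²) + w0`, see `HYPT.lvw`), so `B` is a
local cube (`LCI`, second part); otherwise `BasZ.ty` with `ZL` and `LCI`. Let `W` be the subspace of `VS` of `WSB` (elements `WqS`). For `0 ≠ u ∈ W` let `u = ∑ c_i y_i` (`y` is a basis of `VS`), `c_i ≤ 2` natural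
numbers; `zN u` is `∏ (zN (y i))^(c i)` up to cubes (`ZA`), so `Occ B (∏ ..)`; if `h = 1` all `y i ∈ V0` (`dN = 0`, `VDIM`) and the point is that of `PT`; if `h ≠ 1` (`lv B ≠ 1`): the point of `PTX`, and if `B` is a
local cube that of `PTY`. By `ZKE` the coordinate vector of `u` is in the kernel of the matrix: `card W ≤ 3^(l - rank)`. -/
def Stmt_ZKQ : Prop := ∀ (h n m k : ℕ) (π : Fin m → PP) (p e : Fin m → ℕ) (r f : Fin k → ℕ)
  (w0 : ZMod 3) (c : Fin m → ZMod 3), NF n π p e r f → h ≤ 2 →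
  ∀ (l : ℕ) (y : Fin l → Fin (m + 1) → ZMod 3) (U R U' R' : Fin l → Fin l → Eis),
  BasZ h n π p e r w0 c y → SysF (fun i => zN π e (y i)) U R U' R' →
  ∃ N₀ : ℕ, ∀ E q : ℕ, (E = 1 ∨ E = 2) → q.Prime → N₀ < q → (q % 3 = 1 ∨ q % 3 = 2) →
    InCT E π w0 c q →
    (∀ i j, MY h n π e y U R U' R' E q i j = - MY h n π e y U R U' R' E q j i) ∧
    Nat.log 3 (Nat.card (WqS h n π p e r w0 c (BB h n E q))) ≤ kY h n π e y U R U' R' E q

open Classical in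
/-- the alternating matrix with the entries `M` at the pairs -/
noncomputable def altZ {l N : ℕ} (α β : Fin N → Fin l) (M : Fin N → ZMod 3) :
    Matrix (Fin l) (Fin l) (ZMod 3) := fun i j =>
  (∑ r, if α r = i ∧ β r = j then M r else 0) - ∑ r, if α r = j ∧ β r = i then M r else 0

/-- PTK_CNM: the pairs and the law.
Proof. `M ↦ altZ α β M` is a bijection of `Fin N → ZMod 3` onto the matrices with `Aᵀ = - A` (the diagonal of such a matrix is `0`, as `2 ≠ 0`); so their number is `3^N`. -/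
def Stmt_CNM : Prop := (∀ l : ℕ, ∃ (N : ℕ) (α β : Fin N → Fin l), Prs α β) ∧
  ∀ (l N : ℕ) (α β : Fin N → Fin l), Prs α β →
    (∀ A : Matrix (Fin l) (Fin l) (ZMod 3), (∀ i j, A i j = - A j i) →
      altZ α β (fun r => A (α r) (β r)) = A) ∧
    ∀ g : ℕ → ℝ, (∑ M : Fin N → ZMod 3, g (l - (altZ α β M).rank)) / 3 ^ N = Esk l g

/-! ### Joint densities -/

/-- the primes `q = a (mod 3)` of the class with the entries `M` of the matrix of the minus part -/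
def QMM (h n : ℕ) {m : ℕ} (π : Fin m → PP) (e : Fin m → ℕ) (w0 : ZMod 3) (c : Fin m → ZMod 3)
    {l N : ℕ} (y : Fin l → Fin (m + 1) → ZMod 3) (U R U' R' : Fin l → Fin l → Eis)
    (α β : Fin N → Fin l) (M : Fin N → ZMod 3) (a E : ℕ) : Set ℕ :=
  {q : ℕ | q % 3 = a ∧ InCT E π w0 c q ∧
    ∀ r, MY h n π e y U R U' R' E q (α r) (β r) = M r}

/-- PTK_ZS2: the primes of `QMM` are in `SPZ`, `SMZ`.
Proof. As `MS2_thm` (PTK/MS2.lean), with `DE2` for every pair (`HypE` for `N = 3^h n`, base `z (α r)`, norm `z (β r)`: `SysF.sol`, `ZA`, `NF`; `tm σ z B = 0`: `ZS`). `M r = C r + E (Φ r - TAUE)`: `E = 1`: `TAUE = (C r - M r) + Φ r`;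
`E = 2`: `TAUE = - (C r - M r) + Φ r`. -/
def Stmt_ZS2 : Prop := ∀ (h n m k : ℕ) (π : Fin m → PP) (p e : Fin m → ℕ) (r f : Fin k → ℕ)
  (w0 : ZMod 3) (c : Fin m → ZMod 3), NF n π p e r f → h ≤ 2 →
  ∀ (l N : ℕ) (y : Fin l → Fin (m + 1) → ZMod 3) (U R U' R' : Fin l → Fin l → Eis)
    (α β : Fin N → Fin l), MnS h n π p e r w0 c y U R U' R' α β →
  ∃ f₀ : ℕ, 0 < f₀ ∧ ∀ f' : ℕ, 0 < f' → f₀ ∣ f' →
  ∀ κ : (ZMod f')ˣ →* Multiplicative (Fin (m + 1) → ZMod 3), IsK π κ →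
  ∃ (C : Fin N → ZMod 3) (Φ : (ZMod f')ˣ →* Multiplicative (Fin N → ZMod 3)) (N₀ : ℕ),
    ∀ (q : ℕ) (M : Fin N → ZMod 3), q.Prime → N₀ < q →
      (q ∈ QMM h n π e w0 c y U R U' R' α β M 2 1 →
        q ∈ SPZ (fun i => zN π e (y i)) α (fun r => U (α r) (β r)) (fun r => R (α r) (β r))
          (fun r => U' (α r) (β r)) (fun r => R' (α r) (β r)) κ (Fin.cons w0 c) (C - M) Φ) ∧
      (q ∈ QMM h n π e w0 c y U R U' R' α β M 2 2 →
        q ∈ SMZ (fun i => zN π e (y i)) α (fun r => U (α r) (β r)) (fun r => R (α r) (β r))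
          (fun r => U' (α r) (β r)) (fun r => R' (α r) (β r)) κ (Fin.cons w0 c) (C - M) Φ)

/-- PTK_ZS1: the primes of `QMM` are in `SPZU`, `SMZU`. As `MS1_thm` (PTK/MS1.lean) and `ZS2`, with `DE1`, `ZSU`. -/
def Stmt_ZS1 : Prop := ∀ (h n m k : ℕ) (π : Fin m → PP) (p e : Fin m → ℕ) (r f : Fin k → ℕ)
  (w0 : ZMod 3) (c : Fin m → ZMod 3), NF n π p e r f → h ≤ 2 →
  ∀ (l N : ℕ) (y : Fin l → Fin (m + 1) → ZMod 3) (U R U' R' : Fin l → Fin l → Eis)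
    (α β : Fin N → Fin l), MnS h n π p e r w0 c y U R U' R' α β →
  ∃ f₀ : ℕ, 0 < f₀ ∧ ∀ f' : ℕ, 0 < f' → f₀ ∣ f' →
  ∀ κ : (ZMod f')ˣ →* Multiplicative (Fin (m + 1) → ZMod 3), IsK π κ →
  ∃ (C : Fin N → ZMod 3) (Φ : (ZMod f')ˣ →* Multiplicative (Fin N → ZMod 3)) (N₀ : ℕ),
    ∀ (q : ℕ) (M : Fin N → ZMod 3), q.Prime → N₀ < q →
      (q ∈ QMM h n π e w0 c y U R U' R' α β M 1 1 →
        q ∈ SPZU (fun i => zN π e (y i)) α (fun r => U (α r) (β r)) (fun r => R (α r) (β r))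
          (fun r => U' (α r) (β r)) (fun r => R' (α r) (β r)) κ (Fin.cons w0 c) (C - M) Φ) ∧
      (q ∈ QMM h n π e w0 c y U R U' R' α β M 1 2 →
        q ∈ SMZU (fun i => zN π e (y i)) α (fun r => U (α r) (β r)) (fun r => R (α r) (β r))
          (fun r => U' (α r) (β r)) (fun r => R' (α r) (β r)) κ (Fin.cons w0 c) (C - M) Φ)

/-- PTK_MD2: the joint density, `q = 2 (mod 3)`. As `MT2_thm` (PTK/MT2.lean) with `ZS2` in place of `MS2`; the `SysZ` for `BM2`: `ind`, `cz`, `sol` from `SysF`, `lt`, `inj` from `Prs`. -/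
def Stmt_MD2 : Prop := ∀ (h n m k : ℕ) (π : Fin m → PP) (p e : Fin m → ℕ) (r f : Fin k → ℕ)
  (w0 : ZMod 3) (c : Fin m → ZMod 3) (s : ℕ) (τ : Fin s → Fin 3) (b X Y : Fin s → ℤ)
  (P Q P' Q' : Fin s → Fin s → ℤ), NF n π p e r f → h ≤ 2 → PlS h n π w0 c τ b X Y P Q P' Q' →
  ∀ (l N : ℕ) (y : Fin l → Fin (m + 1) → ZMod 3) (U R U' R' : Fin l → Fin l → Eis)
    (α β : Fin N → Fin l), MnS h n π p e r w0 c y U R U' R' α β →
  ∀ (M : Fin N → ZMod 3) (t : ℕ), ∃ K : ℝ, ∀ σ : ℝ, 1 < σ → σ ≤ 2 →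
    BDENS.sm {q | q ∈ QMM h n π e w0 c y U R U' R' α β M 2 1 ∧
        t ≤ kS h n b X Y P Q P' Q' 1 q} σ +
      BDENS.sm {q | q ∈ QMM h n π e w0 c y U R U' R' α β M 2 2 ∧
        t ≤ kS h n b X Y P Q P' Q' 2 q} σ ≤
      1 / 3 ^ N / 3 ^ (m + 1) * LI s t * Real.log (1 / (σ - 1)) + K

/-- PTK_MDU: the joint density, `q = 1 (mod 3)`, generic pattern. As `MTU_thm` (PTK/MTU.lean) with `ZS1` in place of `MS1`. -/
def Stmt_MDU : Prop := ∀ (h n m k : ℕ) (π : Fin m → PP) (p e : Fin m → ℕ) (r f : Fin k → ℕ)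
  (w0 : ZMod 3) (c : Fin m → ZMod 3) (d : ℕ) (v : Fin d → ℤ) (δ : Fin d → ZMod 3)
  (s : ℕ) (τ : Fin s → Fin 3) (b : Fin (s + 1) → ℤ) (X Y : Fin s → ℤ)
  (P Q P' Q' : Fin (s + 1) → Fin (s + 1) → ℤ), NF n π p e r f → h ≤ 2 → δ ≠ 0 →
  PlU h n π w0 c v δ τ b X Y P Q P' Q' →
  ∀ (l N : ℕ) (y : Fin l → Fin (m + 1) → ZMod 3) (U R U' R' : Fin l → Fin l → Eis)
    (α β : Fin N → Fin l), MnS h n π p e r w0 c y U R U' R' α β →
  ∀ (M : Fin N → ZMod 3) (t : ℕ), ∃ K : ℝ, ∀ σ : ℝ, 1 < σ → σ ≤ 2 →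
    BDENS.sm {q | (q ∈ QMM h n π e w0 c y U R U' R' α β M 1 1 ∧ q ∈ Pat v δ) ∧
        t ≤ kU h n b X Y P Q P' Q' 1 q} σ +
      BDENS.sm {q | (q ∈ QMM h n π e w0 c y U R U' R' α β M 1 2 ∧ q ∈ Pat v δ) ∧
        t ≤ kU h n b X Y P Q P' Q' 2 q} σ ≤
      2 / 3 ^ d / 3 ^ N / 3 ^ (m + 1) * LI s t * Real.log (1 / (σ - 1)) + K

/-- PTK_MDZ: the joint density, `q = 1 (mod 3)`, zero pattern. As `MTZ_thm` (PTK/MTZ.lean) with `ZS1` in place of `MS1`. -/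
def Stmt_MDZ : Prop := ∀ (h n m k : ℕ) (π : Fin m → PP) (p e : Fin m → ℕ) (r f : Fin k → ℕ)
  (w0 : ZMod 3) (c : Fin m → ZMod 3) (s : ℕ) (τ : Fin s → Fin 3) (b X Y : Fin s → ℤ)
  (P Q P' Q' : Fin s → Fin s → ℤ), NF n π p e r f → h ≤ 2 → PlS h n π w0 c τ b X Y P Q P' Q' →
  ∀ (l N : ℕ) (y : Fin l → Fin (m + 1) → ZMod 3) (U R U' R' : Fin l → Fin l → Eis)
    (α β : Fin N → Fin l), MnS h n π p e r w0 c y U R U' R' α β →
  ∀ (M : Fin N → ZMod 3) (t : ℕ), ∃ K : ℝ, ∀ σ : ℝ, 1 < σ → σ ≤ 2 →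
    BDENS.sm {q | (q ∈ QMM h n π e w0 c y U R U' R' α β M 1 1 ∧ q ∈ ZP b) ∧
        t ≤ kS h n b X Y P Q P' Q' 1 q} σ +
      BDENS.sm {q | (q ∈ QMM h n π e w0 c y U R U' R' α β M 1 2 ∧ q ∈ ZP b) ∧
        t ≤ kS h n b X Y P Q P' Q' 2 q} σ ≤
      1 / 3 ^ s / 3 ^ N / 3 ^ (m + 1) * LI s t * Real.log (1 / (σ - 1)) + K

/-! ### Joint averages -/

/-- PTK_JD2: `q = 2 (mod 3)`.
Proof. For large `q` of the class with the entries `M` of the matrix (`ZKQ`, `CNM`): `MY = altZ α β M`, `F (kY) (kS) = F (l - rank (altZ α β M)) (kS)`. `UPS` (1) with `ι = (Fin N → ZMod 3)`, `c = 1`,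
`T M E = QMM .. M 2 E`, `G' M E q = F (l - rank (altZ α β M)) (kS .. E q)`; the hypothesis for `M`: `KUM` with `x = 1 / 3^N / 3^(m+1)` and `MD2`: `Esk s (F (l - rank ..)) x`. The sum over `M` by `CNM`. -/
def Stmt_JD2 : Prop := ∀ (h n m k : ℕ) (π : Fin m → PP) (p e : Fin m → ℕ) (r f : Fin k → ℕ)
  (w0 : ZMod 3) (c : Fin m → ZMod 3) (s : ℕ) (τ : Fin s → Fin 3) (b X Y : Fin s → ℤ)
  (P Q P' Q' : Fin s → Fin s → ℤ), NF n π p e r f → h ≤ 2 → PlS h n π w0 c τ b X Y P Q P' Q' →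
  ∀ (l N : ℕ) (y : Fin l → Fin (m + 1) → ZMod 3) (U R U' R' : Fin l → Fin l → Eis)
    (α β : Fin N → Fin l), MnS h n π p e r w0 c y U R U' R' α β →
  ∀ F : ℕ → ℕ → ℝ, (∀ a, Monotone (F a)) → (∀ a, 0 ≤ F a 0) →
  UpS (fun E => {q | q % 3 = 2 ∧ InCT E π w0 c q})
    (fun E q => F (kY h n π e y U R U' R' E q) (kS h n b X Y P Q P' Q' E q))
    (Esk l (fun a => Esk s (F a)) / 3 ^ (m + 1))

/-- PTK_JDG: `q = 1 (mod 3)`, one pattern. As `JD2`, with `MDU` (`s = d - 1`: `PlU.dim`). -/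
def Stmt_JDG : Prop := ∀ (h n m k : ℕ) (π : Fin m → PP) (p e : Fin m → ℕ) (r f : Fin k → ℕ)
  (w0 : ZMod 3) (c : Fin m → ZMod 3) (d : ℕ) (v : Fin d → ℤ) (δ : Fin d → ZMod 3)
  (s : ℕ) (τ : Fin s → Fin 3) (b : Fin (s + 1) → ℤ) (X Y : Fin s → ℤ)
  (P Q P' Q' : Fin (s + 1) → Fin (s + 1) → ℤ), NF n π p e r f → h ≤ 2 → δ ≠ 0 →
  PlU h n π w0 c v δ τ b X Y P Q P' Q' →
  ∀ (l N : ℕ) (y : Fin l → Fin (m + 1) → ZMod 3) (U R U' R' : Fin l → Fin l → Eis)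
    (α β : Fin N → Fin l), MnS h n π p e r w0 c y U R U' R' α β →
  ∀ F : ℕ → ℕ → ℝ, (∀ a, Monotone (F a)) → (∀ a, 0 ≤ F a 0) →
  UpS (fun E => {q | q % 3 = 1 ∧ InCT E π w0 c q ∧ q ∈ Pat v δ})
    (fun E q => F (kY h n π e y U R U' R' E q) (kU h n b X Y P Q P' Q' E q))
    (Esk l (fun a => Esk (d - 1) (F a)) * (2 / 3 ^ d / 3 ^ (m + 1)))

/-- PTK_JDZ: `q = 1 (mod 3)`, zero pattern. As `JD2`, with `MDZ`. -/
def Stmt_JDZ : Prop := ∀ (h n m k : ℕ) (π : Fin m → PP) (p e : Fin m → ℕ) (r f : Fin k → ℕ)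
  (w0 : ZMod 3) (c : Fin m → ZMod 3) (s : ℕ) (τ : Fin s → Fin 3) (b X Y : Fin s → ℤ)
  (P Q P' Q' : Fin s → Fin s → ℤ), NF n π p e r f → h ≤ 2 → PlS h n π w0 c τ b X Y P Q P' Q' →
  ∀ (l N : ℕ) (y : Fin l → Fin (m + 1) → ZMod 3) (U R U' R' : Fin l → Fin l → Eis)
    (α β : Fin N → Fin l), MnS h n π p e r w0 c y U R U' R' α β →
  ∀ F : ℕ → ℕ → ℝ, (∀ a, Monotone (F a)) → (∀ a, 0 ≤ F a 0) →
  UpS (fun E => {q | q % 3 = 1 ∧ InCT E π w0 c q ∧ q ∈ ZP b})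
    (fun E q => F (kY h n π e y U R U' R' E q) (kS h n b X Y P Q P' Q' E q))
    (Esk l (fun a => Esk s (F a)) * (1 / 3 ^ s / 3 ^ (m + 1)))

/-- The average of `F(v - rank M + s - rank M')`, `M`, `M'` independent random skew-symmetric matrices of sizes `v`, `s`. -/
noncomputable def EsD (v s : ℕ) (F : ℕ → ℝ) : ℝ := Esk v (fun x => Esk s (fun y => F (x + y)))

/-- PTK_FL2: the law in a class, `q = 2 (mod 3)`.
Proof. Systems from `PLE`, `ZBA`, `MSF`, `CNM` (`l = vN`, `s = sN`). For large `q`: `rr B ≤ w + kS`, `w = Nat.log 3 (card WqS)` (`NBW`, `CubeRank.rr_le`), `w ≤ kY` (`ZKQ`), so `F (rr B) ≤ F (kY + kS)`. `UPS` (1)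
with one set and `JD2` for `F a b = F (a + b)`. -/
def Stmt_FL2 : Prop := ∀ (h n m k : ℕ) (π : Fin m → PP) (p e : Fin m → ℕ) (r f : Fin k → ℕ)
  (w0 : ZMod 3) (c : Fin m → ZMod 3), NF n π p e r f → h ≤ 2 →
  ∀ F : ℕ → ℝ, Monotone F → 0 ≤ F 0 →
  UpS (fun E => {q | q % 3 = 2 ∧ InCT E π w0 c q}) (fun E q => F (CubeRank.rr (BB h n E q)))
    (EsD (vN h n π p e r w0 c) (sN h n π p e r w0 c) F / 3 ^ (m + 1))

/-- PTK_FL1: the law in a class, `q = 1 (mod 3)`.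
Proof. As `AM1_thm` (PTK/AM1.lean): `v` from `NHPT` (`d = sN`, `HB`), for every `δ ≠ 0` a system (`PLU`), the system `b` of `PLE`, one system of the minus part (`ZBA`, `MSF`, `CNM`). For large `q` of the class: if `q ∈ ZP v` then
`q ∈ ZP b` (`ZPV`) and `rr B ≤ w + 1 + kS` (`NBX`), otherwise `rr B ≤ w + kU_δ` for at least two `δ ≠ 0` with `q ∈ Pat v δ` (`PAT`, `NBU`); `w ≤ kY` (`ZKQ`). So `2 F (rr B) ≤ ∑_δ [q ∈ Pat v δ] F (kY + kU_δ) +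
[q ∈ ZP b] 2 F (kY + kS + 1)`; `UPS` (1) with `c = 2`, `JDG`, `JDZ`: `(1/2) ((3^d - 1)(2 / 3^d) Esk l (Esk (d - 1) ..) + 2 / 3^d Esk l (Esk d ..)) / 3^(m+1)`, and `ESZ` for `F (a + ·)` and every `a` (`Esk l` is linear). -/
def Stmt_FL1 : Prop := ∀ (h n m k : ℕ) (π : Fin m → PP) (p e : Fin m → ℕ) (r f : Fin k → ℕ)
  (w0 : ZMod 3) (c : Fin m → ZMod 3), NF n π p e r f → h ≤ 2 →
  ∀ F : ℕ → ℝ, Monotone F → 0 ≤ F 0 →
  UpS (fun E => {q | q % 3 = 1 ∧ InCT E π w0 c q}) (fun E q => F (CubeRank.rr (BB h n E q)))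
    (EsD (vN h n π p e r w0 c) (sN h n π p e r w0 c + 1) F / 3 ^ (m + 1))

/-! ### The theorem -/

/-- PTK_FB: the law in a class, both residue classes, upper and lower bounds.
Proof. First part: `FL2`, `FL1`, `UPA`. Second part: `UPL` with `c₀ = 1`, `G E q = [t ≤ rr (BB h n E q)]` (for large `q` the group is generated by `rr B` points: `CLN`, `CLU`, `CubeRank.gen_rr`; so `1 - G ≤ tf (R ..)`),
the total number from `CLT`, the bound for `G` from `FL2`, `FL1` with `F x = [t ≤ x]`; `1 - EsD (t ≤ ·) = EsD (· < t)` (`Esk s 1 = 1`). See `PR2_thm` (PTK/PR2.lean) and `CBE_thm` (PTN/CBE.lean). -/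
def Stmt_FB : Prop := ∀ (h n m k : ℕ) (π : Fin m → PP) (p e : Fin m → ℕ) (r f : Fin k → ℕ)
  (w0 : ZMod 3) (c : Fin m → ZMod 3), NF n π p e r f → h ≤ 2 → ∀ a : ℕ, (a = 1 ∨ a = 2) →
  (∀ F : ℕ → ℝ, Monotone F → 0 ≤ F 0 →
    AboveA ((3 ^ h * n : ℕ) : ℤ) a (Kl π w0 c) (fun A => F (CubeRank.rr A))
      (EsD (vN h n π p e r w0 c) (sN h n π p e r w0 c + if a = 1 then 1 else 0) F /
        3 ^ (m + 1))) ∧
  ∀ (t : ℕ) (R : ℤ → Prop),
    (∀ A : ℤ, A ≠ 0 → CubeRank.GenBy A (CubeRank.rr A) → CubeRank.rr A < t → R A) →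
    BelowA ((3 ^ h * n : ℕ) : ℤ) a (Kl π w0 c) (fun A => tf (R A))
      (EsD (vN h n π p e r w0 c) (sN h n π p e r w0 c + if a = 1 then 1 else 0)
        (fun x => if x < t then 1 else 0) / 3 ^ (m + 1))

/-- PTK_EKN: the numbers.
Proof. `Esk s F` is an average of `F (s - rank M)`: linear, monotone, `Esk s 1 = 1`, and it depends only on the values `F c` with `c = s (mod 2)` (`AL.cr_parity`, `AL.even_rank` in PTL/AL.lean). (1) `EsD v s id = Esk v id + Esk s id`, `LAM`.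
(2) `EsD v s (3^(k ·)) = Esk v (3^(k ·)) Esk s (3^(k ·))`, `ESB`. (3) one of `v`, `s` is odd: `[x + y < 2] ≥ [x < 2] [y < 1]` or `≥ [x < 1] [y < 2]`, `Esk v [· < 2] ≥ 23/24` (`v` odd), `Esk s [· < 1] ≥ 5/8` (`s` even): `LAW` (3), (4),
`Esk_ind`; `(23/24)(5/8) = 115/192`. (5) both odd: `[x + y < 3] ≥ [x < 2] [y < 2]`, `(23/24)² ≥ 17/20`; both even: for even `x`, `y`: `1 - [x + y < 3] ≤ [4 ≤ x] + [4 ≤ y] + [1 ≤ x] [1 ≤ y]`, `[4 ≤ x] ≤ 3^(4 x) / 3^16`, `ESB`: `MoB 4 / 3^16 = 91840 / 43046721 ≤ 11/5000`,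
`9/64 + 22/5000 ≤ 3/20`. (4) from (3) and (5). (6) `[x + y < 1] = [x < 1] [y < 1]`, `(5/8)²`. (7) `Esk 0 G = G 0`. (8), (9): `LAW`. -/
def Stmt_EKN : Prop :=
  (∀ v s, EsD v s (fun c => (c : ℝ)) ≤ 13 / 6) ∧
  (∀ v s k : ℕ, EsD v s (fun c => (3 : ℝ) ^ (k * c)) ≤ MoB k ^ 2) ∧
  (∀ v s, Odd (v + s) → 115 / 192 ≤ EsD v s (fun x => if x < 2 then 1 else 0)) ∧
  (∀ v s, 115 / 192 ≤ EsD v s (fun x => if x < 3 then 1 else 0)) ∧
  (∀ v s, Even (v + s) → 17 / 20 ≤ EsD v s (fun x => if x < 3 then 1 else 0)) ∧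
  (∀ v s, Even v → Even s → 25 / 64 ≤ EsD v s (fun x => if x < 1 then 1 else 0)) ∧
  (∀ s F, EsD 0 s F = Esk s F) ∧
  (∀ s, Even s → 5 / 8 ≤ EsD 0 s (fun x => if x < 1 then 1 else 0)) ∧
  (∀ s, Odd s → 23 / 24 ≤ EsD 0 s (fun x => if x < 2 then 1 else 0)) ∧
  ∀ v s t, 0 ≤ EsD v s (fun x => if x < t then 1 else 0)

/-- PTK_AWF: the averages over all `A`.
Proof. `SUMA`, `FB`, `EKN`; there are `3^(m+1)` classes. Lower bounds: `x_a = ∑_y g_a y / 3^(m+1)`; for `r ≤ 1`: `g_a y = 115/192` if `vN + sN + [a = 1]` is odd, otherwise `0`; for `r ≤ 2`: `115/192` or `17/20`; for every class `y` exactly one of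
`a = 1, 2` has odd `vN + sN + [a = 1]`. -/
def Stmt_AWF : Prop := ∀ (h n m k : ℕ) (π : Fin m → PP) (p e : Fin m → ℕ) (r f : Fin k → ℕ),
  NF n π p e r f → h ≤ 2 →
  (∀ a : ℕ, (a = 1 ∨ a = 2) →
    AboveA ((3 ^ h * n : ℕ) : ℤ) a (fun _ => True) (fun A => (CubeRank.rr A : ℝ)) (13 / 6) ∧
    (∀ k₀ : ℕ, AboveA ((3 ^ h * n : ℕ) : ℤ) a (fun _ => True)
      (fun A => 3 ^ (k₀ * CubeRank.rr A)) (MoB k₀ ^ 2)) ∧
    BelowA ((3 ^ h * n : ℕ) : ℤ) a (fun _ => True) (fun A => tf (CubeRank.rr A ≤ 2))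
      (115 / 192)) ∧
  (∃ x₁ x₂ : ℝ, 0 ≤ x₁ ∧ 0 ≤ x₂ ∧ x₁ + x₂ = 115 / 192 ∧
    BelowA ((3 ^ h * n : ℕ) : ℤ) 1 (fun _ => True) (fun A => tf (CubeRank.rr A ≤ 1)) x₁ ∧
    BelowA ((3 ^ h * n : ℕ) : ℤ) 2 (fun _ => True) (fun A => tf (CubeRank.rr A ≤ 1)) x₂) ∧
  ∃ x₁ x₂ : ℝ, 0 ≤ x₁ ∧ 0 ≤ x₂ ∧ x₁ + x₂ = 115 / 192 + 17 / 20 ∧
    BelowA ((3 ^ h * n : ℕ) : ℤ) 1 (fun _ => True) (fun A => tf (CubeRank.rr A ≤ 2)) x₁ ∧
    BelowA ((3 ^ h * n : ℕ) : ℤ) 2 (fun _ => True) (fun A => tf (CubeRank.rr A ≤ 2)) x₂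

open Classical in
/-- PTK_MAW: the theorem.
Proof. As `MAV_thm` (PTK/MAV.lean: `NFE`, `NDIM`, `NSUM`, `NZER`, `TRU`, `TRC`, …; repeat it with the new inputs), with `FB` and `EKN` for the classes: `R A = (rr A ≤ t)` with `t + 1`, `R A` the negation of solvability with `t = 1`
(`DOM.no_sol`); all `A`: `AWF`, and `MTL`, `GMB` (last part) for the tails: `MoB k² / 3^(k (2 k + 1)) ≤ (64/25) / 3^(k²)`; the last three lines are those of `MAV`. -/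
def Stmt_MAW : Prop := ∀ N : ℕ, 0 < N → (∀ p : ℕ, p.Prime → ¬ p ^ 3 ∣ N) →
  ∀ m k δ μ : ℕ, m = (N.primeFactors.filter (fun p => p % 3 = 1)).card →
  k = (N.primeFactors.filter (fun p => p % 3 = 2)).card →
  δ = (if 3 ∣ N ∧ ¬ 9 ∣ N then 1 else 0) → μ + δ = m + 1 →
  (∃ v s : (ZMod (9 * N))ˣ → ℕ,
    (∀ u : (ZMod (9 * N))ˣ, s u + (if Nu1 N u then 1 else 0) = v u + k + δ) ∧
    (∑ᶠ u : (ZMod (9 * N))ˣ, (3 : ℝ) ^ v u ≤ (5 / 3) ^ μ * (9 * N).totient) ∧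
    ((2 / 3 : ℝ) ^ μ * (9 * N).totient ≤
      Nat.card {u : (ZMod (9 * N))ˣ // v u = 0 ∧ ¬ Nu1 N u}) ∧
    (¬ 3 ∣ N → (∃ p : ℕ, p.Prime ∧ p ∣ N ∧ (p % 9 = 2 ∨ p % 9 = 5)) →
      1 / 3 * (2 / 3 : ℝ) ^ m * (9 * N).totient ≤
        Nat.card {u : (ZMod (9 * N))ˣ // v u = 0 ∧ Nu1 N u}) ∧
    (∀ (u : (ZMod (9 * N))ˣ) (F : ℕ → ℝ), Monotone F → 0 ≤ F 0 →
      AboveA N 2 (Cu N u) (fun A => F (CubeRank.rr A)) (EsD (v u) (s u) F / 3 ^ (m + 1)) ∧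
      AboveA N 1 (Cu N u) (fun A => F (CubeRank.rr A))
        (EsD (v u) (s u + 1) F / 3 ^ (m + 1))) ∧
    (∀ (u : (ZMod (9 * N))ˣ) (t : ℕ),
      BelowA N 2 (Cu N u) (fun A => tf (CubeRank.rr A < t))
        (EsD (v u) (s u) (fun x => if x < t then 1 else 0) / 3 ^ (m + 1)) ∧
      BelowA N 1 (Cu N u) (fun A => tf (CubeRank.rr A < t))
        (EsD (v u) (s u + 1) (fun x => if x < t then 1 else 0) / 3 ^ (m + 1))) ∧
    (∀ u : (ZMod (9 * N))ˣ,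
      BelowA N 2 (Cu N u) (fun A => tf (¬ ∃ X Y : ℚ, X ^ 3 + Y ^ 3 = (A : ℚ)))
        (EsD (v u) (s u) (fun x => if x < 1 then 1 else 0) / 3 ^ (m + 1)) ∧
      BelowA N 1 (Cu N u) (fun A => tf (¬ ∃ X Y : ℚ, X ^ 3 + Y ^ 3 = (A : ℚ)))
        (EsD (v u) (s u + 1) (fun x => if x < 1 then 1 else 0) / 3 ^ (m + 1))) ∧
    ∀ u : (ZMod (9 * N))ˣ,
      (Odd (v u + s u) →
        BelowA N 2 (Cu N u) (fun A => tf (CubeRank.rr A ≤ 1)) (115 / 192 / 3 ^ (m + 1)) ∧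
        BelowA N 1 (Cu N u) (fun A => tf (CubeRank.rr A ≤ 2)) (17 / 20 / 3 ^ (m + 1))) ∧
      (Even (v u + s u) →
        BelowA N 2 (Cu N u) (fun A => tf (CubeRank.rr A ≤ 2)) (17 / 20 / 3 ^ (m + 1)) ∧
        BelowA N 1 (Cu N u) (fun A => tf (CubeRank.rr A ≤ 1)) (115 / 192 / 3 ^ (m + 1))) ∧
      (Even (v u) → Even (s u) →
        BelowA N 2 (Cu N u) (fun A => tf (¬ ∃ X Y : ℚ, X ^ 3 + Y ^ 3 = (A : ℚ)))
          (25 / 64 / 3 ^ (m + 1))) ∧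
      (Even (v u) → Odd (s u) →
        BelowA N 1 (Cu N u) (fun A => tf (¬ ∃ X Y : ℚ, X ^ 3 + Y ^ 3 = (A : ℚ)))
          (25 / 64 / 3 ^ (m + 1))) ∧
      (v u = 0 → Even (s u) →
        BelowA N 2 (Cu N u) (fun A => tf (¬ ∃ X Y : ℚ, X ^ 3 + Y ^ 3 = (A : ℚ)))
          (5 / 8 / 3 ^ (m + 1)) ∧
        BelowA N 1 (Cu N u) (fun A => tf (CubeRank.rr A ≤ 1)) (23 / 24 / 3 ^ (m + 1))) ∧
      (v u = 0 → Odd (s u) →
        BelowA N 2 (Cu N u) (fun A => tf (CubeRank.rr A ≤ 1)) (23 / 24 / 3 ^ (m + 1)) ∧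
        BelowA N 1 (Cu N u) (fun A => tf (¬ ∃ X Y : ℚ, X ^ 3 + Y ^ 3 = (A : ℚ)))
          (5 / 8 / 3 ^ (m + 1)))) ∧
  (∃ M : ℕ, ∀ q e : ℕ, q.Prime → M < q → (e = 1 ∨ e = 2) →
    CubeRank.GenBy (N * q ^ e) (CubeRank.rr (N * q ^ e))) ∧
  (∀ a : ℕ, (a = 1 ∨ a = 2) →
    AboveA N a (fun _ => True) (fun A => (CubeRank.rr A : ℝ)) (13 / 6) ∧
    (∀ k : ℕ, AboveA N a (fun _ => True) (fun A => 3 ^ (k * CubeRank.rr A)) (MoB k ^ 2)) ∧
    (∀ k : ℕ, AboveA N a (fun _ => True) (fun A => tf (2 * k + 1 ≤ CubeRank.rr A))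
      (64 / 25 / 3 ^ k ^ 2)) ∧
    BelowA N a (fun _ => True) (fun A => tf (CubeRank.rr A ≤ 2)) (115 / 192)) ∧
  (∃ x₁ x₂ : ℝ, 0 ≤ x₁ ∧ 0 ≤ x₂ ∧ x₁ + x₂ = 115 / 192 ∧
    BelowA N 1 (fun _ => True) (fun A => tf (CubeRank.rr A ≤ 1)) x₁ ∧
    BelowA N 2 (fun _ => True) (fun A => tf (CubeRank.rr A ≤ 1)) x₂) ∧
  (∃ x₁ x₂ : ℝ, 0 ≤ x₁ ∧ 0 ≤ x₂ ∧ x₁ + x₂ = 115 / 192 + 17 / 20 ∧
    BelowA N 1 (fun _ => True) (fun A => tf (CubeRank.rr A ≤ 2)) x₁ ∧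
    BelowA N 2 (fun _ => True) (fun A => tf (CubeRank.rr A ≤ 2)) x₂) ∧
  AboveA N 2 (fun _ => True) (fun A => 3 ^ CubeRank.rr A) (4 * (5 / 3) ^ μ) ∧
  AboveA N 1 (fun _ => True) (fun A => 3 ^ CubeRank.rr A) (4 * (5 / 3) ^ μ) ∧
  (Even (k + δ) →
    BelowA N 2 (fun _ => True)
      (fun A => tf (¬ ∃ X Y : ℚ, X ^ 3 + Y ^ 3 = (A : ℚ))) (5 / 8 * (2 / 3) ^ μ) ∧
    BelowA N 1 (fun _ => True) (fun A => tf (CubeRank.rr A ≤ 1)) (23 / 24 * (2 / 3) ^ μ)) ∧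
  (Odd (k + δ) →
    BelowA N 2 (fun _ => True) (fun A => tf (CubeRank.rr A ≤ 1)) (23 / 24 * (2 / 3) ^ μ) ∧
    BelowA N 1 (fun _ => True)
      (fun A => tf (¬ ∃ X Y : ℚ, X ^ 3 + Y ^ 3 = (A : ℚ))) (5 / 8 * (2 / 3) ^ μ))

end Pool.Agent.PTK

end

section

/-!
# PTK_MDU: the joint density with the matrix of the minus part, `q = 1 (mod 3)`, generic pattern (helper32)
-/

set_option autoImplicit false

open NumberField IsDedekindDomain Finset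
open scoped nonZeroDivisors Pointwise

namespace Pool.Agent.PTK

open Pool.Agent.Lib_helper18 Pool.Agent.Lib_helper18.Eis Pool.Agent.Lib_helper84.Cub
open Pool.Agent.PT Pool.Agent.PTE Pool.Agent.PT3 Pool.Agent.PTL Pool.Agent.PTN

/-- a system of the minus part is a system with several base classes -/
theorem MDU.sysZ {h n m k : ℕ} {π : Fin m → PP} {p e : Fin m → ℕ} {r : Fin k → ℕ}
    {w0 : ZMod 3} {c : Fin m → ZMod 3} {l N : ℕ} {y : Fin l → Fin (m + 1) → ZMod 3}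
    {U R U' R' : Fin l → Fin l → Eis} {α β : Fin N → Fin l}
    (hS : MnS h n π p e r w0 c y U R U' R' α β) :
    SysZ (fun i => zN π e (y i)) α β (fun r => U (α r) (β r)) (fun r => R (α r) (β r))
      (fun r => U' (α r) (β r)) (fun r => R' (α r) (β r)) :=
  ⟨hS.sys.ind, fun i => (hS.sys.mc i).cb, hS.prs.lt, hS.prs.inj,
    fun r => hS.sys.sol (α r) (β r) (hS.prs.lt r).ne⟩

/-- PTK_MDU. -/
theorem MDU_thm (hCLSC : CLSC) (hCLSCS : CLSCS) (hMSPU : Stmt_MSPU) (hZS1 : Stmt_ZS1)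
    (hBMU : Stmt_BMU) : Stmt_MDU := by
  classical
  intro h n m k π p e r f w0 c d v δ s τ b X Y P Q P' Q' hNF hh hδ hPl l N y U R U' R' α β hS M t
  obtain ⟨f0, hf0, hf1⟩ := hMSPU h n m k π p e r f w0 c d v δ s τ b X Y P Q P' Q' hNF hh hδ hPl
  obtain ⟨g0, hg0, hg1⟩ := hZS1 h n m k π p e r f w0 c hNF hh l N y U R U' R' α β hS
  obtain ⟨F, hF, hF9, hpF, hfF, hgF⟩ : ∃ F : ℕ, 0 < F ∧ 9 ∣ F ∧ (∀ i, p i ∣ F) ∧
      f0 ∣ F ∧ g0 ∣ F := by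
    refine ⟨9 * (∏ i, p i) * (f0 * g0), ?_, ?_, ?_, ?_, ?_⟩
    · have h1 : 0 < ∏ i, p i := Finset.prod_pos fun i _ => (hNF.pp i).pos
      positivity
    · exact Dvd.dvd.mul_right (Dvd.intro _ rfl) _
    · intro i
      exact Dvd.dvd.mul_right (Dvd.dvd.mul_left (Finset.dvd_prod_of_mem p (mem_univ i)) _) _
    · exact Dvd.dvd.mul_left (Dvd.intro _ rfl) _
    · exact Dvd.dvd.mul_left (Dvd.intro_left _ rfl) _
  obtain ⟨κ, hκ1, hκ2⟩ := hCLSC m π p hNF.pp hNF.p1 hNF.pπ hNF.pinj F hF hF9 hpF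
  have hκ3 := hCLSCS F m κ hF hF9 hκ2
  obtain ⟨C, Φ, N1, hN1⟩ := hf1 F hF hfF κ hκ1
  obtain ⟨C', Φ', N2, hN2⟩ := hg1 F hF hgF κ hκ1
  obtain ⟨K, hK⟩ := hBMU s b P Q P' Q' l N (fun i => zN π e (y i)) α β
    (fun r => U (α r) (β r)) (fun r => R (α r) (β r)) (fun r => U' (α r) (β r))
    (fun r => R' (α r) (β r)) F m t κ (Fin.cons w0 c) C Φ (C' - M) Φ' hPl.sys (MDU.sysZ hS)
    hF hF9 hκ3
  obtain ⟨M', hM⟩ : ∃ M', M' = N1 + N2 := ⟨_, rfl⟩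
  refine ⟨K + 2 * (2 * ((Finset.range (M' + 1)).card : ℝ)), fun σ h1 hσ2 => ?_⟩
  have hB := hK σ h1 hσ2
  have hsub1 : ∀ q : ℕ, q.Prime → M' < q →
      q ∈ {q : ℕ | (q ∈ QMM h n π e w0 c y U R U' R' α β M 1 1 ∧ q ∈ Pat v δ) ∧
        t ≤ kU h n b X Y P Q P' Q' 1 q} →
      q ∈ SPU b P Q P' Q' t κ (Fin.cons w0 c) C Φ ∩
        SPZU (fun i => zN π e (y i)) α (fun r => U (α r) (β r)) (fun r => R (α r) (β r))
          (fun r => U' (α r) (β r)) (fun r => R' (α r) (β r)) κ (Fin.cons w0 c) (C' - M) Φ' := by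
    intro q hq hqM ⟨⟨hqY, hqP⟩, hqt⟩
    exact ⟨((hN1 q t hq (by omega) hqY.1 hqP).1 hqY.2.1 hqt),
      (hN2 q M hq (by omega)).1 hqY⟩
  have hsub2 : ∀ q : ℕ, q.Prime → M' < q →
      q ∈ {q : ℕ | (q ∈ QMM h n π e w0 c y U R U' R' α β M 1 2 ∧ q ∈ Pat v δ) ∧
        t ≤ kU h n b X Y P Q P' Q' 2 q} →
      q ∈ SMU b P Q P' Q' t κ (Fin.cons w0 c) C Φ ∩
        SMZU (fun i => zN π e (y i)) α (fun r => U (α r) (β r)) (fun r => R (α r) (β r))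
          (fun r => U' (α r) (β r)) (fun r => R' (α r) (β r)) κ (Fin.cons w0 c) (C' - M) Φ' := by
    intro q hq hqM ⟨⟨hqY, hqP⟩, hqt⟩
    exact ⟨((hN1 q t hq (by omega) hqY.1 hqP).2 hqY.2.1 hqt),
      (hN2 q M hq (by omega)).2 hqY⟩
  have i1 := CL.sm_le_add _ _ M' hsub1 h1
  have i2 := CL.sm_le_add _ _ M' hsub2 h1
  have e2 : (2 / 3 ^ d / 3 ^ N / 3 ^ (m + 1) * LI s t : ℝ) =
      2 / 3 ^ (s + 1) * LI s t / 3 ^ N / 3 ^ (m + 1) := by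
    rw [← hPl.dim]
    ring
  rw [e2]
  linarith

end Pool.Agent.PTK

end

section

/-!
# PTK_MDZ: the joint density, `q = 1 (mod 3)`, zero pattern
-/

set_option autoImplicit false

open NumberField IsDedekindDomain Finset
open scoped nonZeroDivisors Pointwise

namespace Pool.Agent.PTK

open Pool.Agent.Lib_helper18 Pool.Agent.Lib_helper18.Eis Pool.Agent.Lib_helper84.Cub
open Pool.Agent.PT Pool.Agent.PTE Pool.Agent.PT3 Pool.Agent.PTL Pool.Agent.PTN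

/-- PTK_MDZ. -/
theorem MDZ_thm (hCLSC : CLSC) (hCLSCS : CLSCS) (hMPZ : Stmt_MPZ) (hZS1 : Stmt_ZS1)
    (hBMZ : Stmt_BMZ) : Stmt_MDZ := by
  classical
  intro h n m k π p e r f w0 c s τ b X Y P Q P' Q' hNF hh hPl l N y U R U' R' α β hT M t
  have hSys : SysZ (fun i => zN π e (y i)) α β (fun r => U (α r) (β r)) (fun r => R (α r) (β r))
      (fun r => U' (α r) (β r)) (fun r => R' (α r) (β r)) :=
    ⟨hT.sys.ind, fun i => (hT.sys.mc i).cb, hT.prs.lt, hT.prs.inj,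
      fun r => hT.sys.sol (α r) (β r) (hT.prs.lt r).ne⟩
  obtain ⟨f0, hf0, hf1⟩ := hMPZ h n m k π p e r f w0 c s τ b X Y P Q P' Q' hNF hh hPl
  obtain ⟨g0, hg0, hg1⟩ := hZS1 h n m k π p e r f w0 c hNF hh l N y U R U' R' α β hT
  obtain ⟨F, hF, hF9, hpF, hfF, hgF⟩ : ∃ F : ℕ, 0 < F ∧ 9 ∣ F ∧ (∀ i, p i ∣ F) ∧
      f0 ∣ F ∧ g0 ∣ F := by
    refine ⟨9 * (∏ i, p i) * (f0 * g0), ?_, ?_, ?_, ?_, ?_⟩
    · have h1 : 0 < ∏ i, p i := Finset.prod_pos fun i _ => (hNF.pp i).pos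
      positivity
    · exact Dvd.dvd.mul_right (Dvd.intro _ rfl) _
    · intro i
      exact Dvd.dvd.mul_right (Dvd.dvd.mul_left (Finset.dvd_prod_of_mem p (mem_univ i)) _) _
    · exact Dvd.dvd.mul_left (Dvd.intro _ rfl) _
    · exact Dvd.dvd.mul_left (Dvd.intro_left _ rfl) _
  obtain ⟨κ, hκ1, hκ2⟩ := hCLSC m π p hNF.pp hNF.p1 hNF.pπ hNF.pinj F hF hF9 hpF
  have hκ3 := hCLSCS F m κ hF hF9 hκ2
  obtain ⟨C, Φ, N1, hN1⟩ := hf1 F hF hfF κ hκ1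
  obtain ⟨C', Φ', N2, hN2⟩ := hg1 F hF hgF κ hκ1
  obtain ⟨K, hK⟩ := hBMZ s b P Q P' Q' l N (fun i => zN π e (y i)) α β
    (fun r => U (α r) (β r)) (fun r => R (α r) (β r)) (fun r => U' (α r) (β r))
    (fun r => R' (α r) (β r)) F m t
    κ (Fin.cons w0 c) C Φ (C' - M) Φ' hPl.sys hSys hF hF9 hκ3
  obtain ⟨L, hL⟩ : ∃ L, L = N1 + N2 := ⟨_, rfl⟩
  refine ⟨K + 2 * (2 * ((Finset.range (L + 1)).card : ℝ)), fun σ h1 hσ2 => ?_⟩
  have hB := hK σ h1 hσ2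
  have hsub1 : ∀ q : ℕ, q.Prime → L < q →
      q ∈ {q : ℕ | (q ∈ QMM h n π e w0 c y U R U' R' α β M 1 1 ∧ q ∈ ZP b) ∧
        t ≤ kS h n b X Y P Q P' Q' 1 q} →
      q ∈ SPF b P Q P' Q' t κ (Fin.cons w0 c) C Φ ∩
        SPZU (fun i => zN π e (y i)) α (fun r => U (α r) (β r)) (fun r => R (α r) (β r))
          (fun r => U' (α r) (β r)) (fun r => R' (α r) (β r)) κ (Fin.cons w0 c) (C' - M) Φ' := by
    intro q hq hqM ⟨⟨hqY, hqP⟩, hqt⟩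
    exact ⟨((hN1 q t hq (by omega) hqY.1 hqP).1 hqY.2.1 hqt),
      (hN2 q M hq (by omega)).1 hqY⟩
  have hsub2 : ∀ q : ℕ, q.Prime → L < q →
      q ∈ {q : ℕ | (q ∈ QMM h n π e w0 c y U R U' R' α β M 1 2 ∧ q ∈ ZP b) ∧
        t ≤ kS h n b X Y P Q P' Q' 2 q} →
      q ∈ SMF b P Q P' Q' t κ (Fin.cons w0 c) C Φ ∩
        SMZU (fun i => zN π e (y i)) α (fun r => U (α r) (β r)) (fun r => R (α r) (β r))
          (fun r => U' (α r) (β r)) (fun r => R' (α r) (β r)) κ (Fin.cons w0 c) (C' - M) Φ' := by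
    intro q hq hqM ⟨⟨hqY, hqP⟩, hqt⟩
    exact ⟨((hN1 q t hq (by omega) hqY.1 hqP).2 hqY.2.1 hqt),
      (hN2 q M hq (by omega)).2 hqY⟩
  have i1 := CL.sm_le_add _ _ L hsub1 h1
  have i2 := CL.sm_le_add _ _ L hsub2 h1
  have e2 : (1 / 3 ^ s / 3 ^ N / 3 ^ (m + 1) * LI s t : ℝ) =
      1 / 3 ^ s * LI s t / 3 ^ N / 3 ^ (m + 1) := by
    ring
  rw [e2]
  linarith

end Pool.Agent.PTK

end

section

/-!
# CAV: averages in a class, primes of the first residue class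
-/

set_option autoImplicit false

open NumberField IsDedekindDomain Finset
open scoped nonZeroDivisors Pointwise

namespace Pool.Agent.PTK

open Pool.Agent.Lib_helper18 Pool.Agent.Lib_helper18.Eis Pool.Agent.Lib_helper84.Cub
open Pool.Agent.PT Pool.Agent.PTE Pool.Agent.PT3 Pool.Agent.PTL Pool.Agent.PTN

theorem CAV_thm (hSPP : SPP) (hCLV : Stmt_CLV) (hCLU : Stmt_CLU) (hDOMG : Stmt_DOMG)
    (hLAW : Stmt_LAW) : Stmt_CAV := by
  classical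
  intro h n m k π p e r f w0 c hN hh F hF h0
  obtain ⟨hL1, -⟩ := hLAW
  have hT := hCLV h n m k π p e r f w0 c hN hh
  obtain ⟨⟨M, hM⟩, -⟩ := hCLU h n m k π p e r f w0 c hN hh
  set s := sN h n π p e r w0 c with hs
  set v := vN h n π p e r w0 c with hv
  refine CAB.above_of hSPP hN w0 c 1 hF h0
    (fun E => {q : ℕ | q % 3 = 1 ∧ InCT E π w0 c q}) (fun E q => Iff.rfl) ?_
  obtain ⟨K, hK⟩ := hDOMG (fun E => {q : ℕ | q % 3 = 1 ∧ InCT E π w0 c q})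
    (fun E q => CubeRank.rr (BB h n E q)) (fun t => LI (s + 1) (t - v) / 3 ^ (m + 1)) M
    (v + (s + 1)) F
    (fun E q hE hq hMq hqS =>
      (CubeRank.rr_le (hM E q hE hq hMq hqS.1 hqS.2)).trans (by omega))
    (fun t => by
      obtain ⟨K, hK⟩ := hT t
      refine ⟨K, fun σ h1 h2 => ?_⟩
      have e1 := hK σ h1 h2
      have e2 : ∀ E : ℕ, {q : ℕ | q ∈ {q : ℕ | q % 3 = 1 ∧ InCT E π w0 c q} ∧
          t ≤ CubeRank.rr (BB h n E q)} = WR h n π w0 c 1 E t := by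
        intro E
        ext q
        exact and_assoc
      rw [e2, e2]
      exact e1) hF h0
  refine ⟨K, fun σ h1 h2 T => (hK σ h1 h2 T).trans_eq ?_⟩
  rw [← hL1 (s + 1) v F, add_div, Finset.sum_div]
  simp only [mul_div_assoc]

end Pool.Agent.PTK

end

section

/-!
# PTK_MD2: the joint density of the entries of the minus part and the corank of the plus part
(helper64)
-/

set_option autoImplicit false

open NumberField IsDedekindDomain Finset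
open scoped nonZeroDivisors Pointwise

namespace Pool.Agent.PTK

open Pool.Agent.Lib_helper18 Pool.Agent.Lib_helper18.Eis Pool.Agent.Lib_helper84.Cub
open Pool.Agent.PT Pool.Agent.PTE Pool.Agent.PT3 Pool.Agent.PTL Pool.Agent.PTN

/-- a system of the minus part is a system for the densities -/
theorem MD2.sysZ {l N : ℕ} {z : Fin l → Eis} {U R U' R' : Fin l → Fin l → Eis}
    {α β : Fin N → Fin l} (h : SysF z U R U' R') (hp : Prs α β) :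
    SysZ z α β (fun r => U (α r) (β r)) (fun r => R (α r) (β r)) (fun r => U' (α r) (β r))
      (fun r => R' (α r) (β r)) :=
  ⟨h.ind, fun i => (h.mc i).cb, hp.lt, hp.inj, fun r => h.sol _ _ (hp.lt r).ne⟩

/-- PTK_MD2. -/
theorem MD2_thm (hCLSC : CLSC) (hMSP : Stmt_MSP) (hZS2 : Stmt_ZS2) (hBM2 : Stmt_BM2) :
    Stmt_MD2 := by
  classical
  intro h n m k π p e r f w0 c s τ b X Y P Q P' Q' hNF hh hPl l N y U R U' R' α β hMn M t
  obtain ⟨f₁, hf1, h1⟩ := hMSP h n m k π p e r f w0 c s τ b X Y P Q P' Q' hNF hh hPl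
  obtain ⟨f₂, hf2, h2⟩ := hZS2 h n m k π p e r f w0 c hNF hh l N y U R U' R' α β hMn
  obtain ⟨F, hFpos, hF9, hpF, hd1, hd2⟩ : ∃ F : ℕ, 0 < F ∧ 9 ∣ F ∧ (∀ i, p i ∣ F) ∧
      f₁ ∣ F ∧ f₂ ∣ F := by
    refine ⟨9 * (∏ i, p i) * (f₁ * f₂), ?_, ?_, ?_, ?_, ?_⟩
    · have h3 : 0 < ∏ i, p i := Finset.prod_pos fun i _ => (hNF.pp i).pos
      positivity
    · exact Dvd.dvd.mul_right (Dvd.intro _ rfl) _
    · intro i
      exact Dvd.dvd.mul_right (Dvd.dvd.mul_left (Finset.dvd_prod_of_mem p (mem_univ i)) _) _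
    · exact Dvd.dvd.mul_left (Dvd.intro _ rfl) _
    · exact Dvd.dvd.mul_left (Dvd.intro_left _ rfl) _
  obtain ⟨κ, hκ1, hκ2⟩ := hCLSC m π p hNF.pp hNF.p1 hNF.pπ hNF.pinj F hFpos hF9 hpF
  have hκ : IsK π κ := hκ1
  obtain ⟨C, Φ, N₁, h3⟩ := h1 F hFpos hd1 κ hκ
  obtain ⟨C', Φ', N₂, h4⟩ := h2 F hFpos hd2 κ hκ
  obtain ⟨K, hK⟩ := hBM2 s b P Q P' Q' l N (fun i => zN π e (y i)) α β
    (fun r => U (α r) (β r)) (fun r => R (α r) (β r)) (fun r => U' (α r) (β r))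
    (fun r => R' (α r) (β r)) F m t κ
    (Fin.cons w0 c) C Φ (C' - M) Φ' hPl.sys (MD2.sysZ hMn.sys hMn.prs) hFpos hF9 hκ2
  obtain ⟨M', hM⟩ : ∃ M', M' = N₁ + N₂ := ⟨_, rfl⟩
  refine ⟨K + 2 * (2 * ((Finset.range (M' + 1)).card : ℝ)), fun σ hσ1 hσ2 => ?_⟩
  have hB := hK σ hσ1 hσ2
  have i1 := CL.sm_le_add
    {q | q ∈ QMM h n π e w0 c y U R U' R' α β M 2 1 ∧ t ≤ kS h n b X Y P Q P' Q' 1 q}
    (SP b P Q P' Q' t κ (Fin.cons w0 c) C Φ ∩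
      SPZ (fun i => zN π e (y i)) α (fun r => U (α r) (β r)) (fun r => R (α r) (β r))
        (fun r => U' (α r) (β r)) (fun r => R' (α r) (β r)) κ (Fin.cons w0 c) (C' - M) Φ') M'
    (fun q hq hqM hqS => ⟨((h3 q t hq (by omega) hqS.1.1).1 hqS.1.2.1 hqS.2),
      (h4 q M hq (by omega)).1 hqS.1⟩) hσ1
  have i2 := CL.sm_le_add
    {q | q ∈ QMM h n π e w0 c y U R U' R' α β M 2 2 ∧ t ≤ kS h n b X Y P Q P' Q' 2 q}
    (SM b P Q P' Q' t κ (Fin.cons w0 c) C Φ ∩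
      SMZ (fun i => zN π e (y i)) α (fun r => U (α r) (β r)) (fun r => R (α r) (β r))
        (fun r => U' (α r) (β r)) (fun r => R' (α r) (β r)) κ (Fin.cons w0 c) (C' - M) Φ') M'
    (fun q hq hqM hqS => ⟨((h3 q t hq (by omega) hqS.1.1).2 hqS.1.2.1 hqS.2),
      (h4 q M hq (by omega)).2 hqS.1⟩) hσ1
  have e1 : (1 : ℝ) / 3 ^ N / 3 ^ (m + 1) * LI s t * Real.log (1 / (σ - 1)) =
      LI s t / 3 ^ N / 3 ^ (m + 1) * Real.log (1 / (σ - 1)) := by ring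
  rw [e1]
  linarith

end Pool.Agent.PTK

end

section

/-!
# PTK_JDG: joint averages with the matrix of the minus part, `q = 1 (mod 3)`, one pattern
-/

set_option autoImplicit false

open NumberField IsDedekindDomain Finset
open scoped nonZeroDivisors Pointwise

namespace Pool.Agent.PTK

open Pool.Agent.Lib_helper18 Pool.Agent.Lib_helper18.Eis Pool.Agent.Lib_helper84.Cub
open Pool.Agent.PT Pool.Agent.PTE Pool.Agent.PT3 Pool.Agent.PTL Pool.Agent.PTN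

/-- PTK_JDG -/
theorem JDG_thm (hUPS : Stmt_UPS) (hKUM : Stmt_KUM) (hMDU : Stmt_MDU) (hZKQ : Stmt_ZKQ)
    (hCNM : Stmt_CNM) : Stmt_JDG := by
  classical
  intro h n m k π p e r f w0 c d v δ s τ b X Y P Q P' Q' hNF hh hδ hPl l N y U R U' R' α β hM
    F hF hF0
  have hd : d - 1 = s := by
    have := hPl.dim
    omega
  have hFn : ∀ a c, 0 ≤ F a c := fun a c => (hF0 a).trans (hF a (Nat.zero_le c))
  obtain ⟨N₀, hN₀⟩ := hZKQ h n m k π p e r f w0 c hNF hh l y U R U' R' hM.bas hM.sys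
  obtain ⟨hAlt, hSum⟩ := hCNM.2 l N α β hM.prs
  obtain ⟨T, hT⟩ : ∃ T : (Fin N → ZMod 3) → ℕ → Set ℕ, ∀ M E, T M E =
      {q | q ∈ QMM h n π e w0 c y U R U' R' α β M 1 E ∧ q ∈ Pat v δ} := ⟨_, fun _ _ => rfl⟩
  have h1 := hUPS.1 (Fin N → ZMod 3)
    (fun E => {q | q % 3 = 1 ∧ InCT E π w0 c q ∧ q ∈ Pat v δ})
    (fun E q => F (kY h n π e y U R U' R' E q) (kU h n b X Y P Q P' Q' E q))
    T
    (fun M E q => F (l - (altZ α β M).rank) (kU h n b X Y P Q P' Q' E q))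
    (fun M => Esk s (F (l - (altZ α β M).rank)) * (2 / 3 ^ d / 3 ^ N / 3 ^ (m + 1))) 1 N₀ one_pos
    (fun M E q => hFn _ _) ?_ ?_
  · have e1 : (∑ M : Fin N → ZMod 3, Esk s (F (l - (altZ α β M).rank)) *
        (2 / 3 ^ d / 3 ^ N / 3 ^ (m + 1))) / 1 =
        Esk l (fun a => Esk (d - 1) (F a)) * (2 / 3 ^ d / 3 ^ (m + 1)) := by
      rw [hd, ← hSum (fun a => Esk s (F a)), ← Finset.sum_mul]
      field_simp
    rw [e1] at h1
    exact h1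
  · intro E q hE hq hqN hqS
    obtain ⟨hq1, hqC, hqP⟩ := hqS
    obtain ⟨hanti, -⟩ := hN₀ E q hE hq hqN (Or.inl hq1) hqC
    rw [one_mul]
    refine le_trans (b := if q ∈ T
        (fun r => MY h n π e y U R U' R' E q (α r) (β r)) E then
        F (l - (altZ α β (fun r => MY h n π e y U R U' R' E q (α r) (β r))).rank)
          (kU h n b X Y P Q P' Q' E q) else 0) ?_
      (Finset.single_le_sum (f := fun M : Fin N → ZMod 3 =>
        if q ∈ T M E then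
        F (l - (altZ α β M).rank) (kU h n b X Y P Q P' Q' E q) else 0) (fun M _ => ?_)
        (Finset.mem_univ _))
    · have hqT : q ∈ T (fun r => MY h n π e y U R U' R' E q (α r) (β r)) E := by
        rw [hT]
        exact ⟨⟨hq1, hqC, fun r => rfl⟩, hqP⟩
      rw [if_pos hqT, hAlt _ hanti]
      exact le_refl _
    · split_ifs
      · exact hFn _ _
      · exact le_refl _
  · intro M
    refine hKUM (T M)
      (fun E q => kU h n b X Y P Q P' Q' E q) s 0 (2 / 3 ^ d / 3 ^ N / 3 ^ (m + 1))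
      (by positivity) (fun E q _ _ _ _ => Nat.sub_le _ _) ?_ (F (l - (altZ α β M).rank)) (hF _)
      (hF0 _)
    intro t
    rw [hT, hT]
    exact hMDU h n m k π p e r f w0 c d v δ s τ b X Y P Q P' Q' hNF hh hδ hPl l N y U R U' R'
      α β hM M t

end Pool.Agent.PTK

end

section

/-!
# PTK_CBV: lower bounds in a class, `q = 1 (mod 3)`
-/

set_option autoImplicit false

open NumberField IsDedekindDomain Finset
open scoped nonZeroDivisors Pointwise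

namespace Pool.Agent.PTK

open Pool.Agent.Lib_helper18 Pool.Agent.Lib_helper18.Eis Pool.Agent.Lib_helper84.Cub
open Pool.Agent.PT Pool.Agent.PTE Pool.Agent.PT3 Pool.Agent.PTL Pool.Agent.PTN

/-- PTK_CBV. -/
theorem CBV_thm (hCLV : Stmt_CLV) (hCLU : Stmt_CLU) (hCLT : Stmt_CLT) (hSPP : SPP) :
    Stmt_CBV := by
  intro h n m k π p e r f w0 c hN hh t R hR
  obtain ⟨⟨M, hM⟩, -⟩ := hCLU h n m k π p e r f w0 c hN hh
  obtain ⟨K, hK⟩ := hCLT m π p hN.pp hN.p1 hN.pπ hN.pinj w0 c 1 (Or.inl rfl)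
  have := CBE.below hSPP hN 1 t R hR
    ⟨M, fun E q hE hq hqM hq3 hqc => ⟨_, hM E q hE hq hqM hq3 hqc⟩⟩ (1 / 3 ^ (m + 1))
    (LI (sN h n π p e r w0 c + 1) (t - vN h n π p e r w0 c) / 3 ^ (m + 1))
    ⟨K, fun σ h1 h2 => (hK σ h1 h2).1⟩ (hCLV h n m k π p e r f w0 c hN hh t)
  rwa [← sub_div] at this

end Pool.Agent.PTK

end

section

/-!
# UPL: from upper bounds to a lower bound
-/

set_option autoImplicit false

open NumberField IsDedekindDomain Finset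
open scoped nonZeroDivisors Pointwise

namespace Pool.Agent.PTK

open Pool.Agent.Lib_helper18 Pool.Agent.Lib_helper18.Eis Pool.Agent.Lib_helper84.Cub
open Pool.Agent.PT Pool.Agent.PTE Pool.Agent.PT3 Pool.Agent.PTL Pool.Agent.PTN

namespace UPL

open BDENS

theorem tf_nonneg (P : Prop) : 0 ≤ tf P := by
  unfold tf
  split_ifs
  · exact zero_le_one
  · exact le_rfl

open Classical in
/-- one exponent, pointwise -/
theorem point (n : ℤ) (a M : ℕ) (W R : ℤ → Prop) (S : Set ℕ) (g : ℕ → ℝ) (c₀ : ℝ) (E : ℕ)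
    (h1 : ∀ q : ℕ, q.Prime → M < q → q ∈ S → q % 3 = a ∧ W ((q : ℤ) ^ E))
    (h2 : ∀ q : ℕ, q.Prime → M < q → q ∈ S → c₀ - g q ≤ tf (R (n * (q : ℤ) ^ E)))
    {σ : ℝ} (hσ : 1 < σ) (q : ℕ) :
    c₀ * ind S σ q - (if q.Prime ∧ q ∈ S then g q * (q : ℝ) ^ (-σ) else 0) ≤
      (if q.Prime ∧ q % 3 = a ∧ W ((q : ℤ) ^ E) then
        tf (R (n * (q : ℤ) ^ E)) * (q : ℝ) ^ (-σ) else 0) +
      (if q ≤ M then |c₀ - g q| else 0) := by
  have hA : 0 ≤ (if q.Prime ∧ q % 3 = a ∧ W ((q : ℤ) ^ E) then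
      tf (R (n * (q : ℤ) ^ E)) * (q : ℝ) ^ (-σ) else 0) := by
    split_ifs
    · exact mul_nonneg (tf_nonneg _) (Real.rpow_nonneg (Nat.cast_nonneg q) _)
    · exact le_rfl
  have hC : 0 ≤ (if q ≤ M then |c₀ - g q| else 0) := by
    split_ifs
    · exact abs_nonneg _
    · exact le_rfl
  by_cases hq : q.Prime ∧ q ∈ S
  · rw [if_pos hq, ind_mem hq.1 hq.2, ← sub_mul]
    have hp0 : 0 ≤ (q : ℝ) ^ (-σ) := Real.rpow_nonneg (Nat.cast_nonneg q) _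
    by_cases hqM : q ≤ M
    · rw [if_pos hqM]
      have hp1 : (q : ℝ) ^ (-σ) ≤ 1 :=
        Real.rpow_le_one_of_one_le_of_nonpos (by exact_mod_cast hq.1.one_lt.le) (by linarith)
      have e1 : (c₀ - g q) * (q : ℝ) ^ (-σ) ≤ |c₀ - g q| * (q : ℝ) ^ (-σ) :=
        mul_le_mul_of_nonneg_right (le_abs_self _) hp0
      have e2 : |c₀ - g q| * (q : ℝ) ^ (-σ) ≤ |c₀ - g q| * 1 :=
        mul_le_mul_of_nonneg_left hp1 (abs_nonneg _)
      linarith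
    · rw [if_neg hqM, add_zero]
      rw [not_le] at hqM
      obtain ⟨e1, e2⟩ := h1 q hq.1 hqM hq.2
      rw [if_pos ⟨hq.1, e1, e2⟩]
      exact mul_le_mul_of_nonneg_right (h2 q hq.1 hqM hq.2) hp0
  · rw [if_neg hq, ind_not hq, mul_zero, sub_zero]
    exact add_nonneg hA hC

open Classical in
/-- one exponent -/
theorem one (n : ℤ) (a M : ℕ) (W R : ℤ → Prop) (S : Set ℕ) (g : ℕ → ℝ) (c₀ : ℝ) (E : ℕ)
    (hc : 0 ≤ c₀)
    (h1 : ∀ q : ℕ, q.Prime → M < q → q ∈ S → q % 3 = a ∧ W ((q : ℤ) ^ E))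
    (h2 : ∀ q : ℕ, q.Prime → M < q → q ∈ S → c₀ - g q ≤ tf (R (n * (q : ℤ) ^ E)))
    {σ : ℝ} (hσ : 1 < σ) (T : Finset ℕ) (hT : sm S σ - 1 ≤ ∑ q ∈ T, ind S σ q) :
    c₀ * (sm S σ - 1) - ∑ q ∈ T, (if q.Prime ∧ q ∈ S then g q * (q : ℝ) ^ (-σ) else 0) ≤
      ∑ q ∈ T, (if q.Prime ∧ q % 3 = a ∧ W ((q : ℤ) ^ E) then
        tf (R (n * (q : ℤ) ^ E)) * (q : ℝ) ^ (-σ) else 0) +
      ∑ q ∈ Finset.range (M + 1), |c₀ - g q| := by
  have e1 := Finset.sum_le_sum fun q (_ : q ∈ T) => point n a M W R S g c₀ E h1 h2 hσ q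
  rw [Finset.sum_sub_distrib, Finset.sum_add_distrib, ← Finset.mul_sum] at e1
  have e2 : ∑ q ∈ T, (if q ≤ M then |c₀ - g q| else 0) ≤
      ∑ q ∈ Finset.range (M + 1), |c₀ - g q| := by
    rw [← Finset.sum_filter]
    refine Finset.sum_le_sum_of_subset_of_nonneg ?_ fun q _ _ => abs_nonneg _
    intro q hq
    rw [Finset.mem_range]
    have := (Finset.mem_filter.1 hq).2
    omega
  have e3 := mul_le_mul_of_nonneg_left hT hc
  linarith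

end UPL

open _root_.Pool.Agent.PTK.UPL BDENS in
theorem UPL_thm : Stmt_UPL := by
  classical
  intro n a M W R S G x y c₀ hc h1 h2 hD hU
  obtain ⟨K0, hK0⟩ := hD
  obtain ⟨K1, hK1⟩ := hU
  refine ⟨c₀ * (K0 + 2) + K1 + ∑ q ∈ Finset.range (M + 1), |c₀ - G 1 q| +
    ∑ q ∈ Finset.range (M + 1), |c₀ - G 2 q|, fun σ hσ hσ2 => ?_⟩
  obtain ⟨T1, hT1⟩ := DOM.approx (S 1) hσ
  obtain ⟨T2, hT2⟩ := DOM.approx (S 2) hσ
  refine ⟨T1 ∪ T2, ?_⟩
  have j1 : ∑ q ∈ T1, ind (S 1) σ q ≤ ∑ q ∈ T1 ∪ T2, ind (S 1) σ q :=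
    Finset.sum_le_sum_of_subset_of_nonneg Finset.subset_union_left fun q _ _ =>
      ind_nonneg _ _ _
  have j2 : ∑ q ∈ T2, ind (S 2) σ q ≤ ∑ q ∈ T1 ∪ T2, ind (S 2) σ q :=
    Finset.sum_le_sum_of_subset_of_nonneg Finset.subset_union_right fun q _ _ =>
      ind_nonneg _ _ _
  have i1 := one n a M W R (S 1) (G 1) c₀ 1 hc (fun q => h1 1 q (Or.inl rfl))
    (fun q => h2 1 q (Or.inl rfl)) hσ (T1 ∪ T2) (hT1.trans j1)
  have i2 := one n a M W R (S 2) (G 2) c₀ 2 hc (fun q => h1 2 q (Or.inr rfl))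
    (fun q => h2 2 q (Or.inr rfl)) hσ (T1 ∪ T2) (hT2.trans j2)
  have e1 := hK1 σ hσ hσ2 (T1 ∪ T2)
  rw [Finset.sum_pair (by norm_num : (1 : ℕ) ≠ 2)] at e1
  have e2 := mul_le_mul_of_nonneg_left (hK0 σ hσ hσ2) hc
  unfold SumA
  rw [Finset.sum_pair (by norm_num : (1 : ℕ) ≠ 2)]
  have e3 : (c₀ * y - x) * Real.log (1 / (σ - 1)) =
      c₀ * (y * Real.log (1 / (σ - 1))) - x * Real.log (1 / (σ - 1)) := by ring
  rw [e3]
  linarith

end Pool.Agent.PTK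

end

section

/-! PTK_FB (helper13): the law in a class, both residue classes, upper and lower bounds. -/

set_option autoImplicit false

open Finset

namespace Pool.Agent.PTK

open Pool.Agent.Lib_helper18 Pool.Agent.Lib_helper18.Eis Pool.Agent.Lib_helper84.Cub
open Pool.Agent.PT Pool.Agent.PTE Pool.Agent.PT3 Pool.Agent.PTL Pool.Agent.PTN

namespace FB

theorem Esk_compl (s : ℕ) (G : ℕ → ℝ) : Esk s (fun x => 1 - G x) = 1 - Esk s G := by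
  classical
  unfold Esk
  have : Nonempty {M : Matrix (Fin s) (Fin s) (ZMod 3) // M.transpose = -M} :=
    ⟨⟨0, by simp⟩⟩
  have h0 : (Fintype.card {M : Matrix (Fin s) (Fin s) (ZMod 3) // M.transpose = -M} : ℝ) ≠ 0 := by
    exact_mod_cast Fintype.card_ne_zero
  rw [finsum_eq_sum_of_fintype, finsum_eq_sum_of_fintype, Nat.card_eq_fintype_card,
    Finset.sum_sub_distrib, sub_div, Finset.sum_const, nsmul_eq_mul, mul_one, Finset.card_univ,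
    div_self h0]

theorem EsD_compl (v s t : ℕ) : EsD v s (fun x => if x < t then 1 else 0) =
    1 - EsD v s (fun x => if t ≤ x then 1 else 0) := by
  unfold EsD
  rw [← Esk_compl]
  congr 1
  funext x
  rw [← Esk_compl]
  congr 1
  funext y
  show (if x + y < t then (1 : ℝ) else 0) = 1 - (if t ≤ x + y then (1 : ℝ) else 0)
  by_cases h : x + y < t
  · rw [if_pos h, if_neg (not_le.2 h), sub_zero]
  · rw [if_neg h, if_pos (not_lt.1 h), sub_self]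

theorem mono (t : ℕ) : Monotone fun x : ℕ => (if t ≤ x then (1 : ℝ) else 0) := by
  intro a b hab
  show (if t ≤ a then (1 : ℝ) else 0) ≤ if t ≤ b then (1 : ℝ) else 0
  split_ifs
  · exact le_rfl
  · omega
  · norm_num
  · exact le_rfl

theorem nonneg (t : ℕ) : (0 : ℝ) ≤ if t ≤ 0 then (1 : ℝ) else 0 := by
  split_ifs <;> norm_num

theorem hBB (h n E q : ℕ) : ((3 ^ h * n : ℕ) : ℤ) * (q : ℤ) ^ E = BB h n E q := by
  unfold BB
  push_cast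
  rfl

/-- the lower bound from the upper bound -/
theorem low (hUPL : Stmt_UPL) (hCLT : Stmt_CLT) (hSPP : SPP)
    {h n m k : ℕ} {π : Fin m → PP} {p e : Fin m → ℕ} {r f : Fin k → ℕ}
    {w0 : ZMod 3} {c : Fin m → ZMod 3} (hN : NF n π p e r f) {a v s t : ℕ} (ha : a = 1 ∨ a = 2)
    (R : ℤ → Prop)
    (hR : ∀ A : ℤ, A ≠ 0 → CubeRank.GenBy A (CubeRank.rr A) → CubeRank.rr A < t → R A)
    (hgen : ∃ M : ℕ, ∀ E q : ℕ, (E = 1 ∨ E = 2) → q.Prime → M < q → q % 3 = a →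
      InCT E π w0 c q → ∃ d, CubeRank.GenBy (BB h n E q) d)
    (hU : UpS (fun E => {q | q % 3 = a ∧ InCT E π w0 c q})
      (fun E q => (if t ≤ CubeRank.rr (BB h n E q) then (1 : ℝ) else 0))
      (EsD v s (fun x => if t ≤ x then 1 else 0) / 3 ^ (m + 1))) :
    BelowA ((3 ^ h * n : ℕ) : ℤ) a (Kl π w0 c) (fun A => tf (R A))
      (EsD v s (fun x => if x < t then 1 else 0) / 3 ^ (m + 1)) := by
  obtain ⟨M, hM⟩ := hgen
  have key := hUPL ((3 ^ h * n : ℕ) : ℤ) a (M + ∑ i, p i) (Kl π w0 c) R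
    (fun E => {q | q % 3 = a ∧ InCT E π w0 c q})
    (fun E q => (if t ≤ CubeRank.rr (BB h n E q) then (1 : ℝ) else 0))
    (EsD v s (fun x => if t ≤ x then 1 else 0) / 3 ^ (m + 1)) (1 / 3 ^ (m + 1)) 1 zero_le_one
    (fun E q hE hq hqM hqS => by
      have hp : ∀ i, p i < q := by
        intro i
        have := Finset.single_le_sum (f := p) (fun j _ => Nat.zero_le _) (Finset.mem_univ i)
        omega
      exact ⟨hqS.1, CBE.kl_of hSPP hN hq hp hqS.2⟩)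
    (fun E q hE hq hqM hqS => by
      rw [hBB]
      show 1 - (if t ≤ CubeRank.rr (BB h n E q) then (1 : ℝ) else 0) ≤ tf (R (BB h n E q))
      unfold tf
      by_cases hlt : t ≤ CubeRank.rr (BB h n E q)
      · rw [if_pos hlt, sub_self]
        split_ifs <;> norm_num
      · obtain ⟨d, hd⟩ := hM E q hE hq (by omega) hqS.1 hqS.2
        have hRB : R (BB h n E q) := by
          refine hR _ ?_ (CubeRank.gen_rr hd) (not_le.1 hlt)
          unfold BB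
          refine mul_ne_zero (mul_ne_zero (pow_ne_zero _ (by norm_num)) ?_) (pow_ne_zero _ ?_)
          · exact_mod_cast CBE.n_ne hN
          · exact_mod_cast hq.ne_zero
        rw [if_neg hlt, if_pos hRB, sub_zero])
    (by
      obtain ⟨K, hK⟩ := hCLT m π p hN.pp hN.p1 hN.pπ hN.pinj w0 c a ha
      exact ⟨K, fun σ h1 h2 => (hK σ h1 h2).1⟩)
    hU
  have e1 : EsD v s (fun x => if x < t then 1 else 0) / 3 ^ (m + 1) =
      1 * (1 / 3 ^ (m + 1)) - EsD v s (fun x => if t ≤ x then 1 else 0) / 3 ^ (m + 1) := by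
    rw [EsD_compl, one_mul, sub_div]
  rw [e1]
  exact key

end FB

/-- PTK_FB. -/
theorem FB_thm (hFL2 : Stmt_FL2) (hFL1 : Stmt_FL1) (hUPA : Stmt_UPA) (hUPL : Stmt_UPL)
    (hCLT : Stmt_CLT) (hCLN : Stmt_CLN) (hCLU : Stmt_CLU) (hSPP : SPP) : Stmt_FB := by
  intro h n m k π p e r f w0 c hN hh a ha
  have hup : ∀ F : ℕ → ℝ, Monotone F → 0 ≤ F 0 →
      UpS (fun E => {q | q % 3 = a ∧ InCT E π w0 c q}) (fun E q => F (CubeRank.rr (BB h n E q)))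
        (EsD (vN h n π p e r w0 c) (sN h n π p e r w0 c + if a = 1 then 1 else 0) F /
          3 ^ (m + 1)) := by
    intro F hF hF0
    rcases ha with rfl | rfl
    · rw [if_pos rfl]
      exact hFL1 h n m k π p e r f w0 c hN hh F hF hF0
    · rw [if_neg (by norm_num), add_zero]
      exact hFL2 h n m k π p e r f w0 c hN hh F hF hF0
  refine ⟨fun F hF hF0 => ?_, fun t R hR => ?_⟩
  · exact hUPA h n m k π p e r f w0 c a (fun A => F (CubeRank.rr A)) _ hN (hup F hF hF0)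
  · refine FB.low hUPL hCLT hSPP hN ha R hR ?_ (hup _ (FB.mono t) (FB.nonneg t))
    rcases ha with rfl | rfl
    · obtain ⟨⟨M, hM⟩, -⟩ := hCLU h n m k π p e r f w0 c hN hh
      exact ⟨M, fun E q hE hq hqM hq3 hqc => ⟨_, hM E q hE hq hqM hq3 hqc⟩⟩
    · obtain ⟨⟨M, hM⟩, -⟩ := hCLN h n m k π p e r f w0 c hN hh
      exact ⟨M, fun E q hE hq hqM hq3 hqc => ⟨_, hM E q hE hq hqM hq3 hqc⟩⟩

end Pool.Agent.PTK

end

section

/-!
# PTK_JDZ: joint averages, `q = 1 (mod 3)`, zero pattern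
-/

set_option autoImplicit false

open NumberField IsDedekindDomain Finset
open scoped nonZeroDivisors Pointwise

namespace Pool.Agent.PTK

open Pool.Agent.Lib_helper18 Pool.Agent.Lib_helper18.Eis Pool.Agent.Lib_helper84.Cub
open Pool.Agent.PT Pool.Agent.PTE Pool.Agent.PT3 Pool.Agent.PTL Pool.Agent.PTN

theorem JDZ_thm (hUPS : Stmt_UPS) (hKUM : Stmt_KUM) (hMDZ : Stmt_MDZ) (hZKQ : Stmt_ZKQ)
    (hCNM : Stmt_CNM) : Stmt_JDZ := by
  classical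
  intro h n m k π p e r f w0 c s τ b X Y P Q P' Q' hNF hh hS l N y U R U' R' α β hMn F hF hF0
  have hFn : ∀ a d, 0 ≤ F a d := fun a d => (hF0 a).trans (hF a (Nat.zero_le d))
  obtain ⟨N₀, hN₀⟩ := hZKQ h n m k π p e r f w0 c hNF hh l y U R U' R' hMn.bas hMn.sys
  obtain ⟨hC1, hC2⟩ := hCNM.2 l N α β hMn.prs
  have h1 := hUPS.1 (Fin N → ZMod 3) (fun E => {q | q % 3 = 1 ∧ InCT E π w0 c q ∧ q ∈ ZP b})
    (fun E q => F (kY h n π e y U R U' R' E q) (kS h n b X Y P Q P' Q' E q))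
    (fun M E => {q | q ∈ QMM h n π e w0 c y U R U' R' α β M 1 E ∧ q ∈ ZP b})
    (fun M E q => F (l - (altZ α β M).rank) (kS h n b X Y P Q P' Q' E q))
    (fun M => Esk s (F (l - (altZ α β M).rank)) * (1 / 3 ^ s / 3 ^ N / 3 ^ (m + 1)))
    1 N₀ one_pos (fun M E q => hFn _ _) ?_ ?_
  · have e1 : (∑ M : Fin N → ZMod 3, Esk s (F (l - (altZ α β M).rank)) *
        (1 / 3 ^ s / 3 ^ N / 3 ^ (m + 1))) / 1 =
        Esk l (fun a => Esk s (F a)) * (1 / 3 ^ s / 3 ^ (m + 1)) := by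
      rw [← Finset.sum_mul, ← hC2 (fun a => Esk s (F a))]
      field_simp
    rw [e1] at h1
    exact h1
  · intro E q hE hq hqN hqS
    obtain ⟨q1, q2, q3⟩ := hqS
    obtain ⟨hA, -⟩ := hN₀ E q hE hq hqN (Or.inl q1) q2
    have hM := hC1 (MY h n π e y U R U' R' E q) hA
    have hmem : q ∈ ({q | q ∈ QMM h n π e w0 c y U R U' R' α β
        (fun r => MY h n π e y U R U' R' E q (α r) (β r)) 1 E ∧ q ∈ ZP b} : Set ℕ) :=
      ⟨⟨q1, q2, fun r => rfl⟩, q3⟩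
    rw [one_mul]
    refine le_trans ?_ (Finset.single_le_sum (fun M _ => ?_)
      (Finset.mem_univ (fun r => MY h n π e y U R U' R' E q (α r) (β r))))
    · split_ifs with hc
      · have e2 : (l - (altZ α β fun r => MY h n π e y U R U' R' E q (α r) (β r)).rank) =
            kY h n π e y U R U' R' E q := by
          rw [hM]
          rfl
        exact le_of_eq (congrArg (fun x => F x (kS h n b X Y P Q P' Q' E q)) e2.symm)
      · exact absurd hmem hc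
    · split_ifs
      · exact hFn _ _
      · exact le_rfl
  · intro M
    refine hKUM (fun E => {q | q ∈ QMM h n π e w0 c y U R U' R' α β M 1 E ∧ q ∈ ZP b})
      (fun E q => kS h n b X Y P Q P' Q' E q) s 0 (1 / 3 ^ s / 3 ^ N / 3 ^ (m + 1))
      (by positivity) (fun E q _ _ _ _ => Nat.sub_le _ _) ?_
      (F (l - (altZ α β M).rank)) (hF _) (hF0 _)
    intro t
    exact hMDZ h n m k π p e r f w0 c s τ b X Y P Q P' Q' hNF hh hS l N y U R U' R' α β hMn M t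

end Pool.Agent.PTK

end
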