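import Mathlib
import Pool.Agent.PTWX.C67

/-! Parts: PTL.FIN, PTN.MAINQ, PTKX.MAW -/

namespace Pool.Agent.PTN.MAINQ
end Pool.Agent.PTN.MAINQ

section

/-!
# Prime power twists: the theorems
-/

set_option autoImplicit false

open NumberField IsDedekindDomain Finset
open scoped nonZeroDivisors Pointwise

namespace Pool.Agent.PTL

open Pool.Agent.PT Pool.Agent.Lib_helper18 Pool.Agent.Lib_helper18.Eis Pool.Agent.Lib_helper84.Cub

namespace FIN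

open BDENS

/-! ### Sums -/

theorem log_nn {σ : ℝ} (h1 : 1 < σ) (h2 : σ ≤ 2) : 0 ≤ Real.log (1 / (σ - 1)) := by
  apply Real.log_nonneg
  rw [le_div_iff₀ (by linarith)]
  linarith

theorem Above.mono {n : ℤ} {W : ℤ → Prop} {F : ℤ → ℝ} {x y : ℝ} (h : Above n W F x) (hxy : x ≤ y) :
    Above n W F y := by
  obtain ⟨K, hK⟩ := h
  refine ⟨K, fun σ h1 h2 T => (hK σ h1 h2 T).trans ?_⟩
  have := mul_le_mul_of_nonneg_right hxy (log_nn h1 h2)
  linarith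

theorem Below.mono {n : ℤ} {W : ℤ → Prop} {F : ℤ → ℝ} {x y : ℝ} (h : Below n W F x) (hxy : y ≤ x) :
    Below n W F y := by
  obtain ⟨K, hK⟩ := h
  refine ⟨K, fun σ h1 h2 => ?_⟩
  obtain ⟨T, hT⟩ := hK σ h1 h2
  refine ⟨T, le_trans ?_ hT⟩
  have := mul_le_mul_of_nonneg_right hxy (log_nn h1 h2)
  linarith

theorem Sum_mono {n : ℤ} {W : ℤ → Prop} {F : ℤ → ℝ} (hF : ∀ A, 0 ≤ F A) {σ : ℝ} {T T' : Finset ℕ}
    (h : T ⊆ T') : Sum n W F σ T ≤ Sum n W F σ T' := by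
  classical
  unfold Sum
  refine Finset.sum_le_sum fun e _ => Finset.sum_le_sum_of_subset_of_nonneg h fun q _ _ => ?_
  split_ifs
  · exact mul_nonneg (hF _) (Real.rpow_nonneg (Nat.cast_nonneg q) _)
  · exact le_rfl

theorem not_three {n : ℤ} (hn : ¬ (3 : ℤ) ∣ n) {q : ℕ} (hq : q % 3 = 2) (E : ℕ) :
    ¬ (3 : ℤ) ∣ n * (q : ℤ) ^ E := by
  intro h
  rcases Int.prime_three.dvd_or_dvd h with h1 | h1
  · exact hn h1
  · have := Int.prime_three.dvd_of_dvd_pow h1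
    omega

/-- the three classes -/
theorem Sum_all {n : ℤ} (hn : ¬ (3 : ℤ) ∣ n) (F : ℤ → ℝ) (σ : ℝ) (T : Finset ℕ) :
    Sum n (fun _ => True) F σ T = Sum n (Cls 1) F σ T + Sum n (Cls 2) F σ T +
      Sum n (Cls 4) F σ T := by
  classical
  unfold Sum
  rw [← Finset.sum_add_distrib, ← Finset.sum_add_distrib]
  refine Finset.sum_congr rfl fun e _ => ?_
  rw [← Finset.sum_add_distrib, ← Finset.sum_add_distrib]
  refine Finset.sum_congr rfl fun q _ => ?_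
  by_cases hq : q.Prime ∧ q % 3 = 2
  · have h3 := not_three hn hq.2 e
    generalize n * (q : ℤ) ^ e = A at *
    have hA : (Cls 1 A ∧ ¬ Cls 2 A ∧ ¬ Cls 4 A) ∨ (¬ Cls 1 A ∧ Cls 2 A ∧ ¬ Cls 4 A) ∨
        (¬ Cls 1 A ∧ ¬ Cls 2 A ∧ Cls 4 A) := by
      unfold Cls
      omega
    rcases hA with ⟨h1, h2, h4⟩ | ⟨h1, h2, h4⟩ | ⟨h1, h2, h4⟩
    · rw [if_pos ⟨hq.1, hq.2, trivial⟩, if_pos ⟨hq.1, hq.2, h1⟩, if_neg fun h => h2 h.2.2,
        if_neg fun h => h4 h.2.2]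
      ring
    · rw [if_pos ⟨hq.1, hq.2, trivial⟩, if_neg fun h => h1 h.2.2, if_pos ⟨hq.1, hq.2, h2⟩,
        if_neg fun h => h4 h.2.2]
      ring
    · rw [if_pos ⟨hq.1, hq.2, trivial⟩, if_neg fun h => h1 h.2.2, if_neg fun h => h2 h.2.2,
        if_pos ⟨hq.1, hq.2, h4⟩]
      ring
  · rw [if_neg fun h => hq ⟨h.1, h.2.1⟩, if_neg fun h => hq ⟨h.1, h.2.1⟩,
      if_neg fun h => hq ⟨h.1, h.2.1⟩, if_neg fun h => hq ⟨h.1, h.2.1⟩]
    ring

theorem Above_all {n : ℤ} (hn : ¬ (3 : ℤ) ∣ n) {F : ℤ → ℝ} {x y z : ℝ} (h1 : Above n (Cls 1) F x)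
    (h2 : Above n (Cls 2) F y) (h4 : Above n (Cls 4) F z) :
    Above n (fun _ => True) F (x + y + z) := by
  obtain ⟨K1, hK1⟩ := h1
  obtain ⟨K2, hK2⟩ := h2
  obtain ⟨K4, hK4⟩ := h4
  refine ⟨K1 + K2 + K4, fun σ h1 h2 T => ?_⟩
  rw [Sum_all hn]
  have e1 := hK1 σ h1 h2 T
  have e2 := hK2 σ h1 h2 T
  have e4 := hK4 σ h1 h2 T
  have : (x + y + z) * Real.log (1 / (σ - 1)) = x * Real.log (1 / (σ - 1)) +
      y * Real.log (1 / (σ - 1)) + z * Real.log (1 / (σ - 1)) := by ring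
  linarith

theorem Below_zero {n : ℤ} {W : ℤ → Prop} {F : ℤ → ℝ} : Below n W F 0 := by
  refine ⟨0, fun σ h1 h2 => ⟨∅, ?_⟩⟩
  unfold Sum
  simp

theorem Below_all {n : ℤ} (hn : ¬ (3 : ℤ) ∣ n) {F : ℤ → ℝ} (hF : ∀ A, 0 ≤ F A) {x y z : ℝ}
    (h1 : Below n (Cls 1) F x) (h2 : Below n (Cls 2) F y) (h4 : Below n (Cls 4) F z) :
    Below n (fun _ => True) F (x + y + z) := by
  classical
  obtain ⟨K1, hK1⟩ := h1
  obtain ⟨K2, hK2⟩ := h2
  obtain ⟨K4, hK4⟩ := h4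
  refine ⟨K1 + K2 + K4, fun σ h1 h2 => ?_⟩
  obtain ⟨T1, e1⟩ := hK1 σ h1 h2
  obtain ⟨T2, e2⟩ := hK2 σ h1 h2
  obtain ⟨T4, e4⟩ := hK4 σ h1 h2
  refine ⟨T1 ∪ T2 ∪ T4, ?_⟩
  rw [Sum_all hn]
  have i1 : Sum n (Cls 1) F σ T1 ≤ Sum n (Cls 1) F σ (T1 ∪ T2 ∪ T4) :=
    Sum_mono hF fun q hq => by simp [hq]
  have i2 : Sum n (Cls 2) F σ T2 ≤ Sum n (Cls 2) F σ (T1 ∪ T2 ∪ T4) :=
    Sum_mono hF fun q hq => by simp [hq]
  have i4 : Sum n (Cls 4) F σ T4 ≤ Sum n (Cls 4) F σ (T1 ∪ T2 ∪ T4) :=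
    Sum_mono hF fun q hq => by simp [hq]
  have : (x + y + z) * Real.log (1 / (σ - 1)) = x * Real.log (1 / (σ - 1)) +
      y * Real.log (1 / (σ - 1)) + z * Real.log (1 / (σ - 1)) := by ring
  linarith

/-! ### Classes -/

theorem wt_res {A : ℤ} {c : ℤ} (s t : ℤ) (hA : A % 9 = c) (h : c ^ 2 = 1 + 3 * (3 * s + t)) :
    wt (A ^ 2) = (t : ZMod 3) := by
  obtain ⟨k, hk⟩ : ∃ k : ℤ, A = 9 * k + c := ⟨A / 9, by omega⟩
  have h3 : A ^ 2 = 1 + 3 * (3 * (9 * k ^ 2 + 2 * k * c + s) + t) := by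
    rw [hk]
    linear_combination h
  rw [wt_eq h3]
  push_cast
  have h4 : (3 : ZMod 3) = 0 := by decide
  rw [h4]
  ring

theorem cls_iff {a A : ℤ} (ha : a = 1 ∨ a = 2 ∨ a = 4) (hA : ¬ (3 : ℤ) ∣ A) :
    Cls a A ↔ wt (A ^ 2) = wt (a ^ 2) := by
  have w1 : wt ((1 : ℤ) ^ 2) = 0 := by rw [wt_res (c := 1) 0 0 (by norm_num) (by norm_num)]; decide
  have w2 : wt ((2 : ℤ) ^ 2) = 1 := by rw [wt_res (c := 2) 0 1 (by norm_num) (by norm_num)]; decide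
  have w4 : wt ((4 : ℤ) ^ 2) = 2 := by rw [wt_res (c := 4) 1 2 (by norm_num) (by norm_num)]; decide
  have d01 : (0 : ZMod 3) ≠ 1 := by decide
  have d02 : (0 : ZMod 3) ≠ 2 := by decide
  have d12 : (1 : ZMod 3) ≠ 2 := by decide
  have hr : A % 9 = 1 ∨ A % 9 = 2 ∨ A % 9 = 4 ∨ A % 9 = 5 ∨ A % 9 = 7 ∨ A % 9 = 8 := by omega
  have hwt : (A % 9 = 1 ∨ A % 9 = 8) ∧ wt (A ^ 2) = 0 ∨ (A % 9 = 2 ∨ A % 9 = 7) ∧ wt (A ^ 2) = 1 ∨
      (A % 9 = 4 ∨ A % 9 = 5) ∧ wt (A ^ 2) = 2 := by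
    rcases hr with h | h | h | h | h | h
    · exact Or.inl ⟨Or.inl h, by rw [wt_res 0 0 h (by norm_num)]; decide⟩
    · exact Or.inr (Or.inl ⟨Or.inl h, by rw [wt_res 0 1 h (by norm_num)]; decide⟩)
    · exact Or.inr (Or.inr ⟨Or.inl h, by rw [wt_res 1 2 h (by norm_num)]; decide⟩)
    · exact Or.inr (Or.inr ⟨Or.inr h, by rw [wt_res 2 2 h (by norm_num)]; decide⟩)
    · exact Or.inr (Or.inl ⟨Or.inr h, by rw [wt_res 5 1 h (by norm_num)]; decide⟩)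
    · exact Or.inl ⟨Or.inr h, by rw [wt_res 7 0 h (by norm_num)]; decide⟩
  unfold Cls
  rcases ha with rfl | rfl | rfl
  · rw [w1]
    rcases hwt with ⟨h, hw⟩ | ⟨h, hw⟩ | ⟨h, hw⟩
    · rw [hw]
      exact ⟨fun _ => rfl, fun _ => by omega⟩
    · rw [hw]
      exact ⟨fun _ => by omega, fun h => absurd h.symm d01⟩
    · rw [hw]
      exact ⟨fun _ => by omega, fun h => absurd h.symm d02⟩
  · rw [w2]
    rcases hwt with ⟨h, hw⟩ | ⟨h, hw⟩ | ⟨h, hw⟩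
    · rw [hw]
      exact ⟨fun _ => by omega, fun h => absurd h d01⟩
    · rw [hw]
      exact ⟨fun _ => rfl, fun _ => by omega⟩
    · rw [hw]
      exact ⟨fun _ => by omega, fun h => absurd h.symm d12⟩
  · rw [w4]
    rcases hwt with ⟨h, hw⟩ | ⟨h, hw⟩ | ⟨h, hw⟩
    · rw [hw]
      exact ⟨fun _ => by omega, fun h => absurd h d02⟩
    · rw [hw]
      exact ⟨fun _ => by omega, fun h => absurd h d12⟩
    · rw [hw]
      exact ⟨fun _ => rfl, fun _ => by omega⟩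

theorem wt_one_iff {a : ℤ} (ha : a = 1 ∨ a = 2 ∨ a = 4) : wt (a ^ 2) = 0 ↔ a = 1 := by
  have h1 := cls_iff (a := 1) (A := a) (Or.inl rfl) (by omega)
  have w1 : wt ((1 : ℤ) ^ 2) = 0 := by rw [wt_res (c := 1) 0 0 (by norm_num) (by norm_num)]; decide
  rw [w1] at h1
  rw [← h1]
  unfold Cls
  omega

section

variable {k : ℕ} {p e : Fin k → ℕ} (hp : ∀ i, (p i).Prime) (h3 : ∀ i, p i % 3 = 2)

include hp h3 in
theorem n_three : ¬ (3 : ℤ) ∣ ∏ i, (p i : ℤ) ^ e i := by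
  intro h
  obtain ⟨i, -, hi⟩ := (Prime.dvd_finsetProd_iff Int.prime_three _).1 h
  have h1 := Int.prime_three.dvd_of_dvd_pow hi
  have := h3 i
  omega

theorem p_wt {q : ℕ} (hq : q % 3 = 2) : wt ((q : ℤ) ^ 2) ≠ 0 ↔ q % 9 ≠ 8 := by
  have h1 : q % 9 = 2 ∨ q % 9 = 5 ∨ q % 9 = 8 := by omega
  rcases h1 with h | h | h
  · rw [DL.wt_val 2 0 1 h (by norm_num)]
    exact ⟨fun _ => by omega, fun _ => by decide⟩
  · rw [DL.wt_val 5 2 2 h (by norm_num)]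
    exact ⟨fun _ => by omega, fun _ => by decide⟩
  · rw [DL.wt_val 8 7 0 h (by norm_num)]
    exact ⟨fun h2 => absurd (by decide : ((0 : ℤ) : ZMod 3) = 0) h2, fun h2 => absurd h h2⟩

/-- if all primes are `8` modulo `9` -/
theorem n_wt (h8 : ∀ i, p i % 9 = 8) : wt ((∏ i, (p i : ℤ) ^ e i) ^ 2) = 0 := by
  have h1 : (((∏ i, (p i : ℤ) ^ e i) ^ 2 : ℤ) : ZMod 9) = 1 := by
    push_cast
    rw [← Finset.prod_pow]
    refine Finset.prod_eq_one fun i _ => ?_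
    have h2 : ((p i : ℕ) : ZMod 9) = 8 := by
      have h4 : ((p i : ℕ) : ZMod 9) = ((8 : ℕ) : ZMod 9) := by
        rw [ZMod.natCast_eq_natCast_iff']
        rw [h8 i]
      rw [h4]
      rfl
    rw [h2, ← pow_mul, mul_comm, pow_mul]
    have h5 : (8 : ZMod 9) ^ 2 = 1 := by decide
    rw [h5, one_pow]
  have h2 : (9 : ℤ) ∣ (∏ i, (p i : ℤ) ^ e i) ^ 2 - 1 := by
    have h4 : (((∏ i, (p i : ℤ) ^ e i) ^ 2 - 1 : ℤ) : ZMod 9) = 0 := by
      rw [Int.cast_sub, h1, Int.cast_one, sub_self]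
    exact (ZMod.intCast_zmod_eq_zero_iff_dvd _ 9).1 h4
  obtain ⟨m, hm⟩ := h2
  have h4 : (∏ i, (p i : ℤ) ^ e i) ^ 2 = 1 + 3 * (3 * m) := by linarith
  rw [wt_eq h4]
  push_cast
  have h5 : (3 : ZMod 3) = 0 := by decide
  rw [h5, zero_mul]

/-- the class of `q` -/
noncomputable def w0 (p e : Fin k → ℕ) (a : ℤ) : ZMod 3 :=
  wt (a ^ 2) - wt ((∏ i, (p i : ℤ) ^ e i) ^ 2)

theorem H_of {a : ℤ} (ha : a = 1 ∨ a = 2 ∨ a = 4) (h1 : a = 1 → ∃ i, p i % 9 ≠ 8) :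
    (∃ i, p i % 9 ≠ 8) ∨ w0 p e a ≠ 0 := by
  by_cases h : ∃ i, p i % 9 ≠ 8
  · exact Or.inl h
  · right
    push Not at h
    unfold w0
    rw [n_wt h, sub_zero]
    intro h2
    exact absurd (h1 ((wt_one_iff ha).1 h2)) (by push Not; exact h)

include hp h3 in
theorem mem_iff {a : ℤ} (ha : a = 1 ∨ a = 2 ∨ a = 4) (h1 : a = 1 → ∃ i, p i % 9 ≠ 8)
    (E q : ℕ) (hE : E = 1 ∨ E = 2) : (q % 3 = 2 ∧ Cls a ((∏ i, (p i : ℤ) ^ e i) * q ^ E)) ↔
      q ∈ WS p e (w0 p e a) E 0 := by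
  have hn := n_three (e := e) hp h3
  by_cases hq3 : q % 3 = 2
  · have hqE : ¬ (3 : ℤ) ∣ (q : ℤ) ^ E := by
      intro h
      have := Int.prime_three.dvd_of_dvd_pow h
      omega
    have key : Cls a ((∏ i, (p i : ℤ) ^ e i) * q ^ E) ↔
        wt (((q : ℤ) ^ E) ^ 2) = w0 p e a := by
      rw [cls_iff ha (not_three hn hq3 E), mul_pow, wt_mul (sq_mod_three hn) (sq_mod_three hqE)]
      unfold w0
      rw [eq_sub_iff_add_eq, add_comm]
    constructor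
    · rintro ⟨-, hc⟩
      have hw := key.1 hc
      refine ⟨hq3, ?_, hw, Nat.zero_le _⟩
      rcases H_of (e := e) ha h1 with h | h
      · exact Or.inr h
      · left
        rw [← p_wt hq3]
        intro h2
        apply h
        rw [← hw]
        rcases hE with rfl | rfl
        · rw [pow_one]
          exact h2
        · rw [CL.wt_sq2 hq3, h2, mul_zero]
    · intro h
      exact ⟨hq3, key.2 h.2.2.1⟩
  · exact ⟨fun h => absurd h.1 hq3, fun h => absurd h.1 hq3⟩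

include h3 in
theorem sz_eq {a : ℤ} (ha : a = 1 ∨ a = 2 ∨ a = 4) (h1 : a = 1 → ∃ i, p i % 9 ≠ 8) :
    sz p e (w0 p e a) = if a = 1 then k - 1 else k := by
  classical
  unfold sz
  have hcast : ((∏ i, p i ^ e i : ℕ) : ℤ) = ∏ i, (p i : ℤ) ^ e i := by
    push_cast
    rfl
  rw [hcast]
  have h2 : wt ((∏ i, (p i : ℤ) ^ e i) ^ 2) + w0 p e a = 0 ↔ a = 1 := by
    unfold w0
    rw [add_sub_cancel]
    exact wt_one_iff ha
  by_cases h : a = 1
  · rw [if_pos h, if_pos]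
    refine ⟨h2.2 h, ?_⟩
    obtain ⟨i, hi⟩ := h1 h
    exact ⟨i, (p_wt (h3 i)).2 hi⟩
  · rw [if_neg h, if_neg fun h' => h (h2.1 h'.1)]

include hp h3 in
/-- averages -/
theorem above (hCLE : CLE) (hk : 1 ≤ k) (hinj : Function.Injective p)
    (he : ∀ i, e i = 1 ∨ e i = 2) {a : ℤ} (ha : a = 1 ∨ a = 2 ∨ a = 4)
    (h1 : a = 1 → ∃ i, p i % 9 ≠ 8) (F : ℕ → ℝ) (hF : Monotone F) (h0 : 0 ≤ F 0) :
    Above (∏ i, (p i : ℤ) ^ e i) (Cls a) (fun A => F (CubeRank.rr A))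
      (Esk (if a = 1 then k - 1 else k) F / 3) := by
  classical
  obtain ⟨K, hK⟩ := DOM.dom hCLE hk hp h3 hinj he (w0 p e a) F hF h0
  rw [sz_eq h3 ha h1] at hK
  refine ⟨K, fun σ hs1 hs2 T => le_trans (le_of_eq ?_) (hK σ hs1 hs2 T)⟩
  unfold Sum
  refine Finset.sum_congr rfl fun E hE => ?_
  have hE' : E = 1 ∨ E = 2 := by simpa using hE
  refine Finset.sum_congr rfl fun q _ => ?_
  have hm := mem_iff (e := e) hp h3 ha h1 E q hE'
  by_cases hq : q.Prime ∧ q ∈ WS p e (w0 p e a) E 0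
  · rw [if_pos hq, if_pos ⟨hq.1, (hm.2 hq.2).1, (hm.2 hq.2).2⟩]
  · rw [if_neg hq, if_neg fun h => hq ⟨h.1, hm.1 ⟨h.2.1, h.2.2⟩⟩]

include hp h3 in
/-- lower bounds -/
theorem below (hCLE : CLE) (hDIR : DIR) (hk : 1 ≤ k) (hinj : Function.Injective p)
    (he : ∀ i, e i = 1 ∨ e i = 2) {a : ℤ} (ha : a = 1 ∨ a = 2 ∨ a = 4)
    (h1 : a = 1 → ∃ i, p i % 9 ≠ 8) (t M : ℕ) (R : ℤ → Prop) (x : ℝ)
    (hx : Esk (if a = 1 then k - 1 else k) (fun c => if t ≤ c then 1 else 0) ≤ x)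
    (hR : ∀ E q : ℕ, (E = 1 ∨ E = 2) → q.Prime → M < q → q % 3 = 2 →
      (q % 9 ≠ 8 ∨ ∃ i, p i % 9 ≠ 8) → ¬ t ≤ CubeRank.rr ((∏ i, (p i : ℤ) ^ e i) * q ^ E) →
      R ((∏ i, (p i : ℤ) ^ e i) * q ^ E)) :
    Below (∏ i, (p i : ℤ) ^ e i) (Cls a) (fun A => tf (R A)) ((1 - x) / 3) := by
  classical
  obtain ⟨K, hK⟩ := DOM.low hCLE hDIR hk hp h3 hinj he (w0 p e a) (H_of ha h1) t
    (fun E => {q | q ∈ WS p e (w0 p e a) E 0 ∧ R ((∏ i, (p i : ℤ) ^ e i) * (q : ℤ) ^ E)}) M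
    (fun E q hE hq hqM hqW hqt => ⟨hqW, hR E q hE hq hqM hqW.1 hqW.2.1 fun ht =>
      hqt ⟨hqW.1, hqW.2.1, hqW.2.2.1, ht⟩⟩)
  rw [sz_eq h3 ha h1] at hK
  refine ⟨K, fun σ hs1 hs2 => ?_⟩
  obtain ⟨T, hT⟩ := hK σ hs1 hs2
  refine ⟨T, le_trans ?_ (hT.trans (le_of_eq ?_))⟩
  · have h2 : Esk (if a = 1 then k - 1 else k) (fun c => if t ≤ c then 1 else 0) =
        (NK (if a = 1 then k - 1 else k) t : ℝ) / Nat.card
          (Fin (if a = 1 then k - 1 else k) → Fin (if a = 1 then k - 1 else k) → ZMod 3) := by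
      generalize (if a = 1 then k - 1 else k) = s
      rw [AL.Esk_eq]
      congr 1
      unfold NK
      rw [Nat.card_eq_fintype_card, Fintype.card_subtype, Finset.sum_ite, Finset.sum_const_zero,
        add_zero, Finset.sum_const, nsmul_eq_mul, mul_one]
      rfl
    rw [h2] at hx
    have h4 := mul_le_mul_of_nonneg_right (sub_le_sub_left hx 1) (log_nn hs1 hs2)
    linarith
  · unfold Sum
    refine Finset.sum_congr rfl fun E hE => ?_
    have hE' : E = 1 ∨ E = 2 := by simpa using hE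
    refine Finset.sum_congr rfl fun q _ => ?_
    have hm := mem_iff (e := e) hp h3 ha h1 E q hE'
    show ind {q : ℕ | q ∈ WS p e (w0 p e a) E 0 ∧
      R ((∏ i, (p i : ℤ) ^ e i) * (q : ℤ) ^ E)} σ q = _
    unfold tf
    beta_reduce
    by_cases hq : q.Prime ∧ q ∈ WS p e (w0 p e a) E 0
    · rw [if_pos ⟨hq.1, (hm.2 hq.2).1, (hm.2 hq.2).2⟩]
      by_cases hRq : R ((∏ i, (p i : ℤ) ^ e i) * (q : ℤ) ^ E)
      · rw [ind_mem (S := {q : ℕ | q ∈ WS p e (w0 p e a) E 0 ∧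
          R ((∏ i, (p i : ℤ) ^ e i) * (q : ℤ) ^ E)}) hq.1 ⟨hq.2, hRq⟩, if_pos hRq, one_mul]
      · rw [ind_not fun h => hRq h.2.2, if_neg hRq, zero_mul]
    · rw [if_neg fun h => hq ⟨h.1, hm.1 ⟨h.2.1, h.2.2⟩⟩, ind_not fun h => hq ⟨h.1, h.2.1⟩]

end

end FIN

end Pool.Agent.PTL

end

section

/-!
# The law of the ranks of prime twists for every `n`: the theorem (module MAINQ)
-/

set_option autoImplicit false

open NumberField IsDedekindDomain Finset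
open scoped nonZeroDivisors Pointwise

namespace Pool.Agent.PTN

open Pool.Agent.Lib_helper18 Pool.Agent.Lib_helper18.Eis Pool.Agent.Lib_helper84.Cub
open Pool.Agent.PT Pool.Agent.PTE Pool.Agent.PT3 Pool.Agent.PTL

namespace MAINQ

theorem tf_nn (P : Prop) : 0 ≤ tf P := by
  unfold tf
  split_ifs
  · exact zero_le_one
  · exact le_refl _

/-! ### Comparison of sums -/

/-- the sum of the values at the small primes -/
noncomputable def small (n : ℤ) (M : ℕ) (F : ℤ → ℝ) : ℝ :=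
  ∑ e ∈ ({1, 2} : Finset ℕ), ∑ q ∈ Finset.range (M + 1), F (n * (q : ℤ) ^ e)

theorem sum_le (n : ℤ) (a M : ℕ) (W W' : ℤ → Prop) (F : ℤ → ℝ) (hF : ∀ A, 0 ≤ F A)
    (h : ∀ e q : ℕ, (e = 1 ∨ e = 2) → q.Prime → M < q → W ((q : ℤ) ^ e) → W' ((q : ℤ) ^ e))
    {σ : ℝ} (h1 : 1 < σ) (T : Finset ℕ) :
    SumA n a W F σ T ≤ SumA n a W' F σ T + small n M F := by
  classical
  unfold SumA small
  rw [← Finset.sum_add_distrib]
  refine Finset.sum_le_sum fun e he => ?_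
  have he' : e = 1 ∨ e = 2 := by simpa using he
  have h0 : ∑ q ∈ T, (if q ∈ Finset.range (M + 1) then F (n * (q : ℤ) ^ e) else 0) ≤
      ∑ q ∈ Finset.range (M + 1), F (n * (q : ℤ) ^ e) := by
    rw [← Finset.sum_filter]
    exact Finset.sum_le_sum_of_subset_of_nonneg (fun q hq => (Finset.mem_filter.1 hq).2)
      (fun _ _ _ => hF _)
  refine le_trans ?_ (add_le_add le_rfl h0)
  rw [← Finset.sum_add_distrib]
  refine Finset.sum_le_sum fun q _ => ?_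
  have hpw : 0 ≤ (q : ℝ) ^ (-σ) := Real.rpow_nonneg (Nat.cast_nonneg q) _
  have hnn : 0 ≤ F (n * (q : ℤ) ^ e) * (q : ℝ) ^ (-σ) := mul_nonneg (hF _) hpw
  by_cases hW : q.Prime ∧ q % 3 = a ∧ W ((q : ℤ) ^ e)
  · rw [if_pos hW]
    by_cases hM : M < q
    · rw [if_pos ⟨hW.1, hW.2.1, h e q he' hW.1 hM hW.2.2⟩,
        if_neg (fun h5 => absurd (Finset.mem_range.1 h5) (by omega)), add_zero]
    · rw [if_pos (Finset.mem_range.2 (by omega))]
      have h3 : (q : ℝ) ^ (-σ) ≤ 1 :=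
        Real.rpow_le_one_of_one_le_of_nonpos (by exact_mod_cast hW.1.one_lt.le) (by linarith)
      have h4 : F (n * (q : ℤ) ^ e) * (q : ℝ) ^ (-σ) ≤ F (n * (q : ℤ) ^ e) :=
        mul_le_of_le_one_right (hF _) h3
      split_ifs
      · linarith
      · linarith
  · rw [if_neg hW]
    have h6 := hF (n * (q : ℤ) ^ e)
    split_ifs <;> linarith

theorem above_of {n : ℤ} {a M : ℕ} {W W' : ℤ → Prop} {F : ℤ → ℝ} {x : ℝ} (hF : ∀ A, 0 ≤ F A)
    (h : ∀ e q : ℕ, (e = 1 ∨ e = 2) → q.Prime → M < q → W ((q : ℤ) ^ e) → W' ((q : ℤ) ^ e))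
    (hA : AboveA n a W' F x) : AboveA n a W F x := by
  obtain ⟨K, hK⟩ := hA
  refine ⟨K + small n M F, fun σ h1 h2 T => ?_⟩
  have e1 := sum_le n a M W W' F hF h h1 T
  have e2 := hK σ h1 h2 T
  linarith

theorem below_of {n : ℤ} {a M : ℕ} {W W' : ℤ → Prop} {F : ℤ → ℝ} {x : ℝ} (hF : ∀ A, 0 ≤ F A)
    (h : ∀ e q : ℕ, (e = 1 ∨ e = 2) → q.Prime → M < q → W' ((q : ℤ) ^ e) → W ((q : ℤ) ^ e))
    (hB : BelowA n a W' F x) : BelowA n a W F x := by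
  obtain ⟨K, hK⟩ := hB
  refine ⟨K + small n M F, fun σ h1 h2 => ?_⟩
  obtain ⟨T, hT⟩ := hK σ h1 h2
  refine ⟨T, ?_⟩
  have e1 := sum_le n a M W' W F hF h h1 T
  linarith

/-! ### Units -/

/-- the class of a unit -/
noncomputable def clu (f : ℕ) {m : ℕ} (π : Fin m → PP) (u : (ZMod f)ˣ) :
    ZMod 3 × (Fin m → ZMod 3) :=
  (wt ((((u : ZMod f).val : ℕ) : ℤ) ^ 2), fun i => sym (π i).1 ((((u : ZMod f).val : ℕ) : ℤ) : Eis))

theorem kl_clu (f : ℕ) {m : ℕ} (π : Fin m → PP) (u : (ZMod f)ˣ) :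
    Kl π (clu f π u).1 (clu f π u).2 (((u : ZMod f).val : ℕ) : ℤ) := ⟨rfl, fun _ => rfl⟩

theorem kl_iff (f : ℕ) {m : ℕ} (π : Fin m → PP) (u : (ZMod f)ˣ) (w0 : ZMod 3)
    (c : Fin m → ZMod 3) :
    Kl π w0 c (((u : ZMod f).val : ℕ) : ℤ) ↔ clu f π u = (w0, c) := by
  unfold Kl clu
  rw [Prod.ext_iff, funext_iff]

/-- sums over the units -/
theorem sum_clu {f m : ℕ} [NeZero f] (π : Fin m → PP)
    (h : ∀ (w0 : ZMod 3) (c : Fin m → ZMod 3),
      Nat.card {u : (ZMod f)ˣ // Kl π w0 c (((u : ZMod f).val : ℕ) : ℤ)} * 3 ^ (m + 1) =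
        f.totient) (G : ZMod 3 × (Fin m → ZMod 3) → ℝ) :
    ∑ u : (ZMod f)ˣ, G (clu f π u) = (∑ x, G x) * ((f.totient : ℝ) / 3 ^ (m + 1)) := by
  classical
  rw [← Finset.sum_fiberwise (Finset.univ : Finset (ZMod f)ˣ) (clu f π), Finset.sum_mul]
  refine Finset.sum_congr rfl fun x _ => ?_
  have h1 : ∀ u ∈ Finset.univ.filter (fun u : (ZMod f)ˣ => clu f π u = x), G (clu f π u) = G x :=
    fun u hu => by rw [(Finset.mem_filter.1 hu).2]
  rw [Finset.sum_congr rfl h1, Finset.sum_const, nsmul_eq_mul, mul_comm]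
  congr 1
  have h2 := h x.1 x.2
  have h3 : Nat.card {u : (ZMod f)ˣ // Kl π x.1 x.2 (((u : ZMod f).val : ℕ) : ℤ)} =
      (Finset.univ.filter (fun u : (ZMod f)ˣ => clu f π u = x)).card := by
    rw [Nat.card_eq_fintype_card, Fintype.card_subtype]
    congr 1
    ext u
    simp only [Finset.mem_filter, Finset.mem_univ, true_and]
    exact kl_iff f π u x.1 x.2
  rw [h3] at h2
  rw [eq_div_iff (by positivity)]
  exact_mod_cast h2

/-- numbers of units -/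
theorem count {f m : ℕ} [NeZero f] (π : Fin m → PP)
    (h : ∀ (w0 : ZMod 3) (c : Fin m → ZMod 3),
      Nat.card {u : (ZMod f)ˣ // Kl π w0 c (((u : ZMod f).val : ℕ) : ℤ)} * 3 ^ (m + 1) =
        f.totient) (P : ZMod 3 × (Fin m → ZMod 3) → Prop) :
    (Nat.card {u : (ZMod f)ˣ // P (clu f π u)} : ℝ) =
      Nat.card {x : ZMod 3 × (Fin m → ZMod 3) // P x} * ((f.totient : ℝ) / 3 ^ (m + 1)) := by
  classical
  have h1 := sum_clu π h (fun x => if P x then (1 : ℝ) else 0)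
  have h2 : ∑ u : (ZMod f)ˣ, (if P (clu f π u) then (1 : ℝ) else 0) =
      Nat.card {u : (ZMod f)ˣ // P (clu f π u)} := by
    rw [← Finset.sum_filter, Finset.sum_const, nsmul_eq_mul, mul_one, Nat.card_eq_fintype_card,
      Fintype.card_subtype]
  have h3 : ∑ x : ZMod 3 × (Fin m → ZMod 3), (if P x then (1 : ℝ) else 0) =
      Nat.card {x : ZMod 3 × (Fin m → ZMod 3) // P x} := by
    rw [← Finset.sum_filter, Finset.sum_const, nsmul_eq_mul, mul_one, Nat.card_eq_fintype_card,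
      Fintype.card_subtype]
  rw [← h2, ← h3]
  exact h1

section

variable {h n m k : ℕ} {π : Fin m → PP} {p e : Fin m → ℕ} {r f : Fin k → ℕ}

/-- the condition modulo `9` -/
theorem nu1_iff (hN : NF n π p e r f) (u : (ZMod (9 * (3 ^ h * n)))ˣ) :
    Nu1 (3 ^ h * n) u ↔ (h = 0 ∧ wt ((n : ℤ) ^ 2) + (clu (9 * (3 ^ h * n)) π u).1 = 0) := by
  have hcop : Nat.Coprime (u : ZMod (9 * (3 ^ h * n))).val (9 * (3 ^ h * n)) :=
    ZMod.val_coe_unit_coprime u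
  have hn3 : ¬ 3 ∣ n := EADM.three_not hN
  unfold Nu1
  rcases Nat.eq_zero_or_pos h with rfl | hpos
  · have hU3 : ¬ 3 ∣ (u : ZMod (9 * (3 ^ 0 * n))).val := by
      intro h3
      have h4 : 3 ∣ 9 * (3 ^ 0 * n) := (by norm_num : 3 ∣ 9).mul_right _
      have h5 := Nat.dvd_gcd h3 h4
      rw [hcop] at h5
      omega
    have e1 : (clu (9 * (3 ^ 0 * n)) π u).1 =
        wt ((((u : ZMod (9 * (3 ^ 0 * n))).val : ℕ) : ℤ) ^ 2) := rfl
    rw [e1]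
    generalize (u : ZMod (9 * (3 ^ 0 * n))).val = U at *
    have hnz : ¬ (3 : ℤ) ∣ (n : ℤ) := by
      intro h3
      exact hn3 (by exact_mod_cast h3)
    have hUz : ¬ (3 : ℤ) ∣ (U : ℤ) := by
      intro h3
      exact hU3 (by exact_mod_cast h3)
    have hA : ¬ (3 : ℤ) ∣ (n : ℤ) * U := by
      intro h3
      rcases Int.prime_three.dvd_or_dvd h3 with h4 | h4
      · exact hnz h4
      · exact hUz h4
    have h6 := FIN.cls_iff (a := 1) (A := (n : ℤ) * U) (Or.inl rfl) hA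
    have w1 : wt ((1 : ℤ) ^ 2) = 0 := by
      rw [FIN.wt_res (c := 1) 0 0 (by norm_num) (by norm_num)]
      decide
    rw [w1, mul_pow, wt_mul (sq_mod_three hnz) (sq_mod_three hUz)] at h6
    unfold PTL.Cls at h6
    have h7 : ((3 ^ 0 * n * U % 9 = 1) ∨ (3 ^ 0 * n * U % 9 = 8)) ↔
        ((n : ℤ) * U % 9 = 1 ∨ (n : ℤ) * U % 9 = 9 - 1) := by
      rw [pow_zero, one_mul]
      have h8 : (n : ℤ) * U = ((n * U : ℕ) : ℤ) := by push_cast; ring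
      rw [h8]
      omega
    rw [h7, h6]
    exact ⟨fun h9 => ⟨rfl, h9⟩, fun h9 => h9.2⟩
  · constructor
    · intro h1
      exfalso
      have h2 : 3 ∣ 3 ^ h * n * (u : ZMod (9 * (3 ^ h * n))).val :=
        ((dvd_pow_self 3 (by omega)).mul_right _).mul_right _
      omega
    · rintro ⟨h1, -⟩
      omega

/-- the relation between the dimensions -/
theorem dims (hNDIM : Stmt_NDIM) (hh : h ≤ 2) (w0 : ZMod 3) (c : Fin m → ZMod 3) :
    sN h n π p e r w0 c + (if h = 0 ∧ wt ((n : ℤ) ^ 2) + w0 = 0 then 1 else 0) =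
      vN h n π p e r w0 c + k + (if h = 1 then 1 else 0) := by
  have h3 := hNDIM h n m k π p e r w0 c
  unfold actR at h3
  have hcase : h = 0 ∨ h = 1 ∨ h = 2 := by omega
  rcases hcase with rfl | rfl | rfl
  · simp only [true_and, if_true, OfNat.zero_ne_ofNat, false_or] at h3
    rw [if_neg (by norm_num : ¬ (0 : ℕ) = 1)]
    by_cases hw : wt ((n : ℤ) ^ 2) + w0 = 0
    · rw [if_pos hw] at h3
      rw [if_pos ⟨rfl, hw⟩]
      exact h3
    · rw [if_neg hw] at h3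
      rw [if_neg fun h => hw h.2]
      exact h3
  · rw [if_neg (by norm_num), if_neg (by norm_num : ¬ (1 : ℕ) = 0)] at h3
    rw [if_neg fun h => absurd h.1 (by norm_num), if_pos rfl]
    exact h3
  · rw [if_pos (Or.inl rfl), if_neg (by norm_num : ¬ (2 : ℕ) = 0)] at h3
    rw [if_neg fun h => absurd h.1 (by norm_num), if_neg (by norm_num : ¬ (2 : ℕ) = 1)]
    omega

/-- the number `δ` -/
theorem delta_eq (hN : NF n π p e r f) (hh : h ≤ 2) :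
    (3 ∣ 3 ^ h * n ∧ ¬ 9 ∣ 3 ^ h * n) ↔ h = 1 := by
  have hn3 : ¬ 3 ∣ n := EADM.three_not hN
  have hcase : h = 0 ∨ h = 1 ∨ h = 2 := by omega
  rcases hcase with rfl | rfl | rfl
  · rw [pow_zero, one_mul]
    exact ⟨fun h1 => absurd h1.1 hn3, fun h1 => absurd h1 (by norm_num)⟩
  · rw [pow_one]
    refine ⟨fun _ => rfl, fun _ => ⟨dvd_mul_right _ _, fun h9 => hn3 ?_⟩⟩
    omega
  · refine ⟨fun h1 => absurd ?_ h1.2, fun h1 => absurd h1 (by norm_num)⟩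
    exact dvd_mul_right _ _

end

theorem no_sol' : ∀ A : ℤ, A ≠ 0 → CubeRank.GenBy A (CubeRank.rr A) → CubeRank.rr A < 1 →
    ¬ ∃ X Y : ℚ, X ^ 3 + Y ^ 3 = (A : ℚ) := by
  intro A hA h1 h2
  have h3 : CubeRank.rr A = 0 := by omega
  rw [h3] at h1
  exact DOM.no_sol hA h1

theorem le_one : ∀ A : ℤ, A ≠ 0 → CubeRank.GenBy A (CubeRank.rr A) → CubeRank.rr A < 2 →
    CubeRank.rr A ≤ 1 := by
  intro A _ _ h2
  omega

end MAINQ

open _root_.Pool.Agent.PTN.MAINQ in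
theorem MAINQ_thm (hNFE : Stmt_NFE) (hNDIM : Stmt_NDIM) (hNSUM : Stmt_NSUM) (hNZER : Stmt_NZER)
    (hNSU1 : Stmt_NSU1) (hNZE1 : Stmt_NZE1) (hNZE0 : Stmt_NZE0) (hCAB : Stmt_CAB)
    (hCBE : Stmt_CBE) (hLAW : Stmt_LAW) (hALLQ : Stmt_ALLQ) (hTRU : Stmt_TRU)
    (hTRC : Stmt_TRC) (hCLN : Stmt_CLN) (hCLU : Stmt_CLU) (hSUMA : Stmt_SUMA) :
    Stmt_MAINQ := by
  classical
  intro N hN0 hcf m k δ μ hm hk hδ hμ
  obtain ⟨h, n, m', k', π, p, e, r, f, hNF, hh, -, hNe, hm', hk'⟩ := hNFE N hN0 hcf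
  have em : m' = m := hm'.trans hm.symm
  have ek : k' = k := hk'.trans hk.symm
  subst em ek
  clear hm hk hm' hk'
  subst hNe
  have hδ' : δ = if h = 1 then 1 else 0 := by
    rw [hδ]
    by_cases h1 : h = 1
    · rw [if_pos ((delta_eq hNF hh).2 h1), if_pos h1]
    · rw [if_neg fun h2 => h1 ((delta_eq hNF hh).1 h2), if_neg h1]
  clear hδ
  subst hδ'
  have hμ' : μ = m' + (if h = 1 then 0 else 1) := by
    split_ifs at hμ ⊢ <;> omega
  have hf0 : 9 * (3 ^ h * n) ≠ 0 := by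
    have := hN0
    omega
  have : NeZero (9 * (3 ^ h * n)) := ⟨hf0⟩
  obtain ⟨hT1, hT2⟩ := hTRU h n m' k' π p e r f hNF
  have hcopq : ∀ q e' : ℕ, q.Prime → 9 * (3 ^ h * n) < q →
      IsCoprime ((q : ℤ) ^ e') ((9 * (3 ^ h * n) : ℕ) : ℤ) := by
    intro q e' hq hlt
    apply IsCoprime.pow_left
    rw [Nat.isCoprime_iff_coprime]
    exact (Nat.Prime.coprime_iff_not_dvd hq).2 fun hd =>
      absurd (Nat.le_of_dvd (Nat.pos_of_ne_zero hf0) hd) (by omega)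
  have hCK : ∀ u : (ZMod (9 * (3 ^ h * n)))ˣ, ∀ e' q : ℕ, (e' = 1 ∨ e' = 2) → q.Prime →
      9 * (3 ^ h * n) < q → Cu (3 ^ h * n) u ((q : ℤ) ^ e') →
      Kl π (clu (9 * (3 ^ h * n)) π u).1 (clu (9 * (3 ^ h * n)) π u).2 ((q : ℤ) ^ e') := by
    rintro u e' q - hq hlt ⟨x, hx⟩
    exact hT2 u _ _ _ x (kl_clu _ π u) (hcopq q e' hq hlt) hx
  have hKC : ∀ u : (ZMod (9 * (3 ^ h * n)))ˣ, ∀ e' q : ℕ, (e' = 1 ∨ e' = 2) → q.Prime →
      9 * (3 ^ h * n) < q →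
      Kl π (clu (9 * (3 ^ h * n)) π u).1 (clu (9 * (3 ^ h * n)) π u).2 ((q : ℤ) ^ e') →
      Cu (3 ^ h * n) u ((q : ℤ) ^ e') := by
    rintro u e' q - hq hlt hy
    exact hTRC h n m' k' π p e r f hNF u _ _ _ (kl_clu _ π u) hy (hcopq q e' hq hlt)
  have hφ : (0 : ℝ) ≤ ((9 * (3 ^ h * n)).totient : ℝ) := Nat.cast_nonneg _
  refine ⟨⟨fun u => vN h n π p e r (clu (9 * (3 ^ h * n)) π u).1 (clu (9 * (3 ^ h * n)) π u).2,
    fun u => sN h n π p e r (clu (9 * (3 ^ h * n)) π u).1 (clu (9 * (3 ^ h * n)) π u).2,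
    ?_, ?_, ?_, ?_, ?_, ?_⟩, ?_, ?_⟩
  · -- the relation of the dimensions
    intro u
    have h1 := dims (π := π) (p := p) (e := e) (r := r) (n := n) hNDIM hh
      (clu (9 * (3 ^ h * n)) π u).1 (clu (9 * (3 ^ h * n)) π u).2
    by_cases h2 : Nu1 (3 ^ h * n) u
    · rw [if_pos h2]
      rw [if_pos ((nu1_iff hNF u).1 h2)] at h1
      exact h1
    · rw [if_neg h2]
      rw [if_neg fun h3 => h2 ((nu1_iff hNF u).2 h3)] at h1
      exact h1
  · -- the average of `3 ^ v`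
    rw [finsum_eq_sum_of_fintype,
      sum_clu π hT1 (fun x => (3 : ℝ) ^ vN h n π p e r x.1 x.2)]
    have hS : ∑ x : ZMod 3 × (Fin m' → ZMod 3), (3 : ℝ) ^ vN h n π p e r x.1 x.2 ≤
        (5 / 3) ^ μ * 3 ^ (m' + 1) := by
      by_cases h1 : h = 1
      · subst h1
        have h2 := hNSU1 n m' k' π p e r f hNF
        have h3 : ∑ x : ZMod 3 × (Fin m' → ZMod 3), (3 : ℝ) ^ vN 1 n π p e r x.1 x.2 ≤
            3 * 5 ^ m' := by exact_mod_cast h2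
        rw [hμ', if_pos rfl, add_zero, div_pow, pow_succ]
        refine h3.trans (le_of_eq ?_)
        field_simp
      · have h2 := hNSUM h n m' k' π p e r f hNF
        have h3 : ∑ x : ZMod 3 × (Fin m' → ZMod 3), (3 : ℝ) ^ vN h n π p e r x.1 x.2 ≤
            5 ^ (m' + 1) := by exact_mod_cast h2
        rw [hμ', if_neg h1, div_pow]
        refine h3.trans (le_of_eq ?_)
        field_simp
    calc _ ≤ ((5 / 3) ^ μ * 3 ^ (m' + 1)) * (((9 * (3 ^ h * n)).totient : ℝ) / 3 ^ (m' + 1)) :=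
          mul_le_mul_of_nonneg_right hS (by positivity)
      _ = (5 / 3) ^ μ * (9 * (3 ^ h * n)).totient := by field_simp
  · -- the units with `v = 0`
    have hC := count π hT1 (fun x => vN h n π p e r x.1 x.2 = 0 ∧
      ¬ (h = 0 ∧ wt ((n : ℤ) ^ 2) + x.1 = 0))
    have e1 : Nat.card {u : (ZMod (9 * (3 ^ h * n)))ˣ //
        vN h n π p e r (clu (9 * (3 ^ h * n)) π u).1 (clu (9 * (3 ^ h * n)) π u).2 = 0 ∧
          ¬ Nu1 (3 ^ h * n) u} =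
        Nat.card {u : (ZMod (9 * (3 ^ h * n)))ˣ //
          vN h n π p e r (clu (9 * (3 ^ h * n)) π u).1 (clu (9 * (3 ^ h * n)) π u).2 = 0 ∧
            ¬ (h = 0 ∧ wt ((n : ℤ) ^ 2) + (clu (9 * (3 ^ h * n)) π u).1 = 0)} :=
      Nat.card_congr (Equiv.subtypeEquivRight fun u => by rw [nu1_iff hNF u])
    rw [e1, hC]
    have hS : (2 / 3 : ℝ) ^ μ * 3 ^ (m' + 1) ≤
        Nat.card {x : ZMod 3 × (Fin m' → ZMod 3) // vN h n π p e r x.1 x.2 = 0 ∧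
          ¬ (h = 0 ∧ wt ((n : ℤ) ^ 2) + x.1 = 0)} := by
      by_cases h1 : h = 1
      · subst h1
        have h2 := hNZE1 n m' k' π p e r f hNF
        have e2 : Nat.card {x : ZMod 3 × (Fin m' → ZMod 3) // vN 1 n π p e r x.1 x.2 = 0 ∧
            ¬ (1 = 0 ∧ wt ((n : ℤ) ^ 2) + x.1 = 0)} =
            Nat.card {x : ZMod 3 × (Fin m' → ZMod 3) // vN 1 n π p e r x.1 x.2 = 0} :=
          Nat.card_congr (Equiv.subtypeEquivRight fun x =>
            ⟨fun h3 => h3.1, fun h3 => ⟨h3, fun h4 => absurd h4.1 one_ne_zero⟩⟩)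
        rw [e2, hμ', if_pos rfl, add_zero, div_pow, pow_succ]
        have h3 : (3 : ℝ) * 2 ^ m' ≤
            Nat.card {x : ZMod 3 × (Fin m' → ZMod 3) // vN 1 n π p e r x.1 x.2 = 0} := by
          exact_mod_cast h2
        refine le_trans (le_of_eq ?_) h3
        field_simp
      · have h2 := hNZER h n m' k' π p e r f hNF
        have h3 : (2 : ℝ) ^ (m' + 1) ≤
            Nat.card {x : ZMod 3 × (Fin m' → ZMod 3) // vN h n π p e r x.1 x.2 = 0 ∧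
              ¬ (h = 0 ∧ wt ((n : ℤ) ^ 2) + x.1 = 0)} := by exact_mod_cast h2
        rw [hμ', if_neg h1, div_pow]
        refine le_trans (le_of_eq ?_) h3
        field_simp
    calc (2 / 3 : ℝ) ^ μ * (9 * (3 ^ h * n)).totient =
        ((2 / 3 : ℝ) ^ μ * 3 ^ (m' + 1)) * (((9 * (3 ^ h * n)).totient : ℝ) / 3 ^ (m' + 1)) := by
          field_simp
      _ ≤ _ := mul_le_mul_of_nonneg_right hS (by positivity)
  · -- the units with `v = 0`, `N u = ± 1`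
    rintro h3N ⟨l, hl, hlN, hl9⟩
    have hh0 : h = 0 := by
      by_contra h0
      exact h3N ((dvd_pow_self 3 h0).mul_right _)
    subst hh0
    have hj : ∃ j, wt ((r j : ℤ) ^ 2) ≠ 0 := by
      rw [pow_zero, one_mul] at hlN
      rcases EADM.prime_dvd hNF hl hlN with ⟨i, hi⟩ | ⟨j, hj⟩
      · have := hNF.p1 i
        omega
      · refine ⟨j, (FIN.p_wt (hNF.r2 j)).2 ?_⟩
        omega
    have h2 := hNZE0 n m' k' π p e r f hNF hj
    have hC := count π hT1 (fun x => vN 0 n π p e r x.1 x.2 = 0 ∧ wt ((n : ℤ) ^ 2) + x.1 = 0)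
    have e1 : Nat.card {u : (ZMod (9 * (3 ^ 0 * n)))ˣ //
        vN 0 n π p e r (clu (9 * (3 ^ 0 * n)) π u).1 (clu (9 * (3 ^ 0 * n)) π u).2 = 0 ∧
          Nu1 (3 ^ 0 * n) u} =
        Nat.card {u : (ZMod (9 * (3 ^ 0 * n)))ˣ //
          vN 0 n π p e r (clu (9 * (3 ^ 0 * n)) π u).1 (clu (9 * (3 ^ 0 * n)) π u).2 = 0 ∧
            wt ((n : ℤ) ^ 2) + (clu (9 * (3 ^ 0 * n)) π u).1 = 0} :=
      Nat.card_congr (Equiv.subtypeEquivRight fun u => by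
        rw [nu1_iff hNF u]
        exact ⟨fun h3 => ⟨h3.1, h3.2.2⟩, fun h3 => ⟨h3.1, rfl, h3.2⟩⟩)
    rw [e1, hC]
    have h3 : (2 : ℝ) ^ m' ≤
        Nat.card {x : ZMod 3 × (Fin m' → ZMod 3) // vN 0 n π p e r x.1 x.2 = 0 ∧
          wt ((n : ℤ) ^ 2) + x.1 = 0} := by exact_mod_cast h2
    calc 1 / 3 * (2 / 3 : ℝ) ^ m' * (9 * (3 ^ 0 * n)).totient =
        2 ^ m' * (((9 * (3 ^ 0 * n)).totient : ℝ) / 3 ^ (m' + 1)) := by
          rw [div_pow, pow_succ]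
          field_simp
      _ ≤ _ := mul_le_mul_of_nonneg_right h3 (by positivity)
  · -- averages
    intro u F hF h0
    have hnn : ∀ A : ℤ, 0 ≤ F (CubeRank.rr A) := fun A => h0.trans (hF (Nat.zero_le _))
    have h1 := hCAB h n m' k' π p e r f (clu (9 * (3 ^ h * n)) π u).1
      (clu (9 * (3 ^ h * n)) π u).2 hNF hh F hF h0
    exact ⟨above_of hnn (hCK u) h1.1, above_of hnn (hCK u) h1.2⟩
  · -- lower bounds in a class
    obtain ⟨-, -, hL3, hL4, hL5, hL6, -, -⟩ := hLAW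
    intro u hv
    have hv' : vN h n π p e r (clu (9 * (3 ^ h * n)) π u).1 (clu (9 * (3 ^ h * n)) π u).2 = 0 :=
      hv
    have hB := hCBE h n m' k' π p e r f (clu (9 * (3 ^ h * n)) π u).1
      (clu (9 * (3 ^ h * n)) π u).2 hNF hh
    rw [hv'] at hB
    have key : ∀ (a : ℕ) (R : ℤ → Prop) (x d : ℝ),
        BelowA ((3 ^ h * n : ℕ) : ℤ) a (Kl π (clu (9 * (3 ^ h * n)) π u).1
          (clu (9 * (3 ^ h * n)) π u).2) (fun A => tf (R A)) ((1 - x) / 3 ^ (m' + 1)) →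
        d ≤ 1 - x →
        BelowA ((3 ^ h * n : ℕ) : ℤ) a (Cu (3 ^ h * n) u) (fun A => tf (R A))
          (d / 3 ^ (m' + 1)) := by
      intro a R x d h1 h2
      refine below_of (fun A => tf_nn _) (hKC u) ?_
      exact (hSUMA _ a m' π _).2.2.2 _ _ _ (div_le_div_of_nonneg_right h2 (by positivity)) h1
    refine ⟨fun hs => ⟨?_, ?_⟩, fun hs => ⟨?_, ?_⟩⟩
    · have h2 := hL3 _ hs
      exact key 2 _ _ _ (hB 1 _ no_sol').1 (by rw [Nat.sub_zero]; linarith)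
    · have h2 := hL6 _ hs
      exact key 1 _ _ _ (hB 2 _ le_one).2 (by linarith)
    · have h2 := hL4 _ hs
      exact key 2 _ _ _ (hB 2 _ le_one).1 (by rw [Nat.sub_zero]; linarith)
    · have h2 := hL5 _ hs
      exact key 1 _ _ _ (hB 1 _ no_sol').2 (by linarith)
  · -- finite generation
    choose M1 hM1 using fun x : ZMod 3 × (Fin m' → ZMod 3) =>
      (hCLN h n m' k' π p e r f x.1 x.2 hNF hh).1
    choose M2 hM2 using fun x : ZMod 3 × (Fin m' → ZMod 3) =>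
      (hCLU h n m' k' π p e r f x.1 x.2 hNF hh).1
    refine ⟨3 + ∑ x, (M1 x + M2 x), fun q E hq hM hE => ?_⟩
    have hBB : ((3 ^ h * n : ℕ) : ℤ) * (q : ℤ) ^ E = BB h n E q := by
      unfold BB
      push_cast
      ring
    rw [hBB]
    let x : ZMod 3 × (Fin m' → ZMod 3) :=
      (wt (((q : ℤ) ^ E) ^ 2), fun i => (E : ZMod 3) * sym (π i).1 (q : Eis))
    have hcl : InCT E π x.1 x.2 q := ⟨rfl, fun _ => rfl⟩
    have hx : M1 x + M2 x ≤ ∑ x, (M1 x + M2 x) :=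
      Finset.single_le_sum (f := fun x => M1 x + M2 x) (fun _ _ => Nat.zero_le _)
        (Finset.mem_univ x)
    have hq3 : q % 3 = 1 ∨ q % 3 = 2 := by
      have h1 : ¬ 3 ∣ q := by
        intro h3
        have := (Nat.prime_dvd_prime_iff_eq Nat.prime_three hq).1 h3
        omega
      omega
    rcases hq3 with h1 | h2
    · exact CubeRank.gen_rr (hM2 x E q hE hq (by omega) h1 hcl)
    · exact CubeRank.gen_rr (hM1 x E q hE hq (by omega) h2 hcl)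
  · -- the averages over all `A`
    exact hALLQ h n m' k' π p e r f hNF hh μ hμ'

end Pool.Agent.PTN

end

section

/-!
# PTK_MAW: the full law of the ranks of prime twists, the theorem
-/

set_option autoImplicit false

open NumberField IsDedekindDomain Finset
open scoped nonZeroDivisors Pointwise

namespace Pool.Agent.PTK

open Pool.Agent.Lib_helper18 Pool.Agent.Lib_helper18.Eis Pool.Agent.Lib_helper84.Cub
open Pool.Agent.PT Pool.Agent.PTE Pool.Agent.PT3 Pool.Agent.PTL Pool.Agent.PTN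

namespace MAW

/-- the tails -/
theorem tail_le (hGMB : Stmt_GMB) (k : ℕ) :
    MoB k ^ 2 / 3 ^ (k * (2 * k + 1)) ≤ 64 / 25 / (3 : ℝ) ^ k ^ 2 := by
  have h1 := hGMB.2.2.2.2.2.2.2 k
  rw [div_le_div_iff₀ (by positivity) (by positivity)]
  have h2 : (3 : ℝ) ^ (k * (2 * k + 1)) = 3 ^ (k * (k + 1)) * 3 ^ k ^ 2 := by
    rw [← pow_add]
    congr 1
    ring
  rw [h2, ← mul_assoc]
  exact mul_le_mul_of_nonneg_right h1 (by positivity)

theorem le_one' : ∀ A : ℤ, A ≠ 0 → CubeRank.GenBy A (CubeRank.rr A) → CubeRank.rr A < 2 →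
    CubeRank.rr A ≤ 1 := by
  intro A _ _ h2
  omega

theorem le_two : ∀ A : ℤ, A ≠ 0 → CubeRank.GenBy A (CubeRank.rr A) → CubeRank.rr A < 3 →
    CubeRank.rr A ≤ 2 := by
  intro A _ _ h2
  omega

end MAW

open MAINQ in
/-- PTK_MAW -/
theorem MAW_thm (hFB : Stmt_FB) (hEKN : Stmt_EKN) (hAWF : Stmt_AWF) (hMTL : Stmt_MTL)
    (hGMB : Stmt_GMB) (hALV : Stmt_ALV) (hNFE : Stmt_NFE) (hNDIM : Stmt_NDIM)
    (hNSUM : Stmt_NSUM) (hNZER : Stmt_NZER) (hNSU1 : Stmt_NSU1) (hNZE1 : Stmt_NZE1)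
    (hNZE0 : Stmt_NZE0) (hALLQ : Stmt_ALLQ) (hTRU : Stmt_TRU) (hTRC : Stmt_TRC)
    (hCLN : Stmt_CLN) (hCLU : Stmt_CLU) (hSUMA : Stmt_SUMA) : Stmt_MAW := by
  classical
  intro N hN0 hcf m k δ μ hm hk hδ hμ
  obtain ⟨h, n, m', k', π, p, e, r, f, hNF, hh, -, hNe, hm', hk'⟩ := hNFE N hN0 hcf
  have em : m' = m := hm'.trans hm.symm
  have ek : k' = k := hk'.trans hk.symm
  subst em ek
  clear hm hk hm' hk'
  subst hNe
  have hδ' : δ = if h = 1 then 1 else 0 := by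
    rw [hδ]
    by_cases h1 : h = 1
    · rw [if_pos ((delta_eq hNF hh).2 h1), if_pos h1]
    · rw [if_neg fun h2 => h1 ((delta_eq hNF hh).1 h2), if_neg h1]
  clear hδ
  subst hδ'
  have hμ' : μ = m' + (if h = 1 then 0 else 1) := by
    split_ifs at hμ ⊢ <;> omega
  have hf0 : 9 * (3 ^ h * n) ≠ 0 := by
    have := hN0
    omega
  have : NeZero (9 * (3 ^ h * n)) := ⟨hf0⟩
  obtain ⟨hT1, hT2⟩ := hTRU h n m' k' π p e r f hNF
  have hcopq : ∀ q e' : ℕ, q.Prime → 9 * (3 ^ h * n) < q →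
      IsCoprime ((q : ℤ) ^ e') ((9 * (3 ^ h * n) : ℕ) : ℤ) := by
    intro q e' hq hlt
    apply IsCoprime.pow_left
    rw [Nat.isCoprime_iff_coprime]
    exact (Nat.Prime.coprime_iff_not_dvd hq).2 fun hd =>
      absurd (Nat.le_of_dvd (Nat.pos_of_ne_zero hf0) hd) (by omega)
  have hCK : ∀ u : (ZMod (9 * (3 ^ h * n)))ˣ, ∀ e' q : ℕ, (e' = 1 ∨ e' = 2) → q.Prime →
      9 * (3 ^ h * n) < q → Cu (3 ^ h * n) u ((q : ℤ) ^ e') →
      Kl π (clu (9 * (3 ^ h * n)) π u).1 (clu (9 * (3 ^ h * n)) π u).2 ((q : ℤ) ^ e') := by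
    rintro u e' q - hq hlt ⟨x, hx⟩
    exact hT2 u _ _ _ x (kl_clu _ π u) (hcopq q e' hq hlt) hx
  have hKC : ∀ u : (ZMod (9 * (3 ^ h * n)))ˣ, ∀ e' q : ℕ, (e' = 1 ∨ e' = 2) → q.Prime →
      9 * (3 ^ h * n) < q →
      Kl π (clu (9 * (3 ^ h * n)) π u).1 (clu (9 * (3 ^ h * n)) π u).2 ((q : ℤ) ^ e') →
      Cu (3 ^ h * n) u ((q : ℤ) ^ e') := by
    rintro u e' q - hq hlt hy
    exact hTRC h n m' k' π p e r f hNF u _ _ _ (kl_clu _ π u) hy (hcopq q e' hq hlt)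
  have hφ : (0 : ℝ) ≤ ((9 * (3 ^ h * n)).totient : ℝ) := Nat.cast_nonneg _
  have hFB2 : ∀ u : (ZMod (9 * (3 ^ h * n)))ˣ,
      (∀ F : ℕ → ℝ, Monotone F → 0 ≤ F 0 →
        AboveA ((3 ^ h * n : ℕ) : ℤ) 2 (Cu (3 ^ h * n) u) (fun A => F (CubeRank.rr A))
          (EsD (vN h n π p e r (clu (9 * (3 ^ h * n)) π u).1 (clu (9 * (3 ^ h * n)) π u).2)
            (sN h n π p e r (clu (9 * (3 ^ h * n)) π u).1 (clu (9 * (3 ^ h * n)) π u).2) F /
            3 ^ (m' + 1))) ∧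
      ∀ (t : ℕ) (R : ℤ → Prop),
        (∀ A : ℤ, A ≠ 0 → CubeRank.GenBy A (CubeRank.rr A) → CubeRank.rr A < t → R A) →
        BelowA ((3 ^ h * n : ℕ) : ℤ) 2 (Cu (3 ^ h * n) u) (fun A => tf (R A))
          (EsD (vN h n π p e r (clu (9 * (3 ^ h * n)) π u).1 (clu (9 * (3 ^ h * n)) π u).2)
            (sN h n π p e r (clu (9 * (3 ^ h * n)) π u).1 (clu (9 * (3 ^ h * n)) π u).2)
            (fun x => if x < t then 1 else 0) / 3 ^ (m' + 1)) := by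
    intro u
    obtain ⟨g1, g2⟩ := hFB h n m' k' π p e r f (clu (9 * (3 ^ h * n)) π u).1
      (clu (9 * (3 ^ h * n)) π u).2 hNF hh 2 (Or.inr rfl)
    rw [if_neg (by norm_num : ¬ (2 : ℕ) = 1), add_zero] at g1 g2
    refine ⟨fun F hF h0 => ?_, fun t R hR => ?_⟩
    · exact above_of (fun A => h0.trans (hF (Nat.zero_le _))) (hCK u) (g1 F hF h0)
    · exact below_of (fun A => tf_nn _) (hKC u) (g2 t R hR)
  have hFB1 : ∀ u : (ZMod (9 * (3 ^ h * n)))ˣ,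
      (∀ F : ℕ → ℝ, Monotone F → 0 ≤ F 0 →
        AboveA ((3 ^ h * n : ℕ) : ℤ) 1 (Cu (3 ^ h * n) u) (fun A => F (CubeRank.rr A))
          (EsD (vN h n π p e r (clu (9 * (3 ^ h * n)) π u).1 (clu (9 * (3 ^ h * n)) π u).2)
            (sN h n π p e r (clu (9 * (3 ^ h * n)) π u).1 (clu (9 * (3 ^ h * n)) π u).2 + 1) F /
            3 ^ (m' + 1))) ∧
      ∀ (t : ℕ) (R : ℤ → Prop),
        (∀ A : ℤ, A ≠ 0 → CubeRank.GenBy A (CubeRank.rr A) → CubeRank.rr A < t → R A) →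
        BelowA ((3 ^ h * n : ℕ) : ℤ) 1 (Cu (3 ^ h * n) u) (fun A => tf (R A))
          (EsD (vN h n π p e r (clu (9 * (3 ^ h * n)) π u).1 (clu (9 * (3 ^ h * n)) π u).2)
            (sN h n π p e r (clu (9 * (3 ^ h * n)) π u).1 (clu (9 * (3 ^ h * n)) π u).2 + 1)
            (fun x => if x < t then 1 else 0) / 3 ^ (m' + 1)) := by
    intro u
    obtain ⟨g1, g2⟩ := hFB h n m' k' π p e r f (clu (9 * (3 ^ h * n)) π u).1
      (clu (9 * (3 ^ h * n)) π u).2 hNF hh 1 (Or.inl rfl)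
    rw [if_pos rfl] at g1 g2
    refine ⟨fun F hF h0 => ?_, fun t R hR => ?_⟩
    · exact above_of (fun A => h0.trans (hF (Nat.zero_le _))) (hCK u) (g1 F hF h0)
    · exact below_of (fun A => tf_nn _) (hKC u) (g2 t R hR)
  refine ⟨⟨fun u => vN h n π p e r (clu (9 * (3 ^ h * n)) π u).1 (clu (9 * (3 ^ h * n)) π u).2,
    fun u => sN h n π p e r (clu (9 * (3 ^ h * n)) π u).1 (clu (9 * (3 ^ h * n)) π u).2,
    ?_, ?_, ?_, ?_, ?_, ?_, ?_, ?_⟩, ?_, ?_, ?_, ?_, ?_⟩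
  · -- the relation of the dimensions
    intro u
    have h1 := dims (π := π) (p := p) (e := e) (r := r) (n := n) hNDIM hh
      (clu (9 * (3 ^ h * n)) π u).1 (clu (9 * (3 ^ h * n)) π u).2
    by_cases h2 : Nu1 (3 ^ h * n) u
    · rw [if_pos h2]
      rw [if_pos ((nu1_iff hNF u).1 h2)] at h1
      exact h1
    · rw [if_neg h2]
      rw [if_neg fun h3 => h2 ((nu1_iff hNF u).2 h3)] at h1
      exact h1
  · -- the average of `3 ^ v`
    rw [finsum_eq_sum_of_fintype,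
      sum_clu π hT1 (fun x => (3 : ℝ) ^ vN h n π p e r x.1 x.2)]
    have hS : ∑ x : ZMod 3 × (Fin m' → ZMod 3), (3 : ℝ) ^ vN h n π p e r x.1 x.2 ≤
        (5 / 3) ^ μ * 3 ^ (m' + 1) := by
      by_cases h1 : h = 1
      · subst h1
        have h2 := hNSU1 n m' k' π p e r f hNF
        have h3 : ∑ x : ZMod 3 × (Fin m' → ZMod 3), (3 : ℝ) ^ vN 1 n π p e r x.1 x.2 ≤
            3 * 5 ^ m' := by exact_mod_cast h2
        rw [hμ', if_pos rfl, add_zero, div_pow, pow_succ]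
        refine h3.trans (le_of_eq ?_)
        field_simp
      · have h2 := hNSUM h n m' k' π p e r f hNF
        have h3 : ∑ x : ZMod 3 × (Fin m' → ZMod 3), (3 : ℝ) ^ vN h n π p e r x.1 x.2 ≤
            5 ^ (m' + 1) := by exact_mod_cast h2
        rw [hμ', if_neg h1, div_pow]
        refine h3.trans (le_of_eq ?_)
        field_simp
    calc _ ≤ ((5 / 3) ^ μ * 3 ^ (m' + 1)) * (((9 * (3 ^ h * n)).totient : ℝ) / 3 ^ (m' + 1)) :=
          mul_le_mul_of_nonneg_right hS (by positivity)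
      _ = (5 / 3) ^ μ * (9 * (3 ^ h * n)).totient := by field_simp
  · -- the units with `v = 0`
    have hC := count π hT1 (fun x => vN h n π p e r x.1 x.2 = 0 ∧
      ¬ (h = 0 ∧ wt ((n : ℤ) ^ 2) + x.1 = 0))
    have e1 : Nat.card {u : (ZMod (9 * (3 ^ h * n)))ˣ //
        vN h n π p e r (clu (9 * (3 ^ h * n)) π u).1 (clu (9 * (3 ^ h * n)) π u).2 = 0 ∧
          ¬ Nu1 (3 ^ h * n) u} =
        Nat.card {u : (ZMod (9 * (3 ^ h * n)))ˣ //
          vN h n π p e r (clu (9 * (3 ^ h * n)) π u).1 (clu (9 * (3 ^ h * n)) π u).2 = 0 ∧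
            ¬ (h = 0 ∧ wt ((n : ℤ) ^ 2) + (clu (9 * (3 ^ h * n)) π u).1 = 0)} :=
      Nat.card_congr (Equiv.subtypeEquivRight fun u => by rw [nu1_iff hNF u])
    rw [e1, hC]
    have hS : (2 / 3 : ℝ) ^ μ * 3 ^ (m' + 1) ≤
        Nat.card {x : ZMod 3 × (Fin m' → ZMod 3) // vN h n π p e r x.1 x.2 = 0 ∧
          ¬ (h = 0 ∧ wt ((n : ℤ) ^ 2) + x.1 = 0)} := by
      by_cases h1 : h = 1
      · subst h1
        have h2 := hNZE1 n m' k' π p e r f hNF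
        have e2 : Nat.card {x : ZMod 3 × (Fin m' → ZMod 3) // vN 1 n π p e r x.1 x.2 = 0 ∧
            ¬ (1 = 0 ∧ wt ((n : ℤ) ^ 2) + x.1 = 0)} =
            Nat.card {x : ZMod 3 × (Fin m' → ZMod 3) // vN 1 n π p e r x.1 x.2 = 0} :=
          Nat.card_congr (Equiv.subtypeEquivRight fun x =>
            ⟨fun h3 => h3.1, fun h3 => ⟨h3, fun h4 => absurd h4.1 one_ne_zero⟩⟩)
        rw [e2, hμ', if_pos rfl, add_zero, div_pow, pow_succ]
        have h3 : (3 : ℝ) * 2 ^ m' ≤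
            Nat.card {x : ZMod 3 × (Fin m' → ZMod 3) // vN 1 n π p e r x.1 x.2 = 0} := by
          exact_mod_cast h2
        refine le_trans (le_of_eq ?_) h3
        field_simp
      · have h2 := hNZER h n m' k' π p e r f hNF
        have h3 : (2 : ℝ) ^ (m' + 1) ≤
            Nat.card {x : ZMod 3 × (Fin m' → ZMod 3) // vN h n π p e r x.1 x.2 = 0 ∧
              ¬ (h = 0 ∧ wt ((n : ℤ) ^ 2) + x.1 = 0)} := by exact_mod_cast h2
        rw [hμ', if_neg h1, div_pow]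
        refine le_trans (le_of_eq ?_) h3
        field_simp
    calc (2 / 3 : ℝ) ^ μ * (9 * (3 ^ h * n)).totient =
        ((2 / 3 : ℝ) ^ μ * 3 ^ (m' + 1)) * (((9 * (3 ^ h * n)).totient : ℝ) / 3 ^ (m' + 1)) := by
          field_simp
      _ ≤ _ := mul_le_mul_of_nonneg_right hS (by positivity)
  · -- the units with `v = 0`, `N u = ± 1`
    rintro h3N ⟨l, hl, hlN, hl9⟩
    have hh0 : h = 0 := by
      by_contra h0
      exact h3N ((dvd_pow_self 3 h0).mul_right _)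
    subst hh0
    have hj : ∃ j, wt ((r j : ℤ) ^ 2) ≠ 0 := by
      rw [pow_zero, one_mul] at hlN
      rcases EADM.prime_dvd hNF hl hlN with ⟨i, hi⟩ | ⟨j, hj⟩
      · have := hNF.p1 i
        omega
      · refine ⟨j, (FIN.p_wt (hNF.r2 j)).2 ?_⟩
        omega
    have h2 := hNZE0 n m' k' π p e r f hNF hj
    have hC := count π hT1 (fun x => vN 0 n π p e r x.1 x.2 = 0 ∧ wt ((n : ℤ) ^ 2) + x.1 = 0)
    have e1 : Nat.card {u : (ZMod (9 * (3 ^ 0 * n)))ˣ //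
        vN 0 n π p e r (clu (9 * (3 ^ 0 * n)) π u).1 (clu (9 * (3 ^ 0 * n)) π u).2 = 0 ∧
          Nu1 (3 ^ 0 * n) u} =
        Nat.card {u : (ZMod (9 * (3 ^ 0 * n)))ˣ //
          vN 0 n π p e r (clu (9 * (3 ^ 0 * n)) π u).1 (clu (9 * (3 ^ 0 * n)) π u).2 = 0 ∧
            wt ((n : ℤ) ^ 2) + (clu (9 * (3 ^ 0 * n)) π u).1 = 0} :=
      Nat.card_congr (Equiv.subtypeEquivRight fun u => by
        rw [nu1_iff hNF u]
        exact ⟨fun h3 => ⟨h3.1, h3.2.2⟩, fun h3 => ⟨h3.1, rfl, h3.2⟩⟩)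
    rw [e1, hC]
    have h3 : (2 : ℝ) ^ m' ≤
        Nat.card {x : ZMod 3 × (Fin m' → ZMod 3) // vN 0 n π p e r x.1 x.2 = 0 ∧
          wt ((n : ℤ) ^ 2) + x.1 = 0} := by exact_mod_cast h2
    calc 1 / 3 * (2 / 3 : ℝ) ^ m' * (9 * (3 ^ 0 * n)).totient =
        2 ^ m' * (((9 * (3 ^ 0 * n)).totient : ℝ) / 3 ^ (m' + 1)) := by
          rw [div_pow, pow_succ]
          field_simp
      _ ≤ _ := mul_le_mul_of_nonneg_right h3 (by positivity)
  · -- averages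
    intro u F hF h0
    exact ⟨(hFB2 u).1 F hF h0, (hFB1 u).1 F hF h0⟩
  · -- lower bounds for the ranks in a class
    intro u t
    exact ⟨(hFB2 u).2 t _ fun A _ _ h1 => h1, (hFB1 u).2 t _ fun A _ _ h1 => h1⟩
  · -- no solution
    intro u
    exact ⟨(hFB2 u).2 1 _ no_sol', (hFB1 u).2 1 _ no_sol'⟩
  · -- the numbers
    obtain ⟨-, -, e3, -, e5, e6, -, e8, e9, -⟩ := hEKN
    intro u
    have key : ∀ (a : ℕ) (R : ℤ → Prop) (x d : ℝ),
        BelowA ((3 ^ h * n : ℕ) : ℤ) a (Cu (3 ^ h * n) u) (fun A => tf (R A))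
          (x / 3 ^ (m' + 1)) → d ≤ x →
        BelowA ((3 ^ h * n : ℕ) : ℤ) a (Cu (3 ^ h * n) u) (fun A => tf (R A))
          (d / 3 ^ (m' + 1)) := fun a R x d h1 h2 =>
      (hSUMA _ a m' π _).2.2.2 _ _ _ (div_le_div_of_nonneg_right h2 (by positivity)) h1
    refine ⟨fun ho => ⟨?_, ?_⟩, fun he => ⟨?_, ?_⟩, fun hv hs => ?_, fun hv hs => ?_,
      fun hv hs => ⟨?_, ?_⟩, fun hv hs => ⟨?_, ?_⟩⟩
    · exact key 2 _ _ _ ((hFB2 u).2 2 _ MAW.le_one') (e3 _ _ ho)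
    · exact key 1 _ _ _ ((hFB1 u).2 3 _ MAW.le_two) (e5 _ _ ho.add_one)
    · exact key 2 _ _ _ ((hFB2 u).2 3 _ MAW.le_two) (e5 _ _ he)
    · exact key 1 _ _ _ ((hFB1 u).2 2 _ MAW.le_one') (e3 _ _ he.add_one)
    · exact key 2 _ _ _ ((hFB2 u).2 1 _ no_sol') (e6 _ _ hv hs)
    · exact key 1 _ _ _ ((hFB1 u).2 1 _ no_sol') (e6 _ _ hv hs.add_one)
    · have h2 := (hFB2 u).2 1 _ no_sol'
      have hv' : vN h n π p e r (clu (9 * (3 ^ h * n)) π u).1 (clu (9 * (3 ^ h * n)) π u).2 = 0 :=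
        hv
      rw [hv'] at h2
      exact key 2 _ _ _ h2 (e8 _ hs)
    · have h2 := (hFB1 u).2 2 _ MAW.le_one'
      have hv' : vN h n π p e r (clu (9 * (3 ^ h * n)) π u).1 (clu (9 * (3 ^ h * n)) π u).2 = 0 :=
        hv
      rw [hv'] at h2
      exact key 1 _ _ _ h2 (e9 _ hs.add_one)
    · have h2 := (hFB2 u).2 2 _ MAW.le_one'
      have hv' : vN h n π p e r (clu (9 * (3 ^ h * n)) π u).1 (clu (9 * (3 ^ h * n)) π u).2 = 0 :=
        hv
      rw [hv'] at h2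
      exact key 2 _ _ _ h2 (e9 _ hs)
    · have h2 := (hFB1 u).2 1 _ no_sol'
      have hv' : vN h n π p e r (clu (9 * (3 ^ h * n)) π u).1 (clu (9 * (3 ^ h * n)) π u).2 = 0 :=
        hv
      rw [hv'] at h2
      exact key 1 _ _ _ h2 (e8 _ hs.add_one)
  · -- finite generation
    choose M1 hM1 using fun x : ZMod 3 × (Fin m' → ZMod 3) =>
      (hCLN h n m' k' π p e r f x.1 x.2 hNF hh).1
    choose M2 hM2 using fun x : ZMod 3 × (Fin m' → ZMod 3) =>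
      (hCLU h n m' k' π p e r f x.1 x.2 hNF hh).1
    refine ⟨3 + ∑ x, (M1 x + M2 x), fun q E hq hM hE => ?_⟩
    have hBB : ((3 ^ h * n : ℕ) : ℤ) * (q : ℤ) ^ E = BB h n E q := by
      unfold BB
      push_cast
      ring
    rw [hBB]
    let x : ZMod 3 × (Fin m' → ZMod 3) :=
      (wt (((q : ℤ) ^ E) ^ 2), fun i => (E : ZMod 3) * sym (π i).1 (q : Eis))
    have hcl : InCT E π x.1 x.2 q := ⟨rfl, fun _ => rfl⟩
    have hx : M1 x + M2 x ≤ ∑ x, (M1 x + M2 x) :=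
      Finset.single_le_sum (f := fun x => M1 x + M2 x) (fun _ _ => Nat.zero_le _)
        (Finset.mem_univ x)
    have hq3 : q % 3 = 1 ∨ q % 3 = 2 := by
      have h1 : ¬ 3 ∣ q := by
        intro h3
        have := (Nat.prime_dvd_prime_iff_eq Nat.prime_three hq).1 h3
        omega
      omega
    rcases hq3 with h1 | h2
    · exact CubeRank.gen_rr (hM2 x E q hE hq (by omega) h1 hcl)
    · exact CubeRank.gen_rr (hM1 x E q hE hq (by omega) h2 hcl)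
  · -- the averages over all `A`: the rank, the moments and the tails
    intro a ha
    obtain ⟨a1, a2, a3⟩ := (hAWF h n m' k' π p e r f hNF hh).1 a ha
    refine ⟨a1, a2, fun k₀ => ?_, a3⟩
    exact (hSUMA _ a m' π _).2.2.1 _ _ _ (MAW.tail_le hGMB k₀)
      (hMTL _ _ _ k₀ (2 * k₀ + 1) _ (a2 k₀))
  · exact (hAWF h n m' k' π p e r f hNF hh).2.1
  · exact (hAWF h n m' k' π p e r f hNF hh).2.2
  · -- the averages over all `A`
    obtain ⟨a1, -, a3, a4⟩ := hALLQ h n m' k' π p e r f hNF hh μ hμ'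
    obtain ⟨b1, b2, b3⟩ := hALV h n m' k' π p e r f hNF hh μ hμ'
    exact ⟨a1, b1, fun hk => ⟨(a3 hk).1, b2 hk⟩, fun hk => ⟨(a4 hk).1, b3 hk⟩⟩

end Pool.Agent.PTK

end
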