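import Mathlib
import Pool.Agent.PTWX.C40
import Pool.Agent.PTWX.C47
import Pool.Agent.PTWX.C51
import Pool.Agent.PTWX.C54
import Pool.Agent.PTWX.C57

/-! Parts: PTN.CLT, PTN.CLU, PTN.EQX, PTN.SUMA, PTN.DLL, PTKX.ZA, PTKX.GMB, PTKX.IF2, PTKX.LKN -/

namespace Pool.Agent.PTN.CLT
end Pool.Agent.PTN.CLT

namespace Pool.Agent.PTN.CLU
end Pool.Agent.PTN.CLU

namespace Pool.Agent.PTN.DLL
end Pool.Agent.PTN.DLL

namespace Pool.Agent.PTK.GMB
end Pool.Agent.PTK.GMB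

namespace Pool.Agent.PTK.IF2
end Pool.Agent.PTK.IF2

namespace Pool.Agent.PTK.LKN
end Pool.Agent.PTK.LKN

section

/-!
# CLT: the number of the primes in a class, both exponents together
-/

set_option autoImplicit false

open NumberField IsDedekindDomain Finset
open scoped nonZeroDivisors Pointwise

namespace Pool.Agent.PTN

open Pool.Agent.Lib_helper18 Pool.Agent.Lib_helper18.Eis Pool.Agent.Lib_helper84.Cub
open Pool.Agent.PT Pool.Agent.PTE Pool.Agent.PT3 Pool.Agent.PTL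

namespace CLT

open BDENS

/-- the primes of finitely many residue classes -/
theorem two_sided (hDIR : DIR) {f : ℕ} (hf : 0 < f) (V : Finset (ZMod f)ˣ) (S : Set ℕ)
    (h : ∀ (n : ℕ) (hn : n.Coprime f), n.Prime → (n ∈ S ↔ ZMod.unitOfCoprime n hn ∈ V)) :
    ∃ K : ℝ, ∀ σ : ℝ, 1 < σ → σ ≤ 2 →
      (V.card : ℝ) / f.totient * Real.log (1 / (σ - 1)) - K ≤ sm S σ ∧
      sm S σ ≤ (V.card : ℝ) / f.totient * Real.log (1 / (σ - 1)) + K := by
  classical
  have : NeZero f := ⟨hf.ne'⟩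
  have hcop : ∀ n : ℕ, n.Prime → n ∉ f.divisors → n.Coprime f := by
    intro n hn hd
    rw [Nat.Prime.coprime_iff_not_dvd hn]
    intro hd'
    exact hd (Nat.mem_divisors.mpr ⟨hd', hf.ne'⟩)
  obtain ⟨C0, hC0⟩ := DL.total
  obtain ⟨K1, hK1⟩ := DIRS.upper hDIR hf V f.divisors S (by
    intro q hq hp hd
    have hc := hcop q hp hd
    exact ⟨ZMod.unitOfCoprime q hc, (h q hc hp).1 hq, (ZMod.coe_unitOfCoprime q hc).symm⟩)
  obtain ⟨K2, hK2⟩ := DIRS.upper hDIR hf Vᶜ f.divisors Sᶜ (by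
    intro q hq hp hd
    have hc := hcop q hp hd
    refine ⟨ZMod.unitOfCoprime q hc, ?_, (ZMod.coe_unitOfCoprime q hc).symm⟩
    rw [Finset.mem_compl]
    exact fun h' => hq ((h q hc hp).2 h'))
  refine ⟨max (C0 + K2) K1, fun σ h1 h2 => ?_⟩
  have e0 := hC0 σ h1 h2
  have e1 : sm S σ ≤ (V.card : ℝ) / f.totient * Real.log (1 / (σ - 1)) + K1 := hK1 σ h1 h2
  have e2 : sm Sᶜ σ ≤ (Vᶜ.card : ℝ) / f.totient * Real.log (1 / (σ - 1)) + K2 := hK2 σ h1 h2
  have e3 := BD.sm_union_inter S Sᶜ h1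
  rw [Set.union_compl_self, Set.inter_compl_self] at e3
  have e4 := DL.sm_nonneg ∅ σ
  have e5 : (Vᶜ.card : ℝ) / f.totient = 1 - (V.card : ℝ) / f.totient := by
    have hφ : (0 : ℝ) < f.totient := by exact_mod_cast Nat.totient_pos.mpr hf
    have h3 : V.card + Vᶜ.card = f.totient := by
      rw [Finset.card_add_card_compl, ZMod.card_units_eq_totient]
    have h4 : (V.card : ℝ) + Vᶜ.card = f.totient := by exact_mod_cast h3
    rw [eq_sub_iff_add_eq, ← add_div, add_comm, h4, div_self hφ.ne']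
  rw [e5, sub_mul, one_mul] at e2
  have m1 := le_max_left (C0 + K2) K1
  have m2 := le_max_right (C0 + K2) K1
  constructor
  · linarith
  · linarith

theorem wt_four {q : ℤ} (hq : ¬ (3 : ℤ) ∣ q) : wt ((q ^ 2) ^ 2) = 2 * wt (q ^ 2) := by
  have h := wt_mul (sq_mod_three hq) (sq_mod_three hq)
  rw [sq (q ^ 2), h]
  ring

theorem two_iff : ∀ x y : ZMod 3, 2 * x = y ↔ x = -y := by decide

end CLT

open _root_.Pool.Agent.PTN.CLT in
theorem CLT_thm (hDIR : DIR) (hCLSC : CLSC) (hCLSCS : CLSCS) : Stmt_CLT := by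
  classical
  intro m π p hp hp3 hpπ hinj w0 c a ha
  set f : ℕ := 9 * ∏ i, p i with hfdef
  have hf : 0 < f := Nat.mul_pos (by norm_num) (Finset.prod_pos fun i _ => (hp i).pos)
  have h9 : 9 ∣ f := Dvd.intro _ rfl
  have hpf : ∀ i, p i ∣ f := fun i => Dvd.dvd.mul_left (Finset.dvd_prod_of_mem _ (mem_univ i)) 9
  have : NeZero f := ⟨hf.ne'⟩
  have h3f : 3 ∣ f := dvd_trans (by norm_num) h9
  obtain ⟨κ, hκ, hM2⟩ := hCLSC m π p hp hp3 hpπ hinj f hf h9 hpf
  have hM1 := hCLSCS f m κ hf h9 hM2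
  have hcard : ∀ d : Fin (m + 1) → ZMod 3,
      Nat.card {u : (ZMod f)ˣ // (u : ZMod f).val % 3 = a ∧ (κ u).toAdd = d} *
        (2 * 3 ^ (m + 1)) = f.totient := by
    intro d
    rcases ha with rfl | rfl
    · exact hM1 d
    · exact hM2 d
  have hφ : 0 < f.totient := Nat.totient_pos.mpr hf
  have hV : ∀ d : Fin (m + 1) → ZMod 3,
      (((univ.filter (fun u : (ZMod f)ˣ => (u : ZMod f).val % 3 = a ∧
        (κ u).toAdd = d)).card : ℕ) : ℝ) / f.totient = 1 / (2 * 3 ^ (m + 1)) := by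
    intro d
    have h1 := hcard d
    rw [Nat.card_eq_fintype_card, Fintype.card_subtype] at h1
    rw [div_eq_div_iff (by exact_mod_cast hφ.ne') (by positivity), one_mul]
    exact_mod_cast h1
  have hmod : ∀ (n : ℕ) (hn : n.Coprime f),
      ((ZMod.unitOfCoprime n hn : (ZMod f)ˣ) : ZMod f).val % 3 = n % 3 := by
    intro n hn
    rw [ZMod.coe_unitOfCoprime, ZMod.val_natCast, Nat.mod_mod_of_dvd _ h3f]
  have hn3 : ∀ (n : ℕ), n.Coprime f → ¬ (3 : ℤ) ∣ (n : ℤ) := by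
    intro n hn hd
    have h1 : 3 ∣ n := by exact_mod_cast hd
    have h2 : 3 ∣ n.gcd f := Nat.dvd_gcd h1 h3f
    rw [hn] at h2
    omega
  obtain ⟨K1, hK1⟩ := two_sided hDIR hf
    (univ.filter (fun u : (ZMod f)ˣ => (u : ZMod f).val % 3 = a ∧
      (κ u).toAdd = (Fin.cons w0 c : Fin (m + 1) → ZMod 3)))
    {q : ℕ | q % 3 = a ∧ InCT 1 π w0 c q} (by
      intro n hn _
      rw [Finset.mem_filter, hmod, hκ, Set.mem_ofPred_eq, InCT, pow_one, Nat.cast_one]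
      simp only [mem_univ, true_and, one_mul]
      refine and_congr_right fun _ => ?_
      rw [Fin.cons_inj, funext_iff])
  obtain ⟨K2, hK2⟩ := two_sided hDIR hf
    (univ.filter (fun u : (ZMod f)ˣ => (u : ZMod f).val % 3 = a ∧
      (κ u).toAdd = (Fin.cons (-w0) (-c) : Fin (m + 1) → ZMod 3)))
    {q : ℕ | q % 3 = a ∧ InCT 2 π w0 c q} (by
      intro n hn _
      rw [Finset.mem_filter, hmod, hκ, Set.mem_ofPred_eq, InCT, wt_four (hn3 n hn)]
      simp only [mem_univ, true_and, Nat.cast_ofNat, two_iff]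
      refine and_congr_right fun _ => ?_
      rw [Fin.cons_inj, funext_iff]
      rfl)
  refine ⟨K1 + K2, fun σ h1 h2 => ?_⟩
  obtain ⟨a1, a2⟩ := hK1 σ h1 h2
  obtain ⟨b1, b2⟩ := hK2 σ h1 h2
  rw [hV] at a1 a2 b1 b2
  have e : (1 : ℝ) / 3 ^ (m + 1) * Real.log (1 / (σ - 1)) =
      1 / (2 * 3 ^ (m + 1)) * Real.log (1 / (σ - 1)) +
        1 / (2 * 3 ^ (m + 1)) * Real.log (1 / (σ - 1)) := by
    field_simp
    ring
  rw [e]
  constructor
  · linarith
  · linarith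

end Pool.Agent.PTN

end

section

/-!
# The distribution of the rank in a class, `q = 1 (mod 3)`
-/

set_option autoImplicit false

open NumberField IsDedekindDomain Finset
open scoped nonZeroDivisors Pointwise

namespace Pool.Agent.PTN

open Pool.Agent.Lib_helper18 Pool.Agent.Lib_helper18.Eis Pool.Agent.Lib_helper84.Cub
open Pool.Agent.PT Pool.Agent.PTE Pool.Agent.PT3 Pool.Agent.PTL

namespace CLU

open BDENS

theorem sm_nonneg (S : Set ℕ) (σ : ℝ) : 0 ≤ sm S σ := by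
  rw [sm_eq]
  exact tsum_nonneg fun n => ind_nonneg S σ n

theorem sm_empty (σ : ℝ) : sm ∅ σ = 0 := by
  rw [sm_eq, tsum_congr fun n => ind_not (S := ∅) (σ := σ) (n := n) fun h => h.2, tsum_zero]

theorem sm_le (S T : Set ℕ) (M : ℕ) (h : ∀ n, n.Prime → M < n → n ∈ S → n ∈ T) :
    ∃ K : ℝ, ∀ σ : ℝ, 1 < σ → sm S σ ≤ sm T σ + K := by
  refine ⟨2 * ((Finset.range (M + 1)).card : ℝ), fun σ hσ => ?_⟩
  have h1 := sm_add_le S ∅ T (Finset.range (M + 1)) (fun n hn hA hS => ⟨h n hn (by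
    rw [Finset.mem_range, not_lt] at hA
    omega) hS, fun h => h⟩) (fun n _ _ h => absurd h (Set.notMem_empty n)) hσ
  have h2 := sm_nonneg ∅ σ
  linarith

theorem sm_small (S : Set ℕ) (M : ℕ) (h : ∀ n, n.Prime → M < n → n ∉ S) :
    ∃ K : ℝ, ∀ σ : ℝ, 1 < σ → sm S σ ≤ K := by
  obtain ⟨K, hK⟩ := sm_le S ∅ M fun n h1 h2 h3 => absurd h3 (h n h1 h2)
  refine ⟨K, fun σ hσ => ?_⟩
  have h1 := hK σ hσ
  rw [sm_empty] at h1
  linarith

theorem z3_cases : ∀ ε : ZMod 3, ε ≠ 0 → ε = 1 ∨ ε = -1 := by decide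

theorem z3_neg : ∀ y : ZMod 3, y = -y → y = 0 := by decide

theorem ne_neg {d : ℕ} {x : Fin d → ZMod 3} (hx : x ≠ 0) : x ≠ -x := by
  intro h
  apply hx
  funext i
  exact z3_neg _ (congrFun h i)

/-- the patterns of a large prime -/
theorem pat_iff (hSPLT : SPLT) {d : ℕ} (v : Fin d → ℤ) {q : ℕ} (hq : q.Prime) (h1 : q % 3 = 1)
    (hv : ∀ i, ¬ (q : ℤ) ∣ v i) {ρ : PP} (hρ : (q : Eis) = ρ.1 * conj ρ.1)
    (δ : Fin d → ZMod 3) :
    q ∈ Pat v δ ↔ δ = (fun i => sym ρ.1 (v i : Eis)) ∨ δ = -(fun i => sym ρ.1 (v i : Eis)) := by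
  obtain ⟨-, -, hσ, hdvd, hsym, -⟩ := hSPLT.2 q ρ hq h1 hρ
  have hs : ∀ i, sym (conj ρ.1) (v i : Eis) = - sym ρ.1 (v i : Eis) := by
    intro i
    have h2 := hsym (v i : Eis) fun h => hv i ((hdvd _).1 h)
    rwa [conj_intCast] at h2
  constructor
  · rintro ⟨ρ', hρ', ε, hε, h⟩
    have key : ∀ ε' : ZMod 3, ε' ≠ 0 → (∀ i, sym ρ.1 (v i : Eis) = ε' * δ i) →
        δ = (fun i => sym ρ.1 (v i : Eis)) ∨ δ = -(fun i => sym ρ.1 (v i : Eis)) := by
      intro ε' hε' h'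
      rcases z3_cases ε' hε' with rfl | rfl
      · left
        funext i
        rw [h' i, one_mul]
      · right
        funext i
        rw [Pi.neg_apply, h' i]
        ring
    rcases hσ ρ' (Dvd.intro _ hρ'.symm) with h2 | h2
    · rw [h2] at h
      exact key ε hε h
    · rw [h2] at h
      refine key (-ε) (neg_ne_zero.2 hε) fun i => ?_
      have h3 := h i
      rw [hs i] at h3
      rw [neg_mul, ← h3, neg_neg]
  · rintro (rfl | rfl)
    · exact ⟨ρ, hρ, 1, one_ne_zero, fun i => (one_mul _).symm⟩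
    · refine ⟨ρ, hρ, -1, by decide, fun i => ?_⟩
      rw [Pi.neg_apply]
      ring

/-- counting with the patterns -/
theorem comb (hSMT : Stmt_SMT) {d : ℕ} (M : ℕ) (W : Set ℕ) (P : (Fin d → ZMod 3) → Set ℕ)
    (x : ℕ → Fin d → ZMod 3)
    (hP : ∀ n, n.Prime → M < n → n ∈ W → ∀ δ, n ∈ P δ ↔ δ = x n ∨ δ = - x n) :
    (∃ K : ℝ, ∀ σ : ℝ, 1 < σ → σ ≤ 2 → 2 * sm (W \ P 0) σ ≤
      ∑ i : {δ : Fin d → ZMod 3 // δ ≠ 0}, sm (W ∩ P i.1) σ + K) ∧
    ∃ K : ℝ, ∀ σ : ℝ, 1 < σ → σ ≤ 2 →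
      ∑ i : {δ : Fin d → ZMod 3 // δ ≠ 0}, sm (W ∩ P i.1) σ ≤ 2 * sm (W \ P 0) σ + K := by
  classical
  have hx0 : ∀ n, n.Prime → M < n → n ∈ W → (n ∉ P 0 ↔ x n ≠ 0) := by
    intro n hn hM hW
    rw [hP n hn hM hW, not_iff_not]
    constructor
    · rintro (h | h)
      · exact h.symm
      · exact (neg_eq_zero.1 h.symm)
    · intro h
      exact Or.inl h.symm
  obtain ⟨h1, h2, -⟩ := hSMT {δ : Fin d → ZMod 3 // δ ≠ 0} (W \ P 0) ∅ ∅
    (fun i => W ∩ P i.1) M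
  refine ⟨h1 ?_, ?_⟩
  · intro n hn hM hS
    have hx := (hx0 n hn hM hS.1).1 hS.2
    refine ⟨⟨x n, hx⟩, ⟨-x n, neg_ne_zero.2 hx⟩, ?_, ⟨hS.1, ?_⟩, ⟨hS.1, ?_⟩⟩
    · intro h
      exact ne_neg hx (congrArg Subtype.val h)
    · exact (hP n hn hM hS.1 _).2 (Or.inl rfl)
    · exact (hP n hn hM hS.1 _).2 (Or.inr rfl)
  · rcases isEmpty_or_nonempty {δ : Fin d → ZMod 3 // δ ≠ 0} with hE | ⟨⟨i0⟩⟩
    · refine ⟨0, fun σ _ _ => ?_⟩
      rw [Finset.sum_of_isEmpty]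
      have := sm_nonneg (W \ P 0) σ
      linarith
    · apply h2
      · rintro n hn hM i ⟨hW, hi⟩
        refine ⟨hW, ?_⟩
        rw [hx0 n hn hM hW]
        rcases (hP n hn hM hW _).1 hi with h | h
        · rw [← h]
          exact i.2
        · intro h0
          rw [h0, neg_zero] at h
          exact i.2 h
      · intro n hn hM
        by_cases hW : n ∈ W
        · by_cases hx : x n = 0
          · refine ⟨i0, i0, fun i hi => ?_⟩
            exfalso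
            rcases (hP n hn hM hW _).1 hi.2 with h | h
            · exact i.2 (h.trans hx)
            · exact i.2 (by rw [h, hx, neg_zero])
          · refine ⟨⟨x n, hx⟩, ⟨-x n, neg_ne_zero.2 hx⟩, fun i hi => ?_⟩
            rcases (hP n hn hM hW _).1 hi.2 with h | h
            · exact Or.inl (Subtype.ext h)
            · exact Or.inr (Subtype.ext h)
        · exact ⟨i0, i0, fun i hi => absurd hi.1 hW⟩

theorem card_ne (d : ℕ) :
    (Fintype.card {δ : Fin d → ZMod 3 // δ ≠ 0} : ℝ) = 3 ^ d - 1 := by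
  classical
  have h1 : Fintype.card {δ : Fin d → ZMod 3 // δ ≠ 0} = 3 ^ d - 1 := by
    rw [Fintype.card_subtype_compl, Fintype.card_fun, ZMod.card, Fintype.card_fin]
    congr 1
  rw [h1, Nat.cast_sub (Nat.one_le_pow _ _ (by norm_num))]
  push_cast
  rfl

end CLU

open _root_.Pool.Agent.PTN.CLU BDENS in
/-- CLU: the distribution of the rank in a class, `q = 1 (mod 3)`. -/
theorem CLU_thm (hNHPT : Stmt_NHPT) (hDLU : Stmt_DLU) (hDLL : Stmt_DLL) (hCLT : Stmt_CLT)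
    (hSMT : Stmt_SMT) (hNBK0 : Stmt_NBK0) (hSPLT : SPLT) : Stmt_CLU := by
  classical
  intro h n m k π p e r f w0 c hNF hh
  have hn0 : 0 < n := by
    rw [hNF.eq]
    exact Nat.mul_pos (Finset.prod_pos fun i _ => pow_pos (hNF.pp i).pos _)
      (Finset.prod_pos fun j _ => pow_pos (hNF.rp j).pos _)
  have hG : ∀ E q : ℕ, (E = 1 ∨ E = 2) → q.Prime → n + 3 < q → q % 3 = 1 → InCT E π w0 c q →
      CubeRank.GenBy (BB h n E q) (vN h n π p e r w0 c + 1 + sN h n π p e r w0 c) := by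
    intro E q hE hq hM h1 hC
    refine hNBK0 h n m k π p e r f w0 c E q hNF hh hE hq (by omega) h1 hC fun hd => ?_
    have := Nat.le_of_dvd hn0 hd
    omega
  refine ⟨⟨n + 3, hG⟩, ?_⟩
  intro t
  obtain ⟨d, V, hd, hAd, hspan, hHP⟩ := hNHPT h n m k π p e r f w0 c hNF hh
  have hHB : HB h n π w0 c V := ⟨hAd, hspan, hHP⟩
  rw [← hd]
  rw [← hd] at hG
  obtain ⟨vv, hvv⟩ : ∃ vv, vv = vN h n π p e r w0 c := ⟨_, rfl⟩
  have hU := hDLU h n m k π p e r f w0 c d V hNF hh hHB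
  have hL := hDLL h n m k π p e r f w0 c d V hNF hh hHB
  rw [← hvv] at hG hU ⊢
  obtain ⟨M, hM⟩ : ∃ M, M = n + 3 + ∑ i, (V i).natAbs := ⟨_, rfl⟩
  have hV : ∀ q : ℕ, M < q → ∀ i, ¬ (q : ℤ) ∣ V i := by
    intro q hq i hdv
    have h1 : q ∣ (V i).natAbs := Int.natCast_dvd.1 hdv
    have h2 := Nat.le_of_dvd (Int.natAbs_pos.2 (hAd i).1.ne) h1
    have h3 : (V i).natAbs ≤ ∑ i, (V i).natAbs :=
      Finset.single_le_sum (f := fun i => (V i).natAbs) (fun i _ => Nat.zero_le _)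
        (Finset.mem_univ i)
    omega
  obtain ⟨x, hx⟩ : ∃ x : ℕ → Fin d → ZMod 3, ∀ q : ℕ, q.Prime → M < q → q % 3 = 1 → ∀ δ,
      q ∈ Pat V δ ↔ δ = x q ∨ δ = - x q := by
    refine ⟨fun q => if hx : ∃ ρ : PP, (q : Eis) = ρ.1 * conj ρ.1 then
      fun i => sym hx.choose.1 (V i : Eis) else 0, fun q hq hMq h1 δ => ?_⟩
    have hex := hSPLT.1 q hq h1
    simp only [dif_pos hex]
    exact pat_iff hSPLT V hq h1 (hV q hMq) hex.choose_spec δ
  have hc : ∀ E t' : ℕ, _ := fun E t' => comb hSMT M (WR h n π w0 c 1 E t') (Pat V) x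
    fun q hq hMq hW => hx q hq hMq hW.1
  obtain ⟨KA1, hA1⟩ := (hc 1 t).1
  obtain ⟨KA2, hA2⟩ := (hc 2 t).1
  obtain ⟨KB1, hB1⟩ := (hc 1 0).2
  obtain ⟨KB2, hB2⟩ := (hc 2 0).2
  choose KU hKU using fun δ : {δ : Fin d → ZMod 3 // δ ≠ 0} => hU δ.1 δ.2 t
  choose KL hKL using fun δ : {δ : Fin d → ZMod 3 // δ ≠ 0} => hL δ.1 δ.2
  obtain ⟨KC, hKC⟩ := hCLT m π p hNF.pp hNF.p1 hNF.pπ hNF.pinj w0 c 1 (Or.inl rfl)
  have hWset : ∀ E : ℕ, {q : ℕ | q % 3 = 1 ∧ InCT E π w0 c q} = WR h n π w0 c 1 E 0 := by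
    intro E
    ext q
    simp [WR]
  rw [hWset 1, hWset 2] at hKC
  -- the zero pattern
  have hZ : ∀ E : ℕ, (E = 1 ∨ E = 2) → ∃ K : ℝ, ∀ σ : ℝ, 1 < σ →
      sm (WR h n π w0 c 1 E t) σ ≤ sm (WR h n π w0 c 1 E t \ Pat V 0) σ +
        (if t ≤ vv + d + 1 then sm (WR h n π w0 c 1 E 0 ∩ Pat V 0) σ else 0) + K := by
    intro E hE
    have h1 : ∀ σ : ℝ, 1 < σ → sm (WR h n π w0 c 1 E t) σ ≤
        sm (WR h n π w0 c 1 E t \ Pat V 0) σ + sm (WR h n π w0 c 1 E t ∩ Pat V 0) σ := by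
      intro σ hσ
      rw [sm_eq, sm_eq, sm_eq, ← (ind_summable _ hσ).tsum_add (ind_summable _ hσ)]
      refine (ind_summable _ hσ).tsum_le_tsum (fun q => ?_)
        ((ind_summable _ hσ).add (ind_summable _ hσ))
      by_cases hq : q.Prime ∧ q ∈ WR h n π w0 c 1 E t
      · by_cases hP : q ∈ Pat V 0
        · rw [ind_mem hq.1 hq.2, ind_mem (S := WR h n π w0 c 1 E t ∩ Pat V 0) hq.1 ⟨hq.2, hP⟩]
          have := ind_nonneg (WR h n π w0 c 1 E t \ Pat V 0) σ q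
          linarith
        · rw [ind_mem hq.1 hq.2, ind_mem (S := WR h n π w0 c 1 E t \ Pat V 0) hq.1 ⟨hq.2, hP⟩]
          have := ind_nonneg (WR h n π w0 c 1 E t ∩ Pat V 0) σ q
          linarith
      · rw [ind_not hq]
        exact add_nonneg (ind_nonneg _ _ _) (ind_nonneg _ _ _)
    by_cases ht : t ≤ vv + d + 1
    · obtain ⟨K, hK⟩ := sm_le (WR h n π w0 c 1 E t ∩ Pat V 0) (WR h n π w0 c 1 E 0 ∩ Pat V 0) 0
        fun q _ _ hq => ⟨⟨hq.1.1, hq.1.2.1, Nat.zero_le _⟩, hq.2⟩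
      refine ⟨K, fun σ hσ => ?_⟩
      rw [if_pos ht]
      have := h1 σ hσ
      have := hK σ hσ
      linarith
    · obtain ⟨K, hK⟩ := sm_small (WR h n π w0 c 1 E t ∩ Pat V 0) (n + 3)
        fun q hq hM hS => by
          have h2 := CubeRank.rr_le (hG E q hE hq hM hS.1.1 hS.1.2.1)
          have h3 := hS.1.2.2
          omega
      refine ⟨K, fun σ hσ => ?_⟩
      rw [if_neg ht]
      have := h1 σ hσ
      have := hK σ hσ
      linarith
  obtain ⟨KZ1, hZ1⟩ := hZ 1 (Or.inl rfl)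
  obtain ⟨KZ2, hZ2⟩ := hZ 2 (Or.inr rfl)
  have hNZ : ∀ E : ℕ, ∀ σ : ℝ, 1 < σ → sm (WR h n π w0 c 1 E 0 \ Pat V 0) σ +
      sm (WR h n π w0 c 1 E 0 ∩ Pat V 0) σ ≤ sm (WR h n π w0 c 1 E 0) σ := by
    intro E σ hσ
    have h1 := sm_add_le (WR h n π w0 c 1 E 0 \ Pat V 0) (WR h n π w0 c 1 E 0 ∩ Pat V 0)
      (WR h n π w0 c 1 E 0) ∅ (fun q _ _ hq => ⟨hq.1, fun h' => hq.2 h'.2⟩)
      (fun q _ _ hq => hq.1) hσ
    simpa using h1
  have hcard := card_ne d
  have hD : (0 : ℝ) < 3 ^ d := by positivity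
  have hN : (0 : ℝ) < 3 ^ (m + 1) := by positivity
  refine ⟨KZ1 + KZ2 + (KA1 + KA2 + ∑ i, KU i) / 2 + |KC + (KB1 + KB2 + ∑ i, KL i) / 2|,
    fun σ hσ hσ2 => ?_⟩
  have a1 := hA1 σ hσ hσ2
  have a2 := hA2 σ hσ hσ2
  have b1 := hB1 σ hσ hσ2
  have b2 := hB2 σ hσ hσ2
  have z1 := hZ1 σ hσ
  have z2 := hZ2 σ hσ
  have c0 := (hKC σ hσ hσ2).2
  have n1 := hNZ 1 σ hσ
  have n2 := hNZ 2 σ hσ
  obtain ⟨Lg, hLg⟩ : ∃ Lg, Lg = Real.log (1 / (σ - 1)) := ⟨_, rfl⟩
  have u1 : ∑ i : {δ : Fin d → ZMod 3 // δ ≠ 0}, sm (WR h n π w0 c 1 1 t ∩ Pat V i.1) σ +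
      ∑ i : {δ : Fin d → ZMod 3 // δ ≠ 0}, sm (WR h n π w0 c 1 2 t ∩ Pat V i.1) σ ≤
      (3 ^ d - 1) * (2 / 3 ^ d * LI (d - 1) (t - vv) / 3 ^ (m + 1) * Lg) + ∑ i, KU i := by
    rw [← Finset.sum_add_distrib, ← hcard, ← nsmul_eq_mul, ← Finset.card_univ,
      ← Finset.sum_const, ← Finset.sum_add_distrib, hLg]
    exact Finset.sum_le_sum fun i _ => hKU i σ hσ hσ2
  have l1 : (3 ^ d - 1) * (2 / 3 ^ d / 3 ^ (m + 1) * Lg) - ∑ i, KL i ≤
      ∑ i : {δ : Fin d → ZMod 3 // δ ≠ 0}, sm (WR h n π w0 c 1 1 0 ∩ Pat V i.1) σ +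
      ∑ i : {δ : Fin d → ZMod 3 // δ ≠ 0}, sm (WR h n π w0 c 1 2 0 ∩ Pat V i.1) σ := by
    rw [← Finset.sum_add_distrib, ← hcard, ← nsmul_eq_mul, ← Finset.card_univ,
      ← Finset.sum_const, ← Finset.sum_sub_distrib, hLg]
    exact Finset.sum_le_sum fun i _ => hKL i σ hσ hσ2
  rw [← hLg] at c0 ⊢
  unfold LS
  have e1 : (3 ^ d - 1 : ℝ) * (2 / 3 ^ d * LI (d - 1) (t - vv) / 3 ^ (m + 1) * Lg) =
      2 * ((1 - 1 / 3 ^ d) * LI (d - 1) (t - vv) / 3 ^ (m + 1) * Lg) := by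
    field_simp
  have e2 : (3 ^ d - 1 : ℝ) * (2 / 3 ^ d / 3 ^ (m + 1) * Lg) =
      2 * ((1 - 1 / 3 ^ d) / 3 ^ (m + 1) * Lg) := by
    field_simp
  have e3 : (1 / 3 ^ (m + 1) * Lg : ℝ) - (1 - 1 / 3 ^ d) / 3 ^ (m + 1) * Lg =
      1 / 3 ^ d / 3 ^ (m + 1) * Lg := by
    ring
  rw [e1] at u1
  rw [e2] at l1
  have k1 := le_abs_self (KC + (KB1 + KB2 + ∑ i, KL i) / 2)
  have k2 := abs_nonneg (KC + (KB1 + KB2 + ∑ i, KL i) / 2)
  by_cases ht : t ≤ vv + d + 1
  · rw [if_pos ht] at z1 z2 ⊢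
    have e4 : ((1 - 1 / 3 ^ d) * LI (d - 1) (t - vv) + 1 / 3 ^ d * 1) / 3 ^ (m + 1) * Lg =
        (1 - 1 / 3 ^ d) * LI (d - 1) (t - vv) / 3 ^ (m + 1) * Lg +
          1 / 3 ^ d / 3 ^ (m + 1) * Lg := by
      ring
    rw [e4]
    linarith
  · rw [if_neg ht] at z1 z2 ⊢
    have e4 : ((1 - 1 / 3 ^ d) * LI (d - 1) (t - vv) + 1 / 3 ^ d * 0) / 3 ^ (m + 1) * Lg =
        (1 - 1 / 3 ^ d) * LI (d - 1) (t - vv) / 3 ^ (m + 1) * Lg := by
      ring
    rw [e4]
    linarith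

end Pool.Agent.PTN

end

section

/-!
# PTN_EQX: equidistribution
-/

namespace Pool.Agent.PTN

open Pool.Agent.PT

theorem EQX_thm : Stmt_EQX := by
  intro s X _ t hf C S
  constructor
  · refine EQD.main (fun x : X => C + t x) ?_ S
    intro e e'
    have h2 : ∀ e : EQD.Pr s → ZMod 3,
        Nat.card {x : X // EQD.rst (C + t x) = e} =
          Nat.card {x : X // ∀ j i, j < i → t x j i = (EQD.lft e - C) j i} := by
      intro e
      refine Nat.card_congr (Equiv.subtypeEquivRight fun x => ?_)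
      rw [EQD.rst_eq_iff]
      refine forall₃_congr fun j i _ => ?_
      show C j i + t x j i = EQD.lft e j i ↔ t x j i = EQD.lft e j i - C j i
      constructor
      · intro h3
        rw [← h3]
        ring
      · intro h3
        rw [h3]
        ring
    rw [h2, h2]
    exact hf _ _
  · refine EQD.main (fun x : X => C - t x) ?_ S
    intro e e'
    have h2 : ∀ e : EQD.Pr s → ZMod 3,
        Nat.card {x : X // EQD.rst (C - t x) = e} =
          Nat.card {x : X // ∀ j i, j < i → t x j i = (C - EQD.lft e) j i} := by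
      intro e
      refine Nat.card_congr (Equiv.subtypeEquivRight fun x => ?_)
      rw [EQD.rst_eq_iff]
      refine forall₃_congr fun j i _ => ?_
      show C j i - t x j i = EQD.lft e j i ↔ t x j i = C j i - EQD.lft e j i
      constructor
      · intro h3
        rw [← h3]
        ring
      · intro h3
        rw [h3]
        ring
    rw [h2, h2]
    exact hf _ _

end Pool.Agent.PTN

end

section

/-!
# PTN_SUMA: sums over the classes
-/

set_option autoImplicit false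

open NumberField IsDedekindDomain Finset
open scoped nonZeroDivisors Pointwise

namespace Pool.Agent.PTN

open Pool.Agent.Lib_helper18 Pool.Agent.Lib_helper18.Eis Pool.Agent.Lib_helper84.Cub
open Pool.Agent.PT Pool.Agent.PTE Pool.Agent.PT3 Pool.Agent.PTL

namespace SUMA

theorem log_nn {σ : ℝ} (h1 : 1 < σ) (h2 : σ ≤ 2) : 0 ≤ Real.log (1 / (σ - 1)) := by
  apply Real.log_nonneg
  rw [le_div_iff₀ (by linarith)]
  linarith

theorem kl_iff {m : ℕ} (π : Fin m → PP) (y : ℤ) (x : ZMod 3 × (Fin m → ZMod 3)) :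
    Kl π x.1 x.2 y ↔ (wt (y ^ 2), fun i => sym (π i).1 (y : Eis)) = x := by
  unfold Kl
  rw [Prod.ext_iff, funext_iff]

theorem sum_all {m : ℕ} (π : Fin m → PP) (n : ℤ) (a : ℕ) (F : ℤ → ℝ) (σ : ℝ) (T : Finset ℕ) :
    SumA n a (fun _ => True) F σ T =
      ∑ x : ZMod 3 × (Fin m → ZMod 3), SumA n a (Kl π x.1 x.2) F σ T := by
  classical
  symm
  unfold SumA
  rw [Finset.sum_comm]
  refine Finset.sum_congr rfl fun e _ => ?_
  rw [Finset.sum_comm]
  refine Finset.sum_congr rfl fun q _ => ?_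
  by_cases hq : q.Prime ∧ q % 3 = a
  · rw [if_pos ⟨hq.1, hq.2, trivial⟩]
    rw [Finset.sum_eq_single
      ((wt (((q : ℤ) ^ e) ^ 2), fun i => sym (π i).1 (((q : ℤ) ^ e : ℤ) : Eis)) :
        ZMod 3 × (Fin m → ZMod 3))]
    · rw [if_pos ⟨hq.1, hq.2, (kl_iff π _ _).2 rfl⟩]
    · intro x _ hx
      rw [if_neg fun h => hx ((kl_iff π _ _).1 h.2.2).symm]
    · intro h
      exact absurd (Finset.mem_univ _) h
  · rw [if_neg fun h => hq ⟨h.1, h.2.1⟩]
    refine Finset.sum_eq_zero fun x _ => ?_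
    rw [if_neg fun h => hq ⟨h.1, h.2.1⟩]

theorem sum_mono {n : ℤ} {a : ℕ} {W : ℤ → Prop} {F : ℤ → ℝ} (hF : ∀ A, 0 ≤ F A) {σ : ℝ}
    {T T' : Finset ℕ} (h : T ⊆ T') : SumA n a W F σ T ≤ SumA n a W F σ T' := by
  classical
  unfold SumA
  refine Finset.sum_le_sum fun e _ => Finset.sum_le_sum_of_subset_of_nonneg h fun q _ _ => ?_
  split_ifs
  · exact mul_nonneg (hF _) (Real.rpow_nonneg (Nat.cast_nonneg q) _)
  · exact le_rfl

end SUMA

theorem SUMA_thm : Stmt_SUMA := by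
  classical
  intro n a m π F
  refine ⟨?_, ?_, ?_, ?_⟩
  · intro x h
    choose K hK using h
    refine ⟨∑ y, K y, fun σ h1 h2 T => ?_⟩
    rw [SUMA.sum_all π, Finset.sum_mul, ← Finset.sum_add_distrib]
    exact Finset.sum_le_sum fun y _ => hK y σ h1 h2 T
  · intro x hF h
    choose K hK using h
    refine ⟨∑ y, K y, fun σ h1 h2 => ?_⟩
    choose T hT using fun y => hK y σ h1 h2
    refine ⟨Finset.univ.biUnion T, ?_⟩
    rw [SUMA.sum_all π, Finset.sum_mul, ← Finset.sum_sub_distrib]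
    refine Finset.sum_le_sum fun y _ => (hT y).trans ?_
    exact SUMA.sum_mono hF (Finset.subset_biUnion_of_mem T (Finset.mem_univ y))
  · rintro W x y hxy ⟨K, hK⟩
    refine ⟨K, fun σ h1 h2 T => (hK σ h1 h2 T).trans ?_⟩
    have := mul_le_mul_of_nonneg_right hxy (SUMA.log_nn h1 h2)
    linarith
  · rintro W x y hxy ⟨K, hK⟩
    refine ⟨K, fun σ h1 h2 => ?_⟩
    obtain ⟨T, hT⟩ := hK σ h1 h2
    refine ⟨T, le_trans ?_ hT⟩
    have := mul_le_mul_of_nonneg_right hxy (SUMA.log_nn h1 h2)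
    linarith

end Pool.Agent.PTN

end

section

/-!
# PTN_DLL: the number of the primes of a given pattern, lower bound
-/

set_option autoImplicit false

open NumberField IsDedekindDomain Finset
open scoped nonZeroDivisors Pointwise

namespace Pool.Agent.PTN

open Pool.Agent.Lib_helper18 Pool.Agent.Lib_helper18.Eis Pool.Agent.Lib_helper84.Cub
open Pool.Agent.PT Pool.Agent.PTE Pool.Agent.PT3 Pool.Agent.PTL

namespace DLL

/-- a number in normal form is positive -/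
theorem nf_pos {n m k : ℕ} {π : Fin m → PP} {p e : Fin m → ℕ} {r f : Fin k → ℕ}
    (h : NF n π p e r f) : 0 < n := by
  rw [h.eq]
  exact Nat.mul_pos (Finset.prod_pos fun i _ => pow_pos (h.pp i).pos _)
    (Finset.prod_pos fun j _ => pow_pos (h.rp j).pos _)

theorem neg_cancel3 : ∀ x y : ZMod 3, x = -y → 2 * x = y := by decide

end DLL

open _root_.Pool.Agent.PTN.DLL in
theorem DLL_thm (hESYT : ESYT) (hCLSC : CLSC) (hCLSCS : CLSCS) (hBDL : Stmt_BDL)
    (hSPLT : SPLT) : Stmt_DLL := by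
  intro h n m k π p e r f w0 c d v hNF hh hHB δ hδ
  obtain ⟨-, -, hHB3⟩ := hHB
  obtain ⟨s, τ, b, X, Y, hs, hAdm, hV, hind, h3, -, hρ⟩ := hHB3 δ hδ
  obtain ⟨P, Q, P', Q', hSys, -⟩ := hESYT h n m k π p e r f w0 c (s + 1) b hNF
    (fun i => (hAdm i).1) hV hind h3
  have hn0 := nf_pos hNF
  -- the classes
  set F : ℕ := 9 * ∏ i, p i with hF
  have hF0 : 0 < F := Nat.mul_pos (by norm_num) (Finset.prod_pos fun i _ => (hNF.pp i).pos)
  have h9 : 9 ∣ F := Dvd.intro _ rfl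
  have hpF : ∀ i, p i ∣ F :=
    fun i => Dvd.dvd.mul_left (Finset.dvd_prod_of_mem _ (mem_univ i)) 9
  have h3F : 3 ∣ F := dvd_trans (by norm_num) h9
  obtain ⟨κ, hκ, hM2⟩ := hCLSC m π p hNF.pp hNF.p1 hNF.pπ hNF.pinj F hF0 h9 hpF
  have hM1 := hCLSCS F m κ hF0 h9 hM2
  obtain ⟨K, hK⟩ := hBDL s b P Q P' Q' F m κ (Fin.cons w0 c) hSys hF0 h9 hM1
  -- the pattern
  have hpat : ∀ (q : ℕ) (hq : q.Coprime F) (ρ : PP) (c' : Fin (m + 1) → ZMod 3), q.Prime → n < q →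
      ClQ b κ c' q hq ρ → q ∈ Pat v δ := by
    intro q hq ρ c' hqp hnq hCl
    obtain ⟨h1, -, h2, h4, h5⟩ := hCl
    have hρn : ¬ ρ.1 ∣ (n : Eis) := by
      intro h6
      have h7 := (hSPLT.2 q ρ hqp h1 h2).2.2.2.1 (n : ℤ)
      rw [Int.cast_natCast] at h7
      exact absurd (Nat.le_of_dvd hn0 (Int.natCast_dvd_natCast.1 (h7.1 h6))) (by omega)
    exact ⟨ρ, h2, ((hρ ρ hρn).1).1 ⟨h4, h5⟩⟩
  have e1 : ∀ q : ℕ, q.Prime → n < q →
      q ∈ {q : ℕ | ∃ (hq : q.Coprime F) (ρ : PP), ClQ b κ (Fin.cons w0 c) q hq ρ} →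
      q ∈ WR h n π w0 c 1 1 0 ∩ Pat v δ := by
    rintro q hqp hnq ⟨hq, ρ, hCl⟩
    refine ⟨⟨hCl.1, ?_, Nat.zero_le _⟩, hpat q hq ρ _ hqp hnq hCl⟩
    have h1 := hCl.2.1
    rw [hκ, Fin.cons_inj] at h1
    refine ⟨by rw [pow_one]; exact h1.1, fun i => ?_⟩
    rw [Nat.cast_one, one_mul]
    exact congrFun h1.2 i
  have e2 : ∀ q : ℕ, q.Prime → n < q →
      q ∈ {q : ℕ | ∃ (hq : q.Coprime F) (ρ : PP), ClQ b κ (-Fin.cons w0 c) q hq ρ} →
      q ∈ WR h n π w0 c 1 2 0 ∩ Pat v δ := by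
    rintro q hqp hnq ⟨hq, ρ, hCl⟩
    refine ⟨⟨hCl.1, ?_, Nat.zero_le _⟩, hpat q hq ρ _ hqp hnq hCl⟩
    have h1 := hCl.2.1
    rw [hκ] at h1
    have hq3 : ¬ (3 : ℤ) ∣ (q : ℤ) := by
      intro hd
      have h1 : 3 ∣ q := by exact_mod_cast hd
      have h2 : 3 ∣ q.gcd F := Nat.dvd_gcd h1 h3F
      rw [hq] at h2
      omega
    refine ⟨?_, fun i => ?_⟩
    · rw [CLT.wt_four hq3]
      apply neg_cancel3
      have h2 := congrFun h1 0
      rw [Fin.cons_zero, Pi.neg_apply, Fin.cons_zero] at h2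
      exact h2
    · rw [Nat.cast_ofNat]
      apply neg_cancel3
      have h2 := congrFun h1 i.succ
      rw [Fin.cons_succ, Pi.neg_apply, Fin.cons_succ] at h2
      exact h2
  refine ⟨K + 2 * ((Finset.range (n + 1)).card : ℝ) + 2 * ((Finset.range (n + 1)).card : ℝ),
    fun σ h1 h2 => ?_⟩
  have a1 := hK σ h1 h2
  have a2 := CL.sm_le_add _ _ n e1 h1
  have a3 := CL.sm_le_add _ _ n e2 h1
  rw [hs] at a1
  linarith

end Pool.Agent.PTN

end

section

/-!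
# The average rank of prime twists, ZA: general properties of `zN`
-/

set_option autoImplicit false

open NumberField IsDedekindDomain Finset
open scoped nonZeroDivisors Pointwise

namespace Pool.Agent.PTK

open Pool.Agent.Lib_helper18 Pool.Agent.Lib_helper18.Eis Pool.Agent.Lib_helper84.Cub
open Pool.Agent.PT Pool.Agent.PTE Pool.Agent.PT3 Pool.Agent.PTL Pool.Agent.PTN

namespace ZA

open Pool.Agent.PT.EHYP Pool.Agent.PT3.HYPT

variable {n m k : ℕ} {π : Fin m → PP} {p e : Fin m → ℕ} {r f : Fin k → ℕ}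

/-- products of powers of the primes -/
noncomputable def pr (π : Fin m → PP) (c : ℕ) (g h : Fin m → ℕ) : Eis :=
  w ^ c * ∏ i, ((π i).1 ^ g i * conj (π i).1 ^ h i)

theorem f_ne (π : Fin m → PP) (g h : Fin m → ℕ) (i : Fin m) :
    (π i).1 ^ g i * conj (π i).1 ^ h i ≠ 0 :=
  mul_ne_zero (pow_ne_zero _ (π i).2.1.ne_zero) (pow_ne_zero _ (prime_conj (π i).2.1).ne_zero)

theorem pr_ne (π : Fin m → PP) (c : ℕ) (g h : Fin m → ℕ) : pr π c g h ≠ 0 :=
  mul_ne_zero (pow_ne_zero _ w_ne) (Finset.prod_ne_zero_iff.2 fun i _ => f_ne π g h i)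

theorem prim_i (π : Fin m → PP) (i : Fin m) : Prim (π i).1 := by
  have h := (π i).2.2
  exact ⟨h.2, by omega⟩

theorem prim_c (π : Fin m → PP) (i : Fin m) : Prim (conj (π i).1) := by
  obtain ⟨h1, h2⟩ := (π i).2.2
  refine ⟨?_, ?_⟩
  · rw [conj_im]
    omega
  · rw [conj_re]
    omega

theorem lam_ndvd (π : Fin m → PP) (c : ℕ) (g h : Fin m → ℕ) : ¬ lam ∣ pr π c g h := by
  have hl : Prime lam := prime_lam
  intro hd
  rcases hl.dvd_or_dvd hd with h1 | h1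
  · exact not_dvd_of_isUnit hl (isUnit_w.pow c) h1
  · obtain ⟨i, -, hi⟩ := hl.exists_mem_finset_dvd h1
    rcases hl.dvd_or_dvd hi with h2 | h2
    · exact (prim_i π i).not_lam_dvd (hl.dvd_of_dvd_pow h2)
    · exact (prim_c π i).not_lam_dvd (hl.dvd_of_dvd_pow h2)

theorem pr_mul (π : Fin m → PP) (c c' : ℕ) (g h g' h' : Fin m → ℕ) :
    pr π c g h * pr π c' g' h' = pr π (c + c') (fun i => g i + g' i) (fun i => h i + h' i) := by
  unfold pr
  rw [pow_add, mul_mul_mul_comm, ← Finset.prod_mul_distrib]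
  congr 1
  refine Finset.prod_congr rfl fun i _ => ?_
  rw [pow_add, pow_add]
  ring

theorem pr_cube (π : Fin m → PP) (c : ℕ) (g h : Fin m → ℕ) :
    pr π (3 * c) (fun i => 3 * g i) (fun i => 3 * h i) = pr π c g h ^ 3 := by
  unfold pr
  rw [mul_pow, ← Finset.prod_pow, ← pow_mul, mul_comm 3 c]
  congr 1
  refine Finset.prod_congr rfl fun i _ => ?_
  change (π i).1 ^ (3 * g i) * conj (π i).1 ^ (3 * h i) = _
  rw [mul_pow, ← pow_mul, ← pow_mul, mul_comm 3 (g i), mul_comm 3 (h i)]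

theorem pr_conj (π : Fin m → PP) (c : ℕ) (g h : Fin m → ℕ) :
    conj (pr π c g h) = pr π (2 * c) h g := by
  unfold pr
  rw [map_mul, map_pow, conj_w, map_prod, ← pow_mul]
  congr 1
  refine Finset.prod_congr rfl fun i _ => ?_
  rw [map_mul, map_pow, map_pow, conj_conj, mul_comm]

theorem sl_pr (hSSL : SSL) (hSREC : SREC) (hLCL : LCL) (π : Fin m → PP) (c : ℕ)
    (g h : Fin m → ℕ) : sl (pr π c g h) 4 = c := by
  have h4 : (4 : Eis) ≠ 0 := by
    intro h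
    have := congrArg Eis.re h
    rw [ofNat_re, zero_re] at this
    norm_num at this
  have hp4 : Prim 4 := ⟨by rw [ofNat_im]; exact dvd_zero _, by rw [ofNat_re]; norm_num⟩
  have hF := add3_sl hSSL h4
  have hw : sl w 4 = 1 := by
    have h1 := hLCL.2.2.2.2.1 4 (by norm_num)
    push_cast at h1
    rw [h1, (lw_four hLCL).2, neg_neg]
  have k1 := hF _ _ (pow_ne_zero c w_ne) (Finset.prod_ne_zero_iff.2 fun i _ => f_ne π g h i :
    (∏ i, ((π i).1 ^ g i * conj (π i).1 ^ h i)) ≠ 0)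
  have k2 := hF.pow w_ne c
  have k3 := hF.prod Finset.univ _ fun i _ => f_ne π g h i
  simp only at k1 k2 k3
  unfold pr
  rw [k1, k2, k3, hw, mul_one, Finset.sum_eq_zero, add_zero]
  intro i _
  have k4 := hF _ _ (pow_ne_zero (g i) (π i).2.1.ne_zero)
    (pow_ne_zero (h i) (prime_conj (π i).2.1).ne_zero)
  have k5 := hF.pow (π i).2.1.ne_zero (g i)
  have k6 := hF.pow (prime_conj (π i).2.1).ne_zero (h i)
  simp only at k4 k5 k6
  rw [k4, k5, k6, hSREC.1 _ _ (prim_i π i) hp4, hSREC.1 _ _ (prim_c π i) hp4, mul_zero, mul_zero,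
    add_zero]

theorem V_pr {l : Eis} (hl : Prime l) (π : Fin m → PP) (c : ℕ) (g h : Fin m → ℕ) :
    V l (pr π c g h) = ∑ i, (g i * V l (π i).1 + h i * V l (conj (π i).1)) := by
  unfold pr
  rw [V_mul hl (pow_ne_zero _ w_ne) (Finset.prod_ne_zero_iff.2 fun i _ => f_ne π g h i),
    V_eq_zero (not_dvd_of_isUnit hl (isUnit_w.pow c)), zero_add,
    V_prod hl _ _ fun i _ => f_ne π g h i]
  refine Finset.sum_congr rfl fun i _ => ?_
  rw [V_mul hl (pow_ne_zero _ (π i).2.1.ne_zero)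
    (pow_ne_zero _ (prime_conj (π i).2.1).ne_zero), V_pow hl (π i).2.1.ne_zero,
    V_pow hl (prime_conj (π i).2.1).ne_zero]

theorem V_i (hn : NF n π p e r f) (c : ℕ) (g h : Fin m → ℕ) (i : Fin m) :
    V (π i).1 (pr π c g h) = g i := by
  rw [V_pr (π i).2.1, Finset.sum_eq_single i]
  · rw [V_self_i hn, V_conj_i hn, if_pos rfl, mul_one, mul_zero, add_zero]
  · intro j _ hj
    rw [V_self_i hn, V_conj_i hn, if_neg hj, mul_zero, mul_zero, add_zero]
  · intro h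
    exact absurd (Finset.mem_univ i) h

theorem V_ci (hn : NF n π p e r f) (c : ℕ) (g h : Fin m → ℕ) (i : Fin m) :
    V (conj (π i).1) (pr π c g h) = h i := by
  rw [V_pr (prime_conj (π i).2.1), Finset.sum_eq_single i]
  · rw [V_conj_self hn, V_conj_conj hn, if_pos rfl, mul_one, mul_zero, zero_add]
  · intro j _ hj
    rw [V_conj_self hn, V_conj_conj hn, if_neg hj, mul_zero, mul_zero, add_zero]
  · intro h
    exact absurd (Finset.mem_univ i) h

theorem dvd_pr (hSPP : SPP) (π : Fin m → PP) (c : ℕ) (g h : Fin m → ℕ) (σ : PP)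
    (hd : σ.1 ∣ pr π c g h) : ∃ i, (g i ≠ 0 ∧ σ = π i) ∨ (h i ≠ 0 ∧ σ.1 = conj (π i).1) := by
  have hl := σ.2.1
  rcases hl.dvd_or_dvd hd with h1 | h1
  · exact absurd h1 (not_dvd_of_isUnit hl (isUnit_w.pow c))
  · obtain ⟨i, -, hi⟩ := hl.exists_mem_finset_dvd h1
    refine ⟨i, ?_⟩
    rcases hl.dvd_or_dvd hi with h2 | h2
    · left
      refine ⟨fun h0 => ?_, ?_⟩
      · rw [h0, pow_zero] at h2
        exact not_dvd_of_isUnit hl isUnit_one h2
      · exact hSPP.2.1 _ _ (hl.associated_of_dvd (π i).2.1 (hl.dvd_of_dvd_pow h2))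
    · right
      refine ⟨fun h0 => ?_, ?_⟩
      · rw [h0, pow_zero] at h2
        exact not_dvd_of_isUnit hl isUnit_one h2
      · obtain ⟨π', hπ'⟩ := (hSPP.2.2.2.1 (π i)).2
        rw [← hπ']
        have h3 : Associated σ.1 π'.1 := by
          rw [hπ']
          exact hl.associated_of_dvd (prime_conj (π i).2.1) (hl.dvd_of_dvd_pow h2)
        rw [hSPP.2.1 _ _ h3]

theorem zN_eq (π : Fin m → PP) (e : Fin m → ℕ) (y : Fin (m + 1) → ZMod 3) :
    zN π e y = pr π (- y 0).val (fun i => ((e i : ZMod 3) * y i.succ).val)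
      (fun i => (2 * ((e i : ZMod 3) * y i.succ)).val) := rfl

theorem three_dvd (a : ZMod 3) : 3 ∣ a.val + (2 * a).val := by
  revert a
  decide

theorem carry (a b : ZMod 3) : ∃ c : ℕ, a.val + b.val = (a + b).val + 3 * c := by
  refine ⟨(a.val + b.val) / 3, ?_⟩
  revert a b
  decide

theorem val_le (a : ZMod 3) : a.val ≤ 2 := by
  revert a
  decide

theorem e_sq' (hn : NF n π p e r f) (i : Fin m) : (e i : ZMod 3) * (e i : ZMod 3) = 1 := by
  rcases hn.pe i with h | h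
  · rw [h]
    decide
  · rw [h]
    decide

theorem pd_n (hn : NF n π p e r f) (i : Fin m) : (p i : Eis) ∣ (n : Eis) := by
  have h1 : p i ∣ n := by
    rw [hn.eq]
    refine Dvd.dvd.mul_right ?_ _
    have h1 : p i ^ e i ∣ ∏ i, p i ^ e i := Finset.dvd_prod_of_mem _ (Finset.mem_univ i)
    refine (dvd_pow_self _ ?_).trans h1
    have := hn.pe i
    omega
  obtain ⟨d, hd⟩ := h1
  exact ⟨(d : Eis), by rw [hd]; push_cast; rfl⟩

end ZA

theorem ZA_thm (hSPP : SPP) (hSSL : SSL) (hSREC : SREC) (hLCL : LCL) : Stmt_ZA := by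
  intro n m k π p e r f hn y
  have hyv : NPSI.yv π e (zN π e y) = y := by
    funext j
    refine Fin.cases ?_ (fun i => ?_) j
    · change - sl (zN π e y) 4 = y 0
      rw [ZA.zN_eq, ZA.sl_pr hSSL hSREC hLCL, ZMod.natCast_zmod_val, neg_neg]
    · change (e i : ZMod 3) * (V (π i).1 (zN π e y) : ZMod 3) = y i.succ
      rw [ZA.zN_eq, ZA.V_i hn, ZMod.natCast_zmod_val, ← mul_assoc, ZA.e_sq' hn, one_mul]
  refine ⟨?_, ?_, ?_, ?_, ?_, ?_, ?_, hyv, ?_, ?_⟩
  · rw [ZA.zN_eq]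
    exact ZA.pr_ne _ _ _ _
  · rw [ZA.zN_eq]
    exact ZA.lam_ndvd _ _ _ _
  · rw [ZA.zN_eq, ZA.pr_conj, ZA.pr_mul]
    have h1 := fun i : Fin m => ZA.three_dvd ((e i : ZMod 3) * y i.succ)
    choose c hc using h1
    refine ⟨ZA.pr π (- y 0).val c c, ?_⟩
    rw [← ZA.pr_cube]
    congr 1
    · omega
    · funext i
      exact hc i
    · funext i
      rw [add_comm]
      exact hc i
  · intro σ hσ hd
    rw [ZA.zN_eq] at hd
    obtain ⟨i, hi⟩ := ZA.dvd_pr hSPP _ _ _ _ _ hd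
    apply hσ
    refine Dvd.dvd.trans ?_ (ZA.pd_n hn i)
    rw [hn.pπ i]
    rcases hi with ⟨-, hi⟩ | ⟨-, hi⟩
    · rw [hi]
      exact dvd_mul_right _ _
    · rw [hi]
      exact dvd_mul_left _ _
  · intro σ
    rw [ZA.zN_eq]
    by_cases hd : σ.1 ∣ ZA.pr π (- y 0).val (fun i => ((e i : ZMod 3) * y i.succ).val)
      (fun i => (2 * ((e i : ZMod 3) * y i.succ)).val)
    · obtain ⟨i, hi⟩ := ZA.dvd_pr hSPP _ _ _ _ _ hd
      rcases hi with ⟨-, hi⟩ | ⟨-, hi⟩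
      · rw [hi, ZA.V_i hn]
        exact ZA.val_le _
      · rw [hi, ZA.V_ci hn]
        exact ZA.val_le _
    · rw [V_eq_zero hd]
      exact Nat.zero_le _
  · intro σ hd
    rw [ZA.zN_eq] at hd
    obtain ⟨i, hi⟩ := ZA.dvd_pr hSPP _ _ _ _ _ hd
    refine ⟨i, ?_⟩
    rcases hi with ⟨h0, hi⟩ | ⟨h0, hi⟩
    · refine ⟨fun h1 => h0 ?_, Or.inl hi⟩
      rw [h1, mul_zero]
      rfl
    · refine ⟨fun h1 => h0 ?_, Or.inr hi⟩
      rw [h1, mul_zero, mul_zero]
      rfl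
  · intro i hi
    have h1 : (e i : ZMod 3) * y i.succ ≠ 0 := by
      intro h
      apply hi
      have := congrArg (fun t => (e i : ZMod 3) * t) h
      simp only [← mul_assoc, ZA.e_sq' hn, one_mul, mul_zero] at this
      exact this
    have h2 : 2 * ((e i : ZMod 3) * y i.succ) ≠ 0 := by
      generalize (e i : ZMod 3) * y i.succ = a at h1
      revert a
      decide
    have k1 : ((e i : ZMod 3) * y i.succ).val ≠ 0 := fun h => h1 ((ZMod.val_eq_zero _).1 h)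
    have k2 : (2 * ((e i : ZMod 3) * y i.succ)).val ≠ 0 := fun h => h2 ((ZMod.val_eq_zero _).1 h)
    have h3 : (π i).1 ^ ((e i : ZMod 3) * y i.succ).val *
        conj (π i).1 ^ (2 * ((e i : ZMod 3) * y i.succ)).val ∣ zN π e y := by
      unfold zN
      exact Dvd.dvd.mul_left (Finset.dvd_prod_of_mem _ (Finset.mem_univ i)) _
    exact ⟨((dvd_pow_self _ k1).trans (dvd_mul_right _ _)).trans h3,
      ((dvd_pow_self _ k2).trans (dvd_mul_left _ _)).trans h3⟩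
  · intro y'
    have h1 := fun i : Fin m => ZA.carry ((e i : ZMod 3) * y i.succ) ((e i : ZMod 3) * y' i.succ)
    have h2 := fun i : Fin m => ZA.carry (2 * ((e i : ZMod 3) * y i.succ))
      (2 * ((e i : ZMod 3) * y' i.succ))
    obtain ⟨c0, hc0⟩ := ZA.carry (- y 0) (- y' 0)
    choose c hc using h1
    choose d hd using h2
    refine ⟨1, ZA.pr π c0 c d, one_ne_zero, ZA.pr_ne _ _ _ _, ?_⟩
    rw [one_pow, mul_one, ZA.zN_eq, ZA.zN_eq, ZA.zN_eq, ← ZA.pr_cube, ZA.pr_mul, ZA.pr_mul]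
    congr 1
    · rw [hc0]
      congr 2
      rw [Pi.add_apply, neg_add]
    · funext i
      rw [hc i]
      congr 2
      rw [Pi.add_apply, mul_add]
    · funext i
      rw [hd i]
      congr 2
      rw [Pi.add_apply, mul_add, mul_add]
  · rintro ⟨t, ht⟩
    rw [← hyv, ← ht]
    have ht0 : t ≠ 0 := by
      rintro rfl
      have : zN π e y ≠ 0 := by
        rw [ZA.zN_eq]
        exact ZA.pr_ne _ _ _ _
      apply this
      rw [← ht]
      ring
    funext j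
    refine Fin.cases ?_ (fun i => ?_) j
    · change - sl (t ^ 3) 4 = 0
      have h4 : (4 : Eis) ≠ 0 := by
        intro h
        have := congrArg Eis.re h
        rw [ofNat_re, zero_re] at this
        norm_num at this
      have h5 : sl (t ^ 3) 4 = ((3 : ℕ) : ZMod 3) * sl t 4 := (EHYP.add3_sl hSSL h4).pow ht0 3
      rw [h5]
      push_cast
      rw [EHYP.three_zero, neg_zero]
    · change (e i : ZMod 3) * (V (π i).1 (t ^ 3) : ZMod 3) = 0
      rw [V_pow (π i).2.1 ht0]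
      push_cast
      rw [EHYP.three_zero, mul_zero]

end Pool.Agent.PTK

end

section

/-!
# PTK_GMB: the values of `gM`
-/

set_option autoImplicit false

namespace Pool.Agent.PTK

namespace GMB

theorem gM_succ (k j : ℕ) : gM (k + 1) j =
    (1 + 3 ^ (k + 1) / 3 ^ j) * gM k j + (3 ^ j - 1) * 3 ^ k * gM k (j - 1) := rfl

theorem MoB_succ (k : ℕ) : MoB (k + 1) = MoB k * (1 + 3 ^ (k + 1)) := by
  unfold MoB
  rw [Finset.prod_range_succ]

theorem MoB_zero : MoB 0 = 1 := by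
  unfold MoB
  rw [Finset.range_zero, Finset.prod_empty]

theorem one_le (k : ℕ) : 1 ≤ MoB k := by
  induction k with
  | zero => rw [MoB_zero]
  | succ k ih =>
    rw [MoB_succ]
    have h : (1 : ℝ) ≤ 1 + 3 ^ (k + 1) := by
      have : (0 : ℝ) < 3 ^ (k + 1) := by positivity
      linarith
    exact one_le_mul_of_one_le_of_one_le ih h

theorem z0 (k : ℕ) : gM k 0 = MoB k := by
  induction k with
  | zero => rw [MoB_zero]; rfl
  | succ k ih =>
    rw [gM_succ, MoB_succ, ih, pow_zero, sub_self, zero_mul, zero_mul, div_one]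
    ring

theorem z1 (k : ℕ) : gM k 1 = MoB k := by
  induction k with
  | zero => rw [MoB_zero]; rfl
  | succ k ih =>
    rw [gM_succ, MoB_succ, ih, Nat.sub_self, z0]
    ring

theorem z2 (k : ℕ) : gM (k + 1) 2 = (1 + 3 ^ k / 3) * gM k 2 + 8 * 3 ^ k * MoB k := by
  rw [gM_succ, show (2 - 1 : ℕ) = 1 from rfl, z1]
  ring

theorem lo (k : ℕ) : MoB k ≤ gM k 2 := by
  induction k with
  | zero => rw [MoB_zero]; exact le_refl _
  | succ k ih =>
    rw [z2, MoB_succ]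
    have h1 : (0 : ℝ) < 3 ^ k := by positivity
    have h2 := one_le k
    have h3 : 0 ≤ 3 ^ k / 3 * gM k 2 := by
      apply mul_nonneg
      · positivity
      · linarith
    have h4 : 0 ≤ 3 ^ k * MoB k := by
      apply mul_nonneg h1.le
      linarith
    calc MoB k * (1 + 3 ^ (k + 1)) = MoB k + 3 * (3 ^ k * MoB k) := by ring
      _ ≤ gM k 2 + 3 ^ k / 3 * gM k 2 + 8 * (3 ^ k * MoB k) := by linarith
      _ = (1 + 3 ^ k / 3) * gM k 2 + 8 * 3 ^ k * MoB k := by ring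

theorem hi (k : ℕ) : gM k 2 ≤ 3 * MoB k := by
  induction k with
  | zero =>
    rw [MoB_zero]
    show (1 : ℝ) ≤ 3 * 1
    norm_num
  | succ k ih =>
    rw [z2, MoB_succ]
    have h1 : (0 : ℝ) ≤ 1 + 3 ^ k / 3 := by positivity
    have h2 := mul_le_mul_of_nonneg_left ih h1
    calc (1 + 3 ^ k / 3) * gM k 2 + 8 * 3 ^ k * MoB k
        ≤ (1 + 3 ^ k / 3) * (3 * MoB k) + 8 * 3 ^ k * MoB k := by linarith
      _ = 3 * (MoB k * (1 + 3 ^ (k + 1))) := by ring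

theorem sq1 (k : ℕ) : MoB (k + 1) ^ 2 ≤
    64 / 25 * (1 - 1 / (2 * 3 ^ (k + 1))) ^ 2 * 3 ^ ((k + 1) * (k + 2)) := by
  induction k with
  | zero =>
    rw [MoB_succ, MoB_zero]
    norm_num
  | succ k ih =>
    rw [MoB_succ, mul_pow]
    obtain ⟨y, hy⟩ : ∃ y : ℝ, y = 3 ^ (k + 1) := ⟨_, rfl⟩
    have hy1 : 1 ≤ y := by
      rw [hy]
      exact one_le_pow₀ (by norm_num)
    have e1 : (3 : ℝ) ^ (k + 1 + 1) = 3 * y := by rw [pow_succ, hy]; ring
    have e2 : (3 : ℝ) ^ ((k + 1 + 1) * (k + 1 + 2)) = 3 ^ ((k + 1) * (k + 2)) * (3 * y) ^ 2 := by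
      rw [hy, mul_pow, ← pow_mul, ← mul_assoc, ← pow_add, ← pow_add]
      congr 1
      ring
    rw [e2, e1]
    rw [← hy] at ih
    have h3 : (0 : ℝ) ≤ (1 + 3 * y) ^ 2 := sq_nonneg _
    have h4 := mul_le_mul_of_nonneg_right ih h3
    refine h4.trans ?_
    have h5 : (0 : ℝ) ≤ 3 ^ ((k + 1) * (k + 2)) := by positivity
    have h6 : (1 - 1 / (2 * y)) * (1 + 3 * y) ≤ (1 - 1 / (2 * (3 * y))) * (3 * y) := by
      have e3 : (1 - 1 / (2 * y)) * (1 + 3 * y) = 3 * y - 1 / 2 - 1 / (2 * y) := by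
        field_simp
        ring
      have e4 : (1 - 1 / (2 * (3 * y))) * (3 * y) = 3 * y - 1 / 2 := by
        field_simp
      rw [e3, e4]
      have : 0 ≤ 1 / (2 * y) := by positivity
      linarith
    have h7 : 0 ≤ (1 - 1 / (2 * y)) * (1 + 3 * y) := by
      apply mul_nonneg
      · have : 1 / (2 * y) ≤ 1 := by
          rw [div_le_one (by positivity)]
          linarith
        linarith
      · positivity
    have h8 := pow_le_pow_left₀ h7 h6 2
    have h9 := mul_le_mul_of_nonneg_left h8 h5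
    calc 64 / 25 * (1 - 1 / (2 * y)) ^ 2 * 3 ^ ((k + 1) * (k + 2)) * (1 + 3 * y) ^ 2
        = 64 / 25 * (3 ^ ((k + 1) * (k + 2)) * ((1 - 1 / (2 * y)) * (1 + 3 * y)) ^ 2) := by ring
      _ ≤ 64 / 25 * (3 ^ ((k + 1) * (k + 2)) * ((1 - 1 / (2 * (3 * y))) * (3 * y)) ^ 2) := by
          linarith
      _ = 64 / 25 * (1 - 1 / (2 * (3 * y))) ^ 2 * (3 ^ ((k + 1) * (k + 2)) * (3 * y) ^ 2) := by
          ring

theorem sq (k : ℕ) : MoB k ^ 2 ≤ 64 / 25 * 3 ^ (k * (k + 1)) := by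
  cases k with
  | zero =>
    rw [MoB_zero]
    norm_num
  | succ k =>
    refine (sq1 k).trans ?_
    have h1 : (0 : ℝ) ≤ 3 ^ ((k + 1) * (k + 2)) := by positivity
    have h2 : (0 : ℝ) < 1 / (2 * 3 ^ (k + 1)) := by positivity
    have h3 : (1 : ℝ) / (2 * 3 ^ (k + 1)) ≤ 1 := by
      rw [div_le_one (by positivity)]
      have : (1 : ℝ) ≤ 3 ^ (k + 1) := one_le_pow₀ (by norm_num)
      linarith
    have h4 : (1 - 1 / (2 * 3 ^ (k + 1)) : ℝ) ^ 2 ≤ 1 := by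
      apply pow_le_one₀
      · linarith
      · linarith
    have h5 := mul_le_mul_of_nonneg_right h4 h1
    calc (64 : ℝ) / 25 * (1 - 1 / (2 * 3 ^ (k + 1))) ^ 2 * 3 ^ ((k + 1) * (k + 2))
        = 64 / 25 * ((1 - 1 / (2 * 3 ^ (k + 1))) ^ 2 * 3 ^ ((k + 1) * (k + 2))) := by ring
      _ ≤ 64 / 25 * (1 * 3 ^ ((k + 1) * (k + 2))) := by linarith
      _ = 64 / 25 * 3 ^ ((k + 1) * (k + 1 + 1)) := by ring

end GMB

open _root_.Pool.Agent.PTK.GMB in
theorem GMB_thm : Stmt_GMB := by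
  refine ⟨z0, z1, lo, hi, ?_, one_le, ?_, sq⟩
  · rw [gM_succ]
    show (1 + 3 ^ (0 + 1) / 3 ^ 2) * (1 : ℝ) + (3 ^ 2 - 1) * 3 ^ 0 * 1 = 28 / 3
    norm_num
  · rw [MoB_succ, MoB_zero]
    norm_num

end Pool.Agent.PTK

end

section

/-!
# PTK_IF2: `(x, α_b) = (x, k_0) + (w, x)`
-/

set_option autoImplicit false

namespace Pool.Agent.PTK

open Pool.Agent.Lib_helper18 Pool.Agent.Lib_helper18.Eis Pool.Agent.Lib_helper84.Cub
open Pool.Agent.PT hiding IF2

namespace IF2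

theorem not_dvd {π a : Eis} (hπ : Prime π) (ha : a ≠ 0) {N : ℕ} (hN : V π a < N) :
    ¬ π ^ N ∣ a := by
  intro h
  have h1 := (fin hπ ha).le_multiplicity_of_pow_dvd h
  unfold V at hN
  omega

theorem near_ne {π a a' : Eis} (hπ : Prime π) (ha : a ≠ 0) {N : ℕ} (hN : V π a < N)
    (h : π ^ N ∣ a' - a) : a' ≠ 0 := by
  rintro rfl
  rw [zero_sub, dvd_neg] at h
  exact not_dvd hπ ha hN h

theorem wi_cube (i : ℕ) : (w ^ i) ^ 3 = 1 := by
  rw [← pow_mul, mul_comm, pow_mul, w_cube, one_pow]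

theorem w_ne : w ≠ 0 := by
  intro h
  have := congrArg Eis.im h
  simp at this

/-- each linear form divides the norm form -/
theorem form_dvd (X Y ξ : Eis) (i : ℕ) : X + w ^ i * ξ * Y ∣ X ^ 3 + ξ ^ 3 * Y ^ 3 := by
  refine ⟨X ^ 2 - X * (w ^ i * ξ * Y) + (w ^ i * ξ * Y) ^ 2, ?_⟩
  have h := wi_cube i
  have : (X + w ^ i * ξ * Y) * (X ^ 2 - X * (w ^ i * ξ * Y) + (w ^ i * ξ * Y) ^ 2) =
      X ^ 3 + (w ^ i) ^ 3 * ξ ^ 3 * Y ^ 3 := by ring
  rw [this, h, one_mul]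

theorem form_prod (X Y ξ : Eis) : (X + w ^ 0 * ξ * Y) * (X + w ^ 1 * ξ * Y) *
    (X + w ^ 2 * ξ * Y) = X ^ 3 + ξ ^ 3 * Y ^ 3 := by
  linear_combination (X ^ 2 * ξ * Y + X * ξ ^ 2 * Y ^ 2 * w) * w_rel +
    (ξ ^ 3 * Y ^ 3) * w_cube

section

variable {π : Eis} {s : Eis → Eis → ZMod 3} {e : ℕ}

theorem mul_right (hS : LSym π s e) {a b c : Eis} (ha : a ≠ 0) (hb : b ≠ 0) (hc : c ≠ 0) :
    s c (a * b) = s c a + s c b := by
  rw [hS.skew (a * b) c (mul_ne_zero ha hb) hc, hS.mul a b c ha hb hc, hS.skew c a hc ha,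
    hS.skew c b hc hb]
  ring

theorem cont_right (hS : LSym π s e) {a a' b : Eis} (ha : a ≠ 0) (ha' : a' ≠ 0) (hb : b ≠ 0)
    (h : π ^ (V π a + e) ∣ a' - a) : s b a' = s b a := by
  rw [hS.skew a' b ha' hb, hS.cont a a' b ha hb h, hS.skew b a hb ha]
  ring

end

end IF2

open _root_.Pool.Agent.PTK.IF2 in
theorem IF2_thm (hSTAR : STAR) : Stmt_IF2 := by
  intro π s e hS b x p q p' q' hb hx hsol
  set n0 : Eis := p' ^ 3 + b * q' ^ 3 with hn0def
  set g0 : Eis := p ^ 3 + b * q ^ 3 with hg0def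
  have hg0 : g0 = x * n0 := by
    rw [hn0def, hg0def]
    exact hsol.eq
  have hg0ne : g0 ≠ 0 := by
    rw [hg0def]
    exact hsol.n1
  have hn0ne : n0 ≠ 0 := by
    intro h
    apply hg0ne
    rw [hg0, h, mul_zero]
  have hxe : x ≠ 0 := hx
  have hbe : b ≠ 0 := hb
  have hD1 := hsol.g1
  have hD2 := hsol.g2
  refine ⟨V π b + V π n0 + V π g0 + e + 1, ?_⟩
  intro r hr
  set N0 := V π b + V π n0 + V π g0 + e + 1 with hN0
  have hr0 : r ≠ 0 := by
    rintro h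
    have : r ^ 3 ≠ 0 := near_ne hS.prime hbe (by omega) hr
    exact this (by rw [h]; ring)
  have hFdvd : π ^ N0 ∣ (p' ^ 3 + r ^ 3 * q' ^ 3) - n0 := by
    have : (p' ^ 3 + r ^ 3 * q' ^ 3) - n0 =
        (r ^ 3 - b) * q' ^ 3 := by rw [hn0def]; ring
    rw [this]
    exact hr.mul_right _
  have hGdvd : π ^ N0 ∣ (p ^ 3 + r ^ 3 * q ^ 3) - g0 := by
    have : (p ^ 3 + r ^ 3 * q ^ 3) - g0 =
        (r ^ 3 - b) * q ^ 3 := by rw [hg0def]; ring
    rw [this]
    exact hr.mul_right _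
  set n1 : Eis := p' ^ 3 + r ^ 3 * q' ^ 3 with hn1
  set g1 : Eis := p ^ 3 + r ^ 3 * q ^ 3 with hg1
  have hn1ne : n1 ≠ 0 := near_ne hS.prime hn0ne (by omega) hFdvd
  have hg1ne : g1 ≠ 0 := near_ne hS.prime hg0ne (by omega) hGdvd
  let F : ℕ → Eis := fun i => p' + w ^ i * r * q'
  let G : ℕ → Eis := fun i => p + w ^ i * r * q
  have hF : ∀ i, F i ≠ 0 := fun i => ne_zero_of_dvd_ne_zero hn1ne (form_dvd _ _ _ i)
  have hG : ∀ i, G i ≠ 0 := fun i => ne_zero_of_dvd_ne_zero hg1ne (form_dvd _ _ _ i)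
  have hFL : ∀ i, LfE p' q' i r = F i := fun i => by unfold LfE; ring
  have hGL : ∀ i, LfE p q i r = G i := fun i => by unfold LfE; ring
  have hFp : F 0 * F 1 * F 2 = n1 := form_prod _ _ _
  have hGp : G 0 * G 1 * G 2 = g1 := form_prod _ _ _
  -- replace `n1`, `g1` by the integers `n0`, `g0`
  have cn : ∀ c : Eis, c ≠ 0 → s c n1 = s c n0 := fun c hc =>
    cont_right hS hn0ne hn1ne hc ((pow_dvd_pow π (by omega)).trans hFdvd)
  have cn' : ∀ c : Eis, c ≠ 0 → s n1 c = s n0 c := fun c hc =>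
    hS.cont _ _ _ hn0ne hc ((pow_dvd_pow π (by omega)).trans hFdvd)
  have cg : ∀ c : Eis, c ≠ 0 → s c g1 = s c x + s c n0 := fun c hc => by
    rw [cont_right hS hg0ne hg1ne hc ((pow_dvd_pow π (by omega)).trans hGdvd), hg0,
      mul_right hS hxe hn0ne hc]
  obtain ⟨s1, s2⟩ := hSTAR π s e hS p' q' p q r F G
    (GfE p q p' q') (fun i => rfl) (fun i => rfl) (fun i => by unfold GfE; ring) hr0 hF
  obtain ⟨t1, _⟩ := hSTAR π s e hS p q p q r G G
    (fun i => p * q - w ^ i * p * q) (fun i => rfl) (fun i => rfl) (fun i => rfl) hr0 hG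
  have s3 := s2 hG hD1 hD2
  rw [hFp, cn _ (hF 1), cn _ (hF 2), cn _ w_ne] at s1
  rw [hGp, cg _ (hG 1), cg _ (hG 2), cg _ w_ne] at t1
  rw [hFp, hGp, cg _ hD1, cg _ hD2, cn _ hD1, cn _ hD2, cn _ w_ne, cn' _ (hG 2), cn' _ (hG 1),
    cg _ (hF 1), cg _ (hF 2), hS.skew _ _ (hG 2) hn0ne, hS.skew _ _ (hG 1) hn0ne] at s3
  unfold ASE
  rw [hFL, hFL, hGL, hGL, hS.skew _ _ (hG 2) hxe, hS.skew _ _ (hF 1) hxe, hS.skew _ _ (hG 1) hxe,
    hS.skew _ _ (hF 2) hxe, hS.skew _ _ hD1 hxe, hS.skew _ _ hD2 hxe]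
  have h3 : (3 : ZMod 3) = 0 := rfl
  linear_combination s3 + s1 + t1 + s w n0 * h3

end Pool.Agent.PTK

end

section

/-!
# PTK_LKN: the class of `9 (s - y₀)(x₀ + y₀)(x₀² - x₀ y₀ + y₀²)²` at `3`
-/

set_option autoImplicit false

namespace Pool.Agent.PTK

open Pool.Agent.Lib_helper18 Pool.Agent.Lib_helper18.Eis Pool.Agent.Lib_helper84.Cub
open Pool.Agent.PT Pool.Agent.PTE Pool.Agent.PT3

namespace LKN

theorem three0 : (3 : ZMod 3) = 0 := by decide

theorem ne_zero_of {b : ℤ} (hb : ¬ (3 : ℤ) ∣ b) : b ≠ 0 := by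
  rintro rfl
  exact hb (dvd_zero _)

theorem unit {b : ℤ} (hb : ¬ (3 : ℤ) ∣ b) : lv b = 0 ∧ lw b = wt (b ^ 2) := by
  have h := PT3.LCL.spec (b := b) (k := 0) (c := b) (by ring) hb
  simpa using h

theorem mul {a b : ℤ} (ha : a ≠ 0) (hb : b ≠ 0) :
    lv (a * b) = lv a + lv b ∧ lw (a * b) = lw a + lw b := PT3.LCL.mul_spec ha hb

theorem lw_add {x : ℤ} (j : ℤ) (hx : ¬ (3 : ℤ) ∣ x) :
    lv (x + 3 * j) = 0 ∧ lw (x + 3 * j) = lw x + 2 * (x : ZMod 3) * (j : ZMod 3) := by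
  have h1 : ¬ (3 : ℤ) ∣ x + 3 * j := by omega
  obtain ⟨a, b⟩ := unit h1
  refine ⟨a, ?_⟩
  rw [b, (unit hx).2]
  obtain ⟨k, hk⟩ : ∃ k, x ^ 2 = 1 + 3 * k := ⟨x ^ 2 / 3, by
    have := sq_mod_three hx
    omega⟩
  rw [wt_eq hk, wt_eq (k := k + 2 * x * j + 3 * j ^ 2) (by linear_combination hk)]
  push_cast
  rw [three0]
  ring

theorem lw_neg {x : ℤ} (hx : ¬ (3 : ℤ) ∣ x) : lv (-x) = 0 ∧ lw (-x) = lw x := by
  have h1 : ¬ (3 : ℤ) ∣ -x := by omega
  obtain ⟨a, b⟩ := unit h1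
  refine ⟨a, ?_⟩
  rw [b, (unit hx).2, neg_sq]

theorem cont {b : ℤ} (hb : b ≠ 0) : ∃ N : ℕ, ∀ c : ℤ, (3 : ℤ) ^ N ∣ c - b →
    c ≠ 0 ∧ lv c = lv b ∧ lw c = lw b := by
  obtain ⟨k, u, hu, hu3⟩ := PT3.LCL.split hb
  refine ⟨k + 2, fun c hc => ?_⟩
  obtain ⟨d, hd⟩ := hc
  have h1 : c = 3 ^ k * (u + 3 * (3 * d)) := by
    have h0 : c = b + 3 ^ (k + 2) * d := by linear_combination hd
    rw [h0, hu]
    ring
  have h2 : ¬ (3 : ℤ) ∣ u + 3 * (3 * d) := by omega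
  obtain ⟨a1, a2⟩ := PT3.LCL.spec h1 h2
  obtain ⟨b1, b2⟩ := PT3.LCL.spec hu hu3
  refine ⟨?_, by rw [a1, b1], ?_⟩
  · rw [h1]
    exact mul_ne_zero (pow_ne_zero _ (by norm_num)) (ne_zero_of h2)
  · rw [a2, b2, ← (unit h2).2, (lw_add _ hu3).2, (unit hu3).2]
    push_cast
    rw [three0]
    ring

theorem l_three : lv 3 = 1 ∧ lw 3 = 0 := by
  have h := PT3.LCL.spec (b := 3) (k := 1) (c := 1) (by ring) (by norm_num)
  refine ⟨by simpa using h.1, ?_⟩
  rw [h.2, one_pow]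
  exact wt_one

theorem l_nine : lv 9 = 2 ∧ lw 9 = 0 := by
  have h := PT3.LCL.spec (b := 9) (k := 2) (c := 1) (by ring) (by norm_num)
  refine ⟨by simpa using h.1, ?_⟩
  rw [h.2, one_pow]
  exact wt_one

/-- the class of the number -/
theorem num {a b c : ℤ} (ha : a ≠ 0) (hb : b ≠ 0) (hc : c ≠ 0) :
    lv (9 * a * b * c ^ 2) = 2 + lv a + lv b + 2 * lv c ∧
      lw (9 * a * b * c ^ 2) = lw a + lw b + 2 * lw c := by
  obtain ⟨e1, e2⟩ := mul (a := 9) (by norm_num) ha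
  have h9a : 9 * a ≠ 0 := mul_ne_zero (by norm_num) ha
  obtain ⟨e3, e4⟩ := mul h9a hb
  obtain ⟨e5, e6⟩ := mul hc hc
  obtain ⟨e7, e8⟩ := mul (mul_ne_zero h9a hb) (mul_ne_zero hc hc)
  rw [pow_two, e7, e8, e3, e4, e1, e2, e5, e6, l_nine.1, l_nine.2]
  constructor <;> ring

theorem wt16 : wt (4 ^ 2) = 2 := by
  unfold wt
  norm_num
  decide

section
variable (hSLE : SLE)
include hSLE

theorem s1 {g h : ℤ} (hg : ¬ (3 : ℤ) ∣ g) (hh : (3 : ℤ) ∣ h) :
    sl ((g : Eis) + h * w) 4 = 0 ∧ sl ((g : Eis) + h * w) 3 = ((g * (h / 3) : ℤ) : ZMod 3) := by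
  have h4 := (hSLE g h 4 0 (by norm_num)).1 hg hh
  have h3 := (hSLE g h 1 1 (by norm_num)).1 hg hh
  constructor
  · simpa using h4
  · simpa using h3

theorem s2 {g h : ℤ} (hg : (3 : ℤ) ∣ g) (hh : ¬ (3 : ℤ) ∣ h) :
    sl ((g : Eis) + h * w) 4 = 1 ∧ sl ((g : Eis) + h * w) 3 = - ((h * (g / 3) : ℤ) : ZMod 3) := by
  have h4 := (hSLE g h 4 0 (by norm_num)).2.1 hg hh
  have h3 := (hSLE g h 1 1 (by norm_num)).2.1 hg hh
  constructor
  · rw [wt16] at h4
    have e : ((3 ^ 0 * 4 : ℤ) : Eis) = 4 := by norm_num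
    rw [e] at h4
    rw [h4]
    simp
    decide
  · have e : ((3 ^ 1 * 1 : ℤ) : Eis) = 3 := by norm_num
    rw [e, one_pow, wt_one] at h3
    rw [h3]
    simp

theorem s3 {g h : ℤ} (hh : ¬ (3 : ℤ) ∣ h) (hg : (3 : ℤ) ∣ g - h) :
    sl ((g : Eis) + h * w) 4 = 2 ∧
      sl ((g : Eis) + h * w) 3 = - ((h * ((g - h) / 3) : ℤ) : ZMod 3) := by
  have h4 := (hSLE g h 4 0 (by norm_num)).2.2 hh hg
  have h3 := (hSLE g h 1 1 (by norm_num)).2.2 hh hg
  constructor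
  · rw [wt16] at h4
    have e : ((3 ^ 0 * 4 : ℤ) : Eis) = 4 := by norm_num
    rw [e] at h4
    rw [h4]
    simp
  · have e : ((3 ^ 1 * 1 : ℤ) : Eis) = 3 := by norm_num
    rw [e, one_pow, wt_one] at h3
    rw [h3]
    simp

end

theorem zeta (x y : ℤ) : w ^ 2 * (((x : Eis) + w * y) * ((x : Eis) + w ^ 2 * y) ^ 2) =
    ((-((x ^ 2 - x * y + y ^ 2) * x) : ℤ) : Eis) + (((x ^ 2 - x * y + y ^ 2) * (y - x) : ℤ) : Eis) * w := by
  rw [w_sq, pow_two (((x : Eis) + (-1 - w) * y))]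
  ext
  · simp only [mul_re, mul_im, add_re, add_im, sub_re, sub_im, neg_re, neg_im, one_re, one_im,
      w_re, w_im, intCast_re, intCast_im]
    ring
  · simp only [mul_re, mul_im, add_re, add_im, sub_re, sub_im, neg_re, neg_im, one_re, one_im,
      w_re, w_im, intCast_re, intCast_im]
    ring

theorem lam_eq : lam = 1 - w := by decide

theorem zetaC (x a : ℤ) : w ^ 2 * (((x : Eis) + w * ((9 * a - x : ℤ) : Eis)) *
      ((x : Eis) + w ^ 2 * ((9 * a - x : ℤ) : Eis)) ^ 2) =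
    lam ^ 3 * (((x ^ 3 - 15 * a * x ^ 2 + 81 * a ^ 2 * x - 162 * a ^ 3 : ℤ) : Eis) +
      ((3 * (-(a * x ^ 2) + 9 * a ^ 2 * x - 27 * a ^ 3) : ℤ) : Eis) * w) := by
  have e3 : ∀ z : Eis, z ^ 3 = z * z * z := fun z => by ring
  rw [w_sq, lam_eq, pow_two ((x : Eis) + (-1 - w) * ((9 * a - x : ℤ) : Eis)), e3 (1 - w)]
  ext
  · simp only [mul_re, mul_im, add_re, add_im, sub_re, sub_im, neg_re, neg_im, one_re, one_im,
      w_re, w_im, intCast_re, intCast_im]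
    ring
  · simp only [mul_re, mul_im, add_re, add_im, sub_re, sub_im, neg_re, neg_im, one_re, one_im,
      w_re, w_im, intCast_re, intCast_im]
    ring

theorem sq_one {x : ℤ} (hx : ¬ (3 : ℤ) ∣ x) : (x : ZMod 3) ^ 2 = 1 := by
  have h : (x : ZMod 3) ≠ 0 := by
    rw [Ne, ZMod.intCast_zmod_eq_zero_iff_dvd]
    exact hx
  revert h
  generalize (x : ZMod 3) = X
  revert X
  decide

/-- cube roots of units modulo `27` -/
theorem root {x s : ℤ} (hx : ¬ (3 : ℤ) ∣ x) (h : (27 : ℤ) ∣ s ^ 3 - x ^ 3) :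
    ∃ e : ℤ, s = x + 9 * e := by
  have h1 : (3 : ℤ) ∣ s - x := by
    have h2 : ((s ^ 3 - x ^ 3 : ℤ) : ZMod 3) = 0 :=
      (ZMod.intCast_zmod_eq_zero_iff_dvd _ 3).2 ((by norm_num : (3 : ℤ) ∣ 27).trans h)
    have h3 : ((s - x : ℤ) : ZMod 3) = 0 := by
      push_cast at h2 ⊢
      revert h2
      generalize (s : ZMod 3) = S
      generalize (x : ZMod 3) = X
      revert S X
      decide
    exact (ZMod.intCast_zmod_eq_zero_iff_dvd _ 3).1 h3
  obtain ⟨e, he⟩ := h1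
  obtain ⟨f, hf⟩ := h
  have h4 : s = x + 3 * e := by linear_combination he
  have h5 : (3 : ℤ) ∣ x ^ 2 * e := by
    refine ⟨f - x * e ^ 2 - e ^ 3, ?_⟩
    rw [h4] at hf
    have h6 : 9 * (x ^ 2 * e) = 9 * (3 * (f - x * e ^ 2 - e ^ 3)) := by linear_combination hf
    exact mul_left_cancel₀ (by norm_num) h6
  have h6 : (3 : ℤ) ∣ e := by
    rcases Int.prime_three.dvd_or_dvd h5 with h7 | h7
    · exact absurd (Int.prime_three.dvd_of_dvd_pow h7) hx
    · exact h7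
  obtain ⟨e', he'⟩ := h6
  exact ⟨e', by rw [h4, he']; ring⟩

end LKN

open _root_.Pool.Agent.PTK.LKN

theorem LKN_thm (hSSL : SSL) (hSREC : SREC) : Stmt_LKN := by
  have hSLE : SLE := SLE_thm hSSL hSREC
  intro x y hco hx0 hy0 hxy0 hB1 hB2
  obtain ⟨N, hN⟩ := cont (pow_ne_zero 3 hx0)
  refine ⟨N + 4, fun s hs hsy => ?_⟩
  have hsy' : s - y ≠ 0 := sub_ne_zero.2 hsy
  have hs81 : (81 : ℤ) ∣ s ^ 3 - (x ^ 3 + y ^ 3) := by
    have h1 : (81 : ℤ) = 3 ^ 4 := by norm_num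
    rw [h1]
    exact (pow_dvd_pow 3 (by omega)).trans hs
  have hsN : (3 : ℤ) ^ N ∣ s ^ 3 - (x ^ 3 + y ^ 3) := (pow_dvd_pow 3 (by omega)).trans hs
  have hcube : ∀ a : ZMod 3, 3 * a = 0 := fun a => by rw [three0, zero_mul]
  by_cases hy3 : (3 : ℤ) ∣ y
  · -- case A
    obtain ⟨t, rfl⟩ := hy3
    have hx3 : ¬ (3 : ℤ) ∣ x := by
      intro h
      have h1 := hco.isUnit_of_dvd' h (dvd_mul_right 3 t)
      revert h1
      decide
    obtain ⟨e, rfl⟩ : ∃ e : ℤ, s = x + 9 * e := by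
      apply root hx3
      have h1 : s ^ 3 - x ^ 3 = (s ^ 3 - (x ^ 3 + (3 * t) ^ 3)) + 27 * t ^ 3 := by ring
      rw [h1]
      exact dvd_add ((by norm_num : (27 : ℤ) ∣ 81).trans hs81) (dvd_mul_right _ _)
    set n : ℤ := x ^ 2 - x * (3 * t) + (3 * t) ^ 2 with hn
    have hxx : ¬ (3 : ℤ) ∣ x * x := PT3.LCL.not_dvd_mul hx3 hx3
    have hn' : n = x * x + 3 * (-(x * t) + 3 * t ^ 2) := by
      rw [hn]
      ring
    have hn3 : ¬ (3 : ℤ) ∣ n := by
      rw [hn']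
      omega
    obtain ⟨a1, a2⟩ := num hsy' hxy0 (ne_zero_of hn3)
    obtain ⟨b1, b2⟩ := lw_add (3 * e - t) hx3
    obtain ⟨c1, c2⟩ := lw_add t hx3
    obtain ⟨d1, d2⟩ := lw_add (-(x * t) + 3 * t ^ 2) hxx
    have e1 : x + 9 * e - 3 * t = x + 3 * (3 * e - t) := by ring
    obtain ⟨f1, f2⟩ := mul (ne_zero_of hx3) (ne_zero_of hx3)
    have hh3 : ¬ (3 : ℤ) ∣ n * (3 * t - x) := PT3.LCL.not_dvd_mul hn3 (by omega)
    have hgh : -(n * x) - n * (3 * t - x) = 3 * (-(n * t)) := by ring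
    obtain ⟨g1, g2⟩ := s3 hSLE (g := -(n * x)) hh3 ⟨_, hgh⟩
    rw [hgh, Int.mul_ediv_cancel_left _ (by norm_num)] at g2
    rw [zeta x (3 * t), ← hn, g1, g2, a1, a2, e1, b1, b2, c1, c2, hn', d1, d2, f2]
    have hX := sq_one hx3
    constructor
    · ring
    · push_cast
      rw [three0]
      generalize (x : ZMod 3) = X at hX ⊢
      generalize (t : ZMod 3) = T
      generalize (e : ZMod 3) = E
      generalize lw x = L
      revert hX
      revert X T E L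
      decide
  · by_cases hx3 : (3 : ℤ) ∣ x
    · -- case B
      obtain ⟨t, rfl⟩ := hx3
      obtain ⟨e, rfl⟩ : ∃ e : ℤ, s = y + 9 * e := by
        apply root hy3
        have h1 : s ^ 3 - y ^ 3 = (s ^ 3 - ((3 * t) ^ 3 + y ^ 3)) + 27 * t ^ 3 := by ring
        rw [h1]
        exact dvd_add ((by norm_num : (27 : ℤ) ∣ 81).trans hs81) (dvd_mul_right _ _)
      set n : ℤ := (3 * t) ^ 2 - (3 * t) * y + y ^ 2 with hn
      have hyy : ¬ (3 : ℤ) ∣ y * y := PT3.LCL.not_dvd_mul hy3 hy3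
      have hn' : n = y * y + 3 * (-(t * y) + 3 * t ^ 2) := by
        rw [hn]
        ring
      have hn3 : ¬ (3 : ℤ) ∣ n := by
        rw [hn']
        omega
      obtain ⟨a1, a2⟩ := num hsy' hxy0 (ne_zero_of hn3)
      obtain ⟨c1, c2⟩ := lw_add t hy3
      obtain ⟨d1, d2⟩ := lw_add (-(t * y) + 3 * t ^ 2) hyy
      obtain ⟨f1, f2⟩ := mul (ne_zero_of hy3) (ne_zero_of hy3)
      have e1 : 3 * t + y = y + 3 * t := by ring
      -- the difference
      obtain ⟨k0, k1, k2⟩ := hN ((y + 9 * e - y) * (3 * (y * y + 3 * (3 * e * y + 9 * e ^ 2)))) (by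
        have h1 : (y + 9 * e - y) * (3 * (y * y + 3 * (3 * e * y + 9 * e ^ 2))) - (3 * t) ^ 3 =
            (y + 9 * e) ^ 3 - ((3 * t) ^ 3 + y ^ 3) := by ring
        rw [h1]
        exact hsN)
      have hu : ¬ (3 : ℤ) ∣ y * y + 3 * (3 * e * y + 9 * e ^ 2) := by omega
      obtain ⟨m1, m2⟩ := mul hsy' (mul_ne_zero (by norm_num : (3 : ℤ) ≠ 0) (ne_zero_of hu))
      obtain ⟨m3, m4⟩ := mul (by norm_num : (3 : ℤ) ≠ 0) (ne_zero_of hu)
      obtain ⟨m5, m6⟩ := lw_add (3 * e * y + 9 * e ^ 2) hyy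
      obtain ⟨m7, m8⟩ := mul hx0 hx0
      obtain ⟨m9, m10⟩ := mul hx0 (mul_ne_zero hx0 hx0)
      have e3 : (3 * t) ^ 3 = 3 * t * (3 * t * (3 * t)) := by ring
      rw [m1, m3, l_three.1, m5, e3, m9, m7] at k1
      rw [m2, m4, l_three.2, m6, e3, m10, m8, f2] at k2
      have hgh : -(n * (3 * t)) = 3 * (-(n * t)) := by ring
      have hh3 : ¬ (3 : ℤ) ∣ n * (y - 3 * t) := PT3.LCL.not_dvd_mul hn3 (by omega)
      obtain ⟨g1, g2⟩ := s2 hSLE (g := -(n * (3 * t))) ⟨_, hgh⟩ hh3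
      rw [hgh, Int.mul_ediv_cancel_left _ (by norm_num)] at g2
      rw [hgh] at g1
      rw [zeta (3 * t) y, ← hn, hgh, g1, g2, a1, a2, e1, c1, c2, hn', d1, d2, f2]
      have hX := sq_one hy3
      generalize lv (y + 9 * e - y) = U at k1 ⊢
      generalize lw (y + 9 * e - y) = W at k2 ⊢
      generalize lv (3 * t) = U' at k1
      generalize lw (3 * t) = W' at k2
      constructor
      · revert k1
        revert U U'
        decide
      · push_cast at k2 ⊢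
        rw [three0] at k2 ⊢
        generalize (y : ZMod 3) = Y at hX k2 ⊢
        generalize (t : ZMod 3) = T
        generalize (e : ZMod 3) = E at k2
        generalize lw y = L at k2 ⊢
        have k3 : W = L := by
          revert k2
          revert W L E Y W'
          decide
        clear k2
        subst k3
        revert hX
        revert Y T W
        decide
    · -- case C
      -- `3` divides `x + y`
      have hxy3 : (3 : ℤ) ∣ x + y := by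
        by_contra hc
        have h1 : (3 : ℤ) ∣ y - x := by
          have h2 : x % 3 = 1 ∨ x % 3 = 2 := by omega
          have h3 : y % 3 = 1 ∨ y % 3 = 2 := by omega
          rcases h2 with h2 | h2 <;> rcases h3 with h3 | h3 <;> omega
        obtain ⟨j, hj⟩ := h1
        have hxxx : ¬ (3 : ℤ) ∣ 2 * (x * (x * x)) := by
          have h2 := PT3.LCL.not_dvd_mul hx3 (PT3.LCL.not_dvd_mul hx3 hx3)
          exact PT3.LCL.not_dvd_mul (by norm_num) h2
        have h2 : x ^ 3 + y ^ 3 = 2 * (x * (x * x)) + 3 * (3 * (x ^ 2 * j + 3 * x * j ^ 2 + 3 * j ^ 3)) := by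
          have h3 : y = x + 3 * j := by linear_combination hj
          rw [h3]
          ring
        have hx1 := ne_zero_of hx3
        obtain ⟨p1, p2⟩ := lw_add (3 * (x ^ 2 * j + 3 * x * j ^ 2 + 3 * j ^ 3)) hxxx
        obtain ⟨q1, q2⟩ := mul (by norm_num : (2 : ℤ) ≠ 0) (mul_ne_zero hx1 (mul_ne_zero hx1 hx1))
        obtain ⟨q3, q4⟩ := mul hx1 (mul_ne_zero hx1 hx1)
        obtain ⟨q5, q6⟩ := mul hx1 hx1
        have q7 : lw 2 = 1 := by
          rw [(unit (by norm_num : ¬ (3 : ℤ) ∣ 2)).2]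
          unfold wt
          norm_num
        rw [h2, p2, q2, q4, q6, q7] at hB2
        push_cast at hB2
        rw [three0] at hB2
        generalize lw x = L at hB2
        generalize (x : ZMod 3) = X at hB2
        generalize (j : ZMod 3) = J at hB2
        revert hB2
        revert L X J
        decide
      obtain ⟨a₂, ha₂⟩ := hxy3
      obtain rfl : y = 3 * a₂ - x := by linear_combination ha₂
      have hm3 : ¬ (3 : ℤ) ∣ x * x := PT3.LCL.not_dvd_mul hx3 hx3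
      -- `9` divides `x + y`
      have hnn : x ^ 2 - x * (3 * a₂ - x) + (3 * a₂ - x) ^ 2 =
          3 * (x * x + 3 * (a₂ ^ 2 - a₂ * x)) := by ring
      have hu3 : ¬ (3 : ℤ) ∣ x * x + 3 * (a₂ ^ 2 - a₂ * x) := by omega
      have hx1 := ne_zero_of hx3
      have ha0 : a₂ ≠ 0 := by
        rintro rfl
        apply hxy0
        ring
      have hBn : x ^ 3 + (3 * a₂ - x) ^ 3 = (3 * a₂) * (3 * (x * x + 3 * (a₂ ^ 2 - a₂ * x))) := by
        ring
      have h3a : 3 * a₂ ≠ 0 := mul_ne_zero (by norm_num) ha0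
      obtain ⟨p1, p2⟩ := mul h3a (mul_ne_zero (by norm_num : (3 : ℤ) ≠ 0) (ne_zero_of hu3))
      obtain ⟨p3, p4⟩ := mul (by norm_num : (3 : ℤ) ≠ 0) ha0
      obtain ⟨p5, p6⟩ := mul (by norm_num : (3 : ℤ) ≠ 0) (ne_zero_of hu3)
      obtain ⟨p7, p8⟩ := lw_add (a₂ ^ 2 - a₂ * x) hm3
      have hlv : lv a₂ = 1 := by
        rw [hBn, p1, p3, p5, p7, l_three.1] at hB1
        generalize lv a₂ = U at hB1
        revert hB1
        revert U
        decide
      have h3a₂ : (3 : ℤ) ∣ a₂ := by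
        by_contra hc
        rw [(unit hc).1] at hlv
        revert hlv
        decide
      obtain ⟨a, rfl⟩ := h3a₂
      -- the cube root
      obtain ⟨d, hd⟩ := hs81
      have hs3 : (3 : ℤ) ∣ s := by
        apply Int.prime_three.dvd_of_dvd_pow (n := 3)
        refine ⟨27 * d + 9 * a * (x * x + 3 * ((3 * a) ^ 2 - 3 * a * x)), ?_⟩
        linear_combination hd
      obtain ⟨s', rfl⟩ := hs3
      have hs' : (s' : ZMod 3) = (a : ZMod 3) * (x : ZMod 3) ^ 2 := by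
        have h1 : s' ^ 3 = a * (x * x + 3 * ((3 * a) ^ 2 - 3 * a * x)) + 3 * d := by
          have h2 : 27 * s' ^ 3 = 27 * (a * (x * x + 3 * ((3 * a) ^ 2 - 3 * a * x)) + 3 * d) := by
            linear_combination hd
          exact mul_left_cancel₀ (by norm_num) h2
        have h2 := congrArg (Int.cast : ℤ → ZMod 3) h1
        push_cast at h2
        rw [three0] at h2
        generalize (s' : ZMod 3) = S at h2 ⊢
        generalize (x : ZMod 3) = X at h2 ⊢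
        generalize (a : ZMod 3) = A at h2 ⊢
        generalize (d : ZMod 3) = D at h2
        revert h2
        revert S X A D
        decide
      have hxn := sq_one hx3
      -- the numbers
      obtain ⟨a1, a2⟩ := num hsy' hxy0 (c := x ^ 2 - x * (3 * (3 * a) - x) + (3 * (3 * a) - x) ^ 2)
        (by rw [hnn]; exact mul_ne_zero (by norm_num) (ne_zero_of hu3))
      have e1 : 3 * s' - (3 * (3 * a) - x) = x + 3 * (s' - 3 * a) := by ring
      have e2 : x + (3 * (3 * a) - x) = 3 * (3 * a) := by ring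
      obtain ⟨b1, b2⟩ := lw_add (s' - 3 * a) hx3
      obtain ⟨f1, f2⟩ := mul hx1 hx1
      have hlw : lw (3 * (3 * a)) = lw x := by
        rw [hBn, p2, p6, p8, l_three.2, f2] at hB2
        push_cast at hB2
        rw [three0] at hB2
        generalize lw (3 * (3 * a)) = U at hB2 ⊢
        generalize lw x = L at hB2 ⊢
        generalize (x : ZMod 3) = X at hB2
        generalize (a : ZMod 3) = A at hB2
        revert hB2
        revert U L X A
        decide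
      have hlv2 : lv (3 * (3 * a)) = 2 := by
        rw [p3, hlv, l_three.1]
        decide
      have hg3 : ¬ (3 : ℤ) ∣ x ^ 3 - 15 * a * x ^ 2 + 81 * a ^ 2 * x - 162 * a ^ 3 := by
        have h1 : x ^ 3 - 15 * a * x ^ 2 + 81 * a ^ 2 * x - 162 * a ^ 3 =
            x * (x * x) + 3 * (-5 * a * x ^ 2 + 27 * a ^ 2 * x - 54 * a ^ 3) := by ring
        rw [h1]
        have h2 := PT3.LCL.not_dvd_mul hx3 hm3
        omega
      obtain ⟨g1, g2⟩ := s1 hSLE hg3 (dvd_mul_right (3 : ℤ) (-(a * x ^ 2) + 9 * a ^ 2 * x - 27 * a ^ 3))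
      rw [Int.mul_ediv_cancel_left _ (by norm_num)] at g2
      have hz0 : ((x ^ 3 - 15 * a * x ^ 2 + 81 * a ^ 2 * x - 162 * a ^ 3 : ℤ) : Eis) +
          ((3 * (-(a * x ^ 2) + 9 * a ^ 2 * x - 27 * a ^ 3) : ℤ) : Eis) * w ≠ 0 := by
        intro h
        have h1 := congrArg Eis.re h
        simp only [add_re, mul_re, intCast_re, intCast_im, w_re, w_im, zero_re] at h1
        apply ne_zero_of hg3
        linear_combination h1
      have hl0 : lam ≠ 0 := by decide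
      have hsl : ∀ (z c : Eis), z ≠ 0 → c ≠ 0 → sl (lam ^ 3 * z) c = sl z c := by
        intro z c hz hc
        have h3 : lam ^ 3 = lam * (lam * lam) := by ring
        rw [h3, hSSL.1 _ _ _ (mul_ne_zero hl0 (mul_ne_zero hl0 hl0)) hz hc,
          hSSL.1 _ _ _ hl0 (mul_ne_zero hl0 hl0) hc, hSSL.1 _ _ _ hl0 hl0 hc]
        generalize sl lam c = A
        generalize sl z c = B
        revert A B
        decide
      have e3 : (3 * (3 * a) - x : ℤ) = 9 * a - x := by ring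
      rw [a1, a2, e1, e2, b1, b2, hlv2, hlw, hnn, p5, p6, p7, p8, l_three.1, l_three.2, f2, e3,
        zetaC, hsl _ _ hz0 (by decide), hsl _ _ hz0 (by decide), g1, g2]
      constructor
      · decide
      · push_cast
        rw [three0, hs']
        generalize (x : ZMod 3) = X at hxn ⊢
        generalize (a : ZMod 3) = A
        generalize lw x = L
        revert hxn
        revert X A L
        decide

end Pool.Agent.PTK

end
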