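import Mathlib
import Pool.Agent.PTWX.C35
import Pool.Agent.PTWX.C39
import Pool.Agent.PTWX.C46
import Pool.Agent.PTWX.C48
import Pool.Agent.PTWX.C57
import Pool.Agent.PTWX.C60

/-! Parts: PTN.KMI, PTN.NDIM, PTN.NSUM, PTN.NSU1, PTKX.NBU, PTKX.NBX, PTKX.UPA, PTKX.UPS, PTKX.JAU, PTKX.MAU, PTKX.RAE -/

namespace Pool.Agent.PTN.NDIM
end Pool.Agent.PTN.NDIM

namespace Pool.Agent.PTN.NSUM
end Pool.Agent.PTN.NSUM

namespace Pool.Agent.PTN.NSU1
end Pool.Agent.PTN.NSU1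

namespace Pool.Agent.PTK.RAE
end Pool.Agent.PTK.RAE

section

/-! # PTN_KMI: the class of a rational point -/

set_option autoImplicit false

namespace Pool.Agent.PTN

open Pool.Agent.Lib_helper18 Pool.Agent.Lib_helper18.Eis Pool.Agent.Lib_helper84.Cub
open Pool.Agent.PT WeierstrassCurve.Affine

namespace KMI

/-- the polynomial identity behind the class -/
theorem ident {K : Type} [Field K] {o a b A z y d : K} (hw : o ^ 2 + o + 1 = 0)
    (hd : d = o - o ^ 2) (hab : a + b ≠ 0) (h3 : a ^ 3 + b ^ 3 = A * z ^ 3)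
    (hy : y * (a + b) = 36 * A * (a - b)) :
    (y - 12 * A * d) * z ^ 3 = o ^ 2 * ((a + o * b) * (a + o ^ 2 * b) ^ 2) * (-2 * d) ^ 3 := by
  have ho : o ^ 3 = 1 := by linear_combination (o - 1) * hw
  have hd2 : d ^ 2 = -3 := by
    rw [hd]
    linear_combination hw + (o - 2) * ho
  have hd3 : (-2 * d) ^ 3 = 24 * d := by linear_combination (-8 * d) * hd2
  have hf : (a + o * b) * (a + o ^ 2 * b) * (a + b) = a ^ 3 + b ^ 3 := by
    linear_combination ((a * b) * hw + b ^ 2 * ho) * (a + b)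
  have hl : 3 * (a - b) - d * (a + b) = 2 * d * o ^ 2 * (a + o ^ 2 * b) := by
    rw [hd]
    linear_combination (a - b) * hw - (2 * (1 - o) * a + 2 * (o ^ 2 - o ^ 3 - 1) * b) * ho
  apply mul_right_cancel₀ hab
  rw [hd3]
  linear_combination z ^ 3 * hy - (36 * (a - b) - 12 * d * (a + b)) * h3
    + 12 * (a ^ 3 + b ^ 3) * hl - o ^ 2 * (a + o ^ 2 * b) * (24 * d) * hf

end KMI

theorem KMI_thm (h0 : Stmt_KEQ) : Stmt_KMI := by
  intro K _ _ _ ι c A hK hA j hj P a b z hP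
  obtain ⟨-, -, hs0, hcs, hw, -⟩ := h0 K ι c A hK hA
  obtain ⟨hz, hab, h3, x, y, h, rfl, hx, hy⟩ := hP
  obtain ⟨h', hj'⟩ := hj x y h
  have hzK : (z : K) ≠ 0 := by exact_mod_cast hz
  have hAK : (A : K) ≠ 0 := by exact_mod_cast hA
  have h3K : (a : K) ^ 3 + (b : K) ^ 3 = (A : K) * (z : K) ^ 3 := by exact_mod_cast congrArg (fun t : ℤ => (t : K)) h3
  have habK : (a : K) + (b : K) ≠ 0 := by
    intro h1
    have h2 : (A : K) * (z : K) ^ 3 = 0 := by
      rw [← h3K]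
      linear_combination ((a : K) ^ 2 - a * b + (b : K) ^ 2) * h1
    exact (mul_ne_zero hAK (pow_ne_zero 3 hzK)) h2
  have hyK : (y : K) * ((a : K) + b) = 36 * (A : K) * ((a : K) - b) := by
    have := congrArg (fun t : ℚ => (t : K)) hy
    push_cast at this
    exact this
  have hys : (y : K) ≠ sD ι A := by
    intro h1
    have h2 : c (y : K) = (y : K) := by
      have := c.commutes y
      simpa using this
    rw [h1, hcs] at h2
    have h4 : (2 : K) * sD ι A = 0 := by linear_combination -h2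
    rcases mul_eq_zero.mp h4 with h5 | h5
    · exact two_ne_zero h5
    · exact hs0 h5
  have hid := KMI.ident (K := K) (o := ι w) (a := a) (b := b) (A := A) (z := z) (y := y)
    (d := ι w - ι w ^ 2) hw rfl habK h3K hyK
  have hd0 : (ι w - ι w ^ 2 : K) ≠ 0 := by
    intro h1
    apply hs0
    unfold sD
    rw [h1, mul_zero]
  refine ⟨(-2 * (ι w - ι w ^ 2)) / z, ?_, ?_⟩
  · exact div_ne_zero (mul_ne_zero (by norm_num) hd0) hzK
  · rw [hj']
    have hk : kap ι (.some (x : K) (y : K) h' : HH A K) = (y : K) - sD ι A := by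
      unfold kap
      exact if_neg hys
    rw [hk, div_pow, map_mul, map_mul, map_pow, map_pow, map_add, map_add, map_mul, map_mul, map_pow,
      map_intCast, map_intCast, mul_div_assoc', eq_div_iff (pow_ne_zero 3 hzK)]
    unfold sD
    exact hid

end Pool.Agent.PTN

end

section

/-!
# The law of the ranks of prime twists for every `n`: the relation between the dimensions
-/

set_option autoImplicit false

open NumberField IsDedekindDomain Finset
open scoped nonZeroDivisors Pointwise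

namespace Pool.Agent.PTN

open Pool.Agent.Lib_helper18 Pool.Agent.Lib_helper18.Eis Pool.Agent.Lib_helper84.Cub
open Pool.Agent.PT Pool.Agent.PTE Pool.Agent.PT3

namespace NDIM

theorem ker_dim {α β : Type} [Fintype β] (M : Matrix α β (ZMod 3)) (R : α → Prop)
    (S : β → Prop) [DecidablePred S] [Fintype {b // S b}] (U : Submodule (ZMod 3) (β → ZMod 3))
    (hU : ∀ u, u ∈ U ↔ (∀ a, R a → M.mulVec u a = 0) ∧ ∀ b, ¬ S b → u b = 0) :
    Module.finrank (ZMod 3) U +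
      (M.submatrix (fun a : {a // R a} => a.1) (fun b : {b // S b} => b.1)).rank =
      Fintype.card {b // S b} := by
  set A : Matrix {a // R a} {b // S b} (ZMod 3) :=
    M.submatrix (fun a : {a // R a} => a.1) (fun b : {b // S b} => b.1) with hA
  have key : ∀ (u : β → ZMod 3), (∀ b, ¬ S b → u b = 0) → ∀ a : {a // R a},
      M.mulVec u a.1 = A.mulVec (fun b => u b.1) a := by
    intro u hu a
    rw [Matrix.mulVec, Matrix.mulVec, dotProduct, dotProduct]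
    rw [← Finset.sum_subset (Finset.subset_univ (Finset.univ.filter S))]
    · exact Finset.sum_subtype (Finset.univ.filter S) (p := S) (by simp)
        (fun b => M a.1 b * u b)
    · intro b _ hb
      rw [hu b (by simpa using hb), mul_zero]
  let e : U ≃ₗ[ZMod 3] LinearMap.ker A.mulVecLin :=
    { toFun := fun u => ⟨fun b => u.1 b.1, by
        rw [LinearMap.mem_ker, Matrix.mulVecLin_apply]
        funext a
        obtain ⟨h1, h2⟩ := (hU u.1).1 u.2
        rw [← key u.1 h2 a]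
        exact h1 a.1 a.2⟩
      map_add' := fun u v => rfl
      map_smul' := fun t u => rfl
      invFun := fun w => ⟨fun b => if h : S b then w.1 ⟨b, h⟩ else 0, by
        rw [hU]
        have h2 : ∀ b, ¬ S b → (fun b => if h : S b then w.1 ⟨b, h⟩ else 0) b = 0 := by
          intro b hb
          exact dif_neg hb
        refine ⟨fun a ha => ?_, h2⟩
        rw [key _ h2 ⟨a, ha⟩]
        have h3 : (fun b : {b // S b} => (if h : S b.1 then w.1 ⟨b.1, h⟩ else 0)) = w.1 := by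
          funext b
          exact dif_pos b.2
        rw [h3]
        have h4 := w.2
        rw [LinearMap.mem_ker, Matrix.mulVecLin_apply] at h4
        exact congrFun h4 ⟨a, ha⟩⟩
      left_inv := fun u => by
        apply Subtype.ext
        funext b
        show (if h : S b then u.1 b else 0) = u.1 b
        split_ifs with h
        · rfl
        · exact (((hU u.1).1 u.2).2 b h).symm
      right_inv := fun w => by
        apply Subtype.ext
        funext b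
        exact dif_pos b.2 }
  have h1 := e.finrank_eq
  have h2 := LinearMap.finrank_range_add_finrank_ker A.mulVecLin
  have h3 : A.rank = Module.finrank (ZMod 3) (LinearMap.range A.mulVecLin) := rfl
  rw [h1, h3, Nat.add_comm, h2, Module.finrank_pi]

end NDIM

open _root_.Pool.Agent.PTN.NDIM in
theorem NDIM_thm : Stmt_NDIM := by
  classical
  intro h n m k π p e r w0 c
  have h1 := ker_dim (Nm h n π p e r w0 c) (fun a => a ≠ 0 ∨ actR h n w0)
    (fun b => h ≠ 0 ∨ b ≠ Sum.inl 0) (US h n π p e r w0 c) (by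
      intro u
      constructor
      · rintro ⟨g1, g2, g3⟩
        refine ⟨fun a ha => ?_, fun b hb => ?_⟩
        · rcases Fin.eq_zero_or_eq_succ a with rfl | ⟨i, rfl⟩
          · rcases ha with ha | ha
            · exact absurd rfl ha
            · exact g2 ha
          · exact g1 i
        · push Not at hb
          rw [hb.2]
          exact g3 hb.1
      · rintro ⟨g1, g2⟩
        refine ⟨fun i => g1 _ (Or.inl (Fin.succ_ne_zero i)), fun ha => g1 0 (Or.inr ha),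
          fun h0 => g2 _ ?_⟩
        push Not
        exact ⟨h0, rfl⟩)
  have h2 := ker_dim (Nm h n π p e r w0 c).transpose (fun b => h ≠ 0 ∨ b ≠ Sum.inl 0)
    (fun a => a ≠ 0 ∨ actR h n w0) (VS h n π p e r w0 c) (by
      intro y
      constructor
      · rintro ⟨g1, g2⟩
        refine ⟨fun b hb => ?_, fun a ha => ?_⟩
        · rw [Matrix.mulVec_transpose]
          refine g2 b fun h0 => ?_
          rcases hb with hb | hb
          · exact absurd h0 hb
          · exact hb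
        · push Not at ha
          rw [ha.1]
          exact g1 ha.2
      · rintro ⟨g1, g2⟩
        refine ⟨fun ha => g2 0 ?_, fun b hb => ?_⟩
        · push Not
          exact ⟨rfl, ha⟩
        · have h3 := g1 b (by
            by_cases h0 : h = 0
            · exact Or.inr (hb h0)
            · exact Or.inl h0)
          rw [Matrix.mulVec_transpose] at h3
          exact h3)
  have h3 : ((Nm h n π p e r w0 c).transpose.submatrix
      (fun a : {b : Col m k // h ≠ 0 ∨ b ≠ Sum.inl 0} => a.1)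
      (fun b : {a : Fin (m + 1) // a ≠ 0 ∨ actR h n w0} => b.1)).rank =
      ((Nm h n π p e r w0 c).submatrix
      (fun b : {a : Fin (m + 1) // a ≠ 0 ∨ actR h n w0} => b.1)
      (fun a : {b : Col m k // h ≠ 0 ∨ b ≠ Sum.inl 0} => a.1)).rank := by
    rw [← Matrix.rank_transpose]
    rfl
  rw [h3] at h2
  have hC : Fintype.card {b : Col m k // h ≠ 0 ∨ b ≠ Sum.inl 0} =
      m + k + (if h = 0 then 0 else 1) := by
    by_cases h0 : h = 0
    · rw [if_pos h0]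
      have e1 : Fintype.card {b : Col m k // h ≠ 0 ∨ b ≠ Sum.inl 0} =
          Fintype.card {b : Col m k // b ≠ Sum.inl 0} :=
        Fintype.card_congr (Equiv.subtypeEquivRight fun b => by simp [h0])
      rw [e1, Fintype.card_subtype_compl, Fintype.card_sum, Fintype.card_fin, Fintype.card_fin,
        Fintype.card_subtype_eq]
      omega
    · rw [if_neg h0]
      have e1 : Fintype.card {b : Col m k // h ≠ 0 ∨ b ≠ Sum.inl 0} = Fintype.card (Col m k) :=
        Fintype.card_congr (Equiv.subtypeUnivEquiv fun b => Or.inl h0)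
      rw [e1, Fintype.card_sum, Fintype.card_fin, Fintype.card_fin]
      omega
  have hR : Fintype.card {a : Fin (m + 1) // a ≠ 0 ∨ actR h n w0} =
      m + (if actR h n w0 then 1 else 0) := by
    by_cases h0 : actR h n w0
    · rw [if_pos h0]
      have e1 : Fintype.card {a : Fin (m + 1) // a ≠ 0 ∨ actR h n w0} =
          Fintype.card (Fin (m + 1)) :=
        Fintype.card_congr (Equiv.subtypeUnivEquiv fun b => Or.inr h0)
      rw [e1, Fintype.card_fin]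
    · rw [if_neg h0]
      have e1 : Fintype.card {a : Fin (m + 1) // a ≠ 0 ∨ actR h n w0} =
          Fintype.card {a : Fin (m + 1) // a ≠ 0} :=
        Fintype.card_congr (Equiv.subtypeEquivRight fun b => by simp [h0])
      rw [e1, Fintype.card_subtype_compl, Fintype.card_fin, Fintype.card_subtype_eq]
      omega
  have h4 : Module.finrank (ZMod 3) (US h n π p e r w0 c) = sN h n π p e r w0 c := rfl
  have h5 : Module.finrank (ZMod 3) (VS h n π p e r w0 c) = vN h n π p e r w0 c := rfl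
  rw [h4] at h1
  rw [h5] at h2
  rw [← Fintype.card_congr (Equiv.refl {b : Col m k // h ≠ 0 ∨ b ≠ Sum.inl 0})] at h1
  have hC' := hC
  have hR' := hR
  generalize Fintype.card {b : Col m k // h ≠ 0 ∨ b ≠ Sum.inl 0} = cC at *
  generalize Fintype.card {a : Fin (m + 1) // a ≠ 0 ∨ actR h n w0} = cR at *
  omega

end Pool.Agent.PTN

end

section

/-!
# NSUM: the average of `3 ^ v` over the classes
-/

set_option autoImplicit false

open Finset

namespace Pool.Agent.PTN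

namespace NSUM

open Pool.Agent.Lib_helper18 Pool.Agent.Lib_helper18.Eis Pool.Agent.Lib_helper84.Cub
open Pool.Agent.PT Pool.Agent.PTE Pool.Agent.PT3

variable {h n m k : ℕ} {π : Fin m → PP} {p e : Fin m → ℕ} {r : Fin k → ℕ}

theorem diff_succ (w0 w0' : ZMod 3) (c c' : Fin m → ZMod 3) (y : Fin (m + 1) → ZMod 3)
    (i : Fin m) :
    Matrix.vecMul y (Nm h n π p e r w0 c) (Sum.inl i.succ) -
      Matrix.vecMul y (Nm h n π p e r w0' c') (Sum.inl i.succ) = y i.succ * (c' i - c i) := by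
  unfold Matrix.vecMul dotProduct
  rw [← Finset.sum_sub_distrib, Finset.sum_eq_single i.succ]
  · simp [Nm]
    ring
  · intro a _ ha
    revert ha
    refine Fin.cases ?_ (fun i1 => ?_) a
    · intro _
      simp [Nm]
    · intro h1
      have h2 : i ≠ i1 := fun h => h1 (by rw [h])
      simp [Nm, h2]
  · intro h
    exact absurd (Finset.mem_univ _) h

theorem diff_zero (w0 w0' : ZMod 3) (c c' : Fin m → ZMod 3) (y : Fin (m + 1) → ZMod 3) :
    Matrix.vecMul y (Nm h n π p e r w0 c) (Sum.inl 0) -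
      Matrix.vecMul y (Nm h n π p e r w0' c') (Sum.inl 0) = y 0 * (w0 - w0') := by
  unfold Matrix.vecMul dotProduct
  rw [← Finset.sum_sub_distrib, Finset.sum_eq_single 0]
  · simp [Nm]
    ring
  · intro a _ ha
    revert ha
    refine Fin.cases ?_ (fun i1 => ?_) a
    · intro h1
      exact absurd rfl h1
    · intro _
      simp [Nm]
  · intro h
    exact absurd (Finset.mem_univ _) h

theorem det_succ {w0 w0' : ZMod 3} {c c' : Fin m → ZMod 3} {y : Fin (m + 1) → ZMod 3}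
    (h1 : y ∈ VS h n π p e r w0 c) (h2 : y ∈ VS h n π p e r w0' c') (i : Fin m)
    (hy : y i.succ ≠ 0) : c i = c' i := by
  have h3 := diff_succ (h := h) (n := n) (π := π) (p := p) (e := e) (r := r) w0 w0' c c' y i
  have hne : (Sum.inl i.succ : Col m k) ≠ Sum.inl 0 := by
    intro h4
    exact (Fin.succ_ne_zero i) (Sum.inl_injective h4)
  rw [h1.2 _ fun _ => hne, h2.2 _ fun _ => hne, sub_zero] at h3
  have h4 := (mul_eq_zero.1 h3.symm).resolve_left hy
  exact (sub_eq_zero.1 h4).symm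

theorem det_zero {w0 w0' : ZMod 3} {c c' : Fin m → ZMod 3} {y : Fin (m + 1) → ZMod 3}
    (h1 : y ∈ VS h n π p e r w0 c) (h2 : y ∈ VS h n π p e r w0' c')
    (hy : y 0 ≠ 0) : w0 = w0' := by
  have a1 : actR h n w0 := by
    by_contra h3
    exact hy (h1.1 h3)
  have a2 : actR h n w0' := by
    by_contra h3
    exact hy (h2.1 h3)
  unfold actR at a1 a2
  rcases a1 with a1 | a1
  · have h3 := diff_zero (h := h) (n := n) (π := π) (p := p) (e := e) (r := r) w0 w0' c c' y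
    rw [h1.2 _ fun h0 => absurd h0 (by omega), h2.2 _ fun h0 => absurd h0 (by omega),
      sub_zero] at h3
    have h4 := (mul_eq_zero.1 h3.symm).resolve_left hy
    exact sub_eq_zero.1 h4
  · rcases a2 with a2 | a2
    · omega
    · exact add_left_cancel (a1.2.trans a2.2.symm)

open Classical in
theorem card_bound (h n : ℕ) (π : Fin m → PP) (p e : Fin m → ℕ) (r : Fin k → ℕ)
    (y : Fin (m + 1) → ZMod 3) :
    (Finset.univ.filter fun x : ZMod 3 × (Fin m → ZMod 3) =>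
      y ∈ VS h n π p e r x.1 x.2).card ≤ ∏ a, if y a = 0 then 3 else 1 := by
  by_cases hne : ∃ x0 : ZMod 3 × (Fin m → ZMod 3), y ∈ VS h n π p e r x0.1 x0.2
  · obtain ⟨x0, hx0⟩ := hne
    have hsub : (Finset.univ.filter fun x : ZMod 3 × (Fin m → ZMod 3) =>
        y ∈ VS h n π p e r x.1 x.2) ⊆
        (if y 0 = 0 then Finset.univ else {x0.1}) ×ˢ
          Fintype.piFinset fun i : Fin m => if y i.succ = 0 then Finset.univ else {x0.2 i} := by
      intro x hx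
      rw [Finset.mem_filter] at hx
      rw [Finset.mem_product]
      constructor
      · split_ifs with h1
        · exact Finset.mem_univ _
        · rw [Finset.mem_singleton]
          exact det_zero hx.2 hx0 h1
      · rw [Fintype.mem_piFinset]
        intro i
        split_ifs with h1
        · exact Finset.mem_univ _
        · rw [Finset.mem_singleton]
          exact det_succ hx.2 hx0 i h1
    refine (Finset.card_le_card hsub).trans (le_of_eq ?_)
    rw [Finset.card_product, Fintype.card_piFinset, Fin.prod_univ_succ]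
    congr 1
    · split_ifs
      · rw [Finset.card_univ, ZMod.card]
      · rfl
    · refine Finset.prod_congr rfl fun i _ => ?_
      split_ifs
      · rw [Finset.card_univ, ZMod.card]
      · rfl
  · rw [Finset.card_eq_zero.2]
    · exact Nat.zero_le _
    · rw [Finset.filter_eq_empty_iff]
      intro x _ hx
      exact hne ⟨x, hx⟩

open Classical in
theorem pow_vN (h n : ℕ) (π : Fin m → PP) (p e : Fin m → ℕ) (r : Fin k → ℕ)
    (x : ZMod 3 × (Fin m → ZMod 3)) :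
    3 ^ vN h n π p e r x.1 x.2 =
      (Finset.univ.filter fun y : Fin (m + 1) → ZMod 3 => y ∈ VS h n π p e r x.1 x.2).card := by
  haveI : Fact (Nat.Prime 3) := ⟨Nat.prime_three⟩
  have h1 := Module.natCard_eq_pow_finrank (K := ZMod 3) (V := VS h n π p e r x.1 x.2)
  rw [Nat.card_zmod] at h1
  unfold vN
  rw [← h1, Nat.card_eq_fintype_card, Fintype.card_subtype]

theorem sum_prod (m : ℕ) :
    ∑ y : Fin (m + 1) → ZMod 3, ∏ a, (if y a = 0 then 3 else 1) = 5 ^ (m + 1) := by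
  have h1 := Finset.prod_univ_sum (fun _ : Fin (m + 1) => (Finset.univ : Finset (ZMod 3)))
    (fun _ z => if z = 0 then 3 else 1)
  rw [Fintype.piFinset_univ] at h1
  rw [← h1]
  have h2 : ∑ z : ZMod 3, (if z = 0 then 3 else 1) = 5 := by decide
  rw [h2, Finset.prod_const, Finset.card_univ, Fintype.card_fin]

end NSUM

open _root_.Pool.Agent.PTN.NSUM

theorem NSUM_thm : Stmt_NSUM := by
  classical
  intro h n m k π p e r f _
  have h1 : ∑ x : ZMod 3 × (Fin m → ZMod 3), 3 ^ vN h n π p e r x.1 x.2 =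
      ∑ y : Fin (m + 1) → ZMod 3, (Finset.univ.filter fun x : ZMod 3 × (Fin m → ZMod 3) =>
        y ∈ VS h n π p e r x.1 x.2).card := by
    rw [Finset.sum_congr rfl fun x _ => pow_vN h n π p e r x]
    exact Finset.sum_card_bipartiteAbove_eq_sum_card_bipartiteBelow
      (fun (x : ZMod 3 × (Fin m → ZMod 3)) (y : Fin (m + 1) → ZMod 3) =>
        y ∈ VS h n π p e r x.1 x.2)
  rw [h1, ← sum_prod m]
  exact Finset.sum_le_sum fun y _ => card_bound h n π p e r y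

end Pool.Agent.PTN

end

section

/-!
# NSU1: the average of `3 ^ v` over the classes, `h = 1`
-/

set_option autoImplicit false

open Finset

namespace Pool.Agent.PTN

namespace NSU1

open Pool.Agent.Lib_helper18 Pool.Agent.Lib_helper18.Eis Pool.Agent.Lib_helper84.Cub
open Pool.Agent.PT Pool.Agent.PTE Pool.Agent.PT3

variable {n m k : ℕ} {π : Fin m → PP} {p e : Fin m → ℕ} {r : Fin k → ℕ}

theorem zero_of_mem {w0 : ZMod 3} {c : Fin m → ZMod 3} {y : Fin (m + 1) → ZMod 3}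
    (hy : y ∈ VS 1 n π p e r w0 c) : y 0 = 0 := by
  apply hy.1
  unfold actR
  omega

open Classical in
theorem card_bound (n : ℕ) (π : Fin m → PP) (p e : Fin m → ℕ) (r : Fin k → ℕ)
    (y : Fin (m + 1) → ZMod 3) :
    (Finset.univ.filter fun x : ZMod 3 × (Fin m → ZMod 3) =>
      y ∈ VS 1 n π p e r x.1 x.2).card ≤
      (if y 0 = 0 then 3 else 0) * ∏ i : Fin m, if y i.succ = 0 then 3 else 1 := by
  by_cases h0 : y 0 = 0
  · refine (NSUM.card_bound 1 n π p e r y).trans (le_of_eq ?_)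
    rw [Fin.prod_univ_succ, if_pos h0, if_pos h0]
  · rw [if_neg h0, zero_mul, Nat.le_zero, Finset.card_eq_zero, Finset.filter_eq_empty_iff]
    intro x _ hx
    exact h0 (zero_of_mem hx)

theorem sum_prod (m : ℕ) :
    ∑ y : Fin (m + 1) → ZMod 3, (if y 0 = 0 then 3 else 0) *
      ∏ i : Fin m, (if y i.succ = 0 then 3 else 1) = 3 * 5 ^ m := by
  have h1 := Finset.prod_univ_sum (fun _ : Fin (m + 1) => (Finset.univ : Finset (ZMod 3)))
    (fun a z => if a = 0 then (if z = 0 then 3 else 0) else (if z = 0 then 3 else 1))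
  rw [Fintype.piFinset_univ] at h1
  have h2 : ∀ y : Fin (m + 1) → ZMod 3, (if y 0 = 0 then 3 else 0) *
      ∏ i : Fin m, (if y i.succ = 0 then 3 else 1) =
      ∏ a : Fin (m + 1), if a = 0 then (if y a = 0 then 3 else 0) else
        (if y a = 0 then 3 else 1) := by
    intro y
    rw [Fin.prod_univ_succ, if_pos rfl]
    congr 1
  rw [Finset.sum_congr rfl fun y _ => h2 y, ← h1, Fin.prod_univ_succ]
  have h3 : ∑ z : ZMod 3, (if z = 0 then 3 else 1) = 5 := by decide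
  have h4 : ∑ z : ZMod 3, (if z = 0 then 3 else 0) = 3 := by decide
  simp only [if_true, Fin.succ_ne_zero, if_false, h3, h4, Finset.prod_const, Finset.card_univ,
    Fintype.card_fin]

end NSU1

open _root_.Pool.Agent.PTN.NSU1

theorem NSU1_thm : Stmt_NSU1 := by
  classical
  intro n m k π p e r f _
  have h1 : ∑ x : ZMod 3 × (Fin m → ZMod 3), 3 ^ vN 1 n π p e r x.1 x.2 =
      ∑ y : Fin (m + 1) → ZMod 3, (Finset.univ.filter fun x : ZMod 3 × (Fin m → ZMod 3) =>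
        y ∈ VS 1 n π p e r x.1 x.2).card := by
    rw [Finset.sum_congr rfl fun x _ => NSUM.pow_vN 1 n π p e r x]
    exact Finset.sum_card_bipartiteAbove_eq_sum_card_bipartiteBelow
      (fun (x : ZMod 3 × (Fin m → ZMod 3)) (y : Fin (m + 1) → ZMod 3) =>
        y ∈ VS 1 n π p e r x.1 x.2)
  rw [h1, ← sum_prod m]
  exact Finset.sum_le_sum fun y _ => NSU1.card_bound n π p e r y

end Pool.Agent.PTN

end

section

/-!
# PTK_NBU: the bound for the rank, `q = 1 (mod 3)`, generic pattern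
-/

set_option autoImplicit false

namespace Pool.Agent.PTK

open Pool.Agent.Lib_helper18 Pool.Agent.Lib_helper18.Eis Pool.Agent.Lib_helper84.Cub
open Pool.Agent.PT Pool.Agent.PTE Pool.Agent.PT3 Pool.Agent.PTL Pool.Agent.PTN

open Pool.Agent.PTN.NBKU in
/-- PTK_NBU: the bound for the rank, `q = 1 (mod 3)`, generic pattern.
Proof. As `NBKU_thm` (PTN/NBKU.lean) with `WGU` in place of `NPSU`: the index of the points is at most
the product of the numbers of the classes in the minus part, at most `Nat.card WqS` by the second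
bound of `WGU` (`b (Fin.last s)` is admissible and has a nonzero symbol at the `ρ` of `Pat v δ`), and in
the plus part, at most the number of the elements of the kernel of the matrix (`TENT`). -/
theorem NBU_thm (hK : Stmt_KID) (_hI : Stmt_NKIN) (hA : Stmt_NADU) (hL : Stmt_NPLU)
    (hTENT : TENT) (_hSPP : SPP) (hSPLT : SPLT) (hWGU : Stmt_WGU) : Stmt_NBU := by
  classical
  intro h n m k π p e r f w0 c d v₀ δ s τ b X Y P Q P' Q' E q hN hh _ hPl hE hq hq3 hq1 hIn hqn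
    hPat
  obtain ⟨ρ, hqρ, hpat⟩ := hPat
  have hρn : ¬ ρ.1 ∣ (n : Eis) := by
    intro h2
    have h4 := (hSPLT.2 q ρ hq hq1 hqρ).2.2.2.1 (n : ℤ)
    rw [Int.cast_natCast] at h4
    exact hqn (Int.natCast_dvd_natCast.1 (h4.1 h2))
  obtain ⟨hiff, hsp⟩ := hPl.pat ρ hρn
  obtain ⟨h0, h1⟩ := hiff.2 hpat
  have hgen := hsp h0 h1
  have hAd := hPl.adm
  have hSys := hPl.sys
  have hSw := hPl.sw
  have hT := hPl.lam
  have hq3' : q ≠ 3 := by omega
  have hB0 : BB h n E q ≠ 0 := BB_ne hN hq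
  have hcf := cubeFree (h := h) hN hh hE hq hq3' hqn
  have habs := abs_ge (h := h) hN hE hq hq3
  have hnc : ¬ ∃ t : ℤ, t ^ 3 = BB h n E q := by
    apply CubeRank.GenPf.not_cube hcf
    have h2 : ((BB h n E q).natAbs : ℤ) = |BB h n E q| := Int.natCast_natAbs _
    rw [← h2]
    exact_mod_cast habs
  obtain ⟨hBG, hTy, hAdm⟩ := hA h n m k π p e r f w0 c E q ρ hN hh hE hq hq1 hIn hqn hqρ
  obtain ⟨⟨dd, hdd⟩, W, _, Ψ₁, -, hW, hΨ₁⟩ := hWGU h n m k π p e r f w0 c E q ρ hN hh hE hq hq3 hq1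
    hIn hqn hqρ
  replace hW := hW ⟨_, hAd (Fin.last s), h1⟩
  unfold kU
  rw [hdd] at hW ⊢
  rw [Nat.log_pow (by norm_num : 1 < 3)]
  set B := BB h n E q with hBdef
  set M := MaT (rv b) X Y (rs P) (rs Q) (rs P') (rs Q') B with hM
  have hsupp : ∀ i : Fin (s + 1), ∀ l : ℕ, l.Prime → (l : ℤ) ∣ b i → l ∣ 3 * n := fun i =>
    (hAd i).1.supp
  have hAG : ∀ i : Fin s, AG B (rv b i) := fun i =>
    ((hAdm (b i.castSucc) (hsupp _)).1 ⟨hAd _, h0 i⟩).1
  have hne : ∀ i : Fin s, rv b i ≠ 0 := fun i => (hAd i.castSucc).1.ne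
  have hker := (hTENT s τ (rv b) X Y _ _ _ _ B (ECLU.sysG_restr hSys) (ECLU.sw_restr hSw) hBG hAG
    (hT B hTy) hne).2
  -- the class of a point of the isogenous curve
  have hz : ∀ z : ℤ, S2 B z → ∃ (g : Fin s → ℕ) (u v : ℤ) (j : ℕ), u ≠ 0 ∧ v ≠ 0 ∧
      z * B ^ j * u ^ 3 = (∏ i, rv b i ^ g i) * v ^ 3 ∧
      ∀ j, ∑ i, M j i * (g i : ZMod 3) = 0 := by
    rintro z (rfl | ⟨A, m', hA0, hsum, hprod, hcop, rfl⟩)
    · exact ⟨fun _ => 0, 1, 1, 0, one_ne_zero, one_ne_zero, by simp, fun j => by simp⟩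
    · obtain ⟨z', X1, Y1, u, v, j, hu, hv, hz', hPt, hAGz, hLoc, hs⟩ :=
        hL h n m k π p e r f E q A m' hN hh hE hq hq3' hqn hA0 hsum hprod hcop
      obtain ⟨g1, g2⟩ := (hAdm z' hs).2 ⟨hAGz, hLoc⟩
      obtain ⟨g, u', v', hu', hv', hg⟩ := hgen z' g1 g2
      change z' * u' ^ 3 = (∏ i, rv b i ^ g i) * v' ^ 3 at hg
      refine ⟨g, v * u', v' * u, j, mul_ne_zero hv hu', mul_ne_zero hv' hu, ?_, ?_⟩
      · have e1 : A 0 ^ 2 * A 1 * B ^ j * (v * u') ^ 3 =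
            (A 0 ^ 2 * A 1 * B ^ j * v ^ 3) * u' ^ 3 := by ring
        rw [e1, ← hz']
        linear_combination (u ^ 3) * hg
      · by_cases hex : ∃ i, ¬ 3 ∣ g i
        · exact hker g _ _ hex (pt_transport hPt hu' hv' hg)
        · push Not at hex
          intro j
          refine Finset.sum_eq_zero (fun i _ => ?_)
          rw [(ZMod.natCast_eq_zero_iff (g i) 3).2 (hex i), mul_zero]
  choose! g u v j hu hv hzg hzM using hz
  let Ψ₂ : ℤ → LinearMap.ker M.mulVecLin := fun z =>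
    if hS : S2 B z then ⟨fun i => (g z i : ZMod 3), by
      rw [LinearMap.mem_ker]
      funext j'
      exact hzM z hS j'⟩ else 0
  have hΨ₂ : ∀ z z', S2 B z → S2 B z' → Ψ₂ z = Ψ₂ z' →
      ∃ (u v : ℤ) (j : ℕ), u ≠ 0 ∧ v ≠ 0 ∧ z * u ^ 3 = z' * B ^ j * v ^ 3 := by
    intro z z' hS hS' hΨ
    have h2 : ∀ i, (g z i : ZMod 3) = g z' i := by
      intro i
      have h3 := congrArg (fun x : LinearMap.ker M.mulVecLin => (x : Fin s → ZMod 3) i) hΨ
      simp only [Ψ₂, dif_pos hS, dif_pos hS'] at h3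
      exact h3
    obtain ⟨A, A', hA0, hA0', hAA⟩ := BKER.prod_cube (rv b) hne (g z) (g z') h2
    refine ⟨B ^ j z * (u z * A * v z'), u z' * A' * v z, j z' + 2 * j z,
      mul_ne_zero (pow_ne_zero _ hB0) (mul_ne_zero (mul_ne_zero (hu z hS) hA0) (hv z' hS')),
      mul_ne_zero (mul_ne_zero (hu z' hS') hA0') (hv z hS), ?_⟩
    have e1 := hzg z hS
    have e2 := hzg z' hS'
    generalize (∏ i, rv b i ^ g z i) = w1 at *
    generalize (∏ i, rv b i ^ g z' i) = w2 at *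
    rw [pow_add, mul_comm 2 (j z), pow_mul]
    generalize B ^ j z = β at *
    generalize B ^ j z' = β' at *
    linear_combination (β ^ 2 * A ^ 3 * v z' ^ 3) * e1 - (β ^ 2 * A' ^ 3 * v z ^ 3) * e2 +
      (β ^ 2 * v z ^ 3 * v z' ^ 3) * hAA
  obtain ⟨hfin, hidx⟩ := hK B hB0 hcf hnc W (LinearMap.ker M.mulVecLin) Ψ₁ Ψ₂ hΨ₁ hΨ₂
  have hkerd : Module.finrank (ZMod 3) (LinearMap.ker M.mulVecLin) = s - M.rank := by
    have h2 := LinearMap.finrank_range_add_finrank_ker M.mulVecLin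
    rw [Module.finrank_fintype_fun_eq_card, Fintype.card_fin] at h2
    have h3 : Module.finrank (ZMod 3) (LinearMap.range M.mulVecLin) = M.rank := rfl
    omega
  rw [Module.natCard_eq_pow_finrank (K := ZMod 3) (V := LinearMap.ker M.mulVecLin), Nat.card_zmod,
    hkerd] at hidx
  refine CubeRank.gen' B hcf habs _ hfin (hidx.trans ?_)
  rw [pow_add]
  exact Nat.mul_le_mul_right _ hW

end Pool.Agent.PTK

end

section

/-!
# PTK_NBX: the bound for the rank, `q = 1 (mod 3)`, all rational classes cubes modulo `q`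
-/

set_option autoImplicit false

namespace Pool.Agent.PTK

open Pool.Agent.Lib_helper18 Pool.Agent.Lib_helper18.Eis Pool.Agent.Lib_helper84.Cub
open Pool.Agent.PT Pool.Agent.PTE Pool.Agent.PT3 Pool.Agent.PTL Pool.Agent.PTN

open Pool.Agent.PTN.NBKU in
/-- PTK_NBX: the bound for the rank, `q = 1 (mod 3)`, all rational classes cubes modulo `q`, with
the matrix.
Proof. As `NBU_thm` (PTK/NBU.lean) with `b` in place of `rv b` and the first bound of `WGU` for
`Nat.card W`. -/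
theorem NBX_thm (hK : Stmt_KID) (_hI : Stmt_NKIN) (hA : Stmt_NADU) (hL : Stmt_NPLU)
    (hTENT : TENT) (_hSPP : SPP) (hSPLT : SPLT) (hWGU : Stmt_WGU) : Stmt_NBX := by
  classical
  intro h n m k π p e r f w0 c s τ b X Y P Q P' Q' E q hN hh hPl hE hq hq3 hq1 hIn hqn hZP
  obtain ⟨ρ, hqρ⟩ := hSPLT.1 q hq hq1
  have h0 : ∀ i, sym ρ.1 (b i : Eis) = 0 := hZP ρ hqρ
  have hgen := hPl.gen
  have hAd := hPl.adm
  have hSys := hPl.sys
  have hSw := hPl.sw
  have hT := hPl.lam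
  have hq3' : q ≠ 3 := by omega
  have hB0 : BB h n E q ≠ 0 := BB_ne hN hq
  have hcf := cubeFree (h := h) hN hh hE hq hq3' hqn
  have habs := abs_ge (h := h) hN hE hq hq3
  have hnc : ¬ ∃ t : ℤ, t ^ 3 = BB h n E q := by
    apply CubeRank.GenPf.not_cube hcf
    have h2 : ((BB h n E q).natAbs : ℤ) = |BB h n E q| := Int.natCast_natAbs _
    rw [← h2]
    exact_mod_cast habs
  obtain ⟨hBG, hTy, hAdm⟩ := hA h n m k π p e r f w0 c E q ρ hN hh hE hq hq1 hIn hqn hqρ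
  obtain ⟨⟨dd, hdd⟩, W, _, Ψ₁, hW, -, hΨ₁⟩ := hWGU h n m k π p e r f w0 c E q ρ hN hh hE hq hq3 hq1
    hIn hqn hqρ
  unfold kS
  rw [hdd] at hW ⊢
  rw [Nat.log_pow (by norm_num : 1 < 3)]
  set B := BB h n E q with hBdef
  set M := MaT b X Y P Q P' Q' B with hM
  have hsupp : ∀ i : Fin s, ∀ l : ℕ, l.Prime → (l : ℤ) ∣ b i → l ∣ 3 * n := fun i =>
    (hAd i).1.supp
  have hAG : ∀ i : Fin s, AG B (b i) := fun i =>
    ((hAdm (b i) (hsupp _)).1 ⟨hAd _, h0 i⟩).1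
  have hne : ∀ i : Fin s, b i ≠ 0 := fun i => (hAd i).1.ne
  have hker := (hTENT s τ b X Y _ _ _ _ B hSys hSw hBG hAG (hT B hTy) hne).2
  -- the class of a point of the isogenous curve
  have hz : ∀ z : ℤ, S2 B z → ∃ (g : Fin s → ℕ) (u v : ℤ) (j : ℕ), u ≠ 0 ∧ v ≠ 0 ∧
      z * B ^ j * u ^ 3 = (∏ i, b i ^ g i) * v ^ 3 ∧
      ∀ j, ∑ i, M j i * (g i : ZMod 3) = 0 := by
    rintro z (rfl | ⟨A, m', hA0, hsum, hprod, hcop, rfl⟩)
    · exact ⟨fun _ => 0, 1, 1, 0, one_ne_zero, one_ne_zero, by simp, fun j => by simp⟩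
    · obtain ⟨z', X1, Y1, u, v, j, hu, hv, hz', hPt, hAGz, hLoc, hs⟩ :=
        hL h n m k π p e r f E q A m' hN hh hE hq hq3' hqn hA0 hsum hprod hcop
      obtain ⟨g1, -⟩ := (hAdm z' hs).2 ⟨hAGz, hLoc⟩
      obtain ⟨g, u', v', hu', hv', hg⟩ := hgen z' g1
      refine ⟨g, v * u', v' * u, j, mul_ne_zero hv hu', mul_ne_zero hv' hu, ?_, ?_⟩
      · have e1 : A 0 ^ 2 * A 1 * B ^ j * (v * u') ^ 3 =
            (A 0 ^ 2 * A 1 * B ^ j * v ^ 3) * u' ^ 3 := by ring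
        rw [e1, ← hz']
        linear_combination (u ^ 3) * hg
      · by_cases hex : ∃ i, ¬ 3 ∣ g i
        · exact hker g _ _ hex (pt_transport hPt hu' hv' hg)
        · push Not at hex
          intro j
          refine Finset.sum_eq_zero (fun i _ => ?_)
          rw [(ZMod.natCast_eq_zero_iff (g i) 3).2 (hex i), mul_zero]
  choose! g u v j hu hv hzg hzM using hz
  let Ψ₂ : ℤ → LinearMap.ker M.mulVecLin := fun z =>
    if hS : S2 B z then ⟨fun i => (g z i : ZMod 3), by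
      rw [LinearMap.mem_ker]
      funext j'
      exact hzM z hS j'⟩ else 0
  have hΨ₂ : ∀ z z', S2 B z → S2 B z' → Ψ₂ z = Ψ₂ z' →
      ∃ (u v : ℤ) (j : ℕ), u ≠ 0 ∧ v ≠ 0 ∧ z * u ^ 3 = z' * B ^ j * v ^ 3 := by
    intro z z' hS hS' hΨ
    have h2 : ∀ i, (g z i : ZMod 3) = g z' i := by
      intro i
      have h3 := congrArg (fun x : LinearMap.ker M.mulVecLin => (x : Fin s → ZMod 3) i) hΨ
      simp only [Ψ₂, dif_pos hS, dif_pos hS'] at h3
      exact h3
    obtain ⟨A, A', hA0, hA0', hAA⟩ := BKER.prod_cube b hne (g z) (g z') h2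
    refine ⟨B ^ j z * (u z * A * v z'), u z' * A' * v z, j z' + 2 * j z,
      mul_ne_zero (pow_ne_zero _ hB0) (mul_ne_zero (mul_ne_zero (hu z hS) hA0) (hv z' hS')),
      mul_ne_zero (mul_ne_zero (hu z' hS') hA0') (hv z hS), ?_⟩
    have e1 := hzg z hS
    have e2 := hzg z' hS'
    generalize (∏ i, b i ^ g z i) = w1 at *
    generalize (∏ i, b i ^ g z' i) = w2 at *
    rw [pow_add, mul_comm 2 (j z), pow_mul]
    generalize B ^ j z = β at *
    generalize B ^ j z' = β' at *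
    linear_combination (β ^ 2 * A ^ 3 * v z' ^ 3) * e1 - (β ^ 2 * A' ^ 3 * v z ^ 3) * e2 +
      (β ^ 2 * v z ^ 3 * v z' ^ 3) * hAA
  obtain ⟨hfin, hidx⟩ := hK B hB0 hcf hnc W (LinearMap.ker M.mulVecLin) Ψ₁ Ψ₂ hΨ₁ hΨ₂
  have hkerd : Module.finrank (ZMod 3) (LinearMap.ker M.mulVecLin) = s - M.rank := by
    have h2 := LinearMap.finrank_range_add_finrank_ker M.mulVecLin
    rw [Module.finrank_fintype_fun_eq_card, Fintype.card_fin] at h2
    have h3 : Module.finrank (ZMod 3) (LinearMap.range M.mulVecLin) = M.rank := rfl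
    omega
  rw [Module.natCard_eq_pow_finrank (K := ZMod 3) (V := LinearMap.ker M.mulVecLin), Nat.card_zmod,
    hkerd] at hidx
  refine CubeRank.gen' B hcf habs _ hfin (hidx.trans ?_)
  rw [pow_add, pow_succ, mul_comm (3 ^ dd) 3]
  exact Nat.mul_le_mul_right _ hW

end Pool.Agent.PTK

end

section

/-!
# The average of `3^r`: from `UpS` to `AboveA`
-/

set_option autoImplicit false

open NumberField IsDedekindDomain Finset
open scoped nonZeroDivisors Pointwise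

namespace Pool.Agent.PTK

open Pool.Agent.Lib_helper18 Pool.Agent.Lib_helper18.Eis Pool.Agent.Lib_helper84.Cub
open Pool.Agent.PT Pool.Agent.PTE Pool.Agent.PT3 Pool.Agent.PTL Pool.Agent.PTN

namespace UPA

/-- a term with a weight in `[0, 1]` -/
theorem term_le (P : Prop) [Decidable P] (a b : ℝ) (h0 : 0 ≤ b) (h1 : b ≤ 1) :
    |if P then a * b else 0| ≤ |a| := by
  split_ifs
  · rw [abs_mul, abs_of_nonneg h0]
    exact mul_le_of_le_one_right (abs_nonneg a) h1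
  · rw [abs_zero]
    exact abs_nonneg a

end UPA

open Classical in
/-- from `UpS` to `AboveA` -/
theorem UPA_thm (hSPP : SPP) : Stmt_UPA := by
  intro h n m k π p e r f w0 c a F x hN hU
  obtain ⟨S, hS⟩ : ∃ S : ℕ → Set ℕ, S = fun E => {q : ℕ | q % 3 = a ∧ InCT E π w0 c q} :=
    ⟨_, rfl⟩
  rw [← hS] at hU
  obtain ⟨K, hK⟩ := hU
  refine ⟨K + ∑ E ∈ ({1, 2} : Finset ℕ), ∑ q ∈ univ.image p, 2 * |F (BB h n E q)|,
    fun σ h1 h2 T => ?_⟩
  have e1 := hK σ h1 h2 T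
  have e2 : SumA ((3 ^ h * n : ℕ) : ℤ) a (Kl π w0 c) F σ T ≤
      ∑ E ∈ ({1, 2} : Finset ℕ), ∑ q ∈ T,
        (if q.Prime ∧ q ∈ S E then
          F (BB h n E q) * (q : ℝ) ^ (-σ) else 0) +
      ∑ E ∈ ({1, 2} : Finset ℕ), ∑ q ∈ univ.image p, 2 * |F (BB h n E q)| := by
    unfold SumA
    rw [← Finset.sum_add_distrib]
    refine Finset.sum_le_sum fun E _ => ?_
    have hB : ∀ q : ℕ, ((3 ^ h * n : ℕ) : ℤ) * (q : ℤ) ^ E = BB h n E q := by
      intro q
      unfold BB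
      push_cast
      ring
    have e3 : ∑ q ∈ T, (if q ∈ univ.image p then 2 * |F (BB h n E q)| else 0) ≤
        ∑ q ∈ univ.image p, 2 * |F (BB h n E q)| := by
      rw [← Finset.sum_filter]
      refine Finset.sum_le_sum_of_subset_of_nonneg ?_ fun q _ _ =>
        mul_nonneg zero_le_two (abs_nonneg _)
      intro q hq
      exact (Finset.mem_filter.1 hq).2
    refine le_trans ?_ (add_le_add_right e3 _)
    rw [← Finset.sum_add_distrib]
    refine Finset.sum_le_sum fun q _ => ?_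
    rw [hB]
    by_cases hqp : q ∈ univ.image p
    · rw [if_pos hqp]
      obtain ⟨i, _, hi⟩ := Finset.mem_image.1 hqp
      have hq : q.Prime := hi ▸ hN.pp i
      have hq0 : 0 ≤ (q : ℝ) ^ (-σ) := Real.rpow_nonneg (Nat.cast_nonneg q) _
      have hq1 : (q : ℝ) ^ (-σ) ≤ 1 :=
        Real.rpow_le_one_of_one_le_of_nonpos (by exact_mod_cast hq.one_lt.le) (by linarith)
      have t1 := UPA.term_le (q.Prime ∧ q % 3 = a ∧ Kl π w0 c ((q : ℤ) ^ E)) (F (BB h n E q))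
        ((q : ℝ) ^ (-σ)) hq0 hq1
      have t2 := UPA.term_le
        (q.Prime ∧ q ∈ S E) (F (BB h n E q))
        ((q : ℝ) ^ (-σ)) hq0 hq1
      have t3 := (abs_le.1 t1).2
      have t4 := (abs_le.1 t2).1
      linarith
    · rw [if_neg hqp, add_zero]
      by_cases hq : q.Prime
      · have hqi : ∀ i, q ≠ p i := fun i hi =>
          hqp (Finset.mem_image.2 ⟨i, mem_univ _, hi.symm⟩)
        have hiff := CAB.kl_iff hSPP hN w0 c hq hqi E
        refine le_of_eq ?_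
        refine if_congr ?_ rfl rfl
        rw [hiff, hS]
        rfl
      · rw [if_neg fun hc => hq hc.1, if_neg fun hc => hq hc.1]
  rw [← add_assoc]
  exact e2.trans (add_le_add e1 (le_refl _))

end Pool.Agent.PTK

end

section

/-!
# Module UPS (helper57): the calculus of `UpS`
-/

set_option autoImplicit false

open Finset

namespace Pool.Agent.PTK

namespace UPS

theorem log_nn (σ : ℝ) (h1 : 1 < σ) (h2 : σ ≤ 2) : 0 ≤ Real.log (1 / (σ - 1)) := by
  apply Real.log_nonneg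
  rw [le_div_iff₀ (by linarith)]
  linarith

theorem rpow_le_one' (q : ℕ) (hq : q.Prime) (σ : ℝ) (h1 : 1 < σ) : (q : ℝ) ^ (-σ) ≤ 1 := by
  apply Real.rpow_le_one_of_one_le_of_nonpos
  · exact_mod_cast hq.one_lt.le
  · linarith

end UPS

open Classical in
theorem UPS_thm : Stmt_UPS := by
  refine ⟨?_, ?_, ?_⟩
  · intro ι _ S G T G' x c M hc hG' hyp hU
    choose K hK using hU
    refine ⟨(∑ i, K i) / c + ∑ E ∈ ({1, 2} : Finset ℕ), ∑ q ∈ range (M + 1), |G E q|, ?_⟩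
    intro σ h1 h2 U
    have term : ∀ E ∈ ({1, 2} : Finset ℕ), ∀ q ∈ U,
        (if q.Prime ∧ q ∈ S E then G E q * (q : ℝ) ^ (-σ) else 0) ≤
        (1 / c) * ∑ i, (if q.Prime ∧ q ∈ T i E then G' i E q * (q : ℝ) ^ (-σ) else 0) +
          (if q ∈ range (M + 1) then |G E q| else 0) := by
      intro E hE q _
      have hp : 0 ≤ (q : ℝ) ^ (-σ) := Real.rpow_nonneg (Nat.cast_nonneg _) _
      have n1 : 0 ≤ (1 / c) * ∑ i, (if q.Prime ∧ q ∈ T i E then G' i E q * (q : ℝ) ^ (-σ) else 0) := by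
        refine mul_nonneg (by positivity) (Finset.sum_nonneg fun i _ => ?_)
        split_ifs
        · exact mul_nonneg (hG' _ _ _) hp
        · exact le_rfl
      have n2 : 0 ≤ (if q ∈ range (M + 1) then |G E q| else 0) := by
        split_ifs
        · exact abs_nonneg _
        · exact le_rfl
      by_cases hq : q.Prime ∧ q ∈ S E
      · rw [if_pos hq]
        by_cases hM : M < q
        · have hE' : E = 1 ∨ E = 2 := by simpa using hE
          have h3 := hyp E q hE' hq.1 hM hq.2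
          have h4 : G E q * (q : ℝ) ^ (-σ) ≤ (1 / c) *
              ∑ i, (if q.Prime ∧ q ∈ T i E then G' i E q * (q : ℝ) ^ (-σ) else 0) := by
            have h5 : ∑ i, (if q.Prime ∧ q ∈ T i E then G' i E q * (q : ℝ) ^ (-σ) else 0) =
                (∑ i, (if q ∈ T i E then G' i E q else 0)) * (q : ℝ) ^ (-σ) := by
              rw [Finset.sum_mul]
              refine Finset.sum_congr rfl fun i _ => ?_
              by_cases h6 : q ∈ T i E
              · rw [if_pos ⟨hq.1, h6⟩, if_pos h6]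
              · rw [if_neg (fun h => h6 h.2), if_neg h6, zero_mul]
            rw [h5, ← mul_assoc]
            refine mul_le_mul_of_nonneg_right ?_ hp
            rw [one_div, ← div_eq_inv_mul, le_div_iff₀ hc, mul_comm]
            exact h3
          linarith
        · have hr : q ∈ range (M + 1) := by
            rw [mem_range]
            omega
          rw [if_pos hr]
          have h7 : G E q * (q : ℝ) ^ (-σ) ≤ |G E q| := by
            calc G E q * (q : ℝ) ^ (-σ) ≤ |G E q| * (q : ℝ) ^ (-σ) :=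
                  mul_le_mul_of_nonneg_right (le_abs_self _) hp
              _ ≤ |G E q| * 1 :=
                  mul_le_mul_of_nonneg_left (UPS.rpow_le_one' q hq.1 σ h1) (abs_nonneg _)
              _ = |G E q| := mul_one _
          linarith
      · rw [if_neg hq]
        linarith
    have s1 : ∑ E ∈ ({1, 2} : Finset ℕ), ∑ q ∈ U,
        (if q.Prime ∧ q ∈ S E then G E q * (q : ℝ) ^ (-σ) else 0) ≤
        ∑ E ∈ ({1, 2} : Finset ℕ), ∑ q ∈ U,
        ((1 / c) * ∑ i, (if q.Prime ∧ q ∈ T i E then G' i E q * (q : ℝ) ^ (-σ) else 0) +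
          (if q ∈ range (M + 1) then |G E q| else 0)) :=
      Finset.sum_le_sum fun E hE => Finset.sum_le_sum fun q hq => term E hE q hq
    have s2 : ∑ E ∈ ({1, 2} : Finset ℕ), ∑ q ∈ U,
        ((1 / c) * ∑ i, (if q.Prime ∧ q ∈ T i E then G' i E q * (q : ℝ) ^ (-σ) else 0) +
          (if q ∈ range (M + 1) then |G E q| else 0)) =
        (1 / c) * ∑ i, ∑ E ∈ ({1, 2} : Finset ℕ), ∑ q ∈ U,
          (if q.Prime ∧ q ∈ T i E then G' i E q * (q : ℝ) ^ (-σ) else 0) +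
        ∑ E ∈ ({1, 2} : Finset ℕ), ∑ q ∈ U, (if q ∈ range (M + 1) then |G E q| else 0) := by
      simp only [Finset.sum_add_distrib, ← Finset.mul_sum]
      congr 2
      have hcomm : ∀ g : ι → ℕ → ℕ → ℝ, ∑ E ∈ ({1, 2} : Finset ℕ), ∑ q ∈ U, ∑ i, g i E q =
          ∑ i, ∑ E ∈ ({1, 2} : Finset ℕ), ∑ q ∈ U, g i E q := by
        intro g
        have h8 : ∀ E ∈ ({1, 2} : Finset ℕ), ∑ q ∈ U, ∑ i, g i E q = ∑ i, ∑ q ∈ U, g i E q :=
          fun E _ => Finset.sum_comm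
        rw [Finset.sum_congr rfl h8]
        exact Finset.sum_comm
      exact hcomm fun i E q => if q.Prime ∧ q ∈ T i E then G' i E q * (q : ℝ) ^ (-σ) else 0
    have s3 : ∑ i, ∑ E ∈ ({1, 2} : Finset ℕ), ∑ q ∈ U,
          (if q.Prime ∧ q ∈ T i E then G' i E q * (q : ℝ) ^ (-σ) else 0) ≤
        ∑ i, (x i * Real.log (1 / (σ - 1)) + K i) :=
      Finset.sum_le_sum fun i _ => hK i σ h1 h2 U
    have s4 : ∑ E ∈ ({1, 2} : Finset ℕ), ∑ q ∈ U, (if q ∈ range (M + 1) then |G E q| else 0) ≤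
        ∑ E ∈ ({1, 2} : Finset ℕ), ∑ q ∈ range (M + 1), |G E q| := by
      refine Finset.sum_le_sum fun E _ => ?_
      rw [← Finset.sum_filter]
      refine Finset.sum_le_sum_of_subset_of_nonneg ?_ fun _ _ _ => abs_nonneg _
      intro q hq
      exact (Finset.mem_filter.1 hq).2
    have s5 : (1 / c) * ∑ i, ∑ E ∈ ({1, 2} : Finset ℕ), ∑ q ∈ U,
          (if q.Prime ∧ q ∈ T i E then G' i E q * (q : ℝ) ^ (-σ) else 0) ≤
        (1 / c) * ∑ i, (x i * Real.log (1 / (σ - 1)) + K i) :=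
      mul_le_mul_of_nonneg_left s3 (by positivity)
    have s6 : (1 / c) * ∑ i, (x i * Real.log (1 / (σ - 1)) + K i) =
        (∑ i, x i) / c * Real.log (1 / (σ - 1)) + (∑ i, K i) / c := by
      rw [Finset.sum_add_distrib, ← Finset.sum_mul]
      ring
    rw [s2] at s1
    linarith
  · rintro S G x y hxy ⟨K, hK⟩
    refine ⟨K, fun σ h1 h2 U => (hK σ h1 h2 U).trans ?_⟩
    have h3 := mul_le_mul_of_nonneg_right hxy (UPS.log_nn σ h1 h2)
    linarith
  · rintro S G x c hc ⟨K, hK⟩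
    refine ⟨c * K, fun σ h1 h2 U => ?_⟩
    have h3 := mul_le_mul_of_nonneg_left (hK σ h1 h2 U) hc
    have h4 : ∑ E ∈ ({1, 2} : Finset ℕ), ∑ q ∈ U,
        (if q.Prime ∧ q ∈ S E then c * G E q * (q : ℝ) ^ (-σ) else 0) =
        c * ∑ E ∈ ({1, 2} : Finset ℕ), ∑ q ∈ U,
        (if q.Prime ∧ q ∈ S E then G E q * (q : ℝ) ^ (-σ) else 0) := by
      rw [Finset.mul_sum]
      refine Finset.sum_congr rfl fun E _ => ?_
      rw [Finset.mul_sum]
      refine Finset.sum_congr rfl fun q _ => ?_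
      split_ifs
      · ring
      · ring
    rw [h4]
    calc _ ≤ c * (x * Real.log (1 / (σ - 1)) + K) := h3
      _ = c * x * Real.log (1 / (σ - 1)) + c * K := by ring

end Pool.Agent.PTK

end

section

/-!
# The joint governing field: summary for `Q = 1 (mod 3)`, generic pattern
-/

set_option autoImplicit false

open NumberField IsDedekindDomain Finset
open scoped nonZeroDivisors Pointwise

namespace Pool.Agent.PTK

open Pool.Agent.Lib_helper18 Pool.Agent.Lib_helper18.Eis Pool.Agent.Lib_helper84.Cub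
open Pool.Agent.PT Pool.Agent.PTE Pool.Agent.PT3 Pool.Agent.PTL Pool.Agent.PTN
open Pool.Agent.PT.GALD Pool.Agent.PTE.GALDS

namespace JAU

variable {L : Type} [Field L] [NumberField L]

theorem inv_sq {ι : Eis →+* L} {τ : L ≃ₐ[ℚ] L} (hτ : τ (ι w) = ι w ^ 2) :
    τ⁻¹ (ι w) = ι w ^ 2 := by
  have h1 : τ (ι w ^ 2) = ι w := by rw [map_pow, hτ, GAK.om4]
  conv_lhs => rw [← h1]
  rw [← AlgEquiv.mul_apply, inv_mul_cancel]
  rfl

theorem conj_om {ι : Eis →+* L} {g : L ≃ₐ[ℚ] L} (hg : g (ι w) = ι w) (τ : L ≃ₐ[ℚ] L) :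
    (τ * g * τ⁻¹) (ι w) = ι w := by
  rcases GAK.cases_om ι τ with hτ | hτ
  · rw [AlgEquiv.mul_apply, AlgEquiv.mul_apply, GAK.inv_fix hτ, hg, hτ]
  · rw [AlgEquiv.mul_apply, AlgEquiv.mul_apply, inv_sq hτ, map_pow, hg, map_pow, hτ, GAK.om4]

theorem mul_om {ι : Eis →+* L} {g h : L ≃ₐ[ℚ] L} (hg : g (ι w) = ι w ^ 2)
    (hh : h (ι w) = ι w ^ 2) : (g * h) (ι w) = ι w := by
  rw [AlgEquiv.mul_apply, hh, map_pow, hg, GAK.om4]

theorem pow_fix {g : L ≃ₐ[ℚ] L} {y : L} (h : g y = y) (l : ℕ) : (g ^ l) y = y := by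
  induction l with
  | zero => rfl
  | succ l ih => rw [pow_succ, AlgEquiv.mul_apply, h, ih]

theorem neg_val : ∀ a c : ZMod 3, (2 * (-a).val + c.val) % 3 = (c + a).val % 3 := by decide

theorem two_mul_two : ∀ a : ZMod 3, 2 * a + 2 * a = a := by decide

end JAU

theorem JAU_thm (hJZ : Stmt_JZ) (hGCHI : GCHI) (hGTS : GTS) (hGKUM : GKUM)
    (hGFRU : Stmt_GFRU) (hGTU : Stmt_GTU) (hGFKU : Stmt_GFKU) (hJC1 : Stmt_JC1)
    (hJC2 : Stmt_JC2) : Stmt_JAU := by
  classical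
  intro s b p q p' q' k x u P Q P' Q' f hSys hSysK hf h9
  obtain ⟨L, hF, hN, ζ, ι, hJ⟩ := hJZ (s + 1) k b p q p' q' x u P Q P' Q' f hSys hSysK hf h9
  have hG := hJ.plus
  have hGK := hJ.minus
  have hgal := hG.gal
  obtain ⟨χ, hχs, hχζ, hχF⟩ := hGCHI L f ζ hf hG.prim
  obtain ⟨N₁, hFr⟩ := hGFRU s b p q p' q' f L ζ (ι w) hSys hG
  obtain ⟨N₂, hFrK⟩ := hGFKU k x u P Q P' Q' f L ζ ι hSysK hGK
  have hω3 : ι w ^ 3 = 1 := om_cube hG.rel
  have hf1 : 1 < f := by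
    obtain ⟨c, hc⟩ := h9
    omega
  have h3f : 3 ∣ f := (by norm_num : (3 : ℕ) ∣ 9).trans h9
  have hfz : NeZero f := ⟨hf.ne'⟩
  obtain ⟨hT1, hT⟩ := hGTS s b p q p' q' f L ζ (ι w) hSys hG
  obtain ⟨hU1, hU2, hU⟩ := hGTU k x u P Q P' Q' f L ζ ι hSysK hGK
  -- action on ω
  have hωχ : ∀ g : L ≃ₐ[ℚ] L, g (ι w) = ι w ^ ((χ g : ZMod f)).val := by
    intro g
    rw [hG.hω, map_pow, hχζ g, ← pow_mul, mul_comm, pow_mul, ← hG.hω]
  have hM : ∀ g : L ≃ₐ[ℚ] L, M1 (χ g) → g (ι w) = ι w := by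
    intro g hg
    rw [hωχ g]
    conv_rhs => rw [← pow_one (ι w)]
    apply om_congr hω3
    unfold M1 at hg
    omega
  -- an automorphism with `c ω = ω²`
  obtain ⟨c, hc⟩ : ∃ c : L ≃ₐ[ℚ] L, c (ι w) = ι w ^ 2 := by
    have h1 : (f - 1).Coprime f := by
      have h2 : (f - 1).Coprime (f - 1 + 1) := by simp
      rwa [Nat.sub_add_cancel hf] at h2
    obtain ⟨c, hc⟩ := hχs (ZMod.unitOfCoprime (f - 1) h1)
    refine ⟨c, ?_⟩
    rw [hωχ c, hc, ZMod.coe_unitOfCoprime, ZMod.val_natCast, Nat.mod_eq_of_lt (by omega)]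
    apply om_congr hω3
    omega
  have hc' : c⁻¹ (ι w) = ι w ^ 2 := JAU.inv_sq hc
  have hb0 : ∀ j, b j ≠ 0 := by
    intro j h0
    refine hSys.ind (Pi.single j 1) ⟨j, by simp⟩ ⟨0, ?_⟩
    have h1 : ∏ i, b i ^ (Pi.single j 1 : Fin (s + 1) → ℕ) i = 0 := by
      refine Finset.prod_eq_zero (Finset.mem_univ j) ?_
      rw [Pi.single_eq_same, pow_one, h0]
    rw [h1]
    norm_num
  have hz1 : ∀ z : L ≃ₐ[ℚ] L, z ζ = ζ → z (ι w) = ι w ∧ χ z = 1 := by
    intro z hzζ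
    refine ⟨by rw [hG.hω, map_pow, hzζ], ?_⟩
    have h1 := hχζ z
    rw [hzζ] at h1
    have h2 : ((χ z : ZMod f)).val = 1 := by
      apply hG.prim.pow_inj (ZMod.val_lt _) hf1
      rw [← h1, pow_one]
    apply Units.ext
    have h3 := ZMod.natCast_zmod_val (χ z : ZMod f)
    rw [h2] at h3
    rw [← h3]
    simp
  let t : (L ≃ₐ[ℚ] L) → Fin s → Fin s → ZMod 3 := fun g j i =>
    if h : j ≠ i ∧ g (ι w) = ι w ∧ Fx b g then ((hT j i h.1).1 g h.2.1 h.2.2).choose else 0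
  have ht : ∀ (g : L ≃ₐ[ℚ] L) (j i : Fin s), j ≠ i → g (ι w) = ι w → Fx b g →
      IsTS b p q p' q' (ι w) g j.castSucc i.castSucc (t g j i) := by
    intro g j i hji hg hF
    have h : j ≠ i ∧ g (ι w) = ι w ∧ Fx b g := ⟨hji, hg, hF⟩
    have e : t g j i = ((hT j i h.1).1 g h.2.1 h.2.2).choose := dif_pos h
    rw [e]
    exact ((hT j i h.1).1 g h.2.1 h.2.2).choose_spec.1
  have htu : ∀ (g : L ≃ₐ[ℚ] L) (j i : Fin s) (c : ZMod 3), j ≠ i → g (ι w) = ι w → Fx b g →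
      IsTS b p q p' q' (ι w) g j.castSucc i.castSucc c → t g j i = c := by
    intro g j i c hji hg hF hc
    exact ((hT j i hji).1 g hg hF).unique (ht g j i hji hg hF) hc
  -- the minus part
  let F₂ : (L ≃ₐ[ℚ] L) → Prop := fun g => g (ι w) = ι w ∧ FxU x u ι g
  let t₂ : (L ≃ₐ[ℚ] L) → Fin k → ZMod 3 := fun g j =>
    if h : F₂ g then ((hU j).1 g h.1 h.2).choose else 0
  have ht₂ : ∀ (g : L ≃ₐ[ℚ] L) (j : Fin k), F₂ g → IsTU x P Q P' Q' ι g j (t₂ g j) := by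
    intro g j h
    have e : t₂ g j = ((hU j).1 g h.1 h.2).choose := dif_pos h
    rw [e]
    exact ((hU j).1 g h.1 h.2).choose_spec.1
  have htu₂ : ∀ (g : L ≃ₐ[ℚ] L) (j : Fin k) (c : ZMod 3), F₂ g →
      IsTU x P Q P' Q' ι g j c → t₂ g j = c := by
    intro g j c h hc
    exact ((hU j).1 g h.1 h.2).unique (ht₂ g j h) hc
  have hF₂c : ∀ g τ : L ≃ₐ[ℚ] L, F₂ g → F₂ (τ * g * τ⁻¹) := fun g τ h =>
    ⟨JAU.conj_om h.1 τ, hU1 g τ h.1 h.2⟩
  have htc : ∀ (g τ : L ≃ₐ[ℚ] L) (j : Fin k), F₂ g → τ (ι w) = ι w →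
      t₂ (τ * g * τ⁻¹) j = t₂ g j := by
    intro g τ j hg hτ
    exact htu₂ _ _ _ (hF₂c g τ hg) ((hU j).2.1 g τ _ hg.1 hg.2 hτ (ht₂ g j hg))
  let T : (L ≃ₐ[ℚ] L) → Fin k → ZMod 3 := fun g j => t₂ g j + t₂ (c * g * c⁻¹) j
  refine ⟨L, hF, hN, hG.gal, χ, Fx b, t, F₂, T, max N₁ N₂, hχs, ?_, ?_, ?_, ?_, ?_, ?_, ?_⟩
  · intro g τ hg hFg
    obtain ⟨_, h1, _⟩ := hT1 g (hM g hg) hFg
    obtain ⟨h2, h3⟩ := h1 τ
    refine ⟨h3, fun j i hji => ?_⟩
    exact htu _ _ _ _ hji h2 h3 ((hT j i hji).2.1 g τ _ (hM g hg) hFg (ht g j i hji (hM g hg) hFg))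
  · intro g l hg hFg hl
    obtain ⟨_, _, h1⟩ := hT1 g (hM g hg) hFg
    obtain ⟨h2, h3⟩ := h1 l
    refine ⟨h3 hl, fun j i hji => ?_⟩
    exact htu _ _ _ _ hji h2 (h3 hl) ((hT j i hji).2.2 g _ l (hM g hg)
      (ht g j i hji (hM g hg) hFg))
  · intro g τ _ hg
    refine ⟨hF₂c g τ hg, funext fun j => ?_⟩
    show t₂ (τ * g * τ⁻¹) j + t₂ (c * (τ * g * τ⁻¹) * c⁻¹) j = t₂ g j + t₂ (c * g * c⁻¹) j
    rcases GAK.cases_om ι τ with hτ | hτ
    · rw [htc g τ j hg hτ]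
      have e : c * (τ * g * τ⁻¹) * c⁻¹ = (c * τ * c⁻¹) * (c * g * c⁻¹) * (c * τ * c⁻¹)⁻¹ := by
        group
      rw [e, htc (c * g * c⁻¹) (c * τ * c⁻¹) j (hF₂c g c hg) (JAU.conj_om hτ c)]
    · have e1 : τ * g * τ⁻¹ = (τ * c⁻¹) * (c * g * c⁻¹) * (τ * c⁻¹)⁻¹ := by group
      have e2 : c * (τ * g * τ⁻¹) * c⁻¹ = (c * τ) * g * (c * τ)⁻¹ := by group
      rw [e2, htc g (c * τ) j hg (JAU.mul_om hc hτ), e1,
        htc (c * g * c⁻¹) (τ * c⁻¹) j (hF₂c g c hg) (JAU.mul_om hτ hc')]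
      ring
  · intro g l _ hg
    have hpow : ∀ (g : L ≃ₐ[ℚ] L), F₂ g → F₂ (g ^ l) := by
      intro g hg
      exact ⟨JAU.pow_fix hg.1 l, hU2 g l hg.2⟩
    have ht' : ∀ (g : L ≃ₐ[ℚ] L), F₂ g → ∀ j, t₂ (g ^ l) j = l * t₂ g j := by
      intro g hg j
      exact htu₂ _ _ _ (hpow g hg) ((hU j).2.2 g _ l hg.1 (ht₂ g j hg))
    refine ⟨hpow g hg, funext fun j => ?_⟩
    show t₂ (g ^ l) j + t₂ (c * g ^ l * c⁻¹) j = (l : ZMod 3) * (t₂ g j + t₂ (c * g * c⁻¹) j)
    have e : c * g ^ l * c⁻¹ = (c * g * c⁻¹) ^ l := by rw [conj_pow]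
    rw [e, ht' g hg j, ht' _ (hF₂c g c hg) j]
    ring
  · intro a v v' y y' ha
    obtain ⟨z₁, hz₁, hz₁P, hz₁M⟩ := hJC1 (s + 1) k b p q p' q' x u P Q P' Q' f L ζ ι hSys hSysK
      hJ (fun j => 2 * (y' j - y j))
    obtain ⟨z₂, hz₂, hz₂P, hz₂M⟩ := hJC2 (s + 1) k b p q p' q' x u P Q P' Q' f L ζ ι hSys hSysK
      hJ (fun j i => if h : j ≠ Fin.last s ∧ i ≠ Fin.last s then
        v' (j.castPred h.1) (i.castPred h.2) - v (j.castPred h.1) (i.castPred h.2) else 0)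
    obtain ⟨hz₁ω, hχz₁⟩ := hz1 z₁ hz₁.ze
    obtain ⟨hz₂ω, hχz₂⟩ := hz1 z₂ hz₂.ze
    set z := z₁ * z₂ with hz
    have hzω : z (ι w) = ι w := by rw [hz, AlgEquiv.mul_apply, hz₂ω, hz₁ω]
    have hχz : χ z = 1 := by rw [hz, map_mul, hχz₁, hχz₂, mul_one]
    have hzρ : ∀ (j : Fin (s + 1)) (ρ : L), ρ ^ 3 = (b j : L) → z ρ = ρ := by
      intro j ρ hρ
      rw [hz, AlgEquiv.mul_apply, hz₂.rb j ρ hρ, hz₁.rb j ρ hρ]
    have hzx : ∀ ρ : L, ρ ^ 3 = ι x → z ρ = ρ := by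
      intro ρ hρ
      rw [hz, AlgEquiv.mul_apply, hz₂.rx ρ hρ, hz₁.rx ρ hρ]
    have hzu : ∀ (j : Fin k) (ρ : L), ρ ^ 3 = ι (u j) → z ρ = ρ := by
      intro j ρ hρ
      rw [hz, AlgEquiv.mul_apply, hz₂.ru j ρ hρ, hz₁.ru j ρ hρ]
    have hFz : ∀ g : L ≃ₐ[ℚ] L, Fx b (g * z) ↔ Fx b g := by
      intro g
      have h1 : ∀ (j : Fin (s + 1)) (ρ : L), ρ ^ 3 = (b j : L) → (g * z) ρ = g ρ := by
        intro j ρ hρ
        rw [AlgEquiv.mul_apply, hzρ j ρ hρ]
      unfold Fx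
      constructor
      · rintro ⟨h2, h3⟩
        exact ⟨fun j ρ hρ => by rw [← h1 _ ρ hρ]; exact h2 j ρ hρ,
          fun ρ hρ => by rw [← h1 _ ρ hρ]; exact h3 ρ hρ⟩
      · rintro ⟨h2, h3⟩
        exact ⟨fun j ρ hρ => by rw [h1 _ ρ hρ]; exact h2 j ρ hρ,
          fun ρ hρ => by rw [h1 _ ρ hρ]; exact h3 ρ hρ⟩
    have hF₂z : ∀ g : L ≃ₐ[ℚ] L, F₂ (g * z) ↔ F₂ g := by
      intro g
      have h1 : ∀ ρ : L, ρ ^ 3 = ι x → (g * z) ρ = g ρ := by
        intro ρ hρ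
        rw [AlgEquiv.mul_apply, hzx ρ hρ]
      have h2 : ∀ (j : Fin k) (ρ : L), ρ ^ 3 = ι (u j) → (g * z) ρ = g ρ := by
        intro j ρ hρ
        rw [AlgEquiv.mul_apply, hzu j ρ hρ]
      have h3 : (g * z) (ι w) = g (ι w) := by rw [AlgEquiv.mul_apply, hzω]
      show ((g * z) (ι w) = ι w ∧ FxU x u ι (g * z)) ↔ (g (ι w) = ι w ∧ FxU x u ι g)
      rw [h3]
      unfold FxU
      constructor
      · rintro ⟨h4, h5, h6⟩
        exact ⟨h4, fun ρ hρ => by rw [← h1 ρ hρ]; exact h5 ρ hρ,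
          fun j ρ hρ => by rw [← h2 j ρ hρ]; exact h6 j ρ hρ⟩
      · rintro ⟨h4, h5, h6⟩
        exact ⟨h4, fun ρ hρ => by rw [h1 ρ hρ]; exact h5 ρ hρ,
          fun j ρ hρ => by rw [h2 j ρ hρ]; exact h6 j ρ hρ⟩
    have key : ∀ g : L ≃ₐ[ℚ] L, g (ι w) = ι w → Fx b g → ∀ j i, j < i →
        t (g * z) j i = (v' j i - v j i) + t g j i := by
      intro g hg hFg j i hji
      have hgz : (g * z) (ι w) = ι w := by rw [AlgEquiv.mul_apply, hzω, hg]
      apply htu _ _ _ _ hji.ne hgz ((hFz g).2 hFg)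
      intro ρ A hρ hA
      have h1 := ht g j i hji.ne hg hFg ρ A hρ hA
      have hlt : j.castSucc < i.castSucc := Fin.castSucc_lt_castSucc_iff.2 hji
      have h2 := hz₂P j.castSucc i.castSucc ρ A hlt ⟨hρ, hA⟩
      have h2' := hz₁P j.castSucc i.castSucc ρ A hlt.ne ⟨hρ, hA⟩
      have h3 : j.castSucc ≠ Fin.last s ∧ i.castSucc ≠ Fin.last s :=
        ⟨(Fin.castSucc_lt_last j).ne, (Fin.castSucc_lt_last i).ne⟩
      simp only [dif_pos h3, Fin.castPred_castSucc] at h2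
      rw [AlgEquiv.mul_apply, hz, AlgEquiv.mul_apply, h2, map_mul, map_pow, hz₁ω, h2', map_mul,
        map_pow, hg, h1, ← mul_assoc, om_add hω3]
    have key₂ : ∀ g : L ≃ₐ[ℚ] L, F₂ g → T (g * z) = T g + (y' - y) := by
      intro g hg
      funext j
      have hgz : F₂ (g * z) := (hF₂z g).2 hg
      have e1 : t₂ (g * z) j = 2 * (y' j - y j) + t₂ g j := by
        apply htu₂ _ _ _ hgz
        intro ρ A hA
        have h1 := ht₂ g j hg ρ A hA
        rw [AlgEquiv.mul_apply, hz, AlgEquiv.mul_apply, (hz₂M j ρ A hA).1, (hz₁M j ρ A hA).1,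
          map_mul, map_pow, hg.1, h1, ← mul_assoc, om_add hω3]
      have e2 : t₂ (c * (g * z) * c⁻¹) j = t₂ (c * g * c⁻¹) j + 2 * (y' j - y j) := by
        apply htu₂ _ _ _ (hF₂c _ c hgz)
        intro ρ A hA
        have h1 := ht₂ (c * g * c⁻¹) j (hF₂c g c hg) ρ A hA
        have h2 : (c * (g * z) * c⁻¹) A = c (g (z₁ (z₂ (c⁻¹ A)))) := by
          rw [hz]
          rfl
        have h3 : (c * g * c⁻¹) A = c (g (c⁻¹ A)) := rfl
        rw [h3] at h1
        rw [h2, (hz₂M j ρ A hA).2 c⁻¹ hc', (hz₁M j ρ A hA).2 c⁻¹ hc', map_mul, map_pow, hg.1,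
          map_mul, map_pow, hc, h1, ← mul_assoc, ← pow_mul, ← pow_add]
        congr 1
        apply om_congr hω3
        exact JAU.neg_val _ _
      show t₂ (g * z) j + t₂ (c * (g * z) * c⁻¹) j =
        t₂ g j + t₂ (c * g * c⁻¹) j + (y' j - y j)
      rw [e1, e2]
      have e3 := JAU.two_mul_two (y' j - y j)
      linear_combination e3
    apply Nat.card_congr
    refine Equiv.subtypeEquiv (Equiv.mulRight z) ?_
    intro g
    have hχ : χ (g * z) = χ g := by rw [map_mul, hχz, mul_one]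
    show (χ g = a ∧ Fx b g ∧ F₂ g ∧ T g = y ∧ ∀ j i, j < i → t g j i = v j i) ↔
      (χ (g * z) = a ∧ Fx b (g * z) ∧ F₂ (g * z) ∧ T (g * z) = y' ∧
        ∀ j i, j < i → t (g * z) j i = v' j i)
    rw [hχ, hFz g, hF₂z g]
    constructor
    · rintro ⟨h1, h2, h3, h4, h5⟩
      refine ⟨h1, h2, h3, ?_, fun j i hji => ?_⟩
      · rw [key₂ g h3, h4]
        abel
      · rw [key g (hM g (by rw [h1]; exact ha)) h2 j i hji, h5 j i hji]
        ring
    · rintro ⟨h1, h2, h3, h4, h5⟩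
      refine ⟨h1, h2, h3, ?_, fun j i hji => ?_⟩
      · rw [key₂ g h3] at h4
        funext j
        have h6 := congrFun h4 j
        simp only [Pi.add_apply, Pi.sub_apply] at h6
        linear_combination h6
      · have h6 := h5 j i hji
        rw [key g (hM g (by rw [h1]; exact ha)) h2 j i hji] at h6
        linear_combination h6
  · intro a ha
    choose θ hθ using hG.root
    have hθ0 : ∀ j, θ j ≠ 0 := by
      intro j h0
      have h1 := hθ j
      rw [h0] at h1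
      apply hb0 j
      have h2 : ((b j : ℤ) : L) = 0 := by rw [← h1]; norm_num
      exact_mod_cast h2
    have hex : ∀ (g : L ≃ₐ[ℚ] L) (j : Fin (s + 1)), ∃ u : ZMod 3,
        g (θ j) = ι w ^ u.val * θ j := by
      intro g j
      apply cube_root hG.rel
      rw [← map_pow, hθ j, map_intCast]
    choose uu huu using hex
    have huniq : ∀ (g : L ≃ₐ[ℚ] L) (j : Fin (s + 1)) (u : ZMod 3),
        g (θ j) = ι w ^ u.val * θ j → uu g j = u := by
      intro g j u h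
      apply om_zmod_inj hG.rel (hθ0 j)
      rw [← huu g j, h]
    -- criterion for `Fx`
    have hFu : ∀ g : L ≃ₐ[ℚ] L, g (ι w) = ι w → (Fx b g ↔
        (∀ j : Fin s, uu g j.castSucc = 0) ∧ uu g (Fin.last s) ≠ 0) := by
      intro g hg
      constructor
      · rintro ⟨h1, h2⟩
        refine ⟨fun j => ?_, fun h0 => ?_⟩
        · apply huniq
          rw [h1 j _ (hθ _)]
          simp
        · apply h2 _ (hθ _)
          rw [huu, h0]
          simp
      · rintro ⟨h1, h2⟩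
        have h3 : ∀ (j : Fin (s + 1)) (ρ : L), ρ ^ 3 = (b j : L) →
            g ρ = ι w ^ (uu g j).val * ρ := by
          intro j ρ hρ
          obtain ⟨u, hu⟩ := cube_root hG.rel (θ := θ j) (ρ := ρ) (by rw [hρ, hθ])
          rw [hu, map_mul, map_pow, hg, huu]
          ring
        refine ⟨fun j ρ hρ => ?_, fun ρ hρ h4 => ?_⟩
        · rw [h3 _ ρ hρ, h1 j]
          simp
        · rw [h3 _ ρ hρ] at h4
          have hρ0 : ρ ≠ 0 := by
            intro h0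
            rw [h0] at hρ
            apply hb0 (Fin.last s)
            have h5 : ((b (Fin.last s) : ℤ) : L) = 0 := by rw [← hρ]; norm_num
            exact_mod_cast h5
          apply h2
          apply om_zmod_inj hG.rel hρ0
          rw [h4]
          simp
    have hfib : ∀ w₁ w' : Fin (s + 1) → ZMod 3,
        (univ.filter fun g : L ≃ₐ[ℚ] L => χ g = a ∧ uu g = w₁).card =
        (univ.filter fun g : L ≃ₐ[ℚ] L => χ g = a ∧ uu g = w').card := by
      intro w₁ w'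
      obtain ⟨z, hzζ, hzρ⟩ := hGKUM (s + 1) b p q p' q' f L ζ (ι w) hSys hG (w' - w₁)
      obtain ⟨hzω, hχz⟩ := hz1 z hzζ
      have key : ∀ g : L ≃ₐ[ℚ] L, g (ι w) = ι w → uu (g * z) = (w' - w₁) + uu g := by
        intro g hg
        funext j
        apply huniq
        rw [AlgEquiv.mul_apply, hzρ j _ (hθ j), map_mul, map_pow, hg, huu, ← mul_assoc,
          om_add hω3]
        rfl
      refine Finset.card_bij (fun g _ => g * z) ?_ ?_ ?_
      · intro g hg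
        rw [mem_filter] at hg ⊢
        obtain ⟨_, h1, h2⟩ := hg
        refine ⟨mem_univ _, by rw [map_mul, hχz, mul_one, h1], ?_⟩
        rw [key g (hM g (by rw [h1]; exact ha)), h2]
        abel
      · intro g _ g' _ e
        exact mul_right_cancel e
      · intro g hg
        rw [mem_filter] at hg
        obtain ⟨_, h1, h2⟩ := hg
        have h3 : g * z⁻¹ * z = g := inv_mul_cancel_right g z
        have h4 : χ (g * z⁻¹) = a := by rw [map_mul, map_inv, hχz, inv_one, mul_one, h1]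
        refine ⟨g * z⁻¹, ?_, h3⟩
        rw [mem_filter]
        refine ⟨mem_univ _, h4, ?_⟩
        have h5 := key (g * z⁻¹) (hM _ (by rw [h4]; exact ha))
        rw [h3, h2] at h5
        funext j
        have h7 := congrFun h5 j
        simp only [Pi.add_apply, Pi.sub_apply] at h7
        linear_combination (-1 : ZMod 3) * h7
    have hsub : ∀ (D : Finset (Fin (s + 1) → ZMod 3)),
        (univ.filter fun g : L ≃ₐ[ℚ] L => χ g = a ∧ uu g ∈ D).card =
        D.card * (univ.filter fun g : L ≃ₐ[ℚ] L => χ g = a ∧ uu g = 0).card := by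
      intro D
      rw [Finset.card_eq_sum_card_fiberwise (f := uu) (t := D)]
      · rw [← smul_eq_mul, ← Finset.sum_const]
        refine Finset.sum_congr rfl fun w₁ hw => ?_
        rw [← hfib w₁ 0, Finset.filter_filter]
        congr 1
        apply Finset.filter_congr
        intro g _
        constructor
        · rintro ⟨⟨h1, _⟩, h2⟩
          exact ⟨h1, h2⟩
        · rintro ⟨h1, h2⟩
          exact ⟨⟨h1, by rw [h2]; exact hw⟩, h2⟩
      · intro g hg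
        have h1 := (mem_filter.1 (Finset.mem_coe.1 hg)).2.2
        exact h1
    have h1 : Nat.card {g : L ≃ₐ[ℚ] L // χ g = a} =
        3 ^ (s + 1) * (univ.filter fun g : L ≃ₐ[ℚ] L => χ g = a ∧ uu g = 0).card := by
      rw [Nat.card_eq_fintype_card, Fintype.card_subtype]
      have h2 := hsub univ
      simp only [mem_univ, and_true] at h2
      rw [h2, Finset.card_univ, Fintype.card_fun, ZMod.card, Fintype.card_fin]
    have h2 : Nat.card {g : L ≃ₐ[ℚ] L // χ g = a ∧ Fx b g} =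
        2 * (univ.filter fun g : L ≃ₐ[ℚ] L => χ g = a ∧ uu g = 0).card := by
      rw [Nat.card_eq_fintype_card, Fintype.card_subtype]
      have h2 := hsub (univ.filter fun w₁ : Fin (s + 1) → ZMod 3 =>
        (∀ j : Fin s, w₁ j.castSucc = 0) ∧ w₁ (Fin.last s) ≠ 0)
      rw [card_good] at h2
      rw [← h2]
      congr 1
      apply Finset.filter_congr
      intro g _
      constructor
      · rintro ⟨h3, h4⟩
        refine ⟨h3, mem_filter.2 ⟨mem_univ _, ?_⟩⟩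
        exact (hFu g (hM g (by rw [h3]; exact ha))).1 h4
      · rintro ⟨h3, h4⟩
        exact ⟨h3, (hFu g (hM g (by rw [h3]; exact ha))).2 (mem_filter.1 h4).2⟩
    rw [h1, h2]
    ring
  · intro N hN hNp hN₀ I g hI hNI hst
    have hfin := GFR.quo_finite hNp hI hNI
    obtain ⟨l, hl, hfr⟩ := GFR.exists_frob_gen (R := ℤ) I g hst
    have hχl := hχF N hN hNp I (g ^ l) hI hNI hfr
    refine ⟨l, hl, hχl, fun hN3 ρ hρ => ?_⟩
    obtain ⟨h1, h2⟩ := hFr N hNp (lt_of_le_of_lt (le_max_left _ _) hN₀) hN3 I hI hNI (g ^ l) hfr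
      ρ hρ
    have hM1 : M1 (χ (g ^ l)) := by
      unfold M1
      rw [hχl, ZMod.coe_unitOfCoprime, ZMod.val_natCast, Nat.mod_mod_of_dvd _ h3f]
      exact hN3
    refine ⟨h1, fun hF j i hji r hr => ?_, fun hx hu => ?_⟩
    · exact h2 hF j i hji r _ hr (ht (g ^ l) j i hji (hM _ hM1) hF)
    · obtain ⟨h3, h4, h5⟩ := hFrK N hNp (lt_of_le_of_lt (le_max_right _ _) hN₀) hN3 I hI hNI
        (g ^ l) hfr ρ hρ hx hu
      have h6 : F₂ (g ^ l) := ⟨h3, h4⟩
      refine ⟨h6, fun j r r' hr hr' => ?_⟩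
      exact h5 c hc j r r' _ _ hr hr' (ht₂ (g ^ l) j h6) (ht₂ _ j (hF₂c (g ^ l) c h6))

end Pool.Agent.PTK

end

section

/-!
# All moments: the joint governing field, summary for `Q = 1 (mod 3)`, generic pattern

Copy of `PTK/JAU.lean` for several base classes.
-/

set_option autoImplicit false

open NumberField IsDedekindDomain Finset
open scoped nonZeroDivisors Pointwise

namespace Pool.Agent.PTK

open Pool.Agent.Lib_helper18 Pool.Agent.Lib_helper18.Eis Pool.Agent.Lib_helper84.Cub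
open Pool.Agent.PT Pool.Agent.PTE Pool.Agent.PT3 Pool.Agent.PTL Pool.Agent.PTN
open Pool.Agent.PT.GALD Pool.Agent.PTE.GALDS

namespace MAU

/-- one class of a system, no pairs -/
theorem sysZero {M N : ℕ} {z : Fin M → Eis} {α β : Fin N → Fin M} {P Q P' Q' : Fin N → Eis}
    (hS : SysZ z α β P Q P' Q') (i : Fin M) :
    SysK (z i) (Fin.elim0 : Fin 0 → Eis) Fin.elim0 Fin.elim0 Fin.elim0 Fin.elim0 := by
  refine ⟨fun c₀ c h hc => ?_, fun j => j.elim0, hS.cz i, fun j => j.elim0⟩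
  have h1 : ¬ 3 ∣ c₀ := by
    rcases h with h | ⟨j, _⟩
    · exact h
    · exact j.elim0
  obtain ⟨t, ht⟩ := hc
  refine hS.ind (Pi.single i c₀) ⟨i, by rwa [Pi.single_eq_same]⟩ ⟨t, ht.trans ?_⟩
  have e1 : ∏ j, z j ^ (Pi.single i c₀ : Fin M → ℕ) j = z i ^ c₀ := by
    rw [Finset.prod_eq_single i]
    · rw [Pi.single_eq_same]
    · intro j _ hj
      rw [Pi.single_eq_of_ne hj, pow_zero]
    · intro h
      exact absurd (Finset.mem_univ i) h
  rw [e1]
  simp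

theorem govZero {M N : ℕ} {z : Fin M → Eis} {α : Fin N → Fin M} {P Q P' Q' : Fin N → Eis}
    {f : ℕ} {L : Type} [Field L] [NumberField L] {ζ : L} {ι : Eis →+* L}
    (hG : GovZ z α P Q P' Q' f L ζ ι) (i : Fin M) :
    GovK (z i) (Fin.elim0 : Fin 0 → Eis) Fin.elim0 Fin.elim0 Fin.elim0 Fin.elim0 f L ζ ι :=
  ⟨hG.gal, hG.prim, hG.nine, hG.hω, hG.rz i, fun j => j.elim0, fun j => j.elim0,
    fun j => j.elim0⟩

/-- the relation between `g` and `t_r(g)` -/
def IsTW {M N : ℕ} (z : Fin M → Eis) (α : Fin N → Fin M) (P Q P' Q' : Fin N → Eis) {L : Type}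
    [Field L] [NumberField L] (ι : Eis →+* L) (g : L ≃ₐ[ℚ] L) (r : Fin N) (t : ZMod 3) : Prop :=
  IsTU (z (α r)) (fun _ : Fin 1 => P r) (fun _ => Q r) (fun _ => P' r) (fun _ => Q' r) ι g 0 t

/-- `g` fixes the roots of all classes -/
def FxZ {M : ℕ} (z : Fin M → Eis) {L : Type} [Field L] [NumberField L] (ι : Eis →+* L)
    (g : L ≃ₐ[ℚ] L) : Prop :=
  ∀ (i : Fin M) (ρ : L), ρ ^ 3 = ι (z i) → g ρ = ρ

theorem FxZ.one {M : ℕ} {z : Fin M → Eis} {L : Type} [Field L] [NumberField L] {ι : Eis →+* L}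
    {g : L ≃ₐ[ℚ] L} (h : FxZ z ι g) (i j : Fin M) : FxU (z i) (fun _ : Fin 1 => z j) ι g :=
  ⟨h i, fun _ => h j⟩

theorem FxZ.zero {M : ℕ} {z : Fin M → Eis} {L : Type} [Field L] [NumberField L] {ι : Eis →+* L}
    {g : L ≃ₐ[ℚ] L} (h : FxZ z ι g) (i : Fin M) :
    FxU (z i) (Fin.elim0 : Fin 0 → Eis) ι g :=
  ⟨h i, fun j => j.elim0⟩

end MAU

theorem MAU_thm (hMZF : Stmt_MZF) (hGCHI : GCHI) (hGTS : GTS) (hGKUM : GKUM)
    (hGFRU : Stmt_GFRU) (hGTU : Stmt_GTU) (hGFKU : Stmt_GFKU) (hMC1 : Stmt_MC1)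
    (hMC2 : Stmt_MC2) : Stmt_MAU := by
  classical
  intro s b p q p' q' M N z α β P Q P' Q' f hSys hSysZ hf h9
  obtain ⟨L, hF, hN, ζ, ι, hJ⟩ := hMZF (s + 1) M N b p q p' q' z α β P Q P' Q' f hSys hSysZ hf h9
  have hG := hJ.plus
  have hGK := hJ.minus
  have hgal := hG.gal
  obtain ⟨χ, hχs, hχζ, hχF⟩ := hGCHI L f ζ hf hG.prim
  obtain ⟨N₁, hFr⟩ := hGFRU s b p q p' q' f L ζ (ι w) hSys hG
  have hFrZ := fun r : Fin N => hGFKU 1 (z (α r)) (fun _ => z (β r)) (fun _ => P r) (fun _ => Q r)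
    (fun _ => P' r) (fun _ => Q' r) f L ζ ι (hSysZ.one r) (hGK.one r)
  have hFr0 := fun i : Fin M => hGFKU 0 (z i) Fin.elim0 Fin.elim0 Fin.elim0 Fin.elim0 Fin.elim0
    f L ζ ι (MAU.sysZero hSysZ i) (MAU.govZero hGK i)
  choose N₂ hFrK using hFrZ
  choose N₃ hFr1 using hFr0
  have hω3 : ι w ^ 3 = 1 := om_cube hG.rel
  have hf1 : 1 < f := by
    obtain ⟨c, hc⟩ := h9
    omega
  have h3f : 3 ∣ f := (by norm_num : (3 : ℕ) ∣ 9).trans h9
  have hfz : NeZero f := ⟨hf.ne'⟩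
  obtain ⟨hT1, hT⟩ := hGTS s b p q p' q' f L ζ (ι w) hSys hG
  have hU := fun r : Fin N => hGTU 1 (z (α r)) (fun _ => z (β r)) (fun _ => P r) (fun _ => Q r)
    (fun _ => P' r) (fun _ => Q' r) f L ζ ι (hSysZ.one r) (hGK.one r)
  have hU0 := fun i : Fin M => hGTU 0 (z i) Fin.elim0 Fin.elim0 Fin.elim0 Fin.elim0 Fin.elim0
    f L ζ ι (MAU.sysZero hSysZ i) (MAU.govZero hGK i)
  -- action on ω
  have hωχ : ∀ g : L ≃ₐ[ℚ] L, g (ι w) = ι w ^ ((χ g : ZMod f)).val := by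
    intro g
    rw [hG.hω, map_pow, hχζ g, ← pow_mul, mul_comm, pow_mul, ← hG.hω]
  have hM : ∀ g : L ≃ₐ[ℚ] L, M1 (χ g) → g (ι w) = ι w := by
    intro g hg
    rw [hωχ g]
    conv_rhs => rw [← pow_one (ι w)]
    apply om_congr hω3
    unfold M1 at hg
    omega
  -- an automorphism with `c ω = ω²`
  obtain ⟨c, hc⟩ : ∃ c : L ≃ₐ[ℚ] L, c (ι w) = ι w ^ 2 := by
    have h1 : (f - 1).Coprime f := by
      have h2 : (f - 1).Coprime (f - 1 + 1) := by simp
      rwa [Nat.sub_add_cancel hf] at h2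
    obtain ⟨c, hc⟩ := hχs (ZMod.unitOfCoprime (f - 1) h1)
    refine ⟨c, ?_⟩
    rw [hωχ c, hc, ZMod.coe_unitOfCoprime, ZMod.val_natCast, Nat.mod_eq_of_lt (by omega)]
    apply om_congr hω3
    omega
  have hc' : c⁻¹ (ι w) = ι w ^ 2 := JAU.inv_sq hc
  have hb0 : ∀ j, b j ≠ 0 := by
    intro j h0
    refine hSys.ind (Pi.single j 1) ⟨j, by simp⟩ ⟨0, ?_⟩
    have h1 : ∏ i, b i ^ (Pi.single j 1 : Fin (s + 1) → ℕ) i = 0 := by
      refine Finset.prod_eq_zero (Finset.mem_univ j) ?_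
      rw [Pi.single_eq_same, pow_one, h0]
    rw [h1]
    norm_num
  have hz1 : ∀ y : L ≃ₐ[ℚ] L, y ζ = ζ → y (ι w) = ι w ∧ χ y = 1 := by
    intro y hzζ
    refine ⟨by rw [hG.hω, map_pow, hzζ], ?_⟩
    have h1 := hχζ y
    rw [hzζ] at h1
    have h2 : ((χ y : ZMod f)).val = 1 := by
      apply hG.prim.pow_inj (ZMod.val_lt _) hf1
      rw [← h1, pow_one]
    apply Units.ext
    have h3 := ZMod.natCast_zmod_val (χ y : ZMod f)
    rw [h2] at h3
    rw [← h3]
    simp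
  let t : (L ≃ₐ[ℚ] L) → Fin s → Fin s → ZMod 3 := fun g j i =>
    if h : j ≠ i ∧ g (ι w) = ι w ∧ Fx b g then ((hT j i h.1).1 g h.2.1 h.2.2).choose else 0
  have ht : ∀ (g : L ≃ₐ[ℚ] L) (j i : Fin s), j ≠ i → g (ι w) = ι w → Fx b g →
      IsTS b p q p' q' (ι w) g j.castSucc i.castSucc (t g j i) := by
    intro g j i hji hg hF
    have h : j ≠ i ∧ g (ι w) = ι w ∧ Fx b g := ⟨hji, hg, hF⟩
    have e : t g j i = ((hT j i h.1).1 g h.2.1 h.2.2).choose := dif_pos h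
    rw [e]
    exact ((hT j i h.1).1 g h.2.1 h.2.2).choose_spec.1
  have htu : ∀ (g : L ≃ₐ[ℚ] L) (j i : Fin s) (c : ZMod 3), j ≠ i → g (ι w) = ι w → Fx b g →
      IsTS b p q p' q' (ι w) g j.castSucc i.castSucc c → t g j i = c := by
    intro g j i c hji hg hF hc
    exact ((hT j i hji).1 g hg hF).unique (ht g j i hji hg hF) hc
  -- the minus part
  let F₂ : (L ≃ₐ[ℚ] L) → Prop := fun g => g (ι w) = ι w ∧ MAU.FxZ z ι g
  have hone : ∀ (g : L ≃ₐ[ℚ] L) (r : Fin N), F₂ g →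
      FxU (z (α r)) (fun _ : Fin 1 => z (β r)) ι g := fun g r h => h.2.one (α r) (β r)
  let t₂ : (L ≃ₐ[ℚ] L) → Fin N → ZMod 3 := fun g r =>
    if h : F₂ g then (((hU r).2.2 0).1 g h.1 (hone g r h)).choose else 0
  have ht₂ : ∀ (g : L ≃ₐ[ℚ] L) (r : Fin N), F₂ g →
      MAU.IsTW z α P Q P' Q' ι g r (t₂ g r) := by
    intro g r h
    have e : t₂ g r = (((hU r).2.2 0).1 g h.1 (hone g r h)).choose := dif_pos h
    rw [e]
    exact (((hU r).2.2 0).1 g h.1 (hone g r h)).choose_spec.1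
  have htu₂ : ∀ (g : L ≃ₐ[ℚ] L) (r : Fin N) (c : ZMod 3), F₂ g →
      MAU.IsTW z α P Q P' Q' ι g r c → t₂ g r = c := by
    intro g r c h hc
    exact (((hU r).2.2 0).1 g h.1 (hone g r h)).unique (ht₂ g r h) hc
  have hF₂c : ∀ g τ : L ≃ₐ[ℚ] L, F₂ g → F₂ (τ * g * τ⁻¹) := fun g τ h =>
    ⟨JAU.conj_om h.1 τ, fun i => ((hU0 i).1 g τ h.1 (h.2.zero i)).1⟩
  have htc : ∀ (g τ : L ≃ₐ[ℚ] L) (j : Fin N), F₂ g → τ (ι w) = ι w →
      t₂ (τ * g * τ⁻¹) j = t₂ g j := by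
    intro g τ j hg hτ
    exact htu₂ _ _ _ (hF₂c g τ hg)
      (((hU j).2.2 0).2.1 g τ _ hg.1 (hone g j hg) hτ (ht₂ g j hg))
  let T : (L ≃ₐ[ℚ] L) → Fin N → ZMod 3 := fun g j => t₂ g j + t₂ (c * g * c⁻¹) j
  refine ⟨L, hF, hN, hG.gal, χ, Fx b, t, F₂, T,
    max N₁ (max (univ.sup N₂) (univ.sup N₃)), hχs, ?_, ?_, ?_, ?_, ?_, ?_, ?_⟩
  · intro g τ hg hFg
    obtain ⟨_, h1, _⟩ := hT1 g (hM g hg) hFg
    obtain ⟨h2, h3⟩ := h1 τ
    refine ⟨h3, fun j i hji => ?_⟩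
    exact htu _ _ _ _ hji h2 h3 ((hT j i hji).2.1 g τ _ (hM g hg) hFg (ht g j i hji (hM g hg) hFg))
  · intro g l hg hFg hl
    obtain ⟨_, _, h1⟩ := hT1 g (hM g hg) hFg
    obtain ⟨h2, h3⟩ := h1 l
    refine ⟨h3 hl, fun j i hji => ?_⟩
    exact htu _ _ _ _ hji h2 (h3 hl) ((hT j i hji).2.2 g _ l (hM g hg)
      (ht g j i hji (hM g hg) hFg))
  · intro g τ _ hg
    refine ⟨hF₂c g τ hg, funext fun j => ?_⟩
    show t₂ (τ * g * τ⁻¹) j + t₂ (c * (τ * g * τ⁻¹) * c⁻¹) j = t₂ g j + t₂ (c * g * c⁻¹) j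
    rcases GAK.cases_om ι τ with hτ | hτ
    · rw [htc g τ j hg hτ]
      have e : c * (τ * g * τ⁻¹) * c⁻¹ = (c * τ * c⁻¹) * (c * g * c⁻¹) * (c * τ * c⁻¹)⁻¹ := by
        group
      rw [e, htc (c * g * c⁻¹) (c * τ * c⁻¹) j (hF₂c g c hg) (JAU.conj_om hτ c)]
    · have e1 : τ * g * τ⁻¹ = (τ * c⁻¹) * (c * g * c⁻¹) * (τ * c⁻¹)⁻¹ := by group
      have e2 : c * (τ * g * τ⁻¹) * c⁻¹ = (c * τ) * g * (c * τ)⁻¹ := by group
      rw [e2, htc g (c * τ) j hg (JAU.mul_om hc hτ), e1,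
        htc (c * g * c⁻¹) (τ * c⁻¹) j (hF₂c g c hg) (JAU.mul_om hτ hc')]
      ring
  · intro g l _ hg
    have hpow : ∀ (g : L ≃ₐ[ℚ] L), F₂ g → F₂ (g ^ l) := by
      intro g hg
      exact ⟨JAU.pow_fix hg.1 l, fun i => ((hU0 i).2.1 g l (hg.2.zero i)).1⟩
    have ht' : ∀ (g : L ≃ₐ[ℚ] L), F₂ g → ∀ j, t₂ (g ^ l) j = l * t₂ g j := by
      intro g hg j
      exact htu₂ _ _ _ (hpow g hg) (((hU j).2.2 0).2.2 g _ l hg.1 (ht₂ g j hg))
    refine ⟨hpow g hg, funext fun j => ?_⟩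
    show t₂ (g ^ l) j + t₂ (c * g ^ l * c⁻¹) j = (l : ZMod 3) * (t₂ g j + t₂ (c * g * c⁻¹) j)
    have e : c * g ^ l * c⁻¹ = (c * g * c⁻¹) ^ l := by rw [conj_pow]
    rw [e, ht' g hg j, ht' _ (hF₂c g c hg) j]
    ring
  · intro a v v' y y' ha
    obtain ⟨z₁, hz₁, hz₁P, hz₁M⟩ := hMC1 (s + 1) M N b p q p' q' z α β P Q P' Q' f L ζ ι hSys
      hSysZ hJ (fun j => 2 * (y' j - y j))
    obtain ⟨z₂, hz₂, hz₂P, hz₂M⟩ := hMC2 (s + 1) M N b p q p' q' z α β P Q P' Q' f L ζ ι hSys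
      hSysZ hJ (fun j i => if h : j ≠ Fin.last s ∧ i ≠ Fin.last s then
        v' (j.castPred h.1) (i.castPred h.2) - v (j.castPred h.1) (i.castPred h.2) else 0)
    obtain ⟨hz₁ω, hχz₁⟩ := hz1 z₁ hz₁.ze
    obtain ⟨hz₂ω, hχz₂⟩ := hz1 z₂ hz₂.ze
    set y₀ := z₁ * z₂ with hz
    have hzω : y₀ (ι w) = ι w := by rw [hz, AlgEquiv.mul_apply, hz₂ω, hz₁ω]
    have hχz : χ y₀ = 1 := by rw [hz, map_mul, hχz₁, hχz₂, mul_one]
    have hzρ : ∀ (j : Fin (s + 1)) (ρ : L), ρ ^ 3 = (b j : L) → y₀ ρ = ρ := by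
      intro j ρ hρ
      rw [hz, AlgEquiv.mul_apply, hz₂.rb j ρ hρ, hz₁.rb j ρ hρ]
    have hzu : ∀ (i : Fin M) (ρ : L), ρ ^ 3 = ι (z i) → y₀ ρ = ρ := by
      intro i ρ hρ
      rw [hz, AlgEquiv.mul_apply, hz₂.rz i ρ hρ, hz₁.rz i ρ hρ]
    have hFz : ∀ g : L ≃ₐ[ℚ] L, Fx b (g * y₀) ↔ Fx b g := by
      intro g
      have h1 : ∀ (j : Fin (s + 1)) (ρ : L), ρ ^ 3 = (b j : L) → (g * y₀) ρ = g ρ := by
        intro j ρ hρ
        rw [AlgEquiv.mul_apply, hzρ j ρ hρ]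
      unfold Fx
      constructor
      · rintro ⟨h2, h3⟩
        exact ⟨fun j ρ hρ => by rw [← h1 _ ρ hρ]; exact h2 j ρ hρ,
          fun ρ hρ => by rw [← h1 _ ρ hρ]; exact h3 ρ hρ⟩
      · rintro ⟨h2, h3⟩
        exact ⟨fun j ρ hρ => by rw [h1 _ ρ hρ]; exact h2 j ρ hρ,
          fun ρ hρ => by rw [h1 _ ρ hρ]; exact h3 ρ hρ⟩
    have hF₂z : ∀ g : L ≃ₐ[ℚ] L, F₂ (g * y₀) ↔ F₂ g := by
      intro g
      have h2 : ∀ (j : Fin M) (ρ : L), ρ ^ 3 = ι (z j) → (g * y₀) ρ = g ρ := by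
        intro j ρ hρ
        rw [AlgEquiv.mul_apply, hzu j ρ hρ]
      have h3 : (g * y₀) (ι w) = g (ι w) := by rw [AlgEquiv.mul_apply, hzω]
      show ((g * y₀) (ι w) = ι w ∧ MAU.FxZ z ι (g * y₀)) ↔ (g (ι w) = ι w ∧ MAU.FxZ z ι g)
      rw [h3]
      constructor
      · rintro ⟨h4, h6⟩
        exact ⟨h4, fun j ρ hρ => by rw [← h2 j ρ hρ]; exact h6 j ρ hρ⟩
      · rintro ⟨h4, h6⟩
        exact ⟨h4, fun j ρ hρ => by rw [h2 j ρ hρ]; exact h6 j ρ hρ⟩
    have key : ∀ g : L ≃ₐ[ℚ] L, g (ι w) = ι w → Fx b g → ∀ j i, j < i →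
        t (g * y₀) j i = (v' j i - v j i) + t g j i := by
      intro g hg hFg j i hji
      have hgz : (g * y₀) (ι w) = ι w := by rw [AlgEquiv.mul_apply, hzω, hg]
      apply htu _ _ _ _ hji.ne hgz ((hFz g).2 hFg)
      intro ρ A hρ hA
      have h1 := ht g j i hji.ne hg hFg ρ A hρ hA
      have hlt : j.castSucc < i.castSucc := Fin.castSucc_lt_castSucc_iff.2 hji
      have h2 := hz₂P j.castSucc i.castSucc ρ A hlt ⟨hρ, hA⟩
      have h2' := hz₁P j.castSucc i.castSucc ρ A hlt.ne ⟨hρ, hA⟩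
      have h3 : j.castSucc ≠ Fin.last s ∧ i.castSucc ≠ Fin.last s :=
        ⟨(Fin.castSucc_lt_last j).ne, (Fin.castSucc_lt_last i).ne⟩
      simp only [dif_pos h3, Fin.castPred_castSucc] at h2
      rw [AlgEquiv.mul_apply, hz, AlgEquiv.mul_apply, h2, map_mul, map_pow, hz₁ω, h2', map_mul,
        map_pow, hg, h1, ← mul_assoc, om_add hω3]
    have key₂ : ∀ g : L ≃ₐ[ℚ] L, F₂ g → T (g * y₀) = T g + (y' - y) := by
      intro g hg
      funext j
      have hgz : F₂ (g * y₀) := (hF₂z g).2 hg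
      have e1 : t₂ (g * y₀) j = 2 * (y' j - y j) + t₂ g j := by
        apply htu₂ _ _ _ hgz
        intro ρ A hA
        have h1 := ht₂ g j hg ρ A hA
        rw [AlgEquiv.mul_apply, hz, AlgEquiv.mul_apply, (hz₂M j ρ A hA).1, (hz₁M j ρ A hA).1,
          map_mul, map_pow, hg.1, h1, ← mul_assoc, om_add hω3]
      have e2 : t₂ (c * (g * y₀) * c⁻¹) j = t₂ (c * g * c⁻¹) j + 2 * (y' j - y j) := by
        apply htu₂ _ _ _ (hF₂c _ c hgz)
        intro ρ A hA
        have h1 := ht₂ (c * g * c⁻¹) j (hF₂c g c hg) ρ A hA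
        have h2 : (c * (g * y₀) * c⁻¹) A = c (g (z₁ (z₂ (c⁻¹ A)))) := by
          rw [hz]
          rfl
        have h3 : (c * g * c⁻¹) A = c (g (c⁻¹ A)) := rfl
        rw [h3] at h1
        rw [h2, (hz₂M j ρ A hA).2 c⁻¹ hc', (hz₁M j ρ A hA).2 c⁻¹ hc', map_mul, map_pow, hg.1,
          map_mul, map_pow, hc, h1, ← mul_assoc, ← pow_mul, ← pow_add]
        congr 1
        apply om_congr hω3
        exact JAU.neg_val _ _
      show t₂ (g * y₀) j + t₂ (c * (g * y₀) * c⁻¹) j =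
        t₂ g j + t₂ (c * g * c⁻¹) j + (y' j - y j)
      rw [e1, e2]
      have e3 := JAU.two_mul_two (y' j - y j)
      linear_combination e3
    apply Nat.card_congr
    refine Equiv.subtypeEquiv (Equiv.mulRight y₀) ?_
    intro g
    have hχ : χ (g * y₀) = χ g := by rw [map_mul, hχz, mul_one]
    show (χ g = a ∧ Fx b g ∧ F₂ g ∧ T g = y ∧ ∀ j i, j < i → t g j i = v j i) ↔
      (χ (g * y₀) = a ∧ Fx b (g * y₀) ∧ F₂ (g * y₀) ∧ T (g * y₀) = y' ∧
        ∀ j i, j < i → t (g * y₀) j i = v' j i)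
    rw [hχ, hFz g, hF₂z g]
    constructor
    · rintro ⟨h1, h2, h3, h4, h5⟩
      refine ⟨h1, h2, h3, ?_, fun j i hji => ?_⟩
      · rw [key₂ g h3, h4]
        abel
      · rw [key g (hM g (by rw [h1]; exact ha)) h2 j i hji, h5 j i hji]
        ring
    · rintro ⟨h1, h2, h3, h4, h5⟩
      refine ⟨h1, h2, h3, ?_, fun j i hji => ?_⟩
      · rw [key₂ g h3] at h4
        funext j
        have h6 := congrFun h4 j
        simp only [Pi.add_apply, Pi.sub_apply] at h6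
        linear_combination h6
      · have h6 := h5 j i hji
        rw [key g (hM g (by rw [h1]; exact ha)) h2 j i hji] at h6
        linear_combination h6
  · intro a ha
    choose θ hθ using hG.root
    have hθ0 : ∀ j, θ j ≠ 0 := by
      intro j h0
      have h1 := hθ j
      rw [h0] at h1
      apply hb0 j
      have h2 : ((b j : ℤ) : L) = 0 := by rw [← h1]; norm_num
      exact_mod_cast h2
    have hex : ∀ (g : L ≃ₐ[ℚ] L) (j : Fin (s + 1)), ∃ u : ZMod 3,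
        g (θ j) = ι w ^ u.val * θ j := by
      intro g j
      apply cube_root hG.rel
      rw [← map_pow, hθ j, map_intCast]
    choose uu huu using hex
    have huniq : ∀ (g : L ≃ₐ[ℚ] L) (j : Fin (s + 1)) (u : ZMod 3),
        g (θ j) = ι w ^ u.val * θ j → uu g j = u := by
      intro g j u h
      apply om_zmod_inj hG.rel (hθ0 j)
      rw [← huu g j, h]
    -- criterion for `Fx`
    have hFu : ∀ g : L ≃ₐ[ℚ] L, g (ι w) = ι w → (Fx b g ↔
        (∀ j : Fin s, uu g j.castSucc = 0) ∧ uu g (Fin.last s) ≠ 0) := by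
      intro g hg
      constructor
      · rintro ⟨h1, h2⟩
        refine ⟨fun j => ?_, fun h0 => ?_⟩
        · apply huniq
          rw [h1 j _ (hθ _)]
          simp
        · apply h2 _ (hθ _)
          rw [huu, h0]
          simp
      · rintro ⟨h1, h2⟩
        have h3 : ∀ (j : Fin (s + 1)) (ρ : L), ρ ^ 3 = (b j : L) →
            g ρ = ι w ^ (uu g j).val * ρ := by
          intro j ρ hρ
          obtain ⟨u, hu⟩ := cube_root hG.rel (θ := θ j) (ρ := ρ) (by rw [hρ, hθ])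
          rw [hu, map_mul, map_pow, hg, huu]
          ring
        refine ⟨fun j ρ hρ => ?_, fun ρ hρ h4 => ?_⟩
        · rw [h3 _ ρ hρ, h1 j]
          simp
        · rw [h3 _ ρ hρ] at h4
          have hρ0 : ρ ≠ 0 := by
            intro h0
            rw [h0] at hρ
            apply hb0 (Fin.last s)
            have h5 : ((b (Fin.last s) : ℤ) : L) = 0 := by rw [← hρ]; norm_num
            exact_mod_cast h5
          apply h2
          apply om_zmod_inj hG.rel hρ0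
          rw [h4]
          simp
    have hfib : ∀ w₁ w' : Fin (s + 1) → ZMod 3,
        (univ.filter fun g : L ≃ₐ[ℚ] L => χ g = a ∧ uu g = w₁).card =
        (univ.filter fun g : L ≃ₐ[ℚ] L => χ g = a ∧ uu g = w').card := by
      intro w₁ w'
      obtain ⟨y₀, hzζ, hzρ⟩ := hGKUM (s + 1) b p q p' q' f L ζ (ι w) hSys hG (w' - w₁)
      obtain ⟨hzω, hχz⟩ := hz1 y₀ hzζ
      have key : ∀ g : L ≃ₐ[ℚ] L, g (ι w) = ι w → uu (g * y₀) = (w' - w₁) + uu g := by
        intro g hg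
        funext j
        apply huniq
        rw [AlgEquiv.mul_apply, hzρ j _ (hθ j), map_mul, map_pow, hg, huu, ← mul_assoc,
          om_add hω3]
        rfl
      refine Finset.card_bij (fun g _ => g * y₀) ?_ ?_ ?_
      · intro g hg
        rw [mem_filter] at hg ⊢
        obtain ⟨_, h1, h2⟩ := hg
        refine ⟨mem_univ _, by rw [map_mul, hχz, mul_one, h1], ?_⟩
        rw [key g (hM g (by rw [h1]; exact ha)), h2]
        abel
      · intro g _ g' _ e
        exact mul_right_cancel e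
      · intro g hg
        rw [mem_filter] at hg
        obtain ⟨_, h1, h2⟩ := hg
        have h3 : g * y₀⁻¹ * y₀ = g := inv_mul_cancel_right g y₀
        have h4 : χ (g * y₀⁻¹) = a := by rw [map_mul, map_inv, hχz, inv_one, mul_one, h1]
        refine ⟨g * y₀⁻¹, ?_, h3⟩
        rw [mem_filter]
        refine ⟨mem_univ _, h4, ?_⟩
        have h5 := key (g * y₀⁻¹) (hM _ (by rw [h4]; exact ha))
        rw [h3, h2] at h5
        funext j
        have h7 := congrFun h5 j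
        simp only [Pi.add_apply, Pi.sub_apply] at h7
        linear_combination (-1 : ZMod 3) * h7
    have hsub : ∀ (D : Finset (Fin (s + 1) → ZMod 3)),
        (univ.filter fun g : L ≃ₐ[ℚ] L => χ g = a ∧ uu g ∈ D).card =
        D.card * (univ.filter fun g : L ≃ₐ[ℚ] L => χ g = a ∧ uu g = 0).card := by
      intro D
      rw [Finset.card_eq_sum_card_fiberwise (f := uu) (t := D)]
      · rw [← smul_eq_mul, ← Finset.sum_const]
        refine Finset.sum_congr rfl fun w₁ hw => ?_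
        rw [← hfib w₁ 0, Finset.filter_filter]
        congr 1
        apply Finset.filter_congr
        intro g _
        constructor
        · rintro ⟨⟨h1, _⟩, h2⟩
          exact ⟨h1, h2⟩
        · rintro ⟨h1, h2⟩
          exact ⟨⟨h1, by rw [h2]; exact hw⟩, h2⟩
      · intro g hg
        have h1 := (mem_filter.1 (Finset.mem_coe.1 hg)).2.2
        exact h1
    have h1 : Nat.card {g : L ≃ₐ[ℚ] L // χ g = a} =
        3 ^ (s + 1) * (univ.filter fun g : L ≃ₐ[ℚ] L => χ g = a ∧ uu g = 0).card := by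
      rw [Nat.card_eq_fintype_card, Fintype.card_subtype]
      have h2 := hsub univ
      simp only [mem_univ, and_true] at h2
      rw [h2, Finset.card_univ, Fintype.card_fun, ZMod.card, Fintype.card_fin]
    have h2 : Nat.card {g : L ≃ₐ[ℚ] L // χ g = a ∧ Fx b g} =
        2 * (univ.filter fun g : L ≃ₐ[ℚ] L => χ g = a ∧ uu g = 0).card := by
      rw [Nat.card_eq_fintype_card, Fintype.card_subtype]
      have h2 := hsub (univ.filter fun w₁ : Fin (s + 1) → ZMod 3 =>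
        (∀ j : Fin s, w₁ j.castSucc = 0) ∧ w₁ (Fin.last s) ≠ 0)
      rw [card_good] at h2
      rw [← h2]
      congr 1
      apply Finset.filter_congr
      intro g _
      constructor
      · rintro ⟨h3, h4⟩
        refine ⟨h3, mem_filter.2 ⟨mem_univ _, ?_⟩⟩
        exact (hFu g (hM g (by rw [h3]; exact ha))).1 h4
      · rintro ⟨h3, h4⟩
        exact ⟨h3, (hFu g (hM g (by rw [h3]; exact ha))).2 (mem_filter.1 h4).2⟩
    rw [h1, h2]
    ring
  · intro q₀ hq hNp hN₀ I g hI hNI hst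
    have hfin := GFR.quo_finite hNp hI hNI
    obtain ⟨l, hl, hfr⟩ := GFR.exists_frob_gen (R := ℤ) I g hst
    have hχl := hχF q₀ hq hNp I (g ^ l) hI hNI hfr
    refine ⟨l, hl, hχl, fun hN3 ρ hρ => ?_⟩
    have hb1 : N₁ < q₀ := lt_of_le_of_lt (le_max_left _ _) hN₀
    have hb2 : ∀ r, N₂ r < q₀ := fun r => lt_of_le_of_lt ((Finset.le_sup (mem_univ r)).trans
      ((le_max_left _ _).trans (le_max_right _ _))) hN₀
    have hb3 : ∀ i, N₃ i < q₀ := fun i => lt_of_le_of_lt ((Finset.le_sup (mem_univ i)).trans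
      ((le_max_right _ _).trans (le_max_right _ _))) hN₀
    obtain ⟨h1, h2⟩ := hFr q₀ hNp hb1 hN3 I hI hNI (g ^ l) hfr ρ hρ
    have hM1 : M1 (χ (g ^ l)) := by
      unfold M1
      rw [hχl, ZMod.coe_unitOfCoprime, ZMod.val_natCast, Nat.mod_mod_of_dvd _ h3f]
      exact hN3
    refine ⟨h1, fun hF j i hji r hr => ?_, fun hz => ?_⟩
    · exact h2 hF j i hji r _ hr (ht (g ^ l) j i hji (hM _ hM1) hF)
    · have h6 : F₂ (g ^ l) := ⟨hM _ hM1, fun i => (hFr1 i q₀ hNp (hb3 i) hN3 I hI hNI (g ^ l) hfr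
        ρ hρ (hz i) (fun j => j.elim0)).2.1.1⟩
      refine ⟨h6, fun r ξ ξ' hξ hξ' => ?_⟩
      obtain ⟨_, _, h5⟩ := hFrK r q₀ hNp (hb2 r) hN3 I hI hNI (g ^ l) hfr ρ hρ (hz (α r))
        (fun _ => hz (β r))
      exact h5 c hc 0 ξ ξ' _ _ hξ hξ' (ht₂ (g ^ l) r h6) (ht₂ _ r (hF₂c (g ^ l) c h6))

end Pool.Agent.PTK

end

section

/-!
# Full law: additivity of the local term at `lam` when the base is not a local cube and the norms are
-/

set_option autoImplicit false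

namespace Pool.Agent.PTK

open Pool.Agent.Lib_helper18 Pool.Agent.Lib_helper18.Eis Pool.Agent.Lib_helper84.Cub
open Pool.Agent.PT Pool.Agent.PTE Pool.Agent.PT3 Pool.Agent.PTL Pool.Agent.PTN

namespace RAE

/-- linear forms at good approximations of a cube root do not vanish -/
theorem lf_ne {π : Eis} (hπ : Prime π) {p q r b : Eis} {N : ℕ} (hn : p ^ 3 + b * q ^ 3 ≠ 0)
    (hN : V π (p ^ 3 + b * q ^ 3) < N) (hr : π ^ N ∣ r ^ 3 - b) (i : ℕ) : LfE p q i r ≠ 0 := by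
  intro h0
  unfold LfE at h0
  have h1 : q * w ^ i * r = -p := by linear_combination h0
  have h2 : (q * w ^ i * r) ^ 3 = (-p) ^ 3 := by rw [h1]
  have h3 : (w ^ i) ^ 3 = 1 := by rw [← pow_mul, mul_comm, pow_mul, w_cube, one_pow]
  have h4 : p ^ 3 + b * q ^ 3 = (-q ^ 3) * (r ^ 3 - b) := by
    linear_combination h2 - q ^ 3 * r ^ 3 * h3
  have h5 : π ^ N ∣ p ^ 3 + b * q ^ 3 := by
    rw [h4]
    exact Dvd.dvd.mul_left hr _
  have h6 := (fin hπ hn).le_multiplicity_of_pow_dvd h5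
  exact absurd h6 (not_le.2 hN)

theorem gf_swap (p q p' q' : Eis) (i : ℕ) : GfE p (-p') (-q) q' i = GfE p q p' q' i := by
  unfold GfE
  ring

/-- base and norm exchanged -/
theorem swap {b x p q p' q' : Eis} (h : SolE b x p q p' q') : SolE x b p (-p') (-q) q' where
  eq := by linear_combination h.eq
  n1 := by
    intro h0
    apply h.n2
    linear_combination h0
  n2 := by
    intro h0
    apply h.n1
    linear_combination h0
  g1 := by rw [gf_swap]; exact h.g1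
  g2 := by rw [gf_swap]; exact h.g2

theorem lce_mul {π a b : Eis} (ha : LCE π a) (hb : LCE π b) : LCE π (a * b) := by
  intro N
  obtain ⟨r, hr⟩ := ha N
  obtain ⟨s, hs⟩ := hb N
  refine ⟨r * s, ?_⟩
  have h1 : (r * s) ^ 3 - a * b = r ^ 3 * (s ^ 3 - b) + b * (r ^ 3 - a) := by ring
  rw [h1]
  exact dvd_add (Dvd.dvd.mul_left hs _) (Dvd.dvd.mul_left hr _)

/-- the local term through the local terms of two points -/
theorem key (hAVE : Stmt_AVE) (hIIA : Stmt_IIA) (hIF2 : Stmt_IF2) (hLCI : Stmt_LCI)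
    (hSSL : SSL) (hSLC : SLC) {B b x p q p' q' X Y X' Y' : Eis} {κ : ZMod 3} (hB : B ≠ 0)
    (hb : b ≠ 0) (hx : x ≠ 0) (hbB : sl b B = 0) (hLb : ¬ LCE lam b) (hLx : LCE lam x)
    (hS : SolE b x p q p' q') (hX : X ≠ 0) (hY : Y ≠ 0) (hX' : X' ≠ 0) (hY' : Y' ≠ 0)
    (hn : X ^ 3 + b * Y ^ 3 ≠ 0) (hn' : X' ^ 3 + b * Y' ^ 3 ≠ 0)
    (hD : DNE X Y p (-p') (-q) q') (hD' : DNE X' Y' p (-p') (-q) q')
    (hκ : ∀ z : Eis, z ≠ 0 → sl B z = κ * (sl (X ^ 3 + b * Y ^ 3) z +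
      sl (X' ^ 3 + b * Y' ^ 3) z - sl b z)) :
    LTE B b x p q p' q' = κ * (SVE sl b p (-p') (-q) q' X Y + SVE sl b p (-p') (-q) q' X' Y') := by
  have hS' := swap hS
  have hw : (w : Eis) ≠ 0 := isUnit_w.ne_zero
  obtain ⟨⟨N1, h1⟩, -⟩ := hAVE none B x b p (-p') (-q) q' hB hx hb hS'.toSolWE
    (by
      show sl B b = 0
      rw [hSSL.2.1 b B hb hB, hbB, neg_zero]) hLx
  obtain ⟨N2, h2⟩ := hIIA x b p (-p') (-q) q' X Y hx hb hLx hS' hX hY hn hD
  obtain ⟨N3, h3⟩ := hIIA x b p (-p') (-q) q' X' Y' hx hb hLx hS' hX' hY' hn' hD'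
  obtain ⟨N4, h4⟩ := hIF2 lam sl 4 hSLC x b p (-p') (-q) q' hx hb hS'
  have hm1 : p ^ 3 + x * (-p') ^ 3 ≠ 0 := hS'.n1
  have hm2 : (-q) ^ 3 + x * q' ^ 3 ≠ 0 := by
    intro h0
    apply hm1
    rw [hS'.eq, h0, mul_zero]
  obtain ⟨ξ, hξ⟩ := hLx (N1 + N2 + N3 + N4 + V lam (p ^ 3 + x * (-p') ^ 3) +
    V lam ((-q) ^ 3 + x * q' ^ 3) + 1)
  have hd : ∀ M : ℕ, M ≤ N1 + N2 + N3 + N4 + V lam (p ^ 3 + x * (-p') ^ 3) +
      V lam ((-q) ^ 3 + x * q' ^ 3) + 1 → lam ^ M ∣ ξ ^ 3 - x :=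
    fun M hM => (pow_dvd_pow lam hM).trans hξ
  have e1 : ASE sl B p (-p') (-q) q' ξ = AVE none B x p (-p') (-q) q' :=
    h1 ξ (hd N1 (by omega))
  have e2 := h2 ξ (hd N2 (by omega))
  have e3 := h3 ξ (hd N3 (by omega))
  have e4 := h4 ξ (hd N4 (by omega))
  have l1 : ∀ i, LfE p (-p') i ξ ≠ 0 := fun i =>
    lf_ne prime_lam hm1 (by omega) (hd (V lam (p ^ 3 + x * (-p') ^ 3) + 1) (by omega)) i
  have l2 : ∀ i, LfE (-q) q' i ξ ≠ 0 := fun i =>
    lf_ne prime_lam hm2 (by omega) (hd (V lam ((-q) ^ 3 + x * q' ^ 3) + 1) (by omega)) i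
  have hsk : ∀ a : Eis, a ≠ 0 → sl w a = - sl a w := fun a ha => hSSL.2.1 a w ha hw
  have k1 := hκ _ (l1 1)
  have k2 := hκ _ (l1 2)
  have k3 := hκ _ (l2 1)
  have k4 := hκ _ (l2 2)
  have k5 := hκ _ hS.g1
  have k6 := hκ _ hS.g2
  have k7 := hκ w hw
  have hxw : sl w x = 0 := by
    rw [hsk x hx, hLCI.2.2 lam sl 4 x w hSLC hLx hx hw, neg_zero]
  have hBxb : sl w (B * x * b) = sl w B + sl w b := by
    rw [hsk _ (mul_ne_zero (mul_ne_zero hB hx) hb), hSSL.1 _ _ _ (mul_ne_zero hB hx) hb hw,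
      hSSL.1 _ _ _ hB hx hw]
    have h5 := hsk x hx
    rw [hxw] at h5
    rw [hsk B hB, hsk b hb]
    linear_combination -h5
  unfold LTE
  rw [if_neg hLb, if_pos hLx, ← e1, e2, e3]
  unfold UVE
  simp only [gf_swap] at e4 ⊢
  rw [hBxb, hsk B hB, hsk _ hn, hsk _ hn', k5, k6, k7]
  rw [hsk b hb] at e4 ⊢
  unfold ASE at e4 ⊢
  rw [k1, k2, k3, k4]
  linear_combination κ * e4

/-! ### The norm modulo `9` -/

theorem dec9 : ∀ u v m : ZMod 9, (u ^ 2 - u * v + v ^ 2) ^ 2 = m ^ 3 → (u + v) * 3 ≠ 0 →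
    (1 + (2 * u - v) + (u ^ 2 - u * v + v ^ 2) = 3 ∨
      1 + (2 * u - v) + (u ^ 2 - u * v + v ^ 2) = 4) ∨
    (1 - (2 * u - v) + (u ^ 2 - u * v + v ^ 2) = 3 ∨
      1 - (2 * u - v) + (u ^ 2 - u * v + v ^ 2) = 4) := by decide

theorem lvw_of_mod (hLCL : LCL) {m : ℤ} (h : (m : ZMod 9) = 3 ∨ (m : ZMod 9) = 4) :
    m ≠ 0 ∧ (lv m ≠ 0 ∨ lw m ≠ 0) := by
  rcases h with h | h
  · have h1 : ((m - 3 : ℤ) : ZMod 9) = 0 := by push_cast; rw [h]; decide
    rw [ZMod.intCast_zmod_eq_zero_iff_dvd] at h1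
    obtain ⟨c, hc⟩ := h1
    push_cast at hc
    have h2 : m = 3 * (1 + 3 * c) := by linarith
    have h3 : ¬ (3 : ℤ) ∣ 1 + 3 * c := by omega
    have h4 : (1 : ℤ) + 3 * c ≠ 0 := by omega
    refine ⟨by omega, Or.inl ?_⟩
    rw [h2, (hLCL.2.1 3 (1 + 3 * c) (by norm_num) h4).1, hLCL.2.2.1.1, (hLCL.2.2.2.1 _ h3).1]
    decide
  · have h1 : ((m - 4 : ℤ) : ZMod 9) = 0 := by push_cast; rw [h]; decide
    rw [ZMod.intCast_zmod_eq_zero_iff_dvd] at h1
    obtain ⟨c, hc⟩ := h1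
    push_cast at hc
    have h3 : ¬ (3 : ℤ) ∣ m := by omega
    refine ⟨by omega, Or.inr ?_⟩
    rw [(hLCL.2.2.2.1 _ h3).2, wt_eq (k := 5 + 24 * c + 27 * c ^ 2) (by
      have h2 : m = 4 + 9 * c := by linarith
      rw [h2]
      ring)]
    push_cast
    have h9 : (3 : ZMod 3) = 0 := by decide
    have e5 : (5 : ZMod 3) + 24 * (c : ZMod 3) + 27 * (c : ZMod 3) ^ 2 = 2 := by
      linear_combination (1 + 8 * (c : ZMod 3) + 9 * (c : ZMod 3) ^ 2) * h9
    rw [e5]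
    decide

/-- a sign such that the norms are not local cubes -/
theorem sign {b t : Eis} (hb : ¬ lam ∣ b) (ht : b * conj b = t ^ 3) :
    ∃ e : ℤ, (e = 1 ∨ e = -1) ∧ ∀ k : ℤ,
      ((((1 + 9 * k : ℤ) : Eis) ^ 3 + b * (e : Eis) ^ 3).norm : ZMod 9) = 3 ∨
      ((((1 + 9 * k : ℤ) : Eis) ^ 3 + b * (e : Eis) ^ 3).norm : ZMod 9) = 4 := by
  have h1 : (b.re : ZMod 9) ^ 2 - b.re * b.im + (b.im : ZMod 9) ^ 2 = (b.norm : ZMod 9) := by
    rw [norm_def]
    push_cast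
    ring
  have h2 : (b.norm) ^ 2 = t.norm ^ 3 := by
    have h3 := congrArg Eis.norm ht
    rw [norm_mul, norm_conj, norm_pow] at h3
    rw [← h3]
    ring
  have h4 : ((b.re : ZMod 9) ^ 2 - b.re * b.im + (b.im : ZMod 9) ^ 2) ^ 2 =
      (t.norm : ZMod 9) ^ 3 := by
    rw [h1]
    exact_mod_cast congrArg (fun z : ℤ => (z : ZMod 9)) h2
  have h5 : ((b.re : ZMod 9) + b.im) * 3 ≠ 0 := by
    intro h0
    apply hb
    rw [lam_dvd_iff]
    have h6 : (((b.re + b.im) * 3 : ℤ) : ZMod 9) = 0 := by push_cast; exact h0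
    rw [ZMod.intCast_zmod_eq_zero_iff_dvd] at h6
    push_cast at h6
    omega
  have h9 : (9 : ZMod 9) = 0 := by decide
  have hN : ∀ e k : ℤ, e ^ 3 = e → e ^ 2 = 1 →
      ((((1 + 9 * k : ℤ) : Eis) ^ 3 + b * (e : Eis) ^ 3).norm : ZMod 9) =
      1 + (e : ZMod 9) * (2 * b.re - b.im) +
        ((b.re : ZMod 9) ^ 2 - b.re * b.im + (b.im : ZMod 9) ^ 2) := by
    intro e k he he2
    have h6 : (((1 + 9 * k : ℤ) : Eis) ^ 3 + b * (e : Eis) ^ 3).norm =
        ((1 + 9 * k) ^ 3) ^ 2 + (1 + 9 * k) ^ 3 * e * (2 * b.re - b.im) +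
          e ^ 2 * (b.re ^ 2 - b.re * b.im + b.im ^ 2) := by
      have h7 : ((1 + 9 * k : ℤ) : Eis) ^ 3 + b * (e : Eis) ^ 3 =
          ⟨(1 + 9 * k) ^ 3 + e * b.re, e * b.im⟩ := by
        have h8 : (((1 + 9 * k : ℤ) : Eis) ^ 3 + b * (e : Eis) ^ 3) =
            (((1 + 9 * k) ^ 3 : ℤ) : Eis) + b * ((e : ℤ) : Eis) := by
          have h10 : ((e ^ 3 : ℤ) : Eis) = ((e : ℤ) : Eis) := by rw [he]
          push_cast at h10 ⊢
          rw [h10]
        rw [h8]
        ext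
        · simp only [add_re, mul_re, intCast_re, intCast_im]
          ring
        · simp only [add_im, mul_im, intCast_re, intCast_im]
          ring
      rw [h7, norm_def]
      ring
    rw [h6, he2]
    push_cast
    have h10 : ((1 : ZMod 9) + 9 * k) = 1 := by rw [h9]; ring
    rw [h10]
    ring
  rcases dec9 _ _ _ h4 h5 with h | h
  · refine ⟨1, Or.inl rfl, fun k => ?_⟩
    rw [hN 1 k (by norm_num) (by norm_num)]
    push_cast
    rw [one_mul]
    exact h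
  · refine ⟨-1, Or.inr rfl, fun k => ?_⟩
    rw [hN (-1) k (by norm_num) (by norm_num)]
    push_cast
    rw [neg_one_mul, ← sub_eq_add_neg]
    exact h

/-! ### The factor -/

theorem dec3 : ∀ a1 a2 c1 c2 s3 s4 : ZMod 3, (a1 ≠ 0 ∨ a2 ≠ 0) → ¬ (s3 = 0 ∧ s4 = 0) →
    a1 * s3 - a2 * s4 = 0 → c1 * s3 - c2 * s4 = 0 → ∃ κ : ZMod 3, c1 = κ * a1 ∧ c2 = κ * a2 := by
  decide

theorem int_ne {x : ℤ} (hx : x ≠ 0) : (x : Eis) ≠ 0 := HYPT.int_ne hx

/-- minus a cube is trivial -/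
theorem neg_cube (hSSL : SSL) {c X : Eis} (hc : c ≠ 0) (hX : X ≠ 0) : sl (-X ^ 3) c = 0 := by
  have hA := EHYP.add3_sl hSSL hc
  have h1 : -X ^ 3 = -1 * X ^ 3 := by ring
  have h2 := hA (-1) (X ^ 3) (by simp) (pow_ne_zero 3 hX)
  have h3 := hA.neg_one
  have h4 := hA.pow hX 3
  simp only at h2 h3 h4
  rw [h1, h2, h3, h4]
  have h5 : ((3 : ℕ) : ZMod 3) = 0 := rfl
  rw [h5, zero_mul, zero_add]

theorem mul_cube (hSSL : SSL) {b c Y : Eis} (hb : b ≠ 0) (hc : c ≠ 0) (hY : Y ≠ 0) :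
    sl (-(b * Y ^ 3)) c = sl b c := by
  have hA := EHYP.add3_sl hSSL hc
  have h1 : -(b * Y ^ 3) = b * (-Y ^ 3) := by ring
  have h2 := hA b (-Y ^ 3) hb (neg_ne_zero.2 (pow_ne_zero 3 hY))
  simp only at h2
  rw [h1, h2, neg_cube hSSL hc hY, add_zero]

theorem sl_n (hSSL : SSL) {b X Y : Eis} (hb : b ≠ 0) (hX : X ≠ 0) (hY : Y ≠ 0)
    (hn : X ^ 3 + b * Y ^ 3 ≠ 0) : sl b (X ^ 3 + b * Y ^ 3) = 0 := by
  have hX3 : -X ^ 3 ≠ 0 := neg_ne_zero.2 (pow_ne_zero 3 hX)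
  have hY3 : -(b * Y ^ 3) ≠ 0 := neg_ne_zero.2 (mul_ne_zero hb (pow_ne_zero 3 hY))
  have h1 := hSSL.2.2.1 (X ^ 3 + b * Y ^ 3) (-X ^ 3) (-(b * Y ^ 3)) hn hX3 hY3 (by ring)
  rw [neg_cube hSSL hY3 hX, mul_cube hSSL hb hn hY, hSSL.2.1 _ _ hX3 hn, neg_cube hSSL hn hX] at h1
  linear_combination h1

theorem sl_conj (hSSL : SSL) (hSCJ : SCJ) {b t n : Eis} (hb : b ≠ 0) (ht : b * conj b = t ^ 3)
    (hn : n ≠ 0) (h0 : sl b n = 0) : sl b (conj n) = 0 := by
  have hb' := EHYP.conj_ne hb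
  have ht0 : t ≠ 0 := by
    rintro rfl
    rw [zero_pow (by norm_num)] at ht
    exact mul_ne_zero hb hb' ht
  have hA := EHYP.add3_sl hSSL hn
  have h1 := hA b (conj b) hb hb'
  have h2 := hA.pow ht0 3
  simp only at h1 h2
  rw [ht, h2, h0] at h1
  have h3 : ((3 : ℕ) : ZMod 3) = 0 := rfl
  rw [h3, zero_mul, zero_add] at h1
  have h4 := hSCJ.2.1 (conj b) n hb' hn
  rw [conj_conj, ← h1, neg_zero] at h4
  exact h4

/-- `B` is a power of the norm at `lam` -/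
theorem kappa (hLMC : Stmt_LMC) (hSSL : SSL) (hSCJ : SCJ) (hLCL : LCL) {B : ℤ} {b t X Y : Eis}
    (hB : B ≠ 0) (hb : b ≠ 0) (hM : MCl b) (ht : b * conj b = t ^ 3) (hbB : sl b (B : Eis) = 0)
    (hLb : ¬ LCE lam b) (hX : X ≠ 0) (hY : Y ≠ 0) (hn : X ^ 3 + b * Y ^ 3 ≠ 0)
    (h9 : ((X ^ 3 + b * Y ^ 3).norm : ZMod 9) = 3 ∨ ((X ^ 3 + b * Y ^ 3).norm : ZMod 9) = 4) :
    ∃ κ : ZMod 3, ∀ z : Eis, z ≠ 0 → sl (B : Eis) z =
      κ * (sl (X ^ 3 + b * Y ^ 3) z + sl (conj (X ^ 3 + b * Y ^ 3)) z) := by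
  obtain ⟨hm0, hm⟩ := lvw_of_mod hLCL h9
  have hn' := EHYP.conj_ne hn
  obtain ⟨-, hL, hI⟩ := hLMC b hb hM
  have h1 := sl_n hSSL hb hX hY hn
  have h2 := sl_conj hSSL hSCJ hb ht hn h1
  have h3 : sl b ((X ^ 3 + b * Y ^ 3).norm : Eis) = 0 := by
    rw [← mul_conj, hSSL.2.1 _ _ (mul_ne_zero hn hn') hb, hSSL.1 _ _ _ hn hn' hb,
      hSSL.2.1 b _ hb hn, hSSL.2.1 b _ hb hn', h1, h2]
    ring
  rw [hI _ hm0] at h3
  rw [hI _ hB] at hbB
  obtain ⟨κ, k1, k2⟩ := dec3 _ _ _ _ _ _ hm (fun h => hLb (hL.2 h)) h3 hbB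
  refine ⟨κ, fun z hz => ?_⟩
  have hBe := int_ne hB
  have hme := int_ne hm0
  have h4 : sl ((X ^ 3 + b * Y ^ 3).norm : Eis) z =
      sl (X ^ 3 + b * Y ^ 3) z + sl (conj (X ^ 3 + b * Y ^ 3)) z := by
    rw [← mul_conj, hSSL.1 _ _ _ hn hn' hz]
  rw [← h4, hSSL.2.1 z _ hz hBe, hSSL.2.1 z _ hz hme, HYPT.sl_int hSSL hLCL hz _ hB,
    HYPT.sl_int hSSL hLCL hz _ hm0, k1, k2]
  ring

/-! ### Avoiding the zeros -/

theorem ev_ne {α β : Eis} (h : α ≠ 0 ∨ β ≠ 0) :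
    ∀ᶠ k : ℕ in Filter.cofinite, ((1 + 9 * (k : ℤ) : ℤ) : Eis) * α + β ≠ 0 := by
  rw [Filter.eventually_cofinite]
  by_cases hα : α = 0
  · have hβ : β ≠ 0 := by
      rcases h with h | h
      · exact absurd hα h
      · exact h
    have h1 : {k : ℕ | ¬ ((1 + 9 * (k : ℤ) : ℤ) : Eis) * α + β ≠ 0} = ∅ := by
      ext k
      simp [hα, hβ]
    rw [h1]
    exact Set.finite_empty
  · apply Set.Subsingleton.finite
    intro k hk l hl
    simp only [Set.mem_ofPred_eq, not_not] at hk hl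
    have h1 : (((1 + 9 * (k : ℤ) : ℤ) : Eis) - ((1 + 9 * (l : ℤ) : ℤ) : Eis)) * α = 0 := by
      linear_combination hk - hl
    rcases mul_eq_zero.1 h1 with h2 | h2
    · have h3 := congrArg Eis.re h2
      rw [sub_re, intCast_re, intCast_re, zero_re] at h3
      omega
    · exact absurd h2 hα

/-- the nondegeneracy at the two points for almost all `k` -/
theorem ev_dne {b x p q p' q' t : Eis} {e : ℤ} (ht : t ≠ 0) (he : e ≠ 0)
    (h : SolE b x p q p' q') :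
    ∀ᶠ k : ℕ in Filter.cofinite,
      DNE ((1 + 9 * (k : ℤ) : ℤ) : Eis) (e : Eis) p (-p') (-q) q' ∧
      DNE (t * (e : Eis)) ((1 + 9 * (k : ℤ) : ℤ) : Eis) p (-p') (-q) q' := by
  have hE := int_ne he
  have hw : ∀ i : ℕ, (w : Eis) ^ i ≠ 0 := fun i => pow_ne_zero i isUnit_w.ne_zero
  have h1 : p ≠ 0 ∨ q ≠ 0 := by
    by_contra h0
    push Not at h0
    apply h.n1
    rw [h0.1, h0.2]
    ring
  have h2 : p' ≠ 0 ∨ q' ≠ 0 := by
    by_contra h0
    push Not at h0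
    apply h.n1
    rw [h.eq, h0.1, h0.2]
    ring
  have a : ∀ i : ℕ, ∀ᶠ k : ℕ in Filter.cofinite,
      ((1 + 9 * (k : ℤ) : ℤ) : Eis) * (-q) + w ^ i * p * e ≠ 0 := fun i =>
    ev_ne (h1.symm.imp neg_ne_zero.2 fun h => mul_ne_zero (mul_ne_zero (hw i) h) hE)
  have b' : ∀ i : ℕ, ∀ᶠ k : ℕ in Filter.cofinite,
      ((1 + 9 * (k : ℤ) : ℤ) : Eis) * q' + w ^ i * (-p') * e ≠ 0 := fun i =>
    ev_ne (h2.symm.imp id fun h => mul_ne_zero (mul_ne_zero (hw i) (neg_ne_zero.2 h)) hE)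
  have c : ∀ i : ℕ, ∀ᶠ k : ℕ in Filter.cofinite,
      ((1 + 9 * (k : ℤ) : ℤ) : Eis) * (w ^ i * p) + t * e * (-q) ≠ 0 := fun i =>
    ev_ne (h1.imp (fun h => mul_ne_zero (hw i) h)
      fun h => mul_ne_zero (mul_ne_zero ht hE) (neg_ne_zero.2 h))
  have d : ∀ i : ℕ, ∀ᶠ k : ℕ in Filter.cofinite,
      ((1 + 9 * (k : ℤ) : ℤ) : Eis) * (w ^ i * (-p')) + t * e * q' ≠ 0 := fun i =>
    ev_ne (h2.imp (fun h => mul_ne_zero (hw i) (neg_ne_zero.2 h))
      fun h => mul_ne_zero (mul_ne_zero ht hE) h)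
  filter_upwards [a 1, a 2, b' 1, b' 2, c 1, c 2, d 1, d 2] with k a1 a2 b1 b2 c1 c2 d1 d2
  refine ⟨⟨a1, a2, b1, b2⟩, ⟨?_, ?_, ?_, ?_⟩⟩
  · unfold DfE
    intro h0
    apply c1
    linear_combination h0
  · unfold DfE
    intro h0
    apply c2
    linear_combination h0
  · unfold DfE
    intro h0
    apply d1
    linear_combination h0
  · unfold DfE
    intro h0
    apply d2
    linear_combination h0

end RAE

open _root_.Pool.Agent.PTK.RAE in
/-- PTK_RAE -/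
theorem RAE_thm (hAVE : Stmt_AVE) (hIIA : Stmt_IIA) (hIF2 : Stmt_IF2) (hSAE : Stmt_SAE)
    (hLMC : Stmt_LMC) (hLCI : Stmt_LCI) (hSSL : SSL) (hSLC : SLC) (hSCJ : SCJ) (hLCL : LCL) :
    Stmt_RAE := by
  intro B b x₁ x₂ p₁ q₁ p₁' q₁' p₂ q₂ p₂' q₂' p q p' q' hB hb hM hbB hLb hx₁ hx₂ hL₁ hL₂ hS₁ hS₂
    hS hP
  obtain ⟨t, ht⟩ := hM.cb
  have hb' := EHYP.conj_ne hb
  have ht0 : t ≠ 0 := by
    rintro rfl
    rw [zero_pow (by norm_num)] at ht
    exact mul_ne_zero hb hb' ht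
  obtain ⟨e, he, hN⟩ := sign hM.nl ht
  have he0 : e ≠ 0 := by rcases he with h | h <;> rw [h] <;> norm_num
  have he2 : e ^ 2 = 1 := by rcases he with h | h <;> rw [h] <;> norm_num
  obtain ⟨k, ⟨⟨hD₁, hD₁'⟩, hD₂, hD₂'⟩, hD, hD'⟩ :=
    (((ev_dne ht0 he0 hS₁).and (ev_dne ht0 he0 hS₂)).and (ev_dne ht0 he0 hS)).exists
  have hx := mul_ne_zero hx₁ hx₂
  have hL := lce_mul hL₁ hL₂
  have hBe := int_ne hB
  have hE := int_ne he0
  have hK : (1 + 9 * (k : ℤ) : ℤ) ≠ 0 := by omega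
  have hX := int_ne hK
  obtain ⟨hm0, -⟩ := lvw_of_mod hLCL (hN k)
  have h9 := hN k
  have hXc : conj ((1 + 9 * (k : ℤ) : ℤ) : Eis) = ((1 + 9 * (k : ℤ) : ℤ) : Eis) := conj_intCast _
  have hEc : conj (e : Eis) = (e : Eis) := conj_intCast _
  clear hN
  generalize ((1 + 9 * (k : ℤ) : ℤ) : Eis) = X at *
  have hn : X ^ 3 + b * (e : Eis) ^ 3 ≠ 0 := by
    intro h0
    rw [h0] at hm0
    exact hm0 norm_zero
  have hne := EHYP.conj_ne hn
  have hn'e : (t * (e : Eis)) ^ 3 + b * X ^ 3 = b * conj (X ^ 3 + b * (e : Eis) ^ 3) := by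
    rw [map_add, map_mul, map_pow, map_pow, hXc, hEc]
    linear_combination (-(e : Eis) ^ 3) * ht
  have hn' : (t * (e : Eis)) ^ 3 + b * X ^ 3 ≠ 0 := by
    rw [hn'e]
    exact mul_ne_zero hb hne
  obtain ⟨κ, hκ⟩ := kappa hLMC hSSL hSCJ hLCL hB hb hM ht hbB hLb hX hE hn h9
  have hκ' : ∀ z : Eis, z ≠ 0 → sl (B : Eis) z = κ * (sl (X ^ 3 + b * (e : Eis) ^ 3) z +
      sl ((t * (e : Eis)) ^ 3 + b * X ^ 3) z - sl b z) := by
    intro z hz
    rw [hκ z hz, hn'e, hSSL.1 _ _ _ hb hne hz]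
    ring
  have hX' := mul_ne_zero ht0 hE
  rw [key hAVE hIIA hIF2 hLCI hSSL hSLC hBe hb hx hbB hLb hL hS hX hE hX' hX hn hn' hD hD' hκ',
    key hAVE hIIA hIF2 hLCI hSSL hSLC hBe hb hx₁ hbB hLb hL₁ hS₁ hX hE hX' hX hn hn' hD₁ hD₁' hκ',
    key hAVE hIIA hIF2 hLCI hSSL hSLC hBe hb hx₂ hbB hLb hL₂ hS₂ hX hE hX' hX hn hn' hD₂ hD₂' hκ',
    hSAE b x₁ x₂ p₁ q₁ p₁' q₁' p₂ q₂ p₂' q₂' p q p' q' X e hb hx₁ hx₂ hS₁ hS₂ hS hP hX hE hn
      hD₁ hD₂ hD,
    hSAE b x₁ x₂ p₁ q₁ p₁' q₁' p₂ q₂ p₂' q₂' p q p' q' (t * e) X hb hx₁ hx₂ hS₁ hS₂ hS hP hX' hX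
      hn' hD₁' hD₂' hD']
  ring

end Pool.Agent.PTK

end
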