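import Mathlib
import Pool.Agent.PTWX.C46
import Pool.Agent.PTWX.C47
import Pool.Agent.PTWX.C54
import Pool.Agent.PTWX.C57

/-! Parts: PTN.CLN, PTKX.ZAUX, PTKX.ZC, PTKX.ZS, PTKX.ZT, PTKX.DP2, PTKX.NHO, PTKX.CTZ, PTKX.ZPV, PTKX.F2E, PTKX.HN2, PTKX.F4E, PTKX.TLE -/

namespace Pool.Agent.PTN.CLN
end Pool.Agent.PTN.CLN

namespace Pool.Agent.PTK.ZAUX
end Pool.Agent.PTK.ZAUX

namespace Pool.Agent.PTK.NHO
end Pool.Agent.PTK.NHO

namespace Pool.Agent.PTK.CTZ
end Pool.Agent.PTK.CTZ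

section

/-!
# The law of the ranks of prime twists: classes, `q = 2 (mod 3)`
-/

set_option autoImplicit false

open NumberField IsDedekindDomain Finset
open scoped nonZeroDivisors Pointwise

namespace Pool.Agent.PTN

open Pool.Agent.Lib_helper18 Pool.Agent.Lib_helper18.Eis Pool.Agent.Lib_helper84.Cub
open Pool.Agent.PT Pool.Agent.PTE Pool.Agent.PT3 Pool.Agent.PTL

namespace CLN

theorem neg_of_two {x y : ZMod 3} (h : ((2 : ℕ) : ZMod 3) * x = y) : x = -y := by
  rw [← h]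
  clear h y
  revert x
  decide

end CLN

open _root_.Pool.Agent.PTN.CLN in
/-- PTN_CLN: the distribution of the rank in a class, `q = 2 (mod 3)`. -/
theorem CLN_thm (hNBAS : Stmt_NBAS) (hESYT : ESYT) (hDCOT : DCOT) (hCLSC : CLSC)
    (hNBKN : Stmt_NBKN) (hBDG : Stmt_BDG) (hTENT : TENT) (hNADT : Stmt_NADT) : Stmt_CLN := by
  classical
  intro h n m k π p e r f w0 c hNF hh
  have hn0 : 0 < n := PT.FINA.pos_of_nf hNF
  have hN0 : 0 < 3 ^ h * n := Nat.mul_pos (pow_pos (by norm_num) _) hn0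
  have hBB : ∀ E q : ℕ, BB h n E q = ((3 ^ h * n : ℕ) : ℤ) * (q : ℤ) ^ E := by
    intro E q
    unfold BB
    push_cast
    ring
  obtain ⟨s, τ', b, X, Y, hs, hAdN, hV, hind, h3, hLam, hspan⟩ :=
    hNBAS h n m k π p e r f w0 c hNF hh
  have hAdC : ∀ i, AdC h n π w0 c (b i) := fun i => (hAdN i).1
  have hb0 : ∀ i, b i ≠ 0 := fun i => (hAdC i).ne
  obtain ⟨P, Q, P', Q', hSys, hSw⟩ := hESYT h n m k π p e r f w0 c s b hNF hAdC hV hind h3
  rw [← hs]
  generalize hv : vN h n π p e r w0 c = v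
  -- the conductor
  have hD : ∀ j i : Fin s, ∃ f₀ : ℕ, 0 < f₀ ∧ (j ≠ i → ∀ f : ℕ, 0 < f → f₀ ∣ f →
      ∃ (C : ZMod 3) (Φ : (ZMod f)ˣ →* Multiplicative (ZMod 3)),
        ∀ (E q : ℕ) (hQ : q.Coprime f), q.Prime → q % 3 = 2 →
          AG (BB h n E q) (b i) →
          ∀ r : ℤ, (q : ℤ) ∣ r ^ 3 - b j →
            OT (BB h n E q) (b j) (X j) (Y j) (b i) (P j i) (Q j i) (P' j i) (Q' j i) =
            C + E * ((Φ (ZMod.unitOfCoprime q hQ)).toAdd -
              TAUV q (P j i) (Q j i) (P' j i) (Q' j i) r)) := by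
    intro j i
    by_cases hji : j = i
    · exact ⟨1, one_pos, fun h => absurd hji h⟩
    · obtain ⟨f₀, h0, h1⟩ := hDCOT (3 ^ h * n) (b j) (X j) (Y j) (b i) (P j i) (Q j i) (P' j i)
        (Q' j i) hN0 (hSys.sol j i hji) (hb0 j) (hb0 i)
      refine ⟨f₀, h0, fun _ f hf hd => ?_⟩
      obtain ⟨C, Φ, h2⟩ := h1 f hf hd
      refine ⟨C, Φ, fun E q hQ hq hq3 hAG r hr => ?_⟩
      rw [hBB] at hAG ⊢
      exact h2 E q hQ hq hq3 hAG r hr
  choose F0 hF0 hF1 using hD
  obtain ⟨F, hFpos, hF9, hpF, hFd⟩ : ∃ F : ℕ, 0 < F ∧ 9 ∣ F ∧ (∀ i, p i ∣ F) ∧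
      ∀ j i, F0 j i ∣ F := by
    refine ⟨9 * (∏ i, p i) * ∏ j, ∏ i, F0 j i, ?_, ?_, ?_, ?_⟩
    · have h1 : 0 < ∏ i, p i := Finset.prod_pos fun i _ => (hNF.pp i).pos
      have h2 : 0 < ∏ j, ∏ i, F0 j i :=
        Finset.prod_pos fun j _ => Finset.prod_pos fun i _ => hF0 j i
      positivity
    · exact Dvd.dvd.mul_right (Dvd.intro _ rfl) _
    · intro i
      exact Dvd.dvd.mul_right (Dvd.dvd.mul_left (Finset.dvd_prod_of_mem p (mem_univ i)) _) _
    · intro j i
      exact Dvd.dvd.mul_left ((Finset.dvd_prod_of_mem (fun i => F0 j i) (mem_univ i)).trans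
        (Finset.dvd_prod_of_mem (fun j => ∏ i, F0 j i) (mem_univ j))) _
  have hC : ∀ j i : Fin s, ∃ (C : ZMod 3) (Φ : (ZMod F)ˣ →* Multiplicative (ZMod 3)),
      j ≠ i → ∀ (E q : ℕ) (hQ : q.Coprime F), q.Prime → q % 3 = 2 →
          AG (BB h n E q) (b i) →
          ∀ r : ℤ, (q : ℤ) ∣ r ^ 3 - b j →
            OT (BB h n E q) (b j) (X j) (Y j) (b i) (P j i) (Q j i) (P' j i) (Q' j i) =
            C + E * ((Φ (ZMod.unitOfCoprime q hQ)).toAdd -
              TAUV q (P j i) (Q j i) (P' j i) (Q' j i) r) := by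
    intro j i
    by_cases hji : j = i
    · exact ⟨0, 1, fun h => absurd hji h⟩
    · obtain ⟨C, Φ, h⟩ := hF1 j i hji F hFpos (hFd j i)
      exact ⟨C, Φ, fun _ => h⟩
  choose C Φ hC using hC
  obtain ⟨κ, hκ1, hκ2⟩ := hCLSC m π p hNF.pp hNF.p1 hNF.pπ hNF.pinj F hFpos hF9 hpF
  let Φ' : (ZMod F)ˣ →* Multiplicative (Fin s → Fin s → ZMod 3) := PT.FINA.assemble Φ
  obtain ⟨M, hM⟩ : ∃ M, M = n + F := ⟨_, rfl⟩
  -- the matrix
  have hmat : ∀ (E q : ℕ), (E = 1 ∨ E = 2) → q.Prime → M < q → q % 3 = 2 → InCT E π w0 c q →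
      CubeRank.GenBy (BB h n E q) (v + (s - (MaT b X Y P Q P' Q' (BB h n E q)).rank)) ∧
      ∃ hQ : q.Coprime F, ∀ τ : Fin s → Fin s → ZMod 3,
        (∀ j i, j ≠ i → ∀ r : ℤ, (q : ℤ) ∣ r ^ 3 - b j →
          τ j i = TAUV q (P j i) (Q j i) (P' j i) (Q' j i) r) →
        MaT b X Y P Q P' Q' (BB h n E q) = alt fun j i =>
          C j i + E * ((Φ j i (ZMod.unitOfCoprime q hQ)).toAdd - τ j i) := by
    intro E q hE hq hqM hq3 hIn
    have hF9' : 9 ≤ F := Nat.le_of_dvd hFpos hF9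
    have hqn : ¬ q ∣ n := fun h => by
      have := Nat.le_of_dvd hn0 h
      omega
    have hQ : q.Coprime F := by
      rw [Nat.Prime.coprime_iff_not_dvd hq]
      intro h
      have := Nat.le_of_dvd hFpos h
      omega
    obtain ⟨hBG, hTy, hiff⟩ := hNADT h n m k π p e r f w0 c E q hNF hh hE hq hq3 hIn hqn
    have hAG : ∀ i, AG (BB h n E q) (b i) := fun i =>
      ((hiff (b i) (hAdC i).supp).1 (hAdN i)).1
    have hgen := hNBKN h n m k π p e r f w0 c s τ' b X Y P Q P' Q' E q hNF hh hAdN hSys hSw hLam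
      hspan hE hq (by omega) hq3 hIn hqn
    rw [hv] at hgen
    refine ⟨hgen, hQ, ?_⟩
    intro τ hτ
    have hent : ∀ j i, j ≠ i → MaT b X Y P Q P' Q' (BB h n E q) j i =
        C j i + E * ((Φ j i (ZMod.unitOfCoprime q hQ)).toAdd - τ j i) := by
      intro j i hji
      obtain ⟨ρ, hρ⟩ := BFINA.exists_root hq hq3 (b j)
      rw [MaT, if_neg hji, hC j i hji E q hQ hq hq3 (hAG i) ρ hρ, ← hτ j i hji ρ hρ]
    have hanti := (hTENT s τ' b X Y P Q P' Q' (BB h n E q) hSys hSw hBG hAG (hLam _ hTy) hb0).1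
    ext j i
    rw [alt]
    rcases lt_trichotomy j i with h | h | h
    · rw [if_pos h, hent j i h.ne]
    · subst h
      rw [if_neg (lt_irrefl _), if_neg (lt_irrefl _), MaT, if_pos rfl]
    · rw [if_neg (not_lt.2 h.le), if_pos h, hanti j i, hent i j h.ne]
  constructor
  · refine ⟨M, fun E q hE hq hqM hq3 hIn => ?_⟩
    obtain ⟨S, hS1, hS2⟩ := (hmat E q hE hq hqM hq3 hIn).1
    exact ⟨S, hS1.trans (Nat.add_le_add_left (Nat.sub_le _ _) _), hS2⟩
  intro t
  obtain ⟨K, hK⟩ := hBDG s b P Q P' Q' F m (t - v) κ (Fin.cons w0 c) C Φ' hSys hFpos hF9 hκ2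
  refine ⟨K + 2 * (2 * ((Finset.range (M + 1)).card : ℝ)), fun σ h1 hσ2 => ?_⟩
  have hB := hK σ h1 hσ2
  have hsub1 : ∀ q : ℕ, q.Prime → M < q → q ∈ WR h n π w0 c 2 1 t →
      q ∈ SP b P Q P' Q' (t - v) κ (Fin.cons w0 c) C Φ' := by
    intro q hq hqM ⟨hq3, hIn, hrr⟩
    obtain ⟨hgen, hQ, hm⟩ := hmat 1 q (Or.inl rfl) hq hqM hq3 hIn
    have hr1 := CubeRank.rr_le hgen
    refine ⟨hQ, hq3, ?_, ?_⟩
    · rw [hκ1]
      funext i
      refine Fin.cases ?_ (fun i => ?_) i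
      · rw [Fin.cons_zero, Fin.cons_zero]
        have h5 := hIn.1
        rw [pow_one] at h5
        exact h5
      · rw [Fin.cons_succ, Fin.cons_succ]
        have h5 := hIn.2 i
        rw [Nat.cast_one, one_mul] at h5
        exact h5
    · intro τ hτ
      have e1 : (fun j i => C j i + ((1 : ℕ) : ZMod 3) *
          ((Φ j i (ZMod.unitOfCoprime q hQ)).toAdd - τ j i)) =
          C + (Φ' (ZMod.unitOfCoprime q hQ)).toAdd - τ := by
        funext j i
        show C j i + ((1 : ℕ) : ZMod 3) * ((Φ j i (ZMod.unitOfCoprime q hQ)).toAdd - τ j i) =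
          C j i + (Φ j i (ZMod.unitOfCoprime q hQ)).toAdd - τ j i
        rw [Nat.cast_one]
        ring
      rw [← e1, ← hm τ hτ]
      omega
  have hsub2 : ∀ q : ℕ, q.Prime → M < q → q ∈ WR h n π w0 c 2 2 t →
      q ∈ SM b P Q P' Q' (t - v) κ (Fin.cons w0 c) C Φ' := by
    intro q hq hqM ⟨hq3, hIn, hrr⟩
    obtain ⟨hgen, hQ, hm⟩ := hmat 2 q (Or.inr rfl) hq hqM hq3 hIn
    have hr1 := CubeRank.rr_le hgen
    refine ⟨hQ, hq3, ?_, ?_⟩
    · rw [hκ1]
      funext i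
      refine Fin.cases ?_ (fun i => ?_) i
      · rw [Fin.cons_zero, Pi.neg_apply, Fin.cons_zero]
        have h5 := hIn.1
        rw [CL.wt_sq2 hq3] at h5
        exact neg_of_two h5
      · rw [Fin.cons_succ, Pi.neg_apply, Fin.cons_succ]
        exact neg_of_two (hIn.2 i)
    · intro τ hτ
      have e1 : (fun j i => C j i + ((2 : ℕ) : ZMod 3) *
          ((Φ j i (ZMod.unitOfCoprime q hQ)).toAdd - τ j i)) =
          C - (Φ' (ZMod.unitOfCoprime q hQ)).toAdd + τ := by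
        funext j i
        show C j i + ((2 : ℕ) : ZMod 3) * ((Φ j i (ZMod.unitOfCoprime q hQ)).toAdd - τ j i) =
          C j i - (Φ j i (ZMod.unitOfCoprime q hQ)).toAdd + τ j i
        rw [show ((2 : ℕ) : ZMod 3) = -1 from by decide]
        ring
      rw [← e1, ← hm τ hτ]
      omega
  have i1 := CL.sm_le_add _ _ M hsub1 h1
  have i2 := CL.sm_le_add _ _ M hsub2 h1
  unfold LI
  linarith

end Pool.Agent.PTN

end

section

/-!
# The average rank of prime twists: tools for the symbols of the classes (`ZC`, `ZS`, `ZT`)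
-/

set_option autoImplicit false

namespace Pool.Agent.PTK

open Pool.Agent.Lib_helper18 Pool.Agent.Lib_helper18.Eis Pool.Agent.Lib_helper84.Cub
open Pool.Agent.PT Pool.Agent.PTE Pool.Agent.PT3 Pool.Agent.PT.EHYP Pool.Agent.PT3.HYPT

namespace ZAUX

/-- the conjugate place -/
lemma tm_conj_int (hSTM : STM) (hSPP : SPP) (hSCJ : SCJ) {σ κ : PP} (hκ : κ.1 = conj σ.1)
    {z t : Eis} (hz : z ≠ 0) (hzt : z * conj z = t ^ 3) {x : ℤ} (hx : x ≠ 0) :
    tm κ.1 z (x : Eis) = tm σ.1 z (x : Eis) := by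
  have hx0 : (x : Eis) ≠ 0 := int_ne hx
  have h3 := (hSPP.2.2.2.1 σ).1
  have h3' := (hSPP.2.2.2.1 κ).1
  have hcz : conj z ≠ 0 := by
    intro h0
    apply hz
    have h1 := congrArg conj h0
    rwa [conj_conj, map_zero] at h1
  have ht : t ≠ 0 := by
    rintro rfl
    rw [zero_pow (by norm_num)] at hzt
    exact mul_ne_zero hz hcz hzt
  have hc := hSCJ.1 σ.1 z (x : Eis) σ.2.1 h3 hz hx0
  rw [conj_intCast, ← hκ] at hc
  have hA := add3_tm hSTM κ.2.1 h3' hx0
  have h1 := hA z (conj z) hz hcz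
  have h2 := hA.pow ht 3
  simp only at h1 h2
  rw [hzt, h2] at h1
  have h4 := three_zero (tm κ.1 t (x : Eis))
  push_cast at h1
  linear_combination h4 - h1 - hc

/-- the conjugate place, two elements -/
lemma tm_conj_two (hSTM : STM) (hSPP : SPP) (hSCJ : SCJ) {σ κ : PP} (hκ : κ.1 = conj σ.1)
    {z t z' t' : Eis} (hz : z ≠ 0) (hzt : z * conj z = t ^ 3) (hz' : z' ≠ 0)
    (hzt' : z' * conj z' = t' ^ 3) : tm κ.1 z z' = - tm σ.1 z z' := by
  have h3 := (hSPP.2.2.2.1 σ).1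
  have h3' := (hSPP.2.2.2.1 κ).1
  have hne : ∀ a : Eis, a ≠ 0 → conj a ≠ 0 := by
    intro a ha h0
    apply ha
    have h1 := congrArg conj h0
    rwa [conj_conj, map_zero] at h1
  have ht : ∀ a s : Eis, a ≠ 0 → a * conj a = s ^ 3 → s ≠ 0 := by
    rintro a s ha h rfl
    rw [zero_pow (by norm_num)] at h
    exact mul_ne_zero ha (hne a ha) h
  have hc := hSCJ.1 σ.1 z z' σ.2.1 h3 hz hz'
  rw [← hκ] at hc
  have hs := hSTM κ.1 κ.2.1 h3'
  have hA : ∀ a s b : Eis, a ≠ 0 → a * conj a = s ^ 3 → b ≠ 0 →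
      tm κ.1 (conj a) b = - tm κ.1 a b := by
    intro a s b ha has hb
    have hA := add3_tm hSTM κ.2.1 h3' hb
    have h1 := hA a (conj a) ha (hne a ha)
    have h2 := hA.pow (ht a s ha has) 3
    simp only at h1 h2
    rw [has, h2] at h1
    have h4 := three_zero (tm κ.1 s b)
    push_cast at h1
    linear_combination h4 - h1
  rw [hA z t _ hz hzt (hne z' hz'), hs.skew (conj z') z (hne z' hz') hz,
    hA z' t' z hz' hzt' hz, hs.skew z z' hz hz'] at hc
  linear_combination hc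

/-- a sum over the places -/
lemma sum_places (hSPP : SPP) {n m k : ℕ} {π : Fin m → PP} {p e : Fin m → ℕ} {r f : Fin k → ℕ}
    (hn : NF n π p e r f) (T : Finset PP) (F : PP → ZMod 3)
    (hT : ∀ ρ ∈ T, (∀ i, ρ ≠ π i) ∧ ∀ i, ρ.1 ≠ conj (π i).1)
    (hF : ∀ i (κ : PP), κ.1 = conj (π i).1 → F κ = F (π i))
    (h0 : ∀ σ : PP, σ ∉ T → (∀ i, σ ≠ π i) → (∀ i, σ.1 ≠ conj (π i).1) → F σ = 0) :
    ∑ᶠ σ : PP, F σ = - ∑ i, F (π i) + ∑ ρ ∈ T, F ρ := by
  classical
  choose κ hκ using fun i => (hSPP.2.2.2.1 (π i)).2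
  have hg : Function.Injective (Sum.elim π κ) := by
    rintro (i | i) (j | j) hij
    · have h1 : π i = π j := hij
      rw [assoc_iff hn i j (by rw [h1])]
    · have h1 : π i = κ j := hij
      exact absurd (by rw [h1, hκ j]) (not_assoc hn i j)
    · have h1 : κ i = π j := hij
      exact absurd (by rw [← h1, hκ i]) (not_assoc hn j i)
    · have h1 : κ i = κ j := hij
      have h2 : conj (π i).1 = conj (π j).1 := by rw [← hκ i, ← hκ j, h1]
      have h3 : (π i).1 = (π j).1 := by rw [← conj_conj (π i).1, h2, conj_conj]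
      rw [assoc_iff hn i j (by rw [h3])]
  have hdis : Disjoint (Finset.univ.image (Sum.elim π κ)) T := by
    rw [Finset.disjoint_left]
    intro σ hσ hσT
    obtain ⟨y, -, hy⟩ := Finset.mem_image.1 hσ
    obtain ⟨g1, g2⟩ := hT σ hσT
    rcases y with i | i
    · exact g1 i hy.symm
    · apply g2 i
      have h1 : κ i = σ := hy
      rw [← h1, hκ i]
  have hsup : Function.support F ⊆
      (((Finset.univ.image (Sum.elim π κ)) ∪ T : Finset PP) : Set PP) := by
    intro σ hσ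
    by_contra hnm
    apply hσ
    rw [Finset.mem_coe, Finset.mem_union, not_or] at hnm
    have hn' : ∀ y, Sum.elim π κ y ≠ σ := by
      intro y hy
      apply hnm.1
      rw [Finset.mem_image]
      exact ⟨y, Finset.mem_univ _, hy⟩
    refine h0 σ hnm.2 (fun i hi => hn' (Sum.inl i) hi.symm) fun i hi => hn' (Sum.inr i) ?_
    refine hSPP.2.1 _ _ ?_
    change Associated (κ i).1 σ.1
    rw [hκ i, ← hi]
  rw [finsum_eq_sum_of_support_subset _ hsup, Finset.sum_union hdis,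
    Finset.sum_image fun a _ b _ hab => hg hab, Fintype.sum_sum_type]
  have h1 : ∑ i, F (Sum.elim π κ (Sum.inr i)) = ∑ i, F (Sum.elim π κ (Sum.inl i)) :=
    Finset.sum_congr rfl fun i _ => hF i (κ i) (hκ i)
  rw [h1]
  change ∑ i, F (π i) + ∑ i, F (π i) + _ = _
  have h2 := three_zero (∑ i, F (π i))
  linear_combination h2

/-- The product formula for a class and a rational integer. -/
lemma prodz (hSTM : STM) (hSPP : SPP) (hSCJ : SCJ) {n m k : ℕ} {π : Fin m → PP}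
    {p e : Fin m → ℕ} {r f : Fin k → ℕ} (hn : NF n π p e r f) (T : Finset PP)
    (hT : ∀ ρ ∈ T, (∀ i, ρ ≠ π i) ∧ ∀ i, ρ.1 ≠ conj (π i).1)
    {z t : Eis} (hz : z ≠ 0) (hzt : z * conj z = t ^ 3)
    (hsupp : ∀ σ : PP, σ.1 ∣ z → ∃ i, σ = π i ∨ σ.1 = conj (π i).1) {x : ℤ} (hx : x ≠ 0)
    (hxT : ∀ σ : PP, σ.1 ∣ (x : Eis) → σ ∈ T ∨ ∃ i, σ = π i ∨ σ.1 = conj (π i).1) :
    sl z (x : Eis) = ∑ i, tm (π i).1 z (x : Eis) - ∑ ρ ∈ T, tm ρ.1 z (x : Eis) := by
  unfold sl
  rw [sum_places hSPP hn T (fun σ => tm σ.1 z (x : Eis)) hT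
    (fun i κ hκ => tm_conj_int hSTM hSPP hSCJ hκ hz hzt hx) (by
      intro σ hσT h1 h2
      have hno : ¬ ∃ i, σ = π i ∨ σ.1 = conj (π i).1 := by
        rintro ⟨i, h | h⟩
        · exact h1 i h
        · exact h2 i h
      exact DCONST.tm_zero (fun h => hno (hsupp σ h)) (fun h => by
        rcases hxT σ h with h3 | h3
        · exact hσT h3
        · exact hno h3))]
  ring

/-- the classes `zN` -/
structure Cls {m : ℕ} (π : Fin m → PP) (e : Fin m → ℕ) (y : Fin (m + 1) → ZMod 3) : Prop where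
  ne : zN π e y ≠ 0
  nrm : ∃ t : Eis, zN π e y * conj (zN π e y) = t ^ 3
  supp : ∀ σ : PP, σ.1 ∣ zN π e y → ∃ i, σ = π i ∨ σ.1 = conj (π i).1
  val : ∀ i, (V (π i).1 (zN π e y) : ZMod 3) = (e i : ZMod 3) * y i.succ
  four : - sl (zN π e y) 4 = y 0

lemma cls (hZA : Stmt_ZA) {n m k : ℕ} {π : Fin m → PP} {p e : Fin m → ℕ} {r f : Fin k → ℕ}
    (hn : NF n π p e r f) (y : Fin (m + 1) → ZMod 3) : Cls π e y := by
  obtain ⟨h1, -, h3, -, -, h6, -, h8, -, -⟩ := hZA n m k π p e r f hn y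
  refine ⟨h1, h3, fun σ hσ => ?_, fun i => ?_, ?_⟩
  · obtain ⟨i, -, h⟩ := h6 σ hσ
    exact ⟨i, h⟩
  · have h9 := congrFun h8 i.succ
    unfold PTN.NPSI.yv at h9
    rw [Fin.cons_succ] at h9
    have h10 : (e i : ZMod 3) * (e i : ZMod 3) = 1 := by
      rcases hn.pe i with h1 | h1 <;> rw [h1] <;> decide
    rw [← h9]
    linear_combination (-(V (π i).1 (zN π e y) : ZMod 3)) * h10
  · have h9 := congrFun h8 0
    unfold PTN.NPSI.yv at h9
    rwa [Fin.cons_zero] at h9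

end ZAUX

end Pool.Agent.PTK

end

section

/-!
# PTK_ZC: the symbols of the classes of `VS`
-/

set_option autoImplicit false

namespace Pool.Agent.PTK

open Pool.Agent.Lib_helper18 Pool.Agent.Lib_helper18.Eis Pool.Agent.Lib_helper84.Cub
open Pool.Agent.PT Pool.Agent.PTE Pool.Agent.PT3 Pool.Agent.PTN Pool.Agent.PT.EHYP
open Pool.Agent.PT3.HYPT

open ZAUX in
/-- PTK_ZC. -/
theorem ZC_thm (hSTM : STM) (hSPP : SPP) (hSSL : SSL) (hSCJ : SCJ) (hLCL : LCL)
    (hZA : Stmt_ZA) : Stmt_ZC := by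
  classical
  intro h n m k π p e r f w0 c hn hh y hy
  obtain ⟨hz, ⟨t, hzt⟩, hsupp, hval, hfour⟩ := cls hZA hn y
  have hi : ∀ i, Prime (π i).1 := fun i => (π i).2.1
  have h3 : ∀ i, ¬ (π i).1 ∣ 3 := fun i => (hSPP.2.2.2.1 (π i)).1
  have hsl := sl_int hSSL hLCL hz
  -- the value of the symbol at `lam`
  have hslx : ∀ x : ℤ, x ≠ 0 → ¬ (3 : ℤ) ∣ x → sl (zN π e y) (x : Eis) = wt (x ^ 2) * y 0 := by
    intro x hx hx3
    obtain ⟨h1, h2⟩ := hLCL.2.2.2.1 x hx3
    rw [hsl x hx, h1, h2, ← hfour]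
    ring
  -- elements prime to `π i`
  have htm : ∀ i (x : Eis), ¬ (π i).1 ∣ x →
      tm (π i).1 (zN π e y) x = - ((e i : ZMod 3) * y i.succ * sym (π i).1 x) := by
    intro i x hx
    unfold tm
    rw [V_eq_zero hx, ch_of_not_dvd (hi i) hx, hval i]
    simp
  obtain ⟨-, hcol⟩ := hy
  constructor
  · intro i'
    have hcol' := hcol (Sum.inl i'.succ) (fun _ h => by
      rw [Sum.inl.injEq] at h
      exact Fin.succ_ne_zero i' h)
    have h1 : Matrix.vecMul y (PTN.Nm h n π p e r w0 c) (Sum.inl i'.succ) =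
        y 0 * wt ((p i' : ℤ) ^ 2) +
          ∑ i, y i.succ *
          (if i' = i then (e i : ZMod 3) * sym (π i).1 (conj (π i).1) -
            ch (π i).1 ((3 ^ h * n : ℕ) : Eis) - c i
          else (e i : ZMod 3) * sym (π i).1 (p i' : Eis)) := by
      simp [Matrix.vecMul, dotProduct, PTN.Nm, Fin.sum_univ_succ]
    rw [h1] at hcol'
    have hp0 : (p i' : ℤ) ≠ 0 := by exact_mod_cast (hn.pp i').ne_zero
    have hp3 : ¬ (3 : ℤ) ∣ (p i' : ℤ) := fun h5 => by
      have h6 : 3 ∣ p i' := by exact_mod_cast h5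
      have := hn.p1 i'
      omega
    have h2 := prodz hSTM hSPP hSCJ hn ∅ (by simp) hz hzt hsupp hp0 (by
      intro σ hσ
      right
      rw [Int.cast_natCast, hn.pπ i'] at hσ
      refine ⟨i', ?_⟩
      rcases σ.2.1.dvd_or_dvd hσ with h4 | h4
      · left
        exact hSPP.2.1 _ _ (σ.2.1.associated_of_dvd (π i').2.1 h4)
      · right
        obtain ⟨κ, hκ⟩ := (hSPP.2.2.2.1 (π i')).2
        rw [← hκ] at h4 ⊢
        rw [hSPP.2.1 _ _ (σ.2.1.associated_of_dvd κ.2.1 h4)])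
    rw [hslx _ hp0 hp3, Finset.sum_empty, sub_zero] at h2
    have h4 : ∀ i, tm (π i).1 (zN π e y) ((p i' : ℤ) : Eis) =
        (if i' = i then ch (π i).1 (zN π e y) -
          (e i : ZMod 3) * y i.succ * sym (π i).1 (conj (π i).1) else
          - ((e i : ZMod 3) * y i.succ * sym (π i).1 (p i' : Eis))) := by
      intro i
      rw [Int.cast_natCast]
      split_ifs with hii
      · subst hii
        have hcj : ¬ (π i').1 ∣ conj (π i').1 := fun h5 =>
          not_assoc hn i' i' ((hi i').associated_of_dvd (prime_conj (π i').2.1) h5)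
        unfold tm
        rw [hn.pπ i', V_mul (hi i') (hi i').ne_zero (prime_conj (π i').2.1).ne_zero, V_self,
          V_eq_zero hcj, ch_mul (hi i') (h3 i') (hi i').ne_zero
            (prime_conj (π i').2.1).ne_zero, ch_self (hi i') (h3 i'),
          ch_of_not_dvd (hi i') hcj, hval i']
        push_cast
        ring
      · have hnd : ¬ (π i).1 ∣ (p i' : Eis) := by
          rw [hn.pπ i']
          intro h5
          rcases (hi i).dvd_or_dvd h5 with h5 | h5
          · exact hii (assoc_iff hn i i' ((hi i).associated_of_dvd (π i').2.1 h5)).symm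
          · exact not_assoc hn i i' ((hi i).associated_of_dvd (prime_conj (π i').2.1) h5)
        exact htm i _ hnd
    rw [Finset.sum_congr rfl fun i _ => h4 i] at h2
    rw [← Finset.add_sum_erase _ _ (Finset.mem_univ i'), if_pos rfl] at h2 hcol'
    have h5 : ∑ i ∈ Finset.univ.erase i', (if i' = i then ch (π i).1 (zN π e y) -
          (e i : ZMod 3) * y i.succ * sym (π i).1 (conj (π i).1) else
          - ((e i : ZMod 3) * y i.succ * sym (π i).1 (p i' : Eis))) =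
        - ∑ i ∈ Finset.univ.erase i', y i.succ *
          (if i' = i then (e i : ZMod 3) * sym (π i).1 (conj (π i).1) -
            ch (π i).1 ((3 ^ h * n : ℕ) : Eis) - c i
          else (e i : ZMod 3) * sym (π i).1 (p i' : Eis)) := by
      rw [← Finset.sum_neg_distrib]
      refine Finset.sum_congr rfl fun i hi' => ?_
      have h6 : ¬ i' = i := fun h => (Finset.mem_erase.1 hi').1 h.symm
      rw [if_neg h6, if_neg h6]
      ring
    rw [h5] at h2
    linear_combination hcol' - h2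
  · intro j ρ hρ
    have hcol' := hcol (Sum.inr j) (fun _ h => by cases h)
    have h1 : Matrix.vecMul y (PTN.Nm h n π p e r w0 c) (Sum.inr j) =
        y 0 * wt ((r j : ℤ) ^ 2) +
          ∑ i, y i.succ * ((e i : ZMod 3) * sym (π i).1 (r j : Eis)) := by
      simp [Matrix.vecMul, dotProduct, PTN.Nm, Fin.sum_univ_succ]
    rw [h1] at hcol'
    have hr0 : (r j : ℤ) ≠ 0 := by exact_mod_cast (hn.rp j).ne_zero
    have hr3 : ¬ (3 : ℤ) ∣ (r j : ℤ) := fun h5 => by
      have h6 : 3 ∣ r j := by exact_mod_cast h5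
      have := hn.r2 j
      omega
    have hjI := inert hSPP (hn.rp j) (hn.r2 j)
    have hρ1 : ∀ i, ρ ≠ π i := by
      rintro i rfl
      exact not_assoc_nat hn i (r j) (by rw [hρ])
    have hρ2 : ∀ i, ρ.1 ≠ conj (π i).1 := by
      intro i h4
      apply not_assoc_nat hn i (r j)
      have h5 := congrArg conj h4
      rw [conj_conj, hρ, conj_natCast] at h5
      rw [h5]
    have h2 := prodz hSTM hSPP hSCJ hn {ρ} (by
      intro ρ' hρ'
      rw [Finset.mem_singleton] at hρ'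
      subst hρ'
      exact ⟨hρ1, hρ2⟩) hz hzt hsupp hr0 (by
      intro σ hσ
      left
      rw [Finset.mem_singleton]
      rw [Int.cast_natCast, ← hρ] at hσ
      exact hSPP.2.1 _ _ (σ.2.1.associated_of_dvd ρ.2.1 hσ))
    rw [hslx _ hr0 hr3, Finset.sum_singleton] at h2
    have hρz : ¬ ρ.1 ∣ zN π e y := by
      intro h4
      obtain ⟨i, h5 | h5⟩ := hsupp ρ h4
      · exact hρ1 i h5
      · exact hρ2 i h5
    have h4 : tm ρ.1 (zN π e y) ((r j : ℤ) : Eis) = ch ρ.1 (zN π e y) := by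
      unfold tm
      rw [Int.cast_natCast, V_eq_zero hρz, ← hρ, V_self]
      simp
    have h5 : ∀ i, tm (π i).1 (zN π e y) ((r j : ℤ) : Eis) =
        - (y i.succ * ((e i : ZMod 3) * sym (π i).1 (r j : Eis))) := by
      intro i
      rw [Int.cast_natCast, htm i _ (fun h5 =>
        not_assoc_nat hn i (r j) ((hi i).associated_of_dvd hjI.1 h5))]
      ring
    rw [h4, Finset.sum_congr rfl fun i _ => h5 i, Finset.sum_neg_distrib] at h2
    linear_combination h2 - hcol'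

end Pool.Agent.PTK

end

section

/-!
# PTK_ZS: the classes of `VS` are in the minus part of the Selmer group
-/

set_option autoImplicit false

namespace Pool.Agent.PTK

open Pool.Agent.Lib_helper18 Pool.Agent.Lib_helper18.Eis Pool.Agent.Lib_helper84.Cub
open Pool.Agent.PT Pool.Agent.PTE Pool.Agent.PT3 Pool.Agent.PTN Pool.Agent.PT.EHYP
open Pool.Agent.PT3.HYPT

open ZAUX in
/-- PTK_ZS. -/
theorem ZS_thm (hSTM : STM) (hSPP : SPP) (hSSL : SSL) (hSCJ : SCJ) (hLCL : LCL)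
    (hZA : Stmt_ZA) (hZC : Stmt_ZC) : Stmt_ZS := by
  classical
  intro h n m k π p e r f w0 c E q hn hh hE hq hq2 hcl hqn y hy
  obtain ⟨hz, ⟨t, hzt⟩, hsupp, hval, hfour⟩ := cls hZA hn y
  obtain ⟨hZ1, hZ2⟩ := hZC h n m k π p e r f w0 c hn hh y hy
  obtain ⟨hw, hqs⟩ := hcl
  have hD := dat hSPP hn (h := h) hE hq hq2 hqn
  have hq3 : ¬ 3 ∣ q := by omega
  have hqI := inert hSPP hq hq2
  have hn0 := HYPS.n_ne0 hn
  obtain ⟨hlv, hlw⟩ := lvw hLCL hn (h := h) hq hq3 hw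
  have hi : ∀ i, Prime (π i).1 := fun i => (π i).2.1
  have h3 : ∀ i, ¬ (π i).1 ∣ 3 := fun i => (hSPP.2.2.2.1 (π i)).1
  have hB0 := int_ne hD.ne
  have : Fact (Nat.Prime 3) := ⟨Nat.prime_three⟩
  have hqi : ∀ i, ¬ (π i).1 ∣ (q : Eis) := fun i h5 =>
    not_assoc_nat hn i q ((hi i).associated_of_dvd hqI.1 h5)
  have hcB : ∀ i, ch (π i).1 ((BB h n E q : ℤ) : Eis) =
      ch (π i).1 ((3 ^ h * n : ℕ) : Eis) + c i := fun i => by
    have h1 : ((3 ^ h * n : ℕ) : Eis) = 3 ^ h * (n : Eis) := by push_cast; rfl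
    have h2 := (add3_ch (hi i) (h3 i)).pow hqI.1.ne_zero E
    rw [BB_cast, h1, ch_mul (hi i) (h3 i) (mul_ne_zero (pow_ne_zero _ three_ne) hn0)
      (pow_ne_zero _ hqI.1.ne_zero), h2, ch_of_not_dvd (hi i) (hqi i), hqs i]
  -- the place `q`
  obtain ⟨ρ, hρ⟩ := hSPP.2.2.2.2.1 q hq hq2
  -- the symbol at `π i`
  have hpi : ∀ i, tm (π i).1 (zN π e y) ((BB h n E q : ℤ) : Eis) = 0 := by
    intro i
    unfold tm
    rw [hD.vB i, hcB i, hZ1 i, hval i]
    ring
  have hcj : ∀ i (κ : PP), κ.1 = conj (π i).1 →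
      tm κ.1 (zN π e y) ((BB h n E q : ℤ) : Eis) = 0 := by
    intro i κ hκ
    rw [tm_conj_int hSTM hSPP hSCJ hκ hz hzt hD.ne, hpi i]
  -- the symbol at the other places except `q`
  have hoth : ∀ σ : PP, σ ≠ ρ → tm σ.1 (zN π e y) ((BB h n E q : ℤ) : Eis) = 0 := by
    intro σ hσρ
    by_cases hπ : ∃ i, σ = π i ∨ σ.1 = conj (π i).1
    · obtain ⟨i, rfl | h4⟩ := hπ
      · exact hpi i
      · exact hcj i σ h4
    · have hσz : ¬ σ.1 ∣ zN π e y := fun h4 => hπ (hsupp σ h4)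
      by_cases hσB : σ.1 ∣ ((BB h n E q : ℤ) : Eis)
      · rcases (dvd_iff hSPP hE σ).1 hσB with h5 | h5
        · rcases HYPS.cls hSPP hn σ.2.1 h5 with ⟨i, h6 | h6⟩ | ⟨j, h6⟩
          · exact absurd ⟨i, Or.inl (hSPP.2.1 _ _ h6)⟩ hπ
          · exfalso
            apply hπ
            obtain ⟨κ, hκ⟩ := (hSPP.2.2.2.1 (π i)).2
            refine ⟨i, Or.inr ?_⟩
            rw [← hκ] at h6 ⊢
            rw [hSPP.2.1 _ _ h6]
          · obtain ⟨ρj, hρj⟩ := hSPP.2.2.2.2.1 (r j) (hn.rp j) (hn.r2 j)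
            have h7 : σ = ρj := hSPP.2.1 _ _ (by rw [hρj]; exact h6)
            have h8 := hZ2 j σ (by rw [h7, hρj])
            unfold tm
            rw [h8, V_eq_zero hσz]
            simp
        · exfalso
          apply hσρ
          rw [← hρ] at h5
          exact hSPP.2.1 _ _ (σ.2.1.associated_of_dvd ρ.2.1 h5)
      · exact DCONST.tm_zero hσz hσB
  -- the symbol at `lam` with `3`
  have hρ1 : ∀ i, ρ ≠ π i := by
    rintro i rfl
    exact not_assoc_nat hn i q (by rw [hρ])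
  have hρ2 : ∀ i, ρ.1 ≠ conj (π i).1 := by
    intro i h4
    apply not_assoc_nat hn i q
    have h5 := congrArg conj h4
    rw [conj_conj, hρ, conj_natCast] at h5
    rw [h5]
  have hsl3 : sl (zN π e y) 3 = - ∑ i, y i.succ * ((e i : ZMod 3) * sym (π i).1 3) := by
    have h2 := prodz hSTM hSPP hSCJ hn ∅ (by simp) hz hzt hsupp (x := 3) (by norm_num) (by
      intro σ hσ
      exfalso
      push_cast at hσ
      exact (hSPP.2.2.2.1 σ).1 hσ)
    rw [Finset.sum_empty, sub_zero] at h2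
    push_cast at h2
    rw [h2, ← Finset.sum_neg_distrib]
    refine Finset.sum_congr rfl fun i _ => ?_
    unfold tm
    rw [V_eq_zero (h3 i), ch_of_not_dvd (hi i) (h3 i), hval i]
    push_cast
    ring
  have hsl4 : sl (zN π e y) 4 = - y 0 := by rw [← hfour, neg_neg]
  have hcol0 : h ≠ 0 → y 0 * (wt ((n : ℤ) ^ 2) + w0) +
      ∑ i, y i.succ * ((e i : ZMod 3) * sym (π i).1 3) = 0 := by
    intro h0
    have h1 := hy.2 (Sum.inl 0) (fun h4 => absurd h4 h0)
    rw [← h1]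
    simp [Matrix.vecMul, dotProduct, PTN.Nm, Fin.sum_univ_succ]
  have hact : ¬ actR h n w0 → y 0 = 0 := hy.1
  have hslB : sl (zN π e y) ((BB h n E q : ℤ) : Eis) = 0 := by
    rw [sl_int hSSL hLCL hz _ hD.ne, hlv, hlw, hsl3, hsl4]
    obtain rfl | rfl | rfl : h = 0 ∨ h = 1 ∨ h = 2 := by omega
    · by_cases h4 : wt ((n : ℤ) ^ 2) + w0 = 0
      · rw [h4]
        simp
      · have h5 : y 0 = 0 := hact (by
          rintro (h6 | h6)
          · omega
          · exact h4 h6.2)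
        rw [h5]
        simp
    · have h5 : y 0 = 0 := hact (by
        rintro (h6 | h6)
        · omega
        · omega)
      have h6 := hcol0 (by omega)
      rw [h5, zero_mul, zero_add] at h6
      rw [h5, h6]
      simp
    · have h6 := hcol0 (by omega)
      have h7 := three_zero (∑ i, y i.succ * ((e i : ZMod 3) * sym (π i).1 3))
      push_cast
      linear_combination h6 - h7
  have hρB : tm ρ.1 (zN π e y) ((BB h n E q : ℤ) : Eis) = 0 := by
    have h4 : sl (zN π e y) ((BB h n E q : ℤ) : Eis) =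
        - tm ρ.1 (zN π e y) ((BB h n E q : ℤ) : Eis) := by
      unfold sl
      rw [finsum_eq_single _ ρ fun σ hσ => hoth σ hσ]
    rw [hslB] at h4
    exact neg_eq_zero.1 h4.symm
  have hall : ∀ σ : PP, tm σ.1 (zN π e y) ((BB h n E q : ℤ) : Eis) = 0 := by
    intro σ
    by_cases h4 : σ = ρ
    · rw [h4]
      exact hρB
    · exact hoth σ h4
  refine ⟨hz, ⟨t, hzt⟩, hall, ?_, ?_⟩
  · intro σ hσB
    have hσz : ¬ σ.1 ∣ zN π e y := by
      intro h4
      apply hσB
      obtain ⟨i, h5⟩ := hsupp σ h4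
      have hVB : (π i).1 ∣ ((BB h n E q : ℤ) : Eis) := by
        by_contra h6
        have h7 := hD.vB i
        rw [V_eq_zero h6] at h7
        have := hD.e12 i
        omega
      rcases h5 with rfl | h5
      · exact hVB
      · rw [h5]
        have h6 := conj_dvd hVB
        rwa [conj_intCast] at h6
    rw [V_eq_zero hσz]
    exact dvd_zero 3
  · intro hlv1
    rw [hlv] at hlv1
    have h1 : h = 1 := by
      obtain rfl | rfl | rfl : h = 0 ∨ h = 1 ∨ h = 2 := by omega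
      · exact absurd hlv1 (by decide)
      · rfl
      · exact absurd hlv1 (by decide)
    subst h1
    have h5 : y 0 = 0 := hact (by
      rintro (h6 | h6)
      · omega
      · omega)
    have h6 := hcol0 (by omega)
    rw [h5, zero_mul, zero_add] at h6
    exact ⟨by rw [hsl3, h6, neg_zero], by rw [hsl4, h5, neg_zero]⟩

end Pool.Agent.PTK

end

section

/-!
# PTK_ZT: the symbols of two classes of `VS`
-/

set_option autoImplicit false

namespace Pool.Agent.PTK

open Pool.Agent.Lib_helper18 Pool.Agent.Lib_helper18.Eis Pool.Agent.Lib_helper84.Cub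
open Pool.Agent.PT Pool.Agent.PTE Pool.Agent.PT3 Pool.Agent.PTN Pool.Agent.PT.EHYP
open Pool.Agent.PT3.HYPT

open ZAUX in
/-- PTK_ZT. -/
theorem ZT_thm (hSTM : STM) (hSPP : SPP) (hSCJ : SCJ) (hLCI : Stmt_LCI)
    (hZA : Stmt_ZA) (hZC : Stmt_ZC) : Stmt_ZT := by
  classical
  intro h n m k π p e r f w0 c hn hh y hy y' hy'
  obtain ⟨hz, ⟨t, hzt⟩, hsupp, hval, -⟩ := cls hZA hn y
  obtain ⟨hz', ⟨t', hzt'⟩, hsupp', hval', -⟩ := cls hZA hn y'
  obtain ⟨hZ1, -⟩ := hZC h n m k π p e r f w0 c hn hh y hy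
  obtain ⟨hZ1', -⟩ := hZC h n m k π p e r f w0 c hn hh y' hy'
  have hpi : ∀ i, tm (π i).1 (zN π e y) (zN π e y') = 0 := by
    intro i
    unfold tm
    rw [hval i, hval' i, hZ1 i, hZ1' i]
    ring
  constructor
  · intro σ
    by_cases hπ : ∃ i, σ = π i ∨ σ.1 = conj (π i).1
    · obtain ⟨i, rfl | h4⟩ := hπ
      · exact hpi i
      · rw [tm_conj_two hSTM hSPP hSCJ h4 hz hzt hz' hzt', hpi i, neg_zero]
    · exact DCONST.tm_zero (fun h4 => hπ (hsupp σ h4)) fun h4 => hπ (hsupp' σ h4)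
  · intro σ hσ' hσ
    obtain ⟨-, -, -, -, -, h6, -, -, -, -⟩ := hZA n m k π p e r f hn y'
    obtain ⟨-, -, -, -, -, -, h7, -, -, -⟩ := hZA n m k π p e r f hn y
    obtain ⟨i, -, hi⟩ := h6 σ hσ'
    by_cases hyi : y i.succ = 0
    · exfalso
      apply hσ
      have hV0 : 3 ∣ V (π i).1 (zN π e y) := by
        rw [← ZMod.natCast_eq_zero_iff, hval i, hyi, mul_zero]
      have hc0 : ch (π i).1 (zN π e y) = 0 := by rw [hZ1 i, hyi, zero_mul]
      rcases hi with rfl | hi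
      · exact (hLCI.1 (π i) _ hz).2 ⟨hV0, hc0⟩
      · have hp0 : (p i : ℤ) ≠ 0 := by exact_mod_cast (hn.pp i).ne_zero
        have hV1 : 3 ∣ V σ.1 (zN π e y) := by
          have h8 := V_add_conj (π i).2.1 hz hzt
          rw [hi]
          omega
        refine (hLCI.1 σ _ hz).2 ⟨hV1, ?_⟩
        have h9 := tm_conj_int hSTM hSPP hSCJ hi hz hzt hp0
        have hcj : ¬ (π i).1 ∣ conj (π i).1 := fun h5 =>
          not_assoc hn i i ((π i).2.1.associated_of_dvd (prime_conj (π i).2.1) h5)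
        have hVp : V (π i).1 (p i : Eis) = 1 := by
          rw [hn.pπ i, V_mul (π i).2.1 (π i).2.1.ne_zero (prime_conj (π i).2.1).ne_zero, V_self,
            V_eq_zero hcj]
        have hVσ : V σ.1 (p i : Eis) = 1 := by
          have h10 := V_conj (a := (p i : Eis)) (π i).2.1 (by
            rw [hn.pπ i]
            exact mul_ne_zero (π i).2.1.ne_zero (prime_conj (π i).2.1).ne_zero)
          rw [conj_natCast, ← hi, hVp] at h10
          exact h10
        rw [Int.cast_natCast] at h9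
        unfold tm at h9
        rw [hVp, hVσ, hc0, (ZMod.natCast_eq_zero_iff _ 3).2 hV0,
          (ZMod.natCast_eq_zero_iff _ 3).2 hV1] at h9
        simpa using h9
    · obtain ⟨g1, g2⟩ := h7 i hyi
      rcases hi with rfl | hi
      · exact g1
      · rw [hi]
        exact g2

end Pool.Agent.PTK

end

section

/-!
# PTK_DP2: the local term of a point at the place above `3`
-/

set_option autoImplicit false

namespace Pool.Agent.PTK

open Pool.Agent.Lib_helper18 Pool.Agent.Lib_helper18.Eis Pool.Agent.Lib_helper84.Cub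
open Pool.Agent.PT

open DPA in
/-- PTK_DP2. -/
theorem DP2_thm (hSLC : SLC) (hIF2 : Stmt_IF2) (hIIA : Stmt_IIA) : Stmt_DP2 := by
  intro N b x p q p' q' HD f hf h9
  have hs : LSym lam sl 4 := hSLC
  have hlamf : lam ^ 4 ∣ (f : Eis) := by
    have h1 : ((9 : ℤ) : Eis) ∣ ((f : ℤ) : Eis) :=
      intCast_dvd_intCast.2 (by exact_mod_cast h9)
    rw [Int.cast_natCast] at h1
    refine Dvd.dvd.trans ⟨w ^ 4, ?_⟩ h1
    have h2 : ((9 : ℤ) : Eis) = (3 : Eis) ^ 2 := by norm_num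
    rw [h2, three_eq]
    ring
  have hN : (N : Eis) ≠ 0 := by
    have h2 : ((N : ℤ) : Eis) ≠ 0 := DCONST.cast_ne (by have := HD.N0; omega)
    rwa [Int.cast_natCast] at h2
  have hfl := SolE_flip HD.sol
  have hw0 : w ≠ 0 := by
    intro h
    have := congrArg Eis.im h
    simp at this
  -- a fixed approximation of the cube root of `b`
  obtain ⟨r₀, hr, hr', H⟩ := exists_root (p := p) (q := -p') (p' := -q) (q' := q') hs hfl.n1
    (SolE_n1' (b := x) (x := b) (p := p) (q := -p') (p' := -q) (q' := q') hfl) HD.lc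
  have hg1 := hfl.g1
  have hg2 := hfl.g2
  obtain ⟨C, Φ, hΦ⟩ := exists_char hs.prime hs.pos hf hlamf
    (fun B => sl B (GfE p (-p') (-q) q' 1) - sl B (GfE p (-p') (-q) q' 2) - sl B w -
      ASE sl B p (-p') (-q) q' r₀)
    (by
      intro A B hA hB
      show _ = (_ : ZMod 3)
      rw [hs.mul A B _ hA hB hg1, hs.mul A B _ hA hB hg2, hs.mul A B _ hA hB hw0,
        ASE_mul hs hr hr' hA hB]
      ring)
    (by
      intro A B hA hB hd
      show _ = (_ : ZMod 3)
      rw [hs.cont A B _ hA hg1 hd, hs.cont A B _ hA hg2 hd, hs.cont A B _ hA hw0 hd,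
        ASE_cont hs hr hr' hA hd]) hN
  refine ⟨C, Φ, ?_⟩
  intro E Q hQ X Y HP
  have hB := B_ne HD HP
  have hn0 := n0_ne HD HP
  obtain ⟨c, hc, hE⟩ := HP.pt.eq
  rw [← hΦ E Q hQ]
  obtain ⟨N1, H1⟩ := hIIA b x p (-p') (-q) q' X Y HD.hb HD.hx HD.lc hfl HP.pt.hX HP.pt.hY hn0 HP.dn
  obtain ⟨N2, H2⟩ := hIF2 lam sl 4 hs b x p (-p') (-q) q' HD.hb HD.hx hfl
  obtain ⟨N3, H3⟩ := exists_ne hs.prime (b := b) (p := p) (q := -p') hfl.n1
  obtain ⟨N4, H4⟩ := exists_ne hs.prime (b := b) (p := -q) (q := q')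
    (SolE_n1' (b := x) (x := b) (p := p) (q := -p') (p' := -q) (q' := q') hfl)
  have h5 := H ((N : Eis) * (Q : Eis) ^ E)
    (sl ((N : Eis) * (Q : Eis) ^ E) (GfE p (-p') (-q) q' 1) -
      sl ((N : Eis) * (Q : Eis) ^ E) (GfE p (-p') (-q) q' 2) - sl ((N : Eis) * (Q : Eis) ^ E) w -
      SVE sl x p (-p') (-q) q' X Y) (N1 + N2 + N3 + N4) hB (by
    intro r hr
    have e1 := H1 r ((pow_dvd_pow _ (by omega)).trans hr)
    have e2 := H2 r ((pow_dvd_pow _ (by omega)).trans hr)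
    have e3 := H3 r ((pow_dvd_pow _ (by omega)).trans hr)
    have e4 := H4 r ((pow_dvd_pow _ (by omega)).trans hr)
    have e5 := ASE_rel hs e3 e4 HD.hx hn0 hB hc hE
    have e6 := s_rel hs HD.hx hn0 hB hc hg1 hE
    have e7 := s_rel hs HD.hx hn0 hB hc hg2 hE
    have e8 := s_rel hs HD.hx hn0 hB hc hw0 hE
    rw [e1, hs.skew (X ^ 3 + x * Y ^ 3) w hn0 hw0, ← e5, ← e6, ← e7, ← e8, e2,
      hs.skew x w HD.hx hw0]
    ring)
  show _ = sl ((N : Eis) * (Q : Eis) ^ E) (GfE p (-p') (-q) q' 1) -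
    sl ((N : Eis) * (Q : Eis) ^ E) (GfE p (-p') (-q) q' 2) - sl ((N : Eis) * (Q : Eis) ^ E) w -
      ASE sl ((N : Eis) * (Q : Eis) ^ E) p (-p') (-q) q' r₀
  rw [h5]
  ring

end Pool.Agent.PTK

end

section

/-!
# PTK_NHO: the first cohomology of the `S`-units
-/

set_option autoImplicit false

open NumberField IsDedekindDomain Finset
open scoped nonZeroDivisors Pointwise

namespace Pool.Agent.PTK

open Pool.Agent.Lib_helper18 Pool.Agent.Lib_helper18.Eis Pool.Agent.Lib_helper84.Cub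
open Pool.Agent.PT hiding NHO

namespace NHO

variable {L : Type} [Field L] [NumberField L]

lemma mem_SU (ι : Eis →+* L) (S : Finset Pl) (u : Lˣ) :
    u ∈ SU ι S ↔ ∀ P : HeightOneSpectrum (𝓞 L), (∀ v ∈ S, P ∉ Abv ι v) →
      P.valuation L (u : L) = 1 := by
  constructor
  · intro h P hP
    exact h P (by
      intro hmem
      simp only [Set.mem_iUnion] at hmem
      obtain ⟨v, hv, hPv⟩ := hmem
      exact hP v hv hPv)
  · intro h P hP
    refine h P ?_
    intro v hv hPv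
    apply hP
    simp only [Set.mem_iUnion]
    exact ⟨v, hv, hPv⟩

lemma supp_fin (y : L) (hy : y ≠ 0) :
    {P : HeightOneSpectrum (𝓞 L) | P.valuation L y ≠ 1}.Finite := by
  have h1 := HeightOneSpectrum.Support.finite (𝓞 L) y
  have h2 := HeightOneSpectrum.Support.finite (𝓞 L) y⁻¹
  refine (h1.union h2).subset ?_
  intro P hP
  have hP' : P.valuation L y ≠ 1 := hP
  rcases lt_or_gt_of_ne hP' with h | h
  · right
    change 1 < P.valuation L y⁻¹
    rw [map_inv₀]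
    have hne : P.valuation L y ≠ 0 := (Valuation.ne_zero_iff _).2 hy
    exact (one_lt_inv₀ (zero_lt_iff.2 hne)).2 h
  · left
    exact h

end NHO

open _root_.Pool.Agent.PTK.NHO in
theorem NHO_thm (hSPP : SPP) (hNHN : Stmt_NHN) (hNTR : Stmt_NTR) : Stmt_NHO := by
  intro x L _ _ ι θ σ hx h3x hC S hnone hS
  obtain ⟨hN1, hN2, hN3⟩ := hNHN x L ι θ σ hx hC
  obtain ⟨hT1, hT2, hT3, hT4, hT5, hT6⟩ := hNTR x L ι θ σ hx h3x hC
  obtain ⟨-, hP2, -, hP4, -, -⟩ := hSPP
  -- the prime `P2` with `P2 z = P (σ z)`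
  have hpull : ∀ P : HeightOneSpectrum (𝓞 L), ∃ P₂ : HeightOneSpectrum (𝓞 L),
      ∀ z : L, P₂.valuation L z = P.valuation L (σ z) := by
    intro P
    obtain ⟨P₁, h₁⟩ := hT3 P
    obtain ⟨P₂, h₂⟩ := hT3 P₁
    refine ⟨P₂, fun z => ?_⟩
    rw [← h₁ (σ z), ← h₂ (σ (σ z)), hN1]
  have hAbv : ∀ (P P₂ : HeightOneSpectrum (𝓞 L)),
      (∀ z : L, P₂.valuation L z = P.valuation L (σ z)) → ∀ v, P₂ ∈ Abv ι v ↔ P ∈ Abv ι v := by
    intro P P₂ h v
    change P₂.valuation L (ι (uni v)) < 1 ↔ P.valuation L (ι (uni v)) < 1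
    rw [h, hC.sι]
  have hsm : ∀ u : Lˣ, ((σ • u : Lˣ) : L) = σ (u : L) := fun u => rfl
  constructor
  · intro u hu
    rw [mem_SU] at hu ⊢
    intro P hP
    obtain ⟨P₂, h₂⟩ := hpull P
    rw [hsm, ← h₂]
    refine hu P₂ ?_
    intro v hv hmem
    exact hP v hv ((hAbv P P₂ h₂ v).1 hmem)
  · intro u hu hprod
    rw [mem_SU] at hu
    obtain ⟨y, hy⟩ := hN3 u hprod
    -- uniqueness of the place below
    have hlam : ∀ π : PP, ¬ π.1 ∣ lam := by
      intro π h
      exact (hP4 π).1 (h.trans lam_dvd_three)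
    have huniq : ∀ (π : PP) (v : Pl) (P : HeightOneSpectrum (𝓞 L)), P ∈ Abv ι (some π) →
        P ∈ Abv ι v → v = some π := by
      intro π v P hP hPv
      obtain ⟨v₀, -, hv₀⟩ := hT2 P
      have h1 := hv₀ _ hP
      have h2 := hv₀ _ hPv
      have key : ∀ w' : Pl, uni v₀ ∣ uni w' → w' = v₀ := by
        intro w' hd
        cases v₀ with
        | none =>
          cases w' with
          | none => rfl
          | some π' =>
            exfalso
            have : Associated lam π'.1 := prime_lam.associated_of_dvd π'.2.1 hd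
            exact hlam π' this.symm.dvd
        | some π₀ =>
          cases w' with
          | none => exact absurd hd (hlam π₀)
          | some π' =>
            have : Associated π₀.1 π'.1 := π₀.2.1.associated_of_dvd π'.2.1 hd
            rw [hP2 _ _ this]
      exact (key v h2).trans (key (some π) h1).symm
    -- valuations of `y` at the primes above a place outside `S`
    have hval : ∀ P : HeightOneSpectrum (𝓞 L), (∀ v ∈ S, P ∉ Abv ι v) →
        P.valuation L (σ (y : L)) = P.valuation L (y : L) := by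
      intro P hP
      have h1 := hu P hP
      rw [hy, Units.val_div_eq_div_val, map_div₀, hsm] at h1
      have hne : P.valuation L (σ (y : L)) ≠ 0 :=
        (Valuation.ne_zero_iff _).2 (by simp)
      exact ((div_eq_one_iff_eq hne).1 h1).symm
    have hout : ∀ (π : PP), some π ∉ S → ∀ P ∈ Abv ι (some π), ∀ v ∈ S, P ∉ Abv ι v := by
      intro π hπ P hP v hv hPv
      exact hπ (huniq π v P hP hPv ▸ hv)
    have hconst : ∀ (π : PP), some π ∉ S → ∀ i : ℕ, ∀ P ∈ Abv ι (some π),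
        P.valuation L ((σ ^ i) (y : L)) = P.valuation L (y : L) := by
      intro π hπ i
      induction i with
      | zero => intro P _; simp
      | succ i ih =>
        intro P hP
        obtain ⟨P₂, h₂⟩ := hpull P
        have hP₂ : P₂ ∈ Abv ι (some π) := (hAbv P P₂ h₂ _).2 hP
        have e : (σ ^ (i + 1)) (y : L) = σ ((σ ^ i) (y : L)) := by
          rw [pow_succ']; rfl
        rw [e, ← h₂, ih P₂ hP₂, h₂, hval P (hout π hπ P hP)]
    have hsame : ∀ (π : PP), some π ∉ S → ∀ P ∈ Abv ι (some π), ∀ P' ∈ Abv ι (some π),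
        P'.valuation L (y : L) = P.valuation L (y : L) := by
      intro π hπ P hP P' hP'
      obtain ⟨i, hi⟩ := hT5 (some π) P P' hP hP'
      rw [← hi, hconst π hπ i P' hP']
    -- the finite set of places
    have hfin : {π : PP | ∃ P ∈ Abv ι (some π), P.valuation L (y : L) ≠ 1}.Finite := by
      have h1 := supp_fin (y : L) (by simp)
      have h2 : (⋃ P ∈ {P : HeightOneSpectrum (𝓞 L) | P.valuation L (y : L) ≠ 1},
          {π : PP | P ∈ Abv ι (some π)}).Finite := by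
        refine h1.biUnion fun P _ => ?_
        refine Set.Subsingleton.finite ?_
        intro π hπ π' hπ'
        have := huniq π (some π') P hπ hπ'
        exact (Option.some_injective _ this).symm
      refine h2.subset ?_
      rintro π ⟨P, hP, hne⟩
      simp only [Set.mem_iUnion]
      exact ⟨P, hne, hP⟩
    -- the exponents
    have hexp : ∀ π : PP, ∃ n : ℤ, some π ∉ S → ∀ P ∈ Abv ι (some π),
        P.valuation L (y : L) = WithZero.exp n := by
      intro π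
      by_cases hπ : some π ∈ S
      · exact ⟨0, fun h => absurd hπ h⟩
      · obtain ⟨P, hP⟩ := (hT4 (some π)).2
        have hne : P.valuation L (y : L) ≠ 0 := (Valuation.ne_zero_iff _).2 (by simp)
        refine ⟨WithZero.log (P.valuation L (y : L)), fun _ P' hP' => ?_⟩
        rw [hsame π hπ P hP P' hP', WithZero.exp_log hne]
    choose n hn using hexp
    have hι : ∀ π : PP, ι π.1 ≠ 0 := by
      intro π h
      exact π.2.1.ne_zero (hC.inj (h.trans (map_zero ι).symm))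
    set T : Finset PP := hfin.toFinset with hT
    set g : Lˣ := ∏ π ∈ T, (Units.mk0 (ι π.1) (hι π)) ^ n π with hg
    have hσg : σ • g = g := by
      rw [hg, Finset.smul_prod']
      refine Finset.prod_congr rfl fun π _ => ?_
      rw [smul_zpow']
      congr 1
      ext
      rw [hsm]
      exact hC.sι _
    have hvg : ∀ P : HeightOneSpectrum (𝓞 L), P.valuation L (g : L) =
        ∏ π ∈ T, (P.valuation L (ι π.1)) ^ n π := by
      intro P
      rw [hg, Units.coe_prod, map_prod]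
      refine Finset.prod_congr rfl fun π _ => ?_
      rw [Units.val_zpow_eq_zpow_val, map_zpow₀]
      rfl
    refine ⟨y * g, ?_, ?_⟩
    · rw [mem_SU]
      intro P hP
      obtain ⟨v₀, hv₀, -⟩ := hT2 P
      have hv₀S : v₀ ∉ S := fun h => hP v₀ h hv₀
      cases v₀ with
      | none => exact absurd hnone hv₀S
      | some π₀ =>
        have hother : ∀ π : PP, π ≠ π₀ → P.valuation L (ι π.1) = 1 := by
          intro π hπ
          refine le_antisymm (hT1 P π.1) ?_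
          by_contra hlt
          have : P ∈ Abv ι (some π) := not_le.1 hlt
          exact hπ (Option.some_injective _ (huniq π₀ (some π) P hv₀ this))
        have hself : P.valuation L (ι π₀.1) = WithZero.exp (-1 : ℤ) := by
          refine hT6 π₀ P ?_ hv₀
          intro hd
          exact hv₀S (hS π₀ hd)
        rw [Units.val_mul, map_mul, hvg, hn π₀ hv₀S P hv₀]
        by_cases hmem : π₀ ∈ T
        · rw [Finset.prod_eq_single π₀ (fun π _ hπ => by rw [hother π hπ, one_zpow])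
            (fun h => absurd hmem h), hself, ← WithZero.exp_zsmul, ← WithZero.exp_add]
          simp
        · rw [Finset.prod_eq_one (fun π hπ => by
            rw [hother π (fun h => hmem (h ▸ hπ)), one_zpow]), mul_one]
          have h1 : P.valuation L (y : L) = 1 := by
            by_contra hne
            exact hmem (hfin.mem_toFinset.2 ⟨P, hv₀, hne⟩)
          rw [← hn π₀ hv₀S P hv₀, h1]
    · rw [hy, smul_mul', hσg, mul_div_mul_right_eq_div]

end Pool.Agent.PTK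

end

section

/-!
# PTK_CTZ: the joint density for the zero pattern
-/

set_option autoImplicit false

open NumberField IsDedekindDomain Finset
open scoped nonZeroDivisors Pointwise

namespace Pool.Agent.PTK

open Pool.Agent.Lib_helper18 Pool.Agent.Lib_helper18.Eis Pool.Agent.Lib_helper84.Cub
open Pool.Agent.PT Pool.Agent.PTE Pool.Agent.PT3 Pool.Agent.PTL Pool.Agent.PTN

namespace CTZ

/-- The symbols of a product up to cubes. -/
theorem sym_zero_of (hSPP : SPP) {d : ℕ} (v : Fin d → ℤ) (ρ : PP)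
    (hv : ∀ i, ¬ ρ.1 ∣ (v i : Eis)) (hs : ∀ i, sym ρ.1 (v i : Eis) = 0) {b u t : ℤ}
    (g : Fin d → ℕ) (hb : ¬ ρ.1 ∣ (b : Eis)) (hu : ¬ ρ.1 ∣ (u : Eis)) (ht : ¬ ρ.1 ∣ (t : Eis))
    (h : b * u ^ 3 = (∏ i, v i ^ g i) * t ^ 3) : sym ρ.1 (b : Eis) = 0 := by
  classical
  have hp : Prime ρ.1 := ρ.2.1
  have h3 : ¬ ρ.1 ∣ 3 := (hSPP.2.2.2.1 ρ).1
  have h1 : (b : Eis) * (u : Eis) ^ 3 = (∏ i, (v i : Eis) ^ g i) * (t : Eis) ^ 3 := by
    have h2 := congrArg (fun z : ℤ => (z : Eis)) h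
    push_cast at h2
    exact h2
  obtain ⟨h4, h5⟩ := sym_prod_pow hp h3 (fun i => (v i : Eis)) g Finset.univ
    (fun i _ => hv i)
  have hu3 : ¬ ρ.1 ∣ (u : Eis) ^ 3 := fun h => hu (hp.dvd_of_dvd_pow h)
  have ht3 : ¬ ρ.1 ∣ (t : Eis) ^ 3 := fun h => ht (hp.dvd_of_dvd_pow h)
  have h6 := congrArg (sym ρ.1) h1
  rw [sym_mul hp h3 hb hu3, sym_mul hp h3 h4 ht3, sym_pow hp h3 hu, sym_pow hp h3 ht, h5,
    Finset.sum_eq_zero (fun i _ => by rw [hs i, mul_zero])] at h6
  have h7 : ((3 : ℕ) : ZMod 3) = 0 := by decide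
  rw [h7, zero_mul, zero_mul, add_zero, add_zero] at h6
  exact h6

end CTZ

open _root_.Pool.Agent.PTK.CTZ in
/-- PTK_CTZ. -/
theorem CTZ_thm (hSPLT : SPLT) (hSPP : SPP) (hCLSC : CLSC) (hCLSCS : CLSCS) (hPLE : Stmt_PLE)
    (hSYK : Stmt_SYK) (hMSKU : Stmt_MSKU) (hBDJZ : Stmt_BDJZ) : Stmt_CTZ := by
  classical
  intro h n m k π p e r f w0 c d v hNF hh hHB y hy l u hu hind
  obtain ⟨s, τ, b, X, Y, P, Q, P', Q', hs, hPl⟩ := hPLE h n m k π p e r f w0 c hNF hh
  obtain ⟨P1, Q1, P1', Q1', hSys, hHyp⟩ := hSYK h n m k π p e r f w0 c hNF hh y hy l u hu hind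
  obtain ⟨f₀, hf₀, hMS⟩ := hMSKU h n m k π p e r f w0 c hNF hh y hy l u P1 Q1 P1' Q1' hu hSys hHyp
  -- the conductor
  obtain ⟨F, hFpos, hF9, hpF, hFd⟩ : ∃ F : ℕ, 0 < F ∧ 9 ∣ F ∧ (∀ i, p i ∣ F) ∧ f₀ ∣ F := by
    refine ⟨9 * (∏ i, p i) * f₀, ?_, ?_, ?_, ?_⟩
    · have h1 : 0 < ∏ i, p i := Finset.prod_pos fun i _ => (hNF.pp i).pos
      positivity
    · exact Dvd.dvd.mul_right (Dvd.intro _ rfl) _
    · intro i
      exact Dvd.dvd.mul_right (Dvd.dvd.mul_left (Finset.dvd_prod_of_mem p (mem_univ i)) _) _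
    · exact Dvd.intro_left _ rfl
  obtain ⟨κ, hκ1, hκ2⟩ := hCLSC m π p hNF.pp hNF.p1 hNF.pπ hNF.pinj F hFpos hF9 hpF
  obtain ⟨C, Φ, N₀, hC⟩ := hMS F hFpos hFd κ hκ1
  obtain ⟨K, hK⟩ := hBDJZ s b P Q P' Q' l (zN π e y) (fun j => zN π e (u j)) P1 Q1 P1' Q1' F m κ
    (Fin.cons w0 c) C Φ hPl.sys hSys hFpos hF9 (hCLSCS F m κ hFpos hF9 hκ2)
  -- the basis `b` in terms of `v`
  choose g U W hU hW hrel using fun i => hHB.2.1 (b i) (hPl.adm i)
  have hvne : ∀ i, v i ≠ 0 := fun i => (hHB.1 i).1.ne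
  have hbne : ∀ i, b i ≠ 0 := fun i => (hPl.adm i).1.ne
  obtain ⟨M, hM0, hMv, hMb, hMU, hMW⟩ : ∃ M : ℕ, N₀ ≤ M ∧ (∀ i, (v i).natAbs ≤ M) ∧
      (∀ i, (b i).natAbs ≤ M) ∧ (∀ i, (U i).natAbs ≤ M) ∧ ∀ i, (W i).natAbs ≤ M := by
    refine ⟨N₀ + ∑ i, (v i).natAbs + ∑ i, ((b i).natAbs + (U i).natAbs + (W i).natAbs), ?_, ?_,
      ?_, ?_, ?_⟩
    · omega
    · intro i
      have := Finset.single_le_sum (f := fun i => (v i).natAbs) (fun i _ => Nat.zero_le _)
        (mem_univ i)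
      omega
    all_goals
      intro i
      have := Finset.single_le_sum (f := fun i => (b i).natAbs + (U i).natAbs + (W i).natAbs)
        (fun i _ => Nat.zero_le _) (mem_univ i)
      omega
  have hnd : ∀ (q : ℕ) (z : ℤ), M < q → z ≠ 0 → z.natAbs ≤ M → ¬ (q : ℤ) ∣ z := by
    intro q z hq hz hzM hd
    have h1 := Int.natAbs_dvd_natAbs.2 hd
    have h2 := Nat.le_of_dvd (Int.natAbs_pos.2 hz) h1
    rw [Int.natAbs_natCast] at h2
    omega
  have hZ : ∀ q : ℕ, q.Prime → M < q → q % 3 = 1 → q ∈ ZP v → q ∈ ZP b := by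
    intro q hq hqM hq3 hqv ρ hρ i
    obtain ⟨-, -, -, hdv, -, -⟩ := hSPLT.2 q ρ hq hq3 hρ
    have hn : ∀ z : ℤ, z ≠ 0 → z.natAbs ≤ M → ¬ ρ.1 ∣ (z : Eis) := fun z hz hzM h1 =>
      hnd q z hqM hz hzM ((hdv z).1 h1)
    exact sym_zero_of hSPP v ρ (fun j => hn _ (hvne j) (hMv j)) (hqv ρ hρ) (g i)
      (hn _ (hbne i) (hMb i)) (hn _ (hU i) (hMU i)) (hn _ (hW i) (hMW i)) (hrel i)
  refine ⟨K + 2 * (2 * ((Finset.range (M + 1)).card : ℝ)), fun σ h1 hσ2 => ?_⟩
  have hB := hK σ h1 hσ2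
  have hsub1 : ∀ q : ℕ, q.Prime → M < q → q ∈ {q | q ∈ QYU h n π e w0 c y 1 ∧ q ∈ ZP v} →
      q ∈ ZP b ∩ SPKU (zN π e y) (fun j => zN π e (u j)) P1 Q1 P1' Q1' κ (Fin.cons w0 c) C Φ :=
    fun q hq hqM hqY => ⟨hZ q hq hqM hqY.1.1 hqY.2, (hC q hq (by omega)).1 hqY.1⟩
  have hsub2 : ∀ q : ℕ, q.Prime → M < q → q ∈ {q | q ∈ QYU h n π e w0 c y 2 ∧ q ∈ ZP v} →
      q ∈ ZP b ∩ SMKU (zN π e y) (fun j => zN π e (u j)) P1 Q1 P1' Q1' κ (Fin.cons w0 c) C Φ :=
    fun q hq hqM hqY => ⟨hZ q hq hqM hqY.1.1 hqY.2, (hC q hq (by omega)).2 hqY.1⟩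
  have i1 := CL.sm_le_add _ _ M hsub1 h1
  have i2 := CL.sm_le_add _ _ M hsub2 h1
  rw [← hs]
  linarith

end Pool.Agent.PTK

end

section

/-!
# PTK_ZPV: the zero pattern does not depend on the basis
-/

set_option autoImplicit false

open NumberField IsDedekindDomain Finset
open scoped nonZeroDivisors Pointwise

namespace Pool.Agent.PTK

open Pool.Agent.Lib_helper18 Pool.Agent.Lib_helper18.Eis Pool.Agent.Lib_helper84.Cub
open Pool.Agent.PT Pool.Agent.PTE Pool.Agent.PT3 Pool.Agent.PTL Pool.Agent.PTN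

/-- PTK_ZPV. -/
theorem ZPV_thm (hSPLT : SPLT) (hSPP : SPP) : Stmt_ZPV := by
  classical
  intro h n m k π p e r f w0 c s τ b X Y P Q P' Q' d v _ _ hPl hHB
  -- the basis `b` in terms of `v`
  choose g U W hU hW hrel using fun i => hHB.2.1 (b i) (hPl.adm i)
  have hvne : ∀ i, v i ≠ 0 := fun i => (hHB.1 i).1.ne
  have hbne : ∀ i, b i ≠ 0 := fun i => (hPl.adm i).1.ne
  obtain ⟨M, hM0, hMv, hMb, hMU, hMW⟩ : ∃ M : ℕ, 3 ≤ M ∧ (∀ i, (v i).natAbs ≤ M) ∧
      (∀ i, (b i).natAbs ≤ M) ∧ (∀ i, (U i).natAbs ≤ M) ∧ ∀ i, (W i).natAbs ≤ M := by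
    refine ⟨3 + ∑ i, (v i).natAbs + ∑ i, ((b i).natAbs + (U i).natAbs + (W i).natAbs), ?_, ?_,
      ?_, ?_, ?_⟩
    · omega
    · intro i
      have := Finset.single_le_sum (f := fun i => (v i).natAbs) (fun i _ => Nat.zero_le _)
        (mem_univ i)
      omega
    all_goals
      intro i
      have := Finset.single_le_sum (f := fun i => (b i).natAbs + (U i).natAbs + (W i).natAbs)
        (fun i _ => Nat.zero_le _) (mem_univ i)
      omega
  have hnd : ∀ (q : ℕ) (z : ℤ), M < q → z ≠ 0 → z.natAbs ≤ M → ¬ (q : ℤ) ∣ z := by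
    intro q z hq hz hzM hd
    have h1 := Int.natAbs_dvd_natAbs.2 hd
    have h2 := Nat.le_of_dvd (Int.natAbs_pos.2 hz) h1
    rw [Int.natAbs_natCast] at h2
    omega
  refine ⟨M, fun q hq hqM hqv ρ hρ i => ?_⟩
  have hq0 : q % 3 ≠ 0 := by
    intro h0
    have h1 : q = 3 := ((Nat.prime_dvd_prime_iff_eq Nat.prime_three hq).1
      (Nat.dvd_of_mod_eq_zero h0)).symm
    omega
  have hq2 : q % 3 ≠ 2 := by
    intro h2
    obtain ⟨π₁, hπ₁⟩ := hSPP.2.2.2.2.1 q hq h2
    obtain ⟨π₂, hπ₂⟩ := (hSPP.2.2.2.1 ρ).2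
    have h3 : Irreducible (q : Eis) := by
      rw [← hπ₁]
      exact π₁.2.1.irreducible
    rcases h3.isUnit_or_isUnit hρ with h4 | h4
    · exact ρ.2.1.not_isUnit h4
    · rw [← hπ₂] at h4
      exact π₂.2.1.not_isUnit h4
  have hq3 : q % 3 = 1 := by omega
  obtain ⟨-, -, -, hdv, -, -⟩ := hSPLT.2 q ρ hq hq3 hρ
  have hn : ∀ z : ℤ, z ≠ 0 → z.natAbs ≤ M → ¬ ρ.1 ∣ (z : Eis) := fun z hz hzM h1 =>
    hnd q z hqM hz hzM ((hdv z).1 h1)
  exact CTZ.sym_zero_of hSPP v ρ (fun j => hn _ (hvne j) (hMv j)) (hqv ρ hρ) (g i)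
    (hn _ (hbne i) (hMb i)) (hn _ (hU i) (hMU i)) (hn _ (hW i) (hMW i)) (hrel i)

end Pool.Agent.PTK

end

section

/-!
# PTK_F2E: `b` a local cube and `x` not, tame places
-/

set_option autoImplicit false

open NumberField IsDedekindDomain Finset
open scoped nonZeroDivisors Pointwise

namespace Pool.Agent.PTK

open Pool.Agent.Lib_helper18 Pool.Agent.Lib_helper18.Eis Pool.Agent.Lib_helper84.Cub
open Pool.Agent.PT Pool.Agent.PTE Pool.Agent.PT3 Pool.Agent.PTL Pool.Agent.PTN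

theorem F2E_thm (hSTM : STM) (hSPP : SPP) (hLCI : Stmt_LCI) (hIF2 : Stmt_IF2) : Stmt_F2E := by
  intro π B b x p q p' q' hB hb hx hsol hLb hLx
  have hLSym : LSym π.1 (tm π.1) 1 := hSTM π.1 π.2.1 (hSPP.2.2.2.1 π).1
  have h1 : ¬ (3 ∣ V π.1 x ∧ ch π.1 x = 0) :=
    fun h => hLx ((hLCI.1 π x hx.ne).2 h)
  obtain ⟨j, hj, hj'⟩ := PT.F2B.tm_smul (hx.sym π) h1
  obtain ⟨N0, hN0⟩ := hIF2 π.1 (tm π.1) 1 hLSym b x p q p' q' hb.ne hx.ne hsol
  refine ⟨N0, fun r hr => ?_⟩
  have h2 := hN0 r hr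
  have h3 : ASE (tm π.1) B p q p' q' r = j * ASE (tm π.1) x p q p' q' r := by
    unfold ASE
    rw [hj, hj, hj, hj]
    ring
  rw [h3, h2, hj, hj, hj']
  ring

end Pool.Agent.PTK

end

section

/-!
# The full law of prime twists: the Hasse norm theorem for a base which is not a cube at `λ`
-/

set_option autoImplicit false

open NumberField IsDedekindDomain Finset
open scoped nonZeroDivisors Pointwise

namespace Pool.Agent.PTK

open Pool.Agent.Lib_helper18 Pool.Agent.Lib_helper18.Eis Pool.Agent.Lib_helper84.Cub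
open Pool.Agent.PT

namespace HN2

theorem cube_of {y a b : Eis} (hb : b ≠ 0) (h : a ^ 3 = y * b ^ 3) : ∃ c : Eis, c ^ 3 = y := by
  have h1 : b ^ 3 ∣ a ^ 3 := ⟨y, by rw [h, mul_comm]⟩
  have h2 : b ∣ a := (IsIntegrallyClosed.pow_dvd_pow_iff (by norm_num : (3 : ℕ) ≠ 0)).1 h1
  obtain ⟨c, rfl⟩ := h2
  refine ⟨c, mul_right_cancel₀ (pow_ne_zero 3 hb) ?_⟩
  rw [← h]
  ring

theorem sol {x y p q p' q' : Eis} (hx : x ≠ 0) (hy : ¬ ∃ c : Eis, c ^ 3 = y)
    (h : SolWE x y p q p' q') : SolE x y p q p' q' := by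
  have hn : p' ^ 3 + x * q' ^ 3 ≠ 0 := by
    intro h1
    apply h.n1
    rw [h.eq, h1, mul_zero]
  have n2 : p ^ 3 - y * p' ^ 3 ≠ 0 := by
    intro h1
    have h2 : p ^ 3 = y * p' ^ 3 := sub_eq_zero.1 h1
    rcases eq_or_ne p' 0 with h3 | h3
    · have h4 : p = 0 := by
        apply pow_eq_zero_iff (n := 3) (by norm_num) |>.1
        rw [h2, h3]
        ring
      have h5 := h.eq
      have h6 : q ^ 3 = y * q' ^ 3 := by
        apply mul_left_cancel₀ hx
        rw [h3, h4] at h5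
        linear_combination h5
      rcases eq_or_ne q' 0 with h7 | h7
      · apply hn
        rw [h3, h7]
        ring
      · exact hy (cube_of h7 h6)
    · exact hy (cube_of h3 h2)
  have g : ∀ i : ℕ, GfE p q p' q' i ≠ 0 := by
    intro i h1
    unfold GfE at h1
    have h2 : q * p' = w ^ i * p * q' := sub_eq_zero.1 h1
    have h3 : q ^ 3 * p' ^ 3 = p ^ 3 * q' ^ 3 := by
      have h4 : (w ^ i) ^ 3 = 1 := by rw [← pow_mul, mul_comm, pow_mul, w_cube, one_pow]
      calc q ^ 3 * p' ^ 3 = (q * p') ^ 3 := by ring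
        _ = (w ^ i) ^ 3 * (p ^ 3 * q' ^ 3) := by rw [h2]; ring
        _ = p ^ 3 * q' ^ 3 := by rw [h4, one_mul]
    have h5 : (p ^ 3 - y * p' ^ 3) * (p' ^ 3 + x * q' ^ 3) = 0 := by
      linear_combination (- x) * h3 - p' ^ 3 * (- h.eq)
    rcases mul_eq_zero.1 h5 with h6 | h6
    · exact n2 h6
    · exact hn h6
  exact { toSolWE := h, n2 := n2, g1 := g 1, g2 := g 2 }

end HN2

/-- the Hasse norm theorem, with nondegenerate solutions, for a base which is not a cube at `λ` -/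
theorem HN2_thm (hNFL : Stmt_NFL) (hNM2 : Stmt_NM2) (hNDS : Stmt_NDS) : Stmt_HN2 := by
  intro x y hx hp hsl hxc hV hy hyc htm hd
  obtain ⟨L, _, _, ι, θ, σ, hC⟩ := hNFL x hx hxc
  obtain ⟨z, hz, hN⟩ := hNM2 x L ι θ σ hx hp hsl hV hxc hC y hy htm hd
  obtain ⟨p, q, p', q', hs⟩ := hNDS x L ι θ σ hx hC y z hy hz hN
  exact ⟨p, q, p', q', HN2.sol hx hyc hs⟩

end Pool.Agent.PTK

end

section

/-!
# F4E: two noncubes at a place not dividing `B` (Eisenstein case)
-/

set_option autoImplicit false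

namespace Pool.Agent.PTK

open Pool.Agent.Lib_helper18 Pool.Agent.Lib_helper18.Eis Pool.Agent.Lib_helper84.Cub
open Pool.Agent.PT Pool.Agent.PTE Pool.Agent.PT3 Pool.Agent.PTL Pool.Agent.PTN

theorem F4E_thm : Stmt_F4E := by
  intro π B b x p q p' q' hB hAb hAx hS hπB hcb hcx
  have hl : Prime π.1 := π.2.1
  have h3 : ¬ π.1 ∣ 3 := by
    intro h
    have h1 := (dvd_three_iff hl).1 h
    have h2 : lam ∣ π.1 := h1.symm.dvd
    rw [lam_dvd_iff] at h2
    have h4 := π.2.2.1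
    have h5 := π.2.2.2
    omega
  have hb : ¬ π.1 ∣ b := hAb.unr π hπB
  have hx : ¬ π.1 ∣ x := hAx.unr π hπB
  rw [PT.F3U.ch_eq hb] at hcb
  rw [PT.F3U.ch_eq hx] at hcx
  have hw : ¬ π.1 ∣ w := not_dvd_of_isUnit hl isUnit_w
  -- the maximal power
  have hpq : ¬ (p = 0 ∧ q = 0) := by
    rintro ⟨h1, h2⟩
    apply hS.n1
    rw [h1, h2]
    ring
  obtain ⟨m, P, Q, P', Q', eP, eQ, eP', eQ', hn⟩ :=
    PT.F3U.exists_max (p' := p') (q' := q') hl hpq
  have heq : p ^ 3 + b * q ^ 3 = x * (p' ^ 3 + b * q' ^ 3) := hS.eq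
  have heq2 : P ^ 3 + b * Q ^ 3 = x * (P' ^ 3 + b * Q' ^ 3) := by
    have h0 : (π.1 ^ m) ^ 3 ≠ 0 := pow_ne_zero _ (pow_ne_zero _ hl.ne_zero)
    apply mul_left_cancel₀ h0
    rw [eP, eQ, eP', eQ'] at heq
    linear_combination heq
  have hV : ∀ i, V π.1 (GfE p q p' q' i) = m + m := by
    intro i
    have e1 : GfE p q p' q' i = π.1 ^ (m + m) * (Q * P' - w ^ i * P * Q') := by
      unfold GfE
      rw [eP, eQ, eP', eQ', pow_add]
      ring
    rw [e1]
    exact V_pow_mul hl _ (PT.F3U.key hl h3 hb hcb hx hcx heq2 hn i)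
  have hVB : V π.1 B = 0 := V_eq_zero hπB
  have hVw : V π.1 w = 0 := V_eq_zero hw
  have hVP : V π.1 (B * x * b) = 0 := by
    apply V_eq_zero
    intro h
    rcases hl.dvd_or_dvd h with h1 | h1
    · rcases hl.dvd_or_dvd h1 with h2 | h2
      · exact hπB h2
      · exact hx h2
    · exact hb h1
  unfold UVE tm
  rw [hV 1, hV 2, hVB, hVw, hVP]
  simp

end Pool.Agent.PTK

end

section

/-!
# PTK_TLE: antisymmetry of the pairing of the minus part
-/

set_option autoImplicit false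

open NumberField IsDedekindDomain Finset
open scoped nonZeroDivisors Pointwise

namespace Pool.Agent.PTK

open Pool.Agent.Lib_helper18 Pool.Agent.Lib_helper18.Eis Pool.Agent.Lib_helper84.Cub
open Pool.Agent.PT Pool.Agent.PTE Pool.Agent.PT3 Pool.Agent.PTL Pool.Agent.PTN

namespace TLE

/-- exchange of the base and the norm -/
theorem swap {b x p q p' q' : Eis} (h : SolE b x p q p' q') : SolWE x b p (-p') (-q) q' where
  eq := by
    have := h.eq
    linear_combination this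
  n1 := by
    intro h0
    exact h.n2 (by linear_combination h0)

theorem w_ne : w ≠ 0 := by decide

theorem GfE_swap (p q p' q' : Eis) (i : ℕ) : GfE p (-p') (-q) q' i = GfE p q p' q' i := by
  unfold GfE
  ring

/-- the sum of the two pairings is the contribution of `lam` -/
theorem key (hLAE : Stmt_LAE) (hLFE : Stmt_LFE) {B b x p q p' q' : Eis} (hB : BGE B)
    (hb : AGE B b) (hx : AGE B x) (hS : SolE b x p q p' q') :
    OZE B b x p q p' q' + OZE B x b p (-p') (-q) q' =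
      LTE B b x p q p' q' + LTE B x b p (-p') (-q) q' - UVE sl B b x p q p' q' := by
  have f1 := hLFE.1 B b x p q p' q' hB hb hx hS.toSolWE
  have f2 := hLFE.1 B x b p (-p') (-q) q' hB hx hb (swap hS)
  obtain ⟨-, e3⟩ := hLFE.2 B b x p q p' q' hB.ne hb.ne hx.ne hS
  have h1 : ∑ᶠ π : PP, TTE π B b x p q p' q' + ∑ᶠ π : PP, TTE π B x b p (-p') (-q) q' =
      ∑ᶠ π : PP, UVE (tm π.1) B b x p q p' q' := by
    rw [← finsum_add_distrib f1 f2]
    exact finsum_congr fun π => hLAE π B b x p q p' q' hB hb hx hS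
  unfold OZE
  linear_combination h1 + e3

end TLE

/-- antisymmetry of the pairing -/
theorem TLE_thm (hAVE : Stmt_AVE) (hLAE : Stmt_LAE) (hLFE : Stmt_LFE) (hLMC : Stmt_LMC)
    (hIF1 : Stmt_IF1) (hLCI : Stmt_LCI) (hSSL : SSL) (hSLC : SLC) : Stmt_TLE := by
  intro B b x p q p' q' hB hb hx hMb hMx hS hc
  have hB0 := hB.ne
  have hb0 := hb.ne
  have hx0 := hx.ne
  have hw0 : w ≠ 0 := TLE.w_ne
  have hk := TLE.key hLAE hLFE hB hb hx hS
  rw [hk]
  have hmul : ∀ a c : Eis, a ≠ 0 → c ≠ 0 → sl w (a * c) = sl w a + sl w c := by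
    intro a c ha hc'
    rw [hSSL.2.1 (a * c) w (mul_ne_zero ha hc') hw0, hSSL.1 a c w ha hc' hw0,
      hSSL.2.1 a w ha hw0, hSSL.2.1 c w hc' hw0]
    ring
  have hz : ∀ a c : Eis, LCE lam a → a ≠ 0 → c ≠ 0 → sl a c = 0 := fun a c h1 h2 h3 =>
    hLCI.2.2 lam sl 4 a c hSLC h1 h2 h3
  have hz' : ∀ a c : Eis, LCE lam a → a ≠ 0 → c ≠ 0 → sl c a = 0 := by
    intro a c h1 h2 h3
    rw [hSSL.2.1 a c h2 h3, hz a c h1 h2 h3, neg_zero]
  have hU : UVE sl (B : Eis) b x p q p' q' = sl B (GfE p q p' q' 1) - sl B (GfE p q p' q' 2) +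
      (sl w B + sl w x + sl w b) := by
    unfold UVE
    rw [hmul _ _ (mul_ne_zero hB0 hx0) hb0, hmul _ _ hB0 hx0]
  have hU' : UVE sl (B : Eis) x b p (-p') (-q) q' = UVE sl (B : Eis) b x p q p' q' := by
    unfold UVE
    rw [TLE.GfE_swap, TLE.GfE_swap, mul_right_comm]
  by_cases hbL : LCE lam b
  · by_cases hxL : LCE lam x
    · -- both are local cubes
      have e1 : LTE (B : Eis) b x p q p' q' = AVE none (B : Eis) b p q p' q' + sl w x := by
        unfold LTE
        rw [if_pos hbL]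
      have e2 : LTE (B : Eis) x b p (-p') (-q) q' =
          AVE none (B : Eis) x p (-p') (-q) q' + sl w b := by
        unfold LTE
        rw [if_pos hxL]
      have hBx : sl (B : Eis) x = 0 := hz' x B hxL hx0 hB0
      have hBb : sl (B : Eis) b = 0 := hz' b B hbL hb0 hB0
      obtain ⟨⟨N1, hN1⟩, -⟩ := hAVE none (B : Eis) b x p q p' q' hB0 hb0 hx0 hS.toSolWE hBx hbL
      obtain ⟨⟨N2, hN2⟩, -⟩ := hAVE none (B : Eis) x b p (-p') (-q) q' hB0 hx0 hb0 (TLE.swap hS)
        hBb hxL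
      obtain ⟨N3, hN3⟩ := hIF1 lam sl 4 hSLC b x p q p' q' hb0 hx0 hS
      obtain ⟨r, hr⟩ := hbL (max N1 N3)
      obtain ⟨ξ, hξ⟩ := hxL (max N2 N3)
      have h1 := hN1 r ((pow_dvd_pow _ (le_max_left N1 N3)).trans hr)
      have h2 := hN2 ξ ((pow_dvd_pow _ (le_max_left N2 N3)).trans hξ)
      have h3 := hN3 r ξ ((pow_dvd_pow _ (le_max_right N1 N3)).trans hr)
        ((pow_dvd_pow _ (le_max_right N2 N3)).trans hξ) B hB0
      rw [e1, e2, ← h1, ← h2, hU]
      have h4 : sy none = sl := rfl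
      rw [h4]
      linear_combination h3
    · -- `b` is a local cube
      have e1 : LTE (B : Eis) b x p q p' q' = AVE none (B : Eis) b p q p' q' + sl w x := by
        unfold LTE
        rw [if_pos hbL]
      have e2 : LTE (B : Eis) x b p (-p') (-q) q' = UVE sl (B : Eis) x b p (-p') (-q) q' -
          (AVE none (B : Eis) b p (-(-q)) (-(-p')) q' + sl w x) := by
        unfold LTE
        rw [if_neg hxL, if_pos hbL]
      rw [neg_neg, neg_neg, hU'] at e2
      rw [e1, e2]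
      ring
  · by_cases hxL : LCE lam x
    · -- `x` is a local cube
      have e1 : LTE (B : Eis) b x p q p' q' = UVE sl (B : Eis) b x p q p' q' -
          (AVE none (B : Eis) x p (-p') (-q) q' + sl w b) := by
        unfold LTE
        rw [if_neg hbL, if_pos hxL]
      have e2 : LTE (B : Eis) x b p (-p') (-q) q' =
          AVE none (B : Eis) x p (-p') (-q) q' + sl w b := by
        unfold LTE
        rw [if_pos hxL]
      rw [e1, e2]
      ring
    · -- `B` is a local cube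
      have hBL : LCE lam (B : Eis) := by
        rcases hc with h | h | h
        · exact absurd h hbL
        · exact absurd h hxL
        · exact h
      have e1 : LTE (B : Eis) b x p q p' q' = lfE b x := by
        unfold LTE
        rw [if_neg hbL, if_neg hxL]
      have e2 : LTE (B : Eis) x b p (-p') (-q) q' = lfE x b := by
        unfold LTE
        rw [if_neg hxL, if_neg hbL]
      rw [e1, e2, hU, hz _ _ hBL hB0 hS.g1, hz _ _ hBL hB0 hS.g2, hz' _ _ hBL hB0 hw0,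
        (hLMC b hb0 hMb).1, (hLMC x hx0 hMx).1]
      unfold lfE
      ring

end Pool.Agent.PTK

end
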