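import Mathlib
import Pool.Agent.PTWX.C47
import Pool.Agent.PTWX.C67

/-! Parts: PTN.ALLA, PTN.ALLQ, PTN.BDG, PTKX.MPZ, PTKX.ALV -/

namespace Pool.Agent.PTK.MPZ
end Pool.Agent.PTK.MPZ

section

/-!
# The law of the ranks of prime twists for every `n`: averages over all `A` (module ALLA)
-/

set_option autoImplicit false

open NumberField IsDedekindDomain Finset
open scoped nonZeroDivisors Pointwise

namespace Pool.Agent.PTN

open Pool.Agent.Lib_helper18 Pool.Agent.Lib_helper18.Eis Pool.Agent.Lib_helper84.Cub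
open Pool.Agent.PT Pool.Agent.PTE Pool.Agent.PT3 Pool.Agent.PTL

namespace ALLA

theorem tf_nn (P : Prop) : 0 ≤ tf P := by
  unfold tf
  split_ifs
  · exact zero_le_one
  · exact le_refl _

/-- the lower bound `0` -/
theorem below_zero (n : ℤ) (a : ℕ) (W : ℤ → Prop) (F : ℤ → ℝ) : BelowA n a W F 0 := by
  refine ⟨0, fun σ _ _ => ⟨∅, ?_⟩⟩
  rw [zero_mul, sub_zero]
  unfold SumA
  refine Finset.sum_nonneg fun e _ => ?_
  rw [Finset.sum_empty]

/-- sum of the lower bounds over the classes with a property -/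
theorem low (hSUMA : Stmt_SUMA) (n : ℤ) (a m : ℕ) (π : Fin m → PP) (F : ℤ → ℝ)
    (hF : ∀ A, 0 ≤ F A) (P : ZMod 3 × (Fin m → ZMod 3) → Prop) (d : ℝ) (hd : 0 ≤ d)
    (h : ∀ y, P y → BelowA n a (Kl π y.1 y.2) F (d / 3 ^ (m + 1)))
    (hcard : 2 ^ (m + 1) ≤ Nat.card {x : ZMod 3 × (Fin m → ZMod 3) // P x}) :
    BelowA n a (fun _ => True) F (d * (2 / 3) ^ (m + 1)) := by
  classical
  obtain ⟨-, h2, -, h4⟩ := hSUMA n a m π F
  have h5 := h2 (fun y => if P y then d / 3 ^ (m + 1) else 0) hF (fun y => by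
    by_cases hy : P y
    · simp only [if_pos hy]
      exact h y hy
    · simp only [if_neg hy]
      exact below_zero _ _ _ _)
  refine h4 _ _ _ ?_ h5
  have h6 : ∑ y : ZMod 3 × (Fin m → ZMod 3), (if P y then d / 3 ^ (m + 1) else 0) =
      (Nat.card {x : ZMod 3 × (Fin m → ZMod 3) // P x} : ℝ) * (d / 3 ^ (m + 1)) := by
    rw [← Finset.sum_filter, Finset.sum_const, nsmul_eq_mul, Nat.card_eq_fintype_card,
      Fintype.card_subtype]
  rw [h6]
  have h7 : ((2 : ℝ) ^ (m + 1)) ≤ Nat.card {x : ZMod 3 × (Fin m → ZMod 3) // P x} := by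
    exact_mod_cast hcard
  calc d * (2 / 3) ^ (m + 1) = (2 : ℝ) ^ (m + 1) * (d / 3 ^ (m + 1)) := by
        rw [div_pow]
        ring
    _ ≤ _ := mul_le_mul_of_nonneg_right h7 (by positivity)

/-- sum of the upper bounds over the classes -/
theorem up (hSUMA : Stmt_SUMA) (n : ℤ) (a m : ℕ) (π : Fin m → PP) (F : ℤ → ℝ)
    (V : ZMod 3 × (Fin m → ZMod 3) → ℕ) (x : ZMod 3 × (Fin m → ZMod 3) → ℝ) (d : ℝ) (hd : 0 ≤ d)
    (h : ∀ y, AboveA n a (Kl π y.1 y.2) F (x y / 3 ^ (m + 1))) (hx : ∀ y, x y ≤ d * 3 ^ V y)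
    (hs : ∑ y : ZMod 3 × (Fin m → ZMod 3), 3 ^ V y ≤ 5 ^ (m + 1)) :
    AboveA n a (fun _ => True) F (d * (5 / 3) ^ (m + 1)) := by
  obtain ⟨h1, -, h3, -⟩ := hSUMA n a m π F
  refine h3 _ _ _ ?_ (h1 _ h)
  have h6 : ∑ y : ZMod 3 × (Fin m → ZMod 3), (3 : ℝ) ^ V y ≤ 5 ^ (m + 1) := by exact_mod_cast hs
  have h3' : (0 : ℝ) < 3 ^ (m + 1) := by positivity
  calc ∑ y : ZMod 3 × (Fin m → ZMod 3), x y / 3 ^ (m + 1) ≤
        ∑ y : ZMod 3 × (Fin m → ZMod 3), d * 3 ^ V y / 3 ^ (m + 1) :=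
        Finset.sum_le_sum fun y _ => div_le_div_of_nonneg_right (hx y) h3'.le
    _ = d * (∑ y : ZMod 3 × (Fin m → ZMod 3), (3 : ℝ) ^ V y) / 3 ^ (m + 1) := by
        rw [Finset.mul_sum, Finset.sum_div]
    _ ≤ d * 5 ^ (m + 1) / 3 ^ (m + 1) :=
        div_le_div_of_nonneg_right (mul_le_mul_of_nonneg_left h6 hd) h3'.le
    _ = d * (5 / 3) ^ (m + 1) := by
        rw [div_pow]
        ring

end ALLA

theorem ALLA_thm (hCAB : Stmt_CAB) (hCBE : Stmt_CBE) (hLAW : Stmt_LAW) (hSUMA : Stmt_SUMA)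
    (hNDIM : Stmt_NDIM) (hNSUM : Stmt_NSUM) (hNZER : Stmt_NZER) : Stmt_ALLA := by
  classical
  intro h n m k π p e r f hN hh
  obtain ⟨-, -, hL3, hL4, hL5, hL6, hL7, hL8⟩ := hLAW
  have hmono : Monotone fun j : ℕ => (3 : ℝ) ^ j := fun i j hij =>
    pow_le_pow_right₀ (by norm_num) hij
  have hz : (0 : ℝ) ≤ (fun j : ℕ => (3 : ℝ) ^ j) 0 := by norm_num
  have hC := fun y : ZMod 3 × (Fin m → ZMod 3) =>
    hCAB h n m k π p e r f y.1 y.2 hN hh (fun j : ℕ => (3 : ℝ) ^ j) hmono hz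
  have hB := fun y : ZMod 3 × (Fin m → ZMod 3) => hCBE h n m k π p e r f y.1 y.2 hN hh
  have hS := hNSUM h n m k π p e r f hN
  have hZ := hNZER h n m k π p e r f hN
  -- the classes with `v = 0`
  have hdim : ∀ y : ZMod 3 × (Fin m → ZMod 3), (vN h n π p e r y.1 y.2 = 0 ∧
      ¬ (h = 0 ∧ wt ((n : ℤ) ^ 2) + y.1 = 0)) →
      vN h n π p e r y.1 y.2 = 0 ∧
        sN h n π p e r y.1 y.2 = k + if h = 1 then 1 else 0 := by
    rintro y ⟨h1, h2⟩
    have h3 := hNDIM h n m k π p e r y.1 y.2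
    refine ⟨h1, ?_⟩
    rw [h1] at h3
    have hact : actR h n y.1 ↔ h = 2 := by
      unfold actR
      constructor
      · rintro (h4 | h4)
        · exact h4
        · exact absurd h4 h2
      · exact fun h4 => Or.inl h4
    simp only [hact] at h3
    have hcase : h = 0 ∨ h = 1 ∨ h = 2 := by omega
    rcases hcase with rfl | rfl | rfl
    · simp at h3 ⊢
      omega
    · simp at h3 ⊢
      omega
    · simp at h3 ⊢
      omega
  have hsol : ∀ A : ℤ, A ≠ 0 → CubeRank.GenBy A (CubeRank.rr A) → CubeRank.rr A < 1 →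
      ¬ ∃ X Y : ℚ, X ^ 3 + Y ^ 3 = (A : ℚ) := by
    intro A hA h1 h2
    have h3 : CubeRank.rr A = 0 := by omega
    rw [h3] at h1
    exact DOM.no_sol hA h1
  have hone : ∀ A : ℤ, A ≠ 0 → CubeRank.GenBy A (CubeRank.rr A) → CubeRank.rr A < 2 →
      CubeRank.rr A ≤ 1 := by
    intro A _ _ h2
    omega
  -- the two kinds of lower bounds
  have key2 : ∀ (t : ℕ) (R : ℤ → Prop),
      (∀ A : ℤ, A ≠ 0 → CubeRank.GenBy A (CubeRank.rr A) → CubeRank.rr A < t → R A) →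
      ∀ d : ℝ, 0 ≤ d → d ≤ 1 - LI (k + if h = 1 then 1 else 0) t →
      BelowA ((3 ^ h * n : ℕ) : ℤ) 2 (fun _ => True) (fun A => tf (R A))
        (d * (2 / 3) ^ (m + 1)) := by
    intro t R hR d hd hdl
    refine ALLA.low hSUMA _ 2 m π _ (fun A => ALLA.tf_nn _) _ d hd (fun y hy => ?_) hZ
    obtain ⟨h1, h2⟩ := hdim y hy
    have h3 := (hB y t R hR).1
    rw [h1, h2, Nat.sub_zero] at h3
    exact (hSUMA _ 2 m π _).2.2.2 _ _ _ (div_le_div_of_nonneg_right hdl (by positivity)) h3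
  have key1 : ∀ (t : ℕ) (R : ℤ → Prop),
      (∀ A : ℤ, A ≠ 0 → CubeRank.GenBy A (CubeRank.rr A) → CubeRank.rr A < t → R A) →
      ∀ d : ℝ, 0 ≤ d → d ≤ 1 - LS (k + if h = 1 then 1 else 0) 0 t →
      BelowA ((3 ^ h * n : ℕ) : ℤ) 1 (fun _ => True) (fun A => tf (R A))
        (d * (2 / 3) ^ (m + 1)) := by
    intro t R hR d hd hdl
    refine ALLA.low hSUMA _ 1 m π _ (fun A => ALLA.tf_nn _) _ d hd (fun y hy => ?_) hZ
    obtain ⟨h1, h2⟩ := hdim y hy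
    have h3 := (hB y t R hR).2
    rw [h1, h2] at h3
    exact (hSUMA _ 1 m π _).2.2.2 _ _ _ (div_le_div_of_nonneg_right hdl (by positivity)) h3
  refine ⟨?_, ?_, fun hk => ⟨?_, ?_⟩, fun hk => ⟨?_, ?_⟩⟩
  · exact ALLA.up hSUMA _ 2 m π _ (fun y => vN h n π p e r y.1 y.2) _ 4 (by norm_num)
      (fun y => (hC y).1) (fun y => hL7 _ _) hS
  · exact ALLA.up hSUMA _ 1 m π _ (fun y => vN h n π p e r y.1 y.2) _ 7 (by norm_num)
      (fun y => (hC y).2) (fun y => hL8 _ _) hS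
  · refine key2 1 _ hsol _ (by norm_num) ?_
    have := hL3 _ hk
    linarith
  · refine key1 2 _ hone _ (by norm_num) ?_
    have := hL6 _ hk
    linarith
  · refine key2 2 _ hone _ (by norm_num) ?_
    have := hL4 _ hk
    linarith
  · refine key1 1 _ hsol _ (by norm_num) ?_
    have := hL5 _ hk
    linarith

end Pool.Agent.PTN

end

section

/-!
# The law of the ranks of prime twists for every `n`: averages over all `A`, sharper (module ALLQ)
-/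

set_option autoImplicit false

open NumberField IsDedekindDomain Finset
open scoped nonZeroDivisors Pointwise

namespace Pool.Agent.PTN

open Pool.Agent.Lib_helper18 Pool.Agent.Lib_helper18.Eis Pool.Agent.Lib_helper84.Cub
open Pool.Agent.PT Pool.Agent.PTE Pool.Agent.PT3 Pool.Agent.PTL

namespace ALLQ

/-- sum of the lower bounds over the classes with a property, `3 * 2 ^ m` classes -/
theorem low (hSUMA : Stmt_SUMA) (n : ℤ) (a m : ℕ) (π : Fin m → PP) (F : ℤ → ℝ)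
    (hF : ∀ A, 0 ≤ F A) (P : ZMod 3 × (Fin m → ZMod 3) → Prop) (d : ℝ) (hd : 0 ≤ d)
    (h : ∀ y, P y → BelowA n a (Kl π y.1 y.2) F (d / 3 ^ (m + 1)))
    (hcard : 3 * 2 ^ m ≤ Nat.card {x : ZMod 3 × (Fin m → ZMod 3) // P x}) :
    BelowA n a (fun _ => True) F (d * (2 / 3) ^ m) := by
  classical
  obtain ⟨-, h2, -, h4⟩ := hSUMA n a m π F
  have h5 := h2 (fun y => if P y then d / 3 ^ (m + 1) else 0) hF (fun y => by
    by_cases hy : P y
    · simp only [if_pos hy]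
      exact h y hy
    · simp only [if_neg hy]
      exact ALLA.below_zero _ _ _ _)
  refine h4 _ _ _ ?_ h5
  have h6 : ∑ y : ZMod 3 × (Fin m → ZMod 3), (if P y then d / 3 ^ (m + 1) else 0) =
      (Nat.card {x : ZMod 3 × (Fin m → ZMod 3) // P x} : ℝ) * (d / 3 ^ (m + 1)) := by
    rw [← Finset.sum_filter, Finset.sum_const, nsmul_eq_mul, Nat.card_eq_fintype_card,
      Fintype.card_subtype]
  rw [h6]
  have h7 : ((3 : ℝ) * 2 ^ m) ≤ Nat.card {x : ZMod 3 × (Fin m → ZMod 3) // P x} := by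
    exact_mod_cast hcard
  have h3' : (3 : ℝ) ^ m ≠ 0 := by positivity
  calc d * (2 / 3) ^ m = ((3 : ℝ) * 2 ^ m) * (d / 3 ^ (m + 1)) := by
        rw [div_pow, pow_succ]
        field_simp
    _ ≤ _ := mul_le_mul_of_nonneg_right h7 (by positivity)

/-- sum of the upper bounds over the classes, sum at most `3 * 5 ^ m` -/
theorem up (hSUMA : Stmt_SUMA) (n : ℤ) (a m : ℕ) (π : Fin m → PP) (F : ℤ → ℝ)
    (V : ZMod 3 × (Fin m → ZMod 3) → ℕ) (x : ZMod 3 × (Fin m → ZMod 3) → ℝ) (d : ℝ) (hd : 0 ≤ d)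
    (h : ∀ y, AboveA n a (Kl π y.1 y.2) F (x y / 3 ^ (m + 1))) (hx : ∀ y, x y ≤ d * 3 ^ V y)
    (hs : ∑ y : ZMod 3 × (Fin m → ZMod 3), 3 ^ V y ≤ 3 * 5 ^ m) :
    AboveA n a (fun _ => True) F (d * (5 / 3) ^ m) := by
  obtain ⟨h1, -, h3, -⟩ := hSUMA n a m π F
  refine h3 _ _ _ ?_ (h1 _ h)
  have h6 : ∑ y : ZMod 3 × (Fin m → ZMod 3), (3 : ℝ) ^ V y ≤ 3 * 5 ^ m := by exact_mod_cast hs
  have h3' : (0 : ℝ) < 3 ^ (m + 1) := by positivity
  have h3'' : (3 : ℝ) ^ m ≠ 0 := by positivity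
  calc ∑ y : ZMod 3 × (Fin m → ZMod 3), x y / 3 ^ (m + 1) ≤
        ∑ y : ZMod 3 × (Fin m → ZMod 3), d * 3 ^ V y / 3 ^ (m + 1) :=
        Finset.sum_le_sum fun y _ => div_le_div_of_nonneg_right (hx y) h3'.le
    _ = d * (∑ y : ZMod 3 × (Fin m → ZMod 3), (3 : ℝ) ^ V y) / 3 ^ (m + 1) := by
        rw [Finset.mul_sum, Finset.sum_div]
    _ ≤ d * (3 * 5 ^ m) / 3 ^ (m + 1) :=
        div_le_div_of_nonneg_right (mul_le_mul_of_nonneg_left h6 hd) h3'.le
    _ = d * (5 / 3) ^ m := by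
        rw [div_pow, pow_succ]
        field_simp

end ALLQ

theorem ALLQ_thm (hCAB : Stmt_CAB) (hCBE : Stmt_CBE) (hLAW : Stmt_LAW) (hSUMA : Stmt_SUMA)
    (hNDIM : Stmt_NDIM) (hNSUM : Stmt_NSUM) (hNZER : Stmt_NZER) (hNSU1 : Stmt_NSU1)
    (hNZE1 : Stmt_NZE1) : Stmt_ALLQ := by
  classical
  intro h n m k π p e r f hN hh μ hμ
  by_cases h1' : h = 1
  swap
  · rw [if_neg h1'] at hμ
    subst hμ
    exact ALLA_thm hCAB hCBE hLAW hSUMA hNDIM hNSUM hNZER h n m k π p e r f hN hh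
  subst h1'
  rw [if_pos rfl, add_zero] at hμ
  subst hμ
  simp only [if_true]
  obtain ⟨-, -, hL3, hL4, hL5, hL6, hL7, hL8⟩ := hLAW
  have hmono : Monotone fun j : ℕ => (3 : ℝ) ^ j := fun i j hij =>
    pow_le_pow_right₀ (by norm_num) hij
  have hz : (0 : ℝ) ≤ (fun j : ℕ => (3 : ℝ) ^ j) 0 := by norm_num
  have hC := fun y : ZMod 3 × (Fin μ → ZMod 3) =>
    hCAB 1 n μ k π p e r f y.1 y.2 hN hh (fun j : ℕ => (3 : ℝ) ^ j) hmono hz
  have hB := fun y : ZMod 3 × (Fin μ → ZMod 3) => hCBE 1 n μ k π p e r f y.1 y.2 hN hh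
  have hS := hNSU1 n μ k π p e r f hN
  have hZ := hNZE1 n μ k π p e r f hN
  -- the classes with `v = 0`
  have hdim : ∀ y : ZMod 3 × (Fin μ → ZMod 3), vN 1 n π p e r y.1 y.2 = 0 →
      vN 1 n π p e r y.1 y.2 = 0 ∧ sN 1 n π p e r y.1 y.2 = k + 1 := by
    rintro y h1
    have h3 := hNDIM 1 n μ k π p e r y.1 y.2
    refine ⟨h1, ?_⟩
    rw [h1] at h3
    have hact : ¬ actR 1 n y.1 := by
      unfold actR
      rintro (h4 | h4)
      · omega
      · omega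
    simp [hact] at h3 ⊢
    omega
  have hsol : ∀ A : ℤ, A ≠ 0 → CubeRank.GenBy A (CubeRank.rr A) → CubeRank.rr A < 1 →
      ¬ ∃ X Y : ℚ, X ^ 3 + Y ^ 3 = (A : ℚ) := by
    intro A hA h1 h2
    have h3 : CubeRank.rr A = 0 := by omega
    rw [h3] at h1
    exact DOM.no_sol hA h1
  have hone : ∀ A : ℤ, A ≠ 0 → CubeRank.GenBy A (CubeRank.rr A) → CubeRank.rr A < 2 →
      CubeRank.rr A ≤ 1 := by
    intro A _ _ h2
    omega
  -- the two kinds of lower bounds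
  have key2 : ∀ (t : ℕ) (R : ℤ → Prop),
      (∀ A : ℤ, A ≠ 0 → CubeRank.GenBy A (CubeRank.rr A) → CubeRank.rr A < t → R A) →
      ∀ d : ℝ, 0 ≤ d → d ≤ 1 - LI (k + 1) t →
      BelowA ((3 ^ 1 * n : ℕ) : ℤ) 2 (fun _ => True) (fun A => tf (R A))
        (d * (2 / 3) ^ μ) := by
    intro t R hR d hd hdl
    refine ALLQ.low hSUMA _ 2 μ π _ (fun A => ALLA.tf_nn _) _ d hd (fun y hy => ?_) hZ
    obtain ⟨h1, h2⟩ := hdim y hy
    have h3 := (hB y t R hR).1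
    rw [h1, h2, Nat.sub_zero] at h3
    exact (hSUMA _ 2 μ π _).2.2.2 _ _ _ (div_le_div_of_nonneg_right hdl (by positivity)) h3
  have key1 : ∀ (t : ℕ) (R : ℤ → Prop),
      (∀ A : ℤ, A ≠ 0 → CubeRank.GenBy A (CubeRank.rr A) → CubeRank.rr A < t → R A) →
      ∀ d : ℝ, 0 ≤ d → d ≤ 1 - LS (k + 1) 0 t →
      BelowA ((3 ^ 1 * n : ℕ) : ℤ) 1 (fun _ => True) (fun A => tf (R A))
        (d * (2 / 3) ^ μ) := by
    intro t R hR d hd hdl
    refine ALLQ.low hSUMA _ 1 μ π _ (fun A => ALLA.tf_nn _) _ d hd (fun y hy => ?_) hZ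
    obtain ⟨h1, h2⟩ := hdim y hy
    have h3 := (hB y t R hR).2
    rw [h1, h2] at h3
    exact (hSUMA _ 1 μ π _).2.2.2 _ _ _ (div_le_div_of_nonneg_right hdl (by positivity)) h3
  refine ⟨?_, ?_, fun hk => ⟨?_, ?_⟩, fun hk => ⟨?_, ?_⟩⟩
  · exact ALLQ.up hSUMA _ 2 μ π _ (fun y => vN 1 n π p e r y.1 y.2) _ 4 (by norm_num)
      (fun y => (hC y).1) (fun y => hL7 _ _) hS
  · exact ALLQ.up hSUMA _ 1 μ π _ (fun y => vN 1 n π p e r y.1 y.2) _ 7 (by norm_num)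
      (fun y => (hC y).2) (fun y => hL8 _ _) hS
  · refine key2 1 _ hsol _ (by norm_num) ?_
    have := hL3 _ hk
    linarith
  · refine key1 2 _ hone _ (by norm_num) ?_
    have := hL6 _ hk
    linarith
  · refine key2 2 _ hone _ (by norm_num) ?_
    have := hL4 _ hk
    linarith
  · refine key1 1 _ hsol _ (by norm_num) ?_
    have := hL5 _ hk
    linarith

end Pool.Agent.PTN

end

section

/-!
# The law of the ranks of prime twists for every `n`: densities (module BDG)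
-/

set_option autoImplicit false

open NumberField IsDedekindDomain Finset
open scoped nonZeroDivisors Pointwise

namespace Pool.Agent.PTN

open Pool.Agent.Lib_helper18 Pool.Agent.Lib_helper18.Eis Pool.Agent.Lib_helper84.Cub
open Pool.Agent.PT Pool.Agent.PTE Pool.Agent.PT3 Pool.Agent.PTL
open Pool.Agent.PT.BDENS Pool.Agent.PTL.BD

theorem BDG_thm (hGALG : GALG) (hEQD : EQD) (hDIR : DIR) : Stmt_BDG := by
  classical
  intro s b p q p' q' f m t κ c C Φ hSys hf h9 hκ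
  obtain ⟨L, iF, iN, iG, χ, tt, N₀, hχ, hconj, hpow, heq, hfrob⟩ :=
    hGALG s b p q p' q' f hSys hf h9
  have h3 : 3 ∣ f := Dvd.dvd.trans (by norm_num) h9
  have hM : ∀ (Q : ℕ) (hQ : Q.Coprime f), M2 (ZMod.unitOfCoprime Q hQ) ↔ Q % 3 = 2 := by
    intro Q hQ
    unfold M2
    rw [ZMod.coe_unitOfCoprime, ZMod.val_natCast, Nat.mod_mod_of_dvd _ h3]
  have hP : ∀ n : ℕ, n.Prime → ∀ hQ : n.Coprime f, n ∈ SP b p q p' q' t κ c C Φ →
      ∀ g : L ≃ₐ[ℚ] L, χ g = ZMod.unitOfCoprime n hQ →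
      (∀ j i, j ≠ i → ∀ r : ℤ, (n : ℤ) ∣ r ^ 3 - b j →
        tt g j i = TAUV n (p j i) (q j i) (p' j i) (q' j i) r) → XP χ κ c C Φ t tt g := by
    intro n hn hQ hnS g hg htg
    obtain ⟨hQ', h1, h2, h4⟩ := hnS
    refine ⟨?_, ?_, ?_⟩
    · rw [hg]
      exact (hM n hQ).2 h1
    · rw [hg]
      exact h2
    · rw [hg]
      exact h4 (tt g) htg
  have hN : ∀ n : ℕ, n.Prime → ∀ hQ : n.Coprime f, n ∈ SM b p q p' q' t κ c C Φ →
      ∀ g : L ≃ₐ[ℚ] L, χ g = ZMod.unitOfCoprime n hQ →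
      (∀ j i, j ≠ i → ∀ r : ℤ, (n : ℤ) ∣ r ^ 3 - b j →
        tt g j i = TAUV n (p j i) (q j i) (p' j i) (q' j i) r) → XM χ κ c C Φ t tt g := by
    intro n hn hQ hnS g hg htg
    obtain ⟨hQ', h1, h2, h4⟩ := hnS
    refine ⟨?_, ?_, ?_⟩
    · rw [hg]
      exact (hM n hQ).2 h1
    · rw [hg]
      exact h2
    · rw [hg]
      exact h4 (tt g) htg
  obtain ⟨K1, hK1⟩ := dens hDIR hf h3 κ c L χ tt N₀ hχ hconj hpow hfrob
    (fun g => XP χ κ c C Φ t tt g ∨ XM χ κ c C Φ t tt g)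
    (inv_or χ κ c C Φ t tt hf h3) (SP b p q p' q' t κ c C Φ ∪ SM b p q p' q' t κ c C Φ)
    (by
      rintro n hn hQ (⟨hQ', h1, h2, -⟩ | ⟨hQ', h1, h2, -⟩)
      · exact ⟨h1, Or.inl h2⟩
      · exact ⟨h1, Or.inr h2⟩)
    (by
      rintro n hn hQ (h | h) g hg htg
      · exact Or.inl (hP n hn hQ h g hg htg)
      · exact Or.inr (hN n hn hQ h g hg htg))
  obtain ⟨K2, hK2⟩ := dens hDIR hf h3 κ c L χ tt N₀ hχ hconj hpow hfrob
    (fun g => XP χ κ c C Φ t tt g ∧ XM χ κ c C Φ t tt g)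
    (inv_and χ κ c C Φ t tt hf h3) (SP b p q p' q' t κ c C Φ ∩ SM b p q p' q' t κ c C Φ)
    (by
      rintro n hn hQ ⟨⟨hQ', h1, h2, -⟩, -⟩
      exact ⟨h1, Or.inl h2⟩)
    (by
      rintro n hn hQ ⟨h, h'⟩ g hg htg
      exact ⟨hP n hn hQ h g hg htg, hN n hn hQ h' g hg htg⟩)
  obtain ⟨hX1, hX2⟩ := card_X χ κ c C Φ t tt hEQD hf hχ heq hκ
  have hincl := card_incl (fun g => XP χ κ c C Φ t tt g) (fun g => XM χ κ c C Φ t tt g)
  refine ⟨K1 + K2, fun σ h1 h2 => ?_⟩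
  have e1 := hK1 σ h1 h2
  have e2 := hK2 σ h1 h2
  have hlog : 0 ≤ Real.log (1 / (σ - 1)) := by
    apply Real.log_nonneg
    rw [le_div_iff₀ (by linarith)]
    linarith
  rw [sm_union_inter _ _ h1]
  have hG : 0 < Nat.card (L ≃ₐ[ℚ] L) := Nat.card_pos
  have hA : 0 < Nat.card (Fin s → Fin s → ZMod 3) := Nat.card_pos
  have hcnt : (Nat.card {g : L ≃ₐ[ℚ] L // XP χ κ c C Φ t tt g ∨ XM χ κ c C Φ t tt g} : ℝ) /
      Nat.card (L ≃ₐ[ℚ] L) +
      (Nat.card {g : L ≃ₐ[ℚ] L // XP χ κ c C Φ t tt g ∧ XM χ κ c C Φ t tt g} : ℝ) /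
      Nat.card (L ≃ₐ[ℚ] L) ≤
      (NK s t : ℝ) / Nat.card (Fin s → Fin s → ZMod 3) / 3 ^ (m + 1) := by
    generalize Nat.card {g : L ≃ₐ[ℚ] L // XP χ κ c C Φ t tt g ∨ XM χ κ c C Φ t tt g} = n1 at *
    generalize Nat.card {g : L ≃ₐ[ℚ] L // XP χ κ c C Φ t tt g ∧ XM χ κ c C Φ t tt g} = n2 at *
    generalize Nat.card {g : L ≃ₐ[ℚ] L // XP χ κ c C Φ t tt g} = x1 at *
    generalize Nat.card {g : L ≃ₐ[ℚ] L // XM χ κ c C Φ t tt g} = x2 at *
    generalize Nat.card (Fin s → Fin s → ZMod 3) = A at *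
    generalize Nat.card (L ≃ₐ[ℚ] L) = g0 at *
    have hG' : (0 : ℝ) < g0 := Nat.cast_pos.2 hG
    have hA' : (0 : ℝ) < A := Nat.cast_pos.2 hA
    have hF : (0 : ℝ) < 3 ^ (m + 1) := by positivity
    have i1 : (A : ℝ) * x1 * (2 * 3 ^ (m + 1)) ≤ NK s t * g0 := by exact_mod_cast hX1
    have i2 : (A : ℝ) * x2 * (2 * 3 ^ (m + 1)) ≤ NK s t * g0 := by exact_mod_cast hX2
    have i3 : (n1 : ℝ) + n2 = x1 + x2 := by exact_mod_cast hincl
    rw [← add_div, i3, div_div, div_le_div_iff₀ hG' (by positivity)]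
    nlinarith
  have hmul := mul_le_mul_of_nonneg_right hcnt hlog
  rw [add_mul] at hmul
  linarith

end Pool.Agent.PTN

end

section

/-!
# PTK: the primes with large corank, `q = 1 (mod 3)`, all the classes cubes
-/

set_option autoImplicit false

open NumberField IsDedekindDomain Finset
open scoped nonZeroDivisors Pointwise

namespace Pool.Agent.PTK

open Pool.Agent.Lib_helper18 Pool.Agent.Lib_helper18.Eis Pool.Agent.Lib_helper84.Cub
open Pool.Agent.PT Pool.Agent.PTE Pool.Agent.PT3 Pool.Agent.PTL Pool.Agent.PTN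

namespace MPZ

theorem BB_eq (h n E q : ℕ) : BB h n E q = ((3 ^ h * n : ℕ) : ℤ) * (q : ℤ) ^ E := by
  unfold BB
  push_cast
  rfl

theorem cons_eq {m : ℕ} {x y : Fin (m + 1) → ZMod 3} (h0 : x 0 = y 0)
    (h1 : ∀ i : Fin m, x i.succ = y i.succ) : x = y := by
  funext i
  exact Fin.cases h0 h1 i

theorem neg_of_two {x y : ZMod 3} (h : 2 * x = y) : x = -y := by
  revert x y
  decide

end MPZ

open _root_.Pool.Agent.PTK.MPZ in
/-- PTK_MPZ: the primes with large corank are in `SPF`, `SMF`, `q = 1 (mod 3)`. -/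
theorem MPZ_thm (hDCOU : DCOU) (hTENT : TENT) (hNADU : Stmt_NADU) (hSPLT : SPLT) :
    Stmt_MPZ := by
  intro h n m k π p e r f w0 c s τ b X Y P Q P' Q' hNF hh hPl
  have hSys := hPl.sys
  have hSw := hPl.sw
  have hAdN := hPl.adm
  have hn : 0 < n := FINAS.pos_of_nf hNF
  have hN0 : 0 < 3 ^ h * n := Nat.mul_pos (pow_pos (by norm_num) _) hn
  have hb : ∀ i, b i ≠ 0 := fun i => (hAdN i).1.ne
  have hD : ∀ j i : Fin s, ∃ f₀ : ℕ, 0 < f₀ ∧ ∀ F : ℕ, 0 < F → f₀ ∣ F →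
      ∃ (C : ZMod 3) (Φ : (ZMod F)ˣ →* Multiplicative (ZMod 3)) (N₀ : ℕ), j ≠ i →
        ∀ (E q : ℕ) (hQ : q.Coprime F) (ρ : PP), (E = 1 ∨ E = 2) → q.Prime → N₀ < q →
          q % 3 = 1 → (q : Eis) = ρ.1 * conj ρ.1 →
          AG (BB h n E q) (b j) → AG (BB h n E q) (b i) →
          ∀ t : ℤ, (q : ℤ) ∣ t ^ 3 - b j →
          OT (BB h n E q) (b j) (X j) (Y j) (b i) (P j i) (Q j i)
            (P' j i) (Q' j i) = C + E * ((Φ (ZMod.unitOfCoprime q hQ)).toAdd +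
              TAUVS ρ.1 (P j i) (Q j i) (P' j i) (Q' j i) t) := by
    intro j i
    by_cases hji : j = i
    · exact ⟨1, one_pos, fun F _ _ => ⟨0, 1, 0, fun h => absurd hji h⟩⟩
    · obtain ⟨f₀, hf₀, hf⟩ := hDCOU (3 ^ h * n) (b j) (X j) (Y j) (b i)
        (P j i) (Q j i) (P' j i) (Q' j i) hN0
        (hSys.sol j i hji) (hb _) (hb _)
      refine ⟨f₀, hf₀, fun F hF hd => ?_⟩
      obtain ⟨C, Φ, N₀, h'⟩ := hf F hF hd
      refine ⟨C, Φ, N₀, fun _ E q hQ ρ hE hqp hqN hq3 hqρ hAj hAi t ht => ?_⟩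
      rw [BB_eq] at hAj hAi ⊢
      exact h' E q hQ ρ hE hqp hqN hq3 hqρ hAj hAi t ht
  choose f₀ hf₀ hD1 using hD
  refine ⟨∏ j, ∏ i, f₀ j i, Finset.prod_pos fun j _ => Finset.prod_pos fun i _ => hf₀ j i,
    fun F hF hdF κ hκ => ?_⟩
  have hfF : ∀ j i, f₀ j i ∣ F := fun j i =>
    ((Finset.dvd_prod_of_mem (fun i => f₀ j i) (mem_univ i)).trans
      (Finset.dvd_prod_of_mem (fun j => ∏ i, f₀ j i) (mem_univ j))).trans hdF
  choose C Φ N₀ hD2 using fun j i => hD1 j i F hF (hfF j i)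
  have hN : ∀ j i, N₀ j i ≤ ∑ j, ∑ i, N₀ j i := by
    intro j i
    exact (Finset.single_le_sum (f := fun i => N₀ j i) (fun i _ => Nat.zero_le _)
      (mem_univ i)).trans (Finset.single_le_sum (f := fun j => ∑ i, N₀ j i)
        (fun j _ => Nat.zero_le _) (mem_univ j))
  obtain ⟨M, hM⟩ : ∃ M, M = n + F + 3 + ∑ j, ∑ i, N₀ j i := ⟨_, rfl⟩
  -- the matrix
  have hmat : ∀ (E q t : ℕ), (E = 1 ∨ E = 2) → q.Prime → M < q → q % 3 = 1 → q ∈ ZP b →
      InCT E π w0 c q → t ≤ kS h n b X Y P Q P' Q' E q →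
      ∃ (hQ : q.Coprime F) (ρ : PP), (q : Eis) = ρ.1 * conj ρ.1 ∧
        (∀ j : Fin s, sym ρ.1 (b j : Eis) = 0) ∧
        ∀ τ' : Fin s → Fin s → ZMod 3,
        (∀ j i, j ≠ i → ∀ r : ℤ, (q : ℤ) ∣ r ^ 3 - b j →
          τ' j i = TAUVS ρ.1 (P j i) (Q j i) (P' j i) (Q' j i) r) →
        t ≤ s - (alt fun j i =>
          C j i + E * ((Φ j i (ZMod.unitOfCoprime q hQ)).toAdd + τ' j i)).rank := by
    intro E q t hE hq hqM hq3 hqP hIn htk
    obtain ⟨ρ, hqρ⟩ := hSPLT.1 q hq hq3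
    have hb0 : ∀ j : Fin s, sym ρ.1 (b j : Eis) = 0 := hqP ρ hqρ
    have hqn : ¬ q ∣ n := fun h => by
      have := Nat.le_of_dvd hn h
      omega
    have hQ : q.Coprime F := by
      rw [Nat.Prime.coprime_iff_not_dvd hq]
      intro h
      have := Nat.le_of_dvd hF h
      omega
    have h3q : 3 < q := by omega
    obtain ⟨hBG, hTy, hA⟩ := hNADU h n m k π p e r f w0 c E q ρ hNF hh hE hq hq3 hIn hqn hqρ
    have hAG : ∀ i : Fin s, AG (BB h n E q) (b i) := fun i =>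
      ((hA _ (hAdN i).1.supp).1 ⟨hAdN i, hb0 i⟩).1
    have hskew := (hTENT s τ b X Y _ _ _ _ _ hSys hSw hBG
      hAG (hPl.lam _ hTy) (fun i => hb _)).1
    refine ⟨hQ, ρ, hqρ, hb0, fun τ' hτ' => ?_⟩
    have hent : ∀ j i, j ≠ i →
        MaT b X Y P Q P' Q' (BB h n E q) j i =
        C j i + E * ((Φ j i (ZMod.unitOfCoprime q hQ)).toAdd + τ' j i) := by
      intro j i hji
      have hqb : ¬ (q : ℤ) ∣ b j := fun h => by
        rcases (hq.dvd_mul).1 ((hAdN j).1.supp q hq h) with h1 | h1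
        · have := Nat.le_of_dvd (by norm_num) h1
          omega
        · exact hqn h1
      obtain ⟨x, hx⟩ := (hSPLT.2 q ρ hq hq3 hqρ).2.2.2.2.2 _ hqb (hb0 j)
      unfold MaT
      rw [if_neg hji]
      refine (hD2 j i hji E q hQ ρ hE hq (by have := hN j i; omega) hq3 hqρ (hAG j) (hAG i) x
        hx).trans ?_
      rw [← hτ' j i hji x hx]
    have hMa : MaT b X Y P Q P' Q' (BB h n E q) = alt fun j i =>
        C j i + E * ((Φ j i (ZMod.unitOfCoprime q hQ)).toAdd + τ' j i) := by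
      ext j i
      rw [alt]
      rcases lt_trichotomy j i with h | h | h
      · rw [if_pos h, hent j i h.ne]
      · subst h
        rw [if_neg (lt_irrefl _), if_neg (lt_irrefl _), MaT, if_pos rfl]
      · rw [if_neg (not_lt.2 h.le), if_pos h, hskew j i, hent i j h.ne]
    rw [← hMa]
    exact htk
  refine ⟨C, FINAS.assemble Φ, M, fun q t hq hqM hq3 hqP => ⟨fun hIn htk => ?_,
    fun hIn htk => ?_⟩⟩
  · obtain ⟨hQ, ρ, hqρ, hb0, hm⟩ := hmat 1 q t (Or.inl rfl) hq hqM hq3 hqP hIn htk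
    obtain ⟨hw, hc⟩ := hIn
    refine ⟨hQ, ρ, ⟨hq3, ?_, hqρ, hb0⟩, fun τ' hτ' => ?_⟩
    · rw [hκ]
      refine cons_eq ?_ fun i => ?_
      · rw [Fin.cons_zero, Fin.cons_zero]
        rw [pow_one] at hw
        exact hw
      · rw [Fin.cons_succ, Fin.cons_succ, ← hc i, Nat.cast_one, one_mul]
    · have e1 : (fun j i => C j i + ((1 : ℕ) : ZMod 3) *
          ((Φ j i (ZMod.unitOfCoprime q hQ)).toAdd + τ' j i)) =
          C + (FINAS.assemble Φ (ZMod.unitOfCoprime q hQ)).toAdd + τ' := by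
        funext j i
        show C j i + ((1 : ℕ) : ZMod 3) * ((Φ j i (ZMod.unitOfCoprime q hQ)).toAdd + τ' j i) =
          C j i + (Φ j i (ZMod.unitOfCoprime q hQ)).toAdd + τ' j i
        rw [Nat.cast_one]
        ring
      rw [← e1]
      exact hm τ' hτ'
  · obtain ⟨hQ, ρ, hqρ, hb0, hm⟩ := hmat 2 q t (Or.inr rfl) hq hqM hq3 hqP hIn htk
    obtain ⟨hw, hc⟩ := hIn
    refine ⟨hQ, ρ, ⟨hq3, ?_, hqρ, hb0⟩, fun τ' hτ' => ?_⟩
    · rw [hκ]
      refine cons_eq ?_ fun i => ?_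
      · rw [Fin.cons_zero, Pi.neg_apply, Fin.cons_zero]
        have h3 : ¬ (3 : ℤ) ∣ (q : ℤ) := by omega
        have h4 := sq_mod_three h3
        have h5 : ((q : ℤ) ^ 2) ^ 2 = (q : ℤ) ^ 2 * (q : ℤ) ^ 2 := by ring
        rw [h5, wt_mul h4 h4] at hw
        exact neg_of_two (by rw [two_mul]; exact hw)
      · rw [Fin.cons_succ, Pi.neg_apply, Fin.cons_succ]
        exact neg_of_two (hc i)
    · have e1 : (fun j i => C j i + ((2 : ℕ) : ZMod 3) *
          ((Φ j i (ZMod.unitOfCoprime q hQ)).toAdd + τ' j i)) =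
          C - (FINAS.assemble Φ (ZMod.unitOfCoprime q hQ)).toAdd - τ' := by
        funext j i
        show C j i + ((2 : ℕ) : ZMod 3) * ((Φ j i (ZMod.unitOfCoprime q hQ)).toAdd + τ' j i) =
          C j i - (Φ j i (ZMod.unitOfCoprime q hQ)).toAdd - τ' j i
        rw [show ((2 : ℕ) : ZMod 3) = -1 from by decide]
        ring
      rw [← e1]
      exact hm τ' hτ'

end Pool.Agent.PTK

end

section

/-!
# PTK_ALV: the averages over all `A`, `q = 1 (mod 3)`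
-/

set_option autoImplicit false

open NumberField IsDedekindDomain Finset
open scoped nonZeroDivisors Pointwise

namespace Pool.Agent.PTK

open Pool.Agent.Lib_helper18 Pool.Agent.Lib_helper18.Eis Pool.Agent.Lib_helper84.Cub
open Pool.Agent.PT Pool.Agent.PTE Pool.Agent.PT3 Pool.Agent.PTL Pool.Agent.PTN

namespace ALV

theorem hsol : ∀ A : ℤ, A ≠ 0 → CubeRank.GenBy A (CubeRank.rr A) → CubeRank.rr A < 1 →
    ¬ ∃ X Y : ℚ, X ^ 3 + Y ^ 3 = (A : ℚ) := by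
  intro A hA h1 h2
  have h3 : CubeRank.rr A = 0 := by omega
  rw [h3] at h1
  exact DOM.no_sol hA h1

theorem hone : ∀ A : ℤ, A ≠ 0 → CubeRank.GenBy A (CubeRank.rr A) → CubeRank.rr A < 2 →
    CubeRank.rr A ≤ 1 := by
  intro A _ _ h2
  omega

end ALV

/-- PTK_ALV -/
theorem ALV_thm (hCAV : Stmt_CAV) (hCBV : Stmt_CBV) (hLAW : Stmt_LAW) (hSUMA : Stmt_SUMA)
    (hNDIM : Stmt_NDIM) (hNSUM : Stmt_NSUM) (hNZER : Stmt_NZER) (hNSU1 : Stmt_NSU1)
    (hNZE1 : Stmt_NZE1) : Stmt_ALV := by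
  classical
  intro h n m k π p e r f hN hh μ hμ
  obtain ⟨-, -, hL3, hL4, -, -, hL7, -⟩ := hLAW
  have hmono : Monotone fun j : ℕ => (3 : ℝ) ^ j := fun i j hij =>
    pow_le_pow_right₀ (by norm_num) hij
  have hz : (0 : ℝ) ≤ (fun j : ℕ => (3 : ℝ) ^ j) 0 := by norm_num
  have hC := fun y : ZMod 3 × (Fin m → ZMod 3) =>
    hCAV h n m k π p e r f y.1 y.2 hN hh (fun j : ℕ => (3 : ℝ) ^ j) hmono hz
  have hB := fun y : ZMod 3 × (Fin m → ZMod 3) => hCBV h n m k π p e r f y.1 y.2 hN hh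
  -- the classes with `v = 0`
  have hdim : ∀ y : ZMod 3 × (Fin m → ZMod 3), (vN h n π p e r y.1 y.2 = 0 ∧
      ¬ (h = 0 ∧ wt ((n : ℤ) ^ 2) + y.1 = 0)) →
      vN h n π p e r y.1 y.2 = 0 ∧
        sN h n π p e r y.1 y.2 = k + if h = 1 then 1 else 0 := by
    rintro y ⟨h1, h2⟩
    have h3 := hNDIM h n m k π p e r y.1 y.2
    refine ⟨h1, ?_⟩
    rw [h1] at h3
    have hact : actR h n y.1 ↔ h = 2 := by
      unfold actR
      constructor
      · rintro (h4 | h4)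
        · exact h4
        · exact absurd h4 h2
      · exact fun h4 => Or.inl h4
    simp only [hact] at h3
    have hcase : h = 0 ∨ h = 1 ∨ h = 2 := by omega
    rcases hcase with rfl | rfl | rfl
    · simp at h3 ⊢
      omega
    · simp at h3 ⊢
      omega
    · simp at h3 ⊢
      omega
  -- the lower bound in a class
  have low : ∀ (t : ℕ) (R : ℤ → Prop),
      (∀ A : ℤ, A ≠ 0 → CubeRank.GenBy A (CubeRank.rr A) → CubeRank.rr A < t → R A) →
      ∀ d : ℝ, d ≤ 1 - LI ((k + if h = 1 then 1 else 0) + 1) t →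
      ∀ y : ZMod 3 × (Fin m → ZMod 3), (vN h n π p e r y.1 y.2 = 0 ∧
        ¬ (h = 0 ∧ wt ((n : ℤ) ^ 2) + y.1 = 0)) →
      BelowA ((3 ^ h * n : ℕ) : ℤ) 1 (Kl π y.1 y.2) (fun A => tf (R A)) (d / 3 ^ (m + 1)) := by
    intro t R hR d hdl y hy
    obtain ⟨h1, h2⟩ := hdim y hy
    have h3 := hB y t R hR
    rw [h1, h2, Nat.sub_zero] at h3
    exact (hSUMA _ 1 m π _).2.2.2 _ _ _ (div_le_div_of_nonneg_right hdl (by positivity)) h3
  have key : ∀ (t : ℕ) (R : ℤ → Prop),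
      (∀ A : ℤ, A ≠ 0 → CubeRank.GenBy A (CubeRank.rr A) → CubeRank.rr A < t → R A) →
      ∀ d : ℝ, 0 ≤ d → d ≤ 1 - LI ((k + if h = 1 then 1 else 0) + 1) t →
      BelowA ((3 ^ h * n : ℕ) : ℤ) 1 (fun _ => True) (fun A => tf (R A))
        (d * (2 / 3) ^ μ) := by
    intro t R hR d hd hdl
    by_cases h1' : h = 1
    · have hμ1 : μ = m := by rw [hμ, if_pos h1', add_zero]
      rw [hμ1]
      have hZ : 3 * 2 ^ m ≤ Nat.card {x : ZMod 3 × (Fin m → ZMod 3) //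
          vN h n π p e r x.1 x.2 = 0} := by
        have h5 := hNZE1 n m k π p e r f hN
        rw [h1']
        exact h5
      exact ALLQ.low hSUMA _ 1 m π _ (fun A => ALLA.tf_nn _) _ d hd
        (fun y hy => low t R hR d hdl y ⟨hy, fun h6 => by omega⟩) hZ
    · have hμ1 : μ = m + 1 := by rw [hμ, if_neg h1']
      rw [hμ1]
      exact ALLA.low hSUMA _ 1 m π _ (fun A => ALLA.tf_nn _) _ d hd
        (fun y hy => low t R hR d hdl y hy) (hNZER h n m k π p e r f hN)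
  refine ⟨?_, fun hk => ?_, fun hk => ?_⟩
  · by_cases h1' : h = 1
    · have hμ1 : μ = m := by rw [hμ, if_pos h1', add_zero]
      rw [hμ1]
      have hS : ∑ x : ZMod 3 × (Fin m → ZMod 3), 3 ^ vN h n π p e r x.1 x.2 ≤ 3 * 5 ^ m := by
        have h5 := hNSU1 n m k π p e r f hN
        rw [h1']
        exact h5
      exact ALLQ.up hSUMA _ 1 m π _ (fun y => vN h n π p e r y.1 y.2) _ 4 (by norm_num)
        (fun y => hC y) (fun y => hL7 _ _) hS
    · have hμ1 : μ = m + 1 := by rw [hμ, if_neg h1']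
      rw [hμ1]
      exact ALLA.up hSUMA _ 1 m π _ (fun y => vN h n π p e r y.1 y.2) _ 4 (by norm_num)
        (fun y => hC y) (fun y => hL7 _ _) (hNSUM h n m k π p e r f hN)
  · refine key 2 _ ALV.hone _ (by norm_num) ?_
    have := hL4 _ hk.add_one
    linarith
  · refine key 1 _ ALV.hsol _ (by norm_num) ?_
    have := hL3 _ hk.add_one
    linarith

end Pool.Agent.PTK

end
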