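import Mathlib
import Pool.Agent.PTWX.C17
import Pool.Agent.PTWX.C34
import Pool.Agent.PTWX.C37
import Pool.Agent.PTWX.C44
import Pool.Agent.PTWX.C47
import Pool.Agent.PTWX.C57

/-! Parts: PTN.NBKN, PTN.NPSU, PTN.NBK0, PTKX.WSB, PTKX.WGR, PTKX.WGU, PTKX.DX1, PTKX.NBW, PTKX.PAT, PTKX.JZ, PTKX.MZF -/

namespace Pool.Agent.PTN.NBKN
end Pool.Agent.PTN.NBKN

namespace Pool.Agent.PTN.NPSU
end Pool.Agent.PTN.NPSU

namespace Pool.Agent.PTN.NBK0
end Pool.Agent.PTN.NBK0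

namespace Pool.Agent.PTK.WGU
end Pool.Agent.PTK.WGU

namespace Pool.Agent.PTK.DX1
end Pool.Agent.PTK.DX1

namespace Pool.Agent.PTK.JZ
end Pool.Agent.PTK.JZ

section

/-!
# NBKN: the bound for the rank, `q = 2 (mod 3)`
-/

set_option autoImplicit false

namespace Pool.Agent.PTN

open Pool.Agent.Lib_helper18 Pool.Agent.Lib_helper18.Eis Pool.Agent.Lib_helper84.Cub
open Pool.Agent.PT Pool.Agent.PTE Pool.Agent.PT3

namespace NBKN

/-! ### The class `1` -/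

theorem tm_one (hSPP : SPP) (π : PP) (x : Eis) : tm π.1 1 x = 0 := by
  have hπ : Prime π.1 := π.2.1
  have h1 : ¬ π.1 ∣ 1 := hπ.not_dvd_one
  have h2 := EADM.up_eq (k := 0) hπ h1 (by rw [pow_zero, one_mul] : (1 : Eis) = π.1 ^ 0 * 1)
  unfold tm ch
  rw [h2.1, h2.2, sym_one hπ (hSPP.2.2.2.1 π).1]
  simp

theorem sl_one (hSPP : SPP) (x : Eis) : sl 1 x = 0 := by
  unfold sl
  rw [finsum_eq_zero_of_forall_eq_zero (fun π : PP => tm_one hSPP π x), neg_zero]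

theorem selM_one (hSPP : SPP) (B : ℤ) : SelM B 1 where
  ne := one_ne_zero
  nrm := ⟨1, by simp⟩
  sym := fun π => tm_one hSPP π _
  unr := fun π _ => by
    rw [V_eq_zero π.2.1.not_dvd_one]
    exact dvd_zero 3
  lam := fun _ => ⟨sl_one hSPP 3, sl_one hSPP 4⟩

/-! ### The number `B` -/

section BBs

variable {h n m k E q : ℕ} {π : Fin m → PP} {p e : Fin m → ℕ} {r f : Fin k → ℕ}

theorem natAbs_BB (h n E q : ℕ) : (BB h n E q).natAbs = 3 ^ h * n * q ^ E := by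
  have e1 : BB h n E q = ((3 ^ h * n * q ^ E : ℕ) : ℤ) := by
    unfold BB
    push_cast
    ring
  rw [e1, Int.natAbs_natCast]

theorem cubeFree_BB (hN : NF n π p e r f) (hh : h ≤ 2) (hE : E = 1 ∨ E = 2) (hq : q.Prime)
    (hq3 : 3 < q) (hqn : ¬ q ∣ n) : CubeRank.CubeFree (BB h n E q) := by
  intro t ht hd
  have hl : t.natAbs.Prime := Int.prime_iff_natAbs_prime.1 ht
  have h1 : t.natAbs ^ 3 ∣ 3 ^ h * n * q ^ E := by
    have h2 := Int.natAbs_dvd_natAbs.2 hd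
    rw [Int.natAbs_pow, natAbs_BB] at h2
    exact h2
  have hn0 := EADM.n_ne hN
  have h30 : (3 : ℕ) ^ h ≠ 0 := pow_ne_zero _ (by norm_num)
  have hq0 : q ^ E ≠ 0 := pow_ne_zero _ hq.ne_zero
  have h3 : 3 ≤ (3 ^ h * n * q ^ E).factorization t.natAbs :=
    (hl.pow_dvd_iff_le_factorization (mul_ne_zero (mul_ne_zero h30 hn0) hq0)).1 h1
  rw [Nat.factorization_mul (mul_ne_zero h30 hn0) hq0, Nat.factorization_mul h30 hn0,
    Finsupp.add_apply, Finsupp.add_apply, Nat.prime_three.factorization_pow,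
    hq.factorization_pow, Finsupp.single_apply, Finsupp.single_apply] at h3
  have h4 := EADM.fac_le hN t.natAbs
  by_cases c3 : 3 = t.natAbs
  · have h5 : n.factorization t.natAbs = 0 := by
      rw [← c3]
      exact Nat.factorization_eq_zero_of_not_dvd (EADM.three_not hN)
    have h6 : ¬ q = t.natAbs := by omega
    rw [if_pos c3, if_neg h6, h5] at h3
    omega
  · rw [if_neg c3] at h3
    by_cases cq : q = t.natAbs
    · have h5 : n.factorization t.natAbs = 0 := by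
        rw [← cq]
        exact Nat.factorization_eq_zero_of_not_dvd hqn
      rw [if_pos cq, h5] at h3
      omega
    · rw [if_neg cq] at h3
      omega

theorem three_le_BB (hN : NF n π p e r f) (hE : E = 1 ∨ E = 2) (hq3 : 3 < q) :
    3 ≤ (BB h n E q).natAbs := by
  rw [natAbs_BB]
  have h1 : 0 < 3 ^ h * n := Nat.mul_pos (pow_pos (by norm_num) _)
    (Nat.pos_of_ne_zero (EADM.n_ne hN))
  have h2 : q ≤ q ^ E := Nat.le_self_pow (by omega) q
  calc 3 ≤ q ^ E := by omega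
    _ ≤ 3 ^ h * n * q ^ E := Nat.le_mul_of_pos_left _ h1

end BBs

/-! ### The classes in the plus part -/

theorem key (hA : Stmt_NADT) (hL : Stmt_NPLU) (hTENT : TENT) {h n m k : ℕ} {π : Fin m → PP}
    {p e : Fin m → ℕ} {r f : Fin k → ℕ} {w0 : ZMod 3} {c : Fin m → ZMod 3} {s : ℕ}
    {τ : Fin s → Fin 3} {b X Y : Fin s → ℤ} {P Q P' Q' : Fin s → Fin s → ℤ} {E q : ℕ}
    (hNF : NF n π p e r f) (hh : h ≤ 2) (hAdm : ∀ i, AdN h n π w0 c (b i))
    (hSys : SysG b P Q P' Q') (hSw : SwS P Q P' Q')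
    (hLam : ∀ B : ℤ, TyB h n w0 B → LamS B τ b X Y)
    (hgen : ∀ x : ℤ, AdN h n π w0 c x → ∃ (g : Fin s → ℕ) (u v : ℤ), u ≠ 0 ∧ v ≠ 0 ∧
      x * u ^ 3 = (∏ i, b i ^ g i) * v ^ 3)
    (hEE : E = 1 ∨ E = 2) (hq : q.Prime) (hq3 : 3 < q) (hq2 : q % 3 = 2)
    (hInC : InCT E π w0 c q) (hqn : ¬ q ∣ n) (z : ℤ) (hz : S2 (BB h n E q) z) :
    ∃ (g : Fin s → ℕ) (u y : ℤ) (j : ℕ), u ≠ 0 ∧ y ≠ 0 ∧
      (∏ i, b i ^ g i) * u ^ 3 = z * BB h n E q ^ j * y ^ 3 ∧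
      ∀ a, ∑ i, MaT b X Y P Q P' Q' (BB h n E q) a i * (g i : ZMod 3) = 0 := by
  obtain ⟨hBG, hTy, hE⟩ := hA h n m k π p e r f w0 c E q hNF hh hEE hq hq2 hInC hqn
  rcases hz with rfl | ⟨A, m', hA0, hsum, hprod, hcop, rfl⟩
  · refine ⟨0, 1, 1, 0, one_ne_zero, one_ne_zero, by simp, fun a => by simp⟩
  · obtain ⟨z', X1, Y1, u, v, j, hu, hv, hzz, hPt, hAG, hLoc, hsupp⟩ :=
      hL h n m k π p e r f E q A m' hNF hh hEE hq (by omega) hqn hA0 hsum hprod hcop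
    obtain ⟨g, u1, v1, hu1, hv1, hg⟩ := hgen z' ((hE z' hsupp).2 ⟨hAG, hLoc⟩)
    refine ⟨g, v1 * u, v * u1, j, mul_ne_zero hv1 hu, mul_ne_zero hv hu1, ?_, ?_⟩
    · generalize (∏ i, b i ^ g i) = W at *
      generalize BB h n E q ^ j = Bj at *
      linear_combination (-(u ^ 3)) * hg + u1 ^ 3 * hzz
    · by_cases hex : ∃ i, ¬ 3 ∣ g i
      · obtain ⟨c0, hc0, h1⟩ := hPt.eq
        have hPt' : Pt (BB h n E q) (∏ i, b i ^ g i) (u1 * v1 * X1) (v1 ^ 2 * Y1) := by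
          refine ⟨mul_ne_zero (mul_ne_zero hu1 hv1) hPt.hX, mul_ne_zero (pow_ne_zero 2 hv1) hPt.hY,
            c0 * u1 ^ 2, mul_ne_zero hc0 (pow_ne_zero 2 hu1), ?_⟩
          generalize (∏ i, b i ^ g i) = W at *
          have e1 : W * ((u1 * v1 * X1) ^ 3 + W * (v1 ^ 2 * Y1) ^ 3) =
              (W * v1 ^ 3) * (u1 ^ 3 * X1 ^ 3 + (W * v1 ^ 3) * Y1 ^ 3) := by ring
          rw [e1, ← hg]
          have e2 : z' * u1 ^ 3 * (u1 ^ 3 * X1 ^ 3 + z' * u1 ^ 3 * Y1 ^ 3) =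
              u1 ^ 6 * (z' * (X1 ^ 3 + z' * Y1 ^ 3)) := by ring
          rw [e2, h1]
          ring
        exact (hTENT s τ b X Y P Q P' Q' (BB h n E q) hSys hSw hBG
          (fun i => ((hE _ (hAdm i).1.supp).1 (hAdm i)).1) (hLam _ hTy)
          (fun i => (hAdm i).1.ne)).2 g _ _ hex hPt'
      · push Not at hex
        intro a
        refine Finset.sum_eq_zero (fun i _ => ?_)
        rw [(ZMod.natCast_eq_zero_iff (g i) 3).2 (hex i), mul_zero]

end NBKN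

open _root_.Pool.Agent.PTN.NBKN in
/-- NBKN: the bound for the rank, `q = 2 (mod 3)`. -/
theorem NBKN_thm (hK : Stmt_KID) (hP : Stmt_NPSI) (hI : Stmt_NKIN) (hA : Stmt_NADT)
    (hL : Stmt_NPLU) (hTENT : TENT) (hSPP : SPP) : Stmt_NBKN := by
  classical
  intro h n m k π p e r f w0 c s τ b X Y P Q P' Q' E q hNF hh hAdm hSys hSw hLam hgen hEE hq hq3
    hq2 hInC hqn
  obtain ⟨hBG, hTy, hE⟩ := hA h n m k π p e r f w0 c E q hNF hh hEE hq hq2 hInC hqn
  obtain ⟨W₁, hfin, Y₁, hW₁, hY₁⟩ := hP h n m k π p e r f w0 c E q hNF hh hEE hq hq2 hInC hqn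
  have H := key hA hL hTENT hNF hh hAdm hSys hSw hLam hgen hEE hq hq3 hq2 hInC hqn
  have hcf : CubeRank.CubeFree (BB h n E q) := cubeFree_BB hNF hh hEE hq hq3 hqn
  have h3B : 3 ≤ (BB h n E q).natAbs := three_le_BB hNF hEE hq3
  obtain ⟨B, hB⟩ : ∃ B : ℤ, B = BB h n E q := ⟨_, rfl⟩
  rw [← hB] at hBG hTy hE hY₁ H hcf h3B ⊢
  have hB0 : B ≠ 0 := hTy.1
  have habs : 3 ≤ |B| := by
    rw [Int.abs_eq_natAbs]
    exact_mod_cast h3B
  have hnc : ¬ ∃ t : ℤ, t ^ 3 = B := CubeRank.GenPf.not_cube hcf habs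
  have h27 : ¬ (27 : ℤ) ∣ B := by
    intro hd
    refine hcf 3 Int.prime_three ?_
    have e27 : (3 : ℤ) ^ 3 = 27 := by norm_num
    rw [e27]
    exact hd
  obtain ⟨M, hM⟩ : ∃ M : Matrix (Fin s) (Fin s) (ZMod 3), M = MaT b X Y P Q P' Q' B := ⟨_, rfl⟩
  rw [← hM] at H ⊢
  choose g u y j hu hy hz hker using H
  let Ψ₂ : ℤ → LinearMap.ker M.mulVecLin := fun z =>
    if hs : S2 B z then ⟨fun i => (g z hs i : ZMod 3), by
      rw [LinearMap.mem_ker]
      funext a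
      exact hker z hs a⟩ else 0
  have hsel : ∀ ζ : Eis, S1 B ζ → SelM B ζ := by
    rintro ζ (rfl | ⟨x1, y1, z1, hc1, hz1, he1, rfl⟩)
    · exact selM_one hSPP B
    · exact hI B x1 y1 z1 hB0 h27 hc1 hz1 he1
  have hidx := hK B hB0 hcf hnc W₁ (LinearMap.ker M.mulVecLin) Y₁ Ψ₂
    (fun ζ ζ' h1 h2 h12 => hY₁ ζ ζ' (hsel ζ h1) (hsel ζ' h2) h12)
    (by
      intro z z' h1 h2 h12
      have h3 : ∀ i, (g z h1 i : ZMod 3) = g z' h2 i := by
        intro i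
        have h4 := congrArg (fun x : LinearMap.ker M.mulVecLin => (x : Fin s → ZMod 3) i) h12
        simp only [Ψ₂, dif_pos h1, dif_pos h2] at h4
        exact h4
      obtain ⟨A1, A2, hA1, hA2, hAA⟩ := BKER.prod_cube b (fun i => (hAdm i).1.ne) (g z h1)
        (g z' h2) h3
      have e1 := hz z h1
      have e2 := hz z' h2
      have hu1 := hu z h1
      have hu2 := hu z' h2
      have hy1 := hy z h1
      have hy2 := hy z' h2
      generalize (∏ i, b i ^ g z h1 i) = P1 at *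
      generalize (∏ i, b i ^ g z' h2 i) = P2 at *
      generalize u z h1 = u1 at *
      generalize u z' h2 = u2 at *
      generalize y z h1 = y1 at *
      generalize y z' h2 = y2 at *
      generalize j z h1 = j1 at *
      generalize j z' h2 = j2 at *
      refine ⟨B ^ j1 * y1 * A1 * u2, y2 * A2 * u1, j2 + 2 * j1, ?_, ?_, ?_⟩
      · exact mul_ne_zero (mul_ne_zero (mul_ne_zero (pow_ne_zero _ hB0) hy1) hA1) hu2
      · exact mul_ne_zero (mul_ne_zero hy2 hA2) hu1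
      · have e3 : B ^ (j2 + 2 * j1) = B ^ j2 * (B ^ j1) ^ 2 := by
          rw [pow_add, mul_comm 2 j1, pow_mul]
        rw [e3]
        generalize B ^ j1 = C1 at *
        generalize B ^ j2 = C2 at *
        linear_combination (-(C1 ^ 2 * A1 ^ 3 * u2 ^ 3)) * e1 +
          (C1 ^ 2 * u1 ^ 3 * u2 ^ 3) * hAA + (C1 ^ 2 * A2 ^ 3 * u1 ^ 3) * e2)
  have hkr : Module.finrank (ZMod 3) (LinearMap.ker M.mulVecLin) = s - M.rank := by
    have h1 := LinearMap.finrank_range_add_finrank_ker M.mulVecLin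
    rw [Module.finrank_fintype_fun_eq_card, Fintype.card_fin] at h1
    have h2 : Module.finrank (ZMod 3) (LinearMap.range M.mulVecLin) = M.rank := rfl
    omega
  refine CubeRank.gen' B hcf h3B _ hidx.1 (hidx.2.trans ?_)
  rw [Module.natCard_eq_pow_finrank (K := ZMod 3) (V := LinearMap.ker M.mulVecLin),
    Nat.card_zmod, hkr, pow_add]
  exact Nat.mul_le_mul_right _ hW₁

end Pool.Agent.PTN

end

section

/-!
# NPSU: the minus part, `q = 1 (mod 3)`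
-/

set_option autoImplicit false

namespace Pool.Agent.PTN

open Pool.Agent.Lib_helper18 Pool.Agent.Lib_helper18.Eis Pool.Agent.Lib_helper84.Cub
open Pool.Agent.PT Pool.Agent.PTE Pool.Agent.PT3 Pool.Agent.PT.EHYP

namespace NPSU

/-! ### The space of the pairs -/

/-- the space of the pairs -/
def WS (h n : ℕ) {m k : ℕ} (π : Fin m → PP) (p e : Fin m → ℕ) (r : Fin k → ℕ)
    (w0 : ZMod 3) (c : Fin m → ZMod 3) (σ : Col m k → ZMod 3) :
    Submodule (ZMod 3) ((Fin (m + 1) → ZMod 3) × ZMod 3) where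
  carrier := {y | (¬ actR h n w0 → y.1 0 = 0) ∧ ∀ b : Col m k, (h = 0 → b ≠ Sum.inl 0) →
    Matrix.vecMul y.1 (Nm h n π p e r w0 c) b + y.2 * σ b = 0}
  add_mem' := by
    rintro u v ⟨h1, h2⟩ ⟨g1, g2⟩
    refine ⟨fun ha => ?_, fun b hb => ?_⟩
    · rw [Prod.fst_add, Pi.add_apply, h1 ha, g1 ha, add_zero]
    · rw [Prod.fst_add, Prod.snd_add, Matrix.add_vecMul, Pi.add_apply, add_mul]
      linear_combination h2 b hb + g2 b hb
  zero_mem' := by
    refine ⟨fun ha => rfl, fun b hb => ?_⟩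
    rw [Prod.fst_zero, Prod.snd_zero, Matrix.zero_vecMul, Pi.zero_apply, zero_mul, add_zero]
  smul_mem' := by
    rintro t u ⟨h1, h2⟩
    refine ⟨fun ha => ?_, fun b hb => ?_⟩
    · rw [Prod.smul_fst, Pi.smul_apply, h1 ha, smul_zero]
    · rw [Prod.smul_fst, Prod.smul_snd, Matrix.smul_vecMul, Pi.smul_apply, smul_eq_mul,
        smul_eq_mul]
      linear_combination t * h2 b hb

section

variable {h n m k : ℕ} {π : Fin m → PP} {p e : Fin m → ℕ} {r f : Fin k → ℕ} {w0 : ZMod 3}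
  {c : Fin m → ZMod 3}

theorem mem_WS {σ : Col m k → ZMod 3} {y : (Fin (m + 1) → ZMod 3) × ZMod 3} :
    y ∈ WS h n π p e r w0 c σ ↔ (¬ actR h n w0 → y.1 0 = 0) ∧
      ∀ b : Col m k, (h = 0 → b ≠ Sum.inl 0) →
        Matrix.vecMul y.1 (Nm h n π p e r w0 c) b + y.2 * σ b = 0 := Iff.rfl

theorem mem_VS {y : Fin (m + 1) → ZMod 3} :
    y ∈ VS h n π p e r w0 c ↔ (¬ actR h n w0 → y 0 = 0) ∧
      ∀ b : Col m k, (h = 0 → b ≠ Sum.inl 0) →
        Matrix.vecMul y (Nm h n π p e r w0 c) b = 0 := Iff.rfl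

theorem fst_mem {σ : Col m k → ZMod 3} {y : (Fin (m + 1) → ZMod 3) × ZMod 3}
    (hy : y ∈ WS h n π p e r w0 c σ) (h0 : y.2 = 0) : y.1 ∈ VS h n π p e r w0 c := by
  rw [mem_WS] at hy
  rw [mem_VS]
  refine ⟨hy.1, fun b hb => ?_⟩
  have h1 := hy.2 b hb
  rw [h0, zero_mul, add_zero] at h1
  exact h1

theorem fin_le0 (σ : Col m k → ZMod 3)
    (hT : ∀ y ∈ WS h n π p e r w0 c σ, y.2 = 0) :
    Module.finrank (ZMod 3) (WS h n π p e r w0 c σ) ≤ vN h n π p e r w0 c := by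
  let J : WS h n π p e r w0 c σ →ₗ[ZMod 3] VS h n π p e r w0 c :=
    LinearMap.codRestrict _ ((LinearMap.fst (ZMod 3) _ _).comp (WS h n π p e r w0 c σ).subtype)
      fun y => fst_mem y.2 (hT _ y.2)
  have hJ : Function.Injective J := by
    intro y y' hy
    have h1 : y.1.1 = y'.1.1 := congrArg Subtype.val hy
    apply Subtype.ext
    refine Prod.ext h1 ?_
    rw [hT _ y.2, hT _ y'.2]
  exact LinearMap.finrank_le_finrank_of_injective hJ

theorem fin_le1 (σ : Col m k → ZMod 3) :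
    Module.finrank (ZMod 3) (WS h n π p e r w0 c σ) ≤ vN h n π p e r w0 c + 1 := by
  let T : WS h n π p e r w0 c σ →ₗ[ZMod 3] ZMod 3 :=
    (LinearMap.snd (ZMod 3) _ _).comp (WS h n π p e r w0 c σ).subtype
  have h1 := LinearMap.finrank_range_add_finrank_ker T
  have h2 : Module.finrank (ZMod 3) (LinearMap.range T) ≤ 1 := by
    refine (Submodule.finrank_le _).trans ?_
    rw [Module.finrank_self]
  let J : LinearMap.ker T →ₗ[ZMod 3] VS h n π p e r w0 c :=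
    LinearMap.codRestrict _ (((LinearMap.fst (ZMod 3) _ _).comp
      (WS h n π p e r w0 c σ).subtype).comp (LinearMap.ker T).subtype)
      fun y => fst_mem y.1.2 (LinearMap.mem_ker.1 y.2)
  have hJ : Function.Injective J := by
    intro y y' hy
    have h3 : y.1.1.1 = y'.1.1.1 := congrArg Subtype.val hy
    apply Subtype.ext
    apply Subtype.ext
    refine Prod.ext h3 ?_
    have h4 : y.1.1.2 = 0 := LinearMap.mem_ker.1 y.2
    have h5 : y'.1.1.2 = 0 := LinearMap.mem_ker.1 y'.2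
    rw [h4, h5]
  have h3 : Module.finrank (ZMod 3) (LinearMap.ker T) ≤ vN h n π p e r w0 c :=
    LinearMap.finrank_le_finrank_of_injective hJ
  omega

/-- the pairing of an admissible class with the space of the pairs -/
theorem snd_zero {σ : Col m k → ZMod 3} {u : Col m k → ZMod 3}
    (hu : u ∈ US h n π p e r w0 c) (hs : ∑ b, u b * σ b ≠ 0) :
    ∀ y ∈ WS h n π p e r w0 c σ, y.2 = 0 := by
  intro y hy
  obtain ⟨hu1, hu2, hu3⟩ := hu
  rw [mem_WS] at hy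
  have h1 : ∑ b, u b * (Matrix.vecMul y.1 (Nm h n π p e r w0 c) b + y.2 * σ b) = 0 := by
    refine Finset.sum_eq_zero fun b _ => ?_
    by_cases hb : h = 0 ∧ b = Sum.inl 0
    · rw [hb.2, hu3 hb.1, zero_mul]
    · rw [hy.2 b fun h0 hb' => hb ⟨h0, hb'⟩, mul_zero]
  have h2 : ∑ b, u b * Matrix.vecMul y.1 (Nm h n π p e r w0 c) b = 0 := by
    have h3 : ∑ b, u b * Matrix.vecMul y.1 (Nm h n π p e r w0 c) b =
        dotProduct (Matrix.vecMul y.1 (Nm h n π p e r w0 c)) u := by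
      unfold dotProduct
      exact Finset.sum_congr rfl fun b _ => mul_comm _ _
    rw [h3, ← Matrix.dotProduct_mulVec]
    unfold dotProduct
    rw [Fin.sum_univ_succ]
    have h4 : y.1 0 * (Nm h n π p e r w0 c).mulVec u 0 = 0 := by
      by_cases ha : actR h n w0
      · rw [hu2 ha, mul_zero]
      · rw [hy.1 ha, zero_mul]
    rw [h4, zero_add]
    exact Finset.sum_eq_zero fun i _ => by rw [hu1 i, mul_zero]
  have h5 : y.2 * ∑ b, u b * σ b = 0 := by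
    rw [Finset.mul_sum]
    have h6 : ∑ b, u b * (Matrix.vecMul y.1 (Nm h n π p e r w0 c) b + y.2 * σ b) =
        ∑ b, u b * Matrix.vecMul y.1 (Nm h n π p e r w0 c) b + ∑ b, y.2 * (u b * σ b) := by
      rw [← Finset.sum_add_distrib]
      exact Finset.sum_congr rfl fun b _ => by ring
    rw [h6, h2, zero_add] at h1
    exact h1
  have hF3 : Fact (Nat.Prime 3) := ⟨Nat.prime_three⟩
  exact (mul_eq_zero.1 h5).resolve_right hs

/-! ### The setting -/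

/-- facts about `B` -/
structure Dat (h n E q : ℕ) {m : ℕ} (π : Fin m → PP) (e : Fin m → ℕ) (w0 : ZMod 3)
    (c : Fin m → ZMod 3) (ρ : PP) : Prop where
  ne : BB h n E q ≠ 0
  bv : lv (BB h n E q) = h
  bw : lw (BB h n E q) = wt ((n : ℤ) ^ 2) + w0
  vb : ∀ σ : PP, V σ.1 ((BB h n E q : ℤ) : Eis) = V σ.1 ((n * q ^ E : ℕ) : Eis)
  db : ∀ σ : PP, ¬ σ.1 ∣ ((n * q ^ E : ℕ) : Eis) → ¬ σ.1 ∣ ((BB h n E q : ℤ) : Eis)
  vi : ∀ i, V (π i).1 ((BB h n E q : ℤ) : Eis) = e i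
  ci : ∀ i, ch (π i).1 ((BB h n E q : ℤ) : Eis) = ch (π i).1 ((3 ^ h * n : ℕ) : Eis) + c i
  rn : ¬ ρ.1 ∣ (n : Eis)
  vr : V ρ.1 ((BB h n E q : ℤ) : Eis) = E

theorem dat (hSPP : SPP) (hLCL : LCL) {E q : ℕ} {ρ : PP} (hN : NF n π p e r f)
    (hE : E = 1 ∨ E = 2) (hq : q.Prime) (hq1 : q % 3 = 1) (hcl : InCT E π w0 c q)
    (hqn : ¬ q ∣ n) (hρ : (q : Eis) = ρ.1 * conj ρ.1) : Dat h n E q π e w0 c ρ := by
  obtain ⟨hcw, hci⟩ := hcl
  have h' := HYPU.ext hN hE ρ hq hq1 hqn hρ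
  have hn0 := HYPS.n_ne0 hN
  have hn1 := n_ne hN
  have h3n := three_n hN
  have hq0 : (q : Eis) ≠ 0 := by
    rw [hρ]
    exact mul_ne_zero ρ.2.1.ne_zero (prime_conj ρ.2.1).ne_zero
  obtain ⟨hBne, hBv, hBw⟩ := HYPU.l_BB hLCL (h := h) (E := E) h3n hq (Or.inl hq1) hn1
  rw [hcw] at hBw
  have h30 : (3 : Eis) ≠ 0 := by
    have := HYPU.cast_ne (x := 3) (by norm_num)
    exact_mod_cast this
  have hσ3 : ∀ σ : PP, ¬ σ.1 ∣ 3 := fun σ => (hSPP.2.2.2.1 σ).1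
  have hBe : ((BB h n E q : ℤ) : Eis) = (3 : Eis) ^ h * ((n * q ^ E : ℕ) : Eis) := by
    unfold BB
    push_cast
    ring
  have hn'0 := HYPS.n_ne0 h'
  have hVB : ∀ σ : PP, V σ.1 ((BB h n E q : ℤ) : Eis) = V σ.1 ((n * q ^ E : ℕ) : Eis) := by
    intro σ
    rw [hBe, V_mul σ.2.1 (pow_ne_zero _ h30) hn'0, V_pow σ.2.1 h30, V_eq_zero (hσ3 σ)]
    omega
  have hdB : ∀ σ : PP, ¬ σ.1 ∣ ((n * q ^ E : ℕ) : Eis) → ¬ σ.1 ∣ ((BB h n E q : ℤ) : Eis) := by
    intro σ h1 h2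
    rw [hBe] at h2
    rcases σ.2.1.dvd_or_dvd h2 with h2 | h2
    · exact hσ3 σ (σ.2.1.dvd_of_dvd_pow h2)
    · exact h1 h2
  have hi : ∀ i, Prime (π i).1 := fun i => (π i).2.1
  have h3 : ∀ i, ¬ (π i).1 ∣ 3 := fun i => hσ3 (π i)
  have hqi : ∀ i, ¬ (π i).1 ∣ (q : Eis) := fun i h5 => by
    rw [hρ] at h5
    have h6 := not_assoc h' i.succ 0
    have h7 := mt (assoc_iff h' i.succ 0) (Fin.succ_ne_zero i)
    simp only [Fin.cons_zero, Fin.cons_succ] at h6 h7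
    rcases (hi i).dvd_or_dvd h5 with h5 | h5
    · exact h7 ((hi i).associated_of_dvd ρ.2.1 h5)
    · exact h6 ((hi i).associated_of_dvd (prime_conj ρ.2.1) h5)
  refine ⟨hBne, hBv, hBw, hVB, hdB, fun i => ?_, fun i => ?_, ?_, ?_⟩
  · rw [hVB (π i)]
    have h1 := V_n_i hSPP h' i.succ
    simpa only [Fin.cons_succ] using h1
  · have h1 : ((BB h n E q : ℤ) : Eis) = ((3 ^ h * n : ℕ) : Eis) * (q : Eis) ^ E := by
      unfold BB
      push_cast
      ring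
    have h2 : ((3 ^ h * n : ℕ) : Eis) ≠ 0 := by
      push_cast
      exact mul_ne_zero (pow_ne_zero _ h30) hn0
    rw [h1, ch_mul (hi i) (h3 i) h2 (pow_ne_zero _ hq0),
      (add3_ch (hi i) (h3 i)).pow hq0 E, ch_of_not_dvd (hi i) (hqi i), hci i]
  · intro h1
    rcases HYPS.cls hSPP hN ρ.2.1 h1 with ⟨i, h2 | h2⟩ | ⟨j, h2⟩
    · have h7 := mt (assoc_iff h' 0 i.succ) (Fin.succ_ne_zero i).symm
      simp only [Fin.cons_zero, Fin.cons_succ] at h7
      exact h7 h2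
    · have h6 := not_assoc h' 0 i.succ
      simp only [Fin.cons_zero, Fin.cons_succ] at h6
      exact h6 h2
    · have h6 := not_assoc_nat h' 0 (r j)
      simp only [Fin.cons_zero] at h6
      exact h6 h2
  · rw [hVB ρ]
    have h1 := V_n_i hSPP h' 0
    simpa only [Fin.cons_zero] using h1

/-- the primes of the columns -/
theorem prm_dvd (hN : NF n π p e r f) (b : Col m k) : prm p r b ∣ 3 * n := by
  rcases b with b | j
  · refine Fin.cases ?_ (fun i => ?_) b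
    · exact Dvd.intro _ rfl
    · refine Dvd.dvd.mul_left ?_ _
      change p i ∣ n
      rw [hN.eq]
      refine Dvd.dvd.mul_right ?_ _
      have h1 : p i ^ e i ∣ ∏ i, p i ^ e i := Finset.dvd_prod_of_mem _ (Finset.mem_univ i)
      refine (dvd_pow_self _ ?_).trans h1
      have := hN.pe i
      omega
  · refine Dvd.dvd.mul_left ?_ _
    change r j ∣ n
    rw [hN.eq]
    refine Dvd.dvd.mul_left ?_ _
    have h1 : r j ^ f j ∣ ∏ j, r j ^ f j := Finset.dvd_prod_of_mem _ (Finset.mem_univ j)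
    refine (dvd_pow_self _ ?_).trans h1
    have := hN.rf j
    omega

theorem prm_ne (hN : NF n π p e r f) (b : Col m k) : ((prm p r b : ℕ) : ℤ) ≠ 0 := by
  have h1 := prm_dvd hN b
  have h2 := n_ne hN
  intro h3
  have h4 : prm p r b = 0 := by exact_mod_cast h3
  rw [h4] at h1
  have h5 := Nat.eq_zero_of_zero_dvd h1
  omega

/-- a prime of `PP` that divides the prime of a column divides `n` -/
theorem prm_supp (hSPP : SPP) (hN : NF n π p e r f) (b : Col m k) (σ : PP)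
    (hσ : σ.1 ∣ (((prm p r b : ℕ) : ℤ) : Eis)) : σ.1 ∣ (n : Eis) := by
  obtain ⟨d, hd⟩ := prm_dvd hN b
  have h1 : σ.1 ∣ ((3 * n : ℕ) : Eis) := by
    rw [hd]
    push_cast
    rw [Int.cast_natCast] at hσ
    exact Dvd.dvd.mul_right hσ _
  push_cast at h1
  rcases σ.2.1.dvd_or_dvd h1 with h2 | h2
  · exact absurd h2 (hSPP.2.2.2.1 σ).1
  · exact h2

/-- the entries of the matrix in the rows of the primes `π i` -/
theorem entry (hSPP : SPP) {E q : ℕ} {ρ : PP} (hN : NF n π p e r f)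
    (hD : Dat h n E q π e w0 c ρ) (b : Col m k) (i : Fin m) :
    tm (π i).1 (((prm p r b : ℕ) : ℤ) : Eis) ((BB h n E q : ℤ) : Eis) =
      Nm h n π p e r w0 c i.succ b := by
  have hi : ∀ i, Prime (π i).1 := fun i => (π i).2.1
  have h3 : ∀ i, ¬ (π i).1 ∣ 3 := fun i => (hSPP.2.2.2.1 (π i)).1
  rw [Int.cast_natCast]
  rcases b with b | j
  · refine Fin.cases ?_ (fun i' => ?_) b
    · change tm (π i).1 ((3 : ℕ) : Eis) _ = (e i : ZMod 3) * sym (π i).1 3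
      rw [Nat.cast_ofNat]
      unfold tm
      rw [hD.vi i, V_eq_zero (h3 i), ch_of_not_dvd (hi i) (h3 i)]
      simp
    · change tm (π i).1 (p i' : Eis) _ = if i' = i then
            (e i : ZMod 3) * sym (π i).1 (conj (π i).1) -
              ch (π i).1 ((3 ^ h * n : ℕ) : Eis) - c i
          else (e i : ZMod 3) * sym (π i).1 (p i' : Eis)
      unfold tm
      rw [hD.vi i, hD.ci i]
      split_ifs with hii
      · subst hii
        have hcj : ¬ (π i').1 ∣ conj (π i').1 := fun h5 =>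
          not_assoc hN i' i' ((hi i').associated_of_dvd (prime_conj (π i').2.1) h5)
        rw [hN.pπ i', V_mul (hi i') (hi i').ne_zero (prime_conj (π i').2.1).ne_zero, V_self,
          V_eq_zero hcj, ch_mul (hi i') (h3 i') (hi i').ne_zero
            (prime_conj (π i').2.1).ne_zero, ch_self (hi i') (h3 i'),
          ch_of_not_dvd (hi i') hcj]
        push_cast
        ring
      · have hnd : ¬ (π i).1 ∣ (p i' : Eis) := by
          rw [hN.pπ i']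
          intro h5
          rcases (hi i).dvd_or_dvd h5 with h5 | h5
          · exact hii (assoc_iff hN i i' ((hi i).associated_of_dvd (π i').2.1 h5)).symm
          · exact not_assoc hN i i' ((hi i).associated_of_dvd (prime_conj (π i').2.1) h5)
        rw [V_eq_zero hnd, ch_of_not_dvd (hi i) hnd]
        push_cast
        ring
  · change tm (π i).1 (r j : Eis) _ = (e i : ZMod 3) * sym (π i).1 (r j : Eis)
    have hnd : ¬ (π i).1 ∣ (r j : Eis) := fun h5 =>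
      not_assoc_nat hN i (r j) ((hi i).associated_of_dvd (inert hSPP (hN.rp j) (hN.r2 j)).1 h5)
    unfold tm
    rw [hD.vi i, V_eq_zero hnd, ch_of_not_dvd (hi i) hnd]
    simp

/-- the values of the symbol at `lam` -/
theorem row (hSSL : SSL) (hLCL : LCL) {E q : ℕ} {ρ : PP} (hN : NF n π p e r f) (hh : h ≤ 2)
    (hD : Dat h n E q π e w0 c ρ) {z : Eis} (hz : SelM (BB h n E q) z) (b : Col m k)
    (hb : h = 0 → b ≠ Sum.inl 0) :
    sl z (((prm p r b : ℕ) : ℤ) : Eis) = -sl z 4 * Nm h n π p e r w0 c 0 b := by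
  have hlin := fun x hx => HYPU.sl_lin hSSL hLCL hz.ne x hx
  have hslB : sl z ((BB h n E q : ℤ) : Eis) = 0 := by
    unfold sl
    rw [finsum_eq_zero_of_forall_eq_zero fun σ => hz.sym σ, neg_zero]
  have hB := hlin _ hD.ne
  rw [hslB, hD.bv, hD.bw] at hB
  -- the classes at `lam` of the primes of the columns
  have hx : ∀ x : ℤ, x ≠ 0 → (h = 0 → lv x = 0) → sl z (x : Eis) =
      -sl z 4 * (lw x + lv x * (wt ((n : ℤ) ^ 2) + w0)) := by
    intro x hx h0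
    rw [hlin x hx]
    have hcase : h = 0 ∨ h = 1 ∨ h = 2 := by omega
    rcases hcase with hh0 | hh1 | hh2
    · rw [h0 hh0]
      ring
    · have h1 : lv (BB h n E q) = 1 := by
        rw [hD.bv, hh1]
        exact Nat.cast_one
      obtain ⟨h2, h5⟩ := hz.lam h1
      rw [h2, h5]
      ring
    · rw [hh2] at hB
      have h2 := three_zero (lv x * sl z 3)
      push_cast at hB
      linear_combination (lv x) * hB + h2
  rw [hx _ (prm_ne hN b)]
  · congr 1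
    rcases b with b | j
    · revert hb
      refine Fin.cases ?_ (fun i' => ?_) b
      · intro _
        change lw ((3 : ℕ) : ℤ) + lv ((3 : ℕ) : ℤ) * (wt ((n : ℤ) ^ 2) + w0) =
          wt ((n : ℤ) ^ 2) + w0
        rw [Nat.cast_ofNat, hLCL.2.2.1.1, hLCL.2.2.1.2]
        ring
      · intro _
        change lw ((p i' : ℕ) : ℤ) + lv ((p i' : ℕ) : ℤ) * (wt ((n : ℤ) ^ 2) + w0) =
          wt ((p i' : ℤ) ^ 2)
        have hp3 : ¬ (3 : ℤ) ∣ (p i' : ℤ) := by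
          intro h4
          have h5 : 3 ∣ p i' := by exact_mod_cast h4
          have := hN.p1 i'
          omega
        rw [(hLCL.2.2.2.1 _ hp3).1, (hLCL.2.2.2.1 _ hp3).2]
        ring
    · change lw ((r j : ℕ) : ℤ) + lv ((r j : ℕ) : ℤ) * (wt ((n : ℤ) ^ 2) + w0) =
          wt ((r j : ℤ) ^ 2)
      have hp3 : ¬ (3 : ℤ) ∣ (r j : ℤ) := by
        intro h4
        have h5 : 3 ∣ r j := by exact_mod_cast h4
        have := hN.r2 j
        omega
      rw [(hLCL.2.2.2.1 _ hp3).1, (hLCL.2.2.2.1 _ hp3).2]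
      ring
  · intro h0
    rcases b with b | j
    · revert hb
      refine Fin.cases ?_ (fun i' => ?_) b
      · intro hb
        exact absurd rfl (hb h0)
      · intro _
        have hp3 : ¬ (3 : ℤ) ∣ (p i' : ℤ) := by
          intro h4
          have h5 : 3 ∣ p i' := by exact_mod_cast h4
          have := hN.p1 i'
          omega
        exact (hLCL.2.2.2.1 _ hp3).1
    · have hp3 : ¬ (3 : ℤ) ∣ (r j : ℤ) := by
        intro h4
        have h5 : 3 ∣ r j := by exact_mod_cast h4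
        have := hN.r2 j
        omega
      exact (hLCL.2.2.2.1 _ hp3).1

/-- the pair of a class of the minus part -/
noncomputable def YY {m : ℕ} (π : Fin m → PP) (e : Fin m → ℕ) (ρ : PP) (z : Eis) :
    (Fin (m + 1) → ZMod 3) × ZMod 3 :=
  (Fin.cons (-sl z 4) fun i => (e i : ZMod 3) * (V (π i).1 z : ZMod 3), (V ρ.1 z : ZMod 3))

theorem mem_YY (hSPP : SPP) (hSSL : SSL) (hSCJ : SCJ) (hLCL : LCL) {E q : ℕ} {ρ : PP}
    (hN : NF n π p e r f) (hh : h ≤ 2) (hE : E = 1 ∨ E = 2) (hq : q.Prime) (hq1 : q % 3 = 1)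
    (hqn : ¬ q ∣ n) (hρ : (q : Eis) = ρ.1 * conj ρ.1)
    (hD : Dat h n E q π e w0 c ρ) {z : Eis} (hz : SelM (BB h n E q) z) :
    YY π e ρ z ∈ WS h n π p e r w0 c fun b => sym ρ.1 (((prm p r b : ℕ) : ℤ) : Eis) := by
  have h' := HYPU.ext hN hE ρ hq hq1 hqn hρ
  have hB0 := HYPU.cast_ne hD.ne
  have hE2 : (E : ZMod 3) * (E : ZMod 3) = 1 := by
    rcases hE with h1 | h1 <;> rw [h1] <;> decide
  have hF3 : Fact (Nat.Prime 3) := ⟨Nat.prime_three⟩
  obtain ⟨t, hzt⟩ := hz.nrm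
  rw [mem_WS]
  constructor
  · intro ha
    change -sl z 4 = 0
    have hcase : h = 0 ∨ h = 1 ∨ h = 2 := by omega
    rcases hcase with hh0 | hh1 | hh2
    · have hw : wt ((n : ℤ) ^ 2) + w0 ≠ 0 := fun h1 => ha (Or.inr ⟨hh0, h1⟩)
      have hslB : sl z ((BB h n E q : ℤ) : Eis) = 0 := by
        unfold sl
        rw [finsum_eq_zero_of_forall_eq_zero fun σ => hz.sym σ, neg_zero]
      have hB := HYPU.sl_lin hSSL hLCL hz.ne _ hD.ne
      rw [hslB, hD.bv, hD.bw, hh0] at hB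
      have h1 : (wt ((n : ℤ) ^ 2) + w0) * -sl z 4 = 0 := by
        push_cast at hB
        linear_combination -hB
      exact (mul_eq_zero.1 h1).resolve_left hw
    · have h1 : lv (BB h n E q) = 1 := by
        rw [hD.bv, hh1]
        exact Nat.cast_one
      rw [(hz.lam h1).2, neg_zero]
    · exact absurd (Or.inl hh2) ha
  · intro b hb
    have h6 := HYPU.finsum_tm hSPP hSCJ h' hB0 hD.vb hz.ne hzt hz.sym
      (fun σ h1 => hz.unr σ (hD.db σ h1)) _ (prm_ne hN b) fun σ hσ => by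
        push_cast
        exact Dvd.dvd.mul_right (prm_supp hSPP hN b σ hσ) _
    rw [Fin.sum_univ_succ] at h6
    simp only [Fin.cons_zero, Fin.cons_succ] at h6
    have h7 : sl z (((prm p r b : ℕ) : ℤ) : Eis) +
        ((E : ZMod 3) * (V ρ.1 z : ZMod 3) *
        tm ρ.1 (((prm p r b : ℕ) : ℤ) : Eis) ((BB h n E q : ℤ) : Eis) +
        ∑ i, (e i : ZMod 3) * (V (π i).1 z : ZMod 3) *
          tm (π i).1 (((prm p r b : ℕ) : ℤ) : Eis) ((BB h n E q : ℤ) : Eis)) = 0 := by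
      rw [← h6]
      unfold sl
      rw [neg_add_cancel]
    have htmρ : tm ρ.1 (((prm p r b : ℕ) : ℤ) : Eis) ((BB h n E q : ℤ) : Eis) =
        (E : ZMod 3) * sym ρ.1 (((prm p r b : ℕ) : ℤ) : Eis) := by
      have hx : ¬ ρ.1 ∣ (((prm p r b : ℕ) : ℤ) : Eis) := fun h1 =>
        hD.rn (prm_supp hSPP hN b ρ h1)
      unfold tm
      rw [hD.vr, V_eq_zero hx, ch_of_not_dvd ρ.2.1 hx]
      simp
    rw [row hSSL hLCL hN hh hD hz b hb, htmρ] at h7
    have h8 : Matrix.vecMul (YY π e ρ z).1 (Nm h n π p e r w0 c) b =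
        -sl z 4 * Nm h n π p e r w0 c 0 b + ∑ i, (e i : ZMod 3) * (V (π i).1 z : ZMod 3) *
          tm (π i).1 (((prm p r b : ℕ) : ℤ) : Eis) ((BB h n E q : ℤ) : Eis) := by
      unfold Matrix.vecMul dotProduct YY
      rw [Fin.sum_univ_succ]
      simp only [Fin.cons_zero, Fin.cons_succ]
      congr 1
      exact Finset.sum_congr rfl fun i _ => by rw [entry hSPP hN hD b i]
    rw [h8]
    change _ + (V ρ.1 z : ZMod 3) * sym ρ.1 (((prm p r b : ℕ) : ℤ) : Eis) = 0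
    linear_combination h7 - (V ρ.1 z : ZMod 3) * sym ρ.1 (((prm p r b : ℕ) : ℤ) : Eis) * hE2

/-- a class of the minus part with trivial pair is a cube -/
theorem cube (hSPP : SPP) (hSSL : SSL) (hLCL : LCL) {E q : ℕ} {ρ : PP}
    (hN : NF n π p e r f) (hE : E = 1 ∨ E = 2) (hq : q.Prime) (hq1 : q % 3 = 1)
    (hqn : ¬ q ∣ n) (hρ : (q : Eis) = ρ.1 * conj ρ.1)
    (hD : Dat h n E q π e w0 c ρ) {z : Eis} (hz : SelM (BB h n E q) z) (h4 : sl z 4 = 0)
    (hVi : ∀ i, (V (π i).1 z : ZMod 3) = 0) (hV0 : (V ρ.1 z : ZMod 3) = 0) :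
    ∃ γ : Eis, z = γ ^ 3 := by
  have h' := HYPU.ext hN hE ρ hq hq1 hqn hρ
  obtain ⟨t, hzt⟩ := hz.nrm
  have h40 : (4 : Eis) ≠ 0 := by
    have := HYPU.cast_ne (x := 4) (by norm_num)
    exact_mod_cast this
  have h4' : ((4 : ℤ) : Eis) = 4 := by push_cast; rfl
  have hun2 : ∀ σ : PP, ¬ σ.1 ∣ ((((n * q ^ E : ℕ) : ℤ) * (2 : ℕ) : ℤ) : Eis) →
      3 ∣ V σ.1 z := by
    intro σ hσ
    refine hz.unr σ (hD.db σ fun h1 => hσ ?_)
    rw [Int.cast_mul, Int.cast_natCast]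
    exact Dvd.dvd.mul_right h1 _
  obtain ⟨a, hF, hcube⟩ := decomp hSPP h' Nat.prime_two rfl hz.ne hzt hun2
  have hVall : ∀ i : Fin (m + 1), (V ((Fin.cons ρ π : Fin (m + 1) → PP) i).1 z : ZMod 3) = 0 := by
    intro i
    refine Fin.cases ?_ (fun i => ?_) i
    · exact hV0
    · exact hVi i
  have ha : (a : ZMod 3) = 0 := by
    have h1 := hF _ (add3_sl hSSL h40)
    have h5 : sl w 4 = 1 := by
      have h6 := hLCL.2.2.2.2.1 4 (by norm_num)
      rw [(HYPU.l_four hLCL).2, neg_neg, h4'] at h6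
      exact h6
    rw [h4, h5, Finset.sum_congr rfl fun i _ => by rw [hVall i, zero_mul], Finset.sum_const_zero,
      add_zero, mul_one] at h1
    exact h1.symm
  exact hcube ha hVall

end

/-- the minus part is closed under products with squares -/
theorem SelM_mul (hSTM : STM) (hSPP : SPP) (hSSL : SSL) {B : ℤ} (hB : B ≠ 0) {z z' : Eis}
    (hz : SelM B z) (hz' : SelM B z') : SelM B (z * z' ^ 2) := by
  have hB0 := HYPU.cast_ne hB
  have h30 : (3 : Eis) ≠ 0 := by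
    have := HYPU.cast_ne (x := 3) (by norm_num)
    exact_mod_cast this
  have h40 : (4 : Eis) ≠ 0 := by
    have := HYPU.cast_ne (x := 4) (by norm_num)
    exact_mod_cast this
  have hne := hz.ne
  have hne' := hz'.ne
  obtain ⟨t, ht⟩ := hz.nrm
  obtain ⟨t', ht'⟩ := hz'.nrm
  have hsl : ∀ b : Eis, b ≠ 0 → sl (z * z' ^ 2) b = sl z b + 2 * sl z' b := by
    intro b hb
    have h1 := add3_sl hSSL hb
    have h2 := h1 z (z' ^ 2) hne (pow_ne_zero _ hne')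
    have h3 := h1.pow hne' 2
    simp only at h2 h3
    rw [h2, h3]
    push_cast
    ring
  refine ⟨mul_ne_zero hne (pow_ne_zero _ hne'), ⟨t * t' ^ 2, ?_⟩, fun σ => ?_, fun σ hσ => ?_,
    fun hl => ⟨?_, ?_⟩⟩
  · rw [map_mul, map_pow]
    calc z * z' ^ 2 * (conj z * conj z' ^ 2) = (z * conj z) * (z' * conj z') ^ 2 := by ring
      _ = (t * t' ^ 2) ^ 3 := by
        rw [ht, ht']
        ring
  · have h1 := add3_tm hSTM σ.2.1 (hSPP.2.2.2.1 σ).1 hB0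
    have h2 := h1 z (z' ^ 2) hne (pow_ne_zero _ hne')
    have h3 := h1.pow hne' 2
    simp only at h2 h3
    rw [h2, h3, hz.sym σ, hz'.sym σ, mul_zero, add_zero]
  · rw [V_mul σ.2.1 hne (pow_ne_zero _ hne'), V_pow σ.2.1 hne']
    exact (Nat.dvd_add_right (hz.unr σ hσ)).2 (Dvd.dvd.mul_left (hz'.unr σ hσ) _)
  · rw [hsl 3 h30, (hz.lam hl).1, (hz'.lam hl).1]
    ring
  · rw [hsl 4 h40, (hz.lam hl).2, (hz'.lam hl).2]
    ring

/-- the sum over the columns -/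
theorem sum_col (hSPP : SPP) {n m k : ℕ} {π : Fin m → PP} {p e : Fin m → ℕ} {r f : Fin k → ℕ}
    (hN : NF n π p e r f) (ρ : PP) (hρn : ¬ ρ.1 ∣ (n : Eis)) {x : ℤ} (hx : x ≠ 0)
    (hs : ∀ l : ℕ, l.Prime → (l : ℤ) ∣ x → l ∣ 3 * n) :
    ∑ b : Col m k, exv p r x b * sym ρ.1 (((prm p r b : ℕ) : ℤ) : Eis) = sym ρ.1 (x : Eis) := by
  rw [EHPT.sym_eq hSPP hN ρ hρn hx hs, Fintype.sum_sum_type, Fin.sum_univ_succ]
  have h1 : ∀ b : Col m k, ch ρ.1 ((prm p r b : ℕ) : Eis) =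
      sym ρ.1 (((prm p r b : ℕ) : ℤ) : Eis) := by
    intro b
    have h2 : ¬ ρ.1 ∣ (((prm p r b : ℕ) : ℤ) : Eis) := fun h3 =>
      hρn (prm_supp hSPP hN b ρ h3)
    rw [Int.cast_natCast] at h2 ⊢
    exact ch_of_not_dvd ρ.2.1 h2
  rw [add_assoc]
  congr 1
  change _ = (∑ i, (padicValInt (p i) x : ZMod 3) * ch ρ.1 (p i : Eis)) +
    ∑ j, (padicValInt (r j) x : ZMod 3) * ch ρ.1 (r j : Eis)
  congr 1
  · refine Finset.sum_congr rfl fun i _ => ?_
    have h3 := h1 (Sum.inl i.succ)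
    change ch ρ.1 (p i : Eis) = _ at h3
    rw [h3]
    rfl
  · refine Finset.sum_congr rfl fun j _ => ?_
    have h3 := h1 (Sum.inr j)
    change ch ρ.1 (r j : Eis) = _ at h3
    rw [h3]
    rfl

end NPSU

open _root_.Pool.Agent.PTN.NPSU in
/-- PTN_NPSU: the minus part, `q = 1 (mod 3)`. -/
theorem NPSU_thm (hV : Stmt_NVEC) (hSTM : STM) (hSPP : SPP) (hSSL : SSL) (_hSLC : SLC)
    (_hSREC : SREC) (hSCJ : SCJ) (_hLCI : LCI) (_hSPLT : SPLT) (hLCL : LCL) : Stmt_NPSU := by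
  classical
  intro h n m k π p e r f w0 c E q ρ hN hh hE hq hq1 hcl hqn hρ
  have hD : Dat h n E q π e w0 c ρ := dat hSPP hLCL hN hE hq hq1 hcl hqn hρ
  obtain ⟨hV1, -, -⟩ := hV h n m k π p e r f w0 c hN hh
  set σ : Col m k → ZMod 3 := fun b => sym ρ.1 (((prm p r b : ℕ) : ℤ) : Eis) with hσ
  have hmem : ∀ z, SelM (BB h n E q) z → YY π e ρ z ∈ WS h n π p e r w0 c σ := fun z hz =>
    mem_YY hSPP hSSL hSCJ hLCL hN hh hE hq hq1 hqn hρ hD hz
  have hF3 : Fact (Nat.Prime 3) := ⟨Nat.prime_three⟩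
  refine ⟨WS h n π p e r w0 c σ, inferInstance,
    fun z => if hz : SelM (BB h n E q) z then ⟨YY π e ρ z, hmem z hz⟩ else 0, ?_, ?_⟩
  · rw [Module.natCard_eq_pow_finrank (K := ZMod 3), Nat.card_zmod]
    refine Nat.pow_le_pow_right (by norm_num) ?_
    split_ifs with hx
    · obtain ⟨x, hx1, hx2⟩ := hx
      have h1 := (hV1 x hx1.1.ne hx1.1.supp).1 hx1
      have h2 := sum_col hSPP hN ρ hD.rn hx1.1.ne hx1.1.supp
      rw [add_zero]
      refine fin_le0 σ (snd_zero h1 ?_)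
      rw [hσ]
      dsimp only
      rw [h2]
      exact hx2
    · exact fin_le1 σ
  · intro z z' hz hz' hY
    dsimp only at hY
    rw [dif_pos hz, dif_pos hz'] at hY
    have hY1 : YY π e ρ z = YY π e ρ z' := congrArg Subtype.val hY
    have h40 : (4 : Eis) ≠ 0 := by
      have := HYPU.cast_ne (x := 4) (by norm_num)
      exact_mod_cast this
    have h1 := congrArg Prod.fst hY1
    have h2 : (V ρ.1 z : ZMod 3) = (V ρ.1 z' : ZMod 3) := congrArg Prod.snd hY1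
    have h3 : -sl z 4 = -sl z' 4 := congrFun h1 0
    have h4 : ∀ i : Fin m, (e i : ZMod 3) * (V (π i).1 z : ZMod 3) =
        (e i : ZMod 3) * (V (π i).1 z' : ZMod 3) := fun i => congrFun h1 i.succ
    have h5 : ∀ i : Fin m, (V (π i).1 z : ZMod 3) = (V (π i).1 z' : ZMod 3) := by
      intro i
      have h6 := HYPS.e_sq hN i
      linear_combination (e i : ZMod 3) * h4 i - ((V (π i).1 z : ZMod 3) -
        (V (π i).1 z' : ZMod 3)) * h6
    have hz2 := SelM_mul hSTM hSPP hSSL hD.ne hz hz'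
    have hne := hz.ne
    have hne' := hz'.ne
    have hVz : ∀ τ : PP, (V τ.1 z : ZMod 3) = (V τ.1 z' : ZMod 3) →
        (V τ.1 (z * z' ^ 2) : ZMod 3) = 0 := by
      intro τ hτ
      rw [V_mul τ.2.1 hne (pow_ne_zero _ hne'), V_pow τ.2.1 hne']
      push_cast
      rw [hτ]
      linear_combination three_zero (V τ.1 z' : ZMod 3)
    have h6 : sl (z * z' ^ 2) 4 = 0 := by
      have h7 := add3_sl hSSL h40
      have h8 := h7 z (z' ^ 2) hne (pow_ne_zero _ hne')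
      have h9 := h7.pow hne' 2
      simp only at h8 h9
      rw [h8, h9]
      push_cast
      linear_combination three_zero (sl z' 4) - h3
    obtain ⟨γ, hγ⟩ := cube hSPP hSSL hLCL hN hE hq hq1 hqn hρ hD hz2 h6
      (fun i => hVz _ (h5 i)) (hVz _ h2)
    refine ⟨z', γ, hne', ?_, ?_⟩
    · rintro rfl
      rw [zero_pow (by norm_num)] at hγ
      exact mul_ne_zero hne (pow_ne_zero _ hne') hγ
    · rw [← hγ]
      ring

end Pool.Agent.PTN

end

section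

/-!
# NBK0: the bound of the first descent, `q = 1 (mod 3)`
-/

set_option autoImplicit false

open NumberField IsDedekindDomain Finset
open scoped nonZeroDivisors Pointwise

namespace Pool.Agent.PTN

open Pool.Agent.Lib_helper18 Pool.Agent.Lib_helper18.Eis Pool.Agent.Lib_helper84.Cub
open Pool.Agent.PT Pool.Agent.PTE Pool.Agent.PT3

namespace NBK0

/-! ### the number `3 ^ h n q ^ E` -/

theorem BB_eq (h n E q : ℕ) : BB h n E q = ((3 ^ h * n * q ^ E : ℕ) : ℤ) := by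
  unfold BB
  push_cast
  rfl

section B

variable {h n m k : ℕ} {π : Fin m → PP} {p e : Fin m → ℕ} {r f : Fin k → ℕ} {E q : ℕ}

theorem N_ne (hN : NF n π p e r f) (hq : q.Prime) : 3 ^ h * n * q ^ E ≠ 0 :=
  mul_ne_zero (mul_ne_zero (pow_ne_zero _ (by norm_num)) (EADM.n_ne hN))
    (pow_ne_zero _ hq.ne_zero)

theorem fac_le (hN : NF n π p e r f) (hh : h ≤ 2) (hE : E = 1 ∨ E = 2) (hq : q.Prime)
    (hq3 : 3 < q) (hqn : ¬ q ∣ n) (l : ℕ) : (3 ^ h * n * q ^ E).factorization l ≤ 2 := by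
  have hn0 := EADM.n_ne hN
  have h30 : (3 : ℕ) ^ h ≠ 0 := pow_ne_zero _ (by norm_num)
  rw [Nat.factorization_mul (mul_ne_zero h30 hn0) (pow_ne_zero _ hq.ne_zero),
    Nat.factorization_mul h30 hn0, Finsupp.add_apply, Finsupp.add_apply,
    Nat.prime_three.factorization_pow, hq.factorization_pow, Finsupp.single_apply,
    Finsupp.single_apply]
  by_cases h3 : 3 = l
  · subst h3
    rw [if_pos rfl, if_neg (by omega), Nat.factorization_eq_zero_of_not_dvd (EADM.three_not hN)]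
    omega
  · by_cases hql : q = l
    · subst hql
      rw [if_neg h3, if_pos rfl, Nat.factorization_eq_zero_of_not_dvd hqn]
      omega
    · rw [if_neg h3, if_neg hql]
      have := EADM.fac_le hN l
      omega

theorem cubeFree_BB (hN : NF n π p e r f) (hh : h ≤ 2) (hE : E = 1 ∨ E = 2) (hq : q.Prime)
    (hq3 : 3 < q) (hqn : ¬ q ∣ n) : CubeRank.CubeFree (BB h n E q) := by
  intro z hz hd
  have hl : z.natAbs.Prime := Int.prime_iff_natAbs_prime.1 hz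
  rw [BB_eq] at hd
  have h1 : z.natAbs ^ 3 ∣ 3 ^ h * n * q ^ E := by
    have h2 := Int.natAbs_dvd_natAbs.2 hd
    rwa [Int.natAbs_pow, Int.natAbs_natCast] at h2
  have h3 := (hl.pow_dvd_iff_le_factorization (N_ne hN hq)).1 h1
  have h4 := fac_le hN hh hE hq hq3 hqn z.natAbs
  omega

theorem BB_ne (hN : NF n π p e r f) (hq : q.Prime) : BB h n E q ≠ 0 := by
  rw [BB_eq]
  exact_mod_cast N_ne hN hq

theorem three_le (hN : NF n π p e r f) (hE : E = 1 ∨ E = 2) (hq : q.Prime) (hq3 : 3 < q) :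
    3 ≤ (BB h n E q).natAbs := by
  rw [BB_eq, Int.natAbs_natCast]
  have h1 : q ∣ 3 ^ h * n * q ^ E := by
    refine Dvd.dvd.mul_left (dvd_pow_self q ?_) _
    omega
  have := Nat.le_of_dvd (Nat.pos_of_ne_zero (N_ne hN hq)) h1
  omega

theorem not_27 (hN : NF n π p e r f) (hh : h ≤ 2) (hE : E = 1 ∨ E = 2) (hq : q.Prime)
    (hq3 : 3 < q) (hqn : ¬ q ∣ n) : ¬ (27 : ℤ) ∣ BB h n E q := by
  intro h1
  refine cubeFree_BB hN hh hE hq hq3 hqn 3 Int.prime_three ?_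
  norm_num
  exact h1

end B

/-! ### the class `1` in the minus part -/

theorem tm_one (hSPP : SPP) (π : PP) (b : Eis) : tm π.1 1 b = 0 := by
  have hd : ¬ π.1 ∣ 1 := fun h => π.2.1.not_isUnit (isUnit_of_dvd_one h)
  unfold tm
  rw [EADM.ch_unit π.2.1 hd, sym_one π.2.1 (hSPP.2.2.2.1 π).1, V_eq_zero hd]
  simp

theorem sl_one' (hSPP : SPP) (b : Eis) : sl 1 b = 0 := by
  unfold sl
  rw [finsum_eq_zero_of_forall_eq_zero fun π => tm_one hSPP π b, neg_zero]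

theorem selM_one (hSPP : SPP) (B : ℤ) : SelM B 1 where
  ne := one_ne_zero
  nrm := ⟨1, by rw [map_one]; ring⟩
  sym π := tm_one hSPP π _
  unr π _ := by
    rw [V_eq_zero fun h => π.2.1.not_isUnit (isUnit_of_dvd_one h)]
    exact dvd_zero 3
  lam _ := ⟨sl_one' hSPP _, sl_one' hSPP _⟩

theorem selM_of_S1 (hSPP : SPP) (hI : Stmt_NKIN) {B : ℤ} (hB : B ≠ 0) (h27 : ¬ (27 : ℤ) ∣ B)
    {ζ : Eis} (h : S1 B ζ) : SelM B ζ := by
  rcases h with rfl | ⟨x, y, z, hc, hz, he, rfl⟩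
  · exact selM_one hSPP B
  · exact hI B x y z hB h27 hc hz he

/-! ### the plus part -/

/-- a representative supported on `3 n` with an exponent vector in `US` -/
def Rp (h n : ℕ) {m k : ℕ} (π : Fin m → PP) (p e : Fin m → ℕ) (r : Fin k → ℕ)
    (w0 : ZMod 3) (c : Fin m → ZMod 3) (A z z' : ℤ) : Prop :=
  z' ≠ 0 ∧ (∀ l : ℕ, l.Prime → (l : ℤ) ∣ z' → l ∣ 3 * n) ∧
    exv p r z' ∈ US h n π p e r w0 c ∧
    ∃ (u v : ℤ) (j : ℕ), u ≠ 0 ∧ v ≠ 0 ∧ z' * u ^ 3 = z * A ^ j * v ^ 3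

theorem exv_one {m k : ℕ} (p : Fin m → ℕ) (r : Fin k → ℕ) : exv p r 1 = 0 := by
  funext b
  simp [exv]

theorem join {A z₁ z₂ z₁' z₂' u₁ v₁ u₂ v₂ a b : ℤ} {i j : ℕ}
    (h₁ : z₁' * u₁ ^ 3 = z₁ * A ^ i * v₁ ^ 3) (h₂ : z₂' * u₂ ^ 3 = z₂ * A ^ j * v₂ ^ 3)
    (h : z₁' * a ^ 3 = z₂' * b ^ 3) :
    z₁ * (A ^ i * v₁ * a * u₂) ^ 3 = z₂ * A ^ (j + 2 * i) * (v₂ * b * u₁) ^ 3 := by
  have e1 : z₁ * (A ^ i * v₁ * a * u₂) ^ 3 =
      (z₁ * A ^ i * v₁ ^ 3) * (A ^ i) ^ 2 * a ^ 3 * u₂ ^ 3 := by ring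
  have e2 : z₂ * A ^ (j + 2 * i) * (v₂ * b * u₁) ^ 3 =
      (z₂ * A ^ j * v₂ ^ 3) * (A ^ i) ^ 2 * b ^ 3 * u₁ ^ 3 := by
    rw [pow_add, pow_mul']
    ring
  rw [e1, e2, ← h₁, ← h₂]
  linear_combination ((A ^ i) ^ 2 * u₁ ^ 3 * u₂ ^ 3) * h

end NBK0

open _root_.Pool.Agent.PTN.NBK0 in
theorem NBK0_thm (hK : Stmt_KID) (hP : Stmt_NPSU) (hI : Stmt_NKIN) (hA : Stmt_NADU)
    (hL : Stmt_NPLU) (hV : Stmt_NVEC) (hSPP : SPP) (hSPLT : SPLT) : Stmt_NBK0 := by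
  classical
  intro h n m k π p e r f w0 c E q hN hh hE hq hq3 hq1 hcl hqn
  obtain ⟨ρ, hρ⟩ := hSPLT.1 q hq hq1
  have hB0 : BB h n E q ≠ 0 := BB_ne hN hq
  have hcf := cubeFree_BB hN hh hE hq hq3 hqn
  have h3le : 3 ≤ (BB h n E q).natAbs := three_le hN hE hq hq3
  have hnc : ¬ ∃ t : ℤ, t ^ 3 = BB h n E q :=
    CubeRank.GenPf.not_cube hcf (by rw [Int.abs_eq_natAbs]; exact_mod_cast h3le)
  have h27 := not_27 hN hh hE hq hq3 hqn
  obtain ⟨W, hWfin, Y, hWc, hY⟩ := hP h n m k π p e r f w0 c E q ρ hN hh hE hq hq1 hcl hqn hρ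
  obtain ⟨-, -, hAd⟩ := hA h n m k π p e r f w0 c E q ρ hN hh hE hq hq1 hcl hqn hρ
  obtain ⟨hV1, hV2, -⟩ := hV h n m k π p e r f w0 c hN hh
  have hrep : ∀ z : ℤ, S2 (BB h n E q) z →
      ∃ z' : ℤ, Rp h n π p e r w0 c (BB h n E q) z z' := by
    rintro z (rfl | ⟨a, m', ha, hs, hpr, hco, rfl⟩)
    · refine ⟨1, one_ne_zero, ?_, ?_, 1, 1, 0, one_ne_zero, one_ne_zero, by ring⟩
      · intro l hl hd
        have h1 : l ∣ 1 := by exact_mod_cast hd
        exact absurd (Nat.dvd_one.1 h1) hl.one_lt.ne'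
      · rw [exv_one]
        exact Submodule.zero_mem _
    · obtain ⟨z', X, Y', u, v, j, hu, hv, he, -, hag, hloc, hsupp⟩ :=
        hL h n m k π p e r f E q a m' hN hh hE hq (by omega) hqn ha hs hpr hco
      have hadm := ((hAd z' hsupp).2 ⟨hag, hloc⟩).1
      exact ⟨z', hag.ne, hsupp, (hV1 z' hag.ne hsupp).1 hadm, u, v, j, hu, hv, he⟩
  have hUfin : Finite (US h n π p e r w0 c) := inferInstance
  let Ψ : ℤ → US h n π p e r w0 c := fun z =>
    if hz : ∃ z' : ℤ, Rp h n π p e r w0 c (BB h n E q) z z' then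
      ⟨exv p r hz.choose, hz.choose_spec.2.2.1⟩ else 0
  have hΨ : ∀ z (hz : ∃ z' : ℤ, Rp h n π p e r w0 c (BB h n E q) z z'),
      (Ψ z : Col m k → ZMod 3) = exv p r hz.choose := by
    intro z hz
    change ((if hz : ∃ z' : ℤ, Rp h n π p e r w0 c (BB h n E q) z z' then
      (⟨exv p r hz.choose, hz.choose_spec.2.2.1⟩ : US h n π p e r w0 c) else 0 :
      US h n π p e r w0 c) : Col m k → ZMod 3) = _
    rw [dif_pos hz]
  have hkid := hK (BB h n E q) hB0 hcf hnc W (US h n π p e r w0 c) Y Ψ ?_ ?_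
  · obtain ⟨hfi, hidx⟩ := hkid
    refine CubeRank.gen' (BB h n E q) hcf h3le _ hfi (hidx.trans ?_)
    have hU : Nat.card (US h n π p e r w0 c) = 3 ^ sN h n π p e r w0 c := by
      have h1 := Module.natCard_eq_pow_finrank (K := ZMod 3) (V := US h n π p e r w0 c)
      rw [Nat.card_zmod] at h1
      exact h1
    have hW1 : Nat.card W ≤ 3 ^ (vN h n π p e r w0 c + 1) := by
      refine hWc.trans (Nat.pow_le_pow_right (by norm_num) ?_)
      split_ifs <;> omega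
    rw [hU, pow_add]
    exact Nat.mul_le_mul_right _ hW1
  · intro ζ ζ' h1 h2 he
    exact hY ζ ζ' (selM_of_S1 hSPP hI hB0 h27 h1) (selM_of_S1 hSPP hI hB0 h27 h2) he
  · intro z z' h1 h2 he
    have hz := hrep z h1
    have hz' := hrep z' h2
    have he' : exv p r hz.choose = exv p r hz'.choose := by
      rw [← hΨ z hz, ← hΨ z' hz', he]
    obtain ⟨g1, g2, -, u1, v1, j1, hu1, hv1, e1⟩ := hz.choose_spec
    obtain ⟨g1', g2', -, u2, v2, j2, hu2, hv2, e2⟩ := hz'.choose_spec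
    obtain ⟨a, b, ha, hb, hab⟩ := (hV2 _ _ g1 g1' g2 g2').2 he'
    exact ⟨BB h n E q ^ j1 * v1 * a * u2, v2 * b * u1, j2 + 2 * j1,
      mul_ne_zero (mul_ne_zero (mul_ne_zero (pow_ne_zero _ hB0) hv1) ha) hu2,
      mul_ne_zero (mul_ne_zero hv2 hb) hu1, join e1 e2 hab⟩

end Pool.Agent.PTN

end

section

/-!
# PTK_WSB (helper44): the vectors of the classes of points form a subspace
-/

set_option autoImplicit false

open NumberField IsDedekindDomain Finset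
open scoped nonZeroDivisors Pointwise

namespace Pool.Agent.PTK

open Pool.Agent.Lib_helper18 Pool.Agent.Lib_helper18.Eis Pool.Agent.Lib_helper84.Cub
open Pool.Agent.PT Pool.Agent.PTE Pool.Agent.PT3 Pool.Agent.PTL Pool.Agent.PTN

namespace WSB

theorem zN_zero {m : ℕ} (π : Fin m → PP) (e : Fin m → ℕ) : zN π e 0 = 1 := by
  unfold zN
  simp

theorem occ_one (B : ℤ) : Occ B 1 :=
  ⟨1, 1, 1, Or.inl rfl, one_ne_zero, one_ne_zero, rfl⟩

end WSB

theorem WSB_thm (hZA : Stmt_ZA) (hS1G : Stmt_S1G) : Stmt_WSB := by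
  intro h n m k π p e r f w0 c E q hNF hh hE hq hq3 hqn
  have : Fact (Nat.Prime 3) := ⟨Nat.prime_three⟩
  have hB0 : BB h n E q ≠ 0 := NBK0.BB_ne hNF hq
  have hcf := NBK0.cubeFree_BB hNF hh hE hq hq3 hqn
  have h3le : 3 ≤ (BB h n E q).natAbs := NBK0.three_le hNF hE hq hq3
  have hnc : ¬ ∃ t : ℤ, t ^ 3 = BB h n E q :=
    CubeRank.GenPf.not_cube hcf (by rw [Int.abs_eq_natAbs]; exact_mod_cast h3le)
  have hA := hZA n m k π p e r f hNF
  have hsub : ∀ y ∈ WqS h n π p e r w0 c (BB h n E q), ∀ y' ∈ WqS h n π p e r w0 c (BB h n E q),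
      y + -y' ∈ WqS h n π p e r w0 c (BB h n E q) := by
    rintro y ⟨hy, ζ, g, g', hζ, hg, hg', e1⟩ y' ⟨hy', ζ', g2, g2', hζ', hg2, hg2', e2⟩
    obtain ⟨ζ'', a, b, hζ'', ha, hb, e3⟩ := hS1G _ hB0 hcf hnc ζ ζ' hζ hζ'
    obtain ⟨-, -, -, -, -, -, -, -, hadd, -⟩ := hA (y + -y')
    obtain ⟨u, v, hu, hv, e4⟩ := hadd y'
    rw [neg_add_cancel_right] at e4
    refine ⟨add_mem hy (neg_mem hy'), ζ'', g2' * a * g * v, u * g' * b * g2, hζ'',
      mul_ne_zero (mul_ne_zero (mul_ne_zero hg2' ha) hg) hv,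
      mul_ne_zero (mul_ne_zero (mul_ne_zero hu hg') hb) hg2, ?_⟩
    have hz' : zN π e y' ≠ 0 := (hA y').1
    apply mul_right_cancel₀ hz'
    linear_combination (a ^ 3 * g ^ 3 * v ^ 3 * ζ'') * (-e2) + (g ^ 3 * g2 ^ 3 * v ^ 3) * e3 +
      (b ^ 3 * g2 ^ 3 * v ^ 3) * e1 - (g' ^ 3 * b ^ 3 * g2 ^ 3) * e4
  have hne : (WqS h n π p e r w0 c (BB h n E q)).Nonempty :=
    ⟨0, zero_mem _, by rw [WSB.zN_zero]; exact WSB.occ_one _⟩
  let W : AddSubgroup (Fin (m + 1) → ZMod 3) :=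
    AddSubgroup.ofSub (WqS h n π p e r w0 c (BB h n E q)) hne hsub
  exact ⟨AddSubgroup.toZModSubmodule 3 W, fun _ => Iff.rfl⟩

end Pool.Agent.PTK

end

section

/-!
# The average rank of prime twists: the number of the vectors is a power of `3` (module WGR)
-/

set_option autoImplicit false

open NumberField IsDedekindDomain Finset
open scoped nonZeroDivisors Pointwise

namespace Pool.Agent.PTK

open Pool.Agent.Lib_helper18 Pool.Agent.Lib_helper18.Eis Pool.Agent.Lib_helper84.Cub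
open Pool.Agent.PT Pool.Agent.PTE Pool.Agent.PT3 Pool.Agent.PTL Pool.Agent.PTN

namespace WGR

theorem zN_zero {m : ℕ} (π : Fin m → PP) (e : Fin m → ℕ) : zN π e 0 = 1 := by
  unfold zN
  simp

theorem occ_one (B : ℤ) : Occ B 1 :=
  ⟨1, 1, 1, Or.inl rfl, one_ne_zero, one_ne_zero, rfl⟩

end WGR

theorem WGR_thm (hSPP : SPP) (hSSL : SSL) (hSCJ : SCJ) (hLCL : LCL) (hNKIN : Stmt_NKIN)
    (hZA : Stmt_ZA) (hZS : Stmt_ZS) (hS1G : Stmt_S1G) : Stmt_WGR := by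
  intro h n m k π p e r f w0 c E q hNF hh hE hq hq3 hq2 hcl hqn
  have : Fact (Nat.Prime 3) := ⟨Nat.prime_three⟩
  have hB0 : BB h n E q ≠ 0 := NBK0.BB_ne hNF hq
  have hcf := NBK0.cubeFree_BB hNF hh hE hq hq3 hqn
  have h3le : 3 ≤ (BB h n E q).natAbs := NBK0.three_le hNF hE hq hq3
  have hnc : ¬ ∃ t : ℤ, t ^ 3 = BB h n E q :=
    CubeRank.GenPf.not_cube hcf (by rw [Int.abs_eq_natAbs]; exact_mod_cast h3le)
  have h27 := NBK0.not_27 hNF hh hE hq hq3 hqn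
  have hA := hZA n m k π p e r f hNF
  have hsub : ∀ y ∈ WqS h n π p e r w0 c (BB h n E q), ∀ y' ∈ WqS h n π p e r w0 c (BB h n E q),
      y + -y' ∈ WqS h n π p e r w0 c (BB h n E q) := by
    rintro y ⟨hy, ζ, g, g', hζ, hg, hg', e1⟩ y' ⟨hy', ζ', g2, g2', hζ', hg2, hg2', e2⟩
    obtain ⟨ζ'', a, b, hζ'', ha, hb, e3⟩ := hS1G _ hB0 hcf hnc ζ ζ' hζ hζ'
    obtain ⟨-, -, -, -, -, -, -, -, hadd, -⟩ := hA (y + -y')
    obtain ⟨u, v, hu, hv, e4⟩ := hadd y'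
    rw [neg_add_cancel_right] at e4
    refine ⟨add_mem hy (neg_mem hy'), ζ'', g2' * a * g * v, u * g' * b * g2, hζ'',
      mul_ne_zero (mul_ne_zero (mul_ne_zero hg2' ha) hg) hv,
      mul_ne_zero (mul_ne_zero (mul_ne_zero hu hg') hb) hg2, ?_⟩
    have hz' : zN π e y' ≠ 0 := (hA y').1
    apply mul_right_cancel₀ hz'
    linear_combination (a ^ 3 * g ^ 3 * v ^ 3 * ζ'') * (-e2) + (g ^ 3 * g2 ^ 3 * v ^ 3) * e3 +
      (b ^ 3 * g2 ^ 3 * v ^ 3) * e1 - (g' ^ 3 * b ^ 3 * g2 ^ 3) * e4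
  have hne : (WqS h n π p e r w0 c (BB h n E q)).Nonempty :=
    ⟨0, zero_mem _, by rw [WGR.zN_zero]; exact WGR.occ_one _⟩
  refine ⟨?_, ?_⟩
  · let W : AddSubgroup (Fin (m + 1) → ZMod 3) :=
      AddSubgroup.ofSub (WqS h n π p e r w0 c (BB h n E q)) hne hsub
    let W' : Submodule (ZMod 3) (Fin (m + 1) → ZMod 3) := AddSubgroup.toZModSubmodule 3 W
    refine ⟨Module.finrank (ZMod 3) W', ?_⟩
    have h1 := Module.natCard_eq_pow_finrank (K := ZMod 3) (V := W')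
    rw [Nat.card_zmod] at h1
    exact h1
  · intro ζ hζ
    have hSel : SelM (BB h n E q) ζ := NBK0.selM_of_S1 hSPP hNKIN hB0 h27 hζ
    have hy := NPSI.yv_mem hSPP hSSL hSCJ hLCL hNF hh hE hq hq2 hcl hqn hSel
    have hSelz := hZS h n m k π p e r f w0 c E q hNF hh hE hq hq2 hcl hqn _ hy
    obtain ⟨-, -, -, -, -, -, -, hyv, -, -⟩ := hA (NPSI.yv π e ζ)
    obtain ⟨g, g', hg, hg', heq⟩ := NPSI.yv_inj hSPP hSSL hLCL hNF hE hq hq2 hqn hSel hSelz hyv.symm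
    exact ⟨_, ⟨hy, ζ, g, g', hζ, hg, hg', heq⟩, g, g', hg, hg', heq⟩

end Pool.Agent.PTK

end

section

/-!
# PTK_WGU: the classes of the rational points, `q = 1 (mod 3)` (helper85)
-/

set_option autoImplicit false

open NumberField IsDedekindDomain Finset
open scoped nonZeroDivisors Pointwise

namespace Pool.Agent.PTK

open Pool.Agent.Lib_helper18 Pool.Agent.Lib_helper18.Eis Pool.Agent.Lib_helper84.Cub
open Pool.Agent.PT Pool.Agent.PTE Pool.Agent.PT3 Pool.Agent.PTL Pool.Agent.PTN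
open Pool.Agent.PT.EHYP

namespace WGU

section
variable {h n m k : ℕ} {π : Fin m → PP} {p e : Fin m → ℕ} {r f : Fin k → ℕ} {w0 : ZMod 3}
  {c : Fin m → ZMod 3} {E q : ℕ} {ρ : PP}

/-- a class of the minus part with valuation divisible by `3` at `ρ` has a vector in `VS` -/
theorem vec (hSTM : STM) (hSPP : SPP) (hSSL : SSL) (hSCJ : SCJ) (hLCL : LCL) (hZA : Stmt_ZA)
    (hZSU : Stmt_ZSU) (hN : NF n π p e r f) (hh : h ≤ 2) (hE : E = 1 ∨ E = 2) (hq : q.Prime)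
    (hq1 : q % 3 = 1) (hcl : InCT E π w0 c q) (hqn : ¬ q ∣ n)
    (hρ : (q : Eis) = ρ.1 * conj ρ.1) (hD : NPSU.Dat h n E q π e w0 c ρ) {z : Eis}
    (hz : SelM (BB h n E q) z) (hV : (V ρ.1 z : ZMod 3) = 0) :
    ∃ y ∈ VS h n π p e r w0 c, ∃ g g' : Eis, g ≠ 0 ∧ g' ≠ 0 ∧
      z * g ^ 3 = zN π e y * g' ^ 3 := by
  have hA := hZA n m k π p e r f hN
  have hy := NPSU.fst_mem (NPSU.mem_YY hSPP hSSL hSCJ hLCL hN hh hE hq hq1 hqn hρ hD hz) hV
  obtain ⟨y, hyd⟩ : ∃ y, y = (NPSU.YY π e ρ z).1 := ⟨_, rfl⟩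
  rw [← hyd] at hy
  obtain ⟨a1, -, -, a4, -, -, -, a8, -, -⟩ := hA y
  have hz' := hZSU h n m k π p e r f w0 c E q hN hh hE hq hq1 hcl hqn y hy
  have hz2 := NPSU.SelM_mul hSTM hSPP hSSL hD.ne hz hz'
  have hne := hz.ne
  have h40 : (4 : Eis) ≠ 0 := by
    have := HYPU.cast_ne (x := 4) (by norm_num)
    exact_mod_cast this
  have h0 : NPSI.yv π e (zN π e y) = (NPSU.YY π e ρ z).1 := a8.trans hyd
  have h3 : -sl (zN π e y) 4 = -sl z 4 := congrFun h0 0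
  have h4 : ∀ i : Fin m, (e i : ZMod 3) * (V (π i).1 (zN π e y) : ZMod 3) =
      (e i : ZMod 3) * (V (π i).1 z : ZMod 3) := fun i => congrFun h0 i.succ
  have h5 : ∀ i : Fin m, (V (π i).1 z : ZMod 3) = (V (π i).1 (zN π e y) : ZMod 3) := by
    intro i
    have h6 := HYPS.e_sq hN i
    linear_combination -(e i : ZMod 3) * h4 i - ((V (π i).1 z : ZMod 3) -
      (V (π i).1 (zN π e y) : ZMod 3)) * h6
  have h2 : (V ρ.1 z : ZMod 3) = (V ρ.1 (zN π e y) : ZMod 3) := by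
    rw [hV, V_eq_zero (a4 ρ hD.rn)]
    rfl
  have hVz : ∀ τ : PP, (V τ.1 z : ZMod 3) = (V τ.1 (zN π e y) : ZMod 3) →
      (V τ.1 (z * zN π e y ^ 2) : ZMod 3) = 0 := by
    intro τ hτ
    rw [V_mul τ.2.1 hne (pow_ne_zero _ a1), V_pow τ.2.1 a1]
    push_cast
    rw [hτ]
    linear_combination three_zero (V τ.1 (zN π e y) : ZMod 3)
  have h6 : sl (z * zN π e y ^ 2) 4 = 0 := by
    have h7 := add3_sl hSSL h40
    have h8 := h7 z (zN π e y ^ 2) hne (pow_ne_zero _ a1)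
    have h9 := h7.pow a1 2
    simp only at h8 h9
    rw [h8, h9]
    push_cast
    linear_combination three_zero (sl (zN π e y) 4) + h3
  obtain ⟨γ, hγ⟩ := NPSU.cube hSPP hSSL hLCL hN hE hq hq1 hqn hρ hD hz2 h6
    (fun i => hVz _ (h5 i)) (hVz _ h2)
  refine ⟨y, hy, zN π e y, γ, a1, ?_, ?_⟩
  · rintro rfl
    rw [zero_pow (by norm_num)] at hγ
    exact mul_ne_zero hne (pow_ne_zero _ a1) hγ
  · rw [← hγ]
    ring

/-- if there is an admissible class with nonzero symbol at `ρ`, the valuations at `ρ` of the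
minus part are divisible by `3` -/
theorem val (hSPP : SPP) (hSSL : SSL) (hSCJ : SCJ) (hLCL : LCL) (hV : Stmt_NVEC)
    (hN : NF n π p e r f) (hh : h ≤ 2) (hE : E = 1 ∨ E = 2) (hq : q.Prime)
    (hq1 : q % 3 = 1) (hqn : ¬ q ∣ n)
    (hρ : (q : Eis) = ρ.1 * conj ρ.1) (hD : NPSU.Dat h n E q π e w0 c ρ)
    (hx : ∃ x : ℤ, AdN h n π w0 c x ∧ sym ρ.1 (x : Eis) ≠ 0) {z : Eis}
    (hz : SelM (BB h n E q) z) : (V ρ.1 z : ZMod 3) = 0 := by
  obtain ⟨hV1, -, -⟩ := hV h n m k π p e r f w0 c hN hh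
  obtain ⟨x, hx1, hx2⟩ := hx
  have h1 := (hV1 x hx1.1.ne hx1.1.supp).1 hx1
  have h2 := NPSU.sum_col hSPP hN ρ hD.rn hx1.1.ne hx1.1.supp
  have h3 := NPSU.mem_YY hSPP hSSL hSCJ hLCL hN hh hE hq hq1 hqn hρ hD hz
  exact NPSU.snd_zero h1 (by rw [h2]; exact hx2) _ h3

end

end WGU

open _root_.Pool.Agent.PTK.WGU in
theorem WGU_thm (hSTM : STM) (hSPP : SPP) (hSSL : SSL) (hSCJ : SCJ) (hLCL : LCL)
    (hNVEC : Stmt_NVEC) (hNKIN : Stmt_NKIN) (hZA : Stmt_ZA) (hZSU : Stmt_ZSU)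
    (hS1G : Stmt_S1G) : Stmt_WGU := by
  classical
  intro h n m k π p e r f w0 c E q ρ hNF hh hE hq hq3 hq1 hcl hqn hρ
  have : Fact (Nat.Prime 3) := ⟨Nat.prime_three⟩
  have hD : NPSU.Dat h n E q π e w0 c ρ := NPSU.dat hSPP hLCL hNF hE hq hq1 hcl hqn hρ
  have hB0 : BB h n E q ≠ 0 := NBK0.BB_ne hNF hq
  have hcf := NBK0.cubeFree_BB hNF hh hE hq hq3 hqn
  have h3le : 3 ≤ (BB h n E q).natAbs := NBK0.three_le hNF hE hq hq3
  have hnc : ¬ ∃ t : ℤ, t ^ 3 = BB h n E q :=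
    CubeRank.GenPf.not_cube hcf (by rw [Int.abs_eq_natAbs]; exact_mod_cast h3le)
  have h27 := NBK0.not_27 hNF hh hE hq hq3 hqn
  have hA := hZA n m k π p e r f hNF
  have hsub : ∀ y ∈ WqS h n π p e r w0 c (BB h n E q), ∀ y' ∈ WqS h n π p e r w0 c (BB h n E q),
      y + -y' ∈ WqS h n π p e r w0 c (BB h n E q) := by
    rintro y ⟨hy, ζ, g, g', hζ, hg, hg', e1⟩ y' ⟨hy', ζ', g2, g2', hζ', hg2, hg2', e2⟩
    obtain ⟨ζ'', a, b, hζ'', ha, hb, e3⟩ := hS1G _ hB0 hcf hnc ζ ζ' hζ hζ'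
    obtain ⟨-, -, -, -, -, -, -, -, hadd, -⟩ := hA (y + -y')
    obtain ⟨u, v, hu, hv, e4⟩ := hadd y'
    rw [neg_add_cancel_right] at e4
    refine ⟨add_mem hy (neg_mem hy'), ζ'', g2' * a * g * v, u * g' * b * g2, hζ'',
      mul_ne_zero (mul_ne_zero (mul_ne_zero hg2' ha) hg) hv,
      mul_ne_zero (mul_ne_zero (mul_ne_zero hu hg') hb) hg2, ?_⟩
    have hz' : zN π e y' ≠ 0 := (hA y').1
    apply mul_right_cancel₀ hz'
    linear_combination (a ^ 3 * g ^ 3 * v ^ 3 * ζ'') * (-e2) + (g ^ 3 * g2 ^ 3 * v ^ 3) * e3 +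
      (b ^ 3 * g2 ^ 3 * v ^ 3) * e1 - (g' ^ 3 * b ^ 3 * g2 ^ 3) * e4
  have hne : (WqS h n π p e r w0 c (BB h n E q)).Nonempty :=
    ⟨0, zero_mem _, by rw [WGR.zN_zero]; exact WGR.occ_one _⟩
  have hsel : ∀ z, S1 (BB h n E q) z → SelM (BB h n E q) z := fun z hz =>
    NBK0.selM_of_S1 hSPP hNKIN hB0 h27 hz
  -- two classes with the same valuation at `ρ`
  have hrel : ∀ z z' : Eis, S1 (BB h n E q) z → S1 (BB h n E q) z' →
      (V ρ.1 z : ZMod 3) = (V ρ.1 z' : ZMod 3) →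
      ∃ y ∈ WqS h n π p e r w0 c (BB h n E q), ∃ g g' : Eis, g ≠ 0 ∧ g' ≠ 0 ∧
        z * g ^ 3 = zN π e y * z' * g' ^ 3 := by
    intro z z' hz hz' ht
    obtain ⟨z'', g, g', hz'', hg, hg', e1⟩ := hS1G _ hB0 hcf hnc z z' hz hz'
    have n1 := (hsel z hz).ne
    have n2 := (hsel z' hz').ne
    have n3 := (hsel z'' hz'').ne
    have hV0 : (V ρ.1 z'' : ZMod 3) = 0 := by
      have h1 := congrArg (V ρ.1) e1
      rw [V_mul ρ.2.1 (mul_ne_zero n3 n2) (pow_ne_zero _ hg), V_mul ρ.2.1 n3 n2,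
        V_mul ρ.2.1 n1 (pow_ne_zero _ hg'), V_pow ρ.2.1 hg, V_pow ρ.2.1 hg'] at h1
      have h2 : ((V ρ.1 z'' + V ρ.1 z' + 3 * V ρ.1 g : ℕ) : ZMod 3) =
          ((V ρ.1 z + 3 * V ρ.1 g' : ℕ) : ZMod 3) := by rw [h1]
      push_cast at h2
      linear_combination h2 + ht - three_zero (V ρ.1 g : ZMod 3) +
        three_zero (V ρ.1 g' : ZMod 3)
    obtain ⟨y, hy, a, b, ha, hb, e2⟩ := vec hSTM hSPP hSSL hSCJ hLCL hZA hZSU hNF hh hE hq hq1
      hcl hqn hρ hD (hsel z'' hz'') hV0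
    refine ⟨y, ⟨hy, z'', a, b, hz'', ha, hb, e2⟩, g' * a, b * g, mul_ne_zero hg' ha,
      mul_ne_zero hb hg, ?_⟩
    linear_combination (-(a ^ 3)) * e1 + z' * g ^ 3 * e2
  refine ⟨?_, ?_⟩
  · let W : AddSubgroup (Fin (m + 1) → ZMod 3) :=
      AddSubgroup.ofSub (WqS h n π p e r w0 c (BB h n E q)) hne hsub
    let W' : Submodule (ZMod 3) (Fin (m + 1) → ZMod 3) := AddSubgroup.toZModSubmodule 3 W
    refine ⟨Module.finrank (ZMod 3) W', ?_⟩
    have h1 := Module.natCard_eq_pow_finrank (K := ZMod 3) (V := W')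
    rw [Nat.card_zmod] at h1
    exact h1
  -- representatives
  have hrep : ∀ t : ZMod 3, ∃ zt : Eis, ∀ z, S1 (BB h n E q) z → (V ρ.1 z : ZMod 3) = t →
      ∃ y ∈ WqS h n π p e r w0 c (BB h n E q), ∃ g g' : Eis, g ≠ 0 ∧ g' ≠ 0 ∧
        z * g ^ 3 = zN π e y * zt * g' ^ 3 := by
    intro t
    by_cases ht : ∃ z, S1 (BB h n E q) z ∧ (V ρ.1 z : ZMod 3) = t
    · obtain ⟨z', hz', ht'⟩ := ht
      exact ⟨z', fun z hz hzt => hrel z z' hz hz' (hzt.trans ht'.symm)⟩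
    · exact ⟨1, fun z hz hzt => absurd ⟨z, hz, hzt⟩ ht⟩
  choose zt hzt using hrep
  obtain ⟨y0, hy0⟩ := hne
  have hYex : ∀ z, ∃ y : WqS h n π p e r w0 c (BB h n E q), S1 (BB h n E q) z →
      ∃ g g' : Eis, g ≠ 0 ∧ g' ≠ 0 ∧
        z * g ^ 3 = zN π e y.1 * zt (V ρ.1 z : ZMod 3) * g' ^ 3 := by
    intro z
    by_cases hz : S1 (BB h n E q) z
    · obtain ⟨y, hy, h1⟩ := hzt _ z hz rfl
      exact ⟨⟨y, hy⟩, fun _ => h1⟩
    · exact ⟨⟨y0, hy0⟩, fun h1 => absurd h1 hz⟩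
  choose Y hY using hYex
  have hinj : ∀ z z' : Eis, S1 (BB h n E q) z → S1 (BB h n E q) z' → Y z = Y z' →
      (V ρ.1 z : ZMod 3) = (V ρ.1 z' : ZMod 3) →
      ∃ g g' : Eis, g ≠ 0 ∧ g' ≠ 0 ∧ z * g ^ 3 = z' * g' ^ 3 := by
    intro z z' hz hz' hyy ht
    obtain ⟨g1, g2, hg1, hg2, e1⟩ := hY z hz
    obtain ⟨g1', g2', hg1', hg2', e2⟩ := hY z' hz'
    rw [← hyy, ← ht] at e2
    refine ⟨g1 * g2', g1' * g2, mul_ne_zero hg1 hg2', mul_ne_zero hg1' hg2, ?_⟩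
    linear_combination g2' ^ 3 * e1 - g2 ^ 3 * e2
  have hfin : Finite (WqS h n π p e r w0 c (BB h n E q)) := inferInstance
  by_cases hx : ∃ x : ℤ, AdN h n π w0 c x ∧ sym ρ.1 (x : Eis) ≠ 0
  · refine ⟨WqS h n π p e r w0 c (BB h n E q), hfin, Y, by omega, fun _ => le_refl _, ?_⟩
    intro z z' hz hz' hyy
    refine hinj z z' hz hz' hyy ?_
    rw [val hSPP hSSL hSCJ hLCL hNVEC hNF hh hE hq hq1 hqn hρ hD hx (hsel z hz),
      val hSPP hSSL hSCJ hLCL hNVEC hNF hh hE hq hq1 hqn hρ hD hx (hsel z' hz')]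
  · refine ⟨WqS h n π p e r w0 c (BB h n E q) × ZMod 3, inferInstance,
      fun z => (Y z, (V ρ.1 z : ZMod 3)), ?_, fun h1 => absurd h1 hx, ?_⟩
    · rw [Nat.card_prod, Nat.card_zmod, mul_comm]
    · intro z z' hz hz' hyy
      have h1 := congrArg Prod.fst hyy
      have h2 := congrArg Prod.snd hyy
      exact hinj z z' hz hz' h1 h2

end Pool.Agent.PTK

end

section

/-!
# PTK_DX1: the local terms of a point at a place dividing `f` (hypotheses `HypX`)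
-/

set_option autoImplicit false

namespace Pool.Agent.PTK

open Pool.Agent.Lib_helper18 Pool.Agent.Lib_helper18.Eis Pool.Agent.Lib_helper84.Cub
open Pool.Agent.PT

namespace DX1

open DPA hiding B_ne n0_ne core

lemma B_ne {N : ℕ} {b x p q p' q' : Eis} (HD : HypX N b x p q p' q') {E Q : ℕ} {X Y : Eis}
    (HP : HypP N b x p q p' q' E Q X Y) : (N : Eis) * (Q : Eis) ^ E ≠ 0 := by
  have h1 : (N : Eis) ≠ 0 := by
    have h2 : ((N : ℤ) : Eis) ≠ 0 := DCONST.cast_ne (by have := HD.N0; omega)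
    rwa [Int.cast_natCast] at h2
  have h3 : (Q : Eis) ≠ 0 := by
    have h2 : ((Q : ℤ) : Eis) ≠ 0 := DCONST.cast_ne (by have := HP.hQ.pos; omega)
    rwa [Int.cast_natCast] at h2
  exact mul_ne_zero h1 (pow_ne_zero _ h3)

lemma n0_ne {N : ℕ} {b x p q p' q' : Eis} (HD : HypX N b x p q p' q') {E Q : ℕ} {X Y : Eis}
    (HP : HypP N b x p q p' q' E Q X Y) : X ^ 3 + x * Y ^ 3 ≠ 0 := by
  obtain ⟨c, hc, h⟩ := HP.pt.eq
  intro h0
  rw [h0, mul_zero] at h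
  exact mul_ne_zero (B_ne HD HP) (pow_ne_zero _ hc) h.symm

/-- The local term at a tame place where `x` is a local cube. -/
lemma core (hIF4 : Stmt_IF4) (hLCI : Stmt_LCI) {π : PP} (hs : LSym π.1 (tm π.1) 1) {N : ℕ}
    {b x p q p' q' : Eis} (HD : HypX N b x p q p' q') {E Q : ℕ} {X Y : Eis}
    (HP : HypP N b x p q p' q' E Q X Y) (hL : LCE π.1 x) :
    ∃ N0 : ℕ, ∀ ξ : Eis, π.1 ^ N0 ∣ ξ ^ 3 - x →
      (∀ i, LfE X Y i ξ ≠ 0) ∧
      (∀ a : Eis, a ≠ 0 → tm π.1 a (X ^ 3 + x * Y ^ 3) = tm π.1 a ((N : Eis) * (Q : Eis) ^ E)) ∧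
      SVE (tm π.1) x p (-p') (-q) q' X Y =
        ASE (tm π.1) ((N : Eis) * (Q : Eis) ^ E) p q p' q' ξ +
          tm π.1 (LfE X Y 1 ξ) b - tm π.1 (LfE X Y 2 ξ) b := by
  have hB := B_ne HD HP
  have hn0 := n0_ne HD HP
  obtain ⟨c, hc, hE⟩ := HP.pt.eq
  obtain ⟨N1, H1⟩ := exists_ne hs.prime (b := x) HD.sol.n1
  obtain ⟨N2, H2⟩ := exists_ne hs.prime (b := x) (SolE_n1' HD.sol)
  obtain ⟨N3, H3⟩ := exists_ne hs.prime (b := x) (p := X) (q := Y) hn0
  obtain ⟨N4, H4⟩ := hIF4 π.1 (tm π.1) 1 hs b x p (-p') (-q) q' X Y HD.hb HD.hx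
    (SolE_flip HD.sol) HP.pt.hX HP.pt.hY hn0 HP.dn
  refine ⟨N1 + N2 + N3 + N4, fun ξ hξ => ?_⟩
  have g1 := H1 ξ ((pow_dvd_pow _ (by omega)).trans hξ)
  have g2 := H2 ξ ((pow_dvd_pow _ (by omega)).trans hξ)
  have g3 := H3 ξ ((pow_dvd_pow _ (by omega)).trans hξ)
  have g4 := H4 ξ ((pow_dvd_pow _ (by omega)).trans hξ)
  have hx0 : ∀ a : Eis, a ≠ 0 → tm π.1 x a = 0 := fun a ha =>
    hLCI.2.2 π.1 (tm π.1) 1 x a hs hL HD.hx ha
  have hrel : ∀ a : Eis, a ≠ 0 →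
      tm π.1 (X ^ 3 + x * Y ^ 3) a = tm π.1 ((N : Eis) * (Q : Eis) ^ E) a := by
    intro a ha
    have h1 := s_rel hs HD.hx hn0 hB hc ha hE
    rw [hx0 a ha, zero_add] at h1
    exact h1
  refine ⟨g3, ?_, ?_⟩
  · intro a ha
    rw [hs.skew (X ^ 3 + x * Y ^ 3) a hn0 ha, hs.skew ((N : Eis) * (Q : Eis) ^ E) a hB ha, hrel a ha]
  · rw [g4, neg_neg, neg_neg]
    unfold ASE
    rw [hrel _ (g1 2), hrel _ (g2 1), hrel _ (g1 1), hrel _ (g2 2)]

lemma dvd3_iff (n : ℕ) : 3 ∣ n ↔ (n : ZMod 3) = 0 := (ZMod.natCast_eq_zero_iff n 3).symm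

lemma V_B {π : PP} {f : ℕ} (hπf : π.1 ∣ (f : Eis)) {N : ℕ} {b x p q p' q' : Eis}
    (HD : HypX N b x p q p' q') {E Q : ℕ} {X Y : Eis} (HP : HypP N b x p q p' q' E Q X Y)
    (hQ : Q.Coprime f) : V π.1 ((N : Eis) * (Q : Eis) ^ E) = V π.1 (N : Eis) := by
  have hB := B_ne HD HP
  have hN : (N : Eis) ≠ 0 := left_ne_zero_of_mul hB
  have hQE := right_ne_zero_of_mul hB
  have hQ0 : (Q : Eis) ≠ 0 := by
    have h2 : ((Q : ℤ) : Eis) ≠ 0 := DCONST.cast_ne (by have := HP.hQ.pos; omega)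
    rwa [Int.cast_natCast] at h2
  have h1 := V_cop π.2.1 hπf (Nat.isCoprime_iff_coprime.2 hQ)
  rw [Int.cast_natCast] at h1
  rw [V_mul π.2.1 hN hQE, V_pow π.2.1 hQ0, h1, mul_zero, add_zero]

end DX1

open DPA hiding B_ne n0_ne core in
open _root_.Pool.Agent.PTK.DX1 in
/-- PTK_DX1. -/
theorem DX1_thm (hSTM : STM) (hSPP : SPP) (hIF4 : Stmt_IF4) (hIF4B : Stmt_IF4B)
    (hF6R : Stmt_F6R) (hF7U : Stmt_F7U) (hLFV : Stmt_LFV) (hLCI : Stmt_LCI) : Stmt_DX1 := by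
  intro N b x p q p' q' HD π f hf hπf
  have hs : LSym π.1 (tm π.1) 1 := hSTM π.1 π.2.1 (hSPP.2.2.2.1 π).1
  have hN : (N : Eis) ≠ 0 := by
    have h2 : ((N : ℤ) : Eis) ≠ 0 := DCONST.cast_ne (by have := HD.N0; omega)
    rwa [Int.cast_natCast] at h2
  by_cases hVx : 3 ∣ V π.1 x
  · by_cases hcx : ch π.1 x = 0
    · -- `x` is a local cube
      have hL : LCE π.1 x := (hLCI.1 π x HD.hx).2 ⟨hVx, hcx⟩
      obtain ⟨C, Φ, H⟩ := place_LC hs hN HD.sol.n1 (SolE_n1' HD.sol) hL hf (by rwa [pow_one])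
      classical
      refine ⟨C + (if π.1 ∣ (N : Eis) ∧ ¬ 3 ∣ V π.1 b then (V π.1 b : ZMod 3) * ch π.1 w else 0),
        Φ, ?_⟩
      intro E Q hQ X Y HP
      have hB := B_ne HD HP
      have hn0 := n0_ne HD HP
      have hVB := V_B hπf HD HP hQ
      obtain ⟨N0, H0⟩ := core hIF4 hLCI hs HD HP hL
      -- the terms with `b`
      have hterm : ∃ N1 : ℕ, ∀ ξ : Eis, π.1 ^ N1 ∣ ξ ^ 3 - x →
          tm π.1 (LfE X Y 1 ξ) b - tm π.1 (LfE X Y 2 ξ) b =
            if π.1 ∣ (N : Eis) ∧ ¬ 3 ∣ V π.1 b then (V π.1 b : ZMod 3) * ch π.1 w else 0 := by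
        by_cases hπN : π.1 ∣ (N : Eis)
        · have hVN : (V π.1 ((N : Eis) * (Q : Eis) ^ E) : ZMod 3) ≠ 0 := by
            rw [hVB]
            have h1 := HD.cf π
            have h2 : V π.1 (N : Eis) ≠ 0 := fun h => (V_eq_zero_iff.1 h) hπN
            rw [Ne, ← dvd3_iff]
            omega
          by_cases hVb : 3 ∣ V π.1 b
          · -- `b` is a local cube
            have hcb : ch π.1 b = 0 := by
              have h1 := HP.sb π
              unfold tm at h1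
              rw [(dvd3_iff _).1 hVb, zero_mul, sub_zero] at h1
              exact (mul_eq_zero.1 h1).resolve_left hVN
            have hLb : LCE π.1 b := (hLCI.1 π b HD.hb).2 ⟨hVb, hcb⟩
            refine ⟨N0, fun ξ hξ => ?_⟩
            obtain ⟨hF, -, -⟩ := H0 ξ hξ
            have h0 : ∀ i, tm π.1 (LfE X Y i ξ) b = 0 := by
              intro i
              rw [hs.skew b (LfE X Y i ξ) HD.hb (hF i),
                hLCI.2.2 π.1 (tm π.1) 1 b _ hs hLb HD.hb (hF i), neg_zero]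
            rw [h0, h0, if_neg (by tauto), sub_zero]
          · obtain ⟨N2, H2⟩ := hIF4B π.1 (tm π.1) 1 hs x X Y HD.hx HP.pt.hX HP.pt.hY hn0
            refine ⟨N0 + N2, fun ξ hξ => ?_⟩
            obtain ⟨hF, hrel, -⟩ := H0 ξ ((pow_dvd_pow _ (by omega)).trans hξ)
            have h2 := H2 ξ ((pow_dvd_pow _ (by omega)).trans hξ)
            rw [if_pos ⟨hπN, hVb⟩]
            have hw0 : w ≠ 0 := by
              intro h
              have := congrArg Eis.im h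
              simp at this
            rw [hrel _ (hF 1), hrel _ (hF 2), hrel _ hw0] at h2
            have hw : tm π.1 w ((N : Eis) * (Q : Eis) ^ E) =
                (V π.1 ((N : Eis) * (Q : Eis) ^ E) : ZMod 3) * ch π.1 w := by
              unfold tm
              rw [V_eq_zero (not_dvd_w π.2.1)]
              simp
            rw [hw] at h2
            refine mul_left_cancel₀ hVN ?_
            rw [mul_sub, tm_prop (HP.sb π), tm_prop (HP.sb π), ← mul_sub, h2]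
            ring
        · -- `π` does not divide `N`
          obtain ⟨hπb, hπx⟩ := HD.unr π hπN
          have hVx0 : V π.1 x = 0 := V_eq_zero hπx
          have hVb0 : V π.1 b = 0 := V_eq_zero hπb
          have hVB0 : V π.1 ((N : Eis) * (Q : Eis) ^ E) = 0 := by
            rw [hVB]
            exact V_eq_zero hπN
          obtain ⟨c, hc, hE⟩ := HP.pt.eq
          have hVn : 3 ∣ V π.1 (X ^ 3 + x * Y ^ 3) := by
            have h1 := congrArg (V π.1) hE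
            rw [V_mul π.2.1 HD.hx hn0, V_mul π.2.1 hB (pow_ne_zero _ hc), V_pow π.2.1 hc, hVx0,
              hVB0] at h1
            omega
          obtain ⟨N2, H2⟩ := hLFV π x X Y HD.hx HP.pt.hX HP.pt.hY hn0 hVx hVn
          refine ⟨N2, fun ξ hξ => ?_⟩
          rw [if_neg (by tauto)]
          unfold tm
          rw [H2 ξ hξ, hVb0]
          simp
      obtain ⟨N1, H1⟩ := hterm
      have h3 := H E Q hQ (SVE (tm π.1) x p (-p') (-q) q' X Y -
        (if π.1 ∣ (N : Eis) ∧ ¬ 3 ∣ V π.1 b then (V π.1 b : ZMod 3) * ch π.1 w else 0))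
        (N0 + N1) (fun ξ hξ => by
          obtain ⟨-, -, h4⟩ := H0 ξ ((pow_dvd_pow _ (by omega)).trans hξ)
          rw [h4, ← H1 ξ ((pow_dvd_pow _ (by omega)).trans hξ)]
          ring)
      linear_combination h3
    · -- `x` is not a local cube
      refine ⟨0, 1, ?_⟩
      intro E Q hQ X Y HP
      rw [hF7U π b x p (-p') (-q) q' X Y HD.hb HD.hx (SolE_flip HD.sol) HP.pt.hX HP.pt.hY HP.dn
        hVx hcx]
      simp
  · -- the valuation of `x` is prime to `3`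
    classical
    refine ⟨if (V π.1 (N : Eis) : ZMod 3) = (V π.1 x : ZMod 3) then 0 else - tm π.1 w b, 1, ?_⟩
    intro E Q hQ X Y HP
    have hB := B_ne HD HP
    have hn0 := n0_ne HD HP
    have hVB := V_B hπf HD HP hQ
    obtain ⟨c, hc, hE⟩ := HP.pt.eq
    have h1 := congrArg (V π.1) hE
    rw [V_mul π.2.1 HD.hx hn0, V_mul π.2.1 hB (pow_ne_zero _ hc), V_pow π.2.1 hc, hVB] at h1
    have h2 : (V π.1 x : ZMod 3) + (V π.1 (X ^ 3 + x * Y ^ 3) : ZMod 3) =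
        (V π.1 (N : Eis) : ZMod 3) := by
      have h3 := congrArg (fun n : ℕ => (n : ZMod 3)) h1
      simp only [Nat.cast_add, Nat.cast_mul] at h3
      rw [h3]
      have h4 : ((3 : ℕ) : ZMod 3) = 0 := rfl
      rw [h4, zero_mul, add_zero]
    obtain ⟨k1, k2⟩ := hF6R π b x p (-p') (-q) q' X Y HD.hb HD.hx (SolE_flip HD.sol) HP.pt.hX
      HP.pt.hY HP.dn hVx
    by_cases hv : (V π.1 (N : Eis) : ZMod 3) = (V π.1 x : ZMod 3)
    · rw [if_pos hv, k1 ((dvd3_iff _).2 (by linear_combination h2 + hv))]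
      simp
    · rw [if_neg hv, k2 (fun h => hv (by
        rw [dvd3_iff] at h
        rw [h] at h2
        linear_combination - h2))]
      simp

end Pool.Agent.PTK

end

section

/-!
# PTK_NBW: the bound for the rank by the classes of the points and the corank of the matrix
-/

set_option autoImplicit false

namespace Pool.Agent.PTK

open Pool.Agent.Lib_helper18 Pool.Agent.Lib_helper18.Eis Pool.Agent.Lib_helper84.Cub
open Pool.Agent.PT Pool.Agent.PTE Pool.Agent.PT3 Pool.Agent.PTL Pool.Agent.PTN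

open Pool.Agent.PTN.NBKN in
/-- PTK_NBW: the bound for the rank. -/
theorem NBW_thm (hK : Stmt_KID) (hA : Stmt_NADT) (hL : Stmt_NPLU) (hTENT : TENT)
    (hWGR : Stmt_WGR) : Stmt_NBW := by
  classical
  intro h n m k π p e r f w0 c s τ b X Y P Q P' Q' E q hNF hh hAdm hSys hSw hLam hgen hEE hq hq3
    hq2 hInC hqn
  obtain ⟨hBG, hTy, hE⟩ := hA h n m k π p e r f w0 c E q hNF hh hEE hq hq2 hInC hqn
  obtain ⟨⟨d, hd⟩, hY₁⟩ := hWGR h n m k π p e r f w0 c E q hNF hh hEE hq hq3 hq2 hInC hqn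
  have H := key hA hL hTENT hNF hh hAdm hSys hSw hLam hgen hEE hq hq3 hq2 hInC hqn
  have hcf : CubeRank.CubeFree (BB h n E q) := cubeFree_BB hNF hh hEE hq hq3 hqn
  have h3B : 3 ≤ (BB h n E q).natAbs := three_le_BB hNF hEE hq3
  obtain ⟨B, hB⟩ : ∃ B : ℤ, B = BB h n E q := ⟨_, rfl⟩
  rw [← hB] at hBG hTy hE hY₁ H hcf h3B hd ⊢
  have hB0 : B ≠ 0 := hTy.1
  have habs : 3 ≤ |B| := by
    rw [Int.abs_eq_natAbs]
    exact_mod_cast h3B
  have hnc : ¬ ∃ t : ℤ, t ^ 3 = B := CubeRank.GenPf.not_cube hcf habs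
  obtain ⟨M, hM⟩ : ∃ M : Matrix (Fin s) (Fin s) (ZMod 3), M = MaT b X Y P Q P' Q' B := ⟨_, rfl⟩
  rw [← hM] at H ⊢
  choose g u y j hu hy hz hker using H
  let Ψ₂ : ℤ → LinearMap.ker M.mulVecLin := fun z =>
    if hs : S2 B z then ⟨fun i => (g z hs i : ZMod 3), by
      rw [LinearMap.mem_ker]
      funext a
      exact hker z hs a⟩ else 0
  choose yv hyv g₁ g₂ hg₁ hg₂ hyg using hY₁
  let Y₁ : Eis → WqS h n π p e r w0 c B := fun ζ =>
    if hs : S1 B ζ then ⟨yv ζ hs, hyv ζ hs⟩ else ⟨yv 1 (Or.inl rfl), hyv 1 (Or.inl rfl)⟩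
  have hidx := hK B hB0 hcf hnc (WqS h n π p e r w0 c B) (LinearMap.ker M.mulVecLin) Y₁ Ψ₂
    (by
      intro ζ ζ' h1 h2 h12
      have h3 : yv ζ h1 = yv ζ' h2 := by
        have h4 := congrArg (fun x : WqS h n π p e r w0 c B => (x : Fin (m + 1) → ZMod 3)) h12
        simp only [Y₁, dif_pos h1, dif_pos h2] at h4
        exact h4
      have e1 := hyg ζ h1
      have e2 := hyg ζ' h2
      rw [h3] at e1
      refine ⟨g₁ ζ h1 * g₂ ζ' h2, g₁ ζ' h2 * g₂ ζ h1, mul_ne_zero (hg₁ ζ h1) (hg₂ ζ' h2),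
        mul_ne_zero (hg₁ ζ' h2) (hg₂ ζ h1), ?_⟩
      linear_combination (g₂ ζ' h2) ^ 3 * e1 - (g₂ ζ h1) ^ 3 * e2)
    (by
      intro z z' h1 h2 h12
      have h3 : ∀ i, (g z h1 i : ZMod 3) = g z' h2 i := by
        intro i
        have h4 := congrArg (fun x : LinearMap.ker M.mulVecLin => (x : Fin s → ZMod 3) i) h12
        simp only [Ψ₂, dif_pos h1, dif_pos h2] at h4
        exact h4
      obtain ⟨A1, A2, hA1, hA2, hAA⟩ := BKER.prod_cube b (fun i => (hAdm i).1.ne) (g z h1)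
        (g z' h2) h3
      have e1 := hz z h1
      have e2 := hz z' h2
      have hu1 := hu z h1
      have hu2 := hu z' h2
      have hy1 := hy z h1
      have hy2 := hy z' h2
      generalize (∏ i, b i ^ g z h1 i) = P1 at *
      generalize (∏ i, b i ^ g z' h2 i) = P2 at *
      generalize u z h1 = u1 at *
      generalize u z' h2 = u2 at *
      generalize y z h1 = y1 at *
      generalize y z' h2 = y2 at *
      generalize j z h1 = j1 at *
      generalize j z' h2 = j2 at *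
      refine ⟨B ^ j1 * y1 * A1 * u2, y2 * A2 * u1, j2 + 2 * j1, ?_, ?_, ?_⟩
      · exact mul_ne_zero (mul_ne_zero (mul_ne_zero (pow_ne_zero _ hB0) hy1) hA1) hu2
      · exact mul_ne_zero (mul_ne_zero hy2 hA2) hu1
      · have e3 : B ^ (j2 + 2 * j1) = B ^ j2 * (B ^ j1) ^ 2 := by
          rw [pow_add, mul_comm 2 j1, pow_mul]
        rw [e3]
        generalize B ^ j1 = C1 at *
        generalize B ^ j2 = C2 at *
        linear_combination (-(C1 ^ 2 * A1 ^ 3 * u2 ^ 3)) * e1 +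
          (C1 ^ 2 * u1 ^ 3 * u2 ^ 3) * hAA + (C1 ^ 2 * A2 ^ 3 * u1 ^ 3) * e2)
  have hkr : Module.finrank (ZMod 3) (LinearMap.ker M.mulVecLin) = s - M.rank := by
    have h1 := LinearMap.finrank_range_add_finrank_ker M.mulVecLin
    rw [Module.finrank_fintype_fun_eq_card, Fintype.card_fin] at h1
    have h2 : Module.finrank (ZMod 3) (LinearMap.range M.mulVecLin) = M.rank := rfl
    omega
  refine CubeRank.gen' B hcf h3B _ hidx.1 (hidx.2.trans ?_)
  rw [Module.natCard_eq_pow_finrank (K := ZMod 3) (V := LinearMap.ker M.mulVecLin),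
    Nat.card_zmod, hkr, hd, Nat.log_pow (by norm_num : 1 < 3), pow_add]

end Pool.Agent.PTK

end

section

/-!
# PAT (helper9): every prime has a pattern
-/

set_option autoImplicit false

open NumberField IsDedekindDomain Finset
open scoped nonZeroDivisors Pointwise

namespace Pool.Agent.PTK

open Pool.Agent.Lib_helper18 Pool.Agent.Lib_helper18.Eis Pool.Agent.Lib_helper84.Cub
open Pool.Agent.PT Pool.Agent.PTE Pool.Agent.PT3 Pool.Agent.PTL Pool.Agent.PTN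

/-- PAT: every prime has a pattern. -/
theorem PAT_thm : Stmt_PAT := by
  intro d v _
  refine ⟨0, fun q _ _ _ => ?_⟩
  by_cases hZ : q ∈ ZP v
  · exact Or.inl hZ
  · right
    have h1 : ¬ ∀ ρ : PP, (q : Eis) = ρ.1 * conj ρ.1 → ∀ i, sym ρ.1 (v i : Eis) = 0 := hZ
    push Not at h1
    obtain ⟨ρ, hρ, i, hi⟩ := h1
    refine ⟨fun i => sym ρ.1 (v i : Eis), fun i => - sym ρ.1 (v i : Eis), ?_, ?_, ?_, ?_, ?_⟩
    · intro h
      exact hi (congrFun h i)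
    · intro h
      exact hi (neg_eq_zero.1 (congrFun h i))
    · intro h
      have h2 : sym ρ.1 (v i : Eis) = - sym ρ.1 (v i : Eis) := congrFun h i
      have h3 : ∀ z : ZMod 3, z = - z → z = 0 := by decide
      exact hi (h3 _ h2)
    · exact ⟨ρ, hρ, 1, by decide, fun i => by rw [one_mul]⟩
    · exact ⟨ρ, hρ, -1, by decide, fun i => by ring⟩

end Pool.Agent.PTK

end

section

/-!
# JZ: existence of the joint governing field
-/

set_option autoImplicit false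

open NumberField IsDedekindDomain Finset
open scoped nonZeroDivisors Pointwise

namespace Pool.Agent.PTK

open Pool.Agent.Lib_helper18 Pool.Agent.Lib_helper18.Eis Pool.Agent.Lib_helper84.Cub
open Pool.Agent.PT Pool.Agent.PTE Pool.Agent.PT3 Pool.Agent.PTL Pool.Agent.PTN

namespace JZ

/-- ring homomorphisms from the Eisenstein integers to fields of characteristic zero are injective -/
theorem inj0 {L : Type} [Field L] [CharZero L] (ι : Eis →+* L) : Function.Injective ι := by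
  rw [injective_iff_map_eq_zero]
  intro a ha
  have h1 : ι (a * conj a) = 0 := by rw [map_mul, ha, zero_mul]
  rw [mul_conj, map_intCast] at h1
  have h2 : a.norm = 0 := by exact_mod_cast h1
  exact norm_eq_zero.1 h2

theorem ne_of_prodE {L : Type} [Field L] [CharZero L] (ι : Eis →+* L) {p q p' q' x : Eis} {ρ : L}
    (h1 : p ^ 3 + x * q ^ 3 ≠ 0) (h2 : p' ^ 3 + x * q' ^ 3 ≠ 0) (hρ : ρ ^ 3 = ι x) :
    aDE ι p q p' q' ρ ≠ 0 ∧ aNE ι p q p' q' ρ ≠ 0 := by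
  have hω : ι w ^ 2 + ι w + 1 = 0 := by
    rw [← map_pow, ← map_add, ← map_one ι, ← map_add, w_rel, map_zero]
  have h3 : ι w ^ 3 = 1 := by linear_combination (ι w - 1) * hω
  have key : aDE ι p q p' q' ρ * aNE ι p q p' q' ρ *
      ((ι p + ι q * ρ) * (ι p' + ι q' * ρ)) =
      ι (p ^ 3 + x * q ^ 3) * ι (p' ^ 3 + x * q' ^ 3) := by
    have e1 : ∀ u v : L, (u + v * ι w ^ 2 * ρ) * (u + v * ι w * ρ) * (u + v * ρ) =
        u ^ 3 + v ^ 3 * ρ ^ 3 := by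
      intro u v
      linear_combination (u ^ 2 * v * ρ + u * v ^ 2 * ρ ^ 2 * ι w) * hω + v ^ 3 * ρ ^ 3 * h3
    have e2 := e1 (ι p) (ι q)
    have e3 := e1 (ι p') (ι q')
    rw [hρ] at e2 e3
    unfold aDE aNE
    rw [map_add, map_add, map_mul, map_mul, map_pow, map_pow, map_pow, map_pow]
    linear_combination ((ι p' + ι q' * ι w ^ 2 * ρ) * (ι p' + ι q' * ι w * ρ) *
      (ι p' + ι q' * ρ)) * e2 + ((ι p) ^ 3 + ι q ^ 3 * ι x) * e3
  have hi := inj0 ι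
  have hne : ι (p ^ 3 + x * q ^ 3) * ι (p' ^ 3 + x * q' ^ 3) ≠ 0 :=
    mul_ne_zero ((map_ne_zero_iff ι hi).2 h1) ((map_ne_zero_iff ι hi).2 h2)
  rw [← key] at hne
  exact ⟨left_ne_zero_of_mul (left_ne_zero_of_mul hne),
    right_ne_zero_of_mul (left_ne_zero_of_mul hne)⟩

theorem fin_roots (c : AlgebraicClosure ℚ) : {ρ : AlgebraicClosure ℚ | ρ ^ 3 = c}.Finite := by
  classical
  refine (Polynomial.nthRoots 3 c).toFinset.finite_toSet.subset ?_
  intro ρ hρ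
  simp only [Finset.mem_coe, Multiset.mem_toFinset]
  exact (Polynomial.mem_nthRoots (by norm_num)).2 hρ

end JZ

open _root_.Pool.Agent.PTK.JZ Pool.Agent.PT.GZERO in
/-- JZ: existence of the joint governing field. -/
theorem JZ_thm : Stmt_JZ := by
  intro s k b p q p' q' x u P Q P' Q' f hSys hSysK hf h9
  have : NeZero (f : AlgebraicClosure ℚ) := ⟨Nat.cast_ne_zero.2 hf.ne'⟩
  have : NeZero f := ⟨hf.ne'⟩
  obtain ⟨ζ, hζ⟩ := HasEnoughRootsOfUnity.exists_primitiveRoot (AlgebraicClosure ℚ) f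
  have hω := rel_of_prim (prim_pow hf h9 hζ)
  set ι₀ : Eis →+* AlgebraicClosure ℚ := GFR.lift (ζ ^ (f / 3)) hω with hι₀
  -- the plus part
  have hN : ∀ j i, j ≠ i → p j i ^ 3 + b j * q j i ^ 3 ≠ 0 ∧
      p' j i ^ 3 + b j * q' j i ^ 3 ≠ 0 := by
    intro j i hji
    have h1 := hSys.sol j i hji
    refine ⟨h1.n1, fun h2 => h1.n1 ?_⟩
    rw [h1.eq, h2, mul_zero]
  have hA : ∀ (j i : Fin s) (ρ : AlgebraicClosure ℚ), ∃ A : AlgebraicClosure ℚ, j ≠ i →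
      ρ ^ 3 = (b j : AlgebraicClosure ℚ) →
      A ^ 3 * aD (ζ ^ (f / 3)) (p j i) (q j i) (p' j i) (q' j i) ρ =
        aN (ζ ^ (f / 3)) (p j i) (q j i) (p' j i) (q' j i) ρ := by
    intro j i ρ
    obtain ⟨A, hA⟩ := IsAlgClosed.exists_pow_nat_eq
      (aN (ζ ^ (f / 3)) (p j i) (q j i) (p' j i) (q' j i) ρ /
        aD (ζ ^ (f / 3)) (p j i) (q j i) (p' j i) (q' j i) ρ) (n := 3) (by norm_num)
    refine ⟨A, fun hji hρ => ?_⟩
    rw [hA, div_mul_cancel₀]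
    exact (ne_of_prod hω (hN j i hji).1 (hN j i hji).2 hρ).1
  choose A hA using hA
  -- the minus part
  have hNK : ∀ j, P j ^ 3 + x * Q j ^ 3 ≠ 0 ∧ P' j ^ 3 + x * Q' j ^ 3 ≠ 0 := by
    intro j
    have h1 := hSysK.sol j
    refine ⟨h1.n1, fun h2 => h1.n1 ?_⟩
    rw [h1.eq, h2, mul_zero]
  have hB : ∀ (j : Fin k) (ρ : AlgebraicClosure ℚ), ∃ A : AlgebraicClosure ℚ, ρ ^ 3 = ι₀ x →
      A ^ 3 * aDE ι₀ (P j) (Q j) (P' j) (Q' j) ρ = aNE ι₀ (P j) (Q j) (P' j) (Q' j) ρ := by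
    intro j ρ
    obtain ⟨A, hA⟩ := IsAlgClosed.exists_pow_nat_eq
      (aNE ι₀ (P j) (Q j) (P' j) (Q' j) ρ / aDE ι₀ (P j) (Q j) (P' j) (Q' j) ρ) (n := 3)
      (by norm_num)
    refine ⟨A, fun hρ => ?_⟩
    rw [hA, div_mul_cancel₀]
    exact (ne_of_prodE ι₀ (hNK j).1 (hNK j).2 hρ).1
  choose B hB using hB
  have hroot : ∀ c : AlgebraicClosure ℚ, ∃ θ : AlgebraicClosure ℚ, θ ^ 3 = c :=
    fun c => IsAlgClosed.exists_pow_nat_eq _ (by norm_num)
  obtain ⟨L, iF, iN, iG, ι, hι⟩ := exists_field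
    ({ζ} ∪ ((⋃ j : Fin s, {ρ | ρ ^ 3 = (b j : AlgebraicClosure ℚ)}) ∪
      ({ρ | ρ ^ 3 = ι₀ x} ∪ ((⋃ j : Fin k, {ρ | ρ ^ 3 = ι₀ (u j)}) ∪
        ((⋃ j : Fin s, ⋃ i : Fin s, A j i '' {ρ | ρ ^ 3 = (b j : AlgebraicClosure ℚ)}) ∪
          ⋃ j : Fin k, B j '' {ρ | ρ ^ 3 = ι₀ x})))))
    ((Set.finite_singleton ζ).union ((Set.finite_iUnion fun j => fin_roots _).union
      ((fin_roots _).union ((Set.finite_iUnion fun j => fin_roots _).union
        ((Set.finite_iUnion fun j => Set.finite_iUnion fun i => (fin_roots _).image _).union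
          (Set.finite_iUnion fun j => (fin_roots _).image _))))))
  have hinj : Function.Injective ι := ι.injective
  obtain ⟨z, hz⟩ := hι ζ (Or.inl rfl)
  have hzp : IsPrimitiveRoot z f := by
    refine IsPrimitiveRoot.of_map_of_injective (f := ι) ?_ hinj
    rw [hz]
    exact hζ
  have hzω : ι (z ^ (f / 3)) = ζ ^ (f / 3) := by rw [map_pow, hz]
  have hrel := rel_of_prim (prim_pow hf h9 hzp)
  set κ : Eis →+* L := GFR.lift (z ^ (f / 3)) hrel with hκ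
  have hκw : κ w = z ^ (f / 3) := GFR.lift_w _ _
  have hcomp : ∀ a : Eis, ι (κ a) = ι₀ a := by
    intro a
    change ι ((a.re : L) + (a.im : L) * z ^ (f / 3)) =
      (a.re : AlgebraicClosure ℚ) + (a.im : AlgebraicClosure ℚ) * ζ ^ (f / 3)
    rw [map_add, map_mul, map_intCast, map_intCast, hzω]
  have hNmap : ∀ (u v u' v' : ℤ) (ρ : L), ι (aN (z ^ (f / 3)) u v u' v' ρ) =
      aN (ζ ^ (f / 3)) u v u' v' (ι ρ) := by
    intro u v u' v' ρ
    unfold aN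
    simp only [map_mul, map_add, map_pow, map_intCast, hz]
  have hDmap : ∀ (u v u' v' : ℤ) (ρ : L), ι (aD (z ^ (f / 3)) u v u' v' ρ) =
      aD (ζ ^ (f / 3)) u v u' v' (ι ρ) := by
    intro u v u' v' ρ
    unfold aD
    simp only [map_mul, map_add, map_pow, map_intCast, hz]
  have hNmapE : ∀ (a c a' c' : Eis) (ρ : L), ι (aNE κ a c a' c' ρ) =
      aNE ι₀ a c a' c' (ι ρ) := by
    intro a c a' c' ρ
    unfold aNE
    simp only [map_mul, map_add, map_pow, hcomp]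
  have hDmapE : ∀ (a c a' c' : Eis) (ρ : L), ι (aDE κ a c a' c' ρ) =
      aDE ι₀ a c a' c' (ι ρ) := by
    intro a c a' c' ρ
    unfold aDE
    simp only [map_mul, map_add, map_pow, hcomp]
  refine ⟨L, iF, iN, z, κ, ?_, ?_⟩
  · rw [hκw]
    refine ⟨iG, hzp, h9, rfl, hrel, ?_, ?_, ?_⟩
    · intro j
      obtain ⟨θ, hθ⟩ := hroot (b j : AlgebraicClosure ℚ)
      obtain ⟨y, hy⟩ := hι θ (Or.inr (Or.inl (Set.mem_iUnion.2 ⟨j, hθ⟩)))
      refine ⟨y, hinj ?_⟩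
      rw [map_pow, hy, hθ, map_intCast]
    · intro j i hji ρ hρ
      have hρ' : (ι ρ) ^ 3 = (b j : AlgebraicClosure ℚ) := by rw [← map_pow, hρ, map_intCast]
      obtain ⟨y, hy⟩ := hι (A j i (ι ρ)) (Or.inr (Or.inr (Or.inr (Or.inr (Or.inl
        (Set.mem_iUnion.2 ⟨j, Set.mem_iUnion.2 ⟨i, ⟨ι ρ, hρ', rfl⟩⟩⟩))))))
      refine ⟨y, hinj ?_⟩
      rw [map_mul, map_pow, hy, hDmap, hNmap]
      exact hA j i (ι ρ) hji hρ'
    · intro j i hji ρ hρ
      exact ne_of_prod hrel (hN j i hji).1 (hN j i hji).2 hρ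
  · refine ⟨iG, hzp, h9, hκw, ?_, ?_, ?_, ?_⟩
    · obtain ⟨θ, hθ⟩ := hroot (ι₀ x)
      obtain ⟨y, hy⟩ := hι θ (Or.inr (Or.inr (Or.inl hθ)))
      refine ⟨y, hinj ?_⟩
      rw [map_pow, hy, hθ, hcomp]
    · intro j
      obtain ⟨θ, hθ⟩ := hroot (ι₀ (u j))
      obtain ⟨y, hy⟩ := hι θ (Or.inr (Or.inr (Or.inr (Or.inl (Set.mem_iUnion.2 ⟨j, hθ⟩)))))
      refine ⟨y, hinj ?_⟩
      rw [map_pow, hy, hθ, hcomp]
    · intro j ρ hρ
      have hρ' : (ι ρ) ^ 3 = ι₀ x := by rw [← map_pow, hρ, hcomp]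
      obtain ⟨y, hy⟩ := hι (B j (ι ρ)) (Or.inr (Or.inr (Or.inr (Or.inr (Or.inr
        (Set.mem_iUnion.2 ⟨j, ⟨ι ρ, hρ', rfl⟩⟩))))))
      refine ⟨y, hinj ?_⟩
      rw [map_mul, map_pow, hy, hDmapE, hNmapE]
      exact hB j (ι ρ) hρ'
    · intro j ρ hρ
      exact ne_of_prodE κ (hNK j).1 (hNK j).2 hρ

end Pool.Agent.PTK

end

section

/-!
# MZF: existence of the joint governing field, several base classes
-/

set_option autoImplicit false

open NumberField IsDedekindDomain Finset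
open scoped nonZeroDivisors Pointwise

namespace Pool.Agent.PTK

open Pool.Agent.Lib_helper18 Pool.Agent.Lib_helper18.Eis Pool.Agent.Lib_helper84.Cub
open Pool.Agent.PT Pool.Agent.PTE Pool.Agent.PT3 Pool.Agent.PTL Pool.Agent.PTN

open JZ Pool.Agent.PT.GZERO in
/-- MZF: existence of the joint governing field. -/
theorem MZF_thm : Stmt_MZF := by
  intro s M N b p q p' q' z α β P Q P' Q' f hSys hSysZ hf h9
  have : NeZero (f : AlgebraicClosure ℚ) := ⟨Nat.cast_ne_zero.2 hf.ne'⟩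
  have : NeZero f := ⟨hf.ne'⟩
  obtain ⟨ζ, hζ⟩ := HasEnoughRootsOfUnity.exists_primitiveRoot (AlgebraicClosure ℚ) f
  have hω := rel_of_prim (prim_pow hf h9 hζ)
  set ι₀ : Eis →+* AlgebraicClosure ℚ := GFR.lift (ζ ^ (f / 3)) hω with hι₀
  -- the plus part
  have hN : ∀ j i, j ≠ i → p j i ^ 3 + b j * q j i ^ 3 ≠ 0 ∧
      p' j i ^ 3 + b j * q' j i ^ 3 ≠ 0 := by
    intro j i hji
    have h1 := hSys.sol j i hji
    refine ⟨h1.n1, fun h2 => h1.n1 ?_⟩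
    rw [h1.eq, h2, mul_zero]
  have hA : ∀ (j i : Fin s) (ρ : AlgebraicClosure ℚ), ∃ A : AlgebraicClosure ℚ, j ≠ i →
      ρ ^ 3 = (b j : AlgebraicClosure ℚ) →
      A ^ 3 * aD (ζ ^ (f / 3)) (p j i) (q j i) (p' j i) (q' j i) ρ =
        aN (ζ ^ (f / 3)) (p j i) (q j i) (p' j i) (q' j i) ρ := by
    intro j i ρ
    obtain ⟨A, hA⟩ := IsAlgClosed.exists_pow_nat_eq
      (aN (ζ ^ (f / 3)) (p j i) (q j i) (p' j i) (q' j i) ρ /
        aD (ζ ^ (f / 3)) (p j i) (q j i) (p' j i) (q' j i) ρ) (n := 3) (by norm_num)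
    refine ⟨A, fun hji hρ => ?_⟩
    rw [hA, div_mul_cancel₀]
    exact (ne_of_prod hω (hN j i hji).1 (hN j i hji).2 hρ).1
  choose A hA using hA
  -- the minus part
  have hNK : ∀ r, P r ^ 3 + z (α r) * Q r ^ 3 ≠ 0 ∧ P' r ^ 3 + z (α r) * Q' r ^ 3 ≠ 0 := by
    intro r
    have h1 := hSysZ.sol r
    refine ⟨h1.n1, fun h2 => h1.n1 ?_⟩
    rw [h1.eq, h2, mul_zero]
  have hB : ∀ (r : Fin N) (ρ : AlgebraicClosure ℚ), ∃ A : AlgebraicClosure ℚ,
      ρ ^ 3 = ι₀ (z (α r)) →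
      A ^ 3 * aDE ι₀ (P r) (Q r) (P' r) (Q' r) ρ = aNE ι₀ (P r) (Q r) (P' r) (Q' r) ρ := by
    intro r ρ
    obtain ⟨A, hA⟩ := IsAlgClosed.exists_pow_nat_eq
      (aNE ι₀ (P r) (Q r) (P' r) (Q' r) ρ / aDE ι₀ (P r) (Q r) (P' r) (Q' r) ρ) (n := 3)
      (by norm_num)
    refine ⟨A, fun hρ => ?_⟩
    rw [hA, div_mul_cancel₀]
    exact (ne_of_prodE ι₀ (hNK r).1 (hNK r).2 hρ).1
  choose B hB using hB
  have hroot : ∀ c : AlgebraicClosure ℚ, ∃ θ : AlgebraicClosure ℚ, θ ^ 3 = c :=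
    fun c => IsAlgClosed.exists_pow_nat_eq _ (by norm_num)
  obtain ⟨L, iF, iN, iG, ι, hι⟩ := exists_field
    ({ζ} ∪ ((⋃ j : Fin s, {ρ | ρ ^ 3 = (b j : AlgebraicClosure ℚ)}) ∪
      ((⋃ j : Fin M, {ρ | ρ ^ 3 = ι₀ (z j)}) ∪
        ((⋃ j : Fin s, ⋃ i : Fin s, A j i '' {ρ | ρ ^ 3 = (b j : AlgebraicClosure ℚ)}) ∪
          ⋃ r : Fin N, B r '' {ρ | ρ ^ 3 = ι₀ (z (α r))}))))
    ((Set.finite_singleton ζ).union ((Set.finite_iUnion fun j => fin_roots _).union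
      ((Set.finite_iUnion fun j => fin_roots _).union
        ((Set.finite_iUnion fun j => Set.finite_iUnion fun i => (fin_roots _).image _).union
          (Set.finite_iUnion fun j => (fin_roots _).image _)))))
  have hinj : Function.Injective ι := ι.injective
  obtain ⟨y₀, hz⟩ := hι ζ (Or.inl rfl)
  have hzp : IsPrimitiveRoot y₀ f := by
    refine IsPrimitiveRoot.of_map_of_injective (f := ι) ?_ hinj
    rw [hz]
    exact hζ
  have hzω : ι (y₀ ^ (f / 3)) = ζ ^ (f / 3) := by rw [map_pow, hz]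
  have hrel := rel_of_prim (prim_pow hf h9 hzp)
  set κ : Eis →+* L := GFR.lift (y₀ ^ (f / 3)) hrel with hκ
  have hκw : κ w = y₀ ^ (f / 3) := GFR.lift_w _ _
  have hcomp : ∀ a : Eis, ι (κ a) = ι₀ a := by
    intro a
    change ι ((a.re : L) + (a.im : L) * y₀ ^ (f / 3)) =
      (a.re : AlgebraicClosure ℚ) + (a.im : AlgebraicClosure ℚ) * ζ ^ (f / 3)
    rw [map_add, map_mul, map_intCast, map_intCast, hzω]
  have hNmap : ∀ (u v u' v' : ℤ) (ρ : L), ι (aN (y₀ ^ (f / 3)) u v u' v' ρ) =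
      aN (ζ ^ (f / 3)) u v u' v' (ι ρ) := by
    intro u v u' v' ρ
    unfold aN
    simp only [map_mul, map_add, map_pow, map_intCast, hz]
  have hDmap : ∀ (u v u' v' : ℤ) (ρ : L), ι (aD (y₀ ^ (f / 3)) u v u' v' ρ) =
      aD (ζ ^ (f / 3)) u v u' v' (ι ρ) := by
    intro u v u' v' ρ
    unfold aD
    simp only [map_mul, map_add, map_pow, map_intCast, hz]
  have hNmapE : ∀ (a c a' c' : Eis) (ρ : L), ι (aNE κ a c a' c' ρ) =
      aNE ι₀ a c a' c' (ι ρ) := by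
    intro a c a' c' ρ
    unfold aNE
    simp only [map_mul, map_add, map_pow, hcomp]
  have hDmapE : ∀ (a c a' c' : Eis) (ρ : L), ι (aDE κ a c a' c' ρ) =
      aDE ι₀ a c a' c' (ι ρ) := by
    intro a c a' c' ρ
    unfold aDE
    simp only [map_mul, map_add, map_pow, hcomp]
  refine ⟨L, iF, iN, y₀, κ, ?_, ?_⟩
  · rw [hκw]
    refine ⟨iG, hzp, h9, rfl, hrel, ?_, ?_, ?_⟩
    · intro j
      obtain ⟨θ, hθ⟩ := hroot (b j : AlgebraicClosure ℚ)
      obtain ⟨y, hy⟩ := hι θ (Or.inr (Or.inl (Set.mem_iUnion.2 ⟨j, hθ⟩)))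
      refine ⟨y, hinj ?_⟩
      rw [map_pow, hy, hθ, map_intCast]
    · intro j i hji ρ hρ
      have hρ' : (ι ρ) ^ 3 = (b j : AlgebraicClosure ℚ) := by rw [← map_pow, hρ, map_intCast]
      obtain ⟨y, hy⟩ := hι (A j i (ι ρ)) (Or.inr (Or.inr (Or.inr (Or.inl
        (Set.mem_iUnion.2 ⟨j, Set.mem_iUnion.2 ⟨i, ⟨ι ρ, hρ', rfl⟩⟩⟩)))))
      refine ⟨y, hinj ?_⟩
      rw [map_mul, map_pow, hy, hDmap, hNmap]
      exact hA j i (ι ρ) hji hρ'
    · intro j i hji ρ hρ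
      exact ne_of_prod hrel (hN j i hji).1 (hN j i hji).2 hρ
  · refine ⟨iG, hzp, h9, hκw, ?_, ?_, ?_⟩
    · intro j
      obtain ⟨θ, hθ⟩ := hroot (ι₀ (z j))
      obtain ⟨y, hy⟩ := hι θ (Or.inr (Or.inr (Or.inl (Set.mem_iUnion.2 ⟨j, hθ⟩))))
      refine ⟨y, hinj ?_⟩
      rw [map_pow, hy, hθ, hcomp]
    · intro r ρ hρ
      have hρ' : (ι ρ) ^ 3 = ι₀ (z (α r)) := by rw [← map_pow, hρ, hcomp]
      obtain ⟨y, hy⟩ := hι (B r (ι ρ)) (Or.inr (Or.inr (Or.inr (Or.inr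
        (Set.mem_iUnion.2 ⟨r, ⟨ι ρ, hρ', rfl⟩⟩)))))
      refine ⟨y, hinj ?_⟩
      rw [map_mul, map_pow, hy, hDmapE, hNmapE]
      exact hB r (ι ρ) hρ'
    · intro r ρ hρ
      exact ne_of_prodE κ (hNK r).1 (hNK r).2 hρ

end Pool.Agent.PTK

end
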