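import Mathlib
import Pool.Agent.PTWX.C35
import Pool.Agent.PTWX.C44
import Pool.Agent.PTWX.C47
import Pool.Agent.PTWX.C48
import Pool.Agent.PTWX.C57

/-! Parts: PTN.NBAS, PTN.NHPT, PTKX.HNE, PTKX.GFZ, PTKX.NM2, PTKX.PLE, PTKX.IF4, PTKX.PLU, PTKX.AVE, PTKX.DX2, PTKX.TPE, PTKX.LRR, PTKX.TAE -/

namespace Pool.Agent.PTN.NBAS
end Pool.Agent.PTN.NBAS

namespace Pool.Agent.PTN.NHPT
end Pool.Agent.PTN.NHPT

namespace Pool.Agent.PTK.TAE
end Pool.Agent.PTK.TAE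

section

/-!
# The law of the ranks of prime twists for every `n`: basis of the admissible classes (module NBAS)
-/

set_option autoImplicit false

open Finset

namespace Pool.Agent.PTN

open Pool.Agent.Lib_helper18 Pool.Agent.Lib_helper18.Eis Pool.Agent.Lib_helper84.Cub
open Pool.Agent.PT Pool.Agent.PTE Pool.Agent.PT3

namespace NBAS

open Pool.Agent.PT.EBAS Pool.Agent.PT3.EBAT

/-- An adapted basis when the image of the linear map is contained in a line. -/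
theorem adapted_line {S : Type} [AddCommGroup S] [Module (ZMod 3) S] [Module.Finite (ZMod 3) S]
    (Λ : S →ₗ[ZMod 3] (ZMod 3 × ZMod 3)) (w : ZMod 3 × ZMod 3)
    (hw : ∀ x, ∃ t : ZMod 3, Λ x = t • w) :
    ∃ (τ : Fin (Module.finrank (ZMod 3) S) → Fin 3)
      (b : Module.Basis (Fin (Module.finrank (ZMod 3) S)) (ZMod 3) S), Adp Λ w τ b := by
  have hF : Fact (Nat.Prime 3) := ⟨Nat.prime_three⟩
  by_cases h0 : ∀ x, Λ x = 0
  · refine adapted_aux Λ w (c := 0) (fun i => i.elim0) (fun i => i.elim0) (fun i => i.elim0)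
      ⟨fun i => i.elim0, fun i => i.elim0, fun i => i.elim0, fun i => i.elim0, fun i => i.elim0⟩
      (fun g _ i => i.elim0) (fun x => ⟨fun i => i.elim0, ?_⟩)
    rw [h0 x]
    simp
  push Not at h0
  obtain ⟨x₀, hx₀⟩ := h0
  obtain ⟨t, ht⟩ := hw x₀
  have ht0 : t ≠ 0 := by
    rintro rfl
    rw [zero_smul] at ht
    exact hx₀ ht
  have hw0 : w ≠ 0 := by
    rintro rfl
    rw [smul_zero] at ht
    exact hx₀ ht
  have hu : Λ (t⁻¹ • x₀) = w := by
    rw [map_smul, ht, smul_smul, inv_mul_cancel₀ ht0, one_smul]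
  refine adapted_aux Λ w (c := 1) (fun _ => t⁻¹ • x₀) (fun _ => 1) (fun _ => by decide)
    ⟨fun i hi => absurd hi (by decide), fun _ _ => hu, fun i hi => absurd hi (by decide),
      fun i j _ _ => Subsingleton.elim i j, fun i j hij => absurd (Subsingleton.elim i j) hij⟩
    (fun g hg i => ?_) (fun x => ?_)
  · rw [Fin.sum_univ_one, hu] at hg
    rw [Subsingleton.elim i 0]
    exact (smul_eq_zero.mp hg).resolve_right hw0
  · obtain ⟨t', ht'⟩ := hw x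
    refine ⟨fun _ => t', ?_⟩
    rw [Fin.sum_univ_one, hu, ht']

/-- The pair `(lv, lw)` in terms of exponent vectors. -/
noncomputable def La {m k : ℕ} (p : Fin m → ℕ) (r : Fin k → ℕ) :
    (Col m k → ZMod 3) →ₗ[ZMod 3] (ZMod 3 × ZMod 3) where
  toFun v := (v (Sum.inl 0), (∑ i : Fin m, v (Sum.inl i.succ) * wt ((p i : ℤ) ^ 2)) +
    ∑ j, v (Sum.inr j) * wt ((r j : ℤ) ^ 2))
  map_add' := by
    intro v v'
    refine Prod.ext rfl ?_
    simp only [Pi.add_apply, add_mul, Finset.sum_add_distrib, Prod.mk_add_mk]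
    ring
  map_smul' := by
    intro t v
    refine Prod.ext rfl ?_
    simp only [Pi.smul_apply, smul_eq_mul, mul_assoc, RingHom.id_apply, ← Finset.mul_sum,
      Prod.smul_mk]
    ring

/-- The row of the prime `3`. -/
theorem row0 (h n : ℕ) {m k : ℕ} (π : Fin m → PP) (p e : Fin m → ℕ) (r : Fin k → ℕ)
    (w0 : ZMod 3) (c : Fin m → ZMod 3) (u : Col m k → ZMod 3) :
    ((Nm h n π p e r w0 c).mulVec u) 0 =
      (wt ((n : ℤ) ^ 2) + w0) * u (Sum.inl 0) + (La p r u).2 := by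
  rw [Matrix.mulVec, dotProduct, Fintype.sum_sum_type, Fin.sum_univ_succ]
  change ((wt ((n : ℤ) ^ 2) + w0) * u (Sum.inl 0) +
    ∑ i : Fin m, wt ((p i : ℤ) ^ 2) * u (Sum.inl i.succ)) +
    ∑ j, wt ((r j : ℤ) ^ 2) * u (Sum.inr j) = (wt ((n : ℤ) ^ 2) + w0) * u (Sum.inl 0) +
    ((∑ i : Fin m, u (Sum.inl i.succ) * wt ((p i : ℤ) ^ 2)) +
      ∑ j, u (Sum.inr j) * wt ((r j : ℤ) ^ 2))
  rw [add_assoc]
  congr 2
  · exact Finset.sum_congr rfl fun i _ => mul_comm _ _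
  · exact Finset.sum_congr rfl fun i _ => mul_comm _ _

theorem dec_d : ∀ a b x : ZMod 3, b * a + x = 0 → x = (2 * a) * b := by decide

theorem dec_e : ((0 : ℕ) : ZMod 3) = 0 := by decide

/-- The image of the admissible vectors in a line, `h = 0` and `h = 2`. -/
theorem line (h n : ℕ) {m k : ℕ} (π : Fin m → PP) (p e : Fin m → ℕ) (r : Fin k → ℕ)
    (w0 : ZMod 3) (c : Fin m → ZMod 3) (h02 : h = 0 ∨ h = 2) (u : Col m k → ZMod 3)
    (hu : u ∈ US h n π p e r w0 c) :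
    ∃ t : ZMod 3, La p r u = t • ((h : ZMod 3), wt ((n : ℤ) ^ 2) + w0) := by
  have hF : Fact (Nat.Prime 3) := ⟨Nat.prime_three⟩
  obtain ⟨-, h1, h2⟩ := hu
  rcases h02 with rfl | rfl
  · have h3 : u (Sum.inl 0) = 0 := h2 rfl
    by_cases h4 : wt ((n : ℤ) ^ 2) + w0 = 0
    · have h5 := h1 (Or.inr ⟨rfl, h4⟩)
      rw [row0, h3, mul_zero, zero_add] at h5
      refine ⟨0, ?_⟩
      rw [zero_smul]
      exact Prod.ext h3 h5
    · refine ⟨(La p r u).2 / (wt ((n : ℤ) ^ 2) + w0), Prod.ext ?_ ?_⟩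
      · change u (Sum.inl 0) = _ * ((0 : ℕ) : ZMod 3)
        rw [h3, dec_e, mul_zero]
      · change (La p r u).2 = (La p r u).2 / (wt ((n : ℤ) ^ 2) + w0) * (wt ((n : ℤ) ^ 2) + w0)
        rw [div_mul_cancel₀ _ h4]
  · have h5 := h1 (Or.inl rfl)
    rw [row0] at h5
    refine ⟨2 * u (Sum.inl 0), Prod.ext ?_ ?_⟩
    · exact dec_a _
    · exact dec_d _ _ _ h5

section

variable {h n m k : ℕ} {π : Fin m → PP} {p e : Fin m → ℕ} {r f : Fin k → ℕ}

theorem prm_prime (hN : NF n π p e r f) (b : Col m k) : (prm p r b).Prime := by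
  rcases b with b | j
  · refine Fin.cases ?_ (fun i => ?_) b
    · exact Nat.prime_three
    · exact hN.pp i
  · exact hN.rp j

theorem exv_prod (hN : NF n π p e r f) {s : ℕ} (x : Fin s → ℤ) (hx : ∀ i, x i ≠ 0)
    (g : Fin s → ℕ) : exv p r (∏ i, x i ^ g i) = ∑ i, (g i : ZMod 3) • exv p r (x i) := by
  funext b
  rw [Finset.sum_apply]
  change ((padicValInt (prm p r b) (∏ i, x i ^ g i) : ℕ) : ZMod 3) =
      ∑ i, (g i : ZMod 3) * (padicValInt (prm p r b) (x i) : ZMod 3)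
  rw [padicInt_prod _ (prm_prime hN b) _ _ fun i => pow_ne_zero _ (hx i), Nat.cast_sum]
  refine Finset.sum_congr rfl fun i _ => ?_
  rw [padicInt_pow _ (prm_prime hN b) (hx i), Nat.cast_mul]

theorem exv_cube (hN : NF n π p e r f) (t : ℤ) (ht : t ≠ 0) : exv p r (t ^ 3) = 0 := by
  have h3 : ((3 : ℕ) : ZMod 3) = 0 := ZMod.natCast_self 3
  funext b
  change ((padicValInt (prm p r b) (t ^ 3) : ℕ) : ZMod 3) = 0
  rw [padicInt_pow _ (prm_prime hN b) ht, Nat.cast_mul, h3, zero_mul]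

theorem lv_eq (x : ℤ) : lv x = exv p r x (Sum.inl 0) := rfl

theorem lw_eq (hEVET : EVET) (hN : NF n π p e r f) (h : ℕ) (w0 : ZMod 3) (c : Fin m → ZMod 3)
    (x : ℤ) (h1 : x ≠ 0) (h2 : ∀ l : ℕ, l.Prime → (l : ℤ) ∣ x → l ∣ 3 * n) :
    lw x = (La p r (exv p r x)).2 := by
  obtain ⟨hE1, -⟩ := hEVET h n m k π p e r f w0 c hN
  exact (hE1 x h1 h2).2

/-- The adapted basis of a space of admissible exponent vectors. -/
theorem core (hEVET : EVET) (hLPT : LPT) (hLCL : LCL) (hN : NF n π p e r f)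
    (h2 : h ≤ 2) (w0 : ZMod 3) (c : Fin m → ZMod 3)
    (x : (Col m k → ZMod 3) → ℤ) (hx0 : ∀ u, x u ≠ 0)
    (hxs : ∀ u, ∀ l : ℕ, l.Prime → (l : ℤ) ∣ x u → l ∣ 3 * n)
    (hxe : ∀ u, exv p r (x u) = u)
    (T : Submodule (ZMod 3) (Col m k → ZMod 3)) (hT : T ≤ US h n π p e r w0 c) :
    ∃ (τ : Fin (Module.finrank (ZMod 3) T) → Fin 3)
      (u : Module.Basis (Fin (Module.finrank (ZMod 3) T)) (ZMod 3) T)
      (X Y : Fin (Module.finrank (ZMod 3) T) → ℤ),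
      (∀ i j, i ≠ j → (u i : Col m k → ZMod 3) (Sum.inl 0) = 0 ∨
        (u j : Col m k → ZMod 3) (Sum.inl 0) = 0) ∧
      ∀ B : ℤ, TyB h n w0 B → LamS B τ (fun i => x (u i : Col m k → ZMod 3)) X Y := by
  have hF : Fact (Nat.Prime 3) := ⟨Nat.prime_three⟩
  set β : ZMod 3 := wt ((n : ℤ) ^ 2) + w0 with hβ
  obtain ⟨τ, u, hA, hA1⟩ : ∃ (τ : Fin (Module.finrank (ZMod 3) T) → Fin 3)
      (u : Module.Basis (Fin (Module.finrank (ZMod 3) T)) (ZMod 3) T),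
      Adp ((La p r).comp T.subtype) ((h : ZMod 3), β) τ u ∧
      ∀ i, τ i = 1 → ((h : ZMod 3), β) ≠ 0 := by
    by_cases h1 : h = 1
    · have h3 : ((h : ZMod 3), β).1 ≠ 0 := by
        subst h1
        exact dec_one
      obtain ⟨τ, u, hA⟩ := adapted ((La p r).comp T.subtype) ((h : ZMod 3), β) h3
      refine ⟨τ, u, hA, fun _ _ h4 => h3 ?_⟩
      rw [h4]
      rfl
    · have h02 : h = 0 ∨ h = 2 := by omega
      have h3 : ∀ v, ∃ t : ZMod 3, ((La p r).comp T.subtype) v = t • ((h : ZMod 3), β) :=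
        fun v => line h n π p e r w0 c h02 v (hT v.2)
      by_cases h4 : ((h : ZMod 3), β) = 0
      · have d1 : ¬ (0 : Fin 3) = 1 := by decide
        have d2 : ¬ (0 : Fin 3) = 2 := by decide
        refine ⟨fun _ => 0, Module.finBasis (ZMod 3) T, ⟨fun i _ => ?_,
          fun i hi => absurd hi d1, fun i hi => absurd hi d2,
          fun i j _ hi => absurd rfl hi, fun i j _ => ?_⟩, fun i hi => absurd hi d1⟩
        · obtain ⟨t, ht⟩ := h3 (Module.finBasis (ZMod 3) T i)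
          rw [ht, h4, smul_zero]
        · left
          obtain ⟨t, ht⟩ := h3 (Module.finBasis (ZMod 3) T i)
          rw [ht, h4, smul_zero]
          rfl
      · obtain ⟨τ, u, hA⟩ := adapted_line ((La p r).comp T.subtype) ((h : ZMod 3), β) h3
        exact ⟨τ, u, hA, fun _ _ => h4⟩
  have hLa : ∀ i, ((La p r).comp T.subtype) (u i) =
      (lv (x (u i : Col m k → ZMod 3)), lw (x (u i : Col m k → ZMod 3))) := by
    intro i
    rw [lv_eq (p := p) (r := r), lw_eq hEVET hN h w0 c _ (hx0 _) (hxs _), hxe]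
    rfl
  have hLC : ∀ i, LC lam (x (u i : Col m k → ZMod 3)) ↔
      lv (x (u i : Col m k → ZMod 3)) = 0 ∧ lw (x (u i : Col m k → ZMod 3)) = 0 := fun i =>
    hLCL.1 _ (hx0 _)
  have hXY : ∀ i, ∃ X Y : ℤ, (τ i = 1 → X = 1 ∧ Y = 0) ∧
      (τ i = 2 → X ≠ 0 ∧ Y ≠ 0 ∧ X ^ 3 + x (u i : Col m k → ZMod 3) * Y ^ 3 ≠ 0 ∧
        lv (x (u i : Col m k → ZMod 3) * (X ^ 3 + x (u i : Col m k → ZMod 3) * Y ^ 3)) = 1 ∧
        lw (x (u i : Col m k → ZMod 3) * (X ^ 3 + x (u i : Col m k → ZMod 3) * Y ^ 3)) = β) := by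
    intro i
    by_cases h2 : τ i = 2
    · have h3 : ¬ (lv (x (u i : Col m k → ZMod 3)) = 0 ∧
          lw (x (u i : Col m k → ZMod 3)) = 0) := by
        rintro ⟨h4, h5⟩
        apply (hA.a2 i h2).1
        rw [hLa i, h4, h5]
        rfl
      obtain ⟨X, Y, hXY⟩ := hLPT _ β (hx0 (u i : Col m k → ZMod 3)) h3
      refine ⟨X, Y, fun h4 => ?_, fun _ => hXY⟩
      rw [h2] at h4
      exact absurd h4 (by decide)
    · exact ⟨1, 0, fun _ => ⟨rfl, rfl⟩, fun h3 => absurd h3 h2⟩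
  choose X Y hX1 hX2 using hXY
  refine ⟨τ, u, X, Y, hA.one, fun B hB => ⟨fun i hi => ?_, fun i hi => ?_, fun i hi => ?_,
    hA.inj⟩⟩
  · have h1 := hA.a0 i hi
    rw [hLa i, Prod.mk_eq_zero] at h1
    exact (hLC i).mpr h1
  · have h1 := hA.a1 i hi
    rw [hLa i, Prod.mk.injEq] at h1
    obtain ⟨-, hB1, hB2⟩ := hB
    refine ⟨fun h2 => ?_, ?_, ?_, (hX1 i hi).1, (hX1 i hi).2⟩
    · obtain ⟨h3, h4⟩ := (hLC i).mp h2
      apply hA1 i hi
      rw [Prod.mk_eq_zero, ← h1.1, ← h1.2]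
      exact ⟨h3, h4⟩
    · rw [hB1]
      exact h1.1
    · rw [hB2]
      exact h1.2
  · obtain ⟨-, hB1, hB2⟩ := hB
    have h1 := hA.a2 i hi
    have h3 : h = 1 := by
      by_contra h4
      have h02 : h = 0 ∨ h = 2 := by omega
      exact h1.2 (line h n π p e r w0 c h02 _ (hT (u i).2))
    have hB1' : lv B = 1 := by
      rw [hB1, h3, Nat.cast_one]
    obtain ⟨hx1, hx2, hx3, hx4, hx5⟩ := hX2 i hi
    refine ⟨fun h4 => ?_, hB1', ⟨hx1, hx2, hx3, ?_, ?_⟩⟩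
    · apply h1.1
      have h5 := (hLC i).mp h4
      rw [hLa i, h5.1, h5.2]
      rfl
    · rw [hB1']
      exact hx4
    · rw [hB2]
      exact hx5

end

end NBAS

open _root_.Pool.Agent.PTN.NBAS in
/-- NBAS: basis of the admissible classes with local points. -/
theorem NBAS_thm (hV : Stmt_NVEC) (hEVET : EVET) (hSPP : SPP) (hLPT : LPT) (hLCL : LCL) :
    Stmt_NBAS := by
  intro h n m k π p e r f w0 c hN h2
  obtain ⟨hV1, hV2, hV3⟩ := hV h n m k π p e r f w0 c hN h2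
  choose x hx0 hxs hxe hxV hx3 using hV3
  obtain ⟨τ, u, X, Y, hone, hL⟩ := core hEVET hLPT hLCL hN h2 w0 c x hx0 hxs hxe
    (US h n π p e r w0 c) le_rfl
  have hps : ∀ g : Fin (Module.finrank (ZMod 3) (US h n π p e r w0 c)) → ℕ,
      ∏ i, x (u i : Col m k → ZMod 3) ^ g i ≠ 0 := fun g =>
    Finset.prod_ne_zero_iff.mpr fun i _ => pow_ne_zero _ (hx0 _)
  have hpe : ∀ g : Fin (Module.finrank (ZMod 3) (US h n π p e r w0 c)) → ℕ,
      exv p r (∏ i, x (u i : Col m k → ZMod 3) ^ g i) =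
        ∑ i, (g i : ZMod 3) • (u i : Col m k → ZMod 3) := by
    intro g
    rw [exv_prod hN (fun i => x (u i : Col m k → ZMod 3)) (fun i => hx0 _) g]
    simp only [hxe]
  refine ⟨Module.finrank (ZMod 3) (US h n π p e r w0 c), τ, fun i => x (u i), X, Y, rfl,
    fun i => ?_, fun i π' => hxV _ π', fun g hg => ?_, fun i j hij => ?_, hL, fun y hy => ?_⟩
  · rw [hV1 _ (hx0 _) (hxs _), hxe]
    exact (u i).2
  · rintro ⟨t, ht⟩
    have ht0 : t ≠ 0 := by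
      rintro rfl
      apply hps g
      rw [← ht]
      norm_num
    have h1 := hpe g
    rw [← ht, exv_cube hN t ht0] at h1
    obtain ⟨i, hi⟩ := hg
    apply hi
    rw [← ZMod.natCast_eq_zero_iff]
    apply Fintype.linearIndependent_iff.mp u.linearIndependent (fun i => (g i : ZMod 3))
    apply Subtype.ext
    rw [AddSubmonoidClass.coe_finsetSum]
    exact h1.symm
  · rcases hone i j hij with h1 | h1
    · exact Or.inl (hx3 _ h1)
    · exact Or.inr (hx3 _ h1)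
  · have hy0 : y ≠ 0 := hy.1.ne
    have hys := hy.1.supp
    have hyS : exv p r y ∈ US h n π p e r w0 c := (hV1 y hy0 hys).mp hy
    refine ⟨fun i => (u.repr ⟨exv p r y, hyS⟩ i).val, ?_⟩
    rw [hV2 y _ hy0 (hps _) hys (fun l hl hd => ?_)]
    · rw [hpe]
      have h3 := congrArg (fun z : US h n π p e r w0 c => (z : Col m k → ZMod 3))
        (u.sum_repr ⟨exv p r y, hyS⟩)
      simp only [AddSubmonoidClass.coe_finsetSum] at h3
      refine h3.symm.trans (Finset.sum_congr rfl fun i _ => ?_)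
      rw [ZMod.natCast_zmod_val]
      rfl
    · obtain ⟨i, -, hi⟩ := (Nat.prime_iff_prime_int.mp hl).dvd_finsetProd_iff _ |>.mp hd
      exact hxs _ l hl ((Nat.prime_iff_prime_int.mp hl).dvd_of_dvd_pow hi)

end Pool.Agent.PTN

end

section

/-!
# The law of the ranks of prime twists: bases adapted to a hyperplane (module PTN_NHPT)
-/

set_option autoImplicit false

namespace Pool.Agent.PTN

open Pool.Agent.Lib_helper18 Pool.Agent.Lib_helper18.Eis Pool.Agent.Lib_helper84.Cub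
open Pool.Agent.PT Pool.Agent.PTE Pool.Agent.PT3

namespace NHPT

open Pool.Agent.PT.EBAS

/-! ### Linear algebra -/

/-- A basis adapted to two linear forms. -/
theorem fam {M : Type} [AddCommGroup M] [Module (ZMod 3) M] [Module.Finite (ZMod 3) M]
    (A W : M →ₗ[ZMod 3] ZMod 3) (h : ℕ) (β : ZMod 3)
    (hh : h = 1 ∨ (h = 2 ∧ ∀ x, W x + A x * β = 0) ∨
      (h = 0 ∧ (∀ x, A x = 0) ∧ (β = 0 → ∀ x, W x = 0))) :
    ∃ (s : ℕ) (b : Fin s → M) (τ : Fin s → Fin 3), s = Module.finrank (ZMod 3) M ∧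
      (∀ g : Fin s → ZMod 3, ∑ i, g i • b i = 0 → ∀ i, g i = 0) ∧
      (∀ x, ∃ g : Fin s → ZMod 3, x = ∑ i, g i • b i) ∧
      (∀ i, τ i = 0 → A (b i) = 0 ∧ W (b i) = 0) ∧
      (∀ i, τ i = 1 → A (b i) = (h : ZMod 3) ∧ W (b i) = β ∧ ¬ (A (b i) = 0 ∧ W (b i) = 0)) ∧
      (∀ i, τ i = 2 → h = 1 ∧ ¬ (A (b i) = 0 ∧ W (b i) = 0)) ∧
      (∀ i j, τ i = τ j → τ i ≠ 0 → i = j) ∧
      (∀ i j, i ≠ j → A (b i) = 0 ∨ A (b j) = 0) := by
  rcases hh with h1 | ⟨h2, hw⟩ | ⟨h0, hA, hW⟩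
  · have hβ : (h : ZMod 3) ≠ 0 := by
      rw [h1]
      decide
    obtain ⟨s, b, τ, hs, hli, hsp, ht0, ht1, ht2, hinj, hA'⟩ :=
      PT3.EHPT.family A W (h : ZMod 3) β hβ (h = 1) (Or.inl h1)
    exact ⟨s, b, τ, hs, hli, hsp, ht0, fun i hi => ⟨(ht1 i hi).1, (ht1 i hi).2,
      fun h3 => hβ ((ht1 i hi).1.symm.trans h3.1)⟩, ht2, hinj, hA'⟩
  · have hβ : (h : ZMod 3) ≠ 0 := by
      rw [h2]
      decide
    obtain ⟨s, b, τ, hs, hli, hsp, ht0, ht1, ht2, hinj, hA'⟩ :=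
      PT3.EHPT.family A W (h : ZMod 3) β hβ (h = 1) (Or.inr fun x => by
        have h5 : (h : ZMod 3) = -1 := by
          rw [h2]
          decide
        rw [h5, eq_neg_of_add_eq_zero_left (hw x)]
        ring)
    exact ⟨s, b, τ, hs, hli, hsp, ht0, fun i hi => ⟨(ht1 i hi).1, (ht1 i hi).2,
      fun h3 => hβ ((ht1 i hi).1.symm.trans h3.1)⟩, ht2, hinj, hA'⟩
  · by_cases hβ : β = 0
    · obtain ⟨s, b, τ, hs, hli, hsp, ht0, ht1, ht2, hinj, -⟩ :=
        PT3.EHPT.family A W 1 0 one_ne_zero False (Or.inr fun x => by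
          rw [hA x, hW hβ x]
          ring)
      refine ⟨s, b, τ, hs, hli, hsp, fun i _ => ⟨hA _, hW hβ _⟩, fun i hi => ?_,
        fun i hi => (ht2 i hi).1.elim, hinj, fun i j _ => Or.inl (hA _)⟩
      exfalso
      have h3 := (ht1 i hi).1
      rw [hA] at h3
      exact zero_ne_one h3
    · obtain ⟨s, b, τ, hs, hli, hsp, ht0, ht1, ht2, hinj, -⟩ :=
        PT3.EHPT.family W A β 0 hβ False (Or.inr fun x => by
          rw [hA x]
          ring)
      refine ⟨s, b, τ, hs, hli, hsp, fun i hi => ⟨(ht0 i hi).2, (ht0 i hi).1⟩, fun i hi => ?_,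
        fun i hi => (ht2 i hi).1.elim, hinj, fun i j _ => Or.inl (hA _)⟩
      obtain ⟨h3, h4⟩ := ht1 i hi
      refine ⟨?_, h3, fun h5 => hβ (h3.symm.trans h5.2)⟩
      rw [h4, h0]
      rfl

/-! ### Exponent vectors -/

/-- exponent vectors as elements of `E3` -/
def toE {m k : ℕ} : (Col m k → ZMod 3) →ₗ[ZMod 3] PT3.EHPT.E3 m k where
  toFun u := (u (Sum.inl 0), (fun i => u (Sum.inl i.succ), fun j => u (Sum.inr j)))
  map_add' := by
    intro u v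
    rfl
  map_smul' := by
    intro t u
    rfl

theorem toE_inj {m k : ℕ} {u v : Col m k → ZMod 3} (h : toE u = toE v) : u = v := by
  have h1 : u (Sum.inl 0) = v (Sum.inl 0) := congrArg Prod.fst h
  have h2 : ∀ i : Fin m, u (Sum.inl i.succ) = v (Sum.inl i.succ) := fun i =>
    congrFun (congrArg (fun z => z.2.1) h) i
  have h3 : ∀ j : Fin k, u (Sum.inr j) = v (Sum.inr j) := fun j =>
    congrFun (congrArg (fun z => z.2.2) h) j
  funext b
  rcases b with a | j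
  · induction a using Fin.cases with
    | zero => exact h1
    | succ i => exact h2 i
  · exact h3 j

theorem toE_exv {m k : ℕ} (p : Fin m → ℕ) (r : Fin k → ℕ) (x : ℤ) :
    toE (exv p r x) = PT3.EHPT.e3 p r x := rfl

/-- the number with given exponents -/
def NC {m k : ℕ} (p : Fin m → ℕ) (r : Fin k → ℕ) (u : Col m k → ZMod 3) : ℤ :=
  PT3.EHPT.N3 p r (toE u)

section

variable {n m k : ℕ} {π : Fin m → PP} {p e : Fin m → ℕ} {r f : Fin k → ℕ}

theorem exv_NC (hLCL : LCL) (h : NF n π p e r f) (u : Col m k → ZMod 3) :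
    exv p r (NC p r u) = u :=
  toE_inj (by rw [toE_exv]; exact PT3.EHPT.e3_N3 hLCL h (toE u))

theorem exv_prod (hLCL : LCL) (h : NF n π p e r f) {s : ℕ} (x : Fin s → ℤ)
    (hx : ∀ i, x i ≠ 0) (g : Fin s → ℕ) :
    exv p r (∏ i, x i ^ g i) = ∑ i, (g i : ZMod 3) • exv p r (x i) := by
  refine toE_inj ?_
  rw [toE_exv, PT3.EHPT.e3_prod hLCL h x hx g, map_sum]
  exact Finset.sum_congr rfl fun i _ => by rw [map_smul, toE_exv]

theorem exv_cube (hLCL : LCL) (h : NF n π p e r f) (t : ℤ) (ht : t ≠ 0) :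
    exv p r (t ^ 3) = 0 := by
  refine toE_inj ?_
  rw [toE_exv, PT3.EHPT.e3_cube hLCL h t ht, map_zero]

end

end NHPT

open _root_.Pool.Agent.PTN.NHPT in
/-- NHPT: bases adapted to a hyperplane. -/
theorem NHPT_thm (hV : Stmt_NVEC) (hEVET : EVET) (_hSTM : STM) (hSPP : SPP) (hLPT : LPT)
    (hLCL : LCL) : Stmt_NHPT := by
  classical
  intro h n m k π p e r f w0 c hNF hh
  obtain ⟨hE1, hE2⟩ := hEVET h n m k π p e r f w0 c hNF
  obtain ⟨hV1, hV2, -⟩ := hV h n m k π p e r f w0 c hNF hh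
  have hne : ∀ u : Col m k → ZMod 3, NC p r u ≠ 0 := fun u => PT3.EHPT.N3_ne hNF _
  have hsupp : ∀ (u : Col m k → ZMod 3) (l : ℕ), l.Prime → (l : ℤ) ∣ NC p r u → l ∣ 3 * n :=
    fun u => PT3.EHPT.N3_supp hNF _
  have hex : ∀ u : Col m k → ZMod 3, exv p r (NC p r u) = u := exv_NC hLCL hNF
  set S : Submodule (ZMod 3) (Col m k → ZMod 3) := US h n π p e r w0 c with hS
  set β : ZMod 3 := wt ((n : ℤ) ^ 2) + w0 with hβdef
  have hadmB : ∀ u : S, AdN h n π w0 c (NC p r (u : Col m k → ZMod 3)) := by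
    intro u
    rw [hV1 _ (hne _) (hsupp _), hex]
    exact u.2
  -- from equal exponents to equality up to cubes
  have hcub : ∀ x x' : ℤ, x ≠ 0 → x' ≠ 0 → (∀ l : ℕ, l.Prime → (l : ℤ) ∣ x → l ∣ 3 * n) →
      (∀ l : ℕ, l.Prime → (l : ℤ) ∣ x' → l ∣ 3 * n) → exv p r x = exv p r x' →
      ∃ u v : ℤ, u ≠ 0 ∧ v ≠ 0 ∧ x * u ^ 3 = x' * v ^ 3 := fun x x' h1 h2 h3 h4 h5 =>
    (hV2 x x' h1 h2 h3 h4).mpr h5
  have hspan : ∀ (s : ℕ) (b : Fin s → S) (x : ℤ), AdN h n π w0 c x →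
      (∃ g : Fin s → ZMod 3, exv p r x = ∑ i, g i • (b i : Col m k → ZMod 3)) →
      ∃ (g : Fin s → ℕ) (u t : ℤ), u ≠ 0 ∧ t ≠ 0 ∧
        x * u ^ 3 = (∏ i, NC p r (b i : Col m k → ZMod 3) ^ g i) * t ^ 3 := by
    intro s b x hx hg
    obtain ⟨g, hg⟩ := hg
    have hne' : ∏ i : Fin s, NC p r (b i : Col m k → ZMod 3) ^ (g i).val ≠ 0 :=
      Finset.prod_ne_zero_iff.mpr fun i _ => pow_ne_zero _ (hne _)
    have h1 := exv_prod hLCL hNF (fun i : Fin s => NC p r (b i : Col m k → ZMod 3))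
      (fun i => hne _) (fun i => (g i).val)
    simp only [hex, ZMod.natCast_zmod_val] at h1
    obtain ⟨u, t, hu, ht, hut⟩ := hcub x _ hx.1.ne hne' hx.1.supp (fun l hl hd => by
      obtain ⟨i, -, hi⟩ := (Nat.prime_iff_prime_int.mp hl).dvd_finsetProd_iff _ |>.mp hd
      exact hsupp _ l hl ((Nat.prime_iff_prime_int.mp hl).dvd_of_dvd_pow hi)) (by rw [h1, hg])
    exact ⟨fun i => (g i).val, u, t, hu, ht, hut⟩
  -- the two forms
  have hLV0 : ∀ u : Col m k → ZMod 3, lv (NC p r u) = u (Sum.inl 0) := fun u =>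
    PT3.EHPT.lv_N3 hLCL hNF _
  have hLW0 : ∀ u : Col m k → ZMod 3, lw (NC p r u) = EBAS.Wm p r (toE u).2 := by
    intro u
    rw [(hE1 _ (hne _) (hsupp _)).2]
    change EBAS.Wm p r (EBAS.ev p r (NC p r u)) = EBAS.Wm p r (toE u).2
    have h1 : PT3.EHPT.e3 p r (NC p r u) = toE u := PT3.EHPT.e3_N3 hLCL hNF _
    have h2 : EBAS.ev p r (NC p r u) = (toE u).2 := congrArg Prod.snd h1
    rw [h2]
  let A : S →ₗ[ZMod 3] ZMod 3 := (LinearMap.proj (Sum.inl 0 : Col m k)).comp S.subtype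
  let W : S →ₗ[ZMod 3] ZMod 3 := (EBAS.Wm p r).comp
    ((LinearMap.snd (ZMod 3) (ZMod 3) (EBAS.EV m k)).comp (toE.comp S.subtype))
  have hLV : ∀ u : S, lv (NC p r (u : Col m k → ZMod 3)) = A u := fun u => hLV0 _
  have hLW : ∀ u : S, lw (NC p r (u : Col m k → ZMod 3)) = W u := fun u => hLW0 _
  have hAW : h = 1 ∨ (h = 2 ∧ ∀ x : S, W x + A x * β = 0) ∨
      (h = 0 ∧ (∀ x : S, A x = 0) ∧ (β = 0 → ∀ x : S, W x = 0)) := by
    have h3 : h = 1 ∨ h = 2 ∨ h = 0 := by omega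
    rcases h3 with h3 | h3 | h3
    · exact Or.inl h3
    · refine Or.inr (Or.inl ⟨h3, fun x => ?_⟩)
      have h4 := (hadmB x).1.wild h3
      rw [hLV, hLW] at h4
      exact h4
    · refine Or.inr (Or.inr ⟨h3, fun x => ?_, fun hb x => ?_⟩)
      · have h4 := ((hadmB x).2 h3).1
        rw [hLV] at h4
        exact h4
      · have h4 := ((hadmB x).2 h3).2 hb
        rw [hLW] at h4
        exact h4
  let B0 : Module.Basis (Fin (Module.finrank (ZMod 3) S)) (ZMod 3) S :=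
    Module.finBasisOfFinrankEq (ZMod 3) S rfl
  refine ⟨_, fun i => NC p r (B0 i : Col m k → ZMod 3), rfl, fun i => hadmB _, fun x hx => ?_,
    fun δ hδ => ?_⟩
  · refine hspan _ (fun i => B0 i) x hx ⟨fun i => B0.repr ⟨exv p r x,
      (hV1 x hx.1.ne hx.1.supp).mp hx⟩ i, ?_⟩
    have h3 := congrArg (fun z : S => (z : Col m k → ZMod 3))
      (B0.sum_repr ⟨exv p r x, (hV1 x hx.1.ne hx.1.supp).mp hx⟩)
    simp only [AddSubmonoidClass.coe_finsetSum] at h3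
    exact h3.symm
  let D : S →ₗ[ZMod 3] ZMod 3 := B0.constr (ZMod 3) δ
  have hDB : ∀ i, D (B0 i) = δ i := fun i => B0.constr_basis (ZMod 3) δ i
  have hD : D ≠ 0 := by
    intro h0
    apply hδ
    funext i
    rw [← hDB i, h0]
    rfl
  obtain ⟨s, b', τ, hs, hli, hsp, ht0, ht1, ht2, hinj, hA'⟩ := fam
    (M := LinearMap.ker D) (A.comp (LinearMap.ker D).subtype) (W.comp (LinearMap.ker D).subtype)
    h β (by
      rcases hAW with h1 | ⟨h1, h2⟩ | ⟨h1, h2, h3⟩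
      · exact Or.inl h1
      · exact Or.inr (Or.inl ⟨h1, fun x => h2 (x : S)⟩)
      · exact Or.inr (Or.inr ⟨h1, fun x => h2 (x : S), fun hb x => h3 hb (x : S)⟩))
  have hrk : Module.finrank (ZMod 3) (LinearMap.ker D) + 1 = Module.finrank (ZMod 3) S := by
    have h1 := LinearMap.finrank_range_add_finrank_ker D
    rw [LinearMap.range_eq_top.mpr (LinearMap.surjective hD), finrank_top,
      Module.finrank_self] at h1
    omega
  have hDb : ∀ i, D (b' i : S) = 0 := fun i => LinearMap.mem_ker.mp (b' i).2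
  obtain ⟨y0, hy0⟩ : ∃ y, D y ≠ 0 := by
    by_contra hc
    push Not at hc
    exact hD (LinearMap.ext hc)
  obtain ⟨y, hy, hyA⟩ : ∃ y : S, D y ≠ 0 ∧ (A y = 0 ∨ ∀ i, A (b' i : S) = 0) := by
    by_cases h1 : ∀ i, A (b' i : S) = 0
    · exact ⟨y0, hy0, Or.inr h1⟩
    · push Not at h1
      obtain ⟨i0, hi0⟩ := h1
      refine ⟨y0 - (A y0 / A (b' i0 : S)) • (b' i0 : S), ?_, Or.inl ?_⟩
      · rw [map_sub, map_smul, hDb, smul_zero, sub_zero]
        exact hy0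
      · rw [map_sub, map_smul, smul_eq_mul, div_mul_cancel₀ _ hi0, sub_self]
  let b : Fin (s + 1) → S := Fin.snoc (α := fun _ => S) (fun i => (b' i : S)) y
  have hb1 : ∀ i : Fin s, b i.castSucc = (b' i : S) := fun i =>
    Fin.snoc_castSucc (α := fun _ => S) _ _ _
  have hb2 : b (Fin.last s) = y := Fin.snoc_last (α := fun _ => S) _ _
  have hbli : ∀ g : Fin (s + 1) → ZMod 3, ∑ i, g i • b i = 0 → ∀ i, g i = 0 := by
    intro g hg
    rw [Fin.sum_univ_castSucc, hb2] at hg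
    simp only [hb1] at hg
    have hl : g (Fin.last _) = 0 := by
      have h1 := congrArg D hg
      rw [map_add, map_sum, map_smul, map_zero, smul_eq_mul] at h1
      have h2 : ∑ i, D (g (Fin.castSucc i) • (b' i : S)) = 0 :=
        Finset.sum_eq_zero fun i _ => by rw [map_smul, hDb, smul_zero]
      rw [h2, zero_add] at h1
      exact (mul_eq_zero.mp h1).resolve_right hy
    rw [hl, zero_smul, add_zero] at hg
    have h3 : ∑ i, g (Fin.castSucc i) • b' i = 0 := by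
      apply Subtype.ext
      rw [AddSubmonoidClass.coe_finsetSum]
      exact hg
    have h4 := hli _ h3
    intro i
    induction i using Fin.lastCases with
    | last => exact hl
    | cast i => exact h4 i
  have hbA : ∀ i j, i ≠ j → A (b i) = 0 ∨ A (b j) = 0 := by
    intro i j hij
    induction i using Fin.lastCases with
    | last =>
      induction j using Fin.lastCases with
      | last => exact absurd rfl hij
      | cast j =>
        rw [hb2, hb1]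
        rcases hyA with h1 | h1
        · exact Or.inl h1
        · exact Or.inr (h1 j)
    | cast i =>
      induction j using Fin.lastCases with
      | last =>
        rw [hb2, hb1]
        rcases hyA with h1 | h1
        · exact Or.inr h1
        · exact Or.inl (h1 i)
      | cast j =>
        rw [hb1, hb1]
        exact hA' i j fun h1 => hij (congrArg _ h1)
  have hXY : ∀ i : Fin s, ∃ X Y : ℤ, (τ i ≠ 2 → X = 1 ∧ Y = 0) ∧ (τ i = 2 → X ≠ 0 ∧ Y ≠ 0 ∧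
      X ^ 3 + NC p r ((b' i : S) : Col m k → ZMod 3) * Y ^ 3 ≠ 0 ∧
      lv (NC p r ((b' i : S) : Col m k → ZMod 3) *
        (X ^ 3 + NC p r ((b' i : S) : Col m k → ZMod 3) * Y ^ 3)) = 1 ∧
      lw (NC p r ((b' i : S) : Col m k → ZMod 3) *
        (X ^ 3 + NC p r ((b' i : S) : Col m k → ZMod 3) * Y ^ 3)) = β) := by
    intro i
    by_cases hi : τ i = 2
    · obtain ⟨X, Y, h1⟩ := hLPT (NC p r ((b' i : S) : Col m k → ZMod 3)) β
        (hne _) (by rw [hLV, hLW]; exact (ht2 i hi).2)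
      exact ⟨X, Y, fun h2 => absurd hi h2, fun _ => h1⟩
    · exact ⟨1, 0, fun _ => ⟨rfl, rfl⟩, fun h2 => absurd h2 hi⟩
  choose X Y hXY1 hXY2 using hXY
  have h12 : (1 : Fin 3) ≠ 2 := by decide
  have hD3 : ∀ x : S, D x = 0 → ∃ g : Fin s → ZMod 3, x = ∑ i, g i • b i.castSucc := by
    intro x hx
    obtain ⟨g, hg⟩ := hsp ⟨x, LinearMap.mem_ker.mpr hx⟩
    refine ⟨g, ?_⟩
    simp only [hb1]
    have h3 := congrArg (fun z : LinearMap.ker D => (z : S)) hg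
    simp only [AddSubmonoidClass.coe_finsetSum] at h3
    exact h3
  refine ⟨s, τ, fun i => NC p r (b i : Col m k → ZMod 3), X, Y, by omega, fun i => hadmB _,
    fun i π' => PT3.EHPT.V_N3_le hSPP hNF _ π', fun g hg => ?_, fun i j hij => ?_,
    fun B hB => ?_, fun ρ hρ => ?_⟩
  · rintro ⟨t, ht⟩
    have hprod : ∏ i, NC p r (b i : Col m k → ZMod 3) ^ g i ≠ 0 :=
      Finset.prod_ne_zero_iff.mpr fun i _ => pow_ne_zero _ (hne _)
    have ht0 : t ≠ 0 := by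
      rintro rfl
      apply hprod
      rw [← ht]
      norm_num
    have h1 := exv_prod hLCL hNF (fun i => NC p r (b i : Col m k → ZMod 3)) (fun i => hne _) g
    rw [← ht, exv_cube hLCL hNF t ht0] at h1
    simp only [hex] at h1
    have h2 : ∑ i, (g i : ZMod 3) • b i = 0 := by
      apply Subtype.ext
      rw [AddSubmonoidClass.coe_finsetSum]
      exact h1.symm
    have h3 := hbli _ h2
    obtain ⟨i, hi⟩ := hg
    exact hi ((ZMod.natCast_eq_zero_iff _ _).mp (h3 i))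
  · rcases hbA i j hij with h2 | h2
    · exact Or.inl (PT3.EHPT.not_three_N3 hNF _ h2)
    · exact Or.inr (PT3.EHPT.not_three_N3 hNF _ h2)
  · obtain ⟨hB0, hB1, hB2⟩ := hB
    have hrv : ∀ i : Fin s, rv (fun i => NC p r (b i : Col m k → ZMod 3)) i =
        NC p r ((b' i : S) : Col m k → ZMod 3) := by
      intro i
      change NC p r (b i.castSucc : Col m k → ZMod 3) = _
      rw [hb1]
    refine ⟨fun i hi => ?_, fun i hi => ?_, fun i hi => ?_, fun i j hij hi => ?_⟩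
    · rw [hrv, hLCL.1 _ (hne _), hLV, hLW]
      exact ht0 i hi
    · obtain ⟨h1, h2, h3⟩ := ht1 i hi
      rw [hrv, hLCL.1 _ (hne _), hLV, hLW, hB1, hB2]
      exact ⟨h3, h1, h2, hXY1 i (by rw [hi]; exact h12)⟩
    · obtain ⟨h1, h2⟩ := ht2 i hi
      obtain ⟨h3, h4, h5, h6, h7⟩ := hXY2 i hi
      rw [hrv, hLCL.1 _ (hne _), hLV, hLW, hB1]
      refine ⟨h2, by rw [h1]; decide, ⟨h3, h4, h5, ?_, ?_⟩⟩
      · rw [h6, hB1, h1]
        decide
      · rw [h7, hB2]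
    · exact hinj i j hij hi
  · let F : S →ₗ[ZMod 3] ZMod 3 := sym ρ.1 3 • A +
      (PTE.EHPL.Fm (fun i => ch ρ.1 (p i : Eis)) (fun j => ch ρ.1 (r j : Eis))).comp
        ((LinearMap.snd (ZMod 3) (ZMod 3) (EBAS.EV m k)).comp (toE.comp S.subtype))
    have hFx : ∀ (x : ℤ) (hx : AdN h n π w0 c x),
        sym ρ.1 (x : Eis) = F ⟨exv p r x, (hV1 x hx.1.ne hx.1.supp).mp hx⟩ := by
      intro x hx
      rw [PT3.EHPT.sym_eq hSPP hNF ρ hρ hx.1.ne hx.1.supp]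
      change (PT3.EHPT.e3 p r x).1 * sym ρ.1 3 + _ = sym ρ.1 3 * (PT3.EHPT.e3 p r x).1 + _
      rw [mul_comm]
      rfl
    have hF : ∀ u : S, sym ρ.1 (NC p r (u : Col m k → ZMod 3) : Eis) = F u := by
      intro u
      rw [hFx _ (hadmB u)]
      congr 1
      exact Subtype.ext (hex _)
    refine ⟨⟨fun hρ2 => ?_, fun hε => ?_⟩, fun hρ0 hρ1 x hx hx0 => ?_⟩
    · obtain ⟨hρ0, hρ1⟩ := hρ2
      have hF0 : ∀ u : S, D u = 0 → F u = 0 := by
        intro u hu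
        obtain ⟨g, hg⟩ := hD3 u hu
        rw [hg, map_sum]
        refine Finset.sum_eq_zero fun i _ => ?_
        rw [map_smul, ← hF, hρ0 i, smul_zero]
      obtain ⟨ε, hε, hFD⟩ := PTE.EHPL.form_eq D F hF0 (b (Fin.last s)) (by rw [hb2]; exact hy)
        (by rw [← hF]; exact hρ1)
      exact ⟨ε, hε, fun i => by rw [hF, hFD, hDB]⟩
    · obtain ⟨ε, hε, hv⟩ := hε
      have hFD : F = ε • D := by
        refine B0.ext fun i => ?_
        rw [← hF, hv i, LinearMap.smul_apply, hDB, smul_eq_mul]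
      refine ⟨fun i => ?_, ?_⟩
      · rw [hF, hFD, LinearMap.smul_apply, hb1, hDb, smul_zero]
      · rw [hF, hFD, LinearMap.smul_apply, hb2, smul_eq_mul]
        exact mul_ne_zero hε hy
    · have hF0 : ∀ u : S, D u = 0 → F u = 0 := by
        intro u hu
        obtain ⟨g, hg⟩ := hD3 u hu
        rw [hg, map_sum]
        refine Finset.sum_eq_zero fun i _ => ?_
        rw [map_smul, ← hF, hρ0 i, smul_zero]
      obtain ⟨ε, hε, hFD⟩ := PTE.EHPL.form_eq D F hF0 (b (Fin.last s)) (by rw [hb2]; exact hy)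
        (by rw [← hF]; exact hρ1)
      have hDx : D ⟨exv p r x, (hV1 x hx.1.ne hx.1.supp).mp hx⟩ = 0 := by
        have h1 := hFD ⟨exv p r x, (hV1 x hx.1.ne hx.1.supp).mp hx⟩
        rw [← hFx x hx, hx0] at h1
        exact (mul_eq_zero.mp h1.symm).resolve_left hε
      obtain ⟨g, hg⟩ := hD3 _ hDx
      refine hspan s (fun i : Fin s => b i.castSucc) x hx ⟨g, ?_⟩
      have h3 := congrArg (fun z : S => (z : Col m k → ZMod 3)) hg
      simp only [AddSubmonoidClass.coe_finsetSum] at h3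
      exact h3

end Pool.Agent.PTN

end

section

/-!
# The average rank of prime twists: the Hasse norm theorem for `K(x^(1/3)) / K`, assembly
-/

set_option autoImplicit false

open NumberField IsDedekindDomain Finset
open scoped nonZeroDivisors Pointwise

namespace Pool.Agent.PTK

open Pool.Agent.Lib_helper18 Pool.Agent.Lib_helper18.Eis Pool.Agent.Lib_helper84.Cub
open Pool.Agent.PT

namespace HNE

theorem cube_of {y a b : Eis} (hb : b ≠ 0) (h : a ^ 3 = y * b ^ 3) : ∃ c : Eis, c ^ 3 = y := by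
  have h1 : b ^ 3 ∣ a ^ 3 := ⟨y, by rw [h, mul_comm]⟩
  have h2 : b ∣ a := (IsIntegrallyClosed.pow_dvd_pow_iff (by norm_num : (3 : ℕ) ≠ 0)).1 h1
  obtain ⟨c, rfl⟩ := h2
  refine ⟨c, mul_right_cancel₀ (pow_ne_zero 3 hb) ?_⟩
  rw [← h]
  ring

theorem sol {x y p q p' q' : Eis} (hx : x ≠ 0) (hy : ¬ ∃ c : Eis, c ^ 3 = y)
    (h : SolWE x y p q p' q') : SolE x y p q p' q' := by
  have hn : p' ^ 3 + x * q' ^ 3 ≠ 0 := by
    intro h1
    apply h.n1
    rw [h.eq, h1, mul_zero]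
  have n2 : p ^ 3 - y * p' ^ 3 ≠ 0 := by
    intro h1
    have h2 : p ^ 3 = y * p' ^ 3 := sub_eq_zero.1 h1
    rcases eq_or_ne p' 0 with h3 | h3
    · have h4 : p = 0 := by
        apply pow_eq_zero_iff (n := 3) (by norm_num) |>.1
        rw [h2, h3]
        ring
      have h5 := h.eq
      have h6 : q ^ 3 = y * q' ^ 3 := by
        apply mul_left_cancel₀ hx
        rw [h3, h4] at h5
        linear_combination h5
      rcases eq_or_ne q' 0 with h7 | h7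
      · apply hn
        rw [h3, h7]
        ring
      · exact hy (cube_of h7 h6)
    · exact hy (cube_of h3 h2)
  have g : ∀ i : ℕ, GfE p q p' q' i ≠ 0 := by
    intro i h1
    unfold GfE at h1
    have h2 : q * p' = w ^ i * p * q' := sub_eq_zero.1 h1
    have h3 : q ^ 3 * p' ^ 3 = p ^ 3 * q' ^ 3 := by
      have h4 : (w ^ i) ^ 3 = 1 := by rw [← pow_mul, mul_comm, pow_mul, w_cube, one_pow]
      calc q ^ 3 * p' ^ 3 = (q * p') ^ 3 := by ring
        _ = (w ^ i) ^ 3 * (p ^ 3 * q' ^ 3) := by rw [h2]; ring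
        _ = p ^ 3 * q' ^ 3 := by rw [h4, one_mul]
    have h5 : (p ^ 3 - y * p' ^ 3) * (p' ^ 3 + x * q' ^ 3) = 0 := by
      linear_combination (- x) * h3 - p' ^ 3 * (- h.eq)
    rcases mul_eq_zero.1 h5 with h6 | h6
    · exact n2 h6
    · exact hn h6
  exact { toSolWE := h, n2 := n2, g1 := g 1, g2 := g 2 }

end HNE

/-- the Hasse norm theorem, with nondegenerate solutions -/
theorem HNE_thm (hNFL : Stmt_NFL) (hNMN : Stmt_NMN) (hNDS : Stmt_NDS) : Stmt_HNE := by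
  intro x y hx h9 hxc hV hy hyc htm hd
  obtain ⟨L, _, _, ι, θ, σ, hC⟩ := hNFL x hx hxc
  obtain ⟨z, hz, hN⟩ := hNMN x L ι θ σ hx h9 hV hxc hC y hy htm hd
  obtain ⟨p, q, p', q', hs⟩ := hNDS x L ι θ σ hx hC y z hy hz hN
  exact ⟨p, q, p', q', HNE.sol hx hyc hs⟩

end Pool.Agent.PTK

end

section

/-!
# Frobenius elements when all the `b j` are cubes modulo `Q`, for both prime factors
-/

set_option autoImplicit false

open NumberField IsDedekindDomain Finset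
open scoped nonZeroDivisors Pointwise

namespace Pool.Agent.PTK

open Pool.Agent.Lib_helper18 Pool.Agent.Lib_helper18.Eis Pool.Agent.Lib_helper84.Cub
open Pool.Agent.PT Pool.Agent.PTE Pool.Agent.PT3 Pool.Agent.PTL Pool.Agent.PTN

/-- GFZ: Frobenius elements when all the `b j` are cubes modulo `Q`, `Q = 1 (mod 3)`. -/
theorem GFZ_thm (hSPLT : SPLT) : Stmt_GFZ := by
  classical
  intro s b p q p' q' f L _ _ ζ ω hS hG
  let B : Fin s → Fin s → ℕ := fun j i => (b j).natAbs +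
    (p j i ^ 3 + b j * q j i ^ 3).natAbs + (p' j i ^ 3 + b j * q' j i ^ 3).natAbs
  refine ⟨∑ j, ∑ i, B j i, fun Q hQ hQN hQ3 P hP hQP φ hφ ρ hρQ hsym => ?_⟩
  have hB : ∀ j i, B j i < Q := by
    intro j i
    refine lt_of_le_of_lt ?_ hQN
    have h1 : B j i ≤ ∑ i, B j i :=
      Finset.single_le_sum (f := fun i => B j i) (fun _ _ => Nat.zero_le _) (Finset.mem_univ i)
    refine h1.trans ?_
    exact Finset.single_le_sum (f := fun j => ∑ i, B j i) (fun _ _ => Nat.zero_le _)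
      (Finset.mem_univ j)
  have hb : ∀ j, ¬ (Q : ℤ) ∣ b j := fun j =>
    GFR.not_dvd_of_lt (PTE.GFRS.ne_zero hS j)
      (by have := hB j j; simp only [B] at this; omega)
  have hd1 : ∀ j i : Fin s, j ≠ i →
      ¬ (Q : ℤ) ∣ p j i ^ 3 + b j * q j i ^ 3 ∧
      ¬ (Q : ℤ) ∣ p' j i ^ 3 + b j * q' j i ^ 3 := by
    intro j i hji
    have hsol := hS.sol j i hji
    have h2 : p' j i ^ 3 + b j * q' j i ^ 3 ≠ 0 := by
      intro h0
      refine hsol.n1 ?_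
      rw [hsol.eq, h0, mul_zero]
    have hBji := hB j i
    simp only [B] at hBji
    have e1 := GFR.not_dvd_of_lt (Q := Q) hsol.n1 (by omega)
    have e2 := GFR.not_dvd_of_lt (Q := Q) h2 (by omega)
    exact ⟨e1, e2⟩
  obtain ⟨ωB, ρ₀, F, _, mk, z, ψ, rfl, hρ₀, D⟩ :=
    PTE.GFRS.exists_dat hSPLT SPP_thm hQ hP hQP hQ3 hφ hG.rel
  -- the statement for the prime factor compatible with `P`
  have key1 : (∀ j : Fin s, sym ρ₀.1 (b j : Eis) = 0) →
      ∀ (j : Fin s) (θ : L), θ ^ 3 = (b j : L) → φ θ = θ := by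
    intro h1 j θ hθ
    obtain ⟨θB, rfl, hθB⟩ := PTE.GFRS.exists_int hθ
    by_contra h3
    exact D.sym_ne hθB (hb _)
      (fun h => h3 (congrArg (fun x : 𝓞 L => (x : L)) h)) (h1 j)
  have key2 : (∀ (j : Fin s) (θ : L), θ ^ 3 = (b j : L) → φ θ = θ) →
      ∀ j i : Fin s, j ≠ i → ∀ (r : ℤ) (t : ZMod 3), (Q : ℤ) ∣ r ^ 3 - b j →
      IsTS b p q p' q' (ωB : L) φ j i t →
      t = TAUVS ρ₀.1 (p j i) (q j i) (p' j i) (q' j i) r := by
    intro hF j i hji r t hr ht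
    obtain ⟨e1, e2⟩ := hd1 j i hji
    obtain ⟨θ₀, hθ₀⟩ := hG.root j
    obtain ⟨θ₁, rfl, hθ₁⟩ := PTE.GFRS.exists_int hθ₀
    obtain ⟨θ, hθ, hrθ⟩ := D.exists_root hr hθ₁
    have hθL : (θ : L) ^ 3 = (b j : L) := by
      rw [← map_pow, hθ, map_intCast]
    obtain ⟨A, hA⟩ := hG.A j i hji θ hθL
    exact D.core e1 e2 hr hrθ (hF j θ hθL) hA (ht θ A hθL hA)
  -- the other prime factor
  obtain ⟨-, -, h3, h4, h5, -⟩ := hSPLT.2 Q ρ₀ hQ hQ3 hρ₀
  have hC : GFRU.CJ ρ₀.1 Q := ⟨h4, h5⟩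
  rcases h3 ρ ⟨conj ρ.1, hρQ⟩ with h6 | h6
  · rw [h6] at hsym ⊢
    have hF := key1 hsym
    exact ⟨D.fω, hF, key2 hF⟩
  · rw [h6] at hsym ⊢
    have hF := key1 fun j => by
      have h7 := hsym j
      rwa [hC.int (hb _), neg_eq_zero] at h7
    refine ⟨D.fω, hF, fun j i hji r t hr ht => ?_⟩
    rw [hC.tauvs (hd1 j i hji).1 (hd1 j i hji).2 hr]
    exact key2 hF j i hji r t hr ht

end Pool.Agent.PTK

end

section

/-!
# PTK, module NM2: the norm theorem for `K(x^(1/3)) / K`, base not a local cube at `λ`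

As `PTK/NMN.lean` (helper54), with `NG2` in place of `NGN` (helper62).
-/

set_option autoImplicit false

open NumberField IsDedekindDomain Finset
open scoped nonZeroDivisors Pointwise

namespace Pool.Agent.PTK

open Pool.Agent.Lib_helper18 Pool.Agent.Lib_helper18.Eis Pool.Agent.Lib_helper84.Cub
open Pool.Agent.PT

open Pool.Agent.PT.NMAIN

/-- NM2. -/
theorem NM2_thm (hSTM : STM) (hSPP : SPP) (hSSL : SSL) (hSLC : SLC)
    (hHERBQ : HERBQ) (hSUN : SUN) (hNRK : Stmt_NRK) (hNHN : Stmt_NHN) (hNTR : Stmt_NTR)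
    (hNCN : Stmt_NCN) (hNFX : Stmt_NFX) (hNHO : Stmt_NHO) (hNNS : Stmt_NNS)
    (hNG2 : Stmt_NG2) : Stmt_NM2 := by
  classical
  intro x L _ _ ι θ σ hxE hxP hxl hV hcube hF y hyE htm hyLC
  have hx3 : ¬ lam ∣ x := hxP.not_lam_dvd
  have hι := hF.inj
  have hι0 : ∀ a : Eis, a ≠ 0 → ι a ≠ 0 := fun a ha h => ha (hι (by rw [h, map_zero]))
  -- the set of places
  obtain ⟨S₀, hS₀⟩ : ∃ S₀ : Finset Pl, ∀ v, v ∈ S₀ ↔ v = none ∨
      ∃ π : PP, v = some π ∧ (π.1 ∣ x ∨ π.1 ∣ y) := by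
    have hfin : ({v : Pl | v = none ∨ ∃ π : PP, v = some π ∧
        (π.1 ∣ x ∨ π.1 ∣ y)}).Finite := by
      have h1 := (hSPP.2.2.1 x hxE).union (hSPP.2.2.1 y hyE)
      refine ((h1.image some).insert none).subset ?_
      rintro v (rfl | ⟨π, rfl, h⟩)
      · exact Set.mem_insert _ _
      · exact Set.mem_insert_of_mem _ ⟨π, h, rfl⟩
    exact ⟨hfin.toFinset, fun v => hfin.mem_toFinset⟩
  obtain ⟨S, e, d, hSS, hSLC', hcard, hd0, hdS, hdind, hdsym⟩ := hNG2 x S₀ hxE hxP hxl hV hcube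
    ((hS₀ none).2 (Or.inl rfl)) (fun π h => (hS₀ _).2 (Or.inr ⟨π, rfl, Or.inl h⟩)) (by
      intro π h hLC
      rcases (hS₀ _).1 h with h1 | ⟨π', h1, h2⟩
      · exact absurd h1 (by simp)
      · have h3 : π = π' := Option.some.inj h1
        subst h3
        rcases h2 with h2 | h2
        · exact h2
        · exact hyLC π h2 hLC)
  have hnone : none ∈ S := hSS ((hS₀ none).2 (Or.inl rfl))
  have hxS : ∀ π : PP, π.1 ∣ x → some π ∈ S := fun π h =>
    hSS ((hS₀ _).2 (Or.inr ⟨π, rfl, Or.inl h⟩))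
  have hyS : ∀ v : Pl, uni v ∣ y → v ∈ S := by
    intro v hv
    cases v with
    | none => exact hnone
    | some π => exact hSS ((hS₀ _).2 (Or.inr ⟨π, rfl, Or.inr hv⟩))
  obtain ⟨H1, H2, -⟩ := hNHN x L ι θ σ hxE hF
  obtain ⟨-, T2, -, T4, -, -⟩ := hNTR x L ι θ σ hxE hx3 hF
  obtain ⟨X1, X2, X3⟩ := hNFX x L ι θ σ hxE hx3 hF S
  obtain ⟨O1, O2⟩ := hNHO x L ι θ σ hxE hx3 hF S hnone hxS
  have hNC := hNCN x L ι θ σ hxE hx3 hV hF
  have hσ3 : σ ^ 3 = 1 := by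
    ext z
    change σ (σ (σ z)) = z
    exact H1 z
  -- norms
  have hNval : ∀ u : Lˣ, ((∏ i ∈ range 3, σ ^ i • u : Lˣ) : L) = u * σ u * σ (σ u) := by
    intro u
    rw [prod_range_succ, prod_range_succ, prod_range_succ, prod_range_zero, one_mul]
    rfl
  have hN : ∀ u : Lˣ, ∃ a b : Eis, a ≠ 0 ∧ b ≠ 0 ∧
      ((∏ i ∈ range 3, σ ^ i • u : Lˣ) : L) * ι b = ι a := by
    intro u
    have h1 : σ ((∏ i ∈ range 3, σ ^ i • u : Lˣ) : L) = ((∏ i ∈ range 3, σ ^ i • u : Lˣ) : L) := by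
      rw [hNval, map_mul, map_mul, H1]
      ring
    obtain ⟨a, b, hb, hab⟩ := H2 _ h1
    refine ⟨a, b, ?_, hb, hab⟩
    rintro rfl
    rw [map_zero] at hab
    exact (mul_ne_zero (Units.ne_zero _) (hι0 b hb)) hab
  -- the units
  have hd' : ∀ i, ∃ u : Lˣ, (u : L) = ι (d i) := fun i => ⟨Units.mk0 _ (hι0 _ (hd0 i)), rfl⟩
  choose d' hd' using hd'
  have hpsi := fun {u : Lˣ} {a b : Eis} (ha : a ≠ 0) (hb : b ≠ 0) (h : (u : L) * ι b = ι a) v =>
    psi_eq (L := L) (ι := ι) hSTM hSPP hSSL hι hxE ha hb h v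
  have hpsi1 : ∀ (u : Lˣ) (a : Eis), a ≠ 0 → (u : L) = ι a → ∀ v, psi ι x u v = sy v a x := by
    intro u a ha h v
    rw [hpsi (u := u) ha one_ne_zero (by rw [map_one, mul_one, h]),
      sy_one hSTM hSPP hSSL v _ hxE, sub_zero]
  -- the set of primes
  obtain ⟨A, hA⟩ : ∃ A : Finset (HeightOneSpectrum (𝓞 L)),
      (A : Set (HeightOneSpectrum (𝓞 L))) = ⋃ v ∈ S, Abv ι v := by
    have hfin : (⋃ v ∈ S, Abv ι v).Finite := S.finite_toSet.biUnion fun v _ => (T4 v).1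
    exact ⟨hfin.toFinset, hfin.coe_toFinset⟩
  obtain ⟨U1, U2⟩ := hSUN L A
  rw [hA] at U1 U2
  have hAcard : A.card + 2 * (e + 1) = 3 * S.card := by
    have h1 : A = S.biUnion fun v => (T4 v).1.toFinset := by
      ext P
      rw [Finset.mem_biUnion, ← Finset.mem_coe, hA, Set.mem_iUnion₂]
      constructor
      · rintro ⟨v, hv, hP⟩
        exact ⟨v, hv, (T4 v).1.mem_toFinset.2 hP⟩
      · rintro ⟨v, hv, hP⟩
        exact ⟨v, hv, (T4 v).1.mem_toFinset.1 hP⟩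
    rw [h1, Finset.card_biUnion]
    · have h2 : ∀ v ∈ S, (T4 v).1.toFinset.card = if LCE (uni v) x then 3 else 1 := by
        intro v _
        rw [← hNC v, Nat.card_coe_set_eq, Set.ncard_eq_toFinset_card _ (T4 v).1]
      rw [Finset.sum_congr rfl h2, ← hcard, Finset.card_filter, Finset.mul_sum,
        ← Finset.sum_add_distrib, Finset.card_eq_sum_ones, Finset.mul_sum]
      refine Finset.sum_congr rfl fun v _ => ?_
      by_cases h : LCE (uni v) x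
      · rw [if_pos h, if_neg (not_not.2 h)]
        rfl
      · rw [if_neg h, if_pos h]
        rfl
    · intro v _ v' _ hne
      rw [Function.onFun, Finset.disjoint_left]
      intro P hP hP'
      rw [(T4 v).1.mem_toFinset] at hP
      rw [(T4 v').1.mem_toFinset] at hP'
      obtain ⟨v0, -, h0⟩ := T2 P
      have e1 := uni_inj hSPP (h0 _ hP)
      have e2 := uni_inj hSPP (h0 _ hP')
      exact hne (e1.symm.trans e2)
  obtain ⟨y', hy'⟩ : ∃ u : Lˣ, (u : L) = ι y := ⟨Units.mk0 _ (hι0 _ hyE), rfl⟩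
  have : Fact (Nat.Prime 3) := ⟨Nat.prime_three⟩
  have key := hHERBQ 3 Lˣ (L ≃ₐ[ℚ] L) σ (SU ι S) (SF ι σ S) Pl (psi ι x) e d' hσ3 U1 O1
    (fun u => Iff.rfl) O2 ?_ ?_ ?_ ?_ ?_ ?_ y' (X1 y' _ hy' hyS) ?_
  · obtain ⟨η, -, hη⟩ := key
    refine ⟨(η : L), η.ne_zero, ?_⟩
    rw [← hNval, ← hη, hy']
  · -- multiplicativity
    intro u hu u' hu'
    obtain ⟨a, b, ha, hb, hab⟩ := X2 u hu
    obtain ⟨a', b', ha', hb', hab'⟩ := X2 u' hu'
    funext v
    rw [Pi.add_apply, hpsi ha hb hab, hpsi ha' hb' hab',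
      hpsi (u := u * u') (mul_ne_zero ha ha') (mul_ne_zero hb hb') (by
        rw [Units.val_mul, map_mul, map_mul, ← hab, ← hab']
        ring),
      sy_mul hSTM hSPP hSSL v _ _ _ ha ha' hxE, sy_mul hSTM hSPP hSSL v _ _ _ hb hb' hxE]
    ring
  · -- norms have trivial symbols
    intro u _
    obtain ⟨a, b, ha, hb, hab⟩ := hN u
    funext v
    rw [hpsi ha hb hab]
    obtain ⟨e', he'⟩ := sy_lsym hSTM hSPP hSLC v
    rw [Pi.zero_apply, sub_eq_zero]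
    exact hNNS x L ι θ σ hxE hF (uni v) (sy v) e' he' (u : L) a b u.ne_zero ha hb
      (by rw [← hNval]; exact hab)
  · -- the units are in `E'`
    intro i
    exact X1 (d' i) (d i) (hd' i) (hdS i)
  · -- multiplicative independence
    intro n hn
    have h1 : (fun i => (n i).toNat) = fun i => (-n i).toNat := by
      apply hdind
      apply hι
      have h2 : ∏ i, (d' i) ^ ((n i).toNat) = ∏ i, (d' i) ^ ((-n i).toNat) := by
        rw [← div_eq_one, ← Finset.prod_div_distrib, ← hn]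
        refine Finset.prod_congr rfl fun i _ => ?_
        rw [← zpow_natCast, ← zpow_natCast, div_eq_mul_inv, ← zpow_sub]
        congr 1
        omega
      have h3 := congrArg (fun u : Lˣ => (u : L)) h2
      simp only [Units.coe_prod, Units.val_pow_eq_pow_val, hd'] at h3
      rw [map_prod, map_prod]
      simp only [map_pow]
      exact h3
    funext i
    have h2 : (n i).toNat = (-n i).toNat := congrFun h1 i
    rw [Pi.zero_apply]
    omega
  · -- independence of the symbols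
    intro n hn
    apply hdsym n
    intro v
    have h1 := congrFun hn v
    rw [Finset.sum_apply] at h1
    rw [← Pi.zero_apply (M := fun _ : Pl => ZMod 3) v, ← h1]
    refine Finset.sum_congr rfl fun i _ => ?_
    rw [Pi.smul_apply, smul_eq_mul, hpsi1 (d' i) (d i) (hd0 i) (hd' i)]
  · -- ranks
    change Module.finrank ℤ (Additive (SU ι S)) + 3 * e = 3 * Module.finrank ℤ (Additive (SF ι σ S)) + e
    have h1 : Module.finrank ℤ (Additive (SU ι S)) = 2 + A.card := by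
      rw [← hNRK x L ι θ σ hF]
      exact U2
    rw [h1, X3]
    omega
  · -- the symbols of `y`
    funext v
    rw [hpsi1 y' _ hyE hy', Pi.zero_apply]
    have h1 : ∀ π : PP, tm π.1 y x = 0 := by
      intro π
      have h2 := htm π
      rw [tm] at h2 ⊢
      linear_combination -h2
    cases v with
    | none =>
      change -∑ᶠ π : PP, tm π.1 y x = 0
      rw [finsum_eq_zero_of_forall_eq_zero h1, neg_zero]
    | some π => exact h1 π

end Pool.Agent.PTK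

end

section

/-!
# PTK_PLE: existence of a system for the plus part
-/

set_option autoImplicit false

open NumberField IsDedekindDomain Finset
open scoped nonZeroDivisors Pointwise

namespace Pool.Agent.PTK

open Pool.Agent.Lib_helper18 Pool.Agent.Lib_helper18.Eis Pool.Agent.Lib_helper84.Cub
open Pool.Agent.PT Pool.Agent.PTE Pool.Agent.PT3 Pool.Agent.PTL Pool.Agent.PTN

theorem PLE_thm (hNBAS : Stmt_NBAS) (hESYT : ESYT) : Stmt_PLE := by
  intro h n m k π p e r f w0 c hNF hh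
  obtain ⟨s, τ, b, X, Y, hs, hadm, hV, hind, h3, hlam, hgen⟩ :=
    hNBAS h n m k π p e r f w0 c hNF hh
  obtain ⟨P, Q, P', Q', hSys, hSw⟩ := hESYT h n m k π p e r f w0 c s b hNF
    (fun i => (hadm i).1) hV hind h3
  exact ⟨s, τ, b, X, Y, P, Q, P', Q', hs, ⟨hadm, hSys, hSw, hlam, hgen⟩⟩

end Pool.Agent.PTK

end

section

/-!
# IF4: the local term of a point over `K` when `x` is a local cube
-/

set_option autoImplicit false

namespace Pool.Agent.PTK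

open Pool.Agent.Lib_helper18 Pool.Agent.Lib_helper18.Eis Pool.Agent.Lib_helper84.Cub
open Pool.Agent.PT Pool.Agent.PT.IF4

theorem IF4_thm (hSTAR : STAR) : Stmt_IF4 := by
  intro π s e hs b x p q p' q' X Y cb cx hsol hX hY cn0 hD
  have hN12 : p ^ 3 - x * p' ^ 3 = b * (x * q' ^ 3 - q ^ 3) := by linear_combination hsol.eq
  have cN1 : p ^ 3 - x * p' ^ 3 ≠ 0 := hsol.n2
  have cN2 : x * q' ^ 3 - q ^ 3 ≠ 0 := by
    intro h
    rw [h, mul_zero] at hN12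
    exact cN1 hN12
  refine ⟨V π (X ^ 3 + x * Y ^ 3) + V π (p ^ 3 - x * p' ^ 3) +
    V π (x * q' ^ 3 - q ^ 3) + V π x + e + 1, ?_⟩
  intro ξ hξ
  set N : ℕ := V π (X ^ 3 + x * Y ^ 3) + V π (p ^ 3 - x * p' ^ 3) +
    V π (x * q' ^ 3 - q ^ 3) + V π x + e + 1 with hN
  have hξ0 : ξ ≠ 0 := by
    intro h
    have := (approx hs cx (N := N) (by omega) hξ).1
    apply this
    rw [h]
    ring
  -- the products
  have eF : LfE X Y 0 ξ * LfE X Y 1 ξ * LfE X Y 2 ξ = X ^ 3 + (ξ * Y) ^ 3 := by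
    rw [← prod3]
    simp only [LfE]
    ring
  have eG : LfE p (-p') 0 ξ * LfE p (-p') 1 ξ * LfE p (-p') 2 ξ
      = p ^ 3 + (ξ * (-p')) ^ 3 := by
    rw [← prod3]
    simp only [LfE]
    ring
  have eG' : LfE (-q) q' 0 ξ * LfE (-q) q' 1 ξ * LfE (-q) q' 2 ξ
      = (-q) ^ 3 + (ξ * q') ^ 3 := by
    rw [← prod3]
    simp only [LfE]
    ring
  obtain ⟨hF0, hF⟩ := approx hs cn0 (a' := X ^ 3 + (ξ * Y) ^ 3) (N := N)
    (by omega) (by
      have e1 : X ^ 3 + (ξ * Y) ^ 3 - (X ^ 3 + x * Y ^ 3)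
          = (ξ ^ 3 - x) * Y ^ 3 := by ring
      rw [e1]
      exact Dvd.dvd.mul_right hξ _)
  obtain ⟨hG0, hG⟩ := approx hs cN1 (a' := p ^ 3 + (ξ * (-p')) ^ 3) (N := N)
    (by omega) (by
      have e1 : p ^ 3 + (ξ * (-p')) ^ 3 - (p ^ 3 - x * p' ^ 3)
          = (ξ ^ 3 - x) * (-p' ^ 3) := by ring
      rw [e1]
      exact Dvd.dvd.mul_right hξ _)
  obtain ⟨hG0', hG'⟩ := approx hs cN2 (a' := (-q) ^ 3 + (ξ * q') ^ 3) (N := N)
    (by omega) (by
      have e1 : (-q) ^ 3 + (ξ * q') ^ 3 - (x * q' ^ 3 - q ^ 3)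
          = (ξ ^ 3 - x) * (q' ^ 3) := by ring
      rw [e1]
      exact Dvd.dvd.mul_right hξ _)
  have nF : ∀ i, LfE X Y i ξ ≠ 0 := by
    intro i
    have := lin_ne _ _ hF0 i
    intro h
    apply this
    rw [← h]
    simp only [LfE]
    ring
  have nG : ∀ i, LfE p (-p') i ξ ≠ 0 := by
    intro i
    have := lin_ne _ _ hG0 i
    intro h
    apply this
    rw [← h]
    simp only [LfE]
    ring
  have nG' : ∀ i, LfE (-q) q' i ξ ≠ 0 := by
    intro i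
    have := lin_ne _ _ hG0' i
    intro h
    apply this
    rw [← h]
    simp only [LfE]
    ring
  obtain ⟨nD1, nD2, nD1', nD2'⟩ := hD
  have S1 := (hSTAR π s e hs X Y p (-p') ξ (fun i => LfE X Y i ξ) (fun i => LfE p (-p') i ξ)
    (fun i => -DfE X Y p' p i) (fun i => by simp only [LfE]; ring)
    (fun i => by simp only [LfE]; ring)
    (fun i => by simp only [DfE]; ring) hξ0 nF).2 nG (neg_ne_zero.2 nD1)
    (neg_ne_zero.2 nD2)
  have S2 := (hSTAR π s e hs X Y (-q) q' ξ (fun i => LfE X Y i ξ) (fun i => LfE (-q) q' i ξ)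
    (fun i => DfE X Y q' q i) (fun i => by simp only [LfE]; ring)
    (fun i => by simp only [LfE]; ring)
    (fun i => by simp only [DfE]; ring) hξ0 nF).2 nG' nD1' nD2'
  simp only [eF, eG, eG'] at S1 S2
  have hw : w ≠ 0 := by
    intro h
    have := congrArg Eis.im h
    simp at this
  rw [s_neg hs nD1 hG0, s_neg hs nD2 hG0, s_neg hs nD1 hF0, s_neg hs nD2 hF0,
    (hG _ nD1).2, (hG _ nD2).2, (hF _ nD1).2, (hF _ nD2).2, (hF _ hw).2, (hF _ (nG 2)).1,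
    (hF _ (nG 1)).1, (hG _ (nF 1)).2, (hG _ (nF 2)).2] at S1
  rw [(hG' _ nD1').2, (hG' _ nD2').2, (hF _ nD1').2, (hF _ nD2').2, (hF _ hw).2,
    (hF _ (nG' 2)).1, (hF _ (nG' 1)).1, (hG' _ (nF 1)).2, (hG' _ (nF 2)).2] at S2
  have hb1 : ∀ i, s (LfE X Y i ξ) (p ^ 3 - x * p' ^ 3)
      = s (LfE X Y i ξ) b + s (LfE X Y i ξ) (x * q' ^ 3 - q ^ 3) := by
    intro i
    rw [← mul_right hs (nF i) cb cN2, hN12]
  rw [hb1 1, hb1 2] at S1
  unfold SVE ASE
  linear_combination S1 - S2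

end Pool.Agent.PTK

end

section

/-!
# Existence of the systems, `q = 1 (mod 3)`
-/

set_option autoImplicit false

open NumberField IsDedekindDomain Finset
open scoped nonZeroDivisors Pointwise

namespace Pool.Agent.PTK

open Pool.Agent.Lib_helper18 Pool.Agent.Lib_helper18.Eis Pool.Agent.Lib_helper84.Cub
open Pool.Agent.PT Pool.Agent.PTE Pool.Agent.PT3 Pool.Agent.PTL Pool.Agent.PTN

/-- PTK_PLU: existence of the systems. -/
theorem PLU_thm (hESYT : ESYT) : Stmt_PLU := by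
  intro h n m k π p e r f w0 c d v hNF hh hHB δ hδ
  obtain ⟨hv, hspan, hδ'⟩ := hHB
  obtain ⟨s, τ, b, X, Y, hs, hAdN, hV, hind, h3, hLam, hρ⟩ := hδ' δ hδ
  obtain ⟨P, Q, P', Q', hSys, hSw⟩ := hESYT h n m k π p e r f w0 c (s + 1) b hNF
    (fun i => (hAdN i).1) hV hind h3
  exact ⟨s, τ, b, X, Y, P, Q, P', Q', ⟨hs, hAdN, hSys, hSw, hLam, hρ⟩⟩

end Pool.Agent.PTK

end

section

/-!
# AVE: the value `AVE` is attained
-/

set_option autoImplicit false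

namespace Pool.Agent.PTK

open Pool.Agent.Lib_helper18 Pool.Agent.Lib_helper18.Eis Pool.Agent.Lib_helper84.Cub
open Pool.Agent.PT

namespace AVE

theorem pow_dvd_iff {π a : Eis} (hπ : Prime π) (ha : a ≠ 0) (k : ℕ) : π ^ k ∣ a ↔ k ≤ V π a :=
  (fin hπ ha).pow_dvd_iff_le_multiplicity

theorem pig {π a b c : Eis} (hπ : Prime π) {M : ℕ} (h : π ^ (3 * M) ∣ a * b * c) :
    π ^ M ∣ a ∨ π ^ M ∣ b ∨ π ^ M ∣ c := by
  by_cases ha : a = 0
  · exact Or.inl (ha ▸ dvd_zero _)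
  by_cases hb : b = 0
  · exact Or.inr (Or.inl (hb ▸ dvd_zero _))
  by_cases hc : c = 0
  · exact Or.inr (Or.inr (hc ▸ dvd_zero _))
  rw [pow_dvd_iff hπ (mul_ne_zero (mul_ne_zero ha hb) hc), V_mul hπ (mul_ne_zero ha hb) hc,
    V_mul hπ ha hb] at h
  rw [pow_dvd_iff hπ ha, pow_dvd_iff hπ hb, pow_dvd_iff hπ hc]
  omega

theorem close {π P Q : Eis} (hπ : Prime π) {N : ℕ} (h : π ^ N ∣ P - Q) (hQ : Q ≠ 0)
    (hN : V π Q < N) : P ≠ 0 ∧ V π P ≤ V π Q := by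
  have h1 : ¬ π ^ N ∣ P := by
    intro h2
    have h3 : π ^ N ∣ Q := by
      have h4 := dvd_sub h2 h
      rwa [sub_sub_cancel] at h4
    rw [pow_dvd_iff hπ hQ] at h3
    omega
  have hP : P ≠ 0 := by
    rintro rfl
    exact h1 (dvd_zero _)
  refine ⟨hP, ?_⟩
  rw [pow_dvd_iff hπ hP, not_le] at h1
  rw [← pow_dvd_iff hπ hQ]
  have h2 : π ^ V π P ∣ P := (pow_dvd_iff hπ hP _).mpr le_rfl
  have h3 : π ^ V π P ∣ P - Q := (pow_dvd_pow π h1.le).trans h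
  have h4 := dvd_sub h2 h3
  rwa [sub_sub_cancel] at h4

theorem prod_eq (p q r : Eis) :
    LfE p q 0 r * LfE p q 1 r * LfE p q 2 r = (p ^ 3 + q ^ 3 * r ^ 3) := by
  unfold LfE
  have h1 := w_rel
  have h2 := w_cube
  linear_combination (p ^ 2 * q * r + p * q ^ 2 * r ^ 2 * w) * h1 +
    ((q * r) ^ 3) * h2

theorem LfE_add_three (p q r : Eis) (j : ℕ) : LfE p q (j + 3) r = LfE p q j r := by
  unfold LfE
  rw [pow_add, w_cube, mul_one]

theorem prod_sub {π : Eis} {b r : Eis} {N : ℕ} (h : π ^ N ∣ r ^ 3 - b) (p q : Eis) :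
    π ^ N ∣ LfE p q 0 r * LfE p q 1 r * LfE p q 2 r - (p ^ 3 + b * q ^ 3) := by
  rw [prod_eq]
  have e : (p ^ 3 + q ^ 3 * r ^ 3) - (p ^ 3 + b * q ^ 3) =
      (r ^ 3 - b) * q ^ 3 := by
    ring
  rw [e]
  exact Dvd.dvd.mul_right h _

theorem lin {π : Eis} (hπ : Prime π) {b r : Eis} {N : ℕ} (h : π ^ N ∣ r ^ 3 - b)
    (p q : Eis) (h0 : (p ^ 3 + b * q ^ 3) ≠ 0)
    (hN : V π (p ^ 3 + b * q ^ 3) < N) :
    ∀ j < 3, LfE p q j r ≠ 0 ∧ V π (LfE p q j r) ≤ V π (p ^ 3 + b * q ^ 3) := by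
  obtain ⟨h1, h2⟩ := close hπ (prod_sub h p q) h0 hN
  have h3 := mul_ne_zero_iff.mp h1
  have h4 := mul_ne_zero_iff.mp h3.1
  rw [V_mul hπ h3.1 h3.2, V_mul hπ h4.1 h4.2] at h2
  intro j hj
  interval_cases j
  · exact ⟨h4.1, by omega⟩
  · exact ⟨h4.2, by omega⟩
  · exact ⟨h3.2, by omega⟩

section

variable {π : Eis} {s : Eis → Eis → ZMod 3} {e : ℕ}

theorem cont' (hs : LSym π s e) {a a' B : Eis} (hB : B ≠ 0) (ha : a ≠ 0) (ha' : a' ≠ 0)
    (h : π ^ (V π a + e) ∣ a' - a) : s B a' = s B a := by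
  rw [hs.skew a' B ha' hB, hs.skew a B ha hB, hs.cont a a' B ha hB h]

theorem mul' (hs : LSym π s e) {a c B : Eis} (hB : B ≠ 0) (ha : a ≠ 0) (hc : c ≠ 0) :
    s B (a * c) = s B a + s B c := by
  rw [hs.skew (a * c) B (mul_ne_zero ha hc) hB, hs.skew a B ha hB, hs.skew c B hc hB,
    hs.mul a c B ha hc hB]
  ring

theorem sum_eq (hs : LSym π s e) {B : Eis} (hB : B ≠ 0) {b r : Eis} {N : ℕ}
    (h : π ^ N ∣ r ^ 3 - b) (p q : Eis) (h0 : (p ^ 3 + b * q ^ 3) ≠ 0)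
    (hN : V π (p ^ 3 + b * q ^ 3) + e < N) :
    s B (LfE p q 0 r) + s B (LfE p q 1 r) + s B (LfE p q 2 r) =
      s B (p ^ 3 + b * q ^ 3) := by
  have h1 := lin hs.prime h p q h0 (by omega)
  have n0 := (h1 0 (by norm_num)).1
  have n1 := (h1 1 (by norm_num)).1
  have n2 := (h1 2 (by norm_num)).1
  rw [← mul' hs hB n0 n1, ← mul' hs hB (mul_ne_zero n0 n1) n2]
  exact cont' hs hB h0 (mul_ne_zero (mul_ne_zero n0 n1) n2)
    ((pow_dvd_pow π hN.le).trans (prod_sub h p q))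

theorem shift (hs : LSym π s e) {B : Eis} (hB : B ≠ 0) {r r' : Eis} {M : ℕ} {i j k : ℕ}
    (h : π ^ M ∣ r' - w ^ i * r) (p q : Eis) (hk : LfE p q (j + i) r = LfE p q k r)
    (hne : LfE p q k r ≠ 0) (hne' : LfE p q j r' ≠ 0) (hM : V π (LfE p q k r) + e ≤ M) :
    s B (LfE p q j r') = s B (LfE p q k r) := by
  refine cont' hs hB hne hne' ((pow_dvd_pow π hM).trans ?_)
  rw [← hk]
  have e1 : LfE p q j r' - LfE p q (j + i) r = (r' - w ^ i * r) * (q * w ^ j) := by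
    unfold LfE
    rw [pow_add]
    ring
  rw [e1]
  exact Dvd.dvd.mul_right h _

end


/-- the symbol at a place is a symbol at its uniformizer -/
theorem lsym (hSTM : STM) (hSPP : SPP) (hSLC : SLC) (v : Pl) : ∃ e, LSym (uni v) (sy v) e := by
  cases v with
  | none => exact ⟨4, hSLC⟩
  | some π => exact ⟨1, hSTM π.1 π.2.1 (hSPP.2.2.2.1 π).1⟩

/-- independence of the cube root -/
theorem root (π : Eis) (s : Eis → Eis → ZMod 3) (e : ℕ) (hs : LSym π s e)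
    (b x p q p' q' B : Eis) (hx : x ≠ 0) (hW : SolWE b x p q p' q') (hB : B ≠ 0)
    (hBx : s B x = 0) :
    ∃ N0 : ℕ, ∀ r r' : Eis, π ^ N0 ∣ r ^ 3 - b → π ^ N0 ∣ r' ^ 3 - b →
      ASE s B p q p' q' r = ASE s B p q p' q' r' := by
  have n1 : p ^ 3 + b * q ^ 3 ≠ 0 := hW.n1
  have n2 : p' ^ 3 + b * q' ^ 3 ≠ 0 := by
    intro h
    apply n1
    rw [hW.eq, h, mul_zero]
  set v1 := V π (p ^ 3 + b * q ^ 3) with hv1
  set v2 := V π (p' ^ 3 + b * q' ^ 3) with hv2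
  set M := v1 + v2 + e + 1 with hM
  refine ⟨3 * M, fun r r' hr hr' => ?_⟩
  have L := lin hs.prime hr p q n1 (by omega)
  have L' := lin hs.prime hr p' q' n2 (by omega)
  have K := lin hs.prime hr' p q n1 (by omega)
  have K' := lin hs.prime hr' p' q' n2 (by omega)
  have hS := sum_eq hs hB hr p q n1 (by omega)
  have hS' := sum_eq hs hB hr p' q' n2 (by omega)
  have hprod : s B (p ^ 3 + b * q ^ 3) = s B (p' ^ 3 + b * q' ^ 3) := by
    have h1 : (p ^ 3 + b * q ^ 3) = x * (p' ^ 3 + b * q' ^ 3) := by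
      rw [hW.eq]
    rw [h1, mul' hs hB hx n2, hBx, zero_add]
  rw [hprod, ← hS'] at hS
  have h3 : (3 : ZMod 3) = 0 := by decide
  have hdiv : π ^ (3 * M) ∣ (r' - w ^ 0 * r) * (r' - w ^ 1 * r) *
      (r' - w ^ 2 * r) := by
    have e1 : (r' - w ^ 0 * r) * (r' - w ^ 1 * r) * (r' - w ^ 2 * r) =
        (r' ^ 3 - b) - (r ^ 3 - b) := by
      have h1 := w_rel
      have h2 := w_cube
      linear_combination (-(r' ^ 2) * r + r' * r ^ 2 * w) * h1 -
        (r ^ 3) * h2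
    rw [e1]
    exact dvd_sub hr' hr
  have b0 := (L 0 (by norm_num)).2
  have b1 := (L 1 (by norm_num)).2
  have b2 := (L 2 (by norm_num)).2
  have c0 := (L' 0 (by norm_num)).2
  have c1 := (L' 1 (by norm_num)).2
  have c2 := (L' 2 (by norm_num)).2
  rcases pig hs.prime hdiv with h | h | h
  · have e1 := shift hs hB h p q (j := 2) (k := 2) rfl (L 2 (by norm_num)).1
      (K 2 (by norm_num)).1 (by omega)
    have e2 := shift hs hB h p' q' (j := 1) (k := 1) rfl (L' 1 (by norm_num)).1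
      (K' 1 (by norm_num)).1 (by omega)
    have e3 := shift hs hB h p q (j := 1) (k := 1) rfl (L 1 (by norm_num)).1
      (K 1 (by norm_num)).1 (by omega)
    have e4 := shift hs hB h p' q' (j := 2) (k := 2) rfl (L' 2 (by norm_num)).1
      (K' 2 (by norm_num)).1 (by omega)
    unfold ASE
    rw [e1, e2, e3, e4]
  · have e1 := shift hs hB h p q (j := 2) (k := 0) (LfE_add_three p q r 0)
      (L 0 (by norm_num)).1 (K 2 (by norm_num)).1 (by omega)
    have e2 := shift hs hB h p' q' (j := 1) (k := 2) rfl (L' 2 (by norm_num)).1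
      (K' 1 (by norm_num)).1 (by omega)
    have e3 := shift hs hB h p q (j := 1) (k := 2) rfl (L 2 (by norm_num)).1
      (K 1 (by norm_num)).1 (by omega)
    have e4 := shift hs hB h p' q' (j := 2) (k := 0) (LfE_add_three p' q' r 0)
      (L' 0 (by norm_num)).1 (K' 2 (by norm_num)).1 (by omega)
    unfold ASE
    rw [e1, e2, e3, e4]
    linear_combination (-1 : ZMod 3) * hS + (s B (LfE p q 2 r) - s B (LfE p' q' 2 r)) * h3
  · have e1 := shift hs hB h p q (j := 2) (k := 1) (LfE_add_three p q r 1)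
      (L 1 (by norm_num)).1 (K 2 (by norm_num)).1 (by omega)
    have e2 := shift hs hB h p' q' (j := 1) (k := 0) (LfE_add_three p' q' r 0)
      (L' 0 (by norm_num)).1 (K' 1 (by norm_num)).1 (by omega)
    have e3 := shift hs hB h p q (j := 1) (k := 0) (LfE_add_three p q r 0)
      (L 0 (by norm_num)).1 (K 1 (by norm_num)).1 (by omega)
    have e4 := shift hs hB h p' q' (j := 2) (k := 1) (LfE_add_three p' q' r 1)
      (L' 1 (by norm_num)).1 (K' 2 (by norm_num)).1 (by omega)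
    unfold ASE
    rw [e1, e2, e3, e4]
    linear_combination hS + (s B (LfE p' q' 1 r) - s B (LfE p q 1 r)) * h3


end AVE

theorem AVE_thm (hSTM : STM) (hSPP : SPP) (hSLC : SLC) : Stmt_AVE := by
  intro v B b x p q p' q' hB hb hx hsol hs hlc
  obtain ⟨e, he⟩ := AVE.lsym hSTM hSPP hSLC v
  obtain ⟨N0, hN0⟩ := AVE.root (uni v) (sy v) e he b x p q p' q' B hx hsol hB hs
  obtain ⟨r0, hr0⟩ := hlc N0
  have h : ∃ c : ZMod 3, ∃ N0 : ℕ, ∀ r : Eis, uni v ^ N0 ∣ r ^ 3 - b →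
      ASE (sy v) B p q p' q' r = c :=
    ⟨ASE (sy v) B p q p' q' r0, N0, fun r hr => hN0 r r0 hr hr0⟩
  have hav : AVE v B b p q p' q' = h.choose := by
    unfold AVE
    rw [dif_pos h]
  have h1 : ∃ N0 : ℕ, ∀ r : Eis, uni v ^ N0 ∣ r ^ 3 - b →
      ASE (sy v) B p q p' q' r = AVE v B b p q p' q' := by
    rw [hav]
    exact h.choose_spec
  refine ⟨h1, fun c N hN => ?_⟩
  obtain ⟨M, hM⟩ := h1
  obtain ⟨r, hr⟩ := hlc (max M N)
  rw [← hM r ((pow_dvd_pow _ (le_max_left M N)).trans hr),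
    hN r ((pow_dvd_pow _ (le_max_right M N)).trans hr)]

end Pool.Agent.PTK

end

section

/-!
# PTK_DX2: the local term of a good point at the place above `3` (helper91)
-/

set_option autoImplicit false

namespace Pool.Agent.PTK

open Pool.Agent.Lib_helper18 Pool.Agent.Lib_helper18.Eis Pool.Agent.Lib_helper84.Cub
open Pool.Agent.PT

namespace DX2

lemma B_ne {N : ℕ} {b x p q p' q' : Eis} (HX : HypX N b x p q p' q') {E Q : ℕ} {X Y : Eis}
    (HP : HypP N b x p q p' q' E Q X Y) : (N : Eis) * (Q : Eis) ^ E ≠ 0 := by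
  have h1 : (N : Eis) ≠ 0 := by
    have h2 : ((N : ℤ) : Eis) ≠ 0 := DCONST.cast_ne (by have := HX.N0; omega)
    rwa [Int.cast_natCast] at h2
  have h3 : (Q : Eis) ≠ 0 := by
    have h2 : ((Q : ℤ) : Eis) ≠ 0 := DCONST.cast_ne (by have := HP.hQ.pos; omega)
    rwa [Int.cast_natCast] at h2
  exact mul_ne_zero h1 (pow_ne_zero _ h3)

lemma n0_ne {N : ℕ} {b x p q p' q' : Eis} (HX : HypX N b x p q p' q') {E Q : ℕ} {X Y : Eis}
    (HP : HypP N b x p q p' q' E Q X Y) : X ^ 3 + x * Y ^ 3 ≠ 0 := by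
  obtain ⟨c, hc, h⟩ := HP.pt.eq
  intro h0
  rw [h0, mul_zero] at h
  exact mul_ne_zero (B_ne HX HP) (pow_ne_zero _ hc) h.symm

/-- the product formula when all tame symbols vanish -/
lemma sl_zero (hSSL : SSL) {b B : Eis} (hb : b ≠ 0) (hB : B ≠ 0)
    (h : ∀ σ : PP, tm σ.1 b B = 0) : sl b B = 0 := by
  have hE := (hSSL.2.2.2 b B hb hB).2
  have h0 : ∀ v : Pl, v ≠ none → sy v b B = 0 := by
    intro v hv
    match v, hv with
    | none, hv => exact absurd rfl hv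
    | some π, _ => exact h π
  rw [finsum_eq_single _ none h0] at hE
  exact hE

end DX2

open DPA in
/-- PTK_DX2. -/
theorem DX2_thm (hSLC : SLC) (hSSL : SSL) (hLCI : Stmt_LCI) (hIF4 : Stmt_IF4) : Stmt_DX2 := by
  intro N b x p q p' q' HX f hf h9
  have hs : LSym lam sl 4 := hSLC
  have hlamf : lam ^ 4 ∣ (f : Eis) := by
    have h1 : ((9 : ℤ) : Eis) ∣ ((f : ℤ) : Eis) :=
      intCast_dvd_intCast.2 (by exact_mod_cast h9)
    rw [Int.cast_natCast] at h1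
    refine Dvd.dvd.trans ⟨w ^ 4, ?_⟩ h1
    have h2 : ((9 : ℤ) : Eis) = (3 : Eis) ^ 2 := by norm_num
    rw [h2, three_eq]
    ring
  have hN : (N : Eis) ≠ 0 := by
    have h2 : ((N : ℤ) : Eis) ≠ 0 := DCONST.cast_ne (by have := HX.N0; omega)
    rwa [Int.cast_natCast] at h2
  obtain ⟨C, Φ, H⟩ := place_LC hs hN HX.sol.n1 (SolE_n1' HX.sol) HX.lx hf hlamf
  refine ⟨C, Φ, ?_⟩
  intro E Q hQ X Y HP hG
  have hB := DX2.B_ne HX HP
  have hn0 := DX2.n0_ne HX HP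
  obtain ⟨c, hc, hE⟩ := HP.pt.eq
  have hcast : (((N : ℤ) * (Q : ℤ) ^ E : ℤ) : Eis) = (N : Eis) * (Q : Eis) ^ E := by
    push_cast
    rfl
  have hsb : sl b (N * (Q : Eis) ^ E) = 0 := DX2.sl_zero hSSL HX.hb hB HP.sb
  obtain ⟨N1, H1⟩ := exists_ne hs.prime (b := x) HX.sol.n1
  obtain ⟨N2, H2⟩ := exists_ne hs.prime (b := x) (SolE_n1' HX.sol)
  obtain ⟨N3, H3⟩ := hG b HX.hb HX.nb HX.cb (by rw [hcast]; exact hsb)
  obtain ⟨N4, H4⟩ := hIF4 lam sl 4 hs b x p (-p') (-q) q' X Y HX.hb HX.hx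
    (SolE_flip HX.sol) HP.pt.hX HP.pt.hY hn0 HP.dn
  have hx0 : ∀ a : Eis, a ≠ 0 → sl x a = 0 := fun a ha =>
    hLCI.2.2 lam sl 4 x a hs HX.lx HX.hx ha
  have hrel : ∀ a : Eis, a ≠ 0 →
      sl (X ^ 3 + x * Y ^ 3) a = sl ((N : Eis) * (Q : Eis) ^ E) a := by
    intro a ha
    have h1 := s_rel hs HX.hx hn0 hB hc ha hE
    rw [hx0 a ha, zero_add] at h1
    exact h1
  refine H E Q hQ _ (N1 + N2 + N3 + N4) fun ξ hξ => ?_
  have g1 := H1 ξ ((pow_dvd_pow _ (by omega)).trans hξ)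
  have g2 := H2 ξ ((pow_dvd_pow _ (by omega)).trans hξ)
  have g3 := H3 ξ ((pow_dvd_pow _ (by omega)).trans hξ)
  have g4 := H4 ξ ((pow_dvd_pow _ (by omega)).trans hξ)
  rw [g4, neg_neg, neg_neg, g3]
  unfold ASE
  rw [hrel _ (g1 2), hrel _ (g2 1), hrel _ (g1 1), hrel _ (g2 2)]
  ring

end Pool.Agent.PTK

end

section

/-!
# PTK_TPE: the pairing vanishes on the class of a point (helper64)
-/

set_option autoImplicit false

open Finset

namespace Pool.Agent.PTK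

open Pool.Agent.Lib_helper18 Pool.Agent.Lib_helper18.Eis Pool.Agent.Lib_helper84.Cub
open Pool.Agent.PT Pool.Agent.PTE Pool.Agent.PT3 Pool.Agent.PTL Pool.Agent.PTN

namespace TPE

open DPA

/-- additivity in the second variable -/
theorem mulr {u : Eis} {s : Eis → Eis → ZMod 3} {e : ℕ} (h : LSym u s e) {a b c : Eis}
    (ha : a ≠ 0) (hb : b ≠ 0) (hc : c ≠ 0) : s c (a * b) = s c a + s c b := by
  rw [h.skew (a * b) c (mul_ne_zero ha hb) hc, h.mul a b c ha hb hc, h.skew a c ha hc,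
    h.skew b c hb hc]
  ring

/-- the local identity at `lam` -/
theorem lam_case (hAVE : Stmt_AVE) (hLMC : Stmt_LMC) (hIIA : Stmt_IIA) (hIF2 : Stmt_IF2)
    (hIF4 : Stmt_IF4) (hLCI : Stmt_LCI) (hSSL : SSL) (hSLC : SLC)
    {B : ℤ} {b x p q p' q' X Y : Eis} (hB : (B : Eis) ≠ 0) (hb : AGE B b) (hx : AGE B x)
    (mb : MCl b) (mx : MCl x) (hS : SolE b x p q p' q') (hP : PtE (B : Eis) x X Y)
    (hn : X ^ 3 + x * Y ^ 3 ≠ 0) (hD : DNE X Y p q p' q')
    (h : LCE lam b ∨ (LCE lam x ∧ GoodPt B x X Y) ∨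
      (¬ LCE lam b ∧ ¬ LCE lam x ∧ LCE lam (B : Eis) ∧ GoodW x X Y)) :
    LTE B b x p q p' q' = UVE sl B b x p q p' q' - SVE sl x p q p' q' X Y := by
  have L : LSym lam sl 4 := hSLC
  have hw : w ≠ 0 := isUnit_w.ne_zero
  have sb : sl b B = 0 := DX2.sl_zero hSSL hb.ne hB hb.sym
  have sx : sl x B = 0 := DX2.sl_zero hSSL hx.ne hB hx.sym
  have sb' : sl B b = 0 := by rw [L.skew b B hb.ne hB, sb, neg_zero]
  have sx' : sl B x = 0 := by rw [L.skew x B hx.ne hB, sx, neg_zero]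
  have wb : sl w b = 0 := (hLMC b hb.ne mb).1
  have wx : sl w x = 0 := (hLMC x hx.ne mx).1
  obtain ⟨c, hc, hE⟩ := hP.eq
  have hU : UVE sl B b x p q p' q' =
      sl B (GfE p q p' q' 1) - sl B (GfE p q p' q' 2) + sl w B := by
    unfold UVE
    rw [mulr L (mul_ne_zero hB hx.ne) hb.ne hw, mulr L hB hx.ne hw, wb, wx, add_zero, add_zero]
  rw [hU]
  unfold LTE
  by_cases hcb : LCE lam b
  · rw [if_pos hcb, wx]
    obtain ⟨N1, H1⟩ := (hAVE none B b x p q p' q' hB hb.ne hx.ne hS.toSolWE sx' hcb).1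
    obtain ⟨N2, H2⟩ := hIIA b x p q p' q' X Y hb.ne hx.ne hcb hS hP.hX hP.hY hn hD
    obtain ⟨N3, H3⟩ := hIF2 lam sl 4 L b x p q p' q' hb.ne hx.ne hS
    obtain ⟨N4, H4⟩ := exists_ne L.prime (b := b) hS.n1
    obtain ⟨N5, H5⟩ := exists_ne L.prime (b := b) (SolE_n1' hS)
    obtain ⟨r, hr⟩ := hcb (N1 + N2 + N3 + N4 + N5)
    have g1 : ASE sl B p q p' q' r = AVE none B b p q p' q' :=
      H1 r ((pow_dvd_pow _ (by omega)).trans hr)
    have g2 := H2 r ((pow_dvd_pow _ (by omega)).trans hr)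
    have g3 := H3 r ((pow_dvd_pow _ (by omega)).trans hr)
    have g4 := H4 r ((pow_dvd_pow _ (by omega)).trans hr)
    have g5 := H5 r ((pow_dvd_pow _ (by omega)).trans hr)
    have r0 := ASE_rel L g4 g5 hx.ne hn hB hc hE
    have r1 := s_rel L hx.ne hn hB hc hS.g1 hE
    have r2 := s_rel L hx.ne hn hB hc hS.g2 hE
    have r3 := s_rel L hx.ne hn hB hc hw hE
    have k1 := L.skew w x hw hx.ne
    have k2 := L.skew w _ hw hn
    have k3 := L.skew w B hw hB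
    rw [k1, k2, k3] at r3
    rw [← g1, ← r0, g2, g3]
    linear_combination r1 - r2 - r3
  · rw [if_neg hcb]
    by_cases hcx : LCE lam x
    · rw [if_pos hcx, hU, wb, add_zero]
      have hG : GoodPt B x X Y := by
        rcases h with h | h | h
        · exact absurd h hcb
        · exact h.2
        · exact absurd hcx h.2.1
      have hS' := SolE_flip hS
      obtain ⟨N1, H1⟩ := (hAVE none B x b p (-p') (-q) q' hB hx.ne hb.ne hS'.toSolWE sb' hcx).1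
      obtain ⟨N2, H2⟩ := hG b hb.ne mb.nl mb.cb sb
      obtain ⟨N3, H3⟩ := hIF4 lam sl 4 L b x p q p' q' X Y hb.ne hx.ne hS hP.hX hP.hY hn hD
      obtain ⟨N4, H4⟩ := exists_ne L.prime (b := x) hS'.n1
      obtain ⟨N5, H5⟩ := exists_ne L.prime (b := x) (SolE_n1' hS')
      obtain ⟨ξ, hξ⟩ := hcx (N1 + N2 + N3 + N4 + N5)
      have g1 : ASE sl B p (-p') (-q) q' ξ = AVE none B x p (-p') (-q) q' :=
        H1 ξ ((pow_dvd_pow _ (by omega)).trans hξ)
      have g2 := H2 ξ ((pow_dvd_pow _ (by omega)).trans hξ)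
      have g3 := H3 ξ ((pow_dvd_pow _ (by omega)).trans hξ)
      have g4 := H4 ξ ((pow_dvd_pow _ (by omega)).trans hξ)
      have g5 := H5 ξ ((pow_dvd_pow _ (by omega)).trans hξ)
      have r0 := ASE_rel L g4 g5 hx.ne hn hB hc hE
      have hx0 : ∀ a : Eis, a ≠ 0 → sl x a = 0 := fun a ha =>
        hLCI.2.2 lam sl 4 x a L hcx hx.ne ha
      have r1 : ASE sl x p (-p') (-q) q' ξ = 0 := by
        unfold ASE
        rw [hx0 _ (g4 2), hx0 _ (g5 1), hx0 _ (g4 1), hx0 _ (g5 2)]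
        ring
      rw [g3, g2, ← g1, ← r0, r1]
      ring
    · rw [if_neg hcx]
      obtain ⟨-, -, hcB, hW⟩ : ¬ LCE lam b ∧ ¬ LCE lam x ∧ LCE lam (B : Eis) ∧ GoodW x X Y := by
        rcases h with h | h | h
        · exact absurd h hcb
        · exact absurd h.1 hcx
        · exact h
      have hB0 : ∀ a : Eis, a ≠ 0 → sl B a = 0 := fun a ha =>
        hLCI.2.2 lam sl 4 B a L hcB hB ha
      have k3 : sl w B = 0 := by
        rw [L.skew B w hB hw, hB0 w hw, neg_zero]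
      rw [hB0 _ hS.g1, hB0 _ hS.g2, k3, hW b p q p' q' hb.ne mb hS hD]
      unfold lfE
      ring

end TPE

/-- PTK_TPE. -/
theorem TPE_thm (hAVE : Stmt_AVE) (hLEE : Stmt_LEE) (hLFE : Stmt_LFE) (hLMC : Stmt_LMC)
    (hIIA : Stmt_IIA) (hIF2 : Stmt_IF2) (hIF4 : Stmt_IF4) (hSVF : Stmt_SVF) (hLCI : Stmt_LCI)
    (hSSL : SSL) (hSLC : SLC) : Stmt_TPE := by
  intro B b x p q p' q' X Y hB hb hx mb mx hS hP hD h
  have hn : X ^ 3 + x * Y ^ 3 ≠ 0 := by
    obtain ⟨c, hc, e⟩ := hP.eq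
    intro h0
    rw [h0, mul_zero] at e
    exact mul_ne_zero hB.ne (pow_ne_zero 3 hc) e.symm
  have hlam := TPE.lam_case hAVE hLMC hIIA hIF2 hIF4 hLCI hSSL hSLC hB.ne hb hx mb mx hS hP hn hD h
  obtain ⟨f1, e1⟩ := hLFE.2 B b x p q p' q' hB.ne hb.ne hx.ne hS
  obtain ⟨f2, e2⟩ := hSVF b x p q p' q' X Y hb.ne hx.ne hS hP.hX hP.hY hn hD
  have f3 : (Function.support fun π : PP => SVE (tm π.1) x p q p' q' X Y).Finite :=
    f2.preimage (f := fun π : PP => (some π : Pl)) (Option.some_injective _).injOn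
  have e3 : SVE sl x p q p' q' X Y + ∑ᶠ π : PP, SVE (tm π.1) x p q p' q' X Y = 0 := by
    rw [finsum_option (f := fun v : Pl => SVE (sy v) x p q p' q' X Y) f3] at e2
    exact e2
  have e4 : ∑ᶠ π : PP, TTE π B b x p q p' q' =
      ∑ᶠ π : PP, UVE (tm π.1) B b x p q p' q' - ∑ᶠ π : PP, SVE (tm π.1) x p q p' q' X Y := by
    rw [← finsum_sub_distrib f1 f3]
    exact finsum_congr fun π => hLEE π B b x p q p' q' X Y hB hb hx hS hP hD
  unfold OZE
  rw [e4, hlam]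
  linear_combination e1 - e3

end Pool.Agent.PTK

end

section

/-!
# PTK_LRR: the class of a point of the isogenous curve at `3`
-/

set_option autoImplicit false

open Finset

namespace Pool.Agent.PTK

open Pool.Agent.Lib_helper18 Pool.Agent.Lib_helper18.Eis Pool.Agent.Lib_helper84.Cub
open Pool.Agent.PT Pool.Agent.PTE Pool.Agent.PT3 Pool.Agent.PTL Pool.Agent.PTN

namespace LRR

theorem wt_res' {A : ℤ} {c : ℤ} (s t : ℤ) (hA : A % 9 = c) (h : c ^ 2 = 1 + 3 * (3 * s + t)) :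
    wt (A ^ 2) = (t : ZMod 3) := by
  obtain ⟨k, hk⟩ : ∃ k : ℤ, A = 9 * k + c := ⟨A / 9, by omega⟩
  have h3 : A ^ 2 = 1 + 3 * (3 * (9 * k ^ 2 + 2 * k * c + s) + t) := by
    rw [hk]
    linear_combination h
  have e : (A ^ 2 - 1) / 3 = 3 * (9 * k ^ 2 + 2 * k * c + s) + t := by omega
  unfold wt
  rw [e]
  push_cast
  have h4 : (3 : ZMod 3) = 0 := by decide
  rw [h4]
  ring

theorem cls (hLCL : LCL) {A : ℤ} (hA : ¬ (3 : ℤ) ∣ A) : lv A = 0 ∧
    ((A % 9 = 1 ∨ A % 9 = 8) ∧ lw A = 0 ∨ (A % 9 = 2 ∨ A % 9 = 7) ∧ lw A = 1 ∨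
      (A % 9 = 4 ∨ A % 9 = 5) ∧ lw A = 2) := by
  obtain ⟨h1, h2⟩ := hLCL.2.2.2.1 A hA
  refine ⟨h1, ?_⟩
  rw [h2]
  have hr : A % 9 = 1 ∨ A % 9 = 2 ∨ A % 9 = 4 ∨ A % 9 = 5 ∨ A % 9 = 7 ∨ A % 9 = 8 := by omega
  rcases hr with h | h | h | h | h | h
  · exact Or.inl ⟨Or.inl h, by rw [wt_res' 0 0 h (by norm_num)]; decide⟩
  · exact Or.inr (Or.inl ⟨Or.inl h, by rw [wt_res' 0 1 h (by norm_num)]; decide⟩)
  · exact Or.inr (Or.inr ⟨Or.inl h, by rw [wt_res' 1 2 h (by norm_num)]; decide⟩)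
  · exact Or.inr (Or.inr ⟨Or.inr h, by rw [wt_res' 2 2 h (by norm_num)]; decide⟩)
  · exact Or.inr (Or.inl ⟨Or.inr h, by rw [wt_res' 5 1 h (by norm_num)]; decide⟩)
  · exact Or.inl ⟨Or.inr h, by rw [wt_res' 7 0 h (by norm_num)]; decide⟩

/-- two numbers prime to `3` with sum divisible by `9` -/
theorem opp (hLCL : LCL) {A B : ℤ} (hA : ¬ (3 : ℤ) ∣ A) (hB : ¬ (3 : ℤ) ∣ B) (h : (9 : ℤ) ∣ A + B) :
    lw A = lw B := by
  obtain ⟨-, h1⟩ := cls hLCL hA
  obtain ⟨-, h2⟩ := cls hLCL hB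
  rcases h1 with ⟨h1, e1⟩ | ⟨h1, e1⟩ | ⟨h1, e1⟩ <;>
  rcases h2 with ⟨h2, e2⟩ | ⟨h2, e2⟩ | ⟨h2, e2⟩ <;>
  first
    | (exfalso; omega)
    | rw [e1, e2]

/-- three numbers prime to `3` with sum zero -/
theorem thr (hLCL : LCL) {A B C : ℤ} (hA : ¬ (3 : ℤ) ∣ A) (hB : ¬ (3 : ℤ) ∣ B) (hC : ¬ (3 : ℤ) ∣ C)
    (h : A + B + C = 0) : lw A + lw B + lw C = 1 := by
  obtain ⟨-, h1⟩ := cls hLCL hA
  obtain ⟨-, h2⟩ := cls hLCL hB
  obtain ⟨-, h3⟩ := cls hLCL hC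
  rcases h1 with ⟨h1, e1⟩ | ⟨h1, e1⟩ | ⟨h1, e1⟩ <;>
  rcases h2 with ⟨h2, e2⟩ | ⟨h2, e2⟩ | ⟨h2, e2⟩ <;>
  rcases h3 with ⟨h3, e3⟩ | ⟨h3, e3⟩ | ⟨h3, e3⟩ <;>
  first
    | (exfalso; omega)
    | (rw [e1, e2, e3]; decide)

/-- `3` divides exactly one of the three numbers -/
theorem one (hLCL : LCL) {A C D B : ℤ} (hA0 : A ≠ 0) (hA : (3 : ℤ) ∣ A) (hC : ¬ (3 : ℤ) ∣ C)
    (h : A + C + D = 0) (h1 : lv A + lv C + lv D = lv B) (h2 : lw A + lw C + lw D = lw B)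
    (h3 : lv B ≠ 1) :
    lv C = 0 ∧ lv D = 0 ∧ lv A = lv B ∧ lw C = lw D ∧ lw A - lw C = lw B := by
  have hD : ¬ (3 : ℤ) ∣ D := by omega
  obtain ⟨c0, -⟩ := cls hLCL hC
  obtain ⟨d0, -⟩ := cls hLCL hD
  rw [c0, d0, add_zero, add_zero] at h1
  have h9 : (9 : ℤ) ∣ A := by
    by_contra hcon
    obtain ⟨a, rfl⟩ := hA
    have ha : ¬ (3 : ℤ) ∣ a := fun h => hcon (by obtain ⟨t, rfl⟩ := h; exact ⟨t, by ring⟩)
    have ha0 : a ≠ 0 := fun h => ha (h ▸ dvd_zero _)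
    have e := (hLCL.2.1 3 a (by norm_num) ha0).1
    rw [hLCL.2.2.1.1, (cls hLCL ha).1, add_zero] at e
    exact h3 (h1.symm.trans e)
  have e : lw C = lw D := opp hLCL hC hD (by omega)
  refine ⟨c0, d0, h1, e, ?_⟩
  rw [← h2, ← e]
  have h4 : (3 : ZMod 3) = 0 := by decide
  linear_combination (-lw C) * h4

theorem main (hLCL : LCL) : ∀ (n : ℕ) (P Q R B : ℤ), P.natAbs ≤ n → P ≠ 0 → Q ≠ 0 → R ≠ 0 →
    B ≠ 0 → P + Q + R = 0 → lv (P * Q * R) = lv B → lw (P * Q * R) = lw B → lv B ≠ 1 →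
    ∃ κ : ZMod 3, lv Q - lv R = κ * lv B ∧ lw Q - lw R = κ * lw B := by
  intro n
  induction n with
  | zero =>
    intro P Q R B hn hP
    exact absurd (Int.natAbs_eq_zero.1 (Nat.le_zero.1 hn)) hP
  | succ n ih =>
    intro P Q R B hn hP hQ hR hB hs h1 h2 h3
    have hPQ : P * Q ≠ 0 := mul_ne_zero hP hQ
    have f1 : lv P + lv Q + lv R = lv B := by
      rw [← h1, (hLCL.2.1 _ _ hPQ hR).1, (hLCL.2.1 _ _ hP hQ).1]
    have f2 : lw P + lw Q + lw R = lw B := by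
      rw [← h2, (hLCL.2.1 _ _ hPQ hR).2, (hLCL.2.1 _ _ hP hQ).2]
    by_cases hp : (3 : ℤ) ∣ P
    · by_cases hq : (3 : ℤ) ∣ Q
      · -- all divisible
        have hr : (3 : ℤ) ∣ R := by omega
        obtain ⟨p, rfl⟩ := hp
        obtain ⟨q, rfl⟩ := hq
        obtain ⟨r, rfl⟩ := hr
        have p0 : p ≠ 0 := fun h => hP (by rw [h, mul_zero])
        have q0 : q ≠ 0 := fun h => hQ (by rw [h, mul_zero])
        have r0 : r ≠ 0 := fun h => hR (by rw [h, mul_zero])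
        have t0 : (3 : ℤ) ≠ 0 := by norm_num
        obtain ⟨a1, b1⟩ := hLCL.2.1 3 p t0 p0
        obtain ⟨a2, b2⟩ := hLCL.2.1 3 q t0 q0
        obtain ⟨a3, b3⟩ := hLCL.2.1 3 r t0 r0
        obtain ⟨c1, c2⟩ := hLCL.2.2.1
        have h4 : (3 : ZMod 3) = 0 := by decide
        rw [a1, a2, a3, c1] at f1
        rw [b1, b2, b3, c2] at f2
        obtain ⟨κ, k1, k2⟩ := ih p q r B (by omega) p0 q0 r0 hB (by omega)
          (by
            rw [(hLCL.2.1 _ _ (mul_ne_zero p0 q0) r0).1, (hLCL.2.1 _ _ p0 q0).1]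
            linear_combination f1 - h4)
          (by
            rw [(hLCL.2.1 _ _ (mul_ne_zero p0 q0) r0).2, (hLCL.2.1 _ _ p0 q0).2]
            linear_combination f2) h3
        refine ⟨κ, ?_, ?_⟩
        · rw [a2, a3, ← k1]
          ring
        · rw [b2, b3, ← k2]
          ring
      · -- only `P`
        obtain ⟨c0, d0, e1, e2, e3⟩ := one hLCL hP hp hq hs f1 f2 h3
        exact ⟨0, by rw [c0, d0]; ring, by rw [e2]; ring⟩
    · by_cases hq : (3 : ℤ) ∣ Q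
      · -- only `Q`
        obtain ⟨c0, d0, e1, e2, e3⟩ := one (D := R) (B := B) hLCL hQ hq hp (by omega)
          (by rw [← f1]; ring) (by rw [← f2]; ring) h3
        refine ⟨1, ?_, ?_⟩
        · rw [d0, e1]
          ring
        · rw [← e3, e2]
          ring
      · by_cases hr : (3 : ℤ) ∣ R
        · -- only `R`
          obtain ⟨c0, d0, e1, e2, e3⟩ := one (D := Q) (B := B) hLCL hR hr hp (by omega)
            (by rw [← f1]; ring) (by rw [← f2]; ring) h3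
          refine ⟨-1, ?_, ?_⟩
          · rw [d0, e1]
            ring
          · rw [← e3, e2]
            ring
        · -- none
          have g := thr hLCL hp hq hr hs
          rw [f2] at g
          refine ⟨lw Q - lw R, ?_, ?_⟩
          · rw [← f1, (cls hLCL hp).1, (cls hLCL hq).1, (cls hLCL hr).1]
            ring
          · rw [g, mul_one]

end LRR

theorem LRR_thm (hLCL : LCL) : Stmt_LRR := by
  intro R B hR hB hs h1 h2 h3
  exact LRR.main hLCL _ (R 0) (R 1) (R 2) B le_rfl (hR 0) (hR 1) (hR 2) hB hs h1 h2 h3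

end Pool.Agent.PTK

end

section

/-!
# PTK_TAE: additivity of the pairing in the second variable
-/

set_option autoImplicit false

open NumberField IsDedekindDomain Finset
open scoped nonZeroDivisors Pointwise

namespace Pool.Agent.PTK

open Pool.Agent.Lib_helper18 Pool.Agent.Lib_helper18.Eis Pool.Agent.Lib_helper84.Cub
open Pool.Agent.PT Pool.Agent.PTE Pool.Agent.PT3 Pool.Agent.PTL Pool.Agent.PTN

namespace TAE

/-! ### The algebra -/

/-- the norm form of `x + y T + z T^2`, `T^3 = b` -/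
def N3 (b x y z : Eis) : Eis := x ^ 3 + b * y ^ 3 + b ^ 2 * z ^ 3 - 3 * b * x * y * z

theorem N3_mul (b x y z u v t : Eis) :
    N3 b (x * u + b * (y * t + z * v)) (x * v + y * u + b * (z * t)) (x * t + y * v + z * u) =
      N3 b x y z * N3 b u v t := by
  unfold N3
  ring

/-- no zeros of `p^3 + b q^3` when `b` is not a cube -/
theorem ne_of_not_cube {b p q : Eis} (hb : ¬ ∃ c : Eis, c ^ 3 = b) (h : ¬ (p = 0 ∧ q = 0)) :
    p ^ 3 + b * q ^ 3 ≠ 0 := by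
  intro h0
  by_cases hq : q = 0
  · subst hq
    have h1 : p ^ 3 = 0 := by linear_combination h0
    exact h ⟨pow_eq_zero_iff (three_ne_zero) |>.1 h1, rfl⟩
  · obtain ⟨c, hc⟩ := HNE.cube_of (y := -b) (a := p) hq (by linear_combination h0)
    exact hb ⟨-c, by linear_combination -hc⟩

/-- the product of two elements `(p + q T)/(p' + q' T)` has this form again -/
theorem exists_prod (b : Eis) (p₁ q₁ p₁' q₁' p₂ q₂ p₂' q₂' : Eis)
    (h1 : p₁' ^ 3 + b * q₁' ^ 3 ≠ 0) (h2 : p₂' ^ 3 + b * q₂' ^ 3 ≠ 0) :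
    ∃ p q p' q' : Eis, ¬ (p' = 0 ∧ q' = 0) ∧
      (p₁ * p₂ * p' + b * (q₁ * q₂ * q') = p₁' * p₂' * p + b * (q₁' * q₂' * q)) ∧
      ((p₁ * q₂ + q₁ * p₂) * p' + p₁ * p₂ * q' = (p₁' * q₂' + q₁' * p₂') * p + p₁' * p₂' * q) ∧
      (q₁ * q₂ * p' + (p₁ * q₂ + q₁ * p₂) * q' = q₁' * q₂' * p + (p₁' * q₂' + q₁' * p₂') * q) := by
  obtain ⟨e0, he0⟩ : ∃ e0, e0 = p₁ * p₂ := ⟨_, rfl⟩
  obtain ⟨e1, he1⟩ : ∃ e1, e1 = p₁ * q₂ + q₁ * p₂ := ⟨_, rfl⟩
  obtain ⟨e2, he2⟩ : ∃ e2, e2 = q₁ * q₂ := ⟨_, rfl⟩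
  obtain ⟨f0, hf0⟩ : ∃ e0, e0 = p₁' * p₂' := ⟨_, rfl⟩
  obtain ⟨f1, hf1⟩ : ∃ e1, e1 = p₁' * q₂' + q₁' * p₂' := ⟨_, rfl⟩
  obtain ⟨f2, hf2⟩ : ∃ e2, e2 = q₁' * q₂' := ⟨_, rfl⟩
  have hN : N3 b f0 f1 f2 = (p₁' ^ 3 + b * q₁' ^ 3) * (p₂' ^ 3 + b * q₂' ^ 3) := by
    have := N3_mul b p₁' q₁' 0 p₂' q₂' 0
    unfold N3 at this ⊢
    subst hf0 hf1 hf2
    linear_combination this
  have hN0 : N3 b f0 f1 f2 ≠ 0 := by rw [hN]; exact mul_ne_zero h1 h2
  rw [← he0, ← he1, ← he2, ← hf0, ← hf1, ← hf2]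
  obtain ⟨g0, hg0⟩ : ∃ g, g = e0 * (f0 ^ 2 - b * f1 * f2) + b * (e1 * (f1 ^ 2 - f0 * f2) +
      e2 * (b * f2 ^ 2 - f0 * f1)) := ⟨_, rfl⟩
  obtain ⟨g1, hg1⟩ : ∃ g, g = e0 * (b * f2 ^ 2 - f0 * f1) + e1 * (f0 ^ 2 - b * f1 * f2) +
      b * (e2 * (f1 ^ 2 - f0 * f2)) := ⟨_, rfl⟩
  obtain ⟨g2, hg2⟩ : ∃ g, g = e0 * (f1 ^ 2 - f0 * f2) + e1 * (b * f2 ^ 2 - f0 * f1) +
      e2 * (f0 ^ 2 - b * f1 * f2) := ⟨_, rfl⟩
  -- g * f = N e
  have k0 : g0 * f0 + b * (g1 * f2 + g2 * f1) = N3 b f0 f1 f2 * e0 := by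
    unfold N3; subst hg0 hg1 hg2; ring
  have k1 : g0 * f1 + g1 * f0 + b * (g2 * f2) = N3 b f0 f1 f2 * e1 := by
    unfold N3; subst hg0 hg1 hg2; ring
  have k2 : g0 * f2 + g1 * f1 + g2 * f0 = N3 b f0 f1 f2 * e2 := by
    unfold N3; subst hg0 hg1 hg2; ring
  by_cases hg : g1 = 0 ∧ g2 = 0
  · obtain ⟨hg1', hg2'⟩ := hg
    refine ⟨g0, 0, N3 b f0 f1 f2, 0, fun h => hN0 h.1, ?_, ?_, ?_⟩
    · rw [hg1', hg2'] at k0; linear_combination -k0
    · rw [hg1', hg2'] at k1; linear_combination -k1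
    · rw [hg1', hg2'] at k2; linear_combination -k2
  · refine ⟨g0 * g1 - b * g2 ^ 2, g1 ^ 2 - g0 * g2, N3 b f0 f1 f2 * g1, - (N3 b f0 f1 f2 * g2),
      fun h => hg ⟨(mul_eq_zero.1 h.1).resolve_left hN0,
        (mul_eq_zero.1 (neg_eq_zero.1 h.2)).resolve_left hN0⟩, ?_, ?_, ?_⟩
    · linear_combination (-g1) * k0 + b * g2 * k2
    · linear_combination (-g1) * k1 + g2 * k0
    · linear_combination (-g1) * k2 + g2 * k1

/-- the norm of the product -/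
theorem norm_prod {b p₁ q₁ p₁' q₁' p₂ q₂ p₂' q₂' p q p' q' : Eis}
    (h : PRelE b p₁ q₁ p₁' q₁' p₂ q₂ p₂' q₂' p q p' q') :
    (p₁ ^ 3 + b * q₁ ^ 3) * (p₂ ^ 3 + b * q₂ ^ 3) * (p' ^ 3 + b * q' ^ 3) =
      (p₁' ^ 3 + b * q₁' ^ 3) * (p₂' ^ 3 + b * q₂' ^ 3) * (p ^ 3 + b * q ^ 3) := by
  have h1 := N3_mul b p₁ q₁ 0 p₂ q₂ 0
  have h2 := N3_mul b p₁' q₁' 0 p₂' q₂' 0
  have h3 := N3_mul b (p₁ * p₂) (p₁ * q₂ + q₁ * p₂) (q₁ * q₂) p' q' 0
  have h4 := N3_mul b (p₁' * p₂') (p₁' * q₂' + q₁' * p₂') (q₁' * q₂') p q 0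
  have h5 : N3 b (p₁ * p₂ * p' + b * ((p₁ * q₂ + q₁ * p₂) * 0 + q₁ * q₂ * q'))
      (p₁ * p₂ * q' + (p₁ * q₂ + q₁ * p₂) * p' + b * (q₁ * q₂ * 0))
      (p₁ * p₂ * 0 + (p₁ * q₂ + q₁ * p₂) * q' + q₁ * q₂ * p') =
    N3 b (p₁' * p₂' * p + b * ((p₁' * q₂' + q₁' * p₂') * 0 + q₁' * q₂' * q))
      (p₁' * p₂' * q + (p₁' * q₂' + q₁' * p₂') * p + b * (q₁' * q₂' * 0))
      (p₁' * p₂' * 0 + (p₁' * q₂' + q₁' * p₂') * q + q₁' * q₂' * p) := by
    congr 1
    · linear_combination h.e0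
    · linear_combination h.e1
    · linear_combination h.e2
  rw [h3, h4] at h5
  have g1 : N3 b (p₁ * p₂) (p₁ * q₂ + q₁ * p₂) (q₁ * q₂) =
      (p₁ ^ 3 + b * q₁ ^ 3) * (p₂ ^ 3 + b * q₂ ^ 3) := by
    unfold N3 at h1 ⊢
    linear_combination h1
  have g2 : N3 b (p₁' * p₂') (p₁' * q₂' + q₁' * p₂') (q₁' * q₂') =
      (p₁' ^ 3 + b * q₁' ^ 3) * (p₂' ^ 3 + b * q₂' ^ 3) := by
    unfold N3 at h2 ⊢
    linear_combination h2
  have g3 : N3 b p' q' 0 = p' ^ 3 + b * q' ^ 3 := by unfold N3; ring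
  have g4 : N3 b p q 0 = p ^ 3 + b * q ^ 3 := by unfold N3; ring
  rw [g1, g2, g3, g4] at h5
  exact h5

/-! ### The linear forms -/

theorem LfE_ndvd {u b p q r : Eis} (hr : u ∣ r ^ 3 - b) (h : ¬ u ∣ p ^ 3 + b * q ^ 3) (i : ℕ) :
    ¬ u ∣ LfE p q i r := by
  intro hd
  apply h
  have h3 : (w ^ i) ^ 3 = 1 := by rw [← pow_mul, mul_comm, pow_mul, w_cube, one_pow]
  have h1 : p ^ 3 + b * q ^ 3 =
      LfE p q i r * (p ^ 2 - p * (q * w ^ i * r) + (q * w ^ i * r) ^ 2) -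
        q ^ 3 * (r ^ 3 - b) := by
    unfold LfE
    linear_combination (- q ^ 3 * r ^ 3) * h3
  rw [h1]
  exact dvd_sub (dvd_mul_of_dvd_left hd _) (dvd_mul_of_dvd_right hr _)

/-- the linear forms are nonzero with bounded valuation at good approximations -/
theorem LfE_bound {π : Eis} (hπ : Prime π) {b p q r : Eis} {N : ℕ}
    (hn : p ^ 3 + b * q ^ 3 ≠ 0) (hr : π ^ N ∣ r ^ 3 - b)
    (hN : V π (p ^ 3 + b * q ^ 3) < N) (i : ℕ) :
    LfE p q i r ≠ 0 ∧ V π (LfE p q i r) ≤ V π (p ^ 3 + b * q ^ 3) := by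
  have hnd : ¬ π ^ (V π (p ^ 3 + b * q ^ 3) + 1) ∣ LfE p q i r := by
    refine LfE_ndvd ((pow_dvd_pow π (by omega)).trans hr) ?_ i
    exact (fin hπ hn).not_pow_dvd_of_multiplicity_lt (Nat.lt_succ_self _)
  have h0 : LfE p q i r ≠ 0 := by
    intro h
    rw [h] at hnd
    exact hnd (dvd_zero _)
  refine ⟨h0, ?_⟩
  by_contra hlt
  push Not at hlt
  apply hnd
  exact pow_dvd_of_le_multiplicity hlt

/-- evaluation of the identity at `w^i r` -/
theorem LfE_ident {b p₁ q₁ p₁' q₁' p₂ q₂ p₂' q₂' p q p' q' : Eis}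
    (h : PRelE b p₁ q₁ p₁' q₁' p₂ q₂ p₂' q₂' p q p' q') (i : ℕ) (r : Eis) :
    LfE p₁ q₁ i r * LfE p₂ q₂ i r * LfE p' q' i r -
      LfE p₁' q₁' i r * LfE p₂' q₂' i r * LfE p q i r =
      (r ^ 3 - b) * (q₁ * q₂ * q' - q₁' * q₂' * q) := by
  have h3 : (w ^ i) ^ 3 = 1 := by rw [← pow_mul, mul_comm, pow_mul, w_cube, one_pow]
  have e0' := h.e0
  have e1' := h.e1
  have e2' := h.e2
  unfold LfE
  generalize w ^ i = W at *
  linear_combination e0' + W * r * e1' + W ^ 2 * r ^ 2 * e2' +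
    (q₁ * q₂ * q' - q₁' * q₂' * q) * r ^ 3 * h3

/-- additivity of `ASE` at good approximations -/
theorem ASE_add {π : Eis} {s : Eis → Eis → ZMod 3} {e : ℕ} (hs : LSym π s e)
    {B b p₁ q₁ p₁' q₁' p₂ q₂ p₂' q₂' p q p' q' : Eis} (hB : B ≠ 0)
    (n₁ : p₁ ^ 3 + b * q₁ ^ 3 ≠ 0) (n₂ : p₂ ^ 3 + b * q₂ ^ 3 ≠ 0)
    (n₃ : p' ^ 3 + b * q' ^ 3 ≠ 0) (m₁ : p₁' ^ 3 + b * q₁' ^ 3 ≠ 0)
    (m₂ : p₂' ^ 3 + b * q₂' ^ 3 ≠ 0) (m₃ : p ^ 3 + b * q ^ 3 ≠ 0)
    (h : PRelE b p₁ q₁ p₁' q₁' p₂ q₂ p₂' q₂' p q p' q') :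
    ∃ N0 : ℕ, ∀ r : Eis, π ^ N0 ∣ r ^ 3 - b →
      ASE s B p q p' q' r = ASE s B p₁ q₁ p₁' q₁' r + ASE s B p₂ q₂ p₂' q₂' r := by
  refine ⟨V π (p₁ ^ 3 + b * q₁ ^ 3) + V π (p₂ ^ 3 + b * q₂ ^ 3) +
    V π (p' ^ 3 + b * q' ^ 3) + V π (p₁' ^ 3 + b * q₁' ^ 3) +
    V π (p₂' ^ 3 + b * q₂' ^ 3) + V π (p ^ 3 + b * q ^ 3) + e + 1, fun r hr => ?_⟩
  have key : ∀ i : ℕ,
      s B (LfE p₁ q₁ i r) + s B (LfE p₂ q₂ i r) + s B (LfE p' q' i r) =
        s B (LfE p₁' q₁' i r) + s B (LfE p₂' q₂' i r) + s B (LfE p q i r) := by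
    intro i
    have a1 := LfE_bound hs.prime n₁ hr (by omega) i
    have a2 := LfE_bound hs.prime n₂ hr (by omega) i
    have a3 := LfE_bound hs.prime n₃ hr (by omega) i
    have b1 := LfE_bound hs.prime m₁ hr (by omega) i
    have b2 := LfE_bound hs.prime m₂ hr (by omega) i
    have b3 := LfE_bound hs.prime m₃ hr (by omega) i
    refine Pool.Agent.PT.TADD.step_i hs hB a1.1 a2.1 a3.1 b1.1 b2.1 b3.1 ?_ hr (LfE_ident h i r)
    have h1 := b1.2
    have h2 := b2.2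
    have h3 := b3.2
    omega
  have k1 := key 1
  have k2 := key 2
  unfold ASE
  linear_combination k1 - k2

/-! ### The local terms -/

lemma w_ne : w ≠ 0 := by
  intro h
  have h2 := congrArg Eis.im h
  simp at h2

/-- the denominators -/
theorem SolWE.den {b x p q p' q' : Eis} (h : SolWE b x p q p' q') : p' ^ 3 + b * q' ^ 3 ≠ 0 := by
  intro h1
  apply h.n1
  rw [h.eq, h1, mul_zero]

/-- additivity of `AVE` -/
theorem AVE_add (hAVE : Stmt_AVE) {v : Pl} {e : ℕ} (hs : LSym (uni v) (sy v) e)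
    {B b x₁ x₂ p₁ q₁ p₁' q₁' p₂ q₂ p₂' q₂' p q p' q' : Eis} (hB : B ≠ 0) (hb : b ≠ 0)
    (hx₁ : x₁ ≠ 0) (hx₂ : x₂ ≠ 0) (h₁ : sy v B x₁ = 0) (h₂ : sy v B x₂ = 0)
    (S₁ : SolWE b x₁ p₁ q₁ p₁' q₁') (S₂ : SolWE b x₂ p₂ q₂ p₂' q₂')
    (S : SolWE b (x₁ * x₂) p q p' q') (hR : PRelE b p₁ q₁ p₁' q₁' p₂ q₂ p₂' q₂' p q p' q')
    (hL : LCE (uni v) b) :
    AVE v B b p q p' q' = AVE v B b p₁ q₁ p₁' q₁' + AVE v B b p₂ q₂ p₂' q₂' := by
  have h12 : sy v B (x₁ * x₂) = 0 := by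
    rw [Pool.Agent.PT.TADD.LSym.right_mul hs hB hx₁ hx₂, h₁, h₂, add_zero]
  obtain ⟨⟨N₁, hN₁⟩, -⟩ := hAVE v B b x₁ p₁ q₁ p₁' q₁' hB hb hx₁ S₁ h₁ hL
  obtain ⟨⟨N₂, hN₂⟩, -⟩ := hAVE v B b x₂ p₂ q₂ p₂' q₂' hB hb hx₂ S₂ h₂ hL
  obtain ⟨-, huniq⟩ := hAVE v B b (x₁ * x₂) p q p' q' hB hb (mul_ne_zero hx₁ hx₂) S h12 hL
  obtain ⟨N₃, hN₃⟩ := ASE_add hs hB S₁.n1 S₂.n1 (SolWE.den S) (SolWE.den S₁) (SolWE.den S₂)
    S.n1 hR
  refine huniq _ (max N₁ (max N₂ N₃)) (fun r hr => ?_)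
  rw [hN₃ r ((pow_dvd_pow _ (by omega)).trans hr),
    hN₁ r ((pow_dvd_pow _ (by omega)).trans hr),
    hN₂ r ((pow_dvd_pow _ (by omega)).trans hr)]

/-- the solution with exchanged base and norm -/
theorem SolE.swap {b x p q p' q' : Eis} (h : SolE b x p q p' q') :
    SolWE x b p (-p') (-q) q' where
  eq := by linear_combination h.eq
  n1 := by
    intro h1
    apply h.n2
    linear_combination h1

/-- the local term at `λ` when `B` is a local cube and `b` is not -/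
theorem LTE_cube (hAVE : Stmt_AVE) (hLCI : Stmt_LCI) (hSLC : SLC) {B b x p q p' q' : Eis}
    (hB : B ≠ 0) (hb : b ≠ 0) (hx : x ≠ 0) (hLB : LCE lam B) (hLb : ¬ LCE lam b)
    (S : SolE b x p q p' q') : LTE B b x p q p' q' = lfE b x := by
  have hz : ∀ a c : Eis, LCE lam a → a ≠ 0 → c ≠ 0 → sl a c = 0 :=
    fun a c h ha hc => hLCI.2.2 lam sl 4 a c hSLC h ha hc
  have hw0 : w ≠ 0 := w_ne
  unfold LTE
  rw [if_neg hLb]
  split_ifs with hLx
  · have h4 : (4 : Eis) ≠ 0 := by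
      intro h
      have := congrArg Eis.re h
      revert this
      decide
    have h3 : (3 : Eis) ≠ 0 := by
      intro h
      have := congrArg Eis.re h
      revert this
      decide
    have hA : AVE none B x p (-p') (-q) q' = 0 := by
      have hS' := SolE.swap S
      obtain ⟨-, huniq⟩ := hAVE none B x b p (-p') (-q) q' hB hx hb hS' (hz B b hLB hB hb) hLx
      refine huniq 0 (V lam (p ^ 3 + x * (-p') ^ 3) + V lam ((-q) ^ 3 + x * q' ^ 3) + 1)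
        (fun r hr => ?_)
      have hr' : lam ^ (V lam (p ^ 3 + x * (-p') ^ 3) + V lam ((-q) ^ 3 + x * q' ^ 3) + 1) ∣
        r ^ 3 - x := hr
      have a : ∀ i, LfE p (-p') i r ≠ 0 := fun i =>
        (LfE_bound hSLC.prime hS'.n1 hr' (by omega) i).1
      have a' : ∀ i, LfE (-q) q' i r ≠ 0 := fun i =>
        (LfE_bound hSLC.prime (SolWE.den hS') hr' (by omega) i).1
      unfold ASE
      show sl B (LfE p (-p') 2 r) + sl B (LfE (-q) q' 1 r) - sl B (LfE p (-p') 1 r) -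
        sl B (LfE (-q) q' 2 r) = 0
      rw [hz B _ hLB hB (a 2), hz B _ hLB hB (a' 1), hz B _ hLB hB (a 1), hz B _ hLB hB (a' 2)]
      ring
    have hU : UVE sl B b x p q p' q' = sl w b := by
      unfold UVE
      rw [hz B _ hLB hB S.g1, hz B _ hLB hB S.g2,
        Pool.Agent.PT.TADD.LSym.right_mul hSLC hw0 (mul_ne_zero hB hx) hb,
        Pool.Agent.PT.TADD.LSym.right_mul hSLC hw0 hB hx,
        hSLC.skew B w hB hw0, hz B w hLB hB hw0, hSLC.skew x w hx hw0, hz x w hLx hx hw0]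
      ring
    rw [hA, hU]
    unfold lfE
    rw [hz x 3 hLx hx h3, hz x 4 hLx hx h4]
    ring
  · rfl

end TAE

open _root_.Pool.Agent.PTK.TAE in
/-- PTK_TAE: additivity of the pairing. -/
theorem TAE_thm (hAVE : Stmt_AVE) (hLFE : Stmt_LFE) (hRAE : Stmt_RAE) (hLCI : Stmt_LCI)
    (hSTM : STM) (hSPP : SPP) (hSLC : SLC) : Stmt_TAE := by
  have hv : ∀ v : Pl, ∃ e, LSym (uni v) (sy v) e := by
    intro v
    rcases v with _ | π
    · exact ⟨4, hSLC⟩
    · exact ⟨1, hSTM π.1 π.2.1 (hSPP.2.2.2.1 π).1⟩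
  have hw0 : w ≠ 0 := TAE.w_ne
  have hslz : ∀ (B x : Eis), AGE B x → sl x B = 0 := by
    intro B x hx
    unfold sl
    rw [finsum_eq_zero_of_forall_eq_zero fun π : PP => hx.sym π, neg_zero]
  have hsy : ∀ (B x : Eis), B ≠ 0 → AGE B x → ∀ v : Pl, sy v B x = 0 := by
    intro B x hB0 hx v
    rcases v with _ | π
    · change sl B x = 0
      rw [hSLC.skew x B hx.ne hB0, hslz B x hx, neg_zero]
    · change tm π.1 B x = 0
      rw [(hSTM π.1 π.2.1 (hSPP.2.2.2.1 π).1).skew x B hx.ne hB0, hx.sym π, neg_zero]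
  intro b x₁ x₂ p₁ q₁ p₁' q₁' p₂ q₂ p₂' q₂' hb hx12 hb0 hx₁ hx₂ Mb _ _ T₁ T₂
  have S₁ := T₁.toSolWE
  have S₂ := T₂.toSolWE
  obtain ⟨p, q, p', q', hne, e0, e1, e2⟩ := exists_prod b p₁ q₁ p₁' q₁' p₂ q₂ p₂' q₂'
    (TAE.SolWE.den S₁) (TAE.SolWE.den S₂)
  have hR : PRelE b p₁ q₁ p₁' q₁' p₂ q₂ p₂' q₂' p q p' q' := ⟨e0, e1, e2⟩
  have d' : p' ^ 3 + b * q' ^ 3 ≠ 0 := ne_of_not_cube hb hne
  have hS : SolWE b (x₁ * x₂) p q p' q' := by
    have heq : p ^ 3 + b * q ^ 3 = x₁ * x₂ * (p' ^ 3 + b * q' ^ 3) := by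
      apply mul_left_cancel₀ (mul_ne_zero (TAE.SolWE.den S₁) (TAE.SolWE.den S₂))
      rw [← norm_prod hR, S₁.eq, S₂.eq]
      ring
    refine ⟨heq, ?_⟩
    rw [heq]
    exact mul_ne_zero (mul_ne_zero hx₁ hx₂) d'
  have hT : SolE b (x₁ * x₂) p q p' q' := HNE.sol hb0 hx12 hS
  refine ⟨p, q, p', q', hT, ?_⟩
  intro B hB hAb hA₁ hA₂ hcase
  have hB0 : (B : Eis) ≠ 0 := hB.ne
  have hx120 : x₁ * x₂ ≠ 0 := mul_ne_zero hx₁ hx₂
  -- the tame places
  have htame : ∀ π : PP, TTE π B b (x₁ * x₂) p q p' q' =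
      TTE π B b x₁ p₁ q₁ p₁' q₁' + TTE π B b x₂ p₂ q₂ p₂' q₂' := by
    intro π
    have hs : LSym π.1 (tm π.1) 1 := hSTM π.1 π.2.1 (hSPP.2.2.2.1 π).1
    have htw : tm π.1 w (x₁ * x₂) = tm π.1 w x₁ + tm π.1 w x₂ :=
      Pool.Agent.PT.TADD.LSym.right_mul hs hw0 hx₁ hx₂
    unfold TTE
    by_cases hL : LCE π.1 b
    · rw [if_pos hL, if_pos hL, if_pos hL, htw,
        AVE_add hAVE (v := some π) hs hB0 hb0 hx₁ hx₂ (hsy B x₁ hB0 hA₁ _) (hsy B x₂ hB0 hA₂ _)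
          S₁ S₂ hS hR hL]
      ring
    · rw [if_neg hL, if_neg hL, if_neg hL, htw]
      split_ifs <;> ring
  have hfin : ∑ᶠ π : PP, TTE π B b (x₁ * x₂) p q p' q' =
      ∑ᶠ π : PP, TTE π B b x₁ p₁ q₁ p₁' q₁' + ∑ᶠ π : PP, TTE π B b x₂ p₂ q₂ p₂' q₂' := by
    rw [← finsum_add_distrib (hLFE.1 B b x₁ p₁ q₁ p₁' q₁' hB hAb hA₁ S₁)
      (hLFE.1 B b x₂ p₂ q₂ p₂' q₂' hB hAb hA₂ S₂)]
    exact finsum_congr htame
  -- the place above `3`
  have hlam : LTE B b (x₁ * x₂) p q p' q' =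
      LTE B b x₁ p₁ q₁ p₁' q₁' + LTE B b x₂ p₂ q₂ p₂' q₂' := by
    by_cases hLb : LCE lam b
    · unfold LTE
      rw [if_pos hLb, if_pos hLb, if_pos hLb,
        Pool.Agent.PT.TADD.LSym.right_mul hSLC hw0 hx₁ hx₂,
        AVE_add hAVE (v := none) hSLC hB0 hb0 hx₁ hx₂ (hsy B x₁ hB0 hA₁ _)
          (hsy B x₂ hB0 hA₂ _) S₁ S₂ hS hR hLb]
      ring
    · by_cases hLB : LCE lam (B : Eis)
      · rw [LTE_cube hAVE hLCI hSLC hB0 hb0 hx120 hLB hLb hT,
          LTE_cube hAVE hLCI hSLC hB0 hb0 hx₁ hLB hLb T₁,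
          LTE_cube hAVE hLCI hSLC hB0 hb0 hx₂ hLB hLb T₂]
        have h4 : (4 : Eis) ≠ 0 := by
          intro h
          have := congrArg Eis.re h
          revert this
          decide
        have h3 : (3 : Eis) ≠ 0 := by
          intro h
          have := congrArg Eis.re h
          revert this
          decide
        unfold lfE
        rw [hSLC.mul x₁ x₂ 3 hx₁ hx₂ h3, hSLC.mul x₁ x₂ 4 hx₁ hx₂ h4]
        ring
      · obtain ⟨hL₁, hL₂⟩ := (hcase.resolve_left hLb).resolve_left hLB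
        have hBz : B ≠ 0 := by
          rintro rfl
          exact hB0 (by simp)
        exact hRAE B b x₁ x₂ p₁ q₁ p₁' q₁' p₂ q₂ p₂' q₂' p q p' q' hBz hb0 Mb
          (hslz B b hAb) hLb hx₁ hx₂ hL₁ hL₂ T₁ T₂ hT hR
  unfold OZE
  rw [hlam, hfin]
  ring

end Pool.Agent.PTK

end
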