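import Mathlib
import Pool.Agent.PTWX.C65
import Pool.Agent.PTWX.C68
import Pool.Agent.PTWX.C70
import Pool.Agent.PTWX.C71
import Pool.Agent.PTWX.C72
import Pool.Agent.PTWX.C73
import Pool.Agent.PTWX.C74
import Pool.Agent.PTWX.C75

/-! Parts: PTN.Final -/

section

/-!
# The law of the ranks of prime twists for every `n`: assembly
-/

namespace Pool.Agent.PTN.Final

open Pool.Agent.PT Pool.Agent.PT.Final Pool.Agent.PT.FinalB Pool.Agent.PTE Pool.Agent.PTE.Final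
open Pool.Agent.PT3 Pool.Agent.PT3.Final Pool.Agent.PTN

theorem fKEX : Stmt_KEX := KEX_thm

theorem fKEQ : Stmt_KEQ := KEQ_thm

theorem fKEMB : Stmt_KEMB := KEMB_thm

theorem fKOM : Stmt_KOM := KOM_thm fKEQ

theorem fKAD : Stmt_KAD := KAD_thm fKEQ

theorem fKKE : Stmt_KKE := KKE_thm fKEQ

theorem fKIX : Stmt_KIX := KIX_thm

theorem fKMI : Stmt_KMI := KMI_thm fKEQ

theorem fKPL : Stmt_KPL := KPL_thm fKEQ

theorem fKID : Stmt_KID := KID_thm fKEX fKEQ fKEMB fKOM fKAD fKKE fKIX fKMI fKPL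

theorem fNDIM : Stmt_NDIM := NDIM_thm

theorem fNSUM : Stmt_NSUM := NSUM_thm

theorem fNZER : Stmt_NZER := NZER_thm fEMAX

theorem fNVEC : Stmt_NVEC := NVEC_thm fEVET fSPP

theorem fNBAS : Stmt_NBAS := NBAS_thm fNVEC fEVET fSPP fLPT fLCL

theorem fNHPT : Stmt_NHPT := NHPT_thm fNVEC fEVET fSTM fSPP fLPT fLCL

theorem fNADT : Stmt_NADT := NADT_thm fSTM fSPP fSCJ fLCL

theorem fNADU : Stmt_NADU := NADU_thm fSTM fSPP fSCJ fSPLT fLCL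

theorem fNKIN : Stmt_NKIN := NKIN_thm fSTM fSPP fSTAR fSLC fSSL fSCJ fLCL

theorem fNPSI : Stmt_NPSI := NPSI_thm fSTM fSPP fSSL fSLC fSREC fSCJ fLCI fLCL

theorem fNPSU : Stmt_NPSU := NPSU_thm fNVEC fSTM fSPP fSSL fSLC fSREC fSCJ fLCI fSPLT fLCL

theorem fNPLU : Stmt_NPLU := NPLU_thm fSTM fSPP fLCL

theorem fNBKN : Stmt_NBKN := NBKN_thm fKID fNPSI fNKIN fNADT fNPLU fTENT fSPP

theorem fNBKU : Stmt_NBKU := NBKU_thm fKID fNPSU fNKIN fNADU fNPLU fTENT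

theorem fNBK0 : Stmt_NBK0 := NBK0_thm fKID fNPSU fNKIN fNADU fNPLU fNVEC fSPP fSPLT

theorem fBDG : Stmt_BDG := BDG_thm fGALG fEQD fDIR

theorem fGFRU : Stmt_GFRU := GFRU_thm fSPLT fSPP

theorem fGALDU : Stmt_GALDU := GALDU_thm fGZEROG fGCHI fGCG fGKUM fGTS fGFRU

theorem fEQX : Stmt_EQX := EQX_thm

theorem fBDU : Stmt_BDU := BDU_thm fGALDU fEQX fDIR

theorem fBDL : Stmt_BDL := BDL_thm fGALDU fSPLT

theorem fCLT : Stmt_CLT := CLT_thm fDIR fCLSC fCLSCS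

theorem fSMT : Stmt_SMT := SMT_thm

theorem fCLN : Stmt_CLN := CLN_thm fNBAS fESYT fDCOT fCLSC fNBKN fBDG fTENT fNADT

theorem fDLU : Stmt_DLU := DLU_thm fESYT fDCOU fCLSC fCLSCS fNBKU fBDU fTENT fNADU fSPLT

theorem fDLL : Stmt_DLL := DLL_thm fESYT fCLSC fCLSCS fBDL fSPLT

theorem fCLU : Stmt_CLU := CLU_thm fNHPT fDLU fDLL fCLT fSMT fNBK0 fSPLT

theorem fDOMG : Stmt_DOMG := DOMG_thm

theorem fLAW : Stmt_LAW := LAW_thm

theorem fCAB : Stmt_CAB := CAB_thm fSPP fCLN fCLU fDOMG fLAW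

theorem fCBE : Stmt_CBE := CBE_thm fCLN fCLU fCLT fSPP

theorem fSUMA : Stmt_SUMA := SUMA_thm

theorem fTRU : Stmt_TRU := TRU_thm fCLSC fCLSCS fSPP

theorem fNFE : Stmt_NFE := NFE_thm fENF

theorem fNSU1 : Stmt_NSU1 := NSU1_thm

theorem fNZE1 : Stmt_NZE1 := NZE1_thm fEMAX

theorem fNZE0 : Stmt_NZE0 := NZE0_thm fEDC

theorem fTRC : Stmt_TRC := TRC_thm fTRU

theorem fALLQ : Stmt_ALLQ := ALLQ_thm fCAB fCBE fLAW fSUMA fNDIM fNSUM fNZER fNSU1 fNZE1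

theorem fMAINQ : Stmt_MAINQ := MAINQ_thm fNFE fNDIM fNSUM fNZER fNSU1 fNZE1 fNZE0 fCAB fCBE fLAW fALLQ fTRU fTRC fCLN fCLU fSUMA

end Pool.Agent.PTN.Final

end
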