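import Mathlib
import Pool.Agent.PTWX.C59
import Pool.Agent.PTWX.C60
import Pool.Agent.PTWX.C67

/-! Parts: PTKX.MTZ, PTKX.JC1, PTKX.MC1, PTKX.DNS, PTKX.DNS1, PTKX.ZKE, PTKX.KUM, PTKX.DX3 -/

namespace Pool.Agent.PTK.DNS
end Pool.Agent.PTK.DNS

namespace Pool.Agent.PTK.DNS1
end Pool.Agent.PTK.DNS1

namespace Pool.Agent.PTK.ZKE
end Pool.Agent.PTK.ZKE

section

/-!
# PTK_MTZ: the joint density, `q = 1 (mod 3)`, all rational classes cubes modulo `q`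
-/

set_option autoImplicit false

open NumberField IsDedekindDomain Finset
open scoped nonZeroDivisors Pointwise

namespace Pool.Agent.PTK

open Pool.Agent.Lib_helper18 Pool.Agent.Lib_helper18.Eis Pool.Agent.Lib_helper84.Cub
open Pool.Agent.PT Pool.Agent.PTE Pool.Agent.PT3 Pool.Agent.PTL Pool.Agent.PTN

/-- PTK_MTZ. -/
theorem MTZ_thm (hCLSC : CLSC) (hCLSCS : CLSCS) (hMSY : Stmt_MSY) (hMPZ : Stmt_MPZ)
    (hMS1 : Stmt_MS1) (hBMZ : Stmt_BMZ) : Stmt_MTZ := by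
  classical
  intro h n m k π p e r f w0 c s τ b X Y P Q P' Q' hNF hh hPl Mm N y α β hT t
  obtain ⟨P1, Q1, P1', Q1', hSys, hHyp⟩ := hMSY h n m k π p e r f w0 c hNF hh Mm N y α β hT
  obtain ⟨f0, hf0, hf1⟩ := hMPZ h n m k π p e r f w0 c s τ b X Y P Q P' Q' hNF hh hPl
  obtain ⟨g0, hg0, hg1⟩ := hMS1 h n m k π p e r f w0 c hNF hh Mm N y α β hT P1 Q1 P1' Q1' hSys hHyp
  obtain ⟨F, hF, hF9, hpF, hfF, hgF⟩ : ∃ F : ℕ, 0 < F ∧ 9 ∣ F ∧ (∀ i, p i ∣ F) ∧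
      f0 ∣ F ∧ g0 ∣ F := by
    refine ⟨9 * (∏ i, p i) * (f0 * g0), ?_, ?_, ?_, ?_, ?_⟩
    · have h1 : 0 < ∏ i, p i := Finset.prod_pos fun i _ => (hNF.pp i).pos
      positivity
    · exact Dvd.dvd.mul_right (Dvd.intro _ rfl) _
    · intro i
      exact Dvd.dvd.mul_right (Dvd.dvd.mul_left (Finset.dvd_prod_of_mem p (mem_univ i)) _) _
    · exact Dvd.dvd.mul_left (Dvd.intro _ rfl) _
    · exact Dvd.dvd.mul_left (Dvd.intro_left _ rfl) _
  obtain ⟨κ, hκ1, hκ2⟩ := hCLSC m π p hNF.pp hNF.p1 hNF.pπ hNF.pinj F hF hF9 hpF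
  have hκ3 := hCLSCS F m κ hF hF9 hκ2
  obtain ⟨C, Φ, N1, hN1⟩ := hf1 F hF hfF κ hκ1
  obtain ⟨C', Φ', N2, hN2⟩ := hg1 F hF hgF κ hκ1
  obtain ⟨K, hK⟩ := hBMZ s b P Q P' Q' Mm N (fun i => zN π e (y i)) α β P1 Q1 P1' Q1' F m t
    κ (Fin.cons w0 c) C Φ C' Φ' hPl.sys hSys hF hF9 hκ3
  obtain ⟨M, hM⟩ : ∃ M, M = N1 + N2 := ⟨_, rfl⟩
  refine ⟨K + 2 * (2 * ((Finset.range (M + 1)).card : ℝ)), fun σ h1 hσ2 => ?_⟩
  have hB := hK σ h1 hσ2
  have hsub1 : ∀ q : ℕ, q.Prime → M < q →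
      q ∈ {q : ℕ | (q ∈ QM h n π e w0 c y α 1 1 ∧ q ∈ ZP b) ∧
        t ≤ kS h n b X Y P Q P' Q' 1 q} →
      q ∈ SPF b P Q P' Q' t κ (Fin.cons w0 c) C Φ ∩
        SPZU (fun i => zN π e (y i)) α P1 Q1 P1' Q1' κ (Fin.cons w0 c) C' Φ' := by
    intro q hq hqM ⟨⟨hqY, hqP⟩, hqt⟩
    exact ⟨((hN1 q t hq (by omega) hqY.1 hqP).1 hqY.2.1 hqt),
      (hN2 q hq (by omega)).1 hqY⟩
  have hsub2 : ∀ q : ℕ, q.Prime → M < q →
      q ∈ {q : ℕ | (q ∈ QM h n π e w0 c y α 1 2 ∧ q ∈ ZP b) ∧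
        t ≤ kS h n b X Y P Q P' Q' 2 q} →
      q ∈ SMF b P Q P' Q' t κ (Fin.cons w0 c) C Φ ∩
        SMZU (fun i => zN π e (y i)) α P1 Q1 P1' Q1' κ (Fin.cons w0 c) C' Φ' := by
    intro q hq hqM ⟨⟨hqY, hqP⟩, hqt⟩
    exact ⟨((hN1 q t hq (by omega) hqY.1 hqP).2 hqY.2.1 hqt),
      (hN2 q hq (by omega)).2 hqY⟩
  have i1 := CL.sm_le_add _ _ M hsub1 h1
  have i2 := CL.sm_le_add _ _ M hsub2 h1
  have e2 : (1 / 3 ^ s / 3 ^ N / 3 ^ (m + 1) * LI s t : ℝ) =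
      1 / 3 ^ s * LI s t / 3 ^ N / 3 ^ (m + 1) := by
    ring
  rw [e2]
  linarith

end Pool.Agent.PTK

end

section

/-!
# The average of `3^r`: commutators for the minus part which are trivial on the plus part
-/

set_option autoImplicit false

open NumberField IsDedekindDomain Finset
open scoped nonZeroDivisors Pointwise

namespace Pool.Agent.PTK

open Pool.Agent.Lib_helper18 Pool.Agent.Lib_helper18.Eis Pool.Agent.Lib_helper84.Cub
open Pool.Agent.PT Pool.Agent.PTE Pool.Agent.PT3 Pool.Agent.PTL Pool.Agent.PTN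

namespace JC1

variable {L : Type} [Field L] [NumberField L]

/-- two automorphisms which fix `ω` and multiply `A` by powers of `ω` commute on `A` -/
theorem rot {ι : Eis →+* L} (σ τ : L ≃ₐ[ℚ] L) (hσ : σ (ι w) = ι w) (hτ : τ (ι w) = ι w) {A : L}
    {m n : ℕ} (h1 : σ A = ι w ^ m * A) (h2 : τ A = ι w ^ n * A) :
    ((σ * τ)⁻¹ * (τ * σ)) A = A := by
  have h : τ (σ A) = ι w ^ 0 * σ (τ A) := by
    rw [h1, h2, map_mul, map_mul, map_pow, map_pow, hσ, hτ, h1, h2]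
    ring
  rw [GC.comm_apply σ τ 0 hσ hτ A h, pow_zero, one_mul]

/-- an automorphism which fixes `ω` and `ρ` acts by a root of unity on `A` -/
theorem fixP {ω ρ A : L} {p q p' q' : ℤ} (h : L ≃ₐ[ℚ] L) (hω : ω ^ 2 + ω + 1 = 0)
    (hhω : h ω = ω) (hhρ : h ρ = ρ) (hD : aD ω p q p' q' ρ ≠ 0)
    (hA : A ^ 3 * aD ω p q p' q' ρ = aN ω p q p' q' ρ) : ∃ e : ℕ, h A = ω ^ e * A := by
  have h1 : h (aD ω p q p' q' ρ) = aD ω p q p' q' ρ := by
    unfold aD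
    simp only [map_mul, map_add, map_pow, map_intCast, hhω, hhρ]
  have h2 : h (aN ω p q p' q' ρ) = aN ω p q p' q' ρ := by
    unfold aN
    simp only [map_mul, map_add, map_pow, map_intCast, hhω, hhρ]
  have h3 := congrArg h hA
  rw [map_mul, map_pow, h1, h2, ← hA] at h3
  exact GC.cube_eq hω (mul_right_cancel₀ hD h3)

end JC1

/-- the commutators for the minus part -/
theorem JC1_thm (hJKU : Stmt_JKU) : Stmt_JC1 := by
  intro s k b p q p' q' x u P Q P' Q' f L _ _ ζ ι hSG hS hJ v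
  have hG := hJ.minus
  have hGP := hJ.plus
  have hω := GCK.om ι
  have hf : 0 < f := by
    rcases Nat.eq_zero_or_pos f with h | h
    · exfalso
      have h1 := hG.hω
      rw [h, Nat.zero_div, pow_zero] at h1
      rw [h1] at hω
      norm_num at hω
    · exact h
  obtain ⟨σ, s1, s2, s3, s4⟩ :=
    hJKU s k b p q p' q' x u P Q P' Q' f L ζ ι hSG hS hJ 1 0 0
  obtain ⟨τ, t1, t2, t3, t4⟩ :=
    hJKU s k b p q p' q' x u P Q P' Q' f L ζ ι hSG hS hJ 0 v 0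
  have hσ' : GCK.Act ι x u 1 0 σ := ⟨s1, s2, s3⟩
  have hτ' : GCK.Act ι x u 0 v τ := ⟨t1, t2, t3⟩
  have hnz : ∀ j, GCK.Nz ι x (P j) (Q j) (P' j) (Q' j) := fun j ρ hρ => hG.D j ρ hρ
  have hσb : ∀ (i : Fin s) (ρ : L), ρ ^ 3 = (b i : L) → σ ρ = ρ := fun i ρ hρ => by
    rw [s4 i ρ hρ, Pi.zero_apply, ZMod.val_zero, pow_zero, one_mul]
  have hτb : ∀ (i : Fin s) (ρ : L), ρ ^ 3 = (b i : L) → τ ρ = ρ := fun i ρ hρ => by
    rw [t4 i ρ hρ, Pi.zero_apply, ZMod.val_zero, pow_zero, one_mul]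
  refine ⟨(σ * τ)⁻¹ * (τ * σ), ⟨?_, fun ρ hρ => ?_, fun j ρ hρ => ?_, fun i ρ hρ => ?_⟩,
    fun j i ρ A hji hA => ?_, fun j ρ A hA => ⟨?_, ?_⟩⟩
  · have hz : ∀ g : L ≃ₐ[ℚ] L, ∃ i : ℕ, g ζ = ζ ^ i := by
      intro g
      have h1 : (g ζ) ^ f = 1 := by rw [← map_pow, hG.prim.pow_eq_one, map_one]
      haveI : NeZero f := ⟨hf.ne'⟩
      obtain ⟨i, _, hi⟩ := hG.prim.eq_pow_of_pow_eq_one h1
      exact ⟨i, hi.symm⟩
    obtain ⟨i, hi⟩ := hz σ
    obtain ⟨j, hj⟩ := hz τ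
    have h1 : τ (σ ζ) = ι w ^ 0 * σ (τ ζ) := by
      rw [hi, hj, map_pow, map_pow, hi, hj, pow_zero, one_mul, ← pow_mul, ← pow_mul, mul_comm]
    rw [GC.comm_apply σ τ 0 hσ'.1 hτ'.1 ζ h1, pow_zero, one_mul]
  · exact JC1.rot σ τ hσ'.1 hτ'.1 (hσ'.2.1 ρ hρ) (hτ'.2.1 ρ hρ)
  · exact JC1.rot σ τ hσ'.1 hτ'.1 (hσ'.2.2 j ρ hρ) (hτ'.2.2 j ρ hρ)
  · exact JC1.rot σ τ hσ'.1 hτ'.1 (s4 i ρ hρ) (t4 i ρ hρ)
  · obtain ⟨hρ, hA⟩ := hA
    have hD := (hGP.D j i hji ρ hρ).1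
    obtain ⟨m, hm⟩ := JC1.fixP σ hω s1 (hσb j ρ hρ) hD hA
    obtain ⟨n, hn⟩ := JC1.fixP τ hω t1 (hτb j ρ hρ) hD hA
    exact JC1.rot σ τ s1 t1 hm hn
  · exact GCK.com hS.sol hnz hG.rb hσ' hτ' j ρ A hA.1 hA.2
  · intro g hg
    have h1 := GCK.com hS.sol hnz hG.rb (GCK.cjAct hg hS.cx hS.cb hσ')
      (GCK.cjAct hg hS.cx hS.cb hτ') j ρ A hA.1 hA.2
    have h2 : ((g⁻¹ * σ * g) * (g⁻¹ * τ * g))⁻¹ * ((g⁻¹ * τ * g) * (g⁻¹ * σ * g)) =
        g⁻¹ * ((σ * τ)⁻¹ * (τ * σ)) * g := by group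
    rw [h2] at h1
    have h3 := congrArg g h1
    rw [← AlgEquiv.mul_apply, ← mul_assoc, ← mul_assoc, mul_inv_cancel, one_mul,
      AlgEquiv.mul_apply, map_mul, map_pow, hg, ← pow_mul] at h3
    rw [h3, pow_eq_pow_mod _ (GC.om3 hω), GCK.val_neg, ← pow_eq_pow_mod _ (GC.om3 hω)]

end Pool.Agent.PTK

end

section

/-!
# All moments of `3^r`: commutators for the minus part which are trivial on the plus part
-/

set_option autoImplicit false

open NumberField IsDedekindDomain Finset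
open scoped nonZeroDivisors Pointwise

namespace Pool.Agent.PTK

open Pool.Agent.Lib_helper18 Pool.Agent.Lib_helper18.Eis Pool.Agent.Lib_helper84.Cub
open Pool.Agent.PT Pool.Agent.PTE Pool.Agent.PT3 Pool.Agent.PTL Pool.Agent.PTN

namespace MC1

variable {L : Type} [Field L] [NumberField L]

/-- the action of an automorphism on the roots of all classes -/
def Act {M : ℕ} (ι : Eis →+* L) (z : Fin M → Eis) (a : Fin M → ZMod 3) (g : L ≃ₐ[ℚ] L) : Prop :=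
  g (ι w) = ι w ∧ ∀ (i : Fin M) (ρ : L), ρ ^ 3 = ι (z i) → g ρ = ι w ^ (a i).val * ρ

theorem cjAct {M : ℕ} {ι : Eis →+* L} {z : Fin M → Eis} {a : Fin M → ZMod 3}
    {g σ : L ≃ₐ[ℚ] L} (hg : g (ι w) = ι w ^ 2) (hz : ∀ i, ∃ t : Eis, z i * conj (z i) = t ^ 3)
    (h : Act ι z a σ) : Act ι z a (g⁻¹ * σ * g) := by
  refine ⟨?_, fun i ρ hρ => ?_⟩
  · have h1 : σ (ι w ^ 2) = ι w ^ 2 := by rw [map_pow, h.1]
    rw [AlgEquiv.mul_apply, AlgEquiv.mul_apply, hg, h1, ← hg, ← AlgEquiv.mul_apply,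
      inv_mul_cancel]
    rfl
  · obtain ⟨t, ht⟩ := hz i
    exact GCK.cjr hg h.1 ht hρ (h.2 i ρ hρ)

theorem Act.fix {M : ℕ} {ι : Eis →+* L} {z : Fin M → Eis} {k : Fin M} {c : ZMod 3}
    {g : L ≃ₐ[ℚ] L} (h : Act ι z (Pi.single k c) g) {i : Fin M} (hi : i ≠ k) {ρ : L}
    (hρ : ρ ^ 3 = ι (z i)) : g ρ = ρ := by
  rw [h.2 i ρ hρ, Pi.single_eq_of_ne hi, ZMod.val_zero, pow_zero, one_mul]

theorem Act.mov {M : ℕ} {ι : Eis →+* L} {z : Fin M → Eis} {k : Fin M}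
    {g : L ≃ₐ[ℚ] L} (h : Act ι z (Pi.single k 1) g) {ρ : L}
    (hρ : ρ ^ 3 = ι (z k)) : g ρ = ι w * ρ := by
  rw [h.2 k ρ hρ, Pi.single_eq_same, show (1 : ZMod 3).val = 1 from rfl, pow_one]

/-- the commutator of the index `r` -/
theorem com {M N : ℕ} {ι : Eis →+* L} {z : Fin M → Eis} {α β : Fin N → Fin M}
    {P Q P' Q' : Fin N → Eis} (hS : SysZ z α β P Q P' Q')
    (hnz : ∀ r, GCK.Nz ι (z (α r)) (P r) (Q r) (P' r) (Q' r))
    (hr : ∀ i, ∃ θ : L, θ ^ 3 = ι (z i)) {σ τ : L ≃ₐ[ℚ] L} (r : Fin N)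
    (hσ : Act ι z (Pi.single (α r) 1) σ) (hτ : Act ι z (Pi.single (β r) 1) τ)
    (r' : Fin N) (ρ A : L) (hA : PrW z α P Q P' Q' ι r' ρ A) :
    ((σ * τ)⁻¹ * (τ * σ)) A = ι w ^ ((Pi.single r 1 : Fin N → ZMod 3) r').val * A := by
  obtain ⟨hρ, hA⟩ := hA
  obtain ⟨θ, hθ⟩ := hr (β r')
  have hlt := hS.lt r
  have hlt' := hS.lt r'
  by_cases hrr : r' = r
  · subst hrr
    rw [Pi.single_eq_same, show (1 : ZMod 3).val = 1 from rfl]
    apply GC.comm_apply σ τ _ hσ.1 hτ.1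
    refine GCK.mv (hnz r') σ τ _ hρ hθ (hS.sol r') hσ.1 hτ.1 (hσ.mov hρ)
      (hτ.fix (ne_of_lt hlt) hρ) ?_ hA
    rw [hτ.mov hθ, pow_one]
  · rw [Pi.single_eq_of_ne hrr, ZMod.val_zero]
    apply GC.comm_apply σ τ _ hσ.1 hτ.1
    by_cases h1 : α r' = α r
    · have h2 : β r' ≠ β r := fun h => hrr (hS.inj r' r h1 h)
      refine GCK.mv (hnz r') σ τ _ hρ hθ (hS.sol r') hσ.1 hτ.1 ?_
        (hτ.fix (by rw [h1]; exact ne_of_lt hlt) hρ) ?_ hA
      · rw [h1] at hρ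
        exact hσ.mov hρ
      · rw [hτ.fix h2 hθ, pow_zero, one_mul]
    · by_cases h3 : α r' = β r
      · have h4 : β r' ≠ α r := by
          intro h
          rw [h, h3] at hlt'
          exact absurd (hlt.trans hlt') (lt_irrefl _)
        have h5 := GCK.mv (hnz r') τ σ 0 hρ hθ (hS.sol r') hτ.1 hσ.1
          (by rw [h3] at hρ; exact hτ.mov hρ) (hσ.fix h1 hρ)
          (by rw [hσ.fix h4 hθ, pow_zero, one_mul]) hA
        rw [pow_zero, one_mul] at h5 ⊢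
        exact h5.symm
      · obtain ⟨e, he⟩ := GCK.fixA (hnz r') σ hρ hσ.1 (hσ.fix h1 hρ) hA
        obtain ⟨e', he'⟩ := GCK.fixA (hnz r') τ hρ hτ.1 (hτ.fix h3 hρ) hA
        rw [he, he', map_mul, map_mul, map_pow, map_pow, hσ.1, hτ.1, he, he']
        ring

/-- the relation between the automorphism and the vector -/
def R {s M N : ℕ} (b : Fin s → ℤ) (p q p' q' : Fin s → Fin s → ℤ)
    (z : Fin M → Eis) (α : Fin N → Fin M) (P Q P' Q' : Fin N → Eis) (ζ : L) (ι : Eis →+* L)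
    (v : Fin N → ZMod 3) (g : L ≃ₐ[ℚ] L) : Prop :=
  FxW b z ζ ι g ∧
    (∀ (j i : Fin s) (ρ A : L), j ≠ i → PrP b p q p' q' ι j i ρ A → g A = A) ∧
    ∀ (r : Fin N) (ρ A : L), PrW z α P Q P' Q' ι r ρ A → g A = ι w ^ (v r).val * A ∧
      ∀ τ : L ≃ₐ[ℚ] L, τ (ι w) = ι w ^ 2 → g (τ A) = ι w ^ (- v r).val * τ A

section rel

variable {s M N : ℕ} {b : Fin s → ℤ} {p q p' q' : Fin s → Fin s → ℤ}
    {z : Fin M → Eis} {α : Fin N → Fin M} {P Q P' Q' : Fin N → Eis} {ζ : L} {ι : Eis →+* L}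

theorem R_zero : R b p q p' q' z α P Q P' Q' ζ ι 0 (1 : L ≃ₐ[ℚ] L) := by
  refine ⟨⟨rfl, fun _ _ _ => rfl, fun _ _ _ => rfl⟩, fun _ _ _ _ _ _ => rfl,
    fun r ρ A _ => ⟨?_, fun τ _ => ?_⟩⟩
  · rw [Pi.zero_apply, ZMod.val_zero, pow_zero, one_mul]
    rfl
  · rw [Pi.zero_apply, neg_zero, ZMod.val_zero, pow_zero, one_mul]
    rfl

theorem R_add (hζ : ∀ g : L ≃ₐ[ℚ] L, g ζ = ζ → g (ι w) = ι w)
    {v v' : Fin N → ZMod 3} {g g' : L ≃ₐ[ℚ] L}
    (h : R b p q p' q' z α P Q P' Q' ζ ι v g) (h' : R b p q p' q' z α P Q P' Q' ζ ι v' g') :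
    R b p q p' q' z α P Q P' Q' ζ ι (v + v') (g * g') := by
  have hω := GC.om3 (GCK.om ι)
  refine ⟨⟨?_, fun i ρ hρ => ?_, fun i ρ hρ => ?_⟩, fun j i ρ A hji hA => ?_,
    fun r ρ A hA => ⟨?_, fun τ hτ => ?_⟩⟩
  · rw [AlgEquiv.mul_apply, h'.1.ze, h.1.ze]
  · rw [AlgEquiv.mul_apply, h'.1.rz i ρ hρ, h.1.rz i ρ hρ]
  · rw [AlgEquiv.mul_apply, h'.1.rb i ρ hρ, h.1.rb i ρ hρ]
  · rw [AlgEquiv.mul_apply, h'.2.1 j i ρ A hji hA, h.2.1 j i ρ A hji hA]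
  · rw [AlgEquiv.mul_apply, (h'.2.2 r ρ A hA).1, map_mul, map_pow, hζ g h.1.ze,
      (h.2.2 r ρ A hA).1, Pi.add_apply, GC.pow_val_add hω]
    ring
  · rw [AlgEquiv.mul_apply, (h'.2.2 r ρ A hA).2 τ hτ, map_mul, map_pow, hζ g h.1.ze,
      (h.2.2 r ρ A hA).2 τ hτ, Pi.add_apply, neg_add, GC.pow_val_add hω]
    ring

theorem all (hζ : ∀ g : L ≃ₐ[ℚ] L, g ζ = ζ → g (ι w) = ι w)
    (hel : ∀ r : Fin N, ∃ g : L ≃ₐ[ℚ] L,
      R b p q p' q' z α P Q P' Q' ζ ι (Pi.single r 1) g)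
    (v : Fin N → ZMod 3) : ∃ g : L ≃ₐ[ℚ] L, R b p q p' q' z α P Q P' Q' ζ ι v g := by
  let S : AddSubmonoid (Fin N → ZMod 3) :=
    { carrier := {v | ∃ g : L ≃ₐ[ℚ] L, R b p q p' q' z α P Q P' Q' ζ ι v g}
      zero_mem' := ⟨1, R_zero⟩
      add_mem' := by
        rintro v v' ⟨g, hg⟩ ⟨g', hg'⟩
        exact ⟨g * g', R_add hζ hg hg'⟩ }
  have h1 : ∀ r : Fin N, (Pi.single r (v r) : Fin N → ZMod 3) ∈ S := by
    intro r
    have h2 : (Pi.single r (v r) : Fin N → ZMod 3) =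
        (v r).val • (Pi.single r 1 : Fin N → ZMod 3) := by
      rw [← Pi.single_smul, nsmul_one, ZMod.natCast_val, ZMod.cast_id', id]
    rw [h2]
    exact S.nsmul_mem (hel r) _
  have h3 : v = ∑ r, (Pi.single r (v r) : Fin N → ZMod 3) :=
    (Finset.univ_sum_single v).symm
  have h4 : v ∈ S := by
    rw [h3]
    exact S.sum_mem (fun r _ => h1 r)
  exact h4

end rel

end MC1

/-- the commutators for the minus part -/
theorem MC1_thm (hMKU : Stmt_MKU) : Stmt_MC1 := by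
  intro s M N b p q p' q' z α β P Q P' Q' f L _ _ ζ ι hSG hS hW v
  have hG := hW.minus
  have hGP := hW.plus
  have hω := GCK.om ι
  have hf : 0 < f := by
    rcases Nat.eq_zero_or_pos f with h | h
    · exfalso
      have h1 := hG.hω
      rw [h, Nat.zero_div, pow_zero] at h1
      rw [h1] at hω
      norm_num at hω
    · exact h
  have hζ : ∀ g : L ≃ₐ[ℚ] L, g ζ = ζ → g (ι w) = ι w := by
    intro g hg
    rw [hG.hω, map_pow, hg]
  have hnz : ∀ r, GCK.Nz ι (z (α r)) (P r) (Q r) (P' r) (Q' r) := fun r ρ hρ => hG.D r ρ hρ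
  apply MC1.all hζ
  intro r
  obtain ⟨σ, s1, s2, s3⟩ := hMKU s M N b p q p' q' z α β P Q P' Q' f L ζ ι hSG hS hW
    (Pi.single (α r) 1) 0
  obtain ⟨τ, t1, t2, t3⟩ := hMKU s M N b p q p' q' z α β P Q P' Q' f L ζ ι hSG hS hW
    (Pi.single (β r) 1) 0
  have hσ' : MC1.Act ι z (Pi.single (α r) 1) σ := ⟨s1, s2⟩
  have hτ' : MC1.Act ι z (Pi.single (β r) 1) τ := ⟨t1, t2⟩
  have hσb : ∀ (i : Fin s) (ρ : L), ρ ^ 3 = (b i : L) → σ ρ = ρ := fun i ρ hρ => by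
    rw [s3 i ρ hρ, Pi.zero_apply, ZMod.val_zero, pow_zero, one_mul]
  have hτb : ∀ (i : Fin s) (ρ : L), ρ ^ 3 = (b i : L) → τ ρ = ρ := fun i ρ hρ => by
    rw [t3 i ρ hρ, Pi.zero_apply, ZMod.val_zero, pow_zero, one_mul]
  refine ⟨(σ * τ)⁻¹ * (τ * σ), ⟨?_, fun i ρ hρ => ?_, fun i ρ hρ => ?_⟩,
    fun j i ρ A hji hA => ?_, fun r' ρ A hA => ⟨?_, ?_⟩⟩
  · have hz : ∀ g : L ≃ₐ[ℚ] L, ∃ i : ℕ, g ζ = ζ ^ i := by
      intro g
      have h1 : (g ζ) ^ f = 1 := by rw [← map_pow, hG.prim.pow_eq_one, map_one]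
      haveI : NeZero f := ⟨hf.ne'⟩
      obtain ⟨i, _, hi⟩ := hG.prim.eq_pow_of_pow_eq_one h1
      exact ⟨i, hi.symm⟩
    obtain ⟨i, hi⟩ := hz σ
    obtain ⟨j, hj⟩ := hz τ
    have h1 : τ (σ ζ) = ι w ^ 0 * σ (τ ζ) := by
      rw [hi, hj, map_pow, map_pow, hi, hj, pow_zero, one_mul, ← pow_mul, ← pow_mul, mul_comm]
    rw [GC.comm_apply σ τ 0 s1 t1 ζ h1, pow_zero, one_mul]
  · exact JC1.rot σ τ s1 t1 (s2 i ρ hρ) (t2 i ρ hρ)
  · exact JC1.rot σ τ s1 t1 (s3 i ρ hρ) (t3 i ρ hρ)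
  · obtain ⟨hρ, hA⟩ := hA
    have hD := (hGP.D j i hji ρ hρ).1
    obtain ⟨m, hm⟩ := JC1.fixP σ hω s1 (hσb j ρ hρ) hD hA
    obtain ⟨n, hn⟩ := JC1.fixP τ hω t1 (hτb j ρ hρ) hD hA
    exact JC1.rot σ τ s1 t1 hm hn
  · exact MC1.com hS hnz hG.rz r hσ' hτ' r' ρ A hA
  · intro g hg
    have h1 := MC1.com hS hnz hG.rz r (MC1.cjAct hg hS.cz hσ') (MC1.cjAct hg hS.cz hτ') r' ρ A hA
    have h2 : ((g⁻¹ * σ * g) * (g⁻¹ * τ * g))⁻¹ * ((g⁻¹ * τ * g) * (g⁻¹ * σ * g)) =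
        g⁻¹ * ((σ * τ)⁻¹ * (τ * σ)) * g := by group
    rw [h2] at h1
    have h3 := congrArg g h1
    rw [← AlgEquiv.mul_apply, ← mul_assoc, ← mul_assoc, mul_inv_cancel, one_mul,
      AlgEquiv.mul_apply, map_mul, map_pow, hg, ← pow_mul] at h3
    rw [h3, pow_eq_pow_mod _ (GC.om3 hω), GCK.val_neg, ← pow_eq_pow_mod _ (GC.om3 hω)]

end Pool.Agent.PTK

end

section

/-!
# PTK_DNS: upper bound for the density of a set of primes (helper71)
-/

set_option autoImplicit false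

open NumberField IsDedekindDomain Finset
open scoped nonZeroDivisors Pointwise

namespace Pool.Agent.PTK

open Pool.Agent.Lib_helper18 Pool.Agent.Lib_helper18.Eis Pool.Agent.Lib_helper84.Cub
open Pool.Agent.PT Pool.Agent.PTL

namespace DNS

open BDENS BD

/-- the set of the classes is stable under conjugation and change of generator -/
theorem inU_stable {G : Type} [Group G] [Finite G] {f m : ℕ} (χ : G →* (ZMod f)ˣ)
    (κ : (ZMod f)ˣ →* Multiplicative (Fin (m + 1) → ZMod 3)) (c : Fin (m + 1) → ZMod 3)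
    (hf : 0 < f) (h3 : 3 ∣ f) {g h τ : G} (hg : InU χ κ c g)
    (hz : Subgroup.zpowers h = Subgroup.zpowers (τ * g * τ⁻¹)) : InU χ κ c h := by
  have hM := hg.1
  have hχg : χ (τ * g * τ⁻¹) = χ g := by
    rw [map_mul, map_mul, map_inv, mul_comm (χ τ), mul_inv_cancel_right]
  have hM' : M2 (χ (τ * g * τ⁻¹)) := by
    rw [hχg]
    exact hM
  have he : Even (orderOf (τ * g * τ⁻¹)) := by
    apply M2_even hf h3 hM'
    rw [← map_pow, pow_orderOf_eq_one, map_one]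
  obtain ⟨k, hk, hk3, hh⟩ := exists_pow hz he
  have h1 : χ h = χ g ^ k := by
    rw [hh, map_pow, hχg]
  exact (BD.transfer (s := 0) χ κ c (fun _ _ => 0) 1 0 (fun _ _ _ => 0) hf h3 hk hk3 h1 hM
    (fun j => j.elim0)).1 hg

/-- the conjugate cyclic subgroups, from the other side -/
theorem zpowers_symm {G : Type} [Group G] {g h τ : G}
    (hz : Subgroup.zpowers h = Subgroup.zpowers (τ * g * τ⁻¹)) :
    Subgroup.zpowers g = Subgroup.zpowers (τ⁻¹ * h * τ⁻¹⁻¹) := by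
  have h1 := congrArg (Subgroup.map (MulAut.conj τ⁻¹).toMonoidHom) hz
  rw [MonoidHom.map_zpowers, MonoidHom.map_zpowers] at h1
  have e1 : (MulAut.conj τ⁻¹).toMonoidHom h = τ⁻¹ * h * τ⁻¹⁻¹ := rfl
  have e2 : (MulAut.conj τ⁻¹).toMonoidHom (τ * g * τ⁻¹) = g := by
    show τ⁻¹ * (τ * g * τ⁻¹) * τ⁻¹⁻¹ = g
    group
  rw [e1, e2] at h1
  exact h1.symm

end DNS

open BDENS BD _root_.Pool.Agent.PTK.DNS in
/-- PTK_DNS: upper bound for the density of a set of primes whose Frobenius elements are in a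
subset stable under passing to another generator of a conjugate cyclic subgroup. -/
theorem DNS_thm (hDIR : DIR) : Stmt_DNS := by
  classical
  intro f m κ c L _ _ _ χ B S N₀ hf h9 hχ hB hBU hfrob hS
  have : NeZero f := ⟨hf.ne'⟩
  have h3 : 3 ∣ f := Dvd.dvd.trans (by norm_num) h9
  have hst : ∀ g h τ : L ≃ₐ[ℚ] L, g ∈ {g | InU χ κ c g ∧ ¬ B g} →
      Subgroup.zpowers h = Subgroup.zpowers (τ * g * τ⁻¹) →
      h ∈ {g | InU χ κ c g ∧ ¬ B g} := fun g h τ hg hz =>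
    ⟨inU_stable χ κ c hf h3 hg.1 hz, fun hb => hg.2 (hB h g τ⁻¹ hb (zpowers_symm hz))⟩
  obtain ⟨C1, hC1⟩ := RI.FROBD_thm L _ hst
  choose DC hDC using fun a : (ZMod f)ˣ => hDIR f a hf
  have hT := BD.card_T χ κ c hf hχ B
  obtain ⟨ST, hST⟩ : ∃ ST : Set ℕ, ST = {Q : ℕ | ∃ g ∈ {g | InU χ κ c g ∧
      ¬ B g}, ∃ P : Ideal (𝓞 L), P.IsPrime ∧ (Q : 𝓞 L) ∈ P ∧
      MulAction.stabilizer (L ≃ₐ[ℚ] L) P = Subgroup.zpowers g} := ⟨_, rfl⟩
  obtain ⟨V, hV⟩ : ∃ V : Finset (ZMod f)ˣ, V = Finset.univ.filter fun a =>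
      M2 a ∧ ((κ a).toAdd = c ∨ (κ a).toAdd = -c) := ⟨_, rfl⟩
  have hVc : V.card =
      Nat.card {a : (ZMod f)ˣ // M2 a ∧ ((κ a).toAdd = c ∨ (κ a).toAdd = -c)} := by
    rw [Nat.card_eq_fintype_card, Fintype.card_subtype, hV]
  have hM : ∀ (Q : ℕ) (hQ : Q.Coprime f), M2 (ZMod.unitOfCoprime Q hQ) ↔ Q % 3 = 2 := by
    intro Q hQ
    unfold M2
    rw [ZMod.coe_unitOfCoprime, ZMod.val_natCast, Nat.mod_mod_of_dvd _ h3]
  have hcop : ∀ n : ℕ, n.Prime → n ∉ Finset.range (max N₀ f + 1) → n.Coprime f ∧ N₀ < n := by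
    intro n hn hA
    rw [Finset.mem_range, not_lt] at hA
    refine ⟨(Nat.Prime.coprime_iff_not_dvd hn).2 fun h => ?_, ?_⟩
    · have h1 := Nat.le_of_dvd hf h
      have h2 := le_max_right N₀ f
      omega
    · have h2 := le_max_left N₀ f
      omega
  have hSTe : ∀ n : ℕ, n.Prime → n ∉ Finset.range (max N₀ f + 1) → n ∈ ST →
      n ∉ S ∧ ∃ (hQ : n.Coprime f) (g : L ≃ₐ[ℚ] L), InU χ κ c g ∧
        χ g = ZMod.unitOfCoprime n hQ := by
    intro n hn hA hnST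
    rw [hST] at hnST
    obtain ⟨g, hg, P, hP, hnP, hstab⟩ := hnST
    obtain ⟨hQ, hN⟩ := hcop n hn hA
    obtain ⟨⟨k, hk, hχk⟩, hkB⟩ := hfrob n hQ hn hN P g hP hnP hstab
    refine ⟨fun hnS => hg.2 (hkB hnS), hQ, g ^ k, ?_, hχk⟩
    refine (hst g (g ^ k) 1 hg ?_).1
    rw [one_mul, inv_one, mul_one]
    exact zpowers_pow_eq hk
  refine ⟨2 * (Finset.range (max N₀ f + 1)).card + ∑ a ∈ V, DC a + C1, fun σ h1 h2 => ?_⟩
  have key := sm_add_le S ST {Q : ℕ | ∃ a ∈ V, (Q : ZMod f) = a}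
    (Finset.range (max N₀ f + 1)) ?_ ?_ h1
  · have cov := sm_cover {Q : ℕ | ∃ a ∈ V, (Q : ZMod f) = a} V (fun n _ hn => hn) h1
    have hfr := hC1 σ h1 h2
    have hfr' : ((Nat.card {g : L ≃ₐ[ℚ] L // InU χ κ c g ∧ ¬ B g} : ℝ) /
        Nat.card (L ≃ₐ[ℚ] L)) * Real.log (1 / (σ - 1)) - C1 ≤ sm ST σ := by
      rw [hST]
      exact hfr
    have hsum : ∑ a ∈ V, ∑' q : {q : ℕ // q.Prime ∧ (q : ZMod f) = a}, (q : ℝ) ^ (-σ) ≤
        ∑ a ∈ V, ((1 / (f.totient : ℝ)) * Real.log (1 / (σ - 1)) + DC a) :=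
      Finset.sum_le_sum fun a _ => hDC a σ h1 h2
    rw [Finset.sum_add_distrib, Finset.sum_const, nsmul_eq_mul, hVc] at hsum
    have hlog : 0 ≤ Real.log (1 / (σ - 1)) := by
      apply Real.log_nonneg
      rw [le_div_iff₀ (by linarith)]
      linarith
    have hmul := mul_le_mul_of_nonneg_right hT hlog
    rw [sub_mul, mul_assoc] at hmul
    linarith
  · intro n hn hA hnB
    obtain ⟨hQ, hN⟩ := hcop n hn hA
    obtain ⟨hn3, hnc⟩ := hS n hQ hn hN hnB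
    constructor
    · refine ⟨ZMod.unitOfCoprime n hQ, ?_, ZMod.coe_unitOfCoprime n hQ⟩
      rw [hV]
      exact Finset.mem_filter.2 ⟨Finset.mem_univ _, (hM n hQ).2 hn3, hnc⟩
    · intro hnST
      exact (hSTe n hn hA hnST).1 hnB
  · intro n hn hA hnST
    obtain ⟨-, hQ', g, hgU, hχg⟩ := hSTe n hn hA hnST
    refine ⟨ZMod.unitOfCoprime n hQ', ?_, ZMod.coe_unitOfCoprime n hQ'⟩
    rw [hV]
    have h5 := hgU
    unfold InU at h5
    rw [hχg] at h5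
    exact Finset.mem_filter.2 ⟨Finset.mem_univ _, h5⟩

end Pool.Agent.PTK

end

section

/-!
# PTK_DNS1: upper bound for the density of a set of primes `Q = 1 (mod 3)` (helper67)

As `PTK/DNS.lean`, with `M1` in place of `M2`.
-/

set_option autoImplicit false

open NumberField IsDedekindDomain Finset
open scoped nonZeroDivisors Pointwise

namespace Pool.Agent.PTK

open Pool.Agent.Lib_helper18 Pool.Agent.Lib_helper18.Eis Pool.Agent.Lib_helper84.Cub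
open Pool.Agent.PT Pool.Agent.PTE Pool.Agent.PTL Pool.Agent.PTN

namespace DNS1

open BDENS BDU

/-- the set of the classes is stable under conjugation and change of generator -/
theorem inU_stable {G : Type} [Group G] [Finite G] {f m : ℕ} (χ : G →* (ZMod f)ˣ)
    (κ : (ZMod f)ˣ →* Multiplicative (Fin (m + 1) → ZMod 3)) (c : Fin (m + 1) → ZMod 3)
    (hf : 0 < f) (h3 : 3 ∣ f) {g h τ : G} (hg : BDU.InU χ κ c g)
    (hz : Subgroup.zpowers h = Subgroup.zpowers (τ * g * τ⁻¹)) : BDU.InU χ κ c h := by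
  have hM := hg.1
  have hχg : χ (τ * g * τ⁻¹) = χ g := by
    rw [map_mul, map_mul, map_inv, mul_comm (χ τ), mul_inv_cancel_right]
  obtain ⟨k, hk3, hh⟩ := exists_pow3 hz
  have h1 : χ h = χ g ^ k := by
    rw [hh, map_pow, hχg]
  exact (BDU.transfer (s := 0) χ κ c (fun _ _ => 0) 1 0 (fun _ => True) (fun _ _ _ => 0) hf h3
    hk3 h1 hM (fun _ => trivial) (fun _ j => j.elim0)).1 hg

end DNS1

open BDENS BDU _root_.Pool.Agent.PTK.DNS1 in
/-- PTK_DNS1: upper bound for the density of a set of primes `Q = 1 (mod 3)` whose Frobenius elements are in a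
subset stable under passing to another generator of a conjugate cyclic subgroup. -/
theorem DNS1_thm (hDIR : DIR) : Stmt_DNS1 := by
  classical
  intro f m κ c L _ _ _ χ B S N₀ hf h9 hχ hB hBU hfrob hS
  have : NeZero f := ⟨hf.ne'⟩
  have h3 : 3 ∣ f := Dvd.dvd.trans (by norm_num) h9
  have hst : ∀ g h τ : L ≃ₐ[ℚ] L, g ∈ {g | BDU.InU χ κ c g ∧ ¬ B g} →
      Subgroup.zpowers h = Subgroup.zpowers (τ * g * τ⁻¹) →
      h ∈ {g | BDU.InU χ κ c g ∧ ¬ B g} := fun g h τ hg hz =>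
    ⟨inU_stable χ κ c hf h3 hg.1 hz, fun hb => hg.2 (hB h g τ⁻¹ hb (DNS.zpowers_symm hz))⟩
  obtain ⟨C1, hC1⟩ := RI.FROBD_thm L _ hst
  choose DC hDC using fun a : (ZMod f)ˣ => hDIR f a hf
  have hT := BDU.card_T χ κ c hf hχ B
  obtain ⟨ST, hST⟩ : ∃ ST : Set ℕ, ST = {Q : ℕ | ∃ g ∈ {g | BDU.InU χ κ c g ∧
      ¬ B g}, ∃ P : Ideal (𝓞 L), P.IsPrime ∧ (Q : 𝓞 L) ∈ P ∧
      MulAction.stabilizer (L ≃ₐ[ℚ] L) P = Subgroup.zpowers g} := ⟨_, rfl⟩
  obtain ⟨V, hV⟩ : ∃ V : Finset (ZMod f)ˣ, V = Finset.univ.filter fun a =>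
      M1 a ∧ ((κ a).toAdd = c ∨ (κ a).toAdd = -c) := ⟨_, rfl⟩
  have hVc : V.card =
      Nat.card {a : (ZMod f)ˣ // M1 a ∧ ((κ a).toAdd = c ∨ (κ a).toAdd = -c)} := by
    rw [Nat.card_eq_fintype_card, Fintype.card_subtype, hV]
  have hM : ∀ (Q : ℕ) (hQ : Q.Coprime f), M1 (ZMod.unitOfCoprime Q hQ) ↔ Q % 3 = 1 := by
    intro Q hQ
    unfold M1
    rw [ZMod.coe_unitOfCoprime, ZMod.val_natCast, Nat.mod_mod_of_dvd _ h3]
  have hcop : ∀ n : ℕ, n.Prime → n ∉ Finset.range (max N₀ f + 1) → n.Coprime f ∧ N₀ < n := by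
    intro n hn hA
    rw [Finset.mem_range, not_lt] at hA
    refine ⟨(Nat.Prime.coprime_iff_not_dvd hn).2 fun h => ?_, ?_⟩
    · have h1 := Nat.le_of_dvd hf h
      have h2 := le_max_right N₀ f
      omega
    · have h2 := le_max_left N₀ f
      omega
  have hSTe : ∀ n : ℕ, n.Prime → n ∉ Finset.range (max N₀ f + 1) → n ∈ ST →
      n ∉ S ∧ ∃ (hQ : n.Coprime f) (g : L ≃ₐ[ℚ] L), BDU.InU χ κ c g ∧
        χ g = ZMod.unitOfCoprime n hQ := by
    intro n hn hA hnST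
    rw [hST] at hnST
    obtain ⟨g, hg, P, hP, hnP, hstab⟩ := hnST
    obtain ⟨hQ, hN⟩ := hcop n hn hA
    obtain ⟨⟨k, hk, hχk⟩, hkB⟩ := hfrob n hQ hn hN P g hP hnP hstab
    refine ⟨fun hnS => hg.2 (hkB hnS), hQ, g ^ k, ?_, hχk⟩
    refine (hst g (g ^ k) 1 hg ?_).1
    rw [one_mul, inv_one, mul_one]
    exact zpowers_pow_eq hk
  refine ⟨2 * (Finset.range (max N₀ f + 1)).card + ∑ a ∈ V, DC a + C1, fun σ h1 h2 => ?_⟩
  have key := sm_add_le S ST {Q : ℕ | ∃ a ∈ V, (Q : ZMod f) = a}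
    (Finset.range (max N₀ f + 1)) ?_ ?_ h1
  · have cov := sm_cover {Q : ℕ | ∃ a ∈ V, (Q : ZMod f) = a} V (fun n _ hn => hn) h1
    have hfr := hC1 σ h1 h2
    have hfr' : ((Nat.card {g : L ≃ₐ[ℚ] L // BDU.InU χ κ c g ∧ ¬ B g} : ℝ) /
        Nat.card (L ≃ₐ[ℚ] L)) * Real.log (1 / (σ - 1)) - C1 ≤ sm ST σ := by
      rw [hST]
      exact hfr
    have hsum : ∑ a ∈ V, ∑' q : {q : ℕ // q.Prime ∧ (q : ZMod f) = a}, (q : ℝ) ^ (-σ) ≤
        ∑ a ∈ V, ((1 / (f.totient : ℝ)) * Real.log (1 / (σ - 1)) + DC a) :=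
      Finset.sum_le_sum fun a _ => hDC a σ h1 h2
    rw [Finset.sum_add_distrib, Finset.sum_const, nsmul_eq_mul, hVc] at hsum
    have hlog : 0 ≤ Real.log (1 / (σ - 1)) := by
      apply Real.log_nonneg
      rw [le_div_iff₀ (by linarith)]
      linarith
    have hmul := mul_le_mul_of_nonneg_right hT hlog
    rw [sub_mul, mul_assoc] at hmul
    linarith
  · intro n hn hA hnB
    obtain ⟨hQ, hN⟩ := hcop n hn hA
    obtain ⟨hn3, hnc⟩ := hS n hQ hn hN hnB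
    constructor
    · refine ⟨ZMod.unitOfCoprime n hQ, ?_, ZMod.coe_unitOfCoprime n hQ⟩
      rw [hV]
      exact Finset.mem_filter.2 ⟨Finset.mem_univ _, (hM n hQ).2 hn3, hnc⟩
    · intro hnST
      exact (hSTe n hn hA hnST).1 hnB
  · intro n hn hA hnST
    obtain ⟨-, hQ', g, hgU, hχg⟩ := hSTe n hn hA hnST
    refine ⟨ZMod.unitOfCoprime n hQ', ?_, ZMod.coe_unitOfCoprime n hQ'⟩
    rw [hV]
    have h5 := hgU
    unfold BDU.InU at h5
    rw [hχg] at h5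
    exact Finset.mem_filter.2 ⟨Finset.mem_univ _, h5⟩

end Pool.Agent.PTK

end

section

/-!
# PTK_ZKE: the matrix of the minus part is alternating, and the classes of points are in the kernel
-/

set_option autoImplicit false

open NumberField IsDedekindDomain Finset
open scoped nonZeroDivisors Pointwise

namespace Pool.Agent.PTK

open Pool.Agent.Lib_helper18 Pool.Agent.Lib_helper18.Eis Pool.Agent.Lib_helper84.Cub
open Pool.Agent.PT Pool.Agent.PTE Pool.Agent.PT3 Pool.Agent.PTL Pool.Agent.PTN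

namespace ZKE

/-! ### Admissible classes -/

theorem age_mul (hSTM : STM) (hSPP : SPP) {B x y : Eis} (hB : B ≠ 0) (hx : AGE B x)
    (hy : AGE B y) : AGE B (x * y) where
  ne := mul_ne_zero hx.ne hy.ne
  sym := fun π => by
    have hs := hSTM π.1 π.2.1 (hSPP.2.2.2.1 π).1
    rw [hs.mul _ _ _ hx.ne hy.ne hB, hx.sym π, hy.sym π, add_zero]
  unr := fun π h1 h2 => by
    rcases π.2.1.dvd_or_dvd h2 with h | h
    · exact hx.unr π h1 h
    · exact hy.unr π h1 h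

theorem age_one (hSTM : STM) (hSPP : SPP) {B : Eis} (hB : B ≠ 0) : AGE B 1 where
  ne := one_ne_zero
  sym := fun π => by
    have hs := hSTM π.1 π.2.1 (hSPP.2.2.2.1 π).1
    have h1 : (1 : Eis) ≠ 0 := one_ne_zero
    have h := hs.mul 1 1 _ h1 h1 hB
    rw [one_mul] at h
    have h2 : tm π.1 1 B + 0 = tm π.1 1 B + tm π.1 1 B := by
      rw [add_zero]
      exact h
    exact (add_left_cancel h2).symm
  unr := fun π _ h2 => π.2.1.not_isUnit (isUnit_of_dvd_one h2)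

theorem age_pow (hSTM : STM) (hSPP : SPP) {B x : Eis} (hB : B ≠ 0) (hx : AGE B x) (n : ℕ) :
    AGE B (x ^ n) := by
  induction n with
  | zero =>
    rw [pow_zero]
    exact age_one hSTM hSPP hB
  | succ n ih =>
    rw [pow_succ]
    exact age_mul hSTM hSPP hB ih hx

theorem age_prod (hSTM : STM) (hSPP : SPP) {B : Eis} (hB : B ≠ 0) {s : ℕ} {b : Fin s → Eis}
    (hb : ∀ i, AGE B (b i)) (c : Fin s → ℕ) (t : Finset (Fin s)) :
    AGE B (∏ i ∈ t, b i ^ c i) := by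
  classical
  induction t using Finset.induction_on with
  | empty =>
    rw [Finset.prod_empty]
    exact age_one hSTM hSPP hB
  | insert i t hi ih =>
    rw [Finset.prod_insert hi]
    exact age_mul hSTM hSPP hB (age_pow hSTM hSPP hB (hb i) _) ih

/-! ### Classes of the minus part -/

theorem mcl_mul {x y : Eis} (hx : MCl x) (hy : MCl y) : MCl (x * y) := by
  obtain ⟨h1, t, ht⟩ := hx
  obtain ⟨h2, u, hu⟩ := hy
  refine ⟨fun h => ?_, t * u, ?_⟩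
  · rcases prime_lam.dvd_or_dvd h with h | h
    · exact h1 h
    · exact h2 h
  · rw [map_mul]
    linear_combination (y * conj y) * ht + t ^ 3 * hu

theorem mcl_one : MCl 1 := by
  refine ⟨fun h => prime_lam.not_isUnit (isUnit_of_dvd_one h), 1, ?_⟩
  rw [map_one]
  ring

theorem mcl_pow {x : Eis} (hx : MCl x) (n : ℕ) : MCl (x ^ n) := by
  induction n with
  | zero =>
    rw [pow_zero]
    exact mcl_one
  | succ n ih =>
    rw [pow_succ]
    exact mcl_mul ih hx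

theorem mcl_prod {s : ℕ} {b : Fin s → Eis} (hb : ∀ i, MCl (b i)) (c : Fin s → ℕ)
    (t : Finset (Fin s)) : MCl (∏ i ∈ t, b i ^ c i) := by
  classical
  induction t using Finset.induction_on with
  | empty =>
    rw [Finset.prod_empty]
    exact mcl_one
  | insert i t hi ih =>
    rw [Finset.prod_insert hi]
    exact mcl_mul (mcl_pow (hb i) _) ih

/-! ### Local cubes -/

theorem lce_mul {π a b : Eis} (ha : LCE π a) (hb : LCE π b) : LCE π (a * b) := by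
  intro N
  obtain ⟨r, hr⟩ := ha N
  obtain ⟨s, hs⟩ := hb N
  refine ⟨r * s, ?_⟩
  have h : (r * s) ^ 3 - a * b = r ^ 3 * (s ^ 3 - b) + b * (r ^ 3 - a) := by ring
  rw [h]
  exact dvd_add (Dvd.dvd.mul_left hs _) (Dvd.dvd.mul_left hr _)

theorem lce_one (π : Eis) : LCE π 1 := by
  intro N
  refine ⟨1, ?_⟩
  have h : (1 : Eis) ^ 3 - 1 = 0 := by ring
  rw [h]
  exact dvd_zero _

theorem lce_pow {π a : Eis} (ha : LCE π a) (n : ℕ) : LCE π (a ^ n) := by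
  induction n with
  | zero =>
    rw [pow_zero]
    exact lce_one π
  | succ n ih =>
    rw [pow_succ]
    exact lce_mul ih ha

theorem lce_prod {π : Eis} {s : ℕ} {b : Fin s → Eis} {c : Fin s → ℕ}
    (hb : ∀ i, c i ≠ 0 → LCE π (b i)) (t : Finset (Fin s)) :
    LCE π (∏ i ∈ t, b i ^ c i) := by
  classical
  induction t using Finset.induction_on with
  | empty =>
    rw [Finset.prod_empty]
    exact lce_one π
  | insert i t hi ih =>
    rw [Finset.prod_insert hi]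
    refine lce_mul ?_ ih
    by_cases h : c i = 0
    · rw [h, pow_zero]
      exact lce_one π
    · exact lce_pow (hb i h) _

/-! ### The places over a large prime -/

/-- a place over `q` does not divide a number of small norm -/
theorem not_dvd_small {ϖ : PP} {q : ℕ} (hl : EADM.Below ϖ q) {M : Eis} (hM : M ≠ 0)
    (h : M.norm.natAbs < q) : ¬ ϖ.1 ∣ M := by
  intro h1
  have h2 := (hl.dvd_nat _).1 (h1.trans (DCK.dvd_natAbs_norm M))
  have h3 : 0 < M.norm.natAbs := Int.natAbs_pos.2 (norm_pos hM).ne'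
  have h4 := Nat.le_of_dvd h3 h2
  omega

/-- there is a place over every prime `q > 3` -/
theorem exists_below (hSPP : SPP) {q : ℕ} (hq : q.Prime) (h3 : 3 < q) :
    ∃ ϖ : PP, EADM.Below ϖ q := by
  have hq0 : (q : Eis) ≠ 0 := EADM.natCast_ne hq.ne_zero
  have hu : ¬ IsUnit (q : Eis) := by
    intro h
    have h5 : ((q : ℤ) : Eis) ∣ ((1 : ℤ) : Eis) := by
      rw [Int.cast_natCast, Int.cast_one]
      exact isUnit_iff_dvd_one.1 h
    have h6 := Int.eq_one_of_dvd_one (by positivity) (intCast_dvd_intCast.1 h5)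
    have := hq.one_lt
    omega
  obtain ⟨l, hl, hlq⟩ := WfDvdMonoid.exists_irreducible_factor hu hq0
  have hlp : Prime l := hl.prime
  have hl3 : ¬ l ∣ 3 := by
    intro h
    have hc : Nat.Coprime q 3 := by
      rw [Nat.coprime_primes hq Nat.prime_three]
      omega
    have hc2 : IsCoprime (q : ℤ) (3 : ℤ) := by exact_mod_cast Nat.isCoprime_iff_coprime.2 hc
    obtain ⟨u, v, huv⟩ := hc2
    have h7 : (u : Eis) * (q : Eis) + (v : Eis) * 3 = 1 := by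
      have := congrArg (Int.cast : ℤ → Eis) huv
      push_cast at this
      exact this
    apply hlp.not_isUnit
    apply isUnit_of_dvd_one
    rw [← h7]
    exact dvd_add (Dvd.dvd.mul_left hlq _) (Dvd.dvd.mul_left h _)
  obtain ⟨ϖ, hϖ⟩ := hSPP.1 l hlp hl3
  obtain ⟨p, hp⟩ := EADT.below hSPP ϖ
  have h8 : ϖ.1 ∣ (q : Eis) := hϖ.symm.dvd.trans hlq
  have h9 := (Nat.prime_dvd_prime_iff_eq hp.pr hq).1 ((hp.dvd_nat q).1 h8)
  rw [h9] at hp
  exact ⟨ϖ, hp⟩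

/-- the factor of `B` prime to the place -/
theorem split_off {ϖ : PP} {B : Eis} {E : ℕ} (hB : B ≠ 0) (hV : V ϖ.1 B = E) :
    ∃ N' : Eis, B = N' * ϖ.1 ^ E ∧ ¬ ϖ.1 ∣ N' := by
  have h1 : ϖ.1 ^ E ∣ B := (PT.F3R.pow_dvd_iff ϖ.2.1 hB E).2 hV.ge
  obtain ⟨m, hm⟩ := h1
  refine ⟨m, by rw [hm]; ring, fun h => ?_⟩
  have h2 : ϖ.1 ^ (E + 1) ∣ B := by
    rw [hm, pow_succ]
    exact mul_dvd_mul_left _ h
  have h3 := (PT.F3R.pow_dvd_iff ϖ.2.1 hB (E + 1)).1 h2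
  omega

/-- the point is not degenerate with respect to the solution -/
theorem dne_of {ϖ : PP} {E : ℕ} (hE : E = 1 ∨ E = 2) {B b x X Y p q p' q' : Eis} (hB : B ≠ 0)
    (hV : V ϖ.1 B = E) (hx : ¬ ϖ.1 ∣ x) (hs : SolE b x p q p' q') (hP : PtE B x X Y)
    (hM : ¬ ϖ.1 ∣ p ^ 3 - x * p' ^ 3) : DNE X Y p q p' q' := by
  obtain ⟨N', hN', hN'2⟩ := split_off hB hV
  obtain ⟨c₀, hc, hpt⟩ := hP.eq
  have hM2 : ¬ ϖ.1 ∣ x * q' ^ 3 - q ^ 3 := by
    intro h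
    apply hM
    have h1 : p ^ 3 - x * p' ^ 3 = b * (x * q' ^ 3 - q ^ 3) := by
      linear_combination hs.eq
    rw [h1]
    exact Dvd.dvd.mul_left h _
  have hA := fun i => DCK.dne_aux (π := ϖ) hE (X := X) (Y := Y) (u := p') (v := -p) hN' hN'2 hx
    hc hP.hY hpt (fun h => hM (by
      have h1 : p ^ 3 - x * p' ^ 3 = -((-p) ^ 3 + x * p' ^ 3) := by ring
      rw [h1]
      exact h.neg_right)) i
  have hA' := fun i => DCK.dne_aux (π := ϖ) hE (X := X) (Y := Y) (u := q') (v := -q) hN' hN'2 hx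
    hc hP.hY hpt (fun h => hM2 (by
      have h1 : x * q' ^ 3 - q ^ 3 = (-q) ^ 3 + x * q' ^ 3 := by ring
      rw [h1]
      exact h)) i
  refine ⟨?_, ?_, ?_, ?_⟩
  · intro h
    apply hA 1
    unfold DfE at h
    linear_combination h
  · intro h
    apply hA 2
    unfold DfE at h
    linear_combination h
  · intro h
    apply hA' 1
    unfold DfE at h
    linear_combination h
  · intro h
    apply hA' 2
    unfold DfE at h
    linear_combination h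

/-- the conditions on `B` -/
theorem bge {N E q : ℕ} {B : ℤ} (hSPP : SPP) (hN : 0 < N)
    (hcf : ∀ π : PP, V π.1 (N : Eis) ≤ 2) (hE : E = 1 ∨ E = 2) (hq : q.Prime) (hNq : N < q)
    (hB : B = (N : ℤ) * (q : ℤ) ^ E) : BGE (B : Eis) ∧ (N : Eis) ∣ (B : Eis) ∧
      ∀ ϖ : PP, EADM.Below ϖ q → V ϖ.1 (B : Eis) = E := by
  have hqE : q ^ E ≠ 0 := pow_ne_zero _ hq.ne_zero
  have hm : N * q ^ E ≠ 0 := mul_ne_zero hN.ne' hqE
  have hBe : (B : Eis) = ((N * q ^ E : ℕ) : Eis) := by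
    rw [hB]
    push_cast
    ring
  have hqN : N.factorization q = 0 := by
    apply Nat.factorization_eq_zero_of_not_dvd
    intro h
    have := Nat.le_of_dvd hN h
    omega
  refine ⟨⟨?_, fun ϖ => ?_⟩, ?_, fun ϖ hl => ?_⟩
  · rw [hBe]
    exact EADM.natCast_ne hm
  · obtain ⟨l, hl⟩ := EADT.below hSPP ϖ
    rw [hBe, hl.V_nat hm, Nat.factorization_mul hN.ne' hqE, Finsupp.add_apply]
    by_cases hlq : l = q
    · have h3 : (q ^ E).factorization l = E := by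
        rw [hlq, hq.factorization_pow, Finsupp.single_eq_same]
      rw [h3, hlq, hqN]
      omega
    · have h3 : (q ^ E).factorization l = 0 := by
        apply Nat.factorization_eq_zero_of_not_dvd
        intro h
        exact hlq ((Nat.prime_dvd_prime_iff_eq hl.pr hq).1 (hl.pr.dvd_of_dvd_pow h))
      have h4 := hcf ϖ
      rw [hl.V_nat hN.ne'] at h4
      omega
  · rw [hBe]
    push_cast
    exact Dvd.intro _ rfl
  · rw [hBe, hl.V_nat hm, Nat.factorization_mul hN.ne' hqE, Finsupp.add_apply, hqN,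
      hq.factorization_pow, Finsupp.single_eq_same, zero_add]

/-- the remaining row of an alternating matrix -/
theorem skew {l : ℕ} {M : Matrix (Fin l) (Fin l) (ZMod 3)} (hanti : ∀ i j, M i j = - M j i)
    (c : Fin l → ZMod 3) (j : Fin l) (hcj : c j ≠ 0)
    (hrow : ∀ i, i ≠ j → ∑ k, M i k * c k = 0) : ∑ i, M j i * c i = 0 := by
  have h1 : ∑ i, c i * ∑ k, M i k * c k = c j * ∑ k, M j k * c k := by
    rw [Finset.sum_eq_single j]
    · intro i _ hi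
      rw [hrow i hi, mul_zero]
    · intro h
      exact absurd (Finset.mem_univ _) h
  have h2 : ∑ i, c i * ∑ k, M i k * c k = - ∑ i, c i * ∑ k, M i k * c k := by
    conv_lhs =>
      simp only [Finset.mul_sum]
      rw [Finset.sum_comm]
    rw [← Finset.sum_neg_distrib]
    apply Finset.sum_congr rfl
    intro i _
    rw [Finset.mul_sum, ← Finset.sum_neg_distrib]
    apply Finset.sum_congr rfl
    intro k _
    rw [hanti k i]
    ring
  have h3 : ∑ i, c i * ∑ k, M i k * c k = 0 := by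
    generalize ∑ i, c i * ∑ k, M i k * c k = z at h2
    revert h2
    revert z
    decide
  rw [h1] at h3
  have : Fact (Nat.Prime 3) := ⟨Nat.prime_three⟩
  exact (mul_eq_zero.1 h3).resolve_left hcj

theorem cast_ne3 {n : ℕ} (h : n ≤ 2) (h0 : n ≠ 0) : (n : ZMod 3) ≠ 0 := by
  have h1 : n = 1 ∨ n = 2 := by omega
  rcases h1 with rfl | rfl <;> decide

end ZKE

open _root_.Pool.Agent.PTK.ZKE in
/-- PTK_ZKE. -/
theorem ZKE_thm (hCHE : Stmt_CHE) (hTLE : Stmt_TLE) (hTPE : Stmt_TPE) (hSTM : STM)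
    (hSPP : SPP) : Stmt_ZKE := by
  classical
  intro l N z P Q P' Q' hS hN hcf hunr
  have hz0 : ∀ i, z i ≠ 0 := by
    intro i h0
    apply hS.ind (fun k => if k = i then 1 else 0) ⟨i, by simp⟩
    refine ⟨0, ?_⟩
    rw [Finset.prod_eq_single i]
    · simp [h0]
    · intro k _ hk
      simp [hk]
    · intro h
      exact absurd (Finset.mem_univ _) h
  -- the solutions
  have hch : ∀ (j : Fin l) (d : Fin l → Fin 3), ∃ M : ℕ, (∃ i, (d i : ℕ) ≠ 0) →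
      ∃ p q p' q' : Eis, SolE (z j) (∏ i, z i ^ (d i : ℕ)) p q p' q' ∧
        (p ^ 3 - (∏ i, z i ^ (d i : ℕ)) * p' ^ 3).norm.natAbs ≤ M ∧ ∀ B : ℤ, BGE B →
        (∀ i, AGE B (z i)) →
        (LCE lam (z j) ∨ LCE lam (B : Eis) ∨ ∀ i, (d i : ℕ) ≠ 0 → LCE lam (z i)) →
        OZE B (z j) (∏ i, z i ^ (d i : ℕ)) p q p' q' =
          ∑ i, MaZ z P Q P' Q' B j i * ((d i : ℕ) : ZMod 3) := by
    intro j d
    by_cases hd : ∃ i, (d i : ℕ) ≠ 0
    · obtain ⟨p, q, p', q', h1, h2⟩ := hCHE l z P Q P' Q' hS j (fun i => (d i : ℕ))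
        (fun i => by have := (d i).isLt; show (d i : ℕ) ≤ 2; omega) hd
      exact ⟨_, fun _ => ⟨p, q, p', q', h1, le_rfl, h2⟩⟩
    · exact ⟨0, fun h => absurd h hd⟩
  choose M hM using hch
  refine ⟨N + 3 + ∑ j, ∑ d, M j d, ?_⟩
  intro E q B hE hq hqN hB hsym hTy
  have hNq : N < q := by omega
  have h3q : 3 < q := by omega
  obtain ⟨hBG, hNB, hVB⟩ := bge hSPP hN hcf hE hq hNq hB
  have hA : ∀ i, AGE (B : Eis) (z i) := fun i =>
    ⟨hz0 i, fun π => hsym π i, fun π h => hunr π i fun h' => h (h'.trans hNB)⟩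
  obtain ⟨ϖ, hϖ⟩ := exists_below hSPP hq h3q
  have hϖN : ¬ ϖ.1 ∣ (N : Eis) := by
    intro h
    have h1 := Nat.le_of_dvd hN ((hϖ.dvd_nat N).1 h)
    omega
  -- antisymmetry
  have hanti : ∀ i j, MaZ z P Q P' Q' B i j = - MaZ z P Q P' Q' B j i := by
    intro i j
    by_cases hij : i = j
    · subst hij
      simp [MaZ]
    · have hji : j ≠ i := fun h => hij h.symm
      obtain ⟨e1, e2, e3, e4⟩ := hS.sw j i hji
      have h := hTLE B (z j) (z i) (P j i) (Q j i) (P' j i) (Q' j i) hBG (hA j) (hA i) (hS.mc j)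
        (hS.mc i) (hS.sol j i hji) (by
          rcases hTy with h | h
          · exact Or.inr (Or.inr h)
          · rcases h j i hji with h | h
            · exact Or.inl h
            · exact Or.inr (Or.inl h))
      unfold MaZ
      rw [if_neg hji, if_neg hij, e1, e2, e3, e4]
      exact eq_neg_of_add_eq_zero_right h
  refine ⟨hanti, ?_⟩
  intro c hc2 hc0 X Y hP hG hW
  have hprod0 : AGE (B : Eis) (∏ i, z i ^ c i) := age_prod hSTM hSPP hBG.ne hA c Finset.univ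
  have hmx : MCl (∏ i, z i ^ c i) := mcl_prod hS.mc c Finset.univ
  have hϖx : ¬ ϖ.1 ∣ ∏ i, z i ^ c i := by
    intro h
    obtain ⟨i, -, hi⟩ := (ϖ.2.1.dvd_finsetProd_iff _).1 h
    exact hunr ϖ i hϖN (ϖ.2.1.dvd_of_dvd_pow hi)
  -- the value of a row
  have row : ∀ j, (LCE lam (z j) ∨ LCE lam (B : Eis) ∨ ∀ i, c i ≠ 0 → LCE lam (z i)) →
      (LCE lam (z j) ∨ (LCE lam (∏ i, z i ^ c i) ∧ GoodPt B (∏ i, z i ^ c i) X Y) ∨
        (¬ LCE lam (z j) ∧ ¬ LCE lam (∏ i, z i ^ c i) ∧ LCE lam (B : Eis) ∧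
          GoodW (∏ i, z i ^ c i) X Y)) →
      ∑ i, MaZ z P Q P' Q' B j i * (c i : ZMod 3) = 0 := by
    intro j h1 h2
    obtain ⟨d, hd⟩ : ∃ d : Fin l → Fin 3, ∀ i, (d i : ℕ) = c i :=
      ⟨fun i => ⟨c i, by have := hc2 i; omega⟩, fun i => rfl⟩
    have hd' : (fun i => (d i : ℕ)) = c := funext hd
    have hpr : ∏ i, z i ^ (d i : ℕ) = ∏ i, z i ^ c i :=
      Finset.prod_congr rfl fun i _ => by rw [hd i]
    obtain ⟨p₁, q₁, p₁', q₁', k1, k2, k3⟩ := hM j d (by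
      obtain ⟨i, hi⟩ := hc0
      exact ⟨i, by rw [hd i]; exact hi⟩)
    rw [hpr] at k1 k2
    have k3' := k3 B hBG hA (by
      rcases h1 with h | h | h
      · exact Or.inl h
      · exact Or.inr (Or.inl h)
      · refine Or.inr (Or.inr fun i hi => h i ?_)
        rw [← hd i]
        exact hi)
    rw [hpr] at k3'
    have hsum : ∑ i, MaZ z P Q P' Q' B j i * ((d i : ℕ) : ZMod 3) =
        ∑ i, MaZ z P Q P' Q' B j i * (c i : ZMod 3) :=
      Finset.sum_congr rfl fun i _ => by rw [hd i]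
    rw [hsum] at k3'
    rw [← k3']
    have hle : M j d ≤ ∑ j, ∑ d, M j d :=
      (Finset.single_le_sum (f := fun d => M j d) (fun _ _ => Nat.zero_le _)
        (Finset.mem_univ d)).trans (Finset.single_le_sum (f := fun j => ∑ d, M j d)
        (fun _ _ => Nat.zero_le _) (Finset.mem_univ j))
    have hMd : ¬ ϖ.1 ∣ p₁ ^ 3 - (∏ i, z i ^ c i) * p₁' ^ 3 :=
      not_dvd_small hϖ k1.n2 (by omega)
    exact hTPE B (z j) (∏ i, z i ^ c i) p₁ q₁ p₁' q₁' X Y hBG (hA j) hprod0 (hS.mc j) hmx k1 hP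
      (dne_of hE hBG.ne (hVB ϖ hϖ) hϖx k1 hP hMd) h2
  have hGood : ∀ j, ¬ LCE lam (z j) → GoodPt B (∏ i, z i ^ c i) X Y := by
    intro j hj
    rcases hG with h | h
    · exact absurd (h j) hj
    · exact h
  have rowA : ∀ j, LCE lam (z j) → ∑ i, MaZ z P Q P' Q' B j i * (c i : ZMod 3) = 0 :=
    fun j hj => row j (Or.inl hj) (Or.inl hj)
  intro j
  by_cases hj : LCE lam (z j)
  · exact rowA j hj
  by_cases hBl : LCE lam (B : Eis)
  · refine row j (Or.inr (Or.inl hBl)) ?_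
    by_cases hx : LCE lam (∏ i, z i ^ c i)
    · exact Or.inr (Or.inl ⟨hx, hGood j hj⟩)
    · exact Or.inr (Or.inr ⟨hj, hx, hBl, hW hBl⟩)
  · have hoth : ∀ i, i ≠ j → LCE lam (z i) := by
      intro i hi
      rcases hTy with h | h
      · exact absurd h hBl
      · rcases h i j hi with h | h
        · exact h
        · exact absurd h hj
    by_cases hcj : c j = 0
    · have h1 : ∀ i, c i ≠ 0 → LCE lam (z i) := by
        intro i hi
        apply hoth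
        rintro rfl
        exact hi hcj
      exact row j (Or.inr (Or.inr h1))
        (Or.inr (Or.inl ⟨lce_prod h1 Finset.univ, hGood j hj⟩))
    · exact skew hanti (fun i => (c i : ZMod 3)) j (cast_ne3 (hc2 j) hcj)
        fun i hi => rowA i (hoth i hi)

end Pool.Agent.PTK

end

section

/-!
# PTK_KUM: from tails to averages, for every monotone function
-/

set_option autoImplicit false

namespace Pool.Agent.PTK

open Pool.Agent.PT Pool.Agent.PTL Pool.Agent.PTN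

theorem KUM_thm (hDOMG : Stmt_DOMG) (hLAW : Stmt_LAW) : Stmt_KUM := by
  intro S R s M x hx hR hT F hF h0
  obtain ⟨K, hK⟩ := hDOMG S R (fun t => x * LI s t) M s F hR hT hF h0
  refine ⟨K, fun σ h1 h2 T => ?_⟩
  refine (hK σ h1 h2 T).trans (le_of_eq ?_)
  have e := hLAW.1 s 0 F
  simp only [Nat.sub_zero, zero_add] at e
  rw [← e]
  have : F 0 * (x * LI s 0) + ∑ t ∈ Finset.range s, (F (t + 1) - F t) * (x * LI s (t + 1)) =
      (F 0 * LI s 0 + ∑ t ∈ Finset.range s, (F (t + 1) - F t) * LI s (t + 1)) * x := by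
    rw [add_mul, Finset.sum_mul]
    congr 1
    · ring
    · exact Finset.sum_congr rfl fun t _ => by ring
  rw [this]

end Pool.Agent.PTK

end

section

/-!
# PTK_DX3: the local terms of a point vanish outside, for `HypX`
-/

set_option autoImplicit false

namespace Pool.Agent.PTK

open Pool.Agent.Lib_helper18 Pool.Agent.Lib_helper18.Eis Pool.Agent.Lib_helper84.Cub
open Pool.Agent.PT

namespace DX3

open DPA

lemma B_ne' {N : ℕ} {b x p q p' q' : Eis} (HD : HypX N b x p q p' q') {E Q : ℕ} {X Y : Eis}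
    (HP : HypP N b x p q p' q' E Q X Y) : (N : Eis) * (Q : Eis) ^ E ≠ 0 := by
  have h1 : (N : Eis) ≠ 0 := by
    have h2 : ((N : ℤ) : Eis) ≠ 0 := DCONST.cast_ne (by have := HD.N0; omega)
    rwa [Int.cast_natCast] at h2
  have h3 : (Q : Eis) ≠ 0 := by
    have h2 : ((Q : ℤ) : Eis) ≠ 0 := DCONST.cast_ne (by have := HP.hQ.pos; omega)
    rwa [Int.cast_natCast] at h2
  exact mul_ne_zero h1 (pow_ne_zero _ h3)

lemma n0_ne' {N : ℕ} {b x p q p' q' : Eis} (HD : HypX N b x p q p' q') {E Q : ℕ} {X Y : Eis}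
    (HP : HypP N b x p q p' q' E Q X Y) : X ^ 3 + x * Y ^ 3 ≠ 0 := by
  obtain ⟨c, hc, h⟩ := HP.pt.eq
  intro h0
  rw [h0, mul_zero] at h
  exact mul_ne_zero (B_ne' HD HP) (pow_ne_zero _ hc) h.symm

/-- The local term at a tame place where `x` is a local cube. -/
lemma core' (hIF4 : Stmt_IF4) (hLCI : Stmt_LCI) {π : PP} (hs : LSym π.1 (tm π.1) 1) {N : ℕ}
    {b x p q p' q' : Eis} (HD : HypX N b x p q p' q') {E Q : ℕ} {X Y : Eis}
    (HP : HypP N b x p q p' q' E Q X Y) (hL : LCE π.1 x) :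
    ∃ N0 : ℕ, ∀ ξ : Eis, π.1 ^ N0 ∣ ξ ^ 3 - x →
      (∀ i, LfE X Y i ξ ≠ 0) ∧
      (∀ a : Eis, a ≠ 0 → tm π.1 a (X ^ 3 + x * Y ^ 3) = tm π.1 a ((N : Eis) * (Q : Eis) ^ E)) ∧
      SVE (tm π.1) x p (-p') (-q) q' X Y =
        ASE (tm π.1) ((N : Eis) * (Q : Eis) ^ E) p q p' q' ξ +
          tm π.1 (LfE X Y 1 ξ) b - tm π.1 (LfE X Y 2 ξ) b := by
  have hB := B_ne' HD HP
  have hn0 := n0_ne' HD HP
  obtain ⟨c, hc, hE⟩ := HP.pt.eq
  obtain ⟨N1, H1⟩ := exists_ne hs.prime (b := x) HD.sol.n1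
  obtain ⟨N2, H2⟩ := exists_ne hs.prime (b := x) (SolE_n1' HD.sol)
  obtain ⟨N3, H3⟩ := exists_ne hs.prime (b := x) (p := X) (q := Y) hn0
  obtain ⟨N4, H4⟩ := hIF4 π.1 (tm π.1) 1 hs b x p (-p') (-q) q' X Y HD.hb HD.hx
    (SolE_flip HD.sol) HP.pt.hX HP.pt.hY hn0 HP.dn
  refine ⟨N1 + N2 + N3 + N4, fun ξ hξ => ?_⟩
  have g1 := H1 ξ ((pow_dvd_pow _ (by omega)).trans hξ)
  have g2 := H2 ξ ((pow_dvd_pow _ (by omega)).trans hξ)
  have g3 := H3 ξ ((pow_dvd_pow _ (by omega)).trans hξ)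
  have g4 := H4 ξ ((pow_dvd_pow _ (by omega)).trans hξ)
  have hx0 : ∀ a : Eis, a ≠ 0 → tm π.1 x a = 0 := fun a ha =>
    hLCI.2.2 π.1 (tm π.1) 1 x a hs hL HD.hx ha
  have hrel : ∀ a : Eis, a ≠ 0 →
      tm π.1 (X ^ 3 + x * Y ^ 3) a = tm π.1 ((N : Eis) * (Q : Eis) ^ E) a := by
    intro a ha
    have h1 := s_rel hs HD.hx hn0 hB hc ha hE
    rw [hx0 a ha, zero_add] at h1
    exact h1
  refine ⟨g3, ?_, ?_⟩
  · intro a ha
    rw [hs.skew (X ^ 3 + x * Y ^ 3) a hn0 ha, hs.skew ((N : Eis) * (Q : Eis) ^ E) a hB ha, hrel a ha]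
  · rw [g4, neg_neg, neg_neg]
    unfold ASE
    rw [hrel _ (g1 2), hrel _ (g2 1), hrel _ (g1 1), hrel _ (g2 2)]

end DX3

open DPA in
/-- PTK_DX3. -/
theorem DX3_thm (hSTM : STM) (hSPP : SPP) (hIF4 : Stmt_IF4) (hF7U : Stmt_F7U)
    (hLFV : Stmt_LFV) (hLCI : Stmt_LCI) : Stmt_DX3 := by
  intro N b x p q p' q' HD π E Q X Y HP hπN hπQ hπM
  have hs : LSym π.1 (tm π.1) 1 := hSTM π.1 π.2.1 (hSPP.2.2.2.1 π).1
  obtain ⟨hπb, hπx⟩ := HD.unr π hπN
  have hVx0 : V π.1 x = 0 := V_eq_zero hπx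
  have hVb0 : V π.1 b = 0 := V_eq_zero hπb
  have hVx : 3 ∣ V π.1 x := by rw [hVx0]; exact dvd_zero 3
  by_cases hcx : ch π.1 x = 0
  · have hL : LCE π.1 x := (hLCI.1 π x HD.hx).2 ⟨hVx, hcx⟩
    have hB := DX3.B_ne' HD HP
    have hn0 := DX3.n0_ne' HD HP
    have hπB : ¬ π.1 ∣ (N : Eis) * (Q : Eis) ^ E := by
      intro h
      rcases π.2.1.dvd_or_dvd h with h1 | h1
      · exact hπN h1
      · exact hπQ (π.2.1.dvd_of_dvd_pow h1)
    have hVB0 : V π.1 ((N : Eis) * (Q : Eis) ^ E) = 0 := V_eq_zero hπB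
    obtain ⟨c, hc, hE⟩ := HP.pt.eq
    have hVn : 3 ∣ V π.1 (X ^ 3 + x * Y ^ 3) := by
      have h1 := congrArg (V π.1) hE
      rw [V_mul π.2.1 HD.hx hn0, V_mul π.2.1 hB (pow_ne_zero _ hc), V_pow π.2.1 hc, hVx0,
        hVB0] at h1
      omega
    obtain ⟨N1, H1⟩ := DX3.core' hIF4 hLCI hs HD HP hL
    obtain ⟨N2, H2⟩ := hLFV π x X Y HD.hx HP.pt.hX HP.pt.hY hn0 hVx hVn
    obtain ⟨ξ, hξ⟩ := hL (N1 + N2 + 1)
    obtain ⟨-, -, h1⟩ := H1 ξ ((pow_dvd_pow _ (by omega)).trans hξ)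
    have h2 := H2 ξ ((pow_dvd_pow _ (by omega)).trans hξ)
    have h3 : π.1 ∣ ξ ^ 3 - x := by
      have h4 : π.1 ^ 1 ∣ ξ ^ 3 - x := (pow_dvd_pow _ (by omega)).trans hξ
      rwa [pow_one] at h4
    have k1 := LfE_ndvd (p := p) (q := q) h3 (fun h => hπM (dvd_mul_of_dvd_left h _))
    have k2 := LfE_ndvd (p := p') (q := q') h3 (fun h => hπM (dvd_mul_of_dvd_right h _))
    have h5 : tm π.1 (LfE X Y 1 ξ) b - tm π.1 (LfE X Y 2 ξ) b = 0 := by
      unfold tm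
      rw [h2, hVb0]
      simp
    rw [h1, add_sub_assoc, h5, add_zero]
    unfold ASE
    rw [DCONST.tm_zero hπB (k1 2), DCONST.tm_zero hπB (k2 1), DCONST.tm_zero hπB (k1 1),
      DCONST.tm_zero hπB (k2 2)]
    simp
  · exact hF7U π b x p (-p') (-q) q' X Y HD.hb HD.hx (SolE_flip HD.sol) HP.pt.hX HP.pt.hY HP.dn
      hVx hcx

end Pool.Agent.PTK

end
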