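import Mathlib
import Pool.Agent.PTWX.C37
import Pool.Agent.PTWX.C50
import Pool.Agent.PTWX.C51
import Pool.Agent.PTWX.C53
import Pool.Agent.PTWX.C57
import Pool.Agent.PTWX.C60

/-! Parts: PTKX.LAM, PTKX.LEE, PTKX.MAL, PTKX.NGN, PTKX.NG2 -/

namespace Pool.Agent.PTK.LAM
end Pool.Agent.PTK.LAM

namespace Pool.Agent.PTK.NGN
end Pool.Agent.PTK.NGN

namespace Pool.Agent.PTK.NG2
end Pool.Agent.PTK.NG2

section

/-!
# LAM: the mean corank
-/

set_option autoImplicit false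

namespace Pool.Agent.PTK

open Pool.Agent.PTL

namespace LAM

theorem even_le {s : ℕ} (hs : s % 2 = 0) :
    Esk s (fun c => (c : ℝ)) ≤ 1 / 4 * (4 - 3 / 3 ^ s) + -(1 / 4) := by
  refine AL.Esk_le s (fun c => (c : ℝ)) (1 / 4) (-(1 / 4)) (by norm_num) fun c hc => ?_
  have h2 := AL.pow_even (c := c) (by
    rintro rfl
    omega)
  have h4 : (4 * c + 1 : ℝ) ≤ 3 ^ c := by exact_mod_cast h2
  linarith

theorem odd_le {s : ℕ} (hs : s % 2 = 1) :
    Esk s (fun c => (c : ℝ)) ≤ 1 / 12 * (4 - 3 / 3 ^ s) + 3 / 4 := by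
  refine AL.Esk_le s (fun c => (c : ℝ)) (1 / 12) (3 / 4) (by norm_num) fun c hc => ?_
  have h2 := AL.pow_odd (c := c) (by omega)
  have h4 : (12 * c : ℝ) ≤ 3 ^ c + 9 := by exact_mod_cast h2
  linarith

theorem pow_ge (d : ℕ) (hd : 4 ≤ d) : 81 * (d + 1) ≤ 5 * 3 ^ d := by
  induction d, hd using Nat.le_induction with
  | base => norm_num
  | succ d hd ih =>
    rw [pow_succ]
    omega

theorem le_all (s : ℕ) : Esk s (fun c => (c : ℝ)) ≤ 13 / 12 := by
  refine (AL.Esk_id s).trans ?_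
  split_ifs <;> norm_num

end LAM

open _root_.Pool.Agent.PTK.LAM in
theorem LAM_thm : Stmt_LAM := by
  refine ⟨le_all, ?_⟩
  intro d
  rcases Nat.lt_or_ge d 4 with h | h
  · interval_cases d
    · norm_num
    · have h1 := even_le (s := 0) rfl
      norm_num at h1 ⊢
      linarith
    · have h1 := odd_le (s := 1) rfl
      norm_num at h1 ⊢
      linarith
    · have h1 := even_le (s := 2) rfl
      norm_num at h1 ⊢
      linarith
  · have h1 := le_all (d - 1)
    have h2 : (0 : ℝ) < 3 ^ d := by positivity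
    have h3 : (81 * (d + 1) : ℝ) ≤ 5 * 3 ^ d := by exact_mod_cast pow_ge d h
    have h4 : ((d : ℝ) + 1) / 3 ^ d ≤ 5 / 81 := by
      rw [div_le_div_iff₀ h2 (by norm_num)]
      linarith
    have h5 : (1 : ℝ) / 3 ^ d ≤ 1 := by
      rw [div_le_one h2]
      exact one_le_pow₀ (by norm_num)
    have h6 : (0 : ℝ) < 1 / 3 ^ d := by positivity
    have h7 : (1 - 1 / 3 ^ d) * Esk (d - 1) (fun c => (c : ℝ)) ≤ (1 - 1 / 3 ^ d) * (13 / 12) :=
      mul_le_mul_of_nonneg_left h1 (by linarith)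
    nlinarith

end Pool.Agent.PTK

end

section

/-!
# PTK_LEE: the local evaluation at the tame places
-/

set_option autoImplicit false

namespace Pool.Agent.PTK

open Pool.Agent.Lib_helper18 Pool.Agent.Lib_helper18.Eis Pool.Agent.Lib_helper84.Cub
open Pool.Agent.PT Pool.Agent.PTE

namespace LEE

/-- The relation between `B`, `x` and `n_0`. -/
theorem rel {B x X Y : Eis} (hB : B ≠ 0) (hP : PtE B x X Y) :
    X ^ 3 + x * Y ^ 3 ≠ 0 ∧ ∃ c : Eis, c ≠ 0 ∧ x * (X ^ 3 + x * Y ^ 3) = B * c ^ 3 := by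
  obtain ⟨c, hc, heq⟩ := hP.eq
  refine ⟨?_, c, hc, heq⟩
  intro h0
  rw [h0, mul_zero] at heq
  exact (mul_ne_zero hB (pow_ne_zero 3 hc)) heq.symm

/-- Linear forms at good approximations of a cube root do not vanish. -/
theorem lf_ne {π : Eis} (hπ : Prime π) {p q r b : Eis} {N : ℕ} (hn : p ^ 3 + b * q ^ 3 ≠ 0)
    (hN : V π (p ^ 3 + b * q ^ 3) < N) (hr : π ^ N ∣ r ^ 3 - b) (i : ℕ) : LfE p q i r ≠ 0 := by
  intro h0
  unfold LfE at h0
  have h1 : q * w ^ i * r = -p := by linear_combination h0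
  have h2 : (q * w ^ i * r) ^ 3 = (-p) ^ 3 := by rw [h1]
  have h3 : (w ^ i) ^ 3 = 1 := by rw [← pow_mul, mul_comm, pow_mul, w_cube, one_pow]
  have h4 : p ^ 3 + b * q ^ 3 = (-q ^ 3) * (r ^ 3 - b) := by
    linear_combination h2 - q ^ 3 * r ^ 3 * h3
  have h5 : π ^ N ∣ p ^ 3 + b * q ^ 3 := by
    rw [h4]
    exact Dvd.dvd.mul_left hr _
  have h6 := (fin hπ hn).le_multiplicity_of_pow_dvd h5
  exact absurd h6 (not_le.2 hN)

/-- A symbol of a local cube. -/
theorem lc_right {π : Eis} {s : Eis → Eis → ZMod 3} {e : ℕ} (h : LSym π s e) (hLCI : Stmt_LCI)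
    {b : Eis} (hb : b ≠ 0) (hL : LCE π b) {y : Eis} (hy : y ≠ 0) : s y b = 0 := by
  rw [h.skew b y hb hy, hLCI.2.2 π s e b y h hL hb hy, neg_zero]

/-- The swapped solution. -/
theorem swap {b x p q p' q' : Eis} (h : SolE b x p q p' q') : SolE x b p (-p') (-q) q' where
  eq := by linear_combination h.eq
  n1 := by
    intro h0
    apply h.n2
    linear_combination h0
  n2 := by
    intro h0
    apply h.n1
    linear_combination h0
  g1 := by
    intro h0
    apply h.g1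
    unfold GfE at h0 ⊢
    linear_combination h0
  g2 := by
    intro h0
    apply h.g2
    unfold GfE at h0 ⊢
    linear_combination h0

theorem nn {b x p q p' q' : Eis} (h : SolE b x p q p' q') : (-q) ^ 3 + x * q' ^ 3 ≠ 0 := by
  intro h0
  apply h.n2
  linear_combination h.eq + b * h0

theorem gf_swap (p q p' q' : Eis) (i : ℕ) : GfE p (-p') (-q) q' i = GfE p q p' q' i := by
  unfold GfE
  ring

/-- The local term of a point when `x` is a local cube. -/
theorem SV_LC {π : Eis} {s : Eis → Eis → ZMod 3} {e : ℕ} (h : LSym π s e) (hLCI : Stmt_LCI)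
    (hIF4 : Stmt_IF4) {B b x p q p' q' X Y : Eis} (hb : b ≠ 0) (hx : x ≠ 0)
    (hS : SolE b x p q p' q') (hX : X ≠ 0) (hY : Y ≠ 0) (hn : X ^ 3 + x * Y ^ 3 ≠ 0)
    (hD : DNE X Y p q p' q') (hL : LCE π x) (hrel : LEV.Rel s B x (X ^ 3 + x * Y ^ 3)) :
    ∃ N0 : ℕ, V π (X ^ 3 + x * Y ^ 3) < N0 ∧
      ∀ ξ : Eis, π ^ N0 ∣ ξ ^ 3 - x → (∀ i, LfE X Y i ξ ≠ 0) ∧
        SVE s x p q p' q' X Y = ASE s B p (-p') (-q) q' ξ +
          s (LfE X Y 1 ξ) b - s (LfE X Y 2 ξ) b := by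
  obtain ⟨N1, h1⟩ := hIF4 π s e h b x p q p' q' X Y hb hx hS hX hY hn hD
  have hn' : p ^ 3 + x * (-p') ^ 3 ≠ 0 := (swap hS).n1
  have hn'' := nn hS
  set N0 := N1 + V π (X ^ 3 + x * Y ^ 3) + V π (p ^ 3 + x * (-p') ^ 3) +
    V π ((-q) ^ 3 + x * q' ^ 3) + 1 with hN0
  refine ⟨N0, by omega, fun ξ hξ => ?_⟩
  have hF := lf_ne h.prime hn (N := N0) (by omega) hξ
  have hG := lf_ne h.prime hn' (N := N0) (by omega) hξ
  have hG' := lf_ne h.prime hn'' (N := N0) (by omega) hξ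
  refine ⟨hF, ?_⟩
  rw [h1 ξ ((pow_dvd_pow π (by omega)).trans hξ)]
  have key : ∀ y : Eis, y ≠ 0 → s B y = s (X ^ 3 + x * Y ^ 3) y := by
    intro y hy
    rw [hrel y hy, hLCI.2.2 π s e x y h hL hx hy, zero_add]
  unfold ASE
  rw [key _ (hG 2), key _ (hG' 1), key _ (hG 1), key _ (hG' 2)]

/-- The case of a functional proportional to the one of `B`. -/
theorem prop_case {π : Eis} {s : Eis → Eis → ZMod 3} {e : ℕ} (h : LSym π s e)
    (hLCI : Stmt_LCI) (hIF4B : Stmt_IF4B) {B b x X Y : Eis} (hb : b ≠ 0) (hx : x ≠ 0)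
    (hX : X ≠ 0) (hY : Y ≠ 0) (hn : X ^ 3 + x * Y ^ 3 ≠ 0) (hL : LCE π x)
    (hrel : LEV.Rel s B x (X ^ 3 + x * Y ^ 3)) (j : ZMod 3)
    (hj : ∀ y : Eis, y ≠ 0 → s b y = j * s B y) :
    ∃ N0 : ℕ, ∀ ξ : Eis, π ^ N0 ∣ ξ ^ 3 - x → (∀ i, LfE X Y i ξ ≠ 0) →
      s (LfE X Y 1 ξ) b - s (LfE X Y 2 ξ) b = s w b := by
  obtain ⟨N1, h1⟩ := hIF4B π s e h x X Y hx hX hY hn
  refine ⟨N1, fun ξ hξ hF => ?_⟩
  have h2 := h1 ξ hξ
  have key : ∀ y : Eis, y ≠ 0 → s y b = j * s y (X ^ 3 + x * Y ^ 3) := by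
    intro y hy
    rw [h.skew b y hb hy, hj y hy, hrel y hy,
      hLCI.2.2 π s e x y h hL hx hy, h.skew y _ hy hn]
    ring
  rw [key _ (hF 1), key _ (hF 2), key _ LEV.w_ne]
  linear_combination j * h2

theorem tame_prop {π : Eis} {b B : Eis} (hB : ¬ (3 ∣ V π B ∧ ch π B = 0))
    (h0 : tm π b B = 0) : ∃ j : ZMod 3, ∀ y : Eis, y ≠ 0 → tm π b y = j * tm π B y := by
  unfold tm at h0
  obtain ⟨j, h1, h2⟩ := LEV.alg3 (V π B : ZMod 3) (ch π B) (V π b : ZMod 3)
    (ch π b) (by rwa [LEV.cast3]) h0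
  refine ⟨j, fun y _ => ?_⟩
  unfold tm
  rw [h1, h2]
  ring

/-- A class that is not a local cube and whose symbol with `B` vanishes has valuation prime to
`3` at a prime dividing `B`. -/
theorem nd {π : PP} {B t : Eis} (h1 : V π.1 B ≠ 0) (h2 : V π.1 B ≤ 2) (ht : tm π.1 t B = 0)
    (hL : ¬ (3 ∣ V π.1 t ∧ ch π.1 t = 0)) : ¬ 3 ∣ V π.1 t := by
  intro h3
  apply hL
  refine ⟨h3, ?_⟩
  unfold tm at ht
  rw [LEV.cast3.2 h3, zero_mul, sub_zero] at ht
  have h9 : (V π.1 B : ZMod 3) ≠ 0 := by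
    rw [Ne, LEV.cast3]
    omega
  have : ∀ u y : ZMod 3, u ≠ 0 → u * y = 0 → y = 0 := by decide
  exact this _ _ h9 ht

end LEE

/-- PTK_LEE: the local evaluation at the tame places. -/
theorem LEE_thm (hAVE : Stmt_AVE) (hF2E : Stmt_F2E) (hF3E : Stmt_F3E) (hF4E : Stmt_F4E)
    (hSTM : STM) (hSPP : SPP) (hLCI : Stmt_LCI) (hIF1 : Stmt_IF1) (hIF4 : Stmt_IF4)
    (hIF4B : Stmt_IF4B) (hF6R : Stmt_F6R) (hF7U : Stmt_F7U) (hLFV : Stmt_LFV) : Stmt_LEE := by
  intro π B b x p q p' q' X Y hB hb hx hS hP hD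
  have hs : LSym π.1 (tm π.1) 1 := hSTM π.1 π.2.1 (hSPP.2.2.2.1 π).1
  have hB0 := hB.ne
  have hb0 := hb.ne
  have hx0 := hx.ne
  obtain ⟨hn, c, hc, heq⟩ := LEE.rel hB0 hP
  have hrel : LEV.Rel (tm π.1) B x (X ^ 3 + x * Y ^ 3) := LEV.rel_sym hs hB0 hx0 hn hc heq
  have hsBx : tm π.1 B x = 0 := by
    have h1 := hx.sym π
    have h2 := hs.skew x B hx0 hB0
    rw [h2, h1, neg_zero]
  have hwprod : tm π.1 w (B * x * b) = tm π.1 w B + tm π.1 w x + tm π.1 w b := by
    rw [LEV.mul_right hs (mul_ne_zero hB0 hx0) hb0 LEV.w_ne, LEV.mul_right hs hB0 hx0 LEV.w_ne]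
  by_cases hLb : LCE π.1 b
  · have hTT : TTE π B b x p q p' q' = AVE (some π) B b p q p' q' + tm π.1 w x := by
      unfold TTE
      exact if_pos hLb
    have hA := hAVE (some π) B b x p q p' q' hB0 hb0 hx0 hS.toSolWE hsBx hLb
    by_cases hLx : LCE π.1 x
    · -- both cubes
      obtain ⟨N1, h1⟩ := hA.1
      obtain ⟨N2, h2⟩ := hIF1 π.1 (tm π.1) 1 hs b x p q p' q' hb0 hx0 hS
      obtain ⟨N3, _, h3⟩ := LEE.SV_LC hs hLCI hIF4 hb0 hx0 hS hP.hX hP.hY hn hD hLx hrel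
      obtain ⟨r, hr⟩ := hLb (N1 + N2)
      obtain ⟨ξ, hξ⟩ := hLx (N2 + N3)
      have a1 : ASE (tm π.1) B p q p' q' r = AVE (some π) B b p q p' q' :=
        h1 r ((pow_dvd_pow π.1 (by omega)).trans hr)
      have a2 := h2 r ξ ((pow_dvd_pow _ (by omega)).trans hr)
        ((pow_dvd_pow _ (by omega)).trans hξ) B hB0
      obtain ⟨hF, a3⟩ := h3 ξ ((pow_dvd_pow _ (by omega)).trans hξ)
      rw [LEE.lc_right hs hLCI hb0 hLb (hF 1), LEE.lc_right hs hLCI hb0 hLb (hF 2)] at a3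
      have a4 := LEE.lc_right hs hLCI hb0 hLb LEV.w_ne
      have a5 := LEE.lc_right hs hLCI hx0 hLx LEV.w_ne
      rw [hTT]
      unfold UVE
      rw [hwprod, a3, a4, a5, ← a1]
      linear_combination a2
    · -- `b` is a cube, `x` is not
      obtain ⟨N1, h1⟩ := hF2E π B b x p q p' q' hB hb hx hS hLb hLx
      have a1 := hA.2 _ N1 h1
      have a4 := LEE.lc_right hs hLCI hb0 hLb LEV.w_ne
      have a2 : SVE (tm π.1) x p q p' q' X Y = 0 := by
        by_cases hVx : 3 ∣ V π.1 x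
        · refine hF7U π b x p q p' q' X Y hb0 hx0 hS hP.hX hP.hY hD hVx fun h => hLx ?_
          exact (hLCI.1 π x hx0).2 ⟨hVx, h⟩
        · have h6 := hF6R π b x p q p' q' X Y hb0 hx0 hS hP.hX hP.hY hD hVx
          by_cases hVn : 3 ∣ V π.1 (X ^ 3 + x * Y ^ 3)
          · exact h6.1 hVn
          · rw [h6.2 hVn, a4, neg_zero]
      rw [hTT, a1, a2]
      unfold UVE
      rw [hwprod, a4]
      ring
  · have hTT : TTE π B b x p q p' q' =
        if 3 ∣ V π.1 b + V π.1 B ∧ ¬ 3 ∣ V π.1 b then - tm π.1 w x else 0 := by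
      unfold TTE
      exact if_neg hLb
    by_cases hLx : LCE π.1 x
    · -- `x` is a cube, `b` is not
      have a5 := LEE.lc_right hs hLCI hx0 hLx LEV.w_ne
      have hTT0 : TTE π B b x p q p' q' = 0 := by
        rw [hTT]
        split_ifs with hcond
        · rw [a5, neg_zero]
        · rfl
      obtain ⟨N1, h1⟩ := hF2E π B x b p (-p') (-q) q' hB hx hb (LEE.swap hS) hLx hLb
      obtain ⟨N3, hN3, h3⟩ := LEE.SV_LC hs hLCI hIF4 hb0 hx0 hS hP.hX hP.hY hn hD hLx hrel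
      have hmain : ∃ N4 : ℕ, ∀ ξ : Eis, π.1 ^ N4 ∣ ξ ^ 3 - x →
          (∀ i, LfE X Y i ξ ≠ 0) →
          tm π.1 (LfE X Y 1 ξ) b - tm π.1 (LfE X Y 2 ξ) b = tm π.1 w b := by
        by_cases hLB : LCE π.1 B
        · have hB' := (hLCI.1 π B hB0).1 hLB
          have hVB : V π.1 B = 0 := by
            have := hB.cf π
            omega
          have hπB : ¬ π.1 ∣ B := V_eq_zero_iff.1 hVB
          have hπb := hb.unr π hπB
          have hπx := hx.unr π hπB
          have hVb : V π.1 b = 0 := V_eq_zero hπb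
          have hVw : V π.1 w = 0 := V_eq_zero (not_dvd_w π.2.1)
          have hVn : 3 ∣ V π.1 (X ^ 3 + x * Y ^ 3) := by
            have h7 := congrArg (V π.1) heq
            rw [V_mul π.2.1 hx0 hn, V_mul π.2.1 hB0 (pow_ne_zero 3 hc),
              V_pow π.2.1 hc, hVB, V_eq_zero hπx] at h7
            omega
          obtain ⟨N5, h5⟩ := hLFV π x X Y hx0 hP.hX hP.hY hn
            (by rw [V_eq_zero hπx]; exact dvd_zero _) hVn
          refine ⟨N5, fun ξ hξ hF => ?_⟩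
          have h8 := h5 ξ hξ
          unfold tm
          rw [hVb, hVw, h8]
          push_cast
          ring
        · obtain ⟨j, hj⟩ := LEE.tame_prop (π := π.1) (b := b) (B := B)
            (fun h => hLB ((hLCI.1 π B hB0).2 h)) (hb.sym π)
          exact LEE.prop_case hs hLCI hIF4B hb0 hx0 hP.hX hP.hY hn hLx hrel j hj
      obtain ⟨N4, h4⟩ := hmain
      obtain ⟨ξ, hξ⟩ := hLx (N1 + N3 + N4)
      obtain ⟨hF, a3⟩ := h3 ξ ((pow_dvd_pow _ (by omega)).trans hξ)
      have a1 := h1 ξ ((pow_dvd_pow _ (by omega)).trans hξ)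
      have a6 := h4 ξ ((pow_dvd_pow _ (by omega)).trans hξ) hF
      rw [LEE.gf_swap, LEE.gf_swap] at a1
      rw [hTT0, a3]
      unfold UVE
      rw [hwprod, a5]
      linear_combination a1 + a6
    · -- no cubes
      have hLb' : ¬ (3 ∣ V π.1 b ∧ ch π.1 b = 0) :=
        fun h => hLb ((hLCI.1 π b hb0).2 h)
      have hLx' : ¬ (3 ∣ V π.1 x ∧ ch π.1 x = 0) :=
        fun h => hLx ((hLCI.1 π x hx0).2 h)
      rw [hTT]
      by_cases hπB : π.1 ∣ B
      · have hVB1 : V π.1 B ≠ 0 := fun h => (V_eq_zero_iff.1 h) hπB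
        have hVB2 := hB.cf π
        have hVb := LEE.nd hVB1 hVB2 (hb.sym π) hLb'
        have hVx := LEE.nd hVB1 hVB2 (hx.sym π) hLx'
        rw [hF3E π B b x p q p' q' hB hb hx hS hπB hVb hVx]
        have h6 := hF6R π b x p q p' q' X Y hb0 hx0 hS hP.hX hP.hY hD hVx
        have h7 := congrArg (V π.1) heq
        rw [V_mul π.2.1 hx0 hn, V_mul π.2.1 hB0 (pow_ne_zero 3 hc),
          V_pow π.2.1 hc] at h7
        have hSV : SVE (tm π.1) x p q p' q' X Y =
            if 3 ∣ V π.1 x + V π.1 B then - tm π.1 w b else 0 := by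
          split_ifs with hcond
          · exact h6.2 (by omega)
          · refine h6.1 ?_
            have c1 : V π.1 x % 3 = 1 ∨ V π.1 x % 3 = 2 := by omega
            have c2 : V π.1 B = 1 ∨ V π.1 B = 2 := by omega
            rcases c1 with c1 | c1 <;> rcases c2 with c2 | c2 <;> omega
        rw [hSV]
        by_cases hcond : 3 ∣ V π.1 b + V π.1 B
        · rw [if_pos ⟨hcond, hVb⟩, if_pos hcond]
          ring
        · rw [if_neg (fun h => hcond h.1), if_neg hcond]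
          ring
      · have hπb := hb.unr π hπB
        have hπx := hx.unr π hπB
        have hVb : V π.1 b = 0 := V_eq_zero hπb
        have hVx : V π.1 x = 0 := V_eq_zero hπx
        have hcb : ch π.1 b ≠ 0 := fun h => hLb' ⟨by rw [hVb]; exact dvd_zero _, h⟩
        have hcx : ch π.1 x ≠ 0 := fun h => hLx' ⟨by rw [hVx]; exact dvd_zero _, h⟩
        rw [hF4E π B b x p q p' q' hB hb hx hS hπB hcb hcx,
          hF7U π b x p q p' q' X Y hb0 hx0 hS hP.hX hP.hY hD (by rw [hVx]; exact dvd_zero _) hcx,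
          if_neg (fun h => h.2 (by rw [hVb]; exact dvd_zero _))]
        ring

end Pool.Agent.PTK

end

section

/-!
# MAL: summary of the joint governing field with pairs of classes, `Q = 2 (mod 3)`
-/

set_option autoImplicit false

open NumberField IsDedekindDomain Finset
open scoped nonZeroDivisors Pointwise

namespace Pool.Agent.PTK

open Pool.Agent.Lib_helper18 Pool.Agent.Lib_helper18.Eis Pool.Agent.Lib_helper84.Cub
open Pool.Agent.PT Pool.Agent.PTE Pool.Agent.PT3 Pool.Agent.PTL Pool.Agent.PTN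

namespace MAL

/-- one class, with no norm, is a system of stage 1 -/
theorem sys1 {M N : ℕ} {z : Fin M → Eis} {α β : Fin N → Fin M} {P Q P' Q' : Fin N → Eis}
    (hS : SysZ z α β P Q P' Q') (i : Fin M) :
    SysK (z i) (Fin.elim0 : Fin 0 → Eis) Fin.elim0 Fin.elim0 Fin.elim0 Fin.elim0 := by
  refine ⟨fun c₀ c h hc => ?_, fun j => j.elim0, hS.cz i, fun j => j.elim0⟩
  refine hS.ind (Function.update 0 i c₀) ⟨i, ?_⟩ ?_
  · rw [Function.update_self]
    rcases h with h | ⟨j, _⟩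
    · exact h
    · exact j.elim0
  · obtain ⟨t, ht⟩ := hc
    refine ⟨t, ht.trans ?_⟩
    rw [Finset.univ_eq_empty, Finset.prod_empty, mul_one, Finset.prod_eq_single i,
      Function.update_self]
    · intro j _ hj
      rw [Function.update_of_ne hj, Pi.zero_apply, pow_zero]
    · intro h
      exact absurd (Finset.mem_univ _) h

/-- the governing field for one class -/
theorem gov1 {M N : ℕ} {z : Fin M → Eis} {α : Fin N → Fin M} {P Q P' Q' : Fin N → Eis}
    {f : ℕ} {L : Type} [Field L] [NumberField L] {ζ : L} {ι : Eis →+* L}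
    (hG : GovZ z α P Q P' Q' f L ζ ι) (i : Fin M) :
    GovK (z i) (Fin.elim0 : Fin 0 → Eis) Fin.elim0 Fin.elim0 Fin.elim0 Fin.elim0 f L ζ ι :=
  ⟨hG.gal, hG.prim, hG.nine, hG.hω, hG.rz i, fun j => j.elim0, fun j => j.elim0,
    fun j => j.elim0⟩

end MAL

theorem MAL_thm (hMZF : Stmt_MZF) (hGCHI : GCHI) (hGTG : GTG) (hGFRG : GFRG) (hGTK : Stmt_GTK)
    (hGFK : Stmt_GFK) (hMC1 : Stmt_MC1) (hMC2 : Stmt_MC2) : Stmt_MAL := by
  classical
  intro s b p q p' q' M N z α β P Q P' Q' f hSG hSZ hf h9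
  obtain ⟨L, hF, hN, ζ, ι, hJ⟩ := hMZF s M N b p q p' q' z α β P Q P' Q' f hSG hSZ hf h9
  have hG := hJ.minus
  have hGp := hJ.plus
  haveI := hG.gal
  obtain ⟨χ, hχs, hχζ, hχF⟩ := hGCHI L f ζ hf hG.prim
  obtain ⟨N₁, hFr1⟩ := hGFRG s b p q p' q' f L ζ (ι w) hSG hGp
  choose N₂ hFr2 using fun r : Fin N => hGFK 1 (z (α r)) (fun _ => z (β r)) (fun _ => P r)
    (fun _ => Q r) (fun _ => P' r) (fun _ => Q' r) f L ζ ι (hSZ.one r) (hG.one r)
  choose N₃ hFr3 using fun i : Fin M => hGFK 0 (z i) Fin.elim0 Fin.elim0 Fin.elim0 Fin.elim0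
    Fin.elim0 f L ζ ι (MAL.sys1 hSZ i) (MAL.gov1 hG i)
  have hω3 : ι w ^ 3 = 1 := GC.om3 (GCK.om ι)
  have hf1 : 1 < f := by
    obtain ⟨c, hc⟩ := h9
    omega
  have hTp := hGTG s b p q p' q' f L ζ (ι w) hSG hGp
  have hT := fun r : Fin N => hGTK 1 (z (α r)) (fun _ => z (β r)) (fun _ => P r)
    (fun _ => Q r) (fun _ => P' r) (fun _ => Q' r) f L ζ ι (hSZ.one r) (hG.one r) 0
  -- action on ω
  have hM : ∀ g : L ≃ₐ[ℚ] L, M2 (χ g) → g (ι w) = ι w ^ 2 := by
    intro g hg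
    rw [hG.hω, map_pow, hχζ g, ← pow_mul, mul_comm, pow_mul, ← hG.hω]
    apply GALD.om_congr hω3
    unfold M2 at hg
    omega
  -- the plus part
  let tt : (L ≃ₐ[ℚ] L) → Fin s → Fin s → ZMod 3 := fun g j i =>
    if h : j ≠ i ∧ g (ι w) = ι w ^ 2 then ((hTp j i h.1).1 g h.2).choose else 0
  have htt : ∀ (g : L ≃ₐ[ℚ] L) (j i : Fin s), j ≠ i → g (ι w) = ι w ^ 2 →
      IsT b p q p' q' (ι w) g j i (tt g j i) := by
    intro g j i hji hg
    have h : j ≠ i ∧ g (ι w) = ι w ^ 2 := ⟨hji, hg⟩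
    have e : tt g j i = ((hTp j i h.1).1 g h.2).choose := dif_pos h
    rw [e]
    exact ((hTp j i h.1).1 g h.2).choose_spec.1
  have httu : ∀ (g : L ≃ₐ[ℚ] L) (j i : Fin s) (c : ZMod 3), j ≠ i → g (ι w) = ι w ^ 2 →
      IsT b p q p' q' (ι w) g j i c → tt g j i = c := by
    intro g j i c hji hg hc
    exact ((hTp j i hji).1 g hg).unique (htt g j i hji hg) hc
  -- the minus part
  let F : (L ≃ₐ[ℚ] L) → Prop := fun g => g (ι w) = ι w ^ 2 ∧
    ∀ (i : Fin M) (ρ : L), ρ ^ 3 = ι (z i) → g (g ρ) = ρ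
  have hFx : ∀ (g : L ≃ₐ[ℚ] L), F g → ∀ r : Fin N,
      FxK (z (α r)) (fun _ : Fin 1 => z (β r)) ι g := fun g hg r => ⟨hg.2 _, fun _ => hg.2 _⟩
  let t : (L ≃ₐ[ℚ] L) → Fin N → ZMod 3 := fun g r =>
    if h : F g then ((hT r).1 g h.1 (hFx g h r)).choose else 0
  have ht : ∀ (g : L ≃ₐ[ℚ] L) (r : Fin N), F g → IsTK (z (α r)) (fun _ : Fin 1 => P r)
      (fun _ => Q r) (fun _ => P' r) (fun _ => Q' r) ι g 0 (t g r) := by
    intro g r h
    have e : t g r = ((hT r).1 g h.1 (hFx g h r)).choose := dif_pos h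
    rw [e]
    exact ((hT r).1 g h.1 (hFx g h r)).choose_spec.1
  have htu : ∀ (g : L ≃ₐ[ℚ] L) (r : Fin N) (c : ZMod 3), F g →
      IsTK (z (α r)) (fun _ : Fin 1 => P r) (fun _ => Q r) (fun _ => P' r) (fun _ => Q' r)
        ι g 0 c → t g r = c := by
    intro g r c h hc
    exact ((hT r).1 g h.1 (hFx g h r)).unique (ht g r h) hc
  have hconj : ∀ g τ : L ≃ₐ[ℚ] L, F g → (τ * g * τ⁻¹) (ι w) = ι w ^ 2 := by
    intro g τ hg
    rcases GAK.cases_om ι τ with hτ | hτ
    · rw [AlgEquiv.mul_apply, AlgEquiv.mul_apply, GAK.inv_fix hτ, hg.1, map_pow, hτ]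
    · have h2 : τ⁻¹ (ι w) = ι w ^ 2 := by
        have h1 : τ (ι w ^ 2) = ι w := by rw [map_pow, hτ, GAK.om4]
        conv_lhs => rw [← h1]
        rw [← AlgEquiv.mul_apply, inv_mul_cancel]
        rfl
      rw [AlgEquiv.mul_apply, AlgEquiv.mul_apply, h2, map_pow, hg.1, GAK.om4, hτ]
  have hFk : ∀ (g : L ≃ₐ[ℚ] L), F g → ∀ i : Fin M, FxK (z i) z ι g :=
    fun g hg i => ⟨hg.2 i, hg.2⟩
  refine ⟨L, hF, hN, hG.gal, χ, tt, F, t,
    max N₁ (max (Finset.univ.sup N₂) (Finset.univ.sup N₃)), hχs, ?_, ?_, ?_, ?_, ?_, ?_⟩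
  · intro g τ hg j i hji
    have h1 : χ (τ * g * τ⁻¹) = χ g := by
      rw [map_mul, map_mul, map_inv, mul_comm (χ τ), mul_inv_cancel_right]
    apply httu _ _ _ _ hji
    · apply hM
      rw [h1]
      exact hg
    · exact (hTp j i hji).2.1 g τ _ (hM g hg) (htt g j i hji (hM g hg))
  · intro g l hg hl j i hji
    apply httu _ _ _ _ hji
    · rw [GALD.pow_om hω3 g (hM g hg) l]
      apply GALD.om_congr hω3
      rw [GALD.two_pow_odd hl]
    · exact (hTp j i hji).2.2 g _ l (hM g hg) hl (htt g j i hji (hM g hg))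
  · intro g τ _ hg
    have hF' : F (τ * g * τ⁻¹) :=
      ⟨hconj g τ hg, fun i => (GAK.fxk_conj τ hg.1 (hFk g hg i)).1⟩
    refine ⟨hF', funext fun r => ?_⟩
    exact htu _ _ _ hF' ((hT r).2.1 g τ _ hg.1 (hFx g hg r) (ht g r hg)).2
  · intro g l _ hg hl
    have hF' : F (g ^ l) := by
      refine ⟨?_, fun i => (GAK.fxk_pow (hFk g hg i) l).1⟩
      rw [GALD.pow_om hω3 g hg.1 l]
      apply GALD.om_congr hω3
      rw [GALD.two_pow_odd hl]
    refine ⟨hF', funext fun r => ?_⟩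
    rw [Pi.smul_apply, smul_eq_mul]
    exact htu _ _ _ hF' ((hT r).2.2 g _ l hg.1 (hFx g hg r) hl (ht g r hg)).2
  · intro a v v' y y' ha
    obtain ⟨z₁, h1F, h1p, h1m⟩ := hMC1 s M N b p q p' q' z α β P Q P' Q' f L ζ ι hSG hSZ hJ
      (fun j => y j - y' j)
    obtain ⟨z₂, h2F, h2p, h2m⟩ := hMC2 s M N b p q p' q' z α β P Q P' Q' f L ζ ι hSG hSZ hJ
      (fun j i => v j i - v' j i)
    obtain ⟨σ, hσ⟩ : ∃ σ, σ = z₁ * z₂ := ⟨_, rfl⟩
    have hza : ∀ y : L, σ y = z₁ (z₂ y) := fun y => by rw [hσ]; rfl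
    have hzζ : σ ζ = ζ := by rw [hza, h2F.ze, h1F.ze]
    have hzω : σ (ι w) = ι w := by rw [hG.hω, map_pow, hzζ]
    have h1ω : z₁ (ι w) = ι w := by rw [hG.hω, map_pow, h1F.ze]
    have hzz : ∀ (i : Fin M) (ρ : L), ρ ^ 3 = ι (z i) → σ ρ = ρ := fun i ρ hρ => by
      rw [hza, h2F.rz i ρ hρ, h1F.rz i ρ hρ]
    have hzb : ∀ (j : Fin s) (ρ : L), ρ ^ 3 = (b j : L) → σ ρ = ρ := fun j ρ hρ => by
      rw [hza, h2F.rb j ρ hρ, h1F.rb j ρ hρ]
    have hzP : ∀ (j i : Fin s), j < i → ∀ (ρ A : L), PrP b p q p' q' ι j i ρ A →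
        σ A = ι w ^ (v j i - v' j i).val * A := by
      intro j i hji ρ A hA
      rw [hza, h2p j i ρ A hji hA, map_mul, map_pow, h1ω, h1p j i ρ A hji.ne hA]
    have hzM : ∀ (j : Fin N) (ρ A : L), PrW z α P Q P' Q' ι j ρ A →
        σ A = ι w ^ (y j - y' j).val * A ∧
        ∀ g : L ≃ₐ[ℚ] L, g (ι w) = ι w ^ 2 → σ (g A) = ι w ^ (- (y j - y' j)).val * g A := by
      intro j ρ A hA
      obtain ⟨e1, e2⟩ := h1m j ρ A hA
      obtain ⟨e3, e4⟩ := h2m j ρ A hA
      refine ⟨by rw [hza, e3, e1], fun g hg => ?_⟩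
      rw [hza, e4 g hg, e2 g hg]
    have hχz : χ σ = 1 := by
      have h1 := hχζ σ
      rw [hzζ] at h1
      haveI : NeZero f := ⟨hf.ne'⟩
      have h2 : ((χ σ : ZMod f)).val = 1 := by
        apply hG.prim.pow_inj (ZMod.val_lt _) hf1
        rw [← h1, pow_one]
      apply Units.ext
      have h3 := ZMod.natCast_zmod_val (χ σ : ZMod f)
      rw [h2] at h3
      rw [← h3]
      simp
    have hFz : ∀ g : L ≃ₐ[ℚ] L, F g → F (g * σ) := by
      intro g hg
      refine ⟨?_, fun i =>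
        (GAK.fxk_mul (hSZ.cz i) hSZ.cz hg.1 hzω (hzz i) hzz (hFk g hg i)).1⟩
      rw [AlgEquiv.mul_apply, hzω, hg.1]
    have hFz' : ∀ g : L ≃ₐ[ℚ] L, F (g * σ) → F g := by
      intro g hg
      have h1 : F (g * σ * σ⁻¹) := by
        refine ⟨?_, fun i => (GAK.fxk_mul (hSZ.cz i) hSZ.cz hg.1 (GAK.inv_fix hzω)
          (fun ρ hρ => GAK.inv_fix (hzz i ρ hρ)) (fun j ρ hρ => GAK.inv_fix (hzz j ρ hρ))
          (hFk _ hg i)).1⟩
        rw [AlgEquiv.mul_apply, GAK.inv_fix hzω, hg.1]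
      rwa [mul_inv_cancel_right] at h1
    have key : ∀ g : L ≃ₐ[ℚ] L, F g → ∀ j, t (g * σ) j = t g j - (y j - y' j) := by
      intro g hg j
      apply htu _ _ _ (hFz g hg)
      intro ρ A hρ hA
      obtain ⟨h1, h2⟩ := hzM j ρ A ⟨hρ, hA⟩
      have h3 := h2 g hg.1
      have h4 := ht g j hg ρ A hρ hA
      rw [AlgEquiv.mul_apply, AlgEquiv.mul_apply, h1, map_mul, map_pow, hg.1, map_mul, map_pow,
        map_pow, hzω, h3, map_mul, map_mul, map_pow, map_pow, map_pow, hg.1, h4]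
      rw [← mul_assoc, ← mul_assoc, ← pow_mul, ← pow_mul, ← pow_mul, ← pow_add, ← pow_add]
      congr 1
      apply GALD.om_congr hω3
      have h5 := GAK.val_calc (y j - y' j) (t g j)
      omega
    have keyp : ∀ g : L ≃ₐ[ℚ] L, g (ι w) = ι w ^ 2 → ∀ j i, j < i →
        tt (g * σ) j i = tt g j i - (v j i - v' j i) := by
      intro g hg j i hji
      have hgz : (g * σ) (ι w) = ι w ^ 2 := by rw [AlgEquiv.mul_apply, hzω, hg]
      apply httu _ _ _ _ hji.ne hgz
      intro ρ A hρ hgρ hA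
      rw [AlgEquiv.mul_apply, hzb j ρ hρ] at hgρ
      have h1 := htt g j i hji.ne hg ρ A hρ hgρ hA
      rw [AlgEquiv.mul_apply, hzP j i hji ρ A ⟨hρ, hA⟩, map_mul, map_pow, hg, mul_assoc, h1,
        ← pow_mul, ← pow_add]
      apply GALD.om_congr hω3
      have : ((2 * (v j i - v' j i).val + (tt g j i).val : ℕ) : ZMod 3) =
          (((tt g j i - (v j i - v' j i)).val : ℕ) : ZMod 3) := by
        push_cast
        rw [ZMod.natCast_zmod_val, ZMod.natCast_zmod_val, ZMod.natCast_zmod_val]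
        have h3 : (3 : ZMod 3) = 0 := by decide
        linear_combination (v j i - v' j i) * h3
      exact (ZMod.natCast_eq_natCast_iff' _ _ 3).mp this
    apply Nat.card_congr
    refine Equiv.subtypeEquiv (Equiv.mulRight σ) ?_
    intro g
    have hχ : χ (g * σ) = χ g := by rw [map_mul, hχz, mul_one]
    show (χ g = a ∧ F g ∧ t g = y ∧ ∀ j i, j < i → tt g j i = v j i) ↔
      (χ (g * σ) = a ∧ F (g * σ) ∧ t (g * σ) = y' ∧ ∀ j i, j < i → tt (g * σ) j i = v' j i)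
    rw [hχ]
    constructor
    · rintro ⟨h1, h2, h3, h4⟩
      refine ⟨h1, hFz g h2, funext fun j => ?_, fun j i hji => ?_⟩
      · rw [key g h2 j, h3]
        ring
      · rw [keyp g (hM g (by rw [h1]; exact ha)) j i hji, h4 j i hji]
        ring
    · rintro ⟨h1, h2, h3, h4⟩
      refine ⟨h1, hFz' g h2, funext fun j => ?_, fun j i hji => ?_⟩
      · have h5 := congrFun h3 j
        rw [key g (hFz' g h2) j] at h5
        linear_combination h5
      · have h5 := h4 j i hji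
        rw [keyp g (hM g (by rw [h1]; exact ha)) j i hji] at h5
        linear_combination h5
  · intro q₀ hq hqp hN₀ I g hI hqI hst
    haveI := hI
    have hN₂ : ∀ r, N₂ r < q₀ := fun r => (Finset.le_sup (f := N₂) (Finset.mem_univ r)).trans_lt
      (((le_max_left _ _).trans (le_max_right _ _)).trans_lt hN₀)
    have hN₃ : ∀ i, N₃ i < q₀ := fun i => (Finset.le_sup (f := N₃) (Finset.mem_univ i)).trans_lt
      (((le_max_right _ _).trans (le_max_right _ _)).trans_lt hN₀)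
    obtain ⟨h1, h2⟩ := hFr1 q₀ hqp ((le_max_left _ _).trans_lt hN₀) I hI hqI
    obtain ⟨l, hl, hfr⟩ := h1 g hst
    refine ⟨l, hl, hχF q₀ hq hqp I (g ^ l) hI hqI hfr, ?_⟩
    intro hq3
    obtain ⟨h3, h4⟩ := h2 (g ^ l) hfr hq3
    refine ⟨fun j i hji r hr => h4 j i hji r _ hr (htt (g ^ l) j i hji h3), fun hz => ?_⟩
    have hF' : F (g ^ l) := ⟨h3, fun i =>
      (((hFr3 i q₀ hqp (hN₃ i) I hI hqI).2 (g ^ l) hfr hq3).2 (hz i)
        (fun j => j.elim0)).1.1⟩
    refine ⟨hF', fun r ξ hξ => ?_⟩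
    exact (((hFr2 r q₀ hqp (hN₂ r) I hI hqI).2 (g ^ l) hfr hq3).2 (hz _)
      (fun _ => hz _)).2 0 ξ _ hξ (ht (g ^ l) r hF')

end Pool.Agent.PTK

end

section

/-!
# A set of places and sufficiently many units with independent symbols (over `K`)
-/

set_option autoImplicit false

open NumberField IsDedekindDomain Finset
open scoped nonZeroDivisors Pointwise

namespace Pool.Agent.PTK

open Pool.Agent.Lib_helper18 Pool.Agent.Lib_helper18.Eis Pool.Agent.Lib_helper84.Cub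
open Pool.Agent.PT

namespace NGN

open Pool.Agent.PT.NGEN

theorem nine_of {x : Eis} (h : lam ^ 4 ∣ x ^ 2 - 1) :
    ∃ ε : ℤ, (ε = 1 ∨ ε = -1) ∧ (9 : ℤ) ∣ x.re - ε ∧ (9 : ℤ) ∣ x.im := by
  obtain ⟨h1, h2⟩ := Pool.Agent.PT.NCNT.nine_dvd h
  have hre : (x ^ 2 - 1).re = x.re * x.re - x.im * x.im - 1 := by
    rw [pow_two]
    simp
  have him : (x ^ 2 - 1).im = x.im * (2 * x.re - x.im) := by
    rw [pow_two]
    simp
    ring
  rw [hre] at h1
  rw [him] at h2
  generalize x.re = a at *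
  generalize x.im = b at *
  have key : ∀ α β : ZMod 9, α * α - β * β - 1 = 0 → β * (2 * α - β) = 0 →
      (α = 1 ∨ α = -1) ∧ β = 0 := by decide
  have hcast : ∀ n : ℤ, ((n : ZMod 9) = 0 ↔ (9 : ℤ) ∣ n) := fun n => by
    have := ZMod.intCast_zmod_eq_zero_iff_dvd n 9
    simpa using this
  rw [← hcast] at h1 h2
  push_cast at h1 h2
  obtain ⟨h3, h4⟩ := key _ _ h1 h2
  rw [hcast] at h4
  rcases h3 with h3 | h3
  · refine ⟨1, Or.inl rfl, ?_, h4⟩
    rw [← hcast]
    push_cast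
    rw [h3, sub_self]
  · refine ⟨-1, Or.inr rfl, ?_, h4⟩
    rw [← hcast]
    push_cast
    rw [h3, sub_self]

theorem prim_of {x : Eis} (h : lam ^ 4 ∣ x ^ 2 - 1) : Prim x := by
  obtain ⟨ε, hε, h1, h2⟩ := nine_of h
  refine ⟨by omega, ?_⟩
  rcases hε with rfl | rfl <;> omega

theorem dvd_sub_of {x : Eis} {ε : ℤ} (h1 : (9 : ℤ) ∣ x.re - ε) (h2 : (9 : ℤ) ∣ x.im) :
    lam ^ 4 ∣ x - (ε : Eis) := by
  have h3 : ((9 : ℤ) : Eis) ∣ x - (ε : Eis) := by
    rw [intCast_dvd_iff]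
    refine ⟨?_, ?_⟩
    · simpa using h1
    · simpa using h2
  refine dvd_trans ⟨w, ?_⟩ h3
  decide

theorem lce_lam (hLCI : Stmt_LCI) {x : Eis} (h : lam ^ 4 ∣ x ^ 2 - 1) : LCE (uni none) x := by
  obtain ⟨ε, hε, h1, h2⟩ := nine_of h
  have h3 := dvd_sub_of h1 h2
  have hl1 : ¬ lam ∣ 1 := fun h => prime_lam.not_unit (isUnit_of_dvd_one h)
  change LCE lam x
  refine hLCI.2.1 x (ε : Eis) 1 ?_ hl1 ?_
  · rcases hε with rfl | rfl
    · simpa using hl1
    · intro h4
      apply hl1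
      have h5 : (1 : Eis) = (((-1 : ℤ) : Eis)) * (-1) := by decide
      rw [h5]
      exact h4.mul_right _
  · have h4 : (ε : Eis) ^ 3 = (ε : Eis) := by
      rcases hε with rfl | rfl
      · decide
      · decide
    rw [h4, one_pow, mul_one]
    exact h3

/-- the symbol of `x` at a prime not dividing it -/
theorem ch_eqE (hSPP : SPP) (hSREC : SREC) {x : Eis} (hx : Prim x) (D : Finset PP)
    (hD : ∀ π : PP, π ∈ D ↔ π.1 ∣ x) (ρ : PP) (hρ : ρ ∉ D) :
    ch ρ.1 x = ∑ π ∈ D, (V π.1 x : ZMod 3) * sym π.1 ρ.1 := by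
  classical
  have h1 := hSREC.1 ρ.1 x (ppPrim ρ) hx
  have hρx : ¬ ρ.1 ∣ x := fun h => hρ ((hD ρ).2 h)
  rw [sl_eq (insert ρ D) (fun v hv => by
    rcases hv with hv | hv
    · rw [eq_of_dvd hSPP hv]
      exact Finset.mem_insert_self _ _
    · exact Finset.mem_insert_of_mem ((hD v).2 hv)), Finset.sum_insert hρ, neg_eq_zero] at h1
  have h2 : tm ρ.1 ρ.1 x = - ch ρ.1 x := by
    unfold tm
    rw [V_eq_zero hρx, V_self]
    push_cast
    ring
  have h3' : ∑ π ∈ D, tm π.1 ρ.1 x = ∑ π ∈ D, (V π.1 x : ZMod 3) * sym π.1 ρ.1 := by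
    apply Finset.sum_congr rfl
    intro π hπ
    have hne : π ≠ ρ := fun h => hρ (h ▸ hπ)
    have hd1 : ¬ π.1 ∣ ρ.1 := fun hd => hne (eq_of_dvd hSPP hd)
    unfold tm
    rw [V_eq_zero hd1, ch_of_not_dvd hd1]
    push_cast
    ring
  rw [h2, h3'] at h1
  rw [← add_right_inj (-ch ρ.1 x), h1]
  ring

theorem tm_eqE (hSPP : SPP) {x : Eis} {π ρ : PP} (hne : π ≠ ρ) :
    tm π.1 ρ.1 x = (V π.1 x : ZMod 3) * sym π.1 ρ.1 := by
  have hd1 : ¬ π.1 ∣ ρ.1 := fun hd => hne (eq_of_dvd hSPP hd)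
  unfold tm
  rw [V_eq_zero hd1, ch_of_not_dvd hd1]
  push_cast
  ring

/-- `x` is divisible by an element of `PP` -/
theorem exists_dvdE (hSPP : SPP) {x : Eis} (h0 : x ≠ 0) (hx : Prim x)
    (hc : ¬ ∃ c : Eis, c ^ 3 = x) : ∃ π : PP, π.1 ∣ x := by
  have hxu : ¬ IsUnit x := by
    intro h
    have h1 : Prim (1 : Eis) := ⟨by simp, by decide⟩
    rcases Prim.unit h1 h (by rw [one_mul]; exact hx) with h' | h'
    · exact hc ⟨1, by rw [h']; decide⟩
    · exact hc ⟨-1, by rw [h']; decide⟩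
  obtain ⟨l, hl, hlx⟩ := WfDvdMonoid.exists_irreducible_factor hxu h0
  have hlP : Prime l := hl.prime
  have hl3 : ¬ l ∣ 3 := by
    intro h
    rw [dvd_three_iff hlP] at h
    exact hx.not_lam_dvd (h.symm.dvd.trans hlx)
  obtain ⟨π, hπ⟩ := hSPP.1 l hlP hl3
  exact ⟨π, hπ.symm.dvd.trans hlx⟩

open Classical in
/-- from a finite type to `Fin e` -/
theorem transferE {κ : Type} [Fintype κ] (x : Eis) (S₀ S : Finset Pl) (d : κ → Eis) (hS : S₀ ⊆ S)
    (hLC : ∀ v ∈ S, v ∉ S₀ → LCE (uni v) x)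
    (hcard : (S.filter fun v => ¬ LCE (uni v) x).card = Fintype.card κ + 1)
    (hd0 : ∀ i, d i ≠ 0) (hdS : ∀ i (v : Pl), uni v ∣ d i → v ∈ S)
    (hmul : ∀ n m : κ → ℕ, ∏ i, d i ^ n i = ∏ i, d i ^ m i → n = m)
    (hind : ∀ n : κ → ZMod 3, (∀ v : Pl, ∑ i, n i * sy v (d i) x = 0) → n = 0) :
    ∃ (S : Finset Pl) (e : ℕ) (d : Fin e → Eis), S₀ ⊆ S ∧ (∀ v ∈ S, v ∉ S₀ → LCE (uni v) x) ∧
    (S.filter fun v => ¬ LCE (uni v) x).card = e + 1 ∧
    (∀ i, d i ≠ 0) ∧ (∀ i (v : Pl), uni v ∣ d i → v ∈ S) ∧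
    (∀ n m : Fin e → ℕ, ∏ i, d i ^ n i = ∏ i, d i ^ m i → n = m) ∧
    (∀ n : Fin e → ZMod 3, (∀ v : Pl, ∑ i, n i * sy v (d i) x = 0) → n = 0) := by
  let E : Fin (Fintype.card κ) ≃ κ := (Fintype.equivFin κ).symm
  refine ⟨S, Fintype.card κ, fun i => d (E i), hS, hLC, hcard, fun i => hd0 _,
    fun i v h => hdS _ v h, ?_, ?_⟩
  · intro n m h
    have h1 : ∀ n : Fin (Fintype.card κ) → ℕ,
        ∏ i, d (E i) ^ n i = ∏ k, d k ^ n (E.symm k) := by
      intro n
      rw [← E.prod_comp]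
      simp
    rw [h1, h1] at h
    have h2 := hmul _ _ h
    funext i
    have := congrFun h2 (E i)
    simpa using this
  · intro n h
    have h1 := hind (fun k => n (E.symm k)) (fun v => by
      rw [← h v, ← E.sum_comp]
      simp)
    funext i
    have := congrFun h1 (E i)
    simpa using this

theorem V_castE {x : Eis} (π : PP) (h : π.1 ∣ x) (h2 : V π.1 x ≤ 2) :
    (V π.1 x : ZMod 3) * (V π.1 x : ZMod 3) = 1 ∧ ¬ 3 ∣ V π.1 x := by
  have h1 : V π.1 x ≠ 0 := fun h' => (V_eq_zero_iff.1 h') h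
  have h3 : V π.1 x = 1 ∨ V π.1 x = 2 := by omega
  rcases h3 with h3 | h3
  · rw [h3]
    exact ⟨by decide, by decide⟩
  · rw [h3]
    exact ⟨by decide, by decide⟩

end NGN

open Pool.Agent.PT.NGEN _root_.Pool.Agent.PTK.NGN in
open Classical in
/-- a set of places and sufficiently many units with independent symbols -/
theorem NGN_thm (hSPP : SPP) (hSREC : SREC) (hLCI : Stmt_LCI)
    (hNAUX : NAUX) : Stmt_NGN := by
  intro x S₀ hx0 hx9 hV hcube hnone hS0 hS0'
  have hxP : Prim x := prim_of hx9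
  obtain ⟨D, hD⟩ : ∃ D : Finset PP, ∀ π : PP, π ∈ D ↔ π.1 ∣ x := by
    refine ⟨(hSPP.2.2.1 x hx0).toFinset, fun π => ?_⟩
    rw [Set.Finite.mem_toFinset]
    rfl
  obtain ⟨π₀, hπ₀⟩ := exists_dvdE hSPP hx0 hxP hcube
  have hπ₀D : π₀ ∈ D := (hD π₀).2 hπ₀
  have hVD : ∀ π ∈ D, (V π.1 x : ZMod 3) * (V π.1 x : ZMod 3) = 1 ∧
      ¬ 3 ∣ V π.1 x := fun π hπ => V_castE π ((hD π).1 hπ) (hV π)
  let κ : Type := {k // k ∈ D.erase π₀}
  -- the vectors
  let r : κ → PP → ZMod 3 := fun k π => if π = k.1 then 1 else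
    if π = π₀ then - (V k.1.1 x : ZMod 3) * (V π₀.1 x : ZMod 3) else 0
  have hkD : ∀ k : κ, k.1 ∈ D ∧ k.1 ≠ π₀ := fun k =>
    ⟨Finset.mem_of_mem_erase k.2, Finset.ne_of_mem_erase k.2⟩
  have hr0 : ∀ k : κ, ∑ π ∈ D, (V π.1 x : ZMod 3) * r k π = 0 := by
    intro k
    obtain ⟨hk1, hk2⟩ := hkD k
    have h1 : ∑ π ∈ D, (V π.1 x : ZMod 3) * r k π =
        ∑ π ∈ ({k.1, π₀} : Finset PP), (V π.1 x : ZMod 3) * r k π := by
      symm
      apply Finset.sum_subset
      · intro π hπ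
        rcases Finset.mem_insert.1 hπ with rfl | hπ
        · exact hk1
        · rw [Finset.mem_singleton.1 hπ]
          exact hπ₀D
      · intro π _ hπ
        rw [Finset.mem_insert, Finset.mem_singleton, not_or] at hπ
        simp only [r]
        rw [if_neg hπ.1, if_neg hπ.2, mul_zero]
    have hr1 : r k k.1 = 1 := if_pos rfl
    have hr2 : r k π₀ = - (V k.1.1 x : ZMod 3) * (V π₀.1 x : ZMod 3) := by
      change (if π₀ = k.1 then (1 : ZMod 3) else
        if π₀ = π₀ then - (V k.1.1 x : ZMod 3) * (V π₀.1 x : ZMod 3) else 0) = _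
      rw [if_neg hk2.symm, if_pos rfl]
    rw [h1, Finset.sum_pair hk2, hr1, hr2]
    have h2 := (hVD π₀ hπ₀D).1
    calc (V k.1.1 x : ZMod 3) * 1 + (V π₀.1 x : ZMod 3) *
          (- (V k.1.1 x : ZMod 3) * (V π₀.1 x : ZMod 3))
        = (V k.1.1 x : ZMod 3) * (1 - (V π₀.1 x : ZMod 3) *
          (V π₀.1 x : ZMod 3)) := by ring
      _ = 0 := by rw [h2, sub_self, mul_zero]
  have hrk : ∀ k l : κ, r k l.1 = if l = k then 1 else 0 := by
    intro k l
    simp only [r]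
    by_cases h : l = k
    · rw [h, if_pos rfl, if_pos rfl]
    · rw [if_neg (fun h' => h (Subtype.ext h')), if_neg (hkD l).2, if_neg h]
  -- the auxiliary primes
  have hex : ∀ (k : κ) (A : Finset PP), ∃ ρ : PP, ρ ∉ A ∧ ∃ ε : ZMod 3, ε ≠ 0 ∧
      ∀ π ∈ D, sym ρ.1 π.1 = ε * r k π := by
    intro k A
    obtain ⟨ρ, hρ, ε, hε, h⟩ := hNAUX D.card (fun i => (D.equivFin.symm i).1)
      (fun i => r k (D.equivFin.symm i).1) A (fun i j h => by
        exact D.equivFin.symm.injective (Subtype.ext h))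
    refine ⟨ρ, hρ, ε, hε, fun π hπ => ?_⟩
    have := h (D.equivFin ⟨π, hπ⟩)
    simpa using this
  let A₀ : Finset PP := (S₀.biUnion fun v => match v with
    | none => ∅
    | some π => {π})
  have hA₀ : ∀ π : PP, π ∈ A₀ ↔ some π ∈ S₀ := by
    intro π
    simp only [A₀, Finset.mem_biUnion]
    constructor
    · rintro ⟨v, hv, hπ⟩
      cases v with
      | none => simp at hπ
      | some π' =>
        have : π = π' := by simpa using hπ
        rw [this]
        exact hv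
    · intro h
      exact ⟨some π, h, by simp⟩
  obtain ⟨ρ, hρ1, hρ2⟩ := choose_distinct (κ := κ) (α := PP)
    (fun k ρ => ∃ ε : ZMod 3, ε ≠ 0 ∧ ∀ π ∈ D, sym ρ.1 π.1 = ε * r k π) A₀ hex Finset.univ
  have hρS : ∀ k, some (ρ k) ∉ S₀ := fun k h => (hρ1 k (Finset.mem_univ _)).2 ((hA₀ _).2 h)
  have hρD : ∀ k, ρ k ∉ D := fun k h => hρS k (hS0 _ ((hD _).1 h))
  have hρinj : ∀ k l, ρ k = ρ l → k = l := fun k l h =>
    hρ2 k (Finset.mem_univ _) l (Finset.mem_univ _) h
  choose ε hε hsym using fun k => (hρ1 k (Finset.mem_univ _)).1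
  have hsym' : ∀ k, ∀ π ∈ D, sym π.1 (ρ k).1 = ε k * r k π := by
    intro k π hπ
    have hne : π ≠ ρ k := fun h => hρD k (h ▸ hπ)
    rw [← recPP hSPP hSREC hne]
    exact hsym k π hπ
  have htm : ∀ k, ∀ π ∈ D, tm π.1 (ρ k).1 x =
      (V π.1 x : ZMod 3) * (ε k * r k π) := by
    intro k π hπ
    have hne : π ≠ ρ k := fun h => hρD k (h ▸ hπ)
    rw [tm_eqE hSPP hne, hsym' k π hπ]
  have htm0 : ∀ k, ∑ π ∈ D, tm π.1 (ρ k).1 x = 0 := by
    intro k
    rw [Finset.sum_congr rfl (htm k)]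
    have h1 : ∀ π ∈ D, (V π.1 x : ZMod 3) * (ε k * r k π) =
        ε k * ((V π.1 x : ZMod 3) * r k π) := fun π _ => by ring
    rw [Finset.sum_congr rfl h1, ← Finset.mul_sum, hr0 k, mul_zero]
  have hLCρ : ∀ k, LCE (ρ k).1 x := by
    intro k
    rw [hLCI.1 (ρ k) x hx0]
    have hnd : ¬ (ρ k).1 ∣ x := fun h => hρD k ((hD _).2 h)
    refine ⟨by rw [V_eq_zero hnd]; exact dvd_zero _, ?_⟩
    rw [ch_eqE hSPP hSREC hxP D hD (ρ k) (hρD k)]
    have h1 : ∀ π ∈ D, (V π.1 x : ZMod 3) * sym π.1 (ρ k).1 =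
        ε k * ((V π.1 x : ZMod 3) * r k π) := fun π hπ => by
      rw [hsym' k π hπ]
      ring
    rw [Finset.sum_congr rfl h1, ← Finset.mul_sum, hr0 k, mul_zero]
  have hLCD : ∀ π ∈ D, ¬ LCE π.1 x := by
    intro π hπ h
    exact (hVD π hπ).2 ((hLCI.1 π x hx0).1 h).1
  -- the set of places
  let S : Finset Pl := S₀ ∪ Finset.univ.image (fun k : κ => some (ρ k))
  have hmemS : ∀ v, v ∈ S ↔ v ∈ S₀ ∨ ∃ k, some (ρ k) = v := by
    intro v
    simp [S]
  have hLCS : ∀ v ∈ S, v ∉ S₀ → LCE (uni v) x := by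
    intro v hv hv0
    rcases (hmemS v).1 hv with h | ⟨k, rfl⟩
    · exact absurd h hv0
    · exact hLCρ k
  have hSsub : S₀ ⊆ S := fun v hv => (hmemS v).2 (Or.inl hv)
  have hcκ : Fintype.card κ + 1 = D.card := by
    have h1 : Fintype.card κ = (D.erase π₀).card := Fintype.card_coe _
    rw [h1, Finset.card_erase_of_mem hπ₀D]
    have : 0 < D.card := Finset.card_pos.2 ⟨π₀, hπ₀D⟩
    omega
  have hfilter : ∀ v, v ∈ S.filter (fun v => ¬ LCE (uni v) x) ↔
      v ∈ D.image some := by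
    intro v
    rw [Finset.mem_filter, hmemS]
    cases v with
    | none =>
      constructor
      · rintro ⟨_, h⟩
        exact absurd (lce_lam hLCI hx9) h
      · intro h
        simp at h
    | some π =>
      constructor
      · rintro ⟨h1, h2⟩
        rw [Finset.mem_image]
        rcases h1 with h1 | ⟨k, hk⟩
        · exact ⟨π, (hD π).2 (hS0' π h1 h2), rfl⟩
        · exfalso
          have : ρ k = π := by simpa using hk
          exact h2 (this ▸ hLCρ k)
      · intro h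
        rw [Finset.mem_image] at h
        obtain ⟨π', hπ', he⟩ := h
        have : π' = π := by simpa using he
        subst this
        exact ⟨Or.inl (hS0 _ ((hD _).1 hπ')), hLCD _ hπ'⟩
  have hVρ : ∀ k l, V (ρ k).1 (ρ l).1 = if l = k then 1 else 0 := by
    intro k l
    by_cases h : l = k
    · rw [h, if_pos rfl]
      exact V_self
    · rw [if_neg h]
      apply V_eq_zero
      intro hd
      exact h (hρinj _ _ (eq_of_dvd hSPP hd)).symm
  have hρdS : ∀ (k : κ) (v : Pl), uni v ∣ (ρ k).1 → v ∈ S := by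
    intro k v hv
    cases v with
    | none => exact hSsub hnone
    | some π =>
      have : π = ρ k := eq_of_dvd hSPP hv
      rw [this]
      exact (hmemS _).2 (Or.inr ⟨k, rfl⟩)
  -- independence, first part
  have hsum : ∀ (n : κ → ZMod 3) (l : κ), ∑ k, n k * tm l.1.1 (ρ k).1 x =
      (V l.1.1 x : ZMod 3) * (ε l * n l) := by
    intro n l
    rw [Finset.sum_eq_single l]
    · rw [htm l l.1 (hkD l).1, hrk, if_pos rfl]
      ring
    · intro k _ hk
      rw [htm k l.1 (hkD l).1, hrk, if_neg (fun h => hk h.symm)]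
      ring
    · intro h
      exact absurd (Finset.mem_univ _) h
  have hzero : ∀ (l : κ) (a : ZMod 3), (V l.1.1 x : ZMod 3) * (ε l * a) = 0 → a = 0 := by
    intro l a h
    have h1 := (hVD l.1 (hkD l).1).1
    have h2 : (V l.1.1 x : ZMod 3) ≠ 0 := by
      intro h0
      rw [h0, mul_zero] at h1
      exact zero_ne_one h1
    rcases mul_eq_zero.1 h with h | h
    · exact absurd h h2
    · rcases mul_eq_zero.1 h with h | h
      · exact absurd h (hε l)
      · exact h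
  refine transferE (κ := κ) x S₀ S (fun k => (ρ k).1) hSsub hLCS ?_
    (fun k => (ρ k).2.1.ne_zero) hρdS ?_ ?_
  · have h1 : S.filter (fun v => ¬ LCE (uni v) x) = D.image some := by
      ext v
      rw [hfilter]
    rw [h1, Finset.card_image_of_injective _ (Option.some_injective _), hcκ]
  · apply mul_indep
    · exact fun k => (ρ k).2.1.ne_zero
    · intro k
      refine ⟨(ρ k).1, (ρ k).2.1, ?_, ?_⟩
      · rw [hVρ, if_pos rfl]
        exact one_ne_zero
      · intro l hl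
        rw [hVρ, if_neg hl]
  · intro n h
    funext l
    have h1 := h (some l.1)
    change ∑ k, n k * tm l.1.1 (ρ k).1 x = 0 at h1
    rw [hsum] at h1
    exact hzero l _ h1

end Pool.Agent.PTK

end

section

/-!
# A set of places and sufficiently many units with independent symbols, `x` not a local cube at `λ`

Hypotheses: `SPP`, `SSL`, `SREC`, `SLC`, `Stmt_LCI`, `NAUX`.
-/

set_option autoImplicit false

open NumberField IsDedekindDomain Finset
open scoped nonZeroDivisors Pointwise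

namespace Pool.Agent.PTK

open Pool.Agent.Lib_helper18 Pool.Agent.Lib_helper18.Eis Pool.Agent.Lib_helper84.Cub
open Pool.Agent.PT

namespace NG2

open Pool.Agent.PT.NGEN

theorem not_dvd_lam (hSPP : SPP) (π : PP) : ¬ π.1 ∣ lam := fun h =>
  not_three hSPP π (h.trans lam_dvd_three)

theorem not_lam_dvd (hSPP : SPP) (π : PP) : ¬ lam ∣ π.1 :=
  not_lam_dvd_of_prime π.2.1 (not_three hSPP π)

end NG2

open Pool.Agent.PT.NGEN NGN _root_.Pool.Agent.PTK.NG2 in
open Classical in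
/-- a set of places and sufficiently many units with independent symbols -/
theorem NG2_thm (hSPP : SPP) (hSSL : SSL) (hSREC : SREC) (hSLC : SLC) (hLCI : Stmt_LCI)
    (hNAUX : NAUX) : Stmt_NG2 := by
  intro x S₀ hx0 hxP hxl hV hcube hnone hS0 hS0'
  have hlam0 : lam ≠ 0 := prime_lam.ne_zero
  have hnlam : ¬ LCE lam x := fun h => hxl (hLCI.2.2 lam sl 4 x lam hSLC h hx0 hlam0)
  obtain ⟨D, hD⟩ : ∃ D : Finset PP, ∀ π : PP, π ∈ D ↔ π.1 ∣ x := by
    refine ⟨(hSPP.2.2.1 x hx0).toFinset, fun π => ?_⟩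
    rw [Set.Finite.mem_toFinset]
    rfl
  obtain ⟨π₀, hπ₀⟩ := exists_dvdE hSPP hx0 hxP hcube
  have hπ₀D : π₀ ∈ D := (hD π₀).2 hπ₀
  have hVD : ∀ π ∈ D, (V π.1 x : ZMod 3) * (V π.1 x : ZMod 3) = 1 ∧
      ¬ 3 ∣ V π.1 x := fun π hπ => V_castE π ((hD π).1 hπ) (hV π)
  let κ : Type := {k // k ∈ D.erase π₀}
  -- the vectors
  let r : κ → PP → ZMod 3 := fun k π => if π = k.1 then 1 else
    if π = π₀ then - (V k.1.1 x : ZMod 3) * (V π₀.1 x : ZMod 3) else 0
  have hkD : ∀ k : κ, k.1 ∈ D ∧ k.1 ≠ π₀ := fun k =>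
    ⟨Finset.mem_of_mem_erase k.2, Finset.ne_of_mem_erase k.2⟩
  have hr0 : ∀ k : κ, ∑ π ∈ D, (V π.1 x : ZMod 3) * r k π = 0 := by
    intro k
    obtain ⟨hk1, hk2⟩ := hkD k
    have h1 : ∑ π ∈ D, (V π.1 x : ZMod 3) * r k π =
        ∑ π ∈ ({k.1, π₀} : Finset PP), (V π.1 x : ZMod 3) * r k π := by
      symm
      apply Finset.sum_subset
      · intro π hπ
        rcases Finset.mem_insert.1 hπ with rfl | hπ
        · exact hk1
        · rw [Finset.mem_singleton.1 hπ]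
          exact hπ₀D
      · intro π _ hπ
        rw [Finset.mem_insert, Finset.mem_singleton, not_or] at hπ
        simp only [r]
        rw [if_neg hπ.1, if_neg hπ.2, mul_zero]
    have hr1 : r k k.1 = 1 := if_pos rfl
    have hr2 : r k π₀ = - (V k.1.1 x : ZMod 3) * (V π₀.1 x : ZMod 3) := by
      change (if π₀ = k.1 then (1 : ZMod 3) else
        if π₀ = π₀ then - (V k.1.1 x : ZMod 3) * (V π₀.1 x : ZMod 3) else 0) = _
      rw [if_neg hk2.symm, if_pos rfl]
    rw [h1, Finset.sum_pair hk2, hr1, hr2]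
    have h2 := (hVD π₀ hπ₀D).1
    calc (V k.1.1 x : ZMod 3) * 1 + (V π₀.1 x : ZMod 3) *
          (- (V k.1.1 x : ZMod 3) * (V π₀.1 x : ZMod 3))
        = (V k.1.1 x : ZMod 3) * (1 - (V π₀.1 x : ZMod 3) *
          (V π₀.1 x : ZMod 3)) := by ring
      _ = 0 := by rw [h2, sub_self, mul_zero]
  have hrk : ∀ k l : κ, r k l.1 = if l = k then 1 else 0 := by
    intro k l
    simp only [r]
    by_cases h : l = k
    · rw [h, if_pos rfl, if_pos rfl]
    · rw [if_neg (fun h' => h (Subtype.ext h')), if_neg (hkD l).2, if_neg h]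
  -- the auxiliary primes
  have hex : ∀ (k : κ) (A : Finset PP), ∃ ρ : PP, ρ ∉ A ∧ ∃ ε : ZMod 3, ε ≠ 0 ∧
      ∀ π ∈ D, sym ρ.1 π.1 = ε * r k π := by
    intro k A
    obtain ⟨ρ, hρ, ε, hε, h⟩ := hNAUX D.card (fun i => (D.equivFin.symm i).1)
      (fun i => r k (D.equivFin.symm i).1) A (fun i j h => by
        exact D.equivFin.symm.injective (Subtype.ext h))
    refine ⟨ρ, hρ, ε, hε, fun π hπ => ?_⟩
    have := h (D.equivFin ⟨π, hπ⟩)
    simpa using this
  let A₀ : Finset PP := (S₀.biUnion fun v => match v with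
    | none => ∅
    | some π => {π})
  have hA₀ : ∀ π : PP, π ∈ A₀ ↔ some π ∈ S₀ := by
    intro π
    simp only [A₀, Finset.mem_biUnion]
    constructor
    · rintro ⟨v, hv, hπ⟩
      cases v with
      | none => simp at hπ
      | some π' =>
        have : π = π' := by simpa using hπ
        rw [this]
        exact hv
    · intro h
      exact ⟨some π, h, by simp⟩
  obtain ⟨ρ, hρ1, hρ2⟩ := choose_distinct (κ := κ) (α := PP)
    (fun k ρ => ∃ ε : ZMod 3, ε ≠ 0 ∧ ∀ π ∈ D, sym ρ.1 π.1 = ε * r k π) A₀ hex Finset.univ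
  have hρS : ∀ k, some (ρ k) ∉ S₀ := fun k h => (hρ1 k (Finset.mem_univ _)).2 ((hA₀ _).2 h)
  have hρD : ∀ k, ρ k ∉ D := fun k h => hρS k (hS0 _ ((hD _).1 h))
  have hρinj : ∀ k l, ρ k = ρ l → k = l := fun k l h =>
    hρ2 k (Finset.mem_univ _) l (Finset.mem_univ _) h
  choose ε hε hsym using fun k => (hρ1 k (Finset.mem_univ _)).1
  have hsym' : ∀ k, ∀ π ∈ D, sym π.1 (ρ k).1 = ε k * r k π := by
    intro k π hπ
    have hne : π ≠ ρ k := fun h => hρD k (h ▸ hπ)
    rw [← recPP hSPP hSREC hne]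
    exact hsym k π hπ
  have htm : ∀ k, ∀ π ∈ D, tm π.1 (ρ k).1 x =
      (V π.1 x : ZMod 3) * (ε k * r k π) := by
    intro k π hπ
    have hne : π ≠ ρ k := fun h => hρD k (h ▸ hπ)
    rw [tm_eqE hSPP hne, hsym' k π hπ]
  have htm0 : ∀ k, ∑ π ∈ D, tm π.1 (ρ k).1 x = 0 := by
    intro k
    rw [Finset.sum_congr rfl (htm k)]
    have h1 : ∀ π ∈ D, (V π.1 x : ZMod 3) * (ε k * r k π) =
        ε k * ((V π.1 x : ZMod 3) * r k π) := fun π _ => by ring
    rw [Finset.sum_congr rfl h1, ← Finset.mul_sum, hr0 k, mul_zero]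
  have hLCρ : ∀ k, LCE (ρ k).1 x := by
    intro k
    rw [hLCI.1 (ρ k) x hx0]
    have hnd : ¬ (ρ k).1 ∣ x := fun h => hρD k ((hD _).2 h)
    refine ⟨by rw [V_eq_zero hnd]; exact dvd_zero _, ?_⟩
    rw [ch_eqE hSPP hSREC hxP D hD (ρ k) (hρD k)]
    have h1 : ∀ π ∈ D, (V π.1 x : ZMod 3) * sym π.1 (ρ k).1 =
        ε k * ((V π.1 x : ZMod 3) * r k π) := fun π hπ => by
      rw [hsym' k π hπ]
      ring
    rw [Finset.sum_congr rfl h1, ← Finset.mul_sum, hr0 k, mul_zero]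
  have hLCD : ∀ π ∈ D, ¬ LCE π.1 x := by
    intro π hπ h
    exact (hVD π hπ).2 ((hLCI.1 π x hx0).1 h).1
  -- the set of places
  let S : Finset Pl := S₀ ∪ Finset.univ.image (fun k : κ => some (ρ k))
  have hmemS : ∀ v, v ∈ S ↔ v ∈ S₀ ∨ ∃ k, some (ρ k) = v := by
    intro v
    simp [S]
  have hLCS : ∀ v ∈ S, v ∉ S₀ → LCE (uni v) x := by
    intro v hv hv0
    rcases (hmemS v).1 hv with h | ⟨k, rfl⟩
    · exact absurd h hv0
    · exact hLCρ k
  have hSsub : S₀ ⊆ S := fun v hv => (hmemS v).2 (Or.inl hv)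
  have hcκ : Fintype.card κ + 1 = D.card := by
    have h1 : Fintype.card κ = (D.erase π₀).card := Fintype.card_coe _
    rw [h1, Finset.card_erase_of_mem hπ₀D]
    have : 0 < D.card := Finset.card_pos.2 ⟨π₀, hπ₀D⟩
    omega
  have hfilter : ∀ v, v ∈ S.filter (fun v => ¬ LCE (uni v) x) ↔
      v ∈ insert none (D.image some) := by
    intro v
    rw [Finset.mem_filter, hmemS, Finset.mem_insert]
    cases v with
    | none =>
      constructor
      · intro _
        exact Or.inl rfl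
      · intro _
        exact ⟨Or.inl hnone, hnlam⟩
    | some π =>
      constructor
      · rintro ⟨h1, h2⟩
        refine Or.inr ?_
        rw [Finset.mem_image]
        rcases h1 with h1 | ⟨k, hk⟩
        · exact ⟨π, (hD π).2 (hS0' π h1 h2), rfl⟩
        · exfalso
          have : ρ k = π := by simpa using hk
          exact h2 (this ▸ hLCρ k)
      · intro h
        rcases h with h | h
        · exact absurd h (by simp)
        rw [Finset.mem_image] at h
        obtain ⟨π', hπ', he⟩ := h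
        have : π' = π := by simpa using he
        subst this
        exact ⟨Or.inl (hS0 _ ((hD _).1 hπ')), hLCD _ hπ'⟩
  have hVρ : ∀ k l, V (ρ k).1 (ρ l).1 = if l = k then 1 else 0 := by
    intro k l
    by_cases h : l = k
    · rw [h, if_pos rfl]
      exact V_self
    · rw [if_neg h]
      apply V_eq_zero
      intro hd
      exact h (hρinj _ _ (eq_of_dvd hSPP hd)).symm
  have hρdS : ∀ (k : κ) (v : Pl), uni v ∣ (ρ k).1 → v ∈ S := by
    intro k v hv
    cases v with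
    | none => exact hSsub hnone
    | some π =>
      have : π = ρ k := eq_of_dvd hSPP hv
      rw [this]
      exact (hmemS _).2 (Or.inr ⟨k, rfl⟩)
  -- independence, first part
  have hsum : ∀ (n : κ → ZMod 3) (l : κ), ∑ k, n k * tm l.1.1 (ρ k).1 x =
      (V l.1.1 x : ZMod 3) * (ε l * n l) := by
    intro n l
    rw [Finset.sum_eq_single l]
    · rw [htm l l.1 (hkD l).1, hrk, if_pos rfl]
      ring
    · intro k _ hk
      rw [htm k l.1 (hkD l).1, hrk, if_neg (fun h => hk h.symm)]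
      ring
    · intro h
      exact absurd (Finset.mem_univ _) h
  have hzero : ∀ (l : κ) (a : ZMod 3), (V l.1.1 x : ZMod 3) * (ε l * a) = 0 → a = 0 := by
    intro l a h
    have h1 := (hVD l.1 (hkD l).1).1
    have h2 : (V l.1.1 x : ZMod 3) ≠ 0 := by
      intro h0
      rw [h0, mul_zero] at h1
      exact zero_ne_one h1
    rcases mul_eq_zero.1 h with h | h
    · exact absurd h h2
    · rcases mul_eq_zero.1 h with h | h
      · exact absurd h (hε l)
      · exact h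
  -- the symbols of `λ`
  have hlamsum : ∑ π ∈ D, tm π.1 lam x = sl x lam := by
    have h1 := sl_eq (a := lam) (b := x) D (fun π h => by
      rcases h with h | h
      · exact absurd h (not_dvd_lam hSPP π)
      · exact (hD π).2 h)
    have h2 := hSSL.2.1 x lam hx0 hlam0
    rw [h1] at h2
    exact neg_injective h2
  let d : Option κ → Eis := fun o => match o with
    | none => lam
    | some k => (ρ k).1
  have hd0 : ∀ o, d o ≠ 0 := by
    intro o
    cases o with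
    | none => exact hlam0
    | some k => exact (ρ k).2.1.ne_zero
  refine transferE (κ := Option κ) x S₀ S d hSsub hLCS ?_ hd0 ?_ ?_ ?_
  · have h1 : S.filter (fun v => ¬ LCE (uni v) x) = insert none (D.image some) := by
      ext v
      rw [hfilter]
    rw [h1, Finset.card_insert_of_notMem (by simp),
      Finset.card_image_of_injective _ (Option.some_injective _), Fintype.card_option, hcκ]
  · intro o v hv
    cases o with
    | none =>
      cases v with
      | none => exact hSsub hnone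
      | some π => exact absurd hv (not_dvd_lam hSPP π)
    | some k => exact hρdS k v hv
  · apply mul_indep
    · exact hd0
    · intro o
      cases o with
      | none =>
        refine ⟨lam, prime_lam, ?_, ?_⟩
        · change V lam lam ≠ 0
          rw [V_self]
          exact one_ne_zero
        · intro o' ho'
          cases o' with
          | none => exact absurd rfl ho'
          | some k => exact V_eq_zero (not_lam_dvd hSPP (ρ k))
      | some k =>
        refine ⟨(ρ k).1, (ρ k).2.1, ?_, ?_⟩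
        · change V (ρ k).1 (ρ k).1 ≠ 0
          rw [hVρ, if_pos rfl]
          exact one_ne_zero
        · intro o' ho'
          cases o' with
          | none => exact V_eq_zero (not_dvd_lam hSPP (ρ k))
          | some l =>
            change V (ρ k).1 (ρ l).1 = 0
            rw [hVρ, if_neg (fun h => ho' (by rw [h]))]
  · intro n h
    have h1 : ∀ π : PP, n none * tm π.1 lam x + ∑ k, n (some k) * tm π.1 (ρ k).1 x = 0 := by
      intro π
      have h2 := h (some π)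
      rw [Fintype.sum_option] at h2
      exact h2
    have hn0 : n none = 0 := by
      have h2 : ∑ π ∈ D, (n none * tm π.1 lam x + ∑ k, n (some k) * tm π.1 (ρ k).1 x) = 0 :=
        Finset.sum_eq_zero fun π _ => h1 π
      rw [Finset.sum_add_distrib, ← Finset.mul_sum, hlamsum, Finset.sum_comm] at h2
      have h3 : ∑ k, ∑ π ∈ D, n (some k) * tm π.1 (ρ k).1 x = 0 := by
        apply Finset.sum_eq_zero
        intro k _
        rw [← Finset.mul_sum, htm0 k, mul_zero]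
      rw [h3, add_zero] at h2
      rcases mul_eq_zero.1 h2 with h4 | h4
      · exact h4
      · exact absurd h4 hxl
    funext o
    cases o with
    | none => exact hn0
    | some l =>
      have h2 := h1 l.1
      rw [hn0, zero_mul, zero_add, hsum (fun k => n (some k)) l] at h2
      exact hzero l _ h2

end Pool.Agent.PTK

end
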