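import Mathlib

/-! Parts: PTKX.KNI -/

section

/-!
# The polynomial identity for KN1
-/

set_option autoImplicit false
set_option maxRecDepth 100000

namespace Pool.Agent.PTK

theorem KN_k4 {R : Type} [CommRing R] (w a₁ a₂ s δ : R) (hw : w ^ 2 + w + 1 = 0)
    (hs : s ^ 3 = -(a₁ + a₂) * a₁ * a₂ + δ) :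
    -3*a₂*(-((1+w)*(a₁+a₂)*a₁ + w*a₁*s - (1+w)*s^2)^3) + (-3*(a₁+a₂)*a₁^2*(-w*a₂ - w*s - a₁ - a₂ - 2*s))*(-((1+w)*a₂+s)^3) - (-3*(a₁+a₂)*a₁^2*a₂*(2*w*a₁^2 + 2*w*a₁*a₂ + 6*w*a₁*s - w*a₂^2 + 3*w*s^2 + a₁^2 - 2*a₁*a₂ - 2*a₂^2 - 6*a₂*s - 3*s^2))*((a₂+s)) = δ*(6*w*a₁^3*a₂ - 3*w*a₁^3*s + 6*w*a₁^2*a₂^2 + 6*w*a₁^2*a₂*s - 9*w*a₁*a₂*s^2 - 3*a₁^4 - 3*a₁^3*a₂ - 6*a₁^3*s - 6*a₁^2*a₂^2 - 15*a₁^2*a₂*s - 3*a₁*a₂^3 - 9*a₁*a₂^2*s - 9*a₁*a₂*s^2 + 3*a₂*s^3) := by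
  linear_combination (6*w*a₁^3*a₂ - 3*w*a₁^3*s + 6*w*a₁^2*a₂^2 + 6*w*a₁^2*a₂*s - 9*w*a₁*a₂*s^2 - 3*a₁^4 - 3*a₁^3*a₂ - 6*a₁^3*s - 6*a₁^2*a₂^2 - 15*a₁^2*a₂*s - 3*a₁*a₂^3 - 9*a₁*a₂^2*s - 9*a₁*a₂*s^2 + 3*a₂*s^3) * hs + (-3*w^2*a₁^3*a₂^4 - 3*w^2*a₁^3*a₂^3*s - 3*w^2*a₁^2*a₂^5 - 3*w^2*a₁^2*a₂^4*s + 3*w*a₁^6*a₂ + 9*w*a₁^5*a₂^2 + 9*w*a₁^5*a₂*s + 6*w*a₁^4*a₂^3 + 18*w*a₁^4*a₂^2*s - 9*w*a₁^3*a₂^4 - 12*w*a₁^3*a₂^3*s - 18*w*a₁^3*a₂^2*s^2 - 15*w*a₁^3*a₂*s^3 - 9*w*a₁^2*a₂^5 - 21*w*a₁^2*a₂^4*s - 18*w*a₁^2*a₂^3*s^2 - 18*w*a₁^2*a₂^2*s^3 + 9*w*a₁*a₂^2*s^4 + 9*w*a₁*a₂*s^5 - 3*w*a₂*s^6 + 6*a₁^6*a₂ + 18*a₁^5*a₂^2 + 9*a₁^5*a₂*s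 + 12*a₁^4*a₂^3 + 9*a₁^4*a₂^2*s - 18*a₁^4*a₂*s^2 - 6*a₁^3*a₂^4 - 30*a₁^3*a₂^3*s - 72*a₁^3*a₂^2*s^2 - 30*a₁^3*a₂*s^3 - 6*a₁^2*a₂^5 - 30*a₁^2*a₂^4*s - 54*a₁^2*a₂^3*s^2 - 27*a₁^2*a₂^2*s^3 + 18*a₁^2*a₂*s^4 + 18*a₁*a₂^2*s^4 + 9*a₁*a₂*s^5 - 6*a₂*s^6) * hw

theorem KN_k3 {R : Type} [CommRing R] (w a₁ a₂ s δ : R) (hw : w ^ 2 + w + 1 = 0)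
    (hs : s ^ 3 = -(a₁ + a₂) * a₁ * a₂ + δ) :
    -3*a₂*(3*(a₁*((1+w)*(a₁+a₂)*a₂ - (1+w)*s^2 + a₂*s))*((1+w)*(a₁+a₂)*a₁ + w*a₁*s - (1+w)*s^2)^2 + w*a₂*((1+w)*(a₁+a₂)*a₁ + w*a₁*s - (1+w)*s^2)^3) + (-3*(a₁+a₂)*a₁^2*(-w*a₂ - w*s - a₁ - a₂ - 2*s))*(3*(a₂*(a₁+(1+w)*s))*((1+w)*a₂+s)^2 - (1+w)*a₂*((1+w)*a₂+s)^3) - (-3*(a₁+a₂)*a₁^2*a₂*(2*w*a₁^2 + 2*w*a₁*a₂ + 6*w*a₁*s - w*a₂^2 + 3*w*s^2 + a₁^2 - 2*a₁*a₂ - 2*a₂^2 - 6*a₂*s - 3*s^2))*(-a₂*(a₁+s)) = δ*(-3*w*a₁^4*a₂ + 9*w*a₁^3*a₂^2 + 3*w*a₁^3*a₂*s + 9*w*a₁^2*a₂^3 + 30*w*a₁^2*a₂^2*s + 18*w*a₁^2*a₂*s^2 + 3*w*a₁*a₂^4 + 9*w*a₁*a₂^3*s - 9*w*a₁*a₂^2*s^2 - 3*w*a₂^2*s^3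 + 6*a₁^4*a₂ + 24*a₁^3*a₂^2 + 24*a₁^3*a₂*s + 9*a₁^2*a₂^3 + 24*a₁^2*a₂^2*s + 18*a₁^2*a₂*s^2 + 9*a₁*a₂^3*s - 9*a₁*a₂^2*s^2 - 9*a₁*a₂*s^3) := by
  linear_combination (-3*w*a₁^4*a₂ + 9*w*a₁^3*a₂^2 + 3*w*a₁^3*a₂*s + 9*w*a₁^2*a₂^3 + 30*w*a₁^2*a₂^2*s + 18*w*a₁^2*a₂*s^2 + 3*w*a₁*a₂^4 + 9*w*a₁*a₂^3*s - 9*w*a₁*a₂^2*s^2 - 3*w*a₂^2*s^3 + 6*a₁^4*a₂ + 24*a₁^3*a₂^2 + 24*a₁^3*a₂*s + 9*a₁^2*a₂^3 + 24*a₁^2*a₂^2*s + 18*a₁^2*a₂*s^2 + 9*a₁*a₂^3*s - 9*a₁*a₂^2*s^2 - 9*a₁*a₂*s^3) * hs + (-3*w^3*a₁^3*a₂^5 - 3*w^3*a₁^3*a₂^4*s - 3*w^3*a₁^2*a₂^6 - 3*w^3*a₁^2*a₂^5*s - 3*w^2*a₁^6*a₂^2 - 9*w^2*a₁^5*a₂^3 - 9*w^2*a₁^5*a₂^2*s - 12*w^2*a₁^4*a₂^4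 - 18*w^2*a₁^4*a₂^3*s - 18*w^2*a₁^3*a₂^5 - 24*w^2*a₁^3*a₂^4*s + 9*w^2*a₁^3*a₂^3*s^2 + 15*w^2*a₁^3*a₂^2*s^3 - 12*w^2*a₁^2*a₂^6 - 15*w^2*a₁^2*a₂^5*s + 9*w^2*a₁^2*a₂^4*s^2 + 18*w^2*a₁^2*a₂^3*s^3 - 9*w^2*a₁*a₂^3*s^4 - 9*w^2*a₁*a₂^2*s^5 + 3*w^2*a₂^2*s^6 - 15*w*a₁^6*a₂^2 - 45*w*a₁^5*a₂^3 - 27*w*a₁^5*a₂^2*s + 9*w*a₁^5*a₂*s^2 - 45*w*a₁^4*a₂^4 - 45*w*a₁^4*a₂^3*s + 45*w*a₁^4*a₂^2*s^2 + 18*w*a₁^4*a₂*s^3 - 30*w*a₁^3*a₂^5 - 42*w*a₁^3*a₂^4*s + 81*w*a₁^3*a₂^3*s^2 + 66*w*a₁^3*a₂^2*s^3 - 9*w*a₁^3*a₂*s^4 - 15*w*a₁^2*a₂^6 - 24*w*a₁^2*a₂^5*s + 45*w*a₁^2*a₂^4*s^2 + 45*w*a₁^2*a₂^3*s^3 - 45*w*a₁^2*a₂^2*s^4 - 18*w*a₁^2*a₂*s^5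 - 27*w*a₁*a₂^3*s^4 - 9*w*a₁*a₂^2*s^5 + 9*w*a₁*a₂*s^6 + 6*w*a₂^2*s^6 - 18*a₁^6*a₂^2 - 45*a₁^5*a₂^3 - 18*a₁^5*a₂^2*s + 18*a₁^5*a₂*s^2 - 33*a₁^4*a₂^4 + 9*a₁^4*a₂^3*s + 90*a₁^4*a₂^2*s^2 + 18*a₁^4*a₂*s^3 - 9*a₁^3*a₂^5 + 18*a₁^3*a₂^4*s + 126*a₁^3*a₂^3*s^2 + 60*a₁^3*a₂^2*s^3 - 30*a₁^3*a₂*s^4 - 3*a₁^2*a₂^6 - 9*a₁^2*a₂^5*s + 54*a₁^2*a₂^4*s^2 + 51*a₁^2*a₂^3*s^3 - 39*a₁^2*a₂^2*s^4 - 18*a₁^2*a₂*s^5 - 18*a₁*a₂^3*s^4 + 18*a₁*a₂*s^6) * hw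

theorem KN_k2 {R : Type} [CommRing R] (w a₁ a₂ s δ : R) (hw : w ^ 2 + w + 1 = 0)
    (hs : s ^ 3 = -(a₁ + a₂) * a₁ * a₂ + δ) :
    -3*a₂*(-3*(a₁*((1+w)*(a₁+a₂)*a₂ - (1+w)*s^2 + a₂*s))^2*((1+w)*(a₁+a₂)*a₁ + w*a₁*s - (1+w)*s^2) - 3*w*a₂*(a₁*((1+w)*(a₁+a₂)*a₂ - (1+w)*s^2 + a₂*s))*((1+w)*(a₁+a₂)*a₁ + w*a₁*s - (1+w)*s^2)^2) + (-3*(a₁+a₂)*a₁^2*(-w*a₂ - w*s - a₁ - a₂ - 2*s))*(-3*(a₂*(a₁+(1+w)*s))^2*((1+w)*a₂+s) + 3*(1+w)*a₂*(a₂*(a₁+(1+w)*s))*((1+w)*a₂+s)^2) - (-3*(a₁+a₂)*a₁^2*a₂*(2*w*a₁^2 + 2*w*a₁*a₂ + 6*w*a₁*s - w*a₂^2 + 3*w*s^2 + a₁^2 - 2*a₁*a₂ - 2*a₂^2 - 6*a₂*s - 3*s^2))*(0) = δ*(-18*w*a₁^4*a₂^2 -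 27*w*a₁^3*a₂^3 - 27*w*a₁^3*a₂^2*s - 9*w*a₁^3*a₂*s^2 - 18*w*a₁^2*a₂^4 - 18*w*a₁^2*a₂^3*s + 18*w*a₁^2*a₂^2*s^2 - 9*w*a₁*a₂^4*s - 9*w*a₁*a₂^3*s^2 + 9*w*a₁*a₂^2*s^3 - 18*a₁^4*a₂^2 - 9*a₁^4*a₂*s - 27*a₁^3*a₂^3 - 18*a₁^3*a₂^2*s - 9*a₁^3*a₂*s^2 - 18*a₁^2*a₂^4 - 27*a₁^2*a₂^3*s + 18*a₁^2*a₂^2*s^2 + 9*a₁^2*a₂*s^3 - 9*a₁*a₂^3*s^2) := by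
  linear_combination (-18*w*a₁^4*a₂^2 - 27*w*a₁^3*a₂^3 - 27*w*a₁^3*a₂^2*s - 9*w*a₁^3*a₂*s^2 - 18*w*a₁^2*a₂^4 - 18*w*a₁^2*a₂^3*s + 18*w*a₁^2*a₂^2*s^2 - 9*w*a₁*a₂^4*s - 9*w*a₁*a₂^3*s^2 + 9*w*a₁*a₂^2*s^3 - 18*a₁^4*a₂^2 - 9*a₁^4*a₂*s - 27*a₁^3*a₂^3 - 18*a₁^3*a₂^2*s - 9*a₁^3*a₂*s^2 - 18*a₁^2*a₂^4 - 27*a₁^2*a₂^3*s + 18*a₁^2*a₂^2*s^2 + 9*a₁^2*a₂*s^3 - 9*a₁*a₂^3*s^2) * hs + (9*w^3*a₁^3*a₂^5*s + 9*w^3*a₁^3*a₂^4*s^2 + 9*w^3*a₁^2*a₂^6*s + 9*w^3*a₁^2*a₂^5*s^2 + 9*w^2*a₁^6*a₂^3 + 27*w^2*a₁^5*a₂^4 + 18*w^2*a₁^5*a₂^3*s - 9*w^2*a₁^5*a₂^2*s^2 + 36*w^2*a₁^4*a₂^5 + 54*w^2*a₁^4*a₂^4*s - 27*w^2*a₁^4*a₂^3*s^2 - 18*w^2*a₁^4*a₂^2*s^3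 + 18*w^2*a₁^3*a₂^6 + 72*w^2*a₁^3*a₂^5*s + 18*w^2*a₁^3*a₂^4*s^2 - 27*w^2*a₁^3*a₂^3*s^3 + 9*w^2*a₁^3*a₂^2*s^4 + 36*w^2*a₁^2*a₂^6*s + 36*w^2*a₁^2*a₂^5*s^2 - 9*w^2*a₁^2*a₂^4*s^3 + 27*w^2*a₁^2*a₂^3*s^4 + 18*w^2*a₁^2*a₂^2*s^5 + 9*w^2*a₁*a₂^4*s^4 - 9*w^2*a₁*a₂^2*s^6 + 27*w*a₁^6*a₂^3 + 90*w*a₁^5*a₂^4 + 36*w*a₁^5*a₂^3*s - 36*w*a₁^5*a₂^2*s^2 + 117*w*a₁^4*a₂^5 + 135*w*a₁^4*a₂^4*s - 90*w*a₁^4*a₂^3*s^2 - 36*w*a₁^4*a₂^2*s^3 + 9*w*a₁^4*a₂*s^4 + 54*w*a₁^3*a₂^6 + 144*w*a₁^3*a₂^5*s - 27*w*a₁^3*a₂^3*s^3 + 63*w*a₁^3*a₂^2*s^4 + 9*w*a₁^3*a₂*s^5 + 45*w*a₁^2*a₂^6*s + 54*w*a₁^2*a₂^5*s^2 + 54*w*a₁^2*a₂^3*s^4 + 18*w*a₁^2*a₂^2*s^5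 - 9*w*a₁^2*a₂*s^6 + 18*w*a₁*a₂^4*s^4 + 9*w*a₁*a₂^3*s^5 - 18*w*a₁*a₂^2*s^6 + 18*a₁^6*a₂^3 + 63*a₁^5*a₂^4 + 9*a₁^5*a₂^3*s - 36*a₁^5*a₂^2*s^2 + 81*a₁^4*a₂^5 + 81*a₁^4*a₂^4*s - 72*a₁^4*a₂^3*s^2 - 27*a₁^4*a₂^2*s^3 + 18*a₁^4*a₂*s^4 + 36*a₁^3*a₂^6 + 81*a₁^3*a₂^5*s - 9*a₁^3*a₂^4*s^2 - 18*a₁^3*a₂^3*s^3 + 45*a₁^3*a₂^2*s^4 + 9*a₁^3*a₂*s^5 + 9*a₁^2*a₂^6*s + 27*a₁^2*a₂^5*s^2 + 18*a₁^2*a₂^4*s^3 + 36*a₁^2*a₂^3*s^4 - 18*a₁^2*a₂*s^6 + 9*a₁*a₂^3*s^5) * hw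

theorem KN_k1 {R : Type} [CommRing R] (w a₁ a₂ s δ : R) (hw : w ^ 2 + w + 1 = 0)
    (hs : s ^ 3 = -(a₁ + a₂) * a₁ * a₂ + δ) :
    -3*a₂*((a₁*((1+w)*(a₁+a₂)*a₂ - (1+w)*s^2 + a₂*s))^3 + 3*w*a₂*(a₁*((1+w)*(a₁+a₂)*a₂ - (1+w)*s^2 + a₂*s))^2*((1+w)*(a₁+a₂)*a₁ + w*a₁*s - (1+w)*s^2)) + (-3*(a₁+a₂)*a₁^2*(-w*a₂ - w*s - a₁ - a₂ - 2*s))*((a₂*(a₁+(1+w)*s))^3 - 3*(1+w)*a₂*(a₂*(a₁+(1+w)*s))^2*((1+w)*a₂+s)) - (-3*(a₁+a₂)*a₁^2*a₂*(2*w*a₁^2 + 2*w*a₁*a₂ + 6*w*a₁*s - w*a₂^2 + 3*w*s^2 + a₁^2 - 2*a₁*a₂ - 2*a₂^2 - 6*a₂*s - 3*s^2))*(a₁*a₂^2*(a₂+s)) = δ*(9*w*a₁^4*a₂^3 + 9*w*a₁^4*a₂^2*s + 24*w*a₁^3*a₂^4 + 24*w*a₁^3*a₂^3*s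 - 9*w*a₁^3*a₂^2*s^2 + 6*w*a₁^2*a₂^5 + 24*w*a₁^2*a₂^4*s + 18*w*a₁^2*a₂^3*s^2 - 9*w*a₁^2*a₂^2*s^3 + 3*a₁^5*a₂^2 + 9*a₁^4*a₂^3 + 9*a₁^4*a₂^2*s + 9*a₁^3*a₂^4 + 30*a₁^3*a₂^3*s - 9*a₁^3*a₂^2*s^2 - 3*a₁^3*a₂*s^3 - 3*a₁^2*a₂^5 + 3*a₁^2*a₂^4*s + 18*a₁^2*a₂^3*s^2) := by
  linear_combination (9*w*a₁^4*a₂^3 + 9*w*a₁^4*a₂^2*s + 24*w*a₁^3*a₂^4 + 24*w*a₁^3*a₂^3*s - 9*w*a₁^3*a₂^2*s^2 + 6*w*a₁^2*a₂^5 + 24*w*a₁^2*a₂^4*s + 18*w*a₁^2*a₂^3*s^2 - 9*w*a₁^2*a₂^2*s^3 + 3*a₁^5*a₂^2 + 9*a₁^4*a₂^3 + 9*a₁^4*a₂^2*s + 9*a₁^3*a₂^4 + 30*a₁^3*a₂^3*s - 9*a₁^3*a₂^2*s^2 - 3*a₁^3*a₂*s^3 - 3*a₁^2*a₂^5 + 3*a₁^2*a₂^4*s + 18*a₁^2*a₂^3*s^2)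 * hs + (-9*w^3*a₁^3*a₂^5*s^2 - 9*w^3*a₁^3*a₂^4*s^3 - 9*w^3*a₁^2*a₂^6*s^2 - 9*w^3*a₁^2*a₂^5*s^3 - 9*w^2*a₁^6*a₂^4 - 27*w^2*a₁^5*a₂^5 - 9*w^2*a₁^5*a₂^4*s + 18*w^2*a₁^5*a₂^3*s^2 - 27*w^2*a₁^4*a₂^6 - 36*w^2*a₁^4*a₂^5*s + 18*w^2*a₁^4*a₂^4*s^2 + 18*w^2*a₁^4*a₂^3*s^3 - 9*w^2*a₁^4*a₂^2*s^4 - 9*w^2*a₁^3*a₂^7 - 27*w^2*a₁^3*a₂^6*s - 27*w^2*a₁^3*a₂^5*s^2 - 33*w^2*a₁^3*a₂^4*s^3 - 33*w^2*a₁^3*a₂^3*s^4 - 9*w^2*a₁^3*a₂^2*s^5 - 27*w^2*a₁^2*a₂^6*s^2 - 51*w^2*a₁^2*a₂^5*s^3 - 24*w^2*a₁^2*a₂^4*s^4 + 9*w^2*a₁^2*a₂^2*s^6 - 21*w*a₁^6*a₂^4 - 72*w*a₁^5*a₂^5 - 54*w*a₁^5*a₂^4*s + 45*w*a₁^5*a₂^3*s^2 - 72*w*a₁^4*a₂^6 - 135*w*a₁^4*a₂^5*s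 - 18*w*a₁^4*a₂^4*s^2 + 21*w*a₁^4*a₂^3*s^3 - 27*w*a₁^4*a₂^2*s^4 - 21*w*a₁^3*a₂^7 - 81*w*a₁^3*a₂^6*s - 90*w*a₁^3*a₂^5*s^2 - 51*w*a₁^3*a₂^4*s^3 - 69*w*a₁^3*a₂^3*s^4 - 9*w*a₁^3*a₂^2*s^5 + 3*w*a₁^3*a₂*s^6 - 27*w*a₁^2*a₂^6*s^2 - 72*w*a₁^2*a₂^5*s^3 - 60*w*a₁^2*a₂^4*s^4 - 18*w*a₁^2*a₂^3*s^5 + 18*w*a₁^2*a₂^2*s^6 - 15*a₁^6*a₂^4 - 45*a₁^5*a₂^5 - 81*a₁^5*a₂^4*s + 9*a₁^5*a₂^3*s^2 - 36*a₁^4*a₂^6 - 135*a₁^4*a₂^5*s - 90*a₁^4*a₂^4*s^2 - 21*a₁^4*a₂^3*s^3 - 18*a₁^4*a₂^2*s^4 - 6*a₁^3*a₂^7 - 54*a₁^3*a₂^6*s - 108*a₁^3*a₂^5*s^2 - 51*a₁^3*a₂^4*s^3 - 42*a₁^3*a₂^3*s^4 + 6*a₁^3*a₂*s^6 - 9*a₁^2*a₂^6*s^2 - 21*a₁^2*a₂^5*s^3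 - 15*a₁^2*a₂^4*s^4 - 18*a₁^2*a₂^3*s^5) * hw

theorem KN_k0 {R : Type} [CommRing R] (w a₁ a₂ s δ : R) (hw : w ^ 2 + w + 1 = 0)
    (hs : s ^ 3 = -(a₁ + a₂) * a₁ * a₂ + δ) :
    -3*a₂*(-w*a₂*(a₁*((1+w)*(a₁+a₂)*a₂ - (1+w)*s^2 + a₂*s))^3) + (-3*(a₁+a₂)*a₁^2*(-w*a₂ - w*s - a₁ - a₂ - 2*s))*((1+w)*a₂*(a₂*(a₁+(1+w)*s))^3) - (-3*(a₁+a₂)*a₁^2*a₂*(2*w*a₁^2 + 2*w*a₁*a₂ + 6*w*a₁*s - w*a₂^2 + 3*w*s^2 + a₁^2 - 2*a₁*a₂ - 2*a₂^2 - 6*a₂*s - 3*s^2))*(-a₁*a₂^3*(a₁+s)) = δ*(-3*w*a₁^5*a₂^3 - 6*w*a₁^4*a₂^4 - 9*w*a₁^4*a₂^3*s - 3*w*a₁^3*a₂^5 - 15*w*a₁^3*a₂^4*s - 9*w*a₁^3*a₂^3*s^2 + 3*w*a₁^3*a₂^2*s^3 - 3*w*a₁^2*a₂^6 - 6*w*a₁^2*a₂^5*s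 + 6*a₁^4*a₂^4 + 6*a₁^3*a₂^5 + 6*a₁^3*a₂^4*s - 9*a₁^3*a₂^3*s^2 - 3*a₁^2*a₂^5*s) := by
  linear_combination (-3*w*a₁^5*a₂^3 - 6*w*a₁^4*a₂^4 - 9*w*a₁^4*a₂^3*s - 3*w*a₁^3*a₂^5 - 15*w*a₁^3*a₂^4*s - 9*w*a₁^3*a₂^3*s^2 + 3*w*a₁^3*a₂^2*s^3 - 3*w*a₁^2*a₂^6 - 6*w*a₁^2*a₂^5*s + 6*a₁^4*a₂^4 + 6*a₁^3*a₂^5 + 6*a₁^3*a₂^4*s - 9*a₁^3*a₂^3*s^2 - 3*a₁^2*a₂^5*s) * hs + (3*w^3*a₁^3*a₂^5*s^3 + 3*w^3*a₁^3*a₂^4*s^4 + 3*w^3*a₁^2*a₂^6*s^3 + 3*w^3*a₁^2*a₂^5*s^4 + 3*w^2*a₁^6*a₂^5 + 9*w^2*a₁^5*a₂^6 - 9*w^2*a₁^5*a₂^4*s^2 + 9*w^2*a₁^4*a₂^7 - 9*w^2*a₁^4*a₂^5*s^2 + 12*w^2*a₁^4*a₂^4*s^3 + 9*w^2*a₁^4*a₂^3*s^4 + 3*w^2*a₁^3*a₂^8 + 24*w^2*a₁^3*a₂^5*s^3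 + 24*w^2*a₁^3*a₂^4*s^4 - 3*w^2*a₁^3*a₂^2*s^6 + 12*w^2*a₁^2*a₂^6*s^3 + 15*w^2*a₁^2*a₂^5*s^4 + 6*w*a₁^6*a₂^5 + 18*w*a₁^5*a₂^6 + 18*w*a₁^5*a₂^5*s + 18*w*a₁^4*a₂^7 + 27*w*a₁^4*a₂^6*s + 9*w*a₁^4*a₂^5*s^2 + 27*w*a₁^4*a₂^4*s^3 + 18*w*a₁^4*a₂^3*s^4 + 6*w*a₁^3*a₂^8 + 9*w*a₁^3*a₂^7*s + 9*w*a₁^3*a₂^6*s^2 + 42*w*a₁^3*a₂^5*s^3 + 42*w*a₁^3*a₂^4*s^4 + 9*w*a₁^3*a₂^3*s^5 - 6*w*a₁^3*a₂^2*s^6 + 15*w*a₁^2*a₂^6*s^3 + 24*w*a₁^2*a₂^5*s^4 + 3*a₁^6*a₂^5 + 12*a₁^6*a₂^4*s + 3*a₁^5*a₂^6 + 39*a₁^5*a₂^5*s + 45*a₁^5*a₂^4*s^2 + 36*a₁^4*a₂^6*s + 72*a₁^4*a₂^5*s^2 + 24*a₁^4*a₂^4*s^3 + 9*a₁^3*a₂^7*s + 27*a₁^3*a₂^6*s^2 + 27*a₁^3*a₂^5*s^3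 + 9*a₁^3*a₂^3*s^5 + 3*a₁^2*a₂^6*s^3 + 9*a₁^2*a₂^5*s^4) * hw

theorem KN_asm {R : Type} [CommRing R] (w a₁ a₂ s P Q δ X Y Z T K M G4 G3 G2 G1 G0 : R)
    (h4 : -3*a₂*(-Y^3) + K*(-T^3) - M*((a₂+s)) = δ*G4)
    (h3 : -3*a₂*(3*X*Y^2 + w*a₂*Y^3) + K*(3*Z*T^2 - (1+w)*a₂*T^3) - M*(-a₂*(a₁+s)) = δ*G3)
    (h2 : -3*a₂*(-3*X^2*Y - 3*w*a₂*X*Y^2) + K*(-3*Z^2*T + 3*(1+w)*a₂*Z*T^2) - M*(0) = δ*G2)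
    (h1 : -3*a₂*(X^3 + 3*w*a₂*X^2*Y) + K*(Z^3 - 3*(1+w)*a₂*Z^2*T) - M*(a₁*a₂^2*(a₂+s)) = δ*G1)
    (h0 : -3*a₂*(-w*a₂*X^3) + K*((1+w)*a₂*Z^3) - M*(-a₁*a₂^3*(a₁+s)) = δ*G0) :
    -3*a₂*(P - w*a₂*Q)*(X*Q - Y*P)^3 + K*(P + (1+w)*a₂*Q)*(Z*Q - T*P)^3
      = (P^3 + a₁*a₂^2*Q^3)*M*((a₂+s)*P - a₂*(a₁+s)*Q)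
        + δ*(G4*P^4 + G3*P^3*Q + G2*P^2*Q^2 + G1*P*Q^3 + G0*Q^4) := by
  linear_combination P^4*h4 + P^3*Q*h3 + P^2*Q^2*h2 + P*Q^3*h1 + Q^4*h0

theorem KN_id {R : Type} [CommRing R] (w a₁ a₂ s P Q δ : R) (hw : w ^ 2 + w + 1 = 0)
    (hs : s ^ 3 = -(a₁ + a₂) * a₁ * a₂ + δ) :
    -3 * a₂ * (P - w * a₂ * Q) *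
        (a₁ * (w ^ 2 * -(a₁ + a₂) * a₂ + w ^ 2 * s ^ 2 + a₂ * s) * Q -
          w ^ 2 * (-(a₁ + a₂) * a₁ + w ^ 2 * a₁ * s + s ^ 2) * P) ^ 3 -
      w ^ 2 * (1 - w) * (w - w ^ 2) * ((w - w ^ 2) * s - w ^ 2 * a₁ + w * a₂) * -(a₁ + a₂) *
        a₁ ^ 2 * (P - w ^ 2 * a₂ * Q) * (a₂ * (a₁ - w ^ 2 * s) * Q + (a₂ - w * s) * w ^ 2 * P) ^ 3 =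
    (P ^ 3 + a₁ * a₂ ^ 2 * Q ^ 3) * (3 * (1 - w) * -(a₁ + a₂) * a₁ ^ 2 * a₂) *
        ((w - w ^ 2) * s - w ^ 2 * a₁ + w * a₂) ^ 2 * ((a₂ + s) * P - a₂ * (a₁ + s) * Q) +
      δ * (- 3*w*a₁^5*a₂^3*Q^4 - 6*w*a₁^4*a₂^4*Q^4 - 9*w*a₁^4*a₂^3*s*Q^4 + 9*w*a₁^4*a₂^3*P*Q^3 + 9*w*a₁^4*a₂^2*s*P*Q^3 - 18*w*a₁^4*a₂^2*P^2*Q^2 - 3*w*a₁^4*a₂*P^3*Q - 3*w*a₁^3*a₂^5*Q^4 - 15*w*a₁^3*a₂^4*s*Q^4 + 24*w*a₁^3*a₂^4*P*Q^3 - 9*w*a₁^3*a₂^3*s^2*Q^4 + 24*w*a₁^3*a₂^3*s*P*Q^3 - 27*w*a₁^3*a₂^3*P^2*Q^2 + 3*w*a₁^3*a₂^2*s^3*Q^4 - 9*w*a₁^3*a₂^2*s^2*P*Q^3 - 27*w*a₁^3*a₂^2*s*P^2*Q^2 + 9*w*a₁^3*a₂^2*P^3*Q - 9*w*a₁^3*a₂*s^2*P^2*Q^2 + 3*w*a₁^3*a₂*s*P^3*Q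 + 6*w*a₁^3*a₂*P^4 - 3*w*a₁^3*s*P^4 - 3*w*a₁^2*a₂^6*Q^4 - 6*w*a₁^2*a₂^5*s*Q^4 + 6*w*a₁^2*a₂^5*P*Q^3 + 24*w*a₁^2*a₂^4*s*P*Q^3 - 18*w*a₁^2*a₂^4*P^2*Q^2 + 18*w*a₁^2*a₂^3*s^2*P*Q^3 - 18*w*a₁^2*a₂^3*s*P^2*Q^2 + 9*w*a₁^2*a₂^3*P^3*Q - 9*w*a₁^2*a₂^2*s^3*P*Q^3 + 18*w*a₁^2*a₂^2*s^2*P^2*Q^2 + 30*w*a₁^2*a₂^2*s*P^3*Q + 6*w*a₁^2*a₂^2*P^4 + 18*w*a₁^2*a₂*s^2*P^3*Q + 6*w*a₁^2*a₂*s*P^4 - 9*w*a₁*a₂^4*s*P^2*Q^2 + 3*w*a₁*a₂^4*P^3*Q - 9*w*a₁*a₂^3*s^2*P^2*Q^2 + 9*w*a₁*a₂^3*s*P^3*Q + 9*w*a₁*a₂^2*s^3*P^2*Q^2 - 9*w*a₁*a₂^2*s^2*P^3*Q - 9*w*a₁*a₂*s^2*P^4 - 3*w*a₂^2*s^3*P^3*Q + 3*a₁^5*a₂^2*P*Q^3 + 6*a₁^4*a₂^4*Q^4 + 9*a₁^4*a₂^3*P*Q^3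 + 9*a₁^4*a₂^2*s*P*Q^3 - 18*a₁^4*a₂^2*P^2*Q^2 - 9*a₁^4*a₂*s*P^2*Q^2 + 6*a₁^4*a₂*P^3*Q - 3*a₁^4*P^4 + 6*a₁^3*a₂^5*Q^4 + 6*a₁^3*a₂^4*s*Q^4 + 9*a₁^3*a₂^4*P*Q^3 - 9*a₁^3*a₂^3*s^2*Q^4 + 30*a₁^3*a₂^3*s*P*Q^3 - 27*a₁^3*a₂^3*P^2*Q^2 - 9*a₁^3*a₂^2*s^2*P*Q^3 - 18*a₁^3*a₂^2*s*P^2*Q^2 + 24*a₁^3*a₂^2*P^3*Q - 3*a₁^3*a₂*s^3*P*Q^3 - 9*a₁^3*a₂*s^2*P^2*Q^2 + 24*a₁^3*a₂*s*P^3*Q - 3*a₁^3*a₂*P^4 - 6*a₁^3*s*P^4 - 3*a₁^2*a₂^5*s*Q^4 - 3*a₁^2*a₂^5*P*Q^3 + 3*a₁^2*a₂^4*s*P*Q^3 - 18*a₁^2*a₂^4*P^2*Q^2 + 18*a₁^2*a₂^3*s^2*P*Q^3 - 27*a₁^2*a₂^3*s*P^2*Q^2 + 9*a₁^2*a₂^3*P^3*Q + 18*a₁^2*a₂^2*s^2*P^2*Q^2 + 24*a₁^2*a₂^2*s*P^3*Q - 6*a₁^2*a₂^2*P^4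 + 9*a₁^2*a₂*s^3*P^2*Q^2 + 18*a₁^2*a₂*s^2*P^3*Q - 15*a₁^2*a₂*s*P^4 - 9*a₁*a₂^3*s^2*P^2*Q^2 + 9*a₁*a₂^3*s*P^3*Q - 3*a₁*a₂^3*P^4 - 9*a₁*a₂^2*s^2*P^3*Q - 9*a₁*a₂^2*s*P^4 - 9*a₁*a₂*s^3*P^3*Q - 9*a₁*a₂*s^2*P^4 + 3*a₂*s^3*P^4) := by
  have eL : a₁ * (w ^ 2 * -(a₁ + a₂) * a₂ + w ^ 2 * s ^ 2 + a₂ * s) * Q -
      w ^ 2 * (-(a₁ + a₂) * a₁ + w ^ 2 * a₁ * s + s ^ 2) * P = (a₁*((1+w)*(a₁+a₂)*a₂ - (1+w)*s^2 + a₂*s))*Q - ((1+w)*(a₁+a₂)*a₁ + w*a₁*s - (1+w)*s^2)*P := by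
    linear_combination (-w^2*a₁*s*P + w*a₁*s*P - a₁^2*a₂*Q + a₁^2*P - a₁*a₂^2*Q + a₁*a₂*P + a₁*s^2*Q - s^2*P) * hw
  have eb : a₂ * (a₁ - w ^ 2 * s) * Q + (a₂ - w * s) * w ^ 2 * P = (a₂*(a₁+(1+w)*s))*Q - ((1+w)*a₂+s)*P := by
    linear_combination (-w*s*P - a₂*s*Q + a₂*P + s*P) * hw
  have ek : w ^ 2 * (1 - w) * (w - w ^ 2) * ((w - w ^ 2) * s - w ^ 2 * a₁ + w * a₂) * -(a₁ + a₂) *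
        a₁ ^ 2 = -(-3*(a₁+a₂)*a₁^2*(-w*a₂ - w*s - a₁ - a₂ - 2*s)) := by
    linear_combination (w^5*a₁^4 + w^5*a₁^3*a₂ + w^5*a₁^3*s + w^5*a₁^2*a₂*s - 3*w^4*a₁^4 - 4*w^4*a₁^3*a₂ - 4*w^4*a₁^3*s - w^4*a₁^2*a₂^2 - 4*w^4*a₁^2*a₂*s + 3*w^3*a₁^4 + 6*w^3*a₁^3*a₂ + 6*w^3*a₁^3*s + 3*w^3*a₁^2*a₂^2 + 6*w^3*a₁^2*a₂*s - 3*w^2*a₁^3*a₂ - 3*w^2*a₁^3*s - 3*w^2*a₁^2*a₂^2 - 3*w^2*a₁^2*a₂*s - 3*w*a₁^4 - 3*w*a₁^3*a₂ - 3*w*a₁^3*s - 3*w*a₁^2*a₂*s + 3*a₁^4 + 6*a₁^3*a₂ + 6*a₁^3*s + 3*a₁^2*a₂^2 + 6*a₁^2*a₂*s) * hw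
  have ep : P - w ^ 2 * a₂ * Q = P + (1+w)*a₂*Q := by
    linear_combination (-a₂*Q) * hw
  have em : (3 * (1 - w) * -(a₁ + a₂) * a₁ ^ 2 * a₂) *
        ((w - w ^ 2) * s - w ^ 2 * a₁ + w * a₂) ^ 2 = (-3*(a₁+a₂)*a₁^2*a₂*(2*w*a₁^2 + 2*w*a₁*a₂ + 6*w*a₁*s - w*a₂^2 + 3*w*s^2 + a₁^2 - 2*a₁*a₂ - 2*a₂^2 - 6*a₂*s - 3*s^2)) := by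
    linear_combination (3*w^3*a₁^5*a₂ + 3*w^3*a₁^4*a₂^2 + 6*w^3*a₁^4*a₂*s + 6*w^3*a₁^3*a₂^2*s + 3*w^3*a₁^3*a₂*s^2 + 3*w^3*a₁^2*a₂^2*s^2 - 6*w^2*a₁^5*a₂ - 12*w^2*a₁^4*a₂^2 - 18*w^2*a₁^4*a₂*s - 6*w^2*a₁^3*a₂^3 - 24*w^2*a₁^3*a₂^2*s - 12*w^2*a₁^3*a₂*s^2 - 6*w^2*a₁^2*a₂^3*s - 12*w^2*a₁^2*a₂^2*s^2 + 3*w*a₁^5*a₂ + 15*w*a₁^4*a₂^2 + 18*w*a₁^4*a₂*s + 15*w*a₁^3*a₂^3 + 36*w*a₁^3*a₂^2*s + 18*w*a₁^3*a₂*s^2 + 3*w*a₁^2*a₂^4 + 18*w*a₁^2*a₂^3*s + 18*w*a₁^2*a₂^2*s^2 + 3*a₁^5*a₂ - 3*a₁^4*a₂^2 - 12*a₁^3*a₂^3 - 18*a₁^3*a₂^2*s - 9*a₁^3*a₂*s^2 - 6*a₁^2*a₂^4 - 18*a₁^2*a₂^3*s - 9*a₁^2*a₂^2*s^2) * hw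
  have h := KN_asm w a₁ a₂ s P Q δ _ _ _ _ _ _ _ _ _ _ _ (KN_k4 w a₁ a₂ s δ hw hs) (KN_k3 w a₁ a₂ s δ hw hs)
    (KN_k2 w a₁ a₂ s δ hw hs) (KN_k1 w a₁ a₂ s δ hw hs) (KN_k0 w a₁ a₂ s δ hw hs)
  rw [eL, eb, ek, ep, mul_assoc (P ^ 3 + a₁ * a₂ ^ 2 * Q ^ 3) _ (((w - w ^ 2) * s - w ^ 2 * a₁ + w * a₂) ^ 2), em]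
  have e5 : ∀ A B C D : R, A - -B * C * D = A + B * C * D := fun A B C D => by ring
  rw [e5, h]
  refine congrArg₂ (· + ·) rfl (congrArg (δ * ·) ?_)
  ring

end Pool.Agent.PTK

end
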