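import Mathlib
import Pool.Agent.PTWX.C17
import Pool.Agent.PTWX.C34
import Pool.Agent.PTWX.C50
import Pool.Agent.PTWX.C57
import Pool.Agent.PTWX.C79

/-! Parts: PTKX.ZI, PTKX.IIA, PTKX.KN1 -/

namespace Pool.Agent.PTK.KN1
end Pool.Agent.PTK.KN1

section

/-!
# Module PTK_ZI: independence of the classes `zN` (MP_8e0b0b_nt, by helper30)
-/

set_option autoImplicit false

open NumberField IsDedekindDomain Finset
open scoped nonZeroDivisors Pointwise

namespace Pool.Agent.PTK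

open Pool.Agent.Lib_helper18 Pool.Agent.Lib_helper18.Eis Pool.Agent.Lib_helper84.Cub
open Pool.Agent.PT Pool.Agent.PTE Pool.Agent.PT3 Pool.Agent.PTL Pool.Agent.PTN

namespace ZI

/-- equality up to cubes -/
def R (a b : Eis) : Prop := ∃ g g' : Eis, g ≠ 0 ∧ g' ≠ 0 ∧ a * g ^ 3 = b * g' ^ 3

lemma R_refl (a : Eis) : R a a := ⟨1, 1, one_ne_zero, one_ne_zero, rfl⟩

lemma R_trans {a b c : Eis} (h : R a b) (h' : R b c) : R a c := by
  obtain ⟨g, g', h1, h2, h3⟩ := h
  obtain ⟨k, k', h4, h5, h6⟩ := h'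
  refine ⟨g * k, g' * k', mul_ne_zero h1 h4, mul_ne_zero h2 h5, ?_⟩
  linear_combination k ^ 3 * h3 + g' ^ 3 * h6

lemma R_mul {a b a' b' : Eis} (h : R a b) (h' : R a' b') : R (a * a') (b * b') := by
  obtain ⟨g, g', h1, h2, h3⟩ := h
  obtain ⟨k, k', h4, h5, h6⟩ := h'
  refine ⟨g * k, g' * k', mul_ne_zero h1 h4, mul_ne_zero h2 h5, ?_⟩
  linear_combination (a' * k ^ 3) * h3 + (b * g' ^ 3) * h6

lemma zN_zero {m : ℕ} (π : Fin m → PP) (e : Fin m → ℕ) : zN π e 0 = 1 := by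
  unfold zN
  simp

lemma cube_of {t a : Eis} (h : R (t ^ 3) a) : ∃ u : Eis, u ^ 3 = a := by
  obtain ⟨g, g', h1, h2, h3⟩ := h
  have h4 : g' ^ 3 ∣ (t * g) ^ 3 := ⟨a, by rw [mul_pow, h3, mul_comm]⟩
  have h5 : g' ∣ t * g := (IsIntegrallyClosed.pow_dvd_pow_iff (three_ne_zero)).1 h4
  obtain ⟨u, hu⟩ := h5
  refine ⟨u, ?_⟩
  have h6 : g' ^ 3 * u ^ 3 = g' ^ 3 * a := by
    rw [← mul_pow, ← hu, mul_pow, h3, mul_comm]
  exact mul_left_cancel₀ (pow_ne_zero 3 h2) h6

end ZI

theorem ZI_thm (hZA : Stmt_ZA) : Stmt_ZI := by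
  classical
  intro n m k π p e r f hNF s Y c ht
  have hadd : ∀ y y' : Fin (m + 1) → ZMod 3, ZI.R (zN π e y * zN π e y') (zN π e (y + y')) := by
    intro y y'
    obtain ⟨-, -, -, -, -, -, -, -, h1, -⟩ := hZA n m k π p e r f hNF y
    exact h1 y'
  have hpow : ∀ (y : Fin (m + 1) → ZMod 3) (a : ℕ), ZI.R (zN π e y ^ a)
      (zN π e ((a : ZMod 3) • y)) := by
    intro y a
    induction a with
    | zero =>
      rw [pow_zero, Nat.cast_zero, zero_smul, ZI.zN_zero]
      exact ZI.R_refl 1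
    | succ a ih =>
      rw [pow_succ, Nat.cast_add, Nat.cast_one, add_smul, one_smul]
      exact ZI.R_trans (ZI.R_mul ih (ZI.R_refl _)) (hadd _ _)
  have hprod : ∀ S : Finset (Fin s), ZI.R (∏ i ∈ S, zN π e (Y i) ^ c i)
      (zN π e (∑ i ∈ S, (c i : ZMod 3) • Y i)) := by
    intro S
    induction S using Finset.induction_on with
    | empty =>
      rw [Finset.prod_empty, Finset.sum_empty, ZI.zN_zero]
      exact ZI.R_refl 1
    | insert a S ha ih =>
      rw [Finset.prod_insert ha, Finset.sum_insert ha]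
      exact ZI.R_trans (ZI.R_mul (hpow _ _) ih) (hadd _ _)
  obtain ⟨t, ht⟩ := ht
  have h1 := hprod Finset.univ
  rw [← ht] at h1
  obtain ⟨-, -, -, -, -, -, -, -, -, h2⟩ := hZA n m k π p e r f hNF (∑ i, (c i : ZMod 3) • Y i)
  exact h2 (ZI.cube_of h1)

end Pool.Agent.PTK

end

section

/-!
# The average rank of prime twists: the local term of a point at `lam` when `b` is a local cube
(classes in `Z[w]`)
-/

set_option autoImplicit false

namespace Pool.Agent.PTK

open Pool.Agent.Lib_helper18 Pool.Agent.Lib_helper18.Eis Pool.Agent.Lib_helper84.Cub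
open Pool.Agent.PT

namespace IIA

/-- close elements have the same symbols -/
theorem close (hL : LSym lam sl 4) {a a0 : Eis} {N : ℕ} (h0 : a0 ≠ 0)
    (hN : V lam a0 + 4 ≤ N) (h : lam ^ N ∣ a - a0) :
    a ≠ 0 ∧ ∀ y : Eis, y ≠ 0 → sl a y = sl a0 y := by
  refine ⟨?_, fun y hy => hL.cont _ _ y h0 hy ((pow_dvd_pow lam hN).trans h)⟩
  rintro rfl
  have h1 : lam ^ N ∣ a0 := by
    have := (dvd_neg (a := lam ^ N)).2 h
    simpa using this
  have h2 := (fin prime_lam h0).le_multiplicity_of_pow_dvd h1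
  unfold V at hN
  omega

theorem cube_close (hL : LSym lam sl 4) {a h0 m : Eis} {N : ℕ} (hh : h0 ≠ 0) (hm : m ≠ 0)
    (hN : V lam (h0 ^ 3 * m) + 4 ≤ N) (h : lam ^ N ∣ a - h0 ^ 3 * m) :
    a ≠ 0 ∧ ∀ y : Eis, y ≠ 0 → sl a y = sl m y := by
  obtain ⟨h1, h2⟩ := close hL (mul_ne_zero (pow_ne_zero 3 hh) hm) hN h
  refine ⟨h1, fun y hy => ?_⟩
  rw [h2 y hy, hL.mul _ _ _ (pow_ne_zero 3 hh) hm hy, LEV.cube_left hL hh hy, zero_add]

/-- linear forms at good approximations of a cube root do not vanish -/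
theorem lf_ne {π : Eis} (hπ : Prime π) {p q r b : Eis} {N : ℕ} (hn : p ^ 3 + b * q ^ 3 ≠ 0)
    (hN : V π (p ^ 3 + b * q ^ 3) < N) (hr : π ^ N ∣ r ^ 3 - b) (i : ℕ) : LfE p q i r ≠ 0 := by
  intro h0
  unfold LfE at h0
  have h1 : q * w ^ i * r = -p := by linear_combination h0
  have h2 : (q * w ^ i * r) ^ 3 = (-p) ^ 3 := by rw [h1]
  have h3 : (w ^ i) ^ 3 = 1 := by rw [← pow_mul, mul_comm, pow_mul, w_cube, one_pow]
  have h4 : p ^ 3 + b * q ^ 3 = (-q ^ 3) * (r ^ 3 - b) := by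
    linear_combination h2 - q ^ 3 * r ^ 3 * h3
  have h5 : π ^ N ∣ p ^ 3 + b * q ^ 3 := by
    rw [h4]
    exact Dvd.dvd.mul_left hr _
  have h6 := (fin hπ hn).le_multiplicity_of_pow_dvd h5
  exact absurd h6 (not_le.2 hN)

end IIA

theorem IIA_thm (hSLC : SLC) (hIIAG : Stmt_IIAG) : Stmt_IIA := by
  intro b x p q p' q' X Y hb hx hLC hS hX hY hn hD
  have hL : LSym lam sl 4 := hSLC
  have heq := hS.eq
  have hn1 := hS.n1
  have hn2 := hS.n2
  have hH0 : p' ^ 3 + b * q' ^ 3 ≠ 0 := by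
    intro h0
    apply hn1
    rw [heq, h0, mul_zero]
  have hn3 : x * q' ^ 3 - q ^ 3 ≠ 0 := by
    intro h0
    apply hn2
    linear_combination heq + b * h0
  obtain ⟨H0, hH0d⟩ : ∃ H0, H0 = p' ^ 3 + b * q' ^ 3 := ⟨_, rfl⟩
  rw [← hH0d] at hH0
  set N0 := V lam (H0 ^ 3 * (X ^ 3 + x * Y ^ 3)) + V lam (H0 ^ 3 * (p ^ 3 - x * p' ^ 3)) +
    V lam (H0 ^ 3 * (x * q' ^ 3 - q ^ 3)) + V lam (p ^ 3 + b * q ^ 3) +
    V lam (p' ^ 3 + b * q' ^ 3) + V lam b + 5 with hN0
  refine ⟨N0, fun r hr => ?_⟩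
  obtain ⟨δ, hδ⟩ : ∃ δ : Eis, δ = r ^ 3 - b := ⟨_, rfl⟩
  have hδd : lam ^ N0 ∣ δ := by
    rw [hδ]
    exact hr
  have cls : ∀ {a a0 c : Eis}, a = a0 + δ * c → lam ^ N0 ∣ a - a0 := by
    intro a a0 c h
    have : a - a0 = δ * c := by
      rw [h]
      ring
    rw [this]
    exact Dvd.dvd.mul_right hδd _
  -- nonvanishing
  have hr0 : r ≠ 0 := by
    have h1 := IIA.close hL (a := r ^ 3) (a0 := b) (N := N0) hb (by omega)
      (cls (c := 1) (by rw [hδ]; ring))
    intro h0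
    apply h1.1
    rw [h0]
    ring
  obtain ⟨F, hF⟩ : ∃ F, F = p ^ 3 + r ^ 3 * q ^ 3 := ⟨_, rfl⟩
  obtain ⟨H, hH⟩ : ∃ H, H = p' ^ 3 + r ^ 3 * q' ^ 3 := ⟨_, rfl⟩
  have hFne : F ≠ 0 := (IIA.close hL (a := F) (a0 := p ^ 3 + b * q ^ 3) (N := N0) hn1 (by omega)
    (cls (c := q ^ 3) (by rw [hδ, hF]; ring))).1
  have hHne : H ≠ 0 := (IIA.close hL (a := H) (a0 := p' ^ 3 + b * q' ^ 3) (N := N0)
    (by rw [← hH0d]; exact hH0) (by omega) (cls (c := q' ^ 3) (by rw [hδ, hH]; ring))).1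
  have hHe : H = H0 + δ * q' ^ 3 := by rw [hH, hδ, hH0d]; ring
  have hFe : F = x * H0 + δ * q ^ 3 := by
    rw [hF, hδ, hH0d]
    linear_combination heq
  -- close numbers
  obtain ⟨k1, k1'⟩ := IIA.cube_close hL (a := (X * H) ^ 3 + F * H ^ 2 * Y ^ 3) (h0 := H0)
    (m := X ^ 3 + x * Y ^ 3) (N := N0) hH0 hn (by omega)
    (cls (c := X ^ 3 * (3 * H0 ^ 2 * q' ^ 3 + 3 * H0 * δ * q' ^ 6 + δ ^ 2 * q' ^ 9) +
      Y ^ 3 * (x * H0 * (2 * H0 * q' ^ 3 + δ * q' ^ 6) +
        q ^ 3 * (H0 + δ * q' ^ 3) ^ 2)) (by rw [hHe, hFe]; ring))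
  obtain ⟨k2, k2'⟩ := IIA.cube_close hL (a := (p * H) ^ 3 - F * H ^ 2 * p' ^ 3) (h0 := H0)
    (m := p ^ 3 - x * p' ^ 3) (N := N0) hH0 hn2 (by omega)
    (cls (c := p ^ 3 * (3 * H0 ^ 2 * q' ^ 3 + 3 * H0 * δ * q' ^ 6 + δ ^ 2 * q' ^ 9) -
      p' ^ 3 * (x * H0 * (2 * H0 * q' ^ 3 + δ * q' ^ 6) +
        q ^ 3 * (H0 + δ * q' ^ 3) ^ 2)) (by rw [hHe, hFe]; ring))
  obtain ⟨k3, k3'⟩ := IIA.cube_close hL (a := F * H ^ 2 * q' ^ 3 - (q * H) ^ 3) (h0 := H0)
    (m := x * q' ^ 3 - q ^ 3) (N := N0) hH0 hn3 (by omega)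
    (cls (c := q' ^ 3 * (x * H0 * (2 * H0 * q' ^ 3 + δ * q' ^ 6) +
        q ^ 3 * (H0 + δ * q' ^ 3) ^ 2) -
      q ^ 3 * (3 * H0 ^ 2 * q' ^ 3 + 3 * H0 * δ * q' ^ 6 + δ ^ 2 * q' ^ 9))
      (by rw [hHe, hFe]; ring))
  have eD : ∀ i, DfE (X * H) Y p' (p * H) i = H * DfE X Y p' p i := by
    intro i
    unfold DfE
    ring
  have eD' : ∀ i, DfE (X * H) Y q' (q * H) i = H * DfE X Y q' q i := by
    intro i
    unfold DfE
    ring
  have eG : ∀ i, GfE (p * H) (q * H) p' q' i = H * GfE p q p' q' i := by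
    intro i
    unfold GfE
    ring
  have eL : ∀ i, LfE (p * H) (q * H) i r = H * LfE p q i r := by
    intro i
    unfold LfE
    ring
  -- the global identity
  have hSt : SolE (r ^ 3) (F * H ^ 2) (p * H) (q * H) p' q' := by
    refine ⟨⟨?_, ?_⟩, k2, ?_, ?_⟩
    · rw [← hH]
      linear_combination (-(H ^ 3)) * hF
    · have : (p * H) ^ 3 + r ^ 3 * (q * H) ^ 3 = F * H ^ 3 := by rw [hF]; ring
      rw [this]
      exact mul_ne_zero hFne (pow_ne_zero 3 hHne)
    · rw [eG]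
      exact mul_ne_zero hHne hS.g1
    · rw [eG]
      exact mul_ne_zero hHne hS.g2
  have hDt : DNE (X * H) Y (p * H) (q * H) p' q' := by
    refine ⟨?_, ?_, ?_, ?_⟩
    · rw [eD]
      exact mul_ne_zero hHne hD.d1
    · rw [eD]
      exact mul_ne_zero hHne hD.d2
    · rw [eD']
      exact mul_ne_zero hHne hD.d3
    · rw [eD']
      exact mul_ne_zero hHne hD.d4
  have key := hIIAG r (F * H ^ 2) (p * H) (q * H) p' q' (X * H) Y hr0
    (mul_ne_zero hFne (pow_ne_zero 2 hHne)) hSt (mul_ne_zero hX hHne) hY k1 hDt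
  -- the forms
  have hLf : ∀ i, LfE p q i r ≠ 0 :=
    IIA.lf_ne prime_lam (N := N0) hn1 (by omega) hr
  have hLf' : ∀ i, LfE p' q' i r ≠ 0 :=
    IIA.lf_ne prime_lam (N := N0) (b := b) (by rw [← hH0d]; exact hH0) (by omega) hr
  -- symbols
  have skl : ∀ {m a : Eis}, a ≠ 0 → m ≠ 0 → (∀ y : Eis, y ≠ 0 → sl a y = sl m y) →
      ∀ y : Eis, y ≠ 0 → sl y a = sl y m := by
    intro m a ha hm h y hy
    rw [hL.skew _ _ ha hy, hL.skew _ _ hm hy, h y hy]
  have j1 := skl k1 hn k1'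
  have j2 := skl k2 hn2 k2'
  have j3 := skl k3 hn3 k3'
  have c1 : ∀ {m : Eis} (hm : m ≠ 0) {u v : Eis} (hu : u ≠ 0) (hv : v ≠ 0),
      sl (H * u) m - sl (H * v) m = sl u m - sl v m := by
    intro m hm u v hu hv
    rw [hL.mul _ _ _ hHne hu hm, hL.mul _ _ _ hHne hv hm]
    ring
  have c2 : ∀ {m : Eis} (hm : m ≠ 0) {u v : Eis} (hu : u ≠ 0) (hv : v ≠ 0),
      sl m (H * u) - sl m (H * v) = sl m u - sl m v := by
    intro m hm u v hu hv
    rw [LEV.mul_right hL hHne hu hm, LEV.mul_right hL hHne hv hm]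
    ring
  unfold SVE ASE at key
  unfold SVE ASE
  rw [eD, eD, eD', eD', eG, eG, eL, eL] at key
  have f1 := hD.d1
  have f2 := hD.d2
  have f3 := hD.d3
  have f4 := hD.d4
  have f5 := hS.g1
  have f6 := hS.g2
  have g1 := c1 k2 f1 f2
  have g2 := c1 k1 f1 f2
  have g3 := c1 k3 f3 f4
  have g4 := c1 k1 f3 f4
  have g5 := c2 k1 f5 f6
  have g6 := c2 k1 (hLf 2) (hLf 1)
  rw [j2 _ f1, j2 _ f2] at g1
  rw [j1 _ f1, j1 _ f2] at g2
  rw [j3 _ f3, j3 _ f4] at g3
  rw [j1 _ f3, j1 _ f4] at g4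
  rw [k1' _ f5, k1' _ f6] at g5
  rw [k1' _ (hLf 2), k1' _ (hLf 1)] at g6
  have g7 := k1' _ (hLf' 1)
  have g8 := k1' _ (hLf' 2)
  have g9 := j1 _ LEV.w_ne
  linear_combination key - g1 + g2 + g3 - g4 + g5 + g9 - g6 - g7 + g8

end Pool.Agent.PTK

end

section

/-!
# KN1: a Steinberg identity
-/

set_option autoImplicit false

open scoped nonZeroDivisors Pointwise

namespace Pool.Agent.PTK

open Pool.Agent.Lib_helper18 Pool.Agent.Lib_helper18.Eis Pool.Agent.Lib_helper84.Cub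
open Pool.Agent.PT Pool.Agent.PTE Pool.Agent.PT3 Pool.Agent.PTL Pool.Agent.PTN

namespace KN1

/-! ### Bounded valuations -/

/-- A rational integer whose square is a cube in `Eis` is a cube. -/
theorem cube_int {D : ℤ} (hD : D ≠ 0) {r : Eis} (h : r ^ 3 = (D : Eis) ^ 2) :
    ∃ m : ℤ, m ^ 3 = D := by
  have h1 : r.norm ^ 3 = (D ^ 2) ^ 2 := by
    have h2 := congrArg Eis.norm h
    rw [norm_pow, norm_pow, norm_intCast] at h2
    exact h2
  have h3 : D ^ 3 ∣ r.norm ^ 3 := ⟨D, by rw [h1]; ring⟩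
  have h4 : D ∣ r.norm := (Int.pow_dvd_pow_iff three_ne_zero).1 h3
  obtain ⟨m, hm⟩ := h4
  refine ⟨m, ?_⟩
  rw [hm] at h1
  have h5 : D ^ 3 * m ^ 3 = D ^ 3 * D := by rw [← mul_pow, h1]; ring
  exact mul_left_cancel₀ (pow_ne_zero 3 hD) h5

theorem dvd_cube {a b : Eis} (h : a ^ 3 ∣ b ^ 3) : a ∣ b :=
  (IsIntegrallyClosed.pow_dvd_pow_iff (R := Eis) three_ne_zero).1 h

theorem lin_ne {B : ℤ} (hB : B ≠ 0) (hc : ¬ ∃ n : ℤ, n ^ 3 = B) {u v : Eis}
    (h : ¬ (u = 0 ∧ v = 0)) : u ^ 3 - (B : Eis) * v ^ 3 ≠ 0 := by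
  intro h0
  by_cases hv : v = 0
  · subst hv
    have h1 : u ^ 3 = 0 := by linear_combination h0
    exact h ⟨(pow_eq_zero_iff three_ne_zero).1 h1, rfl⟩
  · have h1 : v ^ 3 ∣ u ^ 3 := ⟨B, by linear_combination h0⟩
    obtain ⟨k, rfl⟩ := dvd_cube h1
    have h2 : v ^ 3 * (k ^ 3 - (B : Eis)) = 0 := by linear_combination h0
    have h3 := (mul_eq_zero.1 h2).resolve_left (pow_ne_zero _ hv)
    apply hc
    exact cube_int hB (r := k ^ 2) (by linear_combination (k ^ 3 + (B : Eis)) * h3)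

/-- the norm form is not zero -/
theorem nrm_ne {B : ℤ} (hB : B ≠ 0) (hc : ¬ ∃ n : ℤ, n ^ 3 = B) {g₀ g₁ g₂ : Eis}
    (h : ¬ (g₀ = 0 ∧ g₁ = 0 ∧ g₂ = 0)) :
    g₀ ^ 3 + (B : Eis) * g₁ ^ 3 + (B : Eis) ^ 2 * g₂ ^ 3 - 3 * (B : Eis) * g₀ * g₁ * g₂ ≠ 0 := by
  intro h0
  by_cases h1 : g₁ = 0 ∧ g₂ = 0
  · obtain ⟨rfl, rfl⟩ := h1
    have h2 : g₀ ^ 3 = 0 := by linear_combination h0
    exact h ⟨(pow_eq_zero_iff three_ne_zero).1 h2, rfl, rfl⟩
  · have h2 := lin_ne hB hc h1
    have h4 : g₀ * g₁ - (B : Eis) * g₂ ^ 2 = 0 ∧ -(g₁ ^ 2 - g₀ * g₂) = 0 := by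
      by_contra hcon
      apply lin_ne hB hc hcon
      linear_combination (g₁ ^ 3 - (B : Eis) * g₂ ^ 3) * h0
    apply h2
    linear_combination (-g₁) * h4.2 + g₂ * h4.1

/-- polynomials of degree at most two have bounded valuations near the cube roots of `B` -/
theorem bdd {π : Eis} (hπ : Prime π) {B : ℤ} (hB : B ≠ 0) (hc : ¬ ∃ n : ℤ, n ^ 3 = B)
    (g₀ g₁ g₂ : Eis) (h : ¬ (g₀ = 0 ∧ g₁ = 0 ∧ g₂ = 0)) :
    ∃ C : ℕ, ∀ s : Eis, π ^ (C + 1) ∣ s ^ 3 - (B : Eis) →
      g₀ + g₁ * s + g₂ * s ^ 2 ≠ 0 ∧ V π (g₀ + g₁ * s + g₂ * s ^ 2) ≤ C := by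
  refine ⟨V π (g₀ ^ 3 + (B : Eis) * g₁ ^ 3 + (B : Eis) ^ 2 * g₂ ^ 3 -
    3 * (B : Eis) * g₀ * g₁ * g₂), fun s hs => ?_⟩
  refine IF1.V_le (c' := (g₀ + g₁ * s + g₂ * s ^ 2) * ((g₀ ^ 2 - g₁ * g₂ * B) +
    (g₂ ^ 2 * B - g₀ * g₁) * s + (g₁ ^ 2 - g₀ * g₂) * s ^ 2)) hπ (nrm_ne hB hc h)
    (Nat.lt_succ_self _) ?_ (dvd_mul_right _ _)
  have e : (g₀ + g₁ * s + g₂ * s ^ 2) * ((g₀ ^ 2 - g₁ * g₂ * B) +
      (g₂ ^ 2 * B - g₀ * g₁) * s + (g₁ ^ 2 - g₀ * g₂) * s ^ 2) -
      (g₀ ^ 3 + (B : Eis) * g₁ ^ 3 + (B : Eis) ^ 2 * g₂ ^ 3 - 3 * (B : Eis) * g₀ * g₁ * g₂) =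
      (s ^ 3 - (B : Eis)) * (g₁ * (g₁ ^ 2 - g₀ * g₂) + g₂ * (g₂ ^ 2 * B - g₀ * g₁) +
        g₂ * (g₁ ^ 2 - g₀ * g₂) * s) := by ring
  rw [e]
  exact Dvd.dvd.mul_right hs _

/-! ### Symbols -/

section Sym

variable {π : Eis} {s : Eis → Eis → ZMod 3} {e : ℕ}

theorem h3 : (3 : ZMod 3) = 0 := rfl

theorem s_sq (hs : LSym π s e) {a c : Eis} (ha : a ≠ 0) (hc : c ≠ 0) :
    s (a ^ 2) c = 2 * s a c := by
  rw [pow_two, hs.mul _ _ _ ha ha hc]
  ring

theorem s_right_sq (hs : LSym π s e) {a c : Eis} (ha : a ≠ 0) (hc : c ≠ 0) :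
    s c (a ^ 2) = 2 * s c a := by
  rw [hs.skew (a ^ 2) c (pow_ne_zero 2 ha) hc, s_sq hs ha hc, hs.skew a c ha hc]
  ring

theorem s_right_mul (hs : LSym π s e) {a b c : Eis} (ha : a ≠ 0) (hb : b ≠ 0) (hc : c ≠ 0) :
    s c (a * b) = s c a + s c b := by
  rw [hs.skew (a * b) c (mul_ne_zero ha hb) hc, hs.mul a b c ha hb hc, hs.skew a c ha hc,
    hs.skew b c hb hc]
  ring

theorem s_self (hs : LSym π s e) {a : Eis} (ha : a ≠ 0) : s a a = 0 := by
  have h := hs.skew a a ha ha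
  exact IF1.two_mul_eq_zero (by rw [eq_neg_iff_add_eq_zero] at h; exact h)

/-- The Steinberg relation for `U - W`. -/
theorem stein' (hs : LSym π s e) {U W D : Eis} (hU : U ≠ 0) (hW : W ≠ 0) (hD : D ≠ 0)
    (h : D = U - W) : s W U = s D U - s D W := by
  have h1 := hs.stein U (-W) (-D) hU (neg_ne_zero.2 hW) (neg_ne_zero.2 hD) (by rw [h]; ring)
  rw [hs.skew (-W) U (neg_ne_zero.2 hW) hU, IF1.s_neg hs hU hW,
    IF1.s_neg hs (neg_ne_zero.2 hD) hW, hs.skew (-D) W (neg_ne_zero.2 hD) hW,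
    IF1.s_neg hs hW hD, IF1.s_neg hs hU hD] at h1
  linear_combination -h1

end Sym

/-- The formal computation. -/
theorem core {s : Eis → Eis → ZMod 3} {e : ℕ} (hs : LSym lam s e)
    {t a₀ a₁ a₂ σ τ L₁ L₂ N H α β U W Z : Eis} (hw : w ≠ 0) (hl : lam ≠ 0) (ht3 : t ≠ 0)
    (h0 : a₀ ≠ 0) (h1 : a₁ ≠ 0) (h2 : a₂ ≠ 0) (hσ : σ ≠ 0) (hτ : τ ≠ 0) (hL₁ : L₁ ≠ 0)
    (hL₂ : L₂ ≠ 0) (hN : N ≠ 0) (hH : H ≠ 0) (hα : α ≠ 0) (hβ : β ≠ 0)
    (ht : t = -w ^ 2 * lam ^ 2)
    (hB : ∀ c, c ≠ 0 → s (a₀ * a₁ * a₂) c = 0)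
    (hq : ∀ c, c ≠ 0 → s (t * a₀ * τ * σ) c = 0)
    (hU : U = a₂ * L₁ * α ^ 3) (hW : W = w ^ 2 * lam * σ * a₀ * a₁ ^ 2 * L₂ * β ^ 3)
    (hZ : Z = N * (t * lam * a₀ * a₁ ^ 2 * a₂) * σ ^ 2 * H)
    (hD : U - W ≠ 0) (hZD : ∀ c, c ≠ 0 → s (U - W) c = s Z c)
    (hHe : -H = w * σ * L₁ - w ^ 2 * τ * L₂) :
    (s (w ^ 2 * lam * σ * a₀ * a₁ ^ 2 * a₂ ^ 2) N + s L₂ N - s L₁ N) -
      (s (w ^ 2 * lam * σ * a₀ * a₁ ^ 2 * a₂ ^ 2) (a₀ * a₂ ^ 2) + s L₂ (a₀ * a₂ ^ 2) -
        s L₁ (a₀ * a₂ ^ 2)) = 0 := by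
  obtain ⟨T, hT⟩ : ∃ T : Eis → ZMod 3, ∀ c, T c =
      s (w ^ 2 * lam * σ * a₀ * a₁ ^ 2 * a₂ ^ 2) c + s L₂ c - s L₁ c := ⟨_, fun _ => rfl⟩
  rw [← hT, ← hT]
  have hK : w ^ 2 * lam * σ * a₀ * a₁ ^ 2 * a₂ ^ 2 ≠ 0 := by
    repeat' (first | assumption | (with_reducible apply mul_ne_zero) |
      (with_reducible apply pow_ne_zero))
  have hTm : ∀ a b, a ≠ 0 → b ≠ 0 → T (a * b) = T a + T b := by
    intro a b ha hb
    rw [hT, hT, hT, s_right_mul hs ha hb hK, s_right_mul hs ha hb hL₂,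
      s_right_mul hs ha hb hL₁]
    ring
  have hTsq : ∀ a, a ≠ 0 → T (a ^ 2) = 2 * T a := by
    intro a ha
    rw [pow_two, hTm a a ha ha]
    ring
  have hTcube : ∀ a, a ≠ 0 → T (a ^ 3) = 0 := by
    intro a ha
    have e1 : a ^ 3 = a * a * a := by ring
    rw [e1, hTm _ _ (mul_ne_zero ha ha) ha, hTm _ _ ha ha]
    exact IF1.three_mul_eq _
  -- expansions
  have x3 : ∀ c, c ≠ 0 → s t c + s lam c = 2 * s w c := by
    intro c hc
    have e1 : t * lam = -(w ^ 2 * lam ^ 3) := by rw [ht]; ring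
    have e2 := hs.mul t lam c ht3 hl hc
    rw [e1, IF1.s_neg hs hc (by
      repeat' (first | assumption | (with_reducible apply mul_ne_zero) |
        (with_reducible apply pow_ne_zero))), hs.mul _ _ c (by
      repeat' (first | assumption | (with_reducible apply mul_ne_zero) |
        (with_reducible apply pow_ne_zero))) (by
      repeat' (first | assumption | (with_reducible apply mul_ne_zero) |
        (with_reducible apply pow_ne_zero))) hc,
      IF1.s_cube hs hc hl, s_sq hs hw hc] at e2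
    linear_combination -e2
  have xB : ∀ c, c ≠ 0 → s a₀ c + s a₁ c + s a₂ c = 0 := by
    intro c hc
    have e1 := hB c hc
    rw [hs.mul _ _ c (by
      repeat' (first | assumption | (with_reducible apply mul_ne_zero) |
        (with_reducible apply pow_ne_zero))) (by
      repeat' (first | assumption | (with_reducible apply mul_ne_zero) |
        (with_reducible apply pow_ne_zero))) hc, hs.mul _ _ c (by
      repeat' (first | assumption | (with_reducible apply mul_ne_zero) |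
        (with_reducible apply pow_ne_zero))) (by
      repeat' (first | assumption | (with_reducible apply mul_ne_zero) |
        (with_reducible apply pow_ne_zero))) hc] at e1
    exact e1
  have xq : ∀ c, c ≠ 0 → s t c + s a₀ c + s τ c + s σ c = 0 := by
    intro c hc
    have e1 := hq c hc
    rw [hs.mul _ _ c (by
      repeat' (first | assumption | (with_reducible apply mul_ne_zero) |
        (with_reducible apply pow_ne_zero))) (by
      repeat' (first | assumption | (with_reducible apply mul_ne_zero) |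
        (with_reducible apply pow_ne_zero))) hc, hs.mul _ _ c (by
      repeat' (first | assumption | (with_reducible apply mul_ne_zero) |
        (with_reducible apply pow_ne_zero))) (by
      repeat' (first | assumption | (with_reducible apply mul_ne_zero) |
        (with_reducible apply pow_ne_zero))) hc,
      hs.mul _ _ c (by
      repeat' (first | assumption | (with_reducible apply mul_ne_zero) |
        (with_reducible apply pow_ne_zero))) (by
      repeat' (first | assumption | (with_reducible apply mul_ne_zero) |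
        (with_reducible apply pow_ne_zero))) hc] at e1
    exact e1
  have xK : ∀ c, c ≠ 0 → s (w ^ 2 * lam * σ * a₀ * a₁ ^ 2 * a₂ ^ 2) c =
      2 * s w c + s lam c + s σ c + s a₀ c + 2 * s a₁ c + 2 * s a₂ c := by
    intro c hc
    rw [hs.mul _ _ c (by
      repeat' (first | assumption | (with_reducible apply mul_ne_zero) |
        (with_reducible apply pow_ne_zero))) (by
      repeat' (first | assumption | (with_reducible apply mul_ne_zero) |
        (with_reducible apply pow_ne_zero))) hc, hs.mul _ _ c (by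
      repeat' (first | assumption | (with_reducible apply mul_ne_zero) |
        (with_reducible apply pow_ne_zero))) (by
      repeat' (first | assumption | (with_reducible apply mul_ne_zero) |
        (with_reducible apply pow_ne_zero))) hc,
      hs.mul _ _ c (by
      repeat' (first | assumption | (with_reducible apply mul_ne_zero) |
        (with_reducible apply pow_ne_zero))) (by
      repeat' (first | assumption | (with_reducible apply mul_ne_zero) |
        (with_reducible apply pow_ne_zero))) hc, hs.mul _ _ c (by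
      repeat' (first | assumption | (with_reducible apply mul_ne_zero) |
        (with_reducible apply pow_ne_zero))) (by
      repeat' (first | assumption | (with_reducible apply mul_ne_zero) |
        (with_reducible apply pow_ne_zero))) hc,
      hs.mul _ _ c (by
      repeat' (first | assumption | (with_reducible apply mul_ne_zero) |
        (with_reducible apply pow_ne_zero))) (by
      repeat' (first | assumption | (with_reducible apply mul_ne_zero) |
        (with_reducible apply pow_ne_zero))) hc, s_sq hs hw hc, s_sq hs h1 hc, s_sq hs h2 hc]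
  have hU0 : U ≠ 0 := by rw [hU]; repeat' (first | assumption | (with_reducible apply mul_ne_zero) | (with_reducible apply pow_ne_zero))
  have hW0 : W ≠ 0 := by rw [hW]; repeat' (first | assumption | (with_reducible apply mul_ne_zero) | (with_reducible apply pow_ne_zero))
  have hZ0 : Z ≠ 0 := by rw [hZ]; repeat' (first | assumption | (with_reducible apply mul_ne_zero) | (with_reducible apply pow_ne_zero))
  have xU : ∀ c, c ≠ 0 → s U c = s a₂ c + s L₁ c := by
    intro c hc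
    rw [hU, hs.mul _ _ c (by
      repeat' (first | assumption | (with_reducible apply mul_ne_zero) |
        (with_reducible apply pow_ne_zero))) (by
      repeat' (first | assumption | (with_reducible apply mul_ne_zero) |
        (with_reducible apply pow_ne_zero))) hc, hs.mul _ _ c (by
      repeat' (first | assumption | (with_reducible apply mul_ne_zero) |
        (with_reducible apply pow_ne_zero))) (by
      repeat' (first | assumption | (with_reducible apply mul_ne_zero) |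
        (with_reducible apply pow_ne_zero))) hc,
      IF1.s_cube hs hc hα, add_zero]
  have xW : ∀ c, c ≠ 0 → s W c =
      2 * s w c + s lam c + s σ c + s a₀ c + 2 * s a₁ c + s L₂ c := by
    intro c hc
    rw [hW, hs.mul _ _ c (by
      repeat' (first | assumption | (with_reducible apply mul_ne_zero) |
        (with_reducible apply pow_ne_zero))) (by
      repeat' (first | assumption | (with_reducible apply mul_ne_zero) |
        (with_reducible apply pow_ne_zero))) hc, hs.mul _ _ c (by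
      repeat' (first | assumption | (with_reducible apply mul_ne_zero) |
        (with_reducible apply pow_ne_zero))) (by
      repeat' (first | assumption | (with_reducible apply mul_ne_zero) |
        (with_reducible apply pow_ne_zero))) hc,
      hs.mul _ _ c (by
      repeat' (first | assumption | (with_reducible apply mul_ne_zero) |
        (with_reducible apply pow_ne_zero))) (by
      repeat' (first | assumption | (with_reducible apply mul_ne_zero) |
        (with_reducible apply pow_ne_zero))) hc, hs.mul _ _ c (by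
      repeat' (first | assumption | (with_reducible apply mul_ne_zero) |
        (with_reducible apply pow_ne_zero))) (by
      repeat' (first | assumption | (with_reducible apply mul_ne_zero) |
        (with_reducible apply pow_ne_zero))) hc,
      hs.mul _ _ c (by
      repeat' (first | assumption | (with_reducible apply mul_ne_zero) |
        (with_reducible apply pow_ne_zero))) (by
      repeat' (first | assumption | (with_reducible apply mul_ne_zero) |
        (with_reducible apply pow_ne_zero))) hc, hs.mul _ _ c (by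
      repeat' (first | assumption | (with_reducible apply mul_ne_zero) |
        (with_reducible apply pow_ne_zero))) (by
      repeat' (first | assumption | (with_reducible apply mul_ne_zero) |
        (with_reducible apply pow_ne_zero))) hc,
      s_sq hs hw hc, s_sq hs h1 hc, IF1.s_cube hs hc hβ, add_zero]
  have hT1 : ∀ c, c ≠ 0 → T c = s W c - s U c := by
    intro c hc
    rw [hT, xK c hc, xW c hc, xU c hc]
    linear_combination s a₂ c * h3
  have hT2 : ∀ c, c ≠ 0 → T c = s (w ^ 2 * τ * L₂) c - s (w * σ * L₁) c := by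
    intro c hc
    rw [hT, xK c hc, hs.mul _ _ c (by
      repeat' (first | assumption | (with_reducible apply mul_ne_zero) |
        (with_reducible apply pow_ne_zero))) (by
      repeat' (first | assumption | (with_reducible apply mul_ne_zero) |
        (with_reducible apply pow_ne_zero))) hc,
      hs.mul _ _ c (by
      repeat' (first | assumption | (with_reducible apply mul_ne_zero) |
        (with_reducible apply pow_ne_zero))) (by
      repeat' (first | assumption | (with_reducible apply mul_ne_zero) |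
        (with_reducible apply pow_ne_zero))) hc, hs.mul _ _ c (by
      repeat' (first | assumption | (with_reducible apply mul_ne_zero) |
        (with_reducible apply pow_ne_zero))) (by
      repeat' (first | assumption | (with_reducible apply mul_ne_zero) |
        (with_reducible apply pow_ne_zero))) hc,
      hs.mul _ _ c (by
      repeat' (first | assumption | (with_reducible apply mul_ne_zero) |
        (with_reducible apply pow_ne_zero))) (by
      repeat' (first | assumption | (with_reducible apply mul_ne_zero) |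
        (with_reducible apply pow_ne_zero))) hc, s_sq hs hw hc]
    linear_combination 2 * xB c hc - xq c hc + x3 c hc + (s σ c + s w c) * h3
  -- first relation
  have E1 : T Z = T U := by
    have e1 := stein' hs hU0 hW0 hD rfl
    rw [hZD _ hU0, hZD _ hW0] at e1
    rw [hT1 Z hZ0, hT1 U hU0, s_self hs hU0, hs.skew Z W hZ0 hW0, hs.skew Z U hZ0 hU0]
    linear_combination -e1
  -- second relation
  have hU2 : w * σ * L₁ ≠ 0 := by
    repeat' (first | assumption | (with_reducible apply mul_ne_zero) |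
      (with_reducible apply pow_ne_zero))
  have hW2 : w ^ 2 * τ * L₂ ≠ 0 := by
    repeat' (first | assumption | (with_reducible apply mul_ne_zero) |
      (with_reducible apply pow_ne_zero))
  have E2 : T H = T (w * σ * L₁) := by
    have e1 := stein' hs hU2 hW2 (neg_ne_zero.2 hH) hHe
    rw [IF1.s_neg hs hU2 hH, IF1.s_neg hs hW2 hH] at e1
    rw [hT2 H hH, hT2 _ hU2, s_self hs hU2, hs.skew H _ hH hW2, hs.skew H _ hH hU2]
    linear_combination -e1
  -- second variable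
  have yT : ∀ c, c ≠ 0 → (∀ d, d ≠ 0 → s c d = 0) → T c = 0 := by
    intro c hc h
    rw [hT, hs.skew c _ hc hK, hs.skew c _ hc hL₂, hs.skew c _ hc hL₁, h _ hK, h _ hL₂, h _ hL₁]
    ring
  have yB : T a₀ + T a₁ + T a₂ = 0 := by
    have e1 := yT (a₀ * a₁ * a₂) (by
      repeat' (first | assumption | (with_reducible apply mul_ne_zero) |
        (with_reducible apply pow_ne_zero))) hB
    rw [hTm _ _ (by
      repeat' (first | assumption | (with_reducible apply mul_ne_zero) |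
        (with_reducible apply pow_ne_zero))) (by
      repeat' (first | assumption | (with_reducible apply mul_ne_zero) |
        (with_reducible apply pow_ne_zero))), hTm _ _ (by
      repeat' (first | assumption | (with_reducible apply mul_ne_zero) |
        (with_reducible apply pow_ne_zero))) (by
      repeat' (first | assumption | (with_reducible apply mul_ne_zero) |
        (with_reducible apply pow_ne_zero)))] at e1
    exact e1
  have y3 : T t + T lam = 2 * T w := by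
    have e1 : T t + T lam = T (t * lam) := (hTm _ _ ht3 hl).symm
    rw [e1, hT, hT, xK _ (by
      repeat' (first | assumption | (with_reducible apply mul_ne_zero) |
        (with_reducible apply pow_ne_zero))), xK _ hw]
    have e2 : ∀ d, d ≠ 0 → s d (t * lam) = 2 * s d w := by
      intro d hd
      rw [hs.skew (t * lam) d (by
      repeat' (first | assumption | (with_reducible apply mul_ne_zero) |
        (with_reducible apply pow_ne_zero))) hd, hs.mul _ _ _ ht3 hl hd, x3 d hd, hs.skew w d hw hd]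
      ring
    rw [e2 w hw, e2 lam hl, e2 σ hσ, e2 a₀ h0, e2 a₁ h1, e2 a₂ h2, e2 L₂ hL₂, e2 L₁ hL₁]
    ring
  -- conclusion
  have f1 : T Z = T N + (T t + T lam + T a₀ + 2 * T a₁ + T a₂) + 2 * T σ + T H := by
    rw [hZ, hTm _ _ (by
      repeat' (first | assumption | (with_reducible apply mul_ne_zero) |
        (with_reducible apply pow_ne_zero))) (by
      repeat' (first | assumption | (with_reducible apply mul_ne_zero) |
        (with_reducible apply pow_ne_zero))), hTm _ _ (by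
      repeat' (first | assumption | (with_reducible apply mul_ne_zero) |
        (with_reducible apply pow_ne_zero))) (by
      repeat' (first | assumption | (with_reducible apply mul_ne_zero) |
        (with_reducible apply pow_ne_zero))),
      hTm _ _ (by
      repeat' (first | assumption | (with_reducible apply mul_ne_zero) |
        (with_reducible apply pow_ne_zero))) (by
      repeat' (first | assumption | (with_reducible apply mul_ne_zero) |
        (with_reducible apply pow_ne_zero))), hTm _ _ (by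
      repeat' (first | assumption | (with_reducible apply mul_ne_zero) |
        (with_reducible apply pow_ne_zero))) (by
      repeat' (first | assumption | (with_reducible apply mul_ne_zero) |
        (with_reducible apply pow_ne_zero))),
      hTm _ _ (by
      repeat' (first | assumption | (with_reducible apply mul_ne_zero) |
        (with_reducible apply pow_ne_zero))) (by
      repeat' (first | assumption | (with_reducible apply mul_ne_zero) |
        (with_reducible apply pow_ne_zero))), hTm _ _ (by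
      repeat' (first | assumption | (with_reducible apply mul_ne_zero) |
        (with_reducible apply pow_ne_zero))) (by
      repeat' (first | assumption | (with_reducible apply mul_ne_zero) |
        (with_reducible apply pow_ne_zero))),
      hTm _ _ (by
      repeat' (first | assumption | (with_reducible apply mul_ne_zero) |
        (with_reducible apply pow_ne_zero))) (by
      repeat' (first | assumption | (with_reducible apply mul_ne_zero) |
        (with_reducible apply pow_ne_zero))), hTsq _ hσ, hTsq _ h1]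
  have f2 : T U = T a₂ + T L₁ := by
    rw [hU, hTm _ _ (by
      repeat' (first | assumption | (with_reducible apply mul_ne_zero) |
        (with_reducible apply pow_ne_zero))) (by
      repeat' (first | assumption | (with_reducible apply mul_ne_zero) |
        (with_reducible apply pow_ne_zero))), hTm _ _ (by
      repeat' (first | assumption | (with_reducible apply mul_ne_zero) |
        (with_reducible apply pow_ne_zero))) (by
      repeat' (first | assumption | (with_reducible apply mul_ne_zero) |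
        (with_reducible apply pow_ne_zero))), hTcube _ hα,
      add_zero]
  have f3 : T (w * σ * L₁) = T w + T σ + T L₁ := by
    rw [hTm _ _ (by
      repeat' (first | assumption | (with_reducible apply mul_ne_zero) |
        (with_reducible apply pow_ne_zero))) (by
      repeat' (first | assumption | (with_reducible apply mul_ne_zero) |
        (with_reducible apply pow_ne_zero))), hTm _ _ (by
      repeat' (first | assumption | (with_reducible apply mul_ne_zero) |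
        (with_reducible apply pow_ne_zero))) (by
      repeat' (first | assumption | (with_reducible apply mul_ne_zero) |
        (with_reducible apply pow_ne_zero)))]
  have f4 : T (a₀ * a₂ ^ 2) = T a₀ + 2 * T a₂ := by
    rw [hTm _ _ (by
      repeat' (first | assumption | (with_reducible apply mul_ne_zero) |
        (with_reducible apply pow_ne_zero))) (by
      repeat' (first | assumption | (with_reducible apply mul_ne_zero) |
        (with_reducible apply pow_ne_zero))), hTsq _ h2]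
  rw [f4]
  rw [f1, f2, E2, f3] at E1
  linear_combination E1 - y3 - 2 * yB - (T w + T σ) * h3

theorem w_ne_one : (w : Eis) - 1 ≠ 0 := by decide

theorem w_sub_sq_ne : (w : Eis) - w ^ 2 ≠ 0 := by decide

theorem three_ne : (3 : Eis) ≠ 0 := by decide

/-- valuations add up -/
theorem V_add {a b : Eis} {m n : ℕ} (ha : a ≠ 0 ∧ V lam a ≤ m) (hb : b ≠ 0 ∧ V lam b ≤ n) :
    a * b ≠ 0 ∧ V lam (a * b) ≤ m + n := by
  refine ⟨mul_ne_zero ha.1 hb.1, ?_⟩
  rw [V_mul prime_lam ha.1 hb.1]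
  exact add_le_add ha.2 hb.2

end KN1

open _root_.Pool.Agent.PTK.KN1 in
theorem KN1_thm (hSLC : SLC) : Stmt_KN1 := by
  intro x₀ y₀ B a₀ a₁ a₂ hxy hB hc hne h0 h1 h2 P Q hN hL₁ hL₂
  have hs : LSym lam sl 4 := hSLC
  have hπ : Prime lam := prime_lam
  have hl : (lam : Eis) ≠ 0 := hπ.ne_zero
  have hw : (w : Eis) ≠ 0 := IF1.w_ne
  have wr := w_rel
  have wc := w_cube
  have hx0 : x₀ ≠ 0 := by
    rintro rfl
    exact hc ⟨y₀, by rw [← hxy]; ring⟩
  have hBE : a₀ * a₁ * a₂ = (B : Eis) := by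
    rw [h0, h1, h2, ← hxy]
    push_cast
    linear_combination (w * (x₀ : Eis) ^ 3 + w * (y₀ : Eis) ^ 3 + w ^ 2 * x₀ * y₀ ^ 2 +
      w ^ 2 * x₀ ^ 2 * y₀ - (x₀ : Eis) ^ 3 - (y₀ : Eis) ^ 3) * wr
  have hBE0 : (B : Eis) ≠ 0 := IF1.cast_ne hB
  have ha012 : a₀ * a₁ * a₂ ≠ 0 := by rw [hBE]; exact hBE0
  have ha2 : a₂ ≠ 0 := right_ne_zero_of_mul ha012
  have ha01 : a₀ * a₁ ≠ 0 := left_ne_zero_of_mul ha012
  have ha0 : a₀ ≠ 0 := left_ne_zero_of_mul ha01
  have ha1 : a₁ ≠ 0 := right_ne_zero_of_mul ha01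
  have hsum : a₀ = -(a₁ + a₂) := by
    rw [h0, h1, h2]
    linear_combination ((x₀ : Eis) + y₀) * wr
  have hPQ : ¬ (P = 0 ∧ Q = 0) := by
    rintro ⟨rfl, rfl⟩
    apply hN
    ring
  -- bounds
  obtain ⟨Cα, hCα⟩ := bdd hπ hB hc (w ^ 2 * a₀ * a₁ * (a₂ * Q - P)) (a₁ * (a₂ * Q - w * P))
    (w ^ 2 * (a₁ * Q - P)) (by
      rintro ⟨g0, g1, -⟩
      have g0' : a₂ * Q - P = 0 := by
        rcases mul_eq_zero.1 g0 with h | h
        · exact absurd h (mul_ne_zero (mul_ne_zero (pow_ne_zero 2 hw) ha0) ha1)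
        · exact h
      have g1' : a₂ * Q - w * P = 0 := (mul_eq_zero.1 g1).resolve_left ha1
      have g2 : (w - 1) * P = 0 := by linear_combination g0' - g1'
      have g3 : P = 0 := (mul_eq_zero.1 g2).resolve_left w_ne_one
      have g4 : a₂ * Q = 0 := by rw [g3] at g0'; linear_combination g0'
      exact hPQ ⟨g3, (mul_eq_zero.1 g4).resolve_left ha2⟩)
  obtain ⟨Cβ, hCβ⟩ := bdd hπ hB hc (a₂ * (a₁ * Q + w ^ 2 * P)) (-(w ^ 2 * a₂ * Q + P)) 0 (by
      rintro ⟨g0, g1, -⟩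
      have g0' : a₁ * Q + w ^ 2 * P = 0 := (mul_eq_zero.1 g0).resolve_left ha2
      have g2 : (w - 1) * x₀ * Q = 0 := by
        rw [h1] at g0'
        rw [h2] at g1
        linear_combination g0' + w ^ 2 * g1 + (Q * w * x₀ - Q * w ^ 2 * y₀ - Q * w ^ 3 * x₀ +
          Q * w ^ 3 * y₀ + Q * w ^ 4 * x₀ - Q * x₀) * wr
      have g3 : Q = 0 := by
        rcases mul_eq_zero.1 g2 with h | h
        · exact absurd h (mul_ne_zero w_ne_one (IF1.cast_ne hx0))
        · exact h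
      refine hPQ ⟨?_, g3⟩
      rw [g3] at g1
      linear_combination -g1)
  obtain ⟨CH, hCH⟩ := bdd hπ hB hc (a₂ * (P - a₁ * Q)) (P - a₂ * Q) 0 (by
      rintro ⟨g0, g1, -⟩
      have g0' : P - a₁ * Q = 0 := (mul_eq_zero.1 g0).resolve_left ha2
      have g2 : (w - w ^ 2) * ((x₀ - y₀ : ℤ) : Eis) * Q = 0 := by
        rw [h1] at g0'
        rw [h2] at g1
        push_cast
        linear_combination g1 - g0'
      have g3 : Q = 0 := by
        rcases mul_eq_zero.1 g2 with h | h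
        · exact absurd h (mul_ne_zero w_sub_sq_ne (IF1.cast_ne (sub_ne_zero.2 hne)))
        · exact h
      refine hPQ ⟨?_, g3⟩
      rw [g3] at g1
      linear_combination g1)
  obtain ⟨Cx, hCx⟩ := bdd hπ hB hc (x₀ : Eis) (-1) 0 (by
    rintro ⟨-, g1, -⟩
    exact (neg_ne_zero.2 one_ne_zero) g1)
  obtain ⟨Cy, hCy⟩ := bdd hπ hB hc (-(y₀ : Eis)) 1 0 (by
    rintro ⟨-, g1, -⟩
    exact one_ne_zero g1)
  obtain ⟨Cs, hCs⟩ := bdd hπ hB hc 0 1 0 (by
    rintro ⟨-, g1, -⟩
    exact one_ne_zero g1)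
  obtain ⟨Cu, hCu⟩ := bdd hπ hB hc ((x₀ : Eis) + y₀) (-1) 0 (by
    rintro ⟨-, g1, -⟩
    exact (neg_ne_zero.2 one_ne_zero) g1)
  set NN : Eis := P ^ 3 + a₁ * a₂ ^ 2 * Q ^ 3 with hNN
  obtain ⟨M₁, hM₁⟩ : ∃ M₁ : ℕ, M₁ = V lam NN + (V lam 3 + V lam lam + V lam a₀ + (V lam a₁ +
    V lam a₁) + V lam a₂) + (Cy + Cy) + CH := ⟨_, rfl⟩
  refine ⟨Cα + Cβ + CH + Cx + Cy + Cs + Cu + M₁ + V lam 3 + V lam (B : Eis) + V lam a₀ + 20,
    fun s hsB => ?_⟩
  have hd : ∀ n : ℕ, n ≤ Cα + Cβ + CH + Cx + Cy + Cs + Cu + M₁ + V lam 3 + V lam (B : Eis) +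
      V lam a₀ + 20 → lam ^ n ∣ (s : Eis) ^ 3 - (B : Eis) := by
    intro n hn
    have e1 : ((3 : ℤ) : Eis) ^ (Cα + Cβ + CH + Cx + Cy + Cs + Cu + M₁ + V lam 3 +
        V lam (B : Eis) + V lam a₀ + 20) ∣ (s : Eis) ^ 3 - (B : Eis) := by
      obtain ⟨k, hk⟩ := hsB
      refine ⟨(k : Eis), ?_⟩
      have := congrArg (fun z : ℤ => (z : Eis)) hk
      push_cast at this
      push_cast
      exact this
    have e2 : lam ∣ ((3 : ℤ) : Eis) := by
      push_cast
      exact lam_dvd_three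
    exact (pow_dvd_pow lam hn).trans ((pow_dvd_pow_of_dvd e2 _).trans e1)
  -- the elements
  obtain ⟨hα0, -⟩ := hCα s (hd _ (by omega))
  obtain ⟨hβ0, -⟩ := hCβ s (hd _ (by omega))
  have hH := hCH s (hd _ (by omega))
  have hτ := hCx s (hd _ (by omega))
  have hσ := hCy s (hd _ (by omega))
  have hs0 := hCs s (hd _ (by omega))
  have hu := hCu s (hd _ (by omega))
  obtain ⟨δ, hδ⟩ : ∃ δ : Eis, δ = (s : Eis) ^ 3 - (B : Eis) := ⟨_, rfl⟩
  have hdδ : ∀ n : ℕ, n ≤ Cα + Cβ + CH + Cx + Cy + Cs + Cu + M₁ + V lam 3 + V lam (B : Eis) +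
      V lam a₀ + 20 → lam ^ n ∣ δ := by rw [hδ]; exact hd
  have hs3 : (s : Eis) ^ 3 = -(a₁ + a₂) * a₁ * a₂ + δ := by
    rw [hδ, ← hsum, hBE]
    ring
  obtain ⟨G, hG⟩ : ∃ G : Eis, -3 * a₂ * (P - w * a₂ * Q) *
        (a₁ * (w ^ 2 * -(a₁ + a₂) * a₂ + w ^ 2 * (s : Eis) ^ 2 + a₂ * s) * Q -
          w ^ 2 * (-(a₁ + a₂) * a₁ + w ^ 2 * a₁ * s + (s : Eis) ^ 2) * P) ^ 3 -
      w ^ 2 * (1 - w) * (w - w ^ 2) * ((w - w ^ 2) * s - w ^ 2 * a₁ + w * a₂) * -(a₁ + a₂) *
        a₁ ^ 2 * (P - w ^ 2 * a₂ * Q) * (a₂ * (a₁ - w ^ 2 * s) * Q +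
          (a₂ - w * s) * w ^ 2 * P) ^ 3 =
    (P ^ 3 + a₁ * a₂ ^ 2 * Q ^ 3) * (3 * (1 - w) * -(a₁ + a₂) * a₁ ^ 2 * a₂) *
        ((w - w ^ 2) * s - w ^ 2 * a₁ + w * a₂) ^ 2 * ((a₂ + s) * P - a₂ * (a₁ + s) * Q) +
      δ * G := ⟨_, KN_id w a₁ a₂ s P Q δ wr hs3⟩
  set α : Eis := w ^ 2 * a₀ * a₁ * (a₂ * Q - P) + a₁ * (a₂ * Q - w * P) * s +
    w ^ 2 * (a₁ * Q - P) * (s : Eis) ^ 2 with hα
  set β : Eis := a₂ * (a₁ * Q + w ^ 2 * P) + -(w ^ 2 * a₂ * Q + P) * s + 0 * (s : Eis) ^ 2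
    with hβ
  set H : Eis := a₂ * (P - a₁ * Q) + (P - a₂ * Q) * s + 0 * (s : Eis) ^ 2 with hHd
  set τ : Eis := (x₀ : Eis) + (-1) * s + 0 * (s : Eis) ^ 2 with hτd
  set σ : Eis := -(y₀ : Eis) + 1 * s + 0 * (s : Eis) ^ 2 with hσd
  have eσ : σ = (s : Eis) - y₀ := by rw [hσd]; ring
  have eα : a₁ * (w ^ 2 * -(a₁ + a₂) * a₂ + w ^ 2 * (s : Eis) ^ 2 + a₂ * s) * Q -
      w ^ 2 * (-(a₁ + a₂) * a₁ + w ^ 2 * a₁ * s + (s : Eis) ^ 2) * P = α := by
    rw [hα, ← hsum]
    linear_combination (P * a₁ * s * w - P * a₁ * s * w ^ 2) * wr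
  have eβ : a₂ * (a₁ - w ^ 2 * s) * Q + (a₂ - w * s) * w ^ 2 * P = β := by
    rw [hβ]
    linear_combination (P * s - P * s * w) * wr
  have eH : (a₂ + s) * P - a₂ * (a₁ + s) * Q = H := by
    rw [hHd]
    ring
  have eσ' : (w - w ^ 2) * (s : Eis) - w ^ 2 * a₁ + w * a₂ = (w - w ^ 2) * σ := by
    rw [eσ, h1, h2]
    linear_combination (w * (y₀ : Eis) - w ^ 2 * y₀) * wr
  have elam : (1 : Eis) - w = lam := lam_eq.symm
  have ew2 : ((w : Eis) - w ^ 2) ^ 2 = -3 := by decide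
  obtain ⟨U, hU⟩ : ∃ U : Eis, U = a₂ * (P - w * a₂ * Q) * α ^ 3 := ⟨_, rfl⟩
  obtain ⟨W, hW⟩ : ∃ W : Eis, W = w ^ 2 * lam * σ * a₀ * a₁ ^ 2 * (P - w ^ 2 * a₂ * Q) *
    β ^ 3 := ⟨_, rfl⟩
  obtain ⟨Z, hZ⟩ : ∃ Z : Eis, Z = NN * (3 * lam * a₀ * a₁ ^ 2 * a₂) * σ ^ 2 * H := ⟨_, rfl⟩
  have hUWZ : 3 * ((U - W) - Z) = δ * -G := by
    rw [eα, eβ, eH, eσ', ← hsum, elam, ← hNN] at hG
    rw [hU, hW, hZ]
    linear_combination -hG + (-w ^ 2 * lam * σ * a₀ * a₁ ^ 2 * (P - w ^ 2 * a₂ * Q) * β ^ 3 -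
      NN * (3 * lam * a₀ * a₁ ^ 2 * a₂) * σ ^ 2 * H) * ew2
  have hZV : Z ≠ 0 ∧ V lam Z ≤ M₁ := by
    rw [hZ, hM₁, pow_two, pow_two]
    exact V_add (V_add (V_add ⟨hN, le_rfl⟩ (V_add (V_add (V_add (V_add ⟨three_ne, le_rfl⟩
      ⟨hl, le_rfl⟩) ⟨ha0, le_rfl⟩) (V_add ⟨ha1, le_rfl⟩ ⟨ha1, le_rfl⟩)) ⟨ha2, le_rfl⟩))
      (V_add hσ hσ)) hH
  have hclose : ∀ n, n ≤ M₁ + 4 → lam ^ n ∣ (U - W) - Z := by
    intro n hn
    have e1 : lam ^ (n + V lam 3) ∣ 3 * ((U - W) - Z) := by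
      rw [hUWZ]
      exact Dvd.dvd.mul_right (hdδ _ (by omega)) _
    have e2 := IF1.dvd_cancel hπ three_ne le_rfl e1
    rwa [Nat.add_sub_cancel] at e2
  have hUW0 : U - W ≠ 0 :=
    (IF1.V_le (c := Z) (c' := U - W) (z := U - W) hπ hZV.1 (N := M₁ + 1) (by omega)
      (hclose _ (by omega)) dvd_rfl).1
  have hcore := core hs (t := 3) (a₀ := a₀) (a₁ := a₁) (a₂ := a₂) (σ := σ) (τ := τ)
    (L₁ := P - w * a₂ * Q) (L₂ := P - w ^ 2 * a₂ * Q) (N := NN) (H := H) (α := α) (β := β)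
    (U := U) (W := W) (Z := Z) hw hl three_ne ha0 ha1 ha2 hσ.1 hτ.1 hL₁ hL₂ hN hH.1 hα0 hβ0
    three_eq
    (by
      intro c hc0
      rw [hBE, ← hs.cont (B : Eis) ((s : Eis) ^ 3) c hBE0 hc0 (hd _ (by omega))]
      have e1 := hs0.1
      have e2 : (s : Eis) ≠ 0 := by
        intro h
        rw [h] at e1
        exact e1 (by ring)
      exact IF1.s_cube hs hc0 e2)
    (by
      intro c hc0
      have e0 : 3 * a₀ * τ * σ ≠ 0 := by
        have := hτ.1
        have := hσ.1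
        have := three_ne
        repeat' (first | assumption | (with_reducible apply mul_ne_zero) |
          (with_reducible apply pow_ne_zero))
      have eV : V lam (3 * a₀ * τ * σ) ≤ V lam 3 + V lam a₀ + Cx + Cy :=
        (V_add (V_add (V_add ⟨three_ne, le_rfl⟩ ⟨ha0, le_rfl⟩) hτ) hσ).2
      have e1 : lam ^ (V lam (-(3 * a₀ * τ * σ)) + 4) ∣
          (((x₀ : Eis) + y₀) + (-1) * s + 0 * (s : Eis) ^ 2) ^ 3 - -(3 * a₀ * τ * σ) := by
        have e2 : (((x₀ : Eis) + y₀) + (-1) * s + 0 * (s : Eis) ^ 2) ^ 3 -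
            -(3 * a₀ * τ * σ) = -δ := by
          rw [hδ, hτd, hσd, h0, ← hxy]
          push_cast
          ring
        rw [e2, dvd_neg, V_neg]
        exact hdδ _ (by omega)
      have e3 := hs.cont _ _ c (neg_ne_zero.2 e0) hc0 e1
      rw [IF1.s_cube hs hc0 hu.1, IF1.s_neg hs hc0 e0] at e3
      exact e3.symm)
    hU hW hZ hUW0
    (fun c hc0 => hs.cont Z (U - W) c hZV.1 hc0 (hclose _ (by have := hZV.2; omega)))
    (by
      rw [hHd, hσd, hτd, h1, h2]
      linear_combination (-P * s + Q * s * w * y₀ + Q * s * w ^ 2 * x₀ - Q * s * w ^ 2 * y₀ -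
        Q * s * w ^ 3 * x₀ + Q * s * w ^ 3 * y₀ + Q * s * w ^ 4 * x₀ + Q * w ^ 2 * x₀ * y₀ -
        Q * w ^ 3 * x₀ * y₀ + Q * w ^ 3 * x₀ ^ 2 - Q * w ^ 4 * x₀ ^ 2) * wr)
  refine ⟨?_, ?_⟩
  · rintro rfl
    apply hσ.1
    rw [eσ, sub_self]
  · rw [eσ] at hcore
    exact hcore

end Pool.Agent.PTK

end
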