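import Mathlib
import Pool.Agent.PTWX.C67
import Pool.Agent.PTWX.C70
import Pool.Agent.PTWX.C72
import Pool.Agent.PTWX.C74

/-! Parts: PTKX.ZSU, PTKX.CLV, PTKX.CNM -/

namespace Pool.Agent.PTK.CLV
end Pool.Agent.PTK.CLV

section

/-!
# PTK_ZSU: the classes of `VS` are in the minus part of the Selmer group, `q = 1 (mod 3)`
-/

set_option autoImplicit false

namespace Pool.Agent.PTK

open Pool.Agent.Lib_helper18 Pool.Agent.Lib_helper18.Eis Pool.Agent.Lib_helper84.Cub
open Pool.Agent.PT Pool.Agent.PTE Pool.Agent.PT3 Pool.Agent.PTN Pool.Agent.PT.EHYP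
open Pool.Agent.PT3.HYPT

open ZAUX in
/-- PTK_ZSU. -/
theorem ZSU_thm (hSTM : STM) (hSPP : SPP) (hSSL : SSL) (hSCJ : SCJ) (hLCL : LCL)
    (hZA : Stmt_ZA) (hZC : Stmt_ZC) : Stmt_ZSU := by
  classical
  intro h n m k π p e r f w0 c E q hn hh hE hq hq1 hcl hqn y hy
  obtain ⟨hz, ⟨t, hzt⟩, hsupp, hval, hfour⟩ := cls hZA hn y
  obtain ⟨hZ1, hZ2⟩ := hZC h n m k π p e r f w0 c hn hh y hy
  -- the place `q`
  obtain ⟨ρ, hρ⟩ := ENF.exists_pi hSPP hq hq1
  obtain ⟨κρ, hκρ⟩ := (hSPP.2.2.2.1 ρ).2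
  have hD := NPSU.dat hSPP hLCL hn (h := h) hE hq hq1 hcl hqn hρ
  have h' := HYPU.ext hn hE ρ hq hq1 hqn hρ
  have hlv := hD.bv
  have hlw := hD.bw
  have hi : ∀ i, Prime (π i).1 := fun i => (π i).2.1
  have h3 : ∀ i, ¬ (π i).1 ∣ 3 := fun i => (hSPP.2.2.2.1 (π i)).1
  have hB0 := int_ne hD.ne
  have : Fact (Nat.Prime 3) := ⟨Nat.prime_three⟩
  have hρκ : ρ ≠ κρ := by
    intro h4
    have h6 := not_assoc h' 0 0
    simp only [Fin.cons_zero] at h6
    apply h6
    rw [← hκρ, ← h4]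
  -- the symbol at `π i`
  have hpi : ∀ i, tm (π i).1 (zN π e y) ((BB h n E q : ℤ) : Eis) = 0 := by
    intro i
    unfold tm
    rw [hD.vi i, hD.ci i, hZ1 i, hval i]
    ring
  have hcj : ∀ i (κ : PP), κ.1 = conj (π i).1 →
      tm κ.1 (zN π e y) ((BB h n E q : ℤ) : Eis) = 0 := by
    intro i κ hκ
    rw [tm_conj_int hSTM hSPP hSCJ hκ hz hzt hD.ne, hpi i]
  -- the symbol at the other places except `q`
  have hoth : ∀ σ : PP, σ ≠ ρ → σ ≠ κρ → tm σ.1 (zN π e y) ((BB h n E q : ℤ) : Eis) = 0 := by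
    intro σ hσρ hσκ
    by_cases hπ : ∃ i, σ = π i ∨ σ.1 = conj (π i).1
    · obtain ⟨i, rfl | h4⟩ := hπ
      · exact hpi i
      · exact hcj i σ h4
    · have hσz : ¬ σ.1 ∣ zN π e y := fun h4 => hπ (hsupp σ h4)
      by_cases hσB : σ.1 ∣ ((BB h n E q : ℤ) : Eis)
      · rcases (dvd_iff hSPP hE σ).1 hσB with h5 | h5
        · rcases HYPS.cls hSPP hn σ.2.1 h5 with ⟨i, h6 | h6⟩ | ⟨j, h6⟩
          · exact absurd ⟨i, Or.inl (hSPP.2.1 _ _ h6)⟩ hπ
          · exfalso
            apply hπ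
            obtain ⟨κ, hκ⟩ := (hSPP.2.2.2.1 (π i)).2
            refine ⟨i, Or.inr ?_⟩
            rw [← hκ] at h6 ⊢
            rw [hSPP.2.1 _ _ h6]
          · obtain ⟨ρj, hρj⟩ := hSPP.2.2.2.2.1 (r j) (hn.rp j) (hn.r2 j)
            have h7 : σ = ρj := hSPP.2.1 _ _ (by rw [hρj]; exact h6)
            have h8 := hZ2 j σ (by rw [h7, hρj])
            unfold tm
            rw [h8, V_eq_zero hσz]
            simp
        · exfalso
          rw [hρ] at h5
          rcases σ.2.1.dvd_or_dvd h5 with h5 | h5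
          · exact hσρ (hSPP.2.1 _ _ (σ.2.1.associated_of_dvd ρ.2.1 h5))
          · apply hσκ
            rw [← hκρ] at h5
            exact hSPP.2.1 _ _ (σ.2.1.associated_of_dvd κρ.2.1 h5)
      · exact DCONST.tm_zero hσz hσB
  -- the symbol at `lam` with `3`
  have hsl3 : sl (zN π e y) 3 = - ∑ i, y i.succ * ((e i : ZMod 3) * sym (π i).1 3) := by
    have h2 := prodz hSTM hSPP hSCJ hn ∅ (by simp) hz hzt hsupp (x := 3) (by norm_num) (by
      intro σ hσ
      exfalso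
      push_cast at hσ
      exact (hSPP.2.2.2.1 σ).1 hσ)
    rw [Finset.sum_empty, sub_zero] at h2
    push_cast at h2
    rw [h2, ← Finset.sum_neg_distrib]
    refine Finset.sum_congr rfl fun i _ => ?_
    unfold tm
    rw [V_eq_zero (h3 i), ch_of_not_dvd (hi i) (h3 i), hval i]
    push_cast
    ring
  have hsl4 : sl (zN π e y) 4 = - y 0 := by rw [← hfour, neg_neg]
  have hcol0 : h ≠ 0 → y 0 * (wt ((n : ℤ) ^ 2) + w0) +
      ∑ i, y i.succ * ((e i : ZMod 3) * sym (π i).1 3) = 0 := by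
    intro h0
    have h1 := hy.2 (Sum.inl 0) (fun h4 => absurd h4 h0)
    rw [← h1]
    simp [Matrix.vecMul, dotProduct, PTN.Nm, Fin.sum_univ_succ]
  have hact : ¬ actR h n w0 → y 0 = 0 := hy.1
  have hslB : sl (zN π e y) ((BB h n E q : ℤ) : Eis) = 0 := by
    rw [sl_int hSSL hLCL hz _ hD.ne, hlv, hlw, hsl3, hsl4]
    obtain rfl | rfl | rfl : h = 0 ∨ h = 1 ∨ h = 2 := by omega
    · by_cases h4 : wt ((n : ℤ) ^ 2) + w0 = 0
      · rw [h4]
        simp
      · have h5 : y 0 = 0 := hact (by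
          rintro (h6 | h6)
          · omega
          · exact h4 h6.2)
        rw [h5]
        simp
    · have h5 : y 0 = 0 := hact (by
        rintro (h6 | h6)
        · omega
        · omega)
      have h6 := hcol0 (by omega)
      rw [h5, zero_mul, zero_add] at h6
      rw [h5, h6]
      simp
    · have h6 := hcol0 (by omega)
      have h7 := three_zero (∑ i, y i.succ * ((e i : ZMod 3) * sym (π i).1 3))
      push_cast
      linear_combination h6 - h7
  have hκB : tm κρ.1 (zN π e y) ((BB h n E q : ℤ) : Eis) =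
      tm ρ.1 (zN π e y) ((BB h n E q : ℤ) : Eis) :=
    tm_conj_int hSTM hSPP hSCJ hκρ hz hzt hD.ne
  have hρB : tm ρ.1 (zN π e y) ((BB h n E q : ℤ) : Eis) = 0 := by
    have h4 : sl (zN π e y) ((BB h n E q : ℤ) : Eis) =
        - (tm ρ.1 (zN π e y) ((BB h n E q : ℤ) : Eis) +
          tm κρ.1 (zN π e y) ((BB h n E q : ℤ) : Eis)) := by
      unfold sl
      have hsup : Function.support (fun σ : PP => tm σ.1 (zN π e y) ((BB h n E q : ℤ) : Eis)) ⊆
          (({ρ, κρ} : Finset PP) : Set PP) := by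
        intro σ hσ
        by_contra hnm
        apply hσ
        rw [Finset.mem_coe, Finset.mem_insert, Finset.mem_singleton, not_or] at hnm
        exact hoth σ hnm.1 hnm.2
      rw [finsum_eq_sum_of_support_subset _ hsup, Finset.sum_pair hρκ]
    rw [hslB, hκB] at h4
    have h5 := three_zero (tm ρ.1 (zN π e y) ((BB h n E q : ℤ) : Eis))
    linear_combination h5 - h4
  have hall : ∀ σ : PP, tm σ.1 (zN π e y) ((BB h n E q : ℤ) : Eis) = 0 := by
    intro σ
    by_cases h4 : σ = ρ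
    · rw [h4]
      exact hρB
    · by_cases h5 : σ = κρ
      · rw [h5, hκB]
        exact hρB
      · exact hoth σ h4 h5
  refine ⟨hz, ⟨t, hzt⟩, hall, ?_, ?_⟩
  · intro σ hσB
    have hσz : ¬ σ.1 ∣ zN π e y := by
      intro h4
      apply hσB
      obtain ⟨i, h5⟩ := hsupp σ h4
      have hVB : (π i).1 ∣ ((BB h n E q : ℤ) : Eis) := by
        by_contra h6
        have h7 := hD.vi i
        rw [V_eq_zero h6] at h7
        have := hn.pe i
        omega
      rcases h5 with rfl | h5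
      · exact hVB
      · rw [h5]
        have h6 := conj_dvd hVB
        rwa [conj_intCast] at h6
    rw [V_eq_zero hσz]
    exact dvd_zero 3
  · intro hlv1
    rw [hlv] at hlv1
    have h1 : h = 1 := by
      obtain rfl | rfl | rfl : h = 0 ∨ h = 1 ∨ h = 2 := by omega
      · exact absurd hlv1 (by decide)
      · rfl
      · exact absurd hlv1 (by decide)
    subst h1
    have h5 : y 0 = 0 := hact (by
      rintro (h6 | h6)
      · omega
      · omega)
    have h6 := hcol0 (by omega)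
    rw [h5, zero_mul, zero_add] at h6
    exact ⟨by rw [hsl3, h6, neg_zero], by rw [hsl4, h5, neg_zero]⟩

end Pool.Agent.PTK

end

section

/-!
# PTK_CLV: the distribution of the rank in a class, `q = 1 (mod 3)`
-/

set_option autoImplicit false

open NumberField IsDedekindDomain Finset
open scoped nonZeroDivisors Pointwise

namespace Pool.Agent.PTK

open Pool.Agent.Lib_helper18 Pool.Agent.Lib_helper18.Eis Pool.Agent.Lib_helper84.Cub
open Pool.Agent.PT Pool.Agent.PTE Pool.Agent.PT3 Pool.Agent.PTL Pool.Agent.PTN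

namespace CLV

/-- the identity for the tails -/
theorem li_eq (hESZ : Stmt_ESZ) (d τ : ℕ) :
    (1 - 1 / 3 ^ d) * LI (d - 1) τ + 1 / 3 ^ d * LI d (τ - 1) = LI (d + 1) τ := by
  have h1 := hESZ d (fun c => if τ ≤ c then 1 else 0)
  have h2 : (fun c => (if τ ≤ c + 1 then (1 : ℝ) else 0)) =
      fun c => if τ - 1 ≤ c then (1 : ℝ) else 0 := by
    funext c
    by_cases h : τ ≤ c + 1
    · rw [if_pos h, if_pos (by omega)]
    · rw [if_neg h, if_neg (by omega)]
  simp only [h2] at h1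
  rw [LAW.Esk_ind, LAW.Esk_ind, LAW.Esk_ind] at h1
  exact h1

/-- the empty configuration -/
theorem te0 {M' : ℕ} (V V₀ : Submodule (ZMod 3) (Fin M' → ZMod 3)) :
    TeC V V₀ (Fin.elim0 : Fin 0 → Fin M' → ZMod 3) (Fin.elim0 : Fin 0 → Fin 0) Fin.elim0 where
  ind := linearIndependent_empty_type
  mem i := i.elim0
  lt j := j.elim0
  inj j := j.elim0
  wl j := j.elim0

/-- the number of the classes -/
theorem log_le (h n : ℕ) {m k : ℕ} (π : Fin m → PP) (p e : Fin m → ℕ) (r : Fin k → ℕ)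
    (w0 : ZMod 3) (c : Fin m → ZMod 3) (B : ℤ) :
    Nat.log 3 (Nat.card (WqS h n π p e r w0 c B)) ≤ vN h n π p e r w0 c := by
  have h1 : Nat.card (WqS h n π p e r w0 c B) ≤ Nat.card (VS h n π p e r w0 c) := by
    refine Nat.card_le_card_of_injective
      (fun y => (⟨y.1, y.2.1⟩ : VS h n π p e r w0 c)) ?_
    intro y y' hy
    exact Subtype.ext (congrArg (fun z : VS h n π p e r w0 c => z.1) hy)
  have h2 : Nat.card (VS h n π p e r w0 c) = 3 ^ vN h n π p e r w0 c := by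
    rw [Module.natCard_eq_pow_finrank (K := ZMod 3), Nat.card_zmod]
    rfl
  rw [h2] at h1
  calc Nat.log 3 (Nat.card (WqS h n π p e r w0 c B)) ≤ Nat.log 3 (3 ^ vN h n π p e r w0 c) :=
        Nat.log_mono_right h1
    _ = vN h n π p e r w0 c := Nat.log_pow (by norm_num) _

end CLV

open _root_.Pool.Agent.PTK.CLV BDENS in
/-- CLV: the distribution of the rank in a class, `q = 1 (mod 3)`. -/
theorem CLV_thm (hNHPT : Stmt_NHPT) (hPLE : Stmt_PLE) (hDLU : Stmt_DLU) (hSMT : Stmt_SMT)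
    (hPAT : Stmt_PAT) (hZPV : Stmt_ZPV) (hNBX : Stmt_NBX) (hMTZ : Stmt_MTZ)
    (hESZ : Stmt_ESZ) : Stmt_CLV := by
  classical
  intro h n m k π p e r f w0 c hNF hh t
  have hn0 : 0 < n := by
    rw [hNF.eq]
    exact Nat.mul_pos (Finset.prod_pos fun i _ => pow_pos (hNF.pp i).pos _)
      (Finset.prod_pos fun j _ => pow_pos (hNF.rp j).pos _)
  obtain ⟨d, V, hd, hAd, hspan, hHP⟩ := hNHPT h n m k π p e r f w0 c hNF hh
  have hHB : HB h n π w0 c V := ⟨hAd, hspan, hHP⟩
  obtain ⟨s, ty, b, X, Y, P, Q, P', Q', hs, hPl⟩ := hPLE h n m k π p e r f w0 c hNF hh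
  have hsd : s = d := hs.trans hd.symm
  subst hsd
  rw [← hd]
  obtain ⟨τ, hτ⟩ : ∃ τ, τ = t - vN h n π p e r w0 c := ⟨_, rfl⟩
  rw [← hτ]
  obtain ⟨M1, hM1⟩ := hPAT s V fun i => (hAd i).1.ne
  obtain ⟨M2, hM2⟩ := hZPV h n m k π p e r f w0 c s ty b X Y P Q P' Q' s V hNF hh hPl hHB
  have hU := hDLU h n m k π p e r f w0 c s V hNF hh hHB
  obtain ⟨KM, hKM⟩ := hMTZ h n m k π p e r f w0 c s ty b X Y P Q P' Q' hNF hh hPl 0 0
    Fin.elim0 Fin.elim0 Fin.elim0 (te0 _ _) (τ - 1)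
  -- the primes outside of `ZP V`
  have hA : ∀ E : ℕ, ∃ K : ℝ, ∀ σ : ℝ, 1 < σ → σ ≤ 2 → 2 * sm (WR h n π w0 c 1 E t \ ZP V) σ ≤
      ∑ i : {δ : Fin s → ZMod 3 // δ ≠ 0}, sm (WR h n π w0 c 1 E t ∩ Pat V i.1) σ + K := by
    intro E
    refine (hSMT {δ : Fin s → ZMod 3 // δ ≠ 0} (WR h n π w0 c 1 E t \ ZP V) ∅ ∅
      (fun i => WR h n π w0 c 1 E t ∩ Pat V i.1) M1).1 ?_
    intro q hq hMq hqS
    rcases hM1 q hq hMq hqS.1.1 with h1 | ⟨δ, δ', h1, h2, h3, h4, h5⟩
    · exact absurd h1 hqS.2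
    · exact ⟨⟨δ, h1⟩, ⟨δ', h2⟩, fun h6 => h3 (congrArg Subtype.val h6), ⟨hqS.1, h4⟩,
        ⟨hqS.1, h5⟩⟩
  -- the primes of `ZP V`
  have hB : ∀ E : ℕ, (E = 1 ∨ E = 2) → ∃ K : ℝ, ∀ σ : ℝ, 1 < σ → σ ≤ 2 →
      sm (WR h n π w0 c 1 E t) σ ≤ sm (WR h n π w0 c 1 E t \ ZP V) σ +
        sm {q | (q ∈ QM h n π e w0 c (Fin.elim0 : Fin 0 → Fin (m + 1) → ZMod 3)
          (Fin.elim0 : Fin 0 → Fin 0) 1 E ∧ q ∈ ZP b) ∧
          τ - 1 ≤ kS h n b X Y P Q P' Q' E q} σ + K := by
    intro E hE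
    refine (hSMT PUnit (WR h n π w0 c 1 E t) (WR h n π w0 c 1 E t \ ZP V) _
      (fun _ => ∅) (n + 3 + M2)).2.2 ?_
    intro q hq hMq hqS
    by_cases hZ : q ∈ ZP V
    · right
      have hZb := hM2 q hq (by omega) hZ
      refine ⟨⟨⟨hqS.1, hqS.2.1, fun j => j.elim0⟩, hZb⟩, ?_⟩
      have h1 := CubeRank.rr_le (hNBX h n m k π p e r f w0 c s ty b X Y P Q P' Q' E q hNF hh hPl
        hE hq (by omega) hqS.1 hqS.2.1 (fun hd => by
          have := Nat.le_of_dvd hn0 hd
          omega) hZb)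
      have h2 := log_le h n π p e r w0 c (BB h n E q)
      have h3 := hqS.2.2
      omega
    · left
      exact ⟨hqS, hZ⟩
  obtain ⟨KA1, hA1⟩ := hA 1
  obtain ⟨KA2, hA2⟩ := hA 2
  obtain ⟨KB1, hB1⟩ := hB 1 (Or.inl rfl)
  obtain ⟨KB2, hB2⟩ := hB 2 (Or.inr rfl)
  choose KU hKU using fun δ : {δ : Fin s → ZMod 3 // δ ≠ 0} => hU δ.1 δ.2 t
  have hcard := CLU.card_ne s
  refine ⟨KB1 + KB2 + (KA1 + KA2 + ∑ i, KU i) / 2 + KM, fun σ hσ hσ2 => ?_⟩
  have a1 := hA1 σ hσ hσ2
  have a2 := hA2 σ hσ hσ2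
  have b1 := hB1 σ hσ hσ2
  have b2 := hB2 σ hσ hσ2
  have c0 := hKM σ hσ hσ2
  obtain ⟨Lg, hLg⟩ : ∃ Lg, Lg = Real.log (1 / (σ - 1)) := ⟨_, rfl⟩
  have u1 : ∑ i : {δ : Fin s → ZMod 3 // δ ≠ 0}, sm (WR h n π w0 c 1 1 t ∩ Pat V i.1) σ +
      ∑ i : {δ : Fin s → ZMod 3 // δ ≠ 0}, sm (WR h n π w0 c 1 2 t ∩ Pat V i.1) σ ≤
      (3 ^ s - 1) * (2 / 3 ^ s * LI (s - 1) τ / 3 ^ (m + 1) * Lg) + ∑ i, KU i := by
    rw [← Finset.sum_add_distrib, ← hcard, ← nsmul_eq_mul, ← Finset.card_univ,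
      ← Finset.sum_const, ← Finset.sum_add_distrib, hLg, hτ]
    exact Finset.sum_le_sum fun i _ => hKU i σ hσ hσ2
  rw [← hLg] at c0 ⊢
  have e1 : (3 ^ s - 1 : ℝ) * (2 / 3 ^ s * LI (s - 1) τ / 3 ^ (m + 1) * Lg) =
      2 * ((1 - 1 / 3 ^ s) * LI (s - 1) τ / 3 ^ (m + 1) * Lg) := by
    field_simp
  have e2 : (1 / 3 ^ s / 3 ^ 0 / 3 ^ (m + 1) * LI s (τ - 1) * Lg : ℝ) =
      1 / 3 ^ s * LI s (τ - 1) / 3 ^ (m + 1) * Lg := by
    rw [pow_zero, div_one]
    ring
  have e3 : LI (s + 1) τ / 3 ^ (m + 1) * Lg = (1 - 1 / 3 ^ s) * LI (s - 1) τ / 3 ^ (m + 1) * Lg +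
      1 / 3 ^ s * LI s (τ - 1) / 3 ^ (m + 1) * Lg := by
    rw [← li_eq hESZ s τ]
    ring
  rw [e1] at u1
  rw [e2] at c0
  rw [e3]
  linarith

end Pool.Agent.PTK

end

section

/-!
# PTK_CNM: the pairs and the law

`Prs α β` says that `r ↦ (α r, β r)` is an enumeration of the pairs `i < j` of `Fin l`; such an enumeration exists, since
the set of these pairs is finite. For `i < j` only the index `r` with `(α r, β r) = (i, j)` contributes to
`altZ α β M i j`, which is therefore `M r`, and `altZ α β M j i = - M r`, `altZ α β M i i = 0`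
(no `r` has `α r = β r`). A matrix with `A i j = - A j i` over the field with three elements has zero diagonal, and is
determined by its entries above the diagonal, so `M ↦ altZ α β M` is a bijection of `Fin N → ZMod 3` onto the matrices
with `Aᵀ = - A`; the number of these is `3 ^ N`, and the average over them is the average over the `M`.
-/

set_option autoImplicit false

open NumberField IsDedekindDomain Finset
open scoped nonZeroDivisors Pointwise

namespace Pool.Agent.PTK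

open Pool.Agent.Lib_helper18 Pool.Agent.Lib_helper18.Eis Pool.Agent.Lib_helper84.Cub
open Pool.Agent.PT Pool.Agent.PTE Pool.Agent.PT3 Pool.Agent.PTL Pool.Agent.PTN

namespace CNM

variable {l N : ℕ} {α β : Fin N → Fin l}

/-- the entries of the matrix at an enumerated pair -/
theorem altZ_pos (h : Prs α β) (M : Fin N → ZMod 3) (r : Fin N) :
    altZ α β M (α r) (β r) = M r := by
  classical
  unfold altZ
  have h1 : (∑ s, if α s = α r ∧ β s = β r then M s else 0) = M r := by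
    rw [Finset.sum_eq_single r]
    · simp
    · intro s _ hs
      rw [if_neg]
      rintro ⟨h1, h2⟩
      exact hs (h.inj s r h1 h2)
    · intro hr
      exact absurd (Finset.mem_univ r) hr
  have h2 : (∑ s, if α s = β r ∧ β s = α r then M s else 0) = 0 := by
    apply Finset.sum_eq_zero
    intro s _
    rw [if_neg]
    rintro ⟨h1, h2⟩
    have h3 := h.lt s
    have h4 := h.lt r
    rw [h1, h2] at h3
    exact lt_asymm h3 h4
  rw [h1, h2, sub_zero]

/-- the matrix is antisymmetric -/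
theorem altZ_anti (M : Fin N → ZMod 3) (i j : Fin l) : altZ α β M i j = - altZ α β M j i := by
  unfold altZ
  ring

/-- the diagonal of an antisymmetric matrix over the field with three elements is zero -/
theorem zero_of_neg {a : ZMod 3} (h : a = -a) : a = 0 := by
  revert h
  revert a
  decide

/-- an antisymmetric matrix is determined by its entries at the enumerated pairs -/
theorem altZ_of (h : Prs α β) (A : Matrix (Fin l) (Fin l) (ZMod 3))
    (hA : ∀ i j, A i j = - A j i) : altZ α β (fun r => A (α r) (β r)) = A := by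
  ext i j
  rcases lt_trichotomy i j with hij | hij | hij
  · obtain ⟨r, h1, h2⟩ := h.sur i j hij
    have h3 := altZ_pos h (fun r => A (α r) (β r)) r
    rw [h1, h2] at h3
    exact h3
  · subst hij
    rw [zero_of_neg (altZ_anti _ i i), zero_of_neg (hA i i)]
  · obtain ⟨r, h1, h2⟩ := h.sur j i hij
    have h3 := altZ_pos h (fun r => A (α r) (β r)) r
    rw [h1, h2] at h3
    rw [altZ_anti, h3, ← hA i j]

/-- the bijection of the entries and the antisymmetric matrices -/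
noncomputable def eqz (h : Prs α β) :
    (Fin N → ZMod 3) ≃ {M : Matrix (Fin l) (Fin l) (ZMod 3) // M.transpose = -M} where
  toFun M := ⟨altZ α β M, by
    ext i j
    rw [Matrix.transpose_apply, Matrix.neg_apply, altZ_anti]⟩
  invFun A := fun r => A.1 (α r) (β r)
  left_inv M := by
    funext r
    exact altZ_pos h M r
  right_inv A := by
    apply Subtype.ext
    apply altZ_of h A.1
    intro i j
    have h1 := congrFun (congrFun A.2 j) i
    rw [Matrix.transpose_apply, Matrix.neg_apply] at h1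
    exact h1

/-- an enumeration of the pairs exists -/
theorem exPrs (l : ℕ) : ∃ (N : ℕ) (α β : Fin N → Fin l), Prs α β := by
  classical
  obtain ⟨N, ⟨e⟩⟩ := Finite.exists_equiv_fin {p : Fin l × Fin l // p.1 < p.2}
  refine ⟨N, fun r => (e.symm r).1.1, fun r => (e.symm r).1.2, ?_, ?_, ?_⟩
  · intro r
    exact (e.symm r).2
  · intro r r' h1 h2
    exact e.symm.injective (Subtype.ext (Prod.ext h1 h2))
  · intro i j hij
    refine ⟨e ⟨(i, j), hij⟩, ?_, ?_⟩ <;> simp

end CNM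

/-- PTK_CNM. -/
theorem CNM_thm : Stmt_CNM := by
  refine ⟨CNM.exPrs, ?_⟩
  intro l N α β h
  refine ⟨fun A hA => CNM.altZ_of h A hA, ?_⟩
  intro g
  unfold Esk
  have h1 : (∑ᶠ M : {M : Matrix (Fin l) (Fin l) (ZMod 3) // M.transpose = -M},
      g (l - M.1.rank)) = ∑ M : Fin N → ZMod 3, g (l - (altZ α β M).rank) := by
    rw [← finsum_comp_equiv (CNM.eqz h), finsum_eq_sum_of_fintype]
    rfl
  have h2 : Nat.card {M : Matrix (Fin l) (Fin l) (ZMod 3) // M.transpose = -M} = 3 ^ N := by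
    rw [← Nat.card_congr (CNM.eqz h), Nat.card_eq_fintype_card]
    simp
  rw [h1, h2]
  push_cast
  rfl

end Pool.Agent.PTK

end
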