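import Mathlib
import Pool.Agent.PTWX.C58
import Pool.Agent.PTWX.C59
import Pool.Agent.PTWX.C60
import Pool.Agent.PTWX.C67
import Pool.Agent.PTWX.C82

/-! Parts: PTKX.ZS1, PTKX.MSF, PTKX.DXL, PTKX.AVR, PTKX.AV2, PTKX.FL2 -/

namespace Pool.Agent.PTK.MSF
end Pool.Agent.PTK.MSF

namespace Pool.Agent.PTK.DXL
end Pool.Agent.PTK.DXL

namespace Pool.Agent.PTK.AVR
end Pool.Agent.PTK.AVR

namespace Pool.Agent.PTK.AV2
end Pool.Agent.PTK.AV2

section

/-!
# PTK_ZS1: the primes of `QMM` are in `SPZU`, `SMZU` (`q = 1 (mod 3)`)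
-/

set_option autoImplicit false

open NumberField IsDedekindDomain Finset
open scoped nonZeroDivisors Pointwise

namespace Pool.Agent.PTK

open Pool.Agent.Lib_helper18 Pool.Agent.Lib_helper18.Eis Pool.Agent.Lib_helper84.Cub
open Pool.Agent.PT Pool.Agent.PTE Pool.Agent.PT3 Pool.Agent.PTL Pool.Agent.PTN

namespace ZS1

/-- the entry of the matrix outside the diagonal -/
theorem MaZ_ne {l : ℕ} {z : Fin l → Eis} {P Q P' Q' : Fin l → Fin l → Eis} {B : ℤ} {j i : Fin l}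
    (h : j ≠ i) : MaZ z P Q P' Q' B j i =
      OZE B (z j) (z i) (P j i) (Q j i) (P' j i) (Q' j i) := by
  unfold MaZ
  rw [if_neg h]

end ZS1

open MSKU in
/-- PTK_ZS1. -/
theorem ZS1_thm (hDE1 : Stmt_DE1) (hZSU : Stmt_ZSU) (hZA : Stmt_ZA) (hSPP : SPP) :
    Stmt_ZS1 := by
  classical
  intro h n m k π p e r f w0 c hNF hh l N y U R U' R' α β hM
  have hn0 : 0 < n := PT.FINA.pos_of_nf hNF
  have hN0 : 0 < 3 ^ h * n := Nat.mul_pos (pow_pos (by norm_num) _) hn0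
  have hBB : ∀ E q : ℕ, ((BB h n E q : ℤ) : Eis) = ((3 ^ h * n : ℕ) : Eis) * (q : Eis) ^ E := by
    intro E q
    unfold BB
    push_cast
    ring
  have hA := fun i => hZA n m k π p e r f hNF (y i)
  have hunr : ∀ (i : Fin l) (σ : PP), ¬ σ.1 ∣ ((3 ^ h * n : ℕ) : Eis) → ¬ σ.1 ∣ zN π e (y i) := by
    intro i σ hσ
    refine (hA i).2.2.2.1 σ fun h2 => hσ ?_
    push_cast
    exact Dvd.dvd.mul_left h2 _
  have hnd : ∀ (v : Fin (m + 1) → ZMod 3) (q : ℕ) (ρ : PP), q.Prime →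
      (q : Eis) = ρ.1 * conj ρ.1 → ¬ q ∣ n → ¬ ρ.1 ∣ zN π e v := by
    intro v q ρ hq hρ hqn
    obtain ⟨-, -, -, h4, -⟩ := hZA n m k π p e r f hNF v
    exact h4 ρ (not_dvd hq hρ hqn)
  have hne : ∀ j, α j ≠ β j := fun j => (hM.prs.lt j).ne
  have hHyp : ∀ j, HypE (3 ^ h * n) (zN π e (y (α j))) (zN π e (y (β j))) (U (α j) (β j))
      (R (α j) (β j)) (U' (α j) (β j)) (R' (α j) (β j)) := fun j =>
    ⟨hN0, hM.sys.sol (α j) (β j) (hne j), (hA _).1, (hA _).1,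
      fun σ hσ => ⟨hunr _ σ hσ, hunr _ σ hσ⟩, SYK.VN_le hSPP hNF h⟩
  choose F0 hF0 hF1 using fun j => hDE1 (3 ^ h * n) _ _ _ _ _ _ (hHyp j)
  refine ⟨∏ j, F0 j, Finset.prod_pos fun j _ => hF0 j, fun F hFpos hFd κ hκ1 => ?_⟩
  choose C Φ N₀ hC using fun j => hF1 j F hFpos
    ((Finset.dvd_prod_of_mem F0 (mem_univ j)).trans hFd)
  have hMN : ∀ j, N₀ j ≤ ∑ j, N₀ j := fun j =>
    Finset.single_le_sum (f := N₀) (fun i _ => Nat.zero_le _) (mem_univ j)
  have hmain : ∀ (E q : ℕ) (M : Fin N → ZMod 3), (E = 1 ∨ E = 2) → q.Prime →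
      3 ^ h * n + F + ∑ j, N₀ j < q → q ∈ QMM h n π e w0 c y U R U' R' α β M 1 E →
      ∃ hQ : q.Coprime F, ∀ ρ : PP, (q : Eis) = ρ.1 * conj ρ.1 →
        (∀ i, sym ρ.1 (zN π e (y i)) = 0) ∧
        ∀ (j : Fin N) (ξ ξ' : Eis), ρ.1 ∣ ξ ^ 3 - zN π e (y (α j)) →
          conj ρ.1 ∣ ξ' ^ 3 - zN π e (y (α j)) →
          M j = C j + E * ((Φ j (ZMod.unitOfCoprime q hQ)).toAdd -
            TAUP ρ.1 (U (α j) (β j)) (R (α j) (β j)) (U' (α j) (β j)) (R' (α j) (β j)) ξ -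
            TAUP (conj ρ.1) (U (α j) (β j)) (R (α j) (β j)) (U' (α j) (β j))
              (R' (α j) (β j)) ξ') := by
    intro E q M hE hq hqM ⟨hq3, hIn, hMY⟩
    have hqN : ¬ q ∣ 3 ^ h * n := fun h => by
      have := Nat.le_of_dvd hN0 h
      omega
    have hqn : ¬ q ∣ n := fun h => hqN (Dvd.dvd.mul_left h _)
    have hQ : q.Coprime F := by
      rw [Nat.Prime.coprime_iff_not_dvd hq]
      intro h
      have := Nat.le_of_dvd hFpos h
      omega
    have hSel : ∀ v ∈ VS h n π p e r w0 c, ∀ σ : PP,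
        tm σ.1 (zN π e v) (((3 ^ h * n : ℕ) : Eis) * (q : Eis) ^ E) = 0 := by
      intro v hv σ
      have h1 := (hZSU h n m k π p e r f w0 c E q hNF hh hE hq hq3 hIn hqn v hv).sym σ
      rwa [hBB] at h1
    refine ⟨hQ, fun ρ hρ => ⟨fun i => sym_zero hq hq3 hρ hE hqN (hnd (y i) q ρ hq hρ hqn)
      (hSel (y i) (hM.bas.mem i)), ?_⟩⟩
    intro j ξ ξ' hξ hξ'
    have h1 := hC j E q hQ ρ hE hq (by have := hMN j; omega) hq3 hρ (hSel _ (hM.bas.mem _))
      (hSel _ (hM.bas.mem _)) ξ ξ' hξ hξ'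
    have h2 := hMY j
    unfold MY at h2
    rw [ZS1.MaZ_ne (hne j), hBB] at h2
    rw [← h2]
    exact h1
  refine ⟨C, CTK.assemble Φ, 3 ^ h * n + F + ∑ j, N₀ j, fun q M hq hqM => ⟨fun hqY => ?_,
    fun hqY => ?_⟩⟩
  · obtain ⟨hQ, h2⟩ := hmain 1 q M (Or.inl rfl) hq hqM hqY
    obtain ⟨hq3, hIn, -⟩ := hqY
    refine ⟨hQ, hq3, ?_, fun ρ hρ => ⟨(h2 ρ hρ).1, fun j ξ ξ' hξ hξ' => ?_⟩⟩
    · rw [hκ1]
      funext i
      refine Fin.cases ?_ (fun i => ?_) i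
      · rw [Fin.cons_zero, Fin.cons_zero]
        have h5 := hIn.1
        rw [pow_one] at h5
        exact h5
      · rw [Fin.cons_succ, Fin.cons_succ]
        have h5 := hIn.2 i
        rw [Nat.cast_one, one_mul] at h5
        exact h5
    · have h5 := (h2 ρ hρ).2 j ξ ξ' hξ hξ'
      rw [CTK.assemble_apply, Pi.sub_apply]
      rw [Nat.cast_one, one_mul] at h5
      linear_combination h5
  · obtain ⟨hQ, h2⟩ := hmain 2 q M (Or.inr rfl) hq hqM hqY
    obtain ⟨hq3, hIn, -⟩ := hqY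
    refine ⟨hQ, hq3, ?_, fun ρ hρ => ⟨(h2 ρ hρ).1, fun j ξ ξ' hξ hξ' => ?_⟩⟩
    · rw [hκ1]
      funext i
      refine Fin.cases ?_ (fun i => ?_) i
      · rw [Fin.cons_zero, Pi.neg_apply, Fin.cons_zero]
        have h5 := hIn.1
        rw [wt_sq hq3] at h5
        exact CTK.neg_of_two h5
      · rw [Fin.cons_succ, Pi.neg_apply, Fin.cons_succ]
        exact CTK.neg_of_two (hIn.2 i)
    · have h5 := (h2 ρ hρ).2 j ξ ξ' hξ hξ'
      rw [CTK.assemble_apply, Pi.sub_apply]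
      rw [show ((2 : ℕ) : ZMod 3) = -1 from by decide] at h5
      linear_combination -h5

end Pool.Agent.PTK

end

section

/-!
# PTK_MSF: existence of the solutions for the matrix of the minus part
-/

set_option autoImplicit false

open NumberField IsDedekindDomain Finset
open scoped nonZeroDivisors Pointwise

namespace Pool.Agent.PTK

open Pool.Agent.Lib_helper18 Pool.Agent.Lib_helper18.Eis Pool.Agent.Lib_helper84.Cub
open Pool.Agent.PT Pool.Agent.PTE Pool.Agent.PT3 Pool.Agent.PTL Pool.Agent.PTN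
open Pool.Agent.PT.EHYP

namespace MSF

variable {h n m k : ℕ} {π : Fin m → PP} {p e : Fin m → ℕ} {r f : Fin k → ℕ}
  {w0 : ZMod 3} {c : Fin m → ZMod 3}

/-- `zN π e y` as a product of primary elements if `y 0 = 0` -/
theorem zN_eq {y : Fin (m + 1) → ZMod 3} (hy0 : y 0 = 0) :
    zN π e y = ∏ i, ((π i).1 ^ ((e i : ZMod 3) * y i.succ).val *
      conj (π i).1 ^ (2 * ((e i : ZMod 3) * y i.succ)).val) := by
  unfold zN
  rw [hy0, neg_zero, ZMod.val_zero, pow_zero, one_mul]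

theorem prim (hn : NF n π p e r f) {y : Fin (m + 1) → ZMod 3} (hy0 : y 0 = 0) :
    Prim (zN π e y) ∧ (zN π e y).norm % 9 = 1 := by
  have hexp : ∀ a : ZMod 3, (a.val = 0 ∧ (2 * a).val = 0) ∨ a.val + (2 * a).val = 3 := by
    decide
  rw [zN_eq hy0]
  refine Finset.prod_induction _ (fun x => Prim x ∧ x.norm % 9 = 1) ?_ ?_ ?_
  · rintro a b ⟨ha, ha'⟩ ⟨hb, hb'⟩
    refine ⟨ha.mul hb, ?_⟩
    rw [Eis.norm_mul, Int.mul_emod, ha', hb']
    norm_num
  · exact ⟨Eis.prim_one, by simp [norm_def]⟩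
  · intro i _
    refine ⟨((ZL.prim_PP (π i)).pow _).mul ((ZL.prim_PP (π i)).conj.pow _), ?_⟩
    have h1 : (conj (π i).1).norm = p i := by
      rw [norm_conj, norm_eq hn]
    have hpw : ∀ (x : Eis) (k : ℕ), (x ^ k).norm = x.norm ^ k := by
      intro x k
      induction k with
      | zero => simp [norm_def]
      | succ k ih => rw [pow_succ, Eis.norm_mul, ih, pow_succ]
    rw [Eis.norm_mul, hpw, hpw, h1, norm_eq hn, ← pow_add]
    rcases hexp ((e i : ZMod 3) * y i.succ) with ⟨h2, h3⟩ | h2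
    · rw [h2, h3]
      norm_num
    · rw [h2]
      have h4 := hn.p1 i
      obtain ⟨c, hc⟩ : ∃ c : ℤ, (p i : ℤ) = 1 + 3 * c := ⟨(p i : ℤ) / 3, by omega⟩
      have h5 : (p i : ℤ) ^ 3 = 1 + 9 * (c + 3 * c ^ 2 + 3 * c ^ 3) := by
        rw [hc]
        ring
      rw [h5]
      omega

theorem sl3 (hSPP : SPP) (hSSL : SSL) (hSCJ : SCJ) {y : Fin (m + 1) → ZMod 3} (hy0 : y 0 = 0) :
    sl (zN π e y) 3 = - ∑ i : Fin m, y i.succ * ((e i : ZMod 3) * sym (π i).1 3) := by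
  have hcn : ∀ i, (conj (π i).1) ≠ 0 := fun i => (prime_conj (π i).2.1).ne_zero
  have hF := add3_sl hSSL ZL.three_ne
  rw [zN_eq hy0]
  obtain ⟨g, hg⟩ : ∃ g : Fin m → ZMod 3, g = fun i => (e i : ZMod 3) * y i.succ := ⟨_, rfl⟩
  have hgi : ∀ i, (e i : ZMod 3) * y i.succ = g i := fun i => by rw [hg]
  simp only [hgi]
  have h1 : sl (∏ i, ((π i).1 ^ (g i).val * conj (π i).1 ^ (2 * g i).val)) 3 =
      ∑ i, sl ((π i).1 ^ (g i).val * conj (π i).1 ^ (2 * g i).val) 3 :=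
    hF.prod Finset.univ
      (fun i => (π i).1 ^ (g i).val * conj (π i).1 ^ (2 * g i).val) (fun i _ =>
        mul_ne_zero (pow_ne_zero _ (π i).2.1.ne_zero) (pow_ne_zero _ (hcn i)))
  rw [h1]
  have h2 : ∀ i, sl ((π i).1 ^ (g i).val * conj (π i).1 ^ (2 * g i).val) 3 =
      - (g i * sym (π i).1 3) := by
    intro i
    have h3 : sl ((π i).1 ^ (g i).val * conj (π i).1 ^ (2 * g i).val) 3 =
        sl ((π i).1 ^ (g i).val) 3 + sl (conj (π i).1 ^ (2 * g i).val) 3 :=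
      hF ((π i).1 ^ (g i).val) (conj (π i).1 ^ (2 * g i).val)
        (pow_ne_zero _ (π i).2.1.ne_zero) (pow_ne_zero _ (hcn i))
    have h4 : sl ((π i).1 ^ (g i).val) 3 = ((g i).val : ZMod 3) * sl (π i).1 3 :=
      hF.pow (π i).2.1.ne_zero (g i).val
    have h5 : sl (conj (π i).1 ^ (2 * g i).val) 3 =
        ((2 * g i).val : ZMod 3) * sl (conj (π i).1) 3 := hF.pow (hcn i) (2 * g i).val
    rw [h3, h4, h5, ZL.sl_three hSPP, ZL.sl_conj_three hSPP hSCJ, ZMod.natCast_zmod_val,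
      ZMod.natCast_zmod_val]
    ring
  rw [Finset.sum_congr rfl fun i _ => h2 i, Finset.sum_neg_distrib]
  congr 1
  refine Finset.sum_congr rfl fun i _ => ?_
  rw [hg]
  ring

/-- the solution with a base prime to `w` outside `V0` -/
theorem sol2 (hHN2 : Stmt_HN2) (hZA : Stmt_ZA) (hZT : Stmt_ZT) (hSPP : SPP) (hSSL : SSL)
    (hSREC : SREC) (hSCJ : SCJ) (hn : NF n π p e r f) (hh : h ≤ 2)
    {u y : Fin (m + 1) → ZMod 3} (hu : u ∈ VS h n π p e r w0 c)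
    (hu1 : u ∉ V0 h n π p e r w0 c) (hu2 : u 0 = 0) (hy : y ∈ VS h n π p e r w0 c)
    (hu0 : u ≠ 0) (hy0 : y ≠ 0) :
    ∃ P Q P' Q' : Eis, SolE (zN π e u) (zN π e y) P Q P' Q' := by
  have hAy := hZA n m k π p e r f hn y
  have hAu := hZA n m k π p e r f hn u
  have hcy : ¬ ∃ c : Eis, c ^ 3 = zN π e y := fun h1 => hy0 (hAy.2.2.2.2.2.2.2.2.2 h1)
  have hcu : ¬ ∃ c : Eis, c ^ 3 = zN π e u := fun h1 => hu0 (hAu.2.2.2.2.2.2.2.2.2 h1)
  have hT := hZT h n m k π p e r f w0 c hn hh u hu y hy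
  have hP := prim hn hu2
  have hne : sl (zN π e u) lam ≠ 0 := by
    intro h0
    have h1 := ZL.sl_prim hSSL hSREC hP.1 hP.2
    rw [sl3 hSPP hSSL hSCJ hu2] at h1
    rw [hSREC.2.2.1 _ hP.1, ← h1] at h0
    apply hu1
    refine ⟨hu, hu2, ?_⟩
    have h3 := three_zero (∑ i : Fin m, u i.succ * ((e i : ZMod 3) * sym (π i).1 3))
    linear_combination h0 + h3
  exact hHN2 (zN π e u) (zN π e y) hAu.1 hP.1 hne hcu hAu.2.2.2.2.1 hAy.1 hcy hT.1 hT.2

end MSF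

open _root_.Pool.Agent.PTK.MSF in
theorem MSF_thm (hHNE : Stmt_HNE) (hHN2 : Stmt_HN2) (hZA : Stmt_ZA) (hZI : Stmt_ZI)
    (hZL : Stmt_ZL) (hZT : Stmt_ZT) (hSSL : SSL) (hSREC : SREC) (hSCJ : SCJ)
    (hSPP : SPP) : Stmt_MSF := by
  intro h n m k π p e r f w0 c hn hh l y hy
  have hy0 : ∀ i, y i ≠ 0 := fun i => hy.ind.ne_zero i
  have hA := fun i => hZA n m k π p e r f hn (y i)
  have hpair : ∀ i j : Fin l, ∃ P Q P' Q' : Eis,
      i < j → SolE (zN π e (y i)) (zN π e (y j)) P Q P' Q' := by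
    intro i j
    by_cases hij : i < j
    · by_cases hi : y i ∈ V0 h n π p e r w0 c
      · obtain ⟨P, Q, P', Q', hs⟩ :=
          MSY.sol hHNE hZA hZL hZT hn hh hi (hy.mem j) (hy0 _) (hy0 _)
        exact ⟨P, Q, P', Q', fun _ => hs⟩
      · by_cases hj : y j ∈ V0 h n π p e r w0 c
        · obtain ⟨P, Q, P', Q', hs⟩ :=
            MSY.sol hHNE hZA hZL hZT hn hh hj (hy.mem i) (hy0 _) (hy0 _)
          exact ⟨P, -P', -Q, Q', fun _ => SYK.swap hs⟩
        · have h0 : y i 0 = 0 := by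
            rcases hy.wd i j hij with h1 | h1 | h1
            · exact absurd h1 hi
            · exact absurd h1 hj
            · exact h1
          obtain ⟨P, Q, P', Q', hs⟩ := sol2 hHN2 hZA hZT hSPP hSSL hSREC hSCJ hn hh
            (hy.mem i) hi h0 (hy.mem j) (hy0 _) (hy0 _)
          exact ⟨P, Q, P', Q', fun _ => hs⟩
    · exact ⟨0, 0, 0, 0, fun h1 => absurd h1 hij⟩
  choose P Q P' Q' hs using hpair
  refine ⟨fun a b => if a < b then P a b else P b a,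
    fun a b => if a < b then Q a b else - P' b a,
    fun a b => if a < b then P' a b else - Q b a,
    fun a b => if a < b then Q' a b else Q' b a, ⟨?_, ?_, ?_, ?_⟩⟩
  · rintro d ⟨i, hi⟩ hd
    have h1 := hZI n m k π p e r f hn l y d hd
    have h2 := Fintype.linearIndependent_iff.1 hy.ind (fun i => (d i : ZMod 3)) h1 i
    exact hi ((ZMod.natCast_eq_zero_iff _ 3).1 h2)
  · exact fun i => ⟨(hA i).2.1, (hA i).2.2.1⟩
  · intro j i hji
    by_cases h1 : j < i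
    · simp only [h1, if_true]
      exact hs j i h1
    · have h2 : i < j := lt_of_le_of_ne (not_lt.1 h1) (Ne.symm hji)
      simp only [h1, if_false]
      exact SYK.swap (hs i j h2)
  · intro j i hji
    by_cases h1 : j < i
    · have h2 : ¬ i < j := not_lt.2 h1.le
      refine ⟨?_, ?_, ?_, ?_⟩ <;> simp [h1, h2]
    · have h2 : i < j := lt_of_le_of_ne (not_lt.1 h1) (Ne.symm hji)
      refine ⟨?_, ?_, ?_, ?_⟩ <;> simp [h1, h2]

end Pool.Agent.PTK

end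

section

/-!
# PTK_DXL: the relation for the Frobenius invariant of `Q`, `Q = 1 (mod 3)`, base class a local cube
-/

set_option autoImplicit false

namespace Pool.Agent.PTK

open Pool.Agent.Lib_helper18 Pool.Agent.Lib_helper18.Eis Pool.Agent.Lib_helper84.Cub
open Pool.Agent.PT

namespace DXL

lemma x_n0_ne {N : ℕ} {b x p q p' q' : Eis} (HD : HypX N b x p q p' q') {E Q : ℕ} {X Y : Eis}
    (HP : HypP N b x p q p' q' E Q X Y) : X ^ 3 + x * Y ^ 3 ≠ 0 := by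
  obtain ⟨c, hc, h⟩ := HP.pt.eq
  intro h0
  rw [h0, mul_zero] at h
  have h1 : (N : Eis) ≠ 0 := DCK.nat_ne HD.N0.ne'
  have h3 : (Q : Eis) ≠ 0 := DCK.nat_ne HP.hQ.ne_zero
  exact mul_ne_zero (mul_ne_zero h1 (pow_ne_zero _ h3)) (pow_ne_zero _ hc) h.symm

end DXL

open DPA DCK DCKU _root_.Pool.Agent.PTK.DXL in
/-- PTK_DXL. -/
theorem DXL_thm (hSPP : SPP) (hSVF : Stmt_SVF) (hDX1 : Stmt_DX1) (hDX2 : Stmt_DX2)
    (hDX3 : Stmt_DX3) (hDX4 : Stmt_DX4) : Stmt_DXL := by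
  intro N b x p q p' q' HD
  have hn1 := HD.sol.n1
  have hn2 := SolE_n1' HD.sol
  obtain ⟨m1, hm1⟩ : ∃ m : ℕ, m = (p ^ 3 + x * q ^ 3).norm.natAbs := ⟨_, rfl⟩
  obtain ⟨m2, hm2⟩ : ∃ m : ℕ, m = (p' ^ 3 + x * q' ^ 3).norm.natAbs := ⟨_, rfl⟩
  have hm1d : p ^ 3 + x * q ^ 3 ∣ (m1 : Eis) := by rw [hm1]; exact dvd_natAbs_norm _
  have hm2d : p' ^ 3 + x * q' ^ 3 ∣ (m2 : Eis) := by rw [hm2]; exact dvd_natAbs_norm _
  have hm1p : 0 < m1 := by
    rw [hm1]
    exact Int.natAbs_pos.2 (norm_pos hn1).ne'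
  have hm2p : 0 < m2 := by
    rw [hm2]
    exact Int.natAbs_pos.2 (norm_pos hn2).ne'
  obtain ⟨M, hMdef⟩ : ∃ M : ℕ, M = N * m1 * m2 := ⟨_, rfl⟩
  have hMp : 0 < M := by
    rw [hMdef]
    exact Nat.mul_pos (Nat.mul_pos HD.N0 hm1p) hm2p
  have hMe : (M : Eis) = (N : Eis) * (m1 : Eis) * (m2 : Eis) := by
    rw [hMdef]
    push_cast
    ring
  have hM0 : (M : Eis) ≠ 0 := nat_ne hMp.ne'
  have dN : (N : Eis) ∣ (M : Eis) := by
    rw [hMe, mul_assoc]
    exact Dvd.intro _ rfl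
  have d1 : p ^ 3 + x * q ^ 3 ∣ (M : Eis) := by
    rw [hMe]
    exact dvd_mul_of_dvd_left (dvd_mul_of_dvd_right hm1d _) _
  have d2 : p' ^ 3 + x * q' ^ 3 ∣ (M : Eis) := by
    rw [hMe]
    exact dvd_mul_of_dvd_right hm2d _
  have hfin := hSPP.2.2.1 (M : Eis) hM0
  refine ⟨9 * M, by omega, ?_⟩
  intro f hf0 hf
  have h9 : 9 ∣ f := (Dvd.intro _ rfl).trans hf
  have hf1 : 1 < f := by
    have := Nat.le_of_dvd hf0 h9
    omega
  have hMf : M ∣ f := (Dvd.intro_left 9 rfl).trans hf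
  have hMfe : (M : Eis) ∣ (f : Eis) := by
    obtain ⟨k, hk⟩ := hMf
    rw [hk]
    push_cast
    exact Dvd.intro _ rfl
  obtain ⟨C₀, Φ₀, H₀⟩ := hDX2 N b x p q p' q' HD f hf1 h9
  have hpl : ∀ π : PP, ∃ (c : ZMod 3) (Φ : (ZMod f)ˣ →* Multiplicative (ZMod 3)),
      π.1 ∣ (M : Eis) → ∀ (E Q : ℕ) (hQ : Q.Coprime f) (X Y : Eis),
        HypP N b x p q p' q' E Q X Y →
        SVE (tm π.1) x p (-p') (-q) q' X Y = c + E * (Φ (ZMod.unitOfCoprime Q hQ)).toAdd := by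
    intro π
    by_cases hπM : π.1 ∣ (M : Eis)
    · obtain ⟨C, Φ, H⟩ := hDX1 N b x p q p' q' HD π f hf1 (hπM.trans hMfe)
      exact ⟨C, Φ, fun _ => H⟩
    · exact ⟨0, 1, fun h => absurd h hπM⟩
  choose c Φ H using hpl
  refine ⟨C₀ + ∑ π ∈ hfin.toFinset, c π, Φ₀ * ∏ π ∈ hfin.toFinset, Φ π, 0, ?_⟩
  intro E Q hQ πQ hE hQp _ hQ3 hπQ hsb hsx X Y ξ ξ' hpt hgp hξ hξ'
  obtain ⟨πR, hπR⟩ := (hSPP.2.2.2.1 πQ).2
  have hna : ¬ Associated πQ.1 (conj πQ.1) := not_assoc hSPP hQp hπQ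
  have hdQ : πQ.1 ∣ (Q : Eis) := by
    rw [hπQ]
    exact Dvd.intro _ rfl
  have hdR : πR.1 ∣ (Q : Eis) := by
    rw [hπQ, hπR]
    exact Dvd.intro_left _ rfl
  have hQRne : πQ ≠ πR := by
    intro h
    apply hna
    rw [← hπR, ← h]
  have hcop : IsCoprime (Q : Eis) (M : Eis) := by
    have h1 : Nat.Coprime Q M := Nat.Coprime.coprime_dvd_right hMf hQ
    have h2 : IsCoprime (Q : ℤ) (M : ℤ) := Nat.isCoprime_iff_coprime.2 h1
    have h3 := h2.map (Int.castRingHom Eis)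
    simpa using h3
  have hnd : ∀ π : PP, π.1 ∣ (Q : Eis) → ¬ π.1 ∣ (M : Eis) := fun π h1 h2 =>
    π.2.1.not_isUnit (hcop.isUnit_of_dvd' h1 h2)
  have hQM : ¬ πQ.1 ∣ (M : Eis) := hnd πQ hdQ
  have hRM : ¬ πR.1 ∣ (M : Eis) := hnd πR hdR
  have hQN : ¬ πQ.1 ∣ (N : Eis) := fun h => hQM (h.trans dN)
  have hRN : ¬ πR.1 ∣ (N : Eis) := fun h => hRM (h.trans dN)
  have hQN' : ¬ πQ.1 ∣ (N : Eis) * (conj πQ.1) ^ E := by
    intro h
    rcases πQ.2.1.dvd_or_dvd h with h1 | h1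
    · exact hQN h1
    · have h2 := πQ.2.1.dvd_of_dvd_pow h1
      rw [← hπR] at h2
      exact hQRne (hSPP.2.1 πQ πR (πQ.2.1.associated_of_dvd πR.2.1 h2))
  obtain ⟨hQb, hQx⟩ := HD.unr πQ hQN
  obtain ⟨k, hk, hkE⟩ := hpt.eq
  have hBe : (N : Eis) * (Q : Eis) ^ E = ((N : Eis) * (conj πQ.1) ^ E) * πQ.1 ^ E := by
    rw [hπQ, mul_pow]
    ring
  have hdn : DNE X Y p (-p') (-q) q' := by
    have hA := fun i => dne_aux (π := πQ) hE (X := X) (Y := Y) (u := q) (v := p) hBe hQN' hQx hk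
      hpt.hY hkE (fun h => hQM (h.trans d1)) i
    have hA' := fun i => dne_aux (π := πQ) hE (X := X) (Y := Y) (u := q') (v := p') hBe hQN' hQx hk
      hpt.hY hkE (fun h => hQM (h.trans d2)) i
    refine ⟨?_, ?_, ?_, ?_⟩
    · intro h
      apply hA 1
      unfold DfE at h
      linear_combination - h
    · intro h
      apply hA 2
      unfold DfE at h
      linear_combination - h
    · intro h
      apply hA' 1
      unfold DfE at h
      linear_combination h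
    · intro h
      apply hA' 2
      unfold DfE at h
      linear_combination h
  have HP : HypP N b x p q p' q' E Q X Y := ⟨hE, hQp, hsb, hsx, hpt, hdn⟩
  have hn0 := x_n0_ne HD HP
  obtain ⟨-, hsum0⟩ := hSVF b x p (-p') (-q) q' X Y HD.hb HD.hx (SolE_flip HD.sol) hpt.hX hpt.hY
    hn0 hdn
  -- the places above `Q`
  have hTQ : SVE (tm πQ.1) x p (-p') (-q) q' X Y = - (E * TAUP πQ.1 p q p' q' ξ) := by
    refine (hDX4 N b x p q p' q' HD πQ E Q X Y ξ HP hQN ?_).2 hQ3 hdQ hξ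
    intro h
    rcases πQ.2.1.dvd_or_dvd h with h1 | h1
    · exact hQM (h1.trans d1)
    · exact hQM (h1.trans d2)
  have hTR : SVE (tm πR.1) x p (-p') (-q) q' X Y = - (E * TAUP πR.1 p q p' q' ξ') := by
    refine (hDX4 N b x p q p' q' HD πR E Q X Y ξ' HP hRN ?_).2 hQ3 hdR ?_
    · intro h
      rcases πR.2.1.dvd_or_dvd h with h1 | h1
      · exact hRM (h1.trans d1)
      · exact hRM (h1.trans d2)
    · rw [hπR]
      exact hξ'
  -- the sum
  have hQS : πQ ∉ hfin.toFinset := by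
    rw [Set.Finite.mem_toFinset]
    exact hQM
  have hRS : πR ∉ hfin.toFinset := by
    rw [Set.Finite.mem_toFinset]
    exact hRM
  classical
  have hsupp : (Function.support fun v : Pl => SVE (sy v) x p (-p') (-q) q' X Y) ⊆
      ((insert none (insert (some πQ) (insert (some πR) (hfin.toFinset.image some))) :
        Finset Pl) : Set Pl) := by
    intro v hv
    by_contra hnv
    apply hv
    rcases v with _ | π
    · exact absurd (Finset.mem_coe.2 (Finset.mem_insert_self _ _)) hnv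
    · have hnM : ¬ π.1 ∣ (M : Eis) := by
        intro h
        apply hnv
        rw [Finset.mem_coe]
        refine Finset.mem_insert_of_mem (Finset.mem_insert_of_mem (Finset.mem_insert_of_mem
          (Finset.mem_image_of_mem _ ?_)))
        rw [Set.Finite.mem_toFinset]
        exact h
      have hπne : π ≠ πQ := by
        rintro rfl
        apply hnv
        rw [Finset.mem_coe]
        exact Finset.mem_insert_of_mem (Finset.mem_insert_self _ _)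
      have hπne' : π ≠ πR := by
        rintro rfl
        apply hnv
        rw [Finset.mem_coe]
        exact Finset.mem_insert_of_mem (Finset.mem_insert_of_mem (Finset.mem_insert_self _ _))
      have hπQnd : ¬ π.1 ∣ (Q : Eis) := by
        rw [hπQ]
        intro h
        rcases π.2.1.dvd_or_dvd h with h1 | h1
        · exact hπne (hSPP.2.1 π πQ (π.2.1.associated_of_dvd πQ.2.1 h1))
        · rw [← hπR] at h1
          exact hπne' (hSPP.2.1 π πR (π.2.1.associated_of_dvd πR.2.1 h1))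
      refine hDX3 N b x p q p' q' HD π E Q X Y HP (fun h => hnM (h.trans dN)) hπQnd ?_
      intro h
      rcases π.2.1.dvd_or_dvd h with h1 | h1
      · exact hnM (h1.trans d1)
      · exact hnM (h1.trans d2)
  have hn_notin : (none : Pl) ∉ insert (some πQ) (insert (some πR) (hfin.toFinset.image some)) := by
    simp
  have hR_notin : (some πR : Pl) ∉ hfin.toFinset.image some := by
    intro h
    obtain ⟨y, hy, hy'⟩ := Finset.mem_image.1 h
    rw [Option.some.injEq] at hy'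
    rw [hy'] at hy
    exact hRS hy
  have hQ_notin : (some πQ : Pl) ∉ insert (some πR) (hfin.toFinset.image some) := by
    intro h
    rcases Finset.mem_insert.1 h with h | h
    · rw [Option.some.injEq] at h
      exact hQRne h
    · obtain ⟨y, hy, hy'⟩ := Finset.mem_image.1 h
      rw [Option.some.injEq] at hy'
      rw [hy'] at hy
      exact hQS hy
  have hsum : ∑ π ∈ hfin.toFinset, SVE (sy (some π)) x p (-p') (-q) q' X Y =
      ∑ π ∈ hfin.toFinset, (c π + E * (Φ π (ZMod.unitOfCoprime Q hQ)).toAdd) := by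
    refine Finset.sum_congr rfl ?_
    intro π hπ
    rw [Set.Finite.mem_toFinset] at hπ
    exact H π hπ E Q hQ X Y HP
  rw [finsum_eq_sum_of_support_subset _ hsupp, Finset.sum_insert hn_notin,
    Finset.sum_insert hQ_notin, Finset.sum_insert hR_notin,
    Finset.sum_image (fun _ _ _ _ h => Option.some_injective _ h), hsum] at hsum0
  have e1 : SVE (sy none) x p (-p') (-q) q' X Y =
      C₀ + E * (Φ₀ (ZMod.unitOfCoprime Q hQ)).toAdd := H₀ E Q hQ X Y HP hgp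
  have e2 : SVE (sy (some πQ)) x p (-p') (-q) q' X Y = - (E * TAUP πQ.1 p q p' q' ξ) := hTQ
  have e3 : SVE (sy (some πR)) x p (-p') (-q) q' X Y = - (E * TAUP πR.1 p q p' q' ξ') := hTR
  rw [e1, e2, e3, Finset.sum_add_distrib, ← Finset.mul_sum] at hsum0
  rw [MonoidHom.mul_apply, MonoidHom.finsetProd_apply, toAdd_mul, toAdd_prod, ← hπR]
  linear_combination hsum0

end Pool.Agent.PTK

end

section

/-! PTK_AVR (helper87): the average of the rank in a class. -/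

set_option autoImplicit false

open Finset

namespace Pool.Agent.PTK

open Pool.Agent.Lib_helper18 Pool.Agent.Lib_helper18.Eis Pool.Agent.Lib_helper84.Cub
open Pool.Agent.PT Pool.Agent.PTE Pool.Agent.PT3 Pool.Agent.PTL Pool.Agent.PTN

namespace AVR

/-! ### scalar inequalities -/

lemma nat1 (w : ℕ) : (w : ℝ) ≤ 1 / 2 + 3 ^ w / 6 := by
  induction w with
  | zero => norm_num
  | succ w ih =>
    rcases Nat.eq_zero_or_pos w with rfl | hw
    · norm_num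
    · have h1 : (3 : ℝ) ≤ 3 ^ w := by
        calc (3 : ℝ) = 3 ^ 1 := by norm_num
          _ ≤ 3 ^ w := pow_le_pow_right₀ (by norm_num) hw
      rw [pow_succ]; push_cast; linarith

lemma nat2 (w : ℕ) : (w : ℝ) ≤ 3 / 2 + 3 ^ w / 18 := by
  induction w with
  | zero => norm_num
  | succ w ih =>
    rcases Nat.lt_or_ge w 2 with hw | hw
    · interval_cases w <;> norm_num
    · have h1 : (9 : ℝ) ≤ 3 ^ w := by
        calc (9 : ℝ) = 3 ^ 2 := by norm_num
          _ ≤ 3 ^ w := pow_le_pow_right₀ (by norm_num) hw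
      rw [pow_succ]; push_cast; linarith

lemma sqrt3 (t : ℝ) (ht : 0 < t) (w κ : ℕ) :
    √3 ^ (w + κ) ≤ t / 2 * 3 ^ w + 1 / (2 * t) * 3 ^ κ := by
  have h3 : √3 ^ 2 = (3 : ℝ) := Real.sq_sqrt (by norm_num)
  have hw : (3 : ℝ) ^ w = (√3 ^ w) ^ 2 := by rw [← pow_mul, mul_comm, pow_mul, h3]
  have hk : (3 : ℝ) ^ κ = (√3 ^ κ) ^ 2 := by rw [← pow_mul, mul_comm, pow_mul, h3]
  rw [pow_add, hw, hk]
  set a := √3 ^ w
  set b := √3 ^ κ
  have h : 0 ≤ (t * a - b) ^ 2 := sq_nonneg _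
  have e : t / 2 * a ^ 2 + 1 / (2 * t) * b ^ 2 - a * b = (t * a - b) ^ 2 / (2 * t) := by
    field_simp
    ring
  have : 0 ≤ (t * a - b) ^ 2 / (2 * t) := by positivity
  linarith

/-! ### the general average -/

open Classical in
theorem gen (hSPP : SPP) (hAVW : Stmt_AVW) (hAVC : Stmt_AVC) (hCLT : Stmt_CLT)
    {h n m k : ℕ} {π : Fin m → PP} {p e : Fin m → ℕ} {r f : Fin k → ℕ}
    {w0 : ZMod 3} {c : Fin m → ZMod 3} (hN : NF n π p e r f) (hh : h ≤ 2)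
    {F : ℕ → ℝ} (hF : Monotone F) (h0 : 0 ≤ F 0) {α β γ x : ℝ} (hα : 0 ≤ α) (hβ : 0 ≤ β)
    (hγ : 0 ≤ γ) (hb : ∀ w κ : ℕ, F (w + κ) ≤ α + β * 3 ^ w + γ * 3 ^ κ)
    (hx : α + β * (3 + 3 ^ dN h n w0) + γ * 4 = x) :
    AboveA ((3 ^ h * n : ℕ) : ℤ) 2 (Kl π w0 c) (fun A => F (CubeRank.rr A))
      (x / 3 ^ (m + 1)) := by
  refine CAB.above_of hSPP hN w0 c 2 hF h0
    (fun E => {q : ℕ | q % 3 = 2 ∧ InCT E π w0 c q}) (fun E q => Iff.rfl) ?_
  obtain ⟨K1, hK1⟩ := hAVW h n m k π p e r f w0 c hN hh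
  obtain ⟨κ₀, ⟨M, hM⟩, K2, hK2⟩ := hAVC h n m k π p e r f w0 c hN hh
  obtain ⟨K3, hK3⟩ := hCLT m π p hN.pp hN.p1 hN.pπ hN.pinj w0 c 2 (Or.inr rfl)
  have hFn : ∀ n, 0 ≤ F n := fun n => h0.trans (hF (Nat.zero_le n))
  refine ⟨α * K3 + β * K1 + γ * K2 + ∑ E ∈ ({1, 2} : Finset ℕ), ∑ q ∈ range (M + 1),
    F (CubeRank.rr (BB h n E q)), fun σ h1 h2 T => ?_⟩
  have a1 := hK1 σ h1 h2 T
  have a2 := hK2 σ h1 h2 T
  have a3 := (hK3 σ h1 h2).2
  set S : ℕ → Set ℕ := fun E => {q : ℕ | q % 3 = 2 ∧ InCT E π w0 c q} with hS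
  -- pointwise
  have key : ∀ E ∈ ({1, 2} : Finset ℕ), ∀ q ∈ T,
      (if q.Prime ∧ q ∈ S E then F (CubeRank.rr (BB h n E q)) * (q : ℝ) ^ (-σ) else 0) ≤
      α * BDENS.ind (S E) σ q +
      β * (if q.Prime ∧ q % 3 = 2 ∧ InCT E π w0 c q then
        (Nat.card (WqS h n π p e r w0 c (BB h n E q)) : ℝ) * (q : ℝ) ^ (-σ) else 0) +
      γ * (if q.Prime ∧ q % 3 = 2 ∧ InCT E π w0 c q then
        (3 : ℝ) ^ κ₀ (BB h n E q) * (q : ℝ) ^ (-σ) else 0) +
      (if q ≤ M then F (CubeRank.rr (BB h n E q)) else 0) := by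
    intro E hE q _
    have hE' : E = 1 ∨ E = 2 := by simpa using hE
    have hq0 : 0 ≤ (q : ℝ) ^ (-σ) := Real.rpow_nonneg (Nat.cast_nonneg q) _
    by_cases hq : q.Prime ∧ q ∈ S E
    · have hq' : q.Prime ∧ q % 3 = 2 ∧ InCT E π w0 c q := hq
      rw [if_pos hq, if_pos hq', if_pos hq', BDENS.ind_mem hq.1 hq.2]
      by_cases hqM : q ≤ M
      · rw [if_pos hqM]
        have g1 : (q : ℝ) ^ (-σ) ≤ 1 :=
          Real.rpow_le_one_of_one_le_of_nonpos (by exact_mod_cast hq.1.one_lt.le) (by linarith)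
        have g2 := mul_le_mul_of_nonneg_left g1 (hFn (CubeRank.rr (BB h n E q)))
        rw [mul_one] at g2
        have g3 : 0 ≤ α * (q : ℝ) ^ (-σ) + β * ((Nat.card (WqS h n π p e r w0 c (BB h n E q)) : ℝ) *
          (q : ℝ) ^ (-σ)) + γ * ((3 : ℝ) ^ κ₀ (BB h n E q) * (q : ℝ) ^ (-σ)) := by positivity
        linarith
      · rw [if_neg hqM, add_zero]
        push Not at hqM
        obtain ⟨hgen, d, hd⟩ := hM E q hE' hq'.1 hqM hq'.2.1 hq'.2.2
        rw [hd, Nat.log_pow (by norm_num)] at hgen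
        have g1 := hF (CubeRank.rr_le hgen)
        have g2 := g1.trans (hb d (κ₀ (BB h n E q)))
        have g3 := mul_le_mul_of_nonneg_right g2 hq0
        rw [hd]
        push_cast
        refine g3.trans (le_of_eq ?_)
        ring
    · have hq' : ¬ (q.Prime ∧ q % 3 = 2 ∧ InCT E π w0 c q) := hq
      rw [if_neg hq, if_neg hq', if_neg hq', BDENS.ind_not hq]
      have : 0 ≤ (if q ≤ M then F (CubeRank.rr (BB h n E q)) else 0) := by
        split_ifs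
        · exact hFn _
        · exact le_rfl
      linarith
  have s1 := Finset.sum_le_sum fun E hE => Finset.sum_le_sum fun q hq => key E hE q hq
  refine le_trans (le_of_eq ?_) (s1.trans ?_)
  · refine Finset.sum_congr rfl fun E _ => Finset.sum_congr rfl fun q _ => ?_
    congr
  simp only [Finset.sum_add_distrib, ← Finset.mul_sum]
  -- the four sums
  have b1 : ∑ E ∈ ({1, 2} : Finset ℕ), ∑ q ∈ T, BDENS.ind (S E) σ q ≤
      1 / 3 ^ (m + 1) * Real.log (1 / (σ - 1)) + K3 := by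
    rw [Finset.sum_pair (by norm_num : (1 : ℕ) ≠ 2)]
    exact (add_le_add (DOMG.sum_ind_le _ h1 T) (DOMG.sum_ind_le _ h1 T)).trans a3
  have b4 : ∑ E ∈ ({1, 2} : Finset ℕ), ∑ q ∈ T,
      (if q ≤ M then F (CubeRank.rr (BB h n E q)) else 0) ≤
      ∑ E ∈ ({1, 2} : Finset ℕ), ∑ q ∈ range (M + 1), F (CubeRank.rr (BB h n E q)) := by
    refine Finset.sum_le_sum fun E _ => ?_
    rw [← Finset.sum_filter]
    refine Finset.sum_le_sum_of_subset_of_nonneg ?_ fun q _ _ => hFn _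
    intro q hq
    rw [Finset.mem_range]
    have := (Finset.mem_filter.1 hq).2
    omega
  have c1 := mul_le_mul_of_nonneg_left b1 hα
  have c2 := mul_le_mul_of_nonneg_left a1 hβ
  have c3 := mul_le_mul_of_nonneg_left a2 hγ
  have e1 : x / 3 ^ (m + 1) * Real.log (1 / (σ - 1)) =
      α * (1 / 3 ^ (m + 1) * Real.log (1 / (σ - 1))) +
      β * ((3 + 3 ^ dN h n w0) / 3 ^ (m + 1) * Real.log (1 / (σ - 1))) +
      γ * (4 / 3 ^ (m + 1) * Real.log (1 / (σ - 1))) := by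
    rw [← hx]; ring
  rw [e1]
  linarith

end AVR

open _root_.Pool.Agent.PTK.AVR in
theorem AVR_thm (hSPP : SPP) (hAVW : Stmt_AVW) (hAVC : Stmt_AVC) (hCLT : Stmt_CLT) :
    Stmt_AVR := by
  classical
  intro h n m k π p e r f w0 c hN hh
  have hd : dN h n w0 = 0 ∨ dN h n w0 = 1 ∨ dN h n w0 = 2 := by
    unfold dN
    split_ifs <;> simp
  have m1 : Monotone (fun x : ℕ => (x : ℝ)) := Nat.mono_cast
  have m2 : Monotone (fun x : ℕ => √3 ^ x) := by
    refine pow_right_mono₀ ?_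
    rw [show (1 : ℝ) = √1 by simp]
    exact Real.sqrt_le_sqrt (by norm_num)
  constructor
  · rcases hd with hd | hd | hd
    · refine gen hSPP hAVW hAVC hCLT hN hh (F := fun x => (x : ℝ)) m1 (by simp) (α := 1)
        (β := 1 / 6) (γ := 1 / 6) (by norm_num) (by norm_num) (by norm_num) (fun w κ => ?_) ?_
      · have := nat1 w
        have := nat1 κ
        push_cast; linarith
      · rw [hd]; unfold aD'; norm_num
    · refine gen hSPP hAVW hAVC hCLT hN hh (F := fun x => (x : ℝ)) m1 (by simp) (α := 1)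
        (β := 1 / 6) (γ := 1 / 6) (by norm_num) (by norm_num) (by norm_num) (fun w κ => ?_) ?_
      · have := nat1 w
        have := nat1 κ
        push_cast; linarith
      · rw [hd]; unfold aD'; norm_num
    · refine gen hSPP hAVW hAVC hCLT hN hh (F := fun x => (x : ℝ)) m1 (by simp) (α := 2)
        (β := 1 / 18) (γ := 1 / 6) (by norm_num) (by norm_num) (by norm_num) (fun w κ => ?_) ?_
      · have := nat2 w
        have := nat1 κ
        push_cast; linarith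
      · rw [hd]; unfold aD'; norm_num
  · rcases hd with hd | hd | hd
    · refine gen hSPP hAVW hAVC hCLT hN hh (F := fun x => √3 ^ x) m2 (by simp) (α := 0)
        (β := 1 / 2) (γ := 1 / 2) (by norm_num) (by norm_num) (by norm_num) (fun w κ => ?_) ?_
      · have := sqrt3 1 (by norm_num) w κ
        norm_num at this ⊢; linarith
      · rw [hd]; unfold bD'; norm_num
    · refine gen hSPP hAVW hAVC hCLT hN hh (F := fun x => √3 ^ x) m2 (by simp) (α := 0)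
        (β := 2 / 5) (γ := 5 / 8) (by norm_num) (by norm_num) (by norm_num) (fun w κ => ?_) ?_
      · have := sqrt3 (4 / 5) (by norm_num) w κ
        norm_num at this ⊢; linarith
      · rw [hd]; unfold bD'; norm_num
    · refine gen hSPP hAVW hAVC hCLT hN hh (F := fun x => √3 ^ x) m2 (by simp) (α := 0)
        (β := 3 / 10) (γ := 5 / 6) (by norm_num) (by norm_num) (by norm_num) (fun w κ => ?_) ?_
      · have := sqrt3 (3 / 5) (by norm_num) w κ
        norm_num at this ⊢; linarith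
      · rw [hd]; unfold bD'; norm_num

end Pool.Agent.PTK

end

section

/-! PTK_AV2 (helper69): the averages in a class, `q = 2 (mod 3)`. -/

set_option autoImplicit false

open Finset

namespace Pool.Agent.PTK

open Pool.Agent.Lib_helper18 Pool.Agent.Lib_helper18.Eis Pool.Agent.Lib_helper84.Cub
open Pool.Agent.PT Pool.Agent.PTE Pool.Agent.PT3 Pool.Agent.PTL Pool.Agent.PTN

namespace AV2

/-- the three bounds without the classes of points -/
theorem base (hUPS : Stmt_UPS) (hKUP : Stmt_KUP) (hLAM : Stmt_LAM) (hCT0 : Stmt_CT0)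
    {h n m k : ℕ} {π : Fin m → PP} {p e : Fin m → ℕ} {r f : Fin k → ℕ}
    {w0 : ZMod 3} {c : Fin m → ZMod 3} {s : ℕ} {τ : Fin s → Fin 3} {b X Y : Fin s → ℤ}
    {P Q P' Q' : Fin s → Fin s → ℤ} (hN : NF n π p e r f) (hh : h ≤ 2)
    (hS : PlS h n π w0 c τ b X Y P Q P' Q') :
    UpS (fun E => {q | q % 3 = 2 ∧ InCT E π w0 c q})
      (fun E q => 3 ^ kS h n b X Y P Q P' Q' E q) (4 * (1 / 3 ^ (m + 1))) ∧
    UpS (fun E => {q | q % 3 = 2 ∧ InCT E π w0 c q})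
      (fun E q => (kS h n b X Y P Q P' Q' E q : ℝ)) (13 / 12 * (1 / 3 ^ (m + 1))) ∧
    UpS (fun E => {q | q % 3 = 2 ∧ InCT E π w0 c q}) (fun _ _ => 1) (1 / 3 ^ (m + 1)) := by
  obtain ⟨a1, a2, a3⟩ := hKUP (fun E => {q | q % 3 = 2 ∧ InCT E π w0 c q})
    (fun E q => kS h n b X Y P Q P' Q' E q) s 0 (1 / 3 ^ (m + 1)) (by positivity)
    (fun E q _ _ _ _ => Nat.sub_le _ _)
    (hCT0 h n m k π p e r f w0 c s τ b X Y P Q P' Q' hN hh hS)
  refine ⟨a1, hUPS.2.1 _ _ _ _ ?_ a2, a3⟩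
  exact mul_le_mul_of_nonneg_right (hLAM.1 s) (by positivity)

/-- the bounds for the primes with a given class of points -/
theorem withy (hKUP : Stmt_KUP) (hCTJ : Stmt_CTJ)
    {h n m k : ℕ} {π : Fin m → PP} {p e : Fin m → ℕ} {r f : Fin k → ℕ}
    {w0 : ZMod 3} {c : Fin m → ZMod 3} {s : ℕ} {τ : Fin s → Fin 3} {b X Y : Fin s → ℤ}
    {P Q P' Q' : Fin s → Fin s → ℤ} (hN : NF n π p e r f) (hh : h ≤ 2)
    (hS : PlS h n π w0 c τ b X Y P Q P' Q')
    {y : Fin (m + 1) → ZMod 3} (hy : y ∈ VS h n π p e r w0 c) {l : ℕ}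
    {u : Fin l → Fin (m + 1) → ZMod 3} (hu : ∀ j, u j ∈ V0 h n π p e r w0 c)
    (hli : LinearIndependent (ZMod 3) (Fin.cons y u : Fin (l + 1) → Fin (m + 1) → ZMod 3)) :
    UpS (fun E => {q | q ∈ {q | q % 3 = 2 ∧ InCT E π w0 c q} ∧ Occ (BB h n E q) (zN π e y)})
      (fun E q => 3 ^ kS h n b X Y P Q P' Q' E q) (4 * (1 / 3 ^ (m + 1)) / 3 ^ l) ∧
    UpS (fun E => {q | q ∈ {q | q % 3 = 2 ∧ InCT E π w0 c q} ∧ Occ (BB h n E q) (zN π e y)})
      (fun _ _ => 1) (1 / 3 ^ (m + 1) / 3 ^ l) := by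
  have hset : ∀ E t : ℕ, {q | q ∈ {q | q ∈ {q | q % 3 = 2 ∧ InCT E π w0 c q} ∧
      Occ (BB h n E q) (zN π e y)} ∧ t ≤ kS h n b X Y P Q P' Q' E q} =
      {q | q ∈ QY h n π e w0 c y E ∧ t ≤ kS h n b X Y P Q P' Q' E q} := by
    intro E t
    ext q
    refine and_congr_left fun _ => ?_
    exact and_assoc
  obtain ⟨a1, a2, a3⟩ := hKUP
    (fun E => {q | q ∈ {q | q % 3 = 2 ∧ InCT E π w0 c q} ∧ Occ (BB h n E q) (zN π e y)})
    (fun E q => kS h n b X Y P Q P' Q' E q) s 0 (1 / 3 ^ l / 3 ^ (m + 1)) (by positivity)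
    (fun E q _ _ _ _ => Nat.sub_le _ _)
    (fun t => by
      obtain ⟨K, hK⟩ := hCTJ h n m k π p e r f w0 c s τ b X Y P Q P' Q' hN hh hS y hy l u hu hli t
      refine ⟨K, fun σ h1 h2 => ?_⟩
      have e1 := hK σ h1 h2
      rw [← hset, ← hset] at e1
      exact e1)
  have e1 : 4 * ((1 : ℝ) / 3 ^ l / 3 ^ (m + 1)) = 4 * (1 / 3 ^ (m + 1)) / 3 ^ l := by
    field_simp
  have e2 : ((1 : ℝ) / 3 ^ l / 3 ^ (m + 1)) = 1 / 3 ^ (m + 1) / 3 ^ l := by
    field_simp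
  rw [e1] at a1
  rw [e2] at a3
  exact ⟨a1, a3⟩

/-- the two bounds with the number of the classes of points -/
theorem wq (hUPS : Stmt_UPS) (hKUP : Stmt_KUP) (hLAM : Stmt_LAM) (hWSUM : Stmt_WSUM)
    (hCTJ : Stmt_CTJ) (hCT0 : Stmt_CT0)
    {h n m k : ℕ} {π : Fin m → PP} {p e : Fin m → ℕ} {r f : Fin k → ℕ}
    {w0 : ZMod 3} {c : Fin m → ZMod 3} {s : ℕ} {τ : Fin s → Fin 3} {b X Y : Fin s → ℤ}
    {P Q P' Q' : Fin s → Fin s → ℤ} (hN : NF n π p e r f) (hh : h ≤ 2)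
    (hS : PlS h n π w0 c τ b X Y P Q P' Q') :
    UpS (fun E => {q | q % 3 = 2 ∧ InCT E π w0 c q})
      (fun E q => (Nat.card (WqS h n π p e r w0 c (BB h n E q)) : ℝ) *
        3 ^ kS h n b X Y P Q P' Q' E q)
      ((3 + 3 ^ dN h n w0) * (4 * (1 / 3 ^ (m + 1)))) ∧
    UpS (fun E => {q | q % 3 = 2 ∧ InCT E π w0 c q})
      (fun E q => (Nat.card (WqS h n π p e r w0 c (BB h n E q)) : ℝ) * 1)
      ((3 + 3 ^ dN h n w0) * (1 / 3 ^ (m + 1))) := by
  obtain ⟨b1, b2, b3⟩ := base hUPS hKUP hLAM hCT0 hN hh hS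
  constructor
  · exact hWSUM h n m k π p e r f w0 c hN hh (fun E => {q | q % 3 = 2 ∧ InCT E π w0 c q})
      (fun E q => 3 ^ kS h n b X Y P Q P' Q' E q) (4 * (1 / 3 ^ (m + 1))) (by positivity)
      (fun E q => by positivity) b1
      (fun y hy l u hu hli => (withy hKUP hCTJ hN hh hS hy hu hli).1)
  · exact hWSUM h n m k π p e r f w0 c hN hh (fun E => {q | q % 3 = 2 ∧ InCT E π w0 c q})
      (fun _ _ => 1) (1 / 3 ^ (m + 1)) (by positivity)
      (fun E q => by positivity) b3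
      (fun y hy l u hu hli => (withy hKUP hCTJ hN hh hS hy hu hli).2)

theorem nf_pos {n m k : ℕ} {π : Fin m → PP} {p e : Fin m → ℕ} {r f : Fin k → ℕ}
    (hN : NF n π p e r f) : 0 < n := by
  rw [hN.eq]
  exact Nat.mul_pos (Finset.prod_pos fun i _ => pow_pos (hN.pp i).pos _)
    (Finset.prod_pos fun j _ => pow_pos (hN.rp j).pos _)

/-- the rank for large `q` -/
theorem rk (hNBW : Stmt_NBW) (hWGR : Stmt_WGR)
    {h n m k : ℕ} {π : Fin m → PP} {p e : Fin m → ℕ} {r f : Fin k → ℕ}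
    {w0 : ZMod 3} {c : Fin m → ZMod 3} {s : ℕ} {τ : Fin s → Fin 3} {b X Y : Fin s → ℤ}
    {P Q P' Q' : Fin s → Fin s → ℤ} (hN : NF n π p e r f) (hh : h ≤ 2)
    (hS : PlS h n π w0 c τ b X Y P Q P' Q') {E q : ℕ} (hE : E = 1 ∨ E = 2) (hq : q.Prime)
    (hM : max 3 n < q) (hqS : q % 3 = 2 ∧ InCT E π w0 c q) :
    ∃ d : ℕ, Nat.card (WqS h n π p e r w0 c (BB h n E q)) = 3 ^ d ∧
      CubeRank.rr (BB h n E q) ≤ d + kS h n b X Y P Q P' Q' E q := by
  have h3 : 3 < q := lt_of_le_of_lt (le_max_left _ _) hM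
  have hnq : n < q := lt_of_le_of_lt (le_max_right _ _) hM
  have hdv : ¬ q ∣ n := fun hd => absurd (Nat.le_of_dvd (nf_pos hN) hd) (by omega)
  obtain ⟨⟨d, hd⟩, -⟩ := hWGR h n m k π p e r f w0 c E q hN hh hE hq h3 hqS.1 hqS.2 hdv
  have hg := hNBW h n m k π p e r f w0 c s τ b X Y P Q P' Q' E q hN hh hS.adm hS.sys hS.sw
    hS.lam hS.gen hE hq h3 hqS.1 hqS.2 hdv
  rw [hd, Nat.log_pow (by norm_num)] at hg
  exact ⟨d, hd, CubeRank.rr_le hg⟩

/-- the average of the rank from a bound `w ≤ α + β 3 ^ w` -/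
theorem rank_avg (hUPS : Stmt_UPS) (hKUP : Stmt_KUP) (hLAM : Stmt_LAM)
    (hWSUM : Stmt_WSUM) (hCTJ : Stmt_CTJ) (hCT0 : Stmt_CT0) (hNBW : Stmt_NBW) (hWGR : Stmt_WGR)
    {h n m k : ℕ} {π : Fin m → PP} {p e : Fin m → ℕ} {r f : Fin k → ℕ}
    {w0 : ZMod 3} {c : Fin m → ZMod 3} {s : ℕ} {τ : Fin s → Fin 3} {b X Y : Fin s → ℤ}
    {P Q P' Q' : Fin s → Fin s → ℤ} (hN : NF n π p e r f) (hh : h ≤ 2)
    (hS : PlS h n π w0 c τ b X Y P Q P' Q') {α β : ℝ} (hα : 0 ≤ α) (hβ : 0 ≤ β)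
    (hw : ∀ w : ℕ, (w : ℝ) ≤ α + β * 3 ^ w) :
    UpS (fun E => {q | q % 3 = 2 ∧ InCT E π w0 c q})
      (fun E q => (CubeRank.rr (BB h n E q) : ℝ))
      ((α + β * (3 + 3 ^ dN h n w0) + 13 / 12) / 3 ^ (m + 1)) := by
  obtain ⟨b1, b2, b3⟩ := base hUPS hKUP hLAM hCT0 hN hh hS
  obtain ⟨c1, c2⟩ := wq hUPS hKUP hLAM hWSUM hCTJ hCT0 hN hh hS
  have d3 := hUPS.2.2 _ _ _ α hα b3
  have d2 := hUPS.2.2 _ _ _ β hβ c2
  set S : ℕ → Set ℕ := fun E => {q | q % 3 = 2 ∧ InCT E π w0 c q} with hSdef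
  have key := hUPS.1 (Fin 3) S (fun E q => (CubeRank.rr (BB h n E q) : ℝ)) (fun _ => S)
    ![fun _ _ => α * 1,
      fun E q => β * ((Nat.card (WqS h n π p e r w0 c (BB h n E q)) : ℝ) * 1),
      fun E q => (kS h n b X Y P Q P' Q' E q : ℝ)]
    ![α * (1 / 3 ^ (m + 1)), β * ((3 + 3 ^ dN h n w0) * (1 / 3 ^ (m + 1))),
      13 / 12 * (1 / 3 ^ (m + 1))] 1 (max 3 n) one_pos
    (fun i E q => by
      fin_cases i
      · show (0 : ℝ) ≤ α * 1
        linarith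
      · show (0 : ℝ) ≤ β * ((Nat.card (WqS h n π p e r w0 c (BB h n E q)) : ℝ) * 1)
        positivity
      · show (0 : ℝ) ≤ (kS h n b X Y P Q P' Q' E q : ℝ)
        positivity)
    (fun E q hE hq hM hqS => by
      obtain ⟨d, hd, hr⟩ := rk hNBW hWGR hN hh hS hE hq hM hqS
      rw [Fin.sum_univ_three]
      rw [if_pos hqS, if_pos hqS, if_pos hqS]
      show 1 * (CubeRank.rr (BB h n E q) : ℝ) ≤ α * 1 +
        β * ((Nat.card (WqS h n π p e r w0 c (BB h n E q)) : ℝ) * 1) +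
        (kS h n b X Y P Q P' Q' E q : ℝ)
      rw [hd]
      have h1 : (CubeRank.rr (BB h n E q) : ℝ) ≤ (d : ℝ) + (kS h n b X Y P Q P' Q' E q : ℝ) := by
        exact_mod_cast hr
      have h2 := hw d
      push_cast
      linarith)
    (fun i => by
      fin_cases i
      · exact d3
      · exact d2
      · exact b2)
  have e1 : (∑ i : Fin 3, (![α * (1 / 3 ^ (m + 1)),
      β * ((3 + 3 ^ dN h n w0) * (1 / 3 ^ (m + 1))), 13 / 12 * (1 / 3 ^ (m + 1))] : Fin 3 → ℝ) i) / 1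
      = (α + β * (3 + 3 ^ dN h n w0) + 13 / 12) / 3 ^ (m + 1) := by
    rw [Fin.sum_univ_three]
    simp only [Matrix.cons_val_zero, Matrix.cons_val_one, Matrix.cons_val]
    ring
  rw [e1] at key
  exact key

/-- the average of `3 ^ r` -/
theorem pow_avg (hUPS : Stmt_UPS) (hKUP : Stmt_KUP) (hLAM : Stmt_LAM)
    (hWSUM : Stmt_WSUM) (hCTJ : Stmt_CTJ) (hCT0 : Stmt_CT0) (hNBW : Stmt_NBW) (hWGR : Stmt_WGR)
    {h n m k : ℕ} {π : Fin m → PP} {p e : Fin m → ℕ} {r f : Fin k → ℕ}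
    {w0 : ZMod 3} {c : Fin m → ZMod 3} {s : ℕ} {τ : Fin s → Fin 3} {b X Y : Fin s → ℤ}
    {P Q P' Q' : Fin s → Fin s → ℤ} (hN : NF n π p e r f) (hh : h ≤ 2)
    (hS : PlS h n π w0 c τ b X Y P Q P' Q') :
    UpS (fun E => {q | q % 3 = 2 ∧ InCT E π w0 c q})
      (fun E q => (3 : ℝ) ^ CubeRank.rr (BB h n E q))
      (4 * (3 + 3 ^ dN h n w0) / 3 ^ (m + 1)) := by
  obtain ⟨c1, c2⟩ := wq hUPS hKUP hLAM hWSUM hCTJ hCT0 hN hh hS
  set S : ℕ → Set ℕ := fun E => {q | q % 3 = 2 ∧ InCT E π w0 c q} with hSdef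
  have key := hUPS.1 Unit S (fun E q => (3 : ℝ) ^ CubeRank.rr (BB h n E q)) (fun _ => S)
    (fun _ E q => (Nat.card (WqS h n π p e r w0 c (BB h n E q)) : ℝ) *
        3 ^ kS h n b X Y P Q P' Q' E q)
    (fun _ => (3 + 3 ^ dN h n w0) * (4 * (1 / 3 ^ (m + 1)))) 1 (max 3 n) one_pos
    (fun i E q => by positivity)
    (fun E q hE hq hM hqS => by
      obtain ⟨d, hd, hr⟩ := rk hNBW hWGR hN hh hS hE hq hM hqS
      rw [Fintype.sum_unique, if_pos hqS, hd]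
      push_cast
      rw [one_mul, ← pow_add]
      exact pow_le_pow_right₀ (by norm_num) hr)
    (fun i => c1)
  have e1 : (∑ _i : Unit, ((3 + 3 ^ dN h n w0) * (4 * (1 / 3 ^ (m + 1))) : ℝ)) / 1
      = 4 * (3 + 3 ^ dN h n w0) / 3 ^ (m + 1) := by
    rw [Fintype.sum_unique]
    ring
  rw [e1] at key
  exact key

end AV2

open _root_.Pool.Agent.PTK.AV2 in
theorem AV2_thm (hUPS : Stmt_UPS) (hUPA : Stmt_UPA) (hKUP : Stmt_KUP)
    (hLAM : Stmt_LAM) (hWSUM : Stmt_WSUM) (hPLE : Stmt_PLE) (hCTJ : Stmt_CTJ) (hCT0 : Stmt_CT0)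
    (hNBW : Stmt_NBW) (hWGR : Stmt_WGR) : Stmt_AV2 := by
  intro h n m k π p e r f w0 c hN hh
  obtain ⟨s, τ, b, X, Y, P, Q, P', Q', -, hS⟩ := hPLE h n m k π p e r f w0 c hN hh
  have hd : dN h n w0 = 0 ∨ dN h n w0 = 1 ∨ dN h n w0 = 2 := by
    unfold dN
    split_ifs <;> simp
  constructor
  · refine hUPA h n m k π p e r f w0 c 2 (fun A => (CubeRank.rr A : ℝ)) _ hN ?_
    rcases hd with hd | hd | hd
    · have h1 := rank_avg hUPS hKUP hLAM hWSUM hCTJ hCT0 hNBW hWGR hN hh hS (α := 1 / 2)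
        (β := 1 / 6) (by norm_num) (by norm_num) (fun w => (AVR.nat1 w).trans (le_of_eq (by ring)))
      rw [hd] at h1 ⊢
      have e : ((1 : ℝ) / 2 + 1 / 6 * (3 + 3 ^ 0) + 13 / 12) = aQ 0 := by
        unfold aQ; norm_num
      rw [e] at h1
      exact h1
    · have h1 := rank_avg hUPS hKUP hLAM hWSUM hCTJ hCT0 hNBW hWGR hN hh hS (α := 1 / 2)
        (β := 1 / 6) (by norm_num) (by norm_num) (fun w => (AVR.nat1 w).trans (le_of_eq (by ring)))
      rw [hd] at h1 ⊢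
      have e : ((1 : ℝ) / 2 + 1 / 6 * (3 + 3 ^ 1) + 13 / 12) = aQ 1 := by
        unfold aQ; norm_num
      rw [e] at h1
      exact h1
    · have h1 := rank_avg hUPS hKUP hLAM hWSUM hCTJ hCT0 hNBW hWGR hN hh hS (α := 3 / 2)
        (β := 1 / 18) (by norm_num) (by norm_num) (fun w => (AVR.nat2 w).trans (le_of_eq (by ring)))
      rw [hd] at h1 ⊢
      have e : ((3 : ℝ) / 2 + 1 / 18 * (3 + 3 ^ 2) + 13 / 12) = aQ 2 := by
        unfold aQ; norm_num
      rw [e] at h1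
      exact h1
  · refine hUPA h n m k π p e r f w0 c 2 (fun A => (3 : ℝ) ^ CubeRank.rr A) _ hN ?_
    exact pow_avg hUPS hKUP hLAM hWSUM hCTJ hCT0 hNBW hWGR hN hh hS

end Pool.Agent.PTK

end

section

/-! PTK_FL2 (helper33): the law in a class, `q = 2 (mod 3)`. -/

set_option autoImplicit false

open Finset

namespace Pool.Agent.PTK

open Pool.Agent.Lib_helper18 Pool.Agent.Lib_helper18.Eis Pool.Agent.Lib_helper84.Cub
open Pool.Agent.PT Pool.Agent.PTE Pool.Agent.PT3 Pool.Agent.PTL Pool.Agent.PTN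

theorem FL2_thm (hUPS : Stmt_UPS) (hPLE : Stmt_PLE) (hZBA : Stmt_ZBA) (hMSF : Stmt_MSF)
    (hCNM : Stmt_CNM) (hNBW : Stmt_NBW) (hZKQ : Stmt_ZKQ) (hJD2 : Stmt_JD2) : Stmt_FL2 := by
  intro h n m k π p e r f w0 c hN hh F hF hF0
  obtain ⟨s, τ, b, X, Y, P, Q, P', Q', hs, hS⟩ := hPLE h n m k π p e r f w0 c hN hh
  obtain ⟨l, y, hy⟩ := hZBA h n m k π p e r w0 c hh
  obtain ⟨U, R, U', R', hU⟩ := hMSF h n m k π p e r f w0 c hN hh l y hy
  obtain ⟨N, α, β, hαβ⟩ := hCNM.1 l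
  obtain ⟨N₀, hN₀⟩ := hZKQ h n m k π p e r f w0 c hN hh l y U R U' R' hy hU
  have hJ := hJD2 h n m k π p e r f w0 c s τ b X Y P Q P' Q' hN hh hS l N y U R U' R' α β
    ⟨hy, hU, hαβ⟩ (fun a b => F (a + b)) (fun a x x' hx => hF (by omega))
    (fun a => hF0.trans (hF (Nat.zero_le _)))
  have key := hUPS.1 Unit (fun E => {q | q % 3 = 2 ∧ InCT E π w0 c q})
    (fun E q => F (CubeRank.rr (BB h n E q)))
    (fun _ => fun E => {q | q % 3 = 2 ∧ InCT E π w0 c q})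
    (fun _ E q => F (kY h n π e y U R U' R' E q + kS h n b X Y P Q P' Q' E q))
    (fun _ => Esk l (fun a => Esk s (fun b => F (a + b))) / 3 ^ (m + 1)) 1
    (max (max 3 n) N₀) one_pos
    (fun i E q => hF0.trans (hF (Nat.zero_le _)))
    (fun E q hE hq hM hqS => by
      rw [Fintype.sum_unique, if_pos hqS, one_mul]
      have h3 : 3 < q := lt_of_le_of_lt ((le_max_left _ _).trans (le_max_left _ _)) hM
      have hnq : n < q := lt_of_le_of_lt ((le_max_right _ _).trans (le_max_left _ _)) hM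
      have hN0q : N₀ < q := lt_of_le_of_lt (le_max_right _ _) hM
      have hdv : ¬ q ∣ n := fun hd => absurd (Nat.le_of_dvd (AV2.nf_pos hN) hd) (by omega)
      have hg := CubeRank.rr_le (hNBW h n m k π p e r f w0 c s τ b X Y P Q P' Q' E q hN hh hS.adm
        hS.sys hS.sw hS.lam hS.gen hE hq h3 hqS.1 hqS.2 hdv)
      have hk := (hN₀ E q hE hq hN0q (Or.inr hqS.1) hqS.2).2
      refine hF (hg.trans ?_)
      exact Nat.add_le_add_right hk _)
    (fun i => hJ)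
  rw [Fintype.sum_unique, div_one] at key
  rw [← hs, ← hy.card]
  exact key

end Pool.Agent.PTK

end
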