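import Mathlib
import Pool.Agent.PTWX.C58
import Pool.Agent.PTWX.C59
import Pool.Agent.PTWX.C67
import Pool.Agent.PTWX.C74
import Pool.Agent.PTWX.C82

/-! Parts: PTKX.ZS2, PTKX.MS2, PTKX.ZKQ, PTKX.NFX -/

namespace Pool.Agent.PTK.ZS2
end Pool.Agent.PTK.ZS2

namespace Pool.Agent.PTK.MS2
end Pool.Agent.PTK.MS2

namespace Pool.Agent.PTK.ZKQ
end Pool.Agent.PTK.ZKQ

namespace Pool.Agent.PTK.NFX
end Pool.Agent.PTK.NFX

section

/-!
# PTK_ZS2: the primes of `QMM` are in `SPZ`, `SMZ`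
-/

set_option autoImplicit false

open NumberField IsDedekindDomain Finset
open scoped nonZeroDivisors Pointwise

namespace Pool.Agent.PTK

open Pool.Agent.Lib_helper18 Pool.Agent.Lib_helper18.Eis Pool.Agent.Lib_helper84.Cub
open Pool.Agent.PT Pool.Agent.PTE Pool.Agent.PT3 Pool.Agent.PTL Pool.Agent.PTN

namespace ZS2

theorem BB_eis (h n E q : ℕ) :
    ((BB h n E q : ℤ) : Eis) = ((3 ^ h * n : ℕ) : Eis) * (q : Eis) ^ E := by
  unfold BB
  push_cast
  ring

end ZS2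

open CTK _root_.Pool.Agent.PTK.ZS2 in
/-- PTK_ZS2. -/
theorem ZS2_thm (hDE2 : Stmt_DE2) (hZS : Stmt_ZS) (hZA : Stmt_ZA) (_hSTM : STM) (hSPP : SPP) :
    Stmt_ZS2 := by
  classical
  intro h n m k π p e r f w0 c hNF hh l N y U R U' R' α β hMn
  have hn0 : 0 < n := PT.FINA.pos_of_nf hNF
  have hN0 : 0 < 3 ^ h * n := Nat.mul_pos (pow_pos (by norm_num) _) hn0
  have hx0 : ∀ i, zN π e (y i) ≠ 0 := fun i => (hZA n m k π p e r f hNF (y i)).1
  have hnd : ∀ (v : Fin (m + 1) → ZMod 3) (q : ℕ), q.Prime → q % 3 = 2 → ¬ q ∣ n →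
      ¬ (q : Eis) ∣ zN π e v := by
    intro v q hq hq3 hqn
    obtain ⟨-, -, -, h4, -⟩ := hZA n m k π p e r f hNF v
    obtain ⟨σ, hσ⟩ := hSPP.2.2.2.2.1 q hq hq3
    have h5 := h4 σ
    rw [hσ] at h5
    exact h5 fun h6 => hqn (nat_dvd h6)
  have hunr : ∀ (i : Fin l) (σ : PP), ¬ σ.1 ∣ ((3 ^ h * n : ℕ) : Eis) →
      ¬ σ.1 ∣ zN π e (y i) := by
    intro i σ hσ
    refine (hZA n m k π p e r f hNF (y i)).2.2.2.1 σ fun h2 => hσ ?_
    push_cast
    exact Dvd.dvd.mul_left h2 _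
  have hne : ∀ j : Fin N, α j ≠ β j := fun j => ne_of_lt (hMn.prs.lt j)
  have hHyp : ∀ j : Fin N, HypE (3 ^ h * n) (zN π e (y (α j))) (zN π e (y (β j)))
      (U (α j) (β j)) (R (α j) (β j)) (U' (α j) (β j)) (R' (α j) (β j)) := fun j =>
    ⟨hN0, hMn.sys.sol (α j) (β j) (hne j), hx0 _, hx0 _,
      fun σ hσ => ⟨hunr _ σ hσ, hunr _ σ hσ⟩, SYK.VN_le hSPP hNF h⟩
  -- the conductor
  choose F0 hF0 hF1 using fun j => hDE2 _ _ _ _ _ _ _ (hHyp j)
  refine ⟨∏ j, F0 j, Finset.prod_pos fun j _ => hF0 j, ?_⟩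
  intro F hFpos hFdvd κ hκ1
  have hFd : ∀ j, F0 j ∣ F := fun j => (Finset.dvd_prod_of_mem F0 (mem_univ j)).trans hFdvd
  choose C Φ N₀ hC using fun j => hF1 j F hFpos (hFd j)
  have hMN : ∀ j, N₀ j ≤ ∑ j, N₀ j := fun j =>
    Finset.single_le_sum (f := N₀) (fun i _ => Nat.zero_le _) (mem_univ j)
  have hmain : ∀ (E q : ℕ) (M : Fin N → ZMod 3), (E = 1 ∨ E = 2) → q.Prime →
      3 ^ h * n + F + ∑ j, N₀ j < q →
      q ∈ QMM h n π e w0 c y U R U' R' α β M 2 E →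
      ∃ hQ : q.Coprime F, (∀ i, sym (q : Eis) (zN π e (y i)) = 0) ∧
        ∀ (j : Fin N) (ξ : Eis), (q : Eis) ∣ ξ ^ 3 - zN π e (y (α j)) →
          M j = C j + E * ((Φ j (ZMod.unitOfCoprime q hQ)).toAdd -
            TAUE q (U (α j) (β j)) (R (α j) (β j)) (U' (α j) (β j)) (R' (α j) (β j)) ξ) := by
    intro E q M hE hq hqM ⟨hq3, hIn, hMY⟩
    have hqN : ¬ q ∣ 3 ^ h * n := fun h => by
      have := Nat.le_of_dvd hN0 h
      omega
    have hqn : ¬ q ∣ n := fun h => hqN (Dvd.dvd.mul_left h _)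
    have hQ : q.Coprime F := by
      rw [Nat.Prime.coprime_iff_not_dvd hq]
      intro h
      have := Nat.le_of_dvd hFpos h
      omega
    have hSel : ∀ i, ∀ σ : PP,
        tm σ.1 (zN π e (y i)) (((3 ^ h * n : ℕ) : Eis) * (q : Eis) ^ E) = 0 := by
      intro i σ
      have h1 := (hZS h n m k π p e r f w0 c E q hNF hh hE hq hq3 hIn hqn (y i)
        (hMn.bas.mem i)).sym σ
      rwa [BB_eis] at h1
    refine ⟨hQ, fun i => sym_zero hSPP hq hq3 hE hqN (hnd (y i) q hq hq3 hqn) (hSel i), ?_⟩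
    intro j ξ hξ
    have h2 := hC j E q hQ hE hq (by have := hMN j; omega) hq3 (hSel (α j)) (hSel (β j)) ξ hξ
    have h3 := hMY j
    unfold MY MaZ at h3
    rw [if_neg (hne j), BB_eis] at h3
    rw [← h3]
    exact h2
  refine ⟨C, assemble Φ, 3 ^ h * n + F + ∑ j, N₀ j, ?_⟩
  intro q M hq hqM
  constructor
  · intro hqY
    obtain ⟨hQ, h2, h4⟩ := hmain 1 q M (Or.inl rfl) hq hqM hqY
    obtain ⟨hq3, hIn, -⟩ := hqY
    refine ⟨hQ, hq3, ?_, h2, ?_⟩
    · rw [hκ1]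
      funext i
      refine Fin.cases ?_ (fun i => ?_) i
      · rw [Fin.cons_zero, Fin.cons_zero]
        have h5 := hIn.1
        rw [pow_one] at h5
        exact h5
      · rw [Fin.cons_succ, Fin.cons_succ]
        have h5 := hIn.2 i
        rw [Nat.cast_one, one_mul] at h5
        exact h5
    · intro j ξ hξ
      have h5 := h4 j ξ hξ
      rw [assemble_apply, Pi.sub_apply]
      rw [Nat.cast_one, one_mul] at h5
      linear_combination h5
  · intro hqY
    obtain ⟨hQ, h2, h4⟩ := hmain 2 q M (Or.inr rfl) hq hqM hqY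
    obtain ⟨hq3, hIn, -⟩ := hqY
    refine ⟨hQ, hq3, ?_, h2, ?_⟩
    · rw [hκ1]
      funext i
      refine Fin.cases ?_ (fun i => ?_) i
      · rw [Fin.cons_zero, Pi.neg_apply, Fin.cons_zero]
        have h5 := hIn.1
        rw [CL.wt_sq2 hq3] at h5
        exact neg_of_two h5
      · rw [Fin.cons_succ, Pi.neg_apply, Fin.cons_succ]
        exact neg_of_two (hIn.2 i)
    · intro j ξ hξ
      have h5 := h4 j ξ hξ
      rw [assemble_apply, Pi.sub_apply]
      rw [show ((2 : ℕ) : ZMod 3) = -1 from by decide] at h5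
      linear_combination -h5

end Pool.Agent.PTK

end

section

/-!
# PTK_MS2: the primes of `QM` are in `SPZ`, `SMZ`
-/

set_option autoImplicit false

open NumberField IsDedekindDomain Finset
open scoped nonZeroDivisors Pointwise

namespace Pool.Agent.PTK

open Pool.Agent.Lib_helper18 Pool.Agent.Lib_helper18.Eis Pool.Agent.Lib_helper84.Cub
open Pool.Agent.PT Pool.Agent.PTE Pool.Agent.PT3 Pool.Agent.PTL Pool.Agent.PTN

namespace MS2

theorem BB_eis (h n E q : ℕ) :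
    ((BB h n E q : ℤ) : Eis) = ((3 ^ h * n : ℕ) : Eis) * (q : Eis) ^ E := by
  unfold BB
  push_cast
  ring

theorem BB_int (h n E q : ℕ) : ((3 ^ h * n : ℕ) : ℤ) * (q : ℤ) ^ E = BB h n E q := by
  unfold BB
  push_cast
  ring

theorem BB_ne {h n E q : ℕ} (hn : 0 < n) (hq : q.Prime) : BB h n E q ≠ 0 := by
  unfold BB
  have h3 : (3 : ℤ) ^ h ≠ 0 := pow_ne_zero _ (by norm_num)
  have h4 : (n : ℤ) ≠ 0 := by exact_mod_cast hn.ne'
  have h5 : (q : ℤ) ^ E ≠ 0 := pow_ne_zero _ (by exact_mod_cast hq.ne_zero)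
  exact mul_ne_zero (mul_ne_zero h3 h4) h5

theorem lv_BB_ne {n m k : ℕ} {π : Fin m → PP} {p e : Fin m → ℕ} {r f : Fin k → ℕ}
    (hLCL : LCL) (hn : NF n π p e r f) {h E q : ℕ} (hq : q.Prime) (hq3 : ¬ 3 ∣ q)
    (hh : h ≤ 2) (h1 : h ≠ 1) : lv (BB h n E q) ≠ 1 := by
  rw [(HYPT.lvw hLCL hn (h := h) (E := E) hq hq3 rfl).1]
  have h2 : h = 0 ∨ h = 2 := by omega
  rcases h2 with rfl | rfl
  · rw [Nat.cast_zero]
    decide
  · decide

/-- the relation for one pair -/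
theorem pair (hDCK : Stmt_DCK) (hDXK : Stmt_DXK) (hPT : Stmt_PT) (hPTX : Stmt_PTX)
    (hLCL : LCL) {n m k : ℕ} {π : Fin m → PP} {p e : Fin m → ℕ} {r f : Fin k → ℕ}
    (hn : NF n π p e r f) {h : ℕ} (hh : h ≤ 2) {b x P Q P' Q' : Eis} (hx0 : x ≠ 0)
    (hxnc : ¬ ∃ t : Eis, t ^ 3 = x)
    (H : HypD (3 ^ h * n) b x P Q P' Q' ∨ (h ≠ 1 ∧ HypX (3 ^ h * n) b x P Q P' Q')) :
    ∃ f₀ : ℕ, 0 < f₀ ∧ ∀ f : ℕ, 0 < f → f₀ ∣ f →
    ∃ (C : ZMod 3) (Φ : (ZMod f)ˣ →* Multiplicative (ZMod 3)) (N₀ : ℕ),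
    ∀ (E q : ℕ) (hQ : q.Coprime f), (E = 1 ∨ E = 2) → q.Prime → N₀ < q → q % 3 = 2 →
      (∀ σ : PP, tm σ.1 b (((3 ^ h * n : ℕ) : Eis) * (q : Eis) ^ E) = 0) →
      (∀ σ : PP, tm σ.1 x (((3 ^ h * n : ℕ) : Eis) * (q : Eis) ^ E) = 0) →
      Occ (BB h n E q) x → ∀ ξ : Eis, (q : Eis) ∣ ξ ^ 3 - x →
        C + E * ((Φ (ZMod.unitOfCoprime q hQ)).toAdd - TAUE q P Q P' Q' ξ) = 0 := by
  have hn0 : 0 < n := PT.FINA.pos_of_nf hn
  rcases H with H | ⟨h1, H⟩
  · obtain ⟨f₀, hf₀, hf⟩ := hDCK _ _ _ _ _ _ _ H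
    refine ⟨f₀, hf₀, fun f hf1 hf2 => ?_⟩
    obtain ⟨C, Φ, N₀, hC⟩ := hf f hf1 hf2
    refine ⟨C, Φ, N₀, ?_⟩
    intro E q hQ hE hq hqN hq3 hb hx hOcc ξ hξ
    obtain ⟨X, Y, hpt⟩ := hPT (BB h n E q) x (BB_ne hn0 hq) hx0 hxnc hOcc
    rw [BB_eis] at hpt
    exact hC E q hQ hE hq hqN hq3 hb hx X Y ξ hpt hξ
  · obtain ⟨f₀, hf₀, hf⟩ := hDXK _ _ _ _ _ _ _ H
    refine ⟨f₀, hf₀, fun f hf1 hf2 => ?_⟩
    obtain ⟨C, Φ, N₀, hC⟩ := hf f hf1 hf2
    refine ⟨C, Φ, N₀, ?_⟩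
    intro E q hQ hE hq hqN hq3 hb hx hOcc ξ hξ
    obtain ⟨X, Y, hpt, hg⟩ := hPTX (BB h n E q) x (BB_ne hn0 hq)
      (lv_BB_ne hLCL hn hq (by omega) hh h1) hx0 hxnc hOcc
    rw [BB_eis] at hpt
    rw [← BB_int] at hg
    exact hC E q hQ hE hq hqN hq3 hb hx X Y ξ hpt hg hξ

/-- the classes of a system are not cubes -/
theorem SysZ_nc {M N : ℕ} {z : Fin M → Eis} {α β : Fin N → Fin M} {P Q P' Q' : Fin N → Eis}
    (hS : SysZ z α β P Q P' Q') (i : Fin M) : ¬ ∃ t : Eis, t ^ 3 = z i := by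
  rintro ⟨t, ht⟩
  refine hS.ind (Pi.single i 1) ⟨i, ?_⟩ ⟨t, ?_⟩
  · rw [Pi.single_eq_same]
    norm_num
  · have h1 : ∏ j, z j ^ (Pi.single i 1 : Fin M → ℕ) j = z i := by
      rw [Finset.prod_eq_single i]
      · rw [Pi.single_eq_same, pow_one]
      · intro j _ hj
        rw [Pi.single_eq_of_ne hj, pow_zero]
      · intro hi
        exact absurd (mem_univ i) hi
    rw [ht, h1]

end MS2

open CTK _root_.Pool.Agent.PTK.MS2 in
/-- PTK_MS2. -/
theorem MS2_thm (hSPP : SPP) (hLCL : LCL) (hDCK : Stmt_DCK) (hDXK : Stmt_DXK) (hPT : Stmt_PT)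
    (hPTX : Stmt_PTX) (hZS : Stmt_ZS) (hZA : Stmt_ZA) : Stmt_MS2 := by
  classical
  intro h n m k π p e r f w0 c hNF hh M N y α β hT P Q P' Q' hSys hHyp
  have hn0 : 0 < n := PT.FINA.pos_of_nf hNF
  have hN0 : 0 < 3 ^ h * n := Nat.mul_pos (pow_pos (by norm_num) _) hn0
  have hx0 : ∀ i, zN π e (y i) ≠ 0 := fun i => (hZA n m k π p e r f hNF (y i)).1
  have hnd : ∀ (v : Fin (m + 1) → ZMod 3) (q : ℕ), q.Prime → q % 3 = 2 → ¬ q ∣ n →
      ¬ (q : Eis) ∣ zN π e v := by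
    intro v q hq hq3 hqn
    obtain ⟨-, -, -, h4, -⟩ := hZA n m k π p e r f hNF v
    obtain ⟨σ, hσ⟩ := hSPP.2.2.2.2.1 q hq hq3
    have h5 := h4 σ
    rw [hσ] at h5
    exact h5 fun h6 => hqn (nat_dvd h6)
  -- the conductor
  choose F0 hF0 hF1 using fun j => pair hDCK hDXK hPT hPTX hLCL hNF hh (hx0 (α j))
    (SysZ_nc hSys (α j)) (hHyp j)
  refine ⟨∏ j, F0 j, Finset.prod_pos fun j _ => hF0 j, ?_⟩
  intro F hFpos hFdvd κ hκ1
  have hFd : ∀ j, F0 j ∣ F := fun j => (Finset.dvd_prod_of_mem F0 (mem_univ j)).trans hFdvd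
  choose C Φ N₀ hC using fun j => hF1 j F hFpos (hFd j)
  have hMN : ∀ j, N₀ j ≤ ∑ j, N₀ j := fun j =>
    Finset.single_le_sum (f := N₀) (fun i _ => Nat.zero_le _) (mem_univ j)
  have hmain : ∀ (E q : ℕ), (E = 1 ∨ E = 2) → q.Prime → 3 ^ h * n + F + ∑ j, N₀ j < q →
      q ∈ QM h n π e w0 c y α 2 E →
      ∃ hQ : q.Coprime F, (∀ i, sym (q : Eis) (zN π e (y i)) = 0) ∧
        ∀ (j : Fin N) (ξ : Eis), (q : Eis) ∣ ξ ^ 3 - zN π e (y (α j)) →
          C j + E * ((Φ j (ZMod.unitOfCoprime q hQ)).toAdd -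
            TAUE q (P j) (Q j) (P' j) (Q' j) ξ) = 0 := by
    intro E q hE hq hqM ⟨hq3, hIn, hOcc⟩
    have hqN : ¬ q ∣ 3 ^ h * n := fun h => by
      have := Nat.le_of_dvd hN0 h
      omega
    have hqn : ¬ q ∣ n := fun h => hqN (Dvd.dvd.mul_left h _)
    have hQ : q.Coprime F := by
      rw [Nat.Prime.coprime_iff_not_dvd hq]
      intro h
      have := Nat.le_of_dvd hFpos h
      omega
    have hSel : ∀ i, ∀ σ : PP,
        tm σ.1 (zN π e (y i)) (((3 ^ h * n : ℕ) : Eis) * (q : Eis) ^ E) = 0 := by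
      intro i σ
      have h1 := (hZS h n m k π p e r f w0 c E q hNF hh hE hq hq3 hIn hqn (y i)
        (hT.mem i)).sym σ
      rwa [BB_eis] at h1
    refine ⟨hQ, fun i => sym_zero hSPP hq hq3 hE hqN (hnd (y i) q hq hq3 hqn) (hSel i), ?_⟩
    intro j ξ hξ
    exact hC j E q hQ hE hq (by have := hMN j; omega) hq3 (hSel (β j)) (hSel (α j)) (hOcc j)
      ξ hξ
  refine ⟨C, assemble Φ, 3 ^ h * n + F + ∑ j, N₀ j, ?_⟩
  intro q hq hqM
  constructor
  · intro hqY
    obtain ⟨hQ, h2, h4⟩ := hmain 1 q (Or.inl rfl) hq hqM hqY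
    obtain ⟨hq3, hIn, -⟩ := hqY
    refine ⟨hQ, hq3, ?_, h2, ?_⟩
    · rw [hκ1]
      funext i
      refine Fin.cases ?_ (fun i => ?_) i
      · rw [Fin.cons_zero, Fin.cons_zero]
        have h5 := hIn.1
        rw [pow_one] at h5
        exact h5
      · rw [Fin.cons_succ, Fin.cons_succ]
        have h5 := hIn.2 i
        rw [Nat.cast_one, one_mul] at h5
        exact h5
    · intro j ξ hξ
      have h5 := h4 j ξ hξ
      rw [assemble_apply]
      rw [Nat.cast_one, one_mul] at h5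
      linear_combination -h5
  · intro hqY
    obtain ⟨hQ, h2, h4⟩ := hmain 2 q (Or.inr rfl) hq hqM hqY
    obtain ⟨hq3, hIn, -⟩ := hqY
    refine ⟨hQ, hq3, ?_, h2, ?_⟩
    · rw [hκ1]
      funext i
      refine Fin.cases ?_ (fun i => ?_) i
      · rw [Fin.cons_zero, Pi.neg_apply, Fin.cons_zero]
        have h5 := hIn.1
        rw [CL.wt_sq2 hq3] at h5
        exact neg_of_two h5
      · rw [Fin.cons_succ, Pi.neg_apply, Fin.cons_succ]
        exact neg_of_two (hIn.2 i)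
    · intro j ξ hξ
      have h5 := h4 j ξ hξ
      rw [assemble_apply]
      rw [show ((2 : ℕ) : ZMod 3) = -1 from by decide] at h5
      linear_combination h5

end Pool.Agent.PTK

end

section

/-!
# PTK_ZKQ: the number of the classes of points is bounded by the corank of the matrix
-/

set_option autoImplicit false

open NumberField IsDedekindDomain Finset
open scoped nonZeroDivisors Pointwise

namespace Pool.Agent.PTK

open Pool.Agent.Lib_helper18 Pool.Agent.Lib_helper18.Eis Pool.Agent.Lib_helper84.Cub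
open Pool.Agent.PT Pool.Agent.PTE Pool.Agent.PT3 Pool.Agent.PTL Pool.Agent.PTN

namespace ZKQ

/-! ### Equality up to cubes -/

/-- equality up to cubes -/
def CE (x y : Eis) : Prop := ∃ g g' : Eis, g ≠ 0 ∧ g' ≠ 0 ∧ x * g ^ 3 = y * g' ^ 3

theorem CE.refl (x : Eis) : CE x x := ⟨1, 1, one_ne_zero, one_ne_zero, rfl⟩

theorem CE.symm {x y : Eis} (h : CE x y) : CE y x := by
  obtain ⟨g, g', hg, hg', e⟩ := h
  exact ⟨g', g, hg', hg, e.symm⟩

theorem CE.trans {x y z : Eis} (h : CE x y) (h' : CE y z) : CE x z := by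
  obtain ⟨g, g', hg, hg', e⟩ := h
  obtain ⟨u, v, hu, hv, e'⟩ := h'
  refine ⟨g * u, v * g', mul_ne_zero hg hu, mul_ne_zero hv hg', ?_⟩
  linear_combination (u ^ 3) * e + (g' ^ 3) * e'

theorem CE.mul {x y x' y' : Eis} (h : CE x y) (h' : CE x' y') : CE (x * x') (y * y') := by
  obtain ⟨g, g', hg, hg', e⟩ := h
  obtain ⟨u, v, hu, hv, e'⟩ := h'
  refine ⟨g * u, g' * v, mul_ne_zero hg hu, mul_ne_zero hg' hv, ?_⟩
  linear_combination (x' * u ^ 3) * e + (y * g' ^ 3) * e'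

theorem occ_ce {B : ℤ} {x y : Eis} (h : Occ B x) (h' : CE x y) : Occ B y := by
  obtain ⟨ζ, g, g', hζ, hg, hg', e⟩ := h
  obtain ⟨u, v, hu, hv, e'⟩ := h'
  refine ⟨ζ, g * u, v * g', hζ, mul_ne_zero hg hu, mul_ne_zero hv hg', ?_⟩
  linear_combination (u ^ 3) * e + (g' ^ 3) * e'

section

variable {n m k : ℕ} {π : Fin m → PP} {p e : Fin m → ℕ} {r f : Fin k → ℕ}

theorem ce_add (hZA : Stmt_ZA) (hn : NF n π p e r f) (y y' : Fin (m + 1) → ZMod 3) :
    CE (zN π e (y + y')) (zN π e y * zN π e y') := by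
  obtain ⟨g, g', hg, hg', h⟩ := (hZA n m k π p e r f hn y).2.2.2.2.2.2.2.2.1 y'
  exact ⟨g', g, hg', hg, h.symm⟩

theorem ce_smul (hZA : Stmt_ZA) (hn : NF n π p e r f) (y : Fin (m + 1) → ZMod 3) (c : ℕ) :
    CE (zN π e (c • y)) (zN π e y ^ c) := by
  induction c with
  | zero =>
    rw [zero_smul, WGR.zN_zero, pow_zero]
    exact CE.refl 1
  | succ c ih =>
    rw [succ_nsmul, pow_succ]
    exact (ce_add hZA hn _ _).trans (ih.mul (CE.refl _))

theorem ce_sum (hZA : Stmt_ZA) (hn : NF n π p e r f) {l : ℕ} (y : Fin l → Fin (m + 1) → ZMod 3)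
    (c : Fin l → ℕ) (s : Finset (Fin l)) :
    CE (zN π e (∑ i ∈ s, c i • y i)) (∏ i ∈ s, zN π e (y i) ^ c i) := by
  classical
  induction s using Finset.induction_on with
  | empty =>
    rw [Finset.sum_empty, Finset.prod_empty, WGR.zN_zero]
    exact CE.refl 1
  | insert a s ha ih =>
    rw [Finset.sum_insert ha, Finset.prod_insert ha]
    exact (ce_add hZA hn _ _).trans ((ce_smul hZA hn _ _).mul ih)

end

/-! ### Linear algebra -/

/-- the dimension of `W` is at most the dimension of the kernel -/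
theorem dim_le {M l : ℕ} (W V : Submodule (ZMod 3) (Fin M → ZMod 3)) (hWV : W ≤ V)
    (y : Fin l → Fin M → ZMod 3) (hind : LinearIndependent (ZMod 3) y) (hmem : ∀ i, y i ∈ V)
    (hcard : l = Module.finrank (ZMod 3) V) (A : Matrix (Fin l) (Fin l) (ZMod 3))
    (hA : ∀ c : Fin l → ZMod 3, c ≠ 0 → ∑ i, c i • y i ∈ W → A.mulVec c = 0) :
    Module.finrank (ZMod 3) W ≤ l - A.rank := by
  haveI : Fact (Nat.Prime 3) := ⟨Nat.prime_three⟩
  have hT : ∀ c, Fintype.linearCombination (ZMod 3) y c = ∑ i, c i • y i := fun c => by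
    rw [Fintype.linearCombination_apply]
  have hr : LinearMap.range (Fintype.linearCombination (ZMod 3) y) =
      Submodule.span (ZMod 3) (Set.range y) := Fintype.range_linearCombination (ZMod 3) y
  have hspan : Submodule.span (ZMod 3) (Set.range y) = V := by
    apply Submodule.eq_of_le_of_finrank_le
    · rw [Submodule.span_le]
      rintro _ ⟨i, rfl⟩
      exact hmem i
    · rw [finrank_span_eq_card hind, Fintype.card_fin]
      exact hcard.symm.le
  have h1 : W ≤ LinearMap.range (Fintype.linearCombination (ZMod 3) y) := by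
    rw [hr, hspan]
    exact hWV
  have h2 : (W.comap (Fintype.linearCombination (ZMod 3) y)).map
      (Fintype.linearCombination (ZMod 3) y) = W := Submodule.map_comap_eq_of_le h1
  have h3 : Module.finrank (ZMod 3) W ≤
      Module.finrank (ZMod 3) (W.comap (Fintype.linearCombination (ZMod 3) y)) := by
    conv_lhs => rw [← h2]
    exact Submodule.finrank_map_le _ _
  have h4 : W.comap (Fintype.linearCombination (ZMod 3) y) ≤ LinearMap.ker A.mulVecLin := by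
    intro c hc
    rw [Submodule.mem_comap, hT] at hc
    rw [LinearMap.mem_ker, Matrix.mulVecLin_apply]
    by_cases h0 : c = 0
    · rw [h0, Matrix.mulVec_zero]
    · exact hA c h0 hc
  have h5 := Submodule.finrank_mono h4
  have h6 := LinearMap.finrank_range_add_finrank_ker A.mulVecLin
  rw [Module.finrank_fin_fun] at h6
  have h7 : A.rank = Module.finrank (ZMod 3) (LinearMap.range A.mulVecLin) := rfl
  omega

end ZKQ

open _root_.Pool.Agent.PTK.ZKQ in
/-- PTK_ZKQ. -/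
theorem ZKQ_thm (hSPP : SPP) (hSSL : SSL) (hSLC : SLC) (hLCL : LCL) (hZKE : Stmt_ZKE)
    (hZS : Stmt_ZS) (hZSU : Stmt_ZSU) (hZA : Stmt_ZA) (hZL : Stmt_ZL) (hWSB : Stmt_WSB)
    (hVDIM : Stmt_VDIM) (hPT : Stmt_PT) (hPTX : Stmt_PTX) (hPTY : Stmt_PTY)
    (hLCI : Stmt_LCI) : Stmt_ZKQ := by
  classical
  haveI : Fact (Nat.Prime 3) := ⟨Nat.prime_three⟩
  intro h n m k π p e r f w0 c hNF hh l y U R U' R' hBas hSys
  have hn0 : 0 < n := PT.FINA.pos_of_nf hNF
  have hN0 : 0 < 3 ^ h * n := Nat.mul_pos (pow_pos (by norm_num) _) hn0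
  have hA := fun i => hZA n m k π p e r f hNF (y i)
  have hunr : ∀ (σ : PP) (i : Fin l), ¬ σ.1 ∣ ((3 ^ h * n : ℕ) : Eis) →
      ¬ σ.1 ∣ (fun i => zN π e (y i)) i := by
    intro σ i hσ
    refine (hA i).2.2.2.1 σ fun h2 => hσ ?_
    push_cast
    exact Dvd.dvd.mul_left h2 _
  obtain ⟨N₁, hN₁⟩ := hZKE l (3 ^ h * n) (fun i => zN π e (y i)) U R U' R' hSys hN0
    (fun σ => SYK.VN_le hSPP hNF h σ) hunr
  refine ⟨N₁ + 3 + n, ?_⟩
  intro E q hE hq hqN hq12 hIn
  have hq3 : 3 < q := by omega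
  have hqn : ¬ q ∣ n := fun hd => absurd (Nat.le_of_dvd hn0 hd) (by omega)
  have h3q : ¬ 3 ∣ q := by omega
  have hSel : ∀ v ∈ VS h n π p e r w0 c, SelM (BB h n E q) (zN π e v) := by
    intro v hv
    rcases hq12 with h1 | h1
    · exact hZSU h n m k π p e r f w0 c E q hNF hh hE hq h1 hIn hqn v hv
    · exact hZS h n m k π p e r f w0 c E q hNF hh hE hq h1 hIn hqn v hv
  have hB0 : BB h n E q ≠ 0 := MS2.BB_ne hn0 hq
  have hlvw := HYPT.lvw hLCL hNF (h := h) (E := E) hq h3q hIn.1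
  have hL : ∀ v, v ∈ V0 h n π p e r w0 c → LCE lam (zN π e v) := fun v hv =>
    SYK.lc hLCI (hZL n m k π p e r f hNF v hv.2.1 hv.2.2)
  have hcf := NBK0.cubeFree_BB hNF hh hE hq hq3 hqn
  have h3le : 3 ≤ (BB h n E q).natAbs := NBK0.three_le hNF hE hq hq3
  have hnc : ¬ ∃ t : ℤ, t ^ 3 = BB h n E q :=
    CubeRank.GenPf.not_cube hcf (by rw [Int.abs_eq_natAbs]; exact_mod_cast h3le)
  have hTy : TyZ (fun i => zN π e (y i)) (BB h n E q) := by
    rcases hBas.ty with ⟨h0, h1⟩ | h1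
    · left
      have hlw : lw (BB h n E q) = 0 := by rw [hlvw.2]; exact h1
      have h3B : ¬ (3 : ℤ) ∣ BB h n E q := by
        intro h4
        unfold BB at h4
        rw [h0, pow_zero, one_mul] at h4
        rcases Int.prime_three.dvd_or_dvd h4 with h5 | h5
        · exact PT.FINA.three_of_nf hNF (by exact_mod_cast h5)
        · have h6 := Int.prime_three.dvd_of_dvd_pow h5
          exact h3q (by exact_mod_cast h6)
      rw [(hLCL.2.2.2.1 _ h3B).2] at hlw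
      have h9 : (9 : ℤ) ∣ (BB h n E q) ^ 2 - 1 := by
        have h5 : (3 : ℤ) ∣ (BB h n E q) ^ 2 - 1 := by
          have : (BB h n E q) % 3 = 1 ∨ (BB h n E q) % 3 = 2 := by omega
          rcases this with h6 | h6
          · have : (BB h n E q) ^ 2 - 1 = (BB h n E q - 1) * (BB h n E q + 1) := by ring
            rw [this]
            exact Dvd.dvd.mul_right (by omega) _
          · have : (BB h n E q) ^ 2 - 1 = (BB h n E q - 1) * (BB h n E q + 1) := by ring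
            rw [this]
            exact Dvd.dvd.mul_left (by omega) _
        obtain ⟨t, ht⟩ := h5
        have h7 : ((BB h n E q) ^ 2 - 1) / 3 = t := by rw [ht]; simp
        unfold wt at hlw
        rw [h7, ZMod.intCast_zmod_eq_zero_iff_dvd _ 3] at hlw
        obtain ⟨u, hu⟩ := hlw
        refine ⟨u, ?_⟩
        rw [ht, hu]
        push_cast
        ring
      refine SYK.lc hLCI ?_
      obtain ⟨t, ht⟩ := h9
      have h10 : ((BB h n E q : ℤ) : Eis) ^ 2 - 1 = 9 * ((t : ℤ) : Eis) := by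
        have := congrArg (fun x : ℤ => (x : Eis)) ht
        push_cast at this
        exact this
      rw [h10]
      exact Dvd.dvd.mul_right ⟨w, by decide⟩ _
    · right
      intro i j hij
      rcases h1 i j hij with h2 | h2
      · exact Or.inl (hL _ h2)
      · exact Or.inr (hL _ h2)
  have hmain := hN₁ E q (BB h n E q) hE hq (by omega) (MS2.BB_int h n E q).symm
    (fun σ i => (hSel _ (hBas.mem i)).sym σ) hTy
  refine ⟨hmain.1, ?_⟩
  obtain ⟨W, hW⟩ := hWSB h n m k π p e r f w0 c E q hNF hh hE hq hq3 hqn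
  have hWV : W ≤ VS h n π p e r w0 c := fun z hz => ((hW z).1 hz).1
  have hcard : Nat.card (WqS h n π p e r w0 c (BB h n E q)) = Nat.card W :=
    Nat.card_congr (Equiv.subtypeEquivRight fun z => (hW z).symm)
  have hcardW : Nat.card W = 3 ^ Module.finrank (ZMod 3) W := by
    have h1 := Module.natCard_eq_pow_finrank (K := ZMod 3) (V := W)
    rwa [Nat.card_zmod] at h1
  rw [hcard, hcardW, Nat.log_pow (by norm_num)]
  refine dim_le W (VS h n π p e r w0 c) hWV y hBas.ind hBas.mem hBas.card _ ?_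
  intro d hd0 hdW
  obtain ⟨i₀, hi₀⟩ : ∃ i, d i ≠ 0 := by
    by_contra hcon
    push Not at hcon
    exact hd0 (funext hcon)
  have hval : ∀ i, ((d i).val : ZMod 3) = d i := fun i => ZMod.natCast_zmod_val (d i)
  have hv2 : ∀ i, (d i).val ≤ 2 := fun i => by
    have := ZMod.val_lt (d i)
    omega
  have hv0 : (d i₀).val ≠ 0 := fun h1 => hi₀ ((ZMod.val_eq_zero _).1 h1)
  have hsum : ∑ i, (d i).val • y i = ∑ i, d i • y i := by
    refine Finset.sum_congr rfl fun i _ => ?_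
    rw [← Nat.cast_smul_eq_nsmul (ZMod 3), hval]
  have hOcc : Occ (BB h n E q) (∏ i, zN π e (y i) ^ (d i).val) := by
    have h1 := ((hW _).1 hdW).2
    rw [← hsum] at h1
    exact occ_ce h1 (ce_sum hZA hNF y (fun i => (d i).val) Finset.univ)
  have hxnc : ¬ ∃ t : Eis, t ^ 3 = ∏ i, zN π e (y i) ^ (d i).val := by
    refine hSys.ind (fun i => (d i).val) ⟨i₀, fun h1 => hv0 ?_⟩
    have := hv2 i₀
    omega
  have hx0 : ∏ i, zN π e (y i) ^ (d i).val ≠ 0 :=
    Finset.prod_ne_zero_iff.2 fun i _ => pow_ne_zero _ (hA i).1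
  have hpt : ∃ X Y : Eis, PtE (BB h n E q : Eis) (∏ i, zN π e (y i) ^ (d i).val) X Y ∧
      ((∀ i, LCE lam (zN π e (y i))) ∨
        GoodPt (BB h n E q) (∏ i, zN π e (y i) ^ (d i).val) X Y) ∧
      (LCE lam ((BB h n E q : ℤ) : Eis) → GoodW (∏ i, zN π e (y i) ^ (d i).val) X Y) := by
    by_cases h1 : h = 1
    · obtain ⟨X, Y, hXY⟩ := hPT _ _ hB0 hx0 hxnc hOcc
      refine ⟨X, Y, hXY, Or.inl fun i => hL _ (MSY.V0_eq hVDIM h1 (hBas.mem i)), ?_⟩
      intro hc
      have h2 := (PTY.lvw hSSL hSLC hLCL hLCI hB0 hc).1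
      rw [hlvw.1, h1] at h2
      exact absurd h2 (by decide)
    · by_cases hc : LCE lam ((BB h n E q : ℤ) : Eis)
      · obtain ⟨X, Y, h2, h3, h4⟩ := hPTY _ _ hB0 hnc hc hx0 hxnc hOcc
        exact ⟨X, Y, h2, Or.inr h3, fun _ => h4⟩
      · obtain ⟨X, Y, h2, h3⟩ := hPTX _ _ hB0
          (MS2.lv_BB_ne hLCL hNF hq h3q hh h1) hx0 hxnc hOcc
        exact ⟨X, Y, h2, Or.inr h3, fun h4 => absurd h4 hc⟩
  obtain ⟨X, Y, hXY, hg, hw⟩ := hpt
  have hker := hmain.2 (fun i => (d i).val) hv2 ⟨i₀, hv0⟩ X Y hXY hg hw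
  funext j
  have h1 := hker j
  rw [Pi.zero_apply]
  rw [← h1]
  unfold Matrix.mulVec dotProduct
  refine Finset.sum_congr rfl fun i _ => ?_
  rw [hval]
  rfl

end Pool.Agent.PTK

end

section

/-!
# PTK_NFX: the fixed `S`-units
-/

set_option autoImplicit false

namespace Pool.Agent.PTK

open Pool.Agent.Lib_helper18 Pool.Agent.Lib_helper18.Eis Pool.Agent.Lib_helper84.Cub
open Pool.Agent.PT
open IsDedekindDomain NumberField

namespace NFX

open Pool.Agent.PT.NFIX (uni_prime lam_dvd_three uni_assoc dvd_lam_of_dvd_three exists_place dvd_of_V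
  unit_pow_six V_sub)

section

variable {x : Eis} {L : Type} [Field L] [NumberField L] {ι : Eis →+* L} {θ : L}
  {σ : L ≃ₐ[ℚ] L}

/-- the valuations at the primes above a place -/
theorem val_lt_iff (hSPP : SPP) (hNTR : Stmt_NTR) (hx0 : x ≠ 0) (hx3 : ¬ lam ∣ x)
    (hC : CubE x L ι θ σ) {v : Pl} {P : HeightOneSpectrum (𝓞 L)} (hP : P ∈ Abv ι v) (a : Eis) :
    P.valuation L (ι a) < 1 ↔ uni v ∣ a := by
  have hN := hNTR x L ι θ σ hx0 hx3 hC
  obtain ⟨v', hP', h'⟩ := hN.2.1 P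
  have hv : v' = v := uni_assoc hSPP
    ((uni_prime v').associated_of_dvd (uni_prime v) (h' _ hP))
  subst hv
  refine ⟨h' a, ?_⟩
  rintro ⟨d, rfl⟩
  rw [map_mul, map_mul]
  exact lt_of_le_of_lt (mul_le_of_le_one_right' (hN.1 P d)) hP

theorem abv_unique (hSPP : SPP) (hNTR : Stmt_NTR) (hx0 : x ≠ 0) (hx3 : ¬ lam ∣ x)
    (hC : CubE x L ι θ σ) {v v' : Pl} {P : HeightOneSpectrum (𝓞 L)} (hP : P ∈ Abv ι v)
    (hP' : P ∈ Abv ι v') : v = v' :=
  uni_assoc hSPP ((uni_prime v).associated_of_dvd (uni_prime v')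
    ((val_lt_iff hSPP hNTR hx0 hx3 hC hP _).1 hP'))

theorem val_eq (hSPP : SPP) (hNTR : Stmt_NTR) (hx0 : x ≠ 0) (hx3 : ¬ lam ∣ x)
    (hC : CubE x L ι θ σ) {v : Pl} {P : HeightOneSpectrum (𝓞 L)} (hP : P ∈ Abv ι v) {a : Eis}
    (ha : a ≠ 0) : P.valuation L (ι a) = P.valuation L (ι (uni v)) ^ V (uni v) a := by
  have hN := hNTR x L ι θ σ hx0 hx3 hC
  obtain ⟨d, hd, hnd⟩ := V_split (uni_prime v) ha
  have h1 : P.valuation L (ι d) = 1 := by
    refine le_antisymm (hN.1 P d) (not_lt.1 fun h => hnd ?_)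
    exact (val_lt_iff hSPP hNTR hx0 hx3 hC hP d).1 h
  conv_lhs => rw [hd]
  rw [map_mul, map_pow, map_mul, map_pow, h1, mul_one]

/-- the valuations of an `S`-unit outside of `S` -/
theorem V_eq_of_unit (hSPP : SPP) (hNTR : Stmt_NTR) (hx0 : x ≠ 0) (hx3 : ¬ lam ∣ x)
    (hC : CubE x L ι θ σ) {S : Finset Pl} {u : Lˣ} (hu : u ∈ SU ι S) {a b : Eis} (ha : a ≠ 0)
    (hb : b ≠ 0) (h : (u : L) * ι b = ι a) {v : Pl} (hv : v ∉ S) :
    V (uni v) a = V (uni v) b := by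
  have hN := hNTR x L ι θ σ hx0 hx3 hC
  obtain ⟨P, hP⟩ := (hN.2.2.2.1 v).2
  have hPS : P ∉ ⋃ v ∈ S, Abv ι v := by
    simp only [Set.mem_iUnion, not_exists]
    intro v' hv' hP'
    have := abv_unique hSPP hNTR hx0 hx3 hC hP hP'
    subst this
    exact hv hv'
  have h1 : P.valuation L (u : L) = 1 := hu P hPS
  have h2 := congrArg (P.valuation L) h
  rw [map_mul, h1, one_mul, val_eq hSPP hNTR hx0 hx3 hC hP ha,
    val_eq hSPP hNTR hx0 hx3 hC hP hb] at h2
  have h0 : P.valuation L (ι (uni v)) ≠ 0 := by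
    rw [Valuation.ne_zero_iff]
    intro h3
    exact (uni_prime v).ne_zero (hC.inj (h3.trans (map_zero ι).symm))
  have h3 : P.valuation L (ι (uni v)) < 1 := hP
  exact (pow_right_injective₀ (zero_lt_iff.2 h0) h3.ne h2).symm

end

end NFX

open Pool.Agent.PTK.NFX in
open Pool.Agent.PT.NFIX (uni_prime lam_dvd_three uni_assoc dvd_lam_of_dvd_three exists_place dvd_of_V
  unit_pow_six V_sub) in
/-- the fixed `S`-units. -/
theorem NFX_thm (hSPP : SPP) (hNHN : Stmt_NHN) (hNTR : Stmt_NTR) : Stmt_NFX := by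
  classical
  intro x L _ _ ι θ σ hx0 hx3 hC S
  have hN := hNTR x L ι θ σ hx0 hx3 hC
  have hinj := hC.inj
  -- elements of `Z[w]`
  have h1 : ∀ (u : Lˣ) (a : Eis), (u : L) = ι a → (∀ v : Pl, uni v ∣ a → v ∈ S) →
      u ∈ SF ι σ S := by
    intro u a hu ha
    refine ⟨?_, ?_⟩
    · intro P hP
      change P.valuation L (u : L) = 1
      rw [hu]
      refine le_antisymm (hN.1 P a) (not_lt.1 fun hlt => hP ?_)
      obtain ⟨v, hPv, hv⟩ := hN.2.1 P
      exact Set.mem_iUnion₂.2 ⟨v, ha v (hv a hlt), hPv⟩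
    · apply Units.ext
      change σ (u : L) = u
      rw [hu, hC.sι]
  have h2 : ∀ u ∈ SF ι σ S, ∃ a b : Eis, a ≠ 0 ∧ b ≠ 0 ∧ (u : L) * ι b = ι a := by
    rintro u ⟨-, hu⟩
    have hσ : σ (u : L) = u := congrArg Units.val hu
    obtain ⟨a, b, hb, hab⟩ := (hNHN x L ι θ σ hx0 hC).2.1 u hσ
    refine ⟨a, b, ?_, hb, hab⟩
    rintro rfl
    rw [map_zero] at hab
    rcases mul_eq_zero.1 hab with h | h
    · exact u.ne_zero h
    · exact hb (hinj (h.trans (map_zero ι).symm))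
  refine ⟨h1, h2, ?_⟩
  -- the valuation map
  choose! A B hA hB hAB using h2
  let F : Additive (SF ι σ S) →+ (S → ℤ) :=
    { toFun := fun u v => (V (uni v) (A u.toMul) : ℤ) - V (uni v) (B u.toMul)
      map_zero' := by
        funext v
        have h3 : ((1 : SF ι σ S) : Lˣ) ∈ SF ι σ S := (1 : SF ι σ S).2
        have h4 : (((1 : SF ι σ S) : Lˣ) : L) * ι 1 = ι 1 := by
          rw [map_one, mul_one]
          rfl
        have := V_sub hinj (hA _ h3) (hB _ h3) one_ne_zero one_ne_zero (hAB _ h3) h4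
          (uni_prime v)
        change (V (uni v) (A ((1 : SF ι σ S) : Lˣ)) : ℤ) - V (uni v) (B ((1 : SF ι σ S) : Lˣ)) = 0
        rw [this, sub_self]
      map_add' := by
        intro u u'
        funext v
        have hu := u.toMul.2
        have hu' := u'.toMul.2
        have huu := (u.toMul * u'.toMul).2
        have h4 : (((u.toMul * u'.toMul : SF ι σ S) : Lˣ) : L) *
            ι (B u.toMul * B u'.toMul) = ι (A u.toMul * A u'.toMul) := by
          rw [map_mul, map_mul, ← hAB _ hu, ← hAB _ hu']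
          change ((u.toMul : Lˣ) : L) * ((u'.toMul : Lˣ) : L) * _ = _
          ring
        have h5 := V_sub hinj (hA _ huu) (hB _ huu) (mul_ne_zero (hA _ hu) (hA _ hu'))
          (mul_ne_zero (hB _ hu) (hB _ hu')) (hAB _ huu) h4 (uni_prime v)
        rw [V_mul (uni_prime v) (hA _ hu) (hA _ hu'), V_mul (uni_prime v) (hB _ hu) (hB _ hu')]
          at h5
        change (V (uni v) (A ((u.toMul * u'.toMul : SF ι σ S) : Lˣ)) : ℤ) -
          V (uni v) (B ((u.toMul * u'.toMul : SF ι σ S) : Lˣ)) =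
          ((V (uni v) (A u.toMul) : ℤ) - V (uni v) (B u.toMul)) +
          ((V (uni v) (A u'.toMul) : ℤ) - V (uni v) (B u'.toMul))
        rw [h5]
        push_cast
        ring }
  have hF : ∀ (u : SF ι σ S) (v : S), F (Additive.ofMul u) v =
      (V (uni v) (A (u : Lˣ)) : ℤ) - V (uni v) (B (u : Lˣ)) := fun _ _ => rfl
  let G : Additive (SF ι σ S) →ₗ[ℤ] (S → ℤ) := F.toIntLinearMap
  have hG : ∀ u, G u = F u := fun _ => rfl
  -- surjectivity
  have hsurj : Function.Surjective G := by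
    rw [← LinearMap.range_eq_top, ← top_le_iff, ← (Pi.basisFun ℤ S).span_eq, Submodule.span_le]
    rintro _ ⟨v, rfl⟩
    rw [Pi.basisFun_apply]
    have hne : ι (uni v) ≠ 0 := fun h => (uni_prime v).ne_zero (hinj (h.trans (map_zero ι).symm))
    have hmem : Units.mk0 (ι (uni v)) hne ∈ SF ι σ S := by
      refine h1 _ (uni v) rfl fun v' hv' => ?_
      have := uni_assoc hSPP ((uni_prime v').associated_of_dvd (uni_prime v) hv')
      rw [this]
      exact v.2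
    refine ⟨Additive.ofMul ⟨_, hmem⟩, ?_⟩
    funext v'
    rw [hG, hF]
    have h3 : ((Units.mk0 (ι (uni v)) hne : Lˣ) : L) * ι 1 = ι (uni v) := by
      rw [map_one, mul_one]
      rfl
    rw [V_sub hinj (hA _ hmem) (hB _ hmem) (uni_prime v).ne_zero one_ne_zero (hAB _ hmem) h3
      (uni_prime v'), V_eq_zero (fun h => (uni_prime v').not_isUnit (isUnit_of_dvd_one h))]
    by_cases hvv : v' = v
    · subst hvv
      rw [V_self, Pi.single_eq_same]
      norm_num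
    · rw [Pi.single_eq_of_ne hvv, V_eq_zero]
      · norm_num
      · intro h
        exact hvv (Subtype.ext (uni_assoc hSPP
          ((uni_prime v').associated_of_dvd (uni_prime v) h)))
  -- the kernel
  have hker : Module.rank ℤ (LinearMap.ker G) = 0 := by
    rw [rank_eq_zero_iff]
    rintro ⟨u, hu⟩
    refine ⟨6, by norm_num, ?_⟩
    apply Subtype.ext
    have hu0 : G u = 0 := hu
    have hmem := u.toMul.2
    have hVS : ∀ v : Pl, V (uni v) (A u.toMul) = V (uni v) (B u.toMul) := by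
      intro v
      by_cases hv : v ∈ S
      · have h3 := congrFun hu0 ⟨v, hv⟩
        have h4 : (V (uni v) (A u.toMul) : ℤ) - V (uni v) (B u.toMul) = 0 := h3
        omega
      · exact V_eq_of_unit hSPP hNTR hx0 hx3 hC hmem.1 (hA _ hmem) (hB _ hmem) (hAB _ hmem) hv
    obtain ⟨d, hd⟩ := dvd_of_V hSPP (hB _ hmem) (hA _ hmem) fun v => (hVS v).symm
    obtain ⟨d', hd'⟩ := dvd_of_V hSPP (hA _ hmem) (hB _ hmem) hVS
    have hdd : d * d' = 1 := by
      have h3 : B u.toMul * (d * d') = B u.toMul * 1 := by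
        rw [← mul_assoc, ← hd, ← hd', mul_one]
      exact mul_left_cancel₀ (hB _ hmem) h3
    have hud : ((u.toMul : Lˣ) : L) = ι d := by
      have h3 := hAB _ hmem
      have h4 : ι (B u.toMul) ≠ 0 := fun h => hB _ hmem (hinj (h.trans (map_zero ι).symm))
      rw [hd, map_mul, mul_comm (ι _)] at h3
      exact mul_right_cancel₀ h4 h3
    have h6 : u.toMul ^ 6 = 1 := by
      apply Subtype.ext
      apply Units.ext
      change ((u.toMul : Lˣ) : L) ^ 6 = 1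
      rw [hud, ← map_pow, unit_pow_six (IsUnit.of_mul_eq_one _ hdd), map_one]
    change (6 : ℤ) • u = 0
    exact_mod_cast congrArg Additive.ofMul h6
  have hrank : Module.rank ℤ (Additive (SF ι σ S)) = S.card := by
    rw [LinearMap.rank_eq_of_surjective hsurj, hker, add_zero, rank_fun']
    simp
  rw [Module.finrank, hrank]
  exact Cardinal.toNat_natCast _

end Pool.Agent.PTK

end
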