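import Mathlib
import Pool.Agent.PTWX.C62
import Pool.Agent.PTWX.C67

/-! Parts: PTKX.JD2, PTKX.ESB, PTKX.EKN, PTKX.ZBA, PTKX.ESZ -/

namespace Pool.Agent.PTK.ESB
end Pool.Agent.PTK.ESB

namespace Pool.Agent.PTK.EKN
end Pool.Agent.PTK.EKN

namespace Pool.Agent.PTK.ZBA
end Pool.Agent.PTK.ZBA

namespace Pool.Agent.PTK.ESZ
end Pool.Agent.PTK.ESZ

section

/-!
# PTK_JD2: joint averages with the matrix of the minus part, `q = 2 (mod 3)`
-/

set_option autoImplicit false

open NumberField IsDedekindDomain Finset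
open scoped nonZeroDivisors Pointwise

namespace Pool.Agent.PTK

open Pool.Agent.Lib_helper18 Pool.Agent.Lib_helper18.Eis Pool.Agent.Lib_helper84.Cub
open Pool.Agent.PT Pool.Agent.PTE Pool.Agent.PT3 Pool.Agent.PTL Pool.Agent.PTN

theorem JD2_thm (hUPS : Stmt_UPS) (hKUM : Stmt_KUM) (hMD2 : Stmt_MD2) (hZKQ : Stmt_ZKQ)
    (hCNM : Stmt_CNM) : Stmt_JD2 := by
  classical
  intro h n m k π p e r f w0 c s τ b X Y P Q P' Q' hNF hh hS l N y U R U' R' α β hM F hF hF0
  have hFn : ∀ a d, 0 ≤ F a d := fun a d => (hF0 a).trans (hF a (Nat.zero_le d))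
  obtain ⟨N₀, hN₀⟩ := hZKQ h n m k π p e r f w0 c hNF hh l y U R U' R' hM.bas hM.sys
  obtain ⟨hAlt, hSum⟩ := hCNM.2 l N α β hM.prs
  have h1 := hUPS.1 (Fin N → ZMod 3) (fun E => {q | q % 3 = 2 ∧ InCT E π w0 c q})
    (fun E q => F (kY h n π e y U R U' R' E q) (kS h n b X Y P Q P' Q' E q))
    (fun M E => QMM h n π e w0 c y U R U' R' α β M 2 E)
    (fun M E q => F (l - (altZ α β M).rank) (kS h n b X Y P Q P' Q' E q))
    (fun M => Esk s (F (l - (altZ α β M).rank)) * (1 / 3 ^ N / 3 ^ (m + 1))) 1 N₀ one_pos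
    (fun M E q => hFn _ _) ?_ ?_
  · have e1 : (∑ M : Fin N → ZMod 3, Esk s (F (l - (altZ α β M).rank)) *
        (1 / 3 ^ N / 3 ^ (m + 1))) / 1 = Esk l (fun a => Esk s (F a)) / 3 ^ (m + 1) := by
      rw [← hSum (fun a => Esk s (F a)), ← Finset.sum_mul]
      field_simp
    rw [e1] at h1
    exact h1
  · intro E q hE hq hqN hqS
    obtain ⟨hq2, hqC⟩ := hqS
    obtain ⟨hanti, -⟩ := hN₀ E q hE hq hqN (Or.inr hq2) hqC
    rw [one_mul]
    refine le_trans (b := if q ∈ QMM h n π e w0 c y U R U' R' α β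
        (fun r => MY h n π e y U R U' R' E q (α r) (β r)) 2 E then
        F (l - (altZ α β (fun r => MY h n π e y U R U' R' E q (α r) (β r))).rank)
          (kS h n b X Y P Q P' Q' E q) else 0) ?_
      (Finset.single_le_sum (f := fun M : Fin N → ZMod 3 =>
        if q ∈ QMM h n π e w0 c y U R U' R' α β M 2 E then
        F (l - (altZ α β M).rank) (kS h n b X Y P Q P' Q' E q) else 0) (fun M _ => ?_)
        (Finset.mem_univ _))
    · rw [if_pos ⟨hq2, hqC, fun r => rfl⟩, hAlt _ hanti]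
      exact le_refl _
    · split_ifs
      · exact hFn _ _
      · exact le_refl _
  · intro M
    refine hKUM (fun E => QMM h n π e w0 c y U R U' R' α β M 2 E)
      (fun E q => kS h n b X Y P Q P' Q' E q) s 0 (1 / 3 ^ N / 3 ^ (m + 1)) (by positivity)
      (fun E q _ _ _ _ => Nat.sub_le _ _) ?_ (F (l - (altZ α β M).rank)) (hF _) (hF0 _)
    intro t
    exact hMD2 h n m k π p e r f w0 c s τ b X Y P Q P' Q' hNF hh hS l N y U R U' R' α β hM M t

end Pool.Agent.PTK

end

section

/-!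
# PTK_ESB: the moments of the corank
-/

set_option autoImplicit false

namespace Pool.Agent.PTK

open Pool.Agent.PTL

namespace ESB

theorem lin (s : ℕ) (a b : ℝ) (F G : ℕ → ℝ) :
    Esk s (fun c => a * F c + b * G c) = a * Esk s F + b * Esk s G := by
  unfold Esk
  haveI := Fintype.ofFinite {M : Matrix (Fin s) (Fin s) (ZMod 3) // M.transpose = -M}
  rw [finsum_eq_sum_of_fintype, finsum_eq_sum_of_fintype, finsum_eq_sum_of_fintype,
    Finset.sum_add_distrib, ← Finset.mul_sum, ← Finset.mul_sum]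
  ring

theorem zero (F : ℕ → ℝ) : Esk 0 F = F 0 := by
  unfold Esk
  haveI := Fintype.ofFinite {M : Matrix (Fin 0) (Fin 0) (ZMod 3) // M.transpose = -M}
  haveI : Unique {M : Matrix (Fin 0) (Fin 0) (ZMod 3) // M.transpose = -M} :=
    ⟨⟨⟨0, by simp⟩⟩, fun M => Subtype.ext (by ext i; exact i.elim0)⟩
  rw [finsum_eq_sum_of_fintype, Nat.card_unique, Nat.cast_one, div_one, Fintype.sum_unique,
    Nat.zero_sub]

theorem one (s : ℕ) : Esk s (fun _ => (1 : ℝ)) = 1 := by
  unfold Esk
  haveI := Fintype.ofFinite {M : Matrix (Fin s) (Fin s) (ZMod 3) // M.transpose = -M}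
  haveI : Nonempty {M : Matrix (Fin s) (Fin s) (ZMod 3) // M.transpose = -M} :=
    ⟨⟨0, by simp⟩⟩
  rw [finsum_eq_sum_of_fintype]
  simp only [Finset.sum_const, Finset.card_univ, Nat.card_eq_fintype_card, nsmul_eq_mul, mul_one]
  have : (Fintype.card {M : Matrix (Fin s) (Fin s) (ZMod 3) // M.transpose = -M} : ℝ) ≠ 0 := by
    exact_mod_cast Fintype.card_ne_zero
  exact div_self this

theorem MoB_succ (k : ℕ) : MoB (k + 1) = MoB k * (1 + 3 ^ (k + 1)) := by
  unfold MoB
  rw [Finset.prod_range_succ]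

theorem MoB_zero : MoB 0 = 1 := by
  unfold MoB
  rw [Finset.range_zero, Finset.prod_empty]

theorem one_le (k : ℕ) : 1 ≤ MoB k := by
  induction k with
  | zero => rw [MoB_zero]
  | succ k ih =>
    rw [MoB_succ]
    have h : (1 : ℝ) ≤ 1 + 3 ^ (k + 1) := by
      have : (0 : ℝ) < 3 ^ (k + 1) := by positivity
      linarith
    exact one_le_mul_of_one_le_of_one_le ih h

theorem step (hESR : Stmt_ESR) (s k : ℕ) :
    Esk (s + 1) (fun c => (3 : ℝ) ^ ((k + 1) * c)) =
      1 / 3 ^ (k + 1) * Esk s (fun c => (3 : ℝ) ^ ((k + 1) * c)) +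
        (3 ^ (k + 1) - 1 / 3 ^ (k + 1)) * Esk s (fun c => (3 : ℝ) ^ (k * c)) := by
  rw [hESR, ← lin]
  congr 1
  funext c
  have h0 : (3 : ℝ) ^ (k + 1) ≠ 0 := by positivity
  rcases c with _ | c
  · simp
  · have h1 : (3 : ℝ) ^ c ≠ 0 := by positivity
    have h2 : (3 : ℝ) ^ k ≠ 0 := by positivity
    have e1 : (3 : ℝ) ^ ((k + 1) * (c + 1 - 1)) = 3 ^ (k * c) * 3 ^ c := by
      rw [Nat.add_sub_cancel, ← pow_add]
      congr 1
      ring
    have e2 : (3 : ℝ) ^ ((k + 1) * (c + 1 + 1)) =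
        3 ^ (k * c) * 3 ^ c * (3 ^ k) ^ 2 * 9 := by
      rw [show (9 : ℝ) = 3 ^ 2 by norm_num, ← pow_mul, ← pow_add, ← pow_add, ← pow_add]
      congr 1
      ring
    have e3 : (3 : ℝ) ^ ((k + 1) * (c + 1)) = 3 ^ (k * c) * 3 ^ c * 3 ^ k * 3 := by
      rw [← pow_add, ← pow_add, ← pow_succ]
      congr 1
      ring
    have e4 : (3 : ℝ) ^ (k * (c + 1)) = 3 ^ (k * c) * 3 ^ k := by
      rw [← pow_add]
      congr 1
    have e5 : (3 : ℝ) ^ (c + 1) = 3 ^ c * 3 := pow_succ _ _
    have e6 : (3 : ℝ) ^ (k + 1) = 3 ^ k * 3 := pow_succ _ _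
    rw [e1, e2, e3, e4, e5, e6]
    field_simp
    ring

end ESB

open _root_.Pool.Agent.PTK.ESB in
theorem ESB_thm (hESR : Stmt_ESR) : Stmt_ESB := by
  have key : ∀ k s : ℕ, Esk s (fun c => (3 : ℝ) ^ (k * c)) ≤ MoB k := by
    intro k
    induction k with
    | zero =>
      intro s
      have e : (fun c : ℕ => (3 : ℝ) ^ (0 * c)) = fun _ => (1 : ℝ) := by
        funext c
        rw [zero_mul, pow_zero]
      rw [e, one, MoB_zero]
    | succ k ihk =>
      intro s
      induction s with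
      | zero =>
        rw [zero, mul_zero, pow_zero]
        exact one_le _
      | succ s ihs =>
        rw [step hESR]
        have h1 : (1 : ℝ) ≤ 3 ^ (k + 1) := one_le_pow₀ (by norm_num)
        have h2 : (0 : ℝ) ≤ 1 / 3 ^ (k + 1) := by positivity
        have h3 : (1 : ℝ) / 3 ^ (k + 1) ≤ 1 := by
          rw [div_le_one (by positivity)]
          exact h1
        have h4 := mul_le_mul_of_nonneg_left ihs h2
        have h5 := mul_le_mul_of_nonneg_left (ihk s)
          (show (0 : ℝ) ≤ 3 ^ (k + 1) - 1 / 3 ^ (k + 1) by linarith)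
        refine (add_le_add h4 h5).trans (le_of_eq ?_)
        rw [MoB_succ]
        have h6 : (3 : ℝ) ^ (k + 1) ≠ 0 := by positivity
        field_simp
        ring
  intro s k
  exact key k s

end Pool.Agent.PTK

end

section

/-!
# PTK_EKN: the numbers
-/

set_option autoImplicit false

namespace Pool.Agent.PTK

open Pool.Agent.PTL Pool.Agent.PTN

namespace EKN

theorem mono (s : ℕ) (F G : ℕ → ℝ) (h : ∀ c, c % 2 = s % 2 → F c ≤ G c) :
    Esk s F ≤ Esk s G := by
  rw [AL.Esk_eq, AL.Esk_eq]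
  exact div_le_div_of_nonneg_right
    (Finset.sum_le_sum fun v _ => h _ (AL.cr_parity v)) (Nat.cast_nonneg _)

theorem smul (s : ℕ) (a : ℝ) (F : ℕ → ℝ) : Esk s (fun c => a * F c) = a * Esk s F := by
  have h := ESB.lin s a 0 F F
  simpa using h

theorem add (s : ℕ) (F G : ℕ → ℝ) : Esk s (fun c => F c + G c) = Esk s F + Esk s G := by
  have h := ESB.lin s 1 1 F G
  simpa using h

theorem const (s : ℕ) (a : ℝ) : Esk s (fun _ => a) = a := by
  have h := smul s a (fun _ => 1)
  rw [ESB.one] at h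
  simpa using h

theorem nonneg (s : ℕ) (F : ℕ → ℝ) (h : ∀ c, 0 ≤ F c) : 0 ≤ Esk s F := by
  have h1 := mono s (fun _ => 0) F fun c _ => h c
  rwa [const] at h1

theorem prod (v s : ℕ) (a b : ℕ → ℝ) :
    Esk v (fun x => Esk s (fun y => a x * b y)) = Esk v a * Esk s b := by
  have e : (fun x => Esk s (fun y => a x * b y)) = fun x => Esk s b * a x := by
    funext x
    rw [smul, mul_comm]
  rw [e, smul, mul_comm]

theorem dmono (v s : ℕ) (F : ℕ → ℝ) (G : ℕ → ℕ → ℝ)
    (h : ∀ x y, x % 2 = v % 2 → y % 2 = s % 2 → G x y ≤ F (x + y)) :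
    Esk v (fun x => Esk s (fun y => G x y)) ≤ EsD v s F :=
  mono v _ _ fun x hx => mono s _ _ fun y hy => h x y hx hy

theorem dmono' (v s : ℕ) (F : ℕ → ℝ) (a b : ℕ → ℝ)
    (h : ∀ x y, x % 2 = v % 2 → y % 2 = s % 2 → a x * b y ≤ F (x + y)) :
    Esk v a * Esk s b ≤ EsD v s F := by
  rw [← prod]
  exact dmono v s F (fun x y => a x * b y) h

theorem compl (s t : ℕ) : Esk s (fun c => if c < t then 1 else 0) =
    1 - Esk s (fun c => if t ≤ c then 1 else 0) := by
  have h := add s (fun c => if c < t then 1 else 0) (fun c => if t ≤ c then 1 else 0)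
  have e : (fun c : ℕ => (if c < t then (1 : ℝ) else 0) + (if t ≤ c then 1 else 0)) =
      fun _ => (1 : ℝ) := by
    funext c
    by_cases hc : c < t
    · rw [if_pos hc, if_neg (by omega), add_zero]
    · rw [if_neg hc, if_pos (by omega), zero_add]
  rw [e, ESB.one] at h
  linarith

theorem lt_one {s : ℕ} (hs : Even s) : 5 / 8 ≤ Esk s (fun c => if c < 1 then 1 else 0) := by
  rw [compl]
  have h := AL.Esk_pos hs
  linarith

theorem lt_two {s : ℕ} (hs : Odd s) : 23 / 24 ≤ Esk s (fun c => if c < 2 then 1 else 0) := by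
  rw [compl]
  have h := AL.Esk_two hs
  linarith

theorem swap (v s : ℕ) (F : ℕ → ℝ) (a b : ℕ → ℝ)
    (h : ∀ x y, x % 2 = v % 2 → y % 2 = s % 2 → a x * b y ≤ F (x + y)) (p q : ℝ) (hp : 0 ≤ p)
    (hq : 0 ≤ q) (ha : p ≤ Esk v a) (hb : q ≤ Esk s b) : p * q ≤ EsD v s F :=
  (mul_le_mul ha hb hq (hp.trans ha)).trans (dmono' v s F a b h)

theorem ind_mul (x y a b t : ℕ) (h : x < a → y < b → x + y < t) :
    (if x < a then (1 : ℝ) else 0) * (if y < b then 1 else 0) ≤
      (if x + y < t then 1 else 0) := by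
  by_cases hx : x < a
  · by_cases hy : y < b
    · rw [if_pos hx, if_pos hy, if_pos (h hx hy), one_mul]
    · rw [if_neg hy, mul_zero]
      split_ifs <;> norm_num
  · rw [if_neg hx, zero_mul]
    split_ifs <;> norm_num

theorem odd_sum (v s : ℕ) (h : Odd (v + s)) :
    115 / 192 ≤ EsD v s (fun x => if x < 2 then 1 else 0) := by
  rcases Nat.even_or_odd v with hv | hv
  · have hs : Odd s := by
      rw [Nat.odd_add] at h
      by_contra hc
      rw [Nat.not_odd_iff_even] at hc
      exact Nat.not_odd_iff_even.2 hv (h.2 hc)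
    refine le_trans (le_of_eq (by norm_num)) (swap v s _ (fun x => if x < 1 then 1 else 0)
      (fun y => if y < 2 then 1 else 0) (fun x y _ _ => ind_mul x y 1 2 2 (by omega)) (5 / 8)
      (23 / 24) (by norm_num) (by norm_num) (lt_one hv) (lt_two hs))
  · have hs : Even s := (Nat.odd_add.1 h).1 hv
    refine le_trans (le_of_eq (by norm_num)) (swap v s _ (fun x => if x < 2 then 1 else 0)
      (fun y => if y < 1 then 1 else 0) (fun x y _ _ => ind_mul x y 2 1 2 (by omega)) (23 / 24)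
      (5 / 8) (by norm_num) (by norm_num) (lt_two hv) (lt_one hs))

theorem big (hESB : Stmt_ESB) (s : ℕ) :
    Esk s (fun c => if 4 ≤ c then 1 else 0) ≤ 11 / 5000 := by
  have h1 := mono s (fun c => if 4 ≤ c then 1 else 0)
    (fun c => 1 / 3 ^ 16 * (3 : ℝ) ^ (4 * c)) fun c _ => by
      show (if 4 ≤ c then (1 : ℝ) else 0) ≤ 1 / 3 ^ 16 * (3 : ℝ) ^ (4 * c)
      by_cases hc : 4 ≤ c
      · rw [if_pos hc]
        have h2 : (3 : ℝ) ^ 16 ≤ 3 ^ (4 * c) := pow_le_pow_right₀ (by norm_num) (by omega)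
        rw [one_div, ← div_eq_inv_mul, le_div_iff₀ (by positivity), one_mul]
        exact h2
      · rw [if_neg hc]
        positivity
  rw [smul] at h1
  have h2 := hESB s 4
  have h3 : MoB 4 = 91840 := by
    rw [ESB.MoB_succ, ESB.MoB_succ, ESB.MoB_succ, ESB.MoB_succ, ESB.MoB_zero]
    norm_num
  rw [h3] at h2
  have h4 : (1 : ℝ) / 3 ^ 16 * Esk s (fun c => (3 : ℝ) ^ (4 * c)) ≤ 1 / 3 ^ 16 * 91840 :=
    mul_le_mul_of_nonneg_left h2 (by positivity)
  have h5 : (1 : ℝ) / 3 ^ 16 * 91840 ≤ 11 / 5000 := by norm_num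
  linarith

theorem even_even (hESB : Stmt_ESB) (v s : ℕ) (hv : Even v) (hs : Even s) :
    17 / 20 ≤ EsD v s (fun x => if x < 3 then 1 else 0) := by
  have h1 := dmono v s (fun x => if x < 3 then 1 else 0)
    (fun x y => (1 + (-1) * (if 4 ≤ x then (1 : ℝ) else 0)) +
      ((-1) * (if 4 ≤ y then (1 : ℝ) else 0) +
        (-1) * ((if 1 ≤ x then (1 : ℝ) else 0) * (if 1 ≤ y then (1 : ℝ) else 0))))
    fun x y hx hy => by
      show (1 + (-1) * (if 4 ≤ x then (1 : ℝ) else 0)) +
        ((-1) * (if 4 ≤ y then (1 : ℝ) else 0) +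
          (-1) * ((if 1 ≤ x then (1 : ℝ) else 0) * (if 1 ≤ y then (1 : ℝ) else 0))) ≤
        (if x + y < 3 then 1 else 0)
      rw [Nat.even_iff] at hv hs
      by_cases h3 : x + y < 3
      · rw [if_pos h3]
        have e1 : (0 : ℝ) ≤ if 4 ≤ x then 1 else 0 := by split_ifs <;> norm_num
        have e2 : (0 : ℝ) ≤ if 4 ≤ y then 1 else 0 := by split_ifs <;> norm_num
        have e3 : (0 : ℝ) ≤ (if 1 ≤ x then (1 : ℝ) else 0) * (if 1 ≤ y then (1 : ℝ) else 0) := by
          split_ifs <;> norm_num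
        linarith
      · rw [if_neg h3]
        by_cases hx4 : 4 ≤ x
        · rw [if_pos hx4]
          have e2 : (0 : ℝ) ≤ if 4 ≤ y then 1 else 0 := by split_ifs <;> norm_num
          have e3 : (0 : ℝ) ≤
              (if 1 ≤ x then (1 : ℝ) else 0) * (if 1 ≤ y then (1 : ℝ) else 0) := by
            split_ifs <;> norm_num
          linarith
        · by_cases hy4 : 4 ≤ y
          · rw [if_pos hy4, if_neg hx4]
            have e3 : (0 : ℝ) ≤
                (if 1 ≤ x then (1 : ℝ) else 0) * (if 1 ≤ y then (1 : ℝ) else 0) := by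
              split_ifs <;> norm_num
            linarith
          · rw [if_neg hx4, if_neg hy4, if_pos (by omega), if_pos (by omega)]
            norm_num
  have e : Esk v (fun x => Esk s (fun y => (1 + (-1) * (if 4 ≤ x then (1 : ℝ) else 0)) +
      ((-1) * (if 4 ≤ y then (1 : ℝ) else 0) +
        (-1) * ((if 1 ≤ x then (1 : ℝ) else 0) * (if 1 ≤ y then (1 : ℝ) else 0))))) =
      1 - Esk v (fun x => if 4 ≤ x then 1 else 0) - Esk s (fun y => if 4 ≤ y then 1 else 0) -
        Esk v (fun x => if 1 ≤ x then 1 else 0) * Esk s (fun y => if 1 ≤ y then 1 else 0) := by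
    have e1 : (fun x => Esk s (fun y => (1 + (-1) * (if 4 ≤ x then (1 : ℝ) else 0)) +
      ((-1) * (if 4 ≤ y then (1 : ℝ) else 0) +
        (-1) * ((if 1 ≤ x then (1 : ℝ) else 0) * (if 1 ≤ y then (1 : ℝ) else 0))))) =
        fun x => (1 + (-1) * (if 4 ≤ x then (1 : ℝ) else 0)) +
          ((-1) * Esk s (fun y => if 4 ≤ y then 1 else 0) +
            (-1) * (Esk s (fun y => if 1 ≤ y then 1 else 0) *
              (if 1 ≤ x then (1 : ℝ) else 0))) := by
      funext x
      rw [add, const, add, smul, smul, smul, mul_comm (if 1 ≤ x then (1 : ℝ) else 0)]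
    rw [e1, add, add, const, smul, add, const, smul, smul]
    ring
  rw [e] at h1
  have h2 := big hESB v
  have h3 := big hESB s
  have h4 := AL.Esk_pos hv
  have h5 := AL.Esk_pos hs
  have h6 : 0 ≤ Esk s (fun y => if 1 ≤ y then 1 else 0) :=
    nonneg s _ fun c => by split_ifs <;> norm_num
  have h7 := mul_le_mul h4 h5 h6 (by norm_num)
  refine le_trans ?_ h1
  linarith

theorem odd_odd (v s : ℕ) (hv : Odd v) (hs : Odd s) :
    17 / 20 ≤ EsD v s (fun x => if x < 3 then 1 else 0) := by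
  refine le_trans (by norm_num) (swap v s _ (fun x => if x < 2 then 1 else 0)
      (fun y => if y < 2 then 1 else 0) (fun x y _ _ => ind_mul x y 2 2 3 (by omega)) (23 / 24)
      (23 / 24) (by norm_num) (by norm_num) (lt_two hv) (lt_two hs))

theorem even_sum (hESB : Stmt_ESB) (v s : ℕ) (h : Even (v + s)) :
    17 / 20 ≤ EsD v s (fun x => if x < 3 then 1 else 0) := by
  rcases Nat.even_or_odd v with hv | hv
  · exact even_even hESB v s hv ((Nat.even_add.1 h).1 hv)
  · refine odd_odd v s hv ?_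
    rw [Nat.even_add] at h
    by_contra hc
    rw [Nat.not_odd_iff_even] at hc
    exact Nat.not_even_iff_odd.2 hv (h.2 hc)

theorem zero_left (s : ℕ) (F : ℕ → ℝ) : EsD 0 s F = Esk s F := by
  unfold EsD
  rw [ESB.zero]
  congr 1
  funext y
  rw [zero_add]

end EKN

open _root_.Pool.Agent.PTK.EKN in
theorem EKN_thm (hLAM : Stmt_LAM) (hESB : Stmt_ESB) (_hLAW : Stmt_LAW) : Stmt_EKN := by
  refine ⟨?_, ?_, odd_sum, ?_, even_sum hESB, ?_, zero_left, ?_, ?_, ?_⟩
  · intro v s
    unfold EsD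
    have e : (fun x : ℕ => Esk s (fun y => ((x + y : ℕ) : ℝ))) =
        fun x : ℕ => (x : ℝ) + Esk s (fun y => (y : ℝ)) := by
      funext x
      have e1 : (fun y : ℕ => ((x + y : ℕ) : ℝ)) = fun y : ℕ => (x : ℝ) + (y : ℝ) := by
        funext y
        push_cast
        rfl
      rw [e1, add, const]
    rw [e, add, const]
    have h1 := hLAM.1 v
    have h2 := hLAM.1 s
    linarith
  · intro v s k
    unfold EsD
    have e : (fun x : ℕ => Esk s (fun y => (3 : ℝ) ^ (k * (x + y)))) =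
        fun x : ℕ => Esk s (fun y => (3 : ℝ) ^ (k * x) * (3 : ℝ) ^ (k * y)) := by
      funext x
      congr 1
      funext y
      rw [mul_add, pow_add]
    rw [e, prod v s (fun x => (3 : ℝ) ^ (k * x)) (fun y => (3 : ℝ) ^ (k * y)), sq]
    have h0 := ESB.one_le k
    exact mul_le_mul (hESB v k) (hESB s k) (nonneg s _ fun c => by positivity) (by linarith)
  · intro v s
    rcases Nat.even_or_odd (v + s) with h | h
    · exact le_trans (by norm_num) (even_sum hESB v s h)
    · refine (odd_sum v s h).trans (dmono v s (fun x => if x < 3 then 1 else 0)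
        (fun x y => if x + y < 2 then 1 else 0) fun x y _ _ => ?_)
      show (if x + y < 2 then (1 : ℝ) else 0) ≤ if x + y < 3 then 1 else 0
      by_cases hc : x + y < 2
      · rw [if_pos hc, if_pos (by omega)]
      · rw [if_neg hc]
        split_ifs <;> norm_num
  · intro v s hv hs
    refine le_trans (le_of_eq (by norm_num)) (swap v s _ (fun x => if x < 1 then 1 else 0)
      (fun y => if y < 1 then 1 else 0) (fun x y _ _ => ind_mul x y 1 1 1 (by omega)) (5 / 8)
      (5 / 8) (by norm_num) (by norm_num) (lt_one hv) (lt_one hs))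
  · intro s hs
    rw [zero_left]
    exact lt_one hs
  · intro s hs
    rw [zero_left]
    exact lt_two hs
  · intro v s t
    unfold EsD
    refine nonneg v _ fun x => nonneg s _ fun y => ?_
    show (0 : ℝ) ≤ if x + y < t then 1 else 0
    split_ifs <;> norm_num

end Pool.Agent.PTK

end

section

/-!
# PTK_ZBA: a basis of `VS` adapted to the place above `3`
-/

set_option autoImplicit false

namespace Pool.Agent.PTK

open Pool.Agent.Lib_helper18 Pool.Agent.Lib_helper18.Eis Pool.Agent.Lib_helper84.Cub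
open Pool.Agent.PT Pool.Agent.PTE Pool.Agent.PT3 Pool.Agent.PTL Pool.Agent.PTN

namespace ZBA

variable {K V : Type*} [Field K] [AddCommGroup V] [Module K V] [FiniteDimensional K V]

/-- extension of a linearly independent family by at most one vector -/
lemma ext1 (B : Submodule K V) {a : ℕ} (y : Fin a → V) (hy : LinearIndependent K y)
    (hB : ∀ i, y i ∈ B) (hB1 : Module.finrank K B ≤ a + 1) :
    ∃ y' : Fin (Module.finrank K B) → V, LinearIndependent K y' ∧ (∀ i, y' i ∈ B) ∧
      ∀ (i : Fin (Module.finrank K B)) (h : i.val < a), y' i = y ⟨i.val, h⟩ := by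
  obtain ⟨d, hd⟩ : ∃ d, d = Module.finrank K B := ⟨_, rfl⟩
  have hspan : Submodule.span K (Set.range y) ≤ B := by
    rw [Submodule.span_le]
    rintro _ ⟨i, rfl⟩
    exact hB i
  have hfs : Module.finrank K (Submodule.span K (Set.range y)) = a := by
    rw [finrank_span_eq_card hy, Fintype.card_fin]
  have hle : a ≤ d := by
    rw [hd, ← hfs]
    exact Submodule.finrank_mono hspan
  rw [← hd] at hB1 ⊢
  rcases Nat.lt_or_ge a d with h1 | h1
  · have hda : d = a + 1 := by omega
    subst hda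
    obtain ⟨v, hvB, hv⟩ : ∃ v ∈ B, v ∉ Submodule.span K (Set.range y) := by
      by_contra hcon
      push Not at hcon
      have h2 : B ≤ Submodule.span K (Set.range y) := hcon
      have h3 := Submodule.finrank_mono h2
      rw [hfs, ← hd] at h3
      omega
    refine ⟨Fin.snoc y v, linearIndependent_finSnoc.2 ⟨hy, hv⟩, ?_, ?_⟩
    · intro i
      refine Fin.lastCases ?_ (fun j => ?_) i
      · rw [Fin.snoc_last]
        exact hvB
      · rw [Fin.snoc_castSucc]
        exact hB j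
    · intro i h
      exact Fin.snoc_castSucc (α := fun _ => V) v y ⟨i.val, h⟩
  · have hda : d = a := by omega
    subst hda
    exact ⟨y, hy, hB, fun i h => rfl⟩

/-- a basis adapted to a flag of three subspaces -/
lemma flag {A B C : Submodule K V} (hAB : A ≤ B) (hBC : B ≤ C)
    (h1 : Module.finrank K B ≤ Module.finrank K A + 1)
    (h2 : Module.finrank K C ≤ Module.finrank K B + 1) :
    ∃ y : Fin (Module.finrank K C) → V, LinearIndependent K y ∧ (∀ i, y i ∈ C) ∧
      (∀ i, i.val < Module.finrank K A → y i ∈ A) ∧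
      ∀ i, i.val < Module.finrank K B → y i ∈ B := by
  set b := Module.finBasis K A with hb
  have ha : LinearIndependent K fun i => (b i : V) :=
    b.linearIndependent.map' A.subtype (Submodule.ker_subtype A)
  obtain ⟨y, hy, hyB, hyA⟩ := ext1 B (fun i => (b i : V)) ha (fun i => hAB (b i).2) h1
  obtain ⟨z, hz, hzC, hzB⟩ := ext1 C y hy (fun i => hBC (hyB i)) h2
  refine ⟨z, hz, hzC, fun i hi => ?_, fun i hi => ?_⟩
  · have h3 : i.val < Module.finrank K B := lt_of_lt_of_le hi (Submodule.finrank_mono hAB)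
    rw [hzB i h3, hyA _ hi]
    exact (b _).2
  · rw [hzB i hi]
    exact hyB _

end ZBA

open _root_.Pool.Agent.PTK.ZBA in
/-- PTK_ZBA. -/
theorem ZBA_thm (hVDIM : Stmt_VDIM) : Stmt_ZBA := by
  classical
  intro h n m k π p e r w0 c hh
  obtain ⟨S, hS⟩ : ∃ S, S = VS h n π p e r w0 c := ⟨_, rfl⟩
  obtain ⟨A, hA⟩ : ∃ A, A = V0 h n π p e r w0 c := ⟨_, rfl⟩
  obtain ⟨l1, hl1⟩ : ∃ l1 : (Fin (m + 1) → ZMod 3) →ₗ[ZMod 3] ZMod 3, l1 = LinearMap.proj 0 :=
    ⟨_, rfl⟩
  obtain ⟨l2, hl2⟩ : ∃ l2 : (Fin (m + 1) → ZMod 3) →ₗ[ZMod 3] ZMod 3,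
    l2 = ∑ i : Fin m, ((e i : ZMod 3) * sym (π i).1 3) • LinearMap.proj i.succ := ⟨_, rfl⟩
  have e1 : ∀ y, l1 y = y 0 := fun y => by rw [hl1]; rfl
  have e2 : ∀ y, l2 y = ∑ i : Fin m, y i.succ * ((e i : ZMod 3) * sym (π i).1 3) := by
    intro y
    rw [hl2, LinearMap.sum_apply]
    refine Finset.sum_congr rfl fun i _ => ?_
    rw [LinearMap.smul_apply, LinearMap.proj_apply, smul_eq_mul, mul_comm]
  obtain ⟨B, hB⟩ : ∃ B, B = S ⊓ LinearMap.ker l1 := ⟨_, rfl⟩
  have hAeq : A = B ⊓ LinearMap.ker l2 := by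
    ext y
    rw [hA, hB, Submodule.mem_inf, Submodule.mem_inf, LinearMap.mem_ker, LinearMap.mem_ker, e1, e2,
      hS, and_assoc]
    exact Iff.rfl
  have hAB : A ≤ B := by rw [hAeq]; exact inf_le_left
  have hBS : B ≤ S := by rw [hB]; exact inf_le_left
  have f1 : Module.finrank (ZMod 3) B ≤ Module.finrank (ZMod 3) A + 1 := by
    rw [hAeq]; exact VDIM.step B l2
  have f2 : Module.finrank (ZMod 3) S ≤ Module.finrank (ZMod 3) B + 1 := by
    rw [hB]; exact VDIM.step S l1
  have f3 : Module.finrank (ZMod 3) S ≤ Module.finrank (ZMod 3) A + dN h n w0 := by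
    rw [hS, hA]; exact hVDIM h n m k π p e r w0 c hh
  obtain ⟨y, hy, hyS, hyA, hyB⟩ := flag hAB hBS f1 f2
  refine ⟨_, y, hy, fun i => by rw [← hS]; exact hyS i, by rw [hS]; rfl, ?_, ?_⟩
  · by_cases ht : h = 0 ∧ wt ((n : ℤ) ^ 2) + w0 = 0
    · exact Or.inl ht
    · right
      have hd : dN h n w0 ≤ 1 := by
        unfold dN
        split_ifs
        · exact Nat.zero_le _
        · exact le_rfl
      intro i j hij
      rw [← hA]
      by_contra hcon
      push Not at hcon
      have g1 : ¬ i.val < Module.finrank (ZMod 3) A := fun h' => hcon.1 (hyA i h')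
      have g2 : ¬ j.val < Module.finrank (ZMod 3) A := fun h' => hcon.2 (hyA j h')
      have g3 := i.2
      have g4 := j.2
      apply hij
      apply Fin.ext
      omega
  · intro i j hij
    rw [← hA]
    by_cases g1 : y i ∈ A
    · exact Or.inl g1
    · right
      by_cases g2 : y j ∈ A
      · exact Or.inl g2
      · right
        have g4 := j.2
        have g5 : i.val < j.val := hij
        have g6 : y i ∈ B := hyB i (by omega)
        rw [hB, Submodule.mem_inf, LinearMap.mem_ker, e1] at g6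
        exact g6.2

end Pool.Agent.PTK

end

section

/-!
# PTK_ESZ: the law of the corank, `q = 1 (mod 3)`
-/

set_option autoImplicit false

namespace Pool.Agent.PTK

open Pool.Agent.PTL

namespace ESZ

theorem lin (s : ℕ) (a b : ℝ) (F G : ℕ → ℝ) :
    Esk s (fun c => a * F c + b * G c) = a * Esk s F + b * Esk s G := by
  unfold Esk
  haveI := Fintype.ofFinite {M : Matrix (Fin s) (Fin s) (ZMod 3) // M.transpose = -M}
  rw [finsum_eq_sum_of_fintype, finsum_eq_sum_of_fintype, finsum_eq_sum_of_fintype,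
    Finset.sum_add_distrib, ← Finset.mul_sum, ← Finset.mul_sum]
  ring

theorem zero (F : ℕ → ℝ) : Esk 0 F = F 0 := by
  unfold Esk
  haveI := Fintype.ofFinite {M : Matrix (Fin 0) (Fin 0) (ZMod 3) // M.transpose = -M}
  haveI : Unique {M : Matrix (Fin 0) (Fin 0) (ZMod 3) // M.transpose = -M} :=
    ⟨⟨⟨0, by simp⟩⟩, fun M => Subtype.ext (by ext i; exact i.elim0)⟩
  rw [finsum_eq_sum_of_fintype, Nat.card_unique, Nat.cast_one, div_one, Fintype.sum_unique,
    Nat.zero_sub]

end ESZ

open _root_.Pool.Agent.PTK.ESZ in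
theorem ESZ_thm (hESR : Stmt_ESR) : Stmt_ESZ := by
  intro d
  induction d with
  | zero =>
    intro F
    rw [hESR 0 F]
    simp only [zero, pow_zero, div_one, sub_self, zero_mul]
  | succ d ih =>
    intro F
    have h1 : Esk (d + 1 + 1) F = (1 - 1 / 3 ^ d) * Esk d F +
        1 / 3 ^ d * (2 / 3 * Esk d F + 1 / 3 * Esk (d + 1) (fun c => F (c + 1))) := by
      rw [hESR (d + 1) F, ← ih]
      congr 1
      · rcases Nat.eq_zero_or_pos d with rfl | hd
        · rw [pow_zero, div_one, sub_self, zero_mul, zero_mul]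
        · have e : d - 1 + 1 = d := Nat.sub_add_cancel hd
          have e2 := hESR (d - 1) F
          rw [e] at e2
          rw [e2]
      · congr 1
        rw [hESR d (fun c => F (c + 1)), ← lin]
        congr 1
        funext c
        have h3 : (1 - 1 / 3 ^ c) * F (c - 1 + 1) = (1 - 1 / 3 ^ c) * F c := by
          rcases Nat.eq_zero_or_pos c with rfl | hc
          · rw [pow_zero, div_one, sub_self, zero_mul, zero_mul]
          · rw [Nat.sub_add_cancel hc]
        rw [h3, Nat.add_sub_cancel, pow_succ]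
        have h4 : (3 : ℝ) ^ c ≠ 0 := by positivity
        field_simp
        ring
    rw [h1, Nat.add_sub_cancel, pow_succ]
    have h4 : (3 : ℝ) ^ d ≠ 0 := by positivity
    field_simp
    ring

end Pool.Agent.PTK

end
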