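import Mathlib
import Pool.Agent.PTWX.C67

/-! Parts: PTKX.CHE, PTKX.GFK, PTKX.GFKU -/

namespace Pool.Agent.PTK.CHE
end Pool.Agent.PTK.CHE

namespace Pool.Agent.PTK.GFK
end Pool.Agent.PTK.GFK

namespace Pool.Agent.PTK.GFKU
end Pool.Agent.PTK.GFKU

section

/-!
# PTK_CHE: the pairing of `z j` with a product
-/

set_option autoImplicit false

open NumberField IsDedekindDomain Finset
open scoped nonZeroDivisors Pointwise

namespace Pool.Agent.PTK

open Pool.Agent.Lib_helper18 Pool.Agent.Lib_helper18.Eis Pool.Agent.Lib_helper84.Cub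
open Pool.Agent.PT Pool.Agent.PTE Pool.Agent.PT3 Pool.Agent.PTL Pool.Agent.PTN

namespace CHE

/-! ### Admissible classes -/

theorem age_mul (hSTM : STM) (hSPP : SPP) {B x y : Eis} (hB : B ≠ 0) (hx : AGE B x)
    (hy : AGE B y) : AGE B (x * y) where
  ne := mul_ne_zero hx.ne hy.ne
  sym := fun π => by
    have hs := hSTM π.1 π.2.1 (hSPP.2.2.2.1 π).1
    rw [hs.mul _ _ _ hx.ne hy.ne hB, hx.sym π, hy.sym π, add_zero]
  unr := fun π h1 h2 => by
    rcases π.2.1.dvd_or_dvd h2 with h | h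
    · exact hx.unr π h1 h
    · exact hy.unr π h1 h

theorem age_one (hSTM : STM) (hSPP : SPP) {B : Eis} (hB : B ≠ 0) : AGE B 1 where
  ne := one_ne_zero
  sym := fun π => by
    have hs := hSTM π.1 π.2.1 (hSPP.2.2.2.1 π).1
    have h1 : (1 : Eis) ≠ 0 := one_ne_zero
    have h := hs.mul 1 1 _ h1 h1 hB
    rw [one_mul] at h
    have h2 : tm π.1 1 B + 0 = tm π.1 1 B + tm π.1 1 B := by
      rw [add_zero]
      exact h
    exact (add_left_cancel h2).symm
  unr := fun π _ h2 => π.2.1.not_isUnit (isUnit_of_dvd_one h2)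

theorem age_pow (hSTM : STM) (hSPP : SPP) {B x : Eis} (hB : B ≠ 0) (hx : AGE B x) (n : ℕ) :
    AGE B (x ^ n) := by
  induction n with
  | zero =>
    rw [pow_zero]
    exact age_one hSTM hSPP hB
  | succ n ih =>
    rw [pow_succ]
    exact age_mul hSTM hSPP hB ih hx

theorem age_prod (hSTM : STM) (hSPP : SPP) {B : Eis} (hB : B ≠ 0) {l : ℕ} {z : Fin l → Eis}
    (hz : ∀ i, AGE B (z i)) (c : Fin l → ℕ) (t : Finset (Fin l)) :
    AGE B (∏ i ∈ t, z i ^ c i) := by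
  classical
  induction t using Finset.induction_on with
  | empty =>
    rw [Finset.prod_empty]
    exact age_one hSTM hSPP hB
  | insert i t hi ih =>
    rw [Finset.prod_insert hi]
    exact age_mul hSTM hSPP hB (age_pow hSTM hSPP hB (hz i) _) ih

/-! ### Classes of the minus part -/

theorem mcl_ne {b : Eis} (hb : MCl b) : b ≠ 0 := by
  rintro rfl
  exact hb.nl (dvd_zero _)

theorem mcl_mul {x y : Eis} (hx : MCl x) (hy : MCl y) : MCl (x * y) where
  nl := fun h => (prime_lam.dvd_or_dvd h).elim hx.nl hy.nl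
  cb := by
    obtain ⟨s, hs⟩ := hx.cb
    obtain ⟨t, ht⟩ := hy.cb
    refine ⟨s * t, ?_⟩
    rw [map_mul, mul_pow, ← hs, ← ht]
    ring

theorem mcl_one : MCl 1 where
  nl := fun h => prime_lam.not_isUnit (isUnit_of_dvd_one h)
  cb := ⟨1, by rw [map_one]; ring⟩

theorem mcl_pow {x : Eis} (hx : MCl x) (n : ℕ) : MCl (x ^ n) := by
  induction n with
  | zero =>
    rw [pow_zero]
    exact mcl_one
  | succ n ih =>
    rw [pow_succ]
    exact mcl_mul ih hx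

theorem mcl_prod {l : ℕ} {z : Fin l → Eis} (hz : ∀ i, MCl (z i)) (c : Fin l → ℕ)
    (t : Finset (Fin l)) : MCl (∏ i ∈ t, z i ^ c i) := by
  classical
  induction t using Finset.induction_on with
  | empty =>
    rw [Finset.prod_empty]
    exact mcl_one
  | insert i t hi ih =>
    rw [Finset.prod_insert hi]
    exact mcl_mul (mcl_pow (hz i) _) ih

/-! ### Local cubes -/

theorem lce_mul {π x y : Eis} (hx : LCE π x) (hy : LCE π y) : LCE π (x * y) := by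
  intro N
  obtain ⟨r, hr⟩ := hx N
  obtain ⟨s, hs⟩ := hy N
  refine ⟨r * s, ?_⟩
  have h : (r * s) ^ 3 - x * y = (r ^ 3 - x) * s ^ 3 + x * (s ^ 3 - y) := by ring
  rw [h]
  exact dvd_add (Dvd.dvd.mul_right hr _) (Dvd.dvd.mul_left hs _)

theorem lce_one {π : Eis} : LCE π 1 := fun N => ⟨1, by simp⟩

theorem lce_pow {π x : Eis} (hx : LCE π x) (n : ℕ) : LCE π (x ^ n) := by
  induction n with
  | zero =>
    rw [pow_zero]
    exact lce_one
  | succ n ih =>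
    rw [pow_succ]
    exact lce_mul ih hx

theorem lce_prod {π : Eis} {l : ℕ} {z : Fin l → Eis} (c : Fin l → ℕ)
    (hz : ∀ i, c i ≠ 0 → LCE π (z i)) (t : Finset (Fin l)) : LCE π (∏ i ∈ t, z i ^ c i) := by
  classical
  induction t using Finset.induction_on with
  | empty =>
    rw [Finset.prod_empty]
    exact lce_one
  | insert i t hi ih =>
    rw [Finset.prod_insert hi]
    refine lce_mul ?_ ih
    by_cases h : c i = 0
    · rw [h, pow_zero]
      exact lce_one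
    · exact lce_pow (hz i h) _

/-! ### Splitting off a factor -/

theorem prod_split {l : ℕ} (b : Fin l → Eis) (g g' : Fin l → ℕ) (i0 : Fin l)
    (h : ∀ i, g i = g' i + if i = i0 then 1 else 0) :
    ∏ i, b i ^ g i = (∏ i, b i ^ g' i) * b i0 := by
  have h1 : ∏ i, b i ^ (if i = i0 then 1 else 0) = b i0 := by
    rw [Finset.prod_eq_single i0]
    · simp
    · intro i _ hi
      simp [hi]
    · intro hi
      exact absurd (Finset.mem_univ _) hi
  conv_rhs => rw [← h1]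
  rw [← Finset.prod_mul_distrib]
  refine Finset.prod_congr rfl fun i _ => ?_
  rw [← pow_add, h i]

theorem sum_split {l : ℕ} (m : Fin l → ZMod 3) (g g' : Fin l → ℕ) (i0 : Fin l)
    (h : ∀ i, g i = g' i + if i = i0 then 1 else 0) :
    ∑ i, m i * (g i : ZMod 3) = (∑ i, m i * (g' i : ZMod 3)) + m i0 := by
  have h1 : ∑ i, (if i = i0 then m i else 0) = m i0 := by
    rw [Finset.sum_ite_eq']
    simp
  conv_rhs => rw [← h1]
  rw [← Finset.sum_add_distrib]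
  refine Finset.sum_congr rfl fun i _ => ?_
  rw [h i]
  split_ifs <;> push_cast <;> ring

theorem sol_self {b : Eis} (hb : b ≠ 0) : SolE b b 0 1 1 0 where
  eq := by ring
  n1 := by simpa using hb
  n2 := by simpa using hb
  g1 := by simp [GfE]
  g2 := by simp [GfE]

section Row

variable {l : ℕ} {z : Fin l → Eis} {P Q P' Q' : Fin l → Fin l → Eis}

/-- the solution for one factor -/
theorem one (hTHE : Stmt_THE) (hS : SysF z P Q P' Q') (j i : Fin l) :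
    ∃ p q p' q' : Eis, SolE (z j) (z i) p q p' q' ∧ ∀ B : ℤ, BGE B → (∀ i, AGE B (z i)) →
      (LCE lam (z j) ∨ LCE lam (B : Eis) ∨ LCE lam (z i)) →
      OZE B (z j) (z i) p q p' q' = MaZ z P Q P' Q' B j i := by
  by_cases hij : i = j
  · subst hij
    refine ⟨0, 1, 1, 0, sol_self (mcl_ne (hS.mc i)), fun B hB hA h => ?_⟩
    have hM : MaZ z P Q P' Q' B i i = 0 := by simp [MaZ]
    rw [hM]
    refine hTHE B (z i) hB (hA i) (hS.mc i) ?_
    rcases h with h | h | h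
    · exact Or.inl h
    · exact Or.inr h
    · exact Or.inl h
  · have hji : j ≠ i := fun h => hij h.symm
    refine ⟨_, _, _, _, hS.sol j i hji, fun B _ _ _ => ?_⟩
    unfold MaZ
    rw [if_neg hji]

theorem key (hTAE : Stmt_TAE) (hTHE : Stmt_THE) (hSTM : STM) (hSPP : SPP)
    (hS : SysF z P Q P' Q') (j : Fin l) (n : ℕ) :
    ∀ g : Fin l → ℕ, ∑ i, g i = n + 1 → (∀ i, g i ≤ 2) →
    ∃ p q p' q' : Eis, SolE (z j) (∏ i, z i ^ g i) p q p' q' ∧ ∀ B : ℤ, BGE B →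
      (∀ i, AGE B (z i)) →
      (LCE lam (z j) ∨ LCE lam (B : Eis) ∨ ∀ i, g i ≠ 0 → LCE lam (z i)) →
      OZE B (z j) (∏ i, z i ^ g i) p q p' q' = ∑ i, MaZ z P Q P' Q' B j i * (g i : ZMod 3) := by
  have hbj : ¬ ∃ t : Eis, t ^ 3 = z j := by
    have h1 := hS.ind (fun i => if i = j then 1 else 0) ⟨j, by simp⟩
    have h2 : ∏ i, z i ^ (if i = j then 1 else 0) = z j := by
      rw [Finset.prod_eq_single j]
      · simp
      · intro i _ hij
        simp [hij]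
      · intro h
        exact absurd (Finset.mem_univ _) h
    rw [h2] at h1
    exact h1
  induction n with
  | zero =>
    intro g hg hg2
    obtain ⟨i0, hi0⟩ : ∃ i, g i ≠ 0 := by
      by_contra hcon
      push Not at hcon
      rw [Finset.sum_eq_zero fun i _ => hcon i] at hg
      omega
    have hsp : ∀ i, g i = (g i - if i = i0 then 1 else 0) + if i = i0 then 1 else 0 := by
      intro i
      split_ifs with h
      · rw [h]; omega
      · omega
    have hsum : ∑ i, g i = (∑ i, (g i - if i = i0 then 1 else 0)) + 1 := by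
      have h1 : ∑ i : Fin l, (if i = i0 then 1 else 0) = 1 := by
        rw [Finset.sum_ite_eq']
        simp
      calc ∑ i, g i = ∑ i, ((g i - if i = i0 then 1 else 0) + if i = i0 then 1 else 0) :=
            Finset.sum_congr rfl fun i _ => hsp i
        _ = (∑ i, (g i - if i = i0 then 1 else 0)) + ∑ i : Fin l, (if i = i0 then 1 else 0) :=
            Finset.sum_add_distrib
        _ = _ := by rw [h1]
    have h0 : ∀ i, (g i - if i = i0 then 1 else 0) = 0 := by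
      have h2 : ∑ i, (g i - if i = i0 then 1 else 0) = 0 := by omega
      intro i
      exact (Finset.sum_eq_zero_iff.1 h2) i (Finset.mem_univ i)
    obtain ⟨p, q, p', q', h1, h2⟩ := one hTHE hS j i0
    have h3 : ∏ i, z i ^ (g i - if i = i0 then 1 else 0) = 1 :=
      Finset.prod_eq_one fun i _ => by rw [h0 i, pow_zero]
    have h5 : ∏ i, z i ^ g i = z i0 := by
      rw [prod_split z g _ i0 hsp, h3, one_mul]
    rw [h5]
    refine ⟨p, q, p', q', h1, fun B hB hA hc => ?_⟩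
    have h4 : ∑ i, MaZ z P Q P' Q' B j i *
        (((g i - if i = i0 then 1 else 0 : ℕ)) : ZMod 3) = 0 :=
      Finset.sum_eq_zero fun i _ => by rw [h0 i, Nat.cast_zero, mul_zero]
    rw [sum_split _ g _ i0 hsp, h4, zero_add]
    exact h2 B hB hA (hc.imp id fun h => h.imp id fun h => h i0 hi0)
  | succ n ih =>
    intro g hg hg2
    obtain ⟨i0, hi0⟩ : ∃ i, g i ≠ 0 := by
      by_contra hcon
      push Not at hcon
      rw [Finset.sum_eq_zero fun i _ => hcon i] at hg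
      omega
    have hsp : ∀ i, g i = (g i - if i = i0 then 1 else 0) + if i = i0 then 1 else 0 := by
      intro i
      split_ifs with h
      · rw [h]; omega
      · omega
    have hsum : ∑ i, g i = (∑ i, (g i - if i = i0 then 1 else 0)) + 1 := by
      have h1 : ∑ i : Fin l, (if i = i0 then 1 else 0) = 1 := by
        rw [Finset.sum_ite_eq']
        simp
      calc ∑ i, g i = ∑ i, ((g i - if i = i0 then 1 else 0) + if i = i0 then 1 else 0) :=
            Finset.sum_congr rfl fun i _ => hsp i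
        _ = (∑ i, (g i - if i = i0 then 1 else 0)) + ∑ i : Fin l, (if i = i0 then 1 else 0) :=
            Finset.sum_add_distrib
        _ = _ := by rw [h1]
    obtain ⟨p, q, p', q', h1, h2⟩ := one hTHE hS j i0
    obtain ⟨p₁, q₁, p₁', q₁', h3, h4⟩ := ih (fun i => g i - if i = i0 then 1 else 0)
      (by
        show ∑ i, (g i - if i = i0 then 1 else 0) = n + 1
        omega)
      (fun i => (Nat.sub_le _ _).trans (hg2 i))
    have hnc : ¬ ∃ c : Eis, c ^ 3 =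
        (∏ i, z i ^ (g i - if i = i0 then 1 else 0)) * z i0 := by
      rw [← prod_split z g _ i0 hsp]
      refine hS.ind g ⟨i0, ?_⟩
      intro h
      have := hg2 i0
      omega
    have hm := mcl_prod hS.mc (fun i => g i - if i = i0 then 1 else 0) Finset.univ
    obtain ⟨p₂, q₂, p₂', q₂', h5, h6⟩ := hTAE (z j)
      (∏ i, z i ^ (g i - if i = i0 then 1 else 0)) (z i0) p₁ q₁ p₁' q₁' p q p' q' hbj hnc
      (mcl_ne (hS.mc j)) (mcl_ne hm) (mcl_ne (hS.mc i0)) (hS.mc j) hm (hS.mc i0) h3 h1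
    rw [prod_split z g _ i0 hsp]
    refine ⟨p₂, q₂, p₂', q₂', h5, fun B hB hA hc => ?_⟩
    have hgi : ∀ i, g i - (if i = i0 then 1 else 0) ≠ 0 → g i ≠ 0 := by
      intro i h h'
      apply h
      rw [h']
      exact Nat.zero_sub _
    rw [sum_split _ g _ i0 hsp, h6 B hB (hA j) (age_prod hSTM hSPP hB.ne hA _ Finset.univ)
      (hA i0) (hc.imp id fun h => h.imp id fun h =>
        ⟨lce_prod _ (fun i hi => h i (hgi i hi)) Finset.univ, h i0 hi0⟩),
      h4 B hB hA (hc.imp id fun h => h.imp id fun h i hi => h i (hgi i hi)),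
      h2 B hB hA (hc.imp id fun h => h.imp id fun h => h i0 hi0)]

end Row

end CHE

open _root_.Pool.Agent.PTK.CHE in
theorem CHE_thm (hTAE : Stmt_TAE) (hTHE : Stmt_THE) (hSTM : STM) (hSPP : SPP) : Stmt_CHE := by
  intro l z P Q P' Q' hS j c hc2 hc
  obtain ⟨i1, hi1⟩ := hc
  have hpos : 0 < ∑ i, c i := by
    have h1 : c i1 ≤ ∑ i, c i :=
      Finset.single_le_sum (f := fun i => c i) (fun i _ => Nat.zero_le _)
        (Finset.mem_univ i1)
    omega
  exact key hTAE hTHE hSTM hSPP hS j ((∑ i, c i) - 1) c (by omega) hc2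

end Pool.Agent.PTK

end

section

/-!
# PTK, module GFK: Frobenius elements and `t` (helper92)

Model: `PT/GFR.lean`.
-/

set_option autoImplicit false

open NumberField IsDedekindDomain Finset
open scoped nonZeroDivisors Pointwise

namespace Pool.Agent.PTK

open Pool.Agent.Lib_helper18 Pool.Agent.Lib_helper18.Eis Pool.Agent.Lib_helper84.Cub
open Pool.Agent.PT Pool.Agent.PTL

namespace GFK

theorem hom_eq {S : Type*} [CommRing S] (κ : Eis →+* S) (a : Eis) :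
    κ a = (a.re : S) + (a.im : S) * κ w := by
  have h : a = (a.re : Eis) + (a.im : Eis) * w := by
    ext <;> simp
  conv_lhs => rw [h]
  rw [map_add, map_mul, map_intCast, map_intCast]

theorem hom_rel {S : Type*} [CommRing S] (κ : Eis →+* S) : κ w ^ 2 + κ w + 1 = 0 := by
  have := congrArg κ w_rel
  rwa [map_add, map_add, map_pow, map_one, map_zero] at this

theorem lf_prod (p q r : Eis) : LfE p q 0 r * LfE p q 1 r * LfE p q 2 r =
    p ^ 3 + q ^ 3 * r ^ 3 := by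
  have h1 := w_rel
  have h2 := w_cube
  simp only [LfE]
  linear_combination (p ^ 2 * q * r + p * q ^ 2 * r ^ 2) * h1 +
    (p * q ^ 2 * r ^ 2 + q ^ 3 * r ^ 3) * h2

/-- the linear forms are prime to `Q` -/
theorem lf_not_dvd {Q : ℕ} {x p q r : Eis} (hb : ¬ (Q : Eis) ∣ p ^ 3 + x * q ^ 3)
    (hr : (Q : Eis) ∣ r ^ 3 - x) : ¬ (Q : Eis) ∣ LfE p q 1 r ∧ ¬ (Q : Eis) ∣ LfE p q 2 r := by
  have key : ¬ (Q : Eis) ∣ LfE p q 0 r * LfE p q 1 r * LfE p q 2 r := by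
    rw [lf_prod]
    intro h
    refine hb ?_
    have h2 : p ^ 3 + x * q ^ 3 = p ^ 3 + q ^ 3 * r ^ 3 - (r ^ 3 - x) * q ^ 3 := by ring
    rw [h2]
    exact dvd_sub h (Dvd.dvd.mul_right hr _)
  exact ⟨fun h => key (Dvd.dvd.mul_right (Dvd.dvd.mul_left h _) _),
    fun h => key (Dvd.dvd.mul_left h _)⟩

theorem N_Q (Q : ℕ) : N (Q : Eis) = Q * Q := by
  have h3 := N_cast (Q : Eis)
  rw [Eis.norm_natCast] at h3
  have h4 : ((N (Q : Eis) : ℕ) : ℤ) = ((Q * Q : ℕ) : ℤ) := by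
    rw [h3]
    push_cast
    ring
  exact_mod_cast h4

theorem not_dvd_of_lt {Q : ℕ} {z : Eis} (hz : z ≠ 0) (h : N z < Q) : ¬ (Q : Eis) ∣ z := by
  rintro ⟨d, rfl⟩
  have hd : d ≠ 0 := by
    rintro rfl
    exact hz (mul_zero _)
  have h1 := N_pos hd
  rw [N_mul, N_Q] at h
  rcases Nat.eq_zero_or_pos Q with h0 | h0
  · rw [h0] at h
    omega
  · have h2 : 1 ≤ Q * N d := Nat.mul_pos h0 h1
    nlinarith

/-- the general comparison modulo `P` -/
theorem key {L : Type} [Field L] [NumberField L] {Q : ℕ} (hQ : Q.Prime)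
    {P : Ideal (𝓞 L)} (hP : P.IsPrime) (hQP : (Q : 𝓞 L) ∈ P) (hQ3 : Q % 3 = 2)
    {φ : L ≃ₐ[ℚ] L} (hφ : IsArithFrobAt ℤ φ P) (κ : Eis →+* 𝓞 L) {E : Eis}
    (hE : ¬ (Q : Eis) ∣ E) {y : 𝓞 L}
    (hy : Ideal.Quotient.mk P y ^ 3 = Ideal.Quotient.mk P (κ E)) {k : ℕ}
    (hk : φ • (φ • y) = κ w ^ k * y) : (k : ZMod 3) = sym (Q : Eis) E := by
  have hfin := GFR.quo_finite hQ hP hQP
  have hmax : P.IsMaximal :=
    Ideal.Quotient.maximal_of_isField _ (Finite.isField_of_domain (𝓞 L ⧸ P))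
  let _ : Field (𝓞 L ⧸ P) := Ideal.Quotient.field P
  have hq := prime_inert hQ hQ3
  have hq3 := n3 hQ hQ3
  let ψ : Eis →+* 𝓞 L ⧸ P := (Ideal.Quotient.mk P).comp κ
  set z : 𝓞 L ⧸ P := ψ w with hz
  have hzrel : z ^ 2 + z + 1 = 0 := hom_rel ψ
  have hz3 := GFR.omega_cube hzrel
  have h3Q : ¬ (Q : ℤ) ∣ 3 := by
    intro h3
    have h4 : Q ∣ 3 := by exact_mod_cast h3
    have h5 := (Nat.prime_dvd_prime_iff_eq hQ Nat.prime_three).1 h4
    omega
  have hz1 : z ≠ 1 := by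
    intro h3
    rw [h3] at hzrel
    refine h3Q ((GFR.int_mk hQ hP hQP 3).1 ?_)
    push_cast
    linear_combination hzrel
  have hψQ : ψ (Q : Eis) = 0 := by
    rw [map_natCast, ← map_natCast (Ideal.Quotient.mk P)]
    exact Ideal.Quotient.eq_zero_iff_mem.2 hQP
  have hsym := map_pow_eq hq hq3 hE ψ hψQ
  set a := Ideal.Quotient.mk P y with ha
  have hmkA : a ^ 3 = ψ E := hy
  rw [← hmkA, ← hz] at hsym
  have hN := N_Q Q
  have hM : 3 * ((N (Q : Eis) - 1) / 3) + 1 = Q * Q := by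
    rw [three_mul_div hq hq3, hN]
  have ha0 : a ≠ 0 := by
    intro h3
    rw [h3] at hsym
    have h5 : 0 < (N (Q : Eis) - 1) / 3 := by
      have h6 := hQ.two_le
      by_contra h7
      have h8 : (N (Q : Eis) - 1) / 3 = 0 := by omega
      rw [h8] at hM
      nlinarith
    have h6 : z ≠ 0 := by
      intro h7
      rw [h7] at hz3
      norm_num at hz3
    rw [zero_pow (by norm_num), zero_pow h5.ne'] at hsym
    exact pow_ne_zero _ h6 hsym.symm
  have hfinal : z ^ k = z ^ (sym (Q : Eis) E).val := by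
    have h3 := congrArg (Ideal.Quotient.mk P) hk
    have h4 : Ideal.Quotient.mk P (κ w) = z := rfl
    rw [GFR.frob_mk hQ hP hQP hφ, GFR.frob_mk hQ hP hQP hφ, map_mul, map_pow, h4, ← ha, ← pow_mul,
      ← hM, pow_succ, pow_mul, hsym] at h3
    exact (mul_right_cancel₀ ha0 h3).symm
  have horder : orderOf z = 3 := by
    have := Fact.mk Nat.prime_three
    exact orderOf_eq_prime hz3 hz1
  have h3 := IsPrimitiveRoot.orderOf z
  rw [horder] at h3
  rw [GFR.pow_mod3 hz3 k] at hfinal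
  have h4 : k % 3 = (sym (Q : Eis) E).val :=
    h3.pow_inj (Nat.mod_lt k (by norm_num)) (ZMod.val_lt _) hfinal
  rw [← ZMod.natCast_mod k 3, h4, ZMod.natCast_val, ZMod.cast_id', id_eq]

theorem cube_eq {F : Type*} [Field F] {ω y ρ : F} (hω : ω ^ 2 + ω + 1 = 0)
    (h : y ^ 3 = ρ ^ 3) : y = ρ ∨ y = ω * ρ ∨ y = ω ^ 2 * ρ := by
  have hω3 := GFR.omega_cube hω
  have h2 : (y - ρ) * ((y - ω * ρ) * (y - ω ^ 2 * ρ)) = 0 := by
    linear_combination h + (-y ^ 2 * ρ + y * ρ ^ 2) * hω + (y * ρ ^ 2 - ρ ^ 3) * hω3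
  rcases mul_eq_zero.1 h2 with h3 | h3
  · exact Or.inl (sub_eq_zero.1 h3)
  rcases mul_eq_zero.1 h3 with h4 | h4
  · exact Or.inr (Or.inl (sub_eq_zero.1 h4))
  · exact Or.inr (Or.inr (sub_eq_zero.1 h4))

/-- the lift of `ι` to the ring of integers -/
theorem exists_lift {L : Type} [Field L] [NumberField L] (ι : Eis →+* L) :
    ∃ κ : Eis →+* 𝓞 L, ∀ a, ((κ a : 𝓞 L) : L) = ι a := by
  let ωB : 𝓞 L := ⟨ι w, GFR.isIntegral_omega (hom_rel ι)⟩
  have hωB : ωB ^ 2 + ωB + 1 = 0 := by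
    apply RingOfIntegers.coe_injective
    change ι w ^ 2 + ι w + 1 = 0
    exact hom_rel ι
  refine ⟨GFR.lift ωB hωB, fun a => ?_⟩
  have h1 := hom_eq ((algebraMap (𝓞 L) L).comp (GFR.lift ωB hωB)) a
  have h2 := hom_eq ι a
  have h3 : ((algebraMap (𝓞 L) L).comp (GFR.lift ωB hωB)) w = ι w := by
    rw [RingHom.comp_apply, GFR.lift_w]
    rfl
  rw [h3] at h1
  rw [h2, ← h1]
  rfl

section Main

variable {L : Type} [Field L] [NumberField L] {Q : ℕ} (hQ : Q.Prime)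
    {P : Ideal (𝓞 L)} (hP : P.IsPrime) (hQP : (Q : 𝓞 L) ∈ P) (hQ3 : Q % 3 = 2)
    {φ : L ≃ₐ[ℚ] L} (hφ : IsArithFrobAt ℤ φ P) (ι : Eis →+* L)

include hQ hP hQP hQ3 hφ

theorem sq_w : φ (φ (ι w)) = ι w := by
  have h1 := GFR.frob_omega hQ hP hQP hQ3 hφ (hom_rel ι)
  have h3 := GFR.omega_cube (hom_rel ι)
  rw [h1, map_pow, h1]
  linear_combination ι w * h3

theorem sq_a (a : Eis) : φ (φ (ι a)) = ι a := by
  have h := sq_w hQ hP hQP hQ3 hφ ι
  rw [hom_eq ι a]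
  simp only [map_add, map_mul, map_intCast, h]

/-- a root of an element with trivial symbol is fixed by the square of the Frobenius element -/
theorem fix {c : Eis} (hc : ¬ (Q : Eis) ∣ c) (hs : sym (Q : Eis) c = 0) {ρ : L}
    (hρ : ρ ^ 3 = ι c) : φ (φ ρ) = ρ := by
  obtain ⟨κ, hκ⟩ := exists_lift ι
  have hint : IsIntegral ℤ ρ := by
    refine IsIntegral.of_pow (n := 3) (by norm_num) ?_
    rw [hρ, ← hκ]
    exact RingOfIntegers.isIntegral_coe _
  let y : 𝓞 L := ⟨ρ, hint⟩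
  have hy : y ^ 3 = κ c := by
    apply RingOfIntegers.coe_injective
    change ρ ^ 3 = ((κ c : 𝓞 L) : L)
    rw [hκ, hρ]
  have hcube : (φ (φ ρ)) ^ 3 = ρ ^ 3 := by
    rw [← map_pow, ← map_pow, hρ, sq_a hQ hP hQP hQ3 hφ]
  have hrel := hom_rel ι
  obtain ⟨k, hk⟩ : ∃ k : ℕ, φ (φ ρ) = ι w ^ k * ρ := by
    rcases cube_eq hrel hcube with h | h | h
    · exact ⟨0, by rw [h, pow_zero, one_mul]⟩
    · exact ⟨1, by rw [h, pow_one]⟩
    · exact ⟨2, h⟩
  have hkk : φ • (φ • y) = κ w ^ k * y := by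
    apply RingOfIntegers.coe_injective
    rw [map_mul, map_pow]
    change φ (φ ρ) = ((κ w : 𝓞 L) : L) ^ k * ρ
    rw [hκ, hk]
  have h1 := key hQ hP hQP hQ3 hφ κ hc (y := y) (by rw [← map_pow, hy]) hkk
  rw [hs] at h1
  have h2 : 3 ∣ k := (ZMod.natCast_eq_zero_iff k 3).1 h1
  obtain ⟨m, rfl⟩ := h2
  rw [hk, pow_mul, GFR.omega_cube hrel, one_pow, one_mul]

theorem core {x p q p' q' r : Eis} (h0 : ¬ (Q : Eis) ∣ x) (hsx : sym (Q : Eis) x = 0)
    (h1 : ¬ (Q : Eis) ∣ p ^ 3 + x * q ^ 3)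
    (h2 : ¬ (Q : Eis) ∣ p' ^ 3 + x * q' ^ 3) (hr : (Q : Eis) ∣ r ^ 3 - x)
    (hroot : ∃ θ : L, θ ^ 3 = ι x)
    (hA : ∀ ρ : L, ρ ^ 3 = ι x → ∃ A : L, A ^ 3 * aDE ι p q p' q' ρ = aNE ι p q p' q' ρ)
    {t : ZMod 3} (ht : ∀ ρ A : L, ρ ^ 3 = ι x →
      A ^ 3 * aDE ι p q p' q' ρ = aNE ι p q p' q' ρ → φ (φ A) = ι w ^ t.val * A) :
    t = TAUE Q p q p' q' r := by
  obtain ⟨κ, hκ⟩ := exists_lift ι
  have hrel := hom_rel ι
  have hω3 := GFR.omega_cube hrel
  have hfin := GFR.quo_finite hQ hP hQP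
  have hmax : P.IsMaximal :=
    Ideal.Quotient.maximal_of_isField _ (Finite.isField_of_domain (𝓞 L ⧸ P))
  let _ : Field (𝓞 L ⧸ P) := Ideal.Quotient.field P
  have hq := prime_inert hQ hQ3
  have hq3 := n3 hQ hQ3
  let ψ : Eis →+* 𝓞 L ⧸ P := (Ideal.Quotient.mk P).comp κ
  have hψrel : ψ w ^ 2 + ψ w + 1 = 0 := hom_rel ψ
  have hψ3 := GFR.omega_cube hψrel
  have hψQ : ψ (Q : Eis) = 0 := by
    rw [map_natCast, ← map_natCast (Ideal.Quotient.mk P)]
    exact Ideal.Quotient.eq_zero_iff_mem.2 hQP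
  have hψr : ψ r ^ 3 = ψ x := by
    obtain ⟨d, hd⟩ := hr
    have h3 := congrArg ψ hd
    rw [map_sub, map_pow, map_mul, hψQ, zero_mul] at h3
    exact sub_eq_zero.1 h3
  -- a root of `x` congruent to `r`
  obtain ⟨ρB, hρB, hρr⟩ : ∃ ρB : 𝓞 L, ρB ^ 3 = κ x ∧ Ideal.Quotient.mk P ρB = ψ r := by
    obtain ⟨θ, hθ⟩ := hroot
    have hint : IsIntegral ℤ θ := by
      refine IsIntegral.of_pow (n := 3) (by norm_num) ?_
      rw [hθ, ← hκ]
      exact RingOfIntegers.isIntegral_coe _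
    let θB : 𝓞 L := ⟨θ, hint⟩
    have hθB : θB ^ 3 = κ x := by
      apply RingOfIntegers.coe_injective
      change θ ^ 3 = ((κ x : 𝓞 L) : L)
      rw [hκ, hθ]
    have hκ3 : κ w ^ 3 = 1 := GFR.omega_cube (hom_rel κ)
    have hc3 : (ψ r) ^ 3 = (Ideal.Quotient.mk P θB) ^ 3 := by
      rw [hψr, ← map_pow, hθB]
      rfl
    rcases cube_eq hψrel hc3 with h | h | h
    · exact ⟨θB, hθB, h.symm⟩
    · refine ⟨κ w * θB, ?_, ?_⟩
      · rw [mul_pow, hκ3, one_mul, hθB]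
      · rw [map_mul, h]
        rfl
    · refine ⟨κ w ^ 2 * θB, ?_, ?_⟩
      · rw [mul_pow, ← pow_mul, mul_comm 2 3, pow_mul, hκ3, one_pow, one_mul, hθB]
      · rw [map_mul, map_pow, h]
        rfl
  have hρ : (ρB : L) ^ 3 = ι x := by
    rw [← hκ, ← hρB]
    rfl
  obtain ⟨A, hAA⟩ := hA (ρB : L) hρ
  -- the elements of the ring of integers
  let dD : 𝓞 L := (κ p + κ q * κ w * ρB) * (κ p' + κ q' * κ w ^ 2 * ρB)
  let dN : 𝓞 L := (κ p + κ q * κ w ^ 2 * ρB) * (κ p' + κ q' * κ w * ρB)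
  have hdD : algebraMap (𝓞 L) L dD = aDE ι p q p' q' (ρB : L) := by
    simp only [dD, aDE, map_mul, map_add, map_pow, hκ]
  have hdN : algebraMap (𝓞 L) L dN = aNE ι p q p' q' (ρB : L) := by
    simp only [dN, aNE, map_mul, map_add, map_pow, hκ]
  have hA' : (A * aDE ι p q p' q' (ρB : L)) ^ 3 = algebraMap (𝓞 L) L (dN * dD ^ 2) := by
    rw [map_mul, map_pow, hdD, hdN, ← hAA]
    ring
  have hAint : IsIntegral ℤ (A * aDE ι p q p' q' (ρB : L)) := by
    refine IsIntegral.of_pow (n := 3) (by norm_num) ?_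
    rw [hA']
    exact RingOfIntegers.isIntegral_coe _
  let AB : 𝓞 L := ⟨A * aDE ι p q p' q' (ρB : L), hAint⟩
  have hAB : AB ^ 3 = dN * dD ^ 2 := by
    apply RingOfIntegers.coe_injective
    rw [← hA']
    rfl
  have hφρ : φ (φ (ρB : L)) = ρB := fix hQ hP hQP hQ3 hφ ι h0 hsx hρ
  have hφD : φ (φ (aDE ι p q p' q' (ρB : L))) = aDE ι p q p' q' (ρB : L) := by
    simp only [aDE, map_mul, map_add, map_pow, sq_a hQ hP hQP hQ3 hφ, hφρ]
  have hφφ : φ • (φ • AB) = κ w ^ t.val * AB := by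
    apply RingOfIntegers.coe_injective
    rw [map_mul, map_pow]
    change φ (φ (A * aDE ι p q p' q' (ρB : L))) =
      ((κ w : 𝓞 L) : L) ^ t.val * (A * aDE ι p q p' q' (ρB : L))
    rw [hκ, map_mul, map_mul, hφD, ht _ A hρ hAA]
    ring
  obtain ⟨e1, e2⟩ := lf_not_dvd h1 hr
  obtain ⟨e1', e2'⟩ := lf_not_dvd h2 hr
  set E : Eis := LfE p q 2 r * LfE p' q' 1 r * (LfE p q 1 r * LfE p' q' 2 r) ^ 2 with hE
  have hEd : ¬ (Q : Eis) ∣ E := by
    intro h3
    rcases hq.dvd_or_dvd h3 with h4 | h4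
    · rcases hq.dvd_or_dvd h4 with h5 | h5
      · exact e2 h5
      · exact e1' h5
    · rcases hq.dvd_or_dvd (hq.dvd_of_dvd_pow h4) with h5 | h5
      · exact e1 h5
      · exact e2' h5
  have hmkA : Ideal.Quotient.mk P AB ^ 3 = Ideal.Quotient.mk P (κ E) := by
    rw [← map_pow, hAB, hE]
    have hψκ : ∀ a : Eis, Ideal.Quotient.mk P (κ a) = ψ a := fun a => rfl
    simp only [dD, dN, LfE, map_mul, map_add, map_pow, hρr, pow_one, hψκ]
  have hsym := key hQ hP hQP hQ3 hφ κ hEd hmkA hφφ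
  rw [ZMod.natCast_val, ZMod.cast_id', id_eq] at hsym
  rw [hsym, hE]
  have g1 : ¬ (Q : Eis) ∣ LfE p q 2 r * LfE p' q' 1 r := fun h3 =>
    (hq.dvd_or_dvd h3).elim e2 e1'
  have g2 : ¬ (Q : Eis) ∣ LfE p q 1 r * LfE p' q' 2 r := fun h3 =>
    (hq.dvd_or_dvd h3).elim e1 e2'
  have g3 : ¬ (Q : Eis) ∣ (LfE p q 1 r * LfE p' q' 2 r) ^ 2 := fun h3 =>
    g2 (hq.dvd_of_dvd_pow h3)
  rw [sym_mul hq hq3 g1 g3, sym_mul hq hq3 e2 e1', sym_pow hq hq3 g2, sym_mul hq hq3 e1 e2']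
  unfold TAUE
  have h2z : ((2 : ℕ) : ZMod 3) = -1 := by decide
  rw [h2z]
  ring

end Main

end GFK

open _root_.Pool.Agent.PTK.GFK

theorem GFK_thm : Stmt_GFK := by
  classical
  intro s x b p q p' q' f L _ _ ζ ι hS hG
  have hgal := hG.gal
  let B : Fin s → ℕ := fun j => N (b j) + N (p j ^ 3 + x * q j ^ 3) +
    N (p' j ^ 3 + x * q' j ^ 3)
  refine ⟨N x + ∑ j, B j, fun Q hQ hQN P hP hQP => ⟨fun g hg => ?_, fun φ hφ hQ3 => ?_⟩⟩
  · have hfin := GFR.quo_finite hQ hP hQP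
    exact GFR.exists_frob_gen (R := ℤ) P g hg
  · have hφω := GFR.frob_omega hQ hP hQP hQ3 hφ (hom_rel ι)
    refine ⟨hφω, fun hsx hsb => ?_⟩
    have hx0 : x ≠ 0 := by
      intro h0
      refine hS.ind 1 (fun _ => 0) (Or.inl (by norm_num)) ⟨0, ?_⟩
      rw [h0]
      simp
    have hxQ : ¬ (Q : Eis) ∣ x := not_dvd_of_lt hx0 (by omega)
    have hBj : ∀ j, B j < Q := by
      intro j
      have h1 : B j ≤ ∑ i, B i :=
        Finset.single_le_sum (f := B) (fun _ _ => Nat.zero_le _) (Finset.mem_univ j)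
      omega
    have hb0 : ∀ j, b j ≠ 0 := by
      intro j h0
      refine hS.ind 0 (Pi.single j 1) (Or.inr ⟨j, by simp⟩) ⟨0, ?_⟩
      have h1 : ∏ i, b i ^ (Pi.single j 1 : Fin s → ℕ) i = 0 := by
        refine Finset.prod_eq_zero (Finset.mem_univ j) ?_
        rw [Pi.single_eq_same, pow_one, h0]
      rw [h1]
      simp
    have hbQ : ∀ j, ¬ (Q : Eis) ∣ b j := by
      intro j
      have h1 := hBj j
      simp only [B] at h1
      exact not_dvd_of_lt (hb0 j) (by omega)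
    refine ⟨⟨fun ρ hρ => fix hQ hP hQP hQ3 hφ ι hxQ hsx hρ,
      fun j ρ hρ => fix hQ hP hQP hQ3 hφ ι (hbQ j) (hsb j) hρ⟩, fun j r t hr ht => ?_⟩
    have h1 := hBj j
    simp only [B] at h1
    have hsol := hS.sol j
    have hn1 : p j ^ 3 + x * q j ^ 3 ≠ 0 := hsol.n1
    have hn2 : p' j ^ 3 + x * q' j ^ 3 ≠ 0 := by
      intro h0
      refine hn1 ?_
      have h3 := hsol.eq
      rw [h0, mul_zero] at h3
      exact h3
    exact core hQ hP hQP hQ3 hφ ι hxQ hsx (not_dvd_of_lt hn1 (by omega))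
      (not_dvd_of_lt hn2 (by omega)) hr hG.rx (fun ρ hρ => hG.A j ρ hρ) ht

end Pool.Agent.PTK

end

section

/-!
# PTK, module GFKU: Frobenius elements and `t`, primes `= 1 (mod 3)` (helper88)

Models: `PTK/GFK.lean`, `PTE/GFRS.lean`.
-/

set_option autoImplicit false

open NumberField IsDedekindDomain Finset
open scoped nonZeroDivisors Pointwise

namespace Pool.Agent.PTK

open Pool.Agent.Lib_helper18 Pool.Agent.Lib_helper18.Eis Pool.Agent.Lib_helper84.Cub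
open Pool.Agent.PT Pool.Agent.PTE Pool.Agent.PT3 Pool.Agent.PTL Pool.Agent.PTN

namespace GFKU

open Pool.Agent.PTE.GFRS (Dat cases_root)

/-- the data at the prime `P`, for a given prime `ρ` below `P` -/
theorem exists_dat (hSPLT : SPLT) (hSPP : SPP) {L : Type} [Field L] [NumberField L] {Q : ℕ}
    (hQ : Q.Prime) {P : Ideal (𝓞 L)} (hP : P.IsPrime) (hQP : (Q : 𝓞 L) ∈ P) (hQ3 : Q % 3 = 1)
    {φ : L ≃ₐ[ℚ] L} (hφ : IsArithFrobAt ℤ φ P) (κ : Eis →+* 𝓞 L) {ρ : PP}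
    (hρQ : (Q : Eis) = ρ.1 * conj ρ.1) (hρP : κ ρ.1 ∈ P) :
    ∃ (F : Type) (_ : Field F) (mk : 𝓞 L →+* F) (z : F) (ψ : Eis →+* F),
      (∀ a, mk (κ a) = ψ a) ∧ Dat Q φ (κ w) ρ.1 mk z ψ := by
  have hfin := GFR.quo_finite hQ hP hQP
  have hmax : P.IsMaximal :=
    Ideal.Quotient.maximal_of_isField _ (Finite.isField_of_domain (𝓞 L ⧸ P))
  let _ : Field (𝓞 L ⧸ P) := Ideal.Quotient.field P
  have h3 : κ w ^ 2 + κ w + 1 = 0 := GFK.hom_rel κ
  let ψ : Eis →+* 𝓞 L ⧸ P := (Ideal.Quotient.mk P).comp κ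
  set z : 𝓞 L ⧸ P := ψ w with hz
  have hzrel : z ^ 2 + z + 1 = 0 := GFK.hom_rel ψ
  have h3Q : ¬ (Q : ℤ) ∣ 3 := by
    intro h3
    have h4 : Q ∣ 3 := by exact_mod_cast h3
    have h5 := (Nat.prime_dvd_prime_iff_eq hQ Nat.prime_three).1 h4
    omega
  have hz1 : z ≠ 1 := by
    intro h3
    rw [h3] at hzrel
    refine h3Q ((GFR.int_mk hQ hP hQP 3).1 ?_)
    push_cast
    linear_combination hzrel
  have hN : N ρ.1 = Q := by
    have h1 := mul_conj ρ.1
    rw [← hρQ] at h1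
    have h2 : ((Q : ℤ) : Eis) = ((ρ.1.norm : ℤ) : Eis) := by
      rw [Int.cast_natCast]
      exact h1
    have h3 : (Q : ℤ) = ρ.1.norm := by
      have h4 := congrArg Eis.re h2
      simpa using h4
    have h4 := N_cast ρ.1
    rw [← h3] at h4
    exact_mod_cast h4
  have hωL : ((κ w : 𝓞 L) : L) ^ 2 + ((κ w : 𝓞 L) : L) + 1 = 0 := by
    have h4 := congrArg (fun x : 𝓞 L => (x : L)) h3
    simpa using h4
  exact ⟨𝓞 L ⧸ P, inferInstance, Ideal.Quotient.mk P, z, ψ, fun a => rfl,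
    { hQ := hQ
      rel := hzrel
      ne1 := hz1
      ωz := rfl
      ψw := rfl
      ψρ := Ideal.Quotient.eq_zero_iff_mem.2 hρP
      i0 := fun n => GFR.int_mk hQ hP hQP n
      fr := fun x => GFR.frob_mk hQ hP hQP hφ x
      fω := PTE.GFRS.frob_omega hQ hP hQP hQ3 hφ hωL
      rω := h3
      hq := ρ.2.1
      h3 := (hSPP.2.2.2.1 ρ).1
      hN := hN
      hd := (hSPLT.2 Q ρ hQ hQ3 hρQ).2.2.2.1 }⟩

/-- the linear forms are prime to `ρ` -/
theorem lf_not_dvd {ρ x p q r : Eis} (hb : ¬ ρ ∣ p ^ 3 + x * q ^ 3)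
    (hr : ρ ∣ r ^ 3 - x) : ¬ ρ ∣ LfE p q 1 r ∧ ¬ ρ ∣ LfE p q 2 r := by
  have key : ¬ ρ ∣ LfE p q 0 r * LfE p q 1 r * LfE p q 2 r := by
    rw [GFK.lf_prod]
    intro h
    refine hb ?_
    have h2 : p ^ 3 + x * q ^ 3 = p ^ 3 + q ^ 3 * r ^ 3 - (r ^ 3 - x) * q ^ 3 := by ring
    rw [h2]
    exact dvd_sub h (Dvd.dvd.mul_right hr _)
  exact ⟨fun h => key (Dvd.dvd.mul_right (Dvd.dvd.mul_left h _) _),
    fun h => key (Dvd.dvd.mul_left h _)⟩

section Main

variable {L : Type} [Field L] [NumberField L] {F : Type} [Field F] {Q : ℕ}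
  {φ : L ≃ₐ[ℚ] L} {κ : Eis →+* 𝓞 L} {ρ : Eis} {mk : 𝓞 L →+* F} {z : F} {ψ : Eis →+* F}
  (D : Dat Q φ (κ w) ρ mk z ψ) (hψ : ∀ a, mk (κ a) = ψ a)

include D

theorem psi_ne {e : Eis} (he : ¬ ρ ∣ e) : ψ e ≠ 0 := by
  intro h0
  have h4 := map_pow_eq D.hq D.h3 he ψ D.ψρ
  rw [h0, D.ψw] at h4
  have h5 := D.three_mul
  have h6 := D.hQ.two_le
  rw [zero_pow (by omega)] at h4
  exact pow_ne_zero _ D.z0 h4.symm

variable (ι : Eis →+* L) (hκ : ∀ a, ((κ a : 𝓞 L) : L) = ι a)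

include hκ

theorem fw : φ (ι w) = ι w := by
  have h := D.fω
  rwa [hκ] at h

theorem fa (a : Eis) : φ (ι a) = ι a := by
  have h := fw D ι hκ
  rw [GFK.hom_eq ι a]
  simp only [map_add, map_mul, map_intCast, h]

include hψ

/-- a root of an element with trivial symbol is fixed -/
theorem fix {c : Eis} (hc : ¬ ρ ∣ c) (hs : sym ρ c = 0) {θ : L} (hθ : θ ^ 3 = ι c) :
    φ θ = θ := by
  have hint : IsIntegral ℤ θ := by
    refine IsIntegral.of_pow (n := 3) (by norm_num) ?_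
    rw [hθ, ← hκ]
    exact RingOfIntegers.isIntegral_coe _
  let y : 𝓞 L := ⟨θ, hint⟩
  have hy : y ^ 3 = κ c := by
    apply RingOfIntegers.coe_injective
    change θ ^ 3 = ((κ c : 𝓞 L) : L)
    rw [hκ, hθ]
  have hmy : mk y ^ 3 = ψ c := by rw [← map_pow, hy, hψ]
  have hmy0 : mk y ≠ 0 := by
    intro h0
    rw [h0, zero_pow (by norm_num)] at hmy
    exact psi_ne D hc hmy.symm
  have hcube : (φ • y) ^ 3 = y ^ 3 := by
    rw [hy]
    apply RingOfIntegers.coe_injective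
    change (φ θ) ^ 3 = ((κ c : 𝓞 L) : L)
    rw [hκ, ← map_pow, hθ, fa D ι hκ]
  obtain ⟨k, hk⟩ := cases_root D.rω hcube
  have h1 : mk (φ • y) = mk y := by
    rw [D.fr, D.pow_Q hc hmy, hs, ZMod.val_zero, pow_zero, one_mul]
  rw [hk, map_mul, map_pow, D.ωz] at h1
  have h2 : z ^ k = 1 := by
    refine mul_right_cancel₀ hmy0 ?_
    rw [h1, one_mul]
  have h3 : 3 ∣ k := by
    rw [← D.order]
    exact orderOf_dvd_of_pow_eq_one h2
  obtain ⟨l, rfl⟩ := h3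
  have h4 : φ • y = y := by
    rw [hk, pow_mul, GFR.omega_cube D.rω, one_pow, one_mul]
  exact congrArg (fun x : 𝓞 L => (x : L)) h4

theorem core {x p q p' q' r : Eis} (h0 : ¬ ρ ∣ x) (hsx : sym ρ x = 0)
    (h1 : ¬ ρ ∣ p ^ 3 + x * q ^ 3)
    (h2 : ¬ ρ ∣ p' ^ 3 + x * q' ^ 3) (hr : ρ ∣ r ^ 3 - x)
    (hroot : ∃ θ : L, θ ^ 3 = ι x)
    (hA : ∀ θ : L, θ ^ 3 = ι x → ∃ A : L, A ^ 3 * aDE ι p q p' q' θ = aNE ι p q p' q' θ)
    {t : ZMod 3} (ht : ∀ θ A : L, θ ^ 3 = ι x →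
      A ^ 3 * aDE ι p q p' q' θ = aNE ι p q p' q' θ → φ A = ι w ^ t.val * A) :
    t = TAUP ρ p q p' q' r := by
  have hψr : ψ r ^ 3 = ψ x := by
    obtain ⟨d, hd⟩ := hr
    have h3 := congrArg ψ hd
    rw [map_sub, map_pow, map_mul, D.ψρ, zero_mul] at h3
    exact sub_eq_zero.1 h3
  -- a root of `x` congruent to `r`
  obtain ⟨ρB, hρB, hρr⟩ : ∃ ρB : 𝓞 L, ρB ^ 3 = κ x ∧ mk ρB = ψ r := by
    obtain ⟨θ, hθ⟩ := hroot
    have hint : IsIntegral ℤ θ := by
      refine IsIntegral.of_pow (n := 3) (by norm_num) ?_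
      rw [hθ, ← hκ]
      exact RingOfIntegers.isIntegral_coe _
    let θB : 𝓞 L := ⟨θ, hint⟩
    have hθB : θB ^ 3 = κ x := by
      apply RingOfIntegers.coe_injective
      change θ ^ 3 = ((κ x : 𝓞 L) : L)
      rw [hκ, hθ]
    have hc3 : (ψ r) ^ 3 = (mk θB) ^ 3 := by
      rw [hψr, ← map_pow, hθB, hψ]
    obtain ⟨k, hk⟩ := cases_root D.rel hc3
    refine ⟨κ w ^ k * θB, ?_, ?_⟩
    · rw [mul_pow, ← pow_mul, mul_comm k 3, pow_mul, GFR.omega_cube D.rω, one_pow, one_mul, hθB]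
    · rw [map_mul, map_pow, D.ωz, hk]
  have hρ : (ρB : L) ^ 3 = ι x := by
    rw [← hκ, ← hρB]
    rfl
  obtain ⟨A, hAA⟩ := hA (ρB : L) hρ
  -- the elements of the ring of integers
  let dD : 𝓞 L := (κ p + κ q * κ w * ρB) * (κ p' + κ q' * κ w ^ 2 * ρB)
  let dN : 𝓞 L := (κ p + κ q * κ w ^ 2 * ρB) * (κ p' + κ q' * κ w * ρB)
  have hdD : algebraMap (𝓞 L) L dD = aDE ι p q p' q' (ρB : L) := by
    simp only [dD, aDE, map_mul, map_add, map_pow, hκ]
  have hdN : algebraMap (𝓞 L) L dN = aNE ι p q p' q' (ρB : L) := by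
    simp only [dN, aNE, map_mul, map_add, map_pow, hκ]
  have hA' : (A * aDE ι p q p' q' (ρB : L)) ^ 3 = algebraMap (𝓞 L) L (dN * dD ^ 2) := by
    rw [map_mul, map_pow, hdD, hdN, ← hAA]
    ring
  have hAint : IsIntegral ℤ (A * aDE ι p q p' q' (ρB : L)) := by
    refine IsIntegral.of_pow (n := 3) (by norm_num) ?_
    rw [hA']
    exact RingOfIntegers.isIntegral_coe _
  let AB : 𝓞 L := ⟨A * aDE ι p q p' q' (ρB : L), hAint⟩
  have hAB : AB ^ 3 = dN * dD ^ 2 := by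
    apply RingOfIntegers.coe_injective
    rw [← hA']
    rfl
  have hφρ : φ (ρB : L) = ρB := fix D hψ ι hκ h0 hsx hρ
  have hφD : φ (aDE ι p q p' q' (ρB : L)) = aDE ι p q p' q' (ρB : L) := by
    simp only [aDE, map_mul, map_add, map_pow, fa D ι hκ, hφρ]
  have hφφ : φ • AB = κ w ^ t.val * AB := by
    apply RingOfIntegers.coe_injective
    rw [map_mul, map_pow]
    change φ (A * aDE ι p q p' q' (ρB : L)) =
      ((κ w : 𝓞 L) : L) ^ t.val * (A * aDE ι p q p' q' (ρB : L))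
    rw [hκ, map_mul, hφD, ht _ A hρ hAA]
    ring
  have hq := D.hq
  obtain ⟨e1, e2⟩ := lf_not_dvd h1 hr
  obtain ⟨e1', e2'⟩ := lf_not_dvd h2 hr
  set E : Eis := LfE p q 2 r * LfE p' q' 1 r * (LfE p q 1 r * LfE p' q' 2 r) ^ 2 with hE
  have hEd : ¬ ρ ∣ E := by
    intro h3
    rcases hq.dvd_or_dvd h3 with h4 | h4
    · rcases hq.dvd_or_dvd h4 with h5 | h5
      · exact e2 h5
      · exact e1' h5
    · rcases hq.dvd_or_dvd (hq.dvd_of_dvd_pow h4) with h5 | h5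
      · exact e1 h5
      · exact e2' h5
  have hmkA : mk AB ^ 3 = ψ E := by
    rw [← map_pow, hAB, hE]
    simp only [dD, dN, LfE, map_mul, map_add, map_pow, hρr, pow_one, hψ]
  have ha0 : mk AB ≠ 0 := by
    intro h3
    rw [h3, zero_pow (by norm_num)] at hmkA
    exact psi_ne D hEd hmkA.symm
  have hfinal : z ^ t.val = z ^ (sym ρ E).val := by
    have h3 := congrArg mk hφφ
    rw [D.fr, D.pow_Q hEd hmkA, map_mul, map_pow, D.ωz] at h3
    exact (mul_right_cancel₀ ha0 h3).symm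
  have ht' : t = sym ρ E := D.pow_inj hfinal
  rw [ht', hE]
  have g1 : ¬ ρ ∣ LfE p q 2 r * LfE p' q' 1 r := fun h3 =>
    (hq.dvd_or_dvd h3).elim e2 e1'
  have g2 : ¬ ρ ∣ LfE p q 1 r * LfE p' q' 2 r := fun h3 =>
    (hq.dvd_or_dvd h3).elim e1 e2'
  have g3 : ¬ ρ ∣ (LfE p q 1 r * LfE p' q' 2 r) ^ 2 := fun h3 =>
    g2 (hq.dvd_of_dvd_pow h3)
  rw [sym_mul hq D.h3 g1 g3, sym_mul hq D.h3 e2 e1', sym_pow hq D.h3 g2,
    sym_mul hq D.h3 e1 e2']
  unfold TAUP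
  have h2z : ((2 : ℕ) : ZMod 3) = -1 := by decide
  rw [h2z]
  ring

end Main

/-- The element `z` is not zero and has a small norm. -/
def Sm (Q : ℕ) (z : Eis) : Prop := z ≠ 0 ∧ N z < Q

theorem N_eq {Q : ℕ} {ρ : Eis} (h : (Q : Eis) = ρ * conj ρ) : N ρ = Q := by
  have h1 := mul_conj ρ
  rw [← h] at h1
  have h2 : ((Q : ℤ) : Eis) = ((ρ.norm : ℤ) : Eis) := by
    rw [Int.cast_natCast]
    exact h1
  have h3 : (Q : ℤ) = ρ.norm := by
    have h4 := congrArg Eis.re h2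
    simpa using h4
  have h4 := N_cast ρ
  rw [← h3] at h4
  exact_mod_cast h4

theorem Sm.not_dvd {Q : ℕ} {ρ z : Eis} (h : Sm Q z) (hρ : (Q : Eis) = ρ * conj ρ) : ¬ ρ ∣ z := by
  rintro ⟨d, rfl⟩
  have hd : d ≠ 0 := by
    rintro rfl
    exact h.1 (mul_zero _)
  have h1 := N_pos hd
  have h2 := h.2
  rw [N_mul, N_eq hρ] at h2
  nlinarith

end GFKU

open _root_.Pool.Agent.PTK.GFKU

theorem GFKU_thm (hSPP : SPP) (_hSCJ : SCJ) (hSPLT : SPLT) : Stmt_GFKU := by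
  classical
  intro k x u P Q P' Q' f L _ _ ζ ι hS hG
  have hgal := hG.gal
  obtain ⟨κ, hκ⟩ := GFK.exists_lift ι
  let B : Fin k → ℕ := fun j => N (u j) + N (P j ^ 3 + x * Q j ^ 3) +
    N (P' j ^ 3 + x * Q' j ^ 3)
  refine ⟨N x + ∑ j, B j, fun n hn hnN hn3 I hI hnI φ hφ ρ hρ hsx hsu => ?_⟩
  -- the elements with a small norm
  have hx0 : x ≠ 0 := by
    intro h0
    refine hS.ind 1 (fun _ => 0) (Or.inl (by norm_num)) ⟨0, ?_⟩
    rw [h0]
    simp
  have hu0 : ∀ j, u j ≠ 0 := by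
    intro j h0
    refine hS.ind 0 (Pi.single j 1) (Or.inr ⟨j, by simp⟩) ⟨0, ?_⟩
    have h1 : ∏ i, u i ^ (Pi.single j 1 : Fin k → ℕ) i = 0 := by
      refine Finset.prod_eq_zero (Finset.mem_univ j) ?_
      rw [Pi.single_eq_same, pow_one, h0]
    rw [h1]
    simp
  have hBj : ∀ j, B j < n := by
    intro j
    have h1 : B j ≤ ∑ i, B i :=
      Finset.single_le_sum (f := B) (fun _ _ => Nat.zero_le _) (Finset.mem_univ j)
    omega
  have sx : Sm n x := ⟨hx0, by omega⟩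
  have su : ∀ j, Sm n (u j) := fun j => ⟨hu0 j, by have := hBj j; simp only [B] at this; omega⟩
  have s1 : ∀ j, Sm n (P j ^ 3 + x * Q j ^ 3) := fun j =>
    ⟨(hS.sol j).n1, by have := hBj j; simp only [B] at this; omega⟩
  have s2 : ∀ j, Sm n (P' j ^ 3 + x * Q' j ^ 3) := by
    intro j
    refine ⟨?_, by have := hBj j; simp only [B] at this; omega⟩
    intro h0
    refine (hS.sol j).n1 ?_
    rw [(hS.sol j).eq, h0, mul_zero]
  -- the other prime
  obtain ⟨hna, ⟨ρ', hρ'⟩, hdv, -, hcj, -⟩ := hSPLT.2 n ρ hn hn3 hρ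
  have hρ'n : (n : Eis) = ρ'.1 * conj ρ'.1 := by
    rw [hρ', conj_conj, mul_comm]
    exact hρ
  have hconj : ∀ a : Eis, Sm n a → sym ρ.1 a = 0 → (∃ t : Eis, a * conj a = t ^ 3) →
      sym ρ'.1 a = 0 := by
    intro a ha hs ⟨t, ht⟩
    have hda := ha.not_dvd hρ
    have hda' := ha.not_dvd hρ'n
    have hdc : ¬ ρ.1 ∣ conj a := by
      intro h
      have h1 : conj ρ.1 ∣ a := by
        have h2 := map_dvd conj h
        rwa [conj_conj] at h2
      rw [hρ'] at hda'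
      exact hda' h1
    have h3 := (hSPP.2.2.2.1 ρ).1
    have h4 : ¬ ρ.1 ∣ t := by
      intro h
      have h5 : ρ.1 ∣ a * conj a := by
        rw [ht]
        exact Dvd.dvd.pow h (by norm_num)
      exact (ρ.2.1.dvd_or_dvd h5).elim hda hdc
    have h5 : sym ρ.1 (a * conj a) = 0 := by
      rw [ht, sym_pow ρ.2.1 h3 h4]
      have h6 : ((3 : ℕ) : ZMod 3) = 0 := by decide
      rw [h6, zero_mul]
    rw [sym_mul ρ.2.1 h3 hda hdc, hs, zero_add] at h5
    have h6 := hcj (conj a) hdc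
    rw [conj_conj, h5, neg_zero] at h6
    rw [hρ']
    exact h6
  have hsx' := hconj x sx hsx hS.cx
  have hsu' : ∀ j, sym ρ'.1 (u j) = 0 := fun j => hconj (u j) (su j) (hsu j) (hS.cb j)
  -- the statement for one prime ideal
  have main : ∀ (J : Ideal (𝓞 L)) (σ : L ≃ₐ[ℚ] L) (π : PP), J.IsPrime → (n : 𝓞 L) ∈ J →
      IsArithFrobAt ℤ σ J → (n : Eis) = π.1 * conj π.1 → κ π.1 ∈ J → sym π.1 x = 0 →
      (∀ j, sym π.1 (u j) = 0) →
      (σ (ι w) = ι w ∧ FxU x u ι σ) ∧ ∀ (j : Fin k) (r : Eis) (t : ZMod 3), π.1 ∣ r ^ 3 - x →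
        IsTU x P Q P' Q' ι σ j t → t = TAUP π.1 (P j) (Q j) (P' j) (Q' j) r := by
    intro J σ π hJ hnJ hσ hπ hπJ hsx hsu
    obtain ⟨F, _, mk, z, ψ, hψ, D⟩ := GFKU.exists_dat hSPLT hSPP hn hJ hnJ hn3 hσ κ hπ hπJ
    refine ⟨⟨fw D ι hκ, fun θ hθ => fix D hψ ι hκ (sx.not_dvd hπ) hsx hθ,
      fun j θ hθ => fix D hψ ι hκ ((su j).not_dvd hπ) (hsu j) hθ⟩, fun j r t hr ht => ?_⟩
    exact core D hψ ι hκ (sx.not_dvd hπ) hsx ((s1 j).not_dvd hπ) ((s2 j).not_dvd hπ) hr hG.rx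
      (fun θ hθ => hG.A j θ hθ) (fun θ A h1 h2 => ht θ A ⟨h1, h2⟩)
  -- the conjugate prime ideal
  have hcon : ∀ (c : L ≃ₐ[ℚ] L), c (ι w) = ι w ^ 2 → ∀ a : Eis, κ (conj a) ∈ I →
      κ a ∈ c • I := by
    intro c hc a ha
    have h1 : c • (κ (conj a)) = κ a := by
      apply RingOfIntegers.coe_injective
      change c ((κ (conj a) : 𝓞 L) : L) = ((κ a : 𝓞 L) : L)
      rw [hκ, hκ, GFK.hom_eq ι (conj a)]
      have h2 := GFK.hom_eq (ι.comp conj) (conj a)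
      rw [RingHom.comp_apply, RingHom.comp_apply, conj_conj, conj_w, map_pow] at h2
      rw [map_add, map_mul, map_intCast, map_intCast, hc]
      exact h2.symm
    rw [← h1]
    exact Ideal.smul_mem_pointwise_smul c _ I ha
  have hP : ∀ (c : L ≃ₐ[ℚ] L), (c • I).IsPrime ∧ (n : 𝓞 L) ∈ c • I := by
    intro c
    refine ⟨inferInstance, ?_⟩
    have h1 : c • (n : 𝓞 L) = (n : 𝓞 L) := by
      apply RingOfIntegers.coe_injective
      have h7 : ((n : 𝓞 L) : L) = (n : L) := map_natCast (algebraMap (𝓞 L) L) n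
      change c (((n : 𝓞 L)) : L) = (((n : 𝓞 L)) : L)
      rw [h7, map_natCast]
    rw [← h1]
    exact Ideal.smul_mem_pointwise_smul c _ I hnI
  have hmem : κ ρ.1 ∈ I ∨ κ ρ'.1 ∈ I := by
    refine hI.mem_or_mem ?_
    rw [← map_mul, hρ', ← hρ, map_natCast]
    exact hnI
  rcases hmem with hm | hm
  · obtain ⟨⟨a1, a2⟩, a3⟩ := main I φ ρ hI hnI hφ hρ hm hsx hsu
    refine ⟨a1, a2, fun c hc j r r' t t' hr hr' ht ht' => ?_⟩
    have hm' : κ ρ'.1 ∈ c • I := hcon c hc _ (by rw [hρ', conj_conj]; exact hm)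
    obtain ⟨-, b3⟩ := main (c • I) (c * φ * c⁻¹) ρ' (hP c).1 (hP c).2 (hφ.conj c) hρ'n hm'
      hsx' hsu'
    rw [← hρ'] at hr' ⊢
    rw [a3 j r t hr ht, b3 j r' t' hr' ht']
  · obtain ⟨⟨a1, a2⟩, a3⟩ := main I φ ρ' hI hnI hφ hρ'n hm hsx' hsu'
    refine ⟨a1, a2, fun c hc j r r' t t' hr hr' ht ht' => ?_⟩
    have hm' : κ ρ.1 ∈ c • I := hcon c hc _ (by rw [← hρ']; exact hm)
    obtain ⟨-, b3⟩ := main (c • I) (c * φ * c⁻¹) ρ (hP c).1 (hP c).2 (hφ.conj c) hρ hm'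
      hsx hsu
    rw [← hρ'] at hr' ⊢
    rw [a3 j r' t hr' ht, b3 j r t' hr ht', add_comm]

end Pool.Agent.PTK

end
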