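import Mathlib
import Pool.Agent.PTWX.C62
import Pool.Agent.PTWX.C67

/-! Parts: PTKX.AV1, PTKX.KUP, PTKX.AM1, PTKX.FL1, PTKX.AWF -/

namespace Pool.Agent.PTK.AV1
end Pool.Agent.PTK.AV1

namespace Pool.Agent.PTK.KUP
end Pool.Agent.PTK.KUP

namespace Pool.Agent.PTK.AM1
end Pool.Agent.PTK.AM1

namespace Pool.Agent.PTK.AWF
end Pool.Agent.PTK.AWF

section

/-! PTK_AV1 (helper13): the averages in a class, `q = 1 (mod 3)`. -/

set_option autoImplicit false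

open Finset

namespace Pool.Agent.PTK

open Pool.Agent.Lib_helper18 Pool.Agent.Lib_helper18.Eis Pool.Agent.Lib_helper84.Cub
open Pool.Agent.PT Pool.Agent.PTE Pool.Agent.PT3 Pool.Agent.PTL Pool.Agent.PTN

namespace AV1

/-! ### scalar inequalities -/

lemma nat1 (w : ℕ) : (w : ℝ) ≤ 1 / 2 + 1 / 6 * 3 ^ w := by
  induction w with
  | zero => norm_num
  | succ w ih =>
    rcases Nat.eq_zero_or_pos w with rfl | hw
    · norm_num
    · have h1 : (3 : ℝ) ≤ 3 ^ w := by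
        calc (3 : ℝ) = 3 ^ 1 := by norm_num
          _ ≤ 3 ^ w := pow_le_pow_right₀ (by norm_num) hw
      rw [pow_succ]; push_cast; linarith

lemma nat2 (w : ℕ) : (w : ℝ) ≤ 3 / 2 + 1 / 18 * 3 ^ w := by
  induction w with
  | zero => norm_num
  | succ w ih =>
    rcases Nat.lt_or_ge w 2 with hw | hw
    · interval_cases w <;> norm_num
    · have h1 : (9 : ℝ) ≤ 3 ^ w := by
        calc (9 : ℝ) = 3 ^ 2 := by norm_num
          _ ≤ 3 ^ w := pow_le_pow_right₀ (by norm_num) hw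
      rw [pow_succ]; push_cast; linarith

/-- the sum of two bounds -/
lemma up_add {S : ℕ → Set ℕ} {G G' : ℕ → ℕ → ℝ} {x y : ℝ} (h1 : UpS S G x) (h2 : UpS S G' y) :
    UpS S (fun E q => G E q + G' E q) (x + y) := by
  obtain ⟨K, hK⟩ := h1
  obtain ⟨K', hK'⟩ := h2
  refine ⟨K + K', fun σ g1 g2 T => ?_⟩
  have a := add_le_add (hK σ g1 g2 T) (hK' σ g1 g2 T)
  refine le_trans (le_of_eq ?_) (a.trans (le_of_eq (by ring)))
  rw [← Finset.sum_add_distrib]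
  refine Finset.sum_congr rfl fun E _ => ?_
  rw [← Finset.sum_add_distrib]
  refine Finset.sum_congr rfl fun q _ => ?_
  split_ifs
  · ring
  · ring

lemma dN_cases (h n : ℕ) (w0 : ZMod 3) : dN h n w0 = 0 ∨ dN h n w0 = 1 ∨ dN h n w0 = 2 := by
  unfold dN
  split_ifs
  · exact Or.inl rfl
  · exact Or.inr (Or.inr rfl)
  · exact Or.inr (Or.inl rfl)

lemma alg1 (a b D L d x y : ℝ) (hx : x ≠ 0) (hy : y ≠ 0) :
    ((x - 1) * (a * (2 / x / y) + b * ((3 + D) * (2 / x / y)) + L * (2 / x / y)) +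
      2 * ((a + 1 + d) * (1 / x / y) + b * ((3 + D) * (1 / x / y)))) / 2 =
      (a + b * (3 + D) + ((1 - 1 / x) * L + (d + 1) / x)) / y := by
  field_simp
  ring

lemma alg2 (D x y : ℝ) (hx : x ≠ 0) (hy : y ≠ 0) :
    ((x - 1) * ((3 + D) * (4 * (2 / x / y))) + (2 * (3 * x)) * ((3 + D) * (1 / x / y))) / 2 =
      (7 - 4 / x) * (3 + D) / y := by
  field_simp
  ring

/-- the number of the patterns -/
lemma card_pat (d : ℕ) : ((Fintype.card {δ : Fin d → ZMod 3 // δ ≠ 0} : ℕ) : ℝ) = 3 ^ d - 1 := by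
  have h1 : Fintype.card {δ : Fin d → ZMod 3 // δ ≠ 0} = 3 ^ d - 1 := by
    rw [Fintype.card_subtype_compl, Fintype.card_subtype_eq, Fintype.card_fun, ZMod.card,
      Fintype.card_fin]
  rw [h1, Nat.cast_sub (Nat.one_le_pow _ _ (by norm_num))]
  push_cast
  ring

open Classical in
/-- The general bound. `N` is the number of the classes of points, `κ δ` the coranks, `R` the rank. -/
theorem gen (hUPS : Stmt_UPS) {d : ℕ} (S : ℕ → Set ℕ)
    (TP : {δ : Fin d → ZMod 3 // δ ≠ 0} → ℕ → Set ℕ) (TZ : ℕ → Set ℕ)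
    (R N : ℕ → ℕ → ℕ) (κ : {δ : Fin d → ZMod 3 // δ ≠ 0} → ℕ → ℕ → ℕ) (M : ℕ)
    (hN : ∀ E q, (E = 1 ∨ E = 2) → q.Prime → M < q → q ∈ S E → ∃ w, N E q = 3 ^ w ∧
      ((q ∈ TZ E ∧ R E q ≤ w + 1 + d) ∨ ∃ δ δ' : {δ : Fin d → ZMod 3 // δ ≠ 0}, δ ≠ δ' ∧
        q ∈ TP δ E ∧ q ∈ TP δ' E ∧ R E q ≤ w + κ δ E q ∧ R E q ≤ w + κ δ' E q))
    (F : ℕ → ℝ) (hF : Monotone F) (φ : ℕ → ℕ → ℝ) (ψ : ℕ → ℝ) (hφ : ∀ a b, 0 ≤ φ a b)
    (hψ : ∀ a, 0 ≤ ψ a) (h1 : ∀ w a, F (w + a) ≤ φ (3 ^ w) a)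
    (h2 : ∀ w, 2 * F (w + 1 + d) ≤ ψ (3 ^ w)) {x y : ℝ}
    (hx : ∀ δ : {δ : Fin d → ZMod 3 // δ ≠ 0},
      UpS (TP δ) (fun E q => φ (N E q) (κ δ E q)) x)
    (hy : UpS TZ (fun E q => ψ (N E q)) y) :
    UpS S (fun E q => F (R E q)) (((3 ^ d - 1) * x + y) / 2) := by
  have key := hUPS.1 (Option {δ : Fin d → ZMod 3 // δ ≠ 0}) S (fun E q => F (R E q))
    (fun i => Option.rec TZ TP i)
    (fun i => Option.rec (fun E q => ψ (N E q)) (fun δ E q => φ (N E q) (κ δ E q)) i)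
    (fun i => Option.rec y (fun _ => x) i) 2 M (by norm_num) ?_ ?_ ?_
  · have e : ∑ i : Option {δ : Fin d → ZMod 3 // δ ≠ 0},
        (Option.rec y (fun _ => x) i : ℝ) = (3 ^ d - 1) * x + y := by
      rw [Fintype.sum_option]
      simp only [Finset.sum_const, Finset.card_univ, nsmul_eq_mul]
      rw [card_pat, add_comm]
    rw [e] at key
    exact key
  · intro i E q
    cases i with
    | none => exact hψ _
    | some δ => exact hφ _ _
  · intro E q hE hq hM hS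
    rw [Fintype.sum_option]
    obtain ⟨w, hw, h | ⟨δ, δ', hne, hP, hP', hR, hR'⟩⟩ := hN E q hE hq hM hS
    · have a1 : 2 * F (R E q) ≤ ψ (N E q) := by
        rw [hw]
        refine le_trans ?_ (h2 w)
        have := hF h.2
        linarith
      have a2 : 0 ≤ ∑ i : {δ : Fin d → ZMod 3 // δ ≠ 0},
          (if q ∈ TP i E then φ (N E q) (κ i E q) else 0) := by
        refine Finset.sum_nonneg fun i _ => ?_
        split_ifs
        · exact hφ _ _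
        · exact le_rfl
      have a3 : (if q ∈ TZ E then ψ (N E q) else 0) = ψ (N E q) := if_pos h.1
      show 2 * F (R E q) ≤ (if q ∈ TZ E then ψ (N E q) else 0) +
        ∑ i : {δ : Fin d → ZMod 3 // δ ≠ 0}, (if q ∈ TP i E then φ (N E q) (κ i E q) else 0)
      rw [a3]
      linarith
    · have a3 : 0 ≤ (if q ∈ TZ E then ψ (N E q) else 0) := by
        split_ifs
        · exact hψ _
        · exact le_rfl
      have a4 : ∑ i ∈ ({δ, δ'} : Finset {δ : Fin d → ZMod 3 // δ ≠ 0}),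
          (if q ∈ TP i E then φ (N E q) (κ i E q) else 0) ≤
          ∑ i : {δ : Fin d → ZMod 3 // δ ≠ 0},
          (if q ∈ TP i E then φ (N E q) (κ i E q) else 0) := by
        refine Finset.sum_le_sum_of_subset_of_nonneg (Finset.subset_univ _) fun i _ _ => ?_
        split_ifs
        · exact hφ _ _
        · exact le_rfl
      rw [Finset.sum_pair hne] at a4
      have a5 : (if q ∈ TP δ E then φ (N E q) (κ δ E q) else 0) =
          φ (N E q) (κ δ E q) := if_pos hP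
      have a6 : (if q ∈ TP δ' E then φ (N E q) (κ δ' E q) else 0) =
          φ (N E q) (κ δ' E q) := if_pos hP'
      rw [a5, a6] at a4
      have b1 := (hF hR).trans (h1 w (κ δ E q))
      have b2 := (hF hR').trans (h1 w (κ δ' E q))
      rw [← hw] at b1 b2
      show 2 * F (R E q) ≤ (if q ∈ TZ E then ψ (N E q) else 0) +
        ∑ i : {δ : Fin d → ZMod 3 // δ ≠ 0}, (if q ∈ TP i E then φ (N E q) (κ i E q) else 0)
      linarith
  · intro i
    cases i with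
    | none => exact hy
    | some δ => exact hx δ

end AV1

open _root_.Pool.Agent.PTK.AV1 in
theorem AV1_thm (hUPS : Stmt_UPS) (hUPA : Stmt_UPA) (hLAM : Stmt_LAM) (hNHPT : Stmt_NHPT)
    (hPLU : Stmt_PLU) (hNBU : Stmt_NBU) (hNBZ : Stmt_NBZ) (hWGU : Stmt_WGU) (hPAT : Stmt_PAT)
    (hAVG : Stmt_AVG) (hAVZ : Stmt_AVZ) (hSPLT : SPLT) : Stmt_AV1 := by
  intro h n m k π p e r f w0 c hN hh
  obtain ⟨d, v, hd, hHB⟩ := hNHPT h n m k π p e r f w0 c hN hh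
  have hHB' : HB h n π w0 c v := hHB
  have hn : 0 < n := by
    rw [hN.eq]
    refine Nat.mul_pos (Finset.prod_pos fun i _ => pow_pos (hN.pp i).pos _)
      (Finset.prod_pos fun j _ => pow_pos (hN.rp j).pos _)
  choose s τ b X Y P Q P' Q' hPl using fun δ : {δ : Fin d → ZMod 3 // δ ≠ 0} =>
    hPLU h n m k π p e r f w0 c d v hN hh hHB' δ.1 δ.2
  obtain ⟨M, hM⟩ := hPAT d v (fun i => (hHB.1 i).1.ne)
  set S : ℕ → Set ℕ := fun E => {q | q % 3 = 1 ∧ InCT E π w0 c q} with hS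
  set κ : {δ : Fin d → ZMod 3 // δ ≠ 0} → ℕ → ℕ → ℕ := fun δ E q =>
    kU h n (b δ) (X δ) (Y δ) (P δ) (Q δ) (P' δ) (Q' δ) E q with hκ
  set N : ℕ → ℕ → ℕ := fun E q => Nat.card (WqS h n π p e r w0 c (BB h n E q)) with hNdef
  set R : ℕ → ℕ → ℕ := fun E q => CubeRank.rr (BB h n E q) with hR
  set TP : {δ : Fin d → ZMod 3 // δ ≠ 0} → ℕ → Set ℕ := fun δ E =>
    {q | q % 3 = 1 ∧ InCT E π w0 c q ∧ q ∈ Pat v δ.1} with hTP
  set TZ : ℕ → Set ℕ := fun E => {q | q % 3 = 1 ∧ InCT E π w0 c q ∧ q ∈ ZP v} with hTZ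
  have main : ∀ E q, (E = 1 ∨ E = 2) → q.Prime → M + n + 3 < q → q ∈ S E → ∃ w, N E q = 3 ^ w ∧
      ((q ∈ TZ E ∧ R E q ≤ w + 1 + d) ∨ ∃ δ δ' : {δ : Fin d → ZMod 3 // δ ≠ 0}, δ ≠ δ' ∧
        q ∈ TP δ E ∧ q ∈ TP δ' E ∧ R E q ≤ w + κ δ E q ∧ R E q ≤ w + κ δ' E q) := by
    intro E q hE hq hMq hqS
    have hqn : ¬ q ∣ n := fun hdvd => by
      have := Nat.le_of_dvd hn hdvd
      omega
    obtain ⟨ρ, hρ⟩ := hSPLT.1 q hq hqS.1
    obtain ⟨w, hw⟩ := (hWGU h n m k π p e r f w0 c E q ρ hN hh hE hq (by omega) hqS.1 hqS.2 hqn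
      hρ).1
    refine ⟨w, hw, ?_⟩
    rcases hM q hq (by omega) hqS.1 with hZ | ⟨δ, δ', hδ, hδ', hne, hP, hP'⟩
    · left
      refine ⟨⟨hqS.1, hqS.2, hZ⟩, ?_⟩
      have g := hNBZ h n m k π p e r f w0 c E q hN hh hE hq (by omega) hqS.1 hqS.2 hqn
      rw [hw, Nat.log_pow (by norm_num), ← hd] at g
      exact CubeRank.rr_le g
    · right
      refine ⟨⟨δ, hδ⟩, ⟨δ', hδ'⟩, fun hh => hne (congrArg Subtype.val hh), ⟨hqS.1, hqS.2, hP⟩,
        ⟨hqS.1, hqS.2, hP'⟩, ?_, ?_⟩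
      · have g := hNBU h n m k π p e r f w0 c d v δ _ _ _ _ _ _ _ _ _ E q hN hh hδ (hPl ⟨δ, hδ⟩)
          hE hq (by omega) hqS.1 hqS.2 hqn hP
        rw [hw, Nat.log_pow (by norm_num)] at g
        exact CubeRank.rr_le g
      · have g := hNBU h n m k π p e r f w0 c d v δ' _ _ _ _ _ _ _ _ _ E q hN hh hδ'
          (hPl ⟨δ', hδ'⟩) hE hq (by omega) hqS.1 hqS.2 hqn hP'
        rw [hw, Nat.log_pow (by norm_num)] at g
        exact CubeRank.rr_le g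
  -- the averages for the patterns
  have hA := fun δ : {δ : Fin d → ZMod 3 // δ ≠ 0} =>
    hAVG h n m k π p e r f w0 c d v δ.1 _ _ _ _ _ _ _ _ _ hN hh δ.2 (hPl δ)
  have hZ := hAVZ h n m k π p e r f w0 c d v hN hh hHB' hd
  set D := dN h n w0 with hD
  have h3d : (0 : ℝ) < 3 ^ d := by positivity
  have h3m : (0 : ℝ) < 3 ^ (m + 1) := by positivity
  have h3D : (0 : ℝ) < 3 ^ D := by positivity
  constructor
  · -- the rank
    have rank : ∀ α β z : ℝ, 0 ≤ α → 0 ≤ β → (∀ w : ℕ, (w : ℝ) ≤ α + β * 3 ^ w) →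
        α + β * (3 + 3 ^ D) + 11 / 9 ≤ z → UpS S (fun E q => (R E q : ℝ)) (z / 3 ^ (m + 1)) := by
      intro α β z hα hβ hw hz
      have g := gen hUPS S TP TZ R N κ (M + n + 3) main (fun a => (a : ℝ)) Nat.mono_cast
        (fun a b => α * 1 + β * (a : ℝ) + (b : ℝ))
        (fun a => 2 * ((α + 1 + d) * 1 + β * (a : ℝ)))
        (fun a b => by positivity) (fun a => by positivity)
        (fun w a => by
          have := hw w
          push_cast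
          linarith)
        (fun w => by
          have := hw w
          push_cast
          linarith)
        (x := α * (2 / 3 ^ d / 3 ^ (m + 1)) + β * ((3 + 3 ^ D) * (2 / 3 ^ d / 3 ^ (m + 1))) +
          Esk (d - 1) (fun c => (c : ℝ)) * (2 / 3 ^ d / 3 ^ (m + 1)))
        (y := 2 * ((α + 1 + d) * (1 / 3 ^ d / 3 ^ (m + 1)) +
          β * ((3 + 3 ^ D) * (1 / 3 ^ d / 3 ^ (m + 1)))))
        (fun δ => by
          exact up_add (up_add (hUPS.2.2 _ _ _ α hα (hA δ).2.2.2)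
            (hUPS.2.2 _ _ _ β hβ (hA δ).2.1)) (hA δ).2.2.1)
        (by
          exact hUPS.2.2 _ _ _ 2 (by norm_num)
            (up_add (hUPS.2.2 _ _ _ (α + 1 + d) (by positivity) hZ.2)
              (hUPS.2.2 _ _ _ β hβ hZ.1)))
      refine hUPS.2.1 _ _ _ _ ?_ g
      have hL := hLAM.2 d
      have e1 := alg1 α β (3 ^ D) (Esk (d - 1) (fun c => (c : ℝ))) d (3 ^ d) (3 ^ (m + 1))
        h3d.ne' h3m.ne'
      rw [e1]
      refine div_le_div_of_nonneg_right ?_ h3m.le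
      linarith
    refine hUPA h n m k π p e r f w0 c 1 (fun A => (CubeRank.rr A : ℝ)) _ hN ?_
    show UpS S (fun E q => (R E q : ℝ)) (cQ D / 3 ^ (m + 1))
    rcases dN_cases h n w0 with hD0 | hD1 | hD2
    · rw [← hD] at hD0
      refine rank (1 / 2) (1 / 6) _ (by norm_num) (by norm_num) nat1 ?_
      rw [cQ, if_pos hD0, hD0]
      norm_num
    · rw [← hD] at hD1
      refine rank (1 / 2) (1 / 6) _ (by norm_num) (by norm_num) nat1 ?_
      rw [cQ, if_neg (by omega), if_pos hD1, hD1]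
      norm_num
    · rw [← hD] at hD2
      refine rank (3 / 2) (1 / 18) _ (by norm_num) (by norm_num) nat2 ?_
      rw [cQ, if_neg (by omega), if_neg (by omega), hD2]
      norm_num
  · -- the powers
    refine hUPA h n m k π p e r f w0 c 1 (fun A => 3 ^ CubeRank.rr A) _ hN ?_
    show UpS S (fun E q => (3 : ℝ) ^ (R E q)) (7 * (3 + 3 ^ D) / 3 ^ (m + 1))
    have g := gen hUPS S TP TZ R N κ (M + n + 3) main (fun a => (3 : ℝ) ^ a)
      (fun a b hab => pow_le_pow_right₀ (by norm_num) hab)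
      (fun a b => (a : ℝ) * 3 ^ b)
      (fun a => (2 * (3 * 3 ^ d)) * (a : ℝ))
      (fun a b => by positivity) (fun a => by positivity)
      (fun w a => by
        push_cast
        rw [pow_add])
      (fun w => by
        push_cast
        rw [pow_add, pow_add, pow_one]
        linarith)
      (x := (3 + 3 ^ D) * (4 * (2 / 3 ^ d / 3 ^ (m + 1))))
      (y := (2 * (3 * 3 ^ d)) * ((3 + 3 ^ D) * (1 / 3 ^ d / 3 ^ (m + 1))))
      (fun δ => by
        exact (hA δ).1)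
      (by
        exact hUPS.2.2 _ _ _ (2 * (3 * 3 ^ d)) (by positivity) hZ.1)
    refine hUPS.2.1 _ _ _ _ ?_ g
    have e1 := alg2 (3 ^ D) (3 ^ d) (3 ^ (m + 1)) h3d.ne' h3m.ne'
    rw [e1]
    refine div_le_div_of_nonneg_right ?_ h3m.le
    refine mul_le_mul_of_nonneg_right ?_ (by positivity)
    have : (0 : ℝ) ≤ 4 / 3 ^ d := by positivity
    linarith

end Pool.Agent.PTK

end

section

/-!
# PTK_KUP: from tails to averages
-/

set_option autoImplicit false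

namespace Pool.Agent.PTK

open Pool.Agent.PT Pool.Agent.PTL Pool.Agent.PTN

namespace KUP

theorem log_nn {σ : ℝ} (h1 : 1 < σ) (h2 : σ ≤ 2) : 0 ≤ Real.log (1 / (σ - 1)) := by
  apply Real.log_nonneg
  rw [le_div_iff₀ (by linarith)]
  linarith

theorem Esk_one (s : ℕ) : Esk s (fun _ => (1 : ℝ)) = 1 := by
  unfold Esk
  have hf : Finite {M : Matrix (Fin s) (Fin s) (ZMod 3) // M.transpose = -M} := inferInstance
  haveI := Fintype.ofFinite {M : Matrix (Fin s) (Fin s) (ZMod 3) // M.transpose = -M}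
  haveI : Nonempty {M : Matrix (Fin s) (Fin s) (ZMod 3) // M.transpose = -M} :=
    ⟨⟨0, by simp⟩⟩
  rw [finsum_eq_sum_of_fintype]
  simp only [Finset.sum_const, Finset.card_univ, Nat.card_eq_fintype_card, nsmul_eq_mul, mul_one]
  have : (Fintype.card {M : Matrix (Fin s) (Fin s) (ZMod 3) // M.transpose = -M} : ℝ) ≠ 0 := by
    exact_mod_cast Fintype.card_ne_zero
  exact div_self this

end KUP

open _root_.Pool.Agent.PTK.KUP in
theorem KUP_thm (hDOMG : Stmt_DOMG) (hLAW : Stmt_LAW) : Stmt_KUP := by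
  intro S R s M x hx hR hT
  have key : ∀ F : ℕ → ℝ, Monotone F → 0 ≤ F 0 →
      UpS S (fun E q => F (R E q)) (Esk s (fun c => F c) * x) := by
    intro F hF h0
    obtain ⟨K, hK⟩ := hDOMG S R (fun t => x * LI s t) M s F hR hT hF h0
    refine ⟨K, fun σ h1 h2 T => ?_⟩
    refine (hK σ h1 h2 T).trans (le_of_eq ?_)
    have e := hLAW.1 s 0 F
    simp only [Nat.sub_zero, zero_add] at e
    rw [← e]
    have : F 0 * (x * LI s 0) + ∑ t ∈ Finset.range s, (F (t + 1) - F t) * (x * LI s (t + 1)) =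
        (F 0 * LI s 0 + ∑ t ∈ Finset.range s, (F (t + 1) - F t) * LI s (t + 1)) * x := by
      rw [add_mul, Finset.sum_mul]
      congr 1
      · ring
      · exact Finset.sum_congr rfl fun t _ => by ring
    rw [this]
  refine ⟨?_, ?_, ?_⟩
  · obtain ⟨K, hK⟩ := key (fun c => (3 : ℝ) ^ c)
      (fun a b h => pow_le_pow_right₀ (by norm_num) h) (by norm_num)
    refine ⟨K, fun σ h1 h2 T => (hK σ h1 h2 T).trans ?_⟩
    have h4 := hLAW.2.2.2.2.2.2.1 s 0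
    simp only [zero_add, pow_zero, mul_one] at h4
    have := mul_le_mul_of_nonneg_right (mul_le_mul_of_nonneg_right h4 hx) (log_nn h1 h2)
    linarith
  · exact key (fun c => (c : ℝ)) (fun a b h => by show (a : ℝ) ≤ (b : ℝ); exact_mod_cast h) (by simp)
  · have := key (fun _ => (1 : ℝ)) monotone_const zero_le_one
    rwa [Esk_one, one_mul] at this

end Pool.Agent.PTK

end

section

/-!
# PTK_AM1: the averages in a class, `q = 1 (mod 3)`, all moments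
-/

set_option autoImplicit false

open Finset

namespace Pool.Agent.PTK

open Pool.Agent.Lib_helper18 Pool.Agent.Lib_helper18.Eis Pool.Agent.Lib_helper84.Cub
open Pool.Agent.PT Pool.Agent.PTE Pool.Agent.PT3 Pool.Agent.PTL Pool.Agent.PTN

namespace AM1

open AV1 in
open Classical in
/-- The general bound. `N` is the number of the classes of points, `κ δ` and `κ₀` the coranks, `R` the rank. -/
theorem gen (hUPS : Stmt_UPS) {d : ℕ} (S : ℕ → Set ℕ)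
    (TP : {δ : Fin d → ZMod 3 // δ ≠ 0} → ℕ → Set ℕ) (TZ : ℕ → Set ℕ)
    (R N : ℕ → ℕ → ℕ) (κ : {δ : Fin d → ZMod 3 // δ ≠ 0} → ℕ → ℕ → ℕ) (κ₀ : ℕ → ℕ → ℕ) (M : ℕ)
    (hN : ∀ E q, (E = 1 ∨ E = 2) → q.Prime → M < q → q ∈ S E → ∃ w, N E q = 3 ^ w ∧
      ((q ∈ TZ E ∧ R E q ≤ w + (κ₀ E q + 1)) ∨ ∃ δ δ' : {δ : Fin d → ZMod 3 // δ ≠ 0}, δ ≠ δ' ∧
        q ∈ TP δ E ∧ q ∈ TP δ' E ∧ R E q ≤ w + κ δ E q ∧ R E q ≤ w + κ δ' E q))
    (F : ℕ → ℝ) (hF : Monotone F) (φ : ℕ → ℕ → ℝ) (hφ : ∀ a b, 0 ≤ φ a b)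
    (h1 : ∀ w a, F (w + a) ≤ φ (3 ^ w) a) {x y : ℝ}
    (hx : ∀ δ : {δ : Fin d → ZMod 3 // δ ≠ 0},
      UpS (TP δ) (fun E q => φ (N E q) (κ δ E q)) x)
    (hy : UpS TZ (fun E q => φ (N E q) (κ₀ E q + 1)) y) :
    UpS S (fun E q => F (R E q)) (((3 ^ d - 1) * x + 2 * y) / 2) := by
  have hy2 := hUPS.2.2 _ _ _ 2 (by norm_num) hy
  have key := hUPS.1 (Option {δ : Fin d → ZMod 3 // δ ≠ 0}) S (fun E q => F (R E q))
    (fun i => Option.rec TZ TP i)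
    (fun i => Option.rec (fun E q => 2 * φ (N E q) (κ₀ E q + 1))
      (fun δ E q => φ (N E q) (κ δ E q)) i)
    (fun i => Option.rec (2 * y) (fun _ => x) i) 2 M (by norm_num) ?_ ?_ ?_
  · have e : ∑ i : Option {δ : Fin d → ZMod 3 // δ ≠ 0},
        (Option.rec (2 * y) (fun _ => x) i : ℝ) = (3 ^ d - 1) * x + 2 * y := by
      rw [Fintype.sum_option]
      simp only [Finset.sum_const, Finset.card_univ, nsmul_eq_mul]
      rw [card_pat, add_comm]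
    rw [e] at key
    exact key
  · intro i E q
    cases i with
    | none => exact mul_nonneg (by norm_num) (hφ _ _)
    | some δ => exact hφ _ _
  · intro E q hE hq hM hS
    rw [Fintype.sum_option]
    obtain ⟨w, hw, h | ⟨δ, δ', hne, hP, hP', hR, hR'⟩⟩ := hN E q hE hq hM hS
    · have a1 : F (R E q) ≤ φ (N E q) (κ₀ E q + 1) := by
        rw [hw]
        exact (hF h.2).trans (h1 w _)
      have a2 : 0 ≤ ∑ i : {δ : Fin d → ZMod 3 // δ ≠ 0},
          (if q ∈ TP i E then φ (N E q) (κ i E q) else 0) := by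
        refine Finset.sum_nonneg fun i _ => ?_
        split_ifs
        · exact hφ _ _
        · exact le_rfl
      have a3 : (if q ∈ TZ E then 2 * φ (N E q) (κ₀ E q + 1) else 0) =
        2 * φ (N E q) (κ₀ E q + 1) := if_pos h.1
      show 2 * F (R E q) ≤ (if q ∈ TZ E then 2 * φ (N E q) (κ₀ E q + 1) else 0) +
        ∑ i : {δ : Fin d → ZMod 3 // δ ≠ 0}, (if q ∈ TP i E then φ (N E q) (κ i E q) else 0)
      rw [a3]
      linarith
    · have a3 : 0 ≤ (if q ∈ TZ E then 2 * φ (N E q) (κ₀ E q + 1) else 0) := by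
        split_ifs
        · exact mul_nonneg (by norm_num) (hφ _ _)
        · exact le_rfl
      have a4 : ∑ i ∈ ({δ, δ'} : Finset {δ : Fin d → ZMod 3 // δ ≠ 0}),
          (if q ∈ TP i E then φ (N E q) (κ i E q) else 0) ≤
          ∑ i : {δ : Fin d → ZMod 3 // δ ≠ 0},
          (if q ∈ TP i E then φ (N E q) (κ i E q) else 0) := by
        refine Finset.sum_le_sum_of_subset_of_nonneg (Finset.subset_univ _) fun i _ _ => ?_
        split_ifs
        · exact hφ _ _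
        · exact le_rfl
      rw [Finset.sum_pair hne] at a4
      have a5 : (if q ∈ TP δ E then φ (N E q) (κ δ E q) else 0) =
          φ (N E q) (κ δ E q) := if_pos hP
      have a6 : (if q ∈ TP δ' E then φ (N E q) (κ δ' E q) else 0) =
          φ (N E q) (κ δ' E q) := if_pos hP'
      rw [a5, a6] at a4
      have b1 := (hF hR).trans (h1 w (κ δ E q))
      have b2 := (hF hR').trans (h1 w (κ δ' E q))
      rw [← hw] at b1 b2
      show 2 * F (R E q) ≤ (if q ∈ TZ E then 2 * φ (N E q) (κ₀ E q + 1) else 0) +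
        ∑ i : {δ : Fin d → ZMod 3 // δ ≠ 0}, (if q ∈ TP i E then φ (N E q) (κ i E q) else 0)
      linarith
  · intro i
    cases i with
    | none => exact hy2
    | some δ => exact hx δ

lemma alg1 (a b G e1 e2 x y : ℝ) (hx : x ≠ 0) (hy : y ≠ 0) :
    ((x - 1) * (a * (1 * (1 * (2 / x / y))) + b * (G * (1 * (2 / x / y))) +
        1 * (e1 * (2 / x / y))) +
      2 * (a * (1 * (1 * (1 / x / y))) + b * (G * (1 * (1 / x / y))) +
        1 * (e2 * (1 / x / y)))) / 2 =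
      (a + b * G + ((1 - 1 / x) * e1 + 1 / x * e2)) / y := by
  field_simp
  ring

lemma alg2 (g e1 e2 x y : ℝ) (hx : x ≠ 0) (hy : y ≠ 0) :
    ((x - 1) * (g * (e1 * (2 / x / y))) + 2 * (g * (e2 * (1 / x / y)))) / 2 =
      g * ((1 - 1 / x) * e1 + 1 / x * e2) / y := by
  field_simp

/-- the bound for the moments of the number of the classes -/
lemma gM_le (hGMB : Stmt_GMB) (k j D : ℕ) (hj : j ≤ D) (hD : D ≤ 2) : gM k j ≤ cM k D := by
  obtain ⟨g0, g1, g2, -, -, -, -, -⟩ := hGMB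
  unfold cM
  split_ifs with h
  · have h3 : j = 0 ∨ j = 1 := by omega
    rcases h3 with rfl | rfl
    · rw [g0]
    · rw [g1]
  · have h3 : j = 0 ∨ j = 1 ∨ j = 2 := by omega
    rcases h3 with rfl | rfl | rfl
    · rw [g0]
      exact g2 k
    · rw [g1]
      exact g2 k
    · exact le_rfl

end AM1

open _root_.Pool.Agent.PTK.AM1 AV1 in
theorem AM1_thm (hUPS : Stmt_UPS) (hUPA : Stmt_UPA) (hLAM : Stmt_LAM) (hNHPT : Stmt_NHPT)
    (hPLU : Stmt_PLU) (hPLE : Stmt_PLE) (hNBU : Stmt_NBU) (hNBX : Stmt_NBX) (hWGU : Stmt_WGU)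
    (hPAT : Stmt_PAT) (hZPV : Stmt_ZPV) (hJPG : Stmt_JPG) (hJPZ : Stmt_JPZ) (hVDIM : Stmt_VDIM)
    (hGMB : Stmt_GMB) (hESZ : Stmt_ESZ) (hESB : Stmt_ESB) (hSPLT : SPLT) : Stmt_AM1 := by
  intro h n m k π p e r f w0 c hN hh
  obtain ⟨d, v, hd, hHB⟩ := hNHPT h n m k π p e r f w0 c hN hh
  have hHB' : HB h n π w0 c v := hHB
  have hn : 0 < n := by
    rw [hN.eq]
    refine Nat.mul_pos (Finset.prod_pos fun i _ => pow_pos (hN.pp i).pos _)
      (Finset.prod_pos fun j _ => pow_pos (hN.rp j).pos _)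
  choose s τ b X Y P Q P' Q' hPl using fun δ : {δ : Fin d → ZMod 3 // δ ≠ 0} =>
    hPLU h n m k π p e r f w0 c d v hN hh hHB' δ.1 δ.2
  obtain ⟨s₀, τ₀, b₀, X₀, Y₀, P₀, Q₀, P₀', Q₀', hs₀, hPl₀⟩ := hPLE h n m k π p e r f w0 c hN hh
  have hsd : s₀ = d := hs₀.trans hd.symm
  subst hsd
  obtain ⟨M, hM⟩ := hPAT s₀ v (fun i => (hHB.1 i).1.ne)
  obtain ⟨M₁, hM₁⟩ := hZPV h n m k π p e r f w0 c s₀ τ₀ b₀ X₀ Y₀ P₀ Q₀ P₀' Q₀' s₀ v hN hh hPl₀ hHB'
  set S : ℕ → Set ℕ := fun E => {q | q % 3 = 1 ∧ InCT E π w0 c q} with hS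
  set κ : {δ : Fin s₀ → ZMod 3 // δ ≠ 0} → ℕ → ℕ → ℕ := fun δ E q =>
    kU h n (b δ) (X δ) (Y δ) (P δ) (Q δ) (P' δ) (Q' δ) E q with hκ
  set κ₀ : ℕ → ℕ → ℕ := fun E q => kS h n b₀ X₀ Y₀ P₀ Q₀ P₀' Q₀' E q with hκ₀
  set N : ℕ → ℕ → ℕ := fun E q => Nat.card (WqS h n π p e r w0 c (BB h n E q)) with hNdef
  set R : ℕ → ℕ → ℕ := fun E q => CubeRank.rr (BB h n E q) with hR
  set TP : {δ : Fin s₀ → ZMod 3 // δ ≠ 0} → ℕ → Set ℕ := fun δ E =>
    {q | q % 3 = 1 ∧ InCT E π w0 c q ∧ q ∈ Pat v δ.1} with hTP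
  set TZ : ℕ → Set ℕ := fun E => {q | q % 3 = 1 ∧ InCT E π w0 c q ∧ q ∈ ZP b₀} with hTZ
  have main : ∀ E q, (E = 1 ∨ E = 2) → q.Prime → M + M₁ + n + 3 < q → q ∈ S E →
      ∃ w, N E q = 3 ^ w ∧ ((q ∈ TZ E ∧ R E q ≤ w + (κ₀ E q + 1)) ∨
        ∃ δ δ' : {δ : Fin s₀ → ZMod 3 // δ ≠ 0}, δ ≠ δ' ∧
        q ∈ TP δ E ∧ q ∈ TP δ' E ∧ R E q ≤ w + κ δ E q ∧ R E q ≤ w + κ δ' E q) := by
    intro E q hE hq hMq hqS
    have hqn : ¬ q ∣ n := fun hdvd => by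
      have := Nat.le_of_dvd hn hdvd
      omega
    obtain ⟨ρ, hρ⟩ := hSPLT.1 q hq hqS.1
    obtain ⟨w, hw⟩ := (hWGU h n m k π p e r f w0 c E q ρ hN hh hE hq (by omega) hqS.1 hqS.2 hqn
      hρ).1
    refine ⟨w, hw, ?_⟩
    rcases hM q hq (by omega) hqS.1 with hZ | ⟨δ, δ', hδ, hδ', hne, hP, hP'⟩
    · left
      have hZ' : q ∈ ZP b₀ := hM₁ q hq (by omega) hZ
      refine ⟨⟨hqS.1, hqS.2, hZ'⟩, ?_⟩
      have g := hNBX h n m k π p e r f w0 c s₀ τ₀ b₀ X₀ Y₀ P₀ Q₀ P₀' Q₀' E q hN hh hPl₀ hE hq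
        (by omega) hqS.1 hqS.2 hqn hZ'
      rw [hw, Nat.log_pow (by norm_num)] at g
      have g2 := CubeRank.rr_le g
      show CubeRank.rr (BB h n E q) ≤ w + (kS h n b₀ X₀ Y₀ P₀ Q₀ P₀' Q₀' E q + 1)
      omega
    · right
      refine ⟨⟨δ, hδ⟩, ⟨δ', hδ'⟩, fun hh => hne (congrArg Subtype.val hh), ⟨hqS.1, hqS.2, hP⟩,
        ⟨hqS.1, hqS.2, hP'⟩, ?_, ?_⟩
      · have g := hNBU h n m k π p e r f w0 c s₀ v δ _ _ _ _ _ _ _ _ _ E q hN hh hδ (hPl ⟨δ, hδ⟩)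
          hE hq (by omega) hqS.1 hqS.2 hqn hP
        rw [hw, Nat.log_pow (by norm_num)] at g
        exact CubeRank.rr_le g
      · have g := hNBU h n m k π p e r f w0 c s₀ v δ' _ _ _ _ _ _ _ _ _ E q hN hh hδ'
          (hPl ⟨δ', hδ'⟩) hE hq (by omega) hqS.1 hqS.2 hqn hP'
        rw [hw, Nat.log_pow (by norm_num)] at g
        exact CubeRank.rr_le g
  -- the averages for the patterns
  have hA := fun δ : {δ : Fin s₀ → ZMod 3 // δ ≠ 0} =>
    hJPG h n m k π p e r f w0 c s₀ v δ.1 _ _ _ _ _ _ _ _ _ hN hh δ.2 (hPl δ)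
  have hZ := hJPZ h n m k π p e r f w0 c s₀ τ₀ b₀ X₀ Y₀ P₀ Q₀ P₀' Q₀' hN hh hPl₀
  set D := dN h n w0 with hD
  set j := vN h n π p e r w0 c - v0N h n π p e r w0 c with hj
  have hjD : j ≤ D := by
    have := hVDIM h n m k π p e r w0 c hh
    omega
  have hDc := dN_cases h n w0
  rw [← hD] at hDc
  have hD2 : D ≤ 2 := by omega
  have h3d : (0 : ℝ) < 3 ^ s₀ := by positivity
  have h3m : (0 : ℝ) < 3 ^ (m + 1) := by positivity
  have hmo : Monotone fun _ : ℕ => (1 : ℝ) := fun _ _ _ => le_rfl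
  have hmid : Monotone fun c : ℕ => (c : ℝ) := Nat.mono_cast
  have hmid1 : Monotone fun c : ℕ => ((c + 1 : ℕ) : ℝ) := fun a b hab => by
    show ((a + 1 : ℕ) : ℝ) ≤ ((b + 1 : ℕ) : ℝ)
    exact_mod_cast Nat.succ_le_succ hab
  constructor
  · -- the rank
    have rank : ∀ α β z : ℝ, 0 ≤ α → 0 ≤ β → (∀ w : ℕ, (w : ℝ) ≤ α + β * 3 ^ w) →
        α + β * gM 1 j + 13 / 12 ≤ z → UpS S (fun E q => (R E q : ℝ)) (z / 3 ^ (m + 1)) := by
      intro α β z hα hβ hw hz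
      have g := gen hUPS S TP TZ R N κ κ₀ (M + M₁ + n + 3) main (fun a => (a : ℝ)) Nat.mono_cast
        (fun a b => α * ((a : ℝ) ^ 0 * 1) + β * ((a : ℝ) ^ 1 * 1) + 1 * ((a : ℝ) ^ 0 * (b : ℝ)))
        (fun a b => by positivity)
        (fun w a => by
          have := hw w
          push_cast
          linarith)
        (x := α * (1 * (1 * (2 / 3 ^ s₀ / 3 ^ (m + 1)))) +
          β * (gM 1 j * (1 * (2 / 3 ^ s₀ / 3 ^ (m + 1)))) +
          1 * (Esk (s₀ - 1) (fun c => (c : ℝ)) * (2 / 3 ^ s₀ / 3 ^ (m + 1))))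
        (y := α * (1 * (1 * (1 / 3 ^ s₀ / 3 ^ (m + 1)))) +
          β * (gM 1 j * (1 * (1 / 3 ^ s₀ / 3 ^ (m + 1)))) +
          1 * (Esk s₀ (fun c => ((c + 1 : ℕ) : ℝ)) * (1 / 3 ^ s₀ / 3 ^ (m + 1))))
        (fun δ => by
          have a1 := hA δ 0 _ hmo zero_le_one
          have a2 := hA δ 1 _ hmo zero_le_one
          have a3 := hA δ 0 _ hmid (by simp)
          rw [KUP.Esk_one] at a1 a2
          refine up_add (up_add (hUPS.2.2 _ _ _ α hα a1) (hUPS.2.2 _ _ _ β hβ a2)) ?_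
          exact a3.elim fun K hK => ⟨K, fun σ g1 g2 T => by
            refine le_trans (le_of_eq ?_) (hK σ g1 g2 T |>.trans (le_of_eq ?_))
            · refine Finset.sum_congr rfl fun E _ => Finset.sum_congr rfl fun q _ => ?_
              simp only [one_mul]
              rfl
            · simp only [gM, one_mul]⟩)
        (by
          have a1 := hZ 0 _ hmo zero_le_one
          have a2 := hZ 1 _ hmo zero_le_one
          have a3 := hZ 0 _ hmid1 (by simp)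
          rw [KUP.Esk_one] at a1 a2
          refine up_add (up_add (hUPS.2.2 _ _ _ α hα a1) (hUPS.2.2 _ _ _ β hβ a2)) ?_
          exact a3.elim fun K hK => ⟨K, fun σ g1 g2 T => by
            refine le_trans (le_of_eq ?_) (hK σ g1 g2 T |>.trans (le_of_eq ?_))
            · refine Finset.sum_congr rfl fun E _ => Finset.sum_congr rfl fun q _ => ?_
              simp only [one_mul]
              rfl
            · simp only [gM, one_mul]⟩)
      refine hUPS.2.1 _ _ _ _ ?_ g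
      have hL := hLAM.1 (s₀ + 1)
      have e1 := AM1.alg1 α β (gM 1 j) (Esk (s₀ - 1) (fun c => (c : ℝ)))
        (Esk s₀ (fun c => ((c + 1 : ℕ) : ℝ))) (3 ^ s₀) (3 ^ (m + 1)) h3d.ne' h3m.ne'
      rw [e1]
      refine div_le_div_of_nonneg_right ?_ h3m.le
      have e2 := hESZ s₀ (fun c => (c : ℝ))
      rw [e2]
      linarith
    refine hUPA h n m k π p e r f w0 c 1 (fun A => (CubeRank.rr A : ℝ)) _ hN ?_
    show UpS S (fun E q => (R E q : ℝ)) (aW D / 3 ^ (m + 1))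
    have hg1 := gM_le hGMB 1 j D hjD hD2
    obtain ⟨-, -, -, -, hg12, -, hM1, -⟩ := hGMB
    by_cases hD1 : D ≤ 1
    · refine rank (1 / 2) (1 / 6) _ (by norm_num) (by norm_num) nat1 ?_
      rw [cM, if_pos hD1, hM1] at hg1
      rw [aW, if_pos hD1]
      linarith
    · refine rank (3 / 2) (1 / 18) _ (by norm_num) (by norm_num) nat2 ?_
      rw [cM, if_neg hD1, hg12] at hg1
      rw [aW, if_neg hD1]
      linarith
  · -- the powers
    intro k₀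
    refine hUPA h n m k π p e r f w0 c 1 (fun A => 3 ^ (k₀ * CubeRank.rr A)) _ hN ?_
    show UpS S (fun E q => (3 : ℝ) ^ (k₀ * R E q)) (cM k₀ D * MoB k₀ / 3 ^ (m + 1))
    have hmp : Monotone fun c : ℕ => (3 : ℝ) ^ (k₀ * c) := fun a b hab =>
      pow_le_pow_right₀ (by norm_num) (Nat.mul_le_mul_left _ hab)
    have hmp1 : Monotone fun c : ℕ => (3 : ℝ) ^ (k₀ * (c + 1)) := fun a b hab =>
      pow_le_pow_right₀ (by norm_num) (Nat.mul_le_mul_left _ (Nat.succ_le_succ hab))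
    have hp0 : (0 : ℝ) ≤ 3 ^ (k₀ * 0) := by positivity
    have hp1 : (0 : ℝ) ≤ 3 ^ (k₀ * (0 + 1)) := by positivity
    have a1 := fun δ => hA δ k₀ (fun c => (3 : ℝ) ^ (k₀ * c)) hmp hp0
    have a2 := hZ k₀ (fun c => (3 : ℝ) ^ (k₀ * (c + 1))) hmp1 hp1
    have g := gen hUPS S TP TZ R N κ κ₀ (M + M₁ + n + 3) main (fun a => (3 : ℝ) ^ (k₀ * a))
      hmp (fun a b => (a : ℝ) ^ k₀ * 3 ^ (k₀ * b))
      (fun a b => by positivity)
      (fun w a => by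
        push_cast
        rw [mul_add, pow_add, ← pow_mul, mul_comm w k₀])
      (x := gM k₀ j * (Esk (s₀ - 1) (fun c => (3 : ℝ) ^ (k₀ * c)) * (2 / 3 ^ s₀ / 3 ^ (m + 1))))
      (y := gM k₀ j * (Esk s₀ (fun c => (3 : ℝ) ^ (k₀ * (c + 1))) * (1 / 3 ^ s₀ / 3 ^ (m + 1))))
      a1 a2
    refine hUPS.2.1 _ _ _ _ ?_ g
    have e1 := AM1.alg2 (gM k₀ j) (Esk (s₀ - 1) (fun c => (3 : ℝ) ^ (k₀ * c)))
      (Esk s₀ (fun c => (3 : ℝ) ^ (k₀ * (c + 1)))) (3 ^ s₀) (3 ^ (m + 1)) h3d.ne' h3m.ne'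
    rw [e1]
    refine div_le_div_of_nonneg_right ?_ h3m.le
    have e2 := hESZ s₀ (fun c => (3 : ℝ) ^ (k₀ * c))
    rw [e2]
    have e3 := hESB (s₀ + 1) k₀
    have hg1 := gM_le hGMB k₀ j D hjD hD2
    have hMB : 1 ≤ MoB k₀ := hGMB.2.2.2.2.2.1 k₀
    have hcM : 0 ≤ cM k₀ D := by
      unfold cM
      split_ifs
      · linarith
      · exact le_trans (by linarith) (hGMB.2.2.1 k₀)
    have hE0 : 0 ≤ Esk (s₀ + 1) (fun c => (3 : ℝ) ^ (k₀ * c)) := by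
      unfold Esk
      exact div_nonneg (finsum_nonneg fun M => by positivity) (Nat.cast_nonneg _)
    exact mul_le_mul hg1 e3 hE0 hcM

end Pool.Agent.PTK

end

section

/-! PTK_FL1 (helper25): the law in a class, `q = 1 (mod 3)`. -/

set_option autoImplicit false

open Finset

namespace Pool.Agent.PTK

open Pool.Agent.Lib_helper18 Pool.Agent.Lib_helper18.Eis Pool.Agent.Lib_helper84.Cub
open Pool.Agent.PT Pool.Agent.PTE Pool.Agent.PT3 Pool.Agent.PTL Pool.Agent.PTN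

namespace FL1

lemma Esk_lin (s : ℕ) (A B : ℕ → ℝ) (a b : ℝ) :
    Esk s (fun x => a * A x + b * B x) = a * Esk s A + b * Esk s B := by
  classical
  unfold Esk
  have : Fintype {M : Matrix (Fin s) (Fin s) (ZMod 3) // M.transpose = -M} :=
    Fintype.ofFinite _
  rw [finsum_eq_sum_of_fintype, finsum_eq_sum_of_fintype, finsum_eq_sum_of_fintype,
    Finset.sum_add_distrib, ← Finset.mul_sum, ← Finset.mul_sum]
  ring

lemma alg (e1 e2 x y : ℝ) (hx : x ≠ 0) (hy : y ≠ 0) :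
    ((x - 1) * (e1 * (2 / x / y)) + 2 * (e2 * (1 / x / y))) / 2 =
      ((1 - 1 / x) * e1 + 1 / x * e2) / y := by
  field_simp

end FL1

/-- PTK_FL1: the law in a class, `q = 1 (mod 3)`. -/
theorem FL1_thm (hUPS : Stmt_UPS) (hNHPT : Stmt_NHPT) (hPLU : Stmt_PLU) (hPLE : Stmt_PLE)
    (hNBU : Stmt_NBU) (hNBX : Stmt_NBX) (hPAT : Stmt_PAT) (hZPV : Stmt_ZPV) (hESZ : Stmt_ESZ)
    (hZBA : Stmt_ZBA) (hMSF : Stmt_MSF) (hCNM : Stmt_CNM) (hZKQ : Stmt_ZKQ)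
    (hJDG : Stmt_JDG) (hJDZ : Stmt_JDZ) : Stmt_FL1 := by
  intro h n m k π p e r f w0 c hN hh F hF hF0
  obtain ⟨d, v, hd, hHB⟩ := hNHPT h n m k π p e r f w0 c hN hh
  have hHB' : HB h n π w0 c v := hHB
  have hn : 0 < n := by
    rw [hN.eq]
    refine Nat.mul_pos (Finset.prod_pos fun i _ => pow_pos (hN.pp i).pos _)
      (Finset.prod_pos fun j _ => pow_pos (hN.rp j).pos _)
  choose s τ b X Y P Q P' Q' hPl using fun δ : {δ : Fin d → ZMod 3 // δ ≠ 0} =>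
    hPLU h n m k π p e r f w0 c d v hN hh hHB' δ.1 δ.2
  obtain ⟨s₀, τ₀, b₀, X₀, Y₀, P₀, Q₀, P₀', Q₀', hs₀, hPl₀⟩ := hPLE h n m k π p e r f w0 c hN hh
  have hsd : s₀ = d := hs₀.trans hd.symm
  subst hsd
  obtain ⟨M, hM⟩ := hPAT s₀ v (fun i => (hHB.1 i).1.ne)
  obtain ⟨M₁, hM₁⟩ := hZPV h n m k π p e r f w0 c s₀ τ₀ b₀ X₀ Y₀ P₀ Q₀ P₀' Q₀' s₀ v hN hh hPl₀ hHB'
  obtain ⟨l, y, hy⟩ := hZBA h n m k π p e r w0 c hh
  obtain ⟨U, V, U', V', hU⟩ := hMSF h n m k π p e r f w0 c hN hh l y hy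
  obtain ⟨NN, α, β, hαβ⟩ := hCNM.1 l
  obtain ⟨N₀, hN₀⟩ := hZKQ h n m k π p e r f w0 c hN hh l y U V U' V' hy hU
  have hMn : MnS h n π p e r w0 c y U V U' V' α β := ⟨hy, hU, hαβ⟩
  set S : ℕ → Set ℕ := fun E => {q | q % 3 = 1 ∧ InCT E π w0 c q} with hS
  set κ : {δ : Fin s₀ → ZMod 3 // δ ≠ 0} → ℕ → ℕ → ℕ := fun δ E q =>
    kU h n (b δ) (X δ) (Y δ) (P δ) (Q δ) (P' δ) (Q' δ) E q with hκ
  set κ₀ : ℕ → ℕ → ℕ := fun E q => kS h n b₀ X₀ Y₀ P₀ Q₀ P₀' Q₀' E q with hκ₀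
  set ky : ℕ → ℕ → ℕ := fun E q => kY h n π e y U V U' V' E q with hky
  set R : ℕ → ℕ → ℕ := fun E q => CubeRank.rr (BB h n E q) with hR
  set TP : {δ : Fin s₀ → ZMod 3 // δ ≠ 0} → ℕ → Set ℕ := fun δ E =>
    {q | q % 3 = 1 ∧ InCT E π w0 c q ∧ q ∈ Pat v δ.1} with hTP
  set TZ : ℕ → Set ℕ := fun E => {q | q % 3 = 1 ∧ InCT E π w0 c q ∧ q ∈ ZP b₀} with hTZ
  have main : ∀ E q, (E = 1 ∨ E = 2) → q.Prime → M + M₁ + n + 3 + N₀ < q → q ∈ S E →
      ∃ w, (fun E q => 3 ^ ky E q) E q = 3 ^ w ∧ ((q ∈ TZ E ∧ R E q ≤ w + (κ₀ E q + 1)) ∨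
        ∃ δ δ' : {δ : Fin s₀ → ZMod 3 // δ ≠ 0}, δ ≠ δ' ∧
        q ∈ TP δ E ∧ q ∈ TP δ' E ∧ R E q ≤ w + κ δ E q ∧ R E q ≤ w + κ δ' E q) := by
    intro E q hE hq hMq hqS
    have hqn : ¬ q ∣ n := fun hdvd => by
      have := Nat.le_of_dvd hn hdvd
      omega
    have hw : Nat.log 3 (Nat.card (WqS h n π p e r w0 c (BB h n E q))) ≤ ky E q :=
      (hN₀ E q hE hq (by omega) (Or.inl hqS.1) hqS.2).2
    refine ⟨ky E q, rfl, ?_⟩
    rcases hM q hq (by omega) hqS.1 with hZ | ⟨δ, δ', hδ, hδ', hne, hP, hP'⟩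
    · left
      have hZ' : q ∈ ZP b₀ := hM₁ q hq (by omega) hZ
      refine ⟨⟨hqS.1, hqS.2, hZ'⟩, ?_⟩
      have g := hNBX h n m k π p e r f w0 c s₀ τ₀ b₀ X₀ Y₀ P₀ Q₀ P₀' Q₀' E q hN hh hPl₀ hE hq
        (by omega) hqS.1 hqS.2 hqn hZ'
      have g2 := CubeRank.rr_le g
      show CubeRank.rr (BB h n E q) ≤ ky E q + (kS h n b₀ X₀ Y₀ P₀ Q₀ P₀' Q₀' E q + 1)
      omega
    · right
      refine ⟨⟨δ, hδ⟩, ⟨δ', hδ'⟩, fun hh => hne (congrArg Subtype.val hh), ⟨hqS.1, hqS.2, hP⟩,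
        ⟨hqS.1, hqS.2, hP'⟩, ?_, ?_⟩
      · have g := hNBU h n m k π p e r f w0 c s₀ v δ _ _ _ _ _ _ _ _ _ E q hN hh hδ (hPl ⟨δ, hδ⟩)
          hE hq (by omega) hqS.1 hqS.2 hqn hP
        exact (CubeRank.rr_le g).trans (Nat.add_le_add_right hw _)
      · have g := hNBU h n m k π p e r f w0 c s₀ v δ' _ _ _ _ _ _ _ _ _ E q hN hh hδ'
          (hPl ⟨δ', hδ'⟩) hE hq (by omega) hqS.1 hqS.2 hqn hP'
        exact (CubeRank.rr_le g).trans (Nat.add_le_add_right hw _)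
  have hmo : ∀ i a : ℕ, Monotone fun b : ℕ => F (a + b + i) :=
    fun i a x x' hx => hF (by omega)
  have hnn : ∀ a, 0 ≤ F a := fun a => hF0.trans (hF (Nat.zero_le _))
  have hA := fun δ : {δ : Fin s₀ → ZMod 3 // δ ≠ 0} =>
    hJDG h n m k π p e r f w0 c s₀ v δ.1 _ _ _ _ _ _ _ _ _ hN hh δ.2 (hPl δ) l NN y U V U' V'
      α β hMn (fun a b => F (a + b)) (hmo 0) (fun a => hnn _)
  have hZ := hJDZ h n m k π p e r f w0 c s₀ τ₀ b₀ X₀ Y₀ P₀ Q₀ P₀' Q₀' hN hh hPl₀ l NN y U V U' V'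
      α β hMn (fun a b => F (a + b + 1)) (hmo 1) (fun a => hnn _)
  have h3d : (3 : ℝ) ^ s₀ ≠ 0 := by positivity
  have h3m : (3 : ℝ) ^ (m + 1) ≠ 0 := by positivity
  have hlog : ∀ a : ℕ, Nat.log 3 (3 ^ a) = a := fun a => Nat.log_pow (by norm_num) a
  have g := AM1.gen hUPS S TP TZ R (fun E q => 3 ^ ky E q) κ κ₀ (M + M₁ + n + 3 + N₀) main F hF
    (fun a b => F (Nat.log 3 a + b)) (fun a b => hnn _)
    (fun w a => by
      show F (w + a) ≤ F (Nat.log 3 (3 ^ w) + a)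
      rw [hlog])
    (x := Esk l (fun a => Esk (s₀ - 1) (fun b => F (a + b))) * (2 / 3 ^ s₀ / 3 ^ (m + 1)))
    (y := Esk l (fun a => Esk s₀ (fun b => F (a + b + 1))) * (1 / 3 ^ s₀ / 3 ^ (m + 1)))
    (fun δ => by
      have a1 := hA δ
      simp only [hlog]
      exact a1)
    (by
      simp only [hlog]
      exact hZ)
  rw [FL1.alg _ _ _ _ h3d h3m] at g
  have e1 : (1 - 1 / (3 : ℝ) ^ s₀) * Esk l (fun a => Esk (s₀ - 1) (fun b => F (a + b))) +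
      1 / 3 ^ s₀ * Esk l (fun a => Esk s₀ (fun b => F (a + b + 1))) =
      EsD (vN h n π p e r w0 c) (sN h n π p e r w0 c + 1) F := by
    rw [← FL1.Esk_lin, ← hy.card, ← hd]
    unfold EsD
    congr 1
    funext a
    exact hESZ s₀ (fun b => F (a + b))
  rw [e1] at g
  exact g

end Pool.Agent.PTK

end

section

/-!
# PTK_AWF: the averages over all `A`
-/

set_option autoImplicit false

open Finset

namespace Pool.Agent.PTK

open Pool.Agent.Lib_helper18 Pool.Agent.Lib_helper18.Eis Pool.Agent.Lib_helper84.Cub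
open Pool.Agent.PT Pool.Agent.PTE Pool.Agent.PT3 Pool.Agent.PTL Pool.Agent.PTN

namespace AWF

/-- there are `3 ^ (m + 1)` classes -/
theorem const_sum (m : ℕ) (x : ℝ) :
    ∑ _y : ZMod 3 × (Fin m → ZMod 3), x / 3 ^ (m + 1) = x := by
  rw [Finset.sum_const, Finset.card_univ, Fintype.card_prod, Fintype.card_fun, Fintype.card_fin,
    ZMod.card, nsmul_eq_mul]
  push_cast
  have h : (3 : ℝ) ^ (m + 1) ≠ 0 := by positivity
  rw [← pow_succ']
  field_simp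

theorem div_mono (m : ℕ) {x y : ℝ} (h : x ≤ y) : x / 3 ^ (m + 1) ≤ y / 3 ^ (m + 1) :=
  div_le_div_of_nonneg_right h (by positivity)

theorem above_tot (hSUMA : Stmt_SUMA) (n : ℤ) (a m : ℕ) (π : Fin m → PP) (F : ℤ → ℝ)
    (x : ZMod 3 × (Fin m → ZMod 3) → ℝ) (M : ℝ)
    (h : ∀ y, AboveA n a (Kl π y.1 y.2) F (x y / 3 ^ (m + 1))) (hx : ∀ y, x y ≤ M) :
    AboveA n a (fun _ => True) F M := by
  obtain ⟨s1, -, s3, -⟩ := hSUMA n a m π F
  have h1 := s1 (fun _ => M / 3 ^ (m + 1)) fun y => s3 _ _ _ (div_mono m (hx y)) (h y)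
  rwa [const_sum] at h1

theorem below_tot (hSUMA : Stmt_SUMA) (n : ℤ) (a m : ℕ) (π : Fin m → PP) (F : ℤ → ℝ)
    (hF : ∀ A, 0 ≤ F A) (x g : ZMod 3 × (Fin m → ZMod 3) → ℝ)
    (h : ∀ y, BelowA n a (Kl π y.1 y.2) F (x y / 3 ^ (m + 1))) (hx : ∀ y, g y ≤ x y) :
    BelowA n a (fun _ => True) F (∑ y, g y / 3 ^ (m + 1)) := by
  obtain ⟨-, s2, -, s4⟩ := hSUMA n a m π F
  exact s2 (fun y => g y / 3 ^ (m + 1)) hF fun y => s4 _ _ _ (div_mono m (hx y)) (h y)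

theorem tf_nonneg (P : Prop) : 0 ≤ tf P := by
  unfold tf
  split_ifs <;> norm_num

/-- two lower bounds, one for each residue class -/
theorem pair (hSUMA : Stmt_SUMA) (n : ℤ) (m : ℕ) (π : Fin m → PP) (F : ℤ → ℝ)
    (hF : ∀ A, 0 ≤ F A) (x₁ x₂ : ZMod 3 × (Fin m → ZMod 3) → ℝ)
    (N : ZMod 3 × (Fin m → ZMod 3) → ℕ) (u w : ℝ) (hu : 0 ≤ u) (hw : 0 ≤ w)
    (h₁ : ∀ y, BelowA n 1 (Kl π y.1 y.2) F (x₁ y / 3 ^ (m + 1)))
    (h₂ : ∀ y, BelowA n 2 (Kl π y.1 y.2) F (x₂ y / 3 ^ (m + 1)))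
    (a₁ : ∀ y, Odd (N y + 1) → u ≤ x₁ y) (b₁ : ∀ y, Even (N y + 1) → w ≤ x₁ y)
    (a₂ : ∀ y, Odd (N y) → u ≤ x₂ y) (b₂ : ∀ y, Even (N y) → w ≤ x₂ y) :
    ∃ z₁ z₂ : ℝ, 0 ≤ z₁ ∧ 0 ≤ z₂ ∧ z₁ + z₂ = u + w ∧
      BelowA n 1 (fun _ => True) F z₁ ∧ BelowA n 2 (fun _ => True) F z₂ := by
  classical
  refine ⟨∑ y, (if Odd (N y + 1) then u else w) / 3 ^ (m + 1),
    ∑ y, (if Odd (N y) then u else w) / 3 ^ (m + 1), ?_, ?_, ?_, ?_, ?_⟩
  · exact Finset.sum_nonneg fun y _ => by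
      split_ifs <;> positivity
  · exact Finset.sum_nonneg fun y _ => by
      split_ifs <;> positivity
  · rw [← Finset.sum_add_distrib]
    refine Eq.trans (Finset.sum_congr rfl fun y _ => ?_) (const_sum m (u + w))
    rcases Nat.even_or_odd (N y) with h | h
    · rw [if_pos h.add_one, if_neg (Nat.not_odd_iff_even.2 h), ← add_div]
    · rw [if_neg (Nat.not_odd_iff_even.2 h.add_one), if_pos h, ← add_div, add_comm]
  · refine below_tot hSUMA n 1 m π F hF x₁ _ h₁ fun y => ?_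
    split_ifs with h
    · exact a₁ y h
    · exact b₁ y (Nat.not_odd_iff_even.1 h)
  · refine below_tot hSUMA n 2 m π F hF x₂ _ h₂ fun y => ?_
    split_ifs with h
    · exact a₂ y h
    · exact b₂ y (Nat.not_odd_iff_even.1 h)

end AWF

open _root_.Pool.Agent.PTK.AWF in
theorem AWF_thm (hSUMA : Stmt_SUMA) (hFB : Stmt_FB) (hEKN : Stmt_EKN) : Stmt_AWF := by
  intro h n m k π p e r f hN hh
  obtain ⟨e1, e2, e3, e4, e5, -, -, -, -, e10⟩ := hEKN
  have hR : ∀ t : ℕ, ∀ A : ℤ, A ≠ 0 → CubeRank.GenBy A (CubeRank.rr A) →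
      CubeRank.rr A < t + 1 → CubeRank.rr A ≤ t := fun t A _ _ h1 => Nat.lt_succ_iff.1 h1
  have hB : ∀ a : ℕ, (a = 1 ∨ a = 2) → ∀ t : ℕ, ∀ y : ZMod 3 × (Fin m → ZMod 3),
      BelowA ((3 ^ h * n : ℕ) : ℤ) a (Kl π y.1 y.2) (fun A => tf (CubeRank.rr A ≤ t))
        (EsD (vN h n π p e r y.1 y.2) (sN h n π p e r y.1 y.2 + if a = 1 then 1 else 0)
          (fun x => if x < t + 1 then 1 else 0) / 3 ^ (m + 1)) := fun a ha t y =>
    (hFB h n m k π p e r f y.1 y.2 hN hh a ha).2 (t + 1) _ (hR t)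
  refine ⟨?_, ?_, ?_⟩
  · intro a ha
    refine ⟨?_, ?_, ?_⟩
    · exact above_tot hSUMA _ a m π _ _ _
        (fun y => (hFB h n m k π p e r f y.1 y.2 hN hh a ha).1 (fun c => (c : ℝ))
          Nat.mono_cast (by simp)) fun y => e1 _ _
    · intro k₀
      refine above_tot hSUMA _ a m π _ _ _
        (fun y => (hFB h n m k π p e r f y.1 y.2 hN hh a ha).1 (fun c => (3 : ℝ) ^ (k₀ * c))
          (fun b c hbc => ?_) (by positivity)) fun y => e2 _ _ k₀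
      exact pow_le_pow_right₀ (by norm_num) (Nat.mul_le_mul_left _ hbc)
    · have h1 := below_tot hSUMA _ a m π _ (fun A => tf_nonneg _) _ (fun _ => 115 / 192)
        (hB a ha 2) fun y => e4 _ _
      rwa [const_sum] at h1
  · obtain ⟨z₁, z₂, hz₁, hz₂, hz, hb₁, hb₂⟩ := pair hSUMA ((3 ^ h * n : ℕ) : ℤ) m π
      (fun A => tf (CubeRank.rr A ≤ 1)) (fun A => tf_nonneg _) _ _
      (fun y => vN h n π p e r y.1 y.2 + sN h n π p e r y.1 y.2) (115 / 192) 0 (by norm_num)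
      le_rfl (hB 1 (Or.inl rfl) 1) (hB 2 (Or.inr rfl) 1)
      (fun y hy => e3 _ _ (by
        rw [if_pos rfl, ← add_assoc]
        exact hy)) (fun y _ => e10 _ _ _)
      (fun y hy => e3 _ _ (by
        rw [if_neg (by norm_num), add_zero]
        exact hy)) (fun y _ => e10 _ _ _)
    exact ⟨z₁, z₂, hz₁, hz₂, by rw [hz, add_zero], hb₁, hb₂⟩
  · obtain ⟨z₁, z₂, hz₁, hz₂, hz, hb₁, hb₂⟩ := pair hSUMA ((3 ^ h * n : ℕ) : ℤ) m π
      (fun A => tf (CubeRank.rr A ≤ 2)) (fun A => tf_nonneg _) _ _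
      (fun y => vN h n π p e r y.1 y.2 + sN h n π p e r y.1 y.2) (115 / 192) (17 / 20)
      (by norm_num) (by norm_num) (hB 1 (Or.inl rfl) 2) (hB 2 (Or.inr rfl) 2)
      (fun y _ => e4 _ _) (fun y hy => e5 _ _ (by
        rw [if_pos rfl, ← add_assoc]
        exact hy))
      (fun y _ => e4 _ _) (fun y hy => e5 _ _ (by
        rw [if_neg (by norm_num), add_zero]
        exact hy))
    exact ⟨z₁, z₂, hz₁, hz₂, hz, hb₁, hb₂⟩

end Pool.Agent.PTK

end
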