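import Mathlib
import Pool.Agent.PTWX.C59
import Pool.Agent.PTWX.C67

/-! Parts: PTKX.DE2 -/

namespace Pool.Agent.PTK.DE2
end Pool.Agent.PTK.DE2

section

/-!
# PTK_DE2: the pairing of the minus part as a function of the prime `Q = 2 (mod 3)` and of `E`
-/

set_option autoImplicit false

open NumberField IsDedekindDomain Finset
open scoped nonZeroDivisors Pointwise

namespace Pool.Agent.PTK

open Pool.Agent.Lib_helper18 Pool.Agent.Lib_helper18.Eis Pool.Agent.Lib_helper84.Cub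
open Pool.Agent.PT Pool.Agent.PTE Pool.Agent.PT3 Pool.Agent.PTL Pool.Agent.PTN

namespace DE2

open DPA

lemma w_ne : w ≠ 0 := by
  intro h
  have := congrArg Eis.im h
  simp at this

lemma sy_zero (hSTM : STM) (hSPP : SPP) {B x : Eis} (hB : B ≠ 0) (hx : x ≠ 0)
    (h : ∀ π : PP, tm π.1 x B = 0) (v : Pl) : sy v B x = 0 := by
  have h1 : ∀ π : PP, tm π.1 B x = 0 := by
    intro π
    rw [(hSTM π.1 π.2.1 (hSPP.2.2.2.1 π).1).skew x B hx hB, h π, neg_zero]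
  rcases v with _ | π
  · show sl B x = 0
    unfold sl
    rw [finsum_eq_zero_of_forall_eq_zero h1, neg_zero]
  · exact h1 π

lemma N_ne {N : ℕ} {b x p q p' q' : Eis} (HE : HypE N b x p q p' q') : (N : Eis) ≠ 0 := by
  have h2 : ((N : ℤ) : Eis) ≠ 0 := DCONST.cast_ne (by have := HE.N0; omega)
  rwa [Int.cast_natCast] at h2

lemma Q_ne {f : ℕ} (hf : 1 < f) {Q : ℕ} (hQ : Q.Coprime f) : (Q : Eis) ≠ 0 := by
  have h1 : ((Q : ℤ) : Eis) ≠ 0 := ne_cop hf (Nat.isCoprime_iff_coprime.2 hQ)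
  rwa [Int.cast_natCast] at h1

lemma B_ne {N : ℕ} {b x p q p' q' : Eis} (HE : HypE N b x p q p' q') {f : ℕ} (hf : 1 < f)
    (E : ℕ) {Q : ℕ} (hQ : Q.Coprime f) : (N : Eis) * (Q : Eis) ^ E ≠ 0 :=
  mul_ne_zero (N_ne HE) (pow_ne_zero _ (Q_ne hf hQ))

/-- the place above `3` -/
lemma lamE (hSTM : STM) (hSPP : SPP) (hSLC : SLC) (hAVE : Stmt_AVE) {N : ℕ}
    {b x p q p' q' : Eis} (HE : HypE N b x p q p' q') {f : ℕ} (hf : 1 < f) (h9 : 9 ∣ f) :
    ∃ (C : ZMod 3) (Φ : (ZMod f)ˣ →* Multiplicative (ZMod 3)),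
      ∀ (E Q : ℕ) (hQ : Q.Coprime f),
        (∀ σ : PP, tm σ.1 b ((N : Eis) * (Q : Eis) ^ E) = 0) →
        (∀ σ : PP, tm σ.1 x ((N : Eis) * (Q : Eis) ^ E) = 0) →
        LTE ((N : Eis) * (Q : Eis) ^ E) b x p q p' q' =
          C + E * (Φ (ZMod.unitOfCoprime Q hQ)).toAdd := by
  have hs : LSym lam sl 4 := hSLC
  have hlamf : lam ^ 4 ∣ (f : Eis) := by
    have h1 : ((9 : ℤ) : Eis) ∣ ((f : ℤ) : Eis) :=
      intCast_dvd_intCast.2 (by exact_mod_cast h9)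
    rw [Int.cast_natCast] at h1
    refine Dvd.dvd.trans ⟨w ^ 4, ?_⟩ h1
    have h2 : ((9 : ℤ) : Eis) = (3 : Eis) ^ 2 := by norm_num
    rw [h2, three_eq]
    ring
  have hN := N_ne HE
  have hw0 := w_ne
  by_cases hb : LCE lam b
  · obtain ⟨C, Φ, H⟩ := place_LC (n := (N : Eis)) hs hN HE.sol.n1 (SolE_n1' HE.sol) hb hf hlamf
    refine ⟨C + sl w x, Φ, ?_⟩
    intro E Q hQ _ hx
    have hB := B_ne HE hf E hQ
    unfold LTE
    rw [if_pos hb]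
    obtain ⟨N0, hN0⟩ := (hAVE none ((N : Eis) * (Q : Eis) ^ E) b x p q p' q' hB HE.hb HE.hx
      HE.sol.toSolWE (sy_zero hSTM hSPP hB HE.hx hx none) hb).1
    rw [H E Q hQ _ N0 hN0]
    ring
  · by_cases hx : LCE lam x
    · have hfl := SolE_flip HE.sol
      obtain ⟨r₀, hr, hr', H⟩ := exists_root (p := p) (q := -p') (p' := -q) (q' := q') hs hfl.n1
        (SolE_n1' (b := b) (x := x) (p := p) (q := -p') (p' := -q) (q' := q') hfl) hx
      have hg1 := HE.sol.g1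
      have hg2 := HE.sol.g2
      obtain ⟨C, Φ, hΦ⟩ := exists_char hs.prime hs.pos hf hlamf
        (fun B => sl B (GfE p q p' q' 1) - sl B (GfE p q p' q' 2) - sl B w -
          ASE sl B p (-p') (-q) q' r₀)
        (by
          intro A B hA hB
          show _ = (_ : ZMod 3)
          rw [hs.mul A B _ hA hB hg1, hs.mul A B _ hA hB hg2, hs.mul A B _ hA hB hw0,
            ASE_mul hs hr hr' hA hB]
          ring)
        (by
          intro A B hA hB hd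
          show _ = (_ : ZMod 3)
          rw [hs.cont A B _ hA hg1 hd, hs.cont A B _ hA hg2 hd, hs.cont A B _ hA hw0 hd,
            ASE_cont hs hr hr' hA hd]) hN
      refine ⟨C - sl (x * b) w - sl w b, Φ, ?_⟩
      intro E Q hQ hb' _
      have hB := B_ne HE hf E hQ
      unfold LTE
      rw [if_neg hb, if_pos hx]
      obtain ⟨N0, hN0⟩ := (hAVE none ((N : Eis) * (Q : Eis) ^ E) x b p (-p') (-q) q' hB HE.hx
        HE.hb hfl.toSolWE (sy_zero hSTM hSPP hB HE.hb hb' none) hx).1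
      have h1 := H _ _ N0 hB hN0
      have h2 := hΦ E Q hQ
      have h3 : sl w ((N : Eis) * (Q : Eis) ^ E * x * b) =
          - (sl ((N : Eis) * (Q : Eis) ^ E) w + sl (x * b) w) := by
        rw [mul_assoc, hs.skew _ w (mul_ne_zero hB (mul_ne_zero HE.hx HE.hb)) hw0,
          hs.mul _ _ w hB (mul_ne_zero HE.hx HE.hb) hw0]
      unfold UVE
      rw [h3]
      have h5 : AVE none ((N : Eis) * (Q : Eis) ^ E) x p (-p') (-q) q' =
        ASE sl ((N : Eis) * (Q : Eis) ^ E) p (-p') (-q) q' r₀ := h1.symm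
      rw [h5]
      linear_combination h2
    · refine ⟨lfE b x, 1, ?_⟩
      intro E Q hQ _ _
      unfold LTE
      rw [if_neg hb, if_neg hx]
      simp

/-- the tame places dividing `f` -/
lemma tameE (hSTM : STM) (hSPP : SPP) (hAVE : Stmt_AVE) {N : ℕ} {b x p q p' q' : Eis}
    (HE : HypE N b x p q p' q') (π : PP) {f : ℕ} (hf : 1 < f) (hπf : π.1 ∣ (f : Eis)) :
    ∃ (C : ZMod 3) (Φ : (ZMod f)ˣ →* Multiplicative (ZMod 3)),
      ∀ (E Q : ℕ) (hQ : Q.Coprime f),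
        (∀ σ : PP, tm σ.1 x ((N : Eis) * (Q : Eis) ^ E) = 0) →
        TTE π ((N : Eis) * (Q : Eis) ^ E) b x p q p' q' =
          C + E * (Φ (ZMod.unitOfCoprime Q hQ)).toAdd := by
  have hs : LSym π.1 (tm π.1) 1 := hSTM π.1 π.2.1 (hSPP.2.2.2.1 π).1
  have hN := N_ne HE
  by_cases hb : LCE π.1 b
  · obtain ⟨C, Φ, H⟩ := place_LC (n := (N : Eis)) hs hN HE.sol.n1 (SolE_n1' HE.sol) hb hf
      (by rwa [pow_one])
    refine ⟨C + tm π.1 w x, Φ, ?_⟩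
    intro E Q hQ hx
    have hB := B_ne HE hf E hQ
    unfold TTE
    rw [if_pos hb]
    obtain ⟨N0, hN0⟩ := (hAVE (some π) ((N : Eis) * (Q : Eis) ^ E) b x p q p' q' hB HE.hb HE.hx
      HE.sol.toSolWE (sy_zero hSTM hSPP hB HE.hx hx (some π)) hb).1
    rw [H E Q hQ _ N0 hN0]
    ring
  · classical
    refine ⟨if 3 ∣ V π.1 b + V π.1 (N : Eis) ∧ ¬ 3 ∣ V π.1 b then - tm π.1 w x else 0, 1, ?_⟩
    intro E Q hQ _
    have hQ0 := Q_ne hf hQ
    have h1 := V_cop π.2.1 hπf (Nat.isCoprime_iff_coprime.2 hQ)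
    rw [Int.cast_natCast] at h1
    have hV : V π.1 ((N : Eis) * (Q : Eis) ^ E) = V π.1 (N : Eis) := by
      rw [V_mul π.2.1 hN (pow_ne_zero _ hQ0), V_pow π.2.1 hQ0, h1, mul_zero, add_zero]
    unfold TTE
    rw [if_neg hb, hV]
    simp

/-- the local terms vanish outside -/
lemma outE (hSTM : STM) (hSPP : SPP) (hAVE : Stmt_AVE) {N : ℕ} {b x p q p' q' : Eis}
    (HE : HypE N b x p q p' q') (π : PP) {B : Eis} (hB : B ≠ 0) (hπB : ¬ π.1 ∣ B)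
    (hπN : ¬ π.1 ∣ (N : Eis)) (h1 : ¬ π.1 ∣ p ^ 3 + b * q ^ 3)
    (h2 : ¬ π.1 ∣ p' ^ 3 + b * q' ^ 3) (hx : ∀ σ : PP, tm σ.1 x B = 0) :
    TTE π B b x p q p' q' = 0 := by
  obtain ⟨hπb, hπx⟩ := HE.unr π hπN
  unfold TTE
  by_cases hb : LCE π.1 b
  · rw [if_pos hb, DCONST.tm_zero (not_dvd_w π.2.1) hπx, add_zero]
    refine (hAVE (some π) B b x p q p' q' hB HE.hb HE.hx HE.sol.toSolWE
      (sy_zero hSTM hSPP hB HE.hx hx (some π)) hb).2 0 1 ?_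
    intro r hr
    have hr1 : π.1 ∣ r ^ 3 - b := by
      have h3 : π.1 ^ 1 ∣ r ^ 3 - b := hr
      rwa [pow_one] at h3
    have k1 := LfE_ndvd (p := p) (q := q) hr1 h1
    have k2 := LfE_ndvd (p := p') (q := q') hr1 h2
    show ASE (tm π.1) B p q p' q' r = 0
    unfold ASE
    rw [DCONST.tm_zero hπB (k1 2), DCONST.tm_zero hπB (k2 1), DCONST.tm_zero hπB (k1 1),
      DCONST.tm_zero hπB (k2 2)]
    simp
  · rw [if_neg hb, if_neg]
    rintro ⟨-, h3⟩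
    apply h3
    rw [V_eq_zero hπb]
    exact dvd_zero 3

/-- the local term at `Q` -/
lemma atQ (hSTM : STM) (hSPP : SPP) (hAVE : Stmt_AVE) (hLCI : Stmt_LCI) {N : ℕ}
    {b x p q p' q' : Eis} (HE : HypE N b x p q p' q') (π : PP) {E Q : ℕ}
    (hE : E = 1 ∨ E = 2) (hπQ : π.1 = (Q : Eis)) (hπN : ¬ π.1 ∣ (N : Eis))
    (hM1 : ¬ π.1 ∣ p ^ 3 + b * q ^ 3) (hM2 : ¬ π.1 ∣ p' ^ 3 + b * q' ^ 3)
    (hsb : ∀ σ : PP, tm σ.1 b ((N : Eis) * (Q : Eis) ^ E) = 0)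
    (hsx : ∀ σ : PP, tm σ.1 x ((N : Eis) * (Q : Eis) ^ E) = 0) {ξ : Eis}
    (hξ : (Q : Eis) ∣ ξ ^ 3 - b) :
    TTE π ((N : Eis) * (Q : Eis) ^ E) b x p q p' q' = - (E * TAUE Q p q p' q' ξ) := by
  have h3 : ¬ π.1 ∣ 3 := (hSPP.2.2.2.1 π).1
  have hs : LSym π.1 (tm π.1) 1 := hSTM π.1 π.2.1 h3
  obtain ⟨hπb, hπx⟩ := HE.unr π hπN
  have hVx0 : V π.1 x = 0 := V_eq_zero hπx
  have hVb0 : V π.1 b = 0 := V_eq_zero hπb
  have hQe : (Q : Eis) = π.1 := hπQ.symm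
  have hB : (N : Eis) * (Q : Eis) ^ E ≠ 0 := by
    rw [hQe]
    exact mul_ne_zero (N_ne HE) (pow_ne_zero _ π.2.1.ne_zero)
  have hVB : V π.1 ((N : Eis) * (Q : Eis) ^ E) = E := by
    rw [← hπQ, V_mul_not_dvd π.2.1 hπN (pow_ne_zero _ π.2.1.ne_zero), V_pow π.2.1 π.2.1.ne_zero,
      V_self, mul_one]
  have hE0 : (E : ZMod 3) ≠ 0 := by
    rcases hE with h | h
    · rw [h]; decide
    · rw [h]; decide
  have hcub : ∀ a : Eis, V π.1 a = 0 → tm π.1 a ((N : Eis) * (Q : Eis) ^ E) = 0 →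
      ch π.1 a = 0 := by
    intro a ha h
    unfold tm at h
    rw [hVB, ha] at h
    simp only [Nat.cast_zero, zero_mul, sub_zero] at h
    exact (mul_eq_zero.1 h).resolve_left hE0
  have hcx := hcub x hVx0 (hsx π)
  have hcb := hcub b hVb0 (hsb π)
  have hLb : LCE π.1 b := (hLCI.1 π b HE.hb).2 ⟨by rw [hVb0]; exact dvd_zero 3, hcb⟩
  rw [hQe] at hξ
  -- independence of the cube root
  have hcongr : ∀ r r' : Eis, π.1 ∣ r - r' → TAUE Q p q p' q' r = TAUE Q p q p' q' r' := by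
    intro r r' hr
    have h6 : ∀ (g h : Eis) (i : ℕ), sym (Q : Eis) (LfE g h i r) = sym (Q : Eis) (LfE g h i r') := by
      intro g h i
      apply sym_congr
      have h7 : LfE g h i r - LfE g h i r' = (h * w ^ i) * (r - r') := by
        unfold LfE
        ring
      rw [h7, hQe]
      exact dvd_mul_of_dvd_right hr _
    unfold TAUE
    rw [h6, h6, h6, h6]
  have hshift : ∀ r : Eis, π.1 ∣ r ^ 3 - b → TAUE Q p q p' q' (w * r) = TAUE Q p q p' q' r := by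
    intro r hr
    have m1 := LfE_ndvd (p := p) (q := q) hr hM1
    have m2 := LfE_ndvd (p := p') (q := q') hr hM2
    have h8 : sym π.1 (LfE p q 0 r) + sym π.1 (LfE p q 1 r) + sym π.1 (LfE p q 2 r) =
        sym π.1 x + (sym π.1 (LfE p' q' 0 r) + sym π.1 (LfE p' q' 1 r) +
          sym π.1 (LfE p' q' 2 r)) := by
      rw [← sym_mul π.2.1 h3 (m1 0) (m1 1), ← sym_mul π.2.1 h3 (π.2.1.not_dvd_mul (m1 0) (m1 1)) (m1 2),
        ← sym_mul π.2.1 h3 (m2 0) (m2 1), ← sym_mul π.2.1 h3 (π.2.1.not_dvd_mul (m2 0) (m2 1)) (m2 2),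
        ← sym_mul π.2.1 h3 hπx (π.2.1.not_dvd_mul (π.2.1.not_dvd_mul (m2 0) (m2 1)) (m2 2))]
      apply sym_congr
      rw [DP4.LfE_prod, DP4.LfE_prod]
      have h9 : p ^ 3 + q ^ 3 * r ^ 3 - x * (p' ^ 3 + q' ^ 3 * r ^ 3) =
          (q ^ 3 - x * q' ^ 3) * (r ^ 3 - b) := by
        linear_combination HE.sol.eq
      rw [h9]
      exact dvd_mul_of_dvd_right hr _
    have h10 : sym π.1 x = 0 := by
      have h11 := hcx
      unfold ch up at h11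
      rwa [hVx0, pow_zero, EuclideanDomain.div_one] at h11
    unfold TAUE
    rw [DP4.LfE_shift, DP4.LfE_shift, DP4.LfE_shift, DP4.LfE_shift, hQe]
    have e1 : LfE p q (2 + 1) r = LfE p q 0 r := DP4.LfE_per p q r 0
    have e2 : LfE p' q' (2 + 1) r = LfE p' q' 0 r := DP4.LfE_per p' q' r 0
    rw [e1, e2]
    rw [h10] at h8
    have h12 : (3 : ZMod 3) = 0 := rfl
    linear_combination h8 - (sym π.1 (LfE p q 2 r) - sym π.1 (LfE p' q' 2 r)) * h12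
  have hw3 : ∀ r : Eis, π.1 ∣ r ^ 3 - b → π.1 ∣ (w * r) ^ 3 - b := by
    intro r hr
    rwa [mul_pow, w_cube, one_mul]
  unfold TTE
  rw [if_pos hLb, DCONST.tm_zero (not_dvd_w π.2.1) hπx, add_zero]
  refine (hAVE (some π) ((N : Eis) * (Q : Eis) ^ E) b x p q p' q' hB HE.hb HE.hx HE.sol.toSolWE
    (sy_zero hSTM hSPP hB HE.hx hsx (some π)) hLb).2 _ 1 ?_
  intro ξ' hξ'
  have h4 : π.1 ∣ ξ' ^ 3 - b := by
    have h5 : π.1 ^ 1 ∣ ξ' ^ 3 - b := hξ'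
    rwa [pow_one] at h5
  have k1 := LfE_ndvd (p := p) (q := q) h4 hM1
  have k2 := LfE_ndvd (p := p') (q := q') h4 hM2
  have hdiv : π.1 ∣ (ξ' - ξ) * (ξ' - w * ξ) * (ξ' - w * (w * ξ)) := by
    have h13 : (ξ' - ξ) * (ξ' - w * ξ) * (ξ' - w * (w * ξ)) = (ξ' ^ 3 - b) - (ξ ^ 3 - b) := by
      have h1 : w ^ 3 = 1 := w_cube
      have h2 : w ^ 2 + w + 1 = 0 := w_rel
      linear_combination (- ξ ^ 3) * h1 + (- ξ' ^ 2 * ξ + ξ' * ξ ^ 2 * w) * h2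
    rw [h13]
    exact dvd_sub h4 hξ
  have hT : TAUE Q p q p' q' ξ' = TAUE Q p q p' q' ξ := by
    rcases π.2.1.dvd_or_dvd hdiv with h | h
    · rcases π.2.1.dvd_or_dvd h with h | h
      · exact hcongr _ _ h
      · rw [hcongr _ _ h, hshift ξ hξ]
    · rw [hcongr _ _ h, hshift (w * ξ) (hw3 ξ hξ), hshift ξ hξ]
  show ASE (tm π.1) ((N : Eis) * (Q : Eis) ^ E) p q p' q' ξ' = _
  rw [← hT]
  unfold ASE TAUE
  rw [hQe, DP4.tm_inert π.2.1 hπN (k1 2), DP4.tm_inert π.2.1 hπN (k2 1),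
    DP4.tm_inert π.2.1 hπN (k1 1), DP4.tm_inert π.2.1 hπN (k2 2)]
  ring

/-- the modulus -/
lemma exists_mod {N : ℕ} {b x p q p' q' : Eis} (HE : HypE N b x p q p' q') :
    ∃ M : ℕ, 0 < M ∧ (N : Eis) ∣ (M : Eis) ∧ p ^ 3 + b * q ^ 3 ∣ (M : Eis) ∧
      p' ^ 3 + b * q' ^ 3 ∣ (M : Eis) := by
  have hn1 := HE.sol.n1
  have hn2 := SolE_n1' HE.sol
  obtain ⟨m1, hm1⟩ : ∃ m : ℕ, m = (p ^ 3 + b * q ^ 3).norm.natAbs := ⟨_, rfl⟩
  obtain ⟨m2, hm2⟩ : ∃ m : ℕ, m = (p' ^ 3 + b * q' ^ 3).norm.natAbs := ⟨_, rfl⟩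
  have hm1d : p ^ 3 + b * q ^ 3 ∣ (m1 : Eis) := by rw [hm1]; exact DCK.dvd_natAbs_norm _
  have hm2d : p' ^ 3 + b * q' ^ 3 ∣ (m2 : Eis) := by rw [hm2]; exact DCK.dvd_natAbs_norm _
  have hm1p : 0 < m1 := by
    rw [hm1]
    exact Int.natAbs_pos.2 (norm_pos hn1).ne'
  have hm2p : 0 < m2 := by
    rw [hm2]
    exact Int.natAbs_pos.2 (norm_pos hn2).ne'
  have hMe : ((N * m1 * m2 : ℕ) : Eis) = (N : Eis) * (m1 : Eis) * (m2 : Eis) := by
    push_cast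
    ring
  refine ⟨N * m1 * m2, Nat.mul_pos (Nat.mul_pos HE.N0 hm1p) hm2p, ?_, ?_, ?_⟩
  · rw [hMe, mul_assoc]
    exact Dvd.intro _ rfl
  · rw [hMe]
    exact dvd_mul_of_dvd_left (dvd_mul_of_dvd_right hm1d _) _
  · rw [hMe]
    exact dvd_mul_of_dvd_right hm2d _

end DE2

open DPA _root_.Pool.Agent.PTK.DE2 in
/-- PTK_DE2. -/
theorem DE2_thm (hAVE : Stmt_AVE) (hLCI : Stmt_LCI) (hSTM : STM) (hSPP : SPP) (hSLC : SLC) :
    Stmt_DE2 := by
  intro N b x p q p' q' HE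
  obtain ⟨M, hMp, dN, d1, d2⟩ := exists_mod HE
  have hM0 : (M : Eis) ≠ 0 := DCK.nat_ne hMp.ne'
  have hfin := hSPP.2.2.1 (M : Eis) hM0
  refine ⟨9 * M, by omega, ?_⟩
  intro f hf0 hf
  have h9 : 9 ∣ f := (Dvd.intro _ rfl).trans hf
  have hf1 : 1 < f := by
    have := Nat.le_of_dvd hf0 h9
    omega
  have hMf : M ∣ f := (Dvd.intro_left 9 rfl).trans hf
  have hMfe : (M : Eis) ∣ (f : Eis) := by
    obtain ⟨k, hk⟩ := hMf
    rw [hk]
    push_cast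
    exact Dvd.intro _ rfl
  obtain ⟨C₀, Φ₀, H₀⟩ := lamE hSTM hSPP hSLC hAVE HE hf1 h9
  have hpl : ∀ π : PP, ∃ (c : ZMod 3) (Φ : (ZMod f)ˣ →* Multiplicative (ZMod 3)),
      π.1 ∣ (M : Eis) → ∀ (E Q : ℕ) (hQ : Q.Coprime f),
        (∀ σ : PP, tm σ.1 x ((N : Eis) * (Q : Eis) ^ E) = 0) →
        TTE π ((N : Eis) * (Q : Eis) ^ E) b x p q p' q' =
          c + E * (Φ (ZMod.unitOfCoprime Q hQ)).toAdd := by
    intro π
    by_cases hπM : π.1 ∣ (M : Eis)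
    · obtain ⟨C, Φ, H⟩ := tameE hSTM hSPP hAVE HE π hf1 (hπM.trans hMfe)
      exact ⟨C, Φ, fun _ => H⟩
    · exact ⟨0, 1, fun h => absurd h hπM⟩
  choose c Φ H using hpl
  refine ⟨C₀ + ∑ π ∈ hfin.toFinset, c π, Φ₀ * ∏ π ∈ hfin.toFinset, Φ π, 0, ?_⟩
  intro E Q hQ hE hQp _ hQ3 hsb hsx ξ hξ
  obtain ⟨πQ, hπQ⟩ := hSPP.2.2.2.2.1 Q hQp hQ3
  have hB := DE2.B_ne HE hf1 E hQ
  have hQM : ¬ πQ.1 ∣ (M : Eis) := by
    intro h
    rw [hπQ] at h
    have h1 : ((Q : ℤ) : Eis) ∣ ((M : ℤ) : Eis) := by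
      rw [Int.cast_natCast, Int.cast_natCast]
      exact h
    have h2 : Q ∣ M := Int.natCast_dvd_natCast.1 (intCast_dvd_intCast.1 h1)
    have h3 := Nat.Coprime.eq_one_of_dvd hQ (h2.trans hMf)
    exact hQp.one_lt.ne' h3
  have hTQ := atQ hSTM hSPP hAVE hLCI HE πQ hE hπQ (fun h => hQM (h.trans dN))
    (fun h => hQM (h.trans d1)) (fun h => hQM (h.trans d2)) hsb hsx hξ
  have hQS : πQ ∉ hfin.toFinset := by
    rw [Set.Finite.mem_toFinset]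
    exact hQM
  classical
  have hsupp : (Function.support fun π : PP =>
      TTE π ((N : Eis) * (Q : Eis) ^ E) b x p q p' q') ⊆
      ((insert πQ hfin.toFinset : Finset PP) : Set PP) := by
    intro π hv
    by_contra hnv
    apply hv
    have hnM : ¬ π.1 ∣ (M : Eis) := by
      intro h
      apply hnv
      rw [Finset.mem_coe]
      refine Finset.mem_insert_of_mem ?_
      rw [Set.Finite.mem_toFinset]
      exact h
    have hπne : π ≠ πQ := by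
      rintro rfl
      apply hnv
      rw [Finset.mem_coe]
      exact Finset.mem_insert_self _ _
    have hπQnd : ¬ π.1 ∣ (Q : Eis) := by
      rw [← hπQ]
      intro h
      exact hπne (hSPP.2.1 π πQ (π.2.1.associated_of_dvd πQ.2.1 h))
    have hπN : ¬ π.1 ∣ (N : Eis) := fun h => hnM (h.trans dN)
    refine outE hSTM hSPP hAVE HE π hB ?_ hπN (fun h => hnM (h.trans d1))
      (fun h => hnM (h.trans d2)) hsx
    intro h
    rcases π.2.1.dvd_or_dvd h with h1 | h1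
    · exact hπN h1
    · exact hπQnd (π.2.1.dvd_of_dvd_pow h1)
  have hsum : ∑ π ∈ hfin.toFinset, TTE π ((N : Eis) * (Q : Eis) ^ E) b x p q p' q' =
      ∑ π ∈ hfin.toFinset, (c π + E * (Φ π (ZMod.unitOfCoprime Q hQ)).toAdd) := by
    refine Finset.sum_congr rfl ?_
    intro π hπ
    rw [Set.Finite.mem_toFinset] at hπ
    exact H π hπ E Q hQ hsx
  unfold OZE
  rw [finsum_eq_sum_of_support_subset _ hsupp, Finset.sum_insert hQS, hsum, hTQ,
    H₀ E Q hQ hsb hsx, Finset.sum_add_distrib, MonoidHom.mul_apply,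
    MonoidHom.finsetProd_apply, toAdd_mul, toAdd_prod, ← Finset.mul_sum]
  ring

end Pool.Agent.PTK

end
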