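import Pool.Agent.PTWX.C76
import Pool.Agent.PTWX.C77
import Pool.Agent.PTWX.C78
import Pool.Agent.PTWX.C80
import Pool.Agent.PTWX.C81
import Pool.Agent.PTWX.C83
import Pool.Agent.PTWX.C84
import Pool.Agent.PTWX.C85
import Pool.Agent.PTWX.C86
import Pool.Agent.PTWX.C87
import Pool.Agent.PTWX.C88
import Pool.Agent.PTWX.C89
import Pool.Agent.PTWX.C90


/-!
# The law of the ranks of prime twists: assembly
-/

namespace Pool.Agent.PTK.FinalW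

open Pool.Agent.PTK

theorem jUPS : Stmt_UPS := UPS_thm 

theorem jPLE : Stmt_PLE := PLE_thm Pool.Agent.PTN.Final.fNBAS Pool.Agent.PT3.Final.fESYT

theorem jVDIM : Stmt_VDIM := VDIM_thm 

theorem jZBA : Stmt_ZBA := ZBA_thm jVDIM

theorem jNFL : Stmt_NFL := NFL_thm 

theorem jNRK : Stmt_NRK := NRK_thm 

theorem jNHN : Stmt_NHN := NHN_thm 

theorem jNTR : Stmt_NTR := NTR_thm Pool.Agent.PT.Final.fSPP jNHN

theorem jLCI : Stmt_LCI := LCI_thm Pool.Agent.PT.Final.fSPP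

theorem jNCN : Stmt_NCN := NCN_thm Pool.Agent.PT.Final.fSPP jLCI jNHN jNTR

theorem jNFX : Stmt_NFX := NFX_thm Pool.Agent.PT.Final.fSPP jNHN jNTR

theorem jNHO : Stmt_NHO := NHO_thm Pool.Agent.PT.Final.fSPP jNHN jNTR

theorem jNNS : Stmt_NNS := NNS_thm 

theorem jNGN : Stmt_NGN := NGN_thm Pool.Agent.PT.Final.fSPP Pool.Agent.PT.Final.fSREC jLCI Pool.Agent.PT.Final.fNAUX

theorem jNMN : Stmt_NMN := NMN_thm Pool.Agent.PT.Final.fSTM Pool.Agent.PT.Final.fSPP Pool.Agent.PT.Final.fSSL Pool.Agent.PT.Final.fSLC Pool.Agent.PT.Final.fHERBQ Pool.Agent.PT.Final.fSUN jNRK jNHN jNTR jNCN jNFX jNHO jNNS jNGN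

theorem jNDS : Stmt_NDS := NDS_thm 

theorem jHNE : Stmt_HNE := HNE_thm jNFL jNMN jNDS

theorem jNG2 : Stmt_NG2 := NG2_thm Pool.Agent.PT.Final.fSPP Pool.Agent.PT.Final.fSSL Pool.Agent.PT.Final.fSREC Pool.Agent.PT.Final.fSLC jLCI Pool.Agent.PT.Final.fNAUX

theorem jNM2 : Stmt_NM2 := NM2_thm Pool.Agent.PT.Final.fSTM Pool.Agent.PT.Final.fSPP Pool.Agent.PT.Final.fSSL Pool.Agent.PT.Final.fSLC Pool.Agent.PT.Final.fHERBQ Pool.Agent.PT.Final.fSUN jNRK jNHN jNTR jNCN jNFX jNHO jNNS jNG2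

theorem jHN2 : Stmt_HN2 := HN2_thm jNFL jNM2 jNDS

theorem jZA : Stmt_ZA := ZA_thm Pool.Agent.PT.Final.fSPP Pool.Agent.PT.Final.fSSL Pool.Agent.PT.Final.fSREC Pool.Agent.PT3.Final.fLCL

theorem jZI : Stmt_ZI := ZI_thm jZA

theorem jZL : Stmt_ZL := ZL_thm Pool.Agent.PT.Final.fSPP Pool.Agent.PT.Final.fSSL Pool.Agent.PT.Final.fSREC Pool.Agent.PT.Final.fSCJ

theorem jZC : Stmt_ZC := ZC_thm Pool.Agent.PT.Final.fSTM Pool.Agent.PT.Final.fSPP Pool.Agent.PT.Final.fSSL Pool.Agent.PT.Final.fSCJ Pool.Agent.PT3.Final.fLCL jZA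

theorem jZT : Stmt_ZT := ZT_thm Pool.Agent.PT.Final.fSTM Pool.Agent.PT.Final.fSPP Pool.Agent.PT.Final.fSCJ jLCI jZA jZC

theorem jMSF : Stmt_MSF := MSF_thm jHNE jHN2 jZA jZI jZL jZT Pool.Agent.PT.Final.fSSL Pool.Agent.PT.Final.fSREC Pool.Agent.PT.Final.fSCJ Pool.Agent.PT.Final.fSPP

theorem jCNM : Stmt_CNM := CNM_thm 

theorem jZS : Stmt_ZS := ZS_thm Pool.Agent.PT.Final.fSTM Pool.Agent.PT.Final.fSPP Pool.Agent.PT.Final.fSSL Pool.Agent.PT.Final.fSCJ Pool.Agent.PT3.Final.fLCL jZA jZC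

theorem jS1G : Stmt_S1G := S1G_thm Pool.Agent.PTN.Final.fKEX Pool.Agent.PTN.Final.fKEMB Pool.Agent.PTN.Final.fKAD Pool.Agent.PTN.Final.fKMI

theorem jWGR : Stmt_WGR := WGR_thm Pool.Agent.PT.Final.fSPP Pool.Agent.PT.Final.fSSL Pool.Agent.PT.Final.fSCJ Pool.Agent.PT3.Final.fLCL Pool.Agent.PTN.Final.fNKIN jZA jZS jS1G

theorem jNBW : Stmt_NBW := NBW_thm Pool.Agent.PTN.Final.fKID Pool.Agent.PTN.Final.fNADT Pool.Agent.PTN.Final.fNPLU Pool.Agent.PT3.Final.fTENT jWGR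

theorem jAVE : Stmt_AVE := AVE_thm Pool.Agent.PT.Final.fSTM Pool.Agent.PT.Final.fSPP Pool.Agent.PT.Final.fSLC

theorem jLFE : Stmt_LFE := LFE_thm jAVE Pool.Agent.PT.Final.fSTM Pool.Agent.PT.Final.fSPP Pool.Agent.PT.Final.fSSL

theorem jIF1 : Stmt_IF1 := IF1_thm 

theorem jIF2 : Stmt_IF2 := IF2_thm Pool.Agent.PT.Final.fSTAR

theorem jIF4 : Stmt_IF4 := IF4_thm Pool.Agent.PT.Final.fSTAR

theorem jF6R : Stmt_F6R := F6R_thm Pool.Agent.PT.Final.fSTM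

theorem jF7U : Stmt_F7U := F7U_thm Pool.Agent.PT.Final.fSTM

theorem jSVF : Stmt_SVF := SVF_thm Pool.Agent.PT.Final.fSSL

theorem jIIAG : Stmt_IIAG := IIAG_thm Pool.Agent.PT.Final.fSTM Pool.Agent.PT.Final.fSPP Pool.Agent.PT.Final.fSSL jLCI jIF1 jIF2 jIF4 jF6R jF7U jSVF

theorem jIIA : Stmt_IIA := IIA_thm Pool.Agent.PT.Final.fSLC jIIAG

theorem jSAE : Stmt_SAE := SAE_thm Pool.Agent.PT.Final.fSTM Pool.Agent.PT.Final.fSPP jLCI jIF4 jF6R jF7U jSVF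

theorem jLMC : Stmt_LMC := LMC_thm Pool.Agent.PT.Final.fSSL Pool.Agent.PT.Final.fSLC Pool.Agent.PT.Final.fSREC Pool.Agent.PT.Final.fSCJ Pool.Agent.PT3.Final.fLCL jLCI

theorem jRAE : Stmt_RAE := RAE_thm jAVE jIIA jIF2 jSAE jLMC jLCI Pool.Agent.PT.Final.fSSL Pool.Agent.PT.Final.fSLC Pool.Agent.PT.Final.fSCJ Pool.Agent.PT3.Final.fLCL

theorem jTAE : Stmt_TAE := TAE_thm jAVE jLFE jRAE jLCI Pool.Agent.PT.Final.fSTM Pool.Agent.PT.Final.fSPP Pool.Agent.PT.Final.fSLC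

theorem jTHE : Stmt_THE := THE_thm jAVE jLMC jLCI Pool.Agent.PT.Final.fSTM Pool.Agent.PT.Final.fSPP Pool.Agent.PT.Final.fSSL Pool.Agent.PT.Final.fSLC

theorem jCHE : Stmt_CHE := CHE_thm jTAE jTHE Pool.Agent.PT.Final.fSTM Pool.Agent.PT.Final.fSPP

theorem jF2E : Stmt_F2E := F2E_thm Pool.Agent.PT.Final.fSTM Pool.Agent.PT.Final.fSPP jLCI jIF2

theorem jF3E : Stmt_F3E := F3E_thm Pool.Agent.PT.Final.fSTM

theorem jF4E : Stmt_F4E := F4E_thm 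

theorem jLAE : Stmt_LAE := LAE_thm jAVE jF2E jF3E jF4E jIF1 jLCI Pool.Agent.PT.Final.fSTM Pool.Agent.PT.Final.fSPP

theorem jTLE : Stmt_TLE := TLE_thm jAVE jLAE jLFE jLMC jIF1 jLCI Pool.Agent.PT.Final.fSSL Pool.Agent.PT.Final.fSLC

theorem jIF4B : Stmt_IF4B := IF4B_thm Pool.Agent.PT.Final.fSTAR

theorem jLFV : Stmt_LFV := LFV_thm Pool.Agent.PT.Final.fSPP

theorem jLEE : Stmt_LEE := LEE_thm jAVE jF2E jF3E jF4E Pool.Agent.PT.Final.fSTM Pool.Agent.PT.Final.fSPP jLCI jIF1 jIF4 jIF4B jF6R jF7U jLFV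

theorem jTPE : Stmt_TPE := TPE_thm jAVE jLEE jLFE jLMC jIIA jIF2 jIF4 jSVF jLCI Pool.Agent.PT.Final.fSSL Pool.Agent.PT.Final.fSLC

theorem jZKE : Stmt_ZKE := ZKE_thm jCHE jTLE jTPE Pool.Agent.PT.Final.fSTM Pool.Agent.PT.Final.fSPP

theorem jZSU : Stmt_ZSU := ZSU_thm Pool.Agent.PT.Final.fSTM Pool.Agent.PT.Final.fSPP Pool.Agent.PT.Final.fSSL Pool.Agent.PT.Final.fSCJ Pool.Agent.PT3.Final.fLCL jZA jZC

theorem jWSB : Stmt_WSB := WSB_thm jZA jS1G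

theorem jPT : Stmt_PT := PT_thm 

theorem jLRR : Stmt_LRR := LRR_thm Pool.Agent.PT3.Final.fLCL

theorem jPTX : Stmt_PTX := PTX_thm jLRR Pool.Agent.PT.Final.fSSL Pool.Agent.PT.Final.fSLC Pool.Agent.PT.Final.fSCJ Pool.Agent.PT3.Final.fLCL

theorem jKN1 : Stmt_KN1 := KN1_thm Pool.Agent.PT.Final.fSLC

theorem jLKN : Stmt_LKN := LKN_thm Pool.Agent.PT.Final.fSSL Pool.Agent.PT.Final.fSREC

theorem jPTY : Stmt_PTY := PTY_thm jKN1 jLKN jLMC jLCI jLRR Pool.Agent.PT.Final.fSSL Pool.Agent.PT.Final.fSLC Pool.Agent.PT.Final.fSCJ Pool.Agent.PT3.Final.fLCL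

theorem jZKQ : Stmt_ZKQ := ZKQ_thm Pool.Agent.PT.Final.fSPP Pool.Agent.PT.Final.fSSL Pool.Agent.PT.Final.fSLC Pool.Agent.PT3.Final.fLCL jZKE jZS jZSU jZA jZL jWSB jVDIM jPT jPTX jPTY jLCI

theorem jKUM : Stmt_KUM := KUM_thm Pool.Agent.PTN.Final.fDOMG Pool.Agent.PTN.Final.fLAW

theorem jMSP : Stmt_MSP := MSP_thm Pool.Agent.PT3.Final.fDCOT Pool.Agent.PT3.Final.fTENT Pool.Agent.PTN.Final.fNADT

theorem jDE2 : Stmt_DE2 := DE2_thm jAVE jLCI Pool.Agent.PT.Final.fSTM Pool.Agent.PT.Final.fSPP Pool.Agent.PT.Final.fSLC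

theorem jZS2 : Stmt_ZS2 := ZS2_thm jDE2 jZS jZA Pool.Agent.PT.Final.fSTM Pool.Agent.PT.Final.fSPP

theorem jMZF : Stmt_MZF := MZF_thm 

theorem jGTK : Stmt_GTK := GTK_thm 

theorem jGFK : Stmt_GFK := GFK_thm 

theorem jMKU : Stmt_MKU := MKU_thm Pool.Agent.PT.Final.fKUM

theorem jMC1 : Stmt_MC1 := MC1_thm jMKU

theorem jMC2 : Stmt_MC2 := MC2_thm jMKU

theorem jMAL : Stmt_MAL := MAL_thm jMZF Pool.Agent.PT.Final.fGCHI Pool.Agent.PT3.Final.fGTG Pool.Agent.PT3.Final.fGFRG jGTK jGFK jMC1 jMC2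

theorem jDNS : Stmt_DNS := DNS_thm Pool.Agent.PT.Final.fDIR

theorem jBM2 : Stmt_BM2 := BM2_thm jLCI Pool.Agent.PTN.Final.fEQX jMAL jDNS

theorem jMD2 : Stmt_MD2 := MD2_thm Pool.Agent.PT.Final.fCLSC jMSP jZS2 jBM2

theorem jJD2 : Stmt_JD2 := JD2_thm jUPS jKUM jMD2 jZKQ jCNM

theorem jFL2 : Stmt_FL2 := FL2_thm jUPS jPLE jZBA jMSF jCNM jNBW jZKQ jJD2

theorem jPLU : Stmt_PLU := PLU_thm Pool.Agent.PT3.Final.fESYT

theorem jWGU : Stmt_WGU := WGU_thm Pool.Agent.PT.Final.fSTM Pool.Agent.PT.Final.fSPP Pool.Agent.PT.Final.fSSL Pool.Agent.PT.Final.fSCJ Pool.Agent.PT3.Final.fLCL Pool.Agent.PTN.Final.fNVEC Pool.Agent.PTN.Final.fNKIN jZA jZSU jS1G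

theorem jNBU : Stmt_NBU := NBU_thm Pool.Agent.PTN.Final.fKID Pool.Agent.PTN.Final.fNKIN Pool.Agent.PTN.Final.fNADU Pool.Agent.PTN.Final.fNPLU Pool.Agent.PT3.Final.fTENT Pool.Agent.PT.Final.fSPP Pool.Agent.PTE.Final.fSPLT jWGU

theorem jNBX : Stmt_NBX := NBX_thm Pool.Agent.PTN.Final.fKID Pool.Agent.PTN.Final.fNKIN Pool.Agent.PTN.Final.fNADU Pool.Agent.PTN.Final.fNPLU Pool.Agent.PT3.Final.fTENT Pool.Agent.PT.Final.fSPP Pool.Agent.PTE.Final.fSPLT jWGU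

theorem jPAT : Stmt_PAT := PAT_thm 

theorem jZPV : Stmt_ZPV := ZPV_thm Pool.Agent.PTE.Final.fSPLT Pool.Agent.PT.Final.fSPP

theorem jESR : Stmt_ESR := ESR_thm 

theorem jESZ : Stmt_ESZ := ESZ_thm jESR

theorem jMSPU : Stmt_MSPU := MSPU_thm Pool.Agent.PT3.Final.fDCOU Pool.Agent.PT3.Final.fTENT Pool.Agent.PTN.Final.fNADU Pool.Agent.PTE.Final.fSPLT

theorem jDE1 : Stmt_DE1 := DE1_thm jAVE jLCI Pool.Agent.PT.Final.fSTM Pool.Agent.PT.Final.fSPP Pool.Agent.PT.Final.fSLC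

theorem jZS1 : Stmt_ZS1 := ZS1_thm jDE1 jZSU jZA Pool.Agent.PT.Final.fSPP

theorem jGTU : Stmt_GTU := GTU_thm 

theorem jGFKU : Stmt_GFKU := GFKU_thm Pool.Agent.PT.Final.fSPP Pool.Agent.PT.Final.fSCJ Pool.Agent.PTE.Final.fSPLT

theorem jMAU : Stmt_MAU := MAU_thm jMZF Pool.Agent.PT.Final.fGCHI Pool.Agent.PTE.Final.fGTS Pool.Agent.PTE.Final.fGKUM Pool.Agent.PTN.Final.fGFRU jGTU jGFKU jMC1 jMC2

theorem jDNS1 : Stmt_DNS1 := DNS1_thm Pool.Agent.PT.Final.fDIR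

theorem jBMU : Stmt_BMU := BMU_thm Pool.Agent.PT.Final.fSPP Pool.Agent.PTE.Final.fSPLT jLCI Pool.Agent.PTN.Final.fEQX jMAU jDNS1

theorem jMDU : Stmt_MDU := MDU_thm Pool.Agent.PT.Final.fCLSC Pool.Agent.PTE.Final.fCLSCS jMSPU jZS1 jBMU

theorem jJDG : Stmt_JDG := JDG_thm jUPS jKUM jMDU jZKQ jCNM

theorem jMPZ : Stmt_MPZ := MPZ_thm Pool.Agent.PT3.Final.fDCOU Pool.Agent.PT3.Final.fTENT Pool.Agent.PTN.Final.fNADU Pool.Agent.PTE.Final.fSPLT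

theorem jGTZ : Stmt_GTZ := GTZ_thm 

theorem jGFZ : Stmt_GFZ := GFZ_thm Pool.Agent.PTE.Final.fSPLT

theorem jMAZ : Stmt_MAZ := MAZ_thm jMZF jMC1 jMC2 jGTZ jGFZ jGTU jGFKU Pool.Agent.PT.Final.fGCHI Pool.Agent.PTE.Final.fGKUM

theorem jBMZ : Stmt_BMZ := BMZ_thm Pool.Agent.PT.Final.fSPP Pool.Agent.PTE.Final.fSPLT jLCI Pool.Agent.PTN.Final.fEQX jMAZ jDNS1

theorem jMDZ : Stmt_MDZ := MDZ_thm Pool.Agent.PT.Final.fCLSC Pool.Agent.PTE.Final.fCLSCS jMPZ jZS1 jBMZ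

theorem jJDZ : Stmt_JDZ := JDZ_thm jUPS jKUM jMDZ jZKQ jCNM

theorem jFL1 : Stmt_FL1 := FL1_thm jUPS Pool.Agent.PTN.Final.fNHPT jPLU jPLE jNBU jNBX jPAT jZPV jESZ jZBA jMSF jCNM jZKQ jJDG jJDZ

theorem jUPA : Stmt_UPA := UPA_thm Pool.Agent.PT.Final.fSPP

theorem jUPL : Stmt_UPL := UPL_thm 

theorem jFB : Stmt_FB := FB_thm jFL2 jFL1 jUPA jUPL Pool.Agent.PTN.Final.fCLT Pool.Agent.PTN.Final.fCLN Pool.Agent.PTN.Final.fCLU Pool.Agent.PT.Final.fSPP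

theorem jLAM : Stmt_LAM := LAM_thm 

theorem jESB : Stmt_ESB := ESB_thm jESR

theorem jEKN : Stmt_EKN := EKN_thm jLAM jESB Pool.Agent.PTN.Final.fLAW

theorem jAWF : Stmt_AWF := AWF_thm Pool.Agent.PTN.Final.fSUMA jFB jEKN

theorem jMTL : Stmt_MTL := MTL_thm 

theorem jGMB : Stmt_GMB := GMB_thm 

theorem jMSY : Stmt_MSY := MSY_thm Pool.Agent.PT.Final.fSPP jLCI jHNE jZA jZI jZL jZT jVDIM

theorem jDP1 : Stmt_DP1 := DP1_thm Pool.Agent.PT.Final.fSTM Pool.Agent.PT.Final.fSPP jIF4 jIF4B jF6R jF7U jLFV jLCI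

theorem jDP2 : Stmt_DP2 := DP2_thm Pool.Agent.PT.Final.fSLC jIF2 jIIA

theorem jDP3 : Stmt_DP3 := DP3_thm Pool.Agent.PT.Final.fSTM Pool.Agent.PT.Final.fSPP jIF4 jF7U jLFV jLCI

theorem jDP4U : Stmt_DP4U := DP4U_thm Pool.Agent.PT.Final.fSTM Pool.Agent.PT.Final.fSPP jIF4 jLCI

theorem jDCKU : Stmt_DCKU := DCKU_thm Pool.Agent.PT.Final.fSPP jDP1 jDP2 jDP3 jDP4U jSVF

theorem jDX1 : Stmt_DX1 := DX1_thm Pool.Agent.PT.Final.fSTM Pool.Agent.PT.Final.fSPP jIF4 jIF4B jF6R jF7U jLFV jLCI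

theorem jDX2 : Stmt_DX2 := DX2_thm Pool.Agent.PT.Final.fSLC Pool.Agent.PT.Final.fSSL jLCI jIF4

theorem jDX3 : Stmt_DX3 := DX3_thm Pool.Agent.PT.Final.fSTM Pool.Agent.PT.Final.fSPP jIF4 jF7U jLFV jLCI

theorem jDX4 : Stmt_DX4 := DX4_thm Pool.Agent.PT.Final.fSTM Pool.Agent.PT.Final.fSPP jIF4 jLCI

theorem jDXL : Stmt_DXL := DXL_thm Pool.Agent.PT.Final.fSPP jSVF jDX1 jDX2 jDX3 jDX4

theorem jMS1 : Stmt_MS1 := MS1_thm jDCKU jDXL jPT jPTX jZSU jZA Pool.Agent.PT3.Final.fLCL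

theorem jMTZ : Stmt_MTZ := MTZ_thm Pool.Agent.PT.Final.fCLSC Pool.Agent.PTE.Final.fCLSCS jMSY jMPZ jMS1 jBMZ

theorem jCLV : Stmt_CLV := CLV_thm Pool.Agent.PTN.Final.fNHPT jPLE Pool.Agent.PTN.Final.fDLU Pool.Agent.PTN.Final.fSMT jPAT jZPV jNBX jMTZ jESZ

theorem jCAV : Stmt_CAV := CAV_thm Pool.Agent.PT.Final.fSPP jCLV Pool.Agent.PTN.Final.fCLU Pool.Agent.PTN.Final.fDOMG Pool.Agent.PTN.Final.fLAW

theorem jCBV : Stmt_CBV := CBV_thm jCLV Pool.Agent.PTN.Final.fCLU Pool.Agent.PTN.Final.fCLT Pool.Agent.PT.Final.fSPP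

theorem jALV : Stmt_ALV := ALV_thm jCAV jCBV Pool.Agent.PTN.Final.fLAW Pool.Agent.PTN.Final.fSUMA Pool.Agent.PTN.Final.fNDIM Pool.Agent.PTN.Final.fNSUM Pool.Agent.PTN.Final.fNZER Pool.Agent.PTN.Final.fNSU1 Pool.Agent.PTN.Final.fNZE1

theorem jMAW : Stmt_MAW := MAW_thm jFB jEKN jAWF jMTL jGMB jALV Pool.Agent.PTN.Final.fNFE Pool.Agent.PTN.Final.fNDIM Pool.Agent.PTN.Final.fNSUM Pool.Agent.PTN.Final.fNZER Pool.Agent.PTN.Final.fNSU1 Pool.Agent.PTN.Final.fNZE1 Pool.Agent.PTN.Final.fNZE0 Pool.Agent.PTN.Final.fALLQ Pool.Agent.PTN.Final.fTRU Pool.Agent.PTN.Final.fTRC Pool.Agent.PTN.Final.fCLN Pool.Agent.PTN.Final.fCLU Pool.Agent.PTN.Final.fSUMA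

end Pool.Agent.PTK.FinalW
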